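import Pool.Agent.AKXS_34_39_VA.Lib
import Pool.Agent.AKX.Split

set_option autoImplicit false

namespace Pool.Agent.AKXS_34_39_VA

open Pool.Agent.AKX Pool.Agent.AKU

theorem q6 :
    (chkQ D.T G offw offa offb wn (nat_lit 3) (rg (nat_lit 5) (nat_lit 5)) = true) ∧
    (chkQ D.T G offw offa offb wn (nat_lit 3) (rg (nat_lit 10) (nat_lit 11)) = true) ∧
    (chkQ D.T G offw offa offb wn (nat_lit 3) (rg (nat_lit 21) (nat_lit 8)) = true) ∧
    (chkQ D.T G offw offa offb wn (nat_lit 3) (rg (nat_lit 29) (nat_lit 29)) = true) ∧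
    (chkQ D.T G offw offa offb wn (nat_lit 4) (rg (nat_lit 4) (nat_lit 1)) = true) :=
  ⟨by decide +kernel,
   by decide +kernel,
   by decide +kernel,
   by decide +kernel,
   by decide +kernel⟩

end Pool.Agent.AKXS_34_39_VA
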