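import Pool.Agent.AKXS_34_39_VA.R0
import Pool.Agent.AKXS_34_39_VA.R1
import Pool.Agent.AKXS_34_39_VA.R2
import Pool.Agent.AKXS_34_39_VA.R3
import Pool.Agent.AKXS_34_39_VA.R4
import Pool.Agent.AKXS_34_39_VA.R5
import Pool.Agent.AKXS_34_39_VA.R6
import Pool.Agent.AKXS_34_39_VA.R7
import Pool.Agent.AKXS_34_39_VA.R8
import Pool.Agent.AKXS_34_39_VA.R9
import Pool.Agent.AKXS_34_39_VA.R10
import Pool.Agent.AKXS_34_39_VA.R11
import Pool.Agent.AKXS_34_39_VA.R12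

set_option autoImplicit false

namespace Pool.Agent.AKXS_34_39_VA

open Pool.Agent.AKX Pool.Agent.AKU

noncomputable def e6_0 : List Rx := [
  Rx.mk (nat_lit 116) (nat_lit 4) (nat_lit 6) (nat_lit 1) (nat_lit 6) (nat_lit 67) (nat_lit 71) r3_67 r0_71 (nat_lit 121) (nat_lit 0) (nat_lit 0) (nat_lit 0x80002aa9e) (nat_lit 1073731445)]
noncomputable def e6_1 : List Rx := [
  Rx.mk (nat_lit 116) (nat_lit 4) (nat_lit 6) (nat_lit 1) (nat_lit 6) (nat_lit 68) (nat_lit 66) r3_68 r1_66 (nat_lit 2087) (nat_lit 0) (nat_lit 0) (nat_lit 0x83b63534a) (nat_lit 1013722111),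
  Rx.mk (nat_lit 372) (nat_lit 4) (nat_lit 6) (nat_lit 5) (nat_lit 6) (nat_lit 69) (nat_lit 67) r3_69 r1_67 (nat_lit 30018) (nat_lit 0) (nat_lit 0) (nat_lit 0x7f80f42c0) (nat_lit 1082047842),
  Rx.mk (nat_lit 374) (nat_lit 6) (nat_lit 6) (nat_lit 5) (nat_lit 7) (nat_lit 70) (nat_lit 68) r3_70 r1_68 (nat_lit 0) (nat_lit 0) (nat_lit 0) (nat_lit 0x7eddd189a) (nat_lit 1092721324)]
noncomputable def e6_2 : List Rx := [
  Rx.mk (nat_lit 342) (nat_lit 6) (nat_lit 2) (nat_lit 5) (nat_lit 7) (nat_lit 20) (nat_lit 60) r3_20 r2_60 (nat_lit 0) (nat_lit 0) (nat_lit 0) (nat_lit 0x8c10f8f0e) (nat_lit 878699324),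
  Rx.mk (nat_lit 372) (nat_lit 4) (nat_lit 6) (nat_lit 5) (nat_lit 6) (nat_lit 21) (nat_lit 59) r3_21 r2_59 (nat_lit 205631) (nat_lit 0) (nat_lit 0) (nat_lit 0x8653f4da4) (nat_lit 971638355),
  Rx.mk (nat_lit 374) (nat_lit 6) (nat_lit 6) (nat_lit 5) (nat_lit 7) (nat_lit 22) (nat_lit 61) r3_22 r2_61 (nat_lit 0) (nat_lit 0) (nat_lit 0) (nat_lit 0x9397f870a) (nat_lit 756973324)]
noncomputable def e6_3 : List Rx := [
  Rx.mk (nat_lit 39) (nat_lit 7) (nat_lit 4) (nat_lit 0) (nat_lit 1) (nat_lit 61) (nat_lit 63) r3_61 r3_63 (nat_lit 0) (nat_lit 40) (nat_lit 17) (nat_lit 0x80b6432ae) (nat_lit 1062228881),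
  Rx.mk (nat_lit 52) (nat_lit 4) (nat_lit 6) (nat_lit 0) (nat_lit 2) (nat_lit 63) (nat_lit 61) r3_63 r3_61 (nat_lit 40) (nat_lit 0) (nat_lit 17) (nat_lit 0x80b6432ae) (nat_lit 1062228881),
  Rx.mk (nat_lit 55) (nat_lit 7) (nat_lit 6) (nat_lit 0) (nat_lit 3) (nat_lit 65) (nat_lit 65) r3_65 r3_65 (nat_lit 0) (nat_lit 0) (nat_lit 134512) (nat_lit 0x8af027f88) (nat_lit 897028636),
  Rx.mk (nat_lit 103) (nat_lit 7) (nat_lit 4) (nat_lit 1) (nat_lit 5) (nat_lit 62) (nat_lit 64) r3_62 r3_64 (nat_lit 0) (nat_lit 1677) (nat_lit 0) (nat_lit 0x8c10f3504) (nat_lit 878623501),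
  Rx.mk (nat_lit 116) (nat_lit 4) (nat_lit 6) (nat_lit 1) (nat_lit 6) (nat_lit 64) (nat_lit 62) r3_64 r3_62 (nat_lit 1677) (nat_lit 0) (nat_lit 0) (nat_lit 0x8c10f3504) (nat_lit 878623501),
  Rx.mk (nat_lit 119) (nat_lit 7) (nat_lit 6) (nat_lit 1) (nat_lit 7) (nat_lit 66) (nat_lit 66) r3_66 r3_66 (nat_lit 0) (nat_lit 0) (nat_lit 0) (nat_lit 0x8cb63c2a4) (nat_lit 868259424)]
noncomputable def e6_4 : List Rx := [
  Rx.mk (nat_lit 103) (nat_lit 7) (nat_lit 4) (nat_lit 1) (nat_lit 5) (nat_lit 71) (nat_lit 66) r3_71 r4_66 (nat_lit 0) (nat_lit 59693) (nat_lit 0) (nat_lit 0x82d304170) (nat_lit 1028137517),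
  Rx.mk (nat_lit 116) (nat_lit 4) (nat_lit 6) (nat_lit 1) (nat_lit 6) (nat_lit 72) (nat_lit 65) r3_72 r4_65 (nat_lit 5075) (nat_lit 0) (nat_lit 0) (nat_lit 0x7fff94c6a) (nat_lit 1073774799),
  Rx.mk (nat_lit 119) (nat_lit 7) (nat_lit 6) (nat_lit 1) (nat_lit 7) (nat_lit 73) (nat_lit 67) r3_73 r4_67 (nat_lit 0) (nat_lit 0) (nat_lit 0) (nat_lit 0x81c174334) (nat_lit 1045360024)]
noncomputable def e6_5 : List Rx := [
  Rx.mk (nat_lit 39) (nat_lit 7) (nat_lit 4) (nat_lit 0) (nat_lit 1) (nat_lit 82) (nat_lit 55) r3_82 r5_55 (nat_lit 0) (nat_lit 634) (nat_lit 480) (nat_lit 0x80005933a) (nat_lit 1073721238),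
  Rx.mk (nat_lit 52) (nat_lit 4) (nat_lit 6) (nat_lit 0) (nat_lit 2) (nat_lit 84) (nat_lit 52) r3_84 r5_52 (nat_lit 316) (nat_lit 0) (nat_lit 177) (nat_lit 0x81669eebe) (nat_lit 1051089317),
  Rx.mk (nat_lit 55) (nat_lit 7) (nat_lit 6) (nat_lit 0) (nat_lit 3) (nat_lit 87) (nat_lit 59) r3_87 r5_59 (nat_lit 0) (nat_lit 0) (nat_lit 80098) (nat_lit 0x8d65266a2) (nat_lit 857234422),
  Rx.mk (nat_lit 63) (nat_lit 7) (nat_lit 7) (nat_lit 0) (nat_lit 3) (nat_lit 89) (nat_lit 57) r3_89 r5_57 (nat_lit 0) (nat_lit 0) (nat_lit 12988) (nat_lit 0x75ca83206) (nat_lit 1243973512),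
  Rx.mk (nat_lit 103) (nat_lit 7) (nat_lit 4) (nat_lit 1) (nat_lit 5) (nat_lit 83) (nat_lit 56) r3_83 r5_56 (nat_lit 0) (nat_lit 1003900) (nat_lit 0) (nat_lit 0x7e3ac80c2) (nat_lit 1104359824),
  Rx.mk (nat_lit 116) (nat_lit 4) (nat_lit 6) (nat_lit 1) (nat_lit 6) (nat_lit 85) (nat_lit 53) r3_85 r5_53 (nat_lit 1650932) (nat_lit 0) (nat_lit 0) (nat_lit 0x848b5b614) (nat_lit 1001973956),
  Rx.mk (nat_lit 119) (nat_lit 7) (nat_lit 6) (nat_lit 1) (nat_lit 7) (nat_lit 88) (nat_lit 60) r3_88 r5_60 (nat_lit 0) (nat_lit 0) (nat_lit 0) (nat_lit 0x9e7dac8be) (nat_lit 580755524),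
  Rx.mk (nat_lit 127) (nat_lit 7) (nat_lit 7) (nat_lit 1) (nat_lit 7) (nat_lit 90) (nat_lit 58) r3_90 r5_58 (nat_lit 0) (nat_lit 0) (nat_lit 0) (nat_lit 0x8004ac4b4) (nat_lit 1073599124),
  Rx.mk (nat_lit 244) (nat_lit 4) (nat_lit 6) (nat_lit 3) (nat_lit 6) (nat_lit 86) (nat_lit 54) r3_86 r5_54 (nat_lit 37687189) (nat_lit 0) (nat_lit 0) (nat_lit 0x8ea30d5d2) (nat_lit 874777413)]
noncomputable def e6_6 : List Rx := [
  Rx.mk (nat_lit 59) (nat_lit 3) (nat_lit 7) (nat_lit 0) (nat_lit 3) (nat_lit 37) (nat_lit 25) r3_37 r3_25 (nat_lit 0) (nat_lit 0) (nat_lit 273) (nat_lit 0x7fff7b274) (nat_lit 1073775997),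
  Rx.mk (nat_lit 152) (nat_lit 0) (nat_lit 3) (nat_lit 2) (nat_lit 6) (nat_lit 28) (nat_lit 33) r3_28 r3_33 (nat_lit 33) (nat_lit 0) (nat_lit 0) (nat_lit 0x80000898a) (nat_lit 1073739757),
  Rx.mk (nat_lit 154) (nat_lit 2) (nat_lit 3) (nat_lit 2) (nat_lit 7) (nat_lit 29) (nat_lit 36) r3_29 r3_36 (nat_lit 0) (nat_lit 0) (nat_lit 0) (nat_lit 0x7558cc626) (nat_lit 1251421024),
  Rx.mk (nat_lit 155) (nat_lit 3) (nat_lit 3) (nat_lit 2) (nat_lit 7) (nat_lit 31) (nat_lit 34) r3_31 r3_34 (nat_lit 0) (nat_lit 0) (nat_lit 0) (nat_lit 0x7558cc626) (nat_lit 1251421024),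
  Rx.mk (nat_lit 187) (nat_lit 3) (nat_lit 7) (nat_lit 2) (nat_lit 7) (nat_lit 38) (nat_lit 27) r3_38 r3_27 (nat_lit 0) (nat_lit 0) (nat_lit 0) (nat_lit 0x8e77b7d06) (nat_lit 839806524),
  Rx.mk (nat_lit 231) (nat_lit 7) (nat_lit 4) (nat_lit 3) (nat_lit 5) (nat_lit 32) (nat_lit 23) r3_32 r3_23 (nat_lit 0) (nat_lit 273) (nat_lit 0) (nat_lit 0x7fff7b274) (nat_lit 1073775997),
  Rx.mk (nat_lit 247) (nat_lit 7) (nat_lit 6) (nat_lit 3) (nat_lit 7) (nat_lit 35) (nat_lit 30) r3_35 r3_30 (nat_lit 0) (nat_lit 0) (nat_lit 0) (nat_lit 0x8e77b7d06) (nat_lit 839806524),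
  Rx.mk (nat_lit 251) (nat_lit 3) (nat_lit 7) (nat_lit 3) (nat_lit 7) (nat_lit 39) (nat_lit 26) r3_39 r3_26 (nat_lit 0) (nat_lit 0) (nat_lit 0) (nat_lit 0x8075d580c) (nat_lit 1066401324),
  Rx.mk (nat_lit 255) (nat_lit 7) (nat_lit 7) (nat_lit 3) (nat_lit 7) (nat_lit 40) (nat_lit 24) r3_40 r3_24 (nat_lit 0) (nat_lit 0) (nat_lit 0) (nat_lit 0x8075d580c) (nat_lit 1066401324),
  Rx.mk (nat_lit 278) (nat_lit 6) (nat_lit 2) (nat_lit 4) (nat_lit 3) (nat_lit 25) (nat_lit 37) r3_25 r3_37 (nat_lit 0) (nat_lit 0) (nat_lit 273) (nat_lit 0x7fff7b274) (nat_lit 1073775997),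
  Rx.mk (nat_lit 386) (nat_lit 2) (nat_lit 0) (nat_lit 6) (nat_lit 5) (nat_lit 23) (nat_lit 32) r3_23 r3_32 (nat_lit 0) (nat_lit 273) (nat_lit 0) (nat_lit 0x7fff7b274) (nat_lit 1073775997),
  Rx.mk (nat_lit 402) (nat_lit 2) (nat_lit 2) (nat_lit 6) (nat_lit 7) (nat_lit 24) (nat_lit 40) r3_24 r3_40 (nat_lit 0) (nat_lit 0) (nat_lit 0) (nat_lit 0x8075d580c) (nat_lit 1066401324),
  Rx.mk (nat_lit 406) (nat_lit 6) (nat_lit 2) (nat_lit 6) (nat_lit 7) (nat_lit 26) (nat_lit 39) r3_26 r3_39 (nat_lit 0) (nat_lit 0) (nat_lit 0) (nat_lit 0x8075d580c) (nat_lit 1066401324),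
  Rx.mk (nat_lit 410) (nat_lit 2) (nat_lit 3) (nat_lit 6) (nat_lit 7) (nat_lit 30) (nat_lit 35) r3_30 r3_35 (nat_lit 0) (nat_lit 0) (nat_lit 0) (nat_lit 0x8e77b7d06) (nat_lit 839806524),
  Rx.mk (nat_lit 470) (nat_lit 6) (nat_lit 2) (nat_lit 7) (nat_lit 7) (nat_lit 27) (nat_lit 38) r3_27 r3_38 (nat_lit 0) (nat_lit 0) (nat_lit 0) (nat_lit 0x8e77b7d06) (nat_lit 839806524),
  Rx.mk (nat_lit 500) (nat_lit 4) (nat_lit 6) (nat_lit 7) (nat_lit 6) (nat_lit 33) (nat_lit 28) r3_33 r3_28 (nat_lit 33) (nat_lit 0) (nat_lit 0) (nat_lit 0x80000898a) (nat_lit 1073739757),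
  Rx.mk (nat_lit 502) (nat_lit 6) (nat_lit 6) (nat_lit 7) (nat_lit 7) (nat_lit 34) (nat_lit 31) r3_34 r3_31 (nat_lit 0) (nat_lit 0) (nat_lit 0) (nat_lit 0x7558cc626) (nat_lit 1251421024),
  Rx.mk (nat_lit 503) (nat_lit 7) (nat_lit 6) (nat_lit 7) (nat_lit 7) (nat_lit 36) (nat_lit 29) r3_36 r3_29 (nat_lit 0) (nat_lit 0) (nat_lit 0) (nat_lit 0x7558cc626) (nat_lit 1251421024)]
noncomputable def e6_7 : List Rx := [
  Rx.mk (nat_lit 278) (nat_lit 6) (nat_lit 2) (nat_lit 4) (nat_lit 3) (nat_lit 2) (nat_lit 49) r3_2 r0_49 (nat_lit 0) (nat_lit 0) (nat_lit 1675) (nat_lit 0x7fff0f506) (nat_lit 1073805999),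
  Rx.mk (nat_lit 308) (nat_lit 4) (nat_lit 6) (nat_lit 4) (nat_lit 2) (nat_lit 4) (nat_lit 43) r3_4 r0_43 (nat_lit 127) (nat_lit 0) (nat_lit 41) (nat_lit 0x810a42a4e) (nat_lit 1056923092),
  Rx.mk (nat_lit 310) (nat_lit 6) (nat_lit 6) (nat_lit 4) (nat_lit 3) (nat_lit 6) (nat_lit 46) r3_6 r0_46 (nat_lit 0) (nat_lit 0) (nat_lit 340766) (nat_lit 0x7b6c883d0) (nat_lit 1150435990),
  Rx.mk (nat_lit 386) (nat_lit 2) (nat_lit 0) (nat_lit 6) (nat_lit 5) (nat_lit 0) (nat_lit 48) r3_0 r0_48 (nat_lit 0) (nat_lit 2538) (nat_lit 0) (nat_lit 0x7f0d94852) (nat_lit 1089533662),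
  Rx.mk (nat_lit 402) (nat_lit 2) (nat_lit 2) (nat_lit 6) (nat_lit 7) (nat_lit 1) (nat_lit 51) r3_1 r0_51 (nat_lit 0) (nat_lit 0) (nat_lit 0) (nat_lit 0x7e28e0986) (nat_lit 1104512624),
  Rx.mk (nat_lit 406) (nat_lit 6) (nat_lit 2) (nat_lit 6) (nat_lit 7) (nat_lit 3) (nat_lit 50) r3_3 r0_50 (nat_lit 0) (nat_lit 0) (nat_lit 0) (nat_lit 0x7ff88c6a2) (nat_lit 1074376024),
  Rx.mk (nat_lit 500) (nat_lit 4) (nat_lit 6) (nat_lit 7) (nat_lit 6) (nat_lit 5) (nat_lit 44) r3_5 r0_44 (nat_lit 57402) (nat_lit 0) (nat_lit 0) (nat_lit 0x72280bbe8) (nat_lit 1304618126),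
  Rx.mk (nat_lit 502) (nat_lit 6) (nat_lit 6) (nat_lit 7) (nat_lit 7) (nat_lit 7) (nat_lit 47) r3_7 r0_47 (nat_lit 0) (nat_lit 0) (nat_lit 0) (nat_lit 0x805080ac0) (nat_lit 1068781124),
  Rx.mk (nat_lit 503) (nat_lit 7) (nat_lit 6) (nat_lit 7) (nat_lit 7) (nat_lit 8) (nat_lit 45) r3_8 r0_45 (nat_lit 0) (nat_lit 0) (nat_lit 0) (nat_lit 0x7e9e55ea0) (nat_lit 1096868324)]
noncomputable def e6_8 : List Rx := [
  Rx.mk (nat_lit 278) (nat_lit 6) (nat_lit 2) (nat_lit 4) (nat_lit 3) (nat_lit 10) (nat_lit 46) r3_10 r1_46 (nat_lit 0) (nat_lit 0) (nat_lit 15293) (nat_lit 0x7b3235b42) (nat_lit 1153856717),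
  Rx.mk (nat_lit 308) (nat_lit 4) (nat_lit 6) (nat_lit 4) (nat_lit 2) (nat_lit 13) (nat_lit 39) r3_13 r1_39 (nat_lit 680) (nat_lit 0) (nat_lit 335) (nat_lit 0x800093df0) (nat_lit 1073706539),
  Rx.mk (nat_lit 310) (nat_lit 6) (nat_lit 6) (nat_lit 4) (nat_lit 3) (nat_lit 16) (nat_lit 43) r3_16 r1_43 (nat_lit 0) (nat_lit 0) (nat_lit 229167) (nat_lit 0x8456bed52) (nat_lit 1003859891),
  Rx.mk (nat_lit 342) (nat_lit 6) (nat_lit 2) (nat_lit 5) (nat_lit 7) (nat_lit 11) (nat_lit 47) r3_11 r1_47 (nat_lit 0) (nat_lit 0) (nat_lit 0) (nat_lit 0x91b9f06ac) (nat_lit 787168224),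
  Rx.mk (nat_lit 372) (nat_lit 4) (nat_lit 6) (nat_lit 5) (nat_lit 6) (nat_lit 14) (nat_lit 40) r3_14 r1_40 (nat_lit 21896786) (nat_lit 0) (nat_lit 0) (nat_lit 0x7ff19e8fe) (nat_lit 1096714310),
  Rx.mk (nat_lit 374) (nat_lit 6) (nat_lit 6) (nat_lit 5) (nat_lit 7) (nat_lit 17) (nat_lit 44) r3_17 r1_44 (nat_lit 0) (nat_lit 0) (nat_lit 0) (nat_lit 0x80e4a8b62) (nat_lit 1059385624),
  Rx.mk (nat_lit 402) (nat_lit 2) (nat_lit 2) (nat_lit 6) (nat_lit 7) (nat_lit 9) (nat_lit 49) r3_9 r1_49 (nat_lit 0) (nat_lit 0) (nat_lit 0) (nat_lit 0x80d0874f8) (nat_lit 1060662924),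
  Rx.mk (nat_lit 406) (nat_lit 6) (nat_lit 2) (nat_lit 6) (nat_lit 7) (nat_lit 12) (nat_lit 48) r3_12 r1_48 (nat_lit 0) (nat_lit 0) (nat_lit 0) (nat_lit 0x80b7366a2) (nat_lit 1062264424),
  Rx.mk (nat_lit 500) (nat_lit 4) (nat_lit 6) (nat_lit 7) (nat_lit 6) (nat_lit 15) (nat_lit 41) r3_15 r1_41 (nat_lit 1226908) (nat_lit 0) (nat_lit 0) (nat_lit 0x8006f9de8) (nat_lit 1074654532),
  Rx.mk (nat_lit 502) (nat_lit 6) (nat_lit 6) (nat_lit 7) (nat_lit 7) (nat_lit 18) (nat_lit 45) r3_18 r1_45 (nat_lit 0) (nat_lit 0) (nat_lit 0) (nat_lit 0x80616a6a6) (nat_lit 1067696824),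
  Rx.mk (nat_lit 503) (nat_lit 7) (nat_lit 6) (nat_lit 7) (nat_lit 7) (nat_lit 19) (nat_lit 42) r3_19 r1_42 (nat_lit 0) (nat_lit 0) (nat_lit 0) (nat_lit 0x804e74f7e) (nat_lit 1068891024)]
noncomputable def e6_9 : List Rx := [
  Rx.mk (nat_lit 278) (nat_lit 6) (nat_lit 2) (nat_lit 4) (nat_lit 3) (nat_lit 43) (nat_lit 36) r3_43 r4_36 (nat_lit 0) (nat_lit 0) (nat_lit 151565) (nat_lit 0x843c2e92e) (nat_lit 1005447389),
  Rx.mk (nat_lit 386) (nat_lit 2) (nat_lit 0) (nat_lit 6) (nat_lit 5) (nat_lit 41) (nat_lit 34) r3_41 r4_34 (nat_lit 0) (nat_lit 186832) (nat_lit 0) (nat_lit 0x8110cd21a) (nat_lit 1056746256),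
  Rx.mk (nat_lit 402) (nat_lit 2) (nat_lit 2) (nat_lit 6) (nat_lit 7) (nat_lit 42) (nat_lit 39) r3_42 r4_39 (nat_lit 0) (nat_lit 0) (nat_lit 0) (nat_lit 0x800d34d52) (nat_lit 1073056924),
  Rx.mk (nat_lit 406) (nat_lit 6) (nat_lit 2) (nat_lit 6) (nat_lit 7) (nat_lit 44) (nat_lit 38) r3_44 r4_38 (nat_lit 0) (nat_lit 0) (nat_lit 0) (nat_lit 0x8037a5636) (nat_lit 1070353724),
  Rx.mk (nat_lit 410) (nat_lit 2) (nat_lit 3) (nat_lit 6) (nat_lit 7) (nat_lit 46) (nat_lit 35) r3_46 r4_35 (nat_lit 0) (nat_lit 0) (nat_lit 0) (nat_lit 0x803c763ae) (nat_lit 1069944524),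
  Rx.mk (nat_lit 470) (nat_lit 6) (nat_lit 2) (nat_lit 7) (nat_lit 7) (nat_lit 45) (nat_lit 37) r3_45 r4_37 (nat_lit 0) (nat_lit 0) (nat_lit 0) (nat_lit 0x81e6b91f8) (nat_lit 1043074824),
  Rx.mk (nat_lit 500) (nat_lit 4) (nat_lit 6) (nat_lit 7) (nat_lit 6) (nat_lit 47) (nat_lit 31) r3_47 r4_31 (nat_lit 3571) (nat_lit 0) (nat_lit 0) (nat_lit 0x7fff6bf5e) (nat_lit 1073783595),
  Rx.mk (nat_lit 502) (nat_lit 6) (nat_lit 6) (nat_lit 7) (nat_lit 7) (nat_lit 48) (nat_lit 33) r3_48 r4_33 (nat_lit 0) (nat_lit 0) (nat_lit 0) (nat_lit 0x8282ead92) (nat_lit 1033219524),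
  Rx.mk (nat_lit 503) (nat_lit 7) (nat_lit 6) (nat_lit 7) (nat_lit 7) (nat_lit 49) (nat_lit 32) r3_49 r4_32 (nat_lit 0) (nat_lit 0) (nat_lit 0) (nat_lit 0x7f80ef3ba) (nat_lit 1082118624)]
noncomputable def e6_10 : List Rx := [
  Rx.mk (nat_lit 39) (nat_lit 7) (nat_lit 4) (nat_lit 0) (nat_lit 1) (nat_lit 74) (nat_lit 44) r3_74 r6_44 (nat_lit 0) (nat_lit 636) (nat_lit 536) (nat_lit 0x7ffffbb7c) (nat_lit 1073744396),
  Rx.mk (nat_lit 55) (nat_lit 7) (nat_lit 6) (nat_lit 0) (nat_lit 3) (nat_lit 77) (nat_lit 47) r3_77 r6_47 (nat_lit 0) (nat_lit 0) (nat_lit 37171) (nat_lit 0x7f1a6eae6) (nat_lit 1088745295),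
  Rx.mk (nat_lit 59) (nat_lit 3) (nat_lit 7) (nat_lit 0) (nat_lit 3) (nat_lit 79) (nat_lit 41) r3_79 r6_41 (nat_lit 0) (nat_lit 0) (nat_lit 59620) (nat_lit 0x7fefbb2da) (nat_lit 1074882044),
  Rx.mk (nat_lit 63) (nat_lit 7) (nat_lit 7) (nat_lit 0) (nat_lit 3) (nat_lit 81) (nat_lit 46) r3_81 r6_46 (nat_lit 0) (nat_lit 0) (nat_lit 106827) (nat_lit 0x7fdfdb806) (nat_lit 1075972951),
  Rx.mk (nat_lit 187) (nat_lit 3) (nat_lit 7) (nat_lit 2) (nat_lit 7) (nat_lit 80) (nat_lit 42) r3_80 r6_42 (nat_lit 0) (nat_lit 0) (nat_lit 0) (nat_lit 0x80161fbd8) (nat_lit 1072436524),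
  Rx.mk (nat_lit 231) (nat_lit 7) (nat_lit 4) (nat_lit 3) (nat_lit 5) (nat_lit 75) (nat_lit 45) r3_75 r6_45 (nat_lit 0) (nat_lit 349767) (nat_lit 0) (nat_lit 0x7dc28a740) (nat_lit 1111486291),
  Rx.mk (nat_lit 244) (nat_lit 4) (nat_lit 6) (nat_lit 3) (nat_lit 6) (nat_lit 76) (nat_lit 43) r3_76 r6_43 (nat_lit 68827) (nat_lit 0) (nat_lit 0) (nat_lit 0x7d81ad2b8) (nat_lit 1115392751),
  Rx.mk (nat_lit 247) (nat_lit 7) (nat_lit 6) (nat_lit 3) (nat_lit 7) (nat_lit 78) (nat_lit 48) r3_78 r6_48 (nat_lit 0) (nat_lit 0) (nat_lit 0) (nat_lit 0x8bee0d6f2) (nat_lit 880897024)]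
noncomputable def e6_11 : List Rx := [
  Rx.mk (nat_lit 59) (nat_lit 3) (nat_lit 7) (nat_lit 0) (nat_lit 3) (nat_lit 57) (nat_lit 19) r3_57 r5_19 (nat_lit 0) (nat_lit 0) (nat_lit 325819) (nat_lit 0x790c61206) (nat_lit 1190017643),
  Rx.mk (nat_lit 63) (nat_lit 7) (nat_lit 7) (nat_lit 0) (nat_lit 3) (nat_lit 59) (nat_lit 17) r3_59 r5_17 (nat_lit 0) (nat_lit 0) (nat_lit 2868) (nat_lit 0x74f65d1f2) (nat_lit 1257776192),
  Rx.mk (nat_lit 155) (nat_lit 3) (nat_lit 3) (nat_lit 2) (nat_lit 7) (nat_lit 51) (nat_lit 25) r3_51 r5_25 (nat_lit 0) (nat_lit 0) (nat_lit 0) (nat_lit 0x7dcd58708) (nat_lit 1110443224),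
  Rx.mk (nat_lit 187) (nat_lit 3) (nat_lit 7) (nat_lit 2) (nat_lit 7) (nat_lit 58) (nat_lit 20) r3_58 r5_20 (nat_lit 0) (nat_lit 0) (nat_lit 0) (nat_lit 0x91650a2be) (nat_lit 792518424),
  Rx.mk (nat_lit 231) (nat_lit 7) (nat_lit 4) (nat_lit 3) (nat_lit 5) (nat_lit 52) (nat_lit 16) r3_52 r5_16 (nat_lit 0) (nat_lit 8830) (nat_lit 0) (nat_lit 0x78e083986) (nat_lit 1192515254),
  Rx.mk (nat_lit 244) (nat_lit 4) (nat_lit 6) (nat_lit 3) (nat_lit 6) (nat_lit 53) (nat_lit 22) r3_53 r5_22 (nat_lit 24763) (nat_lit 0) (nat_lit 0) (nat_lit 0x79833e1f8) (nat_lit 1181934387),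
  Rx.mk (nat_lit 247) (nat_lit 7) (nat_lit 6) (nat_lit 3) (nat_lit 7) (nat_lit 56) (nat_lit 23) r3_56 r5_23 (nat_lit 0) (nat_lit 0) (nat_lit 0) (nat_lit 0x94a79ed66) (nat_lit 739802724),
  Rx.mk (nat_lit 255) (nat_lit 7) (nat_lit 7) (nat_lit 3) (nat_lit 7) (nat_lit 60) (nat_lit 18) r3_60 r5_18 (nat_lit 0) (nat_lit 0) (nat_lit 0) (nat_lit 0x7f7adade4) (nat_lit 1082517324),
  Rx.mk (nat_lit 470) (nat_lit 6) (nat_lit 2) (nat_lit 7) (nat_lit 7) (nat_lit 50) (nat_lit 26) r3_50 r5_26 (nat_lit 0) (nat_lit 0) (nat_lit 0) (nat_lit 0x803cbf158) (nat_lit 1070006924),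
  Rx.mk (nat_lit 500) (nat_lit 4) (nat_lit 6) (nat_lit 7) (nat_lit 6) (nat_lit 54) (nat_lit 21) r3_54 r5_21 (nat_lit 1165) (nat_lit 0) (nat_lit 0) (nat_lit 0x81141330c) (nat_lit 1056304189),
  Rx.mk (nat_lit 502) (nat_lit 6) (nat_lit 6) (nat_lit 7) (nat_lit 7) (nat_lit 55) (nat_lit 24) r3_55 r5_24 (nat_lit 0) (nat_lit 0) (nat_lit 0) (nat_lit 0x7fc99dd96) (nat_lit 1077408124)]
noncomputable def e6_12 : List Rx := [
  Rx.mk (nat_lit 37) (nat_lit 5) (nat_lit 4) (nat_lit 0) (nat_lit 1) (nat_lit 146) (nat_lit 300) r3_146 r0_300 (nat_lit 0) (nat_lit 81) (nat_lit 191) (nat_lit 0x800015324) (nat_lit 1073736896),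
  Rx.mk (nat_lit 53) (nat_lit 5) (nat_lit 6) (nat_lit 0) (nat_lit 3) (nat_lit 149) (nat_lit 301) r3_149 r0_301 (nat_lit 0) (nat_lit 0) (nat_lit 52414) (nat_lit 0x7cb6d8c18) (nat_lit 1128580838),
  Rx.mk (nat_lit 100) (nat_lit 4) (nat_lit 4) (nat_lit 1) (nat_lit 4) (nat_lit 145) (nat_lit 302) r3_145 r0_302 (nat_lit 337) (nat_lit 671) (nat_lit 0) (nat_lit 0x72b6e4a90) (nat_lit 1295253432),
  Rx.mk (nat_lit 101) (nat_lit 5) (nat_lit 4) (nat_lit 1) (nat_lit 5) (nat_lit 147) (nat_lit 303) r3_147 r0_303 (nat_lit 0) (nat_lit 424055) (nat_lit 0) (nat_lit 0x7bb0370ea) (nat_lit 1146087279),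
  Rx.mk (nat_lit 116) (nat_lit 4) (nat_lit 6) (nat_lit 1) (nat_lit 6) (nat_lit 148) (nat_lit 304) r3_148 r0_304 (nat_lit 405858) (nat_lit 0) (nat_lit 0) (nat_lit 0x78a0747a0) (nat_lit 1197135682),
  Rx.mk (nat_lit 117) (nat_lit 5) (nat_lit 6) (nat_lit 1) (nat_lit 7) (nat_lit 150) (nat_lit 305) r3_150 r0_305 (nat_lit 0) (nat_lit 0) (nat_lit 0) (nat_lit 0x883ab4d38) (nat_lit 940740624)]
noncomputable def e6_13 : List Rx := [
  Rx.mk (nat_lit 100) (nat_lit 4) (nat_lit 4) (nat_lit 1) (nat_lit 4) (nat_lit 167) (nat_lit 52) r3_167 r7_52 (nat_lit 17692) (nat_lit 13620) (nat_lit 0) (nat_lit 0x66343bea6) (nat_lit 1503873036),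
  Rx.mk (nat_lit 101) (nat_lit 5) (nat_lit 4) (nat_lit 1) (nat_lit 5) (nat_lit 168) (nat_lit 54) r3_168 r7_54 (nat_lit 0) (nat_lit 3317218) (nat_lit 0) (nat_lit 0x73b921fbe) (nat_lit 1281818742),
  Rx.mk (nat_lit 116) (nat_lit 4) (nat_lit 6) (nat_lit 1) (nat_lit 6) (nat_lit 169) (nat_lit 53) r3_169 r7_53 (nat_lit 51739) (nat_lit 0) (nat_lit 0) (nat_lit 0x8025c8a44) (nat_lit 1071420663),
  Rx.mk (nat_lit 117) (nat_lit 5) (nat_lit 6) (nat_lit 1) (nat_lit 7) (nat_lit 170) (nat_lit 55) r3_170 r7_55 (nat_lit 0) (nat_lit 0) (nat_lit 0) (nat_lit 0x89c325cac) (nat_lit 915957624)]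
noncomputable def e6_14 : List Rx := [
  Rx.mk (nat_lit 37) (nat_lit 5) (nat_lit 4) (nat_lit 0) (nat_lit 1) (nat_lit 151) (nat_lit 293) r3_151 r1_293 (nat_lit 0) (nat_lit 1652) (nat_lit 1125) (nat_lit 0x8000c7dda) (nat_lit 1073695601),
  Rx.mk (nat_lit 53) (nat_lit 5) (nat_lit 6) (nat_lit 0) (nat_lit 3) (nat_lit 153) (nat_lit 294) r3_153 r1_294 (nat_lit 0) (nat_lit 0) (nat_lit 1915450) (nat_lit 0x86d50b64a) (nat_lit 965236374),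
  Rx.mk (nat_lit 101) (nat_lit 5) (nat_lit 4) (nat_lit 1) (nat_lit 5) (nat_lit 152) (nat_lit 295) r3_152 r1_295 (nat_lit 0) (nat_lit 10154) (nat_lit 0) (nat_lit 0x7fdc5d4a4) (nat_lit 1076074678),
  Rx.mk (nat_lit 117) (nat_lit 5) (nat_lit 6) (nat_lit 1) (nat_lit 7) (nat_lit 154) (nat_lit 296) r3_154 r1_296 (nat_lit 0) (nat_lit 0) (nat_lit 0) (nat_lit 0x99fe8fe40) (nat_lit 653462024)]
noncomputable def e6_15 : List Rx := [
  Rx.mk (nat_lit 101) (nat_lit 5) (nat_lit 4) (nat_lit 1) (nat_lit 5) (nat_lit 171) (nat_lit 61) r3_171 r8_61 (nat_lit 0) (nat_lit 1085431) (nat_lit 0) (nat_lit 0x787261944) (nat_lit 1200822755),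
  Rx.mk (nat_lit 117) (nat_lit 5) (nat_lit 6) (nat_lit 1) (nat_lit 7) (nat_lit 172) (nat_lit 62) r3_172 r8_62 (nat_lit 0) (nat_lit 0) (nat_lit 0) (nat_lit 0x954b78356) (nat_lit 729459824)]
noncomputable def e6_16 : List Rx := [
  Rx.mk (nat_lit 100) (nat_lit 4) (nat_lit 4) (nat_lit 1) (nat_lit 4) (nat_lit 173) (nat_lit 334) r3_173 r8_334 (nat_lit 102120) (nat_lit 71889) (nat_lit 0) (nat_lit 0x6285859aa) (nat_lit 1565425633),
  Rx.mk (nat_lit 101) (nat_lit 5) (nat_lit 4) (nat_lit 1) (nat_lit 5) (nat_lit 174) (nat_lit 335) r3_174 r8_335 (nat_lit 0) (nat_lit 3747800) (nat_lit 0) (nat_lit 0x78d7bc56e) (nat_lit 1196904324),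
  Rx.mk (nat_lit 116) (nat_lit 4) (nat_lit 6) (nat_lit 1) (nat_lit 6) (nat_lit 175) (nat_lit 336) r3_175 r8_336 (nat_lit 889067) (nat_lit 0) (nat_lit 0) (nat_lit 0x75f75daa6) (nat_lit 1241990791),
  Rx.mk (nat_lit 117) (nat_lit 5) (nat_lit 6) (nat_lit 1) (nat_lit 7) (nat_lit 177) (nat_lit 337) r3_177 r8_337 (nat_lit 0) (nat_lit 0) (nat_lit 0) (nat_lit 0x800899acc) (nat_lit 1073355224),
  Rx.mk (nat_lit 372) (nat_lit 4) (nat_lit 6) (nat_lit 5) (nat_lit 6) (nat_lit 176) (nat_lit 331) r3_176 r8_331 (nat_lit 1997453) (nat_lit 0) (nat_lit 0) (nat_lit 0x763aeada0) (nat_lit 1238709277),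
  Rx.mk (nat_lit 373) (nat_lit 5) (nat_lit 6) (nat_lit 5) (nat_lit 7) (nat_lit 178) (nat_lit 332) r3_178 r8_332 (nat_lit 0) (nat_lit 0) (nat_lit 0) (nat_lit 0x80177ed94) (nat_lit 1072404124),
  Rx.mk (nat_lit 374) (nat_lit 6) (nat_lit 6) (nat_lit 5) (nat_lit 7) (nat_lit 179) (nat_lit 333) r3_179 r8_333 (nat_lit 0) (nat_lit 0) (nat_lit 0) (nat_lit 0x7fe356418) (nat_lit 1075754824)]
noncomputable def e6_17 : List Rx := [
  Rx.mk (nat_lit 342) (nat_lit 6) (nat_lit 2) (nat_lit 5) (nat_lit 7) (nat_lit 141) (nat_lit 21) r3_141 r9_21 (nat_lit 0) (nat_lit 0) (nat_lit 0) (nat_lit 0x7ff99da00) (nat_lit 1074318324),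
  Rx.mk (nat_lit 372) (nat_lit 4) (nat_lit 6) (nat_lit 5) (nat_lit 6) (nat_lit 142) (nat_lit 19) r3_142 r9_19 (nat_lit 1112594) (nat_lit 0) (nat_lit 0) (nat_lit 0x72fee8a80) (nat_lit 1291746118),
  Rx.mk (nat_lit 373) (nat_lit 5) (nat_lit 6) (nat_lit 5) (nat_lit 7) (nat_lit 143) (nat_lit 20) r3_143 r9_20 (nat_lit 0) (nat_lit 0) (nat_lit 0) (nat_lit 0x80029938e) (nat_lit 1073741824),
  Rx.mk (nat_lit 374) (nat_lit 6) (nat_lit 6) (nat_lit 5) (nat_lit 7) (nat_lit 144) (nat_lit 22) r3_144 r9_22 (nat_lit 0) (nat_lit 0) (nat_lit 0) (nat_lit 0x80029938e) (nat_lit 1073741824)]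
noncomputable def e6_18 : List Rx := [
  Rx.mk (nat_lit 36) (nat_lit 4) (nat_lit 4) (nat_lit 0) (nat_lit 0) (nat_lit 155) (nat_lit 315) r3_155 r4_315 (nat_lit 381) (nat_lit 599) (nat_lit 556) (nat_lit 0x6cd77f4c2) (nat_lit 1393168560),
  Rx.mk (nat_lit 37) (nat_lit 5) (nat_lit 4) (nat_lit 0) (nat_lit 1) (nat_lit 157) (nat_lit 316) r3_157 r4_316 (nat_lit 0) (nat_lit 4812) (nat_lit 78702452) (nat_lit 0x7ffa386b8) (nat_lit 1152826188),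
  Rx.mk (nat_lit 39) (nat_lit 7) (nat_lit 4) (nat_lit 0) (nat_lit 1) (nat_lit 159) (nat_lit 317) r3_159 r4_317 (nat_lit 0) (nat_lit 110773703) (nat_lit 9406) (nat_lit 0x7ffe0e01c) (nat_lit 1184655233),
  Rx.mk (nat_lit 52) (nat_lit 4) (nat_lit 6) (nat_lit 0) (nat_lit 2) (nat_lit 161) (nat_lit 318) r3_161 r4_318 (nat_lit 60686) (nat_lit 0) (nat_lit 81020) (nat_lit 0x801a46ce8) (nat_lit 1072248030),
  Rx.mk (nat_lit 53) (nat_lit 5) (nat_lit 6) (nat_lit 0) (nat_lit 3) (nat_lit 163) (nat_lit 319) r3_163 r4_319 (nat_lit 0) (nat_lit 0) (nat_lit 1522780) (nat_lit 0x8378e3c12) (nat_lit 1019195904),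
  Rx.mk (nat_lit 55) (nat_lit 7) (nat_lit 6) (nat_lit 0) (nat_lit 3) (nat_lit 165) (nat_lit 320) r3_165 r4_320 (nat_lit 0) (nat_lit 0) (nat_lit 1606138) (nat_lit 0x821e57844) (nat_lit 1041172862),
  Rx.mk (nat_lit 100) (nat_lit 4) (nat_lit 4) (nat_lit 1) (nat_lit 4) (nat_lit 156) (nat_lit 321) r3_156 r4_321 (nat_lit 40791) (nat_lit 48933) (nat_lit 0) (nat_lit 0x7dd97d7c2) (nat_lit 1109695448),
  Rx.mk (nat_lit 101) (nat_lit 5) (nat_lit 4) (nat_lit 1) (nat_lit 5) (nat_lit 158) (nat_lit 322) r3_158 r4_322 (nat_lit 0) (nat_lit 1367560) (nat_lit 0) (nat_lit 0x8ae095fb6) (nat_lit 899278784),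
  Rx.mk (nat_lit 103) (nat_lit 7) (nat_lit 4) (nat_lit 1) (nat_lit 5) (nat_lit 160) (nat_lit 323) r3_160 r4_323 (nat_lit 0) (nat_lit 70023929) (nat_lit 0) (nat_lit 0x92ac5cf30) (nat_lit 841861753),
  Rx.mk (nat_lit 116) (nat_lit 4) (nat_lit 6) (nat_lit 1) (nat_lit 6) (nat_lit 162) (nat_lit 324) r3_162 r4_324 (nat_lit 584304) (nat_lit 0) (nat_lit 0) (nat_lit 0x9167d9fb2) (nat_lit 792933828),
  Rx.mk (nat_lit 117) (nat_lit 5) (nat_lit 6) (nat_lit 1) (nat_lit 7) (nat_lit 164) (nat_lit 325) r3_164 r4_325 (nat_lit 0) (nat_lit 0) (nat_lit 0) (nat_lit 0x8580ec5f6) (nat_lit 984823424),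
  Rx.mk (nat_lit 119) (nat_lit 7) (nat_lit 6) (nat_lit 1) (nat_lit 7) (nat_lit 166) (nat_lit 326) r3_166 r4_326 (nat_lit 0) (nat_lit 0) (nat_lit 0) (nat_lit 0x84b6c300e) (nat_lit 997593924)]
noncomputable def e6_19 : List Rx := [
  Rx.mk (nat_lit 100) (nat_lit 4) (nat_lit 4) (nat_lit 1) (nat_lit 4) (nat_lit 180) (nat_lit 38) r3_180 r10_38 (nat_lit 22262) (nat_lit 15756) (nat_lit 0) (nat_lit 0x62ad48e7e) (nat_lit 1562688942),
  Rx.mk (nat_lit 101) (nat_lit 5) (nat_lit 4) (nat_lit 1) (nat_lit 5) (nat_lit 181) (nat_lit 40) r3_181 r10_40 (nat_lit 0) (nat_lit 14524810) (nat_lit 0) (nat_lit 0x7f58f3384) (nat_lit 1099247534),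
  Rx.mk (nat_lit 103) (nat_lit 7) (nat_lit 4) (nat_lit 1) (nat_lit 5) (nat_lit 182) (nat_lit 42) r3_182 r10_42 (nat_lit 0) (nat_lit 8861734) (nat_lit 0) (nat_lit 0x7fb3a6038) (nat_lit 1087701158),
  Rx.mk (nat_lit 116) (nat_lit 4) (nat_lit 6) (nat_lit 1) (nat_lit 6) (nat_lit 183) (nat_lit 39) r3_183 r10_39 (nat_lit 96051) (nat_lit 0) (nat_lit 0) (nat_lit 0x88974f8cc) (nat_lit 934938275),
  Rx.mk (nat_lit 117) (nat_lit 5) (nat_lit 6) (nat_lit 1) (nat_lit 7) (nat_lit 184) (nat_lit 41) r3_184 r10_41 (nat_lit 0) (nat_lit 0) (nat_lit 0) (nat_lit 0x9b76b2354) (nat_lit 629711124),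
  Rx.mk (nat_lit 119) (nat_lit 7) (nat_lit 6) (nat_lit 1) (nat_lit 7) (nat_lit 185) (nat_lit 43) r3_185 r10_43 (nat_lit 0) (nat_lit 0) (nat_lit 0) (nat_lit 0x9b76b3d44) (nat_lit 629710724)]
noncomputable def e6_20 : List Rx := [
  Rx.mk (nat_lit 36) (nat_lit 4) (nat_lit 4) (nat_lit 0) (nat_lit 0) (nat_lit 186) (nat_lit 19) r3_186 r11_19 (nat_lit 14728) (nat_lit 13405) (nat_lit 10953) (nat_lit 0x4ae9c72d2) (nat_lit 1958901310),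
  Rx.mk (nat_lit 37) (nat_lit 5) (nat_lit 4) (nat_lit 0) (nat_lit 1) (nat_lit 189) (nat_lit 25) r3_189 r11_25 (nat_lit 0) (nat_lit 280142) (nat_lit 2392413) (nat_lit 0x66a75eea6) (nat_lit 1499043279),
  Rx.mk (nat_lit 39) (nat_lit 7) (nat_lit 4) (nat_lit 0) (nat_lit 1) (nat_lit 192) (nat_lit 31) r3_192 r11_31 (nat_lit 0) (nat_lit 186023355) (nat_lit 142575) (nat_lit 0x6ffd0fa54) (nat_lit 1526896154),
  Rx.mk (nat_lit 52) (nat_lit 4) (nat_lit 6) (nat_lit 0) (nat_lit 2) (nat_lit 194) (nat_lit 22) r3_194 r11_22 (nat_lit 670112) (nat_lit 0) (nat_lit 549568) (nat_lit 0x69e9acd0a) (nat_lit 1443278804),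
  Rx.mk (nat_lit 53) (nat_lit 5) (nat_lit 6) (nat_lit 0) (nat_lit 3) (nat_lit 197) (nat_lit 28) r3_197 r11_28 (nat_lit 0) (nat_lit 0) (nat_lit 2769157) (nat_lit 0x7fe0aa2aa) (nat_lit 1078693281),
  Rx.mk (nat_lit 55) (nat_lit 7) (nat_lit 6) (nat_lit 0) (nat_lit 3) (nat_lit 200) (nat_lit 35) r3_200 r11_35 (nat_lit 0) (nat_lit 0) (nat_lit 2583324) (nat_lit 0x8001e2788) (nat_lit 1076364148),
  Rx.mk (nat_lit 63) (nat_lit 7) (nat_lit 7) (nat_lit 0) (nat_lit 3) (nat_lit 202) (nat_lit 33) r3_202 r11_33 (nat_lit 0) (nat_lit 0) (nat_lit 5449534) (nat_lit 0x7edae2d3c) (nat_lit 1098382458),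
  Rx.mk (nat_lit 100) (nat_lit 4) (nat_lit 4) (nat_lit 1) (nat_lit 4) (nat_lit 187) (nat_lit 20) r3_187 r11_20 (nat_lit 10345631) (nat_lit 4197450) (nat_lit 0) (nat_lit 0x687798d28) (nat_lit 1480729305),
  Rx.mk (nat_lit 101) (nat_lit 5) (nat_lit 4) (nat_lit 1) (nat_lit 5) (nat_lit 190) (nat_lit 26) r3_190 r11_26 (nat_lit 0) (nat_lit 5449534) (nat_lit 0) (nat_lit 0x80029938e) (nat_lit 1079191358),
  Rx.mk (nat_lit 103) (nat_lit 7) (nat_lit 4) (nat_lit 1) (nat_lit 5) (nat_lit 193) (nat_lit 32) r3_193 r11_32 (nat_lit 0) (nat_lit 5985185) (nat_lit 0) (nat_lit 0x8004716b6) (nat_lit 1079607809),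
  Rx.mk (nat_lit 116) (nat_lit 4) (nat_lit 6) (nat_lit 1) (nat_lit 6) (nat_lit 195) (nat_lit 23) r3_195 r11_23 (nat_lit 1833420) (nat_lit 0) (nat_lit 0) (nat_lit 0x80fbf3f4c) (nat_lit 1059750544),
  Rx.mk (nat_lit 117) (nat_lit 5) (nat_lit 6) (nat_lit 1) (nat_lit 7) (nat_lit 198) (nat_lit 29) r3_198 r11_29 (nat_lit 0) (nat_lit 0) (nat_lit 0) (nat_lit 0x8029b3c76) (nat_lit 1071240424),
  Rx.mk (nat_lit 119) (nat_lit 7) (nat_lit 6) (nat_lit 1) (nat_lit 7) (nat_lit 201) (nat_lit 36) r3_201 r11_36 (nat_lit 0) (nat_lit 0) (nat_lit 0) (nat_lit 0x8029b3c76) (nat_lit 1071240424),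
  Rx.mk (nat_lit 127) (nat_lit 7) (nat_lit 7) (nat_lit 1) (nat_lit 7) (nat_lit 203) (nat_lit 34) r3_203 r11_34 (nat_lit 0) (nat_lit 0) (nat_lit 0) (nat_lit 0x80029938e) (nat_lit 1073741824),
  Rx.mk (nat_lit 228) (nat_lit 4) (nat_lit 4) (nat_lit 3) (nat_lit 4) (nat_lit 188) (nat_lit 21) r3_188 r11_21 (nat_lit 6307296) (nat_lit 30752625) (nat_lit 0) (nat_lit 0x70f1635ce) (nat_lit 1361931145),
  Rx.mk (nat_lit 229) (nat_lit 5) (nat_lit 4) (nat_lit 3) (nat_lit 5) (nat_lit 191) (nat_lit 27) r3_191 r11_27 (nat_lit 0) (nat_lit 5203886) (nat_lit 0) (nat_lit 0x7ffd2d666) (nat_lit 1079291910),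
  Rx.mk (nat_lit 244) (nat_lit 4) (nat_lit 6) (nat_lit 3) (nat_lit 6) (nat_lit 196) (nat_lit 24) r3_196 r11_24 (nat_lit 1201223) (nat_lit 0) (nat_lit 0) (nat_lit 0x8079a638c) (nat_lit 1067378647),
  Rx.mk (nat_lit 245) (nat_lit 5) (nat_lit 6) (nat_lit 3) (nat_lit 7) (nat_lit 199) (nat_lit 30) r3_199 r11_30 (nat_lit 0) (nat_lit 0) (nat_lit 0) (nat_lit 0x8029b3c76) (nat_lit 1071240424)]
noncomputable def e6_21 : List Rx := [
  Rx.mk (nat_lit 342) (nat_lit 6) (nat_lit 2) (nat_lit 5) (nat_lit 7) (nat_lit 123) (nat_lit 14) r3_123 r9_14 (nat_lit 0) (nat_lit 0) (nat_lit 0) (nat_lit 0x7ff84561c) (nat_lit 1074405024)]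
noncomputable def e6_22 : List Rx := [
  Rx.mk (nat_lit 128) (nat_lit 0) (nat_lit 0) (nat_lit 2) (nat_lit 4) (nat_lit 91) (nat_lit 43) r3_91 r0_43 (nat_lit 127) (nat_lit 41) (nat_lit 0) (nat_lit 0x810a42a4e) (nat_lit 1056923092),
  Rx.mk (nat_lit 130) (nat_lit 2) (nat_lit 0) (nat_lit 2) (nat_lit 5) (nat_lit 92) (nat_lit 46) r3_92 r0_46 (nat_lit 0) (nat_lit 340766) (nat_lit 0) (nat_lit 0x7b6c883d0) (nat_lit 1150435990),
  Rx.mk (nat_lit 152) (nat_lit 0) (nat_lit 3) (nat_lit 2) (nat_lit 6) (nat_lit 97) (nat_lit 44) r3_97 r0_44 (nat_lit 57402) (nat_lit 0) (nat_lit 0) (nat_lit 0x72280bbe8) (nat_lit 1304618126),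
  Rx.mk (nat_lit 154) (nat_lit 2) (nat_lit 3) (nat_lit 2) (nat_lit 7) (nat_lit 98) (nat_lit 47) r3_98 r0_47 (nat_lit 0) (nat_lit 0) (nat_lit 0) (nat_lit 0x805080ac0) (nat_lit 1068781124),
  Rx.mk (nat_lit 155) (nat_lit 3) (nat_lit 3) (nat_lit 2) (nat_lit 7) (nat_lit 99) (nat_lit 45) r3_99 r0_45 (nat_lit 0) (nat_lit 0) (nat_lit 0) (nat_lit 0x7e9e55ea0) (nat_lit 1096868324),
  Rx.mk (nat_lit 278) (nat_lit 6) (nat_lit 2) (nat_lit 4) (nat_lit 3) (nat_lit 95) (nat_lit 48) r3_95 r0_48 (nat_lit 0) (nat_lit 0) (nat_lit 2538) (nat_lit 0x7f0d94852) (nat_lit 1089533662),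
  Rx.mk (nat_lit 386) (nat_lit 2) (nat_lit 0) (nat_lit 6) (nat_lit 5) (nat_lit 93) (nat_lit 49) r3_93 r0_49 (nat_lit 0) (nat_lit 1675) (nat_lit 0) (nat_lit 0x7fff0f506) (nat_lit 1073805999),
  Rx.mk (nat_lit 402) (nat_lit 2) (nat_lit 2) (nat_lit 6) (nat_lit 7) (nat_lit 94) (nat_lit 50) r3_94 r0_50 (nat_lit 0) (nat_lit 0) (nat_lit 0) (nat_lit 0x7ff88c6a2) (nat_lit 1074376024),
  Rx.mk (nat_lit 406) (nat_lit 6) (nat_lit 2) (nat_lit 6) (nat_lit 7) (nat_lit 96) (nat_lit 51) r3_96 r0_51 (nat_lit 0) (nat_lit 0) (nat_lit 0) (nat_lit 0x7e28e0986) (nat_lit 1104512624)]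
noncomputable def e6_23 : List Rx := [
  Rx.mk (nat_lit 128) (nat_lit 0) (nat_lit 0) (nat_lit 2) (nat_lit 4) (nat_lit 104) (nat_lit 39) r3_104 r1_39 (nat_lit 680) (nat_lit 335) (nat_lit 0) (nat_lit 0x800093df0) (nat_lit 1073706539),
  Rx.mk (nat_lit 130) (nat_lit 2) (nat_lit 0) (nat_lit 2) (nat_lit 5) (nat_lit 105) (nat_lit 43) r3_105 r1_43 (nat_lit 0) (nat_lit 229167) (nat_lit 0) (nat_lit 0x8456bed52) (nat_lit 1003859891),
  Rx.mk (nat_lit 136) (nat_lit 0) (nat_lit 1) (nat_lit 2) (nat_lit 6) (nat_lit 107) (nat_lit 40) r3_107 r1_40 (nat_lit 21896786) (nat_lit 0) (nat_lit 0) (nat_lit 0x7ff19e8fe) (nat_lit 1096714310),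
  Rx.mk (nat_lit 138) (nat_lit 2) (nat_lit 1) (nat_lit 2) (nat_lit 7) (nat_lit 108) (nat_lit 44) r3_108 r1_44 (nat_lit 0) (nat_lit 0) (nat_lit 0) (nat_lit 0x80e4a8b62) (nat_lit 1059385624),
  Rx.mk (nat_lit 152) (nat_lit 0) (nat_lit 3) (nat_lit 2) (nat_lit 6) (nat_lit 112) (nat_lit 41) r3_112 r1_41 (nat_lit 1226908) (nat_lit 0) (nat_lit 0) (nat_lit 0x8006f9de8) (nat_lit 1074654532),
  Rx.mk (nat_lit 154) (nat_lit 2) (nat_lit 3) (nat_lit 2) (nat_lit 7) (nat_lit 113) (nat_lit 45) r3_113 r1_45 (nat_lit 0) (nat_lit 0) (nat_lit 0) (nat_lit 0x80616a6a6) (nat_lit 1067696824),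
  Rx.mk (nat_lit 155) (nat_lit 3) (nat_lit 3) (nat_lit 2) (nat_lit 7) (nat_lit 114) (nat_lit 42) r3_114 r1_42 (nat_lit 0) (nat_lit 0) (nat_lit 0) (nat_lit 0x804e74f7e) (nat_lit 1068891024),
  Rx.mk (nat_lit 386) (nat_lit 2) (nat_lit 0) (nat_lit 6) (nat_lit 5) (nat_lit 106) (nat_lit 46) r3_106 r1_46 (nat_lit 0) (nat_lit 15293) (nat_lit 0) (nat_lit 0x7b3235b42) (nat_lit 1153856717),
  Rx.mk (nat_lit 394) (nat_lit 2) (nat_lit 1) (nat_lit 6) (nat_lit 7) (nat_lit 109) (nat_lit 47) r3_109 r1_47 (nat_lit 0) (nat_lit 0) (nat_lit 0) (nat_lit 0x91b9f06ac) (nat_lit 787168224),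
  Rx.mk (nat_lit 402) (nat_lit 2) (nat_lit 2) (nat_lit 6) (nat_lit 7) (nat_lit 110) (nat_lit 48) r3_110 r1_48 (nat_lit 0) (nat_lit 0) (nat_lit 0) (nat_lit 0x80b7366a2) (nat_lit 1062264424),
  Rx.mk (nat_lit 406) (nat_lit 6) (nat_lit 2) (nat_lit 6) (nat_lit 7) (nat_lit 111) (nat_lit 49) r3_111 r1_49 (nat_lit 0) (nat_lit 0) (nat_lit 0) (nat_lit 0x80d0874f8) (nat_lit 1060662924)]
noncomputable def e6_24 : List Rx := [
  Rx.mk (nat_lit 152) (nat_lit 0) (nat_lit 3) (nat_lit 2) (nat_lit 6) (nat_lit 129) (nat_lit 31) r3_129 r4_31 (nat_lit 3571) (nat_lit 0) (nat_lit 0) (nat_lit 0x7fff6bf5e) (nat_lit 1073783595),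
  Rx.mk (nat_lit 154) (nat_lit 2) (nat_lit 3) (nat_lit 2) (nat_lit 7) (nat_lit 130) (nat_lit 33) r3_130 r4_33 (nat_lit 0) (nat_lit 0) (nat_lit 0) (nat_lit 0x8282ead92) (nat_lit 1033219524),
  Rx.mk (nat_lit 155) (nat_lit 3) (nat_lit 3) (nat_lit 2) (nat_lit 7) (nat_lit 132) (nat_lit 32) r3_132 r4_32 (nat_lit 0) (nat_lit 0) (nat_lit 0) (nat_lit 0x7f80ef3ba) (nat_lit 1082118624),
  Rx.mk (nat_lit 278) (nat_lit 6) (nat_lit 2) (nat_lit 4) (nat_lit 3) (nat_lit 126) (nat_lit 34) r3_126 r4_34 (nat_lit 0) (nat_lit 0) (nat_lit 186832) (nat_lit 0x8110cd21a) (nat_lit 1056746256),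
  Rx.mk (nat_lit 386) (nat_lit 2) (nat_lit 0) (nat_lit 6) (nat_lit 5) (nat_lit 124) (nat_lit 36) r3_124 r4_36 (nat_lit 0) (nat_lit 151565) (nat_lit 0) (nat_lit 0x843c2e92e) (nat_lit 1005447389),
  Rx.mk (nat_lit 402) (nat_lit 2) (nat_lit 2) (nat_lit 6) (nat_lit 7) (nat_lit 125) (nat_lit 38) r3_125 r4_38 (nat_lit 0) (nat_lit 0) (nat_lit 0) (nat_lit 0x8037a5636) (nat_lit 1070353724),
  Rx.mk (nat_lit 406) (nat_lit 6) (nat_lit 2) (nat_lit 6) (nat_lit 7) (nat_lit 127) (nat_lit 39) r3_127 r4_39 (nat_lit 0) (nat_lit 0) (nat_lit 0) (nat_lit 0x800d34d52) (nat_lit 1073056924),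
  Rx.mk (nat_lit 410) (nat_lit 2) (nat_lit 3) (nat_lit 6) (nat_lit 7) (nat_lit 131) (nat_lit 37) r3_131 r4_37 (nat_lit 0) (nat_lit 0) (nat_lit 0) (nat_lit 0x81e6b91f8) (nat_lit 1043074824),
  Rx.mk (nat_lit 470) (nat_lit 6) (nat_lit 2) (nat_lit 7) (nat_lit 7) (nat_lit 128) (nat_lit 35) r3_128 r4_35 (nat_lit 0) (nat_lit 0) (nat_lit 0) (nat_lit 0x803c763ae) (nat_lit 1069944524)]
noncomputable def e6_25 : List Rx := [
  Rx.mk (nat_lit 278) (nat_lit 6) (nat_lit 2) (nat_lit 4) (nat_lit 3) (nat_lit 102) (nat_lit 36) r3_102 r7_36 (nat_lit 0) (nat_lit 0) (nat_lit 41954) (nat_lit 0x8a20ca506) (nat_lit 910018078),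
  Rx.mk (nat_lit 386) (nat_lit 2) (nat_lit 0) (nat_lit 6) (nat_lit 5) (nat_lit 100) (nat_lit 35) r3_100 r7_35 (nat_lit 0) (nat_lit 41954) (nat_lit 0) (nat_lit 0x8a20ca506) (nat_lit 910018078),
  Rx.mk (nat_lit 402) (nat_lit 2) (nat_lit 2) (nat_lit 6) (nat_lit 7) (nat_lit 101) (nat_lit 38) r3_101 r7_38 (nat_lit 0) (nat_lit 0) (nat_lit 0) (nat_lit 0x7fd20ba96) (nat_lit 1076872124),
  Rx.mk (nat_lit 406) (nat_lit 6) (nat_lit 2) (nat_lit 6) (nat_lit 7) (nat_lit 103) (nat_lit 37) r3_103 r7_37 (nat_lit 0) (nat_lit 0) (nat_lit 0) (nat_lit 0x7fd20ba96) (nat_lit 1076872124)]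
noncomputable def e6_26 : List Rx := [
  Rx.mk (nat_lit 386) (nat_lit 2) (nat_lit 0) (nat_lit 6) (nat_lit 5) (nat_lit 115) (nat_lit 43) r3_115 r8_43 (nat_lit 0) (nat_lit 265194) (nat_lit 0) (nat_lit 0x80289589e) (nat_lit 1071507018),
  Rx.mk (nat_lit 394) (nat_lit 2) (nat_lit 1) (nat_lit 6) (nat_lit 7) (nat_lit 116) (nat_lit 44) r3_116 r8_44 (nat_lit 0) (nat_lit 0) (nat_lit 0) (nat_lit 0x85a4c7912) (nat_lit 982561124),
  Rx.mk (nat_lit 402) (nat_lit 2) (nat_lit 2) (nat_lit 6) (nat_lit 7) (nat_lit 117) (nat_lit 46) r3_117 r8_46 (nat_lit 0) (nat_lit 0) (nat_lit 0) (nat_lit 0x80029938e) (nat_lit 1073741824),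
  Rx.mk (nat_lit 406) (nat_lit 6) (nat_lit 2) (nat_lit 6) (nat_lit 7) (nat_lit 118) (nat_lit 45) r3_118 r8_45 (nat_lit 0) (nat_lit 0) (nat_lit 0) (nat_lit 0x80217ebb4) (nat_lit 1071767324)]
noncomputable def e6_27 : List Rx := [
  Rx.mk (nat_lit 278) (nat_lit 6) (nat_lit 2) (nat_lit 4) (nat_lit 3) (nat_lit 120) (nat_lit 43) r3_120 r8_43 (nat_lit 0) (nat_lit 0) (nat_lit 265194) (nat_lit 0x80289589e) (nat_lit 1071507018),
  Rx.mk (nat_lit 342) (nat_lit 6) (nat_lit 2) (nat_lit 5) (nat_lit 7) (nat_lit 121) (nat_lit 44) r3_121 r8_44 (nat_lit 0) (nat_lit 0) (nat_lit 0) (nat_lit 0x85a4c7912) (nat_lit 982561124),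
  Rx.mk (nat_lit 402) (nat_lit 2) (nat_lit 2) (nat_lit 6) (nat_lit 7) (nat_lit 119) (nat_lit 45) r3_119 r8_45 (nat_lit 0) (nat_lit 0) (nat_lit 0) (nat_lit 0x80217ebb4) (nat_lit 1071767324),
  Rx.mk (nat_lit 406) (nat_lit 6) (nat_lit 2) (nat_lit 6) (nat_lit 7) (nat_lit 122) (nat_lit 46) r3_122 r8_46 (nat_lit 0) (nat_lit 0) (nat_lit 0) (nat_lit 0x80029938e) (nat_lit 1073741824)]
noncomputable def e6_28 : List Rx := [
  Rx.mk (nat_lit 278) (nat_lit 6) (nat_lit 2) (nat_lit 4) (nat_lit 3) (nat_lit 135) (nat_lit 19) r3_135 r10_19 (nat_lit 0) (nat_lit 0) (nat_lit 52776) (nat_lit 0x8c731e1b6) (nat_lit 872490800),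
  Rx.mk (nat_lit 386) (nat_lit 2) (nat_lit 0) (nat_lit 6) (nat_lit 5) (nat_lit 133) (nat_lit 17) r3_133 r10_17 (nat_lit 0) (nat_lit 52776) (nat_lit 0) (nat_lit 0x8c731e1b6) (nat_lit 872490800),
  Rx.mk (nat_lit 402) (nat_lit 2) (nat_lit 2) (nat_lit 6) (nat_lit 7) (nat_lit 134) (nat_lit 22) r3_134 r10_22 (nat_lit 0) (nat_lit 0) (nat_lit 0) (nat_lit 0x804ec5d34) (nat_lit 1068889624),
  Rx.mk (nat_lit 406) (nat_lit 6) (nat_lit 2) (nat_lit 6) (nat_lit 7) (nat_lit 136) (nat_lit 21) r3_136 r10_21 (nat_lit 0) (nat_lit 0) (nat_lit 0) (nat_lit 0x804ec5d34) (nat_lit 1068889624),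
  Rx.mk (nat_lit 410) (nat_lit 2) (nat_lit 3) (nat_lit 6) (nat_lit 7) (nat_lit 138) (nat_lit 18) r3_138 r10_18 (nat_lit 0) (nat_lit 0) (nat_lit 0) (nat_lit 0x9a8c6a3aa) (nat_lit 644510724),
  Rx.mk (nat_lit 470) (nat_lit 6) (nat_lit 2) (nat_lit 7) (nat_lit 7) (nat_lit 137) (nat_lit 20) r3_137 r10_20 (nat_lit 0) (nat_lit 0) (nat_lit 0) (nat_lit 0x9a8c6a3aa) (nat_lit 644510724)]
noncomputable def e6_29 : List Rx := [
  Rx.mk (nat_lit 155) (nat_lit 3) (nat_lit 3) (nat_lit 2) (nat_lit 7) (nat_lit 140) (nat_lit 6) r3_140 r11_6 (nat_lit 0) (nat_lit 0) (nat_lit 0) (nat_lit 0x9287cfb68) (nat_lit 774145224),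
  Rx.mk (nat_lit 470) (nat_lit 6) (nat_lit 2) (nat_lit 7) (nat_lit 7) (nat_lit 139) (nat_lit 7) r3_139 r11_7 (nat_lit 0) (nat_lit 0) (nat_lit 0) (nat_lit 0x970ef9cfc) (nat_lit 700901524)]
noncomputable def e6_30 : List Rx := [
  Rx.mk (nat_lit 39) (nat_lit 7) (nat_lit 4) (nat_lit 0) (nat_lit 1) (nat_lit 221) (nat_lit 293) r3_221 r5_293 (nat_lit 0) (nat_lit 345) (nat_lit 447) (nat_lit 0x802b87ca0) (nat_lit 1070993016),
  Rx.mk (nat_lit 55) (nat_lit 7) (nat_lit 6) (nat_lit 0) (nat_lit 3) (nat_lit 223) (nat_lit 294) r3_223 r5_294 (nat_lit 0) (nat_lit 0) (nat_lit 160316) (nat_lit 0x84f17c510) (nat_lit 994003240),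
  Rx.mk (nat_lit 103) (nat_lit 7) (nat_lit 4) (nat_lit 1) (nat_lit 5) (nat_lit 222) (nat_lit 295) r3_222 r5_295 (nat_lit 0) (nat_lit 155164) (nat_lit 0) (nat_lit 0x801767e82) (nat_lit 1072432988),
  Rx.mk (nat_lit 119) (nat_lit 7) (nat_lit 6) (nat_lit 1) (nat_lit 7) (nat_lit 224) (nat_lit 296) r3_224 r5_296 (nat_lit 0) (nat_lit 0) (nat_lit 0) (nat_lit 0x982c943ec) (nat_lit 682903324)]
noncomputable def e6_31 : List Rx := [
  Rx.mk (nat_lit 103) (nat_lit 7) (nat_lit 4) (nat_lit 1) (nat_lit 5) (nat_lit 225) (nat_lit 351) r3_225 r11_351 (nat_lit 0) (nat_lit 43945288) (nat_lit 0) (nat_lit 0x7fd2eddd8) (nat_lit 1120678112),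
  Rx.mk (nat_lit 119) (nat_lit 7) (nat_lit 6) (nat_lit 1) (nat_lit 7) (nat_lit 226) (nat_lit 352) r3_226 r11_352 (nat_lit 0) (nat_lit 0) (nat_lit 0) (nat_lit 0xa03942e42) (nat_lit 552675224)]
noncomputable def e6_32 : List Rx := [
  Rx.mk (nat_lit 35) (nat_lit 3) (nat_lit 4) (nat_lit 0) (nat_lit 1) (nat_lit 227) (nat_lit 44) r3_227 r6_44 (nat_lit 0) (nat_lit 536) (nat_lit 636) (nat_lit 0x7ffffbb7c) (nat_lit 1073744396),
  Rx.mk (nat_lit 59) (nat_lit 3) (nat_lit 7) (nat_lit 0) (nat_lit 3) (nat_lit 233) (nat_lit 45) r3_233 r6_45 (nat_lit 0) (nat_lit 0) (nat_lit 349767) (nat_lit 0x7dc28a740) (nat_lit 1111486291),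
  Rx.mk (nat_lit 163) (nat_lit 3) (nat_lit 4) (nat_lit 2) (nat_lit 5) (nat_lit 228) (nat_lit 47) r3_228 r6_47 (nat_lit 0) (nat_lit 37171) (nat_lit 0) (nat_lit 0x7f1a6eae6) (nat_lit 1088745295),
  Rx.mk (nat_lit 184) (nat_lit 0) (nat_lit 7) (nat_lit 2) (nat_lit 6) (nat_lit 232) (nat_lit 43) r3_232 r6_43 (nat_lit 68827) (nat_lit 0) (nat_lit 0) (nat_lit 0x7d81ad2b8) (nat_lit 1115392751),
  Rx.mk (nat_lit 187) (nat_lit 3) (nat_lit 7) (nat_lit 2) (nat_lit 7) (nat_lit 234) (nat_lit 48) r3_234 r6_48 (nat_lit 0) (nat_lit 0) (nat_lit 0) (nat_lit 0x8bee0d6f2) (nat_lit 880897024),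
  Rx.mk (nat_lit 227) (nat_lit 3) (nat_lit 4) (nat_lit 3) (nat_lit 5) (nat_lit 229) (nat_lit 46) r3_229 r6_46 (nat_lit 0) (nat_lit 106827) (nat_lit 0) (nat_lit 0x7fdfdb806) (nat_lit 1075972951),
  Rx.mk (nat_lit 231) (nat_lit 7) (nat_lit 4) (nat_lit 3) (nat_lit 5) (nat_lit 230) (nat_lit 41) r3_230 r6_41 (nat_lit 0) (nat_lit 59620) (nat_lit 0) (nat_lit 0x7fefbb2da) (nat_lit 1074882044),
  Rx.mk (nat_lit 247) (nat_lit 7) (nat_lit 6) (nat_lit 3) (nat_lit 7) (nat_lit 231) (nat_lit 42) r3_231 r6_42 (nat_lit 0) (nat_lit 0) (nat_lit 0) (nat_lit 0x80161fbd8) (nat_lit 1072436524)]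
noncomputable def e6_33 : List Rx := [
  Rx.mk (nat_lit 59) (nat_lit 3) (nat_lit 7) (nat_lit 0) (nat_lit 3) (nat_lit 212) (nat_lit 16) r3_212 r5_16 (nat_lit 0) (nat_lit 0) (nat_lit 8830) (nat_lit 0x78e083986) (nat_lit 1192515254),
  Rx.mk (nat_lit 152) (nat_lit 0) (nat_lit 3) (nat_lit 2) (nat_lit 6) (nat_lit 204) (nat_lit 21) r3_204 r5_21 (nat_lit 1165) (nat_lit 0) (nat_lit 0) (nat_lit 0x81141330c) (nat_lit 1056304189),
  Rx.mk (nat_lit 154) (nat_lit 2) (nat_lit 3) (nat_lit 2) (nat_lit 7) (nat_lit 205) (nat_lit 24) r3_205 r5_24 (nat_lit 0) (nat_lit 0) (nat_lit 0) (nat_lit 0x7fc99dd96) (nat_lit 1077408124),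
  Rx.mk (nat_lit 184) (nat_lit 0) (nat_lit 7) (nat_lit 2) (nat_lit 6) (nat_lit 211) (nat_lit 22) r3_211 r5_22 (nat_lit 24763) (nat_lit 0) (nat_lit 0) (nat_lit 0x79833e1f8) (nat_lit 1181934387),
  Rx.mk (nat_lit 187) (nat_lit 3) (nat_lit 7) (nat_lit 2) (nat_lit 7) (nat_lit 213) (nat_lit 23) r3_213 r5_23 (nat_lit 0) (nat_lit 0) (nat_lit 0) (nat_lit 0x94a79ed66) (nat_lit 739802724),
  Rx.mk (nat_lit 227) (nat_lit 3) (nat_lit 4) (nat_lit 3) (nat_lit 5) (nat_lit 207) (nat_lit 17) r3_207 r5_17 (nat_lit 0) (nat_lit 2868) (nat_lit 0) (nat_lit 0x74f65d1f2) (nat_lit 1257776192),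
  Rx.mk (nat_lit 231) (nat_lit 7) (nat_lit 4) (nat_lit 3) (nat_lit 5) (nat_lit 208) (nat_lit 19) r3_208 r5_19 (nat_lit 0) (nat_lit 325819) (nat_lit 0) (nat_lit 0x790c61206) (nat_lit 1190017643),
  Rx.mk (nat_lit 247) (nat_lit 7) (nat_lit 6) (nat_lit 3) (nat_lit 7) (nat_lit 209) (nat_lit 20) r3_209 r5_20 (nat_lit 0) (nat_lit 0) (nat_lit 0) (nat_lit 0x91650a2be) (nat_lit 792518424),
  Rx.mk (nat_lit 251) (nat_lit 3) (nat_lit 7) (nat_lit 3) (nat_lit 7) (nat_lit 214) (nat_lit 18) r3_214 r5_18 (nat_lit 0) (nat_lit 0) (nat_lit 0) (nat_lit 0x7f7adade4) (nat_lit 1082517324),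
  Rx.mk (nat_lit 410) (nat_lit 2) (nat_lit 3) (nat_lit 6) (nat_lit 7) (nat_lit 206) (nat_lit 26) r3_206 r5_26 (nat_lit 0) (nat_lit 0) (nat_lit 0) (nat_lit 0x803cbf158) (nat_lit 1070006924),
  Rx.mk (nat_lit 503) (nat_lit 7) (nat_lit 6) (nat_lit 7) (nat_lit 7) (nat_lit 210) (nat_lit 25) r3_210 r5_25 (nat_lit 0) (nat_lit 0) (nat_lit 0) (nat_lit 0x7dcd58708) (nat_lit 1110443224)]
noncomputable def e6_34 : List Rx := [
  Rx.mk (nat_lit 410) (nat_lit 2) (nat_lit 3) (nat_lit 6) (nat_lit 7) (nat_lit 215) (nat_lit 7) r3_215 r11_7 (nat_lit 0) (nat_lit 0) (nat_lit 0) (nat_lit 0x970ef9cfc) (nat_lit 700901524),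
  Rx.mk (nat_lit 503) (nat_lit 7) (nat_lit 6) (nat_lit 7) (nat_lit 7) (nat_lit 216) (nat_lit 6) r3_216 r11_6 (nat_lit 0) (nat_lit 0) (nat_lit 0) (nat_lit 0x9287cfb68) (nat_lit 774145224)]
noncomputable def e6_35 : List Rx := [
  Rx.mk (nat_lit 35) (nat_lit 3) (nat_lit 4) (nat_lit 0) (nat_lit 1) (nat_lit 217) (nat_lit 322) r3_217 r6_322 (nat_lit 0) (nat_lit 1139) (nat_lit 1326) (nat_lit 0x7fffcc656) (nat_lit 1073757989),
  Rx.mk (nat_lit 39) (nat_lit 7) (nat_lit 4) (nat_lit 0) (nat_lit 1) (nat_lit 219) (nat_lit 323) r3_219 r6_323 (nat_lit 0) (nat_lit 1326) (nat_lit 1139) (nat_lit 0x7fffcc656) (nat_lit 1073757989),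
  Rx.mk (nat_lit 55) (nat_lit 7) (nat_lit 6) (nat_lit 0) (nat_lit 3) (nat_lit 220) (nat_lit 325) r3_220 r6_325 (nat_lit 0) (nat_lit 0) (nat_lit 10551) (nat_lit 0x80057a5bc) (nat_lit 1073411275),
  Rx.mk (nat_lit 163) (nat_lit 3) (nat_lit 4) (nat_lit 2) (nat_lit 5) (nat_lit 218) (nat_lit 324) r3_218 r6_324 (nat_lit 0) (nat_lit 10551) (nat_lit 0) (nat_lit 0x80057a5bc) (nat_lit 1073411275)]
noncomputable def e6_36 : List Rx := [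
  Rx.mk (nat_lit 35) (nat_lit 3) (nat_lit 4) (nat_lit 0) (nat_lit 1) (nat_lit 235) (nat_lit 41) r3_235 r12_41 (nat_lit 0) (nat_lit 499) (nat_lit 544) (nat_lit 0x7fffd6b92) (nat_lit 1073753567),
  Rx.mk (nat_lit 39) (nat_lit 7) (nat_lit 4) (nat_lit 0) (nat_lit 1) (nat_lit 237) (nat_lit 45) r3_237 r12_45 (nat_lit 0) (nat_lit 544) (nat_lit 499) (nat_lit 0x7fffd6b92) (nat_lit 1073753567),
  Rx.mk (nat_lit 55) (nat_lit 7) (nat_lit 6) (nat_lit 0) (nat_lit 3) (nat_lit 239) (nat_lit 47) r3_239 r12_47 (nat_lit 0) (nat_lit 0) (nat_lit 12284) (nat_lit 0x8001debba) (nat_lit 1073642708),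
  Rx.mk (nat_lit 59) (nat_lit 3) (nat_lit 7) (nat_lit 0) (nat_lit 3) (nat_lit 241) (nat_lit 43) r3_241 r12_43 (nat_lit 0) (nat_lit 0) (nat_lit 30245) (nat_lit 0x7f0e9ecac) (nat_lit 1089499869),
  Rx.mk (nat_lit 163) (nat_lit 3) (nat_lit 4) (nat_lit 2) (nat_lit 5) (nat_lit 236) (nat_lit 42) r3_236 r12_42 (nat_lit 0) (nat_lit 12284) (nat_lit 0) (nat_lit 0x8001debba) (nat_lit 1073642708),
  Rx.mk (nat_lit 187) (nat_lit 3) (nat_lit 7) (nat_lit 2) (nat_lit 7) (nat_lit 242) (nat_lit 44) r3_242 r12_44 (nat_lit 0) (nat_lit 0) (nat_lit 0) (nat_lit 0x80e37f114) (nat_lit 1059429124),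
  Rx.mk (nat_lit 231) (nat_lit 7) (nat_lit 4) (nat_lit 3) (nat_lit 5) (nat_lit 238) (nat_lit 46) r3_238 r12_46 (nat_lit 0) (nat_lit 30245) (nat_lit 0) (nat_lit 0x7f0e9ecac) (nat_lit 1089499869),
  Rx.mk (nat_lit 247) (nat_lit 7) (nat_lit 6) (nat_lit 3) (nat_lit 7) (nat_lit 240) (nat_lit 48) r3_240 r12_48 (nat_lit 0) (nat_lit 0) (nat_lit 0) (nat_lit 0x80e37f114) (nat_lit 1059429124)]
noncomputable def e6_37 : List Rx := [
  Rx.mk (nat_lit 168) (nat_lit 0) (nat_lit 5) (nat_lit 2) (nat_lit 6) (nat_lit 249) (nat_lit 71) r3_249 r0_71 (nat_lit 121) (nat_lit 0) (nat_lit 0) (nat_lit 0x80002aa9e) (nat_lit 1073731445)]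
noncomputable def e6_38 : List Rx := [
  Rx.mk (nat_lit 33) (nat_lit 1) (nat_lit 4) (nat_lit 0) (nat_lit 1) (nat_lit 243) (nat_lit 300) r3_243 r0_300 (nat_lit 0) (nat_lit 191) (nat_lit 81) (nat_lit 0x800015324) (nat_lit 1073736896),
  Rx.mk (nat_lit 40) (nat_lit 0) (nat_lit 5) (nat_lit 0) (nat_lit 2) (nat_lit 245) (nat_lit 302) r3_245 r0_302 (nat_lit 337) (nat_lit 0) (nat_lit 671) (nat_lit 0x72b6e4a90) (nat_lit 1295253432),
  Rx.mk (nat_lit 41) (nat_lit 1) (nat_lit 5) (nat_lit 0) (nat_lit 3) (nat_lit 247) (nat_lit 303) r3_247 r0_303 (nat_lit 0) (nat_lit 0) (nat_lit 424055) (nat_lit 0x7bb0370ea) (nat_lit 1146087279),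
  Rx.mk (nat_lit 161) (nat_lit 1) (nat_lit 4) (nat_lit 2) (nat_lit 5) (nat_lit 244) (nat_lit 301) r3_244 r0_301 (nat_lit 0) (nat_lit 52414) (nat_lit 0) (nat_lit 0x7cb6d8c18) (nat_lit 1128580838),
  Rx.mk (nat_lit 168) (nat_lit 0) (nat_lit 5) (nat_lit 2) (nat_lit 6) (nat_lit 246) (nat_lit 304) r3_246 r0_304 (nat_lit 405858) (nat_lit 0) (nat_lit 0) (nat_lit 0x78a0747a0) (nat_lit 1197135682),
  Rx.mk (nat_lit 169) (nat_lit 1) (nat_lit 5) (nat_lit 2) (nat_lit 7) (nat_lit 248) (nat_lit 305) r3_248 r0_305 (nat_lit 0) (nat_lit 0) (nat_lit 0) (nat_lit 0x883ab4d38) (nat_lit 940740624)]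
noncomputable def e6_39 : List Rx := [
  Rx.mk (nat_lit 40) (nat_lit 0) (nat_lit 5) (nat_lit 0) (nat_lit 2) (nat_lit 250) (nat_lit 52) r3_250 r7_52 (nat_lit 17692) (nat_lit 0) (nat_lit 13620) (nat_lit 0x66343bea6) (nat_lit 1503873036),
  Rx.mk (nat_lit 41) (nat_lit 1) (nat_lit 5) (nat_lit 0) (nat_lit 3) (nat_lit 252) (nat_lit 54) r3_252 r7_54 (nat_lit 0) (nat_lit 0) (nat_lit 3317218) (nat_lit 0x73b921fbe) (nat_lit 1281818742),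
  Rx.mk (nat_lit 168) (nat_lit 0) (nat_lit 5) (nat_lit 2) (nat_lit 6) (nat_lit 251) (nat_lit 53) r3_251 r7_53 (nat_lit 51739) (nat_lit 0) (nat_lit 0) (nat_lit 0x8025c8a44) (nat_lit 1071420663),
  Rx.mk (nat_lit 169) (nat_lit 1) (nat_lit 5) (nat_lit 2) (nat_lit 7) (nat_lit 253) (nat_lit 55) r3_253 r7_55 (nat_lit 0) (nat_lit 0) (nat_lit 0) (nat_lit 0x89c325cac) (nat_lit 915957624)]
noncomputable def e6_40 : List Rx := [
  Rx.mk (nat_lit 33) (nat_lit 1) (nat_lit 4) (nat_lit 0) (nat_lit 1) (nat_lit 276) (nat_lit 322) r3_276 r2_322 (nat_lit 0) (nat_lit 62702) (nat_lit 83586) (nat_lit 0x63dd38a3e) (nat_lit 1543007912),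
  Rx.mk (nat_lit 37) (nat_lit 5) (nat_lit 4) (nat_lit 0) (nat_lit 1) (nat_lit 279) (nat_lit 323) r3_279 r2_323 (nat_lit 0) (nat_lit 83586) (nat_lit 62702) (nat_lit 0x63dd38a3e) (nat_lit 1543007912),
  Rx.mk (nat_lit 41) (nat_lit 1) (nat_lit 5) (nat_lit 0) (nat_lit 3) (nat_lit 281) (nat_lit 327) r3_281 r2_327 (nat_lit 0) (nat_lit 0) (nat_lit 14212610) (nat_lit 0x7c8b79e5a) (nat_lit 1145647634),
  Rx.mk (nat_lit 45) (nat_lit 5) (nat_lit 5) (nat_lit 0) (nat_lit 3) (nat_lit 284) (nat_lit 328) r3_284 r2_328 (nat_lit 0) (nat_lit 0) (nat_lit 1657006) (nat_lit 0x7198cb26c) (nat_lit 1315616130),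
  Rx.mk (nat_lit 53) (nat_lit 5) (nat_lit 6) (nat_lit 0) (nat_lit 3) (nat_lit 286) (nat_lit 332) r3_286 r2_332 (nat_lit 0) (nat_lit 0) (nat_lit 5449534) (nat_lit 0x7fea843fc) (nat_lit 1080741158),
  Rx.mk (nat_lit 97) (nat_lit 1) (nat_lit 4) (nat_lit 1) (nat_lit 5) (nat_lit 277) (nat_lit 324) r3_277 r2_324 (nat_lit 0) (nat_lit 1657006) (nat_lit 0) (nat_lit 0x7198cb26c) (nat_lit 1315616130),
  Rx.mk (nat_lit 101) (nat_lit 5) (nat_lit 4) (nat_lit 1) (nat_lit 5) (nat_lit 280) (nat_lit 325) r3_280 r2_325 (nat_lit 0) (nat_lit 14212610) (nat_lit 0) (nat_lit 0x7c8b79e5a) (nat_lit 1145647634),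
  Rx.mk (nat_lit 105) (nat_lit 1) (nat_lit 5) (nat_lit 1) (nat_lit 7) (nat_lit 282) (nat_lit 329) r3_282 r2_329 (nat_lit 0) (nat_lit 0) (nat_lit 0) (nat_lit 0x80029938e) (nat_lit 1073741824),
  Rx.mk (nat_lit 109) (nat_lit 5) (nat_lit 5) (nat_lit 1) (nat_lit 7) (nat_lit 285) (nat_lit 330) r3_285 r2_330 (nat_lit 0) (nat_lit 0) (nat_lit 0) (nat_lit 0x80029938e) (nat_lit 1073741824),
  Rx.mk (nat_lit 117) (nat_lit 5) (nat_lit 6) (nat_lit 1) (nat_lit 7) (nat_lit 287) (nat_lit 333) r3_287 r2_333 (nat_lit 0) (nat_lit 0) (nat_lit 0) (nat_lit 0x80029938e) (nat_lit 1073741824),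
  Rx.mk (nat_lit 161) (nat_lit 1) (nat_lit 4) (nat_lit 2) (nat_lit 5) (nat_lit 278) (nat_lit 326) r3_278 r2_326 (nat_lit 0) (nat_lit 5449534) (nat_lit 0) (nat_lit 0x7fea843fc) (nat_lit 1080741158),
  Rx.mk (nat_lit 169) (nat_lit 1) (nat_lit 5) (nat_lit 2) (nat_lit 7) (nat_lit 283) (nat_lit 331) r3_283 r2_331 (nat_lit 0) (nat_lit 0) (nat_lit 0) (nat_lit 0x80029938e) (nat_lit 1073741824)]
noncomputable def e6_41 : List Rx := [
  Rx.mk (nat_lit 41) (nat_lit 1) (nat_lit 5) (nat_lit 0) (nat_lit 3) (nat_lit 290) (nat_lit 300) r3_290 r9_300 (nat_lit 0) (nat_lit 0) (nat_lit 10837605) (nat_lit 0x7013dda4c) (nat_lit 1350127929),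
  Rx.mk (nat_lit 45) (nat_lit 5) (nat_lit 5) (nat_lit 0) (nat_lit 3) (nat_lit 293) (nat_lit 301) r3_293 r9_301 (nat_lit 0) (nat_lit 0) (nat_lit 8792321) (nat_lit 0x6b8165010) (nat_lit 1424314245),
  Rx.mk (nat_lit 105) (nat_lit 1) (nat_lit 5) (nat_lit 1) (nat_lit 7) (nat_lit 291) (nat_lit 302) r3_291 r9_302 (nat_lit 0) (nat_lit 0) (nat_lit 0) (nat_lit 0x80029938e) (nat_lit 1073741824),
  Rx.mk (nat_lit 109) (nat_lit 5) (nat_lit 5) (nat_lit 1) (nat_lit 7) (nat_lit 294) (nat_lit 303) r3_294 r9_303 (nat_lit 0) (nat_lit 0) (nat_lit 0) (nat_lit 0x80029938e) (nat_lit 1073741824),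
  Rx.mk (nat_lit 169) (nat_lit 1) (nat_lit 5) (nat_lit 2) (nat_lit 7) (nat_lit 292) (nat_lit 304) r3_292 r9_304 (nat_lit 0) (nat_lit 0) (nat_lit 0) (nat_lit 0x7fb687978) (nat_lit 1078660724)]
noncomputable def e6_42 : List Rx := [
  Rx.mk (nat_lit 97) (nat_lit 1) (nat_lit 4) (nat_lit 1) (nat_lit 5) (nat_lit 295) (nat_lit 301) r3_295 r9_301 (nat_lit 0) (nat_lit 8792321) (nat_lit 0) (nat_lit 0x6b8165010) (nat_lit 1424314245),
  Rx.mk (nat_lit 101) (nat_lit 5) (nat_lit 4) (nat_lit 1) (nat_lit 5) (nat_lit 296) (nat_lit 300) r3_296 r9_300 (nat_lit 0) (nat_lit 10837605) (nat_lit 0) (nat_lit 0x7013dda4c) (nat_lit 1350127929),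
  Rx.mk (nat_lit 105) (nat_lit 1) (nat_lit 5) (nat_lit 1) (nat_lit 7) (nat_lit 297) (nat_lit 303) r3_297 r9_303 (nat_lit 0) (nat_lit 0) (nat_lit 0) (nat_lit 0x80029938e) (nat_lit 1073741824),
  Rx.mk (nat_lit 109) (nat_lit 5) (nat_lit 5) (nat_lit 1) (nat_lit 7) (nat_lit 298) (nat_lit 302) r3_298 r9_302 (nat_lit 0) (nat_lit 0) (nat_lit 0) (nat_lit 0x80029938e) (nat_lit 1073741824),
  Rx.mk (nat_lit 117) (nat_lit 5) (nat_lit 6) (nat_lit 1) (nat_lit 7) (nat_lit 299) (nat_lit 304) r3_299 r9_304 (nat_lit 0) (nat_lit 0) (nat_lit 0) (nat_lit 0x7fb687978) (nat_lit 1078660724)]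
noncomputable def e6_43 : List Rx := [
  Rx.mk (nat_lit 33) (nat_lit 1) (nat_lit 4) (nat_lit 0) (nat_lit 1) (nat_lit 272) (nat_lit 293) r3_272 r1_293 (nat_lit 0) (nat_lit 1125) (nat_lit 1652) (nat_lit 0x8000c7dda) (nat_lit 1073695601),
  Rx.mk (nat_lit 41) (nat_lit 1) (nat_lit 5) (nat_lit 0) (nat_lit 3) (nat_lit 274) (nat_lit 295) r3_274 r1_295 (nat_lit 0) (nat_lit 0) (nat_lit 10154) (nat_lit 0x7fdc5d4a4) (nat_lit 1076074678),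
  Rx.mk (nat_lit 161) (nat_lit 1) (nat_lit 4) (nat_lit 2) (nat_lit 5) (nat_lit 273) (nat_lit 294) r3_273 r1_294 (nat_lit 0) (nat_lit 1915450) (nat_lit 0) (nat_lit 0x86d50b64a) (nat_lit 965236374),
  Rx.mk (nat_lit 169) (nat_lit 1) (nat_lit 5) (nat_lit 2) (nat_lit 7) (nat_lit 275) (nat_lit 296) r3_275 r1_296 (nat_lit 0) (nat_lit 0) (nat_lit 0) (nat_lit 0x99fe8fe40) (nat_lit 653462024)]
noncomputable def e6_44 : List Rx := [
  Rx.mk (nat_lit 41) (nat_lit 1) (nat_lit 5) (nat_lit 0) (nat_lit 3) (nat_lit 288) (nat_lit 61) r3_288 r8_61 (nat_lit 0) (nat_lit 0) (nat_lit 1085431) (nat_lit 0x787261944) (nat_lit 1200822755),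
  Rx.mk (nat_lit 169) (nat_lit 1) (nat_lit 5) (nat_lit 2) (nat_lit 7) (nat_lit 289) (nat_lit 62) r3_289 r8_62 (nat_lit 0) (nat_lit 0) (nat_lit 0) (nat_lit 0x954b78356) (nat_lit 729459824)]
noncomputable def e6_45 : List Rx := [
  Rx.mk (nat_lit 136) (nat_lit 0) (nat_lit 1) (nat_lit 2) (nat_lit 6) (nat_lit 262) (nat_lit 67) r3_262 r1_67 (nat_lit 30018) (nat_lit 0) (nat_lit 0) (nat_lit 0x7f80f42c0) (nat_lit 1082047842),
  Rx.mk (nat_lit 138) (nat_lit 2) (nat_lit 1) (nat_lit 2) (nat_lit 7) (nat_lit 263) (nat_lit 68) r3_263 r1_68 (nat_lit 0) (nat_lit 0) (nat_lit 0) (nat_lit 0x7eddd189a) (nat_lit 1092721324),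
  Rx.mk (nat_lit 168) (nat_lit 0) (nat_lit 5) (nat_lit 2) (nat_lit 6) (nat_lit 264) (nat_lit 66) r3_264 r1_66 (nat_lit 2087) (nat_lit 0) (nat_lit 0) (nat_lit 0x83b63534a) (nat_lit 1013722111)]
noncomputable def e6_46 : List Rx := [
  Rx.mk (nat_lit 136) (nat_lit 0) (nat_lit 1) (nat_lit 2) (nat_lit 6) (nat_lit 254) (nat_lit 59) r3_254 r2_59 (nat_lit 205631) (nat_lit 0) (nat_lit 0) (nat_lit 0x8653f4da4) (nat_lit 971638355),
  Rx.mk (nat_lit 138) (nat_lit 2) (nat_lit 1) (nat_lit 2) (nat_lit 7) (nat_lit 255) (nat_lit 61) r3_255 r2_61 (nat_lit 0) (nat_lit 0) (nat_lit 0) (nat_lit 0x9397f870a) (nat_lit 756973324),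
  Rx.mk (nat_lit 394) (nat_lit 2) (nat_lit 1) (nat_lit 6) (nat_lit 7) (nat_lit 256) (nat_lit 60) r3_256 r2_60 (nat_lit 0) (nat_lit 0) (nat_lit 0) (nat_lit 0x8c10f8f0e) (nat_lit 878699324)]
noncomputable def e6_47 : List Rx := [
  Rx.mk (nat_lit 40) (nat_lit 0) (nat_lit 5) (nat_lit 0) (nat_lit 2) (nat_lit 268) (nat_lit 334) r3_268 r8_334 (nat_lit 102120) (nat_lit 0) (nat_lit 71889) (nat_lit 0x6285859aa) (nat_lit 1565425633),
  Rx.mk (nat_lit 41) (nat_lit 1) (nat_lit 5) (nat_lit 0) (nat_lit 3) (nat_lit 270) (nat_lit 335) r3_270 r8_335 (nat_lit 0) (nat_lit 0) (nat_lit 3747800) (nat_lit 0x78d7bc56e) (nat_lit 1196904324),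
  Rx.mk (nat_lit 136) (nat_lit 0) (nat_lit 1) (nat_lit 2) (nat_lit 6) (nat_lit 265) (nat_lit 331) r3_265 r8_331 (nat_lit 1997453) (nat_lit 0) (nat_lit 0) (nat_lit 0x763aeada0) (nat_lit 1238709277),
  Rx.mk (nat_lit 137) (nat_lit 1) (nat_lit 1) (nat_lit 2) (nat_lit 7) (nat_lit 266) (nat_lit 332) r3_266 r8_332 (nat_lit 0) (nat_lit 0) (nat_lit 0) (nat_lit 0x80177ed94) (nat_lit 1072404124),
  Rx.mk (nat_lit 138) (nat_lit 2) (nat_lit 1) (nat_lit 2) (nat_lit 7) (nat_lit 267) (nat_lit 333) r3_267 r8_333 (nat_lit 0) (nat_lit 0) (nat_lit 0) (nat_lit 0x7fe356418) (nat_lit 1075754824),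
  Rx.mk (nat_lit 168) (nat_lit 0) (nat_lit 5) (nat_lit 2) (nat_lit 6) (nat_lit 269) (nat_lit 336) r3_269 r8_336 (nat_lit 889067) (nat_lit 0) (nat_lit 0) (nat_lit 0x75f75daa6) (nat_lit 1241990791),
  Rx.mk (nat_lit 169) (nat_lit 1) (nat_lit 5) (nat_lit 2) (nat_lit 7) (nat_lit 271) (nat_lit 337) r3_271 r8_337 (nat_lit 0) (nat_lit 0) (nat_lit 0) (nat_lit 0x800899acc) (nat_lit 1073355224)]
noncomputable def e6_48 : List Rx := [
  Rx.mk (nat_lit 136) (nat_lit 0) (nat_lit 1) (nat_lit 2) (nat_lit 6) (nat_lit 257) (nat_lit 19) r3_257 r9_19 (nat_lit 1112594) (nat_lit 0) (nat_lit 0) (nat_lit 0x72fee8a80) (nat_lit 1291746118),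
  Rx.mk (nat_lit 137) (nat_lit 1) (nat_lit 1) (nat_lit 2) (nat_lit 7) (nat_lit 258) (nat_lit 20) r3_258 r9_20 (nat_lit 0) (nat_lit 0) (nat_lit 0) (nat_lit 0x80029938e) (nat_lit 1073741824),
  Rx.mk (nat_lit 138) (nat_lit 2) (nat_lit 1) (nat_lit 2) (nat_lit 7) (nat_lit 259) (nat_lit 22) r3_259 r9_22 (nat_lit 0) (nat_lit 0) (nat_lit 0) (nat_lit 0x80029938e) (nat_lit 1073741824),
  Rx.mk (nat_lit 394) (nat_lit 2) (nat_lit 1) (nat_lit 6) (nat_lit 7) (nat_lit 260) (nat_lit 21) r3_260 r9_21 (nat_lit 0) (nat_lit 0) (nat_lit 0) (nat_lit 0x7ff99da00) (nat_lit 1074318324)]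
noncomputable def e6_49 : List Rx := [
  Rx.mk (nat_lit 394) (nat_lit 2) (nat_lit 1) (nat_lit 6) (nat_lit 7) (nat_lit 261) (nat_lit 14) r3_261 r9_14 (nat_lit 0) (nat_lit 0) (nat_lit 0) (nat_lit 0x7ff84561c) (nat_lit 1074405024)]
noncomputable def e6_50 : List Rx := [
  Rx.mk (nat_lit 35) (nat_lit 3) (nat_lit 4) (nat_lit 0) (nat_lit 1) (nat_lit 301) (nat_lit 63) r3_301 r3_63 (nat_lit 0) (nat_lit 17) (nat_lit 40) (nat_lit 0x80b6432ae) (nat_lit 1062228881),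
  Rx.mk (nat_lit 43) (nat_lit 3) (nat_lit 5) (nat_lit 0) (nat_lit 3) (nat_lit 304) (nat_lit 64) r3_304 r3_64 (nat_lit 0) (nat_lit 0) (nat_lit 1677) (nat_lit 0x8c10f3504) (nat_lit 878623501),
  Rx.mk (nat_lit 160) (nat_lit 0) (nat_lit 4) (nat_lit 2) (nat_lit 4) (nat_lit 300) (nat_lit 61) r3_300 r3_61 (nat_lit 40) (nat_lit 17) (nat_lit 0) (nat_lit 0x80b6432ae) (nat_lit 1062228881),
  Rx.mk (nat_lit 163) (nat_lit 3) (nat_lit 4) (nat_lit 2) (nat_lit 5) (nat_lit 302) (nat_lit 65) r3_302 r3_65 (nat_lit 0) (nat_lit 134512) (nat_lit 0) (nat_lit 0x8af027f88) (nat_lit 897028636),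
  Rx.mk (nat_lit 168) (nat_lit 0) (nat_lit 5) (nat_lit 2) (nat_lit 6) (nat_lit 303) (nat_lit 62) r3_303 r3_62 (nat_lit 1677) (nat_lit 0) (nat_lit 0) (nat_lit 0x8c10f3504) (nat_lit 878623501),
  Rx.mk (nat_lit 171) (nat_lit 3) (nat_lit 5) (nat_lit 2) (nat_lit 7) (nat_lit 305) (nat_lit 66) r3_305 r3_66 (nat_lit 0) (nat_lit 0) (nat_lit 0) (nat_lit 0x8cb63c2a4) (nat_lit 868259424)]
noncomputable def e6_51 : List Rx := [
  Rx.mk (nat_lit 43) (nat_lit 3) (nat_lit 5) (nat_lit 0) (nat_lit 3) (nat_lit 323) (nat_lit 66) r3_323 r4_66 (nat_lit 0) (nat_lit 0) (nat_lit 59693) (nat_lit 0x82d304170) (nat_lit 1028137517),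
  Rx.mk (nat_lit 168) (nat_lit 0) (nat_lit 5) (nat_lit 2) (nat_lit 6) (nat_lit 322) (nat_lit 65) r3_322 r4_65 (nat_lit 5075) (nat_lit 0) (nat_lit 0) (nat_lit 0x7fff94c6a) (nat_lit 1073774799),
  Rx.mk (nat_lit 171) (nat_lit 3) (nat_lit 5) (nat_lit 2) (nat_lit 7) (nat_lit 324) (nat_lit 67) r3_324 r4_67 (nat_lit 0) (nat_lit 0) (nat_lit 0) (nat_lit 0x81c174334) (nat_lit 1045360024)]
noncomputable def e6_52 : List Rx := [
  Rx.mk (nat_lit 35) (nat_lit 3) (nat_lit 4) (nat_lit 0) (nat_lit 1) (nat_lit 334) (nat_lit 55) r3_334 r5_55 (nat_lit 0) (nat_lit 480) (nat_lit 634) (nat_lit 0x80005933a) (nat_lit 1073721238),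
  Rx.mk (nat_lit 43) (nat_lit 3) (nat_lit 5) (nat_lit 0) (nat_lit 3) (nat_lit 338) (nat_lit 56) r3_338 r5_56 (nat_lit 0) (nat_lit 0) (nat_lit 1003900) (nat_lit 0x7e3ac80c2) (nat_lit 1104359824),
  Rx.mk (nat_lit 160) (nat_lit 0) (nat_lit 4) (nat_lit 2) (nat_lit 4) (nat_lit 333) (nat_lit 52) r3_333 r5_52 (nat_lit 316) (nat_lit 177) (nat_lit 0) (nat_lit 0x81669eebe) (nat_lit 1051089317),
  Rx.mk (nat_lit 163) (nat_lit 3) (nat_lit 4) (nat_lit 2) (nat_lit 5) (nat_lit 335) (nat_lit 59) r3_335 r5_59 (nat_lit 0) (nat_lit 80098) (nat_lit 0) (nat_lit 0x8d65266a2) (nat_lit 857234422),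
  Rx.mk (nat_lit 168) (nat_lit 0) (nat_lit 5) (nat_lit 2) (nat_lit 6) (nat_lit 337) (nat_lit 53) r3_337 r5_53 (nat_lit 1650932) (nat_lit 0) (nat_lit 0) (nat_lit 0x848b5b614) (nat_lit 1001973956),
  Rx.mk (nat_lit 171) (nat_lit 3) (nat_lit 5) (nat_lit 2) (nat_lit 7) (nat_lit 339) (nat_lit 60) r3_339 r5_60 (nat_lit 0) (nat_lit 0) (nat_lit 0) (nat_lit 0x9e7dac8be) (nat_lit 580755524),
  Rx.mk (nat_lit 184) (nat_lit 0) (nat_lit 7) (nat_lit 2) (nat_lit 6) (nat_lit 341) (nat_lit 54) r3_341 r5_54 (nat_lit 37687189) (nat_lit 0) (nat_lit 0) (nat_lit 0x8ea30d5d2) (nat_lit 874777413),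
  Rx.mk (nat_lit 227) (nat_lit 3) (nat_lit 4) (nat_lit 3) (nat_lit 5) (nat_lit 336) (nat_lit 57) r3_336 r5_57 (nat_lit 0) (nat_lit 12988) (nat_lit 0) (nat_lit 0x75ca83206) (nat_lit 1243973512),
  Rx.mk (nat_lit 235) (nat_lit 3) (nat_lit 5) (nat_lit 3) (nat_lit 7) (nat_lit 340) (nat_lit 58) r3_340 r5_58 (nat_lit 0) (nat_lit 0) (nat_lit 0) (nat_lit 0x8004ac4b4) (nat_lit 1073599124)]
noncomputable def e6_53 : List Rx := [
  Rx.mk (nat_lit 32) (nat_lit 0) (nat_lit 4) (nat_lit 0) (nat_lit 0) (nat_lit 306) (nat_lit 315) r3_306 r4_315 (nat_lit 381) (nat_lit 556) (nat_lit 599) (nat_lit 0x6cd77f4c2) (nat_lit 1393168560),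
  Rx.mk (nat_lit 33) (nat_lit 1) (nat_lit 4) (nat_lit 0) (nat_lit 1) (nat_lit 308) (nat_lit 316) r3_308 r4_316 (nat_lit 0) (nat_lit 78702452) (nat_lit 4812) (nat_lit 0x7ffa386b8) (nat_lit 1152826188),
  Rx.mk (nat_lit 35) (nat_lit 3) (nat_lit 4) (nat_lit 0) (nat_lit 1) (nat_lit 310) (nat_lit 317) r3_310 r4_317 (nat_lit 0) (nat_lit 9406) (nat_lit 110773703) (nat_lit 0x7ffe0e01c) (nat_lit 1184655233),
  Rx.mk (nat_lit 40) (nat_lit 0) (nat_lit 5) (nat_lit 0) (nat_lit 2) (nat_lit 312) (nat_lit 321) r3_312 r4_321 (nat_lit 40791) (nat_lit 0) (nat_lit 48933) (nat_lit 0x7dd97d7c2) (nat_lit 1109695448),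
  Rx.mk (nat_lit 41) (nat_lit 1) (nat_lit 5) (nat_lit 0) (nat_lit 3) (nat_lit 314) (nat_lit 322) r3_314 r4_322 (nat_lit 0) (nat_lit 0) (nat_lit 1367560) (nat_lit 0x8ae095fb6) (nat_lit 899278784),
  Rx.mk (nat_lit 43) (nat_lit 3) (nat_lit 5) (nat_lit 0) (nat_lit 3) (nat_lit 316) (nat_lit 323) r3_316 r4_323 (nat_lit 0) (nat_lit 0) (nat_lit 70023929) (nat_lit 0x92ac5cf30) (nat_lit 841861753),
  Rx.mk (nat_lit 160) (nat_lit 0) (nat_lit 4) (nat_lit 2) (nat_lit 4) (nat_lit 307) (nat_lit 318) r3_307 r4_318 (nat_lit 60686) (nat_lit 81020) (nat_lit 0) (nat_lit 0x801a46ce8) (nat_lit 1072248030),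
  Rx.mk (nat_lit 161) (nat_lit 1) (nat_lit 4) (nat_lit 2) (nat_lit 5) (nat_lit 309) (nat_lit 319) r3_309 r4_319 (nat_lit 0) (nat_lit 1522780) (nat_lit 0) (nat_lit 0x8378e3c12) (nat_lit 1019195904),
  Rx.mk (nat_lit 163) (nat_lit 3) (nat_lit 4) (nat_lit 2) (nat_lit 5) (nat_lit 311) (nat_lit 320) r3_311 r4_320 (nat_lit 0) (nat_lit 1606138) (nat_lit 0) (nat_lit 0x821e57844) (nat_lit 1041172862),
  Rx.mk (nat_lit 168) (nat_lit 0) (nat_lit 5) (nat_lit 2) (nat_lit 6) (nat_lit 313) (nat_lit 324) r3_313 r4_324 (nat_lit 584304) (nat_lit 0) (nat_lit 0) (nat_lit 0x9167d9fb2) (nat_lit 792933828),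
  Rx.mk (nat_lit 169) (nat_lit 1) (nat_lit 5) (nat_lit 2) (nat_lit 7) (nat_lit 315) (nat_lit 325) r3_315 r4_325 (nat_lit 0) (nat_lit 0) (nat_lit 0) (nat_lit 0x8580ec5f6) (nat_lit 984823424),
  Rx.mk (nat_lit 171) (nat_lit 3) (nat_lit 5) (nat_lit 2) (nat_lit 7) (nat_lit 317) (nat_lit 326) r3_317 r4_326 (nat_lit 0) (nat_lit 0) (nat_lit 0) (nat_lit 0x84b6c300e) (nat_lit 997593924)]
noncomputable def e6_54 : List Rx := [
  Rx.mk (nat_lit 40) (nat_lit 0) (nat_lit 5) (nat_lit 0) (nat_lit 2) (nat_lit 325) (nat_lit 38) r3_325 r10_38 (nat_lit 22262) (nat_lit 0) (nat_lit 15756) (nat_lit 0x62ad48e7e) (nat_lit 1562688942),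
  Rx.mk (nat_lit 41) (nat_lit 1) (nat_lit 5) (nat_lit 0) (nat_lit 3) (nat_lit 327) (nat_lit 40) r3_327 r10_40 (nat_lit 0) (nat_lit 0) (nat_lit 14524810) (nat_lit 0x7f58f3384) (nat_lit 1099247534),
  Rx.mk (nat_lit 43) (nat_lit 3) (nat_lit 5) (nat_lit 0) (nat_lit 3) (nat_lit 329) (nat_lit 42) r3_329 r10_42 (nat_lit 0) (nat_lit 0) (nat_lit 8861734) (nat_lit 0x7fb3a6038) (nat_lit 1087701158),
  Rx.mk (nat_lit 168) (nat_lit 0) (nat_lit 5) (nat_lit 2) (nat_lit 6) (nat_lit 326) (nat_lit 39) r3_326 r10_39 (nat_lit 96051) (nat_lit 0) (nat_lit 0) (nat_lit 0x88974f8cc) (nat_lit 934938275),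
  Rx.mk (nat_lit 169) (nat_lit 1) (nat_lit 5) (nat_lit 2) (nat_lit 7) (nat_lit 328) (nat_lit 41) r3_328 r10_41 (nat_lit 0) (nat_lit 0) (nat_lit 0) (nat_lit 0x9b76b2354) (nat_lit 629711124),
  Rx.mk (nat_lit 171) (nat_lit 3) (nat_lit 5) (nat_lit 2) (nat_lit 7) (nat_lit 330) (nat_lit 43) r3_330 r10_43 (nat_lit 0) (nat_lit 0) (nat_lit 0) (nat_lit 0x9b76b3d44) (nat_lit 629710724)]
noncomputable def e6_55 : List Rx := [
  Rx.mk (nat_lit 32) (nat_lit 0) (nat_lit 4) (nat_lit 0) (nat_lit 0) (nat_lit 342) (nat_lit 19) r3_342 r11_19 (nat_lit 14728) (nat_lit 10953) (nat_lit 13405) (nat_lit 0x4ae9c72d2) (nat_lit 1958901310),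
  Rx.mk (nat_lit 33) (nat_lit 1) (nat_lit 4) (nat_lit 0) (nat_lit 1) (nat_lit 344) (nat_lit 25) r3_344 r11_25 (nat_lit 0) (nat_lit 2392413) (nat_lit 280142) (nat_lit 0x66a75eea6) (nat_lit 1499043279),
  Rx.mk (nat_lit 35) (nat_lit 3) (nat_lit 4) (nat_lit 0) (nat_lit 1) (nat_lit 346) (nat_lit 31) r3_346 r11_31 (nat_lit 0) (nat_lit 142575) (nat_lit 186023355) (nat_lit 0x6ffd0fa54) (nat_lit 1526896154),
  Rx.mk (nat_lit 40) (nat_lit 0) (nat_lit 5) (nat_lit 0) (nat_lit 2) (nat_lit 349) (nat_lit 20) r3_349 r11_20 (nat_lit 10345631) (nat_lit 0) (nat_lit 4197450) (nat_lit 0x687798d28) (nat_lit 1480729305),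
  Rx.mk (nat_lit 41) (nat_lit 1) (nat_lit 5) (nat_lit 0) (nat_lit 3) (nat_lit 351) (nat_lit 26) r3_351 r11_26 (nat_lit 0) (nat_lit 0) (nat_lit 5449534) (nat_lit 0x80029938e) (nat_lit 1079191358),
  Rx.mk (nat_lit 43) (nat_lit 3) (nat_lit 5) (nat_lit 0) (nat_lit 3) (nat_lit 353) (nat_lit 32) r3_353 r11_32 (nat_lit 0) (nat_lit 0) (nat_lit 5985185) (nat_lit 0x8004716b6) (nat_lit 1079607809),
  Rx.mk (nat_lit 56) (nat_lit 0) (nat_lit 7) (nat_lit 0) (nat_lit 2) (nat_lit 356) (nat_lit 21) r3_356 r11_21 (nat_lit 6307296) (nat_lit 0) (nat_lit 30752625) (nat_lit 0x70f1635ce) (nat_lit 1361931145),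
  Rx.mk (nat_lit 57) (nat_lit 1) (nat_lit 7) (nat_lit 0) (nat_lit 3) (nat_lit 358) (nat_lit 27) r3_358 r11_27 (nat_lit 0) (nat_lit 0) (nat_lit 5203886) (nat_lit 0x7ffd2d666) (nat_lit 1079291910),
  Rx.mk (nat_lit 160) (nat_lit 0) (nat_lit 4) (nat_lit 2) (nat_lit 4) (nat_lit 343) (nat_lit 22) r3_343 r11_22 (nat_lit 670112) (nat_lit 549568) (nat_lit 0) (nat_lit 0x69e9acd0a) (nat_lit 1443278804),
  Rx.mk (nat_lit 161) (nat_lit 1) (nat_lit 4) (nat_lit 2) (nat_lit 5) (nat_lit 345) (nat_lit 28) r3_345 r11_28 (nat_lit 0) (nat_lit 2769157) (nat_lit 0) (nat_lit 0x7fe0aa2aa) (nat_lit 1078693281),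
  Rx.mk (nat_lit 163) (nat_lit 3) (nat_lit 4) (nat_lit 2) (nat_lit 5) (nat_lit 347) (nat_lit 35) r3_347 r11_35 (nat_lit 0) (nat_lit 2583324) (nat_lit 0) (nat_lit 0x8001e2788) (nat_lit 1076364148),
  Rx.mk (nat_lit 168) (nat_lit 0) (nat_lit 5) (nat_lit 2) (nat_lit 6) (nat_lit 350) (nat_lit 23) r3_350 r11_23 (nat_lit 1833420) (nat_lit 0) (nat_lit 0) (nat_lit 0x80fbf3f4c) (nat_lit 1059750544),
  Rx.mk (nat_lit 169) (nat_lit 1) (nat_lit 5) (nat_lit 2) (nat_lit 7) (nat_lit 352) (nat_lit 29) r3_352 r11_29 (nat_lit 0) (nat_lit 0) (nat_lit 0) (nat_lit 0x8029b3c76) (nat_lit 1071240424),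
  Rx.mk (nat_lit 171) (nat_lit 3) (nat_lit 5) (nat_lit 2) (nat_lit 7) (nat_lit 354) (nat_lit 36) r3_354 r11_36 (nat_lit 0) (nat_lit 0) (nat_lit 0) (nat_lit 0x8029b3c76) (nat_lit 1071240424),
  Rx.mk (nat_lit 184) (nat_lit 0) (nat_lit 7) (nat_lit 2) (nat_lit 6) (nat_lit 357) (nat_lit 24) r3_357 r11_24 (nat_lit 1201223) (nat_lit 0) (nat_lit 0) (nat_lit 0x8079a638c) (nat_lit 1067378647),
  Rx.mk (nat_lit 185) (nat_lit 1) (nat_lit 7) (nat_lit 2) (nat_lit 7) (nat_lit 359) (nat_lit 30) r3_359 r11_30 (nat_lit 0) (nat_lit 0) (nat_lit 0) (nat_lit 0x8029b3c76) (nat_lit 1071240424),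
  Rx.mk (nat_lit 227) (nat_lit 3) (nat_lit 4) (nat_lit 3) (nat_lit 5) (nat_lit 348) (nat_lit 33) r3_348 r11_33 (nat_lit 0) (nat_lit 5449534) (nat_lit 0) (nat_lit 0x7edae2d3c) (nat_lit 1098382458),
  Rx.mk (nat_lit 235) (nat_lit 3) (nat_lit 5) (nat_lit 3) (nat_lit 7) (nat_lit 355) (nat_lit 34) r3_355 r11_34 (nat_lit 0) (nat_lit 0) (nat_lit 0) (nat_lit 0x80029938e) (nat_lit 1073741824)]
noncomputable def e6_56 : List Rx := [
  Rx.mk (nat_lit 35) (nat_lit 3) (nat_lit 4) (nat_lit 0) (nat_lit 1) (nat_lit 318) (nat_lit 293) r3_318 r5_293 (nat_lit 0) (nat_lit 447) (nat_lit 345) (nat_lit 0x802b87ca0) (nat_lit 1070993016),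
  Rx.mk (nat_lit 43) (nat_lit 3) (nat_lit 5) (nat_lit 0) (nat_lit 3) (nat_lit 320) (nat_lit 295) r3_320 r5_295 (nat_lit 0) (nat_lit 0) (nat_lit 155164) (nat_lit 0x801767e82) (nat_lit 1072432988),
  Rx.mk (nat_lit 163) (nat_lit 3) (nat_lit 4) (nat_lit 2) (nat_lit 5) (nat_lit 319) (nat_lit 294) r3_319 r5_294 (nat_lit 0) (nat_lit 160316) (nat_lit 0) (nat_lit 0x84f17c510) (nat_lit 994003240),
  Rx.mk (nat_lit 171) (nat_lit 3) (nat_lit 5) (nat_lit 2) (nat_lit 7) (nat_lit 321) (nat_lit 296) r3_321 r5_296 (nat_lit 0) (nat_lit 0) (nat_lit 0) (nat_lit 0x982c943ec) (nat_lit 682903324)]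
noncomputable def e6_57 : List Rx := [
  Rx.mk (nat_lit 43) (nat_lit 3) (nat_lit 5) (nat_lit 0) (nat_lit 3) (nat_lit 331) (nat_lit 351) r3_331 r11_351 (nat_lit 0) (nat_lit 0) (nat_lit 43945288) (nat_lit 0x7fd2eddd8) (nat_lit 1120678112),
  Rx.mk (nat_lit 171) (nat_lit 3) (nat_lit 5) (nat_lit 2) (nat_lit 7) (nat_lit 332) (nat_lit 352) r3_332 r11_352 (nat_lit 0) (nat_lit 0) (nat_lit 0) (nat_lit 0xa03942e42) (nat_lit 552675224)]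
noncomputable def e6 : List (List Rx) := [e6_0, e6_1, e6_2, e6_3, e6_4, e6_5, e6_6, e6_7, e6_8, e6_9, e6_10, e6_11, e6_12, e6_13, e6_14, e6_15, e6_16, e6_17, e6_18, e6_19, e6_20, e6_21, e6_22, e6_23, e6_24, e6_25, e6_26, e6_27, e6_28, e6_29, e6_30, e6_31, e6_32, e6_33, e6_34, e6_35, e6_36, e6_37, e6_38, e6_39, e6_40, e6_41, e6_42, e6_43, e6_44, e6_45, e6_46, e6_47, e6_48, e6_49, e6_50, e6_51, e6_52, e6_53, e6_54, e6_55, e6_56, e6_57]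
noncomputable def e7_0 : List Rx := [
  Rx.mk (nat_lit 359) (nat_lit 7) (nat_lit 4) (nat_lit 5) (nat_lit 5) (nat_lit 72) (nat_lit 73) r0_72 r0_73 (nat_lit 0) (nat_lit 2574804) (nat_lit 0) (nat_lit 0x7c7441fb2) (nat_lit 1135516628),
  Rx.mk (nat_lit 372) (nat_lit 4) (nat_lit 6) (nat_lit 5) (nat_lit 6) (nat_lit 73) (nat_lit 72) r0_73 r0_72 (nat_lit 2574804) (nat_lit 0) (nat_lit 0) (nat_lit 0x7c7441fb2) (nat_lit 1135516628),
  Rx.mk (nat_lit 375) (nat_lit 7) (nat_lit 6) (nat_lit 5) (nat_lit 7) (nat_lit 74) (nat_lit 74) r0_74 r0_74 (nat_lit 0) (nat_lit 0) (nat_lit 0) (nat_lit 0x8001d5326) (nat_lit 1073781524)]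
noncomputable def e7_1 : List Rx := [
  Rx.mk (nat_lit 359) (nat_lit 7) (nat_lit 4) (nat_lit 5) (nat_lit 5) (nat_lit 75) (nat_lit 70) r0_75 r1_70 (nat_lit 0) (nat_lit 2468639) (nat_lit 0) (nat_lit 0x80090eed0) (nat_lit 1075791763),
  Rx.mk (nat_lit 372) (nat_lit 4) (nat_lit 6) (nat_lit 5) (nat_lit 6) (nat_lit 76) (nat_lit 69) r0_76 r1_69 (nat_lit 3524879) (nat_lit 0) (nat_lit 0) (nat_lit 0x7f208be6a) (nat_lit 1091914603),
  Rx.mk (nat_lit 374) (nat_lit 6) (nat_lit 6) (nat_lit 5) (nat_lit 7) (nat_lit 77) (nat_lit 72) r0_77 r1_72 (nat_lit 0) (nat_lit 0) (nat_lit 0) (nat_lit 0x800fe7112) (nat_lit 1072885924),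
  Rx.mk (nat_lit 375) (nat_lit 7) (nat_lit 6) (nat_lit 5) (nat_lit 7) (nat_lit 78) (nat_lit 71) r0_78 r1_71 (nat_lit 0) (nat_lit 0) (nat_lit 0) (nat_lit 0x81c0ba54c) (nat_lit 1045481724)]
noncomputable def e7_2 : List Rx := [
  Rx.mk (nat_lit 295) (nat_lit 7) (nat_lit 4) (nat_lit 4) (nat_lit 1) (nat_lit 31) (nat_lit 64) r0_31 r2_64 (nat_lit 0) (nat_lit 418407) (nat_lit 340572) (nat_lit 0x63d5cd998) (nat_lit 1544142803),
  Rx.mk (nat_lit 308) (nat_lit 4) (nat_lit 6) (nat_lit 4) (nat_lit 2) (nat_lit 34) (nat_lit 62) r0_34 r2_62 (nat_lit 1100011) (nat_lit 0) (nat_lit 546718) (nat_lit 0x5e324af1e) (nat_lit 1639056353),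
  Rx.mk (nat_lit 310) (nat_lit 6) (nat_lit 6) (nat_lit 4) (nat_lit 3) (nat_lit 36) (nat_lit 72) r0_36 r2_72 (nat_lit 0) (nat_lit 0) (nat_lit 3680737) (nat_lit 0x7f050aae2) (nat_lit 1093861361),
  Rx.mk (nat_lit 311) (nat_lit 7) (nat_lit 6) (nat_lit 4) (nat_lit 3) (nat_lit 39) (nat_lit 68) r0_39 r2_68 (nat_lit 0) (nat_lit 0) (nat_lit 372081) (nat_lit 0x80aa87848) (nat_lit 1063404905),
  Rx.mk (nat_lit 359) (nat_lit 7) (nat_lit 4) (nat_lit 5) (nat_lit 5) (nat_lit 32) (nat_lit 65) r0_32 r2_65 (nat_lit 0) (nat_lit 2521905) (nat_lit 0) (nat_lit 0x7ff8da2da) (nat_lit 1076883729),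
  Rx.mk (nat_lit 372) (nat_lit 4) (nat_lit 6) (nat_lit 5) (nat_lit 6) (nat_lit 35) (nat_lit 63) r0_35 r2_63 (nat_lit 6036329) (nat_lit 0) (nat_lit 0) (nat_lit 0x7f3f12eb0) (nat_lit 1092440953),
  Rx.mk (nat_lit 374) (nat_lit 6) (nat_lit 6) (nat_lit 5) (nat_lit 7) (nat_lit 37) (nat_lit 73) r0_37 r2_73 (nat_lit 0) (nat_lit 0) (nat_lit 0) (nat_lit 0x8000ca71a) (nat_lit 1073857724),
  Rx.mk (nat_lit 375) (nat_lit 7) (nat_lit 6) (nat_lit 5) (nat_lit 7) (nat_lit 40) (nat_lit 69) r0_40 r2_69 (nat_lit 0) (nat_lit 0) (nat_lit 0) (nat_lit 0x812965e80) (nat_lit 1055044524),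
  Rx.mk (nat_lit 406) (nat_lit 6) (nat_lit 2) (nat_lit 6) (nat_lit 7) (nat_lit 30) (nat_lit 71) r0_30 r2_71 (nat_lit 0) (nat_lit 0) (nat_lit 0) (nat_lit 0x80029938e) (nat_lit 1073741824),
  Rx.mk (nat_lit 438) (nat_lit 6) (nat_lit 6) (nat_lit 6) (nat_lit 7) (nat_lit 38) (nat_lit 74) r0_38 r2_74 (nat_lit 0) (nat_lit 0) (nat_lit 0) (nat_lit 0x8000ca71a) (nat_lit 1073857724),
  Rx.mk (nat_lit 487) (nat_lit 7) (nat_lit 4) (nat_lit 7) (nat_lit 5) (nat_lit 33) (nat_lit 66) r0_33 r2_66 (nat_lit 0) (nat_lit 4691311) (nat_lit 0) (nat_lit 0x7fd860edc) (nat_lit 1081143335),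
  Rx.mk (nat_lit 503) (nat_lit 7) (nat_lit 6) (nat_lit 7) (nat_lit 7) (nat_lit 41) (nat_lit 70) r0_41 r2_70 (nat_lit 0) (nat_lit 0) (nat_lit 0) (nat_lit 0x812d32e5a) (nat_lit 1054804324),
  Rx.mk (nat_lit 511) (nat_lit 7) (nat_lit 7) (nat_lit 7) (nat_lit 7) (nat_lit 42) (nat_lit 67) r0_42 r2_67 (nat_lit 0) (nat_lit 0) (nat_lit 0) (nat_lit 0x80029938e) (nat_lit 1073741824)]
noncomputable def e7_3 : List Rx := [
  Rx.mk (nat_lit 103) (nat_lit 7) (nat_lit 4) (nat_lit 1) (nat_lit 5) (nat_lit 71) (nat_lit 67) r0_71 r3_67 (nat_lit 0) (nat_lit 121) (nat_lit 0) (nat_lit 0x80002aa9e) (nat_lit 1073731445)]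
noncomputable def e7_4 : List Rx := [
  Rx.mk (nat_lit 103) (nat_lit 7) (nat_lit 4) (nat_lit 1) (nat_lit 5) (nat_lit 79) (nat_lit 68) r0_79 r4_68 (nat_lit 0) (nat_lit 1845209) (nat_lit 0) (nat_lit 0x6d5c42330) (nat_lit 1386432233),
  Rx.mk (nat_lit 359) (nat_lit 7) (nat_lit 4) (nat_lit 5) (nat_lit 5) (nat_lit 80) (nat_lit 69) r0_80 r4_69 (nat_lit 0) (nat_lit 2927812) (nat_lit 0) (nat_lit 0x7f9b05e02) (nat_lit 1083361236),
  Rx.mk (nat_lit 375) (nat_lit 7) (nat_lit 6) (nat_lit 5) (nat_lit 7) (nat_lit 81) (nat_lit 70) r0_81 r4_70 (nat_lit 0) (nat_lit 0) (nat_lit 0) (nat_lit 0x7fdf910da) (nat_lit 1075963024)]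
noncomputable def e7_5 : List Rx := [
  Rx.mk (nat_lit 103) (nat_lit 7) (nat_lit 4) (nat_lit 1) (nat_lit 5) (nat_lit 89) (nat_lit 61) r0_89 r5_61 (nat_lit 0) (nat_lit 26638681) (nat_lit 0) (nat_lit 0x7d4f8ee26) (nat_lit 1145302105),
  Rx.mk (nat_lit 127) (nat_lit 7) (nat_lit 7) (nat_lit 1) (nat_lit 7) (nat_lit 90) (nat_lit 62) r0_90 r5_62 (nat_lit 0) (nat_lit 0) (nat_lit 0) (nat_lit 0x83bd7abf0) (nat_lit 1013342324)]
noncomputable def e7_6 : List Rx := [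
  Rx.mk (nat_lit 24) (nat_lit 0) (nat_lit 3) (nat_lit 0) (nat_lit 2) (nat_lit 43) (nat_lit 4) r0_43 r3_4 (nat_lit 127) (nat_lit 0) (nat_lit 41) (nat_lit 0x810a42a4e) (nat_lit 1056923092),
  Rx.mk (nat_lit 27) (nat_lit 3) (nat_lit 3) (nat_lit 0) (nat_lit 3) (nat_lit 46) (nat_lit 6) r0_46 r3_6 (nat_lit 0) (nat_lit 0) (nat_lit 340766) (nat_lit 0x7b6c883d0) (nat_lit 1150435990),
  Rx.mk (nat_lit 59) (nat_lit 3) (nat_lit 7) (nat_lit 0) (nat_lit 3) (nat_lit 49) (nat_lit 2) r0_49 r3_2 (nat_lit 0) (nat_lit 0) (nat_lit 1675) (nat_lit 0x7fff0f506) (nat_lit 1073805999),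
  Rx.mk (nat_lit 152) (nat_lit 0) (nat_lit 3) (nat_lit 2) (nat_lit 6) (nat_lit 44) (nat_lit 5) r0_44 r3_5 (nat_lit 57402) (nat_lit 0) (nat_lit 0) (nat_lit 0x72280bbe8) (nat_lit 1304618126),
  Rx.mk (nat_lit 154) (nat_lit 2) (nat_lit 3) (nat_lit 2) (nat_lit 7) (nat_lit 45) (nat_lit 8) r0_45 r3_8 (nat_lit 0) (nat_lit 0) (nat_lit 0) (nat_lit 0x7e9e55ea0) (nat_lit 1096868324),
  Rx.mk (nat_lit 155) (nat_lit 3) (nat_lit 3) (nat_lit 2) (nat_lit 7) (nat_lit 47) (nat_lit 7) r0_47 r3_7 (nat_lit 0) (nat_lit 0) (nat_lit 0) (nat_lit 0x805080ac0) (nat_lit 1068781124),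
  Rx.mk (nat_lit 231) (nat_lit 7) (nat_lit 4) (nat_lit 3) (nat_lit 5) (nat_lit 48) (nat_lit 0) r0_48 r3_0 (nat_lit 0) (nat_lit 2538) (nat_lit 0) (nat_lit 0x7f0d94852) (nat_lit 1089533662),
  Rx.mk (nat_lit 251) (nat_lit 3) (nat_lit 7) (nat_lit 3) (nat_lit 7) (nat_lit 50) (nat_lit 3) r0_50 r3_3 (nat_lit 0) (nat_lit 0) (nat_lit 0) (nat_lit 0x7ff88c6a2) (nat_lit 1074376024),
  Rx.mk (nat_lit 255) (nat_lit 7) (nat_lit 7) (nat_lit 3) (nat_lit 7) (nat_lit 51) (nat_lit 1) r0_51 r3_1 (nat_lit 0) (nat_lit 0) (nat_lit 0) (nat_lit 0x7e28e0986) (nat_lit 1104512624)]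
noncomputable def e7_7 : List Rx := [
  Rx.mk (nat_lit 24) (nat_lit 0) (nat_lit 3) (nat_lit 0) (nat_lit 2) (nat_lit 4) (nat_lit 11) r0_4 r0_11 (nat_lit 405) (nat_lit 0) (nat_lit 315) (nat_lit 0x7ffff5812) (nat_lit 1073745444),
  Rx.mk (nat_lit 27) (nat_lit 3) (nat_lit 3) (nat_lit 0) (nat_lit 3) (nat_lit 7) (nat_lit 13) r0_7 r0_13 (nat_lit 0) (nat_lit 0) (nat_lit 333) (nat_lit 0x89448e60a) (nat_lit 923874657),
  Rx.mk (nat_lit 130) (nat_lit 2) (nat_lit 0) (nat_lit 2) (nat_lit 5) (nat_lit 0) (nat_lit 10) r0_0 r0_10 (nat_lit 0) (nat_lit 5395) (nat_lit 0) (nat_lit 0x6944b7408) (nat_lit 1452752919),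
  Rx.mk (nat_lit 146) (nat_lit 2) (nat_lit 2) (nat_lit 2) (nat_lit 7) (nat_lit 1) (nat_lit 19) r0_1 r0_19 (nat_lit 0) (nat_lit 0) (nat_lit 0) (nat_lit 0x75d7e4c92) (nat_lit 1243130024),
  Rx.mk (nat_lit 152) (nat_lit 0) (nat_lit 3) (nat_lit 2) (nat_lit 6) (nat_lit 5) (nat_lit 12) r0_5 r0_12 (nat_lit 1728051) (nat_lit 0) (nat_lit 0) (nat_lit 0x7394ef902) (nat_lit 1282594675),
  Rx.mk (nat_lit 154) (nat_lit 2) (nat_lit 3) (nat_lit 2) (nat_lit 7) (nat_lit 6) (nat_lit 16) r0_6 r0_16 (nat_lit 0) (nat_lit 0) (nat_lit 0) (nat_lit 0x7fffee0a8) (nat_lit 1073746924),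
  Rx.mk (nat_lit 155) (nat_lit 3) (nat_lit 3) (nat_lit 2) (nat_lit 7) (nat_lit 8) (nat_lit 15) r0_8 r0_15 (nat_lit 0) (nat_lit 0) (nat_lit 0) (nat_lit 0x7f59d35d8) (nat_lit 1084663224),
  Rx.mk (nat_lit 219) (nat_lit 3) (nat_lit 3) (nat_lit 3) (nat_lit 7) (nat_lit 9) (nat_lit 14) r0_9 r0_14 (nat_lit 0) (nat_lit 0) (nat_lit 0) (nat_lit 0x7f4d09abe) (nat_lit 1085496724),
  Rx.mk (nat_lit 251) (nat_lit 3) (nat_lit 7) (nat_lit 3) (nat_lit 7) (nat_lit 17) (nat_lit 3) r0_17 r0_3 (nat_lit 0) (nat_lit 0) (nat_lit 0) (nat_lit 0x7faf4f9e4) (nat_lit 1079113724),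
  Rx.mk (nat_lit 255) (nat_lit 7) (nat_lit 7) (nat_lit 3) (nat_lit 7) (nat_lit 18) (nat_lit 2) r0_18 r0_2 (nat_lit 0) (nat_lit 0) (nat_lit 0) (nat_lit 0x72bc9c29e) (nat_lit 1294943824),
  Rx.mk (nat_lit 308) (nat_lit 4) (nat_lit 6) (nat_lit 4) (nat_lit 2) (nat_lit 11) (nat_lit 4) r0_11 r0_4 (nat_lit 405) (nat_lit 0) (nat_lit 315) (nat_lit 0x7ffff5812) (nat_lit 1073745444),
  Rx.mk (nat_lit 310) (nat_lit 6) (nat_lit 6) (nat_lit 4) (nat_lit 3) (nat_lit 13) (nat_lit 7) r0_13 r0_7 (nat_lit 0) (nat_lit 0) (nat_lit 333) (nat_lit 0x89448e60a) (nat_lit 923874657),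
  Rx.mk (nat_lit 402) (nat_lit 2) (nat_lit 2) (nat_lit 6) (nat_lit 7) (nat_lit 2) (nat_lit 18) r0_2 r0_18 (nat_lit 0) (nat_lit 0) (nat_lit 0) (nat_lit 0x72bc9c29e) (nat_lit 1294943824),
  Rx.mk (nat_lit 406) (nat_lit 6) (nat_lit 2) (nat_lit 6) (nat_lit 7) (nat_lit 3) (nat_lit 17) r0_3 r0_17 (nat_lit 0) (nat_lit 0) (nat_lit 0) (nat_lit 0x7faf4f9e4) (nat_lit 1079113724),
  Rx.mk (nat_lit 438) (nat_lit 6) (nat_lit 6) (nat_lit 6) (nat_lit 7) (nat_lit 14) (nat_lit 9) r0_14 r0_9 (nat_lit 0) (nat_lit 0) (nat_lit 0) (nat_lit 0x7f4d09abe) (nat_lit 1085496724),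
  Rx.mk (nat_lit 487) (nat_lit 7) (nat_lit 4) (nat_lit 7) (nat_lit 5) (nat_lit 10) (nat_lit 0) r0_10 r0_0 (nat_lit 0) (nat_lit 5395) (nat_lit 0) (nat_lit 0x6944b7408) (nat_lit 1452752919),
  Rx.mk (nat_lit 500) (nat_lit 4) (nat_lit 6) (nat_lit 7) (nat_lit 6) (nat_lit 12) (nat_lit 5) r0_12 r0_5 (nat_lit 1728051) (nat_lit 0) (nat_lit 0) (nat_lit 0x7394ef902) (nat_lit 1282594675),
  Rx.mk (nat_lit 502) (nat_lit 6) (nat_lit 6) (nat_lit 7) (nat_lit 7) (nat_lit 15) (nat_lit 8) r0_15 r0_8 (nat_lit 0) (nat_lit 0) (nat_lit 0) (nat_lit 0x7f59d35d8) (nat_lit 1084663224),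
  Rx.mk (nat_lit 503) (nat_lit 7) (nat_lit 6) (nat_lit 7) (nat_lit 7) (nat_lit 16) (nat_lit 6) r0_16 r0_6 (nat_lit 0) (nat_lit 0) (nat_lit 0) (nat_lit 0x7fffee0a8) (nat_lit 1073746924),
  Rx.mk (nat_lit 511) (nat_lit 7) (nat_lit 7) (nat_lit 7) (nat_lit 7) (nat_lit 19) (nat_lit 1) r0_19 r0_1 (nat_lit 0) (nat_lit 0) (nat_lit 0) (nat_lit 0x75d7e4c92) (nat_lit 1243130024)]
noncomputable def e7_8 : List Rx := [
  Rx.mk (nat_lit 308) (nat_lit 4) (nat_lit 6) (nat_lit 4) (nat_lit 2) (nat_lit 23) (nat_lit 2) r0_23 r1_2 (nat_lit 1455550) (nat_lit 0) (nat_lit 718420) (nat_lit 0x6a3efe8ee) (nat_lit 1438693294),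
  Rx.mk (nat_lit 310) (nat_lit 6) (nat_lit 6) (nat_lit 4) (nat_lit 3) (nat_lit 25) (nat_lit 5) r0_25 r1_5 (nat_lit 0) (nat_lit 0) (nat_lit 1321792) (nat_lit 0x7eac0b5f4) (nat_lit 1097321716),
  Rx.mk (nat_lit 402) (nat_lit 2) (nat_lit 2) (nat_lit 6) (nat_lit 7) (nat_lit 20) (nat_lit 9) r0_20 r1_9 (nat_lit 0) (nat_lit 0) (nat_lit 0) (nat_lit 0x7ffd4488e) (nat_lit 1074080924),
  Rx.mk (nat_lit 406) (nat_lit 6) (nat_lit 2) (nat_lit 6) (nat_lit 7) (nat_lit 21) (nat_lit 8) r0_21 r1_8 (nat_lit 0) (nat_lit 0) (nat_lit 0) (nat_lit 0x801ae09f6) (nat_lit 1072185524),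
  Rx.mk (nat_lit 438) (nat_lit 6) (nat_lit 6) (nat_lit 6) (nat_lit 7) (nat_lit 26) (nat_lit 7) r0_26 r1_7 (nat_lit 0) (nat_lit 0) (nat_lit 0) (nat_lit 0x8024ca822) (nat_lit 1071553224),
  Rx.mk (nat_lit 487) (nat_lit 7) (nat_lit 4) (nat_lit 7) (nat_lit 5) (nat_lit 22) (nat_lit 0) r0_22 r1_0 (nat_lit 0) (nat_lit 3533431) (nat_lit 0) (nat_lit 0x7556e8ecc) (nat_lit 1255098455),
  Rx.mk (nat_lit 500) (nat_lit 4) (nat_lit 6) (nat_lit 7) (nat_lit 6) (nat_lit 24) (nat_lit 3) r0_24 r1_3 (nat_lit 3519261) (nat_lit 0) (nat_lit 0) (nat_lit 0x7fe91f23c) (nat_lit 1078893085),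
  Rx.mk (nat_lit 502) (nat_lit 6) (nat_lit 6) (nat_lit 7) (nat_lit 7) (nat_lit 27) (nat_lit 6) r0_27 r1_6 (nat_lit 0) (nat_lit 0) (nat_lit 0) (nat_lit 0x8026ace56) (nat_lit 1071433124),
  Rx.mk (nat_lit 503) (nat_lit 7) (nat_lit 6) (nat_lit 7) (nat_lit 7) (nat_lit 28) (nat_lit 4) r0_28 r1_4 (nat_lit 0) (nat_lit 0) (nat_lit 0) (nat_lit 0x8b4469ad8) (nat_lit 891617424),
  Rx.mk (nat_lit 511) (nat_lit 7) (nat_lit 7) (nat_lit 7) (nat_lit 7) (nat_lit 29) (nat_lit 1) r0_29 r1_1 (nat_lit 0) (nat_lit 0) (nat_lit 0) (nat_lit 0x80f88a298) (nat_lit 1058137724)]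
noncomputable def e7_9 : List Rx := [
  Rx.mk (nat_lit 24) (nat_lit 0) (nat_lit 3) (nat_lit 0) (nat_lit 2) (nat_lit 52) (nat_lit 8) r0_52 r4_8 (nat_lit 24902759) (nat_lit 0) (nat_lit 1880334) (nat_lit 0x65a2917c6) (nat_lit 1540179317),
  Rx.mk (nat_lit 27) (nat_lit 3) (nat_lit 3) (nat_lit 0) (nat_lit 3) (nat_lit 55) (nat_lit 10) r0_55 r4_10 (nat_lit 0) (nat_lit 0) (nat_lit 2516625) (nat_lit 0x7f8893454) (nat_lit 1084144949),
  Rx.mk (nat_lit 59) (nat_lit 3) (nat_lit 7) (nat_lit 0) (nat_lit 3) (nat_lit 62) (nat_lit 3) r0_62 r4_3 (nat_lit 0) (nat_lit 0) (nat_lit 2627169) (nat_lit 0x8020258c6) (nat_lit 1074474693),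
  Rx.mk (nat_lit 152) (nat_lit 0) (nat_lit 3) (nat_lit 2) (nat_lit 6) (nat_lit 53) (nat_lit 9) r0_53 r4_9 (nat_lit 8072366) (nat_lit 0) (nat_lit 0) (nat_lit 0x752013154) (nat_lit 1263210890),
  Rx.mk (nat_lit 154) (nat_lit 2) (nat_lit 3) (nat_lit 2) (nat_lit 7) (nat_lit 54) (nat_lit 12) r0_54 r4_12 (nat_lit 0) (nat_lit 0) (nat_lit 0) (nat_lit 0x7b2096062) (nat_lit 1155059824),
  Rx.mk (nat_lit 155) (nat_lit 3) (nat_lit 3) (nat_lit 2) (nat_lit 7) (nat_lit 56) (nat_lit 11) r0_56 r4_11 (nat_lit 0) (nat_lit 0) (nat_lit 0) (nat_lit 0x803412cb2) (nat_lit 1070579024),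
  Rx.mk (nat_lit 231) (nat_lit 7) (nat_lit 4) (nat_lit 3) (nat_lit 5) (nat_lit 57) (nat_lit 1) r0_57 r4_1 (nat_lit 0) (nat_lit 2745228) (nat_lit 0) (nat_lit 0x7f3da6c7a) (nat_lit 1089236952),
  Rx.mk (nat_lit 251) (nat_lit 3) (nat_lit 7) (nat_lit 3) (nat_lit 7) (nat_lit 63) (nat_lit 4) r0_63 r4_4 (nat_lit 0) (nat_lit 0) (nat_lit 0) (nat_lit 0x803b1537a) (nat_lit 1070132924),
  Rx.mk (nat_lit 255) (nat_lit 7) (nat_lit 7) (nat_lit 3) (nat_lit 7) (nat_lit 64) (nat_lit 2) r0_64 r4_2 (nat_lit 0) (nat_lit 0) (nat_lit 0) (nat_lit 0x805002b84) (nat_lit 1068799624),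
  Rx.mk (nat_lit 487) (nat_lit 7) (nat_lit 4) (nat_lit 7) (nat_lit 5) (nat_lit 58) (nat_lit 0) r0_58 r4_0 (nat_lit 0) (nat_lit 1489124) (nat_lit 0) (nat_lit 0x6dffcb254) (nat_lit 1375427948),
  Rx.mk (nat_lit 500) (nat_lit 4) (nat_lit 6) (nat_lit 7) (nat_lit 6) (nat_lit 59) (nat_lit 5) r0_59 r4_5 (nat_lit 89886997) (nat_lit 0) (nat_lit 0) (nat_lit 0x7c8a3bb06) (nat_lit 1221401321),
  Rx.mk (nat_lit 502) (nat_lit 6) (nat_lit 6) (nat_lit 7) (nat_lit 7) (nat_lit 60) (nat_lit 7) r0_60 r4_7 (nat_lit 0) (nat_lit 0) (nat_lit 0) (nat_lit 0x7fe2c17aa) (nat_lit 1075787224),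
  Rx.mk (nat_lit 503) (nat_lit 7) (nat_lit 6) (nat_lit 7) (nat_lit 7) (nat_lit 61) (nat_lit 6) r0_61 r4_6 (nat_lit 0) (nat_lit 0) (nat_lit 0) (nat_lit 0x7ff4a1d08) (nat_lit 1074622024)]
noncomputable def e7_10 : List Rx := [
  Rx.mk (nat_lit 39) (nat_lit 7) (nat_lit 4) (nat_lit 0) (nat_lit 1) (nat_lit 82) (nat_lit 51) r0_82 r6_51 (nat_lit 0) (nat_lit 287545) (nat_lit 191551) (nat_lit 0x5ae6ab8ae) (nat_lit 1692810020),
  Rx.mk (nat_lit 59) (nat_lit 3) (nat_lit 7) (nat_lit 0) (nat_lit 3) (nat_lit 85) (nat_lit 49) r0_85 r6_49 (nat_lit 0) (nat_lit 0) (nat_lit 726571) (nat_lit 0x8053e60c0) (nat_lit 1069259595),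
  Rx.mk (nat_lit 63) (nat_lit 7) (nat_lit 7) (nat_lit 0) (nat_lit 3) (nat_lit 87) (nat_lit 54) r0_87 r6_54 (nat_lit 0) (nat_lit 0) (nat_lit 1891802) (nat_lit 0x7e43297ac) (nat_lit 1104700826),
  Rx.mk (nat_lit 103) (nat_lit 7) (nat_lit 4) (nat_lit 1) (nat_lit 5) (nat_lit 83) (nat_lit 52) r0_83 r6_52 (nat_lit 0) (nat_lit 3246351) (nat_lit 0) (nat_lit 0x7f1f1dac4) (nat_lit 1091721275),
  Rx.mk (nat_lit 123) (nat_lit 3) (nat_lit 7) (nat_lit 1) (nat_lit 7) (nat_lit 86) (nat_lit 50) r0_86 r6_50 (nat_lit 0) (nat_lit 0) (nat_lit 0) (nat_lit 0x95d9fc690) (nat_lit 720454924),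
  Rx.mk (nat_lit 127) (nat_lit 7) (nat_lit 7) (nat_lit 1) (nat_lit 7) (nat_lit 88) (nat_lit 55) r0_88 r6_55 (nat_lit 0) (nat_lit 0) (nat_lit 0) (nat_lit 0x823b44524) (nat_lit 1037739424),
  Rx.mk (nat_lit 231) (nat_lit 7) (nat_lit 4) (nat_lit 3) (nat_lit 5) (nat_lit 84) (nat_lit 53) r0_84 r6_53 (nat_lit 0) (nat_lit 1684651) (nat_lit 0) (nat_lit 0x7dfbf60f6) (nat_lit 1109116275)]
noncomputable def e7_11 : List Rx := [
  Rx.mk (nat_lit 27) (nat_lit 3) (nat_lit 3) (nat_lit 0) (nat_lit 3) (nat_lit 65) (nat_lit 4) r0_65 r5_4 (nat_lit 0) (nat_lit 0) (nat_lit 956393) (nat_lit 0x7c593b998) (nat_lit 1135682617),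
  Rx.mk (nat_lit 59) (nat_lit 3) (nat_lit 7) (nat_lit 0) (nat_lit 3) (nat_lit 68) (nat_lit 3) r0_68 r5_3 (nat_lit 0) (nat_lit 0) (nat_lit 1158438) (nat_lit 0x7fed5a61c) (nat_lit 1076256662),
  Rx.mk (nat_lit 63) (nat_lit 7) (nat_lit 7) (nat_lit 0) (nat_lit 3) (nat_lit 69) (nat_lit 1) r0_69 r5_1 (nat_lit 0) (nat_lit 0) (nat_lit 766655) (nat_lit 0x7495bc8de) (nat_lit 1264902279),
  Rx.mk (nat_lit 155) (nat_lit 3) (nat_lit 3) (nat_lit 2) (nat_lit 7) (nat_lit 66) (nat_lit 5) r0_66 r5_5 (nat_lit 0) (nat_lit 0) (nat_lit 0) (nat_lit 0x804823e18) (nat_lit 1069300924),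
  Rx.mk (nat_lit 231) (nat_lit 7) (nat_lit 4) (nat_lit 3) (nat_lit 5) (nat_lit 67) (nat_lit 0) r0_67 r5_0 (nat_lit 0) (nat_lit 1192389) (nat_lit 0) (nat_lit 0x7f2e926b2) (nat_lit 1088653513),
  Rx.mk (nat_lit 255) (nat_lit 7) (nat_lit 7) (nat_lit 3) (nat_lit 7) (nat_lit 70) (nat_lit 2) r0_70 r5_2 (nat_lit 0) (nat_lit 0) (nat_lit 0) (nat_lit 0x7fef31df0) (nat_lit 1074983524)]
noncomputable def e7_12 : List Rx := [
  Rx.mk (nat_lit 100) (nat_lit 4) (nat_lit 4) (nat_lit 1) (nat_lit 4) (nat_lit 171) (nat_lit 248) r0_171 r0_248 (nat_lit 318) (nat_lit 969839457) (nat_lit 0) (nat_lit 0x8000510a4) (nat_lit 2043561699),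
  Rx.mk (nat_lit 101) (nat_lit 5) (nat_lit 4) (nat_lit 1) (nat_lit 5) (nat_lit 172) (nat_lit 249) r0_172 r0_249 (nat_lit 0) (nat_lit 508562239) (nat_lit 0) (nat_lit 0x7ed0e1874) (nat_lit 1602132963)]
noncomputable def e7_13 : List Rx := [
  Rx.mk (nat_lit 100) (nat_lit 4) (nat_lit 4) (nat_lit 1) (nat_lit 4) (nat_lit 177) (nat_lit 56) r0_177 r7_56 (nat_lit 216055) (nat_lit 1073466) (nat_lit 0) (nat_lit 0x52f01064a) (nat_lit 1826388745),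
  Rx.mk (nat_lit 101) (nat_lit 5) (nat_lit 4) (nat_lit 1) (nat_lit 5) (nat_lit 179) (nat_lit 59) r0_179 r7_59 (nat_lit 0) (nat_lit 1922278) (nat_lit 0) (nat_lit 0x6264701d4) (nat_lit 1569386202),
  Rx.mk (nat_lit 356) (nat_lit 4) (nat_lit 4) (nat_lit 5) (nat_lit 4) (nat_lit 178) (nat_lit 57) r0_178 r7_57 (nat_lit 327140) (nat_lit 944100) (nat_lit 0) (nat_lit 0x5bb8077f4) (nat_lit 1679970364),
  Rx.mk (nat_lit 357) (nat_lit 5) (nat_lit 4) (nat_lit 5) (nat_lit 5) (nat_lit 180) (nat_lit 60) r0_180 r7_60 (nat_lit 0) (nat_lit 5137059) (nat_lit 0) (nat_lit 0x7a3a629c4) (nat_lit 1175198083),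
  Rx.mk (nat_lit 359) (nat_lit 7) (nat_lit 4) (nat_lit 5) (nat_lit 5) (nat_lit 181) (nat_lit 62) r0_181 r7_62 (nat_lit 0) (nat_lit 171422861) (nat_lit 0) (nat_lit 0x80556c2a0) (nat_lit 1239814685),
  Rx.mk (nat_lit 372) (nat_lit 4) (nat_lit 6) (nat_lit 5) (nat_lit 6) (nat_lit 182) (nat_lit 58) r0_182 r7_58 (nat_lit 1461987) (nat_lit 0) (nat_lit 0) (nat_lit 0x7ffe1df6c) (nat_lit 1075483511),
  Rx.mk (nat_lit 373) (nat_lit 5) (nat_lit 6) (nat_lit 5) (nat_lit 7) (nat_lit 183) (nat_lit 61) r0_183 r7_61 (nat_lit 0) (nat_lit 0) (nat_lit 0) (nat_lit 0x802680a22) (nat_lit 1071441624),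
  Rx.mk (nat_lit 375) (nat_lit 7) (nat_lit 6) (nat_lit 5) (nat_lit 7) (nat_lit 184) (nat_lit 63) r0_184 r7_63 (nat_lit 0) (nat_lit 0) (nat_lit 0) (nat_lit 0x806ab61b0) (nat_lit 1067109724)]
noncomputable def e7_14 : List Rx := [
  Rx.mk (nat_lit 101) (nat_lit 5) (nat_lit 4) (nat_lit 1) (nat_lit 5) (nat_lit 173) (nat_lit 255) r0_173 r1_255 (nat_lit 0) (nat_lit 200288767) (nat_lit 0) (nat_lit 0x7fddd6150) (nat_lit 1276386391)]
noncomputable def e7_15 : List Rx := [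
  Rx.mk (nat_lit 101) (nat_lit 5) (nat_lit 4) (nat_lit 1) (nat_lit 5) (nat_lit 185) (nat_lit 63) r0_185 r8_63 (nat_lit 0) (nat_lit 3657848) (nat_lit 0) (nat_lit 0x7a789dc8e) (nat_lit 1169663972),
  Rx.mk (nat_lit 357) (nat_lit 5) (nat_lit 4) (nat_lit 5) (nat_lit 5) (nat_lit 186) (nat_lit 64) r0_186 r8_64 (nat_lit 0) (nat_lit 4721594) (nat_lit 0) (nat_lit 0x7cb5a7826) (nat_lit 1133415918),
  Rx.mk (nat_lit 373) (nat_lit 5) (nat_lit 6) (nat_lit 5) (nat_lit 7) (nat_lit 187) (nat_lit 65) r0_187 r8_65 (nat_lit 0) (nat_lit 0) (nat_lit 0) (nat_lit 0x801bc7158) (nat_lit 1072128324)]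
noncomputable def e7_16 : List Rx := [
  Rx.mk (nat_lit 356) (nat_lit 4) (nat_lit 4) (nat_lit 5) (nat_lit 4) (nat_lit 188) (nat_lit 241) r0_188 r8_241 (nat_lit 3077458) (nat_lit 36183064) (nat_lit 0) (nat_lit 0x574fcceae) (nat_lit 1791474846),
  Rx.mk (nat_lit 357) (nat_lit 5) (nat_lit 4) (nat_lit 5) (nat_lit 5) (nat_lit 189) (nat_lit 242) r0_189 r8_242 (nat_lit 0) (nat_lit 7351485) (nat_lit 0) (nat_lit 0x7a4837e50) (nat_lit 1176515009),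
  Rx.mk (nat_lit 359) (nat_lit 7) (nat_lit 4) (nat_lit 5) (nat_lit 5) (nat_lit 190) (nat_lit 243) r0_190 r8_243 (nat_lit 0) (nat_lit 188397076) (nat_lit 0) (nat_lit 0x7fb4f6636) (nat_lit 1267133600),
  Rx.mk (nat_lit 372) (nat_lit 4) (nat_lit 6) (nat_lit 5) (nat_lit 6) (nat_lit 191) (nat_lit 244) r0_191 r8_244 (nat_lit 2945103) (nat_lit 0) (nat_lit 0) (nat_lit 0x79da08f6a) (nat_lit 1179289527),
  Rx.mk (nat_lit 373) (nat_lit 5) (nat_lit 6) (nat_lit 5) (nat_lit 7) (nat_lit 192) (nat_lit 245) r0_192 r8_245 (nat_lit 0) (nat_lit 0) (nat_lit 0) (nat_lit 0x7fff97802) (nat_lit 1073934624),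
  Rx.mk (nat_lit 374) (nat_lit 6) (nat_lit 6) (nat_lit 5) (nat_lit 7) (nat_lit 193) (nat_lit 247) r0_193 r8_247 (nat_lit 0) (nat_lit 0) (nat_lit 0) (nat_lit 0x80029938e) (nat_lit 1073741824),
  Rx.mk (nat_lit 375) (nat_lit 7) (nat_lit 6) (nat_lit 5) (nat_lit 7) (nat_lit 194) (nat_lit 246) r0_194 r8_246 (nat_lit 0) (nat_lit 0) (nat_lit 0) (nat_lit 0x80029938e) (nat_lit 1073741824)]
noncomputable def e7_17 : List Rx := [
  Rx.mk (nat_lit 292) (nat_lit 4) (nat_lit 4) (nat_lit 4) (nat_lit 0) (nat_lit 155) (nat_lit 23) r0_155 r9_23 (nat_lit 2362812) (nat_lit 4153151) (nat_lit 1354781) (nat_lit 0x1b57e90f6) (nat_lit 2759934868),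
  Rx.mk (nat_lit 295) (nat_lit 7) (nat_lit 4) (nat_lit 4) (nat_lit 1) (nat_lit 158) (nat_lit 29) r0_158 r9_29 (nat_lit 0) (nat_lit 18445641) (nat_lit 2771204) (nat_lit 0x4ea89f76a) (nat_lit 1917708369),
  Rx.mk (nat_lit 308) (nat_lit 4) (nat_lit 6) (nat_lit 4) (nat_lit 2) (nat_lit 161) (nat_lit 25) r0_161 r9_25 (nat_lit 2475026) (nat_lit 0) (nat_lit 2456288) (nat_lit 0x57aea971a) (nat_lit 1750970938),
  Rx.mk (nat_lit 310) (nat_lit 6) (nat_lit 6) (nat_lit 4) (nat_lit 3) (nat_lit 164) (nat_lit 37) r0_164 r9_37 (nat_lit 0) (nat_lit 0) (nat_lit 5165939) (nat_lit 0x791ad7c68) (nat_lit 1193957763),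
  Rx.mk (nat_lit 311) (nat_lit 7) (nat_lit 6) (nat_lit 4) (nat_lit 3) (nat_lit 167) (nat_lit 33) r0_167 r9_33 (nat_lit 0) (nat_lit 0) (nat_lit 5084035) (nat_lit 0x7fe4632fc) (nat_lit 1080766959),
  Rx.mk (nat_lit 356) (nat_lit 4) (nat_lit 4) (nat_lit 5) (nat_lit 4) (nat_lit 156) (nat_lit 24) r0_156 r9_24 (nat_lit 4070116) (nat_lit 4177856) (nat_lit 0) (nat_lit 0x4bc84881c) (nat_lit 1952696096),
  Rx.mk (nat_lit 357) (nat_lit 5) (nat_lit 4) (nat_lit 5) (nat_lit 5) (nat_lit 157) (nat_lit 27) r0_157 r9_27 (nat_lit 0) (nat_lit 6049948) (nat_lit 0) (nat_lit 0x7c59b23d6) (nat_lit 1140727172),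
  Rx.mk (nat_lit 359) (nat_lit 7) (nat_lit 4) (nat_lit 5) (nat_lit 5) (nat_lit 159) (nat_lit 30) r0_159 r9_30 (nat_lit 0) (nat_lit 9808972) (nat_lit 0) (nat_lit 0x7fc6e9032) (nat_lit 1087396196),
  Rx.mk (nat_lit 372) (nat_lit 4) (nat_lit 6) (nat_lit 5) (nat_lit 6) (nat_lit 162) (nat_lit 26) r0_162 r9_26 (nat_lit 5501243) (nat_lit 0) (nat_lit 0) (nat_lit 0x781c26610) (nat_lit 1210881267),
  Rx.mk (nat_lit 373) (nat_lit 5) (nat_lit 6) (nat_lit 5) (nat_lit 7) (nat_lit 163) (nat_lit 28) r0_163 r9_28 (nat_lit 0) (nat_lit 0) (nat_lit 0) (nat_lit 0x80029938e) (nat_lit 1073741824),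
  Rx.mk (nat_lit 374) (nat_lit 6) (nat_lit 6) (nat_lit 5) (nat_lit 7) (nat_lit 165) (nat_lit 38) r0_165 r9_38 (nat_lit 0) (nat_lit 0) (nat_lit 0) (nat_lit 0x80029938e) (nat_lit 1073741824),
  Rx.mk (nat_lit 375) (nat_lit 7) (nat_lit 6) (nat_lit 5) (nat_lit 7) (nat_lit 168) (nat_lit 34) r0_168 r9_34 (nat_lit 0) (nat_lit 0) (nat_lit 0) (nat_lit 0x80029938e) (nat_lit 1073741824),
  Rx.mk (nat_lit 406) (nat_lit 6) (nat_lit 2) (nat_lit 6) (nat_lit 7) (nat_lit 154) (nat_lit 36) r0_154 r9_36 (nat_lit 0) (nat_lit 0) (nat_lit 0) (nat_lit 0x80029938e) (nat_lit 1073741824),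
  Rx.mk (nat_lit 438) (nat_lit 6) (nat_lit 6) (nat_lit 6) (nat_lit 7) (nat_lit 166) (nat_lit 39) r0_166 r9_39 (nat_lit 0) (nat_lit 0) (nat_lit 0) (nat_lit 0x80029938e) (nat_lit 1073741824),
  Rx.mk (nat_lit 487) (nat_lit 7) (nat_lit 4) (nat_lit 7) (nat_lit 5) (nat_lit 160) (nat_lit 31) r0_160 r9_31 (nat_lit 0) (nat_lit 89110576) (nat_lit 0) (nat_lit 0x7efa9f9ea) (nat_lit 1179970500),
  Rx.mk (nat_lit 503) (nat_lit 7) (nat_lit 6) (nat_lit 7) (nat_lit 7) (nat_lit 169) (nat_lit 35) r0_169 r9_35 (nat_lit 0) (nat_lit 0) (nat_lit 0) (nat_lit 0x80029938e) (nat_lit 1073741824),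
  Rx.mk (nat_lit 511) (nat_lit 7) (nat_lit 7) (nat_lit 7) (nat_lit 7) (nat_lit 170) (nat_lit 32) r0_170 r9_32 (nat_lit 0) (nat_lit 0) (nat_lit 0) (nat_lit 0x7feda7fe8) (nat_lit 1075089724)]
noncomputable def e7_18 : List Rx := [
  Rx.mk (nat_lit 100) (nat_lit 4) (nat_lit 4) (nat_lit 1) (nat_lit 4) (nat_lit 174) (nat_lit 262) r0_174 r4_262 (nat_lit 507461) (nat_lit 365390624) (nat_lit 0) (nat_lit 0x677f48254) (nat_lit 1848225809),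
  Rx.mk (nat_lit 101) (nat_lit 5) (nat_lit 4) (nat_lit 1) (nat_lit 5) (nat_lit 175) (nat_lit 263) r0_175 r4_263 (nat_lit 0) (nat_lit 172210768) (nat_lit 0) (nat_lit 0x7e52e1528) (nat_lit 1273987192),
  Rx.mk (nat_lit 103) (nat_lit 7) (nat_lit 4) (nat_lit 1) (nat_lit 5) (nat_lit 176) (nat_lit 264) r0_176 r4_264 (nat_lit 0) (nat_lit 481648953) (nat_lit 0) (nat_lit 0x72b5b6132) (nat_lit 1777028277)]
noncomputable def e7_19 : List Rx := [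
  Rx.mk (nat_lit 100) (nat_lit 4) (nat_lit 4) (nat_lit 1) (nat_lit 4) (nat_lit 195) (nat_lit 44) r0_195 r10_44 (nat_lit 206251) (nat_lit 577871) (nat_lit 0) (nat_lit 0x5b26d5dda) (nat_lit 1688936846),
  Rx.mk (nat_lit 101) (nat_lit 5) (nat_lit 4) (nat_lit 1) (nat_lit 5) (nat_lit 196) (nat_lit 45) r0_196 r10_45 (nat_lit 0) (nat_lit 2475431) (nat_lit 0) (nat_lit 0x70fe46778) (nat_lit 1326502855),
  Rx.mk (nat_lit 103) (nat_lit 7) (nat_lit 4) (nat_lit 1) (nat_lit 5) (nat_lit 197) (nat_lit 46) r0_197 r10_46 (nat_lit 0) (nat_lit 336738388) (nat_lit 0) (nat_lit 0x7f9d350f6) (nat_lit 1417053112),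
  Rx.mk (nat_lit 359) (nat_lit 7) (nat_lit 4) (nat_lit 5) (nat_lit 5) (nat_lit 198) (nat_lit 47) r0_198 r10_47 (nat_lit 0) (nat_lit 172576021) (nat_lit 0) (nat_lit 0x80845ae72) (nat_lit 1238006145),
  Rx.mk (nat_lit 375) (nat_lit 7) (nat_lit 6) (nat_lit 5) (nat_lit 7) (nat_lit 199) (nat_lit 48) r0_199 r10_48 (nat_lit 0) (nat_lit 0) (nat_lit 0) (nat_lit 0x803360350) (nat_lit 1070623924)]
noncomputable def e7_20 : List Rx := [
  Rx.mk (nat_lit 100) (nat_lit 4) (nat_lit 4) (nat_lit 1) (nat_lit 4) (nat_lit 200) (nat_lit 37) r0_200 r11_37 (nat_lit 9426144) (nat_lit 314732184) (nat_lit 0) (nat_lit 0x70c471818) (nat_lit 1651954452),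
  Rx.mk (nat_lit 101) (nat_lit 5) (nat_lit 4) (nat_lit 1) (nat_lit 5) (nat_lit 201) (nat_lit 38) r0_201 r11_38 (nat_lit 0) (nat_lit 5592935) (nat_lit 0) (nat_lit 0x802afe752) (nat_lit 1076749759),
  Rx.mk (nat_lit 103) (nat_lit 7) (nat_lit 4) (nat_lit 1) (nat_lit 5) (nat_lit 202) (nat_lit 39) r0_202 r11_39 (nat_lit 0) (nat_lit 104895094) (nat_lit 0) (nat_lit 0x801d36fca) (nat_lit 1176912118),
  Rx.mk (nat_lit 127) (nat_lit 7) (nat_lit 7) (nat_lit 1) (nat_lit 7) (nat_lit 203) (nat_lit 40) r0_203 r11_40 (nat_lit 0) (nat_lit 0) (nat_lit 0) (nat_lit 0x813820826) (nat_lit 1054113624)]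
noncomputable def e7_21 : List Rx := [
  Rx.mk (nat_lit 406) (nat_lit 6) (nat_lit 2) (nat_lit 6) (nat_lit 7) (nat_lit 141) (nat_lit 0) r0_141 r9_0 (nat_lit 0) (nat_lit 0) (nat_lit 0) (nat_lit 0x7ffe05cc8) (nat_lit 1074035324)]
noncomputable def e7_22 : List Rx := [
  Rx.mk (nat_lit 24) (nat_lit 0) (nat_lit 3) (nat_lit 0) (nat_lit 2) (nat_lit 94) (nat_lit 91) r0_94 r0_91 (nat_lit 349268526) (nat_lit 0) (nat_lit 2281841) (nat_lit 0x695e6d546) (nat_lit 1802695991),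
  Rx.mk (nat_lit 27) (nat_lit 3) (nat_lit 3) (nat_lit 0) (nat_lit 3) (nat_lit 97) (nat_lit 92) r0_97 r0_92 (nat_lit 0) (nat_lit 0) (nat_lit 7696512) (nat_lit 0x757aa5982) (nat_lit 1256938536),
  Rx.mk (nat_lit 128) (nat_lit 0) (nat_lit 0) (nat_lit 2) (nat_lit 4) (nat_lit 91) (nat_lit 94) r0_91 r0_94 (nat_lit 349268526) (nat_lit 2281841) (nat_lit 0) (nat_lit 0x695e6d546) (nat_lit 1802695991),
  Rx.mk (nat_lit 130) (nat_lit 2) (nat_lit 0) (nat_lit 2) (nat_lit 5) (nat_lit 92) (nat_lit 97) r0_92 r0_97 (nat_lit 0) (nat_lit 7696512) (nat_lit 0) (nat_lit 0x757aa5982) (nat_lit 1256938536),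
  Rx.mk (nat_lit 146) (nat_lit 2) (nat_lit 2) (nat_lit 2) (nat_lit 7) (nat_lit 93) (nat_lit 99) r0_93 r0_99 (nat_lit 0) (nat_lit 0) (nat_lit 0) (nat_lit 0x7ff4b5254) (nat_lit 1074633224),
  Rx.mk (nat_lit 152) (nat_lit 0) (nat_lit 3) (nat_lit 2) (nat_lit 6) (nat_lit 95) (nat_lit 95) r0_95 r0_95 (nat_lit 83723171) (nat_lit 0) (nat_lit 0) (nat_lit 0x7fded129e) (nat_lit 1159762995),
  Rx.mk (nat_lit 154) (nat_lit 2) (nat_lit 3) (nat_lit 2) (nat_lit 7) (nat_lit 96) (nat_lit 98) r0_96 r0_98 (nat_lit 0) (nat_lit 0) (nat_lit 0) (nat_lit 0x800b21baa) (nat_lit 1073194924),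
  Rx.mk (nat_lit 155) (nat_lit 3) (nat_lit 3) (nat_lit 2) (nat_lit 7) (nat_lit 98) (nat_lit 96) r0_98 r0_96 (nat_lit 0) (nat_lit 0) (nat_lit 0) (nat_lit 0x800b21baa) (nat_lit 1073194924),
  Rx.mk (nat_lit 219) (nat_lit 3) (nat_lit 3) (nat_lit 3) (nat_lit 7) (nat_lit 99) (nat_lit 93) r0_99 r0_93 (nat_lit 0) (nat_lit 0) (nat_lit 0) (nat_lit 0x7ff4b5254) (nat_lit 1074633224)]
noncomputable def e7_23 : List Rx := [
  Rx.mk (nat_lit 0) (nat_lit 0) (nat_lit 0) (nat_lit 0) (nat_lit 0) (nat_lit 111) (nat_lit 94) r0_111 r1_94 (nat_lit 313883956) (nat_lit 792) (nat_lit 809) (nat_lit 0x800043b20) (nat_lit 1387611081),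
  Rx.mk (nat_lit 8) (nat_lit 0) (nat_lit 1) (nat_lit 0) (nat_lit 2) (nat_lit 114) (nat_lit 95) r0_114 r1_95 (nat_lit 389289256) (nat_lit 0) (nat_lit 5229139) (nat_lit 0x7f6d76162) (nat_lit 1477906119),
  Rx.mk (nat_lit 24) (nat_lit 0) (nat_lit 3) (nat_lit 0) (nat_lit 2) (nat_lit 118) (nat_lit 96) r0_118 r1_96 (nat_lit 244546135) (nat_lit 0) (nat_lit 13308373) (nat_lit 0x7f7cf93a0) (nat_lit 1340240332),
  Rx.mk (nat_lit 27) (nat_lit 3) (nat_lit 3) (nat_lit 0) (nat_lit 3) (nat_lit 121) (nat_lit 97) r0_121 r1_97 (nat_lit 0) (nat_lit 0) (nat_lit 4762754) (nat_lit 0x7fefdf6ee) (nat_lit 1079707178),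
  Rx.mk (nat_lit 128) (nat_lit 0) (nat_lit 0) (nat_lit 2) (nat_lit 4) (nat_lit 112) (nat_lit 99) r0_112 r1_99 (nat_lit 134380886) (nat_lit 2995413) (nat_lit 0) (nat_lit 0x6f8aae7a8) (nat_lit 1485611623),
  Rx.mk (nat_lit 130) (nat_lit 2) (nat_lit 0) (nat_lit 2) (nat_lit 5) (nat_lit 113) (nat_lit 103) r0_113 r1_103 (nat_lit 0) (nat_lit 4066432) (nat_lit 0) (nat_lit 0x79ca131dc) (nat_lit 1181450656),
  Rx.mk (nat_lit 136) (nat_lit 0) (nat_lit 1) (nat_lit 2) (nat_lit 6) (nat_lit 115) (nat_lit 100) r0_115 r1_100 (nat_lit 9520156) (nat_lit 0) (nat_lit 0) (nat_lit 0x7fd237c40) (nat_lit 1086376280),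
  Rx.mk (nat_lit 138) (nat_lit 2) (nat_lit 1) (nat_lit 2) (nat_lit 7) (nat_lit 116) (nat_lit 104) r0_116 r1_104 (nat_lit 0) (nat_lit 0) (nat_lit 0) (nat_lit 0x80029938e) (nat_lit 1073741824),
  Rx.mk (nat_lit 146) (nat_lit 2) (nat_lit 2) (nat_lit 2) (nat_lit 7) (nat_lit 117) (nat_lit 106) r0_117 r1_106 (nat_lit 0) (nat_lit 0) (nat_lit 0) (nat_lit 0x80029938e) (nat_lit 1073741824),
  Rx.mk (nat_lit 152) (nat_lit 0) (nat_lit 3) (nat_lit 2) (nat_lit 6) (nat_lit 119) (nat_lit 101) r0_119 r1_101 (nat_lit 7910044) (nat_lit 0) (nat_lit 0) (nat_lit 0x80340856e) (nat_lit 1078489268),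
  Rx.mk (nat_lit 154) (nat_lit 2) (nat_lit 3) (nat_lit 2) (nat_lit 7) (nat_lit 120) (nat_lit 105) r0_120 r1_105 (nat_lit 0) (nat_lit 0) (nat_lit 0) (nat_lit 0x80029938e) (nat_lit 1073741824),
  Rx.mk (nat_lit 155) (nat_lit 3) (nat_lit 3) (nat_lit 2) (nat_lit 7) (nat_lit 122) (nat_lit 102) r0_122 r1_102 (nat_lit 0) (nat_lit 0) (nat_lit 0) (nat_lit 0x80029938e) (nat_lit 1073741824),
  Rx.mk (nat_lit 219) (nat_lit 3) (nat_lit 3) (nat_lit 3) (nat_lit 7) (nat_lit 123) (nat_lit 98) r0_123 r1_98 (nat_lit 0) (nat_lit 0) (nat_lit 0) (nat_lit 0x80029938e) (nat_lit 1073741824)]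
noncomputable def e7_24 : List Rx := [
  Rx.mk (nat_lit 24) (nat_lit 0) (nat_lit 3) (nat_lit 0) (nat_lit 2) (nat_lit 142) (nat_lit 93) r0_142 r4_93 (nat_lit 274678991) (nat_lit 0) (nat_lit 141544) (nat_lit 0x64b4664b6) (nat_lit 1803687759),
  Rx.mk (nat_lit 27) (nat_lit 3) (nat_lit 3) (nat_lit 0) (nat_lit 3) (nat_lit 145) (nat_lit 94) r0_145 r4_94 (nat_lit 0) (nat_lit 0) (nat_lit 3066219) (nat_lit 0x7fc1695a8) (nat_lit 1081005143),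
  Rx.mk (nat_lit 152) (nat_lit 0) (nat_lit 3) (nat_lit 2) (nat_lit 6) (nat_lit 143) (nat_lit 95) r0_143 r4_95 (nat_lit 78264559) (nat_lit 0) (nat_lit 0) (nat_lit 0x80209c4da) (nat_lit 1150066883),
  Rx.mk (nat_lit 154) (nat_lit 2) (nat_lit 3) (nat_lit 2) (nat_lit 7) (nat_lit 144) (nat_lit 97) r0_144 r4_97 (nat_lit 0) (nat_lit 0) (nat_lit 0) (nat_lit 0x8017d8204) (nat_lit 1072380824),
  Rx.mk (nat_lit 155) (nat_lit 3) (nat_lit 3) (nat_lit 2) (nat_lit 7) (nat_lit 146) (nat_lit 96) r0_146 r4_96 (nat_lit 0) (nat_lit 0) (nat_lit 0) (nat_lit 0x80388f0ce) (nat_lit 1070293424)]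
noncomputable def e7_25 : List Rx := [
  Rx.mk (nat_lit 24) (nat_lit 0) (nat_lit 3) (nat_lit 0) (nat_lit 2) (nat_lit 105) (nat_lit 2) r0_105 r7_2 (nat_lit 747955) (nat_lit 0) (nat_lit 146838) (nat_lit 0x5e9ce2aac) (nat_lit 1631332817),
  Rx.mk (nat_lit 27) (nat_lit 3) (nat_lit 3) (nat_lit 0) (nat_lit 3) (nat_lit 108) (nat_lit 4) r0_108 r7_4 (nat_lit 0) (nat_lit 0) (nat_lit 4219351) (nat_lit 0x735136a1c) (nat_lit 1289505675),
  Rx.mk (nat_lit 128) (nat_lit 0) (nat_lit 0) (nat_lit 2) (nat_lit 4) (nat_lit 100) (nat_lit 0) r0_100 r7_0 (nat_lit 12742526) (nat_lit 16582240) (nat_lit 0) (nat_lit 0x6135e2f48) (nat_lit 1616501090),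
  Rx.mk (nat_lit 130) (nat_lit 2) (nat_lit 0) (nat_lit 2) (nat_lit 5) (nat_lit 101) (nat_lit 1) r0_101 r7_1 (nat_lit 0) (nat_lit 2775314) (nat_lit 0) (nat_lit 0x6ed474154) (nat_lit 1362877338),
  Rx.mk (nat_lit 146) (nat_lit 2) (nat_lit 2) (nat_lit 2) (nat_lit 7) (nat_lit 102) (nat_lit 10) r0_102 r7_10 (nat_lit 0) (nat_lit 0) (nat_lit 0) (nat_lit 0x7f8d00f78) (nat_lit 1081343624),
  Rx.mk (nat_lit 152) (nat_lit 0) (nat_lit 3) (nat_lit 2) (nat_lit 6) (nat_lit 106) (nat_lit 3) r0_106 r7_3 (nat_lit 26061368) (nat_lit 0) (nat_lit 0) (nat_lit 0x7f3c3650c) (nat_lit 1112650392),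
  Rx.mk (nat_lit 154) (nat_lit 2) (nat_lit 3) (nat_lit 2) (nat_lit 7) (nat_lit 107) (nat_lit 7) r0_107 r7_7 (nat_lit 0) (nat_lit 0) (nat_lit 0) (nat_lit 0x7fecaec36) (nat_lit 1075148224),
  Rx.mk (nat_lit 155) (nat_lit 3) (nat_lit 3) (nat_lit 2) (nat_lit 7) (nat_lit 109) (nat_lit 6) r0_109 r7_6 (nat_lit 0) (nat_lit 0) (nat_lit 0) (nat_lit 0x7ff9f25aa) (nat_lit 1074297324),
  Rx.mk (nat_lit 219) (nat_lit 3) (nat_lit 3) (nat_lit 3) (nat_lit 7) (nat_lit 110) (nat_lit 5) r0_110 r7_5 (nat_lit 0) (nat_lit 0) (nat_lit 0) (nat_lit 0x7ff997768) (nat_lit 1074319724),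
  Rx.mk (nat_lit 402) (nat_lit 2) (nat_lit 2) (nat_lit 6) (nat_lit 7) (nat_lit 103) (nat_lit 9) r0_103 r7_9 (nat_lit 0) (nat_lit 0) (nat_lit 0) (nat_lit 0x80029938e) (nat_lit 1073741824),
  Rx.mk (nat_lit 406) (nat_lit 6) (nat_lit 2) (nat_lit 6) (nat_lit 7) (nat_lit 104) (nat_lit 8) r0_104 r7_8 (nat_lit 0) (nat_lit 0) (nat_lit 0) (nat_lit 0x7ff7bb07a) (nat_lit 1074439424)]
noncomputable def e7_26 : List Rx := [
  Rx.mk (nat_lit 0) (nat_lit 0) (nat_lit 0) (nat_lit 0) (nat_lit 0) (nat_lit 124) (nat_lit 0) r0_124 r8_0 (nat_lit 19583288) (nat_lit 769730) (nat_lit 875647) (nat_lit 0x2e4eda24a) (nat_lit 2457082489),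
  Rx.mk (nat_lit 8) (nat_lit 0) (nat_lit 1) (nat_lit 0) (nat_lit 2) (nat_lit 127) (nat_lit 3) r0_127 r8_3 (nat_lit 10202902) (nat_lit 0) (nat_lit 5177292) (nat_lit 0x5a407c046) (nat_lit 1718579418),
  Rx.mk (nat_lit 24) (nat_lit 0) (nat_lit 3) (nat_lit 0) (nat_lit 2) (nat_lit 133) (nat_lit 6) r0_133 r8_6 (nat_lit 19041550) (nat_lit 0) (nat_lit 11768288) (nat_lit 0x59527f2bc) (nat_lit 1749505762),
  Rx.mk (nat_lit 27) (nat_lit 3) (nat_lit 3) (nat_lit 0) (nat_lit 3) (nat_lit 136) (nat_lit 8) r0_136 r8_8 (nat_lit 0) (nat_lit 0) (nat_lit 8974417) (nat_lit 0x79570f6e0) (nat_lit 1193845041),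
  Rx.mk (nat_lit 128) (nat_lit 0) (nat_lit 0) (nat_lit 2) (nat_lit 4) (nat_lit 125) (nat_lit 1) r0_125 r8_1 (nat_lit 6110955) (nat_lit 6920669) (nat_lit 0) (nat_lit 0x5c1df8e8c) (nat_lit 1685132748),
  Rx.mk (nat_lit 130) (nat_lit 2) (nat_lit 0) (nat_lit 2) (nat_lit 5) (nat_lit 126) (nat_lit 2) r0_126 r8_2 (nat_lit 0) (nat_lit 3304366) (nat_lit 0) (nat_lit 0x7121ef044) (nat_lit 1325017390),
  Rx.mk (nat_lit 136) (nat_lit 0) (nat_lit 1) (nat_lit 2) (nat_lit 6) (nat_lit 128) (nat_lit 4) r0_128 r8_4 (nat_lit 7519074) (nat_lit 0) (nat_lit 0) (nat_lit 0x7f790236e) (nat_lit 1090159298),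
  Rx.mk (nat_lit 138) (nat_lit 2) (nat_lit 1) (nat_lit 2) (nat_lit 7) (nat_lit 129) (nat_lit 5) r0_129 r8_5 (nat_lit 0) (nat_lit 0) (nat_lit 0) (nat_lit 0x7ff585e22) (nat_lit 1074580824),
  Rx.mk (nat_lit 146) (nat_lit 2) (nat_lit 2) (nat_lit 2) (nat_lit 7) (nat_lit 130) (nat_lit 14) r0_130 r8_14 (nat_lit 0) (nat_lit 0) (nat_lit 0) (nat_lit 0x7fe8c0fac) (nat_lit 1075405124),
  Rx.mk (nat_lit 152) (nat_lit 0) (nat_lit 3) (nat_lit 2) (nat_lit 6) (nat_lit 134) (nat_lit 7) r0_134 r8_7 (nat_lit 11254699) (nat_lit 0) (nat_lit 0) (nat_lit 0x7f97706d4) (nat_lit 1091919323),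
  Rx.mk (nat_lit 154) (nat_lit 2) (nat_lit 3) (nat_lit 2) (nat_lit 7) (nat_lit 135) (nat_lit 11) r0_135 r8_11 (nat_lit 0) (nat_lit 0) (nat_lit 0) (nat_lit 0x7ff7f4f0a) (nat_lit 1074424424),
  Rx.mk (nat_lit 155) (nat_lit 3) (nat_lit 3) (nat_lit 2) (nat_lit 7) (nat_lit 137) (nat_lit 10) r0_137 r8_10 (nat_lit 0) (nat_lit 0) (nat_lit 0) (nat_lit 0x80029938e) (nat_lit 1073741824),
  Rx.mk (nat_lit 219) (nat_lit 3) (nat_lit 3) (nat_lit 3) (nat_lit 7) (nat_lit 138) (nat_lit 9) r0_138 r8_9 (nat_lit 0) (nat_lit 0) (nat_lit 0) (nat_lit 0x80029938e) (nat_lit 1073741824),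
  Rx.mk (nat_lit 402) (nat_lit 2) (nat_lit 2) (nat_lit 6) (nat_lit 7) (nat_lit 131) (nat_lit 13) r0_131 r8_13 (nat_lit 0) (nat_lit 0) (nat_lit 0) (nat_lit 0x80000807a) (nat_lit 1073906424),
  Rx.mk (nat_lit 406) (nat_lit 6) (nat_lit 2) (nat_lit 6) (nat_lit 7) (nat_lit 132) (nat_lit 12) r0_132 r8_12 (nat_lit 0) (nat_lit 0) (nat_lit 0) (nat_lit 0x7ffea679a) (nat_lit 1073995024)]
noncomputable def e7_27 : List Rx := [
  Rx.mk (nat_lit 402) (nat_lit 2) (nat_lit 2) (nat_lit 6) (nat_lit 7) (nat_lit 139) (nat_lit 76) r0_139 r8_76 (nat_lit 0) (nat_lit 0) (nat_lit 0) (nat_lit 0x80000a14a) (nat_lit 1073905924),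
  Rx.mk (nat_lit 406) (nat_lit 6) (nat_lit 2) (nat_lit 6) (nat_lit 7) (nat_lit 140) (nat_lit 77) r0_140 r8_77 (nat_lit 0) (nat_lit 0) (nat_lit 0) (nat_lit 0x7ffc024da) (nat_lit 1074164524)]
noncomputable def e7_28 : List Rx := [
  Rx.mk (nat_lit 24) (nat_lit 0) (nat_lit 3) (nat_lit 0) (nat_lit 2) (nat_lit 147) (nat_lit 0) r0_147 r10_0 (nat_lit 530643) (nat_lit 0) (nat_lit 163852) (nat_lit 0x5f682fdf4) (nat_lit 1617894919),
  Rx.mk (nat_lit 27) (nat_lit 3) (nat_lit 3) (nat_lit 0) (nat_lit 3) (nat_lit 150) (nat_lit 2) r0_150 r10_2 (nat_lit 0) (nat_lit 0) (nat_lit 4695397) (nat_lit 0x71f87d494) (nat_lit 1312433921),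
  Rx.mk (nat_lit 152) (nat_lit 0) (nat_lit 3) (nat_lit 2) (nat_lit 6) (nat_lit 148) (nat_lit 1) r0_148 r10_1 (nat_lit 10021103) (nat_lit 0) (nat_lit 0) (nat_lit 0x7fa58a3fa) (nat_lit 1089765427),
  Rx.mk (nat_lit 154) (nat_lit 2) (nat_lit 3) (nat_lit 2) (nat_lit 7) (nat_lit 149) (nat_lit 4) r0_149 r10_4 (nat_lit 0) (nat_lit 0) (nat_lit 0) (nat_lit 0x7ff4c343a) (nat_lit 1074628924),
  Rx.mk (nat_lit 155) (nat_lit 3) (nat_lit 3) (nat_lit 2) (nat_lit 7) (nat_lit 151) (nat_lit 3) r0_151 r10_3 (nat_lit 0) (nat_lit 0) (nat_lit 0) (nat_lit 0x7ff9f480a) (nat_lit 1074296824)]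
noncomputable def e7_29 : List Rx := [
  Rx.mk (nat_lit 27) (nat_lit 3) (nat_lit 3) (nat_lit 0) (nat_lit 3) (nat_lit 152) (nat_lit 0) r0_152 r11_0 (nat_lit 0) (nat_lit 0) (nat_lit 4245916) (nat_lit 0x7feae8000) (nat_lit 1079510240),
  Rx.mk (nat_lit 155) (nat_lit 3) (nat_lit 3) (nat_lit 2) (nat_lit 7) (nat_lit 153) (nat_lit 1) r0_153 r11_1 (nat_lit 0) (nat_lit 0) (nat_lit 0) (nat_lit 0x800bb8a46) (nat_lit 1073157024)]
noncomputable def e7_30 : List Rx := [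
  Rx.mk (nat_lit 103) (nat_lit 7) (nat_lit 4) (nat_lit 1) (nat_lit 5) (nat_lit 224) (nat_lit 255) r0_224 r5_255 (nat_lit 0) (nat_lit 135738919) (nat_lit 0) (nat_lit 0x80001a586) (nat_lit 1209474643)]
noncomputable def e7_31 : List Rx := [
  Rx.mk (nat_lit 103) (nat_lit 7) (nat_lit 4) (nat_lit 1) (nat_lit 5) (nat_lit 225) (nat_lit 302) r0_225 r11_302 (nat_lit 0) (nat_lit 2075395) (nat_lit 0) (nat_lit 0x7fa625f44) (nat_lit 1081791519),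
  Rx.mk (nat_lit 359) (nat_lit 7) (nat_lit 4) (nat_lit 5) (nat_lit 5) (nat_lit 226) (nat_lit 300) r0_226 r11_300 (nat_lit 0) (nat_lit 3044938) (nat_lit 0) (nat_lit 0x80a25caec) (nat_lit 1066625862),
  Rx.mk (nat_lit 375) (nat_lit 7) (nat_lit 6) (nat_lit 5) (nat_lit 7) (nat_lit 227) (nat_lit 301) r0_227 r11_301 (nat_lit 0) (nat_lit 0) (nat_lit 0) (nat_lit 0x811726e18) (nat_lit 1056188224)]
noncomputable def e7_32 : List Rx := [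
  Rx.mk (nat_lit 35) (nat_lit 3) (nat_lit 4) (nat_lit 0) (nat_lit 1) (nat_lit 228) (nat_lit 173) r0_228 r6_173 (nat_lit 0) (nat_lit 21155) (nat_lit 21443) (nat_lit 0x655f25c44) (nat_lit 1517763922),
  Rx.mk (nat_lit 56) (nat_lit 0) (nat_lit 7) (nat_lit 0) (nat_lit 2) (nat_lit 232) (nat_lit 171) r0_232 r6_171 (nat_lit 73687) (nat_lit 0) (nat_lit 56818) (nat_lit 0x686f2bb72) (nat_lit 1466800329),
  Rx.mk (nat_lit 59) (nat_lit 3) (nat_lit 7) (nat_lit 0) (nat_lit 3) (nat_lit 234) (nat_lit 174) r0_234 r6_174 (nat_lit 0) (nat_lit 0) (nat_lit 2085900) (nat_lit 0x80175fe9e) (nat_lit 1074492124),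
  Rx.mk (nat_lit 99) (nat_lit 3) (nat_lit 4) (nat_lit 1) (nat_lit 5) (nat_lit 229) (nat_lit 175) r0_229 r6_175 (nat_lit 0) (nat_lit 473428) (nat_lit 0) (nat_lit 0x8f3b0df94) (nat_lit 827965152),
  Rx.mk (nat_lit 120) (nat_lit 0) (nat_lit 7) (nat_lit 1) (nat_lit 6) (nat_lit 233) (nat_lit 172) r0_233 r6_172 (nat_lit 94559) (nat_lit 0) (nat_lit 0) (nat_lit 0x9073beac2) (nat_lit 807812083),
  Rx.mk (nat_lit 123) (nat_lit 3) (nat_lit 7) (nat_lit 1) (nat_lit 7) (nat_lit 235) (nat_lit 176) r0_235 r6_176 (nat_lit 0) (nat_lit 0) (nat_lit 0) (nat_lit 0x90cc616de) (nat_lit 802175124),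
  Rx.mk (nat_lit 227) (nat_lit 3) (nat_lit 4) (nat_lit 3) (nat_lit 5) (nat_lit 230) (nat_lit 177) r0_230 r6_177 (nat_lit 0) (nat_lit 2346346) (nat_lit 0) (nat_lit 0x7a9228b7c) (nat_lit 1166687270),
  Rx.mk (nat_lit 231) (nat_lit 7) (nat_lit 4) (nat_lit 3) (nat_lit 5) (nat_lit 231) (nat_lit 170) r0_231 r6_170 (nat_lit 0) (nat_lit 1581921) (nat_lit 0) (nat_lit 0x7e87497a2) (nat_lit 1099940645)]
noncomputable def e7_33 : List Rx := [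
  Rx.mk (nat_lit 24) (nat_lit 0) (nat_lit 3) (nat_lit 0) (nat_lit 2) (nat_lit 204) (nat_lit 94) r0_204 r5_94 (nat_lit 34408194) (nat_lit 0) (nat_lit 42213) (nat_lit 0x8000d80ea) (nat_lit 1108162531),
  Rx.mk (nat_lit 56) (nat_lit 0) (nat_lit 7) (nat_lit 0) (nat_lit 2) (nat_lit 209) (nat_lit 95) r0_209 r5_95 (nat_lit 2303) (nat_lit 0) (nat_lit 1820) (nat_lit 0x7ff2f8664) (nat_lit 1074595147),
  Rx.mk (nat_lit 59) (nat_lit 3) (nat_lit 7) (nat_lit 0) (nat_lit 3) (nat_lit 210) (nat_lit 96) r0_210 r5_96 (nat_lit 0) (nat_lit 0) (nat_lit 1204429) (nat_lit 0x804cfd8c6) (nat_lit 1070187653),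
  Rx.mk (nat_lit 152) (nat_lit 0) (nat_lit 3) (nat_lit 2) (nat_lit 6) (nat_lit 205) (nat_lit 100) r0_205 r5_100 (nat_lit 275203489) (nat_lit 0) (nat_lit 0) (nat_lit 0x7ef968536) (nat_lit 1366143013),
  Rx.mk (nat_lit 154) (nat_lit 2) (nat_lit 3) (nat_lit 2) (nat_lit 7) (nat_lit 206) (nat_lit 101) r0_206 r5_101 (nat_lit 0) (nat_lit 0) (nat_lit 0) (nat_lit 0x7fca9da02) (nat_lit 1077344524),
  Rx.mk (nat_lit 227) (nat_lit 3) (nat_lit 4) (nat_lit 3) (nat_lit 5) (nat_lit 207) (nat_lit 97) r0_207 r5_97 (nat_lit 0) (nat_lit 1787242) (nat_lit 0) (nat_lit 0x66db20c6c) (nat_lit 1494829666),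
  Rx.mk (nat_lit 231) (nat_lit 7) (nat_lit 4) (nat_lit 3) (nat_lit 5) (nat_lit 208) (nat_lit 99) r0_208 r5_99 (nat_lit 0) (nat_lit 2561812) (nat_lit 0) (nat_lit 0x7ef938278) (nat_lit 1093505936),
  Rx.mk (nat_lit 251) (nat_lit 3) (nat_lit 7) (nat_lit 3) (nat_lit 7) (nat_lit 211) (nat_lit 98) r0_211 r5_98 (nat_lit 0) (nat_lit 0) (nat_lit 0) (nat_lit 0x800cf614c) (nat_lit 1073076224)]
noncomputable def e7_34 : List Rx := [
  Rx.mk (nat_lit 24) (nat_lit 0) (nat_lit 3) (nat_lit 0) (nat_lit 2) (nat_lit 212) (nat_lit 91) r0_212 r11_91 (nat_lit 177359743) (nat_lit 0) (nat_lit 4290635) (nat_lit 0x71206e3fa) (nat_lit 1503455502),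
  Rx.mk (nat_lit 56) (nat_lit 0) (nat_lit 7) (nat_lit 0) (nat_lit 2) (nat_lit 219) (nat_lit 92) r0_219 r11_92 (nat_lit 1515078) (nat_lit 0) (nat_lit 1327087) (nat_lit 0x70dac8bde) (nat_lit 1329174389),
  Rx.mk (nat_lit 59) (nat_lit 3) (nat_lit 7) (nat_lit 0) (nat_lit 3) (nat_lit 220) (nat_lit 93) r0_220 r11_93 (nat_lit 0) (nat_lit 0) (nat_lit 2711268) (nat_lit 0x8030259d8) (nat_lit 1073539392),
  Rx.mk (nat_lit 152) (nat_lit 0) (nat_lit 3) (nat_lit 2) (nat_lit 6) (nat_lit 213) (nat_lit 97) r0_213 r11_97 (nat_lit 55284396) (nat_lit 0) (nat_lit 0) (nat_lit 0x7f832bb06) (nat_lit 1137266720),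
  Rx.mk (nat_lit 154) (nat_lit 2) (nat_lit 3) (nat_lit 2) (nat_lit 7) (nat_lit 214) (nat_lit 98) r0_214 r11_98 (nat_lit 0) (nat_lit 0) (nat_lit 0) (nat_lit 0x805932ed4) (nat_lit 1068212724),
  Rx.mk (nat_lit 227) (nat_lit 3) (nat_lit 4) (nat_lit 3) (nat_lit 5) (nat_lit 215) (nat_lit 94) r0_215 r11_94 (nat_lit 0) (nat_lit 2667019) (nat_lit 0) (nat_lit 0x7fbf39062) (nat_lit 1080746543),
  Rx.mk (nat_lit 231) (nat_lit 7) (nat_lit 4) (nat_lit 3) (nat_lit 5) (nat_lit 216) (nat_lit 96) r0_216 r11_96 (nat_lit 0) (nat_lit 2261537) (nat_lit 0) (nat_lit 0x802c51546) (nat_lit 1073330661),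
  Rx.mk (nat_lit 251) (nat_lit 3) (nat_lit 7) (nat_lit 3) (nat_lit 7) (nat_lit 221) (nat_lit 95) r0_221 r11_95 (nat_lit 0) (nat_lit 0) (nat_lit 0) (nat_lit 0x8024ca5ca) (nat_lit 1071555724),
  Rx.mk (nat_lit 487) (nat_lit 7) (nat_lit 4) (nat_lit 7) (nat_lit 5) (nat_lit 217) (nat_lit 99) r0_217 r11_99 (nat_lit 0) (nat_lit 2191612) (nat_lit 0) (nat_lit 0x7ea5f8ebe) (nat_lit 1098552836),
  Rx.mk (nat_lit 503) (nat_lit 7) (nat_lit 6) (nat_lit 7) (nat_lit 7) (nat_lit 218) (nat_lit 100) r0_218 r11_100 (nat_lit 0) (nat_lit 0) (nat_lit 0) (nat_lit 0x80fd022a8) (nat_lit 1057853824)]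
noncomputable def e7_35 : List Rx := [
  Rx.mk (nat_lit 99) (nat_lit 3) (nat_lit 4) (nat_lit 1) (nat_lit 5) (nat_lit 222) (nat_lit 276) r0_222 r6_276 (nat_lit 0) (nat_lit 4479) (nat_lit 0) (nat_lit 0x93ccfa606) (nat_lit 753553703),
  Rx.mk (nat_lit 103) (nat_lit 7) (nat_lit 4) (nat_lit 1) (nat_lit 5) (nat_lit 223) (nat_lit 277) r0_223 r6_277 (nat_lit 0) (nat_lit 8409716) (nat_lit 0) (nat_lit 0x803d3fe16) (nat_lit 1078386140)]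
noncomputable def e7_36 : List Rx := [
  Rx.mk (nat_lit 35) (nat_lit 3) (nat_lit 4) (nat_lit 0) (nat_lit 1) (nat_lit 236) (nat_lit 49) r0_236 r12_49 (nat_lit 0) (nat_lit 23874) (nat_lit 18804) (nat_lit 0x617c80900) (nat_lit 1582544202),
  Rx.mk (nat_lit 39) (nat_lit 7) (nat_lit 4) (nat_lit 0) (nat_lit 1) (nat_lit 238) (nat_lit 53) r0_238 r12_53 (nat_lit 0) (nat_lit 140974) (nat_lit 98820) (nat_lit 0x5c7c4d794) (nat_lit 1666140718),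
  Rx.mk (nat_lit 59) (nat_lit 3) (nat_lit 7) (nat_lit 0) (nat_lit 3) (nat_lit 241) (nat_lit 51) r0_241 r12_51 (nat_lit 0) (nat_lit 0) (nat_lit 805156) (nat_lit 0x806db6b8a) (nat_lit 1067709380),
  Rx.mk (nat_lit 99) (nat_lit 3) (nat_lit 4) (nat_lit 1) (nat_lit 5) (nat_lit 237) (nat_lit 50) r0_237 r12_50 (nat_lit 0) (nat_lit 6092) (nat_lit 0) (nat_lit 0x90e6c8a2c) (nat_lit 800438116),
  Rx.mk (nat_lit 103) (nat_lit 7) (nat_lit 4) (nat_lit 1) (nat_lit 5) (nat_lit 239) (nat_lit 54) r0_239 r12_54 (nat_lit 0) (nat_lit 10492686) (nat_lit 0) (nat_lit 0x7fa00c536) (nat_lit 1090533610),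
  Rx.mk (nat_lit 123) (nat_lit 3) (nat_lit 7) (nat_lit 1) (nat_lit 7) (nat_lit 242) (nat_lit 52) r0_242 r12_52 (nat_lit 0) (nat_lit 0) (nat_lit 0) (nat_lit 0x9d314c5ce) (nat_lit 601741024),
  Rx.mk (nat_lit 231) (nat_lit 7) (nat_lit 4) (nat_lit 3) (nat_lit 5) (nat_lit 240) (nat_lit 55) r0_240 r12_55 (nat_lit 0) (nat_lit 1111496) (nat_lit 0) (nat_lit 0x7447c7c00) (nat_lit 1270325320)]
noncomputable def e7_37 : List Rx := [
  Rx.mk (nat_lit 40) (nat_lit 0) (nat_lit 5) (nat_lit 0) (nat_lit 2) (nat_lit 248) (nat_lit 171) r0_248 r0_171 (nat_lit 969839457) (nat_lit 0) (nat_lit 318) (nat_lit 0x8000510a4) (nat_lit 2043561699),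
  Rx.mk (nat_lit 104) (nat_lit 0) (nat_lit 5) (nat_lit 1) (nat_lit 6) (nat_lit 249) (nat_lit 172) r0_249 r0_172 (nat_lit 508562239) (nat_lit 0) (nat_lit 0) (nat_lit 0x7ed0e1874) (nat_lit 1602132963)]
noncomputable def e7_38 : List Rx := [
  Rx.mk (nat_lit 40) (nat_lit 0) (nat_lit 5) (nat_lit 0) (nat_lit 2) (nat_lit 244) (nat_lit 244) r0_244 r0_244 (nat_lit 52004105) (nat_lit 0) (nat_lit 52004105) (nat_lit 0x672fac010) (nat_lit 1591547034),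
  Rx.mk (nat_lit 41) (nat_lit 1) (nat_lit 5) (nat_lit 0) (nat_lit 3) (nat_lit 246) (nat_lit 245) r0_246 r0_245 (nat_lit 0) (nat_lit 0) (nat_lit 3572987) (nat_lit 0x786934ede) (nat_lit 1203930011),
  Rx.mk (nat_lit 97) (nat_lit 1) (nat_lit 4) (nat_lit 1) (nat_lit 5) (nat_lit 243) (nat_lit 243) r0_243 r0_243 (nat_lit 0) (nat_lit 736921767) (nat_lit 0) (nat_lit 0x81ec2d8dc) (nat_lit 1779574791),
  Rx.mk (nat_lit 104) (nat_lit 0) (nat_lit 5) (nat_lit 1) (nat_lit 6) (nat_lit 245) (nat_lit 246) r0_245 r0_246 (nat_lit 3572987) (nat_lit 0) (nat_lit 0) (nat_lit 0x786934ede) (nat_lit 1203930011),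
  Rx.mk (nat_lit 105) (nat_lit 1) (nat_lit 5) (nat_lit 1) (nat_lit 7) (nat_lit 247) (nat_lit 247) r0_247 r0_247 (nat_lit 0) (nat_lit 0) (nat_lit 0) (nat_lit 0x7fbc5bdb8) (nat_lit 1078269524)]
noncomputable def e7_39 : List Rx := [
  Rx.mk (nat_lit 40) (nat_lit 0) (nat_lit 5) (nat_lit 0) (nat_lit 2) (nat_lit 250) (nat_lit 217) r0_250 r7_217 (nat_lit 64066468) (nat_lit 0) (nat_lit 3589306) (nat_lit 0x638142464) (nat_lit 1616568698),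
  Rx.mk (nat_lit 41) (nat_lit 1) (nat_lit 5) (nat_lit 0) (nat_lit 3) (nat_lit 252) (nat_lit 219) r0_252 r7_219 (nat_lit 0) (nat_lit 0) (nat_lit 6173437) (nat_lit 0x7b5c8dc0a) (nat_lit 1157338461),
  Rx.mk (nat_lit 104) (nat_lit 0) (nat_lit 5) (nat_lit 1) (nat_lit 6) (nat_lit 251) (nat_lit 218) r0_251 r7_218 (nat_lit 5828588) (nat_lit 0) (nat_lit 0) (nat_lit 0x7fe5c8fd4) (nat_lit 1081422912),
  Rx.mk (nat_lit 105) (nat_lit 1) (nat_lit 5) (nat_lit 1) (nat_lit 7) (nat_lit 253) (nat_lit 220) r0_253 r7_220 (nat_lit 0) (nat_lit 0) (nat_lit 0) (nat_lit 0x8018342e8) (nat_lit 1072357724)]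
noncomputable def e7_40 : List Rx := [
  Rx.mk (nat_lit 97) (nat_lit 1) (nat_lit 4) (nat_lit 1) (nat_lit 5) (nat_lit 285) (nat_lit 276) r0_285 r2_276 (nat_lit 0) (nat_lit 28102838) (nat_lit 0) (nat_lit 0x7a7179430) (nat_lit 1194573262),
  Rx.mk (nat_lit 101) (nat_lit 5) (nat_lit 4) (nat_lit 1) (nat_lit 5) (nat_lit 286) (nat_lit 277) r0_286 r2_277 (nat_lit 0) (nat_lit 7374549) (nat_lit 0) (nat_lit 0x7eb2c9990) (nat_lit 1102910273),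
  Rx.mk (nat_lit 105) (nat_lit 1) (nat_lit 5) (nat_lit 1) (nat_lit 7) (nat_lit 287) (nat_lit 278) r0_287 r2_278 (nat_lit 0) (nat_lit 0) (nat_lit 0) (nat_lit 0x80029938e) (nat_lit 1073741824),
  Rx.mk (nat_lit 109) (nat_lit 5) (nat_lit 5) (nat_lit 1) (nat_lit 7) (nat_lit 288) (nat_lit 279) r0_288 r2_279 (nat_lit 0) (nat_lit 0) (nat_lit 0) (nat_lit 0x80029938e) (nat_lit 1073741824)]
noncomputable def e7_41 : List Rx := [
  Rx.mk (nat_lit 105) (nat_lit 1) (nat_lit 5) (nat_lit 1) (nat_lit 7) (nat_lit 291) (nat_lit 248) r0_291 r9_248 (nat_lit 0) (nat_lit 0) (nat_lit 0) (nat_lit 0x7ff85ef5e) (nat_lit 1074398324),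
  Rx.mk (nat_lit 109) (nat_lit 5) (nat_lit 5) (nat_lit 1) (nat_lit 7) (nat_lit 292) (nat_lit 249) r0_292 r9_249 (nat_lit 0) (nat_lit 0) (nat_lit 0) (nat_lit 0x7ffd3fcc6) (nat_lit 1074084924)]
noncomputable def e7_42 : List Rx := [
  Rx.mk (nat_lit 97) (nat_lit 1) (nat_lit 4) (nat_lit 1) (nat_lit 5) (nat_lit 293) (nat_lit 254) r0_293 r9_254 (nat_lit 0) (nat_lit 5745639) (nat_lit 0) (nat_lit 0x7713c5d0a) (nat_lit 1228342563),
  Rx.mk (nat_lit 101) (nat_lit 5) (nat_lit 4) (nat_lit 1) (nat_lit 5) (nat_lit 294) (nat_lit 253) r0_294 r9_253 (nat_lit 0) (nat_lit 7145094) (nat_lit 0) (nat_lit 0x79e85e2cc) (nat_lit 1182555618),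
  Rx.mk (nat_lit 105) (nat_lit 1) (nat_lit 5) (nat_lit 1) (nat_lit 7) (nat_lit 296) (nat_lit 256) r0_296 r9_256 (nat_lit 0) (nat_lit 0) (nat_lit 0) (nat_lit 0x80029938e) (nat_lit 1073741824),
  Rx.mk (nat_lit 109) (nat_lit 5) (nat_lit 5) (nat_lit 1) (nat_lit 7) (nat_lit 297) (nat_lit 255) r0_297 r9_255 (nat_lit 0) (nat_lit 0) (nat_lit 0) (nat_lit 0x80029938e) (nat_lit 1073741824),
  Rx.mk (nat_lit 357) (nat_lit 5) (nat_lit 4) (nat_lit 5) (nat_lit 5) (nat_lit 295) (nat_lit 250) r0_295 r9_250 (nat_lit 0) (nat_lit 5449534) (nat_lit 0) (nat_lit 0x7dc0ef480) (nat_lit 1116739658),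
  Rx.mk (nat_lit 365) (nat_lit 5) (nat_lit 5) (nat_lit 5) (nat_lit 7) (nat_lit 298) (nat_lit 251) r0_298 r9_251 (nat_lit 0) (nat_lit 0) (nat_lit 0) (nat_lit 0x80029938e) (nat_lit 1073741824),
  Rx.mk (nat_lit 373) (nat_lit 5) (nat_lit 6) (nat_lit 5) (nat_lit 7) (nat_lit 299) (nat_lit 252) r0_299 r9_252 (nat_lit 0) (nat_lit 0) (nat_lit 0) (nat_lit 0x80029938e) (nat_lit 1073741824)]
noncomputable def e7_43 : List Rx := [
  Rx.mk (nat_lit 41) (nat_lit 1) (nat_lit 5) (nat_lit 0) (nat_lit 3) (nat_lit 283) (nat_lit 253) r0_283 r1_253 (nat_lit 0) (nat_lit 0) (nat_lit 4606623) (nat_lit 0x7ce19384a) (nat_lit 1130436347),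
  Rx.mk (nat_lit 97) (nat_lit 1) (nat_lit 4) (nat_lit 1) (nat_lit 5) (nat_lit 282) (nat_lit 252) r0_282 r1_252 (nat_lit 0) (nat_lit 821343463) (nat_lit 0) (nat_lit 0x7fffe9b52) (nat_lit 1895092387),
  Rx.mk (nat_lit 105) (nat_lit 1) (nat_lit 5) (nat_lit 1) (nat_lit 7) (nat_lit 284) (nat_lit 254) r0_284 r1_254 (nat_lit 0) (nat_lit 0) (nat_lit 0) (nat_lit 0x7fab68344) (nat_lit 1079366724)]
noncomputable def e7_44 : List Rx := [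
  Rx.mk (nat_lit 41) (nat_lit 1) (nat_lit 5) (nat_lit 0) (nat_lit 3) (nat_lit 289) (nat_lit 178) r0_289 r8_178 (nat_lit 0) (nat_lit 0) (nat_lit 6119961) (nat_lit 0x72392b252) (nat_lit 1309645085),
  Rx.mk (nat_lit 105) (nat_lit 1) (nat_lit 5) (nat_lit 1) (nat_lit 7) (nat_lit 290) (nat_lit 179) r0_290 r8_179 (nat_lit 0) (nat_lit 0) (nat_lit 0) (nat_lit 0x7ff99ecac) (nat_lit 1074318024)]
noncomputable def e7_45 : List Rx := [
  Rx.mk (nat_lit 8) (nat_lit 0) (nat_lit 1) (nat_lit 0) (nat_lit 2) (nat_lit 265) (nat_lit 180) r0_265 r1_180 (nat_lit 103080834) (nat_lit 0) (nat_lit 2783255) (nat_lit 0x61b174d32) (nat_lit 1684989113),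
  Rx.mk (nat_lit 40) (nat_lit 0) (nat_lit 5) (nat_lit 0) (nat_lit 2) (nat_lit 269) (nat_lit 179) r0_269 r1_179 (nat_lit 1076204905) (nat_lit 0) (nat_lit 4696) (nat_lit 0x8008e3776) (nat_lit 2149391825),
  Rx.mk (nat_lit 72) (nat_lit 0) (nat_lit 1) (nat_lit 1) (nat_lit 6) (nat_lit 266) (nat_lit 182) r0_266 r1_182 (nat_lit 7068022) (nat_lit 0) (nat_lit 0) (nat_lit 0x7fea1f7b8) (nat_lit 1082378546),
  Rx.mk (nat_lit 104) (nat_lit 0) (nat_lit 5) (nat_lit 1) (nat_lit 6) (nat_lit 270) (nat_lit 181) r0_270 r1_181 (nat_lit 15364900) (nat_lit 0) (nat_lit 0) (nat_lit 0x80028c260) (nat_lit 1089102224),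
  Rx.mk (nat_lit 136) (nat_lit 0) (nat_lit 1) (nat_lit 2) (nat_lit 6) (nat_lit 267) (nat_lit 183) r0_267 r1_183 (nat_lit 271237446) (nat_lit 0) (nat_lit 0) (nat_lit 0x89006c440) (nat_lit 1199488170),
  Rx.mk (nat_lit 138) (nat_lit 2) (nat_lit 1) (nat_lit 2) (nat_lit 7) (nat_lit 268) (nat_lit 184) r0_268 r1_184 (nat_lit 0) (nat_lit 0) (nat_lit 0) (nat_lit 0x802fc2cf2) (nat_lit 1070852724)]
noncomputable def e7_46 : List Rx := [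
  Rx.mk (nat_lit 8) (nat_lit 0) (nat_lit 1) (nat_lit 0) (nat_lit 2) (nat_lit 254) (nat_lit 180) r0_254 r2_180 (nat_lit 68407513) (nat_lit 0) (nat_lit 7055863) (nat_lit 0x53676d968) (nat_lit 1892836900),
  Rx.mk (nat_lit 136) (nat_lit 0) (nat_lit 1) (nat_lit 2) (nat_lit 6) (nat_lit 255) (nat_lit 181) r0_255 r2_181 (nat_lit 10599859) (nat_lit 0) (nat_lit 0) (nat_lit 0x7f72b6d3e) (nat_lit 1093649483),
  Rx.mk (nat_lit 138) (nat_lit 2) (nat_lit 1) (nat_lit 2) (nat_lit 7) (nat_lit 256) (nat_lit 182) r0_256 r2_182 (nat_lit 0) (nat_lit 0) (nat_lit 0) (nat_lit 0x80029938e) (nat_lit 1073741824)]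
noncomputable def e7_47 : List Rx := [
  Rx.mk (nat_lit 8) (nat_lit 0) (nat_lit 1) (nat_lit 0) (nat_lit 2) (nat_lit 271) (nat_lit 230) r0_271 r8_230 (nat_lit 7556884) (nat_lit 0) (nat_lit 10233960) (nat_lit 0x4f43b3c9c) (nat_lit 1904185068),
  Rx.mk (nat_lit 9) (nat_lit 1) (nat_lit 1) (nat_lit 0) (nat_lit 3) (nat_lit 274) (nat_lit 231) r0_274 r8_231 (nat_lit 0) (nat_lit 0) (nat_lit 7503020) (nat_lit 0x6d6ab5fac) (nat_lit 1391167544),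
  Rx.mk (nat_lit 40) (nat_lit 0) (nat_lit 5) (nat_lit 0) (nat_lit 2) (nat_lit 278) (nat_lit 237) r0_278 r8_237 (nat_lit 8414272) (nat_lit 0) (nat_lit 3003976) (nat_lit 0x59cd441c8) (nat_lit 1722113272),
  Rx.mk (nat_lit 41) (nat_lit 1) (nat_lit 5) (nat_lit 0) (nat_lit 3) (nat_lit 280) (nat_lit 238) r0_280 r8_238 (nat_lit 0) (nat_lit 0) (nat_lit 5951502) (nat_lit 0x73924f6f2) (nat_lit 1286998026),
  Rx.mk (nat_lit 72) (nat_lit 0) (nat_lit 1) (nat_lit 1) (nat_lit 6) (nat_lit 272) (nat_lit 232) r0_272 r8_232 (nat_lit 7909290) (nat_lit 0) (nat_lit 0) (nat_lit 0x7a5a2401e) (nat_lit 1175906214),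
  Rx.mk (nat_lit 73) (nat_lit 1) (nat_lit 1) (nat_lit 1) (nat_lit 7) (nat_lit 275) (nat_lit 233) r0_275 r8_233 (nat_lit 0) (nat_lit 0) (nat_lit 0) (nat_lit 0x7fcefe272) (nat_lit 1077071724),
  Rx.mk (nat_lit 104) (nat_lit 0) (nat_lit 5) (nat_lit 1) (nat_lit 6) (nat_lit 279) (nat_lit 239) r0_279 r8_239 (nat_lit 5449534) (nat_lit 0) (nat_lit 0) (nat_lit 0x7f7c3426c) (nat_lit 1087884558),
  Rx.mk (nat_lit 105) (nat_lit 1) (nat_lit 5) (nat_lit 1) (nat_lit 7) (nat_lit 281) (nat_lit 240) r0_281 r8_240 (nat_lit 0) (nat_lit 0) (nat_lit 0) (nat_lit 0x800f47324) (nat_lit 1072928224),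
  Rx.mk (nat_lit 136) (nat_lit 0) (nat_lit 1) (nat_lit 2) (nat_lit 6) (nat_lit 273) (nat_lit 234) r0_273 r8_234 (nat_lit 6684980) (nat_lit 0) (nat_lit 0) (nat_lit 0x7f181fd94) (nat_lit 1095629604),
  Rx.mk (nat_lit 137) (nat_lit 1) (nat_lit 1) (nat_lit 2) (nat_lit 7) (nat_lit 276) (nat_lit 235) r0_276 r8_235 (nat_lit 0) (nat_lit 0) (nat_lit 0) (nat_lit 0x80001f996) (nat_lit 1073900524),
  Rx.mk (nat_lit 138) (nat_lit 2) (nat_lit 1) (nat_lit 2) (nat_lit 7) (nat_lit 277) (nat_lit 236) r0_277 r8_236 (nat_lit 0) (nat_lit 0) (nat_lit 0) (nat_lit 0x80029938e) (nat_lit 1073741824)]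
noncomputable def e7_48 : List Rx := [
  Rx.mk (nat_lit 8) (nat_lit 0) (nat_lit 1) (nat_lit 0) (nat_lit 2) (nat_lit 257) (nat_lit 155) r0_257 r9_155 (nat_lit 6905727) (nat_lit 0) (nat_lit 14069634) (nat_lit 0x4c6cacf20) (nat_lit 1954719885),
  Rx.mk (nat_lit 9) (nat_lit 1) (nat_lit 1) (nat_lit 0) (nat_lit 3) (nat_lit 259) (nat_lit 157) r0_259 r9_157 (nat_lit 0) (nat_lit 0) (nat_lit 6147522) (nat_lit 0x74233b2ba) (nat_lit 1277762346),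
  Rx.mk (nat_lit 136) (nat_lit 0) (nat_lit 1) (nat_lit 2) (nat_lit 6) (nat_lit 258) (nat_lit 156) r0_258 r9_156 (nat_lit 5858494) (nat_lit 0) (nat_lit 0) (nat_lit 0x7eeecaa20) (nat_lit 1097492218),
  Rx.mk (nat_lit 137) (nat_lit 1) (nat_lit 1) (nat_lit 2) (nat_lit 7) (nat_lit 260) (nat_lit 158) r0_260 r9_158 (nat_lit 0) (nat_lit 0) (nat_lit 0) (nat_lit 0x80003986e) (nat_lit 1073894024),
  Rx.mk (nat_lit 138) (nat_lit 2) (nat_lit 1) (nat_lit 2) (nat_lit 7) (nat_lit 261) (nat_lit 159) r0_261 r9_159 (nat_lit 0) (nat_lit 0) (nat_lit 0) (nat_lit 0x80029938e) (nat_lit 1073741824)]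
noncomputable def e7_49 : List Rx := [
  Rx.mk (nat_lit 8) (nat_lit 0) (nat_lit 1) (nat_lit 0) (nat_lit 2) (nat_lit 262) (nat_lit 65) r0_262 r9_65 (nat_lit 33337572) (nat_lit 0) (nat_lit 10235647) (nat_lit 0x56d0f2f2a) (nat_lit 1804056343),
  Rx.mk (nat_lit 136) (nat_lit 0) (nat_lit 1) (nat_lit 2) (nat_lit 6) (nat_lit 263) (nat_lit 66) r0_263 r9_66 (nat_lit 7516292) (nat_lit 0) (nat_lit 0) (nat_lit 0x7ed45a2a8) (nat_lit 1100866916),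
  Rx.mk (nat_lit 138) (nat_lit 2) (nat_lit 1) (nat_lit 2) (nat_lit 7) (nat_lit 264) (nat_lit 67) r0_264 r9_67 (nat_lit 0) (nat_lit 0) (nat_lit 0) (nat_lit 0x7fff5bfe6) (nat_lit 1073949524)]
noncomputable def e7_50 : List Rx := [
  Rx.mk (nat_lit 40) (nat_lit 0) (nat_lit 5) (nat_lit 0) (nat_lit 2) (nat_lit 302) (nat_lit 145) r0_302 r3_145 (nat_lit 671) (nat_lit 0) (nat_lit 337) (nat_lit 0x72b6e4a90) (nat_lit 1295253432),
  Rx.mk (nat_lit 43) (nat_lit 3) (nat_lit 5) (nat_lit 0) (nat_lit 3) (nat_lit 304) (nat_lit 148) r0_304 r3_148 (nat_lit 0) (nat_lit 0) (nat_lit 405858) (nat_lit 0x78a0747a0) (nat_lit 1197135682),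
  Rx.mk (nat_lit 96) (nat_lit 0) (nat_lit 4) (nat_lit 1) (nat_lit 4) (nat_lit 300) (nat_lit 146) r0_300 r3_146 (nat_lit 81) (nat_lit 191) (nat_lit 0) (nat_lit 0x800015324) (nat_lit 1073736896),
  Rx.mk (nat_lit 99) (nat_lit 3) (nat_lit 4) (nat_lit 1) (nat_lit 5) (nat_lit 301) (nat_lit 149) r0_301 r3_149 (nat_lit 0) (nat_lit 52414) (nat_lit 0) (nat_lit 0x7cb6d8c18) (nat_lit 1128580838),
  Rx.mk (nat_lit 104) (nat_lit 0) (nat_lit 5) (nat_lit 1) (nat_lit 6) (nat_lit 303) (nat_lit 147) r0_303 r3_147 (nat_lit 424055) (nat_lit 0) (nat_lit 0) (nat_lit 0x7bb0370ea) (nat_lit 1146087279),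
  Rx.mk (nat_lit 107) (nat_lit 3) (nat_lit 5) (nat_lit 1) (nat_lit 7) (nat_lit 305) (nat_lit 150) r0_305 r3_150 (nat_lit 0) (nat_lit 0) (nat_lit 0) (nat_lit 0x883ab4d38) (nat_lit 940740624)]
noncomputable def e7_51 : List Rx := [
  Rx.mk (nat_lit 40) (nat_lit 0) (nat_lit 5) (nat_lit 0) (nat_lit 2) (nat_lit 318) (nat_lit 155) r0_318 r4_155 (nat_lit 232268791) (nat_lit 0) (nat_lit 781143) (nat_lit 0x6adf8057e) (nat_lit 1659098658),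
  Rx.mk (nat_lit 43) (nat_lit 3) (nat_lit 5) (nat_lit 0) (nat_lit 3) (nat_lit 320) (nat_lit 157) r0_320 r4_157 (nat_lit 0) (nat_lit 0) (nat_lit 2184780) (nat_lit 0x7aab2db36) (nat_lit 1164898604),
  Rx.mk (nat_lit 104) (nat_lit 0) (nat_lit 5) (nat_lit 1) (nat_lit 6) (nat_lit 319) (nat_lit 156) r0_319 r4_156 (nat_lit 4017845) (nat_lit 0) (nat_lit 0) (nat_lit 0x7ff75e168) (nat_lit 1078479169),
  Rx.mk (nat_lit 107) (nat_lit 3) (nat_lit 5) (nat_lit 1) (nat_lit 7) (nat_lit 321) (nat_lit 158) r0_321 r4_158 (nat_lit 0) (nat_lit 0) (nat_lit 0) (nat_lit 0x8052c65be) (nat_lit 1068627724)]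
noncomputable def e7_52 : List Rx := [
  Rx.mk (nat_lit 32) (nat_lit 0) (nat_lit 4) (nat_lit 0) (nat_lit 0) (nat_lit 330) (nat_lit 152) r0_330 r5_152 (nat_lit 330744107) (nat_lit 325) (nat_lit 352) (nat_lit 0x800010eb4) (nat_lit 1404482608),
  Rx.mk (nat_lit 35) (nat_lit 3) (nat_lit 4) (nat_lit 0) (nat_lit 1) (nat_lit 332) (nat_lit 158) r0_332 r5_158 (nat_lit 0) (nat_lit 1903628) (nat_lit 1646045) (nat_lit 0x64837e9fc) (nat_lit 1535649097),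
  Rx.mk (nat_lit 40) (nat_lit 0) (nat_lit 5) (nat_lit 0) (nat_lit 2) (nat_lit 335) (nat_lit 153) r0_335 r5_153 (nat_lit 173854821) (nat_lit 0) (nat_lit 2550648) (nat_lit 0x75a4173f6) (nat_lit 1422939093),
  Rx.mk (nat_lit 43) (nat_lit 3) (nat_lit 5) (nat_lit 0) (nat_lit 3) (nat_lit 337) (nat_lit 159) r0_337 r5_159 (nat_lit 0) (nat_lit 0) (nat_lit 3048911) (nat_lit 0x7f12771a8) (nat_lit 1092353635),
  Rx.mk (nat_lit 56) (nat_lit 0) (nat_lit 7) (nat_lit 0) (nat_lit 2) (nat_lit 340) (nat_lit 154) r0_340 r5_154 (nat_lit 98422675) (nat_lit 0) (nat_lit 281567) (nat_lit 0x7f7c07604) (nat_lit 1181102766),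
  Rx.mk (nat_lit 96) (nat_lit 0) (nat_lit 4) (nat_lit 1) (nat_lit 4) (nat_lit 331) (nat_lit 155) r0_331 r5_155 (nat_lit 2163217) (nat_lit 9541506) (nat_lit 0) (nat_lit 0x7d2876e7e) (nat_lit 1132919447),
  Rx.mk (nat_lit 99) (nat_lit 3) (nat_lit 4) (nat_lit 1) (nat_lit 5) (nat_lit 333) (nat_lit 160) r0_333 r5_160 (nat_lit 0) (nat_lit 3491444) (nat_lit 0) (nat_lit 0x7fef1f6dc) (nat_lit 1078469368),
  Rx.mk (nat_lit 104) (nat_lit 0) (nat_lit 5) (nat_lit 1) (nat_lit 6) (nat_lit 336) (nat_lit 156) r0_336 r5_156 (nat_lit 5090091) (nat_lit 0) (nat_lit 0) (nat_lit 0x7fe496148) (nat_lit 1080758915),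
  Rx.mk (nat_lit 107) (nat_lit 3) (nat_lit 5) (nat_lit 1) (nat_lit 7) (nat_lit 338) (nat_lit 161) r0_338 r5_161 (nat_lit 0) (nat_lit 0) (nat_lit 0) (nat_lit 0x7ffdbe706) (nat_lit 1074053224),
  Rx.mk (nat_lit 120) (nat_lit 0) (nat_lit 7) (nat_lit 1) (nat_lit 6) (nat_lit 341) (nat_lit 157) r0_341 r5_157 (nat_lit 1226898) (nat_lit 0) (nat_lit 0) (nat_lit 0x7f8055c9c) (nat_lit 1083371622),
  Rx.mk (nat_lit 227) (nat_lit 3) (nat_lit 4) (nat_lit 3) (nat_lit 5) (nat_lit 334) (nat_lit 162) r0_334 r5_162 (nat_lit 0) (nat_lit 4819430) (nat_lit 0) (nat_lit 0x75c3dc4d4) (nat_lit 1249292654),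
  Rx.mk (nat_lit 235) (nat_lit 3) (nat_lit 5) (nat_lit 3) (nat_lit 7) (nat_lit 339) (nat_lit 163) r0_339 r5_163 (nat_lit 0) (nat_lit 0) (nat_lit 0) (nat_lit 0x801989bc0) (nat_lit 1072271724)]
noncomputable def e7_53 : List Rx := [
  Rx.mk (nat_lit 40) (nat_lit 0) (nat_lit 5) (nat_lit 0) (nat_lit 2) (nat_lit 309) (nat_lit 256) r0_309 r4_256 (nat_lit 89716582) (nat_lit 0) (nat_lit 8118484) (nat_lit 0x6a154d77a) (nat_lit 1537072690),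
  Rx.mk (nat_lit 41) (nat_lit 1) (nat_lit 5) (nat_lit 0) (nat_lit 3) (nat_lit 311) (nat_lit 257) r0_311 r4_257 (nat_lit 0) (nat_lit 0) (nat_lit 6336730) (nat_lit 0x7fe202792) (nat_lit 1082176554),
  Rx.mk (nat_lit 43) (nat_lit 3) (nat_lit 5) (nat_lit 0) (nat_lit 3) (nat_lit 313) (nat_lit 258) r0_313 r4_258 (nat_lit 0) (nat_lit 0) (nat_lit 3644892) (nat_lit 0x7fe25d200) (nat_lit 1079457116),
  Rx.mk (nat_lit 96) (nat_lit 0) (nat_lit 4) (nat_lit 1) (nat_lit 4) (nat_lit 306) (nat_lit 253) r0_306 r4_253 (nat_lit 2254859) (nat_lit 109994147) (nat_lit 0) (nat_lit 0x721a33c50) (nat_lit 1417787930),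
  Rx.mk (nat_lit 97) (nat_lit 1) (nat_lit 4) (nat_lit 1) (nat_lit 5) (nat_lit 307) (nat_lit 254) r0_307 r4_254 (nat_lit 0) (nat_lit 456084292) (nat_lit 0) (nat_lit 0x7d9d80ab2) (nat_lit 1569623716),
  Rx.mk (nat_lit 99) (nat_lit 3) (nat_lit 4) (nat_lit 1) (nat_lit 5) (nat_lit 308) (nat_lit 255) r0_308 r4_255 (nat_lit 0) (nat_lit 7949593) (nat_lit 0) (nat_lit 0x7febedd10) (nat_lit 1083145917),
  Rx.mk (nat_lit 104) (nat_lit 0) (nat_lit 5) (nat_lit 1) (nat_lit 6) (nat_lit 310) (nat_lit 259) r0_310 r4_259 (nat_lit 5728860) (nat_lit 0) (nat_lit 0) (nat_lit 0x7fd6649a8) (nat_lit 1082310884),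
  Rx.mk (nat_lit 105) (nat_lit 1) (nat_lit 5) (nat_lit 1) (nat_lit 7) (nat_lit 312) (nat_lit 260) r0_312 r4_260 (nat_lit 0) (nat_lit 0) (nat_lit 0) (nat_lit 0x8029d9714) (nat_lit 1071230724),
  Rx.mk (nat_lit 107) (nat_lit 3) (nat_lit 5) (nat_lit 1) (nat_lit 7) (nat_lit 314) (nat_lit 261) r0_314 r4_261 (nat_lit 0) (nat_lit 0) (nat_lit 0) (nat_lit 0x800cb83c4) (nat_lit 1073092924)]
noncomputable def e7_54 : List Rx := [
  Rx.mk (nat_lit 40) (nat_lit 0) (nat_lit 5) (nat_lit 0) (nat_lit 2) (nat_lit 322) (nat_lit 166) r0_322 r10_166 (nat_lit 31804169) (nat_lit 0) (nat_lit 2141139) (nat_lit 0x67d4791ec) (nat_lit 1510741932),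
  Rx.mk (nat_lit 41) (nat_lit 1) (nat_lit 5) (nat_lit 0) (nat_lit 3) (nat_lit 324) (nat_lit 168) r0_324 r10_168 (nat_lit 0) (nat_lit 0) (nat_lit 6250628) (nat_lit 0x7fcba2f38) (nat_lit 1083536252),
  Rx.mk (nat_lit 43) (nat_lit 3) (nat_lit 5) (nat_lit 0) (nat_lit 3) (nat_lit 326) (nat_lit 170) r0_326 r10_170 (nat_lit 0) (nat_lit 0) (nat_lit 5230327) (nat_lit 0x7f655899e) (nat_lit 1089155351),
  Rx.mk (nat_lit 104) (nat_lit 0) (nat_lit 5) (nat_lit 1) (nat_lit 6) (nat_lit 323) (nat_lit 167) r0_323 r10_167 (nat_lit 6626663) (nat_lit 0) (nat_lit 0) (nat_lit 0x7fd2b1cde) (nat_lit 1083457587),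
  Rx.mk (nat_lit 105) (nat_lit 1) (nat_lit 5) (nat_lit 1) (nat_lit 7) (nat_lit 325) (nat_lit 169) r0_325 r10_169 (nat_lit 0) (nat_lit 0) (nat_lit 0) (nat_lit 0x80131f6b8) (nat_lit 1072683424),
  Rx.mk (nat_lit 107) (nat_lit 3) (nat_lit 5) (nat_lit 1) (nat_lit 7) (nat_lit 327) (nat_lit 171) r0_327 r10_171 (nat_lit 0) (nat_lit 0) (nat_lit 0) (nat_lit 0x80029938e) (nat_lit 1073741824)]
noncomputable def e7_55 : List Rx := [
  Rx.mk (nat_lit 32) (nat_lit 0) (nat_lit 4) (nat_lit 0) (nat_lit 0) (nat_lit 342) (nat_lit 165) r0_342 r11_165 (nat_lit 18458944) (nat_lit 3852129) (nat_lit 10268755) (nat_lit 0x51ec2bbde) (nat_lit 1874651452),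
  Rx.mk (nat_lit 33) (nat_lit 1) (nat_lit 4) (nat_lit 0) (nat_lit 1) (nat_lit 344) (nat_lit 171) r0_344 r11_171 (nat_lit 0) (nat_lit 118564749) (nat_lit 7896501) (nat_lit 0x78f0aaa94) (nat_lit 1317996874),
  Rx.mk (nat_lit 35) (nat_lit 3) (nat_lit 4) (nat_lit 0) (nat_lit 1) (nat_lit 346) (nat_lit 177) r0_346 r11_177 (nat_lit 0) (nat_lit 7452897) (nat_lit 8056051) (nat_lit 0x7322e451a) (nat_lit 1303815772),
  Rx.mk (nat_lit 40) (nat_lit 0) (nat_lit 5) (nat_lit 0) (nat_lit 2) (nat_lit 349) (nat_lit 166) r0_349 r11_166 (nat_lit 249448811) (nat_lit 0) (nat_lit 5119836) (nat_lit 0x7cd98d3b2) (nat_lit 1380926471),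
  Rx.mk (nat_lit 41) (nat_lit 1) (nat_lit 5) (nat_lit 0) (nat_lit 3) (nat_lit 351) (nat_lit 172) r0_351 r11_172 (nat_lit 0) (nat_lit 0) (nat_lit 5449534) (nat_lit 0x80029938e) (nat_lit 1079191358),
  Rx.mk (nat_lit 43) (nat_lit 3) (nat_lit 5) (nat_lit 0) (nat_lit 3) (nat_lit 353) (nat_lit 178) r0_353 r11_178 (nat_lit 0) (nat_lit 0) (nat_lit 4354585) (nat_lit 0x800b09e74) (nat_lit 1077554409),
  Rx.mk (nat_lit 56) (nat_lit 0) (nat_lit 7) (nat_lit 0) (nat_lit 2) (nat_lit 356) (nat_lit 167) r0_356 r11_167 (nat_lit 9822470) (nat_lit 0) (nat_lit 9822470) (nat_lit 0x7f9211c88) (nat_lit 1100657964),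
  Rx.mk (nat_lit 57) (nat_lit 1) (nat_lit 7) (nat_lit 0) (nat_lit 3) (nat_lit 358) (nat_lit 173) r0_358 r11_173 (nat_lit 0) (nat_lit 0) (nat_lit 4288788) (nat_lit 0x801061ba6) (nat_lit 1077145012),
  Rx.mk (nat_lit 96) (nat_lit 0) (nat_lit 4) (nat_lit 1) (nat_lit 4) (nat_lit 343) (nat_lit 168) r0_343 r11_168 (nat_lit 7934940) (nat_lit 194126458) (nat_lit 0) (nat_lit 0x7dfec5c32) (nat_lit 1309321022),
  Rx.mk (nat_lit 97) (nat_lit 1) (nat_lit 4) (nat_lit 1) (nat_lit 5) (nat_lit 345) (nat_lit 174) r0_345 r11_174 (nat_lit 0) (nat_lit 172668765) (nat_lit 0) (nat_lit 0x7f52725c8) (nat_lit 1257804589),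
  Rx.mk (nat_lit 99) (nat_lit 3) (nat_lit 4) (nat_lit 1) (nat_lit 5) (nat_lit 347) (nat_lit 179) r0_347 r11_179 (nat_lit 0) (nat_lit 5449534) (nat_lit 0) (nat_lit 0x8024d3526) (nat_lit 1077000758),
  Rx.mk (nat_lit 104) (nat_lit 0) (nat_lit 5) (nat_lit 1) (nat_lit 6) (nat_lit 350) (nat_lit 169) r0_350 r11_169 (nat_lit 5782474) (nat_lit 0) (nat_lit 0) (nat_lit 0x7ffaf2f18) (nat_lit 1080015398),
  Rx.mk (nat_lit 105) (nat_lit 1) (nat_lit 5) (nat_lit 1) (nat_lit 7) (nat_lit 352) (nat_lit 175) r0_352 r11_175 (nat_lit 0) (nat_lit 0) (nat_lit 0) (nat_lit 0x800c523a8) (nat_lit 1073118624),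
  Rx.mk (nat_lit 107) (nat_lit 3) (nat_lit 5) (nat_lit 1) (nat_lit 7) (nat_lit 354) (nat_lit 180) r0_354 r11_180 (nat_lit 0) (nat_lit 0) (nat_lit 0) (nat_lit 0x80029938e) (nat_lit 1073741824),
  Rx.mk (nat_lit 120) (nat_lit 0) (nat_lit 7) (nat_lit 1) (nat_lit 6) (nat_lit 357) (nat_lit 170) r0_357 r11_170 (nat_lit 3096735) (nat_lit 0) (nat_lit 0) (nat_lit 0x80342c6c6) (nat_lit 1073669459),
  Rx.mk (nat_lit 121) (nat_lit 1) (nat_lit 7) (nat_lit 1) (nat_lit 7) (nat_lit 359) (nat_lit 176) r0_359 r11_176 (nat_lit 0) (nat_lit 0) (nat_lit 0) (nat_lit 0x80b7bae20) (nat_lit 1062234024),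
  Rx.mk (nat_lit 227) (nat_lit 3) (nat_lit 4) (nat_lit 3) (nat_lit 5) (nat_lit 348) (nat_lit 181) r0_348 r11_181 (nat_lit 0) (nat_lit 5449534) (nat_lit 0) (nat_lit 0x7fd37cdd0) (nat_lit 1082223658),
  Rx.mk (nat_lit 235) (nat_lit 3) (nat_lit 5) (nat_lit 3) (nat_lit 7) (nat_lit 355) (nat_lit 182) r0_355 r11_182 (nat_lit 0) (nat_lit 0) (nat_lit 0) (nat_lit 0x800d18918) (nat_lit 1073068624)]
noncomputable def e7_56 : List Rx := [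
  Rx.mk (nat_lit 43) (nat_lit 3) (nat_lit 5) (nat_lit 0) (nat_lit 3) (nat_lit 316) (nat_lit 253) r0_316 r5_253 (nat_lit 0) (nat_lit 0) (nat_lit 1462114) (nat_lit 0x7fa136d4e) (nat_lit 1081485238),
  Rx.mk (nat_lit 99) (nat_lit 3) (nat_lit 4) (nat_lit 1) (nat_lit 5) (nat_lit 315) (nat_lit 252) r0_315 r5_252 (nat_lit 0) (nat_lit 2146046) (nat_lit 0) (nat_lit 0x8082930f8) (nat_lit 1067722470),
  Rx.mk (nat_lit 107) (nat_lit 3) (nat_lit 5) (nat_lit 1) (nat_lit 7) (nat_lit 317) (nat_lit 254) r0_317 r5_254 (nat_lit 0) (nat_lit 0) (nat_lit 0) (nat_lit 0x871639162) (nat_lit 959223424)]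
noncomputable def e7_57 : List Rx := [
  Rx.mk (nat_lit 43) (nat_lit 3) (nat_lit 5) (nat_lit 0) (nat_lit 3) (nat_lit 328) (nat_lit 298) r0_328 r11_298 (nat_lit 0) (nat_lit 0) (nat_lit 4405947) (nat_lit 0x7ffb995de) (nat_lit 1078595171),
  Rx.mk (nat_lit 107) (nat_lit 3) (nat_lit 5) (nat_lit 1) (nat_lit 7) (nat_lit 329) (nat_lit 299) r0_329 r11_299 (nat_lit 0) (nat_lit 0) (nat_lit 0) (nat_lit 0x800a900e2) (nat_lit 1073231224)]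
noncomputable def e7 : List (List Rx) := [e7_0, e7_1, e7_2, e7_3, e7_4, e7_5, e7_6, e7_7, e7_8, e7_9, e7_10, e7_11, e7_12, e7_13, e7_14, e7_15, e7_16, e7_17, e7_18, e7_19, e7_20, e7_21, e7_22, e7_23, e7_24, e7_25, e7_26, e7_27, e7_28, e7_29, e7_30, e7_31, e7_32, e7_33, e7_34, e7_35, e7_36, e7_37, e7_38, e7_39, e7_40, e7_41, e7_42, e7_43, e7_44, e7_45, e7_46, e7_47, e7_48, e7_49, e7_50, e7_51, e7_52, e7_53, e7_54, e7_55, e7_56, e7_57]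
noncomputable def e8_0 : List Rx := [
  Rx.mk (nat_lit 359) (nat_lit 7) (nat_lit 4) (nat_lit 5) (nat_lit 5) (nat_lit 69) (nat_lit 76) r1_69 r0_76 (nat_lit 0) (nat_lit 3524879) (nat_lit 0) (nat_lit 0x7f208be6a) (nat_lit 1091914603),
  Rx.mk (nat_lit 372) (nat_lit 4) (nat_lit 6) (nat_lit 5) (nat_lit 6) (nat_lit 70) (nat_lit 75) r1_70 r0_75 (nat_lit 2468639) (nat_lit 0) (nat_lit 0) (nat_lit 0x80090eed0) (nat_lit 1075791763),
  Rx.mk (nat_lit 375) (nat_lit 7) (nat_lit 6) (nat_lit 5) (nat_lit 7) (nat_lit 71) (nat_lit 78) r1_71 r0_78 (nat_lit 0) (nat_lit 0) (nat_lit 0) (nat_lit 0x81c0ba54c) (nat_lit 1045481724),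
  Rx.mk (nat_lit 383) (nat_lit 7) (nat_lit 7) (nat_lit 5) (nat_lit 7) (nat_lit 72) (nat_lit 77) r1_72 r0_77 (nat_lit 0) (nat_lit 0) (nat_lit 0) (nat_lit 0x800fe7112) (nat_lit 1072885924)]
noncomputable def e8_1 : List Rx := [
  Rx.mk (nat_lit 295) (nat_lit 7) (nat_lit 4) (nat_lit 4) (nat_lit 1) (nat_lit 73) (nat_lit 75) r1_73 r1_75 (nat_lit 0) (nat_lit 5595281) (nat_lit 2167811) (nat_lit 0x68a7aed50) (nat_lit 1470816316),
  Rx.mk (nat_lit 308) (nat_lit 4) (nat_lit 6) (nat_lit 4) (nat_lit 2) (nat_lit 75) (nat_lit 73) r1_75 r1_73 (nat_lit 5595281) (nat_lit 0) (nat_lit 2167811) (nat_lit 0x68a7aed50) (nat_lit 1470816316),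
  Rx.mk (nat_lit 310) (nat_lit 6) (nat_lit 6) (nat_lit 4) (nat_lit 3) (nat_lit 77) (nat_lit 82) r1_77 r1_82 (nat_lit 0) (nat_lit 0) (nat_lit 3465019) (nat_lit 0x7fbdc8412) (nat_lit 1081640343),
  Rx.mk (nat_lit 311) (nat_lit 7) (nat_lit 6) (nat_lit 4) (nat_lit 3) (nat_lit 80) (nat_lit 80) r1_80 r1_80 (nat_lit 0) (nat_lit 0) (nat_lit 2104303) (nat_lit 0x8066c26b2) (nat_lit 1069463227),
  Rx.mk (nat_lit 319) (nat_lit 7) (nat_lit 7) (nat_lit 4) (nat_lit 3) (nat_lit 82) (nat_lit 77) r1_82 r1_77 (nat_lit 0) (nat_lit 0) (nat_lit 3465019) (nat_lit 0x7fbdc8412) (nat_lit 1081640343),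
  Rx.mk (nat_lit 359) (nat_lit 7) (nat_lit 4) (nat_lit 5) (nat_lit 5) (nat_lit 74) (nat_lit 76) r1_74 r1_76 (nat_lit 0) (nat_lit 3573233) (nat_lit 0) (nat_lit 0x802abf1c4) (nat_lit 1074746757),
  Rx.mk (nat_lit 372) (nat_lit 4) (nat_lit 6) (nat_lit 5) (nat_lit 6) (nat_lit 76) (nat_lit 74) r1_76 r1_74 (nat_lit 3573233) (nat_lit 0) (nat_lit 0) (nat_lit 0x802abf1c4) (nat_lit 1074746757),
  Rx.mk (nat_lit 374) (nat_lit 6) (nat_lit 6) (nat_lit 5) (nat_lit 7) (nat_lit 78) (nat_lit 83) r1_78 r1_83 (nat_lit 0) (nat_lit 0) (nat_lit 0) (nat_lit 0x801061f66) (nat_lit 1072858124),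
  Rx.mk (nat_lit 375) (nat_lit 7) (nat_lit 6) (nat_lit 5) (nat_lit 7) (nat_lit 81) (nat_lit 81) r1_81 r1_81 (nat_lit 0) (nat_lit 0) (nat_lit 0) (nat_lit 0x803fd8786) (nat_lit 1069829824),
  Rx.mk (nat_lit 383) (nat_lit 7) (nat_lit 7) (nat_lit 5) (nat_lit 7) (nat_lit 83) (nat_lit 78) r1_83 r1_78 (nat_lit 0) (nat_lit 0) (nat_lit 0) (nat_lit 0x801061f66) (nat_lit 1072858124),
  Rx.mk (nat_lit 438) (nat_lit 6) (nat_lit 6) (nat_lit 6) (nat_lit 7) (nat_lit 79) (nat_lit 84) r1_79 r1_84 (nat_lit 0) (nat_lit 0) (nat_lit 0) (nat_lit 0x801061f66) (nat_lit 1072858124),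
  Rx.mk (nat_lit 511) (nat_lit 7) (nat_lit 7) (nat_lit 7) (nat_lit 7) (nat_lit 84) (nat_lit 79) r1_84 r1_79 (nat_lit 0) (nat_lit 0) (nat_lit 0) (nat_lit 0x801061f66) (nat_lit 1072858124)]
noncomputable def e8_2 : List Rx := [
  Rx.mk (nat_lit 295) (nat_lit 7) (nat_lit 4) (nat_lit 4) (nat_lit 1) (nat_lit 31) (nat_lit 76) r1_31 r2_76 (nat_lit 0) (nat_lit 42604894) (nat_lit 3982367) (nat_lit 0x703ff5cd8) (nat_lit 1383025585),
  Rx.mk (nat_lit 308) (nat_lit 4) (nat_lit 6) (nat_lit 4) (nat_lit 2) (nat_lit 33) (nat_lit 75) r1_33 r2_75 (nat_lit 9015506) (nat_lit 0) (nat_lit 6015067) (nat_lit 0x725a13c30) (nat_lit 1316417397),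
  Rx.mk (nat_lit 310) (nat_lit 6) (nat_lit 6) (nat_lit 4) (nat_lit 3) (nat_lit 34) (nat_lit 82) r1_34 r2_82 (nat_lit 0) (nat_lit 0) (nat_lit 5449534) (nat_lit 0x80029938e) (nat_lit 1079191358),
  Rx.mk (nat_lit 311) (nat_lit 7) (nat_lit 6) (nat_lit 4) (nat_lit 3) (nat_lit 36) (nat_lit 79) r1_36 r2_79 (nat_lit 0) (nat_lit 0) (nat_lit 1294723) (nat_lit 0x817da7660) (nat_lit 1051014847),
  Rx.mk (nat_lit 406) (nat_lit 6) (nat_lit 2) (nat_lit 6) (nat_lit 7) (nat_lit 30) (nat_lit 81) r1_30 r2_81 (nat_lit 0) (nat_lit 0) (nat_lit 0) (nat_lit 0x80029938e) (nat_lit 1073741824),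
  Rx.mk (nat_lit 438) (nat_lit 6) (nat_lit 6) (nat_lit 6) (nat_lit 7) (nat_lit 35) (nat_lit 83) r1_35 r2_83 (nat_lit 0) (nat_lit 0) (nat_lit 0) (nat_lit 0x80029938e) (nat_lit 1073741824),
  Rx.mk (nat_lit 487) (nat_lit 7) (nat_lit 4) (nat_lit 7) (nat_lit 5) (nat_lit 32) (nat_lit 77) r1_32 r2_77 (nat_lit 0) (nat_lit 6403813) (nat_lit 0) (nat_lit 0x7fe29b438) (nat_lit 1082202837),
  Rx.mk (nat_lit 503) (nat_lit 7) (nat_lit 6) (nat_lit 7) (nat_lit 7) (nat_lit 37) (nat_lit 80) r1_37 r2_80 (nat_lit 0) (nat_lit 0) (nat_lit 0) (nat_lit 0x804569894) (nat_lit 1069476124),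
  Rx.mk (nat_lit 511) (nat_lit 7) (nat_lit 7) (nat_lit 7) (nat_lit 7) (nat_lit 38) (nat_lit 78) r1_38 r2_78 (nat_lit 0) (nat_lit 0) (nat_lit 0) (nat_lit 0x80029938e) (nat_lit 1073741824)]
noncomputable def e8_3 : List Rx := [
  Rx.mk (nat_lit 103) (nat_lit 7) (nat_lit 4) (nat_lit 1) (nat_lit 5) (nat_lit 66) (nat_lit 68) r1_66 r3_68 (nat_lit 0) (nat_lit 2087) (nat_lit 0) (nat_lit 0x83b63534a) (nat_lit 1013722111),
  Rx.mk (nat_lit 359) (nat_lit 7) (nat_lit 4) (nat_lit 5) (nat_lit 5) (nat_lit 67) (nat_lit 69) r1_67 r3_69 (nat_lit 0) (nat_lit 30018) (nat_lit 0) (nat_lit 0x7f80f42c0) (nat_lit 1082047842),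
  Rx.mk (nat_lit 383) (nat_lit 7) (nat_lit 7) (nat_lit 5) (nat_lit 7) (nat_lit 68) (nat_lit 70) r1_68 r3_70 (nat_lit 0) (nat_lit 0) (nat_lit 0) (nat_lit 0x7eddd189a) (nat_lit 1092721324)]
noncomputable def e8_4 : List Rx := [
  Rx.mk (nat_lit 359) (nat_lit 7) (nat_lit 4) (nat_lit 5) (nat_lit 5) (nat_lit 85) (nat_lit 71) r1_85 r4_71 (nat_lit 0) (nat_lit 3320491) (nat_lit 0) (nat_lit 0x800fb1fc6) (nat_lit 1076215615),
  Rx.mk (nat_lit 375) (nat_lit 7) (nat_lit 6) (nat_lit 5) (nat_lit 7) (nat_lit 86) (nat_lit 73) r1_86 r4_73 (nat_lit 0) (nat_lit 0) (nat_lit 0) (nat_lit 0x85e8fa242) (nat_lit 978250424),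
  Rx.mk (nat_lit 383) (nat_lit 7) (nat_lit 7) (nat_lit 5) (nat_lit 7) (nat_lit 87) (nat_lit 72) r1_87 r4_72 (nat_lit 0) (nat_lit 0) (nat_lit 0) (nat_lit 0x805852a1e) (nat_lit 1068275824)]
noncomputable def e8_5 : List Rx := [
  Rx.mk (nat_lit 103) (nat_lit 7) (nat_lit 4) (nat_lit 1) (nat_lit 5) (nat_lit 91) (nat_lit 63) r1_91 r5_63 (nat_lit 0) (nat_lit 7636976) (nat_lit 0) (nat_lit 0x7f2748de8) (nat_lit 1095591500),
  Rx.mk (nat_lit 127) (nat_lit 7) (nat_lit 7) (nat_lit 1) (nat_lit 7) (nat_lit 92) (nat_lit 64) r1_92 r5_64 (nat_lit 0) (nat_lit 0) (nat_lit 0) (nat_lit 0x80665f1a2) (nat_lit 1067372924),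
  Rx.mk (nat_lit 383) (nat_lit 7) (nat_lit 7) (nat_lit 5) (nat_lit 7) (nat_lit 93) (nat_lit 65) r1_93 r5_65 (nat_lit 0) (nat_lit 0) (nat_lit 0) (nat_lit 0x803f07ad2) (nat_lit 1069877524)]
noncomputable def e8_6 : List Rx := [
  Rx.mk (nat_lit 24) (nat_lit 0) (nat_lit 3) (nat_lit 0) (nat_lit 2) (nat_lit 39) (nat_lit 13) r1_39 r3_13 (nat_lit 680) (nat_lit 0) (nat_lit 335) (nat_lit 0x800093df0) (nat_lit 1073706539),
  Rx.mk (nat_lit 27) (nat_lit 3) (nat_lit 3) (nat_lit 0) (nat_lit 3) (nat_lit 43) (nat_lit 16) r1_43 r3_16 (nat_lit 0) (nat_lit 0) (nat_lit 229167) (nat_lit 0x8456bed52) (nat_lit 1003859891),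
  Rx.mk (nat_lit 59) (nat_lit 3) (nat_lit 7) (nat_lit 0) (nat_lit 3) (nat_lit 46) (nat_lit 10) r1_46 r3_10 (nat_lit 0) (nat_lit 0) (nat_lit 15293) (nat_lit 0x7b3235b42) (nat_lit 1153856717),
  Rx.mk (nat_lit 88) (nat_lit 0) (nat_lit 3) (nat_lit 1) (nat_lit 6) (nat_lit 40) (nat_lit 14) r1_40 r3_14 (nat_lit 21896786) (nat_lit 0) (nat_lit 0) (nat_lit 0x7ff19e8fe) (nat_lit 1096714310),
  Rx.mk (nat_lit 91) (nat_lit 3) (nat_lit 3) (nat_lit 1) (nat_lit 7) (nat_lit 44) (nat_lit 17) r1_44 r3_17 (nat_lit 0) (nat_lit 0) (nat_lit 0) (nat_lit 0x80e4a8b62) (nat_lit 1059385624),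
  Rx.mk (nat_lit 123) (nat_lit 3) (nat_lit 7) (nat_lit 1) (nat_lit 7) (nat_lit 47) (nat_lit 11) r1_47 r3_11 (nat_lit 0) (nat_lit 0) (nat_lit 0) (nat_lit 0x91b9f06ac) (nat_lit 787168224),
  Rx.mk (nat_lit 152) (nat_lit 0) (nat_lit 3) (nat_lit 2) (nat_lit 6) (nat_lit 41) (nat_lit 15) r1_41 r3_15 (nat_lit 1226908) (nat_lit 0) (nat_lit 0) (nat_lit 0x8006f9de8) (nat_lit 1074654532),
  Rx.mk (nat_lit 154) (nat_lit 2) (nat_lit 3) (nat_lit 2) (nat_lit 7) (nat_lit 42) (nat_lit 19) r1_42 r3_19 (nat_lit 0) (nat_lit 0) (nat_lit 0) (nat_lit 0x804e74f7e) (nat_lit 1068891024),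
  Rx.mk (nat_lit 155) (nat_lit 3) (nat_lit 3) (nat_lit 2) (nat_lit 7) (nat_lit 45) (nat_lit 18) r1_45 r3_18 (nat_lit 0) (nat_lit 0) (nat_lit 0) (nat_lit 0x80616a6a6) (nat_lit 1067696824),
  Rx.mk (nat_lit 251) (nat_lit 3) (nat_lit 7) (nat_lit 3) (nat_lit 7) (nat_lit 48) (nat_lit 12) r1_48 r3_12 (nat_lit 0) (nat_lit 0) (nat_lit 0) (nat_lit 0x80b7366a2) (nat_lit 1062264424),
  Rx.mk (nat_lit 255) (nat_lit 7) (nat_lit 7) (nat_lit 3) (nat_lit 7) (nat_lit 49) (nat_lit 9) r1_49 r3_9 (nat_lit 0) (nat_lit 0) (nat_lit 0) (nat_lit 0x80d0874f8) (nat_lit 1060662924)]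
noncomputable def e8_7 : List Rx := [
  Rx.mk (nat_lit 24) (nat_lit 0) (nat_lit 3) (nat_lit 0) (nat_lit 2) (nat_lit 2) (nat_lit 23) r1_2 r0_23 (nat_lit 1455550) (nat_lit 0) (nat_lit 718420) (nat_lit 0x6a3efe8ee) (nat_lit 1438693294),
  Rx.mk (nat_lit 27) (nat_lit 3) (nat_lit 3) (nat_lit 0) (nat_lit 3) (nat_lit 5) (nat_lit 25) r1_5 r0_25 (nat_lit 0) (nat_lit 0) (nat_lit 1321792) (nat_lit 0x7eac0b5f4) (nat_lit 1097321716),
  Rx.mk (nat_lit 130) (nat_lit 2) (nat_lit 0) (nat_lit 2) (nat_lit 5) (nat_lit 0) (nat_lit 22) r1_0 r0_22 (nat_lit 0) (nat_lit 3533431) (nat_lit 0) (nat_lit 0x7556e8ecc) (nat_lit 1255098455),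
  Rx.mk (nat_lit 146) (nat_lit 2) (nat_lit 2) (nat_lit 2) (nat_lit 7) (nat_lit 1) (nat_lit 29) r1_1 r0_29 (nat_lit 0) (nat_lit 0) (nat_lit 0) (nat_lit 0x80f88a298) (nat_lit 1058137724),
  Rx.mk (nat_lit 152) (nat_lit 0) (nat_lit 3) (nat_lit 2) (nat_lit 6) (nat_lit 3) (nat_lit 24) r1_3 r0_24 (nat_lit 3519261) (nat_lit 0) (nat_lit 0) (nat_lit 0x7fe91f23c) (nat_lit 1078893085),
  Rx.mk (nat_lit 154) (nat_lit 2) (nat_lit 3) (nat_lit 2) (nat_lit 7) (nat_lit 4) (nat_lit 28) r1_4 r0_28 (nat_lit 0) (nat_lit 0) (nat_lit 0) (nat_lit 0x8b4469ad8) (nat_lit 891617424),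
  Rx.mk (nat_lit 155) (nat_lit 3) (nat_lit 3) (nat_lit 2) (nat_lit 7) (nat_lit 6) (nat_lit 27) r1_6 r0_27 (nat_lit 0) (nat_lit 0) (nat_lit 0) (nat_lit 0x8026ace56) (nat_lit 1071433124),
  Rx.mk (nat_lit 219) (nat_lit 3) (nat_lit 3) (nat_lit 3) (nat_lit 7) (nat_lit 7) (nat_lit 26) r1_7 r0_26 (nat_lit 0) (nat_lit 0) (nat_lit 0) (nat_lit 0x8024ca822) (nat_lit 1071553224),
  Rx.mk (nat_lit 251) (nat_lit 3) (nat_lit 7) (nat_lit 3) (nat_lit 7) (nat_lit 8) (nat_lit 21) r1_8 r0_21 (nat_lit 0) (nat_lit 0) (nat_lit 0) (nat_lit 0x801ae09f6) (nat_lit 1072185524),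
  Rx.mk (nat_lit 255) (nat_lit 7) (nat_lit 7) (nat_lit 3) (nat_lit 7) (nat_lit 9) (nat_lit 20) r1_9 r0_20 (nat_lit 0) (nat_lit 0) (nat_lit 0) (nat_lit 0x7ffd4488e) (nat_lit 1074080924)]
noncomputable def e8_8 : List Rx := [
  Rx.mk (nat_lit 24) (nat_lit 0) (nat_lit 3) (nat_lit 0) (nat_lit 2) (nat_lit 14) (nat_lit 21) r1_14 r1_21 (nat_lit 9177) (nat_lit 0) (nat_lit 7187) (nat_lit 0x6a28abe8e) (nat_lit 1437918688),
  Rx.mk (nat_lit 27) (nat_lit 3) (nat_lit 3) (nat_lit 0) (nat_lit 3) (nat_lit 17) (nat_lit 23) r1_17 r1_23 (nat_lit 0) (nat_lit 0) (nat_lit 3873) (nat_lit 0x81d039b6c) (nat_lit 1044423597),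
  Rx.mk (nat_lit 130) (nat_lit 2) (nat_lit 0) (nat_lit 2) (nat_lit 5) (nat_lit 10) (nat_lit 20) r1_10 r1_20 (nat_lit 0) (nat_lit 1155016) (nat_lit 0) (nat_lit 0x7e229dd08) (nat_lit 1106068540),
  Rx.mk (nat_lit 146) (nat_lit 2) (nat_lit 2) (nat_lit 2) (nat_lit 7) (nat_lit 11) (nat_lit 29) r1_11 r1_29 (nat_lit 0) (nat_lit 0) (nat_lit 0) (nat_lit 0x74ddc19d6) (nat_lit 1259451624),
  Rx.mk (nat_lit 152) (nat_lit 0) (nat_lit 3) (nat_lit 2) (nat_lit 6) (nat_lit 15) (nat_lit 22) r1_15 r1_22 (nat_lit 1884012) (nat_lit 0) (nat_lit 0) (nat_lit 0x80679ce84) (nat_lit 1069185636),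
  Rx.mk (nat_lit 154) (nat_lit 2) (nat_lit 3) (nat_lit 2) (nat_lit 7) (nat_lit 16) (nat_lit 26) r1_16 r1_26 (nat_lit 0) (nat_lit 0) (nat_lit 0) (nat_lit 0x8cc7baddc) (nat_lit 867116824),
  Rx.mk (nat_lit 155) (nat_lit 3) (nat_lit 3) (nat_lit 2) (nat_lit 7) (nat_lit 18) (nat_lit 25) r1_18 r1_25 (nat_lit 0) (nat_lit 0) (nat_lit 0) (nat_lit 0x7fe5feca6) (nat_lit 1075577124),
  Rx.mk (nat_lit 219) (nat_lit 3) (nat_lit 3) (nat_lit 3) (nat_lit 7) (nat_lit 19) (nat_lit 24) r1_19 r1_24 (nat_lit 0) (nat_lit 0) (nat_lit 0) (nat_lit 0x7fe5feca6) (nat_lit 1075577124),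
  Rx.mk (nat_lit 251) (nat_lit 3) (nat_lit 7) (nat_lit 3) (nat_lit 7) (nat_lit 27) (nat_lit 13) r1_27 r1_13 (nat_lit 0) (nat_lit 0) (nat_lit 0) (nat_lit 0x801443f4e) (nat_lit 1072607624),
  Rx.mk (nat_lit 255) (nat_lit 7) (nat_lit 7) (nat_lit 3) (nat_lit 7) (nat_lit 28) (nat_lit 12) r1_28 r1_12 (nat_lit 0) (nat_lit 0) (nat_lit 0) (nat_lit 0x7fb02b11a) (nat_lit 1079058024),
  Rx.mk (nat_lit 308) (nat_lit 4) (nat_lit 6) (nat_lit 4) (nat_lit 2) (nat_lit 21) (nat_lit 14) r1_21 r1_14 (nat_lit 9177) (nat_lit 0) (nat_lit 7187) (nat_lit 0x6a28abe8e) (nat_lit 1437918688),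
  Rx.mk (nat_lit 310) (nat_lit 6) (nat_lit 6) (nat_lit 4) (nat_lit 3) (nat_lit 23) (nat_lit 17) r1_23 r1_17 (nat_lit 0) (nat_lit 0) (nat_lit 3873) (nat_lit 0x81d039b6c) (nat_lit 1044423597),
  Rx.mk (nat_lit 402) (nat_lit 2) (nat_lit 2) (nat_lit 6) (nat_lit 7) (nat_lit 12) (nat_lit 28) r1_12 r1_28 (nat_lit 0) (nat_lit 0) (nat_lit 0) (nat_lit 0x7fb02b11a) (nat_lit 1079058024),
  Rx.mk (nat_lit 406) (nat_lit 6) (nat_lit 2) (nat_lit 6) (nat_lit 7) (nat_lit 13) (nat_lit 27) r1_13 r1_27 (nat_lit 0) (nat_lit 0) (nat_lit 0) (nat_lit 0x801443f4e) (nat_lit 1072607624),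
  Rx.mk (nat_lit 438) (nat_lit 6) (nat_lit 6) (nat_lit 6) (nat_lit 7) (nat_lit 24) (nat_lit 19) r1_24 r1_19 (nat_lit 0) (nat_lit 0) (nat_lit 0) (nat_lit 0x7fe5feca6) (nat_lit 1075577124),
  Rx.mk (nat_lit 487) (nat_lit 7) (nat_lit 4) (nat_lit 7) (nat_lit 5) (nat_lit 20) (nat_lit 10) r1_20 r1_10 (nat_lit 0) (nat_lit 1155016) (nat_lit 0) (nat_lit 0x7e229dd08) (nat_lit 1106068540),
  Rx.mk (nat_lit 500) (nat_lit 4) (nat_lit 6) (nat_lit 7) (nat_lit 6) (nat_lit 22) (nat_lit 15) r1_22 r1_15 (nat_lit 1884012) (nat_lit 0) (nat_lit 0) (nat_lit 0x80679ce84) (nat_lit 1069185636),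
  Rx.mk (nat_lit 502) (nat_lit 6) (nat_lit 6) (nat_lit 7) (nat_lit 7) (nat_lit 25) (nat_lit 18) r1_25 r1_18 (nat_lit 0) (nat_lit 0) (nat_lit 0) (nat_lit 0x7fe5feca6) (nat_lit 1075577124),
  Rx.mk (nat_lit 503) (nat_lit 7) (nat_lit 6) (nat_lit 7) (nat_lit 7) (nat_lit 26) (nat_lit 16) r1_26 r1_16 (nat_lit 0) (nat_lit 0) (nat_lit 0) (nat_lit 0x8cc7baddc) (nat_lit 867116824),
  Rx.mk (nat_lit 511) (nat_lit 7) (nat_lit 7) (nat_lit 7) (nat_lit 7) (nat_lit 29) (nat_lit 11) r1_29 r1_11 (nat_lit 0) (nat_lit 0) (nat_lit 0) (nat_lit 0x74ddc19d6) (nat_lit 1259451624)]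
noncomputable def e8_9 : List Rx := [
  Rx.mk (nat_lit 24) (nat_lit 0) (nat_lit 3) (nat_lit 0) (nat_lit 2) (nat_lit 50) (nat_lit 16) r1_50 r4_16 (nat_lit 79097561) (nat_lit 0) (nat_lit 2062902) (nat_lit 0x6ccb7681a) (nat_lit 1475199687),
  Rx.mk (nat_lit 27) (nat_lit 3) (nat_lit 3) (nat_lit 0) (nat_lit 3) (nat_lit 53) (nat_lit 18) r1_53 r4_18 (nat_lit 0) (nat_lit 0) (nat_lit 2991468) (nat_lit 0x7deccd1a6) (nat_lit 1111434092),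
  Rx.mk (nat_lit 59) (nat_lit 3) (nat_lit 7) (nat_lit 0) (nat_lit 3) (nat_lit 55) (nat_lit 14) r1_55 r4_14 (nat_lit 0) (nat_lit 0) (nat_lit 2626510) (nat_lit 0x8035143e0) (nat_lit 1073140434),
  Rx.mk (nat_lit 152) (nat_lit 0) (nat_lit 3) (nat_lit 2) (nat_lit 6) (nat_lit 51) (nat_lit 17) r1_51 r4_17 (nat_lit 4988897) (nat_lit 0) (nat_lit 0) (nat_lit 0x801b824ae) (nat_lit 1077133921),
  Rx.mk (nat_lit 154) (nat_lit 2) (nat_lit 3) (nat_lit 2) (nat_lit 7) (nat_lit 52) (nat_lit 20) r1_52 r4_20 (nat_lit 0) (nat_lit 0) (nat_lit 0) (nat_lit 0x8103de856) (nat_lit 1057413024),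
  Rx.mk (nat_lit 155) (nat_lit 3) (nat_lit 3) (nat_lit 2) (nat_lit 7) (nat_lit 54) (nat_lit 19) r1_54 r4_19 (nat_lit 0) (nat_lit 0) (nat_lit 0) (nat_lit 0x80272dc18) (nat_lit 1071401024),
  Rx.mk (nat_lit 251) (nat_lit 3) (nat_lit 7) (nat_lit 3) (nat_lit 7) (nat_lit 56) (nat_lit 15) r1_56 r4_15 (nat_lit 0) (nat_lit 0) (nat_lit 0) (nat_lit 0x803369e32) (nat_lit 1070621424),
  Rx.mk (nat_lit 255) (nat_lit 7) (nat_lit 7) (nat_lit 3) (nat_lit 7) (nat_lit 57) (nat_lit 13) r1_57 r4_13 (nat_lit 0) (nat_lit 0) (nat_lit 0) (nat_lit 0x804a16bda) (nat_lit 1069179124)]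
noncomputable def e8_10 : List Rx := [
  Rx.mk (nat_lit 103) (nat_lit 7) (nat_lit 4) (nat_lit 1) (nat_lit 5) (nat_lit 88) (nat_lit 57) r1_88 r6_57 (nat_lit 0) (nat_lit 2919225) (nat_lit 0) (nat_lit 0x8031e1df8) (nat_lit 1073634549),
  Rx.mk (nat_lit 123) (nat_lit 3) (nat_lit 7) (nat_lit 1) (nat_lit 7) (nat_lit 89) (nat_lit 56) r1_89 r6_56 (nat_lit 0) (nat_lit 0) (nat_lit 0) (nat_lit 0x997d38914) (nat_lit 661632824),
  Rx.mk (nat_lit 127) (nat_lit 7) (nat_lit 7) (nat_lit 1) (nat_lit 7) (nat_lit 90) (nat_lit 58) r1_90 r6_58 (nat_lit 0) (nat_lit 0) (nat_lit 0) (nat_lit 0x80844da2e) (nat_lit 1065486024)]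
noncomputable def e8_11 : List Rx := [
  Rx.mk (nat_lit 27) (nat_lit 3) (nat_lit 3) (nat_lit 0) (nat_lit 3) (nat_lit 58) (nat_lit 11) r1_58 r5_11 (nat_lit 0) (nat_lit 0) (nat_lit 1041807) (nat_lit 0x74a17feb4) (nat_lit 1264422431),
  Rx.mk (nat_lit 59) (nat_lit 3) (nat_lit 7) (nat_lit 0) (nat_lit 3) (nat_lit 61) (nat_lit 9) r1_61 r5_9 (nat_lit 0) (nat_lit 0) (nat_lit 933722) (nat_lit 0x7fb880d2e) (nat_lit 1079433146),
  Rx.mk (nat_lit 63) (nat_lit 7) (nat_lit 7) (nat_lit 0) (nat_lit 3) (nat_lit 63) (nat_lit 6) r1_63 r5_6 (nat_lit 0) (nat_lit 0) (nat_lit 1331363) (nat_lit 0x70d9a8132) (nat_lit 1327744887),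
  Rx.mk (nat_lit 91) (nat_lit 3) (nat_lit 3) (nat_lit 1) (nat_lit 7) (nat_lit 59) (nat_lit 12) r1_59 r5_12 (nat_lit 0) (nat_lit 0) (nat_lit 0) (nat_lit 0x8107244b6) (nat_lit 1057210324),
  Rx.mk (nat_lit 123) (nat_lit 3) (nat_lit 7) (nat_lit 1) (nat_lit 7) (nat_lit 62) (nat_lit 10) r1_62 r5_10 (nat_lit 0) (nat_lit 0) (nat_lit 0) (nat_lit 0x808eeb03a) (nat_lit 1064821724),
  Rx.mk (nat_lit 127) (nat_lit 7) (nat_lit 7) (nat_lit 1) (nat_lit 7) (nat_lit 64) (nat_lit 7) r1_64 r5_7 (nat_lit 0) (nat_lit 0) (nat_lit 0) (nat_lit 0x7fd7609d8) (nat_lit 1076521124),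
  Rx.mk (nat_lit 155) (nat_lit 3) (nat_lit 3) (nat_lit 2) (nat_lit 7) (nat_lit 60) (nat_lit 13) r1_60 r5_13 (nat_lit 0) (nat_lit 0) (nat_lit 0) (nat_lit 0x8052ab444) (nat_lit 1068632924),
  Rx.mk (nat_lit 255) (nat_lit 7) (nat_lit 7) (nat_lit 3) (nat_lit 7) (nat_lit 65) (nat_lit 8) r1_65 r5_8 (nat_lit 0) (nat_lit 0) (nat_lit 0) (nat_lit 0x7fe8a5784) (nat_lit 1075407924)]
noncomputable def e8_12 : List Rx := [
  Rx.mk (nat_lit 100) (nat_lit 4) (nat_lit 4) (nat_lit 1) (nat_lit 4) (nat_lit 179) (nat_lit 269) r1_179 r0_269 (nat_lit 4696) (nat_lit 1076204905) (nat_lit 0) (nat_lit 0x8008e3776) (nat_lit 2149391825),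
  Rx.mk (nat_lit 101) (nat_lit 5) (nat_lit 4) (nat_lit 1) (nat_lit 5) (nat_lit 181) (nat_lit 270) r1_181 r0_270 (nat_lit 0) (nat_lit 15364900) (nat_lit 0) (nat_lit 0x80028c260) (nat_lit 1089102224),
  Rx.mk (nat_lit 356) (nat_lit 4) (nat_lit 4) (nat_lit 5) (nat_lit 4) (nat_lit 180) (nat_lit 265) r1_180 r0_265 (nat_lit 2783255) (nat_lit 103080834) (nat_lit 0) (nat_lit 0x61b174d32) (nat_lit 1684989113),
  Rx.mk (nat_lit 357) (nat_lit 5) (nat_lit 4) (nat_lit 5) (nat_lit 5) (nat_lit 182) (nat_lit 266) r1_182 r0_266 (nat_lit 0) (nat_lit 7068022) (nat_lit 0) (nat_lit 0x7fea1f7b8) (nat_lit 1082378546),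
  Rx.mk (nat_lit 359) (nat_lit 7) (nat_lit 4) (nat_lit 5) (nat_lit 5) (nat_lit 183) (nat_lit 267) r1_183 r0_267 (nat_lit 0) (nat_lit 271237446) (nat_lit 0) (nat_lit 0x89006c440) (nat_lit 1199488170),
  Rx.mk (nat_lit 383) (nat_lit 7) (nat_lit 7) (nat_lit 5) (nat_lit 7) (nat_lit 184) (nat_lit 268) r1_184 r0_268 (nat_lit 0) (nat_lit 0) (nat_lit 0) (nat_lit 0x802fc2cf2) (nat_lit 1070852724)]
noncomputable def e8_13 : List Rx := [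
  Rx.mk (nat_lit 356) (nat_lit 4) (nat_lit 4) (nat_lit 5) (nat_lit 4) (nat_lit 192) (nat_lit 64) r1_192 r7_64 (nat_lit 18024927) (nat_lit 13272121) (nat_lit 0) (nat_lit 0x679c04a46) (nat_lit 1511783172),
  Rx.mk (nat_lit 357) (nat_lit 5) (nat_lit 4) (nat_lit 5) (nat_lit 5) (nat_lit 193) (nat_lit 66) r1_193 r7_66 (nat_lit 0) (nat_lit 6367424) (nat_lit 0) (nat_lit 0x7fc15ea7c) (nat_lit 1084313548),
  Rx.mk (nat_lit 359) (nat_lit 7) (nat_lit 4) (nat_lit 5) (nat_lit 5) (nat_lit 194) (nat_lit 68) r1_194 r7_68 (nat_lit 0) (nat_lit 50165941) (nat_lit 0) (nat_lit 0x874d452b4) (nat_lit 1005906665),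
  Rx.mk (nat_lit 372) (nat_lit 4) (nat_lit 6) (nat_lit 5) (nat_lit 6) (nat_lit 195) (nat_lit 65) r1_195 r7_65 (nat_lit 3131027) (nat_lit 0) (nat_lit 0) (nat_lit 0x8039b0930) (nat_lit 1073355051),
  Rx.mk (nat_lit 373) (nat_lit 5) (nat_lit 6) (nat_lit 5) (nat_lit 7) (nat_lit 196) (nat_lit 67) r1_196 r7_67 (nat_lit 0) (nat_lit 0) (nat_lit 0) (nat_lit 0x8013c631e) (nat_lit 1072641324),
  Rx.mk (nat_lit 375) (nat_lit 7) (nat_lit 6) (nat_lit 5) (nat_lit 7) (nat_lit 197) (nat_lit 70) r1_197 r7_70 (nat_lit 0) (nat_lit 0) (nat_lit 0) (nat_lit 0x8013c631e) (nat_lit 1072641324),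
  Rx.mk (nat_lit 383) (nat_lit 7) (nat_lit 7) (nat_lit 5) (nat_lit 7) (nat_lit 198) (nat_lit 69) r1_198 r7_69 (nat_lit 0) (nat_lit 0) (nat_lit 0) (nat_lit 0x80f9b7260) (nat_lit 1058059324)]
noncomputable def e8_14 : List Rx := [
  Rx.mk (nat_lit 101) (nat_lit 5) (nat_lit 4) (nat_lit 1) (nat_lit 5) (nat_lit 185) (nat_lit 273) r1_185 r1_273 (nat_lit 0) (nat_lit 5632914) (nat_lit 0) (nat_lit 0x80115033c) (nat_lit 1078429238),
  Rx.mk (nat_lit 357) (nat_lit 5) (nat_lit 4) (nat_lit 5) (nat_lit 5) (nat_lit 186) (nat_lit 272) r1_186 r1_272 (nat_lit 0) (nat_lit 6431130) (nat_lit 0) (nat_lit 0x7f59dbdb4) (nat_lit 1091100554)]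
noncomputable def e8_15 : List Rx := [
  Rx.mk (nat_lit 357) (nat_lit 5) (nat_lit 4) (nat_lit 5) (nat_lit 5) (nat_lit 199) (nat_lit 66) r1_199 r8_66 (nat_lit 0) (nat_lit 5449534) (nat_lit 0) (nat_lit 0x7fdc2270a) (nat_lit 1081666058),
  Rx.mk (nat_lit 373) (nat_lit 5) (nat_lit 6) (nat_lit 5) (nat_lit 7) (nat_lit 200) (nat_lit 67) r1_200 r8_67 (nat_lit 0) (nat_lit 0) (nat_lit 0) (nat_lit 0x80029938e) (nat_lit 1073741824)]
noncomputable def e8_16 : List Rx := [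
  Rx.mk (nat_lit 292) (nat_lit 4) (nat_lit 4) (nat_lit 4) (nat_lit 0) (nat_lit 201) (nat_lit 283) r1_201 r8_283 (nat_lit 15319371) (nat_lit 114209413) (nat_lit 1918416) (nat_lit 0x41b550df4) (nat_lit 2243856724),
  Rx.mk (nat_lit 295) (nat_lit 7) (nat_lit 4) (nat_lit 4) (nat_lit 1) (nat_lit 204) (nat_lit 284) r1_204 r8_284 (nat_lit 0) (nat_lit 49656685) (nat_lit 3811645) (nat_lit 0x67434edb6) (nat_lit 1539734254),
  Rx.mk (nat_lit 308) (nat_lit 4) (nat_lit 6) (nat_lit 4) (nat_lit 2) (nat_lit 206) (nat_lit 286) r1_206 r8_286 (nat_lit 7320286) (nat_lit 0) (nat_lit 4263426) (nat_lit 0x6945f5c3e) (nat_lit 1464332436),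
  Rx.mk (nat_lit 310) (nat_lit 6) (nat_lit 6) (nat_lit 4) (nat_lit 3) (nat_lit 209) (nat_lit 288) r1_209 r8_288 (nat_lit 0) (nat_lit 0) (nat_lit 5449534) (nat_lit 0x7fec9c43c) (nat_lit 1080603458),
  Rx.mk (nat_lit 311) (nat_lit 7) (nat_lit 6) (nat_lit 4) (nat_lit 3) (nat_lit 212) (nat_lit 287) r1_212 r8_287 (nat_lit 0) (nat_lit 0) (nat_lit 5449534) (nat_lit 0x80029938e) (nat_lit 1079191358),
  Rx.mk (nat_lit 319) (nat_lit 7) (nat_lit 7) (nat_lit 4) (nat_lit 3) (nat_lit 214) (nat_lit 285) r1_214 r8_285 (nat_lit 0) (nat_lit 0) (nat_lit 5009605) (nat_lit 0x79cf2c0ba) (nat_lit 1182054929),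
  Rx.mk (nat_lit 356) (nat_lit 4) (nat_lit 4) (nat_lit 5) (nat_lit 4) (nat_lit 202) (nat_lit 289) r1_202 r8_289 (nat_lit 11555613) (nat_lit 11555613) (nat_lit 0) (nat_lit 0x649b277ac) (nat_lit 1553678350),
  Rx.mk (nat_lit 357) (nat_lit 5) (nat_lit 4) (nat_lit 5) (nat_lit 5) (nat_lit 203) (nat_lit 290) r1_203 r8_290 (nat_lit 0) (nat_lit 5714928) (nat_lit 0) (nat_lit 0x7ff0d9b4e) (nat_lit 1080597652),
  Rx.mk (nat_lit 359) (nat_lit 7) (nat_lit 4) (nat_lit 5) (nat_lit 5) (nat_lit 205) (nat_lit 291) r1_205 r8_291 (nat_lit 0) (nat_lit 7630254) (nat_lit 0) (nat_lit 0x8044c7bb6) (nat_lit 1077143878),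
  Rx.mk (nat_lit 372) (nat_lit 4) (nat_lit 6) (nat_lit 5) (nat_lit 6) (nat_lit 207) (nat_lit 293) r1_207 r8_293 (nat_lit 5586817) (nat_lit 0) (nat_lit 0) (nat_lit 0x7ff93b2a6) (nat_lit 1079930041),
  Rx.mk (nat_lit 373) (nat_lit 5) (nat_lit 6) (nat_lit 5) (nat_lit 7) (nat_lit 208) (nat_lit 294) r1_208 r8_294 (nat_lit 0) (nat_lit 0) (nat_lit 0) (nat_lit 0x80029938e) (nat_lit 1073741824),
  Rx.mk (nat_lit 374) (nat_lit 6) (nat_lit 6) (nat_lit 5) (nat_lit 7) (nat_lit 210) (nat_lit 296) r1_210 r8_296 (nat_lit 0) (nat_lit 0) (nat_lit 0) (nat_lit 0x80029938e) (nat_lit 1073741824),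
  Rx.mk (nat_lit 375) (nat_lit 7) (nat_lit 6) (nat_lit 5) (nat_lit 7) (nat_lit 213) (nat_lit 295) r1_213 r8_295 (nat_lit 0) (nat_lit 0) (nat_lit 0) (nat_lit 0x80029938e) (nat_lit 1073741824),
  Rx.mk (nat_lit 383) (nat_lit 7) (nat_lit 7) (nat_lit 5) (nat_lit 7) (nat_lit 215) (nat_lit 292) r1_215 r8_292 (nat_lit 0) (nat_lit 0) (nat_lit 0) (nat_lit 0x807ff3424) (nat_lit 1065763424),
  Rx.mk (nat_lit 438) (nat_lit 6) (nat_lit 6) (nat_lit 6) (nat_lit 7) (nat_lit 211) (nat_lit 298) r1_211 r8_298 (nat_lit 0) (nat_lit 0) (nat_lit 0) (nat_lit 0x80029938e) (nat_lit 1073741824),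
  Rx.mk (nat_lit 511) (nat_lit 7) (nat_lit 7) (nat_lit 7) (nat_lit 7) (nat_lit 216) (nat_lit 297) r1_216 r8_297 (nat_lit 0) (nat_lit 0) (nat_lit 0) (nat_lit 0x8009989a0) (nat_lit 1073292924)]
noncomputable def e8_17 : List Rx := [
  Rx.mk (nat_lit 292) (nat_lit 4) (nat_lit 4) (nat_lit 4) (nat_lit 0) (nat_lit 170) (nat_lit 40) r1_170 r9_40 (nat_lit 14674099) (nat_lit 67552839) (nat_lit 5387168) (nat_lit 0x39df35bf4) (nat_lit 2330684730),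
  Rx.mk (nat_lit 295) (nat_lit 7) (nat_lit 4) (nat_lit 4) (nat_lit 1) (nat_lit 171) (nat_lit 42) r1_171 r9_42 (nat_lit 0) (nat_lit 138692841) (nat_lit 4130151) (nat_lit 0x6fe20f042) (nat_lit 1485369016),
  Rx.mk (nat_lit 308) (nat_lit 4) (nat_lit 6) (nat_lit 4) (nat_lit 2) (nat_lit 173) (nat_lit 41) r1_173 r9_41 (nat_lit 6975258) (nat_lit 0) (nat_lit 3916298) (nat_lit 0x682127750) (nat_lit 1482713080),
  Rx.mk (nat_lit 310) (nat_lit 6) (nat_lit 6) (nat_lit 4) (nat_lit 3) (nat_lit 174) (nat_lit 48) r1_174 r9_48 (nat_lit 0) (nat_lit 0) (nat_lit 5449534) (nat_lit 0x80029938e) (nat_lit 1079191358),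
  Rx.mk (nat_lit 311) (nat_lit 7) (nat_lit 6) (nat_lit 4) (nat_lit 3) (nat_lit 176) (nat_lit 45) r1_176 r9_45 (nat_lit 0) (nat_lit 0) (nat_lit 5449534) (nat_lit 0x80029938e) (nat_lit 1079191358),
  Rx.mk (nat_lit 406) (nat_lit 6) (nat_lit 2) (nat_lit 6) (nat_lit 7) (nat_lit 169) (nat_lit 47) r1_169 r9_47 (nat_lit 0) (nat_lit 0) (nat_lit 0) (nat_lit 0x80029938e) (nat_lit 1073741824),
  Rx.mk (nat_lit 438) (nat_lit 6) (nat_lit 6) (nat_lit 6) (nat_lit 7) (nat_lit 175) (nat_lit 49) r1_175 r9_49 (nat_lit 0) (nat_lit 0) (nat_lit 0) (nat_lit 0x80029938e) (nat_lit 1073741824),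
  Rx.mk (nat_lit 487) (nat_lit 7) (nat_lit 4) (nat_lit 7) (nat_lit 5) (nat_lit 172) (nat_lit 43) r1_172 r9_43 (nat_lit 0) (nat_lit 7333993) (nat_lit 0) (nat_lit 0x7fde08646) (nat_lit 1083428917),
  Rx.mk (nat_lit 503) (nat_lit 7) (nat_lit 6) (nat_lit 7) (nat_lit 7) (nat_lit 177) (nat_lit 46) r1_177 r9_46 (nat_lit 0) (nat_lit 0) (nat_lit 0) (nat_lit 0x80029938e) (nat_lit 1073741824),
  Rx.mk (nat_lit 511) (nat_lit 7) (nat_lit 7) (nat_lit 7) (nat_lit 7) (nat_lit 178) (nat_lit 44) r1_178 r9_44 (nat_lit 0) (nat_lit 0) (nat_lit 0) (nat_lit 0x80029938e) (nat_lit 1073741824)]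
noncomputable def e8_18 : List Rx := [
  Rx.mk (nat_lit 100) (nat_lit 4) (nat_lit 4) (nat_lit 1) (nat_lit 4) (nat_lit 187) (nat_lit 281) r1_187 r4_281 (nat_lit 33051833) (nat_lit 121901927) (nat_lit 0) (nat_lit 0x6d0be5900) (nat_lit 1544782984),
  Rx.mk (nat_lit 101) (nat_lit 5) (nat_lit 4) (nat_lit 1) (nat_lit 5) (nat_lit 188) (nat_lit 282) r1_188 r4_282 (nat_lit 0) (nat_lit 5449534) (nat_lit 0) (nat_lit 0x8040748b6) (nat_lit 1075240558),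
  Rx.mk (nat_lit 103) (nat_lit 7) (nat_lit 4) (nat_lit 1) (nat_lit 5) (nat_lit 189) (nat_lit 283) r1_189 r4_283 (nat_lit 0) (nat_lit 362600088) (nat_lit 0) (nat_lit 0x7fac88b7a) (nat_lit 1441871812),
  Rx.mk (nat_lit 359) (nat_lit 7) (nat_lit 4) (nat_lit 5) (nat_lit 5) (nat_lit 190) (nat_lit 279) r1_190 r4_279 (nat_lit 0) (nat_lit 133026953) (nat_lit 0) (nat_lit 0x8042f6120) (nat_lit 1202645077),
  Rx.mk (nat_lit 383) (nat_lit 7) (nat_lit 7) (nat_lit 5) (nat_lit 7) (nat_lit 191) (nat_lit 280) r1_191 r4_280 (nat_lit 0) (nat_lit 0) (nat_lit 0) (nat_lit 0x807e3d260) (nat_lit 1065870924)]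
noncomputable def e8_19 : List Rx := [
  Rx.mk (nat_lit 359) (nat_lit 7) (nat_lit 4) (nat_lit 5) (nat_lit 5) (nat_lit 217) (nat_lit 49) r1_217 r10_49 (nat_lit 0) (nat_lit 19618759) (nat_lit 0) (nat_lit 0x8216578f6) (nat_lit 1059686783),
  Rx.mk (nat_lit 375) (nat_lit 7) (nat_lit 6) (nat_lit 5) (nat_lit 7) (nat_lit 218) (nat_lit 51) r1_218 r10_51 (nat_lit 0) (nat_lit 0) (nat_lit 0) (nat_lit 0x80029938e) (nat_lit 1073741824),
  Rx.mk (nat_lit 383) (nat_lit 7) (nat_lit 7) (nat_lit 5) (nat_lit 7) (nat_lit 219) (nat_lit 50) r1_219 r10_50 (nat_lit 0) (nat_lit 0) (nat_lit 0) (nat_lit 0x808e6d8b0) (nat_lit 1064845524)]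
noncomputable def e8_20 : List Rx := [
  Rx.mk (nat_lit 100) (nat_lit 4) (nat_lit 4) (nat_lit 1) (nat_lit 4) (nat_lit 220) (nat_lit 41) r1_220 r11_41 (nat_lit 167522575) (nat_lit 142725965) (nat_lit 0) (nat_lit 0x71fbb1be2) (nat_lit 1617776664),
  Rx.mk (nat_lit 101) (nat_lit 5) (nat_lit 4) (nat_lit 1) (nat_lit 5) (nat_lit 221) (nat_lit 42) r1_221 r11_42 (nat_lit 0) (nat_lit 5449534) (nat_lit 0) (nat_lit 0x80131b900) (nat_lit 1078133458),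
  Rx.mk (nat_lit 103) (nat_lit 7) (nat_lit 4) (nat_lit 1) (nat_lit 5) (nat_lit 222) (nat_lit 43) r1_222 r11_43 (nat_lit 0) (nat_lit 6392805) (nat_lit 0) (nat_lit 0x807f8d502) (nat_lit 1072177929),
  Rx.mk (nat_lit 127) (nat_lit 7) (nat_lit 7) (nat_lit 1) (nat_lit 7) (nat_lit 223) (nat_lit 44) r1_223 r11_44 (nat_lit 0) (nat_lit 0) (nat_lit 0) (nat_lit 0x806ebd592) (nat_lit 1066852524),
  Rx.mk (nat_lit 383) (nat_lit 7) (nat_lit 7) (nat_lit 5) (nat_lit 7) (nat_lit 224) (nat_lit 45) r1_224 r11_45 (nat_lit 0) (nat_lit 0) (nat_lit 0) (nat_lit 0x803f6ccf2) (nat_lit 1069856624)]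
noncomputable def e8_21 : List Rx := [
  Rx.mk (nat_lit 406) (nat_lit 6) (nat_lit 2) (nat_lit 6) (nat_lit 7) (nat_lit 153) (nat_lit 1) r1_153 r9_1 (nat_lit 0) (nat_lit 0) (nat_lit 0) (nat_lit 0x80029938e) (nat_lit 1073741824)]
noncomputable def e8_22 : List Rx := [
  Rx.mk (nat_lit 0) (nat_lit 0) (nat_lit 0) (nat_lit 0) (nat_lit 0) (nat_lit 94) (nat_lit 111) r1_94 r0_111 (nat_lit 313883956) (nat_lit 809) (nat_lit 792) (nat_lit 0x800043b20) (nat_lit 1387611081),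
  Rx.mk (nat_lit 24) (nat_lit 0) (nat_lit 3) (nat_lit 0) (nat_lit 2) (nat_lit 99) (nat_lit 112) r1_99 r0_112 (nat_lit 134380886) (nat_lit 0) (nat_lit 2995413) (nat_lit 0x6f8aae7a8) (nat_lit 1485611623),
  Rx.mk (nat_lit 27) (nat_lit 3) (nat_lit 3) (nat_lit 0) (nat_lit 3) (nat_lit 103) (nat_lit 113) r1_103 r0_113 (nat_lit 0) (nat_lit 0) (nat_lit 4066432) (nat_lit 0x79ca131dc) (nat_lit 1181450656),
  Rx.mk (nat_lit 64) (nat_lit 0) (nat_lit 0) (nat_lit 1) (nat_lit 4) (nat_lit 95) (nat_lit 114) r1_95 r0_114 (nat_lit 389289256) (nat_lit 5229139) (nat_lit 0) (nat_lit 0x7f6d76162) (nat_lit 1477906119),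
  Rx.mk (nat_lit 88) (nat_lit 0) (nat_lit 3) (nat_lit 1) (nat_lit 6) (nat_lit 100) (nat_lit 115) r1_100 r0_115 (nat_lit 9520156) (nat_lit 0) (nat_lit 0) (nat_lit 0x7fd237c40) (nat_lit 1086376280),
  Rx.mk (nat_lit 91) (nat_lit 3) (nat_lit 3) (nat_lit 1) (nat_lit 7) (nat_lit 104) (nat_lit 116) r1_104 r0_116 (nat_lit 0) (nat_lit 0) (nat_lit 0) (nat_lit 0x80029938e) (nat_lit 1073741824),
  Rx.mk (nat_lit 128) (nat_lit 0) (nat_lit 0) (nat_lit 2) (nat_lit 4) (nat_lit 96) (nat_lit 118) r1_96 r0_118 (nat_lit 244546135) (nat_lit 13308373) (nat_lit 0) (nat_lit 0x7f7cf93a0) (nat_lit 1340240332),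
  Rx.mk (nat_lit 130) (nat_lit 2) (nat_lit 0) (nat_lit 2) (nat_lit 5) (nat_lit 97) (nat_lit 121) r1_97 r0_121 (nat_lit 0) (nat_lit 4762754) (nat_lit 0) (nat_lit 0x7fefdf6ee) (nat_lit 1079707178),
  Rx.mk (nat_lit 146) (nat_lit 2) (nat_lit 2) (nat_lit 2) (nat_lit 7) (nat_lit 98) (nat_lit 123) r1_98 r0_123 (nat_lit 0) (nat_lit 0) (nat_lit 0) (nat_lit 0x80029938e) (nat_lit 1073741824),
  Rx.mk (nat_lit 152) (nat_lit 0) (nat_lit 3) (nat_lit 2) (nat_lit 6) (nat_lit 101) (nat_lit 119) r1_101 r0_119 (nat_lit 7910044) (nat_lit 0) (nat_lit 0) (nat_lit 0x80340856e) (nat_lit 1078489268),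
  Rx.mk (nat_lit 154) (nat_lit 2) (nat_lit 3) (nat_lit 2) (nat_lit 7) (nat_lit 102) (nat_lit 122) r1_102 r0_122 (nat_lit 0) (nat_lit 0) (nat_lit 0) (nat_lit 0x80029938e) (nat_lit 1073741824),
  Rx.mk (nat_lit 155) (nat_lit 3) (nat_lit 3) (nat_lit 2) (nat_lit 7) (nat_lit 105) (nat_lit 120) r1_105 r0_120 (nat_lit 0) (nat_lit 0) (nat_lit 0) (nat_lit 0x80029938e) (nat_lit 1073741824),
  Rx.mk (nat_lit 219) (nat_lit 3) (nat_lit 3) (nat_lit 3) (nat_lit 7) (nat_lit 106) (nat_lit 117) r1_106 r0_117 (nat_lit 0) (nat_lit 0) (nat_lit 0) (nat_lit 0x80029938e) (nat_lit 1073741824)]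
noncomputable def e8_23 : List Rx := [
  Rx.mk (nat_lit 0) (nat_lit 0) (nat_lit 0) (nat_lit 0) (nat_lit 0) (nat_lit 117) (nat_lit 117) r1_117 r1_117 (nat_lit 341868901) (nat_lit 1121635) (nat_lit 1121635) (nat_lit 0x65b727faa) (nat_lit 1856174495),
  Rx.mk (nat_lit 8) (nat_lit 0) (nat_lit 1) (nat_lit 0) (nat_lit 2) (nat_lit 121) (nat_lit 118) r1_121 r1_118 (nat_lit 151346615) (nat_lit 0) (nat_lit 5218741) (nat_lit 0x7ecf444c6) (nat_lit 1250251980),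
  Rx.mk (nat_lit 24) (nat_lit 0) (nat_lit 3) (nat_lit 0) (nat_lit 2) (nat_lit 126) (nat_lit 119) r1_126 r1_119 (nat_lit 162116195) (nat_lit 0) (nat_lit 7841701) (nat_lit 0x7f1abe9f6) (nat_lit 1258729120),
  Rx.mk (nat_lit 27) (nat_lit 3) (nat_lit 3) (nat_lit 0) (nat_lit 3) (nat_lit 128) (nat_lit 120) r1_128 r1_120 (nat_lit 0) (nat_lit 0) (nat_lit 5106869) (nat_lit 0x7fef974e8) (nat_lit 1080069093),
  Rx.mk (nat_lit 64) (nat_lit 0) (nat_lit 0) (nat_lit 1) (nat_lit 4) (nat_lit 118) (nat_lit 121) r1_118 r1_121 (nat_lit 151346615) (nat_lit 5218741) (nat_lit 0) (nat_lit 0x7ecf444c6) (nat_lit 1250251980),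
  Rx.mk (nat_lit 72) (nat_lit 0) (nat_lit 1) (nat_lit 1) (nat_lit 6) (nat_lit 122) (nat_lit 122) r1_122 r1_122 (nat_lit 5449534) (nat_lit 0) (nat_lit 0) (nat_lit 0x801265cf4) (nat_lit 1078178558),
  Rx.mk (nat_lit 88) (nat_lit 0) (nat_lit 3) (nat_lit 1) (nat_lit 6) (nat_lit 127) (nat_lit 123) r1_127 r1_123 (nat_lit 5531582) (nat_lit 0) (nat_lit 0) (nat_lit 0x80010250c) (nat_lit 1079375306),
  Rx.mk (nat_lit 91) (nat_lit 3) (nat_lit 3) (nat_lit 1) (nat_lit 7) (nat_lit 129) (nat_lit 124) r1_129 r1_124 (nat_lit 0) (nat_lit 0) (nat_lit 0) (nat_lit 0x80029938e) (nat_lit 1073741824),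
  Rx.mk (nat_lit 128) (nat_lit 0) (nat_lit 0) (nat_lit 2) (nat_lit 4) (nat_lit 119) (nat_lit 126) r1_119 r1_126 (nat_lit 162116195) (nat_lit 7841701) (nat_lit 0) (nat_lit 0x7f1abe9f6) (nat_lit 1258729120),
  Rx.mk (nat_lit 130) (nat_lit 2) (nat_lit 0) (nat_lit 2) (nat_lit 5) (nat_lit 120) (nat_lit 128) r1_120 r1_128 (nat_lit 0) (nat_lit 5106869) (nat_lit 0) (nat_lit 0x7fef974e8) (nat_lit 1080069093),
  Rx.mk (nat_lit 136) (nat_lit 0) (nat_lit 1) (nat_lit 2) (nat_lit 6) (nat_lit 123) (nat_lit 127) r1_123 r1_127 (nat_lit 5531582) (nat_lit 0) (nat_lit 0) (nat_lit 0x80010250c) (nat_lit 1079375306),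
  Rx.mk (nat_lit 138) (nat_lit 2) (nat_lit 1) (nat_lit 2) (nat_lit 7) (nat_lit 124) (nat_lit 129) r1_124 r1_129 (nat_lit 0) (nat_lit 0) (nat_lit 0) (nat_lit 0x80029938e) (nat_lit 1073741824),
  Rx.mk (nat_lit 146) (nat_lit 2) (nat_lit 2) (nat_lit 2) (nat_lit 7) (nat_lit 125) (nat_lit 130) r1_125 r1_130 (nat_lit 0) (nat_lit 0) (nat_lit 0) (nat_lit 0x80029938e) (nat_lit 1073741824),
  Rx.mk (nat_lit 219) (nat_lit 3) (nat_lit 3) (nat_lit 3) (nat_lit 7) (nat_lit 130) (nat_lit 125) r1_130 r1_125 (nat_lit 0) (nat_lit 0) (nat_lit 0) (nat_lit 0x80029938e) (nat_lit 1073741824)]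
noncomputable def e8_24 : List Rx := [
  Rx.mk (nat_lit 24) (nat_lit 0) (nat_lit 3) (nat_lit 0) (nat_lit 2) (nat_lit 154) (nat_lit 107) r1_154 r4_107 (nat_lit 225790253) (nat_lit 0) (nat_lit 2584296) (nat_lit 0x78edca536) (nat_lit 1420092973),
  Rx.mk (nat_lit 27) (nat_lit 3) (nat_lit 3) (nat_lit 0) (nat_lit 3) (nat_lit 158) (nat_lit 108) r1_158 r4_108 (nat_lit 0) (nat_lit 0) (nat_lit 3186952) (nat_lit 0x7feaece7a) (nat_lit 1078447376),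
  Rx.mk (nat_lit 88) (nat_lit 0) (nat_lit 3) (nat_lit 1) (nat_lit 6) (nat_lit 155) (nat_lit 109) r1_155 r4_109 (nat_lit 5659181) (nat_lit 0) (nat_lit 0) (nat_lit 0x80302b7b6) (nat_lit 1076486505),
  Rx.mk (nat_lit 91) (nat_lit 3) (nat_lit 3) (nat_lit 1) (nat_lit 7) (nat_lit 159) (nat_lit 110) r1_159 r4_110 (nat_lit 0) (nat_lit 0) (nat_lit 0) (nat_lit 0x802afc2d6) (nat_lit 1071158224),
  Rx.mk (nat_lit 152) (nat_lit 0) (nat_lit 3) (nat_lit 2) (nat_lit 6) (nat_lit 156) (nat_lit 111) r1_156 r4_111 (nat_lit 6157515) (nat_lit 0) (nat_lit 0) (nat_lit 0x8041aa0a0) (nat_lit 1075870639),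
  Rx.mk (nat_lit 154) (nat_lit 2) (nat_lit 3) (nat_lit 2) (nat_lit 7) (nat_lit 157) (nat_lit 113) r1_157 r4_113 (nat_lit 0) (nat_lit 0) (nat_lit 0) (nat_lit 0x80029938e) (nat_lit 1073741824),
  Rx.mk (nat_lit 155) (nat_lit 3) (nat_lit 3) (nat_lit 2) (nat_lit 7) (nat_lit 160) (nat_lit 112) r1_160 r4_112 (nat_lit 0) (nat_lit 0) (nat_lit 0) (nat_lit 0x80264a0da) (nat_lit 1071457724)]
noncomputable def e8_25 : List Rx := [
  Rx.mk (nat_lit 0) (nat_lit 0) (nat_lit 0) (nat_lit 0) (nat_lit 0) (nat_lit 107) (nat_lit 11) r1_107 r7_11 (nat_lit 10629653) (nat_lit 1562278) (nat_lit 861237) (nat_lit 0x3d73cabcc) (nat_lit 2196411992),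
  Rx.mk (nat_lit 24) (nat_lit 0) (nat_lit 3) (nat_lit 0) (nat_lit 2) (nat_lit 111) (nat_lit 14) r1_111 r7_14 (nat_lit 2019292) (nat_lit 0) (nat_lit 764768) (nat_lit 0x637a26ad6) (nat_lit 1552157184),
  Rx.mk (nat_lit 27) (nat_lit 3) (nat_lit 3) (nat_lit 0) (nat_lit 3) (nat_lit 114) (nat_lit 16) r1_114 r7_16 (nat_lit 0) (nat_lit 0) (nat_lit 3945399) (nat_lit 0x7a30f8c9e) (nat_lit 1174620723),
  Rx.mk (nat_lit 128) (nat_lit 0) (nat_lit 0) (nat_lit 2) (nat_lit 4) (nat_lit 108) (nat_lit 12) r1_108 r7_12 (nat_lit 181791674) (nat_lit 16900660) (nat_lit 0) (nat_lit 0x795055188) (nat_lit 1384004258),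
  Rx.mk (nat_lit 130) (nat_lit 2) (nat_lit 0) (nat_lit 2) (nat_lit 5) (nat_lit 109) (nat_lit 13) r1_109 r7_13 (nat_lit 0) (nat_lit 4413768) (nat_lit 0) (nat_lit 0x800030c78) (nat_lit 1078308092),
  Rx.mk (nat_lit 146) (nat_lit 2) (nat_lit 2) (nat_lit 2) (nat_lit 7) (nat_lit 110) (nat_lit 20) r1_110 r7_20 (nat_lit 0) (nat_lit 0) (nat_lit 0) (nat_lit 0x80029938e) (nat_lit 1073741824),
  Rx.mk (nat_lit 152) (nat_lit 0) (nat_lit 3) (nat_lit 2) (nat_lit 6) (nat_lit 112) (nat_lit 15) r1_112 r7_15 (nat_lit 6527677) (nat_lit 0) (nat_lit 0) (nat_lit 0x7ff713d3e) (nat_lit 1081006201),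
  Rx.mk (nat_lit 154) (nat_lit 2) (nat_lit 3) (nat_lit 2) (nat_lit 7) (nat_lit 113) (nat_lit 19) r1_113 r7_19 (nat_lit 0) (nat_lit 0) (nat_lit 0) (nat_lit 0x8017d4d3e) (nat_lit 1072381924),
  Rx.mk (nat_lit 155) (nat_lit 3) (nat_lit 3) (nat_lit 2) (nat_lit 7) (nat_lit 115) (nat_lit 18) r1_115 r7_18 (nat_lit 0) (nat_lit 0) (nat_lit 0) (nat_lit 0x80029938e) (nat_lit 1073741824),
  Rx.mk (nat_lit 219) (nat_lit 3) (nat_lit 3) (nat_lit 3) (nat_lit 7) (nat_lit 116) (nat_lit 17) r1_116 r7_17 (nat_lit 0) (nat_lit 0) (nat_lit 0) (nat_lit 0x80029938e) (nat_lit 1073741824)]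
noncomputable def e8_26 : List Rx := [
  Rx.mk (nat_lit 0) (nat_lit 0) (nat_lit 0) (nat_lit 0) (nat_lit 0) (nat_lit 131) (nat_lit 15) r1_131 r8_15 (nat_lit 81717872) (nat_lit 11926250) (nat_lit 2913128) (nat_lit 0x48dac9494) (nat_lit 2089819574),
  Rx.mk (nat_lit 8) (nat_lit 0) (nat_lit 1) (nat_lit 0) (nat_lit 2) (nat_lit 134) (nat_lit 18) r1_134 r8_18 (nat_lit 172043056) (nat_lit 0) (nat_lit 5603265) (nat_lit 0x79817c89c) (nat_lit 1359753945),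
  Rx.mk (nat_lit 24) (nat_lit 0) (nat_lit 3) (nat_lit 0) (nat_lit 2) (nat_lit 138) (nat_lit 21) r1_138 r8_21 (nat_lit 139970032) (nat_lit 0) (nat_lit 4804096) (nat_lit 0x78866aa58) (nat_lit 1343234852),
  Rx.mk (nat_lit 27) (nat_lit 3) (nat_lit 3) (nat_lit 0) (nat_lit 3) (nat_lit 139) (nat_lit 22) r1_139 r8_22 (nat_lit 0) (nat_lit 0) (nat_lit 4861700) (nat_lit 0x7fe599e8c) (nat_lit 1080466924),
  Rx.mk (nat_lit 128) (nat_lit 0) (nat_lit 0) (nat_lit 2) (nat_lit 4) (nat_lit 132) (nat_lit 16) r1_132 r8_16 (nat_lit 45348310) (nat_lit 24476340) (nat_lit 0) (nat_lit 0x716a0d466) (nat_lit 1386843574),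
  Rx.mk (nat_lit 130) (nat_lit 2) (nat_lit 0) (nat_lit 2) (nat_lit 5) (nat_lit 133) (nat_lit 17) r1_133 r8_17 (nat_lit 0) (nat_lit 4792579) (nat_lit 0) (nat_lit 0x7ff6a942a) (nat_lit 1079300103),
  Rx.mk (nat_lit 136) (nat_lit 0) (nat_lit 1) (nat_lit 2) (nat_lit 6) (nat_lit 135) (nat_lit 19) r1_135 r8_19 (nat_lit 5449534) (nat_lit 0) (nat_lit 0) (nat_lit 0x80029938e) (nat_lit 1079191358),
  Rx.mk (nat_lit 138) (nat_lit 2) (nat_lit 1) (nat_lit 2) (nat_lit 7) (nat_lit 136) (nat_lit 20) r1_136 r8_20 (nat_lit 0) (nat_lit 0) (nat_lit 0) (nat_lit 0x80029938e) (nat_lit 1073741824),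
  Rx.mk (nat_lit 146) (nat_lit 2) (nat_lit 2) (nat_lit 2) (nat_lit 7) (nat_lit 137) (nat_lit 24) r1_137 r8_24 (nat_lit 0) (nat_lit 0) (nat_lit 0) (nat_lit 0x80029938e) (nat_lit 1073741824),
  Rx.mk (nat_lit 219) (nat_lit 3) (nat_lit 3) (nat_lit 3) (nat_lit 7) (nat_lit 140) (nat_lit 23) r1_140 r8_23 (nat_lit 0) (nat_lit 0) (nat_lit 0) (nat_lit 0x80029938e) (nat_lit 1073741824)]
noncomputable def e8_27 : List Rx := [
  Rx.mk (nat_lit 0) (nat_lit 0) (nat_lit 0) (nat_lit 0) (nat_lit 0) (nat_lit 141) (nat_lit 90) r1_141 r8_90 (nat_lit 12959764) (nat_lit 6586378) (nat_lit 2925567) (nat_lit 0x3ec2fab92) (nat_lit 2184013933),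
  Rx.mk (nat_lit 24) (nat_lit 0) (nat_lit 3) (nat_lit 0) (nat_lit 2) (nat_lit 147) (nat_lit 91) r1_147 r8_91 (nat_lit 10554535) (nat_lit 0) (nat_lit 3013316) (nat_lit 0x606b0776a) (nat_lit 1613957075),
  Rx.mk (nat_lit 27) (nat_lit 3) (nat_lit 3) (nat_lit 0) (nat_lit 3) (nat_lit 150) (nat_lit 92) r1_150 r8_92 (nat_lit 0) (nat_lit 0) (nat_lit 4371124) (nat_lit 0x7f9613cdc) (nat_lit 1085125348),
  Rx.mk (nat_lit 128) (nat_lit 0) (nat_lit 0) (nat_lit 2) (nat_lit 4) (nat_lit 142) (nat_lit 94) r1_142 r8_94 (nat_lit 30884831) (nat_lit 12510015) (nat_lit 0) (nat_lit 0x700bf15a4) (nat_lit 1383215470),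
  Rx.mk (nat_lit 130) (nat_lit 2) (nat_lit 0) (nat_lit 2) (nat_lit 5) (nat_lit 143) (nat_lit 97) r1_143 r8_97 (nat_lit 0) (nat_lit 5544217) (nat_lit 0) (nat_lit 0x7ffe8daa6) (nat_lit 1079545441),
  Rx.mk (nat_lit 146) (nat_lit 2) (nat_lit 2) (nat_lit 2) (nat_lit 7) (nat_lit 144) (nat_lit 99) r1_144 r8_99 (nat_lit 0) (nat_lit 0) (nat_lit 0) (nat_lit 0x80029938e) (nat_lit 1073741824),
  Rx.mk (nat_lit 152) (nat_lit 0) (nat_lit 3) (nat_lit 2) (nat_lit 6) (nat_lit 148) (nat_lit 95) r1_148 r8_95 (nat_lit 5449534) (nat_lit 0) (nat_lit 0) (nat_lit 0x80029938e) (nat_lit 1079191358),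
  Rx.mk (nat_lit 154) (nat_lit 2) (nat_lit 3) (nat_lit 2) (nat_lit 7) (nat_lit 149) (nat_lit 98) r1_149 r8_98 (nat_lit 0) (nat_lit 0) (nat_lit 0) (nat_lit 0x80029938e) (nat_lit 1073741824),
  Rx.mk (nat_lit 155) (nat_lit 3) (nat_lit 3) (nat_lit 2) (nat_lit 7) (nat_lit 151) (nat_lit 96) r1_151 r8_96 (nat_lit 0) (nat_lit 0) (nat_lit 0) (nat_lit 0x80029938e) (nat_lit 1073741824),
  Rx.mk (nat_lit 219) (nat_lit 3) (nat_lit 3) (nat_lit 3) (nat_lit 7) (nat_lit 152) (nat_lit 93) r1_152 r8_93 (nat_lit 0) (nat_lit 0) (nat_lit 0) (nat_lit 0x80029938e) (nat_lit 1073741824),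
  Rx.mk (nat_lit 402) (nat_lit 2) (nat_lit 2) (nat_lit 6) (nat_lit 7) (nat_lit 145) (nat_lit 100) r1_145 r8_100 (nat_lit 0) (nat_lit 0) (nat_lit 0) (nat_lit 0x80029938e) (nat_lit 1073741824),
  Rx.mk (nat_lit 406) (nat_lit 6) (nat_lit 2) (nat_lit 6) (nat_lit 7) (nat_lit 146) (nat_lit 101) r1_146 r8_101 (nat_lit 0) (nat_lit 0) (nat_lit 0) (nat_lit 0x80029938e) (nat_lit 1073741824)]
noncomputable def e8_28 : List Rx := [
  Rx.mk (nat_lit 24) (nat_lit 0) (nat_lit 3) (nat_lit 0) (nat_lit 2) (nat_lit 161) (nat_lit 5) r1_161 r10_5 (nat_lit 981437) (nat_lit 0) (nat_lit 480768) (nat_lit 0x62be5aa28) (nat_lit 1563059529),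
  Rx.mk (nat_lit 27) (nat_lit 3) (nat_lit 3) (nat_lit 0) (nat_lit 3) (nat_lit 164) (nat_lit 7) r1_164 r10_7 (nat_lit 0) (nat_lit 0) (nat_lit 4988372) (nat_lit 0x78610a830) (nat_lit 1205879396),
  Rx.mk (nat_lit 152) (nat_lit 0) (nat_lit 3) (nat_lit 2) (nat_lit 6) (nat_lit 162) (nat_lit 6) r1_162 r10_6 (nat_lit 7835339) (nat_lit 0) (nat_lit 0) (nat_lit 0x7ff5d0d8c) (nat_lit 1082394163),
  Rx.mk (nat_lit 154) (nat_lit 2) (nat_lit 3) (nat_lit 2) (nat_lit 7) (nat_lit 163) (nat_lit 9) r1_163 r10_9 (nat_lit 0) (nat_lit 0) (nat_lit 0) (nat_lit 0x801053272) (nat_lit 1072862224),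
  Rx.mk (nat_lit 155) (nat_lit 3) (nat_lit 3) (nat_lit 2) (nat_lit 7) (nat_lit 165) (nat_lit 8) r1_165 r10_8 (nat_lit 0) (nat_lit 0) (nat_lit 0) (nat_lit 0x80029938e) (nat_lit 1073741824)]
noncomputable def e8_29 : List Rx := [
  Rx.mk (nat_lit 27) (nat_lit 3) (nat_lit 3) (nat_lit 0) (nat_lit 3) (nat_lit 166) (nat_lit 2) r1_166 r11_2 (nat_lit 0) (nat_lit 0) (nat_lit 5621376) (nat_lit 0x7fea6aa60) (nat_lit 1080917600),
  Rx.mk (nat_lit 91) (nat_lit 3) (nat_lit 3) (nat_lit 1) (nat_lit 7) (nat_lit 167) (nat_lit 3) r1_167 r11_3 (nat_lit 0) (nat_lit 0) (nat_lit 0) (nat_lit 0x80029938e) (nat_lit 1073741824),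
  Rx.mk (nat_lit 155) (nat_lit 3) (nat_lit 3) (nat_lit 2) (nat_lit 7) (nat_lit 168) (nat_lit 4) r1_168 r11_4 (nat_lit 0) (nat_lit 0) (nat_lit 0) (nat_lit 0x80029938e) (nat_lit 1073741824)]
noncomputable def e8_30 : List Rx := [
  Rx.mk (nat_lit 103) (nat_lit 7) (nat_lit 4) (nat_lit 1) (nat_lit 5) (nat_lit 242) (nat_lit 268) r1_242 r5_268 (nat_lit 0) (nat_lit 49238329) (nat_lit 0) (nat_lit 0x83e7c743a) (nat_lit 1059883053),
  Rx.mk (nat_lit 359) (nat_lit 7) (nat_lit 4) (nat_lit 5) (nat_lit 5) (nat_lit 243) (nat_lit 267) r1_243 r5_267 (nat_lit 0) (nat_lit 32179892) (nat_lit 0) (nat_lit 0x8088ff068) (nat_lit 1097358516)]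
noncomputable def e8_31 : List Rx := [
  Rx.mk (nat_lit 359) (nat_lit 7) (nat_lit 4) (nat_lit 5) (nat_lit 5) (nat_lit 244) (nat_lit 333) r1_244 r11_333 (nat_lit 0) (nat_lit 3129371) (nat_lit 0) (nat_lit 0x8036700c2) (nat_lit 1073557195),
  Rx.mk (nat_lit 375) (nat_lit 7) (nat_lit 6) (nat_lit 5) (nat_lit 7) (nat_lit 245) (nat_lit 334) r1_245 r11_334 (nat_lit 0) (nat_lit 0) (nat_lit 0) (nat_lit 0x80c2edd92) (nat_lit 1061523624)]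
noncomputable def e8_32 : List Rx := [
  Rx.mk (nat_lit 99) (nat_lit 3) (nat_lit 4) (nat_lit 1) (nat_lit 5) (nat_lit 246) (nat_lit 179) r1_246 r6_179 (nat_lit 0) (nat_lit 1035266) (nat_lit 0) (nat_lit 0x8401ef04c) (nat_lit 1010034890),
  Rx.mk (nat_lit 120) (nat_lit 0) (nat_lit 7) (nat_lit 1) (nat_lit 6) (nat_lit 247) (nat_lit 178) r1_247 r6_178 (nat_lit 376415) (nat_lit 0) (nat_lit 0) (nat_lit 0x86cc62d18) (nat_lit 964233239),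
  Rx.mk (nat_lit 123) (nat_lit 3) (nat_lit 7) (nat_lit 1) (nat_lit 7) (nat_lit 248) (nat_lit 180) r1_248 r6_180 (nat_lit 0) (nat_lit 0) (nat_lit 0) (nat_lit 0x8fcfe0ed2) (nat_lit 818127624)]
noncomputable def e8_33 : List Rx := [
  Rx.mk (nat_lit 24) (nat_lit 0) (nat_lit 3) (nat_lit 0) (nat_lit 2) (nat_lit 225) (nat_lit 106) r1_225 r5_106 (nat_lit 212990587) (nat_lit 0) (nat_lit 782939) (nat_lit 0x7f9458f50) (nat_lit 1294612750),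
  Rx.mk (nat_lit 56) (nat_lit 0) (nat_lit 7) (nat_lit 0) (nat_lit 2) (nat_lit 229) (nat_lit 107) r1_229 r5_107 (nat_lit 865457) (nat_lit 0) (nat_lit 618569) (nat_lit 0x6cfe8984c) (nat_lit 1392171750),
  Rx.mk (nat_lit 59) (nat_lit 3) (nat_lit 7) (nat_lit 0) (nat_lit 3) (nat_lit 231) (nat_lit 108) r1_231 r5_108 (nat_lit 0) (nat_lit 0) (nat_lit 2341422) (nat_lit 0x7fcb8785a) (nat_lit 1079628546),
  Rx.mk (nat_lit 88) (nat_lit 0) (nat_lit 3) (nat_lit 1) (nat_lit 6) (nat_lit 226) (nat_lit 109) r1_226 r5_109 (nat_lit 5712296) (nat_lit 0) (nat_lit 0) (nat_lit 0x807518c02) (nat_lit 1072163420),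
  Rx.mk (nat_lit 120) (nat_lit 0) (nat_lit 7) (nat_lit 1) (nat_lit 6) (nat_lit 230) (nat_lit 110) r1_230 r5_110 (nat_lit 4608950) (nat_lit 0) (nat_lit 0) (nat_lit 0x800f7fbd4) (nat_lit 1077522674),
  Rx.mk (nat_lit 123) (nat_lit 3) (nat_lit 7) (nat_lit 1) (nat_lit 7) (nat_lit 232) (nat_lit 111) r1_232 r5_111 (nat_lit 0) (nat_lit 0) (nat_lit 0) (nat_lit 0x80029938e) (nat_lit 1073741824),
  Rx.mk (nat_lit 152) (nat_lit 0) (nat_lit 3) (nat_lit 2) (nat_lit 6) (nat_lit 227) (nat_lit 113) r1_227 r5_113 (nat_lit 7480504) (nat_lit 0) (nat_lit 0) (nat_lit 0x8050572c4) (nat_lit 1076259928),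
  Rx.mk (nat_lit 154) (nat_lit 2) (nat_lit 3) (nat_lit 2) (nat_lit 7) (nat_lit 228) (nat_lit 114) r1_228 r5_114 (nat_lit 0) (nat_lit 0) (nat_lit 0) (nat_lit 0x8032723e4) (nat_lit 1070680924),
  Rx.mk (nat_lit 251) (nat_lit 3) (nat_lit 7) (nat_lit 3) (nat_lit 7) (nat_lit 233) (nat_lit 112) r1_233 r5_112 (nat_lit 0) (nat_lit 0) (nat_lit 0) (nat_lit 0x80029938e) (nat_lit 1073741824)]
noncomputable def e8_34 : List Rx := [
  Rx.mk (nat_lit 24) (nat_lit 0) (nat_lit 3) (nat_lit 0) (nat_lit 2) (nat_lit 234) (nat_lit 107) r1_234 r11_107 (nat_lit 139026259) (nat_lit 0) (nat_lit 4273280) (nat_lit 0x7713b0612) (nat_lit 1365912963),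
  Rx.mk (nat_lit 56) (nat_lit 0) (nat_lit 7) (nat_lit 0) (nat_lit 2) (nat_lit 237) (nat_lit 108) r1_237 r11_108 (nat_lit 8516193) (nat_lit 0) (nat_lit 7636497) (nat_lit 0x79092791e) (nat_lit 1206096814),
  Rx.mk (nat_lit 59) (nat_lit 3) (nat_lit 7) (nat_lit 0) (nat_lit 3) (nat_lit 238) (nat_lit 109) r1_238 r11_109 (nat_lit 0) (nat_lit 0) (nat_lit 5449534) (nat_lit 0x80029938e) (nat_lit 1079191358),
  Rx.mk (nat_lit 152) (nat_lit 0) (nat_lit 3) (nat_lit 2) (nat_lit 6) (nat_lit 235) (nat_lit 111) r1_235 r11_111 (nat_lit 5449534) (nat_lit 0) (nat_lit 0) (nat_lit 0x800d59fb2) (nat_lit 1078501858),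
  Rx.mk (nat_lit 154) (nat_lit 2) (nat_lit 3) (nat_lit 2) (nat_lit 7) (nat_lit 236) (nat_lit 112) r1_236 r11_112 (nat_lit 0) (nat_lit 0) (nat_lit 0) (nat_lit 0x8084b604c) (nat_lit 1065459024),
  Rx.mk (nat_lit 251) (nat_lit 3) (nat_lit 7) (nat_lit 3) (nat_lit 7) (nat_lit 239) (nat_lit 110) r1_239 r11_110 (nat_lit 0) (nat_lit 0) (nat_lit 0) (nat_lit 0x80029938e) (nat_lit 1073741824)]
noncomputable def e8_35 : List Rx := [
  Rx.mk (nat_lit 99) (nat_lit 3) (nat_lit 4) (nat_lit 1) (nat_lit 5) (nat_lit 240) (nat_lit 304) r1_240 r6_304 (nat_lit 0) (nat_lit 32238) (nat_lit 0) (nat_lit 0x803e4e578) (nat_lit 1069845062),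
  Rx.mk (nat_lit 103) (nat_lit 7) (nat_lit 4) (nat_lit 1) (nat_lit 5) (nat_lit 241) (nat_lit 305) r1_241 r6_305 (nat_lit 0) (nat_lit 9165703) (nat_lit 0) (nat_lit 0x82a20d594) (nat_lit 1040408027)]
noncomputable def e8_36 : List Rx := [
  Rx.mk (nat_lit 99) (nat_lit 3) (nat_lit 4) (nat_lit 1) (nat_lit 5) (nat_lit 249) (nat_lit 56) r1_249 r12_56 (nat_lit 0) (nat_lit 13758) (nat_lit 0) (nat_lit 0x8684d43de) (nat_lit 968343482),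
  Rx.mk (nat_lit 103) (nat_lit 7) (nat_lit 4) (nat_lit 1) (nat_lit 5) (nat_lit 250) (nat_lit 58) r1_250 r12_58 (nat_lit 0) (nat_lit 8872160) (nat_lit 0) (nat_lit 0x8188ce430) (nat_lit 1057873084),
  Rx.mk (nat_lit 123) (nat_lit 3) (nat_lit 7) (nat_lit 1) (nat_lit 7) (nat_lit 251) (nat_lit 57) r1_251 r12_57 (nat_lit 0) (nat_lit 0) (nat_lit 0) (nat_lit 0xa214ce410) (nat_lit 522685424)]
noncomputable def e8_37 : List Rx := [
  Rx.mk (nat_lit 104) (nat_lit 0) (nat_lit 5) (nat_lit 1) (nat_lit 6) (nat_lit 255) (nat_lit 173) r1_255 r0_173 (nat_lit 200288767) (nat_lit 0) (nat_lit 0) (nat_lit 0x7fddd6150) (nat_lit 1276386391)]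
noncomputable def e8_38 : List Rx := [
  Rx.mk (nat_lit 97) (nat_lit 1) (nat_lit 4) (nat_lit 1) (nat_lit 5) (nat_lit 252) (nat_lit 282) r1_252 r0_282 (nat_lit 0) (nat_lit 821343463) (nat_lit 0) (nat_lit 0x7fffe9b52) (nat_lit 1895092387),
  Rx.mk (nat_lit 104) (nat_lit 0) (nat_lit 5) (nat_lit 1) (nat_lit 6) (nat_lit 253) (nat_lit 283) r1_253 r0_283 (nat_lit 4606623) (nat_lit 0) (nat_lit 0) (nat_lit 0x7ce19384a) (nat_lit 1130436347),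
  Rx.mk (nat_lit 105) (nat_lit 1) (nat_lit 5) (nat_lit 1) (nat_lit 7) (nat_lit 254) (nat_lit 284) r1_254 r0_284 (nat_lit 0) (nat_lit 0) (nat_lit 0) (nat_lit 0x7fab68344) (nat_lit 1079366724)]
noncomputable def e8_39 : List Rx := [
  Rx.mk (nat_lit 104) (nat_lit 0) (nat_lit 5) (nat_lit 1) (nat_lit 6) (nat_lit 256) (nat_lit 221) r1_256 r7_221 (nat_lit 5449534) (nat_lit 0) (nat_lit 0) (nat_lit 0x7f8e54334) (nat_lit 1086711158),
  Rx.mk (nat_lit 105) (nat_lit 1) (nat_lit 5) (nat_lit 1) (nat_lit 7) (nat_lit 257) (nat_lit 222) r1_257 r7_222 (nat_lit 0) (nat_lit 0) (nat_lit 0) (nat_lit 0x80029938e) (nat_lit 1073741824)]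
noncomputable def e8_40 : List Rx := [
  Rx.mk (nat_lit 97) (nat_lit 1) (nat_lit 4) (nat_lit 1) (nat_lit 5) (nat_lit 280) (nat_lit 304) r1_280 r2_304 (nat_lit 0) (nat_lit 8236166) (nat_lit 0) (nat_lit 0x80037e826) (nat_lit 1081916390),
  Rx.mk (nat_lit 101) (nat_lit 5) (nat_lit 4) (nat_lit 1) (nat_lit 5) (nat_lit 281) (nat_lit 305) r1_281 r2_305 (nat_lit 0) (nat_lit 5449534) (nat_lit 0) (nat_lit 0x7fe147668) (nat_lit 1081333358),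
  Rx.mk (nat_lit 105) (nat_lit 1) (nat_lit 5) (nat_lit 1) (nat_lit 7) (nat_lit 283) (nat_lit 307) r1_283 r2_307 (nat_lit 0) (nat_lit 0) (nat_lit 0) (nat_lit 0x80029938e) (nat_lit 1073741824),
  Rx.mk (nat_lit 109) (nat_lit 5) (nat_lit 5) (nat_lit 1) (nat_lit 7) (nat_lit 284) (nat_lit 308) r1_284 r2_308 (nat_lit 0) (nat_lit 0) (nat_lit 0) (nat_lit 0x80029938e) (nat_lit 1073741824),
  Rx.mk (nat_lit 357) (nat_lit 5) (nat_lit 4) (nat_lit 5) (nat_lit 5) (nat_lit 282) (nat_lit 306) r1_282 r2_306 (nat_lit 0) (nat_lit 5449534) (nat_lit 0) (nat_lit 0x7fec59132) (nat_lit 1080620558),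
  Rx.mk (nat_lit 365) (nat_lit 5) (nat_lit 5) (nat_lit 5) (nat_lit 7) (nat_lit 285) (nat_lit 309) r1_285 r2_309 (nat_lit 0) (nat_lit 0) (nat_lit 0) (nat_lit 0x80029938e) (nat_lit 1073741824)]
noncomputable def e8_41 : List Rx := [
  Rx.mk (nat_lit 105) (nat_lit 1) (nat_lit 5) (nat_lit 1) (nat_lit 7) (nat_lit 287) (nat_lit 290) r1_287 r9_290 (nat_lit 0) (nat_lit 0) (nat_lit 0) (nat_lit 0x80029938e) (nat_lit 1073741824),
  Rx.mk (nat_lit 109) (nat_lit 5) (nat_lit 5) (nat_lit 1) (nat_lit 7) (nat_lit 288) (nat_lit 291) r1_288 r9_291 (nat_lit 0) (nat_lit 0) (nat_lit 0) (nat_lit 0x80029938e) (nat_lit 1073741824),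
  Rx.mk (nat_lit 365) (nat_lit 5) (nat_lit 5) (nat_lit 5) (nat_lit 7) (nat_lit 289) (nat_lit 292) r1_289 r9_292 (nat_lit 0) (nat_lit 0) (nat_lit 0) (nat_lit 0x80029938e) (nat_lit 1073741824)]
noncomputable def e8_42 : List Rx := [
  Rx.mk (nat_lit 357) (nat_lit 5) (nat_lit 4) (nat_lit 5) (nat_lit 5) (nat_lit 290) (nat_lit 286) r1_290 r9_286 (nat_lit 0) (nat_lit 5449534) (nat_lit 0) (nat_lit 0x7ffe84c62) (nat_lit 1079452958),
  Rx.mk (nat_lit 365) (nat_lit 5) (nat_lit 5) (nat_lit 5) (nat_lit 7) (nat_lit 291) (nat_lit 287) r1_291 r9_287 (nat_lit 0) (nat_lit 0) (nat_lit 0) (nat_lit 0x80029938e) (nat_lit 1073741824),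
  Rx.mk (nat_lit 373) (nat_lit 5) (nat_lit 6) (nat_lit 5) (nat_lit 7) (nat_lit 292) (nat_lit 288) r1_292 r9_288 (nat_lit 0) (nat_lit 0) (nat_lit 0) (nat_lit 0x80029938e) (nat_lit 1073741824)]
noncomputable def e8_43 : List Rx := [
  Rx.mk (nat_lit 97) (nat_lit 1) (nat_lit 4) (nat_lit 1) (nat_lit 5) (nat_lit 278) (nat_lit 278) r1_278 r1_278 (nat_lit 0) (nat_lit 20008317) (nat_lit 0) (nat_lit 0x80950cd42) (nat_lit 1084429441),
  Rx.mk (nat_lit 105) (nat_lit 1) (nat_lit 5) (nat_lit 1) (nat_lit 7) (nat_lit 279) (nat_lit 279) r1_279 r1_279 (nat_lit 0) (nat_lit 0) (nat_lit 0) (nat_lit 0x80029938e) (nat_lit 1073741824)]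
noncomputable def e8_44 : List Rx := [
  Rx.mk (nat_lit 105) (nat_lit 1) (nat_lit 5) (nat_lit 1) (nat_lit 7) (nat_lit 286) (nat_lit 180) r1_286 r8_180 (nat_lit 0) (nat_lit 0) (nat_lit 0) (nat_lit 0x80029938e) (nat_lit 1073741824)]
noncomputable def e8_45 : List Rx := [
  Rx.mk (nat_lit 72) (nat_lit 0) (nat_lit 1) (nat_lit 1) (nat_lit 6) (nat_lit 272) (nat_lit 186) r1_272 r1_186 (nat_lit 6431130) (nat_lit 0) (nat_lit 0) (nat_lit 0x7f59dbdb4) (nat_lit 1091100554),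
  Rx.mk (nat_lit 104) (nat_lit 0) (nat_lit 5) (nat_lit 1) (nat_lit 6) (nat_lit 273) (nat_lit 185) r1_273 r1_185 (nat_lit 5632914) (nat_lit 0) (nat_lit 0) (nat_lit 0x80115033c) (nat_lit 1078429238)]
noncomputable def e8_46 : List Rx := [
  Rx.mk (nat_lit 8) (nat_lit 0) (nat_lit 1) (nat_lit 0) (nat_lit 2) (nat_lit 258) (nat_lit 183) r1_258 r2_183 (nat_lit 26800077) (nat_lit 0) (nat_lit 10122828) (nat_lit 0x5e3f5c5fe) (nat_lit 1673506229),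
  Rx.mk (nat_lit 72) (nat_lit 0) (nat_lit 1) (nat_lit 1) (nat_lit 6) (nat_lit 259) (nat_lit 184) r1_259 r2_184 (nat_lit 5449534) (nat_lit 0) (nat_lit 0) (nat_lit 0x80029938e) (nat_lit 1079191358),
  Rx.mk (nat_lit 136) (nat_lit 0) (nat_lit 1) (nat_lit 2) (nat_lit 6) (nat_lit 260) (nat_lit 185) r1_260 r2_185 (nat_lit 5449534) (nat_lit 0) (nat_lit 0) (nat_lit 0x80029938e) (nat_lit 1079191358),
  Rx.mk (nat_lit 138) (nat_lit 2) (nat_lit 1) (nat_lit 2) (nat_lit 7) (nat_lit 261) (nat_lit 186) r1_261 r2_186 (nat_lit 0) (nat_lit 0) (nat_lit 0) (nat_lit 0x80029938e) (nat_lit 1073741824)]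
noncomputable def e8_47 : List Rx := [
  Rx.mk (nat_lit 72) (nat_lit 0) (nat_lit 1) (nat_lit 1) (nat_lit 6) (nat_lit 274) (nat_lit 316) r1_274 r8_316 (nat_lit 5449534) (nat_lit 0) (nat_lit 0) (nat_lit 0x7ff85fa80) (nat_lit 1079847858),
  Rx.mk (nat_lit 73) (nat_lit 1) (nat_lit 1) (nat_lit 1) (nat_lit 7) (nat_lit 275) (nat_lit 317) r1_275 r8_317 (nat_lit 0) (nat_lit 0) (nat_lit 0) (nat_lit 0x80029938e) (nat_lit 1073741824),
  Rx.mk (nat_lit 104) (nat_lit 0) (nat_lit 5) (nat_lit 1) (nat_lit 6) (nat_lit 276) (nat_lit 318) r1_276 r8_318 (nat_lit 5449534) (nat_lit 0) (nat_lit 0) (nat_lit 0x7fe5be62e) (nat_lit 1081045658),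
  Rx.mk (nat_lit 105) (nat_lit 1) (nat_lit 5) (nat_lit 1) (nat_lit 7) (nat_lit 277) (nat_lit 319) r1_277 r8_319 (nat_lit 0) (nat_lit 0) (nat_lit 0) (nat_lit 0x800e1d8b8) (nat_lit 1073003524)]
noncomputable def e8_48 : List Rx := [
  Rx.mk (nat_lit 8) (nat_lit 0) (nat_lit 1) (nat_lit 0) (nat_lit 2) (nat_lit 262) (nat_lit 160) r1_262 r9_160 (nat_lit 7547362) (nat_lit 0) (nat_lit 19988923) (nat_lit 0x63fb2f9e8) (nat_lit 1568518609),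
  Rx.mk (nat_lit 9) (nat_lit 1) (nat_lit 1) (nat_lit 0) (nat_lit 3) (nat_lit 265) (nat_lit 163) r1_265 r9_163 (nat_lit 0) (nat_lit 0) (nat_lit 5465451) (nat_lit 0x80010992e) (nat_lit 1079307375),
  Rx.mk (nat_lit 72) (nat_lit 0) (nat_lit 1) (nat_lit 1) (nat_lit 6) (nat_lit 263) (nat_lit 161) r1_263 r9_161 (nat_lit 5449534) (nat_lit 0) (nat_lit 0) (nat_lit 0x80029938e) (nat_lit 1079191358),
  Rx.mk (nat_lit 73) (nat_lit 1) (nat_lit 1) (nat_lit 1) (nat_lit 7) (nat_lit 266) (nat_lit 164) r1_266 r9_164 (nat_lit 0) (nat_lit 0) (nat_lit 0) (nat_lit 0x80029938e) (nat_lit 1073741824),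
  Rx.mk (nat_lit 136) (nat_lit 0) (nat_lit 1) (nat_lit 2) (nat_lit 6) (nat_lit 264) (nat_lit 162) r1_264 r9_162 (nat_lit 5449534) (nat_lit 0) (nat_lit 0) (nat_lit 0x80029938e) (nat_lit 1079191358),
  Rx.mk (nat_lit 137) (nat_lit 1) (nat_lit 1) (nat_lit 2) (nat_lit 7) (nat_lit 267) (nat_lit 165) r1_267 r9_165 (nat_lit 0) (nat_lit 0) (nat_lit 0) (nat_lit 0x80029938e) (nat_lit 1073741824),
  Rx.mk (nat_lit 138) (nat_lit 2) (nat_lit 1) (nat_lit 2) (nat_lit 7) (nat_lit 268) (nat_lit 166) r1_268 r9_166 (nat_lit 0) (nat_lit 0) (nat_lit 0) (nat_lit 0x80029938e) (nat_lit 1073741824)]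
noncomputable def e8_49 : List Rx := [
  Rx.mk (nat_lit 8) (nat_lit 0) (nat_lit 1) (nat_lit 0) (nat_lit 2) (nat_lit 269) (nat_lit 83) r1_269 r9_83 (nat_lit 83686084) (nat_lit 0) (nat_lit 6516784) (nat_lit 0x6eb511780) (nat_lit 1452352692),
  Rx.mk (nat_lit 136) (nat_lit 0) (nat_lit 1) (nat_lit 2) (nat_lit 6) (nat_lit 270) (nat_lit 84) r1_270 r9_84 (nat_lit 5449534) (nat_lit 0) (nat_lit 0) (nat_lit 0x80029938e) (nat_lit 1079191358),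
  Rx.mk (nat_lit 138) (nat_lit 2) (nat_lit 1) (nat_lit 2) (nat_lit 7) (nat_lit 271) (nat_lit 85) r1_271 r9_85 (nat_lit 0) (nat_lit 0) (nat_lit 0) (nat_lit 0x80029938e) (nat_lit 1073741824)]
noncomputable def e8_50 : List Rx := [
  Rx.mk (nat_lit 96) (nat_lit 0) (nat_lit 4) (nat_lit 1) (nat_lit 4) (nat_lit 293) (nat_lit 151) r1_293 r3_151 (nat_lit 1652) (nat_lit 1125) (nat_lit 0) (nat_lit 0x8000c7dda) (nat_lit 1073695601),
  Rx.mk (nat_lit 99) (nat_lit 3) (nat_lit 4) (nat_lit 1) (nat_lit 5) (nat_lit 294) (nat_lit 153) r1_294 r3_153 (nat_lit 0) (nat_lit 1915450) (nat_lit 0) (nat_lit 0x86d50b64a) (nat_lit 965236374),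
  Rx.mk (nat_lit 104) (nat_lit 0) (nat_lit 5) (nat_lit 1) (nat_lit 6) (nat_lit 295) (nat_lit 152) r1_295 r3_152 (nat_lit 10154) (nat_lit 0) (nat_lit 0) (nat_lit 0x7fdc5d4a4) (nat_lit 1076074678),
  Rx.mk (nat_lit 107) (nat_lit 3) (nat_lit 5) (nat_lit 1) (nat_lit 7) (nat_lit 296) (nat_lit 154) r1_296 r3_154 (nat_lit 0) (nat_lit 0) (nat_lit 0) (nat_lit 0x99fe8fe40) (nat_lit 653462024)]
noncomputable def e8_51 : List Rx := [
  Rx.mk (nat_lit 104) (nat_lit 0) (nat_lit 5) (nat_lit 1) (nat_lit 6) (nat_lit 305) (nat_lit 159) r1_305 r4_159 (nat_lit 4876673) (nat_lit 0) (nat_lit 0) (nat_lit 0x80153f8c6) (nat_lit 1077419097),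
  Rx.mk (nat_lit 107) (nat_lit 3) (nat_lit 5) (nat_lit 1) (nat_lit 7) (nat_lit 306) (nat_lit 160) r1_306 r4_160 (nat_lit 0) (nat_lit 0) (nat_lit 0) (nat_lit 0x802b28bc4) (nat_lit 1071147124)]
noncomputable def e8_52 : List Rx := [
  Rx.mk (nat_lit 96) (nat_lit 0) (nat_lit 4) (nat_lit 1) (nat_lit 4) (nat_lit 311) (nat_lit 164) r1_311 r5_164 (nat_lit 4362951) (nat_lit 89993226) (nat_lit 0) (nat_lit 0x7894e6d52) (nat_lit 1291869601),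
  Rx.mk (nat_lit 99) (nat_lit 3) (nat_lit 4) (nat_lit 1) (nat_lit 5) (nat_lit 312) (nat_lit 167) r1_312 r5_167 (nat_lit 0) (nat_lit 3039288) (nat_lit 0) (nat_lit 0x80c38d252) (nat_lit 1064522612),
  Rx.mk (nat_lit 104) (nat_lit 0) (nat_lit 5) (nat_lit 1) (nat_lit 6) (nat_lit 313) (nat_lit 165) r1_313 r5_165 (nat_lit 3697266) (nat_lit 0) (nat_lit 0) (nat_lit 0x803df29c6) (nat_lit 1073649890),
  Rx.mk (nat_lit 107) (nat_lit 3) (nat_lit 5) (nat_lit 1) (nat_lit 7) (nat_lit 314) (nat_lit 168) r1_314 r5_168 (nat_lit 0) (nat_lit 0) (nat_lit 0) (nat_lit 0x80299d296) (nat_lit 1071247324),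
  Rx.mk (nat_lit 120) (nat_lit 0) (nat_lit 7) (nat_lit 1) (nat_lit 6) (nat_lit 315) (nat_lit 166) r1_315 r5_166 (nat_lit 1434760) (nat_lit 0) (nat_lit 0) (nat_lit 0x8012c14dc) (nat_lit 1074124184)]
noncomputable def e8_53 : List Rx := [
  Rx.mk (nat_lit 96) (nat_lit 0) (nat_lit 4) (nat_lit 1) (nat_lit 4) (nat_lit 297) (nat_lit 293) r1_297 r4_293 (nat_lit 5098899) (nat_lit 227840882) (nat_lit 0) (nat_lit 0x7551b3222) (nat_lit 1484851905),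
  Rx.mk (nat_lit 97) (nat_lit 1) (nat_lit 4) (nat_lit 1) (nat_lit 5) (nat_lit 298) (nat_lit 294) r1_298 r4_294 (nat_lit 0) (nat_lit 239917945) (nat_lit 0) (nat_lit 0x7f5e8ef50) (nat_lit 1324257369),
  Rx.mk (nat_lit 99) (nat_lit 3) (nat_lit 4) (nat_lit 1) (nat_lit 5) (nat_lit 299) (nat_lit 295) r1_299 r4_295 (nat_lit 0) (nat_lit 5727388) (nat_lit 0) (nat_lit 0x801c5e8a0) (nat_lit 1077818112),
  Rx.mk (nat_lit 104) (nat_lit 0) (nat_lit 5) (nat_lit 1) (nat_lit 6) (nat_lit 300) (nat_lit 296) r1_300 r4_296 (nat_lit 4793271) (nat_lit 0) (nat_lit 0) (nat_lit 0x7fffe83ba) (nat_lit 1078705595),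
  Rx.mk (nat_lit 105) (nat_lit 1) (nat_lit 5) (nat_lit 1) (nat_lit 7) (nat_lit 301) (nat_lit 297) r1_301 r4_297 (nat_lit 0) (nat_lit 0) (nat_lit 0) (nat_lit 0x80265157e) (nat_lit 1071456124),
  Rx.mk (nat_lit 107) (nat_lit 3) (nat_lit 5) (nat_lit 1) (nat_lit 7) (nat_lit 302) (nat_lit 298) r1_302 r4_298 (nat_lit 0) (nat_lit 0) (nat_lit 0) (nat_lit 0x80107341e) (nat_lit 1072853724)]
noncomputable def e8_54 : List Rx := [
  Rx.mk (nat_lit 104) (nat_lit 0) (nat_lit 5) (nat_lit 1) (nat_lit 6) (nat_lit 307) (nat_lit 172) r1_307 r10_172 (nat_lit 5449534) (nat_lit 0) (nat_lit 0) (nat_lit 0x7f87d2d1c) (nat_lit 1087130658),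
  Rx.mk (nat_lit 105) (nat_lit 1) (nat_lit 5) (nat_lit 1) (nat_lit 7) (nat_lit 308) (nat_lit 173) r1_308 r10_173 (nat_lit 0) (nat_lit 0) (nat_lit 0) (nat_lit 0x80029938e) (nat_lit 1073741824),
  Rx.mk (nat_lit 107) (nat_lit 3) (nat_lit 5) (nat_lit 1) (nat_lit 7) (nat_lit 309) (nat_lit 174) r1_309 r10_174 (nat_lit 0) (nat_lit 0) (nat_lit 0) (nat_lit 0x80029938e) (nat_lit 1073741824)]
noncomputable def e8_55 : List Rx := [
  Rx.mk (nat_lit 96) (nat_lit 0) (nat_lit 4) (nat_lit 1) (nat_lit 4) (nat_lit 316) (nat_lit 183) r1_316 r11_183 (nat_lit 8821660) (nat_lit 234072587) (nat_lit 0) (nat_lit 0x7aeb624b8) (nat_lit 1401431171),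
  Rx.mk (nat_lit 97) (nat_lit 1) (nat_lit 4) (nat_lit 1) (nat_lit 5) (nat_lit 317) (nat_lit 186) r1_317 r11_186 (nat_lit 0) (nat_lit 10371928) (nat_lit 0) (nat_lit 0x7fad0bc00) (nat_lit 1089630552),
  Rx.mk (nat_lit 99) (nat_lit 3) (nat_lit 4) (nat_lit 1) (nat_lit 5) (nat_lit 318) (nat_lit 189) r1_318 r11_189 (nat_lit 0) (nat_lit 5657793) (nat_lit 0) (nat_lit 0x7fff429ec) (nat_lit 1079613617),
  Rx.mk (nat_lit 104) (nat_lit 0) (nat_lit 5) (nat_lit 1) (nat_lit 6) (nat_lit 319) (nat_lit 184) r1_319 r11_184 (nat_lit 5449534) (nat_lit 0) (nat_lit 0) (nat_lit 0x80029938e) (nat_lit 1079191358),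
  Rx.mk (nat_lit 105) (nat_lit 1) (nat_lit 5) (nat_lit 1) (nat_lit 7) (nat_lit 320) (nat_lit 187) r1_320 r11_187 (nat_lit 0) (nat_lit 0) (nat_lit 0) (nat_lit 0x80029938e) (nat_lit 1073741824),
  Rx.mk (nat_lit 107) (nat_lit 3) (nat_lit 5) (nat_lit 1) (nat_lit 7) (nat_lit 321) (nat_lit 190) r1_321 r11_190 (nat_lit 0) (nat_lit 0) (nat_lit 0) (nat_lit 0x80029938e) (nat_lit 1073741824),
  Rx.mk (nat_lit 120) (nat_lit 0) (nat_lit 7) (nat_lit 1) (nat_lit 6) (nat_lit 322) (nat_lit 185) r1_322 r11_185 (nat_lit 5364616) (nat_lit 0) (nat_lit 0) (nat_lit 0x7ffcc177c) (nat_lit 1079481040),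
  Rx.mk (nat_lit 121) (nat_lit 1) (nat_lit 7) (nat_lit 1) (nat_lit 7) (nat_lit 323) (nat_lit 188) r1_323 r11_188 (nat_lit 0) (nat_lit 0) (nat_lit 0) (nat_lit 0x807a04fb8) (nat_lit 1066138524)]
noncomputable def e8_56 : List Rx := [
  Rx.mk (nat_lit 99) (nat_lit 3) (nat_lit 4) (nat_lit 1) (nat_lit 5) (nat_lit 303) (nat_lit 273) r1_303 r5_273 (nat_lit 0) (nat_lit 2861806) (nat_lit 0) (nat_lit 0x81272a2b0) (nat_lit 1058046730),
  Rx.mk (nat_lit 107) (nat_lit 3) (nat_lit 5) (nat_lit 1) (nat_lit 7) (nat_lit 304) (nat_lit 274) r1_304 r5_274 (nat_lit 0) (nat_lit 0) (nat_lit 0) (nat_lit 0x8ca337b4a) (nat_lit 869461024)]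
noncomputable def e8_57 : List Rx := [
  Rx.mk (nat_lit 107) (nat_lit 3) (nat_lit 5) (nat_lit 1) (nat_lit 7) (nat_lit 310) (nat_lit 338) r1_310 r11_338 (nat_lit 0) (nat_lit 0) (nat_lit 0) (nat_lit 0x80029938e) (nat_lit 1073741824)]
noncomputable def e8 : List (List Rx) := [e8_0, e8_1, e8_2, e8_3, e8_4, e8_5, e8_6, e8_7, e8_8, e8_9, e8_10, e8_11, e8_12, e8_13, e8_14, e8_15, e8_16, e8_17, e8_18, e8_19, e8_20, e8_21, e8_22, e8_23, e8_24, e8_25, e8_26, e8_27, e8_28, e8_29, e8_30, e8_31, e8_32, e8_33, e8_34, e8_35, e8_36, e8_37, e8_38, e8_39, e8_40, e8_41, e8_42, e8_43, e8_44, e8_45, e8_46, e8_47, e8_48, e8_49, e8_50, e8_51, e8_52, e8_53, e8_54, e8_55, e8_56, e8_57]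
noncomputable def e9_0 : List Rx := [
  Rx.mk (nat_lit 116) (nat_lit 4) (nat_lit 6) (nat_lit 1) (nat_lit 6) (nat_lit 68) (nat_lit 79) r4_68 r0_79 (nat_lit 1845209) (nat_lit 0) (nat_lit 0) (nat_lit 0x6d5c42330) (nat_lit 1386432233),
  Rx.mk (nat_lit 372) (nat_lit 4) (nat_lit 6) (nat_lit 5) (nat_lit 6) (nat_lit 69) (nat_lit 80) r4_69 r0_80 (nat_lit 2927812) (nat_lit 0) (nat_lit 0) (nat_lit 0x7f9b05e02) (nat_lit 1083361236),
  Rx.mk (nat_lit 375) (nat_lit 7) (nat_lit 6) (nat_lit 5) (nat_lit 7) (nat_lit 70) (nat_lit 81) r4_70 r0_81 (nat_lit 0) (nat_lit 0) (nat_lit 0) (nat_lit 0x7fdf910da) (nat_lit 1075963024)]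
noncomputable def e9_1 : List Rx := [
  Rx.mk (nat_lit 372) (nat_lit 4) (nat_lit 6) (nat_lit 5) (nat_lit 6) (nat_lit 71) (nat_lit 85) r4_71 r1_85 (nat_lit 3320491) (nat_lit 0) (nat_lit 0) (nat_lit 0x800fb1fc6) (nat_lit 1076215615),
  Rx.mk (nat_lit 374) (nat_lit 6) (nat_lit 6) (nat_lit 5) (nat_lit 7) (nat_lit 72) (nat_lit 87) r4_72 r1_87 (nat_lit 0) (nat_lit 0) (nat_lit 0) (nat_lit 0x805852a1e) (nat_lit 1068275824),
  Rx.mk (nat_lit 375) (nat_lit 7) (nat_lit 6) (nat_lit 5) (nat_lit 7) (nat_lit 73) (nat_lit 86) r4_73 r1_86 (nat_lit 0) (nat_lit 0) (nat_lit 0) (nat_lit 0x85e8fa242) (nat_lit 978250424)]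
noncomputable def e9_2 : List Rx := [
  Rx.mk (nat_lit 278) (nat_lit 6) (nat_lit 2) (nat_lit 4) (nat_lit 3) (nat_lit 21) (nat_lit 89) r4_21 r2_89 (nat_lit 0) (nat_lit 0) (nat_lit 3660100) (nat_lit 0x8028ab1a8) (nat_lit 1074969124),
  Rx.mk (nat_lit 308) (nat_lit 4) (nat_lit 6) (nat_lit 4) (nat_lit 2) (nat_lit 24) (nat_lit 84) r4_24 r2_84 (nat_lit 5168713) (nat_lit 0) (nat_lit 2064465) (nat_lit 0x73a0c98a4) (nat_lit 1287332102),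
  Rx.mk (nat_lit 310) (nat_lit 6) (nat_lit 6) (nat_lit 4) (nat_lit 3) (nat_lit 26) (nat_lit 92) r4_26 r2_92 (nat_lit 0) (nat_lit 0) (nat_lit 3829066) (nat_lit 0x8024942a4) (nat_lit 1075399190),
  Rx.mk (nat_lit 311) (nat_lit 7) (nat_lit 6) (nat_lit 4) (nat_lit 3) (nat_lit 28) (nat_lit 86) r4_28 r2_86 (nat_lit 0) (nat_lit 0) (nat_lit 981855) (nat_lit 0x81f2f3770) (nat_lit 1043286379),
  Rx.mk (nat_lit 342) (nat_lit 6) (nat_lit 2) (nat_lit 5) (nat_lit 7) (nat_lit 22) (nat_lit 90) r4_22 r2_90 (nat_lit 0) (nat_lit 0) (nat_lit 0) (nat_lit 0x80029938e) (nat_lit 1073741824),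
  Rx.mk (nat_lit 372) (nat_lit 4) (nat_lit 6) (nat_lit 5) (nat_lit 6) (nat_lit 25) (nat_lit 85) r4_25 r2_85 (nat_lit 5449534) (nat_lit 0) (nat_lit 0) (nat_lit 0x8013ee13e) (nat_lit 1078081258),
  Rx.mk (nat_lit 374) (nat_lit 6) (nat_lit 6) (nat_lit 5) (nat_lit 7) (nat_lit 27) (nat_lit 93) r4_27 r2_93 (nat_lit 0) (nat_lit 0) (nat_lit 0) (nat_lit 0x80029938e) (nat_lit 1073741824),
  Rx.mk (nat_lit 375) (nat_lit 7) (nat_lit 6) (nat_lit 5) (nat_lit 7) (nat_lit 29) (nat_lit 87) r4_29 r2_87 (nat_lit 0) (nat_lit 0) (nat_lit 0) (nat_lit 0x80b67c950) (nat_lit 1062312624),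
  Rx.mk (nat_lit 406) (nat_lit 6) (nat_lit 2) (nat_lit 6) (nat_lit 7) (nat_lit 23) (nat_lit 91) r4_23 r2_91 (nat_lit 0) (nat_lit 0) (nat_lit 0) (nat_lit 0x80029938e) (nat_lit 1073741824),
  Rx.mk (nat_lit 503) (nat_lit 7) (nat_lit 6) (nat_lit 7) (nat_lit 7) (nat_lit 30) (nat_lit 88) r4_30 r2_88 (nat_lit 0) (nat_lit 0) (nat_lit 0) (nat_lit 0x80a87cb7a) (nat_lit 1063197724)]
noncomputable def e9_3 : List Rx := [
  Rx.mk (nat_lit 103) (nat_lit 7) (nat_lit 4) (nat_lit 1) (nat_lit 5) (nat_lit 65) (nat_lit 72) r4_65 r3_72 (nat_lit 0) (nat_lit 5075) (nat_lit 0) (nat_lit 0x7fff94c6a) (nat_lit 1073774799),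
  Rx.mk (nat_lit 116) (nat_lit 4) (nat_lit 6) (nat_lit 1) (nat_lit 6) (nat_lit 66) (nat_lit 71) r4_66 r3_71 (nat_lit 59693) (nat_lit 0) (nat_lit 0) (nat_lit 0x82d304170) (nat_lit 1028137517),
  Rx.mk (nat_lit 119) (nat_lit 7) (nat_lit 6) (nat_lit 1) (nat_lit 7) (nat_lit 67) (nat_lit 73) r4_67 r3_73 (nat_lit 0) (nat_lit 0) (nat_lit 0) (nat_lit 0x81c174334) (nat_lit 1045360024)]
noncomputable def e9_4 : List Rx := [
  Rx.mk (nat_lit 103) (nat_lit 7) (nat_lit 4) (nat_lit 1) (nat_lit 5) (nat_lit 74) (nat_lit 75) r4_74 r4_75 (nat_lit 0) (nat_lit 3555733) (nat_lit 0) (nat_lit 0x7fb0de184) (nat_lit 1082569857),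
  Rx.mk (nat_lit 116) (nat_lit 4) (nat_lit 6) (nat_lit 1) (nat_lit 6) (nat_lit 75) (nat_lit 74) r4_75 r4_74 (nat_lit 3555733) (nat_lit 0) (nat_lit 0) (nat_lit 0x7fb0de184) (nat_lit 1082569857),
  Rx.mk (nat_lit 119) (nat_lit 7) (nat_lit 6) (nat_lit 1) (nat_lit 7) (nat_lit 76) (nat_lit 76) r4_76 r4_76 (nat_lit 0) (nat_lit 0) (nat_lit 0) (nat_lit 0x8003ab678) (nat_lit 1073517324),
  Rx.mk (nat_lit 375) (nat_lit 7) (nat_lit 6) (nat_lit 5) (nat_lit 7) (nat_lit 77) (nat_lit 77) r4_77 r4_77 (nat_lit 0) (nat_lit 0) (nat_lit 0) (nat_lit 0x8074beab8) (nat_lit 1066472324)]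
noncomputable def e9_5 : List Rx := [
  Rx.mk (nat_lit 103) (nat_lit 7) (nat_lit 4) (nat_lit 1) (nat_lit 5) (nat_lit 89) (nat_lit 67) r4_89 r5_67 (nat_lit 0) (nat_lit 1849300) (nat_lit 0) (nat_lit 0x80a4c2070) (nat_lit 1065275624),
  Rx.mk (nat_lit 116) (nat_lit 4) (nat_lit 6) (nat_lit 1) (nat_lit 6) (nat_lit 90) (nat_lit 66) r4_90 r5_66 (nat_lit 2225241) (nat_lit 0) (nat_lit 0) (nat_lit 0x82f6d0388) (nat_lit 1028114265),
  Rx.mk (nat_lit 119) (nat_lit 7) (nat_lit 6) (nat_lit 1) (nat_lit 7) (nat_lit 91) (nat_lit 69) r4_91 r5_69 (nat_lit 0) (nat_lit 0) (nat_lit 0) (nat_lit 0x882e63412) (nat_lit 941518924),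
  Rx.mk (nat_lit 127) (nat_lit 7) (nat_lit 7) (nat_lit 1) (nat_lit 7) (nat_lit 92) (nat_lit 68) r4_92 r5_68 (nat_lit 0) (nat_lit 0) (nat_lit 0) (nat_lit 0x8060f33a8) (nat_lit 1067721724)]
noncomputable def e9_6 : List Rx := [
  Rx.mk (nat_lit 59) (nat_lit 3) (nat_lit 7) (nat_lit 0) (nat_lit 3) (nat_lit 36) (nat_lit 43) r4_36 r3_43 (nat_lit 0) (nat_lit 0) (nat_lit 151565) (nat_lit 0x843c2e92e) (nat_lit 1005447389),
  Rx.mk (nat_lit 152) (nat_lit 0) (nat_lit 3) (nat_lit 2) (nat_lit 6) (nat_lit 31) (nat_lit 47) r4_31 r3_47 (nat_lit 3571) (nat_lit 0) (nat_lit 0) (nat_lit 0x7fff6bf5e) (nat_lit 1073783595),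
  Rx.mk (nat_lit 154) (nat_lit 2) (nat_lit 3) (nat_lit 2) (nat_lit 7) (nat_lit 32) (nat_lit 49) r4_32 r3_49 (nat_lit 0) (nat_lit 0) (nat_lit 0) (nat_lit 0x7f80ef3ba) (nat_lit 1082118624),
  Rx.mk (nat_lit 155) (nat_lit 3) (nat_lit 3) (nat_lit 2) (nat_lit 7) (nat_lit 33) (nat_lit 48) r4_33 r3_48 (nat_lit 0) (nat_lit 0) (nat_lit 0) (nat_lit 0x8282ead92) (nat_lit 1033219524),
  Rx.mk (nat_lit 187) (nat_lit 3) (nat_lit 7) (nat_lit 2) (nat_lit 7) (nat_lit 37) (nat_lit 45) r4_37 r3_45 (nat_lit 0) (nat_lit 0) (nat_lit 0) (nat_lit 0x81e6b91f8) (nat_lit 1043074824),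
  Rx.mk (nat_lit 231) (nat_lit 7) (nat_lit 4) (nat_lit 3) (nat_lit 5) (nat_lit 34) (nat_lit 41) r4_34 r3_41 (nat_lit 0) (nat_lit 186832) (nat_lit 0) (nat_lit 0x8110cd21a) (nat_lit 1056746256),
  Rx.mk (nat_lit 247) (nat_lit 7) (nat_lit 6) (nat_lit 3) (nat_lit 7) (nat_lit 35) (nat_lit 46) r4_35 r3_46 (nat_lit 0) (nat_lit 0) (nat_lit 0) (nat_lit 0x803c763ae) (nat_lit 1069944524),
  Rx.mk (nat_lit 251) (nat_lit 3) (nat_lit 7) (nat_lit 3) (nat_lit 7) (nat_lit 38) (nat_lit 44) r4_38 r3_44 (nat_lit 0) (nat_lit 0) (nat_lit 0) (nat_lit 0x8037a5636) (nat_lit 1070353724),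
  Rx.mk (nat_lit 255) (nat_lit 7) (nat_lit 7) (nat_lit 3) (nat_lit 7) (nat_lit 39) (nat_lit 42) r4_39 r3_42 (nat_lit 0) (nat_lit 0) (nat_lit 0) (nat_lit 0x800d34d52) (nat_lit 1073056924)]
noncomputable def e9_7 : List Rx := [
  Rx.mk (nat_lit 130) (nat_lit 2) (nat_lit 0) (nat_lit 2) (nat_lit 5) (nat_lit 0) (nat_lit 58) r4_0 r0_58 (nat_lit 0) (nat_lit 1489124) (nat_lit 0) (nat_lit 0x6dffcb254) (nat_lit 1375427948),
  Rx.mk (nat_lit 152) (nat_lit 0) (nat_lit 3) (nat_lit 2) (nat_lit 6) (nat_lit 5) (nat_lit 59) r4_5 r0_59 (nat_lit 89886997) (nat_lit 0) (nat_lit 0) (nat_lit 0x7c8a3bb06) (nat_lit 1221401321),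
  Rx.mk (nat_lit 154) (nat_lit 2) (nat_lit 3) (nat_lit 2) (nat_lit 7) (nat_lit 6) (nat_lit 61) r4_6 r0_61 (nat_lit 0) (nat_lit 0) (nat_lit 0) (nat_lit 0x7ff4a1d08) (nat_lit 1074622024),
  Rx.mk (nat_lit 155) (nat_lit 3) (nat_lit 3) (nat_lit 2) (nat_lit 7) (nat_lit 7) (nat_lit 60) r4_7 r0_60 (nat_lit 0) (nat_lit 0) (nat_lit 0) (nat_lit 0x7fe2c17aa) (nat_lit 1075787224),
  Rx.mk (nat_lit 278) (nat_lit 6) (nat_lit 2) (nat_lit 4) (nat_lit 3) (nat_lit 3) (nat_lit 62) r4_3 r0_62 (nat_lit 0) (nat_lit 0) (nat_lit 2627169) (nat_lit 0x8020258c6) (nat_lit 1074474693),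
  Rx.mk (nat_lit 308) (nat_lit 4) (nat_lit 6) (nat_lit 4) (nat_lit 2) (nat_lit 8) (nat_lit 52) r4_8 r0_52 (nat_lit 24902759) (nat_lit 0) (nat_lit 1880334) (nat_lit 0x65a2917c6) (nat_lit 1540179317),
  Rx.mk (nat_lit 310) (nat_lit 6) (nat_lit 6) (nat_lit 4) (nat_lit 3) (nat_lit 10) (nat_lit 55) r4_10 r0_55 (nat_lit 0) (nat_lit 0) (nat_lit 2516625) (nat_lit 0x7f8893454) (nat_lit 1084144949),
  Rx.mk (nat_lit 386) (nat_lit 2) (nat_lit 0) (nat_lit 6) (nat_lit 5) (nat_lit 1) (nat_lit 57) r4_1 r0_57 (nat_lit 0) (nat_lit 2745228) (nat_lit 0) (nat_lit 0x7f3da6c7a) (nat_lit 1089236952),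
  Rx.mk (nat_lit 402) (nat_lit 2) (nat_lit 2) (nat_lit 6) (nat_lit 7) (nat_lit 2) (nat_lit 64) r4_2 r0_64 (nat_lit 0) (nat_lit 0) (nat_lit 0) (nat_lit 0x805002b84) (nat_lit 1068799624),
  Rx.mk (nat_lit 406) (nat_lit 6) (nat_lit 2) (nat_lit 6) (nat_lit 7) (nat_lit 4) (nat_lit 63) r4_4 r0_63 (nat_lit 0) (nat_lit 0) (nat_lit 0) (nat_lit 0x803b1537a) (nat_lit 1070132924),
  Rx.mk (nat_lit 500) (nat_lit 4) (nat_lit 6) (nat_lit 7) (nat_lit 6) (nat_lit 9) (nat_lit 53) r4_9 r0_53 (nat_lit 8072366) (nat_lit 0) (nat_lit 0) (nat_lit 0x752013154) (nat_lit 1263210890),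
  Rx.mk (nat_lit 502) (nat_lit 6) (nat_lit 6) (nat_lit 7) (nat_lit 7) (nat_lit 11) (nat_lit 56) r4_11 r0_56 (nat_lit 0) (nat_lit 0) (nat_lit 0) (nat_lit 0x803412cb2) (nat_lit 1070579024),
  Rx.mk (nat_lit 503) (nat_lit 7) (nat_lit 6) (nat_lit 7) (nat_lit 7) (nat_lit 12) (nat_lit 54) r4_12 r0_54 (nat_lit 0) (nat_lit 0) (nat_lit 0) (nat_lit 0x7b2096062) (nat_lit 1155059824)]
noncomputable def e9_8 : List Rx := [
  Rx.mk (nat_lit 278) (nat_lit 6) (nat_lit 2) (nat_lit 4) (nat_lit 3) (nat_lit 14) (nat_lit 55) r4_14 r1_55 (nat_lit 0) (nat_lit 0) (nat_lit 2626510) (nat_lit 0x8035143e0) (nat_lit 1073140434),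
  Rx.mk (nat_lit 308) (nat_lit 4) (nat_lit 6) (nat_lit 4) (nat_lit 2) (nat_lit 16) (nat_lit 50) r4_16 r1_50 (nat_lit 79097561) (nat_lit 0) (nat_lit 2062902) (nat_lit 0x6ccb7681a) (nat_lit 1475199687),
  Rx.mk (nat_lit 310) (nat_lit 6) (nat_lit 6) (nat_lit 4) (nat_lit 3) (nat_lit 18) (nat_lit 53) r4_18 r1_53 (nat_lit 0) (nat_lit 0) (nat_lit 2991468) (nat_lit 0x7deccd1a6) (nat_lit 1111434092),
  Rx.mk (nat_lit 402) (nat_lit 2) (nat_lit 2) (nat_lit 6) (nat_lit 7) (nat_lit 13) (nat_lit 57) r4_13 r1_57 (nat_lit 0) (nat_lit 0) (nat_lit 0) (nat_lit 0x804a16bda) (nat_lit 1069179124),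
  Rx.mk (nat_lit 406) (nat_lit 6) (nat_lit 2) (nat_lit 6) (nat_lit 7) (nat_lit 15) (nat_lit 56) r4_15 r1_56 (nat_lit 0) (nat_lit 0) (nat_lit 0) (nat_lit 0x803369e32) (nat_lit 1070621424),
  Rx.mk (nat_lit 500) (nat_lit 4) (nat_lit 6) (nat_lit 7) (nat_lit 6) (nat_lit 17) (nat_lit 51) r4_17 r1_51 (nat_lit 4988897) (nat_lit 0) (nat_lit 0) (nat_lit 0x801b824ae) (nat_lit 1077133921),
  Rx.mk (nat_lit 502) (nat_lit 6) (nat_lit 6) (nat_lit 7) (nat_lit 7) (nat_lit 19) (nat_lit 54) r4_19 r1_54 (nat_lit 0) (nat_lit 0) (nat_lit 0) (nat_lit 0x80272dc18) (nat_lit 1071401024),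
  Rx.mk (nat_lit 503) (nat_lit 7) (nat_lit 6) (nat_lit 7) (nat_lit 7) (nat_lit 20) (nat_lit 52) r4_20 r1_52 (nat_lit 0) (nat_lit 0) (nat_lit 0) (nat_lit 0x8103de856) (nat_lit 1057413024)]
noncomputable def e9_9 : List Rx := [
  Rx.mk (nat_lit 59) (nat_lit 3) (nat_lit 7) (nat_lit 0) (nat_lit 3) (nat_lit 54) (nat_lit 42) r4_54 r4_42 (nat_lit 0) (nat_lit 0) (nat_lit 23486) (nat_lit 0x766a4ef24) (nat_lit 1233579710),
  Rx.mk (nat_lit 152) (nat_lit 0) (nat_lit 3) (nat_lit 2) (nat_lit 6) (nat_lit 45) (nat_lit 50) r4_45 r4_50 (nat_lit 21733) (nat_lit 0) (nat_lit 0) (nat_lit 0x7fff1a7d0) (nat_lit 1073835357),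
  Rx.mk (nat_lit 154) (nat_lit 2) (nat_lit 3) (nat_lit 2) (nat_lit 7) (nat_lit 46) (nat_lit 53) r4_46 r4_53 (nat_lit 0) (nat_lit 0) (nat_lit 0) (nat_lit 0x7f66279a6) (nat_lit 1083762224),
  Rx.mk (nat_lit 155) (nat_lit 3) (nat_lit 3) (nat_lit 2) (nat_lit 7) (nat_lit 48) (nat_lit 51) r4_48 r4_51 (nat_lit 0) (nat_lit 0) (nat_lit 0) (nat_lit 0x844216012) (nat_lit 1004967124),
  Rx.mk (nat_lit 187) (nat_lit 3) (nat_lit 7) (nat_lit 2) (nat_lit 7) (nat_lit 55) (nat_lit 44) r4_55 r4_44 (nat_lit 0) (nat_lit 0) (nat_lit 0) (nat_lit 0x814099502) (nat_lit 1053574924),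
  Rx.mk (nat_lit 231) (nat_lit 7) (nat_lit 4) (nat_lit 3) (nat_lit 5) (nat_lit 49) (nat_lit 40) r4_49 r4_40 (nat_lit 0) (nat_lit 43884) (nat_lit 0) (nat_lit 0x7fefce93e) (nat_lit 1074858208),
  Rx.mk (nat_lit 247) (nat_lit 7) (nat_lit 6) (nat_lit 3) (nat_lit 7) (nat_lit 52) (nat_lit 47) r4_52 r4_47 (nat_lit 0) (nat_lit 0) (nat_lit 0) (nat_lit 0x80a3e2470) (nat_lit 1063484624),
  Rx.mk (nat_lit 251) (nat_lit 3) (nat_lit 7) (nat_lit 3) (nat_lit 7) (nat_lit 56) (nat_lit 43) r4_56 r4_43 (nat_lit 0) (nat_lit 0) (nat_lit 0) (nat_lit 0x8117b8e3a) (nat_lit 1056161724),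
  Rx.mk (nat_lit 255) (nat_lit 7) (nat_lit 7) (nat_lit 3) (nat_lit 7) (nat_lit 57) (nat_lit 41) r4_57 r4_41 (nat_lit 0) (nat_lit 0) (nat_lit 0) (nat_lit 0x8339ce3ce) (nat_lit 1021658324),
  Rx.mk (nat_lit 278) (nat_lit 6) (nat_lit 2) (nat_lit 4) (nat_lit 3) (nat_lit 42) (nat_lit 54) r4_42 r4_54 (nat_lit 0) (nat_lit 0) (nat_lit 23486) (nat_lit 0x766a4ef24) (nat_lit 1233579710),
  Rx.mk (nat_lit 386) (nat_lit 2) (nat_lit 0) (nat_lit 6) (nat_lit 5) (nat_lit 40) (nat_lit 49) r4_40 r4_49 (nat_lit 0) (nat_lit 43884) (nat_lit 0) (nat_lit 0x7fefce93e) (nat_lit 1074858208),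
  Rx.mk (nat_lit 402) (nat_lit 2) (nat_lit 2) (nat_lit 6) (nat_lit 7) (nat_lit 41) (nat_lit 57) r4_41 r4_57 (nat_lit 0) (nat_lit 0) (nat_lit 0) (nat_lit 0x8339ce3ce) (nat_lit 1021658324),
  Rx.mk (nat_lit 406) (nat_lit 6) (nat_lit 2) (nat_lit 6) (nat_lit 7) (nat_lit 43) (nat_lit 56) r4_43 r4_56 (nat_lit 0) (nat_lit 0) (nat_lit 0) (nat_lit 0x8117b8e3a) (nat_lit 1056161724),
  Rx.mk (nat_lit 410) (nat_lit 2) (nat_lit 3) (nat_lit 6) (nat_lit 7) (nat_lit 47) (nat_lit 52) r4_47 r4_52 (nat_lit 0) (nat_lit 0) (nat_lit 0) (nat_lit 0x80a3e2470) (nat_lit 1063484624),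
  Rx.mk (nat_lit 470) (nat_lit 6) (nat_lit 2) (nat_lit 7) (nat_lit 7) (nat_lit 44) (nat_lit 55) r4_44 r4_55 (nat_lit 0) (nat_lit 0) (nat_lit 0) (nat_lit 0x814099502) (nat_lit 1053574924),
  Rx.mk (nat_lit 500) (nat_lit 4) (nat_lit 6) (nat_lit 7) (nat_lit 6) (nat_lit 50) (nat_lit 45) r4_50 r4_45 (nat_lit 21733) (nat_lit 0) (nat_lit 0) (nat_lit 0x7fff1a7d0) (nat_lit 1073835357),
  Rx.mk (nat_lit 502) (nat_lit 6) (nat_lit 6) (nat_lit 7) (nat_lit 7) (nat_lit 51) (nat_lit 48) r4_51 r4_48 (nat_lit 0) (nat_lit 0) (nat_lit 0) (nat_lit 0x844216012) (nat_lit 1004967124),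
  Rx.mk (nat_lit 503) (nat_lit 7) (nat_lit 6) (nat_lit 7) (nat_lit 7) (nat_lit 53) (nat_lit 46) r4_53 r4_46 (nat_lit 0) (nat_lit 0) (nat_lit 0) (nat_lit 0x7f66279a6) (nat_lit 1083762224)]
noncomputable def e9_10 : List Rx := [
  Rx.mk (nat_lit 39) (nat_lit 7) (nat_lit 4) (nat_lit 0) (nat_lit 1) (nat_lit 78) (nat_lit 62) r4_78 r6_62 (nat_lit 0) (nat_lit 618791) (nat_lit 458330) (nat_lit 0x6b49c39f4) (nat_lit 1420200045),
  Rx.mk (nat_lit 55) (nat_lit 7) (nat_lit 6) (nat_lit 0) (nat_lit 3) (nat_lit 81) (nat_lit 67) r4_81 r6_67 (nat_lit 0) (nat_lit 0) (nat_lit 21394) (nat_lit 0x59eab61f2) (nat_lit 1708731518),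
  Rx.mk (nat_lit 59) (nat_lit 3) (nat_lit 7) (nat_lit 0) (nat_lit 3) (nat_lit 84) (nat_lit 59) r4_84 r6_59 (nat_lit 0) (nat_lit 0) (nat_lit 882081) (nat_lit 0x802bbc932) (nat_lit 1071969705),
  Rx.mk (nat_lit 63) (nat_lit 7) (nat_lit 7) (nat_lit 0) (nat_lit 3) (nat_lit 87) (nat_lit 65) r4_87 r6_65 (nat_lit 0) (nat_lit 0) (nat_lit 1499729) (nat_lit 0x80082f4b0) (nat_lit 1074869353),
  Rx.mk (nat_lit 103) (nat_lit 7) (nat_lit 4) (nat_lit 1) (nat_lit 5) (nat_lit 79) (nat_lit 63) r4_79 r6_63 (nat_lit 0) (nat_lit 2091838) (nat_lit 0) (nat_lit 0x8027fc3e2) (nat_lit 1073434162),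
  Rx.mk (nat_lit 119) (nat_lit 7) (nat_lit 6) (nat_lit 1) (nat_lit 7) (nat_lit 82) (nat_lit 68) r4_82 r6_68 (nat_lit 0) (nat_lit 0) (nat_lit 0) (nat_lit 0x802f01e94) (nat_lit 1070886824),
  Rx.mk (nat_lit 123) (nat_lit 3) (nat_lit 7) (nat_lit 1) (nat_lit 7) (nat_lit 85) (nat_lit 60) r4_85 r6_60 (nat_lit 0) (nat_lit 0) (nat_lit 0) (nat_lit 0x80900e8b8) (nat_lit 1064743624),
  Rx.mk (nat_lit 127) (nat_lit 7) (nat_lit 7) (nat_lit 1) (nat_lit 7) (nat_lit 88) (nat_lit 66) r4_88 r6_66 (nat_lit 0) (nat_lit 0) (nat_lit 0) (nat_lit 0x802e4a924) (nat_lit 1070947924),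
  Rx.mk (nat_lit 187) (nat_lit 3) (nat_lit 7) (nat_lit 2) (nat_lit 7) (nat_lit 86) (nat_lit 61) r4_86 r6_61 (nat_lit 0) (nat_lit 0) (nat_lit 0) (nat_lit 0x809f929ec) (nat_lit 1063761924),
  Rx.mk (nat_lit 231) (nat_lit 7) (nat_lit 4) (nat_lit 3) (nat_lit 5) (nat_lit 80) (nat_lit 64) r4_80 r6_64 (nat_lit 0) (nat_lit 2733861) (nat_lit 0) (nat_lit 0x7eb79fd52) (nat_lit 1097952985),
  Rx.mk (nat_lit 247) (nat_lit 7) (nat_lit 6) (nat_lit 3) (nat_lit 7) (nat_lit 83) (nat_lit 69) r4_83 r6_69 (nat_lit 0) (nat_lit 0) (nat_lit 0) (nat_lit 0x80040e246) (nat_lit 1073614524)]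
noncomputable def e9_11 : List Rx := [
  Rx.mk (nat_lit 59) (nat_lit 3) (nat_lit 7) (nat_lit 0) (nat_lit 3) (nat_lit 61) (nat_lit 30) r4_61 r5_30 (nat_lit 0) (nat_lit 0) (nat_lit 940616) (nat_lit 0x802fcad94) (nat_lit 1071778540),
  Rx.mk (nat_lit 63) (nat_lit 7) (nat_lit 7) (nat_lit 0) (nat_lit 3) (nat_lit 63) (nat_lit 28) r4_63 r5_28 (nat_lit 0) (nat_lit 0) (nat_lit 1975302) (nat_lit 0x7f23bc56c) (nat_lit 1090154226),
  Rx.mk (nat_lit 155) (nat_lit 3) (nat_lit 3) (nat_lit 2) (nat_lit 7) (nat_lit 58) (nat_lit 33) r4_58 r5_33 (nat_lit 0) (nat_lit 0) (nat_lit 0) (nat_lit 0x80739ec28) (nat_lit 1066538624),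
  Rx.mk (nat_lit 187) (nat_lit 3) (nat_lit 7) (nat_lit 2) (nat_lit 7) (nat_lit 62) (nat_lit 31) r4_62 r5_31 (nat_lit 0) (nat_lit 0) (nat_lit 0) (nat_lit 0x811e5b576) (nat_lit 1055742624),
  Rx.mk (nat_lit 231) (nat_lit 7) (nat_lit 4) (nat_lit 3) (nat_lit 5) (nat_lit 59) (nat_lit 27) r4_59 r5_27 (nat_lit 0) (nat_lit 1180737) (nat_lit 0) (nat_lit 0x800877684) (nat_lit 1074523561),
  Rx.mk (nat_lit 247) (nat_lit 7) (nat_lit 6) (nat_lit 3) (nat_lit 7) (nat_lit 60) (nat_lit 32) r4_60 r5_32 (nat_lit 0) (nat_lit 0) (nat_lit 0) (nat_lit 0x8659a71ca) (nat_lit 971123424),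
  Rx.mk (nat_lit 255) (nat_lit 7) (nat_lit 7) (nat_lit 3) (nat_lit 7) (nat_lit 64) (nat_lit 29) r4_64 r5_29 (nat_lit 0) (nat_lit 0) (nat_lit 0) (nat_lit 0x8024901fe) (nat_lit 1071566124)]
noncomputable def e9_12 : List Rx := [
  Rx.mk (nat_lit 100) (nat_lit 4) (nat_lit 4) (nat_lit 1) (nat_lit 4) (nat_lit 155) (nat_lit 318) r4_155 r0_318 (nat_lit 781143) (nat_lit 232268791) (nat_lit 0) (nat_lit 0x6adf8057e) (nat_lit 1659098658),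
  Rx.mk (nat_lit 101) (nat_lit 5) (nat_lit 4) (nat_lit 1) (nat_lit 5) (nat_lit 156) (nat_lit 319) r4_156 r0_319 (nat_lit 0) (nat_lit 4017845) (nat_lit 0) (nat_lit 0x7ff75e168) (nat_lit 1078479169),
  Rx.mk (nat_lit 116) (nat_lit 4) (nat_lit 6) (nat_lit 1) (nat_lit 6) (nat_lit 157) (nat_lit 320) r4_157 r0_320 (nat_lit 2184780) (nat_lit 0) (nat_lit 0) (nat_lit 0x7aab2db36) (nat_lit 1164898604),
  Rx.mk (nat_lit 117) (nat_lit 5) (nat_lit 6) (nat_lit 1) (nat_lit 7) (nat_lit 158) (nat_lit 321) r4_158 r0_321 (nat_lit 0) (nat_lit 0) (nat_lit 0) (nat_lit 0x8052c65be) (nat_lit 1068627724)]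
noncomputable def e9_13 : List Rx := [
  Rx.mk (nat_lit 100) (nat_lit 4) (nat_lit 4) (nat_lit 1) (nat_lit 4) (nat_lit 167) (nat_lit 71) r4_167 r7_71 (nat_lit 2628537) (nat_lit 6409400) (nat_lit 0) (nat_lit 0x64e7bb690) (nat_lit 1534609061),
  Rx.mk (nat_lit 101) (nat_lit 5) (nat_lit 4) (nat_lit 1) (nat_lit 5) (nat_lit 168) (nat_lit 74) r4_168 r7_74 (nat_lit 0) (nat_lit 4040041) (nat_lit 0) (nat_lit 0x8012909e0) (nat_lit 1076761165),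
  Rx.mk (nat_lit 116) (nat_lit 4) (nat_lit 6) (nat_lit 1) (nat_lit 6) (nat_lit 169) (nat_lit 72) r4_169 r7_72 (nat_lit 1693168) (nat_lit 0) (nat_lit 0) (nat_lit 0x7fb51bd00) (nat_lit 1080428292),
  Rx.mk (nat_lit 117) (nat_lit 5) (nat_lit 6) (nat_lit 1) (nat_lit 7) (nat_lit 171) (nat_lit 75) r4_171 r7_75 (nat_lit 0) (nat_lit 0) (nat_lit 0) (nat_lit 0x8073a79e0) (nat_lit 1066541824),
  Rx.mk (nat_lit 372) (nat_lit 4) (nat_lit 6) (nat_lit 5) (nat_lit 6) (nat_lit 170) (nat_lit 73) r4_170 r7_73 (nat_lit 2874909) (nat_lit 0) (nat_lit 0) (nat_lit 0x8041c95d6) (nat_lit 1072582433),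
  Rx.mk (nat_lit 373) (nat_lit 5) (nat_lit 6) (nat_lit 5) (nat_lit 7) (nat_lit 172) (nat_lit 76) r4_172 r7_76 (nat_lit 0) (nat_lit 0) (nat_lit 0) (nat_lit 0x80261c34c) (nat_lit 1071470624),
  Rx.mk (nat_lit 375) (nat_lit 7) (nat_lit 6) (nat_lit 5) (nat_lit 7) (nat_lit 173) (nat_lit 77) r4_173 r7_77 (nat_lit 0) (nat_lit 0) (nat_lit 0) (nat_lit 0x80261c34c) (nat_lit 1071470624)]
noncomputable def e9_14 : List Rx := [
  Rx.mk (nat_lit 101) (nat_lit 5) (nat_lit 4) (nat_lit 1) (nat_lit 5) (nat_lit 159) (nat_lit 305) r4_159 r1_305 (nat_lit 0) (nat_lit 4876673) (nat_lit 0) (nat_lit 0x80153f8c6) (nat_lit 1077419097),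
  Rx.mk (nat_lit 117) (nat_lit 5) (nat_lit 6) (nat_lit 1) (nat_lit 7) (nat_lit 160) (nat_lit 306) r4_160 r1_306 (nat_lit 0) (nat_lit 0) (nat_lit 0) (nat_lit 0x802b28bc4) (nat_lit 1071147124)]
noncomputable def e9_15 : List Rx := [
  Rx.mk (nat_lit 101) (nat_lit 5) (nat_lit 4) (nat_lit 1) (nat_lit 5) (nat_lit 174) (nat_lit 68) r4_174 r8_68 (nat_lit 0) (nat_lit 4037317) (nat_lit 0) (nat_lit 0x80012bc36) (nat_lit 1077868841),
  Rx.mk (nat_lit 117) (nat_lit 5) (nat_lit 6) (nat_lit 1) (nat_lit 7) (nat_lit 175) (nat_lit 69) r4_175 r8_69 (nat_lit 0) (nat_lit 0) (nat_lit 0) (nat_lit 0x80293ab46) (nat_lit 1071270624),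
  Rx.mk (nat_lit 373) (nat_lit 5) (nat_lit 6) (nat_lit 5) (nat_lit 7) (nat_lit 176) (nat_lit 70) r4_176 r8_70 (nat_lit 0) (nat_lit 0) (nat_lit 0) (nat_lit 0x80029938e) (nat_lit 1073741824)]
noncomputable def e9_16 : List Rx := [
  Rx.mk (nat_lit 372) (nat_lit 4) (nat_lit 6) (nat_lit 5) (nat_lit 6) (nat_lit 177) (nat_lit 351) r4_177 r8_351 (nat_lit 4339618) (nat_lit 0) (nat_lit 0) (nat_lit 0x8014a6cb6) (nat_lit 1076925342),
  Rx.mk (nat_lit 373) (nat_lit 5) (nat_lit 6) (nat_lit 5) (nat_lit 7) (nat_lit 178) (nat_lit 352) r4_178 r8_352 (nat_lit 0) (nat_lit 0) (nat_lit 0) (nat_lit 0x80029938e) (nat_lit 1073741824),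
  Rx.mk (nat_lit 374) (nat_lit 6) (nat_lit 6) (nat_lit 5) (nat_lit 7) (nat_lit 179) (nat_lit 354) r4_179 r8_354 (nat_lit 0) (nat_lit 0) (nat_lit 0) (nat_lit 0x80029938e) (nat_lit 1073741824),
  Rx.mk (nat_lit 375) (nat_lit 7) (nat_lit 6) (nat_lit 5) (nat_lit 7) (nat_lit 180) (nat_lit 353) r4_180 r8_353 (nat_lit 0) (nat_lit 0) (nat_lit 0) (nat_lit 0x80029938e) (nat_lit 1073741824)]
noncomputable def e9_17 : List Rx := [
  Rx.mk (nat_lit 278) (nat_lit 6) (nat_lit 2) (nat_lit 4) (nat_lit 3) (nat_lit 144) (nat_lit 56) r4_144 r9_56 (nat_lit 0) (nat_lit 0) (nat_lit 5449534) (nat_lit 0x80029938e) (nat_lit 1079191358),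
  Rx.mk (nat_lit 308) (nat_lit 4) (nat_lit 6) (nat_lit 4) (nat_lit 2) (nat_lit 147) (nat_lit 50) r4_147 r9_50 (nat_lit 4618202) (nat_lit 0) (nat_lit 3884477) (nat_lit 0x668e28a5e) (nat_lit 1506571703),
  Rx.mk (nat_lit 310) (nat_lit 6) (nat_lit 6) (nat_lit 4) (nat_lit 3) (nat_lit 150) (nat_lit 59) r4_150 r9_59 (nat_lit 0) (nat_lit 0) (nat_lit 5449534) (nat_lit 0x80029938e) (nat_lit 1079191358),
  Rx.mk (nat_lit 311) (nat_lit 7) (nat_lit 6) (nat_lit 4) (nat_lit 3) (nat_lit 152) (nat_lit 53) r4_152 r9_53 (nat_lit 0) (nat_lit 0) (nat_lit 5449534) (nat_lit 0x80029938e) (nat_lit 1079191358),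
  Rx.mk (nat_lit 342) (nat_lit 6) (nat_lit 2) (nat_lit 5) (nat_lit 7) (nat_lit 145) (nat_lit 57) r4_145 r9_57 (nat_lit 0) (nat_lit 0) (nat_lit 0) (nat_lit 0x80029938e) (nat_lit 1073741824),
  Rx.mk (nat_lit 372) (nat_lit 4) (nat_lit 6) (nat_lit 5) (nat_lit 6) (nat_lit 148) (nat_lit 51) r4_148 r9_51 (nat_lit 5449534) (nat_lit 0) (nat_lit 0) (nat_lit 0x80029938e) (nat_lit 1079191358),
  Rx.mk (nat_lit 373) (nat_lit 5) (nat_lit 6) (nat_lit 5) (nat_lit 7) (nat_lit 149) (nat_lit 52) r4_149 r9_52 (nat_lit 0) (nat_lit 0) (nat_lit 0) (nat_lit 0x80029938e) (nat_lit 1073741824),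
  Rx.mk (nat_lit 374) (nat_lit 6) (nat_lit 6) (nat_lit 5) (nat_lit 7) (nat_lit 151) (nat_lit 60) r4_151 r9_60 (nat_lit 0) (nat_lit 0) (nat_lit 0) (nat_lit 0x80029938e) (nat_lit 1073741824),
  Rx.mk (nat_lit 375) (nat_lit 7) (nat_lit 6) (nat_lit 5) (nat_lit 7) (nat_lit 153) (nat_lit 54) r4_153 r9_54 (nat_lit 0) (nat_lit 0) (nat_lit 0) (nat_lit 0x80029938e) (nat_lit 1073741824),
  Rx.mk (nat_lit 406) (nat_lit 6) (nat_lit 2) (nat_lit 6) (nat_lit 7) (nat_lit 146) (nat_lit 58) r4_146 r9_58 (nat_lit 0) (nat_lit 0) (nat_lit 0) (nat_lit 0x80029938e) (nat_lit 1073741824),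
  Rx.mk (nat_lit 503) (nat_lit 7) (nat_lit 6) (nat_lit 7) (nat_lit 7) (nat_lit 154) (nat_lit 55) r4_154 r9_55 (nat_lit 0) (nat_lit 0) (nat_lit 0) (nat_lit 0x80029938e) (nat_lit 1073741824)]
noncomputable def e9_18 : List Rx := [
  Rx.mk (nat_lit 100) (nat_lit 4) (nat_lit 4) (nat_lit 1) (nat_lit 4) (nat_lit 161) (nat_lit 349) r4_161 r4_349 (nat_lit 2616584) (nat_lit 8619398) (nat_lit 0) (nat_lit 0x73ea8d198) (nat_lit 1286528806),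
  Rx.mk (nat_lit 101) (nat_lit 5) (nat_lit 4) (nat_lit 1) (nat_lit 5) (nat_lit 162) (nat_lit 350) r4_162 r4_350 (nat_lit 0) (nat_lit 5449534) (nat_lit 0) (nat_lit 0x802346fd2) (nat_lit 1077099558),
  Rx.mk (nat_lit 103) (nat_lit 7) (nat_lit 4) (nat_lit 1) (nat_lit 5) (nat_lit 163) (nat_lit 351) r4_163 r4_351 (nat_lit 0) (nat_lit 8320896) (nat_lit 0) (nat_lit 0x804e26a54) (nat_lit 1077233520),
  Rx.mk (nat_lit 116) (nat_lit 4) (nat_lit 6) (nat_lit 1) (nat_lit 6) (nat_lit 164) (nat_lit 352) r4_164 r4_352 (nat_lit 2457581) (nat_lit 0) (nat_lit 0) (nat_lit 0x8015711e6) (nat_lit 1074979605),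
  Rx.mk (nat_lit 117) (nat_lit 5) (nat_lit 6) (nat_lit 1) (nat_lit 7) (nat_lit 165) (nat_lit 353) r4_165 r4_353 (nat_lit 0) (nat_lit 0) (nat_lit 0) (nat_lit 0x805278670) (nat_lit 1068646324),
  Rx.mk (nat_lit 119) (nat_lit 7) (nat_lit 6) (nat_lit 1) (nat_lit 7) (nat_lit 166) (nat_lit 354) r4_166 r4_354 (nat_lit 0) (nat_lit 0) (nat_lit 0) (nat_lit 0x8054e1330) (nat_lit 1068491824)]
noncomputable def e9_19 : List Rx := [
  Rx.mk (nat_lit 100) (nat_lit 4) (nat_lit 4) (nat_lit 1) (nat_lit 4) (nat_lit 181) (nat_lit 52) r4_181 r10_52 (nat_lit 2071508) (nat_lit 5552411) (nat_lit 0) (nat_lit 0x6601e5042) (nat_lit 1514816043),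
  Rx.mk (nat_lit 101) (nat_lit 5) (nat_lit 4) (nat_lit 1) (nat_lit 5) (nat_lit 182) (nat_lit 54) r4_182 r10_54 (nat_lit 0) (nat_lit 4412645) (nat_lit 0) (nat_lit 0x802289f68) (nat_lit 1076111669),
  Rx.mk (nat_lit 103) (nat_lit 7) (nat_lit 4) (nat_lit 1) (nat_lit 5) (nat_lit 183) (nat_lit 56) r4_183 r10_56 (nat_lit 0) (nat_lit 5474881) (nat_lit 0) (nat_lit 0x7fdff8ef6) (nat_lit 1081440905),
  Rx.mk (nat_lit 116) (nat_lit 4) (nat_lit 6) (nat_lit 1) (nat_lit 6) (nat_lit 184) (nat_lit 53) r4_184 r10_53 (nat_lit 1895394) (nat_lit 0) (nat_lit 0) (nat_lit 0x80303ef3c) (nat_lit 1072711218),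
  Rx.mk (nat_lit 117) (nat_lit 5) (nat_lit 6) (nat_lit 1) (nat_lit 7) (nat_lit 185) (nat_lit 55) r4_185 r10_55 (nat_lit 0) (nat_lit 0) (nat_lit 0) (nat_lit 0x805b35a60) (nat_lit 1068092224),
  Rx.mk (nat_lit 119) (nat_lit 7) (nat_lit 6) (nat_lit 1) (nat_lit 7) (nat_lit 186) (nat_lit 57) r4_186 r10_57 (nat_lit 0) (nat_lit 0) (nat_lit 0) (nat_lit 0x805b35a60) (nat_lit 1068092224),
  Rx.mk (nat_lit 375) (nat_lit 7) (nat_lit 6) (nat_lit 5) (nat_lit 7) (nat_lit 187) (nat_lit 58) r4_187 r10_58 (nat_lit 0) (nat_lit 0) (nat_lit 0) (nat_lit 0x8018b37f0) (nat_lit 1072325924)]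
noncomputable def e9_20 : List Rx := [
  Rx.mk (nat_lit 100) (nat_lit 4) (nat_lit 4) (nat_lit 1) (nat_lit 4) (nat_lit 188) (nat_lit 46) r4_188 r11_46 (nat_lit 6680725) (nat_lit 6612068) (nat_lit 0) (nat_lit 0x79a993826) (nat_lit 1192788117),
  Rx.mk (nat_lit 101) (nat_lit 5) (nat_lit 4) (nat_lit 1) (nat_lit 5) (nat_lit 189) (nat_lit 48) r4_189 r11_48 (nat_lit 0) (nat_lit 5449534) (nat_lit 0) (nat_lit 0x801d47abe) (nat_lit 1077482658),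
  Rx.mk (nat_lit 103) (nat_lit 7) (nat_lit 4) (nat_lit 1) (nat_lit 5) (nat_lit 190) (nat_lit 50) r4_190 r11_50 (nat_lit 0) (nat_lit 5449534) (nat_lit 0) (nat_lit 0x801061480) (nat_lit 1078306558),
  Rx.mk (nat_lit 116) (nat_lit 4) (nat_lit 6) (nat_lit 1) (nat_lit 6) (nat_lit 191) (nat_lit 47) r4_191 r11_47 (nat_lit 2822132) (nat_lit 0) (nat_lit 0) (nat_lit 0x80298ddc8) (nat_lit 1074069156),
  Rx.mk (nat_lit 117) (nat_lit 5) (nat_lit 6) (nat_lit 1) (nat_lit 7) (nat_lit 192) (nat_lit 49) r4_192 r11_49 (nat_lit 0) (nat_lit 0) (nat_lit 0) (nat_lit 0x80342afb0) (nat_lit 1070573324),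
  Rx.mk (nat_lit 119) (nat_lit 7) (nat_lit 6) (nat_lit 1) (nat_lit 7) (nat_lit 193) (nat_lit 52) r4_193 r11_52 (nat_lit 0) (nat_lit 0) (nat_lit 0) (nat_lit 0x80342afb0) (nat_lit 1070573324),
  Rx.mk (nat_lit 127) (nat_lit 7) (nat_lit 7) (nat_lit 1) (nat_lit 7) (nat_lit 194) (nat_lit 51) r4_194 r11_51 (nat_lit 0) (nat_lit 0) (nat_lit 0) (nat_lit 0x80029938e) (nat_lit 1073741824)]
noncomputable def e9_21 : List Rx := [
  Rx.mk (nat_lit 278) (nat_lit 6) (nat_lit 2) (nat_lit 4) (nat_lit 3) (nat_lit 128) (nat_lit 15) r4_128 r9_15 (nat_lit 0) (nat_lit 0) (nat_lit 5449534) (nat_lit 0x80029938e) (nat_lit 1079191358),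
  Rx.mk (nat_lit 342) (nat_lit 6) (nat_lit 2) (nat_lit 5) (nat_lit 7) (nat_lit 129) (nat_lit 16) r4_129 r9_16 (nat_lit 0) (nat_lit 0) (nat_lit 0) (nat_lit 0x80029938e) (nat_lit 1073741824),
  Rx.mk (nat_lit 406) (nat_lit 6) (nat_lit 2) (nat_lit 6) (nat_lit 7) (nat_lit 130) (nat_lit 17) r4_130 r9_17 (nat_lit 0) (nat_lit 0) (nat_lit 0) (nat_lit 0x80029938e) (nat_lit 1073741824)]
noncomputable def e9_22 : List Rx := [
  Rx.mk (nat_lit 128) (nat_lit 0) (nat_lit 0) (nat_lit 2) (nat_lit 4) (nat_lit 93) (nat_lit 142) r4_93 r0_142 (nat_lit 274678991) (nat_lit 141544) (nat_lit 0) (nat_lit 0x64b4664b6) (nat_lit 1803687759),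
  Rx.mk (nat_lit 130) (nat_lit 2) (nat_lit 0) (nat_lit 2) (nat_lit 5) (nat_lit 94) (nat_lit 145) r4_94 r0_145 (nat_lit 0) (nat_lit 3066219) (nat_lit 0) (nat_lit 0x7fc1695a8) (nat_lit 1081005143),
  Rx.mk (nat_lit 152) (nat_lit 0) (nat_lit 3) (nat_lit 2) (nat_lit 6) (nat_lit 95) (nat_lit 143) r4_95 r0_143 (nat_lit 78264559) (nat_lit 0) (nat_lit 0) (nat_lit 0x80209c4da) (nat_lit 1150066883),
  Rx.mk (nat_lit 154) (nat_lit 2) (nat_lit 3) (nat_lit 2) (nat_lit 7) (nat_lit 96) (nat_lit 146) r4_96 r0_146 (nat_lit 0) (nat_lit 0) (nat_lit 0) (nat_lit 0x80388f0ce) (nat_lit 1070293424),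
  Rx.mk (nat_lit 155) (nat_lit 3) (nat_lit 3) (nat_lit 2) (nat_lit 7) (nat_lit 97) (nat_lit 144) r4_97 r0_144 (nat_lit 0) (nat_lit 0) (nat_lit 0) (nat_lit 0x8017d8204) (nat_lit 1072380824)]
noncomputable def e9_23 : List Rx := [
  Rx.mk (nat_lit 128) (nat_lit 0) (nat_lit 0) (nat_lit 2) (nat_lit 4) (nat_lit 107) (nat_lit 154) r4_107 r1_154 (nat_lit 225790253) (nat_lit 2584296) (nat_lit 0) (nat_lit 0x78edca536) (nat_lit 1420092973),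
  Rx.mk (nat_lit 130) (nat_lit 2) (nat_lit 0) (nat_lit 2) (nat_lit 5) (nat_lit 108) (nat_lit 158) r4_108 r1_158 (nat_lit 0) (nat_lit 3186952) (nat_lit 0) (nat_lit 0x7feaece7a) (nat_lit 1078447376),
  Rx.mk (nat_lit 136) (nat_lit 0) (nat_lit 1) (nat_lit 2) (nat_lit 6) (nat_lit 109) (nat_lit 155) r4_109 r1_155 (nat_lit 5659181) (nat_lit 0) (nat_lit 0) (nat_lit 0x80302b7b6) (nat_lit 1076486505),
  Rx.mk (nat_lit 138) (nat_lit 2) (nat_lit 1) (nat_lit 2) (nat_lit 7) (nat_lit 110) (nat_lit 159) r4_110 r1_159 (nat_lit 0) (nat_lit 0) (nat_lit 0) (nat_lit 0x802afc2d6) (nat_lit 1071158224),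
  Rx.mk (nat_lit 152) (nat_lit 0) (nat_lit 3) (nat_lit 2) (nat_lit 6) (nat_lit 111) (nat_lit 156) r4_111 r1_156 (nat_lit 6157515) (nat_lit 0) (nat_lit 0) (nat_lit 0x8041aa0a0) (nat_lit 1075870639),
  Rx.mk (nat_lit 154) (nat_lit 2) (nat_lit 3) (nat_lit 2) (nat_lit 7) (nat_lit 112) (nat_lit 160) r4_112 r1_160 (nat_lit 0) (nat_lit 0) (nat_lit 0) (nat_lit 0x80264a0da) (nat_lit 1071457724),
  Rx.mk (nat_lit 155) (nat_lit 3) (nat_lit 3) (nat_lit 2) (nat_lit 7) (nat_lit 113) (nat_lit 157) r4_113 r1_157 (nat_lit 0) (nat_lit 0) (nat_lit 0) (nat_lit 0x80029938e) (nat_lit 1073741824)]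
noncomputable def e9_24 : List Rx := [
  Rx.mk (nat_lit 152) (nat_lit 0) (nat_lit 3) (nat_lit 2) (nat_lit 6) (nat_lit 131) (nat_lit 131) r4_131 r4_131 (nat_lit 9261977) (nat_lit 0) (nat_lit 0) (nat_lit 0x8048a6476) (nat_lit 1078522301),
  Rx.mk (nat_lit 154) (nat_lit 2) (nat_lit 3) (nat_lit 2) (nat_lit 7) (nat_lit 132) (nat_lit 133) r4_132 r4_133 (nat_lit 0) (nat_lit 0) (nat_lit 0) (nat_lit 0x8019a7878) (nat_lit 1072263824),
  Rx.mk (nat_lit 155) (nat_lit 3) (nat_lit 3) (nat_lit 2) (nat_lit 7) (nat_lit 133) (nat_lit 132) r4_133 r4_132 (nat_lit 0) (nat_lit 0) (nat_lit 0) (nat_lit 0x8019a7878) (nat_lit 1072263824)]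
noncomputable def e9_25 : List Rx := [
  Rx.mk (nat_lit 128) (nat_lit 0) (nat_lit 0) (nat_lit 2) (nat_lit 4) (nat_lit 98) (nat_lit 39) r4_98 r7_39 (nat_lit 13528971) (nat_lit 2244627) (nat_lit 0) (nat_lit 0x667a08362) (nat_lit 1515142422),
  Rx.mk (nat_lit 130) (nat_lit 2) (nat_lit 0) (nat_lit 2) (nat_lit 5) (nat_lit 99) (nat_lit 41) r4_99 r7_41 (nat_lit 0) (nat_lit 2541329) (nat_lit 0) (nat_lit 0x7e988d356) (nat_lit 1099798353),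
  Rx.mk (nat_lit 152) (nat_lit 0) (nat_lit 3) (nat_lit 2) (nat_lit 6) (nat_lit 104) (nat_lit 42) r4_104 r7_42 (nat_lit 7450969) (nat_lit 0) (nat_lit 0) (nat_lit 0x7fd285fbc) (nat_lit 1084281793),
  Rx.mk (nat_lit 154) (nat_lit 2) (nat_lit 3) (nat_lit 2) (nat_lit 7) (nat_lit 105) (nat_lit 44) r4_105 r7_44 (nat_lit 0) (nat_lit 0) (nat_lit 0) (nat_lit 0x807650df4) (nat_lit 1066373124),
  Rx.mk (nat_lit 155) (nat_lit 3) (nat_lit 3) (nat_lit 2) (nat_lit 7) (nat_lit 106) (nat_lit 43) r4_106 r7_43 (nat_lit 0) (nat_lit 0) (nat_lit 0) (nat_lit 0x80029938e) (nat_lit 1073741824),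
  Rx.mk (nat_lit 278) (nat_lit 6) (nat_lit 2) (nat_lit 4) (nat_lit 3) (nat_lit 102) (nat_lit 45) r4_102 r7_45 (nat_lit 0) (nat_lit 0) (nat_lit 3003842) (nat_lit 0x801bcccc0) (nat_lit 1075130666),
  Rx.mk (nat_lit 386) (nat_lit 2) (nat_lit 0) (nat_lit 6) (nat_lit 5) (nat_lit 100) (nat_lit 40) r4_100 r7_40 (nat_lit 0) (nat_lit 3253254) (nat_lit 0) (nat_lit 0x802f743a4) (nat_lit 1074127178),
  Rx.mk (nat_lit 402) (nat_lit 2) (nat_lit 2) (nat_lit 6) (nat_lit 7) (nat_lit 101) (nat_lit 47) r4_101 r7_47 (nat_lit 0) (nat_lit 0) (nat_lit 0) (nat_lit 0x80029938e) (nat_lit 1073741824),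
  Rx.mk (nat_lit 406) (nat_lit 6) (nat_lit 2) (nat_lit 6) (nat_lit 7) (nat_lit 103) (nat_lit 46) r4_103 r7_46 (nat_lit 0) (nat_lit 0) (nat_lit 0) (nat_lit 0x80029938e) (nat_lit 1073741824)]
noncomputable def e9_26 : List Rx := [
  Rx.mk (nat_lit 128) (nat_lit 0) (nat_lit 0) (nat_lit 2) (nat_lit 4) (nat_lit 114) (nat_lit 47) r4_114 r8_47 (nat_lit 8571815) (nat_lit 9446528) (nat_lit 0) (nat_lit 0x6c370d6e2) (nat_lit 1421722967),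
  Rx.mk (nat_lit 130) (nat_lit 2) (nat_lit 0) (nat_lit 2) (nat_lit 5) (nat_lit 115) (nat_lit 49) r4_115 r8_49 (nat_lit 0) (nat_lit 3225500) (nat_lit 0) (nat_lit 0x7ffacb274) (nat_lit 1077464224),
  Rx.mk (nat_lit 136) (nat_lit 0) (nat_lit 1) (nat_lit 2) (nat_lit 6) (nat_lit 117) (nat_lit 50) r4_117 r8_50 (nat_lit 5449534) (nat_lit 0) (nat_lit 0) (nat_lit 0x80029938e) (nat_lit 1079191358),
  Rx.mk (nat_lit 138) (nat_lit 2) (nat_lit 1) (nat_lit 2) (nat_lit 7) (nat_lit 118) (nat_lit 52) r4_118 r8_52 (nat_lit 0) (nat_lit 0) (nat_lit 0) (nat_lit 0x802937ce8) (nat_lit 1071271324),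
  Rx.mk (nat_lit 152) (nat_lit 0) (nat_lit 3) (nat_lit 2) (nat_lit 6) (nat_lit 122) (nat_lit 53) r4_122 r8_53 (nat_lit 5449534) (nat_lit 0) (nat_lit 0) (nat_lit 0x80029938e) (nat_lit 1079191358),
  Rx.mk (nat_lit 154) (nat_lit 2) (nat_lit 3) (nat_lit 2) (nat_lit 7) (nat_lit 123) (nat_lit 55) r4_123 r8_55 (nat_lit 0) (nat_lit 0) (nat_lit 0) (nat_lit 0x802937ce8) (nat_lit 1071271324),
  Rx.mk (nat_lit 155) (nat_lit 3) (nat_lit 3) (nat_lit 2) (nat_lit 7) (nat_lit 124) (nat_lit 54) r4_124 r8_54 (nat_lit 0) (nat_lit 0) (nat_lit 0) (nat_lit 0x80029938e) (nat_lit 1073741824),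
  Rx.mk (nat_lit 386) (nat_lit 2) (nat_lit 0) (nat_lit 6) (nat_lit 5) (nat_lit 116) (nat_lit 48) r4_116 r8_48 (nat_lit 0) (nat_lit 3917153) (nat_lit 0) (nat_lit 0x801c7137e) (nat_lit 1076004277),
  Rx.mk (nat_lit 394) (nat_lit 2) (nat_lit 1) (nat_lit 6) (nat_lit 7) (nat_lit 119) (nat_lit 51) r4_119 r8_51 (nat_lit 0) (nat_lit 0) (nat_lit 0) (nat_lit 0x800f1e8de) (nat_lit 1072939424),
  Rx.mk (nat_lit 402) (nat_lit 2) (nat_lit 2) (nat_lit 6) (nat_lit 7) (nat_lit 120) (nat_lit 57) r4_120 r8_57 (nat_lit 0) (nat_lit 0) (nat_lit 0) (nat_lit 0x80029938e) (nat_lit 1073741824),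
  Rx.mk (nat_lit 406) (nat_lit 6) (nat_lit 2) (nat_lit 6) (nat_lit 7) (nat_lit 121) (nat_lit 56) r4_121 r8_56 (nat_lit 0) (nat_lit 0) (nat_lit 0) (nat_lit 0x80029938e) (nat_lit 1073741824)]
noncomputable def e9_27 : List Rx := [
  Rx.mk (nat_lit 278) (nat_lit 6) (nat_lit 2) (nat_lit 4) (nat_lit 3) (nat_lit 126) (nat_lit 146) r4_126 r8_146 (nat_lit 0) (nat_lit 0) (nat_lit 5673761) (nat_lit 0x7fec63c5e) (nat_lit 1080842585),
  Rx.mk (nat_lit 402) (nat_lit 2) (nat_lit 2) (nat_lit 6) (nat_lit 7) (nat_lit 125) (nat_lit 147) r4_125 r8_147 (nat_lit 0) (nat_lit 0) (nat_lit 0) (nat_lit 0x80029938e) (nat_lit 1073741824),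
  Rx.mk (nat_lit 406) (nat_lit 6) (nat_lit 2) (nat_lit 6) (nat_lit 7) (nat_lit 127) (nat_lit 148) r4_127 r8_148 (nat_lit 0) (nat_lit 0) (nat_lit 0) (nat_lit 0x80029938e) (nat_lit 1073741824)]
noncomputable def e9_28 : List Rx := [
  Rx.mk (nat_lit 152) (nat_lit 0) (nat_lit 3) (nat_lit 2) (nat_lit 6) (nat_lit 139) (nat_lit 24) r4_139 r10_24 (nat_lit 6990673) (nat_lit 0) (nat_lit 0) (nat_lit 0x7fb294226) (nat_lit 1085891197),
  Rx.mk (nat_lit 154) (nat_lit 2) (nat_lit 3) (nat_lit 2) (nat_lit 7) (nat_lit 140) (nat_lit 27) r4_140 r10_27 (nat_lit 0) (nat_lit 0) (nat_lit 0) (nat_lit 0x805fe15fa) (nat_lit 1067795824),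
  Rx.mk (nat_lit 155) (nat_lit 3) (nat_lit 3) (nat_lit 2) (nat_lit 7) (nat_lit 142) (nat_lit 25) r4_142 r10_25 (nat_lit 0) (nat_lit 0) (nat_lit 0) (nat_lit 0x80029938e) (nat_lit 1073741824),
  Rx.mk (nat_lit 278) (nat_lit 6) (nat_lit 2) (nat_lit 4) (nat_lit 3) (nat_lit 136) (nat_lit 28) r4_136 r10_28 (nat_lit 0) (nat_lit 0) (nat_lit 2482237) (nat_lit 0x8026b83be) (nat_lit 1073911461),
  Rx.mk (nat_lit 386) (nat_lit 2) (nat_lit 0) (nat_lit 6) (nat_lit 5) (nat_lit 134) (nat_lit 23) r4_134 r10_23 (nat_lit 0) (nat_lit 3516231) (nat_lit 0) (nat_lit 0x801199ce4) (nat_lit 1076295255),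
  Rx.mk (nat_lit 402) (nat_lit 2) (nat_lit 2) (nat_lit 6) (nat_lit 7) (nat_lit 135) (nat_lit 31) r4_135 r10_31 (nat_lit 0) (nat_lit 0) (nat_lit 0) (nat_lit 0x80029938e) (nat_lit 1073741824),
  Rx.mk (nat_lit 406) (nat_lit 6) (nat_lit 2) (nat_lit 6) (nat_lit 7) (nat_lit 137) (nat_lit 30) r4_137 r10_30 (nat_lit 0) (nat_lit 0) (nat_lit 0) (nat_lit 0x80029938e) (nat_lit 1073741824),
  Rx.mk (nat_lit 410) (nat_lit 2) (nat_lit 3) (nat_lit 6) (nat_lit 7) (nat_lit 141) (nat_lit 26) r4_141 r10_26 (nat_lit 0) (nat_lit 0) (nat_lit 0) (nat_lit 0x801c7f974) (nat_lit 1072083424),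
  Rx.mk (nat_lit 470) (nat_lit 6) (nat_lit 2) (nat_lit 7) (nat_lit 7) (nat_lit 138) (nat_lit 29) r4_138 r10_29 (nat_lit 0) (nat_lit 0) (nat_lit 0) (nat_lit 0x801ffbf1c) (nat_lit 1071860624)]
noncomputable def e9_29 : List Rx := [
  Rx.mk (nat_lit 155) (nat_lit 3) (nat_lit 3) (nat_lit 2) (nat_lit 7) (nat_lit 143) (nat_lit 8) r4_143 r11_8 (nat_lit 0) (nat_lit 0) (nat_lit 0) (nat_lit 0x80029938e) (nat_lit 1073741824)]
noncomputable def e9_30 : List Rx := [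
  Rx.mk (nat_lit 103) (nat_lit 7) (nat_lit 4) (nat_lit 1) (nat_lit 5) (nat_lit 224) (nat_lit 305) r4_224 r5_305 (nat_lit 0) (nat_lit 123837254) (nat_lit 0) (nat_lit 0x7ffc69400) (nat_lit 1197837578),
  Rx.mk (nat_lit 119) (nat_lit 7) (nat_lit 6) (nat_lit 1) (nat_lit 7) (nat_lit 225) (nat_lit 306) r4_225 r5_306 (nat_lit 0) (nat_lit 0) (nat_lit 0) (nat_lit 0x805afa622) (nat_lit 1068090724)]
noncomputable def e9_31 : List Rx := [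
  Rx.mk (nat_lit 103) (nat_lit 7) (nat_lit 4) (nat_lit 1) (nat_lit 5) (nat_lit 226) (nat_lit 358) r4_226 r11_358 (nat_lit 0) (nat_lit 2508955) (nat_lit 0) (nat_lit 0x803850888) (nat_lit 1072812579),
  Rx.mk (nat_lit 119) (nat_lit 7) (nat_lit 6) (nat_lit 1) (nat_lit 7) (nat_lit 227) (nat_lit 359) r4_227 r11_359 (nat_lit 0) (nat_lit 0) (nat_lit 0) (nat_lit 0x86812eb26) (nat_lit 968635724),
  Rx.mk (nat_lit 375) (nat_lit 7) (nat_lit 6) (nat_lit 5) (nat_lit 7) (nat_lit 228) (nat_lit 357) r4_228 r11_357 (nat_lit 0) (nat_lit 0) (nat_lit 0) (nat_lit 0x841e5b4ec) (nat_lit 1007221824)]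
noncomputable def e9_32 : List Rx := [
  Rx.mk (nat_lit 35) (nat_lit 3) (nat_lit 4) (nat_lit 0) (nat_lit 1) (nat_lit 229) (nat_lit 186) r4_229 r6_186 (nat_lit 0) (nat_lit 47711) (nat_lit 38237) (nat_lit 0x718a177ac) (nat_lit 1314939572),
  Rx.mk (nat_lit 56) (nat_lit 0) (nat_lit 7) (nat_lit 0) (nat_lit 2) (nat_lit 235) (nat_lit 183) r4_235 r6_183 (nat_lit 9876) (nat_lit 0) (nat_lit 6592) (nat_lit 0x73504ef82) (nat_lit 1285279692),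
  Rx.mk (nat_lit 59) (nat_lit 3) (nat_lit 7) (nat_lit 0) (nat_lit 3) (nat_lit 238) (nat_lit 187) r4_238 r6_187 (nat_lit 0) (nat_lit 0) (nat_lit 1219035) (nat_lit 0x80393948e) (nat_lit 1071457659),
  Rx.mk (nat_lit 99) (nat_lit 3) (nat_lit 4) (nat_lit 1) (nat_lit 5) (nat_lit 230) (nat_lit 188) r4_230 r6_188 (nat_lit 0) (nat_lit 3192982) (nat_lit 0) (nat_lit 0x803a9355a) (nat_lit 1073361906),
  Rx.mk (nat_lit 120) (nat_lit 0) (nat_lit 7) (nat_lit 1) (nat_lit 6) (nat_lit 236) (nat_lit 184) r4_236 r6_184 (nat_lit 4043670) (nat_lit 0) (nat_lit 0) (nat_lit 0x8019d8c3e) (nat_lit 1076296794),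
  Rx.mk (nat_lit 123) (nat_lit 3) (nat_lit 7) (nat_lit 1) (nat_lit 7) (nat_lit 239) (nat_lit 189) r4_239 r6_189 (nat_lit 0) (nat_lit 0) (nat_lit 0) (nat_lit 0x807785210) (nat_lit 1066297424),
  Rx.mk (nat_lit 163) (nat_lit 3) (nat_lit 4) (nat_lit 2) (nat_lit 5) (nat_lit 231) (nat_lit 191) r4_231 r6_191 (nat_lit 0) (nat_lit 2840910) (nat_lit 0) (nat_lit 0x804903392) (nat_lit 1072090734),
  Rx.mk (nat_lit 184) (nat_lit 0) (nat_lit 7) (nat_lit 2) (nat_lit 6) (nat_lit 237) (nat_lit 185) r4_237 r6_185 (nat_lit 1760727) (nat_lit 0) (nat_lit 0) (nat_lit 0x802b4e4aa) (nat_lit 1072885551),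
  Rx.mk (nat_lit 187) (nat_lit 3) (nat_lit 7) (nat_lit 2) (nat_lit 7) (nat_lit 240) (nat_lit 192) r4_240 r6_192 (nat_lit 0) (nat_lit 0) (nat_lit 0) (nat_lit 0x809a0fc90) (nat_lit 1064111224),
  Rx.mk (nat_lit 227) (nat_lit 3) (nat_lit 4) (nat_lit 3) (nat_lit 5) (nat_lit 232) (nat_lit 190) r4_232 r6_190 (nat_lit 0) (nat_lit 2826148) (nat_lit 0) (nat_lit 0x7ffa8010c) (nat_lit 1077083472),
  Rx.mk (nat_lit 231) (nat_lit 7) (nat_lit 4) (nat_lit 3) (nat_lit 5) (nat_lit 233) (nat_lit 181) r4_233 r6_181 (nat_lit 0) (nat_lit 2519210) (nat_lit 0) (nat_lit 0x7ebf86994) (nat_lit 1097219834),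
  Rx.mk (nat_lit 247) (nat_lit 7) (nat_lit 6) (nat_lit 3) (nat_lit 7) (nat_lit 234) (nat_lit 182) r4_234 r6_182 (nat_lit 0) (nat_lit 0) (nat_lit 0) (nat_lit 0x81261a06e) (nat_lit 1055268324)]
noncomputable def e9_33 : List Rx := [
  Rx.mk (nat_lit 56) (nat_lit 0) (nat_lit 7) (nat_lit 0) (nat_lit 2) (nat_lit 200) (nat_lit 124) r4_200 r5_124 (nat_lit 73422) (nat_lit 0) (nat_lit 50115) (nat_lit 0x6722c5068) (nat_lit 1488441861),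
  Rx.mk (nat_lit 59) (nat_lit 3) (nat_lit 7) (nat_lit 0) (nat_lit 3) (nat_lit 202) (nat_lit 125) r4_202 r5_125 (nat_lit 0) (nat_lit 0) (nat_lit 1227291) (nat_lit 0x807e5e654) (nat_lit 1067084415),
  Rx.mk (nat_lit 152) (nat_lit 0) (nat_lit 3) (nat_lit 2) (nat_lit 6) (nat_lit 195) (nat_lit 130) r4_195 r5_130 (nat_lit 192946712) (nat_lit 0) (nat_lit 0) (nat_lit 0x7fdc0d3f0) (nat_lit 1269076836),
  Rx.mk (nat_lit 154) (nat_lit 2) (nat_lit 3) (nat_lit 2) (nat_lit 7) (nat_lit 196) (nat_lit 133) r4_196 r5_133 (nat_lit 0) (nat_lit 0) (nat_lit 0) (nat_lit 0x801352b30) (nat_lit 1072671524),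
  Rx.mk (nat_lit 184) (nat_lit 0) (nat_lit 7) (nat_lit 2) (nat_lit 6) (nat_lit 201) (nat_lit 131) r4_201 r5_131 (nat_lit 1816985) (nat_lit 0) (nat_lit 0) (nat_lit 0x7ffac5572) (nat_lit 1076046309),
  Rx.mk (nat_lit 187) (nat_lit 3) (nat_lit 7) (nat_lit 2) (nat_lit 7) (nat_lit 203) (nat_lit 132) r4_203 r5_132 (nat_lit 0) (nat_lit 0) (nat_lit 0) (nat_lit 0x80898c5d0) (nat_lit 1065156424),
  Rx.mk (nat_lit 227) (nat_lit 3) (nat_lit 4) (nat_lit 3) (nat_lit 5) (nat_lit 197) (nat_lit 126) r4_197 r5_126 (nat_lit 0) (nat_lit 2905451) (nat_lit 0) (nat_lit 0x7f6eaed5e) (nat_lit 1086211975),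
  Rx.mk (nat_lit 231) (nat_lit 7) (nat_lit 4) (nat_lit 3) (nat_lit 5) (nat_lit 198) (nat_lit 128) r4_198 r5_128 (nat_lit 0) (nat_lit 1963519) (nat_lit 0) (nat_lit 0x7f8b75bf4) (nat_lit 1083400343),
  Rx.mk (nat_lit 247) (nat_lit 7) (nat_lit 6) (nat_lit 3) (nat_lit 7) (nat_lit 199) (nat_lit 129) r4_199 r5_129 (nat_lit 0) (nat_lit 0) (nat_lit 0) (nat_lit 0x813222a50) (nat_lit 1054496724),
  Rx.mk (nat_lit 251) (nat_lit 3) (nat_lit 7) (nat_lit 3) (nat_lit 7) (nat_lit 204) (nat_lit 127) r4_204 r5_127 (nat_lit 0) (nat_lit 0) (nat_lit 0) (nat_lit 0x801b210f0) (nat_lit 1072171724)]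
noncomputable def e9_34 : List Rx := [
  Rx.mk (nat_lit 56) (nat_lit 0) (nat_lit 7) (nat_lit 0) (nat_lit 2) (nat_lit 212) (nat_lit 125) r4_212 r11_125 (nat_lit 180054) (nat_lit 0) (nat_lit 162008) (nat_lit 0x66f25fd9c) (nat_lit 1491827986),
  Rx.mk (nat_lit 59) (nat_lit 3) (nat_lit 7) (nat_lit 0) (nat_lit 3) (nat_lit 214) (nat_lit 126) r4_214 r11_126 (nat_lit 0) (nat_lit 0) (nat_lit 1914977) (nat_lit 0x805cba6f6) (nat_lit 1069908001),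
  Rx.mk (nat_lit 152) (nat_lit 0) (nat_lit 3) (nat_lit 2) (nat_lit 6) (nat_lit 205) (nat_lit 131) r4_205 r11_131 (nat_lit 26745555) (nat_lit 0) (nat_lit 0) (nat_lit 0x7fe494c12) (nat_lit 1102412179),
  Rx.mk (nat_lit 154) (nat_lit 2) (nat_lit 3) (nat_lit 2) (nat_lit 7) (nat_lit 206) (nat_lit 134) r4_206 r11_134 (nat_lit 0) (nat_lit 0) (nat_lit 0) (nat_lit 0x832cd703a) (nat_lit 1022477724),
  Rx.mk (nat_lit 184) (nat_lit 0) (nat_lit 7) (nat_lit 2) (nat_lit 6) (nat_lit 213) (nat_lit 132) r4_213 r11_132 (nat_lit 2501188) (nat_lit 0) (nat_lit 0) (nat_lit 0x802edd148) (nat_lit 1073408112),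
  Rx.mk (nat_lit 187) (nat_lit 3) (nat_lit 7) (nat_lit 2) (nat_lit 7) (nat_lit 215) (nat_lit 133) r4_215 r11_133 (nat_lit 0) (nat_lit 0) (nat_lit 0) (nat_lit 0x803a9eba8) (nat_lit 1070162724),
  Rx.mk (nat_lit 227) (nat_lit 3) (nat_lit 4) (nat_lit 3) (nat_lit 5) (nat_lit 208) (nat_lit 127) r4_208 r11_127 (nat_lit 0) (nat_lit 2480456) (nat_lit 0) (nat_lit 0x80331b106) (nat_lit 1073118480),
  Rx.mk (nat_lit 231) (nat_lit 7) (nat_lit 4) (nat_lit 3) (nat_lit 5) (nat_lit 209) (nat_lit 129) r4_209 r11_129 (nat_lit 0) (nat_lit 2654410) (nat_lit 0) (nat_lit 0x7fede05b4) (nat_lit 1077722534),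
  Rx.mk (nat_lit 247) (nat_lit 7) (nat_lit 6) (nat_lit 3) (nat_lit 7) (nat_lit 210) (nat_lit 130) r4_210 r11_130 (nat_lit 0) (nat_lit 0) (nat_lit 0) (nat_lit 0x80c72ecda) (nat_lit 1061253024),
  Rx.mk (nat_lit 251) (nat_lit 3) (nat_lit 7) (nat_lit 3) (nat_lit 7) (nat_lit 216) (nat_lit 128) r4_216 r11_128 (nat_lit 0) (nat_lit 0) (nat_lit 0) (nat_lit 0x8038253f4) (nat_lit 1070320124),
  Rx.mk (nat_lit 410) (nat_lit 2) (nat_lit 3) (nat_lit 6) (nat_lit 7) (nat_lit 207) (nat_lit 136) r4_207 r11_136 (nat_lit 0) (nat_lit 0) (nat_lit 0) (nat_lit 0x80e2c1c04) (nat_lit 1059510024),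
  Rx.mk (nat_lit 503) (nat_lit 7) (nat_lit 6) (nat_lit 7) (nat_lit 7) (nat_lit 211) (nat_lit 135) r4_211 r11_135 (nat_lit 0) (nat_lit 0) (nat_lit 0) (nat_lit 0x867de86ba) (nat_lit 968842524)]
noncomputable def e9_35 : List Rx := [
  Rx.mk (nat_lit 35) (nat_lit 3) (nat_lit 4) (nat_lit 0) (nat_lit 1) (nat_lit 217) (nat_lit 326) r4_217 r6_326 (nat_lit 0) (nat_lit 58427) (nat_lit 38193) (nat_lit 0x743c60600) (nat_lit 1269994544),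
  Rx.mk (nat_lit 39) (nat_lit 7) (nat_lit 4) (nat_lit 0) (nat_lit 1) (nat_lit 220) (nat_lit 327) r4_220 r6_327 (nat_lit 0) (nat_lit 1651260) (nat_lit 570165) (nat_lit 0x6c90a7590) (nat_lit 1400056949),
  Rx.mk (nat_lit 55) (nat_lit 7) (nat_lit 6) (nat_lit 0) (nat_lit 3) (nat_lit 222) (nat_lit 331) r4_222 r6_331 (nat_lit 0) (nat_lit 0) (nat_lit 34434) (nat_lit 0x47d93a886) (nat_lit 2010000758),
  Rx.mk (nat_lit 99) (nat_lit 3) (nat_lit 4) (nat_lit 1) (nat_lit 5) (nat_lit 218) (nat_lit 328) r4_218 r6_328 (nat_lit 0) (nat_lit 2224828) (nat_lit 0) (nat_lit 0x8082c4f54) (nat_lit 1067817452),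
  Rx.mk (nat_lit 103) (nat_lit 7) (nat_lit 4) (nat_lit 1) (nat_lit 5) (nat_lit 221) (nat_lit 329) r4_221 r6_329 (nat_lit 0) (nat_lit 2410025) (nat_lit 0) (nat_lit 0x7ff815124) (nat_lit 1076821349),
  Rx.mk (nat_lit 119) (nat_lit 7) (nat_lit 6) (nat_lit 1) (nat_lit 7) (nat_lit 223) (nat_lit 332) r4_223 r6_332 (nat_lit 0) (nat_lit 0) (nat_lit 0) (nat_lit 0x800d35cd4) (nat_lit 1073018224),
  Rx.mk (nat_lit 163) (nat_lit 3) (nat_lit 4) (nat_lit 2) (nat_lit 5) (nat_lit 219) (nat_lit 330) r4_219 r6_330 (nat_lit 0) (nat_lit 3048876) (nat_lit 0) (nat_lit 0x8040187e6) (nat_lit 1072866300)]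
noncomputable def e9_36 : List Rx := [
  Rx.mk (nat_lit 35) (nat_lit 3) (nat_lit 4) (nat_lit 0) (nat_lit 1) (nat_lit 241) (nat_lit 59) r4_241 r12_59 (nat_lit 0) (nat_lit 7512) (nat_lit 4959) (nat_lit 0x740a9ac7e) (nat_lit 1273141595),
  Rx.mk (nat_lit 39) (nat_lit 7) (nat_lit 4) (nat_lit 0) (nat_lit 1) (nat_lit 244) (nat_lit 65) r4_244 r12_65 (nat_lit 0) (nat_lit 345777) (nat_lit 92132) (nat_lit 0x669218308) (nat_lit 1498185533),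
  Rx.mk (nat_lit 55) (nat_lit 7) (nat_lit 6) (nat_lit 0) (nat_lit 3) (nat_lit 247) (nat_lit 68) r4_247 r12_68 (nat_lit 0) (nat_lit 0) (nat_lit 27079) (nat_lit 0x4f6309a74) (nat_lit 1884305203),
  Rx.mk (nat_lit 59) (nat_lit 3) (nat_lit 7) (nat_lit 0) (nat_lit 3) (nat_lit 250) (nat_lit 62) r4_250 r12_62 (nat_lit 0) (nat_lit 0) (nat_lit 634217) (nat_lit 0x80e08e356) (nat_lit 1060265941),
  Rx.mk (nat_lit 99) (nat_lit 3) (nat_lit 4) (nat_lit 1) (nat_lit 5) (nat_lit 242) (nat_lit 60) r4_242 r12_60 (nat_lit 0) (nat_lit 1474755) (nat_lit 0) (nat_lit 0x7fc5e39c6) (nat_lit 1079117479),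
  Rx.mk (nat_lit 103) (nat_lit 7) (nat_lit 4) (nat_lit 1) (nat_lit 5) (nat_lit 245) (nat_lit 66) r4_245 r12_66 (nat_lit 0) (nat_lit 2731196) (nat_lit 0) (nat_lit 0x7f937f28c) (nat_lit 1083641920),
  Rx.mk (nat_lit 119) (nat_lit 7) (nat_lit 6) (nat_lit 1) (nat_lit 7) (nat_lit 248) (nat_lit 69) r4_248 r12_69 (nat_lit 0) (nat_lit 0) (nat_lit 0) (nat_lit 0x7cc23aad4) (nat_lit 1127844724),
  Rx.mk (nat_lit 123) (nat_lit 3) (nat_lit 7) (nat_lit 1) (nat_lit 7) (nat_lit 251) (nat_lit 63) r4_251 r12_63 (nat_lit 0) (nat_lit 0) (nat_lit 0) (nat_lit 0x80e0ca86a) (nat_lit 1059635624),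
  Rx.mk (nat_lit 163) (nat_lit 3) (nat_lit 4) (nat_lit 2) (nat_lit 5) (nat_lit 243) (nat_lit 61) r4_243 r12_61 (nat_lit 0) (nat_lit 2620997) (nat_lit 0) (nat_lit 0x805ae309e) (nat_lit 1070736421),
  Rx.mk (nat_lit 187) (nat_lit 3) (nat_lit 7) (nat_lit 2) (nat_lit 7) (nat_lit 252) (nat_lit 64) r4_252 r12_64 (nat_lit 0) (nat_lit 0) (nat_lit 0) (nat_lit 0x80b8f660e) (nat_lit 1062154324),
  Rx.mk (nat_lit 231) (nat_lit 7) (nat_lit 4) (nat_lit 3) (nat_lit 5) (nat_lit 246) (nat_lit 67) r4_246 r12_67 (nat_lit 0) (nat_lit 2418689) (nat_lit 0) (nat_lit 0x799f9ba12) (nat_lit 1182552513),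
  Rx.mk (nat_lit 247) (nat_lit 7) (nat_lit 6) (nat_lit 3) (nat_lit 7) (nat_lit 249) (nat_lit 70) r4_249 r12_70 (nat_lit 0) (nat_lit 0) (nat_lit 0) (nat_lit 0x789ee7f22) (nat_lit 1196826224)]
noncomputable def e9_37 : List Rx := [
  Rx.mk (nat_lit 40) (nat_lit 0) (nat_lit 5) (nat_lit 0) (nat_lit 2) (nat_lit 262) (nat_lit 174) r4_262 r0_174 (nat_lit 365390624) (nat_lit 0) (nat_lit 507461) (nat_lit 0x677f48254) (nat_lit 1848225809),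
  Rx.mk (nat_lit 104) (nat_lit 0) (nat_lit 5) (nat_lit 1) (nat_lit 6) (nat_lit 263) (nat_lit 175) r4_263 r0_175 (nat_lit 172210768) (nat_lit 0) (nat_lit 0) (nat_lit 0x7e52e1528) (nat_lit 1273987192),
  Rx.mk (nat_lit 168) (nat_lit 0) (nat_lit 5) (nat_lit 2) (nat_lit 6) (nat_lit 264) (nat_lit 176) r4_264 r0_176 (nat_lit 481648953) (nat_lit 0) (nat_lit 0) (nat_lit 0x72b5b6132) (nat_lit 1777028277)]
noncomputable def e9_38 : List Rx := [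
  Rx.mk (nat_lit 33) (nat_lit 1) (nat_lit 4) (nat_lit 0) (nat_lit 1) (nat_lit 253) (nat_lit 306) r4_253 r0_306 (nat_lit 0) (nat_lit 109994147) (nat_lit 2254859) (nat_lit 0x721a33c50) (nat_lit 1417787930),
  Rx.mk (nat_lit 40) (nat_lit 0) (nat_lit 5) (nat_lit 0) (nat_lit 2) (nat_lit 256) (nat_lit 309) r4_256 r0_309 (nat_lit 8118484) (nat_lit 0) (nat_lit 89716582) (nat_lit 0x6a154d77a) (nat_lit 1537072690),
  Rx.mk (nat_lit 41) (nat_lit 1) (nat_lit 5) (nat_lit 0) (nat_lit 3) (nat_lit 259) (nat_lit 310) r4_259 r0_310 (nat_lit 0) (nat_lit 0) (nat_lit 5728860) (nat_lit 0x7fd6649a8) (nat_lit 1082310884),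
  Rx.mk (nat_lit 97) (nat_lit 1) (nat_lit 4) (nat_lit 1) (nat_lit 5) (nat_lit 254) (nat_lit 307) r4_254 r0_307 (nat_lit 0) (nat_lit 456084292) (nat_lit 0) (nat_lit 0x7d9d80ab2) (nat_lit 1569623716),
  Rx.mk (nat_lit 104) (nat_lit 0) (nat_lit 5) (nat_lit 1) (nat_lit 6) (nat_lit 257) (nat_lit 311) r4_257 r0_311 (nat_lit 6336730) (nat_lit 0) (nat_lit 0) (nat_lit 0x7fe202792) (nat_lit 1082176554),
  Rx.mk (nat_lit 105) (nat_lit 1) (nat_lit 5) (nat_lit 1) (nat_lit 7) (nat_lit 260) (nat_lit 312) r4_260 r0_312 (nat_lit 0) (nat_lit 0) (nat_lit 0) (nat_lit 0x8029d9714) (nat_lit 1071230724),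
  Rx.mk (nat_lit 161) (nat_lit 1) (nat_lit 4) (nat_lit 2) (nat_lit 5) (nat_lit 255) (nat_lit 308) r4_255 r0_308 (nat_lit 0) (nat_lit 7949593) (nat_lit 0) (nat_lit 0x7febedd10) (nat_lit 1083145917),
  Rx.mk (nat_lit 168) (nat_lit 0) (nat_lit 5) (nat_lit 2) (nat_lit 6) (nat_lit 258) (nat_lit 313) r4_258 r0_313 (nat_lit 3644892) (nat_lit 0) (nat_lit 0) (nat_lit 0x7fe25d200) (nat_lit 1079457116),
  Rx.mk (nat_lit 169) (nat_lit 1) (nat_lit 5) (nat_lit 2) (nat_lit 7) (nat_lit 261) (nat_lit 314) r4_261 r0_314 (nat_lit 0) (nat_lit 0) (nat_lit 0) (nat_lit 0x800cb83c4) (nat_lit 1073092924)]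
noncomputable def e9_39 : List Rx := [
  Rx.mk (nat_lit 40) (nat_lit 0) (nat_lit 5) (nat_lit 0) (nat_lit 2) (nat_lit 265) (nat_lit 223) r4_265 r7_223 (nat_lit 34184311) (nat_lit 0) (nat_lit 10345136) (nat_lit 0x6ebe1e59e) (nat_lit 1406084271),
  Rx.mk (nat_lit 41) (nat_lit 1) (nat_lit 5) (nat_lit 0) (nat_lit 3) (nat_lit 268) (nat_lit 226) r4_268 r7_226 (nat_lit 0) (nat_lit 0) (nat_lit 4100018) (nat_lit 0x801ea5dd4) (nat_lit 1076046742),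
  Rx.mk (nat_lit 104) (nat_lit 0) (nat_lit 5) (nat_lit 1) (nat_lit 6) (nat_lit 266) (nat_lit 224) r4_266 r7_224 (nat_lit 5449534) (nat_lit 0) (nat_lit 0) (nat_lit 0x80029938e) (nat_lit 1079191358),
  Rx.mk (nat_lit 105) (nat_lit 1) (nat_lit 5) (nat_lit 1) (nat_lit 7) (nat_lit 269) (nat_lit 227) r4_269 r7_227 (nat_lit 0) (nat_lit 0) (nat_lit 0) (nat_lit 0x80029938e) (nat_lit 1073741824),
  Rx.mk (nat_lit 168) (nat_lit 0) (nat_lit 5) (nat_lit 2) (nat_lit 6) (nat_lit 267) (nat_lit 225) r4_267 r7_225 (nat_lit 4321044) (nat_lit 0) (nat_lit 0) (nat_lit 0x800f26f02) (nat_lit 1077257068),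
  Rx.mk (nat_lit 169) (nat_lit 1) (nat_lit 5) (nat_lit 2) (nat_lit 7) (nat_lit 270) (nat_lit 228) r4_270 r7_228 (nat_lit 0) (nat_lit 0) (nat_lit 0) (nat_lit 0x80029938e) (nat_lit 1073741824)]
noncomputable def e9_40 : List Rx := [
  Rx.mk (nat_lit 97) (nat_lit 1) (nat_lit 4) (nat_lit 1) (nat_lit 5) (nat_lit 299) (nat_lit 334) r4_299 r2_334 (nat_lit 0) (nat_lit 10500472) (nat_lit 0) (nat_lit 0x7e885e7aa) (nat_lit 1108800696),
  Rx.mk (nat_lit 101) (nat_lit 5) (nat_lit 4) (nat_lit 1) (nat_lit 5) (nat_lit 300) (nat_lit 335) r4_300 r2_335 (nat_lit 0) (nat_lit 5449534) (nat_lit 0) (nat_lit 0x7ff8e874a) (nat_lit 1079813058),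
  Rx.mk (nat_lit 105) (nat_lit 1) (nat_lit 5) (nat_lit 1) (nat_lit 7) (nat_lit 301) (nat_lit 336) r4_301 r2_336 (nat_lit 0) (nat_lit 0) (nat_lit 0) (nat_lit 0x80029938e) (nat_lit 1073741824),
  Rx.mk (nat_lit 109) (nat_lit 5) (nat_lit 5) (nat_lit 1) (nat_lit 7) (nat_lit 302) (nat_lit 337) r4_302 r2_337 (nat_lit 0) (nat_lit 0) (nat_lit 0) (nat_lit 0x80029938e) (nat_lit 1073741824),
  Rx.mk (nat_lit 117) (nat_lit 5) (nat_lit 6) (nat_lit 1) (nat_lit 7) (nat_lit 303) (nat_lit 338) r4_303 r2_338 (nat_lit 0) (nat_lit 0) (nat_lit 0) (nat_lit 0x80029938e) (nat_lit 1073741824)]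
noncomputable def e9_41 : List Rx := [
  Rx.mk (nat_lit 105) (nat_lit 1) (nat_lit 5) (nat_lit 1) (nat_lit 7) (nat_lit 307) (nat_lit 305) r4_307 r9_305 (nat_lit 0) (nat_lit 0) (nat_lit 0) (nat_lit 0x80029938e) (nat_lit 1073741824),
  Rx.mk (nat_lit 109) (nat_lit 5) (nat_lit 5) (nat_lit 1) (nat_lit 7) (nat_lit 308) (nat_lit 306) r4_308 r9_306 (nat_lit 0) (nat_lit 0) (nat_lit 0) (nat_lit 0x80029938e) (nat_lit 1073741824)]
noncomputable def e9_42 : List Rx := [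
  Rx.mk (nat_lit 97) (nat_lit 1) (nat_lit 4) (nat_lit 1) (nat_lit 5) (nat_lit 309) (nat_lit 313) r4_309 r9_313 (nat_lit 0) (nat_lit 7165293) (nat_lit 0) (nat_lit 0x7f99d7f58) (nat_lit 1087672217),
  Rx.mk (nat_lit 101) (nat_lit 5) (nat_lit 4) (nat_lit 1) (nat_lit 5) (nat_lit 310) (nat_lit 312) r4_310 r9_312 (nat_lit 0) (nat_lit 5449534) (nat_lit 0) (nat_lit 0x7fff43810) (nat_lit 1079405158),
  Rx.mk (nat_lit 105) (nat_lit 1) (nat_lit 5) (nat_lit 1) (nat_lit 7) (nat_lit 311) (nat_lit 315) r4_311 r9_315 (nat_lit 0) (nat_lit 0) (nat_lit 0) (nat_lit 0x80029938e) (nat_lit 1073741824),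
  Rx.mk (nat_lit 109) (nat_lit 5) (nat_lit 5) (nat_lit 1) (nat_lit 7) (nat_lit 312) (nat_lit 314) r4_312 r9_314 (nat_lit 0) (nat_lit 0) (nat_lit 0) (nat_lit 0x80029938e) (nat_lit 1073741824),
  Rx.mk (nat_lit 117) (nat_lit 5) (nat_lit 6) (nat_lit 1) (nat_lit 7) (nat_lit 313) (nat_lit 316) r4_313 r9_316 (nat_lit 0) (nat_lit 0) (nat_lit 0) (nat_lit 0x80029938e) (nat_lit 1073741824),
  Rx.mk (nat_lit 373) (nat_lit 5) (nat_lit 6) (nat_lit 5) (nat_lit 7) (nat_lit 314) (nat_lit 311) r4_314 r9_311 (nat_lit 0) (nat_lit 0) (nat_lit 0) (nat_lit 0x80029938e) (nat_lit 1073741824)]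
noncomputable def e9_43 : List Rx := [
  Rx.mk (nat_lit 33) (nat_lit 1) (nat_lit 4) (nat_lit 0) (nat_lit 1) (nat_lit 293) (nat_lit 297) r4_293 r1_297 (nat_lit 0) (nat_lit 227840882) (nat_lit 5098899) (nat_lit 0x7551b3222) (nat_lit 1484851905),
  Rx.mk (nat_lit 41) (nat_lit 1) (nat_lit 5) (nat_lit 0) (nat_lit 3) (nat_lit 296) (nat_lit 300) r4_296 r1_300 (nat_lit 0) (nat_lit 0) (nat_lit 4793271) (nat_lit 0x7fffe83ba) (nat_lit 1078705595),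
  Rx.mk (nat_lit 97) (nat_lit 1) (nat_lit 4) (nat_lit 1) (nat_lit 5) (nat_lit 294) (nat_lit 298) r4_294 r1_298 (nat_lit 0) (nat_lit 239917945) (nat_lit 0) (nat_lit 0x7f5e8ef50) (nat_lit 1324257369),
  Rx.mk (nat_lit 105) (nat_lit 1) (nat_lit 5) (nat_lit 1) (nat_lit 7) (nat_lit 297) (nat_lit 301) r4_297 r1_301 (nat_lit 0) (nat_lit 0) (nat_lit 0) (nat_lit 0x80265157e) (nat_lit 1071456124),
  Rx.mk (nat_lit 161) (nat_lit 1) (nat_lit 4) (nat_lit 2) (nat_lit 5) (nat_lit 295) (nat_lit 299) r4_295 r1_299 (nat_lit 0) (nat_lit 5727388) (nat_lit 0) (nat_lit 0x801c5e8a0) (nat_lit 1077818112),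
  Rx.mk (nat_lit 169) (nat_lit 1) (nat_lit 5) (nat_lit 2) (nat_lit 7) (nat_lit 298) (nat_lit 302) r4_298 r1_302 (nat_lit 0) (nat_lit 0) (nat_lit 0) (nat_lit 0x80107341e) (nat_lit 1072853724)]
noncomputable def e9_44 : List Rx := [
  Rx.mk (nat_lit 41) (nat_lit 1) (nat_lit 5) (nat_lit 0) (nat_lit 3) (nat_lit 304) (nat_lit 181) r4_304 r8_181 (nat_lit 0) (nat_lit 0) (nat_lit 5449534) (nat_lit 0x80029938e) (nat_lit 1079191358),
  Rx.mk (nat_lit 105) (nat_lit 1) (nat_lit 5) (nat_lit 1) (nat_lit 7) (nat_lit 305) (nat_lit 182) r4_305 r8_182 (nat_lit 0) (nat_lit 0) (nat_lit 0) (nat_lit 0x80029938e) (nat_lit 1073741824),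
  Rx.mk (nat_lit 169) (nat_lit 1) (nat_lit 5) (nat_lit 2) (nat_lit 7) (nat_lit 306) (nat_lit 183) r4_306 r8_183 (nat_lit 0) (nat_lit 0) (nat_lit 0) (nat_lit 0x80029938e) (nat_lit 1073741824)]
noncomputable def e9_45 : List Rx := [
  Rx.mk (nat_lit 40) (nat_lit 0) (nat_lit 5) (nat_lit 0) (nat_lit 2) (nat_lit 281) (nat_lit 187) r4_281 r1_187 (nat_lit 121901927) (nat_lit 0) (nat_lit 33051833) (nat_lit 0x6d0be5900) (nat_lit 1544782984),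
  Rx.mk (nat_lit 104) (nat_lit 0) (nat_lit 5) (nat_lit 1) (nat_lit 6) (nat_lit 282) (nat_lit 188) r4_282 r1_188 (nat_lit 5449534) (nat_lit 0) (nat_lit 0) (nat_lit 0x8040748b6) (nat_lit 1075240558),
  Rx.mk (nat_lit 136) (nat_lit 0) (nat_lit 1) (nat_lit 2) (nat_lit 6) (nat_lit 279) (nat_lit 190) r4_279 r1_190 (nat_lit 133026953) (nat_lit 0) (nat_lit 0) (nat_lit 0x8042f6120) (nat_lit 1202645077),
  Rx.mk (nat_lit 138) (nat_lit 2) (nat_lit 1) (nat_lit 2) (nat_lit 7) (nat_lit 280) (nat_lit 191) r4_280 r1_191 (nat_lit 0) (nat_lit 0) (nat_lit 0) (nat_lit 0x807e3d260) (nat_lit 1065870924),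
  Rx.mk (nat_lit 168) (nat_lit 0) (nat_lit 5) (nat_lit 2) (nat_lit 6) (nat_lit 283) (nat_lit 189) r4_283 r1_189 (nat_lit 362600088) (nat_lit 0) (nat_lit 0) (nat_lit 0x7fac88b7a) (nat_lit 1441871812)]
noncomputable def e9_46 : List Rx := [
  Rx.mk (nat_lit 136) (nat_lit 0) (nat_lit 1) (nat_lit 2) (nat_lit 6) (nat_lit 271) (nat_lit 187) r4_271 r2_187 (nat_lit 5449534) (nat_lit 0) (nat_lit 0) (nat_lit 0x80029938e) (nat_lit 1079191358),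
  Rx.mk (nat_lit 138) (nat_lit 2) (nat_lit 1) (nat_lit 2) (nat_lit 7) (nat_lit 272) (nat_lit 188) r4_272 r2_188 (nat_lit 0) (nat_lit 0) (nat_lit 0) (nat_lit 0x80029938e) (nat_lit 1073741824)]
noncomputable def e9_47 : List Rx := [
  Rx.mk (nat_lit 40) (nat_lit 0) (nat_lit 5) (nat_lit 0) (nat_lit 2) (nat_lit 287) (nat_lit 341) r4_287 r8_341 (nat_lit 6927974) (nat_lit 0) (nat_lit 6310285) (nat_lit 0x6ff2af942) (nat_lit 1354702483),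
  Rx.mk (nat_lit 41) (nat_lit 1) (nat_lit 5) (nat_lit 0) (nat_lit 3) (nat_lit 290) (nat_lit 342) r4_290 r8_342 (nat_lit 0) (nat_lit 0) (nat_lit 5449534) (nat_lit 0x80029938e) (nat_lit 1079191358),
  Rx.mk (nat_lit 104) (nat_lit 0) (nat_lit 5) (nat_lit 1) (nat_lit 6) (nat_lit 288) (nat_lit 343) r4_288 r8_343 (nat_lit 5449534) (nat_lit 0) (nat_lit 0) (nat_lit 0x80029938e) (nat_lit 1079191358),
  Rx.mk (nat_lit 105) (nat_lit 1) (nat_lit 5) (nat_lit 1) (nat_lit 7) (nat_lit 291) (nat_lit 344) r4_291 r8_344 (nat_lit 0) (nat_lit 0) (nat_lit 0) (nat_lit 0x80029938e) (nat_lit 1073741824),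
  Rx.mk (nat_lit 136) (nat_lit 0) (nat_lit 1) (nat_lit 2) (nat_lit 6) (nat_lit 284) (nat_lit 338) r4_284 r8_338 (nat_lit 5449534) (nat_lit 0) (nat_lit 0) (nat_lit 0x80029938e) (nat_lit 1079191358),
  Rx.mk (nat_lit 137) (nat_lit 1) (nat_lit 1) (nat_lit 2) (nat_lit 7) (nat_lit 285) (nat_lit 339) r4_285 r8_339 (nat_lit 0) (nat_lit 0) (nat_lit 0) (nat_lit 0x80029938e) (nat_lit 1073741824),
  Rx.mk (nat_lit 138) (nat_lit 2) (nat_lit 1) (nat_lit 2) (nat_lit 7) (nat_lit 286) (nat_lit 340) r4_286 r8_340 (nat_lit 0) (nat_lit 0) (nat_lit 0) (nat_lit 0x80029938e) (nat_lit 1073741824),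
  Rx.mk (nat_lit 168) (nat_lit 0) (nat_lit 5) (nat_lit 2) (nat_lit 6) (nat_lit 289) (nat_lit 345) r4_289 r8_345 (nat_lit 5449534) (nat_lit 0) (nat_lit 0) (nat_lit 0x80029938e) (nat_lit 1079191358),
  Rx.mk (nat_lit 169) (nat_lit 1) (nat_lit 5) (nat_lit 2) (nat_lit 7) (nat_lit 292) (nat_lit 346) r4_292 r8_346 (nat_lit 0) (nat_lit 0) (nat_lit 0) (nat_lit 0x80029938e) (nat_lit 1073741824)]
noncomputable def e9_48 : List Rx := [
  Rx.mk (nat_lit 136) (nat_lit 0) (nat_lit 1) (nat_lit 2) (nat_lit 6) (nat_lit 273) (nat_lit 167) r4_273 r9_167 (nat_lit 5449534) (nat_lit 0) (nat_lit 0) (nat_lit 0x80029938e) (nat_lit 1079191358),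
  Rx.mk (nat_lit 137) (nat_lit 1) (nat_lit 1) (nat_lit 2) (nat_lit 7) (nat_lit 274) (nat_lit 168) r4_274 r9_168 (nat_lit 0) (nat_lit 0) (nat_lit 0) (nat_lit 0x80029938e) (nat_lit 1073741824),
  Rx.mk (nat_lit 138) (nat_lit 2) (nat_lit 1) (nat_lit 2) (nat_lit 7) (nat_lit 275) (nat_lit 169) r4_275 r9_169 (nat_lit 0) (nat_lit 0) (nat_lit 0) (nat_lit 0x80029938e) (nat_lit 1073741824)]
noncomputable def e9_49 : List Rx := [
  Rx.mk (nat_lit 136) (nat_lit 0) (nat_lit 1) (nat_lit 2) (nat_lit 6) (nat_lit 276) (nat_lit 133) r4_276 r9_133 (nat_lit 5449534) (nat_lit 0) (nat_lit 0) (nat_lit 0x80029938e) (nat_lit 1079191358),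
  Rx.mk (nat_lit 138) (nat_lit 2) (nat_lit 1) (nat_lit 2) (nat_lit 7) (nat_lit 277) (nat_lit 134) r4_277 r9_134 (nat_lit 0) (nat_lit 0) (nat_lit 0) (nat_lit 0x80029938e) (nat_lit 1073741824),
  Rx.mk (nat_lit 394) (nat_lit 2) (nat_lit 1) (nat_lit 6) (nat_lit 7) (nat_lit 278) (nat_lit 135) r4_278 r9_135 (nat_lit 0) (nat_lit 0) (nat_lit 0) (nat_lit 0x80029938e) (nat_lit 1073741824)]
noncomputable def e9_50 : List Rx := [
  Rx.mk (nat_lit 32) (nat_lit 0) (nat_lit 4) (nat_lit 0) (nat_lit 0) (nat_lit 315) (nat_lit 155) r4_315 r3_155 (nat_lit 599) (nat_lit 556) (nat_lit 381) (nat_lit 0x6cd77f4c2) (nat_lit 1393168560),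
  Rx.mk (nat_lit 35) (nat_lit 3) (nat_lit 4) (nat_lit 0) (nat_lit 1) (nat_lit 318) (nat_lit 161) r4_318 r3_161 (nat_lit 0) (nat_lit 81020) (nat_lit 60686) (nat_lit 0x801a46ce8) (nat_lit 1072248030),
  Rx.mk (nat_lit 40) (nat_lit 0) (nat_lit 5) (nat_lit 0) (nat_lit 2) (nat_lit 321) (nat_lit 156) r4_321 r3_156 (nat_lit 48933) (nat_lit 0) (nat_lit 40791) (nat_lit 0x7dd97d7c2) (nat_lit 1109695448),
  Rx.mk (nat_lit 43) (nat_lit 3) (nat_lit 5) (nat_lit 0) (nat_lit 3) (nat_lit 324) (nat_lit 162) r4_324 r3_162 (nat_lit 0) (nat_lit 0) (nat_lit 584304) (nat_lit 0x9167d9fb2) (nat_lit 792933828),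
  Rx.mk (nat_lit 96) (nat_lit 0) (nat_lit 4) (nat_lit 1) (nat_lit 4) (nat_lit 316) (nat_lit 157) r4_316 r3_157 (nat_lit 4812) (nat_lit 78702452) (nat_lit 0) (nat_lit 0x7ffa386b8) (nat_lit 1152826188),
  Rx.mk (nat_lit 99) (nat_lit 3) (nat_lit 4) (nat_lit 1) (nat_lit 5) (nat_lit 319) (nat_lit 163) r4_319 r3_163 (nat_lit 0) (nat_lit 1522780) (nat_lit 0) (nat_lit 0x8378e3c12) (nat_lit 1019195904),
  Rx.mk (nat_lit 104) (nat_lit 0) (nat_lit 5) (nat_lit 1) (nat_lit 6) (nat_lit 322) (nat_lit 158) r4_322 r3_158 (nat_lit 1367560) (nat_lit 0) (nat_lit 0) (nat_lit 0x8ae095fb6) (nat_lit 899278784),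
  Rx.mk (nat_lit 107) (nat_lit 3) (nat_lit 5) (nat_lit 1) (nat_lit 7) (nat_lit 325) (nat_lit 164) r4_325 r3_164 (nat_lit 0) (nat_lit 0) (nat_lit 0) (nat_lit 0x8580ec5f6) (nat_lit 984823424),
  Rx.mk (nat_lit 160) (nat_lit 0) (nat_lit 4) (nat_lit 2) (nat_lit 4) (nat_lit 317) (nat_lit 159) r4_317 r3_159 (nat_lit 110773703) (nat_lit 9406) (nat_lit 0) (nat_lit 0x7ffe0e01c) (nat_lit 1184655233),
  Rx.mk (nat_lit 163) (nat_lit 3) (nat_lit 4) (nat_lit 2) (nat_lit 5) (nat_lit 320) (nat_lit 165) r4_320 r3_165 (nat_lit 0) (nat_lit 1606138) (nat_lit 0) (nat_lit 0x821e57844) (nat_lit 1041172862),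
  Rx.mk (nat_lit 168) (nat_lit 0) (nat_lit 5) (nat_lit 2) (nat_lit 6) (nat_lit 323) (nat_lit 160) r4_323 r3_160 (nat_lit 70023929) (nat_lit 0) (nat_lit 0) (nat_lit 0x92ac5cf30) (nat_lit 841861753),
  Rx.mk (nat_lit 171) (nat_lit 3) (nat_lit 5) (nat_lit 2) (nat_lit 7) (nat_lit 326) (nat_lit 166) r4_326 r3_166 (nat_lit 0) (nat_lit 0) (nat_lit 0) (nat_lit 0x84b6c300e) (nat_lit 997593924)]
noncomputable def e9_51 : List Rx := [
  Rx.mk (nat_lit 40) (nat_lit 0) (nat_lit 5) (nat_lit 0) (nat_lit 2) (nat_lit 349) (nat_lit 161) r4_349 r4_161 (nat_lit 8619398) (nat_lit 0) (nat_lit 2616584) (nat_lit 0x73ea8d198) (nat_lit 1286528806),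
  Rx.mk (nat_lit 43) (nat_lit 3) (nat_lit 5) (nat_lit 0) (nat_lit 3) (nat_lit 352) (nat_lit 164) r4_352 r4_164 (nat_lit 0) (nat_lit 0) (nat_lit 2457581) (nat_lit 0x8015711e6) (nat_lit 1074979605),
  Rx.mk (nat_lit 104) (nat_lit 0) (nat_lit 5) (nat_lit 1) (nat_lit 6) (nat_lit 350) (nat_lit 162) r4_350 r4_162 (nat_lit 5449534) (nat_lit 0) (nat_lit 0) (nat_lit 0x802346fd2) (nat_lit 1077099558),
  Rx.mk (nat_lit 107) (nat_lit 3) (nat_lit 5) (nat_lit 1) (nat_lit 7) (nat_lit 353) (nat_lit 165) r4_353 r4_165 (nat_lit 0) (nat_lit 0) (nat_lit 0) (nat_lit 0x805278670) (nat_lit 1068646324),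
  Rx.mk (nat_lit 168) (nat_lit 0) (nat_lit 5) (nat_lit 2) (nat_lit 6) (nat_lit 351) (nat_lit 163) r4_351 r4_163 (nat_lit 8320896) (nat_lit 0) (nat_lit 0) (nat_lit 0x804e26a54) (nat_lit 1077233520),
  Rx.mk (nat_lit 171) (nat_lit 3) (nat_lit 5) (nat_lit 2) (nat_lit 7) (nat_lit 354) (nat_lit 166) r4_354 r4_166 (nat_lit 0) (nat_lit 0) (nat_lit 0) (nat_lit 0x8054e1330) (nat_lit 1068491824)]
noncomputable def e9_52 : List Rx := [
  Rx.mk (nat_lit 32) (nat_lit 0) (nat_lit 4) (nat_lit 0) (nat_lit 0) (nat_lit 366) (nat_lit 169) r4_366 r5_169 (nat_lit 4259189) (nat_lit 860710) (nat_lit 466835) (nat_lit 0x635d5b15e) (nat_lit 1556822258),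
  Rx.mk (nat_lit 35) (nat_lit 3) (nat_lit 4) (nat_lit 0) (nat_lit 1) (nat_lit 369) (nat_lit 177) r4_369 r5_177 (nat_lit 0) (nat_lit 2934250) (nat_lit 2004750) (nat_lit 0x73620465a) (nat_lit 1289129524),
  Rx.mk (nat_lit 40) (nat_lit 0) (nat_lit 5) (nat_lit 0) (nat_lit 2) (nat_lit 373) (nat_lit 170) r4_373 r5_170 (nat_lit 153422483) (nat_lit 0) (nat_lit 3329898) (nat_lit 0x7f7ad06e6) (nat_lit 1239277705),
  Rx.mk (nat_lit 43) (nat_lit 3) (nat_lit 5) (nat_lit 0) (nat_lit 3) (nat_lit 375) (nat_lit 178) r4_375 r5_178 (nat_lit 0) (nat_lit 0) (nat_lit 2300083) (nat_lit 0x804f77e08) (nat_lit 1071135707),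
  Rx.mk (nat_lit 56) (nat_lit 0) (nat_lit 7) (nat_lit 0) (nat_lit 2) (nat_lit 378) (nat_lit 171) r4_378 r5_171 (nat_lit 6556923) (nat_lit 0) (nat_lit 4331708) (nat_lit 0x7f318d5ec) (nat_lit 1098171755),
  Rx.mk (nat_lit 96) (nat_lit 0) (nat_lit 4) (nat_lit 1) (nat_lit 4) (nat_lit 367) (nat_lit 172) r4_367 r5_172 (nat_lit 12405820) (nat_lit 17535176) (nat_lit 0) (nat_lit 0x795ddbf82) (nat_lit 1214366620),
  Rx.mk (nat_lit 99) (nat_lit 3) (nat_lit 4) (nat_lit 1) (nat_lit 5) (nat_lit 370) (nat_lit 179) r4_370 r5_179 (nat_lit 0) (nat_lit 2793643) (nat_lit 0) (nat_lit 0x803c95650) (nat_lit 1072830667),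
  Rx.mk (nat_lit 120) (nat_lit 0) (nat_lit 7) (nat_lit 1) (nat_lit 6) (nat_lit 379) (nat_lit 173) r4_379 r5_173 (nat_lit 5449534) (nat_lit 0) (nat_lit 0) (nat_lit 0x80029938e) (nat_lit 1079191358),
  Rx.mk (nat_lit 160) (nat_lit 0) (nat_lit 4) (nat_lit 2) (nat_lit 4) (nat_lit 368) (nat_lit 174) r4_368 r5_174 (nat_lit 168964555) (nat_lit 2267724) (nat_lit 0) (nat_lit 0x7c6cb83d6) (nat_lit 1304668303),
  Rx.mk (nat_lit 163) (nat_lit 3) (nat_lit 4) (nat_lit 2) (nat_lit 5) (nat_lit 371) (nat_lit 182) r4_371 r5_182 (nat_lit 0) (nat_lit 2786793) (nat_lit 0) (nat_lit 0x8043eceee) (nat_lit 1072357417),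
  Rx.mk (nat_lit 168) (nat_lit 0) (nat_lit 5) (nat_lit 2) (nat_lit 6) (nat_lit 374) (nat_lit 175) r4_374 r5_175 (nat_lit 16093624) (nat_lit 0) (nat_lit 0) (nat_lit 0x801f08c90) (nat_lit 1088008048),
  Rx.mk (nat_lit 171) (nat_lit 3) (nat_lit 5) (nat_lit 2) (nat_lit 7) (nat_lit 376) (nat_lit 183) r4_376 r5_183 (nat_lit 0) (nat_lit 0) (nat_lit 0) (nat_lit 0x803aaf69c) (nat_lit 1070158824),
  Rx.mk (nat_lit 184) (nat_lit 0) (nat_lit 7) (nat_lit 2) (nat_lit 6) (nat_lit 380) (nat_lit 176) r4_380 r5_176 (nat_lit 5449534) (nat_lit 0) (nat_lit 0) (nat_lit 0x802356b3a) (nat_lit 1077095958),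
  Rx.mk (nat_lit 227) (nat_lit 3) (nat_lit 4) (nat_lit 3) (nat_lit 5) (nat_lit 372) (nat_lit 180) r4_372 r5_180 (nat_lit 0) (nat_lit 5596659) (nat_lit 0) (nat_lit 0x7fa5306f2) (nat_lit 1085368283),
  Rx.mk (nat_lit 235) (nat_lit 3) (nat_lit 5) (nat_lit 3) (nat_lit 7) (nat_lit 377) (nat_lit 181) r4_377 r5_181 (nat_lit 0) (nat_lit 0) (nat_lit 0) (nat_lit 0x8012f24a6) (nat_lit 1072693924)]
noncomputable def e9_53 : List Rx := [
  Rx.mk (nat_lit 32) (nat_lit 0) (nat_lit 4) (nat_lit 0) (nat_lit 0) (nat_lit 327) (nat_lit 327) r4_327 r4_327 (nat_lit 1722812) (nat_lit 9657535) (nat_lit 1722812) (nat_lit 0x67a260d5e) (nat_lit 1493172983),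
  Rx.mk (nat_lit 33) (nat_lit 1) (nat_lit 4) (nat_lit 0) (nat_lit 1) (nat_lit 330) (nat_lit 328) r4_330 r4_328 (nat_lit 0) (nat_lit 43688353) (nat_lit 1920730) (nat_lit 0x7b1f6d816) (nat_lit 1200755307),
  Rx.mk (nat_lit 35) (nat_lit 3) (nat_lit 4) (nat_lit 0) (nat_lit 1) (nat_lit 333) (nat_lit 329) r4_333 r4_329 (nat_lit 0) (nat_lit 7032255) (nat_lit 6399069) (nat_lit 0x7e65caa36) (nat_lit 1113984948),
  Rx.mk (nat_lit 40) (nat_lit 0) (nat_lit 5) (nat_lit 0) (nat_lit 2) (nat_lit 335) (nat_lit 335) r4_335 r4_335 (nat_lit 107308903) (nat_lit 0) (nat_lit 107308903) (nat_lit 0x7f6eaa40c) (nat_lit 1297928030),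
  Rx.mk (nat_lit 41) (nat_lit 1) (nat_lit 5) (nat_lit 0) (nat_lit 3) (nat_lit 338) (nat_lit 336) r4_338 r4_336 (nat_lit 0) (nat_lit 0) (nat_lit 5024246) (nat_lit 0x80099945e) (nat_lit 1078317170),
  Rx.mk (nat_lit 43) (nat_lit 3) (nat_lit 5) (nat_lit 0) (nat_lit 3) (nat_lit 341) (nat_lit 337) r4_341 r4_337 (nat_lit 0) (nat_lit 0) (nat_lit 5002485) (nat_lit 0x80137c75a) (nat_lit 1077661009),
  Rx.mk (nat_lit 96) (nat_lit 0) (nat_lit 4) (nat_lit 1) (nat_lit 4) (nat_lit 328) (nat_lit 330) r4_328 r4_330 (nat_lit 1920730) (nat_lit 43688353) (nat_lit 0) (nat_lit 0x7b1f6d816) (nat_lit 1200755307),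
  Rx.mk (nat_lit 97) (nat_lit 1) (nat_lit 4) (nat_lit 1) (nat_lit 5) (nat_lit 331) (nat_lit 331) r4_331 r4_331 (nat_lit 0) (nat_lit 5449534) (nat_lit 0) (nat_lit 0x801b12a8c) (nat_lit 1077620558),
  Rx.mk (nat_lit 99) (nat_lit 3) (nat_lit 4) (nat_lit 1) (nat_lit 5) (nat_lit 334) (nat_lit 332) r4_334 r4_332 (nat_lit 0) (nat_lit 5449534) (nat_lit 0) (nat_lit 0x8024cb2ae) (nat_lit 1077002758),
  Rx.mk (nat_lit 104) (nat_lit 0) (nat_lit 5) (nat_lit 1) (nat_lit 6) (nat_lit 336) (nat_lit 338) r4_336 r4_338 (nat_lit 5024246) (nat_lit 0) (nat_lit 0) (nat_lit 0x80099945e) (nat_lit 1078317170),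
  Rx.mk (nat_lit 105) (nat_lit 1) (nat_lit 5) (nat_lit 1) (nat_lit 7) (nat_lit 339) (nat_lit 339) r4_339 r4_339 (nat_lit 0) (nat_lit 0) (nat_lit 0) (nat_lit 0x80029938e) (nat_lit 1073741824),
  Rx.mk (nat_lit 107) (nat_lit 3) (nat_lit 5) (nat_lit 1) (nat_lit 7) (nat_lit 342) (nat_lit 340) r4_342 r4_340 (nat_lit 0) (nat_lit 0) (nat_lit 0) (nat_lit 0x80029938e) (nat_lit 1073741824),
  Rx.mk (nat_lit 160) (nat_lit 0) (nat_lit 4) (nat_lit 2) (nat_lit 4) (nat_lit 329) (nat_lit 333) r4_329 r4_333 (nat_lit 6399069) (nat_lit 7032255) (nat_lit 0) (nat_lit 0x7e65caa36) (nat_lit 1113984948),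
  Rx.mk (nat_lit 161) (nat_lit 1) (nat_lit 4) (nat_lit 2) (nat_lit 5) (nat_lit 332) (nat_lit 334) r4_332 r4_334 (nat_lit 0) (nat_lit 5449534) (nat_lit 0) (nat_lit 0x8024cb2ae) (nat_lit 1077002758),
  Rx.mk (nat_lit 168) (nat_lit 0) (nat_lit 5) (nat_lit 2) (nat_lit 6) (nat_lit 337) (nat_lit 341) r4_337 r4_341 (nat_lit 5002485) (nat_lit 0) (nat_lit 0) (nat_lit 0x80137c75a) (nat_lit 1077661009),
  Rx.mk (nat_lit 169) (nat_lit 1) (nat_lit 5) (nat_lit 2) (nat_lit 7) (nat_lit 340) (nat_lit 342) r4_340 r4_342 (nat_lit 0) (nat_lit 0) (nat_lit 0) (nat_lit 0x80029938e) (nat_lit 1073741824)]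
noncomputable def e9_54 : List Rx := [
  Rx.mk (nat_lit 40) (nat_lit 0) (nat_lit 5) (nat_lit 0) (nat_lit 2) (nat_lit 355) (nat_lit 175) r4_355 r10_175 (nat_lit 8253129) (nat_lit 0) (nat_lit 6309114) (nat_lit 0x750b231e0) (nat_lit 1271062467),
  Rx.mk (nat_lit 41) (nat_lit 1) (nat_lit 5) (nat_lit 0) (nat_lit 3) (nat_lit 358) (nat_lit 178) r4_358 r10_178 (nat_lit 0) (nat_lit 0) (nat_lit 3972091) (nat_lit 0x8021df644) (nat_lit 1075712715),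
  Rx.mk (nat_lit 43) (nat_lit 3) (nat_lit 5) (nat_lit 0) (nat_lit 3) (nat_lit 361) (nat_lit 181) r4_361 r10_181 (nat_lit 0) (nat_lit 0) (nat_lit 6376611) (nat_lit 0x8010e4d9e) (nat_lit 1079201535),
  Rx.mk (nat_lit 104) (nat_lit 0) (nat_lit 5) (nat_lit 1) (nat_lit 6) (nat_lit 356) (nat_lit 176) r4_356 r10_176 (nat_lit 5449534) (nat_lit 0) (nat_lit 0) (nat_lit 0x800d8cc28) (nat_lit 1078489458),
  Rx.mk (nat_lit 105) (nat_lit 1) (nat_lit 5) (nat_lit 1) (nat_lit 7) (nat_lit 359) (nat_lit 179) r4_359 r10_179 (nat_lit 0) (nat_lit 0) (nat_lit 0) (nat_lit 0x80029938e) (nat_lit 1073741824),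
  Rx.mk (nat_lit 107) (nat_lit 3) (nat_lit 5) (nat_lit 1) (nat_lit 7) (nat_lit 362) (nat_lit 182) r4_362 r10_182 (nat_lit 0) (nat_lit 0) (nat_lit 0) (nat_lit 0x80029938e) (nat_lit 1073741824),
  Rx.mk (nat_lit 168) (nat_lit 0) (nat_lit 5) (nat_lit 2) (nat_lit 6) (nat_lit 357) (nat_lit 177) r4_357 r10_177 (nat_lit 4709985) (nat_lit 0) (nat_lit 0) (nat_lit 0x8005c37ee) (nat_lit 1078247509),
  Rx.mk (nat_lit 169) (nat_lit 1) (nat_lit 5) (nat_lit 2) (nat_lit 7) (nat_lit 360) (nat_lit 180) r4_360 r10_180 (nat_lit 0) (nat_lit 0) (nat_lit 0) (nat_lit 0x80029938e) (nat_lit 1073741824)]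
noncomputable def e9_55 : List Rx := [
  Rx.mk (nat_lit 32) (nat_lit 0) (nat_lit 4) (nat_lit 0) (nat_lit 0) (nat_lit 381) (nat_lit 191) r4_381 r11_191 (nat_lit 3764156) (nat_lit 8641172) (nat_lit 3311660) (nat_lit 0x5c93f0a86) (nat_lit 1680132412),
  Rx.mk (nat_lit 33) (nat_lit 1) (nat_lit 4) (nat_lit 0) (nat_lit 1) (nat_lit 384) (nat_lit 199) r4_384 r11_199 (nat_lit 0) (nat_lit 15577727) (nat_lit 5599296) (nat_lit 0x7785e1fb0) (nat_lit 1236347147),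
  Rx.mk (nat_lit 35) (nat_lit 3) (nat_lit 4) (nat_lit 0) (nat_lit 1) (nat_lit 387) (nat_lit 207) r4_387 r11_207 (nat_lit 0) (nat_lit 9921122) (nat_lit 5959014) (nat_lit 0x7875189c6) (nat_lit 1215474960),
  Rx.mk (nat_lit 40) (nat_lit 0) (nat_lit 5) (nat_lit 0) (nat_lit 2) (nat_lit 390) (nat_lit 192) r4_390 r11_192 (nat_lit 144474354) (nat_lit 0) (nat_lit 4090407) (nat_lit 0x7f435b8aa) (nat_lit 1234692185),
  Rx.mk (nat_lit 41) (nat_lit 1) (nat_lit 5) (nat_lit 0) (nat_lit 3) (nat_lit 392) (nat_lit 200) r4_392 r11_200 (nat_lit 0) (nat_lit 0) (nat_lit 5449534) (nat_lit 0x80029938e) (nat_lit 1079191358),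
  Rx.mk (nat_lit 43) (nat_lit 3) (nat_lit 5) (nat_lit 0) (nat_lit 3) (nat_lit 394) (nat_lit 208) r4_394 r11_208 (nat_lit 0) (nat_lit 0) (nat_lit 5449534) (nat_lit 0x7ffe77e04) (nat_lit 1079456258),
  Rx.mk (nat_lit 56) (nat_lit 0) (nat_lit 7) (nat_lit 0) (nat_lit 2) (nat_lit 396) (nat_lit 193) r4_396 r11_193 (nat_lit 9076025) (nat_lit 0) (nat_lit 9076025) (nat_lit 0x7f223ad38) (nat_lit 1106437074),
  Rx.mk (nat_lit 57) (nat_lit 1) (nat_lit 7) (nat_lit 0) (nat_lit 3) (nat_lit 399) (nat_lit 201) r4_399 r11_201 (nat_lit 0) (nat_lit 0) (nat_lit 5449534) (nat_lit 0x80029938e) (nat_lit 1079191358),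
  Rx.mk (nat_lit 96) (nat_lit 0) (nat_lit 4) (nat_lit 1) (nat_lit 4) (nat_lit 382) (nat_lit 194) r4_382 r11_194 (nat_lit 4816256) (nat_lit 6858387) (nat_lit 0) (nat_lit 0x7fdca3fee) (nat_lit 1087856567),
  Rx.mk (nat_lit 97) (nat_lit 1) (nat_lit 4) (nat_lit 1) (nat_lit 5) (nat_lit 385) (nat_lit 202) r4_385 r11_202 (nat_lit 0) (nat_lit 7939064) (nat_lit 0) (nat_lit 0x7f609f326) (nat_lit 1092168788),
  Rx.mk (nat_lit 99) (nat_lit 3) (nat_lit 4) (nat_lit 1) (nat_lit 5) (nat_lit 388) (nat_lit 209) r4_388 r11_209 (nat_lit 0) (nat_lit 5449534) (nat_lit 0) (nat_lit 0x80029938e) (nat_lit 1079191358),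
  Rx.mk (nat_lit 120) (nat_lit 0) (nat_lit 7) (nat_lit 1) (nat_lit 6) (nat_lit 397) (nat_lit 195) r4_397 r11_195 (nat_lit 5449534) (nat_lit 0) (nat_lit 0) (nat_lit 0x80029938e) (nat_lit 1079191358),
  Rx.mk (nat_lit 121) (nat_lit 1) (nat_lit 7) (nat_lit 1) (nat_lit 7) (nat_lit 400) (nat_lit 203) r4_400 r11_203 (nat_lit 0) (nat_lit 0) (nat_lit 0) (nat_lit 0x80029938e) (nat_lit 1073741824),
  Rx.mk (nat_lit 160) (nat_lit 0) (nat_lit 4) (nat_lit 2) (nat_lit 4) (nat_lit 383) (nat_lit 196) r4_383 r11_196 (nat_lit 8534027) (nat_lit 6991617) (nat_lit 0) (nat_lit 0x7ccb3567a) (nat_lit 1142817968),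
  Rx.mk (nat_lit 161) (nat_lit 1) (nat_lit 4) (nat_lit 2) (nat_lit 5) (nat_lit 386) (nat_lit 204) r4_386 r11_204 (nat_lit 0) (nat_lit 5449534) (nat_lit 0) (nat_lit 0x80029938e) (nat_lit 1079191358),
  Rx.mk (nat_lit 168) (nat_lit 0) (nat_lit 5) (nat_lit 2) (nat_lit 6) (nat_lit 391) (nat_lit 197) r4_391 r11_197 (nat_lit 5723800) (nat_lit 0) (nat_lit 0) (nat_lit 0x800173b08) (nat_lit 1079538724),
  Rx.mk (nat_lit 169) (nat_lit 1) (nat_lit 5) (nat_lit 2) (nat_lit 7) (nat_lit 393) (nat_lit 205) r4_393 r11_205 (nat_lit 0) (nat_lit 0) (nat_lit 0) (nat_lit 0x80029938e) (nat_lit 1073741824),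
  Rx.mk (nat_lit 184) (nat_lit 0) (nat_lit 7) (nat_lit 2) (nat_lit 6) (nat_lit 398) (nat_lit 198) r4_398 r11_198 (nat_lit 5689996) (nat_lit 0) (nat_lit 0) (nat_lit 0x7ff72fb88) (nat_lit 1080165020),
  Rx.mk (nat_lit 185) (nat_lit 1) (nat_lit 7) (nat_lit 2) (nat_lit 7) (nat_lit 401) (nat_lit 206) r4_401 r11_206 (nat_lit 0) (nat_lit 0) (nat_lit 0) (nat_lit 0x80029938e) (nat_lit 1073741824),
  Rx.mk (nat_lit 227) (nat_lit 3) (nat_lit 4) (nat_lit 3) (nat_lit 5) (nat_lit 389) (nat_lit 210) r4_389 r11_210 (nat_lit 0) (nat_lit 5449534) (nat_lit 0) (nat_lit 0x80029938e) (nat_lit 1079191358),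
  Rx.mk (nat_lit 235) (nat_lit 3) (nat_lit 5) (nat_lit 3) (nat_lit 7) (nat_lit 395) (nat_lit 211) r4_395 r11_211 (nat_lit 0) (nat_lit 0) (nat_lit 0) (nat_lit 0x80029938e) (nat_lit 1073741824)]
noncomputable def e9_56 : List Rx := [
  Rx.mk (nat_lit 35) (nat_lit 3) (nat_lit 4) (nat_lit 0) (nat_lit 1) (nat_lit 343) (nat_lit 297) r4_343 r5_297 (nat_lit 0) (nat_lit 2493352) (nat_lit 1641854) (nat_lit 0x7a0e2dc14) (nat_lit 1177075130),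
  Rx.mk (nat_lit 43) (nat_lit 3) (nat_lit 5) (nat_lit 0) (nat_lit 3) (nat_lit 346) (nat_lit 300) r4_346 r5_300 (nat_lit 0) (nat_lit 0) (nat_lit 1185642) (nat_lit 0x8143bc13a) (nat_lit 1054562866),
  Rx.mk (nat_lit 99) (nat_lit 3) (nat_lit 4) (nat_lit 1) (nat_lit 5) (nat_lit 344) (nat_lit 298) r4_344 r5_298 (nat_lit 0) (nat_lit 2814931) (nat_lit 0) (nat_lit 0x806c9d226) (nat_lit 1069803455),
  Rx.mk (nat_lit 107) (nat_lit 3) (nat_lit 5) (nat_lit 1) (nat_lit 7) (nat_lit 347) (nat_lit 301) r4_347 r5_301 (nat_lit 0) (nat_lit 0) (nat_lit 0) (nat_lit 0x835c5378c) (nat_lit 1019479724),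
  Rx.mk (nat_lit 163) (nat_lit 3) (nat_lit 4) (nat_lit 2) (nat_lit 5) (nat_lit 345) (nat_lit 299) r4_345 r5_299 (nat_lit 0) (nat_lit 2902620) (nat_lit 0) (nat_lit 0x803de17f2) (nat_lit 1072857744),
  Rx.mk (nat_lit 171) (nat_lit 3) (nat_lit 5) (nat_lit 2) (nat_lit 7) (nat_lit 348) (nat_lit 302) r4_348 r5_302 (nat_lit 0) (nat_lit 0) (nat_lit 0) (nat_lit 0x8069ded64) (nat_lit 1067161624)]
noncomputable def e9_57 : List Rx := [
  Rx.mk (nat_lit 43) (nat_lit 3) (nat_lit 5) (nat_lit 0) (nat_lit 3) (nat_lit 363) (nat_lit 353) r4_363 r11_353 (nat_lit 0) (nat_lit 0) (nat_lit 4642613) (nat_lit 0x7fedac142) (nat_lit 1079729037),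
  Rx.mk (nat_lit 107) (nat_lit 3) (nat_lit 5) (nat_lit 1) (nat_lit 7) (nat_lit 364) (nat_lit 354) r4_364 r11_354 (nat_lit 0) (nat_lit 0) (nat_lit 0) (nat_lit 0x800f551b8) (nat_lit 1072925424),
  Rx.mk (nat_lit 171) (nat_lit 3) (nat_lit 5) (nat_lit 2) (nat_lit 7) (nat_lit 365) (nat_lit 355) r4_365 r11_355 (nat_lit 0) (nat_lit 0) (nat_lit 0) (nat_lit 0x800f551b8) (nat_lit 1072925424)]
noncomputable def e9 : List (List Rx) := [e9_0, e9_1, e9_2, e9_3, e9_4, e9_5, e9_6, e9_7, e9_8, e9_9, e9_10, e9_11, e9_12, e9_13, e9_14, e9_15, e9_16, e9_17, e9_18, e9_19, e9_20, e9_21, e9_22, e9_23, e9_24, e9_25, e9_26, e9_27, e9_28, e9_29, e9_30, e9_31, e9_32, e9_33, e9_34, e9_35, e9_36, e9_37, e9_38, e9_39, e9_40, e9_41, e9_42, e9_43, e9_44, e9_45, e9_46, e9_47, e9_48, e9_49, e9_50, e9_51, e9_52, e9_53, e9_54, e9_55, e9_56, e9_57]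
noncomputable def e10_0 : List Rx := [
  Rx.mk (nat_lit 22) (nat_lit 6) (nat_lit 2) (nat_lit 0) (nat_lit 3) (nat_lit 5) (nat_lit 85) r6_5 r0_85 (nat_lit 0) (nat_lit 0) (nat_lit 726571) (nat_lit 0x8053e60c0) (nat_lit 1069259595),
  Rx.mk (nat_lit 52) (nat_lit 4) (nat_lit 6) (nat_lit 0) (nat_lit 2) (nat_lit 0) (nat_lit 82) r6_0 r0_82 (nat_lit 287545) (nat_lit 0) (nat_lit 191551) (nat_lit 0x5ae6ab8ae) (nat_lit 1692810020),
  Rx.mk (nat_lit 54) (nat_lit 6) (nat_lit 6) (nat_lit 0) (nat_lit 3) (nat_lit 3) (nat_lit 87) r6_3 r0_87 (nat_lit 0) (nat_lit 0) (nat_lit 1891802) (nat_lit 0x7e43297ac) (nat_lit 1104700826),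
  Rx.mk (nat_lit 86) (nat_lit 6) (nat_lit 2) (nat_lit 1) (nat_lit 7) (nat_lit 6) (nat_lit 86) r6_6 r0_86 (nat_lit 0) (nat_lit 0) (nat_lit 0) (nat_lit 0x95d9fc690) (nat_lit 720454924),
  Rx.mk (nat_lit 116) (nat_lit 4) (nat_lit 6) (nat_lit 1) (nat_lit 6) (nat_lit 1) (nat_lit 83) r6_1 r0_83 (nat_lit 3246351) (nat_lit 0) (nat_lit 0) (nat_lit 0x7f1f1dac4) (nat_lit 1091721275),
  Rx.mk (nat_lit 118) (nat_lit 6) (nat_lit 6) (nat_lit 1) (nat_lit 7) (nat_lit 4) (nat_lit 88) r6_4 r0_88 (nat_lit 0) (nat_lit 0) (nat_lit 0) (nat_lit 0x823b44524) (nat_lit 1037739424),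
  Rx.mk (nat_lit 180) (nat_lit 4) (nat_lit 6) (nat_lit 2) (nat_lit 6) (nat_lit 2) (nat_lit 84) r6_2 r0_84 (nat_lit 1684651) (nat_lit 0) (nat_lit 0) (nat_lit 0x7dfbf60f6) (nat_lit 1109116275)]
noncomputable def e10_1 : List Rx := [
  Rx.mk (nat_lit 86) (nat_lit 6) (nat_lit 2) (nat_lit 1) (nat_lit 7) (nat_lit 9) (nat_lit 89) r6_9 r1_89 (nat_lit 0) (nat_lit 0) (nat_lit 0) (nat_lit 0x997d38914) (nat_lit 661632824),
  Rx.mk (nat_lit 116) (nat_lit 4) (nat_lit 6) (nat_lit 1) (nat_lit 6) (nat_lit 7) (nat_lit 88) r6_7 r1_88 (nat_lit 2919225) (nat_lit 0) (nat_lit 0) (nat_lit 0x8031e1df8) (nat_lit 1073634549),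
  Rx.mk (nat_lit 118) (nat_lit 6) (nat_lit 6) (nat_lit 1) (nat_lit 7) (nat_lit 8) (nat_lit 90) r6_8 r1_90 (nat_lit 0) (nat_lit 0) (nat_lit 0) (nat_lit 0x80844da2e) (nat_lit 1065486024)]
noncomputable def e10_2 : List Rx := [
  Rx.mk (nat_lit 86) (nat_lit 6) (nat_lit 2) (nat_lit 1) (nat_lit 7) (nat_lit 11) (nat_lit 94) r6_11 r2_94 (nat_lit 0) (nat_lit 0) (nat_lit 0) (nat_lit 0x80029938e) (nat_lit 1073741824),
  Rx.mk (nat_lit 342) (nat_lit 6) (nat_lit 2) (nat_lit 5) (nat_lit 7) (nat_lit 10) (nat_lit 95) r6_10 r2_95 (nat_lit 0) (nat_lit 0) (nat_lit 0) (nat_lit 0x80029938e) (nat_lit 1073741824)]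
noncomputable def e10_3 : List Rx := [
  Rx.mk (nat_lit 22) (nat_lit 6) (nat_lit 2) (nat_lit 0) (nat_lit 3) (nat_lit 15) (nat_lit 79) r6_15 r3_79 (nat_lit 0) (nat_lit 0) (nat_lit 59620) (nat_lit 0x7fefbb2da) (nat_lit 1074882044),
  Rx.mk (nat_lit 52) (nat_lit 4) (nat_lit 6) (nat_lit 0) (nat_lit 2) (nat_lit 12) (nat_lit 74) r6_12 r3_74 (nat_lit 636) (nat_lit 0) (nat_lit 536) (nat_lit 0x7ffffbb7c) (nat_lit 1073744396),
  Rx.mk (nat_lit 54) (nat_lit 6) (nat_lit 6) (nat_lit 0) (nat_lit 3) (nat_lit 14) (nat_lit 81) r6_14 r3_81 (nat_lit 0) (nat_lit 0) (nat_lit 106827) (nat_lit 0x7fdfdb806) (nat_lit 1075972951),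
  Rx.mk (nat_lit 55) (nat_lit 7) (nat_lit 6) (nat_lit 0) (nat_lit 3) (nat_lit 18) (nat_lit 77) r6_18 r3_77 (nat_lit 0) (nat_lit 0) (nat_lit 37171) (nat_lit 0x7f1a6eae6) (nat_lit 1088745295),
  Rx.mk (nat_lit 167) (nat_lit 7) (nat_lit 4) (nat_lit 2) (nat_lit 5) (nat_lit 17) (nat_lit 76) r6_17 r3_76 (nat_lit 0) (nat_lit 68827) (nat_lit 0) (nat_lit 0x7d81ad2b8) (nat_lit 1115392751),
  Rx.mk (nat_lit 180) (nat_lit 4) (nat_lit 6) (nat_lit 2) (nat_lit 6) (nat_lit 13) (nat_lit 75) r6_13 r3_75 (nat_lit 349767) (nat_lit 0) (nat_lit 0) (nat_lit 0x7dc28a740) (nat_lit 1111486291),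
  Rx.mk (nat_lit 183) (nat_lit 7) (nat_lit 6) (nat_lit 2) (nat_lit 7) (nat_lit 19) (nat_lit 78) r6_19 r3_78 (nat_lit 0) (nat_lit 0) (nat_lit 0) (nat_lit 0x8bee0d6f2) (nat_lit 880897024),
  Rx.mk (nat_lit 214) (nat_lit 6) (nat_lit 2) (nat_lit 3) (nat_lit 7) (nat_lit 16) (nat_lit 80) r6_16 r3_80 (nat_lit 0) (nat_lit 0) (nat_lit 0) (nat_lit 0x80161fbd8) (nat_lit 1072436524)]
noncomputable def e10_4 : List Rx := [
  Rx.mk (nat_lit 22) (nat_lit 6) (nat_lit 2) (nat_lit 0) (nat_lit 3) (nat_lit 25) (nat_lit 84) r6_25 r4_84 (nat_lit 0) (nat_lit 0) (nat_lit 882081) (nat_lit 0x802bbc932) (nat_lit 1071969705),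
  Rx.mk (nat_lit 52) (nat_lit 4) (nat_lit 6) (nat_lit 0) (nat_lit 2) (nat_lit 20) (nat_lit 78) r6_20 r4_78 (nat_lit 618791) (nat_lit 0) (nat_lit 458330) (nat_lit 0x6b49c39f4) (nat_lit 1420200045),
  Rx.mk (nat_lit 54) (nat_lit 6) (nat_lit 6) (nat_lit 0) (nat_lit 3) (nat_lit 23) (nat_lit 87) r6_23 r4_87 (nat_lit 0) (nat_lit 0) (nat_lit 1499729) (nat_lit 0x80082f4b0) (nat_lit 1074869353),
  Rx.mk (nat_lit 55) (nat_lit 7) (nat_lit 6) (nat_lit 0) (nat_lit 3) (nat_lit 28) (nat_lit 81) r6_28 r4_81 (nat_lit 0) (nat_lit 0) (nat_lit 21394) (nat_lit 0x59eab61f2) (nat_lit 1708731518),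
  Rx.mk (nat_lit 86) (nat_lit 6) (nat_lit 2) (nat_lit 1) (nat_lit 7) (nat_lit 26) (nat_lit 85) r6_26 r4_85 (nat_lit 0) (nat_lit 0) (nat_lit 0) (nat_lit 0x80900e8b8) (nat_lit 1064743624),
  Rx.mk (nat_lit 116) (nat_lit 4) (nat_lit 6) (nat_lit 1) (nat_lit 6) (nat_lit 21) (nat_lit 79) r6_21 r4_79 (nat_lit 2091838) (nat_lit 0) (nat_lit 0) (nat_lit 0x8027fc3e2) (nat_lit 1073434162),
  Rx.mk (nat_lit 118) (nat_lit 6) (nat_lit 6) (nat_lit 1) (nat_lit 7) (nat_lit 24) (nat_lit 88) r6_24 r4_88 (nat_lit 0) (nat_lit 0) (nat_lit 0) (nat_lit 0x802e4a924) (nat_lit 1070947924),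
  Rx.mk (nat_lit 119) (nat_lit 7) (nat_lit 6) (nat_lit 1) (nat_lit 7) (nat_lit 29) (nat_lit 82) r6_29 r4_82 (nat_lit 0) (nat_lit 0) (nat_lit 0) (nat_lit 0x802f01e94) (nat_lit 1070886824),
  Rx.mk (nat_lit 180) (nat_lit 4) (nat_lit 6) (nat_lit 2) (nat_lit 6) (nat_lit 22) (nat_lit 80) r6_22 r4_80 (nat_lit 2733861) (nat_lit 0) (nat_lit 0) (nat_lit 0x7eb79fd52) (nat_lit 1097952985),
  Rx.mk (nat_lit 183) (nat_lit 7) (nat_lit 6) (nat_lit 2) (nat_lit 7) (nat_lit 30) (nat_lit 83) r6_30 r4_83 (nat_lit 0) (nat_lit 0) (nat_lit 0) (nat_lit 0x80040e246) (nat_lit 1073614524),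
  Rx.mk (nat_lit 214) (nat_lit 6) (nat_lit 2) (nat_lit 3) (nat_lit 7) (nat_lit 27) (nat_lit 86) r6_27 r4_86 (nat_lit 0) (nat_lit 0) (nat_lit 0) (nat_lit 0x809f929ec) (nat_lit 1063761924)]
noncomputable def e10_5 : List Rx := [
  Rx.mk (nat_lit 52) (nat_lit 4) (nat_lit 6) (nat_lit 0) (nat_lit 2) (nat_lit 31) (nat_lit 70) r6_31 r5_70 (nat_lit 22438) (nat_lit 0) (nat_lit 16168) (nat_lit 0x7a1c8609a) (nat_lit 1171966330),
  Rx.mk (nat_lit 54) (nat_lit 6) (nat_lit 6) (nat_lit 0) (nat_lit 3) (nat_lit 34) (nat_lit 78) r6_34 r5_78 (nat_lit 0) (nat_lit 0) (nat_lit 3813020) (nat_lit 0x7e7fe50b0) (nat_lit 1102664344),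
  Rx.mk (nat_lit 55) (nat_lit 7) (nat_lit 6) (nat_lit 0) (nat_lit 3) (nat_lit 38) (nat_lit 75) r6_38 r5_75 (nat_lit 0) (nat_lit 0) (nat_lit 294333) (nat_lit 0x869783e6c) (nat_lit 967494857),
  Rx.mk (nat_lit 167) (nat_lit 7) (nat_lit 4) (nat_lit 2) (nat_lit 5) (nat_lit 37) (nat_lit 73) r6_37 r5_73 (nat_lit 0) (nat_lit 826810) (nat_lit 0) (nat_lit 0x802fe455a) (nat_lit 1071641334),
  Rx.mk (nat_lit 180) (nat_lit 4) (nat_lit 6) (nat_lit 2) (nat_lit 6) (nat_lit 32) (nat_lit 72) r6_32 r5_72 (nat_lit 2825381) (nat_lit 0) (nat_lit 0) (nat_lit 0x7fbf7b2aa) (nat_lit 1080886705),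
  Rx.mk (nat_lit 183) (nat_lit 7) (nat_lit 6) (nat_lit 2) (nat_lit 7) (nat_lit 39) (nat_lit 76) r6_39 r5_76 (nat_lit 0) (nat_lit 0) (nat_lit 0) (nat_lit 0x940158de4) (nat_lit 750318324),
  Rx.mk (nat_lit 191) (nat_lit 7) (nat_lit 7) (nat_lit 2) (nat_lit 7) (nat_lit 40) (nat_lit 74) r6_40 r5_74 (nat_lit 0) (nat_lit 0) (nat_lit 0) (nat_lit 0x804ab9c7c) (nat_lit 1069132524),
  Rx.mk (nat_lit 214) (nat_lit 6) (nat_lit 2) (nat_lit 3) (nat_lit 7) (nat_lit 36) (nat_lit 77) r6_36 r5_77 (nat_lit 0) (nat_lit 0) (nat_lit 0) (nat_lit 0x7d806d86c) (nat_lit 1115429524),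
  Rx.mk (nat_lit 244) (nat_lit 4) (nat_lit 6) (nat_lit 3) (nat_lit 6) (nat_lit 33) (nat_lit 71) r6_33 r5_71 (nat_lit 1145575) (nat_lit 0) (nat_lit 0) (nat_lit 0x81615e058) (nat_lit 1052648999),
  Rx.mk (nat_lit 246) (nat_lit 6) (nat_lit 6) (nat_lit 3) (nat_lit 7) (nat_lit 35) (nat_lit 79) r6_35 r5_79 (nat_lit 0) (nat_lit 0) (nat_lit 0) (nat_lit 0x8019076ca) (nat_lit 1072298224)]
noncomputable def e10_6 : List Rx := [
  Rx.mk (nat_lit 258) (nat_lit 2) (nat_lit 0) (nat_lit 4) (nat_lit 1) (nat_lit 44) (nat_lit 74) r6_44 r3_74 (nat_lit 0) (nat_lit 636) (nat_lit 536) (nat_lit 0x7ffffbb7c) (nat_lit 1073744396),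
  Rx.mk (nat_lit 274) (nat_lit 2) (nat_lit 2) (nat_lit 4) (nat_lit 3) (nat_lit 46) (nat_lit 81) r6_46 r3_81 (nat_lit 0) (nat_lit 0) (nat_lit 106827) (nat_lit 0x7fdfdb806) (nat_lit 1075972951),
  Rx.mk (nat_lit 278) (nat_lit 6) (nat_lit 2) (nat_lit 4) (nat_lit 3) (nat_lit 41) (nat_lit 79) r6_41 r3_79 (nat_lit 0) (nat_lit 0) (nat_lit 59620) (nat_lit 0x7fefbb2da) (nat_lit 1074882044),
  Rx.mk (nat_lit 282) (nat_lit 2) (nat_lit 3) (nat_lit 4) (nat_lit 3) (nat_lit 47) (nat_lit 77) r6_47 r3_77 (nat_lit 0) (nat_lit 0) (nat_lit 37171) (nat_lit 0x7f1a6eae6) (nat_lit 1088745295),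
  Rx.mk (nat_lit 386) (nat_lit 2) (nat_lit 0) (nat_lit 6) (nat_lit 5) (nat_lit 45) (nat_lit 75) r6_45 r3_75 (nat_lit 0) (nat_lit 349767) (nat_lit 0) (nat_lit 0x7dc28a740) (nat_lit 1111486291),
  Rx.mk (nat_lit 408) (nat_lit 0) (nat_lit 3) (nat_lit 6) (nat_lit 6) (nat_lit 43) (nat_lit 76) r6_43 r3_76 (nat_lit 68827) (nat_lit 0) (nat_lit 0) (nat_lit 0x7d81ad2b8) (nat_lit 1115392751),
  Rx.mk (nat_lit 410) (nat_lit 2) (nat_lit 3) (nat_lit 6) (nat_lit 7) (nat_lit 48) (nat_lit 78) r6_48 r3_78 (nat_lit 0) (nat_lit 0) (nat_lit 0) (nat_lit 0x8bee0d6f2) (nat_lit 880897024),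
  Rx.mk (nat_lit 470) (nat_lit 6) (nat_lit 2) (nat_lit 7) (nat_lit 7) (nat_lit 42) (nat_lit 80) r6_42 r3_80 (nat_lit 0) (nat_lit 0) (nat_lit 0) (nat_lit 0x80161fbd8) (nat_lit 1072436524)]
noncomputable def e10_7 : List Rx := [
  Rx.mk (nat_lit 258) (nat_lit 2) (nat_lit 0) (nat_lit 4) (nat_lit 1) (nat_lit 51) (nat_lit 82) r6_51 r0_82 (nat_lit 0) (nat_lit 287545) (nat_lit 191551) (nat_lit 0x5ae6ab8ae) (nat_lit 1692810020),
  Rx.mk (nat_lit 274) (nat_lit 2) (nat_lit 2) (nat_lit 4) (nat_lit 3) (nat_lit 54) (nat_lit 87) r6_54 r0_87 (nat_lit 0) (nat_lit 0) (nat_lit 1891802) (nat_lit 0x7e43297ac) (nat_lit 1104700826),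
  Rx.mk (nat_lit 278) (nat_lit 6) (nat_lit 2) (nat_lit 4) (nat_lit 3) (nat_lit 49) (nat_lit 85) r6_49 r0_85 (nat_lit 0) (nat_lit 0) (nat_lit 726571) (nat_lit 0x8053e60c0) (nat_lit 1069259595),
  Rx.mk (nat_lit 322) (nat_lit 2) (nat_lit 0) (nat_lit 5) (nat_lit 5) (nat_lit 52) (nat_lit 83) r6_52 r0_83 (nat_lit 0) (nat_lit 3246351) (nat_lit 0) (nat_lit 0x7f1f1dac4) (nat_lit 1091721275),
  Rx.mk (nat_lit 338) (nat_lit 2) (nat_lit 2) (nat_lit 5) (nat_lit 7) (nat_lit 55) (nat_lit 88) r6_55 r0_88 (nat_lit 0) (nat_lit 0) (nat_lit 0) (nat_lit 0x823b44524) (nat_lit 1037739424),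
  Rx.mk (nat_lit 342) (nat_lit 6) (nat_lit 2) (nat_lit 5) (nat_lit 7) (nat_lit 50) (nat_lit 86) r6_50 r0_86 (nat_lit 0) (nat_lit 0) (nat_lit 0) (nat_lit 0x95d9fc690) (nat_lit 720454924),
  Rx.mk (nat_lit 386) (nat_lit 2) (nat_lit 0) (nat_lit 6) (nat_lit 5) (nat_lit 53) (nat_lit 84) r6_53 r0_84 (nat_lit 0) (nat_lit 1684651) (nat_lit 0) (nat_lit 0x7dfbf60f6) (nat_lit 1109116275)]
noncomputable def e10_8 : List Rx := [
  Rx.mk (nat_lit 322) (nat_lit 2) (nat_lit 0) (nat_lit 5) (nat_lit 5) (nat_lit 57) (nat_lit 88) r6_57 r1_88 (nat_lit 0) (nat_lit 2919225) (nat_lit 0) (nat_lit 0x8031e1df8) (nat_lit 1073634549),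
  Rx.mk (nat_lit 338) (nat_lit 2) (nat_lit 2) (nat_lit 5) (nat_lit 7) (nat_lit 58) (nat_lit 90) r6_58 r1_90 (nat_lit 0) (nat_lit 0) (nat_lit 0) (nat_lit 0x80844da2e) (nat_lit 1065486024),
  Rx.mk (nat_lit 342) (nat_lit 6) (nat_lit 2) (nat_lit 5) (nat_lit 7) (nat_lit 56) (nat_lit 89) r6_56 r1_89 (nat_lit 0) (nat_lit 0) (nat_lit 0) (nat_lit 0x997d38914) (nat_lit 661632824)]
noncomputable def e10_9 : List Rx := [
  Rx.mk (nat_lit 258) (nat_lit 2) (nat_lit 0) (nat_lit 4) (nat_lit 1) (nat_lit 62) (nat_lit 78) r6_62 r4_78 (nat_lit 0) (nat_lit 618791) (nat_lit 458330) (nat_lit 0x6b49c39f4) (nat_lit 1420200045),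
  Rx.mk (nat_lit 274) (nat_lit 2) (nat_lit 2) (nat_lit 4) (nat_lit 3) (nat_lit 65) (nat_lit 87) r6_65 r4_87 (nat_lit 0) (nat_lit 0) (nat_lit 1499729) (nat_lit 0x80082f4b0) (nat_lit 1074869353),
  Rx.mk (nat_lit 278) (nat_lit 6) (nat_lit 2) (nat_lit 4) (nat_lit 3) (nat_lit 59) (nat_lit 84) r6_59 r4_84 (nat_lit 0) (nat_lit 0) (nat_lit 882081) (nat_lit 0x802bbc932) (nat_lit 1071969705),
  Rx.mk (nat_lit 282) (nat_lit 2) (nat_lit 3) (nat_lit 4) (nat_lit 3) (nat_lit 67) (nat_lit 81) r6_67 r4_81 (nat_lit 0) (nat_lit 0) (nat_lit 21394) (nat_lit 0x59eab61f2) (nat_lit 1708731518),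
  Rx.mk (nat_lit 322) (nat_lit 2) (nat_lit 0) (nat_lit 5) (nat_lit 5) (nat_lit 63) (nat_lit 79) r6_63 r4_79 (nat_lit 0) (nat_lit 2091838) (nat_lit 0) (nat_lit 0x8027fc3e2) (nat_lit 1073434162),
  Rx.mk (nat_lit 338) (nat_lit 2) (nat_lit 2) (nat_lit 5) (nat_lit 7) (nat_lit 66) (nat_lit 88) r6_66 r4_88 (nat_lit 0) (nat_lit 0) (nat_lit 0) (nat_lit 0x802e4a924) (nat_lit 1070947924),
  Rx.mk (nat_lit 342) (nat_lit 6) (nat_lit 2) (nat_lit 5) (nat_lit 7) (nat_lit 60) (nat_lit 85) r6_60 r4_85 (nat_lit 0) (nat_lit 0) (nat_lit 0) (nat_lit 0x80900e8b8) (nat_lit 1064743624),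
  Rx.mk (nat_lit 346) (nat_lit 2) (nat_lit 3) (nat_lit 5) (nat_lit 7) (nat_lit 68) (nat_lit 82) r6_68 r4_82 (nat_lit 0) (nat_lit 0) (nat_lit 0) (nat_lit 0x802f01e94) (nat_lit 1070886824),
  Rx.mk (nat_lit 386) (nat_lit 2) (nat_lit 0) (nat_lit 6) (nat_lit 5) (nat_lit 64) (nat_lit 80) r6_64 r4_80 (nat_lit 0) (nat_lit 2733861) (nat_lit 0) (nat_lit 0x7eb79fd52) (nat_lit 1097952985),
  Rx.mk (nat_lit 410) (nat_lit 2) (nat_lit 3) (nat_lit 6) (nat_lit 7) (nat_lit 69) (nat_lit 83) r6_69 r4_83 (nat_lit 0) (nat_lit 0) (nat_lit 0) (nat_lit 0x80040e246) (nat_lit 1073614524),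
  Rx.mk (nat_lit 470) (nat_lit 6) (nat_lit 2) (nat_lit 7) (nat_lit 7) (nat_lit 61) (nat_lit 86) r6_61 r4_86 (nat_lit 0) (nat_lit 0) (nat_lit 0) (nat_lit 0x809f929ec) (nat_lit 1063761924)]
noncomputable def e10_10 : List Rx := [
  Rx.mk (nat_lit 55) (nat_lit 7) (nat_lit 6) (nat_lit 0) (nat_lit 3) (nat_lit 75) (nat_lit 82) r6_75 r6_82 (nat_lit 0) (nat_lit 0) (nat_lit 27167) (nat_lit 0x7fd616ed8) (nat_lit 1076507291),
  Rx.mk (nat_lit 167) (nat_lit 7) (nat_lit 4) (nat_lit 2) (nat_lit 5) (nat_lit 74) (nat_lit 80) r6_74 r6_80 (nat_lit 0) (nat_lit 11902) (nat_lit 0) (nat_lit 0x80146e1c2) (nat_lit 1072468926),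
  Rx.mk (nat_lit 183) (nat_lit 7) (nat_lit 6) (nat_lit 2) (nat_lit 7) (nat_lit 76) (nat_lit 84) r6_76 r6_84 (nat_lit 0) (nat_lit 0) (nat_lit 0) (nat_lit 0x802f1cff0) (nat_lit 1070795924),
  Rx.mk (nat_lit 187) (nat_lit 3) (nat_lit 7) (nat_lit 2) (nat_lit 7) (nat_lit 86) (nat_lit 72) r6_86 r6_72 (nat_lit 0) (nat_lit 0) (nat_lit 0) (nat_lit 0x800857a50) (nat_lit 1073242324),
  Rx.mk (nat_lit 191) (nat_lit 7) (nat_lit 7) (nat_lit 2) (nat_lit 7) (nat_lit 78) (nat_lit 81) r6_78 r6_81 (nat_lit 0) (nat_lit 0) (nat_lit 0) (nat_lit 0x7b87cf792) (nat_lit 1148325424),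
  Rx.mk (nat_lit 214) (nat_lit 6) (nat_lit 2) (nat_lit 3) (nat_lit 7) (nat_lit 73) (nat_lit 85) r6_73 r6_85 (nat_lit 0) (nat_lit 0) (nat_lit 0) (nat_lit 0x800857a50) (nat_lit 1073242324),
  Rx.mk (nat_lit 244) (nat_lit 4) (nat_lit 6) (nat_lit 3) (nat_lit 6) (nat_lit 70) (nat_lit 79) r6_70 r6_79 (nat_lit 11902) (nat_lit 0) (nat_lit 0) (nat_lit 0x80146e1c2) (nat_lit 1072468926),
  Rx.mk (nat_lit 246) (nat_lit 6) (nat_lit 6) (nat_lit 3) (nat_lit 7) (nat_lit 71) (nat_lit 87) r6_71 r6_87 (nat_lit 0) (nat_lit 0) (nat_lit 0) (nat_lit 0x7b87cf792) (nat_lit 1148325424),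
  Rx.mk (nat_lit 247) (nat_lit 7) (nat_lit 6) (nat_lit 3) (nat_lit 7) (nat_lit 77) (nat_lit 83) r6_77 r6_83 (nat_lit 0) (nat_lit 0) (nat_lit 0) (nat_lit 0x802f1cff0) (nat_lit 1070795924),
  Rx.mk (nat_lit 282) (nat_lit 2) (nat_lit 3) (nat_lit 4) (nat_lit 3) (nat_lit 82) (nat_lit 75) r6_82 r6_75 (nat_lit 0) (nat_lit 0) (nat_lit 27167) (nat_lit 0x7fd616ed8) (nat_lit 1076507291),
  Rx.mk (nat_lit 408) (nat_lit 0) (nat_lit 3) (nat_lit 6) (nat_lit 6) (nat_lit 79) (nat_lit 70) r6_79 r6_70 (nat_lit 11902) (nat_lit 0) (nat_lit 0) (nat_lit 0x80146e1c2) (nat_lit 1072468926),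
  Rx.mk (nat_lit 410) (nat_lit 2) (nat_lit 3) (nat_lit 6) (nat_lit 7) (nat_lit 83) (nat_lit 77) r6_83 r6_77 (nat_lit 0) (nat_lit 0) (nat_lit 0) (nat_lit 0x802f1cff0) (nat_lit 1070795924),
  Rx.mk (nat_lit 411) (nat_lit 3) (nat_lit 3) (nat_lit 6) (nat_lit 7) (nat_lit 87) (nat_lit 71) r6_87 r6_71 (nat_lit 0) (nat_lit 0) (nat_lit 0) (nat_lit 0x7b87cf792) (nat_lit 1148325424),
  Rx.mk (nat_lit 443) (nat_lit 3) (nat_lit 7) (nat_lit 6) (nat_lit 7) (nat_lit 85) (nat_lit 73) r6_85 r6_73 (nat_lit 0) (nat_lit 0) (nat_lit 0) (nat_lit 0x800857a50) (nat_lit 1073242324),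
  Rx.mk (nat_lit 450) (nat_lit 2) (nat_lit 0) (nat_lit 7) (nat_lit 5) (nat_lit 80) (nat_lit 74) r6_80 r6_74 (nat_lit 0) (nat_lit 11902) (nat_lit 0) (nat_lit 0x80146e1c2) (nat_lit 1072468926),
  Rx.mk (nat_lit 466) (nat_lit 2) (nat_lit 2) (nat_lit 7) (nat_lit 7) (nat_lit 81) (nat_lit 78) r6_81 r6_78 (nat_lit 0) (nat_lit 0) (nat_lit 0) (nat_lit 0x7b87cf792) (nat_lit 1148325424),
  Rx.mk (nat_lit 470) (nat_lit 6) (nat_lit 2) (nat_lit 7) (nat_lit 7) (nat_lit 72) (nat_lit 86) r6_72 r6_86 (nat_lit 0) (nat_lit 0) (nat_lit 0) (nat_lit 0x800857a50) (nat_lit 1073242324),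
  Rx.mk (nat_lit 474) (nat_lit 2) (nat_lit 3) (nat_lit 7) (nat_lit 7) (nat_lit 84) (nat_lit 76) r6_84 r6_76 (nat_lit 0) (nat_lit 0) (nat_lit 0) (nat_lit 0x802f1cff0) (nat_lit 1070795924)]
noncomputable def e10_11 : List Rx := [
  Rx.mk (nat_lit 258) (nat_lit 2) (nat_lit 0) (nat_lit 4) (nat_lit 1) (nat_lit 90) (nat_lit 70) r6_90 r5_70 (nat_lit 0) (nat_lit 22438) (nat_lit 16168) (nat_lit 0x7a1c8609a) (nat_lit 1171966330),
  Rx.mk (nat_lit 274) (nat_lit 2) (nat_lit 2) (nat_lit 4) (nat_lit 3) (nat_lit 93) (nat_lit 78) r6_93 r5_78 (nat_lit 0) (nat_lit 0) (nat_lit 3813020) (nat_lit 0x7e7fe50b0) (nat_lit 1102664344),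
  Rx.mk (nat_lit 282) (nat_lit 2) (nat_lit 3) (nat_lit 4) (nat_lit 3) (nat_lit 95) (nat_lit 75) r6_95 r5_75 (nat_lit 0) (nat_lit 0) (nat_lit 294333) (nat_lit 0x869783e6c) (nat_lit 967494857),
  Rx.mk (nat_lit 386) (nat_lit 2) (nat_lit 0) (nat_lit 6) (nat_lit 5) (nat_lit 91) (nat_lit 72) r6_91 r5_72 (nat_lit 0) (nat_lit 2825381) (nat_lit 0) (nat_lit 0x7fbf7b2aa) (nat_lit 1080886705),
  Rx.mk (nat_lit 408) (nat_lit 0) (nat_lit 3) (nat_lit 6) (nat_lit 6) (nat_lit 89) (nat_lit 73) r6_89 r5_73 (nat_lit 826810) (nat_lit 0) (nat_lit 0) (nat_lit 0x802fe455a) (nat_lit 1071641334),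
  Rx.mk (nat_lit 410) (nat_lit 2) (nat_lit 3) (nat_lit 6) (nat_lit 7) (nat_lit 96) (nat_lit 76) r6_96 r5_76 (nat_lit 0) (nat_lit 0) (nat_lit 0) (nat_lit 0x940158de4) (nat_lit 750318324),
  Rx.mk (nat_lit 411) (nat_lit 3) (nat_lit 3) (nat_lit 6) (nat_lit 7) (nat_lit 97) (nat_lit 74) r6_97 r5_74 (nat_lit 0) (nat_lit 0) (nat_lit 0) (nat_lit 0x804ab9c7c) (nat_lit 1069132524),
  Rx.mk (nat_lit 450) (nat_lit 2) (nat_lit 0) (nat_lit 7) (nat_lit 5) (nat_lit 92) (nat_lit 71) r6_92 r5_71 (nat_lit 0) (nat_lit 1145575) (nat_lit 0) (nat_lit 0x81615e058) (nat_lit 1052648999),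
  Rx.mk (nat_lit 466) (nat_lit 2) (nat_lit 2) (nat_lit 7) (nat_lit 7) (nat_lit 94) (nat_lit 79) r6_94 r5_79 (nat_lit 0) (nat_lit 0) (nat_lit 0) (nat_lit 0x8019076ca) (nat_lit 1072298224),
  Rx.mk (nat_lit 470) (nat_lit 6) (nat_lit 2) (nat_lit 7) (nat_lit 7) (nat_lit 88) (nat_lit 77) r6_88 r5_77 (nat_lit 0) (nat_lit 0) (nat_lit 0) (nat_lit 0x7d806d86c) (nat_lit 1115429524)]
noncomputable def e10_12 : List Rx := [
  Rx.mk (nat_lit 22) (nat_lit 6) (nat_lit 2) (nat_lit 0) (nat_lit 3) (nat_lit 105) (nat_lit 231) r6_105 r0_231 (nat_lit 0) (nat_lit 0) (nat_lit 1581921) (nat_lit 0x7e87497a2) (nat_lit 1099940645),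
  Rx.mk (nat_lit 52) (nat_lit 4) (nat_lit 6) (nat_lit 0) (nat_lit 2) (nat_lit 99) (nat_lit 228) r6_99 r0_228 (nat_lit 21443) (nat_lit 0) (nat_lit 21155) (nat_lit 0x655f25c44) (nat_lit 1517763922),
  Rx.mk (nat_lit 53) (nat_lit 5) (nat_lit 6) (nat_lit 0) (nat_lit 3) (nat_lit 102) (nat_lit 229) r6_102 r0_229 (nat_lit 0) (nat_lit 0) (nat_lit 473428) (nat_lit 0x8f3b0df94) (nat_lit 827965152),
  Rx.mk (nat_lit 54) (nat_lit 6) (nat_lit 6) (nat_lit 0) (nat_lit 3) (nat_lit 104) (nat_lit 230) r6_104 r0_230 (nat_lit 0) (nat_lit 0) (nat_lit 2346346) (nat_lit 0x7a9228b7c) (nat_lit 1166687270),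
  Rx.mk (nat_lit 164) (nat_lit 4) (nat_lit 4) (nat_lit 2) (nat_lit 4) (nat_lit 98) (nat_lit 232) r6_98 r0_232 (nat_lit 56818) (nat_lit 73687) (nat_lit 0) (nat_lit 0x686f2bb72) (nat_lit 1466800329),
  Rx.mk (nat_lit 165) (nat_lit 5) (nat_lit 4) (nat_lit 2) (nat_lit 5) (nat_lit 101) (nat_lit 233) r6_101 r0_233 (nat_lit 0) (nat_lit 94559) (nat_lit 0) (nat_lit 0x9073beac2) (nat_lit 807812083),
  Rx.mk (nat_lit 180) (nat_lit 4) (nat_lit 6) (nat_lit 2) (nat_lit 6) (nat_lit 100) (nat_lit 234) r6_100 r0_234 (nat_lit 2085900) (nat_lit 0) (nat_lit 0) (nat_lit 0x80175fe9e) (nat_lit 1074492124),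
  Rx.mk (nat_lit 181) (nat_lit 5) (nat_lit 6) (nat_lit 2) (nat_lit 7) (nat_lit 103) (nat_lit 235) r6_103 r0_235 (nat_lit 0) (nat_lit 0) (nat_lit 0) (nat_lit 0x90cc616de) (nat_lit 802175124)]
noncomputable def e10_13 : List Rx := [
  Rx.mk (nat_lit 22) (nat_lit 6) (nat_lit 2) (nat_lit 0) (nat_lit 3) (nat_lit 114) (nat_lit 84) r6_114 r7_84 (nat_lit 0) (nat_lit 0) (nat_lit 1281739) (nat_lit 0x8015d28a6) (nat_lit 1073788363),
  Rx.mk (nat_lit 52) (nat_lit 4) (nat_lit 6) (nat_lit 0) (nat_lit 2) (nat_lit 106) (nat_lit 78) r6_106 r7_78 (nat_lit 277079) (nat_lit 0) (nat_lit 264914) (nat_lit 0x6d02a6830) (nat_lit 1390940117),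
  Rx.mk (nat_lit 53) (nat_lit 5) (nat_lit 6) (nat_lit 0) (nat_lit 3) (nat_lit 109) (nat_lit 81) r6_109 r7_81 (nat_lit 0) (nat_lit 0) (nat_lit 1891092) (nat_lit 0x8064b8aba) (nat_lit 1069380816),
  Rx.mk (nat_lit 54) (nat_lit 6) (nat_lit 6) (nat_lit 0) (nat_lit 3) (nat_lit 112) (nat_lit 86) r6_112 r7_86 (nat_lit 0) (nat_lit 0) (nat_lit 5719758) (nat_lit 0x7fc989026) (nat_lit 1083137982),
  Rx.mk (nat_lit 86) (nat_lit 6) (nat_lit 2) (nat_lit 1) (nat_lit 7) (nat_lit 115) (nat_lit 85) r6_115 r7_85 (nat_lit 0) (nat_lit 0) (nat_lit 0) (nat_lit 0x80f0600f4) (nat_lit 1058649324),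
  Rx.mk (nat_lit 116) (nat_lit 4) (nat_lit 6) (nat_lit 1) (nat_lit 6) (nat_lit 107) (nat_lit 79) r6_107 r7_79 (nat_lit 2237591) (nat_lit 0) (nat_lit 0) (nat_lit 0x8056375b8) (nat_lit 1070643615),
  Rx.mk (nat_lit 117) (nat_lit 5) (nat_lit 6) (nat_lit 1) (nat_lit 7) (nat_lit 110) (nat_lit 82) r6_110 r7_82 (nat_lit 0) (nat_lit 0) (nat_lit 0) (nat_lit 0x804959148) (nat_lit 1069226624),
  Rx.mk (nat_lit 118) (nat_lit 6) (nat_lit 6) (nat_lit 1) (nat_lit 7) (nat_lit 113) (nat_lit 87) r6_113 r7_87 (nat_lit 0) (nat_lit 0) (nat_lit 0) (nat_lit 0x80029938e) (nat_lit 1073741824),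
  Rx.mk (nat_lit 180) (nat_lit 4) (nat_lit 6) (nat_lit 2) (nat_lit 6) (nat_lit 108) (nat_lit 80) r6_108 r7_80 (nat_lit 1598900) (nat_lit 0) (nat_lit 0) (nat_lit 0x80a515d4c) (nat_lit 1065015624),
  Rx.mk (nat_lit 181) (nat_lit 5) (nat_lit 6) (nat_lit 2) (nat_lit 7) (nat_lit 111) (nat_lit 83) r6_111 r7_83 (nat_lit 0) (nat_lit 0) (nat_lit 0) (nat_lit 0x80aedf3b4) (nat_lit 1062792024)]
noncomputable def e10_14 : List Rx := [
  Rx.mk (nat_lit 53) (nat_lit 5) (nat_lit 6) (nat_lit 0) (nat_lit 3) (nat_lit 117) (nat_lit 246) r6_117 r1_246 (nat_lit 0) (nat_lit 0) (nat_lit 1035266) (nat_lit 0x8401ef04c) (nat_lit 1010034890),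
  Rx.mk (nat_lit 165) (nat_lit 5) (nat_lit 4) (nat_lit 2) (nat_lit 5) (nat_lit 116) (nat_lit 247) r6_116 r1_247 (nat_lit 0) (nat_lit 376415) (nat_lit 0) (nat_lit 0x86cc62d18) (nat_lit 964233239),
  Rx.mk (nat_lit 181) (nat_lit 5) (nat_lit 6) (nat_lit 2) (nat_lit 7) (nat_lit 118) (nat_lit 248) r6_118 r1_248 (nat_lit 0) (nat_lit 0) (nat_lit 0) (nat_lit 0x8fcfe0ed2) (nat_lit 818127624)]
noncomputable def e10_15 : List Rx := [
  Rx.mk (nat_lit 53) (nat_lit 5) (nat_lit 6) (nat_lit 0) (nat_lit 3) (nat_lit 119) (nat_lit 71) r6_119 r8_71 (nat_lit 0) (nat_lit 0) (nat_lit 1883603) (nat_lit 0x8036af1e6) (nat_lit 1072289527),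
  Rx.mk (nat_lit 117) (nat_lit 5) (nat_lit 6) (nat_lit 1) (nat_lit 7) (nat_lit 120) (nat_lit 72) r6_120 r8_72 (nat_lit 0) (nat_lit 0) (nat_lit 0) (nat_lit 0x8037bf9e6) (nat_lit 1070345324),
  Rx.mk (nat_lit 181) (nat_lit 5) (nat_lit 6) (nat_lit 2) (nat_lit 7) (nat_lit 121) (nat_lit 73) r6_121 r8_73 (nat_lit 0) (nat_lit 0) (nat_lit 0) (nat_lit 0x804b0c5b2) (nat_lit 1069117724)]
noncomputable def e10_16 : List Rx := [
  Rx.mk (nat_lit 86) (nat_lit 6) (nat_lit 2) (nat_lit 1) (nat_lit 7) (nat_lit 125) (nat_lit 224) r6_125 r8_224 (nat_lit 0) (nat_lit 0) (nat_lit 0) (nat_lit 0x8065dab1e) (nat_lit 1067416324),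
  Rx.mk (nat_lit 116) (nat_lit 4) (nat_lit 6) (nat_lit 1) (nat_lit 6) (nat_lit 122) (nat_lit 221) r6_122 r8_221 (nat_lit 5449534) (nat_lit 0) (nat_lit 0) (nat_lit 0x80029938e) (nat_lit 1079191358),
  Rx.mk (nat_lit 117) (nat_lit 5) (nat_lit 6) (nat_lit 1) (nat_lit 7) (nat_lit 123) (nat_lit 222) r6_123 r8_222 (nat_lit 0) (nat_lit 0) (nat_lit 0) (nat_lit 0x80029938e) (nat_lit 1073741824),
  Rx.mk (nat_lit 118) (nat_lit 6) (nat_lit 6) (nat_lit 1) (nat_lit 7) (nat_lit 124) (nat_lit 223) r6_124 r8_223 (nat_lit 0) (nat_lit 0) (nat_lit 0) (nat_lit 0x80029938e) (nat_lit 1073741824)]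
noncomputable def e10_17 : List Rx := [
  Rx.mk (nat_lit 86) (nat_lit 6) (nat_lit 2) (nat_lit 1) (nat_lit 7) (nat_lit 127) (nat_lit 61) r6_127 r9_61 (nat_lit 0) (nat_lit 0) (nat_lit 0) (nat_lit 0x80029938e) (nat_lit 1073741824),
  Rx.mk (nat_lit 342) (nat_lit 6) (nat_lit 2) (nat_lit 5) (nat_lit 7) (nat_lit 126) (nat_lit 62) r6_126 r9_62 (nat_lit 0) (nat_lit 0) (nat_lit 0) (nat_lit 0x80029938e) (nat_lit 1073741824)]
noncomputable def e10_18 : List Rx := [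
  Rx.mk (nat_lit 22) (nat_lit 6) (nat_lit 2) (nat_lit 0) (nat_lit 3) (nat_lit 135) (nat_lit 233) r6_135 r4_233 (nat_lit 0) (nat_lit 0) (nat_lit 2519210) (nat_lit 0x7ebf86994) (nat_lit 1097219834),
  Rx.mk (nat_lit 52) (nat_lit 4) (nat_lit 6) (nat_lit 0) (nat_lit 2) (nat_lit 129) (nat_lit 229) r6_129 r4_229 (nat_lit 38237) (nat_lit 0) (nat_lit 47711) (nat_lit 0x718a177ac) (nat_lit 1314939572),
  Rx.mk (nat_lit 53) (nat_lit 5) (nat_lit 6) (nat_lit 0) (nat_lit 3) (nat_lit 132) (nat_lit 230) r6_132 r4_230 (nat_lit 0) (nat_lit 0) (nat_lit 3192982) (nat_lit 0x803a9355a) (nat_lit 1073361906),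
  Rx.mk (nat_lit 54) (nat_lit 6) (nat_lit 6) (nat_lit 0) (nat_lit 3) (nat_lit 134) (nat_lit 232) r6_134 r4_232 (nat_lit 0) (nat_lit 0) (nat_lit 2826148) (nat_lit 0x7ffa8010c) (nat_lit 1077083472),
  Rx.mk (nat_lit 55) (nat_lit 7) (nat_lit 6) (nat_lit 0) (nat_lit 3) (nat_lit 138) (nat_lit 231) r6_138 r4_231 (nat_lit 0) (nat_lit 0) (nat_lit 2840910) (nat_lit 0x804903392) (nat_lit 1072090734),
  Rx.mk (nat_lit 164) (nat_lit 4) (nat_lit 4) (nat_lit 2) (nat_lit 4) (nat_lit 128) (nat_lit 235) r6_128 r4_235 (nat_lit 6592) (nat_lit 9876) (nat_lit 0) (nat_lit 0x73504ef82) (nat_lit 1285279692),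
  Rx.mk (nat_lit 165) (nat_lit 5) (nat_lit 4) (nat_lit 2) (nat_lit 5) (nat_lit 131) (nat_lit 236) r6_131 r4_236 (nat_lit 0) (nat_lit 4043670) (nat_lit 0) (nat_lit 0x8019d8c3e) (nat_lit 1076296794),
  Rx.mk (nat_lit 167) (nat_lit 7) (nat_lit 4) (nat_lit 2) (nat_lit 5) (nat_lit 137) (nat_lit 237) r6_137 r4_237 (nat_lit 0) (nat_lit 1760727) (nat_lit 0) (nat_lit 0x802b4e4aa) (nat_lit 1072885551),
  Rx.mk (nat_lit 180) (nat_lit 4) (nat_lit 6) (nat_lit 2) (nat_lit 6) (nat_lit 130) (nat_lit 238) r6_130 r4_238 (nat_lit 1219035) (nat_lit 0) (nat_lit 0) (nat_lit 0x80393948e) (nat_lit 1071457659),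
  Rx.mk (nat_lit 181) (nat_lit 5) (nat_lit 6) (nat_lit 2) (nat_lit 7) (nat_lit 133) (nat_lit 239) r6_133 r4_239 (nat_lit 0) (nat_lit 0) (nat_lit 0) (nat_lit 0x807785210) (nat_lit 1066297424),
  Rx.mk (nat_lit 183) (nat_lit 7) (nat_lit 6) (nat_lit 2) (nat_lit 7) (nat_lit 139) (nat_lit 240) r6_139 r4_240 (nat_lit 0) (nat_lit 0) (nat_lit 0) (nat_lit 0x809a0fc90) (nat_lit 1064111224),
  Rx.mk (nat_lit 214) (nat_lit 6) (nat_lit 2) (nat_lit 3) (nat_lit 7) (nat_lit 136) (nat_lit 234) r6_136 r4_234 (nat_lit 0) (nat_lit 0) (nat_lit 0) (nat_lit 0x81261a06e) (nat_lit 1055268324)]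
noncomputable def e10_19 : List Rx := [
  Rx.mk (nat_lit 22) (nat_lit 6) (nat_lit 2) (nat_lit 0) (nat_lit 3) (nat_lit 147) (nat_lit 67) r6_147 r10_67 (nat_lit 0) (nat_lit 0) (nat_lit 1425998) (nat_lit 0x8011ef310) (nat_lit 1074173622),
  Rx.mk (nat_lit 52) (nat_lit 4) (nat_lit 6) (nat_lit 0) (nat_lit 2) (nat_lit 140) (nat_lit 59) r6_140 r10_59 (nat_lit 315034) (nat_lit 0) (nat_lit 325610) (nat_lit 0x6c8871394) (nat_lit 1399003668),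
  Rx.mk (nat_lit 53) (nat_lit 5) (nat_lit 6) (nat_lit 0) (nat_lit 3) (nat_lit 143) (nat_lit 62) r6_143 r10_62 (nat_lit 0) (nat_lit 0) (nat_lit 2104035) (nat_lit 0x8089df83e) (nat_lit 1067238059),
  Rx.mk (nat_lit 54) (nat_lit 6) (nat_lit 6) (nat_lit 0) (nat_lit 3) (nat_lit 145) (nat_lit 70) r6_145 r10_70 (nat_lit 0) (nat_lit 0) (nat_lit 5449534) (nat_lit 0x7febd1840) (nat_lit 1080657058),
  Rx.mk (nat_lit 55) (nat_lit 7) (nat_lit 6) (nat_lit 0) (nat_lit 3) (nat_lit 150) (nat_lit 64) r6_150 r10_64 (nat_lit 0) (nat_lit 0) (nat_lit 2104035) (nat_lit 0x8089df83e) (nat_lit 1067238059),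
  Rx.mk (nat_lit 86) (nat_lit 6) (nat_lit 2) (nat_lit 1) (nat_lit 7) (nat_lit 148) (nat_lit 68) r6_148 r10_68 (nat_lit 0) (nat_lit 0) (nat_lit 0) (nat_lit 0x8099ba880) (nat_lit 1064130224),
  Rx.mk (nat_lit 116) (nat_lit 4) (nat_lit 6) (nat_lit 1) (nat_lit 6) (nat_lit 141) (nat_lit 60) r6_141 r10_60 (nat_lit 2919586) (nat_lit 0) (nat_lit 0) (nat_lit 0x8040ec42e) (nat_lit 1072682510),
  Rx.mk (nat_lit 118) (nat_lit 6) (nat_lit 6) (nat_lit 1) (nat_lit 7) (nat_lit 146) (nat_lit 71) r6_146 r10_71 (nat_lit 0) (nat_lit 0) (nat_lit 0) (nat_lit 0x80029938e) (nat_lit 1073741824),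
  Rx.mk (nat_lit 119) (nat_lit 7) (nat_lit 6) (nat_lit 1) (nat_lit 7) (nat_lit 151) (nat_lit 65) r6_151 r10_65 (nat_lit 0) (nat_lit 0) (nat_lit 0) (nat_lit 0x80192ccea) (nat_lit 1072297024),
  Rx.mk (nat_lit 180) (nat_lit 4) (nat_lit 6) (nat_lit 2) (nat_lit 6) (nat_lit 142) (nat_lit 61) r6_142 r10_61 (nat_lit 1567710) (nat_lit 0) (nat_lit 0) (nat_lit 0x8053e18e0) (nat_lit 1070118234),
  Rx.mk (nat_lit 181) (nat_lit 5) (nat_lit 6) (nat_lit 2) (nat_lit 7) (nat_lit 144) (nat_lit 63) r6_144 r10_63 (nat_lit 0) (nat_lit 0) (nat_lit 0) (nat_lit 0x809b6df60) (nat_lit 1064022524),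
  Rx.mk (nat_lit 183) (nat_lit 7) (nat_lit 6) (nat_lit 2) (nat_lit 7) (nat_lit 152) (nat_lit 66) r6_152 r10_66 (nat_lit 0) (nat_lit 0) (nat_lit 0) (nat_lit 0x809b6df60) (nat_lit 1064022524),
  Rx.mk (nat_lit 214) (nat_lit 6) (nat_lit 2) (nat_lit 3) (nat_lit 7) (nat_lit 149) (nat_lit 69) r6_149 r10_69 (nat_lit 0) (nat_lit 0) (nat_lit 0) (nat_lit 0x8099ba880) (nat_lit 1064130224)]
noncomputable def e10_20 : List Rx := [
  Rx.mk (nat_lit 52) (nat_lit 4) (nat_lit 6) (nat_lit 0) (nat_lit 2) (nat_lit 154) (nat_lit 54) r6_154 r11_54 (nat_lit 1343161) (nat_lit 0) (nat_lit 1407149) (nat_lit 0x737e36fbc) (nat_lit 1285096534),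
  Rx.mk (nat_lit 53) (nat_lit 5) (nat_lit 6) (nat_lit 0) (nat_lit 3) (nat_lit 158) (nat_lit 58) r6_158 r11_58 (nat_lit 0) (nat_lit 0) (nat_lit 4262738) (nat_lit 0x801570c46) (nat_lit 1076797662),
  Rx.mk (nat_lit 54) (nat_lit 6) (nat_lit 6) (nat_lit 0) (nat_lit 3) (nat_lit 161) (nat_lit 66) r6_161 r11_66 (nat_lit 0) (nat_lit 0) (nat_lit 3928738) (nat_lit 0x80106e662) (nat_lit 1076782462),
  Rx.mk (nat_lit 55) (nat_lit 7) (nat_lit 6) (nat_lit 0) (nat_lit 3) (nat_lit 165) (nat_lit 63) r6_165 r11_63 (nat_lit 0) (nat_lit 0) (nat_lit 3738478) (nat_lit 0x8024ee42a) (nat_lit 1075285302),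
  Rx.mk (nat_lit 164) (nat_lit 4) (nat_lit 4) (nat_lit 2) (nat_lit 4) (nat_lit 153) (nat_lit 53) r6_153 r11_53 (nat_lit 1282205) (nat_lit 2307781) (nat_lit 0) (nat_lit 0x7934fd052) (nat_lit 1190670010),
  Rx.mk (nat_lit 165) (nat_lit 5) (nat_lit 4) (nat_lit 2) (nat_lit 5) (nat_lit 157) (nat_lit 57) r6_157 r11_57 (nat_lit 0) (nat_lit 5449534) (nat_lit 0) (nat_lit 0x80029938e) (nat_lit 1079191358),
  Rx.mk (nat_lit 167) (nat_lit 7) (nat_lit 4) (nat_lit 2) (nat_lit 5) (nat_lit 164) (nat_lit 61) r6_164 r11_61 (nat_lit 0) (nat_lit 3994773) (nat_lit 0) (nat_lit 0x801c09594) (nat_lit 1076108397),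
  Rx.mk (nat_lit 180) (nat_lit 4) (nat_lit 6) (nat_lit 2) (nat_lit 6) (nat_lit 155) (nat_lit 56) r6_155 r11_56 (nat_lit 1786259) (nat_lit 0) (nat_lit 0) (nat_lit 0x808a883f8) (nat_lit 1066877983),
  Rx.mk (nat_lit 181) (nat_lit 5) (nat_lit 6) (nat_lit 2) (nat_lit 7) (nat_lit 159) (nat_lit 60) r6_159 r11_60 (nat_lit 0) (nat_lit 0) (nat_lit 0) (nat_lit 0x80159ec7c) (nat_lit 1072523724),
  Rx.mk (nat_lit 183) (nat_lit 7) (nat_lit 6) (nat_lit 2) (nat_lit 7) (nat_lit 166) (nat_lit 64) r6_166 r11_64 (nat_lit 0) (nat_lit 0) (nat_lit 0) (nat_lit 0x80159ec7c) (nat_lit 1072523724),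
  Rx.mk (nat_lit 191) (nat_lit 7) (nat_lit 7) (nat_lit 2) (nat_lit 7) (nat_lit 167) (nat_lit 62) r6_167 r11_62 (nat_lit 0) (nat_lit 0) (nat_lit 0) (nat_lit 0x800b91806) (nat_lit 1073166724),
  Rx.mk (nat_lit 214) (nat_lit 6) (nat_lit 2) (nat_lit 3) (nat_lit 7) (nat_lit 163) (nat_lit 65) r6_163 r11_65 (nat_lit 0) (nat_lit 0) (nat_lit 0) (nat_lit 0x95ec9a496) (nat_lit 719290124),
  Rx.mk (nat_lit 244) (nat_lit 4) (nat_lit 6) (nat_lit 3) (nat_lit 6) (nat_lit 156) (nat_lit 55) r6_156 r11_55 (nat_lit 2747444) (nat_lit 0) (nat_lit 0) (nat_lit 0x803990784) (nat_lit 1072977968),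
  Rx.mk (nat_lit 245) (nat_lit 5) (nat_lit 6) (nat_lit 3) (nat_lit 7) (nat_lit 160) (nat_lit 59) r6_160 r11_59 (nat_lit 0) (nat_lit 0) (nat_lit 0) (nat_lit 0x80029938e) (nat_lit 1073741824),
  Rx.mk (nat_lit 246) (nat_lit 6) (nat_lit 6) (nat_lit 3) (nat_lit 7) (nat_lit 162) (nat_lit 67) r6_162 r11_67 (nat_lit 0) (nat_lit 0) (nat_lit 0) (nat_lit 0x801118d6a) (nat_lit 1072812524)]
noncomputable def e10_21 : List Rx := [
  Rx.mk (nat_lit 86) (nat_lit 6) (nat_lit 2) (nat_lit 1) (nat_lit 7) (nat_lit 169) (nat_lit 62) r6_169 r9_62 (nat_lit 0) (nat_lit 0) (nat_lit 0) (nat_lit 0x80029938e) (nat_lit 1073741824),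
  Rx.mk (nat_lit 342) (nat_lit 6) (nat_lit 2) (nat_lit 5) (nat_lit 7) (nat_lit 168) (nat_lit 61) r6_168 r9_61 (nat_lit 0) (nat_lit 0) (nat_lit 0) (nat_lit 0x80029938e) (nat_lit 1073741824)]
noncomputable def e10_22 : List Rx := [
  Rx.mk (nat_lit 258) (nat_lit 2) (nat_lit 0) (nat_lit 4) (nat_lit 1) (nat_lit 173) (nat_lit 228) r6_173 r0_228 (nat_lit 0) (nat_lit 21443) (nat_lit 21155) (nat_lit 0x655f25c44) (nat_lit 1517763922),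
  Rx.mk (nat_lit 266) (nat_lit 2) (nat_lit 1) (nat_lit 4) (nat_lit 3) (nat_lit 175) (nat_lit 229) r6_175 r0_229 (nat_lit 0) (nat_lit 0) (nat_lit 473428) (nat_lit 0x8f3b0df94) (nat_lit 827965152),
  Rx.mk (nat_lit 274) (nat_lit 2) (nat_lit 2) (nat_lit 4) (nat_lit 3) (nat_lit 177) (nat_lit 230) r6_177 r0_230 (nat_lit 0) (nat_lit 0) (nat_lit 2346346) (nat_lit 0x7a9228b7c) (nat_lit 1166687270),
  Rx.mk (nat_lit 278) (nat_lit 6) (nat_lit 2) (nat_lit 4) (nat_lit 3) (nat_lit 170) (nat_lit 231) r6_170 r0_231 (nat_lit 0) (nat_lit 0) (nat_lit 1581921) (nat_lit 0x7e87497a2) (nat_lit 1099940645),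
  Rx.mk (nat_lit 384) (nat_lit 0) (nat_lit 0) (nat_lit 6) (nat_lit 4) (nat_lit 171) (nat_lit 232) r6_171 r0_232 (nat_lit 73687) (nat_lit 56818) (nat_lit 0) (nat_lit 0x686f2bb72) (nat_lit 1466800329),
  Rx.mk (nat_lit 386) (nat_lit 2) (nat_lit 0) (nat_lit 6) (nat_lit 5) (nat_lit 174) (nat_lit 234) r6_174 r0_234 (nat_lit 0) (nat_lit 2085900) (nat_lit 0) (nat_lit 0x80175fe9e) (nat_lit 1074492124),
  Rx.mk (nat_lit 392) (nat_lit 0) (nat_lit 1) (nat_lit 6) (nat_lit 6) (nat_lit 172) (nat_lit 233) r6_172 r0_233 (nat_lit 94559) (nat_lit 0) (nat_lit 0) (nat_lit 0x9073beac2) (nat_lit 807812083),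
  Rx.mk (nat_lit 394) (nat_lit 2) (nat_lit 1) (nat_lit 6) (nat_lit 7) (nat_lit 176) (nat_lit 235) r6_176 r0_235 (nat_lit 0) (nat_lit 0) (nat_lit 0) (nat_lit 0x90cc616de) (nat_lit 802175124)]
noncomputable def e10_23 : List Rx := [
  Rx.mk (nat_lit 266) (nat_lit 2) (nat_lit 1) (nat_lit 4) (nat_lit 3) (nat_lit 179) (nat_lit 246) r6_179 r1_246 (nat_lit 0) (nat_lit 0) (nat_lit 1035266) (nat_lit 0x8401ef04c) (nat_lit 1010034890),
  Rx.mk (nat_lit 392) (nat_lit 0) (nat_lit 1) (nat_lit 6) (nat_lit 6) (nat_lit 178) (nat_lit 247) r6_178 r1_247 (nat_lit 376415) (nat_lit 0) (nat_lit 0) (nat_lit 0x86cc62d18) (nat_lit 964233239),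
  Rx.mk (nat_lit 394) (nat_lit 2) (nat_lit 1) (nat_lit 6) (nat_lit 7) (nat_lit 180) (nat_lit 248) r6_180 r1_248 (nat_lit 0) (nat_lit 0) (nat_lit 0) (nat_lit 0x8fcfe0ed2) (nat_lit 818127624)]
noncomputable def e10_24 : List Rx := [
  Rx.mk (nat_lit 258) (nat_lit 2) (nat_lit 0) (nat_lit 4) (nat_lit 1) (nat_lit 186) (nat_lit 229) r6_186 r4_229 (nat_lit 0) (nat_lit 38237) (nat_lit 47711) (nat_lit 0x718a177ac) (nat_lit 1314939572),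
  Rx.mk (nat_lit 266) (nat_lit 2) (nat_lit 1) (nat_lit 4) (nat_lit 3) (nat_lit 188) (nat_lit 230) r6_188 r4_230 (nat_lit 0) (nat_lit 0) (nat_lit 3192982) (nat_lit 0x803a9355a) (nat_lit 1073361906),
  Rx.mk (nat_lit 274) (nat_lit 2) (nat_lit 2) (nat_lit 4) (nat_lit 3) (nat_lit 190) (nat_lit 232) r6_190 r4_232 (nat_lit 0) (nat_lit 0) (nat_lit 2826148) (nat_lit 0x7ffa8010c) (nat_lit 1077083472),
  Rx.mk (nat_lit 278) (nat_lit 6) (nat_lit 2) (nat_lit 4) (nat_lit 3) (nat_lit 181) (nat_lit 233) r6_181 r4_233 (nat_lit 0) (nat_lit 0) (nat_lit 2519210) (nat_lit 0x7ebf86994) (nat_lit 1097219834),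
  Rx.mk (nat_lit 282) (nat_lit 2) (nat_lit 3) (nat_lit 4) (nat_lit 3) (nat_lit 191) (nat_lit 231) r6_191 r4_231 (nat_lit 0) (nat_lit 0) (nat_lit 2840910) (nat_lit 0x804903392) (nat_lit 1072090734),
  Rx.mk (nat_lit 384) (nat_lit 0) (nat_lit 0) (nat_lit 6) (nat_lit 4) (nat_lit 183) (nat_lit 235) r6_183 r4_235 (nat_lit 9876) (nat_lit 6592) (nat_lit 0) (nat_lit 0x73504ef82) (nat_lit 1285279692),
  Rx.mk (nat_lit 386) (nat_lit 2) (nat_lit 0) (nat_lit 6) (nat_lit 5) (nat_lit 187) (nat_lit 238) r6_187 r4_238 (nat_lit 0) (nat_lit 1219035) (nat_lit 0) (nat_lit 0x80393948e) (nat_lit 1071457659),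
  Rx.mk (nat_lit 392) (nat_lit 0) (nat_lit 1) (nat_lit 6) (nat_lit 6) (nat_lit 184) (nat_lit 236) r6_184 r4_236 (nat_lit 4043670) (nat_lit 0) (nat_lit 0) (nat_lit 0x8019d8c3e) (nat_lit 1076296794),
  Rx.mk (nat_lit 394) (nat_lit 2) (nat_lit 1) (nat_lit 6) (nat_lit 7) (nat_lit 189) (nat_lit 239) r6_189 r4_239 (nat_lit 0) (nat_lit 0) (nat_lit 0) (nat_lit 0x807785210) (nat_lit 1066297424),
  Rx.mk (nat_lit 408) (nat_lit 0) (nat_lit 3) (nat_lit 6) (nat_lit 6) (nat_lit 185) (nat_lit 237) r6_185 r4_237 (nat_lit 1760727) (nat_lit 0) (nat_lit 0) (nat_lit 0x802b4e4aa) (nat_lit 1072885551),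
  Rx.mk (nat_lit 410) (nat_lit 2) (nat_lit 3) (nat_lit 6) (nat_lit 7) (nat_lit 192) (nat_lit 240) r6_192 r4_240 (nat_lit 0) (nat_lit 0) (nat_lit 0) (nat_lit 0x809a0fc90) (nat_lit 1064111224),
  Rx.mk (nat_lit 470) (nat_lit 6) (nat_lit 2) (nat_lit 7) (nat_lit 7) (nat_lit 182) (nat_lit 234) r6_182 r4_234 (nat_lit 0) (nat_lit 0) (nat_lit 0) (nat_lit 0x81261a06e) (nat_lit 1055268324)]
noncomputable def e10_25 : List Rx := [
  Rx.mk (nat_lit 258) (nat_lit 2) (nat_lit 0) (nat_lit 4) (nat_lit 1) (nat_lit 195) (nat_lit 78) r6_195 r7_78 (nat_lit 0) (nat_lit 277079) (nat_lit 264914) (nat_lit 0x6d02a6830) (nat_lit 1390940117),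
  Rx.mk (nat_lit 266) (nat_lit 2) (nat_lit 1) (nat_lit 4) (nat_lit 3) (nat_lit 198) (nat_lit 81) r6_198 r7_81 (nat_lit 0) (nat_lit 0) (nat_lit 1891092) (nat_lit 0x8064b8aba) (nat_lit 1069380816),
  Rx.mk (nat_lit 274) (nat_lit 2) (nat_lit 2) (nat_lit 4) (nat_lit 3) (nat_lit 201) (nat_lit 86) r6_201 r7_86 (nat_lit 0) (nat_lit 0) (nat_lit 5719758) (nat_lit 0x7fc989026) (nat_lit 1083137982),
  Rx.mk (nat_lit 278) (nat_lit 6) (nat_lit 2) (nat_lit 4) (nat_lit 3) (nat_lit 193) (nat_lit 84) r6_193 r7_84 (nat_lit 0) (nat_lit 0) (nat_lit 1281739) (nat_lit 0x8015d28a6) (nat_lit 1073788363),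
  Rx.mk (nat_lit 322) (nat_lit 2) (nat_lit 0) (nat_lit 5) (nat_lit 5) (nat_lit 196) (nat_lit 79) r6_196 r7_79 (nat_lit 0) (nat_lit 2237591) (nat_lit 0) (nat_lit 0x8056375b8) (nat_lit 1070643615),
  Rx.mk (nat_lit 330) (nat_lit 2) (nat_lit 1) (nat_lit 5) (nat_lit 7) (nat_lit 199) (nat_lit 82) r6_199 r7_82 (nat_lit 0) (nat_lit 0) (nat_lit 0) (nat_lit 0x804959148) (nat_lit 1069226624),
  Rx.mk (nat_lit 338) (nat_lit 2) (nat_lit 2) (nat_lit 5) (nat_lit 7) (nat_lit 202) (nat_lit 87) r6_202 r7_87 (nat_lit 0) (nat_lit 0) (nat_lit 0) (nat_lit 0x80029938e) (nat_lit 1073741824),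
  Rx.mk (nat_lit 342) (nat_lit 6) (nat_lit 2) (nat_lit 5) (nat_lit 7) (nat_lit 194) (nat_lit 85) r6_194 r7_85 (nat_lit 0) (nat_lit 0) (nat_lit 0) (nat_lit 0x80f0600f4) (nat_lit 1058649324),
  Rx.mk (nat_lit 386) (nat_lit 2) (nat_lit 0) (nat_lit 6) (nat_lit 5) (nat_lit 197) (nat_lit 80) r6_197 r7_80 (nat_lit 0) (nat_lit 1598900) (nat_lit 0) (nat_lit 0x80a515d4c) (nat_lit 1065015624),
  Rx.mk (nat_lit 394) (nat_lit 2) (nat_lit 1) (nat_lit 6) (nat_lit 7) (nat_lit 200) (nat_lit 83) r6_200 r7_83 (nat_lit 0) (nat_lit 0) (nat_lit 0) (nat_lit 0x80aedf3b4) (nat_lit 1062792024)]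
noncomputable def e10_26 : List Rx := [
  Rx.mk (nat_lit 266) (nat_lit 2) (nat_lit 1) (nat_lit 4) (nat_lit 3) (nat_lit 203) (nat_lit 71) r6_203 r8_71 (nat_lit 0) (nat_lit 0) (nat_lit 1883603) (nat_lit 0x8036af1e6) (nat_lit 1072289527),
  Rx.mk (nat_lit 330) (nat_lit 2) (nat_lit 1) (nat_lit 5) (nat_lit 7) (nat_lit 204) (nat_lit 72) r6_204 r8_72 (nat_lit 0) (nat_lit 0) (nat_lit 0) (nat_lit 0x8037bf9e6) (nat_lit 1070345324),
  Rx.mk (nat_lit 394) (nat_lit 2) (nat_lit 1) (nat_lit 6) (nat_lit 7) (nat_lit 205) (nat_lit 73) r6_205 r8_73 (nat_lit 0) (nat_lit 0) (nat_lit 0) (nat_lit 0x804b0c5b2) (nat_lit 1069117724)]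
noncomputable def e10_27 : List Rx := [
  Rx.mk (nat_lit 322) (nat_lit 2) (nat_lit 0) (nat_lit 5) (nat_lit 5) (nat_lit 207) (nat_lit 221) r6_207 r8_221 (nat_lit 0) (nat_lit 5449534) (nat_lit 0) (nat_lit 0x80029938e) (nat_lit 1079191358),
  Rx.mk (nat_lit 330) (nat_lit 2) (nat_lit 1) (nat_lit 5) (nat_lit 7) (nat_lit 208) (nat_lit 222) r6_208 r8_222 (nat_lit 0) (nat_lit 0) (nat_lit 0) (nat_lit 0x80029938e) (nat_lit 1073741824),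
  Rx.mk (nat_lit 338) (nat_lit 2) (nat_lit 2) (nat_lit 5) (nat_lit 7) (nat_lit 209) (nat_lit 223) r6_209 r8_223 (nat_lit 0) (nat_lit 0) (nat_lit 0) (nat_lit 0x80029938e) (nat_lit 1073741824),
  Rx.mk (nat_lit 342) (nat_lit 6) (nat_lit 2) (nat_lit 5) (nat_lit 7) (nat_lit 206) (nat_lit 224) r6_206 r8_224 (nat_lit 0) (nat_lit 0) (nat_lit 0) (nat_lit 0x8065dab1e) (nat_lit 1067416324)]
noncomputable def e10_28 : List Rx := [
  Rx.mk (nat_lit 258) (nat_lit 2) (nat_lit 0) (nat_lit 4) (nat_lit 1) (nat_lit 213) (nat_lit 59) r6_213 r10_59 (nat_lit 0) (nat_lit 315034) (nat_lit 325610) (nat_lit 0x6c8871394) (nat_lit 1399003668),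
  Rx.mk (nat_lit 266) (nat_lit 2) (nat_lit 1) (nat_lit 4) (nat_lit 3) (nat_lit 216) (nat_lit 62) r6_216 r10_62 (nat_lit 0) (nat_lit 0) (nat_lit 2104035) (nat_lit 0x8089df83e) (nat_lit 1067238059),
  Rx.mk (nat_lit 274) (nat_lit 2) (nat_lit 2) (nat_lit 4) (nat_lit 3) (nat_lit 218) (nat_lit 70) r6_218 r10_70 (nat_lit 0) (nat_lit 0) (nat_lit 5449534) (nat_lit 0x7febd1840) (nat_lit 1080657058),
  Rx.mk (nat_lit 278) (nat_lit 6) (nat_lit 2) (nat_lit 4) (nat_lit 3) (nat_lit 210) (nat_lit 67) r6_210 r10_67 (nat_lit 0) (nat_lit 0) (nat_lit 1425998) (nat_lit 0x8011ef310) (nat_lit 1074173622),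
  Rx.mk (nat_lit 282) (nat_lit 2) (nat_lit 3) (nat_lit 4) (nat_lit 3) (nat_lit 220) (nat_lit 64) r6_220 r10_64 (nat_lit 0) (nat_lit 0) (nat_lit 2104035) (nat_lit 0x8089df83e) (nat_lit 1067238059),
  Rx.mk (nat_lit 322) (nat_lit 2) (nat_lit 0) (nat_lit 5) (nat_lit 5) (nat_lit 214) (nat_lit 60) r6_214 r10_60 (nat_lit 0) (nat_lit 2919586) (nat_lit 0) (nat_lit 0x8040ec42e) (nat_lit 1072682510),
  Rx.mk (nat_lit 338) (nat_lit 2) (nat_lit 2) (nat_lit 5) (nat_lit 7) (nat_lit 219) (nat_lit 71) r6_219 r10_71 (nat_lit 0) (nat_lit 0) (nat_lit 0) (nat_lit 0x80029938e) (nat_lit 1073741824),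
  Rx.mk (nat_lit 342) (nat_lit 6) (nat_lit 2) (nat_lit 5) (nat_lit 7) (nat_lit 211) (nat_lit 68) r6_211 r10_68 (nat_lit 0) (nat_lit 0) (nat_lit 0) (nat_lit 0x8099ba880) (nat_lit 1064130224),
  Rx.mk (nat_lit 346) (nat_lit 2) (nat_lit 3) (nat_lit 5) (nat_lit 7) (nat_lit 221) (nat_lit 65) r6_221 r10_65 (nat_lit 0) (nat_lit 0) (nat_lit 0) (nat_lit 0x80192ccea) (nat_lit 1072297024),
  Rx.mk (nat_lit 386) (nat_lit 2) (nat_lit 0) (nat_lit 6) (nat_lit 5) (nat_lit 215) (nat_lit 61) r6_215 r10_61 (nat_lit 0) (nat_lit 1567710) (nat_lit 0) (nat_lit 0x8053e18e0) (nat_lit 1070118234),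
  Rx.mk (nat_lit 394) (nat_lit 2) (nat_lit 1) (nat_lit 6) (nat_lit 7) (nat_lit 217) (nat_lit 63) r6_217 r10_63 (nat_lit 0) (nat_lit 0) (nat_lit 0) (nat_lit 0x809b6df60) (nat_lit 1064022524),
  Rx.mk (nat_lit 410) (nat_lit 2) (nat_lit 3) (nat_lit 6) (nat_lit 7) (nat_lit 222) (nat_lit 66) r6_222 r10_66 (nat_lit 0) (nat_lit 0) (nat_lit 0) (nat_lit 0x809b6df60) (nat_lit 1064022524),
  Rx.mk (nat_lit 470) (nat_lit 6) (nat_lit 2) (nat_lit 7) (nat_lit 7) (nat_lit 212) (nat_lit 69) r6_212 r10_69 (nat_lit 0) (nat_lit 0) (nat_lit 0) (nat_lit 0x8099ba880) (nat_lit 1064130224)]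
noncomputable def e10_29 : List Rx := [
  Rx.mk (nat_lit 258) (nat_lit 2) (nat_lit 0) (nat_lit 4) (nat_lit 1) (nat_lit 227) (nat_lit 54) r6_227 r11_54 (nat_lit 0) (nat_lit 1343161) (nat_lit 1407149) (nat_lit 0x737e36fbc) (nat_lit 1285096534),
  Rx.mk (nat_lit 266) (nat_lit 2) (nat_lit 1) (nat_lit 4) (nat_lit 3) (nat_lit 230) (nat_lit 58) r6_230 r11_58 (nat_lit 0) (nat_lit 0) (nat_lit 4262738) (nat_lit 0x801570c46) (nat_lit 1076797662),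
  Rx.mk (nat_lit 274) (nat_lit 2) (nat_lit 2) (nat_lit 4) (nat_lit 3) (nat_lit 233) (nat_lit 66) r6_233 r11_66 (nat_lit 0) (nat_lit 0) (nat_lit 3928738) (nat_lit 0x80106e662) (nat_lit 1076782462),
  Rx.mk (nat_lit 282) (nat_lit 2) (nat_lit 3) (nat_lit 4) (nat_lit 3) (nat_lit 235) (nat_lit 63) r6_235 r11_63 (nat_lit 0) (nat_lit 0) (nat_lit 3738478) (nat_lit 0x8024ee42a) (nat_lit 1075285302),
  Rx.mk (nat_lit 384) (nat_lit 0) (nat_lit 0) (nat_lit 6) (nat_lit 4) (nat_lit 224) (nat_lit 53) r6_224 r11_53 (nat_lit 2307781) (nat_lit 1282205) (nat_lit 0) (nat_lit 0x7934fd052) (nat_lit 1190670010),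
  Rx.mk (nat_lit 386) (nat_lit 2) (nat_lit 0) (nat_lit 6) (nat_lit 5) (nat_lit 228) (nat_lit 56) r6_228 r11_56 (nat_lit 0) (nat_lit 1786259) (nat_lit 0) (nat_lit 0x808a883f8) (nat_lit 1066877983),
  Rx.mk (nat_lit 392) (nat_lit 0) (nat_lit 1) (nat_lit 6) (nat_lit 6) (nat_lit 225) (nat_lit 57) r6_225 r11_57 (nat_lit 5449534) (nat_lit 0) (nat_lit 0) (nat_lit 0x80029938e) (nat_lit 1079191358),
  Rx.mk (nat_lit 394) (nat_lit 2) (nat_lit 1) (nat_lit 6) (nat_lit 7) (nat_lit 231) (nat_lit 60) r6_231 r11_60 (nat_lit 0) (nat_lit 0) (nat_lit 0) (nat_lit 0x80159ec7c) (nat_lit 1072523724),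
  Rx.mk (nat_lit 408) (nat_lit 0) (nat_lit 3) (nat_lit 6) (nat_lit 6) (nat_lit 226) (nat_lit 61) r6_226 r11_61 (nat_lit 3994773) (nat_lit 0) (nat_lit 0) (nat_lit 0x801c09594) (nat_lit 1076108397),
  Rx.mk (nat_lit 410) (nat_lit 2) (nat_lit 3) (nat_lit 6) (nat_lit 7) (nat_lit 236) (nat_lit 64) r6_236 r11_64 (nat_lit 0) (nat_lit 0) (nat_lit 0) (nat_lit 0x80159ec7c) (nat_lit 1072523724),
  Rx.mk (nat_lit 411) (nat_lit 3) (nat_lit 3) (nat_lit 6) (nat_lit 7) (nat_lit 237) (nat_lit 62) r6_237 r11_62 (nat_lit 0) (nat_lit 0) (nat_lit 0) (nat_lit 0x800b91806) (nat_lit 1073166724),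
  Rx.mk (nat_lit 450) (nat_lit 2) (nat_lit 0) (nat_lit 7) (nat_lit 5) (nat_lit 229) (nat_lit 55) r6_229 r11_55 (nat_lit 0) (nat_lit 2747444) (nat_lit 0) (nat_lit 0x803990784) (nat_lit 1072977968),
  Rx.mk (nat_lit 458) (nat_lit 2) (nat_lit 1) (nat_lit 7) (nat_lit 7) (nat_lit 232) (nat_lit 59) r6_232 r11_59 (nat_lit 0) (nat_lit 0) (nat_lit 0) (nat_lit 0x80029938e) (nat_lit 1073741824),
  Rx.mk (nat_lit 466) (nat_lit 2) (nat_lit 2) (nat_lit 7) (nat_lit 7) (nat_lit 234) (nat_lit 67) r6_234 r11_67 (nat_lit 0) (nat_lit 0) (nat_lit 0) (nat_lit 0x801118d6a) (nat_lit 1072812524),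
  Rx.mk (nat_lit 470) (nat_lit 6) (nat_lit 2) (nat_lit 7) (nat_lit 7) (nat_lit 223) (nat_lit 65) r6_223 r11_65 (nat_lit 0) (nat_lit 0) (nat_lit 0) (nat_lit 0x95ec9a496) (nat_lit 719290124)]
noncomputable def e10_30 : List Rx := [
  Rx.mk (nat_lit 55) (nat_lit 7) (nat_lit 6) (nat_lit 0) (nat_lit 3) (nat_lit 239) (nat_lit 242) r6_239 r5_242 (nat_lit 0) (nat_lit 0) (nat_lit 128360) (nat_lit 0x84cda1136) (nat_lit 996225984),
  Rx.mk (nat_lit 167) (nat_lit 7) (nat_lit 4) (nat_lit 2) (nat_lit 5) (nat_lit 238) (nat_lit 243) r6_238 r5_243 (nat_lit 0) (nat_lit 10459) (nat_lit 0) (nat_lit 0x89d896974) (nat_lit 914535883),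
  Rx.mk (nat_lit 183) (nat_lit 7) (nat_lit 6) (nat_lit 2) (nat_lit 7) (nat_lit 240) (nat_lit 244) r6_240 r5_244 (nat_lit 0) (nat_lit 0) (nat_lit 0) (nat_lit 0x84e45cfce) (nat_lit 994704024)]
noncomputable def e10_31 : List Rx := [
  Rx.mk (nat_lit 55) (nat_lit 7) (nat_lit 6) (nat_lit 0) (nat_lit 3) (nat_lit 241) (nat_lit 284) r6_241 r11_284 (nat_lit 0) (nat_lit 0) (nat_lit 424298) (nat_lit 0x882e6edee) (nat_lit 941930922),
  Rx.mk (nat_lit 119) (nat_lit 7) (nat_lit 6) (nat_lit 1) (nat_lit 7) (nat_lit 242) (nat_lit 285) r6_242 r11_285 (nat_lit 0) (nat_lit 0) (nat_lit 0) (nat_lit 0xa352ba304) (nat_lit 502613624),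
  Rx.mk (nat_lit 183) (nat_lit 7) (nat_lit 6) (nat_lit 2) (nat_lit 7) (nat_lit 243) (nat_lit 286) r6_243 r11_286 (nat_lit 0) (nat_lit 0) (nat_lit 0) (nat_lit 0x9a931abc8) (nat_lit 644086424)]
noncomputable def e10_32 : List Rx := [
  Rx.mk (nat_lit 163) (nat_lit 3) (nat_lit 4) (nat_lit 2) (nat_lit 5) (nat_lit 249) (nat_lit 247) r6_249 r6_247 (nat_lit 0) (nat_lit 85480) (nat_lit 0) (nat_lit 0x80034bb88) (nat_lit 1073659004),
  Rx.mk (nat_lit 184) (nat_lit 0) (nat_lit 7) (nat_lit 2) (nat_lit 6) (nat_lit 245) (nat_lit 246) r6_245 r6_246 (nat_lit 746296) (nat_lit 0) (nat_lit 0) (nat_lit 0x7fb13a506) (nat_lit 1079702620),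
  Rx.mk (nat_lit 187) (nat_lit 3) (nat_lit 7) (nat_lit 2) (nat_lit 7) (nat_lit 250) (nat_lit 248) r6_250 r6_248 (nat_lit 0) (nat_lit 0) (nat_lit 0) (nat_lit 0x8b96934e4) (nat_lit 886418024),
  Rx.mk (nat_lit 282) (nat_lit 2) (nat_lit 3) (nat_lit 4) (nat_lit 3) (nat_lit 247) (nat_lit 249) r6_247 r6_249 (nat_lit 0) (nat_lit 0) (nat_lit 85480) (nat_lit 0x80034bb88) (nat_lit 1073659004),
  Rx.mk (nat_lit 408) (nat_lit 0) (nat_lit 3) (nat_lit 6) (nat_lit 6) (nat_lit 246) (nat_lit 245) r6_246 r6_245 (nat_lit 746296) (nat_lit 0) (nat_lit 0) (nat_lit 0x7fb13a506) (nat_lit 1079702620),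
  Rx.mk (nat_lit 410) (nat_lit 2) (nat_lit 3) (nat_lit 6) (nat_lit 7) (nat_lit 248) (nat_lit 250) r6_248 r6_250 (nat_lit 0) (nat_lit 0) (nat_lit 0) (nat_lit 0x8b96934e4) (nat_lit 886418024),
  Rx.mk (nat_lit 440) (nat_lit 0) (nat_lit 7) (nat_lit 6) (nat_lit 6) (nat_lit 244) (nat_lit 244) r6_244 r6_244 (nat_lit 207111) (nat_lit 0) (nat_lit 0) (nat_lit 0x7fdbf9314) (nat_lit 1076351135)]
noncomputable def e10_33 : List Rx := [
  Rx.mk (nat_lit 282) (nat_lit 2) (nat_lit 3) (nat_lit 4) (nat_lit 3) (nat_lit 252) (nat_lit 242) r6_252 r5_242 (nat_lit 0) (nat_lit 0) (nat_lit 128360) (nat_lit 0x84cda1136) (nat_lit 996225984),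
  Rx.mk (nat_lit 408) (nat_lit 0) (nat_lit 3) (nat_lit 6) (nat_lit 6) (nat_lit 251) (nat_lit 243) r6_251 r5_243 (nat_lit 10459) (nat_lit 0) (nat_lit 0) (nat_lit 0x89d896974) (nat_lit 914535883),
  Rx.mk (nat_lit 410) (nat_lit 2) (nat_lit 3) (nat_lit 6) (nat_lit 7) (nat_lit 253) (nat_lit 244) r6_253 r5_244 (nat_lit 0) (nat_lit 0) (nat_lit 0) (nat_lit 0x84e45cfce) (nat_lit 994704024)]
noncomputable def e10_34 : List Rx := [
  Rx.mk (nat_lit 282) (nat_lit 2) (nat_lit 3) (nat_lit 4) (nat_lit 3) (nat_lit 254) (nat_lit 284) r6_254 r11_284 (nat_lit 0) (nat_lit 0) (nat_lit 424298) (nat_lit 0x882e6edee) (nat_lit 941930922),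
  Rx.mk (nat_lit 346) (nat_lit 2) (nat_lit 3) (nat_lit 5) (nat_lit 7) (nat_lit 255) (nat_lit 285) r6_255 r11_285 (nat_lit 0) (nat_lit 0) (nat_lit 0) (nat_lit 0xa352ba304) (nat_lit 502613624),
  Rx.mk (nat_lit 410) (nat_lit 2) (nat_lit 3) (nat_lit 6) (nat_lit 7) (nat_lit 256) (nat_lit 286) r6_256 r11_286 (nat_lit 0) (nat_lit 0) (nat_lit 0) (nat_lit 0x9a931abc8) (nat_lit 644086424)]
noncomputable def e10_35 : List Rx := [
  Rx.mk (nat_lit 55) (nat_lit 7) (nat_lit 6) (nat_lit 0) (nat_lit 3) (nat_lit 258) (nat_lit 249) r6_258 r6_249 (nat_lit 0) (nat_lit 0) (nat_lit 85480) (nat_lit 0x80034bb88) (nat_lit 1073659004),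
  Rx.mk (nat_lit 163) (nat_lit 3) (nat_lit 4) (nat_lit 2) (nat_lit 5) (nat_lit 262) (nat_lit 244) r6_262 r6_244 (nat_lit 0) (nat_lit 207111) (nat_lit 0) (nat_lit 0x7fdbf9314) (nat_lit 1076351135),
  Rx.mk (nat_lit 167) (nat_lit 7) (nat_lit 4) (nat_lit 2) (nat_lit 5) (nat_lit 257) (nat_lit 245) r6_257 r6_245 (nat_lit 0) (nat_lit 746296) (nat_lit 0) (nat_lit 0x7fb13a506) (nat_lit 1079702620),
  Rx.mk (nat_lit 183) (nat_lit 7) (nat_lit 6) (nat_lit 2) (nat_lit 7) (nat_lit 259) (nat_lit 250) r6_259 r6_250 (nat_lit 0) (nat_lit 0) (nat_lit 0) (nat_lit 0x8b96934e4) (nat_lit 886418024),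
  Rx.mk (nat_lit 419) (nat_lit 3) (nat_lit 4) (nat_lit 6) (nat_lit 5) (nat_lit 261) (nat_lit 246) r6_261 r6_246 (nat_lit 0) (nat_lit 746296) (nat_lit 0) (nat_lit 0x7fb13a506) (nat_lit 1079702620),
  Rx.mk (nat_lit 440) (nat_lit 0) (nat_lit 7) (nat_lit 6) (nat_lit 6) (nat_lit 260) (nat_lit 247) r6_260 r6_247 (nat_lit 85480) (nat_lit 0) (nat_lit 0) (nat_lit 0x80034bb88) (nat_lit 1073659004),
  Rx.mk (nat_lit 443) (nat_lit 3) (nat_lit 7) (nat_lit 6) (nat_lit 7) (nat_lit 263) (nat_lit 248) r6_263 r6_248 (nat_lit 0) (nat_lit 0) (nat_lit 0) (nat_lit 0x8b96934e4) (nat_lit 886418024)]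
noncomputable def e10_36 : List Rx := [
  Rx.mk (nat_lit 55) (nat_lit 7) (nat_lit 6) (nat_lit 0) (nat_lit 3) (nat_lit 265) (nat_lit 80) r6_265 r12_80 (nat_lit 0) (nat_lit 0) (nat_lit 103466) (nat_lit 0x7e7552e22) (nat_lit 1099579590),
  Rx.mk (nat_lit 163) (nat_lit 3) (nat_lit 4) (nat_lit 2) (nat_lit 5) (nat_lit 273) (nat_lit 73) r6_273 r12_73 (nat_lit 0) (nat_lit 25761) (nat_lit 0) (nat_lit 0x7e6206ba2) (nat_lit 1100737685),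
  Rx.mk (nat_lit 167) (nat_lit 7) (nat_lit 4) (nat_lit 2) (nat_lit 5) (nat_lit 264) (nat_lit 79) r6_264 r12_79 (nat_lit 0) (nat_lit 77873) (nat_lit 0) (nat_lit 0x7ef96640c) (nat_lit 1090946797),
  Rx.mk (nat_lit 183) (nat_lit 7) (nat_lit 6) (nat_lit 2) (nat_lit 7) (nat_lit 266) (nat_lit 82) r6_266 r12_82 (nat_lit 0) (nat_lit 0) (nat_lit 0) (nat_lit 0x86d9d99ec) (nat_lit 963003824),
  Rx.mk (nat_lit 187) (nat_lit 3) (nat_lit 7) (nat_lit 2) (nat_lit 7) (nat_lit 275) (nat_lit 74) r6_275 r12_74 (nat_lit 0) (nat_lit 0) (nat_lit 0) (nat_lit 0x800027d6c) (nat_lit 1073758024),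
  Rx.mk (nat_lit 247) (nat_lit 7) (nat_lit 6) (nat_lit 3) (nat_lit 7) (nat_lit 267) (nat_lit 81) r6_267 r12_81 (nat_lit 0) (nat_lit 0) (nat_lit 0) (nat_lit 0x878d6f6dc) (nat_lit 951659124),
  Rx.mk (nat_lit 282) (nat_lit 2) (nat_lit 3) (nat_lit 4) (nat_lit 3) (nat_lit 270) (nat_lit 76) r6_270 r12_76 (nat_lit 0) (nat_lit 0) (nat_lit 103466) (nat_lit 0x7e7552e22) (nat_lit 1099579590),
  Rx.mk (nat_lit 408) (nat_lit 0) (nat_lit 3) (nat_lit 6) (nat_lit 6) (nat_lit 269) (nat_lit 71) r6_269 r12_71 (nat_lit 77873) (nat_lit 0) (nat_lit 0) (nat_lit 0x7ef96640c) (nat_lit 1090946797),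
  Rx.mk (nat_lit 410) (nat_lit 2) (nat_lit 3) (nat_lit 6) (nat_lit 7) (nat_lit 271) (nat_lit 78) r6_271 r12_78 (nat_lit 0) (nat_lit 0) (nat_lit 0) (nat_lit 0x86d9d99ec) (nat_lit 963003824),
  Rx.mk (nat_lit 440) (nat_lit 0) (nat_lit 7) (nat_lit 6) (nat_lit 6) (nat_lit 268) (nat_lit 72) r6_268 r12_72 (nat_lit 25761) (nat_lit 0) (nat_lit 0) (nat_lit 0x7e6206ba2) (nat_lit 1100737685),
  Rx.mk (nat_lit 443) (nat_lit 3) (nat_lit 7) (nat_lit 6) (nat_lit 7) (nat_lit 274) (nat_lit 75) r6_274 r12_75 (nat_lit 0) (nat_lit 0) (nat_lit 0) (nat_lit 0x800027d6c) (nat_lit 1073758024),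
  Rx.mk (nat_lit 474) (nat_lit 2) (nat_lit 3) (nat_lit 7) (nat_lit 7) (nat_lit 272) (nat_lit 77) r6_272 r12_77 (nat_lit 0) (nat_lit 0) (nat_lit 0) (nat_lit 0x878d6f6dc) (nat_lit 951659124)]
noncomputable def e10_37 : List Rx := [
  Rx.mk (nat_lit 168) (nat_lit 0) (nat_lit 5) (nat_lit 2) (nat_lit 6) (nat_lit 277) (nat_lit 223) r6_277 r0_223 (nat_lit 8409716) (nat_lit 0) (nat_lit 0) (nat_lit 0x803d3fe16) (nat_lit 1078386140),
  Rx.mk (nat_lit 424) (nat_lit 0) (nat_lit 5) (nat_lit 6) (nat_lit 6) (nat_lit 276) (nat_lit 222) r6_276 r0_222 (nat_lit 4479) (nat_lit 0) (nat_lit 0) (nat_lit 0x93ccfa606) (nat_lit 753553703)]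
noncomputable def e10_38 : List Rx := [
  Rx.mk (nat_lit 161) (nat_lit 1) (nat_lit 4) (nat_lit 2) (nat_lit 5) (nat_lit 279) (nat_lit 222) r6_279 r0_222 (nat_lit 0) (nat_lit 4479) (nat_lit 0) (nat_lit 0x93ccfa606) (nat_lit 753553703),
  Rx.mk (nat_lit 417) (nat_lit 1) (nat_lit 4) (nat_lit 6) (nat_lit 5) (nat_lit 278) (nat_lit 223) r6_278 r0_223 (nat_lit 0) (nat_lit 8409716) (nat_lit 0) (nat_lit 0x803d3fe16) (nat_lit 1078386140)]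
noncomputable def e10_39 : List Rx := [
  Rx.mk (nat_lit 161) (nat_lit 1) (nat_lit 4) (nat_lit 2) (nat_lit 5) (nat_lit 283) (nat_lit 284) r6_283 r7_284 (nat_lit 0) (nat_lit 1381776) (nat_lit 0) (nat_lit 0x8046be05a) (nat_lit 1070778100),
  Rx.mk (nat_lit 168) (nat_lit 0) (nat_lit 5) (nat_lit 2) (nat_lit 6) (nat_lit 281) (nat_lit 281) r6_281 r7_281 (nat_lit 2052120) (nat_lit 0) (nat_lit 0) (nat_lit 0x802554b6c) (nat_lit 1073565444),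
  Rx.mk (nat_lit 169) (nat_lit 1) (nat_lit 5) (nat_lit 2) (nat_lit 7) (nat_lit 285) (nat_lit 285) r6_285 r7_285 (nat_lit 0) (nat_lit 0) (nat_lit 0) (nat_lit 0x8061e744e) (nat_lit 1067667324),
  Rx.mk (nat_lit 417) (nat_lit 1) (nat_lit 4) (nat_lit 6) (nat_lit 5) (nat_lit 282) (nat_lit 282) r6_282 r7_282 (nat_lit 0) (nat_lit 2052120) (nat_lit 0) (nat_lit 0x802554b6c) (nat_lit 1073565444),
  Rx.mk (nat_lit 424) (nat_lit 0) (nat_lit 5) (nat_lit 6) (nat_lit 6) (nat_lit 280) (nat_lit 280) r6_280 r7_280 (nat_lit 1381776) (nat_lit 0) (nat_lit 0) (nat_lit 0x8046be05a) (nat_lit 1070778100),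
  Rx.mk (nat_lit 425) (nat_lit 1) (nat_lit 5) (nat_lit 6) (nat_lit 7) (nat_lit 284) (nat_lit 283) r6_284 r7_283 (nat_lit 0) (nat_lit 0) (nat_lit 0) (nat_lit 0x8061e744e) (nat_lit 1067667324)]
noncomputable def e10_40 : List Rx := [
  Rx.mk (nat_lit 53) (nat_lit 5) (nat_lit 6) (nat_lit 0) (nat_lit 3) (nat_lit 287) (nat_lit 253) r6_287 r2_253 (nat_lit 0) (nat_lit 0) (nat_lit 16748008) (nat_lit 0x7f8b4521a) (nat_lit 1098207132),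
  Rx.mk (nat_lit 161) (nat_lit 1) (nat_lit 4) (nat_lit 2) (nat_lit 5) (nat_lit 289) (nat_lit 251) r6_289 r2_251 (nat_lit 0) (nat_lit 7559055) (nat_lit 0) (nat_lit 0x7fe1044e4) (nat_lit 1083462579),
  Rx.mk (nat_lit 165) (nat_lit 5) (nat_lit 4) (nat_lit 2) (nat_lit 5) (nat_lit 286) (nat_lit 252) r6_286 r2_252 (nat_lit 0) (nat_lit 5695451) (nat_lit 0) (nat_lit 0x7fda6cc12) (nat_lit 1082026575),
  Rx.mk (nat_lit 181) (nat_lit 5) (nat_lit 6) (nat_lit 2) (nat_lit 7) (nat_lit 288) (nat_lit 254) r6_288 r2_254 (nat_lit 0) (nat_lit 0) (nat_lit 0) (nat_lit 0x80029938e) (nat_lit 1073741824)]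
noncomputable def e10_41 : List Rx := [
  Rx.mk (nat_lit 161) (nat_lit 1) (nat_lit 4) (nat_lit 2) (nat_lit 5) (nat_lit 293) (nat_lit 219) r6_293 r9_219 (nat_lit 0) (nat_lit 5449534) (nat_lit 0) (nat_lit 0x7ff84509a) (nat_lit 1079854658),
  Rx.mk (nat_lit 165) (nat_lit 5) (nat_lit 4) (nat_lit 2) (nat_lit 5) (nat_lit 290) (nat_lit 220) r6_290 r9_220 (nat_lit 0) (nat_lit 6723610) (nat_lit 0) (nat_lit 0x7fa202926) (nat_lit 1086714034),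
  Rx.mk (nat_lit 169) (nat_lit 1) (nat_lit 5) (nat_lit 2) (nat_lit 7) (nat_lit 294) (nat_lit 221) r6_294 r9_221 (nat_lit 0) (nat_lit 0) (nat_lit 0) (nat_lit 0x80029938e) (nat_lit 1073741824),
  Rx.mk (nat_lit 173) (nat_lit 5) (nat_lit 5) (nat_lit 2) (nat_lit 7) (nat_lit 291) (nat_lit 222) r6_291 r9_222 (nat_lit 0) (nat_lit 0) (nat_lit 0) (nat_lit 0x80029938e) (nat_lit 1073741824),
  Rx.mk (nat_lit 181) (nat_lit 5) (nat_lit 6) (nat_lit 2) (nat_lit 7) (nat_lit 292) (nat_lit 223) r6_292 r9_223 (nat_lit 0) (nat_lit 0) (nat_lit 0) (nat_lit 0x80029938e) (nat_lit 1073741824)]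
noncomputable def e10_42 : List Rx := [
  Rx.mk (nat_lit 53) (nat_lit 5) (nat_lit 6) (nat_lit 0) (nat_lit 3) (nat_lit 295) (nat_lit 241) r6_295 r9_241 (nat_lit 0) (nat_lit 0) (nat_lit 6014731) (nat_lit 0x7fa23117c) (nat_lit 1085990655),
  Rx.mk (nat_lit 117) (nat_lit 5) (nat_lit 6) (nat_lit 1) (nat_lit 7) (nat_lit 296) (nat_lit 242) r6_296 r9_242 (nat_lit 0) (nat_lit 0) (nat_lit 0) (nat_lit 0x80029938e) (nat_lit 1073741824),
  Rx.mk (nat_lit 181) (nat_lit 5) (nat_lit 6) (nat_lit 2) (nat_lit 7) (nat_lit 297) (nat_lit 243) r6_297 r9_243 (nat_lit 0) (nat_lit 0) (nat_lit 0) (nat_lit 0x80029938e) (nat_lit 1073741824)]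
noncomputable def e10_43 : List Rx := [
  Rx.mk (nat_lit 161) (nat_lit 1) (nat_lit 4) (nat_lit 2) (nat_lit 5) (nat_lit 299) (nat_lit 240) r6_299 r1_240 (nat_lit 0) (nat_lit 32238) (nat_lit 0) (nat_lit 0x803e4e578) (nat_lit 1069845062),
  Rx.mk (nat_lit 417) (nat_lit 1) (nat_lit 4) (nat_lit 6) (nat_lit 5) (nat_lit 298) (nat_lit 241) r6_298 r1_241 (nat_lit 0) (nat_lit 9165703) (nat_lit 0) (nat_lit 0x82a20d594) (nat_lit 1040408027)]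
noncomputable def e10_44 : List Rx := [
  Rx.mk (nat_lit 161) (nat_lit 1) (nat_lit 4) (nat_lit 2) (nat_lit 5) (nat_lit 301) (nat_lit 216) r6_301 r8_216 (nat_lit 0) (nat_lit 1646791) (nat_lit 0) (nat_lit 0x803c7d550) (nat_lit 1071692415),
  Rx.mk (nat_lit 169) (nat_lit 1) (nat_lit 5) (nat_lit 2) (nat_lit 7) (nat_lit 303) (nat_lit 217) r6_303 r8_217 (nat_lit 0) (nat_lit 0) (nat_lit 0) (nat_lit 0x803843b1a) (nat_lit 1070312524),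
  Rx.mk (nat_lit 417) (nat_lit 1) (nat_lit 4) (nat_lit 6) (nat_lit 5) (nat_lit 300) (nat_lit 214) r6_300 r8_214 (nat_lit 0) (nat_lit 5771941) (nat_lit 0) (nat_lit 0x7fecf9a7e) (nat_lit 1080903565),
  Rx.mk (nat_lit 425) (nat_lit 1) (nat_lit 5) (nat_lit 6) (nat_lit 7) (nat_lit 302) (nat_lit 215) r6_302 r8_215 (nat_lit 0) (nat_lit 0) (nat_lit 0) (nat_lit 0x80029938e) (nat_lit 1073741824)]
noncomputable def e10_45 : List Rx := [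
  Rx.mk (nat_lit 168) (nat_lit 0) (nat_lit 5) (nat_lit 2) (nat_lit 6) (nat_lit 305) (nat_lit 241) r6_305 r1_241 (nat_lit 9165703) (nat_lit 0) (nat_lit 0) (nat_lit 0x82a20d594) (nat_lit 1040408027),
  Rx.mk (nat_lit 424) (nat_lit 0) (nat_lit 5) (nat_lit 6) (nat_lit 6) (nat_lit 304) (nat_lit 240) r6_304 r1_240 (nat_lit 32238) (nat_lit 0) (nat_lit 0) (nat_lit 0x803e4e578) (nat_lit 1069845062)]
noncomputable def e10_46 : List Rx := [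
  Rx.mk (nat_lit 266) (nat_lit 2) (nat_lit 1) (nat_lit 4) (nat_lit 3) (nat_lit 308) (nat_lit 253) r6_308 r2_253 (nat_lit 0) (nat_lit 0) (nat_lit 16748008) (nat_lit 0x7f8b4521a) (nat_lit 1098207132),
  Rx.mk (nat_lit 392) (nat_lit 0) (nat_lit 1) (nat_lit 6) (nat_lit 6) (nat_lit 307) (nat_lit 252) r6_307 r2_252 (nat_lit 5695451) (nat_lit 0) (nat_lit 0) (nat_lit 0x7fda6cc12) (nat_lit 1082026575),
  Rx.mk (nat_lit 394) (nat_lit 2) (nat_lit 1) (nat_lit 6) (nat_lit 7) (nat_lit 309) (nat_lit 254) r6_309 r2_254 (nat_lit 0) (nat_lit 0) (nat_lit 0) (nat_lit 0x80029938e) (nat_lit 1073741824),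
  Rx.mk (nat_lit 424) (nat_lit 0) (nat_lit 5) (nat_lit 6) (nat_lit 6) (nat_lit 306) (nat_lit 251) r6_306 r2_251 (nat_lit 7559055) (nat_lit 0) (nat_lit 0) (nat_lit 0x7fe1044e4) (nat_lit 1083462579)]
noncomputable def e10_47 : List Rx := [
  Rx.mk (nat_lit 168) (nat_lit 0) (nat_lit 5) (nat_lit 2) (nat_lit 6) (nat_lit 311) (nat_lit 214) r6_311 r8_214 (nat_lit 5771941) (nat_lit 0) (nat_lit 0) (nat_lit 0x7fecf9a7e) (nat_lit 1080903565),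
  Rx.mk (nat_lit 169) (nat_lit 1) (nat_lit 5) (nat_lit 2) (nat_lit 7) (nat_lit 313) (nat_lit 215) r6_313 r8_215 (nat_lit 0) (nat_lit 0) (nat_lit 0) (nat_lit 0x80029938e) (nat_lit 1073741824),
  Rx.mk (nat_lit 424) (nat_lit 0) (nat_lit 5) (nat_lit 6) (nat_lit 6) (nat_lit 310) (nat_lit 216) r6_310 r8_216 (nat_lit 1646791) (nat_lit 0) (nat_lit 0) (nat_lit 0x803c7d550) (nat_lit 1071692415),
  Rx.mk (nat_lit 425) (nat_lit 1) (nat_lit 5) (nat_lit 6) (nat_lit 7) (nat_lit 312) (nat_lit 217) r6_312 r8_217 (nat_lit 0) (nat_lit 0) (nat_lit 0) (nat_lit 0x803843b1a) (nat_lit 1070312524)]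
noncomputable def e10_48 : List Rx := [
  Rx.mk (nat_lit 392) (nat_lit 0) (nat_lit 1) (nat_lit 6) (nat_lit 6) (nat_lit 315) (nat_lit 220) r6_315 r9_220 (nat_lit 6723610) (nat_lit 0) (nat_lit 0) (nat_lit 0x7fa202926) (nat_lit 1086714034),
  Rx.mk (nat_lit 393) (nat_lit 1) (nat_lit 1) (nat_lit 6) (nat_lit 7) (nat_lit 317) (nat_lit 222) r6_317 r9_222 (nat_lit 0) (nat_lit 0) (nat_lit 0) (nat_lit 0x80029938e) (nat_lit 1073741824),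
  Rx.mk (nat_lit 394) (nat_lit 2) (nat_lit 1) (nat_lit 6) (nat_lit 7) (nat_lit 318) (nat_lit 223) r6_318 r9_223 (nat_lit 0) (nat_lit 0) (nat_lit 0) (nat_lit 0x80029938e) (nat_lit 1073741824),
  Rx.mk (nat_lit 424) (nat_lit 0) (nat_lit 5) (nat_lit 6) (nat_lit 6) (nat_lit 314) (nat_lit 219) r6_314 r9_219 (nat_lit 5449534) (nat_lit 0) (nat_lit 0) (nat_lit 0x7ff84509a) (nat_lit 1079854658),
  Rx.mk (nat_lit 425) (nat_lit 1) (nat_lit 5) (nat_lit 6) (nat_lit 7) (nat_lit 316) (nat_lit 221) r6_316 r9_221 (nat_lit 0) (nat_lit 0) (nat_lit 0) (nat_lit 0x80029938e) (nat_lit 1073741824)]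
noncomputable def e10_49 : List Rx := [
  Rx.mk (nat_lit 266) (nat_lit 2) (nat_lit 1) (nat_lit 4) (nat_lit 3) (nat_lit 319) (nat_lit 241) r6_319 r9_241 (nat_lit 0) (nat_lit 0) (nat_lit 6014731) (nat_lit 0x7fa23117c) (nat_lit 1085990655),
  Rx.mk (nat_lit 330) (nat_lit 2) (nat_lit 1) (nat_lit 5) (nat_lit 7) (nat_lit 320) (nat_lit 242) r6_320 r9_242 (nat_lit 0) (nat_lit 0) (nat_lit 0) (nat_lit 0x80029938e) (nat_lit 1073741824),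
  Rx.mk (nat_lit 394) (nat_lit 2) (nat_lit 1) (nat_lit 6) (nat_lit 7) (nat_lit 321) (nat_lit 243) r6_321 r9_243 (nat_lit 0) (nat_lit 0) (nat_lit 0) (nat_lit 0x80029938e) (nat_lit 1073741824)]
noncomputable def e10_50 : List Rx := [
  Rx.mk (nat_lit 160) (nat_lit 0) (nat_lit 4) (nat_lit 2) (nat_lit 4) (nat_lit 323) (nat_lit 219) r6_323 r3_219 (nat_lit 1326) (nat_lit 1139) (nat_lit 0) (nat_lit 0x7fffcc656) (nat_lit 1073757989),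
  Rx.mk (nat_lit 163) (nat_lit 3) (nat_lit 4) (nat_lit 2) (nat_lit 5) (nat_lit 325) (nat_lit 220) r6_325 r3_220 (nat_lit 0) (nat_lit 10551) (nat_lit 0) (nat_lit 0x80057a5bc) (nat_lit 1073411275),
  Rx.mk (nat_lit 416) (nat_lit 0) (nat_lit 4) (nat_lit 6) (nat_lit 4) (nat_lit 322) (nat_lit 217) r6_322 r3_217 (nat_lit 1139) (nat_lit 1326) (nat_lit 0) (nat_lit 0x7fffcc656) (nat_lit 1073757989),
  Rx.mk (nat_lit 440) (nat_lit 0) (nat_lit 7) (nat_lit 6) (nat_lit 6) (nat_lit 324) (nat_lit 218) r6_324 r3_218 (nat_lit 10551) (nat_lit 0) (nat_lit 0) (nat_lit 0x80057a5bc) (nat_lit 1073411275)]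
noncomputable def e10_51 : List Rx := [
  Rx.mk (nat_lit 160) (nat_lit 0) (nat_lit 4) (nat_lit 2) (nat_lit 4) (nat_lit 327) (nat_lit 220) r6_327 r4_220 (nat_lit 1651260) (nat_lit 570165) (nat_lit 0) (nat_lit 0x6c90a7590) (nat_lit 1400056949),
  Rx.mk (nat_lit 163) (nat_lit 3) (nat_lit 4) (nat_lit 2) (nat_lit 5) (nat_lit 331) (nat_lit 222) r6_331 r4_222 (nat_lit 0) (nat_lit 34434) (nat_lit 0) (nat_lit 0x47d93a886) (nat_lit 2010000758),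
  Rx.mk (nat_lit 168) (nat_lit 0) (nat_lit 5) (nat_lit 2) (nat_lit 6) (nat_lit 329) (nat_lit 221) r6_329 r4_221 (nat_lit 2410025) (nat_lit 0) (nat_lit 0) (nat_lit 0x7ff815124) (nat_lit 1076821349),
  Rx.mk (nat_lit 171) (nat_lit 3) (nat_lit 5) (nat_lit 2) (nat_lit 7) (nat_lit 332) (nat_lit 223) r6_332 r4_223 (nat_lit 0) (nat_lit 0) (nat_lit 0) (nat_lit 0x800d35cd4) (nat_lit 1073018224),
  Rx.mk (nat_lit 416) (nat_lit 0) (nat_lit 4) (nat_lit 6) (nat_lit 4) (nat_lit 326) (nat_lit 217) r6_326 r4_217 (nat_lit 58427) (nat_lit 38193) (nat_lit 0) (nat_lit 0x743c60600) (nat_lit 1269994544),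
  Rx.mk (nat_lit 424) (nat_lit 0) (nat_lit 5) (nat_lit 6) (nat_lit 6) (nat_lit 328) (nat_lit 218) r6_328 r4_218 (nat_lit 2224828) (nat_lit 0) (nat_lit 0) (nat_lit 0x8082c4f54) (nat_lit 1067817452),
  Rx.mk (nat_lit 440) (nat_lit 0) (nat_lit 7) (nat_lit 6) (nat_lit 6) (nat_lit 330) (nat_lit 219) r6_330 r4_219 (nat_lit 3048876) (nat_lit 0) (nat_lit 0) (nat_lit 0x8040187e6) (nat_lit 1072866300)]
noncomputable def e10_52 : List Rx := [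
  Rx.mk (nat_lit 160) (nat_lit 0) (nat_lit 4) (nat_lit 2) (nat_lit 4) (nat_lit 333) (nat_lit 232) r6_333 r5_232 (nat_lit 398639) (nat_lit 369792) (nat_lit 0) (nat_lit 0x7a2eaa5be) (nat_lit 1171560755),
  Rx.mk (nat_lit 163) (nat_lit 3) (nat_lit 4) (nat_lit 2) (nat_lit 5) (nat_lit 336) (nat_lit 234) r6_336 r5_234 (nat_lit 0) (nat_lit 503576) (nat_lit 0) (nat_lit 0x81fec8a00) (nat_lit 1042043700),
  Rx.mk (nat_lit 184) (nat_lit 0) (nat_lit 7) (nat_lit 2) (nat_lit 6) (nat_lit 335) (nat_lit 233) r6_335 r5_233 (nat_lit 1584864) (nat_lit 0) (nat_lit 0) (nat_lit 0x83f760f68) (nat_lit 1011269188),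
  Rx.mk (nat_lit 440) (nat_lit 0) (nat_lit 7) (nat_lit 6) (nat_lit 6) (nat_lit 334) (nat_lit 231) r6_334 r5_231 (nat_lit 13815) (nat_lit 0) (nat_lit 0) (nat_lit 0x85fe01f32) (nat_lit 976860439)]
noncomputable def e10_53 : List Rx := [
  Rx.mk (nat_lit 160) (nat_lit 0) (nat_lit 4) (nat_lit 2) (nat_lit 4) (nat_lit 338) (nat_lit 217) r6_338 r4_217 (nat_lit 38193) (nat_lit 58427) (nat_lit 0) (nat_lit 0x743c60600) (nat_lit 1269994544),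
  Rx.mk (nat_lit 161) (nat_lit 1) (nat_lit 4) (nat_lit 2) (nat_lit 5) (nat_lit 341) (nat_lit 218) r6_341 r4_218 (nat_lit 0) (nat_lit 2224828) (nat_lit 0) (nat_lit 0x8082c4f54) (nat_lit 1067817452),
  Rx.mk (nat_lit 163) (nat_lit 3) (nat_lit 4) (nat_lit 2) (nat_lit 5) (nat_lit 343) (nat_lit 219) r6_343 r4_219 (nat_lit 0) (nat_lit 3048876) (nat_lit 0) (nat_lit 0x8040187e6) (nat_lit 1072866300),
  Rx.mk (nat_lit 416) (nat_lit 0) (nat_lit 4) (nat_lit 6) (nat_lit 4) (nat_lit 337) (nat_lit 220) r6_337 r4_220 (nat_lit 570165) (nat_lit 1651260) (nat_lit 0) (nat_lit 0x6c90a7590) (nat_lit 1400056949),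
  Rx.mk (nat_lit 417) (nat_lit 1) (nat_lit 4) (nat_lit 6) (nat_lit 5) (nat_lit 340) (nat_lit 221) r6_340 r4_221 (nat_lit 0) (nat_lit 2410025) (nat_lit 0) (nat_lit 0x7ff815124) (nat_lit 1076821349),
  Rx.mk (nat_lit 440) (nat_lit 0) (nat_lit 7) (nat_lit 6) (nat_lit 6) (nat_lit 339) (nat_lit 222) r6_339 r4_222 (nat_lit 34434) (nat_lit 0) (nat_lit 0) (nat_lit 0x47d93a886) (nat_lit 2010000758),
  Rx.mk (nat_lit 441) (nat_lit 1) (nat_lit 7) (nat_lit 6) (nat_lit 7) (nat_lit 342) (nat_lit 223) r6_342 r4_223 (nat_lit 0) (nat_lit 0) (nat_lit 0) (nat_lit 0x800d35cd4) (nat_lit 1073018224)]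
noncomputable def e10_54 : List Rx := [
  Rx.mk (nat_lit 160) (nat_lit 0) (nat_lit 4) (nat_lit 2) (nat_lit 4) (nat_lit 345) (nat_lit 228) r6_345 r10_228 (nat_lit 251735) (nat_lit 281994) (nat_lit 0) (nat_lit 0x6f241602c) (nat_lit 1355411153),
  Rx.mk (nat_lit 161) (nat_lit 1) (nat_lit 4) (nat_lit 2) (nat_lit 5) (nat_lit 350) (nat_lit 233) r6_350 r10_233 (nat_lit 0) (nat_lit 1889821) (nat_lit 0) (nat_lit 0x80c097fde) (nat_lit 1063560645),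
  Rx.mk (nat_lit 163) (nat_lit 3) (nat_lit 4) (nat_lit 2) (nat_lit 5) (nat_lit 354) (nat_lit 235) r6_354 r10_235 (nat_lit 0) (nat_lit 1889821) (nat_lit 0) (nat_lit 0x80c097962) (nat_lit 1063560745),
  Rx.mk (nat_lit 168) (nat_lit 0) (nat_lit 5) (nat_lit 2) (nat_lit 6) (nat_lit 347) (nat_lit 229) r6_347 r10_229 (nat_lit 2530520) (nat_lit 0) (nat_lit 0) (nat_lit 0x80595a13c) (nat_lit 1070741144),
  Rx.mk (nat_lit 169) (nat_lit 1) (nat_lit 5) (nat_lit 2) (nat_lit 7) (nat_lit 352) (nat_lit 234) r6_352 r10_234 (nat_lit 0) (nat_lit 0) (nat_lit 0) (nat_lit 0x802855af0) (nat_lit 1071328824),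
  Rx.mk (nat_lit 171) (nat_lit 3) (nat_lit 5) (nat_lit 2) (nat_lit 7) (nat_lit 355) (nat_lit 236) r6_355 r10_236 (nat_lit 0) (nat_lit 0) (nat_lit 0) (nat_lit 0x802855af0) (nat_lit 1071328824),
  Rx.mk (nat_lit 416) (nat_lit 0) (nat_lit 4) (nat_lit 6) (nat_lit 4) (nat_lit 344) (nat_lit 225) r6_344 r10_225 (nat_lit 281994) (nat_lit 251735) (nat_lit 0) (nat_lit 0x6f241602c) (nat_lit 1355411153),
  Rx.mk (nat_lit 417) (nat_lit 1) (nat_lit 4) (nat_lit 6) (nat_lit 5) (nat_lit 349) (nat_lit 230) r6_349 r10_230 (nat_lit 0) (nat_lit 2530520) (nat_lit 0) (nat_lit 0x80595a13c) (nat_lit 1070741144),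
  Rx.mk (nat_lit 424) (nat_lit 0) (nat_lit 5) (nat_lit 6) (nat_lit 6) (nat_lit 346) (nat_lit 226) r6_346 r10_226 (nat_lit 1889821) (nat_lit 0) (nat_lit 0) (nat_lit 0x80c097fde) (nat_lit 1063560645),
  Rx.mk (nat_lit 425) (nat_lit 1) (nat_lit 5) (nat_lit 6) (nat_lit 7) (nat_lit 351) (nat_lit 231) r6_351 r10_231 (nat_lit 0) (nat_lit 0) (nat_lit 0) (nat_lit 0x802855af0) (nat_lit 1071328824),
  Rx.mk (nat_lit 440) (nat_lit 0) (nat_lit 7) (nat_lit 6) (nat_lit 6) (nat_lit 348) (nat_lit 227) r6_348 r10_227 (nat_lit 1889821) (nat_lit 0) (nat_lit 0) (nat_lit 0x80c097962) (nat_lit 1063560745),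
  Rx.mk (nat_lit 441) (nat_lit 1) (nat_lit 7) (nat_lit 6) (nat_lit 7) (nat_lit 353) (nat_lit 232) r6_353 r10_232 (nat_lit 0) (nat_lit 0) (nat_lit 0) (nat_lit 0x802855af0) (nat_lit 1071328824)]
noncomputable def e10_55 : List Rx := [
  Rx.mk (nat_lit 160) (nat_lit 0) (nat_lit 4) (nat_lit 2) (nat_lit 4) (nat_lit 356) (nat_lit 267) r6_356 r11_267 (nat_lit 1198594) (nat_lit 1583871) (nat_lit 0) (nat_lit 0x786c3fe62) (nat_lit 1202933889),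
  Rx.mk (nat_lit 161) (nat_lit 1) (nat_lit 4) (nat_lit 2) (nat_lit 5) (nat_lit 359) (nat_lit 270) r6_359 r11_270 (nat_lit 0) (nat_lit 3783142) (nat_lit 0) (nat_lit 0x8026e504e) (nat_lit 1075205966),
  Rx.mk (nat_lit 163) (nat_lit 3) (nat_lit 4) (nat_lit 2) (nat_lit 5) (nat_lit 362) (nat_lit 272) r6_362 r11_272 (nat_lit 0) (nat_lit 4589682) (nat_lit 0) (nat_lit 0x80102e396) (nat_lit 1077461506),
  Rx.mk (nat_lit 184) (nat_lit 0) (nat_lit 7) (nat_lit 2) (nat_lit 6) (nat_lit 358) (nat_lit 268) r6_358 r11_268 (nat_lit 2725786) (nat_lit 0) (nat_lit 0) (nat_lit 0x80237ab70) (nat_lit 1074362110),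
  Rx.mk (nat_lit 185) (nat_lit 1) (nat_lit 7) (nat_lit 2) (nat_lit 7) (nat_lit 361) (nat_lit 271) r6_361 r11_271 (nat_lit 0) (nat_lit 0) (nat_lit 0) (nat_lit 0x80029938e) (nat_lit 1073741824),
  Rx.mk (nat_lit 440) (nat_lit 0) (nat_lit 7) (nat_lit 6) (nat_lit 6) (nat_lit 357) (nat_lit 266) r6_357 r11_266 (nat_lit 670567) (nat_lit 0) (nat_lit 0) (nat_lit 0x815ed8932) (nat_lit 1052331991),
  Rx.mk (nat_lit 441) (nat_lit 1) (nat_lit 7) (nat_lit 6) (nat_lit 7) (nat_lit 360) (nat_lit 269) r6_360 r11_269 (nat_lit 0) (nat_lit 0) (nat_lit 0) (nat_lit 0xa8336d212) (nat_lit 423737724)]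
noncomputable def e10_56 : List Rx := [
  Rx.mk (nat_lit 163) (nat_lit 3) (nat_lit 4) (nat_lit 2) (nat_lit 5) (nat_lit 366) (nat_lit 231) r6_366 r5_231 (nat_lit 0) (nat_lit 13815) (nat_lit 0) (nat_lit 0x85fe01f32) (nat_lit 976860439),
  Rx.mk (nat_lit 416) (nat_lit 0) (nat_lit 4) (nat_lit 6) (nat_lit 4) (nat_lit 363) (nat_lit 232) r6_363 r5_232 (nat_lit 369792) (nat_lit 398639) (nat_lit 0) (nat_lit 0x7a2eaa5be) (nat_lit 1171560755),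
  Rx.mk (nat_lit 419) (nat_lit 3) (nat_lit 4) (nat_lit 6) (nat_lit 5) (nat_lit 365) (nat_lit 233) r6_365 r5_233 (nat_lit 0) (nat_lit 1584864) (nat_lit 0) (nat_lit 0x83f760f68) (nat_lit 1011269188),
  Rx.mk (nat_lit 440) (nat_lit 0) (nat_lit 7) (nat_lit 6) (nat_lit 6) (nat_lit 364) (nat_lit 234) r6_364 r5_234 (nat_lit 503576) (nat_lit 0) (nat_lit 0) (nat_lit 0x81fec8a00) (nat_lit 1042043700)]
noncomputable def e10_57 : List Rx := [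
  Rx.mk (nat_lit 163) (nat_lit 3) (nat_lit 4) (nat_lit 2) (nat_lit 5) (nat_lit 371) (nat_lit 266) r6_371 r11_266 (nat_lit 0) (nat_lit 670567) (nat_lit 0) (nat_lit 0x815ed8932) (nat_lit 1052331991),
  Rx.mk (nat_lit 171) (nat_lit 3) (nat_lit 5) (nat_lit 2) (nat_lit 7) (nat_lit 373) (nat_lit 269) r6_373 r11_269 (nat_lit 0) (nat_lit 0) (nat_lit 0) (nat_lit 0xa8336d212) (nat_lit 423737724),
  Rx.mk (nat_lit 416) (nat_lit 0) (nat_lit 4) (nat_lit 6) (nat_lit 4) (nat_lit 367) (nat_lit 267) r6_367 r11_267 (nat_lit 1583871) (nat_lit 1198594) (nat_lit 0) (nat_lit 0x786c3fe62) (nat_lit 1202933889),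
  Rx.mk (nat_lit 419) (nat_lit 3) (nat_lit 4) (nat_lit 6) (nat_lit 5) (nat_lit 370) (nat_lit 268) r6_370 r11_268 (nat_lit 0) (nat_lit 2725786) (nat_lit 0) (nat_lit 0x80237ab70) (nat_lit 1074362110),
  Rx.mk (nat_lit 424) (nat_lit 0) (nat_lit 5) (nat_lit 6) (nat_lit 6) (nat_lit 368) (nat_lit 270) r6_368 r11_270 (nat_lit 3783142) (nat_lit 0) (nat_lit 0) (nat_lit 0x8026e504e) (nat_lit 1075205966),
  Rx.mk (nat_lit 427) (nat_lit 3) (nat_lit 5) (nat_lit 6) (nat_lit 7) (nat_lit 372) (nat_lit 271) r6_372 r11_271 (nat_lit 0) (nat_lit 0) (nat_lit 0) (nat_lit 0x80029938e) (nat_lit 1073741824),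
  Rx.mk (nat_lit 440) (nat_lit 0) (nat_lit 7) (nat_lit 6) (nat_lit 6) (nat_lit 369) (nat_lit 272) r6_369 r11_272 (nat_lit 4589682) (nat_lit 0) (nat_lit 0) (nat_lit 0x80102e396) (nat_lit 1077461506)]
noncomputable def e10 : List (List Rx) := [e10_0, e10_1, e10_2, e10_3, e10_4, e10_5, e10_6, e10_7, e10_8, e10_9, e10_10, e10_11, e10_12, e10_13, e10_14, e10_15, e10_16, e10_17, e10_18, e10_19, e10_20, e10_21, e10_22, e10_23, e10_24, e10_25, e10_26, e10_27, e10_28, e10_29, e10_30, e10_31, e10_32, e10_33, e10_34, e10_35, e10_36, e10_37, e10_38, e10_39, e10_40, e10_41, e10_42, e10_43, e10_44, e10_45, e10_46, e10_47, e10_48, e10_49, e10_50, e10_51, e10_52, e10_53, e10_54, e10_55, e10_56, e10_57]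
noncomputable def e11_0 : List Rx := [
  Rx.mk (nat_lit 116) (nat_lit 4) (nat_lit 6) (nat_lit 1) (nat_lit 6) (nat_lit 61) (nat_lit 89) r5_61 r0_89 (nat_lit 26638681) (nat_lit 0) (nat_lit 0) (nat_lit 0x7d4f8ee26) (nat_lit 1145302105),
  Rx.mk (nat_lit 118) (nat_lit 6) (nat_lit 6) (nat_lit 1) (nat_lit 7) (nat_lit 62) (nat_lit 90) r5_62 r0_90 (nat_lit 0) (nat_lit 0) (nat_lit 0) (nat_lit 0x83bd7abf0) (nat_lit 1013342324)]
noncomputable def e11_1 : List Rx := [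
  Rx.mk (nat_lit 116) (nat_lit 4) (nat_lit 6) (nat_lit 1) (nat_lit 6) (nat_lit 63) (nat_lit 91) r5_63 r1_91 (nat_lit 7636976) (nat_lit 0) (nat_lit 0) (nat_lit 0x7f2748de8) (nat_lit 1095591500),
  Rx.mk (nat_lit 118) (nat_lit 6) (nat_lit 6) (nat_lit 1) (nat_lit 7) (nat_lit 64) (nat_lit 92) r5_64 r1_92 (nat_lit 0) (nat_lit 0) (nat_lit 0) (nat_lit 0x80665f1a2) (nat_lit 1067372924),
  Rx.mk (nat_lit 374) (nat_lit 6) (nat_lit 6) (nat_lit 5) (nat_lit 7) (nat_lit 65) (nat_lit 93) r5_65 r1_93 (nat_lit 0) (nat_lit 0) (nat_lit 0) (nat_lit 0x803f07ad2) (nat_lit 1069877524)]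
noncomputable def e11_2 : List Rx := [
  Rx.mk (nat_lit 342) (nat_lit 6) (nat_lit 2) (nat_lit 5) (nat_lit 7) (nat_lit 14) (nat_lit 96) r5_14 r2_96 (nat_lit 0) (nat_lit 0) (nat_lit 0) (nat_lit 0x80029938e) (nat_lit 1073741824),
  Rx.mk (nat_lit 374) (nat_lit 6) (nat_lit 6) (nat_lit 5) (nat_lit 7) (nat_lit 15) (nat_lit 97) r5_15 r2_97 (nat_lit 0) (nat_lit 0) (nat_lit 0) (nat_lit 0x80300ae4e) (nat_lit 1070836624)]
noncomputable def e11_3 : List Rx := [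
  Rx.mk (nat_lit 39) (nat_lit 7) (nat_lit 4) (nat_lit 0) (nat_lit 1) (nat_lit 52) (nat_lit 84) r5_52 r3_84 (nat_lit 0) (nat_lit 316) (nat_lit 177) (nat_lit 0x81669eebe) (nat_lit 1051089317),
  Rx.mk (nat_lit 52) (nat_lit 4) (nat_lit 6) (nat_lit 0) (nat_lit 2) (nat_lit 55) (nat_lit 82) r5_55 r3_82 (nat_lit 634) (nat_lit 0) (nat_lit 480) (nat_lit 0x80005933a) (nat_lit 1073721238),
  Rx.mk (nat_lit 54) (nat_lit 6) (nat_lit 6) (nat_lit 0) (nat_lit 3) (nat_lit 57) (nat_lit 89) r5_57 r3_89 (nat_lit 0) (nat_lit 0) (nat_lit 12988) (nat_lit 0x75ca83206) (nat_lit 1243973512),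
  Rx.mk (nat_lit 55) (nat_lit 7) (nat_lit 6) (nat_lit 0) (nat_lit 3) (nat_lit 59) (nat_lit 87) r5_59 r3_87 (nat_lit 0) (nat_lit 0) (nat_lit 80098) (nat_lit 0x8d65266a2) (nat_lit 857234422),
  Rx.mk (nat_lit 103) (nat_lit 7) (nat_lit 4) (nat_lit 1) (nat_lit 5) (nat_lit 53) (nat_lit 85) r5_53 r3_85 (nat_lit 0) (nat_lit 1650932) (nat_lit 0) (nat_lit 0x848b5b614) (nat_lit 1001973956),
  Rx.mk (nat_lit 116) (nat_lit 4) (nat_lit 6) (nat_lit 1) (nat_lit 6) (nat_lit 56) (nat_lit 83) r5_56 r3_83 (nat_lit 1003900) (nat_lit 0) (nat_lit 0) (nat_lit 0x7e3ac80c2) (nat_lit 1104359824),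
  Rx.mk (nat_lit 118) (nat_lit 6) (nat_lit 6) (nat_lit 1) (nat_lit 7) (nat_lit 58) (nat_lit 90) r5_58 r3_90 (nat_lit 0) (nat_lit 0) (nat_lit 0) (nat_lit 0x8004ac4b4) (nat_lit 1073599124),
  Rx.mk (nat_lit 119) (nat_lit 7) (nat_lit 6) (nat_lit 1) (nat_lit 7) (nat_lit 60) (nat_lit 88) r5_60 r3_88 (nat_lit 0) (nat_lit 0) (nat_lit 0) (nat_lit 0x9e7dac8be) (nat_lit 580755524),
  Rx.mk (nat_lit 167) (nat_lit 7) (nat_lit 4) (nat_lit 2) (nat_lit 5) (nat_lit 54) (nat_lit 86) r5_54 r3_86 (nat_lit 0) (nat_lit 37687189) (nat_lit 0) (nat_lit 0x8ea30d5d2) (nat_lit 874777413)]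
noncomputable def e11_4 : List Rx := [
  Rx.mk (nat_lit 103) (nat_lit 7) (nat_lit 4) (nat_lit 1) (nat_lit 5) (nat_lit 66) (nat_lit 90) r5_66 r4_90 (nat_lit 0) (nat_lit 2225241) (nat_lit 0) (nat_lit 0x82f6d0388) (nat_lit 1028114265),
  Rx.mk (nat_lit 116) (nat_lit 4) (nat_lit 6) (nat_lit 1) (nat_lit 6) (nat_lit 67) (nat_lit 89) r5_67 r4_89 (nat_lit 1849300) (nat_lit 0) (nat_lit 0) (nat_lit 0x80a4c2070) (nat_lit 1065275624),
  Rx.mk (nat_lit 118) (nat_lit 6) (nat_lit 6) (nat_lit 1) (nat_lit 7) (nat_lit 68) (nat_lit 92) r5_68 r4_92 (nat_lit 0) (nat_lit 0) (nat_lit 0) (nat_lit 0x8060f33a8) (nat_lit 1067721724),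
  Rx.mk (nat_lit 119) (nat_lit 7) (nat_lit 6) (nat_lit 1) (nat_lit 7) (nat_lit 69) (nat_lit 91) r5_69 r4_91 (nat_lit 0) (nat_lit 0) (nat_lit 0) (nat_lit 0x882e63412) (nat_lit 941518924)]
noncomputable def e11_5 : List Rx := [
  Rx.mk (nat_lit 39) (nat_lit 7) (nat_lit 4) (nat_lit 0) (nat_lit 1) (nat_lit 80) (nat_lit 83) r5_80 r5_83 (nat_lit 0) (nat_lit 5605) (nat_lit 3718) (nat_lit 0x7af6a24cc) (nat_lit 1157727747),
  Rx.mk (nat_lit 52) (nat_lit 4) (nat_lit 6) (nat_lit 0) (nat_lit 2) (nat_lit 83) (nat_lit 80) r5_83 r5_80 (nat_lit 5605) (nat_lit 0) (nat_lit 3718) (nat_lit 0x7af6a24cc) (nat_lit 1157727747),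
  Rx.mk (nat_lit 54) (nat_lit 6) (nat_lit 6) (nat_lit 0) (nat_lit 3) (nat_lit 86) (nat_lit 91) r5_86 r5_91 (nat_lit 0) (nat_lit 0) (nat_lit 1288735) (nat_lit 0x7e46ed974) (nat_lit 1103838259),
  Rx.mk (nat_lit 55) (nat_lit 7) (nat_lit 6) (nat_lit 0) (nat_lit 3) (nat_lit 89) (nat_lit 89) r5_89 r5_89 (nat_lit 0) (nat_lit 0) (nat_lit 30115) (nat_lit 0x893516ab0) (nat_lit 924891639),
  Rx.mk (nat_lit 63) (nat_lit 7) (nat_lit 7) (nat_lit 0) (nat_lit 3) (nat_lit 91) (nat_lit 86) r5_91 r5_86 (nat_lit 0) (nat_lit 0) (nat_lit 1288735) (nat_lit 0x7e46ed974) (nat_lit 1103838259),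
  Rx.mk (nat_lit 103) (nat_lit 7) (nat_lit 4) (nat_lit 1) (nat_lit 5) (nat_lit 81) (nat_lit 84) r5_81 r5_84 (nat_lit 0) (nat_lit 2434184) (nat_lit 0) (nat_lit 0x8086ffccc) (nat_lit 1067749108),
  Rx.mk (nat_lit 116) (nat_lit 4) (nat_lit 6) (nat_lit 1) (nat_lit 6) (nat_lit 84) (nat_lit 81) r5_84 r5_81 (nat_lit 2434184) (nat_lit 0) (nat_lit 0) (nat_lit 0x8086ffccc) (nat_lit 1067749108),
  Rx.mk (nat_lit 118) (nat_lit 6) (nat_lit 6) (nat_lit 1) (nat_lit 7) (nat_lit 87) (nat_lit 92) r5_87 r5_92 (nat_lit 0) (nat_lit 0) (nat_lit 0) (nat_lit 0x7ff60f596) (nat_lit 1074542724),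
  Rx.mk (nat_lit 119) (nat_lit 7) (nat_lit 6) (nat_lit 1) (nat_lit 7) (nat_lit 90) (nat_lit 90) r5_90 r5_90 (nat_lit 0) (nat_lit 0) (nat_lit 0) (nat_lit 0x805a1822c) (nat_lit 1068161824),
  Rx.mk (nat_lit 127) (nat_lit 7) (nat_lit 7) (nat_lit 1) (nat_lit 7) (nat_lit 92) (nat_lit 87) r5_92 r5_87 (nat_lit 0) (nat_lit 0) (nat_lit 0) (nat_lit 0x7ff60f596) (nat_lit 1074542724),
  Rx.mk (nat_lit 167) (nat_lit 7) (nat_lit 4) (nat_lit 2) (nat_lit 5) (nat_lit 82) (nat_lit 85) r5_82 r5_85 (nat_lit 0) (nat_lit 1411156) (nat_lit 0) (nat_lit 0x83ceb249a) (nat_lit 1013660580),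
  Rx.mk (nat_lit 191) (nat_lit 7) (nat_lit 7) (nat_lit 2) (nat_lit 7) (nat_lit 93) (nat_lit 88) r5_93 r5_88 (nat_lit 0) (nat_lit 0) (nat_lit 0) (nat_lit 0x80088cbd8) (nat_lit 1073347024),
  Rx.mk (nat_lit 244) (nat_lit 4) (nat_lit 6) (nat_lit 3) (nat_lit 6) (nat_lit 85) (nat_lit 82) r5_85 r5_82 (nat_lit 1411156) (nat_lit 0) (nat_lit 0) (nat_lit 0x83ceb249a) (nat_lit 1013660580),
  Rx.mk (nat_lit 246) (nat_lit 6) (nat_lit 6) (nat_lit 3) (nat_lit 7) (nat_lit 88) (nat_lit 93) r5_88 r5_93 (nat_lit 0) (nat_lit 0) (nat_lit 0) (nat_lit 0x80088cbd8) (nat_lit 1073347024)]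
noncomputable def e11_6 : List Rx := [
  Rx.mk (nat_lit 152) (nat_lit 0) (nat_lit 3) (nat_lit 2) (nat_lit 6) (nat_lit 21) (nat_lit 54) r5_21 r3_54 (nat_lit 1165) (nat_lit 0) (nat_lit 0) (nat_lit 0x81141330c) (nat_lit 1056304189),
  Rx.mk (nat_lit 155) (nat_lit 3) (nat_lit 3) (nat_lit 2) (nat_lit 7) (nat_lit 24) (nat_lit 55) r5_24 r3_55 (nat_lit 0) (nat_lit 0) (nat_lit 0) (nat_lit 0x7fc99dd96) (nat_lit 1077408124),
  Rx.mk (nat_lit 187) (nat_lit 3) (nat_lit 7) (nat_lit 2) (nat_lit 7) (nat_lit 26) (nat_lit 50) r5_26 r3_50 (nat_lit 0) (nat_lit 0) (nat_lit 0) (nat_lit 0x803cbf158) (nat_lit 1070006924),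
  Rx.mk (nat_lit 274) (nat_lit 2) (nat_lit 2) (nat_lit 4) (nat_lit 3) (nat_lit 17) (nat_lit 59) r5_17 r3_59 (nat_lit 0) (nat_lit 0) (nat_lit 2868) (nat_lit 0x74f65d1f2) (nat_lit 1257776192),
  Rx.mk (nat_lit 278) (nat_lit 6) (nat_lit 2) (nat_lit 4) (nat_lit 3) (nat_lit 19) (nat_lit 57) r5_19 r3_57 (nat_lit 0) (nat_lit 0) (nat_lit 325819) (nat_lit 0x790c61206) (nat_lit 1190017643),
  Rx.mk (nat_lit 386) (nat_lit 2) (nat_lit 0) (nat_lit 6) (nat_lit 5) (nat_lit 16) (nat_lit 52) r5_16 r3_52 (nat_lit 0) (nat_lit 8830) (nat_lit 0) (nat_lit 0x78e083986) (nat_lit 1192515254),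
  Rx.mk (nat_lit 402) (nat_lit 2) (nat_lit 2) (nat_lit 6) (nat_lit 7) (nat_lit 18) (nat_lit 60) r5_18 r3_60 (nat_lit 0) (nat_lit 0) (nat_lit 0) (nat_lit 0x7f7adade4) (nat_lit 1082517324),
  Rx.mk (nat_lit 408) (nat_lit 0) (nat_lit 3) (nat_lit 6) (nat_lit 6) (nat_lit 22) (nat_lit 53) r5_22 r3_53 (nat_lit 24763) (nat_lit 0) (nat_lit 0) (nat_lit 0x79833e1f8) (nat_lit 1181934387),
  Rx.mk (nat_lit 410) (nat_lit 2) (nat_lit 3) (nat_lit 6) (nat_lit 7) (nat_lit 23) (nat_lit 56) r5_23 r3_56 (nat_lit 0) (nat_lit 0) (nat_lit 0) (nat_lit 0x94a79ed66) (nat_lit 739802724),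
  Rx.mk (nat_lit 470) (nat_lit 6) (nat_lit 2) (nat_lit 7) (nat_lit 7) (nat_lit 20) (nat_lit 58) r5_20 r3_58 (nat_lit 0) (nat_lit 0) (nat_lit 0) (nat_lit 0x91650a2be) (nat_lit 792518424),
  Rx.mk (nat_lit 502) (nat_lit 6) (nat_lit 6) (nat_lit 7) (nat_lit 7) (nat_lit 25) (nat_lit 51) r5_25 r3_51 (nat_lit 0) (nat_lit 0) (nat_lit 0) (nat_lit 0x7dcd58708) (nat_lit 1110443224)]
noncomputable def e11_7 : List Rx := [
  Rx.mk (nat_lit 274) (nat_lit 2) (nat_lit 2) (nat_lit 4) (nat_lit 3) (nat_lit 1) (nat_lit 69) r5_1 r0_69 (nat_lit 0) (nat_lit 0) (nat_lit 766655) (nat_lit 0x7495bc8de) (nat_lit 1264902279),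
  Rx.mk (nat_lit 278) (nat_lit 6) (nat_lit 2) (nat_lit 4) (nat_lit 3) (nat_lit 3) (nat_lit 68) r5_3 r0_68 (nat_lit 0) (nat_lit 0) (nat_lit 1158438) (nat_lit 0x7fed5a61c) (nat_lit 1076256662),
  Rx.mk (nat_lit 310) (nat_lit 6) (nat_lit 6) (nat_lit 4) (nat_lit 3) (nat_lit 4) (nat_lit 65) r5_4 r0_65 (nat_lit 0) (nat_lit 0) (nat_lit 956393) (nat_lit 0x7c593b998) (nat_lit 1135682617),
  Rx.mk (nat_lit 386) (nat_lit 2) (nat_lit 0) (nat_lit 6) (nat_lit 5) (nat_lit 0) (nat_lit 67) r5_0 r0_67 (nat_lit 0) (nat_lit 1192389) (nat_lit 0) (nat_lit 0x7f2e926b2) (nat_lit 1088653513),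
  Rx.mk (nat_lit 402) (nat_lit 2) (nat_lit 2) (nat_lit 6) (nat_lit 7) (nat_lit 2) (nat_lit 70) r5_2 r0_70 (nat_lit 0) (nat_lit 0) (nat_lit 0) (nat_lit 0x7fef31df0) (nat_lit 1074983524),
  Rx.mk (nat_lit 502) (nat_lit 6) (nat_lit 6) (nat_lit 7) (nat_lit 7) (nat_lit 5) (nat_lit 66) r5_5 r0_66 (nat_lit 0) (nat_lit 0) (nat_lit 0) (nat_lit 0x804823e18) (nat_lit 1069300924)]
noncomputable def e11_8 : List Rx := [
  Rx.mk (nat_lit 274) (nat_lit 2) (nat_lit 2) (nat_lit 4) (nat_lit 3) (nat_lit 6) (nat_lit 63) r5_6 r1_63 (nat_lit 0) (nat_lit 0) (nat_lit 1331363) (nat_lit 0x70d9a8132) (nat_lit 1327744887),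
  Rx.mk (nat_lit 278) (nat_lit 6) (nat_lit 2) (nat_lit 4) (nat_lit 3) (nat_lit 9) (nat_lit 61) r5_9 r1_61 (nat_lit 0) (nat_lit 0) (nat_lit 933722) (nat_lit 0x7fb880d2e) (nat_lit 1079433146),
  Rx.mk (nat_lit 310) (nat_lit 6) (nat_lit 6) (nat_lit 4) (nat_lit 3) (nat_lit 11) (nat_lit 58) r5_11 r1_58 (nat_lit 0) (nat_lit 0) (nat_lit 1041807) (nat_lit 0x74a17feb4) (nat_lit 1264422431),
  Rx.mk (nat_lit 338) (nat_lit 2) (nat_lit 2) (nat_lit 5) (nat_lit 7) (nat_lit 7) (nat_lit 64) r5_7 r1_64 (nat_lit 0) (nat_lit 0) (nat_lit 0) (nat_lit 0x7fd7609d8) (nat_lit 1076521124),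
  Rx.mk (nat_lit 342) (nat_lit 6) (nat_lit 2) (nat_lit 5) (nat_lit 7) (nat_lit 10) (nat_lit 62) r5_10 r1_62 (nat_lit 0) (nat_lit 0) (nat_lit 0) (nat_lit 0x808eeb03a) (nat_lit 1064821724),
  Rx.mk (nat_lit 374) (nat_lit 6) (nat_lit 6) (nat_lit 5) (nat_lit 7) (nat_lit 12) (nat_lit 59) r5_12 r1_59 (nat_lit 0) (nat_lit 0) (nat_lit 0) (nat_lit 0x8107244b6) (nat_lit 1057210324),
  Rx.mk (nat_lit 402) (nat_lit 2) (nat_lit 2) (nat_lit 6) (nat_lit 7) (nat_lit 8) (nat_lit 65) r5_8 r1_65 (nat_lit 0) (nat_lit 0) (nat_lit 0) (nat_lit 0x7fe8a5784) (nat_lit 1075407924),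
  Rx.mk (nat_lit 502) (nat_lit 6) (nat_lit 6) (nat_lit 7) (nat_lit 7) (nat_lit 13) (nat_lit 60) r5_13 r1_60 (nat_lit 0) (nat_lit 0) (nat_lit 0) (nat_lit 0x8052ab444) (nat_lit 1068632924)]
noncomputable def e11_9 : List Rx := [
  Rx.mk (nat_lit 274) (nat_lit 2) (nat_lit 2) (nat_lit 4) (nat_lit 3) (nat_lit 28) (nat_lit 63) r5_28 r4_63 (nat_lit 0) (nat_lit 0) (nat_lit 1975302) (nat_lit 0x7f23bc56c) (nat_lit 1090154226),
  Rx.mk (nat_lit 278) (nat_lit 6) (nat_lit 2) (nat_lit 4) (nat_lit 3) (nat_lit 30) (nat_lit 61) r5_30 r4_61 (nat_lit 0) (nat_lit 0) (nat_lit 940616) (nat_lit 0x802fcad94) (nat_lit 1071778540),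
  Rx.mk (nat_lit 386) (nat_lit 2) (nat_lit 0) (nat_lit 6) (nat_lit 5) (nat_lit 27) (nat_lit 59) r5_27 r4_59 (nat_lit 0) (nat_lit 1180737) (nat_lit 0) (nat_lit 0x800877684) (nat_lit 1074523561),
  Rx.mk (nat_lit 402) (nat_lit 2) (nat_lit 2) (nat_lit 6) (nat_lit 7) (nat_lit 29) (nat_lit 64) r5_29 r4_64 (nat_lit 0) (nat_lit 0) (nat_lit 0) (nat_lit 0x8024901fe) (nat_lit 1071566124),
  Rx.mk (nat_lit 410) (nat_lit 2) (nat_lit 3) (nat_lit 6) (nat_lit 7) (nat_lit 32) (nat_lit 60) r5_32 r4_60 (nat_lit 0) (nat_lit 0) (nat_lit 0) (nat_lit 0x8659a71ca) (nat_lit 971123424),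
  Rx.mk (nat_lit 470) (nat_lit 6) (nat_lit 2) (nat_lit 7) (nat_lit 7) (nat_lit 31) (nat_lit 62) r5_31 r4_62 (nat_lit 0) (nat_lit 0) (nat_lit 0) (nat_lit 0x811e5b576) (nat_lit 1055742624),
  Rx.mk (nat_lit 502) (nat_lit 6) (nat_lit 6) (nat_lit 7) (nat_lit 7) (nat_lit 33) (nat_lit 58) r5_33 r4_58 (nat_lit 0) (nat_lit 0) (nat_lit 0) (nat_lit 0x80739ec28) (nat_lit 1066538624)]
noncomputable def e11_10 : List Rx := [
  Rx.mk (nat_lit 39) (nat_lit 7) (nat_lit 4) (nat_lit 0) (nat_lit 1) (nat_lit 70) (nat_lit 90) r5_70 r6_90 (nat_lit 0) (nat_lit 22438) (nat_lit 16168) (nat_lit 0x7a1c8609a) (nat_lit 1171966330),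
  Rx.mk (nat_lit 55) (nat_lit 7) (nat_lit 6) (nat_lit 0) (nat_lit 3) (nat_lit 75) (nat_lit 95) r5_75 r6_95 (nat_lit 0) (nat_lit 0) (nat_lit 294333) (nat_lit 0x869783e6c) (nat_lit 967494857),
  Rx.mk (nat_lit 63) (nat_lit 7) (nat_lit 7) (nat_lit 0) (nat_lit 3) (nat_lit 78) (nat_lit 93) r5_78 r6_93 (nat_lit 0) (nat_lit 0) (nat_lit 3813020) (nat_lit 0x7e7fe50b0) (nat_lit 1102664344),
  Rx.mk (nat_lit 167) (nat_lit 7) (nat_lit 4) (nat_lit 2) (nat_lit 5) (nat_lit 71) (nat_lit 92) r5_71 r6_92 (nat_lit 0) (nat_lit 1145575) (nat_lit 0) (nat_lit 0x81615e058) (nat_lit 1052648999),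
  Rx.mk (nat_lit 187) (nat_lit 3) (nat_lit 7) (nat_lit 2) (nat_lit 7) (nat_lit 77) (nat_lit 88) r5_77 r6_88 (nat_lit 0) (nat_lit 0) (nat_lit 0) (nat_lit 0x7d806d86c) (nat_lit 1115429524),
  Rx.mk (nat_lit 191) (nat_lit 7) (nat_lit 7) (nat_lit 2) (nat_lit 7) (nat_lit 79) (nat_lit 94) r5_79 r6_94 (nat_lit 0) (nat_lit 0) (nat_lit 0) (nat_lit 0x8019076ca) (nat_lit 1072298224),
  Rx.mk (nat_lit 231) (nat_lit 7) (nat_lit 4) (nat_lit 3) (nat_lit 5) (nat_lit 72) (nat_lit 91) r5_72 r6_91 (nat_lit 0) (nat_lit 2825381) (nat_lit 0) (nat_lit 0x7fbf7b2aa) (nat_lit 1080886705),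
  Rx.mk (nat_lit 244) (nat_lit 4) (nat_lit 6) (nat_lit 3) (nat_lit 6) (nat_lit 73) (nat_lit 89) r5_73 r6_89 (nat_lit 826810) (nat_lit 0) (nat_lit 0) (nat_lit 0x802fe455a) (nat_lit 1071641334),
  Rx.mk (nat_lit 246) (nat_lit 6) (nat_lit 6) (nat_lit 3) (nat_lit 7) (nat_lit 74) (nat_lit 97) r5_74 r6_97 (nat_lit 0) (nat_lit 0) (nat_lit 0) (nat_lit 0x804ab9c7c) (nat_lit 1069132524),
  Rx.mk (nat_lit 247) (nat_lit 7) (nat_lit 6) (nat_lit 3) (nat_lit 7) (nat_lit 76) (nat_lit 96) r5_76 r6_96 (nat_lit 0) (nat_lit 0) (nat_lit 0) (nat_lit 0x940158de4) (nat_lit 750318324)]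
noncomputable def e11_11 : List Rx := [
  Rx.mk (nat_lit 63) (nat_lit 7) (nat_lit 7) (nat_lit 0) (nat_lit 3) (nat_lit 49) (nat_lit 35) r5_49 r5_35 (nat_lit 0) (nat_lit 0) (nat_lit 21901) (nat_lit 0x6a5290b5a) (nat_lit 1435199925),
  Rx.mk (nat_lit 155) (nat_lit 3) (nat_lit 3) (nat_lit 2) (nat_lit 7) (nat_lit 41) (nat_lit 46) r5_41 r5_46 (nat_lit 0) (nat_lit 0) (nat_lit 0) (nat_lit 0x7cf238c40) (nat_lit 1124699524),
  Rx.mk (nat_lit 187) (nat_lit 3) (nat_lit 7) (nat_lit 2) (nat_lit 7) (nat_lit 48) (nat_lit 38) r5_48 r5_38 (nat_lit 0) (nat_lit 0) (nat_lit 0) (nat_lit 0x758253314) (nat_lit 1248689624),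
  Rx.mk (nat_lit 191) (nat_lit 7) (nat_lit 7) (nat_lit 2) (nat_lit 7) (nat_lit 50) (nat_lit 37) r5_50 r5_37 (nat_lit 0) (nat_lit 0) (nat_lit 0) (nat_lit 0x79988cc26) (nat_lit 1180574724),
  Rx.mk (nat_lit 231) (nat_lit 7) (nat_lit 4) (nat_lit 3) (nat_lit 5) (nat_lit 43) (nat_lit 34) r5_43 r5_34 (nat_lit 0) (nat_lit 814) (nat_lit 0) (nat_lit 0x80008816c) (nat_lit 1073709438),
  Rx.mk (nat_lit 244) (nat_lit 4) (nat_lit 6) (nat_lit 3) (nat_lit 6) (nat_lit 44) (nat_lit 39) r5_44 r5_39 (nat_lit 24270) (nat_lit 0) (nat_lit 0) (nat_lit 0x67d9da6c2) (nat_lit 1476410594),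
  Rx.mk (nat_lit 246) (nat_lit 6) (nat_lit 6) (nat_lit 3) (nat_lit 7) (nat_lit 45) (nat_lit 42) r5_45 r5_42 (nat_lit 0) (nat_lit 0) (nat_lit 0) (nat_lit 0x7fae9a378) (nat_lit 1079141924),
  Rx.mk (nat_lit 247) (nat_lit 7) (nat_lit 6) (nat_lit 3) (nat_lit 7) (nat_lit 47) (nat_lit 40) r5_47 r5_40 (nat_lit 0) (nat_lit 0) (nat_lit 0) (nat_lit 0x9ccef73e2) (nat_lit 607894524),
  Rx.mk (nat_lit 255) (nat_lit 7) (nat_lit 7) (nat_lit 3) (nat_lit 7) (nat_lit 51) (nat_lit 36) r5_51 r5_36 (nat_lit 0) (nat_lit 0) (nat_lit 0) (nat_lit 0x7f819f9a4) (nat_lit 1082075024),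
  Rx.mk (nat_lit 274) (nat_lit 2) (nat_lit 2) (nat_lit 4) (nat_lit 3) (nat_lit 35) (nat_lit 49) r5_35 r5_49 (nat_lit 0) (nat_lit 0) (nat_lit 21901) (nat_lit 0x6a5290b5a) (nat_lit 1435199925),
  Rx.mk (nat_lit 386) (nat_lit 2) (nat_lit 0) (nat_lit 6) (nat_lit 5) (nat_lit 34) (nat_lit 43) r5_34 r5_43 (nat_lit 0) (nat_lit 814) (nat_lit 0) (nat_lit 0x80008816c) (nat_lit 1073709438),
  Rx.mk (nat_lit 402) (nat_lit 2) (nat_lit 2) (nat_lit 6) (nat_lit 7) (nat_lit 36) (nat_lit 51) r5_36 r5_51 (nat_lit 0) (nat_lit 0) (nat_lit 0) (nat_lit 0x7f819f9a4) (nat_lit 1082075024),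
  Rx.mk (nat_lit 408) (nat_lit 0) (nat_lit 3) (nat_lit 6) (nat_lit 6) (nat_lit 39) (nat_lit 44) r5_39 r5_44 (nat_lit 24270) (nat_lit 0) (nat_lit 0) (nat_lit 0x67d9da6c2) (nat_lit 1476410594),
  Rx.mk (nat_lit 410) (nat_lit 2) (nat_lit 3) (nat_lit 6) (nat_lit 7) (nat_lit 40) (nat_lit 47) r5_40 r5_47 (nat_lit 0) (nat_lit 0) (nat_lit 0) (nat_lit 0x9ccef73e2) (nat_lit 607894524),
  Rx.mk (nat_lit 411) (nat_lit 3) (nat_lit 3) (nat_lit 6) (nat_lit 7) (nat_lit 42) (nat_lit 45) r5_42 r5_45 (nat_lit 0) (nat_lit 0) (nat_lit 0) (nat_lit 0x7fae9a378) (nat_lit 1079141924),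
  Rx.mk (nat_lit 466) (nat_lit 2) (nat_lit 2) (nat_lit 7) (nat_lit 7) (nat_lit 37) (nat_lit 50) r5_37 r5_50 (nat_lit 0) (nat_lit 0) (nat_lit 0) (nat_lit 0x79988cc26) (nat_lit 1180574724),
  Rx.mk (nat_lit 470) (nat_lit 6) (nat_lit 2) (nat_lit 7) (nat_lit 7) (nat_lit 38) (nat_lit 48) r5_38 r5_48 (nat_lit 0) (nat_lit 0) (nat_lit 0) (nat_lit 0x758253314) (nat_lit 1248689624),
  Rx.mk (nat_lit 502) (nat_lit 6) (nat_lit 6) (nat_lit 7) (nat_lit 7) (nat_lit 46) (nat_lit 41) r5_46 r5_41 (nat_lit 0) (nat_lit 0) (nat_lit 0) (nat_lit 0x7cf238c40) (nat_lit 1124699524)]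
noncomputable def e11_12 : List Rx := [
  Rx.mk (nat_lit 36) (nat_lit 4) (nat_lit 4) (nat_lit 0) (nat_lit 0) (nat_lit 152) (nat_lit 330) r5_152 r0_330 (nat_lit 352) (nat_lit 330744107) (nat_lit 325) (nat_lit 0x800010eb4) (nat_lit 1404482608),
  Rx.mk (nat_lit 37) (nat_lit 5) (nat_lit 4) (nat_lit 0) (nat_lit 1) (nat_lit 155) (nat_lit 331) r5_155 r0_331 (nat_lit 0) (nat_lit 2163217) (nat_lit 9541506) (nat_lit 0x7d2876e7e) (nat_lit 1132919447),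
  Rx.mk (nat_lit 52) (nat_lit 4) (nat_lit 6) (nat_lit 0) (nat_lit 2) (nat_lit 158) (nat_lit 332) r5_158 r0_332 (nat_lit 1646045) (nat_lit 0) (nat_lit 1903628) (nat_lit 0x64837e9fc) (nat_lit 1535649097),
  Rx.mk (nat_lit 53) (nat_lit 5) (nat_lit 6) (nat_lit 0) (nat_lit 3) (nat_lit 160) (nat_lit 333) r5_160 r0_333 (nat_lit 0) (nat_lit 0) (nat_lit 3491444) (nat_lit 0x7fef1f6dc) (nat_lit 1078469368),
  Rx.mk (nat_lit 54) (nat_lit 6) (nat_lit 6) (nat_lit 0) (nat_lit 3) (nat_lit 162) (nat_lit 334) r5_162 r0_334 (nat_lit 0) (nat_lit 0) (nat_lit 4819430) (nat_lit 0x75c3dc4d4) (nat_lit 1249292654),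
  Rx.mk (nat_lit 100) (nat_lit 4) (nat_lit 4) (nat_lit 1) (nat_lit 4) (nat_lit 153) (nat_lit 335) r5_153 r0_335 (nat_lit 2550648) (nat_lit 173854821) (nat_lit 0) (nat_lit 0x75a4173f6) (nat_lit 1422939093),
  Rx.mk (nat_lit 101) (nat_lit 5) (nat_lit 4) (nat_lit 1) (nat_lit 5) (nat_lit 156) (nat_lit 336) r5_156 r0_336 (nat_lit 0) (nat_lit 5090091) (nat_lit 0) (nat_lit 0x7fe496148) (nat_lit 1080758915),
  Rx.mk (nat_lit 116) (nat_lit 4) (nat_lit 6) (nat_lit 1) (nat_lit 6) (nat_lit 159) (nat_lit 337) r5_159 r0_337 (nat_lit 3048911) (nat_lit 0) (nat_lit 0) (nat_lit 0x7f12771a8) (nat_lit 1092353635),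
  Rx.mk (nat_lit 117) (nat_lit 5) (nat_lit 6) (nat_lit 1) (nat_lit 7) (nat_lit 161) (nat_lit 338) r5_161 r0_338 (nat_lit 0) (nat_lit 0) (nat_lit 0) (nat_lit 0x7ffdbe706) (nat_lit 1074053224),
  Rx.mk (nat_lit 118) (nat_lit 6) (nat_lit 6) (nat_lit 1) (nat_lit 7) (nat_lit 163) (nat_lit 339) r5_163 r0_339 (nat_lit 0) (nat_lit 0) (nat_lit 0) (nat_lit 0x801989bc0) (nat_lit 1072271724),
  Rx.mk (nat_lit 164) (nat_lit 4) (nat_lit 4) (nat_lit 2) (nat_lit 4) (nat_lit 154) (nat_lit 340) r5_154 r0_340 (nat_lit 281567) (nat_lit 98422675) (nat_lit 0) (nat_lit 0x7f7c07604) (nat_lit 1181102766),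
  Rx.mk (nat_lit 165) (nat_lit 5) (nat_lit 4) (nat_lit 2) (nat_lit 5) (nat_lit 157) (nat_lit 341) r5_157 r0_341 (nat_lit 0) (nat_lit 1226898) (nat_lit 0) (nat_lit 0x7f8055c9c) (nat_lit 1083371622)]
noncomputable def e11_13 : List Rx := [
  Rx.mk (nat_lit 100) (nat_lit 4) (nat_lit 4) (nat_lit 1) (nat_lit 4) (nat_lit 184) (nat_lit 88) r5_184 r7_88 (nat_lit 2284157) (nat_lit 10009322) (nat_lit 0) (nat_lit 0x6e04ad22c) (nat_lit 1385922203),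
  Rx.mk (nat_lit 101) (nat_lit 5) (nat_lit 4) (nat_lit 1) (nat_lit 5) (nat_lit 185) (nat_lit 90) r5_185 r7_90 (nat_lit 0) (nat_lit 5449534) (nat_lit 0) (nat_lit 0x80029938e) (nat_lit 1079191358),
  Rx.mk (nat_lit 116) (nat_lit 4) (nat_lit 6) (nat_lit 1) (nat_lit 6) (nat_lit 186) (nat_lit 89) r5_186 r7_89 (nat_lit 2216475) (nat_lit 0) (nat_lit 0) (nat_lit 0x802e1cf2e) (nat_lit 1073168099),
  Rx.mk (nat_lit 117) (nat_lit 5) (nat_lit 6) (nat_lit 1) (nat_lit 7) (nat_lit 187) (nat_lit 91) r5_187 r7_91 (nat_lit 0) (nat_lit 0) (nat_lit 0) (nat_lit 0x8045fce28) (nat_lit 1069439724),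
  Rx.mk (nat_lit 118) (nat_lit 6) (nat_lit 6) (nat_lit 1) (nat_lit 7) (nat_lit 188) (nat_lit 92) r5_188 r7_92 (nat_lit 0) (nat_lit 0) (nat_lit 0) (nat_lit 0x7fe8d0dda) (nat_lit 1075400424)]
noncomputable def e11_14 : List Rx := [
  Rx.mk (nat_lit 37) (nat_lit 5) (nat_lit 4) (nat_lit 0) (nat_lit 1) (nat_lit 164) (nat_lit 311) r5_164 r1_311 (nat_lit 0) (nat_lit 4362951) (nat_lit 89993226) (nat_lit 0x7894e6d52) (nat_lit 1291869601),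
  Rx.mk (nat_lit 53) (nat_lit 5) (nat_lit 6) (nat_lit 0) (nat_lit 3) (nat_lit 167) (nat_lit 312) r5_167 r1_312 (nat_lit 0) (nat_lit 0) (nat_lit 3039288) (nat_lit 0x80c38d252) (nat_lit 1064522612),
  Rx.mk (nat_lit 101) (nat_lit 5) (nat_lit 4) (nat_lit 1) (nat_lit 5) (nat_lit 165) (nat_lit 313) r5_165 r1_313 (nat_lit 0) (nat_lit 3697266) (nat_lit 0) (nat_lit 0x803df29c6) (nat_lit 1073649890),
  Rx.mk (nat_lit 117) (nat_lit 5) (nat_lit 6) (nat_lit 1) (nat_lit 7) (nat_lit 168) (nat_lit 314) r5_168 r1_314 (nat_lit 0) (nat_lit 0) (nat_lit 0) (nat_lit 0x80299d296) (nat_lit 1071247324),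
  Rx.mk (nat_lit 165) (nat_lit 5) (nat_lit 4) (nat_lit 2) (nat_lit 5) (nat_lit 166) (nat_lit 315) r5_166 r1_315 (nat_lit 0) (nat_lit 1434760) (nat_lit 0) (nat_lit 0x8012c14dc) (nat_lit 1074124184)]
noncomputable def e11_15 : List Rx := [
  Rx.mk (nat_lit 101) (nat_lit 5) (nat_lit 4) (nat_lit 1) (nat_lit 5) (nat_lit 189) (nat_lit 74) r5_189 r8_74 (nat_lit 0) (nat_lit 4548292) (nat_lit 0) (nat_lit 0x801151fac) (nat_lit 1077347316),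
  Rx.mk (nat_lit 117) (nat_lit 5) (nat_lit 6) (nat_lit 1) (nat_lit 7) (nat_lit 190) (nat_lit 75) r5_190 r8_75 (nat_lit 0) (nat_lit 0) (nat_lit 0) (nat_lit 0x802981c80) (nat_lit 1071252824)]
noncomputable def e11_16 : List Rx := [
  Rx.mk (nat_lit 100) (nat_lit 4) (nat_lit 4) (nat_lit 1) (nat_lit 4) (nat_lit 191) (nat_lit 362) r5_191 r8_362 (nat_lit 8738081) (nat_lit 23550711) (nat_lit 0) (nat_lit 0x6ca37911e) (nat_lit 1428927416),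
  Rx.mk (nat_lit 101) (nat_lit 5) (nat_lit 4) (nat_lit 1) (nat_lit 5) (nat_lit 192) (nat_lit 363) r5_192 r8_363 (nat_lit 0) (nat_lit 5449534) (nat_lit 0) (nat_lit 0x80029938e) (nat_lit 1079191358),
  Rx.mk (nat_lit 116) (nat_lit 4) (nat_lit 6) (nat_lit 1) (nat_lit 6) (nat_lit 193) (nat_lit 364) r5_193 r8_364 (nat_lit 6212599) (nat_lit 0) (nat_lit 0) (nat_lit 0x7fbcc638e) (nat_lit 1084455923),
  Rx.mk (nat_lit 117) (nat_lit 5) (nat_lit 6) (nat_lit 1) (nat_lit 7) (nat_lit 194) (nat_lit 365) r5_194 r8_365 (nat_lit 0) (nat_lit 0) (nat_lit 0) (nat_lit 0x80029938e) (nat_lit 1073741824),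
  Rx.mk (nat_lit 118) (nat_lit 6) (nat_lit 6) (nat_lit 1) (nat_lit 7) (nat_lit 195) (nat_lit 366) r5_195 r8_366 (nat_lit 0) (nat_lit 0) (nat_lit 0) (nat_lit 0x80029938e) (nat_lit 1073741824),
  Rx.mk (nat_lit 374) (nat_lit 6) (nat_lit 6) (nat_lit 5) (nat_lit 7) (nat_lit 196) (nat_lit 361) r5_196 r8_361 (nat_lit 0) (nat_lit 0) (nat_lit 0) (nat_lit 0x80029938e) (nat_lit 1073741824)]
noncomputable def e11_17 : List Rx := [
  Rx.mk (nat_lit 342) (nat_lit 6) (nat_lit 2) (nat_lit 5) (nat_lit 7) (nat_lit 150) (nat_lit 63) r5_150 r9_63 (nat_lit 0) (nat_lit 0) (nat_lit 0) (nat_lit 0x80029938e) (nat_lit 1073741824),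
  Rx.mk (nat_lit 374) (nat_lit 6) (nat_lit 6) (nat_lit 5) (nat_lit 7) (nat_lit 151) (nat_lit 64) r5_151 r9_64 (nat_lit 0) (nat_lit 0) (nat_lit 0) (nat_lit 0x80029938e) (nat_lit 1073741824)]
noncomputable def e11_18 : List Rx := [
  Rx.mk (nat_lit 36) (nat_lit 4) (nat_lit 4) (nat_lit 0) (nat_lit 0) (nat_lit 169) (nat_lit 366) r5_169 r4_366 (nat_lit 466835) (nat_lit 4259189) (nat_lit 860710) (nat_lit 0x635d5b15e) (nat_lit 1556822258),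
  Rx.mk (nat_lit 37) (nat_lit 5) (nat_lit 4) (nat_lit 0) (nat_lit 1) (nat_lit 172) (nat_lit 367) r5_172 r4_367 (nat_lit 0) (nat_lit 12405820) (nat_lit 17535176) (nat_lit 0x795ddbf82) (nat_lit 1214366620),
  Rx.mk (nat_lit 39) (nat_lit 7) (nat_lit 4) (nat_lit 0) (nat_lit 1) (nat_lit 174) (nat_lit 368) r5_174 r4_368 (nat_lit 0) (nat_lit 168964555) (nat_lit 2267724) (nat_lit 0x7c6cb83d6) (nat_lit 1304668303),
  Rx.mk (nat_lit 52) (nat_lit 4) (nat_lit 6) (nat_lit 0) (nat_lit 2) (nat_lit 177) (nat_lit 369) r5_177 r4_369 (nat_lit 2004750) (nat_lit 0) (nat_lit 2934250) (nat_lit 0x73620465a) (nat_lit 1289129524),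
  Rx.mk (nat_lit 53) (nat_lit 5) (nat_lit 6) (nat_lit 0) (nat_lit 3) (nat_lit 179) (nat_lit 370) r5_179 r4_370 (nat_lit 0) (nat_lit 0) (nat_lit 2793643) (nat_lit 0x803c95650) (nat_lit 1072830667),
  Rx.mk (nat_lit 54) (nat_lit 6) (nat_lit 6) (nat_lit 0) (nat_lit 3) (nat_lit 180) (nat_lit 372) r5_180 r4_372 (nat_lit 0) (nat_lit 0) (nat_lit 5596659) (nat_lit 0x7fa5306f2) (nat_lit 1085368283),
  Rx.mk (nat_lit 55) (nat_lit 7) (nat_lit 6) (nat_lit 0) (nat_lit 3) (nat_lit 182) (nat_lit 371) r5_182 r4_371 (nat_lit 0) (nat_lit 0) (nat_lit 2786793) (nat_lit 0x8043eceee) (nat_lit 1072357417),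
  Rx.mk (nat_lit 100) (nat_lit 4) (nat_lit 4) (nat_lit 1) (nat_lit 4) (nat_lit 170) (nat_lit 373) r5_170 r4_373 (nat_lit 3329898) (nat_lit 153422483) (nat_lit 0) (nat_lit 0x7f7ad06e6) (nat_lit 1239277705),
  Rx.mk (nat_lit 103) (nat_lit 7) (nat_lit 4) (nat_lit 1) (nat_lit 5) (nat_lit 175) (nat_lit 374) r5_175 r4_374 (nat_lit 0) (nat_lit 16093624) (nat_lit 0) (nat_lit 0x801f08c90) (nat_lit 1088008048),
  Rx.mk (nat_lit 116) (nat_lit 4) (nat_lit 6) (nat_lit 1) (nat_lit 6) (nat_lit 178) (nat_lit 375) r5_178 r4_375 (nat_lit 2300083) (nat_lit 0) (nat_lit 0) (nat_lit 0x804f77e08) (nat_lit 1071135707),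
  Rx.mk (nat_lit 118) (nat_lit 6) (nat_lit 6) (nat_lit 1) (nat_lit 7) (nat_lit 181) (nat_lit 377) r5_181 r4_377 (nat_lit 0) (nat_lit 0) (nat_lit 0) (nat_lit 0x8012f24a6) (nat_lit 1072693924),
  Rx.mk (nat_lit 119) (nat_lit 7) (nat_lit 6) (nat_lit 1) (nat_lit 7) (nat_lit 183) (nat_lit 376) r5_183 r4_376 (nat_lit 0) (nat_lit 0) (nat_lit 0) (nat_lit 0x803aaf69c) (nat_lit 1070158824),
  Rx.mk (nat_lit 164) (nat_lit 4) (nat_lit 4) (nat_lit 2) (nat_lit 4) (nat_lit 171) (nat_lit 378) r5_171 r4_378 (nat_lit 4331708) (nat_lit 6556923) (nat_lit 0) (nat_lit 0x7f318d5ec) (nat_lit 1098171755),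
  Rx.mk (nat_lit 165) (nat_lit 5) (nat_lit 4) (nat_lit 2) (nat_lit 5) (nat_lit 173) (nat_lit 379) r5_173 r4_379 (nat_lit 0) (nat_lit 5449534) (nat_lit 0) (nat_lit 0x80029938e) (nat_lit 1079191358),
  Rx.mk (nat_lit 167) (nat_lit 7) (nat_lit 4) (nat_lit 2) (nat_lit 5) (nat_lit 176) (nat_lit 380) r5_176 r4_380 (nat_lit 0) (nat_lit 5449534) (nat_lit 0) (nat_lit 0x802356b3a) (nat_lit 1077095958)]
noncomputable def e11_19 : List Rx := [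
  Rx.mk (nat_lit 100) (nat_lit 4) (nat_lit 4) (nat_lit 1) (nat_lit 4) (nat_lit 197) (nat_lit 72) r5_197 r10_72 (nat_lit 1601519) (nat_lit 5696356) (nat_lit 0) (nat_lit 0x726966d0e) (nat_lit 1307672399),
  Rx.mk (nat_lit 103) (nat_lit 7) (nat_lit 4) (nat_lit 1) (nat_lit 5) (nat_lit 198) (nat_lit 74) r5_198 r10_74 (nat_lit 0) (nat_lit 5449534) (nat_lit 0) (nat_lit 0x8011b0cbe) (nat_lit 1078224358),
  Rx.mk (nat_lit 116) (nat_lit 4) (nat_lit 6) (nat_lit 1) (nat_lit 6) (nat_lit 199) (nat_lit 73) r5_199 r10_73 (nat_lit 1673969) (nat_lit 0) (nat_lit 0) (nat_lit 0x80ad5689e) (nat_lit 1064560193),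
  Rx.mk (nat_lit 118) (nat_lit 6) (nat_lit 6) (nat_lit 1) (nat_lit 7) (nat_lit 200) (nat_lit 76) r5_200 r10_76 (nat_lit 0) (nat_lit 0) (nat_lit 0) (nat_lit 0x80029938e) (nat_lit 1073741824),
  Rx.mk (nat_lit 119) (nat_lit 7) (nat_lit 6) (nat_lit 1) (nat_lit 7) (nat_lit 201) (nat_lit 75) r5_201 r10_75 (nat_lit 0) (nat_lit 0) (nat_lit 0) (nat_lit 0x803e42840) (nat_lit 1069931224)]
noncomputable def e11_20 : List Rx := [
  Rx.mk (nat_lit 36) (nat_lit 4) (nat_lit 4) (nat_lit 0) (nat_lit 0) (nat_lit 202) (nat_lit 68) r5_202 r11_68 (nat_lit 3094232) (nat_lit 21720360) (nat_lit 2576337) (nat_lit 0x4da7b05c6) (nat_lit 1940613153),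
  Rx.mk (nat_lit 37) (nat_lit 5) (nat_lit 4) (nat_lit 0) (nat_lit 1) (nat_lit 206) (nat_lit 75) r5_206 r11_75 (nat_lit 0) (nat_lit 14714486) (nat_lit 11623778) (nat_lit 0x72e87497a) (nat_lit 1318449488),
  Rx.mk (nat_lit 39) (nat_lit 7) (nat_lit 4) (nat_lit 0) (nat_lit 1) (nat_lit 209) (nat_lit 80) r5_209 r11_80 (nat_lit 0) (nat_lit 66565718) (nat_lit 2937614) (nat_lit 0x74b9e4b76) (nat_lit 1331296056),
  Rx.mk (nat_lit 52) (nat_lit 4) (nat_lit 6) (nat_lit 0) (nat_lit 2) (nat_lit 212) (nat_lit 72) r5_212 r11_72 (nat_lit 4194264) (nat_lit 0) (nat_lit 2535516) (nat_lit 0x68bbaaf48) (nat_lit 1468482604),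
  Rx.mk (nat_lit 53) (nat_lit 5) (nat_lit 6) (nat_lit 0) (nat_lit 3) (nat_lit 215) (nat_lit 78) r5_215 r11_78 (nat_lit 0) (nat_lit 0) (nat_lit 3453899) (nat_lit 0x8019ee37c) (nat_lit 1075699823),
  Rx.mk (nat_lit 54) (nat_lit 6) (nat_lit 6) (nat_lit 0) (nat_lit 3) (nat_lit 217) (nat_lit 88) r5_217 r11_88 (nat_lit 0) (nat_lit 0) (nat_lit 5824518) (nat_lit 0x7f6cb0a3e) (nat_lit 1089264642),
  Rx.mk (nat_lit 55) (nat_lit 7) (nat_lit 6) (nat_lit 0) (nat_lit 3) (nat_lit 220) (nat_lit 86) r5_220 r11_86 (nat_lit 0) (nat_lit 0) (nat_lit 3361078) (nat_lit 0x802aa3348) (nat_lit 1074541602),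
  Rx.mk (nat_lit 63) (nat_lit 7) (nat_lit 7) (nat_lit 0) (nat_lit 3) (nat_lit 222) (nat_lit 83) r5_222 r11_83 (nat_lit 0) (nat_lit 0) (nat_lit 4726499) (nat_lit 0x7ff6067de) (nat_lit 1079274023),
  Rx.mk (nat_lit 100) (nat_lit 4) (nat_lit 4) (nat_lit 1) (nat_lit 4) (nat_lit 203) (nat_lit 69) r5_203 r11_69 (nat_lit 8674374) (nat_lit 21585030) (nat_lit 0) (nat_lit 0x7effacde8) (nat_lit 1120791828),
  Rx.mk (nat_lit 103) (nat_lit 7) (nat_lit 4) (nat_lit 1) (nat_lit 5) (nat_lit 210) (nat_lit 81) r5_210 r11_81 (nat_lit 0) (nat_lit 5449534) (nat_lit 0) (nat_lit 0x800b9fd16) (nat_lit 1078612858),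
  Rx.mk (nat_lit 116) (nat_lit 4) (nat_lit 6) (nat_lit 1) (nat_lit 6) (nat_lit 213) (nat_lit 73) r5_213 r11_73 (nat_lit 4046712) (nat_lit 0) (nat_lit 0) (nat_lit 0x801958a84) (nat_lit 1076331636),
  Rx.mk (nat_lit 118) (nat_lit 6) (nat_lit 6) (nat_lit 1) (nat_lit 7) (nat_lit 218) (nat_lit 89) r5_218 r11_89 (nat_lit 0) (nat_lit 0) (nat_lit 0) (nat_lit 0x80029938e) (nat_lit 1073741824),
  Rx.mk (nat_lit 119) (nat_lit 7) (nat_lit 6) (nat_lit 1) (nat_lit 7) (nat_lit 221) (nat_lit 87) r5_221 r11_87 (nat_lit 0) (nat_lit 0) (nat_lit 0) (nat_lit 0x800d38786) (nat_lit 1073060924),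
  Rx.mk (nat_lit 127) (nat_lit 7) (nat_lit 7) (nat_lit 1) (nat_lit 7) (nat_lit 223) (nat_lit 84) r5_223 r11_84 (nat_lit 0) (nat_lit 0) (nat_lit 0) (nat_lit 0x80029938e) (nat_lit 1073741824),
  Rx.mk (nat_lit 164) (nat_lit 4) (nat_lit 4) (nat_lit 2) (nat_lit 4) (nat_lit 204) (nat_lit 71) r5_204 r11_71 (nat_lit 8510956) (nat_lit 17049817) (nat_lit 0) (nat_lit 0x7ec27a33a) (nat_lit 1120075897),
  Rx.mk (nat_lit 165) (nat_lit 5) (nat_lit 4) (nat_lit 2) (nat_lit 5) (nat_lit 207) (nat_lit 77) r5_207 r11_77 (nat_lit 0) (nat_lit 5449534) (nat_lit 0) (nat_lit 0x80029938e) (nat_lit 1079191358),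
  Rx.mk (nat_lit 167) (nat_lit 7) (nat_lit 4) (nat_lit 2) (nat_lit 5) (nat_lit 211) (nat_lit 82) r5_211 r11_82 (nat_lit 0) (nat_lit 5449534) (nat_lit 0) (nat_lit 0x800c7cac2) (nat_lit 1078557658),
  Rx.mk (nat_lit 191) (nat_lit 7) (nat_lit 7) (nat_lit 2) (nat_lit 7) (nat_lit 224) (nat_lit 85) r5_224 r11_85 (nat_lit 0) (nat_lit 0) (nat_lit 0) (nat_lit 0x80029938e) (nat_lit 1073741824),
  Rx.mk (nat_lit 228) (nat_lit 4) (nat_lit 4) (nat_lit 3) (nat_lit 4) (nat_lit 205) (nat_lit 70) r5_205 r11_70 (nat_lit 8902206) (nat_lit 19180850) (nat_lit 0) (nat_lit 0x7e9bef6c0) (nat_lit 1125108480),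
  Rx.mk (nat_lit 229) (nat_lit 5) (nat_lit 4) (nat_lit 3) (nat_lit 5) (nat_lit 208) (nat_lit 76) r5_208 r11_76 (nat_lit 0) (nat_lit 5449534) (nat_lit 0) (nat_lit 0x80029938e) (nat_lit 1079191358),
  Rx.mk (nat_lit 244) (nat_lit 4) (nat_lit 6) (nat_lit 3) (nat_lit 6) (nat_lit 214) (nat_lit 74) r5_214 r11_74 (nat_lit 4369172) (nat_lit 0) (nat_lit 0) (nat_lit 0x7febb8bc4) (nat_lit 1079580196),
  Rx.mk (nat_lit 245) (nat_lit 5) (nat_lit 6) (nat_lit 3) (nat_lit 7) (nat_lit 216) (nat_lit 79) r5_216 r11_79 (nat_lit 0) (nat_lit 0) (nat_lit 0) (nat_lit 0x800d38786) (nat_lit 1073060924),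
  Rx.mk (nat_lit 246) (nat_lit 6) (nat_lit 6) (nat_lit 3) (nat_lit 7) (nat_lit 219) (nat_lit 90) r5_219 r11_90 (nat_lit 0) (nat_lit 0) (nat_lit 0) (nat_lit 0x80029938e) (nat_lit 1073741824)]
noncomputable def e11_21 : List Rx := [
  Rx.mk (nat_lit 342) (nat_lit 6) (nat_lit 2) (nat_lit 5) (nat_lit 7) (nat_lit 123) (nat_lit 18) r5_123 r9_18 (nat_lit 0) (nat_lit 0) (nat_lit 0) (nat_lit 0x80029938e) (nat_lit 1073741824)]
noncomputable def e11_22 : List Rx := [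
  Rx.mk (nat_lit 128) (nat_lit 0) (nat_lit 0) (nat_lit 2) (nat_lit 4) (nat_lit 94) (nat_lit 204) r5_94 r0_204 (nat_lit 34408194) (nat_lit 42213) (nat_lit 0) (nat_lit 0x8000d80ea) (nat_lit 1108162531),
  Rx.mk (nat_lit 152) (nat_lit 0) (nat_lit 3) (nat_lit 2) (nat_lit 6) (nat_lit 100) (nat_lit 205) r5_100 r0_205 (nat_lit 275203489) (nat_lit 0) (nat_lit 0) (nat_lit 0x7ef968536) (nat_lit 1366143013),
  Rx.mk (nat_lit 155) (nat_lit 3) (nat_lit 3) (nat_lit 2) (nat_lit 7) (nat_lit 101) (nat_lit 206) r5_101 r0_206 (nat_lit 0) (nat_lit 0) (nat_lit 0) (nat_lit 0x7fca9da02) (nat_lit 1077344524),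
  Rx.mk (nat_lit 274) (nat_lit 2) (nat_lit 2) (nat_lit 4) (nat_lit 3) (nat_lit 97) (nat_lit 207) r5_97 r0_207 (nat_lit 0) (nat_lit 0) (nat_lit 1787242) (nat_lit 0x66db20c6c) (nat_lit 1494829666),
  Rx.mk (nat_lit 278) (nat_lit 6) (nat_lit 2) (nat_lit 4) (nat_lit 3) (nat_lit 99) (nat_lit 208) r5_99 r0_208 (nat_lit 0) (nat_lit 0) (nat_lit 2561812) (nat_lit 0x7ef938278) (nat_lit 1093505936),
  Rx.mk (nat_lit 384) (nat_lit 0) (nat_lit 0) (nat_lit 6) (nat_lit 4) (nat_lit 95) (nat_lit 209) r5_95 r0_209 (nat_lit 2303) (nat_lit 1820) (nat_lit 0) (nat_lit 0x7ff2f8664) (nat_lit 1074595147),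
  Rx.mk (nat_lit 386) (nat_lit 2) (nat_lit 0) (nat_lit 6) (nat_lit 5) (nat_lit 96) (nat_lit 210) r5_96 r0_210 (nat_lit 0) (nat_lit 1204429) (nat_lit 0) (nat_lit 0x804cfd8c6) (nat_lit 1070187653),
  Rx.mk (nat_lit 402) (nat_lit 2) (nat_lit 2) (nat_lit 6) (nat_lit 7) (nat_lit 98) (nat_lit 211) r5_98 r0_211 (nat_lit 0) (nat_lit 0) (nat_lit 0) (nat_lit 0x800cf614c) (nat_lit 1073076224)]
noncomputable def e11_23 : List Rx := [
  Rx.mk (nat_lit 128) (nat_lit 0) (nat_lit 0) (nat_lit 2) (nat_lit 4) (nat_lit 106) (nat_lit 225) r5_106 r1_225 (nat_lit 212990587) (nat_lit 782939) (nat_lit 0) (nat_lit 0x7f9458f50) (nat_lit 1294612750),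
  Rx.mk (nat_lit 136) (nat_lit 0) (nat_lit 1) (nat_lit 2) (nat_lit 6) (nat_lit 109) (nat_lit 226) r5_109 r1_226 (nat_lit 5712296) (nat_lit 0) (nat_lit 0) (nat_lit 0x807518c02) (nat_lit 1072163420),
  Rx.mk (nat_lit 152) (nat_lit 0) (nat_lit 3) (nat_lit 2) (nat_lit 6) (nat_lit 113) (nat_lit 227) r5_113 r1_227 (nat_lit 7480504) (nat_lit 0) (nat_lit 0) (nat_lit 0x8050572c4) (nat_lit 1076259928),
  Rx.mk (nat_lit 155) (nat_lit 3) (nat_lit 3) (nat_lit 2) (nat_lit 7) (nat_lit 114) (nat_lit 228) r5_114 r1_228 (nat_lit 0) (nat_lit 0) (nat_lit 0) (nat_lit 0x8032723e4) (nat_lit 1070680924),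
  Rx.mk (nat_lit 384) (nat_lit 0) (nat_lit 0) (nat_lit 6) (nat_lit 4) (nat_lit 107) (nat_lit 229) r5_107 r1_229 (nat_lit 865457) (nat_lit 618569) (nat_lit 0) (nat_lit 0x6cfe8984c) (nat_lit 1392171750),
  Rx.mk (nat_lit 386) (nat_lit 2) (nat_lit 0) (nat_lit 6) (nat_lit 5) (nat_lit 108) (nat_lit 231) r5_108 r1_231 (nat_lit 0) (nat_lit 2341422) (nat_lit 0) (nat_lit 0x7fcb8785a) (nat_lit 1079628546),
  Rx.mk (nat_lit 392) (nat_lit 0) (nat_lit 1) (nat_lit 6) (nat_lit 6) (nat_lit 110) (nat_lit 230) r5_110 r1_230 (nat_lit 4608950) (nat_lit 0) (nat_lit 0) (nat_lit 0x800f7fbd4) (nat_lit 1077522674),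
  Rx.mk (nat_lit 394) (nat_lit 2) (nat_lit 1) (nat_lit 6) (nat_lit 7) (nat_lit 111) (nat_lit 232) r5_111 r1_232 (nat_lit 0) (nat_lit 0) (nat_lit 0) (nat_lit 0x80029938e) (nat_lit 1073741824),
  Rx.mk (nat_lit 402) (nat_lit 2) (nat_lit 2) (nat_lit 6) (nat_lit 7) (nat_lit 112) (nat_lit 233) r5_112 r1_233 (nat_lit 0) (nat_lit 0) (nat_lit 0) (nat_lit 0x80029938e) (nat_lit 1073741824)]
noncomputable def e11_24 : List Rx := [
  Rx.mk (nat_lit 152) (nat_lit 0) (nat_lit 3) (nat_lit 2) (nat_lit 6) (nat_lit 130) (nat_lit 195) r5_130 r4_195 (nat_lit 192946712) (nat_lit 0) (nat_lit 0) (nat_lit 0x7fdc0d3f0) (nat_lit 1269076836),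
  Rx.mk (nat_lit 155) (nat_lit 3) (nat_lit 3) (nat_lit 2) (nat_lit 7) (nat_lit 133) (nat_lit 196) r5_133 r4_196 (nat_lit 0) (nat_lit 0) (nat_lit 0) (nat_lit 0x801352b30) (nat_lit 1072671524),
  Rx.mk (nat_lit 274) (nat_lit 2) (nat_lit 2) (nat_lit 4) (nat_lit 3) (nat_lit 126) (nat_lit 197) r5_126 r4_197 (nat_lit 0) (nat_lit 0) (nat_lit 2905451) (nat_lit 0x7f6eaed5e) (nat_lit 1086211975),
  Rx.mk (nat_lit 278) (nat_lit 6) (nat_lit 2) (nat_lit 4) (nat_lit 3) (nat_lit 128) (nat_lit 198) r5_128 r4_198 (nat_lit 0) (nat_lit 0) (nat_lit 1963519) (nat_lit 0x7f8b75bf4) (nat_lit 1083400343),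
  Rx.mk (nat_lit 384) (nat_lit 0) (nat_lit 0) (nat_lit 6) (nat_lit 4) (nat_lit 124) (nat_lit 200) r5_124 r4_200 (nat_lit 73422) (nat_lit 50115) (nat_lit 0) (nat_lit 0x6722c5068) (nat_lit 1488441861),
  Rx.mk (nat_lit 386) (nat_lit 2) (nat_lit 0) (nat_lit 6) (nat_lit 5) (nat_lit 125) (nat_lit 202) r5_125 r4_202 (nat_lit 0) (nat_lit 1227291) (nat_lit 0) (nat_lit 0x807e5e654) (nat_lit 1067084415),
  Rx.mk (nat_lit 402) (nat_lit 2) (nat_lit 2) (nat_lit 6) (nat_lit 7) (nat_lit 127) (nat_lit 204) r5_127 r4_204 (nat_lit 0) (nat_lit 0) (nat_lit 0) (nat_lit 0x801b210f0) (nat_lit 1072171724),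
  Rx.mk (nat_lit 408) (nat_lit 0) (nat_lit 3) (nat_lit 6) (nat_lit 6) (nat_lit 131) (nat_lit 201) r5_131 r4_201 (nat_lit 1816985) (nat_lit 0) (nat_lit 0) (nat_lit 0x7ffac5572) (nat_lit 1076046309),
  Rx.mk (nat_lit 410) (nat_lit 2) (nat_lit 3) (nat_lit 6) (nat_lit 7) (nat_lit 132) (nat_lit 203) r5_132 r4_203 (nat_lit 0) (nat_lit 0) (nat_lit 0) (nat_lit 0x80898c5d0) (nat_lit 1065156424),
  Rx.mk (nat_lit 470) (nat_lit 6) (nat_lit 2) (nat_lit 7) (nat_lit 7) (nat_lit 129) (nat_lit 199) r5_129 r4_199 (nat_lit 0) (nat_lit 0) (nat_lit 0) (nat_lit 0x813222a50) (nat_lit 1054496724)]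
noncomputable def e11_25 : List Rx := [
  Rx.mk (nat_lit 274) (nat_lit 2) (nat_lit 2) (nat_lit 4) (nat_lit 3) (nat_lit 103) (nat_lit 50) r5_103 r7_50 (nat_lit 0) (nat_lit 0) (nat_lit 3797391) (nat_lit 0x7bc59188c) (nat_lit 1148120715),
  Rx.mk (nat_lit 278) (nat_lit 6) (nat_lit 2) (nat_lit 4) (nat_lit 3) (nat_lit 105) (nat_lit 49) r5_105 r7_49 (nat_lit 0) (nat_lit 0) (nat_lit 1265249) (nat_lit 0x7ff9d6b48) (nat_lit 1075552073),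
  Rx.mk (nat_lit 386) (nat_lit 2) (nat_lit 0) (nat_lit 6) (nat_lit 5) (nat_lit 102) (nat_lit 48) r5_102 r7_48 (nat_lit 0) (nat_lit 1535629) (nat_lit 0) (nat_lit 0x807a5a904) (nat_lit 1067648753),
  Rx.mk (nat_lit 402) (nat_lit 2) (nat_lit 2) (nat_lit 6) (nat_lit 7) (nat_lit 104) (nat_lit 51) r5_104 r7_51 (nat_lit 0) (nat_lit 0) (nat_lit 0) (nat_lit 0x7ff327c3e) (nat_lit 1074733924)]
noncomputable def e11_26 : List Rx := [
  Rx.mk (nat_lit 386) (nat_lit 2) (nat_lit 0) (nat_lit 6) (nat_lit 5) (nat_lit 115) (nat_lit 58) r5_115 r8_58 (nat_lit 0) (nat_lit 3122645) (nat_lit 0) (nat_lit 0x801abea22) (nat_lit 1075316369),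
  Rx.mk (nat_lit 394) (nat_lit 2) (nat_lit 1) (nat_lit 6) (nat_lit 7) (nat_lit 116) (nat_lit 59) r5_116 r8_59 (nat_lit 0) (nat_lit 0) (nat_lit 0) (nat_lit 0x8019963ca) (nat_lit 1072269624),
  Rx.mk (nat_lit 402) (nat_lit 2) (nat_lit 2) (nat_lit 6) (nat_lit 7) (nat_lit 117) (nat_lit 60) r5_117 r8_60 (nat_lit 0) (nat_lit 0) (nat_lit 0) (nat_lit 0x80029938e) (nat_lit 1073741824)]
noncomputable def e11_27 : List Rx := [
  Rx.mk (nat_lit 274) (nat_lit 2) (nat_lit 2) (nat_lit 4) (nat_lit 3) (nat_lit 118) (nat_lit 201) r5_118 r8_201 (nat_lit 0) (nat_lit 0) (nat_lit 5787882) (nat_lit 0x7f8f3dde0) (nat_lit 1086988006),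
  Rx.mk (nat_lit 278) (nat_lit 6) (nat_lit 2) (nat_lit 4) (nat_lit 3) (nat_lit 121) (nat_lit 202) r5_121 r8_202 (nat_lit 0) (nat_lit 0) (nat_lit 1910235) (nat_lit 0x7f9e71762) (nat_lit 1082109159),
  Rx.mk (nat_lit 338) (nat_lit 2) (nat_lit 2) (nat_lit 5) (nat_lit 7) (nat_lit 119) (nat_lit 203) r5_119 r8_203 (nat_lit 0) (nat_lit 0) (nat_lit 0) (nat_lit 0x80029938e) (nat_lit 1073741824),
  Rx.mk (nat_lit 342) (nat_lit 6) (nat_lit 2) (nat_lit 5) (nat_lit 7) (nat_lit 122) (nat_lit 204) r5_122 r8_204 (nat_lit 0) (nat_lit 0) (nat_lit 0) (nat_lit 0x805be6810) (nat_lit 1068047724),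
  Rx.mk (nat_lit 402) (nat_lit 2) (nat_lit 2) (nat_lit 6) (nat_lit 7) (nat_lit 120) (nat_lit 205) r5_120 r8_205 (nat_lit 0) (nat_lit 0) (nat_lit 0) (nat_lit 0x80029938e) (nat_lit 1073741824)]
noncomputable def e11_28 : List Rx := [
  Rx.mk (nat_lit 274) (nat_lit 2) (nat_lit 2) (nat_lit 4) (nat_lit 3) (nat_lit 135) (nat_lit 36) r5_135 r10_36 (nat_lit 0) (nat_lit 0) (nat_lit 4741774) (nat_lit 0x78dac94e6) (nat_lit 1197703898),
  Rx.mk (nat_lit 278) (nat_lit 6) (nat_lit 2) (nat_lit 4) (nat_lit 3) (nat_lit 137) (nat_lit 34) r5_137 r10_34 (nat_lit 0) (nat_lit 0) (nat_lit 1409940) (nat_lit 0x8011f0f3a) (nat_lit 1074160464),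
  Rx.mk (nat_lit 386) (nat_lit 2) (nat_lit 0) (nat_lit 6) (nat_lit 5) (nat_lit 134) (nat_lit 32) r5_134 r10_32 (nat_lit 0) (nat_lit 1919901) (nat_lit 0) (nat_lit 0x80c317552) (nat_lit 1063433825),
  Rx.mk (nat_lit 402) (nat_lit 2) (nat_lit 2) (nat_lit 6) (nat_lit 7) (nat_lit 136) (nat_lit 37) r5_136 r10_37 (nat_lit 0) (nat_lit 0) (nat_lit 0) (nat_lit 0x7ff5fb7f8) (nat_lit 1074552324),
  Rx.mk (nat_lit 410) (nat_lit 2) (nat_lit 3) (nat_lit 6) (nat_lit 7) (nat_lit 139) (nat_lit 33) r5_139 r10_33 (nat_lit 0) (nat_lit 0) (nat_lit 0) (nat_lit 0x80348d4f8) (nat_lit 1070549224),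
  Rx.mk (nat_lit 470) (nat_lit 6) (nat_lit 2) (nat_lit 7) (nat_lit 7) (nat_lit 138) (nat_lit 35) r5_138 r10_35 (nat_lit 0) (nat_lit 0) (nat_lit 0) (nat_lit 0x80af22bc8) (nat_lit 1062775524)]
noncomputable def e11_29 : List Rx := [
  Rx.mk (nat_lit 155) (nat_lit 3) (nat_lit 3) (nat_lit 2) (nat_lit 7) (nat_lit 148) (nat_lit 13) r5_148 r11_13 (nat_lit 0) (nat_lit 0) (nat_lit 0) (nat_lit 0x8093c6438) (nat_lit 1064504724),
  Rx.mk (nat_lit 274) (nat_lit 2) (nat_lit 2) (nat_lit 4) (nat_lit 3) (nat_lit 142) (nat_lit 16) r5_142 r11_16 (nat_lit 0) (nat_lit 0) (nat_lit 2807402) (nat_lit 0x7fb00afd2) (nat_lit 1081869426),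
  Rx.mk (nat_lit 384) (nat_lit 0) (nat_lit 0) (nat_lit 6) (nat_lit 4) (nat_lit 140) (nat_lit 9) r5_140 r11_9 (nat_lit 175020) (nat_lit 125684) (nat_lit 0) (nat_lit 0x733f0fb0e) (nat_lit 1286716228),
  Rx.mk (nat_lit 386) (nat_lit 2) (nat_lit 0) (nat_lit 6) (nat_lit 5) (nat_lit 141) (nat_lit 10) r5_141 r11_10 (nat_lit 0) (nat_lit 1188030) (nat_lit 0) (nat_lit 0x853c4c630) (nat_lit 990345654),
  Rx.mk (nat_lit 402) (nat_lit 2) (nat_lit 2) (nat_lit 6) (nat_lit 7) (nat_lit 143) (nat_lit 18) r5_143 r11_18 (nat_lit 0) (nat_lit 0) (nat_lit 0) (nat_lit 0x80029938e) (nat_lit 1073741824),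
  Rx.mk (nat_lit 408) (nat_lit 0) (nat_lit 3) (nat_lit 6) (nat_lit 6) (nat_lit 146) (nat_lit 11) r5_146 r11_11 (nat_lit 1759938) (nat_lit 0) (nat_lit 0) (nat_lit 0x802382334) (nat_lit 1073384662),
  Rx.mk (nat_lit 410) (nat_lit 2) (nat_lit 3) (nat_lit 6) (nat_lit 7) (nat_lit 147) (nat_lit 14) r5_147 r11_14 (nat_lit 0) (nat_lit 0) (nat_lit 0) (nat_lit 0x8087d4972) (nat_lit 1065267524),
  Rx.mk (nat_lit 411) (nat_lit 3) (nat_lit 3) (nat_lit 6) (nat_lit 7) (nat_lit 149) (nat_lit 12) r5_149 r11_12 (nat_lit 0) (nat_lit 0) (nat_lit 0) (nat_lit 0x801ffa1a8) (nat_lit 1071862024),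
  Rx.mk (nat_lit 466) (nat_lit 2) (nat_lit 2) (nat_lit 7) (nat_lit 7) (nat_lit 144) (nat_lit 17) r5_144 r11_17 (nat_lit 0) (nat_lit 0) (nat_lit 0) (nat_lit 0x80029938e) (nat_lit 1073741824),
  Rx.mk (nat_lit 470) (nat_lit 6) (nat_lit 2) (nat_lit 7) (nat_lit 7) (nat_lit 145) (nat_lit 15) r5_145 r11_15 (nat_lit 0) (nat_lit 0) (nat_lit 0) (nat_lit 0x8c926658c) (nat_lit 870523024)]
noncomputable def e11_30 : List Rx := [
  Rx.mk (nat_lit 39) (nat_lit 7) (nat_lit 4) (nat_lit 0) (nat_lit 1) (nat_lit 235) (nat_lit 311) r5_235 r5_311 (nat_lit 0) (nat_lit 1094601) (nat_lit 165280) (nat_lit 0x80e90415c) (nat_lit 1060318305),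
  Rx.mk (nat_lit 55) (nat_lit 7) (nat_lit 6) (nat_lit 0) (nat_lit 3) (nat_lit 238) (nat_lit 312) r5_238 r5_312 (nat_lit 0) (nat_lit 0) (nat_lit 469515) (nat_lit 0x80376b0e4) (nat_lit 1070781039),
  Rx.mk (nat_lit 103) (nat_lit 7) (nat_lit 4) (nat_lit 1) (nat_lit 5) (nat_lit 236) (nat_lit 313) r5_236 r5_313 (nat_lit 0) (nat_lit 7419507) (nat_lit 0) (nat_lit 0x805d211e4) (nat_lit 1075389131),
  Rx.mk (nat_lit 119) (nat_lit 7) (nat_lit 6) (nat_lit 1) (nat_lit 7) (nat_lit 239) (nat_lit 314) r5_239 r5_314 (nat_lit 0) (nat_lit 0) (nat_lit 0) (nat_lit 0x80ce7bf56) (nat_lit 1060792424),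
  Rx.mk (nat_lit 167) (nat_lit 7) (nat_lit 4) (nat_lit 2) (nat_lit 5) (nat_lit 237) (nat_lit 315) r5_237 r5_315 (nat_lit 0) (nat_lit 2217923) (nat_lit 0) (nat_lit 0x870bce5f6) (nat_lit 962095947)]
noncomputable def e11_31 : List Rx := [
  Rx.mk (nat_lit 103) (nat_lit 7) (nat_lit 4) (nat_lit 1) (nat_lit 5) (nat_lit 240) (nat_lit 366) r5_240 r11_366 (nat_lit 0) (nat_lit 3575816) (nat_lit 0) (nat_lit 0x8092b4d56) (nat_lit 1068148740),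
  Rx.mk (nat_lit 119) (nat_lit 7) (nat_lit 6) (nat_lit 1) (nat_lit 7) (nat_lit 241) (nat_lit 367) r5_241 r11_367 (nat_lit 0) (nat_lit 0) (nat_lit 0) (nat_lit 0x81eccd206) (nat_lit 1042695924)]
noncomputable def e11_32 : List Rx := [
  Rx.mk (nat_lit 163) (nat_lit 3) (nat_lit 4) (nat_lit 2) (nat_lit 5) (nat_lit 242) (nat_lit 252) r5_242 r6_252 (nat_lit 0) (nat_lit 128360) (nat_lit 0) (nat_lit 0x84cda1136) (nat_lit 996225984),
  Rx.mk (nat_lit 184) (nat_lit 0) (nat_lit 7) (nat_lit 2) (nat_lit 6) (nat_lit 243) (nat_lit 251) r5_243 r6_251 (nat_lit 10459) (nat_lit 0) (nat_lit 0) (nat_lit 0x89d896974) (nat_lit 914535883),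
  Rx.mk (nat_lit 187) (nat_lit 3) (nat_lit 7) (nat_lit 2) (nat_lit 7) (nat_lit 244) (nat_lit 253) r5_244 r6_253 (nat_lit 0) (nat_lit 0) (nat_lit 0) (nat_lit 0x84e45cfce) (nat_lit 994704024)]
noncomputable def e11_33 : List Rx := [
  Rx.mk (nat_lit 152) (nat_lit 0) (nat_lit 3) (nat_lit 2) (nat_lit 6) (nat_lit 225) (nat_lit 225) r5_225 r5_225 (nat_lit 5987135) (nat_lit 0) (nat_lit 0) (nat_lit 0x83458d5de) (nat_lit 1026898459),
  Rx.mk (nat_lit 184) (nat_lit 0) (nat_lit 7) (nat_lit 2) (nat_lit 6) (nat_lit 228) (nat_lit 226) r5_228 r5_226 (nat_lit 3491889) (nat_lit 0) (nat_lit 0) (nat_lit 0x7f61f92a8) (nat_lit 1087614713),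
  Rx.mk (nat_lit 187) (nat_lit 3) (nat_lit 7) (nat_lit 2) (nat_lit 7) (nat_lit 229) (nat_lit 227) r5_229 r5_227 (nat_lit 0) (nat_lit 0) (nat_lit 0) (nat_lit 0x87b95790c) (nat_lit 948919124),
  Rx.mk (nat_lit 408) (nat_lit 0) (nat_lit 3) (nat_lit 6) (nat_lit 6) (nat_lit 226) (nat_lit 228) r5_226 r5_228 (nat_lit 3491889) (nat_lit 0) (nat_lit 0) (nat_lit 0x7f61f92a8) (nat_lit 1087614713),
  Rx.mk (nat_lit 410) (nat_lit 2) (nat_lit 3) (nat_lit 6) (nat_lit 7) (nat_lit 227) (nat_lit 229) r5_227 r5_229 (nat_lit 0) (nat_lit 0) (nat_lit 0) (nat_lit 0x87b95790c) (nat_lit 948919124)]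
noncomputable def e11_34 : List Rx := [
  Rx.mk (nat_lit 410) (nat_lit 2) (nat_lit 3) (nat_lit 6) (nat_lit 7) (nat_lit 230) (nat_lit 265) r5_230 r11_265 (nat_lit 0) (nat_lit 0) (nat_lit 0) (nat_lit 0x9450c7056) (nat_lit 745300424)]
noncomputable def e11_35 : List Rx := [
  Rx.mk (nat_lit 39) (nat_lit 7) (nat_lit 4) (nat_lit 0) (nat_lit 1) (nat_lit 232) (nat_lit 333) r5_232 r6_333 (nat_lit 0) (nat_lit 398639) (nat_lit 369792) (nat_lit 0x7a2eaa5be) (nat_lit 1171560755),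
  Rx.mk (nat_lit 55) (nat_lit 7) (nat_lit 6) (nat_lit 0) (nat_lit 3) (nat_lit 234) (nat_lit 336) r5_234 r6_336 (nat_lit 0) (nat_lit 0) (nat_lit 503576) (nat_lit 0x81fec8a00) (nat_lit 1042043700),
  Rx.mk (nat_lit 163) (nat_lit 3) (nat_lit 4) (nat_lit 2) (nat_lit 5) (nat_lit 231) (nat_lit 334) r5_231 r6_334 (nat_lit 0) (nat_lit 13815) (nat_lit 0) (nat_lit 0x85fe01f32) (nat_lit 976860439),
  Rx.mk (nat_lit 167) (nat_lit 7) (nat_lit 4) (nat_lit 2) (nat_lit 5) (nat_lit 233) (nat_lit 335) r5_233 r6_335 (nat_lit 0) (nat_lit 1584864) (nat_lit 0) (nat_lit 0x83f760f68) (nat_lit 1011269188)]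
noncomputable def e11_36 : List Rx := [
  Rx.mk (nat_lit 39) (nat_lit 7) (nat_lit 4) (nat_lit 0) (nat_lit 1) (nat_lit 246) (nat_lit 85) r5_246 r12_85 (nat_lit 0) (nat_lit 27932) (nat_lit 20188) (nat_lit 0x7a72d005e) (nat_lit 1166357044),
  Rx.mk (nat_lit 55) (nat_lit 7) (nat_lit 6) (nat_lit 0) (nat_lit 3) (nat_lit 249) (nat_lit 88) r5_249 r12_88 (nat_lit 0) (nat_lit 0) (nat_lit 225577) (nat_lit 0x86c1ebf38) (nat_lit 964739301),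
  Rx.mk (nat_lit 163) (nat_lit 3) (nat_lit 4) (nat_lit 2) (nat_lit 5) (nat_lit 245) (nat_lit 83) r5_245 r12_83 (nat_lit 0) (nat_lit 17041) (nat_lit 0) (nat_lit 0x8b003f3bc) (nat_lit 895869165),
  Rx.mk (nat_lit 167) (nat_lit 7) (nat_lit 4) (nat_lit 2) (nat_lit 5) (nat_lit 247) (nat_lit 87) r5_247 r12_87 (nat_lit 0) (nat_lit 745268) (nat_lit 0) (nat_lit 0x8ddce6b6a) (nat_lit 850382092),
  Rx.mk (nat_lit 187) (nat_lit 3) (nat_lit 7) (nat_lit 2) (nat_lit 7) (nat_lit 251) (nat_lit 84) r5_251 r12_84 (nat_lit 0) (nat_lit 0) (nat_lit 0) (nat_lit 0x7ff59fdd6) (nat_lit 1074454124),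
  Rx.mk (nat_lit 231) (nat_lit 7) (nat_lit 4) (nat_lit 3) (nat_lit 5) (nat_lit 248) (nat_lit 86) r5_248 r12_86 (nat_lit 0) (nat_lit 1388645) (nat_lit 0) (nat_lit 0x7e512bfee) (nat_lit 1103271969),
  Rx.mk (nat_lit 247) (nat_lit 7) (nat_lit 6) (nat_lit 3) (nat_lit 7) (nat_lit 250) (nat_lit 89) r5_250 r12_89 (nat_lit 0) (nat_lit 0) (nat_lit 0) (nat_lit 0x99d4baab6) (nat_lit 656104224)]
noncomputable def e11_37 : List Rx := [
  Rx.mk (nat_lit 168) (nat_lit 0) (nat_lit 5) (nat_lit 2) (nat_lit 6) (nat_lit 255) (nat_lit 224) r5_255 r0_224 (nat_lit 135738919) (nat_lit 0) (nat_lit 0) (nat_lit 0x80001a586) (nat_lit 1209474643)]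
noncomputable def e11_38 : List Rx := [
  Rx.mk (nat_lit 161) (nat_lit 1) (nat_lit 4) (nat_lit 2) (nat_lit 5) (nat_lit 252) (nat_lit 315) r5_252 r0_315 (nat_lit 0) (nat_lit 2146046) (nat_lit 0) (nat_lit 0x8082930f8) (nat_lit 1067722470),
  Rx.mk (nat_lit 168) (nat_lit 0) (nat_lit 5) (nat_lit 2) (nat_lit 6) (nat_lit 253) (nat_lit 316) r5_253 r0_316 (nat_lit 1462114) (nat_lit 0) (nat_lit 0) (nat_lit 0x7fa136d4e) (nat_lit 1081485238),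
  Rx.mk (nat_lit 169) (nat_lit 1) (nat_lit 5) (nat_lit 2) (nat_lit 7) (nat_lit 254) (nat_lit 317) r5_254 r0_317 (nat_lit 0) (nat_lit 0) (nat_lit 0) (nat_lit 0x871639162) (nat_lit 959223424)]
noncomputable def e11_39 : List Rx := [
  Rx.mk (nat_lit 168) (nat_lit 0) (nat_lit 5) (nat_lit 2) (nat_lit 6) (nat_lit 256) (nat_lit 286) r5_256 r7_286 (nat_lit 1663775) (nat_lit 0) (nat_lit 0) (nat_lit 0x7ff356e8a) (nat_lit 1076373699),
  Rx.mk (nat_lit 169) (nat_lit 1) (nat_lit 5) (nat_lit 2) (nat_lit 7) (nat_lit 257) (nat_lit 287) r5_257 r7_287 (nat_lit 0) (nat_lit 0) (nat_lit 0) (nat_lit 0x804fac05e) (nat_lit 1068822724)]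
noncomputable def e11_40 : List Rx := [
  Rx.mk (nat_lit 37) (nat_lit 5) (nat_lit 4) (nat_lit 0) (nat_lit 1) (nat_lit 276) (nat_lit 339) r5_276 r2_339 (nat_lit 0) (nat_lit 5025424) (nat_lit 5058101) (nat_lit 0x55552dd46) (nat_lit 1795302649),
  Rx.mk (nat_lit 45) (nat_lit 5) (nat_lit 5) (nat_lit 0) (nat_lit 3) (nat_lit 280) (nat_lit 343) r5_280 r2_343 (nat_lit 0) (nat_lit 0) (nat_lit 55595022) (nat_lit 0x7292f7cc2) (nat_lit 1353270946),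
  Rx.mk (nat_lit 53) (nat_lit 5) (nat_lit 6) (nat_lit 0) (nat_lit 3) (nat_lit 283) (nat_lit 347) r5_283 r2_347 (nat_lit 0) (nat_lit 0) (nat_lit 7517454) (nat_lit 0x7fde0b6c0) (nat_lit 1083611778),
  Rx.mk (nat_lit 101) (nat_lit 5) (nat_lit 4) (nat_lit 1) (nat_lit 5) (nat_lit 277) (nat_lit 340) r5_277 r2_340 (nat_lit 0) (nat_lit 5449534) (nat_lit 0) (nat_lit 0x80029938e) (nat_lit 1079191358),
  Rx.mk (nat_lit 109) (nat_lit 5) (nat_lit 5) (nat_lit 1) (nat_lit 7) (nat_lit 281) (nat_lit 344) r5_281 r2_344 (nat_lit 0) (nat_lit 0) (nat_lit 0) (nat_lit 0x80029938e) (nat_lit 1073741824),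
  Rx.mk (nat_lit 117) (nat_lit 5) (nat_lit 6) (nat_lit 1) (nat_lit 7) (nat_lit 284) (nat_lit 348) r5_284 r2_348 (nat_lit 0) (nat_lit 0) (nat_lit 0) (nat_lit 0x80029938e) (nat_lit 1073741824),
  Rx.mk (nat_lit 161) (nat_lit 1) (nat_lit 4) (nat_lit 2) (nat_lit 5) (nat_lit 275) (nat_lit 341) r5_275 r2_341 (nat_lit 0) (nat_lit 5449534) (nat_lit 0) (nat_lit 0x80029938e) (nat_lit 1079191358),
  Rx.mk (nat_lit 165) (nat_lit 5) (nat_lit 4) (nat_lit 2) (nat_lit 5) (nat_lit 278) (nat_lit 342) r5_278 r2_342 (nat_lit 0) (nat_lit 5694937) (nat_lit 0) (nat_lit 0x7ff1f1540) (nat_lit 1080506361),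
  Rx.mk (nat_lit 169) (nat_lit 1) (nat_lit 5) (nat_lit 2) (nat_lit 7) (nat_lit 279) (nat_lit 345) r5_279 r2_345 (nat_lit 0) (nat_lit 0) (nat_lit 0) (nat_lit 0x80029938e) (nat_lit 1073741824),
  Rx.mk (nat_lit 173) (nat_lit 5) (nat_lit 5) (nat_lit 2) (nat_lit 7) (nat_lit 282) (nat_lit 346) r5_282 r2_346 (nat_lit 0) (nat_lit 0) (nat_lit 0) (nat_lit 0x80029938e) (nat_lit 1073741824)]
noncomputable def e11_41 : List Rx := [
  Rx.mk (nat_lit 45) (nat_lit 5) (nat_lit 5) (nat_lit 0) (nat_lit 3) (nat_lit 287) (nat_lit 307) r5_287 r9_307 (nat_lit 0) (nat_lit 0) (nat_lit 55741436) (nat_lit 0x760962d32) (nat_lit 1295686160),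
  Rx.mk (nat_lit 109) (nat_lit 5) (nat_lit 5) (nat_lit 1) (nat_lit 7) (nat_lit 288) (nat_lit 308) r5_288 r9_308 (nat_lit 0) (nat_lit 0) (nat_lit 0) (nat_lit 0x80029938e) (nat_lit 1073741824),
  Rx.mk (nat_lit 169) (nat_lit 1) (nat_lit 5) (nat_lit 2) (nat_lit 7) (nat_lit 286) (nat_lit 309) r5_286 r9_309 (nat_lit 0) (nat_lit 0) (nat_lit 0) (nat_lit 0x80029938e) (nat_lit 1073741824),
  Rx.mk (nat_lit 173) (nat_lit 5) (nat_lit 5) (nat_lit 2) (nat_lit 7) (nat_lit 289) (nat_lit 310) r5_289 r9_310 (nat_lit 0) (nat_lit 0) (nat_lit 0) (nat_lit 0x80029938e) (nat_lit 1073741824)]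
noncomputable def e11_42 : List Rx := [
  Rx.mk (nat_lit 101) (nat_lit 5) (nat_lit 4) (nat_lit 1) (nat_lit 5) (nat_lit 290) (nat_lit 324) r5_290 r9_324 (nat_lit 0) (nat_lit 5449534) (nat_lit 0) (nat_lit 0x80029938e) (nat_lit 1079191358),
  Rx.mk (nat_lit 109) (nat_lit 5) (nat_lit 5) (nat_lit 1) (nat_lit 7) (nat_lit 291) (nat_lit 325) r5_291 r9_325 (nat_lit 0) (nat_lit 0) (nat_lit 0) (nat_lit 0x80029938e) (nat_lit 1073741824),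
  Rx.mk (nat_lit 117) (nat_lit 5) (nat_lit 6) (nat_lit 1) (nat_lit 7) (nat_lit 292) (nat_lit 326) r5_292 r9_326 (nat_lit 0) (nat_lit 0) (nat_lit 0) (nat_lit 0x80029938e) (nat_lit 1073741824)]
noncomputable def e11_43 : List Rx := [
  Rx.mk (nat_lit 161) (nat_lit 1) (nat_lit 4) (nat_lit 2) (nat_lit 5) (nat_lit 273) (nat_lit 303) r5_273 r1_303 (nat_lit 0) (nat_lit 2861806) (nat_lit 0) (nat_lit 0x81272a2b0) (nat_lit 1058046730),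
  Rx.mk (nat_lit 169) (nat_lit 1) (nat_lit 5) (nat_lit 2) (nat_lit 7) (nat_lit 274) (nat_lit 304) r5_274 r1_304 (nat_lit 0) (nat_lit 0) (nat_lit 0) (nat_lit 0x8ca337b4a) (nat_lit 869461024)]
noncomputable def e11_44 : List Rx := [
  Rx.mk (nat_lit 169) (nat_lit 1) (nat_lit 5) (nat_lit 2) (nat_lit 7) (nat_lit 285) (nat_lit 218) r5_285 r8_218 (nat_lit 0) (nat_lit 0) (nat_lit 0) (nat_lit 0x806366360) (nat_lit 1067572524)]
noncomputable def e11_45 : List Rx := [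
  Rx.mk (nat_lit 136) (nat_lit 0) (nat_lit 1) (nat_lit 2) (nat_lit 6) (nat_lit 267) (nat_lit 243) r5_267 r1_243 (nat_lit 32179892) (nat_lit 0) (nat_lit 0) (nat_lit 0x8088ff068) (nat_lit 1097358516),
  Rx.mk (nat_lit 168) (nat_lit 0) (nat_lit 5) (nat_lit 2) (nat_lit 6) (nat_lit 268) (nat_lit 242) r5_268 r1_242 (nat_lit 49238329) (nat_lit 0) (nat_lit 0) (nat_lit 0x83e7c743a) (nat_lit 1059883053)]
noncomputable def e11_46 : List Rx := [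
  Rx.mk (nat_lit 136) (nat_lit 0) (nat_lit 1) (nat_lit 2) (nat_lit 6) (nat_lit 258) (nat_lit 256) r5_258 r2_256 (nat_lit 6864468) (nat_lit 0) (nat_lit 0) (nat_lit 0x7fee4d22c) (nat_lit 1081912492),
  Rx.mk (nat_lit 392) (nat_lit 0) (nat_lit 1) (nat_lit 6) (nat_lit 6) (nat_lit 259) (nat_lit 255) r5_259 r2_255 (nat_lit 35281805) (nat_lit 0) (nat_lit 0) (nat_lit 0x7f7f14a04) (nat_lit 1117526829),
  Rx.mk (nat_lit 394) (nat_lit 2) (nat_lit 1) (nat_lit 6) (nat_lit 7) (nat_lit 260) (nat_lit 257) r5_260 r2_257 (nat_lit 0) (nat_lit 0) (nat_lit 0) (nat_lit 0x80029938e) (nat_lit 1073741824)]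
noncomputable def e11_47 : List Rx := [
  Rx.mk (nat_lit 136) (nat_lit 0) (nat_lit 1) (nat_lit 2) (nat_lit 6) (nat_lit 269) (nat_lit 347) r5_269 r8_347 (nat_lit 5449534) (nat_lit 0) (nat_lit 0) (nat_lit 0x80029938e) (nat_lit 1079191358),
  Rx.mk (nat_lit 137) (nat_lit 1) (nat_lit 1) (nat_lit 2) (nat_lit 7) (nat_lit 270) (nat_lit 348) r5_270 r8_348 (nat_lit 0) (nat_lit 0) (nat_lit 0) (nat_lit 0x80029938e) (nat_lit 1073741824),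
  Rx.mk (nat_lit 168) (nat_lit 0) (nat_lit 5) (nat_lit 2) (nat_lit 6) (nat_lit 271) (nat_lit 349) r5_271 r8_349 (nat_lit 5449534) (nat_lit 0) (nat_lit 0) (nat_lit 0x7ff3d72a6) (nat_lit 1080139558),
  Rx.mk (nat_lit 169) (nat_lit 1) (nat_lit 5) (nat_lit 2) (nat_lit 7) (nat_lit 272) (nat_lit 350) r5_272 r8_350 (nat_lit 0) (nat_lit 0) (nat_lit 0) (nat_lit 0x80029938e) (nat_lit 1073741824)]
noncomputable def e11_48 : List Rx := [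
  Rx.mk (nat_lit 136) (nat_lit 0) (nat_lit 1) (nat_lit 2) (nat_lit 6) (nat_lit 261) (nat_lit 225) r5_261 r9_225 (nat_lit 5449534) (nat_lit 0) (nat_lit 0) (nat_lit 0x7ffef05a2) (nat_lit 1079426058),
  Rx.mk (nat_lit 137) (nat_lit 1) (nat_lit 1) (nat_lit 2) (nat_lit 7) (nat_lit 263) (nat_lit 227) r5_263 r9_227 (nat_lit 0) (nat_lit 0) (nat_lit 0) (nat_lit 0x80029938e) (nat_lit 1073741824),
  Rx.mk (nat_lit 392) (nat_lit 0) (nat_lit 1) (nat_lit 6) (nat_lit 6) (nat_lit 262) (nat_lit 224) r5_262 r9_224 (nat_lit 5670405) (nat_lit 0) (nat_lit 0) (nat_lit 0x7ff06dc82) (nat_lit 1080580229),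
  Rx.mk (nat_lit 393) (nat_lit 1) (nat_lit 1) (nat_lit 6) (nat_lit 7) (nat_lit 264) (nat_lit 226) r5_264 r9_226 (nat_lit 0) (nat_lit 0) (nat_lit 0) (nat_lit 0x80029938e) (nat_lit 1073741824),
  Rx.mk (nat_lit 394) (nat_lit 2) (nat_lit 1) (nat_lit 6) (nat_lit 7) (nat_lit 265) (nat_lit 228) r5_265 r9_228 (nat_lit 0) (nat_lit 0) (nat_lit 0) (nat_lit 0x80029938e) (nat_lit 1073741824)]
noncomputable def e11_49 : List Rx := [
  Rx.mk (nat_lit 394) (nat_lit 2) (nat_lit 1) (nat_lit 6) (nat_lit 7) (nat_lit 266) (nat_lit 215) r5_266 r9_215 (nat_lit 0) (nat_lit 0) (nat_lit 0) (nat_lit 0x80029938e) (nat_lit 1073741824)]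
noncomputable def e11_50 : List Rx := [
  Rx.mk (nat_lit 160) (nat_lit 0) (nat_lit 4) (nat_lit 2) (nat_lit 4) (nat_lit 293) (nat_lit 221) r5_293 r3_221 (nat_lit 345) (nat_lit 447) (nat_lit 0) (nat_lit 0x802b87ca0) (nat_lit 1070993016),
  Rx.mk (nat_lit 163) (nat_lit 3) (nat_lit 4) (nat_lit 2) (nat_lit 5) (nat_lit 294) (nat_lit 223) r5_294 r3_223 (nat_lit 0) (nat_lit 160316) (nat_lit 0) (nat_lit 0x84f17c510) (nat_lit 994003240),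
  Rx.mk (nat_lit 168) (nat_lit 0) (nat_lit 5) (nat_lit 2) (nat_lit 6) (nat_lit 295) (nat_lit 222) r5_295 r3_222 (nat_lit 155164) (nat_lit 0) (nat_lit 0) (nat_lit 0x801767e82) (nat_lit 1072432988),
  Rx.mk (nat_lit 171) (nat_lit 3) (nat_lit 5) (nat_lit 2) (nat_lit 7) (nat_lit 296) (nat_lit 224) r5_296 r3_224 (nat_lit 0) (nat_lit 0) (nat_lit 0) (nat_lit 0x982c943ec) (nat_lit 682903324)]
noncomputable def e11_51 : List Rx := [
  Rx.mk (nat_lit 168) (nat_lit 0) (nat_lit 5) (nat_lit 2) (nat_lit 6) (nat_lit 305) (nat_lit 224) r5_305 r4_224 (nat_lit 123837254) (nat_lit 0) (nat_lit 0) (nat_lit 0x7ffc69400) (nat_lit 1197837578),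
  Rx.mk (nat_lit 171) (nat_lit 3) (nat_lit 5) (nat_lit 2) (nat_lit 7) (nat_lit 306) (nat_lit 225) r5_306 r4_225 (nat_lit 0) (nat_lit 0) (nat_lit 0) (nat_lit 0x805afa622) (nat_lit 1068090724)]
noncomputable def e11_52 : List Rx := [
  Rx.mk (nat_lit 160) (nat_lit 0) (nat_lit 4) (nat_lit 2) (nat_lit 4) (nat_lit 311) (nat_lit 235) r5_311 r5_235 (nat_lit 1094601) (nat_lit 165280) (nat_lit 0) (nat_lit 0x80e90415c) (nat_lit 1060318305),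
  Rx.mk (nat_lit 163) (nat_lit 3) (nat_lit 4) (nat_lit 2) (nat_lit 5) (nat_lit 312) (nat_lit 238) r5_312 r5_238 (nat_lit 0) (nat_lit 469515) (nat_lit 0) (nat_lit 0x80376b0e4) (nat_lit 1070781039),
  Rx.mk (nat_lit 168) (nat_lit 0) (nat_lit 5) (nat_lit 2) (nat_lit 6) (nat_lit 313) (nat_lit 236) r5_313 r5_236 (nat_lit 7419507) (nat_lit 0) (nat_lit 0) (nat_lit 0x805d211e4) (nat_lit 1075389131),
  Rx.mk (nat_lit 171) (nat_lit 3) (nat_lit 5) (nat_lit 2) (nat_lit 7) (nat_lit 314) (nat_lit 239) r5_314 r5_239 (nat_lit 0) (nat_lit 0) (nat_lit 0) (nat_lit 0x80ce7bf56) (nat_lit 1060792424),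
  Rx.mk (nat_lit 184) (nat_lit 0) (nat_lit 7) (nat_lit 2) (nat_lit 6) (nat_lit 315) (nat_lit 237) r5_315 r5_237 (nat_lit 2217923) (nat_lit 0) (nat_lit 0) (nat_lit 0x870bce5f6) (nat_lit 962095947)]
noncomputable def e11_53 : List Rx := [
  Rx.mk (nat_lit 160) (nat_lit 0) (nat_lit 4) (nat_lit 2) (nat_lit 4) (nat_lit 297) (nat_lit 343) r5_297 r4_343 (nat_lit 1641854) (nat_lit 2493352) (nat_lit 0) (nat_lit 0x7a0e2dc14) (nat_lit 1177075130),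
  Rx.mk (nat_lit 161) (nat_lit 1) (nat_lit 4) (nat_lit 2) (nat_lit 5) (nat_lit 298) (nat_lit 344) r5_298 r4_344 (nat_lit 0) (nat_lit 2814931) (nat_lit 0) (nat_lit 0x806c9d226) (nat_lit 1069803455),
  Rx.mk (nat_lit 163) (nat_lit 3) (nat_lit 4) (nat_lit 2) (nat_lit 5) (nat_lit 299) (nat_lit 345) r5_299 r4_345 (nat_lit 0) (nat_lit 2902620) (nat_lit 0) (nat_lit 0x803de17f2) (nat_lit 1072857744),
  Rx.mk (nat_lit 168) (nat_lit 0) (nat_lit 5) (nat_lit 2) (nat_lit 6) (nat_lit 300) (nat_lit 346) r5_300 r4_346 (nat_lit 1185642) (nat_lit 0) (nat_lit 0) (nat_lit 0x8143bc13a) (nat_lit 1054562866),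
  Rx.mk (nat_lit 169) (nat_lit 1) (nat_lit 5) (nat_lit 2) (nat_lit 7) (nat_lit 301) (nat_lit 347) r5_301 r4_347 (nat_lit 0) (nat_lit 0) (nat_lit 0) (nat_lit 0x835c5378c) (nat_lit 1019479724),
  Rx.mk (nat_lit 171) (nat_lit 3) (nat_lit 5) (nat_lit 2) (nat_lit 7) (nat_lit 302) (nat_lit 348) r5_302 r4_348 (nat_lit 0) (nat_lit 0) (nat_lit 0) (nat_lit 0x8069ded64) (nat_lit 1067161624)]
noncomputable def e11_54 : List Rx := [
  Rx.mk (nat_lit 168) (nat_lit 0) (nat_lit 5) (nat_lit 2) (nat_lit 6) (nat_lit 307) (nat_lit 237) r5_307 r10_237 (nat_lit 1799061) (nat_lit 0) (nat_lit 0) (nat_lit 0x8019a878c) (nat_lit 1074055785),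
  Rx.mk (nat_lit 169) (nat_lit 1) (nat_lit 5) (nat_lit 2) (nat_lit 7) (nat_lit 308) (nat_lit 238) r5_308 r10_238 (nat_lit 0) (nat_lit 0) (nat_lit 0) (nat_lit 0x804b7b61a) (nat_lit 1069091624),
  Rx.mk (nat_lit 171) (nat_lit 3) (nat_lit 5) (nat_lit 2) (nat_lit 7) (nat_lit 309) (nat_lit 239) r5_309 r10_239 (nat_lit 0) (nat_lit 0) (nat_lit 0) (nat_lit 0x804b7c312) (nat_lit 1069091424)]
noncomputable def e11_55 : List Rx := [
  Rx.mk (nat_lit 160) (nat_lit 0) (nat_lit 4) (nat_lit 2) (nat_lit 4) (nat_lit 316) (nat_lit 273) r5_316 r11_273 (nat_lit 4471406) (nat_lit 4395115) (nat_lit 0) (nat_lit 0x7107ec890) (nat_lit 1332271445),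
  Rx.mk (nat_lit 161) (nat_lit 1) (nat_lit 4) (nat_lit 2) (nat_lit 5) (nat_lit 317) (nat_lit 276) r5_317 r11_276 (nat_lit 0) (nat_lit 3845654) (nat_lit 0) (nat_lit 0x8031f6d2a) (nat_lit 1074563378),
  Rx.mk (nat_lit 163) (nat_lit 3) (nat_lit 4) (nat_lit 2) (nat_lit 5) (nat_lit 318) (nat_lit 279) r5_318 r11_279 (nat_lit 0) (nat_lit 3932094) (nat_lit 0) (nat_lit 0x801ccaf14) (nat_lit 1075997118),
  Rx.mk (nat_lit 168) (nat_lit 0) (nat_lit 5) (nat_lit 2) (nat_lit 6) (nat_lit 319) (nat_lit 274) r5_319 r11_274 (nat_lit 4540409) (nat_lit 0) (nat_lit 0) (nat_lit 0x7ffd351cc) (nat_lit 1078626533),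
  Rx.mk (nat_lit 169) (nat_lit 1) (nat_lit 5) (nat_lit 2) (nat_lit 7) (nat_lit 320) (nat_lit 277) r5_320 r11_277 (nat_lit 0) (nat_lit 0) (nat_lit 0) (nat_lit 0x80029938e) (nat_lit 1073741824),
  Rx.mk (nat_lit 171) (nat_lit 3) (nat_lit 5) (nat_lit 2) (nat_lit 7) (nat_lit 321) (nat_lit 280) r5_321 r11_280 (nat_lit 0) (nat_lit 0) (nat_lit 0) (nat_lit 0x80029938e) (nat_lit 1073741824),
  Rx.mk (nat_lit 184) (nat_lit 0) (nat_lit 7) (nat_lit 2) (nat_lit 6) (nat_lit 322) (nat_lit 275) r5_322 r11_275 (nat_lit 4883967) (nat_lit 0) (nat_lit 0) (nat_lit 0x7fed9eae2) (nat_lit 1079973691),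
  Rx.mk (nat_lit 185) (nat_lit 1) (nat_lit 7) (nat_lit 2) (nat_lit 7) (nat_lit 323) (nat_lit 278) r5_323 r11_278 (nat_lit 0) (nat_lit 0) (nat_lit 0) (nat_lit 0x80029938e) (nat_lit 1073741824)]
noncomputable def e11_56 : List Rx := [
  Rx.mk (nat_lit 163) (nat_lit 3) (nat_lit 4) (nat_lit 2) (nat_lit 5) (nat_lit 303) (nat_lit 303) r5_303 r5_303 (nat_lit 0) (nat_lit 461918) (nat_lit 0) (nat_lit 0x8c1746ac8) (nat_lit 878735242),
  Rx.mk (nat_lit 171) (nat_lit 3) (nat_lit 5) (nat_lit 2) (nat_lit 7) (nat_lit 304) (nat_lit 304) r5_304 r5_304 (nat_lit 0) (nat_lit 0) (nat_lit 0) (nat_lit 0x888243294) (nat_lit 936224624)]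
noncomputable def e11_57 : List Rx := [
  Rx.mk (nat_lit 171) (nat_lit 3) (nat_lit 5) (nat_lit 2) (nat_lit 7) (nat_lit 310) (nat_lit 356) r5_310 r11_356 (nat_lit 0) (nat_lit 0) (nat_lit 0) (nat_lit 0x962b5e434) (nat_lit 715321324)]
noncomputable def e11 : List (List Rx) := [e11_0, e11_1, e11_2, e11_3, e11_4, e11_5, e11_6, e11_7, e11_8, e11_9, e11_10, e11_11, e11_12, e11_13, e11_14, e11_15, e11_16, e11_17, e11_18, e11_19, e11_20, e11_21, e11_22, e11_23, e11_24, e11_25, e11_26, e11_27, e11_28, e11_29, e11_30, e11_31, e11_32, e11_33, e11_34, e11_35, e11_36, e11_37, e11_38, e11_39, e11_40, e11_41, e11_42, e11_43, e11_44, e11_45, e11_46, e11_47, e11_48, e11_49, e11_50, e11_51, e11_52, e11_53, e11_54, e11_55, e11_56, e11_57]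

end Pool.Agent.AKXS_34_39_VA
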