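import Pool.Agent.AKXS_34_39_VA.R0
import Pool.Agent.AKXS_34_39_VA.R1
import Pool.Agent.AKXS_34_39_VA.R2
import Pool.Agent.AKXS_34_39_VA.R3
import Pool.Agent.AKXS_34_39_VA.R4
import Pool.Agent.AKXS_34_39_VA.R5
import Pool.Agent.AKXS_34_39_VA.R6
import Pool.Agent.AKXS_34_39_VA.R7
import Pool.Agent.AKXS_34_39_VA.R8
import Pool.Agent.AKXS_34_39_VA.R9
import Pool.Agent.AKXS_34_39_VA.R10
import Pool.Agent.AKXS_34_39_VA.R11
import Pool.Agent.AKXS_34_39_VA.R12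

set_option autoImplicit false

namespace Pool.Agent.AKXS_34_39_VA

open Pool.Agent.AKX Pool.Agent.AKU

noncomputable def e12_0 : List Rx := [
  Rx.mk (nat_lit 2) (nat_lit 2) (nat_lit 0) (nat_lit 0) (nat_lit 1) (nat_lit 91) (nat_lit 94) r0_91 r0_94 (nat_lit 0) (nat_lit 349268526) (nat_lit 2281841) (nat_lit 0x695e6d546) (nat_lit 1802695991),
  Rx.mk (nat_lit 18) (nat_lit 2) (nat_lit 2) (nat_lit 0) (nat_lit 3) (nat_lit 92) (nat_lit 97) r0_92 r0_97 (nat_lit 0) (nat_lit 0) (nat_lit 7696512) (nat_lit 0x757aa5982) (nat_lit 1256938536),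
  Rx.mk (nat_lit 146) (nat_lit 2) (nat_lit 2) (nat_lit 2) (nat_lit 7) (nat_lit 93) (nat_lit 99) r0_93 r0_99 (nat_lit 0) (nat_lit 0) (nat_lit 0) (nat_lit 0x7ff4b5254) (nat_lit 1074633224),
  Rx.mk (nat_lit 192) (nat_lit 0) (nat_lit 0) (nat_lit 3) (nat_lit 4) (nat_lit 94) (nat_lit 91) r0_94 r0_91 (nat_lit 2281841) (nat_lit 349268526) (nat_lit 0) (nat_lit 0x695e6d546) (nat_lit 1802695991),
  Rx.mk (nat_lit 194) (nat_lit 2) (nat_lit 0) (nat_lit 3) (nat_lit 5) (nat_lit 95) (nat_lit 95) r0_95 r0_95 (nat_lit 0) (nat_lit 83723171) (nat_lit 0) (nat_lit 0x7fded129e) (nat_lit 1159762995),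
  Rx.mk (nat_lit 210) (nat_lit 2) (nat_lit 2) (nat_lit 3) (nat_lit 7) (nat_lit 96) (nat_lit 98) r0_96 r0_98 (nat_lit 0) (nat_lit 0) (nat_lit 0) (nat_lit 0x800b21baa) (nat_lit 1073194924),
  Rx.mk (nat_lit 216) (nat_lit 0) (nat_lit 3) (nat_lit 3) (nat_lit 6) (nat_lit 97) (nat_lit 92) r0_97 r0_92 (nat_lit 7696512) (nat_lit 0) (nat_lit 0) (nat_lit 0x757aa5982) (nat_lit 1256938536),
  Rx.mk (nat_lit 218) (nat_lit 2) (nat_lit 3) (nat_lit 3) (nat_lit 7) (nat_lit 98) (nat_lit 96) r0_98 r0_96 (nat_lit 0) (nat_lit 0) (nat_lit 0) (nat_lit 0x800b21baa) (nat_lit 1073194924),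
  Rx.mk (nat_lit 219) (nat_lit 3) (nat_lit 3) (nat_lit 3) (nat_lit 7) (nat_lit 99) (nat_lit 93) r0_99 r0_93 (nat_lit 0) (nat_lit 0) (nat_lit 0) (nat_lit 0x7ff4b5254) (nat_lit 1074633224)]
noncomputable def e12_1 : List Rx := [
  Rx.mk (nat_lit 0) (nat_lit 0) (nat_lit 0) (nat_lit 0) (nat_lit 0) (nat_lit 111) (nat_lit 94) r0_111 r1_94 (nat_lit 809) (nat_lit 313883956) (nat_lit 792) (nat_lit 0x800043b20) (nat_lit 1387611081),
  Rx.mk (nat_lit 2) (nat_lit 2) (nat_lit 0) (nat_lit 0) (nat_lit 1) (nat_lit 112) (nat_lit 99) r0_112 r1_99 (nat_lit 0) (nat_lit 134380886) (nat_lit 2995413) (nat_lit 0x6f8aae7a8) (nat_lit 1485611623),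
  Rx.mk (nat_lit 18) (nat_lit 2) (nat_lit 2) (nat_lit 0) (nat_lit 3) (nat_lit 113) (nat_lit 103) r0_113 r1_103 (nat_lit 0) (nat_lit 0) (nat_lit 4066432) (nat_lit 0x79ca131dc) (nat_lit 1181450656),
  Rx.mk (nat_lit 64) (nat_lit 0) (nat_lit 0) (nat_lit 1) (nat_lit 4) (nat_lit 114) (nat_lit 95) r0_114 r1_95 (nat_lit 5229139) (nat_lit 389289256) (nat_lit 0) (nat_lit 0x7f6d76162) (nat_lit 1477906119),
  Rx.mk (nat_lit 66) (nat_lit 2) (nat_lit 0) (nat_lit 1) (nat_lit 5) (nat_lit 115) (nat_lit 100) r0_115 r1_100 (nat_lit 0) (nat_lit 9520156) (nat_lit 0) (nat_lit 0x7fd237c40) (nat_lit 1086376280),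
  Rx.mk (nat_lit 82) (nat_lit 2) (nat_lit 2) (nat_lit 1) (nat_lit 7) (nat_lit 116) (nat_lit 104) r0_116 r1_104 (nat_lit 0) (nat_lit 0) (nat_lit 0) (nat_lit 0x80029938e) (nat_lit 1073741824),
  Rx.mk (nat_lit 146) (nat_lit 2) (nat_lit 2) (nat_lit 2) (nat_lit 7) (nat_lit 117) (nat_lit 106) r0_117 r1_106 (nat_lit 0) (nat_lit 0) (nat_lit 0) (nat_lit 0x80029938e) (nat_lit 1073741824),
  Rx.mk (nat_lit 192) (nat_lit 0) (nat_lit 0) (nat_lit 3) (nat_lit 4) (nat_lit 118) (nat_lit 96) r0_118 r1_96 (nat_lit 13308373) (nat_lit 244546135) (nat_lit 0) (nat_lit 0x7f7cf93a0) (nat_lit 1340240332),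
  Rx.mk (nat_lit 194) (nat_lit 2) (nat_lit 0) (nat_lit 3) (nat_lit 5) (nat_lit 119) (nat_lit 101) r0_119 r1_101 (nat_lit 0) (nat_lit 7910044) (nat_lit 0) (nat_lit 0x80340856e) (nat_lit 1078489268),
  Rx.mk (nat_lit 210) (nat_lit 2) (nat_lit 2) (nat_lit 3) (nat_lit 7) (nat_lit 120) (nat_lit 105) r0_120 r1_105 (nat_lit 0) (nat_lit 0) (nat_lit 0) (nat_lit 0x80029938e) (nat_lit 1073741824),
  Rx.mk (nat_lit 216) (nat_lit 0) (nat_lit 3) (nat_lit 3) (nat_lit 6) (nat_lit 121) (nat_lit 97) r0_121 r1_97 (nat_lit 4762754) (nat_lit 0) (nat_lit 0) (nat_lit 0x7fefdf6ee) (nat_lit 1079707178),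
  Rx.mk (nat_lit 218) (nat_lit 2) (nat_lit 3) (nat_lit 3) (nat_lit 7) (nat_lit 122) (nat_lit 102) r0_122 r1_102 (nat_lit 0) (nat_lit 0) (nat_lit 0) (nat_lit 0x80029938e) (nat_lit 1073741824),
  Rx.mk (nat_lit 219) (nat_lit 3) (nat_lit 3) (nat_lit 3) (nat_lit 7) (nat_lit 123) (nat_lit 98) r0_123 r1_98 (nat_lit 0) (nat_lit 0) (nat_lit 0) (nat_lit 0x80029938e) (nat_lit 1073741824)]
noncomputable def e12_2 : List Rx := [
  Rx.mk (nat_lit 64) (nat_lit 0) (nat_lit 0) (nat_lit 1) (nat_lit 4) (nat_lit 254) (nat_lit 98) r0_254 r2_98 (nat_lit 7055863) (nat_lit 68407513) (nat_lit 0) (nat_lit 0x53676d968) (nat_lit 1892836900),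
  Rx.mk (nat_lit 66) (nat_lit 2) (nat_lit 0) (nat_lit 1) (nat_lit 5) (nat_lit 255) (nat_lit 99) r0_255 r2_99 (nat_lit 0) (nat_lit 10599859) (nat_lit 0) (nat_lit 0x7f72b6d3e) (nat_lit 1093649483),
  Rx.mk (nat_lit 82) (nat_lit 2) (nat_lit 2) (nat_lit 1) (nat_lit 7) (nat_lit 256) (nat_lit 100) r0_256 r2_100 (nat_lit 0) (nat_lit 0) (nat_lit 0) (nat_lit 0x80029938e) (nat_lit 1073741824)]
noncomputable def e12_3 : List Rx := [
  Rx.mk (nat_lit 192) (nat_lit 0) (nat_lit 0) (nat_lit 3) (nat_lit 4) (nat_lit 43) (nat_lit 91) r0_43 r3_91 (nat_lit 41) (nat_lit 127) (nat_lit 0) (nat_lit 0x810a42a4e) (nat_lit 1056923092),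
  Rx.mk (nat_lit 194) (nat_lit 2) (nat_lit 0) (nat_lit 3) (nat_lit 5) (nat_lit 44) (nat_lit 97) r0_44 r3_97 (nat_lit 0) (nat_lit 57402) (nat_lit 0) (nat_lit 0x72280bbe8) (nat_lit 1304618126),
  Rx.mk (nat_lit 210) (nat_lit 2) (nat_lit 2) (nat_lit 3) (nat_lit 7) (nat_lit 45) (nat_lit 99) r0_45 r3_99 (nat_lit 0) (nat_lit 0) (nat_lit 0) (nat_lit 0x7e9e55ea0) (nat_lit 1096868324),
  Rx.mk (nat_lit 216) (nat_lit 0) (nat_lit 3) (nat_lit 3) (nat_lit 6) (nat_lit 46) (nat_lit 92) r0_46 r3_92 (nat_lit 340766) (nat_lit 0) (nat_lit 0) (nat_lit 0x7b6c883d0) (nat_lit 1150435990),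
  Rx.mk (nat_lit 218) (nat_lit 2) (nat_lit 3) (nat_lit 3) (nat_lit 7) (nat_lit 47) (nat_lit 98) r0_47 r3_98 (nat_lit 0) (nat_lit 0) (nat_lit 0) (nat_lit 0x805080ac0) (nat_lit 1068781124),
  Rx.mk (nat_lit 315) (nat_lit 3) (nat_lit 7) (nat_lit 4) (nat_lit 3) (nat_lit 48) (nat_lit 95) r0_48 r3_95 (nat_lit 0) (nat_lit 0) (nat_lit 2538) (nat_lit 0x7f0d94852) (nat_lit 1089533662),
  Rx.mk (nat_lit 472) (nat_lit 0) (nat_lit 3) (nat_lit 7) (nat_lit 6) (nat_lit 49) (nat_lit 93) r0_49 r3_93 (nat_lit 1675) (nat_lit 0) (nat_lit 0) (nat_lit 0x7fff0f506) (nat_lit 1073805999),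
  Rx.mk (nat_lit 475) (nat_lit 3) (nat_lit 3) (nat_lit 7) (nat_lit 7) (nat_lit 50) (nat_lit 94) r0_50 r3_94 (nat_lit 0) (nat_lit 0) (nat_lit 0) (nat_lit 0x7ff88c6a2) (nat_lit 1074376024),
  Rx.mk (nat_lit 507) (nat_lit 3) (nat_lit 7) (nat_lit 7) (nat_lit 7) (nat_lit 51) (nat_lit 96) r0_51 r3_96 (nat_lit 0) (nat_lit 0) (nat_lit 0) (nat_lit 0x7e28e0986) (nat_lit 1104512624)]
noncomputable def e12_4 : List Rx := [
  Rx.mk (nat_lit 192) (nat_lit 0) (nat_lit 0) (nat_lit 3) (nat_lit 4) (nat_lit 142) (nat_lit 93) r0_142 r4_93 (nat_lit 141544) (nat_lit 274678991) (nat_lit 0) (nat_lit 0x64b4664b6) (nat_lit 1803687759),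
  Rx.mk (nat_lit 194) (nat_lit 2) (nat_lit 0) (nat_lit 3) (nat_lit 5) (nat_lit 143) (nat_lit 95) r0_143 r4_95 (nat_lit 0) (nat_lit 78264559) (nat_lit 0) (nat_lit 0x80209c4da) (nat_lit 1150066883),
  Rx.mk (nat_lit 210) (nat_lit 2) (nat_lit 2) (nat_lit 3) (nat_lit 7) (nat_lit 144) (nat_lit 97) r0_144 r4_97 (nat_lit 0) (nat_lit 0) (nat_lit 0) (nat_lit 0x8017d8204) (nat_lit 1072380824),
  Rx.mk (nat_lit 216) (nat_lit 0) (nat_lit 3) (nat_lit 3) (nat_lit 6) (nat_lit 145) (nat_lit 94) r0_145 r4_94 (nat_lit 3066219) (nat_lit 0) (nat_lit 0) (nat_lit 0x7fc1695a8) (nat_lit 1081005143),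
  Rx.mk (nat_lit 218) (nat_lit 2) (nat_lit 3) (nat_lit 3) (nat_lit 7) (nat_lit 146) (nat_lit 96) r0_146 r4_96 (nat_lit 0) (nat_lit 0) (nat_lit 0) (nat_lit 0x80388f0ce) (nat_lit 1070293424)]
noncomputable def e12_5 : List Rx := [
  Rx.mk (nat_lit 192) (nat_lit 0) (nat_lit 0) (nat_lit 3) (nat_lit 4) (nat_lit 204) (nat_lit 94) r0_204 r5_94 (nat_lit 42213) (nat_lit 34408194) (nat_lit 0) (nat_lit 0x8000d80ea) (nat_lit 1108162531),
  Rx.mk (nat_lit 194) (nat_lit 2) (nat_lit 0) (nat_lit 3) (nat_lit 5) (nat_lit 205) (nat_lit 100) r0_205 r5_100 (nat_lit 0) (nat_lit 275203489) (nat_lit 0) (nat_lit 0x7ef968536) (nat_lit 1366143013),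
  Rx.mk (nat_lit 210) (nat_lit 2) (nat_lit 2) (nat_lit 3) (nat_lit 7) (nat_lit 206) (nat_lit 101) r0_206 r5_101 (nat_lit 0) (nat_lit 0) (nat_lit 0) (nat_lit 0x7fca9da02) (nat_lit 1077344524),
  Rx.mk (nat_lit 283) (nat_lit 3) (nat_lit 3) (nat_lit 4) (nat_lit 3) (nat_lit 207) (nat_lit 97) r0_207 r5_97 (nat_lit 0) (nat_lit 0) (nat_lit 1787242) (nat_lit 0x66db20c6c) (nat_lit 1494829666),
  Rx.mk (nat_lit 315) (nat_lit 3) (nat_lit 7) (nat_lit 4) (nat_lit 3) (nat_lit 208) (nat_lit 99) r0_208 r5_99 (nat_lit 0) (nat_lit 0) (nat_lit 2561812) (nat_lit 0x7ef938278) (nat_lit 1093505936),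
  Rx.mk (nat_lit 448) (nat_lit 0) (nat_lit 0) (nat_lit 7) (nat_lit 4) (nat_lit 209) (nat_lit 95) r0_209 r5_95 (nat_lit 1820) (nat_lit 2303) (nat_lit 0) (nat_lit 0x7ff2f8664) (nat_lit 1074595147),
  Rx.mk (nat_lit 472) (nat_lit 0) (nat_lit 3) (nat_lit 7) (nat_lit 6) (nat_lit 210) (nat_lit 96) r0_210 r5_96 (nat_lit 1204429) (nat_lit 0) (nat_lit 0) (nat_lit 0x804cfd8c6) (nat_lit 1070187653),
  Rx.mk (nat_lit 475) (nat_lit 3) (nat_lit 3) (nat_lit 7) (nat_lit 7) (nat_lit 211) (nat_lit 98) r0_211 r5_98 (nat_lit 0) (nat_lit 0) (nat_lit 0) (nat_lit 0x800cf614c) (nat_lit 1073076224)]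
noncomputable def e12_6 : List Rx := [
  Rx.mk (nat_lit 257) (nat_lit 1) (nat_lit 0) (nat_lit 4) (nat_lit 1) (nat_lit 300) (nat_lit 146) r0_300 r3_146 (nat_lit 0) (nat_lit 81) (nat_lit 191) (nat_lit 0x800015324) (nat_lit 1073736896),
  Rx.mk (nat_lit 281) (nat_lit 1) (nat_lit 3) (nat_lit 4) (nat_lit 3) (nat_lit 301) (nat_lit 149) r0_301 r3_149 (nat_lit 0) (nat_lit 0) (nat_lit 52414) (nat_lit 0x7cb6d8c18) (nat_lit 1128580838),
  Rx.mk (nat_lit 320) (nat_lit 0) (nat_lit 0) (nat_lit 5) (nat_lit 4) (nat_lit 302) (nat_lit 145) r0_302 r3_145 (nat_lit 337) (nat_lit 671) (nat_lit 0) (nat_lit 0x72b6e4a90) (nat_lit 1295253432),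
  Rx.mk (nat_lit 321) (nat_lit 1) (nat_lit 0) (nat_lit 5) (nat_lit 5) (nat_lit 303) (nat_lit 147) r0_303 r3_147 (nat_lit 0) (nat_lit 424055) (nat_lit 0) (nat_lit 0x7bb0370ea) (nat_lit 1146087279),
  Rx.mk (nat_lit 344) (nat_lit 0) (nat_lit 3) (nat_lit 5) (nat_lit 6) (nat_lit 304) (nat_lit 148) r0_304 r3_148 (nat_lit 405858) (nat_lit 0) (nat_lit 0) (nat_lit 0x78a0747a0) (nat_lit 1197135682),
  Rx.mk (nat_lit 345) (nat_lit 1) (nat_lit 3) (nat_lit 5) (nat_lit 7) (nat_lit 305) (nat_lit 150) r0_305 r3_150 (nat_lit 0) (nat_lit 0) (nat_lit 0) (nat_lit 0x883ab4d38) (nat_lit 940740624)]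
noncomputable def e12_7 : List Rx := [
  Rx.mk (nat_lit 320) (nat_lit 0) (nat_lit 0) (nat_lit 5) (nat_lit 4) (nat_lit 248) (nat_lit 171) r0_248 r0_171 (nat_lit 318) (nat_lit 969839457) (nat_lit 0) (nat_lit 0x8000510a4) (nat_lit 2043561699),
  Rx.mk (nat_lit 321) (nat_lit 1) (nat_lit 0) (nat_lit 5) (nat_lit 5) (nat_lit 249) (nat_lit 172) r0_249 r0_172 (nat_lit 0) (nat_lit 508562239) (nat_lit 0) (nat_lit 0x7ed0e1874) (nat_lit 1602132963)]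
noncomputable def e12_8 : List Rx := [
  Rx.mk (nat_lit 64) (nat_lit 0) (nat_lit 0) (nat_lit 1) (nat_lit 4) (nat_lit 265) (nat_lit 180) r0_265 r1_180 (nat_lit 2783255) (nat_lit 103080834) (nat_lit 0) (nat_lit 0x61b174d32) (nat_lit 1684989113),
  Rx.mk (nat_lit 65) (nat_lit 1) (nat_lit 0) (nat_lit 1) (nat_lit 5) (nat_lit 266) (nat_lit 182) r0_266 r1_182 (nat_lit 0) (nat_lit 7068022) (nat_lit 0) (nat_lit 0x7fea1f7b8) (nat_lit 1082378546),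
  Rx.mk (nat_lit 66) (nat_lit 2) (nat_lit 0) (nat_lit 1) (nat_lit 5) (nat_lit 267) (nat_lit 183) r0_267 r1_183 (nat_lit 0) (nat_lit 271237446) (nat_lit 0) (nat_lit 0x89006c440) (nat_lit 1199488170),
  Rx.mk (nat_lit 82) (nat_lit 2) (nat_lit 2) (nat_lit 1) (nat_lit 7) (nat_lit 268) (nat_lit 184) r0_268 r1_184 (nat_lit 0) (nat_lit 0) (nat_lit 0) (nat_lit 0x802fc2cf2) (nat_lit 1070852724),
  Rx.mk (nat_lit 320) (nat_lit 0) (nat_lit 0) (nat_lit 5) (nat_lit 4) (nat_lit 269) (nat_lit 179) r0_269 r1_179 (nat_lit 4696) (nat_lit 1076204905) (nat_lit 0) (nat_lit 0x8008e3776) (nat_lit 2149391825),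
  Rx.mk (nat_lit 321) (nat_lit 1) (nat_lit 0) (nat_lit 5) (nat_lit 5) (nat_lit 270) (nat_lit 181) r0_270 r1_181 (nat_lit 0) (nat_lit 15364900) (nat_lit 0) (nat_lit 0x80028c260) (nat_lit 1089102224)]
noncomputable def e12_9 : List Rx := [
  Rx.mk (nat_lit 320) (nat_lit 0) (nat_lit 0) (nat_lit 5) (nat_lit 4) (nat_lit 318) (nat_lit 155) r0_318 r4_155 (nat_lit 781143) (nat_lit 232268791) (nat_lit 0) (nat_lit 0x6adf8057e) (nat_lit 1659098658),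
  Rx.mk (nat_lit 321) (nat_lit 1) (nat_lit 0) (nat_lit 5) (nat_lit 5) (nat_lit 319) (nat_lit 156) r0_319 r4_156 (nat_lit 0) (nat_lit 4017845) (nat_lit 0) (nat_lit 0x7ff75e168) (nat_lit 1078479169),
  Rx.mk (nat_lit 344) (nat_lit 0) (nat_lit 3) (nat_lit 5) (nat_lit 6) (nat_lit 320) (nat_lit 157) r0_320 r4_157 (nat_lit 2184780) (nat_lit 0) (nat_lit 0) (nat_lit 0x7aab2db36) (nat_lit 1164898604),
  Rx.mk (nat_lit 345) (nat_lit 1) (nat_lit 3) (nat_lit 5) (nat_lit 7) (nat_lit 321) (nat_lit 158) r0_321 r4_158 (nat_lit 0) (nat_lit 0) (nat_lit 0) (nat_lit 0x8052c65be) (nat_lit 1068627724)]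
noncomputable def e12_10 : List Rx := [
  Rx.mk (nat_lit 280) (nat_lit 0) (nat_lit 3) (nat_lit 4) (nat_lit 2) (nat_lit 228) (nat_lit 99) r0_228 r6_99 (nat_lit 21443) (nat_lit 0) (nat_lit 21155) (nat_lit 0x655f25c44) (nat_lit 1517763922),
  Rx.mk (nat_lit 281) (nat_lit 1) (nat_lit 3) (nat_lit 4) (nat_lit 3) (nat_lit 229) (nat_lit 102) r0_229 r6_102 (nat_lit 0) (nat_lit 0) (nat_lit 473428) (nat_lit 0x8f3b0df94) (nat_lit 827965152),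
  Rx.mk (nat_lit 283) (nat_lit 3) (nat_lit 3) (nat_lit 4) (nat_lit 3) (nat_lit 230) (nat_lit 104) r0_230 r6_104 (nat_lit 0) (nat_lit 0) (nat_lit 2346346) (nat_lit 0x7a9228b7c) (nat_lit 1166687270),
  Rx.mk (nat_lit 315) (nat_lit 3) (nat_lit 7) (nat_lit 4) (nat_lit 3) (nat_lit 231) (nat_lit 105) r0_231 r6_105 (nat_lit 0) (nat_lit 0) (nat_lit 1581921) (nat_lit 0x7e87497a2) (nat_lit 1099940645),
  Rx.mk (nat_lit 448) (nat_lit 0) (nat_lit 0) (nat_lit 7) (nat_lit 4) (nat_lit 232) (nat_lit 98) r0_232 r6_98 (nat_lit 56818) (nat_lit 73687) (nat_lit 0) (nat_lit 0x686f2bb72) (nat_lit 1466800329),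
  Rx.mk (nat_lit 449) (nat_lit 1) (nat_lit 0) (nat_lit 7) (nat_lit 5) (nat_lit 233) (nat_lit 101) r0_233 r6_101 (nat_lit 0) (nat_lit 94559) (nat_lit 0) (nat_lit 0x9073beac2) (nat_lit 807812083),
  Rx.mk (nat_lit 472) (nat_lit 0) (nat_lit 3) (nat_lit 7) (nat_lit 6) (nat_lit 234) (nat_lit 100) r0_234 r6_100 (nat_lit 2085900) (nat_lit 0) (nat_lit 0) (nat_lit 0x80175fe9e) (nat_lit 1074492124),
  Rx.mk (nat_lit 473) (nat_lit 1) (nat_lit 3) (nat_lit 7) (nat_lit 7) (nat_lit 235) (nat_lit 103) r0_235 r6_103 (nat_lit 0) (nat_lit 0) (nat_lit 0) (nat_lit 0x90cc616de) (nat_lit 802175124)]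
noncomputable def e12_11 : List Rx := [
  Rx.mk (nat_lit 256) (nat_lit 0) (nat_lit 0) (nat_lit 4) (nat_lit 0) (nat_lit 330) (nat_lit 152) r0_330 r5_152 (nat_lit 352) (nat_lit 330744107) (nat_lit 325) (nat_lit 0x800010eb4) (nat_lit 1404482608),
  Rx.mk (nat_lit 257) (nat_lit 1) (nat_lit 0) (nat_lit 4) (nat_lit 1) (nat_lit 331) (nat_lit 155) r0_331 r5_155 (nat_lit 0) (nat_lit 2163217) (nat_lit 9541506) (nat_lit 0x7d2876e7e) (nat_lit 1132919447),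
  Rx.mk (nat_lit 280) (nat_lit 0) (nat_lit 3) (nat_lit 4) (nat_lit 2) (nat_lit 332) (nat_lit 158) r0_332 r5_158 (nat_lit 1646045) (nat_lit 0) (nat_lit 1903628) (nat_lit 0x64837e9fc) (nat_lit 1535649097),
  Rx.mk (nat_lit 281) (nat_lit 1) (nat_lit 3) (nat_lit 4) (nat_lit 3) (nat_lit 333) (nat_lit 160) r0_333 r5_160 (nat_lit 0) (nat_lit 0) (nat_lit 3491444) (nat_lit 0x7fef1f6dc) (nat_lit 1078469368),
  Rx.mk (nat_lit 283) (nat_lit 3) (nat_lit 3) (nat_lit 4) (nat_lit 3) (nat_lit 334) (nat_lit 162) r0_334 r5_162 (nat_lit 0) (nat_lit 0) (nat_lit 4819430) (nat_lit 0x75c3dc4d4) (nat_lit 1249292654),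
  Rx.mk (nat_lit 320) (nat_lit 0) (nat_lit 0) (nat_lit 5) (nat_lit 4) (nat_lit 335) (nat_lit 153) r0_335 r5_153 (nat_lit 2550648) (nat_lit 173854821) (nat_lit 0) (nat_lit 0x75a4173f6) (nat_lit 1422939093),
  Rx.mk (nat_lit 321) (nat_lit 1) (nat_lit 0) (nat_lit 5) (nat_lit 5) (nat_lit 336) (nat_lit 156) r0_336 r5_156 (nat_lit 0) (nat_lit 5090091) (nat_lit 0) (nat_lit 0x7fe496148) (nat_lit 1080758915),
  Rx.mk (nat_lit 344) (nat_lit 0) (nat_lit 3) (nat_lit 5) (nat_lit 6) (nat_lit 337) (nat_lit 159) r0_337 r5_159 (nat_lit 3048911) (nat_lit 0) (nat_lit 0) (nat_lit 0x7f12771a8) (nat_lit 1092353635),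
  Rx.mk (nat_lit 345) (nat_lit 1) (nat_lit 3) (nat_lit 5) (nat_lit 7) (nat_lit 338) (nat_lit 161) r0_338 r5_161 (nat_lit 0) (nat_lit 0) (nat_lit 0) (nat_lit 0x7ffdbe706) (nat_lit 1074053224),
  Rx.mk (nat_lit 347) (nat_lit 3) (nat_lit 3) (nat_lit 5) (nat_lit 7) (nat_lit 339) (nat_lit 163) r0_339 r5_163 (nat_lit 0) (nat_lit 0) (nat_lit 0) (nat_lit 0x801989bc0) (nat_lit 1072271724),
  Rx.mk (nat_lit 448) (nat_lit 0) (nat_lit 0) (nat_lit 7) (nat_lit 4) (nat_lit 340) (nat_lit 154) r0_340 r5_154 (nat_lit 281567) (nat_lit 98422675) (nat_lit 0) (nat_lit 0x7f7c07604) (nat_lit 1181102766),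
  Rx.mk (nat_lit 449) (nat_lit 1) (nat_lit 0) (nat_lit 7) (nat_lit 5) (nat_lit 341) (nat_lit 157) r0_341 r5_157 (nat_lit 0) (nat_lit 1226898) (nat_lit 0) (nat_lit 0x7f8055c9c) (nat_lit 1083371622)]
noncomputable def e12_12 : List Rx := [
  Rx.mk (nat_lit 18) (nat_lit 2) (nat_lit 2) (nat_lit 0) (nat_lit 3) (nat_lit 0) (nat_lit 10) r0_0 r0_10 (nat_lit 0) (nat_lit 0) (nat_lit 5395) (nat_lit 0x6944b7408) (nat_lit 1452752919),
  Rx.mk (nat_lit 146) (nat_lit 2) (nat_lit 2) (nat_lit 2) (nat_lit 7) (nat_lit 1) (nat_lit 19) r0_1 r0_19 (nat_lit 0) (nat_lit 0) (nat_lit 0) (nat_lit 0x75d7e4c92) (nat_lit 1243130024),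
  Rx.mk (nat_lit 150) (nat_lit 6) (nat_lit 2) (nat_lit 2) (nat_lit 7) (nat_lit 2) (nat_lit 18) r0_2 r0_18 (nat_lit 0) (nat_lit 0) (nat_lit 0) (nat_lit 0x72bc9c29e) (nat_lit 1294943824),
  Rx.mk (nat_lit 182) (nat_lit 6) (nat_lit 6) (nat_lit 2) (nat_lit 7) (nat_lit 3) (nat_lit 17) r0_3 r0_17 (nat_lit 0) (nat_lit 0) (nat_lit 0) (nat_lit 0x7faf4f9e4) (nat_lit 1079113724),
  Rx.mk (nat_lit 192) (nat_lit 0) (nat_lit 0) (nat_lit 3) (nat_lit 4) (nat_lit 4) (nat_lit 11) r0_4 r0_11 (nat_lit 315) (nat_lit 405) (nat_lit 0) (nat_lit 0x7ffff5812) (nat_lit 1073745444),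
  Rx.mk (nat_lit 194) (nat_lit 2) (nat_lit 0) (nat_lit 3) (nat_lit 5) (nat_lit 5) (nat_lit 12) r0_5 r0_12 (nat_lit 0) (nat_lit 1728051) (nat_lit 0) (nat_lit 0x7394ef902) (nat_lit 1282594675),
  Rx.mk (nat_lit 210) (nat_lit 2) (nat_lit 2) (nat_lit 3) (nat_lit 7) (nat_lit 6) (nat_lit 16) r0_6 r0_16 (nat_lit 0) (nat_lit 0) (nat_lit 0) (nat_lit 0x7fffee0a8) (nat_lit 1073746924),
  Rx.mk (nat_lit 216) (nat_lit 0) (nat_lit 3) (nat_lit 3) (nat_lit 6) (nat_lit 7) (nat_lit 13) r0_7 r0_13 (nat_lit 333) (nat_lit 0) (nat_lit 0) (nat_lit 0x89448e60a) (nat_lit 923874657),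
  Rx.mk (nat_lit 218) (nat_lit 2) (nat_lit 3) (nat_lit 3) (nat_lit 7) (nat_lit 8) (nat_lit 15) r0_8 r0_15 (nat_lit 0) (nat_lit 0) (nat_lit 0) (nat_lit 0x7f59d35d8) (nat_lit 1084663224),
  Rx.mk (nat_lit 219) (nat_lit 3) (nat_lit 3) (nat_lit 3) (nat_lit 7) (nat_lit 9) (nat_lit 14) r0_9 r0_14 (nat_lit 0) (nat_lit 0) (nat_lit 0) (nat_lit 0x7f4d09abe) (nat_lit 1085496724),
  Rx.mk (nat_lit 319) (nat_lit 7) (nat_lit 7) (nat_lit 4) (nat_lit 3) (nat_lit 10) (nat_lit 0) r0_10 r0_0 (nat_lit 0) (nat_lit 0) (nat_lit 5395) (nat_lit 0x6944b7408) (nat_lit 1452752919),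
  Rx.mk (nat_lit 420) (nat_lit 4) (nat_lit 4) (nat_lit 6) (nat_lit 4) (nat_lit 11) (nat_lit 4) r0_11 r0_4 (nat_lit 315) (nat_lit 405) (nat_lit 0) (nat_lit 0x7ffff5812) (nat_lit 1073745444),
  Rx.mk (nat_lit 423) (nat_lit 7) (nat_lit 4) (nat_lit 6) (nat_lit 5) (nat_lit 12) (nat_lit 5) r0_12 r0_5 (nat_lit 0) (nat_lit 1728051) (nat_lit 0) (nat_lit 0x7394ef902) (nat_lit 1282594675),
  Rx.mk (nat_lit 436) (nat_lit 4) (nat_lit 6) (nat_lit 6) (nat_lit 6) (nat_lit 13) (nat_lit 7) r0_13 r0_7 (nat_lit 333) (nat_lit 0) (nat_lit 0) (nat_lit 0x89448e60a) (nat_lit 923874657),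
  Rx.mk (nat_lit 438) (nat_lit 6) (nat_lit 6) (nat_lit 6) (nat_lit 7) (nat_lit 14) (nat_lit 9) r0_14 r0_9 (nat_lit 0) (nat_lit 0) (nat_lit 0) (nat_lit 0x7f4d09abe) (nat_lit 1085496724),
  Rx.mk (nat_lit 439) (nat_lit 7) (nat_lit 6) (nat_lit 6) (nat_lit 7) (nat_lit 15) (nat_lit 8) r0_15 r0_8 (nat_lit 0) (nat_lit 0) (nat_lit 0) (nat_lit 0x7f59d35d8) (nat_lit 1084663224),
  Rx.mk (nat_lit 447) (nat_lit 7) (nat_lit 7) (nat_lit 6) (nat_lit 7) (nat_lit 16) (nat_lit 6) r0_16 r0_6 (nat_lit 0) (nat_lit 0) (nat_lit 0) (nat_lit 0x7fffee0a8) (nat_lit 1073746924),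
  Rx.mk (nat_lit 475) (nat_lit 3) (nat_lit 3) (nat_lit 7) (nat_lit 7) (nat_lit 17) (nat_lit 3) r0_17 r0_3 (nat_lit 0) (nat_lit 0) (nat_lit 0) (nat_lit 0x7faf4f9e4) (nat_lit 1079113724),
  Rx.mk (nat_lit 507) (nat_lit 3) (nat_lit 7) (nat_lit 7) (nat_lit 7) (nat_lit 18) (nat_lit 2) r0_18 r0_2 (nat_lit 0) (nat_lit 0) (nat_lit 0) (nat_lit 0x72bc9c29e) (nat_lit 1294943824),
  Rx.mk (nat_lit 511) (nat_lit 7) (nat_lit 7) (nat_lit 7) (nat_lit 7) (nat_lit 19) (nat_lit 1) r0_19 r0_1 (nat_lit 0) (nat_lit 0) (nat_lit 0) (nat_lit 0x75d7e4c92) (nat_lit 1243130024)]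
noncomputable def e12_13 : List Rx := [
  Rx.mk (nat_lit 2) (nat_lit 2) (nat_lit 0) (nat_lit 0) (nat_lit 1) (nat_lit 100) (nat_lit 96) r0_100 r7_96 (nat_lit 0) (nat_lit 12742526) (nat_lit 16582240) (nat_lit 0x6135e2f48) (nat_lit 1616501090),
  Rx.mk (nat_lit 18) (nat_lit 2) (nat_lit 2) (nat_lit 0) (nat_lit 3) (nat_lit 101) (nat_lit 99) r0_101 r7_99 (nat_lit 0) (nat_lit 0) (nat_lit 2775314) (nat_lit 0x6ed474154) (nat_lit 1362877338),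
  Rx.mk (nat_lit 146) (nat_lit 2) (nat_lit 2) (nat_lit 2) (nat_lit 7) (nat_lit 102) (nat_lit 101) r0_102 r7_101 (nat_lit 0) (nat_lit 0) (nat_lit 0) (nat_lit 0x7f8d00f78) (nat_lit 1081343624),
  Rx.mk (nat_lit 150) (nat_lit 6) (nat_lit 2) (nat_lit 2) (nat_lit 7) (nat_lit 103) (nat_lit 102) r0_103 r7_102 (nat_lit 0) (nat_lit 0) (nat_lit 0) (nat_lit 0x80029938e) (nat_lit 1073741824),
  Rx.mk (nat_lit 182) (nat_lit 6) (nat_lit 6) (nat_lit 2) (nat_lit 7) (nat_lit 104) (nat_lit 103) r0_104 r7_103 (nat_lit 0) (nat_lit 0) (nat_lit 0) (nat_lit 0x7ff7bb07a) (nat_lit 1074439424),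
  Rx.mk (nat_lit 192) (nat_lit 0) (nat_lit 0) (nat_lit 3) (nat_lit 4) (nat_lit 105) (nat_lit 93) r0_105 r7_93 (nat_lit 146838) (nat_lit 747955) (nat_lit 0) (nat_lit 0x5e9ce2aac) (nat_lit 1631332817),
  Rx.mk (nat_lit 194) (nat_lit 2) (nat_lit 0) (nat_lit 3) (nat_lit 5) (nat_lit 106) (nat_lit 97) r0_106 r7_97 (nat_lit 0) (nat_lit 26061368) (nat_lit 0) (nat_lit 0x7f3c3650c) (nat_lit 1112650392),
  Rx.mk (nat_lit 210) (nat_lit 2) (nat_lit 2) (nat_lit 3) (nat_lit 7) (nat_lit 107) (nat_lit 100) r0_107 r7_100 (nat_lit 0) (nat_lit 0) (nat_lit 0) (nat_lit 0x7fecaec36) (nat_lit 1075148224),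
  Rx.mk (nat_lit 216) (nat_lit 0) (nat_lit 3) (nat_lit 3) (nat_lit 6) (nat_lit 108) (nat_lit 94) r0_108 r7_94 (nat_lit 4219351) (nat_lit 0) (nat_lit 0) (nat_lit 0x735136a1c) (nat_lit 1289505675),
  Rx.mk (nat_lit 218) (nat_lit 2) (nat_lit 3) (nat_lit 3) (nat_lit 7) (nat_lit 109) (nat_lit 98) r0_109 r7_98 (nat_lit 0) (nat_lit 0) (nat_lit 0) (nat_lit 0x7ff9f25aa) (nat_lit 1074297324),
  Rx.mk (nat_lit 219) (nat_lit 3) (nat_lit 3) (nat_lit 3) (nat_lit 7) (nat_lit 110) (nat_lit 95) r0_110 r7_95 (nat_lit 0) (nat_lit 0) (nat_lit 0) (nat_lit 0x7ff997768) (nat_lit 1074319724)]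
noncomputable def e12_14 : List Rx := [
  Rx.mk (nat_lit 150) (nat_lit 6) (nat_lit 2) (nat_lit 2) (nat_lit 7) (nat_lit 20) (nat_lit 9) r0_20 r1_9 (nat_lit 0) (nat_lit 0) (nat_lit 0) (nat_lit 0x7ffd4488e) (nat_lit 1074080924),
  Rx.mk (nat_lit 182) (nat_lit 6) (nat_lit 6) (nat_lit 2) (nat_lit 7) (nat_lit 21) (nat_lit 8) r0_21 r1_8 (nat_lit 0) (nat_lit 0) (nat_lit 0) (nat_lit 0x801ae09f6) (nat_lit 1072185524),
  Rx.mk (nat_lit 319) (nat_lit 7) (nat_lit 7) (nat_lit 4) (nat_lit 3) (nat_lit 22) (nat_lit 0) r0_22 r1_0 (nat_lit 0) (nat_lit 0) (nat_lit 3533431) (nat_lit 0x7556e8ecc) (nat_lit 1255098455),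
  Rx.mk (nat_lit 420) (nat_lit 4) (nat_lit 4) (nat_lit 6) (nat_lit 4) (nat_lit 23) (nat_lit 2) r0_23 r1_2 (nat_lit 718420) (nat_lit 1455550) (nat_lit 0) (nat_lit 0x6a3efe8ee) (nat_lit 1438693294),
  Rx.mk (nat_lit 423) (nat_lit 7) (nat_lit 4) (nat_lit 6) (nat_lit 5) (nat_lit 24) (nat_lit 3) r0_24 r1_3 (nat_lit 0) (nat_lit 3519261) (nat_lit 0) (nat_lit 0x7fe91f23c) (nat_lit 1078893085),
  Rx.mk (nat_lit 436) (nat_lit 4) (nat_lit 6) (nat_lit 6) (nat_lit 6) (nat_lit 25) (nat_lit 5) r0_25 r1_5 (nat_lit 1321792) (nat_lit 0) (nat_lit 0) (nat_lit 0x7eac0b5f4) (nat_lit 1097321716),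
  Rx.mk (nat_lit 438) (nat_lit 6) (nat_lit 6) (nat_lit 6) (nat_lit 7) (nat_lit 26) (nat_lit 7) r0_26 r1_7 (nat_lit 0) (nat_lit 0) (nat_lit 0) (nat_lit 0x8024ca822) (nat_lit 1071553224),
  Rx.mk (nat_lit 439) (nat_lit 7) (nat_lit 6) (nat_lit 6) (nat_lit 7) (nat_lit 27) (nat_lit 6) r0_27 r1_6 (nat_lit 0) (nat_lit 0) (nat_lit 0) (nat_lit 0x8026ace56) (nat_lit 1071433124),
  Rx.mk (nat_lit 447) (nat_lit 7) (nat_lit 7) (nat_lit 6) (nat_lit 7) (nat_lit 28) (nat_lit 4) r0_28 r1_4 (nat_lit 0) (nat_lit 0) (nat_lit 0) (nat_lit 0x8b4469ad8) (nat_lit 891617424),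
  Rx.mk (nat_lit 511) (nat_lit 7) (nat_lit 7) (nat_lit 7) (nat_lit 7) (nat_lit 29) (nat_lit 1) r0_29 r1_1 (nat_lit 0) (nat_lit 0) (nat_lit 0) (nat_lit 0x80f88a298) (nat_lit 1058137724)]
noncomputable def e12_15 : List Rx := [
  Rx.mk (nat_lit 150) (nat_lit 6) (nat_lit 2) (nat_lit 2) (nat_lit 7) (nat_lit 139) (nat_lit 76) r0_139 r8_76 (nat_lit 0) (nat_lit 0) (nat_lit 0) (nat_lit 0x80000a14a) (nat_lit 1073905924),
  Rx.mk (nat_lit 182) (nat_lit 6) (nat_lit 6) (nat_lit 2) (nat_lit 7) (nat_lit 140) (nat_lit 77) r0_140 r8_77 (nat_lit 0) (nat_lit 0) (nat_lit 0) (nat_lit 0x7ffc024da) (nat_lit 1074164524)]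
noncomputable def e12_16 : List Rx := [
  Rx.mk (nat_lit 0) (nat_lit 0) (nat_lit 0) (nat_lit 0) (nat_lit 0) (nat_lit 124) (nat_lit 0) r0_124 r8_0 (nat_lit 875647) (nat_lit 19583288) (nat_lit 769730) (nat_lit 0x2e4eda24a) (nat_lit 2457082489),
  Rx.mk (nat_lit 2) (nat_lit 2) (nat_lit 0) (nat_lit 0) (nat_lit 1) (nat_lit 125) (nat_lit 1) r0_125 r8_1 (nat_lit 0) (nat_lit 6110955) (nat_lit 6920669) (nat_lit 0x5c1df8e8c) (nat_lit 1685132748),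
  Rx.mk (nat_lit 18) (nat_lit 2) (nat_lit 2) (nat_lit 0) (nat_lit 3) (nat_lit 126) (nat_lit 2) r0_126 r8_2 (nat_lit 0) (nat_lit 0) (nat_lit 3304366) (nat_lit 0x7121ef044) (nat_lit 1325017390),
  Rx.mk (nat_lit 64) (nat_lit 0) (nat_lit 0) (nat_lit 1) (nat_lit 4) (nat_lit 127) (nat_lit 3) r0_127 r8_3 (nat_lit 5177292) (nat_lit 10202902) (nat_lit 0) (nat_lit 0x5a407c046) (nat_lit 1718579418),
  Rx.mk (nat_lit 66) (nat_lit 2) (nat_lit 0) (nat_lit 1) (nat_lit 5) (nat_lit 128) (nat_lit 4) r0_128 r8_4 (nat_lit 0) (nat_lit 7519074) (nat_lit 0) (nat_lit 0x7f790236e) (nat_lit 1090159298),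
  Rx.mk (nat_lit 82) (nat_lit 2) (nat_lit 2) (nat_lit 1) (nat_lit 7) (nat_lit 129) (nat_lit 5) r0_129 r8_5 (nat_lit 0) (nat_lit 0) (nat_lit 0) (nat_lit 0x7ff585e22) (nat_lit 1074580824),
  Rx.mk (nat_lit 146) (nat_lit 2) (nat_lit 2) (nat_lit 2) (nat_lit 7) (nat_lit 130) (nat_lit 14) r0_130 r8_14 (nat_lit 0) (nat_lit 0) (nat_lit 0) (nat_lit 0x7fe8c0fac) (nat_lit 1075405124),
  Rx.mk (nat_lit 150) (nat_lit 6) (nat_lit 2) (nat_lit 2) (nat_lit 7) (nat_lit 131) (nat_lit 13) r0_131 r8_13 (nat_lit 0) (nat_lit 0) (nat_lit 0) (nat_lit 0x80000807a) (nat_lit 1073906424),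
  Rx.mk (nat_lit 182) (nat_lit 6) (nat_lit 6) (nat_lit 2) (nat_lit 7) (nat_lit 132) (nat_lit 12) r0_132 r8_12 (nat_lit 0) (nat_lit 0) (nat_lit 0) (nat_lit 0x7ffea679a) (nat_lit 1073995024),
  Rx.mk (nat_lit 192) (nat_lit 0) (nat_lit 0) (nat_lit 3) (nat_lit 4) (nat_lit 133) (nat_lit 6) r0_133 r8_6 (nat_lit 11768288) (nat_lit 19041550) (nat_lit 0) (nat_lit 0x59527f2bc) (nat_lit 1749505762),
  Rx.mk (nat_lit 194) (nat_lit 2) (nat_lit 0) (nat_lit 3) (nat_lit 5) (nat_lit 134) (nat_lit 7) r0_134 r8_7 (nat_lit 0) (nat_lit 11254699) (nat_lit 0) (nat_lit 0x7f97706d4) (nat_lit 1091919323),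
  Rx.mk (nat_lit 210) (nat_lit 2) (nat_lit 2) (nat_lit 3) (nat_lit 7) (nat_lit 135) (nat_lit 11) r0_135 r8_11 (nat_lit 0) (nat_lit 0) (nat_lit 0) (nat_lit 0x7ff7f4f0a) (nat_lit 1074424424),
  Rx.mk (nat_lit 216) (nat_lit 0) (nat_lit 3) (nat_lit 3) (nat_lit 6) (nat_lit 136) (nat_lit 8) r0_136 r8_8 (nat_lit 8974417) (nat_lit 0) (nat_lit 0) (nat_lit 0x79570f6e0) (nat_lit 1193845041),
  Rx.mk (nat_lit 218) (nat_lit 2) (nat_lit 3) (nat_lit 3) (nat_lit 7) (nat_lit 137) (nat_lit 10) r0_137 r8_10 (nat_lit 0) (nat_lit 0) (nat_lit 0) (nat_lit 0x80029938e) (nat_lit 1073741824),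
  Rx.mk (nat_lit 219) (nat_lit 3) (nat_lit 3) (nat_lit 3) (nat_lit 7) (nat_lit 138) (nat_lit 9) r0_138 r8_9 (nat_lit 0) (nat_lit 0) (nat_lit 0) (nat_lit 0x80029938e) (nat_lit 1073741824)]
noncomputable def e12_17 : List Rx := [
  Rx.mk (nat_lit 64) (nat_lit 0) (nat_lit 0) (nat_lit 1) (nat_lit 4) (nat_lit 262) (nat_lit 65) r0_262 r9_65 (nat_lit 10235647) (nat_lit 33337572) (nat_lit 0) (nat_lit 0x56d0f2f2a) (nat_lit 1804056343),
  Rx.mk (nat_lit 66) (nat_lit 2) (nat_lit 0) (nat_lit 1) (nat_lit 5) (nat_lit 263) (nat_lit 66) r0_263 r9_66 (nat_lit 0) (nat_lit 7516292) (nat_lit 0) (nat_lit 0x7ed45a2a8) (nat_lit 1100866916),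
  Rx.mk (nat_lit 82) (nat_lit 2) (nat_lit 2) (nat_lit 1) (nat_lit 7) (nat_lit 264) (nat_lit 67) r0_264 r9_67 (nat_lit 0) (nat_lit 0) (nat_lit 0) (nat_lit 0x7fff5bfe6) (nat_lit 1073949524)]
noncomputable def e12_18 : List Rx := [
  Rx.mk (nat_lit 192) (nat_lit 0) (nat_lit 0) (nat_lit 3) (nat_lit 4) (nat_lit 52) (nat_lit 8) r0_52 r4_8 (nat_lit 1880334) (nat_lit 24902759) (nat_lit 0) (nat_lit 0x65a2917c6) (nat_lit 1540179317),
  Rx.mk (nat_lit 194) (nat_lit 2) (nat_lit 0) (nat_lit 3) (nat_lit 5) (nat_lit 53) (nat_lit 9) r0_53 r4_9 (nat_lit 0) (nat_lit 8072366) (nat_lit 0) (nat_lit 0x752013154) (nat_lit 1263210890),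
  Rx.mk (nat_lit 210) (nat_lit 2) (nat_lit 2) (nat_lit 3) (nat_lit 7) (nat_lit 54) (nat_lit 12) r0_54 r4_12 (nat_lit 0) (nat_lit 0) (nat_lit 0) (nat_lit 0x7b2096062) (nat_lit 1155059824),
  Rx.mk (nat_lit 216) (nat_lit 0) (nat_lit 3) (nat_lit 3) (nat_lit 6) (nat_lit 55) (nat_lit 10) r0_55 r4_10 (nat_lit 2516625) (nat_lit 0) (nat_lit 0) (nat_lit 0x7f8893454) (nat_lit 1084144949),
  Rx.mk (nat_lit 218) (nat_lit 2) (nat_lit 3) (nat_lit 3) (nat_lit 7) (nat_lit 56) (nat_lit 11) r0_56 r4_11 (nat_lit 0) (nat_lit 0) (nat_lit 0) (nat_lit 0x803412cb2) (nat_lit 1070579024),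
  Rx.mk (nat_lit 315) (nat_lit 3) (nat_lit 7) (nat_lit 4) (nat_lit 3) (nat_lit 57) (nat_lit 1) r0_57 r4_1 (nat_lit 0) (nat_lit 0) (nat_lit 2745228) (nat_lit 0x7f3da6c7a) (nat_lit 1089236952),
  Rx.mk (nat_lit 319) (nat_lit 7) (nat_lit 7) (nat_lit 4) (nat_lit 3) (nat_lit 58) (nat_lit 0) r0_58 r4_0 (nat_lit 0) (nat_lit 0) (nat_lit 1489124) (nat_lit 0x6dffcb254) (nat_lit 1375427948),
  Rx.mk (nat_lit 423) (nat_lit 7) (nat_lit 4) (nat_lit 6) (nat_lit 5) (nat_lit 59) (nat_lit 5) r0_59 r4_5 (nat_lit 0) (nat_lit 89886997) (nat_lit 0) (nat_lit 0x7c8a3bb06) (nat_lit 1221401321),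
  Rx.mk (nat_lit 439) (nat_lit 7) (nat_lit 6) (nat_lit 6) (nat_lit 7) (nat_lit 60) (nat_lit 7) r0_60 r4_7 (nat_lit 0) (nat_lit 0) (nat_lit 0) (nat_lit 0x7fe2c17aa) (nat_lit 1075787224),
  Rx.mk (nat_lit 447) (nat_lit 7) (nat_lit 7) (nat_lit 6) (nat_lit 7) (nat_lit 61) (nat_lit 6) r0_61 r4_6 (nat_lit 0) (nat_lit 0) (nat_lit 0) (nat_lit 0x7ff4a1d08) (nat_lit 1074622024),
  Rx.mk (nat_lit 472) (nat_lit 0) (nat_lit 3) (nat_lit 7) (nat_lit 6) (nat_lit 62) (nat_lit 3) r0_62 r4_3 (nat_lit 2627169) (nat_lit 0) (nat_lit 0) (nat_lit 0x8020258c6) (nat_lit 1074474693),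
  Rx.mk (nat_lit 475) (nat_lit 3) (nat_lit 3) (nat_lit 7) (nat_lit 7) (nat_lit 63) (nat_lit 4) r0_63 r4_4 (nat_lit 0) (nat_lit 0) (nat_lit 0) (nat_lit 0x803b1537a) (nat_lit 1070132924),
  Rx.mk (nat_lit 507) (nat_lit 3) (nat_lit 7) (nat_lit 7) (nat_lit 7) (nat_lit 64) (nat_lit 2) r0_64 r4_2 (nat_lit 0) (nat_lit 0) (nat_lit 0) (nat_lit 0x805002b84) (nat_lit 1068799624)]
noncomputable def e12_19 : List Rx := [
  Rx.mk (nat_lit 192) (nat_lit 0) (nat_lit 0) (nat_lit 3) (nat_lit 4) (nat_lit 147) (nat_lit 77) r0_147 r10_77 (nat_lit 163852) (nat_lit 530643) (nat_lit 0) (nat_lit 0x5f682fdf4) (nat_lit 1617894919),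
  Rx.mk (nat_lit 194) (nat_lit 2) (nat_lit 0) (nat_lit 3) (nat_lit 5) (nat_lit 148) (nat_lit 79) r0_148 r10_79 (nat_lit 0) (nat_lit 10021103) (nat_lit 0) (nat_lit 0x7fa58a3fa) (nat_lit 1089765427),
  Rx.mk (nat_lit 210) (nat_lit 2) (nat_lit 2) (nat_lit 3) (nat_lit 7) (nat_lit 149) (nat_lit 81) r0_149 r10_81 (nat_lit 0) (nat_lit 0) (nat_lit 0) (nat_lit 0x7ff4c343a) (nat_lit 1074628924),
  Rx.mk (nat_lit 216) (nat_lit 0) (nat_lit 3) (nat_lit 3) (nat_lit 6) (nat_lit 150) (nat_lit 78) r0_150 r10_78 (nat_lit 4695397) (nat_lit 0) (nat_lit 0) (nat_lit 0x71f87d494) (nat_lit 1312433921),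
  Rx.mk (nat_lit 218) (nat_lit 2) (nat_lit 3) (nat_lit 3) (nat_lit 7) (nat_lit 151) (nat_lit 80) r0_151 r10_80 (nat_lit 0) (nat_lit 0) (nat_lit 0) (nat_lit 0x7ff9f480a) (nat_lit 1074296824)]
noncomputable def e12_20 : List Rx := [
  Rx.mk (nat_lit 192) (nat_lit 0) (nat_lit 0) (nat_lit 3) (nat_lit 4) (nat_lit 212) (nat_lit 91) r0_212 r11_91 (nat_lit 4290635) (nat_lit 177359743) (nat_lit 0) (nat_lit 0x71206e3fa) (nat_lit 1503455502),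
  Rx.mk (nat_lit 194) (nat_lit 2) (nat_lit 0) (nat_lit 3) (nat_lit 5) (nat_lit 213) (nat_lit 97) r0_213 r11_97 (nat_lit 0) (nat_lit 55284396) (nat_lit 0) (nat_lit 0x7f832bb06) (nat_lit 1137266720),
  Rx.mk (nat_lit 210) (nat_lit 2) (nat_lit 2) (nat_lit 3) (nat_lit 7) (nat_lit 214) (nat_lit 98) r0_214 r11_98 (nat_lit 0) (nat_lit 0) (nat_lit 0) (nat_lit 0x805932ed4) (nat_lit 1068212724),
  Rx.mk (nat_lit 283) (nat_lit 3) (nat_lit 3) (nat_lit 4) (nat_lit 3) (nat_lit 215) (nat_lit 94) r0_215 r11_94 (nat_lit 0) (nat_lit 0) (nat_lit 2667019) (nat_lit 0x7fbf39062) (nat_lit 1080746543),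
  Rx.mk (nat_lit 315) (nat_lit 3) (nat_lit 7) (nat_lit 4) (nat_lit 3) (nat_lit 216) (nat_lit 96) r0_216 r11_96 (nat_lit 0) (nat_lit 0) (nat_lit 2261537) (nat_lit 0x802c51546) (nat_lit 1073330661),
  Rx.mk (nat_lit 319) (nat_lit 7) (nat_lit 7) (nat_lit 4) (nat_lit 3) (nat_lit 217) (nat_lit 99) r0_217 r11_99 (nat_lit 0) (nat_lit 0) (nat_lit 2191612) (nat_lit 0x7ea5f8ebe) (nat_lit 1098552836),
  Rx.mk (nat_lit 447) (nat_lit 7) (nat_lit 7) (nat_lit 6) (nat_lit 7) (nat_lit 218) (nat_lit 100) r0_218 r11_100 (nat_lit 0) (nat_lit 0) (nat_lit 0) (nat_lit 0x80fd022a8) (nat_lit 1057853824),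
  Rx.mk (nat_lit 448) (nat_lit 0) (nat_lit 0) (nat_lit 7) (nat_lit 4) (nat_lit 219) (nat_lit 92) r0_219 r11_92 (nat_lit 1327087) (nat_lit 1515078) (nat_lit 0) (nat_lit 0x70dac8bde) (nat_lit 1329174389),
  Rx.mk (nat_lit 472) (nat_lit 0) (nat_lit 3) (nat_lit 7) (nat_lit 6) (nat_lit 220) (nat_lit 93) r0_220 r11_93 (nat_lit 2711268) (nat_lit 0) (nat_lit 0) (nat_lit 0x8030259d8) (nat_lit 1073539392),
  Rx.mk (nat_lit 475) (nat_lit 3) (nat_lit 3) (nat_lit 7) (nat_lit 7) (nat_lit 221) (nat_lit 95) r0_221 r11_95 (nat_lit 0) (nat_lit 0) (nat_lit 0) (nat_lit 0x8024ca5ca) (nat_lit 1071555724)]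
noncomputable def e12_21 : List Rx := [
  Rx.mk (nat_lit 64) (nat_lit 0) (nat_lit 0) (nat_lit 1) (nat_lit 4) (nat_lit 257) (nat_lit 155) r0_257 r9_155 (nat_lit 14069634) (nat_lit 6905727) (nat_lit 0) (nat_lit 0x4c6cacf20) (nat_lit 1954719885),
  Rx.mk (nat_lit 66) (nat_lit 2) (nat_lit 0) (nat_lit 1) (nat_lit 5) (nat_lit 258) (nat_lit 156) r0_258 r9_156 (nat_lit 0) (nat_lit 5858494) (nat_lit 0) (nat_lit 0x7eeecaa20) (nat_lit 1097492218),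
  Rx.mk (nat_lit 72) (nat_lit 0) (nat_lit 1) (nat_lit 1) (nat_lit 6) (nat_lit 259) (nat_lit 157) r0_259 r9_157 (nat_lit 6147522) (nat_lit 0) (nat_lit 0) (nat_lit 0x74233b2ba) (nat_lit 1277762346),
  Rx.mk (nat_lit 74) (nat_lit 2) (nat_lit 1) (nat_lit 1) (nat_lit 7) (nat_lit 260) (nat_lit 158) r0_260 r9_158 (nat_lit 0) (nat_lit 0) (nat_lit 0) (nat_lit 0x80003986e) (nat_lit 1073894024),
  Rx.mk (nat_lit 82) (nat_lit 2) (nat_lit 2) (nat_lit 1) (nat_lit 7) (nat_lit 261) (nat_lit 159) r0_261 r9_159 (nat_lit 0) (nat_lit 0) (nat_lit 0) (nat_lit 0x80029938e) (nat_lit 1073741824)]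
noncomputable def e12_22 : List Rx := [
  Rx.mk (nat_lit 265) (nat_lit 1) (nat_lit 1) (nat_lit 4) (nat_lit 3) (nat_lit 243) (nat_lit 243) r0_243 r0_243 (nat_lit 0) (nat_lit 0) (nat_lit 736921767) (nat_lit 0x81ec2d8dc) (nat_lit 1779574791),
  Rx.mk (nat_lit 320) (nat_lit 0) (nat_lit 0) (nat_lit 5) (nat_lit 4) (nat_lit 244) (nat_lit 244) r0_244 r0_244 (nat_lit 52004105) (nat_lit 52004105) (nat_lit 0) (nat_lit 0x672fac010) (nat_lit 1591547034),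
  Rx.mk (nat_lit 321) (nat_lit 1) (nat_lit 0) (nat_lit 5) (nat_lit 5) (nat_lit 245) (nat_lit 246) r0_245 r0_246 (nat_lit 0) (nat_lit 3572987) (nat_lit 0) (nat_lit 0x786934ede) (nat_lit 1203930011),
  Rx.mk (nat_lit 328) (nat_lit 0) (nat_lit 1) (nat_lit 5) (nat_lit 6) (nat_lit 246) (nat_lit 245) r0_246 r0_245 (nat_lit 3572987) (nat_lit 0) (nat_lit 0) (nat_lit 0x786934ede) (nat_lit 1203930011),
  Rx.mk (nat_lit 329) (nat_lit 1) (nat_lit 1) (nat_lit 5) (nat_lit 7) (nat_lit 247) (nat_lit 247) r0_247 r0_247 (nat_lit 0) (nat_lit 0) (nat_lit 0) (nat_lit 0x7fbc5bdb8) (nat_lit 1078269524)]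
noncomputable def e12_23 : List Rx := [
  Rx.mk (nat_lit 265) (nat_lit 1) (nat_lit 1) (nat_lit 4) (nat_lit 3) (nat_lit 282) (nat_lit 252) r0_282 r1_252 (nat_lit 0) (nat_lit 0) (nat_lit 821343463) (nat_lit 0x7fffe9b52) (nat_lit 1895092387),
  Rx.mk (nat_lit 328) (nat_lit 0) (nat_lit 1) (nat_lit 5) (nat_lit 6) (nat_lit 283) (nat_lit 253) r0_283 r1_253 (nat_lit 4606623) (nat_lit 0) (nat_lit 0) (nat_lit 0x7ce19384a) (nat_lit 1130436347),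
  Rx.mk (nat_lit 329) (nat_lit 1) (nat_lit 1) (nat_lit 5) (nat_lit 7) (nat_lit 284) (nat_lit 254) r0_284 r1_254 (nat_lit 0) (nat_lit 0) (nat_lit 0) (nat_lit 0x7fab68344) (nat_lit 1079366724)]
noncomputable def e12_24 : List Rx := [
  Rx.mk (nat_lit 257) (nat_lit 1) (nat_lit 0) (nat_lit 4) (nat_lit 1) (nat_lit 306) (nat_lit 253) r0_306 r4_253 (nat_lit 0) (nat_lit 2254859) (nat_lit 109994147) (nat_lit 0x721a33c50) (nat_lit 1417787930),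
  Rx.mk (nat_lit 265) (nat_lit 1) (nat_lit 1) (nat_lit 4) (nat_lit 3) (nat_lit 307) (nat_lit 254) r0_307 r4_254 (nat_lit 0) (nat_lit 0) (nat_lit 456084292) (nat_lit 0x7d9d80ab2) (nat_lit 1569623716),
  Rx.mk (nat_lit 281) (nat_lit 1) (nat_lit 3) (nat_lit 4) (nat_lit 3) (nat_lit 308) (nat_lit 255) r0_308 r4_255 (nat_lit 0) (nat_lit 0) (nat_lit 7949593) (nat_lit 0x7febedd10) (nat_lit 1083145917),
  Rx.mk (nat_lit 320) (nat_lit 0) (nat_lit 0) (nat_lit 5) (nat_lit 4) (nat_lit 309) (nat_lit 256) r0_309 r4_256 (nat_lit 8118484) (nat_lit 89716582) (nat_lit 0) (nat_lit 0x6a154d77a) (nat_lit 1537072690),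
  Rx.mk (nat_lit 321) (nat_lit 1) (nat_lit 0) (nat_lit 5) (nat_lit 5) (nat_lit 310) (nat_lit 259) r0_310 r4_259 (nat_lit 0) (nat_lit 5728860) (nat_lit 0) (nat_lit 0x7fd6649a8) (nat_lit 1082310884),
  Rx.mk (nat_lit 328) (nat_lit 0) (nat_lit 1) (nat_lit 5) (nat_lit 6) (nat_lit 311) (nat_lit 257) r0_311 r4_257 (nat_lit 6336730) (nat_lit 0) (nat_lit 0) (nat_lit 0x7fe202792) (nat_lit 1082176554),
  Rx.mk (nat_lit 329) (nat_lit 1) (nat_lit 1) (nat_lit 5) (nat_lit 7) (nat_lit 312) (nat_lit 260) r0_312 r4_260 (nat_lit 0) (nat_lit 0) (nat_lit 0) (nat_lit 0x8029d9714) (nat_lit 1071230724),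
  Rx.mk (nat_lit 344) (nat_lit 0) (nat_lit 3) (nat_lit 5) (nat_lit 6) (nat_lit 313) (nat_lit 258) r0_313 r4_258 (nat_lit 3644892) (nat_lit 0) (nat_lit 0) (nat_lit 0x7fe25d200) (nat_lit 1079457116),
  Rx.mk (nat_lit 345) (nat_lit 1) (nat_lit 3) (nat_lit 5) (nat_lit 7) (nat_lit 314) (nat_lit 261) r0_314 r4_261 (nat_lit 0) (nat_lit 0) (nat_lit 0) (nat_lit 0x800cb83c4) (nat_lit 1073092924)]
noncomputable def e12_25 : List Rx := [
  Rx.mk (nat_lit 320) (nat_lit 0) (nat_lit 0) (nat_lit 5) (nat_lit 4) (nat_lit 250) (nat_lit 217) r0_250 r7_217 (nat_lit 3589306) (nat_lit 64066468) (nat_lit 0) (nat_lit 0x638142464) (nat_lit 1616568698),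
  Rx.mk (nat_lit 321) (nat_lit 1) (nat_lit 0) (nat_lit 5) (nat_lit 5) (nat_lit 251) (nat_lit 218) r0_251 r7_218 (nat_lit 0) (nat_lit 5828588) (nat_lit 0) (nat_lit 0x7fe5c8fd4) (nat_lit 1081422912),
  Rx.mk (nat_lit 328) (nat_lit 0) (nat_lit 1) (nat_lit 5) (nat_lit 6) (nat_lit 252) (nat_lit 219) r0_252 r7_219 (nat_lit 6173437) (nat_lit 0) (nat_lit 0) (nat_lit 0x7b5c8dc0a) (nat_lit 1157338461),
  Rx.mk (nat_lit 329) (nat_lit 1) (nat_lit 1) (nat_lit 5) (nat_lit 7) (nat_lit 253) (nat_lit 220) r0_253 r7_220 (nat_lit 0) (nat_lit 0) (nat_lit 0) (nat_lit 0x8018342e8) (nat_lit 1072357724)]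
noncomputable def e12_26 : List Rx := [
  Rx.mk (nat_lit 328) (nat_lit 0) (nat_lit 1) (nat_lit 5) (nat_lit 6) (nat_lit 289) (nat_lit 178) r0_289 r8_178 (nat_lit 6119961) (nat_lit 0) (nat_lit 0) (nat_lit 0x72392b252) (nat_lit 1309645085),
  Rx.mk (nat_lit 329) (nat_lit 1) (nat_lit 1) (nat_lit 5) (nat_lit 7) (nat_lit 290) (nat_lit 179) r0_290 r8_179 (nat_lit 0) (nat_lit 0) (nat_lit 0) (nat_lit 0x7ff99ecac) (nat_lit 1074318024)]
noncomputable def e12_27 : List Rx := [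
  Rx.mk (nat_lit 64) (nat_lit 0) (nat_lit 0) (nat_lit 1) (nat_lit 4) (nat_lit 271) (nat_lit 230) r0_271 r8_230 (nat_lit 10233960) (nat_lit 7556884) (nat_lit 0) (nat_lit 0x4f43b3c9c) (nat_lit 1904185068),
  Rx.mk (nat_lit 65) (nat_lit 1) (nat_lit 0) (nat_lit 1) (nat_lit 5) (nat_lit 272) (nat_lit 232) r0_272 r8_232 (nat_lit 0) (nat_lit 7909290) (nat_lit 0) (nat_lit 0x7a5a2401e) (nat_lit 1175906214),
  Rx.mk (nat_lit 66) (nat_lit 2) (nat_lit 0) (nat_lit 1) (nat_lit 5) (nat_lit 273) (nat_lit 234) r0_273 r8_234 (nat_lit 0) (nat_lit 6684980) (nat_lit 0) (nat_lit 0x7f181fd94) (nat_lit 1095629604),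
  Rx.mk (nat_lit 72) (nat_lit 0) (nat_lit 1) (nat_lit 1) (nat_lit 6) (nat_lit 274) (nat_lit 231) r0_274 r8_231 (nat_lit 7503020) (nat_lit 0) (nat_lit 0) (nat_lit 0x6d6ab5fac) (nat_lit 1391167544),
  Rx.mk (nat_lit 73) (nat_lit 1) (nat_lit 1) (nat_lit 1) (nat_lit 7) (nat_lit 275) (nat_lit 233) r0_275 r8_233 (nat_lit 0) (nat_lit 0) (nat_lit 0) (nat_lit 0x7fcefe272) (nat_lit 1077071724),
  Rx.mk (nat_lit 74) (nat_lit 2) (nat_lit 1) (nat_lit 1) (nat_lit 7) (nat_lit 276) (nat_lit 235) r0_276 r8_235 (nat_lit 0) (nat_lit 0) (nat_lit 0) (nat_lit 0x80001f996) (nat_lit 1073900524),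
  Rx.mk (nat_lit 82) (nat_lit 2) (nat_lit 2) (nat_lit 1) (nat_lit 7) (nat_lit 277) (nat_lit 236) r0_277 r8_236 (nat_lit 0) (nat_lit 0) (nat_lit 0) (nat_lit 0x80029938e) (nat_lit 1073741824),
  Rx.mk (nat_lit 320) (nat_lit 0) (nat_lit 0) (nat_lit 5) (nat_lit 4) (nat_lit 278) (nat_lit 237) r0_278 r8_237 (nat_lit 3003976) (nat_lit 8414272) (nat_lit 0) (nat_lit 0x59cd441c8) (nat_lit 1722113272),
  Rx.mk (nat_lit 321) (nat_lit 1) (nat_lit 0) (nat_lit 5) (nat_lit 5) (nat_lit 279) (nat_lit 239) r0_279 r8_239 (nat_lit 0) (nat_lit 5449534) (nat_lit 0) (nat_lit 0x7f7c3426c) (nat_lit 1087884558),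
  Rx.mk (nat_lit 328) (nat_lit 0) (nat_lit 1) (nat_lit 5) (nat_lit 6) (nat_lit 280) (nat_lit 238) r0_280 r8_238 (nat_lit 5951502) (nat_lit 0) (nat_lit 0) (nat_lit 0x73924f6f2) (nat_lit 1286998026),
  Rx.mk (nat_lit 329) (nat_lit 1) (nat_lit 1) (nat_lit 5) (nat_lit 7) (nat_lit 281) (nat_lit 240) r0_281 r8_240 (nat_lit 0) (nat_lit 0) (nat_lit 0) (nat_lit 0x800f47324) (nat_lit 1072928224)]
noncomputable def e12_28 : List Rx := [
  Rx.mk (nat_lit 320) (nat_lit 0) (nat_lit 0) (nat_lit 5) (nat_lit 4) (nat_lit 322) (nat_lit 166) r0_322 r10_166 (nat_lit 2141139) (nat_lit 31804169) (nat_lit 0) (nat_lit 0x67d4791ec) (nat_lit 1510741932),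
  Rx.mk (nat_lit 321) (nat_lit 1) (nat_lit 0) (nat_lit 5) (nat_lit 5) (nat_lit 323) (nat_lit 167) r0_323 r10_167 (nat_lit 0) (nat_lit 6626663) (nat_lit 0) (nat_lit 0x7fd2b1cde) (nat_lit 1083457587),
  Rx.mk (nat_lit 328) (nat_lit 0) (nat_lit 1) (nat_lit 5) (nat_lit 6) (nat_lit 324) (nat_lit 168) r0_324 r10_168 (nat_lit 6250628) (nat_lit 0) (nat_lit 0) (nat_lit 0x7fcba2f38) (nat_lit 1083536252),
  Rx.mk (nat_lit 329) (nat_lit 1) (nat_lit 1) (nat_lit 5) (nat_lit 7) (nat_lit 325) (nat_lit 169) r0_325 r10_169 (nat_lit 0) (nat_lit 0) (nat_lit 0) (nat_lit 0x80131f6b8) (nat_lit 1072683424),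
  Rx.mk (nat_lit 344) (nat_lit 0) (nat_lit 3) (nat_lit 5) (nat_lit 6) (nat_lit 326) (nat_lit 170) r0_326 r10_170 (nat_lit 5230327) (nat_lit 0) (nat_lit 0) (nat_lit 0x7f655899e) (nat_lit 1089155351),
  Rx.mk (nat_lit 345) (nat_lit 1) (nat_lit 3) (nat_lit 5) (nat_lit 7) (nat_lit 327) (nat_lit 171) r0_327 r10_171 (nat_lit 0) (nat_lit 0) (nat_lit 0) (nat_lit 0x80029938e) (nat_lit 1073741824)]
noncomputable def e12_29 : List Rx := [
  Rx.mk (nat_lit 256) (nat_lit 0) (nat_lit 0) (nat_lit 4) (nat_lit 0) (nat_lit 342) (nat_lit 165) r0_342 r11_165 (nat_lit 10268755) (nat_lit 18458944) (nat_lit 3852129) (nat_lit 0x51ec2bbde) (nat_lit 1874651452),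
  Rx.mk (nat_lit 257) (nat_lit 1) (nat_lit 0) (nat_lit 4) (nat_lit 1) (nat_lit 343) (nat_lit 168) r0_343 r11_168 (nat_lit 0) (nat_lit 7934940) (nat_lit 194126458) (nat_lit 0x7dfec5c32) (nat_lit 1309321022),
  Rx.mk (nat_lit 264) (nat_lit 0) (nat_lit 1) (nat_lit 4) (nat_lit 2) (nat_lit 344) (nat_lit 171) r0_344 r11_171 (nat_lit 7896501) (nat_lit 0) (nat_lit 118564749) (nat_lit 0x78f0aaa94) (nat_lit 1317996874),
  Rx.mk (nat_lit 265) (nat_lit 1) (nat_lit 1) (nat_lit 4) (nat_lit 3) (nat_lit 345) (nat_lit 174) r0_345 r11_174 (nat_lit 0) (nat_lit 0) (nat_lit 172668765) (nat_lit 0x7f52725c8) (nat_lit 1257804589),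
  Rx.mk (nat_lit 280) (nat_lit 0) (nat_lit 3) (nat_lit 4) (nat_lit 2) (nat_lit 346) (nat_lit 177) r0_346 r11_177 (nat_lit 8056051) (nat_lit 0) (nat_lit 7452897) (nat_lit 0x7322e451a) (nat_lit 1303815772),
  Rx.mk (nat_lit 281) (nat_lit 1) (nat_lit 3) (nat_lit 4) (nat_lit 3) (nat_lit 347) (nat_lit 179) r0_347 r11_179 (nat_lit 0) (nat_lit 0) (nat_lit 5449534) (nat_lit 0x8024d3526) (nat_lit 1077000758),
  Rx.mk (nat_lit 283) (nat_lit 3) (nat_lit 3) (nat_lit 4) (nat_lit 3) (nat_lit 348) (nat_lit 181) r0_348 r11_181 (nat_lit 0) (nat_lit 0) (nat_lit 5449534) (nat_lit 0x7fd37cdd0) (nat_lit 1082223658),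
  Rx.mk (nat_lit 320) (nat_lit 0) (nat_lit 0) (nat_lit 5) (nat_lit 4) (nat_lit 349) (nat_lit 166) r0_349 r11_166 (nat_lit 5119836) (nat_lit 249448811) (nat_lit 0) (nat_lit 0x7cd98d3b2) (nat_lit 1380926471),
  Rx.mk (nat_lit 321) (nat_lit 1) (nat_lit 0) (nat_lit 5) (nat_lit 5) (nat_lit 350) (nat_lit 169) r0_350 r11_169 (nat_lit 0) (nat_lit 5782474) (nat_lit 0) (nat_lit 0x7ffaf2f18) (nat_lit 1080015398),
  Rx.mk (nat_lit 328) (nat_lit 0) (nat_lit 1) (nat_lit 5) (nat_lit 6) (nat_lit 351) (nat_lit 172) r0_351 r11_172 (nat_lit 5449534) (nat_lit 0) (nat_lit 0) (nat_lit 0x80029938e) (nat_lit 1079191358),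
  Rx.mk (nat_lit 329) (nat_lit 1) (nat_lit 1) (nat_lit 5) (nat_lit 7) (nat_lit 352) (nat_lit 175) r0_352 r11_175 (nat_lit 0) (nat_lit 0) (nat_lit 0) (nat_lit 0x800c523a8) (nat_lit 1073118624),
  Rx.mk (nat_lit 344) (nat_lit 0) (nat_lit 3) (nat_lit 5) (nat_lit 6) (nat_lit 353) (nat_lit 178) r0_353 r11_178 (nat_lit 4354585) (nat_lit 0) (nat_lit 0) (nat_lit 0x800b09e74) (nat_lit 1077554409),
  Rx.mk (nat_lit 345) (nat_lit 1) (nat_lit 3) (nat_lit 5) (nat_lit 7) (nat_lit 354) (nat_lit 180) r0_354 r11_180 (nat_lit 0) (nat_lit 0) (nat_lit 0) (nat_lit 0x80029938e) (nat_lit 1073741824),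
  Rx.mk (nat_lit 347) (nat_lit 3) (nat_lit 3) (nat_lit 5) (nat_lit 7) (nat_lit 355) (nat_lit 182) r0_355 r11_182 (nat_lit 0) (nat_lit 0) (nat_lit 0) (nat_lit 0x800d18918) (nat_lit 1073068624),
  Rx.mk (nat_lit 448) (nat_lit 0) (nat_lit 0) (nat_lit 7) (nat_lit 4) (nat_lit 356) (nat_lit 167) r0_356 r11_167 (nat_lit 9822470) (nat_lit 9822470) (nat_lit 0) (nat_lit 0x7f9211c88) (nat_lit 1100657964),
  Rx.mk (nat_lit 449) (nat_lit 1) (nat_lit 0) (nat_lit 7) (nat_lit 5) (nat_lit 357) (nat_lit 170) r0_357 r11_170 (nat_lit 0) (nat_lit 3096735) (nat_lit 0) (nat_lit 0x80342c6c6) (nat_lit 1073669459),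
  Rx.mk (nat_lit 456) (nat_lit 0) (nat_lit 1) (nat_lit 7) (nat_lit 6) (nat_lit 358) (nat_lit 173) r0_358 r11_173 (nat_lit 4288788) (nat_lit 0) (nat_lit 0) (nat_lit 0x801061ba6) (nat_lit 1077145012),
  Rx.mk (nat_lit 457) (nat_lit 1) (nat_lit 1) (nat_lit 7) (nat_lit 7) (nat_lit 359) (nat_lit 176) r0_359 r11_176 (nat_lit 0) (nat_lit 0) (nat_lit 0) (nat_lit 0x80b7bae20) (nat_lit 1062234024)]
noncomputable def e12_30 : List Rx := [
  Rx.mk (nat_lit 216) (nat_lit 0) (nat_lit 3) (nat_lit 3) (nat_lit 6) (nat_lit 65) (nat_lit 4) r0_65 r5_4 (nat_lit 956393) (nat_lit 0) (nat_lit 0) (nat_lit 0x7c593b998) (nat_lit 1135682617),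
  Rx.mk (nat_lit 218) (nat_lit 2) (nat_lit 3) (nat_lit 3) (nat_lit 7) (nat_lit 66) (nat_lit 5) r0_66 r5_5 (nat_lit 0) (nat_lit 0) (nat_lit 0) (nat_lit 0x804823e18) (nat_lit 1069300924),
  Rx.mk (nat_lit 315) (nat_lit 3) (nat_lit 7) (nat_lit 4) (nat_lit 3) (nat_lit 67) (nat_lit 0) r0_67 r5_0 (nat_lit 0) (nat_lit 0) (nat_lit 1192389) (nat_lit 0x7f2e926b2) (nat_lit 1088653513),
  Rx.mk (nat_lit 472) (nat_lit 0) (nat_lit 3) (nat_lit 7) (nat_lit 6) (nat_lit 68) (nat_lit 3) r0_68 r5_3 (nat_lit 1158438) (nat_lit 0) (nat_lit 0) (nat_lit 0x7fed5a61c) (nat_lit 1076256662),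
  Rx.mk (nat_lit 504) (nat_lit 0) (nat_lit 7) (nat_lit 7) (nat_lit 6) (nat_lit 69) (nat_lit 1) r0_69 r5_1 (nat_lit 766655) (nat_lit 0) (nat_lit 0) (nat_lit 0x7495bc8de) (nat_lit 1264902279),
  Rx.mk (nat_lit 507) (nat_lit 3) (nat_lit 7) (nat_lit 7) (nat_lit 7) (nat_lit 70) (nat_lit 2) r0_70 r5_2 (nat_lit 0) (nat_lit 0) (nat_lit 0) (nat_lit 0x7fef31df0) (nat_lit 1074983524)]
noncomputable def e12_31 : List Rx := [
  Rx.mk (nat_lit 216) (nat_lit 0) (nat_lit 3) (nat_lit 3) (nat_lit 6) (nat_lit 152) (nat_lit 0) r0_152 r11_0 (nat_lit 4245916) (nat_lit 0) (nat_lit 0) (nat_lit 0x7feae8000) (nat_lit 1079510240),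
  Rx.mk (nat_lit 218) (nat_lit 2) (nat_lit 3) (nat_lit 3) (nat_lit 7) (nat_lit 153) (nat_lit 1) r0_153 r11_1 (nat_lit 0) (nat_lit 0) (nat_lit 0) (nat_lit 0x800bb8a46) (nat_lit 1073157024)]
noncomputable def e12_32 : List Rx := [
  Rx.mk (nat_lit 281) (nat_lit 1) (nat_lit 3) (nat_lit 4) (nat_lit 3) (nat_lit 222) (nat_lit 279) r0_222 r6_279 (nat_lit 0) (nat_lit 0) (nat_lit 4479) (nat_lit 0x93ccfa606) (nat_lit 753553703),
  Rx.mk (nat_lit 313) (nat_lit 1) (nat_lit 7) (nat_lit 4) (nat_lit 3) (nat_lit 223) (nat_lit 278) r0_223 r6_278 (nat_lit 0) (nat_lit 0) (nat_lit 8409716) (nat_lit 0x803d3fe16) (nat_lit 1078386140)]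
noncomputable def e12_33 : List Rx := [
  Rx.mk (nat_lit 281) (nat_lit 1) (nat_lit 3) (nat_lit 4) (nat_lit 3) (nat_lit 315) (nat_lit 252) r0_315 r5_252 (nat_lit 0) (nat_lit 0) (nat_lit 2146046) (nat_lit 0x8082930f8) (nat_lit 1067722470),
  Rx.mk (nat_lit 344) (nat_lit 0) (nat_lit 3) (nat_lit 5) (nat_lit 6) (nat_lit 316) (nat_lit 253) r0_316 r5_253 (nat_lit 1462114) (nat_lit 0) (nat_lit 0) (nat_lit 0x7fa136d4e) (nat_lit 1081485238),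
  Rx.mk (nat_lit 345) (nat_lit 1) (nat_lit 3) (nat_lit 5) (nat_lit 7) (nat_lit 317) (nat_lit 254) r0_317 r5_254 (nat_lit 0) (nat_lit 0) (nat_lit 0) (nat_lit 0x871639162) (nat_lit 959223424)]
noncomputable def e12_34 : List Rx := [
  Rx.mk (nat_lit 344) (nat_lit 0) (nat_lit 3) (nat_lit 5) (nat_lit 6) (nat_lit 328) (nat_lit 298) r0_328 r11_298 (nat_lit 4405947) (nat_lit 0) (nat_lit 0) (nat_lit 0x7ffb995de) (nat_lit 1078595171),
  Rx.mk (nat_lit 345) (nat_lit 1) (nat_lit 3) (nat_lit 5) (nat_lit 7) (nat_lit 329) (nat_lit 299) r0_329 r11_299 (nat_lit 0) (nat_lit 0) (nat_lit 0) (nat_lit 0x800a900e2) (nat_lit 1073231224)]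
noncomputable def e12_35 : List Rx := [
  Rx.mk (nat_lit 312) (nat_lit 0) (nat_lit 7) (nat_lit 4) (nat_lit 2) (nat_lit 82) (nat_lit 51) r0_82 r6_51 (nat_lit 191551) (nat_lit 0) (nat_lit 287545) (nat_lit 0x5ae6ab8ae) (nat_lit 1692810020),
  Rx.mk (nat_lit 313) (nat_lit 1) (nat_lit 7) (nat_lit 4) (nat_lit 3) (nat_lit 83) (nat_lit 52) r0_83 r6_52 (nat_lit 0) (nat_lit 0) (nat_lit 3246351) (nat_lit 0x7f1f1dac4) (nat_lit 1091721275),
  Rx.mk (nat_lit 315) (nat_lit 3) (nat_lit 7) (nat_lit 4) (nat_lit 3) (nat_lit 84) (nat_lit 53) r0_84 r6_53 (nat_lit 0) (nat_lit 0) (nat_lit 1684651) (nat_lit 0x7dfbf60f6) (nat_lit 1109116275),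
  Rx.mk (nat_lit 472) (nat_lit 0) (nat_lit 3) (nat_lit 7) (nat_lit 6) (nat_lit 85) (nat_lit 49) r0_85 r6_49 (nat_lit 726571) (nat_lit 0) (nat_lit 0) (nat_lit 0x8053e60c0) (nat_lit 1069259595),
  Rx.mk (nat_lit 473) (nat_lit 1) (nat_lit 3) (nat_lit 7) (nat_lit 7) (nat_lit 86) (nat_lit 50) r0_86 r6_50 (nat_lit 0) (nat_lit 0) (nat_lit 0) (nat_lit 0x95d9fc690) (nat_lit 720454924),
  Rx.mk (nat_lit 504) (nat_lit 0) (nat_lit 7) (nat_lit 7) (nat_lit 6) (nat_lit 87) (nat_lit 54) r0_87 r6_54 (nat_lit 1891802) (nat_lit 0) (nat_lit 0) (nat_lit 0x7e43297ac) (nat_lit 1104700826),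
  Rx.mk (nat_lit 505) (nat_lit 1) (nat_lit 7) (nat_lit 7) (nat_lit 7) (nat_lit 88) (nat_lit 55) r0_88 r6_55 (nat_lit 0) (nat_lit 0) (nat_lit 0) (nat_lit 0x823b44524) (nat_lit 1037739424)]
noncomputable def e12_36 : List Rx := [
  Rx.mk (nat_lit 280) (nat_lit 0) (nat_lit 3) (nat_lit 4) (nat_lit 2) (nat_lit 236) (nat_lit 90) r0_236 r12_90 (nat_lit 18804) (nat_lit 0) (nat_lit 23874) (nat_lit 0x617c80900) (nat_lit 1582544202),
  Rx.mk (nat_lit 281) (nat_lit 1) (nat_lit 3) (nat_lit 4) (nat_lit 3) (nat_lit 237) (nat_lit 93) r0_237 r12_93 (nat_lit 0) (nat_lit 0) (nat_lit 6092) (nat_lit 0x90e6c8a2c) (nat_lit 800438116),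
  Rx.mk (nat_lit 312) (nat_lit 0) (nat_lit 7) (nat_lit 4) (nat_lit 2) (nat_lit 238) (nat_lit 92) r0_238 r12_92 (nat_lit 98820) (nat_lit 0) (nat_lit 140974) (nat_lit 0x5c7c4d794) (nat_lit 1666140718),
  Rx.mk (nat_lit 313) (nat_lit 1) (nat_lit 7) (nat_lit 4) (nat_lit 3) (nat_lit 239) (nat_lit 95) r0_239 r12_95 (nat_lit 0) (nat_lit 0) (nat_lit 10492686) (nat_lit 0x7fa00c536) (nat_lit 1090533610),
  Rx.mk (nat_lit 315) (nat_lit 3) (nat_lit 7) (nat_lit 4) (nat_lit 3) (nat_lit 240) (nat_lit 96) r0_240 r12_96 (nat_lit 0) (nat_lit 0) (nat_lit 1111496) (nat_lit 0x7447c7c00) (nat_lit 1270325320),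
  Rx.mk (nat_lit 472) (nat_lit 0) (nat_lit 3) (nat_lit 7) (nat_lit 6) (nat_lit 241) (nat_lit 91) r0_241 r12_91 (nat_lit 805156) (nat_lit 0) (nat_lit 0) (nat_lit 0x806db6b8a) (nat_lit 1067709380),
  Rx.mk (nat_lit 473) (nat_lit 1) (nat_lit 3) (nat_lit 7) (nat_lit 7) (nat_lit 242) (nat_lit 94) r0_242 r12_94 (nat_lit 0) (nat_lit 0) (nat_lit 0) (nat_lit 0x9d314c5ce) (nat_lit 601741024)]
noncomputable def e12_37 : List Rx := [
  Rx.mk (nat_lit 289) (nat_lit 1) (nat_lit 4) (nat_lit 4) (nat_lit 1) (nat_lit 171) (nat_lit 248) r0_171 r0_248 (nat_lit 0) (nat_lit 318) (nat_lit 969839457) (nat_lit 0x8000510a4) (nat_lit 2043561699),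
  Rx.mk (nat_lit 297) (nat_lit 1) (nat_lit 5) (nat_lit 4) (nat_lit 3) (nat_lit 172) (nat_lit 249) r0_172 r0_249 (nat_lit 0) (nat_lit 0) (nat_lit 508562239) (nat_lit 0x7ed0e1874) (nat_lit 1602132963)]
noncomputable def e12_38 : List Rx := [
  Rx.mk (nat_lit 317) (nat_lit 5) (nat_lit 7) (nat_lit 4) (nat_lit 3) (nat_lit 72) (nat_lit 73) r0_72 r0_73 (nat_lit 0) (nat_lit 0) (nat_lit 2574804) (nat_lit 0x7c7441fb2) (nat_lit 1135516628),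
  Rx.mk (nat_lit 421) (nat_lit 5) (nat_lit 4) (nat_lit 6) (nat_lit 5) (nat_lit 73) (nat_lit 72) r0_73 r0_72 (nat_lit 0) (nat_lit 2574804) (nat_lit 0) (nat_lit 0x7c7441fb2) (nat_lit 1135516628),
  Rx.mk (nat_lit 445) (nat_lit 5) (nat_lit 7) (nat_lit 6) (nat_lit 7) (nat_lit 74) (nat_lit 74) r0_74 r0_74 (nat_lit 0) (nat_lit 0) (nat_lit 0) (nat_lit 0x8001d5326) (nat_lit 1073781524)]
noncomputable def e12_39 : List Rx := [
  Rx.mk (nat_lit 289) (nat_lit 1) (nat_lit 4) (nat_lit 4) (nat_lit 1) (nat_lit 177) (nat_lit 325) r0_177 r7_325 (nat_lit 0) (nat_lit 216055) (nat_lit 1073466) (nat_lit 0x52f01064a) (nat_lit 1826388745),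
  Rx.mk (nat_lit 293) (nat_lit 5) (nat_lit 4) (nat_lit 4) (nat_lit 1) (nat_lit 178) (nat_lit 319) r0_178 r7_319 (nat_lit 0) (nat_lit 327140) (nat_lit 944100) (nat_lit 0x5bb8077f4) (nat_lit 1679970364),
  Rx.mk (nat_lit 297) (nat_lit 1) (nat_lit 5) (nat_lit 4) (nat_lit 3) (nat_lit 179) (nat_lit 326) r0_179 r7_326 (nat_lit 0) (nat_lit 0) (nat_lit 1922278) (nat_lit 0x6264701d4) (nat_lit 1569386202),
  Rx.mk (nat_lit 301) (nat_lit 5) (nat_lit 5) (nat_lit 4) (nat_lit 3) (nat_lit 180) (nat_lit 320) r0_180 r7_320 (nat_lit 0) (nat_lit 0) (nat_lit 5137059) (nat_lit 0x7a3a629c4) (nat_lit 1175198083),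
  Rx.mk (nat_lit 317) (nat_lit 5) (nat_lit 7) (nat_lit 4) (nat_lit 3) (nat_lit 181) (nat_lit 321) r0_181 r7_321 (nat_lit 0) (nat_lit 0) (nat_lit 171422861) (nat_lit 0x80556c2a0) (nat_lit 1239814685),
  Rx.mk (nat_lit 421) (nat_lit 5) (nat_lit 4) (nat_lit 6) (nat_lit 5) (nat_lit 182) (nat_lit 322) r0_182 r7_322 (nat_lit 0) (nat_lit 1461987) (nat_lit 0) (nat_lit 0x7ffe1df6c) (nat_lit 1075483511),
  Rx.mk (nat_lit 429) (nat_lit 5) (nat_lit 5) (nat_lit 6) (nat_lit 7) (nat_lit 183) (nat_lit 323) r0_183 r7_323 (nat_lit 0) (nat_lit 0) (nat_lit 0) (nat_lit 0x802680a22) (nat_lit 1071441624),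
  Rx.mk (nat_lit 445) (nat_lit 5) (nat_lit 7) (nat_lit 6) (nat_lit 7) (nat_lit 184) (nat_lit 324) r0_184 r7_324 (nat_lit 0) (nat_lit 0) (nat_lit 0) (nat_lit 0x806ab61b0) (nat_lit 1067109724)]
noncomputable def e12_40 : List Rx := [
  Rx.mk (nat_lit 182) (nat_lit 6) (nat_lit 6) (nat_lit 2) (nat_lit 7) (nat_lit 30) (nat_lit 71) r0_30 r2_71 (nat_lit 0) (nat_lit 0) (nat_lit 0) (nat_lit 0x80029938e) (nat_lit 1073741824),
  Rx.mk (nat_lit 316) (nat_lit 4) (nat_lit 7) (nat_lit 4) (nat_lit 2) (nat_lit 31) (nat_lit 64) r0_31 r2_64 (nat_lit 340572) (nat_lit 0) (nat_lit 418407) (nat_lit 0x63d5cd998) (nat_lit 1544142803),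
  Rx.mk (nat_lit 317) (nat_lit 5) (nat_lit 7) (nat_lit 4) (nat_lit 3) (nat_lit 32) (nat_lit 65) r0_32 r2_65 (nat_lit 0) (nat_lit 0) (nat_lit 2521905) (nat_lit 0x7ff8da2da) (nat_lit 1076883729),
  Rx.mk (nat_lit 319) (nat_lit 7) (nat_lit 7) (nat_lit 4) (nat_lit 3) (nat_lit 33) (nat_lit 66) r0_33 r2_66 (nat_lit 0) (nat_lit 0) (nat_lit 4691311) (nat_lit 0x7fd860edc) (nat_lit 1081143335),
  Rx.mk (nat_lit 420) (nat_lit 4) (nat_lit 4) (nat_lit 6) (nat_lit 4) (nat_lit 34) (nat_lit 62) r0_34 r2_62 (nat_lit 546718) (nat_lit 1100011) (nat_lit 0) (nat_lit 0x5e324af1e) (nat_lit 1639056353),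
  Rx.mk (nat_lit 421) (nat_lit 5) (nat_lit 4) (nat_lit 6) (nat_lit 5) (nat_lit 35) (nat_lit 63) r0_35 r2_63 (nat_lit 0) (nat_lit 6036329) (nat_lit 0) (nat_lit 0x7f3f12eb0) (nat_lit 1092440953),
  Rx.mk (nat_lit 436) (nat_lit 4) (nat_lit 6) (nat_lit 6) (nat_lit 6) (nat_lit 36) (nat_lit 72) r0_36 r2_72 (nat_lit 3680737) (nat_lit 0) (nat_lit 0) (nat_lit 0x7f050aae2) (nat_lit 1093861361),
  Rx.mk (nat_lit 437) (nat_lit 5) (nat_lit 6) (nat_lit 6) (nat_lit 7) (nat_lit 37) (nat_lit 73) r0_37 r2_73 (nat_lit 0) (nat_lit 0) (nat_lit 0) (nat_lit 0x8000ca71a) (nat_lit 1073857724),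
  Rx.mk (nat_lit 438) (nat_lit 6) (nat_lit 6) (nat_lit 6) (nat_lit 7) (nat_lit 38) (nat_lit 74) r0_38 r2_74 (nat_lit 0) (nat_lit 0) (nat_lit 0) (nat_lit 0x8000ca71a) (nat_lit 1073857724),
  Rx.mk (nat_lit 444) (nat_lit 4) (nat_lit 7) (nat_lit 6) (nat_lit 6) (nat_lit 39) (nat_lit 68) r0_39 r2_68 (nat_lit 372081) (nat_lit 0) (nat_lit 0) (nat_lit 0x80aa87848) (nat_lit 1063404905),
  Rx.mk (nat_lit 445) (nat_lit 5) (nat_lit 7) (nat_lit 6) (nat_lit 7) (nat_lit 40) (nat_lit 69) r0_40 r2_69 (nat_lit 0) (nat_lit 0) (nat_lit 0) (nat_lit 0x812965e80) (nat_lit 1055044524),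
  Rx.mk (nat_lit 447) (nat_lit 7) (nat_lit 7) (nat_lit 6) (nat_lit 7) (nat_lit 41) (nat_lit 70) r0_41 r2_70 (nat_lit 0) (nat_lit 0) (nat_lit 0) (nat_lit 0x812d32e5a) (nat_lit 1054804324),
  Rx.mk (nat_lit 511) (nat_lit 7) (nat_lit 7) (nat_lit 7) (nat_lit 7) (nat_lit 42) (nat_lit 67) r0_42 r2_67 (nat_lit 0) (nat_lit 0) (nat_lit 0) (nat_lit 0x80029938e) (nat_lit 1073741824)]
noncomputable def e12_41 : List Rx := [
  Rx.mk (nat_lit 182) (nat_lit 6) (nat_lit 6) (nat_lit 2) (nat_lit 7) (nat_lit 154) (nat_lit 36) r0_154 r9_36 (nat_lit 0) (nat_lit 0) (nat_lit 0) (nat_lit 0x80029938e) (nat_lit 1073741824),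
  Rx.mk (nat_lit 292) (nat_lit 4) (nat_lit 4) (nat_lit 4) (nat_lit 0) (nat_lit 155) (nat_lit 23) r0_155 r9_23 (nat_lit 1354781) (nat_lit 2362812) (nat_lit 4153151) (nat_lit 0x1b57e90f6) (nat_lit 2759934868),
  Rx.mk (nat_lit 293) (nat_lit 5) (nat_lit 4) (nat_lit 4) (nat_lit 1) (nat_lit 156) (nat_lit 24) r0_156 r9_24 (nat_lit 0) (nat_lit 4070116) (nat_lit 4177856) (nat_lit 0x4bc84881c) (nat_lit 1952696096),
  Rx.mk (nat_lit 301) (nat_lit 5) (nat_lit 5) (nat_lit 4) (nat_lit 3) (nat_lit 157) (nat_lit 27) r0_157 r9_27 (nat_lit 0) (nat_lit 0) (nat_lit 6049948) (nat_lit 0x7c59b23d6) (nat_lit 1140727172),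
  Rx.mk (nat_lit 316) (nat_lit 4) (nat_lit 7) (nat_lit 4) (nat_lit 2) (nat_lit 158) (nat_lit 29) r0_158 r9_29 (nat_lit 2771204) (nat_lit 0) (nat_lit 18445641) (nat_lit 0x4ea89f76a) (nat_lit 1917708369),
  Rx.mk (nat_lit 317) (nat_lit 5) (nat_lit 7) (nat_lit 4) (nat_lit 3) (nat_lit 159) (nat_lit 30) r0_159 r9_30 (nat_lit 0) (nat_lit 0) (nat_lit 9808972) (nat_lit 0x7fc6e9032) (nat_lit 1087396196),
  Rx.mk (nat_lit 319) (nat_lit 7) (nat_lit 7) (nat_lit 4) (nat_lit 3) (nat_lit 160) (nat_lit 31) r0_160 r9_31 (nat_lit 0) (nat_lit 0) (nat_lit 89110576) (nat_lit 0x7efa9f9ea) (nat_lit 1179970500),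
  Rx.mk (nat_lit 420) (nat_lit 4) (nat_lit 4) (nat_lit 6) (nat_lit 4) (nat_lit 161) (nat_lit 25) r0_161 r9_25 (nat_lit 2456288) (nat_lit 2475026) (nat_lit 0) (nat_lit 0x57aea971a) (nat_lit 1750970938),
  Rx.mk (nat_lit 421) (nat_lit 5) (nat_lit 4) (nat_lit 6) (nat_lit 5) (nat_lit 162) (nat_lit 26) r0_162 r9_26 (nat_lit 0) (nat_lit 5501243) (nat_lit 0) (nat_lit 0x781c26610) (nat_lit 1210881267),
  Rx.mk (nat_lit 429) (nat_lit 5) (nat_lit 5) (nat_lit 6) (nat_lit 7) (nat_lit 163) (nat_lit 28) r0_163 r9_28 (nat_lit 0) (nat_lit 0) (nat_lit 0) (nat_lit 0x80029938e) (nat_lit 1073741824),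
  Rx.mk (nat_lit 436) (nat_lit 4) (nat_lit 6) (nat_lit 6) (nat_lit 6) (nat_lit 164) (nat_lit 37) r0_164 r9_37 (nat_lit 5165939) (nat_lit 0) (nat_lit 0) (nat_lit 0x791ad7c68) (nat_lit 1193957763),
  Rx.mk (nat_lit 437) (nat_lit 5) (nat_lit 6) (nat_lit 6) (nat_lit 7) (nat_lit 165) (nat_lit 38) r0_165 r9_38 (nat_lit 0) (nat_lit 0) (nat_lit 0) (nat_lit 0x80029938e) (nat_lit 1073741824),
  Rx.mk (nat_lit 438) (nat_lit 6) (nat_lit 6) (nat_lit 6) (nat_lit 7) (nat_lit 166) (nat_lit 39) r0_166 r9_39 (nat_lit 0) (nat_lit 0) (nat_lit 0) (nat_lit 0x80029938e) (nat_lit 1073741824),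
  Rx.mk (nat_lit 444) (nat_lit 4) (nat_lit 7) (nat_lit 6) (nat_lit 6) (nat_lit 167) (nat_lit 33) r0_167 r9_33 (nat_lit 5084035) (nat_lit 0) (nat_lit 0) (nat_lit 0x7fe4632fc) (nat_lit 1080766959),
  Rx.mk (nat_lit 445) (nat_lit 5) (nat_lit 7) (nat_lit 6) (nat_lit 7) (nat_lit 168) (nat_lit 34) r0_168 r9_34 (nat_lit 0) (nat_lit 0) (nat_lit 0) (nat_lit 0x80029938e) (nat_lit 1073741824),
  Rx.mk (nat_lit 447) (nat_lit 7) (nat_lit 7) (nat_lit 6) (nat_lit 7) (nat_lit 169) (nat_lit 35) r0_169 r9_35 (nat_lit 0) (nat_lit 0) (nat_lit 0) (nat_lit 0x80029938e) (nat_lit 1073741824),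
  Rx.mk (nat_lit 511) (nat_lit 7) (nat_lit 7) (nat_lit 7) (nat_lit 7) (nat_lit 170) (nat_lit 32) r0_170 r9_32 (nat_lit 0) (nat_lit 0) (nat_lit 0) (nat_lit 0x7feda7fe8) (nat_lit 1075089724)]
noncomputable def e12_42 : List Rx := [
  Rx.mk (nat_lit 182) (nat_lit 6) (nat_lit 6) (nat_lit 2) (nat_lit 7) (nat_lit 141) (nat_lit 0) r0_141 r9_0 (nat_lit 0) (nat_lit 0) (nat_lit 0) (nat_lit 0x7ffe05cc8) (nat_lit 1074035324)]
noncomputable def e12_43 : List Rx := [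
  Rx.mk (nat_lit 317) (nat_lit 5) (nat_lit 7) (nat_lit 4) (nat_lit 3) (nat_lit 75) (nat_lit 70) r0_75 r1_70 (nat_lit 0) (nat_lit 0) (nat_lit 2468639) (nat_lit 0x80090eed0) (nat_lit 1075791763),
  Rx.mk (nat_lit 421) (nat_lit 5) (nat_lit 4) (nat_lit 6) (nat_lit 5) (nat_lit 76) (nat_lit 69) r0_76 r1_69 (nat_lit 0) (nat_lit 3524879) (nat_lit 0) (nat_lit 0x7f208be6a) (nat_lit 1091914603),
  Rx.mk (nat_lit 437) (nat_lit 5) (nat_lit 6) (nat_lit 6) (nat_lit 7) (nat_lit 77) (nat_lit 72) r0_77 r1_72 (nat_lit 0) (nat_lit 0) (nat_lit 0) (nat_lit 0x800fe7112) (nat_lit 1072885924),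
  Rx.mk (nat_lit 445) (nat_lit 5) (nat_lit 7) (nat_lit 6) (nat_lit 7) (nat_lit 78) (nat_lit 71) r0_78 r1_71 (nat_lit 0) (nat_lit 0) (nat_lit 0) (nat_lit 0x81c0ba54c) (nat_lit 1045481724)]
noncomputable def e12_44 : List Rx := [
  Rx.mk (nat_lit 293) (nat_lit 5) (nat_lit 4) (nat_lit 4) (nat_lit 1) (nat_lit 188) (nat_lit 241) r0_188 r8_241 (nat_lit 0) (nat_lit 3077458) (nat_lit 36183064) (nat_lit 0x574fcceae) (nat_lit 1791474846),
  Rx.mk (nat_lit 301) (nat_lit 5) (nat_lit 5) (nat_lit 4) (nat_lit 3) (nat_lit 189) (nat_lit 242) r0_189 r8_242 (nat_lit 0) (nat_lit 0) (nat_lit 7351485) (nat_lit 0x7a4837e50) (nat_lit 1176515009),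
  Rx.mk (nat_lit 317) (nat_lit 5) (nat_lit 7) (nat_lit 4) (nat_lit 3) (nat_lit 190) (nat_lit 243) r0_190 r8_243 (nat_lit 0) (nat_lit 0) (nat_lit 188397076) (nat_lit 0x7fb4f6636) (nat_lit 1267133600),
  Rx.mk (nat_lit 421) (nat_lit 5) (nat_lit 4) (nat_lit 6) (nat_lit 5) (nat_lit 191) (nat_lit 244) r0_191 r8_244 (nat_lit 0) (nat_lit 2945103) (nat_lit 0) (nat_lit 0x79da08f6a) (nat_lit 1179289527),
  Rx.mk (nat_lit 429) (nat_lit 5) (nat_lit 5) (nat_lit 6) (nat_lit 7) (nat_lit 192) (nat_lit 245) r0_192 r8_245 (nat_lit 0) (nat_lit 0) (nat_lit 0) (nat_lit 0x7fff97802) (nat_lit 1073934624),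
  Rx.mk (nat_lit 437) (nat_lit 5) (nat_lit 6) (nat_lit 6) (nat_lit 7) (nat_lit 193) (nat_lit 247) r0_193 r8_247 (nat_lit 0) (nat_lit 0) (nat_lit 0) (nat_lit 0x80029938e) (nat_lit 1073741824),
  Rx.mk (nat_lit 445) (nat_lit 5) (nat_lit 7) (nat_lit 6) (nat_lit 7) (nat_lit 194) (nat_lit 246) r0_194 r8_246 (nat_lit 0) (nat_lit 0) (nat_lit 0) (nat_lit 0x80029938e) (nat_lit 1073741824)]
noncomputable def e12_45 : List Rx := [
  Rx.mk (nat_lit 297) (nat_lit 1) (nat_lit 5) (nat_lit 4) (nat_lit 3) (nat_lit 173) (nat_lit 255) r0_173 r1_255 (nat_lit 0) (nat_lit 0) (nat_lit 200288767) (nat_lit 0x7fddd6150) (nat_lit 1276386391)]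
noncomputable def e12_46 : List Rx := [
  Rx.mk (nat_lit 265) (nat_lit 1) (nat_lit 1) (nat_lit 4) (nat_lit 3) (nat_lit 285) (nat_lit 281) r0_285 r2_281 (nat_lit 0) (nat_lit 0) (nat_lit 28102838) (nat_lit 0x7a7179430) (nat_lit 1194573262),
  Rx.mk (nat_lit 297) (nat_lit 1) (nat_lit 5) (nat_lit 4) (nat_lit 3) (nat_lit 286) (nat_lit 280) r0_286 r2_280 (nat_lit 0) (nat_lit 0) (nat_lit 7374549) (nat_lit 0x7eb2c9990) (nat_lit 1102910273),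
  Rx.mk (nat_lit 329) (nat_lit 1) (nat_lit 1) (nat_lit 5) (nat_lit 7) (nat_lit 287) (nat_lit 283) r0_287 r2_283 (nat_lit 0) (nat_lit 0) (nat_lit 0) (nat_lit 0x80029938e) (nat_lit 1073741824),
  Rx.mk (nat_lit 361) (nat_lit 1) (nat_lit 5) (nat_lit 5) (nat_lit 7) (nat_lit 288) (nat_lit 282) r0_288 r2_282 (nat_lit 0) (nat_lit 0) (nat_lit 0) (nat_lit 0x80029938e) (nat_lit 1073741824)]
noncomputable def e12_47 : List Rx := [
  Rx.mk (nat_lit 297) (nat_lit 1) (nat_lit 5) (nat_lit 4) (nat_lit 3) (nat_lit 185) (nat_lit 63) r0_185 r8_63 (nat_lit 0) (nat_lit 0) (nat_lit 3657848) (nat_lit 0x7a789dc8e) (nat_lit 1169663972),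
  Rx.mk (nat_lit 301) (nat_lit 5) (nat_lit 5) (nat_lit 4) (nat_lit 3) (nat_lit 186) (nat_lit 64) r0_186 r8_64 (nat_lit 0) (nat_lit 0) (nat_lit 4721594) (nat_lit 0x7cb5a7826) (nat_lit 1133415918),
  Rx.mk (nat_lit 429) (nat_lit 5) (nat_lit 5) (nat_lit 6) (nat_lit 7) (nat_lit 187) (nat_lit 65) r0_187 r8_65 (nat_lit 0) (nat_lit 0) (nat_lit 0) (nat_lit 0x801bc7158) (nat_lit 1072128324)]
noncomputable def e12_48 : List Rx := [
  Rx.mk (nat_lit 265) (nat_lit 1) (nat_lit 1) (nat_lit 4) (nat_lit 3) (nat_lit 293) (nat_lit 254) r0_293 r9_254 (nat_lit 0) (nat_lit 0) (nat_lit 5745639) (nat_lit 0x7713c5d0a) (nat_lit 1228342563),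
  Rx.mk (nat_lit 297) (nat_lit 1) (nat_lit 5) (nat_lit 4) (nat_lit 3) (nat_lit 294) (nat_lit 253) r0_294 r9_253 (nat_lit 0) (nat_lit 0) (nat_lit 7145094) (nat_lit 0x79e85e2cc) (nat_lit 1182555618),
  Rx.mk (nat_lit 301) (nat_lit 5) (nat_lit 5) (nat_lit 4) (nat_lit 3) (nat_lit 295) (nat_lit 250) r0_295 r9_250 (nat_lit 0) (nat_lit 0) (nat_lit 5449534) (nat_lit 0x7dc0ef480) (nat_lit 1116739658),
  Rx.mk (nat_lit 329) (nat_lit 1) (nat_lit 1) (nat_lit 5) (nat_lit 7) (nat_lit 296) (nat_lit 256) r0_296 r9_256 (nat_lit 0) (nat_lit 0) (nat_lit 0) (nat_lit 0x80029938e) (nat_lit 1073741824),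
  Rx.mk (nat_lit 361) (nat_lit 1) (nat_lit 5) (nat_lit 5) (nat_lit 7) (nat_lit 297) (nat_lit 255) r0_297 r9_255 (nat_lit 0) (nat_lit 0) (nat_lit 0) (nat_lit 0x80029938e) (nat_lit 1073741824),
  Rx.mk (nat_lit 365) (nat_lit 5) (nat_lit 5) (nat_lit 5) (nat_lit 7) (nat_lit 298) (nat_lit 251) r0_298 r9_251 (nat_lit 0) (nat_lit 0) (nat_lit 0) (nat_lit 0x80029938e) (nat_lit 1073741824),
  Rx.mk (nat_lit 429) (nat_lit 5) (nat_lit 5) (nat_lit 6) (nat_lit 7) (nat_lit 299) (nat_lit 252) r0_299 r9_252 (nat_lit 0) (nat_lit 0) (nat_lit 0) (nat_lit 0x80029938e) (nat_lit 1073741824)]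
noncomputable def e12_49 : List Rx := [
  Rx.mk (nat_lit 329) (nat_lit 1) (nat_lit 1) (nat_lit 5) (nat_lit 7) (nat_lit 291) (nat_lit 248) r0_291 r9_248 (nat_lit 0) (nat_lit 0) (nat_lit 0) (nat_lit 0x7ff85ef5e) (nat_lit 1074398324),
  Rx.mk (nat_lit 361) (nat_lit 1) (nat_lit 5) (nat_lit 5) (nat_lit 7) (nat_lit 292) (nat_lit 249) r0_292 r9_249 (nat_lit 0) (nat_lit 0) (nat_lit 0) (nat_lit 0x7ffd3fcc6) (nat_lit 1074084924)]
noncomputable def e12_50 : List Rx := [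
  Rx.mk (nat_lit 313) (nat_lit 1) (nat_lit 7) (nat_lit 4) (nat_lit 3) (nat_lit 71) (nat_lit 249) r0_71 r3_249 (nat_lit 0) (nat_lit 0) (nat_lit 121) (nat_lit 0x80002aa9e) (nat_lit 1073731445)]
noncomputable def e12_51 : List Rx := [
  Rx.mk (nat_lit 289) (nat_lit 1) (nat_lit 4) (nat_lit 4) (nat_lit 1) (nat_lit 174) (nat_lit 262) r0_174 r4_262 (nat_lit 0) (nat_lit 507461) (nat_lit 365390624) (nat_lit 0x677f48254) (nat_lit 1848225809),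
  Rx.mk (nat_lit 297) (nat_lit 1) (nat_lit 5) (nat_lit 4) (nat_lit 3) (nat_lit 175) (nat_lit 263) r0_175 r4_263 (nat_lit 0) (nat_lit 0) (nat_lit 172210768) (nat_lit 0x7e52e1528) (nat_lit 1273987192),
  Rx.mk (nat_lit 313) (nat_lit 1) (nat_lit 7) (nat_lit 4) (nat_lit 3) (nat_lit 176) (nat_lit 264) r0_176 r4_264 (nat_lit 0) (nat_lit 0) (nat_lit 481648953) (nat_lit 0x72b5b6132) (nat_lit 1777028277)]
noncomputable def e12_52 : List Rx := [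
  Rx.mk (nat_lit 313) (nat_lit 1) (nat_lit 7) (nat_lit 4) (nat_lit 3) (nat_lit 224) (nat_lit 255) r0_224 r5_255 (nat_lit 0) (nat_lit 0) (nat_lit 135738919) (nat_lit 0x80001a586) (nat_lit 1209474643)]
noncomputable def e12_53 : List Rx := [
  Rx.mk (nat_lit 313) (nat_lit 1) (nat_lit 7) (nat_lit 4) (nat_lit 3) (nat_lit 79) (nat_lit 68) r0_79 r4_68 (nat_lit 0) (nat_lit 0) (nat_lit 1845209) (nat_lit 0x6d5c42330) (nat_lit 1386432233),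
  Rx.mk (nat_lit 317) (nat_lit 5) (nat_lit 7) (nat_lit 4) (nat_lit 3) (nat_lit 80) (nat_lit 69) r0_80 r4_69 (nat_lit 0) (nat_lit 0) (nat_lit 2927812) (nat_lit 0x7f9b05e02) (nat_lit 1083361236),
  Rx.mk (nat_lit 445) (nat_lit 5) (nat_lit 7) (nat_lit 6) (nat_lit 7) (nat_lit 81) (nat_lit 70) r0_81 r4_70 (nat_lit 0) (nat_lit 0) (nat_lit 0) (nat_lit 0x7fdf910da) (nat_lit 1075963024)]
noncomputable def e12_54 : List Rx := [
  Rx.mk (nat_lit 289) (nat_lit 1) (nat_lit 4) (nat_lit 4) (nat_lit 1) (nat_lit 195) (nat_lit 281) r0_195 r10_281 (nat_lit 0) (nat_lit 206251) (nat_lit 577871) (nat_lit 0x5b26d5dda) (nat_lit 1688936846),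
  Rx.mk (nat_lit 297) (nat_lit 1) (nat_lit 5) (nat_lit 4) (nat_lit 3) (nat_lit 196) (nat_lit 282) r0_196 r10_282 (nat_lit 0) (nat_lit 0) (nat_lit 2475431) (nat_lit 0x70fe46778) (nat_lit 1326502855),
  Rx.mk (nat_lit 313) (nat_lit 1) (nat_lit 7) (nat_lit 4) (nat_lit 3) (nat_lit 197) (nat_lit 283) r0_197 r10_283 (nat_lit 0) (nat_lit 0) (nat_lit 336738388) (nat_lit 0x7f9d350f6) (nat_lit 1417053112),
  Rx.mk (nat_lit 317) (nat_lit 5) (nat_lit 7) (nat_lit 4) (nat_lit 3) (nat_lit 198) (nat_lit 279) r0_198 r10_279 (nat_lit 0) (nat_lit 0) (nat_lit 172576021) (nat_lit 0x80845ae72) (nat_lit 1238006145),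
  Rx.mk (nat_lit 445) (nat_lit 5) (nat_lit 7) (nat_lit 6) (nat_lit 7) (nat_lit 199) (nat_lit 280) r0_199 r10_280 (nat_lit 0) (nat_lit 0) (nat_lit 0) (nat_lit 0x803360350) (nat_lit 1070623924)]
noncomputable def e12_55 : List Rx := [
  Rx.mk (nat_lit 313) (nat_lit 1) (nat_lit 7) (nat_lit 4) (nat_lit 3) (nat_lit 225) (nat_lit 302) r0_225 r11_302 (nat_lit 0) (nat_lit 0) (nat_lit 2075395) (nat_lit 0x7fa625f44) (nat_lit 1081791519),
  Rx.mk (nat_lit 317) (nat_lit 5) (nat_lit 7) (nat_lit 4) (nat_lit 3) (nat_lit 226) (nat_lit 300) r0_226 r11_300 (nat_lit 0) (nat_lit 0) (nat_lit 3044938) (nat_lit 0x80a25caec) (nat_lit 1066625862),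
  Rx.mk (nat_lit 445) (nat_lit 5) (nat_lit 7) (nat_lit 6) (nat_lit 7) (nat_lit 227) (nat_lit 301) r0_227 r11_301 (nat_lit 0) (nat_lit 0) (nat_lit 0) (nat_lit 0x811726e18) (nat_lit 1056188224)]
noncomputable def e12_56 : List Rx := [
  Rx.mk (nat_lit 313) (nat_lit 1) (nat_lit 7) (nat_lit 4) (nat_lit 3) (nat_lit 89) (nat_lit 61) r0_89 r5_61 (nat_lit 0) (nat_lit 0) (nat_lit 26638681) (nat_lit 0x7d4f8ee26) (nat_lit 1145302105),
  Rx.mk (nat_lit 505) (nat_lit 1) (nat_lit 7) (nat_lit 7) (nat_lit 7) (nat_lit 90) (nat_lit 62) r0_90 r5_62 (nat_lit 0) (nat_lit 0) (nat_lit 0) (nat_lit 0x83bd7abf0) (nat_lit 1013342324)]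
noncomputable def e12_57 : List Rx := [
  Rx.mk (nat_lit 289) (nat_lit 1) (nat_lit 4) (nat_lit 4) (nat_lit 1) (nat_lit 200) (nat_lit 37) r0_200 r11_37 (nat_lit 0) (nat_lit 9426144) (nat_lit 314732184) (nat_lit 0x70c471818) (nat_lit 1651954452),
  Rx.mk (nat_lit 297) (nat_lit 1) (nat_lit 5) (nat_lit 4) (nat_lit 3) (nat_lit 201) (nat_lit 38) r0_201 r11_38 (nat_lit 0) (nat_lit 0) (nat_lit 5592935) (nat_lit 0x802afe752) (nat_lit 1076749759),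
  Rx.mk (nat_lit 313) (nat_lit 1) (nat_lit 7) (nat_lit 4) (nat_lit 3) (nat_lit 202) (nat_lit 39) r0_202 r11_39 (nat_lit 0) (nat_lit 0) (nat_lit 104895094) (nat_lit 0x801d36fca) (nat_lit 1176912118),
  Rx.mk (nat_lit 505) (nat_lit 1) (nat_lit 7) (nat_lit 7) (nat_lit 7) (nat_lit 203) (nat_lit 40) r0_203 r11_40 (nat_lit 0) (nat_lit 0) (nat_lit 0) (nat_lit 0x813820826) (nat_lit 1054113624)]
noncomputable def e12 : List (List Rx) := [e12_0, e12_1, e12_2, e12_3, e12_4, e12_5, e12_6, e12_7, e12_8, e12_9, e12_10, e12_11, e12_12, e12_13, e12_14, e12_15, e12_16, e12_17, e12_18, e12_19, e12_20, e12_21, e12_22, e12_23, e12_24, e12_25, e12_26, e12_27, e12_28, e12_29, e12_30, e12_31, e12_32, e12_33, e12_34, e12_35, e12_36, e12_37, e12_38, e12_39, e12_40, e12_41, e12_42, e12_43, e12_44, e12_45, e12_46, e12_47, e12_48, e12_49, e12_50, e12_51, e12_52, e12_53, e12_54, e12_55,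 e12_56, e12_57]
noncomputable def e13_0 : List Rx := [
  Rx.mk (nat_lit 2) (nat_lit 2) (nat_lit 0) (nat_lit 0) (nat_lit 1) (nat_lit 2) (nat_lit 105) r7_2 r0_105 (nat_lit 0) (nat_lit 747955) (nat_lit 146838) (nat_lit 0x5e9ce2aac) (nat_lit 1631332817),
  Rx.mk (nat_lit 18) (nat_lit 2) (nat_lit 2) (nat_lit 0) (nat_lit 3) (nat_lit 4) (nat_lit 108) r7_4 r0_108 (nat_lit 0) (nat_lit 0) (nat_lit 4219351) (nat_lit 0x735136a1c) (nat_lit 1289505675),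
  Rx.mk (nat_lit 146) (nat_lit 2) (nat_lit 2) (nat_lit 2) (nat_lit 7) (nat_lit 5) (nat_lit 110) r7_5 r0_110 (nat_lit 0) (nat_lit 0) (nat_lit 0) (nat_lit 0x7ff997768) (nat_lit 1074319724),
  Rx.mk (nat_lit 192) (nat_lit 0) (nat_lit 0) (nat_lit 3) (nat_lit 4) (nat_lit 0) (nat_lit 100) r7_0 r0_100 (nat_lit 16582240) (nat_lit 12742526) (nat_lit 0) (nat_lit 0x6135e2f48) (nat_lit 1616501090),
  Rx.mk (nat_lit 194) (nat_lit 2) (nat_lit 0) (nat_lit 3) (nat_lit 5) (nat_lit 3) (nat_lit 106) r7_3 r0_106 (nat_lit 0) (nat_lit 26061368) (nat_lit 0) (nat_lit 0x7f3c3650c) (nat_lit 1112650392),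
  Rx.mk (nat_lit 210) (nat_lit 2) (nat_lit 2) (nat_lit 3) (nat_lit 7) (nat_lit 6) (nat_lit 109) r7_6 r0_109 (nat_lit 0) (nat_lit 0) (nat_lit 0) (nat_lit 0x7ff9f25aa) (nat_lit 1074297324),
  Rx.mk (nat_lit 216) (nat_lit 0) (nat_lit 3) (nat_lit 3) (nat_lit 6) (nat_lit 1) (nat_lit 101) r7_1 r0_101 (nat_lit 2775314) (nat_lit 0) (nat_lit 0) (nat_lit 0x6ed474154) (nat_lit 1362877338),
  Rx.mk (nat_lit 218) (nat_lit 2) (nat_lit 3) (nat_lit 3) (nat_lit 7) (nat_lit 7) (nat_lit 107) r7_7 r0_107 (nat_lit 0) (nat_lit 0) (nat_lit 0) (nat_lit 0x7fecaec36) (nat_lit 1075148224),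
  Rx.mk (nat_lit 219) (nat_lit 3) (nat_lit 3) (nat_lit 3) (nat_lit 7) (nat_lit 10) (nat_lit 102) r7_10 r0_102 (nat_lit 0) (nat_lit 0) (nat_lit 0) (nat_lit 0x7f8d00f78) (nat_lit 1081343624),
  Rx.mk (nat_lit 475) (nat_lit 3) (nat_lit 3) (nat_lit 7) (nat_lit 7) (nat_lit 9) (nat_lit 103) r7_9 r0_103 (nat_lit 0) (nat_lit 0) (nat_lit 0) (nat_lit 0x80029938e) (nat_lit 1073741824),
  Rx.mk (nat_lit 507) (nat_lit 3) (nat_lit 7) (nat_lit 7) (nat_lit 7) (nat_lit 8) (nat_lit 104) r7_8 r0_104 (nat_lit 0) (nat_lit 0) (nat_lit 0) (nat_lit 0x7ff7bb07a) (nat_lit 1074439424)]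
noncomputable def e13_1 : List Rx := [
  Rx.mk (nat_lit 0) (nat_lit 0) (nat_lit 0) (nat_lit 0) (nat_lit 0) (nat_lit 11) (nat_lit 107) r7_11 r1_107 (nat_lit 1562278) (nat_lit 10629653) (nat_lit 861237) (nat_lit 0x3d73cabcc) (nat_lit 2196411992),
  Rx.mk (nat_lit 2) (nat_lit 2) (nat_lit 0) (nat_lit 0) (nat_lit 1) (nat_lit 14) (nat_lit 111) r7_14 r1_111 (nat_lit 0) (nat_lit 2019292) (nat_lit 764768) (nat_lit 0x637a26ad6) (nat_lit 1552157184),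
  Rx.mk (nat_lit 18) (nat_lit 2) (nat_lit 2) (nat_lit 0) (nat_lit 3) (nat_lit 16) (nat_lit 114) r7_16 r1_114 (nat_lit 0) (nat_lit 0) (nat_lit 3945399) (nat_lit 0x7a30f8c9e) (nat_lit 1174620723),
  Rx.mk (nat_lit 146) (nat_lit 2) (nat_lit 2) (nat_lit 2) (nat_lit 7) (nat_lit 17) (nat_lit 116) r7_17 r1_116 (nat_lit 0) (nat_lit 0) (nat_lit 0) (nat_lit 0x80029938e) (nat_lit 1073741824),
  Rx.mk (nat_lit 192) (nat_lit 0) (nat_lit 0) (nat_lit 3) (nat_lit 4) (nat_lit 12) (nat_lit 108) r7_12 r1_108 (nat_lit 16900660) (nat_lit 181791674) (nat_lit 0) (nat_lit 0x795055188) (nat_lit 1384004258),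
  Rx.mk (nat_lit 194) (nat_lit 2) (nat_lit 0) (nat_lit 3) (nat_lit 5) (nat_lit 15) (nat_lit 112) r7_15 r1_112 (nat_lit 0) (nat_lit 6527677) (nat_lit 0) (nat_lit 0x7ff713d3e) (nat_lit 1081006201),
  Rx.mk (nat_lit 210) (nat_lit 2) (nat_lit 2) (nat_lit 3) (nat_lit 7) (nat_lit 18) (nat_lit 115) r7_18 r1_115 (nat_lit 0) (nat_lit 0) (nat_lit 0) (nat_lit 0x80029938e) (nat_lit 1073741824),
  Rx.mk (nat_lit 216) (nat_lit 0) (nat_lit 3) (nat_lit 3) (nat_lit 6) (nat_lit 13) (nat_lit 109) r7_13 r1_109 (nat_lit 4413768) (nat_lit 0) (nat_lit 0) (nat_lit 0x800030c78) (nat_lit 1078308092),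
  Rx.mk (nat_lit 218) (nat_lit 2) (nat_lit 3) (nat_lit 3) (nat_lit 7) (nat_lit 19) (nat_lit 113) r7_19 r1_113 (nat_lit 0) (nat_lit 0) (nat_lit 0) (nat_lit 0x8017d4d3e) (nat_lit 1072381924),
  Rx.mk (nat_lit 219) (nat_lit 3) (nat_lit 3) (nat_lit 3) (nat_lit 7) (nat_lit 20) (nat_lit 110) r7_20 r1_110 (nat_lit 0) (nat_lit 0) (nat_lit 0) (nat_lit 0x80029938e) (nat_lit 1073741824)]
noncomputable def e13_2 : List Rx := [
  Rx.mk (nat_lit 0) (nat_lit 0) (nat_lit 0) (nat_lit 0) (nat_lit 0) (nat_lit 21) (nat_lit 101) r7_21 r2_101 (nat_lit 161181) (nat_lit 399938) (nat_lit 194986) (nat_lit 0x36448175a) (nat_lit 2303875029),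
  Rx.mk (nat_lit 2) (nat_lit 2) (nat_lit 0) (nat_lit 0) (nat_lit 1) (nat_lit 26) (nat_lit 107) r7_26 r2_107 (nat_lit 0) (nat_lit 11611348) (nat_lit 3553214) (nat_lit 0x6c960b1d0) (nat_lit 1412675886),
  Rx.mk (nat_lit 18) (nat_lit 2) (nat_lit 2) (nat_lit 0) (nat_lit 3) (nat_lit 28) (nat_lit 112) r7_28 r2_112 (nat_lit 0) (nat_lit 0) (nat_lit 5449534) (nat_lit 0x7ffaf9476) (nat_lit 1079680458),
  Rx.mk (nat_lit 24) (nat_lit 0) (nat_lit 3) (nat_lit 0) (nat_lit 2) (nat_lit 23) (nat_lit 103) r7_23 r2_103 (nat_lit 1580289) (nat_lit 0) (nat_lit 1909851) (nat_lit 0x70324666e) (nat_lit 1340803264),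
  Rx.mk (nat_lit 26) (nat_lit 2) (nat_lit 3) (nat_lit 0) (nat_lit 3) (nat_lit 31) (nat_lit 109) r7_31 r2_109 (nat_lit 0) (nat_lit 0) (nat_lit 5449534) (nat_lit 0x7ffc30790) (nat_lit 1079602458),
  Rx.mk (nat_lit 64) (nat_lit 0) (nat_lit 0) (nat_lit 1) (nat_lit 4) (nat_lit 22) (nat_lit 102) r7_22 r2_102 (nat_lit 5199218) (nat_lit 5488875) (nat_lit 0) (nat_lit 0x56490c8ae) (nat_lit 1780021717),
  Rx.mk (nat_lit 66) (nat_lit 2) (nat_lit 0) (nat_lit 1) (nat_lit 5) (nat_lit 27) (nat_lit 108) r7_27 r2_108 (nat_lit 0) (nat_lit 5449534) (nat_lit 0) (nat_lit 0x800095baa) (nat_lit 1079320458),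
  Rx.mk (nat_lit 82) (nat_lit 2) (nat_lit 2) (nat_lit 1) (nat_lit 7) (nat_lit 29) (nat_lit 113) r7_29 r2_113 (nat_lit 0) (nat_lit 0) (nat_lit 0) (nat_lit 0x80029938e) (nat_lit 1073741824),
  Rx.mk (nat_lit 88) (nat_lit 0) (nat_lit 3) (nat_lit 1) (nat_lit 6) (nat_lit 24) (nat_lit 104) r7_24 r2_104 (nat_lit 5449534) (nat_lit 0) (nat_lit 0) (nat_lit 0x80029938e) (nat_lit 1079191358),
  Rx.mk (nat_lit 90) (nat_lit 2) (nat_lit 3) (nat_lit 1) (nat_lit 7) (nat_lit 32) (nat_lit 110) r7_32 r2_110 (nat_lit 0) (nat_lit 0) (nat_lit 0) (nat_lit 0x80029938e) (nat_lit 1073741824),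
  Rx.mk (nat_lit 146) (nat_lit 2) (nat_lit 2) (nat_lit 2) (nat_lit 7) (nat_lit 30) (nat_lit 114) r7_30 r2_114 (nat_lit 0) (nat_lit 0) (nat_lit 0) (nat_lit 0x80029938e) (nat_lit 1073741824),
  Rx.mk (nat_lit 216) (nat_lit 0) (nat_lit 3) (nat_lit 3) (nat_lit 6) (nat_lit 25) (nat_lit 105) r7_25 r2_105 (nat_lit 5449534) (nat_lit 0) (nat_lit 0) (nat_lit 0x7ffed32b8) (nat_lit 1079433358),
  Rx.mk (nat_lit 218) (nat_lit 2) (nat_lit 3) (nat_lit 3) (nat_lit 7) (nat_lit 33) (nat_lit 111) r7_33 r2_111 (nat_lit 0) (nat_lit 0) (nat_lit 0) (nat_lit 0x80029938e) (nat_lit 1073741824),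
  Rx.mk (nat_lit 219) (nat_lit 3) (nat_lit 3) (nat_lit 3) (nat_lit 7) (nat_lit 34) (nat_lit 106) r7_34 r2_106 (nat_lit 0) (nat_lit 0) (nat_lit 0) (nat_lit 0x80029938e) (nat_lit 1073741824)]
noncomputable def e13_3 : List Rx := [
  Rx.mk (nat_lit 315) (nat_lit 3) (nat_lit 7) (nat_lit 4) (nat_lit 3) (nat_lit 36) (nat_lit 102) r7_36 r3_102 (nat_lit 0) (nat_lit 0) (nat_lit 41954) (nat_lit 0x8a20ca506) (nat_lit 910018078),
  Rx.mk (nat_lit 472) (nat_lit 0) (nat_lit 3) (nat_lit 7) (nat_lit 6) (nat_lit 35) (nat_lit 100) r7_35 r3_100 (nat_lit 41954) (nat_lit 0) (nat_lit 0) (nat_lit 0x8a20ca506) (nat_lit 910018078),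
  Rx.mk (nat_lit 475) (nat_lit 3) (nat_lit 3) (nat_lit 7) (nat_lit 7) (nat_lit 38) (nat_lit 101) r7_38 r3_101 (nat_lit 0) (nat_lit 0) (nat_lit 0) (nat_lit 0x7fd20ba96) (nat_lit 1076872124),
  Rx.mk (nat_lit 507) (nat_lit 3) (nat_lit 7) (nat_lit 7) (nat_lit 7) (nat_lit 37) (nat_lit 103) r7_37 r3_103 (nat_lit 0) (nat_lit 0) (nat_lit 0) (nat_lit 0x7fd20ba96) (nat_lit 1076872124)]
noncomputable def e13_4 : List Rx := [
  Rx.mk (nat_lit 192) (nat_lit 0) (nat_lit 0) (nat_lit 3) (nat_lit 4) (nat_lit 39) (nat_lit 98) r7_39 r4_98 (nat_lit 2244627) (nat_lit 13528971) (nat_lit 0) (nat_lit 0x667a08362) (nat_lit 1515142422),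
  Rx.mk (nat_lit 194) (nat_lit 2) (nat_lit 0) (nat_lit 3) (nat_lit 5) (nat_lit 42) (nat_lit 104) r7_42 r4_104 (nat_lit 0) (nat_lit 7450969) (nat_lit 0) (nat_lit 0x7fd285fbc) (nat_lit 1084281793),
  Rx.mk (nat_lit 210) (nat_lit 2) (nat_lit 2) (nat_lit 3) (nat_lit 7) (nat_lit 43) (nat_lit 106) r7_43 r4_106 (nat_lit 0) (nat_lit 0) (nat_lit 0) (nat_lit 0x80029938e) (nat_lit 1073741824),
  Rx.mk (nat_lit 216) (nat_lit 0) (nat_lit 3) (nat_lit 3) (nat_lit 6) (nat_lit 41) (nat_lit 99) r7_41 r4_99 (nat_lit 2541329) (nat_lit 0) (nat_lit 0) (nat_lit 0x7e988d356) (nat_lit 1099798353),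
  Rx.mk (nat_lit 218) (nat_lit 2) (nat_lit 3) (nat_lit 3) (nat_lit 7) (nat_lit 44) (nat_lit 105) r7_44 r4_105 (nat_lit 0) (nat_lit 0) (nat_lit 0) (nat_lit 0x807650df4) (nat_lit 1066373124),
  Rx.mk (nat_lit 315) (nat_lit 3) (nat_lit 7) (nat_lit 4) (nat_lit 3) (nat_lit 45) (nat_lit 102) r7_45 r4_102 (nat_lit 0) (nat_lit 0) (nat_lit 3003842) (nat_lit 0x801bcccc0) (nat_lit 1075130666),
  Rx.mk (nat_lit 472) (nat_lit 0) (nat_lit 3) (nat_lit 7) (nat_lit 6) (nat_lit 40) (nat_lit 100) r7_40 r4_100 (nat_lit 3253254) (nat_lit 0) (nat_lit 0) (nat_lit 0x802f743a4) (nat_lit 1074127178),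
  Rx.mk (nat_lit 475) (nat_lit 3) (nat_lit 3) (nat_lit 7) (nat_lit 7) (nat_lit 47) (nat_lit 101) r7_47 r4_101 (nat_lit 0) (nat_lit 0) (nat_lit 0) (nat_lit 0x80029938e) (nat_lit 1073741824),
  Rx.mk (nat_lit 507) (nat_lit 3) (nat_lit 7) (nat_lit 7) (nat_lit 7) (nat_lit 46) (nat_lit 103) r7_46 r4_103 (nat_lit 0) (nat_lit 0) (nat_lit 0) (nat_lit 0x80029938e) (nat_lit 1073741824)]
noncomputable def e13_5 : List Rx := [
  Rx.mk (nat_lit 283) (nat_lit 3) (nat_lit 3) (nat_lit 4) (nat_lit 3) (nat_lit 50) (nat_lit 103) r7_50 r5_103 (nat_lit 0) (nat_lit 0) (nat_lit 3797391) (nat_lit 0x7bc59188c) (nat_lit 1148120715),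
  Rx.mk (nat_lit 315) (nat_lit 3) (nat_lit 7) (nat_lit 4) (nat_lit 3) (nat_lit 49) (nat_lit 105) r7_49 r5_105 (nat_lit 0) (nat_lit 0) (nat_lit 1265249) (nat_lit 0x7ff9d6b48) (nat_lit 1075552073),
  Rx.mk (nat_lit 472) (nat_lit 0) (nat_lit 3) (nat_lit 7) (nat_lit 6) (nat_lit 48) (nat_lit 102) r7_48 r5_102 (nat_lit 1535629) (nat_lit 0) (nat_lit 0) (nat_lit 0x807a5a904) (nat_lit 1067648753),
  Rx.mk (nat_lit 475) (nat_lit 3) (nat_lit 3) (nat_lit 7) (nat_lit 7) (nat_lit 51) (nat_lit 104) r7_51 r5_104 (nat_lit 0) (nat_lit 0) (nat_lit 0) (nat_lit 0x7ff327c3e) (nat_lit 1074733924)]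
noncomputable def e13_6 : List Rx := [
  Rx.mk (nat_lit 320) (nat_lit 0) (nat_lit 0) (nat_lit 5) (nat_lit 4) (nat_lit 52) (nat_lit 167) r7_52 r3_167 (nat_lit 17692) (nat_lit 13620) (nat_lit 0) (nat_lit 0x66343bea6) (nat_lit 1503873036),
  Rx.mk (nat_lit 321) (nat_lit 1) (nat_lit 0) (nat_lit 5) (nat_lit 5) (nat_lit 54) (nat_lit 168) r7_54 r3_168 (nat_lit 0) (nat_lit 3317218) (nat_lit 0) (nat_lit 0x73b921fbe) (nat_lit 1281818742),
  Rx.mk (nat_lit 344) (nat_lit 0) (nat_lit 3) (nat_lit 5) (nat_lit 6) (nat_lit 53) (nat_lit 169) r7_53 r3_169 (nat_lit 51739) (nat_lit 0) (nat_lit 0) (nat_lit 0x8025c8a44) (nat_lit 1071420663),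
  Rx.mk (nat_lit 345) (nat_lit 1) (nat_lit 3) (nat_lit 5) (nat_lit 7) (nat_lit 55) (nat_lit 170) r7_55 r3_170 (nat_lit 0) (nat_lit 0) (nat_lit 0) (nat_lit 0x89c325cac) (nat_lit 915957624)]
noncomputable def e13_7 : List Rx := [
  Rx.mk (nat_lit 64) (nat_lit 0) (nat_lit 0) (nat_lit 1) (nat_lit 4) (nat_lit 57) (nat_lit 178) r7_57 r0_178 (nat_lit 327140) (nat_lit 944100) (nat_lit 0) (nat_lit 0x5bb8077f4) (nat_lit 1679970364),
  Rx.mk (nat_lit 65) (nat_lit 1) (nat_lit 0) (nat_lit 1) (nat_lit 5) (nat_lit 60) (nat_lit 180) r7_60 r0_180 (nat_lit 0) (nat_lit 5137059) (nat_lit 0) (nat_lit 0x7a3a629c4) (nat_lit 1175198083),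
  Rx.mk (nat_lit 66) (nat_lit 2) (nat_lit 0) (nat_lit 1) (nat_lit 5) (nat_lit 62) (nat_lit 181) r7_62 r0_181 (nat_lit 0) (nat_lit 171422861) (nat_lit 0) (nat_lit 0x80556c2a0) (nat_lit 1239814685),
  Rx.mk (nat_lit 88) (nat_lit 0) (nat_lit 3) (nat_lit 1) (nat_lit 6) (nat_lit 58) (nat_lit 182) r7_58 r0_182 (nat_lit 1461987) (nat_lit 0) (nat_lit 0) (nat_lit 0x7ffe1df6c) (nat_lit 1075483511),
  Rx.mk (nat_lit 89) (nat_lit 1) (nat_lit 3) (nat_lit 1) (nat_lit 7) (nat_lit 61) (nat_lit 183) r7_61 r0_183 (nat_lit 0) (nat_lit 0) (nat_lit 0) (nat_lit 0x802680a22) (nat_lit 1071441624),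
  Rx.mk (nat_lit 90) (nat_lit 2) (nat_lit 3) (nat_lit 1) (nat_lit 7) (nat_lit 63) (nat_lit 184) r7_63 r0_184 (nat_lit 0) (nat_lit 0) (nat_lit 0) (nat_lit 0x806ab61b0) (nat_lit 1067109724),
  Rx.mk (nat_lit 320) (nat_lit 0) (nat_lit 0) (nat_lit 5) (nat_lit 4) (nat_lit 56) (nat_lit 177) r7_56 r0_177 (nat_lit 216055) (nat_lit 1073466) (nat_lit 0) (nat_lit 0x52f01064a) (nat_lit 1826388745),
  Rx.mk (nat_lit 321) (nat_lit 1) (nat_lit 0) (nat_lit 5) (nat_lit 5) (nat_lit 59) (nat_lit 179) r7_59 r0_179 (nat_lit 0) (nat_lit 1922278) (nat_lit 0) (nat_lit 0x6264701d4) (nat_lit 1569386202)]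
noncomputable def e13_8 : List Rx := [
  Rx.mk (nat_lit 64) (nat_lit 0) (nat_lit 0) (nat_lit 1) (nat_lit 4) (nat_lit 64) (nat_lit 192) r7_64 r1_192 (nat_lit 18024927) (nat_lit 13272121) (nat_lit 0) (nat_lit 0x679c04a46) (nat_lit 1511783172),
  Rx.mk (nat_lit 65) (nat_lit 1) (nat_lit 0) (nat_lit 1) (nat_lit 5) (nat_lit 66) (nat_lit 193) r7_66 r1_193 (nat_lit 0) (nat_lit 6367424) (nat_lit 0) (nat_lit 0x7fc15ea7c) (nat_lit 1084313548),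
  Rx.mk (nat_lit 66) (nat_lit 2) (nat_lit 0) (nat_lit 1) (nat_lit 5) (nat_lit 68) (nat_lit 194) r7_68 r1_194 (nat_lit 0) (nat_lit 50165941) (nat_lit 0) (nat_lit 0x874d452b4) (nat_lit 1005906665),
  Rx.mk (nat_lit 82) (nat_lit 2) (nat_lit 2) (nat_lit 1) (nat_lit 7) (nat_lit 69) (nat_lit 198) r7_69 r1_198 (nat_lit 0) (nat_lit 0) (nat_lit 0) (nat_lit 0x80f9b7260) (nat_lit 1058059324),
  Rx.mk (nat_lit 88) (nat_lit 0) (nat_lit 3) (nat_lit 1) (nat_lit 6) (nat_lit 65) (nat_lit 195) r7_65 r1_195 (nat_lit 3131027) (nat_lit 0) (nat_lit 0) (nat_lit 0x8039b0930) (nat_lit 1073355051),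
  Rx.mk (nat_lit 89) (nat_lit 1) (nat_lit 3) (nat_lit 1) (nat_lit 7) (nat_lit 67) (nat_lit 196) r7_67 r1_196 (nat_lit 0) (nat_lit 0) (nat_lit 0) (nat_lit 0x8013c631e) (nat_lit 1072641324),
  Rx.mk (nat_lit 90) (nat_lit 2) (nat_lit 3) (nat_lit 1) (nat_lit 7) (nat_lit 70) (nat_lit 197) r7_70 r1_197 (nat_lit 0) (nat_lit 0) (nat_lit 0) (nat_lit 0x8013c631e) (nat_lit 1072641324)]
noncomputable def e13_9 : List Rx := [
  Rx.mk (nat_lit 88) (nat_lit 0) (nat_lit 3) (nat_lit 1) (nat_lit 6) (nat_lit 73) (nat_lit 170) r7_73 r4_170 (nat_lit 2874909) (nat_lit 0) (nat_lit 0) (nat_lit 0x8041c95d6) (nat_lit 1072582433),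
  Rx.mk (nat_lit 89) (nat_lit 1) (nat_lit 3) (nat_lit 1) (nat_lit 7) (nat_lit 76) (nat_lit 172) r7_76 r4_172 (nat_lit 0) (nat_lit 0) (nat_lit 0) (nat_lit 0x80261c34c) (nat_lit 1071470624),
  Rx.mk (nat_lit 90) (nat_lit 2) (nat_lit 3) (nat_lit 1) (nat_lit 7) (nat_lit 77) (nat_lit 173) r7_77 r4_173 (nat_lit 0) (nat_lit 0) (nat_lit 0) (nat_lit 0x80261c34c) (nat_lit 1071470624),
  Rx.mk (nat_lit 320) (nat_lit 0) (nat_lit 0) (nat_lit 5) (nat_lit 4) (nat_lit 71) (nat_lit 167) r7_71 r4_167 (nat_lit 2628537) (nat_lit 6409400) (nat_lit 0) (nat_lit 0x64e7bb690) (nat_lit 1534609061),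
  Rx.mk (nat_lit 321) (nat_lit 1) (nat_lit 0) (nat_lit 5) (nat_lit 5) (nat_lit 74) (nat_lit 168) r7_74 r4_168 (nat_lit 0) (nat_lit 4040041) (nat_lit 0) (nat_lit 0x8012909e0) (nat_lit 1076761165),
  Rx.mk (nat_lit 344) (nat_lit 0) (nat_lit 3) (nat_lit 5) (nat_lit 6) (nat_lit 72) (nat_lit 169) r7_72 r4_169 (nat_lit 1693168) (nat_lit 0) (nat_lit 0) (nat_lit 0x7fb51bd00) (nat_lit 1080428292),
  Rx.mk (nat_lit 345) (nat_lit 1) (nat_lit 3) (nat_lit 5) (nat_lit 7) (nat_lit 75) (nat_lit 171) r7_75 r4_171 (nat_lit 0) (nat_lit 0) (nat_lit 0) (nat_lit 0x8073a79e0) (nat_lit 1066541824)]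
noncomputable def e13_10 : List Rx := [
  Rx.mk (nat_lit 280) (nat_lit 0) (nat_lit 3) (nat_lit 4) (nat_lit 2) (nat_lit 78) (nat_lit 106) r7_78 r6_106 (nat_lit 277079) (nat_lit 0) (nat_lit 264914) (nat_lit 0x6d02a6830) (nat_lit 1390940117),
  Rx.mk (nat_lit 281) (nat_lit 1) (nat_lit 3) (nat_lit 4) (nat_lit 3) (nat_lit 81) (nat_lit 109) r7_81 r6_109 (nat_lit 0) (nat_lit 0) (nat_lit 1891092) (nat_lit 0x8064b8aba) (nat_lit 1069380816),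
  Rx.mk (nat_lit 283) (nat_lit 3) (nat_lit 3) (nat_lit 4) (nat_lit 3) (nat_lit 86) (nat_lit 112) r7_86 r6_112 (nat_lit 0) (nat_lit 0) (nat_lit 5719758) (nat_lit 0x7fc989026) (nat_lit 1083137982),
  Rx.mk (nat_lit 315) (nat_lit 3) (nat_lit 7) (nat_lit 4) (nat_lit 3) (nat_lit 84) (nat_lit 114) r7_84 r6_114 (nat_lit 0) (nat_lit 0) (nat_lit 1281739) (nat_lit 0x8015d28a6) (nat_lit 1073788363),
  Rx.mk (nat_lit 344) (nat_lit 0) (nat_lit 3) (nat_lit 5) (nat_lit 6) (nat_lit 79) (nat_lit 107) r7_79 r6_107 (nat_lit 2237591) (nat_lit 0) (nat_lit 0) (nat_lit 0x8056375b8) (nat_lit 1070643615),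
  Rx.mk (nat_lit 345) (nat_lit 1) (nat_lit 3) (nat_lit 5) (nat_lit 7) (nat_lit 82) (nat_lit 110) r7_82 r6_110 (nat_lit 0) (nat_lit 0) (nat_lit 0) (nat_lit 0x804959148) (nat_lit 1069226624),
  Rx.mk (nat_lit 347) (nat_lit 3) (nat_lit 3) (nat_lit 5) (nat_lit 7) (nat_lit 87) (nat_lit 113) r7_87 r6_113 (nat_lit 0) (nat_lit 0) (nat_lit 0) (nat_lit 0x80029938e) (nat_lit 1073741824),
  Rx.mk (nat_lit 379) (nat_lit 3) (nat_lit 7) (nat_lit 5) (nat_lit 7) (nat_lit 85) (nat_lit 115) r7_85 r6_115 (nat_lit 0) (nat_lit 0) (nat_lit 0) (nat_lit 0x80f0600f4) (nat_lit 1058649324),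
  Rx.mk (nat_lit 472) (nat_lit 0) (nat_lit 3) (nat_lit 7) (nat_lit 6) (nat_lit 80) (nat_lit 108) r7_80 r6_108 (nat_lit 1598900) (nat_lit 0) (nat_lit 0) (nat_lit 0x80a515d4c) (nat_lit 1065015624),
  Rx.mk (nat_lit 473) (nat_lit 1) (nat_lit 3) (nat_lit 7) (nat_lit 7) (nat_lit 83) (nat_lit 111) r7_83 r6_111 (nat_lit 0) (nat_lit 0) (nat_lit 0) (nat_lit 0x80aedf3b4) (nat_lit 1062792024)]
noncomputable def e13_11 : List Rx := [
  Rx.mk (nat_lit 320) (nat_lit 0) (nat_lit 0) (nat_lit 5) (nat_lit 4) (nat_lit 88) (nat_lit 184) r7_88 r5_184 (nat_lit 2284157) (nat_lit 10009322) (nat_lit 0) (nat_lit 0x6e04ad22c) (nat_lit 1385922203),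
  Rx.mk (nat_lit 321) (nat_lit 1) (nat_lit 0) (nat_lit 5) (nat_lit 5) (nat_lit 90) (nat_lit 185) r7_90 r5_185 (nat_lit 0) (nat_lit 5449534) (nat_lit 0) (nat_lit 0x80029938e) (nat_lit 1079191358),
  Rx.mk (nat_lit 344) (nat_lit 0) (nat_lit 3) (nat_lit 5) (nat_lit 6) (nat_lit 89) (nat_lit 186) r7_89 r5_186 (nat_lit 2216475) (nat_lit 0) (nat_lit 0) (nat_lit 0x802e1cf2e) (nat_lit 1073168099),
  Rx.mk (nat_lit 345) (nat_lit 1) (nat_lit 3) (nat_lit 5) (nat_lit 7) (nat_lit 91) (nat_lit 187) r7_91 r5_187 (nat_lit 0) (nat_lit 0) (nat_lit 0) (nat_lit 0x8045fce28) (nat_lit 1069439724),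
  Rx.mk (nat_lit 347) (nat_lit 3) (nat_lit 3) (nat_lit 5) (nat_lit 7) (nat_lit 92) (nat_lit 188) r7_92 r5_188 (nat_lit 0) (nat_lit 0) (nat_lit 0) (nat_lit 0x7fe8d0dda) (nat_lit 1075400424)]
noncomputable def e13_12 : List Rx := [
  Rx.mk (nat_lit 295) (nat_lit 7) (nat_lit 4) (nat_lit 4) (nat_lit 1) (nat_lit 96) (nat_lit 100) r7_96 r0_100 (nat_lit 0) (nat_lit 12742526) (nat_lit 16582240) (nat_lit 0x6135e2f48) (nat_lit 1616501090),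
  Rx.mk (nat_lit 319) (nat_lit 7) (nat_lit 7) (nat_lit 4) (nat_lit 3) (nat_lit 99) (nat_lit 101) r7_99 r0_101 (nat_lit 0) (nat_lit 0) (nat_lit 2775314) (nat_lit 0x6ed474154) (nat_lit 1362877338),
  Rx.mk (nat_lit 420) (nat_lit 4) (nat_lit 4) (nat_lit 6) (nat_lit 4) (nat_lit 93) (nat_lit 105) r7_93 r0_105 (nat_lit 146838) (nat_lit 747955) (nat_lit 0) (nat_lit 0x5e9ce2aac) (nat_lit 1631332817),
  Rx.mk (nat_lit 423) (nat_lit 7) (nat_lit 4) (nat_lit 6) (nat_lit 5) (nat_lit 97) (nat_lit 106) r7_97 r0_106 (nat_lit 0) (nat_lit 26061368) (nat_lit 0) (nat_lit 0x7f3c3650c) (nat_lit 1112650392),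
  Rx.mk (nat_lit 436) (nat_lit 4) (nat_lit 6) (nat_lit 6) (nat_lit 6) (nat_lit 94) (nat_lit 108) r7_94 r0_108 (nat_lit 4219351) (nat_lit 0) (nat_lit 0) (nat_lit 0x735136a1c) (nat_lit 1289505675),
  Rx.mk (nat_lit 438) (nat_lit 6) (nat_lit 6) (nat_lit 6) (nat_lit 7) (nat_lit 95) (nat_lit 110) r7_95 r0_110 (nat_lit 0) (nat_lit 0) (nat_lit 0) (nat_lit 0x7ff997768) (nat_lit 1074319724),
  Rx.mk (nat_lit 439) (nat_lit 7) (nat_lit 6) (nat_lit 6) (nat_lit 7) (nat_lit 98) (nat_lit 109) r7_98 r0_109 (nat_lit 0) (nat_lit 0) (nat_lit 0) (nat_lit 0x7ff9f25aa) (nat_lit 1074297324),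
  Rx.mk (nat_lit 447) (nat_lit 7) (nat_lit 7) (nat_lit 6) (nat_lit 7) (nat_lit 100) (nat_lit 107) r7_100 r0_107 (nat_lit 0) (nat_lit 0) (nat_lit 0) (nat_lit 0x7fecaec36) (nat_lit 1075148224),
  Rx.mk (nat_lit 475) (nat_lit 3) (nat_lit 3) (nat_lit 7) (nat_lit 7) (nat_lit 103) (nat_lit 104) r7_103 r0_104 (nat_lit 0) (nat_lit 0) (nat_lit 0) (nat_lit 0x7ff7bb07a) (nat_lit 1074439424),
  Rx.mk (nat_lit 507) (nat_lit 3) (nat_lit 7) (nat_lit 7) (nat_lit 7) (nat_lit 102) (nat_lit 103) r7_102 r0_103 (nat_lit 0) (nat_lit 0) (nat_lit 0) (nat_lit 0x80029938e) (nat_lit 1073741824),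
  Rx.mk (nat_lit 511) (nat_lit 7) (nat_lit 7) (nat_lit 7) (nat_lit 7) (nat_lit 101) (nat_lit 102) r7_101 r0_102 (nat_lit 0) (nat_lit 0) (nat_lit 0) (nat_lit 0x7f8d00f78) (nat_lit 1081343624)]
noncomputable def e13_13 : List Rx := [
  Rx.mk (nat_lit 2) (nat_lit 2) (nat_lit 0) (nat_lit 0) (nat_lit 1) (nat_lit 117) (nat_lit 109) r7_117 r7_109 (nat_lit 0) (nat_lit 152198) (nat_lit 126869) (nat_lit 0x6481272c6) (nat_lit 1532484491),
  Rx.mk (nat_lit 18) (nat_lit 2) (nat_lit 2) (nat_lit 0) (nat_lit 3) (nat_lit 119) (nat_lit 112) r7_119 r7_112 (nat_lit 0) (nat_lit 0) (nat_lit 1677355) (nat_lit 0x7fc971d40) (nat_lit 1079107579),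
  Rx.mk (nat_lit 146) (nat_lit 2) (nat_lit 2) (nat_lit 2) (nat_lit 7) (nat_lit 120) (nat_lit 114) r7_120 r7_114 (nat_lit 0) (nat_lit 0) (nat_lit 0) (nat_lit 0x80029938e) (nat_lit 1073741824),
  Rx.mk (nat_lit 150) (nat_lit 6) (nat_lit 2) (nat_lit 2) (nat_lit 7) (nat_lit 108) (nat_lit 123) r7_108 r7_123 (nat_lit 0) (nat_lit 0) (nat_lit 0) (nat_lit 0x80029938e) (nat_lit 1073741824),
  Rx.mk (nat_lit 182) (nat_lit 6) (nat_lit 6) (nat_lit 2) (nat_lit 7) (nat_lit 107) (nat_lit 124) r7_107 r7_124 (nat_lit 0) (nat_lit 0) (nat_lit 0) (nat_lit 0x80029938e) (nat_lit 1073741824),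
  Rx.mk (nat_lit 192) (nat_lit 0) (nat_lit 0) (nat_lit 3) (nat_lit 4) (nat_lit 115) (nat_lit 104) r7_115 r7_104 (nat_lit 126869) (nat_lit 152198) (nat_lit 0) (nat_lit 0x6481272c6) (nat_lit 1532484491),
  Rx.mk (nat_lit 194) (nat_lit 2) (nat_lit 0) (nat_lit 3) (nat_lit 5) (nat_lit 118) (nat_lit 110) r7_118 r7_110 (nat_lit 0) (nat_lit 6216449) (nat_lit 0) (nat_lit 0x7f3437dba) (nat_lit 1093328873),
  Rx.mk (nat_lit 210) (nat_lit 2) (nat_lit 2) (nat_lit 3) (nat_lit 7) (nat_lit 121) (nat_lit 113) r7_121 r7_113 (nat_lit 0) (nat_lit 0) (nat_lit 0) (nat_lit 0x802fbebfc) (nat_lit 1070857524),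
  Rx.mk (nat_lit 216) (nat_lit 0) (nat_lit 3) (nat_lit 3) (nat_lit 6) (nat_lit 116) (nat_lit 105) r7_116 r7_105 (nat_lit 1677355) (nat_lit 0) (nat_lit 0) (nat_lit 0x7fc971d40) (nat_lit 1079107579),
  Rx.mk (nat_lit 218) (nat_lit 2) (nat_lit 3) (nat_lit 3) (nat_lit 7) (nat_lit 122) (nat_lit 111) r7_122 r7_111 (nat_lit 0) (nat_lit 0) (nat_lit 0) (nat_lit 0x802fbebfc) (nat_lit 1070857524),
  Rx.mk (nat_lit 219) (nat_lit 3) (nat_lit 3) (nat_lit 3) (nat_lit 7) (nat_lit 125) (nat_lit 106) r7_125 r7_106 (nat_lit 0) (nat_lit 0) (nat_lit 0) (nat_lit 0x80029938e) (nat_lit 1073741824),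
  Rx.mk (nat_lit 295) (nat_lit 7) (nat_lit 4) (nat_lit 4) (nat_lit 1) (nat_lit 109) (nat_lit 117) r7_109 r7_117 (nat_lit 0) (nat_lit 152198) (nat_lit 126869) (nat_lit 0x6481272c6) (nat_lit 1532484491),
  Rx.mk (nat_lit 319) (nat_lit 7) (nat_lit 7) (nat_lit 4) (nat_lit 3) (nat_lit 112) (nat_lit 119) r7_112 r7_119 (nat_lit 0) (nat_lit 0) (nat_lit 1677355) (nat_lit 0x7fc971d40) (nat_lit 1079107579),
  Rx.mk (nat_lit 420) (nat_lit 4) (nat_lit 4) (nat_lit 6) (nat_lit 4) (nat_lit 104) (nat_lit 115) r7_104 r7_115 (nat_lit 126869) (nat_lit 152198) (nat_lit 0) (nat_lit 0x6481272c6) (nat_lit 1532484491),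
  Rx.mk (nat_lit 423) (nat_lit 7) (nat_lit 4) (nat_lit 6) (nat_lit 5) (nat_lit 110) (nat_lit 118) r7_110 r7_118 (nat_lit 0) (nat_lit 6216449) (nat_lit 0) (nat_lit 0x7f3437dba) (nat_lit 1093328873),
  Rx.mk (nat_lit 436) (nat_lit 4) (nat_lit 6) (nat_lit 6) (nat_lit 6) (nat_lit 105) (nat_lit 116) r7_105 r7_116 (nat_lit 1677355) (nat_lit 0) (nat_lit 0) (nat_lit 0x7fc971d40) (nat_lit 1079107579),
  Rx.mk (nat_lit 438) (nat_lit 6) (nat_lit 6) (nat_lit 6) (nat_lit 7) (nat_lit 106) (nat_lit 125) r7_106 r7_125 (nat_lit 0) (nat_lit 0) (nat_lit 0) (nat_lit 0x80029938e) (nat_lit 1073741824),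
  Rx.mk (nat_lit 439) (nat_lit 7) (nat_lit 6) (nat_lit 6) (nat_lit 7) (nat_lit 111) (nat_lit 122) r7_111 r7_122 (nat_lit 0) (nat_lit 0) (nat_lit 0) (nat_lit 0x802fbebfc) (nat_lit 1070857524),
  Rx.mk (nat_lit 447) (nat_lit 7) (nat_lit 7) (nat_lit 6) (nat_lit 7) (nat_lit 113) (nat_lit 121) r7_113 r7_121 (nat_lit 0) (nat_lit 0) (nat_lit 0) (nat_lit 0x802fbebfc) (nat_lit 1070857524),
  Rx.mk (nat_lit 475) (nat_lit 3) (nat_lit 3) (nat_lit 7) (nat_lit 7) (nat_lit 124) (nat_lit 107) r7_124 r7_107 (nat_lit 0) (nat_lit 0) (nat_lit 0) (nat_lit 0x80029938e) (nat_lit 1073741824),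
  Rx.mk (nat_lit 507) (nat_lit 3) (nat_lit 7) (nat_lit 7) (nat_lit 7) (nat_lit 123) (nat_lit 108) r7_123 r7_108 (nat_lit 0) (nat_lit 0) (nat_lit 0) (nat_lit 0x80029938e) (nat_lit 1073741824),
  Rx.mk (nat_lit 511) (nat_lit 7) (nat_lit 7) (nat_lit 7) (nat_lit 7) (nat_lit 114) (nat_lit 120) r7_114 r7_120 (nat_lit 0) (nat_lit 0) (nat_lit 0) (nat_lit 0x80029938e) (nat_lit 1073741824)]
noncomputable def e13_14 : List Rx := [
  Rx.mk (nat_lit 292) (nat_lit 4) (nat_lit 4) (nat_lit 4) (nat_lit 0) (nat_lit 126) (nat_lit 107) r7_126 r1_107 (nat_lit 861237) (nat_lit 10629653) (nat_lit 1562278) (nat_lit 0x3d73cabcc) (nat_lit 2196411992),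
  Rx.mk (nat_lit 295) (nat_lit 7) (nat_lit 4) (nat_lit 4) (nat_lit 1) (nat_lit 130) (nat_lit 108) r7_130 r1_108 (nat_lit 0) (nat_lit 181791674) (nat_lit 16900660) (nat_lit 0x795055188) (nat_lit 1384004258),
  Rx.mk (nat_lit 319) (nat_lit 7) (nat_lit 7) (nat_lit 4) (nat_lit 3) (nat_lit 133) (nat_lit 109) r7_133 r1_109 (nat_lit 0) (nat_lit 0) (nat_lit 4413768) (nat_lit 0x800030c78) (nat_lit 1078308092),
  Rx.mk (nat_lit 420) (nat_lit 4) (nat_lit 4) (nat_lit 6) (nat_lit 4) (nat_lit 127) (nat_lit 111) r7_127 r1_111 (nat_lit 764768) (nat_lit 2019292) (nat_lit 0) (nat_lit 0x637a26ad6) (nat_lit 1552157184),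
  Rx.mk (nat_lit 423) (nat_lit 7) (nat_lit 4) (nat_lit 6) (nat_lit 5) (nat_lit 131) (nat_lit 112) r7_131 r1_112 (nat_lit 0) (nat_lit 6527677) (nat_lit 0) (nat_lit 0x7ff713d3e) (nat_lit 1081006201),
  Rx.mk (nat_lit 436) (nat_lit 4) (nat_lit 6) (nat_lit 6) (nat_lit 6) (nat_lit 128) (nat_lit 114) r7_128 r1_114 (nat_lit 3945399) (nat_lit 0) (nat_lit 0) (nat_lit 0x7a30f8c9e) (nat_lit 1174620723),
  Rx.mk (nat_lit 438) (nat_lit 6) (nat_lit 6) (nat_lit 6) (nat_lit 7) (nat_lit 129) (nat_lit 116) r7_129 r1_116 (nat_lit 0) (nat_lit 0) (nat_lit 0) (nat_lit 0x80029938e) (nat_lit 1073741824),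
  Rx.mk (nat_lit 439) (nat_lit 7) (nat_lit 6) (nat_lit 6) (nat_lit 7) (nat_lit 132) (nat_lit 115) r7_132 r1_115 (nat_lit 0) (nat_lit 0) (nat_lit 0) (nat_lit 0x80029938e) (nat_lit 1073741824),
  Rx.mk (nat_lit 447) (nat_lit 7) (nat_lit 7) (nat_lit 6) (nat_lit 7) (nat_lit 134) (nat_lit 113) r7_134 r1_113 (nat_lit 0) (nat_lit 0) (nat_lit 0) (nat_lit 0x8017d4d3e) (nat_lit 1072381924),
  Rx.mk (nat_lit 511) (nat_lit 7) (nat_lit 7) (nat_lit 7) (nat_lit 7) (nat_lit 135) (nat_lit 110) r7_135 r1_110 (nat_lit 0) (nat_lit 0) (nat_lit 0) (nat_lit 0x80029938e) (nat_lit 1073741824)]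
noncomputable def e13_15 : List Rx := [
  Rx.mk (nat_lit 150) (nat_lit 6) (nat_lit 2) (nat_lit 2) (nat_lit 7) (nat_lit 141) (nat_lit 87) r7_141 r8_87 (nat_lit 0) (nat_lit 0) (nat_lit 0) (nat_lit 0x80029938e) (nat_lit 1073741824),
  Rx.mk (nat_lit 182) (nat_lit 6) (nat_lit 6) (nat_lit 2) (nat_lit 7) (nat_lit 140) (nat_lit 88) r7_140 r8_88 (nat_lit 0) (nat_lit 0) (nat_lit 0) (nat_lit 0x80029938e) (nat_lit 1073741824),
  Rx.mk (nat_lit 292) (nat_lit 4) (nat_lit 4) (nat_lit 4) (nat_lit 0) (nat_lit 136) (nat_lit 78) r7_136 r8_78 (nat_lit 3697174) (nat_lit 9910720) (nat_lit 3078217) (nat_lit 0x365589f52) (nat_lit 2318735535),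
  Rx.mk (nat_lit 295) (nat_lit 7) (nat_lit 4) (nat_lit 4) (nat_lit 1) (nat_lit 142) (nat_lit 81) r7_142 r8_81 (nat_lit 0) (nat_lit 2289832) (nat_lit 2813309) (nat_lit 0x6a26a4636) (nat_lit 1443213565),
  Rx.mk (nat_lit 319) (nat_lit 7) (nat_lit 7) (nat_lit 4) (nat_lit 3) (nat_lit 145) (nat_lit 83) r7_145 r8_83 (nat_lit 0) (nat_lit 0) (nat_lit 5449534) (nat_lit 0x7ffa30abc) (nat_lit 1079730858),
  Rx.mk (nat_lit 420) (nat_lit 4) (nat_lit 4) (nat_lit 6) (nat_lit 4) (nat_lit 137) (nat_lit 79) r7_137 r8_79 (nat_lit 5820576) (nat_lit 5833776) (nat_lit 0) (nat_lit 0x62f217bb8) (nat_lit 1569901976),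
  Rx.mk (nat_lit 423) (nat_lit 7) (nat_lit 4) (nat_lit 6) (nat_lit 5) (nat_lit 143) (nat_lit 82) r7_143 r8_82 (nat_lit 0) (nat_lit 5449534) (nat_lit 0) (nat_lit 0x7ffb2a422) (nat_lit 1079668258),
  Rx.mk (nat_lit 436) (nat_lit 4) (nat_lit 6) (nat_lit 6) (nat_lit 6) (nat_lit 138) (nat_lit 80) r7_138 r8_80 (nat_lit 3594568) (nat_lit 0) (nat_lit 0) (nat_lit 0x7ff2cfe44) (nat_lit 1078347292),
  Rx.mk (nat_lit 438) (nat_lit 6) (nat_lit 6) (nat_lit 6) (nat_lit 7) (nat_lit 139) (nat_lit 89) r7_139 r8_89 (nat_lit 0) (nat_lit 0) (nat_lit 0) (nat_lit 0x80029938e) (nat_lit 1073741824),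
  Rx.mk (nat_lit 439) (nat_lit 7) (nat_lit 6) (nat_lit 6) (nat_lit 7) (nat_lit 144) (nat_lit 86) r7_144 r8_86 (nat_lit 0) (nat_lit 0) (nat_lit 0) (nat_lit 0x80029938e) (nat_lit 1073741824),
  Rx.mk (nat_lit 447) (nat_lit 7) (nat_lit 7) (nat_lit 6) (nat_lit 7) (nat_lit 146) (nat_lit 85) r7_146 r8_85 (nat_lit 0) (nat_lit 0) (nat_lit 0) (nat_lit 0x80029938e) (nat_lit 1073741824),
  Rx.mk (nat_lit 511) (nat_lit 7) (nat_lit 7) (nat_lit 7) (nat_lit 7) (nat_lit 147) (nat_lit 84) r7_147 r8_84 (nat_lit 0) (nat_lit 0) (nat_lit 0) (nat_lit 0x80029938e) (nat_lit 1073741824)]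
noncomputable def e13_16 : List Rx := [
  Rx.mk (nat_lit 0) (nat_lit 0) (nat_lit 0) (nat_lit 0) (nat_lit 0) (nat_lit 150) (nat_lit 78) r7_150 r8_78 (nat_lit 3078217) (nat_lit 9910720) (nat_lit 3697174) (nat_lit 0x365589f52) (nat_lit 2318735535),
  Rx.mk (nat_lit 2) (nat_lit 2) (nat_lit 0) (nat_lit 0) (nat_lit 1) (nat_lit 153) (nat_lit 79) r7_153 r8_79 (nat_lit 0) (nat_lit 5833776) (nat_lit 5820576) (nat_lit 0x62f217bb8) (nat_lit 1569901976),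
  Rx.mk (nat_lit 18) (nat_lit 2) (nat_lit 2) (nat_lit 0) (nat_lit 3) (nat_lit 155) (nat_lit 80) r7_155 r8_80 (nat_lit 0) (nat_lit 0) (nat_lit 3594568) (nat_lit 0x7ff2cfe44) (nat_lit 1078347292),
  Rx.mk (nat_lit 146) (nat_lit 2) (nat_lit 2) (nat_lit 2) (nat_lit 7) (nat_lit 156) (nat_lit 89) r7_156 r8_89 (nat_lit 0) (nat_lit 0) (nat_lit 0) (nat_lit 0x80029938e) (nat_lit 1073741824),
  Rx.mk (nat_lit 150) (nat_lit 6) (nat_lit 2) (nat_lit 2) (nat_lit 7) (nat_lit 149) (nat_lit 88) r7_149 r8_88 (nat_lit 0) (nat_lit 0) (nat_lit 0) (nat_lit 0x80029938e) (nat_lit 1073741824),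
  Rx.mk (nat_lit 182) (nat_lit 6) (nat_lit 6) (nat_lit 2) (nat_lit 7) (nat_lit 148) (nat_lit 87) r7_148 r8_87 (nat_lit 0) (nat_lit 0) (nat_lit 0) (nat_lit 0x80029938e) (nat_lit 1073741824),
  Rx.mk (nat_lit 192) (nat_lit 0) (nat_lit 0) (nat_lit 3) (nat_lit 4) (nat_lit 151) (nat_lit 81) r7_151 r8_81 (nat_lit 2813309) (nat_lit 2289832) (nat_lit 0) (nat_lit 0x6a26a4636) (nat_lit 1443213565),
  Rx.mk (nat_lit 194) (nat_lit 2) (nat_lit 0) (nat_lit 3) (nat_lit 5) (nat_lit 154) (nat_lit 82) r7_154 r8_82 (nat_lit 0) (nat_lit 5449534) (nat_lit 0) (nat_lit 0x7ffb2a422) (nat_lit 1079668258),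
  Rx.mk (nat_lit 210) (nat_lit 2) (nat_lit 2) (nat_lit 3) (nat_lit 7) (nat_lit 157) (nat_lit 86) r7_157 r8_86 (nat_lit 0) (nat_lit 0) (nat_lit 0) (nat_lit 0x80029938e) (nat_lit 1073741824),
  Rx.mk (nat_lit 216) (nat_lit 0) (nat_lit 3) (nat_lit 3) (nat_lit 6) (nat_lit 152) (nat_lit 83) r7_152 r8_83 (nat_lit 5449534) (nat_lit 0) (nat_lit 0) (nat_lit 0x7ffa30abc) (nat_lit 1079730858),
  Rx.mk (nat_lit 218) (nat_lit 2) (nat_lit 3) (nat_lit 3) (nat_lit 7) (nat_lit 158) (nat_lit 85) r7_158 r8_85 (nat_lit 0) (nat_lit 0) (nat_lit 0) (nat_lit 0x80029938e) (nat_lit 1073741824),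
  Rx.mk (nat_lit 219) (nat_lit 3) (nat_lit 3) (nat_lit 3) (nat_lit 7) (nat_lit 159) (nat_lit 84) r7_159 r8_84 (nat_lit 0) (nat_lit 0) (nat_lit 0) (nat_lit 0x80029938e) (nat_lit 1073741824)]
noncomputable def e13_17 : List Rx := [
  Rx.mk (nat_lit 0) (nat_lit 0) (nat_lit 0) (nat_lit 0) (nat_lit 0) (nat_lit 161) (nat_lit 68) r7_161 r9_68 (nat_lit 3477128) (nat_lit 11576654) (nat_lit 3385952) (nat_lit 0x34c2f965c) (nat_lit 2346711858),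
  Rx.mk (nat_lit 2) (nat_lit 2) (nat_lit 0) (nat_lit 0) (nat_lit 1) (nat_lit 166) (nat_lit 74) r7_166 r9_74 (nat_lit 0) (nat_lit 7900979) (nat_lit 6241714) (nat_lit 0x694fdda3a) (nat_lit 1466245017),
  Rx.mk (nat_lit 18) (nat_lit 2) (nat_lit 2) (nat_lit 0) (nat_lit 3) (nat_lit 168) (nat_lit 79) r7_168 r9_79 (nat_lit 0) (nat_lit 0) (nat_lit 5449534) (nat_lit 0x7ff64ac54) (nat_lit 1079981358),
  Rx.mk (nat_lit 24) (nat_lit 0) (nat_lit 3) (nat_lit 0) (nat_lit 2) (nat_lit 163) (nat_lit 70) r7_163 r9_70 (nat_lit 5437810) (nat_lit 0) (nat_lit 4914479) (nat_lit 0x6b8d41d70) (nat_lit 1425110413),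
  Rx.mk (nat_lit 26) (nat_lit 2) (nat_lit 3) (nat_lit 0) (nat_lit 3) (nat_lit 171) (nat_lit 76) r7_171 r9_76 (nat_lit 0) (nat_lit 0) (nat_lit 5449534) (nat_lit 0x7ff6b914a) (nat_lit 1079953558),
  Rx.mk (nat_lit 64) (nat_lit 0) (nat_lit 0) (nat_lit 1) (nat_lit 4) (nat_lit 162) (nat_lit 69) r7_162 r9_69 (nat_lit 7389909) (nat_lit 44159155) (nat_lit 0) (nat_lit 0x66138ffea) (nat_lit 1557598988),
  Rx.mk (nat_lit 66) (nat_lit 2) (nat_lit 0) (nat_lit 1) (nat_lit 5) (nat_lit 167) (nat_lit 75) r7_167 r9_75 (nat_lit 0) (nat_lit 5449534) (nat_lit 0) (nat_lit 0x7fffb0fc8) (nat_lit 1079377758),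
  Rx.mk (nat_lit 82) (nat_lit 2) (nat_lit 2) (nat_lit 1) (nat_lit 7) (nat_lit 169) (nat_lit 80) r7_169 r9_80 (nat_lit 0) (nat_lit 0) (nat_lit 0) (nat_lit 0x80029938e) (nat_lit 1073741824),
  Rx.mk (nat_lit 88) (nat_lit 0) (nat_lit 3) (nat_lit 1) (nat_lit 6) (nat_lit 164) (nat_lit 71) r7_164 r9_71 (nat_lit 5449534) (nat_lit 0) (nat_lit 0) (nat_lit 0x80029938e) (nat_lit 1079191358),
  Rx.mk (nat_lit 90) (nat_lit 2) (nat_lit 3) (nat_lit 1) (nat_lit 7) (nat_lit 172) (nat_lit 77) r7_172 r9_77 (nat_lit 0) (nat_lit 0) (nat_lit 0) (nat_lit 0x80029938e) (nat_lit 1073741824),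
  Rx.mk (nat_lit 146) (nat_lit 2) (nat_lit 2) (nat_lit 2) (nat_lit 7) (nat_lit 170) (nat_lit 81) r7_170 r9_81 (nat_lit 0) (nat_lit 0) (nat_lit 0) (nat_lit 0x80029938e) (nat_lit 1073741824),
  Rx.mk (nat_lit 150) (nat_lit 6) (nat_lit 2) (nat_lit 2) (nat_lit 7) (nat_lit 160) (nat_lit 82) r7_160 r9_82 (nat_lit 0) (nat_lit 0) (nat_lit 0) (nat_lit 0x80029938e) (nat_lit 1073741824),
  Rx.mk (nat_lit 216) (nat_lit 0) (nat_lit 3) (nat_lit 3) (nat_lit 6) (nat_lit 165) (nat_lit 72) r7_165 r9_72 (nat_lit 5449534) (nat_lit 0) (nat_lit 0) (nat_lit 0x80029938e) (nat_lit 1079191358),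
  Rx.mk (nat_lit 218) (nat_lit 2) (nat_lit 3) (nat_lit 3) (nat_lit 7) (nat_lit 173) (nat_lit 78) r7_173 r9_78 (nat_lit 0) (nat_lit 0) (nat_lit 0) (nat_lit 0x80029938e) (nat_lit 1073741824),
  Rx.mk (nat_lit 219) (nat_lit 3) (nat_lit 3) (nat_lit 3) (nat_lit 7) (nat_lit 174) (nat_lit 73) r7_174 r9_73 (nat_lit 0) (nat_lit 0) (nat_lit 0) (nat_lit 0x80029938e) (nat_lit 1073741824)]
noncomputable def e13_18 : List Rx := [
  Rx.mk (nat_lit 295) (nat_lit 7) (nat_lit 4) (nat_lit 4) (nat_lit 1) (nat_lit 175) (nat_lit 98) r7_175 r4_98 (nat_lit 0) (nat_lit 13528971) (nat_lit 2244627) (nat_lit 0x667a08362) (nat_lit 1515142422),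
  Rx.mk (nat_lit 315) (nat_lit 3) (nat_lit 7) (nat_lit 4) (nat_lit 3) (nat_lit 181) (nat_lit 100) r7_181 r4_100 (nat_lit 0) (nat_lit 0) (nat_lit 3253254) (nat_lit 0x802f743a4) (nat_lit 1074127178),
  Rx.mk (nat_lit 319) (nat_lit 7) (nat_lit 7) (nat_lit 4) (nat_lit 3) (nat_lit 178) (nat_lit 99) r7_178 r4_99 (nat_lit 0) (nat_lit 0) (nat_lit 2541329) (nat_lit 0x7e988d356) (nat_lit 1099798353),
  Rx.mk (nat_lit 423) (nat_lit 7) (nat_lit 4) (nat_lit 6) (nat_lit 5) (nat_lit 176) (nat_lit 104) r7_176 r4_104 (nat_lit 0) (nat_lit 7450969) (nat_lit 0) (nat_lit 0x7fd285fbc) (nat_lit 1084281793),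
  Rx.mk (nat_lit 439) (nat_lit 7) (nat_lit 6) (nat_lit 6) (nat_lit 7) (nat_lit 177) (nat_lit 106) r7_177 r4_106 (nat_lit 0) (nat_lit 0) (nat_lit 0) (nat_lit 0x80029938e) (nat_lit 1073741824),
  Rx.mk (nat_lit 447) (nat_lit 7) (nat_lit 7) (nat_lit 6) (nat_lit 7) (nat_lit 179) (nat_lit 105) r7_179 r4_105 (nat_lit 0) (nat_lit 0) (nat_lit 0) (nat_lit 0x807650df4) (nat_lit 1066373124),
  Rx.mk (nat_lit 472) (nat_lit 0) (nat_lit 3) (nat_lit 7) (nat_lit 6) (nat_lit 180) (nat_lit 102) r7_180 r4_102 (nat_lit 3003842) (nat_lit 0) (nat_lit 0) (nat_lit 0x801bcccc0) (nat_lit 1075130666),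
  Rx.mk (nat_lit 475) (nat_lit 3) (nat_lit 3) (nat_lit 7) (nat_lit 7) (nat_lit 183) (nat_lit 103) r7_183 r4_103 (nat_lit 0) (nat_lit 0) (nat_lit 0) (nat_lit 0x80029938e) (nat_lit 1073741824),
  Rx.mk (nat_lit 507) (nat_lit 3) (nat_lit 7) (nat_lit 7) (nat_lit 7) (nat_lit 182) (nat_lit 101) r7_182 r4_101 (nat_lit 0) (nat_lit 0) (nat_lit 0) (nat_lit 0x80029938e) (nat_lit 1073741824)]
noncomputable def e13_19 : List Rx := [
  Rx.mk (nat_lit 192) (nat_lit 0) (nat_lit 0) (nat_lit 3) (nat_lit 4) (nat_lit 189) (nat_lit 82) r7_189 r10_82 (nat_lit 170865) (nat_lit 207584) (nat_lit 0) (nat_lit 0x6d9bb3e06) (nat_lit 1380802873),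
  Rx.mk (nat_lit 194) (nat_lit 2) (nat_lit 0) (nat_lit 3) (nat_lit 5) (nat_lit 192) (nat_lit 88) r7_192 r10_88 (nat_lit 0) (nat_lit 6198522) (nat_lit 0) (nat_lit 0x7fb6ae690) (nat_lit 1084837746),
  Rx.mk (nat_lit 210) (nat_lit 2) (nat_lit 2) (nat_lit 3) (nat_lit 7) (nat_lit 193) (nat_lit 90) r7_193 r10_90 (nat_lit 0) (nat_lit 0) (nat_lit 0) (nat_lit 0x802fa260a) (nat_lit 1070865124),
  Rx.mk (nat_lit 216) (nat_lit 0) (nat_lit 3) (nat_lit 3) (nat_lit 6) (nat_lit 191) (nat_lit 83) r7_191 r10_83 (nat_lit 1738294) (nat_lit 0) (nat_lit 0) (nat_lit 0x80270146a) (nat_lit 1073148218),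
  Rx.mk (nat_lit 218) (nat_lit 2) (nat_lit 3) (nat_lit 3) (nat_lit 7) (nat_lit 194) (nat_lit 89) r7_194 r10_89 (nat_lit 0) (nat_lit 0) (nat_lit 0) (nat_lit 0x802fa6002) (nat_lit 1070864224),
  Rx.mk (nat_lit 295) (nat_lit 7) (nat_lit 4) (nat_lit 4) (nat_lit 1) (nat_lit 184) (nat_lit 91) r7_184 r10_91 (nat_lit 0) (nat_lit 207584) (nat_lit 170865) (nat_lit 0x6d9bb3e06) (nat_lit 1380802873),
  Rx.mk (nat_lit 315) (nat_lit 3) (nat_lit 7) (nat_lit 4) (nat_lit 3) (nat_lit 195) (nat_lit 86) r7_195 r10_86 (nat_lit 0) (nat_lit 0) (nat_lit 5449534) (nat_lit 0x80029938e) (nat_lit 1079191358),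
  Rx.mk (nat_lit 319) (nat_lit 7) (nat_lit 7) (nat_lit 4) (nat_lit 3) (nat_lit 187) (nat_lit 93) r7_187 r10_93 (nat_lit 0) (nat_lit 0) (nat_lit 1738294) (nat_lit 0x80270146a) (nat_lit 1073148218),
  Rx.mk (nat_lit 423) (nat_lit 7) (nat_lit 4) (nat_lit 6) (nat_lit 5) (nat_lit 185) (nat_lit 92) r7_185 r10_92 (nat_lit 0) (nat_lit 6198522) (nat_lit 0) (nat_lit 0x7fb6ae690) (nat_lit 1084837746),
  Rx.mk (nat_lit 439) (nat_lit 7) (nat_lit 6) (nat_lit 6) (nat_lit 7) (nat_lit 186) (nat_lit 95) r7_186 r10_95 (nat_lit 0) (nat_lit 0) (nat_lit 0) (nat_lit 0x802fa260a) (nat_lit 1070865124),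
  Rx.mk (nat_lit 447) (nat_lit 7) (nat_lit 7) (nat_lit 6) (nat_lit 7) (nat_lit 188) (nat_lit 94) r7_188 r10_94 (nat_lit 0) (nat_lit 0) (nat_lit 0) (nat_lit 0x802fa6002) (nat_lit 1070864224),
  Rx.mk (nat_lit 472) (nat_lit 0) (nat_lit 3) (nat_lit 7) (nat_lit 6) (nat_lit 190) (nat_lit 84) r7_190 r10_84 (nat_lit 5449534) (nat_lit 0) (nat_lit 0) (nat_lit 0x80029938e) (nat_lit 1079191358),
  Rx.mk (nat_lit 475) (nat_lit 3) (nat_lit 3) (nat_lit 7) (nat_lit 7) (nat_lit 197) (nat_lit 85) r7_197 r10_85 (nat_lit 0) (nat_lit 0) (nat_lit 0) (nat_lit 0x80029938e) (nat_lit 1073741824),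
  Rx.mk (nat_lit 507) (nat_lit 3) (nat_lit 7) (nat_lit 7) (nat_lit 7) (nat_lit 196) (nat_lit 87) r7_196 r10_87 (nat_lit 0) (nat_lit 0) (nat_lit 0) (nat_lit 0x80029938e) (nat_lit 1073741824)]
noncomputable def e13_20 : List Rx := [
  Rx.mk (nat_lit 283) (nat_lit 3) (nat_lit 3) (nat_lit 4) (nat_lit 3) (nat_lit 202) (nat_lit 102) r7_202 r11_102 (nat_lit 0) (nat_lit 0) (nat_lit 6685557) (nat_lit 0x7fa33a33e) (nat_lit 1086587581),
  Rx.mk (nat_lit 315) (nat_lit 3) (nat_lit 7) (nat_lit 4) (nat_lit 3) (nat_lit 201) (nat_lit 104) r7_201 r11_104 (nat_lit 0) (nat_lit 0) (nat_lit 5449534) (nat_lit 0x80029938e) (nat_lit 1079191358),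
  Rx.mk (nat_lit 319) (nat_lit 7) (nat_lit 7) (nat_lit 4) (nat_lit 3) (nat_lit 198) (nat_lit 105) r7_198 r11_105 (nat_lit 0) (nat_lit 0) (nat_lit 2301147) (nat_lit 0x8062f057a) (nat_lit 1069902071),
  Rx.mk (nat_lit 447) (nat_lit 7) (nat_lit 7) (nat_lit 6) (nat_lit 7) (nat_lit 199) (nat_lit 106) r7_199 r11_106 (nat_lit 0) (nat_lit 0) (nat_lit 0) (nat_lit 0x804200450) (nat_lit 1069693624),
  Rx.mk (nat_lit 472) (nat_lit 0) (nat_lit 3) (nat_lit 7) (nat_lit 6) (nat_lit 200) (nat_lit 101) r7_200 r11_101 (nat_lit 5449534) (nat_lit 0) (nat_lit 0) (nat_lit 0x80029938e) (nat_lit 1079191358),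
  Rx.mk (nat_lit 475) (nat_lit 3) (nat_lit 3) (nat_lit 7) (nat_lit 7) (nat_lit 203) (nat_lit 103) r7_203 r11_103 (nat_lit 0) (nat_lit 0) (nat_lit 0) (nat_lit 0x80029938e) (nat_lit 1073741824)]
noncomputable def e13_21 : List Rx := [
  Rx.mk (nat_lit 0) (nat_lit 0) (nat_lit 0) (nat_lit 0) (nat_lit 0) (nat_lit 204) (nat_lit 170) r7_204 r9_170 (nat_lit 3541065) (nat_lit 5426102) (nat_lit 3490957) (nat_lit 0x36db834e6) (nat_lit 2305784648),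
  Rx.mk (nat_lit 2) (nat_lit 2) (nat_lit 0) (nat_lit 0) (nat_lit 1) (nat_lit 210) (nat_lit 172) r7_210 r9_172 (nat_lit 0) (nat_lit 8284346) (nat_lit 8202458) (nat_lit 0x6b8996482) (nat_lit 1431483228),
  Rx.mk (nat_lit 18) (nat_lit 2) (nat_lit 2) (nat_lit 0) (nat_lit 3) (nat_lit 213) (nat_lit 180) r7_213 r9_180 (nat_lit 0) (nat_lit 0) (nat_lit 5449534) (nat_lit 0x7ffcbd500) (nat_lit 1079567158),
  Rx.mk (nat_lit 24) (nat_lit 0) (nat_lit 3) (nat_lit 0) (nat_lit 2) (nat_lit 207) (nat_lit 176) r7_207 r9_176 (nat_lit 7551398) (nat_lit 0) (nat_lit 7072192) (nat_lit 0x6f426cc38) (nat_lit 1367563814),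
  Rx.mk (nat_lit 64) (nat_lit 0) (nat_lit 0) (nat_lit 1) (nat_lit 4) (nat_lit 205) (nat_lit 171) r7_205 r9_171 (nat_lit 7908726) (nat_lit 9592768) (nat_lit 0) (nat_lit 0x655f6e5e8) (nat_lit 1535282018),
  Rx.mk (nat_lit 66) (nat_lit 2) (nat_lit 0) (nat_lit 1) (nat_lit 5) (nat_lit 211) (nat_lit 173) r7_211 r9_173 (nat_lit 0) (nat_lit 5542978) (nat_lit 0) (nat_lit 0x7ffdca448) (nat_lit 1079593202),
  Rx.mk (nat_lit 72) (nat_lit 0) (nat_lit 1) (nat_lit 1) (nat_lit 6) (nat_lit 206) (nat_lit 174) r7_206 r9_174 (nat_lit 5575825) (nat_lit 0) (nat_lit 0) (nat_lit 0x7ffab038e) (nat_lit 1079825149),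
  Rx.mk (nat_lit 74) (nat_lit 2) (nat_lit 1) (nat_lit 1) (nat_lit 7) (nat_lit 212) (nat_lit 175) r7_212 r9_175 (nat_lit 0) (nat_lit 0) (nat_lit 0) (nat_lit 0x80029938e) (nat_lit 1073741824),
  Rx.mk (nat_lit 82) (nat_lit 2) (nat_lit 2) (nat_lit 1) (nat_lit 7) (nat_lit 214) (nat_lit 181) r7_214 r9_181 (nat_lit 0) (nat_lit 0) (nat_lit 0) (nat_lit 0x80029938e) (nat_lit 1073741824),
  Rx.mk (nat_lit 88) (nat_lit 0) (nat_lit 3) (nat_lit 1) (nat_lit 6) (nat_lit 208) (nat_lit 177) r7_208 r9_177 (nat_lit 5449534) (nat_lit 0) (nat_lit 0) (nat_lit 0x80029938e) (nat_lit 1079191358),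
  Rx.mk (nat_lit 146) (nat_lit 2) (nat_lit 2) (nat_lit 2) (nat_lit 7) (nat_lit 215) (nat_lit 182) r7_215 r9_182 (nat_lit 0) (nat_lit 0) (nat_lit 0) (nat_lit 0x80029938e) (nat_lit 1073741824),
  Rx.mk (nat_lit 216) (nat_lit 0) (nat_lit 3) (nat_lit 3) (nat_lit 6) (nat_lit 209) (nat_lit 178) r7_209 r9_178 (nat_lit 5449534) (nat_lit 0) (nat_lit 0) (nat_lit 0x80029938e) (nat_lit 1079191358),
  Rx.mk (nat_lit 219) (nat_lit 3) (nat_lit 3) (nat_lit 3) (nat_lit 7) (nat_lit 216) (nat_lit 179) r7_216 r9_179 (nat_lit 0) (nat_lit 0) (nat_lit 0) (nat_lit 0x80029938e) (nat_lit 1073741824)]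
noncomputable def e13_22 : List Rx := [
  Rx.mk (nat_lit 320) (nat_lit 0) (nat_lit 0) (nat_lit 5) (nat_lit 4) (nat_lit 217) (nat_lit 250) r7_217 r0_250 (nat_lit 64066468) (nat_lit 3589306) (nat_lit 0) (nat_lit 0x638142464) (nat_lit 1616568698),
  Rx.mk (nat_lit 321) (nat_lit 1) (nat_lit 0) (nat_lit 5) (nat_lit 5) (nat_lit 219) (nat_lit 252) r7_219 r0_252 (nat_lit 0) (nat_lit 6173437) (nat_lit 0) (nat_lit 0x7b5c8dc0a) (nat_lit 1157338461),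
  Rx.mk (nat_lit 328) (nat_lit 0) (nat_lit 1) (nat_lit 5) (nat_lit 6) (nat_lit 218) (nat_lit 251) r7_218 r0_251 (nat_lit 5828588) (nat_lit 0) (nat_lit 0) (nat_lit 0x7fe5c8fd4) (nat_lit 1081422912),
  Rx.mk (nat_lit 329) (nat_lit 1) (nat_lit 1) (nat_lit 5) (nat_lit 7) (nat_lit 220) (nat_lit 253) r7_220 r0_253 (nat_lit 0) (nat_lit 0) (nat_lit 0) (nat_lit 0x8018342e8) (nat_lit 1072357724)]
noncomputable def e13_23 : List Rx := [
  Rx.mk (nat_lit 328) (nat_lit 0) (nat_lit 1) (nat_lit 5) (nat_lit 6) (nat_lit 221) (nat_lit 256) r7_221 r1_256 (nat_lit 5449534) (nat_lit 0) (nat_lit 0) (nat_lit 0x7f8e54334) (nat_lit 1086711158),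
  Rx.mk (nat_lit 329) (nat_lit 1) (nat_lit 1) (nat_lit 5) (nat_lit 7) (nat_lit 222) (nat_lit 257) r7_222 r1_257 (nat_lit 0) (nat_lit 0) (nat_lit 0) (nat_lit 0x80029938e) (nat_lit 1073741824)]
noncomputable def e13_24 : List Rx := [
  Rx.mk (nat_lit 320) (nat_lit 0) (nat_lit 0) (nat_lit 5) (nat_lit 4) (nat_lit 223) (nat_lit 265) r7_223 r4_265 (nat_lit 34184311) (nat_lit 10345136) (nat_lit 0) (nat_lit 0x6ebe1e59e) (nat_lit 1406084271),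
  Rx.mk (nat_lit 321) (nat_lit 1) (nat_lit 0) (nat_lit 5) (nat_lit 5) (nat_lit 226) (nat_lit 268) r7_226 r4_268 (nat_lit 0) (nat_lit 4100018) (nat_lit 0) (nat_lit 0x801ea5dd4) (nat_lit 1076046742),
  Rx.mk (nat_lit 328) (nat_lit 0) (nat_lit 1) (nat_lit 5) (nat_lit 6) (nat_lit 224) (nat_lit 266) r7_224 r4_266 (nat_lit 5449534) (nat_lit 0) (nat_lit 0) (nat_lit 0x80029938e) (nat_lit 1079191358),
  Rx.mk (nat_lit 329) (nat_lit 1) (nat_lit 1) (nat_lit 5) (nat_lit 7) (nat_lit 227) (nat_lit 269) r7_227 r4_269 (nat_lit 0) (nat_lit 0) (nat_lit 0) (nat_lit 0x80029938e) (nat_lit 1073741824),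
  Rx.mk (nat_lit 344) (nat_lit 0) (nat_lit 3) (nat_lit 5) (nat_lit 6) (nat_lit 225) (nat_lit 267) r7_225 r4_267 (nat_lit 4321044) (nat_lit 0) (nat_lit 0) (nat_lit 0x800f26f02) (nat_lit 1077257068),
  Rx.mk (nat_lit 345) (nat_lit 1) (nat_lit 3) (nat_lit 5) (nat_lit 7) (nat_lit 228) (nat_lit 270) r7_228 r4_270 (nat_lit 0) (nat_lit 0) (nat_lit 0) (nat_lit 0x80029938e) (nat_lit 1073741824)]
noncomputable def e13_25 : List Rx := [
  Rx.mk (nat_lit 64) (nat_lit 0) (nat_lit 0) (nat_lit 1) (nat_lit 4) (nat_lit 230) (nat_lit 230) r7_230 r7_230 (nat_lit 24998902) (nat_lit 24998902) (nat_lit 0) (nat_lit 0x69f022aa4) (nat_lit 1491662228),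
  Rx.mk (nat_lit 65) (nat_lit 1) (nat_lit 0) (nat_lit 1) (nat_lit 5) (nat_lit 235) (nat_lit 232) r7_235 r7_232 (nat_lit 0) (nat_lit 5449534) (nat_lit 0) (nat_lit 0x80029938e) (nat_lit 1079191358),
  Rx.mk (nat_lit 66) (nat_lit 2) (nat_lit 0) (nat_lit 1) (nat_lit 5) (nat_lit 239) (nat_lit 233) r7_239 r7_233 (nat_lit 0) (nat_lit 5449534) (nat_lit 0) (nat_lit 0x80029938e) (nat_lit 1079191358),
  Rx.mk (nat_lit 72) (nat_lit 0) (nat_lit 1) (nat_lit 1) (nat_lit 6) (nat_lit 232) (nat_lit 235) r7_232 r7_235 (nat_lit 5449534) (nat_lit 0) (nat_lit 0) (nat_lit 0x80029938e) (nat_lit 1079191358),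
  Rx.mk (nat_lit 73) (nat_lit 1) (nat_lit 1) (nat_lit 1) (nat_lit 7) (nat_lit 237) (nat_lit 237) r7_237 r7_237 (nat_lit 0) (nat_lit 0) (nat_lit 0) (nat_lit 0x80029938e) (nat_lit 1073741824),
  Rx.mk (nat_lit 74) (nat_lit 2) (nat_lit 1) (nat_lit 1) (nat_lit 7) (nat_lit 240) (nat_lit 238) r7_240 r7_238 (nat_lit 0) (nat_lit 0) (nat_lit 0) (nat_lit 0x80029938e) (nat_lit 1073741824),
  Rx.mk (nat_lit 88) (nat_lit 0) (nat_lit 3) (nat_lit 1) (nat_lit 6) (nat_lit 233) (nat_lit 239) r7_233 r7_239 (nat_lit 5449534) (nat_lit 0) (nat_lit 0) (nat_lit 0x80029938e) (nat_lit 1079191358),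
  Rx.mk (nat_lit 89) (nat_lit 1) (nat_lit 3) (nat_lit 1) (nat_lit 7) (nat_lit 238) (nat_lit 240) r7_238 r7_240 (nat_lit 0) (nat_lit 0) (nat_lit 0) (nat_lit 0x80029938e) (nat_lit 1073741824),
  Rx.mk (nat_lit 320) (nat_lit 0) (nat_lit 0) (nat_lit 5) (nat_lit 4) (nat_lit 229) (nat_lit 229) r7_229 r7_229 (nat_lit 2723291) (nat_lit 2723291) (nat_lit 0) (nat_lit 0x6dde73fc0) (nat_lit 1381566606),
  Rx.mk (nat_lit 321) (nat_lit 1) (nat_lit 0) (nat_lit 5) (nat_lit 5) (nat_lit 234) (nat_lit 231) r7_234 r7_231 (nat_lit 0) (nat_lit 3906765) (nat_lit 0) (nat_lit 0x80258828c) (nat_lit 1075417389),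
  Rx.mk (nat_lit 328) (nat_lit 0) (nat_lit 1) (nat_lit 5) (nat_lit 6) (nat_lit 231) (nat_lit 234) r7_231 r7_234 (nat_lit 3906765) (nat_lit 0) (nat_lit 0) (nat_lit 0x80258828c) (nat_lit 1075417389),
  Rx.mk (nat_lit 329) (nat_lit 1) (nat_lit 1) (nat_lit 5) (nat_lit 7) (nat_lit 236) (nat_lit 236) r7_236 r7_236 (nat_lit 0) (nat_lit 0) (nat_lit 0) (nat_lit 0x80029938e) (nat_lit 1073741824)]
noncomputable def e13_26 : List Rx := [
  Rx.mk (nat_lit 72) (nat_lit 0) (nat_lit 1) (nat_lit 1) (nat_lit 6) (nat_lit 242) (nat_lit 185) r7_242 r8_185 (nat_lit 5322975) (nat_lit 0) (nat_lit 0) (nat_lit 0x7ffd77ce8) (nat_lit 1079393799),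
  Rx.mk (nat_lit 73) (nat_lit 1) (nat_lit 1) (nat_lit 1) (nat_lit 7) (nat_lit 244) (nat_lit 187) r7_244 r8_187 (nat_lit 0) (nat_lit 0) (nat_lit 0) (nat_lit 0x80029938e) (nat_lit 1073741824),
  Rx.mk (nat_lit 74) (nat_lit 2) (nat_lit 1) (nat_lit 1) (nat_lit 7) (nat_lit 245) (nat_lit 188) r7_245 r8_188 (nat_lit 0) (nat_lit 0) (nat_lit 0) (nat_lit 0x80029938e) (nat_lit 1073741824),
  Rx.mk (nat_lit 328) (nat_lit 0) (nat_lit 1) (nat_lit 5) (nat_lit 6) (nat_lit 241) (nat_lit 184) r7_241 r8_184 (nat_lit 5449534) (nat_lit 0) (nat_lit 0) (nat_lit 0x80029938e) (nat_lit 1079191358),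
  Rx.mk (nat_lit 329) (nat_lit 1) (nat_lit 1) (nat_lit 5) (nat_lit 7) (nat_lit 243) (nat_lit 186) r7_243 r8_186 (nat_lit 0) (nat_lit 0) (nat_lit 0) (nat_lit 0x80029938e) (nat_lit 1073741824)]
noncomputable def e13_27 : List Rx := [
  Rx.mk (nat_lit 64) (nat_lit 0) (nat_lit 0) (nat_lit 1) (nat_lit 4) (nat_lit 246) (nat_lit 248) r7_246 r8_248 (nat_lit 18822904) (nat_lit 9806922) (nat_lit 0) (nat_lit 0x645205e84) (nat_lit 1563957550),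
  Rx.mk (nat_lit 65) (nat_lit 1) (nat_lit 0) (nat_lit 1) (nat_lit 5) (nat_lit 249) (nat_lit 251) r7_249 r8_251 (nat_lit 0) (nat_lit 5449534) (nat_lit 0) (nat_lit 0x80029938e) (nat_lit 1079191358),
  Rx.mk (nat_lit 66) (nat_lit 2) (nat_lit 0) (nat_lit 1) (nat_lit 5) (nat_lit 252) (nat_lit 254) r7_252 r8_254 (nat_lit 0) (nat_lit 5560769) (nat_lit 0) (nat_lit 0x800073c4e) (nat_lit 1079440193),
  Rx.mk (nat_lit 72) (nat_lit 0) (nat_lit 1) (nat_lit 1) (nat_lit 6) (nat_lit 247) (nat_lit 249) r7_247 r8_249 (nat_lit 5661505) (nat_lit 0) (nat_lit 0) (nat_lit 0x7ff885e6a) (nat_lit 1080049829),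
  Rx.mk (nat_lit 73) (nat_lit 1) (nat_lit 1) (nat_lit 1) (nat_lit 7) (nat_lit 250) (nat_lit 252) r7_250 r8_252 (nat_lit 0) (nat_lit 0) (nat_lit 0) (nat_lit 0x80029938e) (nat_lit 1073741824),
  Rx.mk (nat_lit 74) (nat_lit 2) (nat_lit 1) (nat_lit 1) (nat_lit 7) (nat_lit 253) (nat_lit 255) r7_253 r8_255 (nat_lit 0) (nat_lit 0) (nat_lit 0) (nat_lit 0x80029938e) (nat_lit 1073741824),
  Rx.mk (nat_lit 82) (nat_lit 2) (nat_lit 2) (nat_lit 1) (nat_lit 7) (nat_lit 254) (nat_lit 256) r7_254 r8_256 (nat_lit 0) (nat_lit 0) (nat_lit 0) (nat_lit 0x80029938e) (nat_lit 1073741824),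
  Rx.mk (nat_lit 88) (nat_lit 0) (nat_lit 3) (nat_lit 1) (nat_lit 6) (nat_lit 248) (nat_lit 250) r7_248 r8_250 (nat_lit 5449534) (nat_lit 0) (nat_lit 0) (nat_lit 0x80029938e) (nat_lit 1079191358),
  Rx.mk (nat_lit 89) (nat_lit 1) (nat_lit 3) (nat_lit 1) (nat_lit 7) (nat_lit 251) (nat_lit 253) r7_251 r8_253 (nat_lit 0) (nat_lit 0) (nat_lit 0) (nat_lit 0x80029938e) (nat_lit 1073741824)]
noncomputable def e13_28 : List Rx := [
  Rx.mk (nat_lit 88) (nat_lit 0) (nat_lit 3) (nat_lit 1) (nat_lit 6) (nat_lit 258) (nat_lit 188) r7_258 r10_188 (nat_lit 5449534) (nat_lit 0) (nat_lit 0) (nat_lit 0x80029938e) (nat_lit 1079191358),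
  Rx.mk (nat_lit 89) (nat_lit 1) (nat_lit 3) (nat_lit 1) (nat_lit 7) (nat_lit 262) (nat_lit 190) r7_262 r10_190 (nat_lit 0) (nat_lit 0) (nat_lit 0) (nat_lit 0x80029938e) (nat_lit 1073741824),
  Rx.mk (nat_lit 320) (nat_lit 0) (nat_lit 0) (nat_lit 5) (nat_lit 4) (nat_lit 255) (nat_lit 183) r7_255 r10_183 (nat_lit 3562106) (nat_lit 2862197) (nat_lit 0) (nat_lit 0x6f8080cd6) (nat_lit 1355313627),
  Rx.mk (nat_lit 321) (nat_lit 1) (nat_lit 0) (nat_lit 5) (nat_lit 5) (nat_lit 259) (nat_lit 184) r7_259 r10_184 (nat_lit 0) (nat_lit 5449534) (nat_lit 0) (nat_lit 0x80029938e) (nat_lit 1079191358),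
  Rx.mk (nat_lit 328) (nat_lit 0) (nat_lit 1) (nat_lit 5) (nat_lit 6) (nat_lit 256) (nat_lit 185) r7_256 r10_185 (nat_lit 5449534) (nat_lit 0) (nat_lit 0) (nat_lit 0x80029938e) (nat_lit 1079191358),
  Rx.mk (nat_lit 329) (nat_lit 1) (nat_lit 1) (nat_lit 5) (nat_lit 7) (nat_lit 260) (nat_lit 186) r7_260 r10_186 (nat_lit 0) (nat_lit 0) (nat_lit 0) (nat_lit 0x80029938e) (nat_lit 1073741824),
  Rx.mk (nat_lit 344) (nat_lit 0) (nat_lit 3) (nat_lit 5) (nat_lit 6) (nat_lit 257) (nat_lit 187) r7_257 r10_187 (nat_lit 5449534) (nat_lit 0) (nat_lit 0) (nat_lit 0x80029938e) (nat_lit 1079191358),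
  Rx.mk (nat_lit 345) (nat_lit 1) (nat_lit 3) (nat_lit 5) (nat_lit 7) (nat_lit 261) (nat_lit 189) r7_261 r10_189 (nat_lit 0) (nat_lit 0) (nat_lit 0) (nat_lit 0x80029938e) (nat_lit 1073741824)]
noncomputable def e13_29 : List Rx := [
  Rx.mk (nat_lit 320) (nat_lit 0) (nat_lit 0) (nat_lit 5) (nat_lit 4) (nat_lit 263) (nat_lit 212) r7_263 r11_212 (nat_lit 27051137) (nat_lit 140034131) (nat_lit 0) (nat_lit 0x7b544a5ac) (nat_lit 1318788992),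
  Rx.mk (nat_lit 321) (nat_lit 1) (nat_lit 0) (nat_lit 5) (nat_lit 5) (nat_lit 266) (nat_lit 213) r7_266 r11_213 (nat_lit 0) (nat_lit 5449534) (nat_lit 0) (nat_lit 0x80029938e) (nat_lit 1079191358),
  Rx.mk (nat_lit 328) (nat_lit 0) (nat_lit 1) (nat_lit 5) (nat_lit 6) (nat_lit 264) (nat_lit 214) r7_264 r11_214 (nat_lit 5449534) (nat_lit 0) (nat_lit 0) (nat_lit 0x80029938e) (nat_lit 1079191358),
  Rx.mk (nat_lit 329) (nat_lit 1) (nat_lit 1) (nat_lit 5) (nat_lit 7) (nat_lit 267) (nat_lit 215) r7_267 r11_215 (nat_lit 0) (nat_lit 0) (nat_lit 0) (nat_lit 0x80029938e) (nat_lit 1073741824),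
  Rx.mk (nat_lit 344) (nat_lit 0) (nat_lit 3) (nat_lit 5) (nat_lit 6) (nat_lit 265) (nat_lit 216) r7_265 r11_216 (nat_lit 5449534) (nat_lit 0) (nat_lit 0) (nat_lit 0x80029938e) (nat_lit 1079191358),
  Rx.mk (nat_lit 345) (nat_lit 1) (nat_lit 3) (nat_lit 5) (nat_lit 7) (nat_lit 268) (nat_lit 217) r7_268 r11_217 (nat_lit 0) (nat_lit 0) (nat_lit 0) (nat_lit 0x80029938e) (nat_lit 1073741824),
  Rx.mk (nat_lit 347) (nat_lit 3) (nat_lit 3) (nat_lit 5) (nat_lit 7) (nat_lit 269) (nat_lit 218) r7_269 r11_218 (nat_lit 0) (nat_lit 0) (nat_lit 0) (nat_lit 0x80029938e) (nat_lit 1073741824)]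
noncomputable def e13_30 : List Rx := [
  Rx.mk (nat_lit 315) (nat_lit 3) (nat_lit 7) (nat_lit 4) (nat_lit 3) (nat_lit 272) (nat_lit 102) r7_272 r5_102 (nat_lit 0) (nat_lit 0) (nat_lit 1535629) (nat_lit 0x807a5a904) (nat_lit 1067648753),
  Rx.mk (nat_lit 472) (nat_lit 0) (nat_lit 3) (nat_lit 7) (nat_lit 6) (nat_lit 271) (nat_lit 105) r7_271 r5_105 (nat_lit 1265249) (nat_lit 0) (nat_lit 0) (nat_lit 0x7ff9d6b48) (nat_lit 1075552073),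
  Rx.mk (nat_lit 504) (nat_lit 0) (nat_lit 7) (nat_lit 7) (nat_lit 6) (nat_lit 270) (nat_lit 103) r7_270 r5_103 (nat_lit 3797391) (nat_lit 0) (nat_lit 0) (nat_lit 0x7bc59188c) (nat_lit 1148120715),
  Rx.mk (nat_lit 507) (nat_lit 3) (nat_lit 7) (nat_lit 7) (nat_lit 7) (nat_lit 273) (nat_lit 104) r7_273 r5_104 (nat_lit 0) (nat_lit 0) (nat_lit 0) (nat_lit 0x7ff327c3e) (nat_lit 1074733924)]
noncomputable def e13_31 : List Rx := [
  Rx.mk (nat_lit 216) (nat_lit 0) (nat_lit 3) (nat_lit 3) (nat_lit 6) (nat_lit 276) (nat_lit 105) r7_276 r11_105 (nat_lit 2301147) (nat_lit 0) (nat_lit 0) (nat_lit 0x8062f057a) (nat_lit 1069902071),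
  Rx.mk (nat_lit 218) (nat_lit 2) (nat_lit 3) (nat_lit 3) (nat_lit 7) (nat_lit 277) (nat_lit 106) r7_277 r11_106 (nat_lit 0) (nat_lit 0) (nat_lit 0) (nat_lit 0x804200450) (nat_lit 1069693624),
  Rx.mk (nat_lit 315) (nat_lit 3) (nat_lit 7) (nat_lit 4) (nat_lit 3) (nat_lit 278) (nat_lit 101) r7_278 r11_101 (nat_lit 0) (nat_lit 0) (nat_lit 5449534) (nat_lit 0x80029938e) (nat_lit 1079191358),
  Rx.mk (nat_lit 472) (nat_lit 0) (nat_lit 3) (nat_lit 7) (nat_lit 6) (nat_lit 275) (nat_lit 104) r7_275 r11_104 (nat_lit 5449534) (nat_lit 0) (nat_lit 0) (nat_lit 0x80029938e) (nat_lit 1079191358),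
  Rx.mk (nat_lit 504) (nat_lit 0) (nat_lit 7) (nat_lit 7) (nat_lit 6) (nat_lit 274) (nat_lit 102) r7_274 r11_102 (nat_lit 6685557) (nat_lit 0) (nat_lit 0) (nat_lit 0x7fa33a33e) (nat_lit 1086587581),
  Rx.mk (nat_lit 507) (nat_lit 3) (nat_lit 7) (nat_lit 7) (nat_lit 7) (nat_lit 279) (nat_lit 103) r7_279 r11_103 (nat_lit 0) (nat_lit 0) (nat_lit 0) (nat_lit 0x80029938e) (nat_lit 1073741824)]
noncomputable def e13_32 : List Rx := [
  Rx.mk (nat_lit 281) (nat_lit 1) (nat_lit 3) (nat_lit 4) (nat_lit 3) (nat_lit 284) (nat_lit 283) r7_284 r6_283 (nat_lit 0) (nat_lit 0) (nat_lit 1381776) (nat_lit 0x8046be05a) (nat_lit 1070778100),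
  Rx.mk (nat_lit 313) (nat_lit 1) (nat_lit 7) (nat_lit 4) (nat_lit 3) (nat_lit 282) (nat_lit 282) r7_282 r6_282 (nat_lit 0) (nat_lit 0) (nat_lit 2052120) (nat_lit 0x802554b6c) (nat_lit 1073565444),
  Rx.mk (nat_lit 344) (nat_lit 0) (nat_lit 3) (nat_lit 5) (nat_lit 6) (nat_lit 281) (nat_lit 281) r7_281 r6_281 (nat_lit 2052120) (nat_lit 0) (nat_lit 0) (nat_lit 0x802554b6c) (nat_lit 1073565444),
  Rx.mk (nat_lit 345) (nat_lit 1) (nat_lit 3) (nat_lit 5) (nat_lit 7) (nat_lit 285) (nat_lit 285) r7_285 r6_285 (nat_lit 0) (nat_lit 0) (nat_lit 0) (nat_lit 0x8061e744e) (nat_lit 1067667324),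
  Rx.mk (nat_lit 376) (nat_lit 0) (nat_lit 7) (nat_lit 5) (nat_lit 6) (nat_lit 280) (nat_lit 280) r7_280 r6_280 (nat_lit 1381776) (nat_lit 0) (nat_lit 0) (nat_lit 0x8046be05a) (nat_lit 1070778100),
  Rx.mk (nat_lit 377) (nat_lit 1) (nat_lit 7) (nat_lit 5) (nat_lit 7) (nat_lit 283) (nat_lit 284) r7_283 r6_284 (nat_lit 0) (nat_lit 0) (nat_lit 0) (nat_lit 0x8061e744e) (nat_lit 1067667324)]
noncomputable def e13_33 : List Rx := [
  Rx.mk (nat_lit 344) (nat_lit 0) (nat_lit 3) (nat_lit 5) (nat_lit 6) (nat_lit 286) (nat_lit 256) r7_286 r5_256 (nat_lit 1663775) (nat_lit 0) (nat_lit 0) (nat_lit 0x7ff356e8a) (nat_lit 1076373699),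
  Rx.mk (nat_lit 345) (nat_lit 1) (nat_lit 3) (nat_lit 5) (nat_lit 7) (nat_lit 287) (nat_lit 257) r7_287 r5_257 (nat_lit 0) (nat_lit 0) (nat_lit 0) (nat_lit 0x804fac05e) (nat_lit 1068822724)]
noncomputable def e13_34 : List Rx := [
  Rx.mk (nat_lit 88) (nat_lit 0) (nat_lit 3) (nat_lit 1) (nat_lit 6) (nat_lit 289) (nat_lit 303) r7_289 r11_303 (nat_lit 5449534) (nat_lit 0) (nat_lit 0) (nat_lit 0x80029938e) (nat_lit 1079191358),
  Rx.mk (nat_lit 89) (nat_lit 1) (nat_lit 3) (nat_lit 1) (nat_lit 7) (nat_lit 291) (nat_lit 304) r7_291 r11_304 (nat_lit 0) (nat_lit 0) (nat_lit 0) (nat_lit 0x80029938e) (nat_lit 1073741824),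
  Rx.mk (nat_lit 90) (nat_lit 2) (nat_lit 3) (nat_lit 1) (nat_lit 7) (nat_lit 292) (nat_lit 305) r7_292 r11_305 (nat_lit 0) (nat_lit 0) (nat_lit 0) (nat_lit 0x80029938e) (nat_lit 1073741824),
  Rx.mk (nat_lit 344) (nat_lit 0) (nat_lit 3) (nat_lit 5) (nat_lit 6) (nat_lit 288) (nat_lit 306) r7_288 r11_306 (nat_lit 2211577) (nat_lit 0) (nat_lit 0) (nat_lit 0x80826cbe2) (nat_lit 1067819001),
  Rx.mk (nat_lit 345) (nat_lit 1) (nat_lit 3) (nat_lit 5) (nat_lit 7) (nat_lit 290) (nat_lit 307) r7_290 r11_307 (nat_lit 0) (nat_lit 0) (nat_lit 0) (nat_lit 0x804af24dc) (nat_lit 1069126324)]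
noncomputable def e13_35 : List Rx := [
  Rx.mk (nat_lit 312) (nat_lit 0) (nat_lit 7) (nat_lit 4) (nat_lit 2) (nat_lit 293) (nat_lit 195) r7_293 r6_195 (nat_lit 264914) (nat_lit 0) (nat_lit 277079) (nat_lit 0x6d02a6830) (nat_lit 1390940117),
  Rx.mk (nat_lit 313) (nat_lit 1) (nat_lit 7) (nat_lit 4) (nat_lit 3) (nat_lit 297) (nat_lit 196) r7_297 r6_196 (nat_lit 0) (nat_lit 0) (nat_lit 2237591) (nat_lit 0x8056375b8) (nat_lit 1070643615),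
  Rx.mk (nat_lit 315) (nat_lit 3) (nat_lit 7) (nat_lit 4) (nat_lit 3) (nat_lit 301) (nat_lit 197) r7_301 r6_197 (nat_lit 0) (nat_lit 0) (nat_lit 1598900) (nat_lit 0x80a515d4c) (nat_lit 1065015624),
  Rx.mk (nat_lit 376) (nat_lit 0) (nat_lit 7) (nat_lit 5) (nat_lit 6) (nat_lit 294) (nat_lit 198) r7_294 r6_198 (nat_lit 1891092) (nat_lit 0) (nat_lit 0) (nat_lit 0x8064b8aba) (nat_lit 1069380816),
  Rx.mk (nat_lit 377) (nat_lit 1) (nat_lit 7) (nat_lit 5) (nat_lit 7) (nat_lit 298) (nat_lit 199) r7_298 r6_199 (nat_lit 0) (nat_lit 0) (nat_lit 0) (nat_lit 0x804959148) (nat_lit 1069226624),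
  Rx.mk (nat_lit 379) (nat_lit 3) (nat_lit 7) (nat_lit 5) (nat_lit 7) (nat_lit 302) (nat_lit 200) r7_302 r6_200 (nat_lit 0) (nat_lit 0) (nat_lit 0) (nat_lit 0x80aedf3b4) (nat_lit 1062792024),
  Rx.mk (nat_lit 472) (nat_lit 0) (nat_lit 3) (nat_lit 7) (nat_lit 6) (nat_lit 296) (nat_lit 193) r7_296 r6_193 (nat_lit 1281739) (nat_lit 0) (nat_lit 0) (nat_lit 0x8015d28a6) (nat_lit 1073788363),
  Rx.mk (nat_lit 473) (nat_lit 1) (nat_lit 3) (nat_lit 7) (nat_lit 7) (nat_lit 300) (nat_lit 194) r7_300 r6_194 (nat_lit 0) (nat_lit 0) (nat_lit 0) (nat_lit 0x80f0600f4) (nat_lit 1058649324),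
  Rx.mk (nat_lit 504) (nat_lit 0) (nat_lit 7) (nat_lit 7) (nat_lit 6) (nat_lit 295) (nat_lit 201) r7_295 r6_201 (nat_lit 5719758) (nat_lit 0) (nat_lit 0) (nat_lit 0x7fc989026) (nat_lit 1083137982),
  Rx.mk (nat_lit 505) (nat_lit 1) (nat_lit 7) (nat_lit 7) (nat_lit 7) (nat_lit 299) (nat_lit 202) r7_299 r6_202 (nat_lit 0) (nat_lit 0) (nat_lit 0) (nat_lit 0x80029938e) (nat_lit 1073741824)]
noncomputable def e13_36 : List Rx := [
  Rx.mk (nat_lit 280) (nat_lit 0) (nat_lit 3) (nat_lit 4) (nat_lit 2) (nat_lit 305) (nat_lit 97) r7_305 r12_97 (nat_lit 155548) (nat_lit 0) (nat_lit 146579) (nat_lit 0x6d6500044) (nat_lit 1384285151),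
  Rx.mk (nat_lit 281) (nat_lit 1) (nat_lit 3) (nat_lit 4) (nat_lit 3) (nat_lit 310) (nat_lit 102) r7_310 r12_102 (nat_lit 0) (nat_lit 0) (nat_lit 1167101) (nat_lit 0x83e5cf1aa) (nat_lit 1011968725),
  Rx.mk (nat_lit 312) (nat_lit 0) (nat_lit 7) (nat_lit 4) (nat_lit 2) (nat_lit 303) (nat_lit 100) r7_303 r12_100 (nat_lit 146579) (nat_lit 0) (nat_lit 155548) (nat_lit 0x6d6500044) (nat_lit 1384285151),
  Rx.mk (nat_lit 313) (nat_lit 1) (nat_lit 7) (nat_lit 4) (nat_lit 3) (nat_lit 308) (nat_lit 105) r7_308 r12_105 (nat_lit 0) (nat_lit 0) (nat_lit 1674776) (nat_lit 0x80296d58c) (nat_lit 1072913600),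
  Rx.mk (nat_lit 315) (nat_lit 3) (nat_lit 7) (nat_lit 4) (nat_lit 3) (nat_lit 313) (nat_lit 107) r7_313 r12_107 (nat_lit 0) (nat_lit 0) (nat_lit 1048552) (nat_lit 0x8019d1236) (nat_lit 1073292576),
  Rx.mk (nat_lit 344) (nat_lit 0) (nat_lit 3) (nat_lit 5) (nat_lit 6) (nat_lit 306) (nat_lit 98) r7_306 r12_98 (nat_lit 1674776) (nat_lit 0) (nat_lit 0) (nat_lit 0x80296d58c) (nat_lit 1072913600),
  Rx.mk (nat_lit 345) (nat_lit 1) (nat_lit 3) (nat_lit 5) (nat_lit 7) (nat_lit 311) (nat_lit 103) r7_311 r12_103 (nat_lit 0) (nat_lit 0) (nat_lit 0) (nat_lit 0x80fc0fe2c) (nat_lit 1057910624),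
  Rx.mk (nat_lit 376) (nat_lit 0) (nat_lit 7) (nat_lit 5) (nat_lit 6) (nat_lit 304) (nat_lit 101) r7_304 r12_101 (nat_lit 1167101) (nat_lit 0) (nat_lit 0) (nat_lit 0x83e5cf1aa) (nat_lit 1011968725),
  Rx.mk (nat_lit 377) (nat_lit 1) (nat_lit 7) (nat_lit 5) (nat_lit 7) (nat_lit 309) (nat_lit 106) r7_309 r12_106 (nat_lit 0) (nat_lit 0) (nat_lit 0) (nat_lit 0x80fc0fe2c) (nat_lit 1057910624),
  Rx.mk (nat_lit 379) (nat_lit 3) (nat_lit 7) (nat_lit 5) (nat_lit 7) (nat_lit 314) (nat_lit 108) r7_314 r12_108 (nat_lit 0) (nat_lit 0) (nat_lit 0) (nat_lit 0x8ba799e96) (nat_lit 885357024),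
  Rx.mk (nat_lit 472) (nat_lit 0) (nat_lit 3) (nat_lit 7) (nat_lit 6) (nat_lit 307) (nat_lit 99) r7_307 r12_99 (nat_lit 1048552) (nat_lit 0) (nat_lit 0) (nat_lit 0x8019d1236) (nat_lit 1073292576),
  Rx.mk (nat_lit 473) (nat_lit 1) (nat_lit 3) (nat_lit 7) (nat_lit 7) (nat_lit 312) (nat_lit 104) r7_312 r12_104 (nat_lit 0) (nat_lit 0) (nat_lit 0) (nat_lit 0x8ba799e96) (nat_lit 885357024)]
noncomputable def e13_37 : List Rx := [
  Rx.mk (nat_lit 289) (nat_lit 1) (nat_lit 4) (nat_lit 4) (nat_lit 1) (nat_lit 315) (nat_lit 250) r7_315 r0_250 (nat_lit 0) (nat_lit 3589306) (nat_lit 64066468) (nat_lit 0x638142464) (nat_lit 1616568698),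
  Rx.mk (nat_lit 297) (nat_lit 1) (nat_lit 5) (nat_lit 4) (nat_lit 3) (nat_lit 317) (nat_lit 251) r7_317 r0_251 (nat_lit 0) (nat_lit 0) (nat_lit 5828588) (nat_lit 0x7fe5c8fd4) (nat_lit 1081422912),
  Rx.mk (nat_lit 353) (nat_lit 1) (nat_lit 4) (nat_lit 5) (nat_lit 5) (nat_lit 316) (nat_lit 252) r7_316 r0_252 (nat_lit 0) (nat_lit 6173437) (nat_lit 0) (nat_lit 0x7b5c8dc0a) (nat_lit 1157338461),
  Rx.mk (nat_lit 361) (nat_lit 1) (nat_lit 5) (nat_lit 5) (nat_lit 7) (nat_lit 318) (nat_lit 253) r7_318 r0_253 (nat_lit 0) (nat_lit 0) (nat_lit 0) (nat_lit 0x8018342e8) (nat_lit 1072357724)]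
noncomputable def e13_38 : List Rx := [
  Rx.mk (nat_lit 289) (nat_lit 1) (nat_lit 4) (nat_lit 4) (nat_lit 1) (nat_lit 325) (nat_lit 177) r7_325 r0_177 (nat_lit 0) (nat_lit 1073466) (nat_lit 216055) (nat_lit 0x52f01064a) (nat_lit 1826388745),
  Rx.mk (nat_lit 293) (nat_lit 5) (nat_lit 4) (nat_lit 4) (nat_lit 1) (nat_lit 319) (nat_lit 178) r7_319 r0_178 (nat_lit 0) (nat_lit 944100) (nat_lit 327140) (nat_lit 0x5bb8077f4) (nat_lit 1679970364),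
  Rx.mk (nat_lit 317) (nat_lit 5) (nat_lit 7) (nat_lit 4) (nat_lit 3) (nat_lit 322) (nat_lit 182) r7_322 r0_182 (nat_lit 0) (nat_lit 0) (nat_lit 1461987) (nat_lit 0x7ffe1df6c) (nat_lit 1075483511),
  Rx.mk (nat_lit 353) (nat_lit 1) (nat_lit 4) (nat_lit 5) (nat_lit 5) (nat_lit 326) (nat_lit 179) r7_326 r0_179 (nat_lit 0) (nat_lit 1922278) (nat_lit 0) (nat_lit 0x6264701d4) (nat_lit 1569386202),
  Rx.mk (nat_lit 357) (nat_lit 5) (nat_lit 4) (nat_lit 5) (nat_lit 5) (nat_lit 320) (nat_lit 180) r7_320 r0_180 (nat_lit 0) (nat_lit 5137059) (nat_lit 0) (nat_lit 0x7a3a629c4) (nat_lit 1175198083),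
  Rx.mk (nat_lit 381) (nat_lit 5) (nat_lit 7) (nat_lit 5) (nat_lit 7) (nat_lit 323) (nat_lit 183) r7_323 r0_183 (nat_lit 0) (nat_lit 0) (nat_lit 0) (nat_lit 0x802680a22) (nat_lit 1071441624),
  Rx.mk (nat_lit 421) (nat_lit 5) (nat_lit 4) (nat_lit 6) (nat_lit 5) (nat_lit 321) (nat_lit 181) r7_321 r0_181 (nat_lit 0) (nat_lit 171422861) (nat_lit 0) (nat_lit 0x80556c2a0) (nat_lit 1239814685),
  Rx.mk (nat_lit 445) (nat_lit 5) (nat_lit 7) (nat_lit 6) (nat_lit 7) (nat_lit 324) (nat_lit 184) r7_324 r0_184 (nat_lit 0) (nat_lit 0) (nat_lit 0) (nat_lit 0x806ab61b0) (nat_lit 1067109724)]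
noncomputable def e13_39 : List Rx := [
  Rx.mk (nat_lit 289) (nat_lit 1) (nat_lit 4) (nat_lit 4) (nat_lit 1) (nat_lit 335) (nat_lit 335) r7_335 r7_335 (nat_lit 0) (nat_lit 2723291) (nat_lit 2723291) (nat_lit 0x6dde73fc0) (nat_lit 1381566606),
  Rx.mk (nat_lit 293) (nat_lit 5) (nat_lit 4) (nat_lit 4) (nat_lit 1) (nat_lit 327) (nat_lit 327) r7_327 r7_327 (nat_lit 0) (nat_lit 24998902) (nat_lit 24998902) (nat_lit 0x69f022aa4) (nat_lit 1491662228),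
  Rx.mk (nat_lit 297) (nat_lit 1) (nat_lit 5) (nat_lit 4) (nat_lit 3) (nat_lit 337) (nat_lit 336) r7_337 r7_336 (nat_lit 0) (nat_lit 0) (nat_lit 3906765) (nat_lit 0x80258828c) (nat_lit 1075417389),
  Rx.mk (nat_lit 301) (nat_lit 5) (nat_lit 5) (nat_lit 4) (nat_lit 3) (nat_lit 330) (nat_lit 328) r7_330 r7_328 (nat_lit 0) (nat_lit 0) (nat_lit 5449534) (nat_lit 0x80029938e) (nat_lit 1079191358),
  Rx.mk (nat_lit 317) (nat_lit 5) (nat_lit 7) (nat_lit 4) (nat_lit 3) (nat_lit 333) (nat_lit 329) r7_333 r7_329 (nat_lit 0) (nat_lit 0) (nat_lit 5449534) (nat_lit 0x80029938e) (nat_lit 1079191358),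
  Rx.mk (nat_lit 353) (nat_lit 1) (nat_lit 4) (nat_lit 5) (nat_lit 5) (nat_lit 336) (nat_lit 337) r7_336 r7_337 (nat_lit 0) (nat_lit 3906765) (nat_lit 0) (nat_lit 0x80258828c) (nat_lit 1075417389),
  Rx.mk (nat_lit 357) (nat_lit 5) (nat_lit 4) (nat_lit 5) (nat_lit 5) (nat_lit 328) (nat_lit 330) r7_328 r7_330 (nat_lit 0) (nat_lit 5449534) (nat_lit 0) (nat_lit 0x80029938e) (nat_lit 1079191358),
  Rx.mk (nat_lit 361) (nat_lit 1) (nat_lit 5) (nat_lit 5) (nat_lit 7) (nat_lit 338) (nat_lit 338) r7_338 r7_338 (nat_lit 0) (nat_lit 0) (nat_lit 0) (nat_lit 0x80029938e) (nat_lit 1073741824),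
  Rx.mk (nat_lit 365) (nat_lit 5) (nat_lit 5) (nat_lit 5) (nat_lit 7) (nat_lit 331) (nat_lit 331) r7_331 r7_331 (nat_lit 0) (nat_lit 0) (nat_lit 0) (nat_lit 0x80029938e) (nat_lit 1073741824),
  Rx.mk (nat_lit 381) (nat_lit 5) (nat_lit 7) (nat_lit 5) (nat_lit 7) (nat_lit 334) (nat_lit 332) r7_334 r7_332 (nat_lit 0) (nat_lit 0) (nat_lit 0) (nat_lit 0x80029938e) (nat_lit 1073741824),
  Rx.mk (nat_lit 421) (nat_lit 5) (nat_lit 4) (nat_lit 6) (nat_lit 5) (nat_lit 329) (nat_lit 333) r7_329 r7_333 (nat_lit 0) (nat_lit 5449534) (nat_lit 0) (nat_lit 0x80029938e) (nat_lit 1079191358),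
  Rx.mk (nat_lit 429) (nat_lit 5) (nat_lit 5) (nat_lit 6) (nat_lit 7) (nat_lit 332) (nat_lit 334) r7_332 r7_334 (nat_lit 0) (nat_lit 0) (nat_lit 0) (nat_lit 0x80029938e) (nat_lit 1073741824)]
noncomputable def e13_40 : List Rx := [
  Rx.mk (nat_lit 292) (nat_lit 4) (nat_lit 4) (nat_lit 4) (nat_lit 0) (nat_lit 339) (nat_lit 189) r7_339 r2_189 (nat_lit 194986) (nat_lit 399938) (nat_lit 161181) (nat_lit 0x36448175a) (nat_lit 2303875029),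
  Rx.mk (nat_lit 293) (nat_lit 5) (nat_lit 4) (nat_lit 4) (nat_lit 1) (nat_lit 344) (nat_lit 190) r7_344 r2_190 (nat_lit 0) (nat_lit 5488875) (nat_lit 5199218) (nat_lit 0x56490c8ae) (nat_lit 1780021717),
  Rx.mk (nat_lit 316) (nat_lit 4) (nat_lit 7) (nat_lit 4) (nat_lit 2) (nat_lit 342) (nat_lit 193) r7_342 r2_193 (nat_lit 1909851) (nat_lit 0) (nat_lit 1580289) (nat_lit 0x70324666e) (nat_lit 1340803264),
  Rx.mk (nat_lit 317) (nat_lit 5) (nat_lit 7) (nat_lit 4) (nat_lit 3) (nat_lit 347) (nat_lit 194) r7_347 r2_194 (nat_lit 0) (nat_lit 0) (nat_lit 5449534) (nat_lit 0x80029938e) (nat_lit 1079191358),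
  Rx.mk (nat_lit 319) (nat_lit 7) (nat_lit 7) (nat_lit 4) (nat_lit 3) (nat_lit 350) (nat_lit 195) r7_350 r2_195 (nat_lit 0) (nat_lit 0) (nat_lit 5449534) (nat_lit 0x7ffed32b8) (nat_lit 1079433358),
  Rx.mk (nat_lit 420) (nat_lit 4) (nat_lit 4) (nat_lit 6) (nat_lit 4) (nat_lit 340) (nat_lit 191) r7_340 r2_191 (nat_lit 3553214) (nat_lit 11611348) (nat_lit 0) (nat_lit 0x6c960b1d0) (nat_lit 1412675886),
  Rx.mk (nat_lit 421) (nat_lit 5) (nat_lit 4) (nat_lit 6) (nat_lit 5) (nat_lit 345) (nat_lit 192) r7_345 r2_192 (nat_lit 0) (nat_lit 5449534) (nat_lit 0) (nat_lit 0x800095baa) (nat_lit 1079320458),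
  Rx.mk (nat_lit 436) (nat_lit 4) (nat_lit 6) (nat_lit 6) (nat_lit 6) (nat_lit 341) (nat_lit 200) r7_341 r2_200 (nat_lit 5449534) (nat_lit 0) (nat_lit 0) (nat_lit 0x7ffaf9476) (nat_lit 1079680458),
  Rx.mk (nat_lit 437) (nat_lit 5) (nat_lit 6) (nat_lit 6) (nat_lit 7) (nat_lit 346) (nat_lit 201) r7_346 r2_201 (nat_lit 0) (nat_lit 0) (nat_lit 0) (nat_lit 0x80029938e) (nat_lit 1073741824),
  Rx.mk (nat_lit 438) (nat_lit 6) (nat_lit 6) (nat_lit 6) (nat_lit 7) (nat_lit 349) (nat_lit 202) r7_349 r2_202 (nat_lit 0) (nat_lit 0) (nat_lit 0) (nat_lit 0x80029938e) (nat_lit 1073741824),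
  Rx.mk (nat_lit 444) (nat_lit 4) (nat_lit 7) (nat_lit 6) (nat_lit 6) (nat_lit 343) (nat_lit 197) r7_343 r2_197 (nat_lit 5449534) (nat_lit 0) (nat_lit 0) (nat_lit 0x7ffc30790) (nat_lit 1079602458),
  Rx.mk (nat_lit 445) (nat_lit 5) (nat_lit 7) (nat_lit 6) (nat_lit 7) (nat_lit 348) (nat_lit 198) r7_348 r2_198 (nat_lit 0) (nat_lit 0) (nat_lit 0) (nat_lit 0x80029938e) (nat_lit 1073741824),
  Rx.mk (nat_lit 447) (nat_lit 7) (nat_lit 7) (nat_lit 6) (nat_lit 7) (nat_lit 351) (nat_lit 199) r7_351 r2_199 (nat_lit 0) (nat_lit 0) (nat_lit 0) (nat_lit 0x80029938e) (nat_lit 1073741824),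
  Rx.mk (nat_lit 511) (nat_lit 7) (nat_lit 7) (nat_lit 7) (nat_lit 7) (nat_lit 352) (nat_lit 196) r7_352 r2_196 (nat_lit 0) (nat_lit 0) (nat_lit 0) (nat_lit 0x80029938e) (nat_lit 1073741824)]
noncomputable def e13_41 : List Rx := [
  Rx.mk (nat_lit 292) (nat_lit 4) (nat_lit 4) (nat_lit 4) (nat_lit 0) (nat_lit 353) (nat_lit 170) r7_353 r9_170 (nat_lit 3490957) (nat_lit 5426102) (nat_lit 3541065) (nat_lit 0x36db834e6) (nat_lit 2305784648),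
  Rx.mk (nat_lit 293) (nat_lit 5) (nat_lit 4) (nat_lit 4) (nat_lit 1) (nat_lit 357) (nat_lit 171) r7_357 r9_171 (nat_lit 0) (nat_lit 9592768) (nat_lit 7908726) (nat_lit 0x655f6e5e8) (nat_lit 1535282018),
  Rx.mk (nat_lit 301) (nat_lit 5) (nat_lit 5) (nat_lit 4) (nat_lit 3) (nat_lit 359) (nat_lit 174) r7_359 r9_174 (nat_lit 0) (nat_lit 0) (nat_lit 5575825) (nat_lit 0x7ffab038e) (nat_lit 1079825149),
  Rx.mk (nat_lit 316) (nat_lit 4) (nat_lit 7) (nat_lit 4) (nat_lit 2) (nat_lit 356) (nat_lit 176) r7_356 r9_176 (nat_lit 7072192) (nat_lit 0) (nat_lit 7551398) (nat_lit 0x6f426cc38) (nat_lit 1367563814),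
  Rx.mk (nat_lit 317) (nat_lit 5) (nat_lit 7) (nat_lit 4) (nat_lit 3) (nat_lit 362) (nat_lit 177) r7_362 r9_177 (nat_lit 0) (nat_lit 0) (nat_lit 5449534) (nat_lit 0x80029938e) (nat_lit 1079191358),
  Rx.mk (nat_lit 319) (nat_lit 7) (nat_lit 7) (nat_lit 4) (nat_lit 3) (nat_lit 364) (nat_lit 178) r7_364 r9_178 (nat_lit 0) (nat_lit 0) (nat_lit 5449534) (nat_lit 0x80029938e) (nat_lit 1079191358),
  Rx.mk (nat_lit 420) (nat_lit 4) (nat_lit 4) (nat_lit 6) (nat_lit 4) (nat_lit 354) (nat_lit 172) r7_354 r9_172 (nat_lit 8202458) (nat_lit 8284346) (nat_lit 0) (nat_lit 0x6b8996482) (nat_lit 1431483228),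
  Rx.mk (nat_lit 421) (nat_lit 5) (nat_lit 4) (nat_lit 6) (nat_lit 5) (nat_lit 358) (nat_lit 173) r7_358 r9_173 (nat_lit 0) (nat_lit 5542978) (nat_lit 0) (nat_lit 0x7ffdca448) (nat_lit 1079593202),
  Rx.mk (nat_lit 429) (nat_lit 5) (nat_lit 5) (nat_lit 6) (nat_lit 7) (nat_lit 360) (nat_lit 175) r7_360 r9_175 (nat_lit 0) (nat_lit 0) (nat_lit 0) (nat_lit 0x80029938e) (nat_lit 1073741824),
  Rx.mk (nat_lit 436) (nat_lit 4) (nat_lit 6) (nat_lit 6) (nat_lit 6) (nat_lit 355) (nat_lit 180) r7_355 r9_180 (nat_lit 5449534) (nat_lit 0) (nat_lit 0) (nat_lit 0x7ffcbd500) (nat_lit 1079567158),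
  Rx.mk (nat_lit 437) (nat_lit 5) (nat_lit 6) (nat_lit 6) (nat_lit 7) (nat_lit 361) (nat_lit 181) r7_361 r9_181 (nat_lit 0) (nat_lit 0) (nat_lit 0) (nat_lit 0x80029938e) (nat_lit 1073741824),
  Rx.mk (nat_lit 438) (nat_lit 6) (nat_lit 6) (nat_lit 6) (nat_lit 7) (nat_lit 363) (nat_lit 182) r7_363 r9_182 (nat_lit 0) (nat_lit 0) (nat_lit 0) (nat_lit 0x80029938e) (nat_lit 1073741824),
  Rx.mk (nat_lit 511) (nat_lit 7) (nat_lit 7) (nat_lit 7) (nat_lit 7) (nat_lit 365) (nat_lit 179) r7_365 r9_179 (nat_lit 0) (nat_lit 0) (nat_lit 0) (nat_lit 0x80029938e) (nat_lit 1073741824)]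
noncomputable def e13_42 : List Rx := [
  Rx.mk (nat_lit 182) (nat_lit 6) (nat_lit 6) (nat_lit 2) (nat_lit 7) (nat_lit 377) (nat_lit 82) r7_377 r9_82 (nat_lit 0) (nat_lit 0) (nat_lit 0) (nat_lit 0x80029938e) (nat_lit 1073741824),
  Rx.mk (nat_lit 292) (nat_lit 4) (nat_lit 4) (nat_lit 4) (nat_lit 0) (nat_lit 366) (nat_lit 68) r7_366 r9_68 (nat_lit 3385952) (nat_lit 11576654) (nat_lit 3477128) (nat_lit 0x34c2f965c) (nat_lit 2346711858),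
  Rx.mk (nat_lit 293) (nat_lit 5) (nat_lit 4) (nat_lit 4) (nat_lit 1) (nat_lit 371) (nat_lit 69) r7_371 r9_69 (nat_lit 0) (nat_lit 44159155) (nat_lit 7389909) (nat_lit 0x66138ffea) (nat_lit 1557598988),
  Rx.mk (nat_lit 316) (nat_lit 4) (nat_lit 7) (nat_lit 4) (nat_lit 2) (nat_lit 369) (nat_lit 70) r7_369 r9_70 (nat_lit 4914479) (nat_lit 0) (nat_lit 5437810) (nat_lit 0x6b8d41d70) (nat_lit 1425110413),
  Rx.mk (nat_lit 317) (nat_lit 5) (nat_lit 7) (nat_lit 4) (nat_lit 3) (nat_lit 374) (nat_lit 71) r7_374 r9_71 (nat_lit 0) (nat_lit 0) (nat_lit 5449534) (nat_lit 0x80029938e) (nat_lit 1079191358),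
  Rx.mk (nat_lit 319) (nat_lit 7) (nat_lit 7) (nat_lit 4) (nat_lit 3) (nat_lit 378) (nat_lit 72) r7_378 r9_72 (nat_lit 0) (nat_lit 0) (nat_lit 5449534) (nat_lit 0x80029938e) (nat_lit 1079191358),
  Rx.mk (nat_lit 420) (nat_lit 4) (nat_lit 4) (nat_lit 6) (nat_lit 4) (nat_lit 367) (nat_lit 74) r7_367 r9_74 (nat_lit 6241714) (nat_lit 7900979) (nat_lit 0) (nat_lit 0x694fdda3a) (nat_lit 1466245017),
  Rx.mk (nat_lit 421) (nat_lit 5) (nat_lit 4) (nat_lit 6) (nat_lit 5) (nat_lit 372) (nat_lit 75) r7_372 r9_75 (nat_lit 0) (nat_lit 5449534) (nat_lit 0) (nat_lit 0x7fffb0fc8) (nat_lit 1079377758),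
  Rx.mk (nat_lit 436) (nat_lit 4) (nat_lit 6) (nat_lit 6) (nat_lit 6) (nat_lit 368) (nat_lit 79) r7_368 r9_79 (nat_lit 5449534) (nat_lit 0) (nat_lit 0) (nat_lit 0x7ff64ac54) (nat_lit 1079981358),
  Rx.mk (nat_lit 437) (nat_lit 5) (nat_lit 6) (nat_lit 6) (nat_lit 7) (nat_lit 373) (nat_lit 80) r7_373 r9_80 (nat_lit 0) (nat_lit 0) (nat_lit 0) (nat_lit 0x80029938e) (nat_lit 1073741824),
  Rx.mk (nat_lit 438) (nat_lit 6) (nat_lit 6) (nat_lit 6) (nat_lit 7) (nat_lit 376) (nat_lit 81) r7_376 r9_81 (nat_lit 0) (nat_lit 0) (nat_lit 0) (nat_lit 0x80029938e) (nat_lit 1073741824),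
  Rx.mk (nat_lit 444) (nat_lit 4) (nat_lit 7) (nat_lit 6) (nat_lit 6) (nat_lit 370) (nat_lit 76) r7_370 r9_76 (nat_lit 5449534) (nat_lit 0) (nat_lit 0) (nat_lit 0x7ff6b914a) (nat_lit 1079953558),
  Rx.mk (nat_lit 445) (nat_lit 5) (nat_lit 7) (nat_lit 6) (nat_lit 7) (nat_lit 375) (nat_lit 77) r7_375 r9_77 (nat_lit 0) (nat_lit 0) (nat_lit 0) (nat_lit 0x80029938e) (nat_lit 1073741824),
  Rx.mk (nat_lit 447) (nat_lit 7) (nat_lit 7) (nat_lit 6) (nat_lit 7) (nat_lit 379) (nat_lit 78) r7_379 r9_78 (nat_lit 0) (nat_lit 0) (nat_lit 0) (nat_lit 0x80029938e) (nat_lit 1073741824),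
  Rx.mk (nat_lit 511) (nat_lit 7) (nat_lit 7) (nat_lit 7) (nat_lit 7) (nat_lit 380) (nat_lit 73) r7_380 r9_73 (nat_lit 0) (nat_lit 0) (nat_lit 0) (nat_lit 0x80029938e) (nat_lit 1073741824)]
noncomputable def e13_43 : List Rx := [
  Rx.mk (nat_lit 293) (nat_lit 5) (nat_lit 4) (nat_lit 4) (nat_lit 1) (nat_lit 381) (nat_lit 192) r7_381 r1_192 (nat_lit 0) (nat_lit 13272121) (nat_lit 18024927) (nat_lit 0x679c04a46) (nat_lit 1511783172),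
  Rx.mk (nat_lit 317) (nat_lit 5) (nat_lit 7) (nat_lit 4) (nat_lit 3) (nat_lit 385) (nat_lit 195) r7_385 r1_195 (nat_lit 0) (nat_lit 0) (nat_lit 3131027) (nat_lit 0x8039b0930) (nat_lit 1073355051),
  Rx.mk (nat_lit 357) (nat_lit 5) (nat_lit 4) (nat_lit 5) (nat_lit 5) (nat_lit 382) (nat_lit 193) r7_382 r1_193 (nat_lit 0) (nat_lit 6367424) (nat_lit 0) (nat_lit 0x7fc15ea7c) (nat_lit 1084313548),
  Rx.mk (nat_lit 381) (nat_lit 5) (nat_lit 7) (nat_lit 5) (nat_lit 7) (nat_lit 386) (nat_lit 196) r7_386 r1_196 (nat_lit 0) (nat_lit 0) (nat_lit 0) (nat_lit 0x8013c631e) (nat_lit 1072641324),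
  Rx.mk (nat_lit 421) (nat_lit 5) (nat_lit 4) (nat_lit 6) (nat_lit 5) (nat_lit 383) (nat_lit 194) r7_383 r1_194 (nat_lit 0) (nat_lit 50165941) (nat_lit 0) (nat_lit 0x874d452b4) (nat_lit 1005906665),
  Rx.mk (nat_lit 437) (nat_lit 5) (nat_lit 6) (nat_lit 6) (nat_lit 7) (nat_lit 384) (nat_lit 198) r7_384 r1_198 (nat_lit 0) (nat_lit 0) (nat_lit 0) (nat_lit 0x80f9b7260) (nat_lit 1058059324),
  Rx.mk (nat_lit 445) (nat_lit 5) (nat_lit 7) (nat_lit 6) (nat_lit 7) (nat_lit 387) (nat_lit 197) r7_387 r1_197 (nat_lit 0) (nat_lit 0) (nat_lit 0) (nat_lit 0x8013c631e) (nat_lit 1072641324)]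
noncomputable def e13_44 : List Rx := [
  Rx.mk (nat_lit 293) (nat_lit 5) (nat_lit 4) (nat_lit 4) (nat_lit 1) (nat_lit 388) (nat_lit 248) r7_388 r8_248 (nat_lit 0) (nat_lit 9806922) (nat_lit 18822904) (nat_lit 0x645205e84) (nat_lit 1563957550),
  Rx.mk (nat_lit 301) (nat_lit 5) (nat_lit 5) (nat_lit 4) (nat_lit 3) (nat_lit 391) (nat_lit 249) r7_391 r8_249 (nat_lit 0) (nat_lit 0) (nat_lit 5661505) (nat_lit 0x7ff885e6a) (nat_lit 1080049829),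
  Rx.mk (nat_lit 317) (nat_lit 5) (nat_lit 7) (nat_lit 4) (nat_lit 3) (nat_lit 395) (nat_lit 250) r7_395 r8_250 (nat_lit 0) (nat_lit 0) (nat_lit 5449534) (nat_lit 0x80029938e) (nat_lit 1079191358),
  Rx.mk (nat_lit 357) (nat_lit 5) (nat_lit 4) (nat_lit 5) (nat_lit 5) (nat_lit 389) (nat_lit 251) r7_389 r8_251 (nat_lit 0) (nat_lit 5449534) (nat_lit 0) (nat_lit 0x80029938e) (nat_lit 1079191358),
  Rx.mk (nat_lit 365) (nat_lit 5) (nat_lit 5) (nat_lit 5) (nat_lit 7) (nat_lit 392) (nat_lit 252) r7_392 r8_252 (nat_lit 0) (nat_lit 0) (nat_lit 0) (nat_lit 0x80029938e) (nat_lit 1073741824),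
  Rx.mk (nat_lit 381) (nat_lit 5) (nat_lit 7) (nat_lit 5) (nat_lit 7) (nat_lit 396) (nat_lit 253) r7_396 r8_253 (nat_lit 0) (nat_lit 0) (nat_lit 0) (nat_lit 0x80029938e) (nat_lit 1073741824),
  Rx.mk (nat_lit 421) (nat_lit 5) (nat_lit 4) (nat_lit 6) (nat_lit 5) (nat_lit 390) (nat_lit 254) r7_390 r8_254 (nat_lit 0) (nat_lit 5560769) (nat_lit 0) (nat_lit 0x800073c4e) (nat_lit 1079440193),
  Rx.mk (nat_lit 429) (nat_lit 5) (nat_lit 5) (nat_lit 6) (nat_lit 7) (nat_lit 393) (nat_lit 255) r7_393 r8_255 (nat_lit 0) (nat_lit 0) (nat_lit 0) (nat_lit 0x80029938e) (nat_lit 1073741824),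
  Rx.mk (nat_lit 437) (nat_lit 5) (nat_lit 6) (nat_lit 6) (nat_lit 7) (nat_lit 394) (nat_lit 256) r7_394 r8_256 (nat_lit 0) (nat_lit 0) (nat_lit 0) (nat_lit 0x80029938e) (nat_lit 1073741824)]
noncomputable def e13_45 : List Rx := [
  Rx.mk (nat_lit 297) (nat_lit 1) (nat_lit 5) (nat_lit 4) (nat_lit 3) (nat_lit 397) (nat_lit 256) r7_397 r1_256 (nat_lit 0) (nat_lit 0) (nat_lit 5449534) (nat_lit 0x7f8e54334) (nat_lit 1086711158),
  Rx.mk (nat_lit 361) (nat_lit 1) (nat_lit 5) (nat_lit 5) (nat_lit 7) (nat_lit 398) (nat_lit 257) r7_398 r1_257 (nat_lit 0) (nat_lit 0) (nat_lit 0) (nat_lit 0x80029938e) (nat_lit 1073741824)]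
noncomputable def e13_46 : List Rx := [
  Rx.mk (nat_lit 329) (nat_lit 1) (nat_lit 1) (nat_lit 5) (nat_lit 7) (nat_lit 400) (nat_lit 285) r7_400 r2_285 (nat_lit 0) (nat_lit 0) (nat_lit 0) (nat_lit 0x80029938e) (nat_lit 1073741824),
  Rx.mk (nat_lit 361) (nat_lit 1) (nat_lit 5) (nat_lit 5) (nat_lit 7) (nat_lit 399) (nat_lit 284) r7_399 r2_284 (nat_lit 0) (nat_lit 0) (nat_lit 0) (nat_lit 0x80029938e) (nat_lit 1073741824)]
noncomputable def e13_47 : List Rx := [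
  Rx.mk (nat_lit 297) (nat_lit 1) (nat_lit 5) (nat_lit 4) (nat_lit 3) (nat_lit 404) (nat_lit 184) r7_404 r8_184 (nat_lit 0) (nat_lit 0) (nat_lit 5449534) (nat_lit 0x80029938e) (nat_lit 1079191358),
  Rx.mk (nat_lit 301) (nat_lit 5) (nat_lit 5) (nat_lit 4) (nat_lit 3) (nat_lit 401) (nat_lit 185) r7_401 r8_185 (nat_lit 0) (nat_lit 0) (nat_lit 5322975) (nat_lit 0x7ffd77ce8) (nat_lit 1079393799),
  Rx.mk (nat_lit 361) (nat_lit 1) (nat_lit 5) (nat_lit 5) (nat_lit 7) (nat_lit 405) (nat_lit 186) r7_405 r8_186 (nat_lit 0) (nat_lit 0) (nat_lit 0) (nat_lit 0x80029938e) (nat_lit 1073741824),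
  Rx.mk (nat_lit 365) (nat_lit 5) (nat_lit 5) (nat_lit 5) (nat_lit 7) (nat_lit 402) (nat_lit 187) r7_402 r8_187 (nat_lit 0) (nat_lit 0) (nat_lit 0) (nat_lit 0x80029938e) (nat_lit 1073741824),
  Rx.mk (nat_lit 429) (nat_lit 5) (nat_lit 5) (nat_lit 6) (nat_lit 7) (nat_lit 403) (nat_lit 188) r7_403 r8_188 (nat_lit 0) (nat_lit 0) (nat_lit 0) (nat_lit 0x80029938e) (nat_lit 1073741824)]
noncomputable def e13_48 : List Rx := [
  Rx.mk (nat_lit 329) (nat_lit 1) (nat_lit 1) (nat_lit 5) (nat_lit 7) (nat_lit 408) (nat_lit 259) r7_408 r9_259 (nat_lit 0) (nat_lit 0) (nat_lit 0) (nat_lit 0x80029938e) (nat_lit 1073741824),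
  Rx.mk (nat_lit 361) (nat_lit 1) (nat_lit 5) (nat_lit 5) (nat_lit 7) (nat_lit 407) (nat_lit 258) r7_407 r9_258 (nat_lit 0) (nat_lit 0) (nat_lit 0) (nat_lit 0x80029938e) (nat_lit 1073741824),
  Rx.mk (nat_lit 365) (nat_lit 5) (nat_lit 5) (nat_lit 5) (nat_lit 7) (nat_lit 406) (nat_lit 257) r7_406 r9_257 (nat_lit 0) (nat_lit 0) (nat_lit 0) (nat_lit 0x80029938e) (nat_lit 1073741824)]
noncomputable def e13_49 : List Rx := [
  Rx.mk (nat_lit 73) (nat_lit 1) (nat_lit 1) (nat_lit 1) (nat_lit 7) (nat_lit 411) (nat_lit 257) r7_411 r9_257 (nat_lit 0) (nat_lit 0) (nat_lit 0) (nat_lit 0x80029938e) (nat_lit 1073741824),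
  Rx.mk (nat_lit 329) (nat_lit 1) (nat_lit 1) (nat_lit 5) (nat_lit 7) (nat_lit 410) (nat_lit 258) r7_410 r9_258 (nat_lit 0) (nat_lit 0) (nat_lit 0) (nat_lit 0x80029938e) (nat_lit 1073741824),
  Rx.mk (nat_lit 361) (nat_lit 1) (nat_lit 5) (nat_lit 5) (nat_lit 7) (nat_lit 409) (nat_lit 259) r7_409 r9_259 (nat_lit 0) (nat_lit 0) (nat_lit 0) (nat_lit 0x80029938e) (nat_lit 1073741824)]
noncomputable def e13_50 : List Rx := [
  Rx.mk (nat_lit 289) (nat_lit 1) (nat_lit 4) (nat_lit 4) (nat_lit 1) (nat_lit 412) (nat_lit 250) r7_412 r3_250 (nat_lit 0) (nat_lit 13620) (nat_lit 17692) (nat_lit 0x66343bea6) (nat_lit 1503873036),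
  Rx.mk (nat_lit 313) (nat_lit 1) (nat_lit 7) (nat_lit 4) (nat_lit 3) (nat_lit 414) (nat_lit 251) r7_414 r3_251 (nat_lit 0) (nat_lit 0) (nat_lit 51739) (nat_lit 0x8025c8a44) (nat_lit 1071420663),
  Rx.mk (nat_lit 353) (nat_lit 1) (nat_lit 4) (nat_lit 5) (nat_lit 5) (nat_lit 413) (nat_lit 252) r7_413 r3_252 (nat_lit 0) (nat_lit 3317218) (nat_lit 0) (nat_lit 0x73b921fbe) (nat_lit 1281818742),
  Rx.mk (nat_lit 377) (nat_lit 1) (nat_lit 7) (nat_lit 5) (nat_lit 7) (nat_lit 415) (nat_lit 253) r7_415 r3_253 (nat_lit 0) (nat_lit 0) (nat_lit 0) (nat_lit 0x89c325cac) (nat_lit 915957624)]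
noncomputable def e13_51 : List Rx := [
  Rx.mk (nat_lit 289) (nat_lit 1) (nat_lit 4) (nat_lit 4) (nat_lit 1) (nat_lit 416) (nat_lit 265) r7_416 r4_265 (nat_lit 0) (nat_lit 10345136) (nat_lit 34184311) (nat_lit 0x6ebe1e59e) (nat_lit 1406084271),
  Rx.mk (nat_lit 297) (nat_lit 1) (nat_lit 5) (nat_lit 4) (nat_lit 3) (nat_lit 418) (nat_lit 266) r7_418 r4_266 (nat_lit 0) (nat_lit 0) (nat_lit 5449534) (nat_lit 0x80029938e) (nat_lit 1079191358),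
  Rx.mk (nat_lit 313) (nat_lit 1) (nat_lit 7) (nat_lit 4) (nat_lit 3) (nat_lit 420) (nat_lit 267) r7_420 r4_267 (nat_lit 0) (nat_lit 0) (nat_lit 4321044) (nat_lit 0x800f26f02) (nat_lit 1077257068),
  Rx.mk (nat_lit 353) (nat_lit 1) (nat_lit 4) (nat_lit 5) (nat_lit 5) (nat_lit 417) (nat_lit 268) r7_417 r4_268 (nat_lit 0) (nat_lit 4100018) (nat_lit 0) (nat_lit 0x801ea5dd4) (nat_lit 1076046742),
  Rx.mk (nat_lit 361) (nat_lit 1) (nat_lit 5) (nat_lit 5) (nat_lit 7) (nat_lit 419) (nat_lit 269) r7_419 r4_269 (nat_lit 0) (nat_lit 0) (nat_lit 0) (nat_lit 0x80029938e) (nat_lit 1073741824),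
  Rx.mk (nat_lit 377) (nat_lit 1) (nat_lit 7) (nat_lit 5) (nat_lit 7) (nat_lit 421) (nat_lit 270) r7_421 r4_270 (nat_lit 0) (nat_lit 0) (nat_lit 0) (nat_lit 0x80029938e) (nat_lit 1073741824)]
noncomputable def e13_52 : List Rx := [
  Rx.mk (nat_lit 313) (nat_lit 1) (nat_lit 7) (nat_lit 4) (nat_lit 3) (nat_lit 422) (nat_lit 256) r7_422 r5_256 (nat_lit 0) (nat_lit 0) (nat_lit 1663775) (nat_lit 0x7ff356e8a) (nat_lit 1076373699),
  Rx.mk (nat_lit 377) (nat_lit 1) (nat_lit 7) (nat_lit 5) (nat_lit 7) (nat_lit 423) (nat_lit 257) r7_423 r5_257 (nat_lit 0) (nat_lit 0) (nat_lit 0) (nat_lit 0x804fac05e) (nat_lit 1068822724)]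
noncomputable def e13_53 : List Rx := [
  Rx.mk (nat_lit 289) (nat_lit 1) (nat_lit 4) (nat_lit 4) (nat_lit 1) (nat_lit 427) (nat_lit 167) r7_427 r4_167 (nat_lit 0) (nat_lit 6409400) (nat_lit 2628537) (nat_lit 0x64e7bb690) (nat_lit 1534609061),
  Rx.mk (nat_lit 313) (nat_lit 1) (nat_lit 7) (nat_lit 4) (nat_lit 3) (nat_lit 429) (nat_lit 169) r7_429 r4_169 (nat_lit 0) (nat_lit 0) (nat_lit 1693168) (nat_lit 0x7fb51bd00) (nat_lit 1080428292),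
  Rx.mk (nat_lit 317) (nat_lit 5) (nat_lit 7) (nat_lit 4) (nat_lit 3) (nat_lit 424) (nat_lit 170) r7_424 r4_170 (nat_lit 0) (nat_lit 0) (nat_lit 2874909) (nat_lit 0x8041c95d6) (nat_lit 1072582433),
  Rx.mk (nat_lit 353) (nat_lit 1) (nat_lit 4) (nat_lit 5) (nat_lit 5) (nat_lit 428) (nat_lit 168) r7_428 r4_168 (nat_lit 0) (nat_lit 4040041) (nat_lit 0) (nat_lit 0x8012909e0) (nat_lit 1076761165),
  Rx.mk (nat_lit 377) (nat_lit 1) (nat_lit 7) (nat_lit 5) (nat_lit 7) (nat_lit 430) (nat_lit 171) r7_430 r4_171 (nat_lit 0) (nat_lit 0) (nat_lit 0) (nat_lit 0x8073a79e0) (nat_lit 1066541824),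
  Rx.mk (nat_lit 381) (nat_lit 5) (nat_lit 7) (nat_lit 5) (nat_lit 7) (nat_lit 425) (nat_lit 172) r7_425 r4_172 (nat_lit 0) (nat_lit 0) (nat_lit 0) (nat_lit 0x80261c34c) (nat_lit 1071470624),
  Rx.mk (nat_lit 445) (nat_lit 5) (nat_lit 7) (nat_lit 6) (nat_lit 7) (nat_lit 426) (nat_lit 173) r7_426 r4_173 (nat_lit 0) (nat_lit 0) (nat_lit 0) (nat_lit 0x80261c34c) (nat_lit 1071470624)]
noncomputable def e13_54 : List Rx := [
  Rx.mk (nat_lit 289) (nat_lit 1) (nat_lit 4) (nat_lit 4) (nat_lit 1) (nat_lit 433) (nat_lit 286) r7_433 r10_286 (nat_lit 0) (nat_lit 2862197) (nat_lit 3562106) (nat_lit 0x6f8080cd6) (nat_lit 1355313627),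
  Rx.mk (nat_lit 297) (nat_lit 1) (nat_lit 5) (nat_lit 4) (nat_lit 3) (nat_lit 435) (nat_lit 287) r7_435 r10_287 (nat_lit 0) (nat_lit 0) (nat_lit 5449534) (nat_lit 0x80029938e) (nat_lit 1079191358),
  Rx.mk (nat_lit 313) (nat_lit 1) (nat_lit 7) (nat_lit 4) (nat_lit 3) (nat_lit 437) (nat_lit 288) r7_437 r10_288 (nat_lit 0) (nat_lit 0) (nat_lit 5449534) (nat_lit 0x80029938e) (nat_lit 1079191358),
  Rx.mk (nat_lit 317) (nat_lit 5) (nat_lit 7) (nat_lit 4) (nat_lit 3) (nat_lit 431) (nat_lit 284) r7_431 r10_284 (nat_lit 0) (nat_lit 0) (nat_lit 5449534) (nat_lit 0x80029938e) (nat_lit 1079191358),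
  Rx.mk (nat_lit 353) (nat_lit 1) (nat_lit 4) (nat_lit 5) (nat_lit 5) (nat_lit 434) (nat_lit 289) r7_434 r10_289 (nat_lit 0) (nat_lit 5449534) (nat_lit 0) (nat_lit 0x80029938e) (nat_lit 1079191358),
  Rx.mk (nat_lit 361) (nat_lit 1) (nat_lit 5) (nat_lit 5) (nat_lit 7) (nat_lit 436) (nat_lit 290) r7_436 r10_290 (nat_lit 0) (nat_lit 0) (nat_lit 0) (nat_lit 0x80029938e) (nat_lit 1073741824),
  Rx.mk (nat_lit 377) (nat_lit 1) (nat_lit 7) (nat_lit 5) (nat_lit 7) (nat_lit 438) (nat_lit 291) r7_438 r10_291 (nat_lit 0) (nat_lit 0) (nat_lit 0) (nat_lit 0x80029938e) (nat_lit 1073741824),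
  Rx.mk (nat_lit 381) (nat_lit 5) (nat_lit 7) (nat_lit 5) (nat_lit 7) (nat_lit 432) (nat_lit 285) r7_432 r10_285 (nat_lit 0) (nat_lit 0) (nat_lit 0) (nat_lit 0x80029938e) (nat_lit 1073741824)]
noncomputable def e13_55 : List Rx := [
  Rx.mk (nat_lit 313) (nat_lit 1) (nat_lit 7) (nat_lit 4) (nat_lit 3) (nat_lit 442) (nat_lit 306) r7_442 r11_306 (nat_lit 0) (nat_lit 0) (nat_lit 2211577) (nat_lit 0x80826cbe2) (nat_lit 1067819001),
  Rx.mk (nat_lit 317) (nat_lit 5) (nat_lit 7) (nat_lit 4) (nat_lit 3) (nat_lit 439) (nat_lit 303) r7_439 r11_303 (nat_lit 0) (nat_lit 0) (nat_lit 5449534) (nat_lit 0x80029938e) (nat_lit 1079191358),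
  Rx.mk (nat_lit 377) (nat_lit 1) (nat_lit 7) (nat_lit 5) (nat_lit 7) (nat_lit 443) (nat_lit 307) r7_443 r11_307 (nat_lit 0) (nat_lit 0) (nat_lit 0) (nat_lit 0x804af24dc) (nat_lit 1069126324),
  Rx.mk (nat_lit 381) (nat_lit 5) (nat_lit 7) (nat_lit 5) (nat_lit 7) (nat_lit 440) (nat_lit 304) r7_440 r11_304 (nat_lit 0) (nat_lit 0) (nat_lit 0) (nat_lit 0x80029938e) (nat_lit 1073741824),
  Rx.mk (nat_lit 445) (nat_lit 5) (nat_lit 7) (nat_lit 6) (nat_lit 7) (nat_lit 441) (nat_lit 305) r7_441 r11_305 (nat_lit 0) (nat_lit 0) (nat_lit 0) (nat_lit 0x80029938e) (nat_lit 1073741824)]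
noncomputable def e13_56 : List Rx := [
  Rx.mk (nat_lit 289) (nat_lit 1) (nat_lit 4) (nat_lit 4) (nat_lit 1) (nat_lit 444) (nat_lit 184) r7_444 r5_184 (nat_lit 0) (nat_lit 10009322) (nat_lit 2284157) (nat_lit 0x6e04ad22c) (nat_lit 1385922203),
  Rx.mk (nat_lit 313) (nat_lit 1) (nat_lit 7) (nat_lit 4) (nat_lit 3) (nat_lit 446) (nat_lit 186) r7_446 r5_186 (nat_lit 0) (nat_lit 0) (nat_lit 2216475) (nat_lit 0x802e1cf2e) (nat_lit 1073168099),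
  Rx.mk (nat_lit 353) (nat_lit 1) (nat_lit 4) (nat_lit 5) (nat_lit 5) (nat_lit 445) (nat_lit 185) r7_445 r5_185 (nat_lit 0) (nat_lit 5449534) (nat_lit 0) (nat_lit 0x80029938e) (nat_lit 1079191358),
  Rx.mk (nat_lit 377) (nat_lit 1) (nat_lit 7) (nat_lit 5) (nat_lit 7) (nat_lit 447) (nat_lit 187) r7_447 r5_187 (nat_lit 0) (nat_lit 0) (nat_lit 0) (nat_lit 0x8045fce28) (nat_lit 1069439724),
  Rx.mk (nat_lit 505) (nat_lit 1) (nat_lit 7) (nat_lit 7) (nat_lit 7) (nat_lit 448) (nat_lit 188) r7_448 r5_188 (nat_lit 0) (nat_lit 0) (nat_lit 0) (nat_lit 0x7fe8d0dda) (nat_lit 1075400424)]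
noncomputable def e13_57 : List Rx := [
  Rx.mk (nat_lit 289) (nat_lit 1) (nat_lit 4) (nat_lit 4) (nat_lit 1) (nat_lit 449) (nat_lit 212) r7_449 r11_212 (nat_lit 0) (nat_lit 140034131) (nat_lit 27051137) (nat_lit 0x7b544a5ac) (nat_lit 1318788992),
  Rx.mk (nat_lit 297) (nat_lit 1) (nat_lit 5) (nat_lit 4) (nat_lit 3) (nat_lit 451) (nat_lit 214) r7_451 r11_214 (nat_lit 0) (nat_lit 0) (nat_lit 5449534) (nat_lit 0x80029938e) (nat_lit 1079191358),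
  Rx.mk (nat_lit 313) (nat_lit 1) (nat_lit 7) (nat_lit 4) (nat_lit 3) (nat_lit 453) (nat_lit 216) r7_453 r11_216 (nat_lit 0) (nat_lit 0) (nat_lit 5449534) (nat_lit 0x80029938e) (nat_lit 1079191358),
  Rx.mk (nat_lit 353) (nat_lit 1) (nat_lit 4) (nat_lit 5) (nat_lit 5) (nat_lit 450) (nat_lit 213) r7_450 r11_213 (nat_lit 0) (nat_lit 5449534) (nat_lit 0) (nat_lit 0x80029938e) (nat_lit 1079191358),
  Rx.mk (nat_lit 361) (nat_lit 1) (nat_lit 5) (nat_lit 5) (nat_lit 7) (nat_lit 452) (nat_lit 215) r7_452 r11_215 (nat_lit 0) (nat_lit 0) (nat_lit 0) (nat_lit 0x80029938e) (nat_lit 1073741824),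
  Rx.mk (nat_lit 377) (nat_lit 1) (nat_lit 7) (nat_lit 5) (nat_lit 7) (nat_lit 454) (nat_lit 217) r7_454 r11_217 (nat_lit 0) (nat_lit 0) (nat_lit 0) (nat_lit 0x80029938e) (nat_lit 1073741824),
  Rx.mk (nat_lit 505) (nat_lit 1) (nat_lit 7) (nat_lit 7) (nat_lit 7) (nat_lit 455) (nat_lit 218) r7_455 r11_218 (nat_lit 0) (nat_lit 0) (nat_lit 0) (nat_lit 0x80029938e) (nat_lit 1073741824)]
noncomputable def e13 : List (List Rx) := [e13_0, e13_1, e13_2, e13_3, e13_4, e13_5, e13_6, e13_7, e13_8, e13_9, e13_10, e13_11, e13_12, e13_13, e13_14, e13_15, e13_16, e13_17, e13_18, e13_19, e13_20, e13_21, e13_22, e13_23, e13_24, e13_25, e13_26, e13_27, e13_28, e13_29, e13_30, e13_31, e13_32, e13_33, e13_34, e13_35, e13_36, e13_37, e13_38, e13_39, e13_40, e13_41, e13_42, e13_43, e13_44, e13_45, e13_46, e13_47, e13_48, e13_49, e13_50, e13_51, e13_52, e13_53, e13_54, e13_55,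 e13_56, e13_57]
noncomputable def e14_0 : List Rx := [
  Rx.mk (nat_lit 0) (nat_lit 0) (nat_lit 0) (nat_lit 0) (nat_lit 0) (nat_lit 94) (nat_lit 111) r1_94 r0_111 (nat_lit 792) (nat_lit 313883956) (nat_lit 809) (nat_lit 0x800043b20) (nat_lit 1387611081),
  Rx.mk (nat_lit 1) (nat_lit 1) (nat_lit 0) (nat_lit 0) (nat_lit 1) (nat_lit 95) (nat_lit 114) r1_95 r0_114 (nat_lit 0) (nat_lit 389289256) (nat_lit 5229139) (nat_lit 0x7f6d76162) (nat_lit 1477906119),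
  Rx.mk (nat_lit 2) (nat_lit 2) (nat_lit 0) (nat_lit 0) (nat_lit 1) (nat_lit 96) (nat_lit 118) r1_96 r0_118 (nat_lit 0) (nat_lit 244546135) (nat_lit 13308373) (nat_lit 0x7f7cf93a0) (nat_lit 1340240332),
  Rx.mk (nat_lit 18) (nat_lit 2) (nat_lit 2) (nat_lit 0) (nat_lit 3) (nat_lit 97) (nat_lit 121) r1_97 r0_121 (nat_lit 0) (nat_lit 0) (nat_lit 4762754) (nat_lit 0x7fefdf6ee) (nat_lit 1079707178),
  Rx.mk (nat_lit 146) (nat_lit 2) (nat_lit 2) (nat_lit 2) (nat_lit 7) (nat_lit 98) (nat_lit 123) r1_98 r0_123 (nat_lit 0) (nat_lit 0) (nat_lit 0) (nat_lit 0x80029938e) (nat_lit 1073741824),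
  Rx.mk (nat_lit 192) (nat_lit 0) (nat_lit 0) (nat_lit 3) (nat_lit 4) (nat_lit 99) (nat_lit 112) r1_99 r0_112 (nat_lit 2995413) (nat_lit 134380886) (nat_lit 0) (nat_lit 0x6f8aae7a8) (nat_lit 1485611623),
  Rx.mk (nat_lit 193) (nat_lit 1) (nat_lit 0) (nat_lit 3) (nat_lit 5) (nat_lit 100) (nat_lit 115) r1_100 r0_115 (nat_lit 0) (nat_lit 9520156) (nat_lit 0) (nat_lit 0x7fd237c40) (nat_lit 1086376280),
  Rx.mk (nat_lit 194) (nat_lit 2) (nat_lit 0) (nat_lit 3) (nat_lit 5) (nat_lit 101) (nat_lit 119) r1_101 r0_119 (nat_lit 0) (nat_lit 7910044) (nat_lit 0) (nat_lit 0x80340856e) (nat_lit 1078489268),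
  Rx.mk (nat_lit 210) (nat_lit 2) (nat_lit 2) (nat_lit 3) (nat_lit 7) (nat_lit 102) (nat_lit 122) r1_102 r0_122 (nat_lit 0) (nat_lit 0) (nat_lit 0) (nat_lit 0x80029938e) (nat_lit 1073741824),
  Rx.mk (nat_lit 216) (nat_lit 0) (nat_lit 3) (nat_lit 3) (nat_lit 6) (nat_lit 103) (nat_lit 113) r1_103 r0_113 (nat_lit 4066432) (nat_lit 0) (nat_lit 0) (nat_lit 0x79ca131dc) (nat_lit 1181450656),
  Rx.mk (nat_lit 217) (nat_lit 1) (nat_lit 3) (nat_lit 3) (nat_lit 7) (nat_lit 104) (nat_lit 116) r1_104 r0_116 (nat_lit 0) (nat_lit 0) (nat_lit 0) (nat_lit 0x80029938e) (nat_lit 1073741824),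
  Rx.mk (nat_lit 218) (nat_lit 2) (nat_lit 3) (nat_lit 3) (nat_lit 7) (nat_lit 105) (nat_lit 120) r1_105 r0_120 (nat_lit 0) (nat_lit 0) (nat_lit 0) (nat_lit 0x80029938e) (nat_lit 1073741824),
  Rx.mk (nat_lit 219) (nat_lit 3) (nat_lit 3) (nat_lit 3) (nat_lit 7) (nat_lit 106) (nat_lit 117) r1_106 r0_117 (nat_lit 0) (nat_lit 0) (nat_lit 0) (nat_lit 0x80029938e) (nat_lit 1073741824)]
noncomputable def e14_1 : List Rx := [
  Rx.mk (nat_lit 0) (nat_lit 0) (nat_lit 0) (nat_lit 0) (nat_lit 0) (nat_lit 117) (nat_lit 117) r1_117 r1_117 (nat_lit 1121635) (nat_lit 341868901) (nat_lit 1121635) (nat_lit 0x65b727faa) (nat_lit 1856174495),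
  Rx.mk (nat_lit 1) (nat_lit 1) (nat_lit 0) (nat_lit 0) (nat_lit 1) (nat_lit 118) (nat_lit 121) r1_118 r1_121 (nat_lit 0) (nat_lit 151346615) (nat_lit 5218741) (nat_lit 0x7ecf444c6) (nat_lit 1250251980),
  Rx.mk (nat_lit 2) (nat_lit 2) (nat_lit 0) (nat_lit 0) (nat_lit 1) (nat_lit 119) (nat_lit 126) r1_119 r1_126 (nat_lit 0) (nat_lit 162116195) (nat_lit 7841701) (nat_lit 0x7f1abe9f6) (nat_lit 1258729120),
  Rx.mk (nat_lit 18) (nat_lit 2) (nat_lit 2) (nat_lit 0) (nat_lit 3) (nat_lit 120) (nat_lit 128) r1_120 r1_128 (nat_lit 0) (nat_lit 0) (nat_lit 5106869) (nat_lit 0x7fef974e8) (nat_lit 1080069093),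
  Rx.mk (nat_lit 64) (nat_lit 0) (nat_lit 0) (nat_lit 1) (nat_lit 4) (nat_lit 121) (nat_lit 118) r1_121 r1_118 (nat_lit 5218741) (nat_lit 151346615) (nat_lit 0) (nat_lit 0x7ecf444c6) (nat_lit 1250251980),
  Rx.mk (nat_lit 65) (nat_lit 1) (nat_lit 0) (nat_lit 1) (nat_lit 5) (nat_lit 122) (nat_lit 122) r1_122 r1_122 (nat_lit 0) (nat_lit 5449534) (nat_lit 0) (nat_lit 0x801265cf4) (nat_lit 1078178558),
  Rx.mk (nat_lit 66) (nat_lit 2) (nat_lit 0) (nat_lit 1) (nat_lit 5) (nat_lit 123) (nat_lit 127) r1_123 r1_127 (nat_lit 0) (nat_lit 5531582) (nat_lit 0) (nat_lit 0x80010250c) (nat_lit 1079375306),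
  Rx.mk (nat_lit 82) (nat_lit 2) (nat_lit 2) (nat_lit 1) (nat_lit 7) (nat_lit 124) (nat_lit 129) r1_124 r1_129 (nat_lit 0) (nat_lit 0) (nat_lit 0) (nat_lit 0x80029938e) (nat_lit 1073741824),
  Rx.mk (nat_lit 146) (nat_lit 2) (nat_lit 2) (nat_lit 2) (nat_lit 7) (nat_lit 125) (nat_lit 130) r1_125 r1_130 (nat_lit 0) (nat_lit 0) (nat_lit 0) (nat_lit 0x80029938e) (nat_lit 1073741824),
  Rx.mk (nat_lit 192) (nat_lit 0) (nat_lit 0) (nat_lit 3) (nat_lit 4) (nat_lit 126) (nat_lit 119) r1_126 r1_119 (nat_lit 7841701) (nat_lit 162116195) (nat_lit 0) (nat_lit 0x7f1abe9f6) (nat_lit 1258729120),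
  Rx.mk (nat_lit 193) (nat_lit 1) (nat_lit 0) (nat_lit 3) (nat_lit 5) (nat_lit 127) (nat_lit 123) r1_127 r1_123 (nat_lit 0) (nat_lit 5531582) (nat_lit 0) (nat_lit 0x80010250c) (nat_lit 1079375306),
  Rx.mk (nat_lit 216) (nat_lit 0) (nat_lit 3) (nat_lit 3) (nat_lit 6) (nat_lit 128) (nat_lit 120) r1_128 r1_120 (nat_lit 5106869) (nat_lit 0) (nat_lit 0) (nat_lit 0x7fef974e8) (nat_lit 1080069093),
  Rx.mk (nat_lit 217) (nat_lit 1) (nat_lit 3) (nat_lit 3) (nat_lit 7) (nat_lit 129) (nat_lit 124) r1_129 r1_124 (nat_lit 0) (nat_lit 0) (nat_lit 0) (nat_lit 0x80029938e) (nat_lit 1073741824),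
  Rx.mk (nat_lit 219) (nat_lit 3) (nat_lit 3) (nat_lit 3) (nat_lit 7) (nat_lit 130) (nat_lit 125) r1_130 r1_125 (nat_lit 0) (nat_lit 0) (nat_lit 0) (nat_lit 0x80029938e) (nat_lit 1073741824)]
noncomputable def e14_2 : List Rx := [
  Rx.mk (nat_lit 64) (nat_lit 0) (nat_lit 0) (nat_lit 1) (nat_lit 4) (nat_lit 258) (nat_lit 115) r1_258 r2_115 (nat_lit 10122828) (nat_lit 26800077) (nat_lit 0) (nat_lit 0x5e3f5c5fe) (nat_lit 1673506229),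
  Rx.mk (nat_lit 65) (nat_lit 1) (nat_lit 0) (nat_lit 1) (nat_lit 5) (nat_lit 259) (nat_lit 116) r1_259 r2_116 (nat_lit 0) (nat_lit 5449534) (nat_lit 0) (nat_lit 0x80029938e) (nat_lit 1079191358),
  Rx.mk (nat_lit 66) (nat_lit 2) (nat_lit 0) (nat_lit 1) (nat_lit 5) (nat_lit 260) (nat_lit 117) r1_260 r2_117 (nat_lit 0) (nat_lit 5449534) (nat_lit 0) (nat_lit 0x80029938e) (nat_lit 1079191358),
  Rx.mk (nat_lit 82) (nat_lit 2) (nat_lit 2) (nat_lit 1) (nat_lit 7) (nat_lit 261) (nat_lit 118) r1_261 r2_118 (nat_lit 0) (nat_lit 0) (nat_lit 0) (nat_lit 0x80029938e) (nat_lit 1073741824)]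
noncomputable def e14_3 : List Rx := [
  Rx.mk (nat_lit 192) (nat_lit 0) (nat_lit 0) (nat_lit 3) (nat_lit 4) (nat_lit 39) (nat_lit 104) r1_39 r3_104 (nat_lit 335) (nat_lit 680) (nat_lit 0) (nat_lit 0x800093df0) (nat_lit 1073706539),
  Rx.mk (nat_lit 193) (nat_lit 1) (nat_lit 0) (nat_lit 3) (nat_lit 5) (nat_lit 40) (nat_lit 107) r1_40 r3_107 (nat_lit 0) (nat_lit 21896786) (nat_lit 0) (nat_lit 0x7ff19e8fe) (nat_lit 1096714310),
  Rx.mk (nat_lit 194) (nat_lit 2) (nat_lit 0) (nat_lit 3) (nat_lit 5) (nat_lit 41) (nat_lit 112) r1_41 r3_112 (nat_lit 0) (nat_lit 1226908) (nat_lit 0) (nat_lit 0x8006f9de8) (nat_lit 1074654532),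
  Rx.mk (nat_lit 210) (nat_lit 2) (nat_lit 2) (nat_lit 3) (nat_lit 7) (nat_lit 42) (nat_lit 114) r1_42 r3_114 (nat_lit 0) (nat_lit 0) (nat_lit 0) (nat_lit 0x804e74f7e) (nat_lit 1068891024),
  Rx.mk (nat_lit 216) (nat_lit 0) (nat_lit 3) (nat_lit 3) (nat_lit 6) (nat_lit 43) (nat_lit 105) r1_43 r3_105 (nat_lit 229167) (nat_lit 0) (nat_lit 0) (nat_lit 0x8456bed52) (nat_lit 1003859891),
  Rx.mk (nat_lit 217) (nat_lit 1) (nat_lit 3) (nat_lit 3) (nat_lit 7) (nat_lit 44) (nat_lit 108) r1_44 r3_108 (nat_lit 0) (nat_lit 0) (nat_lit 0) (nat_lit 0x80e4a8b62) (nat_lit 1059385624),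
  Rx.mk (nat_lit 218) (nat_lit 2) (nat_lit 3) (nat_lit 3) (nat_lit 7) (nat_lit 45) (nat_lit 113) r1_45 r3_113 (nat_lit 0) (nat_lit 0) (nat_lit 0) (nat_lit 0x80616a6a6) (nat_lit 1067696824),
  Rx.mk (nat_lit 472) (nat_lit 0) (nat_lit 3) (nat_lit 7) (nat_lit 6) (nat_lit 46) (nat_lit 106) r1_46 r3_106 (nat_lit 15293) (nat_lit 0) (nat_lit 0) (nat_lit 0x7b3235b42) (nat_lit 1153856717),
  Rx.mk (nat_lit 473) (nat_lit 1) (nat_lit 3) (nat_lit 7) (nat_lit 7) (nat_lit 47) (nat_lit 109) r1_47 r3_109 (nat_lit 0) (nat_lit 0) (nat_lit 0) (nat_lit 0x91b9f06ac) (nat_lit 787168224),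
  Rx.mk (nat_lit 475) (nat_lit 3) (nat_lit 3) (nat_lit 7) (nat_lit 7) (nat_lit 48) (nat_lit 110) r1_48 r3_110 (nat_lit 0) (nat_lit 0) (nat_lit 0) (nat_lit 0x80b7366a2) (nat_lit 1062264424),
  Rx.mk (nat_lit 507) (nat_lit 3) (nat_lit 7) (nat_lit 7) (nat_lit 7) (nat_lit 49) (nat_lit 111) r1_49 r3_111 (nat_lit 0) (nat_lit 0) (nat_lit 0) (nat_lit 0x80d0874f8) (nat_lit 1060662924)]
noncomputable def e14_4 : List Rx := [
  Rx.mk (nat_lit 192) (nat_lit 0) (nat_lit 0) (nat_lit 3) (nat_lit 4) (nat_lit 154) (nat_lit 107) r1_154 r4_107 (nat_lit 2584296) (nat_lit 225790253) (nat_lit 0) (nat_lit 0x78edca536) (nat_lit 1420092973),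
  Rx.mk (nat_lit 193) (nat_lit 1) (nat_lit 0) (nat_lit 3) (nat_lit 5) (nat_lit 155) (nat_lit 109) r1_155 r4_109 (nat_lit 0) (nat_lit 5659181) (nat_lit 0) (nat_lit 0x80302b7b6) (nat_lit 1076486505),
  Rx.mk (nat_lit 194) (nat_lit 2) (nat_lit 0) (nat_lit 3) (nat_lit 5) (nat_lit 156) (nat_lit 111) r1_156 r4_111 (nat_lit 0) (nat_lit 6157515) (nat_lit 0) (nat_lit 0x8041aa0a0) (nat_lit 1075870639),
  Rx.mk (nat_lit 210) (nat_lit 2) (nat_lit 2) (nat_lit 3) (nat_lit 7) (nat_lit 157) (nat_lit 113) r1_157 r4_113 (nat_lit 0) (nat_lit 0) (nat_lit 0) (nat_lit 0x80029938e) (nat_lit 1073741824),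
  Rx.mk (nat_lit 216) (nat_lit 0) (nat_lit 3) (nat_lit 3) (nat_lit 6) (nat_lit 158) (nat_lit 108) r1_158 r4_108 (nat_lit 3186952) (nat_lit 0) (nat_lit 0) (nat_lit 0x7feaece7a) (nat_lit 1078447376),
  Rx.mk (nat_lit 217) (nat_lit 1) (nat_lit 3) (nat_lit 3) (nat_lit 7) (nat_lit 159) (nat_lit 110) r1_159 r4_110 (nat_lit 0) (nat_lit 0) (nat_lit 0) (nat_lit 0x802afc2d6) (nat_lit 1071158224),
  Rx.mk (nat_lit 218) (nat_lit 2) (nat_lit 3) (nat_lit 3) (nat_lit 7) (nat_lit 160) (nat_lit 112) r1_160 r4_112 (nat_lit 0) (nat_lit 0) (nat_lit 0) (nat_lit 0x80264a0da) (nat_lit 1071457724)]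
noncomputable def e14_5 : List Rx := [
  Rx.mk (nat_lit 192) (nat_lit 0) (nat_lit 0) (nat_lit 3) (nat_lit 4) (nat_lit 225) (nat_lit 106) r1_225 r5_106 (nat_lit 782939) (nat_lit 212990587) (nat_lit 0) (nat_lit 0x7f9458f50) (nat_lit 1294612750),
  Rx.mk (nat_lit 193) (nat_lit 1) (nat_lit 0) (nat_lit 3) (nat_lit 5) (nat_lit 226) (nat_lit 109) r1_226 r5_109 (nat_lit 0) (nat_lit 5712296) (nat_lit 0) (nat_lit 0x807518c02) (nat_lit 1072163420),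
  Rx.mk (nat_lit 194) (nat_lit 2) (nat_lit 0) (nat_lit 3) (nat_lit 5) (nat_lit 227) (nat_lit 113) r1_227 r5_113 (nat_lit 0) (nat_lit 7480504) (nat_lit 0) (nat_lit 0x8050572c4) (nat_lit 1076259928),
  Rx.mk (nat_lit 210) (nat_lit 2) (nat_lit 2) (nat_lit 3) (nat_lit 7) (nat_lit 228) (nat_lit 114) r1_228 r5_114 (nat_lit 0) (nat_lit 0) (nat_lit 0) (nat_lit 0x8032723e4) (nat_lit 1070680924),
  Rx.mk (nat_lit 448) (nat_lit 0) (nat_lit 0) (nat_lit 7) (nat_lit 4) (nat_lit 229) (nat_lit 107) r1_229 r5_107 (nat_lit 618569) (nat_lit 865457) (nat_lit 0) (nat_lit 0x6cfe8984c) (nat_lit 1392171750),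
  Rx.mk (nat_lit 449) (nat_lit 1) (nat_lit 0) (nat_lit 7) (nat_lit 5) (nat_lit 230) (nat_lit 110) r1_230 r5_110 (nat_lit 0) (nat_lit 4608950) (nat_lit 0) (nat_lit 0x800f7fbd4) (nat_lit 1077522674),
  Rx.mk (nat_lit 472) (nat_lit 0) (nat_lit 3) (nat_lit 7) (nat_lit 6) (nat_lit 231) (nat_lit 108) r1_231 r5_108 (nat_lit 2341422) (nat_lit 0) (nat_lit 0) (nat_lit 0x7fcb8785a) (nat_lit 1079628546),
  Rx.mk (nat_lit 473) (nat_lit 1) (nat_lit 3) (nat_lit 7) (nat_lit 7) (nat_lit 232) (nat_lit 111) r1_232 r5_111 (nat_lit 0) (nat_lit 0) (nat_lit 0) (nat_lit 0x80029938e) (nat_lit 1073741824),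
  Rx.mk (nat_lit 475) (nat_lit 3) (nat_lit 3) (nat_lit 7) (nat_lit 7) (nat_lit 233) (nat_lit 112) r1_233 r5_112 (nat_lit 0) (nat_lit 0) (nat_lit 0) (nat_lit 0x80029938e) (nat_lit 1073741824)]
noncomputable def e14_6 : List Rx := [
  Rx.mk (nat_lit 257) (nat_lit 1) (nat_lit 0) (nat_lit 4) (nat_lit 1) (nat_lit 293) (nat_lit 151) r1_293 r3_151 (nat_lit 0) (nat_lit 1652) (nat_lit 1125) (nat_lit 0x8000c7dda) (nat_lit 1073695601),
  Rx.mk (nat_lit 281) (nat_lit 1) (nat_lit 3) (nat_lit 4) (nat_lit 3) (nat_lit 294) (nat_lit 153) r1_294 r3_153 (nat_lit 0) (nat_lit 0) (nat_lit 1915450) (nat_lit 0x86d50b64a) (nat_lit 965236374),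
  Rx.mk (nat_lit 321) (nat_lit 1) (nat_lit 0) (nat_lit 5) (nat_lit 5) (nat_lit 295) (nat_lit 152) r1_295 r3_152 (nat_lit 0) (nat_lit 10154) (nat_lit 0) (nat_lit 0x7fdc5d4a4) (nat_lit 1076074678),
  Rx.mk (nat_lit 345) (nat_lit 1) (nat_lit 3) (nat_lit 5) (nat_lit 7) (nat_lit 296) (nat_lit 154) r1_296 r3_154 (nat_lit 0) (nat_lit 0) (nat_lit 0) (nat_lit 0x99fe8fe40) (nat_lit 653462024)]
noncomputable def e14_7 : List Rx := [
  Rx.mk (nat_lit 321) (nat_lit 1) (nat_lit 0) (nat_lit 5) (nat_lit 5) (nat_lit 255) (nat_lit 173) r1_255 r0_173 (nat_lit 0) (nat_lit 200288767) (nat_lit 0) (nat_lit 0x7fddd6150) (nat_lit 1276386391)]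
noncomputable def e14_8 : List Rx := [
  Rx.mk (nat_lit 65) (nat_lit 1) (nat_lit 0) (nat_lit 1) (nat_lit 5) (nat_lit 272) (nat_lit 186) r1_272 r1_186 (nat_lit 0) (nat_lit 6431130) (nat_lit 0) (nat_lit 0x7f59dbdb4) (nat_lit 1091100554),
  Rx.mk (nat_lit 321) (nat_lit 1) (nat_lit 0) (nat_lit 5) (nat_lit 5) (nat_lit 273) (nat_lit 185) r1_273 r1_185 (nat_lit 0) (nat_lit 5632914) (nat_lit 0) (nat_lit 0x80115033c) (nat_lit 1078429238)]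
noncomputable def e14_9 : List Rx := [
  Rx.mk (nat_lit 321) (nat_lit 1) (nat_lit 0) (nat_lit 5) (nat_lit 5) (nat_lit 305) (nat_lit 159) r1_305 r4_159 (nat_lit 0) (nat_lit 4876673) (nat_lit 0) (nat_lit 0x80153f8c6) (nat_lit 1077419097),
  Rx.mk (nat_lit 345) (nat_lit 1) (nat_lit 3) (nat_lit 5) (nat_lit 7) (nat_lit 306) (nat_lit 160) r1_306 r4_160 (nat_lit 0) (nat_lit 0) (nat_lit 0) (nat_lit 0x802b28bc4) (nat_lit 1071147124)]
noncomputable def e14_10 : List Rx := [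
  Rx.mk (nat_lit 281) (nat_lit 1) (nat_lit 3) (nat_lit 4) (nat_lit 3) (nat_lit 246) (nat_lit 117) r1_246 r6_117 (nat_lit 0) (nat_lit 0) (nat_lit 1035266) (nat_lit 0x8401ef04c) (nat_lit 1010034890),
  Rx.mk (nat_lit 449) (nat_lit 1) (nat_lit 0) (nat_lit 7) (nat_lit 5) (nat_lit 247) (nat_lit 116) r1_247 r6_116 (nat_lit 0) (nat_lit 376415) (nat_lit 0) (nat_lit 0x86cc62d18) (nat_lit 964233239),
  Rx.mk (nat_lit 473) (nat_lit 1) (nat_lit 3) (nat_lit 7) (nat_lit 7) (nat_lit 248) (nat_lit 118) r1_248 r6_118 (nat_lit 0) (nat_lit 0) (nat_lit 0) (nat_lit 0x8fcfe0ed2) (nat_lit 818127624)]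
noncomputable def e14_11 : List Rx := [
  Rx.mk (nat_lit 257) (nat_lit 1) (nat_lit 0) (nat_lit 4) (nat_lit 1) (nat_lit 311) (nat_lit 164) r1_311 r5_164 (nat_lit 0) (nat_lit 4362951) (nat_lit 89993226) (nat_lit 0x7894e6d52) (nat_lit 1291869601),
  Rx.mk (nat_lit 281) (nat_lit 1) (nat_lit 3) (nat_lit 4) (nat_lit 3) (nat_lit 312) (nat_lit 167) r1_312 r5_167 (nat_lit 0) (nat_lit 0) (nat_lit 3039288) (nat_lit 0x80c38d252) (nat_lit 1064522612),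
  Rx.mk (nat_lit 321) (nat_lit 1) (nat_lit 0) (nat_lit 5) (nat_lit 5) (nat_lit 313) (nat_lit 165) r1_313 r5_165 (nat_lit 0) (nat_lit 3697266) (nat_lit 0) (nat_lit 0x803df29c6) (nat_lit 1073649890),
  Rx.mk (nat_lit 345) (nat_lit 1) (nat_lit 3) (nat_lit 5) (nat_lit 7) (nat_lit 314) (nat_lit 168) r1_314 r5_168 (nat_lit 0) (nat_lit 0) (nat_lit 0) (nat_lit 0x80299d296) (nat_lit 1071247324),
  Rx.mk (nat_lit 449) (nat_lit 1) (nat_lit 0) (nat_lit 7) (nat_lit 5) (nat_lit 315) (nat_lit 166) r1_315 r5_166 (nat_lit 0) (nat_lit 1434760) (nat_lit 0) (nat_lit 0x8012c14dc) (nat_lit 1074124184)]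
noncomputable def e14_12 : List Rx := [
  Rx.mk (nat_lit 18) (nat_lit 2) (nat_lit 2) (nat_lit 0) (nat_lit 3) (nat_lit 0) (nat_lit 22) r1_0 r0_22 (nat_lit 0) (nat_lit 0) (nat_lit 3533431) (nat_lit 0x7556e8ecc) (nat_lit 1255098455),
  Rx.mk (nat_lit 146) (nat_lit 2) (nat_lit 2) (nat_lit 2) (nat_lit 7) (nat_lit 1) (nat_lit 29) r1_1 r0_29 (nat_lit 0) (nat_lit 0) (nat_lit 0) (nat_lit 0x80f88a298) (nat_lit 1058137724),
  Rx.mk (nat_lit 192) (nat_lit 0) (nat_lit 0) (nat_lit 3) (nat_lit 4) (nat_lit 2) (nat_lit 23) r1_2 r0_23 (nat_lit 718420) (nat_lit 1455550) (nat_lit 0) (nat_lit 0x6a3efe8ee) (nat_lit 1438693294),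
  Rx.mk (nat_lit 194) (nat_lit 2) (nat_lit 0) (nat_lit 3) (nat_lit 5) (nat_lit 3) (nat_lit 24) r1_3 r0_24 (nat_lit 0) (nat_lit 3519261) (nat_lit 0) (nat_lit 0x7fe91f23c) (nat_lit 1078893085),
  Rx.mk (nat_lit 210) (nat_lit 2) (nat_lit 2) (nat_lit 3) (nat_lit 7) (nat_lit 4) (nat_lit 28) r1_4 r0_28 (nat_lit 0) (nat_lit 0) (nat_lit 0) (nat_lit 0x8b4469ad8) (nat_lit 891617424),
  Rx.mk (nat_lit 216) (nat_lit 0) (nat_lit 3) (nat_lit 3) (nat_lit 6) (nat_lit 5) (nat_lit 25) r1_5 r0_25 (nat_lit 1321792) (nat_lit 0) (nat_lit 0) (nat_lit 0x7eac0b5f4) (nat_lit 1097321716),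
  Rx.mk (nat_lit 218) (nat_lit 2) (nat_lit 3) (nat_lit 3) (nat_lit 7) (nat_lit 6) (nat_lit 27) r1_6 r0_27 (nat_lit 0) (nat_lit 0) (nat_lit 0) (nat_lit 0x8026ace56) (nat_lit 1071433124),
  Rx.mk (nat_lit 219) (nat_lit 3) (nat_lit 3) (nat_lit 3) (nat_lit 7) (nat_lit 7) (nat_lit 26) r1_7 r0_26 (nat_lit 0) (nat_lit 0) (nat_lit 0) (nat_lit 0x8024ca822) (nat_lit 1071553224),
  Rx.mk (nat_lit 475) (nat_lit 3) (nat_lit 3) (nat_lit 7) (nat_lit 7) (nat_lit 8) (nat_lit 21) r1_8 r0_21 (nat_lit 0) (nat_lit 0) (nat_lit 0) (nat_lit 0x801ae09f6) (nat_lit 1072185524),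
  Rx.mk (nat_lit 507) (nat_lit 3) (nat_lit 7) (nat_lit 7) (nat_lit 7) (nat_lit 9) (nat_lit 20) r1_9 r0_20 (nat_lit 0) (nat_lit 0) (nat_lit 0) (nat_lit 0x7ffd4488e) (nat_lit 1074080924)]
noncomputable def e14_13 : List Rx := [
  Rx.mk (nat_lit 0) (nat_lit 0) (nat_lit 0) (nat_lit 0) (nat_lit 0) (nat_lit 107) (nat_lit 126) r1_107 r7_126 (nat_lit 861237) (nat_lit 10629653) (nat_lit 1562278) (nat_lit 0x3d73cabcc) (nat_lit 2196411992),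
  Rx.mk (nat_lit 2) (nat_lit 2) (nat_lit 0) (nat_lit 0) (nat_lit 1) (nat_lit 108) (nat_lit 130) r1_108 r7_130 (nat_lit 0) (nat_lit 181791674) (nat_lit 16900660) (nat_lit 0x795055188) (nat_lit 1384004258),
  Rx.mk (nat_lit 18) (nat_lit 2) (nat_lit 2) (nat_lit 0) (nat_lit 3) (nat_lit 109) (nat_lit 133) r1_109 r7_133 (nat_lit 0) (nat_lit 0) (nat_lit 4413768) (nat_lit 0x800030c78) (nat_lit 1078308092),
  Rx.mk (nat_lit 146) (nat_lit 2) (nat_lit 2) (nat_lit 2) (nat_lit 7) (nat_lit 110) (nat_lit 135) r1_110 r7_135 (nat_lit 0) (nat_lit 0) (nat_lit 0) (nat_lit 0x80029938e) (nat_lit 1073741824),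
  Rx.mk (nat_lit 192) (nat_lit 0) (nat_lit 0) (nat_lit 3) (nat_lit 4) (nat_lit 111) (nat_lit 127) r1_111 r7_127 (nat_lit 764768) (nat_lit 2019292) (nat_lit 0) (nat_lit 0x637a26ad6) (nat_lit 1552157184),
  Rx.mk (nat_lit 194) (nat_lit 2) (nat_lit 0) (nat_lit 3) (nat_lit 5) (nat_lit 112) (nat_lit 131) r1_112 r7_131 (nat_lit 0) (nat_lit 6527677) (nat_lit 0) (nat_lit 0x7ff713d3e) (nat_lit 1081006201),
  Rx.mk (nat_lit 210) (nat_lit 2) (nat_lit 2) (nat_lit 3) (nat_lit 7) (nat_lit 113) (nat_lit 134) r1_113 r7_134 (nat_lit 0) (nat_lit 0) (nat_lit 0) (nat_lit 0x8017d4d3e) (nat_lit 1072381924),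
  Rx.mk (nat_lit 216) (nat_lit 0) (nat_lit 3) (nat_lit 3) (nat_lit 6) (nat_lit 114) (nat_lit 128) r1_114 r7_128 (nat_lit 3945399) (nat_lit 0) (nat_lit 0) (nat_lit 0x7a30f8c9e) (nat_lit 1174620723),
  Rx.mk (nat_lit 218) (nat_lit 2) (nat_lit 3) (nat_lit 3) (nat_lit 7) (nat_lit 115) (nat_lit 132) r1_115 r7_132 (nat_lit 0) (nat_lit 0) (nat_lit 0) (nat_lit 0x80029938e) (nat_lit 1073741824),
  Rx.mk (nat_lit 219) (nat_lit 3) (nat_lit 3) (nat_lit 3) (nat_lit 7) (nat_lit 116) (nat_lit 129) r1_116 r7_129 (nat_lit 0) (nat_lit 0) (nat_lit 0) (nat_lit 0x80029938e) (nat_lit 1073741824)]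
noncomputable def e14_14 : List Rx := [
  Rx.mk (nat_lit 18) (nat_lit 2) (nat_lit 2) (nat_lit 0) (nat_lit 3) (nat_lit 10) (nat_lit 20) r1_10 r1_20 (nat_lit 0) (nat_lit 0) (nat_lit 1155016) (nat_lit 0x7e229dd08) (nat_lit 1106068540),
  Rx.mk (nat_lit 146) (nat_lit 2) (nat_lit 2) (nat_lit 2) (nat_lit 7) (nat_lit 11) (nat_lit 29) r1_11 r1_29 (nat_lit 0) (nat_lit 0) (nat_lit 0) (nat_lit 0x74ddc19d6) (nat_lit 1259451624),
  Rx.mk (nat_lit 150) (nat_lit 6) (nat_lit 2) (nat_lit 2) (nat_lit 7) (nat_lit 12) (nat_lit 28) r1_12 r1_28 (nat_lit 0) (nat_lit 0) (nat_lit 0) (nat_lit 0x7fb02b11a) (nat_lit 1079058024),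
  Rx.mk (nat_lit 182) (nat_lit 6) (nat_lit 6) (nat_lit 2) (nat_lit 7) (nat_lit 13) (nat_lit 27) r1_13 r1_27 (nat_lit 0) (nat_lit 0) (nat_lit 0) (nat_lit 0x801443f4e) (nat_lit 1072607624),
  Rx.mk (nat_lit 192) (nat_lit 0) (nat_lit 0) (nat_lit 3) (nat_lit 4) (nat_lit 14) (nat_lit 21) r1_14 r1_21 (nat_lit 7187) (nat_lit 9177) (nat_lit 0) (nat_lit 0x6a28abe8e) (nat_lit 1437918688),
  Rx.mk (nat_lit 194) (nat_lit 2) (nat_lit 0) (nat_lit 3) (nat_lit 5) (nat_lit 15) (nat_lit 22) r1_15 r1_22 (nat_lit 0) (nat_lit 1884012) (nat_lit 0) (nat_lit 0x80679ce84) (nat_lit 1069185636),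
  Rx.mk (nat_lit 210) (nat_lit 2) (nat_lit 2) (nat_lit 3) (nat_lit 7) (nat_lit 16) (nat_lit 26) r1_16 r1_26 (nat_lit 0) (nat_lit 0) (nat_lit 0) (nat_lit 0x8cc7baddc) (nat_lit 867116824),
  Rx.mk (nat_lit 216) (nat_lit 0) (nat_lit 3) (nat_lit 3) (nat_lit 6) (nat_lit 17) (nat_lit 23) r1_17 r1_23 (nat_lit 3873) (nat_lit 0) (nat_lit 0) (nat_lit 0x81d039b6c) (nat_lit 1044423597),
  Rx.mk (nat_lit 218) (nat_lit 2) (nat_lit 3) (nat_lit 3) (nat_lit 7) (nat_lit 18) (nat_lit 25) r1_18 r1_25 (nat_lit 0) (nat_lit 0) (nat_lit 0) (nat_lit 0x7fe5feca6) (nat_lit 1075577124),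
  Rx.mk (nat_lit 219) (nat_lit 3) (nat_lit 3) (nat_lit 3) (nat_lit 7) (nat_lit 19) (nat_lit 24) r1_19 r1_24 (nat_lit 0) (nat_lit 0) (nat_lit 0) (nat_lit 0x7fe5feca6) (nat_lit 1075577124),
  Rx.mk (nat_lit 319) (nat_lit 7) (nat_lit 7) (nat_lit 4) (nat_lit 3) (nat_lit 20) (nat_lit 10) r1_20 r1_10 (nat_lit 0) (nat_lit 0) (nat_lit 1155016) (nat_lit 0x7e229dd08) (nat_lit 1106068540),
  Rx.mk (nat_lit 420) (nat_lit 4) (nat_lit 4) (nat_lit 6) (nat_lit 4) (nat_lit 21) (nat_lit 14) r1_21 r1_14 (nat_lit 7187) (nat_lit 9177) (nat_lit 0) (nat_lit 0x6a28abe8e) (nat_lit 1437918688),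
  Rx.mk (nat_lit 423) (nat_lit 7) (nat_lit 4) (nat_lit 6) (nat_lit 5) (nat_lit 22) (nat_lit 15) r1_22 r1_15 (nat_lit 0) (nat_lit 1884012) (nat_lit 0) (nat_lit 0x80679ce84) (nat_lit 1069185636),
  Rx.mk (nat_lit 436) (nat_lit 4) (nat_lit 6) (nat_lit 6) (nat_lit 6) (nat_lit 23) (nat_lit 17) r1_23 r1_17 (nat_lit 3873) (nat_lit 0) (nat_lit 0) (nat_lit 0x81d039b6c) (nat_lit 1044423597),
  Rx.mk (nat_lit 438) (nat_lit 6) (nat_lit 6) (nat_lit 6) (nat_lit 7) (nat_lit 24) (nat_lit 19) r1_24 r1_19 (nat_lit 0) (nat_lit 0) (nat_lit 0) (nat_lit 0x7fe5feca6) (nat_lit 1075577124),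
  Rx.mk (nat_lit 439) (nat_lit 7) (nat_lit 6) (nat_lit 6) (nat_lit 7) (nat_lit 25) (nat_lit 18) r1_25 r1_18 (nat_lit 0) (nat_lit 0) (nat_lit 0) (nat_lit 0x7fe5feca6) (nat_lit 1075577124),
  Rx.mk (nat_lit 447) (nat_lit 7) (nat_lit 7) (nat_lit 6) (nat_lit 7) (nat_lit 26) (nat_lit 16) r1_26 r1_16 (nat_lit 0) (nat_lit 0) (nat_lit 0) (nat_lit 0x8cc7baddc) (nat_lit 867116824),
  Rx.mk (nat_lit 475) (nat_lit 3) (nat_lit 3) (nat_lit 7) (nat_lit 7) (nat_lit 27) (nat_lit 13) r1_27 r1_13 (nat_lit 0) (nat_lit 0) (nat_lit 0) (nat_lit 0x801443f4e) (nat_lit 1072607624),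
  Rx.mk (nat_lit 507) (nat_lit 3) (nat_lit 7) (nat_lit 7) (nat_lit 7) (nat_lit 28) (nat_lit 12) r1_28 r1_12 (nat_lit 0) (nat_lit 0) (nat_lit 0) (nat_lit 0x7fb02b11a) (nat_lit 1079058024),
  Rx.mk (nat_lit 511) (nat_lit 7) (nat_lit 7) (nat_lit 7) (nat_lit 7) (nat_lit 29) (nat_lit 11) r1_29 r1_11 (nat_lit 0) (nat_lit 0) (nat_lit 0) (nat_lit 0x74ddc19d6) (nat_lit 1259451624)]
noncomputable def e14_15 : List Rx := [
  Rx.mk (nat_lit 0) (nat_lit 0) (nat_lit 0) (nat_lit 0) (nat_lit 0) (nat_lit 141) (nat_lit 90) r1_141 r8_90 (nat_lit 2925567) (nat_lit 12959764) (nat_lit 6586378) (nat_lit 0x3ec2fab92) (nat_lit 2184013933),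
  Rx.mk (nat_lit 2) (nat_lit 2) (nat_lit 0) (nat_lit 0) (nat_lit 1) (nat_lit 142) (nat_lit 94) r1_142 r8_94 (nat_lit 0) (nat_lit 30884831) (nat_lit 12510015) (nat_lit 0x700bf15a4) (nat_lit 1383215470),
  Rx.mk (nat_lit 18) (nat_lit 2) (nat_lit 2) (nat_lit 0) (nat_lit 3) (nat_lit 143) (nat_lit 97) r1_143 r8_97 (nat_lit 0) (nat_lit 0) (nat_lit 5544217) (nat_lit 0x7ffe8daa6) (nat_lit 1079545441),
  Rx.mk (nat_lit 146) (nat_lit 2) (nat_lit 2) (nat_lit 2) (nat_lit 7) (nat_lit 144) (nat_lit 99) r1_144 r8_99 (nat_lit 0) (nat_lit 0) (nat_lit 0) (nat_lit 0x80029938e) (nat_lit 1073741824),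
  Rx.mk (nat_lit 150) (nat_lit 6) (nat_lit 2) (nat_lit 2) (nat_lit 7) (nat_lit 145) (nat_lit 100) r1_145 r8_100 (nat_lit 0) (nat_lit 0) (nat_lit 0) (nat_lit 0x80029938e) (nat_lit 1073741824),
  Rx.mk (nat_lit 182) (nat_lit 6) (nat_lit 6) (nat_lit 2) (nat_lit 7) (nat_lit 146) (nat_lit 101) r1_146 r8_101 (nat_lit 0) (nat_lit 0) (nat_lit 0) (nat_lit 0x80029938e) (nat_lit 1073741824),
  Rx.mk (nat_lit 192) (nat_lit 0) (nat_lit 0) (nat_lit 3) (nat_lit 4) (nat_lit 147) (nat_lit 91) r1_147 r8_91 (nat_lit 3013316) (nat_lit 10554535) (nat_lit 0) (nat_lit 0x606b0776a) (nat_lit 1613957075),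
  Rx.mk (nat_lit 194) (nat_lit 2) (nat_lit 0) (nat_lit 3) (nat_lit 5) (nat_lit 148) (nat_lit 95) r1_148 r8_95 (nat_lit 0) (nat_lit 5449534) (nat_lit 0) (nat_lit 0x80029938e) (nat_lit 1079191358),
  Rx.mk (nat_lit 210) (nat_lit 2) (nat_lit 2) (nat_lit 3) (nat_lit 7) (nat_lit 149) (nat_lit 98) r1_149 r8_98 (nat_lit 0) (nat_lit 0) (nat_lit 0) (nat_lit 0x80029938e) (nat_lit 1073741824),
  Rx.mk (nat_lit 216) (nat_lit 0) (nat_lit 3) (nat_lit 3) (nat_lit 6) (nat_lit 150) (nat_lit 92) r1_150 r8_92 (nat_lit 4371124) (nat_lit 0) (nat_lit 0) (nat_lit 0x7f9613cdc) (nat_lit 1085125348),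
  Rx.mk (nat_lit 218) (nat_lit 2) (nat_lit 3) (nat_lit 3) (nat_lit 7) (nat_lit 151) (nat_lit 96) r1_151 r8_96 (nat_lit 0) (nat_lit 0) (nat_lit 0) (nat_lit 0x80029938e) (nat_lit 1073741824),
  Rx.mk (nat_lit 219) (nat_lit 3) (nat_lit 3) (nat_lit 3) (nat_lit 7) (nat_lit 152) (nat_lit 93) r1_152 r8_93 (nat_lit 0) (nat_lit 0) (nat_lit 0) (nat_lit 0x80029938e) (nat_lit 1073741824)]
noncomputable def e14_16 : List Rx := [
  Rx.mk (nat_lit 0) (nat_lit 0) (nat_lit 0) (nat_lit 0) (nat_lit 0) (nat_lit 131) (nat_lit 15) r1_131 r8_15 (nat_lit 2913128) (nat_lit 81717872) (nat_lit 11926250) (nat_lit 0x48dac9494) (nat_lit 2089819574),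
  Rx.mk (nat_lit 2) (nat_lit 2) (nat_lit 0) (nat_lit 0) (nat_lit 1) (nat_lit 132) (nat_lit 16) r1_132 r8_16 (nat_lit 0) (nat_lit 45348310) (nat_lit 24476340) (nat_lit 0x716a0d466) (nat_lit 1386843574),
  Rx.mk (nat_lit 18) (nat_lit 2) (nat_lit 2) (nat_lit 0) (nat_lit 3) (nat_lit 133) (nat_lit 17) r1_133 r8_17 (nat_lit 0) (nat_lit 0) (nat_lit 4792579) (nat_lit 0x7ff6a942a) (nat_lit 1079300103),
  Rx.mk (nat_lit 64) (nat_lit 0) (nat_lit 0) (nat_lit 1) (nat_lit 4) (nat_lit 134) (nat_lit 18) r1_134 r8_18 (nat_lit 5603265) (nat_lit 172043056) (nat_lit 0) (nat_lit 0x79817c89c) (nat_lit 1359753945),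
  Rx.mk (nat_lit 66) (nat_lit 2) (nat_lit 0) (nat_lit 1) (nat_lit 5) (nat_lit 135) (nat_lit 19) r1_135 r8_19 (nat_lit 0) (nat_lit 5449534) (nat_lit 0) (nat_lit 0x80029938e) (nat_lit 1079191358),
  Rx.mk (nat_lit 82) (nat_lit 2) (nat_lit 2) (nat_lit 1) (nat_lit 7) (nat_lit 136) (nat_lit 20) r1_136 r8_20 (nat_lit 0) (nat_lit 0) (nat_lit 0) (nat_lit 0x80029938e) (nat_lit 1073741824),
  Rx.mk (nat_lit 146) (nat_lit 2) (nat_lit 2) (nat_lit 2) (nat_lit 7) (nat_lit 137) (nat_lit 24) r1_137 r8_24 (nat_lit 0) (nat_lit 0) (nat_lit 0) (nat_lit 0x80029938e) (nat_lit 1073741824),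
  Rx.mk (nat_lit 192) (nat_lit 0) (nat_lit 0) (nat_lit 3) (nat_lit 4) (nat_lit 138) (nat_lit 21) r1_138 r8_21 (nat_lit 4804096) (nat_lit 139970032) (nat_lit 0) (nat_lit 0x78866aa58) (nat_lit 1343234852),
  Rx.mk (nat_lit 216) (nat_lit 0) (nat_lit 3) (nat_lit 3) (nat_lit 6) (nat_lit 139) (nat_lit 22) r1_139 r8_22 (nat_lit 4861700) (nat_lit 0) (nat_lit 0) (nat_lit 0x7fe599e8c) (nat_lit 1080466924),
  Rx.mk (nat_lit 219) (nat_lit 3) (nat_lit 3) (nat_lit 3) (nat_lit 7) (nat_lit 140) (nat_lit 23) r1_140 r8_23 (nat_lit 0) (nat_lit 0) (nat_lit 0) (nat_lit 0x80029938e) (nat_lit 1073741824)]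
noncomputable def e14_17 : List Rx := [
  Rx.mk (nat_lit 64) (nat_lit 0) (nat_lit 0) (nat_lit 1) (nat_lit 4) (nat_lit 269) (nat_lit 83) r1_269 r9_83 (nat_lit 6516784) (nat_lit 83686084) (nat_lit 0) (nat_lit 0x6eb511780) (nat_lit 1452352692),
  Rx.mk (nat_lit 66) (nat_lit 2) (nat_lit 0) (nat_lit 1) (nat_lit 5) (nat_lit 270) (nat_lit 84) r1_270 r9_84 (nat_lit 0) (nat_lit 5449534) (nat_lit 0) (nat_lit 0x80029938e) (nat_lit 1079191358),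
  Rx.mk (nat_lit 82) (nat_lit 2) (nat_lit 2) (nat_lit 1) (nat_lit 7) (nat_lit 271) (nat_lit 85) r1_271 r9_85 (nat_lit 0) (nat_lit 0) (nat_lit 0) (nat_lit 0x80029938e) (nat_lit 1073741824)]
noncomputable def e14_18 : List Rx := [
  Rx.mk (nat_lit 192) (nat_lit 0) (nat_lit 0) (nat_lit 3) (nat_lit 4) (nat_lit 50) (nat_lit 16) r1_50 r4_16 (nat_lit 2062902) (nat_lit 79097561) (nat_lit 0) (nat_lit 0x6ccb7681a) (nat_lit 1475199687),
  Rx.mk (nat_lit 194) (nat_lit 2) (nat_lit 0) (nat_lit 3) (nat_lit 5) (nat_lit 51) (nat_lit 17) r1_51 r4_17 (nat_lit 0) (nat_lit 4988897) (nat_lit 0) (nat_lit 0x801b824ae) (nat_lit 1077133921),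
  Rx.mk (nat_lit 210) (nat_lit 2) (nat_lit 2) (nat_lit 3) (nat_lit 7) (nat_lit 52) (nat_lit 20) r1_52 r4_20 (nat_lit 0) (nat_lit 0) (nat_lit 0) (nat_lit 0x8103de856) (nat_lit 1057413024),
  Rx.mk (nat_lit 216) (nat_lit 0) (nat_lit 3) (nat_lit 3) (nat_lit 6) (nat_lit 53) (nat_lit 18) r1_53 r4_18 (nat_lit 2991468) (nat_lit 0) (nat_lit 0) (nat_lit 0x7deccd1a6) (nat_lit 1111434092),
  Rx.mk (nat_lit 218) (nat_lit 2) (nat_lit 3) (nat_lit 3) (nat_lit 7) (nat_lit 54) (nat_lit 19) r1_54 r4_19 (nat_lit 0) (nat_lit 0) (nat_lit 0) (nat_lit 0x80272dc18) (nat_lit 1071401024),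
  Rx.mk (nat_lit 472) (nat_lit 0) (nat_lit 3) (nat_lit 7) (nat_lit 6) (nat_lit 55) (nat_lit 14) r1_55 r4_14 (nat_lit 2626510) (nat_lit 0) (nat_lit 0) (nat_lit 0x8035143e0) (nat_lit 1073140434),
  Rx.mk (nat_lit 475) (nat_lit 3) (nat_lit 3) (nat_lit 7) (nat_lit 7) (nat_lit 56) (nat_lit 15) r1_56 r4_15 (nat_lit 0) (nat_lit 0) (nat_lit 0) (nat_lit 0x803369e32) (nat_lit 1070621424),
  Rx.mk (nat_lit 507) (nat_lit 3) (nat_lit 7) (nat_lit 7) (nat_lit 7) (nat_lit 57) (nat_lit 13) r1_57 r4_13 (nat_lit 0) (nat_lit 0) (nat_lit 0) (nat_lit 0x804a16bda) (nat_lit 1069179124)]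
noncomputable def e14_19 : List Rx := [
  Rx.mk (nat_lit 192) (nat_lit 0) (nat_lit 0) (nat_lit 3) (nat_lit 4) (nat_lit 161) (nat_lit 96) r1_161 r10_96 (nat_lit 480768) (nat_lit 981437) (nat_lit 0) (nat_lit 0x62be5aa28) (nat_lit 1563059529),
  Rx.mk (nat_lit 194) (nat_lit 2) (nat_lit 0) (nat_lit 3) (nat_lit 5) (nat_lit 162) (nat_lit 98) r1_162 r10_98 (nat_lit 0) (nat_lit 7835339) (nat_lit 0) (nat_lit 0x7ff5d0d8c) (nat_lit 1082394163),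
  Rx.mk (nat_lit 210) (nat_lit 2) (nat_lit 2) (nat_lit 3) (nat_lit 7) (nat_lit 163) (nat_lit 100) r1_163 r10_100 (nat_lit 0) (nat_lit 0) (nat_lit 0) (nat_lit 0x801053272) (nat_lit 1072862224),
  Rx.mk (nat_lit 216) (nat_lit 0) (nat_lit 3) (nat_lit 3) (nat_lit 6) (nat_lit 164) (nat_lit 97) r1_164 r10_97 (nat_lit 4988372) (nat_lit 0) (nat_lit 0) (nat_lit 0x78610a830) (nat_lit 1205879396),
  Rx.mk (nat_lit 218) (nat_lit 2) (nat_lit 3) (nat_lit 3) (nat_lit 7) (nat_lit 165) (nat_lit 99) r1_165 r10_99 (nat_lit 0) (nat_lit 0) (nat_lit 0) (nat_lit 0x80029938e) (nat_lit 1073741824)]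
noncomputable def e14_20 : List Rx := [
  Rx.mk (nat_lit 192) (nat_lit 0) (nat_lit 0) (nat_lit 3) (nat_lit 4) (nat_lit 234) (nat_lit 107) r1_234 r11_107 (nat_lit 4273280) (nat_lit 139026259) (nat_lit 0) (nat_lit 0x7713b0612) (nat_lit 1365912963),
  Rx.mk (nat_lit 194) (nat_lit 2) (nat_lit 0) (nat_lit 3) (nat_lit 5) (nat_lit 235) (nat_lit 111) r1_235 r11_111 (nat_lit 0) (nat_lit 5449534) (nat_lit 0) (nat_lit 0x800d59fb2) (nat_lit 1078501858),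
  Rx.mk (nat_lit 210) (nat_lit 2) (nat_lit 2) (nat_lit 3) (nat_lit 7) (nat_lit 236) (nat_lit 112) r1_236 r11_112 (nat_lit 0) (nat_lit 0) (nat_lit 0) (nat_lit 0x8084b604c) (nat_lit 1065459024),
  Rx.mk (nat_lit 448) (nat_lit 0) (nat_lit 0) (nat_lit 7) (nat_lit 4) (nat_lit 237) (nat_lit 108) r1_237 r11_108 (nat_lit 7636497) (nat_lit 8516193) (nat_lit 0) (nat_lit 0x79092791e) (nat_lit 1206096814),
  Rx.mk (nat_lit 472) (nat_lit 0) (nat_lit 3) (nat_lit 7) (nat_lit 6) (nat_lit 238) (nat_lit 109) r1_238 r11_109 (nat_lit 5449534) (nat_lit 0) (nat_lit 0) (nat_lit 0x80029938e) (nat_lit 1079191358),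
  Rx.mk (nat_lit 475) (nat_lit 3) (nat_lit 3) (nat_lit 7) (nat_lit 7) (nat_lit 239) (nat_lit 110) r1_239 r11_110 (nat_lit 0) (nat_lit 0) (nat_lit 0) (nat_lit 0x80029938e) (nat_lit 1073741824)]
noncomputable def e14_21 : List Rx := [
  Rx.mk (nat_lit 64) (nat_lit 0) (nat_lit 0) (nat_lit 1) (nat_lit 4) (nat_lit 262) (nat_lit 160) r1_262 r9_160 (nat_lit 19988923) (nat_lit 7547362) (nat_lit 0) (nat_lit 0x63fb2f9e8) (nat_lit 1568518609),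
  Rx.mk (nat_lit 65) (nat_lit 1) (nat_lit 0) (nat_lit 1) (nat_lit 5) (nat_lit 263) (nat_lit 161) r1_263 r9_161 (nat_lit 0) (nat_lit 5449534) (nat_lit 0) (nat_lit 0x80029938e) (nat_lit 1079191358),
  Rx.mk (nat_lit 66) (nat_lit 2) (nat_lit 0) (nat_lit 1) (nat_lit 5) (nat_lit 264) (nat_lit 162) r1_264 r9_162 (nat_lit 0) (nat_lit 5449534) (nat_lit 0) (nat_lit 0x80029938e) (nat_lit 1079191358),
  Rx.mk (nat_lit 72) (nat_lit 0) (nat_lit 1) (nat_lit 1) (nat_lit 6) (nat_lit 265) (nat_lit 163) r1_265 r9_163 (nat_lit 5465451) (nat_lit 0) (nat_lit 0) (nat_lit 0x80010992e) (nat_lit 1079307375),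
  Rx.mk (nat_lit 73) (nat_lit 1) (nat_lit 1) (nat_lit 1) (nat_lit 7) (nat_lit 266) (nat_lit 164) r1_266 r9_164 (nat_lit 0) (nat_lit 0) (nat_lit 0) (nat_lit 0x80029938e) (nat_lit 1073741824),
  Rx.mk (nat_lit 74) (nat_lit 2) (nat_lit 1) (nat_lit 1) (nat_lit 7) (nat_lit 267) (nat_lit 165) r1_267 r9_165 (nat_lit 0) (nat_lit 0) (nat_lit 0) (nat_lit 0x80029938e) (nat_lit 1073741824),
  Rx.mk (nat_lit 82) (nat_lit 2) (nat_lit 2) (nat_lit 1) (nat_lit 7) (nat_lit 268) (nat_lit 166) r1_268 r9_166 (nat_lit 0) (nat_lit 0) (nat_lit 0) (nat_lit 0x80029938e) (nat_lit 1073741824)]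
noncomputable def e14_22 : List Rx := [
  Rx.mk (nat_lit 265) (nat_lit 1) (nat_lit 1) (nat_lit 4) (nat_lit 3) (nat_lit 252) (nat_lit 282) r1_252 r0_282 (nat_lit 0) (nat_lit 0) (nat_lit 821343463) (nat_lit 0x7fffe9b52) (nat_lit 1895092387),
  Rx.mk (nat_lit 321) (nat_lit 1) (nat_lit 0) (nat_lit 5) (nat_lit 5) (nat_lit 253) (nat_lit 283) r1_253 r0_283 (nat_lit 0) (nat_lit 4606623) (nat_lit 0) (nat_lit 0x7ce19384a) (nat_lit 1130436347),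
  Rx.mk (nat_lit 329) (nat_lit 1) (nat_lit 1) (nat_lit 5) (nat_lit 7) (nat_lit 254) (nat_lit 284) r1_254 r0_284 (nat_lit 0) (nat_lit 0) (nat_lit 0) (nat_lit 0x7fab68344) (nat_lit 1079366724)]
noncomputable def e14_23 : List Rx := [
  Rx.mk (nat_lit 265) (nat_lit 1) (nat_lit 1) (nat_lit 4) (nat_lit 3) (nat_lit 278) (nat_lit 278) r1_278 r1_278 (nat_lit 0) (nat_lit 0) (nat_lit 20008317) (nat_lit 0x80950cd42) (nat_lit 1084429441),
  Rx.mk (nat_lit 329) (nat_lit 1) (nat_lit 1) (nat_lit 5) (nat_lit 7) (nat_lit 279) (nat_lit 279) r1_279 r1_279 (nat_lit 0) (nat_lit 0) (nat_lit 0) (nat_lit 0x80029938e) (nat_lit 1073741824)]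
noncomputable def e14_24 : List Rx := [
  Rx.mk (nat_lit 257) (nat_lit 1) (nat_lit 0) (nat_lit 4) (nat_lit 1) (nat_lit 297) (nat_lit 293) r1_297 r4_293 (nat_lit 0) (nat_lit 5098899) (nat_lit 227840882) (nat_lit 0x7551b3222) (nat_lit 1484851905),
  Rx.mk (nat_lit 265) (nat_lit 1) (nat_lit 1) (nat_lit 4) (nat_lit 3) (nat_lit 298) (nat_lit 294) r1_298 r4_294 (nat_lit 0) (nat_lit 0) (nat_lit 239917945) (nat_lit 0x7f5e8ef50) (nat_lit 1324257369),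
  Rx.mk (nat_lit 281) (nat_lit 1) (nat_lit 3) (nat_lit 4) (nat_lit 3) (nat_lit 299) (nat_lit 295) r1_299 r4_295 (nat_lit 0) (nat_lit 0) (nat_lit 5727388) (nat_lit 0x801c5e8a0) (nat_lit 1077818112),
  Rx.mk (nat_lit 321) (nat_lit 1) (nat_lit 0) (nat_lit 5) (nat_lit 5) (nat_lit 300) (nat_lit 296) r1_300 r4_296 (nat_lit 0) (nat_lit 4793271) (nat_lit 0) (nat_lit 0x7fffe83ba) (nat_lit 1078705595),
  Rx.mk (nat_lit 329) (nat_lit 1) (nat_lit 1) (nat_lit 5) (nat_lit 7) (nat_lit 301) (nat_lit 297) r1_301 r4_297 (nat_lit 0) (nat_lit 0) (nat_lit 0) (nat_lit 0x80265157e) (nat_lit 1071456124),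
  Rx.mk (nat_lit 345) (nat_lit 1) (nat_lit 3) (nat_lit 5) (nat_lit 7) (nat_lit 302) (nat_lit 298) r1_302 r4_298 (nat_lit 0) (nat_lit 0) (nat_lit 0) (nat_lit 0x80107341e) (nat_lit 1072853724)]
noncomputable def e14_25 : List Rx := [
  Rx.mk (nat_lit 321) (nat_lit 1) (nat_lit 0) (nat_lit 5) (nat_lit 5) (nat_lit 256) (nat_lit 221) r1_256 r7_221 (nat_lit 0) (nat_lit 5449534) (nat_lit 0) (nat_lit 0x7f8e54334) (nat_lit 1086711158),
  Rx.mk (nat_lit 329) (nat_lit 1) (nat_lit 1) (nat_lit 5) (nat_lit 7) (nat_lit 257) (nat_lit 222) r1_257 r7_222 (nat_lit 0) (nat_lit 0) (nat_lit 0) (nat_lit 0x80029938e) (nat_lit 1073741824)]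
noncomputable def e14_26 : List Rx := [
  Rx.mk (nat_lit 329) (nat_lit 1) (nat_lit 1) (nat_lit 5) (nat_lit 7) (nat_lit 286) (nat_lit 180) r1_286 r8_180 (nat_lit 0) (nat_lit 0) (nat_lit 0) (nat_lit 0x80029938e) (nat_lit 1073741824)]
noncomputable def e14_27 : List Rx := [
  Rx.mk (nat_lit 65) (nat_lit 1) (nat_lit 0) (nat_lit 1) (nat_lit 5) (nat_lit 274) (nat_lit 316) r1_274 r8_316 (nat_lit 0) (nat_lit 5449534) (nat_lit 0) (nat_lit 0x7ff85fa80) (nat_lit 1079847858),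
  Rx.mk (nat_lit 73) (nat_lit 1) (nat_lit 1) (nat_lit 1) (nat_lit 7) (nat_lit 275) (nat_lit 317) r1_275 r8_317 (nat_lit 0) (nat_lit 0) (nat_lit 0) (nat_lit 0x80029938e) (nat_lit 1073741824),
  Rx.mk (nat_lit 321) (nat_lit 1) (nat_lit 0) (nat_lit 5) (nat_lit 5) (nat_lit 276) (nat_lit 318) r1_276 r8_318 (nat_lit 0) (nat_lit 5449534) (nat_lit 0) (nat_lit 0x7fe5be62e) (nat_lit 1081045658),
  Rx.mk (nat_lit 329) (nat_lit 1) (nat_lit 1) (nat_lit 5) (nat_lit 7) (nat_lit 277) (nat_lit 319) r1_277 r8_319 (nat_lit 0) (nat_lit 0) (nat_lit 0) (nat_lit 0x800e1d8b8) (nat_lit 1073003524)]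
noncomputable def e14_28 : List Rx := [
  Rx.mk (nat_lit 321) (nat_lit 1) (nat_lit 0) (nat_lit 5) (nat_lit 5) (nat_lit 307) (nat_lit 172) r1_307 r10_172 (nat_lit 0) (nat_lit 5449534) (nat_lit 0) (nat_lit 0x7f87d2d1c) (nat_lit 1087130658),
  Rx.mk (nat_lit 329) (nat_lit 1) (nat_lit 1) (nat_lit 5) (nat_lit 7) (nat_lit 308) (nat_lit 173) r1_308 r10_173 (nat_lit 0) (nat_lit 0) (nat_lit 0) (nat_lit 0x80029938e) (nat_lit 1073741824),
  Rx.mk (nat_lit 345) (nat_lit 1) (nat_lit 3) (nat_lit 5) (nat_lit 7) (nat_lit 309) (nat_lit 174) r1_309 r10_174 (nat_lit 0) (nat_lit 0) (nat_lit 0) (nat_lit 0x80029938e) (nat_lit 1073741824)]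
noncomputable def e14_29 : List Rx := [
  Rx.mk (nat_lit 257) (nat_lit 1) (nat_lit 0) (nat_lit 4) (nat_lit 1) (nat_lit 316) (nat_lit 183) r1_316 r11_183 (nat_lit 0) (nat_lit 8821660) (nat_lit 234072587) (nat_lit 0x7aeb624b8) (nat_lit 1401431171),
  Rx.mk (nat_lit 265) (nat_lit 1) (nat_lit 1) (nat_lit 4) (nat_lit 3) (nat_lit 317) (nat_lit 186) r1_317 r11_186 (nat_lit 0) (nat_lit 0) (nat_lit 10371928) (nat_lit 0x7fad0bc00) (nat_lit 1089630552),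
  Rx.mk (nat_lit 281) (nat_lit 1) (nat_lit 3) (nat_lit 4) (nat_lit 3) (nat_lit 318) (nat_lit 189) r1_318 r11_189 (nat_lit 0) (nat_lit 0) (nat_lit 5657793) (nat_lit 0x7fff429ec) (nat_lit 1079613617),
  Rx.mk (nat_lit 321) (nat_lit 1) (nat_lit 0) (nat_lit 5) (nat_lit 5) (nat_lit 319) (nat_lit 184) r1_319 r11_184 (nat_lit 0) (nat_lit 5449534) (nat_lit 0) (nat_lit 0x80029938e) (nat_lit 1079191358),
  Rx.mk (nat_lit 329) (nat_lit 1) (nat_lit 1) (nat_lit 5) (nat_lit 7) (nat_lit 320) (nat_lit 187) r1_320 r11_187 (nat_lit 0) (nat_lit 0) (nat_lit 0) (nat_lit 0x80029938e) (nat_lit 1073741824),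
  Rx.mk (nat_lit 345) (nat_lit 1) (nat_lit 3) (nat_lit 5) (nat_lit 7) (nat_lit 321) (nat_lit 190) r1_321 r11_190 (nat_lit 0) (nat_lit 0) (nat_lit 0) (nat_lit 0x80029938e) (nat_lit 1073741824),
  Rx.mk (nat_lit 449) (nat_lit 1) (nat_lit 0) (nat_lit 7) (nat_lit 5) (nat_lit 322) (nat_lit 185) r1_322 r11_185 (nat_lit 0) (nat_lit 5364616) (nat_lit 0) (nat_lit 0x7ffcc177c) (nat_lit 1079481040),
  Rx.mk (nat_lit 457) (nat_lit 1) (nat_lit 1) (nat_lit 7) (nat_lit 7) (nat_lit 323) (nat_lit 188) r1_323 r11_188 (nat_lit 0) (nat_lit 0) (nat_lit 0) (nat_lit 0x807a04fb8) (nat_lit 1066138524)]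
noncomputable def e14_30 : List Rx := [
  Rx.mk (nat_lit 216) (nat_lit 0) (nat_lit 3) (nat_lit 3) (nat_lit 6) (nat_lit 58) (nat_lit 11) r1_58 r5_11 (nat_lit 1041807) (nat_lit 0) (nat_lit 0) (nat_lit 0x74a17feb4) (nat_lit 1264422431),
  Rx.mk (nat_lit 217) (nat_lit 1) (nat_lit 3) (nat_lit 3) (nat_lit 7) (nat_lit 59) (nat_lit 12) r1_59 r5_12 (nat_lit 0) (nat_lit 0) (nat_lit 0) (nat_lit 0x8107244b6) (nat_lit 1057210324),
  Rx.mk (nat_lit 218) (nat_lit 2) (nat_lit 3) (nat_lit 3) (nat_lit 7) (nat_lit 60) (nat_lit 13) r1_60 r5_13 (nat_lit 0) (nat_lit 0) (nat_lit 0) (nat_lit 0x8052ab444) (nat_lit 1068632924),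
  Rx.mk (nat_lit 472) (nat_lit 0) (nat_lit 3) (nat_lit 7) (nat_lit 6) (nat_lit 61) (nat_lit 9) r1_61 r5_9 (nat_lit 933722) (nat_lit 0) (nat_lit 0) (nat_lit 0x7fb880d2e) (nat_lit 1079433146),
  Rx.mk (nat_lit 473) (nat_lit 1) (nat_lit 3) (nat_lit 7) (nat_lit 7) (nat_lit 62) (nat_lit 10) r1_62 r5_10 (nat_lit 0) (nat_lit 0) (nat_lit 0) (nat_lit 0x808eeb03a) (nat_lit 1064821724),
  Rx.mk (nat_lit 504) (nat_lit 0) (nat_lit 7) (nat_lit 7) (nat_lit 6) (nat_lit 63) (nat_lit 6) r1_63 r5_6 (nat_lit 1331363) (nat_lit 0) (nat_lit 0) (nat_lit 0x70d9a8132) (nat_lit 1327744887),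
  Rx.mk (nat_lit 505) (nat_lit 1) (nat_lit 7) (nat_lit 7) (nat_lit 7) (nat_lit 64) (nat_lit 7) r1_64 r5_7 (nat_lit 0) (nat_lit 0) (nat_lit 0) (nat_lit 0x7fd7609d8) (nat_lit 1076521124),
  Rx.mk (nat_lit 507) (nat_lit 3) (nat_lit 7) (nat_lit 7) (nat_lit 7) (nat_lit 65) (nat_lit 8) r1_65 r5_8 (nat_lit 0) (nat_lit 0) (nat_lit 0) (nat_lit 0x7fe8a5784) (nat_lit 1075407924)]
noncomputable def e14_31 : List Rx := [
  Rx.mk (nat_lit 216) (nat_lit 0) (nat_lit 3) (nat_lit 3) (nat_lit 6) (nat_lit 166) (nat_lit 2) r1_166 r11_2 (nat_lit 5621376) (nat_lit 0) (nat_lit 0) (nat_lit 0x7fea6aa60) (nat_lit 1080917600),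
  Rx.mk (nat_lit 217) (nat_lit 1) (nat_lit 3) (nat_lit 3) (nat_lit 7) (nat_lit 167) (nat_lit 3) r1_167 r11_3 (nat_lit 0) (nat_lit 0) (nat_lit 0) (nat_lit 0x80029938e) (nat_lit 1073741824),
  Rx.mk (nat_lit 218) (nat_lit 2) (nat_lit 3) (nat_lit 3) (nat_lit 7) (nat_lit 168) (nat_lit 4) r1_168 r11_4 (nat_lit 0) (nat_lit 0) (nat_lit 0) (nat_lit 0x80029938e) (nat_lit 1073741824)]
noncomputable def e14_32 : List Rx := [
  Rx.mk (nat_lit 281) (nat_lit 1) (nat_lit 3) (nat_lit 4) (nat_lit 3) (nat_lit 240) (nat_lit 299) r1_240 r6_299 (nat_lit 0) (nat_lit 0) (nat_lit 32238) (nat_lit 0x803e4e578) (nat_lit 1069845062),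
  Rx.mk (nat_lit 313) (nat_lit 1) (nat_lit 7) (nat_lit 4) (nat_lit 3) (nat_lit 241) (nat_lit 298) r1_241 r6_298 (nat_lit 0) (nat_lit 0) (nat_lit 9165703) (nat_lit 0x82a20d594) (nat_lit 1040408027)]
noncomputable def e14_33 : List Rx := [
  Rx.mk (nat_lit 281) (nat_lit 1) (nat_lit 3) (nat_lit 4) (nat_lit 3) (nat_lit 303) (nat_lit 273) r1_303 r5_273 (nat_lit 0) (nat_lit 0) (nat_lit 2861806) (nat_lit 0x81272a2b0) (nat_lit 1058046730),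
  Rx.mk (nat_lit 345) (nat_lit 1) (nat_lit 3) (nat_lit 5) (nat_lit 7) (nat_lit 304) (nat_lit 274) r1_304 r5_274 (nat_lit 0) (nat_lit 0) (nat_lit 0) (nat_lit 0x8ca337b4a) (nat_lit 869461024)]
noncomputable def e14_34 : List Rx := [
  Rx.mk (nat_lit 345) (nat_lit 1) (nat_lit 3) (nat_lit 5) (nat_lit 7) (nat_lit 310) (nat_lit 338) r1_310 r11_338 (nat_lit 0) (nat_lit 0) (nat_lit 0) (nat_lit 0x80029938e) (nat_lit 1073741824)]
noncomputable def e14_35 : List Rx := [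
  Rx.mk (nat_lit 313) (nat_lit 1) (nat_lit 7) (nat_lit 4) (nat_lit 3) (nat_lit 88) (nat_lit 57) r1_88 r6_57 (nat_lit 0) (nat_lit 0) (nat_lit 2919225) (nat_lit 0x8031e1df8) (nat_lit 1073634549),
  Rx.mk (nat_lit 473) (nat_lit 1) (nat_lit 3) (nat_lit 7) (nat_lit 7) (nat_lit 89) (nat_lit 56) r1_89 r6_56 (nat_lit 0) (nat_lit 0) (nat_lit 0) (nat_lit 0x997d38914) (nat_lit 661632824),
  Rx.mk (nat_lit 505) (nat_lit 1) (nat_lit 7) (nat_lit 7) (nat_lit 7) (nat_lit 90) (nat_lit 58) r1_90 r6_58 (nat_lit 0) (nat_lit 0) (nat_lit 0) (nat_lit 0x80844da2e) (nat_lit 1065486024)]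
noncomputable def e14_36 : List Rx := [
  Rx.mk (nat_lit 281) (nat_lit 1) (nat_lit 3) (nat_lit 4) (nat_lit 3) (nat_lit 249) (nat_lit 109) r1_249 r12_109 (nat_lit 0) (nat_lit 0) (nat_lit 13758) (nat_lit 0x8684d43de) (nat_lit 968343482),
  Rx.mk (nat_lit 313) (nat_lit 1) (nat_lit 7) (nat_lit 4) (nat_lit 3) (nat_lit 250) (nat_lit 111) r1_250 r12_111 (nat_lit 0) (nat_lit 0) (nat_lit 8872160) (nat_lit 0x8188ce430) (nat_lit 1057873084),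
  Rx.mk (nat_lit 473) (nat_lit 1) (nat_lit 3) (nat_lit 7) (nat_lit 7) (nat_lit 251) (nat_lit 110) r1_251 r12_110 (nat_lit 0) (nat_lit 0) (nat_lit 0) (nat_lit 0xa214ce410) (nat_lit 522685424)]
noncomputable def e14_37 : List Rx := [
  Rx.mk (nat_lit 289) (nat_lit 1) (nat_lit 4) (nat_lit 4) (nat_lit 1) (nat_lit 179) (nat_lit 269) r1_179 r0_269 (nat_lit 0) (nat_lit 4696) (nat_lit 1076204905) (nat_lit 0x8008e3776) (nat_lit 2149391825),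
  Rx.mk (nat_lit 293) (nat_lit 5) (nat_lit 4) (nat_lit 4) (nat_lit 1) (nat_lit 180) (nat_lit 265) r1_180 r0_265 (nat_lit 0) (nat_lit 2783255) (nat_lit 103080834) (nat_lit 0x61b174d32) (nat_lit 1684989113),
  Rx.mk (nat_lit 297) (nat_lit 1) (nat_lit 5) (nat_lit 4) (nat_lit 3) (nat_lit 181) (nat_lit 270) r1_181 r0_270 (nat_lit 0) (nat_lit 0) (nat_lit 15364900) (nat_lit 0x80028c260) (nat_lit 1089102224),
  Rx.mk (nat_lit 301) (nat_lit 5) (nat_lit 5) (nat_lit 4) (nat_lit 3) (nat_lit 182) (nat_lit 266) r1_182 r0_266 (nat_lit 0) (nat_lit 0) (nat_lit 7068022) (nat_lit 0x7fea1f7b8) (nat_lit 1082378546),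
  Rx.mk (nat_lit 317) (nat_lit 5) (nat_lit 7) (nat_lit 4) (nat_lit 3) (nat_lit 183) (nat_lit 267) r1_183 r0_267 (nat_lit 0) (nat_lit 0) (nat_lit 271237446) (nat_lit 0x89006c440) (nat_lit 1199488170),
  Rx.mk (nat_lit 509) (nat_lit 5) (nat_lit 7) (nat_lit 7) (nat_lit 7) (nat_lit 184) (nat_lit 268) r1_184 r0_268 (nat_lit 0) (nat_lit 0) (nat_lit 0) (nat_lit 0x802fc2cf2) (nat_lit 1070852724)]
noncomputable def e14_38 : List Rx := [
  Rx.mk (nat_lit 317) (nat_lit 5) (nat_lit 7) (nat_lit 4) (nat_lit 3) (nat_lit 69) (nat_lit 76) r1_69 r0_76 (nat_lit 0) (nat_lit 0) (nat_lit 3524879) (nat_lit 0x7f208be6a) (nat_lit 1091914603),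
  Rx.mk (nat_lit 421) (nat_lit 5) (nat_lit 4) (nat_lit 6) (nat_lit 5) (nat_lit 70) (nat_lit 75) r1_70 r0_75 (nat_lit 0) (nat_lit 2468639) (nat_lit 0) (nat_lit 0x80090eed0) (nat_lit 1075791763),
  Rx.mk (nat_lit 445) (nat_lit 5) (nat_lit 7) (nat_lit 6) (nat_lit 7) (nat_lit 71) (nat_lit 78) r1_71 r0_78 (nat_lit 0) (nat_lit 0) (nat_lit 0) (nat_lit 0x81c0ba54c) (nat_lit 1045481724),
  Rx.mk (nat_lit 509) (nat_lit 5) (nat_lit 7) (nat_lit 7) (nat_lit 7) (nat_lit 72) (nat_lit 77) r1_72 r0_77 (nat_lit 0) (nat_lit 0) (nat_lit 0) (nat_lit 0x800fe7112) (nat_lit 1072885924)]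
noncomputable def e14_39 : List Rx := [
  Rx.mk (nat_lit 293) (nat_lit 5) (nat_lit 4) (nat_lit 4) (nat_lit 1) (nat_lit 192) (nat_lit 381) r1_192 r7_381 (nat_lit 0) (nat_lit 18024927) (nat_lit 13272121) (nat_lit 0x679c04a46) (nat_lit 1511783172),
  Rx.mk (nat_lit 301) (nat_lit 5) (nat_lit 5) (nat_lit 4) (nat_lit 3) (nat_lit 193) (nat_lit 382) r1_193 r7_382 (nat_lit 0) (nat_lit 0) (nat_lit 6367424) (nat_lit 0x7fc15ea7c) (nat_lit 1084313548),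
  Rx.mk (nat_lit 317) (nat_lit 5) (nat_lit 7) (nat_lit 4) (nat_lit 3) (nat_lit 194) (nat_lit 383) r1_194 r7_383 (nat_lit 0) (nat_lit 0) (nat_lit 50165941) (nat_lit 0x874d452b4) (nat_lit 1005906665),
  Rx.mk (nat_lit 421) (nat_lit 5) (nat_lit 4) (nat_lit 6) (nat_lit 5) (nat_lit 195) (nat_lit 385) r1_195 r7_385 (nat_lit 0) (nat_lit 3131027) (nat_lit 0) (nat_lit 0x8039b0930) (nat_lit 1073355051),
  Rx.mk (nat_lit 429) (nat_lit 5) (nat_lit 5) (nat_lit 6) (nat_lit 7) (nat_lit 196) (nat_lit 386) r1_196 r7_386 (nat_lit 0) (nat_lit 0) (nat_lit 0) (nat_lit 0x8013c631e) (nat_lit 1072641324),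
  Rx.mk (nat_lit 445) (nat_lit 5) (nat_lit 7) (nat_lit 6) (nat_lit 7) (nat_lit 197) (nat_lit 387) r1_197 r7_387 (nat_lit 0) (nat_lit 0) (nat_lit 0) (nat_lit 0x8013c631e) (nat_lit 1072641324),
  Rx.mk (nat_lit 509) (nat_lit 5) (nat_lit 7) (nat_lit 7) (nat_lit 7) (nat_lit 198) (nat_lit 384) r1_198 r7_384 (nat_lit 0) (nat_lit 0) (nat_lit 0) (nat_lit 0x80f9b7260) (nat_lit 1058059324)]
noncomputable def e14_40 : List Rx := [
  Rx.mk (nat_lit 182) (nat_lit 6) (nat_lit 6) (nat_lit 2) (nat_lit 7) (nat_lit 30) (nat_lit 81) r1_30 r2_81 (nat_lit 0) (nat_lit 0) (nat_lit 0) (nat_lit 0x80029938e) (nat_lit 1073741824),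
  Rx.mk (nat_lit 316) (nat_lit 4) (nat_lit 7) (nat_lit 4) (nat_lit 2) (nat_lit 31) (nat_lit 76) r1_31 r2_76 (nat_lit 3982367) (nat_lit 0) (nat_lit 42604894) (nat_lit 0x703ff5cd8) (nat_lit 1383025585),
  Rx.mk (nat_lit 319) (nat_lit 7) (nat_lit 7) (nat_lit 4) (nat_lit 3) (nat_lit 32) (nat_lit 77) r1_32 r2_77 (nat_lit 0) (nat_lit 0) (nat_lit 6403813) (nat_lit 0x7fe29b438) (nat_lit 1082202837),
  Rx.mk (nat_lit 420) (nat_lit 4) (nat_lit 4) (nat_lit 6) (nat_lit 4) (nat_lit 33) (nat_lit 75) r1_33 r2_75 (nat_lit 6015067) (nat_lit 9015506) (nat_lit 0) (nat_lit 0x725a13c30) (nat_lit 1316417397),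
  Rx.mk (nat_lit 436) (nat_lit 4) (nat_lit 6) (nat_lit 6) (nat_lit 6) (nat_lit 34) (nat_lit 82) r1_34 r2_82 (nat_lit 5449534) (nat_lit 0) (nat_lit 0) (nat_lit 0x80029938e) (nat_lit 1079191358),
  Rx.mk (nat_lit 438) (nat_lit 6) (nat_lit 6) (nat_lit 6) (nat_lit 7) (nat_lit 35) (nat_lit 83) r1_35 r2_83 (nat_lit 0) (nat_lit 0) (nat_lit 0) (nat_lit 0x80029938e) (nat_lit 1073741824),
  Rx.mk (nat_lit 444) (nat_lit 4) (nat_lit 7) (nat_lit 6) (nat_lit 6) (nat_lit 36) (nat_lit 79) r1_36 r2_79 (nat_lit 1294723) (nat_lit 0) (nat_lit 0) (nat_lit 0x817da7660) (nat_lit 1051014847),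
  Rx.mk (nat_lit 447) (nat_lit 7) (nat_lit 7) (nat_lit 6) (nat_lit 7) (nat_lit 37) (nat_lit 80) r1_37 r2_80 (nat_lit 0) (nat_lit 0) (nat_lit 0) (nat_lit 0x804569894) (nat_lit 1069476124),
  Rx.mk (nat_lit 511) (nat_lit 7) (nat_lit 7) (nat_lit 7) (nat_lit 7) (nat_lit 38) (nat_lit 78) r1_38 r2_78 (nat_lit 0) (nat_lit 0) (nat_lit 0) (nat_lit 0x80029938e) (nat_lit 1073741824)]
noncomputable def e14_41 : List Rx := [
  Rx.mk (nat_lit 182) (nat_lit 6) (nat_lit 6) (nat_lit 2) (nat_lit 7) (nat_lit 169) (nat_lit 47) r1_169 r9_47 (nat_lit 0) (nat_lit 0) (nat_lit 0) (nat_lit 0x80029938e) (nat_lit 1073741824),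
  Rx.mk (nat_lit 292) (nat_lit 4) (nat_lit 4) (nat_lit 4) (nat_lit 0) (nat_lit 170) (nat_lit 40) r1_170 r9_40 (nat_lit 5387168) (nat_lit 14674099) (nat_lit 67552839) (nat_lit 0x39df35bf4) (nat_lit 2330684730),
  Rx.mk (nat_lit 316) (nat_lit 4) (nat_lit 7) (nat_lit 4) (nat_lit 2) (nat_lit 171) (nat_lit 42) r1_171 r9_42 (nat_lit 4130151) (nat_lit 0) (nat_lit 138692841) (nat_lit 0x6fe20f042) (nat_lit 1485369016),
  Rx.mk (nat_lit 319) (nat_lit 7) (nat_lit 7) (nat_lit 4) (nat_lit 3) (nat_lit 172) (nat_lit 43) r1_172 r9_43 (nat_lit 0) (nat_lit 0) (nat_lit 7333993) (nat_lit 0x7fde08646) (nat_lit 1083428917),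
  Rx.mk (nat_lit 420) (nat_lit 4) (nat_lit 4) (nat_lit 6) (nat_lit 4) (nat_lit 173) (nat_lit 41) r1_173 r9_41 (nat_lit 3916298) (nat_lit 6975258) (nat_lit 0) (nat_lit 0x682127750) (nat_lit 1482713080),
  Rx.mk (nat_lit 436) (nat_lit 4) (nat_lit 6) (nat_lit 6) (nat_lit 6) (nat_lit 174) (nat_lit 48) r1_174 r9_48 (nat_lit 5449534) (nat_lit 0) (nat_lit 0) (nat_lit 0x80029938e) (nat_lit 1079191358),
  Rx.mk (nat_lit 438) (nat_lit 6) (nat_lit 6) (nat_lit 6) (nat_lit 7) (nat_lit 175) (nat_lit 49) r1_175 r9_49 (nat_lit 0) (nat_lit 0) (nat_lit 0) (nat_lit 0x80029938e) (nat_lit 1073741824),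
  Rx.mk (nat_lit 444) (nat_lit 4) (nat_lit 7) (nat_lit 6) (nat_lit 6) (nat_lit 176) (nat_lit 45) r1_176 r9_45 (nat_lit 5449534) (nat_lit 0) (nat_lit 0) (nat_lit 0x80029938e) (nat_lit 1079191358),
  Rx.mk (nat_lit 447) (nat_lit 7) (nat_lit 7) (nat_lit 6) (nat_lit 7) (nat_lit 177) (nat_lit 46) r1_177 r9_46 (nat_lit 0) (nat_lit 0) (nat_lit 0) (nat_lit 0x80029938e) (nat_lit 1073741824),
  Rx.mk (nat_lit 511) (nat_lit 7) (nat_lit 7) (nat_lit 7) (nat_lit 7) (nat_lit 178) (nat_lit 44) r1_178 r9_44 (nat_lit 0) (nat_lit 0) (nat_lit 0) (nat_lit 0x80029938e) (nat_lit 1073741824)]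
noncomputable def e14_42 : List Rx := [
  Rx.mk (nat_lit 182) (nat_lit 6) (nat_lit 6) (nat_lit 2) (nat_lit 7) (nat_lit 153) (nat_lit 1) r1_153 r9_1 (nat_lit 0) (nat_lit 0) (nat_lit 0) (nat_lit 0x80029938e) (nat_lit 1073741824)]
noncomputable def e14_43 : List Rx := [
  Rx.mk (nat_lit 316) (nat_lit 4) (nat_lit 7) (nat_lit 4) (nat_lit 2) (nat_lit 73) (nat_lit 75) r1_73 r1_75 (nat_lit 2167811) (nat_lit 0) (nat_lit 5595281) (nat_lit 0x68a7aed50) (nat_lit 1470816316),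
  Rx.mk (nat_lit 317) (nat_lit 5) (nat_lit 7) (nat_lit 4) (nat_lit 3) (nat_lit 74) (nat_lit 76) r1_74 r1_76 (nat_lit 0) (nat_lit 0) (nat_lit 3573233) (nat_lit 0x802abf1c4) (nat_lit 1074746757),
  Rx.mk (nat_lit 420) (nat_lit 4) (nat_lit 4) (nat_lit 6) (nat_lit 4) (nat_lit 75) (nat_lit 73) r1_75 r1_73 (nat_lit 2167811) (nat_lit 5595281) (nat_lit 0) (nat_lit 0x68a7aed50) (nat_lit 1470816316),
  Rx.mk (nat_lit 421) (nat_lit 5) (nat_lit 4) (nat_lit 6) (nat_lit 5) (nat_lit 76) (nat_lit 74) r1_76 r1_74 (nat_lit 0) (nat_lit 3573233) (nat_lit 0) (nat_lit 0x802abf1c4) (nat_lit 1074746757),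
  Rx.mk (nat_lit 436) (nat_lit 4) (nat_lit 6) (nat_lit 6) (nat_lit 6) (nat_lit 77) (nat_lit 82) r1_77 r1_82 (nat_lit 3465019) (nat_lit 0) (nat_lit 0) (nat_lit 0x7fbdc8412) (nat_lit 1081640343),
  Rx.mk (nat_lit 437) (nat_lit 5) (nat_lit 6) (nat_lit 6) (nat_lit 7) (nat_lit 78) (nat_lit 83) r1_78 r1_83 (nat_lit 0) (nat_lit 0) (nat_lit 0) (nat_lit 0x801061f66) (nat_lit 1072858124),
  Rx.mk (nat_lit 438) (nat_lit 6) (nat_lit 6) (nat_lit 6) (nat_lit 7) (nat_lit 79) (nat_lit 84) r1_79 r1_84 (nat_lit 0) (nat_lit 0) (nat_lit 0) (nat_lit 0x801061f66) (nat_lit 1072858124),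
  Rx.mk (nat_lit 444) (nat_lit 4) (nat_lit 7) (nat_lit 6) (nat_lit 6) (nat_lit 80) (nat_lit 80) r1_80 r1_80 (nat_lit 2104303) (nat_lit 0) (nat_lit 0) (nat_lit 0x8066c26b2) (nat_lit 1069463227),
  Rx.mk (nat_lit 445) (nat_lit 5) (nat_lit 7) (nat_lit 6) (nat_lit 7) (nat_lit 81) (nat_lit 81) r1_81 r1_81 (nat_lit 0) (nat_lit 0) (nat_lit 0) (nat_lit 0x803fd8786) (nat_lit 1069829824),
  Rx.mk (nat_lit 508) (nat_lit 4) (nat_lit 7) (nat_lit 7) (nat_lit 6) (nat_lit 82) (nat_lit 77) r1_82 r1_77 (nat_lit 3465019) (nat_lit 0) (nat_lit 0) (nat_lit 0x7fbdc8412) (nat_lit 1081640343),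
  Rx.mk (nat_lit 509) (nat_lit 5) (nat_lit 7) (nat_lit 7) (nat_lit 7) (nat_lit 83) (nat_lit 78) r1_83 r1_78 (nat_lit 0) (nat_lit 0) (nat_lit 0) (nat_lit 0x801061f66) (nat_lit 1072858124),
  Rx.mk (nat_lit 511) (nat_lit 7) (nat_lit 7) (nat_lit 7) (nat_lit 7) (nat_lit 84) (nat_lit 79) r1_84 r1_79 (nat_lit 0) (nat_lit 0) (nat_lit 0) (nat_lit 0x801061f66) (nat_lit 1072858124)]
noncomputable def e14_44 : List Rx := [
  Rx.mk (nat_lit 292) (nat_lit 4) (nat_lit 4) (nat_lit 4) (nat_lit 0) (nat_lit 201) (nat_lit 283) r1_201 r8_283 (nat_lit 1918416) (nat_lit 15319371) (nat_lit 114209413) (nat_lit 0x41b550df4) (nat_lit 2243856724),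
  Rx.mk (nat_lit 293) (nat_lit 5) (nat_lit 4) (nat_lit 4) (nat_lit 1) (nat_lit 202) (nat_lit 289) r1_202 r8_289 (nat_lit 0) (nat_lit 11555613) (nat_lit 11555613) (nat_lit 0x649b277ac) (nat_lit 1553678350),
  Rx.mk (nat_lit 301) (nat_lit 5) (nat_lit 5) (nat_lit 4) (nat_lit 3) (nat_lit 203) (nat_lit 290) r1_203 r8_290 (nat_lit 0) (nat_lit 0) (nat_lit 5714928) (nat_lit 0x7ff0d9b4e) (nat_lit 1080597652),
  Rx.mk (nat_lit 316) (nat_lit 4) (nat_lit 7) (nat_lit 4) (nat_lit 2) (nat_lit 204) (nat_lit 284) r1_204 r8_284 (nat_lit 3811645) (nat_lit 0) (nat_lit 49656685) (nat_lit 0x67434edb6) (nat_lit 1539734254),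
  Rx.mk (nat_lit 317) (nat_lit 5) (nat_lit 7) (nat_lit 4) (nat_lit 3) (nat_lit 205) (nat_lit 291) r1_205 r8_291 (nat_lit 0) (nat_lit 0) (nat_lit 7630254) (nat_lit 0x8044c7bb6) (nat_lit 1077143878),
  Rx.mk (nat_lit 420) (nat_lit 4) (nat_lit 4) (nat_lit 6) (nat_lit 4) (nat_lit 206) (nat_lit 286) r1_206 r8_286 (nat_lit 4263426) (nat_lit 7320286) (nat_lit 0) (nat_lit 0x6945f5c3e) (nat_lit 1464332436),
  Rx.mk (nat_lit 421) (nat_lit 5) (nat_lit 4) (nat_lit 6) (nat_lit 5) (nat_lit 207) (nat_lit 293) r1_207 r8_293 (nat_lit 0) (nat_lit 5586817) (nat_lit 0) (nat_lit 0x7ff93b2a6) (nat_lit 1079930041),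
  Rx.mk (nat_lit 429) (nat_lit 5) (nat_lit 5) (nat_lit 6) (nat_lit 7) (nat_lit 208) (nat_lit 294) r1_208 r8_294 (nat_lit 0) (nat_lit 0) (nat_lit 0) (nat_lit 0x80029938e) (nat_lit 1073741824),
  Rx.mk (nat_lit 436) (nat_lit 4) (nat_lit 6) (nat_lit 6) (nat_lit 6) (nat_lit 209) (nat_lit 288) r1_209 r8_288 (nat_lit 5449534) (nat_lit 0) (nat_lit 0) (nat_lit 0x7fec9c43c) (nat_lit 1080603458),
  Rx.mk (nat_lit 437) (nat_lit 5) (nat_lit 6) (nat_lit 6) (nat_lit 7) (nat_lit 210) (nat_lit 296) r1_210 r8_296 (nat_lit 0) (nat_lit 0) (nat_lit 0) (nat_lit 0x80029938e) (nat_lit 1073741824),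
  Rx.mk (nat_lit 438) (nat_lit 6) (nat_lit 6) (nat_lit 6) (nat_lit 7) (nat_lit 211) (nat_lit 298) r1_211 r8_298 (nat_lit 0) (nat_lit 0) (nat_lit 0) (nat_lit 0x80029938e) (nat_lit 1073741824),
  Rx.mk (nat_lit 444) (nat_lit 4) (nat_lit 7) (nat_lit 6) (nat_lit 6) (nat_lit 212) (nat_lit 287) r1_212 r8_287 (nat_lit 5449534) (nat_lit 0) (nat_lit 0) (nat_lit 0x80029938e) (nat_lit 1079191358),
  Rx.mk (nat_lit 445) (nat_lit 5) (nat_lit 7) (nat_lit 6) (nat_lit 7) (nat_lit 213) (nat_lit 295) r1_213 r8_295 (nat_lit 0) (nat_lit 0) (nat_lit 0) (nat_lit 0x80029938e) (nat_lit 1073741824),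
  Rx.mk (nat_lit 508) (nat_lit 4) (nat_lit 7) (nat_lit 7) (nat_lit 6) (nat_lit 214) (nat_lit 285) r1_214 r8_285 (nat_lit 5009605) (nat_lit 0) (nat_lit 0) (nat_lit 0x79cf2c0ba) (nat_lit 1182054929),
  Rx.mk (nat_lit 509) (nat_lit 5) (nat_lit 7) (nat_lit 7) (nat_lit 7) (nat_lit 215) (nat_lit 292) r1_215 r8_292 (nat_lit 0) (nat_lit 0) (nat_lit 0) (nat_lit 0x807ff3424) (nat_lit 1065763424),
  Rx.mk (nat_lit 511) (nat_lit 7) (nat_lit 7) (nat_lit 7) (nat_lit 7) (nat_lit 216) (nat_lit 297) r1_216 r8_297 (nat_lit 0) (nat_lit 0) (nat_lit 0) (nat_lit 0x8009989a0) (nat_lit 1073292924)]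
noncomputable def e14_45 : List Rx := [
  Rx.mk (nat_lit 297) (nat_lit 1) (nat_lit 5) (nat_lit 4) (nat_lit 3) (nat_lit 185) (nat_lit 273) r1_185 r1_273 (nat_lit 0) (nat_lit 0) (nat_lit 5632914) (nat_lit 0x80115033c) (nat_lit 1078429238),
  Rx.mk (nat_lit 301) (nat_lit 5) (nat_lit 5) (nat_lit 4) (nat_lit 3) (nat_lit 186) (nat_lit 272) r1_186 r1_272 (nat_lit 0) (nat_lit 0) (nat_lit 6431130) (nat_lit 0x7f59dbdb4) (nat_lit 1091100554)]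
noncomputable def e14_46 : List Rx := [
  Rx.mk (nat_lit 265) (nat_lit 1) (nat_lit 1) (nat_lit 4) (nat_lit 3) (nat_lit 280) (nat_lit 298) r1_280 r2_298 (nat_lit 0) (nat_lit 0) (nat_lit 8236166) (nat_lit 0x80037e826) (nat_lit 1081916390),
  Rx.mk (nat_lit 297) (nat_lit 1) (nat_lit 5) (nat_lit 4) (nat_lit 3) (nat_lit 281) (nat_lit 297) r1_281 r2_297 (nat_lit 0) (nat_lit 0) (nat_lit 5449534) (nat_lit 0x7fe147668) (nat_lit 1081333358),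
  Rx.mk (nat_lit 301) (nat_lit 5) (nat_lit 5) (nat_lit 4) (nat_lit 3) (nat_lit 282) (nat_lit 295) r1_282 r2_295 (nat_lit 0) (nat_lit 0) (nat_lit 5449534) (nat_lit 0x7fec59132) (nat_lit 1080620558),
  Rx.mk (nat_lit 329) (nat_lit 1) (nat_lit 1) (nat_lit 5) (nat_lit 7) (nat_lit 283) (nat_lit 300) r1_283 r2_300 (nat_lit 0) (nat_lit 0) (nat_lit 0) (nat_lit 0x80029938e) (nat_lit 1073741824),
  Rx.mk (nat_lit 361) (nat_lit 1) (nat_lit 5) (nat_lit 5) (nat_lit 7) (nat_lit 284) (nat_lit 299) r1_284 r2_299 (nat_lit 0) (nat_lit 0) (nat_lit 0) (nat_lit 0x80029938e) (nat_lit 1073741824),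
  Rx.mk (nat_lit 365) (nat_lit 5) (nat_lit 5) (nat_lit 5) (nat_lit 7) (nat_lit 285) (nat_lit 296) r1_285 r2_296 (nat_lit 0) (nat_lit 0) (nat_lit 0) (nat_lit 0x80029938e) (nat_lit 1073741824)]
noncomputable def e14_47 : List Rx := [
  Rx.mk (nat_lit 301) (nat_lit 5) (nat_lit 5) (nat_lit 4) (nat_lit 3) (nat_lit 199) (nat_lit 66) r1_199 r8_66 (nat_lit 0) (nat_lit 0) (nat_lit 5449534) (nat_lit 0x7fdc2270a) (nat_lit 1081666058),
  Rx.mk (nat_lit 429) (nat_lit 5) (nat_lit 5) (nat_lit 6) (nat_lit 7) (nat_lit 200) (nat_lit 67) r1_200 r8_67 (nat_lit 0) (nat_lit 0) (nat_lit 0) (nat_lit 0x80029938e) (nat_lit 1073741824)]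
noncomputable def e14_48 : List Rx := [
  Rx.mk (nat_lit 301) (nat_lit 5) (nat_lit 5) (nat_lit 4) (nat_lit 3) (nat_lit 290) (nat_lit 286) r1_290 r9_286 (nat_lit 0) (nat_lit 0) (nat_lit 5449534) (nat_lit 0x7ffe84c62) (nat_lit 1079452958),
  Rx.mk (nat_lit 365) (nat_lit 5) (nat_lit 5) (nat_lit 5) (nat_lit 7) (nat_lit 291) (nat_lit 287) r1_291 r9_287 (nat_lit 0) (nat_lit 0) (nat_lit 0) (nat_lit 0x80029938e) (nat_lit 1073741824),
  Rx.mk (nat_lit 429) (nat_lit 5) (nat_lit 5) (nat_lit 6) (nat_lit 7) (nat_lit 292) (nat_lit 288) r1_292 r9_288 (nat_lit 0) (nat_lit 0) (nat_lit 0) (nat_lit 0x80029938e) (nat_lit 1073741824)]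
noncomputable def e14_49 : List Rx := [
  Rx.mk (nat_lit 329) (nat_lit 1) (nat_lit 1) (nat_lit 5) (nat_lit 7) (nat_lit 287) (nat_lit 290) r1_287 r9_290 (nat_lit 0) (nat_lit 0) (nat_lit 0) (nat_lit 0x80029938e) (nat_lit 1073741824),
  Rx.mk (nat_lit 361) (nat_lit 1) (nat_lit 5) (nat_lit 5) (nat_lit 7) (nat_lit 288) (nat_lit 291) r1_288 r9_291 (nat_lit 0) (nat_lit 0) (nat_lit 0) (nat_lit 0x80029938e) (nat_lit 1073741824),
  Rx.mk (nat_lit 365) (nat_lit 5) (nat_lit 5) (nat_lit 5) (nat_lit 7) (nat_lit 289) (nat_lit 292) r1_289 r9_292 (nat_lit 0) (nat_lit 0) (nat_lit 0) (nat_lit 0x80029938e) (nat_lit 1073741824)]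
noncomputable def e14_50 : List Rx := [
  Rx.mk (nat_lit 313) (nat_lit 1) (nat_lit 7) (nat_lit 4) (nat_lit 3) (nat_lit 66) (nat_lit 264) r1_66 r3_264 (nat_lit 0) (nat_lit 0) (nat_lit 2087) (nat_lit 0x83b63534a) (nat_lit 1013722111),
  Rx.mk (nat_lit 317) (nat_lit 5) (nat_lit 7) (nat_lit 4) (nat_lit 3) (nat_lit 67) (nat_lit 262) r1_67 r3_262 (nat_lit 0) (nat_lit 0) (nat_lit 30018) (nat_lit 0x7f80f42c0) (nat_lit 1082047842),
  Rx.mk (nat_lit 509) (nat_lit 5) (nat_lit 7) (nat_lit 7) (nat_lit 7) (nat_lit 68) (nat_lit 263) r1_68 r3_263 (nat_lit 0) (nat_lit 0) (nat_lit 0) (nat_lit 0x7eddd189a) (nat_lit 1092721324)]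
noncomputable def e14_51 : List Rx := [
  Rx.mk (nat_lit 289) (nat_lit 1) (nat_lit 4) (nat_lit 4) (nat_lit 1) (nat_lit 187) (nat_lit 281) r1_187 r4_281 (nat_lit 0) (nat_lit 33051833) (nat_lit 121901927) (nat_lit 0x6d0be5900) (nat_lit 1544782984),
  Rx.mk (nat_lit 297) (nat_lit 1) (nat_lit 5) (nat_lit 4) (nat_lit 3) (nat_lit 188) (nat_lit 282) r1_188 r4_282 (nat_lit 0) (nat_lit 0) (nat_lit 5449534) (nat_lit 0x8040748b6) (nat_lit 1075240558),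
  Rx.mk (nat_lit 313) (nat_lit 1) (nat_lit 7) (nat_lit 4) (nat_lit 3) (nat_lit 189) (nat_lit 283) r1_189 r4_283 (nat_lit 0) (nat_lit 0) (nat_lit 362600088) (nat_lit 0x7fac88b7a) (nat_lit 1441871812),
  Rx.mk (nat_lit 317) (nat_lit 5) (nat_lit 7) (nat_lit 4) (nat_lit 3) (nat_lit 190) (nat_lit 279) r1_190 r4_279 (nat_lit 0) (nat_lit 0) (nat_lit 133026953) (nat_lit 0x8042f6120) (nat_lit 1202645077),
  Rx.mk (nat_lit 509) (nat_lit 5) (nat_lit 7) (nat_lit 7) (nat_lit 7) (nat_lit 191) (nat_lit 280) r1_191 r4_280 (nat_lit 0) (nat_lit 0) (nat_lit 0) (nat_lit 0x807e3d260) (nat_lit 1065870924)]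
noncomputable def e14_52 : List Rx := [
  Rx.mk (nat_lit 313) (nat_lit 1) (nat_lit 7) (nat_lit 4) (nat_lit 3) (nat_lit 242) (nat_lit 268) r1_242 r5_268 (nat_lit 0) (nat_lit 0) (nat_lit 49238329) (nat_lit 0x83e7c743a) (nat_lit 1059883053),
  Rx.mk (nat_lit 317) (nat_lit 5) (nat_lit 7) (nat_lit 4) (nat_lit 3) (nat_lit 243) (nat_lit 267) r1_243 r5_267 (nat_lit 0) (nat_lit 0) (nat_lit 32179892) (nat_lit 0x8088ff068) (nat_lit 1097358516)]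
noncomputable def e14_53 : List Rx := [
  Rx.mk (nat_lit 317) (nat_lit 5) (nat_lit 7) (nat_lit 4) (nat_lit 3) (nat_lit 85) (nat_lit 71) r1_85 r4_71 (nat_lit 0) (nat_lit 0) (nat_lit 3320491) (nat_lit 0x800fb1fc6) (nat_lit 1076215615),
  Rx.mk (nat_lit 445) (nat_lit 5) (nat_lit 7) (nat_lit 6) (nat_lit 7) (nat_lit 86) (nat_lit 73) r1_86 r4_73 (nat_lit 0) (nat_lit 0) (nat_lit 0) (nat_lit 0x85e8fa242) (nat_lit 978250424),
  Rx.mk (nat_lit 509) (nat_lit 5) (nat_lit 7) (nat_lit 7) (nat_lit 7) (nat_lit 87) (nat_lit 72) r1_87 r4_72 (nat_lit 0) (nat_lit 0) (nat_lit 0) (nat_lit 0x805852a1e) (nat_lit 1068275824)]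
noncomputable def e14_54 : List Rx := [
  Rx.mk (nat_lit 317) (nat_lit 5) (nat_lit 7) (nat_lit 4) (nat_lit 3) (nat_lit 217) (nat_lit 314) r1_217 r10_314 (nat_lit 0) (nat_lit 0) (nat_lit 19618759) (nat_lit 0x8216578f6) (nat_lit 1059686783),
  Rx.mk (nat_lit 445) (nat_lit 5) (nat_lit 7) (nat_lit 6) (nat_lit 7) (nat_lit 218) (nat_lit 316) r1_218 r10_316 (nat_lit 0) (nat_lit 0) (nat_lit 0) (nat_lit 0x80029938e) (nat_lit 1073741824),
  Rx.mk (nat_lit 509) (nat_lit 5) (nat_lit 7) (nat_lit 7) (nat_lit 7) (nat_lit 219) (nat_lit 315) r1_219 r10_315 (nat_lit 0) (nat_lit 0) (nat_lit 0) (nat_lit 0x808e6d8b0) (nat_lit 1064845524)]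
noncomputable def e14_55 : List Rx := [
  Rx.mk (nat_lit 317) (nat_lit 5) (nat_lit 7) (nat_lit 4) (nat_lit 3) (nat_lit 244) (nat_lit 333) r1_244 r11_333 (nat_lit 0) (nat_lit 0) (nat_lit 3129371) (nat_lit 0x8036700c2) (nat_lit 1073557195),
  Rx.mk (nat_lit 445) (nat_lit 5) (nat_lit 7) (nat_lit 6) (nat_lit 7) (nat_lit 245) (nat_lit 334) r1_245 r11_334 (nat_lit 0) (nat_lit 0) (nat_lit 0) (nat_lit 0x80c2edd92) (nat_lit 1061523624)]
noncomputable def e14_56 : List Rx := [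
  Rx.mk (nat_lit 313) (nat_lit 1) (nat_lit 7) (nat_lit 4) (nat_lit 3) (nat_lit 91) (nat_lit 63) r1_91 r5_63 (nat_lit 0) (nat_lit 0) (nat_lit 7636976) (nat_lit 0x7f2748de8) (nat_lit 1095591500),
  Rx.mk (nat_lit 505) (nat_lit 1) (nat_lit 7) (nat_lit 7) (nat_lit 7) (nat_lit 92) (nat_lit 64) r1_92 r5_64 (nat_lit 0) (nat_lit 0) (nat_lit 0) (nat_lit 0x80665f1a2) (nat_lit 1067372924),
  Rx.mk (nat_lit 509) (nat_lit 5) (nat_lit 7) (nat_lit 7) (nat_lit 7) (nat_lit 93) (nat_lit 65) r1_93 r5_65 (nat_lit 0) (nat_lit 0) (nat_lit 0) (nat_lit 0x803f07ad2) (nat_lit 1069877524)]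
noncomputable def e14_57 : List Rx := [
  Rx.mk (nat_lit 289) (nat_lit 1) (nat_lit 4) (nat_lit 4) (nat_lit 1) (nat_lit 220) (nat_lit 41) r1_220 r11_41 (nat_lit 0) (nat_lit 167522575) (nat_lit 142725965) (nat_lit 0x71fbb1be2) (nat_lit 1617776664),
  Rx.mk (nat_lit 297) (nat_lit 1) (nat_lit 5) (nat_lit 4) (nat_lit 3) (nat_lit 221) (nat_lit 42) r1_221 r11_42 (nat_lit 0) (nat_lit 0) (nat_lit 5449534) (nat_lit 0x80131b900) (nat_lit 1078133458),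
  Rx.mk (nat_lit 313) (nat_lit 1) (nat_lit 7) (nat_lit 4) (nat_lit 3) (nat_lit 222) (nat_lit 43) r1_222 r11_43 (nat_lit 0) (nat_lit 0) (nat_lit 6392805) (nat_lit 0x807f8d502) (nat_lit 1072177929),
  Rx.mk (nat_lit 505) (nat_lit 1) (nat_lit 7) (nat_lit 7) (nat_lit 7) (nat_lit 223) (nat_lit 44) r1_223 r11_44 (nat_lit 0) (nat_lit 0) (nat_lit 0) (nat_lit 0x806ebd592) (nat_lit 1066852524),
  Rx.mk (nat_lit 509) (nat_lit 5) (nat_lit 7) (nat_lit 7) (nat_lit 7) (nat_lit 224) (nat_lit 45) r1_224 r11_45 (nat_lit 0) (nat_lit 0) (nat_lit 0) (nat_lit 0x803f6ccf2) (nat_lit 1069856624)]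
noncomputable def e14 : List (List Rx) := [e14_0, e14_1, e14_2, e14_3, e14_4, e14_5, e14_6, e14_7, e14_8, e14_9, e14_10, e14_11, e14_12, e14_13, e14_14, e14_15, e14_16, e14_17, e14_18, e14_19, e14_20, e14_21, e14_22, e14_23, e14_24, e14_25, e14_26, e14_27, e14_28, e14_29, e14_30, e14_31, e14_32, e14_33, e14_34, e14_35, e14_36, e14_37, e14_38, e14_39, e14_40, e14_41, e14_42, e14_43, e14_44, e14_45, e14_46, e14_47, e14_48, e14_49, e14_50, e14_51, e14_52, e14_53, e14_54, e14_55, e14_56, e14_57]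
noncomputable def e15_0 : List Rx := [
  Rx.mk (nat_lit 0) (nat_lit 0) (nat_lit 0) (nat_lit 0) (nat_lit 0) (nat_lit 0) (nat_lit 124) r8_0 r0_124 (nat_lit 769730) (nat_lit 19583288) (nat_lit 875647) (nat_lit 0x2e4eda24a) (nat_lit 2457082489),
  Rx.mk (nat_lit 1) (nat_lit 1) (nat_lit 0) (nat_lit 0) (nat_lit 1) (nat_lit 3) (nat_lit 127) r8_3 r0_127 (nat_lit 0) (nat_lit 10202902) (nat_lit 5177292) (nat_lit 0x5a407c046) (nat_lit 1718579418),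
  Rx.mk (nat_lit 2) (nat_lit 2) (nat_lit 0) (nat_lit 0) (nat_lit 1) (nat_lit 6) (nat_lit 133) r8_6 r0_133 (nat_lit 0) (nat_lit 19041550) (nat_lit 11768288) (nat_lit 0x59527f2bc) (nat_lit 1749505762),
  Rx.mk (nat_lit 18) (nat_lit 2) (nat_lit 2) (nat_lit 0) (nat_lit 3) (nat_lit 8) (nat_lit 136) r8_8 r0_136 (nat_lit 0) (nat_lit 0) (nat_lit 8974417) (nat_lit 0x79570f6e0) (nat_lit 1193845041),
  Rx.mk (nat_lit 146) (nat_lit 2) (nat_lit 2) (nat_lit 2) (nat_lit 7) (nat_lit 9) (nat_lit 138) r8_9 r0_138 (nat_lit 0) (nat_lit 0) (nat_lit 0) (nat_lit 0x80029938e) (nat_lit 1073741824),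
  Rx.mk (nat_lit 192) (nat_lit 0) (nat_lit 0) (nat_lit 3) (nat_lit 4) (nat_lit 1) (nat_lit 125) r8_1 r0_125 (nat_lit 6920669) (nat_lit 6110955) (nat_lit 0) (nat_lit 0x5c1df8e8c) (nat_lit 1685132748),
  Rx.mk (nat_lit 193) (nat_lit 1) (nat_lit 0) (nat_lit 3) (nat_lit 5) (nat_lit 4) (nat_lit 128) r8_4 r0_128 (nat_lit 0) (nat_lit 7519074) (nat_lit 0) (nat_lit 0x7f790236e) (nat_lit 1090159298),
  Rx.mk (nat_lit 194) (nat_lit 2) (nat_lit 0) (nat_lit 3) (nat_lit 5) (nat_lit 7) (nat_lit 134) r8_7 r0_134 (nat_lit 0) (nat_lit 11254699) (nat_lit 0) (nat_lit 0x7f97706d4) (nat_lit 1091919323),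
  Rx.mk (nat_lit 210) (nat_lit 2) (nat_lit 2) (nat_lit 3) (nat_lit 7) (nat_lit 10) (nat_lit 137) r8_10 r0_137 (nat_lit 0) (nat_lit 0) (nat_lit 0) (nat_lit 0x80029938e) (nat_lit 1073741824),
  Rx.mk (nat_lit 216) (nat_lit 0) (nat_lit 3) (nat_lit 3) (nat_lit 6) (nat_lit 2) (nat_lit 126) r8_2 r0_126 (nat_lit 3304366) (nat_lit 0) (nat_lit 0) (nat_lit 0x7121ef044) (nat_lit 1325017390),
  Rx.mk (nat_lit 217) (nat_lit 1) (nat_lit 3) (nat_lit 3) (nat_lit 7) (nat_lit 5) (nat_lit 129) r8_5 r0_129 (nat_lit 0) (nat_lit 0) (nat_lit 0) (nat_lit 0x7ff585e22) (nat_lit 1074580824),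
  Rx.mk (nat_lit 218) (nat_lit 2) (nat_lit 3) (nat_lit 3) (nat_lit 7) (nat_lit 11) (nat_lit 135) r8_11 r0_135 (nat_lit 0) (nat_lit 0) (nat_lit 0) (nat_lit 0x7ff7f4f0a) (nat_lit 1074424424),
  Rx.mk (nat_lit 219) (nat_lit 3) (nat_lit 3) (nat_lit 3) (nat_lit 7) (nat_lit 14) (nat_lit 130) r8_14 r0_130 (nat_lit 0) (nat_lit 0) (nat_lit 0) (nat_lit 0x7fe8c0fac) (nat_lit 1075405124),
  Rx.mk (nat_lit 475) (nat_lit 3) (nat_lit 3) (nat_lit 7) (nat_lit 7) (nat_lit 13) (nat_lit 131) r8_13 r0_131 (nat_lit 0) (nat_lit 0) (nat_lit 0) (nat_lit 0x80000807a) (nat_lit 1073906424),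
  Rx.mk (nat_lit 507) (nat_lit 3) (nat_lit 7) (nat_lit 7) (nat_lit 7) (nat_lit 12) (nat_lit 132) r8_12 r0_132 (nat_lit 0) (nat_lit 0) (nat_lit 0) (nat_lit 0x7ffea679a) (nat_lit 1073995024)]
noncomputable def e15_1 : List Rx := [
  Rx.mk (nat_lit 0) (nat_lit 0) (nat_lit 0) (nat_lit 0) (nat_lit 0) (nat_lit 15) (nat_lit 131) r8_15 r1_131 (nat_lit 11926250) (nat_lit 81717872) (nat_lit 2913128) (nat_lit 0x48dac9494) (nat_lit 2089819574),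
  Rx.mk (nat_lit 1) (nat_lit 1) (nat_lit 0) (nat_lit 0) (nat_lit 1) (nat_lit 18) (nat_lit 134) r8_18 r1_134 (nat_lit 0) (nat_lit 172043056) (nat_lit 5603265) (nat_lit 0x79817c89c) (nat_lit 1359753945),
  Rx.mk (nat_lit 2) (nat_lit 2) (nat_lit 0) (nat_lit 0) (nat_lit 1) (nat_lit 21) (nat_lit 138) r8_21 r1_138 (nat_lit 0) (nat_lit 139970032) (nat_lit 4804096) (nat_lit 0x78866aa58) (nat_lit 1343234852),
  Rx.mk (nat_lit 18) (nat_lit 2) (nat_lit 2) (nat_lit 0) (nat_lit 3) (nat_lit 22) (nat_lit 139) r8_22 r1_139 (nat_lit 0) (nat_lit 0) (nat_lit 4861700) (nat_lit 0x7fe599e8c) (nat_lit 1080466924),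
  Rx.mk (nat_lit 146) (nat_lit 2) (nat_lit 2) (nat_lit 2) (nat_lit 7) (nat_lit 23) (nat_lit 140) r8_23 r1_140 (nat_lit 0) (nat_lit 0) (nat_lit 0) (nat_lit 0x80029938e) (nat_lit 1073741824),
  Rx.mk (nat_lit 192) (nat_lit 0) (nat_lit 0) (nat_lit 3) (nat_lit 4) (nat_lit 16) (nat_lit 132) r8_16 r1_132 (nat_lit 24476340) (nat_lit 45348310) (nat_lit 0) (nat_lit 0x716a0d466) (nat_lit 1386843574),
  Rx.mk (nat_lit 193) (nat_lit 1) (nat_lit 0) (nat_lit 3) (nat_lit 5) (nat_lit 19) (nat_lit 135) r8_19 r1_135 (nat_lit 0) (nat_lit 5449534) (nat_lit 0) (nat_lit 0x80029938e) (nat_lit 1079191358),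
  Rx.mk (nat_lit 216) (nat_lit 0) (nat_lit 3) (nat_lit 3) (nat_lit 6) (nat_lit 17) (nat_lit 133) r8_17 r1_133 (nat_lit 4792579) (nat_lit 0) (nat_lit 0) (nat_lit 0x7ff6a942a) (nat_lit 1079300103),
  Rx.mk (nat_lit 217) (nat_lit 1) (nat_lit 3) (nat_lit 3) (nat_lit 7) (nat_lit 20) (nat_lit 136) r8_20 r1_136 (nat_lit 0) (nat_lit 0) (nat_lit 0) (nat_lit 0x80029938e) (nat_lit 1073741824),
  Rx.mk (nat_lit 219) (nat_lit 3) (nat_lit 3) (nat_lit 3) (nat_lit 7) (nat_lit 24) (nat_lit 137) r8_24 r1_137 (nat_lit 0) (nat_lit 0) (nat_lit 0) (nat_lit 0x80029938e) (nat_lit 1073741824)]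
noncomputable def e15_2 : List Rx := [
  Rx.mk (nat_lit 0) (nat_lit 0) (nat_lit 0) (nat_lit 0) (nat_lit 0) (nat_lit 25) (nat_lit 119) r8_25 r2_119 (nat_lit 993709) (nat_lit 3308338) (nat_lit 1156022) (nat_lit 0x3dbd28666) (nat_lit 2184039993),
  Rx.mk (nat_lit 1) (nat_lit 1) (nat_lit 0) (nat_lit 0) (nat_lit 1) (nat_lit 30) (nat_lit 124) r8_30 r2_124 (nat_lit 0) (nat_lit 9407743) (nat_lit 14795548) (nat_lit 0x6e1ef5760) (nat_lit 1396127315),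
  Rx.mk (nat_lit 2) (nat_lit 2) (nat_lit 0) (nat_lit 0) (nat_lit 1) (nat_lit 35) (nat_lit 130) r8_35 r2_130 (nat_lit 0) (nat_lit 3132479) (nat_lit 8977988) (nat_lit 0x705befb3c) (nat_lit 1346715391),
  Rx.mk (nat_lit 18) (nat_lit 2) (nat_lit 2) (nat_lit 0) (nat_lit 3) (nat_lit 37) (nat_lit 134) r8_37 r2_134 (nat_lit 0) (nat_lit 0) (nat_lit 5449534) (nat_lit 0x80029938e) (nat_lit 1079191358),
  Rx.mk (nat_lit 24) (nat_lit 0) (nat_lit 3) (nat_lit 0) (nat_lit 2) (nat_lit 27) (nat_lit 121) r8_27 r2_121 (nat_lit 1896956) (nat_lit 0) (nat_lit 2433110) (nat_lit 0x6c3167f62) (nat_lit 1408391590),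
  Rx.mk (nat_lit 25) (nat_lit 1) (nat_lit 3) (nat_lit 0) (nat_lit 3) (nat_lit 32) (nat_lit 126) r8_32 r2_126 (nat_lit 0) (nat_lit 0) (nat_lit 5449534) (nat_lit 0x80029938e) (nat_lit 1079191358),
  Rx.mk (nat_lit 26) (nat_lit 2) (nat_lit 3) (nat_lit 0) (nat_lit 3) (nat_lit 40) (nat_lit 132) r8_40 r2_132 (nat_lit 0) (nat_lit 0) (nat_lit 5449534) (nat_lit 0x8001635b4) (nat_lit 1079268958),
  Rx.mk (nat_lit 64) (nat_lit 0) (nat_lit 0) (nat_lit 1) (nat_lit 4) (nat_lit 26) (nat_lit 120) r8_26 r2_120 (nat_lit 7095241) (nat_lit 9535202) (nat_lit 0) (nat_lit 0x62dbf9de0) (nat_lit 1576319567),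
  Rx.mk (nat_lit 65) (nat_lit 1) (nat_lit 0) (nat_lit 1) (nat_lit 5) (nat_lit 31) (nat_lit 125) r8_31 r2_125 (nat_lit 0) (nat_lit 5449534) (nat_lit 0) (nat_lit 0x80029938e) (nat_lit 1079191358),
  Rx.mk (nat_lit 66) (nat_lit 2) (nat_lit 0) (nat_lit 1) (nat_lit 5) (nat_lit 36) (nat_lit 131) r8_36 r2_131 (nat_lit 0) (nat_lit 5449534) (nat_lit 0) (nat_lit 0x80029938e) (nat_lit 1079191358),
  Rx.mk (nat_lit 82) (nat_lit 2) (nat_lit 2) (nat_lit 1) (nat_lit 7) (nat_lit 38) (nat_lit 135) r8_38 r2_135 (nat_lit 0) (nat_lit 0) (nat_lit 0) (nat_lit 0x80029938e) (nat_lit 1073741824),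
  Rx.mk (nat_lit 88) (nat_lit 0) (nat_lit 3) (nat_lit 1) (nat_lit 6) (nat_lit 28) (nat_lit 122) r8_28 r2_122 (nat_lit 5449534) (nat_lit 0) (nat_lit 0) (nat_lit 0x80029938e) (nat_lit 1079191358),
  Rx.mk (nat_lit 89) (nat_lit 1) (nat_lit 3) (nat_lit 1) (nat_lit 7) (nat_lit 33) (nat_lit 127) r8_33 r2_127 (nat_lit 0) (nat_lit 0) (nat_lit 0) (nat_lit 0x80029938e) (nat_lit 1073741824),
  Rx.mk (nat_lit 90) (nat_lit 2) (nat_lit 3) (nat_lit 1) (nat_lit 7) (nat_lit 41) (nat_lit 133) r8_41 r2_133 (nat_lit 0) (nat_lit 0) (nat_lit 0) (nat_lit 0x80029938e) (nat_lit 1073741824),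
  Rx.mk (nat_lit 146) (nat_lit 2) (nat_lit 2) (nat_lit 2) (nat_lit 7) (nat_lit 39) (nat_lit 136) r8_39 r2_136 (nat_lit 0) (nat_lit 0) (nat_lit 0) (nat_lit 0x80029938e) (nat_lit 1073741824),
  Rx.mk (nat_lit 216) (nat_lit 0) (nat_lit 3) (nat_lit 3) (nat_lit 6) (nat_lit 29) (nat_lit 123) r8_29 r2_123 (nat_lit 5449534) (nat_lit 0) (nat_lit 0) (nat_lit 0x800025e9a) (nat_lit 1079348458),
  Rx.mk (nat_lit 217) (nat_lit 1) (nat_lit 3) (nat_lit 3) (nat_lit 7) (nat_lit 34) (nat_lit 128) r8_34 r2_128 (nat_lit 0) (nat_lit 0) (nat_lit 0) (nat_lit 0x80029938e) (nat_lit 1073741824),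
  Rx.mk (nat_lit 219) (nat_lit 3) (nat_lit 3) (nat_lit 3) (nat_lit 7) (nat_lit 42) (nat_lit 129) r8_42 r2_129 (nat_lit 0) (nat_lit 0) (nat_lit 0) (nat_lit 0x80029938e) (nat_lit 1073741824)]
noncomputable def e15_3 : List Rx := [
  Rx.mk (nat_lit 472) (nat_lit 0) (nat_lit 3) (nat_lit 7) (nat_lit 6) (nat_lit 43) (nat_lit 115) r8_43 r3_115 (nat_lit 265194) (nat_lit 0) (nat_lit 0) (nat_lit 0x80289589e) (nat_lit 1071507018),
  Rx.mk (nat_lit 473) (nat_lit 1) (nat_lit 3) (nat_lit 7) (nat_lit 7) (nat_lit 44) (nat_lit 116) r8_44 r3_116 (nat_lit 0) (nat_lit 0) (nat_lit 0) (nat_lit 0x85a4c7912) (nat_lit 982561124),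
  Rx.mk (nat_lit 475) (nat_lit 3) (nat_lit 3) (nat_lit 7) (nat_lit 7) (nat_lit 46) (nat_lit 117) r8_46 r3_117 (nat_lit 0) (nat_lit 0) (nat_lit 0) (nat_lit 0x80029938e) (nat_lit 1073741824),
  Rx.mk (nat_lit 507) (nat_lit 3) (nat_lit 7) (nat_lit 7) (nat_lit 7) (nat_lit 45) (nat_lit 118) r8_45 r3_118 (nat_lit 0) (nat_lit 0) (nat_lit 0) (nat_lit 0x80217ebb4) (nat_lit 1071767324)]
noncomputable def e15_4 : List Rx := [
  Rx.mk (nat_lit 192) (nat_lit 0) (nat_lit 0) (nat_lit 3) (nat_lit 4) (nat_lit 47) (nat_lit 114) r8_47 r4_114 (nat_lit 9446528) (nat_lit 8571815) (nat_lit 0) (nat_lit 0x6c370d6e2) (nat_lit 1421722967),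
  Rx.mk (nat_lit 193) (nat_lit 1) (nat_lit 0) (nat_lit 3) (nat_lit 5) (nat_lit 50) (nat_lit 117) r8_50 r4_117 (nat_lit 0) (nat_lit 5449534) (nat_lit 0) (nat_lit 0x80029938e) (nat_lit 1079191358),
  Rx.mk (nat_lit 194) (nat_lit 2) (nat_lit 0) (nat_lit 3) (nat_lit 5) (nat_lit 53) (nat_lit 122) r8_53 r4_122 (nat_lit 0) (nat_lit 5449534) (nat_lit 0) (nat_lit 0x80029938e) (nat_lit 1079191358),
  Rx.mk (nat_lit 210) (nat_lit 2) (nat_lit 2) (nat_lit 3) (nat_lit 7) (nat_lit 54) (nat_lit 124) r8_54 r4_124 (nat_lit 0) (nat_lit 0) (nat_lit 0) (nat_lit 0x80029938e) (nat_lit 1073741824),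
  Rx.mk (nat_lit 216) (nat_lit 0) (nat_lit 3) (nat_lit 3) (nat_lit 6) (nat_lit 49) (nat_lit 115) r8_49 r4_115 (nat_lit 3225500) (nat_lit 0) (nat_lit 0) (nat_lit 0x7ffacb274) (nat_lit 1077464224),
  Rx.mk (nat_lit 217) (nat_lit 1) (nat_lit 3) (nat_lit 3) (nat_lit 7) (nat_lit 52) (nat_lit 118) r8_52 r4_118 (nat_lit 0) (nat_lit 0) (nat_lit 0) (nat_lit 0x802937ce8) (nat_lit 1071271324),
  Rx.mk (nat_lit 218) (nat_lit 2) (nat_lit 3) (nat_lit 3) (nat_lit 7) (nat_lit 55) (nat_lit 123) r8_55 r4_123 (nat_lit 0) (nat_lit 0) (nat_lit 0) (nat_lit 0x802937ce8) (nat_lit 1071271324),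
  Rx.mk (nat_lit 472) (nat_lit 0) (nat_lit 3) (nat_lit 7) (nat_lit 6) (nat_lit 48) (nat_lit 116) r8_48 r4_116 (nat_lit 3917153) (nat_lit 0) (nat_lit 0) (nat_lit 0x801c7137e) (nat_lit 1076004277),
  Rx.mk (nat_lit 473) (nat_lit 1) (nat_lit 3) (nat_lit 7) (nat_lit 7) (nat_lit 51) (nat_lit 119) r8_51 r4_119 (nat_lit 0) (nat_lit 0) (nat_lit 0) (nat_lit 0x800f1e8de) (nat_lit 1072939424),
  Rx.mk (nat_lit 475) (nat_lit 3) (nat_lit 3) (nat_lit 7) (nat_lit 7) (nat_lit 57) (nat_lit 120) r8_57 r4_120 (nat_lit 0) (nat_lit 0) (nat_lit 0) (nat_lit 0x80029938e) (nat_lit 1073741824),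
  Rx.mk (nat_lit 507) (nat_lit 3) (nat_lit 7) (nat_lit 7) (nat_lit 7) (nat_lit 56) (nat_lit 121) r8_56 r4_121 (nat_lit 0) (nat_lit 0) (nat_lit 0) (nat_lit 0x80029938e) (nat_lit 1073741824)]
noncomputable def e15_5 : List Rx := [
  Rx.mk (nat_lit 472) (nat_lit 0) (nat_lit 3) (nat_lit 7) (nat_lit 6) (nat_lit 58) (nat_lit 115) r8_58 r5_115 (nat_lit 3122645) (nat_lit 0) (nat_lit 0) (nat_lit 0x801abea22) (nat_lit 1075316369),
  Rx.mk (nat_lit 473) (nat_lit 1) (nat_lit 3) (nat_lit 7) (nat_lit 7) (nat_lit 59) (nat_lit 116) r8_59 r5_116 (nat_lit 0) (nat_lit 0) (nat_lit 0) (nat_lit 0x8019963ca) (nat_lit 1072269624),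
  Rx.mk (nat_lit 475) (nat_lit 3) (nat_lit 3) (nat_lit 7) (nat_lit 7) (nat_lit 60) (nat_lit 117) r8_60 r5_117 (nat_lit 0) (nat_lit 0) (nat_lit 0) (nat_lit 0x80029938e) (nat_lit 1073741824)]
noncomputable def e15_6 : List Rx := [
  Rx.mk (nat_lit 321) (nat_lit 1) (nat_lit 0) (nat_lit 5) (nat_lit 5) (nat_lit 61) (nat_lit 171) r8_61 r3_171 (nat_lit 0) (nat_lit 1085431) (nat_lit 0) (nat_lit 0x787261944) (nat_lit 1200822755),
  Rx.mk (nat_lit 345) (nat_lit 1) (nat_lit 3) (nat_lit 5) (nat_lit 7) (nat_lit 62) (nat_lit 172) r8_62 r3_172 (nat_lit 0) (nat_lit 0) (nat_lit 0) (nat_lit 0x954b78356) (nat_lit 729459824)]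
noncomputable def e15_7 : List Rx := [
  Rx.mk (nat_lit 65) (nat_lit 1) (nat_lit 0) (nat_lit 1) (nat_lit 5) (nat_lit 64) (nat_lit 186) r8_64 r0_186 (nat_lit 0) (nat_lit 4721594) (nat_lit 0) (nat_lit 0x7cb5a7826) (nat_lit 1133415918),
  Rx.mk (nat_lit 89) (nat_lit 1) (nat_lit 3) (nat_lit 1) (nat_lit 7) (nat_lit 65) (nat_lit 187) r8_65 r0_187 (nat_lit 0) (nat_lit 0) (nat_lit 0) (nat_lit 0x801bc7158) (nat_lit 1072128324),
  Rx.mk (nat_lit 321) (nat_lit 1) (nat_lit 0) (nat_lit 5) (nat_lit 5) (nat_lit 63) (nat_lit 185) r8_63 r0_185 (nat_lit 0) (nat_lit 3657848) (nat_lit 0) (nat_lit 0x7a789dc8e) (nat_lit 1169663972)]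
noncomputable def e15_8 : List Rx := [
  Rx.mk (nat_lit 65) (nat_lit 1) (nat_lit 0) (nat_lit 1) (nat_lit 5) (nat_lit 66) (nat_lit 199) r8_66 r1_199 (nat_lit 0) (nat_lit 5449534) (nat_lit 0) (nat_lit 0x7fdc2270a) (nat_lit 1081666058),
  Rx.mk (nat_lit 89) (nat_lit 1) (nat_lit 3) (nat_lit 1) (nat_lit 7) (nat_lit 67) (nat_lit 200) r8_67 r1_200 (nat_lit 0) (nat_lit 0) (nat_lit 0) (nat_lit 0x80029938e) (nat_lit 1073741824)]
noncomputable def e15_9 : List Rx := [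
  Rx.mk (nat_lit 89) (nat_lit 1) (nat_lit 3) (nat_lit 1) (nat_lit 7) (nat_lit 70) (nat_lit 176) r8_70 r4_176 (nat_lit 0) (nat_lit 0) (nat_lit 0) (nat_lit 0x80029938e) (nat_lit 1073741824),
  Rx.mk (nat_lit 321) (nat_lit 1) (nat_lit 0) (nat_lit 5) (nat_lit 5) (nat_lit 68) (nat_lit 174) r8_68 r4_174 (nat_lit 0) (nat_lit 4037317) (nat_lit 0) (nat_lit 0x80012bc36) (nat_lit 1077868841),
  Rx.mk (nat_lit 345) (nat_lit 1) (nat_lit 3) (nat_lit 5) (nat_lit 7) (nat_lit 69) (nat_lit 175) r8_69 r4_175 (nat_lit 0) (nat_lit 0) (nat_lit 0) (nat_lit 0x80293ab46) (nat_lit 1071270624)]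
noncomputable def e15_10 : List Rx := [
  Rx.mk (nat_lit 281) (nat_lit 1) (nat_lit 3) (nat_lit 4) (nat_lit 3) (nat_lit 71) (nat_lit 119) r8_71 r6_119 (nat_lit 0) (nat_lit 0) (nat_lit 1883603) (nat_lit 0x8036af1e6) (nat_lit 1072289527),
  Rx.mk (nat_lit 345) (nat_lit 1) (nat_lit 3) (nat_lit 5) (nat_lit 7) (nat_lit 72) (nat_lit 120) r8_72 r6_120 (nat_lit 0) (nat_lit 0) (nat_lit 0) (nat_lit 0x8037bf9e6) (nat_lit 1070345324),
  Rx.mk (nat_lit 473) (nat_lit 1) (nat_lit 3) (nat_lit 7) (nat_lit 7) (nat_lit 73) (nat_lit 121) r8_73 r6_121 (nat_lit 0) (nat_lit 0) (nat_lit 0) (nat_lit 0x804b0c5b2) (nat_lit 1069117724)]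
noncomputable def e15_11 : List Rx := [
  Rx.mk (nat_lit 321) (nat_lit 1) (nat_lit 0) (nat_lit 5) (nat_lit 5) (nat_lit 74) (nat_lit 189) r8_74 r5_189 (nat_lit 0) (nat_lit 4548292) (nat_lit 0) (nat_lit 0x801151fac) (nat_lit 1077347316),
  Rx.mk (nat_lit 345) (nat_lit 1) (nat_lit 3) (nat_lit 5) (nat_lit 7) (nat_lit 75) (nat_lit 190) r8_75 r5_190 (nat_lit 0) (nat_lit 0) (nat_lit 0) (nat_lit 0x802981c80) (nat_lit 1071252824)]
noncomputable def e15_12 : List Rx := [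
  Rx.mk (nat_lit 475) (nat_lit 3) (nat_lit 3) (nat_lit 7) (nat_lit 7) (nat_lit 77) (nat_lit 140) r8_77 r0_140 (nat_lit 0) (nat_lit 0) (nat_lit 0) (nat_lit 0x7ffc024da) (nat_lit 1074164524),
  Rx.mk (nat_lit 507) (nat_lit 3) (nat_lit 7) (nat_lit 7) (nat_lit 7) (nat_lit 76) (nat_lit 139) r8_76 r0_139 (nat_lit 0) (nat_lit 0) (nat_lit 0) (nat_lit 0x80000a14a) (nat_lit 1073905924)]
noncomputable def e15_13 : List Rx := [
  Rx.mk (nat_lit 0) (nat_lit 0) (nat_lit 0) (nat_lit 0) (nat_lit 0) (nat_lit 78) (nat_lit 136) r8_78 r7_136 (nat_lit 3697174) (nat_lit 9910720) (nat_lit 3078217) (nat_lit 0x365589f52) (nat_lit 2318735535),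
  Rx.mk (nat_lit 2) (nat_lit 2) (nat_lit 0) (nat_lit 0) (nat_lit 1) (nat_lit 81) (nat_lit 142) r8_81 r7_142 (nat_lit 0) (nat_lit 2289832) (nat_lit 2813309) (nat_lit 0x6a26a4636) (nat_lit 1443213565),
  Rx.mk (nat_lit 18) (nat_lit 2) (nat_lit 2) (nat_lit 0) (nat_lit 3) (nat_lit 83) (nat_lit 145) r8_83 r7_145 (nat_lit 0) (nat_lit 0) (nat_lit 5449534) (nat_lit 0x7ffa30abc) (nat_lit 1079730858),
  Rx.mk (nat_lit 146) (nat_lit 2) (nat_lit 2) (nat_lit 2) (nat_lit 7) (nat_lit 84) (nat_lit 147) r8_84 r7_147 (nat_lit 0) (nat_lit 0) (nat_lit 0) (nat_lit 0x80029938e) (nat_lit 1073741824),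
  Rx.mk (nat_lit 192) (nat_lit 0) (nat_lit 0) (nat_lit 3) (nat_lit 4) (nat_lit 79) (nat_lit 137) r8_79 r7_137 (nat_lit 5820576) (nat_lit 5833776) (nat_lit 0) (nat_lit 0x62f217bb8) (nat_lit 1569901976),
  Rx.mk (nat_lit 194) (nat_lit 2) (nat_lit 0) (nat_lit 3) (nat_lit 5) (nat_lit 82) (nat_lit 143) r8_82 r7_143 (nat_lit 0) (nat_lit 5449534) (nat_lit 0) (nat_lit 0x7ffb2a422) (nat_lit 1079668258),
  Rx.mk (nat_lit 210) (nat_lit 2) (nat_lit 2) (nat_lit 3) (nat_lit 7) (nat_lit 85) (nat_lit 146) r8_85 r7_146 (nat_lit 0) (nat_lit 0) (nat_lit 0) (nat_lit 0x80029938e) (nat_lit 1073741824),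
  Rx.mk (nat_lit 216) (nat_lit 0) (nat_lit 3) (nat_lit 3) (nat_lit 6) (nat_lit 80) (nat_lit 138) r8_80 r7_138 (nat_lit 3594568) (nat_lit 0) (nat_lit 0) (nat_lit 0x7ff2cfe44) (nat_lit 1078347292),
  Rx.mk (nat_lit 218) (nat_lit 2) (nat_lit 3) (nat_lit 3) (nat_lit 7) (nat_lit 86) (nat_lit 144) r8_86 r7_144 (nat_lit 0) (nat_lit 0) (nat_lit 0) (nat_lit 0x80029938e) (nat_lit 1073741824),
  Rx.mk (nat_lit 219) (nat_lit 3) (nat_lit 3) (nat_lit 3) (nat_lit 7) (nat_lit 89) (nat_lit 139) r8_89 r7_139 (nat_lit 0) (nat_lit 0) (nat_lit 0) (nat_lit 0x80029938e) (nat_lit 1073741824),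
  Rx.mk (nat_lit 475) (nat_lit 3) (nat_lit 3) (nat_lit 7) (nat_lit 7) (nat_lit 88) (nat_lit 140) r8_88 r7_140 (nat_lit 0) (nat_lit 0) (nat_lit 0) (nat_lit 0x80029938e) (nat_lit 1073741824),
  Rx.mk (nat_lit 507) (nat_lit 3) (nat_lit 7) (nat_lit 7) (nat_lit 7) (nat_lit 87) (nat_lit 141) r8_87 r7_141 (nat_lit 0) (nat_lit 0) (nat_lit 0) (nat_lit 0x80029938e) (nat_lit 1073741824)]
noncomputable def e15_14 : List Rx := [
  Rx.mk (nat_lit 292) (nat_lit 4) (nat_lit 4) (nat_lit 4) (nat_lit 0) (nat_lit 90) (nat_lit 141) r8_90 r1_141 (nat_lit 2925567) (nat_lit 12959764) (nat_lit 6586378) (nat_lit 0x3ec2fab92) (nat_lit 2184013933),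
  Rx.mk (nat_lit 295) (nat_lit 7) (nat_lit 4) (nat_lit 4) (nat_lit 1) (nat_lit 94) (nat_lit 142) r8_94 r1_142 (nat_lit 0) (nat_lit 30884831) (nat_lit 12510015) (nat_lit 0x700bf15a4) (nat_lit 1383215470),
  Rx.mk (nat_lit 319) (nat_lit 7) (nat_lit 7) (nat_lit 4) (nat_lit 3) (nat_lit 97) (nat_lit 143) r8_97 r1_143 (nat_lit 0) (nat_lit 0) (nat_lit 5544217) (nat_lit 0x7ffe8daa6) (nat_lit 1079545441),
  Rx.mk (nat_lit 420) (nat_lit 4) (nat_lit 4) (nat_lit 6) (nat_lit 4) (nat_lit 91) (nat_lit 147) r8_91 r1_147 (nat_lit 3013316) (nat_lit 10554535) (nat_lit 0) (nat_lit 0x606b0776a) (nat_lit 1613957075),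
  Rx.mk (nat_lit 423) (nat_lit 7) (nat_lit 4) (nat_lit 6) (nat_lit 5) (nat_lit 95) (nat_lit 148) r8_95 r1_148 (nat_lit 0) (nat_lit 5449534) (nat_lit 0) (nat_lit 0x80029938e) (nat_lit 1079191358),
  Rx.mk (nat_lit 436) (nat_lit 4) (nat_lit 6) (nat_lit 6) (nat_lit 6) (nat_lit 92) (nat_lit 150) r8_92 r1_150 (nat_lit 4371124) (nat_lit 0) (nat_lit 0) (nat_lit 0x7f9613cdc) (nat_lit 1085125348),
  Rx.mk (nat_lit 438) (nat_lit 6) (nat_lit 6) (nat_lit 6) (nat_lit 7) (nat_lit 93) (nat_lit 152) r8_93 r1_152 (nat_lit 0) (nat_lit 0) (nat_lit 0) (nat_lit 0x80029938e) (nat_lit 1073741824),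
  Rx.mk (nat_lit 439) (nat_lit 7) (nat_lit 6) (nat_lit 6) (nat_lit 7) (nat_lit 96) (nat_lit 151) r8_96 r1_151 (nat_lit 0) (nat_lit 0) (nat_lit 0) (nat_lit 0x80029938e) (nat_lit 1073741824),
  Rx.mk (nat_lit 447) (nat_lit 7) (nat_lit 7) (nat_lit 6) (nat_lit 7) (nat_lit 98) (nat_lit 149) r8_98 r1_149 (nat_lit 0) (nat_lit 0) (nat_lit 0) (nat_lit 0x80029938e) (nat_lit 1073741824),
  Rx.mk (nat_lit 475) (nat_lit 3) (nat_lit 3) (nat_lit 7) (nat_lit 7) (nat_lit 101) (nat_lit 146) r8_101 r1_146 (nat_lit 0) (nat_lit 0) (nat_lit 0) (nat_lit 0x80029938e) (nat_lit 1073741824),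
  Rx.mk (nat_lit 507) (nat_lit 3) (nat_lit 7) (nat_lit 7) (nat_lit 7) (nat_lit 100) (nat_lit 145) r8_100 r1_145 (nat_lit 0) (nat_lit 0) (nat_lit 0) (nat_lit 0x80029938e) (nat_lit 1073741824),
  Rx.mk (nat_lit 511) (nat_lit 7) (nat_lit 7) (nat_lit 7) (nat_lit 7) (nat_lit 99) (nat_lit 144) r8_99 r1_144 (nat_lit 0) (nat_lit 0) (nat_lit 0) (nat_lit 0x80029938e) (nat_lit 1073741824)]
noncomputable def e15_15 : List Rx := [
  Rx.mk (nat_lit 0) (nat_lit 0) (nat_lit 0) (nat_lit 0) (nat_lit 0) (nat_lit 114) (nat_lit 102) r8_114 r8_102 (nat_lit 3167351) (nat_lit 7669699) (nat_lit 3541864) (nat_lit 0x3c2eed62c) (nat_lit 2218909038),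
  Rx.mk (nat_lit 2) (nat_lit 2) (nat_lit 0) (nat_lit 0) (nat_lit 1) (nat_lit 117) (nat_lit 108) r8_117 r8_108 (nat_lit 0) (nat_lit 570904) (nat_lit 600781) (nat_lit 0x6f7ab234a) (nat_lit 1350424009),
  Rx.mk (nat_lit 18) (nat_lit 2) (nat_lit 2) (nat_lit 0) (nat_lit 3) (nat_lit 119) (nat_lit 111) r8_119 r8_111 (nat_lit 0) (nat_lit 0) (nat_lit 5449534) (nat_lit 0x7ff50b064) (nat_lit 1080061658),
  Rx.mk (nat_lit 146) (nat_lit 2) (nat_lit 2) (nat_lit 2) (nat_lit 7) (nat_lit 120) (nat_lit 113) r8_120 r8_113 (nat_lit 0) (nat_lit 0) (nat_lit 0) (nat_lit 0x80029938e) (nat_lit 1073741824),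
  Rx.mk (nat_lit 150) (nat_lit 6) (nat_lit 2) (nat_lit 2) (nat_lit 7) (nat_lit 107) (nat_lit 123) r8_107 r8_123 (nat_lit 0) (nat_lit 0) (nat_lit 0) (nat_lit 0x80029938e) (nat_lit 1073741824),
  Rx.mk (nat_lit 182) (nat_lit 6) (nat_lit 6) (nat_lit 2) (nat_lit 7) (nat_lit 106) (nat_lit 124) r8_106 r8_124 (nat_lit 0) (nat_lit 0) (nat_lit 0) (nat_lit 0x80029938e) (nat_lit 1073741824),
  Rx.mk (nat_lit 192) (nat_lit 0) (nat_lit 0) (nat_lit 3) (nat_lit 4) (nat_lit 115) (nat_lit 103) r8_115 r8_103 (nat_lit 5260690) (nat_lit 4749179) (nat_lit 0) (nat_lit 0x67a0009ec) (nat_lit 1490238693),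
  Rx.mk (nat_lit 194) (nat_lit 2) (nat_lit 0) (nat_lit 3) (nat_lit 5) (nat_lit 118) (nat_lit 109) r8_118 r8_109 (nat_lit 0) (nat_lit 5031568) (nat_lit 0) (nat_lit 0x7ff22df90) (nat_lit 1079827992),
  Rx.mk (nat_lit 210) (nat_lit 2) (nat_lit 2) (nat_lit 3) (nat_lit 7) (nat_lit 121) (nat_lit 112) r8_121 r8_112 (nat_lit 0) (nat_lit 0) (nat_lit 0) (nat_lit 0x80029938e) (nat_lit 1073741824),
  Rx.mk (nat_lit 216) (nat_lit 0) (nat_lit 3) (nat_lit 3) (nat_lit 6) (nat_lit 116) (nat_lit 104) r8_116 r8_104 (nat_lit 5449534) (nat_lit 0) (nat_lit 0) (nat_lit 0x7ff093d10) (nat_lit 1080349458),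
  Rx.mk (nat_lit 218) (nat_lit 2) (nat_lit 3) (nat_lit 3) (nat_lit 7) (nat_lit 122) (nat_lit 110) r8_122 r8_110 (nat_lit 0) (nat_lit 0) (nat_lit 0) (nat_lit 0x80029938e) (nat_lit 1073741824),
  Rx.mk (nat_lit 219) (nat_lit 3) (nat_lit 3) (nat_lit 3) (nat_lit 7) (nat_lit 125) (nat_lit 105) r8_125 r8_105 (nat_lit 0) (nat_lit 0) (nat_lit 0) (nat_lit 0x80029938e) (nat_lit 1073741824),
  Rx.mk (nat_lit 292) (nat_lit 4) (nat_lit 4) (nat_lit 4) (nat_lit 0) (nat_lit 102) (nat_lit 114) r8_102 r8_114 (nat_lit 3167351) (nat_lit 7669699) (nat_lit 3541864) (nat_lit 0x3c2eed62c) (nat_lit 2218909038),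
  Rx.mk (nat_lit 295) (nat_lit 7) (nat_lit 4) (nat_lit 4) (nat_lit 1) (nat_lit 108) (nat_lit 117) r8_108 r8_117 (nat_lit 0) (nat_lit 570904) (nat_lit 600781) (nat_lit 0x6f7ab234a) (nat_lit 1350424009),
  Rx.mk (nat_lit 319) (nat_lit 7) (nat_lit 7) (nat_lit 4) (nat_lit 3) (nat_lit 111) (nat_lit 119) r8_111 r8_119 (nat_lit 0) (nat_lit 0) (nat_lit 5449534) (nat_lit 0x7ff50b064) (nat_lit 1080061658),
  Rx.mk (nat_lit 420) (nat_lit 4) (nat_lit 4) (nat_lit 6) (nat_lit 4) (nat_lit 103) (nat_lit 115) r8_103 r8_115 (nat_lit 5260690) (nat_lit 4749179) (nat_lit 0) (nat_lit 0x67a0009ec) (nat_lit 1490238693),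
  Rx.mk (nat_lit 423) (nat_lit 7) (nat_lit 4) (nat_lit 6) (nat_lit 5) (nat_lit 109) (nat_lit 118) r8_109 r8_118 (nat_lit 0) (nat_lit 5031568) (nat_lit 0) (nat_lit 0x7ff22df90) (nat_lit 1079827992),
  Rx.mk (nat_lit 436) (nat_lit 4) (nat_lit 6) (nat_lit 6) (nat_lit 6) (nat_lit 104) (nat_lit 116) r8_104 r8_116 (nat_lit 5449534) (nat_lit 0) (nat_lit 0) (nat_lit 0x7ff093d10) (nat_lit 1080349458),
  Rx.mk (nat_lit 438) (nat_lit 6) (nat_lit 6) (nat_lit 6) (nat_lit 7) (nat_lit 105) (nat_lit 125) r8_105 r8_125 (nat_lit 0) (nat_lit 0) (nat_lit 0) (nat_lit 0x80029938e) (nat_lit 1073741824),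
  Rx.mk (nat_lit 439) (nat_lit 7) (nat_lit 6) (nat_lit 6) (nat_lit 7) (nat_lit 110) (nat_lit 122) r8_110 r8_122 (nat_lit 0) (nat_lit 0) (nat_lit 0) (nat_lit 0x80029938e) (nat_lit 1073741824),
  Rx.mk (nat_lit 447) (nat_lit 7) (nat_lit 7) (nat_lit 6) (nat_lit 7) (nat_lit 112) (nat_lit 121) r8_112 r8_121 (nat_lit 0) (nat_lit 0) (nat_lit 0) (nat_lit 0x80029938e) (nat_lit 1073741824),
  Rx.mk (nat_lit 475) (nat_lit 3) (nat_lit 3) (nat_lit 7) (nat_lit 7) (nat_lit 124) (nat_lit 106) r8_124 r8_106 (nat_lit 0) (nat_lit 0) (nat_lit 0) (nat_lit 0x80029938e) (nat_lit 1073741824),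
  Rx.mk (nat_lit 507) (nat_lit 3) (nat_lit 7) (nat_lit 7) (nat_lit 7) (nat_lit 123) (nat_lit 107) r8_123 r8_107 (nat_lit 0) (nat_lit 0) (nat_lit 0) (nat_lit 0x80029938e) (nat_lit 1073741824),
  Rx.mk (nat_lit 511) (nat_lit 7) (nat_lit 7) (nat_lit 7) (nat_lit 7) (nat_lit 113) (nat_lit 120) r8_113 r8_120 (nat_lit 0) (nat_lit 0) (nat_lit 0) (nat_lit 0x80029938e) (nat_lit 1073741824)]
noncomputable def e15_16 : List Rx := [
  Rx.mk (nat_lit 0) (nat_lit 0) (nat_lit 0) (nat_lit 0) (nat_lit 0) (nat_lit 126) (nat_lit 126) r8_126 r8_126 (nat_lit 5773073) (nat_lit 65670969) (nat_lit 5773073) (nat_lit 0x424175d8e) (nat_lit 2180503739),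
  Rx.mk (nat_lit 2) (nat_lit 2) (nat_lit 0) (nat_lit 0) (nat_lit 1) (nat_lit 129) (nat_lit 127) r8_129 r8_127 (nat_lit 0) (nat_lit 4551188) (nat_lit 4933327) (nat_lit 0x6bd606ea2) (nat_lit 1419502739),
  Rx.mk (nat_lit 18) (nat_lit 2) (nat_lit 2) (nat_lit 0) (nat_lit 3) (nat_lit 130) (nat_lit 128) r8_130 r8_128 (nat_lit 0) (nat_lit 0) (nat_lit 5449534) (nat_lit 0x80029938e) (nat_lit 1079191358),
  Rx.mk (nat_lit 146) (nat_lit 2) (nat_lit 2) (nat_lit 2) (nat_lit 7) (nat_lit 131) (nat_lit 132) r8_131 r8_132 (nat_lit 0) (nat_lit 0) (nat_lit 0) (nat_lit 0x80029938e) (nat_lit 1073741824),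
  Rx.mk (nat_lit 192) (nat_lit 0) (nat_lit 0) (nat_lit 3) (nat_lit 4) (nat_lit 127) (nat_lit 129) r8_127 r8_129 (nat_lit 4933327) (nat_lit 4551188) (nat_lit 0) (nat_lit 0x6bd606ea2) (nat_lit 1419502739),
  Rx.mk (nat_lit 216) (nat_lit 0) (nat_lit 3) (nat_lit 3) (nat_lit 6) (nat_lit 128) (nat_lit 130) r8_128 r8_130 (nat_lit 5449534) (nat_lit 0) (nat_lit 0) (nat_lit 0x80029938e) (nat_lit 1079191358),
  Rx.mk (nat_lit 219) (nat_lit 3) (nat_lit 3) (nat_lit 3) (nat_lit 7) (nat_lit 132) (nat_lit 131) r8_132 r8_131 (nat_lit 0) (nat_lit 0) (nat_lit 0) (nat_lit 0x80029938e) (nat_lit 1073741824)]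
noncomputable def e15_17 : List Rx := [
  Rx.mk (nat_lit 0) (nat_lit 0) (nat_lit 0) (nat_lit 0) (nat_lit 0) (nat_lit 133) (nat_lit 86) r8_133 r9_86 (nat_lit 3458182) (nat_lit 67809161) (nat_lit 5464222) (nat_lit 0x3d69a35d6) (nat_lit 2260766689),
  Rx.mk (nat_lit 2) (nat_lit 2) (nat_lit 0) (nat_lit 0) (nat_lit 1) (nat_lit 138) (nat_lit 92) r8_138 r9_92 (nat_lit 0) (nat_lit 4176648) (nat_lit 7704862) (nat_lit 0x6d546e2f8) (nat_lit 1396994434),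
  Rx.mk (nat_lit 18) (nat_lit 2) (nat_lit 2) (nat_lit 0) (nat_lit 3) (nat_lit 140) (nat_lit 96) r8_140 r9_96 (nat_lit 0) (nat_lit 0) (nat_lit 5449534) (nat_lit 0x80029938e) (nat_lit 1079191358),
  Rx.mk (nat_lit 24) (nat_lit 0) (nat_lit 3) (nat_lit 0) (nat_lit 2) (nat_lit 135) (nat_lit 88) r8_135 r9_88 (nat_lit 6919696) (nat_lit 0) (nat_lit 6297923) (nat_lit 0x6f394a1f0) (nat_lit 1366753143),
  Rx.mk (nat_lit 26) (nat_lit 2) (nat_lit 3) (nat_lit 0) (nat_lit 3) (nat_lit 143) (nat_lit 94) r8_143 r9_94 (nat_lit 0) (nat_lit 0) (nat_lit 5449534) (nat_lit 0x80029938e) (nat_lit 1079191358),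
  Rx.mk (nat_lit 64) (nat_lit 0) (nat_lit 0) (nat_lit 1) (nat_lit 4) (nat_lit 134) (nat_lit 87) r8_134 r9_87 (nat_lit 9618943) (nat_lit 38723310) (nat_lit 0) (nat_lit 0x6bfe9de7e) (nat_lit 1455718977),
  Rx.mk (nat_lit 66) (nat_lit 2) (nat_lit 0) (nat_lit 1) (nat_lit 5) (nat_lit 139) (nat_lit 93) r8_139 r9_93 (nat_lit 0) (nat_lit 5449534) (nat_lit 0) (nat_lit 0x80029938e) (nat_lit 1079191358),
  Rx.mk (nat_lit 82) (nat_lit 2) (nat_lit 2) (nat_lit 1) (nat_lit 7) (nat_lit 141) (nat_lit 97) r8_141 r9_97 (nat_lit 0) (nat_lit 0) (nat_lit 0) (nat_lit 0x80029938e) (nat_lit 1073741824),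
  Rx.mk (nat_lit 88) (nat_lit 0) (nat_lit 3) (nat_lit 1) (nat_lit 6) (nat_lit 136) (nat_lit 89) r8_136 r9_89 (nat_lit 5449534) (nat_lit 0) (nat_lit 0) (nat_lit 0x80029938e) (nat_lit 1079191358),
  Rx.mk (nat_lit 90) (nat_lit 2) (nat_lit 3) (nat_lit 1) (nat_lit 7) (nat_lit 144) (nat_lit 95) r8_144 r9_95 (nat_lit 0) (nat_lit 0) (nat_lit 0) (nat_lit 0x80029938e) (nat_lit 1073741824),
  Rx.mk (nat_lit 146) (nat_lit 2) (nat_lit 2) (nat_lit 2) (nat_lit 7) (nat_lit 142) (nat_lit 98) r8_142 r9_98 (nat_lit 0) (nat_lit 0) (nat_lit 0) (nat_lit 0x80029938e) (nat_lit 1073741824),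
  Rx.mk (nat_lit 216) (nat_lit 0) (nat_lit 3) (nat_lit 3) (nat_lit 6) (nat_lit 137) (nat_lit 90) r8_137 r9_90 (nat_lit 5449534) (nat_lit 0) (nat_lit 0) (nat_lit 0x80029938e) (nat_lit 1079191358),
  Rx.mk (nat_lit 219) (nat_lit 3) (nat_lit 3) (nat_lit 3) (nat_lit 7) (nat_lit 145) (nat_lit 91) r8_145 r9_91 (nat_lit 0) (nat_lit 0) (nat_lit 0) (nat_lit 0x80029938e) (nat_lit 1073741824)]
noncomputable def e15_18 : List Rx := [
  Rx.mk (nat_lit 472) (nat_lit 0) (nat_lit 3) (nat_lit 7) (nat_lit 6) (nat_lit 146) (nat_lit 126) r8_146 r4_126 (nat_lit 5673761) (nat_lit 0) (nat_lit 0) (nat_lit 0x7fec63c5e) (nat_lit 1080842585),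
  Rx.mk (nat_lit 475) (nat_lit 3) (nat_lit 3) (nat_lit 7) (nat_lit 7) (nat_lit 148) (nat_lit 127) r8_148 r4_127 (nat_lit 0) (nat_lit 0) (nat_lit 0) (nat_lit 0x80029938e) (nat_lit 1073741824),
  Rx.mk (nat_lit 507) (nat_lit 3) (nat_lit 7) (nat_lit 7) (nat_lit 7) (nat_lit 147) (nat_lit 125) r8_147 r4_125 (nat_lit 0) (nat_lit 0) (nat_lit 0) (nat_lit 0x80029938e) (nat_lit 1073741824)]
noncomputable def e15_19 : List Rx := [
  Rx.mk (nat_lit 192) (nat_lit 0) (nat_lit 0) (nat_lit 3) (nat_lit 4) (nat_lit 149) (nat_lit 101) r8_149 r10_101 (nat_lit 5127106) (nat_lit 6554309) (nat_lit 0) (nat_lit 0x6a304083e) (nat_lit 1449170039),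
  Rx.mk (nat_lit 194) (nat_lit 2) (nat_lit 0) (nat_lit 3) (nat_lit 5) (nat_lit 152) (nat_lit 106) r8_152 r10_106 (nat_lit 0) (nat_lit 5449534) (nat_lit 0) (nat_lit 0x80029938e) (nat_lit 1079191358),
  Rx.mk (nat_lit 210) (nat_lit 2) (nat_lit 2) (nat_lit 3) (nat_lit 7) (nat_lit 153) (nat_lit 108) r8_153 r10_108 (nat_lit 0) (nat_lit 0) (nat_lit 0) (nat_lit 0x80029938e) (nat_lit 1073741824),
  Rx.mk (nat_lit 216) (nat_lit 0) (nat_lit 3) (nat_lit 3) (nat_lit 6) (nat_lit 151) (nat_lit 102) r8_151 r10_102 (nat_lit 3003115) (nat_lit 0) (nat_lit 0) (nat_lit 0x801ee9084) (nat_lit 1074931639),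
  Rx.mk (nat_lit 218) (nat_lit 2) (nat_lit 3) (nat_lit 3) (nat_lit 7) (nat_lit 154) (nat_lit 107) r8_154 r10_107 (nat_lit 0) (nat_lit 0) (nat_lit 0) (nat_lit 0x80029938e) (nat_lit 1073741824),
  Rx.mk (nat_lit 472) (nat_lit 0) (nat_lit 3) (nat_lit 7) (nat_lit 6) (nat_lit 150) (nat_lit 103) r8_150 r10_103 (nat_lit 5449534) (nat_lit 0) (nat_lit 0) (nat_lit 0x80029938e) (nat_lit 1079191358),
  Rx.mk (nat_lit 475) (nat_lit 3) (nat_lit 3) (nat_lit 7) (nat_lit 7) (nat_lit 156) (nat_lit 104) r8_156 r10_104 (nat_lit 0) (nat_lit 0) (nat_lit 0) (nat_lit 0x80029938e) (nat_lit 1073741824),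
  Rx.mk (nat_lit 507) (nat_lit 3) (nat_lit 7) (nat_lit 7) (nat_lit 7) (nat_lit 155) (nat_lit 105) r8_155 r10_105 (nat_lit 0) (nat_lit 0) (nat_lit 0) (nat_lit 0x80029938e) (nat_lit 1073741824)]
noncomputable def e15_20 : List Rx := [
  Rx.mk (nat_lit 472) (nat_lit 0) (nat_lit 3) (nat_lit 7) (nat_lit 6) (nat_lit 157) (nat_lit 113) r8_157 r11_113 (nat_lit 5449534) (nat_lit 0) (nat_lit 0) (nat_lit 0x80029938e) (nat_lit 1079191358),
  Rx.mk (nat_lit 475) (nat_lit 3) (nat_lit 3) (nat_lit 7) (nat_lit 7) (nat_lit 158) (nat_lit 114) r8_158 r11_114 (nat_lit 0) (nat_lit 0) (nat_lit 0) (nat_lit 0x80029938e) (nat_lit 1073741824)]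
noncomputable def e15_21 : List Rx := [
  Rx.mk (nat_lit 0) (nat_lit 0) (nat_lit 0) (nat_lit 0) (nat_lit 0) (nat_lit 159) (nat_lit 183) r8_159 r9_183 (nat_lit 4180839) (nat_lit 4762811) (nat_lit 4825209) (nat_lit 0x39d32f3e6) (nat_lit 2257620983),
  Rx.mk (nat_lit 1) (nat_lit 1) (nat_lit 0) (nat_lit 0) (nat_lit 1) (nat_lit 165) (nat_lit 185) r8_165 r9_185 (nat_lit 0) (nat_lit 6366403) (nat_lit 16033224) (nat_lit 0x7150c9342) (nat_lit 1341058751),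
  Rx.mk (nat_lit 2) (nat_lit 2) (nat_lit 0) (nat_lit 0) (nat_lit 1) (nat_lit 171) (nat_lit 187) r8_171 r9_187 (nat_lit 0) (nat_lit 11901673) (nat_lit 16440661) (nat_lit 0x75402140a) (nat_lit 1281397658),
  Rx.mk (nat_lit 18) (nat_lit 2) (nat_lit 2) (nat_lit 0) (nat_lit 3) (nat_lit 174) (nat_lit 199) r8_174 r9_199 (nat_lit 0) (nat_lit 0) (nat_lit 5449534) (nat_lit 0x80029938e) (nat_lit 1079191358),
  Rx.mk (nat_lit 24) (nat_lit 0) (nat_lit 3) (nat_lit 0) (nat_lit 2) (nat_lit 162) (nat_lit 192) r8_162 r9_192 (nat_lit 6953306) (nat_lit 0) (nat_lit 7933342) (nat_lit 0x6c913698e) (nat_lit 1412714672),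
  Rx.mk (nat_lit 25) (nat_lit 1) (nat_lit 3) (nat_lit 0) (nat_lit 3) (nat_lit 168) (nat_lit 195) r8_168 r9_195 (nat_lit 0) (nat_lit 0) (nat_lit 5449534) (nat_lit 0x80029938e) (nat_lit 1079191358),
  Rx.mk (nat_lit 64) (nat_lit 0) (nat_lit 0) (nat_lit 1) (nat_lit 4) (nat_lit 160) (nat_lit 184) r8_160 r9_184 (nat_lit 8082267) (nat_lit 6452239) (nat_lit 0) (nat_lit 0x67b4a3a2a) (nat_lit 1493420030),
  Rx.mk (nat_lit 65) (nat_lit 1) (nat_lit 0) (nat_lit 1) (nat_lit 5) (nat_lit 166) (nat_lit 186) r8_166 r9_186 (nat_lit 0) (nat_lit 5449534) (nat_lit 0) (nat_lit 0x80029938e) (nat_lit 1079191358),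
  Rx.mk (nat_lit 66) (nat_lit 2) (nat_lit 0) (nat_lit 1) (nat_lit 5) (nat_lit 172) (nat_lit 188) r8_172 r9_188 (nat_lit 0) (nat_lit 5449534) (nat_lit 0) (nat_lit 0x80029938e) (nat_lit 1079191358),
  Rx.mk (nat_lit 72) (nat_lit 0) (nat_lit 1) (nat_lit 1) (nat_lit 6) (nat_lit 161) (nat_lit 189) r8_161 r9_189 (nat_lit 5449534) (nat_lit 0) (nat_lit 0) (nat_lit 0x80029938e) (nat_lit 1079191358),
  Rx.mk (nat_lit 73) (nat_lit 1) (nat_lit 1) (nat_lit 1) (nat_lit 7) (nat_lit 167) (nat_lit 190) r8_167 r9_190 (nat_lit 0) (nat_lit 0) (nat_lit 0) (nat_lit 0x80029938e) (nat_lit 1073741824),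
  Rx.mk (nat_lit 74) (nat_lit 2) (nat_lit 1) (nat_lit 1) (nat_lit 7) (nat_lit 173) (nat_lit 191) r8_173 r9_191 (nat_lit 0) (nat_lit 0) (nat_lit 0) (nat_lit 0x80029938e) (nat_lit 1073741824),
  Rx.mk (nat_lit 82) (nat_lit 2) (nat_lit 2) (nat_lit 1) (nat_lit 7) (nat_lit 175) (nat_lit 200) r8_175 r9_200 (nat_lit 0) (nat_lit 0) (nat_lit 0) (nat_lit 0x80029938e) (nat_lit 1073741824),
  Rx.mk (nat_lit 88) (nat_lit 0) (nat_lit 3) (nat_lit 1) (nat_lit 6) (nat_lit 163) (nat_lit 193) r8_163 r9_193 (nat_lit 5449534) (nat_lit 0) (nat_lit 0) (nat_lit 0x80029938e) (nat_lit 1079191358),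
  Rx.mk (nat_lit 89) (nat_lit 1) (nat_lit 3) (nat_lit 1) (nat_lit 7) (nat_lit 169) (nat_lit 196) r8_169 r9_196 (nat_lit 0) (nat_lit 0) (nat_lit 0) (nat_lit 0x80029938e) (nat_lit 1073741824),
  Rx.mk (nat_lit 146) (nat_lit 2) (nat_lit 2) (nat_lit 2) (nat_lit 7) (nat_lit 176) (nat_lit 201) r8_176 r9_201 (nat_lit 0) (nat_lit 0) (nat_lit 0) (nat_lit 0x80029938e) (nat_lit 1073741824),
  Rx.mk (nat_lit 216) (nat_lit 0) (nat_lit 3) (nat_lit 3) (nat_lit 6) (nat_lit 164) (nat_lit 194) r8_164 r9_194 (nat_lit 5449534) (nat_lit 0) (nat_lit 0) (nat_lit 0x80029938e) (nat_lit 1079191358),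
  Rx.mk (nat_lit 217) (nat_lit 1) (nat_lit 3) (nat_lit 3) (nat_lit 7) (nat_lit 170) (nat_lit 197) r8_170 r9_197 (nat_lit 0) (nat_lit 0) (nat_lit 0) (nat_lit 0x80029938e) (nat_lit 1073741824),
  Rx.mk (nat_lit 219) (nat_lit 3) (nat_lit 3) (nat_lit 3) (nat_lit 7) (nat_lit 177) (nat_lit 198) r8_177 r9_198 (nat_lit 0) (nat_lit 0) (nat_lit 0) (nat_lit 0x80029938e) (nat_lit 1073741824)]
noncomputable def e15_22 : List Rx := [
  Rx.mk (nat_lit 321) (nat_lit 1) (nat_lit 0) (nat_lit 5) (nat_lit 5) (nat_lit 178) (nat_lit 289) r8_178 r0_289 (nat_lit 0) (nat_lit 6119961) (nat_lit 0) (nat_lit 0x72392b252) (nat_lit 1309645085),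
  Rx.mk (nat_lit 329) (nat_lit 1) (nat_lit 1) (nat_lit 5) (nat_lit 7) (nat_lit 179) (nat_lit 290) r8_179 r0_290 (nat_lit 0) (nat_lit 0) (nat_lit 0) (nat_lit 0x7ff99ecac) (nat_lit 1074318024)]
noncomputable def e15_23 : List Rx := [
  Rx.mk (nat_lit 329) (nat_lit 1) (nat_lit 1) (nat_lit 5) (nat_lit 7) (nat_lit 180) (nat_lit 286) r8_180 r1_286 (nat_lit 0) (nat_lit 0) (nat_lit 0) (nat_lit 0x80029938e) (nat_lit 1073741824)]
noncomputable def e15_24 : List Rx := [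
  Rx.mk (nat_lit 321) (nat_lit 1) (nat_lit 0) (nat_lit 5) (nat_lit 5) (nat_lit 181) (nat_lit 304) r8_181 r4_304 (nat_lit 0) (nat_lit 5449534) (nat_lit 0) (nat_lit 0x80029938e) (nat_lit 1079191358),
  Rx.mk (nat_lit 329) (nat_lit 1) (nat_lit 1) (nat_lit 5) (nat_lit 7) (nat_lit 182) (nat_lit 305) r8_182 r4_305 (nat_lit 0) (nat_lit 0) (nat_lit 0) (nat_lit 0x80029938e) (nat_lit 1073741824),
  Rx.mk (nat_lit 345) (nat_lit 1) (nat_lit 3) (nat_lit 5) (nat_lit 7) (nat_lit 183) (nat_lit 306) r8_183 r4_306 (nat_lit 0) (nat_lit 0) (nat_lit 0) (nat_lit 0x80029938e) (nat_lit 1073741824)]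
noncomputable def e15_25 : List Rx := [
  Rx.mk (nat_lit 65) (nat_lit 1) (nat_lit 0) (nat_lit 1) (nat_lit 5) (nat_lit 185) (nat_lit 242) r8_185 r7_242 (nat_lit 0) (nat_lit 5322975) (nat_lit 0) (nat_lit 0x7ffd77ce8) (nat_lit 1079393799),
  Rx.mk (nat_lit 73) (nat_lit 1) (nat_lit 1) (nat_lit 1) (nat_lit 7) (nat_lit 187) (nat_lit 244) r8_187 r7_244 (nat_lit 0) (nat_lit 0) (nat_lit 0) (nat_lit 0x80029938e) (nat_lit 1073741824),
  Rx.mk (nat_lit 89) (nat_lit 1) (nat_lit 3) (nat_lit 1) (nat_lit 7) (nat_lit 188) (nat_lit 245) r8_188 r7_245 (nat_lit 0) (nat_lit 0) (nat_lit 0) (nat_lit 0x80029938e) (nat_lit 1073741824),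
  Rx.mk (nat_lit 321) (nat_lit 1) (nat_lit 0) (nat_lit 5) (nat_lit 5) (nat_lit 184) (nat_lit 241) r8_184 r7_241 (nat_lit 0) (nat_lit 5449534) (nat_lit 0) (nat_lit 0x80029938e) (nat_lit 1079191358),
  Rx.mk (nat_lit 329) (nat_lit 1) (nat_lit 1) (nat_lit 5) (nat_lit 7) (nat_lit 186) (nat_lit 243) r8_186 r7_243 (nat_lit 0) (nat_lit 0) (nat_lit 0) (nat_lit 0x80029938e) (nat_lit 1073741824)]
noncomputable def e15_26 : List Rx := [
  Rx.mk (nat_lit 73) (nat_lit 1) (nat_lit 1) (nat_lit 1) (nat_lit 7) (nat_lit 190) (nat_lit 190) r8_190 r8_190 (nat_lit 0) (nat_lit 0) (nat_lit 0) (nat_lit 0x80029938e) (nat_lit 1073741824),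
  Rx.mk (nat_lit 329) (nat_lit 1) (nat_lit 1) (nat_lit 5) (nat_lit 7) (nat_lit 189) (nat_lit 189) r8_189 r8_189 (nat_lit 0) (nat_lit 0) (nat_lit 0) (nat_lit 0x80029938e) (nat_lit 1073741824)]
noncomputable def e15_27 : List Rx := [
  Rx.mk (nat_lit 65) (nat_lit 1) (nat_lit 0) (nat_lit 1) (nat_lit 5) (nat_lit 191) (nat_lit 323) r8_191 r8_323 (nat_lit 0) (nat_lit 5449534) (nat_lit 0) (nat_lit 0x80029938e) (nat_lit 1079191358),
  Rx.mk (nat_lit 73) (nat_lit 1) (nat_lit 1) (nat_lit 1) (nat_lit 7) (nat_lit 192) (nat_lit 324) r8_192 r8_324 (nat_lit 0) (nat_lit 0) (nat_lit 0) (nat_lit 0x80029938e) (nat_lit 1073741824),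
  Rx.mk (nat_lit 89) (nat_lit 1) (nat_lit 3) (nat_lit 1) (nat_lit 7) (nat_lit 193) (nat_lit 325) r8_193 r8_325 (nat_lit 0) (nat_lit 0) (nat_lit 0) (nat_lit 0x80029938e) (nat_lit 1073741824)]
noncomputable def e15_28 : List Rx := [
  Rx.mk (nat_lit 89) (nat_lit 1) (nat_lit 3) (nat_lit 1) (nat_lit 7) (nat_lit 197) (nat_lit 194) r8_197 r10_194 (nat_lit 0) (nat_lit 0) (nat_lit 0) (nat_lit 0x80029938e) (nat_lit 1073741824),
  Rx.mk (nat_lit 321) (nat_lit 1) (nat_lit 0) (nat_lit 5) (nat_lit 5) (nat_lit 194) (nat_lit 191) r8_194 r10_191 (nat_lit 0) (nat_lit 5449534) (nat_lit 0) (nat_lit 0x80029938e) (nat_lit 1079191358),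
  Rx.mk (nat_lit 329) (nat_lit 1) (nat_lit 1) (nat_lit 5) (nat_lit 7) (nat_lit 195) (nat_lit 192) r8_195 r10_192 (nat_lit 0) (nat_lit 0) (nat_lit 0) (nat_lit 0x80029938e) (nat_lit 1073741824),
  Rx.mk (nat_lit 345) (nat_lit 1) (nat_lit 3) (nat_lit 5) (nat_lit 7) (nat_lit 196) (nat_lit 193) r8_196 r10_193 (nat_lit 0) (nat_lit 0) (nat_lit 0) (nat_lit 0x80029938e) (nat_lit 1073741824)]
noncomputable def e15_29 : List Rx := [
  Rx.mk (nat_lit 321) (nat_lit 1) (nat_lit 0) (nat_lit 5) (nat_lit 5) (nat_lit 198) (nat_lit 219) r8_198 r11_219 (nat_lit 0) (nat_lit 5449534) (nat_lit 0) (nat_lit 0x80029938e) (nat_lit 1079191358),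
  Rx.mk (nat_lit 329) (nat_lit 1) (nat_lit 1) (nat_lit 5) (nat_lit 7) (nat_lit 199) (nat_lit 220) r8_199 r11_220 (nat_lit 0) (nat_lit 0) (nat_lit 0) (nat_lit 0x80029938e) (nat_lit 1073741824),
  Rx.mk (nat_lit 345) (nat_lit 1) (nat_lit 3) (nat_lit 5) (nat_lit 7) (nat_lit 200) (nat_lit 221) r8_200 r11_221 (nat_lit 0) (nat_lit 0) (nat_lit 0) (nat_lit 0x80029938e) (nat_lit 1073741824)]
noncomputable def e15_30 : List Rx := [
  Rx.mk (nat_lit 472) (nat_lit 0) (nat_lit 3) (nat_lit 7) (nat_lit 6) (nat_lit 202) (nat_lit 121) r8_202 r5_121 (nat_lit 1910235) (nat_lit 0) (nat_lit 0) (nat_lit 0x7f9e71762) (nat_lit 1082109159),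
  Rx.mk (nat_lit 473) (nat_lit 1) (nat_lit 3) (nat_lit 7) (nat_lit 7) (nat_lit 204) (nat_lit 122) r8_204 r5_122 (nat_lit 0) (nat_lit 0) (nat_lit 0) (nat_lit 0x805be6810) (nat_lit 1068047724),
  Rx.mk (nat_lit 504) (nat_lit 0) (nat_lit 7) (nat_lit 7) (nat_lit 6) (nat_lit 201) (nat_lit 118) r8_201 r5_118 (nat_lit 5787882) (nat_lit 0) (nat_lit 0) (nat_lit 0x7f8f3dde0) (nat_lit 1086988006),
  Rx.mk (nat_lit 505) (nat_lit 1) (nat_lit 7) (nat_lit 7) (nat_lit 7) (nat_lit 203) (nat_lit 119) r8_203 r5_119 (nat_lit 0) (nat_lit 0) (nat_lit 0) (nat_lit 0x80029938e) (nat_lit 1073741824),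
  Rx.mk (nat_lit 507) (nat_lit 3) (nat_lit 7) (nat_lit 7) (nat_lit 7) (nat_lit 205) (nat_lit 120) r8_205 r5_120 (nat_lit 0) (nat_lit 0) (nat_lit 0) (nat_lit 0x80029938e) (nat_lit 1073741824)]
noncomputable def e15_31 : List Rx := [
  Rx.mk (nat_lit 216) (nat_lit 0) (nat_lit 3) (nat_lit 3) (nat_lit 6) (nat_lit 208) (nat_lit 120) r8_208 r11_120 (nat_lit 4232301) (nat_lit 0) (nat_lit 0) (nat_lit 0x8010bf30a) (nat_lit 1077067325),
  Rx.mk (nat_lit 217) (nat_lit 1) (nat_lit 3) (nat_lit 3) (nat_lit 7) (nat_lit 211) (nat_lit 121) r8_211 r11_121 (nat_lit 0) (nat_lit 0) (nat_lit 0) (nat_lit 0x80029938e) (nat_lit 1073741824),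
  Rx.mk (nat_lit 218) (nat_lit 2) (nat_lit 3) (nat_lit 3) (nat_lit 7) (nat_lit 212) (nat_lit 122) r8_212 r11_122 (nat_lit 0) (nat_lit 0) (nat_lit 0) (nat_lit 0x80029938e) (nat_lit 1073741824),
  Rx.mk (nat_lit 472) (nat_lit 0) (nat_lit 3) (nat_lit 7) (nat_lit 6) (nat_lit 207) (nat_lit 118) r8_207 r11_118 (nat_lit 5449534) (nat_lit 0) (nat_lit 0) (nat_lit 0x80029938e) (nat_lit 1079191358),
  Rx.mk (nat_lit 473) (nat_lit 1) (nat_lit 3) (nat_lit 7) (nat_lit 7) (nat_lit 210) (nat_lit 119) r8_210 r11_119 (nat_lit 0) (nat_lit 0) (nat_lit 0) (nat_lit 0x80029938e) (nat_lit 1073741824),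
  Rx.mk (nat_lit 504) (nat_lit 0) (nat_lit 7) (nat_lit 7) (nat_lit 6) (nat_lit 206) (nat_lit 115) r8_206 r11_115 (nat_lit 5612407) (nat_lit 0) (nat_lit 0) (nat_lit 0x7ff40af5c) (nat_lit 1080288431),
  Rx.mk (nat_lit 505) (nat_lit 1) (nat_lit 7) (nat_lit 7) (nat_lit 7) (nat_lit 209) (nat_lit 116) r8_209 r11_116 (nat_lit 0) (nat_lit 0) (nat_lit 0) (nat_lit 0x80029938e) (nat_lit 1073741824),
  Rx.mk (nat_lit 507) (nat_lit 3) (nat_lit 7) (nat_lit 7) (nat_lit 7) (nat_lit 213) (nat_lit 117) r8_213 r11_117 (nat_lit 0) (nat_lit 0) (nat_lit 0) (nat_lit 0x80029938e) (nat_lit 1073741824)]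
noncomputable def e15_32 : List Rx := [
  Rx.mk (nat_lit 281) (nat_lit 1) (nat_lit 3) (nat_lit 4) (nat_lit 3) (nat_lit 216) (nat_lit 301) r8_216 r6_301 (nat_lit 0) (nat_lit 0) (nat_lit 1646791) (nat_lit 0x803c7d550) (nat_lit 1071692415),
  Rx.mk (nat_lit 313) (nat_lit 1) (nat_lit 7) (nat_lit 4) (nat_lit 3) (nat_lit 214) (nat_lit 300) r8_214 r6_300 (nat_lit 0) (nat_lit 0) (nat_lit 5771941) (nat_lit 0x7fecf9a7e) (nat_lit 1080903565),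
  Rx.mk (nat_lit 345) (nat_lit 1) (nat_lit 3) (nat_lit 5) (nat_lit 7) (nat_lit 217) (nat_lit 303) r8_217 r6_303 (nat_lit 0) (nat_lit 0) (nat_lit 0) (nat_lit 0x803843b1a) (nat_lit 1070312524),
  Rx.mk (nat_lit 377) (nat_lit 1) (nat_lit 7) (nat_lit 5) (nat_lit 7) (nat_lit 215) (nat_lit 302) r8_215 r6_302 (nat_lit 0) (nat_lit 0) (nat_lit 0) (nat_lit 0x80029938e) (nat_lit 1073741824)]
noncomputable def e15_33 : List Rx := [
  Rx.mk (nat_lit 345) (nat_lit 1) (nat_lit 3) (nat_lit 5) (nat_lit 7) (nat_lit 218) (nat_lit 285) r8_218 r5_285 (nat_lit 0) (nat_lit 0) (nat_lit 0) (nat_lit 0x806366360) (nat_lit 1067572524)]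
noncomputable def e15_34 : List Rx := [
  Rx.mk (nat_lit 89) (nat_lit 1) (nat_lit 3) (nat_lit 1) (nat_lit 7) (nat_lit 220) (nat_lit 343) r8_220 r11_343 (nat_lit 0) (nat_lit 0) (nat_lit 0) (nat_lit 0x80029938e) (nat_lit 1073741824),
  Rx.mk (nat_lit 345) (nat_lit 1) (nat_lit 3) (nat_lit 5) (nat_lit 7) (nat_lit 219) (nat_lit 344) r8_219 r11_344 (nat_lit 0) (nat_lit 0) (nat_lit 0) (nat_lit 0x80029938e) (nat_lit 1073741824)]
noncomputable def e15_35 : List Rx := [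
  Rx.mk (nat_lit 313) (nat_lit 1) (nat_lit 7) (nat_lit 4) (nat_lit 3) (nat_lit 221) (nat_lit 207) r8_221 r6_207 (nat_lit 0) (nat_lit 0) (nat_lit 5449534) (nat_lit 0x80029938e) (nat_lit 1079191358),
  Rx.mk (nat_lit 377) (nat_lit 1) (nat_lit 7) (nat_lit 5) (nat_lit 7) (nat_lit 222) (nat_lit 208) r8_222 r6_208 (nat_lit 0) (nat_lit 0) (nat_lit 0) (nat_lit 0x80029938e) (nat_lit 1073741824),
  Rx.mk (nat_lit 473) (nat_lit 1) (nat_lit 3) (nat_lit 7) (nat_lit 7) (nat_lit 224) (nat_lit 206) r8_224 r6_206 (nat_lit 0) (nat_lit 0) (nat_lit 0) (nat_lit 0x8065dab1e) (nat_lit 1067416324),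
  Rx.mk (nat_lit 505) (nat_lit 1) (nat_lit 7) (nat_lit 7) (nat_lit 7) (nat_lit 223) (nat_lit 209) r8_223 r6_209 (nat_lit 0) (nat_lit 0) (nat_lit 0) (nat_lit 0x80029938e) (nat_lit 1073741824)]
noncomputable def e15_36 : List Rx := [
  Rx.mk (nat_lit 281) (nat_lit 1) (nat_lit 3) (nat_lit 4) (nat_lit 3) (nat_lit 227) (nat_lit 112) r8_227 r12_112 (nat_lit 0) (nat_lit 0) (nat_lit 1064185) (nat_lit 0x8026828f4) (nat_lit 1072501409),
  Rx.mk (nat_lit 313) (nat_lit 1) (nat_lit 7) (nat_lit 4) (nat_lit 3) (nat_lit 225) (nat_lit 115) r8_225 r12_115 (nat_lit 0) (nat_lit 0) (nat_lit 6182575) (nat_lit 0x7fd1de596) (nat_lit 1083062199),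
  Rx.mk (nat_lit 345) (nat_lit 1) (nat_lit 3) (nat_lit 5) (nat_lit 7) (nat_lit 228) (nat_lit 113) r8_228 r12_113 (nat_lit 0) (nat_lit 0) (nat_lit 0) (nat_lit 0x809967572) (nat_lit 1064151724),
  Rx.mk (nat_lit 377) (nat_lit 1) (nat_lit 7) (nat_lit 5) (nat_lit 7) (nat_lit 226) (nat_lit 116) r8_226 r12_116 (nat_lit 0) (nat_lit 0) (nat_lit 0) (nat_lit 0x80029938e) (nat_lit 1073741824),
  Rx.mk (nat_lit 473) (nat_lit 1) (nat_lit 3) (nat_lit 7) (nat_lit 7) (nat_lit 229) (nat_lit 114) r8_229 r12_114 (nat_lit 0) (nat_lit 0) (nat_lit 0) (nat_lit 0x80d3793a0) (nat_lit 1060477524)]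
noncomputable def e15_37 : List Rx := [
  Rx.mk (nat_lit 289) (nat_lit 1) (nat_lit 4) (nat_lit 4) (nat_lit 1) (nat_lit 237) (nat_lit 278) r8_237 r0_278 (nat_lit 0) (nat_lit 3003976) (nat_lit 8414272) (nat_lit 0x59cd441c8) (nat_lit 1722113272),
  Rx.mk (nat_lit 293) (nat_lit 5) (nat_lit 4) (nat_lit 4) (nat_lit 1) (nat_lit 230) (nat_lit 271) r8_230 r0_271 (nat_lit 0) (nat_lit 10233960) (nat_lit 7556884) (nat_lit 0x4f43b3c9c) (nat_lit 1904185068),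
  Rx.mk (nat_lit 297) (nat_lit 1) (nat_lit 5) (nat_lit 4) (nat_lit 3) (nat_lit 239) (nat_lit 279) r8_239 r0_279 (nat_lit 0) (nat_lit 0) (nat_lit 5449534) (nat_lit 0x7f7c3426c) (nat_lit 1087884558),
  Rx.mk (nat_lit 301) (nat_lit 5) (nat_lit 5) (nat_lit 4) (nat_lit 3) (nat_lit 232) (nat_lit 272) r8_232 r0_272 (nat_lit 0) (nat_lit 0) (nat_lit 7909290) (nat_lit 0x7a5a2401e) (nat_lit 1175906214),
  Rx.mk (nat_lit 317) (nat_lit 5) (nat_lit 7) (nat_lit 4) (nat_lit 3) (nat_lit 234) (nat_lit 273) r8_234 r0_273 (nat_lit 0) (nat_lit 0) (nat_lit 6684980) (nat_lit 0x7f181fd94) (nat_lit 1095629604),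
  Rx.mk (nat_lit 353) (nat_lit 1) (nat_lit 4) (nat_lit 5) (nat_lit 5) (nat_lit 238) (nat_lit 280) r8_238 r0_280 (nat_lit 0) (nat_lit 5951502) (nat_lit 0) (nat_lit 0x73924f6f2) (nat_lit 1286998026),
  Rx.mk (nat_lit 357) (nat_lit 5) (nat_lit 4) (nat_lit 5) (nat_lit 5) (nat_lit 231) (nat_lit 274) r8_231 r0_274 (nat_lit 0) (nat_lit 7503020) (nat_lit 0) (nat_lit 0x6d6ab5fac) (nat_lit 1391167544),
  Rx.mk (nat_lit 361) (nat_lit 1) (nat_lit 5) (nat_lit 5) (nat_lit 7) (nat_lit 240) (nat_lit 281) r8_240 r0_281 (nat_lit 0) (nat_lit 0) (nat_lit 0) (nat_lit 0x800f47324) (nat_lit 1072928224),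
  Rx.mk (nat_lit 365) (nat_lit 5) (nat_lit 5) (nat_lit 5) (nat_lit 7) (nat_lit 233) (nat_lit 275) r8_233 r0_275 (nat_lit 0) (nat_lit 0) (nat_lit 0) (nat_lit 0x7fcefe272) (nat_lit 1077071724),
  Rx.mk (nat_lit 381) (nat_lit 5) (nat_lit 7) (nat_lit 5) (nat_lit 7) (nat_lit 235) (nat_lit 276) r8_235 r0_276 (nat_lit 0) (nat_lit 0) (nat_lit 0) (nat_lit 0x80001f996) (nat_lit 1073900524),
  Rx.mk (nat_lit 509) (nat_lit 5) (nat_lit 7) (nat_lit 7) (nat_lit 7) (nat_lit 236) (nat_lit 277) r8_236 r0_277 (nat_lit 0) (nat_lit 0) (nat_lit 0) (nat_lit 0x80029938e) (nat_lit 1073741824)]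
noncomputable def e15_38 : List Rx := [
  Rx.mk (nat_lit 293) (nat_lit 5) (nat_lit 4) (nat_lit 4) (nat_lit 1) (nat_lit 241) (nat_lit 188) r8_241 r0_188 (nat_lit 0) (nat_lit 36183064) (nat_lit 3077458) (nat_lit 0x574fcceae) (nat_lit 1791474846),
  Rx.mk (nat_lit 317) (nat_lit 5) (nat_lit 7) (nat_lit 4) (nat_lit 3) (nat_lit 244) (nat_lit 191) r8_244 r0_191 (nat_lit 0) (nat_lit 0) (nat_lit 2945103) (nat_lit 0x79da08f6a) (nat_lit 1179289527),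
  Rx.mk (nat_lit 357) (nat_lit 5) (nat_lit 4) (nat_lit 5) (nat_lit 5) (nat_lit 242) (nat_lit 189) r8_242 r0_189 (nat_lit 0) (nat_lit 7351485) (nat_lit 0) (nat_lit 0x7a4837e50) (nat_lit 1176515009),
  Rx.mk (nat_lit 381) (nat_lit 5) (nat_lit 7) (nat_lit 5) (nat_lit 7) (nat_lit 245) (nat_lit 192) r8_245 r0_192 (nat_lit 0) (nat_lit 0) (nat_lit 0) (nat_lit 0x7fff97802) (nat_lit 1073934624),
  Rx.mk (nat_lit 421) (nat_lit 5) (nat_lit 4) (nat_lit 6) (nat_lit 5) (nat_lit 243) (nat_lit 190) r8_243 r0_190 (nat_lit 0) (nat_lit 188397076) (nat_lit 0) (nat_lit 0x7fb4f6636) (nat_lit 1267133600),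
  Rx.mk (nat_lit 445) (nat_lit 5) (nat_lit 7) (nat_lit 6) (nat_lit 7) (nat_lit 246) (nat_lit 194) r8_246 r0_194 (nat_lit 0) (nat_lit 0) (nat_lit 0) (nat_lit 0x80029938e) (nat_lit 1073741824),
  Rx.mk (nat_lit 509) (nat_lit 5) (nat_lit 7) (nat_lit 7) (nat_lit 7) (nat_lit 247) (nat_lit 193) r8_247 r0_193 (nat_lit 0) (nat_lit 0) (nat_lit 0) (nat_lit 0x80029938e) (nat_lit 1073741824)]
noncomputable def e15_39 : List Rx := [
  Rx.mk (nat_lit 293) (nat_lit 5) (nat_lit 4) (nat_lit 4) (nat_lit 1) (nat_lit 248) (nat_lit 388) r8_248 r7_388 (nat_lit 0) (nat_lit 18822904) (nat_lit 9806922) (nat_lit 0x645205e84) (nat_lit 1563957550),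
  Rx.mk (nat_lit 301) (nat_lit 5) (nat_lit 5) (nat_lit 4) (nat_lit 3) (nat_lit 251) (nat_lit 389) r8_251 r7_389 (nat_lit 0) (nat_lit 0) (nat_lit 5449534) (nat_lit 0x80029938e) (nat_lit 1079191358),
  Rx.mk (nat_lit 317) (nat_lit 5) (nat_lit 7) (nat_lit 4) (nat_lit 3) (nat_lit 254) (nat_lit 390) r8_254 r7_390 (nat_lit 0) (nat_lit 0) (nat_lit 5560769) (nat_lit 0x800073c4e) (nat_lit 1079440193),
  Rx.mk (nat_lit 357) (nat_lit 5) (nat_lit 4) (nat_lit 5) (nat_lit 5) (nat_lit 249) (nat_lit 391) r8_249 r7_391 (nat_lit 0) (nat_lit 5661505) (nat_lit 0) (nat_lit 0x7ff885e6a) (nat_lit 1080049829),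
  Rx.mk (nat_lit 365) (nat_lit 5) (nat_lit 5) (nat_lit 5) (nat_lit 7) (nat_lit 252) (nat_lit 392) r8_252 r7_392 (nat_lit 0) (nat_lit 0) (nat_lit 0) (nat_lit 0x80029938e) (nat_lit 1073741824),
  Rx.mk (nat_lit 381) (nat_lit 5) (nat_lit 7) (nat_lit 5) (nat_lit 7) (nat_lit 255) (nat_lit 393) r8_255 r7_393 (nat_lit 0) (nat_lit 0) (nat_lit 0) (nat_lit 0x80029938e) (nat_lit 1073741824),
  Rx.mk (nat_lit 421) (nat_lit 5) (nat_lit 4) (nat_lit 6) (nat_lit 5) (nat_lit 250) (nat_lit 395) r8_250 r7_395 (nat_lit 0) (nat_lit 5449534) (nat_lit 0) (nat_lit 0x80029938e) (nat_lit 1079191358),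
  Rx.mk (nat_lit 429) (nat_lit 5) (nat_lit 5) (nat_lit 6) (nat_lit 7) (nat_lit 253) (nat_lit 396) r8_253 r7_396 (nat_lit 0) (nat_lit 0) (nat_lit 0) (nat_lit 0x80029938e) (nat_lit 1073741824),
  Rx.mk (nat_lit 509) (nat_lit 5) (nat_lit 7) (nat_lit 7) (nat_lit 7) (nat_lit 256) (nat_lit 394) r8_256 r7_394 (nat_lit 0) (nat_lit 0) (nat_lit 0) (nat_lit 0x80029938e) (nat_lit 1073741824)]
noncomputable def e15_40 : List Rx := [
  Rx.mk (nat_lit 292) (nat_lit 4) (nat_lit 4) (nat_lit 4) (nat_lit 0) (nat_lit 257) (nat_lit 221) r8_257 r2_221 (nat_lit 1804445) (nat_lit 1910946) (nat_lit 1552451) (nat_lit 0x3df2a5050) (nat_lit 2180372566),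
  Rx.mk (nat_lit 316) (nat_lit 4) (nat_lit 7) (nat_lit 4) (nat_lit 2) (nat_lit 260) (nat_lit 223) r8_260 r2_223 (nat_lit 5335424) (nat_lit 0) (nat_lit 3733423) (nat_lit 0x6f125636e) (nat_lit 1365141671),
  Rx.mk (nat_lit 319) (nat_lit 7) (nat_lit 7) (nat_lit 4) (nat_lit 3) (nat_lit 263) (nat_lit 224) r8_263 r2_224 (nat_lit 0) (nat_lit 0) (nat_lit 5449534) (nat_lit 0x80029938e) (nat_lit 1079191358),
  Rx.mk (nat_lit 420) (nat_lit 4) (nat_lit 4) (nat_lit 6) (nat_lit 4) (nat_lit 258) (nat_lit 222) r8_258 r2_222 (nat_lit 6579376) (nat_lit 4576373) (nat_lit 0) (nat_lit 0x6c0b68fb4) (nat_lit 1417697373),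
  Rx.mk (nat_lit 436) (nat_lit 4) (nat_lit 6) (nat_lit 6) (nat_lit 6) (nat_lit 259) (nat_lit 228) r8_259 r2_228 (nat_lit 5449534) (nat_lit 0) (nat_lit 0) (nat_lit 0x80029938e) (nat_lit 1079191358),
  Rx.mk (nat_lit 438) (nat_lit 6) (nat_lit 6) (nat_lit 6) (nat_lit 7) (nat_lit 262) (nat_lit 229) r8_262 r2_229 (nat_lit 0) (nat_lit 0) (nat_lit 0) (nat_lit 0x80029938e) (nat_lit 1073741824),
  Rx.mk (nat_lit 444) (nat_lit 4) (nat_lit 7) (nat_lit 6) (nat_lit 6) (nat_lit 261) (nat_lit 226) r8_261 r2_226 (nat_lit 5449534) (nat_lit 0) (nat_lit 0) (nat_lit 0x80029938e) (nat_lit 1079191358),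
  Rx.mk (nat_lit 447) (nat_lit 7) (nat_lit 7) (nat_lit 6) (nat_lit 7) (nat_lit 264) (nat_lit 227) r8_264 r2_227 (nat_lit 0) (nat_lit 0) (nat_lit 0) (nat_lit 0x80029938e) (nat_lit 1073741824),
  Rx.mk (nat_lit 511) (nat_lit 7) (nat_lit 7) (nat_lit 7) (nat_lit 7) (nat_lit 265) (nat_lit 225) r8_265 r2_225 (nat_lit 0) (nat_lit 0) (nat_lit 0) (nat_lit 0x80029938e) (nat_lit 1073741824)]
noncomputable def e15_41 : List Rx := [
  Rx.mk (nat_lit 292) (nat_lit 4) (nat_lit 4) (nat_lit 4) (nat_lit 0) (nat_lit 266) (nat_lit 202) r8_266 r9_202 (nat_lit 3365773) (nat_lit 7499955) (nat_lit 6754004) (nat_lit 0x3daadc94e) (nat_lit 2197406356),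
  Rx.mk (nat_lit 316) (nat_lit 4) (nat_lit 7) (nat_lit 4) (nat_lit 2) (nat_lit 269) (nat_lit 204) r8_269 r9_204 (nat_lit 5675110) (nat_lit 0) (nat_lit 6439668) (nat_lit 0x70ead3b50) (nat_lit 1337414702),
  Rx.mk (nat_lit 319) (nat_lit 7) (nat_lit 7) (nat_lit 4) (nat_lit 3) (nat_lit 271) (nat_lit 205) r8_271 r9_205 (nat_lit 0) (nat_lit 0) (nat_lit 5449534) (nat_lit 0x80029938e) (nat_lit 1079191358),
  Rx.mk (nat_lit 420) (nat_lit 4) (nat_lit 4) (nat_lit 6) (nat_lit 4) (nat_lit 267) (nat_lit 203) r8_267 r9_203 (nat_lit 9276876) (nat_lit 7900404) (nat_lit 0) (nat_lit 0x7130d9410) (nat_lit 1337916804),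
  Rx.mk (nat_lit 436) (nat_lit 4) (nat_lit 6) (nat_lit 6) (nat_lit 6) (nat_lit 268) (nat_lit 207) r8_268 r9_207 (nat_lit 5449534) (nat_lit 0) (nat_lit 0) (nat_lit 0x80029938e) (nat_lit 1079191358),
  Rx.mk (nat_lit 438) (nat_lit 6) (nat_lit 6) (nat_lit 6) (nat_lit 7) (nat_lit 270) (nat_lit 208) r8_270 r9_208 (nat_lit 0) (nat_lit 0) (nat_lit 0) (nat_lit 0x80029938e) (nat_lit 1073741824),
  Rx.mk (nat_lit 511) (nat_lit 7) (nat_lit 7) (nat_lit 7) (nat_lit 7) (nat_lit 272) (nat_lit 206) r8_272 r9_206 (nat_lit 0) (nat_lit 0) (nat_lit 0) (nat_lit 0x80029938e) (nat_lit 1073741824)]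
noncomputable def e15_42 : List Rx := [
  Rx.mk (nat_lit 182) (nat_lit 6) (nat_lit 6) (nat_lit 2) (nat_lit 7) (nat_lit 279) (nat_lit 108) r8_279 r9_108 (nat_lit 0) (nat_lit 0) (nat_lit 0) (nat_lit 0x80029938e) (nat_lit 1073741824),
  Rx.mk (nat_lit 292) (nat_lit 4) (nat_lit 4) (nat_lit 4) (nat_lit 0) (nat_lit 273) (nat_lit 99) r8_273 r9_99 (nat_lit 3207243) (nat_lit 10845530) (nat_lit 3283945) (nat_lit 0x3b8a2a25c) (nat_lit 2232597442),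
  Rx.mk (nat_lit 316) (nat_lit 4) (nat_lit 7) (nat_lit 4) (nat_lit 2) (nat_lit 276) (nat_lit 100) r8_276 r9_100 (nat_lit 5166248) (nat_lit 0) (nat_lit 4643983) (nat_lit 0x6e6877564) (nat_lit 1376945555),
  Rx.mk (nat_lit 319) (nat_lit 7) (nat_lit 7) (nat_lit 4) (nat_lit 3) (nat_lit 280) (nat_lit 101) r8_280 r9_101 (nat_lit 0) (nat_lit 0) (nat_lit 5449534) (nat_lit 0x8000c26c8) (nat_lit 1079309258),
  Rx.mk (nat_lit 420) (nat_lit 4) (nat_lit 4) (nat_lit 6) (nat_lit 4) (nat_lit 274) (nat_lit 103) r8_274 r9_103 (nat_lit 6516495) (nat_lit 4026349) (nat_lit 0) (nat_lit 0x6c0f7a8a0) (nat_lit 1416819768),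
  Rx.mk (nat_lit 436) (nat_lit 4) (nat_lit 6) (nat_lit 6) (nat_lit 6) (nat_lit 275) (nat_lit 106) r8_275 r9_106 (nat_lit 5449534) (nat_lit 0) (nat_lit 0) (nat_lit 0x80029938e) (nat_lit 1079191358),
  Rx.mk (nat_lit 438) (nat_lit 6) (nat_lit 6) (nat_lit 6) (nat_lit 7) (nat_lit 278) (nat_lit 107) r8_278 r9_107 (nat_lit 0) (nat_lit 0) (nat_lit 0) (nat_lit 0x80029938e) (nat_lit 1073741824),
  Rx.mk (nat_lit 444) (nat_lit 4) (nat_lit 7) (nat_lit 6) (nat_lit 6) (nat_lit 277) (nat_lit 104) r8_277 r9_104 (nat_lit 5449534) (nat_lit 0) (nat_lit 0) (nat_lit 0x80029938e) (nat_lit 1079191358),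
  Rx.mk (nat_lit 447) (nat_lit 7) (nat_lit 7) (nat_lit 6) (nat_lit 7) (nat_lit 281) (nat_lit 105) r8_281 r9_105 (nat_lit 0) (nat_lit 0) (nat_lit 0) (nat_lit 0x80029938e) (nat_lit 1073741824),
  Rx.mk (nat_lit 511) (nat_lit 7) (nat_lit 7) (nat_lit 7) (nat_lit 7) (nat_lit 282) (nat_lit 102) r8_282 r9_102 (nat_lit 0) (nat_lit 0) (nat_lit 0) (nat_lit 0x80029938e) (nat_lit 1073741824)]
noncomputable def e15_43 : List Rx := [
  Rx.mk (nat_lit 292) (nat_lit 4) (nat_lit 4) (nat_lit 4) (nat_lit 0) (nat_lit 283) (nat_lit 201) r8_283 r1_201 (nat_lit 1918416) (nat_lit 114209413) (nat_lit 15319371) (nat_lit 0x41b550df4) (nat_lit 2243856724),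
  Rx.mk (nat_lit 293) (nat_lit 5) (nat_lit 4) (nat_lit 4) (nat_lit 1) (nat_lit 289) (nat_lit 202) r8_289 r1_202 (nat_lit 0) (nat_lit 11555613) (nat_lit 11555613) (nat_lit 0x649b277ac) (nat_lit 1553678350),
  Rx.mk (nat_lit 316) (nat_lit 4) (nat_lit 7) (nat_lit 4) (nat_lit 2) (nat_lit 286) (nat_lit 206) r8_286 r1_206 (nat_lit 4263426) (nat_lit 0) (nat_lit 7320286) (nat_lit 0x6945f5c3e) (nat_lit 1464332436),
  Rx.mk (nat_lit 317) (nat_lit 5) (nat_lit 7) (nat_lit 4) (nat_lit 3) (nat_lit 293) (nat_lit 207) r8_293 r1_207 (nat_lit 0) (nat_lit 0) (nat_lit 5586817) (nat_lit 0x7ff93b2a6) (nat_lit 1079930041),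
  Rx.mk (nat_lit 357) (nat_lit 5) (nat_lit 4) (nat_lit 5) (nat_lit 5) (nat_lit 290) (nat_lit 203) r8_290 r1_203 (nat_lit 0) (nat_lit 5714928) (nat_lit 0) (nat_lit 0x7ff0d9b4e) (nat_lit 1080597652),
  Rx.mk (nat_lit 381) (nat_lit 5) (nat_lit 7) (nat_lit 5) (nat_lit 7) (nat_lit 294) (nat_lit 208) r8_294 r1_208 (nat_lit 0) (nat_lit 0) (nat_lit 0) (nat_lit 0x80029938e) (nat_lit 1073741824),
  Rx.mk (nat_lit 420) (nat_lit 4) (nat_lit 4) (nat_lit 6) (nat_lit 4) (nat_lit 284) (nat_lit 204) r8_284 r1_204 (nat_lit 3811645) (nat_lit 49656685) (nat_lit 0) (nat_lit 0x67434edb6) (nat_lit 1539734254),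
  Rx.mk (nat_lit 421) (nat_lit 5) (nat_lit 4) (nat_lit 6) (nat_lit 5) (nat_lit 291) (nat_lit 205) r8_291 r1_205 (nat_lit 0) (nat_lit 7630254) (nat_lit 0) (nat_lit 0x8044c7bb6) (nat_lit 1077143878),
  Rx.mk (nat_lit 436) (nat_lit 4) (nat_lit 6) (nat_lit 6) (nat_lit 6) (nat_lit 285) (nat_lit 214) r8_285 r1_214 (nat_lit 5009605) (nat_lit 0) (nat_lit 0) (nat_lit 0x79cf2c0ba) (nat_lit 1182054929),
  Rx.mk (nat_lit 437) (nat_lit 5) (nat_lit 6) (nat_lit 6) (nat_lit 7) (nat_lit 292) (nat_lit 215) r8_292 r1_215 (nat_lit 0) (nat_lit 0) (nat_lit 0) (nat_lit 0x807ff3424) (nat_lit 1065763424),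
  Rx.mk (nat_lit 438) (nat_lit 6) (nat_lit 6) (nat_lit 6) (nat_lit 7) (nat_lit 297) (nat_lit 216) r8_297 r1_216 (nat_lit 0) (nat_lit 0) (nat_lit 0) (nat_lit 0x8009989a0) (nat_lit 1073292924),
  Rx.mk (nat_lit 444) (nat_lit 4) (nat_lit 7) (nat_lit 6) (nat_lit 6) (nat_lit 287) (nat_lit 212) r8_287 r1_212 (nat_lit 5449534) (nat_lit 0) (nat_lit 0) (nat_lit 0x80029938e) (nat_lit 1079191358),
  Rx.mk (nat_lit 445) (nat_lit 5) (nat_lit 7) (nat_lit 6) (nat_lit 7) (nat_lit 295) (nat_lit 213) r8_295 r1_213 (nat_lit 0) (nat_lit 0) (nat_lit 0) (nat_lit 0x80029938e) (nat_lit 1073741824),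
  Rx.mk (nat_lit 508) (nat_lit 4) (nat_lit 7) (nat_lit 7) (nat_lit 6) (nat_lit 288) (nat_lit 209) r8_288 r1_209 (nat_lit 5449534) (nat_lit 0) (nat_lit 0) (nat_lit 0x7fec9c43c) (nat_lit 1080603458),
  Rx.mk (nat_lit 509) (nat_lit 5) (nat_lit 7) (nat_lit 7) (nat_lit 7) (nat_lit 296) (nat_lit 210) r8_296 r1_210 (nat_lit 0) (nat_lit 0) (nat_lit 0) (nat_lit 0x80029938e) (nat_lit 1073741824),
  Rx.mk (nat_lit 511) (nat_lit 7) (nat_lit 7) (nat_lit 7) (nat_lit 7) (nat_lit 298) (nat_lit 211) r8_298 r1_211 (nat_lit 0) (nat_lit 0) (nat_lit 0) (nat_lit 0x80029938e) (nat_lit 1073741824)]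
noncomputable def e15_44 : List Rx := [
  Rx.mk (nat_lit 292) (nat_lit 4) (nat_lit 4) (nat_lit 4) (nat_lit 0) (nat_lit 299) (nat_lit 299) r8_299 r8_299 (nat_lit 6349026) (nat_lit 41629312) (nat_lit 41629312) (nat_lit 0x43bdb9d04) (nat_lit 2168128074),
  Rx.mk (nat_lit 293) (nat_lit 5) (nat_lit 4) (nat_lit 4) (nat_lit 1) (nat_lit 304) (nat_lit 304) r8_304 r8_304 (nat_lit 0) (nat_lit 12878012) (nat_lit 12878012) (nat_lit 0x6cab7843c) (nat_lit 1421877048),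
  Rx.mk (nat_lit 301) (nat_lit 5) (nat_lit 5) (nat_lit 4) (nat_lit 3) (nat_lit 307) (nat_lit 305) r8_307 r8_305 (nat_lit 0) (nat_lit 0) (nat_lit 5449534) (nat_lit 0x80029938e) (nat_lit 1079191358),
  Rx.mk (nat_lit 316) (nat_lit 4) (nat_lit 7) (nat_lit 4) (nat_lit 2) (nat_lit 302) (nat_lit 300) r8_302 r8_300 (nat_lit 11995068) (nat_lit 0) (nat_lit 8016297) (nat_lit 0x72f43b02e) (nat_lit 1311352989),
  Rx.mk (nat_lit 317) (nat_lit 5) (nat_lit 7) (nat_lit 4) (nat_lit 3) (nat_lit 311) (nat_lit 306) r8_311 r8_306 (nat_lit 0) (nat_lit 0) (nat_lit 5449534) (nat_lit 0x80029938e) (nat_lit 1079191358),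
  Rx.mk (nat_lit 357) (nat_lit 5) (nat_lit 4) (nat_lit 5) (nat_lit 5) (nat_lit 305) (nat_lit 307) r8_305 r8_307 (nat_lit 0) (nat_lit 5449534) (nat_lit 0) (nat_lit 0x80029938e) (nat_lit 1079191358),
  Rx.mk (nat_lit 365) (nat_lit 5) (nat_lit 5) (nat_lit 5) (nat_lit 7) (nat_lit 308) (nat_lit 308) r8_308 r8_308 (nat_lit 0) (nat_lit 0) (nat_lit 0) (nat_lit 0x80029938e) (nat_lit 1073741824),
  Rx.mk (nat_lit 381) (nat_lit 5) (nat_lit 7) (nat_lit 5) (nat_lit 7) (nat_lit 312) (nat_lit 309) r8_312 r8_309 (nat_lit 0) (nat_lit 0) (nat_lit 0) (nat_lit 0x80029938e) (nat_lit 1073741824),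
  Rx.mk (nat_lit 420) (nat_lit 4) (nat_lit 4) (nat_lit 6) (nat_lit 4) (nat_lit 300) (nat_lit 302) r8_300 r8_302 (nat_lit 11995068) (nat_lit 8016297) (nat_lit 0) (nat_lit 0x72f43b02e) (nat_lit 1311352989),
  Rx.mk (nat_lit 421) (nat_lit 5) (nat_lit 4) (nat_lit 6) (nat_lit 5) (nat_lit 306) (nat_lit 311) r8_306 r8_311 (nat_lit 0) (nat_lit 5449534) (nat_lit 0) (nat_lit 0x80029938e) (nat_lit 1079191358),
  Rx.mk (nat_lit 429) (nat_lit 5) (nat_lit 5) (nat_lit 6) (nat_lit 7) (nat_lit 309) (nat_lit 312) r8_309 r8_312 (nat_lit 0) (nat_lit 0) (nat_lit 0) (nat_lit 0x80029938e) (nat_lit 1073741824),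
  Rx.mk (nat_lit 436) (nat_lit 4) (nat_lit 6) (nat_lit 6) (nat_lit 6) (nat_lit 301) (nat_lit 303) r8_301 r8_303 (nat_lit 5449534) (nat_lit 0) (nat_lit 0) (nat_lit 0x80029938e) (nat_lit 1079191358),
  Rx.mk (nat_lit 437) (nat_lit 5) (nat_lit 6) (nat_lit 6) (nat_lit 7) (nat_lit 310) (nat_lit 313) r8_310 r8_313 (nat_lit 0) (nat_lit 0) (nat_lit 0) (nat_lit 0x80029938e) (nat_lit 1073741824),
  Rx.mk (nat_lit 438) (nat_lit 6) (nat_lit 6) (nat_lit 6) (nat_lit 7) (nat_lit 314) (nat_lit 315) r8_314 r8_315 (nat_lit 0) (nat_lit 0) (nat_lit 0) (nat_lit 0x80029938e) (nat_lit 1073741824),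
  Rx.mk (nat_lit 508) (nat_lit 4) (nat_lit 7) (nat_lit 7) (nat_lit 6) (nat_lit 303) (nat_lit 301) r8_303 r8_301 (nat_lit 5449534) (nat_lit 0) (nat_lit 0) (nat_lit 0x80029938e) (nat_lit 1079191358),
  Rx.mk (nat_lit 509) (nat_lit 5) (nat_lit 7) (nat_lit 7) (nat_lit 7) (nat_lit 313) (nat_lit 310) r8_313 r8_310 (nat_lit 0) (nat_lit 0) (nat_lit 0) (nat_lit 0x80029938e) (nat_lit 1073741824),
  Rx.mk (nat_lit 511) (nat_lit 7) (nat_lit 7) (nat_lit 7) (nat_lit 7) (nat_lit 315) (nat_lit 314) r8_315 r8_314 (nat_lit 0) (nat_lit 0) (nat_lit 0) (nat_lit 0x80029938e) (nat_lit 1073741824)]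
noncomputable def e15_45 : List Rx := [
  Rx.mk (nat_lit 297) (nat_lit 1) (nat_lit 5) (nat_lit 4) (nat_lit 3) (nat_lit 318) (nat_lit 276) r8_318 r1_276 (nat_lit 0) (nat_lit 0) (nat_lit 5449534) (nat_lit 0x7fe5be62e) (nat_lit 1081045658),
  Rx.mk (nat_lit 301) (nat_lit 5) (nat_lit 5) (nat_lit 4) (nat_lit 3) (nat_lit 316) (nat_lit 274) r8_316 r1_274 (nat_lit 0) (nat_lit 0) (nat_lit 5449534) (nat_lit 0x7ff85fa80) (nat_lit 1079847858),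
  Rx.mk (nat_lit 361) (nat_lit 1) (nat_lit 5) (nat_lit 5) (nat_lit 7) (nat_lit 319) (nat_lit 277) r8_319 r1_277 (nat_lit 0) (nat_lit 0) (nat_lit 0) (nat_lit 0x800e1d8b8) (nat_lit 1073003524),
  Rx.mk (nat_lit 365) (nat_lit 5) (nat_lit 5) (nat_lit 5) (nat_lit 7) (nat_lit 317) (nat_lit 275) r8_317 r1_275 (nat_lit 0) (nat_lit 0) (nat_lit 0) (nat_lit 0x80029938e) (nat_lit 1073741824)]
noncomputable def e15_46 : List Rx := [
  Rx.mk (nat_lit 329) (nat_lit 1) (nat_lit 1) (nat_lit 5) (nat_lit 7) (nat_lit 322) (nat_lit 303) r8_322 r2_303 (nat_lit 0) (nat_lit 0) (nat_lit 0) (nat_lit 0x80029938e) (nat_lit 1073741824),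
  Rx.mk (nat_lit 361) (nat_lit 1) (nat_lit 5) (nat_lit 5) (nat_lit 7) (nat_lit 321) (nat_lit 302) r8_321 r2_302 (nat_lit 0) (nat_lit 0) (nat_lit 0) (nat_lit 0x80029938e) (nat_lit 1073741824),
  Rx.mk (nat_lit 365) (nat_lit 5) (nat_lit 5) (nat_lit 5) (nat_lit 7) (nat_lit 320) (nat_lit 301) r8_320 r2_301 (nat_lit 0) (nat_lit 0) (nat_lit 0) (nat_lit 0x80029938e) (nat_lit 1073741824)]
noncomputable def e15_47 : List Rx := [
  Rx.mk (nat_lit 301) (nat_lit 5) (nat_lit 5) (nat_lit 4) (nat_lit 3) (nat_lit 323) (nat_lit 191) r8_323 r8_191 (nat_lit 0) (nat_lit 0) (nat_lit 5449534) (nat_lit 0x80029938e) (nat_lit 1079191358),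
  Rx.mk (nat_lit 365) (nat_lit 5) (nat_lit 5) (nat_lit 5) (nat_lit 7) (nat_lit 324) (nat_lit 192) r8_324 r8_192 (nat_lit 0) (nat_lit 0) (nat_lit 0) (nat_lit 0x80029938e) (nat_lit 1073741824),
  Rx.mk (nat_lit 429) (nat_lit 5) (nat_lit 5) (nat_lit 6) (nat_lit 7) (nat_lit 325) (nat_lit 193) r8_325 r8_193 (nat_lit 0) (nat_lit 0) (nat_lit 0) (nat_lit 0x80029938e) (nat_lit 1073741824)]
noncomputable def e15_48 : List Rx := [
  Rx.mk (nat_lit 365) (nat_lit 5) (nat_lit 5) (nat_lit 5) (nat_lit 7) (nat_lit 326) (nat_lit 289) r8_326 r9_289 (nat_lit 0) (nat_lit 0) (nat_lit 0) (nat_lit 0x80029938e) (nat_lit 1073741824)]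
noncomputable def e15_49 : List Rx := [
  Rx.mk (nat_lit 73) (nat_lit 1) (nat_lit 1) (nat_lit 1) (nat_lit 7) (nat_lit 330) (nat_lit 294) r8_330 r9_294 (nat_lit 0) (nat_lit 0) (nat_lit 0) (nat_lit 0x80029938e) (nat_lit 1073741824),
  Rx.mk (nat_lit 329) (nat_lit 1) (nat_lit 1) (nat_lit 5) (nat_lit 7) (nat_lit 329) (nat_lit 295) r8_329 r9_295 (nat_lit 0) (nat_lit 0) (nat_lit 0) (nat_lit 0x80029938e) (nat_lit 1073741824),
  Rx.mk (nat_lit 361) (nat_lit 1) (nat_lit 5) (nat_lit 5) (nat_lit 7) (nat_lit 328) (nat_lit 296) r8_328 r9_296 (nat_lit 0) (nat_lit 0) (nat_lit 0) (nat_lit 0x80029938e) (nat_lit 1073741824),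
  Rx.mk (nat_lit 365) (nat_lit 5) (nat_lit 5) (nat_lit 5) (nat_lit 7) (nat_lit 327) (nat_lit 297) r8_327 r9_297 (nat_lit 0) (nat_lit 0) (nat_lit 0) (nat_lit 0x80029938e) (nat_lit 1073741824)]
noncomputable def e15_50 : List Rx := [
  Rx.mk (nat_lit 289) (nat_lit 1) (nat_lit 4) (nat_lit 4) (nat_lit 1) (nat_lit 334) (nat_lit 268) r8_334 r3_268 (nat_lit 0) (nat_lit 71889) (nat_lit 102120) (nat_lit 0x6285859aa) (nat_lit 1565425633),
  Rx.mk (nat_lit 313) (nat_lit 1) (nat_lit 7) (nat_lit 4) (nat_lit 3) (nat_lit 336) (nat_lit 269) r8_336 r3_269 (nat_lit 0) (nat_lit 0) (nat_lit 889067) (nat_lit 0x75f75daa6) (nat_lit 1241990791),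
  Rx.mk (nat_lit 317) (nat_lit 5) (nat_lit 7) (nat_lit 4) (nat_lit 3) (nat_lit 331) (nat_lit 265) r8_331 r3_265 (nat_lit 0) (nat_lit 0) (nat_lit 1997453) (nat_lit 0x763aeada0) (nat_lit 1238709277),
  Rx.mk (nat_lit 353) (nat_lit 1) (nat_lit 4) (nat_lit 5) (nat_lit 5) (nat_lit 335) (nat_lit 270) r8_335 r3_270 (nat_lit 0) (nat_lit 3747800) (nat_lit 0) (nat_lit 0x78d7bc56e) (nat_lit 1196904324),
  Rx.mk (nat_lit 377) (nat_lit 1) (nat_lit 7) (nat_lit 5) (nat_lit 7) (nat_lit 337) (nat_lit 271) r8_337 r3_271 (nat_lit 0) (nat_lit 0) (nat_lit 0) (nat_lit 0x800899acc) (nat_lit 1073355224),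
  Rx.mk (nat_lit 381) (nat_lit 5) (nat_lit 7) (nat_lit 5) (nat_lit 7) (nat_lit 332) (nat_lit 266) r8_332 r3_266 (nat_lit 0) (nat_lit 0) (nat_lit 0) (nat_lit 0x80177ed94) (nat_lit 1072404124),
  Rx.mk (nat_lit 509) (nat_lit 5) (nat_lit 7) (nat_lit 7) (nat_lit 7) (nat_lit 333) (nat_lit 267) r8_333 r3_267 (nat_lit 0) (nat_lit 0) (nat_lit 0) (nat_lit 0x7fe356418) (nat_lit 1075754824)]
noncomputable def e15_51 : List Rx := [
  Rx.mk (nat_lit 289) (nat_lit 1) (nat_lit 4) (nat_lit 4) (nat_lit 1) (nat_lit 341) (nat_lit 287) r8_341 r4_287 (nat_lit 0) (nat_lit 6310285) (nat_lit 6927974) (nat_lit 0x6ff2af942) (nat_lit 1354702483),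
  Rx.mk (nat_lit 297) (nat_lit 1) (nat_lit 5) (nat_lit 4) (nat_lit 3) (nat_lit 343) (nat_lit 288) r8_343 r4_288 (nat_lit 0) (nat_lit 0) (nat_lit 5449534) (nat_lit 0x80029938e) (nat_lit 1079191358),
  Rx.mk (nat_lit 313) (nat_lit 1) (nat_lit 7) (nat_lit 4) (nat_lit 3) (nat_lit 345) (nat_lit 289) r8_345 r4_289 (nat_lit 0) (nat_lit 0) (nat_lit 5449534) (nat_lit 0x80029938e) (nat_lit 1079191358),
  Rx.mk (nat_lit 317) (nat_lit 5) (nat_lit 7) (nat_lit 4) (nat_lit 3) (nat_lit 338) (nat_lit 284) r8_338 r4_284 (nat_lit 0) (nat_lit 0) (nat_lit 5449534) (nat_lit 0x80029938e) (nat_lit 1079191358),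
  Rx.mk (nat_lit 353) (nat_lit 1) (nat_lit 4) (nat_lit 5) (nat_lit 5) (nat_lit 342) (nat_lit 290) r8_342 r4_290 (nat_lit 0) (nat_lit 5449534) (nat_lit 0) (nat_lit 0x80029938e) (nat_lit 1079191358),
  Rx.mk (nat_lit 361) (nat_lit 1) (nat_lit 5) (nat_lit 5) (nat_lit 7) (nat_lit 344) (nat_lit 291) r8_344 r4_291 (nat_lit 0) (nat_lit 0) (nat_lit 0) (nat_lit 0x80029938e) (nat_lit 1073741824),
  Rx.mk (nat_lit 377) (nat_lit 1) (nat_lit 7) (nat_lit 5) (nat_lit 7) (nat_lit 346) (nat_lit 292) r8_346 r4_292 (nat_lit 0) (nat_lit 0) (nat_lit 0) (nat_lit 0x80029938e) (nat_lit 1073741824),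
  Rx.mk (nat_lit 381) (nat_lit 5) (nat_lit 7) (nat_lit 5) (nat_lit 7) (nat_lit 339) (nat_lit 285) r8_339 r4_285 (nat_lit 0) (nat_lit 0) (nat_lit 0) (nat_lit 0x80029938e) (nat_lit 1073741824),
  Rx.mk (nat_lit 509) (nat_lit 5) (nat_lit 7) (nat_lit 7) (nat_lit 7) (nat_lit 340) (nat_lit 286) r8_340 r4_286 (nat_lit 0) (nat_lit 0) (nat_lit 0) (nat_lit 0x80029938e) (nat_lit 1073741824)]
noncomputable def e15_52 : List Rx := [
  Rx.mk (nat_lit 313) (nat_lit 1) (nat_lit 7) (nat_lit 4) (nat_lit 3) (nat_lit 349) (nat_lit 271) r8_349 r5_271 (nat_lit 0) (nat_lit 0) (nat_lit 5449534) (nat_lit 0x7ff3d72a6) (nat_lit 1080139558),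
  Rx.mk (nat_lit 317) (nat_lit 5) (nat_lit 7) (nat_lit 4) (nat_lit 3) (nat_lit 347) (nat_lit 269) r8_347 r5_269 (nat_lit 0) (nat_lit 0) (nat_lit 5449534) (nat_lit 0x80029938e) (nat_lit 1079191358),
  Rx.mk (nat_lit 377) (nat_lit 1) (nat_lit 7) (nat_lit 5) (nat_lit 7) (nat_lit 350) (nat_lit 272) r8_350 r5_272 (nat_lit 0) (nat_lit 0) (nat_lit 0) (nat_lit 0x80029938e) (nat_lit 1073741824),
  Rx.mk (nat_lit 381) (nat_lit 5) (nat_lit 7) (nat_lit 5) (nat_lit 7) (nat_lit 348) (nat_lit 270) r8_348 r5_270 (nat_lit 0) (nat_lit 0) (nat_lit 0) (nat_lit 0x80029938e) (nat_lit 1073741824)]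
noncomputable def e15_53 : List Rx := [
  Rx.mk (nat_lit 317) (nat_lit 5) (nat_lit 7) (nat_lit 4) (nat_lit 3) (nat_lit 351) (nat_lit 177) r8_351 r4_177 (nat_lit 0) (nat_lit 0) (nat_lit 4339618) (nat_lit 0x8014a6cb6) (nat_lit 1076925342),
  Rx.mk (nat_lit 381) (nat_lit 5) (nat_lit 7) (nat_lit 5) (nat_lit 7) (nat_lit 352) (nat_lit 178) r8_352 r4_178 (nat_lit 0) (nat_lit 0) (nat_lit 0) (nat_lit 0x80029938e) (nat_lit 1073741824),
  Rx.mk (nat_lit 445) (nat_lit 5) (nat_lit 7) (nat_lit 6) (nat_lit 7) (nat_lit 353) (nat_lit 180) r8_353 r4_180 (nat_lit 0) (nat_lit 0) (nat_lit 0) (nat_lit 0x80029938e) (nat_lit 1073741824),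
  Rx.mk (nat_lit 509) (nat_lit 5) (nat_lit 7) (nat_lit 7) (nat_lit 7) (nat_lit 354) (nat_lit 179) r8_354 r4_179 (nat_lit 0) (nat_lit 0) (nat_lit 0) (nat_lit 0x80029938e) (nat_lit 1073741824)]
noncomputable def e15_54 : List Rx := [
  Rx.mk (nat_lit 317) (nat_lit 5) (nat_lit 7) (nat_lit 4) (nat_lit 3) (nat_lit 355) (nat_lit 317) r8_355 r10_317 (nat_lit 0) (nat_lit 0) (nat_lit 5449534) (nat_lit 0x80029938e) (nat_lit 1079191358),
  Rx.mk (nat_lit 381) (nat_lit 5) (nat_lit 7) (nat_lit 5) (nat_lit 7) (nat_lit 356) (nat_lit 318) r8_356 r10_318 (nat_lit 0) (nat_lit 0) (nat_lit 0) (nat_lit 0x80029938e) (nat_lit 1073741824),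
  Rx.mk (nat_lit 509) (nat_lit 5) (nat_lit 7) (nat_lit 7) (nat_lit 7) (nat_lit 357) (nat_lit 319) r8_357 r10_319 (nat_lit 0) (nat_lit 0) (nat_lit 0) (nat_lit 0x80029938e) (nat_lit 1073741824)]
noncomputable def e15_55 : List Rx := [
  Rx.mk (nat_lit 317) (nat_lit 5) (nat_lit 7) (nat_lit 4) (nat_lit 3) (nat_lit 358) (nat_lit 335) r8_358 r11_335 (nat_lit 0) (nat_lit 0) (nat_lit 5449534) (nat_lit 0x80029938e) (nat_lit 1079191358),
  Rx.mk (nat_lit 381) (nat_lit 5) (nat_lit 7) (nat_lit 5) (nat_lit 7) (nat_lit 359) (nat_lit 336) r8_359 r11_336 (nat_lit 0) (nat_lit 0) (nat_lit 0) (nat_lit 0x80029938e) (nat_lit 1073741824),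
  Rx.mk (nat_lit 445) (nat_lit 5) (nat_lit 7) (nat_lit 6) (nat_lit 7) (nat_lit 360) (nat_lit 337) r8_360 r11_337 (nat_lit 0) (nat_lit 0) (nat_lit 0) (nat_lit 0x80029938e) (nat_lit 1073741824)]
noncomputable def e15_56 : List Rx := [
  Rx.mk (nat_lit 289) (nat_lit 1) (nat_lit 4) (nat_lit 4) (nat_lit 1) (nat_lit 362) (nat_lit 191) r8_362 r5_191 (nat_lit 0) (nat_lit 23550711) (nat_lit 8738081) (nat_lit 0x6ca37911e) (nat_lit 1428927416),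
  Rx.mk (nat_lit 313) (nat_lit 1) (nat_lit 7) (nat_lit 4) (nat_lit 3) (nat_lit 364) (nat_lit 193) r8_364 r5_193 (nat_lit 0) (nat_lit 0) (nat_lit 6212599) (nat_lit 0x7fbcc638e) (nat_lit 1084455923),
  Rx.mk (nat_lit 353) (nat_lit 1) (nat_lit 4) (nat_lit 5) (nat_lit 5) (nat_lit 363) (nat_lit 192) r8_363 r5_192 (nat_lit 0) (nat_lit 5449534) (nat_lit 0) (nat_lit 0x80029938e) (nat_lit 1079191358),
  Rx.mk (nat_lit 377) (nat_lit 1) (nat_lit 7) (nat_lit 5) (nat_lit 7) (nat_lit 365) (nat_lit 194) r8_365 r5_194 (nat_lit 0) (nat_lit 0) (nat_lit 0) (nat_lit 0x80029938e) (nat_lit 1073741824),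
  Rx.mk (nat_lit 505) (nat_lit 1) (nat_lit 7) (nat_lit 7) (nat_lit 7) (nat_lit 366) (nat_lit 195) r8_366 r5_195 (nat_lit 0) (nat_lit 0) (nat_lit 0) (nat_lit 0x80029938e) (nat_lit 1073741824),
  Rx.mk (nat_lit 509) (nat_lit 5) (nat_lit 7) (nat_lit 7) (nat_lit 7) (nat_lit 361) (nat_lit 196) r8_361 r5_196 (nat_lit 0) (nat_lit 0) (nat_lit 0) (nat_lit 0x80029938e) (nat_lit 1073741824)]
noncomputable def e15_57 : List Rx := [
  Rx.mk (nat_lit 289) (nat_lit 1) (nat_lit 4) (nat_lit 4) (nat_lit 1) (nat_lit 368) (nat_lit 222) r8_368 r11_222 (nat_lit 0) (nat_lit 31594176) (nat_lit 21443359) (nat_lit 0x791f109d8) (nat_lit 1241553659),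
  Rx.mk (nat_lit 297) (nat_lit 1) (nat_lit 5) (nat_lit 4) (nat_lit 3) (nat_lit 370) (nat_lit 224) r8_370 r11_224 (nat_lit 0) (nat_lit 0) (nat_lit 5449534) (nat_lit 0x80029938e) (nat_lit 1079191358),
  Rx.mk (nat_lit 313) (nat_lit 1) (nat_lit 7) (nat_lit 4) (nat_lit 3) (nat_lit 372) (nat_lit 226) r8_372 r11_226 (nat_lit 0) (nat_lit 0) (nat_lit 5449534) (nat_lit 0x80029938e) (nat_lit 1079191358),
  Rx.mk (nat_lit 353) (nat_lit 1) (nat_lit 4) (nat_lit 5) (nat_lit 5) (nat_lit 369) (nat_lit 223) r8_369 r11_223 (nat_lit 0) (nat_lit 5449534) (nat_lit 0) (nat_lit 0x80029938e) (nat_lit 1079191358),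
  Rx.mk (nat_lit 361) (nat_lit 1) (nat_lit 5) (nat_lit 5) (nat_lit 7) (nat_lit 371) (nat_lit 225) r8_371 r11_225 (nat_lit 0) (nat_lit 0) (nat_lit 0) (nat_lit 0x80029938e) (nat_lit 1073741824),
  Rx.mk (nat_lit 377) (nat_lit 1) (nat_lit 7) (nat_lit 5) (nat_lit 7) (nat_lit 373) (nat_lit 227) r8_373 r11_227 (nat_lit 0) (nat_lit 0) (nat_lit 0) (nat_lit 0x80029938e) (nat_lit 1073741824),
  Rx.mk (nat_lit 505) (nat_lit 1) (nat_lit 7) (nat_lit 7) (nat_lit 7) (nat_lit 374) (nat_lit 228) r8_374 r11_228 (nat_lit 0) (nat_lit 0) (nat_lit 0) (nat_lit 0x80029938e) (nat_lit 1073741824),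
  Rx.mk (nat_lit 509) (nat_lit 5) (nat_lit 7) (nat_lit 7) (nat_lit 7) (nat_lit 367) (nat_lit 229) r8_367 r11_229 (nat_lit 0) (nat_lit 0) (nat_lit 0) (nat_lit 0x80029938e) (nat_lit 1073741824)]
noncomputable def e15 : List (List Rx) := [e15_0, e15_1, e15_2, e15_3, e15_4, e15_5, e15_6, e15_7, e15_8, e15_9, e15_10, e15_11, e15_12, e15_13, e15_14, e15_15, e15_16, e15_17, e15_18, e15_19, e15_20, e15_21, e15_22, e15_23, e15_24, e15_25, e15_26, e15_27, e15_28, e15_29, e15_30, e15_31, e15_32, e15_33, e15_34, e15_35, e15_36, e15_37, e15_38, e15_39, e15_40, e15_41, e15_42, e15_43, e15_44, e15_45, e15_46, e15_47, e15_48, e15_49, e15_50, e15_51, e15_52, e15_53, e15_54, e15_55, e15_56, e15_57]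
noncomputable def e16_0 : List Rx := [
  Rx.mk (nat_lit 475) (nat_lit 3) (nat_lit 3) (nat_lit 7) (nat_lit 7) (nat_lit 76) (nat_lit 139) r8_76 r0_139 (nat_lit 0) (nat_lit 0) (nat_lit 0) (nat_lit 0x80000a14a) (nat_lit 1073905924),
  Rx.mk (nat_lit 507) (nat_lit 3) (nat_lit 7) (nat_lit 7) (nat_lit 7) (nat_lit 77) (nat_lit 140) r8_77 r0_140 (nat_lit 0) (nat_lit 0) (nat_lit 0) (nat_lit 0x7ffc024da) (nat_lit 1074164524)]
noncomputable def e16_1 : List Rx := [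
  Rx.mk (nat_lit 0) (nat_lit 0) (nat_lit 0) (nat_lit 0) (nat_lit 0) (nat_lit 90) (nat_lit 141) r8_90 r1_141 (nat_lit 6586378) (nat_lit 12959764) (nat_lit 2925567) (nat_lit 0x3ec2fab92) (nat_lit 2184013933),
  Rx.mk (nat_lit 2) (nat_lit 2) (nat_lit 0) (nat_lit 0) (nat_lit 1) (nat_lit 91) (nat_lit 147) r8_91 r1_147 (nat_lit 0) (nat_lit 10554535) (nat_lit 3013316) (nat_lit 0x606b0776a) (nat_lit 1613957075),
  Rx.mk (nat_lit 18) (nat_lit 2) (nat_lit 2) (nat_lit 0) (nat_lit 3) (nat_lit 92) (nat_lit 150) r8_92 r1_150 (nat_lit 0) (nat_lit 0) (nat_lit 4371124) (nat_lit 0x7f9613cdc) (nat_lit 1085125348),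
  Rx.mk (nat_lit 146) (nat_lit 2) (nat_lit 2) (nat_lit 2) (nat_lit 7) (nat_lit 93) (nat_lit 152) r8_93 r1_152 (nat_lit 0) (nat_lit 0) (nat_lit 0) (nat_lit 0x80029938e) (nat_lit 1073741824),
  Rx.mk (nat_lit 192) (nat_lit 0) (nat_lit 0) (nat_lit 3) (nat_lit 4) (nat_lit 94) (nat_lit 142) r8_94 r1_142 (nat_lit 12510015) (nat_lit 30884831) (nat_lit 0) (nat_lit 0x700bf15a4) (nat_lit 1383215470),
  Rx.mk (nat_lit 194) (nat_lit 2) (nat_lit 0) (nat_lit 3) (nat_lit 5) (nat_lit 95) (nat_lit 148) r8_95 r1_148 (nat_lit 0) (nat_lit 5449534) (nat_lit 0) (nat_lit 0x80029938e) (nat_lit 1079191358),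
  Rx.mk (nat_lit 210) (nat_lit 2) (nat_lit 2) (nat_lit 3) (nat_lit 7) (nat_lit 96) (nat_lit 151) r8_96 r1_151 (nat_lit 0) (nat_lit 0) (nat_lit 0) (nat_lit 0x80029938e) (nat_lit 1073741824),
  Rx.mk (nat_lit 216) (nat_lit 0) (nat_lit 3) (nat_lit 3) (nat_lit 6) (nat_lit 97) (nat_lit 143) r8_97 r1_143 (nat_lit 5544217) (nat_lit 0) (nat_lit 0) (nat_lit 0x7ffe8daa6) (nat_lit 1079545441),
  Rx.mk (nat_lit 218) (nat_lit 2) (nat_lit 3) (nat_lit 3) (nat_lit 7) (nat_lit 98) (nat_lit 149) r8_98 r1_149 (nat_lit 0) (nat_lit 0) (nat_lit 0) (nat_lit 0x80029938e) (nat_lit 1073741824),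
  Rx.mk (nat_lit 219) (nat_lit 3) (nat_lit 3) (nat_lit 3) (nat_lit 7) (nat_lit 99) (nat_lit 144) r8_99 r1_144 (nat_lit 0) (nat_lit 0) (nat_lit 0) (nat_lit 0x80029938e) (nat_lit 1073741824),
  Rx.mk (nat_lit 475) (nat_lit 3) (nat_lit 3) (nat_lit 7) (nat_lit 7) (nat_lit 100) (nat_lit 145) r8_100 r1_145 (nat_lit 0) (nat_lit 0) (nat_lit 0) (nat_lit 0x80029938e) (nat_lit 1073741824),
  Rx.mk (nat_lit 507) (nat_lit 3) (nat_lit 7) (nat_lit 7) (nat_lit 7) (nat_lit 101) (nat_lit 146) r8_101 r1_146 (nat_lit 0) (nat_lit 0) (nat_lit 0) (nat_lit 0x80029938e) (nat_lit 1073741824)]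
noncomputable def e16_2 : List Rx := [
  Rx.mk (nat_lit 0) (nat_lit 0) (nat_lit 0) (nat_lit 0) (nat_lit 0) (nat_lit 257) (nat_lit 137) r8_257 r2_137 (nat_lit 1552451) (nat_lit 1910946) (nat_lit 1804445) (nat_lit 0x3df2a5050) (nat_lit 2180372566),
  Rx.mk (nat_lit 2) (nat_lit 2) (nat_lit 0) (nat_lit 0) (nat_lit 1) (nat_lit 258) (nat_lit 141) r8_258 r2_141 (nat_lit 0) (nat_lit 4576373) (nat_lit 6579376) (nat_lit 0x6c0b68fb4) (nat_lit 1417697373),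
  Rx.mk (nat_lit 18) (nat_lit 2) (nat_lit 2) (nat_lit 0) (nat_lit 3) (nat_lit 259) (nat_lit 144) r8_259 r2_144 (nat_lit 0) (nat_lit 0) (nat_lit 5449534) (nat_lit 0x80029938e) (nat_lit 1079191358),
  Rx.mk (nat_lit 24) (nat_lit 0) (nat_lit 3) (nat_lit 0) (nat_lit 2) (nat_lit 260) (nat_lit 138) r8_260 r2_138 (nat_lit 3733423) (nat_lit 0) (nat_lit 5335424) (nat_lit 0x6f125636e) (nat_lit 1365141671),
  Rx.mk (nat_lit 26) (nat_lit 2) (nat_lit 3) (nat_lit 0) (nat_lit 3) (nat_lit 261) (nat_lit 142) r8_261 r2_142 (nat_lit 0) (nat_lit 0) (nat_lit 5449534) (nat_lit 0x80029938e) (nat_lit 1079191358),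
  Rx.mk (nat_lit 146) (nat_lit 2) (nat_lit 2) (nat_lit 2) (nat_lit 7) (nat_lit 262) (nat_lit 145) r8_262 r2_145 (nat_lit 0) (nat_lit 0) (nat_lit 0) (nat_lit 0x80029938e) (nat_lit 1073741824),
  Rx.mk (nat_lit 216) (nat_lit 0) (nat_lit 3) (nat_lit 3) (nat_lit 6) (nat_lit 263) (nat_lit 139) r8_263 r2_139 (nat_lit 5449534) (nat_lit 0) (nat_lit 0) (nat_lit 0x80029938e) (nat_lit 1079191358),
  Rx.mk (nat_lit 218) (nat_lit 2) (nat_lit 3) (nat_lit 3) (nat_lit 7) (nat_lit 264) (nat_lit 143) r8_264 r2_143 (nat_lit 0) (nat_lit 0) (nat_lit 0) (nat_lit 0x80029938e) (nat_lit 1073741824),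
  Rx.mk (nat_lit 219) (nat_lit 3) (nat_lit 3) (nat_lit 3) (nat_lit 7) (nat_lit 265) (nat_lit 140) r8_265 r2_140 (nat_lit 0) (nat_lit 0) (nat_lit 0) (nat_lit 0x80029938e) (nat_lit 1073741824)]
noncomputable def e16_3 : List Rx := [
  Rx.mk (nat_lit 315) (nat_lit 3) (nat_lit 7) (nat_lit 4) (nat_lit 3) (nat_lit 43) (nat_lit 120) r8_43 r3_120 (nat_lit 0) (nat_lit 0) (nat_lit 265194) (nat_lit 0x80289589e) (nat_lit 1071507018),
  Rx.mk (nat_lit 379) (nat_lit 3) (nat_lit 7) (nat_lit 5) (nat_lit 7) (nat_lit 44) (nat_lit 121) r8_44 r3_121 (nat_lit 0) (nat_lit 0) (nat_lit 0) (nat_lit 0x85a4c7912) (nat_lit 982561124),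
  Rx.mk (nat_lit 475) (nat_lit 3) (nat_lit 3) (nat_lit 7) (nat_lit 7) (nat_lit 45) (nat_lit 119) r8_45 r3_119 (nat_lit 0) (nat_lit 0) (nat_lit 0) (nat_lit 0x80217ebb4) (nat_lit 1071767324),
  Rx.mk (nat_lit 507) (nat_lit 3) (nat_lit 7) (nat_lit 7) (nat_lit 7) (nat_lit 46) (nat_lit 122) r8_46 r3_122 (nat_lit 0) (nat_lit 0) (nat_lit 0) (nat_lit 0x80029938e) (nat_lit 1073741824)]
noncomputable def e16_4 : List Rx := [
  Rx.mk (nat_lit 315) (nat_lit 3) (nat_lit 7) (nat_lit 4) (nat_lit 3) (nat_lit 146) (nat_lit 126) r8_146 r4_126 (nat_lit 0) (nat_lit 0) (nat_lit 5673761) (nat_lit 0x7fec63c5e) (nat_lit 1080842585),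
  Rx.mk (nat_lit 475) (nat_lit 3) (nat_lit 3) (nat_lit 7) (nat_lit 7) (nat_lit 147) (nat_lit 125) r8_147 r4_125 (nat_lit 0) (nat_lit 0) (nat_lit 0) (nat_lit 0x80029938e) (nat_lit 1073741824),
  Rx.mk (nat_lit 507) (nat_lit 3) (nat_lit 7) (nat_lit 7) (nat_lit 7) (nat_lit 148) (nat_lit 127) r8_148 r4_127 (nat_lit 0) (nat_lit 0) (nat_lit 0) (nat_lit 0x80029938e) (nat_lit 1073741824)]
noncomputable def e16_5 : List Rx := [
  Rx.mk (nat_lit 283) (nat_lit 3) (nat_lit 3) (nat_lit 4) (nat_lit 3) (nat_lit 201) (nat_lit 118) r8_201 r5_118 (nat_lit 0) (nat_lit 0) (nat_lit 5787882) (nat_lit 0x7f8f3dde0) (nat_lit 1086988006),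
  Rx.mk (nat_lit 315) (nat_lit 3) (nat_lit 7) (nat_lit 4) (nat_lit 3) (nat_lit 202) (nat_lit 121) r8_202 r5_121 (nat_lit 0) (nat_lit 0) (nat_lit 1910235) (nat_lit 0x7f9e71762) (nat_lit 1082109159),
  Rx.mk (nat_lit 347) (nat_lit 3) (nat_lit 3) (nat_lit 5) (nat_lit 7) (nat_lit 203) (nat_lit 119) r8_203 r5_119 (nat_lit 0) (nat_lit 0) (nat_lit 0) (nat_lit 0x80029938e) (nat_lit 1073741824),
  Rx.mk (nat_lit 379) (nat_lit 3) (nat_lit 7) (nat_lit 5) (nat_lit 7) (nat_lit 204) (nat_lit 122) r8_204 r5_122 (nat_lit 0) (nat_lit 0) (nat_lit 0) (nat_lit 0x805be6810) (nat_lit 1068047724),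
  Rx.mk (nat_lit 475) (nat_lit 3) (nat_lit 3) (nat_lit 7) (nat_lit 7) (nat_lit 205) (nat_lit 120) r8_205 r5_120 (nat_lit 0) (nat_lit 0) (nat_lit 0) (nat_lit 0x80029938e) (nat_lit 1073741824)]
noncomputable def e16_6 : List Rx := [
  Rx.mk (nat_lit 88) (nat_lit 0) (nat_lit 3) (nat_lit 1) (nat_lit 6) (nat_lit 331) (nat_lit 176) r8_331 r3_176 (nat_lit 1997453) (nat_lit 0) (nat_lit 0) (nat_lit 0x763aeada0) (nat_lit 1238709277),
  Rx.mk (nat_lit 89) (nat_lit 1) (nat_lit 3) (nat_lit 1) (nat_lit 7) (nat_lit 332) (nat_lit 178) r8_332 r3_178 (nat_lit 0) (nat_lit 0) (nat_lit 0) (nat_lit 0x80177ed94) (nat_lit 1072404124),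
  Rx.mk (nat_lit 91) (nat_lit 3) (nat_lit 3) (nat_lit 1) (nat_lit 7) (nat_lit 333) (nat_lit 179) r8_333 r3_179 (nat_lit 0) (nat_lit 0) (nat_lit 0) (nat_lit 0x7fe356418) (nat_lit 1075754824),
  Rx.mk (nat_lit 320) (nat_lit 0) (nat_lit 0) (nat_lit 5) (nat_lit 4) (nat_lit 334) (nat_lit 173) r8_334 r3_173 (nat_lit 102120) (nat_lit 71889) (nat_lit 0) (nat_lit 0x6285859aa) (nat_lit 1565425633),
  Rx.mk (nat_lit 321) (nat_lit 1) (nat_lit 0) (nat_lit 5) (nat_lit 5) (nat_lit 335) (nat_lit 174) r8_335 r3_174 (nat_lit 0) (nat_lit 3747800) (nat_lit 0) (nat_lit 0x78d7bc56e) (nat_lit 1196904324),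
  Rx.mk (nat_lit 344) (nat_lit 0) (nat_lit 3) (nat_lit 5) (nat_lit 6) (nat_lit 336) (nat_lit 175) r8_336 r3_175 (nat_lit 889067) (nat_lit 0) (nat_lit 0) (nat_lit 0x75f75daa6) (nat_lit 1241990791),
  Rx.mk (nat_lit 345) (nat_lit 1) (nat_lit 3) (nat_lit 5) (nat_lit 7) (nat_lit 337) (nat_lit 177) r8_337 r3_177 (nat_lit 0) (nat_lit 0) (nat_lit 0) (nat_lit 0x800899acc) (nat_lit 1073355224)]
noncomputable def e16_7 : List Rx := [
  Rx.mk (nat_lit 64) (nat_lit 0) (nat_lit 0) (nat_lit 1) (nat_lit 4) (nat_lit 241) (nat_lit 188) r8_241 r0_188 (nat_lit 3077458) (nat_lit 36183064) (nat_lit 0) (nat_lit 0x574fcceae) (nat_lit 1791474846),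
  Rx.mk (nat_lit 65) (nat_lit 1) (nat_lit 0) (nat_lit 1) (nat_lit 5) (nat_lit 242) (nat_lit 189) r8_242 r0_189 (nat_lit 0) (nat_lit 7351485) (nat_lit 0) (nat_lit 0x7a4837e50) (nat_lit 1176515009),
  Rx.mk (nat_lit 66) (nat_lit 2) (nat_lit 0) (nat_lit 1) (nat_lit 5) (nat_lit 243) (nat_lit 190) r8_243 r0_190 (nat_lit 0) (nat_lit 188397076) (nat_lit 0) (nat_lit 0x7fb4f6636) (nat_lit 1267133600),
  Rx.mk (nat_lit 88) (nat_lit 0) (nat_lit 3) (nat_lit 1) (nat_lit 6) (nat_lit 244) (nat_lit 191) r8_244 r0_191 (nat_lit 2945103) (nat_lit 0) (nat_lit 0) (nat_lit 0x79da08f6a) (nat_lit 1179289527),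
  Rx.mk (nat_lit 89) (nat_lit 1) (nat_lit 3) (nat_lit 1) (nat_lit 7) (nat_lit 245) (nat_lit 192) r8_245 r0_192 (nat_lit 0) (nat_lit 0) (nat_lit 0) (nat_lit 0x7fff97802) (nat_lit 1073934624),
  Rx.mk (nat_lit 90) (nat_lit 2) (nat_lit 3) (nat_lit 1) (nat_lit 7) (nat_lit 246) (nat_lit 194) r8_246 r0_194 (nat_lit 0) (nat_lit 0) (nat_lit 0) (nat_lit 0x80029938e) (nat_lit 1073741824),
  Rx.mk (nat_lit 91) (nat_lit 3) (nat_lit 3) (nat_lit 1) (nat_lit 7) (nat_lit 247) (nat_lit 193) r8_247 r0_193 (nat_lit 0) (nat_lit 0) (nat_lit 0) (nat_lit 0x80029938e) (nat_lit 1073741824)]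
noncomputable def e16_8 : List Rx := [
  Rx.mk (nat_lit 0) (nat_lit 0) (nat_lit 0) (nat_lit 0) (nat_lit 0) (nat_lit 283) (nat_lit 201) r8_283 r1_201 (nat_lit 15319371) (nat_lit 114209413) (nat_lit 1918416) (nat_lit 0x41b550df4) (nat_lit 2243856724),
  Rx.mk (nat_lit 2) (nat_lit 2) (nat_lit 0) (nat_lit 0) (nat_lit 1) (nat_lit 284) (nat_lit 204) r8_284 r1_204 (nat_lit 0) (nat_lit 49656685) (nat_lit 3811645) (nat_lit 0x67434edb6) (nat_lit 1539734254),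
  Rx.mk (nat_lit 18) (nat_lit 2) (nat_lit 2) (nat_lit 0) (nat_lit 3) (nat_lit 285) (nat_lit 214) r8_285 r1_214 (nat_lit 0) (nat_lit 0) (nat_lit 5009605) (nat_lit 0x79cf2c0ba) (nat_lit 1182054929),
  Rx.mk (nat_lit 24) (nat_lit 0) (nat_lit 3) (nat_lit 0) (nat_lit 2) (nat_lit 286) (nat_lit 206) r8_286 r1_206 (nat_lit 7320286) (nat_lit 0) (nat_lit 4263426) (nat_lit 0x6945f5c3e) (nat_lit 1464332436),
  Rx.mk (nat_lit 26) (nat_lit 2) (nat_lit 3) (nat_lit 0) (nat_lit 3) (nat_lit 287) (nat_lit 212) r8_287 r1_212 (nat_lit 0) (nat_lit 0) (nat_lit 5449534) (nat_lit 0x80029938e) (nat_lit 1079191358),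
  Rx.mk (nat_lit 27) (nat_lit 3) (nat_lit 3) (nat_lit 0) (nat_lit 3) (nat_lit 288) (nat_lit 209) r8_288 r1_209 (nat_lit 0) (nat_lit 0) (nat_lit 5449534) (nat_lit 0x7fec9c43c) (nat_lit 1080603458),
  Rx.mk (nat_lit 64) (nat_lit 0) (nat_lit 0) (nat_lit 1) (nat_lit 4) (nat_lit 289) (nat_lit 202) r8_289 r1_202 (nat_lit 11555613) (nat_lit 11555613) (nat_lit 0) (nat_lit 0x649b277ac) (nat_lit 1553678350),
  Rx.mk (nat_lit 65) (nat_lit 1) (nat_lit 0) (nat_lit 1) (nat_lit 5) (nat_lit 290) (nat_lit 203) r8_290 r1_203 (nat_lit 0) (nat_lit 5714928) (nat_lit 0) (nat_lit 0x7ff0d9b4e) (nat_lit 1080597652),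
  Rx.mk (nat_lit 66) (nat_lit 2) (nat_lit 0) (nat_lit 1) (nat_lit 5) (nat_lit 291) (nat_lit 205) r8_291 r1_205 (nat_lit 0) (nat_lit 7630254) (nat_lit 0) (nat_lit 0x8044c7bb6) (nat_lit 1077143878),
  Rx.mk (nat_lit 82) (nat_lit 2) (nat_lit 2) (nat_lit 1) (nat_lit 7) (nat_lit 292) (nat_lit 215) r8_292 r1_215 (nat_lit 0) (nat_lit 0) (nat_lit 0) (nat_lit 0x807ff3424) (nat_lit 1065763424),
  Rx.mk (nat_lit 88) (nat_lit 0) (nat_lit 3) (nat_lit 1) (nat_lit 6) (nat_lit 293) (nat_lit 207) r8_293 r1_207 (nat_lit 5586817) (nat_lit 0) (nat_lit 0) (nat_lit 0x7ff93b2a6) (nat_lit 1079930041),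
  Rx.mk (nat_lit 89) (nat_lit 1) (nat_lit 3) (nat_lit 1) (nat_lit 7) (nat_lit 294) (nat_lit 208) r8_294 r1_208 (nat_lit 0) (nat_lit 0) (nat_lit 0) (nat_lit 0x80029938e) (nat_lit 1073741824),
  Rx.mk (nat_lit 90) (nat_lit 2) (nat_lit 3) (nat_lit 1) (nat_lit 7) (nat_lit 295) (nat_lit 213) r8_295 r1_213 (nat_lit 0) (nat_lit 0) (nat_lit 0) (nat_lit 0x80029938e) (nat_lit 1073741824),
  Rx.mk (nat_lit 91) (nat_lit 3) (nat_lit 3) (nat_lit 1) (nat_lit 7) (nat_lit 296) (nat_lit 210) r8_296 r1_210 (nat_lit 0) (nat_lit 0) (nat_lit 0) (nat_lit 0x80029938e) (nat_lit 1073741824),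
  Rx.mk (nat_lit 146) (nat_lit 2) (nat_lit 2) (nat_lit 2) (nat_lit 7) (nat_lit 297) (nat_lit 216) r8_297 r1_216 (nat_lit 0) (nat_lit 0) (nat_lit 0) (nat_lit 0x8009989a0) (nat_lit 1073292924),
  Rx.mk (nat_lit 219) (nat_lit 3) (nat_lit 3) (nat_lit 3) (nat_lit 7) (nat_lit 298) (nat_lit 211) r8_298 r1_211 (nat_lit 0) (nat_lit 0) (nat_lit 0) (nat_lit 0x80029938e) (nat_lit 1073741824)]
noncomputable def e16_9 : List Rx := [
  Rx.mk (nat_lit 88) (nat_lit 0) (nat_lit 3) (nat_lit 1) (nat_lit 6) (nat_lit 351) (nat_lit 177) r8_351 r4_177 (nat_lit 4339618) (nat_lit 0) (nat_lit 0) (nat_lit 0x8014a6cb6) (nat_lit 1076925342),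
  Rx.mk (nat_lit 89) (nat_lit 1) (nat_lit 3) (nat_lit 1) (nat_lit 7) (nat_lit 352) (nat_lit 178) r8_352 r4_178 (nat_lit 0) (nat_lit 0) (nat_lit 0) (nat_lit 0x80029938e) (nat_lit 1073741824),
  Rx.mk (nat_lit 90) (nat_lit 2) (nat_lit 3) (nat_lit 1) (nat_lit 7) (nat_lit 353) (nat_lit 180) r8_353 r4_180 (nat_lit 0) (nat_lit 0) (nat_lit 0) (nat_lit 0x80029938e) (nat_lit 1073741824),
  Rx.mk (nat_lit 91) (nat_lit 3) (nat_lit 3) (nat_lit 1) (nat_lit 7) (nat_lit 354) (nat_lit 179) r8_354 r4_179 (nat_lit 0) (nat_lit 0) (nat_lit 0) (nat_lit 0x80029938e) (nat_lit 1073741824)]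
noncomputable def e16_10 : List Rx := [
  Rx.mk (nat_lit 344) (nat_lit 0) (nat_lit 3) (nat_lit 5) (nat_lit 6) (nat_lit 221) (nat_lit 122) r8_221 r6_122 (nat_lit 5449534) (nat_lit 0) (nat_lit 0) (nat_lit 0x80029938e) (nat_lit 1079191358),
  Rx.mk (nat_lit 345) (nat_lit 1) (nat_lit 3) (nat_lit 5) (nat_lit 7) (nat_lit 222) (nat_lit 123) r8_222 r6_123 (nat_lit 0) (nat_lit 0) (nat_lit 0) (nat_lit 0x80029938e) (nat_lit 1073741824),
  Rx.mk (nat_lit 347) (nat_lit 3) (nat_lit 3) (nat_lit 5) (nat_lit 7) (nat_lit 223) (nat_lit 124) r8_223 r6_124 (nat_lit 0) (nat_lit 0) (nat_lit 0) (nat_lit 0x80029938e) (nat_lit 1073741824),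
  Rx.mk (nat_lit 379) (nat_lit 3) (nat_lit 7) (nat_lit 5) (nat_lit 7) (nat_lit 224) (nat_lit 125) r8_224 r6_125 (nat_lit 0) (nat_lit 0) (nat_lit 0) (nat_lit 0x8065dab1e) (nat_lit 1067416324)]
noncomputable def e16_11 : List Rx := [
  Rx.mk (nat_lit 91) (nat_lit 3) (nat_lit 3) (nat_lit 1) (nat_lit 7) (nat_lit 361) (nat_lit 196) r8_361 r5_196 (nat_lit 0) (nat_lit 0) (nat_lit 0) (nat_lit 0x80029938e) (nat_lit 1073741824),
  Rx.mk (nat_lit 320) (nat_lit 0) (nat_lit 0) (nat_lit 5) (nat_lit 4) (nat_lit 362) (nat_lit 191) r8_362 r5_191 (nat_lit 8738081) (nat_lit 23550711) (nat_lit 0) (nat_lit 0x6ca37911e) (nat_lit 1428927416),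
  Rx.mk (nat_lit 321) (nat_lit 1) (nat_lit 0) (nat_lit 5) (nat_lit 5) (nat_lit 363) (nat_lit 192) r8_363 r5_192 (nat_lit 0) (nat_lit 5449534) (nat_lit 0) (nat_lit 0x80029938e) (nat_lit 1079191358),
  Rx.mk (nat_lit 344) (nat_lit 0) (nat_lit 3) (nat_lit 5) (nat_lit 6) (nat_lit 364) (nat_lit 193) r8_364 r5_193 (nat_lit 6212599) (nat_lit 0) (nat_lit 0) (nat_lit 0x7fbcc638e) (nat_lit 1084455923),
  Rx.mk (nat_lit 345) (nat_lit 1) (nat_lit 3) (nat_lit 5) (nat_lit 7) (nat_lit 365) (nat_lit 194) r8_365 r5_194 (nat_lit 0) (nat_lit 0) (nat_lit 0) (nat_lit 0x80029938e) (nat_lit 1073741824),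
  Rx.mk (nat_lit 347) (nat_lit 3) (nat_lit 3) (nat_lit 5) (nat_lit 7) (nat_lit 366) (nat_lit 195) r8_366 r5_195 (nat_lit 0) (nat_lit 0) (nat_lit 0) (nat_lit 0x80029938e) (nat_lit 1073741824)]
noncomputable def e16_12 : List Rx := [
  Rx.mk (nat_lit 292) (nat_lit 4) (nat_lit 4) (nat_lit 4) (nat_lit 0) (nat_lit 0) (nat_lit 124) r8_0 r0_124 (nat_lit 875647) (nat_lit 19583288) (nat_lit 769730) (nat_lit 0x2e4eda24a) (nat_lit 2457082489),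
  Rx.mk (nat_lit 295) (nat_lit 7) (nat_lit 4) (nat_lit 4) (nat_lit 1) (nat_lit 1) (nat_lit 125) r8_1 r0_125 (nat_lit 0) (nat_lit 6110955) (nat_lit 6920669) (nat_lit 0x5c1df8e8c) (nat_lit 1685132748),
  Rx.mk (nat_lit 319) (nat_lit 7) (nat_lit 7) (nat_lit 4) (nat_lit 3) (nat_lit 2) (nat_lit 126) r8_2 r0_126 (nat_lit 0) (nat_lit 0) (nat_lit 3304366) (nat_lit 0x7121ef044) (nat_lit 1325017390),
  Rx.mk (nat_lit 356) (nat_lit 4) (nat_lit 4) (nat_lit 5) (nat_lit 4) (nat_lit 3) (nat_lit 127) r8_3 r0_127 (nat_lit 5177292) (nat_lit 10202902) (nat_lit 0) (nat_lit 0x5a407c046) (nat_lit 1718579418),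
  Rx.mk (nat_lit 359) (nat_lit 7) (nat_lit 4) (nat_lit 5) (nat_lit 5) (nat_lit 4) (nat_lit 128) r8_4 r0_128 (nat_lit 0) (nat_lit 7519074) (nat_lit 0) (nat_lit 0x7f790236e) (nat_lit 1090159298),
  Rx.mk (nat_lit 383) (nat_lit 7) (nat_lit 7) (nat_lit 5) (nat_lit 7) (nat_lit 5) (nat_lit 129) r8_5 r0_129 (nat_lit 0) (nat_lit 0) (nat_lit 0) (nat_lit 0x7ff585e22) (nat_lit 1074580824),
  Rx.mk (nat_lit 420) (nat_lit 4) (nat_lit 4) (nat_lit 6) (nat_lit 4) (nat_lit 6) (nat_lit 133) r8_6 r0_133 (nat_lit 11768288) (nat_lit 19041550) (nat_lit 0) (nat_lit 0x59527f2bc) (nat_lit 1749505762),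
  Rx.mk (nat_lit 423) (nat_lit 7) (nat_lit 4) (nat_lit 6) (nat_lit 5) (nat_lit 7) (nat_lit 134) r8_7 r0_134 (nat_lit 0) (nat_lit 11254699) (nat_lit 0) (nat_lit 0x7f97706d4) (nat_lit 1091919323),
  Rx.mk (nat_lit 436) (nat_lit 4) (nat_lit 6) (nat_lit 6) (nat_lit 6) (nat_lit 8) (nat_lit 136) r8_8 r0_136 (nat_lit 8974417) (nat_lit 0) (nat_lit 0) (nat_lit 0x79570f6e0) (nat_lit 1193845041),
  Rx.mk (nat_lit 438) (nat_lit 6) (nat_lit 6) (nat_lit 6) (nat_lit 7) (nat_lit 9) (nat_lit 138) r8_9 r0_138 (nat_lit 0) (nat_lit 0) (nat_lit 0) (nat_lit 0x80029938e) (nat_lit 1073741824),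
  Rx.mk (nat_lit 439) (nat_lit 7) (nat_lit 6) (nat_lit 6) (nat_lit 7) (nat_lit 10) (nat_lit 137) r8_10 r0_137 (nat_lit 0) (nat_lit 0) (nat_lit 0) (nat_lit 0x80029938e) (nat_lit 1073741824),
  Rx.mk (nat_lit 447) (nat_lit 7) (nat_lit 7) (nat_lit 6) (nat_lit 7) (nat_lit 11) (nat_lit 135) r8_11 r0_135 (nat_lit 0) (nat_lit 0) (nat_lit 0) (nat_lit 0x7ff7f4f0a) (nat_lit 1074424424),
  Rx.mk (nat_lit 475) (nat_lit 3) (nat_lit 3) (nat_lit 7) (nat_lit 7) (nat_lit 12) (nat_lit 132) r8_12 r0_132 (nat_lit 0) (nat_lit 0) (nat_lit 0) (nat_lit 0x7ffea679a) (nat_lit 1073995024),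
  Rx.mk (nat_lit 507) (nat_lit 3) (nat_lit 7) (nat_lit 7) (nat_lit 7) (nat_lit 13) (nat_lit 131) r8_13 r0_131 (nat_lit 0) (nat_lit 0) (nat_lit 0) (nat_lit 0x80000807a) (nat_lit 1073906424),
  Rx.mk (nat_lit 511) (nat_lit 7) (nat_lit 7) (nat_lit 7) (nat_lit 7) (nat_lit 14) (nat_lit 130) r8_14 r0_130 (nat_lit 0) (nat_lit 0) (nat_lit 0) (nat_lit 0x7fe8c0fac) (nat_lit 1075405124)]
noncomputable def e16_13 : List Rx := [
  Rx.mk (nat_lit 292) (nat_lit 4) (nat_lit 4) (nat_lit 4) (nat_lit 0) (nat_lit 78) (nat_lit 150) r8_78 r7_150 (nat_lit 3078217) (nat_lit 9910720) (nat_lit 3697174) (nat_lit 0x365589f52) (nat_lit 2318735535),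
  Rx.mk (nat_lit 295) (nat_lit 7) (nat_lit 4) (nat_lit 4) (nat_lit 1) (nat_lit 79) (nat_lit 153) r8_79 r7_153 (nat_lit 0) (nat_lit 5833776) (nat_lit 5820576) (nat_lit 0x62f217bb8) (nat_lit 1569901976),
  Rx.mk (nat_lit 319) (nat_lit 7) (nat_lit 7) (nat_lit 4) (nat_lit 3) (nat_lit 80) (nat_lit 155) r8_80 r7_155 (nat_lit 0) (nat_lit 0) (nat_lit 3594568) (nat_lit 0x7ff2cfe44) (nat_lit 1078347292),
  Rx.mk (nat_lit 420) (nat_lit 4) (nat_lit 4) (nat_lit 6) (nat_lit 4) (nat_lit 81) (nat_lit 151) r8_81 r7_151 (nat_lit 2813309) (nat_lit 2289832) (nat_lit 0) (nat_lit 0x6a26a4636) (nat_lit 1443213565),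
  Rx.mk (nat_lit 423) (nat_lit 7) (nat_lit 4) (nat_lit 6) (nat_lit 5) (nat_lit 82) (nat_lit 154) r8_82 r7_154 (nat_lit 0) (nat_lit 5449534) (nat_lit 0) (nat_lit 0x7ffb2a422) (nat_lit 1079668258),
  Rx.mk (nat_lit 436) (nat_lit 4) (nat_lit 6) (nat_lit 6) (nat_lit 6) (nat_lit 83) (nat_lit 152) r8_83 r7_152 (nat_lit 5449534) (nat_lit 0) (nat_lit 0) (nat_lit 0x7ffa30abc) (nat_lit 1079730858),
  Rx.mk (nat_lit 438) (nat_lit 6) (nat_lit 6) (nat_lit 6) (nat_lit 7) (nat_lit 84) (nat_lit 159) r8_84 r7_159 (nat_lit 0) (nat_lit 0) (nat_lit 0) (nat_lit 0x80029938e) (nat_lit 1073741824),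
  Rx.mk (nat_lit 439) (nat_lit 7) (nat_lit 6) (nat_lit 6) (nat_lit 7) (nat_lit 85) (nat_lit 158) r8_85 r7_158 (nat_lit 0) (nat_lit 0) (nat_lit 0) (nat_lit 0x80029938e) (nat_lit 1073741824),
  Rx.mk (nat_lit 447) (nat_lit 7) (nat_lit 7) (nat_lit 6) (nat_lit 7) (nat_lit 86) (nat_lit 157) r8_86 r7_157 (nat_lit 0) (nat_lit 0) (nat_lit 0) (nat_lit 0x80029938e) (nat_lit 1073741824),
  Rx.mk (nat_lit 475) (nat_lit 3) (nat_lit 3) (nat_lit 7) (nat_lit 7) (nat_lit 87) (nat_lit 148) r8_87 r7_148 (nat_lit 0) (nat_lit 0) (nat_lit 0) (nat_lit 0x80029938e) (nat_lit 1073741824),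
  Rx.mk (nat_lit 507) (nat_lit 3) (nat_lit 7) (nat_lit 7) (nat_lit 7) (nat_lit 88) (nat_lit 149) r8_88 r7_149 (nat_lit 0) (nat_lit 0) (nat_lit 0) (nat_lit 0x80029938e) (nat_lit 1073741824),
  Rx.mk (nat_lit 511) (nat_lit 7) (nat_lit 7) (nat_lit 7) (nat_lit 7) (nat_lit 89) (nat_lit 156) r8_89 r7_156 (nat_lit 0) (nat_lit 0) (nat_lit 0) (nat_lit 0x80029938e) (nat_lit 1073741824)]
noncomputable def e16_14 : List Rx := [
  Rx.mk (nat_lit 292) (nat_lit 4) (nat_lit 4) (nat_lit 4) (nat_lit 0) (nat_lit 15) (nat_lit 131) r8_15 r1_131 (nat_lit 2913128) (nat_lit 81717872) (nat_lit 11926250) (nat_lit 0x48dac9494) (nat_lit 2089819574),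
  Rx.mk (nat_lit 295) (nat_lit 7) (nat_lit 4) (nat_lit 4) (nat_lit 1) (nat_lit 16) (nat_lit 132) r8_16 r1_132 (nat_lit 0) (nat_lit 45348310) (nat_lit 24476340) (nat_lit 0x716a0d466) (nat_lit 1386843574),
  Rx.mk (nat_lit 319) (nat_lit 7) (nat_lit 7) (nat_lit 4) (nat_lit 3) (nat_lit 17) (nat_lit 133) r8_17 r1_133 (nat_lit 0) (nat_lit 0) (nat_lit 4792579) (nat_lit 0x7ff6a942a) (nat_lit 1079300103),
  Rx.mk (nat_lit 356) (nat_lit 4) (nat_lit 4) (nat_lit 5) (nat_lit 4) (nat_lit 18) (nat_lit 134) r8_18 r1_134 (nat_lit 5603265) (nat_lit 172043056) (nat_lit 0) (nat_lit 0x79817c89c) (nat_lit 1359753945),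
  Rx.mk (nat_lit 359) (nat_lit 7) (nat_lit 4) (nat_lit 5) (nat_lit 5) (nat_lit 19) (nat_lit 135) r8_19 r1_135 (nat_lit 0) (nat_lit 5449534) (nat_lit 0) (nat_lit 0x80029938e) (nat_lit 1079191358),
  Rx.mk (nat_lit 383) (nat_lit 7) (nat_lit 7) (nat_lit 5) (nat_lit 7) (nat_lit 20) (nat_lit 136) r8_20 r1_136 (nat_lit 0) (nat_lit 0) (nat_lit 0) (nat_lit 0x80029938e) (nat_lit 1073741824),
  Rx.mk (nat_lit 420) (nat_lit 4) (nat_lit 4) (nat_lit 6) (nat_lit 4) (nat_lit 21) (nat_lit 138) r8_21 r1_138 (nat_lit 4804096) (nat_lit 139970032) (nat_lit 0) (nat_lit 0x78866aa58) (nat_lit 1343234852),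
  Rx.mk (nat_lit 436) (nat_lit 4) (nat_lit 6) (nat_lit 6) (nat_lit 6) (nat_lit 22) (nat_lit 139) r8_22 r1_139 (nat_lit 4861700) (nat_lit 0) (nat_lit 0) (nat_lit 0x7fe599e8c) (nat_lit 1080466924),
  Rx.mk (nat_lit 438) (nat_lit 6) (nat_lit 6) (nat_lit 6) (nat_lit 7) (nat_lit 23) (nat_lit 140) r8_23 r1_140 (nat_lit 0) (nat_lit 0) (nat_lit 0) (nat_lit 0x80029938e) (nat_lit 1073741824),
  Rx.mk (nat_lit 511) (nat_lit 7) (nat_lit 7) (nat_lit 7) (nat_lit 7) (nat_lit 24) (nat_lit 137) r8_24 r1_137 (nat_lit 0) (nat_lit 0) (nat_lit 0) (nat_lit 0x80029938e) (nat_lit 1073741824)]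
noncomputable def e16_15 : List Rx := [
  Rx.mk (nat_lit 292) (nat_lit 4) (nat_lit 4) (nat_lit 4) (nat_lit 0) (nat_lit 126) (nat_lit 126) r8_126 r8_126 (nat_lit 5773073) (nat_lit 65670969) (nat_lit 5773073) (nat_lit 0x424175d8e) (nat_lit 2180503739),
  Rx.mk (nat_lit 295) (nat_lit 7) (nat_lit 4) (nat_lit 4) (nat_lit 1) (nat_lit 127) (nat_lit 129) r8_127 r8_129 (nat_lit 0) (nat_lit 4551188) (nat_lit 4933327) (nat_lit 0x6bd606ea2) (nat_lit 1419502739),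
  Rx.mk (nat_lit 319) (nat_lit 7) (nat_lit 7) (nat_lit 4) (nat_lit 3) (nat_lit 128) (nat_lit 130) r8_128 r8_130 (nat_lit 0) (nat_lit 0) (nat_lit 5449534) (nat_lit 0x80029938e) (nat_lit 1079191358),
  Rx.mk (nat_lit 420) (nat_lit 4) (nat_lit 4) (nat_lit 6) (nat_lit 4) (nat_lit 129) (nat_lit 127) r8_129 r8_127 (nat_lit 4933327) (nat_lit 4551188) (nat_lit 0) (nat_lit 0x6bd606ea2) (nat_lit 1419502739),
  Rx.mk (nat_lit 436) (nat_lit 4) (nat_lit 6) (nat_lit 6) (nat_lit 6) (nat_lit 130) (nat_lit 128) r8_130 r8_128 (nat_lit 5449534) (nat_lit 0) (nat_lit 0) (nat_lit 0x80029938e) (nat_lit 1079191358),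
  Rx.mk (nat_lit 438) (nat_lit 6) (nat_lit 6) (nat_lit 6) (nat_lit 7) (nat_lit 131) (nat_lit 132) r8_131 r8_132 (nat_lit 0) (nat_lit 0) (nat_lit 0) (nat_lit 0x80029938e) (nat_lit 1073741824),
  Rx.mk (nat_lit 511) (nat_lit 7) (nat_lit 7) (nat_lit 7) (nat_lit 7) (nat_lit 132) (nat_lit 131) r8_132 r8_131 (nat_lit 0) (nat_lit 0) (nat_lit 0) (nat_lit 0x80029938e) (nat_lit 1073741824)]
noncomputable def e16_16 : List Rx := [
  Rx.mk (nat_lit 0) (nat_lit 0) (nat_lit 0) (nat_lit 0) (nat_lit 0) (nat_lit 102) (nat_lit 114) r8_102 r8_114 (nat_lit 3541864) (nat_lit 7669699) (nat_lit 3167351) (nat_lit 0x3c2eed62c) (nat_lit 2218909038),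
  Rx.mk (nat_lit 2) (nat_lit 2) (nat_lit 0) (nat_lit 0) (nat_lit 1) (nat_lit 103) (nat_lit 115) r8_103 r8_115 (nat_lit 0) (nat_lit 4749179) (nat_lit 5260690) (nat_lit 0x67a0009ec) (nat_lit 1490238693),
  Rx.mk (nat_lit 18) (nat_lit 2) (nat_lit 2) (nat_lit 0) (nat_lit 3) (nat_lit 104) (nat_lit 116) r8_104 r8_116 (nat_lit 0) (nat_lit 0) (nat_lit 5449534) (nat_lit 0x7ff093d10) (nat_lit 1080349458),
  Rx.mk (nat_lit 146) (nat_lit 2) (nat_lit 2) (nat_lit 2) (nat_lit 7) (nat_lit 105) (nat_lit 125) r8_105 r8_125 (nat_lit 0) (nat_lit 0) (nat_lit 0) (nat_lit 0x80029938e) (nat_lit 1073741824),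
  Rx.mk (nat_lit 150) (nat_lit 6) (nat_lit 2) (nat_lit 2) (nat_lit 7) (nat_lit 106) (nat_lit 124) r8_106 r8_124 (nat_lit 0) (nat_lit 0) (nat_lit 0) (nat_lit 0x80029938e) (nat_lit 1073741824),
  Rx.mk (nat_lit 182) (nat_lit 6) (nat_lit 6) (nat_lit 2) (nat_lit 7) (nat_lit 107) (nat_lit 123) r8_107 r8_123 (nat_lit 0) (nat_lit 0) (nat_lit 0) (nat_lit 0x80029938e) (nat_lit 1073741824),
  Rx.mk (nat_lit 192) (nat_lit 0) (nat_lit 0) (nat_lit 3) (nat_lit 4) (nat_lit 108) (nat_lit 117) r8_108 r8_117 (nat_lit 600781) (nat_lit 570904) (nat_lit 0) (nat_lit 0x6f7ab234a) (nat_lit 1350424009),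
  Rx.mk (nat_lit 194) (nat_lit 2) (nat_lit 0) (nat_lit 3) (nat_lit 5) (nat_lit 109) (nat_lit 118) r8_109 r8_118 (nat_lit 0) (nat_lit 5031568) (nat_lit 0) (nat_lit 0x7ff22df90) (nat_lit 1079827992),
  Rx.mk (nat_lit 210) (nat_lit 2) (nat_lit 2) (nat_lit 3) (nat_lit 7) (nat_lit 110) (nat_lit 122) r8_110 r8_122 (nat_lit 0) (nat_lit 0) (nat_lit 0) (nat_lit 0x80029938e) (nat_lit 1073741824),
  Rx.mk (nat_lit 216) (nat_lit 0) (nat_lit 3) (nat_lit 3) (nat_lit 6) (nat_lit 111) (nat_lit 119) r8_111 r8_119 (nat_lit 5449534) (nat_lit 0) (nat_lit 0) (nat_lit 0x7ff50b064) (nat_lit 1080061658),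
  Rx.mk (nat_lit 218) (nat_lit 2) (nat_lit 3) (nat_lit 3) (nat_lit 7) (nat_lit 112) (nat_lit 121) r8_112 r8_121 (nat_lit 0) (nat_lit 0) (nat_lit 0) (nat_lit 0x80029938e) (nat_lit 1073741824),
  Rx.mk (nat_lit 219) (nat_lit 3) (nat_lit 3) (nat_lit 3) (nat_lit 7) (nat_lit 113) (nat_lit 120) r8_113 r8_120 (nat_lit 0) (nat_lit 0) (nat_lit 0) (nat_lit 0x80029938e) (nat_lit 1073741824),
  Rx.mk (nat_lit 292) (nat_lit 4) (nat_lit 4) (nat_lit 4) (nat_lit 0) (nat_lit 114) (nat_lit 102) r8_114 r8_102 (nat_lit 3541864) (nat_lit 7669699) (nat_lit 3167351) (nat_lit 0x3c2eed62c) (nat_lit 2218909038),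
  Rx.mk (nat_lit 295) (nat_lit 7) (nat_lit 4) (nat_lit 4) (nat_lit 1) (nat_lit 115) (nat_lit 103) r8_115 r8_103 (nat_lit 0) (nat_lit 4749179) (nat_lit 5260690) (nat_lit 0x67a0009ec) (nat_lit 1490238693),
  Rx.mk (nat_lit 319) (nat_lit 7) (nat_lit 7) (nat_lit 4) (nat_lit 3) (nat_lit 116) (nat_lit 104) r8_116 r8_104 (nat_lit 0) (nat_lit 0) (nat_lit 5449534) (nat_lit 0x7ff093d10) (nat_lit 1080349458),
  Rx.mk (nat_lit 420) (nat_lit 4) (nat_lit 4) (nat_lit 6) (nat_lit 4) (nat_lit 117) (nat_lit 108) r8_117 r8_108 (nat_lit 600781) (nat_lit 570904) (nat_lit 0) (nat_lit 0x6f7ab234a) (nat_lit 1350424009),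
  Rx.mk (nat_lit 423) (nat_lit 7) (nat_lit 4) (nat_lit 6) (nat_lit 5) (nat_lit 118) (nat_lit 109) r8_118 r8_109 (nat_lit 0) (nat_lit 5031568) (nat_lit 0) (nat_lit 0x7ff22df90) (nat_lit 1079827992),
  Rx.mk (nat_lit 436) (nat_lit 4) (nat_lit 6) (nat_lit 6) (nat_lit 6) (nat_lit 119) (nat_lit 111) r8_119 r8_111 (nat_lit 5449534) (nat_lit 0) (nat_lit 0) (nat_lit 0x7ff50b064) (nat_lit 1080061658),
  Rx.mk (nat_lit 438) (nat_lit 6) (nat_lit 6) (nat_lit 6) (nat_lit 7) (nat_lit 120) (nat_lit 113) r8_120 r8_113 (nat_lit 0) (nat_lit 0) (nat_lit 0) (nat_lit 0x80029938e) (nat_lit 1073741824),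
  Rx.mk (nat_lit 439) (nat_lit 7) (nat_lit 6) (nat_lit 6) (nat_lit 7) (nat_lit 121) (nat_lit 112) r8_121 r8_112 (nat_lit 0) (nat_lit 0) (nat_lit 0) (nat_lit 0x80029938e) (nat_lit 1073741824),
  Rx.mk (nat_lit 447) (nat_lit 7) (nat_lit 7) (nat_lit 6) (nat_lit 7) (nat_lit 122) (nat_lit 110) r8_122 r8_110 (nat_lit 0) (nat_lit 0) (nat_lit 0) (nat_lit 0x80029938e) (nat_lit 1073741824),
  Rx.mk (nat_lit 475) (nat_lit 3) (nat_lit 3) (nat_lit 7) (nat_lit 7) (nat_lit 123) (nat_lit 107) r8_123 r8_107 (nat_lit 0) (nat_lit 0) (nat_lit 0) (nat_lit 0x80029938e) (nat_lit 1073741824),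
  Rx.mk (nat_lit 507) (nat_lit 3) (nat_lit 7) (nat_lit 7) (nat_lit 7) (nat_lit 124) (nat_lit 106) r8_124 r8_106 (nat_lit 0) (nat_lit 0) (nat_lit 0) (nat_lit 0x80029938e) (nat_lit 1073741824),
  Rx.mk (nat_lit 511) (nat_lit 7) (nat_lit 7) (nat_lit 7) (nat_lit 7) (nat_lit 125) (nat_lit 105) r8_125 r8_105 (nat_lit 0) (nat_lit 0) (nat_lit 0) (nat_lit 0x80029938e) (nat_lit 1073741824)]
noncomputable def e16_17 : List Rx := [
  Rx.mk (nat_lit 0) (nat_lit 0) (nat_lit 0) (nat_lit 0) (nat_lit 0) (nat_lit 273) (nat_lit 99) r8_273 r9_99 (nat_lit 3283945) (nat_lit 10845530) (nat_lit 3207243) (nat_lit 0x3b8a2a25c) (nat_lit 2232597442),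
  Rx.mk (nat_lit 2) (nat_lit 2) (nat_lit 0) (nat_lit 0) (nat_lit 1) (nat_lit 274) (nat_lit 103) r8_274 r9_103 (nat_lit 0) (nat_lit 4026349) (nat_lit 6516495) (nat_lit 0x6c0f7a8a0) (nat_lit 1416819768),
  Rx.mk (nat_lit 18) (nat_lit 2) (nat_lit 2) (nat_lit 0) (nat_lit 3) (nat_lit 275) (nat_lit 106) r8_275 r9_106 (nat_lit 0) (nat_lit 0) (nat_lit 5449534) (nat_lit 0x80029938e) (nat_lit 1079191358),
  Rx.mk (nat_lit 24) (nat_lit 0) (nat_lit 3) (nat_lit 0) (nat_lit 2) (nat_lit 276) (nat_lit 100) r8_276 r9_100 (nat_lit 4643983) (nat_lit 0) (nat_lit 5166248) (nat_lit 0x6e6877564) (nat_lit 1376945555),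
  Rx.mk (nat_lit 26) (nat_lit 2) (nat_lit 3) (nat_lit 0) (nat_lit 3) (nat_lit 277) (nat_lit 104) r8_277 r9_104 (nat_lit 0) (nat_lit 0) (nat_lit 5449534) (nat_lit 0x80029938e) (nat_lit 1079191358),
  Rx.mk (nat_lit 146) (nat_lit 2) (nat_lit 2) (nat_lit 2) (nat_lit 7) (nat_lit 278) (nat_lit 107) r8_278 r9_107 (nat_lit 0) (nat_lit 0) (nat_lit 0) (nat_lit 0x80029938e) (nat_lit 1073741824),
  Rx.mk (nat_lit 150) (nat_lit 6) (nat_lit 2) (nat_lit 2) (nat_lit 7) (nat_lit 279) (nat_lit 108) r8_279 r9_108 (nat_lit 0) (nat_lit 0) (nat_lit 0) (nat_lit 0x80029938e) (nat_lit 1073741824),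
  Rx.mk (nat_lit 216) (nat_lit 0) (nat_lit 3) (nat_lit 3) (nat_lit 6) (nat_lit 280) (nat_lit 101) r8_280 r9_101 (nat_lit 5449534) (nat_lit 0) (nat_lit 0) (nat_lit 0x8000c26c8) (nat_lit 1079309258),
  Rx.mk (nat_lit 218) (nat_lit 2) (nat_lit 3) (nat_lit 3) (nat_lit 7) (nat_lit 281) (nat_lit 105) r8_281 r9_105 (nat_lit 0) (nat_lit 0) (nat_lit 0) (nat_lit 0x80029938e) (nat_lit 1073741824),
  Rx.mk (nat_lit 219) (nat_lit 3) (nat_lit 3) (nat_lit 3) (nat_lit 7) (nat_lit 282) (nat_lit 102) r8_282 r9_102 (nat_lit 0) (nat_lit 0) (nat_lit 0) (nat_lit 0x80029938e) (nat_lit 1073741824)]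
noncomputable def e16_18 : List Rx := [
  Rx.mk (nat_lit 295) (nat_lit 7) (nat_lit 4) (nat_lit 4) (nat_lit 1) (nat_lit 47) (nat_lit 114) r8_47 r4_114 (nat_lit 0) (nat_lit 8571815) (nat_lit 9446528) (nat_lit 0x6c370d6e2) (nat_lit 1421722967),
  Rx.mk (nat_lit 315) (nat_lit 3) (nat_lit 7) (nat_lit 4) (nat_lit 3) (nat_lit 48) (nat_lit 116) r8_48 r4_116 (nat_lit 0) (nat_lit 0) (nat_lit 3917153) (nat_lit 0x801c7137e) (nat_lit 1076004277),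
  Rx.mk (nat_lit 319) (nat_lit 7) (nat_lit 7) (nat_lit 4) (nat_lit 3) (nat_lit 49) (nat_lit 115) r8_49 r4_115 (nat_lit 0) (nat_lit 0) (nat_lit 3225500) (nat_lit 0x7ffacb274) (nat_lit 1077464224),
  Rx.mk (nat_lit 359) (nat_lit 7) (nat_lit 4) (nat_lit 5) (nat_lit 5) (nat_lit 50) (nat_lit 117) r8_50 r4_117 (nat_lit 0) (nat_lit 5449534) (nat_lit 0) (nat_lit 0x80029938e) (nat_lit 1079191358),
  Rx.mk (nat_lit 379) (nat_lit 3) (nat_lit 7) (nat_lit 5) (nat_lit 7) (nat_lit 51) (nat_lit 119) r8_51 r4_119 (nat_lit 0) (nat_lit 0) (nat_lit 0) (nat_lit 0x800f1e8de) (nat_lit 1072939424),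
  Rx.mk (nat_lit 383) (nat_lit 7) (nat_lit 7) (nat_lit 5) (nat_lit 7) (nat_lit 52) (nat_lit 118) r8_52 r4_118 (nat_lit 0) (nat_lit 0) (nat_lit 0) (nat_lit 0x802937ce8) (nat_lit 1071271324),
  Rx.mk (nat_lit 423) (nat_lit 7) (nat_lit 4) (nat_lit 6) (nat_lit 5) (nat_lit 53) (nat_lit 122) r8_53 r4_122 (nat_lit 0) (nat_lit 5449534) (nat_lit 0) (nat_lit 0x80029938e) (nat_lit 1079191358),
  Rx.mk (nat_lit 439) (nat_lit 7) (nat_lit 6) (nat_lit 6) (nat_lit 7) (nat_lit 54) (nat_lit 124) r8_54 r4_124 (nat_lit 0) (nat_lit 0) (nat_lit 0) (nat_lit 0x80029938e) (nat_lit 1073741824),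
  Rx.mk (nat_lit 447) (nat_lit 7) (nat_lit 7) (nat_lit 6) (nat_lit 7) (nat_lit 55) (nat_lit 123) r8_55 r4_123 (nat_lit 0) (nat_lit 0) (nat_lit 0) (nat_lit 0x802937ce8) (nat_lit 1071271324),
  Rx.mk (nat_lit 475) (nat_lit 3) (nat_lit 3) (nat_lit 7) (nat_lit 7) (nat_lit 56) (nat_lit 121) r8_56 r4_121 (nat_lit 0) (nat_lit 0) (nat_lit 0) (nat_lit 0x80029938e) (nat_lit 1073741824),
  Rx.mk (nat_lit 507) (nat_lit 3) (nat_lit 7) (nat_lit 7) (nat_lit 7) (nat_lit 57) (nat_lit 120) r8_57 r4_120 (nat_lit 0) (nat_lit 0) (nat_lit 0) (nat_lit 0x80029938e) (nat_lit 1073741824)]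
noncomputable def e16_19 : List Rx := [
  Rx.mk (nat_lit 295) (nat_lit 7) (nat_lit 4) (nat_lit 4) (nat_lit 1) (nat_lit 149) (nat_lit 112) r8_149 r10_112 (nat_lit 0) (nat_lit 6554309) (nat_lit 5127106) (nat_lit 0x6a304083e) (nat_lit 1449170039),
  Rx.mk (nat_lit 315) (nat_lit 3) (nat_lit 7) (nat_lit 4) (nat_lit 3) (nat_lit 150) (nat_lit 110) r8_150 r10_110 (nat_lit 0) (nat_lit 0) (nat_lit 5449534) (nat_lit 0x80029938e) (nat_lit 1079191358),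
  Rx.mk (nat_lit 319) (nat_lit 7) (nat_lit 7) (nat_lit 4) (nat_lit 3) (nat_lit 151) (nat_lit 114) r8_151 r10_114 (nat_lit 0) (nat_lit 0) (nat_lit 3003115) (nat_lit 0x801ee9084) (nat_lit 1074931639),
  Rx.mk (nat_lit 423) (nat_lit 7) (nat_lit 4) (nat_lit 6) (nat_lit 5) (nat_lit 152) (nat_lit 113) r8_152 r10_113 (nat_lit 0) (nat_lit 5449534) (nat_lit 0) (nat_lit 0x80029938e) (nat_lit 1079191358),
  Rx.mk (nat_lit 439) (nat_lit 7) (nat_lit 6) (nat_lit 6) (nat_lit 7) (nat_lit 153) (nat_lit 116) r8_153 r10_116 (nat_lit 0) (nat_lit 0) (nat_lit 0) (nat_lit 0x80029938e) (nat_lit 1073741824),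
  Rx.mk (nat_lit 447) (nat_lit 7) (nat_lit 7) (nat_lit 6) (nat_lit 7) (nat_lit 154) (nat_lit 115) r8_154 r10_115 (nat_lit 0) (nat_lit 0) (nat_lit 0) (nat_lit 0x80029938e) (nat_lit 1073741824),
  Rx.mk (nat_lit 475) (nat_lit 3) (nat_lit 3) (nat_lit 7) (nat_lit 7) (nat_lit 155) (nat_lit 109) r8_155 r10_109 (nat_lit 0) (nat_lit 0) (nat_lit 0) (nat_lit 0x80029938e) (nat_lit 1073741824),
  Rx.mk (nat_lit 507) (nat_lit 3) (nat_lit 7) (nat_lit 7) (nat_lit 7) (nat_lit 156) (nat_lit 111) r8_156 r10_111 (nat_lit 0) (nat_lit 0) (nat_lit 0) (nat_lit 0x80029938e) (nat_lit 1073741824)]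
noncomputable def e16_20 : List Rx := [
  Rx.mk (nat_lit 283) (nat_lit 3) (nat_lit 3) (nat_lit 4) (nat_lit 3) (nat_lit 206) (nat_lit 115) r8_206 r11_115 (nat_lit 0) (nat_lit 0) (nat_lit 5612407) (nat_lit 0x7ff40af5c) (nat_lit 1080288431),
  Rx.mk (nat_lit 315) (nat_lit 3) (nat_lit 7) (nat_lit 4) (nat_lit 3) (nat_lit 207) (nat_lit 118) r8_207 r11_118 (nat_lit 0) (nat_lit 0) (nat_lit 5449534) (nat_lit 0x80029938e) (nat_lit 1079191358),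
  Rx.mk (nat_lit 319) (nat_lit 7) (nat_lit 7) (nat_lit 4) (nat_lit 3) (nat_lit 208) (nat_lit 120) r8_208 r11_120 (nat_lit 0) (nat_lit 0) (nat_lit 4232301) (nat_lit 0x8010bf30a) (nat_lit 1077067325),
  Rx.mk (nat_lit 347) (nat_lit 3) (nat_lit 3) (nat_lit 5) (nat_lit 7) (nat_lit 209) (nat_lit 116) r8_209 r11_116 (nat_lit 0) (nat_lit 0) (nat_lit 0) (nat_lit 0x80029938e) (nat_lit 1073741824),
  Rx.mk (nat_lit 379) (nat_lit 3) (nat_lit 7) (nat_lit 5) (nat_lit 7) (nat_lit 210) (nat_lit 119) r8_210 r11_119 (nat_lit 0) (nat_lit 0) (nat_lit 0) (nat_lit 0x80029938e) (nat_lit 1073741824),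
  Rx.mk (nat_lit 383) (nat_lit 7) (nat_lit 7) (nat_lit 5) (nat_lit 7) (nat_lit 211) (nat_lit 121) r8_211 r11_121 (nat_lit 0) (nat_lit 0) (nat_lit 0) (nat_lit 0x80029938e) (nat_lit 1073741824),
  Rx.mk (nat_lit 447) (nat_lit 7) (nat_lit 7) (nat_lit 6) (nat_lit 7) (nat_lit 212) (nat_lit 122) r8_212 r11_122 (nat_lit 0) (nat_lit 0) (nat_lit 0) (nat_lit 0x80029938e) (nat_lit 1073741824),
  Rx.mk (nat_lit 475) (nat_lit 3) (nat_lit 3) (nat_lit 7) (nat_lit 7) (nat_lit 213) (nat_lit 117) r8_213 r11_117 (nat_lit 0) (nat_lit 0) (nat_lit 0) (nat_lit 0x80029938e) (nat_lit 1073741824)]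
noncomputable def e16_21 : List Rx := [
  Rx.mk (nat_lit 0) (nat_lit 0) (nat_lit 0) (nat_lit 0) (nat_lit 0) (nat_lit 266) (nat_lit 202) r8_266 r9_202 (nat_lit 6754004) (nat_lit 7499955) (nat_lit 3365773) (nat_lit 0x3daadc94e) (nat_lit 2197406356),
  Rx.mk (nat_lit 2) (nat_lit 2) (nat_lit 0) (nat_lit 0) (nat_lit 1) (nat_lit 267) (nat_lit 203) r8_267 r9_203 (nat_lit 0) (nat_lit 7900404) (nat_lit 9276876) (nat_lit 0x7130d9410) (nat_lit 1337916804),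
  Rx.mk (nat_lit 18) (nat_lit 2) (nat_lit 2) (nat_lit 0) (nat_lit 3) (nat_lit 268) (nat_lit 207) r8_268 r9_207 (nat_lit 0) (nat_lit 0) (nat_lit 5449534) (nat_lit 0x80029938e) (nat_lit 1079191358),
  Rx.mk (nat_lit 24) (nat_lit 0) (nat_lit 3) (nat_lit 0) (nat_lit 2) (nat_lit 269) (nat_lit 204) r8_269 r9_204 (nat_lit 6439668) (nat_lit 0) (nat_lit 5675110) (nat_lit 0x70ead3b50) (nat_lit 1337414702),
  Rx.mk (nat_lit 146) (nat_lit 2) (nat_lit 2) (nat_lit 2) (nat_lit 7) (nat_lit 270) (nat_lit 208) r8_270 r9_208 (nat_lit 0) (nat_lit 0) (nat_lit 0) (nat_lit 0x80029938e) (nat_lit 1073741824),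
  Rx.mk (nat_lit 216) (nat_lit 0) (nat_lit 3) (nat_lit 3) (nat_lit 6) (nat_lit 271) (nat_lit 205) r8_271 r9_205 (nat_lit 5449534) (nat_lit 0) (nat_lit 0) (nat_lit 0x80029938e) (nat_lit 1079191358),
  Rx.mk (nat_lit 219) (nat_lit 3) (nat_lit 3) (nat_lit 3) (nat_lit 7) (nat_lit 272) (nat_lit 206) r8_272 r9_206 (nat_lit 0) (nat_lit 0) (nat_lit 0) (nat_lit 0x80029938e) (nat_lit 1073741824)]
noncomputable def e16_22 : List Rx := [
  Rx.mk (nat_lit 64) (nat_lit 0) (nat_lit 0) (nat_lit 1) (nat_lit 4) (nat_lit 230) (nat_lit 271) r8_230 r0_271 (nat_lit 7556884) (nat_lit 10233960) (nat_lit 0) (nat_lit 0x4f43b3c9c) (nat_lit 1904185068),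
  Rx.mk (nat_lit 65) (nat_lit 1) (nat_lit 0) (nat_lit 1) (nat_lit 5) (nat_lit 231) (nat_lit 274) r8_231 r0_274 (nat_lit 0) (nat_lit 7503020) (nat_lit 0) (nat_lit 0x6d6ab5fac) (nat_lit 1391167544),
  Rx.mk (nat_lit 72) (nat_lit 0) (nat_lit 1) (nat_lit 1) (nat_lit 6) (nat_lit 232) (nat_lit 272) r8_232 r0_272 (nat_lit 7909290) (nat_lit 0) (nat_lit 0) (nat_lit 0x7a5a2401e) (nat_lit 1175906214),
  Rx.mk (nat_lit 73) (nat_lit 1) (nat_lit 1) (nat_lit 1) (nat_lit 7) (nat_lit 233) (nat_lit 275) r8_233 r0_275 (nat_lit 0) (nat_lit 0) (nat_lit 0) (nat_lit 0x7fcefe272) (nat_lit 1077071724),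
  Rx.mk (nat_lit 88) (nat_lit 0) (nat_lit 3) (nat_lit 1) (nat_lit 6) (nat_lit 234) (nat_lit 273) r8_234 r0_273 (nat_lit 6684980) (nat_lit 0) (nat_lit 0) (nat_lit 0x7f181fd94) (nat_lit 1095629604),
  Rx.mk (nat_lit 89) (nat_lit 1) (nat_lit 3) (nat_lit 1) (nat_lit 7) (nat_lit 235) (nat_lit 276) r8_235 r0_276 (nat_lit 0) (nat_lit 0) (nat_lit 0) (nat_lit 0x80001f996) (nat_lit 1073900524),
  Rx.mk (nat_lit 91) (nat_lit 3) (nat_lit 3) (nat_lit 1) (nat_lit 7) (nat_lit 236) (nat_lit 277) r8_236 r0_277 (nat_lit 0) (nat_lit 0) (nat_lit 0) (nat_lit 0x80029938e) (nat_lit 1073741824),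
  Rx.mk (nat_lit 320) (nat_lit 0) (nat_lit 0) (nat_lit 5) (nat_lit 4) (nat_lit 237) (nat_lit 278) r8_237 r0_278 (nat_lit 8414272) (nat_lit 3003976) (nat_lit 0) (nat_lit 0x59cd441c8) (nat_lit 1722113272),
  Rx.mk (nat_lit 321) (nat_lit 1) (nat_lit 0) (nat_lit 5) (nat_lit 5) (nat_lit 238) (nat_lit 280) r8_238 r0_280 (nat_lit 0) (nat_lit 5951502) (nat_lit 0) (nat_lit 0x73924f6f2) (nat_lit 1286998026),
  Rx.mk (nat_lit 328) (nat_lit 0) (nat_lit 1) (nat_lit 5) (nat_lit 6) (nat_lit 239) (nat_lit 279) r8_239 r0_279 (nat_lit 5449534) (nat_lit 0) (nat_lit 0) (nat_lit 0x7f7c3426c) (nat_lit 1087884558),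
  Rx.mk (nat_lit 329) (nat_lit 1) (nat_lit 1) (nat_lit 5) (nat_lit 7) (nat_lit 240) (nat_lit 281) r8_240 r0_281 (nat_lit 0) (nat_lit 0) (nat_lit 0) (nat_lit 0x800f47324) (nat_lit 1072928224)]
noncomputable def e16_23 : List Rx := [
  Rx.mk (nat_lit 72) (nat_lit 0) (nat_lit 1) (nat_lit 1) (nat_lit 6) (nat_lit 316) (nat_lit 274) r8_316 r1_274 (nat_lit 5449534) (nat_lit 0) (nat_lit 0) (nat_lit 0x7ff85fa80) (nat_lit 1079847858),
  Rx.mk (nat_lit 73) (nat_lit 1) (nat_lit 1) (nat_lit 1) (nat_lit 7) (nat_lit 317) (nat_lit 275) r8_317 r1_275 (nat_lit 0) (nat_lit 0) (nat_lit 0) (nat_lit 0x80029938e) (nat_lit 1073741824),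
  Rx.mk (nat_lit 328) (nat_lit 0) (nat_lit 1) (nat_lit 5) (nat_lit 6) (nat_lit 318) (nat_lit 276) r8_318 r1_276 (nat_lit 5449534) (nat_lit 0) (nat_lit 0) (nat_lit 0x7fe5be62e) (nat_lit 1081045658),
  Rx.mk (nat_lit 329) (nat_lit 1) (nat_lit 1) (nat_lit 5) (nat_lit 7) (nat_lit 319) (nat_lit 277) r8_319 r1_277 (nat_lit 0) (nat_lit 0) (nat_lit 0) (nat_lit 0x800e1d8b8) (nat_lit 1073003524)]
noncomputable def e16_24 : List Rx := [
  Rx.mk (nat_lit 88) (nat_lit 0) (nat_lit 3) (nat_lit 1) (nat_lit 6) (nat_lit 338) (nat_lit 284) r8_338 r4_284 (nat_lit 5449534) (nat_lit 0) (nat_lit 0) (nat_lit 0x80029938e) (nat_lit 1079191358),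
  Rx.mk (nat_lit 89) (nat_lit 1) (nat_lit 3) (nat_lit 1) (nat_lit 7) (nat_lit 339) (nat_lit 285) r8_339 r4_285 (nat_lit 0) (nat_lit 0) (nat_lit 0) (nat_lit 0x80029938e) (nat_lit 1073741824),
  Rx.mk (nat_lit 91) (nat_lit 3) (nat_lit 3) (nat_lit 1) (nat_lit 7) (nat_lit 340) (nat_lit 286) r8_340 r4_286 (nat_lit 0) (nat_lit 0) (nat_lit 0) (nat_lit 0x80029938e) (nat_lit 1073741824),
  Rx.mk (nat_lit 320) (nat_lit 0) (nat_lit 0) (nat_lit 5) (nat_lit 4) (nat_lit 341) (nat_lit 287) r8_341 r4_287 (nat_lit 6927974) (nat_lit 6310285) (nat_lit 0) (nat_lit 0x6ff2af942) (nat_lit 1354702483),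
  Rx.mk (nat_lit 321) (nat_lit 1) (nat_lit 0) (nat_lit 5) (nat_lit 5) (nat_lit 342) (nat_lit 290) r8_342 r4_290 (nat_lit 0) (nat_lit 5449534) (nat_lit 0) (nat_lit 0x80029938e) (nat_lit 1079191358),
  Rx.mk (nat_lit 328) (nat_lit 0) (nat_lit 1) (nat_lit 5) (nat_lit 6) (nat_lit 343) (nat_lit 288) r8_343 r4_288 (nat_lit 5449534) (nat_lit 0) (nat_lit 0) (nat_lit 0x80029938e) (nat_lit 1079191358),
  Rx.mk (nat_lit 329) (nat_lit 1) (nat_lit 1) (nat_lit 5) (nat_lit 7) (nat_lit 344) (nat_lit 291) r8_344 r4_291 (nat_lit 0) (nat_lit 0) (nat_lit 0) (nat_lit 0x80029938e) (nat_lit 1073741824),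
  Rx.mk (nat_lit 344) (nat_lit 0) (nat_lit 3) (nat_lit 5) (nat_lit 6) (nat_lit 345) (nat_lit 289) r8_345 r4_289 (nat_lit 5449534) (nat_lit 0) (nat_lit 0) (nat_lit 0x80029938e) (nat_lit 1079191358),
  Rx.mk (nat_lit 345) (nat_lit 1) (nat_lit 3) (nat_lit 5) (nat_lit 7) (nat_lit 346) (nat_lit 292) r8_346 r4_292 (nat_lit 0) (nat_lit 0) (nat_lit 0) (nat_lit 0x80029938e) (nat_lit 1073741824)]
noncomputable def e16_25 : List Rx := [
  Rx.mk (nat_lit 64) (nat_lit 0) (nat_lit 0) (nat_lit 1) (nat_lit 4) (nat_lit 248) (nat_lit 246) r8_248 r7_246 (nat_lit 9806922) (nat_lit 18822904) (nat_lit 0) (nat_lit 0x645205e84) (nat_lit 1563957550),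
  Rx.mk (nat_lit 65) (nat_lit 1) (nat_lit 0) (nat_lit 1) (nat_lit 5) (nat_lit 249) (nat_lit 247) r8_249 r7_247 (nat_lit 0) (nat_lit 5661505) (nat_lit 0) (nat_lit 0x7ff885e6a) (nat_lit 1080049829),
  Rx.mk (nat_lit 66) (nat_lit 2) (nat_lit 0) (nat_lit 1) (nat_lit 5) (nat_lit 250) (nat_lit 248) r8_250 r7_248 (nat_lit 0) (nat_lit 5449534) (nat_lit 0) (nat_lit 0x80029938e) (nat_lit 1079191358),
  Rx.mk (nat_lit 72) (nat_lit 0) (nat_lit 1) (nat_lit 1) (nat_lit 6) (nat_lit 251) (nat_lit 249) r8_251 r7_249 (nat_lit 5449534) (nat_lit 0) (nat_lit 0) (nat_lit 0x80029938e) (nat_lit 1079191358),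
  Rx.mk (nat_lit 73) (nat_lit 1) (nat_lit 1) (nat_lit 1) (nat_lit 7) (nat_lit 252) (nat_lit 250) r8_252 r7_250 (nat_lit 0) (nat_lit 0) (nat_lit 0) (nat_lit 0x80029938e) (nat_lit 1073741824),
  Rx.mk (nat_lit 74) (nat_lit 2) (nat_lit 1) (nat_lit 1) (nat_lit 7) (nat_lit 253) (nat_lit 251) r8_253 r7_251 (nat_lit 0) (nat_lit 0) (nat_lit 0) (nat_lit 0x80029938e) (nat_lit 1073741824),
  Rx.mk (nat_lit 88) (nat_lit 0) (nat_lit 3) (nat_lit 1) (nat_lit 6) (nat_lit 254) (nat_lit 252) r8_254 r7_252 (nat_lit 5560769) (nat_lit 0) (nat_lit 0) (nat_lit 0x800073c4e) (nat_lit 1079440193),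
  Rx.mk (nat_lit 89) (nat_lit 1) (nat_lit 3) (nat_lit 1) (nat_lit 7) (nat_lit 255) (nat_lit 253) r8_255 r7_253 (nat_lit 0) (nat_lit 0) (nat_lit 0) (nat_lit 0x80029938e) (nat_lit 1073741824),
  Rx.mk (nat_lit 91) (nat_lit 3) (nat_lit 3) (nat_lit 1) (nat_lit 7) (nat_lit 256) (nat_lit 254) r8_256 r7_254 (nat_lit 0) (nat_lit 0) (nat_lit 0) (nat_lit 0x80029938e) (nat_lit 1073741824)]
noncomputable def e16_26 : List Rx := [
  Rx.mk (nat_lit 72) (nat_lit 0) (nat_lit 1) (nat_lit 1) (nat_lit 6) (nat_lit 323) (nat_lit 191) r8_323 r8_191 (nat_lit 5449534) (nat_lit 0) (nat_lit 0) (nat_lit 0x80029938e) (nat_lit 1079191358),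
  Rx.mk (nat_lit 73) (nat_lit 1) (nat_lit 1) (nat_lit 1) (nat_lit 7) (nat_lit 324) (nat_lit 192) r8_324 r8_192 (nat_lit 0) (nat_lit 0) (nat_lit 0) (nat_lit 0x80029938e) (nat_lit 1073741824),
  Rx.mk (nat_lit 74) (nat_lit 2) (nat_lit 1) (nat_lit 1) (nat_lit 7) (nat_lit 325) (nat_lit 193) r8_325 r8_193 (nat_lit 0) (nat_lit 0) (nat_lit 0) (nat_lit 0x80029938e) (nat_lit 1073741824)]
noncomputable def e16_27 : List Rx := [
  Rx.mk (nat_lit 0) (nat_lit 0) (nat_lit 0) (nat_lit 0) (nat_lit 0) (nat_lit 299) (nat_lit 299) r8_299 r8_299 (nat_lit 41629312) (nat_lit 41629312) (nat_lit 6349026) (nat_lit 0x43bdb9d04) (nat_lit 2168128074),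
  Rx.mk (nat_lit 2) (nat_lit 2) (nat_lit 0) (nat_lit 0) (nat_lit 1) (nat_lit 300) (nat_lit 302) r8_300 r8_302 (nat_lit 0) (nat_lit 8016297) (nat_lit 11995068) (nat_lit 0x72f43b02e) (nat_lit 1311352989),
  Rx.mk (nat_lit 18) (nat_lit 2) (nat_lit 2) (nat_lit 0) (nat_lit 3) (nat_lit 301) (nat_lit 303) r8_301 r8_303 (nat_lit 0) (nat_lit 0) (nat_lit 5449534) (nat_lit 0x80029938e) (nat_lit 1079191358),
  Rx.mk (nat_lit 24) (nat_lit 0) (nat_lit 3) (nat_lit 0) (nat_lit 2) (nat_lit 302) (nat_lit 300) r8_302 r8_300 (nat_lit 8016297) (nat_lit 0) (nat_lit 11995068) (nat_lit 0x72f43b02e) (nat_lit 1311352989),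
  Rx.mk (nat_lit 27) (nat_lit 3) (nat_lit 3) (nat_lit 0) (nat_lit 3) (nat_lit 303) (nat_lit 301) r8_303 r8_301 (nat_lit 0) (nat_lit 0) (nat_lit 5449534) (nat_lit 0x80029938e) (nat_lit 1079191358),
  Rx.mk (nat_lit 64) (nat_lit 0) (nat_lit 0) (nat_lit 1) (nat_lit 4) (nat_lit 304) (nat_lit 304) r8_304 r8_304 (nat_lit 12878012) (nat_lit 12878012) (nat_lit 0) (nat_lit 0x6cab7843c) (nat_lit 1421877048),
  Rx.mk (nat_lit 65) (nat_lit 1) (nat_lit 0) (nat_lit 1) (nat_lit 5) (nat_lit 305) (nat_lit 307) r8_305 r8_307 (nat_lit 0) (nat_lit 5449534) (nat_lit 0) (nat_lit 0x80029938e) (nat_lit 1079191358),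
  Rx.mk (nat_lit 66) (nat_lit 2) (nat_lit 0) (nat_lit 1) (nat_lit 5) (nat_lit 306) (nat_lit 311) r8_306 r8_311 (nat_lit 0) (nat_lit 5449534) (nat_lit 0) (nat_lit 0x80029938e) (nat_lit 1079191358),
  Rx.mk (nat_lit 72) (nat_lit 0) (nat_lit 1) (nat_lit 1) (nat_lit 6) (nat_lit 307) (nat_lit 305) r8_307 r8_305 (nat_lit 5449534) (nat_lit 0) (nat_lit 0) (nat_lit 0x80029938e) (nat_lit 1079191358),
  Rx.mk (nat_lit 73) (nat_lit 1) (nat_lit 1) (nat_lit 1) (nat_lit 7) (nat_lit 308) (nat_lit 308) r8_308 r8_308 (nat_lit 0) (nat_lit 0) (nat_lit 0) (nat_lit 0x80029938e) (nat_lit 1073741824),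
  Rx.mk (nat_lit 74) (nat_lit 2) (nat_lit 1) (nat_lit 1) (nat_lit 7) (nat_lit 309) (nat_lit 312) r8_309 r8_312 (nat_lit 0) (nat_lit 0) (nat_lit 0) (nat_lit 0x80029938e) (nat_lit 1073741824),
  Rx.mk (nat_lit 82) (nat_lit 2) (nat_lit 2) (nat_lit 1) (nat_lit 7) (nat_lit 310) (nat_lit 313) r8_310 r8_313 (nat_lit 0) (nat_lit 0) (nat_lit 0) (nat_lit 0x80029938e) (nat_lit 1073741824),
  Rx.mk (nat_lit 88) (nat_lit 0) (nat_lit 3) (nat_lit 1) (nat_lit 6) (nat_lit 311) (nat_lit 306) r8_311 r8_306 (nat_lit 5449534) (nat_lit 0) (nat_lit 0) (nat_lit 0x80029938e) (nat_lit 1079191358),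
  Rx.mk (nat_lit 89) (nat_lit 1) (nat_lit 3) (nat_lit 1) (nat_lit 7) (nat_lit 312) (nat_lit 309) r8_312 r8_309 (nat_lit 0) (nat_lit 0) (nat_lit 0) (nat_lit 0x80029938e) (nat_lit 1073741824),
  Rx.mk (nat_lit 91) (nat_lit 3) (nat_lit 3) (nat_lit 1) (nat_lit 7) (nat_lit 313) (nat_lit 310) r8_313 r8_310 (nat_lit 0) (nat_lit 0) (nat_lit 0) (nat_lit 0x80029938e) (nat_lit 1073741824),
  Rx.mk (nat_lit 146) (nat_lit 2) (nat_lit 2) (nat_lit 2) (nat_lit 7) (nat_lit 314) (nat_lit 315) r8_314 r8_315 (nat_lit 0) (nat_lit 0) (nat_lit 0) (nat_lit 0x80029938e) (nat_lit 1073741824),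
  Rx.mk (nat_lit 219) (nat_lit 3) (nat_lit 3) (nat_lit 3) (nat_lit 7) (nat_lit 315) (nat_lit 314) r8_315 r8_314 (nat_lit 0) (nat_lit 0) (nat_lit 0) (nat_lit 0x80029938e) (nat_lit 1073741824)]
noncomputable def e16_28 : List Rx := [
  Rx.mk (nat_lit 88) (nat_lit 0) (nat_lit 3) (nat_lit 1) (nat_lit 6) (nat_lit 355) (nat_lit 195) r8_355 r10_195 (nat_lit 5449534) (nat_lit 0) (nat_lit 0) (nat_lit 0x80029938e) (nat_lit 1079191358),
  Rx.mk (nat_lit 89) (nat_lit 1) (nat_lit 3) (nat_lit 1) (nat_lit 7) (nat_lit 356) (nat_lit 196) r8_356 r10_196 (nat_lit 0) (nat_lit 0) (nat_lit 0) (nat_lit 0x80029938e) (nat_lit 1073741824),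
  Rx.mk (nat_lit 91) (nat_lit 3) (nat_lit 3) (nat_lit 1) (nat_lit 7) (nat_lit 357) (nat_lit 197) r8_357 r10_197 (nat_lit 0) (nat_lit 0) (nat_lit 0) (nat_lit 0x80029938e) (nat_lit 1073741824)]
noncomputable def e16_29 : List Rx := [
  Rx.mk (nat_lit 91) (nat_lit 3) (nat_lit 3) (nat_lit 1) (nat_lit 7) (nat_lit 367) (nat_lit 229) r8_367 r11_229 (nat_lit 0) (nat_lit 0) (nat_lit 0) (nat_lit 0x80029938e) (nat_lit 1073741824),
  Rx.mk (nat_lit 320) (nat_lit 0) (nat_lit 0) (nat_lit 5) (nat_lit 4) (nat_lit 368) (nat_lit 222) r8_368 r11_222 (nat_lit 21443359) (nat_lit 31594176) (nat_lit 0) (nat_lit 0x791f109d8) (nat_lit 1241553659),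
  Rx.mk (nat_lit 321) (nat_lit 1) (nat_lit 0) (nat_lit 5) (nat_lit 5) (nat_lit 369) (nat_lit 223) r8_369 r11_223 (nat_lit 0) (nat_lit 5449534) (nat_lit 0) (nat_lit 0x80029938e) (nat_lit 1079191358),
  Rx.mk (nat_lit 328) (nat_lit 0) (nat_lit 1) (nat_lit 5) (nat_lit 6) (nat_lit 370) (nat_lit 224) r8_370 r11_224 (nat_lit 5449534) (nat_lit 0) (nat_lit 0) (nat_lit 0x80029938e) (nat_lit 1079191358),
  Rx.mk (nat_lit 329) (nat_lit 1) (nat_lit 1) (nat_lit 5) (nat_lit 7) (nat_lit 371) (nat_lit 225) r8_371 r11_225 (nat_lit 0) (nat_lit 0) (nat_lit 0) (nat_lit 0x80029938e) (nat_lit 1073741824),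
  Rx.mk (nat_lit 344) (nat_lit 0) (nat_lit 3) (nat_lit 5) (nat_lit 6) (nat_lit 372) (nat_lit 226) r8_372 r11_226 (nat_lit 5449534) (nat_lit 0) (nat_lit 0) (nat_lit 0x80029938e) (nat_lit 1079191358),
  Rx.mk (nat_lit 345) (nat_lit 1) (nat_lit 3) (nat_lit 5) (nat_lit 7) (nat_lit 373) (nat_lit 227) r8_373 r11_227 (nat_lit 0) (nat_lit 0) (nat_lit 0) (nat_lit 0x80029938e) (nat_lit 1073741824),
  Rx.mk (nat_lit 347) (nat_lit 3) (nat_lit 3) (nat_lit 5) (nat_lit 7) (nat_lit 374) (nat_lit 228) r8_374 r11_228 (nat_lit 0) (nat_lit 0) (nat_lit 0) (nat_lit 0x80029938e) (nat_lit 1073741824)]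
noncomputable def e16_30 : List Rx := [
  Rx.mk (nat_lit 315) (nat_lit 3) (nat_lit 7) (nat_lit 4) (nat_lit 3) (nat_lit 58) (nat_lit 115) r8_58 r5_115 (nat_lit 0) (nat_lit 0) (nat_lit 3122645) (nat_lit 0x801abea22) (nat_lit 1075316369),
  Rx.mk (nat_lit 379) (nat_lit 3) (nat_lit 7) (nat_lit 5) (nat_lit 7) (nat_lit 59) (nat_lit 116) r8_59 r5_116 (nat_lit 0) (nat_lit 0) (nat_lit 0) (nat_lit 0x8019963ca) (nat_lit 1072269624),
  Rx.mk (nat_lit 507) (nat_lit 3) (nat_lit 7) (nat_lit 7) (nat_lit 7) (nat_lit 60) (nat_lit 117) r8_60 r5_117 (nat_lit 0) (nat_lit 0) (nat_lit 0) (nat_lit 0x80029938e) (nat_lit 1073741824)]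
noncomputable def e16_31 : List Rx := [
  Rx.mk (nat_lit 315) (nat_lit 3) (nat_lit 7) (nat_lit 4) (nat_lit 3) (nat_lit 157) (nat_lit 113) r8_157 r11_113 (nat_lit 0) (nat_lit 0) (nat_lit 5449534) (nat_lit 0x80029938e) (nat_lit 1079191358),
  Rx.mk (nat_lit 507) (nat_lit 3) (nat_lit 7) (nat_lit 7) (nat_lit 7) (nat_lit 158) (nat_lit 114) r8_158 r11_114 (nat_lit 0) (nat_lit 0) (nat_lit 0) (nat_lit 0x80029938e) (nat_lit 1073741824)]
noncomputable def e16_32 : List Rx := [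
  Rx.mk (nat_lit 344) (nat_lit 0) (nat_lit 3) (nat_lit 5) (nat_lit 6) (nat_lit 214) (nat_lit 311) r8_214 r6_311 (nat_lit 5771941) (nat_lit 0) (nat_lit 0) (nat_lit 0x7fecf9a7e) (nat_lit 1080903565),
  Rx.mk (nat_lit 345) (nat_lit 1) (nat_lit 3) (nat_lit 5) (nat_lit 7) (nat_lit 215) (nat_lit 313) r8_215 r6_313 (nat_lit 0) (nat_lit 0) (nat_lit 0) (nat_lit 0x80029938e) (nat_lit 1073741824),
  Rx.mk (nat_lit 376) (nat_lit 0) (nat_lit 7) (nat_lit 5) (nat_lit 6) (nat_lit 216) (nat_lit 310) r8_216 r6_310 (nat_lit 1646791) (nat_lit 0) (nat_lit 0) (nat_lit 0x803c7d550) (nat_lit 1071692415),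
  Rx.mk (nat_lit 377) (nat_lit 1) (nat_lit 7) (nat_lit 5) (nat_lit 7) (nat_lit 217) (nat_lit 312) r8_217 r6_312 (nat_lit 0) (nat_lit 0) (nat_lit 0) (nat_lit 0x803843b1a) (nat_lit 1070312524)]
noncomputable def e16_33 : List Rx := [
  Rx.mk (nat_lit 88) (nat_lit 0) (nat_lit 3) (nat_lit 1) (nat_lit 6) (nat_lit 347) (nat_lit 269) r8_347 r5_269 (nat_lit 5449534) (nat_lit 0) (nat_lit 0) (nat_lit 0x80029938e) (nat_lit 1079191358),
  Rx.mk (nat_lit 89) (nat_lit 1) (nat_lit 3) (nat_lit 1) (nat_lit 7) (nat_lit 348) (nat_lit 270) r8_348 r5_270 (nat_lit 0) (nat_lit 0) (nat_lit 0) (nat_lit 0x80029938e) (nat_lit 1073741824),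
  Rx.mk (nat_lit 344) (nat_lit 0) (nat_lit 3) (nat_lit 5) (nat_lit 6) (nat_lit 349) (nat_lit 271) r8_349 r5_271 (nat_lit 5449534) (nat_lit 0) (nat_lit 0) (nat_lit 0x7ff3d72a6) (nat_lit 1080139558),
  Rx.mk (nat_lit 345) (nat_lit 1) (nat_lit 3) (nat_lit 5) (nat_lit 7) (nat_lit 350) (nat_lit 272) r8_350 r5_272 (nat_lit 0) (nat_lit 0) (nat_lit 0) (nat_lit 0x80029938e) (nat_lit 1073741824)]
noncomputable def e16_34 : List Rx := [
  Rx.mk (nat_lit 88) (nat_lit 0) (nat_lit 3) (nat_lit 1) (nat_lit 6) (nat_lit 358) (nat_lit 335) r8_358 r11_335 (nat_lit 5449534) (nat_lit 0) (nat_lit 0) (nat_lit 0x80029938e) (nat_lit 1079191358),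
  Rx.mk (nat_lit 89) (nat_lit 1) (nat_lit 3) (nat_lit 1) (nat_lit 7) (nat_lit 359) (nat_lit 336) r8_359 r11_336 (nat_lit 0) (nat_lit 0) (nat_lit 0) (nat_lit 0x80029938e) (nat_lit 1073741824),
  Rx.mk (nat_lit 90) (nat_lit 2) (nat_lit 3) (nat_lit 1) (nat_lit 7) (nat_lit 360) (nat_lit 337) r8_360 r11_337 (nat_lit 0) (nat_lit 0) (nat_lit 0) (nat_lit 0x80029938e) (nat_lit 1073741824)]
noncomputable def e16_35 : List Rx := [
  Rx.mk (nat_lit 376) (nat_lit 0) (nat_lit 7) (nat_lit 5) (nat_lit 6) (nat_lit 71) (nat_lit 203) r8_71 r6_203 (nat_lit 1883603) (nat_lit 0) (nat_lit 0) (nat_lit 0x8036af1e6) (nat_lit 1072289527),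
  Rx.mk (nat_lit 377) (nat_lit 1) (nat_lit 7) (nat_lit 5) (nat_lit 7) (nat_lit 72) (nat_lit 204) r8_72 r6_204 (nat_lit 0) (nat_lit 0) (nat_lit 0) (nat_lit 0x8037bf9e6) (nat_lit 1070345324),
  Rx.mk (nat_lit 379) (nat_lit 3) (nat_lit 7) (nat_lit 5) (nat_lit 7) (nat_lit 73) (nat_lit 205) r8_73 r6_205 (nat_lit 0) (nat_lit 0) (nat_lit 0) (nat_lit 0x804b0c5b2) (nat_lit 1069117724)]
noncomputable def e16_36 : List Rx := [
  Rx.mk (nat_lit 344) (nat_lit 0) (nat_lit 3) (nat_lit 5) (nat_lit 6) (nat_lit 225) (nat_lit 117) r8_225 r12_117 (nat_lit 6182575) (nat_lit 0) (nat_lit 0) (nat_lit 0x7fd1de596) (nat_lit 1083062199),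
  Rx.mk (nat_lit 345) (nat_lit 1) (nat_lit 3) (nat_lit 5) (nat_lit 7) (nat_lit 226) (nat_lit 119) r8_226 r12_119 (nat_lit 0) (nat_lit 0) (nat_lit 0) (nat_lit 0x80029938e) (nat_lit 1073741824),
  Rx.mk (nat_lit 376) (nat_lit 0) (nat_lit 7) (nat_lit 5) (nat_lit 6) (nat_lit 227) (nat_lit 118) r8_227 r12_118 (nat_lit 1064185) (nat_lit 0) (nat_lit 0) (nat_lit 0x8026828f4) (nat_lit 1072501409),
  Rx.mk (nat_lit 377) (nat_lit 1) (nat_lit 7) (nat_lit 5) (nat_lit 7) (nat_lit 228) (nat_lit 120) r8_228 r12_120 (nat_lit 0) (nat_lit 0) (nat_lit 0) (nat_lit 0x809967572) (nat_lit 1064151724),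
  Rx.mk (nat_lit 379) (nat_lit 3) (nat_lit 7) (nat_lit 5) (nat_lit 7) (nat_lit 229) (nat_lit 121) r8_229 r12_121 (nat_lit 0) (nat_lit 0) (nat_lit 0) (nat_lit 0x80d3793a0) (nat_lit 1060477524)]
noncomputable def e16_37 : List Rx := [
  Rx.mk (nat_lit 353) (nat_lit 1) (nat_lit 4) (nat_lit 5) (nat_lit 5) (nat_lit 178) (nat_lit 289) r8_178 r0_289 (nat_lit 0) (nat_lit 6119961) (nat_lit 0) (nat_lit 0x72392b252) (nat_lit 1309645085),
  Rx.mk (nat_lit 361) (nat_lit 1) (nat_lit 5) (nat_lit 5) (nat_lit 7) (nat_lit 179) (nat_lit 290) r8_179 r0_290 (nat_lit 0) (nat_lit 0) (nat_lit 0) (nat_lit 0x7ff99ecac) (nat_lit 1074318024)]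
noncomputable def e16_38 : List Rx := [
  Rx.mk (nat_lit 353) (nat_lit 1) (nat_lit 4) (nat_lit 5) (nat_lit 5) (nat_lit 63) (nat_lit 185) r8_63 r0_185 (nat_lit 0) (nat_lit 3657848) (nat_lit 0) (nat_lit 0x7a789dc8e) (nat_lit 1169663972),
  Rx.mk (nat_lit 357) (nat_lit 5) (nat_lit 4) (nat_lit 5) (nat_lit 5) (nat_lit 64) (nat_lit 186) r8_64 r0_186 (nat_lit 0) (nat_lit 4721594) (nat_lit 0) (nat_lit 0x7cb5a7826) (nat_lit 1133415918),
  Rx.mk (nat_lit 381) (nat_lit 5) (nat_lit 7) (nat_lit 5) (nat_lit 7) (nat_lit 65) (nat_lit 187) r8_65 r0_187 (nat_lit 0) (nat_lit 0) (nat_lit 0) (nat_lit 0x801bc7158) (nat_lit 1072128324)]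
noncomputable def e16_39 : List Rx := [
  Rx.mk (nat_lit 353) (nat_lit 1) (nat_lit 4) (nat_lit 5) (nat_lit 5) (nat_lit 184) (nat_lit 404) r8_184 r7_404 (nat_lit 0) (nat_lit 5449534) (nat_lit 0) (nat_lit 0x80029938e) (nat_lit 1079191358),
  Rx.mk (nat_lit 357) (nat_lit 5) (nat_lit 4) (nat_lit 5) (nat_lit 5) (nat_lit 185) (nat_lit 401) r8_185 r7_401 (nat_lit 0) (nat_lit 5322975) (nat_lit 0) (nat_lit 0x7ffd77ce8) (nat_lit 1079393799),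
  Rx.mk (nat_lit 361) (nat_lit 1) (nat_lit 5) (nat_lit 5) (nat_lit 7) (nat_lit 186) (nat_lit 405) r8_186 r7_405 (nat_lit 0) (nat_lit 0) (nat_lit 0) (nat_lit 0x80029938e) (nat_lit 1073741824),
  Rx.mk (nat_lit 365) (nat_lit 5) (nat_lit 5) (nat_lit 5) (nat_lit 7) (nat_lit 187) (nat_lit 402) r8_187 r7_402 (nat_lit 0) (nat_lit 0) (nat_lit 0) (nat_lit 0x80029938e) (nat_lit 1073741824),
  Rx.mk (nat_lit 381) (nat_lit 5) (nat_lit 7) (nat_lit 5) (nat_lit 7) (nat_lit 188) (nat_lit 403) r8_188 r7_403 (nat_lit 0) (nat_lit 0) (nat_lit 0) (nat_lit 0x80029938e) (nat_lit 1073741824)]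
noncomputable def e16_40 : List Rx := [
  Rx.mk (nat_lit 292) (nat_lit 4) (nat_lit 4) (nat_lit 4) (nat_lit 0) (nat_lit 25) (nat_lit 203) r8_25 r2_203 (nat_lit 1156022) (nat_lit 3308338) (nat_lit 993709) (nat_lit 0x3dbd28666) (nat_lit 2184039993),
  Rx.mk (nat_lit 293) (nat_lit 5) (nat_lit 4) (nat_lit 4) (nat_lit 1) (nat_lit 26) (nat_lit 204) r8_26 r2_204 (nat_lit 0) (nat_lit 9535202) (nat_lit 7095241) (nat_lit 0x62dbf9de0) (nat_lit 1576319567),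
  Rx.mk (nat_lit 316) (nat_lit 4) (nat_lit 7) (nat_lit 4) (nat_lit 2) (nat_lit 27) (nat_lit 209) r8_27 r2_209 (nat_lit 2433110) (nat_lit 0) (nat_lit 1896956) (nat_lit 0x6c3167f62) (nat_lit 1408391590),
  Rx.mk (nat_lit 317) (nat_lit 5) (nat_lit 7) (nat_lit 4) (nat_lit 3) (nat_lit 28) (nat_lit 210) r8_28 r2_210 (nat_lit 0) (nat_lit 0) (nat_lit 5449534) (nat_lit 0x80029938e) (nat_lit 1079191358),
  Rx.mk (nat_lit 319) (nat_lit 7) (nat_lit 7) (nat_lit 4) (nat_lit 3) (nat_lit 29) (nat_lit 211) r8_29 r2_211 (nat_lit 0) (nat_lit 0) (nat_lit 5449534) (nat_lit 0x800025e9a) (nat_lit 1079348458),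
  Rx.mk (nat_lit 356) (nat_lit 4) (nat_lit 4) (nat_lit 5) (nat_lit 4) (nat_lit 30) (nat_lit 205) r8_30 r2_205 (nat_lit 14795548) (nat_lit 9407743) (nat_lit 0) (nat_lit 0x6e1ef5760) (nat_lit 1396127315),
  Rx.mk (nat_lit 357) (nat_lit 5) (nat_lit 4) (nat_lit 5) (nat_lit 5) (nat_lit 31) (nat_lit 206) r8_31 r2_206 (nat_lit 0) (nat_lit 5449534) (nat_lit 0) (nat_lit 0x80029938e) (nat_lit 1079191358),
  Rx.mk (nat_lit 380) (nat_lit 4) (nat_lit 7) (nat_lit 5) (nat_lit 6) (nat_lit 32) (nat_lit 212) r8_32 r2_212 (nat_lit 5449534) (nat_lit 0) (nat_lit 0) (nat_lit 0x80029938e) (nat_lit 1079191358),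
  Rx.mk (nat_lit 381) (nat_lit 5) (nat_lit 7) (nat_lit 5) (nat_lit 7) (nat_lit 33) (nat_lit 213) r8_33 r2_213 (nat_lit 0) (nat_lit 0) (nat_lit 0) (nat_lit 0x80029938e) (nat_lit 1073741824),
  Rx.mk (nat_lit 383) (nat_lit 7) (nat_lit 7) (nat_lit 5) (nat_lit 7) (nat_lit 34) (nat_lit 214) r8_34 r2_214 (nat_lit 0) (nat_lit 0) (nat_lit 0) (nat_lit 0x80029938e) (nat_lit 1073741824),
  Rx.mk (nat_lit 420) (nat_lit 4) (nat_lit 4) (nat_lit 6) (nat_lit 4) (nat_lit 35) (nat_lit 207) r8_35 r2_207 (nat_lit 8977988) (nat_lit 3132479) (nat_lit 0) (nat_lit 0x705befb3c) (nat_lit 1346715391),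
  Rx.mk (nat_lit 421) (nat_lit 5) (nat_lit 4) (nat_lit 6) (nat_lit 5) (nat_lit 36) (nat_lit 208) r8_36 r2_208 (nat_lit 0) (nat_lit 5449534) (nat_lit 0) (nat_lit 0x80029938e) (nat_lit 1079191358),
  Rx.mk (nat_lit 436) (nat_lit 4) (nat_lit 6) (nat_lit 6) (nat_lit 6) (nat_lit 37) (nat_lit 218) r8_37 r2_218 (nat_lit 5449534) (nat_lit 0) (nat_lit 0) (nat_lit 0x80029938e) (nat_lit 1079191358),
  Rx.mk (nat_lit 437) (nat_lit 5) (nat_lit 6) (nat_lit 6) (nat_lit 7) (nat_lit 38) (nat_lit 219) r8_38 r2_219 (nat_lit 0) (nat_lit 0) (nat_lit 0) (nat_lit 0x80029938e) (nat_lit 1073741824),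
  Rx.mk (nat_lit 438) (nat_lit 6) (nat_lit 6) (nat_lit 6) (nat_lit 7) (nat_lit 39) (nat_lit 220) r8_39 r2_220 (nat_lit 0) (nat_lit 0) (nat_lit 0) (nat_lit 0x80029938e) (nat_lit 1073741824),
  Rx.mk (nat_lit 444) (nat_lit 4) (nat_lit 7) (nat_lit 6) (nat_lit 6) (nat_lit 40) (nat_lit 216) r8_40 r2_216 (nat_lit 5449534) (nat_lit 0) (nat_lit 0) (nat_lit 0x8001635b4) (nat_lit 1079268958),
  Rx.mk (nat_lit 445) (nat_lit 5) (nat_lit 7) (nat_lit 6) (nat_lit 7) (nat_lit 41) (nat_lit 217) r8_41 r2_217 (nat_lit 0) (nat_lit 0) (nat_lit 0) (nat_lit 0x80029938e) (nat_lit 1073741824),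
  Rx.mk (nat_lit 511) (nat_lit 7) (nat_lit 7) (nat_lit 7) (nat_lit 7) (nat_lit 42) (nat_lit 215) r8_42 r2_215 (nat_lit 0) (nat_lit 0) (nat_lit 0) (nat_lit 0x80029938e) (nat_lit 1073741824)]
noncomputable def e16_41 : List Rx := [
  Rx.mk (nat_lit 292) (nat_lit 4) (nat_lit 4) (nat_lit 4) (nat_lit 0) (nat_lit 159) (nat_lit 183) r8_159 r9_183 (nat_lit 4825209) (nat_lit 4762811) (nat_lit 4180839) (nat_lit 0x39d32f3e6) (nat_lit 2257620983),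
  Rx.mk (nat_lit 293) (nat_lit 5) (nat_lit 4) (nat_lit 4) (nat_lit 1) (nat_lit 160) (nat_lit 184) r8_160 r9_184 (nat_lit 0) (nat_lit 6452239) (nat_lit 8082267) (nat_lit 0x67b4a3a2a) (nat_lit 1493420030),
  Rx.mk (nat_lit 301) (nat_lit 5) (nat_lit 5) (nat_lit 4) (nat_lit 3) (nat_lit 161) (nat_lit 189) r8_161 r9_189 (nat_lit 0) (nat_lit 0) (nat_lit 5449534) (nat_lit 0x80029938e) (nat_lit 1079191358),
  Rx.mk (nat_lit 316) (nat_lit 4) (nat_lit 7) (nat_lit 4) (nat_lit 2) (nat_lit 162) (nat_lit 192) r8_162 r9_192 (nat_lit 7933342) (nat_lit 0) (nat_lit 6953306) (nat_lit 0x6c913698e) (nat_lit 1412714672),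
  Rx.mk (nat_lit 317) (nat_lit 5) (nat_lit 7) (nat_lit 4) (nat_lit 3) (nat_lit 163) (nat_lit 193) r8_163 r9_193 (nat_lit 0) (nat_lit 0) (nat_lit 5449534) (nat_lit 0x80029938e) (nat_lit 1079191358),
  Rx.mk (nat_lit 319) (nat_lit 7) (nat_lit 7) (nat_lit 4) (nat_lit 3) (nat_lit 164) (nat_lit 194) r8_164 r9_194 (nat_lit 0) (nat_lit 0) (nat_lit 5449534) (nat_lit 0x80029938e) (nat_lit 1079191358),
  Rx.mk (nat_lit 356) (nat_lit 4) (nat_lit 4) (nat_lit 5) (nat_lit 4) (nat_lit 165) (nat_lit 185) r8_165 r9_185 (nat_lit 16033224) (nat_lit 6366403) (nat_lit 0) (nat_lit 0x7150c9342) (nat_lit 1341058751),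
  Rx.mk (nat_lit 357) (nat_lit 5) (nat_lit 4) (nat_lit 5) (nat_lit 5) (nat_lit 166) (nat_lit 186) r8_166 r9_186 (nat_lit 0) (nat_lit 5449534) (nat_lit 0) (nat_lit 0x80029938e) (nat_lit 1079191358),
  Rx.mk (nat_lit 365) (nat_lit 5) (nat_lit 5) (nat_lit 5) (nat_lit 7) (nat_lit 167) (nat_lit 190) r8_167 r9_190 (nat_lit 0) (nat_lit 0) (nat_lit 0) (nat_lit 0x80029938e) (nat_lit 1073741824),
  Rx.mk (nat_lit 380) (nat_lit 4) (nat_lit 7) (nat_lit 5) (nat_lit 6) (nat_lit 168) (nat_lit 195) r8_168 r9_195 (nat_lit 5449534) (nat_lit 0) (nat_lit 0) (nat_lit 0x80029938e) (nat_lit 1079191358),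
  Rx.mk (nat_lit 381) (nat_lit 5) (nat_lit 7) (nat_lit 5) (nat_lit 7) (nat_lit 169) (nat_lit 196) r8_169 r9_196 (nat_lit 0) (nat_lit 0) (nat_lit 0) (nat_lit 0x80029938e) (nat_lit 1073741824),
  Rx.mk (nat_lit 383) (nat_lit 7) (nat_lit 7) (nat_lit 5) (nat_lit 7) (nat_lit 170) (nat_lit 197) r8_170 r9_197 (nat_lit 0) (nat_lit 0) (nat_lit 0) (nat_lit 0x80029938e) (nat_lit 1073741824),
  Rx.mk (nat_lit 420) (nat_lit 4) (nat_lit 4) (nat_lit 6) (nat_lit 4) (nat_lit 171) (nat_lit 187) r8_171 r9_187 (nat_lit 16440661) (nat_lit 11901673) (nat_lit 0) (nat_lit 0x75402140a) (nat_lit 1281397658),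
  Rx.mk (nat_lit 421) (nat_lit 5) (nat_lit 4) (nat_lit 6) (nat_lit 5) (nat_lit 172) (nat_lit 188) r8_172 r9_188 (nat_lit 0) (nat_lit 5449534) (nat_lit 0) (nat_lit 0x80029938e) (nat_lit 1079191358),
  Rx.mk (nat_lit 429) (nat_lit 5) (nat_lit 5) (nat_lit 6) (nat_lit 7) (nat_lit 173) (nat_lit 191) r8_173 r9_191 (nat_lit 0) (nat_lit 0) (nat_lit 0) (nat_lit 0x80029938e) (nat_lit 1073741824),
  Rx.mk (nat_lit 436) (nat_lit 4) (nat_lit 6) (nat_lit 6) (nat_lit 6) (nat_lit 174) (nat_lit 199) r8_174 r9_199 (nat_lit 5449534) (nat_lit 0) (nat_lit 0) (nat_lit 0x80029938e) (nat_lit 1079191358),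
  Rx.mk (nat_lit 437) (nat_lit 5) (nat_lit 6) (nat_lit 6) (nat_lit 7) (nat_lit 175) (nat_lit 200) r8_175 r9_200 (nat_lit 0) (nat_lit 0) (nat_lit 0) (nat_lit 0x80029938e) (nat_lit 1073741824),
  Rx.mk (nat_lit 438) (nat_lit 6) (nat_lit 6) (nat_lit 6) (nat_lit 7) (nat_lit 176) (nat_lit 201) r8_176 r9_201 (nat_lit 0) (nat_lit 0) (nat_lit 0) (nat_lit 0x80029938e) (nat_lit 1073741824),
  Rx.mk (nat_lit 511) (nat_lit 7) (nat_lit 7) (nat_lit 7) (nat_lit 7) (nat_lit 177) (nat_lit 198) r8_177 r9_198 (nat_lit 0) (nat_lit 0) (nat_lit 0) (nat_lit 0x80029938e) (nat_lit 1073741824)]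
noncomputable def e16_42 : List Rx := [
  Rx.mk (nat_lit 292) (nat_lit 4) (nat_lit 4) (nat_lit 4) (nat_lit 0) (nat_lit 133) (nat_lit 86) r8_133 r9_86 (nat_lit 5464222) (nat_lit 67809161) (nat_lit 3458182) (nat_lit 0x3d69a35d6) (nat_lit 2260766689),
  Rx.mk (nat_lit 293) (nat_lit 5) (nat_lit 4) (nat_lit 4) (nat_lit 1) (nat_lit 134) (nat_lit 87) r8_134 r9_87 (nat_lit 0) (nat_lit 38723310) (nat_lit 9618943) (nat_lit 0x6bfe9de7e) (nat_lit 1455718977),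
  Rx.mk (nat_lit 316) (nat_lit 4) (nat_lit 7) (nat_lit 4) (nat_lit 2) (nat_lit 135) (nat_lit 88) r8_135 r9_88 (nat_lit 6297923) (nat_lit 0) (nat_lit 6919696) (nat_lit 0x6f394a1f0) (nat_lit 1366753143),
  Rx.mk (nat_lit 317) (nat_lit 5) (nat_lit 7) (nat_lit 4) (nat_lit 3) (nat_lit 136) (nat_lit 89) r8_136 r9_89 (nat_lit 0) (nat_lit 0) (nat_lit 5449534) (nat_lit 0x80029938e) (nat_lit 1079191358),
  Rx.mk (nat_lit 319) (nat_lit 7) (nat_lit 7) (nat_lit 4) (nat_lit 3) (nat_lit 137) (nat_lit 90) r8_137 r9_90 (nat_lit 0) (nat_lit 0) (nat_lit 5449534) (nat_lit 0x80029938e) (nat_lit 1079191358),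
  Rx.mk (nat_lit 420) (nat_lit 4) (nat_lit 4) (nat_lit 6) (nat_lit 4) (nat_lit 138) (nat_lit 92) r8_138 r9_92 (nat_lit 7704862) (nat_lit 4176648) (nat_lit 0) (nat_lit 0x6d546e2f8) (nat_lit 1396994434),
  Rx.mk (nat_lit 421) (nat_lit 5) (nat_lit 4) (nat_lit 6) (nat_lit 5) (nat_lit 139) (nat_lit 93) r8_139 r9_93 (nat_lit 0) (nat_lit 5449534) (nat_lit 0) (nat_lit 0x80029938e) (nat_lit 1079191358),
  Rx.mk (nat_lit 436) (nat_lit 4) (nat_lit 6) (nat_lit 6) (nat_lit 6) (nat_lit 140) (nat_lit 96) r8_140 r9_96 (nat_lit 5449534) (nat_lit 0) (nat_lit 0) (nat_lit 0x80029938e) (nat_lit 1079191358),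
  Rx.mk (nat_lit 437) (nat_lit 5) (nat_lit 6) (nat_lit 6) (nat_lit 7) (nat_lit 141) (nat_lit 97) r8_141 r9_97 (nat_lit 0) (nat_lit 0) (nat_lit 0) (nat_lit 0x80029938e) (nat_lit 1073741824),
  Rx.mk (nat_lit 438) (nat_lit 6) (nat_lit 6) (nat_lit 6) (nat_lit 7) (nat_lit 142) (nat_lit 98) r8_142 r9_98 (nat_lit 0) (nat_lit 0) (nat_lit 0) (nat_lit 0x80029938e) (nat_lit 1073741824),
  Rx.mk (nat_lit 444) (nat_lit 4) (nat_lit 7) (nat_lit 6) (nat_lit 6) (nat_lit 143) (nat_lit 94) r8_143 r9_94 (nat_lit 5449534) (nat_lit 0) (nat_lit 0) (nat_lit 0x80029938e) (nat_lit 1079191358),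
  Rx.mk (nat_lit 445) (nat_lit 5) (nat_lit 7) (nat_lit 6) (nat_lit 7) (nat_lit 144) (nat_lit 95) r8_144 r9_95 (nat_lit 0) (nat_lit 0) (nat_lit 0) (nat_lit 0x80029938e) (nat_lit 1073741824),
  Rx.mk (nat_lit 511) (nat_lit 7) (nat_lit 7) (nat_lit 7) (nat_lit 7) (nat_lit 145) (nat_lit 91) r8_145 r9_91 (nat_lit 0) (nat_lit 0) (nat_lit 0) (nat_lit 0x80029938e) (nat_lit 1073741824)]
noncomputable def e16_43 : List Rx := [
  Rx.mk (nat_lit 357) (nat_lit 5) (nat_lit 4) (nat_lit 5) (nat_lit 5) (nat_lit 66) (nat_lit 199) r8_66 r1_199 (nat_lit 0) (nat_lit 5449534) (nat_lit 0) (nat_lit 0x7fdc2270a) (nat_lit 1081666058),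
  Rx.mk (nat_lit 381) (nat_lit 5) (nat_lit 7) (nat_lit 5) (nat_lit 7) (nat_lit 67) (nat_lit 200) r8_67 r1_200 (nat_lit 0) (nat_lit 0) (nat_lit 0) (nat_lit 0x80029938e) (nat_lit 1073741824)]
noncomputable def e16_44 : List Rx := [
  Rx.mk (nat_lit 357) (nat_lit 5) (nat_lit 4) (nat_lit 5) (nat_lit 5) (nat_lit 191) (nat_lit 323) r8_191 r8_323 (nat_lit 0) (nat_lit 5449534) (nat_lit 0) (nat_lit 0x80029938e) (nat_lit 1079191358),
  Rx.mk (nat_lit 365) (nat_lit 5) (nat_lit 5) (nat_lit 5) (nat_lit 7) (nat_lit 192) (nat_lit 324) r8_192 r8_324 (nat_lit 0) (nat_lit 0) (nat_lit 0) (nat_lit 0x80029938e) (nat_lit 1073741824),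
  Rx.mk (nat_lit 381) (nat_lit 5) (nat_lit 7) (nat_lit 5) (nat_lit 7) (nat_lit 193) (nat_lit 325) r8_193 r8_325 (nat_lit 0) (nat_lit 0) (nat_lit 0) (nat_lit 0x80029938e) (nat_lit 1073741824)]
noncomputable def e16_45 : List Rx := [
  Rx.mk (nat_lit 361) (nat_lit 1) (nat_lit 5) (nat_lit 5) (nat_lit 7) (nat_lit 180) (nat_lit 286) r8_180 r1_286 (nat_lit 0) (nat_lit 0) (nat_lit 0) (nat_lit 0x80029938e) (nat_lit 1073741824)]
noncomputable def e16_46 : List Rx := [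
  Rx.mk (nat_lit 73) (nat_lit 1) (nat_lit 1) (nat_lit 1) (nat_lit 7) (nat_lit 320) (nat_lit 314) r8_320 r2_314 (nat_lit 0) (nat_lit 0) (nat_lit 0) (nat_lit 0x80029938e) (nat_lit 1073741824),
  Rx.mk (nat_lit 329) (nat_lit 1) (nat_lit 1) (nat_lit 5) (nat_lit 7) (nat_lit 321) (nat_lit 313) r8_321 r2_313 (nat_lit 0) (nat_lit 0) (nat_lit 0) (nat_lit 0x80029938e) (nat_lit 1073741824),
  Rx.mk (nat_lit 361) (nat_lit 1) (nat_lit 5) (nat_lit 5) (nat_lit 7) (nat_lit 322) (nat_lit 312) r8_322 r2_312 (nat_lit 0) (nat_lit 0) (nat_lit 0) (nat_lit 0x80029938e) (nat_lit 1073741824)]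
noncomputable def e16_47 : List Rx := [
  Rx.mk (nat_lit 361) (nat_lit 1) (nat_lit 5) (nat_lit 5) (nat_lit 7) (nat_lit 189) (nat_lit 189) r8_189 r8_189 (nat_lit 0) (nat_lit 0) (nat_lit 0) (nat_lit 0x80029938e) (nat_lit 1073741824),
  Rx.mk (nat_lit 365) (nat_lit 5) (nat_lit 5) (nat_lit 5) (nat_lit 7) (nat_lit 190) (nat_lit 190) r8_190 r8_190 (nat_lit 0) (nat_lit 0) (nat_lit 0) (nat_lit 0x80029938e) (nat_lit 1073741824)]
noncomputable def e16_48 : List Rx := [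
  Rx.mk (nat_lit 73) (nat_lit 1) (nat_lit 1) (nat_lit 1) (nat_lit 7) (nat_lit 327) (nat_lit 297) r8_327 r9_297 (nat_lit 0) (nat_lit 0) (nat_lit 0) (nat_lit 0x80029938e) (nat_lit 1073741824),
  Rx.mk (nat_lit 329) (nat_lit 1) (nat_lit 1) (nat_lit 5) (nat_lit 7) (nat_lit 328) (nat_lit 296) r8_328 r9_296 (nat_lit 0) (nat_lit 0) (nat_lit 0) (nat_lit 0x80029938e) (nat_lit 1073741824),
  Rx.mk (nat_lit 361) (nat_lit 1) (nat_lit 5) (nat_lit 5) (nat_lit 7) (nat_lit 329) (nat_lit 295) r8_329 r9_295 (nat_lit 0) (nat_lit 0) (nat_lit 0) (nat_lit 0x80029938e) (nat_lit 1073741824),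
  Rx.mk (nat_lit 365) (nat_lit 5) (nat_lit 5) (nat_lit 5) (nat_lit 7) (nat_lit 330) (nat_lit 294) r8_330 r9_294 (nat_lit 0) (nat_lit 0) (nat_lit 0) (nat_lit 0x80029938e) (nat_lit 1073741824)]
noncomputable def e16_49 : List Rx := [
  Rx.mk (nat_lit 73) (nat_lit 1) (nat_lit 1) (nat_lit 1) (nat_lit 7) (nat_lit 326) (nat_lit 289) r8_326 r9_289 (nat_lit 0) (nat_lit 0) (nat_lit 0) (nat_lit 0x80029938e) (nat_lit 1073741824)]
noncomputable def e16_50 : List Rx := [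
  Rx.mk (nat_lit 353) (nat_lit 1) (nat_lit 4) (nat_lit 5) (nat_lit 5) (nat_lit 61) (nat_lit 288) r8_61 r3_288 (nat_lit 0) (nat_lit 1085431) (nat_lit 0) (nat_lit 0x787261944) (nat_lit 1200822755),
  Rx.mk (nat_lit 377) (nat_lit 1) (nat_lit 7) (nat_lit 5) (nat_lit 7) (nat_lit 62) (nat_lit 289) r8_62 r3_289 (nat_lit 0) (nat_lit 0) (nat_lit 0) (nat_lit 0x954b78356) (nat_lit 729459824)]
noncomputable def e16_51 : List Rx := [
  Rx.mk (nat_lit 353) (nat_lit 1) (nat_lit 4) (nat_lit 5) (nat_lit 5) (nat_lit 181) (nat_lit 304) r8_181 r4_304 (nat_lit 0) (nat_lit 5449534) (nat_lit 0) (nat_lit 0x80029938e) (nat_lit 1079191358),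
  Rx.mk (nat_lit 361) (nat_lit 1) (nat_lit 5) (nat_lit 5) (nat_lit 7) (nat_lit 182) (nat_lit 305) r8_182 r4_305 (nat_lit 0) (nat_lit 0) (nat_lit 0) (nat_lit 0x80029938e) (nat_lit 1073741824),
  Rx.mk (nat_lit 377) (nat_lit 1) (nat_lit 7) (nat_lit 5) (nat_lit 7) (nat_lit 183) (nat_lit 306) r8_183 r4_306 (nat_lit 0) (nat_lit 0) (nat_lit 0) (nat_lit 0x80029938e) (nat_lit 1073741824)]
noncomputable def e16_52 : List Rx := [
  Rx.mk (nat_lit 377) (nat_lit 1) (nat_lit 7) (nat_lit 5) (nat_lit 7) (nat_lit 218) (nat_lit 285) r8_218 r5_285 (nat_lit 0) (nat_lit 0) (nat_lit 0) (nat_lit 0x806366360) (nat_lit 1067572524)]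
noncomputable def e16_53 : List Rx := [
  Rx.mk (nat_lit 353) (nat_lit 1) (nat_lit 4) (nat_lit 5) (nat_lit 5) (nat_lit 68) (nat_lit 174) r8_68 r4_174 (nat_lit 0) (nat_lit 4037317) (nat_lit 0) (nat_lit 0x80012bc36) (nat_lit 1077868841),
  Rx.mk (nat_lit 377) (nat_lit 1) (nat_lit 7) (nat_lit 5) (nat_lit 7) (nat_lit 69) (nat_lit 175) r8_69 r4_175 (nat_lit 0) (nat_lit 0) (nat_lit 0) (nat_lit 0x80293ab46) (nat_lit 1071270624),
  Rx.mk (nat_lit 381) (nat_lit 5) (nat_lit 7) (nat_lit 5) (nat_lit 7) (nat_lit 70) (nat_lit 176) r8_70 r4_176 (nat_lit 0) (nat_lit 0) (nat_lit 0) (nat_lit 0x80029938e) (nat_lit 1073741824)]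
noncomputable def e16_54 : List Rx := [
  Rx.mk (nat_lit 353) (nat_lit 1) (nat_lit 4) (nat_lit 5) (nat_lit 5) (nat_lit 194) (nat_lit 326) r8_194 r10_326 (nat_lit 0) (nat_lit 5449534) (nat_lit 0) (nat_lit 0x80029938e) (nat_lit 1079191358),
  Rx.mk (nat_lit 361) (nat_lit 1) (nat_lit 5) (nat_lit 5) (nat_lit 7) (nat_lit 195) (nat_lit 327) r8_195 r10_327 (nat_lit 0) (nat_lit 0) (nat_lit 0) (nat_lit 0x80029938e) (nat_lit 1073741824),
  Rx.mk (nat_lit 377) (nat_lit 1) (nat_lit 7) (nat_lit 5) (nat_lit 7) (nat_lit 196) (nat_lit 328) r8_196 r10_328 (nat_lit 0) (nat_lit 0) (nat_lit 0) (nat_lit 0x80029938e) (nat_lit 1073741824),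
  Rx.mk (nat_lit 381) (nat_lit 5) (nat_lit 7) (nat_lit 5) (nat_lit 7) (nat_lit 197) (nat_lit 325) r8_197 r10_325 (nat_lit 0) (nat_lit 0) (nat_lit 0) (nat_lit 0x80029938e) (nat_lit 1073741824)]
noncomputable def e16_55 : List Rx := [
  Rx.mk (nat_lit 377) (nat_lit 1) (nat_lit 7) (nat_lit 5) (nat_lit 7) (nat_lit 219) (nat_lit 344) r8_219 r11_344 (nat_lit 0) (nat_lit 0) (nat_lit 0) (nat_lit 0x80029938e) (nat_lit 1073741824),
  Rx.mk (nat_lit 381) (nat_lit 5) (nat_lit 7) (nat_lit 5) (nat_lit 7) (nat_lit 220) (nat_lit 343) r8_220 r11_343 (nat_lit 0) (nat_lit 0) (nat_lit 0) (nat_lit 0x80029938e) (nat_lit 1073741824)]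
noncomputable def e16_56 : List Rx := [
  Rx.mk (nat_lit 353) (nat_lit 1) (nat_lit 4) (nat_lit 5) (nat_lit 5) (nat_lit 74) (nat_lit 189) r8_74 r5_189 (nat_lit 0) (nat_lit 4548292) (nat_lit 0) (nat_lit 0x801151fac) (nat_lit 1077347316),
  Rx.mk (nat_lit 377) (nat_lit 1) (nat_lit 7) (nat_lit 5) (nat_lit 7) (nat_lit 75) (nat_lit 190) r8_75 r5_190 (nat_lit 0) (nat_lit 0) (nat_lit 0) (nat_lit 0x802981c80) (nat_lit 1071252824)]
noncomputable def e16_57 : List Rx := [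
  Rx.mk (nat_lit 353) (nat_lit 1) (nat_lit 4) (nat_lit 5) (nat_lit 5) (nat_lit 198) (nat_lit 219) r8_198 r11_219 (nat_lit 0) (nat_lit 5449534) (nat_lit 0) (nat_lit 0x80029938e) (nat_lit 1079191358),
  Rx.mk (nat_lit 361) (nat_lit 1) (nat_lit 5) (nat_lit 5) (nat_lit 7) (nat_lit 199) (nat_lit 220) r8_199 r11_220 (nat_lit 0) (nat_lit 0) (nat_lit 0) (nat_lit 0x80029938e) (nat_lit 1073741824),
  Rx.mk (nat_lit 377) (nat_lit 1) (nat_lit 7) (nat_lit 5) (nat_lit 7) (nat_lit 200) (nat_lit 221) r8_200 r11_221 (nat_lit 0) (nat_lit 0) (nat_lit 0) (nat_lit 0x80029938e) (nat_lit 1073741824)]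
noncomputable def e16 : List (List Rx) := [e16_0, e16_1, e16_2, e16_3, e16_4, e16_5, e16_6, e16_7, e16_8, e16_9, e16_10, e16_11, e16_12, e16_13, e16_14, e16_15, e16_16, e16_17, e16_18, e16_19, e16_20, e16_21, e16_22, e16_23, e16_24, e16_25, e16_26, e16_27, e16_28, e16_29, e16_30, e16_31, e16_32, e16_33, e16_34, e16_35, e16_36, e16_37, e16_38, e16_39, e16_40, e16_41, e16_42, e16_43, e16_44, e16_45, e16_46, e16_47, e16_48, e16_49, e16_50, e16_51, e16_52, e16_53, e16_54, e16_55, e16_56, e16_57]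
noncomputable def e17_0 : List Rx := [
  Rx.mk (nat_lit 507) (nat_lit 3) (nat_lit 7) (nat_lit 7) (nat_lit 7) (nat_lit 0) (nat_lit 141) r9_0 r0_141 (nat_lit 0) (nat_lit 0) (nat_lit 0) (nat_lit 0x7ffe05cc8) (nat_lit 1074035324)]
noncomputable def e17_1 : List Rx := [
  Rx.mk (nat_lit 507) (nat_lit 3) (nat_lit 7) (nat_lit 7) (nat_lit 7) (nat_lit 1) (nat_lit 153) r9_1 r1_153 (nat_lit 0) (nat_lit 0) (nat_lit 0) (nat_lit 0x80029938e) (nat_lit 1073741824)]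
noncomputable def e17_2 : List Rx := [
  Rx.mk (nat_lit 0) (nat_lit 0) (nat_lit 0) (nat_lit 0) (nat_lit 0) (nat_lit 2) (nat_lit 146) r9_2 r2_146 (nat_lit 2326896) (nat_lit 2081628) (nat_lit 2546051) (nat_lit 0x386eea2c4) (nat_lit 2274008399),
  Rx.mk (nat_lit 2) (nat_lit 2) (nat_lit 0) (nat_lit 0) (nat_lit 1) (nat_lit 5) (nat_lit 152) r9_5 r2_152 (nat_lit 0) (nat_lit 3847664) (nat_lit 5797154) (nat_lit 0x691fedd98) (nat_lit 1464868642),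
  Rx.mk (nat_lit 24) (nat_lit 0) (nat_lit 3) (nat_lit 0) (nat_lit 2) (nat_lit 3) (nat_lit 147) r9_3 r2_147 (nat_lit 3377583) (nat_lit 0) (nat_lit 5449534) (nat_lit 0x7004d8aa6) (nat_lit 1349105741),
  Rx.mk (nat_lit 26) (nat_lit 2) (nat_lit 3) (nat_lit 0) (nat_lit 3) (nat_lit 8) (nat_lit 154) r9_8 r2_154 (nat_lit 0) (nat_lit 0) (nat_lit 5449534) (nat_lit 0x80016828a) (nat_lit 1079267758),
  Rx.mk (nat_lit 130) (nat_lit 2) (nat_lit 0) (nat_lit 2) (nat_lit 5) (nat_lit 6) (nat_lit 153) r9_6 r2_153 (nat_lit 0) (nat_lit 5297551) (nat_lit 0) (nat_lit 0x7ffe7d322) (nat_lit 1079302875),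
  Rx.mk (nat_lit 146) (nat_lit 2) (nat_lit 2) (nat_lit 2) (nat_lit 7) (nat_lit 7) (nat_lit 157) r9_7 r2_157 (nat_lit 0) (nat_lit 0) (nat_lit 0) (nat_lit 0x80029938e) (nat_lit 1073741824),
  Rx.mk (nat_lit 154) (nat_lit 2) (nat_lit 3) (nat_lit 2) (nat_lit 7) (nat_lit 9) (nat_lit 156) r9_9 r2_156 (nat_lit 0) (nat_lit 0) (nat_lit 0) (nat_lit 0x80029938e) (nat_lit 1073741824),
  Rx.mk (nat_lit 216) (nat_lit 0) (nat_lit 3) (nat_lit 3) (nat_lit 6) (nat_lit 4) (nat_lit 148) r9_4 r2_148 (nat_lit 5449534) (nat_lit 0) (nat_lit 0) (nat_lit 0x80029938e) (nat_lit 1079191358),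
  Rx.mk (nat_lit 218) (nat_lit 2) (nat_lit 3) (nat_lit 3) (nat_lit 7) (nat_lit 10) (nat_lit 155) r9_10 r2_155 (nat_lit 0) (nat_lit 0) (nat_lit 0) (nat_lit 0x80029938e) (nat_lit 1073741824),
  Rx.mk (nat_lit 219) (nat_lit 3) (nat_lit 3) (nat_lit 3) (nat_lit 7) (nat_lit 13) (nat_lit 149) r9_13 r2_149 (nat_lit 0) (nat_lit 0) (nat_lit 0) (nat_lit 0x80029938e) (nat_lit 1073741824),
  Rx.mk (nat_lit 251) (nat_lit 3) (nat_lit 7) (nat_lit 3) (nat_lit 7) (nat_lit 12) (nat_lit 150) r9_12 r2_150 (nat_lit 0) (nat_lit 0) (nat_lit 0) (nat_lit 0x80029938e) (nat_lit 1073741824),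
  Rx.mk (nat_lit 507) (nat_lit 3) (nat_lit 7) (nat_lit 7) (nat_lit 7) (nat_lit 11) (nat_lit 151) r9_11 r2_151 (nat_lit 0) (nat_lit 0) (nat_lit 0) (nat_lit 0x80029938e) (nat_lit 1073741824)]
noncomputable def e17_3 : List Rx := [
  Rx.mk (nat_lit 379) (nat_lit 3) (nat_lit 7) (nat_lit 5) (nat_lit 7) (nat_lit 14) (nat_lit 123) r9_14 r3_123 (nat_lit 0) (nat_lit 0) (nat_lit 0) (nat_lit 0x7ff84561c) (nat_lit 1074405024)]
noncomputable def e17_4 : List Rx := [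
  Rx.mk (nat_lit 315) (nat_lit 3) (nat_lit 7) (nat_lit 4) (nat_lit 3) (nat_lit 15) (nat_lit 128) r9_15 r4_128 (nat_lit 0) (nat_lit 0) (nat_lit 5449534) (nat_lit 0x80029938e) (nat_lit 1079191358),
  Rx.mk (nat_lit 379) (nat_lit 3) (nat_lit 7) (nat_lit 5) (nat_lit 7) (nat_lit 16) (nat_lit 129) r9_16 r4_129 (nat_lit 0) (nat_lit 0) (nat_lit 0) (nat_lit 0x80029938e) (nat_lit 1073741824),
  Rx.mk (nat_lit 507) (nat_lit 3) (nat_lit 7) (nat_lit 7) (nat_lit 7) (nat_lit 17) (nat_lit 130) r9_17 r4_130 (nat_lit 0) (nat_lit 0) (nat_lit 0) (nat_lit 0x80029938e) (nat_lit 1073741824)]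
noncomputable def e17_5 : List Rx := [
  Rx.mk (nat_lit 379) (nat_lit 3) (nat_lit 7) (nat_lit 5) (nat_lit 7) (nat_lit 18) (nat_lit 123) r9_18 r5_123 (nat_lit 0) (nat_lit 0) (nat_lit 0) (nat_lit 0x80029938e) (nat_lit 1073741824)]
noncomputable def e17_6 : List Rx := [
  Rx.mk (nat_lit 88) (nat_lit 0) (nat_lit 3) (nat_lit 1) (nat_lit 6) (nat_lit 19) (nat_lit 142) r9_19 r3_142 (nat_lit 1112594) (nat_lit 0) (nat_lit 0) (nat_lit 0x72fee8a80) (nat_lit 1291746118),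
  Rx.mk (nat_lit 89) (nat_lit 1) (nat_lit 3) (nat_lit 1) (nat_lit 7) (nat_lit 20) (nat_lit 143) r9_20 r3_143 (nat_lit 0) (nat_lit 0) (nat_lit 0) (nat_lit 0x80029938e) (nat_lit 1073741824),
  Rx.mk (nat_lit 91) (nat_lit 3) (nat_lit 3) (nat_lit 1) (nat_lit 7) (nat_lit 22) (nat_lit 144) r9_22 r3_144 (nat_lit 0) (nat_lit 0) (nat_lit 0) (nat_lit 0x80029938e) (nat_lit 1073741824),
  Rx.mk (nat_lit 123) (nat_lit 3) (nat_lit 7) (nat_lit 1) (nat_lit 7) (nat_lit 21) (nat_lit 141) r9_21 r3_141 (nat_lit 0) (nat_lit 0) (nat_lit 0) (nat_lit 0x7ff99da00) (nat_lit 1074318324)]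
noncomputable def e17_7 : List Rx := [
  Rx.mk (nat_lit 0) (nat_lit 0) (nat_lit 0) (nat_lit 0) (nat_lit 0) (nat_lit 23) (nat_lit 155) r9_23 r0_155 (nat_lit 2362812) (nat_lit 4153151) (nat_lit 1354781) (nat_lit 0x1b57e90f6) (nat_lit 2759934868),
  Rx.mk (nat_lit 2) (nat_lit 2) (nat_lit 0) (nat_lit 0) (nat_lit 1) (nat_lit 29) (nat_lit 158) r9_29 r0_158 (nat_lit 0) (nat_lit 18445641) (nat_lit 2771204) (nat_lit 0x4ea89f76a) (nat_lit 1917708369),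
  Rx.mk (nat_lit 24) (nat_lit 0) (nat_lit 3) (nat_lit 0) (nat_lit 2) (nat_lit 25) (nat_lit 161) r9_25 r0_161 (nat_lit 2475026) (nat_lit 0) (nat_lit 2456288) (nat_lit 0x57aea971a) (nat_lit 1750970938),
  Rx.mk (nat_lit 26) (nat_lit 2) (nat_lit 3) (nat_lit 0) (nat_lit 3) (nat_lit 33) (nat_lit 167) r9_33 r0_167 (nat_lit 0) (nat_lit 0) (nat_lit 5084035) (nat_lit 0x7fe4632fc) (nat_lit 1080766959),
  Rx.mk (nat_lit 27) (nat_lit 3) (nat_lit 3) (nat_lit 0) (nat_lit 3) (nat_lit 37) (nat_lit 164) r9_37 r0_164 (nat_lit 0) (nat_lit 0) (nat_lit 5165939) (nat_lit 0x791ad7c68) (nat_lit 1193957763),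
  Rx.mk (nat_lit 64) (nat_lit 0) (nat_lit 0) (nat_lit 1) (nat_lit 4) (nat_lit 24) (nat_lit 156) r9_24 r0_156 (nat_lit 4070116) (nat_lit 4177856) (nat_lit 0) (nat_lit 0x4bc84881c) (nat_lit 1952696096),
  Rx.mk (nat_lit 65) (nat_lit 1) (nat_lit 0) (nat_lit 1) (nat_lit 5) (nat_lit 27) (nat_lit 157) r9_27 r0_157 (nat_lit 0) (nat_lit 6049948) (nat_lit 0) (nat_lit 0x7c59b23d6) (nat_lit 1140727172),
  Rx.mk (nat_lit 66) (nat_lit 2) (nat_lit 0) (nat_lit 1) (nat_lit 5) (nat_lit 30) (nat_lit 159) r9_30 r0_159 (nat_lit 0) (nat_lit 9808972) (nat_lit 0) (nat_lit 0x7fc6e9032) (nat_lit 1087396196),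
  Rx.mk (nat_lit 88) (nat_lit 0) (nat_lit 3) (nat_lit 1) (nat_lit 6) (nat_lit 26) (nat_lit 162) r9_26 r0_162 (nat_lit 5501243) (nat_lit 0) (nat_lit 0) (nat_lit 0x781c26610) (nat_lit 1210881267),
  Rx.mk (nat_lit 89) (nat_lit 1) (nat_lit 3) (nat_lit 1) (nat_lit 7) (nat_lit 28) (nat_lit 163) r9_28 r0_163 (nat_lit 0) (nat_lit 0) (nat_lit 0) (nat_lit 0x80029938e) (nat_lit 1073741824),
  Rx.mk (nat_lit 90) (nat_lit 2) (nat_lit 3) (nat_lit 1) (nat_lit 7) (nat_lit 34) (nat_lit 168) r9_34 r0_168 (nat_lit 0) (nat_lit 0) (nat_lit 0) (nat_lit 0x80029938e) (nat_lit 1073741824),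
  Rx.mk (nat_lit 91) (nat_lit 3) (nat_lit 3) (nat_lit 1) (nat_lit 7) (nat_lit 38) (nat_lit 165) r9_38 r0_165 (nat_lit 0) (nat_lit 0) (nat_lit 0) (nat_lit 0x80029938e) (nat_lit 1073741824),
  Rx.mk (nat_lit 130) (nat_lit 2) (nat_lit 0) (nat_lit 2) (nat_lit 5) (nat_lit 31) (nat_lit 160) r9_31 r0_160 (nat_lit 0) (nat_lit 89110576) (nat_lit 0) (nat_lit 0x7efa9f9ea) (nat_lit 1179970500),
  Rx.mk (nat_lit 146) (nat_lit 2) (nat_lit 2) (nat_lit 2) (nat_lit 7) (nat_lit 32) (nat_lit 170) r9_32 r0_170 (nat_lit 0) (nat_lit 0) (nat_lit 0) (nat_lit 0x7feda7fe8) (nat_lit 1075089724),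
  Rx.mk (nat_lit 154) (nat_lit 2) (nat_lit 3) (nat_lit 2) (nat_lit 7) (nat_lit 35) (nat_lit 169) r9_35 r0_169 (nat_lit 0) (nat_lit 0) (nat_lit 0) (nat_lit 0x80029938e) (nat_lit 1073741824),
  Rx.mk (nat_lit 219) (nat_lit 3) (nat_lit 3) (nat_lit 3) (nat_lit 7) (nat_lit 39) (nat_lit 166) r9_39 r0_166 (nat_lit 0) (nat_lit 0) (nat_lit 0) (nat_lit 0x80029938e) (nat_lit 1073741824),
  Rx.mk (nat_lit 251) (nat_lit 3) (nat_lit 7) (nat_lit 3) (nat_lit 7) (nat_lit 36) (nat_lit 154) r9_36 r0_154 (nat_lit 0) (nat_lit 0) (nat_lit 0) (nat_lit 0x80029938e) (nat_lit 1073741824)]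
noncomputable def e17_8 : List Rx := [
  Rx.mk (nat_lit 0) (nat_lit 0) (nat_lit 0) (nat_lit 0) (nat_lit 0) (nat_lit 40) (nat_lit 170) r9_40 r1_170 (nat_lit 14674099) (nat_lit 67552839) (nat_lit 5387168) (nat_lit 0x39df35bf4) (nat_lit 2330684730),
  Rx.mk (nat_lit 2) (nat_lit 2) (nat_lit 0) (nat_lit 0) (nat_lit 1) (nat_lit 42) (nat_lit 171) r9_42 r1_171 (nat_lit 0) (nat_lit 138692841) (nat_lit 4130151) (nat_lit 0x6fe20f042) (nat_lit 1485369016),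
  Rx.mk (nat_lit 24) (nat_lit 0) (nat_lit 3) (nat_lit 0) (nat_lit 2) (nat_lit 41) (nat_lit 173) r9_41 r1_173 (nat_lit 6975258) (nat_lit 0) (nat_lit 3916298) (nat_lit 0x682127750) (nat_lit 1482713080),
  Rx.mk (nat_lit 26) (nat_lit 2) (nat_lit 3) (nat_lit 0) (nat_lit 3) (nat_lit 45) (nat_lit 176) r9_45 r1_176 (nat_lit 0) (nat_lit 0) (nat_lit 5449534) (nat_lit 0x80029938e) (nat_lit 1079191358),
  Rx.mk (nat_lit 27) (nat_lit 3) (nat_lit 3) (nat_lit 0) (nat_lit 3) (nat_lit 48) (nat_lit 174) r9_48 r1_174 (nat_lit 0) (nat_lit 0) (nat_lit 5449534) (nat_lit 0x80029938e) (nat_lit 1079191358),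
  Rx.mk (nat_lit 130) (nat_lit 2) (nat_lit 0) (nat_lit 2) (nat_lit 5) (nat_lit 43) (nat_lit 172) r9_43 r1_172 (nat_lit 0) (nat_lit 7333993) (nat_lit 0) (nat_lit 0x7fde08646) (nat_lit 1083428917),
  Rx.mk (nat_lit 146) (nat_lit 2) (nat_lit 2) (nat_lit 2) (nat_lit 7) (nat_lit 44) (nat_lit 178) r9_44 r1_178 (nat_lit 0) (nat_lit 0) (nat_lit 0) (nat_lit 0x80029938e) (nat_lit 1073741824),
  Rx.mk (nat_lit 154) (nat_lit 2) (nat_lit 3) (nat_lit 2) (nat_lit 7) (nat_lit 46) (nat_lit 177) r9_46 r1_177 (nat_lit 0) (nat_lit 0) (nat_lit 0) (nat_lit 0x80029938e) (nat_lit 1073741824),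
  Rx.mk (nat_lit 219) (nat_lit 3) (nat_lit 3) (nat_lit 3) (nat_lit 7) (nat_lit 49) (nat_lit 175) r9_49 r1_175 (nat_lit 0) (nat_lit 0) (nat_lit 0) (nat_lit 0x80029938e) (nat_lit 1073741824),
  Rx.mk (nat_lit 251) (nat_lit 3) (nat_lit 7) (nat_lit 3) (nat_lit 7) (nat_lit 47) (nat_lit 169) r9_47 r1_169 (nat_lit 0) (nat_lit 0) (nat_lit 0) (nat_lit 0x80029938e) (nat_lit 1073741824)]
noncomputable def e17_9 : List Rx := [
  Rx.mk (nat_lit 24) (nat_lit 0) (nat_lit 3) (nat_lit 0) (nat_lit 2) (nat_lit 50) (nat_lit 147) r9_50 r4_147 (nat_lit 4618202) (nat_lit 0) (nat_lit 3884477) (nat_lit 0x668e28a5e) (nat_lit 1506571703),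
  Rx.mk (nat_lit 26) (nat_lit 2) (nat_lit 3) (nat_lit 0) (nat_lit 3) (nat_lit 53) (nat_lit 152) r9_53 r4_152 (nat_lit 0) (nat_lit 0) (nat_lit 5449534) (nat_lit 0x80029938e) (nat_lit 1079191358),
  Rx.mk (nat_lit 27) (nat_lit 3) (nat_lit 3) (nat_lit 0) (nat_lit 3) (nat_lit 59) (nat_lit 150) r9_59 r4_150 (nat_lit 0) (nat_lit 0) (nat_lit 5449534) (nat_lit 0x80029938e) (nat_lit 1079191358),
  Rx.mk (nat_lit 59) (nat_lit 3) (nat_lit 7) (nat_lit 0) (nat_lit 3) (nat_lit 56) (nat_lit 144) r9_56 r4_144 (nat_lit 0) (nat_lit 0) (nat_lit 5449534) (nat_lit 0x80029938e) (nat_lit 1079191358),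
  Rx.mk (nat_lit 88) (nat_lit 0) (nat_lit 3) (nat_lit 1) (nat_lit 6) (nat_lit 51) (nat_lit 148) r9_51 r4_148 (nat_lit 5449534) (nat_lit 0) (nat_lit 0) (nat_lit 0x80029938e) (nat_lit 1079191358),
  Rx.mk (nat_lit 89) (nat_lit 1) (nat_lit 3) (nat_lit 1) (nat_lit 7) (nat_lit 52) (nat_lit 149) r9_52 r4_149 (nat_lit 0) (nat_lit 0) (nat_lit 0) (nat_lit 0x80029938e) (nat_lit 1073741824),
  Rx.mk (nat_lit 90) (nat_lit 2) (nat_lit 3) (nat_lit 1) (nat_lit 7) (nat_lit 54) (nat_lit 153) r9_54 r4_153 (nat_lit 0) (nat_lit 0) (nat_lit 0) (nat_lit 0x80029938e) (nat_lit 1073741824),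
  Rx.mk (nat_lit 91) (nat_lit 3) (nat_lit 3) (nat_lit 1) (nat_lit 7) (nat_lit 60) (nat_lit 151) r9_60 r4_151 (nat_lit 0) (nat_lit 0) (nat_lit 0) (nat_lit 0x80029938e) (nat_lit 1073741824),
  Rx.mk (nat_lit 123) (nat_lit 3) (nat_lit 7) (nat_lit 1) (nat_lit 7) (nat_lit 57) (nat_lit 145) r9_57 r4_145 (nat_lit 0) (nat_lit 0) (nat_lit 0) (nat_lit 0x80029938e) (nat_lit 1073741824),
  Rx.mk (nat_lit 154) (nat_lit 2) (nat_lit 3) (nat_lit 2) (nat_lit 7) (nat_lit 55) (nat_lit 154) r9_55 r4_154 (nat_lit 0) (nat_lit 0) (nat_lit 0) (nat_lit 0x80029938e) (nat_lit 1073741824),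
  Rx.mk (nat_lit 251) (nat_lit 3) (nat_lit 7) (nat_lit 3) (nat_lit 7) (nat_lit 58) (nat_lit 146) r9_58 r4_146 (nat_lit 0) (nat_lit 0) (nat_lit 0) (nat_lit 0x80029938e) (nat_lit 1073741824)]
noncomputable def e17_10 : List Rx := [
  Rx.mk (nat_lit 123) (nat_lit 3) (nat_lit 7) (nat_lit 1) (nat_lit 7) (nat_lit 62) (nat_lit 126) r9_62 r6_126 (nat_lit 0) (nat_lit 0) (nat_lit 0) (nat_lit 0x80029938e) (nat_lit 1073741824),
  Rx.mk (nat_lit 379) (nat_lit 3) (nat_lit 7) (nat_lit 5) (nat_lit 7) (nat_lit 61) (nat_lit 127) r9_61 r6_127 (nat_lit 0) (nat_lit 0) (nat_lit 0) (nat_lit 0x80029938e) (nat_lit 1073741824)]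
noncomputable def e17_11 : List Rx := [
  Rx.mk (nat_lit 91) (nat_lit 3) (nat_lit 3) (nat_lit 1) (nat_lit 7) (nat_lit 64) (nat_lit 151) r9_64 r5_151 (nat_lit 0) (nat_lit 0) (nat_lit 0) (nat_lit 0x80029938e) (nat_lit 1073741824),
  Rx.mk (nat_lit 123) (nat_lit 3) (nat_lit 7) (nat_lit 1) (nat_lit 7) (nat_lit 63) (nat_lit 150) r9_63 r5_150 (nat_lit 0) (nat_lit 0) (nat_lit 0) (nat_lit 0x80029938e) (nat_lit 1073741824)]
noncomputable def e17_12 : List Rx := [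
  Rx.mk (nat_lit 356) (nat_lit 4) (nat_lit 4) (nat_lit 5) (nat_lit 4) (nat_lit 65) (nat_lit 262) r9_65 r0_262 (nat_lit 10235647) (nat_lit 33337572) (nat_lit 0) (nat_lit 0x56d0f2f2a) (nat_lit 1804056343),
  Rx.mk (nat_lit 359) (nat_lit 7) (nat_lit 4) (nat_lit 5) (nat_lit 5) (nat_lit 66) (nat_lit 263) r9_66 r0_263 (nat_lit 0) (nat_lit 7516292) (nat_lit 0) (nat_lit 0x7ed45a2a8) (nat_lit 1100866916),
  Rx.mk (nat_lit 383) (nat_lit 7) (nat_lit 7) (nat_lit 5) (nat_lit 7) (nat_lit 67) (nat_lit 264) r9_67 r0_264 (nat_lit 0) (nat_lit 0) (nat_lit 0) (nat_lit 0x7fff5bfe6) (nat_lit 1073949524)]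
noncomputable def e17_13 : List Rx := [
  Rx.mk (nat_lit 292) (nat_lit 4) (nat_lit 4) (nat_lit 4) (nat_lit 0) (nat_lit 68) (nat_lit 161) r9_68 r7_161 (nat_lit 3477128) (nat_lit 11576654) (nat_lit 3385952) (nat_lit 0x34c2f965c) (nat_lit 2346711858),
  Rx.mk (nat_lit 295) (nat_lit 7) (nat_lit 4) (nat_lit 4) (nat_lit 1) (nat_lit 74) (nat_lit 166) r9_74 r7_166 (nat_lit 0) (nat_lit 7900979) (nat_lit 6241714) (nat_lit 0x694fdda3a) (nat_lit 1466245017),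
  Rx.mk (nat_lit 308) (nat_lit 4) (nat_lit 6) (nat_lit 4) (nat_lit 2) (nat_lit 70) (nat_lit 163) r9_70 r7_163 (nat_lit 5437810) (nat_lit 0) (nat_lit 4914479) (nat_lit 0x6b8d41d70) (nat_lit 1425110413),
  Rx.mk (nat_lit 311) (nat_lit 7) (nat_lit 6) (nat_lit 4) (nat_lit 3) (nat_lit 76) (nat_lit 171) r9_76 r7_171 (nat_lit 0) (nat_lit 0) (nat_lit 5449534) (nat_lit 0x7ff6b914a) (nat_lit 1079953558),
  Rx.mk (nat_lit 319) (nat_lit 7) (nat_lit 7) (nat_lit 4) (nat_lit 3) (nat_lit 79) (nat_lit 168) r9_79 r7_168 (nat_lit 0) (nat_lit 0) (nat_lit 5449534) (nat_lit 0x7ff64ac54) (nat_lit 1079981358),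
  Rx.mk (nat_lit 356) (nat_lit 4) (nat_lit 4) (nat_lit 5) (nat_lit 4) (nat_lit 69) (nat_lit 162) r9_69 r7_162 (nat_lit 7389909) (nat_lit 44159155) (nat_lit 0) (nat_lit 0x66138ffea) (nat_lit 1557598988),
  Rx.mk (nat_lit 359) (nat_lit 7) (nat_lit 4) (nat_lit 5) (nat_lit 5) (nat_lit 75) (nat_lit 167) r9_75 r7_167 (nat_lit 0) (nat_lit 5449534) (nat_lit 0) (nat_lit 0x7fffb0fc8) (nat_lit 1079377758),
  Rx.mk (nat_lit 372) (nat_lit 4) (nat_lit 6) (nat_lit 5) (nat_lit 6) (nat_lit 71) (nat_lit 164) r9_71 r7_164 (nat_lit 5449534) (nat_lit 0) (nat_lit 0) (nat_lit 0x80029938e) (nat_lit 1079191358),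
  Rx.mk (nat_lit 375) (nat_lit 7) (nat_lit 6) (nat_lit 5) (nat_lit 7) (nat_lit 77) (nat_lit 172) r9_77 r7_172 (nat_lit 0) (nat_lit 0) (nat_lit 0) (nat_lit 0x80029938e) (nat_lit 1073741824),
  Rx.mk (nat_lit 383) (nat_lit 7) (nat_lit 7) (nat_lit 5) (nat_lit 7) (nat_lit 80) (nat_lit 169) r9_80 r7_169 (nat_lit 0) (nat_lit 0) (nat_lit 0) (nat_lit 0x80029938e) (nat_lit 1073741824),
  Rx.mk (nat_lit 436) (nat_lit 4) (nat_lit 6) (nat_lit 6) (nat_lit 6) (nat_lit 72) (nat_lit 165) r9_72 r7_165 (nat_lit 5449534) (nat_lit 0) (nat_lit 0) (nat_lit 0x80029938e) (nat_lit 1079191358),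
  Rx.mk (nat_lit 438) (nat_lit 6) (nat_lit 6) (nat_lit 6) (nat_lit 7) (nat_lit 73) (nat_lit 174) r9_73 r7_174 (nat_lit 0) (nat_lit 0) (nat_lit 0) (nat_lit 0x80029938e) (nat_lit 1073741824),
  Rx.mk (nat_lit 439) (nat_lit 7) (nat_lit 6) (nat_lit 6) (nat_lit 7) (nat_lit 78) (nat_lit 173) r9_78 r7_173 (nat_lit 0) (nat_lit 0) (nat_lit 0) (nat_lit 0x80029938e) (nat_lit 1073741824),
  Rx.mk (nat_lit 507) (nat_lit 3) (nat_lit 7) (nat_lit 7) (nat_lit 7) (nat_lit 82) (nat_lit 160) r9_82 r7_160 (nat_lit 0) (nat_lit 0) (nat_lit 0) (nat_lit 0x80029938e) (nat_lit 1073741824),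
  Rx.mk (nat_lit 511) (nat_lit 7) (nat_lit 7) (nat_lit 7) (nat_lit 7) (nat_lit 81) (nat_lit 170) r9_81 r7_170 (nat_lit 0) (nat_lit 0) (nat_lit 0) (nat_lit 0x80029938e) (nat_lit 1073741824)]
noncomputable def e17_14 : List Rx := [
  Rx.mk (nat_lit 356) (nat_lit 4) (nat_lit 4) (nat_lit 5) (nat_lit 4) (nat_lit 83) (nat_lit 269) r9_83 r1_269 (nat_lit 6516784) (nat_lit 83686084) (nat_lit 0) (nat_lit 0x6eb511780) (nat_lit 1452352692),
  Rx.mk (nat_lit 359) (nat_lit 7) (nat_lit 4) (nat_lit 5) (nat_lit 5) (nat_lit 84) (nat_lit 270) r9_84 r1_270 (nat_lit 0) (nat_lit 5449534) (nat_lit 0) (nat_lit 0x80029938e) (nat_lit 1079191358),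
  Rx.mk (nat_lit 383) (nat_lit 7) (nat_lit 7) (nat_lit 5) (nat_lit 7) (nat_lit 85) (nat_lit 271) r9_85 r1_271 (nat_lit 0) (nat_lit 0) (nat_lit 0) (nat_lit 0x80029938e) (nat_lit 1073741824)]
noncomputable def e17_15 : List Rx := [
  Rx.mk (nat_lit 292) (nat_lit 4) (nat_lit 4) (nat_lit 4) (nat_lit 0) (nat_lit 86) (nat_lit 133) r9_86 r8_133 (nat_lit 3458182) (nat_lit 67809161) (nat_lit 5464222) (nat_lit 0x3d69a35d6) (nat_lit 2260766689),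
  Rx.mk (nat_lit 295) (nat_lit 7) (nat_lit 4) (nat_lit 4) (nat_lit 1) (nat_lit 92) (nat_lit 138) r9_92 r8_138 (nat_lit 0) (nat_lit 4176648) (nat_lit 7704862) (nat_lit 0x6d546e2f8) (nat_lit 1396994434),
  Rx.mk (nat_lit 308) (nat_lit 4) (nat_lit 6) (nat_lit 4) (nat_lit 2) (nat_lit 88) (nat_lit 135) r9_88 r8_135 (nat_lit 6919696) (nat_lit 0) (nat_lit 6297923) (nat_lit 0x6f394a1f0) (nat_lit 1366753143),
  Rx.mk (nat_lit 311) (nat_lit 7) (nat_lit 6) (nat_lit 4) (nat_lit 3) (nat_lit 94) (nat_lit 143) r9_94 r8_143 (nat_lit 0) (nat_lit 0) (nat_lit 5449534) (nat_lit 0x80029938e) (nat_lit 1079191358),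
  Rx.mk (nat_lit 319) (nat_lit 7) (nat_lit 7) (nat_lit 4) (nat_lit 3) (nat_lit 96) (nat_lit 140) r9_96 r8_140 (nat_lit 0) (nat_lit 0) (nat_lit 5449534) (nat_lit 0x80029938e) (nat_lit 1079191358),
  Rx.mk (nat_lit 356) (nat_lit 4) (nat_lit 4) (nat_lit 5) (nat_lit 4) (nat_lit 87) (nat_lit 134) r9_87 r8_134 (nat_lit 9618943) (nat_lit 38723310) (nat_lit 0) (nat_lit 0x6bfe9de7e) (nat_lit 1455718977),
  Rx.mk (nat_lit 359) (nat_lit 7) (nat_lit 4) (nat_lit 5) (nat_lit 5) (nat_lit 93) (nat_lit 139) r9_93 r8_139 (nat_lit 0) (nat_lit 5449534) (nat_lit 0) (nat_lit 0x80029938e) (nat_lit 1079191358),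
  Rx.mk (nat_lit 372) (nat_lit 4) (nat_lit 6) (nat_lit 5) (nat_lit 6) (nat_lit 89) (nat_lit 136) r9_89 r8_136 (nat_lit 5449534) (nat_lit 0) (nat_lit 0) (nat_lit 0x80029938e) (nat_lit 1079191358),
  Rx.mk (nat_lit 375) (nat_lit 7) (nat_lit 6) (nat_lit 5) (nat_lit 7) (nat_lit 95) (nat_lit 144) r9_95 r8_144 (nat_lit 0) (nat_lit 0) (nat_lit 0) (nat_lit 0x80029938e) (nat_lit 1073741824),
  Rx.mk (nat_lit 383) (nat_lit 7) (nat_lit 7) (nat_lit 5) (nat_lit 7) (nat_lit 97) (nat_lit 141) r9_97 r8_141 (nat_lit 0) (nat_lit 0) (nat_lit 0) (nat_lit 0x80029938e) (nat_lit 1073741824),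
  Rx.mk (nat_lit 436) (nat_lit 4) (nat_lit 6) (nat_lit 6) (nat_lit 6) (nat_lit 90) (nat_lit 137) r9_90 r8_137 (nat_lit 5449534) (nat_lit 0) (nat_lit 0) (nat_lit 0x80029938e) (nat_lit 1079191358),
  Rx.mk (nat_lit 438) (nat_lit 6) (nat_lit 6) (nat_lit 6) (nat_lit 7) (nat_lit 91) (nat_lit 145) r9_91 r8_145 (nat_lit 0) (nat_lit 0) (nat_lit 0) (nat_lit 0x80029938e) (nat_lit 1073741824),
  Rx.mk (nat_lit 511) (nat_lit 7) (nat_lit 7) (nat_lit 7) (nat_lit 7) (nat_lit 98) (nat_lit 142) r9_98 r8_142 (nat_lit 0) (nat_lit 0) (nat_lit 0) (nat_lit 0x80029938e) (nat_lit 1073741824)]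
noncomputable def e17_16 : List Rx := [
  Rx.mk (nat_lit 292) (nat_lit 4) (nat_lit 4) (nat_lit 4) (nat_lit 0) (nat_lit 99) (nat_lit 273) r9_99 r8_273 (nat_lit 3283945) (nat_lit 10845530) (nat_lit 3207243) (nat_lit 0x3b8a2a25c) (nat_lit 2232597442),
  Rx.mk (nat_lit 295) (nat_lit 7) (nat_lit 4) (nat_lit 4) (nat_lit 1) (nat_lit 103) (nat_lit 274) r9_103 r8_274 (nat_lit 0) (nat_lit 4026349) (nat_lit 6516495) (nat_lit 0x6c0f7a8a0) (nat_lit 1416819768),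
  Rx.mk (nat_lit 308) (nat_lit 4) (nat_lit 6) (nat_lit 4) (nat_lit 2) (nat_lit 100) (nat_lit 276) r9_100 r8_276 (nat_lit 4643983) (nat_lit 0) (nat_lit 5166248) (nat_lit 0x6e6877564) (nat_lit 1376945555),
  Rx.mk (nat_lit 311) (nat_lit 7) (nat_lit 6) (nat_lit 4) (nat_lit 3) (nat_lit 104) (nat_lit 277) r9_104 r8_277 (nat_lit 0) (nat_lit 0) (nat_lit 5449534) (nat_lit 0x80029938e) (nat_lit 1079191358),
  Rx.mk (nat_lit 319) (nat_lit 7) (nat_lit 7) (nat_lit 4) (nat_lit 3) (nat_lit 106) (nat_lit 275) r9_106 r8_275 (nat_lit 0) (nat_lit 0) (nat_lit 5449534) (nat_lit 0x80029938e) (nat_lit 1079191358),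
  Rx.mk (nat_lit 436) (nat_lit 4) (nat_lit 6) (nat_lit 6) (nat_lit 6) (nat_lit 101) (nat_lit 280) r9_101 r8_280 (nat_lit 5449534) (nat_lit 0) (nat_lit 0) (nat_lit 0x8000c26c8) (nat_lit 1079309258),
  Rx.mk (nat_lit 438) (nat_lit 6) (nat_lit 6) (nat_lit 6) (nat_lit 7) (nat_lit 102) (nat_lit 282) r9_102 r8_282 (nat_lit 0) (nat_lit 0) (nat_lit 0) (nat_lit 0x80029938e) (nat_lit 1073741824),
  Rx.mk (nat_lit 439) (nat_lit 7) (nat_lit 6) (nat_lit 6) (nat_lit 7) (nat_lit 105) (nat_lit 281) r9_105 r8_281 (nat_lit 0) (nat_lit 0) (nat_lit 0) (nat_lit 0x80029938e) (nat_lit 1073741824),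
  Rx.mk (nat_lit 507) (nat_lit 3) (nat_lit 7) (nat_lit 7) (nat_lit 7) (nat_lit 108) (nat_lit 279) r9_108 r8_279 (nat_lit 0) (nat_lit 0) (nat_lit 0) (nat_lit 0x80029938e) (nat_lit 1073741824),
  Rx.mk (nat_lit 511) (nat_lit 7) (nat_lit 7) (nat_lit 7) (nat_lit 7) (nat_lit 107) (nat_lit 278) r9_107 r8_278 (nat_lit 0) (nat_lit 0) (nat_lit 0) (nat_lit 0x80029938e) (nat_lit 1073741824)]
noncomputable def e17_17 : List Rx := [
  Rx.mk (nat_lit 0) (nat_lit 0) (nat_lit 0) (nat_lit 0) (nat_lit 0) (nat_lit 121) (nat_lit 109) r9_121 r9_109 (nat_lit 3167796) (nat_lit 3990366) (nat_lit 4480828) (nat_lit 0x37a29a7fa) (nat_lit 2292002314),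
  Rx.mk (nat_lit 2) (nat_lit 2) (nat_lit 0) (nat_lit 0) (nat_lit 1) (nat_lit 124) (nat_lit 115) r9_124 r9_115 (nat_lit 0) (nat_lit 3355709) (nat_lit 6392600) (nat_lit 0x6abd418c8) (nat_lit 1438053933),
  Rx.mk (nat_lit 24) (nat_lit 0) (nat_lit 3) (nat_lit 0) (nat_lit 2) (nat_lit 122) (nat_lit 110) r9_122 r9_110 (nat_lit 3755472) (nat_lit 0) (nat_lit 6401632) (nat_lit 0x6da87228c) (nat_lit 1389798428),
  Rx.mk (nat_lit 26) (nat_lit 2) (nat_lit 3) (nat_lit 0) (nat_lit 3) (nat_lit 127) (nat_lit 117) r9_127 r9_117 (nat_lit 0) (nat_lit 0) (nat_lit 5449534) (nat_lit 0x7ffa3aa58) (nat_lit 1079728258),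
  Rx.mk (nat_lit 130) (nat_lit 2) (nat_lit 0) (nat_lit 2) (nat_lit 5) (nat_lit 125) (nat_lit 116) r9_125 r9_116 (nat_lit 0) (nat_lit 5009256) (nat_lit 0) (nat_lit 0x7fea1a902) (nat_lit 1080325280),
  Rx.mk (nat_lit 146) (nat_lit 2) (nat_lit 2) (nat_lit 2) (nat_lit 7) (nat_lit 126) (nat_lit 120) r9_126 r9_120 (nat_lit 0) (nat_lit 0) (nat_lit 0) (nat_lit 0x80029938e) (nat_lit 1073741824),
  Rx.mk (nat_lit 150) (nat_lit 6) (nat_lit 2) (nat_lit 2) (nat_lit 7) (nat_lit 114) (nat_lit 130) r9_114 r9_130 (nat_lit 0) (nat_lit 0) (nat_lit 0) (nat_lit 0x80029938e) (nat_lit 1073741824),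
  Rx.mk (nat_lit 154) (nat_lit 2) (nat_lit 3) (nat_lit 2) (nat_lit 7) (nat_lit 128) (nat_lit 119) r9_128 r9_119 (nat_lit 0) (nat_lit 0) (nat_lit 0) (nat_lit 0x80029938e) (nat_lit 1073741824),
  Rx.mk (nat_lit 216) (nat_lit 0) (nat_lit 3) (nat_lit 3) (nat_lit 6) (nat_lit 123) (nat_lit 111) r9_123 r9_111 (nat_lit 5449534) (nat_lit 0) (nat_lit 0) (nat_lit 0x7ff52fc70) (nat_lit 1080052258),
  Rx.mk (nat_lit 218) (nat_lit 2) (nat_lit 3) (nat_lit 3) (nat_lit 7) (nat_lit 129) (nat_lit 118) r9_129 r9_118 (nat_lit 0) (nat_lit 0) (nat_lit 0) (nat_lit 0x80029938e) (nat_lit 1073741824),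
  Rx.mk (nat_lit 219) (nat_lit 3) (nat_lit 3) (nat_lit 3) (nat_lit 7) (nat_lit 132) (nat_lit 112) r9_132 r9_112 (nat_lit 0) (nat_lit 0) (nat_lit 0) (nat_lit 0x80029938e) (nat_lit 1073741824),
  Rx.mk (nat_lit 251) (nat_lit 3) (nat_lit 7) (nat_lit 3) (nat_lit 7) (nat_lit 131) (nat_lit 113) r9_131 r9_113 (nat_lit 0) (nat_lit 0) (nat_lit 0) (nat_lit 0x80029938e) (nat_lit 1073741824),
  Rx.mk (nat_lit 292) (nat_lit 4) (nat_lit 4) (nat_lit 4) (nat_lit 0) (nat_lit 109) (nat_lit 121) r9_109 r9_121 (nat_lit 3167796) (nat_lit 3990366) (nat_lit 4480828) (nat_lit 0x37a29a7fa) (nat_lit 2292002314),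
  Rx.mk (nat_lit 295) (nat_lit 7) (nat_lit 4) (nat_lit 4) (nat_lit 1) (nat_lit 115) (nat_lit 124) r9_115 r9_124 (nat_lit 0) (nat_lit 3355709) (nat_lit 6392600) (nat_lit 0x6abd418c8) (nat_lit 1438053933),
  Rx.mk (nat_lit 308) (nat_lit 4) (nat_lit 6) (nat_lit 4) (nat_lit 2) (nat_lit 110) (nat_lit 122) r9_110 r9_122 (nat_lit 3755472) (nat_lit 0) (nat_lit 6401632) (nat_lit 0x6da87228c) (nat_lit 1389798428),
  Rx.mk (nat_lit 311) (nat_lit 7) (nat_lit 6) (nat_lit 4) (nat_lit 3) (nat_lit 117) (nat_lit 127) r9_117 r9_127 (nat_lit 0) (nat_lit 0) (nat_lit 5449534) (nat_lit 0x7ffa3aa58) (nat_lit 1079728258),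
  Rx.mk (nat_lit 406) (nat_lit 6) (nat_lit 2) (nat_lit 6) (nat_lit 7) (nat_lit 113) (nat_lit 131) r9_113 r9_131 (nat_lit 0) (nat_lit 0) (nat_lit 0) (nat_lit 0x80029938e) (nat_lit 1073741824),
  Rx.mk (nat_lit 436) (nat_lit 4) (nat_lit 6) (nat_lit 6) (nat_lit 6) (nat_lit 111) (nat_lit 123) r9_111 r9_123 (nat_lit 5449534) (nat_lit 0) (nat_lit 0) (nat_lit 0x7ff52fc70) (nat_lit 1080052258),
  Rx.mk (nat_lit 438) (nat_lit 6) (nat_lit 6) (nat_lit 6) (nat_lit 7) (nat_lit 112) (nat_lit 132) r9_112 r9_132 (nat_lit 0) (nat_lit 0) (nat_lit 0) (nat_lit 0x80029938e) (nat_lit 1073741824),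
  Rx.mk (nat_lit 439) (nat_lit 7) (nat_lit 6) (nat_lit 6) (nat_lit 7) (nat_lit 118) (nat_lit 129) r9_118 r9_129 (nat_lit 0) (nat_lit 0) (nat_lit 0) (nat_lit 0x80029938e) (nat_lit 1073741824),
  Rx.mk (nat_lit 487) (nat_lit 7) (nat_lit 4) (nat_lit 7) (nat_lit 5) (nat_lit 116) (nat_lit 125) r9_116 r9_125 (nat_lit 0) (nat_lit 5009256) (nat_lit 0) (nat_lit 0x7fea1a902) (nat_lit 1080325280),
  Rx.mk (nat_lit 503) (nat_lit 7) (nat_lit 6) (nat_lit 7) (nat_lit 7) (nat_lit 119) (nat_lit 128) r9_119 r9_128 (nat_lit 0) (nat_lit 0) (nat_lit 0) (nat_lit 0x80029938e) (nat_lit 1073741824),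
  Rx.mk (nat_lit 507) (nat_lit 3) (nat_lit 7) (nat_lit 7) (nat_lit 7) (nat_lit 130) (nat_lit 114) r9_130 r9_114 (nat_lit 0) (nat_lit 0) (nat_lit 0) (nat_lit 0x80029938e) (nat_lit 1073741824),
  Rx.mk (nat_lit 511) (nat_lit 7) (nat_lit 7) (nat_lit 7) (nat_lit 7) (nat_lit 120) (nat_lit 126) r9_120 r9_126 (nat_lit 0) (nat_lit 0) (nat_lit 0) (nat_lit 0x80029938e) (nat_lit 1073741824)]
noncomputable def e17_18 : List Rx := [
  Rx.mk (nat_lit 359) (nat_lit 7) (nat_lit 4) (nat_lit 5) (nat_lit 5) (nat_lit 133) (nat_lit 276) r9_133 r4_276 (nat_lit 0) (nat_lit 5449534) (nat_lit 0) (nat_lit 0x80029938e) (nat_lit 1079191358),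
  Rx.mk (nat_lit 379) (nat_lit 3) (nat_lit 7) (nat_lit 5) (nat_lit 7) (nat_lit 135) (nat_lit 278) r9_135 r4_278 (nat_lit 0) (nat_lit 0) (nat_lit 0) (nat_lit 0x80029938e) (nat_lit 1073741824),
  Rx.mk (nat_lit 383) (nat_lit 7) (nat_lit 7) (nat_lit 5) (nat_lit 7) (nat_lit 134) (nat_lit 277) r9_134 r4_277 (nat_lit 0) (nat_lit 0) (nat_lit 0) (nat_lit 0x80029938e) (nat_lit 1073741824)]
noncomputable def e17_19 : List Rx := [
  Rx.mk (nat_lit 295) (nat_lit 7) (nat_lit 4) (nat_lit 4) (nat_lit 1) (nat_lit 136) (nat_lit 120) r9_136 r10_120 (nat_lit 0) (nat_lit 10854105) (nat_lit 8967556) (nat_lit 0x6c3b432d4) (nat_lit 1423247285),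
  Rx.mk (nat_lit 311) (nat_lit 7) (nat_lit 6) (nat_lit 4) (nat_lit 3) (nat_lit 138) (nat_lit 124) r9_138 r10_124 (nat_lit 0) (nat_lit 0) (nat_lit 5449534) (nat_lit 0x80029938e) (nat_lit 1079191358),
  Rx.mk (nat_lit 315) (nat_lit 3) (nat_lit 7) (nat_lit 4) (nat_lit 3) (nat_lit 143) (nat_lit 117) r9_143 r10_117 (nat_lit 0) (nat_lit 0) (nat_lit 5449534) (nat_lit 0x80029938e) (nat_lit 1079191358),
  Rx.mk (nat_lit 319) (nat_lit 7) (nat_lit 7) (nat_lit 4) (nat_lit 3) (nat_lit 141) (nat_lit 122) r9_141 r10_122 (nat_lit 0) (nat_lit 0) (nat_lit 5449534) (nat_lit 0x7ffe55638) (nat_lit 1079464858),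
  Rx.mk (nat_lit 359) (nat_lit 7) (nat_lit 4) (nat_lit 5) (nat_lit 5) (nat_lit 137) (nat_lit 121) r9_137 r10_121 (nat_lit 0) (nat_lit 5449534) (nat_lit 0) (nat_lit 0x80029938e) (nat_lit 1079191358),
  Rx.mk (nat_lit 375) (nat_lit 7) (nat_lit 6) (nat_lit 5) (nat_lit 7) (nat_lit 139) (nat_lit 125) r9_139 r10_125 (nat_lit 0) (nat_lit 0) (nat_lit 0) (nat_lit 0x80029938e) (nat_lit 1073741824),
  Rx.mk (nat_lit 379) (nat_lit 3) (nat_lit 7) (nat_lit 5) (nat_lit 7) (nat_lit 144) (nat_lit 118) r9_144 r10_118 (nat_lit 0) (nat_lit 0) (nat_lit 0) (nat_lit 0x80029938e) (nat_lit 1073741824),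
  Rx.mk (nat_lit 383) (nat_lit 7) (nat_lit 7) (nat_lit 5) (nat_lit 7) (nat_lit 142) (nat_lit 123) r9_142 r10_123 (nat_lit 0) (nat_lit 0) (nat_lit 0) (nat_lit 0x80029938e) (nat_lit 1073741824),
  Rx.mk (nat_lit 439) (nat_lit 7) (nat_lit 6) (nat_lit 6) (nat_lit 7) (nat_lit 140) (nat_lit 126) r9_140 r10_126 (nat_lit 0) (nat_lit 0) (nat_lit 0) (nat_lit 0x80029938e) (nat_lit 1073741824),
  Rx.mk (nat_lit 507) (nat_lit 3) (nat_lit 7) (nat_lit 7) (nat_lit 7) (nat_lit 145) (nat_lit 119) r9_145 r10_119 (nat_lit 0) (nat_lit 0) (nat_lit 0) (nat_lit 0x80029938e) (nat_lit 1073741824)]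
noncomputable def e17_20 : List Rx := [
  Rx.mk (nat_lit 379) (nat_lit 3) (nat_lit 7) (nat_lit 5) (nat_lit 7) (nat_lit 147) (nat_lit 123) r9_147 r11_123 (nat_lit 0) (nat_lit 0) (nat_lit 0) (nat_lit 0x80029938e) (nat_lit 1073741824),
  Rx.mk (nat_lit 383) (nat_lit 7) (nat_lit 7) (nat_lit 5) (nat_lit 7) (nat_lit 146) (nat_lit 124) r9_146 r11_124 (nat_lit 0) (nat_lit 0) (nat_lit 0) (nat_lit 0x80029938e) (nat_lit 1073741824)]
noncomputable def e17_21 : List Rx := [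
  Rx.mk (nat_lit 0) (nat_lit 0) (nat_lit 0) (nat_lit 0) (nat_lit 0) (nat_lit 148) (nat_lit 148) r9_148 r9_148 (nat_lit 5840664) (nat_lit 5840664) (nat_lit 4716177) (nat_lit 0x3be52135e) (nat_lit 2225736129),
  Rx.mk (nat_lit 2) (nat_lit 2) (nat_lit 0) (nat_lit 0) (nat_lit 1) (nat_lit 151) (nat_lit 149) r9_151 r9_149 (nat_lit 0) (nat_lit 4416221) (nat_lit 7699191) (nat_lit 0x706d081bc) (nat_lit 1345607236),
  Rx.mk (nat_lit 24) (nat_lit 0) (nat_lit 3) (nat_lit 0) (nat_lit 2) (nat_lit 149) (nat_lit 151) r9_149 r9_151 (nat_lit 4416221) (nat_lit 0) (nat_lit 7699191) (nat_lit 0x706d081bc) (nat_lit 1345607236),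
  Rx.mk (nat_lit 130) (nat_lit 2) (nat_lit 0) (nat_lit 2) (nat_lit 5) (nat_lit 152) (nat_lit 150) r9_152 r9_150 (nat_lit 0) (nat_lit 5449534) (nat_lit 0) (nat_lit 0x80029938e) (nat_lit 1079191358),
  Rx.mk (nat_lit 146) (nat_lit 2) (nat_lit 2) (nat_lit 2) (nat_lit 7) (nat_lit 153) (nat_lit 154) r9_153 r9_154 (nat_lit 0) (nat_lit 0) (nat_lit 0) (nat_lit 0x80029938e) (nat_lit 1073741824),
  Rx.mk (nat_lit 216) (nat_lit 0) (nat_lit 3) (nat_lit 3) (nat_lit 6) (nat_lit 150) (nat_lit 152) r9_150 r9_152 (nat_lit 5449534) (nat_lit 0) (nat_lit 0) (nat_lit 0x80029938e) (nat_lit 1079191358),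
  Rx.mk (nat_lit 219) (nat_lit 3) (nat_lit 3) (nat_lit 3) (nat_lit 7) (nat_lit 154) (nat_lit 153) r9_154 r9_153 (nat_lit 0) (nat_lit 0) (nat_lit 0) (nat_lit 0x80029938e) (nat_lit 1073741824)]
noncomputable def e17_22 : List Rx := [
  Rx.mk (nat_lit 64) (nat_lit 0) (nat_lit 0) (nat_lit 1) (nat_lit 4) (nat_lit 155) (nat_lit 257) r9_155 r0_257 (nat_lit 6905727) (nat_lit 14069634) (nat_lit 0) (nat_lit 0x4c6cacf20) (nat_lit 1954719885),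
  Rx.mk (nat_lit 65) (nat_lit 1) (nat_lit 0) (nat_lit 1) (nat_lit 5) (nat_lit 157) (nat_lit 259) r9_157 r0_259 (nat_lit 0) (nat_lit 6147522) (nat_lit 0) (nat_lit 0x74233b2ba) (nat_lit 1277762346),
  Rx.mk (nat_lit 88) (nat_lit 0) (nat_lit 3) (nat_lit 1) (nat_lit 6) (nat_lit 156) (nat_lit 258) r9_156 r0_258 (nat_lit 5858494) (nat_lit 0) (nat_lit 0) (nat_lit 0x7eeecaa20) (nat_lit 1097492218),
  Rx.mk (nat_lit 89) (nat_lit 1) (nat_lit 3) (nat_lit 1) (nat_lit 7) (nat_lit 158) (nat_lit 260) r9_158 r0_260 (nat_lit 0) (nat_lit 0) (nat_lit 0) (nat_lit 0x80003986e) (nat_lit 1073894024),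
  Rx.mk (nat_lit 91) (nat_lit 3) (nat_lit 3) (nat_lit 1) (nat_lit 7) (nat_lit 159) (nat_lit 261) r9_159 r0_261 (nat_lit 0) (nat_lit 0) (nat_lit 0) (nat_lit 0x80029938e) (nat_lit 1073741824)]
noncomputable def e17_23 : List Rx := [
  Rx.mk (nat_lit 64) (nat_lit 0) (nat_lit 0) (nat_lit 1) (nat_lit 4) (nat_lit 160) (nat_lit 262) r9_160 r1_262 (nat_lit 7547362) (nat_lit 19988923) (nat_lit 0) (nat_lit 0x63fb2f9e8) (nat_lit 1568518609),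
  Rx.mk (nat_lit 65) (nat_lit 1) (nat_lit 0) (nat_lit 1) (nat_lit 5) (nat_lit 163) (nat_lit 265) r9_163 r1_265 (nat_lit 0) (nat_lit 5465451) (nat_lit 0) (nat_lit 0x80010992e) (nat_lit 1079307375),
  Rx.mk (nat_lit 72) (nat_lit 0) (nat_lit 1) (nat_lit 1) (nat_lit 6) (nat_lit 161) (nat_lit 263) r9_161 r1_263 (nat_lit 5449534) (nat_lit 0) (nat_lit 0) (nat_lit 0x80029938e) (nat_lit 1079191358),
  Rx.mk (nat_lit 73) (nat_lit 1) (nat_lit 1) (nat_lit 1) (nat_lit 7) (nat_lit 164) (nat_lit 266) r9_164 r1_266 (nat_lit 0) (nat_lit 0) (nat_lit 0) (nat_lit 0x80029938e) (nat_lit 1073741824),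
  Rx.mk (nat_lit 88) (nat_lit 0) (nat_lit 3) (nat_lit 1) (nat_lit 6) (nat_lit 162) (nat_lit 264) r9_162 r1_264 (nat_lit 5449534) (nat_lit 0) (nat_lit 0) (nat_lit 0x80029938e) (nat_lit 1079191358),
  Rx.mk (nat_lit 89) (nat_lit 1) (nat_lit 3) (nat_lit 1) (nat_lit 7) (nat_lit 165) (nat_lit 267) r9_165 r1_267 (nat_lit 0) (nat_lit 0) (nat_lit 0) (nat_lit 0x80029938e) (nat_lit 1073741824),
  Rx.mk (nat_lit 91) (nat_lit 3) (nat_lit 3) (nat_lit 1) (nat_lit 7) (nat_lit 166) (nat_lit 268) r9_166 r1_268 (nat_lit 0) (nat_lit 0) (nat_lit 0) (nat_lit 0x80029938e) (nat_lit 1073741824)]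
noncomputable def e17_24 : List Rx := [
  Rx.mk (nat_lit 88) (nat_lit 0) (nat_lit 3) (nat_lit 1) (nat_lit 6) (nat_lit 167) (nat_lit 273) r9_167 r4_273 (nat_lit 5449534) (nat_lit 0) (nat_lit 0) (nat_lit 0x80029938e) (nat_lit 1079191358),
  Rx.mk (nat_lit 89) (nat_lit 1) (nat_lit 3) (nat_lit 1) (nat_lit 7) (nat_lit 168) (nat_lit 274) r9_168 r4_274 (nat_lit 0) (nat_lit 0) (nat_lit 0) (nat_lit 0x80029938e) (nat_lit 1073741824),
  Rx.mk (nat_lit 91) (nat_lit 3) (nat_lit 3) (nat_lit 1) (nat_lit 7) (nat_lit 169) (nat_lit 275) r9_169 r4_275 (nat_lit 0) (nat_lit 0) (nat_lit 0) (nat_lit 0x80029938e) (nat_lit 1073741824)]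
noncomputable def e17_25 : List Rx := [
  Rx.mk (nat_lit 0) (nat_lit 0) (nat_lit 0) (nat_lit 0) (nat_lit 0) (nat_lit 170) (nat_lit 204) r9_170 r7_204 (nat_lit 5426102) (nat_lit 3541065) (nat_lit 3490957) (nat_lit 0x36db834e6) (nat_lit 2305784648),
  Rx.mk (nat_lit 2) (nat_lit 2) (nat_lit 0) (nat_lit 0) (nat_lit 1) (nat_lit 176) (nat_lit 207) r9_176 r7_207 (nat_lit 0) (nat_lit 7551398) (nat_lit 7072192) (nat_lit 0x6f426cc38) (nat_lit 1367563814),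
  Rx.mk (nat_lit 24) (nat_lit 0) (nat_lit 3) (nat_lit 0) (nat_lit 2) (nat_lit 172) (nat_lit 210) r9_172 r7_210 (nat_lit 8284346) (nat_lit 0) (nat_lit 8202458) (nat_lit 0x6b8996482) (nat_lit 1431483228),
  Rx.mk (nat_lit 27) (nat_lit 3) (nat_lit 3) (nat_lit 0) (nat_lit 3) (nat_lit 180) (nat_lit 213) r9_180 r7_213 (nat_lit 0) (nat_lit 0) (nat_lit 5449534) (nat_lit 0x7ffcbd500) (nat_lit 1079567158),
  Rx.mk (nat_lit 64) (nat_lit 0) (nat_lit 0) (nat_lit 1) (nat_lit 4) (nat_lit 171) (nat_lit 205) r9_171 r7_205 (nat_lit 9592768) (nat_lit 7908726) (nat_lit 0) (nat_lit 0x655f6e5e8) (nat_lit 1535282018),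
  Rx.mk (nat_lit 65) (nat_lit 1) (nat_lit 0) (nat_lit 1) (nat_lit 5) (nat_lit 174) (nat_lit 206) r9_174 r7_206 (nat_lit 0) (nat_lit 5575825) (nat_lit 0) (nat_lit 0x7ffab038e) (nat_lit 1079825149),
  Rx.mk (nat_lit 66) (nat_lit 2) (nat_lit 0) (nat_lit 1) (nat_lit 5) (nat_lit 177) (nat_lit 208) r9_177 r7_208 (nat_lit 0) (nat_lit 5449534) (nat_lit 0) (nat_lit 0x80029938e) (nat_lit 1079191358),
  Rx.mk (nat_lit 88) (nat_lit 0) (nat_lit 3) (nat_lit 1) (nat_lit 6) (nat_lit 173) (nat_lit 211) r9_173 r7_211 (nat_lit 5542978) (nat_lit 0) (nat_lit 0) (nat_lit 0x7ffdca448) (nat_lit 1079593202),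
  Rx.mk (nat_lit 89) (nat_lit 1) (nat_lit 3) (nat_lit 1) (nat_lit 7) (nat_lit 175) (nat_lit 212) r9_175 r7_212 (nat_lit 0) (nat_lit 0) (nat_lit 0) (nat_lit 0x80029938e) (nat_lit 1073741824),
  Rx.mk (nat_lit 91) (nat_lit 3) (nat_lit 3) (nat_lit 1) (nat_lit 7) (nat_lit 181) (nat_lit 214) r9_181 r7_214 (nat_lit 0) (nat_lit 0) (nat_lit 0) (nat_lit 0x80029938e) (nat_lit 1073741824),
  Rx.mk (nat_lit 130) (nat_lit 2) (nat_lit 0) (nat_lit 2) (nat_lit 5) (nat_lit 178) (nat_lit 209) r9_178 r7_209 (nat_lit 0) (nat_lit 5449534) (nat_lit 0) (nat_lit 0x80029938e) (nat_lit 1079191358),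
  Rx.mk (nat_lit 146) (nat_lit 2) (nat_lit 2) (nat_lit 2) (nat_lit 7) (nat_lit 179) (nat_lit 216) r9_179 r7_216 (nat_lit 0) (nat_lit 0) (nat_lit 0) (nat_lit 0x80029938e) (nat_lit 1073741824),
  Rx.mk (nat_lit 219) (nat_lit 3) (nat_lit 3) (nat_lit 3) (nat_lit 7) (nat_lit 182) (nat_lit 215) r9_182 r7_215 (nat_lit 0) (nat_lit 0) (nat_lit 0) (nat_lit 0x80029938e) (nat_lit 1073741824)]
noncomputable def e17_26 : List Rx := [
  Rx.mk (nat_lit 0) (nat_lit 0) (nat_lit 0) (nat_lit 0) (nat_lit 0) (nat_lit 183) (nat_lit 159) r9_183 r8_159 (nat_lit 4762811) (nat_lit 4180839) (nat_lit 4825209) (nat_lit 0x39d32f3e6) (nat_lit 2257620983),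
  Rx.mk (nat_lit 2) (nat_lit 2) (nat_lit 0) (nat_lit 0) (nat_lit 1) (nat_lit 192) (nat_lit 162) r9_192 r8_162 (nat_lit 0) (nat_lit 6953306) (nat_lit 7933342) (nat_lit 0x6c913698e) (nat_lit 1412714672),
  Rx.mk (nat_lit 8) (nat_lit 0) (nat_lit 1) (nat_lit 0) (nat_lit 2) (nat_lit 185) (nat_lit 165) r9_185 r8_165 (nat_lit 6366403) (nat_lit 0) (nat_lit 16033224) (nat_lit 0x7150c9342) (nat_lit 1341058751),
  Rx.mk (nat_lit 10) (nat_lit 2) (nat_lit 1) (nat_lit 0) (nat_lit 3) (nat_lit 195) (nat_lit 168) r9_195 r8_168 (nat_lit 0) (nat_lit 0) (nat_lit 5449534) (nat_lit 0x80029938e) (nat_lit 1079191358),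
  Rx.mk (nat_lit 24) (nat_lit 0) (nat_lit 3) (nat_lit 0) (nat_lit 2) (nat_lit 187) (nat_lit 171) r9_187 r8_171 (nat_lit 11901673) (nat_lit 0) (nat_lit 16440661) (nat_lit 0x75402140a) (nat_lit 1281397658),
  Rx.mk (nat_lit 27) (nat_lit 3) (nat_lit 3) (nat_lit 0) (nat_lit 3) (nat_lit 199) (nat_lit 174) r9_199 r8_174 (nat_lit 0) (nat_lit 0) (nat_lit 5449534) (nat_lit 0x80029938e) (nat_lit 1079191358),
  Rx.mk (nat_lit 64) (nat_lit 0) (nat_lit 0) (nat_lit 1) (nat_lit 4) (nat_lit 184) (nat_lit 160) r9_184 r8_160 (nat_lit 6452239) (nat_lit 8082267) (nat_lit 0) (nat_lit 0x67b4a3a2a) (nat_lit 1493420030),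
  Rx.mk (nat_lit 65) (nat_lit 1) (nat_lit 0) (nat_lit 1) (nat_lit 5) (nat_lit 189) (nat_lit 161) r9_189 r8_161 (nat_lit 0) (nat_lit 5449534) (nat_lit 0) (nat_lit 0x80029938e) (nat_lit 1079191358),
  Rx.mk (nat_lit 66) (nat_lit 2) (nat_lit 0) (nat_lit 1) (nat_lit 5) (nat_lit 193) (nat_lit 163) r9_193 r8_163 (nat_lit 0) (nat_lit 5449534) (nat_lit 0) (nat_lit 0x80029938e) (nat_lit 1079191358),
  Rx.mk (nat_lit 72) (nat_lit 0) (nat_lit 1) (nat_lit 1) (nat_lit 6) (nat_lit 186) (nat_lit 166) r9_186 r8_166 (nat_lit 5449534) (nat_lit 0) (nat_lit 0) (nat_lit 0x80029938e) (nat_lit 1079191358),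
  Rx.mk (nat_lit 73) (nat_lit 1) (nat_lit 1) (nat_lit 1) (nat_lit 7) (nat_lit 190) (nat_lit 167) r9_190 r8_167 (nat_lit 0) (nat_lit 0) (nat_lit 0) (nat_lit 0x80029938e) (nat_lit 1073741824),
  Rx.mk (nat_lit 74) (nat_lit 2) (nat_lit 1) (nat_lit 1) (nat_lit 7) (nat_lit 196) (nat_lit 169) r9_196 r8_169 (nat_lit 0) (nat_lit 0) (nat_lit 0) (nat_lit 0x80029938e) (nat_lit 1073741824),
  Rx.mk (nat_lit 88) (nat_lit 0) (nat_lit 3) (nat_lit 1) (nat_lit 6) (nat_lit 188) (nat_lit 172) r9_188 r8_172 (nat_lit 5449534) (nat_lit 0) (nat_lit 0) (nat_lit 0x80029938e) (nat_lit 1079191358),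
  Rx.mk (nat_lit 89) (nat_lit 1) (nat_lit 3) (nat_lit 1) (nat_lit 7) (nat_lit 191) (nat_lit 173) r9_191 r8_173 (nat_lit 0) (nat_lit 0) (nat_lit 0) (nat_lit 0x80029938e) (nat_lit 1073741824),
  Rx.mk (nat_lit 91) (nat_lit 3) (nat_lit 3) (nat_lit 1) (nat_lit 7) (nat_lit 200) (nat_lit 175) r9_200 r8_175 (nat_lit 0) (nat_lit 0) (nat_lit 0) (nat_lit 0x80029938e) (nat_lit 1073741824),
  Rx.mk (nat_lit 130) (nat_lit 2) (nat_lit 0) (nat_lit 2) (nat_lit 5) (nat_lit 194) (nat_lit 164) r9_194 r8_164 (nat_lit 0) (nat_lit 5449534) (nat_lit 0) (nat_lit 0x80029938e) (nat_lit 1079191358),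
  Rx.mk (nat_lit 138) (nat_lit 2) (nat_lit 1) (nat_lit 2) (nat_lit 7) (nat_lit 197) (nat_lit 170) r9_197 r8_170 (nat_lit 0) (nat_lit 0) (nat_lit 0) (nat_lit 0x80029938e) (nat_lit 1073741824),
  Rx.mk (nat_lit 146) (nat_lit 2) (nat_lit 2) (nat_lit 2) (nat_lit 7) (nat_lit 198) (nat_lit 177) r9_198 r8_177 (nat_lit 0) (nat_lit 0) (nat_lit 0) (nat_lit 0x80029938e) (nat_lit 1073741824),
  Rx.mk (nat_lit 219) (nat_lit 3) (nat_lit 3) (nat_lit 3) (nat_lit 7) (nat_lit 201) (nat_lit 176) r9_201 r8_176 (nat_lit 0) (nat_lit 0) (nat_lit 0) (nat_lit 0x80029938e) (nat_lit 1073741824)]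
noncomputable def e17_27 : List Rx := [
  Rx.mk (nat_lit 0) (nat_lit 0) (nat_lit 0) (nat_lit 0) (nat_lit 0) (nat_lit 202) (nat_lit 266) r9_202 r8_266 (nat_lit 7499955) (nat_lit 6754004) (nat_lit 3365773) (nat_lit 0x3daadc94e) (nat_lit 2197406356),
  Rx.mk (nat_lit 2) (nat_lit 2) (nat_lit 0) (nat_lit 0) (nat_lit 1) (nat_lit 204) (nat_lit 269) r9_204 r8_269 (nat_lit 0) (nat_lit 6439668) (nat_lit 5675110) (nat_lit 0x70ead3b50) (nat_lit 1337414702),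
  Rx.mk (nat_lit 24) (nat_lit 0) (nat_lit 3) (nat_lit 0) (nat_lit 2) (nat_lit 203) (nat_lit 267) r9_203 r8_267 (nat_lit 7900404) (nat_lit 0) (nat_lit 9276876) (nat_lit 0x7130d9410) (nat_lit 1337916804),
  Rx.mk (nat_lit 27) (nat_lit 3) (nat_lit 3) (nat_lit 0) (nat_lit 3) (nat_lit 207) (nat_lit 268) r9_207 r8_268 (nat_lit 0) (nat_lit 0) (nat_lit 5449534) (nat_lit 0x80029938e) (nat_lit 1079191358),
  Rx.mk (nat_lit 130) (nat_lit 2) (nat_lit 0) (nat_lit 2) (nat_lit 5) (nat_lit 205) (nat_lit 271) r9_205 r8_271 (nat_lit 0) (nat_lit 5449534) (nat_lit 0) (nat_lit 0x80029938e) (nat_lit 1079191358),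
  Rx.mk (nat_lit 146) (nat_lit 2) (nat_lit 2) (nat_lit 2) (nat_lit 7) (nat_lit 206) (nat_lit 272) r9_206 r8_272 (nat_lit 0) (nat_lit 0) (nat_lit 0) (nat_lit 0x80029938e) (nat_lit 1073741824),
  Rx.mk (nat_lit 219) (nat_lit 3) (nat_lit 3) (nat_lit 3) (nat_lit 7) (nat_lit 208) (nat_lit 270) r9_208 r8_270 (nat_lit 0) (nat_lit 0) (nat_lit 0) (nat_lit 0x80029938e) (nat_lit 1073741824)]
noncomputable def e17_28 : List Rx := [
  Rx.mk (nat_lit 24) (nat_lit 0) (nat_lit 3) (nat_lit 0) (nat_lit 2) (nat_lit 209) (nat_lit 161) r9_209 r10_161 (nat_lit 9287694) (nat_lit 0) (nat_lit 8521077) (nat_lit 0x702db6ffe) (nat_lit 1355425695),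
  Rx.mk (nat_lit 27) (nat_lit 3) (nat_lit 3) (nat_lit 0) (nat_lit 3) (nat_lit 212) (nat_lit 164) r9_212 r10_164 (nat_lit 0) (nat_lit 0) (nat_lit 5449534) (nat_lit 0x7fff35b2a) (nat_lit 1079408658),
  Rx.mk (nat_lit 88) (nat_lit 0) (nat_lit 3) (nat_lit 1) (nat_lit 6) (nat_lit 210) (nat_lit 162) r9_210 r10_162 (nat_lit 5449534) (nat_lit 0) (nat_lit 0) (nat_lit 0x80029938e) (nat_lit 1079191358),
  Rx.mk (nat_lit 89) (nat_lit 1) (nat_lit 3) (nat_lit 1) (nat_lit 7) (nat_lit 211) (nat_lit 163) r9_211 r10_163 (nat_lit 0) (nat_lit 0) (nat_lit 0) (nat_lit 0x80029938e) (nat_lit 1073741824),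
  Rx.mk (nat_lit 91) (nat_lit 3) (nat_lit 3) (nat_lit 1) (nat_lit 7) (nat_lit 213) (nat_lit 165) r9_213 r10_165 (nat_lit 0) (nat_lit 0) (nat_lit 0) (nat_lit 0x80029938e) (nat_lit 1073741824)]
noncomputable def e17_29 : List Rx := [
  Rx.mk (nat_lit 91) (nat_lit 3) (nat_lit 3) (nat_lit 1) (nat_lit 7) (nat_lit 214) (nat_lit 164) r9_214 r11_164 (nat_lit 0) (nat_lit 0) (nat_lit 0) (nat_lit 0x80029938e) (nat_lit 1073741824)]
noncomputable def e17_30 : List Rx := [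
  Rx.mk (nat_lit 379) (nat_lit 3) (nat_lit 7) (nat_lit 5) (nat_lit 7) (nat_lit 215) (nat_lit 266) r9_215 r5_266 (nat_lit 0) (nat_lit 0) (nat_lit 0) (nat_lit 0x80029938e) (nat_lit 1073741824)]
noncomputable def e17_31 : List Rx := [
  Rx.mk (nat_lit 315) (nat_lit 3) (nat_lit 7) (nat_lit 4) (nat_lit 3) (nat_lit 216) (nat_lit 330) r9_216 r11_330 (nat_lit 0) (nat_lit 0) (nat_lit 5449534) (nat_lit 0x80029938e) (nat_lit 1079191358),
  Rx.mk (nat_lit 379) (nat_lit 3) (nat_lit 7) (nat_lit 5) (nat_lit 7) (nat_lit 217) (nat_lit 331) r9_217 r11_331 (nat_lit 0) (nat_lit 0) (nat_lit 0) (nat_lit 0x80029938e) (nat_lit 1073741824),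
  Rx.mk (nat_lit 507) (nat_lit 3) (nat_lit 7) (nat_lit 7) (nat_lit 7) (nat_lit 218) (nat_lit 332) r9_218 r11_332 (nat_lit 0) (nat_lit 0) (nat_lit 0) (nat_lit 0x80029938e) (nat_lit 1073741824)]
noncomputable def e17_32 : List Rx := [
  Rx.mk (nat_lit 120) (nat_lit 0) (nat_lit 7) (nat_lit 1) (nat_lit 6) (nat_lit 220) (nat_lit 315) r9_220 r6_315 (nat_lit 6723610) (nat_lit 0) (nat_lit 0) (nat_lit 0x7fa202926) (nat_lit 1086714034),
  Rx.mk (nat_lit 121) (nat_lit 1) (nat_lit 7) (nat_lit 1) (nat_lit 7) (nat_lit 222) (nat_lit 317) r9_222 r6_317 (nat_lit 0) (nat_lit 0) (nat_lit 0) (nat_lit 0x80029938e) (nat_lit 1073741824),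
  Rx.mk (nat_lit 123) (nat_lit 3) (nat_lit 7) (nat_lit 1) (nat_lit 7) (nat_lit 223) (nat_lit 318) r9_223 r6_318 (nat_lit 0) (nat_lit 0) (nat_lit 0) (nat_lit 0x80029938e) (nat_lit 1073741824),
  Rx.mk (nat_lit 376) (nat_lit 0) (nat_lit 7) (nat_lit 5) (nat_lit 6) (nat_lit 219) (nat_lit 314) r9_219 r6_314 (nat_lit 5449534) (nat_lit 0) (nat_lit 0) (nat_lit 0x7ff84509a) (nat_lit 1079854658),
  Rx.mk (nat_lit 377) (nat_lit 1) (nat_lit 7) (nat_lit 5) (nat_lit 7) (nat_lit 221) (nat_lit 316) r9_221 r6_316 (nat_lit 0) (nat_lit 0) (nat_lit 0) (nat_lit 0x80029938e) (nat_lit 1073741824)]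
noncomputable def e17_33 : List Rx := [
  Rx.mk (nat_lit 88) (nat_lit 0) (nat_lit 3) (nat_lit 1) (nat_lit 6) (nat_lit 225) (nat_lit 261) r9_225 r5_261 (nat_lit 5449534) (nat_lit 0) (nat_lit 0) (nat_lit 0x7ffef05a2) (nat_lit 1079426058),
  Rx.mk (nat_lit 89) (nat_lit 1) (nat_lit 3) (nat_lit 1) (nat_lit 7) (nat_lit 227) (nat_lit 263) r9_227 r5_263 (nat_lit 0) (nat_lit 0) (nat_lit 0) (nat_lit 0x80029938e) (nat_lit 1073741824),
  Rx.mk (nat_lit 120) (nat_lit 0) (nat_lit 7) (nat_lit 1) (nat_lit 6) (nat_lit 224) (nat_lit 262) r9_224 r5_262 (nat_lit 5670405) (nat_lit 0) (nat_lit 0) (nat_lit 0x7ff06dc82) (nat_lit 1080580229),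
  Rx.mk (nat_lit 121) (nat_lit 1) (nat_lit 7) (nat_lit 1) (nat_lit 7) (nat_lit 226) (nat_lit 264) r9_226 r5_264 (nat_lit 0) (nat_lit 0) (nat_lit 0) (nat_lit 0x80029938e) (nat_lit 1073741824),
  Rx.mk (nat_lit 123) (nat_lit 3) (nat_lit 7) (nat_lit 1) (nat_lit 7) (nat_lit 228) (nat_lit 265) r9_228 r5_265 (nat_lit 0) (nat_lit 0) (nat_lit 0) (nat_lit 0x80029938e) (nat_lit 1073741824)]
noncomputable def e17_34 : List Rx := [
  Rx.mk (nat_lit 24) (nat_lit 0) (nat_lit 3) (nat_lit 0) (nat_lit 2) (nat_lit 231) (nat_lit 318) r9_231 r11_318 (nat_lit 35806592) (nat_lit 0) (nat_lit 28325714) (nat_lit 0x7d068baa8) (nat_lit 1187560530),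
  Rx.mk (nat_lit 26) (nat_lit 2) (nat_lit 3) (nat_lit 0) (nat_lit 3) (nat_lit 235) (nat_lit 321) r9_235 r11_321 (nat_lit 0) (nat_lit 0) (nat_lit 5449534) (nat_lit 0x80029938e) (nat_lit 1079191358),
  Rx.mk (nat_lit 56) (nat_lit 0) (nat_lit 7) (nat_lit 0) (nat_lit 2) (nat_lit 229) (nat_lit 319) r9_229 r11_319 (nat_lit 11688394) (nat_lit 0) (nat_lit 11688394) (nat_lit 0x7bca66588) (nat_lit 1167391312),
  Rx.mk (nat_lit 59) (nat_lit 3) (nat_lit 7) (nat_lit 0) (nat_lit 3) (nat_lit 238) (nat_lit 320) r9_238 r11_320 (nat_lit 0) (nat_lit 0) (nat_lit 5449534) (nat_lit 0x80029938e) (nat_lit 1079191358),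
  Rx.mk (nat_lit 88) (nat_lit 0) (nat_lit 3) (nat_lit 1) (nat_lit 6) (nat_lit 232) (nat_lit 322) r9_232 r11_322 (nat_lit 5449534) (nat_lit 0) (nat_lit 0) (nat_lit 0x80029938e) (nat_lit 1079191358),
  Rx.mk (nat_lit 89) (nat_lit 1) (nat_lit 3) (nat_lit 1) (nat_lit 7) (nat_lit 234) (nat_lit 324) r9_234 r11_324 (nat_lit 0) (nat_lit 0) (nat_lit 0) (nat_lit 0x80029938e) (nat_lit 1073741824),
  Rx.mk (nat_lit 90) (nat_lit 2) (nat_lit 3) (nat_lit 1) (nat_lit 7) (nat_lit 236) (nat_lit 327) r9_236 r11_327 (nat_lit 0) (nat_lit 0) (nat_lit 0) (nat_lit 0x80029938e) (nat_lit 1073741824),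
  Rx.mk (nat_lit 120) (nat_lit 0) (nat_lit 7) (nat_lit 1) (nat_lit 6) (nat_lit 230) (nat_lit 323) r9_230 r11_323 (nat_lit 5449534) (nat_lit 0) (nat_lit 0) (nat_lit 0x80029938e) (nat_lit 1079191358),
  Rx.mk (nat_lit 121) (nat_lit 1) (nat_lit 7) (nat_lit 1) (nat_lit 7) (nat_lit 233) (nat_lit 325) r9_233 r11_325 (nat_lit 0) (nat_lit 0) (nat_lit 0) (nat_lit 0x80029938e) (nat_lit 1073741824),
  Rx.mk (nat_lit 123) (nat_lit 3) (nat_lit 7) (nat_lit 1) (nat_lit 7) (nat_lit 239) (nat_lit 326) r9_239 r11_326 (nat_lit 0) (nat_lit 0) (nat_lit 0) (nat_lit 0x80029938e) (nat_lit 1073741824),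
  Rx.mk (nat_lit 154) (nat_lit 2) (nat_lit 3) (nat_lit 2) (nat_lit 7) (nat_lit 237) (nat_lit 329) r9_237 r11_329 (nat_lit 0) (nat_lit 0) (nat_lit 0) (nat_lit 0x80029938e) (nat_lit 1073741824),
  Rx.mk (nat_lit 251) (nat_lit 3) (nat_lit 7) (nat_lit 3) (nat_lit 7) (nat_lit 240) (nat_lit 328) r9_240 r11_328 (nat_lit 0) (nat_lit 0) (nat_lit 0) (nat_lit 0x80029938e) (nat_lit 1073741824)]
noncomputable def e17_35 : List Rx := [
  Rx.mk (nat_lit 376) (nat_lit 0) (nat_lit 7) (nat_lit 5) (nat_lit 6) (nat_lit 241) (nat_lit 319) r9_241 r6_319 (nat_lit 6014731) (nat_lit 0) (nat_lit 0) (nat_lit 0x7fa23117c) (nat_lit 1085990655),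
  Rx.mk (nat_lit 377) (nat_lit 1) (nat_lit 7) (nat_lit 5) (nat_lit 7) (nat_lit 242) (nat_lit 320) r9_242 r6_320 (nat_lit 0) (nat_lit 0) (nat_lit 0) (nat_lit 0x80029938e) (nat_lit 1073741824),
  Rx.mk (nat_lit 379) (nat_lit 3) (nat_lit 7) (nat_lit 5) (nat_lit 7) (nat_lit 243) (nat_lit 321) r9_243 r6_321 (nat_lit 0) (nat_lit 0) (nat_lit 0) (nat_lit 0x80029938e) (nat_lit 1073741824)]
noncomputable def e17_36 : List Rx := [
  Rx.mk (nat_lit 123) (nat_lit 3) (nat_lit 7) (nat_lit 1) (nat_lit 7) (nat_lit 247) (nat_lit 124) r9_247 r12_124 (nat_lit 0) (nat_lit 0) (nat_lit 0) (nat_lit 0x80029938e) (nat_lit 1073741824),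
  Rx.mk (nat_lit 376) (nat_lit 0) (nat_lit 7) (nat_lit 5) (nat_lit 6) (nat_lit 244) (nat_lit 122) r9_244 r12_122 (nat_lit 6762413) (nat_lit 0) (nat_lit 0) (nat_lit 0x7f0f02d4c) (nat_lit 1096295937),
  Rx.mk (nat_lit 377) (nat_lit 1) (nat_lit 7) (nat_lit 5) (nat_lit 7) (nat_lit 245) (nat_lit 123) r9_245 r12_123 (nat_lit 0) (nat_lit 0) (nat_lit 0) (nat_lit 0x80029938e) (nat_lit 1073741824),
  Rx.mk (nat_lit 379) (nat_lit 3) (nat_lit 7) (nat_lit 5) (nat_lit 7) (nat_lit 246) (nat_lit 125) r9_246 r12_125 (nat_lit 0) (nat_lit 0) (nat_lit 0) (nat_lit 0x80029938e) (nat_lit 1073741824)]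
noncomputable def e17_37 : List Rx := [
  Rx.mk (nat_lit 105) (nat_lit 1) (nat_lit 5) (nat_lit 1) (nat_lit 7) (nat_lit 249) (nat_lit 292) r9_249 r0_292 (nat_lit 0) (nat_lit 0) (nat_lit 0) (nat_lit 0x7ffd3fcc6) (nat_lit 1074084924),
  Rx.mk (nat_lit 361) (nat_lit 1) (nat_lit 5) (nat_lit 5) (nat_lit 7) (nat_lit 248) (nat_lit 291) r9_248 r0_291 (nat_lit 0) (nat_lit 0) (nat_lit 0) (nat_lit 0x7ff85ef5e) (nat_lit 1074398324)]
noncomputable def e17_38 : List Rx := [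
  Rx.mk (nat_lit 97) (nat_lit 1) (nat_lit 4) (nat_lit 1) (nat_lit 5) (nat_lit 254) (nat_lit 293) r9_254 r0_293 (nat_lit 0) (nat_lit 5745639) (nat_lit 0) (nat_lit 0x7713c5d0a) (nat_lit 1228342563),
  Rx.mk (nat_lit 105) (nat_lit 1) (nat_lit 5) (nat_lit 1) (nat_lit 7) (nat_lit 256) (nat_lit 296) r9_256 r0_296 (nat_lit 0) (nat_lit 0) (nat_lit 0) (nat_lit 0x80029938e) (nat_lit 1073741824),
  Rx.mk (nat_lit 353) (nat_lit 1) (nat_lit 4) (nat_lit 5) (nat_lit 5) (nat_lit 253) (nat_lit 294) r9_253 r0_294 (nat_lit 0) (nat_lit 7145094) (nat_lit 0) (nat_lit 0x79e85e2cc) (nat_lit 1182555618),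
  Rx.mk (nat_lit 357) (nat_lit 5) (nat_lit 4) (nat_lit 5) (nat_lit 5) (nat_lit 250) (nat_lit 295) r9_250 r0_295 (nat_lit 0) (nat_lit 5449534) (nat_lit 0) (nat_lit 0x7dc0ef480) (nat_lit 1116739658),
  Rx.mk (nat_lit 361) (nat_lit 1) (nat_lit 5) (nat_lit 5) (nat_lit 7) (nat_lit 255) (nat_lit 297) r9_255 r0_297 (nat_lit 0) (nat_lit 0) (nat_lit 0) (nat_lit 0x80029938e) (nat_lit 1073741824),
  Rx.mk (nat_lit 365) (nat_lit 5) (nat_lit 5) (nat_lit 5) (nat_lit 7) (nat_lit 251) (nat_lit 298) r9_251 r0_298 (nat_lit 0) (nat_lit 0) (nat_lit 0) (nat_lit 0x80029938e) (nat_lit 1073741824),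
  Rx.mk (nat_lit 381) (nat_lit 5) (nat_lit 7) (nat_lit 5) (nat_lit 7) (nat_lit 252) (nat_lit 299) r9_252 r0_299 (nat_lit 0) (nat_lit 0) (nat_lit 0) (nat_lit 0x80029938e) (nat_lit 1073741824)]
noncomputable def e17_39 : List Rx := [
  Rx.mk (nat_lit 105) (nat_lit 1) (nat_lit 5) (nat_lit 1) (nat_lit 7) (nat_lit 259) (nat_lit 408) r9_259 r7_408 (nat_lit 0) (nat_lit 0) (nat_lit 0) (nat_lit 0x80029938e) (nat_lit 1073741824),
  Rx.mk (nat_lit 361) (nat_lit 1) (nat_lit 5) (nat_lit 5) (nat_lit 7) (nat_lit 258) (nat_lit 407) r9_258 r7_407 (nat_lit 0) (nat_lit 0) (nat_lit 0) (nat_lit 0x80029938e) (nat_lit 1073741824),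
  Rx.mk (nat_lit 365) (nat_lit 5) (nat_lit 5) (nat_lit 5) (nat_lit 7) (nat_lit 257) (nat_lit 406) r9_257 r7_406 (nat_lit 0) (nat_lit 0) (nat_lit 0) (nat_lit 0x80029938e) (nat_lit 1073741824)]
noncomputable def e17_40 : List Rx := [
  Rx.mk (nat_lit 356) (nat_lit 4) (nat_lit 4) (nat_lit 5) (nat_lit 4) (nat_lit 260) (nat_lit 316) r9_260 r2_316 (nat_lit 11852734) (nat_lit 14127797) (nat_lit 0) (nat_lit 0x69ce79236) (nat_lit 1469837355),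
  Rx.mk (nat_lit 357) (nat_lit 5) (nat_lit 4) (nat_lit 5) (nat_lit 5) (nat_lit 262) (nat_lit 317) r9_262 r2_317 (nat_lit 0) (nat_lit 5449534) (nat_lit 0) (nat_lit 0x80029938e) (nat_lit 1079191358),
  Rx.mk (nat_lit 365) (nat_lit 5) (nat_lit 5) (nat_lit 5) (nat_lit 7) (nat_lit 263) (nat_lit 318) r9_263 r2_318 (nat_lit 0) (nat_lit 0) (nat_lit 0) (nat_lit 0x80029938e) (nat_lit 1073741824),
  Rx.mk (nat_lit 380) (nat_lit 4) (nat_lit 7) (nat_lit 5) (nat_lit 6) (nat_lit 261) (nat_lit 319) r9_261 r2_319 (nat_lit 5449534) (nat_lit 0) (nat_lit 0) (nat_lit 0x80029938e) (nat_lit 1079191358),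
  Rx.mk (nat_lit 381) (nat_lit 5) (nat_lit 7) (nat_lit 5) (nat_lit 7) (nat_lit 264) (nat_lit 320) r9_264 r2_320 (nat_lit 0) (nat_lit 0) (nat_lit 0) (nat_lit 0x80029938e) (nat_lit 1073741824),
  Rx.mk (nat_lit 383) (nat_lit 7) (nat_lit 7) (nat_lit 5) (nat_lit 7) (nat_lit 265) (nat_lit 321) r9_265 r2_321 (nat_lit 0) (nat_lit 0) (nat_lit 0) (nat_lit 0x80029938e) (nat_lit 1073741824)]
noncomputable def e17_41 : List Rx := [
  Rx.mk (nat_lit 365) (nat_lit 5) (nat_lit 5) (nat_lit 5) (nat_lit 7) (nat_lit 266) (nat_lit 299) r9_266 r9_299 (nat_lit 0) (nat_lit 0) (nat_lit 0) (nat_lit 0x80029938e) (nat_lit 1073741824)]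
noncomputable def e17_42 : List Rx := [
  Rx.mk (nat_lit 292) (nat_lit 4) (nat_lit 4) (nat_lit 4) (nat_lit 0) (nat_lit 267) (nat_lit 267) r9_267 r9_267 (nat_lit 5993215) (nat_lit 67571696) (nat_lit 5993215) (nat_lit 0x3d23e966c) (nat_lit 2268135750),
  Rx.mk (nat_lit 293) (nat_lit 5) (nat_lit 4) (nat_lit 4) (nat_lit 1) (nat_lit 274) (nat_lit 268) r9_274 r9_268 (nat_lit 0) (nat_lit 9804779) (nat_lit 5964983) (nat_lit 0x68fc6b33e) (nat_lit 1473306486),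
  Rx.mk (nat_lit 308) (nat_lit 4) (nat_lit 6) (nat_lit 4) (nat_lit 2) (nat_lit 269) (nat_lit 272) r9_269 r9_272 (nat_lit 10420244) (nat_lit 0) (nat_lit 5680499) (nat_lit 0x733eed9d2) (nat_lit 1302579567),
  Rx.mk (nat_lit 309) (nat_lit 5) (nat_lit 6) (nat_lit 4) (nat_lit 3) (nat_lit 277) (nat_lit 273) r9_277 r9_273 (nat_lit 0) (nat_lit 0) (nat_lit 5449534) (nat_lit 0x80029938e) (nat_lit 1079191358),
  Rx.mk (nat_lit 316) (nat_lit 4) (nat_lit 7) (nat_lit 4) (nat_lit 2) (nat_lit 272) (nat_lit 269) r9_272 r9_269 (nat_lit 5680499) (nat_lit 0) (nat_lit 10420244) (nat_lit 0x733eed9d2) (nat_lit 1302579567),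
  Rx.mk (nat_lit 317) (nat_lit 5) (nat_lit 7) (nat_lit 4) (nat_lit 3) (nat_lit 280) (nat_lit 270) r9_280 r9_270 (nat_lit 0) (nat_lit 0) (nat_lit 5449534) (nat_lit 0x80029938e) (nat_lit 1079191358),
  Rx.mk (nat_lit 319) (nat_lit 7) (nat_lit 7) (nat_lit 4) (nat_lit 3) (nat_lit 283) (nat_lit 271) r9_283 r9_271 (nat_lit 0) (nat_lit 0) (nat_lit 5449534) (nat_lit 0x80029938e) (nat_lit 1079191358),
  Rx.mk (nat_lit 356) (nat_lit 4) (nat_lit 4) (nat_lit 5) (nat_lit 4) (nat_lit 268) (nat_lit 274) r9_268 r9_274 (nat_lit 5964983) (nat_lit 9804779) (nat_lit 0) (nat_lit 0x68fc6b33e) (nat_lit 1473306486),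
  Rx.mk (nat_lit 357) (nat_lit 5) (nat_lit 4) (nat_lit 5) (nat_lit 5) (nat_lit 275) (nat_lit 275) r9_275 r9_275 (nat_lit 0) (nat_lit 5449534) (nat_lit 0) (nat_lit 0x80029938e) (nat_lit 1079191358),
  Rx.mk (nat_lit 365) (nat_lit 5) (nat_lit 5) (nat_lit 5) (nat_lit 7) (nat_lit 276) (nat_lit 276) r9_276 r9_276 (nat_lit 0) (nat_lit 0) (nat_lit 0) (nat_lit 0x80029938e) (nat_lit 1073741824),
  Rx.mk (nat_lit 372) (nat_lit 4) (nat_lit 6) (nat_lit 5) (nat_lit 6) (nat_lit 270) (nat_lit 280) r9_270 r9_280 (nat_lit 5449534) (nat_lit 0) (nat_lit 0) (nat_lit 0x80029938e) (nat_lit 1079191358),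
  Rx.mk (nat_lit 373) (nat_lit 5) (nat_lit 6) (nat_lit 5) (nat_lit 7) (nat_lit 278) (nat_lit 281) r9_278 r9_281 (nat_lit 0) (nat_lit 0) (nat_lit 0) (nat_lit 0x80029938e) (nat_lit 1073741824),
  Rx.mk (nat_lit 380) (nat_lit 4) (nat_lit 7) (nat_lit 5) (nat_lit 6) (nat_lit 273) (nat_lit 277) r9_273 r9_277 (nat_lit 5449534) (nat_lit 0) (nat_lit 0) (nat_lit 0x80029938e) (nat_lit 1079191358),
  Rx.mk (nat_lit 381) (nat_lit 5) (nat_lit 7) (nat_lit 5) (nat_lit 7) (nat_lit 281) (nat_lit 278) r9_281 r9_278 (nat_lit 0) (nat_lit 0) (nat_lit 0) (nat_lit 0x80029938e) (nat_lit 1073741824),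
  Rx.mk (nat_lit 383) (nat_lit 7) (nat_lit 7) (nat_lit 5) (nat_lit 7) (nat_lit 284) (nat_lit 279) r9_284 r9_279 (nat_lit 0) (nat_lit 0) (nat_lit 0) (nat_lit 0x80029938e) (nat_lit 1073741824),
  Rx.mk (nat_lit 436) (nat_lit 4) (nat_lit 6) (nat_lit 6) (nat_lit 6) (nat_lit 271) (nat_lit 283) r9_271 r9_283 (nat_lit 5449534) (nat_lit 0) (nat_lit 0) (nat_lit 0x80029938e) (nat_lit 1079191358),
  Rx.mk (nat_lit 437) (nat_lit 5) (nat_lit 6) (nat_lit 6) (nat_lit 7) (nat_lit 279) (nat_lit 284) r9_279 r9_284 (nat_lit 0) (nat_lit 0) (nat_lit 0) (nat_lit 0x80029938e) (nat_lit 1073741824),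
  Rx.mk (nat_lit 438) (nat_lit 6) (nat_lit 6) (nat_lit 6) (nat_lit 7) (nat_lit 282) (nat_lit 285) r9_282 r9_285 (nat_lit 0) (nat_lit 0) (nat_lit 0) (nat_lit 0x80029938e) (nat_lit 1073741824),
  Rx.mk (nat_lit 511) (nat_lit 7) (nat_lit 7) (nat_lit 7) (nat_lit 7) (nat_lit 285) (nat_lit 282) r9_285 r9_282 (nat_lit 0) (nat_lit 0) (nat_lit 0) (nat_lit 0x80029938e) (nat_lit 1073741824)]
noncomputable def e17_43 : List Rx := [
  Rx.mk (nat_lit 357) (nat_lit 5) (nat_lit 4) (nat_lit 5) (nat_lit 5) (nat_lit 286) (nat_lit 290) r9_286 r1_290 (nat_lit 0) (nat_lit 5449534) (nat_lit 0) (nat_lit 0x7ffe84c62) (nat_lit 1079452958),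
  Rx.mk (nat_lit 365) (nat_lit 5) (nat_lit 5) (nat_lit 5) (nat_lit 7) (nat_lit 287) (nat_lit 291) r9_287 r1_291 (nat_lit 0) (nat_lit 0) (nat_lit 0) (nat_lit 0x80029938e) (nat_lit 1073741824),
  Rx.mk (nat_lit 381) (nat_lit 5) (nat_lit 7) (nat_lit 5) (nat_lit 7) (nat_lit 288) (nat_lit 292) r9_288 r1_292 (nat_lit 0) (nat_lit 0) (nat_lit 0) (nat_lit 0x80029938e) (nat_lit 1073741824)]
noncomputable def e17_44 : List Rx := [
  Rx.mk (nat_lit 365) (nat_lit 5) (nat_lit 5) (nat_lit 5) (nat_lit 7) (nat_lit 289) (nat_lit 326) r9_289 r8_326 (nat_lit 0) (nat_lit 0) (nat_lit 0) (nat_lit 0x80029938e) (nat_lit 1073741824)]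
noncomputable def e17_45 : List Rx := [
  Rx.mk (nat_lit 73) (nat_lit 1) (nat_lit 1) (nat_lit 1) (nat_lit 7) (nat_lit 292) (nat_lit 289) r9_292 r1_289 (nat_lit 0) (nat_lit 0) (nat_lit 0) (nat_lit 0x80029938e) (nat_lit 1073741824),
  Rx.mk (nat_lit 105) (nat_lit 1) (nat_lit 5) (nat_lit 1) (nat_lit 7) (nat_lit 291) (nat_lit 288) r9_291 r1_288 (nat_lit 0) (nat_lit 0) (nat_lit 0) (nat_lit 0x80029938e) (nat_lit 1073741824),
  Rx.mk (nat_lit 361) (nat_lit 1) (nat_lit 5) (nat_lit 5) (nat_lit 7) (nat_lit 290) (nat_lit 287) r9_290 r1_287 (nat_lit 0) (nat_lit 0) (nat_lit 0) (nat_lit 0x80029938e) (nat_lit 1073741824)]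
noncomputable def e17_46 : List Rx := [
  Rx.mk (nat_lit 73) (nat_lit 1) (nat_lit 1) (nat_lit 1) (nat_lit 7) (nat_lit 293) (nat_lit 315) r9_293 r2_315 (nat_lit 0) (nat_lit 0) (nat_lit 0) (nat_lit 0x80029938e) (nat_lit 1073741824)]
noncomputable def e17_47 : List Rx := [
  Rx.mk (nat_lit 73) (nat_lit 1) (nat_lit 1) (nat_lit 1) (nat_lit 7) (nat_lit 297) (nat_lit 327) r9_297 r8_327 (nat_lit 0) (nat_lit 0) (nat_lit 0) (nat_lit 0x80029938e) (nat_lit 1073741824),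
  Rx.mk (nat_lit 105) (nat_lit 1) (nat_lit 5) (nat_lit 1) (nat_lit 7) (nat_lit 296) (nat_lit 328) r9_296 r8_328 (nat_lit 0) (nat_lit 0) (nat_lit 0) (nat_lit 0x80029938e) (nat_lit 1073741824),
  Rx.mk (nat_lit 361) (nat_lit 1) (nat_lit 5) (nat_lit 5) (nat_lit 7) (nat_lit 295) (nat_lit 329) r9_295 r8_329 (nat_lit 0) (nat_lit 0) (nat_lit 0) (nat_lit 0x80029938e) (nat_lit 1073741824),
  Rx.mk (nat_lit 365) (nat_lit 5) (nat_lit 5) (nat_lit 5) (nat_lit 7) (nat_lit 294) (nat_lit 330) r9_294 r8_330 (nat_lit 0) (nat_lit 0) (nat_lit 0) (nat_lit 0x80029938e) (nat_lit 1073741824)]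
noncomputable def e17_48 : List Rx := [
  Rx.mk (nat_lit 73) (nat_lit 1) (nat_lit 1) (nat_lit 1) (nat_lit 7) (nat_lit 298) (nat_lit 298) r9_298 r9_298 (nat_lit 0) (nat_lit 0) (nat_lit 0) (nat_lit 0x80029938e) (nat_lit 1073741824)]
noncomputable def e17_49 : List Rx := [
  Rx.mk (nat_lit 73) (nat_lit 1) (nat_lit 1) (nat_lit 1) (nat_lit 7) (nat_lit 299) (nat_lit 266) r9_299 r9_266 (nat_lit 0) (nat_lit 0) (nat_lit 0) (nat_lit 0x80029938e) (nat_lit 1073741824)]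
noncomputable def e17_50 : List Rx := [
  Rx.mk (nat_lit 97) (nat_lit 1) (nat_lit 4) (nat_lit 1) (nat_lit 5) (nat_lit 301) (nat_lit 293) r9_301 r3_293 (nat_lit 0) (nat_lit 8792321) (nat_lit 0) (nat_lit 0x6b8165010) (nat_lit 1424314245),
  Rx.mk (nat_lit 105) (nat_lit 1) (nat_lit 5) (nat_lit 1) (nat_lit 7) (nat_lit 303) (nat_lit 294) r9_303 r3_294 (nat_lit 0) (nat_lit 0) (nat_lit 0) (nat_lit 0x80029938e) (nat_lit 1073741824),
  Rx.mk (nat_lit 353) (nat_lit 1) (nat_lit 4) (nat_lit 5) (nat_lit 5) (nat_lit 300) (nat_lit 290) r9_300 r3_290 (nat_lit 0) (nat_lit 10837605) (nat_lit 0) (nat_lit 0x7013dda4c) (nat_lit 1350127929),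
  Rx.mk (nat_lit 361) (nat_lit 1) (nat_lit 5) (nat_lit 5) (nat_lit 7) (nat_lit 302) (nat_lit 291) r9_302 r3_291 (nat_lit 0) (nat_lit 0) (nat_lit 0) (nat_lit 0x80029938e) (nat_lit 1073741824),
  Rx.mk (nat_lit 377) (nat_lit 1) (nat_lit 7) (nat_lit 5) (nat_lit 7) (nat_lit 304) (nat_lit 292) r9_304 r3_292 (nat_lit 0) (nat_lit 0) (nat_lit 0) (nat_lit 0x7fb687978) (nat_lit 1078660724)]
noncomputable def e17_51 : List Rx := [
  Rx.mk (nat_lit 105) (nat_lit 1) (nat_lit 5) (nat_lit 1) (nat_lit 7) (nat_lit 306) (nat_lit 308) r9_306 r4_308 (nat_lit 0) (nat_lit 0) (nat_lit 0) (nat_lit 0x80029938e) (nat_lit 1073741824),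
  Rx.mk (nat_lit 361) (nat_lit 1) (nat_lit 5) (nat_lit 5) (nat_lit 7) (nat_lit 305) (nat_lit 307) r9_305 r4_307 (nat_lit 0) (nat_lit 0) (nat_lit 0) (nat_lit 0x80029938e) (nat_lit 1073741824)]
noncomputable def e17_52 : List Rx := [
  Rx.mk (nat_lit 97) (nat_lit 1) (nat_lit 4) (nat_lit 1) (nat_lit 5) (nat_lit 307) (nat_lit 287) r9_307 r5_287 (nat_lit 0) (nat_lit 55741436) (nat_lit 0) (nat_lit 0x760962d32) (nat_lit 1295686160),
  Rx.mk (nat_lit 105) (nat_lit 1) (nat_lit 5) (nat_lit 1) (nat_lit 7) (nat_lit 308) (nat_lit 288) r9_308 r5_288 (nat_lit 0) (nat_lit 0) (nat_lit 0) (nat_lit 0x80029938e) (nat_lit 1073741824),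
  Rx.mk (nat_lit 121) (nat_lit 1) (nat_lit 7) (nat_lit 1) (nat_lit 7) (nat_lit 310) (nat_lit 289) r9_310 r5_289 (nat_lit 0) (nat_lit 0) (nat_lit 0) (nat_lit 0x80029938e) (nat_lit 1073741824),
  Rx.mk (nat_lit 377) (nat_lit 1) (nat_lit 7) (nat_lit 5) (nat_lit 7) (nat_lit 309) (nat_lit 286) r9_309 r5_286 (nat_lit 0) (nat_lit 0) (nat_lit 0) (nat_lit 0x80029938e) (nat_lit 1073741824)]
noncomputable def e17_53 : List Rx := [
  Rx.mk (nat_lit 97) (nat_lit 1) (nat_lit 4) (nat_lit 1) (nat_lit 5) (nat_lit 313) (nat_lit 309) r9_313 r4_309 (nat_lit 0) (nat_lit 7165293) (nat_lit 0) (nat_lit 0x7f99d7f58) (nat_lit 1087672217),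
  Rx.mk (nat_lit 105) (nat_lit 1) (nat_lit 5) (nat_lit 1) (nat_lit 7) (nat_lit 315) (nat_lit 311) r9_315 r4_311 (nat_lit 0) (nat_lit 0) (nat_lit 0) (nat_lit 0x80029938e) (nat_lit 1073741824),
  Rx.mk (nat_lit 353) (nat_lit 1) (nat_lit 4) (nat_lit 5) (nat_lit 5) (nat_lit 312) (nat_lit 310) r9_312 r4_310 (nat_lit 0) (nat_lit 5449534) (nat_lit 0) (nat_lit 0x7fff43810) (nat_lit 1079405158),
  Rx.mk (nat_lit 361) (nat_lit 1) (nat_lit 5) (nat_lit 5) (nat_lit 7) (nat_lit 314) (nat_lit 312) r9_314 r4_312 (nat_lit 0) (nat_lit 0) (nat_lit 0) (nat_lit 0x80029938e) (nat_lit 1073741824),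
  Rx.mk (nat_lit 377) (nat_lit 1) (nat_lit 7) (nat_lit 5) (nat_lit 7) (nat_lit 316) (nat_lit 313) r9_316 r4_313 (nat_lit 0) (nat_lit 0) (nat_lit 0) (nat_lit 0x80029938e) (nat_lit 1073741824),
  Rx.mk (nat_lit 381) (nat_lit 5) (nat_lit 7) (nat_lit 5) (nat_lit 7) (nat_lit 311) (nat_lit 314) r9_311 r4_314 (nat_lit 0) (nat_lit 0) (nat_lit 0) (nat_lit 0x80029938e) (nat_lit 1073741824)]
noncomputable def e17_54 : List Rx := [
  Rx.mk (nat_lit 105) (nat_lit 1) (nat_lit 5) (nat_lit 1) (nat_lit 7) (nat_lit 318) (nat_lit 330) r9_318 r10_330 (nat_lit 0) (nat_lit 0) (nat_lit 0) (nat_lit 0x80029938e) (nat_lit 1073741824),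
  Rx.mk (nat_lit 361) (nat_lit 1) (nat_lit 5) (nat_lit 5) (nat_lit 7) (nat_lit 317) (nat_lit 329) r9_317 r10_329 (nat_lit 0) (nat_lit 0) (nat_lit 0) (nat_lit 0x80029938e) (nat_lit 1073741824)]
noncomputable def e17_55 : List Rx := [
  Rx.mk (nat_lit 97) (nat_lit 1) (nat_lit 4) (nat_lit 1) (nat_lit 5) (nat_lit 320) (nat_lit 347) r9_320 r11_347 (nat_lit 0) (nat_lit 5449534) (nat_lit 0) (nat_lit 0x7ffd1a084) (nat_lit 1079543858),
  Rx.mk (nat_lit 105) (nat_lit 1) (nat_lit 5) (nat_lit 1) (nat_lit 7) (nat_lit 321) (nat_lit 348) r9_321 r11_348 (nat_lit 0) (nat_lit 0) (nat_lit 0) (nat_lit 0x80029938e) (nat_lit 1073741824),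
  Rx.mk (nat_lit 121) (nat_lit 1) (nat_lit 7) (nat_lit 1) (nat_lit 7) (nat_lit 323) (nat_lit 349) r9_323 r11_349 (nat_lit 0) (nat_lit 0) (nat_lit 0) (nat_lit 0x80029938e) (nat_lit 1073741824),
  Rx.mk (nat_lit 377) (nat_lit 1) (nat_lit 7) (nat_lit 5) (nat_lit 7) (nat_lit 322) (nat_lit 346) r9_322 r11_346 (nat_lit 0) (nat_lit 0) (nat_lit 0) (nat_lit 0x80029938e) (nat_lit 1073741824),
  Rx.mk (nat_lit 381) (nat_lit 5) (nat_lit 7) (nat_lit 5) (nat_lit 7) (nat_lit 319) (nat_lit 345) r9_319 r11_345 (nat_lit 0) (nat_lit 0) (nat_lit 0) (nat_lit 0x80029938e) (nat_lit 1073741824)]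
noncomputable def e17_56 : List Rx := [
  Rx.mk (nat_lit 353) (nat_lit 1) (nat_lit 4) (nat_lit 5) (nat_lit 5) (nat_lit 324) (nat_lit 290) r9_324 r5_290 (nat_lit 0) (nat_lit 5449534) (nat_lit 0) (nat_lit 0x80029938e) (nat_lit 1079191358),
  Rx.mk (nat_lit 361) (nat_lit 1) (nat_lit 5) (nat_lit 5) (nat_lit 7) (nat_lit 325) (nat_lit 291) r9_325 r5_291 (nat_lit 0) (nat_lit 0) (nat_lit 0) (nat_lit 0x80029938e) (nat_lit 1073741824),
  Rx.mk (nat_lit 377) (nat_lit 1) (nat_lit 7) (nat_lit 5) (nat_lit 7) (nat_lit 326) (nat_lit 292) r9_326 r5_292 (nat_lit 0) (nat_lit 0) (nat_lit 0) (nat_lit 0x80029938e) (nat_lit 1073741824)]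
noncomputable def e17_57 : List Rx := [
  Rx.mk (nat_lit 361) (nat_lit 1) (nat_lit 5) (nat_lit 5) (nat_lit 7) (nat_lit 327) (nat_lit 350) r9_327 r11_350 (nat_lit 0) (nat_lit 0) (nat_lit 0) (nat_lit 0x80029938e) (nat_lit 1073741824)]
noncomputable def e17 : List (List Rx) := [e17_0, e17_1, e17_2, e17_3, e17_4, e17_5, e17_6, e17_7, e17_8, e17_9, e17_10, e17_11, e17_12, e17_13, e17_14, e17_15, e17_16, e17_17, e17_18, e17_19, e17_20, e17_21, e17_22, e17_23, e17_24, e17_25, e17_26, e17_27, e17_28, e17_29, e17_30, e17_31, e17_32, e17_33, e17_34, e17_35, e17_36, e17_37, e17_38, e17_39, e17_40, e17_41, e17_42, e17_43, e17_44, e17_45, e17_46, e17_47, e17_48, e17_49, e17_50, e17_51, e17_52, e17_53, e17_54, e17_55, e17_56, e17_57]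

end Pool.Agent.AKXS_34_39_VA
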