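import Pool.Agent.AKXS_34_39_VA.R0
import Pool.Agent.AKXS_34_39_VA.R1
import Pool.Agent.AKXS_34_39_VA.R2
import Pool.Agent.AKXS_34_39_VA.R3
import Pool.Agent.AKXS_34_39_VA.R4
import Pool.Agent.AKXS_34_39_VA.R5
import Pool.Agent.AKXS_34_39_VA.R6
import Pool.Agent.AKXS_34_39_VA.R7
import Pool.Agent.AKXS_34_39_VA.R8
import Pool.Agent.AKXS_34_39_VA.R9
import Pool.Agent.AKXS_34_39_VA.R10
import Pool.Agent.AKXS_34_39_VA.R11
import Pool.Agent.AKXS_34_39_VA.R12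

set_option autoImplicit false

namespace Pool.Agent.AKXS_34_39_VA

open Pool.Agent.AKX Pool.Agent.AKU

noncomputable def e18_0 : List Rx := [
  Rx.mk (nat_lit 2) (nat_lit 2) (nat_lit 0) (nat_lit 0) (nat_lit 1) (nat_lit 93) (nat_lit 142) r4_93 r0_142 (nat_lit 0) (nat_lit 274678991) (nat_lit 141544) (nat_lit 0x64b4664b6) (nat_lit 1803687759),
  Rx.mk (nat_lit 18) (nat_lit 2) (nat_lit 2) (nat_lit 0) (nat_lit 3) (nat_lit 94) (nat_lit 145) r4_94 r0_145 (nat_lit 0) (nat_lit 0) (nat_lit 3066219) (nat_lit 0x7fc1695a8) (nat_lit 1081005143),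
  Rx.mk (nat_lit 194) (nat_lit 2) (nat_lit 0) (nat_lit 3) (nat_lit 5) (nat_lit 95) (nat_lit 143) r4_95 r0_143 (nat_lit 0) (nat_lit 78264559) (nat_lit 0) (nat_lit 0x80209c4da) (nat_lit 1150066883),
  Rx.mk (nat_lit 210) (nat_lit 2) (nat_lit 2) (nat_lit 3) (nat_lit 7) (nat_lit 96) (nat_lit 146) r4_96 r0_146 (nat_lit 0) (nat_lit 0) (nat_lit 0) (nat_lit 0x80388f0ce) (nat_lit 1070293424),
  Rx.mk (nat_lit 218) (nat_lit 2) (nat_lit 3) (nat_lit 3) (nat_lit 7) (nat_lit 97) (nat_lit 144) r4_97 r0_144 (nat_lit 0) (nat_lit 0) (nat_lit 0) (nat_lit 0x8017d8204) (nat_lit 1072380824)]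
noncomputable def e18_1 : List Rx := [
  Rx.mk (nat_lit 2) (nat_lit 2) (nat_lit 0) (nat_lit 0) (nat_lit 1) (nat_lit 107) (nat_lit 154) r4_107 r1_154 (nat_lit 0) (nat_lit 225790253) (nat_lit 2584296) (nat_lit 0x78edca536) (nat_lit 1420092973),
  Rx.mk (nat_lit 18) (nat_lit 2) (nat_lit 2) (nat_lit 0) (nat_lit 3) (nat_lit 108) (nat_lit 158) r4_108 r1_158 (nat_lit 0) (nat_lit 0) (nat_lit 3186952) (nat_lit 0x7feaece7a) (nat_lit 1078447376),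
  Rx.mk (nat_lit 66) (nat_lit 2) (nat_lit 0) (nat_lit 1) (nat_lit 5) (nat_lit 109) (nat_lit 155) r4_109 r1_155 (nat_lit 0) (nat_lit 5659181) (nat_lit 0) (nat_lit 0x80302b7b6) (nat_lit 1076486505),
  Rx.mk (nat_lit 82) (nat_lit 2) (nat_lit 2) (nat_lit 1) (nat_lit 7) (nat_lit 110) (nat_lit 159) r4_110 r1_159 (nat_lit 0) (nat_lit 0) (nat_lit 0) (nat_lit 0x802afc2d6) (nat_lit 1071158224),
  Rx.mk (nat_lit 194) (nat_lit 2) (nat_lit 0) (nat_lit 3) (nat_lit 5) (nat_lit 111) (nat_lit 156) r4_111 r1_156 (nat_lit 0) (nat_lit 6157515) (nat_lit 0) (nat_lit 0x8041aa0a0) (nat_lit 1075870639),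
  Rx.mk (nat_lit 210) (nat_lit 2) (nat_lit 2) (nat_lit 3) (nat_lit 7) (nat_lit 112) (nat_lit 160) r4_112 r1_160 (nat_lit 0) (nat_lit 0) (nat_lit 0) (nat_lit 0x80264a0da) (nat_lit 1071457724),
  Rx.mk (nat_lit 218) (nat_lit 2) (nat_lit 3) (nat_lit 3) (nat_lit 7) (nat_lit 113) (nat_lit 157) r4_113 r1_157 (nat_lit 0) (nat_lit 0) (nat_lit 0) (nat_lit 0x80029938e) (nat_lit 1073741824)]
noncomputable def e18_2 : List Rx := [
  Rx.mk (nat_lit 66) (nat_lit 2) (nat_lit 0) (nat_lit 1) (nat_lit 5) (nat_lit 271) (nat_lit 158) r4_271 r2_158 (nat_lit 0) (nat_lit 5449534) (nat_lit 0) (nat_lit 0x80029938e) (nat_lit 1079191358),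
  Rx.mk (nat_lit 82) (nat_lit 2) (nat_lit 2) (nat_lit 1) (nat_lit 7) (nat_lit 272) (nat_lit 159) r4_272 r2_159 (nat_lit 0) (nat_lit 0) (nat_lit 0) (nat_lit 0x80029938e) (nat_lit 1073741824)]
noncomputable def e18_3 : List Rx := [
  Rx.mk (nat_lit 194) (nat_lit 2) (nat_lit 0) (nat_lit 3) (nat_lit 5) (nat_lit 31) (nat_lit 129) r4_31 r3_129 (nat_lit 0) (nat_lit 3571) (nat_lit 0) (nat_lit 0x7fff6bf5e) (nat_lit 1073783595),
  Rx.mk (nat_lit 210) (nat_lit 2) (nat_lit 2) (nat_lit 3) (nat_lit 7) (nat_lit 32) (nat_lit 132) r4_32 r3_132 (nat_lit 0) (nat_lit 0) (nat_lit 0) (nat_lit 0x7f80ef3ba) (nat_lit 1082118624),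
  Rx.mk (nat_lit 218) (nat_lit 2) (nat_lit 3) (nat_lit 3) (nat_lit 7) (nat_lit 33) (nat_lit 130) r4_33 r3_130 (nat_lit 0) (nat_lit 0) (nat_lit 0) (nat_lit 0x8282ead92) (nat_lit 1033219524),
  Rx.mk (nat_lit 315) (nat_lit 3) (nat_lit 7) (nat_lit 4) (nat_lit 3) (nat_lit 34) (nat_lit 126) r4_34 r3_126 (nat_lit 0) (nat_lit 0) (nat_lit 186832) (nat_lit 0x8110cd21a) (nat_lit 1056746256),
  Rx.mk (nat_lit 443) (nat_lit 3) (nat_lit 7) (nat_lit 6) (nat_lit 7) (nat_lit 35) (nat_lit 128) r4_35 r3_128 (nat_lit 0) (nat_lit 0) (nat_lit 0) (nat_lit 0x803c763ae) (nat_lit 1069944524),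
  Rx.mk (nat_lit 472) (nat_lit 0) (nat_lit 3) (nat_lit 7) (nat_lit 6) (nat_lit 36) (nat_lit 124) r4_36 r3_124 (nat_lit 151565) (nat_lit 0) (nat_lit 0) (nat_lit 0x843c2e92e) (nat_lit 1005447389),
  Rx.mk (nat_lit 474) (nat_lit 2) (nat_lit 3) (nat_lit 7) (nat_lit 7) (nat_lit 37) (nat_lit 131) r4_37 r3_131 (nat_lit 0) (nat_lit 0) (nat_lit 0) (nat_lit 0x81e6b91f8) (nat_lit 1043074824),
  Rx.mk (nat_lit 475) (nat_lit 3) (nat_lit 3) (nat_lit 7) (nat_lit 7) (nat_lit 38) (nat_lit 125) r4_38 r3_125 (nat_lit 0) (nat_lit 0) (nat_lit 0) (nat_lit 0x8037a5636) (nat_lit 1070353724),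
  Rx.mk (nat_lit 507) (nat_lit 3) (nat_lit 7) (nat_lit 7) (nat_lit 7) (nat_lit 39) (nat_lit 127) r4_39 r3_127 (nat_lit 0) (nat_lit 0) (nat_lit 0) (nat_lit 0x800d34d52) (nat_lit 1073056924)]
noncomputable def e18_4 : List Rx := [
  Rx.mk (nat_lit 194) (nat_lit 2) (nat_lit 0) (nat_lit 3) (nat_lit 5) (nat_lit 131) (nat_lit 131) r4_131 r4_131 (nat_lit 0) (nat_lit 9261977) (nat_lit 0) (nat_lit 0x8048a6476) (nat_lit 1078522301),
  Rx.mk (nat_lit 210) (nat_lit 2) (nat_lit 2) (nat_lit 3) (nat_lit 7) (nat_lit 132) (nat_lit 133) r4_132 r4_133 (nat_lit 0) (nat_lit 0) (nat_lit 0) (nat_lit 0x8019a7878) (nat_lit 1072263824),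
  Rx.mk (nat_lit 218) (nat_lit 2) (nat_lit 3) (nat_lit 3) (nat_lit 7) (nat_lit 133) (nat_lit 132) r4_133 r4_132 (nat_lit 0) (nat_lit 0) (nat_lit 0) (nat_lit 0x8019a7878) (nat_lit 1072263824)]
noncomputable def e18_5 : List Rx := [
  Rx.mk (nat_lit 194) (nat_lit 2) (nat_lit 0) (nat_lit 3) (nat_lit 5) (nat_lit 195) (nat_lit 130) r4_195 r5_130 (nat_lit 0) (nat_lit 192946712) (nat_lit 0) (nat_lit 0x7fdc0d3f0) (nat_lit 1269076836),
  Rx.mk (nat_lit 210) (nat_lit 2) (nat_lit 2) (nat_lit 3) (nat_lit 7) (nat_lit 196) (nat_lit 133) r4_196 r5_133 (nat_lit 0) (nat_lit 0) (nat_lit 0) (nat_lit 0x801352b30) (nat_lit 1072671524),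
  Rx.mk (nat_lit 283) (nat_lit 3) (nat_lit 3) (nat_lit 4) (nat_lit 3) (nat_lit 197) (nat_lit 126) r4_197 r5_126 (nat_lit 0) (nat_lit 0) (nat_lit 2905451) (nat_lit 0x7f6eaed5e) (nat_lit 1086211975),
  Rx.mk (nat_lit 315) (nat_lit 3) (nat_lit 7) (nat_lit 4) (nat_lit 3) (nat_lit 198) (nat_lit 128) r4_198 r5_128 (nat_lit 0) (nat_lit 0) (nat_lit 1963519) (nat_lit 0x7f8b75bf4) (nat_lit 1083400343),
  Rx.mk (nat_lit 443) (nat_lit 3) (nat_lit 7) (nat_lit 6) (nat_lit 7) (nat_lit 199) (nat_lit 129) r4_199 r5_129 (nat_lit 0) (nat_lit 0) (nat_lit 0) (nat_lit 0x813222a50) (nat_lit 1054496724),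
  Rx.mk (nat_lit 448) (nat_lit 0) (nat_lit 0) (nat_lit 7) (nat_lit 4) (nat_lit 200) (nat_lit 124) r4_200 r5_124 (nat_lit 50115) (nat_lit 73422) (nat_lit 0) (nat_lit 0x6722c5068) (nat_lit 1488441861),
  Rx.mk (nat_lit 450) (nat_lit 2) (nat_lit 0) (nat_lit 7) (nat_lit 5) (nat_lit 201) (nat_lit 131) r4_201 r5_131 (nat_lit 0) (nat_lit 1816985) (nat_lit 0) (nat_lit 0x7ffac5572) (nat_lit 1076046309),
  Rx.mk (nat_lit 472) (nat_lit 0) (nat_lit 3) (nat_lit 7) (nat_lit 6) (nat_lit 202) (nat_lit 125) r4_202 r5_125 (nat_lit 1227291) (nat_lit 0) (nat_lit 0) (nat_lit 0x807e5e654) (nat_lit 1067084415),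
  Rx.mk (nat_lit 474) (nat_lit 2) (nat_lit 3) (nat_lit 7) (nat_lit 7) (nat_lit 203) (nat_lit 132) r4_203 r5_132 (nat_lit 0) (nat_lit 0) (nat_lit 0) (nat_lit 0x80898c5d0) (nat_lit 1065156424),
  Rx.mk (nat_lit 475) (nat_lit 3) (nat_lit 3) (nat_lit 7) (nat_lit 7) (nat_lit 204) (nat_lit 127) r4_204 r5_127 (nat_lit 0) (nat_lit 0) (nat_lit 0) (nat_lit 0x801b210f0) (nat_lit 1072171724)]
noncomputable def e18_6 : List Rx := [
  Rx.mk (nat_lit 256) (nat_lit 0) (nat_lit 0) (nat_lit 4) (nat_lit 0) (nat_lit 315) (nat_lit 155) r4_315 r3_155 (nat_lit 381) (nat_lit 599) (nat_lit 556) (nat_lit 0x6cd77f4c2) (nat_lit 1393168560),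
  Rx.mk (nat_lit 257) (nat_lit 1) (nat_lit 0) (nat_lit 4) (nat_lit 1) (nat_lit 316) (nat_lit 157) r4_316 r3_157 (nat_lit 0) (nat_lit 4812) (nat_lit 78702452) (nat_lit 0x7ffa386b8) (nat_lit 1152826188),
  Rx.mk (nat_lit 258) (nat_lit 2) (nat_lit 0) (nat_lit 4) (nat_lit 1) (nat_lit 317) (nat_lit 159) r4_317 r3_159 (nat_lit 0) (nat_lit 110773703) (nat_lit 9406) (nat_lit 0x7ffe0e01c) (nat_lit 1184655233),
  Rx.mk (nat_lit 280) (nat_lit 0) (nat_lit 3) (nat_lit 4) (nat_lit 2) (nat_lit 318) (nat_lit 161) r4_318 r3_161 (nat_lit 60686) (nat_lit 0) (nat_lit 81020) (nat_lit 0x801a46ce8) (nat_lit 1072248030),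
  Rx.mk (nat_lit 281) (nat_lit 1) (nat_lit 3) (nat_lit 4) (nat_lit 3) (nat_lit 319) (nat_lit 163) r4_319 r3_163 (nat_lit 0) (nat_lit 0) (nat_lit 1522780) (nat_lit 0x8378e3c12) (nat_lit 1019195904),
  Rx.mk (nat_lit 282) (nat_lit 2) (nat_lit 3) (nat_lit 4) (nat_lit 3) (nat_lit 320) (nat_lit 165) r4_320 r3_165 (nat_lit 0) (nat_lit 0) (nat_lit 1606138) (nat_lit 0x821e57844) (nat_lit 1041172862),
  Rx.mk (nat_lit 320) (nat_lit 0) (nat_lit 0) (nat_lit 5) (nat_lit 4) (nat_lit 321) (nat_lit 156) r4_321 r3_156 (nat_lit 40791) (nat_lit 48933) (nat_lit 0) (nat_lit 0x7dd97d7c2) (nat_lit 1109695448),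
  Rx.mk (nat_lit 321) (nat_lit 1) (nat_lit 0) (nat_lit 5) (nat_lit 5) (nat_lit 322) (nat_lit 158) r4_322 r3_158 (nat_lit 0) (nat_lit 1367560) (nat_lit 0) (nat_lit 0x8ae095fb6) (nat_lit 899278784),
  Rx.mk (nat_lit 322) (nat_lit 2) (nat_lit 0) (nat_lit 5) (nat_lit 5) (nat_lit 323) (nat_lit 160) r4_323 r3_160 (nat_lit 0) (nat_lit 70023929) (nat_lit 0) (nat_lit 0x92ac5cf30) (nat_lit 841861753),
  Rx.mk (nat_lit 344) (nat_lit 0) (nat_lit 3) (nat_lit 5) (nat_lit 6) (nat_lit 324) (nat_lit 162) r4_324 r3_162 (nat_lit 584304) (nat_lit 0) (nat_lit 0) (nat_lit 0x9167d9fb2) (nat_lit 792933828),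
  Rx.mk (nat_lit 345) (nat_lit 1) (nat_lit 3) (nat_lit 5) (nat_lit 7) (nat_lit 325) (nat_lit 164) r4_325 r3_164 (nat_lit 0) (nat_lit 0) (nat_lit 0) (nat_lit 0x8580ec5f6) (nat_lit 984823424),
  Rx.mk (nat_lit 346) (nat_lit 2) (nat_lit 3) (nat_lit 5) (nat_lit 7) (nat_lit 326) (nat_lit 166) r4_326 r3_166 (nat_lit 0) (nat_lit 0) (nat_lit 0) (nat_lit 0x84b6c300e) (nat_lit 997593924)]
noncomputable def e18_7 : List Rx := [
  Rx.mk (nat_lit 320) (nat_lit 0) (nat_lit 0) (nat_lit 5) (nat_lit 4) (nat_lit 262) (nat_lit 174) r4_262 r0_174 (nat_lit 507461) (nat_lit 365390624) (nat_lit 0) (nat_lit 0x677f48254) (nat_lit 1848225809),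
  Rx.mk (nat_lit 321) (nat_lit 1) (nat_lit 0) (nat_lit 5) (nat_lit 5) (nat_lit 263) (nat_lit 175) r4_263 r0_175 (nat_lit 0) (nat_lit 172210768) (nat_lit 0) (nat_lit 0x7e52e1528) (nat_lit 1273987192),
  Rx.mk (nat_lit 322) (nat_lit 2) (nat_lit 0) (nat_lit 5) (nat_lit 5) (nat_lit 264) (nat_lit 176) r4_264 r0_176 (nat_lit 0) (nat_lit 481648953) (nat_lit 0) (nat_lit 0x72b5b6132) (nat_lit 1777028277)]
noncomputable def e18_8 : List Rx := [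
  Rx.mk (nat_lit 66) (nat_lit 2) (nat_lit 0) (nat_lit 1) (nat_lit 5) (nat_lit 279) (nat_lit 190) r4_279 r1_190 (nat_lit 0) (nat_lit 133026953) (nat_lit 0) (nat_lit 0x8042f6120) (nat_lit 1202645077),
  Rx.mk (nat_lit 82) (nat_lit 2) (nat_lit 2) (nat_lit 1) (nat_lit 7) (nat_lit 280) (nat_lit 191) r4_280 r1_191 (nat_lit 0) (nat_lit 0) (nat_lit 0) (nat_lit 0x807e3d260) (nat_lit 1065870924),
  Rx.mk (nat_lit 320) (nat_lit 0) (nat_lit 0) (nat_lit 5) (nat_lit 4) (nat_lit 281) (nat_lit 187) r4_281 r1_187 (nat_lit 33051833) (nat_lit 121901927) (nat_lit 0) (nat_lit 0x6d0be5900) (nat_lit 1544782984),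
  Rx.mk (nat_lit 321) (nat_lit 1) (nat_lit 0) (nat_lit 5) (nat_lit 5) (nat_lit 282) (nat_lit 188) r4_282 r1_188 (nat_lit 0) (nat_lit 5449534) (nat_lit 0) (nat_lit 0x8040748b6) (nat_lit 1075240558),
  Rx.mk (nat_lit 322) (nat_lit 2) (nat_lit 0) (nat_lit 5) (nat_lit 5) (nat_lit 283) (nat_lit 189) r4_283 r1_189 (nat_lit 0) (nat_lit 362600088) (nat_lit 0) (nat_lit 0x7fac88b7a) (nat_lit 1441871812)]
noncomputable def e18_9 : List Rx := [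
  Rx.mk (nat_lit 320) (nat_lit 0) (nat_lit 0) (nat_lit 5) (nat_lit 4) (nat_lit 349) (nat_lit 161) r4_349 r4_161 (nat_lit 2616584) (nat_lit 8619398) (nat_lit 0) (nat_lit 0x73ea8d198) (nat_lit 1286528806),
  Rx.mk (nat_lit 321) (nat_lit 1) (nat_lit 0) (nat_lit 5) (nat_lit 5) (nat_lit 350) (nat_lit 162) r4_350 r4_162 (nat_lit 0) (nat_lit 5449534) (nat_lit 0) (nat_lit 0x802346fd2) (nat_lit 1077099558),
  Rx.mk (nat_lit 322) (nat_lit 2) (nat_lit 0) (nat_lit 5) (nat_lit 5) (nat_lit 351) (nat_lit 163) r4_351 r4_163 (nat_lit 0) (nat_lit 8320896) (nat_lit 0) (nat_lit 0x804e26a54) (nat_lit 1077233520),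
  Rx.mk (nat_lit 344) (nat_lit 0) (nat_lit 3) (nat_lit 5) (nat_lit 6) (nat_lit 352) (nat_lit 164) r4_352 r4_164 (nat_lit 2457581) (nat_lit 0) (nat_lit 0) (nat_lit 0x8015711e6) (nat_lit 1074979605),
  Rx.mk (nat_lit 345) (nat_lit 1) (nat_lit 3) (nat_lit 5) (nat_lit 7) (nat_lit 353) (nat_lit 165) r4_353 r4_165 (nat_lit 0) (nat_lit 0) (nat_lit 0) (nat_lit 0x805278670) (nat_lit 1068646324),
  Rx.mk (nat_lit 346) (nat_lit 2) (nat_lit 3) (nat_lit 5) (nat_lit 7) (nat_lit 354) (nat_lit 166) r4_354 r4_166 (nat_lit 0) (nat_lit 0) (nat_lit 0) (nat_lit 0x8054e1330) (nat_lit 1068491824)]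
noncomputable def e18_10 : List Rx := [
  Rx.mk (nat_lit 280) (nat_lit 0) (nat_lit 3) (nat_lit 4) (nat_lit 2) (nat_lit 229) (nat_lit 129) r4_229 r6_129 (nat_lit 38237) (nat_lit 0) (nat_lit 47711) (nat_lit 0x718a177ac) (nat_lit 1314939572),
  Rx.mk (nat_lit 281) (nat_lit 1) (nat_lit 3) (nat_lit 4) (nat_lit 3) (nat_lit 230) (nat_lit 132) r4_230 r6_132 (nat_lit 0) (nat_lit 0) (nat_lit 3192982) (nat_lit 0x803a9355a) (nat_lit 1073361906),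
  Rx.mk (nat_lit 282) (nat_lit 2) (nat_lit 3) (nat_lit 4) (nat_lit 3) (nat_lit 231) (nat_lit 138) r4_231 r6_138 (nat_lit 0) (nat_lit 0) (nat_lit 2840910) (nat_lit 0x804903392) (nat_lit 1072090734),
  Rx.mk (nat_lit 283) (nat_lit 3) (nat_lit 3) (nat_lit 4) (nat_lit 3) (nat_lit 232) (nat_lit 134) r4_232 r6_134 (nat_lit 0) (nat_lit 0) (nat_lit 2826148) (nat_lit 0x7ffa8010c) (nat_lit 1077083472),
  Rx.mk (nat_lit 315) (nat_lit 3) (nat_lit 7) (nat_lit 4) (nat_lit 3) (nat_lit 233) (nat_lit 135) r4_233 r6_135 (nat_lit 0) (nat_lit 0) (nat_lit 2519210) (nat_lit 0x7ebf86994) (nat_lit 1097219834),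
  Rx.mk (nat_lit 443) (nat_lit 3) (nat_lit 7) (nat_lit 6) (nat_lit 7) (nat_lit 234) (nat_lit 136) r4_234 r6_136 (nat_lit 0) (nat_lit 0) (nat_lit 0) (nat_lit 0x81261a06e) (nat_lit 1055268324),
  Rx.mk (nat_lit 448) (nat_lit 0) (nat_lit 0) (nat_lit 7) (nat_lit 4) (nat_lit 235) (nat_lit 128) r4_235 r6_128 (nat_lit 6592) (nat_lit 9876) (nat_lit 0) (nat_lit 0x73504ef82) (nat_lit 1285279692),
  Rx.mk (nat_lit 449) (nat_lit 1) (nat_lit 0) (nat_lit 7) (nat_lit 5) (nat_lit 236) (nat_lit 131) r4_236 r6_131 (nat_lit 0) (nat_lit 4043670) (nat_lit 0) (nat_lit 0x8019d8c3e) (nat_lit 1076296794),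
  Rx.mk (nat_lit 450) (nat_lit 2) (nat_lit 0) (nat_lit 7) (nat_lit 5) (nat_lit 237) (nat_lit 137) r4_237 r6_137 (nat_lit 0) (nat_lit 1760727) (nat_lit 0) (nat_lit 0x802b4e4aa) (nat_lit 1072885551),
  Rx.mk (nat_lit 472) (nat_lit 0) (nat_lit 3) (nat_lit 7) (nat_lit 6) (nat_lit 238) (nat_lit 130) r4_238 r6_130 (nat_lit 1219035) (nat_lit 0) (nat_lit 0) (nat_lit 0x80393948e) (nat_lit 1071457659),
  Rx.mk (nat_lit 473) (nat_lit 1) (nat_lit 3) (nat_lit 7) (nat_lit 7) (nat_lit 239) (nat_lit 133) r4_239 r6_133 (nat_lit 0) (nat_lit 0) (nat_lit 0) (nat_lit 0x807785210) (nat_lit 1066297424),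
  Rx.mk (nat_lit 474) (nat_lit 2) (nat_lit 3) (nat_lit 7) (nat_lit 7) (nat_lit 240) (nat_lit 139) r4_240 r6_139 (nat_lit 0) (nat_lit 0) (nat_lit 0) (nat_lit 0x809a0fc90) (nat_lit 1064111224)]
noncomputable def e18_11 : List Rx := [
  Rx.mk (nat_lit 256) (nat_lit 0) (nat_lit 0) (nat_lit 4) (nat_lit 0) (nat_lit 366) (nat_lit 169) r4_366 r5_169 (nat_lit 466835) (nat_lit 4259189) (nat_lit 860710) (nat_lit 0x635d5b15e) (nat_lit 1556822258),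
  Rx.mk (nat_lit 257) (nat_lit 1) (nat_lit 0) (nat_lit 4) (nat_lit 1) (nat_lit 367) (nat_lit 172) r4_367 r5_172 (nat_lit 0) (nat_lit 12405820) (nat_lit 17535176) (nat_lit 0x795ddbf82) (nat_lit 1214366620),
  Rx.mk (nat_lit 258) (nat_lit 2) (nat_lit 0) (nat_lit 4) (nat_lit 1) (nat_lit 368) (nat_lit 174) r4_368 r5_174 (nat_lit 0) (nat_lit 168964555) (nat_lit 2267724) (nat_lit 0x7c6cb83d6) (nat_lit 1304668303),
  Rx.mk (nat_lit 280) (nat_lit 0) (nat_lit 3) (nat_lit 4) (nat_lit 2) (nat_lit 369) (nat_lit 177) r4_369 r5_177 (nat_lit 2004750) (nat_lit 0) (nat_lit 2934250) (nat_lit 0x73620465a) (nat_lit 1289129524),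
  Rx.mk (nat_lit 281) (nat_lit 1) (nat_lit 3) (nat_lit 4) (nat_lit 3) (nat_lit 370) (nat_lit 179) r4_370 r5_179 (nat_lit 0) (nat_lit 0) (nat_lit 2793643) (nat_lit 0x803c95650) (nat_lit 1072830667),
  Rx.mk (nat_lit 282) (nat_lit 2) (nat_lit 3) (nat_lit 4) (nat_lit 3) (nat_lit 371) (nat_lit 182) r4_371 r5_182 (nat_lit 0) (nat_lit 0) (nat_lit 2786793) (nat_lit 0x8043eceee) (nat_lit 1072357417),
  Rx.mk (nat_lit 283) (nat_lit 3) (nat_lit 3) (nat_lit 4) (nat_lit 3) (nat_lit 372) (nat_lit 180) r4_372 r5_180 (nat_lit 0) (nat_lit 0) (nat_lit 5596659) (nat_lit 0x7fa5306f2) (nat_lit 1085368283),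
  Rx.mk (nat_lit 320) (nat_lit 0) (nat_lit 0) (nat_lit 5) (nat_lit 4) (nat_lit 373) (nat_lit 170) r4_373 r5_170 (nat_lit 3329898) (nat_lit 153422483) (nat_lit 0) (nat_lit 0x7f7ad06e6) (nat_lit 1239277705),
  Rx.mk (nat_lit 322) (nat_lit 2) (nat_lit 0) (nat_lit 5) (nat_lit 5) (nat_lit 374) (nat_lit 175) r4_374 r5_175 (nat_lit 0) (nat_lit 16093624) (nat_lit 0) (nat_lit 0x801f08c90) (nat_lit 1088008048),
  Rx.mk (nat_lit 344) (nat_lit 0) (nat_lit 3) (nat_lit 5) (nat_lit 6) (nat_lit 375) (nat_lit 178) r4_375 r5_178 (nat_lit 2300083) (nat_lit 0) (nat_lit 0) (nat_lit 0x804f77e08) (nat_lit 1071135707),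
  Rx.mk (nat_lit 346) (nat_lit 2) (nat_lit 3) (nat_lit 5) (nat_lit 7) (nat_lit 376) (nat_lit 183) r4_376 r5_183 (nat_lit 0) (nat_lit 0) (nat_lit 0) (nat_lit 0x803aaf69c) (nat_lit 1070158824),
  Rx.mk (nat_lit 347) (nat_lit 3) (nat_lit 3) (nat_lit 5) (nat_lit 7) (nat_lit 377) (nat_lit 181) r4_377 r5_181 (nat_lit 0) (nat_lit 0) (nat_lit 0) (nat_lit 0x8012f24a6) (nat_lit 1072693924),
  Rx.mk (nat_lit 448) (nat_lit 0) (nat_lit 0) (nat_lit 7) (nat_lit 4) (nat_lit 378) (nat_lit 171) r4_378 r5_171 (nat_lit 4331708) (nat_lit 6556923) (nat_lit 0) (nat_lit 0x7f318d5ec) (nat_lit 1098171755),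
  Rx.mk (nat_lit 449) (nat_lit 1) (nat_lit 0) (nat_lit 7) (nat_lit 5) (nat_lit 379) (nat_lit 173) r4_379 r5_173 (nat_lit 0) (nat_lit 5449534) (nat_lit 0) (nat_lit 0x80029938e) (nat_lit 1079191358),
  Rx.mk (nat_lit 450) (nat_lit 2) (nat_lit 0) (nat_lit 7) (nat_lit 5) (nat_lit 380) (nat_lit 176) r4_380 r5_176 (nat_lit 0) (nat_lit 5449534) (nat_lit 0) (nat_lit 0x802356b3a) (nat_lit 1077095958)]
noncomputable def e18_12 : List Rx := [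
  Rx.mk (nat_lit 18) (nat_lit 2) (nat_lit 2) (nat_lit 0) (nat_lit 3) (nat_lit 0) (nat_lit 58) r4_0 r0_58 (nat_lit 0) (nat_lit 0) (nat_lit 1489124) (nat_lit 0x6dffcb254) (nat_lit 1375427948),
  Rx.mk (nat_lit 22) (nat_lit 6) (nat_lit 2) (nat_lit 0) (nat_lit 3) (nat_lit 1) (nat_lit 57) r4_1 r0_57 (nat_lit 0) (nat_lit 0) (nat_lit 2745228) (nat_lit 0x7f3da6c7a) (nat_lit 1089236952),
  Rx.mk (nat_lit 150) (nat_lit 6) (nat_lit 2) (nat_lit 2) (nat_lit 7) (nat_lit 2) (nat_lit 64) r4_2 r0_64 (nat_lit 0) (nat_lit 0) (nat_lit 0) (nat_lit 0x805002b84) (nat_lit 1068799624),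
  Rx.mk (nat_lit 180) (nat_lit 4) (nat_lit 6) (nat_lit 2) (nat_lit 6) (nat_lit 3) (nat_lit 62) r4_3 r0_62 (nat_lit 2627169) (nat_lit 0) (nat_lit 0) (nat_lit 0x8020258c6) (nat_lit 1074474693),
  Rx.mk (nat_lit 182) (nat_lit 6) (nat_lit 6) (nat_lit 2) (nat_lit 7) (nat_lit 4) (nat_lit 63) r4_4 r0_63 (nat_lit 0) (nat_lit 0) (nat_lit 0) (nat_lit 0x803b1537a) (nat_lit 1070132924),
  Rx.mk (nat_lit 194) (nat_lit 2) (nat_lit 0) (nat_lit 3) (nat_lit 5) (nat_lit 5) (nat_lit 59) r4_5 r0_59 (nat_lit 0) (nat_lit 89886997) (nat_lit 0) (nat_lit 0x7c8a3bb06) (nat_lit 1221401321),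
  Rx.mk (nat_lit 210) (nat_lit 2) (nat_lit 2) (nat_lit 3) (nat_lit 7) (nat_lit 6) (nat_lit 61) r4_6 r0_61 (nat_lit 0) (nat_lit 0) (nat_lit 0) (nat_lit 0x7ff4a1d08) (nat_lit 1074622024),
  Rx.mk (nat_lit 218) (nat_lit 2) (nat_lit 3) (nat_lit 3) (nat_lit 7) (nat_lit 7) (nat_lit 60) r4_7 r0_60 (nat_lit 0) (nat_lit 0) (nat_lit 0) (nat_lit 0x7fe2c17aa) (nat_lit 1075787224),
  Rx.mk (nat_lit 420) (nat_lit 4) (nat_lit 4) (nat_lit 6) (nat_lit 4) (nat_lit 8) (nat_lit 52) r4_8 r0_52 (nat_lit 1880334) (nat_lit 24902759) (nat_lit 0) (nat_lit 0x65a2917c6) (nat_lit 1540179317),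
  Rx.mk (nat_lit 423) (nat_lit 7) (nat_lit 4) (nat_lit 6) (nat_lit 5) (nat_lit 9) (nat_lit 53) r4_9 r0_53 (nat_lit 0) (nat_lit 8072366) (nat_lit 0) (nat_lit 0x752013154) (nat_lit 1263210890),
  Rx.mk (nat_lit 436) (nat_lit 4) (nat_lit 6) (nat_lit 6) (nat_lit 6) (nat_lit 10) (nat_lit 55) r4_10 r0_55 (nat_lit 2516625) (nat_lit 0) (nat_lit 0) (nat_lit 0x7f8893454) (nat_lit 1084144949),
  Rx.mk (nat_lit 439) (nat_lit 7) (nat_lit 6) (nat_lit 6) (nat_lit 7) (nat_lit 11) (nat_lit 56) r4_11 r0_56 (nat_lit 0) (nat_lit 0) (nat_lit 0) (nat_lit 0x803412cb2) (nat_lit 1070579024),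
  Rx.mk (nat_lit 447) (nat_lit 7) (nat_lit 7) (nat_lit 6) (nat_lit 7) (nat_lit 12) (nat_lit 54) r4_12 r0_54 (nat_lit 0) (nat_lit 0) (nat_lit 0) (nat_lit 0x7b2096062) (nat_lit 1155059824)]
noncomputable def e18_13 : List Rx := [
  Rx.mk (nat_lit 2) (nat_lit 2) (nat_lit 0) (nat_lit 0) (nat_lit 1) (nat_lit 98) (nat_lit 175) r4_98 r7_175 (nat_lit 0) (nat_lit 13528971) (nat_lit 2244627) (nat_lit 0x667a08362) (nat_lit 1515142422),
  Rx.mk (nat_lit 18) (nat_lit 2) (nat_lit 2) (nat_lit 0) (nat_lit 3) (nat_lit 99) (nat_lit 178) r4_99 r7_178 (nat_lit 0) (nat_lit 0) (nat_lit 2541329) (nat_lit 0x7e988d356) (nat_lit 1099798353),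
  Rx.mk (nat_lit 22) (nat_lit 6) (nat_lit 2) (nat_lit 0) (nat_lit 3) (nat_lit 100) (nat_lit 181) r4_100 r7_181 (nat_lit 0) (nat_lit 0) (nat_lit 3253254) (nat_lit 0x802f743a4) (nat_lit 1074127178),
  Rx.mk (nat_lit 150) (nat_lit 6) (nat_lit 2) (nat_lit 2) (nat_lit 7) (nat_lit 101) (nat_lit 182) r4_101 r7_182 (nat_lit 0) (nat_lit 0) (nat_lit 0) (nat_lit 0x80029938e) (nat_lit 1073741824),
  Rx.mk (nat_lit 180) (nat_lit 4) (nat_lit 6) (nat_lit 2) (nat_lit 6) (nat_lit 102) (nat_lit 180) r4_102 r7_180 (nat_lit 3003842) (nat_lit 0) (nat_lit 0) (nat_lit 0x801bcccc0) (nat_lit 1075130666),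
  Rx.mk (nat_lit 182) (nat_lit 6) (nat_lit 6) (nat_lit 2) (nat_lit 7) (nat_lit 103) (nat_lit 183) r4_103 r7_183 (nat_lit 0) (nat_lit 0) (nat_lit 0) (nat_lit 0x80029938e) (nat_lit 1073741824),
  Rx.mk (nat_lit 194) (nat_lit 2) (nat_lit 0) (nat_lit 3) (nat_lit 5) (nat_lit 104) (nat_lit 176) r4_104 r7_176 (nat_lit 0) (nat_lit 7450969) (nat_lit 0) (nat_lit 0x7fd285fbc) (nat_lit 1084281793),
  Rx.mk (nat_lit 210) (nat_lit 2) (nat_lit 2) (nat_lit 3) (nat_lit 7) (nat_lit 105) (nat_lit 179) r4_105 r7_179 (nat_lit 0) (nat_lit 0) (nat_lit 0) (nat_lit 0x807650df4) (nat_lit 1066373124),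
  Rx.mk (nat_lit 218) (nat_lit 2) (nat_lit 3) (nat_lit 3) (nat_lit 7) (nat_lit 106) (nat_lit 177) r4_106 r7_177 (nat_lit 0) (nat_lit 0) (nat_lit 0) (nat_lit 0x80029938e) (nat_lit 1073741824)]
noncomputable def e18_14 : List Rx := [
  Rx.mk (nat_lit 150) (nat_lit 6) (nat_lit 2) (nat_lit 2) (nat_lit 7) (nat_lit 13) (nat_lit 57) r4_13 r1_57 (nat_lit 0) (nat_lit 0) (nat_lit 0) (nat_lit 0x804a16bda) (nat_lit 1069179124),
  Rx.mk (nat_lit 180) (nat_lit 4) (nat_lit 6) (nat_lit 2) (nat_lit 6) (nat_lit 14) (nat_lit 55) r4_14 r1_55 (nat_lit 2626510) (nat_lit 0) (nat_lit 0) (nat_lit 0x8035143e0) (nat_lit 1073140434),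
  Rx.mk (nat_lit 182) (nat_lit 6) (nat_lit 6) (nat_lit 2) (nat_lit 7) (nat_lit 15) (nat_lit 56) r4_15 r1_56 (nat_lit 0) (nat_lit 0) (nat_lit 0) (nat_lit 0x803369e32) (nat_lit 1070621424),
  Rx.mk (nat_lit 420) (nat_lit 4) (nat_lit 4) (nat_lit 6) (nat_lit 4) (nat_lit 16) (nat_lit 50) r4_16 r1_50 (nat_lit 2062902) (nat_lit 79097561) (nat_lit 0) (nat_lit 0x6ccb7681a) (nat_lit 1475199687),
  Rx.mk (nat_lit 423) (nat_lit 7) (nat_lit 4) (nat_lit 6) (nat_lit 5) (nat_lit 17) (nat_lit 51) r4_17 r1_51 (nat_lit 0) (nat_lit 4988897) (nat_lit 0) (nat_lit 0x801b824ae) (nat_lit 1077133921),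
  Rx.mk (nat_lit 436) (nat_lit 4) (nat_lit 6) (nat_lit 6) (nat_lit 6) (nat_lit 18) (nat_lit 53) r4_18 r1_53 (nat_lit 2991468) (nat_lit 0) (nat_lit 0) (nat_lit 0x7deccd1a6) (nat_lit 1111434092),
  Rx.mk (nat_lit 439) (nat_lit 7) (nat_lit 6) (nat_lit 6) (nat_lit 7) (nat_lit 19) (nat_lit 54) r4_19 r1_54 (nat_lit 0) (nat_lit 0) (nat_lit 0) (nat_lit 0x80272dc18) (nat_lit 1071401024),
  Rx.mk (nat_lit 447) (nat_lit 7) (nat_lit 7) (nat_lit 6) (nat_lit 7) (nat_lit 20) (nat_lit 52) r4_20 r1_52 (nat_lit 0) (nat_lit 0) (nat_lit 0) (nat_lit 0x8103de856) (nat_lit 1057413024)]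
noncomputable def e18_15 : List Rx := [
  Rx.mk (nat_lit 150) (nat_lit 6) (nat_lit 2) (nat_lit 2) (nat_lit 7) (nat_lit 125) (nat_lit 147) r4_125 r8_147 (nat_lit 0) (nat_lit 0) (nat_lit 0) (nat_lit 0x80029938e) (nat_lit 1073741824),
  Rx.mk (nat_lit 180) (nat_lit 4) (nat_lit 6) (nat_lit 2) (nat_lit 6) (nat_lit 126) (nat_lit 146) r4_126 r8_146 (nat_lit 5673761) (nat_lit 0) (nat_lit 0) (nat_lit 0x7fec63c5e) (nat_lit 1080842585),
  Rx.mk (nat_lit 182) (nat_lit 6) (nat_lit 6) (nat_lit 2) (nat_lit 7) (nat_lit 127) (nat_lit 148) r4_127 r8_148 (nat_lit 0) (nat_lit 0) (nat_lit 0) (nat_lit 0x80029938e) (nat_lit 1073741824)]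
noncomputable def e18_16 : List Rx := [
  Rx.mk (nat_lit 2) (nat_lit 2) (nat_lit 0) (nat_lit 0) (nat_lit 1) (nat_lit 114) (nat_lit 47) r4_114 r8_47 (nat_lit 0) (nat_lit 8571815) (nat_lit 9446528) (nat_lit 0x6c370d6e2) (nat_lit 1421722967),
  Rx.mk (nat_lit 18) (nat_lit 2) (nat_lit 2) (nat_lit 0) (nat_lit 3) (nat_lit 115) (nat_lit 49) r4_115 r8_49 (nat_lit 0) (nat_lit 0) (nat_lit 3225500) (nat_lit 0x7ffacb274) (nat_lit 1077464224),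
  Rx.mk (nat_lit 22) (nat_lit 6) (nat_lit 2) (nat_lit 0) (nat_lit 3) (nat_lit 116) (nat_lit 48) r4_116 r8_48 (nat_lit 0) (nat_lit 0) (nat_lit 3917153) (nat_lit 0x801c7137e) (nat_lit 1076004277),
  Rx.mk (nat_lit 66) (nat_lit 2) (nat_lit 0) (nat_lit 1) (nat_lit 5) (nat_lit 117) (nat_lit 50) r4_117 r8_50 (nat_lit 0) (nat_lit 5449534) (nat_lit 0) (nat_lit 0x80029938e) (nat_lit 1079191358),
  Rx.mk (nat_lit 82) (nat_lit 2) (nat_lit 2) (nat_lit 1) (nat_lit 7) (nat_lit 118) (nat_lit 52) r4_118 r8_52 (nat_lit 0) (nat_lit 0) (nat_lit 0) (nat_lit 0x802937ce8) (nat_lit 1071271324),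
  Rx.mk (nat_lit 86) (nat_lit 6) (nat_lit 2) (nat_lit 1) (nat_lit 7) (nat_lit 119) (nat_lit 51) r4_119 r8_51 (nat_lit 0) (nat_lit 0) (nat_lit 0) (nat_lit 0x800f1e8de) (nat_lit 1072939424),
  Rx.mk (nat_lit 150) (nat_lit 6) (nat_lit 2) (nat_lit 2) (nat_lit 7) (nat_lit 120) (nat_lit 57) r4_120 r8_57 (nat_lit 0) (nat_lit 0) (nat_lit 0) (nat_lit 0x80029938e) (nat_lit 1073741824),
  Rx.mk (nat_lit 182) (nat_lit 6) (nat_lit 6) (nat_lit 2) (nat_lit 7) (nat_lit 121) (nat_lit 56) r4_121 r8_56 (nat_lit 0) (nat_lit 0) (nat_lit 0) (nat_lit 0x80029938e) (nat_lit 1073741824),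
  Rx.mk (nat_lit 194) (nat_lit 2) (nat_lit 0) (nat_lit 3) (nat_lit 5) (nat_lit 122) (nat_lit 53) r4_122 r8_53 (nat_lit 0) (nat_lit 5449534) (nat_lit 0) (nat_lit 0x80029938e) (nat_lit 1079191358),
  Rx.mk (nat_lit 210) (nat_lit 2) (nat_lit 2) (nat_lit 3) (nat_lit 7) (nat_lit 123) (nat_lit 55) r4_123 r8_55 (nat_lit 0) (nat_lit 0) (nat_lit 0) (nat_lit 0x802937ce8) (nat_lit 1071271324),
  Rx.mk (nat_lit 218) (nat_lit 2) (nat_lit 3) (nat_lit 3) (nat_lit 7) (nat_lit 124) (nat_lit 54) r4_124 r8_54 (nat_lit 0) (nat_lit 0) (nat_lit 0) (nat_lit 0x80029938e) (nat_lit 1073741824)]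
noncomputable def e18_17 : List Rx := [
  Rx.mk (nat_lit 66) (nat_lit 2) (nat_lit 0) (nat_lit 1) (nat_lit 5) (nat_lit 276) (nat_lit 133) r4_276 r9_133 (nat_lit 0) (nat_lit 5449534) (nat_lit 0) (nat_lit 0x80029938e) (nat_lit 1079191358),
  Rx.mk (nat_lit 82) (nat_lit 2) (nat_lit 2) (nat_lit 1) (nat_lit 7) (nat_lit 277) (nat_lit 134) r4_277 r9_134 (nat_lit 0) (nat_lit 0) (nat_lit 0) (nat_lit 0x80029938e) (nat_lit 1073741824),
  Rx.mk (nat_lit 86) (nat_lit 6) (nat_lit 2) (nat_lit 1) (nat_lit 7) (nat_lit 278) (nat_lit 135) r4_278 r9_135 (nat_lit 0) (nat_lit 0) (nat_lit 0) (nat_lit 0x80029938e) (nat_lit 1073741824)]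
noncomputable def e18_18 : List Rx := [
  Rx.mk (nat_lit 22) (nat_lit 6) (nat_lit 2) (nat_lit 0) (nat_lit 3) (nat_lit 40) (nat_lit 49) r4_40 r4_49 (nat_lit 0) (nat_lit 0) (nat_lit 43884) (nat_lit 0x7fefce93e) (nat_lit 1074858208),
  Rx.mk (nat_lit 150) (nat_lit 6) (nat_lit 2) (nat_lit 2) (nat_lit 7) (nat_lit 41) (nat_lit 57) r4_41 r4_57 (nat_lit 0) (nat_lit 0) (nat_lit 0) (nat_lit 0x8339ce3ce) (nat_lit 1021658324),
  Rx.mk (nat_lit 180) (nat_lit 4) (nat_lit 6) (nat_lit 2) (nat_lit 6) (nat_lit 42) (nat_lit 54) r4_42 r4_54 (nat_lit 23486) (nat_lit 0) (nat_lit 0) (nat_lit 0x766a4ef24) (nat_lit 1233579710),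
  Rx.mk (nat_lit 182) (nat_lit 6) (nat_lit 6) (nat_lit 2) (nat_lit 7) (nat_lit 43) (nat_lit 56) r4_43 r4_56 (nat_lit 0) (nat_lit 0) (nat_lit 0) (nat_lit 0x8117b8e3a) (nat_lit 1056161724),
  Rx.mk (nat_lit 183) (nat_lit 7) (nat_lit 6) (nat_lit 2) (nat_lit 7) (nat_lit 44) (nat_lit 55) r4_44 r4_55 (nat_lit 0) (nat_lit 0) (nat_lit 0) (nat_lit 0x814099502) (nat_lit 1053574924),
  Rx.mk (nat_lit 194) (nat_lit 2) (nat_lit 0) (nat_lit 3) (nat_lit 5) (nat_lit 45) (nat_lit 50) r4_45 r4_50 (nat_lit 0) (nat_lit 21733) (nat_lit 0) (nat_lit 0x7fff1a7d0) (nat_lit 1073835357),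
  Rx.mk (nat_lit 210) (nat_lit 2) (nat_lit 2) (nat_lit 3) (nat_lit 7) (nat_lit 46) (nat_lit 53) r4_46 r4_53 (nat_lit 0) (nat_lit 0) (nat_lit 0) (nat_lit 0x7f66279a6) (nat_lit 1083762224),
  Rx.mk (nat_lit 214) (nat_lit 6) (nat_lit 2) (nat_lit 3) (nat_lit 7) (nat_lit 47) (nat_lit 52) r4_47 r4_52 (nat_lit 0) (nat_lit 0) (nat_lit 0) (nat_lit 0x80a3e2470) (nat_lit 1063484624),
  Rx.mk (nat_lit 218) (nat_lit 2) (nat_lit 3) (nat_lit 3) (nat_lit 7) (nat_lit 48) (nat_lit 51) r4_48 r4_51 (nat_lit 0) (nat_lit 0) (nat_lit 0) (nat_lit 0x844216012) (nat_lit 1004967124),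
  Rx.mk (nat_lit 315) (nat_lit 3) (nat_lit 7) (nat_lit 4) (nat_lit 3) (nat_lit 49) (nat_lit 40) r4_49 r4_40 (nat_lit 0) (nat_lit 0) (nat_lit 43884) (nat_lit 0x7fefce93e) (nat_lit 1074858208),
  Rx.mk (nat_lit 423) (nat_lit 7) (nat_lit 4) (nat_lit 6) (nat_lit 5) (nat_lit 50) (nat_lit 45) r4_50 r4_45 (nat_lit 0) (nat_lit 21733) (nat_lit 0) (nat_lit 0x7fff1a7d0) (nat_lit 1073835357),
  Rx.mk (nat_lit 439) (nat_lit 7) (nat_lit 6) (nat_lit 6) (nat_lit 7) (nat_lit 51) (nat_lit 48) r4_51 r4_48 (nat_lit 0) (nat_lit 0) (nat_lit 0) (nat_lit 0x844216012) (nat_lit 1004967124),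
  Rx.mk (nat_lit 443) (nat_lit 3) (nat_lit 7) (nat_lit 6) (nat_lit 7) (nat_lit 52) (nat_lit 47) r4_52 r4_47 (nat_lit 0) (nat_lit 0) (nat_lit 0) (nat_lit 0x80a3e2470) (nat_lit 1063484624),
  Rx.mk (nat_lit 447) (nat_lit 7) (nat_lit 7) (nat_lit 6) (nat_lit 7) (nat_lit 53) (nat_lit 46) r4_53 r4_46 (nat_lit 0) (nat_lit 0) (nat_lit 0) (nat_lit 0x7f66279a6) (nat_lit 1083762224),
  Rx.mk (nat_lit 472) (nat_lit 0) (nat_lit 3) (nat_lit 7) (nat_lit 6) (nat_lit 54) (nat_lit 42) r4_54 r4_42 (nat_lit 23486) (nat_lit 0) (nat_lit 0) (nat_lit 0x766a4ef24) (nat_lit 1233579710),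
  Rx.mk (nat_lit 474) (nat_lit 2) (nat_lit 3) (nat_lit 7) (nat_lit 7) (nat_lit 55) (nat_lit 44) r4_55 r4_44 (nat_lit 0) (nat_lit 0) (nat_lit 0) (nat_lit 0x814099502) (nat_lit 1053574924),
  Rx.mk (nat_lit 475) (nat_lit 3) (nat_lit 3) (nat_lit 7) (nat_lit 7) (nat_lit 56) (nat_lit 43) r4_56 r4_43 (nat_lit 0) (nat_lit 0) (nat_lit 0) (nat_lit 0x8117b8e3a) (nat_lit 1056161724),
  Rx.mk (nat_lit 507) (nat_lit 3) (nat_lit 7) (nat_lit 7) (nat_lit 7) (nat_lit 57) (nat_lit 41) r4_57 r4_41 (nat_lit 0) (nat_lit 0) (nat_lit 0) (nat_lit 0x8339ce3ce) (nat_lit 1021658324)]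
noncomputable def e18_19 : List Rx := [
  Rx.mk (nat_lit 22) (nat_lit 6) (nat_lit 2) (nat_lit 0) (nat_lit 3) (nat_lit 134) (nat_lit 132) r4_134 r10_132 (nat_lit 0) (nat_lit 0) (nat_lit 3516231) (nat_lit 0x801199ce4) (nat_lit 1076295255),
  Rx.mk (nat_lit 150) (nat_lit 6) (nat_lit 2) (nat_lit 2) (nat_lit 7) (nat_lit 135) (nat_lit 134) r4_135 r10_134 (nat_lit 0) (nat_lit 0) (nat_lit 0) (nat_lit 0x80029938e) (nat_lit 1073741824),
  Rx.mk (nat_lit 180) (nat_lit 4) (nat_lit 6) (nat_lit 2) (nat_lit 6) (nat_lit 136) (nat_lit 130) r4_136 r10_130 (nat_lit 2482237) (nat_lit 0) (nat_lit 0) (nat_lit 0x8026b83be) (nat_lit 1073911461),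
  Rx.mk (nat_lit 182) (nat_lit 6) (nat_lit 6) (nat_lit 2) (nat_lit 7) (nat_lit 137) (nat_lit 135) r4_137 r10_135 (nat_lit 0) (nat_lit 0) (nat_lit 0) (nat_lit 0x80029938e) (nat_lit 1073741824),
  Rx.mk (nat_lit 183) (nat_lit 7) (nat_lit 6) (nat_lit 2) (nat_lit 7) (nat_lit 138) (nat_lit 131) r4_138 r10_131 (nat_lit 0) (nat_lit 0) (nat_lit 0) (nat_lit 0x801ffbf1c) (nat_lit 1071860624),
  Rx.mk (nat_lit 194) (nat_lit 2) (nat_lit 0) (nat_lit 3) (nat_lit 5) (nat_lit 139) (nat_lit 127) r4_139 r10_127 (nat_lit 0) (nat_lit 6990673) (nat_lit 0) (nat_lit 0x7fb294226) (nat_lit 1085891197),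
  Rx.mk (nat_lit 210) (nat_lit 2) (nat_lit 2) (nat_lit 3) (nat_lit 7) (nat_lit 140) (nat_lit 129) r4_140 r10_129 (nat_lit 0) (nat_lit 0) (nat_lit 0) (nat_lit 0x805fe15fa) (nat_lit 1067795824),
  Rx.mk (nat_lit 214) (nat_lit 6) (nat_lit 2) (nat_lit 3) (nat_lit 7) (nat_lit 141) (nat_lit 133) r4_141 r10_133 (nat_lit 0) (nat_lit 0) (nat_lit 0) (nat_lit 0x801c7f974) (nat_lit 1072083424),
  Rx.mk (nat_lit 218) (nat_lit 2) (nat_lit 3) (nat_lit 3) (nat_lit 7) (nat_lit 142) (nat_lit 128) r4_142 r10_128 (nat_lit 0) (nat_lit 0) (nat_lit 0) (nat_lit 0x80029938e) (nat_lit 1073741824)]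
noncomputable def e18_20 : List Rx := [
  Rx.mk (nat_lit 194) (nat_lit 2) (nat_lit 0) (nat_lit 3) (nat_lit 5) (nat_lit 205) (nat_lit 131) r4_205 r11_131 (nat_lit 0) (nat_lit 26745555) (nat_lit 0) (nat_lit 0x7fe494c12) (nat_lit 1102412179),
  Rx.mk (nat_lit 210) (nat_lit 2) (nat_lit 2) (nat_lit 3) (nat_lit 7) (nat_lit 206) (nat_lit 134) r4_206 r11_134 (nat_lit 0) (nat_lit 0) (nat_lit 0) (nat_lit 0x832cd703a) (nat_lit 1022477724),
  Rx.mk (nat_lit 214) (nat_lit 6) (nat_lit 2) (nat_lit 3) (nat_lit 7) (nat_lit 207) (nat_lit 136) r4_207 r11_136 (nat_lit 0) (nat_lit 0) (nat_lit 0) (nat_lit 0x80e2c1c04) (nat_lit 1059510024),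
  Rx.mk (nat_lit 283) (nat_lit 3) (nat_lit 3) (nat_lit 4) (nat_lit 3) (nat_lit 208) (nat_lit 127) r4_208 r11_127 (nat_lit 0) (nat_lit 0) (nat_lit 2480456) (nat_lit 0x80331b106) (nat_lit 1073118480),
  Rx.mk (nat_lit 315) (nat_lit 3) (nat_lit 7) (nat_lit 4) (nat_lit 3) (nat_lit 209) (nat_lit 129) r4_209 r11_129 (nat_lit 0) (nat_lit 0) (nat_lit 2654410) (nat_lit 0x7fede05b4) (nat_lit 1077722534),
  Rx.mk (nat_lit 443) (nat_lit 3) (nat_lit 7) (nat_lit 6) (nat_lit 7) (nat_lit 210) (nat_lit 130) r4_210 r11_130 (nat_lit 0) (nat_lit 0) (nat_lit 0) (nat_lit 0x80c72ecda) (nat_lit 1061253024),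
  Rx.mk (nat_lit 447) (nat_lit 7) (nat_lit 7) (nat_lit 6) (nat_lit 7) (nat_lit 211) (nat_lit 135) r4_211 r11_135 (nat_lit 0) (nat_lit 0) (nat_lit 0) (nat_lit 0x867de86ba) (nat_lit 968842524),
  Rx.mk (nat_lit 448) (nat_lit 0) (nat_lit 0) (nat_lit 7) (nat_lit 4) (nat_lit 212) (nat_lit 125) r4_212 r11_125 (nat_lit 162008) (nat_lit 180054) (nat_lit 0) (nat_lit 0x66f25fd9c) (nat_lit 1491827986),
  Rx.mk (nat_lit 450) (nat_lit 2) (nat_lit 0) (nat_lit 7) (nat_lit 5) (nat_lit 213) (nat_lit 132) r4_213 r11_132 (nat_lit 0) (nat_lit 2501188) (nat_lit 0) (nat_lit 0x802edd148) (nat_lit 1073408112),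
  Rx.mk (nat_lit 472) (nat_lit 0) (nat_lit 3) (nat_lit 7) (nat_lit 6) (nat_lit 214) (nat_lit 126) r4_214 r11_126 (nat_lit 1914977) (nat_lit 0) (nat_lit 0) (nat_lit 0x805cba6f6) (nat_lit 1069908001),
  Rx.mk (nat_lit 474) (nat_lit 2) (nat_lit 3) (nat_lit 7) (nat_lit 7) (nat_lit 215) (nat_lit 133) r4_215 r11_133 (nat_lit 0) (nat_lit 0) (nat_lit 0) (nat_lit 0x803a9eba8) (nat_lit 1070162724),
  Rx.mk (nat_lit 475) (nat_lit 3) (nat_lit 3) (nat_lit 7) (nat_lit 7) (nat_lit 216) (nat_lit 128) r4_216 r11_128 (nat_lit 0) (nat_lit 0) (nat_lit 0) (nat_lit 0x8038253f4) (nat_lit 1070320124)]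
noncomputable def e18_21 : List Rx := [
  Rx.mk (nat_lit 66) (nat_lit 2) (nat_lit 0) (nat_lit 1) (nat_lit 5) (nat_lit 273) (nat_lit 167) r4_273 r9_167 (nat_lit 0) (nat_lit 5449534) (nat_lit 0) (nat_lit 0x80029938e) (nat_lit 1079191358),
  Rx.mk (nat_lit 74) (nat_lit 2) (nat_lit 1) (nat_lit 1) (nat_lit 7) (nat_lit 274) (nat_lit 168) r4_274 r9_168 (nat_lit 0) (nat_lit 0) (nat_lit 0) (nat_lit 0x80029938e) (nat_lit 1073741824),
  Rx.mk (nat_lit 82) (nat_lit 2) (nat_lit 2) (nat_lit 1) (nat_lit 7) (nat_lit 275) (nat_lit 169) r4_275 r9_169 (nat_lit 0) (nat_lit 0) (nat_lit 0) (nat_lit 0x80029938e) (nat_lit 1073741824)]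
noncomputable def e18_22 : List Rx := [
  Rx.mk (nat_lit 264) (nat_lit 0) (nat_lit 1) (nat_lit 4) (nat_lit 2) (nat_lit 253) (nat_lit 306) r4_253 r0_306 (nat_lit 2254859) (nat_lit 0) (nat_lit 109994147) (nat_lit 0x721a33c50) (nat_lit 1417787930),
  Rx.mk (nat_lit 265) (nat_lit 1) (nat_lit 1) (nat_lit 4) (nat_lit 3) (nat_lit 254) (nat_lit 307) r4_254 r0_307 (nat_lit 0) (nat_lit 0) (nat_lit 456084292) (nat_lit 0x7d9d80ab2) (nat_lit 1569623716),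
  Rx.mk (nat_lit 266) (nat_lit 2) (nat_lit 1) (nat_lit 4) (nat_lit 3) (nat_lit 255) (nat_lit 308) r4_255 r0_308 (nat_lit 0) (nat_lit 0) (nat_lit 7949593) (nat_lit 0x7febedd10) (nat_lit 1083145917),
  Rx.mk (nat_lit 320) (nat_lit 0) (nat_lit 0) (nat_lit 5) (nat_lit 4) (nat_lit 256) (nat_lit 309) r4_256 r0_309 (nat_lit 89716582) (nat_lit 8118484) (nat_lit 0) (nat_lit 0x6a154d77a) (nat_lit 1537072690),
  Rx.mk (nat_lit 321) (nat_lit 1) (nat_lit 0) (nat_lit 5) (nat_lit 5) (nat_lit 257) (nat_lit 311) r4_257 r0_311 (nat_lit 0) (nat_lit 6336730) (nat_lit 0) (nat_lit 0x7fe202792) (nat_lit 1082176554),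
  Rx.mk (nat_lit 322) (nat_lit 2) (nat_lit 0) (nat_lit 5) (nat_lit 5) (nat_lit 258) (nat_lit 313) r4_258 r0_313 (nat_lit 0) (nat_lit 3644892) (nat_lit 0) (nat_lit 0x7fe25d200) (nat_lit 1079457116),
  Rx.mk (nat_lit 328) (nat_lit 0) (nat_lit 1) (nat_lit 5) (nat_lit 6) (nat_lit 259) (nat_lit 310) r4_259 r0_310 (nat_lit 5728860) (nat_lit 0) (nat_lit 0) (nat_lit 0x7fd6649a8) (nat_lit 1082310884),
  Rx.mk (nat_lit 329) (nat_lit 1) (nat_lit 1) (nat_lit 5) (nat_lit 7) (nat_lit 260) (nat_lit 312) r4_260 r0_312 (nat_lit 0) (nat_lit 0) (nat_lit 0) (nat_lit 0x8029d9714) (nat_lit 1071230724),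
  Rx.mk (nat_lit 330) (nat_lit 2) (nat_lit 1) (nat_lit 5) (nat_lit 7) (nat_lit 261) (nat_lit 314) r4_261 r0_314 (nat_lit 0) (nat_lit 0) (nat_lit 0) (nat_lit 0x800cb83c4) (nat_lit 1073092924)]
noncomputable def e18_23 : List Rx := [
  Rx.mk (nat_lit 264) (nat_lit 0) (nat_lit 1) (nat_lit 4) (nat_lit 2) (nat_lit 293) (nat_lit 297) r4_293 r1_297 (nat_lit 5098899) (nat_lit 0) (nat_lit 227840882) (nat_lit 0x7551b3222) (nat_lit 1484851905),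
  Rx.mk (nat_lit 265) (nat_lit 1) (nat_lit 1) (nat_lit 4) (nat_lit 3) (nat_lit 294) (nat_lit 298) r4_294 r1_298 (nat_lit 0) (nat_lit 0) (nat_lit 239917945) (nat_lit 0x7f5e8ef50) (nat_lit 1324257369),
  Rx.mk (nat_lit 266) (nat_lit 2) (nat_lit 1) (nat_lit 4) (nat_lit 3) (nat_lit 295) (nat_lit 299) r4_295 r1_299 (nat_lit 0) (nat_lit 0) (nat_lit 5727388) (nat_lit 0x801c5e8a0) (nat_lit 1077818112),
  Rx.mk (nat_lit 328) (nat_lit 0) (nat_lit 1) (nat_lit 5) (nat_lit 6) (nat_lit 296) (nat_lit 300) r4_296 r1_300 (nat_lit 4793271) (nat_lit 0) (nat_lit 0) (nat_lit 0x7fffe83ba) (nat_lit 1078705595),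
  Rx.mk (nat_lit 329) (nat_lit 1) (nat_lit 1) (nat_lit 5) (nat_lit 7) (nat_lit 297) (nat_lit 301) r4_297 r1_301 (nat_lit 0) (nat_lit 0) (nat_lit 0) (nat_lit 0x80265157e) (nat_lit 1071456124),
  Rx.mk (nat_lit 330) (nat_lit 2) (nat_lit 1) (nat_lit 5) (nat_lit 7) (nat_lit 298) (nat_lit 302) r4_298 r1_302 (nat_lit 0) (nat_lit 0) (nat_lit 0) (nat_lit 0x80107341e) (nat_lit 1072853724)]
noncomputable def e18_24 : List Rx := [
  Rx.mk (nat_lit 256) (nat_lit 0) (nat_lit 0) (nat_lit 4) (nat_lit 0) (nat_lit 327) (nat_lit 327) r4_327 r4_327 (nat_lit 1722812) (nat_lit 1722812) (nat_lit 9657535) (nat_lit 0x67a260d5e) (nat_lit 1493172983),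
  Rx.mk (nat_lit 257) (nat_lit 1) (nat_lit 0) (nat_lit 4) (nat_lit 1) (nat_lit 328) (nat_lit 330) r4_328 r4_330 (nat_lit 0) (nat_lit 1920730) (nat_lit 43688353) (nat_lit 0x7b1f6d816) (nat_lit 1200755307),
  Rx.mk (nat_lit 258) (nat_lit 2) (nat_lit 0) (nat_lit 4) (nat_lit 1) (nat_lit 329) (nat_lit 333) r4_329 r4_333 (nat_lit 0) (nat_lit 6399069) (nat_lit 7032255) (nat_lit 0x7e65caa36) (nat_lit 1113984948),
  Rx.mk (nat_lit 264) (nat_lit 0) (nat_lit 1) (nat_lit 4) (nat_lit 2) (nat_lit 330) (nat_lit 328) r4_330 r4_328 (nat_lit 1920730) (nat_lit 0) (nat_lit 43688353) (nat_lit 0x7b1f6d816) (nat_lit 1200755307),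
  Rx.mk (nat_lit 265) (nat_lit 1) (nat_lit 1) (nat_lit 4) (nat_lit 3) (nat_lit 331) (nat_lit 331) r4_331 r4_331 (nat_lit 0) (nat_lit 0) (nat_lit 5449534) (nat_lit 0x801b12a8c) (nat_lit 1077620558),
  Rx.mk (nat_lit 266) (nat_lit 2) (nat_lit 1) (nat_lit 4) (nat_lit 3) (nat_lit 332) (nat_lit 334) r4_332 r4_334 (nat_lit 0) (nat_lit 0) (nat_lit 5449534) (nat_lit 0x8024cb2ae) (nat_lit 1077002758),
  Rx.mk (nat_lit 280) (nat_lit 0) (nat_lit 3) (nat_lit 4) (nat_lit 2) (nat_lit 333) (nat_lit 329) r4_333 r4_329 (nat_lit 6399069) (nat_lit 0) (nat_lit 7032255) (nat_lit 0x7e65caa36) (nat_lit 1113984948),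
  Rx.mk (nat_lit 281) (nat_lit 1) (nat_lit 3) (nat_lit 4) (nat_lit 3) (nat_lit 334) (nat_lit 332) r4_334 r4_332 (nat_lit 0) (nat_lit 0) (nat_lit 5449534) (nat_lit 0x8024cb2ae) (nat_lit 1077002758),
  Rx.mk (nat_lit 320) (nat_lit 0) (nat_lit 0) (nat_lit 5) (nat_lit 4) (nat_lit 335) (nat_lit 335) r4_335 r4_335 (nat_lit 107308903) (nat_lit 107308903) (nat_lit 0) (nat_lit 0x7f6eaa40c) (nat_lit 1297928030),
  Rx.mk (nat_lit 321) (nat_lit 1) (nat_lit 0) (nat_lit 5) (nat_lit 5) (nat_lit 336) (nat_lit 338) r4_336 r4_338 (nat_lit 0) (nat_lit 5024246) (nat_lit 0) (nat_lit 0x80099945e) (nat_lit 1078317170),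
  Rx.mk (nat_lit 322) (nat_lit 2) (nat_lit 0) (nat_lit 5) (nat_lit 5) (nat_lit 337) (nat_lit 341) r4_337 r4_341 (nat_lit 0) (nat_lit 5002485) (nat_lit 0) (nat_lit 0x80137c75a) (nat_lit 1077661009),
  Rx.mk (nat_lit 328) (nat_lit 0) (nat_lit 1) (nat_lit 5) (nat_lit 6) (nat_lit 338) (nat_lit 336) r4_338 r4_336 (nat_lit 5024246) (nat_lit 0) (nat_lit 0) (nat_lit 0x80099945e) (nat_lit 1078317170),
  Rx.mk (nat_lit 329) (nat_lit 1) (nat_lit 1) (nat_lit 5) (nat_lit 7) (nat_lit 339) (nat_lit 339) r4_339 r4_339 (nat_lit 0) (nat_lit 0) (nat_lit 0) (nat_lit 0x80029938e) (nat_lit 1073741824),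
  Rx.mk (nat_lit 330) (nat_lit 2) (nat_lit 1) (nat_lit 5) (nat_lit 7) (nat_lit 340) (nat_lit 342) r4_340 r4_342 (nat_lit 0) (nat_lit 0) (nat_lit 0) (nat_lit 0x80029938e) (nat_lit 1073741824),
  Rx.mk (nat_lit 344) (nat_lit 0) (nat_lit 3) (nat_lit 5) (nat_lit 6) (nat_lit 341) (nat_lit 337) r4_341 r4_337 (nat_lit 5002485) (nat_lit 0) (nat_lit 0) (nat_lit 0x80137c75a) (nat_lit 1077661009),
  Rx.mk (nat_lit 345) (nat_lit 1) (nat_lit 3) (nat_lit 5) (nat_lit 7) (nat_lit 342) (nat_lit 340) r4_342 r4_340 (nat_lit 0) (nat_lit 0) (nat_lit 0) (nat_lit 0x80029938e) (nat_lit 1073741824)]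
noncomputable def e18_25 : List Rx := [
  Rx.mk (nat_lit 320) (nat_lit 0) (nat_lit 0) (nat_lit 5) (nat_lit 4) (nat_lit 265) (nat_lit 223) r4_265 r7_223 (nat_lit 10345136) (nat_lit 34184311) (nat_lit 0) (nat_lit 0x6ebe1e59e) (nat_lit 1406084271),
  Rx.mk (nat_lit 321) (nat_lit 1) (nat_lit 0) (nat_lit 5) (nat_lit 5) (nat_lit 266) (nat_lit 224) r4_266 r7_224 (nat_lit 0) (nat_lit 5449534) (nat_lit 0) (nat_lit 0x80029938e) (nat_lit 1079191358),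
  Rx.mk (nat_lit 322) (nat_lit 2) (nat_lit 0) (nat_lit 5) (nat_lit 5) (nat_lit 267) (nat_lit 225) r4_267 r7_225 (nat_lit 0) (nat_lit 4321044) (nat_lit 0) (nat_lit 0x800f26f02) (nat_lit 1077257068),
  Rx.mk (nat_lit 328) (nat_lit 0) (nat_lit 1) (nat_lit 5) (nat_lit 6) (nat_lit 268) (nat_lit 226) r4_268 r7_226 (nat_lit 4100018) (nat_lit 0) (nat_lit 0) (nat_lit 0x801ea5dd4) (nat_lit 1076046742),
  Rx.mk (nat_lit 329) (nat_lit 1) (nat_lit 1) (nat_lit 5) (nat_lit 7) (nat_lit 269) (nat_lit 227) r4_269 r7_227 (nat_lit 0) (nat_lit 0) (nat_lit 0) (nat_lit 0x80029938e) (nat_lit 1073741824),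
  Rx.mk (nat_lit 330) (nat_lit 2) (nat_lit 1) (nat_lit 5) (nat_lit 7) (nat_lit 270) (nat_lit 228) r4_270 r7_228 (nat_lit 0) (nat_lit 0) (nat_lit 0) (nat_lit 0x80029938e) (nat_lit 1073741824)]
noncomputable def e18_26 : List Rx := [
  Rx.mk (nat_lit 328) (nat_lit 0) (nat_lit 1) (nat_lit 5) (nat_lit 6) (nat_lit 304) (nat_lit 181) r4_304 r8_181 (nat_lit 5449534) (nat_lit 0) (nat_lit 0) (nat_lit 0x80029938e) (nat_lit 1079191358),
  Rx.mk (nat_lit 329) (nat_lit 1) (nat_lit 1) (nat_lit 5) (nat_lit 7) (nat_lit 305) (nat_lit 182) r4_305 r8_182 (nat_lit 0) (nat_lit 0) (nat_lit 0) (nat_lit 0x80029938e) (nat_lit 1073741824),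
  Rx.mk (nat_lit 330) (nat_lit 2) (nat_lit 1) (nat_lit 5) (nat_lit 7) (nat_lit 306) (nat_lit 183) r4_306 r8_183 (nat_lit 0) (nat_lit 0) (nat_lit 0) (nat_lit 0x80029938e) (nat_lit 1073741824)]
noncomputable def e18_27 : List Rx := [
  Rx.mk (nat_lit 66) (nat_lit 2) (nat_lit 0) (nat_lit 1) (nat_lit 5) (nat_lit 284) (nat_lit 338) r4_284 r8_338 (nat_lit 0) (nat_lit 5449534) (nat_lit 0) (nat_lit 0x80029938e) (nat_lit 1079191358),
  Rx.mk (nat_lit 74) (nat_lit 2) (nat_lit 1) (nat_lit 1) (nat_lit 7) (nat_lit 285) (nat_lit 339) r4_285 r8_339 (nat_lit 0) (nat_lit 0) (nat_lit 0) (nat_lit 0x80029938e) (nat_lit 1073741824),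
  Rx.mk (nat_lit 82) (nat_lit 2) (nat_lit 2) (nat_lit 1) (nat_lit 7) (nat_lit 286) (nat_lit 340) r4_286 r8_340 (nat_lit 0) (nat_lit 0) (nat_lit 0) (nat_lit 0x80029938e) (nat_lit 1073741824),
  Rx.mk (nat_lit 320) (nat_lit 0) (nat_lit 0) (nat_lit 5) (nat_lit 4) (nat_lit 287) (nat_lit 341) r4_287 r8_341 (nat_lit 6310285) (nat_lit 6927974) (nat_lit 0) (nat_lit 0x6ff2af942) (nat_lit 1354702483),
  Rx.mk (nat_lit 321) (nat_lit 1) (nat_lit 0) (nat_lit 5) (nat_lit 5) (nat_lit 288) (nat_lit 343) r4_288 r8_343 (nat_lit 0) (nat_lit 5449534) (nat_lit 0) (nat_lit 0x80029938e) (nat_lit 1079191358),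
  Rx.mk (nat_lit 322) (nat_lit 2) (nat_lit 0) (nat_lit 5) (nat_lit 5) (nat_lit 289) (nat_lit 345) r4_289 r8_345 (nat_lit 0) (nat_lit 5449534) (nat_lit 0) (nat_lit 0x80029938e) (nat_lit 1079191358),
  Rx.mk (nat_lit 328) (nat_lit 0) (nat_lit 1) (nat_lit 5) (nat_lit 6) (nat_lit 290) (nat_lit 342) r4_290 r8_342 (nat_lit 5449534) (nat_lit 0) (nat_lit 0) (nat_lit 0x80029938e) (nat_lit 1079191358),
  Rx.mk (nat_lit 329) (nat_lit 1) (nat_lit 1) (nat_lit 5) (nat_lit 7) (nat_lit 291) (nat_lit 344) r4_291 r8_344 (nat_lit 0) (nat_lit 0) (nat_lit 0) (nat_lit 0x80029938e) (nat_lit 1073741824),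
  Rx.mk (nat_lit 330) (nat_lit 2) (nat_lit 1) (nat_lit 5) (nat_lit 7) (nat_lit 292) (nat_lit 346) r4_292 r8_346 (nat_lit 0) (nat_lit 0) (nat_lit 0) (nat_lit 0x80029938e) (nat_lit 1073741824)]
noncomputable def e18_28 : List Rx := [
  Rx.mk (nat_lit 320) (nat_lit 0) (nat_lit 0) (nat_lit 5) (nat_lit 4) (nat_lit 355) (nat_lit 175) r4_355 r10_175 (nat_lit 6309114) (nat_lit 8253129) (nat_lit 0) (nat_lit 0x750b231e0) (nat_lit 1271062467),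
  Rx.mk (nat_lit 321) (nat_lit 1) (nat_lit 0) (nat_lit 5) (nat_lit 5) (nat_lit 356) (nat_lit 176) r4_356 r10_176 (nat_lit 0) (nat_lit 5449534) (nat_lit 0) (nat_lit 0x800d8cc28) (nat_lit 1078489458),
  Rx.mk (nat_lit 322) (nat_lit 2) (nat_lit 0) (nat_lit 5) (nat_lit 5) (nat_lit 357) (nat_lit 177) r4_357 r10_177 (nat_lit 0) (nat_lit 4709985) (nat_lit 0) (nat_lit 0x8005c37ee) (nat_lit 1078247509),
  Rx.mk (nat_lit 328) (nat_lit 0) (nat_lit 1) (nat_lit 5) (nat_lit 6) (nat_lit 358) (nat_lit 178) r4_358 r10_178 (nat_lit 3972091) (nat_lit 0) (nat_lit 0) (nat_lit 0x8021df644) (nat_lit 1075712715),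
  Rx.mk (nat_lit 329) (nat_lit 1) (nat_lit 1) (nat_lit 5) (nat_lit 7) (nat_lit 359) (nat_lit 179) r4_359 r10_179 (nat_lit 0) (nat_lit 0) (nat_lit 0) (nat_lit 0x80029938e) (nat_lit 1073741824),
  Rx.mk (nat_lit 330) (nat_lit 2) (nat_lit 1) (nat_lit 5) (nat_lit 7) (nat_lit 360) (nat_lit 180) r4_360 r10_180 (nat_lit 0) (nat_lit 0) (nat_lit 0) (nat_lit 0x80029938e) (nat_lit 1073741824),
  Rx.mk (nat_lit 344) (nat_lit 0) (nat_lit 3) (nat_lit 5) (nat_lit 6) (nat_lit 361) (nat_lit 181) r4_361 r10_181 (nat_lit 6376611) (nat_lit 0) (nat_lit 0) (nat_lit 0x8010e4d9e) (nat_lit 1079201535),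
  Rx.mk (nat_lit 345) (nat_lit 1) (nat_lit 3) (nat_lit 5) (nat_lit 7) (nat_lit 362) (nat_lit 182) r4_362 r10_182 (nat_lit 0) (nat_lit 0) (nat_lit 0) (nat_lit 0x80029938e) (nat_lit 1073741824)]
noncomputable def e18_29 : List Rx := [
  Rx.mk (nat_lit 256) (nat_lit 0) (nat_lit 0) (nat_lit 4) (nat_lit 0) (nat_lit 381) (nat_lit 191) r4_381 r11_191 (nat_lit 3311660) (nat_lit 3764156) (nat_lit 8641172) (nat_lit 0x5c93f0a86) (nat_lit 1680132412),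
  Rx.mk (nat_lit 257) (nat_lit 1) (nat_lit 0) (nat_lit 4) (nat_lit 1) (nat_lit 382) (nat_lit 194) r4_382 r11_194 (nat_lit 0) (nat_lit 4816256) (nat_lit 6858387) (nat_lit 0x7fdca3fee) (nat_lit 1087856567),
  Rx.mk (nat_lit 258) (nat_lit 2) (nat_lit 0) (nat_lit 4) (nat_lit 1) (nat_lit 383) (nat_lit 196) r4_383 r11_196 (nat_lit 0) (nat_lit 8534027) (nat_lit 6991617) (nat_lit 0x7ccb3567a) (nat_lit 1142817968),
  Rx.mk (nat_lit 264) (nat_lit 0) (nat_lit 1) (nat_lit 4) (nat_lit 2) (nat_lit 384) (nat_lit 199) r4_384 r11_199 (nat_lit 5599296) (nat_lit 0) (nat_lit 15577727) (nat_lit 0x7785e1fb0) (nat_lit 1236347147),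
  Rx.mk (nat_lit 265) (nat_lit 1) (nat_lit 1) (nat_lit 4) (nat_lit 3) (nat_lit 385) (nat_lit 202) r4_385 r11_202 (nat_lit 0) (nat_lit 0) (nat_lit 7939064) (nat_lit 0x7f609f326) (nat_lit 1092168788),
  Rx.mk (nat_lit 266) (nat_lit 2) (nat_lit 1) (nat_lit 4) (nat_lit 3) (nat_lit 386) (nat_lit 204) r4_386 r11_204 (nat_lit 0) (nat_lit 0) (nat_lit 5449534) (nat_lit 0x80029938e) (nat_lit 1079191358),
  Rx.mk (nat_lit 280) (nat_lit 0) (nat_lit 3) (nat_lit 4) (nat_lit 2) (nat_lit 387) (nat_lit 207) r4_387 r11_207 (nat_lit 5959014) (nat_lit 0) (nat_lit 9921122) (nat_lit 0x7875189c6) (nat_lit 1215474960),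
  Rx.mk (nat_lit 281) (nat_lit 1) (nat_lit 3) (nat_lit 4) (nat_lit 3) (nat_lit 388) (nat_lit 209) r4_388 r11_209 (nat_lit 0) (nat_lit 0) (nat_lit 5449534) (nat_lit 0x80029938e) (nat_lit 1079191358),
  Rx.mk (nat_lit 283) (nat_lit 3) (nat_lit 3) (nat_lit 4) (nat_lit 3) (nat_lit 389) (nat_lit 210) r4_389 r11_210 (nat_lit 0) (nat_lit 0) (nat_lit 5449534) (nat_lit 0x80029938e) (nat_lit 1079191358),
  Rx.mk (nat_lit 320) (nat_lit 0) (nat_lit 0) (nat_lit 5) (nat_lit 4) (nat_lit 390) (nat_lit 192) r4_390 r11_192 (nat_lit 4090407) (nat_lit 144474354) (nat_lit 0) (nat_lit 0x7f435b8aa) (nat_lit 1234692185),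
  Rx.mk (nat_lit 322) (nat_lit 2) (nat_lit 0) (nat_lit 5) (nat_lit 5) (nat_lit 391) (nat_lit 197) r4_391 r11_197 (nat_lit 0) (nat_lit 5723800) (nat_lit 0) (nat_lit 0x800173b08) (nat_lit 1079538724),
  Rx.mk (nat_lit 328) (nat_lit 0) (nat_lit 1) (nat_lit 5) (nat_lit 6) (nat_lit 392) (nat_lit 200) r4_392 r11_200 (nat_lit 5449534) (nat_lit 0) (nat_lit 0) (nat_lit 0x80029938e) (nat_lit 1079191358),
  Rx.mk (nat_lit 330) (nat_lit 2) (nat_lit 1) (nat_lit 5) (nat_lit 7) (nat_lit 393) (nat_lit 205) r4_393 r11_205 (nat_lit 0) (nat_lit 0) (nat_lit 0) (nat_lit 0x80029938e) (nat_lit 1073741824),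
  Rx.mk (nat_lit 344) (nat_lit 0) (nat_lit 3) (nat_lit 5) (nat_lit 6) (nat_lit 394) (nat_lit 208) r4_394 r11_208 (nat_lit 5449534) (nat_lit 0) (nat_lit 0) (nat_lit 0x7ffe77e04) (nat_lit 1079456258),
  Rx.mk (nat_lit 347) (nat_lit 3) (nat_lit 3) (nat_lit 5) (nat_lit 7) (nat_lit 395) (nat_lit 211) r4_395 r11_211 (nat_lit 0) (nat_lit 0) (nat_lit 0) (nat_lit 0x80029938e) (nat_lit 1073741824),
  Rx.mk (nat_lit 448) (nat_lit 0) (nat_lit 0) (nat_lit 7) (nat_lit 4) (nat_lit 396) (nat_lit 193) r4_396 r11_193 (nat_lit 9076025) (nat_lit 9076025) (nat_lit 0) (nat_lit 0x7f223ad38) (nat_lit 1106437074),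
  Rx.mk (nat_lit 449) (nat_lit 1) (nat_lit 0) (nat_lit 7) (nat_lit 5) (nat_lit 397) (nat_lit 195) r4_397 r11_195 (nat_lit 0) (nat_lit 5449534) (nat_lit 0) (nat_lit 0x80029938e) (nat_lit 1079191358),
  Rx.mk (nat_lit 450) (nat_lit 2) (nat_lit 0) (nat_lit 7) (nat_lit 5) (nat_lit 398) (nat_lit 198) r4_398 r11_198 (nat_lit 0) (nat_lit 5689996) (nat_lit 0) (nat_lit 0x7ff72fb88) (nat_lit 1080165020),
  Rx.mk (nat_lit 456) (nat_lit 0) (nat_lit 1) (nat_lit 7) (nat_lit 6) (nat_lit 399) (nat_lit 201) r4_399 r11_201 (nat_lit 5449534) (nat_lit 0) (nat_lit 0) (nat_lit 0x80029938e) (nat_lit 1079191358),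
  Rx.mk (nat_lit 457) (nat_lit 1) (nat_lit 1) (nat_lit 7) (nat_lit 7) (nat_lit 400) (nat_lit 203) r4_400 r11_203 (nat_lit 0) (nat_lit 0) (nat_lit 0) (nat_lit 0x80029938e) (nat_lit 1073741824),
  Rx.mk (nat_lit 458) (nat_lit 2) (nat_lit 1) (nat_lit 7) (nat_lit 7) (nat_lit 401) (nat_lit 206) r4_401 r11_206 (nat_lit 0) (nat_lit 0) (nat_lit 0) (nat_lit 0x80029938e) (nat_lit 1073741824)]
noncomputable def e18_30 : List Rx := [
  Rx.mk (nat_lit 218) (nat_lit 2) (nat_lit 3) (nat_lit 3) (nat_lit 7) (nat_lit 58) (nat_lit 33) r4_58 r5_33 (nat_lit 0) (nat_lit 0) (nat_lit 0) (nat_lit 0x80739ec28) (nat_lit 1066538624),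
  Rx.mk (nat_lit 315) (nat_lit 3) (nat_lit 7) (nat_lit 4) (nat_lit 3) (nat_lit 59) (nat_lit 27) r4_59 r5_27 (nat_lit 0) (nat_lit 0) (nat_lit 1180737) (nat_lit 0x800877684) (nat_lit 1074523561),
  Rx.mk (nat_lit 443) (nat_lit 3) (nat_lit 7) (nat_lit 6) (nat_lit 7) (nat_lit 60) (nat_lit 32) r4_60 r5_32 (nat_lit 0) (nat_lit 0) (nat_lit 0) (nat_lit 0x8659a71ca) (nat_lit 971123424),
  Rx.mk (nat_lit 472) (nat_lit 0) (nat_lit 3) (nat_lit 7) (nat_lit 6) (nat_lit 61) (nat_lit 30) r4_61 r5_30 (nat_lit 940616) (nat_lit 0) (nat_lit 0) (nat_lit 0x802fcad94) (nat_lit 1071778540),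
  Rx.mk (nat_lit 474) (nat_lit 2) (nat_lit 3) (nat_lit 7) (nat_lit 7) (nat_lit 62) (nat_lit 31) r4_62 r5_31 (nat_lit 0) (nat_lit 0) (nat_lit 0) (nat_lit 0x811e5b576) (nat_lit 1055742624),
  Rx.mk (nat_lit 504) (nat_lit 0) (nat_lit 7) (nat_lit 7) (nat_lit 6) (nat_lit 63) (nat_lit 28) r4_63 r5_28 (nat_lit 1975302) (nat_lit 0) (nat_lit 0) (nat_lit 0x7f23bc56c) (nat_lit 1090154226),
  Rx.mk (nat_lit 507) (nat_lit 3) (nat_lit 7) (nat_lit 7) (nat_lit 7) (nat_lit 64) (nat_lit 29) r4_64 r5_29 (nat_lit 0) (nat_lit 0) (nat_lit 0) (nat_lit 0x8024901fe) (nat_lit 1071566124)]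
noncomputable def e18_31 : List Rx := [
  Rx.mk (nat_lit 218) (nat_lit 2) (nat_lit 3) (nat_lit 3) (nat_lit 7) (nat_lit 143) (nat_lit 8) r4_143 r11_8 (nat_lit 0) (nat_lit 0) (nat_lit 0) (nat_lit 0x80029938e) (nat_lit 1073741824)]
noncomputable def e18_32 : List Rx := [
  Rx.mk (nat_lit 280) (nat_lit 0) (nat_lit 3) (nat_lit 4) (nat_lit 2) (nat_lit 217) (nat_lit 338) r4_217 r6_338 (nat_lit 38193) (nat_lit 0) (nat_lit 58427) (nat_lit 0x743c60600) (nat_lit 1269994544),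
  Rx.mk (nat_lit 281) (nat_lit 1) (nat_lit 3) (nat_lit 4) (nat_lit 3) (nat_lit 218) (nat_lit 341) r4_218 r6_341 (nat_lit 0) (nat_lit 0) (nat_lit 2224828) (nat_lit 0x8082c4f54) (nat_lit 1067817452),
  Rx.mk (nat_lit 282) (nat_lit 2) (nat_lit 3) (nat_lit 4) (nat_lit 3) (nat_lit 219) (nat_lit 343) r4_219 r6_343 (nat_lit 0) (nat_lit 0) (nat_lit 3048876) (nat_lit 0x8040187e6) (nat_lit 1072866300),
  Rx.mk (nat_lit 312) (nat_lit 0) (nat_lit 7) (nat_lit 4) (nat_lit 2) (nat_lit 220) (nat_lit 337) r4_220 r6_337 (nat_lit 570165) (nat_lit 0) (nat_lit 1651260) (nat_lit 0x6c90a7590) (nat_lit 1400056949),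
  Rx.mk (nat_lit 313) (nat_lit 1) (nat_lit 7) (nat_lit 4) (nat_lit 3) (nat_lit 221) (nat_lit 340) r4_221 r6_340 (nat_lit 0) (nat_lit 0) (nat_lit 2410025) (nat_lit 0x7ff815124) (nat_lit 1076821349),
  Rx.mk (nat_lit 440) (nat_lit 0) (nat_lit 7) (nat_lit 6) (nat_lit 6) (nat_lit 222) (nat_lit 339) r4_222 r6_339 (nat_lit 34434) (nat_lit 0) (nat_lit 0) (nat_lit 0x47d93a886) (nat_lit 2010000758),
  Rx.mk (nat_lit 441) (nat_lit 1) (nat_lit 7) (nat_lit 6) (nat_lit 7) (nat_lit 223) (nat_lit 342) r4_223 r6_342 (nat_lit 0) (nat_lit 0) (nat_lit 0) (nat_lit 0x800d35cd4) (nat_lit 1073018224)]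
noncomputable def e18_33 : List Rx := [
  Rx.mk (nat_lit 280) (nat_lit 0) (nat_lit 3) (nat_lit 4) (nat_lit 2) (nat_lit 343) (nat_lit 297) r4_343 r5_297 (nat_lit 1641854) (nat_lit 0) (nat_lit 2493352) (nat_lit 0x7a0e2dc14) (nat_lit 1177075130),
  Rx.mk (nat_lit 281) (nat_lit 1) (nat_lit 3) (nat_lit 4) (nat_lit 3) (nat_lit 344) (nat_lit 298) r4_344 r5_298 (nat_lit 0) (nat_lit 0) (nat_lit 2814931) (nat_lit 0x806c9d226) (nat_lit 1069803455),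
  Rx.mk (nat_lit 282) (nat_lit 2) (nat_lit 3) (nat_lit 4) (nat_lit 3) (nat_lit 345) (nat_lit 299) r4_345 r5_299 (nat_lit 0) (nat_lit 0) (nat_lit 2902620) (nat_lit 0x803de17f2) (nat_lit 1072857744),
  Rx.mk (nat_lit 344) (nat_lit 0) (nat_lit 3) (nat_lit 5) (nat_lit 6) (nat_lit 346) (nat_lit 300) r4_346 r5_300 (nat_lit 1185642) (nat_lit 0) (nat_lit 0) (nat_lit 0x8143bc13a) (nat_lit 1054562866),
  Rx.mk (nat_lit 345) (nat_lit 1) (nat_lit 3) (nat_lit 5) (nat_lit 7) (nat_lit 347) (nat_lit 301) r4_347 r5_301 (nat_lit 0) (nat_lit 0) (nat_lit 0) (nat_lit 0x835c5378c) (nat_lit 1019479724),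
  Rx.mk (nat_lit 346) (nat_lit 2) (nat_lit 3) (nat_lit 5) (nat_lit 7) (nat_lit 348) (nat_lit 302) r4_348 r5_302 (nat_lit 0) (nat_lit 0) (nat_lit 0) (nat_lit 0x8069ded64) (nat_lit 1067161624)]
noncomputable def e18_34 : List Rx := [
  Rx.mk (nat_lit 344) (nat_lit 0) (nat_lit 3) (nat_lit 5) (nat_lit 6) (nat_lit 363) (nat_lit 353) r4_363 r11_353 (nat_lit 4642613) (nat_lit 0) (nat_lit 0) (nat_lit 0x7fedac142) (nat_lit 1079729037),
  Rx.mk (nat_lit 345) (nat_lit 1) (nat_lit 3) (nat_lit 5) (nat_lit 7) (nat_lit 364) (nat_lit 354) r4_364 r11_354 (nat_lit 0) (nat_lit 0) (nat_lit 0) (nat_lit 0x800f551b8) (nat_lit 1072925424),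
  Rx.mk (nat_lit 346) (nat_lit 2) (nat_lit 3) (nat_lit 5) (nat_lit 7) (nat_lit 365) (nat_lit 355) r4_365 r11_355 (nat_lit 0) (nat_lit 0) (nat_lit 0) (nat_lit 0x800f551b8) (nat_lit 1072925424)]
noncomputable def e18_35 : List Rx := [
  Rx.mk (nat_lit 312) (nat_lit 0) (nat_lit 7) (nat_lit 4) (nat_lit 2) (nat_lit 78) (nat_lit 62) r4_78 r6_62 (nat_lit 458330) (nat_lit 0) (nat_lit 618791) (nat_lit 0x6b49c39f4) (nat_lit 1420200045),
  Rx.mk (nat_lit 313) (nat_lit 1) (nat_lit 7) (nat_lit 4) (nat_lit 3) (nat_lit 79) (nat_lit 63) r4_79 r6_63 (nat_lit 0) (nat_lit 0) (nat_lit 2091838) (nat_lit 0x8027fc3e2) (nat_lit 1073434162),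
  Rx.mk (nat_lit 315) (nat_lit 3) (nat_lit 7) (nat_lit 4) (nat_lit 3) (nat_lit 80) (nat_lit 64) r4_80 r6_64 (nat_lit 0) (nat_lit 0) (nat_lit 2733861) (nat_lit 0x7eb79fd52) (nat_lit 1097952985),
  Rx.mk (nat_lit 440) (nat_lit 0) (nat_lit 7) (nat_lit 6) (nat_lit 6) (nat_lit 81) (nat_lit 67) r4_81 r6_67 (nat_lit 21394) (nat_lit 0) (nat_lit 0) (nat_lit 0x59eab61f2) (nat_lit 1708731518),
  Rx.mk (nat_lit 441) (nat_lit 1) (nat_lit 7) (nat_lit 6) (nat_lit 7) (nat_lit 82) (nat_lit 68) r4_82 r6_68 (nat_lit 0) (nat_lit 0) (nat_lit 0) (nat_lit 0x802f01e94) (nat_lit 1070886824),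
  Rx.mk (nat_lit 443) (nat_lit 3) (nat_lit 7) (nat_lit 6) (nat_lit 7) (nat_lit 83) (nat_lit 69) r4_83 r6_69 (nat_lit 0) (nat_lit 0) (nat_lit 0) (nat_lit 0x80040e246) (nat_lit 1073614524),
  Rx.mk (nat_lit 472) (nat_lit 0) (nat_lit 3) (nat_lit 7) (nat_lit 6) (nat_lit 84) (nat_lit 59) r4_84 r6_59 (nat_lit 882081) (nat_lit 0) (nat_lit 0) (nat_lit 0x802bbc932) (nat_lit 1071969705),
  Rx.mk (nat_lit 473) (nat_lit 1) (nat_lit 3) (nat_lit 7) (nat_lit 7) (nat_lit 85) (nat_lit 60) r4_85 r6_60 (nat_lit 0) (nat_lit 0) (nat_lit 0) (nat_lit 0x80900e8b8) (nat_lit 1064743624),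
  Rx.mk (nat_lit 474) (nat_lit 2) (nat_lit 3) (nat_lit 7) (nat_lit 7) (nat_lit 86) (nat_lit 61) r4_86 r6_61 (nat_lit 0) (nat_lit 0) (nat_lit 0) (nat_lit 0x809f929ec) (nat_lit 1063761924),
  Rx.mk (nat_lit 504) (nat_lit 0) (nat_lit 7) (nat_lit 7) (nat_lit 6) (nat_lit 87) (nat_lit 65) r4_87 r6_65 (nat_lit 1499729) (nat_lit 0) (nat_lit 0) (nat_lit 0x80082f4b0) (nat_lit 1074869353),
  Rx.mk (nat_lit 505) (nat_lit 1) (nat_lit 7) (nat_lit 7) (nat_lit 7) (nat_lit 88) (nat_lit 66) r4_88 r6_66 (nat_lit 0) (nat_lit 0) (nat_lit 0) (nat_lit 0x802e4a924) (nat_lit 1070947924)]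
noncomputable def e18_36 : List Rx := [
  Rx.mk (nat_lit 280) (nat_lit 0) (nat_lit 3) (nat_lit 4) (nat_lit 2) (nat_lit 241) (nat_lit 126) r4_241 r12_126 (nat_lit 4959) (nat_lit 0) (nat_lit 7512) (nat_lit 0x740a9ac7e) (nat_lit 1273141595),
  Rx.mk (nat_lit 281) (nat_lit 1) (nat_lit 3) (nat_lit 4) (nat_lit 3) (nat_lit 242) (nat_lit 130) r4_242 r12_130 (nat_lit 0) (nat_lit 0) (nat_lit 1474755) (nat_lit 0x7fc5e39c6) (nat_lit 1079117479),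
  Rx.mk (nat_lit 282) (nat_lit 2) (nat_lit 3) (nat_lit 4) (nat_lit 3) (nat_lit 243) (nat_lit 136) r4_243 r12_136 (nat_lit 0) (nat_lit 0) (nat_lit 2620997) (nat_lit 0x805ae309e) (nat_lit 1070736421),
  Rx.mk (nat_lit 312) (nat_lit 0) (nat_lit 7) (nat_lit 4) (nat_lit 2) (nat_lit 244) (nat_lit 128) r4_244 r12_128 (nat_lit 92132) (nat_lit 0) (nat_lit 345777) (nat_lit 0x669218308) (nat_lit 1498185533),
  Rx.mk (nat_lit 313) (nat_lit 1) (nat_lit 7) (nat_lit 4) (nat_lit 3) (nat_lit 245) (nat_lit 132) r4_245 r12_132 (nat_lit 0) (nat_lit 0) (nat_lit 2731196) (nat_lit 0x7f937f28c) (nat_lit 1083641920),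
  Rx.mk (nat_lit 315) (nat_lit 3) (nat_lit 7) (nat_lit 4) (nat_lit 3) (nat_lit 246) (nat_lit 134) r4_246 r12_134 (nat_lit 0) (nat_lit 0) (nat_lit 2418689) (nat_lit 0x799f9ba12) (nat_lit 1182552513),
  Rx.mk (nat_lit 440) (nat_lit 0) (nat_lit 7) (nat_lit 6) (nat_lit 6) (nat_lit 247) (nat_lit 129) r4_247 r12_129 (nat_lit 27079) (nat_lit 0) (nat_lit 0) (nat_lit 0x4f6309a74) (nat_lit 1884305203),
  Rx.mk (nat_lit 441) (nat_lit 1) (nat_lit 7) (nat_lit 6) (nat_lit 7) (nat_lit 248) (nat_lit 133) r4_248 r12_133 (nat_lit 0) (nat_lit 0) (nat_lit 0) (nat_lit 0x7cc23aad4) (nat_lit 1127844724),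
  Rx.mk (nat_lit 443) (nat_lit 3) (nat_lit 7) (nat_lit 6) (nat_lit 7) (nat_lit 249) (nat_lit 135) r4_249 r12_135 (nat_lit 0) (nat_lit 0) (nat_lit 0) (nat_lit 0x789ee7f22) (nat_lit 1196826224),
  Rx.mk (nat_lit 472) (nat_lit 0) (nat_lit 3) (nat_lit 7) (nat_lit 6) (nat_lit 250) (nat_lit 127) r4_250 r12_127 (nat_lit 634217) (nat_lit 0) (nat_lit 0) (nat_lit 0x80e08e356) (nat_lit 1060265941),
  Rx.mk (nat_lit 473) (nat_lit 1) (nat_lit 3) (nat_lit 7) (nat_lit 7) (nat_lit 251) (nat_lit 131) r4_251 r12_131 (nat_lit 0) (nat_lit 0) (nat_lit 0) (nat_lit 0x80e0ca86a) (nat_lit 1059635624),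
  Rx.mk (nat_lit 474) (nat_lit 2) (nat_lit 3) (nat_lit 7) (nat_lit 7) (nat_lit 252) (nat_lit 137) r4_252 r12_137 (nat_lit 0) (nat_lit 0) (nat_lit 0) (nat_lit 0x80b8f660e) (nat_lit 1062154324)]
noncomputable def e18_37 : List Rx := [
  Rx.mk (nat_lit 289) (nat_lit 1) (nat_lit 4) (nat_lit 4) (nat_lit 1) (nat_lit 155) (nat_lit 318) r4_155 r0_318 (nat_lit 0) (nat_lit 781143) (nat_lit 232268791) (nat_lit 0x6adf8057e) (nat_lit 1659098658),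
  Rx.mk (nat_lit 297) (nat_lit 1) (nat_lit 5) (nat_lit 4) (nat_lit 3) (nat_lit 156) (nat_lit 319) r4_156 r0_319 (nat_lit 0) (nat_lit 0) (nat_lit 4017845) (nat_lit 0x7ff75e168) (nat_lit 1078479169),
  Rx.mk (nat_lit 417) (nat_lit 1) (nat_lit 4) (nat_lit 6) (nat_lit 5) (nat_lit 157) (nat_lit 320) r4_157 r0_320 (nat_lit 0) (nat_lit 2184780) (nat_lit 0) (nat_lit 0x7aab2db36) (nat_lit 1164898604),
  Rx.mk (nat_lit 425) (nat_lit 1) (nat_lit 5) (nat_lit 6) (nat_lit 7) (nat_lit 158) (nat_lit 321) r4_158 r0_321 (nat_lit 0) (nat_lit 0) (nat_lit 0) (nat_lit 0x8052c65be) (nat_lit 1068627724)]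
noncomputable def e18_38 : List Rx := [
  Rx.mk (nat_lit 417) (nat_lit 1) (nat_lit 4) (nat_lit 6) (nat_lit 5) (nat_lit 68) (nat_lit 79) r4_68 r0_79 (nat_lit 0) (nat_lit 1845209) (nat_lit 0) (nat_lit 0x6d5c42330) (nat_lit 1386432233),
  Rx.mk (nat_lit 421) (nat_lit 5) (nat_lit 4) (nat_lit 6) (nat_lit 5) (nat_lit 69) (nat_lit 80) r4_69 r0_80 (nat_lit 0) (nat_lit 2927812) (nat_lit 0) (nat_lit 0x7f9b05e02) (nat_lit 1083361236),
  Rx.mk (nat_lit 445) (nat_lit 5) (nat_lit 7) (nat_lit 6) (nat_lit 7) (nat_lit 70) (nat_lit 81) r4_70 r0_81 (nat_lit 0) (nat_lit 0) (nat_lit 0) (nat_lit 0x7fdf910da) (nat_lit 1075963024)]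
noncomputable def e18_39 : List Rx := [
  Rx.mk (nat_lit 289) (nat_lit 1) (nat_lit 4) (nat_lit 4) (nat_lit 1) (nat_lit 167) (nat_lit 427) r4_167 r7_427 (nat_lit 0) (nat_lit 2628537) (nat_lit 6409400) (nat_lit 0x64e7bb690) (nat_lit 1534609061),
  Rx.mk (nat_lit 297) (nat_lit 1) (nat_lit 5) (nat_lit 4) (nat_lit 3) (nat_lit 168) (nat_lit 428) r4_168 r7_428 (nat_lit 0) (nat_lit 0) (nat_lit 4040041) (nat_lit 0x8012909e0) (nat_lit 1076761165),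
  Rx.mk (nat_lit 417) (nat_lit 1) (nat_lit 4) (nat_lit 6) (nat_lit 5) (nat_lit 169) (nat_lit 429) r4_169 r7_429 (nat_lit 0) (nat_lit 1693168) (nat_lit 0) (nat_lit 0x7fb51bd00) (nat_lit 1080428292),
  Rx.mk (nat_lit 421) (nat_lit 5) (nat_lit 4) (nat_lit 6) (nat_lit 5) (nat_lit 170) (nat_lit 424) r4_170 r7_424 (nat_lit 0) (nat_lit 2874909) (nat_lit 0) (nat_lit 0x8041c95d6) (nat_lit 1072582433),
  Rx.mk (nat_lit 425) (nat_lit 1) (nat_lit 5) (nat_lit 6) (nat_lit 7) (nat_lit 171) (nat_lit 430) r4_171 r7_430 (nat_lit 0) (nat_lit 0) (nat_lit 0) (nat_lit 0x8073a79e0) (nat_lit 1066541824),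
  Rx.mk (nat_lit 429) (nat_lit 5) (nat_lit 5) (nat_lit 6) (nat_lit 7) (nat_lit 172) (nat_lit 425) r4_172 r7_425 (nat_lit 0) (nat_lit 0) (nat_lit 0) (nat_lit 0x80261c34c) (nat_lit 1071470624),
  Rx.mk (nat_lit 445) (nat_lit 5) (nat_lit 7) (nat_lit 6) (nat_lit 7) (nat_lit 173) (nat_lit 426) r4_173 r7_426 (nat_lit 0) (nat_lit 0) (nat_lit 0) (nat_lit 0x80261c34c) (nat_lit 1071470624)]
noncomputable def e18_40 : List Rx := [
  Rx.mk (nat_lit 180) (nat_lit 4) (nat_lit 6) (nat_lit 2) (nat_lit 6) (nat_lit 21) (nat_lit 89) r4_21 r2_89 (nat_lit 3660100) (nat_lit 0) (nat_lit 0) (nat_lit 0x8028ab1a8) (nat_lit 1074969124),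
  Rx.mk (nat_lit 181) (nat_lit 5) (nat_lit 6) (nat_lit 2) (nat_lit 7) (nat_lit 22) (nat_lit 90) r4_22 r2_90 (nat_lit 0) (nat_lit 0) (nat_lit 0) (nat_lit 0x80029938e) (nat_lit 1073741824),
  Rx.mk (nat_lit 182) (nat_lit 6) (nat_lit 6) (nat_lit 2) (nat_lit 7) (nat_lit 23) (nat_lit 91) r4_23 r2_91 (nat_lit 0) (nat_lit 0) (nat_lit 0) (nat_lit 0x80029938e) (nat_lit 1073741824),
  Rx.mk (nat_lit 420) (nat_lit 4) (nat_lit 4) (nat_lit 6) (nat_lit 4) (nat_lit 24) (nat_lit 84) r4_24 r2_84 (nat_lit 2064465) (nat_lit 5168713) (nat_lit 0) (nat_lit 0x73a0c98a4) (nat_lit 1287332102),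
  Rx.mk (nat_lit 421) (nat_lit 5) (nat_lit 4) (nat_lit 6) (nat_lit 5) (nat_lit 25) (nat_lit 85) r4_25 r2_85 (nat_lit 0) (nat_lit 5449534) (nat_lit 0) (nat_lit 0x8013ee13e) (nat_lit 1078081258),
  Rx.mk (nat_lit 436) (nat_lit 4) (nat_lit 6) (nat_lit 6) (nat_lit 6) (nat_lit 26) (nat_lit 92) r4_26 r2_92 (nat_lit 3829066) (nat_lit 0) (nat_lit 0) (nat_lit 0x8024942a4) (nat_lit 1075399190),
  Rx.mk (nat_lit 437) (nat_lit 5) (nat_lit 6) (nat_lit 6) (nat_lit 7) (nat_lit 27) (nat_lit 93) r4_27 r2_93 (nat_lit 0) (nat_lit 0) (nat_lit 0) (nat_lit 0x80029938e) (nat_lit 1073741824),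
  Rx.mk (nat_lit 444) (nat_lit 4) (nat_lit 7) (nat_lit 6) (nat_lit 6) (nat_lit 28) (nat_lit 86) r4_28 r2_86 (nat_lit 981855) (nat_lit 0) (nat_lit 0) (nat_lit 0x81f2f3770) (nat_lit 1043286379),
  Rx.mk (nat_lit 445) (nat_lit 5) (nat_lit 7) (nat_lit 6) (nat_lit 7) (nat_lit 29) (nat_lit 87) r4_29 r2_87 (nat_lit 0) (nat_lit 0) (nat_lit 0) (nat_lit 0x80b67c950) (nat_lit 1062312624),
  Rx.mk (nat_lit 447) (nat_lit 7) (nat_lit 7) (nat_lit 6) (nat_lit 7) (nat_lit 30) (nat_lit 88) r4_30 r2_88 (nat_lit 0) (nat_lit 0) (nat_lit 0) (nat_lit 0x80a87cb7a) (nat_lit 1063197724)]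
noncomputable def e18_41 : List Rx := [
  Rx.mk (nat_lit 180) (nat_lit 4) (nat_lit 6) (nat_lit 2) (nat_lit 6) (nat_lit 144) (nat_lit 56) r4_144 r9_56 (nat_lit 5449534) (nat_lit 0) (nat_lit 0) (nat_lit 0x80029938e) (nat_lit 1079191358),
  Rx.mk (nat_lit 181) (nat_lit 5) (nat_lit 6) (nat_lit 2) (nat_lit 7) (nat_lit 145) (nat_lit 57) r4_145 r9_57 (nat_lit 0) (nat_lit 0) (nat_lit 0) (nat_lit 0x80029938e) (nat_lit 1073741824),
  Rx.mk (nat_lit 182) (nat_lit 6) (nat_lit 6) (nat_lit 2) (nat_lit 7) (nat_lit 146) (nat_lit 58) r4_146 r9_58 (nat_lit 0) (nat_lit 0) (nat_lit 0) (nat_lit 0x80029938e) (nat_lit 1073741824),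
  Rx.mk (nat_lit 420) (nat_lit 4) (nat_lit 4) (nat_lit 6) (nat_lit 4) (nat_lit 147) (nat_lit 50) r4_147 r9_50 (nat_lit 3884477) (nat_lit 4618202) (nat_lit 0) (nat_lit 0x668e28a5e) (nat_lit 1506571703),
  Rx.mk (nat_lit 421) (nat_lit 5) (nat_lit 4) (nat_lit 6) (nat_lit 5) (nat_lit 148) (nat_lit 51) r4_148 r9_51 (nat_lit 0) (nat_lit 5449534) (nat_lit 0) (nat_lit 0x80029938e) (nat_lit 1079191358),
  Rx.mk (nat_lit 429) (nat_lit 5) (nat_lit 5) (nat_lit 6) (nat_lit 7) (nat_lit 149) (nat_lit 52) r4_149 r9_52 (nat_lit 0) (nat_lit 0) (nat_lit 0) (nat_lit 0x80029938e) (nat_lit 1073741824),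
  Rx.mk (nat_lit 436) (nat_lit 4) (nat_lit 6) (nat_lit 6) (nat_lit 6) (nat_lit 150) (nat_lit 59) r4_150 r9_59 (nat_lit 5449534) (nat_lit 0) (nat_lit 0) (nat_lit 0x80029938e) (nat_lit 1079191358),
  Rx.mk (nat_lit 437) (nat_lit 5) (nat_lit 6) (nat_lit 6) (nat_lit 7) (nat_lit 151) (nat_lit 60) r4_151 r9_60 (nat_lit 0) (nat_lit 0) (nat_lit 0) (nat_lit 0x80029938e) (nat_lit 1073741824),
  Rx.mk (nat_lit 444) (nat_lit 4) (nat_lit 7) (nat_lit 6) (nat_lit 6) (nat_lit 152) (nat_lit 53) r4_152 r9_53 (nat_lit 5449534) (nat_lit 0) (nat_lit 0) (nat_lit 0x80029938e) (nat_lit 1079191358),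
  Rx.mk (nat_lit 445) (nat_lit 5) (nat_lit 7) (nat_lit 6) (nat_lit 7) (nat_lit 153) (nat_lit 54) r4_153 r9_54 (nat_lit 0) (nat_lit 0) (nat_lit 0) (nat_lit 0x80029938e) (nat_lit 1073741824),
  Rx.mk (nat_lit 447) (nat_lit 7) (nat_lit 7) (nat_lit 6) (nat_lit 7) (nat_lit 154) (nat_lit 55) r4_154 r9_55 (nat_lit 0) (nat_lit 0) (nat_lit 0) (nat_lit 0x80029938e) (nat_lit 1073741824)]
noncomputable def e18_42 : List Rx := [
  Rx.mk (nat_lit 180) (nat_lit 4) (nat_lit 6) (nat_lit 2) (nat_lit 6) (nat_lit 128) (nat_lit 15) r4_128 r9_15 (nat_lit 5449534) (nat_lit 0) (nat_lit 0) (nat_lit 0x80029938e) (nat_lit 1079191358),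
  Rx.mk (nat_lit 181) (nat_lit 5) (nat_lit 6) (nat_lit 2) (nat_lit 7) (nat_lit 129) (nat_lit 16) r4_129 r9_16 (nat_lit 0) (nat_lit 0) (nat_lit 0) (nat_lit 0x80029938e) (nat_lit 1073741824),
  Rx.mk (nat_lit 182) (nat_lit 6) (nat_lit 6) (nat_lit 2) (nat_lit 7) (nat_lit 130) (nat_lit 17) r4_130 r9_17 (nat_lit 0) (nat_lit 0) (nat_lit 0) (nat_lit 0x80029938e) (nat_lit 1073741824)]
noncomputable def e18_43 : List Rx := [
  Rx.mk (nat_lit 421) (nat_lit 5) (nat_lit 4) (nat_lit 6) (nat_lit 5) (nat_lit 71) (nat_lit 85) r4_71 r1_85 (nat_lit 0) (nat_lit 3320491) (nat_lit 0) (nat_lit 0x800fb1fc6) (nat_lit 1076215615),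
  Rx.mk (nat_lit 437) (nat_lit 5) (nat_lit 6) (nat_lit 6) (nat_lit 7) (nat_lit 72) (nat_lit 87) r4_72 r1_87 (nat_lit 0) (nat_lit 0) (nat_lit 0) (nat_lit 0x805852a1e) (nat_lit 1068275824),
  Rx.mk (nat_lit 445) (nat_lit 5) (nat_lit 7) (nat_lit 6) (nat_lit 7) (nat_lit 73) (nat_lit 86) r4_73 r1_86 (nat_lit 0) (nat_lit 0) (nat_lit 0) (nat_lit 0x85e8fa242) (nat_lit 978250424)]
noncomputable def e18_44 : List Rx := [
  Rx.mk (nat_lit 421) (nat_lit 5) (nat_lit 4) (nat_lit 6) (nat_lit 5) (nat_lit 177) (nat_lit 351) r4_177 r8_351 (nat_lit 0) (nat_lit 4339618) (nat_lit 0) (nat_lit 0x8014a6cb6) (nat_lit 1076925342),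
  Rx.mk (nat_lit 429) (nat_lit 5) (nat_lit 5) (nat_lit 6) (nat_lit 7) (nat_lit 178) (nat_lit 352) r4_178 r8_352 (nat_lit 0) (nat_lit 0) (nat_lit 0) (nat_lit 0x80029938e) (nat_lit 1073741824),
  Rx.mk (nat_lit 437) (nat_lit 5) (nat_lit 6) (nat_lit 6) (nat_lit 7) (nat_lit 179) (nat_lit 354) r4_179 r8_354 (nat_lit 0) (nat_lit 0) (nat_lit 0) (nat_lit 0x80029938e) (nat_lit 1073741824),
  Rx.mk (nat_lit 445) (nat_lit 5) (nat_lit 7) (nat_lit 6) (nat_lit 7) (nat_lit 180) (nat_lit 353) r4_180 r8_353 (nat_lit 0) (nat_lit 0) (nat_lit 0) (nat_lit 0x80029938e) (nat_lit 1073741824)]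
noncomputable def e18_45 : List Rx := [
  Rx.mk (nat_lit 297) (nat_lit 1) (nat_lit 5) (nat_lit 4) (nat_lit 3) (nat_lit 159) (nat_lit 305) r4_159 r1_305 (nat_lit 0) (nat_lit 0) (nat_lit 4876673) (nat_lit 0x80153f8c6) (nat_lit 1077419097),
  Rx.mk (nat_lit 425) (nat_lit 1) (nat_lit 5) (nat_lit 6) (nat_lit 7) (nat_lit 160) (nat_lit 306) r4_160 r1_306 (nat_lit 0) (nat_lit 0) (nat_lit 0) (nat_lit 0x802b28bc4) (nat_lit 1071147124)]
noncomputable def e18_46 : List Rx := [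
  Rx.mk (nat_lit 265) (nat_lit 1) (nat_lit 1) (nat_lit 4) (nat_lit 3) (nat_lit 299) (nat_lit 350) r4_299 r2_350 (nat_lit 0) (nat_lit 0) (nat_lit 10500472) (nat_lit 0x7e885e7aa) (nat_lit 1108800696),
  Rx.mk (nat_lit 297) (nat_lit 1) (nat_lit 5) (nat_lit 4) (nat_lit 3) (nat_lit 300) (nat_lit 349) r4_300 r2_349 (nat_lit 0) (nat_lit 0) (nat_lit 5449534) (nat_lit 0x7ff8e874a) (nat_lit 1079813058),
  Rx.mk (nat_lit 329) (nat_lit 1) (nat_lit 1) (nat_lit 5) (nat_lit 7) (nat_lit 301) (nat_lit 352) r4_301 r2_352 (nat_lit 0) (nat_lit 0) (nat_lit 0) (nat_lit 0x80029938e) (nat_lit 1073741824),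
  Rx.mk (nat_lit 361) (nat_lit 1) (nat_lit 5) (nat_lit 5) (nat_lit 7) (nat_lit 302) (nat_lit 351) r4_302 r2_351 (nat_lit 0) (nat_lit 0) (nat_lit 0) (nat_lit 0x80029938e) (nat_lit 1073741824),
  Rx.mk (nat_lit 425) (nat_lit 1) (nat_lit 5) (nat_lit 6) (nat_lit 7) (nat_lit 303) (nat_lit 353) r4_303 r2_353 (nat_lit 0) (nat_lit 0) (nat_lit 0) (nat_lit 0x80029938e) (nat_lit 1073741824)]
noncomputable def e18_47 : List Rx := [
  Rx.mk (nat_lit 297) (nat_lit 1) (nat_lit 5) (nat_lit 4) (nat_lit 3) (nat_lit 174) (nat_lit 68) r4_174 r8_68 (nat_lit 0) (nat_lit 0) (nat_lit 4037317) (nat_lit 0x80012bc36) (nat_lit 1077868841),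
  Rx.mk (nat_lit 425) (nat_lit 1) (nat_lit 5) (nat_lit 6) (nat_lit 7) (nat_lit 175) (nat_lit 69) r4_175 r8_69 (nat_lit 0) (nat_lit 0) (nat_lit 0) (nat_lit 0x80293ab46) (nat_lit 1071270624),
  Rx.mk (nat_lit 429) (nat_lit 5) (nat_lit 5) (nat_lit 6) (nat_lit 7) (nat_lit 176) (nat_lit 70) r4_176 r8_70 (nat_lit 0) (nat_lit 0) (nat_lit 0) (nat_lit 0x80029938e) (nat_lit 1073741824)]
noncomputable def e18_48 : List Rx := [
  Rx.mk (nat_lit 265) (nat_lit 1) (nat_lit 1) (nat_lit 4) (nat_lit 3) (nat_lit 309) (nat_lit 313) r4_309 r9_313 (nat_lit 0) (nat_lit 0) (nat_lit 7165293) (nat_lit 0x7f99d7f58) (nat_lit 1087672217),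
  Rx.mk (nat_lit 297) (nat_lit 1) (nat_lit 5) (nat_lit 4) (nat_lit 3) (nat_lit 310) (nat_lit 312) r4_310 r9_312 (nat_lit 0) (nat_lit 0) (nat_lit 5449534) (nat_lit 0x7fff43810) (nat_lit 1079405158),
  Rx.mk (nat_lit 329) (nat_lit 1) (nat_lit 1) (nat_lit 5) (nat_lit 7) (nat_lit 311) (nat_lit 315) r4_311 r9_315 (nat_lit 0) (nat_lit 0) (nat_lit 0) (nat_lit 0x80029938e) (nat_lit 1073741824),
  Rx.mk (nat_lit 361) (nat_lit 1) (nat_lit 5) (nat_lit 5) (nat_lit 7) (nat_lit 312) (nat_lit 314) r4_312 r9_314 (nat_lit 0) (nat_lit 0) (nat_lit 0) (nat_lit 0x80029938e) (nat_lit 1073741824),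
  Rx.mk (nat_lit 425) (nat_lit 1) (nat_lit 5) (nat_lit 6) (nat_lit 7) (nat_lit 313) (nat_lit 316) r4_313 r9_316 (nat_lit 0) (nat_lit 0) (nat_lit 0) (nat_lit 0x80029938e) (nat_lit 1073741824),
  Rx.mk (nat_lit 429) (nat_lit 5) (nat_lit 5) (nat_lit 6) (nat_lit 7) (nat_lit 314) (nat_lit 311) r4_314 r9_311 (nat_lit 0) (nat_lit 0) (nat_lit 0) (nat_lit 0x80029938e) (nat_lit 1073741824)]
noncomputable def e18_49 : List Rx := [
  Rx.mk (nat_lit 329) (nat_lit 1) (nat_lit 1) (nat_lit 5) (nat_lit 7) (nat_lit 307) (nat_lit 305) r4_307 r9_305 (nat_lit 0) (nat_lit 0) (nat_lit 0) (nat_lit 0x80029938e) (nat_lit 1073741824),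
  Rx.mk (nat_lit 361) (nat_lit 1) (nat_lit 5) (nat_lit 5) (nat_lit 7) (nat_lit 308) (nat_lit 306) r4_308 r9_306 (nat_lit 0) (nat_lit 0) (nat_lit 0) (nat_lit 0x80029938e) (nat_lit 1073741824)]
noncomputable def e18_50 : List Rx := [
  Rx.mk (nat_lit 313) (nat_lit 1) (nat_lit 7) (nat_lit 4) (nat_lit 3) (nat_lit 65) (nat_lit 322) r4_65 r3_322 (nat_lit 0) (nat_lit 0) (nat_lit 5075) (nat_lit 0x7fff94c6a) (nat_lit 1073774799),
  Rx.mk (nat_lit 417) (nat_lit 1) (nat_lit 4) (nat_lit 6) (nat_lit 5) (nat_lit 66) (nat_lit 323) r4_66 r3_323 (nat_lit 0) (nat_lit 59693) (nat_lit 0) (nat_lit 0x82d304170) (nat_lit 1028137517),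
  Rx.mk (nat_lit 441) (nat_lit 1) (nat_lit 7) (nat_lit 6) (nat_lit 7) (nat_lit 67) (nat_lit 324) r4_67 r3_324 (nat_lit 0) (nat_lit 0) (nat_lit 0) (nat_lit 0x81c174334) (nat_lit 1045360024)]
noncomputable def e18_51 : List Rx := [
  Rx.mk (nat_lit 289) (nat_lit 1) (nat_lit 4) (nat_lit 4) (nat_lit 1) (nat_lit 161) (nat_lit 349) r4_161 r4_349 (nat_lit 0) (nat_lit 2616584) (nat_lit 8619398) (nat_lit 0x73ea8d198) (nat_lit 1286528806),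
  Rx.mk (nat_lit 297) (nat_lit 1) (nat_lit 5) (nat_lit 4) (nat_lit 3) (nat_lit 162) (nat_lit 350) r4_162 r4_350 (nat_lit 0) (nat_lit 0) (nat_lit 5449534) (nat_lit 0x802346fd2) (nat_lit 1077099558),
  Rx.mk (nat_lit 313) (nat_lit 1) (nat_lit 7) (nat_lit 4) (nat_lit 3) (nat_lit 163) (nat_lit 351) r4_163 r4_351 (nat_lit 0) (nat_lit 0) (nat_lit 8320896) (nat_lit 0x804e26a54) (nat_lit 1077233520),
  Rx.mk (nat_lit 417) (nat_lit 1) (nat_lit 4) (nat_lit 6) (nat_lit 5) (nat_lit 164) (nat_lit 352) r4_164 r4_352 (nat_lit 0) (nat_lit 2457581) (nat_lit 0) (nat_lit 0x8015711e6) (nat_lit 1074979605),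
  Rx.mk (nat_lit 425) (nat_lit 1) (nat_lit 5) (nat_lit 6) (nat_lit 7) (nat_lit 165) (nat_lit 353) r4_165 r4_353 (nat_lit 0) (nat_lit 0) (nat_lit 0) (nat_lit 0x805278670) (nat_lit 1068646324),
  Rx.mk (nat_lit 441) (nat_lit 1) (nat_lit 7) (nat_lit 6) (nat_lit 7) (nat_lit 166) (nat_lit 354) r4_166 r4_354 (nat_lit 0) (nat_lit 0) (nat_lit 0) (nat_lit 0x8054e1330) (nat_lit 1068491824)]
noncomputable def e18_52 : List Rx := [
  Rx.mk (nat_lit 313) (nat_lit 1) (nat_lit 7) (nat_lit 4) (nat_lit 3) (nat_lit 224) (nat_lit 305) r4_224 r5_305 (nat_lit 0) (nat_lit 0) (nat_lit 123837254) (nat_lit 0x7ffc69400) (nat_lit 1197837578),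
  Rx.mk (nat_lit 441) (nat_lit 1) (nat_lit 7) (nat_lit 6) (nat_lit 7) (nat_lit 225) (nat_lit 306) r4_225 r5_306 (nat_lit 0) (nat_lit 0) (nat_lit 0) (nat_lit 0x805afa622) (nat_lit 1068090724)]
noncomputable def e18_53 : List Rx := [
  Rx.mk (nat_lit 313) (nat_lit 1) (nat_lit 7) (nat_lit 4) (nat_lit 3) (nat_lit 74) (nat_lit 75) r4_74 r4_75 (nat_lit 0) (nat_lit 0) (nat_lit 3555733) (nat_lit 0x7fb0de184) (nat_lit 1082569857),
  Rx.mk (nat_lit 417) (nat_lit 1) (nat_lit 4) (nat_lit 6) (nat_lit 5) (nat_lit 75) (nat_lit 74) r4_75 r4_74 (nat_lit 0) (nat_lit 3555733) (nat_lit 0) (nat_lit 0x7fb0de184) (nat_lit 1082569857),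
  Rx.mk (nat_lit 441) (nat_lit 1) (nat_lit 7) (nat_lit 6) (nat_lit 7) (nat_lit 76) (nat_lit 76) r4_76 r4_76 (nat_lit 0) (nat_lit 0) (nat_lit 0) (nat_lit 0x8003ab678) (nat_lit 1073517324),
  Rx.mk (nat_lit 445) (nat_lit 5) (nat_lit 7) (nat_lit 6) (nat_lit 7) (nat_lit 77) (nat_lit 77) r4_77 r4_77 (nat_lit 0) (nat_lit 0) (nat_lit 0) (nat_lit 0x8074beab8) (nat_lit 1066472324)]
noncomputable def e18_54 : List Rx := [
  Rx.mk (nat_lit 289) (nat_lit 1) (nat_lit 4) (nat_lit 4) (nat_lit 1) (nat_lit 181) (nat_lit 351) r4_181 r10_351 (nat_lit 0) (nat_lit 2071508) (nat_lit 5552411) (nat_lit 0x6601e5042) (nat_lit 1514816043),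
  Rx.mk (nat_lit 297) (nat_lit 1) (nat_lit 5) (nat_lit 4) (nat_lit 3) (nat_lit 182) (nat_lit 352) r4_182 r10_352 (nat_lit 0) (nat_lit 0) (nat_lit 4412645) (nat_lit 0x802289f68) (nat_lit 1076111669),
  Rx.mk (nat_lit 313) (nat_lit 1) (nat_lit 7) (nat_lit 4) (nat_lit 3) (nat_lit 183) (nat_lit 353) r4_183 r10_353 (nat_lit 0) (nat_lit 0) (nat_lit 5474881) (nat_lit 0x7fdff8ef6) (nat_lit 1081440905),
  Rx.mk (nat_lit 417) (nat_lit 1) (nat_lit 4) (nat_lit 6) (nat_lit 5) (nat_lit 184) (nat_lit 354) r4_184 r10_354 (nat_lit 0) (nat_lit 1895394) (nat_lit 0) (nat_lit 0x80303ef3c) (nat_lit 1072711218),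
  Rx.mk (nat_lit 425) (nat_lit 1) (nat_lit 5) (nat_lit 6) (nat_lit 7) (nat_lit 185) (nat_lit 355) r4_185 r10_355 (nat_lit 0) (nat_lit 0) (nat_lit 0) (nat_lit 0x805b35a60) (nat_lit 1068092224),
  Rx.mk (nat_lit 441) (nat_lit 1) (nat_lit 7) (nat_lit 6) (nat_lit 7) (nat_lit 186) (nat_lit 356) r4_186 r10_356 (nat_lit 0) (nat_lit 0) (nat_lit 0) (nat_lit 0x805b35a60) (nat_lit 1068092224),
  Rx.mk (nat_lit 445) (nat_lit 5) (nat_lit 7) (nat_lit 6) (nat_lit 7) (nat_lit 187) (nat_lit 350) r4_187 r10_350 (nat_lit 0) (nat_lit 0) (nat_lit 0) (nat_lit 0x8018b37f0) (nat_lit 1072325924)]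
noncomputable def e18_55 : List Rx := [
  Rx.mk (nat_lit 313) (nat_lit 1) (nat_lit 7) (nat_lit 4) (nat_lit 3) (nat_lit 226) (nat_lit 358) r4_226 r11_358 (nat_lit 0) (nat_lit 0) (nat_lit 2508955) (nat_lit 0x803850888) (nat_lit 1072812579),
  Rx.mk (nat_lit 441) (nat_lit 1) (nat_lit 7) (nat_lit 6) (nat_lit 7) (nat_lit 227) (nat_lit 359) r4_227 r11_359 (nat_lit 0) (nat_lit 0) (nat_lit 0) (nat_lit 0x86812eb26) (nat_lit 968635724),
  Rx.mk (nat_lit 445) (nat_lit 5) (nat_lit 7) (nat_lit 6) (nat_lit 7) (nat_lit 228) (nat_lit 357) r4_228 r11_357 (nat_lit 0) (nat_lit 0) (nat_lit 0) (nat_lit 0x841e5b4ec) (nat_lit 1007221824)]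
noncomputable def e18_56 : List Rx := [
  Rx.mk (nat_lit 313) (nat_lit 1) (nat_lit 7) (nat_lit 4) (nat_lit 3) (nat_lit 89) (nat_lit 67) r4_89 r5_67 (nat_lit 0) (nat_lit 0) (nat_lit 1849300) (nat_lit 0x80a4c2070) (nat_lit 1065275624),
  Rx.mk (nat_lit 417) (nat_lit 1) (nat_lit 4) (nat_lit 6) (nat_lit 5) (nat_lit 90) (nat_lit 66) r4_90 r5_66 (nat_lit 0) (nat_lit 2225241) (nat_lit 0) (nat_lit 0x82f6d0388) (nat_lit 1028114265),
  Rx.mk (nat_lit 441) (nat_lit 1) (nat_lit 7) (nat_lit 6) (nat_lit 7) (nat_lit 91) (nat_lit 69) r4_91 r5_69 (nat_lit 0) (nat_lit 0) (nat_lit 0) (nat_lit 0x882e63412) (nat_lit 941518924),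
  Rx.mk (nat_lit 505) (nat_lit 1) (nat_lit 7) (nat_lit 7) (nat_lit 7) (nat_lit 92) (nat_lit 68) r4_92 r5_68 (nat_lit 0) (nat_lit 0) (nat_lit 0) (nat_lit 0x8060f33a8) (nat_lit 1067721724)]
noncomputable def e18_57 : List Rx := [
  Rx.mk (nat_lit 289) (nat_lit 1) (nat_lit 4) (nat_lit 4) (nat_lit 1) (nat_lit 188) (nat_lit 46) r4_188 r11_46 (nat_lit 0) (nat_lit 6680725) (nat_lit 6612068) (nat_lit 0x79a993826) (nat_lit 1192788117),
  Rx.mk (nat_lit 297) (nat_lit 1) (nat_lit 5) (nat_lit 4) (nat_lit 3) (nat_lit 189) (nat_lit 48) r4_189 r11_48 (nat_lit 0) (nat_lit 0) (nat_lit 5449534) (nat_lit 0x801d47abe) (nat_lit 1077482658),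
  Rx.mk (nat_lit 313) (nat_lit 1) (nat_lit 7) (nat_lit 4) (nat_lit 3) (nat_lit 190) (nat_lit 50) r4_190 r11_50 (nat_lit 0) (nat_lit 0) (nat_lit 5449534) (nat_lit 0x801061480) (nat_lit 1078306558),
  Rx.mk (nat_lit 417) (nat_lit 1) (nat_lit 4) (nat_lit 6) (nat_lit 5) (nat_lit 191) (nat_lit 47) r4_191 r11_47 (nat_lit 0) (nat_lit 2822132) (nat_lit 0) (nat_lit 0x80298ddc8) (nat_lit 1074069156),
  Rx.mk (nat_lit 425) (nat_lit 1) (nat_lit 5) (nat_lit 6) (nat_lit 7) (nat_lit 192) (nat_lit 49) r4_192 r11_49 (nat_lit 0) (nat_lit 0) (nat_lit 0) (nat_lit 0x80342afb0) (nat_lit 1070573324),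
  Rx.mk (nat_lit 441) (nat_lit 1) (nat_lit 7) (nat_lit 6) (nat_lit 7) (nat_lit 193) (nat_lit 52) r4_193 r11_52 (nat_lit 0) (nat_lit 0) (nat_lit 0) (nat_lit 0x80342afb0) (nat_lit 1070573324),
  Rx.mk (nat_lit 505) (nat_lit 1) (nat_lit 7) (nat_lit 7) (nat_lit 7) (nat_lit 194) (nat_lit 51) r4_194 r11_51 (nat_lit 0) (nat_lit 0) (nat_lit 0) (nat_lit 0x80029938e) (nat_lit 1073741824)]
noncomputable def e18 : List (List Rx) := [e18_0, e18_1, e18_2, e18_3, e18_4, e18_5, e18_6, e18_7, e18_8, e18_9, e18_10, e18_11, e18_12, e18_13, e18_14, e18_15, e18_16, e18_17, e18_18, e18_19, e18_20, e18_21, e18_22, e18_23, e18_24, e18_25, e18_26, e18_27, e18_28, e18_29, e18_30, e18_31, e18_32, e18_33, e18_34, e18_35, e18_36, e18_37, e18_38, e18_39, e18_40, e18_41, e18_42, e18_43, e18_44, e18_45, e18_46, e18_47, e18_48, e18_49, e18_50, e18_51, e18_52, e18_53, e18_54, e18_55, e18_56,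 e18_57]
noncomputable def e19_0 : List Rx := [
  Rx.mk (nat_lit 2) (nat_lit 2) (nat_lit 0) (nat_lit 0) (nat_lit 1) (nat_lit 0) (nat_lit 147) r10_0 r0_147 (nat_lit 0) (nat_lit 530643) (nat_lit 163852) (nat_lit 0x5f682fdf4) (nat_lit 1617894919),
  Rx.mk (nat_lit 18) (nat_lit 2) (nat_lit 2) (nat_lit 0) (nat_lit 3) (nat_lit 2) (nat_lit 150) r10_2 r0_150 (nat_lit 0) (nat_lit 0) (nat_lit 4695397) (nat_lit 0x71f87d494) (nat_lit 1312433921),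
  Rx.mk (nat_lit 194) (nat_lit 2) (nat_lit 0) (nat_lit 3) (nat_lit 5) (nat_lit 1) (nat_lit 148) r10_1 r0_148 (nat_lit 0) (nat_lit 10021103) (nat_lit 0) (nat_lit 0x7fa58a3fa) (nat_lit 1089765427),
  Rx.mk (nat_lit 210) (nat_lit 2) (nat_lit 2) (nat_lit 3) (nat_lit 7) (nat_lit 3) (nat_lit 151) r10_3 r0_151 (nat_lit 0) (nat_lit 0) (nat_lit 0) (nat_lit 0x7ff9f480a) (nat_lit 1074296824),
  Rx.mk (nat_lit 218) (nat_lit 2) (nat_lit 3) (nat_lit 3) (nat_lit 7) (nat_lit 4) (nat_lit 149) r10_4 r0_149 (nat_lit 0) (nat_lit 0) (nat_lit 0) (nat_lit 0x7ff4c343a) (nat_lit 1074628924)]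
noncomputable def e19_1 : List Rx := [
  Rx.mk (nat_lit 2) (nat_lit 2) (nat_lit 0) (nat_lit 0) (nat_lit 1) (nat_lit 5) (nat_lit 161) r10_5 r1_161 (nat_lit 0) (nat_lit 981437) (nat_lit 480768) (nat_lit 0x62be5aa28) (nat_lit 1563059529),
  Rx.mk (nat_lit 18) (nat_lit 2) (nat_lit 2) (nat_lit 0) (nat_lit 3) (nat_lit 7) (nat_lit 164) r10_7 r1_164 (nat_lit 0) (nat_lit 0) (nat_lit 4988372) (nat_lit 0x78610a830) (nat_lit 1205879396),
  Rx.mk (nat_lit 194) (nat_lit 2) (nat_lit 0) (nat_lit 3) (nat_lit 5) (nat_lit 6) (nat_lit 162) r10_6 r1_162 (nat_lit 0) (nat_lit 7835339) (nat_lit 0) (nat_lit 0x7ff5d0d8c) (nat_lit 1082394163),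
  Rx.mk (nat_lit 210) (nat_lit 2) (nat_lit 2) (nat_lit 3) (nat_lit 7) (nat_lit 8) (nat_lit 165) r10_8 r1_165 (nat_lit 0) (nat_lit 0) (nat_lit 0) (nat_lit 0x80029938e) (nat_lit 1073741824),
  Rx.mk (nat_lit 218) (nat_lit 2) (nat_lit 3) (nat_lit 3) (nat_lit 7) (nat_lit 9) (nat_lit 163) r10_9 r1_163 (nat_lit 0) (nat_lit 0) (nat_lit 0) (nat_lit 0x801053272) (nat_lit 1072862224)]
noncomputable def e19_2 : List Rx := [
  Rx.mk (nat_lit 2) (nat_lit 2) (nat_lit 0) (nat_lit 0) (nat_lit 1) (nat_lit 10) (nat_lit 160) r10_10 r2_160 (nat_lit 0) (nat_lit 4401173) (nat_lit 2760723) (nat_lit 0x6c070f076) (nat_lit 1413974020),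
  Rx.mk (nat_lit 18) (nat_lit 2) (nat_lit 2) (nat_lit 0) (nat_lit 3) (nat_lit 12) (nat_lit 165) r10_12 r2_165 (nat_lit 0) (nat_lit 0) (nat_lit 5449534) (nat_lit 0x80029938e) (nat_lit 1079191358),
  Rx.mk (nat_lit 26) (nat_lit 2) (nat_lit 3) (nat_lit 0) (nat_lit 3) (nat_lit 14) (nat_lit 162) r10_14 r2_162 (nat_lit 0) (nat_lit 0) (nat_lit 5449534) (nat_lit 0x80029938e) (nat_lit 1079191358),
  Rx.mk (nat_lit 66) (nat_lit 2) (nat_lit 0) (nat_lit 1) (nat_lit 5) (nat_lit 11) (nat_lit 161) r10_11 r2_161 (nat_lit 0) (nat_lit 5449534) (nat_lit 0) (nat_lit 0x80029938e) (nat_lit 1079191358),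
  Rx.mk (nat_lit 82) (nat_lit 2) (nat_lit 2) (nat_lit 1) (nat_lit 7) (nat_lit 13) (nat_lit 166) r10_13 r2_166 (nat_lit 0) (nat_lit 0) (nat_lit 0) (nat_lit 0x80029938e) (nat_lit 1073741824),
  Rx.mk (nat_lit 90) (nat_lit 2) (nat_lit 3) (nat_lit 1) (nat_lit 7) (nat_lit 15) (nat_lit 163) r10_15 r2_163 (nat_lit 0) (nat_lit 0) (nat_lit 0) (nat_lit 0x80029938e) (nat_lit 1073741824),
  Rx.mk (nat_lit 218) (nat_lit 2) (nat_lit 3) (nat_lit 3) (nat_lit 7) (nat_lit 16) (nat_lit 164) r10_16 r2_164 (nat_lit 0) (nat_lit 0) (nat_lit 0) (nat_lit 0x80029938e) (nat_lit 1073741824)]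
noncomputable def e19_3 : List Rx := [
  Rx.mk (nat_lit 315) (nat_lit 3) (nat_lit 7) (nat_lit 4) (nat_lit 3) (nat_lit 19) (nat_lit 135) r10_19 r3_135 (nat_lit 0) (nat_lit 0) (nat_lit 52776) (nat_lit 0x8c731e1b6) (nat_lit 872490800),
  Rx.mk (nat_lit 443) (nat_lit 3) (nat_lit 7) (nat_lit 6) (nat_lit 7) (nat_lit 20) (nat_lit 137) r10_20 r3_137 (nat_lit 0) (nat_lit 0) (nat_lit 0) (nat_lit 0x9a8c6a3aa) (nat_lit 644510724),
  Rx.mk (nat_lit 472) (nat_lit 0) (nat_lit 3) (nat_lit 7) (nat_lit 6) (nat_lit 17) (nat_lit 133) r10_17 r3_133 (nat_lit 52776) (nat_lit 0) (nat_lit 0) (nat_lit 0x8c731e1b6) (nat_lit 872490800),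
  Rx.mk (nat_lit 474) (nat_lit 2) (nat_lit 3) (nat_lit 7) (nat_lit 7) (nat_lit 18) (nat_lit 138) r10_18 r3_138 (nat_lit 0) (nat_lit 0) (nat_lit 0) (nat_lit 0x9a8c6a3aa) (nat_lit 644510724),
  Rx.mk (nat_lit 475) (nat_lit 3) (nat_lit 3) (nat_lit 7) (nat_lit 7) (nat_lit 22) (nat_lit 134) r10_22 r3_134 (nat_lit 0) (nat_lit 0) (nat_lit 0) (nat_lit 0x804ec5d34) (nat_lit 1068889624),
  Rx.mk (nat_lit 507) (nat_lit 3) (nat_lit 7) (nat_lit 7) (nat_lit 7) (nat_lit 21) (nat_lit 136) r10_21 r3_136 (nat_lit 0) (nat_lit 0) (nat_lit 0) (nat_lit 0x804ec5d34) (nat_lit 1068889624)]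
noncomputable def e19_4 : List Rx := [
  Rx.mk (nat_lit 194) (nat_lit 2) (nat_lit 0) (nat_lit 3) (nat_lit 5) (nat_lit 24) (nat_lit 139) r10_24 r4_139 (nat_lit 0) (nat_lit 6990673) (nat_lit 0) (nat_lit 0x7fb294226) (nat_lit 1085891197),
  Rx.mk (nat_lit 210) (nat_lit 2) (nat_lit 2) (nat_lit 3) (nat_lit 7) (nat_lit 25) (nat_lit 142) r10_25 r4_142 (nat_lit 0) (nat_lit 0) (nat_lit 0) (nat_lit 0x80029938e) (nat_lit 1073741824),
  Rx.mk (nat_lit 218) (nat_lit 2) (nat_lit 3) (nat_lit 3) (nat_lit 7) (nat_lit 27) (nat_lit 140) r10_27 r4_140 (nat_lit 0) (nat_lit 0) (nat_lit 0) (nat_lit 0x805fe15fa) (nat_lit 1067795824),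
  Rx.mk (nat_lit 315) (nat_lit 3) (nat_lit 7) (nat_lit 4) (nat_lit 3) (nat_lit 28) (nat_lit 136) r10_28 r4_136 (nat_lit 0) (nat_lit 0) (nat_lit 2482237) (nat_lit 0x8026b83be) (nat_lit 1073911461),
  Rx.mk (nat_lit 443) (nat_lit 3) (nat_lit 7) (nat_lit 6) (nat_lit 7) (nat_lit 29) (nat_lit 138) r10_29 r4_138 (nat_lit 0) (nat_lit 0) (nat_lit 0) (nat_lit 0x801ffbf1c) (nat_lit 1071860624),
  Rx.mk (nat_lit 472) (nat_lit 0) (nat_lit 3) (nat_lit 7) (nat_lit 6) (nat_lit 23) (nat_lit 134) r10_23 r4_134 (nat_lit 3516231) (nat_lit 0) (nat_lit 0) (nat_lit 0x801199ce4) (nat_lit 1076295255),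
  Rx.mk (nat_lit 474) (nat_lit 2) (nat_lit 3) (nat_lit 7) (nat_lit 7) (nat_lit 26) (nat_lit 141) r10_26 r4_141 (nat_lit 0) (nat_lit 0) (nat_lit 0) (nat_lit 0x801c7f974) (nat_lit 1072083424),
  Rx.mk (nat_lit 475) (nat_lit 3) (nat_lit 3) (nat_lit 7) (nat_lit 7) (nat_lit 31) (nat_lit 135) r10_31 r4_135 (nat_lit 0) (nat_lit 0) (nat_lit 0) (nat_lit 0x80029938e) (nat_lit 1073741824),
  Rx.mk (nat_lit 507) (nat_lit 3) (nat_lit 7) (nat_lit 7) (nat_lit 7) (nat_lit 30) (nat_lit 137) r10_30 r4_137 (nat_lit 0) (nat_lit 0) (nat_lit 0) (nat_lit 0x80029938e) (nat_lit 1073741824)]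
noncomputable def e19_5 : List Rx := [
  Rx.mk (nat_lit 283) (nat_lit 3) (nat_lit 3) (nat_lit 4) (nat_lit 3) (nat_lit 36) (nat_lit 135) r10_36 r5_135 (nat_lit 0) (nat_lit 0) (nat_lit 4741774) (nat_lit 0x78dac94e6) (nat_lit 1197703898),
  Rx.mk (nat_lit 315) (nat_lit 3) (nat_lit 7) (nat_lit 4) (nat_lit 3) (nat_lit 34) (nat_lit 137) r10_34 r5_137 (nat_lit 0) (nat_lit 0) (nat_lit 1409940) (nat_lit 0x8011f0f3a) (nat_lit 1074160464),
  Rx.mk (nat_lit 443) (nat_lit 3) (nat_lit 7) (nat_lit 6) (nat_lit 7) (nat_lit 35) (nat_lit 138) r10_35 r5_138 (nat_lit 0) (nat_lit 0) (nat_lit 0) (nat_lit 0x80af22bc8) (nat_lit 1062775524),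
  Rx.mk (nat_lit 472) (nat_lit 0) (nat_lit 3) (nat_lit 7) (nat_lit 6) (nat_lit 32) (nat_lit 134) r10_32 r5_134 (nat_lit 1919901) (nat_lit 0) (nat_lit 0) (nat_lit 0x80c317552) (nat_lit 1063433825),
  Rx.mk (nat_lit 474) (nat_lit 2) (nat_lit 3) (nat_lit 7) (nat_lit 7) (nat_lit 33) (nat_lit 139) r10_33 r5_139 (nat_lit 0) (nat_lit 0) (nat_lit 0) (nat_lit 0x80348d4f8) (nat_lit 1070549224),
  Rx.mk (nat_lit 475) (nat_lit 3) (nat_lit 3) (nat_lit 7) (nat_lit 7) (nat_lit 37) (nat_lit 136) r10_37 r5_136 (nat_lit 0) (nat_lit 0) (nat_lit 0) (nat_lit 0x7ff5fb7f8) (nat_lit 1074552324)]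
noncomputable def e19_6 : List Rx := [
  Rx.mk (nat_lit 320) (nat_lit 0) (nat_lit 0) (nat_lit 5) (nat_lit 4) (nat_lit 38) (nat_lit 180) r10_38 r3_180 (nat_lit 22262) (nat_lit 15756) (nat_lit 0) (nat_lit 0x62ad48e7e) (nat_lit 1562688942),
  Rx.mk (nat_lit 321) (nat_lit 1) (nat_lit 0) (nat_lit 5) (nat_lit 5) (nat_lit 40) (nat_lit 181) r10_40 r3_181 (nat_lit 0) (nat_lit 14524810) (nat_lit 0) (nat_lit 0x7f58f3384) (nat_lit 1099247534),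
  Rx.mk (nat_lit 322) (nat_lit 2) (nat_lit 0) (nat_lit 5) (nat_lit 5) (nat_lit 42) (nat_lit 182) r10_42 r3_182 (nat_lit 0) (nat_lit 8861734) (nat_lit 0) (nat_lit 0x7fb3a6038) (nat_lit 1087701158),
  Rx.mk (nat_lit 344) (nat_lit 0) (nat_lit 3) (nat_lit 5) (nat_lit 6) (nat_lit 39) (nat_lit 183) r10_39 r3_183 (nat_lit 96051) (nat_lit 0) (nat_lit 0) (nat_lit 0x88974f8cc) (nat_lit 934938275),
  Rx.mk (nat_lit 345) (nat_lit 1) (nat_lit 3) (nat_lit 5) (nat_lit 7) (nat_lit 41) (nat_lit 184) r10_41 r3_184 (nat_lit 0) (nat_lit 0) (nat_lit 0) (nat_lit 0x9b76b2354) (nat_lit 629711124),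
  Rx.mk (nat_lit 346) (nat_lit 2) (nat_lit 3) (nat_lit 5) (nat_lit 7) (nat_lit 43) (nat_lit 185) r10_43 r3_185 (nat_lit 0) (nat_lit 0) (nat_lit 0) (nat_lit 0x9b76b3d44) (nat_lit 629710724)]
noncomputable def e19_7 : List Rx := [
  Rx.mk (nat_lit 66) (nat_lit 2) (nat_lit 0) (nat_lit 1) (nat_lit 5) (nat_lit 47) (nat_lit 198) r10_47 r0_198 (nat_lit 0) (nat_lit 172576021) (nat_lit 0) (nat_lit 0x80845ae72) (nat_lit 1238006145),
  Rx.mk (nat_lit 90) (nat_lit 2) (nat_lit 3) (nat_lit 1) (nat_lit 7) (nat_lit 48) (nat_lit 199) r10_48 r0_199 (nat_lit 0) (nat_lit 0) (nat_lit 0) (nat_lit 0x803360350) (nat_lit 1070623924),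
  Rx.mk (nat_lit 320) (nat_lit 0) (nat_lit 0) (nat_lit 5) (nat_lit 4) (nat_lit 44) (nat_lit 195) r10_44 r0_195 (nat_lit 206251) (nat_lit 577871) (nat_lit 0) (nat_lit 0x5b26d5dda) (nat_lit 1688936846),
  Rx.mk (nat_lit 321) (nat_lit 1) (nat_lit 0) (nat_lit 5) (nat_lit 5) (nat_lit 45) (nat_lit 196) r10_45 r0_196 (nat_lit 0) (nat_lit 2475431) (nat_lit 0) (nat_lit 0x70fe46778) (nat_lit 1326502855),
  Rx.mk (nat_lit 322) (nat_lit 2) (nat_lit 0) (nat_lit 5) (nat_lit 5) (nat_lit 46) (nat_lit 197) r10_46 r0_197 (nat_lit 0) (nat_lit 336738388) (nat_lit 0) (nat_lit 0x7f9d350f6) (nat_lit 1417053112)]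
noncomputable def e19_8 : List Rx := [
  Rx.mk (nat_lit 66) (nat_lit 2) (nat_lit 0) (nat_lit 1) (nat_lit 5) (nat_lit 49) (nat_lit 217) r10_49 r1_217 (nat_lit 0) (nat_lit 19618759) (nat_lit 0) (nat_lit 0x8216578f6) (nat_lit 1059686783),
  Rx.mk (nat_lit 82) (nat_lit 2) (nat_lit 2) (nat_lit 1) (nat_lit 7) (nat_lit 50) (nat_lit 219) r10_50 r1_219 (nat_lit 0) (nat_lit 0) (nat_lit 0) (nat_lit 0x808e6d8b0) (nat_lit 1064845524),
  Rx.mk (nat_lit 90) (nat_lit 2) (nat_lit 3) (nat_lit 1) (nat_lit 7) (nat_lit 51) (nat_lit 218) r10_51 r1_218 (nat_lit 0) (nat_lit 0) (nat_lit 0) (nat_lit 0x80029938e) (nat_lit 1073741824)]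
noncomputable def e19_9 : List Rx := [
  Rx.mk (nat_lit 90) (nat_lit 2) (nat_lit 3) (nat_lit 1) (nat_lit 7) (nat_lit 58) (nat_lit 187) r10_58 r4_187 (nat_lit 0) (nat_lit 0) (nat_lit 0) (nat_lit 0x8018b37f0) (nat_lit 1072325924),
  Rx.mk (nat_lit 320) (nat_lit 0) (nat_lit 0) (nat_lit 5) (nat_lit 4) (nat_lit 52) (nat_lit 181) r10_52 r4_181 (nat_lit 2071508) (nat_lit 5552411) (nat_lit 0) (nat_lit 0x6601e5042) (nat_lit 1514816043),
  Rx.mk (nat_lit 321) (nat_lit 1) (nat_lit 0) (nat_lit 5) (nat_lit 5) (nat_lit 54) (nat_lit 182) r10_54 r4_182 (nat_lit 0) (nat_lit 4412645) (nat_lit 0) (nat_lit 0x802289f68) (nat_lit 1076111669),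
  Rx.mk (nat_lit 322) (nat_lit 2) (nat_lit 0) (nat_lit 5) (nat_lit 5) (nat_lit 56) (nat_lit 183) r10_56 r4_183 (nat_lit 0) (nat_lit 5474881) (nat_lit 0) (nat_lit 0x7fdff8ef6) (nat_lit 1081440905),
  Rx.mk (nat_lit 344) (nat_lit 0) (nat_lit 3) (nat_lit 5) (nat_lit 6) (nat_lit 53) (nat_lit 184) r10_53 r4_184 (nat_lit 1895394) (nat_lit 0) (nat_lit 0) (nat_lit 0x80303ef3c) (nat_lit 1072711218),
  Rx.mk (nat_lit 345) (nat_lit 1) (nat_lit 3) (nat_lit 5) (nat_lit 7) (nat_lit 55) (nat_lit 185) r10_55 r4_185 (nat_lit 0) (nat_lit 0) (nat_lit 0) (nat_lit 0x805b35a60) (nat_lit 1068092224),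
  Rx.mk (nat_lit 346) (nat_lit 2) (nat_lit 3) (nat_lit 5) (nat_lit 7) (nat_lit 57) (nat_lit 186) r10_57 r4_186 (nat_lit 0) (nat_lit 0) (nat_lit 0) (nat_lit 0x805b35a60) (nat_lit 1068092224)]
noncomputable def e19_10 : List Rx := [
  Rx.mk (nat_lit 280) (nat_lit 0) (nat_lit 3) (nat_lit 4) (nat_lit 2) (nat_lit 59) (nat_lit 140) r10_59 r6_140 (nat_lit 315034) (nat_lit 0) (nat_lit 325610) (nat_lit 0x6c8871394) (nat_lit 1399003668),
  Rx.mk (nat_lit 281) (nat_lit 1) (nat_lit 3) (nat_lit 4) (nat_lit 3) (nat_lit 62) (nat_lit 143) r10_62 r6_143 (nat_lit 0) (nat_lit 0) (nat_lit 2104035) (nat_lit 0x8089df83e) (nat_lit 1067238059),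
  Rx.mk (nat_lit 282) (nat_lit 2) (nat_lit 3) (nat_lit 4) (nat_lit 3) (nat_lit 64) (nat_lit 150) r10_64 r6_150 (nat_lit 0) (nat_lit 0) (nat_lit 2104035) (nat_lit 0x8089df83e) (nat_lit 1067238059),
  Rx.mk (nat_lit 283) (nat_lit 3) (nat_lit 3) (nat_lit 4) (nat_lit 3) (nat_lit 70) (nat_lit 145) r10_70 r6_145 (nat_lit 0) (nat_lit 0) (nat_lit 5449534) (nat_lit 0x7febd1840) (nat_lit 1080657058),
  Rx.mk (nat_lit 315) (nat_lit 3) (nat_lit 7) (nat_lit 4) (nat_lit 3) (nat_lit 67) (nat_lit 147) r10_67 r6_147 (nat_lit 0) (nat_lit 0) (nat_lit 1425998) (nat_lit 0x8011ef310) (nat_lit 1074173622),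
  Rx.mk (nat_lit 344) (nat_lit 0) (nat_lit 3) (nat_lit 5) (nat_lit 6) (nat_lit 60) (nat_lit 141) r10_60 r6_141 (nat_lit 2919586) (nat_lit 0) (nat_lit 0) (nat_lit 0x8040ec42e) (nat_lit 1072682510),
  Rx.mk (nat_lit 346) (nat_lit 2) (nat_lit 3) (nat_lit 5) (nat_lit 7) (nat_lit 65) (nat_lit 151) r10_65 r6_151 (nat_lit 0) (nat_lit 0) (nat_lit 0) (nat_lit 0x80192ccea) (nat_lit 1072297024),
  Rx.mk (nat_lit 347) (nat_lit 3) (nat_lit 3) (nat_lit 5) (nat_lit 7) (nat_lit 71) (nat_lit 146) r10_71 r6_146 (nat_lit 0) (nat_lit 0) (nat_lit 0) (nat_lit 0x80029938e) (nat_lit 1073741824),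
  Rx.mk (nat_lit 379) (nat_lit 3) (nat_lit 7) (nat_lit 5) (nat_lit 7) (nat_lit 68) (nat_lit 148) r10_68 r6_148 (nat_lit 0) (nat_lit 0) (nat_lit 0) (nat_lit 0x8099ba880) (nat_lit 1064130224),
  Rx.mk (nat_lit 443) (nat_lit 3) (nat_lit 7) (nat_lit 6) (nat_lit 7) (nat_lit 69) (nat_lit 149) r10_69 r6_149 (nat_lit 0) (nat_lit 0) (nat_lit 0) (nat_lit 0x8099ba880) (nat_lit 1064130224),
  Rx.mk (nat_lit 472) (nat_lit 0) (nat_lit 3) (nat_lit 7) (nat_lit 6) (nat_lit 61) (nat_lit 142) r10_61 r6_142 (nat_lit 1567710) (nat_lit 0) (nat_lit 0) (nat_lit 0x8053e18e0) (nat_lit 1070118234),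
  Rx.mk (nat_lit 473) (nat_lit 1) (nat_lit 3) (nat_lit 7) (nat_lit 7) (nat_lit 63) (nat_lit 144) r10_63 r6_144 (nat_lit 0) (nat_lit 0) (nat_lit 0) (nat_lit 0x809b6df60) (nat_lit 1064022524),
  Rx.mk (nat_lit 474) (nat_lit 2) (nat_lit 3) (nat_lit 7) (nat_lit 7) (nat_lit 66) (nat_lit 152) r10_66 r6_152 (nat_lit 0) (nat_lit 0) (nat_lit 0) (nat_lit 0x809b6df60) (nat_lit 1064022524)]
noncomputable def e19_11 : List Rx := [
  Rx.mk (nat_lit 320) (nat_lit 0) (nat_lit 0) (nat_lit 5) (nat_lit 4) (nat_lit 72) (nat_lit 197) r10_72 r5_197 (nat_lit 1601519) (nat_lit 5696356) (nat_lit 0) (nat_lit 0x726966d0e) (nat_lit 1307672399),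
  Rx.mk (nat_lit 322) (nat_lit 2) (nat_lit 0) (nat_lit 5) (nat_lit 5) (nat_lit 74) (nat_lit 198) r10_74 r5_198 (nat_lit 0) (nat_lit 5449534) (nat_lit 0) (nat_lit 0x8011b0cbe) (nat_lit 1078224358),
  Rx.mk (nat_lit 344) (nat_lit 0) (nat_lit 3) (nat_lit 5) (nat_lit 6) (nat_lit 73) (nat_lit 199) r10_73 r5_199 (nat_lit 1673969) (nat_lit 0) (nat_lit 0) (nat_lit 0x80ad5689e) (nat_lit 1064560193),
  Rx.mk (nat_lit 346) (nat_lit 2) (nat_lit 3) (nat_lit 5) (nat_lit 7) (nat_lit 75) (nat_lit 201) r10_75 r5_201 (nat_lit 0) (nat_lit 0) (nat_lit 0) (nat_lit 0x803e42840) (nat_lit 1069931224),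
  Rx.mk (nat_lit 347) (nat_lit 3) (nat_lit 3) (nat_lit 5) (nat_lit 7) (nat_lit 76) (nat_lit 200) r10_76 r5_200 (nat_lit 0) (nat_lit 0) (nat_lit 0) (nat_lit 0x80029938e) (nat_lit 1073741824)]
noncomputable def e19_12 : List Rx := [
  Rx.mk (nat_lit 420) (nat_lit 4) (nat_lit 4) (nat_lit 6) (nat_lit 4) (nat_lit 77) (nat_lit 147) r10_77 r0_147 (nat_lit 163852) (nat_lit 530643) (nat_lit 0) (nat_lit 0x5f682fdf4) (nat_lit 1617894919),
  Rx.mk (nat_lit 423) (nat_lit 7) (nat_lit 4) (nat_lit 6) (nat_lit 5) (nat_lit 79) (nat_lit 148) r10_79 r0_148 (nat_lit 0) (nat_lit 10021103) (nat_lit 0) (nat_lit 0x7fa58a3fa) (nat_lit 1089765427),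
  Rx.mk (nat_lit 436) (nat_lit 4) (nat_lit 6) (nat_lit 6) (nat_lit 6) (nat_lit 78) (nat_lit 150) r10_78 r0_150 (nat_lit 4695397) (nat_lit 0) (nat_lit 0) (nat_lit 0x71f87d494) (nat_lit 1312433921),
  Rx.mk (nat_lit 439) (nat_lit 7) (nat_lit 6) (nat_lit 6) (nat_lit 7) (nat_lit 80) (nat_lit 151) r10_80 r0_151 (nat_lit 0) (nat_lit 0) (nat_lit 0) (nat_lit 0x7ff9f480a) (nat_lit 1074296824),
  Rx.mk (nat_lit 447) (nat_lit 7) (nat_lit 7) (nat_lit 6) (nat_lit 7) (nat_lit 81) (nat_lit 149) r10_81 r0_149 (nat_lit 0) (nat_lit 0) (nat_lit 0) (nat_lit 0x7ff4c343a) (nat_lit 1074628924)]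
noncomputable def e19_13 : List Rx := [
  Rx.mk (nat_lit 2) (nat_lit 2) (nat_lit 0) (nat_lit 0) (nat_lit 1) (nat_lit 91) (nat_lit 184) r10_91 r7_184 (nat_lit 0) (nat_lit 207584) (nat_lit 170865) (nat_lit 0x6d9bb3e06) (nat_lit 1380802873),
  Rx.mk (nat_lit 18) (nat_lit 2) (nat_lit 2) (nat_lit 0) (nat_lit 3) (nat_lit 93) (nat_lit 187) r10_93 r7_187 (nat_lit 0) (nat_lit 0) (nat_lit 1738294) (nat_lit 0x80270146a) (nat_lit 1073148218),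
  Rx.mk (nat_lit 22) (nat_lit 6) (nat_lit 2) (nat_lit 0) (nat_lit 3) (nat_lit 86) (nat_lit 195) r10_86 r7_195 (nat_lit 0) (nat_lit 0) (nat_lit 5449534) (nat_lit 0x80029938e) (nat_lit 1079191358),
  Rx.mk (nat_lit 150) (nat_lit 6) (nat_lit 2) (nat_lit 2) (nat_lit 7) (nat_lit 87) (nat_lit 196) r10_87 r7_196 (nat_lit 0) (nat_lit 0) (nat_lit 0) (nat_lit 0x80029938e) (nat_lit 1073741824),
  Rx.mk (nat_lit 180) (nat_lit 4) (nat_lit 6) (nat_lit 2) (nat_lit 6) (nat_lit 84) (nat_lit 190) r10_84 r7_190 (nat_lit 5449534) (nat_lit 0) (nat_lit 0) (nat_lit 0x80029938e) (nat_lit 1079191358),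
  Rx.mk (nat_lit 182) (nat_lit 6) (nat_lit 6) (nat_lit 2) (nat_lit 7) (nat_lit 85) (nat_lit 197) r10_85 r7_197 (nat_lit 0) (nat_lit 0) (nat_lit 0) (nat_lit 0x80029938e) (nat_lit 1073741824),
  Rx.mk (nat_lit 194) (nat_lit 2) (nat_lit 0) (nat_lit 3) (nat_lit 5) (nat_lit 92) (nat_lit 185) r10_92 r7_185 (nat_lit 0) (nat_lit 6198522) (nat_lit 0) (nat_lit 0x7fb6ae690) (nat_lit 1084837746),
  Rx.mk (nat_lit 210) (nat_lit 2) (nat_lit 2) (nat_lit 3) (nat_lit 7) (nat_lit 94) (nat_lit 188) r10_94 r7_188 (nat_lit 0) (nat_lit 0) (nat_lit 0) (nat_lit 0x802fa6002) (nat_lit 1070864224),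
  Rx.mk (nat_lit 218) (nat_lit 2) (nat_lit 3) (nat_lit 3) (nat_lit 7) (nat_lit 95) (nat_lit 186) r10_95 r7_186 (nat_lit 0) (nat_lit 0) (nat_lit 0) (nat_lit 0x802fa260a) (nat_lit 1070865124),
  Rx.mk (nat_lit 420) (nat_lit 4) (nat_lit 4) (nat_lit 6) (nat_lit 4) (nat_lit 82) (nat_lit 189) r10_82 r7_189 (nat_lit 170865) (nat_lit 207584) (nat_lit 0) (nat_lit 0x6d9bb3e06) (nat_lit 1380802873),
  Rx.mk (nat_lit 423) (nat_lit 7) (nat_lit 4) (nat_lit 6) (nat_lit 5) (nat_lit 88) (nat_lit 192) r10_88 r7_192 (nat_lit 0) (nat_lit 6198522) (nat_lit 0) (nat_lit 0x7fb6ae690) (nat_lit 1084837746),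
  Rx.mk (nat_lit 436) (nat_lit 4) (nat_lit 6) (nat_lit 6) (nat_lit 6) (nat_lit 83) (nat_lit 191) r10_83 r7_191 (nat_lit 1738294) (nat_lit 0) (nat_lit 0) (nat_lit 0x80270146a) (nat_lit 1073148218),
  Rx.mk (nat_lit 439) (nat_lit 7) (nat_lit 6) (nat_lit 6) (nat_lit 7) (nat_lit 89) (nat_lit 194) r10_89 r7_194 (nat_lit 0) (nat_lit 0) (nat_lit 0) (nat_lit 0x802fa6002) (nat_lit 1070864224),
  Rx.mk (nat_lit 447) (nat_lit 7) (nat_lit 7) (nat_lit 6) (nat_lit 7) (nat_lit 90) (nat_lit 193) r10_90 r7_193 (nat_lit 0) (nat_lit 0) (nat_lit 0) (nat_lit 0x802fa260a) (nat_lit 1070865124)]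
noncomputable def e19_14 : List Rx := [
  Rx.mk (nat_lit 420) (nat_lit 4) (nat_lit 4) (nat_lit 6) (nat_lit 4) (nat_lit 96) (nat_lit 161) r10_96 r1_161 (nat_lit 480768) (nat_lit 981437) (nat_lit 0) (nat_lit 0x62be5aa28) (nat_lit 1563059529),
  Rx.mk (nat_lit 423) (nat_lit 7) (nat_lit 4) (nat_lit 6) (nat_lit 5) (nat_lit 98) (nat_lit 162) r10_98 r1_162 (nat_lit 0) (nat_lit 7835339) (nat_lit 0) (nat_lit 0x7ff5d0d8c) (nat_lit 1082394163),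
  Rx.mk (nat_lit 436) (nat_lit 4) (nat_lit 6) (nat_lit 6) (nat_lit 6) (nat_lit 97) (nat_lit 164) r10_97 r1_164 (nat_lit 4988372) (nat_lit 0) (nat_lit 0) (nat_lit 0x78610a830) (nat_lit 1205879396),
  Rx.mk (nat_lit 439) (nat_lit 7) (nat_lit 6) (nat_lit 6) (nat_lit 7) (nat_lit 99) (nat_lit 165) r10_99 r1_165 (nat_lit 0) (nat_lit 0) (nat_lit 0) (nat_lit 0x80029938e) (nat_lit 1073741824),
  Rx.mk (nat_lit 447) (nat_lit 7) (nat_lit 7) (nat_lit 6) (nat_lit 7) (nat_lit 100) (nat_lit 163) r10_100 r1_163 (nat_lit 0) (nat_lit 0) (nat_lit 0) (nat_lit 0x801053272) (nat_lit 1072862224)]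
noncomputable def e19_15 : List Rx := [
  Rx.mk (nat_lit 150) (nat_lit 6) (nat_lit 2) (nat_lit 2) (nat_lit 7) (nat_lit 105) (nat_lit 155) r10_105 r8_155 (nat_lit 0) (nat_lit 0) (nat_lit 0) (nat_lit 0x80029938e) (nat_lit 1073741824),
  Rx.mk (nat_lit 180) (nat_lit 4) (nat_lit 6) (nat_lit 2) (nat_lit 6) (nat_lit 103) (nat_lit 150) r10_103 r8_150 (nat_lit 5449534) (nat_lit 0) (nat_lit 0) (nat_lit 0x80029938e) (nat_lit 1079191358),
  Rx.mk (nat_lit 182) (nat_lit 6) (nat_lit 6) (nat_lit 2) (nat_lit 7) (nat_lit 104) (nat_lit 156) r10_104 r8_156 (nat_lit 0) (nat_lit 0) (nat_lit 0) (nat_lit 0x80029938e) (nat_lit 1073741824),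
  Rx.mk (nat_lit 420) (nat_lit 4) (nat_lit 4) (nat_lit 6) (nat_lit 4) (nat_lit 101) (nat_lit 149) r10_101 r8_149 (nat_lit 5127106) (nat_lit 6554309) (nat_lit 0) (nat_lit 0x6a304083e) (nat_lit 1449170039),
  Rx.mk (nat_lit 423) (nat_lit 7) (nat_lit 4) (nat_lit 6) (nat_lit 5) (nat_lit 106) (nat_lit 152) r10_106 r8_152 (nat_lit 0) (nat_lit 5449534) (nat_lit 0) (nat_lit 0x80029938e) (nat_lit 1079191358),
  Rx.mk (nat_lit 436) (nat_lit 4) (nat_lit 6) (nat_lit 6) (nat_lit 6) (nat_lit 102) (nat_lit 151) r10_102 r8_151 (nat_lit 3003115) (nat_lit 0) (nat_lit 0) (nat_lit 0x801ee9084) (nat_lit 1074931639),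
  Rx.mk (nat_lit 439) (nat_lit 7) (nat_lit 6) (nat_lit 6) (nat_lit 7) (nat_lit 107) (nat_lit 154) r10_107 r8_154 (nat_lit 0) (nat_lit 0) (nat_lit 0) (nat_lit 0x80029938e) (nat_lit 1073741824),
  Rx.mk (nat_lit 447) (nat_lit 7) (nat_lit 7) (nat_lit 6) (nat_lit 7) (nat_lit 108) (nat_lit 153) r10_108 r8_153 (nat_lit 0) (nat_lit 0) (nat_lit 0) (nat_lit 0x80029938e) (nat_lit 1073741824)]
noncomputable def e19_16 : List Rx := [
  Rx.mk (nat_lit 2) (nat_lit 2) (nat_lit 0) (nat_lit 0) (nat_lit 1) (nat_lit 112) (nat_lit 149) r10_112 r8_149 (nat_lit 0) (nat_lit 6554309) (nat_lit 5127106) (nat_lit 0x6a304083e) (nat_lit 1449170039),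
  Rx.mk (nat_lit 18) (nat_lit 2) (nat_lit 2) (nat_lit 0) (nat_lit 3) (nat_lit 114) (nat_lit 151) r10_114 r8_151 (nat_lit 0) (nat_lit 0) (nat_lit 3003115) (nat_lit 0x801ee9084) (nat_lit 1074931639),
  Rx.mk (nat_lit 22) (nat_lit 6) (nat_lit 2) (nat_lit 0) (nat_lit 3) (nat_lit 110) (nat_lit 150) r10_110 r8_150 (nat_lit 0) (nat_lit 0) (nat_lit 5449534) (nat_lit 0x80029938e) (nat_lit 1079191358),
  Rx.mk (nat_lit 150) (nat_lit 6) (nat_lit 2) (nat_lit 2) (nat_lit 7) (nat_lit 111) (nat_lit 156) r10_111 r8_156 (nat_lit 0) (nat_lit 0) (nat_lit 0) (nat_lit 0x80029938e) (nat_lit 1073741824),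
  Rx.mk (nat_lit 182) (nat_lit 6) (nat_lit 6) (nat_lit 2) (nat_lit 7) (nat_lit 109) (nat_lit 155) r10_109 r8_155 (nat_lit 0) (nat_lit 0) (nat_lit 0) (nat_lit 0x80029938e) (nat_lit 1073741824),
  Rx.mk (nat_lit 194) (nat_lit 2) (nat_lit 0) (nat_lit 3) (nat_lit 5) (nat_lit 113) (nat_lit 152) r10_113 r8_152 (nat_lit 0) (nat_lit 5449534) (nat_lit 0) (nat_lit 0x80029938e) (nat_lit 1079191358),
  Rx.mk (nat_lit 210) (nat_lit 2) (nat_lit 2) (nat_lit 3) (nat_lit 7) (nat_lit 115) (nat_lit 154) r10_115 r8_154 (nat_lit 0) (nat_lit 0) (nat_lit 0) (nat_lit 0x80029938e) (nat_lit 1073741824),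
  Rx.mk (nat_lit 218) (nat_lit 2) (nat_lit 3) (nat_lit 3) (nat_lit 7) (nat_lit 116) (nat_lit 153) r10_116 r8_153 (nat_lit 0) (nat_lit 0) (nat_lit 0) (nat_lit 0x80029938e) (nat_lit 1073741824)]
noncomputable def e19_17 : List Rx := [
  Rx.mk (nat_lit 2) (nat_lit 2) (nat_lit 0) (nat_lit 0) (nat_lit 1) (nat_lit 120) (nat_lit 136) r10_120 r9_136 (nat_lit 0) (nat_lit 10854105) (nat_lit 8967556) (nat_lit 0x6c3b432d4) (nat_lit 1423247285),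
  Rx.mk (nat_lit 18) (nat_lit 2) (nat_lit 2) (nat_lit 0) (nat_lit 3) (nat_lit 122) (nat_lit 141) r10_122 r9_141 (nat_lit 0) (nat_lit 0) (nat_lit 5449534) (nat_lit 0x7ffe55638) (nat_lit 1079464858),
  Rx.mk (nat_lit 22) (nat_lit 6) (nat_lit 2) (nat_lit 0) (nat_lit 3) (nat_lit 117) (nat_lit 143) r10_117 r9_143 (nat_lit 0) (nat_lit 0) (nat_lit 5449534) (nat_lit 0x80029938e) (nat_lit 1079191358),
  Rx.mk (nat_lit 26) (nat_lit 2) (nat_lit 3) (nat_lit 0) (nat_lit 3) (nat_lit 124) (nat_lit 138) r10_124 r9_138 (nat_lit 0) (nat_lit 0) (nat_lit 5449534) (nat_lit 0x80029938e) (nat_lit 1079191358),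
  Rx.mk (nat_lit 66) (nat_lit 2) (nat_lit 0) (nat_lit 1) (nat_lit 5) (nat_lit 121) (nat_lit 137) r10_121 r9_137 (nat_lit 0) (nat_lit 5449534) (nat_lit 0) (nat_lit 0x80029938e) (nat_lit 1079191358),
  Rx.mk (nat_lit 82) (nat_lit 2) (nat_lit 2) (nat_lit 1) (nat_lit 7) (nat_lit 123) (nat_lit 142) r10_123 r9_142 (nat_lit 0) (nat_lit 0) (nat_lit 0) (nat_lit 0x80029938e) (nat_lit 1073741824),
  Rx.mk (nat_lit 86) (nat_lit 6) (nat_lit 2) (nat_lit 1) (nat_lit 7) (nat_lit 118) (nat_lit 144) r10_118 r9_144 (nat_lit 0) (nat_lit 0) (nat_lit 0) (nat_lit 0x80029938e) (nat_lit 1073741824),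
  Rx.mk (nat_lit 90) (nat_lit 2) (nat_lit 3) (nat_lit 1) (nat_lit 7) (nat_lit 125) (nat_lit 139) r10_125 r9_139 (nat_lit 0) (nat_lit 0) (nat_lit 0) (nat_lit 0x80029938e) (nat_lit 1073741824),
  Rx.mk (nat_lit 150) (nat_lit 6) (nat_lit 2) (nat_lit 2) (nat_lit 7) (nat_lit 119) (nat_lit 145) r10_119 r9_145 (nat_lit 0) (nat_lit 0) (nat_lit 0) (nat_lit 0x80029938e) (nat_lit 1073741824),
  Rx.mk (nat_lit 218) (nat_lit 2) (nat_lit 3) (nat_lit 3) (nat_lit 7) (nat_lit 126) (nat_lit 140) r10_126 r9_140 (nat_lit 0) (nat_lit 0) (nat_lit 0) (nat_lit 0x80029938e) (nat_lit 1073741824)]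
noncomputable def e19_18 : List Rx := [
  Rx.mk (nat_lit 315) (nat_lit 3) (nat_lit 7) (nat_lit 4) (nat_lit 3) (nat_lit 132) (nat_lit 134) r10_132 r4_134 (nat_lit 0) (nat_lit 0) (nat_lit 3516231) (nat_lit 0x801199ce4) (nat_lit 1076295255),
  Rx.mk (nat_lit 423) (nat_lit 7) (nat_lit 4) (nat_lit 6) (nat_lit 5) (nat_lit 127) (nat_lit 139) r10_127 r4_139 (nat_lit 0) (nat_lit 6990673) (nat_lit 0) (nat_lit 0x7fb294226) (nat_lit 1085891197),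
  Rx.mk (nat_lit 439) (nat_lit 7) (nat_lit 6) (nat_lit 6) (nat_lit 7) (nat_lit 128) (nat_lit 142) r10_128 r4_142 (nat_lit 0) (nat_lit 0) (nat_lit 0) (nat_lit 0x80029938e) (nat_lit 1073741824),
  Rx.mk (nat_lit 443) (nat_lit 3) (nat_lit 7) (nat_lit 6) (nat_lit 7) (nat_lit 133) (nat_lit 141) r10_133 r4_141 (nat_lit 0) (nat_lit 0) (nat_lit 0) (nat_lit 0x801c7f974) (nat_lit 1072083424),
  Rx.mk (nat_lit 447) (nat_lit 7) (nat_lit 7) (nat_lit 6) (nat_lit 7) (nat_lit 129) (nat_lit 140) r10_129 r4_140 (nat_lit 0) (nat_lit 0) (nat_lit 0) (nat_lit 0x805fe15fa) (nat_lit 1067795824),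
  Rx.mk (nat_lit 472) (nat_lit 0) (nat_lit 3) (nat_lit 7) (nat_lit 6) (nat_lit 130) (nat_lit 136) r10_130 r4_136 (nat_lit 2482237) (nat_lit 0) (nat_lit 0) (nat_lit 0x8026b83be) (nat_lit 1073911461),
  Rx.mk (nat_lit 474) (nat_lit 2) (nat_lit 3) (nat_lit 7) (nat_lit 7) (nat_lit 131) (nat_lit 138) r10_131 r4_138 (nat_lit 0) (nat_lit 0) (nat_lit 0) (nat_lit 0x801ffbf1c) (nat_lit 1071860624),
  Rx.mk (nat_lit 475) (nat_lit 3) (nat_lit 3) (nat_lit 7) (nat_lit 7) (nat_lit 135) (nat_lit 137) r10_135 r4_137 (nat_lit 0) (nat_lit 0) (nat_lit 0) (nat_lit 0x80029938e) (nat_lit 1073741824),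
  Rx.mk (nat_lit 507) (nat_lit 3) (nat_lit 7) (nat_lit 7) (nat_lit 7) (nat_lit 134) (nat_lit 135) r10_134 r4_135 (nat_lit 0) (nat_lit 0) (nat_lit 0) (nat_lit 0x80029938e) (nat_lit 1073741824)]
noncomputable def e19_19 : List Rx := [
  Rx.mk (nat_lit 22) (nat_lit 6) (nat_lit 2) (nat_lit 0) (nat_lit 3) (nat_lit 138) (nat_lit 150) r10_138 r10_150 (nat_lit 0) (nat_lit 0) (nat_lit 894642) (nat_lit 0x80174e874) (nat_lit 1073288466),
  Rx.mk (nat_lit 150) (nat_lit 6) (nat_lit 2) (nat_lit 2) (nat_lit 7) (nat_lit 139) (nat_lit 152) r10_139 r10_152 (nat_lit 0) (nat_lit 0) (nat_lit 0) (nat_lit 0x80029938e) (nat_lit 1073741824),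
  Rx.mk (nat_lit 180) (nat_lit 4) (nat_lit 6) (nat_lit 2) (nat_lit 6) (nat_lit 136) (nat_lit 145) r10_136 r10_145 (nat_lit 894642) (nat_lit 0) (nat_lit 0) (nat_lit 0x80174e874) (nat_lit 1073288466),
  Rx.mk (nat_lit 182) (nat_lit 6) (nat_lit 6) (nat_lit 2) (nat_lit 7) (nat_lit 137) (nat_lit 153) r10_137 r10_153 (nat_lit 0) (nat_lit 0) (nat_lit 0) (nat_lit 0x80029938e) (nat_lit 1073741824),
  Rx.mk (nat_lit 183) (nat_lit 7) (nat_lit 6) (nat_lit 2) (nat_lit 7) (nat_lit 143) (nat_lit 148) r10_143 r10_148 (nat_lit 0) (nat_lit 0) (nat_lit 0) (nat_lit 0x80029938e) (nat_lit 1073741824),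
  Rx.mk (nat_lit 194) (nat_lit 2) (nat_lit 0) (nat_lit 3) (nat_lit 5) (nat_lit 146) (nat_lit 141) r10_146 r10_141 (nat_lit 0) (nat_lit 1048908) (nat_lit 0) (nat_lit 0x7fe544d42) (nat_lit 1076654532),
  Rx.mk (nat_lit 210) (nat_lit 2) (nat_lit 2) (nat_lit 3) (nat_lit 7) (nat_lit 147) (nat_lit 144) r10_147 r10_144 (nat_lit 0) (nat_lit 0) (nat_lit 0) (nat_lit 0x80994ec20) (nat_lit 1064156624),
  Rx.mk (nat_lit 214) (nat_lit 6) (nat_lit 2) (nat_lit 3) (nat_lit 7) (nat_lit 140) (nat_lit 151) r10_140 r10_151 (nat_lit 0) (nat_lit 0) (nat_lit 0) (nat_lit 0x80029938e) (nat_lit 1073741824),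
  Rx.mk (nat_lit 218) (nat_lit 2) (nat_lit 3) (nat_lit 3) (nat_lit 7) (nat_lit 149) (nat_lit 142) r10_149 r10_142 (nat_lit 0) (nat_lit 0) (nat_lit 0) (nat_lit 0x80994ec20) (nat_lit 1064156624),
  Rx.mk (nat_lit 315) (nat_lit 3) (nat_lit 7) (nat_lit 4) (nat_lit 3) (nat_lit 150) (nat_lit 138) r10_150 r10_138 (nat_lit 0) (nat_lit 0) (nat_lit 894642) (nat_lit 0x80174e874) (nat_lit 1073288466),
  Rx.mk (nat_lit 423) (nat_lit 7) (nat_lit 4) (nat_lit 6) (nat_lit 5) (nat_lit 141) (nat_lit 146) r10_141 r10_146 (nat_lit 0) (nat_lit 1048908) (nat_lit 0) (nat_lit 0x7fe544d42) (nat_lit 1076654532),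
  Rx.mk (nat_lit 439) (nat_lit 7) (nat_lit 6) (nat_lit 6) (nat_lit 7) (nat_lit 142) (nat_lit 149) r10_142 r10_149 (nat_lit 0) (nat_lit 0) (nat_lit 0) (nat_lit 0x80994ec20) (nat_lit 1064156624),
  Rx.mk (nat_lit 443) (nat_lit 3) (nat_lit 7) (nat_lit 6) (nat_lit 7) (nat_lit 151) (nat_lit 140) r10_151 r10_140 (nat_lit 0) (nat_lit 0) (nat_lit 0) (nat_lit 0x80029938e) (nat_lit 1073741824),
  Rx.mk (nat_lit 447) (nat_lit 7) (nat_lit 7) (nat_lit 6) (nat_lit 7) (nat_lit 144) (nat_lit 147) r10_144 r10_147 (nat_lit 0) (nat_lit 0) (nat_lit 0) (nat_lit 0x80994ec20) (nat_lit 1064156624),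
  Rx.mk (nat_lit 472) (nat_lit 0) (nat_lit 3) (nat_lit 7) (nat_lit 6) (nat_lit 145) (nat_lit 136) r10_145 r10_136 (nat_lit 894642) (nat_lit 0) (nat_lit 0) (nat_lit 0x80174e874) (nat_lit 1073288466),
  Rx.mk (nat_lit 474) (nat_lit 2) (nat_lit 3) (nat_lit 7) (nat_lit 7) (nat_lit 148) (nat_lit 143) r10_148 r10_143 (nat_lit 0) (nat_lit 0) (nat_lit 0) (nat_lit 0x80029938e) (nat_lit 1073741824),
  Rx.mk (nat_lit 475) (nat_lit 3) (nat_lit 3) (nat_lit 7) (nat_lit 7) (nat_lit 153) (nat_lit 137) r10_153 r10_137 (nat_lit 0) (nat_lit 0) (nat_lit 0) (nat_lit 0x80029938e) (nat_lit 1073741824),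
  Rx.mk (nat_lit 507) (nat_lit 3) (nat_lit 7) (nat_lit 7) (nat_lit 7) (nat_lit 152) (nat_lit 139) r10_152 r10_139 (nat_lit 0) (nat_lit 0) (nat_lit 0) (nat_lit 0x80029938e) (nat_lit 1073741824)]
noncomputable def e19_20 : List Rx := [
  Rx.mk (nat_lit 283) (nat_lit 3) (nat_lit 3) (nat_lit 4) (nat_lit 3) (nat_lit 159) (nat_lit 138) r10_159 r11_138 (nat_lit 0) (nat_lit 0) (nat_lit 5449534) (nat_lit 0x80029938e) (nat_lit 1079191358),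
  Rx.mk (nat_lit 315) (nat_lit 3) (nat_lit 7) (nat_lit 4) (nat_lit 3) (nat_lit 157) (nat_lit 140) r10_157 r11_140 (nat_lit 0) (nat_lit 0) (nat_lit 5449534) (nat_lit 0x80029938e) (nat_lit 1079191358),
  Rx.mk (nat_lit 443) (nat_lit 3) (nat_lit 7) (nat_lit 6) (nat_lit 7) (nat_lit 158) (nat_lit 141) r10_158 r11_141 (nat_lit 0) (nat_lit 0) (nat_lit 0) (nat_lit 0x80029938e) (nat_lit 1073741824),
  Rx.mk (nat_lit 447) (nat_lit 7) (nat_lit 7) (nat_lit 6) (nat_lit 7) (nat_lit 154) (nat_lit 143) r10_154 r11_143 (nat_lit 0) (nat_lit 0) (nat_lit 0) (nat_lit 0x8037ea8d0) (nat_lit 1070334824),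
  Rx.mk (nat_lit 472) (nat_lit 0) (nat_lit 3) (nat_lit 7) (nat_lit 6) (nat_lit 155) (nat_lit 137) r10_155 r11_137 (nat_lit 5449534) (nat_lit 0) (nat_lit 0) (nat_lit 0x80029938e) (nat_lit 1079191358),
  Rx.mk (nat_lit 474) (nat_lit 2) (nat_lit 3) (nat_lit 7) (nat_lit 7) (nat_lit 156) (nat_lit 142) r10_156 r11_142 (nat_lit 0) (nat_lit 0) (nat_lit 0) (nat_lit 0x80029938e) (nat_lit 1073741824),
  Rx.mk (nat_lit 475) (nat_lit 3) (nat_lit 3) (nat_lit 7) (nat_lit 7) (nat_lit 160) (nat_lit 139) r10_160 r11_139 (nat_lit 0) (nat_lit 0) (nat_lit 0) (nat_lit 0x80029938e) (nat_lit 1073741824)]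
noncomputable def e19_21 : List Rx := [
  Rx.mk (nat_lit 2) (nat_lit 2) (nat_lit 0) (nat_lit 0) (nat_lit 1) (nat_lit 161) (nat_lit 209) r10_161 r9_209 (nat_lit 0) (nat_lit 9287694) (nat_lit 8521077) (nat_lit 0x702db6ffe) (nat_lit 1355425695),
  Rx.mk (nat_lit 18) (nat_lit 2) (nat_lit 2) (nat_lit 0) (nat_lit 3) (nat_lit 164) (nat_lit 212) r10_164 r9_212 (nat_lit 0) (nat_lit 0) (nat_lit 5449534) (nat_lit 0x7fff35b2a) (nat_lit 1079408658),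
  Rx.mk (nat_lit 66) (nat_lit 2) (nat_lit 0) (nat_lit 1) (nat_lit 5) (nat_lit 162) (nat_lit 210) r10_162 r9_210 (nat_lit 0) (nat_lit 5449534) (nat_lit 0) (nat_lit 0x80029938e) (nat_lit 1079191358),
  Rx.mk (nat_lit 74) (nat_lit 2) (nat_lit 1) (nat_lit 1) (nat_lit 7) (nat_lit 163) (nat_lit 211) r10_163 r9_211 (nat_lit 0) (nat_lit 0) (nat_lit 0) (nat_lit 0x80029938e) (nat_lit 1073741824),
  Rx.mk (nat_lit 82) (nat_lit 2) (nat_lit 2) (nat_lit 1) (nat_lit 7) (nat_lit 165) (nat_lit 213) r10_165 r9_213 (nat_lit 0) (nat_lit 0) (nat_lit 0) (nat_lit 0x80029938e) (nat_lit 1073741824)]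
noncomputable def e19_22 : List Rx := [
  Rx.mk (nat_lit 320) (nat_lit 0) (nat_lit 0) (nat_lit 5) (nat_lit 4) (nat_lit 166) (nat_lit 322) r10_166 r0_322 (nat_lit 31804169) (nat_lit 2141139) (nat_lit 0) (nat_lit 0x67d4791ec) (nat_lit 1510741932),
  Rx.mk (nat_lit 321) (nat_lit 1) (nat_lit 0) (nat_lit 5) (nat_lit 5) (nat_lit 168) (nat_lit 324) r10_168 r0_324 (nat_lit 0) (nat_lit 6250628) (nat_lit 0) (nat_lit 0x7fcba2f38) (nat_lit 1083536252),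
  Rx.mk (nat_lit 322) (nat_lit 2) (nat_lit 0) (nat_lit 5) (nat_lit 5) (nat_lit 170) (nat_lit 326) r10_170 r0_326 (nat_lit 0) (nat_lit 5230327) (nat_lit 0) (nat_lit 0x7f655899e) (nat_lit 1089155351),
  Rx.mk (nat_lit 328) (nat_lit 0) (nat_lit 1) (nat_lit 5) (nat_lit 6) (nat_lit 167) (nat_lit 323) r10_167 r0_323 (nat_lit 6626663) (nat_lit 0) (nat_lit 0) (nat_lit 0x7fd2b1cde) (nat_lit 1083457587),
  Rx.mk (nat_lit 329) (nat_lit 1) (nat_lit 1) (nat_lit 5) (nat_lit 7) (nat_lit 169) (nat_lit 325) r10_169 r0_325 (nat_lit 0) (nat_lit 0) (nat_lit 0) (nat_lit 0x80131f6b8) (nat_lit 1072683424),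
  Rx.mk (nat_lit 330) (nat_lit 2) (nat_lit 1) (nat_lit 5) (nat_lit 7) (nat_lit 171) (nat_lit 327) r10_171 r0_327 (nat_lit 0) (nat_lit 0) (nat_lit 0) (nat_lit 0x80029938e) (nat_lit 1073741824)]
noncomputable def e19_23 : List Rx := [
  Rx.mk (nat_lit 328) (nat_lit 0) (nat_lit 1) (nat_lit 5) (nat_lit 6) (nat_lit 172) (nat_lit 307) r10_172 r1_307 (nat_lit 5449534) (nat_lit 0) (nat_lit 0) (nat_lit 0x7f87d2d1c) (nat_lit 1087130658),
  Rx.mk (nat_lit 329) (nat_lit 1) (nat_lit 1) (nat_lit 5) (nat_lit 7) (nat_lit 173) (nat_lit 308) r10_173 r1_308 (nat_lit 0) (nat_lit 0) (nat_lit 0) (nat_lit 0x80029938e) (nat_lit 1073741824),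
  Rx.mk (nat_lit 330) (nat_lit 2) (nat_lit 1) (nat_lit 5) (nat_lit 7) (nat_lit 174) (nat_lit 309) r10_174 r1_309 (nat_lit 0) (nat_lit 0) (nat_lit 0) (nat_lit 0x80029938e) (nat_lit 1073741824)]
noncomputable def e19_24 : List Rx := [
  Rx.mk (nat_lit 320) (nat_lit 0) (nat_lit 0) (nat_lit 5) (nat_lit 4) (nat_lit 175) (nat_lit 355) r10_175 r4_355 (nat_lit 8253129) (nat_lit 6309114) (nat_lit 0) (nat_lit 0x750b231e0) (nat_lit 1271062467),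
  Rx.mk (nat_lit 321) (nat_lit 1) (nat_lit 0) (nat_lit 5) (nat_lit 5) (nat_lit 178) (nat_lit 358) r10_178 r4_358 (nat_lit 0) (nat_lit 3972091) (nat_lit 0) (nat_lit 0x8021df644) (nat_lit 1075712715),
  Rx.mk (nat_lit 322) (nat_lit 2) (nat_lit 0) (nat_lit 5) (nat_lit 5) (nat_lit 181) (nat_lit 361) r10_181 r4_361 (nat_lit 0) (nat_lit 6376611) (nat_lit 0) (nat_lit 0x8010e4d9e) (nat_lit 1079201535),
  Rx.mk (nat_lit 328) (nat_lit 0) (nat_lit 1) (nat_lit 5) (nat_lit 6) (nat_lit 176) (nat_lit 356) r10_176 r4_356 (nat_lit 5449534) (nat_lit 0) (nat_lit 0) (nat_lit 0x800d8cc28) (nat_lit 1078489458),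
  Rx.mk (nat_lit 329) (nat_lit 1) (nat_lit 1) (nat_lit 5) (nat_lit 7) (nat_lit 179) (nat_lit 359) r10_179 r4_359 (nat_lit 0) (nat_lit 0) (nat_lit 0) (nat_lit 0x80029938e) (nat_lit 1073741824),
  Rx.mk (nat_lit 330) (nat_lit 2) (nat_lit 1) (nat_lit 5) (nat_lit 7) (nat_lit 182) (nat_lit 362) r10_182 r4_362 (nat_lit 0) (nat_lit 0) (nat_lit 0) (nat_lit 0x80029938e) (nat_lit 1073741824),
  Rx.mk (nat_lit 344) (nat_lit 0) (nat_lit 3) (nat_lit 5) (nat_lit 6) (nat_lit 177) (nat_lit 357) r10_177 r4_357 (nat_lit 4709985) (nat_lit 0) (nat_lit 0) (nat_lit 0x8005c37ee) (nat_lit 1078247509),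
  Rx.mk (nat_lit 345) (nat_lit 1) (nat_lit 3) (nat_lit 5) (nat_lit 7) (nat_lit 180) (nat_lit 360) r10_180 r4_360 (nat_lit 0) (nat_lit 0) (nat_lit 0) (nat_lit 0x80029938e) (nat_lit 1073741824)]
noncomputable def e19_25 : List Rx := [
  Rx.mk (nat_lit 66) (nat_lit 2) (nat_lit 0) (nat_lit 1) (nat_lit 5) (nat_lit 188) (nat_lit 258) r10_188 r7_258 (nat_lit 0) (nat_lit 5449534) (nat_lit 0) (nat_lit 0x80029938e) (nat_lit 1079191358),
  Rx.mk (nat_lit 74) (nat_lit 2) (nat_lit 1) (nat_lit 1) (nat_lit 7) (nat_lit 190) (nat_lit 262) r10_190 r7_262 (nat_lit 0) (nat_lit 0) (nat_lit 0) (nat_lit 0x80029938e) (nat_lit 1073741824),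
  Rx.mk (nat_lit 320) (nat_lit 0) (nat_lit 0) (nat_lit 5) (nat_lit 4) (nat_lit 183) (nat_lit 255) r10_183 r7_255 (nat_lit 2862197) (nat_lit 3562106) (nat_lit 0) (nat_lit 0x6f8080cd6) (nat_lit 1355313627),
  Rx.mk (nat_lit 321) (nat_lit 1) (nat_lit 0) (nat_lit 5) (nat_lit 5) (nat_lit 185) (nat_lit 256) r10_185 r7_256 (nat_lit 0) (nat_lit 5449534) (nat_lit 0) (nat_lit 0x80029938e) (nat_lit 1079191358),
  Rx.mk (nat_lit 322) (nat_lit 2) (nat_lit 0) (nat_lit 5) (nat_lit 5) (nat_lit 187) (nat_lit 257) r10_187 r7_257 (nat_lit 0) (nat_lit 5449534) (nat_lit 0) (nat_lit 0x80029938e) (nat_lit 1079191358),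
  Rx.mk (nat_lit 328) (nat_lit 0) (nat_lit 1) (nat_lit 5) (nat_lit 6) (nat_lit 184) (nat_lit 259) r10_184 r7_259 (nat_lit 5449534) (nat_lit 0) (nat_lit 0) (nat_lit 0x80029938e) (nat_lit 1079191358),
  Rx.mk (nat_lit 329) (nat_lit 1) (nat_lit 1) (nat_lit 5) (nat_lit 7) (nat_lit 186) (nat_lit 260) r10_186 r7_260 (nat_lit 0) (nat_lit 0) (nat_lit 0) (nat_lit 0x80029938e) (nat_lit 1073741824),
  Rx.mk (nat_lit 330) (nat_lit 2) (nat_lit 1) (nat_lit 5) (nat_lit 7) (nat_lit 189) (nat_lit 261) r10_189 r7_261 (nat_lit 0) (nat_lit 0) (nat_lit 0) (nat_lit 0x80029938e) (nat_lit 1073741824)]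
noncomputable def e19_26 : List Rx := [
  Rx.mk (nat_lit 74) (nat_lit 2) (nat_lit 1) (nat_lit 1) (nat_lit 7) (nat_lit 194) (nat_lit 197) r10_194 r8_197 (nat_lit 0) (nat_lit 0) (nat_lit 0) (nat_lit 0x80029938e) (nat_lit 1073741824),
  Rx.mk (nat_lit 328) (nat_lit 0) (nat_lit 1) (nat_lit 5) (nat_lit 6) (nat_lit 191) (nat_lit 194) r10_191 r8_194 (nat_lit 5449534) (nat_lit 0) (nat_lit 0) (nat_lit 0x80029938e) (nat_lit 1079191358),
  Rx.mk (nat_lit 329) (nat_lit 1) (nat_lit 1) (nat_lit 5) (nat_lit 7) (nat_lit 192) (nat_lit 195) r10_192 r8_195 (nat_lit 0) (nat_lit 0) (nat_lit 0) (nat_lit 0x80029938e) (nat_lit 1073741824),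
  Rx.mk (nat_lit 330) (nat_lit 2) (nat_lit 1) (nat_lit 5) (nat_lit 7) (nat_lit 193) (nat_lit 196) r10_193 r8_196 (nat_lit 0) (nat_lit 0) (nat_lit 0) (nat_lit 0x80029938e) (nat_lit 1073741824)]
noncomputable def e19_27 : List Rx := [
  Rx.mk (nat_lit 66) (nat_lit 2) (nat_lit 0) (nat_lit 1) (nat_lit 5) (nat_lit 195) (nat_lit 355) r10_195 r8_355 (nat_lit 0) (nat_lit 5449534) (nat_lit 0) (nat_lit 0x80029938e) (nat_lit 1079191358),
  Rx.mk (nat_lit 74) (nat_lit 2) (nat_lit 1) (nat_lit 1) (nat_lit 7) (nat_lit 196) (nat_lit 356) r10_196 r8_356 (nat_lit 0) (nat_lit 0) (nat_lit 0) (nat_lit 0x80029938e) (nat_lit 1073741824),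
  Rx.mk (nat_lit 82) (nat_lit 2) (nat_lit 2) (nat_lit 1) (nat_lit 7) (nat_lit 197) (nat_lit 357) r10_197 r8_357 (nat_lit 0) (nat_lit 0) (nat_lit 0) (nat_lit 0x80029938e) (nat_lit 1073741824)]
noncomputable def e19_28 : List Rx := [
  Rx.mk (nat_lit 320) (nat_lit 0) (nat_lit 0) (nat_lit 5) (nat_lit 4) (nat_lit 198) (nat_lit 198) r10_198 r10_198 (nat_lit 896959) (nat_lit 896959) (nat_lit 0) (nat_lit 0x73f86edfc) (nat_lit 1276180142),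
  Rx.mk (nat_lit 321) (nat_lit 1) (nat_lit 0) (nat_lit 5) (nat_lit 5) (nat_lit 201) (nat_lit 199) r10_201 r10_199 (nat_lit 0) (nat_lit 5449534) (nat_lit 0) (nat_lit 0x80029938e) (nat_lit 1079191358),
  Rx.mk (nat_lit 322) (nat_lit 2) (nat_lit 0) (nat_lit 5) (nat_lit 5) (nat_lit 204) (nat_lit 200) r10_204 r10_200 (nat_lit 0) (nat_lit 5449534) (nat_lit 0) (nat_lit 0x80029938e) (nat_lit 1079191358),
  Rx.mk (nat_lit 328) (nat_lit 0) (nat_lit 1) (nat_lit 5) (nat_lit 6) (nat_lit 199) (nat_lit 201) r10_199 r10_201 (nat_lit 5449534) (nat_lit 0) (nat_lit 0) (nat_lit 0x80029938e) (nat_lit 1079191358),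
  Rx.mk (nat_lit 329) (nat_lit 1) (nat_lit 1) (nat_lit 5) (nat_lit 7) (nat_lit 202) (nat_lit 202) r10_202 r10_202 (nat_lit 0) (nat_lit 0) (nat_lit 0) (nat_lit 0x80029938e) (nat_lit 1073741824),
  Rx.mk (nat_lit 330) (nat_lit 2) (nat_lit 1) (nat_lit 5) (nat_lit 7) (nat_lit 205) (nat_lit 203) r10_205 r10_203 (nat_lit 0) (nat_lit 0) (nat_lit 0) (nat_lit 0x80029938e) (nat_lit 1073741824),
  Rx.mk (nat_lit 344) (nat_lit 0) (nat_lit 3) (nat_lit 5) (nat_lit 6) (nat_lit 200) (nat_lit 204) r10_200 r10_204 (nat_lit 5449534) (nat_lit 0) (nat_lit 0) (nat_lit 0x80029938e) (nat_lit 1079191358),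
  Rx.mk (nat_lit 345) (nat_lit 1) (nat_lit 3) (nat_lit 5) (nat_lit 7) (nat_lit 203) (nat_lit 205) r10_203 r10_205 (nat_lit 0) (nat_lit 0) (nat_lit 0) (nat_lit 0x80029938e) (nat_lit 1073741824)]
noncomputable def e19_29 : List Rx := [
  Rx.mk (nat_lit 320) (nat_lit 0) (nat_lit 0) (nat_lit 5) (nat_lit 4) (nat_lit 206) (nat_lit 230) r10_206 r11_230 (nat_lit 11437609) (nat_lit 47198871) (nat_lit 0) (nat_lit 0x7dbac8fc0) (nat_lit 1170319804),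
  Rx.mk (nat_lit 322) (nat_lit 2) (nat_lit 0) (nat_lit 5) (nat_lit 5) (nat_lit 209) (nat_lit 231) r10_209 r11_231 (nat_lit 0) (nat_lit 5449534) (nat_lit 0) (nat_lit 0x800b95050) (nat_lit 1078615158),
  Rx.mk (nat_lit 328) (nat_lit 0) (nat_lit 1) (nat_lit 5) (nat_lit 6) (nat_lit 207) (nat_lit 232) r10_207 r11_232 (nat_lit 5449534) (nat_lit 0) (nat_lit 0) (nat_lit 0x80029938e) (nat_lit 1079191358),
  Rx.mk (nat_lit 330) (nat_lit 2) (nat_lit 1) (nat_lit 5) (nat_lit 7) (nat_lit 210) (nat_lit 233) r10_210 r11_233 (nat_lit 0) (nat_lit 0) (nat_lit 0) (nat_lit 0x80029938e) (nat_lit 1073741824),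
  Rx.mk (nat_lit 344) (nat_lit 0) (nat_lit 3) (nat_lit 5) (nat_lit 6) (nat_lit 208) (nat_lit 234) r10_208 r11_234 (nat_lit 5449534) (nat_lit 0) (nat_lit 0) (nat_lit 0x80029938e) (nat_lit 1079191358),
  Rx.mk (nat_lit 347) (nat_lit 3) (nat_lit 3) (nat_lit 5) (nat_lit 7) (nat_lit 211) (nat_lit 235) r10_211 r11_235 (nat_lit 0) (nat_lit 0) (nat_lit 0) (nat_lit 0x80029938e) (nat_lit 1073741824)]
noncomputable def e19_30 : List Rx := [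
  Rx.mk (nat_lit 315) (nat_lit 3) (nat_lit 7) (nat_lit 4) (nat_lit 3) (nat_lit 215) (nat_lit 134) r10_215 r5_134 (nat_lit 0) (nat_lit 0) (nat_lit 1919901) (nat_lit 0x80c317552) (nat_lit 1063433825),
  Rx.mk (nat_lit 443) (nat_lit 3) (nat_lit 7) (nat_lit 6) (nat_lit 7) (nat_lit 216) (nat_lit 139) r10_216 r5_139 (nat_lit 0) (nat_lit 0) (nat_lit 0) (nat_lit 0x80348d4f8) (nat_lit 1070549224),
  Rx.mk (nat_lit 472) (nat_lit 0) (nat_lit 3) (nat_lit 7) (nat_lit 6) (nat_lit 213) (nat_lit 137) r10_213 r5_137 (nat_lit 1409940) (nat_lit 0) (nat_lit 0) (nat_lit 0x8011f0f3a) (nat_lit 1074160464),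
  Rx.mk (nat_lit 474) (nat_lit 2) (nat_lit 3) (nat_lit 7) (nat_lit 7) (nat_lit 214) (nat_lit 138) r10_214 r5_138 (nat_lit 0) (nat_lit 0) (nat_lit 0) (nat_lit 0x80af22bc8) (nat_lit 1062775524),
  Rx.mk (nat_lit 504) (nat_lit 0) (nat_lit 7) (nat_lit 7) (nat_lit 6) (nat_lit 212) (nat_lit 135) r10_212 r5_135 (nat_lit 4741774) (nat_lit 0) (nat_lit 0) (nat_lit 0x78dac94e6) (nat_lit 1197703898),
  Rx.mk (nat_lit 507) (nat_lit 3) (nat_lit 7) (nat_lit 7) (nat_lit 7) (nat_lit 217) (nat_lit 136) r10_217 r5_136 (nat_lit 0) (nat_lit 0) (nat_lit 0) (nat_lit 0x7ff5fb7f8) (nat_lit 1074552324)]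
noncomputable def e19_31 : List Rx := [
  Rx.mk (nat_lit 218) (nat_lit 2) (nat_lit 3) (nat_lit 3) (nat_lit 7) (nat_lit 221) (nat_lit 143) r10_221 r11_143 (nat_lit 0) (nat_lit 0) (nat_lit 0) (nat_lit 0x8037ea8d0) (nat_lit 1070334824),
  Rx.mk (nat_lit 315) (nat_lit 3) (nat_lit 7) (nat_lit 4) (nat_lit 3) (nat_lit 222) (nat_lit 137) r10_222 r11_137 (nat_lit 0) (nat_lit 0) (nat_lit 5449534) (nat_lit 0x80029938e) (nat_lit 1079191358),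
  Rx.mk (nat_lit 443) (nat_lit 3) (nat_lit 7) (nat_lit 6) (nat_lit 7) (nat_lit 223) (nat_lit 142) r10_223 r11_142 (nat_lit 0) (nat_lit 0) (nat_lit 0) (nat_lit 0x80029938e) (nat_lit 1073741824),
  Rx.mk (nat_lit 472) (nat_lit 0) (nat_lit 3) (nat_lit 7) (nat_lit 6) (nat_lit 219) (nat_lit 140) r10_219 r11_140 (nat_lit 5449534) (nat_lit 0) (nat_lit 0) (nat_lit 0x80029938e) (nat_lit 1079191358),
  Rx.mk (nat_lit 474) (nat_lit 2) (nat_lit 3) (nat_lit 7) (nat_lit 7) (nat_lit 220) (nat_lit 141) r10_220 r11_141 (nat_lit 0) (nat_lit 0) (nat_lit 0) (nat_lit 0x80029938e) (nat_lit 1073741824),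
  Rx.mk (nat_lit 504) (nat_lit 0) (nat_lit 7) (nat_lit 7) (nat_lit 6) (nat_lit 218) (nat_lit 138) r10_218 r11_138 (nat_lit 5449534) (nat_lit 0) (nat_lit 0) (nat_lit 0x80029938e) (nat_lit 1079191358),
  Rx.mk (nat_lit 507) (nat_lit 3) (nat_lit 7) (nat_lit 7) (nat_lit 7) (nat_lit 224) (nat_lit 139) r10_224 r11_139 (nat_lit 0) (nat_lit 0) (nat_lit 0) (nat_lit 0x80029938e) (nat_lit 1073741824)]
noncomputable def e19_32 : List Rx := [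
  Rx.mk (nat_lit 280) (nat_lit 0) (nat_lit 3) (nat_lit 4) (nat_lit 2) (nat_lit 228) (nat_lit 345) r10_228 r6_345 (nat_lit 251735) (nat_lit 0) (nat_lit 281994) (nat_lit 0x6f241602c) (nat_lit 1355411153),
  Rx.mk (nat_lit 281) (nat_lit 1) (nat_lit 3) (nat_lit 4) (nat_lit 3) (nat_lit 233) (nat_lit 350) r10_233 r6_350 (nat_lit 0) (nat_lit 0) (nat_lit 1889821) (nat_lit 0x80c097fde) (nat_lit 1063560645),
  Rx.mk (nat_lit 282) (nat_lit 2) (nat_lit 3) (nat_lit 4) (nat_lit 3) (nat_lit 235) (nat_lit 354) r10_235 r6_354 (nat_lit 0) (nat_lit 0) (nat_lit 1889821) (nat_lit 0x80c097962) (nat_lit 1063560745),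
  Rx.mk (nat_lit 312) (nat_lit 0) (nat_lit 7) (nat_lit 4) (nat_lit 2) (nat_lit 225) (nat_lit 344) r10_225 r6_344 (nat_lit 281994) (nat_lit 0) (nat_lit 251735) (nat_lit 0x6f241602c) (nat_lit 1355411153),
  Rx.mk (nat_lit 313) (nat_lit 1) (nat_lit 7) (nat_lit 4) (nat_lit 3) (nat_lit 230) (nat_lit 349) r10_230 r6_349 (nat_lit 0) (nat_lit 0) (nat_lit 2530520) (nat_lit 0x80595a13c) (nat_lit 1070741144),
  Rx.mk (nat_lit 344) (nat_lit 0) (nat_lit 3) (nat_lit 5) (nat_lit 6) (nat_lit 229) (nat_lit 347) r10_229 r6_347 (nat_lit 2530520) (nat_lit 0) (nat_lit 0) (nat_lit 0x80595a13c) (nat_lit 1070741144),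
  Rx.mk (nat_lit 345) (nat_lit 1) (nat_lit 3) (nat_lit 5) (nat_lit 7) (nat_lit 234) (nat_lit 352) r10_234 r6_352 (nat_lit 0) (nat_lit 0) (nat_lit 0) (nat_lit 0x802855af0) (nat_lit 1071328824),
  Rx.mk (nat_lit 346) (nat_lit 2) (nat_lit 3) (nat_lit 5) (nat_lit 7) (nat_lit 236) (nat_lit 355) r10_236 r6_355 (nat_lit 0) (nat_lit 0) (nat_lit 0) (nat_lit 0x802855af0) (nat_lit 1071328824),
  Rx.mk (nat_lit 376) (nat_lit 0) (nat_lit 7) (nat_lit 5) (nat_lit 6) (nat_lit 226) (nat_lit 346) r10_226 r6_346 (nat_lit 1889821) (nat_lit 0) (nat_lit 0) (nat_lit 0x80c097fde) (nat_lit 1063560645),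
  Rx.mk (nat_lit 377) (nat_lit 1) (nat_lit 7) (nat_lit 5) (nat_lit 7) (nat_lit 231) (nat_lit 351) r10_231 r6_351 (nat_lit 0) (nat_lit 0) (nat_lit 0) (nat_lit 0x802855af0) (nat_lit 1071328824),
  Rx.mk (nat_lit 440) (nat_lit 0) (nat_lit 7) (nat_lit 6) (nat_lit 6) (nat_lit 227) (nat_lit 348) r10_227 r6_348 (nat_lit 1889821) (nat_lit 0) (nat_lit 0) (nat_lit 0x80c097962) (nat_lit 1063560745),
  Rx.mk (nat_lit 441) (nat_lit 1) (nat_lit 7) (nat_lit 6) (nat_lit 7) (nat_lit 232) (nat_lit 353) r10_232 r6_353 (nat_lit 0) (nat_lit 0) (nat_lit 0) (nat_lit 0x802855af0) (nat_lit 1071328824)]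
noncomputable def e19_33 : List Rx := [
  Rx.mk (nat_lit 344) (nat_lit 0) (nat_lit 3) (nat_lit 5) (nat_lit 6) (nat_lit 237) (nat_lit 307) r10_237 r5_307 (nat_lit 1799061) (nat_lit 0) (nat_lit 0) (nat_lit 0x8019a878c) (nat_lit 1074055785),
  Rx.mk (nat_lit 345) (nat_lit 1) (nat_lit 3) (nat_lit 5) (nat_lit 7) (nat_lit 238) (nat_lit 308) r10_238 r5_308 (nat_lit 0) (nat_lit 0) (nat_lit 0) (nat_lit 0x804b7b61a) (nat_lit 1069091624),
  Rx.mk (nat_lit 346) (nat_lit 2) (nat_lit 3) (nat_lit 5) (nat_lit 7) (nat_lit 239) (nat_lit 309) r10_239 r5_309 (nat_lit 0) (nat_lit 0) (nat_lit 0) (nat_lit 0x804b7c312) (nat_lit 1069091424)]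
noncomputable def e19_34 : List Rx := [
  Rx.mk (nat_lit 90) (nat_lit 2) (nat_lit 3) (nat_lit 1) (nat_lit 7) (nat_lit 243) (nat_lit 360) r10_243 r11_360 (nat_lit 0) (nat_lit 0) (nat_lit 0) (nat_lit 0x80029938e) (nat_lit 1073741824),
  Rx.mk (nat_lit 344) (nat_lit 0) (nat_lit 3) (nat_lit 5) (nat_lit 6) (nat_lit 240) (nat_lit 361) r10_240 r11_361 (nat_lit 2407548) (nat_lit 0) (nat_lit 0) (nat_lit 0x806441ffa) (nat_lit 1069926072),
  Rx.mk (nat_lit 345) (nat_lit 1) (nat_lit 3) (nat_lit 5) (nat_lit 7) (nat_lit 241) (nat_lit 362) r10_241 r11_362 (nat_lit 0) (nat_lit 0) (nat_lit 0) (nat_lit 0x803403b68) (nat_lit 1070584224),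
  Rx.mk (nat_lit 346) (nat_lit 2) (nat_lit 3) (nat_lit 5) (nat_lit 7) (nat_lit 242) (nat_lit 363) r10_242 r11_363 (nat_lit 0) (nat_lit 0) (nat_lit 0) (nat_lit 0x803403b68) (nat_lit 1070584224)]
noncomputable def e19_35 : List Rx := [
  Rx.mk (nat_lit 312) (nat_lit 0) (nat_lit 7) (nat_lit 4) (nat_lit 2) (nat_lit 244) (nat_lit 213) r10_244 r6_213 (nat_lit 325610) (nat_lit 0) (nat_lit 315034) (nat_lit 0x6c8871394) (nat_lit 1399003668),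
  Rx.mk (nat_lit 313) (nat_lit 1) (nat_lit 7) (nat_lit 4) (nat_lit 3) (nat_lit 249) (nat_lit 214) r10_249 r6_214 (nat_lit 0) (nat_lit 0) (nat_lit 2919586) (nat_lit 0x8040ec42e) (nat_lit 1072682510),
  Rx.mk (nat_lit 315) (nat_lit 3) (nat_lit 7) (nat_lit 4) (nat_lit 3) (nat_lit 254) (nat_lit 215) r10_254 r6_215 (nat_lit 0) (nat_lit 0) (nat_lit 1567710) (nat_lit 0x8053e18e0) (nat_lit 1070118234),
  Rx.mk (nat_lit 376) (nat_lit 0) (nat_lit 7) (nat_lit 5) (nat_lit 6) (nat_lit 245) (nat_lit 216) r10_245 r6_216 (nat_lit 2104035) (nat_lit 0) (nat_lit 0) (nat_lit 0x8089df83e) (nat_lit 1067238059),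
  Rx.mk (nat_lit 379) (nat_lit 3) (nat_lit 7) (nat_lit 5) (nat_lit 7) (nat_lit 255) (nat_lit 217) r10_255 r6_217 (nat_lit 0) (nat_lit 0) (nat_lit 0) (nat_lit 0x809b6df60) (nat_lit 1064022524),
  Rx.mk (nat_lit 440) (nat_lit 0) (nat_lit 7) (nat_lit 6) (nat_lit 6) (nat_lit 246) (nat_lit 220) r10_246 r6_220 (nat_lit 2104035) (nat_lit 0) (nat_lit 0) (nat_lit 0x8089df83e) (nat_lit 1067238059),
  Rx.mk (nat_lit 441) (nat_lit 1) (nat_lit 7) (nat_lit 6) (nat_lit 7) (nat_lit 250) (nat_lit 221) r10_250 r6_221 (nat_lit 0) (nat_lit 0) (nat_lit 0) (nat_lit 0x80192ccea) (nat_lit 1072297024),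
  Rx.mk (nat_lit 443) (nat_lit 3) (nat_lit 7) (nat_lit 6) (nat_lit 7) (nat_lit 256) (nat_lit 222) r10_256 r6_222 (nat_lit 0) (nat_lit 0) (nat_lit 0) (nat_lit 0x809b6df60) (nat_lit 1064022524),
  Rx.mk (nat_lit 472) (nat_lit 0) (nat_lit 3) (nat_lit 7) (nat_lit 6) (nat_lit 248) (nat_lit 210) r10_248 r6_210 (nat_lit 1425998) (nat_lit 0) (nat_lit 0) (nat_lit 0x8011ef310) (nat_lit 1074173622),
  Rx.mk (nat_lit 473) (nat_lit 1) (nat_lit 3) (nat_lit 7) (nat_lit 7) (nat_lit 252) (nat_lit 211) r10_252 r6_211 (nat_lit 0) (nat_lit 0) (nat_lit 0) (nat_lit 0x8099ba880) (nat_lit 1064130224),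
  Rx.mk (nat_lit 474) (nat_lit 2) (nat_lit 3) (nat_lit 7) (nat_lit 7) (nat_lit 253) (nat_lit 212) r10_253 r6_212 (nat_lit 0) (nat_lit 0) (nat_lit 0) (nat_lit 0x8099ba880) (nat_lit 1064130224),
  Rx.mk (nat_lit 504) (nat_lit 0) (nat_lit 7) (nat_lit 7) (nat_lit 6) (nat_lit 247) (nat_lit 218) r10_247 r6_218 (nat_lit 5449534) (nat_lit 0) (nat_lit 0) (nat_lit 0x7febd1840) (nat_lit 1080657058),
  Rx.mk (nat_lit 505) (nat_lit 1) (nat_lit 7) (nat_lit 7) (nat_lit 7) (nat_lit 251) (nat_lit 219) r10_251 r6_219 (nat_lit 0) (nat_lit 0) (nat_lit 0) (nat_lit 0x80029938e) (nat_lit 1073741824)]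
noncomputable def e19_36 : List Rx := [
  Rx.mk (nat_lit 280) (nat_lit 0) (nat_lit 3) (nat_lit 4) (nat_lit 2) (nat_lit 260) (nat_lit 138) r10_260 r12_138 (nat_lit 254448) (nat_lit 0) (nat_lit 248757) (nat_lit 0x6d3468e40) (nat_lit 1387661829),
  Rx.mk (nat_lit 281) (nat_lit 1) (nat_lit 3) (nat_lit 4) (nat_lit 3) (nat_lit 265) (nat_lit 144) r10_265 r12_144 (nat_lit 0) (nat_lit 0) (nat_lit 1311948) (nat_lit 0x83fdc9f30) (nat_lit 1010600972),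
  Rx.mk (nat_lit 282) (nat_lit 2) (nat_lit 3) (nat_lit 4) (nat_lit 3) (nat_lit 267) (nat_lit 151) r10_267 r12_151 (nat_lit 0) (nat_lit 0) (nat_lit 1325018) (nat_lit 0x844914026) (nat_lit 1005854542),
  Rx.mk (nat_lit 312) (nat_lit 0) (nat_lit 7) (nat_lit 4) (nat_lit 2) (nat_lit 257) (nat_lit 141) r10_257 r12_141 (nat_lit 248757) (nat_lit 0) (nat_lit 254448) (nat_lit 0x6d3468e40) (nat_lit 1387661829),
  Rx.mk (nat_lit 313) (nat_lit 1) (nat_lit 7) (nat_lit 4) (nat_lit 3) (nat_lit 263) (nat_lit 146) r10_263 r12_146 (nat_lit 0) (nat_lit 0) (nat_lit 1831361) (nat_lit 0x80d99ecf8) (nat_lit 1061919385),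
  Rx.mk (nat_lit 315) (nat_lit 3) (nat_lit 7) (nat_lit 4) (nat_lit 3) (nat_lit 270) (nat_lit 148) r10_270 r12_148 (nat_lit 0) (nat_lit 0) (nat_lit 1075682) (nat_lit 0x8008ee41e) (nat_lit 1074391406),
  Rx.mk (nat_lit 344) (nat_lit 0) (nat_lit 3) (nat_lit 5) (nat_lit 6) (nat_lit 261) (nat_lit 139) r10_261 r12_139 (nat_lit 1831361) (nat_lit 0) (nat_lit 0) (nat_lit 0x80d99ecf8) (nat_lit 1061919385),
  Rx.mk (nat_lit 346) (nat_lit 2) (nat_lit 3) (nat_lit 5) (nat_lit 7) (nat_lit 268) (nat_lit 152) r10_268 r12_152 (nat_lit 0) (nat_lit 0) (nat_lit 0) (nat_lit 0x80425a68a) (nat_lit 1069671024),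
  Rx.mk (nat_lit 376) (nat_lit 0) (nat_lit 7) (nat_lit 5) (nat_lit 6) (nat_lit 258) (nat_lit 142) r10_258 r12_142 (nat_lit 1311948) (nat_lit 0) (nat_lit 0) (nat_lit 0x83fdc9f30) (nat_lit 1010600972),
  Rx.mk (nat_lit 379) (nat_lit 3) (nat_lit 7) (nat_lit 5) (nat_lit 7) (nat_lit 271) (nat_lit 149) r10_271 r12_149 (nat_lit 0) (nat_lit 0) (nat_lit 0) (nat_lit 0x868d991c2) (nat_lit 967853924),
  Rx.mk (nat_lit 440) (nat_lit 0) (nat_lit 7) (nat_lit 6) (nat_lit 6) (nat_lit 259) (nat_lit 143) r10_259 r12_143 (nat_lit 1325018) (nat_lit 0) (nat_lit 0) (nat_lit 0x844914026) (nat_lit 1005854542),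
  Rx.mk (nat_lit 441) (nat_lit 1) (nat_lit 7) (nat_lit 6) (nat_lit 7) (nat_lit 264) (nat_lit 147) r10_264 r12_147 (nat_lit 0) (nat_lit 0) (nat_lit 0) (nat_lit 0x80425a68a) (nat_lit 1069671024),
  Rx.mk (nat_lit 443) (nat_lit 3) (nat_lit 7) (nat_lit 6) (nat_lit 7) (nat_lit 272) (nat_lit 150) r10_272 r12_150 (nat_lit 0) (nat_lit 0) (nat_lit 0) (nat_lit 0x868d991c2) (nat_lit 967853924),
  Rx.mk (nat_lit 472) (nat_lit 0) (nat_lit 3) (nat_lit 7) (nat_lit 6) (nat_lit 262) (nat_lit 140) r10_262 r12_140 (nat_lit 1075682) (nat_lit 0) (nat_lit 0) (nat_lit 0x8008ee41e) (nat_lit 1074391406),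
  Rx.mk (nat_lit 473) (nat_lit 1) (nat_lit 3) (nat_lit 7) (nat_lit 7) (nat_lit 266) (nat_lit 145) r10_266 r12_145 (nat_lit 0) (nat_lit 0) (nat_lit 0) (nat_lit 0x868d991c2) (nat_lit 967853924),
  Rx.mk (nat_lit 474) (nat_lit 2) (nat_lit 3) (nat_lit 7) (nat_lit 7) (nat_lit 269) (nat_lit 153) r10_269 r12_153 (nat_lit 0) (nat_lit 0) (nat_lit 0) (nat_lit 0x868d991c2) (nat_lit 967853924)]
noncomputable def e19_37 : List Rx := [
  Rx.mk (nat_lit 289) (nat_lit 1) (nat_lit 4) (nat_lit 4) (nat_lit 1) (nat_lit 273) (nat_lit 322) r10_273 r0_322 (nat_lit 0) (nat_lit 2141139) (nat_lit 31804169) (nat_lit 0x67d4791ec) (nat_lit 1510741932),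
  Rx.mk (nat_lit 297) (nat_lit 1) (nat_lit 5) (nat_lit 4) (nat_lit 3) (nat_lit 276) (nat_lit 323) r10_276 r0_323 (nat_lit 0) (nat_lit 0) (nat_lit 6626663) (nat_lit 0x7fd2b1cde) (nat_lit 1083457587),
  Rx.mk (nat_lit 353) (nat_lit 1) (nat_lit 4) (nat_lit 5) (nat_lit 5) (nat_lit 274) (nat_lit 324) r10_274 r0_324 (nat_lit 0) (nat_lit 6250628) (nat_lit 0) (nat_lit 0x7fcba2f38) (nat_lit 1083536252),
  Rx.mk (nat_lit 361) (nat_lit 1) (nat_lit 5) (nat_lit 5) (nat_lit 7) (nat_lit 277) (nat_lit 325) r10_277 r0_325 (nat_lit 0) (nat_lit 0) (nat_lit 0) (nat_lit 0x80131f6b8) (nat_lit 1072683424),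
  Rx.mk (nat_lit 417) (nat_lit 1) (nat_lit 4) (nat_lit 6) (nat_lit 5) (nat_lit 275) (nat_lit 326) r10_275 r0_326 (nat_lit 0) (nat_lit 5230327) (nat_lit 0) (nat_lit 0x7f655899e) (nat_lit 1089155351),
  Rx.mk (nat_lit 425) (nat_lit 1) (nat_lit 5) (nat_lit 6) (nat_lit 7) (nat_lit 278) (nat_lit 327) r10_278 r0_327 (nat_lit 0) (nat_lit 0) (nat_lit 0) (nat_lit 0x80029938e) (nat_lit 1073741824)]
noncomputable def e19_38 : List Rx := [
  Rx.mk (nat_lit 289) (nat_lit 1) (nat_lit 4) (nat_lit 4) (nat_lit 1) (nat_lit 281) (nat_lit 195) r10_281 r0_195 (nat_lit 0) (nat_lit 577871) (nat_lit 206251) (nat_lit 0x5b26d5dda) (nat_lit 1688936846),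
  Rx.mk (nat_lit 353) (nat_lit 1) (nat_lit 4) (nat_lit 5) (nat_lit 5) (nat_lit 282) (nat_lit 196) r10_282 r0_196 (nat_lit 0) (nat_lit 2475431) (nat_lit 0) (nat_lit 0x70fe46778) (nat_lit 1326502855),
  Rx.mk (nat_lit 417) (nat_lit 1) (nat_lit 4) (nat_lit 6) (nat_lit 5) (nat_lit 283) (nat_lit 197) r10_283 r0_197 (nat_lit 0) (nat_lit 336738388) (nat_lit 0) (nat_lit 0x7f9d350f6) (nat_lit 1417053112),
  Rx.mk (nat_lit 421) (nat_lit 5) (nat_lit 4) (nat_lit 6) (nat_lit 5) (nat_lit 279) (nat_lit 198) r10_279 r0_198 (nat_lit 0) (nat_lit 172576021) (nat_lit 0) (nat_lit 0x80845ae72) (nat_lit 1238006145),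
  Rx.mk (nat_lit 445) (nat_lit 5) (nat_lit 7) (nat_lit 6) (nat_lit 7) (nat_lit 280) (nat_lit 199) r10_280 r0_199 (nat_lit 0) (nat_lit 0) (nat_lit 0) (nat_lit 0x803360350) (nat_lit 1070623924)]
noncomputable def e19_39 : List Rx := [
  Rx.mk (nat_lit 289) (nat_lit 1) (nat_lit 4) (nat_lit 4) (nat_lit 1) (nat_lit 286) (nat_lit 433) r10_286 r7_433 (nat_lit 0) (nat_lit 3562106) (nat_lit 2862197) (nat_lit 0x6f8080cd6) (nat_lit 1355313627),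
  Rx.mk (nat_lit 297) (nat_lit 1) (nat_lit 5) (nat_lit 4) (nat_lit 3) (nat_lit 289) (nat_lit 434) r10_289 r7_434 (nat_lit 0) (nat_lit 0) (nat_lit 5449534) (nat_lit 0x80029938e) (nat_lit 1079191358),
  Rx.mk (nat_lit 353) (nat_lit 1) (nat_lit 4) (nat_lit 5) (nat_lit 5) (nat_lit 287) (nat_lit 435) r10_287 r7_435 (nat_lit 0) (nat_lit 5449534) (nat_lit 0) (nat_lit 0x80029938e) (nat_lit 1079191358),
  Rx.mk (nat_lit 361) (nat_lit 1) (nat_lit 5) (nat_lit 5) (nat_lit 7) (nat_lit 290) (nat_lit 436) r10_290 r7_436 (nat_lit 0) (nat_lit 0) (nat_lit 0) (nat_lit 0x80029938e) (nat_lit 1073741824),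
  Rx.mk (nat_lit 417) (nat_lit 1) (nat_lit 4) (nat_lit 6) (nat_lit 5) (nat_lit 288) (nat_lit 437) r10_288 r7_437 (nat_lit 0) (nat_lit 5449534) (nat_lit 0) (nat_lit 0x80029938e) (nat_lit 1079191358),
  Rx.mk (nat_lit 421) (nat_lit 5) (nat_lit 4) (nat_lit 6) (nat_lit 5) (nat_lit 284) (nat_lit 431) r10_284 r7_431 (nat_lit 0) (nat_lit 5449534) (nat_lit 0) (nat_lit 0x80029938e) (nat_lit 1079191358),
  Rx.mk (nat_lit 425) (nat_lit 1) (nat_lit 5) (nat_lit 6) (nat_lit 7) (nat_lit 291) (nat_lit 438) r10_291 r7_438 (nat_lit 0) (nat_lit 0) (nat_lit 0) (nat_lit 0x80029938e) (nat_lit 1073741824),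
  Rx.mk (nat_lit 429) (nat_lit 5) (nat_lit 5) (nat_lit 6) (nat_lit 7) (nat_lit 285) (nat_lit 432) r10_285 r7_432 (nat_lit 0) (nat_lit 0) (nat_lit 0) (nat_lit 0x80029938e) (nat_lit 1073741824)]
noncomputable def e19_40 : List Rx := [
  Rx.mk (nat_lit 420) (nat_lit 4) (nat_lit 4) (nat_lit 6) (nat_lit 4) (nat_lit 292) (nat_lit 230) r10_292 r2_230 (nat_lit 2760723) (nat_lit 4401173) (nat_lit 0) (nat_lit 0x6c070f076) (nat_lit 1413974020),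
  Rx.mk (nat_lit 421) (nat_lit 5) (nat_lit 4) (nat_lit 6) (nat_lit 5) (nat_lit 295) (nat_lit 231) r10_295 r2_231 (nat_lit 0) (nat_lit 5449534) (nat_lit 0) (nat_lit 0x80029938e) (nat_lit 1079191358),
  Rx.mk (nat_lit 436) (nat_lit 4) (nat_lit 6) (nat_lit 6) (nat_lit 6) (nat_lit 293) (nat_lit 235) r10_293 r2_235 (nat_lit 5449534) (nat_lit 0) (nat_lit 0) (nat_lit 0x80029938e) (nat_lit 1079191358),
  Rx.mk (nat_lit 437) (nat_lit 5) (nat_lit 6) (nat_lit 6) (nat_lit 7) (nat_lit 296) (nat_lit 236) r10_296 r2_236 (nat_lit 0) (nat_lit 0) (nat_lit 0) (nat_lit 0x80029938e) (nat_lit 1073741824),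
  Rx.mk (nat_lit 444) (nat_lit 4) (nat_lit 7) (nat_lit 6) (nat_lit 6) (nat_lit 294) (nat_lit 232) r10_294 r2_232 (nat_lit 5449534) (nat_lit 0) (nat_lit 0) (nat_lit 0x80029938e) (nat_lit 1079191358),
  Rx.mk (nat_lit 445) (nat_lit 5) (nat_lit 7) (nat_lit 6) (nat_lit 7) (nat_lit 297) (nat_lit 233) r10_297 r2_233 (nat_lit 0) (nat_lit 0) (nat_lit 0) (nat_lit 0x80029938e) (nat_lit 1073741824),
  Rx.mk (nat_lit 447) (nat_lit 7) (nat_lit 7) (nat_lit 6) (nat_lit 7) (nat_lit 298) (nat_lit 234) r10_298 r2_234 (nat_lit 0) (nat_lit 0) (nat_lit 0) (nat_lit 0x80029938e) (nat_lit 1073741824)]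
noncomputable def e19_41 : List Rx := [
  Rx.mk (nat_lit 420) (nat_lit 4) (nat_lit 4) (nat_lit 6) (nat_lit 4) (nat_lit 299) (nat_lit 209) r10_299 r9_209 (nat_lit 8521077) (nat_lit 9287694) (nat_lit 0) (nat_lit 0x702db6ffe) (nat_lit 1355425695),
  Rx.mk (nat_lit 421) (nat_lit 5) (nat_lit 4) (nat_lit 6) (nat_lit 5) (nat_lit 301) (nat_lit 210) r10_301 r9_210 (nat_lit 0) (nat_lit 5449534) (nat_lit 0) (nat_lit 0x80029938e) (nat_lit 1079191358),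
  Rx.mk (nat_lit 429) (nat_lit 5) (nat_lit 5) (nat_lit 6) (nat_lit 7) (nat_lit 302) (nat_lit 211) r10_302 r9_211 (nat_lit 0) (nat_lit 0) (nat_lit 0) (nat_lit 0x80029938e) (nat_lit 1073741824),
  Rx.mk (nat_lit 436) (nat_lit 4) (nat_lit 6) (nat_lit 6) (nat_lit 6) (nat_lit 300) (nat_lit 212) r10_300 r9_212 (nat_lit 5449534) (nat_lit 0) (nat_lit 0) (nat_lit 0x7fff35b2a) (nat_lit 1079408658),
  Rx.mk (nat_lit 437) (nat_lit 5) (nat_lit 6) (nat_lit 6) (nat_lit 7) (nat_lit 303) (nat_lit 213) r10_303 r9_213 (nat_lit 0) (nat_lit 0) (nat_lit 0) (nat_lit 0x80029938e) (nat_lit 1073741824)]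
noncomputable def e19_42 : List Rx := [
  Rx.mk (nat_lit 180) (nat_lit 4) (nat_lit 6) (nat_lit 2) (nat_lit 6) (nat_lit 306) (nat_lit 143) r10_306 r9_143 (nat_lit 5449534) (nat_lit 0) (nat_lit 0) (nat_lit 0x80029938e) (nat_lit 1079191358),
  Rx.mk (nat_lit 181) (nat_lit 5) (nat_lit 6) (nat_lit 2) (nat_lit 7) (nat_lit 310) (nat_lit 144) r10_310 r9_144 (nat_lit 0) (nat_lit 0) (nat_lit 0) (nat_lit 0x80029938e) (nat_lit 1073741824),
  Rx.mk (nat_lit 182) (nat_lit 6) (nat_lit 6) (nat_lit 2) (nat_lit 7) (nat_lit 312) (nat_lit 145) r10_312 r9_145 (nat_lit 0) (nat_lit 0) (nat_lit 0) (nat_lit 0x80029938e) (nat_lit 1073741824),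
  Rx.mk (nat_lit 420) (nat_lit 4) (nat_lit 4) (nat_lit 6) (nat_lit 4) (nat_lit 304) (nat_lit 136) r10_304 r9_136 (nat_lit 8967556) (nat_lit 10854105) (nat_lit 0) (nat_lit 0x6c3b432d4) (nat_lit 1423247285),
  Rx.mk (nat_lit 421) (nat_lit 5) (nat_lit 4) (nat_lit 6) (nat_lit 5) (nat_lit 308) (nat_lit 137) r10_308 r9_137 (nat_lit 0) (nat_lit 5449534) (nat_lit 0) (nat_lit 0x80029938e) (nat_lit 1079191358),
  Rx.mk (nat_lit 436) (nat_lit 4) (nat_lit 6) (nat_lit 6) (nat_lit 6) (nat_lit 305) (nat_lit 141) r10_305 r9_141 (nat_lit 5449534) (nat_lit 0) (nat_lit 0) (nat_lit 0x7ffe55638) (nat_lit 1079464858),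
  Rx.mk (nat_lit 437) (nat_lit 5) (nat_lit 6) (nat_lit 6) (nat_lit 7) (nat_lit 309) (nat_lit 142) r10_309 r9_142 (nat_lit 0) (nat_lit 0) (nat_lit 0) (nat_lit 0x80029938e) (nat_lit 1073741824),
  Rx.mk (nat_lit 444) (nat_lit 4) (nat_lit 7) (nat_lit 6) (nat_lit 6) (nat_lit 307) (nat_lit 138) r10_307 r9_138 (nat_lit 5449534) (nat_lit 0) (nat_lit 0) (nat_lit 0x80029938e) (nat_lit 1079191358),
  Rx.mk (nat_lit 445) (nat_lit 5) (nat_lit 7) (nat_lit 6) (nat_lit 7) (nat_lit 311) (nat_lit 139) r10_311 r9_139 (nat_lit 0) (nat_lit 0) (nat_lit 0) (nat_lit 0x80029938e) (nat_lit 1073741824),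
  Rx.mk (nat_lit 447) (nat_lit 7) (nat_lit 7) (nat_lit 6) (nat_lit 7) (nat_lit 313) (nat_lit 140) r10_313 r9_140 (nat_lit 0) (nat_lit 0) (nat_lit 0) (nat_lit 0x80029938e) (nat_lit 1073741824)]
noncomputable def e19_43 : List Rx := [
  Rx.mk (nat_lit 421) (nat_lit 5) (nat_lit 4) (nat_lit 6) (nat_lit 5) (nat_lit 314) (nat_lit 217) r10_314 r1_217 (nat_lit 0) (nat_lit 19618759) (nat_lit 0) (nat_lit 0x8216578f6) (nat_lit 1059686783),
  Rx.mk (nat_lit 437) (nat_lit 5) (nat_lit 6) (nat_lit 6) (nat_lit 7) (nat_lit 315) (nat_lit 219) r10_315 r1_219 (nat_lit 0) (nat_lit 0) (nat_lit 0) (nat_lit 0x808e6d8b0) (nat_lit 1064845524),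
  Rx.mk (nat_lit 445) (nat_lit 5) (nat_lit 7) (nat_lit 6) (nat_lit 7) (nat_lit 316) (nat_lit 218) r10_316 r1_218 (nat_lit 0) (nat_lit 0) (nat_lit 0) (nat_lit 0x80029938e) (nat_lit 1073741824)]
noncomputable def e19_44 : List Rx := [
  Rx.mk (nat_lit 421) (nat_lit 5) (nat_lit 4) (nat_lit 6) (nat_lit 5) (nat_lit 317) (nat_lit 355) r10_317 r8_355 (nat_lit 0) (nat_lit 5449534) (nat_lit 0) (nat_lit 0x80029938e) (nat_lit 1079191358),
  Rx.mk (nat_lit 429) (nat_lit 5) (nat_lit 5) (nat_lit 6) (nat_lit 7) (nat_lit 318) (nat_lit 356) r10_318 r8_356 (nat_lit 0) (nat_lit 0) (nat_lit 0) (nat_lit 0x80029938e) (nat_lit 1073741824),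
  Rx.mk (nat_lit 437) (nat_lit 5) (nat_lit 6) (nat_lit 6) (nat_lit 7) (nat_lit 319) (nat_lit 357) r10_319 r8_357 (nat_lit 0) (nat_lit 0) (nat_lit 0) (nat_lit 0x80029938e) (nat_lit 1073741824)]
noncomputable def e19_45 : List Rx := [
  Rx.mk (nat_lit 297) (nat_lit 1) (nat_lit 5) (nat_lit 4) (nat_lit 3) (nat_lit 320) (nat_lit 307) r10_320 r1_307 (nat_lit 0) (nat_lit 0) (nat_lit 5449534) (nat_lit 0x7f87d2d1c) (nat_lit 1087130658),
  Rx.mk (nat_lit 361) (nat_lit 1) (nat_lit 5) (nat_lit 5) (nat_lit 7) (nat_lit 321) (nat_lit 308) r10_321 r1_308 (nat_lit 0) (nat_lit 0) (nat_lit 0) (nat_lit 0x80029938e) (nat_lit 1073741824),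
  Rx.mk (nat_lit 425) (nat_lit 1) (nat_lit 5) (nat_lit 6) (nat_lit 7) (nat_lit 322) (nat_lit 309) r10_322 r1_309 (nat_lit 0) (nat_lit 0) (nat_lit 0) (nat_lit 0x80029938e) (nat_lit 1073741824)]
noncomputable def e19_46 : List Rx := [
  Rx.mk (nat_lit 329) (nat_lit 1) (nat_lit 1) (nat_lit 5) (nat_lit 7) (nat_lit 324) (nat_lit 355) r10_324 r2_355 (nat_lit 0) (nat_lit 0) (nat_lit 0) (nat_lit 0x80029938e) (nat_lit 1073741824),
  Rx.mk (nat_lit 361) (nat_lit 1) (nat_lit 5) (nat_lit 5) (nat_lit 7) (nat_lit 323) (nat_lit 354) r10_323 r2_354 (nat_lit 0) (nat_lit 0) (nat_lit 0) (nat_lit 0x80029938e) (nat_lit 1073741824)]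
noncomputable def e19_47 : List Rx := [
  Rx.mk (nat_lit 297) (nat_lit 1) (nat_lit 5) (nat_lit 4) (nat_lit 3) (nat_lit 326) (nat_lit 194) r10_326 r8_194 (nat_lit 0) (nat_lit 0) (nat_lit 5449534) (nat_lit 0x80029938e) (nat_lit 1079191358),
  Rx.mk (nat_lit 361) (nat_lit 1) (nat_lit 5) (nat_lit 5) (nat_lit 7) (nat_lit 327) (nat_lit 195) r10_327 r8_195 (nat_lit 0) (nat_lit 0) (nat_lit 0) (nat_lit 0x80029938e) (nat_lit 1073741824),
  Rx.mk (nat_lit 425) (nat_lit 1) (nat_lit 5) (nat_lit 6) (nat_lit 7) (nat_lit 328) (nat_lit 196) r10_328 r8_196 (nat_lit 0) (nat_lit 0) (nat_lit 0) (nat_lit 0x80029938e) (nat_lit 1073741824),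
  Rx.mk (nat_lit 429) (nat_lit 5) (nat_lit 5) (nat_lit 6) (nat_lit 7) (nat_lit 325) (nat_lit 197) r10_325 r8_197 (nat_lit 0) (nat_lit 0) (nat_lit 0) (nat_lit 0x80029938e) (nat_lit 1073741824)]
noncomputable def e19_48 : List Rx := [
  Rx.mk (nat_lit 329) (nat_lit 1) (nat_lit 1) (nat_lit 5) (nat_lit 7) (nat_lit 330) (nat_lit 318) r10_330 r9_318 (nat_lit 0) (nat_lit 0) (nat_lit 0) (nat_lit 0x80029938e) (nat_lit 1073741824),
  Rx.mk (nat_lit 361) (nat_lit 1) (nat_lit 5) (nat_lit 5) (nat_lit 7) (nat_lit 329) (nat_lit 317) r10_329 r9_317 (nat_lit 0) (nat_lit 0) (nat_lit 0) (nat_lit 0x80029938e) (nat_lit 1073741824)]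
noncomputable def e19_49 : List Rx := [
  Rx.mk (nat_lit 329) (nat_lit 1) (nat_lit 1) (nat_lit 5) (nat_lit 7) (nat_lit 332) (nat_lit 317) r10_332 r9_317 (nat_lit 0) (nat_lit 0) (nat_lit 0) (nat_lit 0x80029938e) (nat_lit 1073741824),
  Rx.mk (nat_lit 361) (nat_lit 1) (nat_lit 5) (nat_lit 5) (nat_lit 7) (nat_lit 331) (nat_lit 318) r10_331 r9_318 (nat_lit 0) (nat_lit 0) (nat_lit 0) (nat_lit 0x80029938e) (nat_lit 1073741824)]
noncomputable def e19_50 : List Rx := [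
  Rx.mk (nat_lit 289) (nat_lit 1) (nat_lit 4) (nat_lit 4) (nat_lit 1) (nat_lit 333) (nat_lit 325) r10_333 r3_325 (nat_lit 0) (nat_lit 15756) (nat_lit 22262) (nat_lit 0x62ad48e7e) (nat_lit 1562688942),
  Rx.mk (nat_lit 313) (nat_lit 1) (nat_lit 7) (nat_lit 4) (nat_lit 3) (nat_lit 336) (nat_lit 326) r10_336 r3_326 (nat_lit 0) (nat_lit 0) (nat_lit 96051) (nat_lit 0x88974f8cc) (nat_lit 934938275),
  Rx.mk (nat_lit 353) (nat_lit 1) (nat_lit 4) (nat_lit 5) (nat_lit 5) (nat_lit 334) (nat_lit 327) r10_334 r3_327 (nat_lit 0) (nat_lit 14524810) (nat_lit 0) (nat_lit 0x7f58f3384) (nat_lit 1099247534),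
  Rx.mk (nat_lit 377) (nat_lit 1) (nat_lit 7) (nat_lit 5) (nat_lit 7) (nat_lit 337) (nat_lit 328) r10_337 r3_328 (nat_lit 0) (nat_lit 0) (nat_lit 0) (nat_lit 0x9b76b2354) (nat_lit 629711124),
  Rx.mk (nat_lit 417) (nat_lit 1) (nat_lit 4) (nat_lit 6) (nat_lit 5) (nat_lit 335) (nat_lit 329) r10_335 r3_329 (nat_lit 0) (nat_lit 8861734) (nat_lit 0) (nat_lit 0x7fb3a6038) (nat_lit 1087701158),
  Rx.mk (nat_lit 441) (nat_lit 1) (nat_lit 7) (nat_lit 6) (nat_lit 7) (nat_lit 338) (nat_lit 330) r10_338 r3_330 (nat_lit 0) (nat_lit 0) (nat_lit 0) (nat_lit 0x9b76b3d44) (nat_lit 629710724)]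
noncomputable def e19_51 : List Rx := [
  Rx.mk (nat_lit 289) (nat_lit 1) (nat_lit 4) (nat_lit 4) (nat_lit 1) (nat_lit 339) (nat_lit 355) r10_339 r4_355 (nat_lit 0) (nat_lit 6309114) (nat_lit 8253129) (nat_lit 0x750b231e0) (nat_lit 1271062467),
  Rx.mk (nat_lit 297) (nat_lit 1) (nat_lit 5) (nat_lit 4) (nat_lit 3) (nat_lit 342) (nat_lit 356) r10_342 r4_356 (nat_lit 0) (nat_lit 0) (nat_lit 5449534) (nat_lit 0x800d8cc28) (nat_lit 1078489458),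
  Rx.mk (nat_lit 313) (nat_lit 1) (nat_lit 7) (nat_lit 4) (nat_lit 3) (nat_lit 345) (nat_lit 357) r10_345 r4_357 (nat_lit 0) (nat_lit 0) (nat_lit 4709985) (nat_lit 0x8005c37ee) (nat_lit 1078247509),
  Rx.mk (nat_lit 353) (nat_lit 1) (nat_lit 4) (nat_lit 5) (nat_lit 5) (nat_lit 340) (nat_lit 358) r10_340 r4_358 (nat_lit 0) (nat_lit 3972091) (nat_lit 0) (nat_lit 0x8021df644) (nat_lit 1075712715),
  Rx.mk (nat_lit 361) (nat_lit 1) (nat_lit 5) (nat_lit 5) (nat_lit 7) (nat_lit 343) (nat_lit 359) r10_343 r4_359 (nat_lit 0) (nat_lit 0) (nat_lit 0) (nat_lit 0x80029938e) (nat_lit 1073741824),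
  Rx.mk (nat_lit 377) (nat_lit 1) (nat_lit 7) (nat_lit 5) (nat_lit 7) (nat_lit 346) (nat_lit 360) r10_346 r4_360 (nat_lit 0) (nat_lit 0) (nat_lit 0) (nat_lit 0x80029938e) (nat_lit 1073741824),
  Rx.mk (nat_lit 417) (nat_lit 1) (nat_lit 4) (nat_lit 6) (nat_lit 5) (nat_lit 341) (nat_lit 361) r10_341 r4_361 (nat_lit 0) (nat_lit 6376611) (nat_lit 0) (nat_lit 0x8010e4d9e) (nat_lit 1079201535),
  Rx.mk (nat_lit 425) (nat_lit 1) (nat_lit 5) (nat_lit 6) (nat_lit 7) (nat_lit 344) (nat_lit 362) r10_344 r4_362 (nat_lit 0) (nat_lit 0) (nat_lit 0) (nat_lit 0x80029938e) (nat_lit 1073741824)]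
noncomputable def e19_52 : List Rx := [
  Rx.mk (nat_lit 313) (nat_lit 1) (nat_lit 7) (nat_lit 4) (nat_lit 3) (nat_lit 347) (nat_lit 307) r10_347 r5_307 (nat_lit 0) (nat_lit 0) (nat_lit 1799061) (nat_lit 0x8019a878c) (nat_lit 1074055785),
  Rx.mk (nat_lit 377) (nat_lit 1) (nat_lit 7) (nat_lit 5) (nat_lit 7) (nat_lit 348) (nat_lit 308) r10_348 r5_308 (nat_lit 0) (nat_lit 0) (nat_lit 0) (nat_lit 0x804b7b61a) (nat_lit 1069091624),
  Rx.mk (nat_lit 441) (nat_lit 1) (nat_lit 7) (nat_lit 6) (nat_lit 7) (nat_lit 349) (nat_lit 309) r10_349 r5_309 (nat_lit 0) (nat_lit 0) (nat_lit 0) (nat_lit 0x804b7c312) (nat_lit 1069091424)]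
noncomputable def e19_53 : List Rx := [
  Rx.mk (nat_lit 289) (nat_lit 1) (nat_lit 4) (nat_lit 4) (nat_lit 1) (nat_lit 351) (nat_lit 181) r10_351 r4_181 (nat_lit 0) (nat_lit 5552411) (nat_lit 2071508) (nat_lit 0x6601e5042) (nat_lit 1514816043),
  Rx.mk (nat_lit 313) (nat_lit 1) (nat_lit 7) (nat_lit 4) (nat_lit 3) (nat_lit 354) (nat_lit 184) r10_354 r4_184 (nat_lit 0) (nat_lit 0) (nat_lit 1895394) (nat_lit 0x80303ef3c) (nat_lit 1072711218),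
  Rx.mk (nat_lit 353) (nat_lit 1) (nat_lit 4) (nat_lit 5) (nat_lit 5) (nat_lit 352) (nat_lit 182) r10_352 r4_182 (nat_lit 0) (nat_lit 4412645) (nat_lit 0) (nat_lit 0x802289f68) (nat_lit 1076111669),
  Rx.mk (nat_lit 377) (nat_lit 1) (nat_lit 7) (nat_lit 5) (nat_lit 7) (nat_lit 355) (nat_lit 185) r10_355 r4_185 (nat_lit 0) (nat_lit 0) (nat_lit 0) (nat_lit 0x805b35a60) (nat_lit 1068092224),
  Rx.mk (nat_lit 417) (nat_lit 1) (nat_lit 4) (nat_lit 6) (nat_lit 5) (nat_lit 353) (nat_lit 183) r10_353 r4_183 (nat_lit 0) (nat_lit 5474881) (nat_lit 0) (nat_lit 0x7fdff8ef6) (nat_lit 1081440905),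
  Rx.mk (nat_lit 441) (nat_lit 1) (nat_lit 7) (nat_lit 6) (nat_lit 7) (nat_lit 356) (nat_lit 186) r10_356 r4_186 (nat_lit 0) (nat_lit 0) (nat_lit 0) (nat_lit 0x805b35a60) (nat_lit 1068092224),
  Rx.mk (nat_lit 445) (nat_lit 5) (nat_lit 7) (nat_lit 6) (nat_lit 7) (nat_lit 350) (nat_lit 187) r10_350 r4_187 (nat_lit 0) (nat_lit 0) (nat_lit 0) (nat_lit 0x8018b37f0) (nat_lit 1072325924)]
noncomputable def e19_54 : List Rx := [
  Rx.mk (nat_lit 289) (nat_lit 1) (nat_lit 4) (nat_lit 4) (nat_lit 1) (nat_lit 357) (nat_lit 357) r10_357 r10_357 (nat_lit 0) (nat_lit 896959) (nat_lit 896959) (nat_lit 0x73f86edfc) (nat_lit 1276180142),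
  Rx.mk (nat_lit 297) (nat_lit 1) (nat_lit 5) (nat_lit 4) (nat_lit 3) (nat_lit 360) (nat_lit 358) r10_360 r10_358 (nat_lit 0) (nat_lit 0) (nat_lit 5449534) (nat_lit 0x80029938e) (nat_lit 1079191358),
  Rx.mk (nat_lit 313) (nat_lit 1) (nat_lit 7) (nat_lit 4) (nat_lit 3) (nat_lit 363) (nat_lit 359) r10_363 r10_359 (nat_lit 0) (nat_lit 0) (nat_lit 5449534) (nat_lit 0x80029938e) (nat_lit 1079191358),
  Rx.mk (nat_lit 353) (nat_lit 1) (nat_lit 4) (nat_lit 5) (nat_lit 5) (nat_lit 358) (nat_lit 360) r10_358 r10_360 (nat_lit 0) (nat_lit 5449534) (nat_lit 0) (nat_lit 0x80029938e) (nat_lit 1079191358),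
  Rx.mk (nat_lit 361) (nat_lit 1) (nat_lit 5) (nat_lit 5) (nat_lit 7) (nat_lit 361) (nat_lit 361) r10_361 r10_361 (nat_lit 0) (nat_lit 0) (nat_lit 0) (nat_lit 0x80029938e) (nat_lit 1073741824),
  Rx.mk (nat_lit 377) (nat_lit 1) (nat_lit 7) (nat_lit 5) (nat_lit 7) (nat_lit 364) (nat_lit 362) r10_364 r10_362 (nat_lit 0) (nat_lit 0) (nat_lit 0) (nat_lit 0x80029938e) (nat_lit 1073741824),
  Rx.mk (nat_lit 417) (nat_lit 1) (nat_lit 4) (nat_lit 6) (nat_lit 5) (nat_lit 359) (nat_lit 363) r10_359 r10_363 (nat_lit 0) (nat_lit 5449534) (nat_lit 0) (nat_lit 0x80029938e) (nat_lit 1079191358),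
  Rx.mk (nat_lit 425) (nat_lit 1) (nat_lit 5) (nat_lit 6) (nat_lit 7) (nat_lit 362) (nat_lit 364) r10_362 r10_364 (nat_lit 0) (nat_lit 0) (nat_lit 0) (nat_lit 0x80029938e) (nat_lit 1073741824)]
noncomputable def e19_55 : List Rx := [
  Rx.mk (nat_lit 313) (nat_lit 1) (nat_lit 7) (nat_lit 4) (nat_lit 3) (nat_lit 366) (nat_lit 361) r10_366 r11_361 (nat_lit 0) (nat_lit 0) (nat_lit 2407548) (nat_lit 0x806441ffa) (nat_lit 1069926072),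
  Rx.mk (nat_lit 377) (nat_lit 1) (nat_lit 7) (nat_lit 5) (nat_lit 7) (nat_lit 367) (nat_lit 362) r10_367 r11_362 (nat_lit 0) (nat_lit 0) (nat_lit 0) (nat_lit 0x803403b68) (nat_lit 1070584224),
  Rx.mk (nat_lit 441) (nat_lit 1) (nat_lit 7) (nat_lit 6) (nat_lit 7) (nat_lit 368) (nat_lit 363) r10_368 r11_363 (nat_lit 0) (nat_lit 0) (nat_lit 0) (nat_lit 0x803403b68) (nat_lit 1070584224),
  Rx.mk (nat_lit 445) (nat_lit 5) (nat_lit 7) (nat_lit 6) (nat_lit 7) (nat_lit 365) (nat_lit 360) r10_365 r11_360 (nat_lit 0) (nat_lit 0) (nat_lit 0) (nat_lit 0x80029938e) (nat_lit 1073741824)]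
noncomputable def e19_56 : List Rx := [
  Rx.mk (nat_lit 289) (nat_lit 1) (nat_lit 4) (nat_lit 4) (nat_lit 1) (nat_lit 369) (nat_lit 197) r10_369 r5_197 (nat_lit 0) (nat_lit 5696356) (nat_lit 1601519) (nat_lit 0x726966d0e) (nat_lit 1307672399),
  Rx.mk (nat_lit 313) (nat_lit 1) (nat_lit 7) (nat_lit 4) (nat_lit 3) (nat_lit 371) (nat_lit 199) r10_371 r5_199 (nat_lit 0) (nat_lit 0) (nat_lit 1673969) (nat_lit 0x80ad5689e) (nat_lit 1064560193),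
  Rx.mk (nat_lit 417) (nat_lit 1) (nat_lit 4) (nat_lit 6) (nat_lit 5) (nat_lit 370) (nat_lit 198) r10_370 r5_198 (nat_lit 0) (nat_lit 5449534) (nat_lit 0) (nat_lit 0x8011b0cbe) (nat_lit 1078224358),
  Rx.mk (nat_lit 441) (nat_lit 1) (nat_lit 7) (nat_lit 6) (nat_lit 7) (nat_lit 372) (nat_lit 201) r10_372 r5_201 (nat_lit 0) (nat_lit 0) (nat_lit 0) (nat_lit 0x803e42840) (nat_lit 1069931224),
  Rx.mk (nat_lit 505) (nat_lit 1) (nat_lit 7) (nat_lit 7) (nat_lit 7) (nat_lit 373) (nat_lit 200) r10_373 r5_200 (nat_lit 0) (nat_lit 0) (nat_lit 0) (nat_lit 0x80029938e) (nat_lit 1073741824)]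
noncomputable def e19_57 : List Rx := [
  Rx.mk (nat_lit 289) (nat_lit 1) (nat_lit 4) (nat_lit 4) (nat_lit 1) (nat_lit 374) (nat_lit 230) r10_374 r11_230 (nat_lit 0) (nat_lit 47198871) (nat_lit 11437609) (nat_lit 0x7dbac8fc0) (nat_lit 1170319804),
  Rx.mk (nat_lit 297) (nat_lit 1) (nat_lit 5) (nat_lit 4) (nat_lit 3) (nat_lit 376) (nat_lit 232) r10_376 r11_232 (nat_lit 0) (nat_lit 0) (nat_lit 5449534) (nat_lit 0x80029938e) (nat_lit 1079191358),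
  Rx.mk (nat_lit 313) (nat_lit 1) (nat_lit 7) (nat_lit 4) (nat_lit 3) (nat_lit 378) (nat_lit 234) r10_378 r11_234 (nat_lit 0) (nat_lit 0) (nat_lit 5449534) (nat_lit 0x80029938e) (nat_lit 1079191358),
  Rx.mk (nat_lit 417) (nat_lit 1) (nat_lit 4) (nat_lit 6) (nat_lit 5) (nat_lit 375) (nat_lit 231) r10_375 r11_231 (nat_lit 0) (nat_lit 5449534) (nat_lit 0) (nat_lit 0x800b95050) (nat_lit 1078615158),
  Rx.mk (nat_lit 425) (nat_lit 1) (nat_lit 5) (nat_lit 6) (nat_lit 7) (nat_lit 377) (nat_lit 233) r10_377 r11_233 (nat_lit 0) (nat_lit 0) (nat_lit 0) (nat_lit 0x80029938e) (nat_lit 1073741824),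
  Rx.mk (nat_lit 505) (nat_lit 1) (nat_lit 7) (nat_lit 7) (nat_lit 7) (nat_lit 379) (nat_lit 235) r10_379 r11_235 (nat_lit 0) (nat_lit 0) (nat_lit 0) (nat_lit 0x80029938e) (nat_lit 1073741824)]
noncomputable def e19 : List (List Rx) := [e19_0, e19_1, e19_2, e19_3, e19_4, e19_5, e19_6, e19_7, e19_8, e19_9, e19_10, e19_11, e19_12, e19_13, e19_14, e19_15, e19_16, e19_17, e19_18, e19_19, e19_20, e19_21, e19_22, e19_23, e19_24, e19_25, e19_26, e19_27, e19_28, e19_29, e19_30, e19_31, e19_32, e19_33, e19_34, e19_35, e19_36, e19_37, e19_38, e19_39, e19_40, e19_41, e19_42, e19_43, e19_44, e19_45, e19_46, e19_47, e19_48, e19_49, e19_50, e19_51, e19_52, e19_53, e19_54, e19_55, e19_56, e19_57]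
noncomputable def e20_0 : List Rx := [
  Rx.mk (nat_lit 18) (nat_lit 2) (nat_lit 2) (nat_lit 0) (nat_lit 3) (nat_lit 0) (nat_lit 152) r11_0 r0_152 (nat_lit 0) (nat_lit 0) (nat_lit 4245916) (nat_lit 0x7feae8000) (nat_lit 1079510240),
  Rx.mk (nat_lit 210) (nat_lit 2) (nat_lit 2) (nat_lit 3) (nat_lit 7) (nat_lit 1) (nat_lit 153) r11_1 r0_153 (nat_lit 0) (nat_lit 0) (nat_lit 0) (nat_lit 0x800bb8a46) (nat_lit 1073157024)]
noncomputable def e20_1 : List Rx := [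
  Rx.mk (nat_lit 18) (nat_lit 2) (nat_lit 2) (nat_lit 0) (nat_lit 3) (nat_lit 2) (nat_lit 166) r11_2 r1_166 (nat_lit 0) (nat_lit 0) (nat_lit 5621376) (nat_lit 0x7fea6aa60) (nat_lit 1080917600),
  Rx.mk (nat_lit 82) (nat_lit 2) (nat_lit 2) (nat_lit 1) (nat_lit 7) (nat_lit 3) (nat_lit 167) r11_3 r1_167 (nat_lit 0) (nat_lit 0) (nat_lit 0) (nat_lit 0x80029938e) (nat_lit 1073741824),
  Rx.mk (nat_lit 210) (nat_lit 2) (nat_lit 2) (nat_lit 3) (nat_lit 7) (nat_lit 4) (nat_lit 168) r11_4 r1_168 (nat_lit 0) (nat_lit 0) (nat_lit 0) (nat_lit 0x80029938e) (nat_lit 1073741824)]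
noncomputable def e20_2 : List Rx := [
  Rx.mk (nat_lit 82) (nat_lit 2) (nat_lit 2) (nat_lit 1) (nat_lit 7) (nat_lit 5) (nat_lit 167) r11_5 r2_167 (nat_lit 0) (nat_lit 0) (nat_lit 0) (nat_lit 0x80029938e) (nat_lit 1073741824)]
noncomputable def e20_3 : List Rx := [
  Rx.mk (nat_lit 210) (nat_lit 2) (nat_lit 2) (nat_lit 3) (nat_lit 7) (nat_lit 6) (nat_lit 140) r11_6 r3_140 (nat_lit 0) (nat_lit 0) (nat_lit 0) (nat_lit 0x9287cfb68) (nat_lit 774145224),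
  Rx.mk (nat_lit 443) (nat_lit 3) (nat_lit 7) (nat_lit 6) (nat_lit 7) (nat_lit 7) (nat_lit 139) r11_7 r3_139 (nat_lit 0) (nat_lit 0) (nat_lit 0) (nat_lit 0x970ef9cfc) (nat_lit 700901524)]
noncomputable def e20_4 : List Rx := [
  Rx.mk (nat_lit 210) (nat_lit 2) (nat_lit 2) (nat_lit 3) (nat_lit 7) (nat_lit 8) (nat_lit 143) r11_8 r4_143 (nat_lit 0) (nat_lit 0) (nat_lit 0) (nat_lit 0x80029938e) (nat_lit 1073741824)]
noncomputable def e20_5 : List Rx := [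
  Rx.mk (nat_lit 210) (nat_lit 2) (nat_lit 2) (nat_lit 3) (nat_lit 7) (nat_lit 13) (nat_lit 148) r11_13 r5_148 (nat_lit 0) (nat_lit 0) (nat_lit 0) (nat_lit 0x8093c6438) (nat_lit 1064504724),
  Rx.mk (nat_lit 283) (nat_lit 3) (nat_lit 3) (nat_lit 4) (nat_lit 3) (nat_lit 16) (nat_lit 142) r11_16 r5_142 (nat_lit 0) (nat_lit 0) (nat_lit 2807402) (nat_lit 0x7fb00afd2) (nat_lit 1081869426),
  Rx.mk (nat_lit 411) (nat_lit 3) (nat_lit 3) (nat_lit 6) (nat_lit 7) (nat_lit 17) (nat_lit 144) r11_17 r5_144 (nat_lit 0) (nat_lit 0) (nat_lit 0) (nat_lit 0x80029938e) (nat_lit 1073741824),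
  Rx.mk (nat_lit 443) (nat_lit 3) (nat_lit 7) (nat_lit 6) (nat_lit 7) (nat_lit 15) (nat_lit 145) r11_15 r5_145 (nat_lit 0) (nat_lit 0) (nat_lit 0) (nat_lit 0x8c926658c) (nat_lit 870523024),
  Rx.mk (nat_lit 448) (nat_lit 0) (nat_lit 0) (nat_lit 7) (nat_lit 4) (nat_lit 9) (nat_lit 140) r11_9 r5_140 (nat_lit 125684) (nat_lit 175020) (nat_lit 0) (nat_lit 0x733f0fb0e) (nat_lit 1286716228),
  Rx.mk (nat_lit 450) (nat_lit 2) (nat_lit 0) (nat_lit 7) (nat_lit 5) (nat_lit 11) (nat_lit 146) r11_11 r5_146 (nat_lit 0) (nat_lit 1759938) (nat_lit 0) (nat_lit 0x802382334) (nat_lit 1073384662),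
  Rx.mk (nat_lit 466) (nat_lit 2) (nat_lit 2) (nat_lit 7) (nat_lit 7) (nat_lit 12) (nat_lit 149) r11_12 r5_149 (nat_lit 0) (nat_lit 0) (nat_lit 0) (nat_lit 0x801ffa1a8) (nat_lit 1071862024),
  Rx.mk (nat_lit 472) (nat_lit 0) (nat_lit 3) (nat_lit 7) (nat_lit 6) (nat_lit 10) (nat_lit 141) r11_10 r5_141 (nat_lit 1188030) (nat_lit 0) (nat_lit 0) (nat_lit 0x853c4c630) (nat_lit 990345654),
  Rx.mk (nat_lit 474) (nat_lit 2) (nat_lit 3) (nat_lit 7) (nat_lit 7) (nat_lit 14) (nat_lit 147) r11_14 r5_147 (nat_lit 0) (nat_lit 0) (nat_lit 0) (nat_lit 0x8087d4972) (nat_lit 1065267524),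
  Rx.mk (nat_lit 475) (nat_lit 3) (nat_lit 3) (nat_lit 7) (nat_lit 7) (nat_lit 18) (nat_lit 143) r11_18 r5_143 (nat_lit 0) (nat_lit 0) (nat_lit 0) (nat_lit 0x80029938e) (nat_lit 1073741824)]
noncomputable def e20_6 : List Rx := [
  Rx.mk (nat_lit 256) (nat_lit 0) (nat_lit 0) (nat_lit 4) (nat_lit 0) (nat_lit 19) (nat_lit 186) r11_19 r3_186 (nat_lit 14728) (nat_lit 13405) (nat_lit 10953) (nat_lit 0x4ae9c72d2) (nat_lit 1958901310),
  Rx.mk (nat_lit 257) (nat_lit 1) (nat_lit 0) (nat_lit 4) (nat_lit 1) (nat_lit 25) (nat_lit 189) r11_25 r3_189 (nat_lit 0) (nat_lit 280142) (nat_lit 2392413) (nat_lit 0x66a75eea6) (nat_lit 1499043279),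
  Rx.mk (nat_lit 258) (nat_lit 2) (nat_lit 0) (nat_lit 4) (nat_lit 1) (nat_lit 31) (nat_lit 192) r11_31 r3_192 (nat_lit 0) (nat_lit 186023355) (nat_lit 142575) (nat_lit 0x6ffd0fa54) (nat_lit 1526896154),
  Rx.mk (nat_lit 274) (nat_lit 2) (nat_lit 2) (nat_lit 4) (nat_lit 3) (nat_lit 33) (nat_lit 202) r11_33 r3_202 (nat_lit 0) (nat_lit 0) (nat_lit 5449534) (nat_lit 0x7edae2d3c) (nat_lit 1098382458),
  Rx.mk (nat_lit 280) (nat_lit 0) (nat_lit 3) (nat_lit 4) (nat_lit 2) (nat_lit 22) (nat_lit 194) r11_22 r3_194 (nat_lit 670112) (nat_lit 0) (nat_lit 549568) (nat_lit 0x69e9acd0a) (nat_lit 1443278804),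
  Rx.mk (nat_lit 281) (nat_lit 1) (nat_lit 3) (nat_lit 4) (nat_lit 3) (nat_lit 28) (nat_lit 197) r11_28 r3_197 (nat_lit 0) (nat_lit 0) (nat_lit 2769157) (nat_lit 0x7fe0aa2aa) (nat_lit 1078693281),
  Rx.mk (nat_lit 282) (nat_lit 2) (nat_lit 3) (nat_lit 4) (nat_lit 3) (nat_lit 35) (nat_lit 200) r11_35 r3_200 (nat_lit 0) (nat_lit 0) (nat_lit 2583324) (nat_lit 0x8001e2788) (nat_lit 1076364148),
  Rx.mk (nat_lit 320) (nat_lit 0) (nat_lit 0) (nat_lit 5) (nat_lit 4) (nat_lit 20) (nat_lit 187) r11_20 r3_187 (nat_lit 10345631) (nat_lit 4197450) (nat_lit 0) (nat_lit 0x687798d28) (nat_lit 1480729305),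
  Rx.mk (nat_lit 321) (nat_lit 1) (nat_lit 0) (nat_lit 5) (nat_lit 5) (nat_lit 26) (nat_lit 190) r11_26 r3_190 (nat_lit 0) (nat_lit 5449534) (nat_lit 0) (nat_lit 0x80029938e) (nat_lit 1079191358),
  Rx.mk (nat_lit 322) (nat_lit 2) (nat_lit 0) (nat_lit 5) (nat_lit 5) (nat_lit 32) (nat_lit 193) r11_32 r3_193 (nat_lit 0) (nat_lit 5985185) (nat_lit 0) (nat_lit 0x8004716b6) (nat_lit 1079607809),
  Rx.mk (nat_lit 338) (nat_lit 2) (nat_lit 2) (nat_lit 5) (nat_lit 7) (nat_lit 34) (nat_lit 203) r11_34 r3_203 (nat_lit 0) (nat_lit 0) (nat_lit 0) (nat_lit 0x80029938e) (nat_lit 1073741824),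
  Rx.mk (nat_lit 344) (nat_lit 0) (nat_lit 3) (nat_lit 5) (nat_lit 6) (nat_lit 23) (nat_lit 195) r11_23 r3_195 (nat_lit 1833420) (nat_lit 0) (nat_lit 0) (nat_lit 0x80fbf3f4c) (nat_lit 1059750544),
  Rx.mk (nat_lit 345) (nat_lit 1) (nat_lit 3) (nat_lit 5) (nat_lit 7) (nat_lit 29) (nat_lit 198) r11_29 r3_198 (nat_lit 0) (nat_lit 0) (nat_lit 0) (nat_lit 0x8029b3c76) (nat_lit 1071240424),
  Rx.mk (nat_lit 346) (nat_lit 2) (nat_lit 3) (nat_lit 5) (nat_lit 7) (nat_lit 36) (nat_lit 201) r11_36 r3_201 (nat_lit 0) (nat_lit 0) (nat_lit 0) (nat_lit 0x8029b3c76) (nat_lit 1071240424),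
  Rx.mk (nat_lit 384) (nat_lit 0) (nat_lit 0) (nat_lit 6) (nat_lit 4) (nat_lit 21) (nat_lit 188) r11_21 r3_188 (nat_lit 6307296) (nat_lit 30752625) (nat_lit 0) (nat_lit 0x70f1635ce) (nat_lit 1361931145),
  Rx.mk (nat_lit 385) (nat_lit 1) (nat_lit 0) (nat_lit 6) (nat_lit 5) (nat_lit 27) (nat_lit 191) r11_27 r3_191 (nat_lit 0) (nat_lit 5203886) (nat_lit 0) (nat_lit 0x7ffd2d666) (nat_lit 1079291910),
  Rx.mk (nat_lit 408) (nat_lit 0) (nat_lit 3) (nat_lit 6) (nat_lit 6) (nat_lit 24) (nat_lit 196) r11_24 r3_196 (nat_lit 1201223) (nat_lit 0) (nat_lit 0) (nat_lit 0x8079a638c) (nat_lit 1067378647),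
  Rx.mk (nat_lit 409) (nat_lit 1) (nat_lit 3) (nat_lit 6) (nat_lit 7) (nat_lit 30) (nat_lit 199) r11_30 r3_199 (nat_lit 0) (nat_lit 0) (nat_lit 0) (nat_lit 0x8029b3c76) (nat_lit 1071240424)]
noncomputable def e20_7 : List Rx := [
  Rx.mk (nat_lit 320) (nat_lit 0) (nat_lit 0) (nat_lit 5) (nat_lit 4) (nat_lit 37) (nat_lit 200) r11_37 r0_200 (nat_lit 9426144) (nat_lit 314732184) (nat_lit 0) (nat_lit 0x70c471818) (nat_lit 1651954452),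
  Rx.mk (nat_lit 321) (nat_lit 1) (nat_lit 0) (nat_lit 5) (nat_lit 5) (nat_lit 38) (nat_lit 201) r11_38 r0_201 (nat_lit 0) (nat_lit 5592935) (nat_lit 0) (nat_lit 0x802afe752) (nat_lit 1076749759),
  Rx.mk (nat_lit 322) (nat_lit 2) (nat_lit 0) (nat_lit 5) (nat_lit 5) (nat_lit 39) (nat_lit 202) r11_39 r0_202 (nat_lit 0) (nat_lit 104895094) (nat_lit 0) (nat_lit 0x801d36fca) (nat_lit 1176912118),
  Rx.mk (nat_lit 338) (nat_lit 2) (nat_lit 2) (nat_lit 5) (nat_lit 7) (nat_lit 40) (nat_lit 203) r11_40 r0_203 (nat_lit 0) (nat_lit 0) (nat_lit 0) (nat_lit 0x813820826) (nat_lit 1054113624)]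
noncomputable def e20_8 : List Rx := [
  Rx.mk (nat_lit 82) (nat_lit 2) (nat_lit 2) (nat_lit 1) (nat_lit 7) (nat_lit 45) (nat_lit 224) r11_45 r1_224 (nat_lit 0) (nat_lit 0) (nat_lit 0) (nat_lit 0x803f6ccf2) (nat_lit 1069856624),
  Rx.mk (nat_lit 320) (nat_lit 0) (nat_lit 0) (nat_lit 5) (nat_lit 4) (nat_lit 41) (nat_lit 220) r11_41 r1_220 (nat_lit 167522575) (nat_lit 142725965) (nat_lit 0) (nat_lit 0x71fbb1be2) (nat_lit 1617776664),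
  Rx.mk (nat_lit 321) (nat_lit 1) (nat_lit 0) (nat_lit 5) (nat_lit 5) (nat_lit 42) (nat_lit 221) r11_42 r1_221 (nat_lit 0) (nat_lit 5449534) (nat_lit 0) (nat_lit 0x80131b900) (nat_lit 1078133458),
  Rx.mk (nat_lit 322) (nat_lit 2) (nat_lit 0) (nat_lit 5) (nat_lit 5) (nat_lit 43) (nat_lit 222) r11_43 r1_222 (nat_lit 0) (nat_lit 6392805) (nat_lit 0) (nat_lit 0x807f8d502) (nat_lit 1072177929),
  Rx.mk (nat_lit 338) (nat_lit 2) (nat_lit 2) (nat_lit 5) (nat_lit 7) (nat_lit 44) (nat_lit 223) r11_44 r1_223 (nat_lit 0) (nat_lit 0) (nat_lit 0) (nat_lit 0x806ebd592) (nat_lit 1066852524)]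
noncomputable def e20_9 : List Rx := [
  Rx.mk (nat_lit 320) (nat_lit 0) (nat_lit 0) (nat_lit 5) (nat_lit 4) (nat_lit 46) (nat_lit 188) r11_46 r4_188 (nat_lit 6680725) (nat_lit 6612068) (nat_lit 0) (nat_lit 0x79a993826) (nat_lit 1192788117),
  Rx.mk (nat_lit 321) (nat_lit 1) (nat_lit 0) (nat_lit 5) (nat_lit 5) (nat_lit 48) (nat_lit 189) r11_48 r4_189 (nat_lit 0) (nat_lit 5449534) (nat_lit 0) (nat_lit 0x801d47abe) (nat_lit 1077482658),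
  Rx.mk (nat_lit 322) (nat_lit 2) (nat_lit 0) (nat_lit 5) (nat_lit 5) (nat_lit 50) (nat_lit 190) r11_50 r4_190 (nat_lit 0) (nat_lit 5449534) (nat_lit 0) (nat_lit 0x801061480) (nat_lit 1078306558),
  Rx.mk (nat_lit 338) (nat_lit 2) (nat_lit 2) (nat_lit 5) (nat_lit 7) (nat_lit 51) (nat_lit 194) r11_51 r4_194 (nat_lit 0) (nat_lit 0) (nat_lit 0) (nat_lit 0x80029938e) (nat_lit 1073741824),
  Rx.mk (nat_lit 344) (nat_lit 0) (nat_lit 3) (nat_lit 5) (nat_lit 6) (nat_lit 47) (nat_lit 191) r11_47 r4_191 (nat_lit 2822132) (nat_lit 0) (nat_lit 0) (nat_lit 0x80298ddc8) (nat_lit 1074069156),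
  Rx.mk (nat_lit 345) (nat_lit 1) (nat_lit 3) (nat_lit 5) (nat_lit 7) (nat_lit 49) (nat_lit 192) r11_49 r4_192 (nat_lit 0) (nat_lit 0) (nat_lit 0) (nat_lit 0x80342afb0) (nat_lit 1070573324),
  Rx.mk (nat_lit 346) (nat_lit 2) (nat_lit 3) (nat_lit 5) (nat_lit 7) (nat_lit 52) (nat_lit 193) r11_52 r4_193 (nat_lit 0) (nat_lit 0) (nat_lit 0) (nat_lit 0x80342afb0) (nat_lit 1070573324)]
noncomputable def e20_10 : List Rx := [
  Rx.mk (nat_lit 280) (nat_lit 0) (nat_lit 3) (nat_lit 4) (nat_lit 2) (nat_lit 54) (nat_lit 154) r11_54 r6_154 (nat_lit 1343161) (nat_lit 0) (nat_lit 1407149) (nat_lit 0x737e36fbc) (nat_lit 1285096534),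
  Rx.mk (nat_lit 281) (nat_lit 1) (nat_lit 3) (nat_lit 4) (nat_lit 3) (nat_lit 58) (nat_lit 158) r11_58 r6_158 (nat_lit 0) (nat_lit 0) (nat_lit 4262738) (nat_lit 0x801570c46) (nat_lit 1076797662),
  Rx.mk (nat_lit 282) (nat_lit 2) (nat_lit 3) (nat_lit 4) (nat_lit 3) (nat_lit 63) (nat_lit 165) r11_63 r6_165 (nat_lit 0) (nat_lit 0) (nat_lit 3738478) (nat_lit 0x8024ee42a) (nat_lit 1075285302),
  Rx.mk (nat_lit 283) (nat_lit 3) (nat_lit 3) (nat_lit 4) (nat_lit 3) (nat_lit 66) (nat_lit 161) r11_66 r6_161 (nat_lit 0) (nat_lit 0) (nat_lit 3928738) (nat_lit 0x80106e662) (nat_lit 1076782462),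
  Rx.mk (nat_lit 408) (nat_lit 0) (nat_lit 3) (nat_lit 6) (nat_lit 6) (nat_lit 55) (nat_lit 156) r11_55 r6_156 (nat_lit 2747444) (nat_lit 0) (nat_lit 0) (nat_lit 0x803990784) (nat_lit 1072977968),
  Rx.mk (nat_lit 409) (nat_lit 1) (nat_lit 3) (nat_lit 6) (nat_lit 7) (nat_lit 59) (nat_lit 160) r11_59 r6_160 (nat_lit 0) (nat_lit 0) (nat_lit 0) (nat_lit 0x80029938e) (nat_lit 1073741824),
  Rx.mk (nat_lit 411) (nat_lit 3) (nat_lit 3) (nat_lit 6) (nat_lit 7) (nat_lit 67) (nat_lit 162) r11_67 r6_162 (nat_lit 0) (nat_lit 0) (nat_lit 0) (nat_lit 0x801118d6a) (nat_lit 1072812524),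
  Rx.mk (nat_lit 443) (nat_lit 3) (nat_lit 7) (nat_lit 6) (nat_lit 7) (nat_lit 65) (nat_lit 163) r11_65 r6_163 (nat_lit 0) (nat_lit 0) (nat_lit 0) (nat_lit 0x95ec9a496) (nat_lit 719290124),
  Rx.mk (nat_lit 448) (nat_lit 0) (nat_lit 0) (nat_lit 7) (nat_lit 4) (nat_lit 53) (nat_lit 153) r11_53 r6_153 (nat_lit 1282205) (nat_lit 2307781) (nat_lit 0) (nat_lit 0x7934fd052) (nat_lit 1190670010),
  Rx.mk (nat_lit 449) (nat_lit 1) (nat_lit 0) (nat_lit 7) (nat_lit 5) (nat_lit 57) (nat_lit 157) r11_57 r6_157 (nat_lit 0) (nat_lit 5449534) (nat_lit 0) (nat_lit 0x80029938e) (nat_lit 1079191358),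
  Rx.mk (nat_lit 450) (nat_lit 2) (nat_lit 0) (nat_lit 7) (nat_lit 5) (nat_lit 61) (nat_lit 164) r11_61 r6_164 (nat_lit 0) (nat_lit 3994773) (nat_lit 0) (nat_lit 0x801c09594) (nat_lit 1076108397),
  Rx.mk (nat_lit 466) (nat_lit 2) (nat_lit 2) (nat_lit 7) (nat_lit 7) (nat_lit 62) (nat_lit 167) r11_62 r6_167 (nat_lit 0) (nat_lit 0) (nat_lit 0) (nat_lit 0x800b91806) (nat_lit 1073166724),
  Rx.mk (nat_lit 472) (nat_lit 0) (nat_lit 3) (nat_lit 7) (nat_lit 6) (nat_lit 56) (nat_lit 155) r11_56 r6_155 (nat_lit 1786259) (nat_lit 0) (nat_lit 0) (nat_lit 0x808a883f8) (nat_lit 1066877983),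
  Rx.mk (nat_lit 473) (nat_lit 1) (nat_lit 3) (nat_lit 7) (nat_lit 7) (nat_lit 60) (nat_lit 159) r11_60 r6_159 (nat_lit 0) (nat_lit 0) (nat_lit 0) (nat_lit 0x80159ec7c) (nat_lit 1072523724),
  Rx.mk (nat_lit 474) (nat_lit 2) (nat_lit 3) (nat_lit 7) (nat_lit 7) (nat_lit 64) (nat_lit 166) r11_64 r6_166 (nat_lit 0) (nat_lit 0) (nat_lit 0) (nat_lit 0x80159ec7c) (nat_lit 1072523724)]
noncomputable def e20_11 : List Rx := [
  Rx.mk (nat_lit 256) (nat_lit 0) (nat_lit 0) (nat_lit 4) (nat_lit 0) (nat_lit 68) (nat_lit 202) r11_68 r5_202 (nat_lit 3094232) (nat_lit 21720360) (nat_lit 2576337) (nat_lit 0x4da7b05c6) (nat_lit 1940613153),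
  Rx.mk (nat_lit 257) (nat_lit 1) (nat_lit 0) (nat_lit 4) (nat_lit 1) (nat_lit 75) (nat_lit 206) r11_75 r5_206 (nat_lit 0) (nat_lit 14714486) (nat_lit 11623778) (nat_lit 0x72e87497a) (nat_lit 1318449488),
  Rx.mk (nat_lit 258) (nat_lit 2) (nat_lit 0) (nat_lit 4) (nat_lit 1) (nat_lit 80) (nat_lit 209) r11_80 r5_209 (nat_lit 0) (nat_lit 66565718) (nat_lit 2937614) (nat_lit 0x74b9e4b76) (nat_lit 1331296056),
  Rx.mk (nat_lit 274) (nat_lit 2) (nat_lit 2) (nat_lit 4) (nat_lit 3) (nat_lit 83) (nat_lit 222) r11_83 r5_222 (nat_lit 0) (nat_lit 0) (nat_lit 4726499) (nat_lit 0x7ff6067de) (nat_lit 1079274023),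
  Rx.mk (nat_lit 280) (nat_lit 0) (nat_lit 3) (nat_lit 4) (nat_lit 2) (nat_lit 72) (nat_lit 212) r11_72 r5_212 (nat_lit 4194264) (nat_lit 0) (nat_lit 2535516) (nat_lit 0x68bbaaf48) (nat_lit 1468482604),
  Rx.mk (nat_lit 281) (nat_lit 1) (nat_lit 3) (nat_lit 4) (nat_lit 3) (nat_lit 78) (nat_lit 215) r11_78 r5_215 (nat_lit 0) (nat_lit 0) (nat_lit 3453899) (nat_lit 0x8019ee37c) (nat_lit 1075699823),
  Rx.mk (nat_lit 282) (nat_lit 2) (nat_lit 3) (nat_lit 4) (nat_lit 3) (nat_lit 86) (nat_lit 220) r11_86 r5_220 (nat_lit 0) (nat_lit 0) (nat_lit 3361078) (nat_lit 0x802aa3348) (nat_lit 1074541602),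
  Rx.mk (nat_lit 283) (nat_lit 3) (nat_lit 3) (nat_lit 4) (nat_lit 3) (nat_lit 88) (nat_lit 217) r11_88 r5_217 (nat_lit 0) (nat_lit 0) (nat_lit 5824518) (nat_lit 0x7f6cb0a3e) (nat_lit 1089264642),
  Rx.mk (nat_lit 320) (nat_lit 0) (nat_lit 0) (nat_lit 5) (nat_lit 4) (nat_lit 69) (nat_lit 203) r11_69 r5_203 (nat_lit 8674374) (nat_lit 21585030) (nat_lit 0) (nat_lit 0x7effacde8) (nat_lit 1120791828),
  Rx.mk (nat_lit 322) (nat_lit 2) (nat_lit 0) (nat_lit 5) (nat_lit 5) (nat_lit 81) (nat_lit 210) r11_81 r5_210 (nat_lit 0) (nat_lit 5449534) (nat_lit 0) (nat_lit 0x800b9fd16) (nat_lit 1078612858),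
  Rx.mk (nat_lit 338) (nat_lit 2) (nat_lit 2) (nat_lit 5) (nat_lit 7) (nat_lit 84) (nat_lit 223) r11_84 r5_223 (nat_lit 0) (nat_lit 0) (nat_lit 0) (nat_lit 0x80029938e) (nat_lit 1073741824),
  Rx.mk (nat_lit 344) (nat_lit 0) (nat_lit 3) (nat_lit 5) (nat_lit 6) (nat_lit 73) (nat_lit 213) r11_73 r5_213 (nat_lit 4046712) (nat_lit 0) (nat_lit 0) (nat_lit 0x801958a84) (nat_lit 1076331636),
  Rx.mk (nat_lit 346) (nat_lit 2) (nat_lit 3) (nat_lit 5) (nat_lit 7) (nat_lit 87) (nat_lit 221) r11_87 r5_221 (nat_lit 0) (nat_lit 0) (nat_lit 0) (nat_lit 0x800d38786) (nat_lit 1073060924),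
  Rx.mk (nat_lit 347) (nat_lit 3) (nat_lit 3) (nat_lit 5) (nat_lit 7) (nat_lit 89) (nat_lit 218) r11_89 r5_218 (nat_lit 0) (nat_lit 0) (nat_lit 0) (nat_lit 0x80029938e) (nat_lit 1073741824),
  Rx.mk (nat_lit 384) (nat_lit 0) (nat_lit 0) (nat_lit 6) (nat_lit 4) (nat_lit 70) (nat_lit 205) r11_70 r5_205 (nat_lit 8902206) (nat_lit 19180850) (nat_lit 0) (nat_lit 0x7e9bef6c0) (nat_lit 1125108480),
  Rx.mk (nat_lit 385) (nat_lit 1) (nat_lit 0) (nat_lit 6) (nat_lit 5) (nat_lit 76) (nat_lit 208) r11_76 r5_208 (nat_lit 0) (nat_lit 5449534) (nat_lit 0) (nat_lit 0x80029938e) (nat_lit 1079191358),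
  Rx.mk (nat_lit 408) (nat_lit 0) (nat_lit 3) (nat_lit 6) (nat_lit 6) (nat_lit 74) (nat_lit 214) r11_74 r5_214 (nat_lit 4369172) (nat_lit 0) (nat_lit 0) (nat_lit 0x7febb8bc4) (nat_lit 1079580196),
  Rx.mk (nat_lit 409) (nat_lit 1) (nat_lit 3) (nat_lit 6) (nat_lit 7) (nat_lit 79) (nat_lit 216) r11_79 r5_216 (nat_lit 0) (nat_lit 0) (nat_lit 0) (nat_lit 0x800d38786) (nat_lit 1073060924),
  Rx.mk (nat_lit 411) (nat_lit 3) (nat_lit 3) (nat_lit 6) (nat_lit 7) (nat_lit 90) (nat_lit 219) r11_90 r5_219 (nat_lit 0) (nat_lit 0) (nat_lit 0) (nat_lit 0x80029938e) (nat_lit 1073741824),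
  Rx.mk (nat_lit 448) (nat_lit 0) (nat_lit 0) (nat_lit 7) (nat_lit 4) (nat_lit 71) (nat_lit 204) r11_71 r5_204 (nat_lit 8510956) (nat_lit 17049817) (nat_lit 0) (nat_lit 0x7ec27a33a) (nat_lit 1120075897),
  Rx.mk (nat_lit 449) (nat_lit 1) (nat_lit 0) (nat_lit 7) (nat_lit 5) (nat_lit 77) (nat_lit 207) r11_77 r5_207 (nat_lit 0) (nat_lit 5449534) (nat_lit 0) (nat_lit 0x80029938e) (nat_lit 1079191358),
  Rx.mk (nat_lit 450) (nat_lit 2) (nat_lit 0) (nat_lit 7) (nat_lit 5) (nat_lit 82) (nat_lit 211) r11_82 r5_211 (nat_lit 0) (nat_lit 5449534) (nat_lit 0) (nat_lit 0x800c7cac2) (nat_lit 1078557658),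
  Rx.mk (nat_lit 466) (nat_lit 2) (nat_lit 2) (nat_lit 7) (nat_lit 7) (nat_lit 85) (nat_lit 224) r11_85 r5_224 (nat_lit 0) (nat_lit 0) (nat_lit 0) (nat_lit 0x80029938e) (nat_lit 1073741824)]
noncomputable def e20_12 : List Rx := [
  Rx.mk (nat_lit 18) (nat_lit 2) (nat_lit 2) (nat_lit 0) (nat_lit 3) (nat_lit 99) (nat_lit 217) r11_99 r0_217 (nat_lit 0) (nat_lit 0) (nat_lit 2191612) (nat_lit 0x7ea5f8ebe) (nat_lit 1098552836),
  Rx.mk (nat_lit 22) (nat_lit 6) (nat_lit 2) (nat_lit 0) (nat_lit 3) (nat_lit 96) (nat_lit 216) r11_96 r0_216 (nat_lit 0) (nat_lit 0) (nat_lit 2261537) (nat_lit 0x802c51546) (nat_lit 1073330661),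
  Rx.mk (nat_lit 54) (nat_lit 6) (nat_lit 6) (nat_lit 0) (nat_lit 3) (nat_lit 94) (nat_lit 215) r11_94 r0_215 (nat_lit 0) (nat_lit 0) (nat_lit 2667019) (nat_lit 0x7fbf39062) (nat_lit 1080746543),
  Rx.mk (nat_lit 164) (nat_lit 4) (nat_lit 4) (nat_lit 2) (nat_lit 4) (nat_lit 92) (nat_lit 219) r11_92 r0_219 (nat_lit 1327087) (nat_lit 1515078) (nat_lit 0) (nat_lit 0x70dac8bde) (nat_lit 1329174389),
  Rx.mk (nat_lit 180) (nat_lit 4) (nat_lit 6) (nat_lit 2) (nat_lit 6) (nat_lit 93) (nat_lit 220) r11_93 r0_220 (nat_lit 2711268) (nat_lit 0) (nat_lit 0) (nat_lit 0x8030259d8) (nat_lit 1073539392),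
  Rx.mk (nat_lit 182) (nat_lit 6) (nat_lit 6) (nat_lit 2) (nat_lit 7) (nat_lit 95) (nat_lit 221) r11_95 r0_221 (nat_lit 0) (nat_lit 0) (nat_lit 0) (nat_lit 0x8024ca5ca) (nat_lit 1071555724),
  Rx.mk (nat_lit 210) (nat_lit 2) (nat_lit 2) (nat_lit 3) (nat_lit 7) (nat_lit 100) (nat_lit 218) r11_100 r0_218 (nat_lit 0) (nat_lit 0) (nat_lit 0) (nat_lit 0x80fd022a8) (nat_lit 1057853824),
  Rx.mk (nat_lit 420) (nat_lit 4) (nat_lit 4) (nat_lit 6) (nat_lit 4) (nat_lit 91) (nat_lit 212) r11_91 r0_212 (nat_lit 4290635) (nat_lit 177359743) (nat_lit 0) (nat_lit 0x71206e3fa) (nat_lit 1503455502),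
  Rx.mk (nat_lit 423) (nat_lit 7) (nat_lit 4) (nat_lit 6) (nat_lit 5) (nat_lit 97) (nat_lit 213) r11_97 r0_213 (nat_lit 0) (nat_lit 55284396) (nat_lit 0) (nat_lit 0x7f832bb06) (nat_lit 1137266720),
  Rx.mk (nat_lit 447) (nat_lit 7) (nat_lit 7) (nat_lit 6) (nat_lit 7) (nat_lit 98) (nat_lit 214) r11_98 r0_214 (nat_lit 0) (nat_lit 0) (nat_lit 0) (nat_lit 0x805932ed4) (nat_lit 1068212724)]
noncomputable def e20_13 : List Rx := [
  Rx.mk (nat_lit 18) (nat_lit 2) (nat_lit 2) (nat_lit 0) (nat_lit 3) (nat_lit 105) (nat_lit 198) r11_105 r7_198 (nat_lit 0) (nat_lit 0) (nat_lit 2301147) (nat_lit 0x8062f057a) (nat_lit 1069902071),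
  Rx.mk (nat_lit 22) (nat_lit 6) (nat_lit 2) (nat_lit 0) (nat_lit 3) (nat_lit 104) (nat_lit 201) r11_104 r7_201 (nat_lit 0) (nat_lit 0) (nat_lit 5449534) (nat_lit 0x80029938e) (nat_lit 1079191358),
  Rx.mk (nat_lit 54) (nat_lit 6) (nat_lit 6) (nat_lit 0) (nat_lit 3) (nat_lit 102) (nat_lit 202) r11_102 r7_202 (nat_lit 0) (nat_lit 0) (nat_lit 6685557) (nat_lit 0x7fa33a33e) (nat_lit 1086587581),
  Rx.mk (nat_lit 180) (nat_lit 4) (nat_lit 6) (nat_lit 2) (nat_lit 6) (nat_lit 101) (nat_lit 200) r11_101 r7_200 (nat_lit 5449534) (nat_lit 0) (nat_lit 0) (nat_lit 0x80029938e) (nat_lit 1079191358),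
  Rx.mk (nat_lit 182) (nat_lit 6) (nat_lit 6) (nat_lit 2) (nat_lit 7) (nat_lit 103) (nat_lit 203) r11_103 r7_203 (nat_lit 0) (nat_lit 0) (nat_lit 0) (nat_lit 0x80029938e) (nat_lit 1073741824),
  Rx.mk (nat_lit 210) (nat_lit 2) (nat_lit 2) (nat_lit 3) (nat_lit 7) (nat_lit 106) (nat_lit 199) r11_106 r7_199 (nat_lit 0) (nat_lit 0) (nat_lit 0) (nat_lit 0x804200450) (nat_lit 1069693624)]
noncomputable def e20_14 : List Rx := [
  Rx.mk (nat_lit 164) (nat_lit 4) (nat_lit 4) (nat_lit 2) (nat_lit 4) (nat_lit 108) (nat_lit 237) r11_108 r1_237 (nat_lit 7636497) (nat_lit 8516193) (nat_lit 0) (nat_lit 0x79092791e) (nat_lit 1206096814),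
  Rx.mk (nat_lit 180) (nat_lit 4) (nat_lit 6) (nat_lit 2) (nat_lit 6) (nat_lit 109) (nat_lit 238) r11_109 r1_238 (nat_lit 5449534) (nat_lit 0) (nat_lit 0) (nat_lit 0x80029938e) (nat_lit 1079191358),
  Rx.mk (nat_lit 182) (nat_lit 6) (nat_lit 6) (nat_lit 2) (nat_lit 7) (nat_lit 110) (nat_lit 239) r11_110 r1_239 (nat_lit 0) (nat_lit 0) (nat_lit 0) (nat_lit 0x80029938e) (nat_lit 1073741824),
  Rx.mk (nat_lit 420) (nat_lit 4) (nat_lit 4) (nat_lit 6) (nat_lit 4) (nat_lit 107) (nat_lit 234) r11_107 r1_234 (nat_lit 4273280) (nat_lit 139026259) (nat_lit 0) (nat_lit 0x7713b0612) (nat_lit 1365912963),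
  Rx.mk (nat_lit 423) (nat_lit 7) (nat_lit 4) (nat_lit 6) (nat_lit 5) (nat_lit 111) (nat_lit 235) r11_111 r1_235 (nat_lit 0) (nat_lit 5449534) (nat_lit 0) (nat_lit 0x800d59fb2) (nat_lit 1078501858),
  Rx.mk (nat_lit 447) (nat_lit 7) (nat_lit 7) (nat_lit 6) (nat_lit 7) (nat_lit 112) (nat_lit 236) r11_112 r1_236 (nat_lit 0) (nat_lit 0) (nat_lit 0) (nat_lit 0x8084b604c) (nat_lit 1065459024)]
noncomputable def e20_15 : List Rx := [
  Rx.mk (nat_lit 180) (nat_lit 4) (nat_lit 6) (nat_lit 2) (nat_lit 6) (nat_lit 113) (nat_lit 157) r11_113 r8_157 (nat_lit 5449534) (nat_lit 0) (nat_lit 0) (nat_lit 0x80029938e) (nat_lit 1079191358),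
  Rx.mk (nat_lit 182) (nat_lit 6) (nat_lit 6) (nat_lit 2) (nat_lit 7) (nat_lit 114) (nat_lit 158) r11_114 r8_158 (nat_lit 0) (nat_lit 0) (nat_lit 0) (nat_lit 0x80029938e) (nat_lit 1073741824)]
noncomputable def e20_16 : List Rx := [
  Rx.mk (nat_lit 18) (nat_lit 2) (nat_lit 2) (nat_lit 0) (nat_lit 3) (nat_lit 120) (nat_lit 208) r11_120 r8_208 (nat_lit 0) (nat_lit 0) (nat_lit 4232301) (nat_lit 0x8010bf30a) (nat_lit 1077067325),
  Rx.mk (nat_lit 22) (nat_lit 6) (nat_lit 2) (nat_lit 0) (nat_lit 3) (nat_lit 118) (nat_lit 207) r11_118 r8_207 (nat_lit 0) (nat_lit 0) (nat_lit 5449534) (nat_lit 0x80029938e) (nat_lit 1079191358),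
  Rx.mk (nat_lit 54) (nat_lit 6) (nat_lit 6) (nat_lit 0) (nat_lit 3) (nat_lit 115) (nat_lit 206) r11_115 r8_206 (nat_lit 0) (nat_lit 0) (nat_lit 5612407) (nat_lit 0x7ff40af5c) (nat_lit 1080288431),
  Rx.mk (nat_lit 82) (nat_lit 2) (nat_lit 2) (nat_lit 1) (nat_lit 7) (nat_lit 121) (nat_lit 211) r11_121 r8_211 (nat_lit 0) (nat_lit 0) (nat_lit 0) (nat_lit 0x80029938e) (nat_lit 1073741824),
  Rx.mk (nat_lit 86) (nat_lit 6) (nat_lit 2) (nat_lit 1) (nat_lit 7) (nat_lit 119) (nat_lit 210) r11_119 r8_210 (nat_lit 0) (nat_lit 0) (nat_lit 0) (nat_lit 0x80029938e) (nat_lit 1073741824),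
  Rx.mk (nat_lit 118) (nat_lit 6) (nat_lit 6) (nat_lit 1) (nat_lit 7) (nat_lit 116) (nat_lit 209) r11_116 r8_209 (nat_lit 0) (nat_lit 0) (nat_lit 0) (nat_lit 0x80029938e) (nat_lit 1073741824),
  Rx.mk (nat_lit 182) (nat_lit 6) (nat_lit 6) (nat_lit 2) (nat_lit 7) (nat_lit 117) (nat_lit 213) r11_117 r8_213 (nat_lit 0) (nat_lit 0) (nat_lit 0) (nat_lit 0x80029938e) (nat_lit 1073741824),
  Rx.mk (nat_lit 210) (nat_lit 2) (nat_lit 2) (nat_lit 3) (nat_lit 7) (nat_lit 122) (nat_lit 212) r11_122 r8_212 (nat_lit 0) (nat_lit 0) (nat_lit 0) (nat_lit 0x80029938e) (nat_lit 1073741824)]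
noncomputable def e20_17 : List Rx := [
  Rx.mk (nat_lit 82) (nat_lit 2) (nat_lit 2) (nat_lit 1) (nat_lit 7) (nat_lit 124) (nat_lit 146) r11_124 r9_146 (nat_lit 0) (nat_lit 0) (nat_lit 0) (nat_lit 0x80029938e) (nat_lit 1073741824),
  Rx.mk (nat_lit 86) (nat_lit 6) (nat_lit 2) (nat_lit 1) (nat_lit 7) (nat_lit 123) (nat_lit 147) r11_123 r9_147 (nat_lit 0) (nat_lit 0) (nat_lit 0) (nat_lit 0x80029938e) (nat_lit 1073741824)]
noncomputable def e20_18 : List Rx := [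
  Rx.mk (nat_lit 22) (nat_lit 6) (nat_lit 2) (nat_lit 0) (nat_lit 3) (nat_lit 129) (nat_lit 209) r11_129 r4_209 (nat_lit 0) (nat_lit 0) (nat_lit 2654410) (nat_lit 0x7fede05b4) (nat_lit 1077722534),
  Rx.mk (nat_lit 54) (nat_lit 6) (nat_lit 6) (nat_lit 0) (nat_lit 3) (nat_lit 127) (nat_lit 208) r11_127 r4_208 (nat_lit 0) (nat_lit 0) (nat_lit 2480456) (nat_lit 0x80331b106) (nat_lit 1073118480),
  Rx.mk (nat_lit 164) (nat_lit 4) (nat_lit 4) (nat_lit 2) (nat_lit 4) (nat_lit 125) (nat_lit 212) r11_125 r4_212 (nat_lit 162008) (nat_lit 180054) (nat_lit 0) (nat_lit 0x66f25fd9c) (nat_lit 1491827986),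
  Rx.mk (nat_lit 167) (nat_lit 7) (nat_lit 4) (nat_lit 2) (nat_lit 5) (nat_lit 132) (nat_lit 213) r11_132 r4_213 (nat_lit 0) (nat_lit 2501188) (nat_lit 0) (nat_lit 0x802edd148) (nat_lit 1073408112),
  Rx.mk (nat_lit 180) (nat_lit 4) (nat_lit 6) (nat_lit 2) (nat_lit 6) (nat_lit 126) (nat_lit 214) r11_126 r4_214 (nat_lit 1914977) (nat_lit 0) (nat_lit 0) (nat_lit 0x805cba6f6) (nat_lit 1069908001),
  Rx.mk (nat_lit 182) (nat_lit 6) (nat_lit 6) (nat_lit 2) (nat_lit 7) (nat_lit 128) (nat_lit 216) r11_128 r4_216 (nat_lit 0) (nat_lit 0) (nat_lit 0) (nat_lit 0x8038253f4) (nat_lit 1070320124),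
  Rx.mk (nat_lit 183) (nat_lit 7) (nat_lit 6) (nat_lit 2) (nat_lit 7) (nat_lit 133) (nat_lit 215) r11_133 r4_215 (nat_lit 0) (nat_lit 0) (nat_lit 0) (nat_lit 0x803a9eba8) (nat_lit 1070162724),
  Rx.mk (nat_lit 210) (nat_lit 2) (nat_lit 2) (nat_lit 3) (nat_lit 7) (nat_lit 135) (nat_lit 211) r11_135 r4_211 (nat_lit 0) (nat_lit 0) (nat_lit 0) (nat_lit 0x867de86ba) (nat_lit 968842524),
  Rx.mk (nat_lit 214) (nat_lit 6) (nat_lit 2) (nat_lit 3) (nat_lit 7) (nat_lit 130) (nat_lit 210) r11_130 r4_210 (nat_lit 0) (nat_lit 0) (nat_lit 0) (nat_lit 0x80c72ecda) (nat_lit 1061253024),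
  Rx.mk (nat_lit 423) (nat_lit 7) (nat_lit 4) (nat_lit 6) (nat_lit 5) (nat_lit 131) (nat_lit 205) r11_131 r4_205 (nat_lit 0) (nat_lit 26745555) (nat_lit 0) (nat_lit 0x7fe494c12) (nat_lit 1102412179),
  Rx.mk (nat_lit 443) (nat_lit 3) (nat_lit 7) (nat_lit 6) (nat_lit 7) (nat_lit 136) (nat_lit 207) r11_136 r4_207 (nat_lit 0) (nat_lit 0) (nat_lit 0) (nat_lit 0x80e2c1c04) (nat_lit 1059510024),
  Rx.mk (nat_lit 447) (nat_lit 7) (nat_lit 7) (nat_lit 6) (nat_lit 7) (nat_lit 134) (nat_lit 206) r11_134 r4_206 (nat_lit 0) (nat_lit 0) (nat_lit 0) (nat_lit 0x832cd703a) (nat_lit 1022477724)]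
noncomputable def e20_19 : List Rx := [
  Rx.mk (nat_lit 22) (nat_lit 6) (nat_lit 2) (nat_lit 0) (nat_lit 3) (nat_lit 140) (nat_lit 157) r11_140 r10_157 (nat_lit 0) (nat_lit 0) (nat_lit 5449534) (nat_lit 0x80029938e) (nat_lit 1079191358),
  Rx.mk (nat_lit 54) (nat_lit 6) (nat_lit 6) (nat_lit 0) (nat_lit 3) (nat_lit 138) (nat_lit 159) r11_138 r10_159 (nat_lit 0) (nat_lit 0) (nat_lit 5449534) (nat_lit 0x80029938e) (nat_lit 1079191358),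
  Rx.mk (nat_lit 180) (nat_lit 4) (nat_lit 6) (nat_lit 2) (nat_lit 6) (nat_lit 137) (nat_lit 155) r11_137 r10_155 (nat_lit 5449534) (nat_lit 0) (nat_lit 0) (nat_lit 0x80029938e) (nat_lit 1079191358),
  Rx.mk (nat_lit 182) (nat_lit 6) (nat_lit 6) (nat_lit 2) (nat_lit 7) (nat_lit 139) (nat_lit 160) r11_139 r10_160 (nat_lit 0) (nat_lit 0) (nat_lit 0) (nat_lit 0x80029938e) (nat_lit 1073741824),
  Rx.mk (nat_lit 183) (nat_lit 7) (nat_lit 6) (nat_lit 2) (nat_lit 7) (nat_lit 142) (nat_lit 156) r11_142 r10_156 (nat_lit 0) (nat_lit 0) (nat_lit 0) (nat_lit 0x80029938e) (nat_lit 1073741824),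
  Rx.mk (nat_lit 210) (nat_lit 2) (nat_lit 2) (nat_lit 3) (nat_lit 7) (nat_lit 143) (nat_lit 154) r11_143 r10_154 (nat_lit 0) (nat_lit 0) (nat_lit 0) (nat_lit 0x8037ea8d0) (nat_lit 1070334824),
  Rx.mk (nat_lit 214) (nat_lit 6) (nat_lit 2) (nat_lit 3) (nat_lit 7) (nat_lit 141) (nat_lit 158) r11_141 r10_158 (nat_lit 0) (nat_lit 0) (nat_lit 0) (nat_lit 0x80029938e) (nat_lit 1073741824)]
noncomputable def e20_20 : List Rx := [
  Rx.mk (nat_lit 54) (nat_lit 6) (nat_lit 6) (nat_lit 0) (nat_lit 3) (nat_lit 146) (nat_lit 161) r11_146 r11_161 (nat_lit 0) (nat_lit 0) (nat_lit 5449534) (nat_lit 0x7fcac9634) (nat_lit 1082787558),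
  Rx.mk (nat_lit 164) (nat_lit 4) (nat_lit 4) (nat_lit 2) (nat_lit 4) (nat_lit 144) (nat_lit 154) r11_144 r11_154 (nat_lit 197139) (nat_lit 241552) (nat_lit 0) (nat_lit 0x77eb907c6) (nat_lit 1208937315),
  Rx.mk (nat_lit 167) (nat_lit 7) (nat_lit 4) (nat_lit 2) (nat_lit 5) (nat_lit 150) (nat_lit 156) r11_150 r11_156 (nat_lit 0) (nat_lit 5516626) (nat_lit 0) (nat_lit 0x7ffc1e82e) (nat_lit 1079674250),
  Rx.mk (nat_lit 180) (nat_lit 4) (nat_lit 6) (nat_lit 2) (nat_lit 6) (nat_lit 145) (nat_lit 155) r11_145 r11_155 (nat_lit 3711888) (nat_lit 0) (nat_lit 0) (nat_lit 0x802a4a2ac) (nat_lit 1074920912),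
  Rx.mk (nat_lit 182) (nat_lit 6) (nat_lit 6) (nat_lit 2) (nat_lit 7) (nat_lit 147) (nat_lit 163) r11_147 r11_163 (nat_lit 0) (nat_lit 0) (nat_lit 0) (nat_lit 0x80029938e) (nat_lit 1073741824),
  Rx.mk (nat_lit 183) (nat_lit 7) (nat_lit 6) (nat_lit 2) (nat_lit 7) (nat_lit 151) (nat_lit 159) r11_151 r11_159 (nat_lit 0) (nat_lit 0) (nat_lit 0) (nat_lit 0x80029938e) (nat_lit 1073741824),
  Rx.mk (nat_lit 191) (nat_lit 7) (nat_lit 7) (nat_lit 2) (nat_lit 7) (nat_lit 153) (nat_lit 157) r11_153 r11_157 (nat_lit 0) (nat_lit 0) (nat_lit 0) (nat_lit 0x7ffe2c38c) (nat_lit 1074025524),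
  Rx.mk (nat_lit 210) (nat_lit 2) (nat_lit 2) (nat_lit 3) (nat_lit 7) (nat_lit 158) (nat_lit 152) r11_158 r11_152 (nat_lit 0) (nat_lit 0) (nat_lit 0) (nat_lit 0x85a1b9e32) (nat_lit 982752224),
  Rx.mk (nat_lit 214) (nat_lit 6) (nat_lit 2) (nat_lit 3) (nat_lit 7) (nat_lit 149) (nat_lit 160) r11_149 r11_160 (nat_lit 0) (nat_lit 0) (nat_lit 0) (nat_lit 0x80342291e) (nat_lit 1070576824),
  Rx.mk (nat_lit 246) (nat_lit 6) (nat_lit 6) (nat_lit 3) (nat_lit 7) (nat_lit 148) (nat_lit 162) r11_148 r11_162 (nat_lit 0) (nat_lit 0) (nat_lit 0) (nat_lit 0x80029938e) (nat_lit 1073741824),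
  Rx.mk (nat_lit 283) (nat_lit 3) (nat_lit 3) (nat_lit 4) (nat_lit 3) (nat_lit 161) (nat_lit 146) r11_161 r11_146 (nat_lit 0) (nat_lit 0) (nat_lit 5449534) (nat_lit 0x7fcac9634) (nat_lit 1082787558),
  Rx.mk (nat_lit 411) (nat_lit 3) (nat_lit 3) (nat_lit 6) (nat_lit 7) (nat_lit 162) (nat_lit 148) r11_162 r11_148 (nat_lit 0) (nat_lit 0) (nat_lit 0) (nat_lit 0x80029938e) (nat_lit 1073741824),
  Rx.mk (nat_lit 443) (nat_lit 3) (nat_lit 7) (nat_lit 6) (nat_lit 7) (nat_lit 160) (nat_lit 149) r11_160 r11_149 (nat_lit 0) (nat_lit 0) (nat_lit 0) (nat_lit 0x80342291e) (nat_lit 1070576824),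
  Rx.mk (nat_lit 447) (nat_lit 7) (nat_lit 7) (nat_lit 6) (nat_lit 7) (nat_lit 152) (nat_lit 158) r11_152 r11_158 (nat_lit 0) (nat_lit 0) (nat_lit 0) (nat_lit 0x85a1b9e32) (nat_lit 982752224),
  Rx.mk (nat_lit 448) (nat_lit 0) (nat_lit 0) (nat_lit 7) (nat_lit 4) (nat_lit 154) (nat_lit 144) r11_154 r11_144 (nat_lit 197139) (nat_lit 241552) (nat_lit 0) (nat_lit 0x77eb907c6) (nat_lit 1208937315),
  Rx.mk (nat_lit 450) (nat_lit 2) (nat_lit 0) (nat_lit 7) (nat_lit 5) (nat_lit 156) (nat_lit 150) r11_156 r11_150 (nat_lit 0) (nat_lit 5516626) (nat_lit 0) (nat_lit 0x7ffc1e82e) (nat_lit 1079674250),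
  Rx.mk (nat_lit 466) (nat_lit 2) (nat_lit 2) (nat_lit 7) (nat_lit 7) (nat_lit 157) (nat_lit 153) r11_157 r11_153 (nat_lit 0) (nat_lit 0) (nat_lit 0) (nat_lit 0x7ffe2c38c) (nat_lit 1074025524),
  Rx.mk (nat_lit 472) (nat_lit 0) (nat_lit 3) (nat_lit 7) (nat_lit 6) (nat_lit 155) (nat_lit 145) r11_155 r11_145 (nat_lit 3711888) (nat_lit 0) (nat_lit 0) (nat_lit 0x802a4a2ac) (nat_lit 1074920912),
  Rx.mk (nat_lit 474) (nat_lit 2) (nat_lit 3) (nat_lit 7) (nat_lit 7) (nat_lit 159) (nat_lit 151) r11_159 r11_151 (nat_lit 0) (nat_lit 0) (nat_lit 0) (nat_lit 0x80029938e) (nat_lit 1073741824),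
  Rx.mk (nat_lit 475) (nat_lit 3) (nat_lit 3) (nat_lit 7) (nat_lit 7) (nat_lit 163) (nat_lit 147) r11_163 r11_147 (nat_lit 0) (nat_lit 0) (nat_lit 0) (nat_lit 0x80029938e) (nat_lit 1073741824)]
noncomputable def e20_21 : List Rx := [
  Rx.mk (nat_lit 82) (nat_lit 2) (nat_lit 2) (nat_lit 1) (nat_lit 7) (nat_lit 164) (nat_lit 214) r11_164 r9_214 (nat_lit 0) (nat_lit 0) (nat_lit 0) (nat_lit 0x80029938e) (nat_lit 1073741824)]
noncomputable def e20_22 : List Rx := [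
  Rx.mk (nat_lit 256) (nat_lit 0) (nat_lit 0) (nat_lit 4) (nat_lit 0) (nat_lit 165) (nat_lit 342) r11_165 r0_342 (nat_lit 18458944) (nat_lit 10268755) (nat_lit 3852129) (nat_lit 0x51ec2bbde) (nat_lit 1874651452),
  Rx.mk (nat_lit 257) (nat_lit 1) (nat_lit 0) (nat_lit 4) (nat_lit 1) (nat_lit 171) (nat_lit 344) r11_171 r0_344 (nat_lit 0) (nat_lit 7896501) (nat_lit 118564749) (nat_lit 0x78f0aaa94) (nat_lit 1317996874),
  Rx.mk (nat_lit 258) (nat_lit 2) (nat_lit 0) (nat_lit 4) (nat_lit 1) (nat_lit 177) (nat_lit 346) r11_177 r0_346 (nat_lit 0) (nat_lit 8056051) (nat_lit 7452897) (nat_lit 0x7322e451a) (nat_lit 1303815772),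
  Rx.mk (nat_lit 264) (nat_lit 0) (nat_lit 1) (nat_lit 4) (nat_lit 2) (nat_lit 168) (nat_lit 343) r11_168 r0_343 (nat_lit 7934940) (nat_lit 0) (nat_lit 194126458) (nat_lit 0x7dfec5c32) (nat_lit 1309321022),
  Rx.mk (nat_lit 265) (nat_lit 1) (nat_lit 1) (nat_lit 4) (nat_lit 3) (nat_lit 174) (nat_lit 345) r11_174 r0_345 (nat_lit 0) (nat_lit 0) (nat_lit 172668765) (nat_lit 0x7f52725c8) (nat_lit 1257804589),
  Rx.mk (nat_lit 266) (nat_lit 2) (nat_lit 1) (nat_lit 4) (nat_lit 3) (nat_lit 179) (nat_lit 347) r11_179 r0_347 (nat_lit 0) (nat_lit 0) (nat_lit 5449534) (nat_lit 0x8024d3526) (nat_lit 1077000758),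
  Rx.mk (nat_lit 274) (nat_lit 2) (nat_lit 2) (nat_lit 4) (nat_lit 3) (nat_lit 181) (nat_lit 348) r11_181 r0_348 (nat_lit 0) (nat_lit 0) (nat_lit 5449534) (nat_lit 0x7fd37cdd0) (nat_lit 1082223658),
  Rx.mk (nat_lit 320) (nat_lit 0) (nat_lit 0) (nat_lit 5) (nat_lit 4) (nat_lit 166) (nat_lit 349) r11_166 r0_349 (nat_lit 249448811) (nat_lit 5119836) (nat_lit 0) (nat_lit 0x7cd98d3b2) (nat_lit 1380926471),
  Rx.mk (nat_lit 321) (nat_lit 1) (nat_lit 0) (nat_lit 5) (nat_lit 5) (nat_lit 172) (nat_lit 351) r11_172 r0_351 (nat_lit 0) (nat_lit 5449534) (nat_lit 0) (nat_lit 0x80029938e) (nat_lit 1079191358),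
  Rx.mk (nat_lit 322) (nat_lit 2) (nat_lit 0) (nat_lit 5) (nat_lit 5) (nat_lit 178) (nat_lit 353) r11_178 r0_353 (nat_lit 0) (nat_lit 4354585) (nat_lit 0) (nat_lit 0x800b09e74) (nat_lit 1077554409),
  Rx.mk (nat_lit 328) (nat_lit 0) (nat_lit 1) (nat_lit 5) (nat_lit 6) (nat_lit 169) (nat_lit 350) r11_169 r0_350 (nat_lit 5782474) (nat_lit 0) (nat_lit 0) (nat_lit 0x7ffaf2f18) (nat_lit 1080015398),
  Rx.mk (nat_lit 329) (nat_lit 1) (nat_lit 1) (nat_lit 5) (nat_lit 7) (nat_lit 175) (nat_lit 352) r11_175 r0_352 (nat_lit 0) (nat_lit 0) (nat_lit 0) (nat_lit 0x800c523a8) (nat_lit 1073118624),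
  Rx.mk (nat_lit 330) (nat_lit 2) (nat_lit 1) (nat_lit 5) (nat_lit 7) (nat_lit 180) (nat_lit 354) r11_180 r0_354 (nat_lit 0) (nat_lit 0) (nat_lit 0) (nat_lit 0x80029938e) (nat_lit 1073741824),
  Rx.mk (nat_lit 338) (nat_lit 2) (nat_lit 2) (nat_lit 5) (nat_lit 7) (nat_lit 182) (nat_lit 355) r11_182 r0_355 (nat_lit 0) (nat_lit 0) (nat_lit 0) (nat_lit 0x800d18918) (nat_lit 1073068624),
  Rx.mk (nat_lit 384) (nat_lit 0) (nat_lit 0) (nat_lit 6) (nat_lit 4) (nat_lit 167) (nat_lit 356) r11_167 r0_356 (nat_lit 9822470) (nat_lit 9822470) (nat_lit 0) (nat_lit 0x7f9211c88) (nat_lit 1100657964),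
  Rx.mk (nat_lit 385) (nat_lit 1) (nat_lit 0) (nat_lit 6) (nat_lit 5) (nat_lit 173) (nat_lit 358) r11_173 r0_358 (nat_lit 0) (nat_lit 4288788) (nat_lit 0) (nat_lit 0x801061ba6) (nat_lit 1077145012),
  Rx.mk (nat_lit 392) (nat_lit 0) (nat_lit 1) (nat_lit 6) (nat_lit 6) (nat_lit 170) (nat_lit 357) r11_170 r0_357 (nat_lit 3096735) (nat_lit 0) (nat_lit 0) (nat_lit 0x80342c6c6) (nat_lit 1073669459),
  Rx.mk (nat_lit 393) (nat_lit 1) (nat_lit 1) (nat_lit 6) (nat_lit 7) (nat_lit 176) (nat_lit 359) r11_176 r0_359 (nat_lit 0) (nat_lit 0) (nat_lit 0) (nat_lit 0x80b7bae20) (nat_lit 1062234024)]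
noncomputable def e20_23 : List Rx := [
  Rx.mk (nat_lit 264) (nat_lit 0) (nat_lit 1) (nat_lit 4) (nat_lit 2) (nat_lit 183) (nat_lit 316) r11_183 r1_316 (nat_lit 8821660) (nat_lit 0) (nat_lit 234072587) (nat_lit 0x7aeb624b8) (nat_lit 1401431171),
  Rx.mk (nat_lit 265) (nat_lit 1) (nat_lit 1) (nat_lit 4) (nat_lit 3) (nat_lit 186) (nat_lit 317) r11_186 r1_317 (nat_lit 0) (nat_lit 0) (nat_lit 10371928) (nat_lit 0x7fad0bc00) (nat_lit 1089630552),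
  Rx.mk (nat_lit 266) (nat_lit 2) (nat_lit 1) (nat_lit 4) (nat_lit 3) (nat_lit 189) (nat_lit 318) r11_189 r1_318 (nat_lit 0) (nat_lit 0) (nat_lit 5657793) (nat_lit 0x7fff429ec) (nat_lit 1079613617),
  Rx.mk (nat_lit 328) (nat_lit 0) (nat_lit 1) (nat_lit 5) (nat_lit 6) (nat_lit 184) (nat_lit 319) r11_184 r1_319 (nat_lit 5449534) (nat_lit 0) (nat_lit 0) (nat_lit 0x80029938e) (nat_lit 1079191358),
  Rx.mk (nat_lit 329) (nat_lit 1) (nat_lit 1) (nat_lit 5) (nat_lit 7) (nat_lit 187) (nat_lit 320) r11_187 r1_320 (nat_lit 0) (nat_lit 0) (nat_lit 0) (nat_lit 0x80029938e) (nat_lit 1073741824),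
  Rx.mk (nat_lit 330) (nat_lit 2) (nat_lit 1) (nat_lit 5) (nat_lit 7) (nat_lit 190) (nat_lit 321) r11_190 r1_321 (nat_lit 0) (nat_lit 0) (nat_lit 0) (nat_lit 0x80029938e) (nat_lit 1073741824),
  Rx.mk (nat_lit 392) (nat_lit 0) (nat_lit 1) (nat_lit 6) (nat_lit 6) (nat_lit 185) (nat_lit 322) r11_185 r1_322 (nat_lit 5364616) (nat_lit 0) (nat_lit 0) (nat_lit 0x7ffcc177c) (nat_lit 1079481040),
  Rx.mk (nat_lit 393) (nat_lit 1) (nat_lit 1) (nat_lit 6) (nat_lit 7) (nat_lit 188) (nat_lit 323) r11_188 r1_323 (nat_lit 0) (nat_lit 0) (nat_lit 0) (nat_lit 0x807a04fb8) (nat_lit 1066138524)]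
noncomputable def e20_24 : List Rx := [
  Rx.mk (nat_lit 256) (nat_lit 0) (nat_lit 0) (nat_lit 4) (nat_lit 0) (nat_lit 191) (nat_lit 381) r11_191 r4_381 (nat_lit 3764156) (nat_lit 3311660) (nat_lit 8641172) (nat_lit 0x5c93f0a86) (nat_lit 1680132412),
  Rx.mk (nat_lit 257) (nat_lit 1) (nat_lit 0) (nat_lit 4) (nat_lit 1) (nat_lit 199) (nat_lit 384) r11_199 r4_384 (nat_lit 0) (nat_lit 5599296) (nat_lit 15577727) (nat_lit 0x7785e1fb0) (nat_lit 1236347147),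
  Rx.mk (nat_lit 258) (nat_lit 2) (nat_lit 0) (nat_lit 4) (nat_lit 1) (nat_lit 207) (nat_lit 387) r11_207 r4_387 (nat_lit 0) (nat_lit 5959014) (nat_lit 9921122) (nat_lit 0x7875189c6) (nat_lit 1215474960),
  Rx.mk (nat_lit 264) (nat_lit 0) (nat_lit 1) (nat_lit 4) (nat_lit 2) (nat_lit 194) (nat_lit 382) r11_194 r4_382 (nat_lit 4816256) (nat_lit 0) (nat_lit 6858387) (nat_lit 0x7fdca3fee) (nat_lit 1087856567),
  Rx.mk (nat_lit 265) (nat_lit 1) (nat_lit 1) (nat_lit 4) (nat_lit 3) (nat_lit 202) (nat_lit 385) r11_202 r4_385 (nat_lit 0) (nat_lit 0) (nat_lit 7939064) (nat_lit 0x7f609f326) (nat_lit 1092168788),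
  Rx.mk (nat_lit 266) (nat_lit 2) (nat_lit 1) (nat_lit 4) (nat_lit 3) (nat_lit 209) (nat_lit 388) r11_209 r4_388 (nat_lit 0) (nat_lit 0) (nat_lit 5449534) (nat_lit 0x80029938e) (nat_lit 1079191358),
  Rx.mk (nat_lit 274) (nat_lit 2) (nat_lit 2) (nat_lit 4) (nat_lit 3) (nat_lit 210) (nat_lit 389) r11_210 r4_389 (nat_lit 0) (nat_lit 0) (nat_lit 5449534) (nat_lit 0x80029938e) (nat_lit 1079191358),
  Rx.mk (nat_lit 280) (nat_lit 0) (nat_lit 3) (nat_lit 4) (nat_lit 2) (nat_lit 196) (nat_lit 383) r11_196 r4_383 (nat_lit 8534027) (nat_lit 0) (nat_lit 6991617) (nat_lit 0x7ccb3567a) (nat_lit 1142817968),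
  Rx.mk (nat_lit 281) (nat_lit 1) (nat_lit 3) (nat_lit 4) (nat_lit 3) (nat_lit 204) (nat_lit 386) r11_204 r4_386 (nat_lit 0) (nat_lit 0) (nat_lit 5449534) (nat_lit 0x80029938e) (nat_lit 1079191358),
  Rx.mk (nat_lit 320) (nat_lit 0) (nat_lit 0) (nat_lit 5) (nat_lit 4) (nat_lit 192) (nat_lit 390) r11_192 r4_390 (nat_lit 144474354) (nat_lit 4090407) (nat_lit 0) (nat_lit 0x7f435b8aa) (nat_lit 1234692185),
  Rx.mk (nat_lit 321) (nat_lit 1) (nat_lit 0) (nat_lit 5) (nat_lit 5) (nat_lit 200) (nat_lit 392) r11_200 r4_392 (nat_lit 0) (nat_lit 5449534) (nat_lit 0) (nat_lit 0x80029938e) (nat_lit 1079191358),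
  Rx.mk (nat_lit 322) (nat_lit 2) (nat_lit 0) (nat_lit 5) (nat_lit 5) (nat_lit 208) (nat_lit 394) r11_208 r4_394 (nat_lit 0) (nat_lit 5449534) (nat_lit 0) (nat_lit 0x7ffe77e04) (nat_lit 1079456258),
  Rx.mk (nat_lit 338) (nat_lit 2) (nat_lit 2) (nat_lit 5) (nat_lit 7) (nat_lit 211) (nat_lit 395) r11_211 r4_395 (nat_lit 0) (nat_lit 0) (nat_lit 0) (nat_lit 0x80029938e) (nat_lit 1073741824),
  Rx.mk (nat_lit 344) (nat_lit 0) (nat_lit 3) (nat_lit 5) (nat_lit 6) (nat_lit 197) (nat_lit 391) r11_197 r4_391 (nat_lit 5723800) (nat_lit 0) (nat_lit 0) (nat_lit 0x800173b08) (nat_lit 1079538724),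
  Rx.mk (nat_lit 345) (nat_lit 1) (nat_lit 3) (nat_lit 5) (nat_lit 7) (nat_lit 205) (nat_lit 393) r11_205 r4_393 (nat_lit 0) (nat_lit 0) (nat_lit 0) (nat_lit 0x80029938e) (nat_lit 1073741824),
  Rx.mk (nat_lit 384) (nat_lit 0) (nat_lit 0) (nat_lit 6) (nat_lit 4) (nat_lit 193) (nat_lit 396) r11_193 r4_396 (nat_lit 9076025) (nat_lit 9076025) (nat_lit 0) (nat_lit 0x7f223ad38) (nat_lit 1106437074),
  Rx.mk (nat_lit 385) (nat_lit 1) (nat_lit 0) (nat_lit 6) (nat_lit 5) (nat_lit 201) (nat_lit 399) r11_201 r4_399 (nat_lit 0) (nat_lit 5449534) (nat_lit 0) (nat_lit 0x80029938e) (nat_lit 1079191358),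
  Rx.mk (nat_lit 392) (nat_lit 0) (nat_lit 1) (nat_lit 6) (nat_lit 6) (nat_lit 195) (nat_lit 397) r11_195 r4_397 (nat_lit 5449534) (nat_lit 0) (nat_lit 0) (nat_lit 0x80029938e) (nat_lit 1079191358),
  Rx.mk (nat_lit 393) (nat_lit 1) (nat_lit 1) (nat_lit 6) (nat_lit 7) (nat_lit 203) (nat_lit 400) r11_203 r4_400 (nat_lit 0) (nat_lit 0) (nat_lit 0) (nat_lit 0x80029938e) (nat_lit 1073741824),
  Rx.mk (nat_lit 408) (nat_lit 0) (nat_lit 3) (nat_lit 6) (nat_lit 6) (nat_lit 198) (nat_lit 398) r11_198 r4_398 (nat_lit 5689996) (nat_lit 0) (nat_lit 0) (nat_lit 0x7ff72fb88) (nat_lit 1080165020),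
  Rx.mk (nat_lit 409) (nat_lit 1) (nat_lit 3) (nat_lit 6) (nat_lit 7) (nat_lit 206) (nat_lit 401) r11_206 r4_401 (nat_lit 0) (nat_lit 0) (nat_lit 0) (nat_lit 0x80029938e) (nat_lit 1073741824)]
noncomputable def e20_25 : List Rx := [
  Rx.mk (nat_lit 320) (nat_lit 0) (nat_lit 0) (nat_lit 5) (nat_lit 4) (nat_lit 212) (nat_lit 263) r11_212 r7_263 (nat_lit 140034131) (nat_lit 27051137) (nat_lit 0) (nat_lit 0x7b544a5ac) (nat_lit 1318788992),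
  Rx.mk (nat_lit 321) (nat_lit 1) (nat_lit 0) (nat_lit 5) (nat_lit 5) (nat_lit 214) (nat_lit 264) r11_214 r7_264 (nat_lit 0) (nat_lit 5449534) (nat_lit 0) (nat_lit 0x80029938e) (nat_lit 1079191358),
  Rx.mk (nat_lit 322) (nat_lit 2) (nat_lit 0) (nat_lit 5) (nat_lit 5) (nat_lit 216) (nat_lit 265) r11_216 r7_265 (nat_lit 0) (nat_lit 5449534) (nat_lit 0) (nat_lit 0x80029938e) (nat_lit 1079191358),
  Rx.mk (nat_lit 328) (nat_lit 0) (nat_lit 1) (nat_lit 5) (nat_lit 6) (nat_lit 213) (nat_lit 266) r11_213 r7_266 (nat_lit 5449534) (nat_lit 0) (nat_lit 0) (nat_lit 0x80029938e) (nat_lit 1079191358),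
  Rx.mk (nat_lit 329) (nat_lit 1) (nat_lit 1) (nat_lit 5) (nat_lit 7) (nat_lit 215) (nat_lit 267) r11_215 r7_267 (nat_lit 0) (nat_lit 0) (nat_lit 0) (nat_lit 0x80029938e) (nat_lit 1073741824),
  Rx.mk (nat_lit 330) (nat_lit 2) (nat_lit 1) (nat_lit 5) (nat_lit 7) (nat_lit 217) (nat_lit 268) r11_217 r7_268 (nat_lit 0) (nat_lit 0) (nat_lit 0) (nat_lit 0x80029938e) (nat_lit 1073741824),
  Rx.mk (nat_lit 338) (nat_lit 2) (nat_lit 2) (nat_lit 5) (nat_lit 7) (nat_lit 218) (nat_lit 269) r11_218 r7_269 (nat_lit 0) (nat_lit 0) (nat_lit 0) (nat_lit 0x80029938e) (nat_lit 1073741824)]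
noncomputable def e20_26 : List Rx := [
  Rx.mk (nat_lit 328) (nat_lit 0) (nat_lit 1) (nat_lit 5) (nat_lit 6) (nat_lit 219) (nat_lit 198) r11_219 r8_198 (nat_lit 5449534) (nat_lit 0) (nat_lit 0) (nat_lit 0x80029938e) (nat_lit 1079191358),
  Rx.mk (nat_lit 329) (nat_lit 1) (nat_lit 1) (nat_lit 5) (nat_lit 7) (nat_lit 220) (nat_lit 199) r11_220 r8_199 (nat_lit 0) (nat_lit 0) (nat_lit 0) (nat_lit 0x80029938e) (nat_lit 1073741824),
  Rx.mk (nat_lit 330) (nat_lit 2) (nat_lit 1) (nat_lit 5) (nat_lit 7) (nat_lit 221) (nat_lit 200) r11_221 r8_200 (nat_lit 0) (nat_lit 0) (nat_lit 0) (nat_lit 0x80029938e) (nat_lit 1073741824)]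
noncomputable def e20_27 : List Rx := [
  Rx.mk (nat_lit 82) (nat_lit 2) (nat_lit 2) (nat_lit 1) (nat_lit 7) (nat_lit 229) (nat_lit 367) r11_229 r8_367 (nat_lit 0) (nat_lit 0) (nat_lit 0) (nat_lit 0x80029938e) (nat_lit 1073741824),
  Rx.mk (nat_lit 320) (nat_lit 0) (nat_lit 0) (nat_lit 5) (nat_lit 4) (nat_lit 222) (nat_lit 368) r11_222 r8_368 (nat_lit 31594176) (nat_lit 21443359) (nat_lit 0) (nat_lit 0x791f109d8) (nat_lit 1241553659),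
  Rx.mk (nat_lit 321) (nat_lit 1) (nat_lit 0) (nat_lit 5) (nat_lit 5) (nat_lit 224) (nat_lit 370) r11_224 r8_370 (nat_lit 0) (nat_lit 5449534) (nat_lit 0) (nat_lit 0x80029938e) (nat_lit 1079191358),
  Rx.mk (nat_lit 322) (nat_lit 2) (nat_lit 0) (nat_lit 5) (nat_lit 5) (nat_lit 226) (nat_lit 372) r11_226 r8_372 (nat_lit 0) (nat_lit 5449534) (nat_lit 0) (nat_lit 0x80029938e) (nat_lit 1079191358),
  Rx.mk (nat_lit 328) (nat_lit 0) (nat_lit 1) (nat_lit 5) (nat_lit 6) (nat_lit 223) (nat_lit 369) r11_223 r8_369 (nat_lit 5449534) (nat_lit 0) (nat_lit 0) (nat_lit 0x80029938e) (nat_lit 1079191358),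
  Rx.mk (nat_lit 329) (nat_lit 1) (nat_lit 1) (nat_lit 5) (nat_lit 7) (nat_lit 225) (nat_lit 371) r11_225 r8_371 (nat_lit 0) (nat_lit 0) (nat_lit 0) (nat_lit 0x80029938e) (nat_lit 1073741824),
  Rx.mk (nat_lit 330) (nat_lit 2) (nat_lit 1) (nat_lit 5) (nat_lit 7) (nat_lit 227) (nat_lit 373) r11_227 r8_373 (nat_lit 0) (nat_lit 0) (nat_lit 0) (nat_lit 0x80029938e) (nat_lit 1073741824),
  Rx.mk (nat_lit 338) (nat_lit 2) (nat_lit 2) (nat_lit 5) (nat_lit 7) (nat_lit 228) (nat_lit 374) r11_228 r8_374 (nat_lit 0) (nat_lit 0) (nat_lit 0) (nat_lit 0x80029938e) (nat_lit 1073741824)]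
noncomputable def e20_28 : List Rx := [
  Rx.mk (nat_lit 320) (nat_lit 0) (nat_lit 0) (nat_lit 5) (nat_lit 4) (nat_lit 230) (nat_lit 206) r11_230 r10_206 (nat_lit 47198871) (nat_lit 11437609) (nat_lit 0) (nat_lit 0x7dbac8fc0) (nat_lit 1170319804),
  Rx.mk (nat_lit 321) (nat_lit 1) (nat_lit 0) (nat_lit 5) (nat_lit 5) (nat_lit 232) (nat_lit 207) r11_232 r10_207 (nat_lit 0) (nat_lit 5449534) (nat_lit 0) (nat_lit 0x80029938e) (nat_lit 1079191358),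
  Rx.mk (nat_lit 322) (nat_lit 2) (nat_lit 0) (nat_lit 5) (nat_lit 5) (nat_lit 234) (nat_lit 208) r11_234 r10_208 (nat_lit 0) (nat_lit 5449534) (nat_lit 0) (nat_lit 0x80029938e) (nat_lit 1079191358),
  Rx.mk (nat_lit 338) (nat_lit 2) (nat_lit 2) (nat_lit 5) (nat_lit 7) (nat_lit 235) (nat_lit 211) r11_235 r10_211 (nat_lit 0) (nat_lit 0) (nat_lit 0) (nat_lit 0x80029938e) (nat_lit 1073741824),
  Rx.mk (nat_lit 344) (nat_lit 0) (nat_lit 3) (nat_lit 5) (nat_lit 6) (nat_lit 231) (nat_lit 209) r11_231 r10_209 (nat_lit 5449534) (nat_lit 0) (nat_lit 0) (nat_lit 0x800b95050) (nat_lit 1078615158),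
  Rx.mk (nat_lit 345) (nat_lit 1) (nat_lit 3) (nat_lit 5) (nat_lit 7) (nat_lit 233) (nat_lit 210) r11_233 r10_210 (nat_lit 0) (nat_lit 0) (nat_lit 0) (nat_lit 0x80029938e) (nat_lit 1073741824)]
noncomputable def e20_29 : List Rx := [
  Rx.mk (nat_lit 256) (nat_lit 0) (nat_lit 0) (nat_lit 4) (nat_lit 0) (nat_lit 236) (nat_lit 236) r11_236 r11_236 (nat_lit 25063667) (nat_lit 25063667) (nat_lit 12626867) (nat_lit 0x57848be6a) (nat_lit 1811543825),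
  Rx.mk (nat_lit 257) (nat_lit 1) (nat_lit 0) (nat_lit 4) (nat_lit 1) (nat_lit 246) (nat_lit 240) r11_246 r11_240 (nat_lit 0) (nat_lit 44498618) (nat_lit 12457896) (nat_lit 0x761f4fd5c) (nat_lit 1295480838),
  Rx.mk (nat_lit 258) (nat_lit 2) (nat_lit 0) (nat_lit 4) (nat_lit 1) (nat_lit 254) (nat_lit 243) r11_254 r11_243 (nat_lit 0) (nat_lit 9364748) (nat_lit 11615170) (nat_lit 0x74b3e5c66) (nat_lit 1283170342),
  Rx.mk (nat_lit 264) (nat_lit 0) (nat_lit 1) (nat_lit 4) (nat_lit 2) (nat_lit 240) (nat_lit 246) r11_240 r11_246 (nat_lit 44498618) (nat_lit 0) (nat_lit 12457896) (nat_lit 0x761f4fd5c) (nat_lit 1295480838),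
  Rx.mk (nat_lit 265) (nat_lit 1) (nat_lit 1) (nat_lit 4) (nat_lit 3) (nat_lit 249) (nat_lit 249) r11_249 r11_249 (nat_lit 0) (nat_lit 0) (nat_lit 5592156) (nat_lit 0x7ff6e4336) (nat_lit 1080085980),
  Rx.mk (nat_lit 266) (nat_lit 2) (nat_lit 1) (nat_lit 4) (nat_lit 3) (nat_lit 257) (nat_lit 252) r11_257 r11_252 (nat_lit 0) (nat_lit 0) (nat_lit 5449534) (nat_lit 0x80029938e) (nat_lit 1079191358),
  Rx.mk (nat_lit 274) (nat_lit 2) (nat_lit 2) (nat_lit 4) (nat_lit 3) (nat_lit 259) (nat_lit 262) r11_259 r11_262 (nat_lit 0) (nat_lit 0) (nat_lit 5449534) (nat_lit 0x80029938e) (nat_lit 1079191358),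
  Rx.mk (nat_lit 280) (nat_lit 0) (nat_lit 3) (nat_lit 4) (nat_lit 2) (nat_lit 243) (nat_lit 254) r11_243 r11_254 (nat_lit 9364748) (nat_lit 0) (nat_lit 11615170) (nat_lit 0x74b3e5c66) (nat_lit 1283170342),
  Rx.mk (nat_lit 281) (nat_lit 1) (nat_lit 3) (nat_lit 4) (nat_lit 3) (nat_lit 252) (nat_lit 257) r11_252 r11_257 (nat_lit 0) (nat_lit 0) (nat_lit 5449534) (nat_lit 0x80029938e) (nat_lit 1079191358),
  Rx.mk (nat_lit 283) (nat_lit 3) (nat_lit 3) (nat_lit 4) (nat_lit 3) (nat_lit 262) (nat_lit 259) r11_262 r11_259 (nat_lit 0) (nat_lit 0) (nat_lit 5449534) (nat_lit 0x80029938e) (nat_lit 1079191358),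
  Rx.mk (nat_lit 320) (nat_lit 0) (nat_lit 0) (nat_lit 5) (nat_lit 4) (nat_lit 237) (nat_lit 237) r11_237 r11_237 (nat_lit 20770673) (nat_lit 20770673) (nat_lit 0) (nat_lit 0x7f8baa200) (nat_lit 1122969770),
  Rx.mk (nat_lit 322) (nat_lit 2) (nat_lit 0) (nat_lit 5) (nat_lit 5) (nat_lit 255) (nat_lit 244) r11_255 r11_244 (nat_lit 0) (nat_lit 5449534) (nat_lit 0) (nat_lit 0x80029938e) (nat_lit 1079191358),
  Rx.mk (nat_lit 338) (nat_lit 2) (nat_lit 2) (nat_lit 5) (nat_lit 7) (nat_lit 260) (nat_lit 263) r11_260 r11_263 (nat_lit 0) (nat_lit 0) (nat_lit 0) (nat_lit 0x80029938e) (nat_lit 1073741824),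
  Rx.mk (nat_lit 344) (nat_lit 0) (nat_lit 3) (nat_lit 5) (nat_lit 6) (nat_lit 244) (nat_lit 255) r11_244 r11_255 (nat_lit 5449534) (nat_lit 0) (nat_lit 0) (nat_lit 0x80029938e) (nat_lit 1079191358),
  Rx.mk (nat_lit 347) (nat_lit 3) (nat_lit 3) (nat_lit 5) (nat_lit 7) (nat_lit 263) (nat_lit 260) r11_263 r11_260 (nat_lit 0) (nat_lit 0) (nat_lit 0) (nat_lit 0x80029938e) (nat_lit 1073741824),
  Rx.mk (nat_lit 384) (nat_lit 0) (nat_lit 0) (nat_lit 6) (nat_lit 4) (nat_lit 238) (nat_lit 239) r11_238 r11_239 (nat_lit 12094471) (nat_lit 10912764) (nat_lit 0) (nat_lit 0x7d59a31dc) (nat_lit 1141019859),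
  Rx.mk (nat_lit 385) (nat_lit 1) (nat_lit 0) (nat_lit 6) (nat_lit 5) (nat_lit 247) (nat_lit 242) r11_247 r11_242 (nat_lit 0) (nat_lit 5449534) (nat_lit 0) (nat_lit 0x80029938e) (nat_lit 1079191358),
  Rx.mk (nat_lit 392) (nat_lit 0) (nat_lit 1) (nat_lit 6) (nat_lit 6) (nat_lit 241) (nat_lit 248) r11_241 r11_248 (nat_lit 5449534) (nat_lit 0) (nat_lit 0) (nat_lit 0x80029938e) (nat_lit 1079191358),
  Rx.mk (nat_lit 393) (nat_lit 1) (nat_lit 1) (nat_lit 6) (nat_lit 7) (nat_lit 250) (nat_lit 251) r11_250 r11_251 (nat_lit 0) (nat_lit 0) (nat_lit 0) (nat_lit 0x80029938e) (nat_lit 1073741824),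
  Rx.mk (nat_lit 408) (nat_lit 0) (nat_lit 3) (nat_lit 6) (nat_lit 6) (nat_lit 245) (nat_lit 256) r11_245 r11_256 (nat_lit 5449534) (nat_lit 0) (nat_lit 0) (nat_lit 0x80029938e) (nat_lit 1079191358),
  Rx.mk (nat_lit 409) (nat_lit 1) (nat_lit 3) (nat_lit 6) (nat_lit 7) (nat_lit 253) (nat_lit 258) r11_253 r11_258 (nat_lit 0) (nat_lit 0) (nat_lit 0) (nat_lit 0x80029938e) (nat_lit 1073741824),
  Rx.mk (nat_lit 411) (nat_lit 3) (nat_lit 3) (nat_lit 6) (nat_lit 7) (nat_lit 264) (nat_lit 261) r11_264 r11_261 (nat_lit 0) (nat_lit 0) (nat_lit 0) (nat_lit 0x80029938e) (nat_lit 1073741824),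
  Rx.mk (nat_lit 448) (nat_lit 0) (nat_lit 0) (nat_lit 7) (nat_lit 4) (nat_lit 239) (nat_lit 238) r11_239 r11_238 (nat_lit 10912764) (nat_lit 12094471) (nat_lit 0) (nat_lit 0x7d59a31dc) (nat_lit 1141019859),
  Rx.mk (nat_lit 449) (nat_lit 1) (nat_lit 0) (nat_lit 7) (nat_lit 5) (nat_lit 248) (nat_lit 241) r11_248 r11_241 (nat_lit 0) (nat_lit 5449534) (nat_lit 0) (nat_lit 0x80029938e) (nat_lit 1079191358),
  Rx.mk (nat_lit 450) (nat_lit 2) (nat_lit 0) (nat_lit 7) (nat_lit 5) (nat_lit 256) (nat_lit 245) r11_256 r11_245 (nat_lit 0) (nat_lit 5449534) (nat_lit 0) (nat_lit 0x80029938e) (nat_lit 1079191358),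
  Rx.mk (nat_lit 456) (nat_lit 0) (nat_lit 1) (nat_lit 7) (nat_lit 6) (nat_lit 242) (nat_lit 247) r11_242 r11_247 (nat_lit 5449534) (nat_lit 0) (nat_lit 0) (nat_lit 0x80029938e) (nat_lit 1079191358),
  Rx.mk (nat_lit 457) (nat_lit 1) (nat_lit 1) (nat_lit 7) (nat_lit 7) (nat_lit 251) (nat_lit 250) r11_251 r11_250 (nat_lit 0) (nat_lit 0) (nat_lit 0) (nat_lit 0x80029938e) (nat_lit 1073741824),
  Rx.mk (nat_lit 458) (nat_lit 2) (nat_lit 1) (nat_lit 7) (nat_lit 7) (nat_lit 258) (nat_lit 253) r11_258 r11_253 (nat_lit 0) (nat_lit 0) (nat_lit 0) (nat_lit 0x80029938e) (nat_lit 1073741824),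
  Rx.mk (nat_lit 466) (nat_lit 2) (nat_lit 2) (nat_lit 7) (nat_lit 7) (nat_lit 261) (nat_lit 264) r11_261 r11_264 (nat_lit 0) (nat_lit 0) (nat_lit 0) (nat_lit 0x80029938e) (nat_lit 1073741824)]
noncomputable def e20_30 : List Rx := [
  Rx.mk (nat_lit 443) (nat_lit 3) (nat_lit 7) (nat_lit 6) (nat_lit 7) (nat_lit 265) (nat_lit 230) r11_265 r5_230 (nat_lit 0) (nat_lit 0) (nat_lit 0) (nat_lit 0x9450c7056) (nat_lit 745300424)]
noncomputable def e20_31 : List Rx := []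
noncomputable def e20_32 : List Rx := [
  Rx.mk (nat_lit 280) (nat_lit 0) (nat_lit 3) (nat_lit 4) (nat_lit 2) (nat_lit 267) (nat_lit 356) r11_267 r6_356 (nat_lit 1198594) (nat_lit 0) (nat_lit 1583871) (nat_lit 0x786c3fe62) (nat_lit 1202933889),
  Rx.mk (nat_lit 281) (nat_lit 1) (nat_lit 3) (nat_lit 4) (nat_lit 3) (nat_lit 270) (nat_lit 359) r11_270 r6_359 (nat_lit 0) (nat_lit 0) (nat_lit 3783142) (nat_lit 0x8026e504e) (nat_lit 1075205966),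
  Rx.mk (nat_lit 282) (nat_lit 2) (nat_lit 3) (nat_lit 4) (nat_lit 3) (nat_lit 272) (nat_lit 362) r11_272 r6_362 (nat_lit 0) (nat_lit 0) (nat_lit 4589682) (nat_lit 0x80102e396) (nat_lit 1077461506),
  Rx.mk (nat_lit 408) (nat_lit 0) (nat_lit 3) (nat_lit 6) (nat_lit 6) (nat_lit 268) (nat_lit 358) r11_268 r6_358 (nat_lit 2725786) (nat_lit 0) (nat_lit 0) (nat_lit 0x80237ab70) (nat_lit 1074362110),
  Rx.mk (nat_lit 409) (nat_lit 1) (nat_lit 3) (nat_lit 6) (nat_lit 7) (nat_lit 271) (nat_lit 361) r11_271 r6_361 (nat_lit 0) (nat_lit 0) (nat_lit 0) (nat_lit 0x80029938e) (nat_lit 1073741824),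
  Rx.mk (nat_lit 440) (nat_lit 0) (nat_lit 7) (nat_lit 6) (nat_lit 6) (nat_lit 266) (nat_lit 357) r11_266 r6_357 (nat_lit 670567) (nat_lit 0) (nat_lit 0) (nat_lit 0x815ed8932) (nat_lit 1052331991),
  Rx.mk (nat_lit 441) (nat_lit 1) (nat_lit 7) (nat_lit 6) (nat_lit 7) (nat_lit 269) (nat_lit 360) r11_269 r6_360 (nat_lit 0) (nat_lit 0) (nat_lit 0) (nat_lit 0xa8336d212) (nat_lit 423737724)]
noncomputable def e20_33 : List Rx := [
  Rx.mk (nat_lit 280) (nat_lit 0) (nat_lit 3) (nat_lit 4) (nat_lit 2) (nat_lit 273) (nat_lit 316) r11_273 r5_316 (nat_lit 4471406) (nat_lit 0) (nat_lit 4395115) (nat_lit 0x7107ec890) (nat_lit 1332271445),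
  Rx.mk (nat_lit 281) (nat_lit 1) (nat_lit 3) (nat_lit 4) (nat_lit 3) (nat_lit 276) (nat_lit 317) r11_276 r5_317 (nat_lit 0) (nat_lit 0) (nat_lit 3845654) (nat_lit 0x8031f6d2a) (nat_lit 1074563378),
  Rx.mk (nat_lit 282) (nat_lit 2) (nat_lit 3) (nat_lit 4) (nat_lit 3) (nat_lit 279) (nat_lit 318) r11_279 r5_318 (nat_lit 0) (nat_lit 0) (nat_lit 3932094) (nat_lit 0x801ccaf14) (nat_lit 1075997118),
  Rx.mk (nat_lit 344) (nat_lit 0) (nat_lit 3) (nat_lit 5) (nat_lit 6) (nat_lit 274) (nat_lit 319) r11_274 r5_319 (nat_lit 4540409) (nat_lit 0) (nat_lit 0) (nat_lit 0x7ffd351cc) (nat_lit 1078626533),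
  Rx.mk (nat_lit 345) (nat_lit 1) (nat_lit 3) (nat_lit 5) (nat_lit 7) (nat_lit 277) (nat_lit 320) r11_277 r5_320 (nat_lit 0) (nat_lit 0) (nat_lit 0) (nat_lit 0x80029938e) (nat_lit 1073741824),
  Rx.mk (nat_lit 346) (nat_lit 2) (nat_lit 3) (nat_lit 5) (nat_lit 7) (nat_lit 280) (nat_lit 321) r11_280 r5_321 (nat_lit 0) (nat_lit 0) (nat_lit 0) (nat_lit 0x80029938e) (nat_lit 1073741824),
  Rx.mk (nat_lit 408) (nat_lit 0) (nat_lit 3) (nat_lit 6) (nat_lit 6) (nat_lit 275) (nat_lit 322) r11_275 r5_322 (nat_lit 4883967) (nat_lit 0) (nat_lit 0) (nat_lit 0x7fed9eae2) (nat_lit 1079973691),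
  Rx.mk (nat_lit 409) (nat_lit 1) (nat_lit 3) (nat_lit 6) (nat_lit 7) (nat_lit 278) (nat_lit 323) r11_278 r5_323 (nat_lit 0) (nat_lit 0) (nat_lit 0) (nat_lit 0x80029938e) (nat_lit 1073741824)]
noncomputable def e20_34 : List Rx := [
  Rx.mk (nat_lit 344) (nat_lit 0) (nat_lit 3) (nat_lit 5) (nat_lit 6) (nat_lit 281) (nat_lit 368) r11_281 r11_368 (nat_lit 5649802) (nat_lit 0) (nat_lit 0) (nat_lit 0x7ff512e2c) (nat_lit 1080260426),
  Rx.mk (nat_lit 345) (nat_lit 1) (nat_lit 3) (nat_lit 5) (nat_lit 7) (nat_lit 282) (nat_lit 369) r11_282 r11_369 (nat_lit 0) (nat_lit 0) (nat_lit 0) (nat_lit 0x80029938e) (nat_lit 1073741824),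
  Rx.mk (nat_lit 346) (nat_lit 2) (nat_lit 3) (nat_lit 5) (nat_lit 7) (nat_lit 283) (nat_lit 370) r11_283 r11_370 (nat_lit 0) (nat_lit 0) (nat_lit 0) (nat_lit 0x80029938e) (nat_lit 1073741824)]
noncomputable def e20_35 : List Rx := [
  Rx.mk (nat_lit 440) (nat_lit 0) (nat_lit 7) (nat_lit 6) (nat_lit 6) (nat_lit 284) (nat_lit 254) r11_284 r6_254 (nat_lit 424298) (nat_lit 0) (nat_lit 0) (nat_lit 0x882e6edee) (nat_lit 941930922),
  Rx.mk (nat_lit 441) (nat_lit 1) (nat_lit 7) (nat_lit 6) (nat_lit 7) (nat_lit 285) (nat_lit 255) r11_285 r6_255 (nat_lit 0) (nat_lit 0) (nat_lit 0) (nat_lit 0xa352ba304) (nat_lit 502613624),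
  Rx.mk (nat_lit 443) (nat_lit 3) (nat_lit 7) (nat_lit 6) (nat_lit 7) (nat_lit 286) (nat_lit 256) r11_286 r6_256 (nat_lit 0) (nat_lit 0) (nat_lit 0) (nat_lit 0x9a931abc8) (nat_lit 644086424)]
noncomputable def e20_36 : List Rx := [
  Rx.mk (nat_lit 280) (nat_lit 0) (nat_lit 3) (nat_lit 4) (nat_lit 2) (nat_lit 288) (nat_lit 154) r11_288 r12_154 (nat_lit 654576) (nat_lit 0) (nat_lit 667034) (nat_lit 0x7581a5c14) (nat_lit 1250087734),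
  Rx.mk (nat_lit 281) (nat_lit 1) (nat_lit 3) (nat_lit 4) (nat_lit 3) (nat_lit 292) (nat_lit 158) r11_292 r12_158 (nat_lit 0) (nat_lit 0) (nat_lit 3008720) (nat_lit 0x801ff6e9a) (nat_lit 1074868444),
  Rx.mk (nat_lit 282) (nat_lit 2) (nat_lit 3) (nat_lit 4) (nat_lit 3) (nat_lit 295) (nat_lit 163) r11_295 r12_163 (nat_lit 0) (nat_lit 0) (nat_lit 3490265) (nat_lit 0x802c425e6) (nat_lit 1074569689),
  Rx.mk (nat_lit 408) (nat_lit 0) (nat_lit 3) (nat_lit 6) (nat_lit 6) (nat_lit 289) (nat_lit 156) r11_289 r12_156 (nat_lit 2043450) (nat_lit 0) (nat_lit 0) (nat_lit 0x808aabb28) (nat_lit 1067127174),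
  Rx.mk (nat_lit 409) (nat_lit 1) (nat_lit 3) (nat_lit 6) (nat_lit 7) (nat_lit 293) (nat_lit 160) r11_293 r12_160 (nat_lit 0) (nat_lit 0) (nat_lit 0) (nat_lit 0x800bd3882) (nat_lit 1073150124),
  Rx.mk (nat_lit 440) (nat_lit 0) (nat_lit 7) (nat_lit 6) (nat_lit 6) (nat_lit 287) (nat_lit 157) r11_287 r12_157 (nat_lit 264456) (nat_lit 0) (nat_lit 0) (nat_lit 0x893fc6a14) (nat_lit 924489980),
  Rx.mk (nat_lit 441) (nat_lit 1) (nat_lit 7) (nat_lit 6) (nat_lit 7) (nat_lit 291) (nat_lit 161) r11_291 r12_161 (nat_lit 0) (nat_lit 0) (nat_lit 0) (nat_lit 0xa72f83a76) (nat_lit 440151724),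
  Rx.mk (nat_lit 443) (nat_lit 3) (nat_lit 7) (nat_lit 6) (nat_lit 7) (nat_lit 297) (nat_lit 162) r11_297 r12_162 (nat_lit 0) (nat_lit 0) (nat_lit 0) (nat_lit 0x99df62cde) (nat_lit 655430324),
  Rx.mk (nat_lit 472) (nat_lit 0) (nat_lit 3) (nat_lit 7) (nat_lit 6) (nat_lit 290) (nat_lit 155) r11_290 r12_155 (nat_lit 1252562) (nat_lit 0) (nat_lit 0) (nat_lit 0x8181ac3aa) (nat_lit 1050719286),
  Rx.mk (nat_lit 473) (nat_lit 1) (nat_lit 3) (nat_lit 7) (nat_lit 7) (nat_lit 294) (nat_lit 159) r11_294 r12_159 (nat_lit 0) (nat_lit 0) (nat_lit 0) (nat_lit 0x801ddd582) (nat_lit 1071996524),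
  Rx.mk (nat_lit 474) (nat_lit 2) (nat_lit 3) (nat_lit 7) (nat_lit 7) (nat_lit 296) (nat_lit 164) r11_296 r12_164 (nat_lit 0) (nat_lit 0) (nat_lit 0) (nat_lit 0x802e32856) (nat_lit 1070956024)]
noncomputable def e20_37 : List Rx := [
  Rx.mk (nat_lit 417) (nat_lit 1) (nat_lit 4) (nat_lit 6) (nat_lit 5) (nat_lit 298) (nat_lit 328) r11_298 r0_328 (nat_lit 0) (nat_lit 4405947) (nat_lit 0) (nat_lit 0x7ffb995de) (nat_lit 1078595171),
  Rx.mk (nat_lit 425) (nat_lit 1) (nat_lit 5) (nat_lit 6) (nat_lit 7) (nat_lit 299) (nat_lit 329) r11_299 r0_329 (nat_lit 0) (nat_lit 0) (nat_lit 0) (nat_lit 0x800a900e2) (nat_lit 1073231224)]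
noncomputable def e20_38 : List Rx := [
  Rx.mk (nat_lit 417) (nat_lit 1) (nat_lit 4) (nat_lit 6) (nat_lit 5) (nat_lit 302) (nat_lit 225) r11_302 r0_225 (nat_lit 0) (nat_lit 2075395) (nat_lit 0) (nat_lit 0x7fa625f44) (nat_lit 1081791519),
  Rx.mk (nat_lit 421) (nat_lit 5) (nat_lit 4) (nat_lit 6) (nat_lit 5) (nat_lit 300) (nat_lit 226) r11_300 r0_226 (nat_lit 0) (nat_lit 3044938) (nat_lit 0) (nat_lit 0x80a25caec) (nat_lit 1066625862),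
  Rx.mk (nat_lit 445) (nat_lit 5) (nat_lit 7) (nat_lit 6) (nat_lit 7) (nat_lit 301) (nat_lit 227) r11_301 r0_227 (nat_lit 0) (nat_lit 0) (nat_lit 0) (nat_lit 0x811726e18) (nat_lit 1056188224)]
noncomputable def e20_39 : List Rx := [
  Rx.mk (nat_lit 417) (nat_lit 1) (nat_lit 4) (nat_lit 6) (nat_lit 5) (nat_lit 306) (nat_lit 442) r11_306 r7_442 (nat_lit 0) (nat_lit 2211577) (nat_lit 0) (nat_lit 0x80826cbe2) (nat_lit 1067819001),
  Rx.mk (nat_lit 421) (nat_lit 5) (nat_lit 4) (nat_lit 6) (nat_lit 5) (nat_lit 303) (nat_lit 439) r11_303 r7_439 (nat_lit 0) (nat_lit 5449534) (nat_lit 0) (nat_lit 0x80029938e) (nat_lit 1079191358),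
  Rx.mk (nat_lit 425) (nat_lit 1) (nat_lit 5) (nat_lit 6) (nat_lit 7) (nat_lit 307) (nat_lit 443) r11_307 r7_443 (nat_lit 0) (nat_lit 0) (nat_lit 0) (nat_lit 0x804af24dc) (nat_lit 1069126324),
  Rx.mk (nat_lit 429) (nat_lit 5) (nat_lit 5) (nat_lit 6) (nat_lit 7) (nat_lit 304) (nat_lit 440) r11_304 r7_440 (nat_lit 0) (nat_lit 0) (nat_lit 0) (nat_lit 0x80029938e) (nat_lit 1073741824),
  Rx.mk (nat_lit 445) (nat_lit 5) (nat_lit 7) (nat_lit 6) (nat_lit 7) (nat_lit 305) (nat_lit 441) r11_305 r7_441 (nat_lit 0) (nat_lit 0) (nat_lit 0) (nat_lit 0x80029938e) (nat_lit 1073741824)]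
noncomputable def e20_40 : List Rx := [
  Rx.mk (nat_lit 164) (nat_lit 4) (nat_lit 4) (nat_lit 2) (nat_lit 4) (nat_lit 309) (nat_lit 258) r11_309 r2_258 (nat_lit 9794519) (nat_lit 10365630) (nat_lit 0) (nat_lit 0x7c8c29d82) (nat_lit 1151554373),
  Rx.mk (nat_lit 165) (nat_lit 5) (nat_lit 4) (nat_lit 2) (nat_lit 5) (nat_lit 313) (nat_lit 259) r11_313 r2_259 (nat_lit 0) (nat_lit 5449534) (nat_lit 0) (nat_lit 0x80029938e) (nat_lit 1079191358),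
  Rx.mk (nat_lit 180) (nat_lit 4) (nat_lit 6) (nat_lit 2) (nat_lit 6) (nat_lit 310) (nat_lit 265) r11_310 r2_265 (nat_lit 5449534) (nat_lit 0) (nat_lit 0) (nat_lit 0x80029938e) (nat_lit 1079191358),
  Rx.mk (nat_lit 181) (nat_lit 5) (nat_lit 6) (nat_lit 2) (nat_lit 7) (nat_lit 314) (nat_lit 266) r11_314 r2_266 (nat_lit 0) (nat_lit 0) (nat_lit 0) (nat_lit 0x80029938e) (nat_lit 1073741824),
  Rx.mk (nat_lit 182) (nat_lit 6) (nat_lit 6) (nat_lit 2) (nat_lit 7) (nat_lit 316) (nat_lit 267) r11_316 r2_267 (nat_lit 0) (nat_lit 0) (nat_lit 0) (nat_lit 0x80029938e) (nat_lit 1073741824),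
  Rx.mk (nat_lit 420) (nat_lit 4) (nat_lit 4) (nat_lit 6) (nat_lit 4) (nat_lit 308) (nat_lit 260) r11_308 r2_260 (nat_lit 9315237) (nat_lit 10390094) (nat_lit 0) (nat_lit 0x78a9c488c) (nat_lit 1215867155),
  Rx.mk (nat_lit 421) (nat_lit 5) (nat_lit 4) (nat_lit 6) (nat_lit 5) (nat_lit 312) (nat_lit 261) r11_312 r2_261 (nat_lit 0) (nat_lit 5449534) (nat_lit 0) (nat_lit 0x80029938e) (nat_lit 1079191358),
  Rx.mk (nat_lit 444) (nat_lit 4) (nat_lit 7) (nat_lit 6) (nat_lit 6) (nat_lit 311) (nat_lit 262) r11_311 r2_262 (nat_lit 2910432) (nat_lit 0) (nat_lit 0) (nat_lit 0x804c46c02) (nat_lit 1071955056),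
  Rx.mk (nat_lit 445) (nat_lit 5) (nat_lit 7) (nat_lit 6) (nat_lit 7) (nat_lit 315) (nat_lit 263) r11_315 r2_263 (nat_lit 0) (nat_lit 0) (nat_lit 0) (nat_lit 0x80029938e) (nat_lit 1073741824),
  Rx.mk (nat_lit 447) (nat_lit 7) (nat_lit 7) (nat_lit 6) (nat_lit 7) (nat_lit 317) (nat_lit 264) r11_317 r2_264 (nat_lit 0) (nat_lit 0) (nat_lit 0) (nat_lit 0x80029938e) (nat_lit 1073741824)]
noncomputable def e20_41 : List Rx := [
  Rx.mk (nat_lit 164) (nat_lit 4) (nat_lit 4) (nat_lit 2) (nat_lit 4) (nat_lit 319) (nat_lit 229) r11_319 r9_229 (nat_lit 11688394) (nat_lit 11688394) (nat_lit 0) (nat_lit 0x7bca66588) (nat_lit 1167391312),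
  Rx.mk (nat_lit 165) (nat_lit 5) (nat_lit 4) (nat_lit 2) (nat_lit 5) (nat_lit 323) (nat_lit 230) r11_323 r9_230 (nat_lit 0) (nat_lit 5449534) (nat_lit 0) (nat_lit 0x80029938e) (nat_lit 1079191358),
  Rx.mk (nat_lit 173) (nat_lit 5) (nat_lit 5) (nat_lit 2) (nat_lit 7) (nat_lit 325) (nat_lit 233) r11_325 r9_233 (nat_lit 0) (nat_lit 0) (nat_lit 0) (nat_lit 0x80029938e) (nat_lit 1073741824),
  Rx.mk (nat_lit 180) (nat_lit 4) (nat_lit 6) (nat_lit 2) (nat_lit 6) (nat_lit 320) (nat_lit 238) r11_320 r9_238 (nat_lit 5449534) (nat_lit 0) (nat_lit 0) (nat_lit 0x80029938e) (nat_lit 1079191358),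
  Rx.mk (nat_lit 181) (nat_lit 5) (nat_lit 6) (nat_lit 2) (nat_lit 7) (nat_lit 326) (nat_lit 239) r11_326 r9_239 (nat_lit 0) (nat_lit 0) (nat_lit 0) (nat_lit 0x80029938e) (nat_lit 1073741824),
  Rx.mk (nat_lit 182) (nat_lit 6) (nat_lit 6) (nat_lit 2) (nat_lit 7) (nat_lit 328) (nat_lit 240) r11_328 r9_240 (nat_lit 0) (nat_lit 0) (nat_lit 0) (nat_lit 0x80029938e) (nat_lit 1073741824),
  Rx.mk (nat_lit 420) (nat_lit 4) (nat_lit 4) (nat_lit 6) (nat_lit 4) (nat_lit 318) (nat_lit 231) r11_318 r9_231 (nat_lit 28325714) (nat_lit 35806592) (nat_lit 0) (nat_lit 0x7d068baa8) (nat_lit 1187560530),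
  Rx.mk (nat_lit 421) (nat_lit 5) (nat_lit 4) (nat_lit 6) (nat_lit 5) (nat_lit 322) (nat_lit 232) r11_322 r9_232 (nat_lit 0) (nat_lit 5449534) (nat_lit 0) (nat_lit 0x80029938e) (nat_lit 1079191358),
  Rx.mk (nat_lit 429) (nat_lit 5) (nat_lit 5) (nat_lit 6) (nat_lit 7) (nat_lit 324) (nat_lit 234) r11_324 r9_234 (nat_lit 0) (nat_lit 0) (nat_lit 0) (nat_lit 0x80029938e) (nat_lit 1073741824),
  Rx.mk (nat_lit 444) (nat_lit 4) (nat_lit 7) (nat_lit 6) (nat_lit 6) (nat_lit 321) (nat_lit 235) r11_321 r9_235 (nat_lit 5449534) (nat_lit 0) (nat_lit 0) (nat_lit 0x80029938e) (nat_lit 1079191358),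
  Rx.mk (nat_lit 445) (nat_lit 5) (nat_lit 7) (nat_lit 6) (nat_lit 7) (nat_lit 327) (nat_lit 236) r11_327 r9_236 (nat_lit 0) (nat_lit 0) (nat_lit 0) (nat_lit 0x80029938e) (nat_lit 1073741824),
  Rx.mk (nat_lit 447) (nat_lit 7) (nat_lit 7) (nat_lit 6) (nat_lit 7) (nat_lit 329) (nat_lit 237) r11_329 r9_237 (nat_lit 0) (nat_lit 0) (nat_lit 0) (nat_lit 0x80029938e) (nat_lit 1073741824)]
noncomputable def e20_42 : List Rx := [
  Rx.mk (nat_lit 180) (nat_lit 4) (nat_lit 6) (nat_lit 2) (nat_lit 6) (nat_lit 330) (nat_lit 216) r11_330 r9_216 (nat_lit 5449534) (nat_lit 0) (nat_lit 0) (nat_lit 0x80029938e) (nat_lit 1079191358),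
  Rx.mk (nat_lit 181) (nat_lit 5) (nat_lit 6) (nat_lit 2) (nat_lit 7) (nat_lit 331) (nat_lit 217) r11_331 r9_217 (nat_lit 0) (nat_lit 0) (nat_lit 0) (nat_lit 0x80029938e) (nat_lit 1073741824),
  Rx.mk (nat_lit 182) (nat_lit 6) (nat_lit 6) (nat_lit 2) (nat_lit 7) (nat_lit 332) (nat_lit 218) r11_332 r9_218 (nat_lit 0) (nat_lit 0) (nat_lit 0) (nat_lit 0x80029938e) (nat_lit 1073741824)]
noncomputable def e20_43 : List Rx := [
  Rx.mk (nat_lit 421) (nat_lit 5) (nat_lit 4) (nat_lit 6) (nat_lit 5) (nat_lit 333) (nat_lit 244) r11_333 r1_244 (nat_lit 0) (nat_lit 3129371) (nat_lit 0) (nat_lit 0x8036700c2) (nat_lit 1073557195),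
  Rx.mk (nat_lit 445) (nat_lit 5) (nat_lit 7) (nat_lit 6) (nat_lit 7) (nat_lit 334) (nat_lit 245) r11_334 r1_245 (nat_lit 0) (nat_lit 0) (nat_lit 0) (nat_lit 0x80c2edd92) (nat_lit 1061523624)]
noncomputable def e20_44 : List Rx := [
  Rx.mk (nat_lit 421) (nat_lit 5) (nat_lit 4) (nat_lit 6) (nat_lit 5) (nat_lit 335) (nat_lit 358) r11_335 r8_358 (nat_lit 0) (nat_lit 5449534) (nat_lit 0) (nat_lit 0x80029938e) (nat_lit 1079191358),
  Rx.mk (nat_lit 429) (nat_lit 5) (nat_lit 5) (nat_lit 6) (nat_lit 7) (nat_lit 336) (nat_lit 359) r11_336 r8_359 (nat_lit 0) (nat_lit 0) (nat_lit 0) (nat_lit 0x80029938e) (nat_lit 1073741824),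
  Rx.mk (nat_lit 445) (nat_lit 5) (nat_lit 7) (nat_lit 6) (nat_lit 7) (nat_lit 337) (nat_lit 360) r11_337 r8_360 (nat_lit 0) (nat_lit 0) (nat_lit 0) (nat_lit 0x80029938e) (nat_lit 1073741824)]
noncomputable def e20_45 : List Rx := [
  Rx.mk (nat_lit 425) (nat_lit 1) (nat_lit 5) (nat_lit 6) (nat_lit 7) (nat_lit 338) (nat_lit 310) r11_338 r1_310 (nat_lit 0) (nat_lit 0) (nat_lit 0) (nat_lit 0x80029938e) (nat_lit 1073741824)]
noncomputable def e20_46 : List Rx := [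
  Rx.mk (nat_lit 265) (nat_lit 1) (nat_lit 1) (nat_lit 4) (nat_lit 3) (nat_lit 340) (nat_lit 356) r11_340 r2_356 (nat_lit 0) (nat_lit 0) (nat_lit 6662062) (nat_lit 0x7fca8b1a4) (nat_lit 1084015286),
  Rx.mk (nat_lit 329) (nat_lit 1) (nat_lit 1) (nat_lit 5) (nat_lit 7) (nat_lit 341) (nat_lit 357) r11_341 r2_357 (nat_lit 0) (nat_lit 0) (nat_lit 0) (nat_lit 0x80029938e) (nat_lit 1073741824),
  Rx.mk (nat_lit 393) (nat_lit 1) (nat_lit 1) (nat_lit 6) (nat_lit 7) (nat_lit 342) (nat_lit 359) r11_342 r2_359 (nat_lit 0) (nat_lit 0) (nat_lit 0) (nat_lit 0x80029938e) (nat_lit 1073741824),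
  Rx.mk (nat_lit 425) (nat_lit 1) (nat_lit 5) (nat_lit 6) (nat_lit 7) (nat_lit 339) (nat_lit 358) r11_339 r2_358 (nat_lit 0) (nat_lit 0) (nat_lit 0) (nat_lit 0x80029938e) (nat_lit 1073741824)]
noncomputable def e20_47 : List Rx := [
  Rx.mk (nat_lit 425) (nat_lit 1) (nat_lit 5) (nat_lit 6) (nat_lit 7) (nat_lit 344) (nat_lit 219) r11_344 r8_219 (nat_lit 0) (nat_lit 0) (nat_lit 0) (nat_lit 0x80029938e) (nat_lit 1073741824),
  Rx.mk (nat_lit 429) (nat_lit 5) (nat_lit 5) (nat_lit 6) (nat_lit 7) (nat_lit 343) (nat_lit 220) r11_343 r8_220 (nat_lit 0) (nat_lit 0) (nat_lit 0) (nat_lit 0x80029938e) (nat_lit 1073741824)]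
noncomputable def e20_48 : List Rx := [
  Rx.mk (nat_lit 265) (nat_lit 1) (nat_lit 1) (nat_lit 4) (nat_lit 3) (nat_lit 347) (nat_lit 320) r11_347 r9_320 (nat_lit 0) (nat_lit 0) (nat_lit 5449534) (nat_lit 0x7ffd1a084) (nat_lit 1079543858),
  Rx.mk (nat_lit 329) (nat_lit 1) (nat_lit 1) (nat_lit 5) (nat_lit 7) (nat_lit 348) (nat_lit 321) r11_348 r9_321 (nat_lit 0) (nat_lit 0) (nat_lit 0) (nat_lit 0x80029938e) (nat_lit 1073741824),
  Rx.mk (nat_lit 393) (nat_lit 1) (nat_lit 1) (nat_lit 6) (nat_lit 7) (nat_lit 349) (nat_lit 323) r11_349 r9_323 (nat_lit 0) (nat_lit 0) (nat_lit 0) (nat_lit 0x80029938e) (nat_lit 1073741824),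
  Rx.mk (nat_lit 425) (nat_lit 1) (nat_lit 5) (nat_lit 6) (nat_lit 7) (nat_lit 346) (nat_lit 322) r11_346 r9_322 (nat_lit 0) (nat_lit 0) (nat_lit 0) (nat_lit 0x80029938e) (nat_lit 1073741824),
  Rx.mk (nat_lit 429) (nat_lit 5) (nat_lit 5) (nat_lit 6) (nat_lit 7) (nat_lit 345) (nat_lit 319) r11_345 r9_319 (nat_lit 0) (nat_lit 0) (nat_lit 0) (nat_lit 0x80029938e) (nat_lit 1073741824)]
noncomputable def e20_49 : List Rx := [
  Rx.mk (nat_lit 329) (nat_lit 1) (nat_lit 1) (nat_lit 5) (nat_lit 7) (nat_lit 350) (nat_lit 327) r11_350 r9_327 (nat_lit 0) (nat_lit 0) (nat_lit 0) (nat_lit 0x80029938e) (nat_lit 1073741824)]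
noncomputable def e20_50 : List Rx := [
  Rx.mk (nat_lit 417) (nat_lit 1) (nat_lit 4) (nat_lit 6) (nat_lit 5) (nat_lit 351) (nat_lit 331) r11_351 r3_331 (nat_lit 0) (nat_lit 43945288) (nat_lit 0) (nat_lit 0x7fd2eddd8) (nat_lit 1120678112),
  Rx.mk (nat_lit 441) (nat_lit 1) (nat_lit 7) (nat_lit 6) (nat_lit 7) (nat_lit 352) (nat_lit 332) r11_352 r3_332 (nat_lit 0) (nat_lit 0) (nat_lit 0) (nat_lit 0xa03942e42) (nat_lit 552675224)]
noncomputable def e20_51 : List Rx := [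
  Rx.mk (nat_lit 417) (nat_lit 1) (nat_lit 4) (nat_lit 6) (nat_lit 5) (nat_lit 353) (nat_lit 363) r11_353 r4_363 (nat_lit 0) (nat_lit 4642613) (nat_lit 0) (nat_lit 0x7fedac142) (nat_lit 1079729037),
  Rx.mk (nat_lit 425) (nat_lit 1) (nat_lit 5) (nat_lit 6) (nat_lit 7) (nat_lit 354) (nat_lit 364) r11_354 r4_364 (nat_lit 0) (nat_lit 0) (nat_lit 0) (nat_lit 0x800f551b8) (nat_lit 1072925424),
  Rx.mk (nat_lit 441) (nat_lit 1) (nat_lit 7) (nat_lit 6) (nat_lit 7) (nat_lit 355) (nat_lit 365) r11_355 r4_365 (nat_lit 0) (nat_lit 0) (nat_lit 0) (nat_lit 0x800f551b8) (nat_lit 1072925424)]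
noncomputable def e20_52 : List Rx := [
  Rx.mk (nat_lit 441) (nat_lit 1) (nat_lit 7) (nat_lit 6) (nat_lit 7) (nat_lit 356) (nat_lit 310) r11_356 r5_310 (nat_lit 0) (nat_lit 0) (nat_lit 0) (nat_lit 0x962b5e434) (nat_lit 715321324)]
noncomputable def e20_53 : List Rx := [
  Rx.mk (nat_lit 417) (nat_lit 1) (nat_lit 4) (nat_lit 6) (nat_lit 5) (nat_lit 358) (nat_lit 226) r11_358 r4_226 (nat_lit 0) (nat_lit 2508955) (nat_lit 0) (nat_lit 0x803850888) (nat_lit 1072812579),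
  Rx.mk (nat_lit 441) (nat_lit 1) (nat_lit 7) (nat_lit 6) (nat_lit 7) (nat_lit 359) (nat_lit 227) r11_359 r4_227 (nat_lit 0) (nat_lit 0) (nat_lit 0) (nat_lit 0x86812eb26) (nat_lit 968635724),
  Rx.mk (nat_lit 445) (nat_lit 5) (nat_lit 7) (nat_lit 6) (nat_lit 7) (nat_lit 357) (nat_lit 228) r11_357 r4_228 (nat_lit 0) (nat_lit 0) (nat_lit 0) (nat_lit 0x841e5b4ec) (nat_lit 1007221824)]
noncomputable def e20_54 : List Rx := [
  Rx.mk (nat_lit 417) (nat_lit 1) (nat_lit 4) (nat_lit 6) (nat_lit 5) (nat_lit 361) (nat_lit 366) r11_361 r10_366 (nat_lit 0) (nat_lit 2407548) (nat_lit 0) (nat_lit 0x806441ffa) (nat_lit 1069926072),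
  Rx.mk (nat_lit 425) (nat_lit 1) (nat_lit 5) (nat_lit 6) (nat_lit 7) (nat_lit 362) (nat_lit 367) r11_362 r10_367 (nat_lit 0) (nat_lit 0) (nat_lit 0) (nat_lit 0x803403b68) (nat_lit 1070584224),
  Rx.mk (nat_lit 441) (nat_lit 1) (nat_lit 7) (nat_lit 6) (nat_lit 7) (nat_lit 363) (nat_lit 368) r11_363 r10_368 (nat_lit 0) (nat_lit 0) (nat_lit 0) (nat_lit 0x803403b68) (nat_lit 1070584224),
  Rx.mk (nat_lit 445) (nat_lit 5) (nat_lit 7) (nat_lit 6) (nat_lit 7) (nat_lit 360) (nat_lit 365) r11_360 r10_365 (nat_lit 0) (nat_lit 0) (nat_lit 0) (nat_lit 0x80029938e) (nat_lit 1073741824)]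
noncomputable def e20_55 : List Rx := [
  Rx.mk (nat_lit 441) (nat_lit 1) (nat_lit 7) (nat_lit 6) (nat_lit 7) (nat_lit 365) (nat_lit 365) r11_365 r11_365 (nat_lit 0) (nat_lit 0) (nat_lit 0) (nat_lit 0x804399b86) (nat_lit 1069591024),
  Rx.mk (nat_lit 445) (nat_lit 5) (nat_lit 7) (nat_lit 6) (nat_lit 7) (nat_lit 364) (nat_lit 364) r11_364 r11_364 (nat_lit 0) (nat_lit 0) (nat_lit 0) (nat_lit 0x8017b333c) (nat_lit 1072390724)]
noncomputable def e20_56 : List Rx := [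
  Rx.mk (nat_lit 417) (nat_lit 1) (nat_lit 4) (nat_lit 6) (nat_lit 5) (nat_lit 366) (nat_lit 240) r11_366 r5_240 (nat_lit 0) (nat_lit 3575816) (nat_lit 0) (nat_lit 0x8092b4d56) (nat_lit 1068148740),
  Rx.mk (nat_lit 441) (nat_lit 1) (nat_lit 7) (nat_lit 6) (nat_lit 7) (nat_lit 367) (nat_lit 241) r11_367 r5_241 (nat_lit 0) (nat_lit 0) (nat_lit 0) (nat_lit 0x81eccd206) (nat_lit 1042695924)]
noncomputable def e20_57 : List Rx := [
  Rx.mk (nat_lit 417) (nat_lit 1) (nat_lit 4) (nat_lit 6) (nat_lit 5) (nat_lit 368) (nat_lit 281) r11_368 r11_281 (nat_lit 0) (nat_lit 5649802) (nat_lit 0) (nat_lit 0x7ff512e2c) (nat_lit 1080260426),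
  Rx.mk (nat_lit 425) (nat_lit 1) (nat_lit 5) (nat_lit 6) (nat_lit 7) (nat_lit 369) (nat_lit 282) r11_369 r11_282 (nat_lit 0) (nat_lit 0) (nat_lit 0) (nat_lit 0x80029938e) (nat_lit 1073741824),
  Rx.mk (nat_lit 441) (nat_lit 1) (nat_lit 7) (nat_lit 6) (nat_lit 7) (nat_lit 370) (nat_lit 283) r11_370 r11_283 (nat_lit 0) (nat_lit 0) (nat_lit 0) (nat_lit 0x80029938e) (nat_lit 1073741824)]
noncomputable def e20 : List (List Rx) := [e20_0, e20_1, e20_2, e20_3, e20_4, e20_5, e20_6, e20_7, e20_8, e20_9, e20_10, e20_11, e20_12, e20_13, e20_14, e20_15, e20_16, e20_17, e20_18, e20_19, e20_20, e20_21, e20_22, e20_23, e20_24, e20_25, e20_26, e20_27, e20_28, e20_29, e20_30, e20_31, e20_32, e20_33, e20_34, e20_35, e20_36, e20_37, e20_38, e20_39, e20_40, e20_41, e20_42, e20_43, e20_44, e20_45, e20_46, e20_47, e20_48, e20_49, e20_50, e20_51, e20_52, e20_53, e20_54, e20_55,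 e20_56, e20_57]
noncomputable def e21_0 : List Rx := [
  Rx.mk (nat_lit 292) (nat_lit 4) (nat_lit 4) (nat_lit 4) (nat_lit 0) (nat_lit 23) (nat_lit 155) r9_23 r0_155 (nat_lit 4153151) (nat_lit 2362812) (nat_lit 1354781) (nat_lit 0x1b57e90f6) (nat_lit 2759934868),
  Rx.mk (nat_lit 295) (nat_lit 7) (nat_lit 4) (nat_lit 4) (nat_lit 1) (nat_lit 25) (nat_lit 161) r9_25 r0_161 (nat_lit 0) (nat_lit 2475026) (nat_lit 2456288) (nat_lit 0x57aea971a) (nat_lit 1750970938),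
  Rx.mk (nat_lit 308) (nat_lit 4) (nat_lit 6) (nat_lit 4) (nat_lit 2) (nat_lit 29) (nat_lit 158) r9_29 r0_158 (nat_lit 18445641) (nat_lit 0) (nat_lit 2771204) (nat_lit 0x4ea89f76a) (nat_lit 1917708369),
  Rx.mk (nat_lit 311) (nat_lit 7) (nat_lit 6) (nat_lit 4) (nat_lit 3) (nat_lit 33) (nat_lit 167) r9_33 r0_167 (nat_lit 0) (nat_lit 0) (nat_lit 5084035) (nat_lit 0x7fe4632fc) (nat_lit 1080766959),
  Rx.mk (nat_lit 319) (nat_lit 7) (nat_lit 7) (nat_lit 4) (nat_lit 3) (nat_lit 37) (nat_lit 164) r9_37 r0_164 (nat_lit 0) (nat_lit 0) (nat_lit 5165939) (nat_lit 0x791ad7c68) (nat_lit 1193957763),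
  Rx.mk (nat_lit 356) (nat_lit 4) (nat_lit 4) (nat_lit 5) (nat_lit 4) (nat_lit 24) (nat_lit 156) r9_24 r0_156 (nat_lit 4177856) (nat_lit 4070116) (nat_lit 0) (nat_lit 0x4bc84881c) (nat_lit 1952696096),
  Rx.mk (nat_lit 359) (nat_lit 7) (nat_lit 4) (nat_lit 5) (nat_lit 5) (nat_lit 26) (nat_lit 162) r9_26 r0_162 (nat_lit 0) (nat_lit 5501243) (nat_lit 0) (nat_lit 0x781c26610) (nat_lit 1210881267),
  Rx.mk (nat_lit 364) (nat_lit 4) (nat_lit 5) (nat_lit 5) (nat_lit 6) (nat_lit 27) (nat_lit 157) r9_27 r0_157 (nat_lit 6049948) (nat_lit 0) (nat_lit 0) (nat_lit 0x7c59b23d6) (nat_lit 1140727172),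
  Rx.mk (nat_lit 367) (nat_lit 7) (nat_lit 5) (nat_lit 5) (nat_lit 7) (nat_lit 28) (nat_lit 163) r9_28 r0_163 (nat_lit 0) (nat_lit 0) (nat_lit 0) (nat_lit 0x80029938e) (nat_lit 1073741824),
  Rx.mk (nat_lit 372) (nat_lit 4) (nat_lit 6) (nat_lit 5) (nat_lit 6) (nat_lit 30) (nat_lit 159) r9_30 r0_159 (nat_lit 9808972) (nat_lit 0) (nat_lit 0) (nat_lit 0x7fc6e9032) (nat_lit 1087396196),
  Rx.mk (nat_lit 375) (nat_lit 7) (nat_lit 6) (nat_lit 5) (nat_lit 7) (nat_lit 34) (nat_lit 168) r9_34 r0_168 (nat_lit 0) (nat_lit 0) (nat_lit 0) (nat_lit 0x80029938e) (nat_lit 1073741824),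
  Rx.mk (nat_lit 383) (nat_lit 7) (nat_lit 7) (nat_lit 5) (nat_lit 7) (nat_lit 38) (nat_lit 165) r9_38 r0_165 (nat_lit 0) (nat_lit 0) (nat_lit 0) (nat_lit 0x80029938e) (nat_lit 1073741824),
  Rx.mk (nat_lit 436) (nat_lit 4) (nat_lit 6) (nat_lit 6) (nat_lit 6) (nat_lit 31) (nat_lit 160) r9_31 r0_160 (nat_lit 89110576) (nat_lit 0) (nat_lit 0) (nat_lit 0x7efa9f9ea) (nat_lit 1179970500),
  Rx.mk (nat_lit 438) (nat_lit 6) (nat_lit 6) (nat_lit 6) (nat_lit 7) (nat_lit 32) (nat_lit 170) r9_32 r0_170 (nat_lit 0) (nat_lit 0) (nat_lit 0) (nat_lit 0x7feda7fe8) (nat_lit 1075089724),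
  Rx.mk (nat_lit 439) (nat_lit 7) (nat_lit 6) (nat_lit 6) (nat_lit 7) (nat_lit 35) (nat_lit 169) r9_35 r0_169 (nat_lit 0) (nat_lit 0) (nat_lit 0) (nat_lit 0x80029938e) (nat_lit 1073741824),
  Rx.mk (nat_lit 507) (nat_lit 3) (nat_lit 7) (nat_lit 7) (nat_lit 7) (nat_lit 36) (nat_lit 154) r9_36 r0_154 (nat_lit 0) (nat_lit 0) (nat_lit 0) (nat_lit 0x80029938e) (nat_lit 1073741824),
  Rx.mk (nat_lit 511) (nat_lit 7) (nat_lit 7) (nat_lit 7) (nat_lit 7) (nat_lit 39) (nat_lit 166) r9_39 r0_166 (nat_lit 0) (nat_lit 0) (nat_lit 0) (nat_lit 0x80029938e) (nat_lit 1073741824)]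
noncomputable def e21_1 : List Rx := [
  Rx.mk (nat_lit 292) (nat_lit 4) (nat_lit 4) (nat_lit 4) (nat_lit 0) (nat_lit 40) (nat_lit 170) r9_40 r1_170 (nat_lit 67552839) (nat_lit 14674099) (nat_lit 5387168) (nat_lit 0x39df35bf4) (nat_lit 2330684730),
  Rx.mk (nat_lit 295) (nat_lit 7) (nat_lit 4) (nat_lit 4) (nat_lit 1) (nat_lit 41) (nat_lit 173) r9_41 r1_173 (nat_lit 0) (nat_lit 6975258) (nat_lit 3916298) (nat_lit 0x682127750) (nat_lit 1482713080),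
  Rx.mk (nat_lit 308) (nat_lit 4) (nat_lit 6) (nat_lit 4) (nat_lit 2) (nat_lit 42) (nat_lit 171) r9_42 r1_171 (nat_lit 138692841) (nat_lit 0) (nat_lit 4130151) (nat_lit 0x6fe20f042) (nat_lit 1485369016),
  Rx.mk (nat_lit 311) (nat_lit 7) (nat_lit 6) (nat_lit 4) (nat_lit 3) (nat_lit 45) (nat_lit 176) r9_45 r1_176 (nat_lit 0) (nat_lit 0) (nat_lit 5449534) (nat_lit 0x80029938e) (nat_lit 1079191358),
  Rx.mk (nat_lit 319) (nat_lit 7) (nat_lit 7) (nat_lit 4) (nat_lit 3) (nat_lit 48) (nat_lit 174) r9_48 r1_174 (nat_lit 0) (nat_lit 0) (nat_lit 5449534) (nat_lit 0x80029938e) (nat_lit 1079191358),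
  Rx.mk (nat_lit 436) (nat_lit 4) (nat_lit 6) (nat_lit 6) (nat_lit 6) (nat_lit 43) (nat_lit 172) r9_43 r1_172 (nat_lit 7333993) (nat_lit 0) (nat_lit 0) (nat_lit 0x7fde08646) (nat_lit 1083428917),
  Rx.mk (nat_lit 438) (nat_lit 6) (nat_lit 6) (nat_lit 6) (nat_lit 7) (nat_lit 44) (nat_lit 178) r9_44 r1_178 (nat_lit 0) (nat_lit 0) (nat_lit 0) (nat_lit 0x80029938e) (nat_lit 1073741824),
  Rx.mk (nat_lit 439) (nat_lit 7) (nat_lit 6) (nat_lit 6) (nat_lit 7) (nat_lit 46) (nat_lit 177) r9_46 r1_177 (nat_lit 0) (nat_lit 0) (nat_lit 0) (nat_lit 0x80029938e) (nat_lit 1073741824),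
  Rx.mk (nat_lit 507) (nat_lit 3) (nat_lit 7) (nat_lit 7) (nat_lit 7) (nat_lit 47) (nat_lit 169) r9_47 r1_169 (nat_lit 0) (nat_lit 0) (nat_lit 0) (nat_lit 0x80029938e) (nat_lit 1073741824),
  Rx.mk (nat_lit 511) (nat_lit 7) (nat_lit 7) (nat_lit 7) (nat_lit 7) (nat_lit 49) (nat_lit 175) r9_49 r1_175 (nat_lit 0) (nat_lit 0) (nat_lit 0) (nat_lit 0x80029938e) (nat_lit 1073741824)]
noncomputable def e21_2 : List Rx := [
  Rx.mk (nat_lit 251) (nat_lit 3) (nat_lit 7) (nat_lit 3) (nat_lit 7) (nat_lit 11) (nat_lit 168) r9_11 r2_168 (nat_lit 0) (nat_lit 0) (nat_lit 0) (nat_lit 0x80029938e) (nat_lit 1073741824),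
  Rx.mk (nat_lit 292) (nat_lit 4) (nat_lit 4) (nat_lit 4) (nat_lit 0) (nat_lit 2) (nat_lit 170) r9_2 r2_170 (nat_lit 2081628) (nat_lit 2326896) (nat_lit 2546051) (nat_lit 0x386eea2c4) (nat_lit 2274008399),
  Rx.mk (nat_lit 295) (nat_lit 7) (nat_lit 4) (nat_lit 4) (nat_lit 1) (nat_lit 3) (nat_lit 173) r9_3 r2_173 (nat_lit 0) (nat_lit 3377583) (nat_lit 5449534) (nat_lit 0x7004d8aa6) (nat_lit 1349105741),
  Rx.mk (nat_lit 308) (nat_lit 4) (nat_lit 6) (nat_lit 4) (nat_lit 2) (nat_lit 5) (nat_lit 171) r9_5 r2_171 (nat_lit 3847664) (nat_lit 0) (nat_lit 5797154) (nat_lit 0x691fedd98) (nat_lit 1464868642),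
  Rx.mk (nat_lit 311) (nat_lit 7) (nat_lit 6) (nat_lit 4) (nat_lit 3) (nat_lit 8) (nat_lit 176) r9_8 r2_176 (nat_lit 0) (nat_lit 0) (nat_lit 5449534) (nat_lit 0x80016828a) (nat_lit 1079267758),
  Rx.mk (nat_lit 436) (nat_lit 4) (nat_lit 6) (nat_lit 6) (nat_lit 6) (nat_lit 6) (nat_lit 172) r9_6 r2_172 (nat_lit 5297551) (nat_lit 0) (nat_lit 0) (nat_lit 0x7ffe7d322) (nat_lit 1079302875),
  Rx.mk (nat_lit 438) (nat_lit 6) (nat_lit 6) (nat_lit 6) (nat_lit 7) (nat_lit 7) (nat_lit 179) r9_7 r2_179 (nat_lit 0) (nat_lit 0) (nat_lit 0) (nat_lit 0x80029938e) (nat_lit 1073741824),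
  Rx.mk (nat_lit 439) (nat_lit 7) (nat_lit 6) (nat_lit 6) (nat_lit 7) (nat_lit 9) (nat_lit 178) r9_9 r2_178 (nat_lit 0) (nat_lit 0) (nat_lit 0) (nat_lit 0x80029938e) (nat_lit 1073741824),
  Rx.mk (nat_lit 487) (nat_lit 7) (nat_lit 4) (nat_lit 7) (nat_lit 5) (nat_lit 4) (nat_lit 174) r9_4 r2_174 (nat_lit 0) (nat_lit 5449534) (nat_lit 0) (nat_lit 0x80029938e) (nat_lit 1079191358),
  Rx.mk (nat_lit 503) (nat_lit 7) (nat_lit 6) (nat_lit 7) (nat_lit 7) (nat_lit 10) (nat_lit 177) r9_10 r2_177 (nat_lit 0) (nat_lit 0) (nat_lit 0) (nat_lit 0x80029938e) (nat_lit 1073741824),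
  Rx.mk (nat_lit 507) (nat_lit 3) (nat_lit 7) (nat_lit 7) (nat_lit 7) (nat_lit 12) (nat_lit 169) r9_12 r2_169 (nat_lit 0) (nat_lit 0) (nat_lit 0) (nat_lit 0x80029938e) (nat_lit 1073741824),
  Rx.mk (nat_lit 511) (nat_lit 7) (nat_lit 7) (nat_lit 7) (nat_lit 7) (nat_lit 13) (nat_lit 175) r9_13 r2_175 (nat_lit 0) (nat_lit 0) (nat_lit 0) (nat_lit 0x80029938e) (nat_lit 1073741824)]
noncomputable def e21_3 : List Rx := [
  Rx.mk (nat_lit 359) (nat_lit 7) (nat_lit 4) (nat_lit 5) (nat_lit 5) (nat_lit 19) (nat_lit 142) r9_19 r3_142 (nat_lit 0) (nat_lit 1112594) (nat_lit 0) (nat_lit 0x72fee8a80) (nat_lit 1291746118),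
  Rx.mk (nat_lit 367) (nat_lit 7) (nat_lit 5) (nat_lit 5) (nat_lit 7) (nat_lit 20) (nat_lit 143) r9_20 r3_143 (nat_lit 0) (nat_lit 0) (nat_lit 0) (nat_lit 0x80029938e) (nat_lit 1073741824),
  Rx.mk (nat_lit 379) (nat_lit 3) (nat_lit 7) (nat_lit 5) (nat_lit 7) (nat_lit 21) (nat_lit 141) r9_21 r3_141 (nat_lit 0) (nat_lit 0) (nat_lit 0) (nat_lit 0x7ff99da00) (nat_lit 1074318324),
  Rx.mk (nat_lit 383) (nat_lit 7) (nat_lit 7) (nat_lit 5) (nat_lit 7) (nat_lit 22) (nat_lit 144) r9_22 r3_144 (nat_lit 0) (nat_lit 0) (nat_lit 0) (nat_lit 0x80029938e) (nat_lit 1073741824)]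
noncomputable def e21_4 : List Rx := [
  Rx.mk (nat_lit 295) (nat_lit 7) (nat_lit 4) (nat_lit 4) (nat_lit 1) (nat_lit 50) (nat_lit 147) r9_50 r4_147 (nat_lit 0) (nat_lit 4618202) (nat_lit 3884477) (nat_lit 0x668e28a5e) (nat_lit 1506571703),
  Rx.mk (nat_lit 311) (nat_lit 7) (nat_lit 6) (nat_lit 4) (nat_lit 3) (nat_lit 53) (nat_lit 152) r9_53 r4_152 (nat_lit 0) (nat_lit 0) (nat_lit 5449534) (nat_lit 0x80029938e) (nat_lit 1079191358),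
  Rx.mk (nat_lit 315) (nat_lit 3) (nat_lit 7) (nat_lit 4) (nat_lit 3) (nat_lit 56) (nat_lit 144) r9_56 r4_144 (nat_lit 0) (nat_lit 0) (nat_lit 5449534) (nat_lit 0x80029938e) (nat_lit 1079191358),
  Rx.mk (nat_lit 319) (nat_lit 7) (nat_lit 7) (nat_lit 4) (nat_lit 3) (nat_lit 59) (nat_lit 150) r9_59 r4_150 (nat_lit 0) (nat_lit 0) (nat_lit 5449534) (nat_lit 0x80029938e) (nat_lit 1079191358),
  Rx.mk (nat_lit 359) (nat_lit 7) (nat_lit 4) (nat_lit 5) (nat_lit 5) (nat_lit 51) (nat_lit 148) r9_51 r4_148 (nat_lit 0) (nat_lit 5449534) (nat_lit 0) (nat_lit 0x80029938e) (nat_lit 1079191358),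
  Rx.mk (nat_lit 367) (nat_lit 7) (nat_lit 5) (nat_lit 5) (nat_lit 7) (nat_lit 52) (nat_lit 149) r9_52 r4_149 (nat_lit 0) (nat_lit 0) (nat_lit 0) (nat_lit 0x80029938e) (nat_lit 1073741824),
  Rx.mk (nat_lit 375) (nat_lit 7) (nat_lit 6) (nat_lit 5) (nat_lit 7) (nat_lit 54) (nat_lit 153) r9_54 r4_153 (nat_lit 0) (nat_lit 0) (nat_lit 0) (nat_lit 0x80029938e) (nat_lit 1073741824),
  Rx.mk (nat_lit 379) (nat_lit 3) (nat_lit 7) (nat_lit 5) (nat_lit 7) (nat_lit 57) (nat_lit 145) r9_57 r4_145 (nat_lit 0) (nat_lit 0) (nat_lit 0) (nat_lit 0x80029938e) (nat_lit 1073741824),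
  Rx.mk (nat_lit 383) (nat_lit 7) (nat_lit 7) (nat_lit 5) (nat_lit 7) (nat_lit 60) (nat_lit 151) r9_60 r4_151 (nat_lit 0) (nat_lit 0) (nat_lit 0) (nat_lit 0x80029938e) (nat_lit 1073741824),
  Rx.mk (nat_lit 439) (nat_lit 7) (nat_lit 6) (nat_lit 6) (nat_lit 7) (nat_lit 55) (nat_lit 154) r9_55 r4_154 (nat_lit 0) (nat_lit 0) (nat_lit 0) (nat_lit 0x80029938e) (nat_lit 1073741824),
  Rx.mk (nat_lit 507) (nat_lit 3) (nat_lit 7) (nat_lit 7) (nat_lit 7) (nat_lit 58) (nat_lit 146) r9_58 r4_146 (nat_lit 0) (nat_lit 0) (nat_lit 0) (nat_lit 0x80029938e) (nat_lit 1073741824)]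
noncomputable def e21_5 : List Rx := [
  Rx.mk (nat_lit 379) (nat_lit 3) (nat_lit 7) (nat_lit 5) (nat_lit 7) (nat_lit 63) (nat_lit 150) r9_63 r5_150 (nat_lit 0) (nat_lit 0) (nat_lit 0) (nat_lit 0x80029938e) (nat_lit 1073741824),
  Rx.mk (nat_lit 383) (nat_lit 7) (nat_lit 7) (nat_lit 5) (nat_lit 7) (nat_lit 64) (nat_lit 151) r9_64 r5_151 (nat_lit 0) (nat_lit 0) (nat_lit 0) (nat_lit 0x80029938e) (nat_lit 1073741824)]
noncomputable def e21_6 : List Rx := [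
  Rx.mk (nat_lit 123) (nat_lit 3) (nat_lit 7) (nat_lit 1) (nat_lit 7) (nat_lit 14) (nat_lit 123) r9_14 r3_123 (nat_lit 0) (nat_lit 0) (nat_lit 0) (nat_lit 0x7ff84561c) (nat_lit 1074405024)]
noncomputable def e21_7 : List Rx := [
  Rx.mk (nat_lit 251) (nat_lit 3) (nat_lit 7) (nat_lit 3) (nat_lit 7) (nat_lit 0) (nat_lit 141) r9_0 r0_141 (nat_lit 0) (nat_lit 0) (nat_lit 0) (nat_lit 0x7ffe05cc8) (nat_lit 1074035324)]
noncomputable def e21_8 : List Rx := [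
  Rx.mk (nat_lit 251) (nat_lit 3) (nat_lit 7) (nat_lit 3) (nat_lit 7) (nat_lit 1) (nat_lit 153) r9_1 r1_153 (nat_lit 0) (nat_lit 0) (nat_lit 0) (nat_lit 0x80029938e) (nat_lit 1073741824)]
noncomputable def e21_9 : List Rx := [
  Rx.mk (nat_lit 59) (nat_lit 3) (nat_lit 7) (nat_lit 0) (nat_lit 3) (nat_lit 15) (nat_lit 128) r9_15 r4_128 (nat_lit 0) (nat_lit 0) (nat_lit 5449534) (nat_lit 0x80029938e) (nat_lit 1079191358),
  Rx.mk (nat_lit 123) (nat_lit 3) (nat_lit 7) (nat_lit 1) (nat_lit 7) (nat_lit 16) (nat_lit 129) r9_16 r4_129 (nat_lit 0) (nat_lit 0) (nat_lit 0) (nat_lit 0x80029938e) (nat_lit 1073741824),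
  Rx.mk (nat_lit 251) (nat_lit 3) (nat_lit 7) (nat_lit 3) (nat_lit 7) (nat_lit 17) (nat_lit 130) r9_17 r4_130 (nat_lit 0) (nat_lit 0) (nat_lit 0) (nat_lit 0x80029938e) (nat_lit 1073741824)]
noncomputable def e21_10 : List Rx := [
  Rx.mk (nat_lit 123) (nat_lit 3) (nat_lit 7) (nat_lit 1) (nat_lit 7) (nat_lit 61) (nat_lit 168) r9_61 r6_168 (nat_lit 0) (nat_lit 0) (nat_lit 0) (nat_lit 0x80029938e) (nat_lit 1073741824),
  Rx.mk (nat_lit 379) (nat_lit 3) (nat_lit 7) (nat_lit 5) (nat_lit 7) (nat_lit 62) (nat_lit 169) r9_62 r6_169 (nat_lit 0) (nat_lit 0) (nat_lit 0) (nat_lit 0x80029938e) (nat_lit 1073741824)]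
noncomputable def e21_11 : List Rx := [
  Rx.mk (nat_lit 123) (nat_lit 3) (nat_lit 7) (nat_lit 1) (nat_lit 7) (nat_lit 18) (nat_lit 123) r9_18 r5_123 (nat_lit 0) (nat_lit 0) (nat_lit 0) (nat_lit 0x80029938e) (nat_lit 1073741824)]
noncomputable def e21_12 : List Rx := [
  Rx.mk (nat_lit 356) (nat_lit 4) (nat_lit 4) (nat_lit 5) (nat_lit 4) (nat_lit 155) (nat_lit 257) r9_155 r0_257 (nat_lit 14069634) (nat_lit 6905727) (nat_lit 0) (nat_lit 0x4c6cacf20) (nat_lit 1954719885),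
  Rx.mk (nat_lit 359) (nat_lit 7) (nat_lit 4) (nat_lit 5) (nat_lit 5) (nat_lit 156) (nat_lit 258) r9_156 r0_258 (nat_lit 0) (nat_lit 5858494) (nat_lit 0) (nat_lit 0x7eeecaa20) (nat_lit 1097492218),
  Rx.mk (nat_lit 364) (nat_lit 4) (nat_lit 5) (nat_lit 5) (nat_lit 6) (nat_lit 157) (nat_lit 259) r9_157 r0_259 (nat_lit 6147522) (nat_lit 0) (nat_lit 0) (nat_lit 0x74233b2ba) (nat_lit 1277762346),
  Rx.mk (nat_lit 367) (nat_lit 7) (nat_lit 5) (nat_lit 5) (nat_lit 7) (nat_lit 158) (nat_lit 260) r9_158 r0_260 (nat_lit 0) (nat_lit 0) (nat_lit 0) (nat_lit 0x80003986e) (nat_lit 1073894024),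
  Rx.mk (nat_lit 383) (nat_lit 7) (nat_lit 7) (nat_lit 5) (nat_lit 7) (nat_lit 159) (nat_lit 261) r9_159 r0_261 (nat_lit 0) (nat_lit 0) (nat_lit 0) (nat_lit 0x80029938e) (nat_lit 1073741824)]
noncomputable def e21_13 : List Rx := [
  Rx.mk (nat_lit 292) (nat_lit 4) (nat_lit 4) (nat_lit 4) (nat_lit 0) (nat_lit 170) (nat_lit 204) r9_170 r7_204 (nat_lit 3541065) (nat_lit 5426102) (nat_lit 3490957) (nat_lit 0x36db834e6) (nat_lit 2305784648),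
  Rx.mk (nat_lit 295) (nat_lit 7) (nat_lit 4) (nat_lit 4) (nat_lit 1) (nat_lit 172) (nat_lit 210) r9_172 r7_210 (nat_lit 0) (nat_lit 8284346) (nat_lit 8202458) (nat_lit 0x6b8996482) (nat_lit 1431483228),
  Rx.mk (nat_lit 308) (nat_lit 4) (nat_lit 6) (nat_lit 4) (nat_lit 2) (nat_lit 176) (nat_lit 207) r9_176 r7_207 (nat_lit 7551398) (nat_lit 0) (nat_lit 7072192) (nat_lit 0x6f426cc38) (nat_lit 1367563814),
  Rx.mk (nat_lit 319) (nat_lit 7) (nat_lit 7) (nat_lit 4) (nat_lit 3) (nat_lit 180) (nat_lit 213) r9_180 r7_213 (nat_lit 0) (nat_lit 0) (nat_lit 5449534) (nat_lit 0x7ffcbd500) (nat_lit 1079567158),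
  Rx.mk (nat_lit 356) (nat_lit 4) (nat_lit 4) (nat_lit 5) (nat_lit 4) (nat_lit 171) (nat_lit 205) r9_171 r7_205 (nat_lit 7908726) (nat_lit 9592768) (nat_lit 0) (nat_lit 0x655f6e5e8) (nat_lit 1535282018),
  Rx.mk (nat_lit 359) (nat_lit 7) (nat_lit 4) (nat_lit 5) (nat_lit 5) (nat_lit 173) (nat_lit 211) r9_173 r7_211 (nat_lit 0) (nat_lit 5542978) (nat_lit 0) (nat_lit 0x7ffdca448) (nat_lit 1079593202),
  Rx.mk (nat_lit 364) (nat_lit 4) (nat_lit 5) (nat_lit 5) (nat_lit 6) (nat_lit 174) (nat_lit 206) r9_174 r7_206 (nat_lit 5575825) (nat_lit 0) (nat_lit 0) (nat_lit 0x7ffab038e) (nat_lit 1079825149),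
  Rx.mk (nat_lit 367) (nat_lit 7) (nat_lit 5) (nat_lit 5) (nat_lit 7) (nat_lit 175) (nat_lit 212) r9_175 r7_212 (nat_lit 0) (nat_lit 0) (nat_lit 0) (nat_lit 0x80029938e) (nat_lit 1073741824),
  Rx.mk (nat_lit 372) (nat_lit 4) (nat_lit 6) (nat_lit 5) (nat_lit 6) (nat_lit 177) (nat_lit 208) r9_177 r7_208 (nat_lit 5449534) (nat_lit 0) (nat_lit 0) (nat_lit 0x80029938e) (nat_lit 1079191358),
  Rx.mk (nat_lit 383) (nat_lit 7) (nat_lit 7) (nat_lit 5) (nat_lit 7) (nat_lit 181) (nat_lit 214) r9_181 r7_214 (nat_lit 0) (nat_lit 0) (nat_lit 0) (nat_lit 0x80029938e) (nat_lit 1073741824),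
  Rx.mk (nat_lit 436) (nat_lit 4) (nat_lit 6) (nat_lit 6) (nat_lit 6) (nat_lit 178) (nat_lit 209) r9_178 r7_209 (nat_lit 5449534) (nat_lit 0) (nat_lit 0) (nat_lit 0x80029938e) (nat_lit 1079191358),
  Rx.mk (nat_lit 438) (nat_lit 6) (nat_lit 6) (nat_lit 6) (nat_lit 7) (nat_lit 179) (nat_lit 216) r9_179 r7_216 (nat_lit 0) (nat_lit 0) (nat_lit 0) (nat_lit 0x80029938e) (nat_lit 1073741824),
  Rx.mk (nat_lit 511) (nat_lit 7) (nat_lit 7) (nat_lit 7) (nat_lit 7) (nat_lit 182) (nat_lit 215) r9_182 r7_215 (nat_lit 0) (nat_lit 0) (nat_lit 0) (nat_lit 0x80029938e) (nat_lit 1073741824)]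
noncomputable def e21_14 : List Rx := [
  Rx.mk (nat_lit 356) (nat_lit 4) (nat_lit 4) (nat_lit 5) (nat_lit 4) (nat_lit 160) (nat_lit 262) r9_160 r1_262 (nat_lit 19988923) (nat_lit 7547362) (nat_lit 0) (nat_lit 0x63fb2f9e8) (nat_lit 1568518609),
  Rx.mk (nat_lit 357) (nat_lit 5) (nat_lit 4) (nat_lit 5) (nat_lit 5) (nat_lit 161) (nat_lit 263) r9_161 r1_263 (nat_lit 0) (nat_lit 5449534) (nat_lit 0) (nat_lit 0x80029938e) (nat_lit 1079191358),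
  Rx.mk (nat_lit 359) (nat_lit 7) (nat_lit 4) (nat_lit 5) (nat_lit 5) (nat_lit 162) (nat_lit 264) r9_162 r1_264 (nat_lit 0) (nat_lit 5449534) (nat_lit 0) (nat_lit 0x80029938e) (nat_lit 1079191358),
  Rx.mk (nat_lit 364) (nat_lit 4) (nat_lit 5) (nat_lit 5) (nat_lit 6) (nat_lit 163) (nat_lit 265) r9_163 r1_265 (nat_lit 5465451) (nat_lit 0) (nat_lit 0) (nat_lit 0x80010992e) (nat_lit 1079307375),
  Rx.mk (nat_lit 365) (nat_lit 5) (nat_lit 5) (nat_lit 5) (nat_lit 7) (nat_lit 164) (nat_lit 266) r9_164 r1_266 (nat_lit 0) (nat_lit 0) (nat_lit 0) (nat_lit 0x80029938e) (nat_lit 1073741824),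
  Rx.mk (nat_lit 367) (nat_lit 7) (nat_lit 5) (nat_lit 5) (nat_lit 7) (nat_lit 165) (nat_lit 267) r9_165 r1_267 (nat_lit 0) (nat_lit 0) (nat_lit 0) (nat_lit 0x80029938e) (nat_lit 1073741824),
  Rx.mk (nat_lit 383) (nat_lit 7) (nat_lit 7) (nat_lit 5) (nat_lit 7) (nat_lit 166) (nat_lit 268) r9_166 r1_268 (nat_lit 0) (nat_lit 0) (nat_lit 0) (nat_lit 0x80029938e) (nat_lit 1073741824)]
noncomputable def e21_15 : List Rx := [
  Rx.mk (nat_lit 292) (nat_lit 4) (nat_lit 4) (nat_lit 4) (nat_lit 0) (nat_lit 183) (nat_lit 159) r9_183 r8_159 (nat_lit 4180839) (nat_lit 4762811) (nat_lit 4825209) (nat_lit 0x39d32f3e6) (nat_lit 2257620983),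
  Rx.mk (nat_lit 293) (nat_lit 5) (nat_lit 4) (nat_lit 4) (nat_lit 1) (nat_lit 185) (nat_lit 165) r9_185 r8_165 (nat_lit 0) (nat_lit 6366403) (nat_lit 16033224) (nat_lit 0x7150c9342) (nat_lit 1341058751),
  Rx.mk (nat_lit 295) (nat_lit 7) (nat_lit 4) (nat_lit 4) (nat_lit 1) (nat_lit 187) (nat_lit 171) r9_187 r8_171 (nat_lit 0) (nat_lit 11901673) (nat_lit 16440661) (nat_lit 0x75402140a) (nat_lit 1281397658),
  Rx.mk (nat_lit 308) (nat_lit 4) (nat_lit 6) (nat_lit 4) (nat_lit 2) (nat_lit 192) (nat_lit 162) r9_192 r8_162 (nat_lit 6953306) (nat_lit 0) (nat_lit 7933342) (nat_lit 0x6c913698e) (nat_lit 1412714672),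
  Rx.mk (nat_lit 309) (nat_lit 5) (nat_lit 6) (nat_lit 4) (nat_lit 3) (nat_lit 195) (nat_lit 168) r9_195 r8_168 (nat_lit 0) (nat_lit 0) (nat_lit 5449534) (nat_lit 0x80029938e) (nat_lit 1079191358),
  Rx.mk (nat_lit 319) (nat_lit 7) (nat_lit 7) (nat_lit 4) (nat_lit 3) (nat_lit 199) (nat_lit 174) r9_199 r8_174 (nat_lit 0) (nat_lit 0) (nat_lit 5449534) (nat_lit 0x80029938e) (nat_lit 1079191358),
  Rx.mk (nat_lit 356) (nat_lit 4) (nat_lit 4) (nat_lit 5) (nat_lit 4) (nat_lit 184) (nat_lit 160) r9_184 r8_160 (nat_lit 8082267) (nat_lit 6452239) (nat_lit 0) (nat_lit 0x67b4a3a2a) (nat_lit 1493420030),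
  Rx.mk (nat_lit 357) (nat_lit 5) (nat_lit 4) (nat_lit 5) (nat_lit 5) (nat_lit 186) (nat_lit 166) r9_186 r8_166 (nat_lit 0) (nat_lit 5449534) (nat_lit 0) (nat_lit 0x80029938e) (nat_lit 1079191358),
  Rx.mk (nat_lit 359) (nat_lit 7) (nat_lit 4) (nat_lit 5) (nat_lit 5) (nat_lit 188) (nat_lit 172) r9_188 r8_172 (nat_lit 0) (nat_lit 5449534) (nat_lit 0) (nat_lit 0x80029938e) (nat_lit 1079191358),
  Rx.mk (nat_lit 364) (nat_lit 4) (nat_lit 5) (nat_lit 5) (nat_lit 6) (nat_lit 189) (nat_lit 161) r9_189 r8_161 (nat_lit 5449534) (nat_lit 0) (nat_lit 0) (nat_lit 0x80029938e) (nat_lit 1079191358),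
  Rx.mk (nat_lit 365) (nat_lit 5) (nat_lit 5) (nat_lit 5) (nat_lit 7) (nat_lit 190) (nat_lit 167) r9_190 r8_167 (nat_lit 0) (nat_lit 0) (nat_lit 0) (nat_lit 0x80029938e) (nat_lit 1073741824),
  Rx.mk (nat_lit 367) (nat_lit 7) (nat_lit 5) (nat_lit 5) (nat_lit 7) (nat_lit 191) (nat_lit 173) r9_191 r8_173 (nat_lit 0) (nat_lit 0) (nat_lit 0) (nat_lit 0x80029938e) (nat_lit 1073741824),
  Rx.mk (nat_lit 372) (nat_lit 4) (nat_lit 6) (nat_lit 5) (nat_lit 6) (nat_lit 193) (nat_lit 163) r9_193 r8_163 (nat_lit 5449534) (nat_lit 0) (nat_lit 0) (nat_lit 0x80029938e) (nat_lit 1079191358),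
  Rx.mk (nat_lit 373) (nat_lit 5) (nat_lit 6) (nat_lit 5) (nat_lit 7) (nat_lit 196) (nat_lit 169) r9_196 r8_169 (nat_lit 0) (nat_lit 0) (nat_lit 0) (nat_lit 0x80029938e) (nat_lit 1073741824),
  Rx.mk (nat_lit 383) (nat_lit 7) (nat_lit 7) (nat_lit 5) (nat_lit 7) (nat_lit 200) (nat_lit 175) r9_200 r8_175 (nat_lit 0) (nat_lit 0) (nat_lit 0) (nat_lit 0x80029938e) (nat_lit 1073741824),
  Rx.mk (nat_lit 436) (nat_lit 4) (nat_lit 6) (nat_lit 6) (nat_lit 6) (nat_lit 194) (nat_lit 164) r9_194 r8_164 (nat_lit 5449534) (nat_lit 0) (nat_lit 0) (nat_lit 0x80029938e) (nat_lit 1079191358),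
  Rx.mk (nat_lit 437) (nat_lit 5) (nat_lit 6) (nat_lit 6) (nat_lit 7) (nat_lit 197) (nat_lit 170) r9_197 r8_170 (nat_lit 0) (nat_lit 0) (nat_lit 0) (nat_lit 0x80029938e) (nat_lit 1073741824),
  Rx.mk (nat_lit 438) (nat_lit 6) (nat_lit 6) (nat_lit 6) (nat_lit 7) (nat_lit 198) (nat_lit 177) r9_198 r8_177 (nat_lit 0) (nat_lit 0) (nat_lit 0) (nat_lit 0x80029938e) (nat_lit 1073741824),
  Rx.mk (nat_lit 511) (nat_lit 7) (nat_lit 7) (nat_lit 7) (nat_lit 7) (nat_lit 201) (nat_lit 176) r9_201 r8_176 (nat_lit 0) (nat_lit 0) (nat_lit 0) (nat_lit 0x80029938e) (nat_lit 1073741824)]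
noncomputable def e21_16 : List Rx := [
  Rx.mk (nat_lit 292) (nat_lit 4) (nat_lit 4) (nat_lit 4) (nat_lit 0) (nat_lit 202) (nat_lit 266) r9_202 r8_266 (nat_lit 6754004) (nat_lit 7499955) (nat_lit 3365773) (nat_lit 0x3daadc94e) (nat_lit 2197406356),
  Rx.mk (nat_lit 295) (nat_lit 7) (nat_lit 4) (nat_lit 4) (nat_lit 1) (nat_lit 203) (nat_lit 267) r9_203 r8_267 (nat_lit 0) (nat_lit 7900404) (nat_lit 9276876) (nat_lit 0x7130d9410) (nat_lit 1337916804),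
  Rx.mk (nat_lit 308) (nat_lit 4) (nat_lit 6) (nat_lit 4) (nat_lit 2) (nat_lit 204) (nat_lit 269) r9_204 r8_269 (nat_lit 6439668) (nat_lit 0) (nat_lit 5675110) (nat_lit 0x70ead3b50) (nat_lit 1337414702),
  Rx.mk (nat_lit 319) (nat_lit 7) (nat_lit 7) (nat_lit 4) (nat_lit 3) (nat_lit 207) (nat_lit 268) r9_207 r8_268 (nat_lit 0) (nat_lit 0) (nat_lit 5449534) (nat_lit 0x80029938e) (nat_lit 1079191358),
  Rx.mk (nat_lit 436) (nat_lit 4) (nat_lit 6) (nat_lit 6) (nat_lit 6) (nat_lit 205) (nat_lit 271) r9_205 r8_271 (nat_lit 5449534) (nat_lit 0) (nat_lit 0) (nat_lit 0x80029938e) (nat_lit 1079191358),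
  Rx.mk (nat_lit 438) (nat_lit 6) (nat_lit 6) (nat_lit 6) (nat_lit 7) (nat_lit 206) (nat_lit 272) r9_206 r8_272 (nat_lit 0) (nat_lit 0) (nat_lit 0) (nat_lit 0x80029938e) (nat_lit 1073741824),
  Rx.mk (nat_lit 511) (nat_lit 7) (nat_lit 7) (nat_lit 7) (nat_lit 7) (nat_lit 208) (nat_lit 270) r9_208 r8_270 (nat_lit 0) (nat_lit 0) (nat_lit 0) (nat_lit 0x80029938e) (nat_lit 1073741824)]
noncomputable def e21_17 : List Rx := [
  Rx.mk (nat_lit 292) (nat_lit 4) (nat_lit 4) (nat_lit 4) (nat_lit 0) (nat_lit 148) (nat_lit 148) r9_148 r9_148 (nat_lit 5840664) (nat_lit 5840664) (nat_lit 4716177) (nat_lit 0x3be52135e) (nat_lit 2225736129),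
  Rx.mk (nat_lit 295) (nat_lit 7) (nat_lit 4) (nat_lit 4) (nat_lit 1) (nat_lit 149) (nat_lit 151) r9_149 r9_151 (nat_lit 0) (nat_lit 4416221) (nat_lit 7699191) (nat_lit 0x706d081bc) (nat_lit 1345607236),
  Rx.mk (nat_lit 308) (nat_lit 4) (nat_lit 6) (nat_lit 4) (nat_lit 2) (nat_lit 151) (nat_lit 149) r9_151 r9_149 (nat_lit 4416221) (nat_lit 0) (nat_lit 7699191) (nat_lit 0x706d081bc) (nat_lit 1345607236),
  Rx.mk (nat_lit 436) (nat_lit 4) (nat_lit 6) (nat_lit 6) (nat_lit 6) (nat_lit 152) (nat_lit 150) r9_152 r9_150 (nat_lit 5449534) (nat_lit 0) (nat_lit 0) (nat_lit 0x80029938e) (nat_lit 1079191358),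
  Rx.mk (nat_lit 438) (nat_lit 6) (nat_lit 6) (nat_lit 6) (nat_lit 7) (nat_lit 153) (nat_lit 154) r9_153 r9_154 (nat_lit 0) (nat_lit 0) (nat_lit 0) (nat_lit 0x80029938e) (nat_lit 1073741824),
  Rx.mk (nat_lit 487) (nat_lit 7) (nat_lit 4) (nat_lit 7) (nat_lit 5) (nat_lit 150) (nat_lit 152) r9_150 r9_152 (nat_lit 0) (nat_lit 5449534) (nat_lit 0) (nat_lit 0x80029938e) (nat_lit 1079191358),
  Rx.mk (nat_lit 511) (nat_lit 7) (nat_lit 7) (nat_lit 7) (nat_lit 7) (nat_lit 154) (nat_lit 153) r9_154 r9_153 (nat_lit 0) (nat_lit 0) (nat_lit 0) (nat_lit 0x80029938e) (nat_lit 1073741824)]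
noncomputable def e21_18 : List Rx := [
  Rx.mk (nat_lit 359) (nat_lit 7) (nat_lit 4) (nat_lit 5) (nat_lit 5) (nat_lit 167) (nat_lit 273) r9_167 r4_273 (nat_lit 0) (nat_lit 5449534) (nat_lit 0) (nat_lit 0x80029938e) (nat_lit 1079191358),
  Rx.mk (nat_lit 367) (nat_lit 7) (nat_lit 5) (nat_lit 5) (nat_lit 7) (nat_lit 168) (nat_lit 274) r9_168 r4_274 (nat_lit 0) (nat_lit 0) (nat_lit 0) (nat_lit 0x80029938e) (nat_lit 1073741824),
  Rx.mk (nat_lit 383) (nat_lit 7) (nat_lit 7) (nat_lit 5) (nat_lit 7) (nat_lit 169) (nat_lit 275) r9_169 r4_275 (nat_lit 0) (nat_lit 0) (nat_lit 0) (nat_lit 0x80029938e) (nat_lit 1073741824)]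
noncomputable def e21_19 : List Rx := [
  Rx.mk (nat_lit 295) (nat_lit 7) (nat_lit 4) (nat_lit 4) (nat_lit 1) (nat_lit 209) (nat_lit 161) r9_209 r10_161 (nat_lit 0) (nat_lit 9287694) (nat_lit 8521077) (nat_lit 0x702db6ffe) (nat_lit 1355425695),
  Rx.mk (nat_lit 319) (nat_lit 7) (nat_lit 7) (nat_lit 4) (nat_lit 3) (nat_lit 212) (nat_lit 164) r9_212 r10_164 (nat_lit 0) (nat_lit 0) (nat_lit 5449534) (nat_lit 0x7fff35b2a) (nat_lit 1079408658),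
  Rx.mk (nat_lit 359) (nat_lit 7) (nat_lit 4) (nat_lit 5) (nat_lit 5) (nat_lit 210) (nat_lit 162) r9_210 r10_162 (nat_lit 0) (nat_lit 5449534) (nat_lit 0) (nat_lit 0x80029938e) (nat_lit 1079191358),
  Rx.mk (nat_lit 367) (nat_lit 7) (nat_lit 5) (nat_lit 5) (nat_lit 7) (nat_lit 211) (nat_lit 163) r9_211 r10_163 (nat_lit 0) (nat_lit 0) (nat_lit 0) (nat_lit 0x80029938e) (nat_lit 1073741824),
  Rx.mk (nat_lit 383) (nat_lit 7) (nat_lit 7) (nat_lit 5) (nat_lit 7) (nat_lit 213) (nat_lit 165) r9_213 r10_165 (nat_lit 0) (nat_lit 0) (nat_lit 0) (nat_lit 0x80029938e) (nat_lit 1073741824)]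
noncomputable def e21_20 : List Rx := [
  Rx.mk (nat_lit 383) (nat_lit 7) (nat_lit 7) (nat_lit 5) (nat_lit 7) (nat_lit 214) (nat_lit 164) r9_214 r11_164 (nat_lit 0) (nat_lit 0) (nat_lit 0) (nat_lit 0x80029938e) (nat_lit 1073741824)]
noncomputable def e21_21 : List Rx := [
  Rx.mk (nat_lit 0) (nat_lit 0) (nat_lit 0) (nat_lit 0) (nat_lit 0) (nat_lit 109) (nat_lit 121) r9_109 r9_121 (nat_lit 3990366) (nat_lit 3167796) (nat_lit 4480828) (nat_lit 0x37a29a7fa) (nat_lit 2292002314),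
  Rx.mk (nat_lit 2) (nat_lit 2) (nat_lit 0) (nat_lit 0) (nat_lit 1) (nat_lit 110) (nat_lit 122) r9_110 r9_122 (nat_lit 0) (nat_lit 3755472) (nat_lit 6401632) (nat_lit 0x6da87228c) (nat_lit 1389798428),
  Rx.mk (nat_lit 24) (nat_lit 0) (nat_lit 3) (nat_lit 0) (nat_lit 2) (nat_lit 115) (nat_lit 124) r9_115 r9_124 (nat_lit 3355709) (nat_lit 0) (nat_lit 6392600) (nat_lit 0x6abd418c8) (nat_lit 1438053933),
  Rx.mk (nat_lit 26) (nat_lit 2) (nat_lit 3) (nat_lit 0) (nat_lit 3) (nat_lit 117) (nat_lit 127) r9_117 r9_127 (nat_lit 0) (nat_lit 0) (nat_lit 5449534) (nat_lit 0x7ffa3aa58) (nat_lit 1079728258),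
  Rx.mk (nat_lit 130) (nat_lit 2) (nat_lit 0) (nat_lit 2) (nat_lit 5) (nat_lit 111) (nat_lit 123) r9_111 r9_123 (nat_lit 0) (nat_lit 5449534) (nat_lit 0) (nat_lit 0x7ff52fc70) (nat_lit 1080052258),
  Rx.mk (nat_lit 146) (nat_lit 2) (nat_lit 2) (nat_lit 2) (nat_lit 7) (nat_lit 112) (nat_lit 132) r9_112 r9_132 (nat_lit 0) (nat_lit 0) (nat_lit 0) (nat_lit 0x80029938e) (nat_lit 1073741824),
  Rx.mk (nat_lit 150) (nat_lit 6) (nat_lit 2) (nat_lit 2) (nat_lit 7) (nat_lit 113) (nat_lit 131) r9_113 r9_131 (nat_lit 0) (nat_lit 0) (nat_lit 0) (nat_lit 0x80029938e) (nat_lit 1073741824),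
  Rx.mk (nat_lit 154) (nat_lit 2) (nat_lit 3) (nat_lit 2) (nat_lit 7) (nat_lit 118) (nat_lit 129) r9_118 r9_129 (nat_lit 0) (nat_lit 0) (nat_lit 0) (nat_lit 0x80029938e) (nat_lit 1073741824),
  Rx.mk (nat_lit 216) (nat_lit 0) (nat_lit 3) (nat_lit 3) (nat_lit 6) (nat_lit 116) (nat_lit 125) r9_116 r9_125 (nat_lit 5009256) (nat_lit 0) (nat_lit 0) (nat_lit 0x7fea1a902) (nat_lit 1080325280),
  Rx.mk (nat_lit 218) (nat_lit 2) (nat_lit 3) (nat_lit 3) (nat_lit 7) (nat_lit 119) (nat_lit 128) r9_119 r9_128 (nat_lit 0) (nat_lit 0) (nat_lit 0) (nat_lit 0x80029938e) (nat_lit 1073741824),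
  Rx.mk (nat_lit 219) (nat_lit 3) (nat_lit 3) (nat_lit 3) (nat_lit 7) (nat_lit 120) (nat_lit 126) r9_120 r9_126 (nat_lit 0) (nat_lit 0) (nat_lit 0) (nat_lit 0x80029938e) (nat_lit 1073741824),
  Rx.mk (nat_lit 251) (nat_lit 3) (nat_lit 7) (nat_lit 3) (nat_lit 7) (nat_lit 130) (nat_lit 114) r9_130 r9_114 (nat_lit 0) (nat_lit 0) (nat_lit 0) (nat_lit 0x80029938e) (nat_lit 1073741824),
  Rx.mk (nat_lit 292) (nat_lit 4) (nat_lit 4) (nat_lit 4) (nat_lit 0) (nat_lit 121) (nat_lit 109) r9_121 r9_109 (nat_lit 3990366) (nat_lit 3167796) (nat_lit 4480828) (nat_lit 0x37a29a7fa) (nat_lit 2292002314),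
  Rx.mk (nat_lit 295) (nat_lit 7) (nat_lit 4) (nat_lit 4) (nat_lit 1) (nat_lit 122) (nat_lit 110) r9_122 r9_110 (nat_lit 0) (nat_lit 3755472) (nat_lit 6401632) (nat_lit 0x6da87228c) (nat_lit 1389798428),
  Rx.mk (nat_lit 308) (nat_lit 4) (nat_lit 6) (nat_lit 4) (nat_lit 2) (nat_lit 124) (nat_lit 115) r9_124 r9_115 (nat_lit 3355709) (nat_lit 0) (nat_lit 6392600) (nat_lit 0x6abd418c8) (nat_lit 1438053933),
  Rx.mk (nat_lit 311) (nat_lit 7) (nat_lit 6) (nat_lit 4) (nat_lit 3) (nat_lit 127) (nat_lit 117) r9_127 r9_117 (nat_lit 0) (nat_lit 0) (nat_lit 5449534) (nat_lit 0x7ffa3aa58) (nat_lit 1079728258),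
  Rx.mk (nat_lit 406) (nat_lit 6) (nat_lit 2) (nat_lit 6) (nat_lit 7) (nat_lit 114) (nat_lit 130) r9_114 r9_130 (nat_lit 0) (nat_lit 0) (nat_lit 0) (nat_lit 0x80029938e) (nat_lit 1073741824),
  Rx.mk (nat_lit 436) (nat_lit 4) (nat_lit 6) (nat_lit 6) (nat_lit 6) (nat_lit 125) (nat_lit 116) r9_125 r9_116 (nat_lit 5009256) (nat_lit 0) (nat_lit 0) (nat_lit 0x7fea1a902) (nat_lit 1080325280),
  Rx.mk (nat_lit 438) (nat_lit 6) (nat_lit 6) (nat_lit 6) (nat_lit 7) (nat_lit 126) (nat_lit 120) r9_126 r9_120 (nat_lit 0) (nat_lit 0) (nat_lit 0) (nat_lit 0x80029938e) (nat_lit 1073741824),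
  Rx.mk (nat_lit 439) (nat_lit 7) (nat_lit 6) (nat_lit 6) (nat_lit 7) (nat_lit 128) (nat_lit 119) r9_128 r9_119 (nat_lit 0) (nat_lit 0) (nat_lit 0) (nat_lit 0x80029938e) (nat_lit 1073741824),
  Rx.mk (nat_lit 487) (nat_lit 7) (nat_lit 4) (nat_lit 7) (nat_lit 5) (nat_lit 123) (nat_lit 111) r9_123 r9_111 (nat_lit 0) (nat_lit 5449534) (nat_lit 0) (nat_lit 0x7ff52fc70) (nat_lit 1080052258),
  Rx.mk (nat_lit 503) (nat_lit 7) (nat_lit 6) (nat_lit 7) (nat_lit 7) (nat_lit 129) (nat_lit 118) r9_129 r9_118 (nat_lit 0) (nat_lit 0) (nat_lit 0) (nat_lit 0x80029938e) (nat_lit 1073741824),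
  Rx.mk (nat_lit 507) (nat_lit 3) (nat_lit 7) (nat_lit 7) (nat_lit 7) (nat_lit 131) (nat_lit 113) r9_131 r9_113 (nat_lit 0) (nat_lit 0) (nat_lit 0) (nat_lit 0x80029938e) (nat_lit 1073741824),
  Rx.mk (nat_lit 511) (nat_lit 7) (nat_lit 7) (nat_lit 7) (nat_lit 7) (nat_lit 132) (nat_lit 112) r9_132 r9_112 (nat_lit 0) (nat_lit 0) (nat_lit 0) (nat_lit 0x80029938e) (nat_lit 1073741824)]
noncomputable def e21_22 : List Rx := [
  Rx.mk (nat_lit 64) (nat_lit 0) (nat_lit 0) (nat_lit 1) (nat_lit 4) (nat_lit 65) (nat_lit 262) r9_65 r0_262 (nat_lit 33337572) (nat_lit 10235647) (nat_lit 0) (nat_lit 0x56d0f2f2a) (nat_lit 1804056343),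
  Rx.mk (nat_lit 88) (nat_lit 0) (nat_lit 3) (nat_lit 1) (nat_lit 6) (nat_lit 66) (nat_lit 263) r9_66 r0_263 (nat_lit 7516292) (nat_lit 0) (nat_lit 0) (nat_lit 0x7ed45a2a8) (nat_lit 1100866916),
  Rx.mk (nat_lit 91) (nat_lit 3) (nat_lit 3) (nat_lit 1) (nat_lit 7) (nat_lit 67) (nat_lit 264) r9_67 r0_264 (nat_lit 0) (nat_lit 0) (nat_lit 0) (nat_lit 0x7fff5bfe6) (nat_lit 1073949524)]
noncomputable def e21_23 : List Rx := [
  Rx.mk (nat_lit 64) (nat_lit 0) (nat_lit 0) (nat_lit 1) (nat_lit 4) (nat_lit 83) (nat_lit 269) r9_83 r1_269 (nat_lit 83686084) (nat_lit 6516784) (nat_lit 0) (nat_lit 0x6eb511780) (nat_lit 1452352692),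
  Rx.mk (nat_lit 88) (nat_lit 0) (nat_lit 3) (nat_lit 1) (nat_lit 6) (nat_lit 84) (nat_lit 270) r9_84 r1_270 (nat_lit 5449534) (nat_lit 0) (nat_lit 0) (nat_lit 0x80029938e) (nat_lit 1079191358),
  Rx.mk (nat_lit 91) (nat_lit 3) (nat_lit 3) (nat_lit 1) (nat_lit 7) (nat_lit 85) (nat_lit 271) r9_85 r1_271 (nat_lit 0) (nat_lit 0) (nat_lit 0) (nat_lit 0x80029938e) (nat_lit 1073741824)]
noncomputable def e21_24 : List Rx := [
  Rx.mk (nat_lit 88) (nat_lit 0) (nat_lit 3) (nat_lit 1) (nat_lit 6) (nat_lit 133) (nat_lit 276) r9_133 r4_276 (nat_lit 5449534) (nat_lit 0) (nat_lit 0) (nat_lit 0x80029938e) (nat_lit 1079191358),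
  Rx.mk (nat_lit 91) (nat_lit 3) (nat_lit 3) (nat_lit 1) (nat_lit 7) (nat_lit 134) (nat_lit 277) r9_134 r4_277 (nat_lit 0) (nat_lit 0) (nat_lit 0) (nat_lit 0x80029938e) (nat_lit 1073741824),
  Rx.mk (nat_lit 123) (nat_lit 3) (nat_lit 7) (nat_lit 1) (nat_lit 7) (nat_lit 135) (nat_lit 278) r9_135 r4_278 (nat_lit 0) (nat_lit 0) (nat_lit 0) (nat_lit 0x80029938e) (nat_lit 1073741824)]
noncomputable def e21_25 : List Rx := [
  Rx.mk (nat_lit 0) (nat_lit 0) (nat_lit 0) (nat_lit 0) (nat_lit 0) (nat_lit 68) (nat_lit 161) r9_68 r7_161 (nat_lit 11576654) (nat_lit 3477128) (nat_lit 3385952) (nat_lit 0x34c2f965c) (nat_lit 2346711858),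
  Rx.mk (nat_lit 2) (nat_lit 2) (nat_lit 0) (nat_lit 0) (nat_lit 1) (nat_lit 70) (nat_lit 163) r9_70 r7_163 (nat_lit 0) (nat_lit 5437810) (nat_lit 4914479) (nat_lit 0x6b8d41d70) (nat_lit 1425110413),
  Rx.mk (nat_lit 24) (nat_lit 0) (nat_lit 3) (nat_lit 0) (nat_lit 2) (nat_lit 74) (nat_lit 166) r9_74 r7_166 (nat_lit 7900979) (nat_lit 0) (nat_lit 6241714) (nat_lit 0x694fdda3a) (nat_lit 1466245017),
  Rx.mk (nat_lit 26) (nat_lit 2) (nat_lit 3) (nat_lit 0) (nat_lit 3) (nat_lit 76) (nat_lit 171) r9_76 r7_171 (nat_lit 0) (nat_lit 0) (nat_lit 5449534) (nat_lit 0x7ff6b914a) (nat_lit 1079953558),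
  Rx.mk (nat_lit 27) (nat_lit 3) (nat_lit 3) (nat_lit 0) (nat_lit 3) (nat_lit 79) (nat_lit 168) r9_79 r7_168 (nat_lit 0) (nat_lit 0) (nat_lit 5449534) (nat_lit 0x7ff64ac54) (nat_lit 1079981358),
  Rx.mk (nat_lit 64) (nat_lit 0) (nat_lit 0) (nat_lit 1) (nat_lit 4) (nat_lit 69) (nat_lit 162) r9_69 r7_162 (nat_lit 44159155) (nat_lit 7389909) (nat_lit 0) (nat_lit 0x66138ffea) (nat_lit 1557598988),
  Rx.mk (nat_lit 66) (nat_lit 2) (nat_lit 0) (nat_lit 1) (nat_lit 5) (nat_lit 71) (nat_lit 164) r9_71 r7_164 (nat_lit 0) (nat_lit 5449534) (nat_lit 0) (nat_lit 0x80029938e) (nat_lit 1079191358),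
  Rx.mk (nat_lit 88) (nat_lit 0) (nat_lit 3) (nat_lit 1) (nat_lit 6) (nat_lit 75) (nat_lit 167) r9_75 r7_167 (nat_lit 5449534) (nat_lit 0) (nat_lit 0) (nat_lit 0x7fffb0fc8) (nat_lit 1079377758),
  Rx.mk (nat_lit 90) (nat_lit 2) (nat_lit 3) (nat_lit 1) (nat_lit 7) (nat_lit 77) (nat_lit 172) r9_77 r7_172 (nat_lit 0) (nat_lit 0) (nat_lit 0) (nat_lit 0x80029938e) (nat_lit 1073741824),
  Rx.mk (nat_lit 91) (nat_lit 3) (nat_lit 3) (nat_lit 1) (nat_lit 7) (nat_lit 80) (nat_lit 169) r9_80 r7_169 (nat_lit 0) (nat_lit 0) (nat_lit 0) (nat_lit 0x80029938e) (nat_lit 1073741824),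
  Rx.mk (nat_lit 130) (nat_lit 2) (nat_lit 0) (nat_lit 2) (nat_lit 5) (nat_lit 72) (nat_lit 165) r9_72 r7_165 (nat_lit 0) (nat_lit 5449534) (nat_lit 0) (nat_lit 0x80029938e) (nat_lit 1079191358),
  Rx.mk (nat_lit 146) (nat_lit 2) (nat_lit 2) (nat_lit 2) (nat_lit 7) (nat_lit 73) (nat_lit 174) r9_73 r7_174 (nat_lit 0) (nat_lit 0) (nat_lit 0) (nat_lit 0x80029938e) (nat_lit 1073741824),
  Rx.mk (nat_lit 154) (nat_lit 2) (nat_lit 3) (nat_lit 2) (nat_lit 7) (nat_lit 78) (nat_lit 173) r9_78 r7_173 (nat_lit 0) (nat_lit 0) (nat_lit 0) (nat_lit 0x80029938e) (nat_lit 1073741824),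
  Rx.mk (nat_lit 219) (nat_lit 3) (nat_lit 3) (nat_lit 3) (nat_lit 7) (nat_lit 81) (nat_lit 170) r9_81 r7_170 (nat_lit 0) (nat_lit 0) (nat_lit 0) (nat_lit 0x80029938e) (nat_lit 1073741824),
  Rx.mk (nat_lit 251) (nat_lit 3) (nat_lit 7) (nat_lit 3) (nat_lit 7) (nat_lit 82) (nat_lit 160) r9_82 r7_160 (nat_lit 0) (nat_lit 0) (nat_lit 0) (nat_lit 0x80029938e) (nat_lit 1073741824)]
noncomputable def e21_26 : List Rx := [
  Rx.mk (nat_lit 0) (nat_lit 0) (nat_lit 0) (nat_lit 0) (nat_lit 0) (nat_lit 86) (nat_lit 133) r9_86 r8_133 (nat_lit 67809161) (nat_lit 3458182) (nat_lit 5464222) (nat_lit 0x3d69a35d6) (nat_lit 2260766689),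
  Rx.mk (nat_lit 2) (nat_lit 2) (nat_lit 0) (nat_lit 0) (nat_lit 1) (nat_lit 88) (nat_lit 135) r9_88 r8_135 (nat_lit 0) (nat_lit 6919696) (nat_lit 6297923) (nat_lit 0x6f394a1f0) (nat_lit 1366753143),
  Rx.mk (nat_lit 24) (nat_lit 0) (nat_lit 3) (nat_lit 0) (nat_lit 2) (nat_lit 92) (nat_lit 138) r9_92 r8_138 (nat_lit 4176648) (nat_lit 0) (nat_lit 7704862) (nat_lit 0x6d546e2f8) (nat_lit 1396994434),
  Rx.mk (nat_lit 26) (nat_lit 2) (nat_lit 3) (nat_lit 0) (nat_lit 3) (nat_lit 94) (nat_lit 143) r9_94 r8_143 (nat_lit 0) (nat_lit 0) (nat_lit 5449534) (nat_lit 0x80029938e) (nat_lit 1079191358),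
  Rx.mk (nat_lit 27) (nat_lit 3) (nat_lit 3) (nat_lit 0) (nat_lit 3) (nat_lit 96) (nat_lit 140) r9_96 r8_140 (nat_lit 0) (nat_lit 0) (nat_lit 5449534) (nat_lit 0x80029938e) (nat_lit 1079191358),
  Rx.mk (nat_lit 64) (nat_lit 0) (nat_lit 0) (nat_lit 1) (nat_lit 4) (nat_lit 87) (nat_lit 134) r9_87 r8_134 (nat_lit 38723310) (nat_lit 9618943) (nat_lit 0) (nat_lit 0x6bfe9de7e) (nat_lit 1455718977),
  Rx.mk (nat_lit 66) (nat_lit 2) (nat_lit 0) (nat_lit 1) (nat_lit 5) (nat_lit 89) (nat_lit 136) r9_89 r8_136 (nat_lit 0) (nat_lit 5449534) (nat_lit 0) (nat_lit 0x80029938e) (nat_lit 1079191358),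
  Rx.mk (nat_lit 88) (nat_lit 0) (nat_lit 3) (nat_lit 1) (nat_lit 6) (nat_lit 93) (nat_lit 139) r9_93 r8_139 (nat_lit 5449534) (nat_lit 0) (nat_lit 0) (nat_lit 0x80029938e) (nat_lit 1079191358),
  Rx.mk (nat_lit 90) (nat_lit 2) (nat_lit 3) (nat_lit 1) (nat_lit 7) (nat_lit 95) (nat_lit 144) r9_95 r8_144 (nat_lit 0) (nat_lit 0) (nat_lit 0) (nat_lit 0x80029938e) (nat_lit 1073741824),
  Rx.mk (nat_lit 91) (nat_lit 3) (nat_lit 3) (nat_lit 1) (nat_lit 7) (nat_lit 97) (nat_lit 141) r9_97 r8_141 (nat_lit 0) (nat_lit 0) (nat_lit 0) (nat_lit 0x80029938e) (nat_lit 1073741824),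
  Rx.mk (nat_lit 130) (nat_lit 2) (nat_lit 0) (nat_lit 2) (nat_lit 5) (nat_lit 90) (nat_lit 137) r9_90 r8_137 (nat_lit 0) (nat_lit 5449534) (nat_lit 0) (nat_lit 0x80029938e) (nat_lit 1079191358),
  Rx.mk (nat_lit 146) (nat_lit 2) (nat_lit 2) (nat_lit 2) (nat_lit 7) (nat_lit 91) (nat_lit 145) r9_91 r8_145 (nat_lit 0) (nat_lit 0) (nat_lit 0) (nat_lit 0x80029938e) (nat_lit 1073741824),
  Rx.mk (nat_lit 219) (nat_lit 3) (nat_lit 3) (nat_lit 3) (nat_lit 7) (nat_lit 98) (nat_lit 142) r9_98 r8_142 (nat_lit 0) (nat_lit 0) (nat_lit 0) (nat_lit 0x80029938e) (nat_lit 1073741824)]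
noncomputable def e21_27 : List Rx := [
  Rx.mk (nat_lit 0) (nat_lit 0) (nat_lit 0) (nat_lit 0) (nat_lit 0) (nat_lit 99) (nat_lit 273) r9_99 r8_273 (nat_lit 10845530) (nat_lit 3283945) (nat_lit 3207243) (nat_lit 0x3b8a2a25c) (nat_lit 2232597442),
  Rx.mk (nat_lit 2) (nat_lit 2) (nat_lit 0) (nat_lit 0) (nat_lit 1) (nat_lit 100) (nat_lit 276) r9_100 r8_276 (nat_lit 0) (nat_lit 4643983) (nat_lit 5166248) (nat_lit 0x6e6877564) (nat_lit 1376945555),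
  Rx.mk (nat_lit 24) (nat_lit 0) (nat_lit 3) (nat_lit 0) (nat_lit 2) (nat_lit 103) (nat_lit 274) r9_103 r8_274 (nat_lit 4026349) (nat_lit 0) (nat_lit 6516495) (nat_lit 0x6c0f7a8a0) (nat_lit 1416819768),
  Rx.mk (nat_lit 26) (nat_lit 2) (nat_lit 3) (nat_lit 0) (nat_lit 3) (nat_lit 104) (nat_lit 277) r9_104 r8_277 (nat_lit 0) (nat_lit 0) (nat_lit 5449534) (nat_lit 0x80029938e) (nat_lit 1079191358),
  Rx.mk (nat_lit 27) (nat_lit 3) (nat_lit 3) (nat_lit 0) (nat_lit 3) (nat_lit 106) (nat_lit 275) r9_106 r8_275 (nat_lit 0) (nat_lit 0) (nat_lit 5449534) (nat_lit 0x80029938e) (nat_lit 1079191358),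
  Rx.mk (nat_lit 130) (nat_lit 2) (nat_lit 0) (nat_lit 2) (nat_lit 5) (nat_lit 101) (nat_lit 280) r9_101 r8_280 (nat_lit 0) (nat_lit 5449534) (nat_lit 0) (nat_lit 0x8000c26c8) (nat_lit 1079309258),
  Rx.mk (nat_lit 146) (nat_lit 2) (nat_lit 2) (nat_lit 2) (nat_lit 7) (nat_lit 102) (nat_lit 282) r9_102 r8_282 (nat_lit 0) (nat_lit 0) (nat_lit 0) (nat_lit 0x80029938e) (nat_lit 1073741824),
  Rx.mk (nat_lit 154) (nat_lit 2) (nat_lit 3) (nat_lit 2) (nat_lit 7) (nat_lit 105) (nat_lit 281) r9_105 r8_281 (nat_lit 0) (nat_lit 0) (nat_lit 0) (nat_lit 0x80029938e) (nat_lit 1073741824),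
  Rx.mk (nat_lit 219) (nat_lit 3) (nat_lit 3) (nat_lit 3) (nat_lit 7) (nat_lit 107) (nat_lit 278) r9_107 r8_278 (nat_lit 0) (nat_lit 0) (nat_lit 0) (nat_lit 0x80029938e) (nat_lit 1073741824),
  Rx.mk (nat_lit 251) (nat_lit 3) (nat_lit 7) (nat_lit 3) (nat_lit 7) (nat_lit 108) (nat_lit 279) r9_108 r8_279 (nat_lit 0) (nat_lit 0) (nat_lit 0) (nat_lit 0x80029938e) (nat_lit 1073741824)]
noncomputable def e21_28 : List Rx := [
  Rx.mk (nat_lit 24) (nat_lit 0) (nat_lit 3) (nat_lit 0) (nat_lit 2) (nat_lit 136) (nat_lit 120) r9_136 r10_120 (nat_lit 10854105) (nat_lit 0) (nat_lit 8967556) (nat_lit 0x6c3b432d4) (nat_lit 1423247285),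
  Rx.mk (nat_lit 26) (nat_lit 2) (nat_lit 3) (nat_lit 0) (nat_lit 3) (nat_lit 138) (nat_lit 124) r9_138 r10_124 (nat_lit 0) (nat_lit 0) (nat_lit 5449534) (nat_lit 0x80029938e) (nat_lit 1079191358),
  Rx.mk (nat_lit 27) (nat_lit 3) (nat_lit 3) (nat_lit 0) (nat_lit 3) (nat_lit 141) (nat_lit 122) r9_141 r10_122 (nat_lit 0) (nat_lit 0) (nat_lit 5449534) (nat_lit 0x7ffe55638) (nat_lit 1079464858),
  Rx.mk (nat_lit 59) (nat_lit 3) (nat_lit 7) (nat_lit 0) (nat_lit 3) (nat_lit 143) (nat_lit 117) r9_143 r10_117 (nat_lit 0) (nat_lit 0) (nat_lit 5449534) (nat_lit 0x80029938e) (nat_lit 1079191358),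
  Rx.mk (nat_lit 88) (nat_lit 0) (nat_lit 3) (nat_lit 1) (nat_lit 6) (nat_lit 137) (nat_lit 121) r9_137 r10_121 (nat_lit 5449534) (nat_lit 0) (nat_lit 0) (nat_lit 0x80029938e) (nat_lit 1079191358),
  Rx.mk (nat_lit 90) (nat_lit 2) (nat_lit 3) (nat_lit 1) (nat_lit 7) (nat_lit 139) (nat_lit 125) r9_139 r10_125 (nat_lit 0) (nat_lit 0) (nat_lit 0) (nat_lit 0x80029938e) (nat_lit 1073741824),
  Rx.mk (nat_lit 91) (nat_lit 3) (nat_lit 3) (nat_lit 1) (nat_lit 7) (nat_lit 142) (nat_lit 123) r9_142 r10_123 (nat_lit 0) (nat_lit 0) (nat_lit 0) (nat_lit 0x80029938e) (nat_lit 1073741824),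
  Rx.mk (nat_lit 123) (nat_lit 3) (nat_lit 7) (nat_lit 1) (nat_lit 7) (nat_lit 144) (nat_lit 118) r9_144 r10_118 (nat_lit 0) (nat_lit 0) (nat_lit 0) (nat_lit 0x80029938e) (nat_lit 1073741824),
  Rx.mk (nat_lit 154) (nat_lit 2) (nat_lit 3) (nat_lit 2) (nat_lit 7) (nat_lit 140) (nat_lit 126) r9_140 r10_126 (nat_lit 0) (nat_lit 0) (nat_lit 0) (nat_lit 0x80029938e) (nat_lit 1073741824),
  Rx.mk (nat_lit 251) (nat_lit 3) (nat_lit 7) (nat_lit 3) (nat_lit 7) (nat_lit 145) (nat_lit 119) r9_145 r10_119 (nat_lit 0) (nat_lit 0) (nat_lit 0) (nat_lit 0x80029938e) (nat_lit 1073741824)]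
noncomputable def e21_29 : List Rx := [
  Rx.mk (nat_lit 91) (nat_lit 3) (nat_lit 3) (nat_lit 1) (nat_lit 7) (nat_lit 146) (nat_lit 124) r9_146 r11_124 (nat_lit 0) (nat_lit 0) (nat_lit 0) (nat_lit 0x80029938e) (nat_lit 1073741824),
  Rx.mk (nat_lit 123) (nat_lit 3) (nat_lit 7) (nat_lit 1) (nat_lit 7) (nat_lit 147) (nat_lit 123) r9_147 r11_123 (nat_lit 0) (nat_lit 0) (nat_lit 0) (nat_lit 0x80029938e) (nat_lit 1073741824)]
noncomputable def e21_30 : List Rx := [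
  Rx.mk (nat_lit 355) (nat_lit 3) (nat_lit 4) (nat_lit 5) (nat_lit 5) (nat_lit 224) (nat_lit 262) r9_224 r5_262 (nat_lit 0) (nat_lit 5670405) (nat_lit 0) (nat_lit 0x7ff06dc82) (nat_lit 1080580229),
  Rx.mk (nat_lit 359) (nat_lit 7) (nat_lit 4) (nat_lit 5) (nat_lit 5) (nat_lit 225) (nat_lit 261) r9_225 r5_261 (nat_lit 0) (nat_lit 5449534) (nat_lit 0) (nat_lit 0x7ffef05a2) (nat_lit 1079426058),
  Rx.mk (nat_lit 363) (nat_lit 3) (nat_lit 5) (nat_lit 5) (nat_lit 7) (nat_lit 226) (nat_lit 264) r9_226 r5_264 (nat_lit 0) (nat_lit 0) (nat_lit 0) (nat_lit 0x80029938e) (nat_lit 1073741824),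
  Rx.mk (nat_lit 367) (nat_lit 7) (nat_lit 5) (nat_lit 5) (nat_lit 7) (nat_lit 227) (nat_lit 263) r9_227 r5_263 (nat_lit 0) (nat_lit 0) (nat_lit 0) (nat_lit 0x80029938e) (nat_lit 1073741824),
  Rx.mk (nat_lit 379) (nat_lit 3) (nat_lit 7) (nat_lit 5) (nat_lit 7) (nat_lit 228) (nat_lit 265) r9_228 r5_265 (nat_lit 0) (nat_lit 0) (nat_lit 0) (nat_lit 0x80029938e) (nat_lit 1073741824)]
noncomputable def e21_31 : List Rx := [
  Rx.mk (nat_lit 291) (nat_lit 3) (nat_lit 4) (nat_lit 4) (nat_lit 1) (nat_lit 229) (nat_lit 319) r9_229 r11_319 (nat_lit 0) (nat_lit 11688394) (nat_lit 11688394) (nat_lit 0x7bca66588) (nat_lit 1167391312),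
  Rx.mk (nat_lit 295) (nat_lit 7) (nat_lit 4) (nat_lit 4) (nat_lit 1) (nat_lit 231) (nat_lit 318) r9_231 r11_318 (nat_lit 0) (nat_lit 35806592) (nat_lit 28325714) (nat_lit 0x7d068baa8) (nat_lit 1187560530),
  Rx.mk (nat_lit 311) (nat_lit 7) (nat_lit 6) (nat_lit 4) (nat_lit 3) (nat_lit 235) (nat_lit 321) r9_235 r11_321 (nat_lit 0) (nat_lit 0) (nat_lit 5449534) (nat_lit 0x80029938e) (nat_lit 1079191358),
  Rx.mk (nat_lit 315) (nat_lit 3) (nat_lit 7) (nat_lit 4) (nat_lit 3) (nat_lit 238) (nat_lit 320) r9_238 r11_320 (nat_lit 0) (nat_lit 0) (nat_lit 5449534) (nat_lit 0x80029938e) (nat_lit 1079191358),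
  Rx.mk (nat_lit 355) (nat_lit 3) (nat_lit 4) (nat_lit 5) (nat_lit 5) (nat_lit 230) (nat_lit 323) r9_230 r11_323 (nat_lit 0) (nat_lit 5449534) (nat_lit 0) (nat_lit 0x80029938e) (nat_lit 1079191358),
  Rx.mk (nat_lit 359) (nat_lit 7) (nat_lit 4) (nat_lit 5) (nat_lit 5) (nat_lit 232) (nat_lit 322) r9_232 r11_322 (nat_lit 0) (nat_lit 5449534) (nat_lit 0) (nat_lit 0x80029938e) (nat_lit 1079191358),
  Rx.mk (nat_lit 363) (nat_lit 3) (nat_lit 5) (nat_lit 5) (nat_lit 7) (nat_lit 233) (nat_lit 325) r9_233 r11_325 (nat_lit 0) (nat_lit 0) (nat_lit 0) (nat_lit 0x80029938e) (nat_lit 1073741824),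
  Rx.mk (nat_lit 367) (nat_lit 7) (nat_lit 5) (nat_lit 5) (nat_lit 7) (nat_lit 234) (nat_lit 324) r9_234 r11_324 (nat_lit 0) (nat_lit 0) (nat_lit 0) (nat_lit 0x80029938e) (nat_lit 1073741824),
  Rx.mk (nat_lit 375) (nat_lit 7) (nat_lit 6) (nat_lit 5) (nat_lit 7) (nat_lit 236) (nat_lit 327) r9_236 r11_327 (nat_lit 0) (nat_lit 0) (nat_lit 0) (nat_lit 0x80029938e) (nat_lit 1073741824),
  Rx.mk (nat_lit 379) (nat_lit 3) (nat_lit 7) (nat_lit 5) (nat_lit 7) (nat_lit 239) (nat_lit 326) r9_239 r11_326 (nat_lit 0) (nat_lit 0) (nat_lit 0) (nat_lit 0x80029938e) (nat_lit 1073741824),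
  Rx.mk (nat_lit 439) (nat_lit 7) (nat_lit 6) (nat_lit 6) (nat_lit 7) (nat_lit 237) (nat_lit 329) r9_237 r11_329 (nat_lit 0) (nat_lit 0) (nat_lit 0) (nat_lit 0x80029938e) (nat_lit 1073741824),
  Rx.mk (nat_lit 507) (nat_lit 3) (nat_lit 7) (nat_lit 7) (nat_lit 7) (nat_lit 240) (nat_lit 328) r9_240 r11_328 (nat_lit 0) (nat_lit 0) (nat_lit 0) (nat_lit 0x80029938e) (nat_lit 1073741824)]
noncomputable def e21_32 : List Rx := [
  Rx.mk (nat_lit 99) (nat_lit 3) (nat_lit 4) (nat_lit 1) (nat_lit 5) (nat_lit 241) (nat_lit 319) r9_241 r6_319 (nat_lit 0) (nat_lit 6014731) (nat_lit 0) (nat_lit 0x7fa23117c) (nat_lit 1085990655),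
  Rx.mk (nat_lit 107) (nat_lit 3) (nat_lit 5) (nat_lit 1) (nat_lit 7) (nat_lit 242) (nat_lit 320) r9_242 r6_320 (nat_lit 0) (nat_lit 0) (nat_lit 0) (nat_lit 0x80029938e) (nat_lit 1073741824),
  Rx.mk (nat_lit 123) (nat_lit 3) (nat_lit 7) (nat_lit 1) (nat_lit 7) (nat_lit 243) (nat_lit 321) r9_243 r6_321 (nat_lit 0) (nat_lit 0) (nat_lit 0) (nat_lit 0x80029938e) (nat_lit 1073741824)]
noncomputable def e21_33 : List Rx := [
  Rx.mk (nat_lit 123) (nat_lit 3) (nat_lit 7) (nat_lit 1) (nat_lit 7) (nat_lit 215) (nat_lit 266) r9_215 r5_266 (nat_lit 0) (nat_lit 0) (nat_lit 0) (nat_lit 0x80029938e) (nat_lit 1073741824)]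
noncomputable def e21_34 : List Rx := [
  Rx.mk (nat_lit 59) (nat_lit 3) (nat_lit 7) (nat_lit 0) (nat_lit 3) (nat_lit 216) (nat_lit 330) r9_216 r11_330 (nat_lit 0) (nat_lit 0) (nat_lit 5449534) (nat_lit 0x80029938e) (nat_lit 1079191358),
  Rx.mk (nat_lit 123) (nat_lit 3) (nat_lit 7) (nat_lit 1) (nat_lit 7) (nat_lit 217) (nat_lit 331) r9_217 r11_331 (nat_lit 0) (nat_lit 0) (nat_lit 0) (nat_lit 0x80029938e) (nat_lit 1073741824),
  Rx.mk (nat_lit 251) (nat_lit 3) (nat_lit 7) (nat_lit 3) (nat_lit 7) (nat_lit 218) (nat_lit 332) r9_218 r11_332 (nat_lit 0) (nat_lit 0) (nat_lit 0) (nat_lit 0x80029938e) (nat_lit 1073741824)]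
noncomputable def e21_35 : List Rx := [
  Rx.mk (nat_lit 99) (nat_lit 3) (nat_lit 4) (nat_lit 1) (nat_lit 5) (nat_lit 219) (nat_lit 314) r9_219 r6_314 (nat_lit 0) (nat_lit 5449534) (nat_lit 0) (nat_lit 0x7ff84509a) (nat_lit 1079854658),
  Rx.mk (nat_lit 107) (nat_lit 3) (nat_lit 5) (nat_lit 1) (nat_lit 7) (nat_lit 221) (nat_lit 316) r9_221 r6_316 (nat_lit 0) (nat_lit 0) (nat_lit 0) (nat_lit 0x80029938e) (nat_lit 1073741824),
  Rx.mk (nat_lit 355) (nat_lit 3) (nat_lit 4) (nat_lit 5) (nat_lit 5) (nat_lit 220) (nat_lit 315) r9_220 r6_315 (nat_lit 0) (nat_lit 6723610) (nat_lit 0) (nat_lit 0x7fa202926) (nat_lit 1086714034),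
  Rx.mk (nat_lit 363) (nat_lit 3) (nat_lit 5) (nat_lit 5) (nat_lit 7) (nat_lit 222) (nat_lit 317) r9_222 r6_317 (nat_lit 0) (nat_lit 0) (nat_lit 0) (nat_lit 0x80029938e) (nat_lit 1073741824),
  Rx.mk (nat_lit 379) (nat_lit 3) (nat_lit 7) (nat_lit 5) (nat_lit 7) (nat_lit 223) (nat_lit 318) r9_223 r6_318 (nat_lit 0) (nat_lit 0) (nat_lit 0) (nat_lit 0x80029938e) (nat_lit 1073741824)]
noncomputable def e21_36 : List Rx := [
  Rx.mk (nat_lit 99) (nat_lit 3) (nat_lit 4) (nat_lit 1) (nat_lit 5) (nat_lit 244) (nat_lit 165) r9_244 r12_165 (nat_lit 0) (nat_lit 6762413) (nat_lit 0) (nat_lit 0x7f0f02d4c) (nat_lit 1096295937),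
  Rx.mk (nat_lit 107) (nat_lit 3) (nat_lit 5) (nat_lit 1) (nat_lit 7) (nat_lit 245) (nat_lit 166) r9_245 r12_166 (nat_lit 0) (nat_lit 0) (nat_lit 0) (nat_lit 0x80029938e) (nat_lit 1073741824),
  Rx.mk (nat_lit 123) (nat_lit 3) (nat_lit 7) (nat_lit 1) (nat_lit 7) (nat_lit 246) (nat_lit 167) r9_246 r12_167 (nat_lit 0) (nat_lit 0) (nat_lit 0) (nat_lit 0x80029938e) (nat_lit 1073741824),
  Rx.mk (nat_lit 379) (nat_lit 3) (nat_lit 7) (nat_lit 5) (nat_lit 7) (nat_lit 247) (nat_lit 168) r9_247 r12_168 (nat_lit 0) (nat_lit 0) (nat_lit 0) (nat_lit 0x80029938e) (nat_lit 1073741824)]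
noncomputable def e21_37 : List Rx := [
  Rx.mk (nat_lit 72) (nat_lit 0) (nat_lit 1) (nat_lit 1) (nat_lit 6) (nat_lit 250) (nat_lit 295) r9_250 r0_295 (nat_lit 5449534) (nat_lit 0) (nat_lit 0) (nat_lit 0x7dc0ef480) (nat_lit 1116739658),
  Rx.mk (nat_lit 73) (nat_lit 1) (nat_lit 1) (nat_lit 1) (nat_lit 7) (nat_lit 251) (nat_lit 298) r9_251 r0_298 (nat_lit 0) (nat_lit 0) (nat_lit 0) (nat_lit 0x80029938e) (nat_lit 1073741824),
  Rx.mk (nat_lit 75) (nat_lit 3) (nat_lit 1) (nat_lit 1) (nat_lit 7) (nat_lit 252) (nat_lit 299) r9_252 r0_299 (nat_lit 0) (nat_lit 0) (nat_lit 0) (nat_lit 0x80029938e) (nat_lit 1073741824),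
  Rx.mk (nat_lit 104) (nat_lit 0) (nat_lit 5) (nat_lit 1) (nat_lit 6) (nat_lit 253) (nat_lit 294) r9_253 r0_294 (nat_lit 7145094) (nat_lit 0) (nat_lit 0) (nat_lit 0x79e85e2cc) (nat_lit 1182555618),
  Rx.mk (nat_lit 105) (nat_lit 1) (nat_lit 5) (nat_lit 1) (nat_lit 7) (nat_lit 255) (nat_lit 297) r9_255 r0_297 (nat_lit 0) (nat_lit 0) (nat_lit 0) (nat_lit 0x80029938e) (nat_lit 1073741824),
  Rx.mk (nat_lit 360) (nat_lit 0) (nat_lit 5) (nat_lit 5) (nat_lit 6) (nat_lit 254) (nat_lit 293) r9_254 r0_293 (nat_lit 5745639) (nat_lit 0) (nat_lit 0) (nat_lit 0x7713c5d0a) (nat_lit 1228342563),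
  Rx.mk (nat_lit 361) (nat_lit 1) (nat_lit 5) (nat_lit 5) (nat_lit 7) (nat_lit 256) (nat_lit 296) r9_256 r0_296 (nat_lit 0) (nat_lit 0) (nat_lit 0) (nat_lit 0x80029938e) (nat_lit 1073741824)]
noncomputable def e21_38 : List Rx := [
  Rx.mk (nat_lit 105) (nat_lit 1) (nat_lit 5) (nat_lit 1) (nat_lit 7) (nat_lit 248) (nat_lit 291) r9_248 r0_291 (nat_lit 0) (nat_lit 0) (nat_lit 0) (nat_lit 0x7ff85ef5e) (nat_lit 1074398324),
  Rx.mk (nat_lit 361) (nat_lit 1) (nat_lit 5) (nat_lit 5) (nat_lit 7) (nat_lit 249) (nat_lit 292) r9_249 r0_292 (nat_lit 0) (nat_lit 0) (nat_lit 0) (nat_lit 0x7ffd3fcc6) (nat_lit 1074084924)]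
noncomputable def e21_39 : List Rx := [
  Rx.mk (nat_lit 73) (nat_lit 1) (nat_lit 1) (nat_lit 1) (nat_lit 7) (nat_lit 257) (nat_lit 411) r9_257 r7_411 (nat_lit 0) (nat_lit 0) (nat_lit 0) (nat_lit 0x80029938e) (nat_lit 1073741824),
  Rx.mk (nat_lit 105) (nat_lit 1) (nat_lit 5) (nat_lit 1) (nat_lit 7) (nat_lit 258) (nat_lit 410) r9_258 r7_410 (nat_lit 0) (nat_lit 0) (nat_lit 0) (nat_lit 0x80029938e) (nat_lit 1073741824),
  Rx.mk (nat_lit 361) (nat_lit 1) (nat_lit 5) (nat_lit 5) (nat_lit 7) (nat_lit 259) (nat_lit 409) r9_259 r7_409 (nat_lit 0) (nat_lit 0) (nat_lit 0) (nat_lit 0x80029938e) (nat_lit 1073741824)]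
noncomputable def e21_40 : List Rx := [
  Rx.mk (nat_lit 365) (nat_lit 5) (nat_lit 5) (nat_lit 5) (nat_lit 7) (nat_lit 293) (nat_lit 315) r9_293 r2_315 (nat_lit 0) (nat_lit 0) (nat_lit 0) (nat_lit 0x80029938e) (nat_lit 1073741824)]
noncomputable def e21_41 : List Rx := [
  Rx.mk (nat_lit 365) (nat_lit 5) (nat_lit 5) (nat_lit 5) (nat_lit 7) (nat_lit 298) (nat_lit 298) r9_298 r9_298 (nat_lit 0) (nat_lit 0) (nat_lit 0) (nat_lit 0x80029938e) (nat_lit 1073741824)]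
noncomputable def e21_42 : List Rx := [
  Rx.mk (nat_lit 365) (nat_lit 5) (nat_lit 5) (nat_lit 5) (nat_lit 7) (nat_lit 299) (nat_lit 266) r9_299 r9_266 (nat_lit 0) (nat_lit 0) (nat_lit 0) (nat_lit 0x80029938e) (nat_lit 1073741824)]
noncomputable def e21_43 : List Rx := [
  Rx.mk (nat_lit 105) (nat_lit 1) (nat_lit 5) (nat_lit 1) (nat_lit 7) (nat_lit 290) (nat_lit 287) r9_290 r1_287 (nat_lit 0) (nat_lit 0) (nat_lit 0) (nat_lit 0x80029938e) (nat_lit 1073741824),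
  Rx.mk (nat_lit 361) (nat_lit 1) (nat_lit 5) (nat_lit 5) (nat_lit 7) (nat_lit 291) (nat_lit 288) r9_291 r1_288 (nat_lit 0) (nat_lit 0) (nat_lit 0) (nat_lit 0x80029938e) (nat_lit 1073741824),
  Rx.mk (nat_lit 365) (nat_lit 5) (nat_lit 5) (nat_lit 5) (nat_lit 7) (nat_lit 292) (nat_lit 289) r9_292 r1_289 (nat_lit 0) (nat_lit 0) (nat_lit 0) (nat_lit 0x80029938e) (nat_lit 1073741824)]
noncomputable def e21_44 : List Rx := [
  Rx.mk (nat_lit 73) (nat_lit 1) (nat_lit 1) (nat_lit 1) (nat_lit 7) (nat_lit 294) (nat_lit 330) r9_294 r8_330 (nat_lit 0) (nat_lit 0) (nat_lit 0) (nat_lit 0x80029938e) (nat_lit 1073741824),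
  Rx.mk (nat_lit 105) (nat_lit 1) (nat_lit 5) (nat_lit 1) (nat_lit 7) (nat_lit 295) (nat_lit 329) r9_295 r8_329 (nat_lit 0) (nat_lit 0) (nat_lit 0) (nat_lit 0x80029938e) (nat_lit 1073741824),
  Rx.mk (nat_lit 361) (nat_lit 1) (nat_lit 5) (nat_lit 5) (nat_lit 7) (nat_lit 296) (nat_lit 328) r9_296 r8_328 (nat_lit 0) (nat_lit 0) (nat_lit 0) (nat_lit 0x80029938e) (nat_lit 1073741824),
  Rx.mk (nat_lit 365) (nat_lit 5) (nat_lit 5) (nat_lit 5) (nat_lit 7) (nat_lit 297) (nat_lit 327) r9_297 r8_327 (nat_lit 0) (nat_lit 0) (nat_lit 0) (nat_lit 0x80029938e) (nat_lit 1073741824)]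
noncomputable def e21_45 : List Rx := [
  Rx.mk (nat_lit 72) (nat_lit 0) (nat_lit 1) (nat_lit 1) (nat_lit 6) (nat_lit 286) (nat_lit 290) r9_286 r1_290 (nat_lit 5449534) (nat_lit 0) (nat_lit 0) (nat_lit 0x7ffe84c62) (nat_lit 1079452958),
  Rx.mk (nat_lit 73) (nat_lit 1) (nat_lit 1) (nat_lit 1) (nat_lit 7) (nat_lit 287) (nat_lit 291) r9_287 r1_291 (nat_lit 0) (nat_lit 0) (nat_lit 0) (nat_lit 0x80029938e) (nat_lit 1073741824),
  Rx.mk (nat_lit 75) (nat_lit 3) (nat_lit 1) (nat_lit 1) (nat_lit 7) (nat_lit 288) (nat_lit 292) r9_288 r1_292 (nat_lit 0) (nat_lit 0) (nat_lit 0) (nat_lit 0x80029938e) (nat_lit 1073741824)]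
noncomputable def e21_46 : List Rx := [
  Rx.mk (nat_lit 64) (nat_lit 0) (nat_lit 0) (nat_lit 1) (nat_lit 4) (nat_lit 260) (nat_lit 316) r9_260 r2_316 (nat_lit 14127797) (nat_lit 11852734) (nat_lit 0) (nat_lit 0x69ce79236) (nat_lit 1469837355),
  Rx.mk (nat_lit 67) (nat_lit 3) (nat_lit 0) (nat_lit 1) (nat_lit 5) (nat_lit 261) (nat_lit 319) r9_261 r2_319 (nat_lit 0) (nat_lit 5449534) (nat_lit 0) (nat_lit 0x80029938e) (nat_lit 1079191358),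
  Rx.mk (nat_lit 72) (nat_lit 0) (nat_lit 1) (nat_lit 1) (nat_lit 6) (nat_lit 262) (nat_lit 317) r9_262 r2_317 (nat_lit 5449534) (nat_lit 0) (nat_lit 0) (nat_lit 0x80029938e) (nat_lit 1079191358),
  Rx.mk (nat_lit 73) (nat_lit 1) (nat_lit 1) (nat_lit 1) (nat_lit 7) (nat_lit 263) (nat_lit 318) r9_263 r2_318 (nat_lit 0) (nat_lit 0) (nat_lit 0) (nat_lit 0x80029938e) (nat_lit 1073741824),
  Rx.mk (nat_lit 75) (nat_lit 3) (nat_lit 1) (nat_lit 1) (nat_lit 7) (nat_lit 264) (nat_lit 320) r9_264 r2_320 (nat_lit 0) (nat_lit 0) (nat_lit 0) (nat_lit 0x80029938e) (nat_lit 1073741824),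
  Rx.mk (nat_lit 91) (nat_lit 3) (nat_lit 3) (nat_lit 1) (nat_lit 7) (nat_lit 265) (nat_lit 321) r9_265 r2_321 (nat_lit 0) (nat_lit 0) (nat_lit 0) (nat_lit 0x80029938e) (nat_lit 1073741824)]
noncomputable def e21_47 : List Rx := [
  Rx.mk (nat_lit 73) (nat_lit 1) (nat_lit 1) (nat_lit 1) (nat_lit 7) (nat_lit 289) (nat_lit 326) r9_289 r8_326 (nat_lit 0) (nat_lit 0) (nat_lit 0) (nat_lit 0x80029938e) (nat_lit 1073741824)]
noncomputable def e21_48 : List Rx := [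
  Rx.mk (nat_lit 73) (nat_lit 1) (nat_lit 1) (nat_lit 1) (nat_lit 7) (nat_lit 266) (nat_lit 299) r9_266 r9_299 (nat_lit 0) (nat_lit 0) (nat_lit 0) (nat_lit 0x80029938e) (nat_lit 1073741824)]
noncomputable def e21_49 : List Rx := [
  Rx.mk (nat_lit 0) (nat_lit 0) (nat_lit 0) (nat_lit 0) (nat_lit 0) (nat_lit 267) (nat_lit 267) r9_267 r9_267 (nat_lit 67571696) (nat_lit 5993215) (nat_lit 5993215) (nat_lit 0x3d23e966c) (nat_lit 2268135750),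
  Rx.mk (nat_lit 2) (nat_lit 2) (nat_lit 0) (nat_lit 0) (nat_lit 1) (nat_lit 269) (nat_lit 272) r9_269 r9_272 (nat_lit 0) (nat_lit 10420244) (nat_lit 5680499) (nat_lit 0x733eed9d2) (nat_lit 1302579567),
  Rx.mk (nat_lit 3) (nat_lit 3) (nat_lit 0) (nat_lit 0) (nat_lit 1) (nat_lit 272) (nat_lit 269) r9_272 r9_269 (nat_lit 0) (nat_lit 5680499) (nat_lit 10420244) (nat_lit 0x733eed9d2) (nat_lit 1302579567),
  Rx.mk (nat_lit 8) (nat_lit 0) (nat_lit 1) (nat_lit 0) (nat_lit 2) (nat_lit 274) (nat_lit 268) r9_274 r9_268 (nat_lit 9804779) (nat_lit 0) (nat_lit 5964983) (nat_lit 0x68fc6b33e) (nat_lit 1473306486),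
  Rx.mk (nat_lit 10) (nat_lit 2) (nat_lit 1) (nat_lit 0) (nat_lit 3) (nat_lit 277) (nat_lit 273) r9_277 r9_273 (nat_lit 0) (nat_lit 0) (nat_lit 5449534) (nat_lit 0x80029938e) (nat_lit 1079191358),
  Rx.mk (nat_lit 11) (nat_lit 3) (nat_lit 1) (nat_lit 0) (nat_lit 3) (nat_lit 280) (nat_lit 270) r9_280 r9_270 (nat_lit 0) (nat_lit 0) (nat_lit 5449534) (nat_lit 0x80029938e) (nat_lit 1079191358),
  Rx.mk (nat_lit 27) (nat_lit 3) (nat_lit 3) (nat_lit 0) (nat_lit 3) (nat_lit 283) (nat_lit 271) r9_283 r9_271 (nat_lit 0) (nat_lit 0) (nat_lit 5449534) (nat_lit 0x80029938e) (nat_lit 1079191358),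
  Rx.mk (nat_lit 64) (nat_lit 0) (nat_lit 0) (nat_lit 1) (nat_lit 4) (nat_lit 268) (nat_lit 274) r9_268 r9_274 (nat_lit 9804779) (nat_lit 5964983) (nat_lit 0) (nat_lit 0x68fc6b33e) (nat_lit 1473306486),
  Rx.mk (nat_lit 66) (nat_lit 2) (nat_lit 0) (nat_lit 1) (nat_lit 5) (nat_lit 270) (nat_lit 280) r9_270 r9_280 (nat_lit 0) (nat_lit 5449534) (nat_lit 0) (nat_lit 0x80029938e) (nat_lit 1079191358),
  Rx.mk (nat_lit 67) (nat_lit 3) (nat_lit 0) (nat_lit 1) (nat_lit 5) (nat_lit 273) (nat_lit 277) r9_273 r9_277 (nat_lit 0) (nat_lit 5449534) (nat_lit 0) (nat_lit 0x80029938e) (nat_lit 1079191358),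
  Rx.mk (nat_lit 72) (nat_lit 0) (nat_lit 1) (nat_lit 1) (nat_lit 6) (nat_lit 275) (nat_lit 275) r9_275 r9_275 (nat_lit 5449534) (nat_lit 0) (nat_lit 0) (nat_lit 0x80029938e) (nat_lit 1079191358),
  Rx.mk (nat_lit 73) (nat_lit 1) (nat_lit 1) (nat_lit 1) (nat_lit 7) (nat_lit 276) (nat_lit 276) r9_276 r9_276 (nat_lit 0) (nat_lit 0) (nat_lit 0) (nat_lit 0x80029938e) (nat_lit 1073741824),
  Rx.mk (nat_lit 74) (nat_lit 2) (nat_lit 1) (nat_lit 1) (nat_lit 7) (nat_lit 278) (nat_lit 281) r9_278 r9_281 (nat_lit 0) (nat_lit 0) (nat_lit 0) (nat_lit 0x80029938e) (nat_lit 1073741824),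
  Rx.mk (nat_lit 75) (nat_lit 3) (nat_lit 1) (nat_lit 1) (nat_lit 7) (nat_lit 281) (nat_lit 278) r9_281 r9_278 (nat_lit 0) (nat_lit 0) (nat_lit 0) (nat_lit 0x80029938e) (nat_lit 1073741824),
  Rx.mk (nat_lit 91) (nat_lit 3) (nat_lit 3) (nat_lit 1) (nat_lit 7) (nat_lit 284) (nat_lit 279) r9_284 r9_279 (nat_lit 0) (nat_lit 0) (nat_lit 0) (nat_lit 0x80029938e) (nat_lit 1073741824),
  Rx.mk (nat_lit 130) (nat_lit 2) (nat_lit 0) (nat_lit 2) (nat_lit 5) (nat_lit 271) (nat_lit 283) r9_271 r9_283 (nat_lit 0) (nat_lit 5449534) (nat_lit 0) (nat_lit 0x80029938e) (nat_lit 1079191358),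
  Rx.mk (nat_lit 138) (nat_lit 2) (nat_lit 1) (nat_lit 2) (nat_lit 7) (nat_lit 279) (nat_lit 284) r9_279 r9_284 (nat_lit 0) (nat_lit 0) (nat_lit 0) (nat_lit 0x80029938e) (nat_lit 1073741824),
  Rx.mk (nat_lit 146) (nat_lit 2) (nat_lit 2) (nat_lit 2) (nat_lit 7) (nat_lit 282) (nat_lit 285) r9_282 r9_285 (nat_lit 0) (nat_lit 0) (nat_lit 0) (nat_lit 0x80029938e) (nat_lit 1073741824),
  Rx.mk (nat_lit 219) (nat_lit 3) (nat_lit 3) (nat_lit 3) (nat_lit 7) (nat_lit 285) (nat_lit 282) r9_285 r9_282 (nat_lit 0) (nat_lit 0) (nat_lit 0) (nat_lit 0x80029938e) (nat_lit 1073741824)]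
noncomputable def e21_50 : List Rx := [
  Rx.mk (nat_lit 104) (nat_lit 0) (nat_lit 5) (nat_lit 1) (nat_lit 6) (nat_lit 300) (nat_lit 296) r9_300 r3_296 (nat_lit 10837605) (nat_lit 0) (nat_lit 0) (nat_lit 0x7013dda4c) (nat_lit 1350127929),
  Rx.mk (nat_lit 105) (nat_lit 1) (nat_lit 5) (nat_lit 1) (nat_lit 7) (nat_lit 302) (nat_lit 298) r9_302 r3_298 (nat_lit 0) (nat_lit 0) (nat_lit 0) (nat_lit 0x80029938e) (nat_lit 1073741824),
  Rx.mk (nat_lit 107) (nat_lit 3) (nat_lit 5) (nat_lit 1) (nat_lit 7) (nat_lit 304) (nat_lit 299) r9_304 r3_299 (nat_lit 0) (nat_lit 0) (nat_lit 0) (nat_lit 0x7fb687978) (nat_lit 1078660724),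
  Rx.mk (nat_lit 360) (nat_lit 0) (nat_lit 5) (nat_lit 5) (nat_lit 6) (nat_lit 301) (nat_lit 295) r9_301 r3_295 (nat_lit 8792321) (nat_lit 0) (nat_lit 0) (nat_lit 0x6b8165010) (nat_lit 1424314245),
  Rx.mk (nat_lit 361) (nat_lit 1) (nat_lit 5) (nat_lit 5) (nat_lit 7) (nat_lit 303) (nat_lit 297) r9_303 r3_297 (nat_lit 0) (nat_lit 0) (nat_lit 0) (nat_lit 0x80029938e) (nat_lit 1073741824)]
noncomputable def e21_51 : List Rx := [
  Rx.mk (nat_lit 75) (nat_lit 3) (nat_lit 1) (nat_lit 1) (nat_lit 7) (nat_lit 311) (nat_lit 314) r9_311 r4_314 (nat_lit 0) (nat_lit 0) (nat_lit 0) (nat_lit 0x80029938e) (nat_lit 1073741824),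
  Rx.mk (nat_lit 104) (nat_lit 0) (nat_lit 5) (nat_lit 1) (nat_lit 6) (nat_lit 312) (nat_lit 310) r9_312 r4_310 (nat_lit 5449534) (nat_lit 0) (nat_lit 0) (nat_lit 0x7fff43810) (nat_lit 1079405158),
  Rx.mk (nat_lit 105) (nat_lit 1) (nat_lit 5) (nat_lit 1) (nat_lit 7) (nat_lit 314) (nat_lit 312) r9_314 r4_312 (nat_lit 0) (nat_lit 0) (nat_lit 0) (nat_lit 0x80029938e) (nat_lit 1073741824),
  Rx.mk (nat_lit 107) (nat_lit 3) (nat_lit 5) (nat_lit 1) (nat_lit 7) (nat_lit 316) (nat_lit 313) r9_316 r4_313 (nat_lit 0) (nat_lit 0) (nat_lit 0) (nat_lit 0x80029938e) (nat_lit 1073741824),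
  Rx.mk (nat_lit 360) (nat_lit 0) (nat_lit 5) (nat_lit 5) (nat_lit 6) (nat_lit 313) (nat_lit 309) r9_313 r4_309 (nat_lit 7165293) (nat_lit 0) (nat_lit 0) (nat_lit 0x7f99d7f58) (nat_lit 1087672217),
  Rx.mk (nat_lit 361) (nat_lit 1) (nat_lit 5) (nat_lit 5) (nat_lit 7) (nat_lit 315) (nat_lit 311) r9_315 r4_311 (nat_lit 0) (nat_lit 0) (nat_lit 0) (nat_lit 0x80029938e) (nat_lit 1073741824)]
noncomputable def e21_52 : List Rx := [
  Rx.mk (nat_lit 104) (nat_lit 0) (nat_lit 5) (nat_lit 1) (nat_lit 6) (nat_lit 324) (nat_lit 290) r9_324 r5_290 (nat_lit 5449534) (nat_lit 0) (nat_lit 0) (nat_lit 0x80029938e) (nat_lit 1079191358),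
  Rx.mk (nat_lit 105) (nat_lit 1) (nat_lit 5) (nat_lit 1) (nat_lit 7) (nat_lit 325) (nat_lit 291) r9_325 r5_291 (nat_lit 0) (nat_lit 0) (nat_lit 0) (nat_lit 0x80029938e) (nat_lit 1073741824),
  Rx.mk (nat_lit 107) (nat_lit 3) (nat_lit 5) (nat_lit 1) (nat_lit 7) (nat_lit 326) (nat_lit 292) r9_326 r5_292 (nat_lit 0) (nat_lit 0) (nat_lit 0) (nat_lit 0x80029938e) (nat_lit 1073741824)]
noncomputable def e21_53 : List Rx := [
  Rx.mk (nat_lit 105) (nat_lit 1) (nat_lit 5) (nat_lit 1) (nat_lit 7) (nat_lit 305) (nat_lit 307) r9_305 r4_307 (nat_lit 0) (nat_lit 0) (nat_lit 0) (nat_lit 0x80029938e) (nat_lit 1073741824),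
  Rx.mk (nat_lit 361) (nat_lit 1) (nat_lit 5) (nat_lit 5) (nat_lit 7) (nat_lit 306) (nat_lit 308) r9_306 r4_308 (nat_lit 0) (nat_lit 0) (nat_lit 0) (nat_lit 0x80029938e) (nat_lit 1073741824)]
noncomputable def e21_54 : List Rx := [
  Rx.mk (nat_lit 105) (nat_lit 1) (nat_lit 5) (nat_lit 1) (nat_lit 7) (nat_lit 317) (nat_lit 332) r9_317 r10_332 (nat_lit 0) (nat_lit 0) (nat_lit 0) (nat_lit 0x80029938e) (nat_lit 1073741824),
  Rx.mk (nat_lit 361) (nat_lit 1) (nat_lit 5) (nat_lit 5) (nat_lit 7) (nat_lit 318) (nat_lit 331) r9_318 r10_331 (nat_lit 0) (nat_lit 0) (nat_lit 0) (nat_lit 0x80029938e) (nat_lit 1073741824)]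
noncomputable def e21_55 : List Rx := [
  Rx.mk (nat_lit 105) (nat_lit 1) (nat_lit 5) (nat_lit 1) (nat_lit 7) (nat_lit 327) (nat_lit 350) r9_327 r11_350 (nat_lit 0) (nat_lit 0) (nat_lit 0) (nat_lit 0x80029938e) (nat_lit 1073741824)]
noncomputable def e21_56 : List Rx := [
  Rx.mk (nat_lit 107) (nat_lit 3) (nat_lit 5) (nat_lit 1) (nat_lit 7) (nat_lit 309) (nat_lit 286) r9_309 r5_286 (nat_lit 0) (nat_lit 0) (nat_lit 0) (nat_lit 0x80029938e) (nat_lit 1073741824),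
  Rx.mk (nat_lit 360) (nat_lit 0) (nat_lit 5) (nat_lit 5) (nat_lit 6) (nat_lit 307) (nat_lit 287) r9_307 r5_287 (nat_lit 55741436) (nat_lit 0) (nat_lit 0) (nat_lit 0x760962d32) (nat_lit 1295686160),
  Rx.mk (nat_lit 361) (nat_lit 1) (nat_lit 5) (nat_lit 5) (nat_lit 7) (nat_lit 308) (nat_lit 288) r9_308 r5_288 (nat_lit 0) (nat_lit 0) (nat_lit 0) (nat_lit 0x80029938e) (nat_lit 1073741824),
  Rx.mk (nat_lit 363) (nat_lit 3) (nat_lit 5) (nat_lit 5) (nat_lit 7) (nat_lit 310) (nat_lit 289) r9_310 r5_289 (nat_lit 0) (nat_lit 0) (nat_lit 0) (nat_lit 0x80029938e) (nat_lit 1073741824)]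
noncomputable def e21_57 : List Rx := [
  Rx.mk (nat_lit 75) (nat_lit 3) (nat_lit 1) (nat_lit 1) (nat_lit 7) (nat_lit 319) (nat_lit 345) r9_319 r11_345 (nat_lit 0) (nat_lit 0) (nat_lit 0) (nat_lit 0x80029938e) (nat_lit 1073741824),
  Rx.mk (nat_lit 107) (nat_lit 3) (nat_lit 5) (nat_lit 1) (nat_lit 7) (nat_lit 322) (nat_lit 346) r9_322 r11_346 (nat_lit 0) (nat_lit 0) (nat_lit 0) (nat_lit 0x80029938e) (nat_lit 1073741824),
  Rx.mk (nat_lit 360) (nat_lit 0) (nat_lit 5) (nat_lit 5) (nat_lit 6) (nat_lit 320) (nat_lit 347) r9_320 r11_347 (nat_lit 5449534) (nat_lit 0) (nat_lit 0) (nat_lit 0x7ffd1a084) (nat_lit 1079543858),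
  Rx.mk (nat_lit 361) (nat_lit 1) (nat_lit 5) (nat_lit 5) (nat_lit 7) (nat_lit 321) (nat_lit 348) r9_321 r11_348 (nat_lit 0) (nat_lit 0) (nat_lit 0) (nat_lit 0x80029938e) (nat_lit 1073741824),
  Rx.mk (nat_lit 363) (nat_lit 3) (nat_lit 5) (nat_lit 5) (nat_lit 7) (nat_lit 323) (nat_lit 349) r9_323 r11_349 (nat_lit 0) (nat_lit 0) (nat_lit 0) (nat_lit 0x80029938e) (nat_lit 1073741824)]
noncomputable def e21 : List (List Rx) := [e21_0, e21_1, e21_2, e21_3, e21_4, e21_5, e21_6, e21_7, e21_8, e21_9, e21_10, e21_11, e21_12, e21_13, e21_14, e21_15, e21_16, e21_17, e21_18, e21_19, e21_20, e21_21, e21_22, e21_23, e21_24, e21_25, e21_26, e21_27, e21_28, e21_29, e21_30, e21_31, e21_32, e21_33, e21_34, e21_35, e21_36, e21_37, e21_38, e21_39, e21_40, e21_41, e21_42, e21_43, e21_44, e21_45, e21_46, e21_47, e21_48, e21_49, e21_50, e21_51, e21_52, e21_53, e21_54, e21_55, e21_56,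 e21_57]
noncomputable def e22_0 : List Rx := [
  Rx.mk (nat_lit 100) (nat_lit 4) (nat_lit 4) (nat_lit 1) (nat_lit 4) (nat_lit 248) (nat_lit 171) r0_248 r0_171 (nat_lit 969839457) (nat_lit 318) (nat_lit 0) (nat_lit 0x8000510a4) (nat_lit 2043561699),
  Rx.mk (nat_lit 108) (nat_lit 4) (nat_lit 5) (nat_lit 1) (nat_lit 6) (nat_lit 249) (nat_lit 172) r0_249 r0_172 (nat_lit 508562239) (nat_lit 0) (nat_lit 0) (nat_lit 0x7ed0e1874) (nat_lit 1602132963)]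
noncomputable def e22_1 : List Rx := [
  Rx.mk (nat_lit 100) (nat_lit 4) (nat_lit 4) (nat_lit 1) (nat_lit 4) (nat_lit 269) (nat_lit 179) r0_269 r1_179 (nat_lit 1076204905) (nat_lit 4696) (nat_lit 0) (nat_lit 0x8008e3776) (nat_lit 2149391825),
  Rx.mk (nat_lit 108) (nat_lit 4) (nat_lit 5) (nat_lit 1) (nat_lit 6) (nat_lit 270) (nat_lit 181) r0_270 r1_181 (nat_lit 15364900) (nat_lit 0) (nat_lit 0) (nat_lit 0x80028c260) (nat_lit 1089102224),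
  Rx.mk (nat_lit 356) (nat_lit 4) (nat_lit 4) (nat_lit 5) (nat_lit 4) (nat_lit 265) (nat_lit 180) r0_265 r1_180 (nat_lit 103080834) (nat_lit 2783255) (nat_lit 0) (nat_lit 0x61b174d32) (nat_lit 1684989113),
  Rx.mk (nat_lit 364) (nat_lit 4) (nat_lit 5) (nat_lit 5) (nat_lit 6) (nat_lit 266) (nat_lit 182) r0_266 r1_182 (nat_lit 7068022) (nat_lit 0) (nat_lit 0) (nat_lit 0x7fea1f7b8) (nat_lit 1082378546),
  Rx.mk (nat_lit 372) (nat_lit 4) (nat_lit 6) (nat_lit 5) (nat_lit 6) (nat_lit 267) (nat_lit 183) r0_267 r1_183 (nat_lit 271237446) (nat_lit 0) (nat_lit 0) (nat_lit 0x89006c440) (nat_lit 1199488170),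
  Rx.mk (nat_lit 374) (nat_lit 6) (nat_lit 6) (nat_lit 5) (nat_lit 7) (nat_lit 268) (nat_lit 184) r0_268 r1_184 (nat_lit 0) (nat_lit 0) (nat_lit 0) (nat_lit 0x802fc2cf2) (nat_lit 1070852724)]
noncomputable def e22_2 : List Rx := [
  Rx.mk (nat_lit 356) (nat_lit 4) (nat_lit 4) (nat_lit 5) (nat_lit 4) (nat_lit 254) (nat_lit 180) r0_254 r2_180 (nat_lit 68407513) (nat_lit 7055863) (nat_lit 0) (nat_lit 0x53676d968) (nat_lit 1892836900),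
  Rx.mk (nat_lit 372) (nat_lit 4) (nat_lit 6) (nat_lit 5) (nat_lit 6) (nat_lit 255) (nat_lit 181) r0_255 r2_181 (nat_lit 10599859) (nat_lit 0) (nat_lit 0) (nat_lit 0x7f72b6d3e) (nat_lit 1093649483),
  Rx.mk (nat_lit 374) (nat_lit 6) (nat_lit 6) (nat_lit 5) (nat_lit 7) (nat_lit 256) (nat_lit 182) r0_256 r2_182 (nat_lit 0) (nat_lit 0) (nat_lit 0) (nat_lit 0x80029938e) (nat_lit 1073741824)]
noncomputable def e22_3 : List Rx := [
  Rx.mk (nat_lit 44) (nat_lit 4) (nat_lit 5) (nat_lit 0) (nat_lit 2) (nat_lit 300) (nat_lit 146) r0_300 r3_146 (nat_lit 81) (nat_lit 0) (nat_lit 191) (nat_lit 0x800015324) (nat_lit 1073736896),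
  Rx.mk (nat_lit 47) (nat_lit 7) (nat_lit 5) (nat_lit 0) (nat_lit 3) (nat_lit 301) (nat_lit 149) r0_301 r3_149 (nat_lit 0) (nat_lit 0) (nat_lit 52414) (nat_lit 0x7cb6d8c18) (nat_lit 1128580838),
  Rx.mk (nat_lit 100) (nat_lit 4) (nat_lit 4) (nat_lit 1) (nat_lit 4) (nat_lit 302) (nat_lit 145) r0_302 r3_145 (nat_lit 671) (nat_lit 337) (nat_lit 0) (nat_lit 0x72b6e4a90) (nat_lit 1295253432),
  Rx.mk (nat_lit 103) (nat_lit 7) (nat_lit 4) (nat_lit 1) (nat_lit 5) (nat_lit 304) (nat_lit 148) r0_304 r3_148 (nat_lit 0) (nat_lit 405858) (nat_lit 0) (nat_lit 0x78a0747a0) (nat_lit 1197135682),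
  Rx.mk (nat_lit 108) (nat_lit 4) (nat_lit 5) (nat_lit 1) (nat_lit 6) (nat_lit 303) (nat_lit 147) r0_303 r3_147 (nat_lit 424055) (nat_lit 0) (nat_lit 0) (nat_lit 0x7bb0370ea) (nat_lit 1146087279),
  Rx.mk (nat_lit 111) (nat_lit 7) (nat_lit 5) (nat_lit 1) (nat_lit 7) (nat_lit 305) (nat_lit 150) r0_305 r3_150 (nat_lit 0) (nat_lit 0) (nat_lit 0) (nat_lit 0x883ab4d38) (nat_lit 940740624)]
noncomputable def e22_4 : List Rx := [
  Rx.mk (nat_lit 100) (nat_lit 4) (nat_lit 4) (nat_lit 1) (nat_lit 4) (nat_lit 318) (nat_lit 155) r0_318 r4_155 (nat_lit 232268791) (nat_lit 781143) (nat_lit 0) (nat_lit 0x6adf8057e) (nat_lit 1659098658),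
  Rx.mk (nat_lit 103) (nat_lit 7) (nat_lit 4) (nat_lit 1) (nat_lit 5) (nat_lit 320) (nat_lit 157) r0_320 r4_157 (nat_lit 0) (nat_lit 2184780) (nat_lit 0) (nat_lit 0x7aab2db36) (nat_lit 1164898604),
  Rx.mk (nat_lit 108) (nat_lit 4) (nat_lit 5) (nat_lit 1) (nat_lit 6) (nat_lit 319) (nat_lit 156) r0_319 r4_156 (nat_lit 4017845) (nat_lit 0) (nat_lit 0) (nat_lit 0x7ff75e168) (nat_lit 1078479169),
  Rx.mk (nat_lit 111) (nat_lit 7) (nat_lit 5) (nat_lit 1) (nat_lit 7) (nat_lit 321) (nat_lit 158) r0_321 r4_158 (nat_lit 0) (nat_lit 0) (nat_lit 0) (nat_lit 0x8052c65be) (nat_lit 1068627724)]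
noncomputable def e22_5 : List Rx := [
  Rx.mk (nat_lit 36) (nat_lit 4) (nat_lit 4) (nat_lit 0) (nat_lit 0) (nat_lit 330) (nat_lit 152) r0_330 r5_152 (nat_lit 330744107) (nat_lit 352) (nat_lit 325) (nat_lit 0x800010eb4) (nat_lit 1404482608),
  Rx.mk (nat_lit 39) (nat_lit 7) (nat_lit 4) (nat_lit 0) (nat_lit 1) (nat_lit 332) (nat_lit 158) r0_332 r5_158 (nat_lit 0) (nat_lit 1646045) (nat_lit 1903628) (nat_lit 0x64837e9fc) (nat_lit 1535649097),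
  Rx.mk (nat_lit 44) (nat_lit 4) (nat_lit 5) (nat_lit 0) (nat_lit 2) (nat_lit 331) (nat_lit 155) r0_331 r5_155 (nat_lit 2163217) (nat_lit 0) (nat_lit 9541506) (nat_lit 0x7d2876e7e) (nat_lit 1132919447),
  Rx.mk (nat_lit 47) (nat_lit 7) (nat_lit 5) (nat_lit 0) (nat_lit 3) (nat_lit 333) (nat_lit 160) r0_333 r5_160 (nat_lit 0) (nat_lit 0) (nat_lit 3491444) (nat_lit 0x7fef1f6dc) (nat_lit 1078469368),
  Rx.mk (nat_lit 63) (nat_lit 7) (nat_lit 7) (nat_lit 0) (nat_lit 3) (nat_lit 334) (nat_lit 162) r0_334 r5_162 (nat_lit 0) (nat_lit 0) (nat_lit 4819430) (nat_lit 0x75c3dc4d4) (nat_lit 1249292654),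
  Rx.mk (nat_lit 100) (nat_lit 4) (nat_lit 4) (nat_lit 1) (nat_lit 4) (nat_lit 335) (nat_lit 153) r0_335 r5_153 (nat_lit 173854821) (nat_lit 2550648) (nat_lit 0) (nat_lit 0x75a4173f6) (nat_lit 1422939093),
  Rx.mk (nat_lit 103) (nat_lit 7) (nat_lit 4) (nat_lit 1) (nat_lit 5) (nat_lit 337) (nat_lit 159) r0_337 r5_159 (nat_lit 0) (nat_lit 3048911) (nat_lit 0) (nat_lit 0x7f12771a8) (nat_lit 1092353635),
  Rx.mk (nat_lit 108) (nat_lit 4) (nat_lit 5) (nat_lit 1) (nat_lit 6) (nat_lit 336) (nat_lit 156) r0_336 r5_156 (nat_lit 5090091) (nat_lit 0) (nat_lit 0) (nat_lit 0x7fe496148) (nat_lit 1080758915),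
  Rx.mk (nat_lit 111) (nat_lit 7) (nat_lit 5) (nat_lit 1) (nat_lit 7) (nat_lit 338) (nat_lit 161) r0_338 r5_161 (nat_lit 0) (nat_lit 0) (nat_lit 0) (nat_lit 0x7ffdbe706) (nat_lit 1074053224),
  Rx.mk (nat_lit 127) (nat_lit 7) (nat_lit 7) (nat_lit 1) (nat_lit 7) (nat_lit 339) (nat_lit 163) r0_339 r5_163 (nat_lit 0) (nat_lit 0) (nat_lit 0) (nat_lit 0x801989bc0) (nat_lit 1072271724),
  Rx.mk (nat_lit 228) (nat_lit 4) (nat_lit 4) (nat_lit 3) (nat_lit 4) (nat_lit 340) (nat_lit 154) r0_340 r5_154 (nat_lit 98422675) (nat_lit 281567) (nat_lit 0) (nat_lit 0x7f7c07604) (nat_lit 1181102766),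
  Rx.mk (nat_lit 236) (nat_lit 4) (nat_lit 5) (nat_lit 3) (nat_lit 6) (nat_lit 341) (nat_lit 157) r0_341 r5_157 (nat_lit 1226898) (nat_lit 0) (nat_lit 0) (nat_lit 0x7f8055c9c) (nat_lit 1083371622)]
noncomputable def e22_6 : List Rx := [
  Rx.mk (nat_lit 59) (nat_lit 3) (nat_lit 7) (nat_lit 0) (nat_lit 3) (nat_lit 48) (nat_lit 95) r0_48 r3_95 (nat_lit 0) (nat_lit 0) (nat_lit 2538) (nat_lit 0x7f0d94852) (nat_lit 1089533662),
  Rx.mk (nat_lit 231) (nat_lit 7) (nat_lit 4) (nat_lit 3) (nat_lit 5) (nat_lit 49) (nat_lit 93) r0_49 r3_93 (nat_lit 0) (nat_lit 1675) (nat_lit 0) (nat_lit 0x7fff0f506) (nat_lit 1073805999),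
  Rx.mk (nat_lit 251) (nat_lit 3) (nat_lit 7) (nat_lit 3) (nat_lit 7) (nat_lit 51) (nat_lit 96) r0_51 r3_96 (nat_lit 0) (nat_lit 0) (nat_lit 0) (nat_lit 0x7e28e0986) (nat_lit 1104512624),
  Rx.mk (nat_lit 255) (nat_lit 7) (nat_lit 7) (nat_lit 3) (nat_lit 7) (nat_lit 50) (nat_lit 94) r0_50 r3_94 (nat_lit 0) (nat_lit 0) (nat_lit 0) (nat_lit 0x7ff88c6a2) (nat_lit 1074376024),
  Rx.mk (nat_lit 484) (nat_lit 4) (nat_lit 4) (nat_lit 7) (nat_lit 4) (nat_lit 43) (nat_lit 91) r0_43 r3_91 (nat_lit 127) (nat_lit 41) (nat_lit 0) (nat_lit 0x810a42a4e) (nat_lit 1056923092),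
  Rx.mk (nat_lit 487) (nat_lit 7) (nat_lit 4) (nat_lit 7) (nat_lit 5) (nat_lit 46) (nat_lit 92) r0_46 r3_92 (nat_lit 0) (nat_lit 340766) (nat_lit 0) (nat_lit 0x7b6c883d0) (nat_lit 1150435990),
  Rx.mk (nat_lit 500) (nat_lit 4) (nat_lit 6) (nat_lit 7) (nat_lit 6) (nat_lit 44) (nat_lit 97) r0_44 r3_97 (nat_lit 57402) (nat_lit 0) (nat_lit 0) (nat_lit 0x72280bbe8) (nat_lit 1304618126),
  Rx.mk (nat_lit 502) (nat_lit 6) (nat_lit 6) (nat_lit 7) (nat_lit 7) (nat_lit 45) (nat_lit 99) r0_45 r3_99 (nat_lit 0) (nat_lit 0) (nat_lit 0) (nat_lit 0x7e9e55ea0) (nat_lit 1096868324),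
  Rx.mk (nat_lit 503) (nat_lit 7) (nat_lit 6) (nat_lit 7) (nat_lit 7) (nat_lit 47) (nat_lit 98) r0_47 r3_98 (nat_lit 0) (nat_lit 0) (nat_lit 0) (nat_lit 0x805080ac0) (nat_lit 1068781124)]
noncomputable def e22_7 : List Rx := [
  Rx.mk (nat_lit 308) (nat_lit 4) (nat_lit 6) (nat_lit 4) (nat_lit 2) (nat_lit 91) (nat_lit 94) r0_91 r0_94 (nat_lit 349268526) (nat_lit 0) (nat_lit 2281841) (nat_lit 0x695e6d546) (nat_lit 1802695991),
  Rx.mk (nat_lit 310) (nat_lit 6) (nat_lit 6) (nat_lit 4) (nat_lit 3) (nat_lit 92) (nat_lit 97) r0_92 r0_97 (nat_lit 0) (nat_lit 0) (nat_lit 7696512) (nat_lit 0x757aa5982) (nat_lit 1256938536),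
  Rx.mk (nat_lit 438) (nat_lit 6) (nat_lit 6) (nat_lit 6) (nat_lit 7) (nat_lit 93) (nat_lit 99) r0_93 r0_99 (nat_lit 0) (nat_lit 0) (nat_lit 0) (nat_lit 0x7ff4b5254) (nat_lit 1074633224),
  Rx.mk (nat_lit 484) (nat_lit 4) (nat_lit 4) (nat_lit 7) (nat_lit 4) (nat_lit 94) (nat_lit 91) r0_94 r0_91 (nat_lit 349268526) (nat_lit 2281841) (nat_lit 0) (nat_lit 0x695e6d546) (nat_lit 1802695991),
  Rx.mk (nat_lit 487) (nat_lit 7) (nat_lit 4) (nat_lit 7) (nat_lit 5) (nat_lit 97) (nat_lit 92) r0_97 r0_92 (nat_lit 0) (nat_lit 7696512) (nat_lit 0) (nat_lit 0x757aa5982) (nat_lit 1256938536),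
  Rx.mk (nat_lit 500) (nat_lit 4) (nat_lit 6) (nat_lit 7) (nat_lit 6) (nat_lit 95) (nat_lit 95) r0_95 r0_95 (nat_lit 83723171) (nat_lit 0) (nat_lit 0) (nat_lit 0x7fded129e) (nat_lit 1159762995),
  Rx.mk (nat_lit 502) (nat_lit 6) (nat_lit 6) (nat_lit 7) (nat_lit 7) (nat_lit 96) (nat_lit 98) r0_96 r0_98 (nat_lit 0) (nat_lit 0) (nat_lit 0) (nat_lit 0x800b21baa) (nat_lit 1073194924),
  Rx.mk (nat_lit 503) (nat_lit 7) (nat_lit 6) (nat_lit 7) (nat_lit 7) (nat_lit 98) (nat_lit 96) r0_98 r0_96 (nat_lit 0) (nat_lit 0) (nat_lit 0) (nat_lit 0x800b21baa) (nat_lit 1073194924),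
  Rx.mk (nat_lit 511) (nat_lit 7) (nat_lit 7) (nat_lit 7) (nat_lit 7) (nat_lit 99) (nat_lit 93) r0_99 r0_93 (nat_lit 0) (nat_lit 0) (nat_lit 0) (nat_lit 0x7ff4b5254) (nat_lit 1074633224)]
noncomputable def e22_8 : List Rx := [
  Rx.mk (nat_lit 292) (nat_lit 4) (nat_lit 4) (nat_lit 4) (nat_lit 0) (nat_lit 111) (nat_lit 94) r0_111 r1_94 (nat_lit 313883956) (nat_lit 809) (nat_lit 792) (nat_lit 0x800043b20) (nat_lit 1387611081),
  Rx.mk (nat_lit 308) (nat_lit 4) (nat_lit 6) (nat_lit 4) (nat_lit 2) (nat_lit 112) (nat_lit 99) r0_112 r1_99 (nat_lit 134380886) (nat_lit 0) (nat_lit 2995413) (nat_lit 0x6f8aae7a8) (nat_lit 1485611623),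
  Rx.mk (nat_lit 310) (nat_lit 6) (nat_lit 6) (nat_lit 4) (nat_lit 3) (nat_lit 113) (nat_lit 103) r0_113 r1_103 (nat_lit 0) (nat_lit 0) (nat_lit 4066432) (nat_lit 0x79ca131dc) (nat_lit 1181450656),
  Rx.mk (nat_lit 356) (nat_lit 4) (nat_lit 4) (nat_lit 5) (nat_lit 4) (nat_lit 114) (nat_lit 95) r0_114 r1_95 (nat_lit 389289256) (nat_lit 5229139) (nat_lit 0) (nat_lit 0x7f6d76162) (nat_lit 1477906119),
  Rx.mk (nat_lit 372) (nat_lit 4) (nat_lit 6) (nat_lit 5) (nat_lit 6) (nat_lit 115) (nat_lit 100) r0_115 r1_100 (nat_lit 9520156) (nat_lit 0) (nat_lit 0) (nat_lit 0x7fd237c40) (nat_lit 1086376280),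
  Rx.mk (nat_lit 374) (nat_lit 6) (nat_lit 6) (nat_lit 5) (nat_lit 7) (nat_lit 116) (nat_lit 104) r0_116 r1_104 (nat_lit 0) (nat_lit 0) (nat_lit 0) (nat_lit 0x80029938e) (nat_lit 1073741824),
  Rx.mk (nat_lit 438) (nat_lit 6) (nat_lit 6) (nat_lit 6) (nat_lit 7) (nat_lit 117) (nat_lit 106) r0_117 r1_106 (nat_lit 0) (nat_lit 0) (nat_lit 0) (nat_lit 0x80029938e) (nat_lit 1073741824),
  Rx.mk (nat_lit 484) (nat_lit 4) (nat_lit 4) (nat_lit 7) (nat_lit 4) (nat_lit 118) (nat_lit 96) r0_118 r1_96 (nat_lit 244546135) (nat_lit 13308373) (nat_lit 0) (nat_lit 0x7f7cf93a0) (nat_lit 1340240332),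
  Rx.mk (nat_lit 487) (nat_lit 7) (nat_lit 4) (nat_lit 7) (nat_lit 5) (nat_lit 121) (nat_lit 97) r0_121 r1_97 (nat_lit 0) (nat_lit 4762754) (nat_lit 0) (nat_lit 0x7fefdf6ee) (nat_lit 1079707178),
  Rx.mk (nat_lit 500) (nat_lit 4) (nat_lit 6) (nat_lit 7) (nat_lit 6) (nat_lit 119) (nat_lit 101) r0_119 r1_101 (nat_lit 7910044) (nat_lit 0) (nat_lit 0) (nat_lit 0x80340856e) (nat_lit 1078489268),
  Rx.mk (nat_lit 502) (nat_lit 6) (nat_lit 6) (nat_lit 7) (nat_lit 7) (nat_lit 120) (nat_lit 105) r0_120 r1_105 (nat_lit 0) (nat_lit 0) (nat_lit 0) (nat_lit 0x80029938e) (nat_lit 1073741824),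
  Rx.mk (nat_lit 503) (nat_lit 7) (nat_lit 6) (nat_lit 7) (nat_lit 7) (nat_lit 122) (nat_lit 102) r0_122 r1_102 (nat_lit 0) (nat_lit 0) (nat_lit 0) (nat_lit 0x80029938e) (nat_lit 1073741824),
  Rx.mk (nat_lit 511) (nat_lit 7) (nat_lit 7) (nat_lit 7) (nat_lit 7) (nat_lit 123) (nat_lit 98) r0_123 r1_98 (nat_lit 0) (nat_lit 0) (nat_lit 0) (nat_lit 0x80029938e) (nat_lit 1073741824)]
noncomputable def e22_9 : List Rx := [
  Rx.mk (nat_lit 484) (nat_lit 4) (nat_lit 4) (nat_lit 7) (nat_lit 4) (nat_lit 142) (nat_lit 93) r0_142 r4_93 (nat_lit 274678991) (nat_lit 141544) (nat_lit 0) (nat_lit 0x64b4664b6) (nat_lit 1803687759),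
  Rx.mk (nat_lit 487) (nat_lit 7) (nat_lit 4) (nat_lit 7) (nat_lit 5) (nat_lit 145) (nat_lit 94) r0_145 r4_94 (nat_lit 0) (nat_lit 3066219) (nat_lit 0) (nat_lit 0x7fc1695a8) (nat_lit 1081005143),
  Rx.mk (nat_lit 500) (nat_lit 4) (nat_lit 6) (nat_lit 7) (nat_lit 6) (nat_lit 143) (nat_lit 95) r0_143 r4_95 (nat_lit 78264559) (nat_lit 0) (nat_lit 0) (nat_lit 0x80209c4da) (nat_lit 1150066883),
  Rx.mk (nat_lit 502) (nat_lit 6) (nat_lit 6) (nat_lit 7) (nat_lit 7) (nat_lit 144) (nat_lit 97) r0_144 r4_97 (nat_lit 0) (nat_lit 0) (nat_lit 0) (nat_lit 0x8017d8204) (nat_lit 1072380824),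
  Rx.mk (nat_lit 503) (nat_lit 7) (nat_lit 6) (nat_lit 7) (nat_lit 7) (nat_lit 146) (nat_lit 96) r0_146 r4_96 (nat_lit 0) (nat_lit 0) (nat_lit 0) (nat_lit 0x80388f0ce) (nat_lit 1070293424)]
noncomputable def e22_10 : List Rx := [
  Rx.mk (nat_lit 39) (nat_lit 7) (nat_lit 4) (nat_lit 0) (nat_lit 1) (nat_lit 228) (nat_lit 173) r0_228 r6_173 (nat_lit 0) (nat_lit 21443) (nat_lit 21155) (nat_lit 0x655f25c44) (nat_lit 1517763922),
  Rx.mk (nat_lit 47) (nat_lit 7) (nat_lit 5) (nat_lit 0) (nat_lit 3) (nat_lit 229) (nat_lit 175) r0_229 r6_175 (nat_lit 0) (nat_lit 0) (nat_lit 473428) (nat_lit 0x8f3b0df94) (nat_lit 827965152),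
  Rx.mk (nat_lit 59) (nat_lit 3) (nat_lit 7) (nat_lit 0) (nat_lit 3) (nat_lit 231) (nat_lit 170) r0_231 r6_170 (nat_lit 0) (nat_lit 0) (nat_lit 1581921) (nat_lit 0x7e87497a2) (nat_lit 1099940645),
  Rx.mk (nat_lit 63) (nat_lit 7) (nat_lit 7) (nat_lit 0) (nat_lit 3) (nat_lit 230) (nat_lit 177) r0_230 r6_177 (nat_lit 0) (nat_lit 0) (nat_lit 2346346) (nat_lit 0x7a9228b7c) (nat_lit 1166687270),
  Rx.mk (nat_lit 228) (nat_lit 4) (nat_lit 4) (nat_lit 3) (nat_lit 4) (nat_lit 232) (nat_lit 171) r0_232 r6_171 (nat_lit 73687) (nat_lit 56818) (nat_lit 0) (nat_lit 0x686f2bb72) (nat_lit 1466800329),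
  Rx.mk (nat_lit 231) (nat_lit 7) (nat_lit 4) (nat_lit 3) (nat_lit 5) (nat_lit 234) (nat_lit 174) r0_234 r6_174 (nat_lit 0) (nat_lit 2085900) (nat_lit 0) (nat_lit 0x80175fe9e) (nat_lit 1074492124),
  Rx.mk (nat_lit 236) (nat_lit 4) (nat_lit 5) (nat_lit 3) (nat_lit 6) (nat_lit 233) (nat_lit 172) r0_233 r6_172 (nat_lit 94559) (nat_lit 0) (nat_lit 0) (nat_lit 0x9073beac2) (nat_lit 807812083),
  Rx.mk (nat_lit 239) (nat_lit 7) (nat_lit 5) (nat_lit 3) (nat_lit 7) (nat_lit 235) (nat_lit 176) r0_235 r6_176 (nat_lit 0) (nat_lit 0) (nat_lit 0) (nat_lit 0x90cc616de) (nat_lit 802175124)]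
noncomputable def e22_11 : List Rx := [
  Rx.mk (nat_lit 59) (nat_lit 3) (nat_lit 7) (nat_lit 0) (nat_lit 3) (nat_lit 208) (nat_lit 99) r0_208 r5_99 (nat_lit 0) (nat_lit 0) (nat_lit 2561812) (nat_lit 0x7ef938278) (nat_lit 1093505936),
  Rx.mk (nat_lit 63) (nat_lit 7) (nat_lit 7) (nat_lit 0) (nat_lit 3) (nat_lit 207) (nat_lit 97) r0_207 r5_97 (nat_lit 0) (nat_lit 0) (nat_lit 1787242) (nat_lit 0x66db20c6c) (nat_lit 1494829666),
  Rx.mk (nat_lit 228) (nat_lit 4) (nat_lit 4) (nat_lit 3) (nat_lit 4) (nat_lit 209) (nat_lit 95) r0_209 r5_95 (nat_lit 2303) (nat_lit 1820) (nat_lit 0) (nat_lit 0x7ff2f8664) (nat_lit 1074595147),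
  Rx.mk (nat_lit 231) (nat_lit 7) (nat_lit 4) (nat_lit 3) (nat_lit 5) (nat_lit 210) (nat_lit 96) r0_210 r5_96 (nat_lit 0) (nat_lit 1204429) (nat_lit 0) (nat_lit 0x804cfd8c6) (nat_lit 1070187653),
  Rx.mk (nat_lit 255) (nat_lit 7) (nat_lit 7) (nat_lit 3) (nat_lit 7) (nat_lit 211) (nat_lit 98) r0_211 r5_98 (nat_lit 0) (nat_lit 0) (nat_lit 0) (nat_lit 0x800cf614c) (nat_lit 1073076224),
  Rx.mk (nat_lit 484) (nat_lit 4) (nat_lit 4) (nat_lit 7) (nat_lit 4) (nat_lit 204) (nat_lit 94) r0_204 r5_94 (nat_lit 34408194) (nat_lit 42213) (nat_lit 0) (nat_lit 0x8000d80ea) (nat_lit 1108162531),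
  Rx.mk (nat_lit 500) (nat_lit 4) (nat_lit 6) (nat_lit 7) (nat_lit 6) (nat_lit 205) (nat_lit 100) r0_205 r5_100 (nat_lit 275203489) (nat_lit 0) (nat_lit 0) (nat_lit 0x7ef968536) (nat_lit 1366143013),
  Rx.mk (nat_lit 502) (nat_lit 6) (nat_lit 6) (nat_lit 7) (nat_lit 7) (nat_lit 206) (nat_lit 101) r0_206 r5_101 (nat_lit 0) (nat_lit 0) (nat_lit 0) (nat_lit 0x7fca9da02) (nat_lit 1077344524)]
noncomputable def e22_12 : List Rx := [
  Rx.mk (nat_lit 45) (nat_lit 5) (nat_lit 5) (nat_lit 0) (nat_lit 3) (nat_lit 243) (nat_lit 243) r0_243 r0_243 (nat_lit 0) (nat_lit 0) (nat_lit 736921767) (nat_lit 0x81ec2d8dc) (nat_lit 1779574791),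
  Rx.mk (nat_lit 100) (nat_lit 4) (nat_lit 4) (nat_lit 1) (nat_lit 4) (nat_lit 244) (nat_lit 244) r0_244 r0_244 (nat_lit 52004105) (nat_lit 52004105) (nat_lit 0) (nat_lit 0x672fac010) (nat_lit 1591547034),
  Rx.mk (nat_lit 101) (nat_lit 5) (nat_lit 4) (nat_lit 1) (nat_lit 5) (nat_lit 246) (nat_lit 245) r0_246 r0_245 (nat_lit 0) (nat_lit 3572987) (nat_lit 0) (nat_lit 0x786934ede) (nat_lit 1203930011),
  Rx.mk (nat_lit 108) (nat_lit 4) (nat_lit 5) (nat_lit 1) (nat_lit 6) (nat_lit 245) (nat_lit 246) r0_245 r0_246 (nat_lit 3572987) (nat_lit 0) (nat_lit 0) (nat_lit 0x786934ede) (nat_lit 1203930011),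
  Rx.mk (nat_lit 109) (nat_lit 5) (nat_lit 5) (nat_lit 1) (nat_lit 7) (nat_lit 247) (nat_lit 247) r0_247 r0_247 (nat_lit 0) (nat_lit 0) (nat_lit 0) (nat_lit 0x7fbc5bdb8) (nat_lit 1078269524)]
noncomputable def e22_13 : List Rx := [
  Rx.mk (nat_lit 100) (nat_lit 4) (nat_lit 4) (nat_lit 1) (nat_lit 4) (nat_lit 250) (nat_lit 217) r0_250 r7_217 (nat_lit 64066468) (nat_lit 3589306) (nat_lit 0) (nat_lit 0x638142464) (nat_lit 1616568698),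
  Rx.mk (nat_lit 101) (nat_lit 5) (nat_lit 4) (nat_lit 1) (nat_lit 5) (nat_lit 252) (nat_lit 219) r0_252 r7_219 (nat_lit 0) (nat_lit 6173437) (nat_lit 0) (nat_lit 0x7b5c8dc0a) (nat_lit 1157338461),
  Rx.mk (nat_lit 108) (nat_lit 4) (nat_lit 5) (nat_lit 1) (nat_lit 6) (nat_lit 251) (nat_lit 218) r0_251 r7_218 (nat_lit 5828588) (nat_lit 0) (nat_lit 0) (nat_lit 0x7fe5c8fd4) (nat_lit 1081422912),
  Rx.mk (nat_lit 109) (nat_lit 5) (nat_lit 5) (nat_lit 1) (nat_lit 7) (nat_lit 253) (nat_lit 220) r0_253 r7_220 (nat_lit 0) (nat_lit 0) (nat_lit 0) (nat_lit 0x8018342e8) (nat_lit 1072357724)]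
noncomputable def e22_14 : List Rx := [
  Rx.mk (nat_lit 45) (nat_lit 5) (nat_lit 5) (nat_lit 0) (nat_lit 3) (nat_lit 282) (nat_lit 252) r0_282 r1_252 (nat_lit 0) (nat_lit 0) (nat_lit 821343463) (nat_lit 0x7fffe9b52) (nat_lit 1895092387),
  Rx.mk (nat_lit 101) (nat_lit 5) (nat_lit 4) (nat_lit 1) (nat_lit 5) (nat_lit 283) (nat_lit 253) r0_283 r1_253 (nat_lit 0) (nat_lit 4606623) (nat_lit 0) (nat_lit 0x7ce19384a) (nat_lit 1130436347),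
  Rx.mk (nat_lit 109) (nat_lit 5) (nat_lit 5) (nat_lit 1) (nat_lit 7) (nat_lit 284) (nat_lit 254) r0_284 r1_254 (nat_lit 0) (nat_lit 0) (nat_lit 0) (nat_lit 0x7fab68344) (nat_lit 1079366724)]
noncomputable def e22_15 : List Rx := [
  Rx.mk (nat_lit 101) (nat_lit 5) (nat_lit 4) (nat_lit 1) (nat_lit 5) (nat_lit 289) (nat_lit 178) r0_289 r8_178 (nat_lit 0) (nat_lit 6119961) (nat_lit 0) (nat_lit 0x72392b252) (nat_lit 1309645085),
  Rx.mk (nat_lit 109) (nat_lit 5) (nat_lit 5) (nat_lit 1) (nat_lit 7) (nat_lit 290) (nat_lit 179) r0_290 r8_179 (nat_lit 0) (nat_lit 0) (nat_lit 0) (nat_lit 0x7ff99ecac) (nat_lit 1074318024)]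
noncomputable def e22_16 : List Rx := [
  Rx.mk (nat_lit 100) (nat_lit 4) (nat_lit 4) (nat_lit 1) (nat_lit 4) (nat_lit 278) (nat_lit 237) r0_278 r8_237 (nat_lit 8414272) (nat_lit 3003976) (nat_lit 0) (nat_lit 0x59cd441c8) (nat_lit 1722113272),
  Rx.mk (nat_lit 101) (nat_lit 5) (nat_lit 4) (nat_lit 1) (nat_lit 5) (nat_lit 280) (nat_lit 238) r0_280 r8_238 (nat_lit 0) (nat_lit 5951502) (nat_lit 0) (nat_lit 0x73924f6f2) (nat_lit 1286998026),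
  Rx.mk (nat_lit 108) (nat_lit 4) (nat_lit 5) (nat_lit 1) (nat_lit 6) (nat_lit 279) (nat_lit 239) r0_279 r8_239 (nat_lit 5449534) (nat_lit 0) (nat_lit 0) (nat_lit 0x7f7c3426c) (nat_lit 1087884558),
  Rx.mk (nat_lit 109) (nat_lit 5) (nat_lit 5) (nat_lit 1) (nat_lit 7) (nat_lit 281) (nat_lit 240) r0_281 r8_240 (nat_lit 0) (nat_lit 0) (nat_lit 0) (nat_lit 0x800f47324) (nat_lit 1072928224),
  Rx.mk (nat_lit 356) (nat_lit 4) (nat_lit 4) (nat_lit 5) (nat_lit 4) (nat_lit 271) (nat_lit 230) r0_271 r8_230 (nat_lit 7556884) (nat_lit 10233960) (nat_lit 0) (nat_lit 0x4f43b3c9c) (nat_lit 1904185068),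
  Rx.mk (nat_lit 357) (nat_lit 5) (nat_lit 4) (nat_lit 5) (nat_lit 5) (nat_lit 274) (nat_lit 231) r0_274 r8_231 (nat_lit 0) (nat_lit 7503020) (nat_lit 0) (nat_lit 0x6d6ab5fac) (nat_lit 1391167544),
  Rx.mk (nat_lit 364) (nat_lit 4) (nat_lit 5) (nat_lit 5) (nat_lit 6) (nat_lit 272) (nat_lit 232) r0_272 r8_232 (nat_lit 7909290) (nat_lit 0) (nat_lit 0) (nat_lit 0x7a5a2401e) (nat_lit 1175906214),
  Rx.mk (nat_lit 365) (nat_lit 5) (nat_lit 5) (nat_lit 5) (nat_lit 7) (nat_lit 275) (nat_lit 233) r0_275 r8_233 (nat_lit 0) (nat_lit 0) (nat_lit 0) (nat_lit 0x7fcefe272) (nat_lit 1077071724),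
  Rx.mk (nat_lit 372) (nat_lit 4) (nat_lit 6) (nat_lit 5) (nat_lit 6) (nat_lit 273) (nat_lit 234) r0_273 r8_234 (nat_lit 6684980) (nat_lit 0) (nat_lit 0) (nat_lit 0x7f181fd94) (nat_lit 1095629604),
  Rx.mk (nat_lit 373) (nat_lit 5) (nat_lit 6) (nat_lit 5) (nat_lit 7) (nat_lit 276) (nat_lit 235) r0_276 r8_235 (nat_lit 0) (nat_lit 0) (nat_lit 0) (nat_lit 0x80001f996) (nat_lit 1073900524),
  Rx.mk (nat_lit 374) (nat_lit 6) (nat_lit 6) (nat_lit 5) (nat_lit 7) (nat_lit 277) (nat_lit 236) r0_277 r8_236 (nat_lit 0) (nat_lit 0) (nat_lit 0) (nat_lit 0x80029938e) (nat_lit 1073741824)]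
noncomputable def e22_17 : List Rx := [
  Rx.mk (nat_lit 356) (nat_lit 4) (nat_lit 4) (nat_lit 5) (nat_lit 4) (nat_lit 257) (nat_lit 155) r0_257 r9_155 (nat_lit 6905727) (nat_lit 14069634) (nat_lit 0) (nat_lit 0x4c6cacf20) (nat_lit 1954719885),
  Rx.mk (nat_lit 357) (nat_lit 5) (nat_lit 4) (nat_lit 5) (nat_lit 5) (nat_lit 259) (nat_lit 157) r0_259 r9_157 (nat_lit 0) (nat_lit 6147522) (nat_lit 0) (nat_lit 0x74233b2ba) (nat_lit 1277762346),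
  Rx.mk (nat_lit 372) (nat_lit 4) (nat_lit 6) (nat_lit 5) (nat_lit 6) (nat_lit 258) (nat_lit 156) r0_258 r9_156 (nat_lit 5858494) (nat_lit 0) (nat_lit 0) (nat_lit 0x7eeecaa20) (nat_lit 1097492218),
  Rx.mk (nat_lit 373) (nat_lit 5) (nat_lit 6) (nat_lit 5) (nat_lit 7) (nat_lit 260) (nat_lit 158) r0_260 r9_158 (nat_lit 0) (nat_lit 0) (nat_lit 0) (nat_lit 0x80003986e) (nat_lit 1073894024),
  Rx.mk (nat_lit 374) (nat_lit 6) (nat_lit 6) (nat_lit 5) (nat_lit 7) (nat_lit 261) (nat_lit 159) r0_261 r9_159 (nat_lit 0) (nat_lit 0) (nat_lit 0) (nat_lit 0x80029938e) (nat_lit 1073741824)]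
noncomputable def e22_18 : List Rx := [
  Rx.mk (nat_lit 44) (nat_lit 4) (nat_lit 5) (nat_lit 0) (nat_lit 2) (nat_lit 306) (nat_lit 253) r0_306 r4_253 (nat_lit 2254859) (nat_lit 0) (nat_lit 109994147) (nat_lit 0x721a33c50) (nat_lit 1417787930),
  Rx.mk (nat_lit 45) (nat_lit 5) (nat_lit 5) (nat_lit 0) (nat_lit 3) (nat_lit 307) (nat_lit 254) r0_307 r4_254 (nat_lit 0) (nat_lit 0) (nat_lit 456084292) (nat_lit 0x7d9d80ab2) (nat_lit 1569623716),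
  Rx.mk (nat_lit 47) (nat_lit 7) (nat_lit 5) (nat_lit 0) (nat_lit 3) (nat_lit 308) (nat_lit 255) r0_308 r4_255 (nat_lit 0) (nat_lit 0) (nat_lit 7949593) (nat_lit 0x7febedd10) (nat_lit 1083145917),
  Rx.mk (nat_lit 100) (nat_lit 4) (nat_lit 4) (nat_lit 1) (nat_lit 4) (nat_lit 309) (nat_lit 256) r0_309 r4_256 (nat_lit 89716582) (nat_lit 8118484) (nat_lit 0) (nat_lit 0x6a154d77a) (nat_lit 1537072690),
  Rx.mk (nat_lit 101) (nat_lit 5) (nat_lit 4) (nat_lit 1) (nat_lit 5) (nat_lit 311) (nat_lit 257) r0_311 r4_257 (nat_lit 0) (nat_lit 6336730) (nat_lit 0) (nat_lit 0x7fe202792) (nat_lit 1082176554),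
  Rx.mk (nat_lit 103) (nat_lit 7) (nat_lit 4) (nat_lit 1) (nat_lit 5) (nat_lit 313) (nat_lit 258) r0_313 r4_258 (nat_lit 0) (nat_lit 3644892) (nat_lit 0) (nat_lit 0x7fe25d200) (nat_lit 1079457116),
  Rx.mk (nat_lit 108) (nat_lit 4) (nat_lit 5) (nat_lit 1) (nat_lit 6) (nat_lit 310) (nat_lit 259) r0_310 r4_259 (nat_lit 5728860) (nat_lit 0) (nat_lit 0) (nat_lit 0x7fd6649a8) (nat_lit 1082310884),
  Rx.mk (nat_lit 109) (nat_lit 5) (nat_lit 5) (nat_lit 1) (nat_lit 7) (nat_lit 312) (nat_lit 260) r0_312 r4_260 (nat_lit 0) (nat_lit 0) (nat_lit 0) (nat_lit 0x8029d9714) (nat_lit 1071230724),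
  Rx.mk (nat_lit 111) (nat_lit 7) (nat_lit 5) (nat_lit 1) (nat_lit 7) (nat_lit 314) (nat_lit 261) r0_314 r4_261 (nat_lit 0) (nat_lit 0) (nat_lit 0) (nat_lit 0x800cb83c4) (nat_lit 1073092924)]
noncomputable def e22_19 : List Rx := [
  Rx.mk (nat_lit 100) (nat_lit 4) (nat_lit 4) (nat_lit 1) (nat_lit 4) (nat_lit 322) (nat_lit 166) r0_322 r10_166 (nat_lit 31804169) (nat_lit 2141139) (nat_lit 0) (nat_lit 0x67d4791ec) (nat_lit 1510741932),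
  Rx.mk (nat_lit 101) (nat_lit 5) (nat_lit 4) (nat_lit 1) (nat_lit 5) (nat_lit 324) (nat_lit 168) r0_324 r10_168 (nat_lit 0) (nat_lit 6250628) (nat_lit 0) (nat_lit 0x7fcba2f38) (nat_lit 1083536252),
  Rx.mk (nat_lit 103) (nat_lit 7) (nat_lit 4) (nat_lit 1) (nat_lit 5) (nat_lit 326) (nat_lit 170) r0_326 r10_170 (nat_lit 0) (nat_lit 5230327) (nat_lit 0) (nat_lit 0x7f655899e) (nat_lit 1089155351),
  Rx.mk (nat_lit 108) (nat_lit 4) (nat_lit 5) (nat_lit 1) (nat_lit 6) (nat_lit 323) (nat_lit 167) r0_323 r10_167 (nat_lit 6626663) (nat_lit 0) (nat_lit 0) (nat_lit 0x7fd2b1cde) (nat_lit 1083457587),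
  Rx.mk (nat_lit 109) (nat_lit 5) (nat_lit 5) (nat_lit 1) (nat_lit 7) (nat_lit 325) (nat_lit 169) r0_325 r10_169 (nat_lit 0) (nat_lit 0) (nat_lit 0) (nat_lit 0x80131f6b8) (nat_lit 1072683424),
  Rx.mk (nat_lit 111) (nat_lit 7) (nat_lit 5) (nat_lit 1) (nat_lit 7) (nat_lit 327) (nat_lit 171) r0_327 r10_171 (nat_lit 0) (nat_lit 0) (nat_lit 0) (nat_lit 0x80029938e) (nat_lit 1073741824)]
noncomputable def e22_20 : List Rx := [
  Rx.mk (nat_lit 36) (nat_lit 4) (nat_lit 4) (nat_lit 0) (nat_lit 0) (nat_lit 342) (nat_lit 165) r0_342 r11_165 (nat_lit 18458944) (nat_lit 10268755) (nat_lit 3852129) (nat_lit 0x51ec2bbde) (nat_lit 1874651452),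
  Rx.mk (nat_lit 37) (nat_lit 5) (nat_lit 4) (nat_lit 0) (nat_lit 1) (nat_lit 344) (nat_lit 171) r0_344 r11_171 (nat_lit 0) (nat_lit 7896501) (nat_lit 118564749) (nat_lit 0x78f0aaa94) (nat_lit 1317996874),
  Rx.mk (nat_lit 39) (nat_lit 7) (nat_lit 4) (nat_lit 0) (nat_lit 1) (nat_lit 346) (nat_lit 177) r0_346 r11_177 (nat_lit 0) (nat_lit 8056051) (nat_lit 7452897) (nat_lit 0x7322e451a) (nat_lit 1303815772),
  Rx.mk (nat_lit 44) (nat_lit 4) (nat_lit 5) (nat_lit 0) (nat_lit 2) (nat_lit 343) (nat_lit 168) r0_343 r11_168 (nat_lit 7934940) (nat_lit 0) (nat_lit 194126458) (nat_lit 0x7dfec5c32) (nat_lit 1309321022),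
  Rx.mk (nat_lit 45) (nat_lit 5) (nat_lit 5) (nat_lit 0) (nat_lit 3) (nat_lit 345) (nat_lit 174) r0_345 r11_174 (nat_lit 0) (nat_lit 0) (nat_lit 172668765) (nat_lit 0x7f52725c8) (nat_lit 1257804589),
  Rx.mk (nat_lit 47) (nat_lit 7) (nat_lit 5) (nat_lit 0) (nat_lit 3) (nat_lit 347) (nat_lit 179) r0_347 r11_179 (nat_lit 0) (nat_lit 0) (nat_lit 5449534) (nat_lit 0x8024d3526) (nat_lit 1077000758),
  Rx.mk (nat_lit 63) (nat_lit 7) (nat_lit 7) (nat_lit 0) (nat_lit 3) (nat_lit 348) (nat_lit 181) r0_348 r11_181 (nat_lit 0) (nat_lit 0) (nat_lit 5449534) (nat_lit 0x7fd37cdd0) (nat_lit 1082223658),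
  Rx.mk (nat_lit 100) (nat_lit 4) (nat_lit 4) (nat_lit 1) (nat_lit 4) (nat_lit 349) (nat_lit 166) r0_349 r11_166 (nat_lit 249448811) (nat_lit 5119836) (nat_lit 0) (nat_lit 0x7cd98d3b2) (nat_lit 1380926471),
  Rx.mk (nat_lit 101) (nat_lit 5) (nat_lit 4) (nat_lit 1) (nat_lit 5) (nat_lit 351) (nat_lit 172) r0_351 r11_172 (nat_lit 0) (nat_lit 5449534) (nat_lit 0) (nat_lit 0x80029938e) (nat_lit 1079191358),
  Rx.mk (nat_lit 103) (nat_lit 7) (nat_lit 4) (nat_lit 1) (nat_lit 5) (nat_lit 353) (nat_lit 178) r0_353 r11_178 (nat_lit 0) (nat_lit 4354585) (nat_lit 0) (nat_lit 0x800b09e74) (nat_lit 1077554409),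
  Rx.mk (nat_lit 108) (nat_lit 4) (nat_lit 5) (nat_lit 1) (nat_lit 6) (nat_lit 350) (nat_lit 169) r0_350 r11_169 (nat_lit 5782474) (nat_lit 0) (nat_lit 0) (nat_lit 0x7ffaf2f18) (nat_lit 1080015398),
  Rx.mk (nat_lit 109) (nat_lit 5) (nat_lit 5) (nat_lit 1) (nat_lit 7) (nat_lit 352) (nat_lit 175) r0_352 r11_175 (nat_lit 0) (nat_lit 0) (nat_lit 0) (nat_lit 0x800c523a8) (nat_lit 1073118624),
  Rx.mk (nat_lit 111) (nat_lit 7) (nat_lit 5) (nat_lit 1) (nat_lit 7) (nat_lit 354) (nat_lit 180) r0_354 r11_180 (nat_lit 0) (nat_lit 0) (nat_lit 0) (nat_lit 0x80029938e) (nat_lit 1073741824),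
  Rx.mk (nat_lit 127) (nat_lit 7) (nat_lit 7) (nat_lit 1) (nat_lit 7) (nat_lit 355) (nat_lit 182) r0_355 r11_182 (nat_lit 0) (nat_lit 0) (nat_lit 0) (nat_lit 0x800d18918) (nat_lit 1073068624),
  Rx.mk (nat_lit 228) (nat_lit 4) (nat_lit 4) (nat_lit 3) (nat_lit 4) (nat_lit 356) (nat_lit 167) r0_356 r11_167 (nat_lit 9822470) (nat_lit 9822470) (nat_lit 0) (nat_lit 0x7f9211c88) (nat_lit 1100657964),
  Rx.mk (nat_lit 229) (nat_lit 5) (nat_lit 4) (nat_lit 3) (nat_lit 5) (nat_lit 358) (nat_lit 173) r0_358 r11_173 (nat_lit 0) (nat_lit 4288788) (nat_lit 0) (nat_lit 0x801061ba6) (nat_lit 1077145012),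
  Rx.mk (nat_lit 236) (nat_lit 4) (nat_lit 5) (nat_lit 3) (nat_lit 6) (nat_lit 357) (nat_lit 170) r0_357 r11_170 (nat_lit 3096735) (nat_lit 0) (nat_lit 0) (nat_lit 0x80342c6c6) (nat_lit 1073669459),
  Rx.mk (nat_lit 237) (nat_lit 5) (nat_lit 5) (nat_lit 3) (nat_lit 7) (nat_lit 359) (nat_lit 176) r0_359 r11_176 (nat_lit 0) (nat_lit 0) (nat_lit 0) (nat_lit 0x80b7bae20) (nat_lit 1062234024)]
noncomputable def e22_21 : List Rx := [
  Rx.mk (nat_lit 356) (nat_lit 4) (nat_lit 4) (nat_lit 5) (nat_lit 4) (nat_lit 262) (nat_lit 65) r0_262 r9_65 (nat_lit 33337572) (nat_lit 10235647) (nat_lit 0) (nat_lit 0x56d0f2f2a) (nat_lit 1804056343),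
  Rx.mk (nat_lit 372) (nat_lit 4) (nat_lit 6) (nat_lit 5) (nat_lit 6) (nat_lit 263) (nat_lit 66) r0_263 r9_66 (nat_lit 7516292) (nat_lit 0) (nat_lit 0) (nat_lit 0x7ed45a2a8) (nat_lit 1100866916),
  Rx.mk (nat_lit 374) (nat_lit 6) (nat_lit 6) (nat_lit 5) (nat_lit 7) (nat_lit 264) (nat_lit 67) r0_264 r9_67 (nat_lit 0) (nat_lit 0) (nat_lit 0) (nat_lit 0x7fff5bfe6) (nat_lit 1073949524)]
noncomputable def e22_22 : List Rx := [
  Rx.mk (nat_lit 27) (nat_lit 3) (nat_lit 3) (nat_lit 0) (nat_lit 3) (nat_lit 10) (nat_lit 0) r0_10 r0_0 (nat_lit 0) (nat_lit 0) (nat_lit 5395) (nat_lit 0x6944b7408) (nat_lit 1452752919),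
  Rx.mk (nat_lit 128) (nat_lit 0) (nat_lit 0) (nat_lit 2) (nat_lit 4) (nat_lit 11) (nat_lit 4) r0_11 r0_4 (nat_lit 405) (nat_lit 315) (nat_lit 0) (nat_lit 0x7ffff5812) (nat_lit 1073745444),
  Rx.mk (nat_lit 130) (nat_lit 2) (nat_lit 0) (nat_lit 2) (nat_lit 5) (nat_lit 13) (nat_lit 7) r0_13 r0_7 (nat_lit 0) (nat_lit 333) (nat_lit 0) (nat_lit 0x89448e60a) (nat_lit 923874657),
  Rx.mk (nat_lit 146) (nat_lit 2) (nat_lit 2) (nat_lit 2) (nat_lit 7) (nat_lit 14) (nat_lit 9) r0_14 r0_9 (nat_lit 0) (nat_lit 0) (nat_lit 0) (nat_lit 0x7f4d09abe) (nat_lit 1085496724),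
  Rx.mk (nat_lit 152) (nat_lit 0) (nat_lit 3) (nat_lit 2) (nat_lit 6) (nat_lit 12) (nat_lit 5) r0_12 r0_5 (nat_lit 1728051) (nat_lit 0) (nat_lit 0) (nat_lit 0x7394ef902) (nat_lit 1282594675),
  Rx.mk (nat_lit 154) (nat_lit 2) (nat_lit 3) (nat_lit 2) (nat_lit 7) (nat_lit 15) (nat_lit 8) r0_15 r0_8 (nat_lit 0) (nat_lit 0) (nat_lit 0) (nat_lit 0x7f59d35d8) (nat_lit 1084663224),
  Rx.mk (nat_lit 155) (nat_lit 3) (nat_lit 3) (nat_lit 2) (nat_lit 7) (nat_lit 16) (nat_lit 6) r0_16 r0_6 (nat_lit 0) (nat_lit 0) (nat_lit 0) (nat_lit 0x7fffee0a8) (nat_lit 1073746924),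
  Rx.mk (nat_lit 219) (nat_lit 3) (nat_lit 3) (nat_lit 3) (nat_lit 7) (nat_lit 19) (nat_lit 1) r0_19 r0_1 (nat_lit 0) (nat_lit 0) (nat_lit 0) (nat_lit 0x75d7e4c92) (nat_lit 1243130024),
  Rx.mk (nat_lit 251) (nat_lit 3) (nat_lit 7) (nat_lit 3) (nat_lit 7) (nat_lit 18) (nat_lit 2) r0_18 r0_2 (nat_lit 0) (nat_lit 0) (nat_lit 0) (nat_lit 0x72bc9c29e) (nat_lit 1294943824),
  Rx.mk (nat_lit 255) (nat_lit 7) (nat_lit 7) (nat_lit 3) (nat_lit 7) (nat_lit 17) (nat_lit 3) r0_17 r0_3 (nat_lit 0) (nat_lit 0) (nat_lit 0) (nat_lit 0x7faf4f9e4) (nat_lit 1079113724),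
  Rx.mk (nat_lit 310) (nat_lit 6) (nat_lit 6) (nat_lit 4) (nat_lit 3) (nat_lit 0) (nat_lit 10) r0_0 r0_10 (nat_lit 0) (nat_lit 0) (nat_lit 5395) (nat_lit 0x6944b7408) (nat_lit 1452752919),
  Rx.mk (nat_lit 402) (nat_lit 2) (nat_lit 2) (nat_lit 6) (nat_lit 7) (nat_lit 3) (nat_lit 17) r0_3 r0_17 (nat_lit 0) (nat_lit 0) (nat_lit 0) (nat_lit 0x7faf4f9e4) (nat_lit 1079113724),
  Rx.mk (nat_lit 406) (nat_lit 6) (nat_lit 2) (nat_lit 6) (nat_lit 7) (nat_lit 2) (nat_lit 18) r0_2 r0_18 (nat_lit 0) (nat_lit 0) (nat_lit 0) (nat_lit 0x72bc9c29e) (nat_lit 1294943824),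
  Rx.mk (nat_lit 438) (nat_lit 6) (nat_lit 6) (nat_lit 6) (nat_lit 7) (nat_lit 1) (nat_lit 19) r0_1 r0_19 (nat_lit 0) (nat_lit 0) (nat_lit 0) (nat_lit 0x75d7e4c92) (nat_lit 1243130024),
  Rx.mk (nat_lit 484) (nat_lit 4) (nat_lit 4) (nat_lit 7) (nat_lit 4) (nat_lit 4) (nat_lit 11) r0_4 r0_11 (nat_lit 405) (nat_lit 315) (nat_lit 0) (nat_lit 0x7ffff5812) (nat_lit 1073745444),
  Rx.mk (nat_lit 487) (nat_lit 7) (nat_lit 4) (nat_lit 7) (nat_lit 5) (nat_lit 7) (nat_lit 13) r0_7 r0_13 (nat_lit 0) (nat_lit 333) (nat_lit 0) (nat_lit 0x89448e60a) (nat_lit 923874657),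
  Rx.mk (nat_lit 500) (nat_lit 4) (nat_lit 6) (nat_lit 7) (nat_lit 6) (nat_lit 5) (nat_lit 12) r0_5 r0_12 (nat_lit 1728051) (nat_lit 0) (nat_lit 0) (nat_lit 0x7394ef902) (nat_lit 1282594675),
  Rx.mk (nat_lit 502) (nat_lit 6) (nat_lit 6) (nat_lit 7) (nat_lit 7) (nat_lit 6) (nat_lit 16) r0_6 r0_16 (nat_lit 0) (nat_lit 0) (nat_lit 0) (nat_lit 0x7fffee0a8) (nat_lit 1073746924),
  Rx.mk (nat_lit 503) (nat_lit 7) (nat_lit 6) (nat_lit 7) (nat_lit 7) (nat_lit 8) (nat_lit 15) r0_8 r0_15 (nat_lit 0) (nat_lit 0) (nat_lit 0) (nat_lit 0x7f59d35d8) (nat_lit 1084663224),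
  Rx.mk (nat_lit 511) (nat_lit 7) (nat_lit 7) (nat_lit 7) (nat_lit 7) (nat_lit 9) (nat_lit 14) r0_9 r0_14 (nat_lit 0) (nat_lit 0) (nat_lit 0) (nat_lit 0x7f4d09abe) (nat_lit 1085496724)]
noncomputable def e22_23 : List Rx := [
  Rx.mk (nat_lit 27) (nat_lit 3) (nat_lit 3) (nat_lit 0) (nat_lit 3) (nat_lit 22) (nat_lit 0) r0_22 r1_0 (nat_lit 0) (nat_lit 0) (nat_lit 3533431) (nat_lit 0x7556e8ecc) (nat_lit 1255098455),
  Rx.mk (nat_lit 128) (nat_lit 0) (nat_lit 0) (nat_lit 2) (nat_lit 4) (nat_lit 23) (nat_lit 2) r0_23 r1_2 (nat_lit 1455550) (nat_lit 718420) (nat_lit 0) (nat_lit 0x6a3efe8ee) (nat_lit 1438693294),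
  Rx.mk (nat_lit 130) (nat_lit 2) (nat_lit 0) (nat_lit 2) (nat_lit 5) (nat_lit 25) (nat_lit 5) r0_25 r1_5 (nat_lit 0) (nat_lit 1321792) (nat_lit 0) (nat_lit 0x7eac0b5f4) (nat_lit 1097321716),
  Rx.mk (nat_lit 146) (nat_lit 2) (nat_lit 2) (nat_lit 2) (nat_lit 7) (nat_lit 26) (nat_lit 7) r0_26 r1_7 (nat_lit 0) (nat_lit 0) (nat_lit 0) (nat_lit 0x8024ca822) (nat_lit 1071553224),
  Rx.mk (nat_lit 152) (nat_lit 0) (nat_lit 3) (nat_lit 2) (nat_lit 6) (nat_lit 24) (nat_lit 3) r0_24 r1_3 (nat_lit 3519261) (nat_lit 0) (nat_lit 0) (nat_lit 0x7fe91f23c) (nat_lit 1078893085),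
  Rx.mk (nat_lit 154) (nat_lit 2) (nat_lit 3) (nat_lit 2) (nat_lit 7) (nat_lit 27) (nat_lit 6) r0_27 r1_6 (nat_lit 0) (nat_lit 0) (nat_lit 0) (nat_lit 0x8026ace56) (nat_lit 1071433124),
  Rx.mk (nat_lit 155) (nat_lit 3) (nat_lit 3) (nat_lit 2) (nat_lit 7) (nat_lit 28) (nat_lit 4) r0_28 r1_4 (nat_lit 0) (nat_lit 0) (nat_lit 0) (nat_lit 0x8b4469ad8) (nat_lit 891617424),
  Rx.mk (nat_lit 219) (nat_lit 3) (nat_lit 3) (nat_lit 3) (nat_lit 7) (nat_lit 29) (nat_lit 1) r0_29 r1_1 (nat_lit 0) (nat_lit 0) (nat_lit 0) (nat_lit 0x80f88a298) (nat_lit 1058137724),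
  Rx.mk (nat_lit 402) (nat_lit 2) (nat_lit 2) (nat_lit 6) (nat_lit 7) (nat_lit 21) (nat_lit 8) r0_21 r1_8 (nat_lit 0) (nat_lit 0) (nat_lit 0) (nat_lit 0x801ae09f6) (nat_lit 1072185524),
  Rx.mk (nat_lit 406) (nat_lit 6) (nat_lit 2) (nat_lit 6) (nat_lit 7) (nat_lit 20) (nat_lit 9) r0_20 r1_9 (nat_lit 0) (nat_lit 0) (nat_lit 0) (nat_lit 0x7ffd4488e) (nat_lit 1074080924)]
noncomputable def e22_24 : List Rx := [
  Rx.mk (nat_lit 27) (nat_lit 3) (nat_lit 3) (nat_lit 0) (nat_lit 3) (nat_lit 58) (nat_lit 0) r0_58 r4_0 (nat_lit 0) (nat_lit 0) (nat_lit 1489124) (nat_lit 0x6dffcb254) (nat_lit 1375427948),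
  Rx.mk (nat_lit 59) (nat_lit 3) (nat_lit 7) (nat_lit 0) (nat_lit 3) (nat_lit 57) (nat_lit 1) r0_57 r4_1 (nat_lit 0) (nat_lit 0) (nat_lit 2745228) (nat_lit 0x7f3da6c7a) (nat_lit 1089236952),
  Rx.mk (nat_lit 152) (nat_lit 0) (nat_lit 3) (nat_lit 2) (nat_lit 6) (nat_lit 59) (nat_lit 5) r0_59 r4_5 (nat_lit 89886997) (nat_lit 0) (nat_lit 0) (nat_lit 0x7c8a3bb06) (nat_lit 1221401321),
  Rx.mk (nat_lit 154) (nat_lit 2) (nat_lit 3) (nat_lit 2) (nat_lit 7) (nat_lit 60) (nat_lit 7) r0_60 r4_7 (nat_lit 0) (nat_lit 0) (nat_lit 0) (nat_lit 0x7fe2c17aa) (nat_lit 1075787224),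
  Rx.mk (nat_lit 155) (nat_lit 3) (nat_lit 3) (nat_lit 2) (nat_lit 7) (nat_lit 61) (nat_lit 6) r0_61 r4_6 (nat_lit 0) (nat_lit 0) (nat_lit 0) (nat_lit 0x7ff4a1d08) (nat_lit 1074622024),
  Rx.mk (nat_lit 231) (nat_lit 7) (nat_lit 4) (nat_lit 3) (nat_lit 5) (nat_lit 62) (nat_lit 3) r0_62 r4_3 (nat_lit 0) (nat_lit 2627169) (nat_lit 0) (nat_lit 0x8020258c6) (nat_lit 1074474693),
  Rx.mk (nat_lit 251) (nat_lit 3) (nat_lit 7) (nat_lit 3) (nat_lit 7) (nat_lit 64) (nat_lit 2) r0_64 r4_2 (nat_lit 0) (nat_lit 0) (nat_lit 0) (nat_lit 0x805002b84) (nat_lit 1068799624),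
  Rx.mk (nat_lit 255) (nat_lit 7) (nat_lit 7) (nat_lit 3) (nat_lit 7) (nat_lit 63) (nat_lit 4) r0_63 r4_4 (nat_lit 0) (nat_lit 0) (nat_lit 0) (nat_lit 0x803b1537a) (nat_lit 1070132924),
  Rx.mk (nat_lit 484) (nat_lit 4) (nat_lit 4) (nat_lit 7) (nat_lit 4) (nat_lit 52) (nat_lit 8) r0_52 r4_8 (nat_lit 24902759) (nat_lit 1880334) (nat_lit 0) (nat_lit 0x65a2917c6) (nat_lit 1540179317),
  Rx.mk (nat_lit 487) (nat_lit 7) (nat_lit 4) (nat_lit 7) (nat_lit 5) (nat_lit 55) (nat_lit 10) r0_55 r4_10 (nat_lit 0) (nat_lit 2516625) (nat_lit 0) (nat_lit 0x7f8893454) (nat_lit 1084144949),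
  Rx.mk (nat_lit 500) (nat_lit 4) (nat_lit 6) (nat_lit 7) (nat_lit 6) (nat_lit 53) (nat_lit 9) r0_53 r4_9 (nat_lit 8072366) (nat_lit 0) (nat_lit 0) (nat_lit 0x752013154) (nat_lit 1263210890),
  Rx.mk (nat_lit 502) (nat_lit 6) (nat_lit 6) (nat_lit 7) (nat_lit 7) (nat_lit 54) (nat_lit 12) r0_54 r4_12 (nat_lit 0) (nat_lit 0) (nat_lit 0) (nat_lit 0x7b2096062) (nat_lit 1155059824),
  Rx.mk (nat_lit 503) (nat_lit 7) (nat_lit 6) (nat_lit 7) (nat_lit 7) (nat_lit 56) (nat_lit 11) r0_56 r4_11 (nat_lit 0) (nat_lit 0) (nat_lit 0) (nat_lit 0x803412cb2) (nat_lit 1070579024)]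
noncomputable def e22_25 : List Rx := [
  Rx.mk (nat_lit 308) (nat_lit 4) (nat_lit 6) (nat_lit 4) (nat_lit 2) (nat_lit 100) (nat_lit 96) r0_100 r7_96 (nat_lit 12742526) (nat_lit 0) (nat_lit 16582240) (nat_lit 0x6135e2f48) (nat_lit 1616501090),
  Rx.mk (nat_lit 310) (nat_lit 6) (nat_lit 6) (nat_lit 4) (nat_lit 3) (nat_lit 101) (nat_lit 99) r0_101 r7_99 (nat_lit 0) (nat_lit 0) (nat_lit 2775314) (nat_lit 0x6ed474154) (nat_lit 1362877338),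
  Rx.mk (nat_lit 402) (nat_lit 2) (nat_lit 2) (nat_lit 6) (nat_lit 7) (nat_lit 104) (nat_lit 103) r0_104 r7_103 (nat_lit 0) (nat_lit 0) (nat_lit 0) (nat_lit 0x7ff7bb07a) (nat_lit 1074439424),
  Rx.mk (nat_lit 406) (nat_lit 6) (nat_lit 2) (nat_lit 6) (nat_lit 7) (nat_lit 103) (nat_lit 102) r0_103 r7_102 (nat_lit 0) (nat_lit 0) (nat_lit 0) (nat_lit 0x80029938e) (nat_lit 1073741824),
  Rx.mk (nat_lit 438) (nat_lit 6) (nat_lit 6) (nat_lit 6) (nat_lit 7) (nat_lit 102) (nat_lit 101) r0_102 r7_101 (nat_lit 0) (nat_lit 0) (nat_lit 0) (nat_lit 0x7f8d00f78) (nat_lit 1081343624),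
  Rx.mk (nat_lit 484) (nat_lit 4) (nat_lit 4) (nat_lit 7) (nat_lit 4) (nat_lit 105) (nat_lit 93) r0_105 r7_93 (nat_lit 747955) (nat_lit 146838) (nat_lit 0) (nat_lit 0x5e9ce2aac) (nat_lit 1631332817),
  Rx.mk (nat_lit 487) (nat_lit 7) (nat_lit 4) (nat_lit 7) (nat_lit 5) (nat_lit 108) (nat_lit 94) r0_108 r7_94 (nat_lit 0) (nat_lit 4219351) (nat_lit 0) (nat_lit 0x735136a1c) (nat_lit 1289505675),
  Rx.mk (nat_lit 500) (nat_lit 4) (nat_lit 6) (nat_lit 7) (nat_lit 6) (nat_lit 106) (nat_lit 97) r0_106 r7_97 (nat_lit 26061368) (nat_lit 0) (nat_lit 0) (nat_lit 0x7f3c3650c) (nat_lit 1112650392),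
  Rx.mk (nat_lit 502) (nat_lit 6) (nat_lit 6) (nat_lit 7) (nat_lit 7) (nat_lit 107) (nat_lit 100) r0_107 r7_100 (nat_lit 0) (nat_lit 0) (nat_lit 0) (nat_lit 0x7fecaec36) (nat_lit 1075148224),
  Rx.mk (nat_lit 503) (nat_lit 7) (nat_lit 6) (nat_lit 7) (nat_lit 7) (nat_lit 109) (nat_lit 98) r0_109 r7_98 (nat_lit 0) (nat_lit 0) (nat_lit 0) (nat_lit 0x7ff9f25aa) (nat_lit 1074297324),
  Rx.mk (nat_lit 511) (nat_lit 7) (nat_lit 7) (nat_lit 7) (nat_lit 7) (nat_lit 110) (nat_lit 95) r0_110 r7_95 (nat_lit 0) (nat_lit 0) (nat_lit 0) (nat_lit 0x7ff997768) (nat_lit 1074319724)]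
noncomputable def e22_26 : List Rx := [
  Rx.mk (nat_lit 402) (nat_lit 2) (nat_lit 2) (nat_lit 6) (nat_lit 7) (nat_lit 140) (nat_lit 77) r0_140 r8_77 (nat_lit 0) (nat_lit 0) (nat_lit 0) (nat_lit 0x7ffc024da) (nat_lit 1074164524),
  Rx.mk (nat_lit 406) (nat_lit 6) (nat_lit 2) (nat_lit 6) (nat_lit 7) (nat_lit 139) (nat_lit 76) r0_139 r8_76 (nat_lit 0) (nat_lit 0) (nat_lit 0) (nat_lit 0x80000a14a) (nat_lit 1073905924)]
noncomputable def e22_27 : List Rx := [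
  Rx.mk (nat_lit 292) (nat_lit 4) (nat_lit 4) (nat_lit 4) (nat_lit 0) (nat_lit 124) (nat_lit 0) r0_124 r8_0 (nat_lit 19583288) (nat_lit 875647) (nat_lit 769730) (nat_lit 0x2e4eda24a) (nat_lit 2457082489),
  Rx.mk (nat_lit 308) (nat_lit 4) (nat_lit 6) (nat_lit 4) (nat_lit 2) (nat_lit 125) (nat_lit 1) r0_125 r8_1 (nat_lit 6110955) (nat_lit 0) (nat_lit 6920669) (nat_lit 0x5c1df8e8c) (nat_lit 1685132748),
  Rx.mk (nat_lit 310) (nat_lit 6) (nat_lit 6) (nat_lit 4) (nat_lit 3) (nat_lit 126) (nat_lit 2) r0_126 r8_2 (nat_lit 0) (nat_lit 0) (nat_lit 3304366) (nat_lit 0x7121ef044) (nat_lit 1325017390),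
  Rx.mk (nat_lit 356) (nat_lit 4) (nat_lit 4) (nat_lit 5) (nat_lit 4) (nat_lit 127) (nat_lit 3) r0_127 r8_3 (nat_lit 10202902) (nat_lit 5177292) (nat_lit 0) (nat_lit 0x5a407c046) (nat_lit 1718579418),
  Rx.mk (nat_lit 372) (nat_lit 4) (nat_lit 6) (nat_lit 5) (nat_lit 6) (nat_lit 128) (nat_lit 4) r0_128 r8_4 (nat_lit 7519074) (nat_lit 0) (nat_lit 0) (nat_lit 0x7f790236e) (nat_lit 1090159298),
  Rx.mk (nat_lit 374) (nat_lit 6) (nat_lit 6) (nat_lit 5) (nat_lit 7) (nat_lit 129) (nat_lit 5) r0_129 r8_5 (nat_lit 0) (nat_lit 0) (nat_lit 0) (nat_lit 0x7ff585e22) (nat_lit 1074580824),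
  Rx.mk (nat_lit 402) (nat_lit 2) (nat_lit 2) (nat_lit 6) (nat_lit 7) (nat_lit 132) (nat_lit 12) r0_132 r8_12 (nat_lit 0) (nat_lit 0) (nat_lit 0) (nat_lit 0x7ffea679a) (nat_lit 1073995024),
  Rx.mk (nat_lit 406) (nat_lit 6) (nat_lit 2) (nat_lit 6) (nat_lit 7) (nat_lit 131) (nat_lit 13) r0_131 r8_13 (nat_lit 0) (nat_lit 0) (nat_lit 0) (nat_lit 0x80000807a) (nat_lit 1073906424),
  Rx.mk (nat_lit 438) (nat_lit 6) (nat_lit 6) (nat_lit 6) (nat_lit 7) (nat_lit 130) (nat_lit 14) r0_130 r8_14 (nat_lit 0) (nat_lit 0) (nat_lit 0) (nat_lit 0x7fe8c0fac) (nat_lit 1075405124),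
  Rx.mk (nat_lit 484) (nat_lit 4) (nat_lit 4) (nat_lit 7) (nat_lit 4) (nat_lit 133) (nat_lit 6) r0_133 r8_6 (nat_lit 19041550) (nat_lit 11768288) (nat_lit 0) (nat_lit 0x59527f2bc) (nat_lit 1749505762),
  Rx.mk (nat_lit 487) (nat_lit 7) (nat_lit 4) (nat_lit 7) (nat_lit 5) (nat_lit 136) (nat_lit 8) r0_136 r8_8 (nat_lit 0) (nat_lit 8974417) (nat_lit 0) (nat_lit 0x79570f6e0) (nat_lit 1193845041),
  Rx.mk (nat_lit 500) (nat_lit 4) (nat_lit 6) (nat_lit 7) (nat_lit 6) (nat_lit 134) (nat_lit 7) r0_134 r8_7 (nat_lit 11254699) (nat_lit 0) (nat_lit 0) (nat_lit 0x7f97706d4) (nat_lit 1091919323),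
  Rx.mk (nat_lit 502) (nat_lit 6) (nat_lit 6) (nat_lit 7) (nat_lit 7) (nat_lit 135) (nat_lit 11) r0_135 r8_11 (nat_lit 0) (nat_lit 0) (nat_lit 0) (nat_lit 0x7ff7f4f0a) (nat_lit 1074424424),
  Rx.mk (nat_lit 503) (nat_lit 7) (nat_lit 6) (nat_lit 7) (nat_lit 7) (nat_lit 137) (nat_lit 10) r0_137 r8_10 (nat_lit 0) (nat_lit 0) (nat_lit 0) (nat_lit 0x80029938e) (nat_lit 1073741824),
  Rx.mk (nat_lit 511) (nat_lit 7) (nat_lit 7) (nat_lit 7) (nat_lit 7) (nat_lit 138) (nat_lit 9) r0_138 r8_9 (nat_lit 0) (nat_lit 0) (nat_lit 0) (nat_lit 0x80029938e) (nat_lit 1073741824)]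
noncomputable def e22_28 : List Rx := [
  Rx.mk (nat_lit 484) (nat_lit 4) (nat_lit 4) (nat_lit 7) (nat_lit 4) (nat_lit 147) (nat_lit 77) r0_147 r10_77 (nat_lit 530643) (nat_lit 163852) (nat_lit 0) (nat_lit 0x5f682fdf4) (nat_lit 1617894919),
  Rx.mk (nat_lit 487) (nat_lit 7) (nat_lit 4) (nat_lit 7) (nat_lit 5) (nat_lit 150) (nat_lit 78) r0_150 r10_78 (nat_lit 0) (nat_lit 4695397) (nat_lit 0) (nat_lit 0x71f87d494) (nat_lit 1312433921),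
  Rx.mk (nat_lit 500) (nat_lit 4) (nat_lit 6) (nat_lit 7) (nat_lit 6) (nat_lit 148) (nat_lit 79) r0_148 r10_79 (nat_lit 10021103) (nat_lit 0) (nat_lit 0) (nat_lit 0x7fa58a3fa) (nat_lit 1089765427),
  Rx.mk (nat_lit 502) (nat_lit 6) (nat_lit 6) (nat_lit 7) (nat_lit 7) (nat_lit 149) (nat_lit 81) r0_149 r10_81 (nat_lit 0) (nat_lit 0) (nat_lit 0) (nat_lit 0x7ff4c343a) (nat_lit 1074628924),
  Rx.mk (nat_lit 503) (nat_lit 7) (nat_lit 6) (nat_lit 7) (nat_lit 7) (nat_lit 151) (nat_lit 80) r0_151 r10_80 (nat_lit 0) (nat_lit 0) (nat_lit 0) (nat_lit 0x7ff9f480a) (nat_lit 1074296824)]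
noncomputable def e22_29 : List Rx := [
  Rx.mk (nat_lit 27) (nat_lit 3) (nat_lit 3) (nat_lit 0) (nat_lit 3) (nat_lit 217) (nat_lit 99) r0_217 r11_99 (nat_lit 0) (nat_lit 0) (nat_lit 2191612) (nat_lit 0x7ea5f8ebe) (nat_lit 1098552836),
  Rx.mk (nat_lit 59) (nat_lit 3) (nat_lit 7) (nat_lit 0) (nat_lit 3) (nat_lit 216) (nat_lit 96) r0_216 r11_96 (nat_lit 0) (nat_lit 0) (nat_lit 2261537) (nat_lit 0x802c51546) (nat_lit 1073330661),
  Rx.mk (nat_lit 63) (nat_lit 7) (nat_lit 7) (nat_lit 0) (nat_lit 3) (nat_lit 215) (nat_lit 94) r0_215 r11_94 (nat_lit 0) (nat_lit 0) (nat_lit 2667019) (nat_lit 0x7fbf39062) (nat_lit 1080746543),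
  Rx.mk (nat_lit 155) (nat_lit 3) (nat_lit 3) (nat_lit 2) (nat_lit 7) (nat_lit 218) (nat_lit 100) r0_218 r11_100 (nat_lit 0) (nat_lit 0) (nat_lit 0) (nat_lit 0x80fd022a8) (nat_lit 1057853824),
  Rx.mk (nat_lit 228) (nat_lit 4) (nat_lit 4) (nat_lit 3) (nat_lit 4) (nat_lit 219) (nat_lit 92) r0_219 r11_92 (nat_lit 1515078) (nat_lit 1327087) (nat_lit 0) (nat_lit 0x70dac8bde) (nat_lit 1329174389),
  Rx.mk (nat_lit 231) (nat_lit 7) (nat_lit 4) (nat_lit 3) (nat_lit 5) (nat_lit 220) (nat_lit 93) r0_220 r11_93 (nat_lit 0) (nat_lit 2711268) (nat_lit 0) (nat_lit 0x8030259d8) (nat_lit 1073539392),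
  Rx.mk (nat_lit 255) (nat_lit 7) (nat_lit 7) (nat_lit 3) (nat_lit 7) (nat_lit 221) (nat_lit 95) r0_221 r11_95 (nat_lit 0) (nat_lit 0) (nat_lit 0) (nat_lit 0x8024ca5ca) (nat_lit 1071555724),
  Rx.mk (nat_lit 484) (nat_lit 4) (nat_lit 4) (nat_lit 7) (nat_lit 4) (nat_lit 212) (nat_lit 91) r0_212 r11_91 (nat_lit 177359743) (nat_lit 4290635) (nat_lit 0) (nat_lit 0x71206e3fa) (nat_lit 1503455502),
  Rx.mk (nat_lit 500) (nat_lit 4) (nat_lit 6) (nat_lit 7) (nat_lit 6) (nat_lit 213) (nat_lit 97) r0_213 r11_97 (nat_lit 55284396) (nat_lit 0) (nat_lit 0) (nat_lit 0x7f832bb06) (nat_lit 1137266720),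
  Rx.mk (nat_lit 502) (nat_lit 6) (nat_lit 6) (nat_lit 7) (nat_lit 7) (nat_lit 214) (nat_lit 98) r0_214 r11_98 (nat_lit 0) (nat_lit 0) (nat_lit 0) (nat_lit 0x805932ed4) (nat_lit 1068212724)]
noncomputable def e22_30 : List Rx := [
  Rx.mk (nat_lit 47) (nat_lit 7) (nat_lit 5) (nat_lit 0) (nat_lit 3) (nat_lit 315) (nat_lit 252) r0_315 r5_252 (nat_lit 0) (nat_lit 0) (nat_lit 2146046) (nat_lit 0x8082930f8) (nat_lit 1067722470),
  Rx.mk (nat_lit 103) (nat_lit 7) (nat_lit 4) (nat_lit 1) (nat_lit 5) (nat_lit 316) (nat_lit 253) r0_316 r5_253 (nat_lit 0) (nat_lit 1462114) (nat_lit 0) (nat_lit 0x7fa136d4e) (nat_lit 1081485238),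
  Rx.mk (nat_lit 111) (nat_lit 7) (nat_lit 5) (nat_lit 1) (nat_lit 7) (nat_lit 317) (nat_lit 254) r0_317 r5_254 (nat_lit 0) (nat_lit 0) (nat_lit 0) (nat_lit 0x871639162) (nat_lit 959223424)]
noncomputable def e22_31 : List Rx := [
  Rx.mk (nat_lit 103) (nat_lit 7) (nat_lit 4) (nat_lit 1) (nat_lit 5) (nat_lit 328) (nat_lit 298) r0_328 r11_298 (nat_lit 0) (nat_lit 4405947) (nat_lit 0) (nat_lit 0x7ffb995de) (nat_lit 1078595171),
  Rx.mk (nat_lit 111) (nat_lit 7) (nat_lit 5) (nat_lit 1) (nat_lit 7) (nat_lit 329) (nat_lit 299) r0_329 r11_299 (nat_lit 0) (nat_lit 0) (nat_lit 0) (nat_lit 0x800a900e2) (nat_lit 1073231224)]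
noncomputable def e22_32 : List Rx := [
  Rx.mk (nat_lit 35) (nat_lit 3) (nat_lit 4) (nat_lit 0) (nat_lit 1) (nat_lit 82) (nat_lit 51) r0_82 r6_51 (nat_lit 0) (nat_lit 191551) (nat_lit 287545) (nat_lit 0x5ae6ab8ae) (nat_lit 1692810020),
  Rx.mk (nat_lit 43) (nat_lit 3) (nat_lit 5) (nat_lit 0) (nat_lit 3) (nat_lit 83) (nat_lit 52) r0_83 r6_52 (nat_lit 0) (nat_lit 0) (nat_lit 3246351) (nat_lit 0x7f1f1dac4) (nat_lit 1091721275),
  Rx.mk (nat_lit 59) (nat_lit 3) (nat_lit 7) (nat_lit 0) (nat_lit 3) (nat_lit 84) (nat_lit 53) r0_84 r6_53 (nat_lit 0) (nat_lit 0) (nat_lit 1684651) (nat_lit 0x7dfbf60f6) (nat_lit 1109116275),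
  Rx.mk (nat_lit 227) (nat_lit 3) (nat_lit 4) (nat_lit 3) (nat_lit 5) (nat_lit 87) (nat_lit 54) r0_87 r6_54 (nat_lit 0) (nat_lit 1891802) (nat_lit 0) (nat_lit 0x7e43297ac) (nat_lit 1104700826),
  Rx.mk (nat_lit 231) (nat_lit 7) (nat_lit 4) (nat_lit 3) (nat_lit 5) (nat_lit 85) (nat_lit 49) r0_85 r6_49 (nat_lit 0) (nat_lit 726571) (nat_lit 0) (nat_lit 0x8053e60c0) (nat_lit 1069259595),
  Rx.mk (nat_lit 235) (nat_lit 3) (nat_lit 5) (nat_lit 3) (nat_lit 7) (nat_lit 88) (nat_lit 55) r0_88 r6_55 (nat_lit 0) (nat_lit 0) (nat_lit 0) (nat_lit 0x823b44524) (nat_lit 1037739424),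
  Rx.mk (nat_lit 239) (nat_lit 7) (nat_lit 5) (nat_lit 3) (nat_lit 7) (nat_lit 86) (nat_lit 50) r0_86 r6_50 (nat_lit 0) (nat_lit 0) (nat_lit 0) (nat_lit 0x95d9fc690) (nat_lit 720454924)]
noncomputable def e22_33 : List Rx := [
  Rx.mk (nat_lit 59) (nat_lit 3) (nat_lit 7) (nat_lit 0) (nat_lit 3) (nat_lit 67) (nat_lit 0) r0_67 r5_0 (nat_lit 0) (nat_lit 0) (nat_lit 1192389) (nat_lit 0x7f2e926b2) (nat_lit 1088653513),
  Rx.mk (nat_lit 227) (nat_lit 3) (nat_lit 4) (nat_lit 3) (nat_lit 5) (nat_lit 69) (nat_lit 1) r0_69 r5_1 (nat_lit 0) (nat_lit 766655) (nat_lit 0) (nat_lit 0x7495bc8de) (nat_lit 1264902279),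
  Rx.mk (nat_lit 231) (nat_lit 7) (nat_lit 4) (nat_lit 3) (nat_lit 5) (nat_lit 68) (nat_lit 3) r0_68 r5_3 (nat_lit 0) (nat_lit 1158438) (nat_lit 0) (nat_lit 0x7fed5a61c) (nat_lit 1076256662),
  Rx.mk (nat_lit 251) (nat_lit 3) (nat_lit 7) (nat_lit 3) (nat_lit 7) (nat_lit 70) (nat_lit 2) r0_70 r5_2 (nat_lit 0) (nat_lit 0) (nat_lit 0) (nat_lit 0x7fef31df0) (nat_lit 1074983524),
  Rx.mk (nat_lit 487) (nat_lit 7) (nat_lit 4) (nat_lit 7) (nat_lit 5) (nat_lit 65) (nat_lit 4) r0_65 r5_4 (nat_lit 0) (nat_lit 956393) (nat_lit 0) (nat_lit 0x7c593b998) (nat_lit 1135682617),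
  Rx.mk (nat_lit 503) (nat_lit 7) (nat_lit 6) (nat_lit 7) (nat_lit 7) (nat_lit 66) (nat_lit 5) r0_66 r5_5 (nat_lit 0) (nat_lit 0) (nat_lit 0) (nat_lit 0x804823e18) (nat_lit 1069300924)]
noncomputable def e22_34 : List Rx := [
  Rx.mk (nat_lit 487) (nat_lit 7) (nat_lit 4) (nat_lit 7) (nat_lit 5) (nat_lit 152) (nat_lit 0) r0_152 r11_0 (nat_lit 0) (nat_lit 4245916) (nat_lit 0) (nat_lit 0x7feae8000) (nat_lit 1079510240),
  Rx.mk (nat_lit 503) (nat_lit 7) (nat_lit 6) (nat_lit 7) (nat_lit 7) (nat_lit 153) (nat_lit 1) r0_153 r11_1 (nat_lit 0) (nat_lit 0) (nat_lit 0) (nat_lit 0x800bb8a46) (nat_lit 1073157024)]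
noncomputable def e22_35 : List Rx := [
  Rx.mk (nat_lit 43) (nat_lit 3) (nat_lit 5) (nat_lit 0) (nat_lit 3) (nat_lit 223) (nat_lit 278) r0_223 r6_278 (nat_lit 0) (nat_lit 0) (nat_lit 8409716) (nat_lit 0x803d3fe16) (nat_lit 1078386140),
  Rx.mk (nat_lit 47) (nat_lit 7) (nat_lit 5) (nat_lit 0) (nat_lit 3) (nat_lit 222) (nat_lit 279) r0_222 r6_279 (nat_lit 0) (nat_lit 0) (nat_lit 4479) (nat_lit 0x93ccfa606) (nat_lit 753553703)]
noncomputable def e22_36 : List Rx := [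
  Rx.mk (nat_lit 35) (nat_lit 3) (nat_lit 4) (nat_lit 0) (nat_lit 1) (nat_lit 238) (nat_lit 169) r0_238 r12_169 (nat_lit 0) (nat_lit 98820) (nat_lit 140974) (nat_lit 0x5c7c4d794) (nat_lit 1666140718),
  Rx.mk (nat_lit 39) (nat_lit 7) (nat_lit 4) (nat_lit 0) (nat_lit 1) (nat_lit 236) (nat_lit 172) r0_236 r12_172 (nat_lit 0) (nat_lit 18804) (nat_lit 23874) (nat_lit 0x617c80900) (nat_lit 1582544202),
  Rx.mk (nat_lit 43) (nat_lit 3) (nat_lit 5) (nat_lit 0) (nat_lit 3) (nat_lit 239) (nat_lit 170) r0_239 r12_170 (nat_lit 0) (nat_lit 0) (nat_lit 10492686) (nat_lit 0x7fa00c536) (nat_lit 1090533610),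
  Rx.mk (nat_lit 47) (nat_lit 7) (nat_lit 5) (nat_lit 0) (nat_lit 3) (nat_lit 237) (nat_lit 174) r0_237 r12_174 (nat_lit 0) (nat_lit 0) (nat_lit 6092) (nat_lit 0x90e6c8a2c) (nat_lit 800438116),
  Rx.mk (nat_lit 59) (nat_lit 3) (nat_lit 7) (nat_lit 0) (nat_lit 3) (nat_lit 240) (nat_lit 171) r0_240 r12_171 (nat_lit 0) (nat_lit 0) (nat_lit 1111496) (nat_lit 0x7447c7c00) (nat_lit 1270325320),
  Rx.mk (nat_lit 231) (nat_lit 7) (nat_lit 4) (nat_lit 3) (nat_lit 5) (nat_lit 241) (nat_lit 173) r0_241 r12_173 (nat_lit 0) (nat_lit 805156) (nat_lit 0) (nat_lit 0x806db6b8a) (nat_lit 1067709380),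
  Rx.mk (nat_lit 239) (nat_lit 7) (nat_lit 5) (nat_lit 3) (nat_lit 7) (nat_lit 242) (nat_lit 175) r0_242 r12_175 (nat_lit 0) (nat_lit 0) (nat_lit 0) (nat_lit 0x9d314c5ce) (nat_lit 601741024)]
noncomputable def e22_37 : List Rx := [
  Rx.mk (nat_lit 11) (nat_lit 3) (nat_lit 1) (nat_lit 0) (nat_lit 3) (nat_lit 72) (nat_lit 73) r0_72 r0_73 (nat_lit 0) (nat_lit 0) (nat_lit 2574804) (nat_lit 0x7c7441fb2) (nat_lit 1135516628),
  Rx.mk (nat_lit 136) (nat_lit 0) (nat_lit 1) (nat_lit 2) (nat_lit 6) (nat_lit 73) (nat_lit 72) r0_73 r0_72 (nat_lit 2574804) (nat_lit 0) (nat_lit 0) (nat_lit 0x7c7441fb2) (nat_lit 1135516628),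
  Rx.mk (nat_lit 139) (nat_lit 3) (nat_lit 1) (nat_lit 2) (nat_lit 7) (nat_lit 74) (nat_lit 74) r0_74 r0_74 (nat_lit 0) (nat_lit 0) (nat_lit 0) (nat_lit 0x8001d5326) (nat_lit 1073781524)]
noncomputable def e22_38 : List Rx := [
  Rx.mk (nat_lit 40) (nat_lit 0) (nat_lit 5) (nat_lit 0) (nat_lit 2) (nat_lit 171) (nat_lit 248) r0_171 r0_248 (nat_lit 318) (nat_lit 0) (nat_lit 969839457) (nat_lit 0x8000510a4) (nat_lit 2043561699),
  Rx.mk (nat_lit 41) (nat_lit 1) (nat_lit 5) (nat_lit 0) (nat_lit 3) (nat_lit 172) (nat_lit 249) r0_172 r0_249 (nat_lit 0) (nat_lit 0) (nat_lit 508562239) (nat_lit 0x7ed0e1874) (nat_lit 1602132963)]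
noncomputable def e22_39 : List Rx := [
  Rx.mk (nat_lit 8) (nat_lit 0) (nat_lit 1) (nat_lit 0) (nat_lit 2) (nat_lit 178) (nat_lit 57) r0_178 r7_57 (nat_lit 327140) (nat_lit 0) (nat_lit 944100) (nat_lit 0x5bb8077f4) (nat_lit 1679970364),
  Rx.mk (nat_lit 9) (nat_lit 1) (nat_lit 1) (nat_lit 0) (nat_lit 3) (nat_lit 180) (nat_lit 60) r0_180 r7_60 (nat_lit 0) (nat_lit 0) (nat_lit 5137059) (nat_lit 0x7a3a629c4) (nat_lit 1175198083),
  Rx.mk (nat_lit 11) (nat_lit 3) (nat_lit 1) (nat_lit 0) (nat_lit 3) (nat_lit 181) (nat_lit 62) r0_181 r7_62 (nat_lit 0) (nat_lit 0) (nat_lit 171422861) (nat_lit 0x80556c2a0) (nat_lit 1239814685),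
  Rx.mk (nat_lit 40) (nat_lit 0) (nat_lit 5) (nat_lit 0) (nat_lit 2) (nat_lit 177) (nat_lit 56) r0_177 r7_56 (nat_lit 216055) (nat_lit 0) (nat_lit 1073466) (nat_lit 0x52f01064a) (nat_lit 1826388745),
  Rx.mk (nat_lit 41) (nat_lit 1) (nat_lit 5) (nat_lit 0) (nat_lit 3) (nat_lit 179) (nat_lit 59) r0_179 r7_59 (nat_lit 0) (nat_lit 0) (nat_lit 1922278) (nat_lit 0x6264701d4) (nat_lit 1569386202),
  Rx.mk (nat_lit 136) (nat_lit 0) (nat_lit 1) (nat_lit 2) (nat_lit 6) (nat_lit 182) (nat_lit 58) r0_182 r7_58 (nat_lit 1461987) (nat_lit 0) (nat_lit 0) (nat_lit 0x7ffe1df6c) (nat_lit 1075483511),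
  Rx.mk (nat_lit 137) (nat_lit 1) (nat_lit 1) (nat_lit 2) (nat_lit 7) (nat_lit 183) (nat_lit 61) r0_183 r7_61 (nat_lit 0) (nat_lit 0) (nat_lit 0) (nat_lit 0x802680a22) (nat_lit 1071441624),
  Rx.mk (nat_lit 139) (nat_lit 3) (nat_lit 1) (nat_lit 2) (nat_lit 7) (nat_lit 184) (nat_lit 63) r0_184 r7_63 (nat_lit 0) (nat_lit 0) (nat_lit 0) (nat_lit 0x806ab61b0) (nat_lit 1067109724)]
noncomputable def e22_40 : List Rx := [
  Rx.mk (nat_lit 41) (nat_lit 1) (nat_lit 5) (nat_lit 0) (nat_lit 3) (nat_lit 286) (nat_lit 280) r0_286 r2_280 (nat_lit 0) (nat_lit 0) (nat_lit 7374549) (nat_lit 0x7eb2c9990) (nat_lit 1102910273),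
  Rx.mk (nat_lit 45) (nat_lit 5) (nat_lit 5) (nat_lit 0) (nat_lit 3) (nat_lit 285) (nat_lit 281) r0_285 r2_281 (nat_lit 0) (nat_lit 0) (nat_lit 28102838) (nat_lit 0x7a7179430) (nat_lit 1194573262),
  Rx.mk (nat_lit 105) (nat_lit 1) (nat_lit 5) (nat_lit 1) (nat_lit 7) (nat_lit 288) (nat_lit 282) r0_288 r2_282 (nat_lit 0) (nat_lit 0) (nat_lit 0) (nat_lit 0x80029938e) (nat_lit 1073741824),
  Rx.mk (nat_lit 109) (nat_lit 5) (nat_lit 5) (nat_lit 1) (nat_lit 7) (nat_lit 287) (nat_lit 283) r0_287 r2_283 (nat_lit 0) (nat_lit 0) (nat_lit 0) (nat_lit 0x80029938e) (nat_lit 1073741824)]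
noncomputable def e22_41 : List Rx := [
  Rx.mk (nat_lit 9) (nat_lit 1) (nat_lit 1) (nat_lit 0) (nat_lit 3) (nat_lit 295) (nat_lit 250) r0_295 r9_250 (nat_lit 0) (nat_lit 0) (nat_lit 5449534) (nat_lit 0x7dc0ef480) (nat_lit 1116739658),
  Rx.mk (nat_lit 41) (nat_lit 1) (nat_lit 5) (nat_lit 0) (nat_lit 3) (nat_lit 294) (nat_lit 253) r0_294 r9_253 (nat_lit 0) (nat_lit 0) (nat_lit 7145094) (nat_lit 0x79e85e2cc) (nat_lit 1182555618),
  Rx.mk (nat_lit 45) (nat_lit 5) (nat_lit 5) (nat_lit 0) (nat_lit 3) (nat_lit 293) (nat_lit 254) r0_293 r9_254 (nat_lit 0) (nat_lit 0) (nat_lit 5745639) (nat_lit 0x7713c5d0a) (nat_lit 1228342563),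
  Rx.mk (nat_lit 73) (nat_lit 1) (nat_lit 1) (nat_lit 1) (nat_lit 7) (nat_lit 298) (nat_lit 251) r0_298 r9_251 (nat_lit 0) (nat_lit 0) (nat_lit 0) (nat_lit 0x80029938e) (nat_lit 1073741824),
  Rx.mk (nat_lit 105) (nat_lit 1) (nat_lit 5) (nat_lit 1) (nat_lit 7) (nat_lit 297) (nat_lit 255) r0_297 r9_255 (nat_lit 0) (nat_lit 0) (nat_lit 0) (nat_lit 0x80029938e) (nat_lit 1073741824),
  Rx.mk (nat_lit 109) (nat_lit 5) (nat_lit 5) (nat_lit 1) (nat_lit 7) (nat_lit 296) (nat_lit 256) r0_296 r9_256 (nat_lit 0) (nat_lit 0) (nat_lit 0) (nat_lit 0x80029938e) (nat_lit 1073741824),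
  Rx.mk (nat_lit 137) (nat_lit 1) (nat_lit 1) (nat_lit 2) (nat_lit 7) (nat_lit 299) (nat_lit 252) r0_299 r9_252 (nat_lit 0) (nat_lit 0) (nat_lit 0) (nat_lit 0x80029938e) (nat_lit 1073741824)]
noncomputable def e22_42 : List Rx := [
  Rx.mk (nat_lit 105) (nat_lit 1) (nat_lit 5) (nat_lit 1) (nat_lit 7) (nat_lit 292) (nat_lit 249) r0_292 r9_249 (nat_lit 0) (nat_lit 0) (nat_lit 0) (nat_lit 0x7ffd3fcc6) (nat_lit 1074084924),
  Rx.mk (nat_lit 109) (nat_lit 5) (nat_lit 5) (nat_lit 1) (nat_lit 7) (nat_lit 291) (nat_lit 248) r0_291 r9_248 (nat_lit 0) (nat_lit 0) (nat_lit 0) (nat_lit 0x7ff85ef5e) (nat_lit 1074398324)]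
noncomputable def e22_43 : List Rx := [
  Rx.mk (nat_lit 41) (nat_lit 1) (nat_lit 5) (nat_lit 0) (nat_lit 3) (nat_lit 173) (nat_lit 255) r0_173 r1_255 (nat_lit 0) (nat_lit 0) (nat_lit 200288767) (nat_lit 0x7fddd6150) (nat_lit 1276386391)]
noncomputable def e22_44 : List Rx := [
  Rx.mk (nat_lit 9) (nat_lit 1) (nat_lit 1) (nat_lit 0) (nat_lit 3) (nat_lit 186) (nat_lit 64) r0_186 r8_64 (nat_lit 0) (nat_lit 0) (nat_lit 4721594) (nat_lit 0x7cb5a7826) (nat_lit 1133415918),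
  Rx.mk (nat_lit 41) (nat_lit 1) (nat_lit 5) (nat_lit 0) (nat_lit 3) (nat_lit 185) (nat_lit 63) r0_185 r8_63 (nat_lit 0) (nat_lit 0) (nat_lit 3657848) (nat_lit 0x7a789dc8e) (nat_lit 1169663972),
  Rx.mk (nat_lit 137) (nat_lit 1) (nat_lit 1) (nat_lit 2) (nat_lit 7) (nat_lit 187) (nat_lit 65) r0_187 r8_65 (nat_lit 0) (nat_lit 0) (nat_lit 0) (nat_lit 0x801bc7158) (nat_lit 1072128324)]
noncomputable def e22_45 : List Rx := [
  Rx.mk (nat_lit 11) (nat_lit 3) (nat_lit 1) (nat_lit 0) (nat_lit 3) (nat_lit 75) (nat_lit 70) r0_75 r1_70 (nat_lit 0) (nat_lit 0) (nat_lit 2468639) (nat_lit 0x80090eed0) (nat_lit 1075791763),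
  Rx.mk (nat_lit 136) (nat_lit 0) (nat_lit 1) (nat_lit 2) (nat_lit 6) (nat_lit 76) (nat_lit 69) r0_76 r1_69 (nat_lit 3524879) (nat_lit 0) (nat_lit 0) (nat_lit 0x7f208be6a) (nat_lit 1091914603),
  Rx.mk (nat_lit 138) (nat_lit 2) (nat_lit 1) (nat_lit 2) (nat_lit 7) (nat_lit 77) (nat_lit 72) r0_77 r1_72 (nat_lit 0) (nat_lit 0) (nat_lit 0) (nat_lit 0x800fe7112) (nat_lit 1072885924),
  Rx.mk (nat_lit 139) (nat_lit 3) (nat_lit 1) (nat_lit 2) (nat_lit 7) (nat_lit 78) (nat_lit 71) r0_78 r1_71 (nat_lit 0) (nat_lit 0) (nat_lit 0) (nat_lit 0x81c0ba54c) (nat_lit 1045481724)]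
noncomputable def e22_46 : List Rx := [
  Rx.mk (nat_lit 3) (nat_lit 3) (nat_lit 0) (nat_lit 0) (nat_lit 1) (nat_lit 31) (nat_lit 64) r0_31 r2_64 (nat_lit 0) (nat_lit 340572) (nat_lit 418407) (nat_lit 0x63d5cd998) (nat_lit 1544142803),
  Rx.mk (nat_lit 11) (nat_lit 3) (nat_lit 1) (nat_lit 0) (nat_lit 3) (nat_lit 32) (nat_lit 65) r0_32 r2_65 (nat_lit 0) (nat_lit 0) (nat_lit 2521905) (nat_lit 0x7ff8da2da) (nat_lit 1076883729),
  Rx.mk (nat_lit 27) (nat_lit 3) (nat_lit 3) (nat_lit 0) (nat_lit 3) (nat_lit 33) (nat_lit 66) r0_33 r2_66 (nat_lit 0) (nat_lit 0) (nat_lit 4691311) (nat_lit 0x7fd860edc) (nat_lit 1081143335),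
  Rx.mk (nat_lit 128) (nat_lit 0) (nat_lit 0) (nat_lit 2) (nat_lit 4) (nat_lit 34) (nat_lit 62) r0_34 r2_62 (nat_lit 1100011) (nat_lit 546718) (nat_lit 0) (nat_lit 0x5e324af1e) (nat_lit 1639056353),
  Rx.mk (nat_lit 130) (nat_lit 2) (nat_lit 0) (nat_lit 2) (nat_lit 5) (nat_lit 36) (nat_lit 72) r0_36 r2_72 (nat_lit 0) (nat_lit 3680737) (nat_lit 0) (nat_lit 0x7f050aae2) (nat_lit 1093861361),
  Rx.mk (nat_lit 131) (nat_lit 3) (nat_lit 0) (nat_lit 2) (nat_lit 5) (nat_lit 39) (nat_lit 68) r0_39 r2_68 (nat_lit 0) (nat_lit 372081) (nat_lit 0) (nat_lit 0x80aa87848) (nat_lit 1063404905),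
  Rx.mk (nat_lit 136) (nat_lit 0) (nat_lit 1) (nat_lit 2) (nat_lit 6) (nat_lit 35) (nat_lit 63) r0_35 r2_63 (nat_lit 6036329) (nat_lit 0) (nat_lit 0) (nat_lit 0x7f3f12eb0) (nat_lit 1092440953),
  Rx.mk (nat_lit 138) (nat_lit 2) (nat_lit 1) (nat_lit 2) (nat_lit 7) (nat_lit 37) (nat_lit 73) r0_37 r2_73 (nat_lit 0) (nat_lit 0) (nat_lit 0) (nat_lit 0x8000ca71a) (nat_lit 1073857724),
  Rx.mk (nat_lit 139) (nat_lit 3) (nat_lit 1) (nat_lit 2) (nat_lit 7) (nat_lit 40) (nat_lit 69) r0_40 r2_69 (nat_lit 0) (nat_lit 0) (nat_lit 0) (nat_lit 0x812965e80) (nat_lit 1055044524),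
  Rx.mk (nat_lit 146) (nat_lit 2) (nat_lit 2) (nat_lit 2) (nat_lit 7) (nat_lit 38) (nat_lit 74) r0_38 r2_74 (nat_lit 0) (nat_lit 0) (nat_lit 0) (nat_lit 0x8000ca71a) (nat_lit 1073857724),
  Rx.mk (nat_lit 155) (nat_lit 3) (nat_lit 3) (nat_lit 2) (nat_lit 7) (nat_lit 41) (nat_lit 70) r0_41 r2_70 (nat_lit 0) (nat_lit 0) (nat_lit 0) (nat_lit 0x812d32e5a) (nat_lit 1054804324),
  Rx.mk (nat_lit 219) (nat_lit 3) (nat_lit 3) (nat_lit 3) (nat_lit 7) (nat_lit 42) (nat_lit 67) r0_42 r2_67 (nat_lit 0) (nat_lit 0) (nat_lit 0) (nat_lit 0x80029938e) (nat_lit 1073741824),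
  Rx.mk (nat_lit 402) (nat_lit 2) (nat_lit 2) (nat_lit 6) (nat_lit 7) (nat_lit 30) (nat_lit 71) r0_30 r2_71 (nat_lit 0) (nat_lit 0) (nat_lit 0) (nat_lit 0x80029938e) (nat_lit 1073741824)]
noncomputable def e22_47 : List Rx := [
  Rx.mk (nat_lit 8) (nat_lit 0) (nat_lit 1) (nat_lit 0) (nat_lit 2) (nat_lit 188) (nat_lit 241) r0_188 r8_241 (nat_lit 3077458) (nat_lit 0) (nat_lit 36183064) (nat_lit 0x574fcceae) (nat_lit 1791474846),
  Rx.mk (nat_lit 9) (nat_lit 1) (nat_lit 1) (nat_lit 0) (nat_lit 3) (nat_lit 189) (nat_lit 242) r0_189 r8_242 (nat_lit 0) (nat_lit 0) (nat_lit 7351485) (nat_lit 0x7a4837e50) (nat_lit 1176515009),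
  Rx.mk (nat_lit 11) (nat_lit 3) (nat_lit 1) (nat_lit 0) (nat_lit 3) (nat_lit 190) (nat_lit 243) r0_190 r8_243 (nat_lit 0) (nat_lit 0) (nat_lit 188397076) (nat_lit 0x7fb4f6636) (nat_lit 1267133600),
  Rx.mk (nat_lit 136) (nat_lit 0) (nat_lit 1) (nat_lit 2) (nat_lit 6) (nat_lit 191) (nat_lit 244) r0_191 r8_244 (nat_lit 2945103) (nat_lit 0) (nat_lit 0) (nat_lit 0x79da08f6a) (nat_lit 1179289527),
  Rx.mk (nat_lit 137) (nat_lit 1) (nat_lit 1) (nat_lit 2) (nat_lit 7) (nat_lit 192) (nat_lit 245) r0_192 r8_245 (nat_lit 0) (nat_lit 0) (nat_lit 0) (nat_lit 0x7fff97802) (nat_lit 1073934624),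
  Rx.mk (nat_lit 138) (nat_lit 2) (nat_lit 1) (nat_lit 2) (nat_lit 7) (nat_lit 193) (nat_lit 247) r0_193 r8_247 (nat_lit 0) (nat_lit 0) (nat_lit 0) (nat_lit 0x80029938e) (nat_lit 1073741824),
  Rx.mk (nat_lit 139) (nat_lit 3) (nat_lit 1) (nat_lit 2) (nat_lit 7) (nat_lit 194) (nat_lit 246) r0_194 r8_246 (nat_lit 0) (nat_lit 0) (nat_lit 0) (nat_lit 0x80029938e) (nat_lit 1073741824)]
noncomputable def e22_48 : List Rx := [
  Rx.mk (nat_lit 0) (nat_lit 0) (nat_lit 0) (nat_lit 0) (nat_lit 0) (nat_lit 155) (nat_lit 23) r0_155 r9_23 (nat_lit 2362812) (nat_lit 1354781) (nat_lit 4153151) (nat_lit 0x1b57e90f6) (nat_lit 2759934868),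
  Rx.mk (nat_lit 3) (nat_lit 3) (nat_lit 0) (nat_lit 0) (nat_lit 1) (nat_lit 158) (nat_lit 29) r0_158 r9_29 (nat_lit 0) (nat_lit 2771204) (nat_lit 18445641) (nat_lit 0x4ea89f76a) (nat_lit 1917708369),
  Rx.mk (nat_lit 8) (nat_lit 0) (nat_lit 1) (nat_lit 0) (nat_lit 2) (nat_lit 156) (nat_lit 24) r0_156 r9_24 (nat_lit 4070116) (nat_lit 0) (nat_lit 4177856) (nat_lit 0x4bc84881c) (nat_lit 1952696096),
  Rx.mk (nat_lit 9) (nat_lit 1) (nat_lit 1) (nat_lit 0) (nat_lit 3) (nat_lit 157) (nat_lit 27) r0_157 r9_27 (nat_lit 0) (nat_lit 0) (nat_lit 6049948) (nat_lit 0x7c59b23d6) (nat_lit 1140727172),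
  Rx.mk (nat_lit 11) (nat_lit 3) (nat_lit 1) (nat_lit 0) (nat_lit 3) (nat_lit 159) (nat_lit 30) r0_159 r9_30 (nat_lit 0) (nat_lit 0) (nat_lit 9808972) (nat_lit 0x7fc6e9032) (nat_lit 1087396196),
  Rx.mk (nat_lit 27) (nat_lit 3) (nat_lit 3) (nat_lit 0) (nat_lit 3) (nat_lit 160) (nat_lit 31) r0_160 r9_31 (nat_lit 0) (nat_lit 0) (nat_lit 89110576) (nat_lit 0x7efa9f9ea) (nat_lit 1179970500),
  Rx.mk (nat_lit 128) (nat_lit 0) (nat_lit 0) (nat_lit 2) (nat_lit 4) (nat_lit 161) (nat_lit 25) r0_161 r9_25 (nat_lit 2475026) (nat_lit 2456288) (nat_lit 0) (nat_lit 0x57aea971a) (nat_lit 1750970938),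
  Rx.mk (nat_lit 130) (nat_lit 2) (nat_lit 0) (nat_lit 2) (nat_lit 5) (nat_lit 164) (nat_lit 37) r0_164 r9_37 (nat_lit 0) (nat_lit 5165939) (nat_lit 0) (nat_lit 0x791ad7c68) (nat_lit 1193957763),
  Rx.mk (nat_lit 131) (nat_lit 3) (nat_lit 0) (nat_lit 2) (nat_lit 5) (nat_lit 167) (nat_lit 33) r0_167 r9_33 (nat_lit 0) (nat_lit 5084035) (nat_lit 0) (nat_lit 0x7fe4632fc) (nat_lit 1080766959),
  Rx.mk (nat_lit 136) (nat_lit 0) (nat_lit 1) (nat_lit 2) (nat_lit 6) (nat_lit 162) (nat_lit 26) r0_162 r9_26 (nat_lit 5501243) (nat_lit 0) (nat_lit 0) (nat_lit 0x781c26610) (nat_lit 1210881267),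
  Rx.mk (nat_lit 137) (nat_lit 1) (nat_lit 1) (nat_lit 2) (nat_lit 7) (nat_lit 163) (nat_lit 28) r0_163 r9_28 (nat_lit 0) (nat_lit 0) (nat_lit 0) (nat_lit 0x80029938e) (nat_lit 1073741824),
  Rx.mk (nat_lit 138) (nat_lit 2) (nat_lit 1) (nat_lit 2) (nat_lit 7) (nat_lit 165) (nat_lit 38) r0_165 r9_38 (nat_lit 0) (nat_lit 0) (nat_lit 0) (nat_lit 0x80029938e) (nat_lit 1073741824),
  Rx.mk (nat_lit 139) (nat_lit 3) (nat_lit 1) (nat_lit 2) (nat_lit 7) (nat_lit 168) (nat_lit 34) r0_168 r9_34 (nat_lit 0) (nat_lit 0) (nat_lit 0) (nat_lit 0x80029938e) (nat_lit 1073741824),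
  Rx.mk (nat_lit 146) (nat_lit 2) (nat_lit 2) (nat_lit 2) (nat_lit 7) (nat_lit 166) (nat_lit 39) r0_166 r9_39 (nat_lit 0) (nat_lit 0) (nat_lit 0) (nat_lit 0x80029938e) (nat_lit 1073741824),
  Rx.mk (nat_lit 155) (nat_lit 3) (nat_lit 3) (nat_lit 2) (nat_lit 7) (nat_lit 169) (nat_lit 35) r0_169 r9_35 (nat_lit 0) (nat_lit 0) (nat_lit 0) (nat_lit 0x80029938e) (nat_lit 1073741824),
  Rx.mk (nat_lit 219) (nat_lit 3) (nat_lit 3) (nat_lit 3) (nat_lit 7) (nat_lit 170) (nat_lit 32) r0_170 r9_32 (nat_lit 0) (nat_lit 0) (nat_lit 0) (nat_lit 0x7feda7fe8) (nat_lit 1075089724),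
  Rx.mk (nat_lit 402) (nat_lit 2) (nat_lit 2) (nat_lit 6) (nat_lit 7) (nat_lit 154) (nat_lit 36) r0_154 r9_36 (nat_lit 0) (nat_lit 0) (nat_lit 0) (nat_lit 0x80029938e) (nat_lit 1073741824)]
noncomputable def e22_49 : List Rx := [
  Rx.mk (nat_lit 402) (nat_lit 2) (nat_lit 2) (nat_lit 6) (nat_lit 7) (nat_lit 141) (nat_lit 0) r0_141 r9_0 (nat_lit 0) (nat_lit 0) (nat_lit 0) (nat_lit 0x7ffe05cc8) (nat_lit 1074035324)]
noncomputable def e22_50 : List Rx := [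
  Rx.mk (nat_lit 43) (nat_lit 3) (nat_lit 5) (nat_lit 0) (nat_lit 3) (nat_lit 71) (nat_lit 67) r0_71 r3_67 (nat_lit 0) (nat_lit 0) (nat_lit 121) (nat_lit 0x80002aa9e) (nat_lit 1073731445)]
noncomputable def e22_51 : List Rx := [
  Rx.mk (nat_lit 11) (nat_lit 3) (nat_lit 1) (nat_lit 0) (nat_lit 3) (nat_lit 80) (nat_lit 69) r0_80 r4_69 (nat_lit 0) (nat_lit 0) (nat_lit 2927812) (nat_lit 0x7f9b05e02) (nat_lit 1083361236),
  Rx.mk (nat_lit 43) (nat_lit 3) (nat_lit 5) (nat_lit 0) (nat_lit 3) (nat_lit 79) (nat_lit 68) r0_79 r4_68 (nat_lit 0) (nat_lit 0) (nat_lit 1845209) (nat_lit 0x6d5c42330) (nat_lit 1386432233),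
  Rx.mk (nat_lit 139) (nat_lit 3) (nat_lit 1) (nat_lit 2) (nat_lit 7) (nat_lit 81) (nat_lit 70) r0_81 r4_70 (nat_lit 0) (nat_lit 0) (nat_lit 0) (nat_lit 0x7fdf910da) (nat_lit 1075963024)]
noncomputable def e22_52 : List Rx := [
  Rx.mk (nat_lit 43) (nat_lit 3) (nat_lit 5) (nat_lit 0) (nat_lit 3) (nat_lit 89) (nat_lit 61) r0_89 r5_61 (nat_lit 0) (nat_lit 0) (nat_lit 26638681) (nat_lit 0x7d4f8ee26) (nat_lit 1145302105),
  Rx.mk (nat_lit 235) (nat_lit 3) (nat_lit 5) (nat_lit 3) (nat_lit 7) (nat_lit 90) (nat_lit 62) r0_90 r5_62 (nat_lit 0) (nat_lit 0) (nat_lit 0) (nat_lit 0x83bd7abf0) (nat_lit 1013342324)]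
noncomputable def e22_53 : List Rx := [
  Rx.mk (nat_lit 40) (nat_lit 0) (nat_lit 5) (nat_lit 0) (nat_lit 2) (nat_lit 174) (nat_lit 262) r0_174 r4_262 (nat_lit 507461) (nat_lit 0) (nat_lit 365390624) (nat_lit 0x677f48254) (nat_lit 1848225809),
  Rx.mk (nat_lit 41) (nat_lit 1) (nat_lit 5) (nat_lit 0) (nat_lit 3) (nat_lit 175) (nat_lit 263) r0_175 r4_263 (nat_lit 0) (nat_lit 0) (nat_lit 172210768) (nat_lit 0x7e52e1528) (nat_lit 1273987192),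
  Rx.mk (nat_lit 43) (nat_lit 3) (nat_lit 5) (nat_lit 0) (nat_lit 3) (nat_lit 176) (nat_lit 264) r0_176 r4_264 (nat_lit 0) (nat_lit 0) (nat_lit 481648953) (nat_lit 0x72b5b6132) (nat_lit 1777028277)]
noncomputable def e22_54 : List Rx := [
  Rx.mk (nat_lit 11) (nat_lit 3) (nat_lit 1) (nat_lit 0) (nat_lit 3) (nat_lit 198) (nat_lit 47) r0_198 r10_47 (nat_lit 0) (nat_lit 0) (nat_lit 172576021) (nat_lit 0x80845ae72) (nat_lit 1238006145),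
  Rx.mk (nat_lit 40) (nat_lit 0) (nat_lit 5) (nat_lit 0) (nat_lit 2) (nat_lit 195) (nat_lit 44) r0_195 r10_44 (nat_lit 206251) (nat_lit 0) (nat_lit 577871) (nat_lit 0x5b26d5dda) (nat_lit 1688936846),
  Rx.mk (nat_lit 41) (nat_lit 1) (nat_lit 5) (nat_lit 0) (nat_lit 3) (nat_lit 196) (nat_lit 45) r0_196 r10_45 (nat_lit 0) (nat_lit 0) (nat_lit 2475431) (nat_lit 0x70fe46778) (nat_lit 1326502855),
  Rx.mk (nat_lit 43) (nat_lit 3) (nat_lit 5) (nat_lit 0) (nat_lit 3) (nat_lit 197) (nat_lit 46) r0_197 r10_46 (nat_lit 0) (nat_lit 0) (nat_lit 336738388) (nat_lit 0x7f9d350f6) (nat_lit 1417053112),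
  Rx.mk (nat_lit 139) (nat_lit 3) (nat_lit 1) (nat_lit 2) (nat_lit 7) (nat_lit 199) (nat_lit 48) r0_199 r10_48 (nat_lit 0) (nat_lit 0) (nat_lit 0) (nat_lit 0x803360350) (nat_lit 1070623924)]
noncomputable def e22_55 : List Rx := [
  Rx.mk (nat_lit 40) (nat_lit 0) (nat_lit 5) (nat_lit 0) (nat_lit 2) (nat_lit 200) (nat_lit 37) r0_200 r11_37 (nat_lit 9426144) (nat_lit 0) (nat_lit 314732184) (nat_lit 0x70c471818) (nat_lit 1651954452),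
  Rx.mk (nat_lit 41) (nat_lit 1) (nat_lit 5) (nat_lit 0) (nat_lit 3) (nat_lit 201) (nat_lit 38) r0_201 r11_38 (nat_lit 0) (nat_lit 0) (nat_lit 5592935) (nat_lit 0x802afe752) (nat_lit 1076749759),
  Rx.mk (nat_lit 43) (nat_lit 3) (nat_lit 5) (nat_lit 0) (nat_lit 3) (nat_lit 202) (nat_lit 39) r0_202 r11_39 (nat_lit 0) (nat_lit 0) (nat_lit 104895094) (nat_lit 0x801d36fca) (nat_lit 1176912118),
  Rx.mk (nat_lit 235) (nat_lit 3) (nat_lit 5) (nat_lit 3) (nat_lit 7) (nat_lit 203) (nat_lit 40) r0_203 r11_40 (nat_lit 0) (nat_lit 0) (nat_lit 0) (nat_lit 0x813820826) (nat_lit 1054113624)]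
noncomputable def e22_56 : List Rx := [
  Rx.mk (nat_lit 43) (nat_lit 3) (nat_lit 5) (nat_lit 0) (nat_lit 3) (nat_lit 224) (nat_lit 255) r0_224 r5_255 (nat_lit 0) (nat_lit 0) (nat_lit 135738919) (nat_lit 0x80001a586) (nat_lit 1209474643)]
noncomputable def e22_57 : List Rx := [
  Rx.mk (nat_lit 11) (nat_lit 3) (nat_lit 1) (nat_lit 0) (nat_lit 3) (nat_lit 226) (nat_lit 300) r0_226 r11_300 (nat_lit 0) (nat_lit 0) (nat_lit 3044938) (nat_lit 0x80a25caec) (nat_lit 1066625862),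
  Rx.mk (nat_lit 43) (nat_lit 3) (nat_lit 5) (nat_lit 0) (nat_lit 3) (nat_lit 225) (nat_lit 302) r0_225 r11_302 (nat_lit 0) (nat_lit 0) (nat_lit 2075395) (nat_lit 0x7fa625f44) (nat_lit 1081791519),
  Rx.mk (nat_lit 139) (nat_lit 3) (nat_lit 1) (nat_lit 2) (nat_lit 7) (nat_lit 227) (nat_lit 301) r0_227 r11_301 (nat_lit 0) (nat_lit 0) (nat_lit 0) (nat_lit 0x811726e18) (nat_lit 1056188224)]
noncomputable def e22 : List (List Rx) := [e22_0, e22_1, e22_2, e22_3, e22_4, e22_5, e22_6, e22_7, e22_8, e22_9, e22_10, e22_11, e22_12, e22_13, e22_14, e22_15, e22_16, e22_17, e22_18, e22_19, e22_20, e22_21, e22_22, e22_23, e22_24, e22_25, e22_26, e22_27, e22_28, e22_29, e22_30, e22_31, e22_32, e22_33, e22_34, e22_35, e22_36, e22_37, e22_38, e22_39, e22_40, e22_41, e22_42, e22_43, e22_44, e22_45, e22_46, e22_47, e22_48, e22_49, e22_50, e22_51, e22_52, e22_53, e22_54, e22_55,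 e22_56, e22_57]
noncomputable def e23_0 : List Rx := [
  Rx.mk (nat_lit 108) (nat_lit 4) (nat_lit 5) (nat_lit 1) (nat_lit 6) (nat_lit 255) (nat_lit 173) r1_255 r0_173 (nat_lit 200288767) (nat_lit 0) (nat_lit 0) (nat_lit 0x7fddd6150) (nat_lit 1276386391)]
noncomputable def e23_1 : List Rx := [
  Rx.mk (nat_lit 108) (nat_lit 4) (nat_lit 5) (nat_lit 1) (nat_lit 6) (nat_lit 273) (nat_lit 185) r1_273 r1_185 (nat_lit 5632914) (nat_lit 0) (nat_lit 0) (nat_lit 0x80115033c) (nat_lit 1078429238),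
  Rx.mk (nat_lit 364) (nat_lit 4) (nat_lit 5) (nat_lit 5) (nat_lit 6) (nat_lit 272) (nat_lit 186) r1_272 r1_186 (nat_lit 6431130) (nat_lit 0) (nat_lit 0) (nat_lit 0x7f59dbdb4) (nat_lit 1091100554)]
noncomputable def e23_2 : List Rx := [
  Rx.mk (nat_lit 356) (nat_lit 4) (nat_lit 4) (nat_lit 5) (nat_lit 4) (nat_lit 258) (nat_lit 183) r1_258 r2_183 (nat_lit 26800077) (nat_lit 10122828) (nat_lit 0) (nat_lit 0x5e3f5c5fe) (nat_lit 1673506229),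
  Rx.mk (nat_lit 364) (nat_lit 4) (nat_lit 5) (nat_lit 5) (nat_lit 6) (nat_lit 259) (nat_lit 184) r1_259 r2_184 (nat_lit 5449534) (nat_lit 0) (nat_lit 0) (nat_lit 0x80029938e) (nat_lit 1079191358),
  Rx.mk (nat_lit 372) (nat_lit 4) (nat_lit 6) (nat_lit 5) (nat_lit 6) (nat_lit 260) (nat_lit 185) r1_260 r2_185 (nat_lit 5449534) (nat_lit 0) (nat_lit 0) (nat_lit 0x80029938e) (nat_lit 1079191358),
  Rx.mk (nat_lit 374) (nat_lit 6) (nat_lit 6) (nat_lit 5) (nat_lit 7) (nat_lit 261) (nat_lit 186) r1_261 r2_186 (nat_lit 0) (nat_lit 0) (nat_lit 0) (nat_lit 0x80029938e) (nat_lit 1073741824)]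
noncomputable def e23_3 : List Rx := [
  Rx.mk (nat_lit 44) (nat_lit 4) (nat_lit 5) (nat_lit 0) (nat_lit 2) (nat_lit 293) (nat_lit 151) r1_293 r3_151 (nat_lit 1652) (nat_lit 0) (nat_lit 1125) (nat_lit 0x8000c7dda) (nat_lit 1073695601),
  Rx.mk (nat_lit 47) (nat_lit 7) (nat_lit 5) (nat_lit 0) (nat_lit 3) (nat_lit 294) (nat_lit 153) r1_294 r3_153 (nat_lit 0) (nat_lit 0) (nat_lit 1915450) (nat_lit 0x86d50b64a) (nat_lit 965236374),
  Rx.mk (nat_lit 108) (nat_lit 4) (nat_lit 5) (nat_lit 1) (nat_lit 6) (nat_lit 295) (nat_lit 152) r1_295 r3_152 (nat_lit 10154) (nat_lit 0) (nat_lit 0) (nat_lit 0x7fdc5d4a4) (nat_lit 1076074678),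
  Rx.mk (nat_lit 111) (nat_lit 7) (nat_lit 5) (nat_lit 1) (nat_lit 7) (nat_lit 296) (nat_lit 154) r1_296 r3_154 (nat_lit 0) (nat_lit 0) (nat_lit 0) (nat_lit 0x99fe8fe40) (nat_lit 653462024)]
noncomputable def e23_4 : List Rx := [
  Rx.mk (nat_lit 108) (nat_lit 4) (nat_lit 5) (nat_lit 1) (nat_lit 6) (nat_lit 305) (nat_lit 159) r1_305 r4_159 (nat_lit 4876673) (nat_lit 0) (nat_lit 0) (nat_lit 0x80153f8c6) (nat_lit 1077419097),
  Rx.mk (nat_lit 111) (nat_lit 7) (nat_lit 5) (nat_lit 1) (nat_lit 7) (nat_lit 306) (nat_lit 160) r1_306 r4_160 (nat_lit 0) (nat_lit 0) (nat_lit 0) (nat_lit 0x802b28bc4) (nat_lit 1071147124)]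
noncomputable def e23_5 : List Rx := [
  Rx.mk (nat_lit 44) (nat_lit 4) (nat_lit 5) (nat_lit 0) (nat_lit 2) (nat_lit 311) (nat_lit 164) r1_311 r5_164 (nat_lit 4362951) (nat_lit 0) (nat_lit 89993226) (nat_lit 0x7894e6d52) (nat_lit 1291869601),
  Rx.mk (nat_lit 47) (nat_lit 7) (nat_lit 5) (nat_lit 0) (nat_lit 3) (nat_lit 312) (nat_lit 167) r1_312 r5_167 (nat_lit 0) (nat_lit 0) (nat_lit 3039288) (nat_lit 0x80c38d252) (nat_lit 1064522612),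
  Rx.mk (nat_lit 108) (nat_lit 4) (nat_lit 5) (nat_lit 1) (nat_lit 6) (nat_lit 313) (nat_lit 165) r1_313 r5_165 (nat_lit 3697266) (nat_lit 0) (nat_lit 0) (nat_lit 0x803df29c6) (nat_lit 1073649890),
  Rx.mk (nat_lit 111) (nat_lit 7) (nat_lit 5) (nat_lit 1) (nat_lit 7) (nat_lit 314) (nat_lit 168) r1_314 r5_168 (nat_lit 0) (nat_lit 0) (nat_lit 0) (nat_lit 0x80299d296) (nat_lit 1071247324),
  Rx.mk (nat_lit 236) (nat_lit 4) (nat_lit 5) (nat_lit 3) (nat_lit 6) (nat_lit 315) (nat_lit 166) r1_315 r5_166 (nat_lit 1434760) (nat_lit 0) (nat_lit 0) (nat_lit 0x8012c14dc) (nat_lit 1074124184)]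
noncomputable def e23_6 : List Rx := [
  Rx.mk (nat_lit 231) (nat_lit 7) (nat_lit 4) (nat_lit 3) (nat_lit 5) (nat_lit 46) (nat_lit 106) r1_46 r3_106 (nat_lit 0) (nat_lit 15293) (nat_lit 0) (nat_lit 0x7b3235b42) (nat_lit 1153856717),
  Rx.mk (nat_lit 239) (nat_lit 7) (nat_lit 5) (nat_lit 3) (nat_lit 7) (nat_lit 47) (nat_lit 109) r1_47 r3_109 (nat_lit 0) (nat_lit 0) (nat_lit 0) (nat_lit 0x91b9f06ac) (nat_lit 787168224),
  Rx.mk (nat_lit 251) (nat_lit 3) (nat_lit 7) (nat_lit 3) (nat_lit 7) (nat_lit 49) (nat_lit 111) r1_49 r3_111 (nat_lit 0) (nat_lit 0) (nat_lit 0) (nat_lit 0x80d0874f8) (nat_lit 1060662924),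
  Rx.mk (nat_lit 255) (nat_lit 7) (nat_lit 7) (nat_lit 3) (nat_lit 7) (nat_lit 48) (nat_lit 110) r1_48 r3_110 (nat_lit 0) (nat_lit 0) (nat_lit 0) (nat_lit 0x80b7366a2) (nat_lit 1062264424),
  Rx.mk (nat_lit 484) (nat_lit 4) (nat_lit 4) (nat_lit 7) (nat_lit 4) (nat_lit 39) (nat_lit 104) r1_39 r3_104 (nat_lit 680) (nat_lit 335) (nat_lit 0) (nat_lit 0x800093df0) (nat_lit 1073706539),
  Rx.mk (nat_lit 487) (nat_lit 7) (nat_lit 4) (nat_lit 7) (nat_lit 5) (nat_lit 43) (nat_lit 105) r1_43 r3_105 (nat_lit 0) (nat_lit 229167) (nat_lit 0) (nat_lit 0x8456bed52) (nat_lit 1003859891),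
  Rx.mk (nat_lit 492) (nat_lit 4) (nat_lit 5) (nat_lit 7) (nat_lit 6) (nat_lit 40) (nat_lit 107) r1_40 r3_107 (nat_lit 21896786) (nat_lit 0) (nat_lit 0) (nat_lit 0x7ff19e8fe) (nat_lit 1096714310),
  Rx.mk (nat_lit 495) (nat_lit 7) (nat_lit 5) (nat_lit 7) (nat_lit 7) (nat_lit 44) (nat_lit 108) r1_44 r3_108 (nat_lit 0) (nat_lit 0) (nat_lit 0) (nat_lit 0x80e4a8b62) (nat_lit 1059385624),
  Rx.mk (nat_lit 500) (nat_lit 4) (nat_lit 6) (nat_lit 7) (nat_lit 6) (nat_lit 41) (nat_lit 112) r1_41 r3_112 (nat_lit 1226908) (nat_lit 0) (nat_lit 0) (nat_lit 0x8006f9de8) (nat_lit 1074654532),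
  Rx.mk (nat_lit 502) (nat_lit 6) (nat_lit 6) (nat_lit 7) (nat_lit 7) (nat_lit 42) (nat_lit 114) r1_42 r3_114 (nat_lit 0) (nat_lit 0) (nat_lit 0) (nat_lit 0x804e74f7e) (nat_lit 1068891024),
  Rx.mk (nat_lit 503) (nat_lit 7) (nat_lit 6) (nat_lit 7) (nat_lit 7) (nat_lit 45) (nat_lit 113) r1_45 r3_113 (nat_lit 0) (nat_lit 0) (nat_lit 0) (nat_lit 0x80616a6a6) (nat_lit 1067696824)]
noncomputable def e23_7 : List Rx := [
  Rx.mk (nat_lit 292) (nat_lit 4) (nat_lit 4) (nat_lit 4) (nat_lit 0) (nat_lit 94) (nat_lit 111) r1_94 r0_111 (nat_lit 313883956) (nat_lit 792) (nat_lit 809) (nat_lit 0x800043b20) (nat_lit 1387611081),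
  Rx.mk (nat_lit 300) (nat_lit 4) (nat_lit 5) (nat_lit 4) (nat_lit 2) (nat_lit 95) (nat_lit 114) r1_95 r0_114 (nat_lit 389289256) (nat_lit 0) (nat_lit 5229139) (nat_lit 0x7f6d76162) (nat_lit 1477906119),
  Rx.mk (nat_lit 308) (nat_lit 4) (nat_lit 6) (nat_lit 4) (nat_lit 2) (nat_lit 96) (nat_lit 118) r1_96 r0_118 (nat_lit 244546135) (nat_lit 0) (nat_lit 13308373) (nat_lit 0x7f7cf93a0) (nat_lit 1340240332),
  Rx.mk (nat_lit 310) (nat_lit 6) (nat_lit 6) (nat_lit 4) (nat_lit 3) (nat_lit 97) (nat_lit 121) r1_97 r0_121 (nat_lit 0) (nat_lit 0) (nat_lit 4762754) (nat_lit 0x7fefdf6ee) (nat_lit 1079707178),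
  Rx.mk (nat_lit 438) (nat_lit 6) (nat_lit 6) (nat_lit 6) (nat_lit 7) (nat_lit 98) (nat_lit 123) r1_98 r0_123 (nat_lit 0) (nat_lit 0) (nat_lit 0) (nat_lit 0x80029938e) (nat_lit 1073741824),
  Rx.mk (nat_lit 484) (nat_lit 4) (nat_lit 4) (nat_lit 7) (nat_lit 4) (nat_lit 99) (nat_lit 112) r1_99 r0_112 (nat_lit 134380886) (nat_lit 2995413) (nat_lit 0) (nat_lit 0x6f8aae7a8) (nat_lit 1485611623),
  Rx.mk (nat_lit 487) (nat_lit 7) (nat_lit 4) (nat_lit 7) (nat_lit 5) (nat_lit 103) (nat_lit 113) r1_103 r0_113 (nat_lit 0) (nat_lit 4066432) (nat_lit 0) (nat_lit 0x79ca131dc) (nat_lit 1181450656),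
  Rx.mk (nat_lit 492) (nat_lit 4) (nat_lit 5) (nat_lit 7) (nat_lit 6) (nat_lit 100) (nat_lit 115) r1_100 r0_115 (nat_lit 9520156) (nat_lit 0) (nat_lit 0) (nat_lit 0x7fd237c40) (nat_lit 1086376280),
  Rx.mk (nat_lit 495) (nat_lit 7) (nat_lit 5) (nat_lit 7) (nat_lit 7) (nat_lit 104) (nat_lit 116) r1_104 r0_116 (nat_lit 0) (nat_lit 0) (nat_lit 0) (nat_lit 0x80029938e) (nat_lit 1073741824),
  Rx.mk (nat_lit 500) (nat_lit 4) (nat_lit 6) (nat_lit 7) (nat_lit 6) (nat_lit 101) (nat_lit 119) r1_101 r0_119 (nat_lit 7910044) (nat_lit 0) (nat_lit 0) (nat_lit 0x80340856e) (nat_lit 1078489268),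
  Rx.mk (nat_lit 502) (nat_lit 6) (nat_lit 6) (nat_lit 7) (nat_lit 7) (nat_lit 102) (nat_lit 122) r1_102 r0_122 (nat_lit 0) (nat_lit 0) (nat_lit 0) (nat_lit 0x80029938e) (nat_lit 1073741824),
  Rx.mk (nat_lit 503) (nat_lit 7) (nat_lit 6) (nat_lit 7) (nat_lit 7) (nat_lit 105) (nat_lit 120) r1_105 r0_120 (nat_lit 0) (nat_lit 0) (nat_lit 0) (nat_lit 0x80029938e) (nat_lit 1073741824),
  Rx.mk (nat_lit 511) (nat_lit 7) (nat_lit 7) (nat_lit 7) (nat_lit 7) (nat_lit 106) (nat_lit 117) r1_106 r0_117 (nat_lit 0) (nat_lit 0) (nat_lit 0) (nat_lit 0x80029938e) (nat_lit 1073741824)]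
noncomputable def e23_8 : List Rx := [
  Rx.mk (nat_lit 292) (nat_lit 4) (nat_lit 4) (nat_lit 4) (nat_lit 0) (nat_lit 117) (nat_lit 117) r1_117 r1_117 (nat_lit 341868901) (nat_lit 1121635) (nat_lit 1121635) (nat_lit 0x65b727faa) (nat_lit 1856174495),
  Rx.mk (nat_lit 300) (nat_lit 4) (nat_lit 5) (nat_lit 4) (nat_lit 2) (nat_lit 118) (nat_lit 121) r1_118 r1_121 (nat_lit 151346615) (nat_lit 0) (nat_lit 5218741) (nat_lit 0x7ecf444c6) (nat_lit 1250251980),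
  Rx.mk (nat_lit 308) (nat_lit 4) (nat_lit 6) (nat_lit 4) (nat_lit 2) (nat_lit 119) (nat_lit 126) r1_119 r1_126 (nat_lit 162116195) (nat_lit 0) (nat_lit 7841701) (nat_lit 0x7f1abe9f6) (nat_lit 1258729120),
  Rx.mk (nat_lit 310) (nat_lit 6) (nat_lit 6) (nat_lit 4) (nat_lit 3) (nat_lit 120) (nat_lit 128) r1_120 r1_128 (nat_lit 0) (nat_lit 0) (nat_lit 5106869) (nat_lit 0x7fef974e8) (nat_lit 1080069093),
  Rx.mk (nat_lit 356) (nat_lit 4) (nat_lit 4) (nat_lit 5) (nat_lit 4) (nat_lit 121) (nat_lit 118) r1_121 r1_118 (nat_lit 151346615) (nat_lit 5218741) (nat_lit 0) (nat_lit 0x7ecf444c6) (nat_lit 1250251980),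
  Rx.mk (nat_lit 364) (nat_lit 4) (nat_lit 5) (nat_lit 5) (nat_lit 6) (nat_lit 122) (nat_lit 122) r1_122 r1_122 (nat_lit 5449534) (nat_lit 0) (nat_lit 0) (nat_lit 0x801265cf4) (nat_lit 1078178558),
  Rx.mk (nat_lit 372) (nat_lit 4) (nat_lit 6) (nat_lit 5) (nat_lit 6) (nat_lit 123) (nat_lit 127) r1_123 r1_127 (nat_lit 5531582) (nat_lit 0) (nat_lit 0) (nat_lit 0x80010250c) (nat_lit 1079375306),
  Rx.mk (nat_lit 374) (nat_lit 6) (nat_lit 6) (nat_lit 5) (nat_lit 7) (nat_lit 124) (nat_lit 129) r1_124 r1_129 (nat_lit 0) (nat_lit 0) (nat_lit 0) (nat_lit 0x80029938e) (nat_lit 1073741824),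
  Rx.mk (nat_lit 438) (nat_lit 6) (nat_lit 6) (nat_lit 6) (nat_lit 7) (nat_lit 125) (nat_lit 130) r1_125 r1_130 (nat_lit 0) (nat_lit 0) (nat_lit 0) (nat_lit 0x80029938e) (nat_lit 1073741824),
  Rx.mk (nat_lit 484) (nat_lit 4) (nat_lit 4) (nat_lit 7) (nat_lit 4) (nat_lit 126) (nat_lit 119) r1_126 r1_119 (nat_lit 162116195) (nat_lit 7841701) (nat_lit 0) (nat_lit 0x7f1abe9f6) (nat_lit 1258729120),
  Rx.mk (nat_lit 487) (nat_lit 7) (nat_lit 4) (nat_lit 7) (nat_lit 5) (nat_lit 128) (nat_lit 120) r1_128 r1_120 (nat_lit 0) (nat_lit 5106869) (nat_lit 0) (nat_lit 0x7fef974e8) (nat_lit 1080069093),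
  Rx.mk (nat_lit 492) (nat_lit 4) (nat_lit 5) (nat_lit 7) (nat_lit 6) (nat_lit 127) (nat_lit 123) r1_127 r1_123 (nat_lit 5531582) (nat_lit 0) (nat_lit 0) (nat_lit 0x80010250c) (nat_lit 1079375306),
  Rx.mk (nat_lit 495) (nat_lit 7) (nat_lit 5) (nat_lit 7) (nat_lit 7) (nat_lit 129) (nat_lit 124) r1_129 r1_124 (nat_lit 0) (nat_lit 0) (nat_lit 0) (nat_lit 0x80029938e) (nat_lit 1073741824),
  Rx.mk (nat_lit 511) (nat_lit 7) (nat_lit 7) (nat_lit 7) (nat_lit 7) (nat_lit 130) (nat_lit 125) r1_130 r1_125 (nat_lit 0) (nat_lit 0) (nat_lit 0) (nat_lit 0x80029938e) (nat_lit 1073741824)]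
noncomputable def e23_9 : List Rx := [
  Rx.mk (nat_lit 484) (nat_lit 4) (nat_lit 4) (nat_lit 7) (nat_lit 4) (nat_lit 154) (nat_lit 107) r1_154 r4_107 (nat_lit 225790253) (nat_lit 2584296) (nat_lit 0) (nat_lit 0x78edca536) (nat_lit 1420092973),
  Rx.mk (nat_lit 487) (nat_lit 7) (nat_lit 4) (nat_lit 7) (nat_lit 5) (nat_lit 158) (nat_lit 108) r1_158 r4_108 (nat_lit 0) (nat_lit 3186952) (nat_lit 0) (nat_lit 0x7feaece7a) (nat_lit 1078447376),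
  Rx.mk (nat_lit 492) (nat_lit 4) (nat_lit 5) (nat_lit 7) (nat_lit 6) (nat_lit 155) (nat_lit 109) r1_155 r4_109 (nat_lit 5659181) (nat_lit 0) (nat_lit 0) (nat_lit 0x80302b7b6) (nat_lit 1076486505),
  Rx.mk (nat_lit 495) (nat_lit 7) (nat_lit 5) (nat_lit 7) (nat_lit 7) (nat_lit 159) (nat_lit 110) r1_159 r4_110 (nat_lit 0) (nat_lit 0) (nat_lit 0) (nat_lit 0x802afc2d6) (nat_lit 1071158224),
  Rx.mk (nat_lit 500) (nat_lit 4) (nat_lit 6) (nat_lit 7) (nat_lit 6) (nat_lit 156) (nat_lit 111) r1_156 r4_111 (nat_lit 6157515) (nat_lit 0) (nat_lit 0) (nat_lit 0x8041aa0a0) (nat_lit 1075870639),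
  Rx.mk (nat_lit 502) (nat_lit 6) (nat_lit 6) (nat_lit 7) (nat_lit 7) (nat_lit 157) (nat_lit 113) r1_157 r4_113 (nat_lit 0) (nat_lit 0) (nat_lit 0) (nat_lit 0x80029938e) (nat_lit 1073741824),
  Rx.mk (nat_lit 503) (nat_lit 7) (nat_lit 6) (nat_lit 7) (nat_lit 7) (nat_lit 160) (nat_lit 112) r1_160 r4_112 (nat_lit 0) (nat_lit 0) (nat_lit 0) (nat_lit 0x80264a0da) (nat_lit 1071457724)]
noncomputable def e23_10 : List Rx := [
  Rx.mk (nat_lit 47) (nat_lit 7) (nat_lit 5) (nat_lit 0) (nat_lit 3) (nat_lit 246) (nat_lit 179) r1_246 r6_179 (nat_lit 0) (nat_lit 0) (nat_lit 1035266) (nat_lit 0x8401ef04c) (nat_lit 1010034890),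
  Rx.mk (nat_lit 236) (nat_lit 4) (nat_lit 5) (nat_lit 3) (nat_lit 6) (nat_lit 247) (nat_lit 178) r1_247 r6_178 (nat_lit 376415) (nat_lit 0) (nat_lit 0) (nat_lit 0x86cc62d18) (nat_lit 964233239),
  Rx.mk (nat_lit 239) (nat_lit 7) (nat_lit 5) (nat_lit 3) (nat_lit 7) (nat_lit 248) (nat_lit 180) r1_248 r6_180 (nat_lit 0) (nat_lit 0) (nat_lit 0) (nat_lit 0x8fcfe0ed2) (nat_lit 818127624)]
noncomputable def e23_11 : List Rx := [
  Rx.mk (nat_lit 228) (nat_lit 4) (nat_lit 4) (nat_lit 3) (nat_lit 4) (nat_lit 229) (nat_lit 107) r1_229 r5_107 (nat_lit 865457) (nat_lit 618569) (nat_lit 0) (nat_lit 0x6cfe8984c) (nat_lit 1392171750),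
  Rx.mk (nat_lit 231) (nat_lit 7) (nat_lit 4) (nat_lit 3) (nat_lit 5) (nat_lit 231) (nat_lit 108) r1_231 r5_108 (nat_lit 0) (nat_lit 2341422) (nat_lit 0) (nat_lit 0x7fcb8785a) (nat_lit 1079628546),
  Rx.mk (nat_lit 236) (nat_lit 4) (nat_lit 5) (nat_lit 3) (nat_lit 6) (nat_lit 230) (nat_lit 110) r1_230 r5_110 (nat_lit 4608950) (nat_lit 0) (nat_lit 0) (nat_lit 0x800f7fbd4) (nat_lit 1077522674),
  Rx.mk (nat_lit 239) (nat_lit 7) (nat_lit 5) (nat_lit 3) (nat_lit 7) (nat_lit 232) (nat_lit 111) r1_232 r5_111 (nat_lit 0) (nat_lit 0) (nat_lit 0) (nat_lit 0x80029938e) (nat_lit 1073741824),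
  Rx.mk (nat_lit 255) (nat_lit 7) (nat_lit 7) (nat_lit 3) (nat_lit 7) (nat_lit 233) (nat_lit 112) r1_233 r5_112 (nat_lit 0) (nat_lit 0) (nat_lit 0) (nat_lit 0x80029938e) (nat_lit 1073741824),
  Rx.mk (nat_lit 484) (nat_lit 4) (nat_lit 4) (nat_lit 7) (nat_lit 4) (nat_lit 225) (nat_lit 106) r1_225 r5_106 (nat_lit 212990587) (nat_lit 782939) (nat_lit 0) (nat_lit 0x7f9458f50) (nat_lit 1294612750),
  Rx.mk (nat_lit 492) (nat_lit 4) (nat_lit 5) (nat_lit 7) (nat_lit 6) (nat_lit 226) (nat_lit 109) r1_226 r5_109 (nat_lit 5712296) (nat_lit 0) (nat_lit 0) (nat_lit 0x807518c02) (nat_lit 1072163420),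
  Rx.mk (nat_lit 500) (nat_lit 4) (nat_lit 6) (nat_lit 7) (nat_lit 6) (nat_lit 227) (nat_lit 113) r1_227 r5_113 (nat_lit 7480504) (nat_lit 0) (nat_lit 0) (nat_lit 0x8050572c4) (nat_lit 1076259928),
  Rx.mk (nat_lit 502) (nat_lit 6) (nat_lit 6) (nat_lit 7) (nat_lit 7) (nat_lit 228) (nat_lit 114) r1_228 r5_114 (nat_lit 0) (nat_lit 0) (nat_lit 0) (nat_lit 0x8032723e4) (nat_lit 1070680924)]
noncomputable def e23_12 : List Rx := [
  Rx.mk (nat_lit 45) (nat_lit 5) (nat_lit 5) (nat_lit 0) (nat_lit 3) (nat_lit 252) (nat_lit 282) r1_252 r0_282 (nat_lit 0) (nat_lit 0) (nat_lit 821343463) (nat_lit 0x7fffe9b52) (nat_lit 1895092387),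
  Rx.mk (nat_lit 108) (nat_lit 4) (nat_lit 5) (nat_lit 1) (nat_lit 6) (nat_lit 253) (nat_lit 283) r1_253 r0_283 (nat_lit 4606623) (nat_lit 0) (nat_lit 0) (nat_lit 0x7ce19384a) (nat_lit 1130436347),
  Rx.mk (nat_lit 109) (nat_lit 5) (nat_lit 5) (nat_lit 1) (nat_lit 7) (nat_lit 254) (nat_lit 284) r1_254 r0_284 (nat_lit 0) (nat_lit 0) (nat_lit 0) (nat_lit 0x7fab68344) (nat_lit 1079366724)]
noncomputable def e23_13 : List Rx := [
  Rx.mk (nat_lit 108) (nat_lit 4) (nat_lit 5) (nat_lit 1) (nat_lit 6) (nat_lit 256) (nat_lit 221) r1_256 r7_221 (nat_lit 5449534) (nat_lit 0) (nat_lit 0) (nat_lit 0x7f8e54334) (nat_lit 1086711158),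
  Rx.mk (nat_lit 109) (nat_lit 5) (nat_lit 5) (nat_lit 1) (nat_lit 7) (nat_lit 257) (nat_lit 222) r1_257 r7_222 (nat_lit 0) (nat_lit 0) (nat_lit 0) (nat_lit 0x80029938e) (nat_lit 1073741824)]
noncomputable def e23_14 : List Rx := [
  Rx.mk (nat_lit 45) (nat_lit 5) (nat_lit 5) (nat_lit 0) (nat_lit 3) (nat_lit 278) (nat_lit 278) r1_278 r1_278 (nat_lit 0) (nat_lit 0) (nat_lit 20008317) (nat_lit 0x80950cd42) (nat_lit 1084429441),
  Rx.mk (nat_lit 109) (nat_lit 5) (nat_lit 5) (nat_lit 1) (nat_lit 7) (nat_lit 279) (nat_lit 279) r1_279 r1_279 (nat_lit 0) (nat_lit 0) (nat_lit 0) (nat_lit 0x80029938e) (nat_lit 1073741824)]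
noncomputable def e23_15 : List Rx := [
  Rx.mk (nat_lit 109) (nat_lit 5) (nat_lit 5) (nat_lit 1) (nat_lit 7) (nat_lit 286) (nat_lit 180) r1_286 r8_180 (nat_lit 0) (nat_lit 0) (nat_lit 0) (nat_lit 0x80029938e) (nat_lit 1073741824)]
noncomputable def e23_16 : List Rx := [
  Rx.mk (nat_lit 108) (nat_lit 4) (nat_lit 5) (nat_lit 1) (nat_lit 6) (nat_lit 276) (nat_lit 318) r1_276 r8_318 (nat_lit 5449534) (nat_lit 0) (nat_lit 0) (nat_lit 0x7fe5be62e) (nat_lit 1081045658),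
  Rx.mk (nat_lit 109) (nat_lit 5) (nat_lit 5) (nat_lit 1) (nat_lit 7) (nat_lit 277) (nat_lit 319) r1_277 r8_319 (nat_lit 0) (nat_lit 0) (nat_lit 0) (nat_lit 0x800e1d8b8) (nat_lit 1073003524),
  Rx.mk (nat_lit 364) (nat_lit 4) (nat_lit 5) (nat_lit 5) (nat_lit 6) (nat_lit 274) (nat_lit 316) r1_274 r8_316 (nat_lit 5449534) (nat_lit 0) (nat_lit 0) (nat_lit 0x7ff85fa80) (nat_lit 1079847858),
  Rx.mk (nat_lit 365) (nat_lit 5) (nat_lit 5) (nat_lit 5) (nat_lit 7) (nat_lit 275) (nat_lit 317) r1_275 r8_317 (nat_lit 0) (nat_lit 0) (nat_lit 0) (nat_lit 0x80029938e) (nat_lit 1073741824)]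
noncomputable def e23_17 : List Rx := [
  Rx.mk (nat_lit 356) (nat_lit 4) (nat_lit 4) (nat_lit 5) (nat_lit 4) (nat_lit 262) (nat_lit 160) r1_262 r9_160 (nat_lit 7547362) (nat_lit 19988923) (nat_lit 0) (nat_lit 0x63fb2f9e8) (nat_lit 1568518609),
  Rx.mk (nat_lit 357) (nat_lit 5) (nat_lit 4) (nat_lit 5) (nat_lit 5) (nat_lit 265) (nat_lit 163) r1_265 r9_163 (nat_lit 0) (nat_lit 5465451) (nat_lit 0) (nat_lit 0x80010992e) (nat_lit 1079307375),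
  Rx.mk (nat_lit 364) (nat_lit 4) (nat_lit 5) (nat_lit 5) (nat_lit 6) (nat_lit 263) (nat_lit 161) r1_263 r9_161 (nat_lit 5449534) (nat_lit 0) (nat_lit 0) (nat_lit 0x80029938e) (nat_lit 1079191358),
  Rx.mk (nat_lit 365) (nat_lit 5) (nat_lit 5) (nat_lit 5) (nat_lit 7) (nat_lit 266) (nat_lit 164) r1_266 r9_164 (nat_lit 0) (nat_lit 0) (nat_lit 0) (nat_lit 0x80029938e) (nat_lit 1073741824),
  Rx.mk (nat_lit 372) (nat_lit 4) (nat_lit 6) (nat_lit 5) (nat_lit 6) (nat_lit 264) (nat_lit 162) r1_264 r9_162 (nat_lit 5449534) (nat_lit 0) (nat_lit 0) (nat_lit 0x80029938e) (nat_lit 1079191358),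
  Rx.mk (nat_lit 373) (nat_lit 5) (nat_lit 6) (nat_lit 5) (nat_lit 7) (nat_lit 267) (nat_lit 165) r1_267 r9_165 (nat_lit 0) (nat_lit 0) (nat_lit 0) (nat_lit 0x80029938e) (nat_lit 1073741824),
  Rx.mk (nat_lit 374) (nat_lit 6) (nat_lit 6) (nat_lit 5) (nat_lit 7) (nat_lit 268) (nat_lit 166) r1_268 r9_166 (nat_lit 0) (nat_lit 0) (nat_lit 0) (nat_lit 0x80029938e) (nat_lit 1073741824)]
noncomputable def e23_18 : List Rx := [
  Rx.mk (nat_lit 44) (nat_lit 4) (nat_lit 5) (nat_lit 0) (nat_lit 2) (nat_lit 297) (nat_lit 293) r1_297 r4_293 (nat_lit 5098899) (nat_lit 0) (nat_lit 227840882) (nat_lit 0x7551b3222) (nat_lit 1484851905),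
  Rx.mk (nat_lit 45) (nat_lit 5) (nat_lit 5) (nat_lit 0) (nat_lit 3) (nat_lit 298) (nat_lit 294) r1_298 r4_294 (nat_lit 0) (nat_lit 0) (nat_lit 239917945) (nat_lit 0x7f5e8ef50) (nat_lit 1324257369),
  Rx.mk (nat_lit 47) (nat_lit 7) (nat_lit 5) (nat_lit 0) (nat_lit 3) (nat_lit 299) (nat_lit 295) r1_299 r4_295 (nat_lit 0) (nat_lit 0) (nat_lit 5727388) (nat_lit 0x801c5e8a0) (nat_lit 1077818112),
  Rx.mk (nat_lit 108) (nat_lit 4) (nat_lit 5) (nat_lit 1) (nat_lit 6) (nat_lit 300) (nat_lit 296) r1_300 r4_296 (nat_lit 4793271) (nat_lit 0) (nat_lit 0) (nat_lit 0x7fffe83ba) (nat_lit 1078705595),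
  Rx.mk (nat_lit 109) (nat_lit 5) (nat_lit 5) (nat_lit 1) (nat_lit 7) (nat_lit 301) (nat_lit 297) r1_301 r4_297 (nat_lit 0) (nat_lit 0) (nat_lit 0) (nat_lit 0x80265157e) (nat_lit 1071456124),
  Rx.mk (nat_lit 111) (nat_lit 7) (nat_lit 5) (nat_lit 1) (nat_lit 7) (nat_lit 302) (nat_lit 298) r1_302 r4_298 (nat_lit 0) (nat_lit 0) (nat_lit 0) (nat_lit 0x80107341e) (nat_lit 1072853724)]
noncomputable def e23_19 : List Rx := [
  Rx.mk (nat_lit 108) (nat_lit 4) (nat_lit 5) (nat_lit 1) (nat_lit 6) (nat_lit 307) (nat_lit 172) r1_307 r10_172 (nat_lit 5449534) (nat_lit 0) (nat_lit 0) (nat_lit 0x7f87d2d1c) (nat_lit 1087130658),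
  Rx.mk (nat_lit 109) (nat_lit 5) (nat_lit 5) (nat_lit 1) (nat_lit 7) (nat_lit 308) (nat_lit 173) r1_308 r10_173 (nat_lit 0) (nat_lit 0) (nat_lit 0) (nat_lit 0x80029938e) (nat_lit 1073741824),
  Rx.mk (nat_lit 111) (nat_lit 7) (nat_lit 5) (nat_lit 1) (nat_lit 7) (nat_lit 309) (nat_lit 174) r1_309 r10_174 (nat_lit 0) (nat_lit 0) (nat_lit 0) (nat_lit 0x80029938e) (nat_lit 1073741824)]
noncomputable def e23_20 : List Rx := [
  Rx.mk (nat_lit 44) (nat_lit 4) (nat_lit 5) (nat_lit 0) (nat_lit 2) (nat_lit 316) (nat_lit 183) r1_316 r11_183 (nat_lit 8821660) (nat_lit 0) (nat_lit 234072587) (nat_lit 0x7aeb624b8) (nat_lit 1401431171),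
  Rx.mk (nat_lit 45) (nat_lit 5) (nat_lit 5) (nat_lit 0) (nat_lit 3) (nat_lit 317) (nat_lit 186) r1_317 r11_186 (nat_lit 0) (nat_lit 0) (nat_lit 10371928) (nat_lit 0x7fad0bc00) (nat_lit 1089630552),
  Rx.mk (nat_lit 47) (nat_lit 7) (nat_lit 5) (nat_lit 0) (nat_lit 3) (nat_lit 318) (nat_lit 189) r1_318 r11_189 (nat_lit 0) (nat_lit 0) (nat_lit 5657793) (nat_lit 0x7fff429ec) (nat_lit 1079613617),
  Rx.mk (nat_lit 108) (nat_lit 4) (nat_lit 5) (nat_lit 1) (nat_lit 6) (nat_lit 319) (nat_lit 184) r1_319 r11_184 (nat_lit 5449534) (nat_lit 0) (nat_lit 0) (nat_lit 0x80029938e) (nat_lit 1079191358),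
  Rx.mk (nat_lit 109) (nat_lit 5) (nat_lit 5) (nat_lit 1) (nat_lit 7) (nat_lit 320) (nat_lit 187) r1_320 r11_187 (nat_lit 0) (nat_lit 0) (nat_lit 0) (nat_lit 0x80029938e) (nat_lit 1073741824),
  Rx.mk (nat_lit 111) (nat_lit 7) (nat_lit 5) (nat_lit 1) (nat_lit 7) (nat_lit 321) (nat_lit 190) r1_321 r11_190 (nat_lit 0) (nat_lit 0) (nat_lit 0) (nat_lit 0x80029938e) (nat_lit 1073741824),
  Rx.mk (nat_lit 236) (nat_lit 4) (nat_lit 5) (nat_lit 3) (nat_lit 6) (nat_lit 322) (nat_lit 185) r1_322 r11_185 (nat_lit 5364616) (nat_lit 0) (nat_lit 0) (nat_lit 0x7ffcc177c) (nat_lit 1079481040),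
  Rx.mk (nat_lit 237) (nat_lit 5) (nat_lit 5) (nat_lit 3) (nat_lit 7) (nat_lit 323) (nat_lit 188) r1_323 r11_188 (nat_lit 0) (nat_lit 0) (nat_lit 0) (nat_lit 0x807a04fb8) (nat_lit 1066138524)]
noncomputable def e23_21 : List Rx := [
  Rx.mk (nat_lit 356) (nat_lit 4) (nat_lit 4) (nat_lit 5) (nat_lit 4) (nat_lit 269) (nat_lit 83) r1_269 r9_83 (nat_lit 83686084) (nat_lit 6516784) (nat_lit 0) (nat_lit 0x6eb511780) (nat_lit 1452352692),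
  Rx.mk (nat_lit 372) (nat_lit 4) (nat_lit 6) (nat_lit 5) (nat_lit 6) (nat_lit 270) (nat_lit 84) r1_270 r9_84 (nat_lit 5449534) (nat_lit 0) (nat_lit 0) (nat_lit 0x80029938e) (nat_lit 1079191358),
  Rx.mk (nat_lit 374) (nat_lit 6) (nat_lit 6) (nat_lit 5) (nat_lit 7) (nat_lit 271) (nat_lit 85) r1_271 r9_85 (nat_lit 0) (nat_lit 0) (nat_lit 0) (nat_lit 0x80029938e) (nat_lit 1073741824)]
noncomputable def e23_22 : List Rx := [
  Rx.mk (nat_lit 251) (nat_lit 3) (nat_lit 7) (nat_lit 3) (nat_lit 7) (nat_lit 9) (nat_lit 20) r1_9 r0_20 (nat_lit 0) (nat_lit 0) (nat_lit 0) (nat_lit 0x7ffd4488e) (nat_lit 1074080924),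
  Rx.mk (nat_lit 255) (nat_lit 7) (nat_lit 7) (nat_lit 3) (nat_lit 7) (nat_lit 8) (nat_lit 21) r1_8 r0_21 (nat_lit 0) (nat_lit 0) (nat_lit 0) (nat_lit 0x801ae09f6) (nat_lit 1072185524),
  Rx.mk (nat_lit 310) (nat_lit 6) (nat_lit 6) (nat_lit 4) (nat_lit 3) (nat_lit 0) (nat_lit 22) r1_0 r0_22 (nat_lit 0) (nat_lit 0) (nat_lit 3533431) (nat_lit 0x7556e8ecc) (nat_lit 1255098455),
  Rx.mk (nat_lit 438) (nat_lit 6) (nat_lit 6) (nat_lit 6) (nat_lit 7) (nat_lit 1) (nat_lit 29) r1_1 r0_29 (nat_lit 0) (nat_lit 0) (nat_lit 0) (nat_lit 0x80f88a298) (nat_lit 1058137724),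
  Rx.mk (nat_lit 484) (nat_lit 4) (nat_lit 4) (nat_lit 7) (nat_lit 4) (nat_lit 2) (nat_lit 23) r1_2 r0_23 (nat_lit 1455550) (nat_lit 718420) (nat_lit 0) (nat_lit 0x6a3efe8ee) (nat_lit 1438693294),
  Rx.mk (nat_lit 487) (nat_lit 7) (nat_lit 4) (nat_lit 7) (nat_lit 5) (nat_lit 5) (nat_lit 25) r1_5 r0_25 (nat_lit 0) (nat_lit 1321792) (nat_lit 0) (nat_lit 0x7eac0b5f4) (nat_lit 1097321716),
  Rx.mk (nat_lit 500) (nat_lit 4) (nat_lit 6) (nat_lit 7) (nat_lit 6) (nat_lit 3) (nat_lit 24) r1_3 r0_24 (nat_lit 3519261) (nat_lit 0) (nat_lit 0) (nat_lit 0x7fe91f23c) (nat_lit 1078893085),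
  Rx.mk (nat_lit 502) (nat_lit 6) (nat_lit 6) (nat_lit 7) (nat_lit 7) (nat_lit 4) (nat_lit 28) r1_4 r0_28 (nat_lit 0) (nat_lit 0) (nat_lit 0) (nat_lit 0x8b4469ad8) (nat_lit 891617424),
  Rx.mk (nat_lit 503) (nat_lit 7) (nat_lit 6) (nat_lit 7) (nat_lit 7) (nat_lit 6) (nat_lit 27) r1_6 r0_27 (nat_lit 0) (nat_lit 0) (nat_lit 0) (nat_lit 0x8026ace56) (nat_lit 1071433124),
  Rx.mk (nat_lit 511) (nat_lit 7) (nat_lit 7) (nat_lit 7) (nat_lit 7) (nat_lit 7) (nat_lit 26) r1_7 r0_26 (nat_lit 0) (nat_lit 0) (nat_lit 0) (nat_lit 0x8024ca822) (nat_lit 1071553224)]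
noncomputable def e23_23 : List Rx := [
  Rx.mk (nat_lit 27) (nat_lit 3) (nat_lit 3) (nat_lit 0) (nat_lit 3) (nat_lit 20) (nat_lit 10) r1_20 r1_10 (nat_lit 0) (nat_lit 0) (nat_lit 1155016) (nat_lit 0x7e229dd08) (nat_lit 1106068540),
  Rx.mk (nat_lit 128) (nat_lit 0) (nat_lit 0) (nat_lit 2) (nat_lit 4) (nat_lit 21) (nat_lit 14) r1_21 r1_14 (nat_lit 9177) (nat_lit 7187) (nat_lit 0) (nat_lit 0x6a28abe8e) (nat_lit 1437918688),
  Rx.mk (nat_lit 130) (nat_lit 2) (nat_lit 0) (nat_lit 2) (nat_lit 5) (nat_lit 23) (nat_lit 17) r1_23 r1_17 (nat_lit 0) (nat_lit 3873) (nat_lit 0) (nat_lit 0x81d039b6c) (nat_lit 1044423597),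
  Rx.mk (nat_lit 146) (nat_lit 2) (nat_lit 2) (nat_lit 2) (nat_lit 7) (nat_lit 24) (nat_lit 19) r1_24 r1_19 (nat_lit 0) (nat_lit 0) (nat_lit 0) (nat_lit 0x7fe5feca6) (nat_lit 1075577124),
  Rx.mk (nat_lit 152) (nat_lit 0) (nat_lit 3) (nat_lit 2) (nat_lit 6) (nat_lit 22) (nat_lit 15) r1_22 r1_15 (nat_lit 1884012) (nat_lit 0) (nat_lit 0) (nat_lit 0x80679ce84) (nat_lit 1069185636),
  Rx.mk (nat_lit 154) (nat_lit 2) (nat_lit 3) (nat_lit 2) (nat_lit 7) (nat_lit 25) (nat_lit 18) r1_25 r1_18 (nat_lit 0) (nat_lit 0) (nat_lit 0) (nat_lit 0x7fe5feca6) (nat_lit 1075577124),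
  Rx.mk (nat_lit 155) (nat_lit 3) (nat_lit 3) (nat_lit 2) (nat_lit 7) (nat_lit 26) (nat_lit 16) r1_26 r1_16 (nat_lit 0) (nat_lit 0) (nat_lit 0) (nat_lit 0x8cc7baddc) (nat_lit 867116824),
  Rx.mk (nat_lit 219) (nat_lit 3) (nat_lit 3) (nat_lit 3) (nat_lit 7) (nat_lit 29) (nat_lit 11) r1_29 r1_11 (nat_lit 0) (nat_lit 0) (nat_lit 0) (nat_lit 0x74ddc19d6) (nat_lit 1259451624),
  Rx.mk (nat_lit 251) (nat_lit 3) (nat_lit 7) (nat_lit 3) (nat_lit 7) (nat_lit 28) (nat_lit 12) r1_28 r1_12 (nat_lit 0) (nat_lit 0) (nat_lit 0) (nat_lit 0x7fb02b11a) (nat_lit 1079058024),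
  Rx.mk (nat_lit 255) (nat_lit 7) (nat_lit 7) (nat_lit 3) (nat_lit 7) (nat_lit 27) (nat_lit 13) r1_27 r1_13 (nat_lit 0) (nat_lit 0) (nat_lit 0) (nat_lit 0x801443f4e) (nat_lit 1072607624),
  Rx.mk (nat_lit 310) (nat_lit 6) (nat_lit 6) (nat_lit 4) (nat_lit 3) (nat_lit 10) (nat_lit 20) r1_10 r1_20 (nat_lit 0) (nat_lit 0) (nat_lit 1155016) (nat_lit 0x7e229dd08) (nat_lit 1106068540),
  Rx.mk (nat_lit 402) (nat_lit 2) (nat_lit 2) (nat_lit 6) (nat_lit 7) (nat_lit 13) (nat_lit 27) r1_13 r1_27 (nat_lit 0) (nat_lit 0) (nat_lit 0) (nat_lit 0x801443f4e) (nat_lit 1072607624),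
  Rx.mk (nat_lit 406) (nat_lit 6) (nat_lit 2) (nat_lit 6) (nat_lit 7) (nat_lit 12) (nat_lit 28) r1_12 r1_28 (nat_lit 0) (nat_lit 0) (nat_lit 0) (nat_lit 0x7fb02b11a) (nat_lit 1079058024),
  Rx.mk (nat_lit 438) (nat_lit 6) (nat_lit 6) (nat_lit 6) (nat_lit 7) (nat_lit 11) (nat_lit 29) r1_11 r1_29 (nat_lit 0) (nat_lit 0) (nat_lit 0) (nat_lit 0x74ddc19d6) (nat_lit 1259451624),
  Rx.mk (nat_lit 484) (nat_lit 4) (nat_lit 4) (nat_lit 7) (nat_lit 4) (nat_lit 14) (nat_lit 21) r1_14 r1_21 (nat_lit 9177) (nat_lit 7187) (nat_lit 0) (nat_lit 0x6a28abe8e) (nat_lit 1437918688),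
  Rx.mk (nat_lit 487) (nat_lit 7) (nat_lit 4) (nat_lit 7) (nat_lit 5) (nat_lit 17) (nat_lit 23) r1_17 r1_23 (nat_lit 0) (nat_lit 3873) (nat_lit 0) (nat_lit 0x81d039b6c) (nat_lit 1044423597),
  Rx.mk (nat_lit 500) (nat_lit 4) (nat_lit 6) (nat_lit 7) (nat_lit 6) (nat_lit 15) (nat_lit 22) r1_15 r1_22 (nat_lit 1884012) (nat_lit 0) (nat_lit 0) (nat_lit 0x80679ce84) (nat_lit 1069185636),
  Rx.mk (nat_lit 502) (nat_lit 6) (nat_lit 6) (nat_lit 7) (nat_lit 7) (nat_lit 16) (nat_lit 26) r1_16 r1_26 (nat_lit 0) (nat_lit 0) (nat_lit 0) (nat_lit 0x8cc7baddc) (nat_lit 867116824),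
  Rx.mk (nat_lit 503) (nat_lit 7) (nat_lit 6) (nat_lit 7) (nat_lit 7) (nat_lit 18) (nat_lit 25) r1_18 r1_25 (nat_lit 0) (nat_lit 0) (nat_lit 0) (nat_lit 0x7fe5feca6) (nat_lit 1075577124),
  Rx.mk (nat_lit 511) (nat_lit 7) (nat_lit 7) (nat_lit 7) (nat_lit 7) (nat_lit 19) (nat_lit 24) r1_19 r1_24 (nat_lit 0) (nat_lit 0) (nat_lit 0) (nat_lit 0x7fe5feca6) (nat_lit 1075577124)]
noncomputable def e23_24 : List Rx := [
  Rx.mk (nat_lit 231) (nat_lit 7) (nat_lit 4) (nat_lit 3) (nat_lit 5) (nat_lit 55) (nat_lit 14) r1_55 r4_14 (nat_lit 0) (nat_lit 2626510) (nat_lit 0) (nat_lit 0x8035143e0) (nat_lit 1073140434),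
  Rx.mk (nat_lit 251) (nat_lit 3) (nat_lit 7) (nat_lit 3) (nat_lit 7) (nat_lit 57) (nat_lit 13) r1_57 r4_13 (nat_lit 0) (nat_lit 0) (nat_lit 0) (nat_lit 0x804a16bda) (nat_lit 1069179124),
  Rx.mk (nat_lit 255) (nat_lit 7) (nat_lit 7) (nat_lit 3) (nat_lit 7) (nat_lit 56) (nat_lit 15) r1_56 r4_15 (nat_lit 0) (nat_lit 0) (nat_lit 0) (nat_lit 0x803369e32) (nat_lit 1070621424),
  Rx.mk (nat_lit 484) (nat_lit 4) (nat_lit 4) (nat_lit 7) (nat_lit 4) (nat_lit 50) (nat_lit 16) r1_50 r4_16 (nat_lit 79097561) (nat_lit 2062902) (nat_lit 0) (nat_lit 0x6ccb7681a) (nat_lit 1475199687),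
  Rx.mk (nat_lit 487) (nat_lit 7) (nat_lit 4) (nat_lit 7) (nat_lit 5) (nat_lit 53) (nat_lit 18) r1_53 r4_18 (nat_lit 0) (nat_lit 2991468) (nat_lit 0) (nat_lit 0x7deccd1a6) (nat_lit 1111434092),
  Rx.mk (nat_lit 500) (nat_lit 4) (nat_lit 6) (nat_lit 7) (nat_lit 6) (nat_lit 51) (nat_lit 17) r1_51 r4_17 (nat_lit 4988897) (nat_lit 0) (nat_lit 0) (nat_lit 0x801b824ae) (nat_lit 1077133921),
  Rx.mk (nat_lit 502) (nat_lit 6) (nat_lit 6) (nat_lit 7) (nat_lit 7) (nat_lit 52) (nat_lit 20) r1_52 r4_20 (nat_lit 0) (nat_lit 0) (nat_lit 0) (nat_lit 0x8103de856) (nat_lit 1057413024),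
  Rx.mk (nat_lit 503) (nat_lit 7) (nat_lit 6) (nat_lit 7) (nat_lit 7) (nat_lit 54) (nat_lit 19) r1_54 r4_19 (nat_lit 0) (nat_lit 0) (nat_lit 0) (nat_lit 0x80272dc18) (nat_lit 1071401024)]
noncomputable def e23_25 : List Rx := [
  Rx.mk (nat_lit 292) (nat_lit 4) (nat_lit 4) (nat_lit 4) (nat_lit 0) (nat_lit 107) (nat_lit 126) r1_107 r7_126 (nat_lit 10629653) (nat_lit 861237) (nat_lit 1562278) (nat_lit 0x3d73cabcc) (nat_lit 2196411992),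
  Rx.mk (nat_lit 308) (nat_lit 4) (nat_lit 6) (nat_lit 4) (nat_lit 2) (nat_lit 108) (nat_lit 130) r1_108 r7_130 (nat_lit 181791674) (nat_lit 0) (nat_lit 16900660) (nat_lit 0x795055188) (nat_lit 1384004258),
  Rx.mk (nat_lit 310) (nat_lit 6) (nat_lit 6) (nat_lit 4) (nat_lit 3) (nat_lit 109) (nat_lit 133) r1_109 r7_133 (nat_lit 0) (nat_lit 0) (nat_lit 4413768) (nat_lit 0x800030c78) (nat_lit 1078308092),
  Rx.mk (nat_lit 438) (nat_lit 6) (nat_lit 6) (nat_lit 6) (nat_lit 7) (nat_lit 110) (nat_lit 135) r1_110 r7_135 (nat_lit 0) (nat_lit 0) (nat_lit 0) (nat_lit 0x80029938e) (nat_lit 1073741824),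
  Rx.mk (nat_lit 484) (nat_lit 4) (nat_lit 4) (nat_lit 7) (nat_lit 4) (nat_lit 111) (nat_lit 127) r1_111 r7_127 (nat_lit 2019292) (nat_lit 764768) (nat_lit 0) (nat_lit 0x637a26ad6) (nat_lit 1552157184),
  Rx.mk (nat_lit 487) (nat_lit 7) (nat_lit 4) (nat_lit 7) (nat_lit 5) (nat_lit 114) (nat_lit 128) r1_114 r7_128 (nat_lit 0) (nat_lit 3945399) (nat_lit 0) (nat_lit 0x7a30f8c9e) (nat_lit 1174620723),
  Rx.mk (nat_lit 500) (nat_lit 4) (nat_lit 6) (nat_lit 7) (nat_lit 6) (nat_lit 112) (nat_lit 131) r1_112 r7_131 (nat_lit 6527677) (nat_lit 0) (nat_lit 0) (nat_lit 0x7ff713d3e) (nat_lit 1081006201),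
  Rx.mk (nat_lit 502) (nat_lit 6) (nat_lit 6) (nat_lit 7) (nat_lit 7) (nat_lit 113) (nat_lit 134) r1_113 r7_134 (nat_lit 0) (nat_lit 0) (nat_lit 0) (nat_lit 0x8017d4d3e) (nat_lit 1072381924),
  Rx.mk (nat_lit 503) (nat_lit 7) (nat_lit 6) (nat_lit 7) (nat_lit 7) (nat_lit 115) (nat_lit 132) r1_115 r7_132 (nat_lit 0) (nat_lit 0) (nat_lit 0) (nat_lit 0x80029938e) (nat_lit 1073741824),
  Rx.mk (nat_lit 511) (nat_lit 7) (nat_lit 7) (nat_lit 7) (nat_lit 7) (nat_lit 116) (nat_lit 129) r1_116 r7_129 (nat_lit 0) (nat_lit 0) (nat_lit 0) (nat_lit 0x80029938e) (nat_lit 1073741824)]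
noncomputable def e23_26 : List Rx := [
  Rx.mk (nat_lit 292) (nat_lit 4) (nat_lit 4) (nat_lit 4) (nat_lit 0) (nat_lit 141) (nat_lit 90) r1_141 r8_90 (nat_lit 12959764) (nat_lit 2925567) (nat_lit 6586378) (nat_lit 0x3ec2fab92) (nat_lit 2184013933),
  Rx.mk (nat_lit 308) (nat_lit 4) (nat_lit 6) (nat_lit 4) (nat_lit 2) (nat_lit 142) (nat_lit 94) r1_142 r8_94 (nat_lit 30884831) (nat_lit 0) (nat_lit 12510015) (nat_lit 0x700bf15a4) (nat_lit 1383215470),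
  Rx.mk (nat_lit 310) (nat_lit 6) (nat_lit 6) (nat_lit 4) (nat_lit 3) (nat_lit 143) (nat_lit 97) r1_143 r8_97 (nat_lit 0) (nat_lit 0) (nat_lit 5544217) (nat_lit 0x7ffe8daa6) (nat_lit 1079545441),
  Rx.mk (nat_lit 402) (nat_lit 2) (nat_lit 2) (nat_lit 6) (nat_lit 7) (nat_lit 146) (nat_lit 101) r1_146 r8_101 (nat_lit 0) (nat_lit 0) (nat_lit 0) (nat_lit 0x80029938e) (nat_lit 1073741824),
  Rx.mk (nat_lit 406) (nat_lit 6) (nat_lit 2) (nat_lit 6) (nat_lit 7) (nat_lit 145) (nat_lit 100) r1_145 r8_100 (nat_lit 0) (nat_lit 0) (nat_lit 0) (nat_lit 0x80029938e) (nat_lit 1073741824),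
  Rx.mk (nat_lit 438) (nat_lit 6) (nat_lit 6) (nat_lit 6) (nat_lit 7) (nat_lit 144) (nat_lit 99) r1_144 r8_99 (nat_lit 0) (nat_lit 0) (nat_lit 0) (nat_lit 0x80029938e) (nat_lit 1073741824),
  Rx.mk (nat_lit 484) (nat_lit 4) (nat_lit 4) (nat_lit 7) (nat_lit 4) (nat_lit 147) (nat_lit 91) r1_147 r8_91 (nat_lit 10554535) (nat_lit 3013316) (nat_lit 0) (nat_lit 0x606b0776a) (nat_lit 1613957075),
  Rx.mk (nat_lit 487) (nat_lit 7) (nat_lit 4) (nat_lit 7) (nat_lit 5) (nat_lit 150) (nat_lit 92) r1_150 r8_92 (nat_lit 0) (nat_lit 4371124) (nat_lit 0) (nat_lit 0x7f9613cdc) (nat_lit 1085125348),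
  Rx.mk (nat_lit 500) (nat_lit 4) (nat_lit 6) (nat_lit 7) (nat_lit 6) (nat_lit 148) (nat_lit 95) r1_148 r8_95 (nat_lit 5449534) (nat_lit 0) (nat_lit 0) (nat_lit 0x80029938e) (nat_lit 1079191358),
  Rx.mk (nat_lit 502) (nat_lit 6) (nat_lit 6) (nat_lit 7) (nat_lit 7) (nat_lit 149) (nat_lit 98) r1_149 r8_98 (nat_lit 0) (nat_lit 0) (nat_lit 0) (nat_lit 0x80029938e) (nat_lit 1073741824),
  Rx.mk (nat_lit 503) (nat_lit 7) (nat_lit 6) (nat_lit 7) (nat_lit 7) (nat_lit 151) (nat_lit 96) r1_151 r8_96 (nat_lit 0) (nat_lit 0) (nat_lit 0) (nat_lit 0x80029938e) (nat_lit 1073741824),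
  Rx.mk (nat_lit 511) (nat_lit 7) (nat_lit 7) (nat_lit 7) (nat_lit 7) (nat_lit 152) (nat_lit 93) r1_152 r8_93 (nat_lit 0) (nat_lit 0) (nat_lit 0) (nat_lit 0x80029938e) (nat_lit 1073741824)]
noncomputable def e23_27 : List Rx := [
  Rx.mk (nat_lit 292) (nat_lit 4) (nat_lit 4) (nat_lit 4) (nat_lit 0) (nat_lit 131) (nat_lit 15) r1_131 r8_15 (nat_lit 81717872) (nat_lit 2913128) (nat_lit 11926250) (nat_lit 0x48dac9494) (nat_lit 2089819574),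
  Rx.mk (nat_lit 308) (nat_lit 4) (nat_lit 6) (nat_lit 4) (nat_lit 2) (nat_lit 132) (nat_lit 16) r1_132 r8_16 (nat_lit 45348310) (nat_lit 0) (nat_lit 24476340) (nat_lit 0x716a0d466) (nat_lit 1386843574),
  Rx.mk (nat_lit 310) (nat_lit 6) (nat_lit 6) (nat_lit 4) (nat_lit 3) (nat_lit 133) (nat_lit 17) r1_133 r8_17 (nat_lit 0) (nat_lit 0) (nat_lit 4792579) (nat_lit 0x7ff6a942a) (nat_lit 1079300103),
  Rx.mk (nat_lit 356) (nat_lit 4) (nat_lit 4) (nat_lit 5) (nat_lit 4) (nat_lit 134) (nat_lit 18) r1_134 r8_18 (nat_lit 172043056) (nat_lit 5603265) (nat_lit 0) (nat_lit 0x79817c89c) (nat_lit 1359753945),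
  Rx.mk (nat_lit 372) (nat_lit 4) (nat_lit 6) (nat_lit 5) (nat_lit 6) (nat_lit 135) (nat_lit 19) r1_135 r8_19 (nat_lit 5449534) (nat_lit 0) (nat_lit 0) (nat_lit 0x80029938e) (nat_lit 1079191358),
  Rx.mk (nat_lit 374) (nat_lit 6) (nat_lit 6) (nat_lit 5) (nat_lit 7) (nat_lit 136) (nat_lit 20) r1_136 r8_20 (nat_lit 0) (nat_lit 0) (nat_lit 0) (nat_lit 0x80029938e) (nat_lit 1073741824),
  Rx.mk (nat_lit 438) (nat_lit 6) (nat_lit 6) (nat_lit 6) (nat_lit 7) (nat_lit 137) (nat_lit 24) r1_137 r8_24 (nat_lit 0) (nat_lit 0) (nat_lit 0) (nat_lit 0x80029938e) (nat_lit 1073741824),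
  Rx.mk (nat_lit 484) (nat_lit 4) (nat_lit 4) (nat_lit 7) (nat_lit 4) (nat_lit 138) (nat_lit 21) r1_138 r8_21 (nat_lit 139970032) (nat_lit 4804096) (nat_lit 0) (nat_lit 0x78866aa58) (nat_lit 1343234852),
  Rx.mk (nat_lit 487) (nat_lit 7) (nat_lit 4) (nat_lit 7) (nat_lit 5) (nat_lit 139) (nat_lit 22) r1_139 r8_22 (nat_lit 0) (nat_lit 4861700) (nat_lit 0) (nat_lit 0x7fe599e8c) (nat_lit 1080466924),
  Rx.mk (nat_lit 511) (nat_lit 7) (nat_lit 7) (nat_lit 7) (nat_lit 7) (nat_lit 140) (nat_lit 23) r1_140 r8_23 (nat_lit 0) (nat_lit 0) (nat_lit 0) (nat_lit 0x80029938e) (nat_lit 1073741824)]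
noncomputable def e23_28 : List Rx := [
  Rx.mk (nat_lit 484) (nat_lit 4) (nat_lit 4) (nat_lit 7) (nat_lit 4) (nat_lit 161) (nat_lit 96) r1_161 r10_96 (nat_lit 981437) (nat_lit 480768) (nat_lit 0) (nat_lit 0x62be5aa28) (nat_lit 1563059529),
  Rx.mk (nat_lit 487) (nat_lit 7) (nat_lit 4) (nat_lit 7) (nat_lit 5) (nat_lit 164) (nat_lit 97) r1_164 r10_97 (nat_lit 0) (nat_lit 4988372) (nat_lit 0) (nat_lit 0x78610a830) (nat_lit 1205879396),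
  Rx.mk (nat_lit 500) (nat_lit 4) (nat_lit 6) (nat_lit 7) (nat_lit 6) (nat_lit 162) (nat_lit 98) r1_162 r10_98 (nat_lit 7835339) (nat_lit 0) (nat_lit 0) (nat_lit 0x7ff5d0d8c) (nat_lit 1082394163),
  Rx.mk (nat_lit 502) (nat_lit 6) (nat_lit 6) (nat_lit 7) (nat_lit 7) (nat_lit 163) (nat_lit 100) r1_163 r10_100 (nat_lit 0) (nat_lit 0) (nat_lit 0) (nat_lit 0x801053272) (nat_lit 1072862224),
  Rx.mk (nat_lit 503) (nat_lit 7) (nat_lit 6) (nat_lit 7) (nat_lit 7) (nat_lit 165) (nat_lit 99) r1_165 r10_99 (nat_lit 0) (nat_lit 0) (nat_lit 0) (nat_lit 0x80029938e) (nat_lit 1073741824)]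
noncomputable def e23_29 : List Rx := [
  Rx.mk (nat_lit 228) (nat_lit 4) (nat_lit 4) (nat_lit 3) (nat_lit 4) (nat_lit 237) (nat_lit 108) r1_237 r11_108 (nat_lit 8516193) (nat_lit 7636497) (nat_lit 0) (nat_lit 0x79092791e) (nat_lit 1206096814),
  Rx.mk (nat_lit 231) (nat_lit 7) (nat_lit 4) (nat_lit 3) (nat_lit 5) (nat_lit 238) (nat_lit 109) r1_238 r11_109 (nat_lit 0) (nat_lit 5449534) (nat_lit 0) (nat_lit 0x80029938e) (nat_lit 1079191358),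
  Rx.mk (nat_lit 255) (nat_lit 7) (nat_lit 7) (nat_lit 3) (nat_lit 7) (nat_lit 239) (nat_lit 110) r1_239 r11_110 (nat_lit 0) (nat_lit 0) (nat_lit 0) (nat_lit 0x80029938e) (nat_lit 1073741824),
  Rx.mk (nat_lit 484) (nat_lit 4) (nat_lit 4) (nat_lit 7) (nat_lit 4) (nat_lit 234) (nat_lit 107) r1_234 r11_107 (nat_lit 139026259) (nat_lit 4273280) (nat_lit 0) (nat_lit 0x7713b0612) (nat_lit 1365912963),
  Rx.mk (nat_lit 500) (nat_lit 4) (nat_lit 6) (nat_lit 7) (nat_lit 6) (nat_lit 235) (nat_lit 111) r1_235 r11_111 (nat_lit 5449534) (nat_lit 0) (nat_lit 0) (nat_lit 0x800d59fb2) (nat_lit 1078501858),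
  Rx.mk (nat_lit 502) (nat_lit 6) (nat_lit 6) (nat_lit 7) (nat_lit 7) (nat_lit 236) (nat_lit 112) r1_236 r11_112 (nat_lit 0) (nat_lit 0) (nat_lit 0) (nat_lit 0x8084b604c) (nat_lit 1065459024)]
noncomputable def e23_30 : List Rx := [
  Rx.mk (nat_lit 47) (nat_lit 7) (nat_lit 5) (nat_lit 0) (nat_lit 3) (nat_lit 303) (nat_lit 273) r1_303 r5_273 (nat_lit 0) (nat_lit 0) (nat_lit 2861806) (nat_lit 0x81272a2b0) (nat_lit 1058046730),
  Rx.mk (nat_lit 111) (nat_lit 7) (nat_lit 5) (nat_lit 1) (nat_lit 7) (nat_lit 304) (nat_lit 274) r1_304 r5_274 (nat_lit 0) (nat_lit 0) (nat_lit 0) (nat_lit 0x8ca337b4a) (nat_lit 869461024)]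
noncomputable def e23_31 : List Rx := [
  Rx.mk (nat_lit 111) (nat_lit 7) (nat_lit 5) (nat_lit 1) (nat_lit 7) (nat_lit 310) (nat_lit 338) r1_310 r11_338 (nat_lit 0) (nat_lit 0) (nat_lit 0) (nat_lit 0x80029938e) (nat_lit 1073741824)]
noncomputable def e23_32 : List Rx := [
  Rx.mk (nat_lit 43) (nat_lit 3) (nat_lit 5) (nat_lit 0) (nat_lit 3) (nat_lit 88) (nat_lit 57) r1_88 r6_57 (nat_lit 0) (nat_lit 0) (nat_lit 2919225) (nat_lit 0x8031e1df8) (nat_lit 1073634549),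
  Rx.mk (nat_lit 235) (nat_lit 3) (nat_lit 5) (nat_lit 3) (nat_lit 7) (nat_lit 90) (nat_lit 58) r1_90 r6_58 (nat_lit 0) (nat_lit 0) (nat_lit 0) (nat_lit 0x80844da2e) (nat_lit 1065486024),
  Rx.mk (nat_lit 239) (nat_lit 7) (nat_lit 5) (nat_lit 3) (nat_lit 7) (nat_lit 89) (nat_lit 56) r1_89 r6_56 (nat_lit 0) (nat_lit 0) (nat_lit 0) (nat_lit 0x997d38914) (nat_lit 661632824)]
noncomputable def e23_33 : List Rx := [
  Rx.mk (nat_lit 227) (nat_lit 3) (nat_lit 4) (nat_lit 3) (nat_lit 5) (nat_lit 63) (nat_lit 6) r1_63 r5_6 (nat_lit 0) (nat_lit 1331363) (nat_lit 0) (nat_lit 0x70d9a8132) (nat_lit 1327744887),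
  Rx.mk (nat_lit 231) (nat_lit 7) (nat_lit 4) (nat_lit 3) (nat_lit 5) (nat_lit 61) (nat_lit 9) r1_61 r5_9 (nat_lit 0) (nat_lit 933722) (nat_lit 0) (nat_lit 0x7fb880d2e) (nat_lit 1079433146),
  Rx.mk (nat_lit 235) (nat_lit 3) (nat_lit 5) (nat_lit 3) (nat_lit 7) (nat_lit 64) (nat_lit 7) r1_64 r5_7 (nat_lit 0) (nat_lit 0) (nat_lit 0) (nat_lit 0x7fd7609d8) (nat_lit 1076521124),
  Rx.mk (nat_lit 239) (nat_lit 7) (nat_lit 5) (nat_lit 3) (nat_lit 7) (nat_lit 62) (nat_lit 10) r1_62 r5_10 (nat_lit 0) (nat_lit 0) (nat_lit 0) (nat_lit 0x808eeb03a) (nat_lit 1064821724),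
  Rx.mk (nat_lit 251) (nat_lit 3) (nat_lit 7) (nat_lit 3) (nat_lit 7) (nat_lit 65) (nat_lit 8) r1_65 r5_8 (nat_lit 0) (nat_lit 0) (nat_lit 0) (nat_lit 0x7fe8a5784) (nat_lit 1075407924),
  Rx.mk (nat_lit 487) (nat_lit 7) (nat_lit 4) (nat_lit 7) (nat_lit 5) (nat_lit 58) (nat_lit 11) r1_58 r5_11 (nat_lit 0) (nat_lit 1041807) (nat_lit 0) (nat_lit 0x74a17feb4) (nat_lit 1264422431),
  Rx.mk (nat_lit 495) (nat_lit 7) (nat_lit 5) (nat_lit 7) (nat_lit 7) (nat_lit 59) (nat_lit 12) r1_59 r5_12 (nat_lit 0) (nat_lit 0) (nat_lit 0) (nat_lit 0x8107244b6) (nat_lit 1057210324),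
  Rx.mk (nat_lit 503) (nat_lit 7) (nat_lit 6) (nat_lit 7) (nat_lit 7) (nat_lit 60) (nat_lit 13) r1_60 r5_13 (nat_lit 0) (nat_lit 0) (nat_lit 0) (nat_lit 0x8052ab444) (nat_lit 1068632924)]
noncomputable def e23_34 : List Rx := [
  Rx.mk (nat_lit 487) (nat_lit 7) (nat_lit 4) (nat_lit 7) (nat_lit 5) (nat_lit 166) (nat_lit 2) r1_166 r11_2 (nat_lit 0) (nat_lit 5621376) (nat_lit 0) (nat_lit 0x7fea6aa60) (nat_lit 1080917600),
  Rx.mk (nat_lit 495) (nat_lit 7) (nat_lit 5) (nat_lit 7) (nat_lit 7) (nat_lit 167) (nat_lit 3) r1_167 r11_3 (nat_lit 0) (nat_lit 0) (nat_lit 0) (nat_lit 0x80029938e) (nat_lit 1073741824),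
  Rx.mk (nat_lit 503) (nat_lit 7) (nat_lit 6) (nat_lit 7) (nat_lit 7) (nat_lit 168) (nat_lit 4) r1_168 r11_4 (nat_lit 0) (nat_lit 0) (nat_lit 0) (nat_lit 0x80029938e) (nat_lit 1073741824)]
noncomputable def e23_35 : List Rx := [
  Rx.mk (nat_lit 43) (nat_lit 3) (nat_lit 5) (nat_lit 0) (nat_lit 3) (nat_lit 241) (nat_lit 298) r1_241 r6_298 (nat_lit 0) (nat_lit 0) (nat_lit 9165703) (nat_lit 0x82a20d594) (nat_lit 1040408027),
  Rx.mk (nat_lit 47) (nat_lit 7) (nat_lit 5) (nat_lit 0) (nat_lit 3) (nat_lit 240) (nat_lit 299) r1_240 r6_299 (nat_lit 0) (nat_lit 0) (nat_lit 32238) (nat_lit 0x803e4e578) (nat_lit 1069845062)]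
noncomputable def e23_36 : List Rx := [
  Rx.mk (nat_lit 43) (nat_lit 3) (nat_lit 5) (nat_lit 0) (nat_lit 3) (nat_lit 250) (nat_lit 176) r1_250 r12_176 (nat_lit 0) (nat_lit 0) (nat_lit 8872160) (nat_lit 0x8188ce430) (nat_lit 1057873084),
  Rx.mk (nat_lit 47) (nat_lit 7) (nat_lit 5) (nat_lit 0) (nat_lit 3) (nat_lit 249) (nat_lit 177) r1_249 r12_177 (nat_lit 0) (nat_lit 0) (nat_lit 13758) (nat_lit 0x8684d43de) (nat_lit 968343482),
  Rx.mk (nat_lit 239) (nat_lit 7) (nat_lit 5) (nat_lit 3) (nat_lit 7) (nat_lit 251) (nat_lit 178) r1_251 r12_178 (nat_lit 0) (nat_lit 0) (nat_lit 0) (nat_lit 0xa214ce410) (nat_lit 522685424)]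
noncomputable def e23_37 : List Rx := [
  Rx.mk (nat_lit 11) (nat_lit 3) (nat_lit 1) (nat_lit 0) (nat_lit 3) (nat_lit 69) (nat_lit 76) r1_69 r0_76 (nat_lit 0) (nat_lit 0) (nat_lit 3524879) (nat_lit 0x7f208be6a) (nat_lit 1091914603),
  Rx.mk (nat_lit 136) (nat_lit 0) (nat_lit 1) (nat_lit 2) (nat_lit 6) (nat_lit 70) (nat_lit 75) r1_70 r0_75 (nat_lit 2468639) (nat_lit 0) (nat_lit 0) (nat_lit 0x80090eed0) (nat_lit 1075791763),
  Rx.mk (nat_lit 139) (nat_lit 3) (nat_lit 1) (nat_lit 2) (nat_lit 7) (nat_lit 71) (nat_lit 78) r1_71 r0_78 (nat_lit 0) (nat_lit 0) (nat_lit 0) (nat_lit 0x81c0ba54c) (nat_lit 1045481724),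
  Rx.mk (nat_lit 203) (nat_lit 3) (nat_lit 1) (nat_lit 3) (nat_lit 7) (nat_lit 72) (nat_lit 77) r1_72 r0_77 (nat_lit 0) (nat_lit 0) (nat_lit 0) (nat_lit 0x800fe7112) (nat_lit 1072885924)]
noncomputable def e23_38 : List Rx := [
  Rx.mk (nat_lit 8) (nat_lit 0) (nat_lit 1) (nat_lit 0) (nat_lit 2) (nat_lit 180) (nat_lit 265) r1_180 r0_265 (nat_lit 2783255) (nat_lit 0) (nat_lit 103080834) (nat_lit 0x61b174d32) (nat_lit 1684989113),
  Rx.mk (nat_lit 9) (nat_lit 1) (nat_lit 1) (nat_lit 0) (nat_lit 3) (nat_lit 182) (nat_lit 266) r1_182 r0_266 (nat_lit 0) (nat_lit 0) (nat_lit 7068022) (nat_lit 0x7fea1f7b8) (nat_lit 1082378546),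
  Rx.mk (nat_lit 11) (nat_lit 3) (nat_lit 1) (nat_lit 0) (nat_lit 3) (nat_lit 183) (nat_lit 267) r1_183 r0_267 (nat_lit 0) (nat_lit 0) (nat_lit 271237446) (nat_lit 0x89006c440) (nat_lit 1199488170),
  Rx.mk (nat_lit 40) (nat_lit 0) (nat_lit 5) (nat_lit 0) (nat_lit 2) (nat_lit 179) (nat_lit 269) r1_179 r0_269 (nat_lit 4696) (nat_lit 0) (nat_lit 1076204905) (nat_lit 0x8008e3776) (nat_lit 2149391825),
  Rx.mk (nat_lit 41) (nat_lit 1) (nat_lit 5) (nat_lit 0) (nat_lit 3) (nat_lit 181) (nat_lit 270) r1_181 r0_270 (nat_lit 0) (nat_lit 0) (nat_lit 15364900) (nat_lit 0x80028c260) (nat_lit 1089102224),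
  Rx.mk (nat_lit 203) (nat_lit 3) (nat_lit 1) (nat_lit 3) (nat_lit 7) (nat_lit 184) (nat_lit 268) r1_184 r0_268 (nat_lit 0) (nat_lit 0) (nat_lit 0) (nat_lit 0x802fc2cf2) (nat_lit 1070852724)]
noncomputable def e23_39 : List Rx := [
  Rx.mk (nat_lit 8) (nat_lit 0) (nat_lit 1) (nat_lit 0) (nat_lit 2) (nat_lit 192) (nat_lit 64) r1_192 r7_64 (nat_lit 18024927) (nat_lit 0) (nat_lit 13272121) (nat_lit 0x679c04a46) (nat_lit 1511783172),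
  Rx.mk (nat_lit 9) (nat_lit 1) (nat_lit 1) (nat_lit 0) (nat_lit 3) (nat_lit 193) (nat_lit 66) r1_193 r7_66 (nat_lit 0) (nat_lit 0) (nat_lit 6367424) (nat_lit 0x7fc15ea7c) (nat_lit 1084313548),
  Rx.mk (nat_lit 11) (nat_lit 3) (nat_lit 1) (nat_lit 0) (nat_lit 3) (nat_lit 194) (nat_lit 68) r1_194 r7_68 (nat_lit 0) (nat_lit 0) (nat_lit 50165941) (nat_lit 0x874d452b4) (nat_lit 1005906665),
  Rx.mk (nat_lit 136) (nat_lit 0) (nat_lit 1) (nat_lit 2) (nat_lit 6) (nat_lit 195) (nat_lit 65) r1_195 r7_65 (nat_lit 3131027) (nat_lit 0) (nat_lit 0) (nat_lit 0x8039b0930) (nat_lit 1073355051),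
  Rx.mk (nat_lit 137) (nat_lit 1) (nat_lit 1) (nat_lit 2) (nat_lit 7) (nat_lit 196) (nat_lit 67) r1_196 r7_67 (nat_lit 0) (nat_lit 0) (nat_lit 0) (nat_lit 0x8013c631e) (nat_lit 1072641324),
  Rx.mk (nat_lit 139) (nat_lit 3) (nat_lit 1) (nat_lit 2) (nat_lit 7) (nat_lit 197) (nat_lit 70) r1_197 r7_70 (nat_lit 0) (nat_lit 0) (nat_lit 0) (nat_lit 0x8013c631e) (nat_lit 1072641324),
  Rx.mk (nat_lit 203) (nat_lit 3) (nat_lit 1) (nat_lit 3) (nat_lit 7) (nat_lit 198) (nat_lit 69) r1_198 r7_69 (nat_lit 0) (nat_lit 0) (nat_lit 0) (nat_lit 0x80f9b7260) (nat_lit 1058059324)]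
noncomputable def e23_40 : List Rx := [
  Rx.mk (nat_lit 9) (nat_lit 1) (nat_lit 1) (nat_lit 0) (nat_lit 3) (nat_lit 282) (nat_lit 295) r1_282 r2_295 (nat_lit 0) (nat_lit 0) (nat_lit 5449534) (nat_lit 0x7fec59132) (nat_lit 1080620558),
  Rx.mk (nat_lit 41) (nat_lit 1) (nat_lit 5) (nat_lit 0) (nat_lit 3) (nat_lit 281) (nat_lit 297) r1_281 r2_297 (nat_lit 0) (nat_lit 0) (nat_lit 5449534) (nat_lit 0x7fe147668) (nat_lit 1081333358),
  Rx.mk (nat_lit 45) (nat_lit 5) (nat_lit 5) (nat_lit 0) (nat_lit 3) (nat_lit 280) (nat_lit 298) r1_280 r2_298 (nat_lit 0) (nat_lit 0) (nat_lit 8236166) (nat_lit 0x80037e826) (nat_lit 1081916390),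
  Rx.mk (nat_lit 73) (nat_lit 1) (nat_lit 1) (nat_lit 1) (nat_lit 7) (nat_lit 285) (nat_lit 296) r1_285 r2_296 (nat_lit 0) (nat_lit 0) (nat_lit 0) (nat_lit 0x80029938e) (nat_lit 1073741824),
  Rx.mk (nat_lit 105) (nat_lit 1) (nat_lit 5) (nat_lit 1) (nat_lit 7) (nat_lit 284) (nat_lit 299) r1_284 r2_299 (nat_lit 0) (nat_lit 0) (nat_lit 0) (nat_lit 0x80029938e) (nat_lit 1073741824),
  Rx.mk (nat_lit 109) (nat_lit 5) (nat_lit 5) (nat_lit 1) (nat_lit 7) (nat_lit 283) (nat_lit 300) r1_283 r2_300 (nat_lit 0) (nat_lit 0) (nat_lit 0) (nat_lit 0x80029938e) (nat_lit 1073741824)]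
noncomputable def e23_41 : List Rx := [
  Rx.mk (nat_lit 9) (nat_lit 1) (nat_lit 1) (nat_lit 0) (nat_lit 3) (nat_lit 290) (nat_lit 286) r1_290 r9_286 (nat_lit 0) (nat_lit 0) (nat_lit 5449534) (nat_lit 0x7ffe84c62) (nat_lit 1079452958),
  Rx.mk (nat_lit 73) (nat_lit 1) (nat_lit 1) (nat_lit 1) (nat_lit 7) (nat_lit 291) (nat_lit 287) r1_291 r9_287 (nat_lit 0) (nat_lit 0) (nat_lit 0) (nat_lit 0x80029938e) (nat_lit 1073741824),
  Rx.mk (nat_lit 137) (nat_lit 1) (nat_lit 1) (nat_lit 2) (nat_lit 7) (nat_lit 292) (nat_lit 288) r1_292 r9_288 (nat_lit 0) (nat_lit 0) (nat_lit 0) (nat_lit 0x80029938e) (nat_lit 1073741824)]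
noncomputable def e23_42 : List Rx := [
  Rx.mk (nat_lit 73) (nat_lit 1) (nat_lit 1) (nat_lit 1) (nat_lit 7) (nat_lit 289) (nat_lit 292) r1_289 r9_292 (nat_lit 0) (nat_lit 0) (nat_lit 0) (nat_lit 0x80029938e) (nat_lit 1073741824),
  Rx.mk (nat_lit 105) (nat_lit 1) (nat_lit 5) (nat_lit 1) (nat_lit 7) (nat_lit 288) (nat_lit 291) r1_288 r9_291 (nat_lit 0) (nat_lit 0) (nat_lit 0) (nat_lit 0x80029938e) (nat_lit 1073741824),
  Rx.mk (nat_lit 109) (nat_lit 5) (nat_lit 5) (nat_lit 1) (nat_lit 7) (nat_lit 287) (nat_lit 290) r1_287 r9_290 (nat_lit 0) (nat_lit 0) (nat_lit 0) (nat_lit 0x80029938e) (nat_lit 1073741824)]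
noncomputable def e23_43 : List Rx := [
  Rx.mk (nat_lit 9) (nat_lit 1) (nat_lit 1) (nat_lit 0) (nat_lit 3) (nat_lit 186) (nat_lit 272) r1_186 r1_272 (nat_lit 0) (nat_lit 0) (nat_lit 6431130) (nat_lit 0x7f59dbdb4) (nat_lit 1091100554),
  Rx.mk (nat_lit 41) (nat_lit 1) (nat_lit 5) (nat_lit 0) (nat_lit 3) (nat_lit 185) (nat_lit 273) r1_185 r1_273 (nat_lit 0) (nat_lit 0) (nat_lit 5632914) (nat_lit 0x80115033c) (nat_lit 1078429238)]
noncomputable def e23_44 : List Rx := [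
  Rx.mk (nat_lit 9) (nat_lit 1) (nat_lit 1) (nat_lit 0) (nat_lit 3) (nat_lit 199) (nat_lit 66) r1_199 r8_66 (nat_lit 0) (nat_lit 0) (nat_lit 5449534) (nat_lit 0x7fdc2270a) (nat_lit 1081666058),
  Rx.mk (nat_lit 137) (nat_lit 1) (nat_lit 1) (nat_lit 2) (nat_lit 7) (nat_lit 200) (nat_lit 67) r1_200 r8_67 (nat_lit 0) (nat_lit 0) (nat_lit 0) (nat_lit 0x80029938e) (nat_lit 1073741824)]
noncomputable def e23_45 : List Rx := [
  Rx.mk (nat_lit 3) (nat_lit 3) (nat_lit 0) (nat_lit 0) (nat_lit 1) (nat_lit 73) (nat_lit 75) r1_73 r1_75 (nat_lit 0) (nat_lit 2167811) (nat_lit 5595281) (nat_lit 0x68a7aed50) (nat_lit 1470816316),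
  Rx.mk (nat_lit 11) (nat_lit 3) (nat_lit 1) (nat_lit 0) (nat_lit 3) (nat_lit 74) (nat_lit 76) r1_74 r1_76 (nat_lit 0) (nat_lit 0) (nat_lit 3573233) (nat_lit 0x802abf1c4) (nat_lit 1074746757),
  Rx.mk (nat_lit 128) (nat_lit 0) (nat_lit 0) (nat_lit 2) (nat_lit 4) (nat_lit 75) (nat_lit 73) r1_75 r1_73 (nat_lit 5595281) (nat_lit 2167811) (nat_lit 0) (nat_lit 0x68a7aed50) (nat_lit 1470816316),
  Rx.mk (nat_lit 130) (nat_lit 2) (nat_lit 0) (nat_lit 2) (nat_lit 5) (nat_lit 77) (nat_lit 82) r1_77 r1_82 (nat_lit 0) (nat_lit 3465019) (nat_lit 0) (nat_lit 0x7fbdc8412) (nat_lit 1081640343),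
  Rx.mk (nat_lit 131) (nat_lit 3) (nat_lit 0) (nat_lit 2) (nat_lit 5) (nat_lit 80) (nat_lit 80) r1_80 r1_80 (nat_lit 0) (nat_lit 2104303) (nat_lit 0) (nat_lit 0x8066c26b2) (nat_lit 1069463227),
  Rx.mk (nat_lit 136) (nat_lit 0) (nat_lit 1) (nat_lit 2) (nat_lit 6) (nat_lit 76) (nat_lit 74) r1_76 r1_74 (nat_lit 3573233) (nat_lit 0) (nat_lit 0) (nat_lit 0x802abf1c4) (nat_lit 1074746757),
  Rx.mk (nat_lit 138) (nat_lit 2) (nat_lit 1) (nat_lit 2) (nat_lit 7) (nat_lit 78) (nat_lit 83) r1_78 r1_83 (nat_lit 0) (nat_lit 0) (nat_lit 0) (nat_lit 0x801061f66) (nat_lit 1072858124),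
  Rx.mk (nat_lit 139) (nat_lit 3) (nat_lit 1) (nat_lit 2) (nat_lit 7) (nat_lit 81) (nat_lit 81) r1_81 r1_81 (nat_lit 0) (nat_lit 0) (nat_lit 0) (nat_lit 0x803fd8786) (nat_lit 1069829824),
  Rx.mk (nat_lit 146) (nat_lit 2) (nat_lit 2) (nat_lit 2) (nat_lit 7) (nat_lit 79) (nat_lit 84) r1_79 r1_84 (nat_lit 0) (nat_lit 0) (nat_lit 0) (nat_lit 0x801061f66) (nat_lit 1072858124),
  Rx.mk (nat_lit 195) (nat_lit 3) (nat_lit 0) (nat_lit 3) (nat_lit 5) (nat_lit 82) (nat_lit 77) r1_82 r1_77 (nat_lit 0) (nat_lit 3465019) (nat_lit 0) (nat_lit 0x7fbdc8412) (nat_lit 1081640343),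
  Rx.mk (nat_lit 203) (nat_lit 3) (nat_lit 1) (nat_lit 3) (nat_lit 7) (nat_lit 83) (nat_lit 78) r1_83 r1_78 (nat_lit 0) (nat_lit 0) (nat_lit 0) (nat_lit 0x801061f66) (nat_lit 1072858124),
  Rx.mk (nat_lit 219) (nat_lit 3) (nat_lit 3) (nat_lit 3) (nat_lit 7) (nat_lit 84) (nat_lit 79) r1_84 r1_79 (nat_lit 0) (nat_lit 0) (nat_lit 0) (nat_lit 0x801061f66) (nat_lit 1072858124)]
noncomputable def e23_46 : List Rx := [
  Rx.mk (nat_lit 3) (nat_lit 3) (nat_lit 0) (nat_lit 0) (nat_lit 1) (nat_lit 31) (nat_lit 76) r1_31 r2_76 (nat_lit 0) (nat_lit 3982367) (nat_lit 42604894) (nat_lit 0x703ff5cd8) (nat_lit 1383025585),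
  Rx.mk (nat_lit 27) (nat_lit 3) (nat_lit 3) (nat_lit 0) (nat_lit 3) (nat_lit 32) (nat_lit 77) r1_32 r2_77 (nat_lit 0) (nat_lit 0) (nat_lit 6403813) (nat_lit 0x7fe29b438) (nat_lit 1082202837),
  Rx.mk (nat_lit 128) (nat_lit 0) (nat_lit 0) (nat_lit 2) (nat_lit 4) (nat_lit 33) (nat_lit 75) r1_33 r2_75 (nat_lit 9015506) (nat_lit 6015067) (nat_lit 0) (nat_lit 0x725a13c30) (nat_lit 1316417397),
  Rx.mk (nat_lit 130) (nat_lit 2) (nat_lit 0) (nat_lit 2) (nat_lit 5) (nat_lit 34) (nat_lit 82) r1_34 r2_82 (nat_lit 0) (nat_lit 5449534) (nat_lit 0) (nat_lit 0x80029938e) (nat_lit 1079191358),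
  Rx.mk (nat_lit 131) (nat_lit 3) (nat_lit 0) (nat_lit 2) (nat_lit 5) (nat_lit 36) (nat_lit 79) r1_36 r2_79 (nat_lit 0) (nat_lit 1294723) (nat_lit 0) (nat_lit 0x817da7660) (nat_lit 1051014847),
  Rx.mk (nat_lit 146) (nat_lit 2) (nat_lit 2) (nat_lit 2) (nat_lit 7) (nat_lit 35) (nat_lit 83) r1_35 r2_83 (nat_lit 0) (nat_lit 0) (nat_lit 0) (nat_lit 0x80029938e) (nat_lit 1073741824),
  Rx.mk (nat_lit 155) (nat_lit 3) (nat_lit 3) (nat_lit 2) (nat_lit 7) (nat_lit 37) (nat_lit 80) r1_37 r2_80 (nat_lit 0) (nat_lit 0) (nat_lit 0) (nat_lit 0x804569894) (nat_lit 1069476124),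
  Rx.mk (nat_lit 219) (nat_lit 3) (nat_lit 3) (nat_lit 3) (nat_lit 7) (nat_lit 38) (nat_lit 78) r1_38 r2_78 (nat_lit 0) (nat_lit 0) (nat_lit 0) (nat_lit 0x80029938e) (nat_lit 1073741824),
  Rx.mk (nat_lit 402) (nat_lit 2) (nat_lit 2) (nat_lit 6) (nat_lit 7) (nat_lit 30) (nat_lit 81) r1_30 r2_81 (nat_lit 0) (nat_lit 0) (nat_lit 0) (nat_lit 0x80029938e) (nat_lit 1073741824)]
noncomputable def e23_47 : List Rx := [
  Rx.mk (nat_lit 0) (nat_lit 0) (nat_lit 0) (nat_lit 0) (nat_lit 0) (nat_lit 201) (nat_lit 283) r1_201 r8_283 (nat_lit 15319371) (nat_lit 1918416) (nat_lit 114209413) (nat_lit 0x41b550df4) (nat_lit 2243856724),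
  Rx.mk (nat_lit 3) (nat_lit 3) (nat_lit 0) (nat_lit 0) (nat_lit 1) (nat_lit 204) (nat_lit 284) r1_204 r8_284 (nat_lit 0) (nat_lit 3811645) (nat_lit 49656685) (nat_lit 0x67434edb6) (nat_lit 1539734254),
  Rx.mk (nat_lit 8) (nat_lit 0) (nat_lit 1) (nat_lit 0) (nat_lit 2) (nat_lit 202) (nat_lit 289) r1_202 r8_289 (nat_lit 11555613) (nat_lit 0) (nat_lit 11555613) (nat_lit 0x649b277ac) (nat_lit 1553678350),
  Rx.mk (nat_lit 9) (nat_lit 1) (nat_lit 1) (nat_lit 0) (nat_lit 3) (nat_lit 203) (nat_lit 290) r1_203 r8_290 (nat_lit 0) (nat_lit 0) (nat_lit 5714928) (nat_lit 0x7ff0d9b4e) (nat_lit 1080597652),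
  Rx.mk (nat_lit 11) (nat_lit 3) (nat_lit 1) (nat_lit 0) (nat_lit 3) (nat_lit 205) (nat_lit 291) r1_205 r8_291 (nat_lit 0) (nat_lit 0) (nat_lit 7630254) (nat_lit 0x8044c7bb6) (nat_lit 1077143878),
  Rx.mk (nat_lit 128) (nat_lit 0) (nat_lit 0) (nat_lit 2) (nat_lit 4) (nat_lit 206) (nat_lit 286) r1_206 r8_286 (nat_lit 7320286) (nat_lit 4263426) (nat_lit 0) (nat_lit 0x6945f5c3e) (nat_lit 1464332436),
  Rx.mk (nat_lit 130) (nat_lit 2) (nat_lit 0) (nat_lit 2) (nat_lit 5) (nat_lit 209) (nat_lit 288) r1_209 r8_288 (nat_lit 0) (nat_lit 5449534) (nat_lit 0) (nat_lit 0x7fec9c43c) (nat_lit 1080603458),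
  Rx.mk (nat_lit 131) (nat_lit 3) (nat_lit 0) (nat_lit 2) (nat_lit 5) (nat_lit 212) (nat_lit 287) r1_212 r8_287 (nat_lit 0) (nat_lit 5449534) (nat_lit 0) (nat_lit 0x80029938e) (nat_lit 1079191358),
  Rx.mk (nat_lit 136) (nat_lit 0) (nat_lit 1) (nat_lit 2) (nat_lit 6) (nat_lit 207) (nat_lit 293) r1_207 r8_293 (nat_lit 5586817) (nat_lit 0) (nat_lit 0) (nat_lit 0x7ff93b2a6) (nat_lit 1079930041),
  Rx.mk (nat_lit 137) (nat_lit 1) (nat_lit 1) (nat_lit 2) (nat_lit 7) (nat_lit 208) (nat_lit 294) r1_208 r8_294 (nat_lit 0) (nat_lit 0) (nat_lit 0) (nat_lit 0x80029938e) (nat_lit 1073741824),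
  Rx.mk (nat_lit 138) (nat_lit 2) (nat_lit 1) (nat_lit 2) (nat_lit 7) (nat_lit 210) (nat_lit 296) r1_210 r8_296 (nat_lit 0) (nat_lit 0) (nat_lit 0) (nat_lit 0x80029938e) (nat_lit 1073741824),
  Rx.mk (nat_lit 139) (nat_lit 3) (nat_lit 1) (nat_lit 2) (nat_lit 7) (nat_lit 213) (nat_lit 295) r1_213 r8_295 (nat_lit 0) (nat_lit 0) (nat_lit 0) (nat_lit 0x80029938e) (nat_lit 1073741824),
  Rx.mk (nat_lit 146) (nat_lit 2) (nat_lit 2) (nat_lit 2) (nat_lit 7) (nat_lit 211) (nat_lit 298) r1_211 r8_298 (nat_lit 0) (nat_lit 0) (nat_lit 0) (nat_lit 0x80029938e) (nat_lit 1073741824),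
  Rx.mk (nat_lit 195) (nat_lit 3) (nat_lit 0) (nat_lit 3) (nat_lit 5) (nat_lit 214) (nat_lit 285) r1_214 r8_285 (nat_lit 0) (nat_lit 5009605) (nat_lit 0) (nat_lit 0x79cf2c0ba) (nat_lit 1182054929),
  Rx.mk (nat_lit 203) (nat_lit 3) (nat_lit 1) (nat_lit 3) (nat_lit 7) (nat_lit 215) (nat_lit 292) r1_215 r8_292 (nat_lit 0) (nat_lit 0) (nat_lit 0) (nat_lit 0x807ff3424) (nat_lit 1065763424),
  Rx.mk (nat_lit 219) (nat_lit 3) (nat_lit 3) (nat_lit 3) (nat_lit 7) (nat_lit 216) (nat_lit 297) r1_216 r8_297 (nat_lit 0) (nat_lit 0) (nat_lit 0) (nat_lit 0x8009989a0) (nat_lit 1073292924)]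
noncomputable def e23_48 : List Rx := [
  Rx.mk (nat_lit 0) (nat_lit 0) (nat_lit 0) (nat_lit 0) (nat_lit 0) (nat_lit 170) (nat_lit 40) r1_170 r9_40 (nat_lit 14674099) (nat_lit 5387168) (nat_lit 67552839) (nat_lit 0x39df35bf4) (nat_lit 2330684730),
  Rx.mk (nat_lit 3) (nat_lit 3) (nat_lit 0) (nat_lit 0) (nat_lit 1) (nat_lit 171) (nat_lit 42) r1_171 r9_42 (nat_lit 0) (nat_lit 4130151) (nat_lit 138692841) (nat_lit 0x6fe20f042) (nat_lit 1485369016),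
  Rx.mk (nat_lit 27) (nat_lit 3) (nat_lit 3) (nat_lit 0) (nat_lit 3) (nat_lit 172) (nat_lit 43) r1_172 r9_43 (nat_lit 0) (nat_lit 0) (nat_lit 7333993) (nat_lit 0x7fde08646) (nat_lit 1083428917),
  Rx.mk (nat_lit 128) (nat_lit 0) (nat_lit 0) (nat_lit 2) (nat_lit 4) (nat_lit 173) (nat_lit 41) r1_173 r9_41 (nat_lit 6975258) (nat_lit 3916298) (nat_lit 0) (nat_lit 0x682127750) (nat_lit 1482713080),
  Rx.mk (nat_lit 130) (nat_lit 2) (nat_lit 0) (nat_lit 2) (nat_lit 5) (nat_lit 174) (nat_lit 48) r1_174 r9_48 (nat_lit 0) (nat_lit 5449534) (nat_lit 0) (nat_lit 0x80029938e) (nat_lit 1079191358),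
  Rx.mk (nat_lit 131) (nat_lit 3) (nat_lit 0) (nat_lit 2) (nat_lit 5) (nat_lit 176) (nat_lit 45) r1_176 r9_45 (nat_lit 0) (nat_lit 5449534) (nat_lit 0) (nat_lit 0x80029938e) (nat_lit 1079191358),
  Rx.mk (nat_lit 146) (nat_lit 2) (nat_lit 2) (nat_lit 2) (nat_lit 7) (nat_lit 175) (nat_lit 49) r1_175 r9_49 (nat_lit 0) (nat_lit 0) (nat_lit 0) (nat_lit 0x80029938e) (nat_lit 1073741824),
  Rx.mk (nat_lit 155) (nat_lit 3) (nat_lit 3) (nat_lit 2) (nat_lit 7) (nat_lit 177) (nat_lit 46) r1_177 r9_46 (nat_lit 0) (nat_lit 0) (nat_lit 0) (nat_lit 0x80029938e) (nat_lit 1073741824),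
  Rx.mk (nat_lit 219) (nat_lit 3) (nat_lit 3) (nat_lit 3) (nat_lit 7) (nat_lit 178) (nat_lit 44) r1_178 r9_44 (nat_lit 0) (nat_lit 0) (nat_lit 0) (nat_lit 0x80029938e) (nat_lit 1073741824),
  Rx.mk (nat_lit 402) (nat_lit 2) (nat_lit 2) (nat_lit 6) (nat_lit 7) (nat_lit 169) (nat_lit 47) r1_169 r9_47 (nat_lit 0) (nat_lit 0) (nat_lit 0) (nat_lit 0x80029938e) (nat_lit 1073741824)]
noncomputable def e23_49 : List Rx := [
  Rx.mk (nat_lit 402) (nat_lit 2) (nat_lit 2) (nat_lit 6) (nat_lit 7) (nat_lit 153) (nat_lit 1) r1_153 r9_1 (nat_lit 0) (nat_lit 0) (nat_lit 0) (nat_lit 0x80029938e) (nat_lit 1073741824)]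
noncomputable def e23_50 : List Rx := [
  Rx.mk (nat_lit 11) (nat_lit 3) (nat_lit 1) (nat_lit 0) (nat_lit 3) (nat_lit 67) (nat_lit 69) r1_67 r3_69 (nat_lit 0) (nat_lit 0) (nat_lit 30018) (nat_lit 0x7f80f42c0) (nat_lit 1082047842),
  Rx.mk (nat_lit 43) (nat_lit 3) (nat_lit 5) (nat_lit 0) (nat_lit 3) (nat_lit 66) (nat_lit 68) r1_66 r3_68 (nat_lit 0) (nat_lit 0) (nat_lit 2087) (nat_lit 0x83b63534a) (nat_lit 1013722111),
  Rx.mk (nat_lit 203) (nat_lit 3) (nat_lit 1) (nat_lit 3) (nat_lit 7) (nat_lit 68) (nat_lit 70) r1_68 r3_70 (nat_lit 0) (nat_lit 0) (nat_lit 0) (nat_lit 0x7eddd189a) (nat_lit 1092721324)]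
noncomputable def e23_51 : List Rx := [
  Rx.mk (nat_lit 11) (nat_lit 3) (nat_lit 1) (nat_lit 0) (nat_lit 3) (nat_lit 85) (nat_lit 71) r1_85 r4_71 (nat_lit 0) (nat_lit 0) (nat_lit 3320491) (nat_lit 0x800fb1fc6) (nat_lit 1076215615),
  Rx.mk (nat_lit 139) (nat_lit 3) (nat_lit 1) (nat_lit 2) (nat_lit 7) (nat_lit 86) (nat_lit 73) r1_86 r4_73 (nat_lit 0) (nat_lit 0) (nat_lit 0) (nat_lit 0x85e8fa242) (nat_lit 978250424),
  Rx.mk (nat_lit 203) (nat_lit 3) (nat_lit 1) (nat_lit 3) (nat_lit 7) (nat_lit 87) (nat_lit 72) r1_87 r4_72 (nat_lit 0) (nat_lit 0) (nat_lit 0) (nat_lit 0x805852a1e) (nat_lit 1068275824)]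
noncomputable def e23_52 : List Rx := [
  Rx.mk (nat_lit 43) (nat_lit 3) (nat_lit 5) (nat_lit 0) (nat_lit 3) (nat_lit 91) (nat_lit 63) r1_91 r5_63 (nat_lit 0) (nat_lit 0) (nat_lit 7636976) (nat_lit 0x7f2748de8) (nat_lit 1095591500),
  Rx.mk (nat_lit 203) (nat_lit 3) (nat_lit 1) (nat_lit 3) (nat_lit 7) (nat_lit 93) (nat_lit 65) r1_93 r5_65 (nat_lit 0) (nat_lit 0) (nat_lit 0) (nat_lit 0x803f07ad2) (nat_lit 1069877524),
  Rx.mk (nat_lit 235) (nat_lit 3) (nat_lit 5) (nat_lit 3) (nat_lit 7) (nat_lit 92) (nat_lit 64) r1_92 r5_64 (nat_lit 0) (nat_lit 0) (nat_lit 0) (nat_lit 0x80665f1a2) (nat_lit 1067372924)]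
noncomputable def e23_53 : List Rx := [
  Rx.mk (nat_lit 11) (nat_lit 3) (nat_lit 1) (nat_lit 0) (nat_lit 3) (nat_lit 190) (nat_lit 279) r1_190 r4_279 (nat_lit 0) (nat_lit 0) (nat_lit 133026953) (nat_lit 0x8042f6120) (nat_lit 1202645077),
  Rx.mk (nat_lit 40) (nat_lit 0) (nat_lit 5) (nat_lit 0) (nat_lit 2) (nat_lit 187) (nat_lit 281) r1_187 r4_281 (nat_lit 33051833) (nat_lit 0) (nat_lit 121901927) (nat_lit 0x6d0be5900) (nat_lit 1544782984),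
  Rx.mk (nat_lit 41) (nat_lit 1) (nat_lit 5) (nat_lit 0) (nat_lit 3) (nat_lit 188) (nat_lit 282) r1_188 r4_282 (nat_lit 0) (nat_lit 0) (nat_lit 5449534) (nat_lit 0x8040748b6) (nat_lit 1075240558),
  Rx.mk (nat_lit 43) (nat_lit 3) (nat_lit 5) (nat_lit 0) (nat_lit 3) (nat_lit 189) (nat_lit 283) r1_189 r4_283 (nat_lit 0) (nat_lit 0) (nat_lit 362600088) (nat_lit 0x7fac88b7a) (nat_lit 1441871812),
  Rx.mk (nat_lit 203) (nat_lit 3) (nat_lit 1) (nat_lit 3) (nat_lit 7) (nat_lit 191) (nat_lit 280) r1_191 r4_280 (nat_lit 0) (nat_lit 0) (nat_lit 0) (nat_lit 0x807e3d260) (nat_lit 1065870924)]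
noncomputable def e23_54 : List Rx := [
  Rx.mk (nat_lit 11) (nat_lit 3) (nat_lit 1) (nat_lit 0) (nat_lit 3) (nat_lit 217) (nat_lit 49) r1_217 r10_49 (nat_lit 0) (nat_lit 0) (nat_lit 19618759) (nat_lit 0x8216578f6) (nat_lit 1059686783),
  Rx.mk (nat_lit 139) (nat_lit 3) (nat_lit 1) (nat_lit 2) (nat_lit 7) (nat_lit 218) (nat_lit 51) r1_218 r10_51 (nat_lit 0) (nat_lit 0) (nat_lit 0) (nat_lit 0x80029938e) (nat_lit 1073741824),
  Rx.mk (nat_lit 203) (nat_lit 3) (nat_lit 1) (nat_lit 3) (nat_lit 7) (nat_lit 219) (nat_lit 50) r1_219 r10_50 (nat_lit 0) (nat_lit 0) (nat_lit 0) (nat_lit 0x808e6d8b0) (nat_lit 1064845524)]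
noncomputable def e23_55 : List Rx := [
  Rx.mk (nat_lit 40) (nat_lit 0) (nat_lit 5) (nat_lit 0) (nat_lit 2) (nat_lit 220) (nat_lit 41) r1_220 r11_41 (nat_lit 167522575) (nat_lit 0) (nat_lit 142725965) (nat_lit 0x71fbb1be2) (nat_lit 1617776664),
  Rx.mk (nat_lit 41) (nat_lit 1) (nat_lit 5) (nat_lit 0) (nat_lit 3) (nat_lit 221) (nat_lit 42) r1_221 r11_42 (nat_lit 0) (nat_lit 0) (nat_lit 5449534) (nat_lit 0x80131b900) (nat_lit 1078133458),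
  Rx.mk (nat_lit 43) (nat_lit 3) (nat_lit 5) (nat_lit 0) (nat_lit 3) (nat_lit 222) (nat_lit 43) r1_222 r11_43 (nat_lit 0) (nat_lit 0) (nat_lit 6392805) (nat_lit 0x807f8d502) (nat_lit 1072177929),
  Rx.mk (nat_lit 203) (nat_lit 3) (nat_lit 1) (nat_lit 3) (nat_lit 7) (nat_lit 224) (nat_lit 45) r1_224 r11_45 (nat_lit 0) (nat_lit 0) (nat_lit 0) (nat_lit 0x803f6ccf2) (nat_lit 1069856624),
  Rx.mk (nat_lit 235) (nat_lit 3) (nat_lit 5) (nat_lit 3) (nat_lit 7) (nat_lit 223) (nat_lit 44) r1_223 r11_44 (nat_lit 0) (nat_lit 0) (nat_lit 0) (nat_lit 0x806ebd592) (nat_lit 1066852524)]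
noncomputable def e23_56 : List Rx := [
  Rx.mk (nat_lit 11) (nat_lit 3) (nat_lit 1) (nat_lit 0) (nat_lit 3) (nat_lit 243) (nat_lit 267) r1_243 r5_267 (nat_lit 0) (nat_lit 0) (nat_lit 32179892) (nat_lit 0x8088ff068) (nat_lit 1097358516),
  Rx.mk (nat_lit 43) (nat_lit 3) (nat_lit 5) (nat_lit 0) (nat_lit 3) (nat_lit 242) (nat_lit 268) r1_242 r5_268 (nat_lit 0) (nat_lit 0) (nat_lit 49238329) (nat_lit 0x83e7c743a) (nat_lit 1059883053)]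
noncomputable def e23_57 : List Rx := [
  Rx.mk (nat_lit 11) (nat_lit 3) (nat_lit 1) (nat_lit 0) (nat_lit 3) (nat_lit 244) (nat_lit 333) r1_244 r11_333 (nat_lit 0) (nat_lit 0) (nat_lit 3129371) (nat_lit 0x8036700c2) (nat_lit 1073557195),
  Rx.mk (nat_lit 139) (nat_lit 3) (nat_lit 1) (nat_lit 2) (nat_lit 7) (nat_lit 245) (nat_lit 334) r1_245 r11_334 (nat_lit 0) (nat_lit 0) (nat_lit 0) (nat_lit 0x80c2edd92) (nat_lit 1061523624)]
noncomputable def e23 : List (List Rx) := [e23_0, e23_1, e23_2, e23_3, e23_4, e23_5, e23_6, e23_7, e23_8, e23_9, e23_10, e23_11, e23_12, e23_13, e23_14, e23_15, e23_16, e23_17, e23_18, e23_19, e23_20, e23_21, e23_22, e23_23, e23_24, e23_25, e23_26, e23_27, e23_28, e23_29, e23_30, e23_31, e23_32, e23_33, e23_34, e23_35, e23_36, e23_37, e23_38, e23_39, e23_40, e23_41, e23_42, e23_43, e23_44, e23_45, e23_46, e23_47, e23_48, e23_49, e23_50,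 e23_51, e23_52, e23_53, e23_54, e23_55, e23_56, e23_57]

end Pool.Agent.AKXS_34_39_VA
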