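import Pool.Agent.AKXS_34_39_VA.R0
import Pool.Agent.AKXS_34_39_VA.R1
import Pool.Agent.AKXS_34_39_VA.R2
import Pool.Agent.AKXS_34_39_VA.R3
import Pool.Agent.AKXS_34_39_VA.R4
import Pool.Agent.AKXS_34_39_VA.R5
import Pool.Agent.AKXS_34_39_VA.R6
import Pool.Agent.AKXS_34_39_VA.R7
import Pool.Agent.AKXS_34_39_VA.R8
import Pool.Agent.AKXS_34_39_VA.R9
import Pool.Agent.AKXS_34_39_VA.R10
import Pool.Agent.AKXS_34_39_VA.R11
import Pool.Agent.AKXS_34_39_VA.R12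

set_option autoImplicit false

namespace Pool.Agent.AKXS_34_39_VA

open Pool.Agent.AKX Pool.Agent.AKU

noncomputable def e24_0 : List Rx := [
  Rx.mk (nat_lit 100) (nat_lit 4) (nat_lit 4) (nat_lit 1) (nat_lit 4) (nat_lit 262) (nat_lit 174) r4_262 r0_174 (nat_lit 365390624) (nat_lit 507461) (nat_lit 0) (nat_lit 0x677f48254) (nat_lit 1848225809),
  Rx.mk (nat_lit 108) (nat_lit 4) (nat_lit 5) (nat_lit 1) (nat_lit 6) (nat_lit 263) (nat_lit 175) r4_263 r0_175 (nat_lit 172210768) (nat_lit 0) (nat_lit 0) (nat_lit 0x7e52e1528) (nat_lit 1273987192),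
  Rx.mk (nat_lit 116) (nat_lit 4) (nat_lit 6) (nat_lit 1) (nat_lit 6) (nat_lit 264) (nat_lit 176) r4_264 r0_176 (nat_lit 481648953) (nat_lit 0) (nat_lit 0) (nat_lit 0x72b5b6132) (nat_lit 1777028277)]
noncomputable def e24_1 : List Rx := [
  Rx.mk (nat_lit 100) (nat_lit 4) (nat_lit 4) (nat_lit 1) (nat_lit 4) (nat_lit 281) (nat_lit 187) r4_281 r1_187 (nat_lit 121901927) (nat_lit 33051833) (nat_lit 0) (nat_lit 0x6d0be5900) (nat_lit 1544782984),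
  Rx.mk (nat_lit 108) (nat_lit 4) (nat_lit 5) (nat_lit 1) (nat_lit 6) (nat_lit 282) (nat_lit 188) r4_282 r1_188 (nat_lit 5449534) (nat_lit 0) (nat_lit 0) (nat_lit 0x8040748b6) (nat_lit 1075240558),
  Rx.mk (nat_lit 116) (nat_lit 4) (nat_lit 6) (nat_lit 1) (nat_lit 6) (nat_lit 283) (nat_lit 189) r4_283 r1_189 (nat_lit 362600088) (nat_lit 0) (nat_lit 0) (nat_lit 0x7fac88b7a) (nat_lit 1441871812),
  Rx.mk (nat_lit 372) (nat_lit 4) (nat_lit 6) (nat_lit 5) (nat_lit 6) (nat_lit 279) (nat_lit 190) r4_279 r1_190 (nat_lit 133026953) (nat_lit 0) (nat_lit 0) (nat_lit 0x8042f6120) (nat_lit 1202645077),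
  Rx.mk (nat_lit 374) (nat_lit 6) (nat_lit 6) (nat_lit 5) (nat_lit 7) (nat_lit 280) (nat_lit 191) r4_280 r1_191 (nat_lit 0) (nat_lit 0) (nat_lit 0) (nat_lit 0x807e3d260) (nat_lit 1065870924)]
noncomputable def e24_2 : List Rx := [
  Rx.mk (nat_lit 372) (nat_lit 4) (nat_lit 6) (nat_lit 5) (nat_lit 6) (nat_lit 271) (nat_lit 187) r4_271 r2_187 (nat_lit 5449534) (nat_lit 0) (nat_lit 0) (nat_lit 0x80029938e) (nat_lit 1079191358),
  Rx.mk (nat_lit 374) (nat_lit 6) (nat_lit 6) (nat_lit 5) (nat_lit 7) (nat_lit 272) (nat_lit 188) r4_272 r2_188 (nat_lit 0) (nat_lit 0) (nat_lit 0) (nat_lit 0x80029938e) (nat_lit 1073741824)]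
noncomputable def e24_3 : List Rx := [
  Rx.mk (nat_lit 36) (nat_lit 4) (nat_lit 4) (nat_lit 0) (nat_lit 0) (nat_lit 315) (nat_lit 155) r4_315 r3_155 (nat_lit 599) (nat_lit 381) (nat_lit 556) (nat_lit 0x6cd77f4c2) (nat_lit 1393168560),
  Rx.mk (nat_lit 39) (nat_lit 7) (nat_lit 4) (nat_lit 0) (nat_lit 1) (nat_lit 318) (nat_lit 161) r4_318 r3_161 (nat_lit 0) (nat_lit 60686) (nat_lit 81020) (nat_lit 0x801a46ce8) (nat_lit 1072248030),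
  Rx.mk (nat_lit 44) (nat_lit 4) (nat_lit 5) (nat_lit 0) (nat_lit 2) (nat_lit 316) (nat_lit 157) r4_316 r3_157 (nat_lit 4812) (nat_lit 0) (nat_lit 78702452) (nat_lit 0x7ffa386b8) (nat_lit 1152826188),
  Rx.mk (nat_lit 47) (nat_lit 7) (nat_lit 5) (nat_lit 0) (nat_lit 3) (nat_lit 319) (nat_lit 163) r4_319 r3_163 (nat_lit 0) (nat_lit 0) (nat_lit 1522780) (nat_lit 0x8378e3c12) (nat_lit 1019195904),
  Rx.mk (nat_lit 52) (nat_lit 4) (nat_lit 6) (nat_lit 0) (nat_lit 2) (nat_lit 317) (nat_lit 159) r4_317 r3_159 (nat_lit 110773703) (nat_lit 0) (nat_lit 9406) (nat_lit 0x7ffe0e01c) (nat_lit 1184655233),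
  Rx.mk (nat_lit 55) (nat_lit 7) (nat_lit 6) (nat_lit 0) (nat_lit 3) (nat_lit 320) (nat_lit 165) r4_320 r3_165 (nat_lit 0) (nat_lit 0) (nat_lit 1606138) (nat_lit 0x821e57844) (nat_lit 1041172862),
  Rx.mk (nat_lit 100) (nat_lit 4) (nat_lit 4) (nat_lit 1) (nat_lit 4) (nat_lit 321) (nat_lit 156) r4_321 r3_156 (nat_lit 48933) (nat_lit 40791) (nat_lit 0) (nat_lit 0x7dd97d7c2) (nat_lit 1109695448),
  Rx.mk (nat_lit 103) (nat_lit 7) (nat_lit 4) (nat_lit 1) (nat_lit 5) (nat_lit 324) (nat_lit 162) r4_324 r3_162 (nat_lit 0) (nat_lit 584304) (nat_lit 0) (nat_lit 0x9167d9fb2) (nat_lit 792933828),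
  Rx.mk (nat_lit 108) (nat_lit 4) (nat_lit 5) (nat_lit 1) (nat_lit 6) (nat_lit 322) (nat_lit 158) r4_322 r3_158 (nat_lit 1367560) (nat_lit 0) (nat_lit 0) (nat_lit 0x8ae095fb6) (nat_lit 899278784),
  Rx.mk (nat_lit 111) (nat_lit 7) (nat_lit 5) (nat_lit 1) (nat_lit 7) (nat_lit 325) (nat_lit 164) r4_325 r3_164 (nat_lit 0) (nat_lit 0) (nat_lit 0) (nat_lit 0x8580ec5f6) (nat_lit 984823424),
  Rx.mk (nat_lit 116) (nat_lit 4) (nat_lit 6) (nat_lit 1) (nat_lit 6) (nat_lit 323) (nat_lit 160) r4_323 r3_160 (nat_lit 70023929) (nat_lit 0) (nat_lit 0) (nat_lit 0x92ac5cf30) (nat_lit 841861753),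
  Rx.mk (nat_lit 119) (nat_lit 7) (nat_lit 6) (nat_lit 1) (nat_lit 7) (nat_lit 326) (nat_lit 166) r4_326 r3_166 (nat_lit 0) (nat_lit 0) (nat_lit 0) (nat_lit 0x84b6c300e) (nat_lit 997593924)]
noncomputable def e24_4 : List Rx := [
  Rx.mk (nat_lit 100) (nat_lit 4) (nat_lit 4) (nat_lit 1) (nat_lit 4) (nat_lit 349) (nat_lit 161) r4_349 r4_161 (nat_lit 8619398) (nat_lit 2616584) (nat_lit 0) (nat_lit 0x73ea8d198) (nat_lit 1286528806),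
  Rx.mk (nat_lit 103) (nat_lit 7) (nat_lit 4) (nat_lit 1) (nat_lit 5) (nat_lit 352) (nat_lit 164) r4_352 r4_164 (nat_lit 0) (nat_lit 2457581) (nat_lit 0) (nat_lit 0x8015711e6) (nat_lit 1074979605),
  Rx.mk (nat_lit 108) (nat_lit 4) (nat_lit 5) (nat_lit 1) (nat_lit 6) (nat_lit 350) (nat_lit 162) r4_350 r4_162 (nat_lit 5449534) (nat_lit 0) (nat_lit 0) (nat_lit 0x802346fd2) (nat_lit 1077099558),
  Rx.mk (nat_lit 111) (nat_lit 7) (nat_lit 5) (nat_lit 1) (nat_lit 7) (nat_lit 353) (nat_lit 165) r4_353 r4_165 (nat_lit 0) (nat_lit 0) (nat_lit 0) (nat_lit 0x805278670) (nat_lit 1068646324),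
  Rx.mk (nat_lit 116) (nat_lit 4) (nat_lit 6) (nat_lit 1) (nat_lit 6) (nat_lit 351) (nat_lit 163) r4_351 r4_163 (nat_lit 8320896) (nat_lit 0) (nat_lit 0) (nat_lit 0x804e26a54) (nat_lit 1077233520),
  Rx.mk (nat_lit 119) (nat_lit 7) (nat_lit 6) (nat_lit 1) (nat_lit 7) (nat_lit 354) (nat_lit 166) r4_354 r4_166 (nat_lit 0) (nat_lit 0) (nat_lit 0) (nat_lit 0x8054e1330) (nat_lit 1068491824)]
noncomputable def e24_5 : List Rx := [
  Rx.mk (nat_lit 36) (nat_lit 4) (nat_lit 4) (nat_lit 0) (nat_lit 0) (nat_lit 366) (nat_lit 169) r4_366 r5_169 (nat_lit 4259189) (nat_lit 466835) (nat_lit 860710) (nat_lit 0x635d5b15e) (nat_lit 1556822258),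
  Rx.mk (nat_lit 39) (nat_lit 7) (nat_lit 4) (nat_lit 0) (nat_lit 1) (nat_lit 369) (nat_lit 177) r4_369 r5_177 (nat_lit 0) (nat_lit 2004750) (nat_lit 2934250) (nat_lit 0x73620465a) (nat_lit 1289129524),
  Rx.mk (nat_lit 44) (nat_lit 4) (nat_lit 5) (nat_lit 0) (nat_lit 2) (nat_lit 367) (nat_lit 172) r4_367 r5_172 (nat_lit 12405820) (nat_lit 0) (nat_lit 17535176) (nat_lit 0x795ddbf82) (nat_lit 1214366620),
  Rx.mk (nat_lit 47) (nat_lit 7) (nat_lit 5) (nat_lit 0) (nat_lit 3) (nat_lit 370) (nat_lit 179) r4_370 r5_179 (nat_lit 0) (nat_lit 0) (nat_lit 2793643) (nat_lit 0x803c95650) (nat_lit 1072830667),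
  Rx.mk (nat_lit 52) (nat_lit 4) (nat_lit 6) (nat_lit 0) (nat_lit 2) (nat_lit 368) (nat_lit 174) r4_368 r5_174 (nat_lit 168964555) (nat_lit 0) (nat_lit 2267724) (nat_lit 0x7c6cb83d6) (nat_lit 1304668303),
  Rx.mk (nat_lit 55) (nat_lit 7) (nat_lit 6) (nat_lit 0) (nat_lit 3) (nat_lit 371) (nat_lit 182) r4_371 r5_182 (nat_lit 0) (nat_lit 0) (nat_lit 2786793) (nat_lit 0x8043eceee) (nat_lit 1072357417),
  Rx.mk (nat_lit 63) (nat_lit 7) (nat_lit 7) (nat_lit 0) (nat_lit 3) (nat_lit 372) (nat_lit 180) r4_372 r5_180 (nat_lit 0) (nat_lit 0) (nat_lit 5596659) (nat_lit 0x7fa5306f2) (nat_lit 1085368283),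
  Rx.mk (nat_lit 100) (nat_lit 4) (nat_lit 4) (nat_lit 1) (nat_lit 4) (nat_lit 373) (nat_lit 170) r4_373 r5_170 (nat_lit 153422483) (nat_lit 3329898) (nat_lit 0) (nat_lit 0x7f7ad06e6) (nat_lit 1239277705),
  Rx.mk (nat_lit 103) (nat_lit 7) (nat_lit 4) (nat_lit 1) (nat_lit 5) (nat_lit 375) (nat_lit 178) r4_375 r5_178 (nat_lit 0) (nat_lit 2300083) (nat_lit 0) (nat_lit 0x804f77e08) (nat_lit 1071135707),
  Rx.mk (nat_lit 116) (nat_lit 4) (nat_lit 6) (nat_lit 1) (nat_lit 6) (nat_lit 374) (nat_lit 175) r4_374 r5_175 (nat_lit 16093624) (nat_lit 0) (nat_lit 0) (nat_lit 0x801f08c90) (nat_lit 1088008048),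
  Rx.mk (nat_lit 119) (nat_lit 7) (nat_lit 6) (nat_lit 1) (nat_lit 7) (nat_lit 376) (nat_lit 183) r4_376 r5_183 (nat_lit 0) (nat_lit 0) (nat_lit 0) (nat_lit 0x803aaf69c) (nat_lit 1070158824),
  Rx.mk (nat_lit 127) (nat_lit 7) (nat_lit 7) (nat_lit 1) (nat_lit 7) (nat_lit 377) (nat_lit 181) r4_377 r5_181 (nat_lit 0) (nat_lit 0) (nat_lit 0) (nat_lit 0x8012f24a6) (nat_lit 1072693924),
  Rx.mk (nat_lit 228) (nat_lit 4) (nat_lit 4) (nat_lit 3) (nat_lit 4) (nat_lit 378) (nat_lit 171) r4_378 r5_171 (nat_lit 6556923) (nat_lit 4331708) (nat_lit 0) (nat_lit 0x7f318d5ec) (nat_lit 1098171755),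
  Rx.mk (nat_lit 236) (nat_lit 4) (nat_lit 5) (nat_lit 3) (nat_lit 6) (nat_lit 379) (nat_lit 173) r4_379 r5_173 (nat_lit 5449534) (nat_lit 0) (nat_lit 0) (nat_lit 0x80029938e) (nat_lit 1079191358),
  Rx.mk (nat_lit 244) (nat_lit 4) (nat_lit 6) (nat_lit 3) (nat_lit 6) (nat_lit 380) (nat_lit 176) r4_380 r5_176 (nat_lit 5449534) (nat_lit 0) (nat_lit 0) (nat_lit 0x802356b3a) (nat_lit 1077095958)]
noncomputable def e24_6 : List Rx := [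
  Rx.mk (nat_lit 59) (nat_lit 3) (nat_lit 7) (nat_lit 0) (nat_lit 3) (nat_lit 34) (nat_lit 126) r4_34 r3_126 (nat_lit 0) (nat_lit 0) (nat_lit 186832) (nat_lit 0x8110cd21a) (nat_lit 1056746256),
  Rx.mk (nat_lit 187) (nat_lit 3) (nat_lit 7) (nat_lit 2) (nat_lit 7) (nat_lit 35) (nat_lit 128) r4_35 r3_128 (nat_lit 0) (nat_lit 0) (nat_lit 0) (nat_lit 0x803c763ae) (nat_lit 1069944524),
  Rx.mk (nat_lit 231) (nat_lit 7) (nat_lit 4) (nat_lit 3) (nat_lit 5) (nat_lit 36) (nat_lit 124) r4_36 r3_124 (nat_lit 0) (nat_lit 151565) (nat_lit 0) (nat_lit 0x843c2e92e) (nat_lit 1005447389),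
  Rx.mk (nat_lit 247) (nat_lit 7) (nat_lit 6) (nat_lit 3) (nat_lit 7) (nat_lit 37) (nat_lit 131) r4_37 r3_131 (nat_lit 0) (nat_lit 0) (nat_lit 0) (nat_lit 0x81e6b91f8) (nat_lit 1043074824),
  Rx.mk (nat_lit 251) (nat_lit 3) (nat_lit 7) (nat_lit 3) (nat_lit 7) (nat_lit 39) (nat_lit 127) r4_39 r3_127 (nat_lit 0) (nat_lit 0) (nat_lit 0) (nat_lit 0x800d34d52) (nat_lit 1073056924),
  Rx.mk (nat_lit 255) (nat_lit 7) (nat_lit 7) (nat_lit 3) (nat_lit 7) (nat_lit 38) (nat_lit 125) r4_38 r3_125 (nat_lit 0) (nat_lit 0) (nat_lit 0) (nat_lit 0x8037a5636) (nat_lit 1070353724),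
  Rx.mk (nat_lit 500) (nat_lit 4) (nat_lit 6) (nat_lit 7) (nat_lit 6) (nat_lit 31) (nat_lit 129) r4_31 r3_129 (nat_lit 3571) (nat_lit 0) (nat_lit 0) (nat_lit 0x7fff6bf5e) (nat_lit 1073783595),
  Rx.mk (nat_lit 502) (nat_lit 6) (nat_lit 6) (nat_lit 7) (nat_lit 7) (nat_lit 32) (nat_lit 132) r4_32 r3_132 (nat_lit 0) (nat_lit 0) (nat_lit 0) (nat_lit 0x7f80ef3ba) (nat_lit 1082118624),
  Rx.mk (nat_lit 503) (nat_lit 7) (nat_lit 6) (nat_lit 7) (nat_lit 7) (nat_lit 33) (nat_lit 130) r4_33 r3_130 (nat_lit 0) (nat_lit 0) (nat_lit 0) (nat_lit 0x8282ead92) (nat_lit 1033219524)]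
noncomputable def e24_7 : List Rx := [
  Rx.mk (nat_lit 308) (nat_lit 4) (nat_lit 6) (nat_lit 4) (nat_lit 2) (nat_lit 93) (nat_lit 142) r4_93 r0_142 (nat_lit 274678991) (nat_lit 0) (nat_lit 141544) (nat_lit 0x64b4664b6) (nat_lit 1803687759),
  Rx.mk (nat_lit 310) (nat_lit 6) (nat_lit 6) (nat_lit 4) (nat_lit 3) (nat_lit 94) (nat_lit 145) r4_94 r0_145 (nat_lit 0) (nat_lit 0) (nat_lit 3066219) (nat_lit 0x7fc1695a8) (nat_lit 1081005143),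
  Rx.mk (nat_lit 500) (nat_lit 4) (nat_lit 6) (nat_lit 7) (nat_lit 6) (nat_lit 95) (nat_lit 143) r4_95 r0_143 (nat_lit 78264559) (nat_lit 0) (nat_lit 0) (nat_lit 0x80209c4da) (nat_lit 1150066883),
  Rx.mk (nat_lit 502) (nat_lit 6) (nat_lit 6) (nat_lit 7) (nat_lit 7) (nat_lit 96) (nat_lit 146) r4_96 r0_146 (nat_lit 0) (nat_lit 0) (nat_lit 0) (nat_lit 0x80388f0ce) (nat_lit 1070293424),
  Rx.mk (nat_lit 503) (nat_lit 7) (nat_lit 6) (nat_lit 7) (nat_lit 7) (nat_lit 97) (nat_lit 144) r4_97 r0_144 (nat_lit 0) (nat_lit 0) (nat_lit 0) (nat_lit 0x8017d8204) (nat_lit 1072380824)]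
noncomputable def e24_8 : List Rx := [
  Rx.mk (nat_lit 308) (nat_lit 4) (nat_lit 6) (nat_lit 4) (nat_lit 2) (nat_lit 107) (nat_lit 154) r4_107 r1_154 (nat_lit 225790253) (nat_lit 0) (nat_lit 2584296) (nat_lit 0x78edca536) (nat_lit 1420092973),
  Rx.mk (nat_lit 310) (nat_lit 6) (nat_lit 6) (nat_lit 4) (nat_lit 3) (nat_lit 108) (nat_lit 158) r4_108 r1_158 (nat_lit 0) (nat_lit 0) (nat_lit 3186952) (nat_lit 0x7feaece7a) (nat_lit 1078447376),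
  Rx.mk (nat_lit 372) (nat_lit 4) (nat_lit 6) (nat_lit 5) (nat_lit 6) (nat_lit 109) (nat_lit 155) r4_109 r1_155 (nat_lit 5659181) (nat_lit 0) (nat_lit 0) (nat_lit 0x80302b7b6) (nat_lit 1076486505),
  Rx.mk (nat_lit 374) (nat_lit 6) (nat_lit 6) (nat_lit 5) (nat_lit 7) (nat_lit 110) (nat_lit 159) r4_110 r1_159 (nat_lit 0) (nat_lit 0) (nat_lit 0) (nat_lit 0x802afc2d6) (nat_lit 1071158224),
  Rx.mk (nat_lit 500) (nat_lit 4) (nat_lit 6) (nat_lit 7) (nat_lit 6) (nat_lit 111) (nat_lit 156) r4_111 r1_156 (nat_lit 6157515) (nat_lit 0) (nat_lit 0) (nat_lit 0x8041aa0a0) (nat_lit 1075870639),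
  Rx.mk (nat_lit 502) (nat_lit 6) (nat_lit 6) (nat_lit 7) (nat_lit 7) (nat_lit 112) (nat_lit 160) r4_112 r1_160 (nat_lit 0) (nat_lit 0) (nat_lit 0) (nat_lit 0x80264a0da) (nat_lit 1071457724),
  Rx.mk (nat_lit 503) (nat_lit 7) (nat_lit 6) (nat_lit 7) (nat_lit 7) (nat_lit 113) (nat_lit 157) r4_113 r1_157 (nat_lit 0) (nat_lit 0) (nat_lit 0) (nat_lit 0x80029938e) (nat_lit 1073741824)]
noncomputable def e24_9 : List Rx := [
  Rx.mk (nat_lit 500) (nat_lit 4) (nat_lit 6) (nat_lit 7) (nat_lit 6) (nat_lit 131) (nat_lit 131) r4_131 r4_131 (nat_lit 9261977) (nat_lit 0) (nat_lit 0) (nat_lit 0x8048a6476) (nat_lit 1078522301),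
  Rx.mk (nat_lit 502) (nat_lit 6) (nat_lit 6) (nat_lit 7) (nat_lit 7) (nat_lit 132) (nat_lit 133) r4_132 r4_133 (nat_lit 0) (nat_lit 0) (nat_lit 0) (nat_lit 0x8019a7878) (nat_lit 1072263824),
  Rx.mk (nat_lit 503) (nat_lit 7) (nat_lit 6) (nat_lit 7) (nat_lit 7) (nat_lit 133) (nat_lit 132) r4_133 r4_132 (nat_lit 0) (nat_lit 0) (nat_lit 0) (nat_lit 0x8019a7878) (nat_lit 1072263824)]
noncomputable def e24_10 : List Rx := [
  Rx.mk (nat_lit 39) (nat_lit 7) (nat_lit 4) (nat_lit 0) (nat_lit 1) (nat_lit 229) (nat_lit 186) r4_229 r6_186 (nat_lit 0) (nat_lit 38237) (nat_lit 47711) (nat_lit 0x718a177ac) (nat_lit 1314939572),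
  Rx.mk (nat_lit 47) (nat_lit 7) (nat_lit 5) (nat_lit 0) (nat_lit 3) (nat_lit 230) (nat_lit 188) r4_230 r6_188 (nat_lit 0) (nat_lit 0) (nat_lit 3192982) (nat_lit 0x803a9355a) (nat_lit 1073361906),
  Rx.mk (nat_lit 55) (nat_lit 7) (nat_lit 6) (nat_lit 0) (nat_lit 3) (nat_lit 231) (nat_lit 191) r4_231 r6_191 (nat_lit 0) (nat_lit 0) (nat_lit 2840910) (nat_lit 0x804903392) (nat_lit 1072090734),
  Rx.mk (nat_lit 59) (nat_lit 3) (nat_lit 7) (nat_lit 0) (nat_lit 3) (nat_lit 233) (nat_lit 181) r4_233 r6_181 (nat_lit 0) (nat_lit 0) (nat_lit 2519210) (nat_lit 0x7ebf86994) (nat_lit 1097219834),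
  Rx.mk (nat_lit 63) (nat_lit 7) (nat_lit 7) (nat_lit 0) (nat_lit 3) (nat_lit 232) (nat_lit 190) r4_232 r6_190 (nat_lit 0) (nat_lit 0) (nat_lit 2826148) (nat_lit 0x7ffa8010c) (nat_lit 1077083472),
  Rx.mk (nat_lit 187) (nat_lit 3) (nat_lit 7) (nat_lit 2) (nat_lit 7) (nat_lit 234) (nat_lit 182) r4_234 r6_182 (nat_lit 0) (nat_lit 0) (nat_lit 0) (nat_lit 0x81261a06e) (nat_lit 1055268324),
  Rx.mk (nat_lit 228) (nat_lit 4) (nat_lit 4) (nat_lit 3) (nat_lit 4) (nat_lit 235) (nat_lit 183) r4_235 r6_183 (nat_lit 9876) (nat_lit 6592) (nat_lit 0) (nat_lit 0x73504ef82) (nat_lit 1285279692),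
  Rx.mk (nat_lit 231) (nat_lit 7) (nat_lit 4) (nat_lit 3) (nat_lit 5) (nat_lit 238) (nat_lit 187) r4_238 r6_187 (nat_lit 0) (nat_lit 1219035) (nat_lit 0) (nat_lit 0x80393948e) (nat_lit 1071457659),
  Rx.mk (nat_lit 236) (nat_lit 4) (nat_lit 5) (nat_lit 3) (nat_lit 6) (nat_lit 236) (nat_lit 184) r4_236 r6_184 (nat_lit 4043670) (nat_lit 0) (nat_lit 0) (nat_lit 0x8019d8c3e) (nat_lit 1076296794),
  Rx.mk (nat_lit 239) (nat_lit 7) (nat_lit 5) (nat_lit 3) (nat_lit 7) (nat_lit 239) (nat_lit 189) r4_239 r6_189 (nat_lit 0) (nat_lit 0) (nat_lit 0) (nat_lit 0x807785210) (nat_lit 1066297424),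
  Rx.mk (nat_lit 244) (nat_lit 4) (nat_lit 6) (nat_lit 3) (nat_lit 6) (nat_lit 237) (nat_lit 185) r4_237 r6_185 (nat_lit 1760727) (nat_lit 0) (nat_lit 0) (nat_lit 0x802b4e4aa) (nat_lit 1072885551),
  Rx.mk (nat_lit 247) (nat_lit 7) (nat_lit 6) (nat_lit 3) (nat_lit 7) (nat_lit 240) (nat_lit 192) r4_240 r6_192 (nat_lit 0) (nat_lit 0) (nat_lit 0) (nat_lit 0x809a0fc90) (nat_lit 1064111224)]
noncomputable def e24_11 : List Rx := [
  Rx.mk (nat_lit 59) (nat_lit 3) (nat_lit 7) (nat_lit 0) (nat_lit 3) (nat_lit 198) (nat_lit 128) r4_198 r5_128 (nat_lit 0) (nat_lit 0) (nat_lit 1963519) (nat_lit 0x7f8b75bf4) (nat_lit 1083400343),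
  Rx.mk (nat_lit 63) (nat_lit 7) (nat_lit 7) (nat_lit 0) (nat_lit 3) (nat_lit 197) (nat_lit 126) r4_197 r5_126 (nat_lit 0) (nat_lit 0) (nat_lit 2905451) (nat_lit 0x7f6eaed5e) (nat_lit 1086211975),
  Rx.mk (nat_lit 187) (nat_lit 3) (nat_lit 7) (nat_lit 2) (nat_lit 7) (nat_lit 199) (nat_lit 129) r4_199 r5_129 (nat_lit 0) (nat_lit 0) (nat_lit 0) (nat_lit 0x813222a50) (nat_lit 1054496724),
  Rx.mk (nat_lit 228) (nat_lit 4) (nat_lit 4) (nat_lit 3) (nat_lit 4) (nat_lit 200) (nat_lit 124) r4_200 r5_124 (nat_lit 73422) (nat_lit 50115) (nat_lit 0) (nat_lit 0x6722c5068) (nat_lit 1488441861),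
  Rx.mk (nat_lit 231) (nat_lit 7) (nat_lit 4) (nat_lit 3) (nat_lit 5) (nat_lit 202) (nat_lit 125) r4_202 r5_125 (nat_lit 0) (nat_lit 1227291) (nat_lit 0) (nat_lit 0x807e5e654) (nat_lit 1067084415),
  Rx.mk (nat_lit 244) (nat_lit 4) (nat_lit 6) (nat_lit 3) (nat_lit 6) (nat_lit 201) (nat_lit 131) r4_201 r5_131 (nat_lit 1816985) (nat_lit 0) (nat_lit 0) (nat_lit 0x7ffac5572) (nat_lit 1076046309),
  Rx.mk (nat_lit 247) (nat_lit 7) (nat_lit 6) (nat_lit 3) (nat_lit 7) (nat_lit 203) (nat_lit 132) r4_203 r5_132 (nat_lit 0) (nat_lit 0) (nat_lit 0) (nat_lit 0x80898c5d0) (nat_lit 1065156424),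
  Rx.mk (nat_lit 255) (nat_lit 7) (nat_lit 7) (nat_lit 3) (nat_lit 7) (nat_lit 204) (nat_lit 127) r4_204 r5_127 (nat_lit 0) (nat_lit 0) (nat_lit 0) (nat_lit 0x801b210f0) (nat_lit 1072171724),
  Rx.mk (nat_lit 500) (nat_lit 4) (nat_lit 6) (nat_lit 7) (nat_lit 6) (nat_lit 195) (nat_lit 130) r4_195 r5_130 (nat_lit 192946712) (nat_lit 0) (nat_lit 0) (nat_lit 0x7fdc0d3f0) (nat_lit 1269076836),
  Rx.mk (nat_lit 502) (nat_lit 6) (nat_lit 6) (nat_lit 7) (nat_lit 7) (nat_lit 196) (nat_lit 133) r4_196 r5_133 (nat_lit 0) (nat_lit 0) (nat_lit 0) (nat_lit 0x801352b30) (nat_lit 1072671524)]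
noncomputable def e24_12 : List Rx := [
  Rx.mk (nat_lit 37) (nat_lit 5) (nat_lit 4) (nat_lit 0) (nat_lit 1) (nat_lit 253) (nat_lit 306) r4_253 r0_306 (nat_lit 0) (nat_lit 2254859) (nat_lit 109994147) (nat_lit 0x721a33c50) (nat_lit 1417787930),
  Rx.mk (nat_lit 45) (nat_lit 5) (nat_lit 5) (nat_lit 0) (nat_lit 3) (nat_lit 254) (nat_lit 307) r4_254 r0_307 (nat_lit 0) (nat_lit 0) (nat_lit 456084292) (nat_lit 0x7d9d80ab2) (nat_lit 1569623716),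
  Rx.mk (nat_lit 53) (nat_lit 5) (nat_lit 6) (nat_lit 0) (nat_lit 3) (nat_lit 255) (nat_lit 308) r4_255 r0_308 (nat_lit 0) (nat_lit 0) (nat_lit 7949593) (nat_lit 0x7febedd10) (nat_lit 1083145917),
  Rx.mk (nat_lit 100) (nat_lit 4) (nat_lit 4) (nat_lit 1) (nat_lit 4) (nat_lit 256) (nat_lit 309) r4_256 r0_309 (nat_lit 8118484) (nat_lit 89716582) (nat_lit 0) (nat_lit 0x6a154d77a) (nat_lit 1537072690),
  Rx.mk (nat_lit 101) (nat_lit 5) (nat_lit 4) (nat_lit 1) (nat_lit 5) (nat_lit 259) (nat_lit 310) r4_259 r0_310 (nat_lit 0) (nat_lit 5728860) (nat_lit 0) (nat_lit 0x7fd6649a8) (nat_lit 1082310884),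
  Rx.mk (nat_lit 108) (nat_lit 4) (nat_lit 5) (nat_lit 1) (nat_lit 6) (nat_lit 257) (nat_lit 311) r4_257 r0_311 (nat_lit 6336730) (nat_lit 0) (nat_lit 0) (nat_lit 0x7fe202792) (nat_lit 1082176554),
  Rx.mk (nat_lit 109) (nat_lit 5) (nat_lit 5) (nat_lit 1) (nat_lit 7) (nat_lit 260) (nat_lit 312) r4_260 r0_312 (nat_lit 0) (nat_lit 0) (nat_lit 0) (nat_lit 0x8029d9714) (nat_lit 1071230724),
  Rx.mk (nat_lit 116) (nat_lit 4) (nat_lit 6) (nat_lit 1) (nat_lit 6) (nat_lit 258) (nat_lit 313) r4_258 r0_313 (nat_lit 3644892) (nat_lit 0) (nat_lit 0) (nat_lit 0x7fe25d200) (nat_lit 1079457116),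
  Rx.mk (nat_lit 117) (nat_lit 5) (nat_lit 6) (nat_lit 1) (nat_lit 7) (nat_lit 261) (nat_lit 314) r4_261 r0_314 (nat_lit 0) (nat_lit 0) (nat_lit 0) (nat_lit 0x800cb83c4) (nat_lit 1073092924)]
noncomputable def e24_13 : List Rx := [
  Rx.mk (nat_lit 100) (nat_lit 4) (nat_lit 4) (nat_lit 1) (nat_lit 4) (nat_lit 265) (nat_lit 223) r4_265 r7_223 (nat_lit 34184311) (nat_lit 10345136) (nat_lit 0) (nat_lit 0x6ebe1e59e) (nat_lit 1406084271),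
  Rx.mk (nat_lit 101) (nat_lit 5) (nat_lit 4) (nat_lit 1) (nat_lit 5) (nat_lit 268) (nat_lit 226) r4_268 r7_226 (nat_lit 0) (nat_lit 4100018) (nat_lit 0) (nat_lit 0x801ea5dd4) (nat_lit 1076046742),
  Rx.mk (nat_lit 108) (nat_lit 4) (nat_lit 5) (nat_lit 1) (nat_lit 6) (nat_lit 266) (nat_lit 224) r4_266 r7_224 (nat_lit 5449534) (nat_lit 0) (nat_lit 0) (nat_lit 0x80029938e) (nat_lit 1079191358),
  Rx.mk (nat_lit 109) (nat_lit 5) (nat_lit 5) (nat_lit 1) (nat_lit 7) (nat_lit 269) (nat_lit 227) r4_269 r7_227 (nat_lit 0) (nat_lit 0) (nat_lit 0) (nat_lit 0x80029938e) (nat_lit 1073741824),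
  Rx.mk (nat_lit 116) (nat_lit 4) (nat_lit 6) (nat_lit 1) (nat_lit 6) (nat_lit 267) (nat_lit 225) r4_267 r7_225 (nat_lit 4321044) (nat_lit 0) (nat_lit 0) (nat_lit 0x800f26f02) (nat_lit 1077257068),
  Rx.mk (nat_lit 117) (nat_lit 5) (nat_lit 6) (nat_lit 1) (nat_lit 7) (nat_lit 270) (nat_lit 228) r4_270 r7_228 (nat_lit 0) (nat_lit 0) (nat_lit 0) (nat_lit 0x80029938e) (nat_lit 1073741824)]
noncomputable def e24_14 : List Rx := [
  Rx.mk (nat_lit 37) (nat_lit 5) (nat_lit 4) (nat_lit 0) (nat_lit 1) (nat_lit 293) (nat_lit 297) r4_293 r1_297 (nat_lit 0) (nat_lit 5098899) (nat_lit 227840882) (nat_lit 0x7551b3222) (nat_lit 1484851905),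
  Rx.mk (nat_lit 45) (nat_lit 5) (nat_lit 5) (nat_lit 0) (nat_lit 3) (nat_lit 294) (nat_lit 298) r4_294 r1_298 (nat_lit 0) (nat_lit 0) (nat_lit 239917945) (nat_lit 0x7f5e8ef50) (nat_lit 1324257369),
  Rx.mk (nat_lit 53) (nat_lit 5) (nat_lit 6) (nat_lit 0) (nat_lit 3) (nat_lit 295) (nat_lit 299) r4_295 r1_299 (nat_lit 0) (nat_lit 0) (nat_lit 5727388) (nat_lit 0x801c5e8a0) (nat_lit 1077818112),
  Rx.mk (nat_lit 101) (nat_lit 5) (nat_lit 4) (nat_lit 1) (nat_lit 5) (nat_lit 296) (nat_lit 300) r4_296 r1_300 (nat_lit 0) (nat_lit 4793271) (nat_lit 0) (nat_lit 0x7fffe83ba) (nat_lit 1078705595),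
  Rx.mk (nat_lit 109) (nat_lit 5) (nat_lit 5) (nat_lit 1) (nat_lit 7) (nat_lit 297) (nat_lit 301) r4_297 r1_301 (nat_lit 0) (nat_lit 0) (nat_lit 0) (nat_lit 0x80265157e) (nat_lit 1071456124),
  Rx.mk (nat_lit 117) (nat_lit 5) (nat_lit 6) (nat_lit 1) (nat_lit 7) (nat_lit 298) (nat_lit 302) r4_298 r1_302 (nat_lit 0) (nat_lit 0) (nat_lit 0) (nat_lit 0x80107341e) (nat_lit 1072853724)]
noncomputable def e24_15 : List Rx := [
  Rx.mk (nat_lit 101) (nat_lit 5) (nat_lit 4) (nat_lit 1) (nat_lit 5) (nat_lit 304) (nat_lit 181) r4_304 r8_181 (nat_lit 0) (nat_lit 5449534) (nat_lit 0) (nat_lit 0x80029938e) (nat_lit 1079191358),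
  Rx.mk (nat_lit 109) (nat_lit 5) (nat_lit 5) (nat_lit 1) (nat_lit 7) (nat_lit 305) (nat_lit 182) r4_305 r8_182 (nat_lit 0) (nat_lit 0) (nat_lit 0) (nat_lit 0x80029938e) (nat_lit 1073741824),
  Rx.mk (nat_lit 117) (nat_lit 5) (nat_lit 6) (nat_lit 1) (nat_lit 7) (nat_lit 306) (nat_lit 183) r4_306 r8_183 (nat_lit 0) (nat_lit 0) (nat_lit 0) (nat_lit 0x80029938e) (nat_lit 1073741824)]
noncomputable def e24_16 : List Rx := [
  Rx.mk (nat_lit 100) (nat_lit 4) (nat_lit 4) (nat_lit 1) (nat_lit 4) (nat_lit 287) (nat_lit 341) r4_287 r8_341 (nat_lit 6927974) (nat_lit 6310285) (nat_lit 0) (nat_lit 0x6ff2af942) (nat_lit 1354702483),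
  Rx.mk (nat_lit 101) (nat_lit 5) (nat_lit 4) (nat_lit 1) (nat_lit 5) (nat_lit 290) (nat_lit 342) r4_290 r8_342 (nat_lit 0) (nat_lit 5449534) (nat_lit 0) (nat_lit 0x80029938e) (nat_lit 1079191358),
  Rx.mk (nat_lit 108) (nat_lit 4) (nat_lit 5) (nat_lit 1) (nat_lit 6) (nat_lit 288) (nat_lit 343) r4_288 r8_343 (nat_lit 5449534) (nat_lit 0) (nat_lit 0) (nat_lit 0x80029938e) (nat_lit 1079191358),
  Rx.mk (nat_lit 109) (nat_lit 5) (nat_lit 5) (nat_lit 1) (nat_lit 7) (nat_lit 291) (nat_lit 344) r4_291 r8_344 (nat_lit 0) (nat_lit 0) (nat_lit 0) (nat_lit 0x80029938e) (nat_lit 1073741824),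
  Rx.mk (nat_lit 116) (nat_lit 4) (nat_lit 6) (nat_lit 1) (nat_lit 6) (nat_lit 289) (nat_lit 345) r4_289 r8_345 (nat_lit 5449534) (nat_lit 0) (nat_lit 0) (nat_lit 0x80029938e) (nat_lit 1079191358),
  Rx.mk (nat_lit 117) (nat_lit 5) (nat_lit 6) (nat_lit 1) (nat_lit 7) (nat_lit 292) (nat_lit 346) r4_292 r8_346 (nat_lit 0) (nat_lit 0) (nat_lit 0) (nat_lit 0x80029938e) (nat_lit 1073741824),
  Rx.mk (nat_lit 372) (nat_lit 4) (nat_lit 6) (nat_lit 5) (nat_lit 6) (nat_lit 284) (nat_lit 338) r4_284 r8_338 (nat_lit 5449534) (nat_lit 0) (nat_lit 0) (nat_lit 0x80029938e) (nat_lit 1079191358),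
  Rx.mk (nat_lit 373) (nat_lit 5) (nat_lit 6) (nat_lit 5) (nat_lit 7) (nat_lit 285) (nat_lit 339) r4_285 r8_339 (nat_lit 0) (nat_lit 0) (nat_lit 0) (nat_lit 0x80029938e) (nat_lit 1073741824),
  Rx.mk (nat_lit 374) (nat_lit 6) (nat_lit 6) (nat_lit 5) (nat_lit 7) (nat_lit 286) (nat_lit 340) r4_286 r8_340 (nat_lit 0) (nat_lit 0) (nat_lit 0) (nat_lit 0x80029938e) (nat_lit 1073741824)]
noncomputable def e24_17 : List Rx := [
  Rx.mk (nat_lit 372) (nat_lit 4) (nat_lit 6) (nat_lit 5) (nat_lit 6) (nat_lit 273) (nat_lit 167) r4_273 r9_167 (nat_lit 5449534) (nat_lit 0) (nat_lit 0) (nat_lit 0x80029938e) (nat_lit 1079191358),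
  Rx.mk (nat_lit 373) (nat_lit 5) (nat_lit 6) (nat_lit 5) (nat_lit 7) (nat_lit 274) (nat_lit 168) r4_274 r9_168 (nat_lit 0) (nat_lit 0) (nat_lit 0) (nat_lit 0x80029938e) (nat_lit 1073741824),
  Rx.mk (nat_lit 374) (nat_lit 6) (nat_lit 6) (nat_lit 5) (nat_lit 7) (nat_lit 275) (nat_lit 169) r4_275 r9_169 (nat_lit 0) (nat_lit 0) (nat_lit 0) (nat_lit 0x80029938e) (nat_lit 1073741824)]
noncomputable def e24_18 : List Rx := [
  Rx.mk (nat_lit 36) (nat_lit 4) (nat_lit 4) (nat_lit 0) (nat_lit 0) (nat_lit 327) (nat_lit 327) r4_327 r4_327 (nat_lit 1722812) (nat_lit 1722812) (nat_lit 9657535) (nat_lit 0x67a260d5e) (nat_lit 1493172983),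
  Rx.mk (nat_lit 37) (nat_lit 5) (nat_lit 4) (nat_lit 0) (nat_lit 1) (nat_lit 330) (nat_lit 328) r4_330 r4_328 (nat_lit 0) (nat_lit 1920730) (nat_lit 43688353) (nat_lit 0x7b1f6d816) (nat_lit 1200755307),
  Rx.mk (nat_lit 39) (nat_lit 7) (nat_lit 4) (nat_lit 0) (nat_lit 1) (nat_lit 333) (nat_lit 329) r4_333 r4_329 (nat_lit 0) (nat_lit 6399069) (nat_lit 7032255) (nat_lit 0x7e65caa36) (nat_lit 1113984948),
  Rx.mk (nat_lit 44) (nat_lit 4) (nat_lit 5) (nat_lit 0) (nat_lit 2) (nat_lit 328) (nat_lit 330) r4_328 r4_330 (nat_lit 1920730) (nat_lit 0) (nat_lit 43688353) (nat_lit 0x7b1f6d816) (nat_lit 1200755307),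
  Rx.mk (nat_lit 45) (nat_lit 5) (nat_lit 5) (nat_lit 0) (nat_lit 3) (nat_lit 331) (nat_lit 331) r4_331 r4_331 (nat_lit 0) (nat_lit 0) (nat_lit 5449534) (nat_lit 0x801b12a8c) (nat_lit 1077620558),
  Rx.mk (nat_lit 47) (nat_lit 7) (nat_lit 5) (nat_lit 0) (nat_lit 3) (nat_lit 334) (nat_lit 332) r4_334 r4_332 (nat_lit 0) (nat_lit 0) (nat_lit 5449534) (nat_lit 0x8024cb2ae) (nat_lit 1077002758),
  Rx.mk (nat_lit 52) (nat_lit 4) (nat_lit 6) (nat_lit 0) (nat_lit 2) (nat_lit 329) (nat_lit 333) r4_329 r4_333 (nat_lit 6399069) (nat_lit 0) (nat_lit 7032255) (nat_lit 0x7e65caa36) (nat_lit 1113984948),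
  Rx.mk (nat_lit 53) (nat_lit 5) (nat_lit 6) (nat_lit 0) (nat_lit 3) (nat_lit 332) (nat_lit 334) r4_332 r4_334 (nat_lit 0) (nat_lit 0) (nat_lit 5449534) (nat_lit 0x8024cb2ae) (nat_lit 1077002758),
  Rx.mk (nat_lit 100) (nat_lit 4) (nat_lit 4) (nat_lit 1) (nat_lit 4) (nat_lit 335) (nat_lit 335) r4_335 r4_335 (nat_lit 107308903) (nat_lit 107308903) (nat_lit 0) (nat_lit 0x7f6eaa40c) (nat_lit 1297928030),
  Rx.mk (nat_lit 101) (nat_lit 5) (nat_lit 4) (nat_lit 1) (nat_lit 5) (nat_lit 338) (nat_lit 336) r4_338 r4_336 (nat_lit 0) (nat_lit 5024246) (nat_lit 0) (nat_lit 0x80099945e) (nat_lit 1078317170),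
  Rx.mk (nat_lit 103) (nat_lit 7) (nat_lit 4) (nat_lit 1) (nat_lit 5) (nat_lit 341) (nat_lit 337) r4_341 r4_337 (nat_lit 0) (nat_lit 5002485) (nat_lit 0) (nat_lit 0x80137c75a) (nat_lit 1077661009),
  Rx.mk (nat_lit 108) (nat_lit 4) (nat_lit 5) (nat_lit 1) (nat_lit 6) (nat_lit 336) (nat_lit 338) r4_336 r4_338 (nat_lit 5024246) (nat_lit 0) (nat_lit 0) (nat_lit 0x80099945e) (nat_lit 1078317170),
  Rx.mk (nat_lit 109) (nat_lit 5) (nat_lit 5) (nat_lit 1) (nat_lit 7) (nat_lit 339) (nat_lit 339) r4_339 r4_339 (nat_lit 0) (nat_lit 0) (nat_lit 0) (nat_lit 0x80029938e) (nat_lit 1073741824),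
  Rx.mk (nat_lit 111) (nat_lit 7) (nat_lit 5) (nat_lit 1) (nat_lit 7) (nat_lit 342) (nat_lit 340) r4_342 r4_340 (nat_lit 0) (nat_lit 0) (nat_lit 0) (nat_lit 0x80029938e) (nat_lit 1073741824),
  Rx.mk (nat_lit 116) (nat_lit 4) (nat_lit 6) (nat_lit 1) (nat_lit 6) (nat_lit 337) (nat_lit 341) r4_337 r4_341 (nat_lit 5002485) (nat_lit 0) (nat_lit 0) (nat_lit 0x80137c75a) (nat_lit 1077661009),
  Rx.mk (nat_lit 117) (nat_lit 5) (nat_lit 6) (nat_lit 1) (nat_lit 7) (nat_lit 340) (nat_lit 342) r4_340 r4_342 (nat_lit 0) (nat_lit 0) (nat_lit 0) (nat_lit 0x80029938e) (nat_lit 1073741824)]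
noncomputable def e24_19 : List Rx := [
  Rx.mk (nat_lit 100) (nat_lit 4) (nat_lit 4) (nat_lit 1) (nat_lit 4) (nat_lit 355) (nat_lit 175) r4_355 r10_175 (nat_lit 8253129) (nat_lit 6309114) (nat_lit 0) (nat_lit 0x750b231e0) (nat_lit 1271062467),
  Rx.mk (nat_lit 101) (nat_lit 5) (nat_lit 4) (nat_lit 1) (nat_lit 5) (nat_lit 358) (nat_lit 178) r4_358 r10_178 (nat_lit 0) (nat_lit 3972091) (nat_lit 0) (nat_lit 0x8021df644) (nat_lit 1075712715),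
  Rx.mk (nat_lit 103) (nat_lit 7) (nat_lit 4) (nat_lit 1) (nat_lit 5) (nat_lit 361) (nat_lit 181) r4_361 r10_181 (nat_lit 0) (nat_lit 6376611) (nat_lit 0) (nat_lit 0x8010e4d9e) (nat_lit 1079201535),
  Rx.mk (nat_lit 108) (nat_lit 4) (nat_lit 5) (nat_lit 1) (nat_lit 6) (nat_lit 356) (nat_lit 176) r4_356 r10_176 (nat_lit 5449534) (nat_lit 0) (nat_lit 0) (nat_lit 0x800d8cc28) (nat_lit 1078489458),
  Rx.mk (nat_lit 109) (nat_lit 5) (nat_lit 5) (nat_lit 1) (nat_lit 7) (nat_lit 359) (nat_lit 179) r4_359 r10_179 (nat_lit 0) (nat_lit 0) (nat_lit 0) (nat_lit 0x80029938e) (nat_lit 1073741824),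
  Rx.mk (nat_lit 111) (nat_lit 7) (nat_lit 5) (nat_lit 1) (nat_lit 7) (nat_lit 362) (nat_lit 182) r4_362 r10_182 (nat_lit 0) (nat_lit 0) (nat_lit 0) (nat_lit 0x80029938e) (nat_lit 1073741824),
  Rx.mk (nat_lit 116) (nat_lit 4) (nat_lit 6) (nat_lit 1) (nat_lit 6) (nat_lit 357) (nat_lit 177) r4_357 r10_177 (nat_lit 4709985) (nat_lit 0) (nat_lit 0) (nat_lit 0x8005c37ee) (nat_lit 1078247509),
  Rx.mk (nat_lit 117) (nat_lit 5) (nat_lit 6) (nat_lit 1) (nat_lit 7) (nat_lit 360) (nat_lit 180) r4_360 r10_180 (nat_lit 0) (nat_lit 0) (nat_lit 0) (nat_lit 0x80029938e) (nat_lit 1073741824)]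
noncomputable def e24_20 : List Rx := [
  Rx.mk (nat_lit 36) (nat_lit 4) (nat_lit 4) (nat_lit 0) (nat_lit 0) (nat_lit 381) (nat_lit 191) r4_381 r11_191 (nat_lit 3764156) (nat_lit 3311660) (nat_lit 8641172) (nat_lit 0x5c93f0a86) (nat_lit 1680132412),
  Rx.mk (nat_lit 37) (nat_lit 5) (nat_lit 4) (nat_lit 0) (nat_lit 1) (nat_lit 384) (nat_lit 199) r4_384 r11_199 (nat_lit 0) (nat_lit 5599296) (nat_lit 15577727) (nat_lit 0x7785e1fb0) (nat_lit 1236347147),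
  Rx.mk (nat_lit 39) (nat_lit 7) (nat_lit 4) (nat_lit 0) (nat_lit 1) (nat_lit 387) (nat_lit 207) r4_387 r11_207 (nat_lit 0) (nat_lit 5959014) (nat_lit 9921122) (nat_lit 0x7875189c6) (nat_lit 1215474960),
  Rx.mk (nat_lit 44) (nat_lit 4) (nat_lit 5) (nat_lit 0) (nat_lit 2) (nat_lit 382) (nat_lit 194) r4_382 r11_194 (nat_lit 4816256) (nat_lit 0) (nat_lit 6858387) (nat_lit 0x7fdca3fee) (nat_lit 1087856567),
  Rx.mk (nat_lit 45) (nat_lit 5) (nat_lit 5) (nat_lit 0) (nat_lit 3) (nat_lit 385) (nat_lit 202) r4_385 r11_202 (nat_lit 0) (nat_lit 0) (nat_lit 7939064) (nat_lit 0x7f609f326) (nat_lit 1092168788),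
  Rx.mk (nat_lit 47) (nat_lit 7) (nat_lit 5) (nat_lit 0) (nat_lit 3) (nat_lit 388) (nat_lit 209) r4_388 r11_209 (nat_lit 0) (nat_lit 0) (nat_lit 5449534) (nat_lit 0x80029938e) (nat_lit 1079191358),
  Rx.mk (nat_lit 52) (nat_lit 4) (nat_lit 6) (nat_lit 0) (nat_lit 2) (nat_lit 383) (nat_lit 196) r4_383 r11_196 (nat_lit 8534027) (nat_lit 0) (nat_lit 6991617) (nat_lit 0x7ccb3567a) (nat_lit 1142817968),
  Rx.mk (nat_lit 53) (nat_lit 5) (nat_lit 6) (nat_lit 0) (nat_lit 3) (nat_lit 386) (nat_lit 204) r4_386 r11_204 (nat_lit 0) (nat_lit 0) (nat_lit 5449534) (nat_lit 0x80029938e) (nat_lit 1079191358),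
  Rx.mk (nat_lit 63) (nat_lit 7) (nat_lit 7) (nat_lit 0) (nat_lit 3) (nat_lit 389) (nat_lit 210) r4_389 r11_210 (nat_lit 0) (nat_lit 0) (nat_lit 5449534) (nat_lit 0x80029938e) (nat_lit 1079191358),
  Rx.mk (nat_lit 100) (nat_lit 4) (nat_lit 4) (nat_lit 1) (nat_lit 4) (nat_lit 390) (nat_lit 192) r4_390 r11_192 (nat_lit 144474354) (nat_lit 4090407) (nat_lit 0) (nat_lit 0x7f435b8aa) (nat_lit 1234692185),
  Rx.mk (nat_lit 101) (nat_lit 5) (nat_lit 4) (nat_lit 1) (nat_lit 5) (nat_lit 392) (nat_lit 200) r4_392 r11_200 (nat_lit 0) (nat_lit 5449534) (nat_lit 0) (nat_lit 0x80029938e) (nat_lit 1079191358),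
  Rx.mk (nat_lit 103) (nat_lit 7) (nat_lit 4) (nat_lit 1) (nat_lit 5) (nat_lit 394) (nat_lit 208) r4_394 r11_208 (nat_lit 0) (nat_lit 5449534) (nat_lit 0) (nat_lit 0x7ffe77e04) (nat_lit 1079456258),
  Rx.mk (nat_lit 116) (nat_lit 4) (nat_lit 6) (nat_lit 1) (nat_lit 6) (nat_lit 391) (nat_lit 197) r4_391 r11_197 (nat_lit 5723800) (nat_lit 0) (nat_lit 0) (nat_lit 0x800173b08) (nat_lit 1079538724),
  Rx.mk (nat_lit 117) (nat_lit 5) (nat_lit 6) (nat_lit 1) (nat_lit 7) (nat_lit 393) (nat_lit 205) r4_393 r11_205 (nat_lit 0) (nat_lit 0) (nat_lit 0) (nat_lit 0x80029938e) (nat_lit 1073741824),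
  Rx.mk (nat_lit 127) (nat_lit 7) (nat_lit 7) (nat_lit 1) (nat_lit 7) (nat_lit 395) (nat_lit 211) r4_395 r11_211 (nat_lit 0) (nat_lit 0) (nat_lit 0) (nat_lit 0x80029938e) (nat_lit 1073741824),
  Rx.mk (nat_lit 228) (nat_lit 4) (nat_lit 4) (nat_lit 3) (nat_lit 4) (nat_lit 396) (nat_lit 193) r4_396 r11_193 (nat_lit 9076025) (nat_lit 9076025) (nat_lit 0) (nat_lit 0x7f223ad38) (nat_lit 1106437074),
  Rx.mk (nat_lit 229) (nat_lit 5) (nat_lit 4) (nat_lit 3) (nat_lit 5) (nat_lit 399) (nat_lit 201) r4_399 r11_201 (nat_lit 0) (nat_lit 5449534) (nat_lit 0) (nat_lit 0x80029938e) (nat_lit 1079191358),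
  Rx.mk (nat_lit 236) (nat_lit 4) (nat_lit 5) (nat_lit 3) (nat_lit 6) (nat_lit 397) (nat_lit 195) r4_397 r11_195 (nat_lit 5449534) (nat_lit 0) (nat_lit 0) (nat_lit 0x80029938e) (nat_lit 1079191358),
  Rx.mk (nat_lit 237) (nat_lit 5) (nat_lit 5) (nat_lit 3) (nat_lit 7) (nat_lit 400) (nat_lit 203) r4_400 r11_203 (nat_lit 0) (nat_lit 0) (nat_lit 0) (nat_lit 0x80029938e) (nat_lit 1073741824),
  Rx.mk (nat_lit 244) (nat_lit 4) (nat_lit 6) (nat_lit 3) (nat_lit 6) (nat_lit 398) (nat_lit 198) r4_398 r11_198 (nat_lit 5689996) (nat_lit 0) (nat_lit 0) (nat_lit 0x7ff72fb88) (nat_lit 1080165020),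
  Rx.mk (nat_lit 245) (nat_lit 5) (nat_lit 6) (nat_lit 3) (nat_lit 7) (nat_lit 401) (nat_lit 206) r4_401 r11_206 (nat_lit 0) (nat_lit 0) (nat_lit 0) (nat_lit 0x80029938e) (nat_lit 1073741824)]
noncomputable def e24_21 : List Rx := [
  Rx.mk (nat_lit 342) (nat_lit 6) (nat_lit 2) (nat_lit 5) (nat_lit 7) (nat_lit 278) (nat_lit 135) r4_278 r9_135 (nat_lit 0) (nat_lit 0) (nat_lit 0) (nat_lit 0x80029938e) (nat_lit 1073741824),
  Rx.mk (nat_lit 372) (nat_lit 4) (nat_lit 6) (nat_lit 5) (nat_lit 6) (nat_lit 276) (nat_lit 133) r4_276 r9_133 (nat_lit 5449534) (nat_lit 0) (nat_lit 0) (nat_lit 0x80029938e) (nat_lit 1079191358),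
  Rx.mk (nat_lit 374) (nat_lit 6) (nat_lit 6) (nat_lit 5) (nat_lit 7) (nat_lit 277) (nat_lit 134) r4_277 r9_134 (nat_lit 0) (nat_lit 0) (nat_lit 0) (nat_lit 0x80029938e) (nat_lit 1073741824)]
noncomputable def e24_22 : List Rx := [
  Rx.mk (nat_lit 128) (nat_lit 0) (nat_lit 0) (nat_lit 2) (nat_lit 4) (nat_lit 8) (nat_lit 52) r4_8 r0_52 (nat_lit 24902759) (nat_lit 1880334) (nat_lit 0) (nat_lit 0x65a2917c6) (nat_lit 1540179317),
  Rx.mk (nat_lit 130) (nat_lit 2) (nat_lit 0) (nat_lit 2) (nat_lit 5) (nat_lit 10) (nat_lit 55) r4_10 r0_55 (nat_lit 0) (nat_lit 2516625) (nat_lit 0) (nat_lit 0x7f8893454) (nat_lit 1084144949),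
  Rx.mk (nat_lit 152) (nat_lit 0) (nat_lit 3) (nat_lit 2) (nat_lit 6) (nat_lit 9) (nat_lit 53) r4_9 r0_53 (nat_lit 8072366) (nat_lit 0) (nat_lit 0) (nat_lit 0x752013154) (nat_lit 1263210890),
  Rx.mk (nat_lit 154) (nat_lit 2) (nat_lit 3) (nat_lit 2) (nat_lit 7) (nat_lit 11) (nat_lit 56) r4_11 r0_56 (nat_lit 0) (nat_lit 0) (nat_lit 0) (nat_lit 0x803412cb2) (nat_lit 1070579024),
  Rx.mk (nat_lit 155) (nat_lit 3) (nat_lit 3) (nat_lit 2) (nat_lit 7) (nat_lit 12) (nat_lit 54) r4_12 r0_54 (nat_lit 0) (nat_lit 0) (nat_lit 0) (nat_lit 0x7b2096062) (nat_lit 1155059824),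
  Rx.mk (nat_lit 278) (nat_lit 6) (nat_lit 2) (nat_lit 4) (nat_lit 3) (nat_lit 1) (nat_lit 57) r4_1 r0_57 (nat_lit 0) (nat_lit 0) (nat_lit 2745228) (nat_lit 0x7f3da6c7a) (nat_lit 1089236952),
  Rx.mk (nat_lit 310) (nat_lit 6) (nat_lit 6) (nat_lit 4) (nat_lit 3) (nat_lit 0) (nat_lit 58) r4_0 r0_58 (nat_lit 0) (nat_lit 0) (nat_lit 1489124) (nat_lit 0x6dffcb254) (nat_lit 1375427948),
  Rx.mk (nat_lit 386) (nat_lit 2) (nat_lit 0) (nat_lit 6) (nat_lit 5) (nat_lit 3) (nat_lit 62) r4_3 r0_62 (nat_lit 0) (nat_lit 2627169) (nat_lit 0) (nat_lit 0x8020258c6) (nat_lit 1074474693),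
  Rx.mk (nat_lit 402) (nat_lit 2) (nat_lit 2) (nat_lit 6) (nat_lit 7) (nat_lit 4) (nat_lit 63) r4_4 r0_63 (nat_lit 0) (nat_lit 0) (nat_lit 0) (nat_lit 0x803b1537a) (nat_lit 1070132924),
  Rx.mk (nat_lit 406) (nat_lit 6) (nat_lit 2) (nat_lit 6) (nat_lit 7) (nat_lit 2) (nat_lit 64) r4_2 r0_64 (nat_lit 0) (nat_lit 0) (nat_lit 0) (nat_lit 0x805002b84) (nat_lit 1068799624),
  Rx.mk (nat_lit 500) (nat_lit 4) (nat_lit 6) (nat_lit 7) (nat_lit 6) (nat_lit 5) (nat_lit 59) r4_5 r0_59 (nat_lit 89886997) (nat_lit 0) (nat_lit 0) (nat_lit 0x7c8a3bb06) (nat_lit 1221401321),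
  Rx.mk (nat_lit 502) (nat_lit 6) (nat_lit 6) (nat_lit 7) (nat_lit 7) (nat_lit 6) (nat_lit 61) r4_6 r0_61 (nat_lit 0) (nat_lit 0) (nat_lit 0) (nat_lit 0x7ff4a1d08) (nat_lit 1074622024),
  Rx.mk (nat_lit 503) (nat_lit 7) (nat_lit 6) (nat_lit 7) (nat_lit 7) (nat_lit 7) (nat_lit 60) r4_7 r0_60 (nat_lit 0) (nat_lit 0) (nat_lit 0) (nat_lit 0x7fe2c17aa) (nat_lit 1075787224)]
noncomputable def e24_23 : List Rx := [
  Rx.mk (nat_lit 128) (nat_lit 0) (nat_lit 0) (nat_lit 2) (nat_lit 4) (nat_lit 16) (nat_lit 50) r4_16 r1_50 (nat_lit 79097561) (nat_lit 2062902) (nat_lit 0) (nat_lit 0x6ccb7681a) (nat_lit 1475199687),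
  Rx.mk (nat_lit 130) (nat_lit 2) (nat_lit 0) (nat_lit 2) (nat_lit 5) (nat_lit 18) (nat_lit 53) r4_18 r1_53 (nat_lit 0) (nat_lit 2991468) (nat_lit 0) (nat_lit 0x7deccd1a6) (nat_lit 1111434092),
  Rx.mk (nat_lit 152) (nat_lit 0) (nat_lit 3) (nat_lit 2) (nat_lit 6) (nat_lit 17) (nat_lit 51) r4_17 r1_51 (nat_lit 4988897) (nat_lit 0) (nat_lit 0) (nat_lit 0x801b824ae) (nat_lit 1077133921),
  Rx.mk (nat_lit 154) (nat_lit 2) (nat_lit 3) (nat_lit 2) (nat_lit 7) (nat_lit 19) (nat_lit 54) r4_19 r1_54 (nat_lit 0) (nat_lit 0) (nat_lit 0) (nat_lit 0x80272dc18) (nat_lit 1071401024),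
  Rx.mk (nat_lit 155) (nat_lit 3) (nat_lit 3) (nat_lit 2) (nat_lit 7) (nat_lit 20) (nat_lit 52) r4_20 r1_52 (nat_lit 0) (nat_lit 0) (nat_lit 0) (nat_lit 0x8103de856) (nat_lit 1057413024),
  Rx.mk (nat_lit 386) (nat_lit 2) (nat_lit 0) (nat_lit 6) (nat_lit 5) (nat_lit 14) (nat_lit 55) r4_14 r1_55 (nat_lit 0) (nat_lit 2626510) (nat_lit 0) (nat_lit 0x8035143e0) (nat_lit 1073140434),
  Rx.mk (nat_lit 402) (nat_lit 2) (nat_lit 2) (nat_lit 6) (nat_lit 7) (nat_lit 15) (nat_lit 56) r4_15 r1_56 (nat_lit 0) (nat_lit 0) (nat_lit 0) (nat_lit 0x803369e32) (nat_lit 1070621424),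
  Rx.mk (nat_lit 406) (nat_lit 6) (nat_lit 2) (nat_lit 6) (nat_lit 7) (nat_lit 13) (nat_lit 57) r4_13 r1_57 (nat_lit 0) (nat_lit 0) (nat_lit 0) (nat_lit 0x804a16bda) (nat_lit 1069179124)]
noncomputable def e24_24 : List Rx := [
  Rx.mk (nat_lit 59) (nat_lit 3) (nat_lit 7) (nat_lit 0) (nat_lit 3) (nat_lit 49) (nat_lit 40) r4_49 r4_40 (nat_lit 0) (nat_lit 0) (nat_lit 43884) (nat_lit 0x7fefce93e) (nat_lit 1074858208),
  Rx.mk (nat_lit 152) (nat_lit 0) (nat_lit 3) (nat_lit 2) (nat_lit 6) (nat_lit 50) (nat_lit 45) r4_50 r4_45 (nat_lit 21733) (nat_lit 0) (nat_lit 0) (nat_lit 0x7fff1a7d0) (nat_lit 1073835357),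
  Rx.mk (nat_lit 154) (nat_lit 2) (nat_lit 3) (nat_lit 2) (nat_lit 7) (nat_lit 51) (nat_lit 48) r4_51 r4_48 (nat_lit 0) (nat_lit 0) (nat_lit 0) (nat_lit 0x844216012) (nat_lit 1004967124),
  Rx.mk (nat_lit 155) (nat_lit 3) (nat_lit 3) (nat_lit 2) (nat_lit 7) (nat_lit 53) (nat_lit 46) r4_53 r4_46 (nat_lit 0) (nat_lit 0) (nat_lit 0) (nat_lit 0x7f66279a6) (nat_lit 1083762224),
  Rx.mk (nat_lit 187) (nat_lit 3) (nat_lit 7) (nat_lit 2) (nat_lit 7) (nat_lit 52) (nat_lit 47) r4_52 r4_47 (nat_lit 0) (nat_lit 0) (nat_lit 0) (nat_lit 0x80a3e2470) (nat_lit 1063484624),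
  Rx.mk (nat_lit 231) (nat_lit 7) (nat_lit 4) (nat_lit 3) (nat_lit 5) (nat_lit 54) (nat_lit 42) r4_54 r4_42 (nat_lit 0) (nat_lit 23486) (nat_lit 0) (nat_lit 0x766a4ef24) (nat_lit 1233579710),
  Rx.mk (nat_lit 247) (nat_lit 7) (nat_lit 6) (nat_lit 3) (nat_lit 7) (nat_lit 55) (nat_lit 44) r4_55 r4_44 (nat_lit 0) (nat_lit 0) (nat_lit 0) (nat_lit 0x814099502) (nat_lit 1053574924),
  Rx.mk (nat_lit 251) (nat_lit 3) (nat_lit 7) (nat_lit 3) (nat_lit 7) (nat_lit 57) (nat_lit 41) r4_57 r4_41 (nat_lit 0) (nat_lit 0) (nat_lit 0) (nat_lit 0x8339ce3ce) (nat_lit 1021658324),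
  Rx.mk (nat_lit 255) (nat_lit 7) (nat_lit 7) (nat_lit 3) (nat_lit 7) (nat_lit 56) (nat_lit 43) r4_56 r4_43 (nat_lit 0) (nat_lit 0) (nat_lit 0) (nat_lit 0x8117b8e3a) (nat_lit 1056161724),
  Rx.mk (nat_lit 278) (nat_lit 6) (nat_lit 2) (nat_lit 4) (nat_lit 3) (nat_lit 40) (nat_lit 49) r4_40 r4_49 (nat_lit 0) (nat_lit 0) (nat_lit 43884) (nat_lit 0x7fefce93e) (nat_lit 1074858208),
  Rx.mk (nat_lit 386) (nat_lit 2) (nat_lit 0) (nat_lit 6) (nat_lit 5) (nat_lit 42) (nat_lit 54) r4_42 r4_54 (nat_lit 0) (nat_lit 23486) (nat_lit 0) (nat_lit 0x766a4ef24) (nat_lit 1233579710),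
  Rx.mk (nat_lit 402) (nat_lit 2) (nat_lit 2) (nat_lit 6) (nat_lit 7) (nat_lit 43) (nat_lit 56) r4_43 r4_56 (nat_lit 0) (nat_lit 0) (nat_lit 0) (nat_lit 0x8117b8e3a) (nat_lit 1056161724),
  Rx.mk (nat_lit 406) (nat_lit 6) (nat_lit 2) (nat_lit 6) (nat_lit 7) (nat_lit 41) (nat_lit 57) r4_41 r4_57 (nat_lit 0) (nat_lit 0) (nat_lit 0) (nat_lit 0x8339ce3ce) (nat_lit 1021658324),
  Rx.mk (nat_lit 410) (nat_lit 2) (nat_lit 3) (nat_lit 6) (nat_lit 7) (nat_lit 44) (nat_lit 55) r4_44 r4_55 (nat_lit 0) (nat_lit 0) (nat_lit 0) (nat_lit 0x814099502) (nat_lit 1053574924),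
  Rx.mk (nat_lit 470) (nat_lit 6) (nat_lit 2) (nat_lit 7) (nat_lit 7) (nat_lit 47) (nat_lit 52) r4_47 r4_52 (nat_lit 0) (nat_lit 0) (nat_lit 0) (nat_lit 0x80a3e2470) (nat_lit 1063484624),
  Rx.mk (nat_lit 500) (nat_lit 4) (nat_lit 6) (nat_lit 7) (nat_lit 6) (nat_lit 45) (nat_lit 50) r4_45 r4_50 (nat_lit 21733) (nat_lit 0) (nat_lit 0) (nat_lit 0x7fff1a7d0) (nat_lit 1073835357),
  Rx.mk (nat_lit 502) (nat_lit 6) (nat_lit 6) (nat_lit 7) (nat_lit 7) (nat_lit 46) (nat_lit 53) r4_46 r4_53 (nat_lit 0) (nat_lit 0) (nat_lit 0) (nat_lit 0x7f66279a6) (nat_lit 1083762224),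
  Rx.mk (nat_lit 503) (nat_lit 7) (nat_lit 6) (nat_lit 7) (nat_lit 7) (nat_lit 48) (nat_lit 51) r4_48 r4_51 (nat_lit 0) (nat_lit 0) (nat_lit 0) (nat_lit 0x844216012) (nat_lit 1004967124)]
noncomputable def e24_25 : List Rx := [
  Rx.mk (nat_lit 278) (nat_lit 6) (nat_lit 2) (nat_lit 4) (nat_lit 3) (nat_lit 100) (nat_lit 181) r4_100 r7_181 (nat_lit 0) (nat_lit 0) (nat_lit 3253254) (nat_lit 0x802f743a4) (nat_lit 1074127178),
  Rx.mk (nat_lit 308) (nat_lit 4) (nat_lit 6) (nat_lit 4) (nat_lit 2) (nat_lit 98) (nat_lit 175) r4_98 r7_175 (nat_lit 13528971) (nat_lit 0) (nat_lit 2244627) (nat_lit 0x667a08362) (nat_lit 1515142422),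
  Rx.mk (nat_lit 310) (nat_lit 6) (nat_lit 6) (nat_lit 4) (nat_lit 3) (nat_lit 99) (nat_lit 178) r4_99 r7_178 (nat_lit 0) (nat_lit 0) (nat_lit 2541329) (nat_lit 0x7e988d356) (nat_lit 1099798353),
  Rx.mk (nat_lit 386) (nat_lit 2) (nat_lit 0) (nat_lit 6) (nat_lit 5) (nat_lit 102) (nat_lit 180) r4_102 r7_180 (nat_lit 0) (nat_lit 3003842) (nat_lit 0) (nat_lit 0x801bcccc0) (nat_lit 1075130666),
  Rx.mk (nat_lit 402) (nat_lit 2) (nat_lit 2) (nat_lit 6) (nat_lit 7) (nat_lit 103) (nat_lit 183) r4_103 r7_183 (nat_lit 0) (nat_lit 0) (nat_lit 0) (nat_lit 0x80029938e) (nat_lit 1073741824),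
  Rx.mk (nat_lit 406) (nat_lit 6) (nat_lit 2) (nat_lit 6) (nat_lit 7) (nat_lit 101) (nat_lit 182) r4_101 r7_182 (nat_lit 0) (nat_lit 0) (nat_lit 0) (nat_lit 0x80029938e) (nat_lit 1073741824),
  Rx.mk (nat_lit 500) (nat_lit 4) (nat_lit 6) (nat_lit 7) (nat_lit 6) (nat_lit 104) (nat_lit 176) r4_104 r7_176 (nat_lit 7450969) (nat_lit 0) (nat_lit 0) (nat_lit 0x7fd285fbc) (nat_lit 1084281793),
  Rx.mk (nat_lit 502) (nat_lit 6) (nat_lit 6) (nat_lit 7) (nat_lit 7) (nat_lit 105) (nat_lit 179) r4_105 r7_179 (nat_lit 0) (nat_lit 0) (nat_lit 0) (nat_lit 0x807650df4) (nat_lit 1066373124),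
  Rx.mk (nat_lit 503) (nat_lit 7) (nat_lit 6) (nat_lit 7) (nat_lit 7) (nat_lit 106) (nat_lit 177) r4_106 r7_177 (nat_lit 0) (nat_lit 0) (nat_lit 0) (nat_lit 0x80029938e) (nat_lit 1073741824)]
noncomputable def e24_26 : List Rx := [
  Rx.mk (nat_lit 386) (nat_lit 2) (nat_lit 0) (nat_lit 6) (nat_lit 5) (nat_lit 126) (nat_lit 146) r4_126 r8_146 (nat_lit 0) (nat_lit 5673761) (nat_lit 0) (nat_lit 0x7fec63c5e) (nat_lit 1080842585),
  Rx.mk (nat_lit 402) (nat_lit 2) (nat_lit 2) (nat_lit 6) (nat_lit 7) (nat_lit 127) (nat_lit 148) r4_127 r8_148 (nat_lit 0) (nat_lit 0) (nat_lit 0) (nat_lit 0x80029938e) (nat_lit 1073741824),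
  Rx.mk (nat_lit 406) (nat_lit 6) (nat_lit 2) (nat_lit 6) (nat_lit 7) (nat_lit 125) (nat_lit 147) r4_125 r8_147 (nat_lit 0) (nat_lit 0) (nat_lit 0) (nat_lit 0x80029938e) (nat_lit 1073741824)]
noncomputable def e24_27 : List Rx := [
  Rx.mk (nat_lit 278) (nat_lit 6) (nat_lit 2) (nat_lit 4) (nat_lit 3) (nat_lit 116) (nat_lit 48) r4_116 r8_48 (nat_lit 0) (nat_lit 0) (nat_lit 3917153) (nat_lit 0x801c7137e) (nat_lit 1076004277),
  Rx.mk (nat_lit 308) (nat_lit 4) (nat_lit 6) (nat_lit 4) (nat_lit 2) (nat_lit 114) (nat_lit 47) r4_114 r8_47 (nat_lit 8571815) (nat_lit 0) (nat_lit 9446528) (nat_lit 0x6c370d6e2) (nat_lit 1421722967),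
  Rx.mk (nat_lit 310) (nat_lit 6) (nat_lit 6) (nat_lit 4) (nat_lit 3) (nat_lit 115) (nat_lit 49) r4_115 r8_49 (nat_lit 0) (nat_lit 0) (nat_lit 3225500) (nat_lit 0x7ffacb274) (nat_lit 1077464224),
  Rx.mk (nat_lit 342) (nat_lit 6) (nat_lit 2) (nat_lit 5) (nat_lit 7) (nat_lit 119) (nat_lit 51) r4_119 r8_51 (nat_lit 0) (nat_lit 0) (nat_lit 0) (nat_lit 0x800f1e8de) (nat_lit 1072939424),
  Rx.mk (nat_lit 372) (nat_lit 4) (nat_lit 6) (nat_lit 5) (nat_lit 6) (nat_lit 117) (nat_lit 50) r4_117 r8_50 (nat_lit 5449534) (nat_lit 0) (nat_lit 0) (nat_lit 0x80029938e) (nat_lit 1079191358),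
  Rx.mk (nat_lit 374) (nat_lit 6) (nat_lit 6) (nat_lit 5) (nat_lit 7) (nat_lit 118) (nat_lit 52) r4_118 r8_52 (nat_lit 0) (nat_lit 0) (nat_lit 0) (nat_lit 0x802937ce8) (nat_lit 1071271324),
  Rx.mk (nat_lit 402) (nat_lit 2) (nat_lit 2) (nat_lit 6) (nat_lit 7) (nat_lit 121) (nat_lit 56) r4_121 r8_56 (nat_lit 0) (nat_lit 0) (nat_lit 0) (nat_lit 0x80029938e) (nat_lit 1073741824),
  Rx.mk (nat_lit 406) (nat_lit 6) (nat_lit 2) (nat_lit 6) (nat_lit 7) (nat_lit 120) (nat_lit 57) r4_120 r8_57 (nat_lit 0) (nat_lit 0) (nat_lit 0) (nat_lit 0x80029938e) (nat_lit 1073741824),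
  Rx.mk (nat_lit 500) (nat_lit 4) (nat_lit 6) (nat_lit 7) (nat_lit 6) (nat_lit 122) (nat_lit 53) r4_122 r8_53 (nat_lit 5449534) (nat_lit 0) (nat_lit 0) (nat_lit 0x80029938e) (nat_lit 1079191358),
  Rx.mk (nat_lit 502) (nat_lit 6) (nat_lit 6) (nat_lit 7) (nat_lit 7) (nat_lit 123) (nat_lit 55) r4_123 r8_55 (nat_lit 0) (nat_lit 0) (nat_lit 0) (nat_lit 0x802937ce8) (nat_lit 1071271324),
  Rx.mk (nat_lit 503) (nat_lit 7) (nat_lit 6) (nat_lit 7) (nat_lit 7) (nat_lit 124) (nat_lit 54) r4_124 r8_54 (nat_lit 0) (nat_lit 0) (nat_lit 0) (nat_lit 0x80029938e) (nat_lit 1073741824)]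
noncomputable def e24_28 : List Rx := [
  Rx.mk (nat_lit 278) (nat_lit 6) (nat_lit 2) (nat_lit 4) (nat_lit 3) (nat_lit 134) (nat_lit 132) r4_134 r10_132 (nat_lit 0) (nat_lit 0) (nat_lit 3516231) (nat_lit 0x801199ce4) (nat_lit 1076295255),
  Rx.mk (nat_lit 386) (nat_lit 2) (nat_lit 0) (nat_lit 6) (nat_lit 5) (nat_lit 136) (nat_lit 130) r4_136 r10_130 (nat_lit 0) (nat_lit 2482237) (nat_lit 0) (nat_lit 0x8026b83be) (nat_lit 1073911461),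
  Rx.mk (nat_lit 402) (nat_lit 2) (nat_lit 2) (nat_lit 6) (nat_lit 7) (nat_lit 137) (nat_lit 135) r4_137 r10_135 (nat_lit 0) (nat_lit 0) (nat_lit 0) (nat_lit 0x80029938e) (nat_lit 1073741824),
  Rx.mk (nat_lit 406) (nat_lit 6) (nat_lit 2) (nat_lit 6) (nat_lit 7) (nat_lit 135) (nat_lit 134) r4_135 r10_134 (nat_lit 0) (nat_lit 0) (nat_lit 0) (nat_lit 0x80029938e) (nat_lit 1073741824),
  Rx.mk (nat_lit 410) (nat_lit 2) (nat_lit 3) (nat_lit 6) (nat_lit 7) (nat_lit 138) (nat_lit 131) r4_138 r10_131 (nat_lit 0) (nat_lit 0) (nat_lit 0) (nat_lit 0x801ffbf1c) (nat_lit 1071860624),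
  Rx.mk (nat_lit 470) (nat_lit 6) (nat_lit 2) (nat_lit 7) (nat_lit 7) (nat_lit 141) (nat_lit 133) r4_141 r10_133 (nat_lit 0) (nat_lit 0) (nat_lit 0) (nat_lit 0x801c7f974) (nat_lit 1072083424),
  Rx.mk (nat_lit 500) (nat_lit 4) (nat_lit 6) (nat_lit 7) (nat_lit 6) (nat_lit 139) (nat_lit 127) r4_139 r10_127 (nat_lit 6990673) (nat_lit 0) (nat_lit 0) (nat_lit 0x7fb294226) (nat_lit 1085891197),
  Rx.mk (nat_lit 502) (nat_lit 6) (nat_lit 6) (nat_lit 7) (nat_lit 7) (nat_lit 140) (nat_lit 129) r4_140 r10_129 (nat_lit 0) (nat_lit 0) (nat_lit 0) (nat_lit 0x805fe15fa) (nat_lit 1067795824),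
  Rx.mk (nat_lit 503) (nat_lit 7) (nat_lit 6) (nat_lit 7) (nat_lit 7) (nat_lit 142) (nat_lit 128) r4_142 r10_128 (nat_lit 0) (nat_lit 0) (nat_lit 0) (nat_lit 0x80029938e) (nat_lit 1073741824)]
noncomputable def e24_29 : List Rx := [
  Rx.mk (nat_lit 59) (nat_lit 3) (nat_lit 7) (nat_lit 0) (nat_lit 3) (nat_lit 209) (nat_lit 129) r4_209 r11_129 (nat_lit 0) (nat_lit 0) (nat_lit 2654410) (nat_lit 0x7fede05b4) (nat_lit 1077722534),
  Rx.mk (nat_lit 63) (nat_lit 7) (nat_lit 7) (nat_lit 0) (nat_lit 3) (nat_lit 208) (nat_lit 127) r4_208 r11_127 (nat_lit 0) (nat_lit 0) (nat_lit 2480456) (nat_lit 0x80331b106) (nat_lit 1073118480),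
  Rx.mk (nat_lit 155) (nat_lit 3) (nat_lit 3) (nat_lit 2) (nat_lit 7) (nat_lit 211) (nat_lit 135) r4_211 r11_135 (nat_lit 0) (nat_lit 0) (nat_lit 0) (nat_lit 0x867de86ba) (nat_lit 968842524),
  Rx.mk (nat_lit 187) (nat_lit 3) (nat_lit 7) (nat_lit 2) (nat_lit 7) (nat_lit 210) (nat_lit 130) r4_210 r11_130 (nat_lit 0) (nat_lit 0) (nat_lit 0) (nat_lit 0x80c72ecda) (nat_lit 1061253024),
  Rx.mk (nat_lit 228) (nat_lit 4) (nat_lit 4) (nat_lit 3) (nat_lit 4) (nat_lit 212) (nat_lit 125) r4_212 r11_125 (nat_lit 180054) (nat_lit 162008) (nat_lit 0) (nat_lit 0x66f25fd9c) (nat_lit 1491827986),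
  Rx.mk (nat_lit 231) (nat_lit 7) (nat_lit 4) (nat_lit 3) (nat_lit 5) (nat_lit 214) (nat_lit 126) r4_214 r11_126 (nat_lit 0) (nat_lit 1914977) (nat_lit 0) (nat_lit 0x805cba6f6) (nat_lit 1069908001),
  Rx.mk (nat_lit 244) (nat_lit 4) (nat_lit 6) (nat_lit 3) (nat_lit 6) (nat_lit 213) (nat_lit 132) r4_213 r11_132 (nat_lit 2501188) (nat_lit 0) (nat_lit 0) (nat_lit 0x802edd148) (nat_lit 1073408112),
  Rx.mk (nat_lit 247) (nat_lit 7) (nat_lit 6) (nat_lit 3) (nat_lit 7) (nat_lit 215) (nat_lit 133) r4_215 r11_133 (nat_lit 0) (nat_lit 0) (nat_lit 0) (nat_lit 0x803a9eba8) (nat_lit 1070162724),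
  Rx.mk (nat_lit 255) (nat_lit 7) (nat_lit 7) (nat_lit 3) (nat_lit 7) (nat_lit 216) (nat_lit 128) r4_216 r11_128 (nat_lit 0) (nat_lit 0) (nat_lit 0) (nat_lit 0x8038253f4) (nat_lit 1070320124),
  Rx.mk (nat_lit 470) (nat_lit 6) (nat_lit 2) (nat_lit 7) (nat_lit 7) (nat_lit 207) (nat_lit 136) r4_207 r11_136 (nat_lit 0) (nat_lit 0) (nat_lit 0) (nat_lit 0x80e2c1c04) (nat_lit 1059510024),
  Rx.mk (nat_lit 500) (nat_lit 4) (nat_lit 6) (nat_lit 7) (nat_lit 6) (nat_lit 205) (nat_lit 131) r4_205 r11_131 (nat_lit 26745555) (nat_lit 0) (nat_lit 0) (nat_lit 0x7fe494c12) (nat_lit 1102412179),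
  Rx.mk (nat_lit 502) (nat_lit 6) (nat_lit 6) (nat_lit 7) (nat_lit 7) (nat_lit 206) (nat_lit 134) r4_206 r11_134 (nat_lit 0) (nat_lit 0) (nat_lit 0) (nat_lit 0x832cd703a) (nat_lit 1022477724)]
noncomputable def e24_30 : List Rx := [
  Rx.mk (nat_lit 39) (nat_lit 7) (nat_lit 4) (nat_lit 0) (nat_lit 1) (nat_lit 343) (nat_lit 297) r4_343 r5_297 (nat_lit 0) (nat_lit 1641854) (nat_lit 2493352) (nat_lit 0x7a0e2dc14) (nat_lit 1177075130),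
  Rx.mk (nat_lit 47) (nat_lit 7) (nat_lit 5) (nat_lit 0) (nat_lit 3) (nat_lit 344) (nat_lit 298) r4_344 r5_298 (nat_lit 0) (nat_lit 0) (nat_lit 2814931) (nat_lit 0x806c9d226) (nat_lit 1069803455),
  Rx.mk (nat_lit 55) (nat_lit 7) (nat_lit 6) (nat_lit 0) (nat_lit 3) (nat_lit 345) (nat_lit 299) r4_345 r5_299 (nat_lit 0) (nat_lit 0) (nat_lit 2902620) (nat_lit 0x803de17f2) (nat_lit 1072857744),
  Rx.mk (nat_lit 103) (nat_lit 7) (nat_lit 4) (nat_lit 1) (nat_lit 5) (nat_lit 346) (nat_lit 300) r4_346 r5_300 (nat_lit 0) (nat_lit 1185642) (nat_lit 0) (nat_lit 0x8143bc13a) (nat_lit 1054562866),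
  Rx.mk (nat_lit 111) (nat_lit 7) (nat_lit 5) (nat_lit 1) (nat_lit 7) (nat_lit 347) (nat_lit 301) r4_347 r5_301 (nat_lit 0) (nat_lit 0) (nat_lit 0) (nat_lit 0x835c5378c) (nat_lit 1019479724),
  Rx.mk (nat_lit 119) (nat_lit 7) (nat_lit 6) (nat_lit 1) (nat_lit 7) (nat_lit 348) (nat_lit 302) r4_348 r5_302 (nat_lit 0) (nat_lit 0) (nat_lit 0) (nat_lit 0x8069ded64) (nat_lit 1067161624)]
noncomputable def e24_31 : List Rx := [
  Rx.mk (nat_lit 103) (nat_lit 7) (nat_lit 4) (nat_lit 1) (nat_lit 5) (nat_lit 363) (nat_lit 353) r4_363 r11_353 (nat_lit 0) (nat_lit 4642613) (nat_lit 0) (nat_lit 0x7fedac142) (nat_lit 1079729037),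
  Rx.mk (nat_lit 111) (nat_lit 7) (nat_lit 5) (nat_lit 1) (nat_lit 7) (nat_lit 364) (nat_lit 354) r4_364 r11_354 (nat_lit 0) (nat_lit 0) (nat_lit 0) (nat_lit 0x800f551b8) (nat_lit 1072925424),
  Rx.mk (nat_lit 119) (nat_lit 7) (nat_lit 6) (nat_lit 1) (nat_lit 7) (nat_lit 365) (nat_lit 355) r4_365 r11_355 (nat_lit 0) (nat_lit 0) (nat_lit 0) (nat_lit 0x800f551b8) (nat_lit 1072925424)]
noncomputable def e24_32 : List Rx := [
  Rx.mk (nat_lit 35) (nat_lit 3) (nat_lit 4) (nat_lit 0) (nat_lit 1) (nat_lit 78) (nat_lit 62) r4_78 r6_62 (nat_lit 0) (nat_lit 458330) (nat_lit 618791) (nat_lit 0x6b49c39f4) (nat_lit 1420200045),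
  Rx.mk (nat_lit 43) (nat_lit 3) (nat_lit 5) (nat_lit 0) (nat_lit 3) (nat_lit 79) (nat_lit 63) r4_79 r6_63 (nat_lit 0) (nat_lit 0) (nat_lit 2091838) (nat_lit 0x8027fc3e2) (nat_lit 1073434162),
  Rx.mk (nat_lit 59) (nat_lit 3) (nat_lit 7) (nat_lit 0) (nat_lit 3) (nat_lit 80) (nat_lit 64) r4_80 r6_64 (nat_lit 0) (nat_lit 0) (nat_lit 2733861) (nat_lit 0x7eb79fd52) (nat_lit 1097952985),
  Rx.mk (nat_lit 163) (nat_lit 3) (nat_lit 4) (nat_lit 2) (nat_lit 5) (nat_lit 81) (nat_lit 67) r4_81 r6_67 (nat_lit 0) (nat_lit 21394) (nat_lit 0) (nat_lit 0x59eab61f2) (nat_lit 1708731518),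
  Rx.mk (nat_lit 171) (nat_lit 3) (nat_lit 5) (nat_lit 2) (nat_lit 7) (nat_lit 82) (nat_lit 68) r4_82 r6_68 (nat_lit 0) (nat_lit 0) (nat_lit 0) (nat_lit 0x802f01e94) (nat_lit 1070886824),
  Rx.mk (nat_lit 187) (nat_lit 3) (nat_lit 7) (nat_lit 2) (nat_lit 7) (nat_lit 83) (nat_lit 69) r4_83 r6_69 (nat_lit 0) (nat_lit 0) (nat_lit 0) (nat_lit 0x80040e246) (nat_lit 1073614524),
  Rx.mk (nat_lit 227) (nat_lit 3) (nat_lit 4) (nat_lit 3) (nat_lit 5) (nat_lit 87) (nat_lit 65) r4_87 r6_65 (nat_lit 0) (nat_lit 1499729) (nat_lit 0) (nat_lit 0x80082f4b0) (nat_lit 1074869353),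
  Rx.mk (nat_lit 231) (nat_lit 7) (nat_lit 4) (nat_lit 3) (nat_lit 5) (nat_lit 84) (nat_lit 59) r4_84 r6_59 (nat_lit 0) (nat_lit 882081) (nat_lit 0) (nat_lit 0x802bbc932) (nat_lit 1071969705),
  Rx.mk (nat_lit 235) (nat_lit 3) (nat_lit 5) (nat_lit 3) (nat_lit 7) (nat_lit 88) (nat_lit 66) r4_88 r6_66 (nat_lit 0) (nat_lit 0) (nat_lit 0) (nat_lit 0x802e4a924) (nat_lit 1070947924),
  Rx.mk (nat_lit 239) (nat_lit 7) (nat_lit 5) (nat_lit 3) (nat_lit 7) (nat_lit 85) (nat_lit 60) r4_85 r6_60 (nat_lit 0) (nat_lit 0) (nat_lit 0) (nat_lit 0x80900e8b8) (nat_lit 1064743624),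
  Rx.mk (nat_lit 247) (nat_lit 7) (nat_lit 6) (nat_lit 3) (nat_lit 7) (nat_lit 86) (nat_lit 61) r4_86 r6_61 (nat_lit 0) (nat_lit 0) (nat_lit 0) (nat_lit 0x809f929ec) (nat_lit 1063761924)]
noncomputable def e24_33 : List Rx := [
  Rx.mk (nat_lit 59) (nat_lit 3) (nat_lit 7) (nat_lit 0) (nat_lit 3) (nat_lit 59) (nat_lit 27) r4_59 r5_27 (nat_lit 0) (nat_lit 0) (nat_lit 1180737) (nat_lit 0x800877684) (nat_lit 1074523561),
  Rx.mk (nat_lit 187) (nat_lit 3) (nat_lit 7) (nat_lit 2) (nat_lit 7) (nat_lit 60) (nat_lit 32) r4_60 r5_32 (nat_lit 0) (nat_lit 0) (nat_lit 0) (nat_lit 0x8659a71ca) (nat_lit 971123424),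
  Rx.mk (nat_lit 227) (nat_lit 3) (nat_lit 4) (nat_lit 3) (nat_lit 5) (nat_lit 63) (nat_lit 28) r4_63 r5_28 (nat_lit 0) (nat_lit 1975302) (nat_lit 0) (nat_lit 0x7f23bc56c) (nat_lit 1090154226),
  Rx.mk (nat_lit 231) (nat_lit 7) (nat_lit 4) (nat_lit 3) (nat_lit 5) (nat_lit 61) (nat_lit 30) r4_61 r5_30 (nat_lit 0) (nat_lit 940616) (nat_lit 0) (nat_lit 0x802fcad94) (nat_lit 1071778540),
  Rx.mk (nat_lit 247) (nat_lit 7) (nat_lit 6) (nat_lit 3) (nat_lit 7) (nat_lit 62) (nat_lit 31) r4_62 r5_31 (nat_lit 0) (nat_lit 0) (nat_lit 0) (nat_lit 0x811e5b576) (nat_lit 1055742624),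
  Rx.mk (nat_lit 251) (nat_lit 3) (nat_lit 7) (nat_lit 3) (nat_lit 7) (nat_lit 64) (nat_lit 29) r4_64 r5_29 (nat_lit 0) (nat_lit 0) (nat_lit 0) (nat_lit 0x8024901fe) (nat_lit 1071566124),
  Rx.mk (nat_lit 503) (nat_lit 7) (nat_lit 6) (nat_lit 7) (nat_lit 7) (nat_lit 58) (nat_lit 33) r4_58 r5_33 (nat_lit 0) (nat_lit 0) (nat_lit 0) (nat_lit 0x80739ec28) (nat_lit 1066538624)]
noncomputable def e24_34 : List Rx := [
  Rx.mk (nat_lit 503) (nat_lit 7) (nat_lit 6) (nat_lit 7) (nat_lit 7) (nat_lit 143) (nat_lit 8) r4_143 r11_8 (nat_lit 0) (nat_lit 0) (nat_lit 0) (nat_lit 0x80029938e) (nat_lit 1073741824)]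
noncomputable def e24_35 : List Rx := [
  Rx.mk (nat_lit 35) (nat_lit 3) (nat_lit 4) (nat_lit 0) (nat_lit 1) (nat_lit 220) (nat_lit 337) r4_220 r6_337 (nat_lit 0) (nat_lit 570165) (nat_lit 1651260) (nat_lit 0x6c90a7590) (nat_lit 1400056949),
  Rx.mk (nat_lit 39) (nat_lit 7) (nat_lit 4) (nat_lit 0) (nat_lit 1) (nat_lit 217) (nat_lit 338) r4_217 r6_338 (nat_lit 0) (nat_lit 38193) (nat_lit 58427) (nat_lit 0x743c60600) (nat_lit 1269994544),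
  Rx.mk (nat_lit 43) (nat_lit 3) (nat_lit 5) (nat_lit 0) (nat_lit 3) (nat_lit 221) (nat_lit 340) r4_221 r6_340 (nat_lit 0) (nat_lit 0) (nat_lit 2410025) (nat_lit 0x7ff815124) (nat_lit 1076821349),
  Rx.mk (nat_lit 47) (nat_lit 7) (nat_lit 5) (nat_lit 0) (nat_lit 3) (nat_lit 218) (nat_lit 341) r4_218 r6_341 (nat_lit 0) (nat_lit 0) (nat_lit 2224828) (nat_lit 0x8082c4f54) (nat_lit 1067817452),
  Rx.mk (nat_lit 55) (nat_lit 7) (nat_lit 6) (nat_lit 0) (nat_lit 3) (nat_lit 219) (nat_lit 343) r4_219 r6_343 (nat_lit 0) (nat_lit 0) (nat_lit 3048876) (nat_lit 0x8040187e6) (nat_lit 1072866300),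
  Rx.mk (nat_lit 163) (nat_lit 3) (nat_lit 4) (nat_lit 2) (nat_lit 5) (nat_lit 222) (nat_lit 339) r4_222 r6_339 (nat_lit 0) (nat_lit 34434) (nat_lit 0) (nat_lit 0x47d93a886) (nat_lit 2010000758),
  Rx.mk (nat_lit 171) (nat_lit 3) (nat_lit 5) (nat_lit 2) (nat_lit 7) (nat_lit 223) (nat_lit 342) r4_223 r6_342 (nat_lit 0) (nat_lit 0) (nat_lit 0) (nat_lit 0x800d35cd4) (nat_lit 1073018224)]
noncomputable def e24_36 : List Rx := [
  Rx.mk (nat_lit 35) (nat_lit 3) (nat_lit 4) (nat_lit 0) (nat_lit 1) (nat_lit 244) (nat_lit 179) r4_244 r12_179 (nat_lit 0) (nat_lit 92132) (nat_lit 345777) (nat_lit 0x669218308) (nat_lit 1498185533),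
  Rx.mk (nat_lit 39) (nat_lit 7) (nat_lit 4) (nat_lit 0) (nat_lit 1) (nat_lit 241) (nat_lit 185) r4_241 r12_185 (nat_lit 0) (nat_lit 4959) (nat_lit 7512) (nat_lit 0x740a9ac7e) (nat_lit 1273141595),
  Rx.mk (nat_lit 43) (nat_lit 3) (nat_lit 5) (nat_lit 0) (nat_lit 3) (nat_lit 245) (nat_lit 181) r4_245 r12_181 (nat_lit 0) (nat_lit 0) (nat_lit 2731196) (nat_lit 0x7f937f28c) (nat_lit 1083641920),
  Rx.mk (nat_lit 47) (nat_lit 7) (nat_lit 5) (nat_lit 0) (nat_lit 3) (nat_lit 242) (nat_lit 187) r4_242 r12_187 (nat_lit 0) (nat_lit 0) (nat_lit 1474755) (nat_lit 0x7fc5e39c6) (nat_lit 1079117479),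
  Rx.mk (nat_lit 55) (nat_lit 7) (nat_lit 6) (nat_lit 0) (nat_lit 3) (nat_lit 243) (nat_lit 189) r4_243 r12_189 (nat_lit 0) (nat_lit 0) (nat_lit 2620997) (nat_lit 0x805ae309e) (nat_lit 1070736421),
  Rx.mk (nat_lit 59) (nat_lit 3) (nat_lit 7) (nat_lit 0) (nat_lit 3) (nat_lit 246) (nat_lit 183) r4_246 r12_183 (nat_lit 0) (nat_lit 0) (nat_lit 2418689) (nat_lit 0x799f9ba12) (nat_lit 1182552513),
  Rx.mk (nat_lit 163) (nat_lit 3) (nat_lit 4) (nat_lit 2) (nat_lit 5) (nat_lit 247) (nat_lit 180) r4_247 r12_180 (nat_lit 0) (nat_lit 27079) (nat_lit 0) (nat_lit 0x4f6309a74) (nat_lit 1884305203),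
  Rx.mk (nat_lit 171) (nat_lit 3) (nat_lit 5) (nat_lit 2) (nat_lit 7) (nat_lit 248) (nat_lit 182) r4_248 r12_182 (nat_lit 0) (nat_lit 0) (nat_lit 0) (nat_lit 0x7cc23aad4) (nat_lit 1127844724),
  Rx.mk (nat_lit 187) (nat_lit 3) (nat_lit 7) (nat_lit 2) (nat_lit 7) (nat_lit 249) (nat_lit 184) r4_249 r12_184 (nat_lit 0) (nat_lit 0) (nat_lit 0) (nat_lit 0x789ee7f22) (nat_lit 1196826224),
  Rx.mk (nat_lit 231) (nat_lit 7) (nat_lit 4) (nat_lit 3) (nat_lit 5) (nat_lit 250) (nat_lit 186) r4_250 r12_186 (nat_lit 0) (nat_lit 634217) (nat_lit 0) (nat_lit 0x80e08e356) (nat_lit 1060265941),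
  Rx.mk (nat_lit 239) (nat_lit 7) (nat_lit 5) (nat_lit 3) (nat_lit 7) (nat_lit 251) (nat_lit 188) r4_251 r12_188 (nat_lit 0) (nat_lit 0) (nat_lit 0) (nat_lit 0x80e0ca86a) (nat_lit 1059635624),
  Rx.mk (nat_lit 247) (nat_lit 7) (nat_lit 6) (nat_lit 3) (nat_lit 7) (nat_lit 252) (nat_lit 190) r4_252 r12_190 (nat_lit 0) (nat_lit 0) (nat_lit 0) (nat_lit 0x80b8f660e) (nat_lit 1062154324)]
noncomputable def e24_37 : List Rx := [
  Rx.mk (nat_lit 136) (nat_lit 0) (nat_lit 1) (nat_lit 2) (nat_lit 6) (nat_lit 69) (nat_lit 80) r4_69 r0_80 (nat_lit 2927812) (nat_lit 0) (nat_lit 0) (nat_lit 0x7f9b05e02) (nat_lit 1083361236),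
  Rx.mk (nat_lit 139) (nat_lit 3) (nat_lit 1) (nat_lit 2) (nat_lit 7) (nat_lit 70) (nat_lit 81) r4_70 r0_81 (nat_lit 0) (nat_lit 0) (nat_lit 0) (nat_lit 0x7fdf910da) (nat_lit 1075963024),
  Rx.mk (nat_lit 168) (nat_lit 0) (nat_lit 5) (nat_lit 2) (nat_lit 6) (nat_lit 68) (nat_lit 79) r4_68 r0_79 (nat_lit 1845209) (nat_lit 0) (nat_lit 0) (nat_lit 0x6d5c42330) (nat_lit 1386432233)]
noncomputable def e24_38 : List Rx := [
  Rx.mk (nat_lit 40) (nat_lit 0) (nat_lit 5) (nat_lit 0) (nat_lit 2) (nat_lit 155) (nat_lit 318) r4_155 r0_318 (nat_lit 781143) (nat_lit 0) (nat_lit 232268791) (nat_lit 0x6adf8057e) (nat_lit 1659098658),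
  Rx.mk (nat_lit 41) (nat_lit 1) (nat_lit 5) (nat_lit 0) (nat_lit 3) (nat_lit 156) (nat_lit 319) r4_156 r0_319 (nat_lit 0) (nat_lit 0) (nat_lit 4017845) (nat_lit 0x7ff75e168) (nat_lit 1078479169),
  Rx.mk (nat_lit 168) (nat_lit 0) (nat_lit 5) (nat_lit 2) (nat_lit 6) (nat_lit 157) (nat_lit 320) r4_157 r0_320 (nat_lit 2184780) (nat_lit 0) (nat_lit 0) (nat_lit 0x7aab2db36) (nat_lit 1164898604),
  Rx.mk (nat_lit 169) (nat_lit 1) (nat_lit 5) (nat_lit 2) (nat_lit 7) (nat_lit 158) (nat_lit 321) r4_158 r0_321 (nat_lit 0) (nat_lit 0) (nat_lit 0) (nat_lit 0x8052c65be) (nat_lit 1068627724)]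
noncomputable def e24_39 : List Rx := [
  Rx.mk (nat_lit 40) (nat_lit 0) (nat_lit 5) (nat_lit 0) (nat_lit 2) (nat_lit 167) (nat_lit 71) r4_167 r7_71 (nat_lit 2628537) (nat_lit 0) (nat_lit 6409400) (nat_lit 0x64e7bb690) (nat_lit 1534609061),
  Rx.mk (nat_lit 41) (nat_lit 1) (nat_lit 5) (nat_lit 0) (nat_lit 3) (nat_lit 168) (nat_lit 74) r4_168 r7_74 (nat_lit 0) (nat_lit 0) (nat_lit 4040041) (nat_lit 0x8012909e0) (nat_lit 1076761165),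
  Rx.mk (nat_lit 136) (nat_lit 0) (nat_lit 1) (nat_lit 2) (nat_lit 6) (nat_lit 170) (nat_lit 73) r4_170 r7_73 (nat_lit 2874909) (nat_lit 0) (nat_lit 0) (nat_lit 0x8041c95d6) (nat_lit 1072582433),
  Rx.mk (nat_lit 137) (nat_lit 1) (nat_lit 1) (nat_lit 2) (nat_lit 7) (nat_lit 172) (nat_lit 76) r4_172 r7_76 (nat_lit 0) (nat_lit 0) (nat_lit 0) (nat_lit 0x80261c34c) (nat_lit 1071470624),
  Rx.mk (nat_lit 139) (nat_lit 3) (nat_lit 1) (nat_lit 2) (nat_lit 7) (nat_lit 173) (nat_lit 77) r4_173 r7_77 (nat_lit 0) (nat_lit 0) (nat_lit 0) (nat_lit 0x80261c34c) (nat_lit 1071470624),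
  Rx.mk (nat_lit 168) (nat_lit 0) (nat_lit 5) (nat_lit 2) (nat_lit 6) (nat_lit 169) (nat_lit 72) r4_169 r7_72 (nat_lit 1693168) (nat_lit 0) (nat_lit 0) (nat_lit 0x7fb51bd00) (nat_lit 1080428292),
  Rx.mk (nat_lit 169) (nat_lit 1) (nat_lit 5) (nat_lit 2) (nat_lit 7) (nat_lit 171) (nat_lit 75) r4_171 r7_75 (nat_lit 0) (nat_lit 0) (nat_lit 0) (nat_lit 0x8073a79e0) (nat_lit 1066541824)]
noncomputable def e24_40 : List Rx := [
  Rx.mk (nat_lit 41) (nat_lit 1) (nat_lit 5) (nat_lit 0) (nat_lit 3) (nat_lit 300) (nat_lit 349) r4_300 r2_349 (nat_lit 0) (nat_lit 0) (nat_lit 5449534) (nat_lit 0x7ff8e874a) (nat_lit 1079813058),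
  Rx.mk (nat_lit 45) (nat_lit 5) (nat_lit 5) (nat_lit 0) (nat_lit 3) (nat_lit 299) (nat_lit 350) r4_299 r2_350 (nat_lit 0) (nat_lit 0) (nat_lit 10500472) (nat_lit 0x7e885e7aa) (nat_lit 1108800696),
  Rx.mk (nat_lit 105) (nat_lit 1) (nat_lit 5) (nat_lit 1) (nat_lit 7) (nat_lit 302) (nat_lit 351) r4_302 r2_351 (nat_lit 0) (nat_lit 0) (nat_lit 0) (nat_lit 0x80029938e) (nat_lit 1073741824),
  Rx.mk (nat_lit 109) (nat_lit 5) (nat_lit 5) (nat_lit 1) (nat_lit 7) (nat_lit 301) (nat_lit 352) r4_301 r2_352 (nat_lit 0) (nat_lit 0) (nat_lit 0) (nat_lit 0x80029938e) (nat_lit 1073741824),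
  Rx.mk (nat_lit 169) (nat_lit 1) (nat_lit 5) (nat_lit 2) (nat_lit 7) (nat_lit 303) (nat_lit 353) r4_303 r2_353 (nat_lit 0) (nat_lit 0) (nat_lit 0) (nat_lit 0x80029938e) (nat_lit 1073741824)]
noncomputable def e24_41 : List Rx := [
  Rx.mk (nat_lit 41) (nat_lit 1) (nat_lit 5) (nat_lit 0) (nat_lit 3) (nat_lit 310) (nat_lit 312) r4_310 r9_312 (nat_lit 0) (nat_lit 0) (nat_lit 5449534) (nat_lit 0x7fff43810) (nat_lit 1079405158),
  Rx.mk (nat_lit 45) (nat_lit 5) (nat_lit 5) (nat_lit 0) (nat_lit 3) (nat_lit 309) (nat_lit 313) r4_309 r9_313 (nat_lit 0) (nat_lit 0) (nat_lit 7165293) (nat_lit 0x7f99d7f58) (nat_lit 1087672217),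
  Rx.mk (nat_lit 105) (nat_lit 1) (nat_lit 5) (nat_lit 1) (nat_lit 7) (nat_lit 312) (nat_lit 314) r4_312 r9_314 (nat_lit 0) (nat_lit 0) (nat_lit 0) (nat_lit 0x80029938e) (nat_lit 1073741824),
  Rx.mk (nat_lit 109) (nat_lit 5) (nat_lit 5) (nat_lit 1) (nat_lit 7) (nat_lit 311) (nat_lit 315) r4_311 r9_315 (nat_lit 0) (nat_lit 0) (nat_lit 0) (nat_lit 0x80029938e) (nat_lit 1073741824),
  Rx.mk (nat_lit 137) (nat_lit 1) (nat_lit 1) (nat_lit 2) (nat_lit 7) (nat_lit 314) (nat_lit 311) r4_314 r9_311 (nat_lit 0) (nat_lit 0) (nat_lit 0) (nat_lit 0x80029938e) (nat_lit 1073741824),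
  Rx.mk (nat_lit 169) (nat_lit 1) (nat_lit 5) (nat_lit 2) (nat_lit 7) (nat_lit 313) (nat_lit 316) r4_313 r9_316 (nat_lit 0) (nat_lit 0) (nat_lit 0) (nat_lit 0x80029938e) (nat_lit 1073741824)]
noncomputable def e24_42 : List Rx := [
  Rx.mk (nat_lit 105) (nat_lit 1) (nat_lit 5) (nat_lit 1) (nat_lit 7) (nat_lit 308) (nat_lit 306) r4_308 r9_306 (nat_lit 0) (nat_lit 0) (nat_lit 0) (nat_lit 0x80029938e) (nat_lit 1073741824),
  Rx.mk (nat_lit 109) (nat_lit 5) (nat_lit 5) (nat_lit 1) (nat_lit 7) (nat_lit 307) (nat_lit 305) r4_307 r9_305 (nat_lit 0) (nat_lit 0) (nat_lit 0) (nat_lit 0x80029938e) (nat_lit 1073741824)]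
noncomputable def e24_43 : List Rx := [
  Rx.mk (nat_lit 41) (nat_lit 1) (nat_lit 5) (nat_lit 0) (nat_lit 3) (nat_lit 159) (nat_lit 305) r4_159 r1_305 (nat_lit 0) (nat_lit 0) (nat_lit 4876673) (nat_lit 0x80153f8c6) (nat_lit 1077419097),
  Rx.mk (nat_lit 169) (nat_lit 1) (nat_lit 5) (nat_lit 2) (nat_lit 7) (nat_lit 160) (nat_lit 306) r4_160 r1_306 (nat_lit 0) (nat_lit 0) (nat_lit 0) (nat_lit 0x802b28bc4) (nat_lit 1071147124)]
noncomputable def e24_44 : List Rx := [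
  Rx.mk (nat_lit 41) (nat_lit 1) (nat_lit 5) (nat_lit 0) (nat_lit 3) (nat_lit 174) (nat_lit 68) r4_174 r8_68 (nat_lit 0) (nat_lit 0) (nat_lit 4037317) (nat_lit 0x80012bc36) (nat_lit 1077868841),
  Rx.mk (nat_lit 137) (nat_lit 1) (nat_lit 1) (nat_lit 2) (nat_lit 7) (nat_lit 176) (nat_lit 70) r4_176 r8_70 (nat_lit 0) (nat_lit 0) (nat_lit 0) (nat_lit 0x80029938e) (nat_lit 1073741824),
  Rx.mk (nat_lit 169) (nat_lit 1) (nat_lit 5) (nat_lit 2) (nat_lit 7) (nat_lit 175) (nat_lit 69) r4_175 r8_69 (nat_lit 0) (nat_lit 0) (nat_lit 0) (nat_lit 0x80293ab46) (nat_lit 1071270624)]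
noncomputable def e24_45 : List Rx := [
  Rx.mk (nat_lit 136) (nat_lit 0) (nat_lit 1) (nat_lit 2) (nat_lit 6) (nat_lit 71) (nat_lit 85) r4_71 r1_85 (nat_lit 3320491) (nat_lit 0) (nat_lit 0) (nat_lit 0x800fb1fc6) (nat_lit 1076215615),
  Rx.mk (nat_lit 138) (nat_lit 2) (nat_lit 1) (nat_lit 2) (nat_lit 7) (nat_lit 72) (nat_lit 87) r4_72 r1_87 (nat_lit 0) (nat_lit 0) (nat_lit 0) (nat_lit 0x805852a1e) (nat_lit 1068275824),
  Rx.mk (nat_lit 139) (nat_lit 3) (nat_lit 1) (nat_lit 2) (nat_lit 7) (nat_lit 73) (nat_lit 86) r4_73 r1_86 (nat_lit 0) (nat_lit 0) (nat_lit 0) (nat_lit 0x85e8fa242) (nat_lit 978250424)]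
noncomputable def e24_46 : List Rx := [
  Rx.mk (nat_lit 128) (nat_lit 0) (nat_lit 0) (nat_lit 2) (nat_lit 4) (nat_lit 24) (nat_lit 84) r4_24 r2_84 (nat_lit 5168713) (nat_lit 2064465) (nat_lit 0) (nat_lit 0x73a0c98a4) (nat_lit 1287332102),
  Rx.mk (nat_lit 130) (nat_lit 2) (nat_lit 0) (nat_lit 2) (nat_lit 5) (nat_lit 26) (nat_lit 92) r4_26 r2_92 (nat_lit 0) (nat_lit 3829066) (nat_lit 0) (nat_lit 0x8024942a4) (nat_lit 1075399190),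
  Rx.mk (nat_lit 131) (nat_lit 3) (nat_lit 0) (nat_lit 2) (nat_lit 5) (nat_lit 28) (nat_lit 86) r4_28 r2_86 (nat_lit 0) (nat_lit 981855) (nat_lit 0) (nat_lit 0x81f2f3770) (nat_lit 1043286379),
  Rx.mk (nat_lit 136) (nat_lit 0) (nat_lit 1) (nat_lit 2) (nat_lit 6) (nat_lit 25) (nat_lit 85) r4_25 r2_85 (nat_lit 5449534) (nat_lit 0) (nat_lit 0) (nat_lit 0x8013ee13e) (nat_lit 1078081258),
  Rx.mk (nat_lit 138) (nat_lit 2) (nat_lit 1) (nat_lit 2) (nat_lit 7) (nat_lit 27) (nat_lit 93) r4_27 r2_93 (nat_lit 0) (nat_lit 0) (nat_lit 0) (nat_lit 0x80029938e) (nat_lit 1073741824),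
  Rx.mk (nat_lit 139) (nat_lit 3) (nat_lit 1) (nat_lit 2) (nat_lit 7) (nat_lit 29) (nat_lit 87) r4_29 r2_87 (nat_lit 0) (nat_lit 0) (nat_lit 0) (nat_lit 0x80b67c950) (nat_lit 1062312624),
  Rx.mk (nat_lit 155) (nat_lit 3) (nat_lit 3) (nat_lit 2) (nat_lit 7) (nat_lit 30) (nat_lit 88) r4_30 r2_88 (nat_lit 0) (nat_lit 0) (nat_lit 0) (nat_lit 0x80a87cb7a) (nat_lit 1063197724),
  Rx.mk (nat_lit 386) (nat_lit 2) (nat_lit 0) (nat_lit 6) (nat_lit 5) (nat_lit 21) (nat_lit 89) r4_21 r2_89 (nat_lit 0) (nat_lit 3660100) (nat_lit 0) (nat_lit 0x8028ab1a8) (nat_lit 1074969124),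
  Rx.mk (nat_lit 394) (nat_lit 2) (nat_lit 1) (nat_lit 6) (nat_lit 7) (nat_lit 22) (nat_lit 90) r4_22 r2_90 (nat_lit 0) (nat_lit 0) (nat_lit 0) (nat_lit 0x80029938e) (nat_lit 1073741824),
  Rx.mk (nat_lit 402) (nat_lit 2) (nat_lit 2) (nat_lit 6) (nat_lit 7) (nat_lit 23) (nat_lit 91) r4_23 r2_91 (nat_lit 0) (nat_lit 0) (nat_lit 0) (nat_lit 0x80029938e) (nat_lit 1073741824)]
noncomputable def e24_47 : List Rx := [
  Rx.mk (nat_lit 136) (nat_lit 0) (nat_lit 1) (nat_lit 2) (nat_lit 6) (nat_lit 177) (nat_lit 351) r4_177 r8_351 (nat_lit 4339618) (nat_lit 0) (nat_lit 0) (nat_lit 0x8014a6cb6) (nat_lit 1076925342),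
  Rx.mk (nat_lit 137) (nat_lit 1) (nat_lit 1) (nat_lit 2) (nat_lit 7) (nat_lit 178) (nat_lit 352) r4_178 r8_352 (nat_lit 0) (nat_lit 0) (nat_lit 0) (nat_lit 0x80029938e) (nat_lit 1073741824),
  Rx.mk (nat_lit 138) (nat_lit 2) (nat_lit 1) (nat_lit 2) (nat_lit 7) (nat_lit 179) (nat_lit 354) r4_179 r8_354 (nat_lit 0) (nat_lit 0) (nat_lit 0) (nat_lit 0x80029938e) (nat_lit 1073741824),
  Rx.mk (nat_lit 139) (nat_lit 3) (nat_lit 1) (nat_lit 2) (nat_lit 7) (nat_lit 180) (nat_lit 353) r4_180 r8_353 (nat_lit 0) (nat_lit 0) (nat_lit 0) (nat_lit 0x80029938e) (nat_lit 1073741824)]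
noncomputable def e24_48 : List Rx := [
  Rx.mk (nat_lit 128) (nat_lit 0) (nat_lit 0) (nat_lit 2) (nat_lit 4) (nat_lit 147) (nat_lit 50) r4_147 r9_50 (nat_lit 4618202) (nat_lit 3884477) (nat_lit 0) (nat_lit 0x668e28a5e) (nat_lit 1506571703),
  Rx.mk (nat_lit 130) (nat_lit 2) (nat_lit 0) (nat_lit 2) (nat_lit 5) (nat_lit 150) (nat_lit 59) r4_150 r9_59 (nat_lit 0) (nat_lit 5449534) (nat_lit 0) (nat_lit 0x80029938e) (nat_lit 1079191358),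
  Rx.mk (nat_lit 131) (nat_lit 3) (nat_lit 0) (nat_lit 2) (nat_lit 5) (nat_lit 152) (nat_lit 53) r4_152 r9_53 (nat_lit 0) (nat_lit 5449534) (nat_lit 0) (nat_lit 0x80029938e) (nat_lit 1079191358),
  Rx.mk (nat_lit 136) (nat_lit 0) (nat_lit 1) (nat_lit 2) (nat_lit 6) (nat_lit 148) (nat_lit 51) r4_148 r9_51 (nat_lit 5449534) (nat_lit 0) (nat_lit 0) (nat_lit 0x80029938e) (nat_lit 1079191358),
  Rx.mk (nat_lit 137) (nat_lit 1) (nat_lit 1) (nat_lit 2) (nat_lit 7) (nat_lit 149) (nat_lit 52) r4_149 r9_52 (nat_lit 0) (nat_lit 0) (nat_lit 0) (nat_lit 0x80029938e) (nat_lit 1073741824),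
  Rx.mk (nat_lit 138) (nat_lit 2) (nat_lit 1) (nat_lit 2) (nat_lit 7) (nat_lit 151) (nat_lit 60) r4_151 r9_60 (nat_lit 0) (nat_lit 0) (nat_lit 0) (nat_lit 0x80029938e) (nat_lit 1073741824),
  Rx.mk (nat_lit 139) (nat_lit 3) (nat_lit 1) (nat_lit 2) (nat_lit 7) (nat_lit 153) (nat_lit 54) r4_153 r9_54 (nat_lit 0) (nat_lit 0) (nat_lit 0) (nat_lit 0x80029938e) (nat_lit 1073741824),
  Rx.mk (nat_lit 155) (nat_lit 3) (nat_lit 3) (nat_lit 2) (nat_lit 7) (nat_lit 154) (nat_lit 55) r4_154 r9_55 (nat_lit 0) (nat_lit 0) (nat_lit 0) (nat_lit 0x80029938e) (nat_lit 1073741824),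
  Rx.mk (nat_lit 386) (nat_lit 2) (nat_lit 0) (nat_lit 6) (nat_lit 5) (nat_lit 144) (nat_lit 56) r4_144 r9_56 (nat_lit 0) (nat_lit 5449534) (nat_lit 0) (nat_lit 0x80029938e) (nat_lit 1079191358),
  Rx.mk (nat_lit 394) (nat_lit 2) (nat_lit 1) (nat_lit 6) (nat_lit 7) (nat_lit 145) (nat_lit 57) r4_145 r9_57 (nat_lit 0) (nat_lit 0) (nat_lit 0) (nat_lit 0x80029938e) (nat_lit 1073741824),
  Rx.mk (nat_lit 402) (nat_lit 2) (nat_lit 2) (nat_lit 6) (nat_lit 7) (nat_lit 146) (nat_lit 58) r4_146 r9_58 (nat_lit 0) (nat_lit 0) (nat_lit 0) (nat_lit 0x80029938e) (nat_lit 1073741824)]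
noncomputable def e24_49 : List Rx := [
  Rx.mk (nat_lit 386) (nat_lit 2) (nat_lit 0) (nat_lit 6) (nat_lit 5) (nat_lit 128) (nat_lit 15) r4_128 r9_15 (nat_lit 0) (nat_lit 5449534) (nat_lit 0) (nat_lit 0x80029938e) (nat_lit 1079191358),
  Rx.mk (nat_lit 394) (nat_lit 2) (nat_lit 1) (nat_lit 6) (nat_lit 7) (nat_lit 129) (nat_lit 16) r4_129 r9_16 (nat_lit 0) (nat_lit 0) (nat_lit 0) (nat_lit 0x80029938e) (nat_lit 1073741824),
  Rx.mk (nat_lit 402) (nat_lit 2) (nat_lit 2) (nat_lit 6) (nat_lit 7) (nat_lit 130) (nat_lit 17) r4_130 r9_17 (nat_lit 0) (nat_lit 0) (nat_lit 0) (nat_lit 0x80029938e) (nat_lit 1073741824)]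
noncomputable def e24_50 : List Rx := [
  Rx.mk (nat_lit 43) (nat_lit 3) (nat_lit 5) (nat_lit 0) (nat_lit 3) (nat_lit 65) (nat_lit 72) r4_65 r3_72 (nat_lit 0) (nat_lit 0) (nat_lit 5075) (nat_lit 0x7fff94c6a) (nat_lit 1073774799),
  Rx.mk (nat_lit 168) (nat_lit 0) (nat_lit 5) (nat_lit 2) (nat_lit 6) (nat_lit 66) (nat_lit 71) r4_66 r3_71 (nat_lit 59693) (nat_lit 0) (nat_lit 0) (nat_lit 0x82d304170) (nat_lit 1028137517),
  Rx.mk (nat_lit 171) (nat_lit 3) (nat_lit 5) (nat_lit 2) (nat_lit 7) (nat_lit 67) (nat_lit 73) r4_67 r3_73 (nat_lit 0) (nat_lit 0) (nat_lit 0) (nat_lit 0x81c174334) (nat_lit 1045360024)]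
noncomputable def e24_51 : List Rx := [
  Rx.mk (nat_lit 43) (nat_lit 3) (nat_lit 5) (nat_lit 0) (nat_lit 3) (nat_lit 74) (nat_lit 75) r4_74 r4_75 (nat_lit 0) (nat_lit 0) (nat_lit 3555733) (nat_lit 0x7fb0de184) (nat_lit 1082569857),
  Rx.mk (nat_lit 139) (nat_lit 3) (nat_lit 1) (nat_lit 2) (nat_lit 7) (nat_lit 77) (nat_lit 77) r4_77 r4_77 (nat_lit 0) (nat_lit 0) (nat_lit 0) (nat_lit 0x8074beab8) (nat_lit 1066472324),
  Rx.mk (nat_lit 168) (nat_lit 0) (nat_lit 5) (nat_lit 2) (nat_lit 6) (nat_lit 75) (nat_lit 74) r4_75 r4_74 (nat_lit 3555733) (nat_lit 0) (nat_lit 0) (nat_lit 0x7fb0de184) (nat_lit 1082569857),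
  Rx.mk (nat_lit 171) (nat_lit 3) (nat_lit 5) (nat_lit 2) (nat_lit 7) (nat_lit 76) (nat_lit 76) r4_76 r4_76 (nat_lit 0) (nat_lit 0) (nat_lit 0) (nat_lit 0x8003ab678) (nat_lit 1073517324)]
noncomputable def e24_52 : List Rx := [
  Rx.mk (nat_lit 43) (nat_lit 3) (nat_lit 5) (nat_lit 0) (nat_lit 3) (nat_lit 89) (nat_lit 67) r4_89 r5_67 (nat_lit 0) (nat_lit 0) (nat_lit 1849300) (nat_lit 0x80a4c2070) (nat_lit 1065275624),
  Rx.mk (nat_lit 168) (nat_lit 0) (nat_lit 5) (nat_lit 2) (nat_lit 6) (nat_lit 90) (nat_lit 66) r4_90 r5_66 (nat_lit 2225241) (nat_lit 0) (nat_lit 0) (nat_lit 0x82f6d0388) (nat_lit 1028114265),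
  Rx.mk (nat_lit 171) (nat_lit 3) (nat_lit 5) (nat_lit 2) (nat_lit 7) (nat_lit 91) (nat_lit 69) r4_91 r5_69 (nat_lit 0) (nat_lit 0) (nat_lit 0) (nat_lit 0x882e63412) (nat_lit 941518924),
  Rx.mk (nat_lit 235) (nat_lit 3) (nat_lit 5) (nat_lit 3) (nat_lit 7) (nat_lit 92) (nat_lit 68) r4_92 r5_68 (nat_lit 0) (nat_lit 0) (nat_lit 0) (nat_lit 0x8060f33a8) (nat_lit 1067721724)]
noncomputable def e24_53 : List Rx := [
  Rx.mk (nat_lit 40) (nat_lit 0) (nat_lit 5) (nat_lit 0) (nat_lit 2) (nat_lit 161) (nat_lit 349) r4_161 r4_349 (nat_lit 2616584) (nat_lit 0) (nat_lit 8619398) (nat_lit 0x73ea8d198) (nat_lit 1286528806),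
  Rx.mk (nat_lit 41) (nat_lit 1) (nat_lit 5) (nat_lit 0) (nat_lit 3) (nat_lit 162) (nat_lit 350) r4_162 r4_350 (nat_lit 0) (nat_lit 0) (nat_lit 5449534) (nat_lit 0x802346fd2) (nat_lit 1077099558),
  Rx.mk (nat_lit 43) (nat_lit 3) (nat_lit 5) (nat_lit 0) (nat_lit 3) (nat_lit 163) (nat_lit 351) r4_163 r4_351 (nat_lit 0) (nat_lit 0) (nat_lit 8320896) (nat_lit 0x804e26a54) (nat_lit 1077233520),
  Rx.mk (nat_lit 168) (nat_lit 0) (nat_lit 5) (nat_lit 2) (nat_lit 6) (nat_lit 164) (nat_lit 352) r4_164 r4_352 (nat_lit 2457581) (nat_lit 0) (nat_lit 0) (nat_lit 0x8015711e6) (nat_lit 1074979605),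
  Rx.mk (nat_lit 169) (nat_lit 1) (nat_lit 5) (nat_lit 2) (nat_lit 7) (nat_lit 165) (nat_lit 353) r4_165 r4_353 (nat_lit 0) (nat_lit 0) (nat_lit 0) (nat_lit 0x805278670) (nat_lit 1068646324),
  Rx.mk (nat_lit 171) (nat_lit 3) (nat_lit 5) (nat_lit 2) (nat_lit 7) (nat_lit 166) (nat_lit 354) r4_166 r4_354 (nat_lit 0) (nat_lit 0) (nat_lit 0) (nat_lit 0x8054e1330) (nat_lit 1068491824)]
noncomputable def e24_54 : List Rx := [
  Rx.mk (nat_lit 40) (nat_lit 0) (nat_lit 5) (nat_lit 0) (nat_lit 2) (nat_lit 181) (nat_lit 52) r4_181 r10_52 (nat_lit 2071508) (nat_lit 0) (nat_lit 5552411) (nat_lit 0x6601e5042) (nat_lit 1514816043),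
  Rx.mk (nat_lit 41) (nat_lit 1) (nat_lit 5) (nat_lit 0) (nat_lit 3) (nat_lit 182) (nat_lit 54) r4_182 r10_54 (nat_lit 0) (nat_lit 0) (nat_lit 4412645) (nat_lit 0x802289f68) (nat_lit 1076111669),
  Rx.mk (nat_lit 43) (nat_lit 3) (nat_lit 5) (nat_lit 0) (nat_lit 3) (nat_lit 183) (nat_lit 56) r4_183 r10_56 (nat_lit 0) (nat_lit 0) (nat_lit 5474881) (nat_lit 0x7fdff8ef6) (nat_lit 1081440905),
  Rx.mk (nat_lit 139) (nat_lit 3) (nat_lit 1) (nat_lit 2) (nat_lit 7) (nat_lit 187) (nat_lit 58) r4_187 r10_58 (nat_lit 0) (nat_lit 0) (nat_lit 0) (nat_lit 0x8018b37f0) (nat_lit 1072325924),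
  Rx.mk (nat_lit 168) (nat_lit 0) (nat_lit 5) (nat_lit 2) (nat_lit 6) (nat_lit 184) (nat_lit 53) r4_184 r10_53 (nat_lit 1895394) (nat_lit 0) (nat_lit 0) (nat_lit 0x80303ef3c) (nat_lit 1072711218),
  Rx.mk (nat_lit 169) (nat_lit 1) (nat_lit 5) (nat_lit 2) (nat_lit 7) (nat_lit 185) (nat_lit 55) r4_185 r10_55 (nat_lit 0) (nat_lit 0) (nat_lit 0) (nat_lit 0x805b35a60) (nat_lit 1068092224),
  Rx.mk (nat_lit 171) (nat_lit 3) (nat_lit 5) (nat_lit 2) (nat_lit 7) (nat_lit 186) (nat_lit 57) r4_186 r10_57 (nat_lit 0) (nat_lit 0) (nat_lit 0) (nat_lit 0x805b35a60) (nat_lit 1068092224)]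
noncomputable def e24_55 : List Rx := [
  Rx.mk (nat_lit 40) (nat_lit 0) (nat_lit 5) (nat_lit 0) (nat_lit 2) (nat_lit 188) (nat_lit 46) r4_188 r11_46 (nat_lit 6680725) (nat_lit 0) (nat_lit 6612068) (nat_lit 0x79a993826) (nat_lit 1192788117),
  Rx.mk (nat_lit 41) (nat_lit 1) (nat_lit 5) (nat_lit 0) (nat_lit 3) (nat_lit 189) (nat_lit 48) r4_189 r11_48 (nat_lit 0) (nat_lit 0) (nat_lit 5449534) (nat_lit 0x801d47abe) (nat_lit 1077482658),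
  Rx.mk (nat_lit 43) (nat_lit 3) (nat_lit 5) (nat_lit 0) (nat_lit 3) (nat_lit 190) (nat_lit 50) r4_190 r11_50 (nat_lit 0) (nat_lit 0) (nat_lit 5449534) (nat_lit 0x801061480) (nat_lit 1078306558),
  Rx.mk (nat_lit 168) (nat_lit 0) (nat_lit 5) (nat_lit 2) (nat_lit 6) (nat_lit 191) (nat_lit 47) r4_191 r11_47 (nat_lit 2822132) (nat_lit 0) (nat_lit 0) (nat_lit 0x80298ddc8) (nat_lit 1074069156),
  Rx.mk (nat_lit 169) (nat_lit 1) (nat_lit 5) (nat_lit 2) (nat_lit 7) (nat_lit 192) (nat_lit 49) r4_192 r11_49 (nat_lit 0) (nat_lit 0) (nat_lit 0) (nat_lit 0x80342afb0) (nat_lit 1070573324),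
  Rx.mk (nat_lit 171) (nat_lit 3) (nat_lit 5) (nat_lit 2) (nat_lit 7) (nat_lit 193) (nat_lit 52) r4_193 r11_52 (nat_lit 0) (nat_lit 0) (nat_lit 0) (nat_lit 0x80342afb0) (nat_lit 1070573324),
  Rx.mk (nat_lit 235) (nat_lit 3) (nat_lit 5) (nat_lit 3) (nat_lit 7) (nat_lit 194) (nat_lit 51) r4_194 r11_51 (nat_lit 0) (nat_lit 0) (nat_lit 0) (nat_lit 0x80029938e) (nat_lit 1073741824)]
noncomputable def e24_56 : List Rx := [
  Rx.mk (nat_lit 43) (nat_lit 3) (nat_lit 5) (nat_lit 0) (nat_lit 3) (nat_lit 224) (nat_lit 305) r4_224 r5_305 (nat_lit 0) (nat_lit 0) (nat_lit 123837254) (nat_lit 0x7ffc69400) (nat_lit 1197837578),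
  Rx.mk (nat_lit 171) (nat_lit 3) (nat_lit 5) (nat_lit 2) (nat_lit 7) (nat_lit 225) (nat_lit 306) r4_225 r5_306 (nat_lit 0) (nat_lit 0) (nat_lit 0) (nat_lit 0x805afa622) (nat_lit 1068090724)]
noncomputable def e24_57 : List Rx := [
  Rx.mk (nat_lit 43) (nat_lit 3) (nat_lit 5) (nat_lit 0) (nat_lit 3) (nat_lit 226) (nat_lit 358) r4_226 r11_358 (nat_lit 0) (nat_lit 0) (nat_lit 2508955) (nat_lit 0x803850888) (nat_lit 1072812579),
  Rx.mk (nat_lit 139) (nat_lit 3) (nat_lit 1) (nat_lit 2) (nat_lit 7) (nat_lit 228) (nat_lit 357) r4_228 r11_357 (nat_lit 0) (nat_lit 0) (nat_lit 0) (nat_lit 0x841e5b4ec) (nat_lit 1007221824),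
  Rx.mk (nat_lit 171) (nat_lit 3) (nat_lit 5) (nat_lit 2) (nat_lit 7) (nat_lit 227) (nat_lit 359) r4_227 r11_359 (nat_lit 0) (nat_lit 0) (nat_lit 0) (nat_lit 0x86812eb26) (nat_lit 968635724)]
noncomputable def e24 : List (List Rx) := [e24_0, e24_1, e24_2, e24_3, e24_4, e24_5, e24_6, e24_7, e24_8, e24_9, e24_10, e24_11, e24_12, e24_13, e24_14, e24_15, e24_16, e24_17, e24_18, e24_19, e24_20, e24_21, e24_22, e24_23, e24_24, e24_25, e24_26, e24_27, e24_28, e24_29, e24_30, e24_31, e24_32, e24_33, e24_34, e24_35, e24_36, e24_37, e24_38, e24_39, e24_40, e24_41, e24_42, e24_43, e24_44, e24_45, e24_46, e24_47, e24_48, e24_49, e24_50, e24_51, e24_52, e24_53, e24_54, e24_55, e24_56, e24_57]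
noncomputable def e25_0 : List Rx := [
  Rx.mk (nat_lit 100) (nat_lit 4) (nat_lit 4) (nat_lit 1) (nat_lit 4) (nat_lit 56) (nat_lit 177) r7_56 r0_177 (nat_lit 1073466) (nat_lit 216055) (nat_lit 0) (nat_lit 0x52f01064a) (nat_lit 1826388745),
  Rx.mk (nat_lit 108) (nat_lit 4) (nat_lit 5) (nat_lit 1) (nat_lit 6) (nat_lit 59) (nat_lit 179) r7_59 r0_179 (nat_lit 1922278) (nat_lit 0) (nat_lit 0) (nat_lit 0x6264701d4) (nat_lit 1569386202),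
  Rx.mk (nat_lit 356) (nat_lit 4) (nat_lit 4) (nat_lit 5) (nat_lit 4) (nat_lit 57) (nat_lit 178) r7_57 r0_178 (nat_lit 944100) (nat_lit 327140) (nat_lit 0) (nat_lit 0x5bb8077f4) (nat_lit 1679970364),
  Rx.mk (nat_lit 359) (nat_lit 7) (nat_lit 4) (nat_lit 5) (nat_lit 5) (nat_lit 58) (nat_lit 182) r7_58 r0_182 (nat_lit 0) (nat_lit 1461987) (nat_lit 0) (nat_lit 0x7ffe1df6c) (nat_lit 1075483511),
  Rx.mk (nat_lit 364) (nat_lit 4) (nat_lit 5) (nat_lit 5) (nat_lit 6) (nat_lit 60) (nat_lit 180) r7_60 r0_180 (nat_lit 5137059) (nat_lit 0) (nat_lit 0) (nat_lit 0x7a3a629c4) (nat_lit 1175198083),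
  Rx.mk (nat_lit 367) (nat_lit 7) (nat_lit 5) (nat_lit 5) (nat_lit 7) (nat_lit 61) (nat_lit 183) r7_61 r0_183 (nat_lit 0) (nat_lit 0) (nat_lit 0) (nat_lit 0x802680a22) (nat_lit 1071441624),
  Rx.mk (nat_lit 372) (nat_lit 4) (nat_lit 6) (nat_lit 5) (nat_lit 6) (nat_lit 62) (nat_lit 181) r7_62 r0_181 (nat_lit 171422861) (nat_lit 0) (nat_lit 0) (nat_lit 0x80556c2a0) (nat_lit 1239814685),
  Rx.mk (nat_lit 375) (nat_lit 7) (nat_lit 6) (nat_lit 5) (nat_lit 7) (nat_lit 63) (nat_lit 184) r7_63 r0_184 (nat_lit 0) (nat_lit 0) (nat_lit 0) (nat_lit 0x806ab61b0) (nat_lit 1067109724)]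
noncomputable def e25_1 : List Rx := [
  Rx.mk (nat_lit 356) (nat_lit 4) (nat_lit 4) (nat_lit 5) (nat_lit 4) (nat_lit 64) (nat_lit 192) r7_64 r1_192 (nat_lit 13272121) (nat_lit 18024927) (nat_lit 0) (nat_lit 0x679c04a46) (nat_lit 1511783172),
  Rx.mk (nat_lit 359) (nat_lit 7) (nat_lit 4) (nat_lit 5) (nat_lit 5) (nat_lit 65) (nat_lit 195) r7_65 r1_195 (nat_lit 0) (nat_lit 3131027) (nat_lit 0) (nat_lit 0x8039b0930) (nat_lit 1073355051),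
  Rx.mk (nat_lit 364) (nat_lit 4) (nat_lit 5) (nat_lit 5) (nat_lit 6) (nat_lit 66) (nat_lit 193) r7_66 r1_193 (nat_lit 6367424) (nat_lit 0) (nat_lit 0) (nat_lit 0x7fc15ea7c) (nat_lit 1084313548),
  Rx.mk (nat_lit 367) (nat_lit 7) (nat_lit 5) (nat_lit 5) (nat_lit 7) (nat_lit 67) (nat_lit 196) r7_67 r1_196 (nat_lit 0) (nat_lit 0) (nat_lit 0) (nat_lit 0x8013c631e) (nat_lit 1072641324),
  Rx.mk (nat_lit 372) (nat_lit 4) (nat_lit 6) (nat_lit 5) (nat_lit 6) (nat_lit 68) (nat_lit 194) r7_68 r1_194 (nat_lit 50165941) (nat_lit 0) (nat_lit 0) (nat_lit 0x874d452b4) (nat_lit 1005906665),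
  Rx.mk (nat_lit 374) (nat_lit 6) (nat_lit 6) (nat_lit 5) (nat_lit 7) (nat_lit 69) (nat_lit 198) r7_69 r1_198 (nat_lit 0) (nat_lit 0) (nat_lit 0) (nat_lit 0x80f9b7260) (nat_lit 1058059324),
  Rx.mk (nat_lit 375) (nat_lit 7) (nat_lit 6) (nat_lit 5) (nat_lit 7) (nat_lit 70) (nat_lit 197) r7_70 r1_197 (nat_lit 0) (nat_lit 0) (nat_lit 0) (nat_lit 0x8013c631e) (nat_lit 1072641324)]
noncomputable def e25_2 : List Rx := [
  Rx.mk (nat_lit 292) (nat_lit 4) (nat_lit 4) (nat_lit 4) (nat_lit 0) (nat_lit 21) (nat_lit 189) r7_21 r2_189 (nat_lit 399938) (nat_lit 161181) (nat_lit 194986) (nat_lit 0x36448175a) (nat_lit 2303875029),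
  Rx.mk (nat_lit 295) (nat_lit 7) (nat_lit 4) (nat_lit 4) (nat_lit 1) (nat_lit 23) (nat_lit 193) r7_23 r2_193 (nat_lit 0) (nat_lit 1580289) (nat_lit 1909851) (nat_lit 0x70324666e) (nat_lit 1340803264),
  Rx.mk (nat_lit 308) (nat_lit 4) (nat_lit 6) (nat_lit 4) (nat_lit 2) (nat_lit 26) (nat_lit 191) r7_26 r2_191 (nat_lit 11611348) (nat_lit 0) (nat_lit 3553214) (nat_lit 0x6c960b1d0) (nat_lit 1412675886),
  Rx.mk (nat_lit 310) (nat_lit 6) (nat_lit 6) (nat_lit 4) (nat_lit 3) (nat_lit 28) (nat_lit 200) r7_28 r2_200 (nat_lit 0) (nat_lit 0) (nat_lit 5449534) (nat_lit 0x7ffaf9476) (nat_lit 1079680458),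
  Rx.mk (nat_lit 311) (nat_lit 7) (nat_lit 6) (nat_lit 4) (nat_lit 3) (nat_lit 31) (nat_lit 197) r7_31 r2_197 (nat_lit 0) (nat_lit 0) (nat_lit 5449534) (nat_lit 0x7ffc30790) (nat_lit 1079602458),
  Rx.mk (nat_lit 356) (nat_lit 4) (nat_lit 4) (nat_lit 5) (nat_lit 4) (nat_lit 22) (nat_lit 190) r7_22 r2_190 (nat_lit 5488875) (nat_lit 5199218) (nat_lit 0) (nat_lit 0x56490c8ae) (nat_lit 1780021717),
  Rx.mk (nat_lit 359) (nat_lit 7) (nat_lit 4) (nat_lit 5) (nat_lit 5) (nat_lit 24) (nat_lit 194) r7_24 r2_194 (nat_lit 0) (nat_lit 5449534) (nat_lit 0) (nat_lit 0x80029938e) (nat_lit 1079191358),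
  Rx.mk (nat_lit 372) (nat_lit 4) (nat_lit 6) (nat_lit 5) (nat_lit 6) (nat_lit 27) (nat_lit 192) r7_27 r2_192 (nat_lit 5449534) (nat_lit 0) (nat_lit 0) (nat_lit 0x800095baa) (nat_lit 1079320458),
  Rx.mk (nat_lit 374) (nat_lit 6) (nat_lit 6) (nat_lit 5) (nat_lit 7) (nat_lit 29) (nat_lit 201) r7_29 r2_201 (nat_lit 0) (nat_lit 0) (nat_lit 0) (nat_lit 0x80029938e) (nat_lit 1073741824),
  Rx.mk (nat_lit 375) (nat_lit 7) (nat_lit 6) (nat_lit 5) (nat_lit 7) (nat_lit 32) (nat_lit 198) r7_32 r2_198 (nat_lit 0) (nat_lit 0) (nat_lit 0) (nat_lit 0x80029938e) (nat_lit 1073741824),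
  Rx.mk (nat_lit 438) (nat_lit 6) (nat_lit 6) (nat_lit 6) (nat_lit 7) (nat_lit 30) (nat_lit 202) r7_30 r2_202 (nat_lit 0) (nat_lit 0) (nat_lit 0) (nat_lit 0x80029938e) (nat_lit 1073741824),
  Rx.mk (nat_lit 487) (nat_lit 7) (nat_lit 4) (nat_lit 7) (nat_lit 5) (nat_lit 25) (nat_lit 195) r7_25 r2_195 (nat_lit 0) (nat_lit 5449534) (nat_lit 0) (nat_lit 0x7ffed32b8) (nat_lit 1079433358),
  Rx.mk (nat_lit 503) (nat_lit 7) (nat_lit 6) (nat_lit 7) (nat_lit 7) (nat_lit 33) (nat_lit 199) r7_33 r2_199 (nat_lit 0) (nat_lit 0) (nat_lit 0) (nat_lit 0x80029938e) (nat_lit 1073741824),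
  Rx.mk (nat_lit 511) (nat_lit 7) (nat_lit 7) (nat_lit 7) (nat_lit 7) (nat_lit 34) (nat_lit 196) r7_34 r2_196 (nat_lit 0) (nat_lit 0) (nat_lit 0) (nat_lit 0x80029938e) (nat_lit 1073741824)]
noncomputable def e25_3 : List Rx := [
  Rx.mk (nat_lit 100) (nat_lit 4) (nat_lit 4) (nat_lit 1) (nat_lit 4) (nat_lit 52) (nat_lit 167) r7_52 r3_167 (nat_lit 13620) (nat_lit 17692) (nat_lit 0) (nat_lit 0x66343bea6) (nat_lit 1503873036),
  Rx.mk (nat_lit 103) (nat_lit 7) (nat_lit 4) (nat_lit 1) (nat_lit 5) (nat_lit 53) (nat_lit 169) r7_53 r3_169 (nat_lit 0) (nat_lit 51739) (nat_lit 0) (nat_lit 0x8025c8a44) (nat_lit 1071420663),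
  Rx.mk (nat_lit 108) (nat_lit 4) (nat_lit 5) (nat_lit 1) (nat_lit 6) (nat_lit 54) (nat_lit 168) r7_54 r3_168 (nat_lit 3317218) (nat_lit 0) (nat_lit 0) (nat_lit 0x73b921fbe) (nat_lit 1281818742),
  Rx.mk (nat_lit 111) (nat_lit 7) (nat_lit 5) (nat_lit 1) (nat_lit 7) (nat_lit 55) (nat_lit 170) r7_55 r3_170 (nat_lit 0) (nat_lit 0) (nat_lit 0) (nat_lit 0x89c325cac) (nat_lit 915957624)]
noncomputable def e25_4 : List Rx := [
  Rx.mk (nat_lit 100) (nat_lit 4) (nat_lit 4) (nat_lit 1) (nat_lit 4) (nat_lit 71) (nat_lit 167) r7_71 r4_167 (nat_lit 6409400) (nat_lit 2628537) (nat_lit 0) (nat_lit 0x64e7bb690) (nat_lit 1534609061),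
  Rx.mk (nat_lit 103) (nat_lit 7) (nat_lit 4) (nat_lit 1) (nat_lit 5) (nat_lit 72) (nat_lit 169) r7_72 r4_169 (nat_lit 0) (nat_lit 1693168) (nat_lit 0) (nat_lit 0x7fb51bd00) (nat_lit 1080428292),
  Rx.mk (nat_lit 108) (nat_lit 4) (nat_lit 5) (nat_lit 1) (nat_lit 6) (nat_lit 74) (nat_lit 168) r7_74 r4_168 (nat_lit 4040041) (nat_lit 0) (nat_lit 0) (nat_lit 0x8012909e0) (nat_lit 1076761165),
  Rx.mk (nat_lit 111) (nat_lit 7) (nat_lit 5) (nat_lit 1) (nat_lit 7) (nat_lit 75) (nat_lit 171) r7_75 r4_171 (nat_lit 0) (nat_lit 0) (nat_lit 0) (nat_lit 0x8073a79e0) (nat_lit 1066541824),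
  Rx.mk (nat_lit 359) (nat_lit 7) (nat_lit 4) (nat_lit 5) (nat_lit 5) (nat_lit 73) (nat_lit 170) r7_73 r4_170 (nat_lit 0) (nat_lit 2874909) (nat_lit 0) (nat_lit 0x8041c95d6) (nat_lit 1072582433),
  Rx.mk (nat_lit 367) (nat_lit 7) (nat_lit 5) (nat_lit 5) (nat_lit 7) (nat_lit 76) (nat_lit 172) r7_76 r4_172 (nat_lit 0) (nat_lit 0) (nat_lit 0) (nat_lit 0x80261c34c) (nat_lit 1071470624),
  Rx.mk (nat_lit 375) (nat_lit 7) (nat_lit 6) (nat_lit 5) (nat_lit 7) (nat_lit 77) (nat_lit 173) r7_77 r4_173 (nat_lit 0) (nat_lit 0) (nat_lit 0) (nat_lit 0x80261c34c) (nat_lit 1071470624)]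
noncomputable def e25_5 : List Rx := [
  Rx.mk (nat_lit 100) (nat_lit 4) (nat_lit 4) (nat_lit 1) (nat_lit 4) (nat_lit 88) (nat_lit 184) r7_88 r5_184 (nat_lit 10009322) (nat_lit 2284157) (nat_lit 0) (nat_lit 0x6e04ad22c) (nat_lit 1385922203),
  Rx.mk (nat_lit 103) (nat_lit 7) (nat_lit 4) (nat_lit 1) (nat_lit 5) (nat_lit 89) (nat_lit 186) r7_89 r5_186 (nat_lit 0) (nat_lit 2216475) (nat_lit 0) (nat_lit 0x802e1cf2e) (nat_lit 1073168099),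
  Rx.mk (nat_lit 108) (nat_lit 4) (nat_lit 5) (nat_lit 1) (nat_lit 6) (nat_lit 90) (nat_lit 185) r7_90 r5_185 (nat_lit 5449534) (nat_lit 0) (nat_lit 0) (nat_lit 0x80029938e) (nat_lit 1079191358),
  Rx.mk (nat_lit 111) (nat_lit 7) (nat_lit 5) (nat_lit 1) (nat_lit 7) (nat_lit 91) (nat_lit 187) r7_91 r5_187 (nat_lit 0) (nat_lit 0) (nat_lit 0) (nat_lit 0x8045fce28) (nat_lit 1069439724),
  Rx.mk (nat_lit 127) (nat_lit 7) (nat_lit 7) (nat_lit 1) (nat_lit 7) (nat_lit 92) (nat_lit 188) r7_92 r5_188 (nat_lit 0) (nat_lit 0) (nat_lit 0) (nat_lit 0x7fe8d0dda) (nat_lit 1075400424)]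
noncomputable def e25_6 : List Rx := [
  Rx.mk (nat_lit 59) (nat_lit 3) (nat_lit 7) (nat_lit 0) (nat_lit 3) (nat_lit 36) (nat_lit 102) r7_36 r3_102 (nat_lit 0) (nat_lit 0) (nat_lit 41954) (nat_lit 0x8a20ca506) (nat_lit 910018078),
  Rx.mk (nat_lit 231) (nat_lit 7) (nat_lit 4) (nat_lit 3) (nat_lit 5) (nat_lit 35) (nat_lit 100) r7_35 r3_100 (nat_lit 0) (nat_lit 41954) (nat_lit 0) (nat_lit 0x8a20ca506) (nat_lit 910018078),
  Rx.mk (nat_lit 251) (nat_lit 3) (nat_lit 7) (nat_lit 3) (nat_lit 7) (nat_lit 37) (nat_lit 103) r7_37 r3_103 (nat_lit 0) (nat_lit 0) (nat_lit 0) (nat_lit 0x7fd20ba96) (nat_lit 1076872124),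
  Rx.mk (nat_lit 255) (nat_lit 7) (nat_lit 7) (nat_lit 3) (nat_lit 7) (nat_lit 38) (nat_lit 101) r7_38 r3_101 (nat_lit 0) (nat_lit 0) (nat_lit 0) (nat_lit 0x7fd20ba96) (nat_lit 1076872124)]
noncomputable def e25_7 : List Rx := [
  Rx.mk (nat_lit 251) (nat_lit 3) (nat_lit 7) (nat_lit 3) (nat_lit 7) (nat_lit 8) (nat_lit 104) r7_8 r0_104 (nat_lit 0) (nat_lit 0) (nat_lit 0) (nat_lit 0x7ff7bb07a) (nat_lit 1074439424),
  Rx.mk (nat_lit 255) (nat_lit 7) (nat_lit 7) (nat_lit 3) (nat_lit 7) (nat_lit 9) (nat_lit 103) r7_9 r0_103 (nat_lit 0) (nat_lit 0) (nat_lit 0) (nat_lit 0x80029938e) (nat_lit 1073741824),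
  Rx.mk (nat_lit 308) (nat_lit 4) (nat_lit 6) (nat_lit 4) (nat_lit 2) (nat_lit 2) (nat_lit 105) r7_2 r0_105 (nat_lit 747955) (nat_lit 0) (nat_lit 146838) (nat_lit 0x5e9ce2aac) (nat_lit 1631332817),
  Rx.mk (nat_lit 310) (nat_lit 6) (nat_lit 6) (nat_lit 4) (nat_lit 3) (nat_lit 4) (nat_lit 108) r7_4 r0_108 (nat_lit 0) (nat_lit 0) (nat_lit 4219351) (nat_lit 0x735136a1c) (nat_lit 1289505675),
  Rx.mk (nat_lit 438) (nat_lit 6) (nat_lit 6) (nat_lit 6) (nat_lit 7) (nat_lit 5) (nat_lit 110) r7_5 r0_110 (nat_lit 0) (nat_lit 0) (nat_lit 0) (nat_lit 0x7ff997768) (nat_lit 1074319724),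
  Rx.mk (nat_lit 484) (nat_lit 4) (nat_lit 4) (nat_lit 7) (nat_lit 4) (nat_lit 0) (nat_lit 100) r7_0 r0_100 (nat_lit 12742526) (nat_lit 16582240) (nat_lit 0) (nat_lit 0x6135e2f48) (nat_lit 1616501090),
  Rx.mk (nat_lit 487) (nat_lit 7) (nat_lit 4) (nat_lit 7) (nat_lit 5) (nat_lit 1) (nat_lit 101) r7_1 r0_101 (nat_lit 0) (nat_lit 2775314) (nat_lit 0) (nat_lit 0x6ed474154) (nat_lit 1362877338),
  Rx.mk (nat_lit 500) (nat_lit 4) (nat_lit 6) (nat_lit 7) (nat_lit 6) (nat_lit 3) (nat_lit 106) r7_3 r0_106 (nat_lit 26061368) (nat_lit 0) (nat_lit 0) (nat_lit 0x7f3c3650c) (nat_lit 1112650392),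
  Rx.mk (nat_lit 502) (nat_lit 6) (nat_lit 6) (nat_lit 7) (nat_lit 7) (nat_lit 6) (nat_lit 109) r7_6 r0_109 (nat_lit 0) (nat_lit 0) (nat_lit 0) (nat_lit 0x7ff9f25aa) (nat_lit 1074297324),
  Rx.mk (nat_lit 503) (nat_lit 7) (nat_lit 6) (nat_lit 7) (nat_lit 7) (nat_lit 7) (nat_lit 107) r7_7 r0_107 (nat_lit 0) (nat_lit 0) (nat_lit 0) (nat_lit 0x7fecaec36) (nat_lit 1075148224),
  Rx.mk (nat_lit 511) (nat_lit 7) (nat_lit 7) (nat_lit 7) (nat_lit 7) (nat_lit 10) (nat_lit 102) r7_10 r0_102 (nat_lit 0) (nat_lit 0) (nat_lit 0) (nat_lit 0x7f8d00f78) (nat_lit 1081343624)]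
noncomputable def e25_8 : List Rx := [
  Rx.mk (nat_lit 292) (nat_lit 4) (nat_lit 4) (nat_lit 4) (nat_lit 0) (nat_lit 11) (nat_lit 107) r7_11 r1_107 (nat_lit 10629653) (nat_lit 1562278) (nat_lit 861237) (nat_lit 0x3d73cabcc) (nat_lit 2196411992),
  Rx.mk (nat_lit 308) (nat_lit 4) (nat_lit 6) (nat_lit 4) (nat_lit 2) (nat_lit 14) (nat_lit 111) r7_14 r1_111 (nat_lit 2019292) (nat_lit 0) (nat_lit 764768) (nat_lit 0x637a26ad6) (nat_lit 1552157184),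
  Rx.mk (nat_lit 310) (nat_lit 6) (nat_lit 6) (nat_lit 4) (nat_lit 3) (nat_lit 16) (nat_lit 114) r7_16 r1_114 (nat_lit 0) (nat_lit 0) (nat_lit 3945399) (nat_lit 0x7a30f8c9e) (nat_lit 1174620723),
  Rx.mk (nat_lit 438) (nat_lit 6) (nat_lit 6) (nat_lit 6) (nat_lit 7) (nat_lit 17) (nat_lit 116) r7_17 r1_116 (nat_lit 0) (nat_lit 0) (nat_lit 0) (nat_lit 0x80029938e) (nat_lit 1073741824),
  Rx.mk (nat_lit 484) (nat_lit 4) (nat_lit 4) (nat_lit 7) (nat_lit 4) (nat_lit 12) (nat_lit 108) r7_12 r1_108 (nat_lit 181791674) (nat_lit 16900660) (nat_lit 0) (nat_lit 0x795055188) (nat_lit 1384004258),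
  Rx.mk (nat_lit 487) (nat_lit 7) (nat_lit 4) (nat_lit 7) (nat_lit 5) (nat_lit 13) (nat_lit 109) r7_13 r1_109 (nat_lit 0) (nat_lit 4413768) (nat_lit 0) (nat_lit 0x800030c78) (nat_lit 1078308092),
  Rx.mk (nat_lit 500) (nat_lit 4) (nat_lit 6) (nat_lit 7) (nat_lit 6) (nat_lit 15) (nat_lit 112) r7_15 r1_112 (nat_lit 6527677) (nat_lit 0) (nat_lit 0) (nat_lit 0x7ff713d3e) (nat_lit 1081006201),
  Rx.mk (nat_lit 502) (nat_lit 6) (nat_lit 6) (nat_lit 7) (nat_lit 7) (nat_lit 18) (nat_lit 115) r7_18 r1_115 (nat_lit 0) (nat_lit 0) (nat_lit 0) (nat_lit 0x80029938e) (nat_lit 1073741824),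
  Rx.mk (nat_lit 503) (nat_lit 7) (nat_lit 6) (nat_lit 7) (nat_lit 7) (nat_lit 19) (nat_lit 113) r7_19 r1_113 (nat_lit 0) (nat_lit 0) (nat_lit 0) (nat_lit 0x8017d4d3e) (nat_lit 1072381924),
  Rx.mk (nat_lit 511) (nat_lit 7) (nat_lit 7) (nat_lit 7) (nat_lit 7) (nat_lit 20) (nat_lit 110) r7_20 r1_110 (nat_lit 0) (nat_lit 0) (nat_lit 0) (nat_lit 0x80029938e) (nat_lit 1073741824)]
noncomputable def e25_9 : List Rx := [
  Rx.mk (nat_lit 59) (nat_lit 3) (nat_lit 7) (nat_lit 0) (nat_lit 3) (nat_lit 45) (nat_lit 102) r7_45 r4_102 (nat_lit 0) (nat_lit 0) (nat_lit 3003842) (nat_lit 0x801bcccc0) (nat_lit 1075130666),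
  Rx.mk (nat_lit 231) (nat_lit 7) (nat_lit 4) (nat_lit 3) (nat_lit 5) (nat_lit 40) (nat_lit 100) r7_40 r4_100 (nat_lit 0) (nat_lit 3253254) (nat_lit 0) (nat_lit 0x802f743a4) (nat_lit 1074127178),
  Rx.mk (nat_lit 251) (nat_lit 3) (nat_lit 7) (nat_lit 3) (nat_lit 7) (nat_lit 46) (nat_lit 103) r7_46 r4_103 (nat_lit 0) (nat_lit 0) (nat_lit 0) (nat_lit 0x80029938e) (nat_lit 1073741824),
  Rx.mk (nat_lit 255) (nat_lit 7) (nat_lit 7) (nat_lit 3) (nat_lit 7) (nat_lit 47) (nat_lit 101) r7_47 r4_101 (nat_lit 0) (nat_lit 0) (nat_lit 0) (nat_lit 0x80029938e) (nat_lit 1073741824),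
  Rx.mk (nat_lit 484) (nat_lit 4) (nat_lit 4) (nat_lit 7) (nat_lit 4) (nat_lit 39) (nat_lit 98) r7_39 r4_98 (nat_lit 13528971) (nat_lit 2244627) (nat_lit 0) (nat_lit 0x667a08362) (nat_lit 1515142422),
  Rx.mk (nat_lit 487) (nat_lit 7) (nat_lit 4) (nat_lit 7) (nat_lit 5) (nat_lit 41) (nat_lit 99) r7_41 r4_99 (nat_lit 0) (nat_lit 2541329) (nat_lit 0) (nat_lit 0x7e988d356) (nat_lit 1099798353),
  Rx.mk (nat_lit 500) (nat_lit 4) (nat_lit 6) (nat_lit 7) (nat_lit 6) (nat_lit 42) (nat_lit 104) r7_42 r4_104 (nat_lit 7450969) (nat_lit 0) (nat_lit 0) (nat_lit 0x7fd285fbc) (nat_lit 1084281793),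
  Rx.mk (nat_lit 502) (nat_lit 6) (nat_lit 6) (nat_lit 7) (nat_lit 7) (nat_lit 43) (nat_lit 106) r7_43 r4_106 (nat_lit 0) (nat_lit 0) (nat_lit 0) (nat_lit 0x80029938e) (nat_lit 1073741824),
  Rx.mk (nat_lit 503) (nat_lit 7) (nat_lit 6) (nat_lit 7) (nat_lit 7) (nat_lit 44) (nat_lit 105) r7_44 r4_105 (nat_lit 0) (nat_lit 0) (nat_lit 0) (nat_lit 0x807650df4) (nat_lit 1066373124)]
noncomputable def e25_10 : List Rx := [
  Rx.mk (nat_lit 39) (nat_lit 7) (nat_lit 4) (nat_lit 0) (nat_lit 1) (nat_lit 78) (nat_lit 195) r7_78 r6_195 (nat_lit 0) (nat_lit 277079) (nat_lit 264914) (nat_lit 0x6d02a6830) (nat_lit 1390940117),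
  Rx.mk (nat_lit 47) (nat_lit 7) (nat_lit 5) (nat_lit 0) (nat_lit 3) (nat_lit 81) (nat_lit 198) r7_81 r6_198 (nat_lit 0) (nat_lit 0) (nat_lit 1891092) (nat_lit 0x8064b8aba) (nat_lit 1069380816),
  Rx.mk (nat_lit 59) (nat_lit 3) (nat_lit 7) (nat_lit 0) (nat_lit 3) (nat_lit 84) (nat_lit 193) r7_84 r6_193 (nat_lit 0) (nat_lit 0) (nat_lit 1281739) (nat_lit 0x8015d28a6) (nat_lit 1073788363),
  Rx.mk (nat_lit 63) (nat_lit 7) (nat_lit 7) (nat_lit 0) (nat_lit 3) (nat_lit 86) (nat_lit 201) r7_86 r6_201 (nat_lit 0) (nat_lit 0) (nat_lit 5719758) (nat_lit 0x7fc989026) (nat_lit 1083137982),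
  Rx.mk (nat_lit 103) (nat_lit 7) (nat_lit 4) (nat_lit 1) (nat_lit 5) (nat_lit 79) (nat_lit 196) r7_79 r6_196 (nat_lit 0) (nat_lit 2237591) (nat_lit 0) (nat_lit 0x8056375b8) (nat_lit 1070643615),
  Rx.mk (nat_lit 111) (nat_lit 7) (nat_lit 5) (nat_lit 1) (nat_lit 7) (nat_lit 82) (nat_lit 199) r7_82 r6_199 (nat_lit 0) (nat_lit 0) (nat_lit 0) (nat_lit 0x804959148) (nat_lit 1069226624),
  Rx.mk (nat_lit 123) (nat_lit 3) (nat_lit 7) (nat_lit 1) (nat_lit 7) (nat_lit 85) (nat_lit 194) r7_85 r6_194 (nat_lit 0) (nat_lit 0) (nat_lit 0) (nat_lit 0x80f0600f4) (nat_lit 1058649324),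
  Rx.mk (nat_lit 127) (nat_lit 7) (nat_lit 7) (nat_lit 1) (nat_lit 7) (nat_lit 87) (nat_lit 202) r7_87 r6_202 (nat_lit 0) (nat_lit 0) (nat_lit 0) (nat_lit 0x80029938e) (nat_lit 1073741824),
  Rx.mk (nat_lit 231) (nat_lit 7) (nat_lit 4) (nat_lit 3) (nat_lit 5) (nat_lit 80) (nat_lit 197) r7_80 r6_197 (nat_lit 0) (nat_lit 1598900) (nat_lit 0) (nat_lit 0x80a515d4c) (nat_lit 1065015624),
  Rx.mk (nat_lit 239) (nat_lit 7) (nat_lit 5) (nat_lit 3) (nat_lit 7) (nat_lit 83) (nat_lit 200) r7_83 r6_200 (nat_lit 0) (nat_lit 0) (nat_lit 0) (nat_lit 0x80aedf3b4) (nat_lit 1062792024)]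
noncomputable def e25_11 : List Rx := [
  Rx.mk (nat_lit 59) (nat_lit 3) (nat_lit 7) (nat_lit 0) (nat_lit 3) (nat_lit 49) (nat_lit 105) r7_49 r5_105 (nat_lit 0) (nat_lit 0) (nat_lit 1265249) (nat_lit 0x7ff9d6b48) (nat_lit 1075552073),
  Rx.mk (nat_lit 63) (nat_lit 7) (nat_lit 7) (nat_lit 0) (nat_lit 3) (nat_lit 50) (nat_lit 103) r7_50 r5_103 (nat_lit 0) (nat_lit 0) (nat_lit 3797391) (nat_lit 0x7bc59188c) (nat_lit 1148120715),
  Rx.mk (nat_lit 231) (nat_lit 7) (nat_lit 4) (nat_lit 3) (nat_lit 5) (nat_lit 48) (nat_lit 102) r7_48 r5_102 (nat_lit 0) (nat_lit 1535629) (nat_lit 0) (nat_lit 0x807a5a904) (nat_lit 1067648753),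
  Rx.mk (nat_lit 255) (nat_lit 7) (nat_lit 7) (nat_lit 3) (nat_lit 7) (nat_lit 51) (nat_lit 104) r7_51 r5_104 (nat_lit 0) (nat_lit 0) (nat_lit 0) (nat_lit 0x7ff327c3e) (nat_lit 1074733924)]
noncomputable def e25_12 : List Rx := [
  Rx.mk (nat_lit 100) (nat_lit 4) (nat_lit 4) (nat_lit 1) (nat_lit 4) (nat_lit 217) (nat_lit 250) r7_217 r0_250 (nat_lit 3589306) (nat_lit 64066468) (nat_lit 0) (nat_lit 0x638142464) (nat_lit 1616568698),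
  Rx.mk (nat_lit 101) (nat_lit 5) (nat_lit 4) (nat_lit 1) (nat_lit 5) (nat_lit 218) (nat_lit 251) r7_218 r0_251 (nat_lit 0) (nat_lit 5828588) (nat_lit 0) (nat_lit 0x7fe5c8fd4) (nat_lit 1081422912),
  Rx.mk (nat_lit 108) (nat_lit 4) (nat_lit 5) (nat_lit 1) (nat_lit 6) (nat_lit 219) (nat_lit 252) r7_219 r0_252 (nat_lit 6173437) (nat_lit 0) (nat_lit 0) (nat_lit 0x7b5c8dc0a) (nat_lit 1157338461),
  Rx.mk (nat_lit 109) (nat_lit 5) (nat_lit 5) (nat_lit 1) (nat_lit 7) (nat_lit 220) (nat_lit 253) r7_220 r0_253 (nat_lit 0) (nat_lit 0) (nat_lit 0) (nat_lit 0x8018342e8) (nat_lit 1072357724)]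
noncomputable def e25_13 : List Rx := [
  Rx.mk (nat_lit 100) (nat_lit 4) (nat_lit 4) (nat_lit 1) (nat_lit 4) (nat_lit 229) (nat_lit 229) r7_229 r7_229 (nat_lit 2723291) (nat_lit 2723291) (nat_lit 0) (nat_lit 0x6dde73fc0) (nat_lit 1381566606),
  Rx.mk (nat_lit 101) (nat_lit 5) (nat_lit 4) (nat_lit 1) (nat_lit 5) (nat_lit 231) (nat_lit 234) r7_231 r7_234 (nat_lit 0) (nat_lit 3906765) (nat_lit 0) (nat_lit 0x80258828c) (nat_lit 1075417389),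
  Rx.mk (nat_lit 108) (nat_lit 4) (nat_lit 5) (nat_lit 1) (nat_lit 6) (nat_lit 234) (nat_lit 231) r7_234 r7_231 (nat_lit 3906765) (nat_lit 0) (nat_lit 0) (nat_lit 0x80258828c) (nat_lit 1075417389),
  Rx.mk (nat_lit 109) (nat_lit 5) (nat_lit 5) (nat_lit 1) (nat_lit 7) (nat_lit 236) (nat_lit 236) r7_236 r7_236 (nat_lit 0) (nat_lit 0) (nat_lit 0) (nat_lit 0x80029938e) (nat_lit 1073741824),
  Rx.mk (nat_lit 356) (nat_lit 4) (nat_lit 4) (nat_lit 5) (nat_lit 4) (nat_lit 230) (nat_lit 230) r7_230 r7_230 (nat_lit 24998902) (nat_lit 24998902) (nat_lit 0) (nat_lit 0x69f022aa4) (nat_lit 1491662228),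
  Rx.mk (nat_lit 357) (nat_lit 5) (nat_lit 4) (nat_lit 5) (nat_lit 5) (nat_lit 232) (nat_lit 235) r7_232 r7_235 (nat_lit 0) (nat_lit 5449534) (nat_lit 0) (nat_lit 0x80029938e) (nat_lit 1079191358),
  Rx.mk (nat_lit 359) (nat_lit 7) (nat_lit 4) (nat_lit 5) (nat_lit 5) (nat_lit 233) (nat_lit 239) r7_233 r7_239 (nat_lit 0) (nat_lit 5449534) (nat_lit 0) (nat_lit 0x80029938e) (nat_lit 1079191358),
  Rx.mk (nat_lit 364) (nat_lit 4) (nat_lit 5) (nat_lit 5) (nat_lit 6) (nat_lit 235) (nat_lit 232) r7_235 r7_232 (nat_lit 5449534) (nat_lit 0) (nat_lit 0) (nat_lit 0x80029938e) (nat_lit 1079191358),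
  Rx.mk (nat_lit 365) (nat_lit 5) (nat_lit 5) (nat_lit 5) (nat_lit 7) (nat_lit 237) (nat_lit 237) r7_237 r7_237 (nat_lit 0) (nat_lit 0) (nat_lit 0) (nat_lit 0x80029938e) (nat_lit 1073741824),
  Rx.mk (nat_lit 367) (nat_lit 7) (nat_lit 5) (nat_lit 5) (nat_lit 7) (nat_lit 238) (nat_lit 240) r7_238 r7_240 (nat_lit 0) (nat_lit 0) (nat_lit 0) (nat_lit 0x80029938e) (nat_lit 1073741824),
  Rx.mk (nat_lit 372) (nat_lit 4) (nat_lit 6) (nat_lit 5) (nat_lit 6) (nat_lit 239) (nat_lit 233) r7_239 r7_233 (nat_lit 5449534) (nat_lit 0) (nat_lit 0) (nat_lit 0x80029938e) (nat_lit 1079191358),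
  Rx.mk (nat_lit 373) (nat_lit 5) (nat_lit 6) (nat_lit 5) (nat_lit 7) (nat_lit 240) (nat_lit 238) r7_240 r7_238 (nat_lit 0) (nat_lit 0) (nat_lit 0) (nat_lit 0x80029938e) (nat_lit 1073741824)]
noncomputable def e25_14 : List Rx := [
  Rx.mk (nat_lit 101) (nat_lit 5) (nat_lit 4) (nat_lit 1) (nat_lit 5) (nat_lit 221) (nat_lit 256) r7_221 r1_256 (nat_lit 0) (nat_lit 5449534) (nat_lit 0) (nat_lit 0x7f8e54334) (nat_lit 1086711158),
  Rx.mk (nat_lit 109) (nat_lit 5) (nat_lit 5) (nat_lit 1) (nat_lit 7) (nat_lit 222) (nat_lit 257) r7_222 r1_257 (nat_lit 0) (nat_lit 0) (nat_lit 0) (nat_lit 0x80029938e) (nat_lit 1073741824)]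
noncomputable def e25_15 : List Rx := [
  Rx.mk (nat_lit 101) (nat_lit 5) (nat_lit 4) (nat_lit 1) (nat_lit 5) (nat_lit 241) (nat_lit 184) r7_241 r8_184 (nat_lit 0) (nat_lit 5449534) (nat_lit 0) (nat_lit 0x80029938e) (nat_lit 1079191358),
  Rx.mk (nat_lit 109) (nat_lit 5) (nat_lit 5) (nat_lit 1) (nat_lit 7) (nat_lit 243) (nat_lit 186) r7_243 r8_186 (nat_lit 0) (nat_lit 0) (nat_lit 0) (nat_lit 0x80029938e) (nat_lit 1073741824),
  Rx.mk (nat_lit 357) (nat_lit 5) (nat_lit 4) (nat_lit 5) (nat_lit 5) (nat_lit 242) (nat_lit 185) r7_242 r8_185 (nat_lit 0) (nat_lit 5322975) (nat_lit 0) (nat_lit 0x7ffd77ce8) (nat_lit 1079393799),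
  Rx.mk (nat_lit 365) (nat_lit 5) (nat_lit 5) (nat_lit 5) (nat_lit 7) (nat_lit 244) (nat_lit 187) r7_244 r8_187 (nat_lit 0) (nat_lit 0) (nat_lit 0) (nat_lit 0x80029938e) (nat_lit 1073741824),
  Rx.mk (nat_lit 373) (nat_lit 5) (nat_lit 6) (nat_lit 5) (nat_lit 7) (nat_lit 245) (nat_lit 188) r7_245 r8_188 (nat_lit 0) (nat_lit 0) (nat_lit 0) (nat_lit 0x80029938e) (nat_lit 1073741824)]
noncomputable def e25_16 : List Rx := [
  Rx.mk (nat_lit 356) (nat_lit 4) (nat_lit 4) (nat_lit 5) (nat_lit 4) (nat_lit 246) (nat_lit 248) r7_246 r8_248 (nat_lit 9806922) (nat_lit 18822904) (nat_lit 0) (nat_lit 0x645205e84) (nat_lit 1563957550),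
  Rx.mk (nat_lit 357) (nat_lit 5) (nat_lit 4) (nat_lit 5) (nat_lit 5) (nat_lit 247) (nat_lit 249) r7_247 r8_249 (nat_lit 0) (nat_lit 5661505) (nat_lit 0) (nat_lit 0x7ff885e6a) (nat_lit 1080049829),
  Rx.mk (nat_lit 359) (nat_lit 7) (nat_lit 4) (nat_lit 5) (nat_lit 5) (nat_lit 248) (nat_lit 250) r7_248 r8_250 (nat_lit 0) (nat_lit 5449534) (nat_lit 0) (nat_lit 0x80029938e) (nat_lit 1079191358),
  Rx.mk (nat_lit 364) (nat_lit 4) (nat_lit 5) (nat_lit 5) (nat_lit 6) (nat_lit 249) (nat_lit 251) r7_249 r8_251 (nat_lit 5449534) (nat_lit 0) (nat_lit 0) (nat_lit 0x80029938e) (nat_lit 1079191358),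
  Rx.mk (nat_lit 365) (nat_lit 5) (nat_lit 5) (nat_lit 5) (nat_lit 7) (nat_lit 250) (nat_lit 252) r7_250 r8_252 (nat_lit 0) (nat_lit 0) (nat_lit 0) (nat_lit 0x80029938e) (nat_lit 1073741824),
  Rx.mk (nat_lit 367) (nat_lit 7) (nat_lit 5) (nat_lit 5) (nat_lit 7) (nat_lit 251) (nat_lit 253) r7_251 r8_253 (nat_lit 0) (nat_lit 0) (nat_lit 0) (nat_lit 0x80029938e) (nat_lit 1073741824),
  Rx.mk (nat_lit 372) (nat_lit 4) (nat_lit 6) (nat_lit 5) (nat_lit 6) (nat_lit 252) (nat_lit 254) r7_252 r8_254 (nat_lit 5560769) (nat_lit 0) (nat_lit 0) (nat_lit 0x800073c4e) (nat_lit 1079440193),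
  Rx.mk (nat_lit 373) (nat_lit 5) (nat_lit 6) (nat_lit 5) (nat_lit 7) (nat_lit 253) (nat_lit 255) r7_253 r8_255 (nat_lit 0) (nat_lit 0) (nat_lit 0) (nat_lit 0x80029938e) (nat_lit 1073741824),
  Rx.mk (nat_lit 374) (nat_lit 6) (nat_lit 6) (nat_lit 5) (nat_lit 7) (nat_lit 254) (nat_lit 256) r7_254 r8_256 (nat_lit 0) (nat_lit 0) (nat_lit 0) (nat_lit 0x80029938e) (nat_lit 1073741824)]
noncomputable def e25_17 : List Rx := [
  Rx.mk (nat_lit 292) (nat_lit 4) (nat_lit 4) (nat_lit 4) (nat_lit 0) (nat_lit 204) (nat_lit 170) r7_204 r9_170 (nat_lit 5426102) (nat_lit 3541065) (nat_lit 3490957) (nat_lit 0x36db834e6) (nat_lit 2305784648),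
  Rx.mk (nat_lit 295) (nat_lit 7) (nat_lit 4) (nat_lit 4) (nat_lit 1) (nat_lit 207) (nat_lit 176) r7_207 r9_176 (nat_lit 0) (nat_lit 7551398) (nat_lit 7072192) (nat_lit 0x6f426cc38) (nat_lit 1367563814),
  Rx.mk (nat_lit 308) (nat_lit 4) (nat_lit 6) (nat_lit 4) (nat_lit 2) (nat_lit 210) (nat_lit 172) r7_210 r9_172 (nat_lit 8284346) (nat_lit 0) (nat_lit 8202458) (nat_lit 0x6b8996482) (nat_lit 1431483228),
  Rx.mk (nat_lit 310) (nat_lit 6) (nat_lit 6) (nat_lit 4) (nat_lit 3) (nat_lit 213) (nat_lit 180) r7_213 r9_180 (nat_lit 0) (nat_lit 0) (nat_lit 5449534) (nat_lit 0x7ffcbd500) (nat_lit 1079567158),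
  Rx.mk (nat_lit 356) (nat_lit 4) (nat_lit 4) (nat_lit 5) (nat_lit 4) (nat_lit 205) (nat_lit 171) r7_205 r9_171 (nat_lit 9592768) (nat_lit 7908726) (nat_lit 0) (nat_lit 0x655f6e5e8) (nat_lit 1535282018),
  Rx.mk (nat_lit 357) (nat_lit 5) (nat_lit 4) (nat_lit 5) (nat_lit 5) (nat_lit 206) (nat_lit 174) r7_206 r9_174 (nat_lit 0) (nat_lit 5575825) (nat_lit 0) (nat_lit 0x7ffab038e) (nat_lit 1079825149),
  Rx.mk (nat_lit 359) (nat_lit 7) (nat_lit 4) (nat_lit 5) (nat_lit 5) (nat_lit 208) (nat_lit 177) r7_208 r9_177 (nat_lit 0) (nat_lit 5449534) (nat_lit 0) (nat_lit 0x80029938e) (nat_lit 1079191358),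
  Rx.mk (nat_lit 372) (nat_lit 4) (nat_lit 6) (nat_lit 5) (nat_lit 6) (nat_lit 211) (nat_lit 173) r7_211 r9_173 (nat_lit 5542978) (nat_lit 0) (nat_lit 0) (nat_lit 0x7ffdca448) (nat_lit 1079593202),
  Rx.mk (nat_lit 373) (nat_lit 5) (nat_lit 6) (nat_lit 5) (nat_lit 7) (nat_lit 212) (nat_lit 175) r7_212 r9_175 (nat_lit 0) (nat_lit 0) (nat_lit 0) (nat_lit 0x80029938e) (nat_lit 1073741824),
  Rx.mk (nat_lit 374) (nat_lit 6) (nat_lit 6) (nat_lit 5) (nat_lit 7) (nat_lit 214) (nat_lit 181) r7_214 r9_181 (nat_lit 0) (nat_lit 0) (nat_lit 0) (nat_lit 0x80029938e) (nat_lit 1073741824),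
  Rx.mk (nat_lit 438) (nat_lit 6) (nat_lit 6) (nat_lit 6) (nat_lit 7) (nat_lit 215) (nat_lit 182) r7_215 r9_182 (nat_lit 0) (nat_lit 0) (nat_lit 0) (nat_lit 0x80029938e) (nat_lit 1073741824),
  Rx.mk (nat_lit 487) (nat_lit 7) (nat_lit 4) (nat_lit 7) (nat_lit 5) (nat_lit 209) (nat_lit 178) r7_209 r9_178 (nat_lit 0) (nat_lit 5449534) (nat_lit 0) (nat_lit 0x80029938e) (nat_lit 1079191358),
  Rx.mk (nat_lit 511) (nat_lit 7) (nat_lit 7) (nat_lit 7) (nat_lit 7) (nat_lit 216) (nat_lit 179) r7_216 r9_179 (nat_lit 0) (nat_lit 0) (nat_lit 0) (nat_lit 0x80029938e) (nat_lit 1073741824)]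
noncomputable def e25_18 : List Rx := [
  Rx.mk (nat_lit 100) (nat_lit 4) (nat_lit 4) (nat_lit 1) (nat_lit 4) (nat_lit 223) (nat_lit 265) r7_223 r4_265 (nat_lit 10345136) (nat_lit 34184311) (nat_lit 0) (nat_lit 0x6ebe1e59e) (nat_lit 1406084271),
  Rx.mk (nat_lit 101) (nat_lit 5) (nat_lit 4) (nat_lit 1) (nat_lit 5) (nat_lit 224) (nat_lit 266) r7_224 r4_266 (nat_lit 0) (nat_lit 5449534) (nat_lit 0) (nat_lit 0x80029938e) (nat_lit 1079191358),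
  Rx.mk (nat_lit 103) (nat_lit 7) (nat_lit 4) (nat_lit 1) (nat_lit 5) (nat_lit 225) (nat_lit 267) r7_225 r4_267 (nat_lit 0) (nat_lit 4321044) (nat_lit 0) (nat_lit 0x800f26f02) (nat_lit 1077257068),
  Rx.mk (nat_lit 108) (nat_lit 4) (nat_lit 5) (nat_lit 1) (nat_lit 6) (nat_lit 226) (nat_lit 268) r7_226 r4_268 (nat_lit 4100018) (nat_lit 0) (nat_lit 0) (nat_lit 0x801ea5dd4) (nat_lit 1076046742),
  Rx.mk (nat_lit 109) (nat_lit 5) (nat_lit 5) (nat_lit 1) (nat_lit 7) (nat_lit 227) (nat_lit 269) r7_227 r4_269 (nat_lit 0) (nat_lit 0) (nat_lit 0) (nat_lit 0x80029938e) (nat_lit 1073741824),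
  Rx.mk (nat_lit 111) (nat_lit 7) (nat_lit 5) (nat_lit 1) (nat_lit 7) (nat_lit 228) (nat_lit 270) r7_228 r4_270 (nat_lit 0) (nat_lit 0) (nat_lit 0) (nat_lit 0x80029938e) (nat_lit 1073741824)]
noncomputable def e25_19 : List Rx := [
  Rx.mk (nat_lit 100) (nat_lit 4) (nat_lit 4) (nat_lit 1) (nat_lit 4) (nat_lit 255) (nat_lit 183) r7_255 r10_183 (nat_lit 2862197) (nat_lit 3562106) (nat_lit 0) (nat_lit 0x6f8080cd6) (nat_lit 1355313627),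
  Rx.mk (nat_lit 101) (nat_lit 5) (nat_lit 4) (nat_lit 1) (nat_lit 5) (nat_lit 256) (nat_lit 185) r7_256 r10_185 (nat_lit 0) (nat_lit 5449534) (nat_lit 0) (nat_lit 0x80029938e) (nat_lit 1079191358),
  Rx.mk (nat_lit 103) (nat_lit 7) (nat_lit 4) (nat_lit 1) (nat_lit 5) (nat_lit 257) (nat_lit 187) r7_257 r10_187 (nat_lit 0) (nat_lit 5449534) (nat_lit 0) (nat_lit 0x80029938e) (nat_lit 1079191358),
  Rx.mk (nat_lit 108) (nat_lit 4) (nat_lit 5) (nat_lit 1) (nat_lit 6) (nat_lit 259) (nat_lit 184) r7_259 r10_184 (nat_lit 5449534) (nat_lit 0) (nat_lit 0) (nat_lit 0x80029938e) (nat_lit 1079191358),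
  Rx.mk (nat_lit 109) (nat_lit 5) (nat_lit 5) (nat_lit 1) (nat_lit 7) (nat_lit 260) (nat_lit 186) r7_260 r10_186 (nat_lit 0) (nat_lit 0) (nat_lit 0) (nat_lit 0x80029938e) (nat_lit 1073741824),
  Rx.mk (nat_lit 111) (nat_lit 7) (nat_lit 5) (nat_lit 1) (nat_lit 7) (nat_lit 261) (nat_lit 189) r7_261 r10_189 (nat_lit 0) (nat_lit 0) (nat_lit 0) (nat_lit 0x80029938e) (nat_lit 1073741824),
  Rx.mk (nat_lit 359) (nat_lit 7) (nat_lit 4) (nat_lit 5) (nat_lit 5) (nat_lit 258) (nat_lit 188) r7_258 r10_188 (nat_lit 0) (nat_lit 5449534) (nat_lit 0) (nat_lit 0x80029938e) (nat_lit 1079191358),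
  Rx.mk (nat_lit 367) (nat_lit 7) (nat_lit 5) (nat_lit 5) (nat_lit 7) (nat_lit 262) (nat_lit 190) r7_262 r10_190 (nat_lit 0) (nat_lit 0) (nat_lit 0) (nat_lit 0x80029938e) (nat_lit 1073741824)]
noncomputable def e25_20 : List Rx := [
  Rx.mk (nat_lit 100) (nat_lit 4) (nat_lit 4) (nat_lit 1) (nat_lit 4) (nat_lit 263) (nat_lit 212) r7_263 r11_212 (nat_lit 140034131) (nat_lit 27051137) (nat_lit 0) (nat_lit 0x7b544a5ac) (nat_lit 1318788992),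
  Rx.mk (nat_lit 101) (nat_lit 5) (nat_lit 4) (nat_lit 1) (nat_lit 5) (nat_lit 264) (nat_lit 214) r7_264 r11_214 (nat_lit 0) (nat_lit 5449534) (nat_lit 0) (nat_lit 0x80029938e) (nat_lit 1079191358),
  Rx.mk (nat_lit 103) (nat_lit 7) (nat_lit 4) (nat_lit 1) (nat_lit 5) (nat_lit 265) (nat_lit 216) r7_265 r11_216 (nat_lit 0) (nat_lit 5449534) (nat_lit 0) (nat_lit 0x80029938e) (nat_lit 1079191358),
  Rx.mk (nat_lit 108) (nat_lit 4) (nat_lit 5) (nat_lit 1) (nat_lit 6) (nat_lit 266) (nat_lit 213) r7_266 r11_213 (nat_lit 5449534) (nat_lit 0) (nat_lit 0) (nat_lit 0x80029938e) (nat_lit 1079191358),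
  Rx.mk (nat_lit 109) (nat_lit 5) (nat_lit 5) (nat_lit 1) (nat_lit 7) (nat_lit 267) (nat_lit 215) r7_267 r11_215 (nat_lit 0) (nat_lit 0) (nat_lit 0) (nat_lit 0x80029938e) (nat_lit 1073741824),
  Rx.mk (nat_lit 111) (nat_lit 7) (nat_lit 5) (nat_lit 1) (nat_lit 7) (nat_lit 268) (nat_lit 217) r7_268 r11_217 (nat_lit 0) (nat_lit 0) (nat_lit 0) (nat_lit 0x80029938e) (nat_lit 1073741824),
  Rx.mk (nat_lit 127) (nat_lit 7) (nat_lit 7) (nat_lit 1) (nat_lit 7) (nat_lit 269) (nat_lit 218) r7_269 r11_218 (nat_lit 0) (nat_lit 0) (nat_lit 0) (nat_lit 0x80029938e) (nat_lit 1073741824)]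
noncomputable def e25_21 : List Rx := [
  Rx.mk (nat_lit 292) (nat_lit 4) (nat_lit 4) (nat_lit 4) (nat_lit 0) (nat_lit 161) (nat_lit 68) r7_161 r9_68 (nat_lit 11576654) (nat_lit 3477128) (nat_lit 3385952) (nat_lit 0x34c2f965c) (nat_lit 2346711858),
  Rx.mk (nat_lit 295) (nat_lit 7) (nat_lit 4) (nat_lit 4) (nat_lit 1) (nat_lit 163) (nat_lit 70) r7_163 r9_70 (nat_lit 0) (nat_lit 5437810) (nat_lit 4914479) (nat_lit 0x6b8d41d70) (nat_lit 1425110413),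
  Rx.mk (nat_lit 308) (nat_lit 4) (nat_lit 6) (nat_lit 4) (nat_lit 2) (nat_lit 166) (nat_lit 74) r7_166 r9_74 (nat_lit 7900979) (nat_lit 0) (nat_lit 6241714) (nat_lit 0x694fdda3a) (nat_lit 1466245017),
  Rx.mk (nat_lit 310) (nat_lit 6) (nat_lit 6) (nat_lit 4) (nat_lit 3) (nat_lit 168) (nat_lit 79) r7_168 r9_79 (nat_lit 0) (nat_lit 0) (nat_lit 5449534) (nat_lit 0x7ff64ac54) (nat_lit 1079981358),
  Rx.mk (nat_lit 311) (nat_lit 7) (nat_lit 6) (nat_lit 4) (nat_lit 3) (nat_lit 171) (nat_lit 76) r7_171 r9_76 (nat_lit 0) (nat_lit 0) (nat_lit 5449534) (nat_lit 0x7ff6b914a) (nat_lit 1079953558),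
  Rx.mk (nat_lit 356) (nat_lit 4) (nat_lit 4) (nat_lit 5) (nat_lit 4) (nat_lit 162) (nat_lit 69) r7_162 r9_69 (nat_lit 44159155) (nat_lit 7389909) (nat_lit 0) (nat_lit 0x66138ffea) (nat_lit 1557598988),
  Rx.mk (nat_lit 359) (nat_lit 7) (nat_lit 4) (nat_lit 5) (nat_lit 5) (nat_lit 164) (nat_lit 71) r7_164 r9_71 (nat_lit 0) (nat_lit 5449534) (nat_lit 0) (nat_lit 0x80029938e) (nat_lit 1079191358),
  Rx.mk (nat_lit 372) (nat_lit 4) (nat_lit 6) (nat_lit 5) (nat_lit 6) (nat_lit 167) (nat_lit 75) r7_167 r9_75 (nat_lit 5449534) (nat_lit 0) (nat_lit 0) (nat_lit 0x7fffb0fc8) (nat_lit 1079377758),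
  Rx.mk (nat_lit 374) (nat_lit 6) (nat_lit 6) (nat_lit 5) (nat_lit 7) (nat_lit 169) (nat_lit 80) r7_169 r9_80 (nat_lit 0) (nat_lit 0) (nat_lit 0) (nat_lit 0x80029938e) (nat_lit 1073741824),
  Rx.mk (nat_lit 375) (nat_lit 7) (nat_lit 6) (nat_lit 5) (nat_lit 7) (nat_lit 172) (nat_lit 77) r7_172 r9_77 (nat_lit 0) (nat_lit 0) (nat_lit 0) (nat_lit 0x80029938e) (nat_lit 1073741824),
  Rx.mk (nat_lit 406) (nat_lit 6) (nat_lit 2) (nat_lit 6) (nat_lit 7) (nat_lit 160) (nat_lit 82) r7_160 r9_82 (nat_lit 0) (nat_lit 0) (nat_lit 0) (nat_lit 0x80029938e) (nat_lit 1073741824),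
  Rx.mk (nat_lit 438) (nat_lit 6) (nat_lit 6) (nat_lit 6) (nat_lit 7) (nat_lit 170) (nat_lit 81) r7_170 r9_81 (nat_lit 0) (nat_lit 0) (nat_lit 0) (nat_lit 0x80029938e) (nat_lit 1073741824),
  Rx.mk (nat_lit 487) (nat_lit 7) (nat_lit 4) (nat_lit 7) (nat_lit 5) (nat_lit 165) (nat_lit 72) r7_165 r9_72 (nat_lit 0) (nat_lit 5449534) (nat_lit 0) (nat_lit 0x80029938e) (nat_lit 1079191358),
  Rx.mk (nat_lit 503) (nat_lit 7) (nat_lit 6) (nat_lit 7) (nat_lit 7) (nat_lit 173) (nat_lit 78) r7_173 r9_78 (nat_lit 0) (nat_lit 0) (nat_lit 0) (nat_lit 0x80029938e) (nat_lit 1073741824),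
  Rx.mk (nat_lit 511) (nat_lit 7) (nat_lit 7) (nat_lit 7) (nat_lit 7) (nat_lit 174) (nat_lit 73) r7_174 r9_73 (nat_lit 0) (nat_lit 0) (nat_lit 0) (nat_lit 0x80029938e) (nat_lit 1073741824)]
noncomputable def e25_22 : List Rx := [
  Rx.mk (nat_lit 24) (nat_lit 0) (nat_lit 3) (nat_lit 0) (nat_lit 2) (nat_lit 96) (nat_lit 100) r7_96 r0_100 (nat_lit 12742526) (nat_lit 0) (nat_lit 16582240) (nat_lit 0x6135e2f48) (nat_lit 1616501090),
  Rx.mk (nat_lit 27) (nat_lit 3) (nat_lit 3) (nat_lit 0) (nat_lit 3) (nat_lit 99) (nat_lit 101) r7_99 r0_101 (nat_lit 0) (nat_lit 0) (nat_lit 2775314) (nat_lit 0x6ed474154) (nat_lit 1362877338),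
  Rx.mk (nat_lit 128) (nat_lit 0) (nat_lit 0) (nat_lit 2) (nat_lit 4) (nat_lit 93) (nat_lit 105) r7_93 r0_105 (nat_lit 747955) (nat_lit 146838) (nat_lit 0) (nat_lit 0x5e9ce2aac) (nat_lit 1631332817),
  Rx.mk (nat_lit 130) (nat_lit 2) (nat_lit 0) (nat_lit 2) (nat_lit 5) (nat_lit 94) (nat_lit 108) r7_94 r0_108 (nat_lit 0) (nat_lit 4219351) (nat_lit 0) (nat_lit 0x735136a1c) (nat_lit 1289505675),
  Rx.mk (nat_lit 146) (nat_lit 2) (nat_lit 2) (nat_lit 2) (nat_lit 7) (nat_lit 95) (nat_lit 110) r7_95 r0_110 (nat_lit 0) (nat_lit 0) (nat_lit 0) (nat_lit 0x7ff997768) (nat_lit 1074319724),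
  Rx.mk (nat_lit 152) (nat_lit 0) (nat_lit 3) (nat_lit 2) (nat_lit 6) (nat_lit 97) (nat_lit 106) r7_97 r0_106 (nat_lit 26061368) (nat_lit 0) (nat_lit 0) (nat_lit 0x7f3c3650c) (nat_lit 1112650392),
  Rx.mk (nat_lit 154) (nat_lit 2) (nat_lit 3) (nat_lit 2) (nat_lit 7) (nat_lit 98) (nat_lit 109) r7_98 r0_109 (nat_lit 0) (nat_lit 0) (nat_lit 0) (nat_lit 0x7ff9f25aa) (nat_lit 1074297324),
  Rx.mk (nat_lit 155) (nat_lit 3) (nat_lit 3) (nat_lit 2) (nat_lit 7) (nat_lit 100) (nat_lit 107) r7_100 r0_107 (nat_lit 0) (nat_lit 0) (nat_lit 0) (nat_lit 0x7fecaec36) (nat_lit 1075148224),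
  Rx.mk (nat_lit 219) (nat_lit 3) (nat_lit 3) (nat_lit 3) (nat_lit 7) (nat_lit 101) (nat_lit 102) r7_101 r0_102 (nat_lit 0) (nat_lit 0) (nat_lit 0) (nat_lit 0x7f8d00f78) (nat_lit 1081343624),
  Rx.mk (nat_lit 251) (nat_lit 3) (nat_lit 7) (nat_lit 3) (nat_lit 7) (nat_lit 102) (nat_lit 103) r7_102 r0_103 (nat_lit 0) (nat_lit 0) (nat_lit 0) (nat_lit 0x80029938e) (nat_lit 1073741824),
  Rx.mk (nat_lit 255) (nat_lit 7) (nat_lit 7) (nat_lit 3) (nat_lit 7) (nat_lit 103) (nat_lit 104) r7_103 r0_104 (nat_lit 0) (nat_lit 0) (nat_lit 0) (nat_lit 0x7ff7bb07a) (nat_lit 1074439424)]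
noncomputable def e25_23 : List Rx := [
  Rx.mk (nat_lit 0) (nat_lit 0) (nat_lit 0) (nat_lit 0) (nat_lit 0) (nat_lit 126) (nat_lit 107) r7_126 r1_107 (nat_lit 10629653) (nat_lit 861237) (nat_lit 1562278) (nat_lit 0x3d73cabcc) (nat_lit 2196411992),
  Rx.mk (nat_lit 24) (nat_lit 0) (nat_lit 3) (nat_lit 0) (nat_lit 2) (nat_lit 130) (nat_lit 108) r7_130 r1_108 (nat_lit 181791674) (nat_lit 0) (nat_lit 16900660) (nat_lit 0x795055188) (nat_lit 1384004258),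
  Rx.mk (nat_lit 27) (nat_lit 3) (nat_lit 3) (nat_lit 0) (nat_lit 3) (nat_lit 133) (nat_lit 109) r7_133 r1_109 (nat_lit 0) (nat_lit 0) (nat_lit 4413768) (nat_lit 0x800030c78) (nat_lit 1078308092),
  Rx.mk (nat_lit 128) (nat_lit 0) (nat_lit 0) (nat_lit 2) (nat_lit 4) (nat_lit 127) (nat_lit 111) r7_127 r1_111 (nat_lit 2019292) (nat_lit 764768) (nat_lit 0) (nat_lit 0x637a26ad6) (nat_lit 1552157184),
  Rx.mk (nat_lit 130) (nat_lit 2) (nat_lit 0) (nat_lit 2) (nat_lit 5) (nat_lit 128) (nat_lit 114) r7_128 r1_114 (nat_lit 0) (nat_lit 3945399) (nat_lit 0) (nat_lit 0x7a30f8c9e) (nat_lit 1174620723),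
  Rx.mk (nat_lit 146) (nat_lit 2) (nat_lit 2) (nat_lit 2) (nat_lit 7) (nat_lit 129) (nat_lit 116) r7_129 r1_116 (nat_lit 0) (nat_lit 0) (nat_lit 0) (nat_lit 0x80029938e) (nat_lit 1073741824),
  Rx.mk (nat_lit 152) (nat_lit 0) (nat_lit 3) (nat_lit 2) (nat_lit 6) (nat_lit 131) (nat_lit 112) r7_131 r1_112 (nat_lit 6527677) (nat_lit 0) (nat_lit 0) (nat_lit 0x7ff713d3e) (nat_lit 1081006201),
  Rx.mk (nat_lit 154) (nat_lit 2) (nat_lit 3) (nat_lit 2) (nat_lit 7) (nat_lit 132) (nat_lit 115) r7_132 r1_115 (nat_lit 0) (nat_lit 0) (nat_lit 0) (nat_lit 0x80029938e) (nat_lit 1073741824),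
  Rx.mk (nat_lit 155) (nat_lit 3) (nat_lit 3) (nat_lit 2) (nat_lit 7) (nat_lit 134) (nat_lit 113) r7_134 r1_113 (nat_lit 0) (nat_lit 0) (nat_lit 0) (nat_lit 0x8017d4d3e) (nat_lit 1072381924),
  Rx.mk (nat_lit 219) (nat_lit 3) (nat_lit 3) (nat_lit 3) (nat_lit 7) (nat_lit 135) (nat_lit 110) r7_135 r1_110 (nat_lit 0) (nat_lit 0) (nat_lit 0) (nat_lit 0x80029938e) (nat_lit 1073741824)]
noncomputable def e25_24 : List Rx := [
  Rx.mk (nat_lit 24) (nat_lit 0) (nat_lit 3) (nat_lit 0) (nat_lit 2) (nat_lit 175) (nat_lit 98) r7_175 r4_98 (nat_lit 13528971) (nat_lit 0) (nat_lit 2244627) (nat_lit 0x667a08362) (nat_lit 1515142422),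
  Rx.mk (nat_lit 27) (nat_lit 3) (nat_lit 3) (nat_lit 0) (nat_lit 3) (nat_lit 178) (nat_lit 99) r7_178 r4_99 (nat_lit 0) (nat_lit 0) (nat_lit 2541329) (nat_lit 0x7e988d356) (nat_lit 1099798353),
  Rx.mk (nat_lit 59) (nat_lit 3) (nat_lit 7) (nat_lit 0) (nat_lit 3) (nat_lit 181) (nat_lit 100) r7_181 r4_100 (nat_lit 0) (nat_lit 0) (nat_lit 3253254) (nat_lit 0x802f743a4) (nat_lit 1074127178),
  Rx.mk (nat_lit 152) (nat_lit 0) (nat_lit 3) (nat_lit 2) (nat_lit 6) (nat_lit 176) (nat_lit 104) r7_176 r4_104 (nat_lit 7450969) (nat_lit 0) (nat_lit 0) (nat_lit 0x7fd285fbc) (nat_lit 1084281793),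
  Rx.mk (nat_lit 154) (nat_lit 2) (nat_lit 3) (nat_lit 2) (nat_lit 7) (nat_lit 177) (nat_lit 106) r7_177 r4_106 (nat_lit 0) (nat_lit 0) (nat_lit 0) (nat_lit 0x80029938e) (nat_lit 1073741824),
  Rx.mk (nat_lit 155) (nat_lit 3) (nat_lit 3) (nat_lit 2) (nat_lit 7) (nat_lit 179) (nat_lit 105) r7_179 r4_105 (nat_lit 0) (nat_lit 0) (nat_lit 0) (nat_lit 0x807650df4) (nat_lit 1066373124),
  Rx.mk (nat_lit 231) (nat_lit 7) (nat_lit 4) (nat_lit 3) (nat_lit 5) (nat_lit 180) (nat_lit 102) r7_180 r4_102 (nat_lit 0) (nat_lit 3003842) (nat_lit 0) (nat_lit 0x801bcccc0) (nat_lit 1075130666),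
  Rx.mk (nat_lit 251) (nat_lit 3) (nat_lit 7) (nat_lit 3) (nat_lit 7) (nat_lit 182) (nat_lit 101) r7_182 r4_101 (nat_lit 0) (nat_lit 0) (nat_lit 0) (nat_lit 0x80029938e) (nat_lit 1073741824),
  Rx.mk (nat_lit 255) (nat_lit 7) (nat_lit 7) (nat_lit 3) (nat_lit 7) (nat_lit 183) (nat_lit 103) r7_183 r4_103 (nat_lit 0) (nat_lit 0) (nat_lit 0) (nat_lit 0x80029938e) (nat_lit 1073741824)]
noncomputable def e25_25 : List Rx := [
  Rx.mk (nat_lit 24) (nat_lit 0) (nat_lit 3) (nat_lit 0) (nat_lit 2) (nat_lit 109) (nat_lit 117) r7_109 r7_117 (nat_lit 152198) (nat_lit 0) (nat_lit 126869) (nat_lit 0x6481272c6) (nat_lit 1532484491),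
  Rx.mk (nat_lit 27) (nat_lit 3) (nat_lit 3) (nat_lit 0) (nat_lit 3) (nat_lit 112) (nat_lit 119) r7_112 r7_119 (nat_lit 0) (nat_lit 0) (nat_lit 1677355) (nat_lit 0x7fc971d40) (nat_lit 1079107579),
  Rx.mk (nat_lit 128) (nat_lit 0) (nat_lit 0) (nat_lit 2) (nat_lit 4) (nat_lit 104) (nat_lit 115) r7_104 r7_115 (nat_lit 152198) (nat_lit 126869) (nat_lit 0) (nat_lit 0x6481272c6) (nat_lit 1532484491),
  Rx.mk (nat_lit 130) (nat_lit 2) (nat_lit 0) (nat_lit 2) (nat_lit 5) (nat_lit 105) (nat_lit 116) r7_105 r7_116 (nat_lit 0) (nat_lit 1677355) (nat_lit 0) (nat_lit 0x7fc971d40) (nat_lit 1079107579),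
  Rx.mk (nat_lit 146) (nat_lit 2) (nat_lit 2) (nat_lit 2) (nat_lit 7) (nat_lit 106) (nat_lit 125) r7_106 r7_125 (nat_lit 0) (nat_lit 0) (nat_lit 0) (nat_lit 0x80029938e) (nat_lit 1073741824),
  Rx.mk (nat_lit 152) (nat_lit 0) (nat_lit 3) (nat_lit 2) (nat_lit 6) (nat_lit 110) (nat_lit 118) r7_110 r7_118 (nat_lit 6216449) (nat_lit 0) (nat_lit 0) (nat_lit 0x7f3437dba) (nat_lit 1093328873),
  Rx.mk (nat_lit 154) (nat_lit 2) (nat_lit 3) (nat_lit 2) (nat_lit 7) (nat_lit 111) (nat_lit 122) r7_111 r7_122 (nat_lit 0) (nat_lit 0) (nat_lit 0) (nat_lit 0x802fbebfc) (nat_lit 1070857524),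
  Rx.mk (nat_lit 155) (nat_lit 3) (nat_lit 3) (nat_lit 2) (nat_lit 7) (nat_lit 113) (nat_lit 121) r7_113 r7_121 (nat_lit 0) (nat_lit 0) (nat_lit 0) (nat_lit 0x802fbebfc) (nat_lit 1070857524),
  Rx.mk (nat_lit 219) (nat_lit 3) (nat_lit 3) (nat_lit 3) (nat_lit 7) (nat_lit 114) (nat_lit 120) r7_114 r7_120 (nat_lit 0) (nat_lit 0) (nat_lit 0) (nat_lit 0x80029938e) (nat_lit 1073741824),
  Rx.mk (nat_lit 251) (nat_lit 3) (nat_lit 7) (nat_lit 3) (nat_lit 7) (nat_lit 123) (nat_lit 108) r7_123 r7_108 (nat_lit 0) (nat_lit 0) (nat_lit 0) (nat_lit 0x80029938e) (nat_lit 1073741824),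
  Rx.mk (nat_lit 255) (nat_lit 7) (nat_lit 7) (nat_lit 3) (nat_lit 7) (nat_lit 124) (nat_lit 107) r7_124 r7_107 (nat_lit 0) (nat_lit 0) (nat_lit 0) (nat_lit 0x80029938e) (nat_lit 1073741824),
  Rx.mk (nat_lit 308) (nat_lit 4) (nat_lit 6) (nat_lit 4) (nat_lit 2) (nat_lit 117) (nat_lit 109) r7_117 r7_109 (nat_lit 152198) (nat_lit 0) (nat_lit 126869) (nat_lit 0x6481272c6) (nat_lit 1532484491),
  Rx.mk (nat_lit 310) (nat_lit 6) (nat_lit 6) (nat_lit 4) (nat_lit 3) (nat_lit 119) (nat_lit 112) r7_119 r7_112 (nat_lit 0) (nat_lit 0) (nat_lit 1677355) (nat_lit 0x7fc971d40) (nat_lit 1079107579),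
  Rx.mk (nat_lit 402) (nat_lit 2) (nat_lit 2) (nat_lit 6) (nat_lit 7) (nat_lit 107) (nat_lit 124) r7_107 r7_124 (nat_lit 0) (nat_lit 0) (nat_lit 0) (nat_lit 0x80029938e) (nat_lit 1073741824),
  Rx.mk (nat_lit 406) (nat_lit 6) (nat_lit 2) (nat_lit 6) (nat_lit 7) (nat_lit 108) (nat_lit 123) r7_108 r7_123 (nat_lit 0) (nat_lit 0) (nat_lit 0) (nat_lit 0x80029938e) (nat_lit 1073741824),
  Rx.mk (nat_lit 438) (nat_lit 6) (nat_lit 6) (nat_lit 6) (nat_lit 7) (nat_lit 120) (nat_lit 114) r7_120 r7_114 (nat_lit 0) (nat_lit 0) (nat_lit 0) (nat_lit 0x80029938e) (nat_lit 1073741824),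
  Rx.mk (nat_lit 484) (nat_lit 4) (nat_lit 4) (nat_lit 7) (nat_lit 4) (nat_lit 115) (nat_lit 104) r7_115 r7_104 (nat_lit 152198) (nat_lit 126869) (nat_lit 0) (nat_lit 0x6481272c6) (nat_lit 1532484491),
  Rx.mk (nat_lit 487) (nat_lit 7) (nat_lit 4) (nat_lit 7) (nat_lit 5) (nat_lit 116) (nat_lit 105) r7_116 r7_105 (nat_lit 0) (nat_lit 1677355) (nat_lit 0) (nat_lit 0x7fc971d40) (nat_lit 1079107579),
  Rx.mk (nat_lit 500) (nat_lit 4) (nat_lit 6) (nat_lit 7) (nat_lit 6) (nat_lit 118) (nat_lit 110) r7_118 r7_110 (nat_lit 6216449) (nat_lit 0) (nat_lit 0) (nat_lit 0x7f3437dba) (nat_lit 1093328873),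
  Rx.mk (nat_lit 502) (nat_lit 6) (nat_lit 6) (nat_lit 7) (nat_lit 7) (nat_lit 121) (nat_lit 113) r7_121 r7_113 (nat_lit 0) (nat_lit 0) (nat_lit 0) (nat_lit 0x802fbebfc) (nat_lit 1070857524),
  Rx.mk (nat_lit 503) (nat_lit 7) (nat_lit 6) (nat_lit 7) (nat_lit 7) (nat_lit 122) (nat_lit 111) r7_122 r7_111 (nat_lit 0) (nat_lit 0) (nat_lit 0) (nat_lit 0x802fbebfc) (nat_lit 1070857524),
  Rx.mk (nat_lit 511) (nat_lit 7) (nat_lit 7) (nat_lit 7) (nat_lit 7) (nat_lit 125) (nat_lit 106) r7_125 r7_106 (nat_lit 0) (nat_lit 0) (nat_lit 0) (nat_lit 0x80029938e) (nat_lit 1073741824)]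
noncomputable def e25_26 : List Rx := [
  Rx.mk (nat_lit 0) (nat_lit 0) (nat_lit 0) (nat_lit 0) (nat_lit 0) (nat_lit 136) (nat_lit 78) r7_136 r8_78 (nat_lit 9910720) (nat_lit 3697174) (nat_lit 3078217) (nat_lit 0x365589f52) (nat_lit 2318735535),
  Rx.mk (nat_lit 24) (nat_lit 0) (nat_lit 3) (nat_lit 0) (nat_lit 2) (nat_lit 142) (nat_lit 81) r7_142 r8_81 (nat_lit 2289832) (nat_lit 0) (nat_lit 2813309) (nat_lit 0x6a26a4636) (nat_lit 1443213565),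
  Rx.mk (nat_lit 27) (nat_lit 3) (nat_lit 3) (nat_lit 0) (nat_lit 3) (nat_lit 145) (nat_lit 83) r7_145 r8_83 (nat_lit 0) (nat_lit 0) (nat_lit 5449534) (nat_lit 0x7ffa30abc) (nat_lit 1079730858),
  Rx.mk (nat_lit 128) (nat_lit 0) (nat_lit 0) (nat_lit 2) (nat_lit 4) (nat_lit 137) (nat_lit 79) r7_137 r8_79 (nat_lit 5833776) (nat_lit 5820576) (nat_lit 0) (nat_lit 0x62f217bb8) (nat_lit 1569901976),
  Rx.mk (nat_lit 130) (nat_lit 2) (nat_lit 0) (nat_lit 2) (nat_lit 5) (nat_lit 138) (nat_lit 80) r7_138 r8_80 (nat_lit 0) (nat_lit 3594568) (nat_lit 0) (nat_lit 0x7ff2cfe44) (nat_lit 1078347292),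
  Rx.mk (nat_lit 146) (nat_lit 2) (nat_lit 2) (nat_lit 2) (nat_lit 7) (nat_lit 139) (nat_lit 89) r7_139 r8_89 (nat_lit 0) (nat_lit 0) (nat_lit 0) (nat_lit 0x80029938e) (nat_lit 1073741824),
  Rx.mk (nat_lit 152) (nat_lit 0) (nat_lit 3) (nat_lit 2) (nat_lit 6) (nat_lit 143) (nat_lit 82) r7_143 r8_82 (nat_lit 5449534) (nat_lit 0) (nat_lit 0) (nat_lit 0x7ffb2a422) (nat_lit 1079668258),
  Rx.mk (nat_lit 154) (nat_lit 2) (nat_lit 3) (nat_lit 2) (nat_lit 7) (nat_lit 144) (nat_lit 86) r7_144 r8_86 (nat_lit 0) (nat_lit 0) (nat_lit 0) (nat_lit 0x80029938e) (nat_lit 1073741824),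
  Rx.mk (nat_lit 155) (nat_lit 3) (nat_lit 3) (nat_lit 2) (nat_lit 7) (nat_lit 146) (nat_lit 85) r7_146 r8_85 (nat_lit 0) (nat_lit 0) (nat_lit 0) (nat_lit 0x80029938e) (nat_lit 1073741824),
  Rx.mk (nat_lit 219) (nat_lit 3) (nat_lit 3) (nat_lit 3) (nat_lit 7) (nat_lit 147) (nat_lit 84) r7_147 r8_84 (nat_lit 0) (nat_lit 0) (nat_lit 0) (nat_lit 0x80029938e) (nat_lit 1073741824),
  Rx.mk (nat_lit 402) (nat_lit 2) (nat_lit 2) (nat_lit 6) (nat_lit 7) (nat_lit 140) (nat_lit 88) r7_140 r8_88 (nat_lit 0) (nat_lit 0) (nat_lit 0) (nat_lit 0x80029938e) (nat_lit 1073741824),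
  Rx.mk (nat_lit 406) (nat_lit 6) (nat_lit 2) (nat_lit 6) (nat_lit 7) (nat_lit 141) (nat_lit 87) r7_141 r8_87 (nat_lit 0) (nat_lit 0) (nat_lit 0) (nat_lit 0x80029938e) (nat_lit 1073741824)]
noncomputable def e25_27 : List Rx := [
  Rx.mk (nat_lit 292) (nat_lit 4) (nat_lit 4) (nat_lit 4) (nat_lit 0) (nat_lit 150) (nat_lit 78) r7_150 r8_78 (nat_lit 9910720) (nat_lit 3078217) (nat_lit 3697174) (nat_lit 0x365589f52) (nat_lit 2318735535),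
  Rx.mk (nat_lit 308) (nat_lit 4) (nat_lit 6) (nat_lit 4) (nat_lit 2) (nat_lit 153) (nat_lit 79) r7_153 r8_79 (nat_lit 5833776) (nat_lit 0) (nat_lit 5820576) (nat_lit 0x62f217bb8) (nat_lit 1569901976),
  Rx.mk (nat_lit 310) (nat_lit 6) (nat_lit 6) (nat_lit 4) (nat_lit 3) (nat_lit 155) (nat_lit 80) r7_155 r8_80 (nat_lit 0) (nat_lit 0) (nat_lit 3594568) (nat_lit 0x7ff2cfe44) (nat_lit 1078347292),
  Rx.mk (nat_lit 402) (nat_lit 2) (nat_lit 2) (nat_lit 6) (nat_lit 7) (nat_lit 148) (nat_lit 87) r7_148 r8_87 (nat_lit 0) (nat_lit 0) (nat_lit 0) (nat_lit 0x80029938e) (nat_lit 1073741824),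
  Rx.mk (nat_lit 406) (nat_lit 6) (nat_lit 2) (nat_lit 6) (nat_lit 7) (nat_lit 149) (nat_lit 88) r7_149 r8_88 (nat_lit 0) (nat_lit 0) (nat_lit 0) (nat_lit 0x80029938e) (nat_lit 1073741824),
  Rx.mk (nat_lit 438) (nat_lit 6) (nat_lit 6) (nat_lit 6) (nat_lit 7) (nat_lit 156) (nat_lit 89) r7_156 r8_89 (nat_lit 0) (nat_lit 0) (nat_lit 0) (nat_lit 0x80029938e) (nat_lit 1073741824),
  Rx.mk (nat_lit 484) (nat_lit 4) (nat_lit 4) (nat_lit 7) (nat_lit 4) (nat_lit 151) (nat_lit 81) r7_151 r8_81 (nat_lit 2289832) (nat_lit 2813309) (nat_lit 0) (nat_lit 0x6a26a4636) (nat_lit 1443213565),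
  Rx.mk (nat_lit 487) (nat_lit 7) (nat_lit 4) (nat_lit 7) (nat_lit 5) (nat_lit 152) (nat_lit 83) r7_152 r8_83 (nat_lit 0) (nat_lit 5449534) (nat_lit 0) (nat_lit 0x7ffa30abc) (nat_lit 1079730858),
  Rx.mk (nat_lit 500) (nat_lit 4) (nat_lit 6) (nat_lit 7) (nat_lit 6) (nat_lit 154) (nat_lit 82) r7_154 r8_82 (nat_lit 5449534) (nat_lit 0) (nat_lit 0) (nat_lit 0x7ffb2a422) (nat_lit 1079668258),
  Rx.mk (nat_lit 502) (nat_lit 6) (nat_lit 6) (nat_lit 7) (nat_lit 7) (nat_lit 157) (nat_lit 86) r7_157 r8_86 (nat_lit 0) (nat_lit 0) (nat_lit 0) (nat_lit 0x80029938e) (nat_lit 1073741824),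
  Rx.mk (nat_lit 503) (nat_lit 7) (nat_lit 6) (nat_lit 7) (nat_lit 7) (nat_lit 158) (nat_lit 85) r7_158 r8_85 (nat_lit 0) (nat_lit 0) (nat_lit 0) (nat_lit 0x80029938e) (nat_lit 1073741824),
  Rx.mk (nat_lit 511) (nat_lit 7) (nat_lit 7) (nat_lit 7) (nat_lit 7) (nat_lit 159) (nat_lit 84) r7_159 r8_84 (nat_lit 0) (nat_lit 0) (nat_lit 0) (nat_lit 0x80029938e) (nat_lit 1073741824)]
noncomputable def e25_28 : List Rx := [
  Rx.mk (nat_lit 24) (nat_lit 0) (nat_lit 3) (nat_lit 0) (nat_lit 2) (nat_lit 184) (nat_lit 91) r7_184 r10_91 (nat_lit 207584) (nat_lit 0) (nat_lit 170865) (nat_lit 0x6d9bb3e06) (nat_lit 1380802873),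
  Rx.mk (nat_lit 27) (nat_lit 3) (nat_lit 3) (nat_lit 0) (nat_lit 3) (nat_lit 187) (nat_lit 93) r7_187 r10_93 (nat_lit 0) (nat_lit 0) (nat_lit 1738294) (nat_lit 0x80270146a) (nat_lit 1073148218),
  Rx.mk (nat_lit 59) (nat_lit 3) (nat_lit 7) (nat_lit 0) (nat_lit 3) (nat_lit 195) (nat_lit 86) r7_195 r10_86 (nat_lit 0) (nat_lit 0) (nat_lit 5449534) (nat_lit 0x80029938e) (nat_lit 1079191358),
  Rx.mk (nat_lit 152) (nat_lit 0) (nat_lit 3) (nat_lit 2) (nat_lit 6) (nat_lit 185) (nat_lit 92) r7_185 r10_92 (nat_lit 6198522) (nat_lit 0) (nat_lit 0) (nat_lit 0x7fb6ae690) (nat_lit 1084837746),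
  Rx.mk (nat_lit 154) (nat_lit 2) (nat_lit 3) (nat_lit 2) (nat_lit 7) (nat_lit 186) (nat_lit 95) r7_186 r10_95 (nat_lit 0) (nat_lit 0) (nat_lit 0) (nat_lit 0x802fa260a) (nat_lit 1070865124),
  Rx.mk (nat_lit 155) (nat_lit 3) (nat_lit 3) (nat_lit 2) (nat_lit 7) (nat_lit 188) (nat_lit 94) r7_188 r10_94 (nat_lit 0) (nat_lit 0) (nat_lit 0) (nat_lit 0x802fa6002) (nat_lit 1070864224),
  Rx.mk (nat_lit 231) (nat_lit 7) (nat_lit 4) (nat_lit 3) (nat_lit 5) (nat_lit 190) (nat_lit 84) r7_190 r10_84 (nat_lit 0) (nat_lit 5449534) (nat_lit 0) (nat_lit 0x80029938e) (nat_lit 1079191358),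
  Rx.mk (nat_lit 251) (nat_lit 3) (nat_lit 7) (nat_lit 3) (nat_lit 7) (nat_lit 196) (nat_lit 87) r7_196 r10_87 (nat_lit 0) (nat_lit 0) (nat_lit 0) (nat_lit 0x80029938e) (nat_lit 1073741824),
  Rx.mk (nat_lit 255) (nat_lit 7) (nat_lit 7) (nat_lit 3) (nat_lit 7) (nat_lit 197) (nat_lit 85) r7_197 r10_85 (nat_lit 0) (nat_lit 0) (nat_lit 0) (nat_lit 0x80029938e) (nat_lit 1073741824),
  Rx.mk (nat_lit 484) (nat_lit 4) (nat_lit 4) (nat_lit 7) (nat_lit 4) (nat_lit 189) (nat_lit 82) r7_189 r10_82 (nat_lit 207584) (nat_lit 170865) (nat_lit 0) (nat_lit 0x6d9bb3e06) (nat_lit 1380802873),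
  Rx.mk (nat_lit 487) (nat_lit 7) (nat_lit 4) (nat_lit 7) (nat_lit 5) (nat_lit 191) (nat_lit 83) r7_191 r10_83 (nat_lit 0) (nat_lit 1738294) (nat_lit 0) (nat_lit 0x80270146a) (nat_lit 1073148218),
  Rx.mk (nat_lit 500) (nat_lit 4) (nat_lit 6) (nat_lit 7) (nat_lit 6) (nat_lit 192) (nat_lit 88) r7_192 r10_88 (nat_lit 6198522) (nat_lit 0) (nat_lit 0) (nat_lit 0x7fb6ae690) (nat_lit 1084837746),
  Rx.mk (nat_lit 502) (nat_lit 6) (nat_lit 6) (nat_lit 7) (nat_lit 7) (nat_lit 193) (nat_lit 90) r7_193 r10_90 (nat_lit 0) (nat_lit 0) (nat_lit 0) (nat_lit 0x802fa260a) (nat_lit 1070865124),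
  Rx.mk (nat_lit 503) (nat_lit 7) (nat_lit 6) (nat_lit 7) (nat_lit 7) (nat_lit 194) (nat_lit 89) r7_194 r10_89 (nat_lit 0) (nat_lit 0) (nat_lit 0) (nat_lit 0x802fa6002) (nat_lit 1070864224)]
noncomputable def e25_29 : List Rx := [
  Rx.mk (nat_lit 27) (nat_lit 3) (nat_lit 3) (nat_lit 0) (nat_lit 3) (nat_lit 198) (nat_lit 105) r7_198 r11_105 (nat_lit 0) (nat_lit 0) (nat_lit 2301147) (nat_lit 0x8062f057a) (nat_lit 1069902071),
  Rx.mk (nat_lit 59) (nat_lit 3) (nat_lit 7) (nat_lit 0) (nat_lit 3) (nat_lit 201) (nat_lit 104) r7_201 r11_104 (nat_lit 0) (nat_lit 0) (nat_lit 5449534) (nat_lit 0x80029938e) (nat_lit 1079191358),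
  Rx.mk (nat_lit 63) (nat_lit 7) (nat_lit 7) (nat_lit 0) (nat_lit 3) (nat_lit 202) (nat_lit 102) r7_202 r11_102 (nat_lit 0) (nat_lit 0) (nat_lit 6685557) (nat_lit 0x7fa33a33e) (nat_lit 1086587581),
  Rx.mk (nat_lit 155) (nat_lit 3) (nat_lit 3) (nat_lit 2) (nat_lit 7) (nat_lit 199) (nat_lit 106) r7_199 r11_106 (nat_lit 0) (nat_lit 0) (nat_lit 0) (nat_lit 0x804200450) (nat_lit 1069693624),
  Rx.mk (nat_lit 231) (nat_lit 7) (nat_lit 4) (nat_lit 3) (nat_lit 5) (nat_lit 200) (nat_lit 101) r7_200 r11_101 (nat_lit 0) (nat_lit 5449534) (nat_lit 0) (nat_lit 0x80029938e) (nat_lit 1079191358),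
  Rx.mk (nat_lit 255) (nat_lit 7) (nat_lit 7) (nat_lit 3) (nat_lit 7) (nat_lit 203) (nat_lit 103) r7_203 r11_103 (nat_lit 0) (nat_lit 0) (nat_lit 0) (nat_lit 0x80029938e) (nat_lit 1073741824)]
noncomputable def e25_30 : List Rx := [
  Rx.mk (nat_lit 103) (nat_lit 7) (nat_lit 4) (nat_lit 1) (nat_lit 5) (nat_lit 286) (nat_lit 256) r7_286 r5_256 (nat_lit 0) (nat_lit 1663775) (nat_lit 0) (nat_lit 0x7ff356e8a) (nat_lit 1076373699),
  Rx.mk (nat_lit 111) (nat_lit 7) (nat_lit 5) (nat_lit 1) (nat_lit 7) (nat_lit 287) (nat_lit 257) r7_287 r5_257 (nat_lit 0) (nat_lit 0) (nat_lit 0) (nat_lit 0x804fac05e) (nat_lit 1068822724)]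
noncomputable def e25_31 : List Rx := [
  Rx.mk (nat_lit 103) (nat_lit 7) (nat_lit 4) (nat_lit 1) (nat_lit 5) (nat_lit 288) (nat_lit 306) r7_288 r11_306 (nat_lit 0) (nat_lit 2211577) (nat_lit 0) (nat_lit 0x80826cbe2) (nat_lit 1067819001),
  Rx.mk (nat_lit 111) (nat_lit 7) (nat_lit 5) (nat_lit 1) (nat_lit 7) (nat_lit 290) (nat_lit 307) r7_290 r11_307 (nat_lit 0) (nat_lit 0) (nat_lit 0) (nat_lit 0x804af24dc) (nat_lit 1069126324),
  Rx.mk (nat_lit 359) (nat_lit 7) (nat_lit 4) (nat_lit 5) (nat_lit 5) (nat_lit 289) (nat_lit 303) r7_289 r11_303 (nat_lit 0) (nat_lit 5449534) (nat_lit 0) (nat_lit 0x80029938e) (nat_lit 1079191358),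
  Rx.mk (nat_lit 367) (nat_lit 7) (nat_lit 5) (nat_lit 5) (nat_lit 7) (nat_lit 291) (nat_lit 304) r7_291 r11_304 (nat_lit 0) (nat_lit 0) (nat_lit 0) (nat_lit 0x80029938e) (nat_lit 1073741824),
  Rx.mk (nat_lit 375) (nat_lit 7) (nat_lit 6) (nat_lit 5) (nat_lit 7) (nat_lit 292) (nat_lit 305) r7_292 r11_305 (nat_lit 0) (nat_lit 0) (nat_lit 0) (nat_lit 0x80029938e) (nat_lit 1073741824)]
noncomputable def e25_32 : List Rx := [
  Rx.mk (nat_lit 35) (nat_lit 3) (nat_lit 4) (nat_lit 0) (nat_lit 1) (nat_lit 293) (nat_lit 195) r7_293 r6_195 (nat_lit 0) (nat_lit 264914) (nat_lit 277079) (nat_lit 0x6d02a6830) (nat_lit 1390940117),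
  Rx.mk (nat_lit 43) (nat_lit 3) (nat_lit 5) (nat_lit 0) (nat_lit 3) (nat_lit 297) (nat_lit 196) r7_297 r6_196 (nat_lit 0) (nat_lit 0) (nat_lit 2237591) (nat_lit 0x8056375b8) (nat_lit 1070643615),
  Rx.mk (nat_lit 59) (nat_lit 3) (nat_lit 7) (nat_lit 0) (nat_lit 3) (nat_lit 301) (nat_lit 197) r7_301 r6_197 (nat_lit 0) (nat_lit 0) (nat_lit 1598900) (nat_lit 0x80a515d4c) (nat_lit 1065015624),
  Rx.mk (nat_lit 99) (nat_lit 3) (nat_lit 4) (nat_lit 1) (nat_lit 5) (nat_lit 294) (nat_lit 198) r7_294 r6_198 (nat_lit 0) (nat_lit 1891092) (nat_lit 0) (nat_lit 0x8064b8aba) (nat_lit 1069380816),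
  Rx.mk (nat_lit 107) (nat_lit 3) (nat_lit 5) (nat_lit 1) (nat_lit 7) (nat_lit 298) (nat_lit 199) r7_298 r6_199 (nat_lit 0) (nat_lit 0) (nat_lit 0) (nat_lit 0x804959148) (nat_lit 1069226624),
  Rx.mk (nat_lit 123) (nat_lit 3) (nat_lit 7) (nat_lit 1) (nat_lit 7) (nat_lit 302) (nat_lit 200) r7_302 r6_200 (nat_lit 0) (nat_lit 0) (nat_lit 0) (nat_lit 0x80aedf3b4) (nat_lit 1062792024),
  Rx.mk (nat_lit 227) (nat_lit 3) (nat_lit 4) (nat_lit 3) (nat_lit 5) (nat_lit 295) (nat_lit 201) r7_295 r6_201 (nat_lit 0) (nat_lit 5719758) (nat_lit 0) (nat_lit 0x7fc989026) (nat_lit 1083137982),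
  Rx.mk (nat_lit 231) (nat_lit 7) (nat_lit 4) (nat_lit 3) (nat_lit 5) (nat_lit 296) (nat_lit 193) r7_296 r6_193 (nat_lit 0) (nat_lit 1281739) (nat_lit 0) (nat_lit 0x8015d28a6) (nat_lit 1073788363),
  Rx.mk (nat_lit 235) (nat_lit 3) (nat_lit 5) (nat_lit 3) (nat_lit 7) (nat_lit 299) (nat_lit 202) r7_299 r6_202 (nat_lit 0) (nat_lit 0) (nat_lit 0) (nat_lit 0x80029938e) (nat_lit 1073741824),
  Rx.mk (nat_lit 239) (nat_lit 7) (nat_lit 5) (nat_lit 3) (nat_lit 7) (nat_lit 300) (nat_lit 194) r7_300 r6_194 (nat_lit 0) (nat_lit 0) (nat_lit 0) (nat_lit 0x80f0600f4) (nat_lit 1058649324)]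
noncomputable def e25_33 : List Rx := [
  Rx.mk (nat_lit 59) (nat_lit 3) (nat_lit 7) (nat_lit 0) (nat_lit 3) (nat_lit 272) (nat_lit 102) r7_272 r5_102 (nat_lit 0) (nat_lit 0) (nat_lit 1535629) (nat_lit 0x807a5a904) (nat_lit 1067648753),
  Rx.mk (nat_lit 227) (nat_lit 3) (nat_lit 4) (nat_lit 3) (nat_lit 5) (nat_lit 270) (nat_lit 103) r7_270 r5_103 (nat_lit 0) (nat_lit 3797391) (nat_lit 0) (nat_lit 0x7bc59188c) (nat_lit 1148120715),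
  Rx.mk (nat_lit 231) (nat_lit 7) (nat_lit 4) (nat_lit 3) (nat_lit 5) (nat_lit 271) (nat_lit 105) r7_271 r5_105 (nat_lit 0) (nat_lit 1265249) (nat_lit 0) (nat_lit 0x7ff9d6b48) (nat_lit 1075552073),
  Rx.mk (nat_lit 251) (nat_lit 3) (nat_lit 7) (nat_lit 3) (nat_lit 7) (nat_lit 273) (nat_lit 104) r7_273 r5_104 (nat_lit 0) (nat_lit 0) (nat_lit 0) (nat_lit 0x7ff327c3e) (nat_lit 1074733924)]
noncomputable def e25_34 : List Rx := [
  Rx.mk (nat_lit 59) (nat_lit 3) (nat_lit 7) (nat_lit 0) (nat_lit 3) (nat_lit 278) (nat_lit 101) r7_278 r11_101 (nat_lit 0) (nat_lit 0) (nat_lit 5449534) (nat_lit 0x80029938e) (nat_lit 1079191358),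
  Rx.mk (nat_lit 227) (nat_lit 3) (nat_lit 4) (nat_lit 3) (nat_lit 5) (nat_lit 274) (nat_lit 102) r7_274 r11_102 (nat_lit 0) (nat_lit 6685557) (nat_lit 0) (nat_lit 0x7fa33a33e) (nat_lit 1086587581),
  Rx.mk (nat_lit 231) (nat_lit 7) (nat_lit 4) (nat_lit 3) (nat_lit 5) (nat_lit 275) (nat_lit 104) r7_275 r11_104 (nat_lit 0) (nat_lit 5449534) (nat_lit 0) (nat_lit 0x80029938e) (nat_lit 1079191358),
  Rx.mk (nat_lit 251) (nat_lit 3) (nat_lit 7) (nat_lit 3) (nat_lit 7) (nat_lit 279) (nat_lit 103) r7_279 r11_103 (nat_lit 0) (nat_lit 0) (nat_lit 0) (nat_lit 0x80029938e) (nat_lit 1073741824),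
  Rx.mk (nat_lit 487) (nat_lit 7) (nat_lit 4) (nat_lit 7) (nat_lit 5) (nat_lit 276) (nat_lit 105) r7_276 r11_105 (nat_lit 0) (nat_lit 2301147) (nat_lit 0) (nat_lit 0x8062f057a) (nat_lit 1069902071),
  Rx.mk (nat_lit 503) (nat_lit 7) (nat_lit 6) (nat_lit 7) (nat_lit 7) (nat_lit 277) (nat_lit 106) r7_277 r11_106 (nat_lit 0) (nat_lit 0) (nat_lit 0) (nat_lit 0x804200450) (nat_lit 1069693624)]
noncomputable def e25_35 : List Rx := [
  Rx.mk (nat_lit 43) (nat_lit 3) (nat_lit 5) (nat_lit 0) (nat_lit 3) (nat_lit 282) (nat_lit 282) r7_282 r6_282 (nat_lit 0) (nat_lit 0) (nat_lit 2052120) (nat_lit 0x802554b6c) (nat_lit 1073565444),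
  Rx.mk (nat_lit 47) (nat_lit 7) (nat_lit 5) (nat_lit 0) (nat_lit 3) (nat_lit 284) (nat_lit 283) r7_284 r6_283 (nat_lit 0) (nat_lit 0) (nat_lit 1381776) (nat_lit 0x8046be05a) (nat_lit 1070778100),
  Rx.mk (nat_lit 99) (nat_lit 3) (nat_lit 4) (nat_lit 1) (nat_lit 5) (nat_lit 280) (nat_lit 280) r7_280 r6_280 (nat_lit 0) (nat_lit 1381776) (nat_lit 0) (nat_lit 0x8046be05a) (nat_lit 1070778100),
  Rx.mk (nat_lit 103) (nat_lit 7) (nat_lit 4) (nat_lit 1) (nat_lit 5) (nat_lit 281) (nat_lit 281) r7_281 r6_281 (nat_lit 0) (nat_lit 2052120) (nat_lit 0) (nat_lit 0x802554b6c) (nat_lit 1073565444),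
  Rx.mk (nat_lit 107) (nat_lit 3) (nat_lit 5) (nat_lit 1) (nat_lit 7) (nat_lit 283) (nat_lit 284) r7_283 r6_284 (nat_lit 0) (nat_lit 0) (nat_lit 0) (nat_lit 0x8061e744e) (nat_lit 1067667324),
  Rx.mk (nat_lit 111) (nat_lit 7) (nat_lit 5) (nat_lit 1) (nat_lit 7) (nat_lit 285) (nat_lit 285) r7_285 r6_285 (nat_lit 0) (nat_lit 0) (nat_lit 0) (nat_lit 0x8061e744e) (nat_lit 1067667324)]
noncomputable def e25_36 : List Rx := [
  Rx.mk (nat_lit 35) (nat_lit 3) (nat_lit 4) (nat_lit 0) (nat_lit 1) (nat_lit 303) (nat_lit 191) r7_303 r12_191 (nat_lit 0) (nat_lit 146579) (nat_lit 155548) (nat_lit 0x6d6500044) (nat_lit 1384285151),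
  Rx.mk (nat_lit 39) (nat_lit 7) (nat_lit 4) (nat_lit 0) (nat_lit 1) (nat_lit 305) (nat_lit 197) r7_305 r12_197 (nat_lit 0) (nat_lit 155548) (nat_lit 146579) (nat_lit 0x6d6500044) (nat_lit 1384285151),
  Rx.mk (nat_lit 43) (nat_lit 3) (nat_lit 5) (nat_lit 0) (nat_lit 3) (nat_lit 308) (nat_lit 193) r7_308 r12_193 (nat_lit 0) (nat_lit 0) (nat_lit 1674776) (nat_lit 0x80296d58c) (nat_lit 1072913600),
  Rx.mk (nat_lit 47) (nat_lit 7) (nat_lit 5) (nat_lit 0) (nat_lit 3) (nat_lit 310) (nat_lit 200) r7_310 r12_200 (nat_lit 0) (nat_lit 0) (nat_lit 1167101) (nat_lit 0x83e5cf1aa) (nat_lit 1011968725),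
  Rx.mk (nat_lit 59) (nat_lit 3) (nat_lit 7) (nat_lit 0) (nat_lit 3) (nat_lit 313) (nat_lit 195) r7_313 r12_195 (nat_lit 0) (nat_lit 0) (nat_lit 1048552) (nat_lit 0x8019d1236) (nat_lit 1073292576),
  Rx.mk (nat_lit 99) (nat_lit 3) (nat_lit 4) (nat_lit 1) (nat_lit 5) (nat_lit 304) (nat_lit 192) r7_304 r12_192 (nat_lit 0) (nat_lit 1167101) (nat_lit 0) (nat_lit 0x83e5cf1aa) (nat_lit 1011968725),
  Rx.mk (nat_lit 103) (nat_lit 7) (nat_lit 4) (nat_lit 1) (nat_lit 5) (nat_lit 306) (nat_lit 198) r7_306 r12_198 (nat_lit 0) (nat_lit 1674776) (nat_lit 0) (nat_lit 0x80296d58c) (nat_lit 1072913600),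
  Rx.mk (nat_lit 107) (nat_lit 3) (nat_lit 5) (nat_lit 1) (nat_lit 7) (nat_lit 309) (nat_lit 194) r7_309 r12_194 (nat_lit 0) (nat_lit 0) (nat_lit 0) (nat_lit 0x80fc0fe2c) (nat_lit 1057910624),
  Rx.mk (nat_lit 111) (nat_lit 7) (nat_lit 5) (nat_lit 1) (nat_lit 7) (nat_lit 311) (nat_lit 201) r7_311 r12_201 (nat_lit 0) (nat_lit 0) (nat_lit 0) (nat_lit 0x80fc0fe2c) (nat_lit 1057910624),
  Rx.mk (nat_lit 123) (nat_lit 3) (nat_lit 7) (nat_lit 1) (nat_lit 7) (nat_lit 314) (nat_lit 196) r7_314 r12_196 (nat_lit 0) (nat_lit 0) (nat_lit 0) (nat_lit 0x8ba799e96) (nat_lit 885357024),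
  Rx.mk (nat_lit 231) (nat_lit 7) (nat_lit 4) (nat_lit 3) (nat_lit 5) (nat_lit 307) (nat_lit 199) r7_307 r12_199 (nat_lit 0) (nat_lit 1048552) (nat_lit 0) (nat_lit 0x8019d1236) (nat_lit 1073292576),
  Rx.mk (nat_lit 239) (nat_lit 7) (nat_lit 5) (nat_lit 3) (nat_lit 7) (nat_lit 312) (nat_lit 202) r7_312 r12_202 (nat_lit 0) (nat_lit 0) (nat_lit 0) (nat_lit 0x8ba799e96) (nat_lit 885357024)]
noncomputable def e25_37 : List Rx := [
  Rx.mk (nat_lit 8) (nat_lit 0) (nat_lit 1) (nat_lit 0) (nat_lit 2) (nat_lit 319) (nat_lit 178) r7_319 r0_178 (nat_lit 944100) (nat_lit 0) (nat_lit 327140) (nat_lit 0x5bb8077f4) (nat_lit 1679970364),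
  Rx.mk (nat_lit 11) (nat_lit 3) (nat_lit 1) (nat_lit 0) (nat_lit 3) (nat_lit 322) (nat_lit 182) r7_322 r0_182 (nat_lit 0) (nat_lit 0) (nat_lit 1461987) (nat_lit 0x7ffe1df6c) (nat_lit 1075483511),
  Rx.mk (nat_lit 40) (nat_lit 0) (nat_lit 5) (nat_lit 0) (nat_lit 2) (nat_lit 325) (nat_lit 177) r7_325 r0_177 (nat_lit 1073466) (nat_lit 0) (nat_lit 216055) (nat_lit 0x52f01064a) (nat_lit 1826388745),
  Rx.mk (nat_lit 72) (nat_lit 0) (nat_lit 1) (nat_lit 1) (nat_lit 6) (nat_lit 320) (nat_lit 180) r7_320 r0_180 (nat_lit 5137059) (nat_lit 0) (nat_lit 0) (nat_lit 0x7a3a629c4) (nat_lit 1175198083),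
  Rx.mk (nat_lit 75) (nat_lit 3) (nat_lit 1) (nat_lit 1) (nat_lit 7) (nat_lit 323) (nat_lit 183) r7_323 r0_183 (nat_lit 0) (nat_lit 0) (nat_lit 0) (nat_lit 0x802680a22) (nat_lit 1071441624),
  Rx.mk (nat_lit 104) (nat_lit 0) (nat_lit 5) (nat_lit 1) (nat_lit 6) (nat_lit 326) (nat_lit 179) r7_326 r0_179 (nat_lit 1922278) (nat_lit 0) (nat_lit 0) (nat_lit 0x6264701d4) (nat_lit 1569386202),
  Rx.mk (nat_lit 136) (nat_lit 0) (nat_lit 1) (nat_lit 2) (nat_lit 6) (nat_lit 321) (nat_lit 181) r7_321 r0_181 (nat_lit 171422861) (nat_lit 0) (nat_lit 0) (nat_lit 0x80556c2a0) (nat_lit 1239814685),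
  Rx.mk (nat_lit 139) (nat_lit 3) (nat_lit 1) (nat_lit 2) (nat_lit 7) (nat_lit 324) (nat_lit 184) r7_324 r0_184 (nat_lit 0) (nat_lit 0) (nat_lit 0) (nat_lit 0x806ab61b0) (nat_lit 1067109724)]
noncomputable def e25_38 : List Rx := [
  Rx.mk (nat_lit 40) (nat_lit 0) (nat_lit 5) (nat_lit 0) (nat_lit 2) (nat_lit 315) (nat_lit 250) r7_315 r0_250 (nat_lit 3589306) (nat_lit 0) (nat_lit 64066468) (nat_lit 0x638142464) (nat_lit 1616568698),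
  Rx.mk (nat_lit 41) (nat_lit 1) (nat_lit 5) (nat_lit 0) (nat_lit 3) (nat_lit 317) (nat_lit 251) r7_317 r0_251 (nat_lit 0) (nat_lit 0) (nat_lit 5828588) (nat_lit 0x7fe5c8fd4) (nat_lit 1081422912),
  Rx.mk (nat_lit 104) (nat_lit 0) (nat_lit 5) (nat_lit 1) (nat_lit 6) (nat_lit 316) (nat_lit 252) r7_316 r0_252 (nat_lit 6173437) (nat_lit 0) (nat_lit 0) (nat_lit 0x7b5c8dc0a) (nat_lit 1157338461),
  Rx.mk (nat_lit 105) (nat_lit 1) (nat_lit 5) (nat_lit 1) (nat_lit 7) (nat_lit 318) (nat_lit 253) r7_318 r0_253 (nat_lit 0) (nat_lit 0) (nat_lit 0) (nat_lit 0x8018342e8) (nat_lit 1072357724)]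
noncomputable def e25_39 : List Rx := [
  Rx.mk (nat_lit 8) (nat_lit 0) (nat_lit 1) (nat_lit 0) (nat_lit 2) (nat_lit 327) (nat_lit 230) r7_327 r7_230 (nat_lit 24998902) (nat_lit 0) (nat_lit 24998902) (nat_lit 0x69f022aa4) (nat_lit 1491662228),
  Rx.mk (nat_lit 9) (nat_lit 1) (nat_lit 1) (nat_lit 0) (nat_lit 3) (nat_lit 330) (nat_lit 235) r7_330 r7_235 (nat_lit 0) (nat_lit 0) (nat_lit 5449534) (nat_lit 0x80029938e) (nat_lit 1079191358),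
  Rx.mk (nat_lit 11) (nat_lit 3) (nat_lit 1) (nat_lit 0) (nat_lit 3) (nat_lit 333) (nat_lit 239) r7_333 r7_239 (nat_lit 0) (nat_lit 0) (nat_lit 5449534) (nat_lit 0x80029938e) (nat_lit 1079191358),
  Rx.mk (nat_lit 40) (nat_lit 0) (nat_lit 5) (nat_lit 0) (nat_lit 2) (nat_lit 335) (nat_lit 229) r7_335 r7_229 (nat_lit 2723291) (nat_lit 0) (nat_lit 2723291) (nat_lit 0x6dde73fc0) (nat_lit 1381566606),
  Rx.mk (nat_lit 41) (nat_lit 1) (nat_lit 5) (nat_lit 0) (nat_lit 3) (nat_lit 337) (nat_lit 234) r7_337 r7_234 (nat_lit 0) (nat_lit 0) (nat_lit 3906765) (nat_lit 0x80258828c) (nat_lit 1075417389),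
  Rx.mk (nat_lit 72) (nat_lit 0) (nat_lit 1) (nat_lit 1) (nat_lit 6) (nat_lit 328) (nat_lit 232) r7_328 r7_232 (nat_lit 5449534) (nat_lit 0) (nat_lit 0) (nat_lit 0x80029938e) (nat_lit 1079191358),
  Rx.mk (nat_lit 73) (nat_lit 1) (nat_lit 1) (nat_lit 1) (nat_lit 7) (nat_lit 331) (nat_lit 237) r7_331 r7_237 (nat_lit 0) (nat_lit 0) (nat_lit 0) (nat_lit 0x80029938e) (nat_lit 1073741824),
  Rx.mk (nat_lit 75) (nat_lit 3) (nat_lit 1) (nat_lit 1) (nat_lit 7) (nat_lit 334) (nat_lit 240) r7_334 r7_240 (nat_lit 0) (nat_lit 0) (nat_lit 0) (nat_lit 0x80029938e) (nat_lit 1073741824),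
  Rx.mk (nat_lit 104) (nat_lit 0) (nat_lit 5) (nat_lit 1) (nat_lit 6) (nat_lit 336) (nat_lit 231) r7_336 r7_231 (nat_lit 3906765) (nat_lit 0) (nat_lit 0) (nat_lit 0x80258828c) (nat_lit 1075417389),
  Rx.mk (nat_lit 105) (nat_lit 1) (nat_lit 5) (nat_lit 1) (nat_lit 7) (nat_lit 338) (nat_lit 236) r7_338 r7_236 (nat_lit 0) (nat_lit 0) (nat_lit 0) (nat_lit 0x80029938e) (nat_lit 1073741824),
  Rx.mk (nat_lit 136) (nat_lit 0) (nat_lit 1) (nat_lit 2) (nat_lit 6) (nat_lit 329) (nat_lit 233) r7_329 r7_233 (nat_lit 5449534) (nat_lit 0) (nat_lit 0) (nat_lit 0x80029938e) (nat_lit 1079191358),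
  Rx.mk (nat_lit 137) (nat_lit 1) (nat_lit 1) (nat_lit 2) (nat_lit 7) (nat_lit 332) (nat_lit 238) r7_332 r7_238 (nat_lit 0) (nat_lit 0) (nat_lit 0) (nat_lit 0x80029938e) (nat_lit 1073741824)]
noncomputable def e25_40 : List Rx := [
  Rx.mk (nat_lit 105) (nat_lit 1) (nat_lit 5) (nat_lit 1) (nat_lit 7) (nat_lit 399) (nat_lit 284) r7_399 r2_284 (nat_lit 0) (nat_lit 0) (nat_lit 0) (nat_lit 0x80029938e) (nat_lit 1073741824),
  Rx.mk (nat_lit 109) (nat_lit 5) (nat_lit 5) (nat_lit 1) (nat_lit 7) (nat_lit 400) (nat_lit 285) r7_400 r2_285 (nat_lit 0) (nat_lit 0) (nat_lit 0) (nat_lit 0x80029938e) (nat_lit 1073741824)]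
noncomputable def e25_41 : List Rx := [
  Rx.mk (nat_lit 73) (nat_lit 1) (nat_lit 1) (nat_lit 1) (nat_lit 7) (nat_lit 406) (nat_lit 257) r7_406 r9_257 (nat_lit 0) (nat_lit 0) (nat_lit 0) (nat_lit 0x80029938e) (nat_lit 1073741824),
  Rx.mk (nat_lit 105) (nat_lit 1) (nat_lit 5) (nat_lit 1) (nat_lit 7) (nat_lit 407) (nat_lit 258) r7_407 r9_258 (nat_lit 0) (nat_lit 0) (nat_lit 0) (nat_lit 0x80029938e) (nat_lit 1073741824),
  Rx.mk (nat_lit 109) (nat_lit 5) (nat_lit 5) (nat_lit 1) (nat_lit 7) (nat_lit 408) (nat_lit 259) r7_408 r9_259 (nat_lit 0) (nat_lit 0) (nat_lit 0) (nat_lit 0x80029938e) (nat_lit 1073741824)]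
noncomputable def e25_42 : List Rx := [
  Rx.mk (nat_lit 105) (nat_lit 1) (nat_lit 5) (nat_lit 1) (nat_lit 7) (nat_lit 409) (nat_lit 259) r7_409 r9_259 (nat_lit 0) (nat_lit 0) (nat_lit 0) (nat_lit 0x80029938e) (nat_lit 1073741824),
  Rx.mk (nat_lit 109) (nat_lit 5) (nat_lit 5) (nat_lit 1) (nat_lit 7) (nat_lit 410) (nat_lit 258) r7_410 r9_258 (nat_lit 0) (nat_lit 0) (nat_lit 0) (nat_lit 0x80029938e) (nat_lit 1073741824),
  Rx.mk (nat_lit 365) (nat_lit 5) (nat_lit 5) (nat_lit 5) (nat_lit 7) (nat_lit 411) (nat_lit 257) r7_411 r9_257 (nat_lit 0) (nat_lit 0) (nat_lit 0) (nat_lit 0x80029938e) (nat_lit 1073741824)]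
noncomputable def e25_43 : List Rx := [
  Rx.mk (nat_lit 41) (nat_lit 1) (nat_lit 5) (nat_lit 0) (nat_lit 3) (nat_lit 397) (nat_lit 256) r7_397 r1_256 (nat_lit 0) (nat_lit 0) (nat_lit 5449534) (nat_lit 0x7f8e54334) (nat_lit 1086711158),
  Rx.mk (nat_lit 105) (nat_lit 1) (nat_lit 5) (nat_lit 1) (nat_lit 7) (nat_lit 398) (nat_lit 257) r7_398 r1_257 (nat_lit 0) (nat_lit 0) (nat_lit 0) (nat_lit 0x80029938e) (nat_lit 1073741824)]
noncomputable def e25_44 : List Rx := [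
  Rx.mk (nat_lit 9) (nat_lit 1) (nat_lit 1) (nat_lit 0) (nat_lit 3) (nat_lit 401) (nat_lit 185) r7_401 r8_185 (nat_lit 0) (nat_lit 0) (nat_lit 5322975) (nat_lit 0x7ffd77ce8) (nat_lit 1079393799),
  Rx.mk (nat_lit 41) (nat_lit 1) (nat_lit 5) (nat_lit 0) (nat_lit 3) (nat_lit 404) (nat_lit 184) r7_404 r8_184 (nat_lit 0) (nat_lit 0) (nat_lit 5449534) (nat_lit 0x80029938e) (nat_lit 1079191358),
  Rx.mk (nat_lit 73) (nat_lit 1) (nat_lit 1) (nat_lit 1) (nat_lit 7) (nat_lit 402) (nat_lit 187) r7_402 r8_187 (nat_lit 0) (nat_lit 0) (nat_lit 0) (nat_lit 0x80029938e) (nat_lit 1073741824),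
  Rx.mk (nat_lit 105) (nat_lit 1) (nat_lit 5) (nat_lit 1) (nat_lit 7) (nat_lit 405) (nat_lit 186) r7_405 r8_186 (nat_lit 0) (nat_lit 0) (nat_lit 0) (nat_lit 0x80029938e) (nat_lit 1073741824),
  Rx.mk (nat_lit 137) (nat_lit 1) (nat_lit 1) (nat_lit 2) (nat_lit 7) (nat_lit 403) (nat_lit 188) r7_403 r8_188 (nat_lit 0) (nat_lit 0) (nat_lit 0) (nat_lit 0x80029938e) (nat_lit 1073741824)]
noncomputable def e25_45 : List Rx := [
  Rx.mk (nat_lit 8) (nat_lit 0) (nat_lit 1) (nat_lit 0) (nat_lit 2) (nat_lit 381) (nat_lit 192) r7_381 r1_192 (nat_lit 13272121) (nat_lit 0) (nat_lit 18024927) (nat_lit 0x679c04a46) (nat_lit 1511783172),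
  Rx.mk (nat_lit 11) (nat_lit 3) (nat_lit 1) (nat_lit 0) (nat_lit 3) (nat_lit 385) (nat_lit 195) r7_385 r1_195 (nat_lit 0) (nat_lit 0) (nat_lit 3131027) (nat_lit 0x8039b0930) (nat_lit 1073355051),
  Rx.mk (nat_lit 72) (nat_lit 0) (nat_lit 1) (nat_lit 1) (nat_lit 6) (nat_lit 382) (nat_lit 193) r7_382 r1_193 (nat_lit 6367424) (nat_lit 0) (nat_lit 0) (nat_lit 0x7fc15ea7c) (nat_lit 1084313548),
  Rx.mk (nat_lit 75) (nat_lit 3) (nat_lit 1) (nat_lit 1) (nat_lit 7) (nat_lit 386) (nat_lit 196) r7_386 r1_196 (nat_lit 0) (nat_lit 0) (nat_lit 0) (nat_lit 0x8013c631e) (nat_lit 1072641324),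
  Rx.mk (nat_lit 136) (nat_lit 0) (nat_lit 1) (nat_lit 2) (nat_lit 6) (nat_lit 383) (nat_lit 194) r7_383 r1_194 (nat_lit 50165941) (nat_lit 0) (nat_lit 0) (nat_lit 0x874d452b4) (nat_lit 1005906665),
  Rx.mk (nat_lit 138) (nat_lit 2) (nat_lit 1) (nat_lit 2) (nat_lit 7) (nat_lit 384) (nat_lit 198) r7_384 r1_198 (nat_lit 0) (nat_lit 0) (nat_lit 0) (nat_lit 0x80f9b7260) (nat_lit 1058059324),
  Rx.mk (nat_lit 139) (nat_lit 3) (nat_lit 1) (nat_lit 2) (nat_lit 7) (nat_lit 387) (nat_lit 197) r7_387 r1_197 (nat_lit 0) (nat_lit 0) (nat_lit 0) (nat_lit 0x8013c631e) (nat_lit 1072641324)]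
noncomputable def e25_46 : List Rx := [
  Rx.mk (nat_lit 0) (nat_lit 0) (nat_lit 0) (nat_lit 0) (nat_lit 0) (nat_lit 339) (nat_lit 189) r7_339 r2_189 (nat_lit 399938) (nat_lit 194986) (nat_lit 161181) (nat_lit 0x36448175a) (nat_lit 2303875029),
  Rx.mk (nat_lit 3) (nat_lit 3) (nat_lit 0) (nat_lit 0) (nat_lit 1) (nat_lit 342) (nat_lit 193) r7_342 r2_193 (nat_lit 0) (nat_lit 1909851) (nat_lit 1580289) (nat_lit 0x70324666e) (nat_lit 1340803264),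
  Rx.mk (nat_lit 8) (nat_lit 0) (nat_lit 1) (nat_lit 0) (nat_lit 2) (nat_lit 344) (nat_lit 190) r7_344 r2_190 (nat_lit 5488875) (nat_lit 0) (nat_lit 5199218) (nat_lit 0x56490c8ae) (nat_lit 1780021717),
  Rx.mk (nat_lit 11) (nat_lit 3) (nat_lit 1) (nat_lit 0) (nat_lit 3) (nat_lit 347) (nat_lit 194) r7_347 r2_194 (nat_lit 0) (nat_lit 0) (nat_lit 5449534) (nat_lit 0x80029938e) (nat_lit 1079191358),
  Rx.mk (nat_lit 27) (nat_lit 3) (nat_lit 3) (nat_lit 0) (nat_lit 3) (nat_lit 350) (nat_lit 195) r7_350 r2_195 (nat_lit 0) (nat_lit 0) (nat_lit 5449534) (nat_lit 0x7ffed32b8) (nat_lit 1079433358),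
  Rx.mk (nat_lit 128) (nat_lit 0) (nat_lit 0) (nat_lit 2) (nat_lit 4) (nat_lit 340) (nat_lit 191) r7_340 r2_191 (nat_lit 11611348) (nat_lit 3553214) (nat_lit 0) (nat_lit 0x6c960b1d0) (nat_lit 1412675886),
  Rx.mk (nat_lit 130) (nat_lit 2) (nat_lit 0) (nat_lit 2) (nat_lit 5) (nat_lit 341) (nat_lit 200) r7_341 r2_200 (nat_lit 0) (nat_lit 5449534) (nat_lit 0) (nat_lit 0x7ffaf9476) (nat_lit 1079680458),
  Rx.mk (nat_lit 131) (nat_lit 3) (nat_lit 0) (nat_lit 2) (nat_lit 5) (nat_lit 343) (nat_lit 197) r7_343 r2_197 (nat_lit 0) (nat_lit 5449534) (nat_lit 0) (nat_lit 0x7ffc30790) (nat_lit 1079602458),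
  Rx.mk (nat_lit 136) (nat_lit 0) (nat_lit 1) (nat_lit 2) (nat_lit 6) (nat_lit 345) (nat_lit 192) r7_345 r2_192 (nat_lit 5449534) (nat_lit 0) (nat_lit 0) (nat_lit 0x800095baa) (nat_lit 1079320458),
  Rx.mk (nat_lit 138) (nat_lit 2) (nat_lit 1) (nat_lit 2) (nat_lit 7) (nat_lit 346) (nat_lit 201) r7_346 r2_201 (nat_lit 0) (nat_lit 0) (nat_lit 0) (nat_lit 0x80029938e) (nat_lit 1073741824),
  Rx.mk (nat_lit 139) (nat_lit 3) (nat_lit 1) (nat_lit 2) (nat_lit 7) (nat_lit 348) (nat_lit 198) r7_348 r2_198 (nat_lit 0) (nat_lit 0) (nat_lit 0) (nat_lit 0x80029938e) (nat_lit 1073741824),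
  Rx.mk (nat_lit 146) (nat_lit 2) (nat_lit 2) (nat_lit 2) (nat_lit 7) (nat_lit 349) (nat_lit 202) r7_349 r2_202 (nat_lit 0) (nat_lit 0) (nat_lit 0) (nat_lit 0x80029938e) (nat_lit 1073741824),
  Rx.mk (nat_lit 155) (nat_lit 3) (nat_lit 3) (nat_lit 2) (nat_lit 7) (nat_lit 351) (nat_lit 199) r7_351 r2_199 (nat_lit 0) (nat_lit 0) (nat_lit 0) (nat_lit 0x80029938e) (nat_lit 1073741824),
  Rx.mk (nat_lit 219) (nat_lit 3) (nat_lit 3) (nat_lit 3) (nat_lit 7) (nat_lit 352) (nat_lit 196) r7_352 r2_196 (nat_lit 0) (nat_lit 0) (nat_lit 0) (nat_lit 0x80029938e) (nat_lit 1073741824)]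
noncomputable def e25_47 : List Rx := [
  Rx.mk (nat_lit 8) (nat_lit 0) (nat_lit 1) (nat_lit 0) (nat_lit 2) (nat_lit 388) (nat_lit 248) r7_388 r8_248 (nat_lit 9806922) (nat_lit 0) (nat_lit 18822904) (nat_lit 0x645205e84) (nat_lit 1563957550),
  Rx.mk (nat_lit 9) (nat_lit 1) (nat_lit 1) (nat_lit 0) (nat_lit 3) (nat_lit 391) (nat_lit 249) r7_391 r8_249 (nat_lit 0) (nat_lit 0) (nat_lit 5661505) (nat_lit 0x7ff885e6a) (nat_lit 1080049829),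
  Rx.mk (nat_lit 11) (nat_lit 3) (nat_lit 1) (nat_lit 0) (nat_lit 3) (nat_lit 395) (nat_lit 250) r7_395 r8_250 (nat_lit 0) (nat_lit 0) (nat_lit 5449534) (nat_lit 0x80029938e) (nat_lit 1079191358),
  Rx.mk (nat_lit 72) (nat_lit 0) (nat_lit 1) (nat_lit 1) (nat_lit 6) (nat_lit 389) (nat_lit 251) r7_389 r8_251 (nat_lit 5449534) (nat_lit 0) (nat_lit 0) (nat_lit 0x80029938e) (nat_lit 1079191358),
  Rx.mk (nat_lit 73) (nat_lit 1) (nat_lit 1) (nat_lit 1) (nat_lit 7) (nat_lit 392) (nat_lit 252) r7_392 r8_252 (nat_lit 0) (nat_lit 0) (nat_lit 0) (nat_lit 0x80029938e) (nat_lit 1073741824),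
  Rx.mk (nat_lit 75) (nat_lit 3) (nat_lit 1) (nat_lit 1) (nat_lit 7) (nat_lit 396) (nat_lit 253) r7_396 r8_253 (nat_lit 0) (nat_lit 0) (nat_lit 0) (nat_lit 0x80029938e) (nat_lit 1073741824),
  Rx.mk (nat_lit 136) (nat_lit 0) (nat_lit 1) (nat_lit 2) (nat_lit 6) (nat_lit 390) (nat_lit 254) r7_390 r8_254 (nat_lit 5560769) (nat_lit 0) (nat_lit 0) (nat_lit 0x800073c4e) (nat_lit 1079440193),
  Rx.mk (nat_lit 137) (nat_lit 1) (nat_lit 1) (nat_lit 2) (nat_lit 7) (nat_lit 393) (nat_lit 255) r7_393 r8_255 (nat_lit 0) (nat_lit 0) (nat_lit 0) (nat_lit 0x80029938e) (nat_lit 1073741824),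
  Rx.mk (nat_lit 138) (nat_lit 2) (nat_lit 1) (nat_lit 2) (nat_lit 7) (nat_lit 394) (nat_lit 256) r7_394 r8_256 (nat_lit 0) (nat_lit 0) (nat_lit 0) (nat_lit 0x80029938e) (nat_lit 1073741824)]
noncomputable def e25_48 : List Rx := [
  Rx.mk (nat_lit 0) (nat_lit 0) (nat_lit 0) (nat_lit 0) (nat_lit 0) (nat_lit 353) (nat_lit 170) r7_353 r9_170 (nat_lit 5426102) (nat_lit 3490957) (nat_lit 3541065) (nat_lit 0x36db834e6) (nat_lit 2305784648),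
  Rx.mk (nat_lit 3) (nat_lit 3) (nat_lit 0) (nat_lit 0) (nat_lit 1) (nat_lit 356) (nat_lit 176) r7_356 r9_176 (nat_lit 0) (nat_lit 7072192) (nat_lit 7551398) (nat_lit 0x6f426cc38) (nat_lit 1367563814),
  Rx.mk (nat_lit 8) (nat_lit 0) (nat_lit 1) (nat_lit 0) (nat_lit 2) (nat_lit 357) (nat_lit 171) r7_357 r9_171 (nat_lit 9592768) (nat_lit 0) (nat_lit 7908726) (nat_lit 0x655f6e5e8) (nat_lit 1535282018),
  Rx.mk (nat_lit 9) (nat_lit 1) (nat_lit 1) (nat_lit 0) (nat_lit 3) (nat_lit 359) (nat_lit 174) r7_359 r9_174 (nat_lit 0) (nat_lit 0) (nat_lit 5575825) (nat_lit 0x7ffab038e) (nat_lit 1079825149),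
  Rx.mk (nat_lit 11) (nat_lit 3) (nat_lit 1) (nat_lit 0) (nat_lit 3) (nat_lit 362) (nat_lit 177) r7_362 r9_177 (nat_lit 0) (nat_lit 0) (nat_lit 5449534) (nat_lit 0x80029938e) (nat_lit 1079191358),
  Rx.mk (nat_lit 27) (nat_lit 3) (nat_lit 3) (nat_lit 0) (nat_lit 3) (nat_lit 364) (nat_lit 178) r7_364 r9_178 (nat_lit 0) (nat_lit 0) (nat_lit 5449534) (nat_lit 0x80029938e) (nat_lit 1079191358),
  Rx.mk (nat_lit 128) (nat_lit 0) (nat_lit 0) (nat_lit 2) (nat_lit 4) (nat_lit 354) (nat_lit 172) r7_354 r9_172 (nat_lit 8284346) (nat_lit 8202458) (nat_lit 0) (nat_lit 0x6b8996482) (nat_lit 1431483228),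
  Rx.mk (nat_lit 130) (nat_lit 2) (nat_lit 0) (nat_lit 2) (nat_lit 5) (nat_lit 355) (nat_lit 180) r7_355 r9_180 (nat_lit 0) (nat_lit 5449534) (nat_lit 0) (nat_lit 0x7ffcbd500) (nat_lit 1079567158),
  Rx.mk (nat_lit 136) (nat_lit 0) (nat_lit 1) (nat_lit 2) (nat_lit 6) (nat_lit 358) (nat_lit 173) r7_358 r9_173 (nat_lit 5542978) (nat_lit 0) (nat_lit 0) (nat_lit 0x7ffdca448) (nat_lit 1079593202),
  Rx.mk (nat_lit 137) (nat_lit 1) (nat_lit 1) (nat_lit 2) (nat_lit 7) (nat_lit 360) (nat_lit 175) r7_360 r9_175 (nat_lit 0) (nat_lit 0) (nat_lit 0) (nat_lit 0x80029938e) (nat_lit 1073741824),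
  Rx.mk (nat_lit 138) (nat_lit 2) (nat_lit 1) (nat_lit 2) (nat_lit 7) (nat_lit 361) (nat_lit 181) r7_361 r9_181 (nat_lit 0) (nat_lit 0) (nat_lit 0) (nat_lit 0x80029938e) (nat_lit 1073741824),
  Rx.mk (nat_lit 146) (nat_lit 2) (nat_lit 2) (nat_lit 2) (nat_lit 7) (nat_lit 363) (nat_lit 182) r7_363 r9_182 (nat_lit 0) (nat_lit 0) (nat_lit 0) (nat_lit 0x80029938e) (nat_lit 1073741824),
  Rx.mk (nat_lit 219) (nat_lit 3) (nat_lit 3) (nat_lit 3) (nat_lit 7) (nat_lit 365) (nat_lit 179) r7_365 r9_179 (nat_lit 0) (nat_lit 0) (nat_lit 0) (nat_lit 0x80029938e) (nat_lit 1073741824)]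
noncomputable def e25_49 : List Rx := [
  Rx.mk (nat_lit 0) (nat_lit 0) (nat_lit 0) (nat_lit 0) (nat_lit 0) (nat_lit 366) (nat_lit 68) r7_366 r9_68 (nat_lit 11576654) (nat_lit 3385952) (nat_lit 3477128) (nat_lit 0x34c2f965c) (nat_lit 2346711858),
  Rx.mk (nat_lit 3) (nat_lit 3) (nat_lit 0) (nat_lit 0) (nat_lit 1) (nat_lit 369) (nat_lit 70) r7_369 r9_70 (nat_lit 0) (nat_lit 4914479) (nat_lit 5437810) (nat_lit 0x6b8d41d70) (nat_lit 1425110413),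
  Rx.mk (nat_lit 8) (nat_lit 0) (nat_lit 1) (nat_lit 0) (nat_lit 2) (nat_lit 371) (nat_lit 69) r7_371 r9_69 (nat_lit 44159155) (nat_lit 0) (nat_lit 7389909) (nat_lit 0x66138ffea) (nat_lit 1557598988),
  Rx.mk (nat_lit 11) (nat_lit 3) (nat_lit 1) (nat_lit 0) (nat_lit 3) (nat_lit 374) (nat_lit 71) r7_374 r9_71 (nat_lit 0) (nat_lit 0) (nat_lit 5449534) (nat_lit 0x80029938e) (nat_lit 1079191358),
  Rx.mk (nat_lit 27) (nat_lit 3) (nat_lit 3) (nat_lit 0) (nat_lit 3) (nat_lit 378) (nat_lit 72) r7_378 r9_72 (nat_lit 0) (nat_lit 0) (nat_lit 5449534) (nat_lit 0x80029938e) (nat_lit 1079191358),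
  Rx.mk (nat_lit 128) (nat_lit 0) (nat_lit 0) (nat_lit 2) (nat_lit 4) (nat_lit 367) (nat_lit 74) r7_367 r9_74 (nat_lit 7900979) (nat_lit 6241714) (nat_lit 0) (nat_lit 0x694fdda3a) (nat_lit 1466245017),
  Rx.mk (nat_lit 130) (nat_lit 2) (nat_lit 0) (nat_lit 2) (nat_lit 5) (nat_lit 368) (nat_lit 79) r7_368 r9_79 (nat_lit 0) (nat_lit 5449534) (nat_lit 0) (nat_lit 0x7ff64ac54) (nat_lit 1079981358),
  Rx.mk (nat_lit 131) (nat_lit 3) (nat_lit 0) (nat_lit 2) (nat_lit 5) (nat_lit 370) (nat_lit 76) r7_370 r9_76 (nat_lit 0) (nat_lit 5449534) (nat_lit 0) (nat_lit 0x7ff6b914a) (nat_lit 1079953558),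
  Rx.mk (nat_lit 136) (nat_lit 0) (nat_lit 1) (nat_lit 2) (nat_lit 6) (nat_lit 372) (nat_lit 75) r7_372 r9_75 (nat_lit 5449534) (nat_lit 0) (nat_lit 0) (nat_lit 0x7fffb0fc8) (nat_lit 1079377758),
  Rx.mk (nat_lit 138) (nat_lit 2) (nat_lit 1) (nat_lit 2) (nat_lit 7) (nat_lit 373) (nat_lit 80) r7_373 r9_80 (nat_lit 0) (nat_lit 0) (nat_lit 0) (nat_lit 0x80029938e) (nat_lit 1073741824),
  Rx.mk (nat_lit 139) (nat_lit 3) (nat_lit 1) (nat_lit 2) (nat_lit 7) (nat_lit 375) (nat_lit 77) r7_375 r9_77 (nat_lit 0) (nat_lit 0) (nat_lit 0) (nat_lit 0x80029938e) (nat_lit 1073741824),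
  Rx.mk (nat_lit 146) (nat_lit 2) (nat_lit 2) (nat_lit 2) (nat_lit 7) (nat_lit 376) (nat_lit 81) r7_376 r9_81 (nat_lit 0) (nat_lit 0) (nat_lit 0) (nat_lit 0x80029938e) (nat_lit 1073741824),
  Rx.mk (nat_lit 155) (nat_lit 3) (nat_lit 3) (nat_lit 2) (nat_lit 7) (nat_lit 379) (nat_lit 78) r7_379 r9_78 (nat_lit 0) (nat_lit 0) (nat_lit 0) (nat_lit 0x80029938e) (nat_lit 1073741824),
  Rx.mk (nat_lit 219) (nat_lit 3) (nat_lit 3) (nat_lit 3) (nat_lit 7) (nat_lit 380) (nat_lit 73) r7_380 r9_73 (nat_lit 0) (nat_lit 0) (nat_lit 0) (nat_lit 0x80029938e) (nat_lit 1073741824),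
  Rx.mk (nat_lit 402) (nat_lit 2) (nat_lit 2) (nat_lit 6) (nat_lit 7) (nat_lit 377) (nat_lit 82) r7_377 r9_82 (nat_lit 0) (nat_lit 0) (nat_lit 0) (nat_lit 0x80029938e) (nat_lit 1073741824)]
noncomputable def e25_50 : List Rx := [
  Rx.mk (nat_lit 40) (nat_lit 0) (nat_lit 5) (nat_lit 0) (nat_lit 2) (nat_lit 412) (nat_lit 167) r7_412 r3_167 (nat_lit 13620) (nat_lit 0) (nat_lit 17692) (nat_lit 0x66343bea6) (nat_lit 1503873036),
  Rx.mk (nat_lit 43) (nat_lit 3) (nat_lit 5) (nat_lit 0) (nat_lit 3) (nat_lit 414) (nat_lit 169) r7_414 r3_169 (nat_lit 0) (nat_lit 0) (nat_lit 51739) (nat_lit 0x8025c8a44) (nat_lit 1071420663),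
  Rx.mk (nat_lit 104) (nat_lit 0) (nat_lit 5) (nat_lit 1) (nat_lit 6) (nat_lit 413) (nat_lit 168) r7_413 r3_168 (nat_lit 3317218) (nat_lit 0) (nat_lit 0) (nat_lit 0x73b921fbe) (nat_lit 1281818742),
  Rx.mk (nat_lit 107) (nat_lit 3) (nat_lit 5) (nat_lit 1) (nat_lit 7) (nat_lit 415) (nat_lit 170) r7_415 r3_170 (nat_lit 0) (nat_lit 0) (nat_lit 0) (nat_lit 0x89c325cac) (nat_lit 915957624)]
noncomputable def e25_51 : List Rx := [
  Rx.mk (nat_lit 11) (nat_lit 3) (nat_lit 1) (nat_lit 0) (nat_lit 3) (nat_lit 424) (nat_lit 170) r7_424 r4_170 (nat_lit 0) (nat_lit 0) (nat_lit 2874909) (nat_lit 0x8041c95d6) (nat_lit 1072582433),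
  Rx.mk (nat_lit 40) (nat_lit 0) (nat_lit 5) (nat_lit 0) (nat_lit 2) (nat_lit 427) (nat_lit 167) r7_427 r4_167 (nat_lit 6409400) (nat_lit 0) (nat_lit 2628537) (nat_lit 0x64e7bb690) (nat_lit 1534609061),
  Rx.mk (nat_lit 43) (nat_lit 3) (nat_lit 5) (nat_lit 0) (nat_lit 3) (nat_lit 429) (nat_lit 169) r7_429 r4_169 (nat_lit 0) (nat_lit 0) (nat_lit 1693168) (nat_lit 0x7fb51bd00) (nat_lit 1080428292),
  Rx.mk (nat_lit 75) (nat_lit 3) (nat_lit 1) (nat_lit 1) (nat_lit 7) (nat_lit 425) (nat_lit 172) r7_425 r4_172 (nat_lit 0) (nat_lit 0) (nat_lit 0) (nat_lit 0x80261c34c) (nat_lit 1071470624),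
  Rx.mk (nat_lit 104) (nat_lit 0) (nat_lit 5) (nat_lit 1) (nat_lit 6) (nat_lit 428) (nat_lit 168) r7_428 r4_168 (nat_lit 4040041) (nat_lit 0) (nat_lit 0) (nat_lit 0x8012909e0) (nat_lit 1076761165),
  Rx.mk (nat_lit 107) (nat_lit 3) (nat_lit 5) (nat_lit 1) (nat_lit 7) (nat_lit 430) (nat_lit 171) r7_430 r4_171 (nat_lit 0) (nat_lit 0) (nat_lit 0) (nat_lit 0x8073a79e0) (nat_lit 1066541824),
  Rx.mk (nat_lit 139) (nat_lit 3) (nat_lit 1) (nat_lit 2) (nat_lit 7) (nat_lit 426) (nat_lit 173) r7_426 r4_173 (nat_lit 0) (nat_lit 0) (nat_lit 0) (nat_lit 0x80261c34c) (nat_lit 1071470624)]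
noncomputable def e25_52 : List Rx := [
  Rx.mk (nat_lit 40) (nat_lit 0) (nat_lit 5) (nat_lit 0) (nat_lit 2) (nat_lit 444) (nat_lit 184) r7_444 r5_184 (nat_lit 10009322) (nat_lit 0) (nat_lit 2284157) (nat_lit 0x6e04ad22c) (nat_lit 1385922203),
  Rx.mk (nat_lit 43) (nat_lit 3) (nat_lit 5) (nat_lit 0) (nat_lit 3) (nat_lit 446) (nat_lit 186) r7_446 r5_186 (nat_lit 0) (nat_lit 0) (nat_lit 2216475) (nat_lit 0x802e1cf2e) (nat_lit 1073168099),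
  Rx.mk (nat_lit 104) (nat_lit 0) (nat_lit 5) (nat_lit 1) (nat_lit 6) (nat_lit 445) (nat_lit 185) r7_445 r5_185 (nat_lit 5449534) (nat_lit 0) (nat_lit 0) (nat_lit 0x80029938e) (nat_lit 1079191358),
  Rx.mk (nat_lit 107) (nat_lit 3) (nat_lit 5) (nat_lit 1) (nat_lit 7) (nat_lit 447) (nat_lit 187) r7_447 r5_187 (nat_lit 0) (nat_lit 0) (nat_lit 0) (nat_lit 0x8045fce28) (nat_lit 1069439724),
  Rx.mk (nat_lit 235) (nat_lit 3) (nat_lit 5) (nat_lit 3) (nat_lit 7) (nat_lit 448) (nat_lit 188) r7_448 r5_188 (nat_lit 0) (nat_lit 0) (nat_lit 0) (nat_lit 0x7fe8d0dda) (nat_lit 1075400424)]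
noncomputable def e25_53 : List Rx := [
  Rx.mk (nat_lit 40) (nat_lit 0) (nat_lit 5) (nat_lit 0) (nat_lit 2) (nat_lit 416) (nat_lit 265) r7_416 r4_265 (nat_lit 10345136) (nat_lit 0) (nat_lit 34184311) (nat_lit 0x6ebe1e59e) (nat_lit 1406084271),
  Rx.mk (nat_lit 41) (nat_lit 1) (nat_lit 5) (nat_lit 0) (nat_lit 3) (nat_lit 418) (nat_lit 266) r7_418 r4_266 (nat_lit 0) (nat_lit 0) (nat_lit 5449534) (nat_lit 0x80029938e) (nat_lit 1079191358),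
  Rx.mk (nat_lit 43) (nat_lit 3) (nat_lit 5) (nat_lit 0) (nat_lit 3) (nat_lit 420) (nat_lit 267) r7_420 r4_267 (nat_lit 0) (nat_lit 0) (nat_lit 4321044) (nat_lit 0x800f26f02) (nat_lit 1077257068),
  Rx.mk (nat_lit 104) (nat_lit 0) (nat_lit 5) (nat_lit 1) (nat_lit 6) (nat_lit 417) (nat_lit 268) r7_417 r4_268 (nat_lit 4100018) (nat_lit 0) (nat_lit 0) (nat_lit 0x801ea5dd4) (nat_lit 1076046742),
  Rx.mk (nat_lit 105) (nat_lit 1) (nat_lit 5) (nat_lit 1) (nat_lit 7) (nat_lit 419) (nat_lit 269) r7_419 r4_269 (nat_lit 0) (nat_lit 0) (nat_lit 0) (nat_lit 0x80029938e) (nat_lit 1073741824),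
  Rx.mk (nat_lit 107) (nat_lit 3) (nat_lit 5) (nat_lit 1) (nat_lit 7) (nat_lit 421) (nat_lit 270) r7_421 r4_270 (nat_lit 0) (nat_lit 0) (nat_lit 0) (nat_lit 0x80029938e) (nat_lit 1073741824)]
noncomputable def e25_54 : List Rx := [
  Rx.mk (nat_lit 11) (nat_lit 3) (nat_lit 1) (nat_lit 0) (nat_lit 3) (nat_lit 431) (nat_lit 188) r7_431 r10_188 (nat_lit 0) (nat_lit 0) (nat_lit 5449534) (nat_lit 0x80029938e) (nat_lit 1079191358),
  Rx.mk (nat_lit 40) (nat_lit 0) (nat_lit 5) (nat_lit 0) (nat_lit 2) (nat_lit 433) (nat_lit 183) r7_433 r10_183 (nat_lit 2862197) (nat_lit 0) (nat_lit 3562106) (nat_lit 0x6f8080cd6) (nat_lit 1355313627),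
  Rx.mk (nat_lit 41) (nat_lit 1) (nat_lit 5) (nat_lit 0) (nat_lit 3) (nat_lit 435) (nat_lit 185) r7_435 r10_185 (nat_lit 0) (nat_lit 0) (nat_lit 5449534) (nat_lit 0x80029938e) (nat_lit 1079191358),
  Rx.mk (nat_lit 43) (nat_lit 3) (nat_lit 5) (nat_lit 0) (nat_lit 3) (nat_lit 437) (nat_lit 187) r7_437 r10_187 (nat_lit 0) (nat_lit 0) (nat_lit 5449534) (nat_lit 0x80029938e) (nat_lit 1079191358),
  Rx.mk (nat_lit 75) (nat_lit 3) (nat_lit 1) (nat_lit 1) (nat_lit 7) (nat_lit 432) (nat_lit 190) r7_432 r10_190 (nat_lit 0) (nat_lit 0) (nat_lit 0) (nat_lit 0x80029938e) (nat_lit 1073741824),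
  Rx.mk (nat_lit 104) (nat_lit 0) (nat_lit 5) (nat_lit 1) (nat_lit 6) (nat_lit 434) (nat_lit 184) r7_434 r10_184 (nat_lit 5449534) (nat_lit 0) (nat_lit 0) (nat_lit 0x80029938e) (nat_lit 1079191358),
  Rx.mk (nat_lit 105) (nat_lit 1) (nat_lit 5) (nat_lit 1) (nat_lit 7) (nat_lit 436) (nat_lit 186) r7_436 r10_186 (nat_lit 0) (nat_lit 0) (nat_lit 0) (nat_lit 0x80029938e) (nat_lit 1073741824),
  Rx.mk (nat_lit 107) (nat_lit 3) (nat_lit 5) (nat_lit 1) (nat_lit 7) (nat_lit 438) (nat_lit 189) r7_438 r10_189 (nat_lit 0) (nat_lit 0) (nat_lit 0) (nat_lit 0x80029938e) (nat_lit 1073741824)]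
noncomputable def e25_55 : List Rx := [
  Rx.mk (nat_lit 40) (nat_lit 0) (nat_lit 5) (nat_lit 0) (nat_lit 2) (nat_lit 449) (nat_lit 212) r7_449 r11_212 (nat_lit 140034131) (nat_lit 0) (nat_lit 27051137) (nat_lit 0x7b544a5ac) (nat_lit 1318788992),
  Rx.mk (nat_lit 41) (nat_lit 1) (nat_lit 5) (nat_lit 0) (nat_lit 3) (nat_lit 451) (nat_lit 214) r7_451 r11_214 (nat_lit 0) (nat_lit 0) (nat_lit 5449534) (nat_lit 0x80029938e) (nat_lit 1079191358),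
  Rx.mk (nat_lit 43) (nat_lit 3) (nat_lit 5) (nat_lit 0) (nat_lit 3) (nat_lit 453) (nat_lit 216) r7_453 r11_216 (nat_lit 0) (nat_lit 0) (nat_lit 5449534) (nat_lit 0x80029938e) (nat_lit 1079191358),
  Rx.mk (nat_lit 104) (nat_lit 0) (nat_lit 5) (nat_lit 1) (nat_lit 6) (nat_lit 450) (nat_lit 213) r7_450 r11_213 (nat_lit 5449534) (nat_lit 0) (nat_lit 0) (nat_lit 0x80029938e) (nat_lit 1079191358),
  Rx.mk (nat_lit 105) (nat_lit 1) (nat_lit 5) (nat_lit 1) (nat_lit 7) (nat_lit 452) (nat_lit 215) r7_452 r11_215 (nat_lit 0) (nat_lit 0) (nat_lit 0) (nat_lit 0x80029938e) (nat_lit 1073741824),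
  Rx.mk (nat_lit 107) (nat_lit 3) (nat_lit 5) (nat_lit 1) (nat_lit 7) (nat_lit 454) (nat_lit 217) r7_454 r11_217 (nat_lit 0) (nat_lit 0) (nat_lit 0) (nat_lit 0x80029938e) (nat_lit 1073741824),
  Rx.mk (nat_lit 235) (nat_lit 3) (nat_lit 5) (nat_lit 3) (nat_lit 7) (nat_lit 455) (nat_lit 218) r7_455 r11_218 (nat_lit 0) (nat_lit 0) (nat_lit 0) (nat_lit 0x80029938e) (nat_lit 1073741824)]
noncomputable def e25_56 : List Rx := [
  Rx.mk (nat_lit 43) (nat_lit 3) (nat_lit 5) (nat_lit 0) (nat_lit 3) (nat_lit 422) (nat_lit 256) r7_422 r5_256 (nat_lit 0) (nat_lit 0) (nat_lit 1663775) (nat_lit 0x7ff356e8a) (nat_lit 1076373699),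
  Rx.mk (nat_lit 107) (nat_lit 3) (nat_lit 5) (nat_lit 1) (nat_lit 7) (nat_lit 423) (nat_lit 257) r7_423 r5_257 (nat_lit 0) (nat_lit 0) (nat_lit 0) (nat_lit 0x804fac05e) (nat_lit 1068822724)]
noncomputable def e25_57 : List Rx := [
  Rx.mk (nat_lit 11) (nat_lit 3) (nat_lit 1) (nat_lit 0) (nat_lit 3) (nat_lit 439) (nat_lit 303) r7_439 r11_303 (nat_lit 0) (nat_lit 0) (nat_lit 5449534) (nat_lit 0x80029938e) (nat_lit 1079191358),
  Rx.mk (nat_lit 43) (nat_lit 3) (nat_lit 5) (nat_lit 0) (nat_lit 3) (nat_lit 442) (nat_lit 306) r7_442 r11_306 (nat_lit 0) (nat_lit 0) (nat_lit 2211577) (nat_lit 0x80826cbe2) (nat_lit 1067819001),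
  Rx.mk (nat_lit 75) (nat_lit 3) (nat_lit 1) (nat_lit 1) (nat_lit 7) (nat_lit 440) (nat_lit 304) r7_440 r11_304 (nat_lit 0) (nat_lit 0) (nat_lit 0) (nat_lit 0x80029938e) (nat_lit 1073741824),
  Rx.mk (nat_lit 107) (nat_lit 3) (nat_lit 5) (nat_lit 1) (nat_lit 7) (nat_lit 443) (nat_lit 307) r7_443 r11_307 (nat_lit 0) (nat_lit 0) (nat_lit 0) (nat_lit 0x804af24dc) (nat_lit 1069126324),
  Rx.mk (nat_lit 139) (nat_lit 3) (nat_lit 1) (nat_lit 2) (nat_lit 7) (nat_lit 441) (nat_lit 305) r7_441 r11_305 (nat_lit 0) (nat_lit 0) (nat_lit 0) (nat_lit 0x80029938e) (nat_lit 1073741824)]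
noncomputable def e25 : List (List Rx) := [e25_0, e25_1, e25_2, e25_3, e25_4, e25_5, e25_6, e25_7, e25_8, e25_9, e25_10, e25_11, e25_12, e25_13, e25_14, e25_15, e25_16, e25_17, e25_18, e25_19, e25_20, e25_21, e25_22, e25_23, e25_24, e25_25, e25_26, e25_27, e25_28, e25_29, e25_30, e25_31, e25_32, e25_33, e25_34, e25_35, e25_36, e25_37, e25_38, e25_39, e25_40, e25_41, e25_42, e25_43, e25_44, e25_45, e25_46, e25_47, e25_48, e25_49, e25_50, e25_51, e25_52, e25_53, e25_54, e25_55, e25_56, e25_57]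
noncomputable def e26_0 : List Rx := [
  Rx.mk (nat_lit 108) (nat_lit 4) (nat_lit 5) (nat_lit 1) (nat_lit 6) (nat_lit 63) (nat_lit 185) r8_63 r0_185 (nat_lit 3657848) (nat_lit 0) (nat_lit 0) (nat_lit 0x7a789dc8e) (nat_lit 1169663972),
  Rx.mk (nat_lit 364) (nat_lit 4) (nat_lit 5) (nat_lit 5) (nat_lit 6) (nat_lit 64) (nat_lit 186) r8_64 r0_186 (nat_lit 4721594) (nat_lit 0) (nat_lit 0) (nat_lit 0x7cb5a7826) (nat_lit 1133415918),
  Rx.mk (nat_lit 367) (nat_lit 7) (nat_lit 5) (nat_lit 5) (nat_lit 7) (nat_lit 65) (nat_lit 187) r8_65 r0_187 (nat_lit 0) (nat_lit 0) (nat_lit 0) (nat_lit 0x801bc7158) (nat_lit 1072128324)]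
noncomputable def e26_1 : List Rx := [
  Rx.mk (nat_lit 364) (nat_lit 4) (nat_lit 5) (nat_lit 5) (nat_lit 6) (nat_lit 66) (nat_lit 199) r8_66 r1_199 (nat_lit 5449534) (nat_lit 0) (nat_lit 0) (nat_lit 0x7fdc2270a) (nat_lit 1081666058),
  Rx.mk (nat_lit 367) (nat_lit 7) (nat_lit 5) (nat_lit 5) (nat_lit 7) (nat_lit 67) (nat_lit 200) r8_67 r1_200 (nat_lit 0) (nat_lit 0) (nat_lit 0) (nat_lit 0x80029938e) (nat_lit 1073741824)]
noncomputable def e26_2 : List Rx := [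
  Rx.mk (nat_lit 292) (nat_lit 4) (nat_lit 4) (nat_lit 4) (nat_lit 0) (nat_lit 25) (nat_lit 203) r8_25 r2_203 (nat_lit 3308338) (nat_lit 993709) (nat_lit 1156022) (nat_lit 0x3dbd28666) (nat_lit 2184039993),
  Rx.mk (nat_lit 295) (nat_lit 7) (nat_lit 4) (nat_lit 4) (nat_lit 1) (nat_lit 27) (nat_lit 209) r8_27 r2_209 (nat_lit 0) (nat_lit 1896956) (nat_lit 2433110) (nat_lit 0x6c3167f62) (nat_lit 1408391590),
  Rx.mk (nat_lit 300) (nat_lit 4) (nat_lit 5) (nat_lit 4) (nat_lit 2) (nat_lit 30) (nat_lit 205) r8_30 r2_205 (nat_lit 9407743) (nat_lit 0) (nat_lit 14795548) (nat_lit 0x6e1ef5760) (nat_lit 1396127315),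
  Rx.mk (nat_lit 303) (nat_lit 7) (nat_lit 5) (nat_lit 4) (nat_lit 3) (nat_lit 32) (nat_lit 212) r8_32 r2_212 (nat_lit 0) (nat_lit 0) (nat_lit 5449534) (nat_lit 0x80029938e) (nat_lit 1079191358),
  Rx.mk (nat_lit 308) (nat_lit 4) (nat_lit 6) (nat_lit 4) (nat_lit 2) (nat_lit 35) (nat_lit 207) r8_35 r2_207 (nat_lit 3132479) (nat_lit 0) (nat_lit 8977988) (nat_lit 0x705befb3c) (nat_lit 1346715391),
  Rx.mk (nat_lit 310) (nat_lit 6) (nat_lit 6) (nat_lit 4) (nat_lit 3) (nat_lit 37) (nat_lit 218) r8_37 r2_218 (nat_lit 0) (nat_lit 0) (nat_lit 5449534) (nat_lit 0x80029938e) (nat_lit 1079191358),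
  Rx.mk (nat_lit 311) (nat_lit 7) (nat_lit 6) (nat_lit 4) (nat_lit 3) (nat_lit 40) (nat_lit 216) r8_40 r2_216 (nat_lit 0) (nat_lit 0) (nat_lit 5449534) (nat_lit 0x8001635b4) (nat_lit 1079268958),
  Rx.mk (nat_lit 356) (nat_lit 4) (nat_lit 4) (nat_lit 5) (nat_lit 4) (nat_lit 26) (nat_lit 204) r8_26 r2_204 (nat_lit 9535202) (nat_lit 7095241) (nat_lit 0) (nat_lit 0x62dbf9de0) (nat_lit 1576319567),
  Rx.mk (nat_lit 359) (nat_lit 7) (nat_lit 4) (nat_lit 5) (nat_lit 5) (nat_lit 28) (nat_lit 210) r8_28 r2_210 (nat_lit 0) (nat_lit 5449534) (nat_lit 0) (nat_lit 0x80029938e) (nat_lit 1079191358),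
  Rx.mk (nat_lit 364) (nat_lit 4) (nat_lit 5) (nat_lit 5) (nat_lit 6) (nat_lit 31) (nat_lit 206) r8_31 r2_206 (nat_lit 5449534) (nat_lit 0) (nat_lit 0) (nat_lit 0x80029938e) (nat_lit 1079191358),
  Rx.mk (nat_lit 367) (nat_lit 7) (nat_lit 5) (nat_lit 5) (nat_lit 7) (nat_lit 33) (nat_lit 213) r8_33 r2_213 (nat_lit 0) (nat_lit 0) (nat_lit 0) (nat_lit 0x80029938e) (nat_lit 1073741824),
  Rx.mk (nat_lit 372) (nat_lit 4) (nat_lit 6) (nat_lit 5) (nat_lit 6) (nat_lit 36) (nat_lit 208) r8_36 r2_208 (nat_lit 5449534) (nat_lit 0) (nat_lit 0) (nat_lit 0x80029938e) (nat_lit 1079191358),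
  Rx.mk (nat_lit 374) (nat_lit 6) (nat_lit 6) (nat_lit 5) (nat_lit 7) (nat_lit 38) (nat_lit 219) r8_38 r2_219 (nat_lit 0) (nat_lit 0) (nat_lit 0) (nat_lit 0x80029938e) (nat_lit 1073741824),
  Rx.mk (nat_lit 375) (nat_lit 7) (nat_lit 6) (nat_lit 5) (nat_lit 7) (nat_lit 41) (nat_lit 217) r8_41 r2_217 (nat_lit 0) (nat_lit 0) (nat_lit 0) (nat_lit 0x80029938e) (nat_lit 1073741824),
  Rx.mk (nat_lit 438) (nat_lit 6) (nat_lit 6) (nat_lit 6) (nat_lit 7) (nat_lit 39) (nat_lit 220) r8_39 r2_220 (nat_lit 0) (nat_lit 0) (nat_lit 0) (nat_lit 0x80029938e) (nat_lit 1073741824),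
  Rx.mk (nat_lit 487) (nat_lit 7) (nat_lit 4) (nat_lit 7) (nat_lit 5) (nat_lit 29) (nat_lit 211) r8_29 r2_211 (nat_lit 0) (nat_lit 5449534) (nat_lit 0) (nat_lit 0x800025e9a) (nat_lit 1079348458),
  Rx.mk (nat_lit 495) (nat_lit 7) (nat_lit 5) (nat_lit 7) (nat_lit 7) (nat_lit 34) (nat_lit 214) r8_34 r2_214 (nat_lit 0) (nat_lit 0) (nat_lit 0) (nat_lit 0x80029938e) (nat_lit 1073741824),
  Rx.mk (nat_lit 511) (nat_lit 7) (nat_lit 7) (nat_lit 7) (nat_lit 7) (nat_lit 42) (nat_lit 215) r8_42 r2_215 (nat_lit 0) (nat_lit 0) (nat_lit 0) (nat_lit 0x80029938e) (nat_lit 1073741824)]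
noncomputable def e26_3 : List Rx := [
  Rx.mk (nat_lit 108) (nat_lit 4) (nat_lit 5) (nat_lit 1) (nat_lit 6) (nat_lit 61) (nat_lit 171) r8_61 r3_171 (nat_lit 1085431) (nat_lit 0) (nat_lit 0) (nat_lit 0x787261944) (nat_lit 1200822755),
  Rx.mk (nat_lit 111) (nat_lit 7) (nat_lit 5) (nat_lit 1) (nat_lit 7) (nat_lit 62) (nat_lit 172) r8_62 r3_172 (nat_lit 0) (nat_lit 0) (nat_lit 0) (nat_lit 0x954b78356) (nat_lit 729459824)]
noncomputable def e26_4 : List Rx := [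
  Rx.mk (nat_lit 108) (nat_lit 4) (nat_lit 5) (nat_lit 1) (nat_lit 6) (nat_lit 68) (nat_lit 174) r8_68 r4_174 (nat_lit 4037317) (nat_lit 0) (nat_lit 0) (nat_lit 0x80012bc36) (nat_lit 1077868841),
  Rx.mk (nat_lit 111) (nat_lit 7) (nat_lit 5) (nat_lit 1) (nat_lit 7) (nat_lit 69) (nat_lit 175) r8_69 r4_175 (nat_lit 0) (nat_lit 0) (nat_lit 0) (nat_lit 0x80293ab46) (nat_lit 1071270624),
  Rx.mk (nat_lit 367) (nat_lit 7) (nat_lit 5) (nat_lit 5) (nat_lit 7) (nat_lit 70) (nat_lit 176) r8_70 r4_176 (nat_lit 0) (nat_lit 0) (nat_lit 0) (nat_lit 0x80029938e) (nat_lit 1073741824)]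
noncomputable def e26_5 : List Rx := [
  Rx.mk (nat_lit 108) (nat_lit 4) (nat_lit 5) (nat_lit 1) (nat_lit 6) (nat_lit 74) (nat_lit 189) r8_74 r5_189 (nat_lit 4548292) (nat_lit 0) (nat_lit 0) (nat_lit 0x801151fac) (nat_lit 1077347316),
  Rx.mk (nat_lit 111) (nat_lit 7) (nat_lit 5) (nat_lit 1) (nat_lit 7) (nat_lit 75) (nat_lit 190) r8_75 r5_190 (nat_lit 0) (nat_lit 0) (nat_lit 0) (nat_lit 0x802981c80) (nat_lit 1071252824)]
noncomputable def e26_6 : List Rx := [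
  Rx.mk (nat_lit 231) (nat_lit 7) (nat_lit 4) (nat_lit 3) (nat_lit 5) (nat_lit 43) (nat_lit 115) r8_43 r3_115 (nat_lit 0) (nat_lit 265194) (nat_lit 0) (nat_lit 0x80289589e) (nat_lit 1071507018),
  Rx.mk (nat_lit 239) (nat_lit 7) (nat_lit 5) (nat_lit 3) (nat_lit 7) (nat_lit 44) (nat_lit 116) r8_44 r3_116 (nat_lit 0) (nat_lit 0) (nat_lit 0) (nat_lit 0x85a4c7912) (nat_lit 982561124),
  Rx.mk (nat_lit 251) (nat_lit 3) (nat_lit 7) (nat_lit 3) (nat_lit 7) (nat_lit 45) (nat_lit 118) r8_45 r3_118 (nat_lit 0) (nat_lit 0) (nat_lit 0) (nat_lit 0x80217ebb4) (nat_lit 1071767324),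
  Rx.mk (nat_lit 255) (nat_lit 7) (nat_lit 7) (nat_lit 3) (nat_lit 7) (nat_lit 46) (nat_lit 117) r8_46 r3_117 (nat_lit 0) (nat_lit 0) (nat_lit 0) (nat_lit 0x80029938e) (nat_lit 1073741824)]
noncomputable def e26_7 : List Rx := [
  Rx.mk (nat_lit 251) (nat_lit 3) (nat_lit 7) (nat_lit 3) (nat_lit 7) (nat_lit 12) (nat_lit 132) r8_12 r0_132 (nat_lit 0) (nat_lit 0) (nat_lit 0) (nat_lit 0x7ffea679a) (nat_lit 1073995024),
  Rx.mk (nat_lit 255) (nat_lit 7) (nat_lit 7) (nat_lit 3) (nat_lit 7) (nat_lit 13) (nat_lit 131) r8_13 r0_131 (nat_lit 0) (nat_lit 0) (nat_lit 0) (nat_lit 0x80000807a) (nat_lit 1073906424),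
  Rx.mk (nat_lit 292) (nat_lit 4) (nat_lit 4) (nat_lit 4) (nat_lit 0) (nat_lit 0) (nat_lit 124) r8_0 r0_124 (nat_lit 19583288) (nat_lit 769730) (nat_lit 875647) (nat_lit 0x2e4eda24a) (nat_lit 2457082489),
  Rx.mk (nat_lit 300) (nat_lit 4) (nat_lit 5) (nat_lit 4) (nat_lit 2) (nat_lit 3) (nat_lit 127) r8_3 r0_127 (nat_lit 10202902) (nat_lit 0) (nat_lit 5177292) (nat_lit 0x5a407c046) (nat_lit 1718579418),
  Rx.mk (nat_lit 308) (nat_lit 4) (nat_lit 6) (nat_lit 4) (nat_lit 2) (nat_lit 6) (nat_lit 133) r8_6 r0_133 (nat_lit 19041550) (nat_lit 0) (nat_lit 11768288) (nat_lit 0x59527f2bc) (nat_lit 1749505762),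
  Rx.mk (nat_lit 310) (nat_lit 6) (nat_lit 6) (nat_lit 4) (nat_lit 3) (nat_lit 8) (nat_lit 136) r8_8 r0_136 (nat_lit 0) (nat_lit 0) (nat_lit 8974417) (nat_lit 0x79570f6e0) (nat_lit 1193845041),
  Rx.mk (nat_lit 438) (nat_lit 6) (nat_lit 6) (nat_lit 6) (nat_lit 7) (nat_lit 9) (nat_lit 138) r8_9 r0_138 (nat_lit 0) (nat_lit 0) (nat_lit 0) (nat_lit 0x80029938e) (nat_lit 1073741824),
  Rx.mk (nat_lit 484) (nat_lit 4) (nat_lit 4) (nat_lit 7) (nat_lit 4) (nat_lit 1) (nat_lit 125) r8_1 r0_125 (nat_lit 6110955) (nat_lit 6920669) (nat_lit 0) (nat_lit 0x5c1df8e8c) (nat_lit 1685132748),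
  Rx.mk (nat_lit 487) (nat_lit 7) (nat_lit 4) (nat_lit 7) (nat_lit 5) (nat_lit 2) (nat_lit 126) r8_2 r0_126 (nat_lit 0) (nat_lit 3304366) (nat_lit 0) (nat_lit 0x7121ef044) (nat_lit 1325017390),
  Rx.mk (nat_lit 492) (nat_lit 4) (nat_lit 5) (nat_lit 7) (nat_lit 6) (nat_lit 4) (nat_lit 128) r8_4 r0_128 (nat_lit 7519074) (nat_lit 0) (nat_lit 0) (nat_lit 0x7f790236e) (nat_lit 1090159298),
  Rx.mk (nat_lit 495) (nat_lit 7) (nat_lit 5) (nat_lit 7) (nat_lit 7) (nat_lit 5) (nat_lit 129) r8_5 r0_129 (nat_lit 0) (nat_lit 0) (nat_lit 0) (nat_lit 0x7ff585e22) (nat_lit 1074580824),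
  Rx.mk (nat_lit 500) (nat_lit 4) (nat_lit 6) (nat_lit 7) (nat_lit 6) (nat_lit 7) (nat_lit 134) r8_7 r0_134 (nat_lit 11254699) (nat_lit 0) (nat_lit 0) (nat_lit 0x7f97706d4) (nat_lit 1091919323),
  Rx.mk (nat_lit 502) (nat_lit 6) (nat_lit 6) (nat_lit 7) (nat_lit 7) (nat_lit 10) (nat_lit 137) r8_10 r0_137 (nat_lit 0) (nat_lit 0) (nat_lit 0) (nat_lit 0x80029938e) (nat_lit 1073741824),
  Rx.mk (nat_lit 503) (nat_lit 7) (nat_lit 6) (nat_lit 7) (nat_lit 7) (nat_lit 11) (nat_lit 135) r8_11 r0_135 (nat_lit 0) (nat_lit 0) (nat_lit 0) (nat_lit 0x7ff7f4f0a) (nat_lit 1074424424),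
  Rx.mk (nat_lit 511) (nat_lit 7) (nat_lit 7) (nat_lit 7) (nat_lit 7) (nat_lit 14) (nat_lit 130) r8_14 r0_130 (nat_lit 0) (nat_lit 0) (nat_lit 0) (nat_lit 0x7fe8c0fac) (nat_lit 1075405124)]
noncomputable def e26_8 : List Rx := [
  Rx.mk (nat_lit 292) (nat_lit 4) (nat_lit 4) (nat_lit 4) (nat_lit 0) (nat_lit 15) (nat_lit 131) r8_15 r1_131 (nat_lit 81717872) (nat_lit 11926250) (nat_lit 2913128) (nat_lit 0x48dac9494) (nat_lit 2089819574),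
  Rx.mk (nat_lit 300) (nat_lit 4) (nat_lit 5) (nat_lit 4) (nat_lit 2) (nat_lit 18) (nat_lit 134) r8_18 r1_134 (nat_lit 172043056) (nat_lit 0) (nat_lit 5603265) (nat_lit 0x79817c89c) (nat_lit 1359753945),
  Rx.mk (nat_lit 308) (nat_lit 4) (nat_lit 6) (nat_lit 4) (nat_lit 2) (nat_lit 21) (nat_lit 138) r8_21 r1_138 (nat_lit 139970032) (nat_lit 0) (nat_lit 4804096) (nat_lit 0x78866aa58) (nat_lit 1343234852),
  Rx.mk (nat_lit 310) (nat_lit 6) (nat_lit 6) (nat_lit 4) (nat_lit 3) (nat_lit 22) (nat_lit 139) r8_22 r1_139 (nat_lit 0) (nat_lit 0) (nat_lit 4861700) (nat_lit 0x7fe599e8c) (nat_lit 1080466924),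
  Rx.mk (nat_lit 438) (nat_lit 6) (nat_lit 6) (nat_lit 6) (nat_lit 7) (nat_lit 23) (nat_lit 140) r8_23 r1_140 (nat_lit 0) (nat_lit 0) (nat_lit 0) (nat_lit 0x80029938e) (nat_lit 1073741824),
  Rx.mk (nat_lit 484) (nat_lit 4) (nat_lit 4) (nat_lit 7) (nat_lit 4) (nat_lit 16) (nat_lit 132) r8_16 r1_132 (nat_lit 45348310) (nat_lit 24476340) (nat_lit 0) (nat_lit 0x716a0d466) (nat_lit 1386843574),
  Rx.mk (nat_lit 487) (nat_lit 7) (nat_lit 4) (nat_lit 7) (nat_lit 5) (nat_lit 17) (nat_lit 133) r8_17 r1_133 (nat_lit 0) (nat_lit 4792579) (nat_lit 0) (nat_lit 0x7ff6a942a) (nat_lit 1079300103),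
  Rx.mk (nat_lit 492) (nat_lit 4) (nat_lit 5) (nat_lit 7) (nat_lit 6) (nat_lit 19) (nat_lit 135) r8_19 r1_135 (nat_lit 5449534) (nat_lit 0) (nat_lit 0) (nat_lit 0x80029938e) (nat_lit 1079191358),
  Rx.mk (nat_lit 495) (nat_lit 7) (nat_lit 5) (nat_lit 7) (nat_lit 7) (nat_lit 20) (nat_lit 136) r8_20 r1_136 (nat_lit 0) (nat_lit 0) (nat_lit 0) (nat_lit 0x80029938e) (nat_lit 1073741824),
  Rx.mk (nat_lit 511) (nat_lit 7) (nat_lit 7) (nat_lit 7) (nat_lit 7) (nat_lit 24) (nat_lit 137) r8_24 r1_137 (nat_lit 0) (nat_lit 0) (nat_lit 0) (nat_lit 0x80029938e) (nat_lit 1073741824)]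
noncomputable def e26_9 : List Rx := [
  Rx.mk (nat_lit 231) (nat_lit 7) (nat_lit 4) (nat_lit 3) (nat_lit 5) (nat_lit 48) (nat_lit 116) r8_48 r4_116 (nat_lit 0) (nat_lit 3917153) (nat_lit 0) (nat_lit 0x801c7137e) (nat_lit 1076004277),
  Rx.mk (nat_lit 239) (nat_lit 7) (nat_lit 5) (nat_lit 3) (nat_lit 7) (nat_lit 51) (nat_lit 119) r8_51 r4_119 (nat_lit 0) (nat_lit 0) (nat_lit 0) (nat_lit 0x800f1e8de) (nat_lit 1072939424),
  Rx.mk (nat_lit 251) (nat_lit 3) (nat_lit 7) (nat_lit 3) (nat_lit 7) (nat_lit 56) (nat_lit 121) r8_56 r4_121 (nat_lit 0) (nat_lit 0) (nat_lit 0) (nat_lit 0x80029938e) (nat_lit 1073741824),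
  Rx.mk (nat_lit 255) (nat_lit 7) (nat_lit 7) (nat_lit 3) (nat_lit 7) (nat_lit 57) (nat_lit 120) r8_57 r4_120 (nat_lit 0) (nat_lit 0) (nat_lit 0) (nat_lit 0x80029938e) (nat_lit 1073741824),
  Rx.mk (nat_lit 484) (nat_lit 4) (nat_lit 4) (nat_lit 7) (nat_lit 4) (nat_lit 47) (nat_lit 114) r8_47 r4_114 (nat_lit 8571815) (nat_lit 9446528) (nat_lit 0) (nat_lit 0x6c370d6e2) (nat_lit 1421722967),
  Rx.mk (nat_lit 487) (nat_lit 7) (nat_lit 4) (nat_lit 7) (nat_lit 5) (nat_lit 49) (nat_lit 115) r8_49 r4_115 (nat_lit 0) (nat_lit 3225500) (nat_lit 0) (nat_lit 0x7ffacb274) (nat_lit 1077464224),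
  Rx.mk (nat_lit 492) (nat_lit 4) (nat_lit 5) (nat_lit 7) (nat_lit 6) (nat_lit 50) (nat_lit 117) r8_50 r4_117 (nat_lit 5449534) (nat_lit 0) (nat_lit 0) (nat_lit 0x80029938e) (nat_lit 1079191358),
  Rx.mk (nat_lit 495) (nat_lit 7) (nat_lit 5) (nat_lit 7) (nat_lit 7) (nat_lit 52) (nat_lit 118) r8_52 r4_118 (nat_lit 0) (nat_lit 0) (nat_lit 0) (nat_lit 0x802937ce8) (nat_lit 1071271324),
  Rx.mk (nat_lit 500) (nat_lit 4) (nat_lit 6) (nat_lit 7) (nat_lit 6) (nat_lit 53) (nat_lit 122) r8_53 r4_122 (nat_lit 5449534) (nat_lit 0) (nat_lit 0) (nat_lit 0x80029938e) (nat_lit 1079191358),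
  Rx.mk (nat_lit 502) (nat_lit 6) (nat_lit 6) (nat_lit 7) (nat_lit 7) (nat_lit 54) (nat_lit 124) r8_54 r4_124 (nat_lit 0) (nat_lit 0) (nat_lit 0) (nat_lit 0x80029938e) (nat_lit 1073741824),
  Rx.mk (nat_lit 503) (nat_lit 7) (nat_lit 6) (nat_lit 7) (nat_lit 7) (nat_lit 55) (nat_lit 123) r8_55 r4_123 (nat_lit 0) (nat_lit 0) (nat_lit 0) (nat_lit 0x802937ce8) (nat_lit 1071271324)]
noncomputable def e26_10 : List Rx := [
  Rx.mk (nat_lit 47) (nat_lit 7) (nat_lit 5) (nat_lit 0) (nat_lit 3) (nat_lit 71) (nat_lit 203) r8_71 r6_203 (nat_lit 0) (nat_lit 0) (nat_lit 1883603) (nat_lit 0x8036af1e6) (nat_lit 1072289527),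
  Rx.mk (nat_lit 111) (nat_lit 7) (nat_lit 5) (nat_lit 1) (nat_lit 7) (nat_lit 72) (nat_lit 204) r8_72 r6_204 (nat_lit 0) (nat_lit 0) (nat_lit 0) (nat_lit 0x8037bf9e6) (nat_lit 1070345324),
  Rx.mk (nat_lit 239) (nat_lit 7) (nat_lit 5) (nat_lit 3) (nat_lit 7) (nat_lit 73) (nat_lit 205) r8_73 r6_205 (nat_lit 0) (nat_lit 0) (nat_lit 0) (nat_lit 0x804b0c5b2) (nat_lit 1069117724)]
noncomputable def e26_11 : List Rx := [
  Rx.mk (nat_lit 231) (nat_lit 7) (nat_lit 4) (nat_lit 3) (nat_lit 5) (nat_lit 58) (nat_lit 115) r8_58 r5_115 (nat_lit 0) (nat_lit 3122645) (nat_lit 0) (nat_lit 0x801abea22) (nat_lit 1075316369),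
  Rx.mk (nat_lit 239) (nat_lit 7) (nat_lit 5) (nat_lit 3) (nat_lit 7) (nat_lit 59) (nat_lit 116) r8_59 r5_116 (nat_lit 0) (nat_lit 0) (nat_lit 0) (nat_lit 0x8019963ca) (nat_lit 1072269624),
  Rx.mk (nat_lit 255) (nat_lit 7) (nat_lit 7) (nat_lit 3) (nat_lit 7) (nat_lit 60) (nat_lit 117) r8_60 r5_117 (nat_lit 0) (nat_lit 0) (nat_lit 0) (nat_lit 0x80029938e) (nat_lit 1073741824)]
noncomputable def e26_12 : List Rx := [
  Rx.mk (nat_lit 108) (nat_lit 4) (nat_lit 5) (nat_lit 1) (nat_lit 6) (nat_lit 178) (nat_lit 289) r8_178 r0_289 (nat_lit 6119961) (nat_lit 0) (nat_lit 0) (nat_lit 0x72392b252) (nat_lit 1309645085),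
  Rx.mk (nat_lit 109) (nat_lit 5) (nat_lit 5) (nat_lit 1) (nat_lit 7) (nat_lit 179) (nat_lit 290) r8_179 r0_290 (nat_lit 0) (nat_lit 0) (nat_lit 0) (nat_lit 0x7ff99ecac) (nat_lit 1074318024)]
noncomputable def e26_13 : List Rx := [
  Rx.mk (nat_lit 108) (nat_lit 4) (nat_lit 5) (nat_lit 1) (nat_lit 6) (nat_lit 184) (nat_lit 241) r8_184 r7_241 (nat_lit 5449534) (nat_lit 0) (nat_lit 0) (nat_lit 0x80029938e) (nat_lit 1079191358),
  Rx.mk (nat_lit 109) (nat_lit 5) (nat_lit 5) (nat_lit 1) (nat_lit 7) (nat_lit 186) (nat_lit 243) r8_186 r7_243 (nat_lit 0) (nat_lit 0) (nat_lit 0) (nat_lit 0x80029938e) (nat_lit 1073741824),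
  Rx.mk (nat_lit 364) (nat_lit 4) (nat_lit 5) (nat_lit 5) (nat_lit 6) (nat_lit 185) (nat_lit 242) r8_185 r7_242 (nat_lit 5322975) (nat_lit 0) (nat_lit 0) (nat_lit 0x7ffd77ce8) (nat_lit 1079393799),
  Rx.mk (nat_lit 365) (nat_lit 5) (nat_lit 5) (nat_lit 5) (nat_lit 7) (nat_lit 187) (nat_lit 244) r8_187 r7_244 (nat_lit 0) (nat_lit 0) (nat_lit 0) (nat_lit 0x80029938e) (nat_lit 1073741824),
  Rx.mk (nat_lit 367) (nat_lit 7) (nat_lit 5) (nat_lit 5) (nat_lit 7) (nat_lit 188) (nat_lit 245) r8_188 r7_245 (nat_lit 0) (nat_lit 0) (nat_lit 0) (nat_lit 0x80029938e) (nat_lit 1073741824)]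
noncomputable def e26_14 : List Rx := [
  Rx.mk (nat_lit 109) (nat_lit 5) (nat_lit 5) (nat_lit 1) (nat_lit 7) (nat_lit 180) (nat_lit 286) r8_180 r1_286 (nat_lit 0) (nat_lit 0) (nat_lit 0) (nat_lit 0x80029938e) (nat_lit 1073741824)]
noncomputable def e26_15 : List Rx := [
  Rx.mk (nat_lit 109) (nat_lit 5) (nat_lit 5) (nat_lit 1) (nat_lit 7) (nat_lit 189) (nat_lit 189) r8_189 r8_189 (nat_lit 0) (nat_lit 0) (nat_lit 0) (nat_lit 0x80029938e) (nat_lit 1073741824),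
  Rx.mk (nat_lit 365) (nat_lit 5) (nat_lit 5) (nat_lit 5) (nat_lit 7) (nat_lit 190) (nat_lit 190) r8_190 r8_190 (nat_lit 0) (nat_lit 0) (nat_lit 0) (nat_lit 0x80029938e) (nat_lit 1073741824)]
noncomputable def e26_16 : List Rx := [
  Rx.mk (nat_lit 364) (nat_lit 4) (nat_lit 5) (nat_lit 5) (nat_lit 6) (nat_lit 191) (nat_lit 323) r8_191 r8_323 (nat_lit 5449534) (nat_lit 0) (nat_lit 0) (nat_lit 0x80029938e) (nat_lit 1079191358),
  Rx.mk (nat_lit 365) (nat_lit 5) (nat_lit 5) (nat_lit 5) (nat_lit 7) (nat_lit 192) (nat_lit 324) r8_192 r8_324 (nat_lit 0) (nat_lit 0) (nat_lit 0) (nat_lit 0x80029938e) (nat_lit 1073741824),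
  Rx.mk (nat_lit 367) (nat_lit 7) (nat_lit 5) (nat_lit 5) (nat_lit 7) (nat_lit 193) (nat_lit 325) r8_193 r8_325 (nat_lit 0) (nat_lit 0) (nat_lit 0) (nat_lit 0x80029938e) (nat_lit 1073741824)]
noncomputable def e26_17 : List Rx := [
  Rx.mk (nat_lit 292) (nat_lit 4) (nat_lit 4) (nat_lit 4) (nat_lit 0) (nat_lit 159) (nat_lit 183) r8_159 r9_183 (nat_lit 4762811) (nat_lit 4180839) (nat_lit 4825209) (nat_lit 0x39d32f3e6) (nat_lit 2257620983),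
  Rx.mk (nat_lit 295) (nat_lit 7) (nat_lit 4) (nat_lit 4) (nat_lit 1) (nat_lit 162) (nat_lit 192) r8_162 r9_192 (nat_lit 0) (nat_lit 6953306) (nat_lit 7933342) (nat_lit 0x6c913698e) (nat_lit 1412714672),
  Rx.mk (nat_lit 300) (nat_lit 4) (nat_lit 5) (nat_lit 4) (nat_lit 2) (nat_lit 165) (nat_lit 185) r8_165 r9_185 (nat_lit 6366403) (nat_lit 0) (nat_lit 16033224) (nat_lit 0x7150c9342) (nat_lit 1341058751),
  Rx.mk (nat_lit 303) (nat_lit 7) (nat_lit 5) (nat_lit 4) (nat_lit 3) (nat_lit 168) (nat_lit 195) r8_168 r9_195 (nat_lit 0) (nat_lit 0) (nat_lit 5449534) (nat_lit 0x80029938e) (nat_lit 1079191358),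
  Rx.mk (nat_lit 308) (nat_lit 4) (nat_lit 6) (nat_lit 4) (nat_lit 2) (nat_lit 171) (nat_lit 187) r8_171 r9_187 (nat_lit 11901673) (nat_lit 0) (nat_lit 16440661) (nat_lit 0x75402140a) (nat_lit 1281397658),
  Rx.mk (nat_lit 310) (nat_lit 6) (nat_lit 6) (nat_lit 4) (nat_lit 3) (nat_lit 174) (nat_lit 199) r8_174 r9_199 (nat_lit 0) (nat_lit 0) (nat_lit 5449534) (nat_lit 0x80029938e) (nat_lit 1079191358),
  Rx.mk (nat_lit 356) (nat_lit 4) (nat_lit 4) (nat_lit 5) (nat_lit 4) (nat_lit 160) (nat_lit 184) r8_160 r9_184 (nat_lit 6452239) (nat_lit 8082267) (nat_lit 0) (nat_lit 0x67b4a3a2a) (nat_lit 1493420030),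
  Rx.mk (nat_lit 357) (nat_lit 5) (nat_lit 4) (nat_lit 5) (nat_lit 5) (nat_lit 161) (nat_lit 189) r8_161 r9_189 (nat_lit 0) (nat_lit 5449534) (nat_lit 0) (nat_lit 0x80029938e) (nat_lit 1079191358),
  Rx.mk (nat_lit 359) (nat_lit 7) (nat_lit 4) (nat_lit 5) (nat_lit 5) (nat_lit 163) (nat_lit 193) r8_163 r9_193 (nat_lit 0) (nat_lit 5449534) (nat_lit 0) (nat_lit 0x80029938e) (nat_lit 1079191358),
  Rx.mk (nat_lit 364) (nat_lit 4) (nat_lit 5) (nat_lit 5) (nat_lit 6) (nat_lit 166) (nat_lit 186) r8_166 r9_186 (nat_lit 5449534) (nat_lit 0) (nat_lit 0) (nat_lit 0x80029938e) (nat_lit 1079191358),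
  Rx.mk (nat_lit 365) (nat_lit 5) (nat_lit 5) (nat_lit 5) (nat_lit 7) (nat_lit 167) (nat_lit 190) r8_167 r9_190 (nat_lit 0) (nat_lit 0) (nat_lit 0) (nat_lit 0x80029938e) (nat_lit 1073741824),
  Rx.mk (nat_lit 367) (nat_lit 7) (nat_lit 5) (nat_lit 5) (nat_lit 7) (nat_lit 169) (nat_lit 196) r8_169 r9_196 (nat_lit 0) (nat_lit 0) (nat_lit 0) (nat_lit 0x80029938e) (nat_lit 1073741824),
  Rx.mk (nat_lit 372) (nat_lit 4) (nat_lit 6) (nat_lit 5) (nat_lit 6) (nat_lit 172) (nat_lit 188) r8_172 r9_188 (nat_lit 5449534) (nat_lit 0) (nat_lit 0) (nat_lit 0x80029938e) (nat_lit 1079191358),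
  Rx.mk (nat_lit 373) (nat_lit 5) (nat_lit 6) (nat_lit 5) (nat_lit 7) (nat_lit 173) (nat_lit 191) r8_173 r9_191 (nat_lit 0) (nat_lit 0) (nat_lit 0) (nat_lit 0x80029938e) (nat_lit 1073741824),
  Rx.mk (nat_lit 374) (nat_lit 6) (nat_lit 6) (nat_lit 5) (nat_lit 7) (nat_lit 175) (nat_lit 200) r8_175 r9_200 (nat_lit 0) (nat_lit 0) (nat_lit 0) (nat_lit 0x80029938e) (nat_lit 1073741824),
  Rx.mk (nat_lit 438) (nat_lit 6) (nat_lit 6) (nat_lit 6) (nat_lit 7) (nat_lit 176) (nat_lit 201) r8_176 r9_201 (nat_lit 0) (nat_lit 0) (nat_lit 0) (nat_lit 0x80029938e) (nat_lit 1073741824),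
  Rx.mk (nat_lit 487) (nat_lit 7) (nat_lit 4) (nat_lit 7) (nat_lit 5) (nat_lit 164) (nat_lit 194) r8_164 r9_194 (nat_lit 0) (nat_lit 5449534) (nat_lit 0) (nat_lit 0x80029938e) (nat_lit 1079191358),
  Rx.mk (nat_lit 495) (nat_lit 7) (nat_lit 5) (nat_lit 7) (nat_lit 7) (nat_lit 170) (nat_lit 197) r8_170 r9_197 (nat_lit 0) (nat_lit 0) (nat_lit 0) (nat_lit 0x80029938e) (nat_lit 1073741824),
  Rx.mk (nat_lit 511) (nat_lit 7) (nat_lit 7) (nat_lit 7) (nat_lit 7) (nat_lit 177) (nat_lit 198) r8_177 r9_198 (nat_lit 0) (nat_lit 0) (nat_lit 0) (nat_lit 0x80029938e) (nat_lit 1073741824)]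
noncomputable def e26_18 : List Rx := [
  Rx.mk (nat_lit 108) (nat_lit 4) (nat_lit 5) (nat_lit 1) (nat_lit 6) (nat_lit 181) (nat_lit 304) r8_181 r4_304 (nat_lit 5449534) (nat_lit 0) (nat_lit 0) (nat_lit 0x80029938e) (nat_lit 1079191358),
  Rx.mk (nat_lit 109) (nat_lit 5) (nat_lit 5) (nat_lit 1) (nat_lit 7) (nat_lit 182) (nat_lit 305) r8_182 r4_305 (nat_lit 0) (nat_lit 0) (nat_lit 0) (nat_lit 0x80029938e) (nat_lit 1073741824),
  Rx.mk (nat_lit 111) (nat_lit 7) (nat_lit 5) (nat_lit 1) (nat_lit 7) (nat_lit 183) (nat_lit 306) r8_183 r4_306 (nat_lit 0) (nat_lit 0) (nat_lit 0) (nat_lit 0x80029938e) (nat_lit 1073741824)]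
noncomputable def e26_19 : List Rx := [
  Rx.mk (nat_lit 108) (nat_lit 4) (nat_lit 5) (nat_lit 1) (nat_lit 6) (nat_lit 194) (nat_lit 191) r8_194 r10_191 (nat_lit 5449534) (nat_lit 0) (nat_lit 0) (nat_lit 0x80029938e) (nat_lit 1079191358),
  Rx.mk (nat_lit 109) (nat_lit 5) (nat_lit 5) (nat_lit 1) (nat_lit 7) (nat_lit 195) (nat_lit 192) r8_195 r10_192 (nat_lit 0) (nat_lit 0) (nat_lit 0) (nat_lit 0x80029938e) (nat_lit 1073741824),
  Rx.mk (nat_lit 111) (nat_lit 7) (nat_lit 5) (nat_lit 1) (nat_lit 7) (nat_lit 196) (nat_lit 193) r8_196 r10_193 (nat_lit 0) (nat_lit 0) (nat_lit 0) (nat_lit 0x80029938e) (nat_lit 1073741824),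
  Rx.mk (nat_lit 367) (nat_lit 7) (nat_lit 5) (nat_lit 5) (nat_lit 7) (nat_lit 197) (nat_lit 194) r8_197 r10_194 (nat_lit 0) (nat_lit 0) (nat_lit 0) (nat_lit 0x80029938e) (nat_lit 1073741824)]
noncomputable def e26_20 : List Rx := [
  Rx.mk (nat_lit 108) (nat_lit 4) (nat_lit 5) (nat_lit 1) (nat_lit 6) (nat_lit 198) (nat_lit 219) r8_198 r11_219 (nat_lit 5449534) (nat_lit 0) (nat_lit 0) (nat_lit 0x80029938e) (nat_lit 1079191358),
  Rx.mk (nat_lit 109) (nat_lit 5) (nat_lit 5) (nat_lit 1) (nat_lit 7) (nat_lit 199) (nat_lit 220) r8_199 r11_220 (nat_lit 0) (nat_lit 0) (nat_lit 0) (nat_lit 0x80029938e) (nat_lit 1073741824),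
  Rx.mk (nat_lit 111) (nat_lit 7) (nat_lit 5) (nat_lit 1) (nat_lit 7) (nat_lit 200) (nat_lit 221) r8_200 r11_221 (nat_lit 0) (nat_lit 0) (nat_lit 0) (nat_lit 0x80029938e) (nat_lit 1073741824)]
noncomputable def e26_21 : List Rx := [
  Rx.mk (nat_lit 292) (nat_lit 4) (nat_lit 4) (nat_lit 4) (nat_lit 0) (nat_lit 133) (nat_lit 86) r8_133 r9_86 (nat_lit 67809161) (nat_lit 3458182) (nat_lit 5464222) (nat_lit 0x3d69a35d6) (nat_lit 2260766689),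
  Rx.mk (nat_lit 295) (nat_lit 7) (nat_lit 4) (nat_lit 4) (nat_lit 1) (nat_lit 135) (nat_lit 88) r8_135 r9_88 (nat_lit 0) (nat_lit 6919696) (nat_lit 6297923) (nat_lit 0x6f394a1f0) (nat_lit 1366753143),
  Rx.mk (nat_lit 308) (nat_lit 4) (nat_lit 6) (nat_lit 4) (nat_lit 2) (nat_lit 138) (nat_lit 92) r8_138 r9_92 (nat_lit 4176648) (nat_lit 0) (nat_lit 7704862) (nat_lit 0x6d546e2f8) (nat_lit 1396994434),
  Rx.mk (nat_lit 310) (nat_lit 6) (nat_lit 6) (nat_lit 4) (nat_lit 3) (nat_lit 140) (nat_lit 96) r8_140 r9_96 (nat_lit 0) (nat_lit 0) (nat_lit 5449534) (nat_lit 0x80029938e) (nat_lit 1079191358),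
  Rx.mk (nat_lit 311) (nat_lit 7) (nat_lit 6) (nat_lit 4) (nat_lit 3) (nat_lit 143) (nat_lit 94) r8_143 r9_94 (nat_lit 0) (nat_lit 0) (nat_lit 5449534) (nat_lit 0x80029938e) (nat_lit 1079191358),
  Rx.mk (nat_lit 356) (nat_lit 4) (nat_lit 4) (nat_lit 5) (nat_lit 4) (nat_lit 134) (nat_lit 87) r8_134 r9_87 (nat_lit 38723310) (nat_lit 9618943) (nat_lit 0) (nat_lit 0x6bfe9de7e) (nat_lit 1455718977),
  Rx.mk (nat_lit 359) (nat_lit 7) (nat_lit 4) (nat_lit 5) (nat_lit 5) (nat_lit 136) (nat_lit 89) r8_136 r9_89 (nat_lit 0) (nat_lit 5449534) (nat_lit 0) (nat_lit 0x80029938e) (nat_lit 1079191358),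
  Rx.mk (nat_lit 372) (nat_lit 4) (nat_lit 6) (nat_lit 5) (nat_lit 6) (nat_lit 139) (nat_lit 93) r8_139 r9_93 (nat_lit 5449534) (nat_lit 0) (nat_lit 0) (nat_lit 0x80029938e) (nat_lit 1079191358),
  Rx.mk (nat_lit 374) (nat_lit 6) (nat_lit 6) (nat_lit 5) (nat_lit 7) (nat_lit 141) (nat_lit 97) r8_141 r9_97 (nat_lit 0) (nat_lit 0) (nat_lit 0) (nat_lit 0x80029938e) (nat_lit 1073741824),
  Rx.mk (nat_lit 375) (nat_lit 7) (nat_lit 6) (nat_lit 5) (nat_lit 7) (nat_lit 144) (nat_lit 95) r8_144 r9_95 (nat_lit 0) (nat_lit 0) (nat_lit 0) (nat_lit 0x80029938e) (nat_lit 1073741824),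
  Rx.mk (nat_lit 438) (nat_lit 6) (nat_lit 6) (nat_lit 6) (nat_lit 7) (nat_lit 142) (nat_lit 98) r8_142 r9_98 (nat_lit 0) (nat_lit 0) (nat_lit 0) (nat_lit 0x80029938e) (nat_lit 1073741824),
  Rx.mk (nat_lit 487) (nat_lit 7) (nat_lit 4) (nat_lit 7) (nat_lit 5) (nat_lit 137) (nat_lit 90) r8_137 r9_90 (nat_lit 0) (nat_lit 5449534) (nat_lit 0) (nat_lit 0x80029938e) (nat_lit 1079191358),
  Rx.mk (nat_lit 511) (nat_lit 7) (nat_lit 7) (nat_lit 7) (nat_lit 7) (nat_lit 145) (nat_lit 91) r8_145 r9_91 (nat_lit 0) (nat_lit 0) (nat_lit 0) (nat_lit 0x80029938e) (nat_lit 1073741824)]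
noncomputable def e26_22 : List Rx := [
  Rx.mk (nat_lit 251) (nat_lit 3) (nat_lit 7) (nat_lit 3) (nat_lit 7) (nat_lit 76) (nat_lit 139) r8_76 r0_139 (nat_lit 0) (nat_lit 0) (nat_lit 0) (nat_lit 0x80000a14a) (nat_lit 1073905924),
  Rx.mk (nat_lit 255) (nat_lit 7) (nat_lit 7) (nat_lit 3) (nat_lit 7) (nat_lit 77) (nat_lit 140) r8_77 r0_140 (nat_lit 0) (nat_lit 0) (nat_lit 0) (nat_lit 0x7ffc024da) (nat_lit 1074164524)]
noncomputable def e26_23 : List Rx := [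
  Rx.mk (nat_lit 0) (nat_lit 0) (nat_lit 0) (nat_lit 0) (nat_lit 0) (nat_lit 90) (nat_lit 141) r8_90 r1_141 (nat_lit 12959764) (nat_lit 2925567) (nat_lit 6586378) (nat_lit 0x3ec2fab92) (nat_lit 2184013933),
  Rx.mk (nat_lit 24) (nat_lit 0) (nat_lit 3) (nat_lit 0) (nat_lit 2) (nat_lit 94) (nat_lit 142) r8_94 r1_142 (nat_lit 30884831) (nat_lit 0) (nat_lit 12510015) (nat_lit 0x700bf15a4) (nat_lit 1383215470),
  Rx.mk (nat_lit 27) (nat_lit 3) (nat_lit 3) (nat_lit 0) (nat_lit 3) (nat_lit 97) (nat_lit 143) r8_97 r1_143 (nat_lit 0) (nat_lit 0) (nat_lit 5544217) (nat_lit 0x7ffe8daa6) (nat_lit 1079545441),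
  Rx.mk (nat_lit 128) (nat_lit 0) (nat_lit 0) (nat_lit 2) (nat_lit 4) (nat_lit 91) (nat_lit 147) r8_91 r1_147 (nat_lit 10554535) (nat_lit 3013316) (nat_lit 0) (nat_lit 0x606b0776a) (nat_lit 1613957075),
  Rx.mk (nat_lit 130) (nat_lit 2) (nat_lit 0) (nat_lit 2) (nat_lit 5) (nat_lit 92) (nat_lit 150) r8_92 r1_150 (nat_lit 0) (nat_lit 4371124) (nat_lit 0) (nat_lit 0x7f9613cdc) (nat_lit 1085125348),
  Rx.mk (nat_lit 146) (nat_lit 2) (nat_lit 2) (nat_lit 2) (nat_lit 7) (nat_lit 93) (nat_lit 152) r8_93 r1_152 (nat_lit 0) (nat_lit 0) (nat_lit 0) (nat_lit 0x80029938e) (nat_lit 1073741824),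
  Rx.mk (nat_lit 152) (nat_lit 0) (nat_lit 3) (nat_lit 2) (nat_lit 6) (nat_lit 95) (nat_lit 148) r8_95 r1_148 (nat_lit 5449534) (nat_lit 0) (nat_lit 0) (nat_lit 0x80029938e) (nat_lit 1079191358),
  Rx.mk (nat_lit 154) (nat_lit 2) (nat_lit 3) (nat_lit 2) (nat_lit 7) (nat_lit 96) (nat_lit 151) r8_96 r1_151 (nat_lit 0) (nat_lit 0) (nat_lit 0) (nat_lit 0x80029938e) (nat_lit 1073741824),
  Rx.mk (nat_lit 155) (nat_lit 3) (nat_lit 3) (nat_lit 2) (nat_lit 7) (nat_lit 98) (nat_lit 149) r8_98 r1_149 (nat_lit 0) (nat_lit 0) (nat_lit 0) (nat_lit 0x80029938e) (nat_lit 1073741824),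
  Rx.mk (nat_lit 219) (nat_lit 3) (nat_lit 3) (nat_lit 3) (nat_lit 7) (nat_lit 99) (nat_lit 144) r8_99 r1_144 (nat_lit 0) (nat_lit 0) (nat_lit 0) (nat_lit 0x80029938e) (nat_lit 1073741824),
  Rx.mk (nat_lit 251) (nat_lit 3) (nat_lit 7) (nat_lit 3) (nat_lit 7) (nat_lit 100) (nat_lit 145) r8_100 r1_145 (nat_lit 0) (nat_lit 0) (nat_lit 0) (nat_lit 0x80029938e) (nat_lit 1073741824),
  Rx.mk (nat_lit 255) (nat_lit 7) (nat_lit 7) (nat_lit 3) (nat_lit 7) (nat_lit 101) (nat_lit 146) r8_101 r1_146 (nat_lit 0) (nat_lit 0) (nat_lit 0) (nat_lit 0x80029938e) (nat_lit 1073741824)]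
noncomputable def e26_24 : List Rx := [
  Rx.mk (nat_lit 231) (nat_lit 7) (nat_lit 4) (nat_lit 3) (nat_lit 5) (nat_lit 146) (nat_lit 126) r8_146 r4_126 (nat_lit 0) (nat_lit 5673761) (nat_lit 0) (nat_lit 0x7fec63c5e) (nat_lit 1080842585),
  Rx.mk (nat_lit 251) (nat_lit 3) (nat_lit 7) (nat_lit 3) (nat_lit 7) (nat_lit 147) (nat_lit 125) r8_147 r4_125 (nat_lit 0) (nat_lit 0) (nat_lit 0) (nat_lit 0x80029938e) (nat_lit 1073741824),
  Rx.mk (nat_lit 255) (nat_lit 7) (nat_lit 7) (nat_lit 3) (nat_lit 7) (nat_lit 148) (nat_lit 127) r8_148 r4_127 (nat_lit 0) (nat_lit 0) (nat_lit 0) (nat_lit 0x80029938e) (nat_lit 1073741824)]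
noncomputable def e26_25 : List Rx := [
  Rx.mk (nat_lit 251) (nat_lit 3) (nat_lit 7) (nat_lit 3) (nat_lit 7) (nat_lit 87) (nat_lit 141) r8_87 r7_141 (nat_lit 0) (nat_lit 0) (nat_lit 0) (nat_lit 0x80029938e) (nat_lit 1073741824),
  Rx.mk (nat_lit 255) (nat_lit 7) (nat_lit 7) (nat_lit 3) (nat_lit 7) (nat_lit 88) (nat_lit 140) r8_88 r7_140 (nat_lit 0) (nat_lit 0) (nat_lit 0) (nat_lit 0x80029938e) (nat_lit 1073741824),
  Rx.mk (nat_lit 292) (nat_lit 4) (nat_lit 4) (nat_lit 4) (nat_lit 0) (nat_lit 78) (nat_lit 136) r8_78 r7_136 (nat_lit 9910720) (nat_lit 3697174) (nat_lit 3078217) (nat_lit 0x365589f52) (nat_lit 2318735535),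
  Rx.mk (nat_lit 308) (nat_lit 4) (nat_lit 6) (nat_lit 4) (nat_lit 2) (nat_lit 81) (nat_lit 142) r8_81 r7_142 (nat_lit 2289832) (nat_lit 0) (nat_lit 2813309) (nat_lit 0x6a26a4636) (nat_lit 1443213565),
  Rx.mk (nat_lit 310) (nat_lit 6) (nat_lit 6) (nat_lit 4) (nat_lit 3) (nat_lit 83) (nat_lit 145) r8_83 r7_145 (nat_lit 0) (nat_lit 0) (nat_lit 5449534) (nat_lit 0x7ffa30abc) (nat_lit 1079730858),
  Rx.mk (nat_lit 438) (nat_lit 6) (nat_lit 6) (nat_lit 6) (nat_lit 7) (nat_lit 84) (nat_lit 147) r8_84 r7_147 (nat_lit 0) (nat_lit 0) (nat_lit 0) (nat_lit 0x80029938e) (nat_lit 1073741824),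
  Rx.mk (nat_lit 484) (nat_lit 4) (nat_lit 4) (nat_lit 7) (nat_lit 4) (nat_lit 79) (nat_lit 137) r8_79 r7_137 (nat_lit 5833776) (nat_lit 5820576) (nat_lit 0) (nat_lit 0x62f217bb8) (nat_lit 1569901976),
  Rx.mk (nat_lit 487) (nat_lit 7) (nat_lit 4) (nat_lit 7) (nat_lit 5) (nat_lit 80) (nat_lit 138) r8_80 r7_138 (nat_lit 0) (nat_lit 3594568) (nat_lit 0) (nat_lit 0x7ff2cfe44) (nat_lit 1078347292),
  Rx.mk (nat_lit 500) (nat_lit 4) (nat_lit 6) (nat_lit 7) (nat_lit 6) (nat_lit 82) (nat_lit 143) r8_82 r7_143 (nat_lit 5449534) (nat_lit 0) (nat_lit 0) (nat_lit 0x7ffb2a422) (nat_lit 1079668258),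
  Rx.mk (nat_lit 502) (nat_lit 6) (nat_lit 6) (nat_lit 7) (nat_lit 7) (nat_lit 85) (nat_lit 146) r8_85 r7_146 (nat_lit 0) (nat_lit 0) (nat_lit 0) (nat_lit 0x80029938e) (nat_lit 1073741824),
  Rx.mk (nat_lit 503) (nat_lit 7) (nat_lit 6) (nat_lit 7) (nat_lit 7) (nat_lit 86) (nat_lit 144) r8_86 r7_144 (nat_lit 0) (nat_lit 0) (nat_lit 0) (nat_lit 0x80029938e) (nat_lit 1073741824),
  Rx.mk (nat_lit 511) (nat_lit 7) (nat_lit 7) (nat_lit 7) (nat_lit 7) (nat_lit 89) (nat_lit 139) r8_89 r7_139 (nat_lit 0) (nat_lit 0) (nat_lit 0) (nat_lit 0x80029938e) (nat_lit 1073741824)]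
noncomputable def e26_26 : List Rx := [
  Rx.mk (nat_lit 0) (nat_lit 0) (nat_lit 0) (nat_lit 0) (nat_lit 0) (nat_lit 102) (nat_lit 114) r8_102 r8_114 (nat_lit 7669699) (nat_lit 3167351) (nat_lit 3541864) (nat_lit 0x3c2eed62c) (nat_lit 2218909038),
  Rx.mk (nat_lit 24) (nat_lit 0) (nat_lit 3) (nat_lit 0) (nat_lit 2) (nat_lit 108) (nat_lit 117) r8_108 r8_117 (nat_lit 570904) (nat_lit 0) (nat_lit 600781) (nat_lit 0x6f7ab234a) (nat_lit 1350424009),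
  Rx.mk (nat_lit 27) (nat_lit 3) (nat_lit 3) (nat_lit 0) (nat_lit 3) (nat_lit 111) (nat_lit 119) r8_111 r8_119 (nat_lit 0) (nat_lit 0) (nat_lit 5449534) (nat_lit 0x7ff50b064) (nat_lit 1080061658),
  Rx.mk (nat_lit 128) (nat_lit 0) (nat_lit 0) (nat_lit 2) (nat_lit 4) (nat_lit 103) (nat_lit 115) r8_103 r8_115 (nat_lit 4749179) (nat_lit 5260690) (nat_lit 0) (nat_lit 0x67a0009ec) (nat_lit 1490238693),
  Rx.mk (nat_lit 130) (nat_lit 2) (nat_lit 0) (nat_lit 2) (nat_lit 5) (nat_lit 104) (nat_lit 116) r8_104 r8_116 (nat_lit 0) (nat_lit 5449534) (nat_lit 0) (nat_lit 0x7ff093d10) (nat_lit 1080349458),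
  Rx.mk (nat_lit 146) (nat_lit 2) (nat_lit 2) (nat_lit 2) (nat_lit 7) (nat_lit 105) (nat_lit 125) r8_105 r8_125 (nat_lit 0) (nat_lit 0) (nat_lit 0) (nat_lit 0x80029938e) (nat_lit 1073741824),
  Rx.mk (nat_lit 152) (nat_lit 0) (nat_lit 3) (nat_lit 2) (nat_lit 6) (nat_lit 109) (nat_lit 118) r8_109 r8_118 (nat_lit 5031568) (nat_lit 0) (nat_lit 0) (nat_lit 0x7ff22df90) (nat_lit 1079827992),
  Rx.mk (nat_lit 154) (nat_lit 2) (nat_lit 3) (nat_lit 2) (nat_lit 7) (nat_lit 110) (nat_lit 122) r8_110 r8_122 (nat_lit 0) (nat_lit 0) (nat_lit 0) (nat_lit 0x80029938e) (nat_lit 1073741824),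
  Rx.mk (nat_lit 155) (nat_lit 3) (nat_lit 3) (nat_lit 2) (nat_lit 7) (nat_lit 112) (nat_lit 121) r8_112 r8_121 (nat_lit 0) (nat_lit 0) (nat_lit 0) (nat_lit 0x80029938e) (nat_lit 1073741824),
  Rx.mk (nat_lit 219) (nat_lit 3) (nat_lit 3) (nat_lit 3) (nat_lit 7) (nat_lit 113) (nat_lit 120) r8_113 r8_120 (nat_lit 0) (nat_lit 0) (nat_lit 0) (nat_lit 0x80029938e) (nat_lit 1073741824),
  Rx.mk (nat_lit 251) (nat_lit 3) (nat_lit 7) (nat_lit 3) (nat_lit 7) (nat_lit 123) (nat_lit 107) r8_123 r8_107 (nat_lit 0) (nat_lit 0) (nat_lit 0) (nat_lit 0x80029938e) (nat_lit 1073741824),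
  Rx.mk (nat_lit 255) (nat_lit 7) (nat_lit 7) (nat_lit 3) (nat_lit 7) (nat_lit 124) (nat_lit 106) r8_124 r8_106 (nat_lit 0) (nat_lit 0) (nat_lit 0) (nat_lit 0x80029938e) (nat_lit 1073741824),
  Rx.mk (nat_lit 292) (nat_lit 4) (nat_lit 4) (nat_lit 4) (nat_lit 0) (nat_lit 114) (nat_lit 102) r8_114 r8_102 (nat_lit 7669699) (nat_lit 3167351) (nat_lit 3541864) (nat_lit 0x3c2eed62c) (nat_lit 2218909038),
  Rx.mk (nat_lit 308) (nat_lit 4) (nat_lit 6) (nat_lit 4) (nat_lit 2) (nat_lit 117) (nat_lit 108) r8_117 r8_108 (nat_lit 570904) (nat_lit 0) (nat_lit 600781) (nat_lit 0x6f7ab234a) (nat_lit 1350424009),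
  Rx.mk (nat_lit 310) (nat_lit 6) (nat_lit 6) (nat_lit 4) (nat_lit 3) (nat_lit 119) (nat_lit 111) r8_119 r8_111 (nat_lit 0) (nat_lit 0) (nat_lit 5449534) (nat_lit 0x7ff50b064) (nat_lit 1080061658),
  Rx.mk (nat_lit 402) (nat_lit 2) (nat_lit 2) (nat_lit 6) (nat_lit 7) (nat_lit 106) (nat_lit 124) r8_106 r8_124 (nat_lit 0) (nat_lit 0) (nat_lit 0) (nat_lit 0x80029938e) (nat_lit 1073741824),
  Rx.mk (nat_lit 406) (nat_lit 6) (nat_lit 2) (nat_lit 6) (nat_lit 7) (nat_lit 107) (nat_lit 123) r8_107 r8_123 (nat_lit 0) (nat_lit 0) (nat_lit 0) (nat_lit 0x80029938e) (nat_lit 1073741824),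
  Rx.mk (nat_lit 438) (nat_lit 6) (nat_lit 6) (nat_lit 6) (nat_lit 7) (nat_lit 120) (nat_lit 113) r8_120 r8_113 (nat_lit 0) (nat_lit 0) (nat_lit 0) (nat_lit 0x80029938e) (nat_lit 1073741824),
  Rx.mk (nat_lit 484) (nat_lit 4) (nat_lit 4) (nat_lit 7) (nat_lit 4) (nat_lit 115) (nat_lit 103) r8_115 r8_103 (nat_lit 4749179) (nat_lit 5260690) (nat_lit 0) (nat_lit 0x67a0009ec) (nat_lit 1490238693),
  Rx.mk (nat_lit 487) (nat_lit 7) (nat_lit 4) (nat_lit 7) (nat_lit 5) (nat_lit 116) (nat_lit 104) r8_116 r8_104 (nat_lit 0) (nat_lit 5449534) (nat_lit 0) (nat_lit 0x7ff093d10) (nat_lit 1080349458),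
  Rx.mk (nat_lit 500) (nat_lit 4) (nat_lit 6) (nat_lit 7) (nat_lit 6) (nat_lit 118) (nat_lit 109) r8_118 r8_109 (nat_lit 5031568) (nat_lit 0) (nat_lit 0) (nat_lit 0x7ff22df90) (nat_lit 1079827992),
  Rx.mk (nat_lit 502) (nat_lit 6) (nat_lit 6) (nat_lit 7) (nat_lit 7) (nat_lit 121) (nat_lit 112) r8_121 r8_112 (nat_lit 0) (nat_lit 0) (nat_lit 0) (nat_lit 0x80029938e) (nat_lit 1073741824),
  Rx.mk (nat_lit 503) (nat_lit 7) (nat_lit 6) (nat_lit 7) (nat_lit 7) (nat_lit 122) (nat_lit 110) r8_122 r8_110 (nat_lit 0) (nat_lit 0) (nat_lit 0) (nat_lit 0x80029938e) (nat_lit 1073741824),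
  Rx.mk (nat_lit 511) (nat_lit 7) (nat_lit 7) (nat_lit 7) (nat_lit 7) (nat_lit 125) (nat_lit 105) r8_125 r8_105 (nat_lit 0) (nat_lit 0) (nat_lit 0) (nat_lit 0x80029938e) (nat_lit 1073741824)]
noncomputable def e26_27 : List Rx := [
  Rx.mk (nat_lit 292) (nat_lit 4) (nat_lit 4) (nat_lit 4) (nat_lit 0) (nat_lit 126) (nat_lit 126) r8_126 r8_126 (nat_lit 65670969) (nat_lit 5773073) (nat_lit 5773073) (nat_lit 0x424175d8e) (nat_lit 2180503739),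
  Rx.mk (nat_lit 308) (nat_lit 4) (nat_lit 6) (nat_lit 4) (nat_lit 2) (nat_lit 129) (nat_lit 127) r8_129 r8_127 (nat_lit 4551188) (nat_lit 0) (nat_lit 4933327) (nat_lit 0x6bd606ea2) (nat_lit 1419502739),
  Rx.mk (nat_lit 310) (nat_lit 6) (nat_lit 6) (nat_lit 4) (nat_lit 3) (nat_lit 130) (nat_lit 128) r8_130 r8_128 (nat_lit 0) (nat_lit 0) (nat_lit 5449534) (nat_lit 0x80029938e) (nat_lit 1079191358),
  Rx.mk (nat_lit 438) (nat_lit 6) (nat_lit 6) (nat_lit 6) (nat_lit 7) (nat_lit 131) (nat_lit 132) r8_131 r8_132 (nat_lit 0) (nat_lit 0) (nat_lit 0) (nat_lit 0x80029938e) (nat_lit 1073741824),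
  Rx.mk (nat_lit 484) (nat_lit 4) (nat_lit 4) (nat_lit 7) (nat_lit 4) (nat_lit 127) (nat_lit 129) r8_127 r8_129 (nat_lit 4551188) (nat_lit 4933327) (nat_lit 0) (nat_lit 0x6bd606ea2) (nat_lit 1419502739),
  Rx.mk (nat_lit 487) (nat_lit 7) (nat_lit 4) (nat_lit 7) (nat_lit 5) (nat_lit 128) (nat_lit 130) r8_128 r8_130 (nat_lit 0) (nat_lit 5449534) (nat_lit 0) (nat_lit 0x80029938e) (nat_lit 1079191358),
  Rx.mk (nat_lit 511) (nat_lit 7) (nat_lit 7) (nat_lit 7) (nat_lit 7) (nat_lit 132) (nat_lit 131) r8_132 r8_131 (nat_lit 0) (nat_lit 0) (nat_lit 0) (nat_lit 0x80029938e) (nat_lit 1073741824)]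
noncomputable def e26_28 : List Rx := [
  Rx.mk (nat_lit 231) (nat_lit 7) (nat_lit 4) (nat_lit 3) (nat_lit 5) (nat_lit 150) (nat_lit 103) r8_150 r10_103 (nat_lit 0) (nat_lit 5449534) (nat_lit 0) (nat_lit 0x80029938e) (nat_lit 1079191358),
  Rx.mk (nat_lit 251) (nat_lit 3) (nat_lit 7) (nat_lit 3) (nat_lit 7) (nat_lit 155) (nat_lit 105) r8_155 r10_105 (nat_lit 0) (nat_lit 0) (nat_lit 0) (nat_lit 0x80029938e) (nat_lit 1073741824),
  Rx.mk (nat_lit 255) (nat_lit 7) (nat_lit 7) (nat_lit 3) (nat_lit 7) (nat_lit 156) (nat_lit 104) r8_156 r10_104 (nat_lit 0) (nat_lit 0) (nat_lit 0) (nat_lit 0x80029938e) (nat_lit 1073741824),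
  Rx.mk (nat_lit 484) (nat_lit 4) (nat_lit 4) (nat_lit 7) (nat_lit 4) (nat_lit 149) (nat_lit 101) r8_149 r10_101 (nat_lit 6554309) (nat_lit 5127106) (nat_lit 0) (nat_lit 0x6a304083e) (nat_lit 1449170039),
  Rx.mk (nat_lit 487) (nat_lit 7) (nat_lit 4) (nat_lit 7) (nat_lit 5) (nat_lit 151) (nat_lit 102) r8_151 r10_102 (nat_lit 0) (nat_lit 3003115) (nat_lit 0) (nat_lit 0x801ee9084) (nat_lit 1074931639),
  Rx.mk (nat_lit 500) (nat_lit 4) (nat_lit 6) (nat_lit 7) (nat_lit 6) (nat_lit 152) (nat_lit 106) r8_152 r10_106 (nat_lit 5449534) (nat_lit 0) (nat_lit 0) (nat_lit 0x80029938e) (nat_lit 1079191358),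
  Rx.mk (nat_lit 502) (nat_lit 6) (nat_lit 6) (nat_lit 7) (nat_lit 7) (nat_lit 153) (nat_lit 108) r8_153 r10_108 (nat_lit 0) (nat_lit 0) (nat_lit 0) (nat_lit 0x80029938e) (nat_lit 1073741824),
  Rx.mk (nat_lit 503) (nat_lit 7) (nat_lit 6) (nat_lit 7) (nat_lit 7) (nat_lit 154) (nat_lit 107) r8_154 r10_107 (nat_lit 0) (nat_lit 0) (nat_lit 0) (nat_lit 0x80029938e) (nat_lit 1073741824)]
noncomputable def e26_29 : List Rx := [
  Rx.mk (nat_lit 231) (nat_lit 7) (nat_lit 4) (nat_lit 3) (nat_lit 5) (nat_lit 157) (nat_lit 113) r8_157 r11_113 (nat_lit 0) (nat_lit 5449534) (nat_lit 0) (nat_lit 0x80029938e) (nat_lit 1079191358),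
  Rx.mk (nat_lit 255) (nat_lit 7) (nat_lit 7) (nat_lit 3) (nat_lit 7) (nat_lit 158) (nat_lit 114) r8_158 r11_114 (nat_lit 0) (nat_lit 0) (nat_lit 0) (nat_lit 0x80029938e) (nat_lit 1073741824)]
noncomputable def e26_30 : List Rx := [
  Rx.mk (nat_lit 111) (nat_lit 7) (nat_lit 5) (nat_lit 1) (nat_lit 7) (nat_lit 218) (nat_lit 285) r8_218 r5_285 (nat_lit 0) (nat_lit 0) (nat_lit 0) (nat_lit 0x806366360) (nat_lit 1067572524)]
noncomputable def e26_31 : List Rx := [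
  Rx.mk (nat_lit 111) (nat_lit 7) (nat_lit 5) (nat_lit 1) (nat_lit 7) (nat_lit 219) (nat_lit 344) r8_219 r11_344 (nat_lit 0) (nat_lit 0) (nat_lit 0) (nat_lit 0x80029938e) (nat_lit 1073741824),
  Rx.mk (nat_lit 367) (nat_lit 7) (nat_lit 5) (nat_lit 5) (nat_lit 7) (nat_lit 220) (nat_lit 343) r8_220 r11_343 (nat_lit 0) (nat_lit 0) (nat_lit 0) (nat_lit 0x80029938e) (nat_lit 1073741824)]
noncomputable def e26_32 : List Rx := [
  Rx.mk (nat_lit 43) (nat_lit 3) (nat_lit 5) (nat_lit 0) (nat_lit 3) (nat_lit 221) (nat_lit 207) r8_221 r6_207 (nat_lit 0) (nat_lit 0) (nat_lit 5449534) (nat_lit 0x80029938e) (nat_lit 1079191358),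
  Rx.mk (nat_lit 107) (nat_lit 3) (nat_lit 5) (nat_lit 1) (nat_lit 7) (nat_lit 222) (nat_lit 208) r8_222 r6_208 (nat_lit 0) (nat_lit 0) (nat_lit 0) (nat_lit 0x80029938e) (nat_lit 1073741824),
  Rx.mk (nat_lit 235) (nat_lit 3) (nat_lit 5) (nat_lit 3) (nat_lit 7) (nat_lit 223) (nat_lit 209) r8_223 r6_209 (nat_lit 0) (nat_lit 0) (nat_lit 0) (nat_lit 0x80029938e) (nat_lit 1073741824),
  Rx.mk (nat_lit 239) (nat_lit 7) (nat_lit 5) (nat_lit 3) (nat_lit 7) (nat_lit 224) (nat_lit 206) r8_224 r6_206 (nat_lit 0) (nat_lit 0) (nat_lit 0) (nat_lit 0x8065dab1e) (nat_lit 1067416324)]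
noncomputable def e26_33 : List Rx := [
  Rx.mk (nat_lit 227) (nat_lit 3) (nat_lit 4) (nat_lit 3) (nat_lit 5) (nat_lit 201) (nat_lit 118) r8_201 r5_118 (nat_lit 0) (nat_lit 5787882) (nat_lit 0) (nat_lit 0x7f8f3dde0) (nat_lit 1086988006),
  Rx.mk (nat_lit 231) (nat_lit 7) (nat_lit 4) (nat_lit 3) (nat_lit 5) (nat_lit 202) (nat_lit 121) r8_202 r5_121 (nat_lit 0) (nat_lit 1910235) (nat_lit 0) (nat_lit 0x7f9e71762) (nat_lit 1082109159),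
  Rx.mk (nat_lit 235) (nat_lit 3) (nat_lit 5) (nat_lit 3) (nat_lit 7) (nat_lit 203) (nat_lit 119) r8_203 r5_119 (nat_lit 0) (nat_lit 0) (nat_lit 0) (nat_lit 0x80029938e) (nat_lit 1073741824),
  Rx.mk (nat_lit 239) (nat_lit 7) (nat_lit 5) (nat_lit 3) (nat_lit 7) (nat_lit 204) (nat_lit 122) r8_204 r5_122 (nat_lit 0) (nat_lit 0) (nat_lit 0) (nat_lit 0x805be6810) (nat_lit 1068047724),
  Rx.mk (nat_lit 251) (nat_lit 3) (nat_lit 7) (nat_lit 3) (nat_lit 7) (nat_lit 205) (nat_lit 120) r8_205 r5_120 (nat_lit 0) (nat_lit 0) (nat_lit 0) (nat_lit 0x80029938e) (nat_lit 1073741824)]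
noncomputable def e26_34 : List Rx := [
  Rx.mk (nat_lit 227) (nat_lit 3) (nat_lit 4) (nat_lit 3) (nat_lit 5) (nat_lit 206) (nat_lit 115) r8_206 r11_115 (nat_lit 0) (nat_lit 5612407) (nat_lit 0) (nat_lit 0x7ff40af5c) (nat_lit 1080288431),
  Rx.mk (nat_lit 231) (nat_lit 7) (nat_lit 4) (nat_lit 3) (nat_lit 5) (nat_lit 207) (nat_lit 118) r8_207 r11_118 (nat_lit 0) (nat_lit 5449534) (nat_lit 0) (nat_lit 0x80029938e) (nat_lit 1079191358),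
  Rx.mk (nat_lit 235) (nat_lit 3) (nat_lit 5) (nat_lit 3) (nat_lit 7) (nat_lit 209) (nat_lit 116) r8_209 r11_116 (nat_lit 0) (nat_lit 0) (nat_lit 0) (nat_lit 0x80029938e) (nat_lit 1073741824),
  Rx.mk (nat_lit 239) (nat_lit 7) (nat_lit 5) (nat_lit 3) (nat_lit 7) (nat_lit 210) (nat_lit 119) r8_210 r11_119 (nat_lit 0) (nat_lit 0) (nat_lit 0) (nat_lit 0x80029938e) (nat_lit 1073741824),
  Rx.mk (nat_lit 251) (nat_lit 3) (nat_lit 7) (nat_lit 3) (nat_lit 7) (nat_lit 213) (nat_lit 117) r8_213 r11_117 (nat_lit 0) (nat_lit 0) (nat_lit 0) (nat_lit 0x80029938e) (nat_lit 1073741824),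
  Rx.mk (nat_lit 487) (nat_lit 7) (nat_lit 4) (nat_lit 7) (nat_lit 5) (nat_lit 208) (nat_lit 120) r8_208 r11_120 (nat_lit 0) (nat_lit 4232301) (nat_lit 0) (nat_lit 0x8010bf30a) (nat_lit 1077067325),
  Rx.mk (nat_lit 495) (nat_lit 7) (nat_lit 5) (nat_lit 7) (nat_lit 7) (nat_lit 211) (nat_lit 121) r8_211 r11_121 (nat_lit 0) (nat_lit 0) (nat_lit 0) (nat_lit 0x80029938e) (nat_lit 1073741824),
  Rx.mk (nat_lit 503) (nat_lit 7) (nat_lit 6) (nat_lit 7) (nat_lit 7) (nat_lit 212) (nat_lit 122) r8_212 r11_122 (nat_lit 0) (nat_lit 0) (nat_lit 0) (nat_lit 0x80029938e) (nat_lit 1073741824)]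
noncomputable def e26_35 : List Rx := [
  Rx.mk (nat_lit 43) (nat_lit 3) (nat_lit 5) (nat_lit 0) (nat_lit 3) (nat_lit 214) (nat_lit 300) r8_214 r6_300 (nat_lit 0) (nat_lit 0) (nat_lit 5771941) (nat_lit 0x7fecf9a7e) (nat_lit 1080903565),
  Rx.mk (nat_lit 47) (nat_lit 7) (nat_lit 5) (nat_lit 0) (nat_lit 3) (nat_lit 216) (nat_lit 301) r8_216 r6_301 (nat_lit 0) (nat_lit 0) (nat_lit 1646791) (nat_lit 0x803c7d550) (nat_lit 1071692415),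
  Rx.mk (nat_lit 107) (nat_lit 3) (nat_lit 5) (nat_lit 1) (nat_lit 7) (nat_lit 215) (nat_lit 302) r8_215 r6_302 (nat_lit 0) (nat_lit 0) (nat_lit 0) (nat_lit 0x80029938e) (nat_lit 1073741824),
  Rx.mk (nat_lit 111) (nat_lit 7) (nat_lit 5) (nat_lit 1) (nat_lit 7) (nat_lit 217) (nat_lit 303) r8_217 r6_303 (nat_lit 0) (nat_lit 0) (nat_lit 0) (nat_lit 0x803843b1a) (nat_lit 1070312524)]
noncomputable def e26_36 : List Rx := [
  Rx.mk (nat_lit 43) (nat_lit 3) (nat_lit 5) (nat_lit 0) (nat_lit 3) (nat_lit 225) (nat_lit 203) r8_225 r12_203 (nat_lit 0) (nat_lit 0) (nat_lit 6182575) (nat_lit 0x7fd1de596) (nat_lit 1083062199),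
  Rx.mk (nat_lit 47) (nat_lit 7) (nat_lit 5) (nat_lit 0) (nat_lit 3) (nat_lit 227) (nat_lit 205) r8_227 r12_205 (nat_lit 0) (nat_lit 0) (nat_lit 1064185) (nat_lit 0x8026828f4) (nat_lit 1072501409),
  Rx.mk (nat_lit 107) (nat_lit 3) (nat_lit 5) (nat_lit 1) (nat_lit 7) (nat_lit 226) (nat_lit 204) r8_226 r12_204 (nat_lit 0) (nat_lit 0) (nat_lit 0) (nat_lit 0x80029938e) (nat_lit 1073741824),
  Rx.mk (nat_lit 111) (nat_lit 7) (nat_lit 5) (nat_lit 1) (nat_lit 7) (nat_lit 228) (nat_lit 206) r8_228 r12_206 (nat_lit 0) (nat_lit 0) (nat_lit 0) (nat_lit 0x809967572) (nat_lit 1064151724),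
  Rx.mk (nat_lit 239) (nat_lit 7) (nat_lit 5) (nat_lit 3) (nat_lit 7) (nat_lit 229) (nat_lit 207) r8_229 r12_207 (nat_lit 0) (nat_lit 0) (nat_lit 0) (nat_lit 0x80d3793a0) (nat_lit 1060477524)]
noncomputable def e26_37 : List Rx := [
  Rx.mk (nat_lit 8) (nat_lit 0) (nat_lit 1) (nat_lit 0) (nat_lit 2) (nat_lit 241) (nat_lit 188) r8_241 r0_188 (nat_lit 36183064) (nat_lit 0) (nat_lit 3077458) (nat_lit 0x574fcceae) (nat_lit 1791474846),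
  Rx.mk (nat_lit 11) (nat_lit 3) (nat_lit 1) (nat_lit 0) (nat_lit 3) (nat_lit 244) (nat_lit 191) r8_244 r0_191 (nat_lit 0) (nat_lit 0) (nat_lit 2945103) (nat_lit 0x79da08f6a) (nat_lit 1179289527),
  Rx.mk (nat_lit 72) (nat_lit 0) (nat_lit 1) (nat_lit 1) (nat_lit 6) (nat_lit 242) (nat_lit 189) r8_242 r0_189 (nat_lit 7351485) (nat_lit 0) (nat_lit 0) (nat_lit 0x7a4837e50) (nat_lit 1176515009),
  Rx.mk (nat_lit 75) (nat_lit 3) (nat_lit 1) (nat_lit 1) (nat_lit 7) (nat_lit 245) (nat_lit 192) r8_245 r0_192 (nat_lit 0) (nat_lit 0) (nat_lit 0) (nat_lit 0x7fff97802) (nat_lit 1073934624),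
  Rx.mk (nat_lit 136) (nat_lit 0) (nat_lit 1) (nat_lit 2) (nat_lit 6) (nat_lit 243) (nat_lit 190) r8_243 r0_190 (nat_lit 188397076) (nat_lit 0) (nat_lit 0) (nat_lit 0x7fb4f6636) (nat_lit 1267133600),
  Rx.mk (nat_lit 139) (nat_lit 3) (nat_lit 1) (nat_lit 2) (nat_lit 7) (nat_lit 246) (nat_lit 194) r8_246 r0_194 (nat_lit 0) (nat_lit 0) (nat_lit 0) (nat_lit 0x80029938e) (nat_lit 1073741824),
  Rx.mk (nat_lit 203) (nat_lit 3) (nat_lit 1) (nat_lit 3) (nat_lit 7) (nat_lit 247) (nat_lit 193) r8_247 r0_193 (nat_lit 0) (nat_lit 0) (nat_lit 0) (nat_lit 0x80029938e) (nat_lit 1073741824)]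
noncomputable def e26_38 : List Rx := [
  Rx.mk (nat_lit 8) (nat_lit 0) (nat_lit 1) (nat_lit 0) (nat_lit 2) (nat_lit 230) (nat_lit 271) r8_230 r0_271 (nat_lit 10233960) (nat_lit 0) (nat_lit 7556884) (nat_lit 0x4f43b3c9c) (nat_lit 1904185068),
  Rx.mk (nat_lit 9) (nat_lit 1) (nat_lit 1) (nat_lit 0) (nat_lit 3) (nat_lit 232) (nat_lit 272) r8_232 r0_272 (nat_lit 0) (nat_lit 0) (nat_lit 7909290) (nat_lit 0x7a5a2401e) (nat_lit 1175906214),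
  Rx.mk (nat_lit 11) (nat_lit 3) (nat_lit 1) (nat_lit 0) (nat_lit 3) (nat_lit 234) (nat_lit 273) r8_234 r0_273 (nat_lit 0) (nat_lit 0) (nat_lit 6684980) (nat_lit 0x7f181fd94) (nat_lit 1095629604),
  Rx.mk (nat_lit 40) (nat_lit 0) (nat_lit 5) (nat_lit 0) (nat_lit 2) (nat_lit 237) (nat_lit 278) r8_237 r0_278 (nat_lit 3003976) (nat_lit 0) (nat_lit 8414272) (nat_lit 0x59cd441c8) (nat_lit 1722113272),
  Rx.mk (nat_lit 41) (nat_lit 1) (nat_lit 5) (nat_lit 0) (nat_lit 3) (nat_lit 239) (nat_lit 279) r8_239 r0_279 (nat_lit 0) (nat_lit 0) (nat_lit 5449534) (nat_lit 0x7f7c3426c) (nat_lit 1087884558),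
  Rx.mk (nat_lit 72) (nat_lit 0) (nat_lit 1) (nat_lit 1) (nat_lit 6) (nat_lit 231) (nat_lit 274) r8_231 r0_274 (nat_lit 7503020) (nat_lit 0) (nat_lit 0) (nat_lit 0x6d6ab5fac) (nat_lit 1391167544),
  Rx.mk (nat_lit 73) (nat_lit 1) (nat_lit 1) (nat_lit 1) (nat_lit 7) (nat_lit 233) (nat_lit 275) r8_233 r0_275 (nat_lit 0) (nat_lit 0) (nat_lit 0) (nat_lit 0x7fcefe272) (nat_lit 1077071724),
  Rx.mk (nat_lit 75) (nat_lit 3) (nat_lit 1) (nat_lit 1) (nat_lit 7) (nat_lit 235) (nat_lit 276) r8_235 r0_276 (nat_lit 0) (nat_lit 0) (nat_lit 0) (nat_lit 0x80001f996) (nat_lit 1073900524),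
  Rx.mk (nat_lit 104) (nat_lit 0) (nat_lit 5) (nat_lit 1) (nat_lit 6) (nat_lit 238) (nat_lit 280) r8_238 r0_280 (nat_lit 5951502) (nat_lit 0) (nat_lit 0) (nat_lit 0x73924f6f2) (nat_lit 1286998026),
  Rx.mk (nat_lit 105) (nat_lit 1) (nat_lit 5) (nat_lit 1) (nat_lit 7) (nat_lit 240) (nat_lit 281) r8_240 r0_281 (nat_lit 0) (nat_lit 0) (nat_lit 0) (nat_lit 0x800f47324) (nat_lit 1072928224),
  Rx.mk (nat_lit 203) (nat_lit 3) (nat_lit 1) (nat_lit 3) (nat_lit 7) (nat_lit 236) (nat_lit 277) r8_236 r0_277 (nat_lit 0) (nat_lit 0) (nat_lit 0) (nat_lit 0x80029938e) (nat_lit 1073741824)]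
noncomputable def e26_39 : List Rx := [
  Rx.mk (nat_lit 8) (nat_lit 0) (nat_lit 1) (nat_lit 0) (nat_lit 2) (nat_lit 248) (nat_lit 246) r8_248 r7_246 (nat_lit 18822904) (nat_lit 0) (nat_lit 9806922) (nat_lit 0x645205e84) (nat_lit 1563957550),
  Rx.mk (nat_lit 9) (nat_lit 1) (nat_lit 1) (nat_lit 0) (nat_lit 3) (nat_lit 251) (nat_lit 249) r8_251 r7_249 (nat_lit 0) (nat_lit 0) (nat_lit 5449534) (nat_lit 0x80029938e) (nat_lit 1079191358),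
  Rx.mk (nat_lit 11) (nat_lit 3) (nat_lit 1) (nat_lit 0) (nat_lit 3) (nat_lit 254) (nat_lit 252) r8_254 r7_252 (nat_lit 0) (nat_lit 0) (nat_lit 5560769) (nat_lit 0x800073c4e) (nat_lit 1079440193),
  Rx.mk (nat_lit 72) (nat_lit 0) (nat_lit 1) (nat_lit 1) (nat_lit 6) (nat_lit 249) (nat_lit 247) r8_249 r7_247 (nat_lit 5661505) (nat_lit 0) (nat_lit 0) (nat_lit 0x7ff885e6a) (nat_lit 1080049829),
  Rx.mk (nat_lit 73) (nat_lit 1) (nat_lit 1) (nat_lit 1) (nat_lit 7) (nat_lit 252) (nat_lit 250) r8_252 r7_250 (nat_lit 0) (nat_lit 0) (nat_lit 0) (nat_lit 0x80029938e) (nat_lit 1073741824),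
  Rx.mk (nat_lit 75) (nat_lit 3) (nat_lit 1) (nat_lit 1) (nat_lit 7) (nat_lit 255) (nat_lit 253) r8_255 r7_253 (nat_lit 0) (nat_lit 0) (nat_lit 0) (nat_lit 0x80029938e) (nat_lit 1073741824),
  Rx.mk (nat_lit 136) (nat_lit 0) (nat_lit 1) (nat_lit 2) (nat_lit 6) (nat_lit 250) (nat_lit 248) r8_250 r7_248 (nat_lit 5449534) (nat_lit 0) (nat_lit 0) (nat_lit 0x80029938e) (nat_lit 1079191358),
  Rx.mk (nat_lit 137) (nat_lit 1) (nat_lit 1) (nat_lit 2) (nat_lit 7) (nat_lit 253) (nat_lit 251) r8_253 r7_251 (nat_lit 0) (nat_lit 0) (nat_lit 0) (nat_lit 0x80029938e) (nat_lit 1073741824),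
  Rx.mk (nat_lit 203) (nat_lit 3) (nat_lit 1) (nat_lit 3) (nat_lit 7) (nat_lit 256) (nat_lit 254) r8_256 r7_254 (nat_lit 0) (nat_lit 0) (nat_lit 0) (nat_lit 0x80029938e) (nat_lit 1073741824)]
noncomputable def e26_40 : List Rx := [
  Rx.mk (nat_lit 73) (nat_lit 1) (nat_lit 1) (nat_lit 1) (nat_lit 7) (nat_lit 320) (nat_lit 301) r8_320 r2_301 (nat_lit 0) (nat_lit 0) (nat_lit 0) (nat_lit 0x80029938e) (nat_lit 1073741824),
  Rx.mk (nat_lit 105) (nat_lit 1) (nat_lit 5) (nat_lit 1) (nat_lit 7) (nat_lit 321) (nat_lit 302) r8_321 r2_302 (nat_lit 0) (nat_lit 0) (nat_lit 0) (nat_lit 0x80029938e) (nat_lit 1073741824),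
  Rx.mk (nat_lit 109) (nat_lit 5) (nat_lit 5) (nat_lit 1) (nat_lit 7) (nat_lit 322) (nat_lit 303) r8_322 r2_303 (nat_lit 0) (nat_lit 0) (nat_lit 0) (nat_lit 0x80029938e) (nat_lit 1073741824)]
noncomputable def e26_41 : List Rx := [
  Rx.mk (nat_lit 73) (nat_lit 1) (nat_lit 1) (nat_lit 1) (nat_lit 7) (nat_lit 326) (nat_lit 289) r8_326 r9_289 (nat_lit 0) (nat_lit 0) (nat_lit 0) (nat_lit 0x80029938e) (nat_lit 1073741824)]
noncomputable def e26_42 : List Rx := [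
  Rx.mk (nat_lit 73) (nat_lit 1) (nat_lit 1) (nat_lit 1) (nat_lit 7) (nat_lit 327) (nat_lit 297) r8_327 r9_297 (nat_lit 0) (nat_lit 0) (nat_lit 0) (nat_lit 0x80029938e) (nat_lit 1073741824),
  Rx.mk (nat_lit 105) (nat_lit 1) (nat_lit 5) (nat_lit 1) (nat_lit 7) (nat_lit 328) (nat_lit 296) r8_328 r9_296 (nat_lit 0) (nat_lit 0) (nat_lit 0) (nat_lit 0x80029938e) (nat_lit 1073741824),
  Rx.mk (nat_lit 109) (nat_lit 5) (nat_lit 5) (nat_lit 1) (nat_lit 7) (nat_lit 329) (nat_lit 295) r8_329 r9_295 (nat_lit 0) (nat_lit 0) (nat_lit 0) (nat_lit 0x80029938e) (nat_lit 1073741824),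
  Rx.mk (nat_lit 365) (nat_lit 5) (nat_lit 5) (nat_lit 5) (nat_lit 7) (nat_lit 330) (nat_lit 294) r8_330 r9_294 (nat_lit 0) (nat_lit 0) (nat_lit 0) (nat_lit 0x80029938e) (nat_lit 1073741824)]
noncomputable def e26_43 : List Rx := [
  Rx.mk (nat_lit 9) (nat_lit 1) (nat_lit 1) (nat_lit 0) (nat_lit 3) (nat_lit 316) (nat_lit 274) r8_316 r1_274 (nat_lit 0) (nat_lit 0) (nat_lit 5449534) (nat_lit 0x7ff85fa80) (nat_lit 1079847858),
  Rx.mk (nat_lit 41) (nat_lit 1) (nat_lit 5) (nat_lit 0) (nat_lit 3) (nat_lit 318) (nat_lit 276) r8_318 r1_276 (nat_lit 0) (nat_lit 0) (nat_lit 5449534) (nat_lit 0x7fe5be62e) (nat_lit 1081045658),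
  Rx.mk (nat_lit 73) (nat_lit 1) (nat_lit 1) (nat_lit 1) (nat_lit 7) (nat_lit 317) (nat_lit 275) r8_317 r1_275 (nat_lit 0) (nat_lit 0) (nat_lit 0) (nat_lit 0x80029938e) (nat_lit 1073741824),
  Rx.mk (nat_lit 105) (nat_lit 1) (nat_lit 5) (nat_lit 1) (nat_lit 7) (nat_lit 319) (nat_lit 277) r8_319 r1_277 (nat_lit 0) (nat_lit 0) (nat_lit 0) (nat_lit 0x800e1d8b8) (nat_lit 1073003524)]
noncomputable def e26_44 : List Rx := [
  Rx.mk (nat_lit 9) (nat_lit 1) (nat_lit 1) (nat_lit 0) (nat_lit 3) (nat_lit 323) (nat_lit 191) r8_323 r8_191 (nat_lit 0) (nat_lit 0) (nat_lit 5449534) (nat_lit 0x80029938e) (nat_lit 1079191358),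
  Rx.mk (nat_lit 73) (nat_lit 1) (nat_lit 1) (nat_lit 1) (nat_lit 7) (nat_lit 324) (nat_lit 192) r8_324 r8_192 (nat_lit 0) (nat_lit 0) (nat_lit 0) (nat_lit 0x80029938e) (nat_lit 1073741824),
  Rx.mk (nat_lit 137) (nat_lit 1) (nat_lit 1) (nat_lit 2) (nat_lit 7) (nat_lit 325) (nat_lit 193) r8_325 r8_193 (nat_lit 0) (nat_lit 0) (nat_lit 0) (nat_lit 0x80029938e) (nat_lit 1073741824)]
noncomputable def e26_45 : List Rx := [
  Rx.mk (nat_lit 0) (nat_lit 0) (nat_lit 0) (nat_lit 0) (nat_lit 0) (nat_lit 283) (nat_lit 201) r8_283 r1_201 (nat_lit 114209413) (nat_lit 1918416) (nat_lit 15319371) (nat_lit 0x41b550df4) (nat_lit 2243856724),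
  Rx.mk (nat_lit 3) (nat_lit 3) (nat_lit 0) (nat_lit 0) (nat_lit 1) (nat_lit 286) (nat_lit 206) r8_286 r1_206 (nat_lit 0) (nat_lit 4263426) (nat_lit 7320286) (nat_lit 0x6945f5c3e) (nat_lit 1464332436),
  Rx.mk (nat_lit 8) (nat_lit 0) (nat_lit 1) (nat_lit 0) (nat_lit 2) (nat_lit 289) (nat_lit 202) r8_289 r1_202 (nat_lit 11555613) (nat_lit 0) (nat_lit 11555613) (nat_lit 0x649b277ac) (nat_lit 1553678350),
  Rx.mk (nat_lit 11) (nat_lit 3) (nat_lit 1) (nat_lit 0) (nat_lit 3) (nat_lit 293) (nat_lit 207) r8_293 r1_207 (nat_lit 0) (nat_lit 0) (nat_lit 5586817) (nat_lit 0x7ff93b2a6) (nat_lit 1079930041),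
  Rx.mk (nat_lit 72) (nat_lit 0) (nat_lit 1) (nat_lit 1) (nat_lit 6) (nat_lit 290) (nat_lit 203) r8_290 r1_203 (nat_lit 5714928) (nat_lit 0) (nat_lit 0) (nat_lit 0x7ff0d9b4e) (nat_lit 1080597652),
  Rx.mk (nat_lit 75) (nat_lit 3) (nat_lit 1) (nat_lit 1) (nat_lit 7) (nat_lit 294) (nat_lit 208) r8_294 r1_208 (nat_lit 0) (nat_lit 0) (nat_lit 0) (nat_lit 0x80029938e) (nat_lit 1073741824),
  Rx.mk (nat_lit 128) (nat_lit 0) (nat_lit 0) (nat_lit 2) (nat_lit 4) (nat_lit 284) (nat_lit 204) r8_284 r1_204 (nat_lit 49656685) (nat_lit 3811645) (nat_lit 0) (nat_lit 0x67434edb6) (nat_lit 1539734254),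
  Rx.mk (nat_lit 130) (nat_lit 2) (nat_lit 0) (nat_lit 2) (nat_lit 5) (nat_lit 285) (nat_lit 214) r8_285 r1_214 (nat_lit 0) (nat_lit 5009605) (nat_lit 0) (nat_lit 0x79cf2c0ba) (nat_lit 1182054929),
  Rx.mk (nat_lit 131) (nat_lit 3) (nat_lit 0) (nat_lit 2) (nat_lit 5) (nat_lit 287) (nat_lit 212) r8_287 r1_212 (nat_lit 0) (nat_lit 5449534) (nat_lit 0) (nat_lit 0x80029938e) (nat_lit 1079191358),
  Rx.mk (nat_lit 136) (nat_lit 0) (nat_lit 1) (nat_lit 2) (nat_lit 6) (nat_lit 291) (nat_lit 205) r8_291 r1_205 (nat_lit 7630254) (nat_lit 0) (nat_lit 0) (nat_lit 0x8044c7bb6) (nat_lit 1077143878),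
  Rx.mk (nat_lit 138) (nat_lit 2) (nat_lit 1) (nat_lit 2) (nat_lit 7) (nat_lit 292) (nat_lit 215) r8_292 r1_215 (nat_lit 0) (nat_lit 0) (nat_lit 0) (nat_lit 0x807ff3424) (nat_lit 1065763424),
  Rx.mk (nat_lit 139) (nat_lit 3) (nat_lit 1) (nat_lit 2) (nat_lit 7) (nat_lit 295) (nat_lit 213) r8_295 r1_213 (nat_lit 0) (nat_lit 0) (nat_lit 0) (nat_lit 0x80029938e) (nat_lit 1073741824),
  Rx.mk (nat_lit 146) (nat_lit 2) (nat_lit 2) (nat_lit 2) (nat_lit 7) (nat_lit 297) (nat_lit 216) r8_297 r1_216 (nat_lit 0) (nat_lit 0) (nat_lit 0) (nat_lit 0x8009989a0) (nat_lit 1073292924),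
  Rx.mk (nat_lit 195) (nat_lit 3) (nat_lit 0) (nat_lit 3) (nat_lit 5) (nat_lit 288) (nat_lit 209) r8_288 r1_209 (nat_lit 0) (nat_lit 5449534) (nat_lit 0) (nat_lit 0x7fec9c43c) (nat_lit 1080603458),
  Rx.mk (nat_lit 203) (nat_lit 3) (nat_lit 1) (nat_lit 3) (nat_lit 7) (nat_lit 296) (nat_lit 210) r8_296 r1_210 (nat_lit 0) (nat_lit 0) (nat_lit 0) (nat_lit 0x80029938e) (nat_lit 1073741824),
  Rx.mk (nat_lit 219) (nat_lit 3) (nat_lit 3) (nat_lit 3) (nat_lit 7) (nat_lit 298) (nat_lit 211) r8_298 r1_211 (nat_lit 0) (nat_lit 0) (nat_lit 0) (nat_lit 0x80029938e) (nat_lit 1073741824)]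
noncomputable def e26_46 : List Rx := [
  Rx.mk (nat_lit 0) (nat_lit 0) (nat_lit 0) (nat_lit 0) (nat_lit 0) (nat_lit 257) (nat_lit 221) r8_257 r2_221 (nat_lit 1910946) (nat_lit 1804445) (nat_lit 1552451) (nat_lit 0x3df2a5050) (nat_lit 2180372566),
  Rx.mk (nat_lit 3) (nat_lit 3) (nat_lit 0) (nat_lit 0) (nat_lit 1) (nat_lit 260) (nat_lit 223) r8_260 r2_223 (nat_lit 0) (nat_lit 5335424) (nat_lit 3733423) (nat_lit 0x6f125636e) (nat_lit 1365141671),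
  Rx.mk (nat_lit 27) (nat_lit 3) (nat_lit 3) (nat_lit 0) (nat_lit 3) (nat_lit 263) (nat_lit 224) r8_263 r2_224 (nat_lit 0) (nat_lit 0) (nat_lit 5449534) (nat_lit 0x80029938e) (nat_lit 1079191358),
  Rx.mk (nat_lit 128) (nat_lit 0) (nat_lit 0) (nat_lit 2) (nat_lit 4) (nat_lit 258) (nat_lit 222) r8_258 r2_222 (nat_lit 4576373) (nat_lit 6579376) (nat_lit 0) (nat_lit 0x6c0b68fb4) (nat_lit 1417697373),
  Rx.mk (nat_lit 130) (nat_lit 2) (nat_lit 0) (nat_lit 2) (nat_lit 5) (nat_lit 259) (nat_lit 228) r8_259 r2_228 (nat_lit 0) (nat_lit 5449534) (nat_lit 0) (nat_lit 0x80029938e) (nat_lit 1079191358),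
  Rx.mk (nat_lit 131) (nat_lit 3) (nat_lit 0) (nat_lit 2) (nat_lit 5) (nat_lit 261) (nat_lit 226) r8_261 r2_226 (nat_lit 0) (nat_lit 5449534) (nat_lit 0) (nat_lit 0x80029938e) (nat_lit 1079191358),
  Rx.mk (nat_lit 146) (nat_lit 2) (nat_lit 2) (nat_lit 2) (nat_lit 7) (nat_lit 262) (nat_lit 229) r8_262 r2_229 (nat_lit 0) (nat_lit 0) (nat_lit 0) (nat_lit 0x80029938e) (nat_lit 1073741824),
  Rx.mk (nat_lit 155) (nat_lit 3) (nat_lit 3) (nat_lit 2) (nat_lit 7) (nat_lit 264) (nat_lit 227) r8_264 r2_227 (nat_lit 0) (nat_lit 0) (nat_lit 0) (nat_lit 0x80029938e) (nat_lit 1073741824),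
  Rx.mk (nat_lit 219) (nat_lit 3) (nat_lit 3) (nat_lit 3) (nat_lit 7) (nat_lit 265) (nat_lit 225) r8_265 r2_225 (nat_lit 0) (nat_lit 0) (nat_lit 0) (nat_lit 0x80029938e) (nat_lit 1073741824)]
noncomputable def e26_47 : List Rx := [
  Rx.mk (nat_lit 0) (nat_lit 0) (nat_lit 0) (nat_lit 0) (nat_lit 0) (nat_lit 299) (nat_lit 299) r8_299 r8_299 (nat_lit 41629312) (nat_lit 6349026) (nat_lit 41629312) (nat_lit 0x43bdb9d04) (nat_lit 2168128074),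
  Rx.mk (nat_lit 3) (nat_lit 3) (nat_lit 0) (nat_lit 0) (nat_lit 1) (nat_lit 302) (nat_lit 300) r8_302 r8_300 (nat_lit 0) (nat_lit 11995068) (nat_lit 8016297) (nat_lit 0x72f43b02e) (nat_lit 1311352989),
  Rx.mk (nat_lit 8) (nat_lit 0) (nat_lit 1) (nat_lit 0) (nat_lit 2) (nat_lit 304) (nat_lit 304) r8_304 r8_304 (nat_lit 12878012) (nat_lit 0) (nat_lit 12878012) (nat_lit 0x6cab7843c) (nat_lit 1421877048),
  Rx.mk (nat_lit 9) (nat_lit 1) (nat_lit 1) (nat_lit 0) (nat_lit 3) (nat_lit 307) (nat_lit 305) r8_307 r8_305 (nat_lit 0) (nat_lit 0) (nat_lit 5449534) (nat_lit 0x80029938e) (nat_lit 1079191358),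
  Rx.mk (nat_lit 11) (nat_lit 3) (nat_lit 1) (nat_lit 0) (nat_lit 3) (nat_lit 311) (nat_lit 306) r8_311 r8_306 (nat_lit 0) (nat_lit 0) (nat_lit 5449534) (nat_lit 0x80029938e) (nat_lit 1079191358),
  Rx.mk (nat_lit 72) (nat_lit 0) (nat_lit 1) (nat_lit 1) (nat_lit 6) (nat_lit 305) (nat_lit 307) r8_305 r8_307 (nat_lit 5449534) (nat_lit 0) (nat_lit 0) (nat_lit 0x80029938e) (nat_lit 1079191358),
  Rx.mk (nat_lit 73) (nat_lit 1) (nat_lit 1) (nat_lit 1) (nat_lit 7) (nat_lit 308) (nat_lit 308) r8_308 r8_308 (nat_lit 0) (nat_lit 0) (nat_lit 0) (nat_lit 0x80029938e) (nat_lit 1073741824),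
  Rx.mk (nat_lit 75) (nat_lit 3) (nat_lit 1) (nat_lit 1) (nat_lit 7) (nat_lit 312) (nat_lit 309) r8_312 r8_309 (nat_lit 0) (nat_lit 0) (nat_lit 0) (nat_lit 0x80029938e) (nat_lit 1073741824),
  Rx.mk (nat_lit 128) (nat_lit 0) (nat_lit 0) (nat_lit 2) (nat_lit 4) (nat_lit 300) (nat_lit 302) r8_300 r8_302 (nat_lit 8016297) (nat_lit 11995068) (nat_lit 0) (nat_lit 0x72f43b02e) (nat_lit 1311352989),
  Rx.mk (nat_lit 130) (nat_lit 2) (nat_lit 0) (nat_lit 2) (nat_lit 5) (nat_lit 301) (nat_lit 303) r8_301 r8_303 (nat_lit 0) (nat_lit 5449534) (nat_lit 0) (nat_lit 0x80029938e) (nat_lit 1079191358),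
  Rx.mk (nat_lit 136) (nat_lit 0) (nat_lit 1) (nat_lit 2) (nat_lit 6) (nat_lit 306) (nat_lit 311) r8_306 r8_311 (nat_lit 5449534) (nat_lit 0) (nat_lit 0) (nat_lit 0x80029938e) (nat_lit 1079191358),
  Rx.mk (nat_lit 137) (nat_lit 1) (nat_lit 1) (nat_lit 2) (nat_lit 7) (nat_lit 309) (nat_lit 312) r8_309 r8_312 (nat_lit 0) (nat_lit 0) (nat_lit 0) (nat_lit 0x80029938e) (nat_lit 1073741824),
  Rx.mk (nat_lit 138) (nat_lit 2) (nat_lit 1) (nat_lit 2) (nat_lit 7) (nat_lit 310) (nat_lit 313) r8_310 r8_313 (nat_lit 0) (nat_lit 0) (nat_lit 0) (nat_lit 0x80029938e) (nat_lit 1073741824),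
  Rx.mk (nat_lit 146) (nat_lit 2) (nat_lit 2) (nat_lit 2) (nat_lit 7) (nat_lit 314) (nat_lit 315) r8_314 r8_315 (nat_lit 0) (nat_lit 0) (nat_lit 0) (nat_lit 0x80029938e) (nat_lit 1073741824),
  Rx.mk (nat_lit 195) (nat_lit 3) (nat_lit 0) (nat_lit 3) (nat_lit 5) (nat_lit 303) (nat_lit 301) r8_303 r8_301 (nat_lit 0) (nat_lit 5449534) (nat_lit 0) (nat_lit 0x80029938e) (nat_lit 1079191358),
  Rx.mk (nat_lit 203) (nat_lit 3) (nat_lit 1) (nat_lit 3) (nat_lit 7) (nat_lit 313) (nat_lit 310) r8_313 r8_310 (nat_lit 0) (nat_lit 0) (nat_lit 0) (nat_lit 0x80029938e) (nat_lit 1073741824),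
  Rx.mk (nat_lit 219) (nat_lit 3) (nat_lit 3) (nat_lit 3) (nat_lit 7) (nat_lit 315) (nat_lit 314) r8_315 r8_314 (nat_lit 0) (nat_lit 0) (nat_lit 0) (nat_lit 0x80029938e) (nat_lit 1073741824)]
noncomputable def e26_48 : List Rx := [
  Rx.mk (nat_lit 0) (nat_lit 0) (nat_lit 0) (nat_lit 0) (nat_lit 0) (nat_lit 266) (nat_lit 202) r8_266 r9_202 (nat_lit 7499955) (nat_lit 3365773) (nat_lit 6754004) (nat_lit 0x3daadc94e) (nat_lit 2197406356),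
  Rx.mk (nat_lit 3) (nat_lit 3) (nat_lit 0) (nat_lit 0) (nat_lit 1) (nat_lit 269) (nat_lit 204) r8_269 r9_204 (nat_lit 0) (nat_lit 5675110) (nat_lit 6439668) (nat_lit 0x70ead3b50) (nat_lit 1337414702),
  Rx.mk (nat_lit 27) (nat_lit 3) (nat_lit 3) (nat_lit 0) (nat_lit 3) (nat_lit 271) (nat_lit 205) r8_271 r9_205 (nat_lit 0) (nat_lit 0) (nat_lit 5449534) (nat_lit 0x80029938e) (nat_lit 1079191358),
  Rx.mk (nat_lit 128) (nat_lit 0) (nat_lit 0) (nat_lit 2) (nat_lit 4) (nat_lit 267) (nat_lit 203) r8_267 r9_203 (nat_lit 7900404) (nat_lit 9276876) (nat_lit 0) (nat_lit 0x7130d9410) (nat_lit 1337916804),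
  Rx.mk (nat_lit 130) (nat_lit 2) (nat_lit 0) (nat_lit 2) (nat_lit 5) (nat_lit 268) (nat_lit 207) r8_268 r9_207 (nat_lit 0) (nat_lit 5449534) (nat_lit 0) (nat_lit 0x80029938e) (nat_lit 1079191358),
  Rx.mk (nat_lit 146) (nat_lit 2) (nat_lit 2) (nat_lit 2) (nat_lit 7) (nat_lit 270) (nat_lit 208) r8_270 r9_208 (nat_lit 0) (nat_lit 0) (nat_lit 0) (nat_lit 0x80029938e) (nat_lit 1073741824),
  Rx.mk (nat_lit 219) (nat_lit 3) (nat_lit 3) (nat_lit 3) (nat_lit 7) (nat_lit 272) (nat_lit 206) r8_272 r9_206 (nat_lit 0) (nat_lit 0) (nat_lit 0) (nat_lit 0x80029938e) (nat_lit 1073741824)]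
noncomputable def e26_49 : List Rx := [
  Rx.mk (nat_lit 0) (nat_lit 0) (nat_lit 0) (nat_lit 0) (nat_lit 0) (nat_lit 273) (nat_lit 99) r8_273 r9_99 (nat_lit 10845530) (nat_lit 3207243) (nat_lit 3283945) (nat_lit 0x3b8a2a25c) (nat_lit 2232597442),
  Rx.mk (nat_lit 3) (nat_lit 3) (nat_lit 0) (nat_lit 0) (nat_lit 1) (nat_lit 276) (nat_lit 100) r8_276 r9_100 (nat_lit 0) (nat_lit 5166248) (nat_lit 4643983) (nat_lit 0x6e6877564) (nat_lit 1376945555),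
  Rx.mk (nat_lit 27) (nat_lit 3) (nat_lit 3) (nat_lit 0) (nat_lit 3) (nat_lit 280) (nat_lit 101) r8_280 r9_101 (nat_lit 0) (nat_lit 0) (nat_lit 5449534) (nat_lit 0x8000c26c8) (nat_lit 1079309258),
  Rx.mk (nat_lit 128) (nat_lit 0) (nat_lit 0) (nat_lit 2) (nat_lit 4) (nat_lit 274) (nat_lit 103) r8_274 r9_103 (nat_lit 4026349) (nat_lit 6516495) (nat_lit 0) (nat_lit 0x6c0f7a8a0) (nat_lit 1416819768),
  Rx.mk (nat_lit 130) (nat_lit 2) (nat_lit 0) (nat_lit 2) (nat_lit 5) (nat_lit 275) (nat_lit 106) r8_275 r9_106 (nat_lit 0) (nat_lit 5449534) (nat_lit 0) (nat_lit 0x80029938e) (nat_lit 1079191358),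
  Rx.mk (nat_lit 131) (nat_lit 3) (nat_lit 0) (nat_lit 2) (nat_lit 5) (nat_lit 277) (nat_lit 104) r8_277 r9_104 (nat_lit 0) (nat_lit 5449534) (nat_lit 0) (nat_lit 0x80029938e) (nat_lit 1079191358),
  Rx.mk (nat_lit 146) (nat_lit 2) (nat_lit 2) (nat_lit 2) (nat_lit 7) (nat_lit 278) (nat_lit 107) r8_278 r9_107 (nat_lit 0) (nat_lit 0) (nat_lit 0) (nat_lit 0x80029938e) (nat_lit 1073741824),
  Rx.mk (nat_lit 155) (nat_lit 3) (nat_lit 3) (nat_lit 2) (nat_lit 7) (nat_lit 281) (nat_lit 105) r8_281 r9_105 (nat_lit 0) (nat_lit 0) (nat_lit 0) (nat_lit 0x80029938e) (nat_lit 1073741824),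
  Rx.mk (nat_lit 219) (nat_lit 3) (nat_lit 3) (nat_lit 3) (nat_lit 7) (nat_lit 282) (nat_lit 102) r8_282 r9_102 (nat_lit 0) (nat_lit 0) (nat_lit 0) (nat_lit 0x80029938e) (nat_lit 1073741824),
  Rx.mk (nat_lit 402) (nat_lit 2) (nat_lit 2) (nat_lit 6) (nat_lit 7) (nat_lit 279) (nat_lit 108) r8_279 r9_108 (nat_lit 0) (nat_lit 0) (nat_lit 0) (nat_lit 0x80029938e) (nat_lit 1073741824)]
noncomputable def e26_50 : List Rx := [
  Rx.mk (nat_lit 11) (nat_lit 3) (nat_lit 1) (nat_lit 0) (nat_lit 3) (nat_lit 331) (nat_lit 176) r8_331 r3_176 (nat_lit 0) (nat_lit 0) (nat_lit 1997453) (nat_lit 0x763aeada0) (nat_lit 1238709277),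
  Rx.mk (nat_lit 40) (nat_lit 0) (nat_lit 5) (nat_lit 0) (nat_lit 2) (nat_lit 334) (nat_lit 173) r8_334 r3_173 (nat_lit 71889) (nat_lit 0) (nat_lit 102120) (nat_lit 0x6285859aa) (nat_lit 1565425633),
  Rx.mk (nat_lit 43) (nat_lit 3) (nat_lit 5) (nat_lit 0) (nat_lit 3) (nat_lit 336) (nat_lit 175) r8_336 r3_175 (nat_lit 0) (nat_lit 0) (nat_lit 889067) (nat_lit 0x75f75daa6) (nat_lit 1241990791),
  Rx.mk (nat_lit 75) (nat_lit 3) (nat_lit 1) (nat_lit 1) (nat_lit 7) (nat_lit 332) (nat_lit 178) r8_332 r3_178 (nat_lit 0) (nat_lit 0) (nat_lit 0) (nat_lit 0x80177ed94) (nat_lit 1072404124),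
  Rx.mk (nat_lit 104) (nat_lit 0) (nat_lit 5) (nat_lit 1) (nat_lit 6) (nat_lit 335) (nat_lit 174) r8_335 r3_174 (nat_lit 3747800) (nat_lit 0) (nat_lit 0) (nat_lit 0x78d7bc56e) (nat_lit 1196904324),
  Rx.mk (nat_lit 107) (nat_lit 3) (nat_lit 5) (nat_lit 1) (nat_lit 7) (nat_lit 337) (nat_lit 177) r8_337 r3_177 (nat_lit 0) (nat_lit 0) (nat_lit 0) (nat_lit 0x800899acc) (nat_lit 1073355224),
  Rx.mk (nat_lit 203) (nat_lit 3) (nat_lit 1) (nat_lit 3) (nat_lit 7) (nat_lit 333) (nat_lit 179) r8_333 r3_179 (nat_lit 0) (nat_lit 0) (nat_lit 0) (nat_lit 0x7fe356418) (nat_lit 1075754824)]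
noncomputable def e26_51 : List Rx := [
  Rx.mk (nat_lit 11) (nat_lit 3) (nat_lit 1) (nat_lit 0) (nat_lit 3) (nat_lit 351) (nat_lit 177) r8_351 r4_177 (nat_lit 0) (nat_lit 0) (nat_lit 4339618) (nat_lit 0x8014a6cb6) (nat_lit 1076925342),
  Rx.mk (nat_lit 75) (nat_lit 3) (nat_lit 1) (nat_lit 1) (nat_lit 7) (nat_lit 352) (nat_lit 178) r8_352 r4_178 (nat_lit 0) (nat_lit 0) (nat_lit 0) (nat_lit 0x80029938e) (nat_lit 1073741824),
  Rx.mk (nat_lit 139) (nat_lit 3) (nat_lit 1) (nat_lit 2) (nat_lit 7) (nat_lit 353) (nat_lit 180) r8_353 r4_180 (nat_lit 0) (nat_lit 0) (nat_lit 0) (nat_lit 0x80029938e) (nat_lit 1073741824),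
  Rx.mk (nat_lit 203) (nat_lit 3) (nat_lit 1) (nat_lit 3) (nat_lit 7) (nat_lit 354) (nat_lit 179) r8_354 r4_179 (nat_lit 0) (nat_lit 0) (nat_lit 0) (nat_lit 0x80029938e) (nat_lit 1073741824)]
noncomputable def e26_52 : List Rx := [
  Rx.mk (nat_lit 40) (nat_lit 0) (nat_lit 5) (nat_lit 0) (nat_lit 2) (nat_lit 362) (nat_lit 191) r8_362 r5_191 (nat_lit 23550711) (nat_lit 0) (nat_lit 8738081) (nat_lit 0x6ca37911e) (nat_lit 1428927416),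
  Rx.mk (nat_lit 43) (nat_lit 3) (nat_lit 5) (nat_lit 0) (nat_lit 3) (nat_lit 364) (nat_lit 193) r8_364 r5_193 (nat_lit 0) (nat_lit 0) (nat_lit 6212599) (nat_lit 0x7fbcc638e) (nat_lit 1084455923),
  Rx.mk (nat_lit 104) (nat_lit 0) (nat_lit 5) (nat_lit 1) (nat_lit 6) (nat_lit 363) (nat_lit 192) r8_363 r5_192 (nat_lit 5449534) (nat_lit 0) (nat_lit 0) (nat_lit 0x80029938e) (nat_lit 1079191358),
  Rx.mk (nat_lit 107) (nat_lit 3) (nat_lit 5) (nat_lit 1) (nat_lit 7) (nat_lit 365) (nat_lit 194) r8_365 r5_194 (nat_lit 0) (nat_lit 0) (nat_lit 0) (nat_lit 0x80029938e) (nat_lit 1073741824),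
  Rx.mk (nat_lit 203) (nat_lit 3) (nat_lit 1) (nat_lit 3) (nat_lit 7) (nat_lit 361) (nat_lit 196) r8_361 r5_196 (nat_lit 0) (nat_lit 0) (nat_lit 0) (nat_lit 0x80029938e) (nat_lit 1073741824),
  Rx.mk (nat_lit 235) (nat_lit 3) (nat_lit 5) (nat_lit 3) (nat_lit 7) (nat_lit 366) (nat_lit 195) r8_366 r5_195 (nat_lit 0) (nat_lit 0) (nat_lit 0) (nat_lit 0x80029938e) (nat_lit 1073741824)]
noncomputable def e26_53 : List Rx := [
  Rx.mk (nat_lit 11) (nat_lit 3) (nat_lit 1) (nat_lit 0) (nat_lit 3) (nat_lit 338) (nat_lit 284) r8_338 r4_284 (nat_lit 0) (nat_lit 0) (nat_lit 5449534) (nat_lit 0x80029938e) (nat_lit 1079191358),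
  Rx.mk (nat_lit 40) (nat_lit 0) (nat_lit 5) (nat_lit 0) (nat_lit 2) (nat_lit 341) (nat_lit 287) r8_341 r4_287 (nat_lit 6310285) (nat_lit 0) (nat_lit 6927974) (nat_lit 0x6ff2af942) (nat_lit 1354702483),
  Rx.mk (nat_lit 41) (nat_lit 1) (nat_lit 5) (nat_lit 0) (nat_lit 3) (nat_lit 343) (nat_lit 288) r8_343 r4_288 (nat_lit 0) (nat_lit 0) (nat_lit 5449534) (nat_lit 0x80029938e) (nat_lit 1079191358),
  Rx.mk (nat_lit 43) (nat_lit 3) (nat_lit 5) (nat_lit 0) (nat_lit 3) (nat_lit 345) (nat_lit 289) r8_345 r4_289 (nat_lit 0) (nat_lit 0) (nat_lit 5449534) (nat_lit 0x80029938e) (nat_lit 1079191358),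
  Rx.mk (nat_lit 75) (nat_lit 3) (nat_lit 1) (nat_lit 1) (nat_lit 7) (nat_lit 339) (nat_lit 285) r8_339 r4_285 (nat_lit 0) (nat_lit 0) (nat_lit 0) (nat_lit 0x80029938e) (nat_lit 1073741824),
  Rx.mk (nat_lit 104) (nat_lit 0) (nat_lit 5) (nat_lit 1) (nat_lit 6) (nat_lit 342) (nat_lit 290) r8_342 r4_290 (nat_lit 5449534) (nat_lit 0) (nat_lit 0) (nat_lit 0x80029938e) (nat_lit 1079191358),
  Rx.mk (nat_lit 105) (nat_lit 1) (nat_lit 5) (nat_lit 1) (nat_lit 7) (nat_lit 344) (nat_lit 291) r8_344 r4_291 (nat_lit 0) (nat_lit 0) (nat_lit 0) (nat_lit 0x80029938e) (nat_lit 1073741824),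
  Rx.mk (nat_lit 107) (nat_lit 3) (nat_lit 5) (nat_lit 1) (nat_lit 7) (nat_lit 346) (nat_lit 292) r8_346 r4_292 (nat_lit 0) (nat_lit 0) (nat_lit 0) (nat_lit 0x80029938e) (nat_lit 1073741824),
  Rx.mk (nat_lit 203) (nat_lit 3) (nat_lit 1) (nat_lit 3) (nat_lit 7) (nat_lit 340) (nat_lit 286) r8_340 r4_286 (nat_lit 0) (nat_lit 0) (nat_lit 0) (nat_lit 0x80029938e) (nat_lit 1073741824)]
noncomputable def e26_54 : List Rx := [
  Rx.mk (nat_lit 11) (nat_lit 3) (nat_lit 1) (nat_lit 0) (nat_lit 3) (nat_lit 355) (nat_lit 195) r8_355 r10_195 (nat_lit 0) (nat_lit 0) (nat_lit 5449534) (nat_lit 0x80029938e) (nat_lit 1079191358),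
  Rx.mk (nat_lit 75) (nat_lit 3) (nat_lit 1) (nat_lit 1) (nat_lit 7) (nat_lit 356) (nat_lit 196) r8_356 r10_196 (nat_lit 0) (nat_lit 0) (nat_lit 0) (nat_lit 0x80029938e) (nat_lit 1073741824),
  Rx.mk (nat_lit 203) (nat_lit 3) (nat_lit 1) (nat_lit 3) (nat_lit 7) (nat_lit 357) (nat_lit 197) r8_357 r10_197 (nat_lit 0) (nat_lit 0) (nat_lit 0) (nat_lit 0x80029938e) (nat_lit 1073741824)]
noncomputable def e26_55 : List Rx := [
  Rx.mk (nat_lit 40) (nat_lit 0) (nat_lit 5) (nat_lit 0) (nat_lit 2) (nat_lit 368) (nat_lit 222) r8_368 r11_222 (nat_lit 31594176) (nat_lit 0) (nat_lit 21443359) (nat_lit 0x791f109d8) (nat_lit 1241553659),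
  Rx.mk (nat_lit 41) (nat_lit 1) (nat_lit 5) (nat_lit 0) (nat_lit 3) (nat_lit 370) (nat_lit 224) r8_370 r11_224 (nat_lit 0) (nat_lit 0) (nat_lit 5449534) (nat_lit 0x80029938e) (nat_lit 1079191358),
  Rx.mk (nat_lit 43) (nat_lit 3) (nat_lit 5) (nat_lit 0) (nat_lit 3) (nat_lit 372) (nat_lit 226) r8_372 r11_226 (nat_lit 0) (nat_lit 0) (nat_lit 5449534) (nat_lit 0x80029938e) (nat_lit 1079191358),
  Rx.mk (nat_lit 104) (nat_lit 0) (nat_lit 5) (nat_lit 1) (nat_lit 6) (nat_lit 369) (nat_lit 223) r8_369 r11_223 (nat_lit 5449534) (nat_lit 0) (nat_lit 0) (nat_lit 0x80029938e) (nat_lit 1079191358),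
  Rx.mk (nat_lit 105) (nat_lit 1) (nat_lit 5) (nat_lit 1) (nat_lit 7) (nat_lit 371) (nat_lit 225) r8_371 r11_225 (nat_lit 0) (nat_lit 0) (nat_lit 0) (nat_lit 0x80029938e) (nat_lit 1073741824),
  Rx.mk (nat_lit 107) (nat_lit 3) (nat_lit 5) (nat_lit 1) (nat_lit 7) (nat_lit 373) (nat_lit 227) r8_373 r11_227 (nat_lit 0) (nat_lit 0) (nat_lit 0) (nat_lit 0x80029938e) (nat_lit 1073741824),
  Rx.mk (nat_lit 203) (nat_lit 3) (nat_lit 1) (nat_lit 3) (nat_lit 7) (nat_lit 367) (nat_lit 229) r8_367 r11_229 (nat_lit 0) (nat_lit 0) (nat_lit 0) (nat_lit 0x80029938e) (nat_lit 1073741824),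
  Rx.mk (nat_lit 235) (nat_lit 3) (nat_lit 5) (nat_lit 3) (nat_lit 7) (nat_lit 374) (nat_lit 228) r8_374 r11_228 (nat_lit 0) (nat_lit 0) (nat_lit 0) (nat_lit 0x80029938e) (nat_lit 1073741824)]
noncomputable def e26_56 : List Rx := [
  Rx.mk (nat_lit 11) (nat_lit 3) (nat_lit 1) (nat_lit 0) (nat_lit 3) (nat_lit 347) (nat_lit 269) r8_347 r5_269 (nat_lit 0) (nat_lit 0) (nat_lit 5449534) (nat_lit 0x80029938e) (nat_lit 1079191358),
  Rx.mk (nat_lit 43) (nat_lit 3) (nat_lit 5) (nat_lit 0) (nat_lit 3) (nat_lit 349) (nat_lit 271) r8_349 r5_271 (nat_lit 0) (nat_lit 0) (nat_lit 5449534) (nat_lit 0x7ff3d72a6) (nat_lit 1080139558),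
  Rx.mk (nat_lit 75) (nat_lit 3) (nat_lit 1) (nat_lit 1) (nat_lit 7) (nat_lit 348) (nat_lit 270) r8_348 r5_270 (nat_lit 0) (nat_lit 0) (nat_lit 0) (nat_lit 0x80029938e) (nat_lit 1073741824),
  Rx.mk (nat_lit 107) (nat_lit 3) (nat_lit 5) (nat_lit 1) (nat_lit 7) (nat_lit 350) (nat_lit 272) r8_350 r5_272 (nat_lit 0) (nat_lit 0) (nat_lit 0) (nat_lit 0x80029938e) (nat_lit 1073741824)]
noncomputable def e26_57 : List Rx := [
  Rx.mk (nat_lit 11) (nat_lit 3) (nat_lit 1) (nat_lit 0) (nat_lit 3) (nat_lit 358) (nat_lit 335) r8_358 r11_335 (nat_lit 0) (nat_lit 0) (nat_lit 5449534) (nat_lit 0x80029938e) (nat_lit 1079191358),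
  Rx.mk (nat_lit 75) (nat_lit 3) (nat_lit 1) (nat_lit 1) (nat_lit 7) (nat_lit 359) (nat_lit 336) r8_359 r11_336 (nat_lit 0) (nat_lit 0) (nat_lit 0) (nat_lit 0x80029938e) (nat_lit 1073741824),
  Rx.mk (nat_lit 139) (nat_lit 3) (nat_lit 1) (nat_lit 2) (nat_lit 7) (nat_lit 360) (nat_lit 337) r8_360 r11_337 (nat_lit 0) (nat_lit 0) (nat_lit 0) (nat_lit 0x80029938e) (nat_lit 1073741824)]
noncomputable def e26 : List (List Rx) := [e26_0, e26_1, e26_2, e26_3, e26_4, e26_5, e26_6, e26_7, e26_8, e26_9, e26_10, e26_11, e26_12, e26_13, e26_14, e26_15, e26_16, e26_17, e26_18, e26_19, e26_20, e26_21, e26_22, e26_23, e26_24, e26_25, e26_26, e26_27, e26_28, e26_29, e26_30, e26_31, e26_32, e26_33, e26_34, e26_35, e26_36, e26_37, e26_38, e26_39, e26_40, e26_41, e26_42, e26_43, e26_44, e26_45, e26_46, e26_47, e26_48, e26_49, e26_50, e26_51, e26_52, e26_53, e26_54, e26_55, e26_56,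 e26_57]
noncomputable def e27_0 : List Rx := [
  Rx.mk (nat_lit 356) (nat_lit 4) (nat_lit 4) (nat_lit 5) (nat_lit 4) (nat_lit 241) (nat_lit 188) r8_241 r0_188 (nat_lit 36183064) (nat_lit 3077458) (nat_lit 0) (nat_lit 0x574fcceae) (nat_lit 1791474846),
  Rx.mk (nat_lit 359) (nat_lit 7) (nat_lit 4) (nat_lit 5) (nat_lit 5) (nat_lit 244) (nat_lit 191) r8_244 r0_191 (nat_lit 0) (nat_lit 2945103) (nat_lit 0) (nat_lit 0x79da08f6a) (nat_lit 1179289527),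
  Rx.mk (nat_lit 364) (nat_lit 4) (nat_lit 5) (nat_lit 5) (nat_lit 6) (nat_lit 242) (nat_lit 189) r8_242 r0_189 (nat_lit 7351485) (nat_lit 0) (nat_lit 0) (nat_lit 0x7a4837e50) (nat_lit 1176515009),
  Rx.mk (nat_lit 367) (nat_lit 7) (nat_lit 5) (nat_lit 5) (nat_lit 7) (nat_lit 245) (nat_lit 192) r8_245 r0_192 (nat_lit 0) (nat_lit 0) (nat_lit 0) (nat_lit 0x7fff97802) (nat_lit 1073934624),
  Rx.mk (nat_lit 372) (nat_lit 4) (nat_lit 6) (nat_lit 5) (nat_lit 6) (nat_lit 243) (nat_lit 190) r8_243 r0_190 (nat_lit 188397076) (nat_lit 0) (nat_lit 0) (nat_lit 0x7fb4f6636) (nat_lit 1267133600),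
  Rx.mk (nat_lit 375) (nat_lit 7) (nat_lit 6) (nat_lit 5) (nat_lit 7) (nat_lit 246) (nat_lit 194) r8_246 r0_194 (nat_lit 0) (nat_lit 0) (nat_lit 0) (nat_lit 0x80029938e) (nat_lit 1073741824),
  Rx.mk (nat_lit 383) (nat_lit 7) (nat_lit 7) (nat_lit 5) (nat_lit 7) (nat_lit 247) (nat_lit 193) r8_247 r0_193 (nat_lit 0) (nat_lit 0) (nat_lit 0) (nat_lit 0x80029938e) (nat_lit 1073741824)]
noncomputable def e27_1 : List Rx := [
  Rx.mk (nat_lit 292) (nat_lit 4) (nat_lit 4) (nat_lit 4) (nat_lit 0) (nat_lit 283) (nat_lit 201) r8_283 r1_201 (nat_lit 114209413) (nat_lit 15319371) (nat_lit 1918416) (nat_lit 0x41b550df4) (nat_lit 2243856724),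
  Rx.mk (nat_lit 295) (nat_lit 7) (nat_lit 4) (nat_lit 4) (nat_lit 1) (nat_lit 286) (nat_lit 206) r8_286 r1_206 (nat_lit 0) (nat_lit 7320286) (nat_lit 4263426) (nat_lit 0x6945f5c3e) (nat_lit 1464332436),
  Rx.mk (nat_lit 308) (nat_lit 4) (nat_lit 6) (nat_lit 4) (nat_lit 2) (nat_lit 284) (nat_lit 204) r8_284 r1_204 (nat_lit 49656685) (nat_lit 0) (nat_lit 3811645) (nat_lit 0x67434edb6) (nat_lit 1539734254),
  Rx.mk (nat_lit 310) (nat_lit 6) (nat_lit 6) (nat_lit 4) (nat_lit 3) (nat_lit 285) (nat_lit 214) r8_285 r1_214 (nat_lit 0) (nat_lit 0) (nat_lit 5009605) (nat_lit 0x79cf2c0ba) (nat_lit 1182054929),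
  Rx.mk (nat_lit 311) (nat_lit 7) (nat_lit 6) (nat_lit 4) (nat_lit 3) (nat_lit 287) (nat_lit 212) r8_287 r1_212 (nat_lit 0) (nat_lit 0) (nat_lit 5449534) (nat_lit 0x80029938e) (nat_lit 1079191358),
  Rx.mk (nat_lit 319) (nat_lit 7) (nat_lit 7) (nat_lit 4) (nat_lit 3) (nat_lit 288) (nat_lit 209) r8_288 r1_209 (nat_lit 0) (nat_lit 0) (nat_lit 5449534) (nat_lit 0x7fec9c43c) (nat_lit 1080603458),
  Rx.mk (nat_lit 356) (nat_lit 4) (nat_lit 4) (nat_lit 5) (nat_lit 4) (nat_lit 289) (nat_lit 202) r8_289 r1_202 (nat_lit 11555613) (nat_lit 11555613) (nat_lit 0) (nat_lit 0x649b277ac) (nat_lit 1553678350),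
  Rx.mk (nat_lit 359) (nat_lit 7) (nat_lit 4) (nat_lit 5) (nat_lit 5) (nat_lit 293) (nat_lit 207) r8_293 r1_207 (nat_lit 0) (nat_lit 5586817) (nat_lit 0) (nat_lit 0x7ff93b2a6) (nat_lit 1079930041),
  Rx.mk (nat_lit 364) (nat_lit 4) (nat_lit 5) (nat_lit 5) (nat_lit 6) (nat_lit 290) (nat_lit 203) r8_290 r1_203 (nat_lit 5714928) (nat_lit 0) (nat_lit 0) (nat_lit 0x7ff0d9b4e) (nat_lit 1080597652),
  Rx.mk (nat_lit 367) (nat_lit 7) (nat_lit 5) (nat_lit 5) (nat_lit 7) (nat_lit 294) (nat_lit 208) r8_294 r1_208 (nat_lit 0) (nat_lit 0) (nat_lit 0) (nat_lit 0x80029938e) (nat_lit 1073741824),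
  Rx.mk (nat_lit 372) (nat_lit 4) (nat_lit 6) (nat_lit 5) (nat_lit 6) (nat_lit 291) (nat_lit 205) r8_291 r1_205 (nat_lit 7630254) (nat_lit 0) (nat_lit 0) (nat_lit 0x8044c7bb6) (nat_lit 1077143878),
  Rx.mk (nat_lit 374) (nat_lit 6) (nat_lit 6) (nat_lit 5) (nat_lit 7) (nat_lit 292) (nat_lit 215) r8_292 r1_215 (nat_lit 0) (nat_lit 0) (nat_lit 0) (nat_lit 0x807ff3424) (nat_lit 1065763424),
  Rx.mk (nat_lit 375) (nat_lit 7) (nat_lit 6) (nat_lit 5) (nat_lit 7) (nat_lit 295) (nat_lit 213) r8_295 r1_213 (nat_lit 0) (nat_lit 0) (nat_lit 0) (nat_lit 0x80029938e) (nat_lit 1073741824),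
  Rx.mk (nat_lit 383) (nat_lit 7) (nat_lit 7) (nat_lit 5) (nat_lit 7) (nat_lit 296) (nat_lit 210) r8_296 r1_210 (nat_lit 0) (nat_lit 0) (nat_lit 0) (nat_lit 0x80029938e) (nat_lit 1073741824),
  Rx.mk (nat_lit 438) (nat_lit 6) (nat_lit 6) (nat_lit 6) (nat_lit 7) (nat_lit 297) (nat_lit 216) r8_297 r1_216 (nat_lit 0) (nat_lit 0) (nat_lit 0) (nat_lit 0x8009989a0) (nat_lit 1073292924),
  Rx.mk (nat_lit 511) (nat_lit 7) (nat_lit 7) (nat_lit 7) (nat_lit 7) (nat_lit 298) (nat_lit 211) r8_298 r1_211 (nat_lit 0) (nat_lit 0) (nat_lit 0) (nat_lit 0x80029938e) (nat_lit 1073741824)]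
noncomputable def e27_2 : List Rx := [
  Rx.mk (nat_lit 292) (nat_lit 4) (nat_lit 4) (nat_lit 4) (nat_lit 0) (nat_lit 257) (nat_lit 221) r8_257 r2_221 (nat_lit 1910946) (nat_lit 1552451) (nat_lit 1804445) (nat_lit 0x3df2a5050) (nat_lit 2180372566),
  Rx.mk (nat_lit 295) (nat_lit 7) (nat_lit 4) (nat_lit 4) (nat_lit 1) (nat_lit 260) (nat_lit 223) r8_260 r2_223 (nat_lit 0) (nat_lit 3733423) (nat_lit 5335424) (nat_lit 0x6f125636e) (nat_lit 1365141671),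
  Rx.mk (nat_lit 308) (nat_lit 4) (nat_lit 6) (nat_lit 4) (nat_lit 2) (nat_lit 258) (nat_lit 222) r8_258 r2_222 (nat_lit 4576373) (nat_lit 0) (nat_lit 6579376) (nat_lit 0x6c0b68fb4) (nat_lit 1417697373),
  Rx.mk (nat_lit 310) (nat_lit 6) (nat_lit 6) (nat_lit 4) (nat_lit 3) (nat_lit 259) (nat_lit 228) r8_259 r2_228 (nat_lit 0) (nat_lit 0) (nat_lit 5449534) (nat_lit 0x80029938e) (nat_lit 1079191358),
  Rx.mk (nat_lit 311) (nat_lit 7) (nat_lit 6) (nat_lit 4) (nat_lit 3) (nat_lit 261) (nat_lit 226) r8_261 r2_226 (nat_lit 0) (nat_lit 0) (nat_lit 5449534) (nat_lit 0x80029938e) (nat_lit 1079191358),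
  Rx.mk (nat_lit 438) (nat_lit 6) (nat_lit 6) (nat_lit 6) (nat_lit 7) (nat_lit 262) (nat_lit 229) r8_262 r2_229 (nat_lit 0) (nat_lit 0) (nat_lit 0) (nat_lit 0x80029938e) (nat_lit 1073741824),
  Rx.mk (nat_lit 487) (nat_lit 7) (nat_lit 4) (nat_lit 7) (nat_lit 5) (nat_lit 263) (nat_lit 224) r8_263 r2_224 (nat_lit 0) (nat_lit 5449534) (nat_lit 0) (nat_lit 0x80029938e) (nat_lit 1079191358),
  Rx.mk (nat_lit 503) (nat_lit 7) (nat_lit 6) (nat_lit 7) (nat_lit 7) (nat_lit 264) (nat_lit 227) r8_264 r2_227 (nat_lit 0) (nat_lit 0) (nat_lit 0) (nat_lit 0x80029938e) (nat_lit 1073741824),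
  Rx.mk (nat_lit 511) (nat_lit 7) (nat_lit 7) (nat_lit 7) (nat_lit 7) (nat_lit 265) (nat_lit 225) r8_265 r2_225 (nat_lit 0) (nat_lit 0) (nat_lit 0) (nat_lit 0x80029938e) (nat_lit 1073741824)]
noncomputable def e27_3 : List Rx := [
  Rx.mk (nat_lit 100) (nat_lit 4) (nat_lit 4) (nat_lit 1) (nat_lit 4) (nat_lit 334) (nat_lit 173) r8_334 r3_173 (nat_lit 71889) (nat_lit 102120) (nat_lit 0) (nat_lit 0x6285859aa) (nat_lit 1565425633),
  Rx.mk (nat_lit 103) (nat_lit 7) (nat_lit 4) (nat_lit 1) (nat_lit 5) (nat_lit 336) (nat_lit 175) r8_336 r3_175 (nat_lit 0) (nat_lit 889067) (nat_lit 0) (nat_lit 0x75f75daa6) (nat_lit 1241990791),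
  Rx.mk (nat_lit 108) (nat_lit 4) (nat_lit 5) (nat_lit 1) (nat_lit 6) (nat_lit 335) (nat_lit 174) r8_335 r3_174 (nat_lit 3747800) (nat_lit 0) (nat_lit 0) (nat_lit 0x78d7bc56e) (nat_lit 1196904324),
  Rx.mk (nat_lit 111) (nat_lit 7) (nat_lit 5) (nat_lit 1) (nat_lit 7) (nat_lit 337) (nat_lit 177) r8_337 r3_177 (nat_lit 0) (nat_lit 0) (nat_lit 0) (nat_lit 0x800899acc) (nat_lit 1073355224),
  Rx.mk (nat_lit 359) (nat_lit 7) (nat_lit 4) (nat_lit 5) (nat_lit 5) (nat_lit 331) (nat_lit 176) r8_331 r3_176 (nat_lit 0) (nat_lit 1997453) (nat_lit 0) (nat_lit 0x763aeada0) (nat_lit 1238709277),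
  Rx.mk (nat_lit 367) (nat_lit 7) (nat_lit 5) (nat_lit 5) (nat_lit 7) (nat_lit 332) (nat_lit 178) r8_332 r3_178 (nat_lit 0) (nat_lit 0) (nat_lit 0) (nat_lit 0x80177ed94) (nat_lit 1072404124),
  Rx.mk (nat_lit 383) (nat_lit 7) (nat_lit 7) (nat_lit 5) (nat_lit 7) (nat_lit 333) (nat_lit 179) r8_333 r3_179 (nat_lit 0) (nat_lit 0) (nat_lit 0) (nat_lit 0x7fe356418) (nat_lit 1075754824)]
noncomputable def e27_4 : List Rx := [
  Rx.mk (nat_lit 359) (nat_lit 7) (nat_lit 4) (nat_lit 5) (nat_lit 5) (nat_lit 351) (nat_lit 177) r8_351 r4_177 (nat_lit 0) (nat_lit 4339618) (nat_lit 0) (nat_lit 0x8014a6cb6) (nat_lit 1076925342),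
  Rx.mk (nat_lit 367) (nat_lit 7) (nat_lit 5) (nat_lit 5) (nat_lit 7) (nat_lit 352) (nat_lit 178) r8_352 r4_178 (nat_lit 0) (nat_lit 0) (nat_lit 0) (nat_lit 0x80029938e) (nat_lit 1073741824),
  Rx.mk (nat_lit 375) (nat_lit 7) (nat_lit 6) (nat_lit 5) (nat_lit 7) (nat_lit 353) (nat_lit 180) r8_353 r4_180 (nat_lit 0) (nat_lit 0) (nat_lit 0) (nat_lit 0x80029938e) (nat_lit 1073741824),
  Rx.mk (nat_lit 383) (nat_lit 7) (nat_lit 7) (nat_lit 5) (nat_lit 7) (nat_lit 354) (nat_lit 179) r8_354 r4_179 (nat_lit 0) (nat_lit 0) (nat_lit 0) (nat_lit 0x80029938e) (nat_lit 1073741824)]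
noncomputable def e27_5 : List Rx := [
  Rx.mk (nat_lit 100) (nat_lit 4) (nat_lit 4) (nat_lit 1) (nat_lit 4) (nat_lit 362) (nat_lit 191) r8_362 r5_191 (nat_lit 23550711) (nat_lit 8738081) (nat_lit 0) (nat_lit 0x6ca37911e) (nat_lit 1428927416),
  Rx.mk (nat_lit 103) (nat_lit 7) (nat_lit 4) (nat_lit 1) (nat_lit 5) (nat_lit 364) (nat_lit 193) r8_364 r5_193 (nat_lit 0) (nat_lit 6212599) (nat_lit 0) (nat_lit 0x7fbcc638e) (nat_lit 1084455923),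
  Rx.mk (nat_lit 108) (nat_lit 4) (nat_lit 5) (nat_lit 1) (nat_lit 6) (nat_lit 363) (nat_lit 192) r8_363 r5_192 (nat_lit 5449534) (nat_lit 0) (nat_lit 0) (nat_lit 0x80029938e) (nat_lit 1079191358),
  Rx.mk (nat_lit 111) (nat_lit 7) (nat_lit 5) (nat_lit 1) (nat_lit 7) (nat_lit 365) (nat_lit 194) r8_365 r5_194 (nat_lit 0) (nat_lit 0) (nat_lit 0) (nat_lit 0x80029938e) (nat_lit 1073741824),
  Rx.mk (nat_lit 127) (nat_lit 7) (nat_lit 7) (nat_lit 1) (nat_lit 7) (nat_lit 366) (nat_lit 195) r8_366 r5_195 (nat_lit 0) (nat_lit 0) (nat_lit 0) (nat_lit 0x80029938e) (nat_lit 1073741824),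
  Rx.mk (nat_lit 383) (nat_lit 7) (nat_lit 7) (nat_lit 5) (nat_lit 7) (nat_lit 361) (nat_lit 196) r8_361 r5_196 (nat_lit 0) (nat_lit 0) (nat_lit 0) (nat_lit 0x80029938e) (nat_lit 1073741824)]
noncomputable def e27_6 : List Rx := [
  Rx.mk (nat_lit 59) (nat_lit 3) (nat_lit 7) (nat_lit 0) (nat_lit 3) (nat_lit 43) (nat_lit 120) r8_43 r3_120 (nat_lit 0) (nat_lit 0) (nat_lit 265194) (nat_lit 0x80289589e) (nat_lit 1071507018),
  Rx.mk (nat_lit 123) (nat_lit 3) (nat_lit 7) (nat_lit 1) (nat_lit 7) (nat_lit 44) (nat_lit 121) r8_44 r3_121 (nat_lit 0) (nat_lit 0) (nat_lit 0) (nat_lit 0x85a4c7912) (nat_lit 982561124),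
  Rx.mk (nat_lit 251) (nat_lit 3) (nat_lit 7) (nat_lit 3) (nat_lit 7) (nat_lit 46) (nat_lit 122) r8_46 r3_122 (nat_lit 0) (nat_lit 0) (nat_lit 0) (nat_lit 0x80029938e) (nat_lit 1073741824),
  Rx.mk (nat_lit 255) (nat_lit 7) (nat_lit 7) (nat_lit 3) (nat_lit 7) (nat_lit 45) (nat_lit 119) r8_45 r3_119 (nat_lit 0) (nat_lit 0) (nat_lit 0) (nat_lit 0x80217ebb4) (nat_lit 1071767324)]
noncomputable def e27_7 : List Rx := [
  Rx.mk (nat_lit 251) (nat_lit 3) (nat_lit 7) (nat_lit 3) (nat_lit 7) (nat_lit 77) (nat_lit 140) r8_77 r0_140 (nat_lit 0) (nat_lit 0) (nat_lit 0) (nat_lit 0x7ffc024da) (nat_lit 1074164524),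
  Rx.mk (nat_lit 255) (nat_lit 7) (nat_lit 7) (nat_lit 3) (nat_lit 7) (nat_lit 76) (nat_lit 139) r8_76 r0_139 (nat_lit 0) (nat_lit 0) (nat_lit 0) (nat_lit 0x80000a14a) (nat_lit 1073905924)]
noncomputable def e27_8 : List Rx := [
  Rx.mk (nat_lit 251) (nat_lit 3) (nat_lit 7) (nat_lit 3) (nat_lit 7) (nat_lit 101) (nat_lit 146) r8_101 r1_146 (nat_lit 0) (nat_lit 0) (nat_lit 0) (nat_lit 0x80029938e) (nat_lit 1073741824),
  Rx.mk (nat_lit 255) (nat_lit 7) (nat_lit 7) (nat_lit 3) (nat_lit 7) (nat_lit 100) (nat_lit 145) r8_100 r1_145 (nat_lit 0) (nat_lit 0) (nat_lit 0) (nat_lit 0x80029938e) (nat_lit 1073741824),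
  Rx.mk (nat_lit 292) (nat_lit 4) (nat_lit 4) (nat_lit 4) (nat_lit 0) (nat_lit 90) (nat_lit 141) r8_90 r1_141 (nat_lit 12959764) (nat_lit 6586378) (nat_lit 2925567) (nat_lit 0x3ec2fab92) (nat_lit 2184013933),
  Rx.mk (nat_lit 308) (nat_lit 4) (nat_lit 6) (nat_lit 4) (nat_lit 2) (nat_lit 91) (nat_lit 147) r8_91 r1_147 (nat_lit 10554535) (nat_lit 0) (nat_lit 3013316) (nat_lit 0x606b0776a) (nat_lit 1613957075),
  Rx.mk (nat_lit 310) (nat_lit 6) (nat_lit 6) (nat_lit 4) (nat_lit 3) (nat_lit 92) (nat_lit 150) r8_92 r1_150 (nat_lit 0) (nat_lit 0) (nat_lit 4371124) (nat_lit 0x7f9613cdc) (nat_lit 1085125348),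
  Rx.mk (nat_lit 438) (nat_lit 6) (nat_lit 6) (nat_lit 6) (nat_lit 7) (nat_lit 93) (nat_lit 152) r8_93 r1_152 (nat_lit 0) (nat_lit 0) (nat_lit 0) (nat_lit 0x80029938e) (nat_lit 1073741824),
  Rx.mk (nat_lit 484) (nat_lit 4) (nat_lit 4) (nat_lit 7) (nat_lit 4) (nat_lit 94) (nat_lit 142) r8_94 r1_142 (nat_lit 30884831) (nat_lit 12510015) (nat_lit 0) (nat_lit 0x700bf15a4) (nat_lit 1383215470),
  Rx.mk (nat_lit 487) (nat_lit 7) (nat_lit 4) (nat_lit 7) (nat_lit 5) (nat_lit 97) (nat_lit 143) r8_97 r1_143 (nat_lit 0) (nat_lit 5544217) (nat_lit 0) (nat_lit 0x7ffe8daa6) (nat_lit 1079545441),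
  Rx.mk (nat_lit 500) (nat_lit 4) (nat_lit 6) (nat_lit 7) (nat_lit 6) (nat_lit 95) (nat_lit 148) r8_95 r1_148 (nat_lit 5449534) (nat_lit 0) (nat_lit 0) (nat_lit 0x80029938e) (nat_lit 1079191358),
  Rx.mk (nat_lit 502) (nat_lit 6) (nat_lit 6) (nat_lit 7) (nat_lit 7) (nat_lit 96) (nat_lit 151) r8_96 r1_151 (nat_lit 0) (nat_lit 0) (nat_lit 0) (nat_lit 0x80029938e) (nat_lit 1073741824),
  Rx.mk (nat_lit 503) (nat_lit 7) (nat_lit 6) (nat_lit 7) (nat_lit 7) (nat_lit 98) (nat_lit 149) r8_98 r1_149 (nat_lit 0) (nat_lit 0) (nat_lit 0) (nat_lit 0x80029938e) (nat_lit 1073741824),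
  Rx.mk (nat_lit 511) (nat_lit 7) (nat_lit 7) (nat_lit 7) (nat_lit 7) (nat_lit 99) (nat_lit 144) r8_99 r1_144 (nat_lit 0) (nat_lit 0) (nat_lit 0) (nat_lit 0x80029938e) (nat_lit 1073741824)]
noncomputable def e27_9 : List Rx := [
  Rx.mk (nat_lit 59) (nat_lit 3) (nat_lit 7) (nat_lit 0) (nat_lit 3) (nat_lit 146) (nat_lit 126) r8_146 r4_126 (nat_lit 0) (nat_lit 0) (nat_lit 5673761) (nat_lit 0x7fec63c5e) (nat_lit 1080842585),
  Rx.mk (nat_lit 251) (nat_lit 3) (nat_lit 7) (nat_lit 3) (nat_lit 7) (nat_lit 148) (nat_lit 127) r8_148 r4_127 (nat_lit 0) (nat_lit 0) (nat_lit 0) (nat_lit 0x80029938e) (nat_lit 1073741824),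
  Rx.mk (nat_lit 255) (nat_lit 7) (nat_lit 7) (nat_lit 3) (nat_lit 7) (nat_lit 147) (nat_lit 125) r8_147 r4_125 (nat_lit 0) (nat_lit 0) (nat_lit 0) (nat_lit 0x80029938e) (nat_lit 1073741824)]
noncomputable def e27_10 : List Rx := [
  Rx.mk (nat_lit 103) (nat_lit 7) (nat_lit 4) (nat_lit 1) (nat_lit 5) (nat_lit 221) (nat_lit 207) r8_221 r6_207 (nat_lit 0) (nat_lit 5449534) (nat_lit 0) (nat_lit 0x80029938e) (nat_lit 1079191358),
  Rx.mk (nat_lit 111) (nat_lit 7) (nat_lit 5) (nat_lit 1) (nat_lit 7) (nat_lit 222) (nat_lit 208) r8_222 r6_208 (nat_lit 0) (nat_lit 0) (nat_lit 0) (nat_lit 0x80029938e) (nat_lit 1073741824),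
  Rx.mk (nat_lit 123) (nat_lit 3) (nat_lit 7) (nat_lit 1) (nat_lit 7) (nat_lit 224) (nat_lit 206) r8_224 r6_206 (nat_lit 0) (nat_lit 0) (nat_lit 0) (nat_lit 0x8065dab1e) (nat_lit 1067416324),
  Rx.mk (nat_lit 127) (nat_lit 7) (nat_lit 7) (nat_lit 1) (nat_lit 7) (nat_lit 223) (nat_lit 209) r8_223 r6_209 (nat_lit 0) (nat_lit 0) (nat_lit 0) (nat_lit 0x80029938e) (nat_lit 1073741824)]
noncomputable def e27_11 : List Rx := [
  Rx.mk (nat_lit 59) (nat_lit 3) (nat_lit 7) (nat_lit 0) (nat_lit 3) (nat_lit 202) (nat_lit 121) r8_202 r5_121 (nat_lit 0) (nat_lit 0) (nat_lit 1910235) (nat_lit 0x7f9e71762) (nat_lit 1082109159),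
  Rx.mk (nat_lit 63) (nat_lit 7) (nat_lit 7) (nat_lit 0) (nat_lit 3) (nat_lit 201) (nat_lit 118) r8_201 r5_118 (nat_lit 0) (nat_lit 0) (nat_lit 5787882) (nat_lit 0x7f8f3dde0) (nat_lit 1086988006),
  Rx.mk (nat_lit 123) (nat_lit 3) (nat_lit 7) (nat_lit 1) (nat_lit 7) (nat_lit 204) (nat_lit 122) r8_204 r5_122 (nat_lit 0) (nat_lit 0) (nat_lit 0) (nat_lit 0x805be6810) (nat_lit 1068047724),
  Rx.mk (nat_lit 127) (nat_lit 7) (nat_lit 7) (nat_lit 1) (nat_lit 7) (nat_lit 203) (nat_lit 119) r8_203 r5_119 (nat_lit 0) (nat_lit 0) (nat_lit 0) (nat_lit 0x80029938e) (nat_lit 1073741824),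
  Rx.mk (nat_lit 255) (nat_lit 7) (nat_lit 7) (nat_lit 3) (nat_lit 7) (nat_lit 205) (nat_lit 120) r8_205 r5_120 (nat_lit 0) (nat_lit 0) (nat_lit 0) (nat_lit 0x80029938e) (nat_lit 1073741824)]
noncomputable def e27_12 : List Rx := [
  Rx.mk (nat_lit 100) (nat_lit 4) (nat_lit 4) (nat_lit 1) (nat_lit 4) (nat_lit 237) (nat_lit 278) r8_237 r0_278 (nat_lit 3003976) (nat_lit 8414272) (nat_lit 0) (nat_lit 0x59cd441c8) (nat_lit 1722113272),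
  Rx.mk (nat_lit 101) (nat_lit 5) (nat_lit 4) (nat_lit 1) (nat_lit 5) (nat_lit 239) (nat_lit 279) r8_239 r0_279 (nat_lit 0) (nat_lit 5449534) (nat_lit 0) (nat_lit 0x7f7c3426c) (nat_lit 1087884558),
  Rx.mk (nat_lit 108) (nat_lit 4) (nat_lit 5) (nat_lit 1) (nat_lit 6) (nat_lit 238) (nat_lit 280) r8_238 r0_280 (nat_lit 5951502) (nat_lit 0) (nat_lit 0) (nat_lit 0x73924f6f2) (nat_lit 1286998026),
  Rx.mk (nat_lit 109) (nat_lit 5) (nat_lit 5) (nat_lit 1) (nat_lit 7) (nat_lit 240) (nat_lit 281) r8_240 r0_281 (nat_lit 0) (nat_lit 0) (nat_lit 0) (nat_lit 0x800f47324) (nat_lit 1072928224),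
  Rx.mk (nat_lit 356) (nat_lit 4) (nat_lit 4) (nat_lit 5) (nat_lit 4) (nat_lit 230) (nat_lit 271) r8_230 r0_271 (nat_lit 10233960) (nat_lit 7556884) (nat_lit 0) (nat_lit 0x4f43b3c9c) (nat_lit 1904185068),
  Rx.mk (nat_lit 357) (nat_lit 5) (nat_lit 4) (nat_lit 5) (nat_lit 5) (nat_lit 232) (nat_lit 272) r8_232 r0_272 (nat_lit 0) (nat_lit 7909290) (nat_lit 0) (nat_lit 0x7a5a2401e) (nat_lit 1175906214),
  Rx.mk (nat_lit 359) (nat_lit 7) (nat_lit 4) (nat_lit 5) (nat_lit 5) (nat_lit 234) (nat_lit 273) r8_234 r0_273 (nat_lit 0) (nat_lit 6684980) (nat_lit 0) (nat_lit 0x7f181fd94) (nat_lit 1095629604),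
  Rx.mk (nat_lit 364) (nat_lit 4) (nat_lit 5) (nat_lit 5) (nat_lit 6) (nat_lit 231) (nat_lit 274) r8_231 r0_274 (nat_lit 7503020) (nat_lit 0) (nat_lit 0) (nat_lit 0x6d6ab5fac) (nat_lit 1391167544),
  Rx.mk (nat_lit 365) (nat_lit 5) (nat_lit 5) (nat_lit 5) (nat_lit 7) (nat_lit 233) (nat_lit 275) r8_233 r0_275 (nat_lit 0) (nat_lit 0) (nat_lit 0) (nat_lit 0x7fcefe272) (nat_lit 1077071724),
  Rx.mk (nat_lit 367) (nat_lit 7) (nat_lit 5) (nat_lit 5) (nat_lit 7) (nat_lit 235) (nat_lit 276) r8_235 r0_276 (nat_lit 0) (nat_lit 0) (nat_lit 0) (nat_lit 0x80001f996) (nat_lit 1073900524),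
  Rx.mk (nat_lit 383) (nat_lit 7) (nat_lit 7) (nat_lit 5) (nat_lit 7) (nat_lit 236) (nat_lit 277) r8_236 r0_277 (nat_lit 0) (nat_lit 0) (nat_lit 0) (nat_lit 0x80029938e) (nat_lit 1073741824)]
noncomputable def e27_13 : List Rx := [
  Rx.mk (nat_lit 356) (nat_lit 4) (nat_lit 4) (nat_lit 5) (nat_lit 4) (nat_lit 248) (nat_lit 246) r8_248 r7_246 (nat_lit 18822904) (nat_lit 9806922) (nat_lit 0) (nat_lit 0x645205e84) (nat_lit 1563957550),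
  Rx.mk (nat_lit 357) (nat_lit 5) (nat_lit 4) (nat_lit 5) (nat_lit 5) (nat_lit 251) (nat_lit 249) r8_251 r7_249 (nat_lit 0) (nat_lit 5449534) (nat_lit 0) (nat_lit 0x80029938e) (nat_lit 1079191358),
  Rx.mk (nat_lit 359) (nat_lit 7) (nat_lit 4) (nat_lit 5) (nat_lit 5) (nat_lit 254) (nat_lit 252) r8_254 r7_252 (nat_lit 0) (nat_lit 5560769) (nat_lit 0) (nat_lit 0x800073c4e) (nat_lit 1079440193),
  Rx.mk (nat_lit 364) (nat_lit 4) (nat_lit 5) (nat_lit 5) (nat_lit 6) (nat_lit 249) (nat_lit 247) r8_249 r7_247 (nat_lit 5661505) (nat_lit 0) (nat_lit 0) (nat_lit 0x7ff885e6a) (nat_lit 1080049829),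
  Rx.mk (nat_lit 365) (nat_lit 5) (nat_lit 5) (nat_lit 5) (nat_lit 7) (nat_lit 252) (nat_lit 250) r8_252 r7_250 (nat_lit 0) (nat_lit 0) (nat_lit 0) (nat_lit 0x80029938e) (nat_lit 1073741824),
  Rx.mk (nat_lit 367) (nat_lit 7) (nat_lit 5) (nat_lit 5) (nat_lit 7) (nat_lit 255) (nat_lit 253) r8_255 r7_253 (nat_lit 0) (nat_lit 0) (nat_lit 0) (nat_lit 0x80029938e) (nat_lit 1073741824),
  Rx.mk (nat_lit 372) (nat_lit 4) (nat_lit 6) (nat_lit 5) (nat_lit 6) (nat_lit 250) (nat_lit 248) r8_250 r7_248 (nat_lit 5449534) (nat_lit 0) (nat_lit 0) (nat_lit 0x80029938e) (nat_lit 1079191358),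
  Rx.mk (nat_lit 373) (nat_lit 5) (nat_lit 6) (nat_lit 5) (nat_lit 7) (nat_lit 253) (nat_lit 251) r8_253 r7_251 (nat_lit 0) (nat_lit 0) (nat_lit 0) (nat_lit 0x80029938e) (nat_lit 1073741824),
  Rx.mk (nat_lit 383) (nat_lit 7) (nat_lit 7) (nat_lit 5) (nat_lit 7) (nat_lit 256) (nat_lit 254) r8_256 r7_254 (nat_lit 0) (nat_lit 0) (nat_lit 0) (nat_lit 0x80029938e) (nat_lit 1073741824)]
noncomputable def e27_14 : List Rx := [
  Rx.mk (nat_lit 101) (nat_lit 5) (nat_lit 4) (nat_lit 1) (nat_lit 5) (nat_lit 318) (nat_lit 276) r8_318 r1_276 (nat_lit 0) (nat_lit 5449534) (nat_lit 0) (nat_lit 0x7fe5be62e) (nat_lit 1081045658),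
  Rx.mk (nat_lit 109) (nat_lit 5) (nat_lit 5) (nat_lit 1) (nat_lit 7) (nat_lit 319) (nat_lit 277) r8_319 r1_277 (nat_lit 0) (nat_lit 0) (nat_lit 0) (nat_lit 0x800e1d8b8) (nat_lit 1073003524),
  Rx.mk (nat_lit 357) (nat_lit 5) (nat_lit 4) (nat_lit 5) (nat_lit 5) (nat_lit 316) (nat_lit 274) r8_316 r1_274 (nat_lit 0) (nat_lit 5449534) (nat_lit 0) (nat_lit 0x7ff85fa80) (nat_lit 1079847858),
  Rx.mk (nat_lit 365) (nat_lit 5) (nat_lit 5) (nat_lit 5) (nat_lit 7) (nat_lit 317) (nat_lit 275) r8_317 r1_275 (nat_lit 0) (nat_lit 0) (nat_lit 0) (nat_lit 0x80029938e) (nat_lit 1073741824)]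
noncomputable def e27_15 : List Rx := [
  Rx.mk (nat_lit 357) (nat_lit 5) (nat_lit 4) (nat_lit 5) (nat_lit 5) (nat_lit 323) (nat_lit 191) r8_323 r8_191 (nat_lit 0) (nat_lit 5449534) (nat_lit 0) (nat_lit 0x80029938e) (nat_lit 1079191358),
  Rx.mk (nat_lit 365) (nat_lit 5) (nat_lit 5) (nat_lit 5) (nat_lit 7) (nat_lit 324) (nat_lit 192) r8_324 r8_192 (nat_lit 0) (nat_lit 0) (nat_lit 0) (nat_lit 0x80029938e) (nat_lit 1073741824),
  Rx.mk (nat_lit 373) (nat_lit 5) (nat_lit 6) (nat_lit 5) (nat_lit 7) (nat_lit 325) (nat_lit 193) r8_325 r8_193 (nat_lit 0) (nat_lit 0) (nat_lit 0) (nat_lit 0x80029938e) (nat_lit 1073741824)]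
noncomputable def e27_16 : List Rx := [
  Rx.mk (nat_lit 292) (nat_lit 4) (nat_lit 4) (nat_lit 4) (nat_lit 0) (nat_lit 299) (nat_lit 299) r8_299 r8_299 (nat_lit 41629312) (nat_lit 41629312) (nat_lit 6349026) (nat_lit 0x43bdb9d04) (nat_lit 2168128074),
  Rx.mk (nat_lit 295) (nat_lit 7) (nat_lit 4) (nat_lit 4) (nat_lit 1) (nat_lit 302) (nat_lit 300) r8_302 r8_300 (nat_lit 0) (nat_lit 8016297) (nat_lit 11995068) (nat_lit 0x72f43b02e) (nat_lit 1311352989),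
  Rx.mk (nat_lit 308) (nat_lit 4) (nat_lit 6) (nat_lit 4) (nat_lit 2) (nat_lit 300) (nat_lit 302) r8_300 r8_302 (nat_lit 8016297) (nat_lit 0) (nat_lit 11995068) (nat_lit 0x72f43b02e) (nat_lit 1311352989),
  Rx.mk (nat_lit 310) (nat_lit 6) (nat_lit 6) (nat_lit 4) (nat_lit 3) (nat_lit 301) (nat_lit 303) r8_301 r8_303 (nat_lit 0) (nat_lit 0) (nat_lit 5449534) (nat_lit 0x80029938e) (nat_lit 1079191358),
  Rx.mk (nat_lit 319) (nat_lit 7) (nat_lit 7) (nat_lit 4) (nat_lit 3) (nat_lit 303) (nat_lit 301) r8_303 r8_301 (nat_lit 0) (nat_lit 0) (nat_lit 5449534) (nat_lit 0x80029938e) (nat_lit 1079191358),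
  Rx.mk (nat_lit 356) (nat_lit 4) (nat_lit 4) (nat_lit 5) (nat_lit 4) (nat_lit 304) (nat_lit 304) r8_304 r8_304 (nat_lit 12878012) (nat_lit 12878012) (nat_lit 0) (nat_lit 0x6cab7843c) (nat_lit 1421877048),
  Rx.mk (nat_lit 357) (nat_lit 5) (nat_lit 4) (nat_lit 5) (nat_lit 5) (nat_lit 307) (nat_lit 305) r8_307 r8_305 (nat_lit 0) (nat_lit 5449534) (nat_lit 0) (nat_lit 0x80029938e) (nat_lit 1079191358),
  Rx.mk (nat_lit 359) (nat_lit 7) (nat_lit 4) (nat_lit 5) (nat_lit 5) (nat_lit 311) (nat_lit 306) r8_311 r8_306 (nat_lit 0) (nat_lit 5449534) (nat_lit 0) (nat_lit 0x80029938e) (nat_lit 1079191358),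
  Rx.mk (nat_lit 364) (nat_lit 4) (nat_lit 5) (nat_lit 5) (nat_lit 6) (nat_lit 305) (nat_lit 307) r8_305 r8_307 (nat_lit 5449534) (nat_lit 0) (nat_lit 0) (nat_lit 0x80029938e) (nat_lit 1079191358),
  Rx.mk (nat_lit 365) (nat_lit 5) (nat_lit 5) (nat_lit 5) (nat_lit 7) (nat_lit 308) (nat_lit 308) r8_308 r8_308 (nat_lit 0) (nat_lit 0) (nat_lit 0) (nat_lit 0x80029938e) (nat_lit 1073741824),
  Rx.mk (nat_lit 367) (nat_lit 7) (nat_lit 5) (nat_lit 5) (nat_lit 7) (nat_lit 312) (nat_lit 309) r8_312 r8_309 (nat_lit 0) (nat_lit 0) (nat_lit 0) (nat_lit 0x80029938e) (nat_lit 1073741824),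
  Rx.mk (nat_lit 372) (nat_lit 4) (nat_lit 6) (nat_lit 5) (nat_lit 6) (nat_lit 306) (nat_lit 311) r8_306 r8_311 (nat_lit 5449534) (nat_lit 0) (nat_lit 0) (nat_lit 0x80029938e) (nat_lit 1079191358),
  Rx.mk (nat_lit 373) (nat_lit 5) (nat_lit 6) (nat_lit 5) (nat_lit 7) (nat_lit 309) (nat_lit 312) r8_309 r8_312 (nat_lit 0) (nat_lit 0) (nat_lit 0) (nat_lit 0x80029938e) (nat_lit 1073741824),
  Rx.mk (nat_lit 374) (nat_lit 6) (nat_lit 6) (nat_lit 5) (nat_lit 7) (nat_lit 310) (nat_lit 313) r8_310 r8_313 (nat_lit 0) (nat_lit 0) (nat_lit 0) (nat_lit 0x80029938e) (nat_lit 1073741824),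
  Rx.mk (nat_lit 383) (nat_lit 7) (nat_lit 7) (nat_lit 5) (nat_lit 7) (nat_lit 313) (nat_lit 310) r8_313 r8_310 (nat_lit 0) (nat_lit 0) (nat_lit 0) (nat_lit 0x80029938e) (nat_lit 1073741824),
  Rx.mk (nat_lit 438) (nat_lit 6) (nat_lit 6) (nat_lit 6) (nat_lit 7) (nat_lit 314) (nat_lit 315) r8_314 r8_315 (nat_lit 0) (nat_lit 0) (nat_lit 0) (nat_lit 0x80029938e) (nat_lit 1073741824),
  Rx.mk (nat_lit 511) (nat_lit 7) (nat_lit 7) (nat_lit 7) (nat_lit 7) (nat_lit 315) (nat_lit 314) r8_315 r8_314 (nat_lit 0) (nat_lit 0) (nat_lit 0) (nat_lit 0x80029938e) (nat_lit 1073741824)]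
noncomputable def e27_17 : List Rx := [
  Rx.mk (nat_lit 292) (nat_lit 4) (nat_lit 4) (nat_lit 4) (nat_lit 0) (nat_lit 266) (nat_lit 202) r8_266 r9_202 (nat_lit 7499955) (nat_lit 6754004) (nat_lit 3365773) (nat_lit 0x3daadc94e) (nat_lit 2197406356),
  Rx.mk (nat_lit 295) (nat_lit 7) (nat_lit 4) (nat_lit 4) (nat_lit 1) (nat_lit 269) (nat_lit 204) r8_269 r9_204 (nat_lit 0) (nat_lit 6439668) (nat_lit 5675110) (nat_lit 0x70ead3b50) (nat_lit 1337414702),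
  Rx.mk (nat_lit 308) (nat_lit 4) (nat_lit 6) (nat_lit 4) (nat_lit 2) (nat_lit 267) (nat_lit 203) r8_267 r9_203 (nat_lit 7900404) (nat_lit 0) (nat_lit 9276876) (nat_lit 0x7130d9410) (nat_lit 1337916804),
  Rx.mk (nat_lit 310) (nat_lit 6) (nat_lit 6) (nat_lit 4) (nat_lit 3) (nat_lit 268) (nat_lit 207) r8_268 r9_207 (nat_lit 0) (nat_lit 0) (nat_lit 5449534) (nat_lit 0x80029938e) (nat_lit 1079191358),
  Rx.mk (nat_lit 438) (nat_lit 6) (nat_lit 6) (nat_lit 6) (nat_lit 7) (nat_lit 270) (nat_lit 208) r8_270 r9_208 (nat_lit 0) (nat_lit 0) (nat_lit 0) (nat_lit 0x80029938e) (nat_lit 1073741824),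
  Rx.mk (nat_lit 487) (nat_lit 7) (nat_lit 4) (nat_lit 7) (nat_lit 5) (nat_lit 271) (nat_lit 205) r8_271 r9_205 (nat_lit 0) (nat_lit 5449534) (nat_lit 0) (nat_lit 0x80029938e) (nat_lit 1079191358),
  Rx.mk (nat_lit 511) (nat_lit 7) (nat_lit 7) (nat_lit 7) (nat_lit 7) (nat_lit 272) (nat_lit 206) r8_272 r9_206 (nat_lit 0) (nat_lit 0) (nat_lit 0) (nat_lit 0x80029938e) (nat_lit 1073741824)]
noncomputable def e27_18 : List Rx := [
  Rx.mk (nat_lit 100) (nat_lit 4) (nat_lit 4) (nat_lit 1) (nat_lit 4) (nat_lit 341) (nat_lit 287) r8_341 r4_287 (nat_lit 6310285) (nat_lit 6927974) (nat_lit 0) (nat_lit 0x6ff2af942) (nat_lit 1354702483),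
  Rx.mk (nat_lit 101) (nat_lit 5) (nat_lit 4) (nat_lit 1) (nat_lit 5) (nat_lit 343) (nat_lit 288) r8_343 r4_288 (nat_lit 0) (nat_lit 5449534) (nat_lit 0) (nat_lit 0x80029938e) (nat_lit 1079191358),
  Rx.mk (nat_lit 103) (nat_lit 7) (nat_lit 4) (nat_lit 1) (nat_lit 5) (nat_lit 345) (nat_lit 289) r8_345 r4_289 (nat_lit 0) (nat_lit 5449534) (nat_lit 0) (nat_lit 0x80029938e) (nat_lit 1079191358),
  Rx.mk (nat_lit 108) (nat_lit 4) (nat_lit 5) (nat_lit 1) (nat_lit 6) (nat_lit 342) (nat_lit 290) r8_342 r4_290 (nat_lit 5449534) (nat_lit 0) (nat_lit 0) (nat_lit 0x80029938e) (nat_lit 1079191358),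
  Rx.mk (nat_lit 109) (nat_lit 5) (nat_lit 5) (nat_lit 1) (nat_lit 7) (nat_lit 344) (nat_lit 291) r8_344 r4_291 (nat_lit 0) (nat_lit 0) (nat_lit 0) (nat_lit 0x80029938e) (nat_lit 1073741824),
  Rx.mk (nat_lit 111) (nat_lit 7) (nat_lit 5) (nat_lit 1) (nat_lit 7) (nat_lit 346) (nat_lit 292) r8_346 r4_292 (nat_lit 0) (nat_lit 0) (nat_lit 0) (nat_lit 0x80029938e) (nat_lit 1073741824),
  Rx.mk (nat_lit 359) (nat_lit 7) (nat_lit 4) (nat_lit 5) (nat_lit 5) (nat_lit 338) (nat_lit 284) r8_338 r4_284 (nat_lit 0) (nat_lit 5449534) (nat_lit 0) (nat_lit 0x80029938e) (nat_lit 1079191358),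
  Rx.mk (nat_lit 367) (nat_lit 7) (nat_lit 5) (nat_lit 5) (nat_lit 7) (nat_lit 339) (nat_lit 285) r8_339 r4_285 (nat_lit 0) (nat_lit 0) (nat_lit 0) (nat_lit 0x80029938e) (nat_lit 1073741824),
  Rx.mk (nat_lit 383) (nat_lit 7) (nat_lit 7) (nat_lit 5) (nat_lit 7) (nat_lit 340) (nat_lit 286) r8_340 r4_286 (nat_lit 0) (nat_lit 0) (nat_lit 0) (nat_lit 0x80029938e) (nat_lit 1073741824)]
noncomputable def e27_19 : List Rx := [
  Rx.mk (nat_lit 359) (nat_lit 7) (nat_lit 4) (nat_lit 5) (nat_lit 5) (nat_lit 355) (nat_lit 195) r8_355 r10_195 (nat_lit 0) (nat_lit 5449534) (nat_lit 0) (nat_lit 0x80029938e) (nat_lit 1079191358),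
  Rx.mk (nat_lit 367) (nat_lit 7) (nat_lit 5) (nat_lit 5) (nat_lit 7) (nat_lit 356) (nat_lit 196) r8_356 r10_196 (nat_lit 0) (nat_lit 0) (nat_lit 0) (nat_lit 0x80029938e) (nat_lit 1073741824),
  Rx.mk (nat_lit 383) (nat_lit 7) (nat_lit 7) (nat_lit 5) (nat_lit 7) (nat_lit 357) (nat_lit 197) r8_357 r10_197 (nat_lit 0) (nat_lit 0) (nat_lit 0) (nat_lit 0x80029938e) (nat_lit 1073741824)]
noncomputable def e27_20 : List Rx := [
  Rx.mk (nat_lit 100) (nat_lit 4) (nat_lit 4) (nat_lit 1) (nat_lit 4) (nat_lit 368) (nat_lit 222) r8_368 r11_222 (nat_lit 31594176) (nat_lit 21443359) (nat_lit 0) (nat_lit 0x791f109d8) (nat_lit 1241553659),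
  Rx.mk (nat_lit 101) (nat_lit 5) (nat_lit 4) (nat_lit 1) (nat_lit 5) (nat_lit 370) (nat_lit 224) r8_370 r11_224 (nat_lit 0) (nat_lit 5449534) (nat_lit 0) (nat_lit 0x80029938e) (nat_lit 1079191358),
  Rx.mk (nat_lit 103) (nat_lit 7) (nat_lit 4) (nat_lit 1) (nat_lit 5) (nat_lit 372) (nat_lit 226) r8_372 r11_226 (nat_lit 0) (nat_lit 5449534) (nat_lit 0) (nat_lit 0x80029938e) (nat_lit 1079191358),
  Rx.mk (nat_lit 108) (nat_lit 4) (nat_lit 5) (nat_lit 1) (nat_lit 6) (nat_lit 369) (nat_lit 223) r8_369 r11_223 (nat_lit 5449534) (nat_lit 0) (nat_lit 0) (nat_lit 0x80029938e) (nat_lit 1079191358),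
  Rx.mk (nat_lit 109) (nat_lit 5) (nat_lit 5) (nat_lit 1) (nat_lit 7) (nat_lit 371) (nat_lit 225) r8_371 r11_225 (nat_lit 0) (nat_lit 0) (nat_lit 0) (nat_lit 0x80029938e) (nat_lit 1073741824),
  Rx.mk (nat_lit 111) (nat_lit 7) (nat_lit 5) (nat_lit 1) (nat_lit 7) (nat_lit 373) (nat_lit 227) r8_373 r11_227 (nat_lit 0) (nat_lit 0) (nat_lit 0) (nat_lit 0x80029938e) (nat_lit 1073741824),
  Rx.mk (nat_lit 127) (nat_lit 7) (nat_lit 7) (nat_lit 1) (nat_lit 7) (nat_lit 374) (nat_lit 228) r8_374 r11_228 (nat_lit 0) (nat_lit 0) (nat_lit 0) (nat_lit 0x80029938e) (nat_lit 1073741824),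
  Rx.mk (nat_lit 383) (nat_lit 7) (nat_lit 7) (nat_lit 5) (nat_lit 7) (nat_lit 367) (nat_lit 229) r8_367 r11_229 (nat_lit 0) (nat_lit 0) (nat_lit 0) (nat_lit 0x80029938e) (nat_lit 1073741824)]
noncomputable def e27_21 : List Rx := [
  Rx.mk (nat_lit 292) (nat_lit 4) (nat_lit 4) (nat_lit 4) (nat_lit 0) (nat_lit 273) (nat_lit 99) r8_273 r9_99 (nat_lit 10845530) (nat_lit 3283945) (nat_lit 3207243) (nat_lit 0x3b8a2a25c) (nat_lit 2232597442),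
  Rx.mk (nat_lit 295) (nat_lit 7) (nat_lit 4) (nat_lit 4) (nat_lit 1) (nat_lit 276) (nat_lit 100) r8_276 r9_100 (nat_lit 0) (nat_lit 4643983) (nat_lit 5166248) (nat_lit 0x6e6877564) (nat_lit 1376945555),
  Rx.mk (nat_lit 308) (nat_lit 4) (nat_lit 6) (nat_lit 4) (nat_lit 2) (nat_lit 274) (nat_lit 103) r8_274 r9_103 (nat_lit 4026349) (nat_lit 0) (nat_lit 6516495) (nat_lit 0x6c0f7a8a0) (nat_lit 1416819768),
  Rx.mk (nat_lit 310) (nat_lit 6) (nat_lit 6) (nat_lit 4) (nat_lit 3) (nat_lit 275) (nat_lit 106) r8_275 r9_106 (nat_lit 0) (nat_lit 0) (nat_lit 5449534) (nat_lit 0x80029938e) (nat_lit 1079191358),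
  Rx.mk (nat_lit 311) (nat_lit 7) (nat_lit 6) (nat_lit 4) (nat_lit 3) (nat_lit 277) (nat_lit 104) r8_277 r9_104 (nat_lit 0) (nat_lit 0) (nat_lit 5449534) (nat_lit 0x80029938e) (nat_lit 1079191358),
  Rx.mk (nat_lit 406) (nat_lit 6) (nat_lit 2) (nat_lit 6) (nat_lit 7) (nat_lit 279) (nat_lit 108) r8_279 r9_108 (nat_lit 0) (nat_lit 0) (nat_lit 0) (nat_lit 0x80029938e) (nat_lit 1073741824),
  Rx.mk (nat_lit 438) (nat_lit 6) (nat_lit 6) (nat_lit 6) (nat_lit 7) (nat_lit 278) (nat_lit 107) r8_278 r9_107 (nat_lit 0) (nat_lit 0) (nat_lit 0) (nat_lit 0x80029938e) (nat_lit 1073741824),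
  Rx.mk (nat_lit 487) (nat_lit 7) (nat_lit 4) (nat_lit 7) (nat_lit 5) (nat_lit 280) (nat_lit 101) r8_280 r9_101 (nat_lit 0) (nat_lit 5449534) (nat_lit 0) (nat_lit 0x8000c26c8) (nat_lit 1079309258),
  Rx.mk (nat_lit 503) (nat_lit 7) (nat_lit 6) (nat_lit 7) (nat_lit 7) (nat_lit 281) (nat_lit 105) r8_281 r9_105 (nat_lit 0) (nat_lit 0) (nat_lit 0) (nat_lit 0x80029938e) (nat_lit 1073741824),
  Rx.mk (nat_lit 511) (nat_lit 7) (nat_lit 7) (nat_lit 7) (nat_lit 7) (nat_lit 282) (nat_lit 102) r8_282 r9_102 (nat_lit 0) (nat_lit 0) (nat_lit 0) (nat_lit 0x80029938e) (nat_lit 1073741824)]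
noncomputable def e27_22 : List Rx := [
  Rx.mk (nat_lit 0) (nat_lit 0) (nat_lit 0) (nat_lit 0) (nat_lit 0) (nat_lit 0) (nat_lit 124) r8_0 r0_124 (nat_lit 19583288) (nat_lit 875647) (nat_lit 769730) (nat_lit 0x2e4eda24a) (nat_lit 2457082489),
  Rx.mk (nat_lit 24) (nat_lit 0) (nat_lit 3) (nat_lit 0) (nat_lit 2) (nat_lit 1) (nat_lit 125) r8_1 r0_125 (nat_lit 6110955) (nat_lit 0) (nat_lit 6920669) (nat_lit 0x5c1df8e8c) (nat_lit 1685132748),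
  Rx.mk (nat_lit 27) (nat_lit 3) (nat_lit 3) (nat_lit 0) (nat_lit 3) (nat_lit 2) (nat_lit 126) r8_2 r0_126 (nat_lit 0) (nat_lit 0) (nat_lit 3304366) (nat_lit 0x7121ef044) (nat_lit 1325017390),
  Rx.mk (nat_lit 64) (nat_lit 0) (nat_lit 0) (nat_lit 1) (nat_lit 4) (nat_lit 3) (nat_lit 127) r8_3 r0_127 (nat_lit 10202902) (nat_lit 5177292) (nat_lit 0) (nat_lit 0x5a407c046) (nat_lit 1718579418),
  Rx.mk (nat_lit 88) (nat_lit 0) (nat_lit 3) (nat_lit 1) (nat_lit 6) (nat_lit 4) (nat_lit 128) r8_4 r0_128 (nat_lit 7519074) (nat_lit 0) (nat_lit 0) (nat_lit 0x7f790236e) (nat_lit 1090159298),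
  Rx.mk (nat_lit 91) (nat_lit 3) (nat_lit 3) (nat_lit 1) (nat_lit 7) (nat_lit 5) (nat_lit 129) r8_5 r0_129 (nat_lit 0) (nat_lit 0) (nat_lit 0) (nat_lit 0x7ff585e22) (nat_lit 1074580824),
  Rx.mk (nat_lit 128) (nat_lit 0) (nat_lit 0) (nat_lit 2) (nat_lit 4) (nat_lit 6) (nat_lit 133) r8_6 r0_133 (nat_lit 19041550) (nat_lit 11768288) (nat_lit 0) (nat_lit 0x59527f2bc) (nat_lit 1749505762),
  Rx.mk (nat_lit 130) (nat_lit 2) (nat_lit 0) (nat_lit 2) (nat_lit 5) (nat_lit 8) (nat_lit 136) r8_8 r0_136 (nat_lit 0) (nat_lit 8974417) (nat_lit 0) (nat_lit 0x79570f6e0) (nat_lit 1193845041),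
  Rx.mk (nat_lit 146) (nat_lit 2) (nat_lit 2) (nat_lit 2) (nat_lit 7) (nat_lit 9) (nat_lit 138) r8_9 r0_138 (nat_lit 0) (nat_lit 0) (nat_lit 0) (nat_lit 0x80029938e) (nat_lit 1073741824),
  Rx.mk (nat_lit 152) (nat_lit 0) (nat_lit 3) (nat_lit 2) (nat_lit 6) (nat_lit 7) (nat_lit 134) r8_7 r0_134 (nat_lit 11254699) (nat_lit 0) (nat_lit 0) (nat_lit 0x7f97706d4) (nat_lit 1091919323),
  Rx.mk (nat_lit 154) (nat_lit 2) (nat_lit 3) (nat_lit 2) (nat_lit 7) (nat_lit 10) (nat_lit 137) r8_10 r0_137 (nat_lit 0) (nat_lit 0) (nat_lit 0) (nat_lit 0x80029938e) (nat_lit 1073741824),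
  Rx.mk (nat_lit 155) (nat_lit 3) (nat_lit 3) (nat_lit 2) (nat_lit 7) (nat_lit 11) (nat_lit 135) r8_11 r0_135 (nat_lit 0) (nat_lit 0) (nat_lit 0) (nat_lit 0x7ff7f4f0a) (nat_lit 1074424424),
  Rx.mk (nat_lit 219) (nat_lit 3) (nat_lit 3) (nat_lit 3) (nat_lit 7) (nat_lit 14) (nat_lit 130) r8_14 r0_130 (nat_lit 0) (nat_lit 0) (nat_lit 0) (nat_lit 0x7fe8c0fac) (nat_lit 1075405124),
  Rx.mk (nat_lit 251) (nat_lit 3) (nat_lit 7) (nat_lit 3) (nat_lit 7) (nat_lit 13) (nat_lit 131) r8_13 r0_131 (nat_lit 0) (nat_lit 0) (nat_lit 0) (nat_lit 0x80000807a) (nat_lit 1073906424),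
  Rx.mk (nat_lit 255) (nat_lit 7) (nat_lit 7) (nat_lit 3) (nat_lit 7) (nat_lit 12) (nat_lit 132) r8_12 r0_132 (nat_lit 0) (nat_lit 0) (nat_lit 0) (nat_lit 0x7ffea679a) (nat_lit 1073995024)]
noncomputable def e27_23 : List Rx := [
  Rx.mk (nat_lit 0) (nat_lit 0) (nat_lit 0) (nat_lit 0) (nat_lit 0) (nat_lit 15) (nat_lit 131) r8_15 r1_131 (nat_lit 81717872) (nat_lit 2913128) (nat_lit 11926250) (nat_lit 0x48dac9494) (nat_lit 2089819574),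
  Rx.mk (nat_lit 24) (nat_lit 0) (nat_lit 3) (nat_lit 0) (nat_lit 2) (nat_lit 16) (nat_lit 132) r8_16 r1_132 (nat_lit 45348310) (nat_lit 0) (nat_lit 24476340) (nat_lit 0x716a0d466) (nat_lit 1386843574),
  Rx.mk (nat_lit 27) (nat_lit 3) (nat_lit 3) (nat_lit 0) (nat_lit 3) (nat_lit 17) (nat_lit 133) r8_17 r1_133 (nat_lit 0) (nat_lit 0) (nat_lit 4792579) (nat_lit 0x7ff6a942a) (nat_lit 1079300103),
  Rx.mk (nat_lit 64) (nat_lit 0) (nat_lit 0) (nat_lit 1) (nat_lit 4) (nat_lit 18) (nat_lit 134) r8_18 r1_134 (nat_lit 172043056) (nat_lit 5603265) (nat_lit 0) (nat_lit 0x79817c89c) (nat_lit 1359753945),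
  Rx.mk (nat_lit 88) (nat_lit 0) (nat_lit 3) (nat_lit 1) (nat_lit 6) (nat_lit 19) (nat_lit 135) r8_19 r1_135 (nat_lit 5449534) (nat_lit 0) (nat_lit 0) (nat_lit 0x80029938e) (nat_lit 1079191358),
  Rx.mk (nat_lit 91) (nat_lit 3) (nat_lit 3) (nat_lit 1) (nat_lit 7) (nat_lit 20) (nat_lit 136) r8_20 r1_136 (nat_lit 0) (nat_lit 0) (nat_lit 0) (nat_lit 0x80029938e) (nat_lit 1073741824),
  Rx.mk (nat_lit 128) (nat_lit 0) (nat_lit 0) (nat_lit 2) (nat_lit 4) (nat_lit 21) (nat_lit 138) r8_21 r1_138 (nat_lit 139970032) (nat_lit 4804096) (nat_lit 0) (nat_lit 0x78866aa58) (nat_lit 1343234852),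
  Rx.mk (nat_lit 130) (nat_lit 2) (nat_lit 0) (nat_lit 2) (nat_lit 5) (nat_lit 22) (nat_lit 139) r8_22 r1_139 (nat_lit 0) (nat_lit 4861700) (nat_lit 0) (nat_lit 0x7fe599e8c) (nat_lit 1080466924),
  Rx.mk (nat_lit 146) (nat_lit 2) (nat_lit 2) (nat_lit 2) (nat_lit 7) (nat_lit 23) (nat_lit 140) r8_23 r1_140 (nat_lit 0) (nat_lit 0) (nat_lit 0) (nat_lit 0x80029938e) (nat_lit 1073741824),
  Rx.mk (nat_lit 219) (nat_lit 3) (nat_lit 3) (nat_lit 3) (nat_lit 7) (nat_lit 24) (nat_lit 137) r8_24 r1_137 (nat_lit 0) (nat_lit 0) (nat_lit 0) (nat_lit 0x80029938e) (nat_lit 1073741824)]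
noncomputable def e27_24 : List Rx := [
  Rx.mk (nat_lit 24) (nat_lit 0) (nat_lit 3) (nat_lit 0) (nat_lit 2) (nat_lit 47) (nat_lit 114) r8_47 r4_114 (nat_lit 8571815) (nat_lit 0) (nat_lit 9446528) (nat_lit 0x6c370d6e2) (nat_lit 1421722967),
  Rx.mk (nat_lit 27) (nat_lit 3) (nat_lit 3) (nat_lit 0) (nat_lit 3) (nat_lit 49) (nat_lit 115) r8_49 r4_115 (nat_lit 0) (nat_lit 0) (nat_lit 3225500) (nat_lit 0x7ffacb274) (nat_lit 1077464224),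
  Rx.mk (nat_lit 59) (nat_lit 3) (nat_lit 7) (nat_lit 0) (nat_lit 3) (nat_lit 48) (nat_lit 116) r8_48 r4_116 (nat_lit 0) (nat_lit 0) (nat_lit 3917153) (nat_lit 0x801c7137e) (nat_lit 1076004277),
  Rx.mk (nat_lit 88) (nat_lit 0) (nat_lit 3) (nat_lit 1) (nat_lit 6) (nat_lit 50) (nat_lit 117) r8_50 r4_117 (nat_lit 5449534) (nat_lit 0) (nat_lit 0) (nat_lit 0x80029938e) (nat_lit 1079191358),
  Rx.mk (nat_lit 91) (nat_lit 3) (nat_lit 3) (nat_lit 1) (nat_lit 7) (nat_lit 52) (nat_lit 118) r8_52 r4_118 (nat_lit 0) (nat_lit 0) (nat_lit 0) (nat_lit 0x802937ce8) (nat_lit 1071271324),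
  Rx.mk (nat_lit 123) (nat_lit 3) (nat_lit 7) (nat_lit 1) (nat_lit 7) (nat_lit 51) (nat_lit 119) r8_51 r4_119 (nat_lit 0) (nat_lit 0) (nat_lit 0) (nat_lit 0x800f1e8de) (nat_lit 1072939424),
  Rx.mk (nat_lit 152) (nat_lit 0) (nat_lit 3) (nat_lit 2) (nat_lit 6) (nat_lit 53) (nat_lit 122) r8_53 r4_122 (nat_lit 5449534) (nat_lit 0) (nat_lit 0) (nat_lit 0x80029938e) (nat_lit 1079191358),
  Rx.mk (nat_lit 154) (nat_lit 2) (nat_lit 3) (nat_lit 2) (nat_lit 7) (nat_lit 54) (nat_lit 124) r8_54 r4_124 (nat_lit 0) (nat_lit 0) (nat_lit 0) (nat_lit 0x80029938e) (nat_lit 1073741824),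
  Rx.mk (nat_lit 155) (nat_lit 3) (nat_lit 3) (nat_lit 2) (nat_lit 7) (nat_lit 55) (nat_lit 123) r8_55 r4_123 (nat_lit 0) (nat_lit 0) (nat_lit 0) (nat_lit 0x802937ce8) (nat_lit 1071271324),
  Rx.mk (nat_lit 251) (nat_lit 3) (nat_lit 7) (nat_lit 3) (nat_lit 7) (nat_lit 57) (nat_lit 120) r8_57 r4_120 (nat_lit 0) (nat_lit 0) (nat_lit 0) (nat_lit 0x80029938e) (nat_lit 1073741824),
  Rx.mk (nat_lit 255) (nat_lit 7) (nat_lit 7) (nat_lit 3) (nat_lit 7) (nat_lit 56) (nat_lit 121) r8_56 r4_121 (nat_lit 0) (nat_lit 0) (nat_lit 0) (nat_lit 0x80029938e) (nat_lit 1073741824)]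
noncomputable def e27_25 : List Rx := [
  Rx.mk (nat_lit 0) (nat_lit 0) (nat_lit 0) (nat_lit 0) (nat_lit 0) (nat_lit 78) (nat_lit 150) r8_78 r7_150 (nat_lit 9910720) (nat_lit 3078217) (nat_lit 3697174) (nat_lit 0x365589f52) (nat_lit 2318735535),
  Rx.mk (nat_lit 24) (nat_lit 0) (nat_lit 3) (nat_lit 0) (nat_lit 2) (nat_lit 79) (nat_lit 153) r8_79 r7_153 (nat_lit 5833776) (nat_lit 0) (nat_lit 5820576) (nat_lit 0x62f217bb8) (nat_lit 1569901976),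
  Rx.mk (nat_lit 27) (nat_lit 3) (nat_lit 3) (nat_lit 0) (nat_lit 3) (nat_lit 80) (nat_lit 155) r8_80 r7_155 (nat_lit 0) (nat_lit 0) (nat_lit 3594568) (nat_lit 0x7ff2cfe44) (nat_lit 1078347292),
  Rx.mk (nat_lit 128) (nat_lit 0) (nat_lit 0) (nat_lit 2) (nat_lit 4) (nat_lit 81) (nat_lit 151) r8_81 r7_151 (nat_lit 2289832) (nat_lit 2813309) (nat_lit 0) (nat_lit 0x6a26a4636) (nat_lit 1443213565),
  Rx.mk (nat_lit 130) (nat_lit 2) (nat_lit 0) (nat_lit 2) (nat_lit 5) (nat_lit 83) (nat_lit 152) r8_83 r7_152 (nat_lit 0) (nat_lit 5449534) (nat_lit 0) (nat_lit 0x7ffa30abc) (nat_lit 1079730858),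
  Rx.mk (nat_lit 146) (nat_lit 2) (nat_lit 2) (nat_lit 2) (nat_lit 7) (nat_lit 84) (nat_lit 159) r8_84 r7_159 (nat_lit 0) (nat_lit 0) (nat_lit 0) (nat_lit 0x80029938e) (nat_lit 1073741824),
  Rx.mk (nat_lit 152) (nat_lit 0) (nat_lit 3) (nat_lit 2) (nat_lit 6) (nat_lit 82) (nat_lit 154) r8_82 r7_154 (nat_lit 5449534) (nat_lit 0) (nat_lit 0) (nat_lit 0x7ffb2a422) (nat_lit 1079668258),
  Rx.mk (nat_lit 154) (nat_lit 2) (nat_lit 3) (nat_lit 2) (nat_lit 7) (nat_lit 85) (nat_lit 158) r8_85 r7_158 (nat_lit 0) (nat_lit 0) (nat_lit 0) (nat_lit 0x80029938e) (nat_lit 1073741824),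
  Rx.mk (nat_lit 155) (nat_lit 3) (nat_lit 3) (nat_lit 2) (nat_lit 7) (nat_lit 86) (nat_lit 157) r8_86 r7_157 (nat_lit 0) (nat_lit 0) (nat_lit 0) (nat_lit 0x80029938e) (nat_lit 1073741824),
  Rx.mk (nat_lit 219) (nat_lit 3) (nat_lit 3) (nat_lit 3) (nat_lit 7) (nat_lit 89) (nat_lit 156) r8_89 r7_156 (nat_lit 0) (nat_lit 0) (nat_lit 0) (nat_lit 0x80029938e) (nat_lit 1073741824),
  Rx.mk (nat_lit 251) (nat_lit 3) (nat_lit 7) (nat_lit 3) (nat_lit 7) (nat_lit 88) (nat_lit 149) r8_88 r7_149 (nat_lit 0) (nat_lit 0) (nat_lit 0) (nat_lit 0x80029938e) (nat_lit 1073741824),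
  Rx.mk (nat_lit 255) (nat_lit 7) (nat_lit 7) (nat_lit 3) (nat_lit 7) (nat_lit 87) (nat_lit 148) r8_87 r7_148 (nat_lit 0) (nat_lit 0) (nat_lit 0) (nat_lit 0x80029938e) (nat_lit 1073741824)]
noncomputable def e27_26 : List Rx := [
  Rx.mk (nat_lit 0) (nat_lit 0) (nat_lit 0) (nat_lit 0) (nat_lit 0) (nat_lit 126) (nat_lit 126) r8_126 r8_126 (nat_lit 65670969) (nat_lit 5773073) (nat_lit 5773073) (nat_lit 0x424175d8e) (nat_lit 2180503739),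
  Rx.mk (nat_lit 24) (nat_lit 0) (nat_lit 3) (nat_lit 0) (nat_lit 2) (nat_lit 127) (nat_lit 129) r8_127 r8_129 (nat_lit 4551188) (nat_lit 0) (nat_lit 4933327) (nat_lit 0x6bd606ea2) (nat_lit 1419502739),
  Rx.mk (nat_lit 27) (nat_lit 3) (nat_lit 3) (nat_lit 0) (nat_lit 3) (nat_lit 128) (nat_lit 130) r8_128 r8_130 (nat_lit 0) (nat_lit 0) (nat_lit 5449534) (nat_lit 0x80029938e) (nat_lit 1079191358),
  Rx.mk (nat_lit 128) (nat_lit 0) (nat_lit 0) (nat_lit 2) (nat_lit 4) (nat_lit 129) (nat_lit 127) r8_129 r8_127 (nat_lit 4551188) (nat_lit 4933327) (nat_lit 0) (nat_lit 0x6bd606ea2) (nat_lit 1419502739),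
  Rx.mk (nat_lit 130) (nat_lit 2) (nat_lit 0) (nat_lit 2) (nat_lit 5) (nat_lit 130) (nat_lit 128) r8_130 r8_128 (nat_lit 0) (nat_lit 5449534) (nat_lit 0) (nat_lit 0x80029938e) (nat_lit 1079191358),
  Rx.mk (nat_lit 146) (nat_lit 2) (nat_lit 2) (nat_lit 2) (nat_lit 7) (nat_lit 131) (nat_lit 132) r8_131 r8_132 (nat_lit 0) (nat_lit 0) (nat_lit 0) (nat_lit 0x80029938e) (nat_lit 1073741824),
  Rx.mk (nat_lit 219) (nat_lit 3) (nat_lit 3) (nat_lit 3) (nat_lit 7) (nat_lit 132) (nat_lit 131) r8_132 r8_131 (nat_lit 0) (nat_lit 0) (nat_lit 0) (nat_lit 0x80029938e) (nat_lit 1073741824)]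
noncomputable def e27_27 : List Rx := [
  Rx.mk (nat_lit 0) (nat_lit 0) (nat_lit 0) (nat_lit 0) (nat_lit 0) (nat_lit 114) (nat_lit 102) r8_114 r8_102 (nat_lit 7669699) (nat_lit 3541864) (nat_lit 3167351) (nat_lit 0x3c2eed62c) (nat_lit 2218909038),
  Rx.mk (nat_lit 24) (nat_lit 0) (nat_lit 3) (nat_lit 0) (nat_lit 2) (nat_lit 115) (nat_lit 103) r8_115 r8_103 (nat_lit 4749179) (nat_lit 0) (nat_lit 5260690) (nat_lit 0x67a0009ec) (nat_lit 1490238693),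
  Rx.mk (nat_lit 27) (nat_lit 3) (nat_lit 3) (nat_lit 0) (nat_lit 3) (nat_lit 116) (nat_lit 104) r8_116 r8_104 (nat_lit 0) (nat_lit 0) (nat_lit 5449534) (nat_lit 0x7ff093d10) (nat_lit 1080349458),
  Rx.mk (nat_lit 128) (nat_lit 0) (nat_lit 0) (nat_lit 2) (nat_lit 4) (nat_lit 117) (nat_lit 108) r8_117 r8_108 (nat_lit 570904) (nat_lit 600781) (nat_lit 0) (nat_lit 0x6f7ab234a) (nat_lit 1350424009),
  Rx.mk (nat_lit 130) (nat_lit 2) (nat_lit 0) (nat_lit 2) (nat_lit 5) (nat_lit 119) (nat_lit 111) r8_119 r8_111 (nat_lit 0) (nat_lit 5449534) (nat_lit 0) (nat_lit 0x7ff50b064) (nat_lit 1080061658),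
  Rx.mk (nat_lit 146) (nat_lit 2) (nat_lit 2) (nat_lit 2) (nat_lit 7) (nat_lit 120) (nat_lit 113) r8_120 r8_113 (nat_lit 0) (nat_lit 0) (nat_lit 0) (nat_lit 0x80029938e) (nat_lit 1073741824),
  Rx.mk (nat_lit 152) (nat_lit 0) (nat_lit 3) (nat_lit 2) (nat_lit 6) (nat_lit 118) (nat_lit 109) r8_118 r8_109 (nat_lit 5031568) (nat_lit 0) (nat_lit 0) (nat_lit 0x7ff22df90) (nat_lit 1079827992),
  Rx.mk (nat_lit 154) (nat_lit 2) (nat_lit 3) (nat_lit 2) (nat_lit 7) (nat_lit 121) (nat_lit 112) r8_121 r8_112 (nat_lit 0) (nat_lit 0) (nat_lit 0) (nat_lit 0x80029938e) (nat_lit 1073741824),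
  Rx.mk (nat_lit 155) (nat_lit 3) (nat_lit 3) (nat_lit 2) (nat_lit 7) (nat_lit 122) (nat_lit 110) r8_122 r8_110 (nat_lit 0) (nat_lit 0) (nat_lit 0) (nat_lit 0x80029938e) (nat_lit 1073741824),
  Rx.mk (nat_lit 219) (nat_lit 3) (nat_lit 3) (nat_lit 3) (nat_lit 7) (nat_lit 125) (nat_lit 105) r8_125 r8_105 (nat_lit 0) (nat_lit 0) (nat_lit 0) (nat_lit 0x80029938e) (nat_lit 1073741824),
  Rx.mk (nat_lit 251) (nat_lit 3) (nat_lit 7) (nat_lit 3) (nat_lit 7) (nat_lit 124) (nat_lit 106) r8_124 r8_106 (nat_lit 0) (nat_lit 0) (nat_lit 0) (nat_lit 0x80029938e) (nat_lit 1073741824),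
  Rx.mk (nat_lit 255) (nat_lit 7) (nat_lit 7) (nat_lit 3) (nat_lit 7) (nat_lit 123) (nat_lit 107) r8_123 r8_107 (nat_lit 0) (nat_lit 0) (nat_lit 0) (nat_lit 0x80029938e) (nat_lit 1073741824),
  Rx.mk (nat_lit 292) (nat_lit 4) (nat_lit 4) (nat_lit 4) (nat_lit 0) (nat_lit 102) (nat_lit 114) r8_102 r8_114 (nat_lit 7669699) (nat_lit 3541864) (nat_lit 3167351) (nat_lit 0x3c2eed62c) (nat_lit 2218909038),
  Rx.mk (nat_lit 308) (nat_lit 4) (nat_lit 6) (nat_lit 4) (nat_lit 2) (nat_lit 103) (nat_lit 115) r8_103 r8_115 (nat_lit 4749179) (nat_lit 0) (nat_lit 5260690) (nat_lit 0x67a0009ec) (nat_lit 1490238693),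
  Rx.mk (nat_lit 310) (nat_lit 6) (nat_lit 6) (nat_lit 4) (nat_lit 3) (nat_lit 104) (nat_lit 116) r8_104 r8_116 (nat_lit 0) (nat_lit 0) (nat_lit 5449534) (nat_lit 0x7ff093d10) (nat_lit 1080349458),
  Rx.mk (nat_lit 402) (nat_lit 2) (nat_lit 2) (nat_lit 6) (nat_lit 7) (nat_lit 107) (nat_lit 123) r8_107 r8_123 (nat_lit 0) (nat_lit 0) (nat_lit 0) (nat_lit 0x80029938e) (nat_lit 1073741824),
  Rx.mk (nat_lit 406) (nat_lit 6) (nat_lit 2) (nat_lit 6) (nat_lit 7) (nat_lit 106) (nat_lit 124) r8_106 r8_124 (nat_lit 0) (nat_lit 0) (nat_lit 0) (nat_lit 0x80029938e) (nat_lit 1073741824),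
  Rx.mk (nat_lit 438) (nat_lit 6) (nat_lit 6) (nat_lit 6) (nat_lit 7) (nat_lit 105) (nat_lit 125) r8_105 r8_125 (nat_lit 0) (nat_lit 0) (nat_lit 0) (nat_lit 0x80029938e) (nat_lit 1073741824),
  Rx.mk (nat_lit 484) (nat_lit 4) (nat_lit 4) (nat_lit 7) (nat_lit 4) (nat_lit 108) (nat_lit 117) r8_108 r8_117 (nat_lit 570904) (nat_lit 600781) (nat_lit 0) (nat_lit 0x6f7ab234a) (nat_lit 1350424009),
  Rx.mk (nat_lit 487) (nat_lit 7) (nat_lit 4) (nat_lit 7) (nat_lit 5) (nat_lit 111) (nat_lit 119) r8_111 r8_119 (nat_lit 0) (nat_lit 5449534) (nat_lit 0) (nat_lit 0x7ff50b064) (nat_lit 1080061658),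
  Rx.mk (nat_lit 500) (nat_lit 4) (nat_lit 6) (nat_lit 7) (nat_lit 6) (nat_lit 109) (nat_lit 118) r8_109 r8_118 (nat_lit 5031568) (nat_lit 0) (nat_lit 0) (nat_lit 0x7ff22df90) (nat_lit 1079827992),
  Rx.mk (nat_lit 502) (nat_lit 6) (nat_lit 6) (nat_lit 7) (nat_lit 7) (nat_lit 110) (nat_lit 122) r8_110 r8_122 (nat_lit 0) (nat_lit 0) (nat_lit 0) (nat_lit 0x80029938e) (nat_lit 1073741824),
  Rx.mk (nat_lit 503) (nat_lit 7) (nat_lit 6) (nat_lit 7) (nat_lit 7) (nat_lit 112) (nat_lit 121) r8_112 r8_121 (nat_lit 0) (nat_lit 0) (nat_lit 0) (nat_lit 0x80029938e) (nat_lit 1073741824),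
  Rx.mk (nat_lit 511) (nat_lit 7) (nat_lit 7) (nat_lit 7) (nat_lit 7) (nat_lit 113) (nat_lit 120) r8_113 r8_120 (nat_lit 0) (nat_lit 0) (nat_lit 0) (nat_lit 0x80029938e) (nat_lit 1073741824)]
noncomputable def e27_28 : List Rx := [
  Rx.mk (nat_lit 24) (nat_lit 0) (nat_lit 3) (nat_lit 0) (nat_lit 2) (nat_lit 149) (nat_lit 112) r8_149 r10_112 (nat_lit 6554309) (nat_lit 0) (nat_lit 5127106) (nat_lit 0x6a304083e) (nat_lit 1449170039),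
  Rx.mk (nat_lit 27) (nat_lit 3) (nat_lit 3) (nat_lit 0) (nat_lit 3) (nat_lit 151) (nat_lit 114) r8_151 r10_114 (nat_lit 0) (nat_lit 0) (nat_lit 3003115) (nat_lit 0x801ee9084) (nat_lit 1074931639),
  Rx.mk (nat_lit 59) (nat_lit 3) (nat_lit 7) (nat_lit 0) (nat_lit 3) (nat_lit 150) (nat_lit 110) r8_150 r10_110 (nat_lit 0) (nat_lit 0) (nat_lit 5449534) (nat_lit 0x80029938e) (nat_lit 1079191358),
  Rx.mk (nat_lit 152) (nat_lit 0) (nat_lit 3) (nat_lit 2) (nat_lit 6) (nat_lit 152) (nat_lit 113) r8_152 r10_113 (nat_lit 5449534) (nat_lit 0) (nat_lit 0) (nat_lit 0x80029938e) (nat_lit 1079191358),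
  Rx.mk (nat_lit 154) (nat_lit 2) (nat_lit 3) (nat_lit 2) (nat_lit 7) (nat_lit 153) (nat_lit 116) r8_153 r10_116 (nat_lit 0) (nat_lit 0) (nat_lit 0) (nat_lit 0x80029938e) (nat_lit 1073741824),
  Rx.mk (nat_lit 155) (nat_lit 3) (nat_lit 3) (nat_lit 2) (nat_lit 7) (nat_lit 154) (nat_lit 115) r8_154 r10_115 (nat_lit 0) (nat_lit 0) (nat_lit 0) (nat_lit 0x80029938e) (nat_lit 1073741824),
  Rx.mk (nat_lit 251) (nat_lit 3) (nat_lit 7) (nat_lit 3) (nat_lit 7) (nat_lit 156) (nat_lit 111) r8_156 r10_111 (nat_lit 0) (nat_lit 0) (nat_lit 0) (nat_lit 0x80029938e) (nat_lit 1073741824),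
  Rx.mk (nat_lit 255) (nat_lit 7) (nat_lit 7) (nat_lit 3) (nat_lit 7) (nat_lit 155) (nat_lit 109) r8_155 r10_109 (nat_lit 0) (nat_lit 0) (nat_lit 0) (nat_lit 0x80029938e) (nat_lit 1073741824)]
noncomputable def e27_29 : List Rx := [
  Rx.mk (nat_lit 27) (nat_lit 3) (nat_lit 3) (nat_lit 0) (nat_lit 3) (nat_lit 208) (nat_lit 120) r8_208 r11_120 (nat_lit 0) (nat_lit 0) (nat_lit 4232301) (nat_lit 0x8010bf30a) (nat_lit 1077067325),
  Rx.mk (nat_lit 59) (nat_lit 3) (nat_lit 7) (nat_lit 0) (nat_lit 3) (nat_lit 207) (nat_lit 118) r8_207 r11_118 (nat_lit 0) (nat_lit 0) (nat_lit 5449534) (nat_lit 0x80029938e) (nat_lit 1079191358),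
  Rx.mk (nat_lit 63) (nat_lit 7) (nat_lit 7) (nat_lit 0) (nat_lit 3) (nat_lit 206) (nat_lit 115) r8_206 r11_115 (nat_lit 0) (nat_lit 0) (nat_lit 5612407) (nat_lit 0x7ff40af5c) (nat_lit 1080288431),
  Rx.mk (nat_lit 91) (nat_lit 3) (nat_lit 3) (nat_lit 1) (nat_lit 7) (nat_lit 211) (nat_lit 121) r8_211 r11_121 (nat_lit 0) (nat_lit 0) (nat_lit 0) (nat_lit 0x80029938e) (nat_lit 1073741824),
  Rx.mk (nat_lit 123) (nat_lit 3) (nat_lit 7) (nat_lit 1) (nat_lit 7) (nat_lit 210) (nat_lit 119) r8_210 r11_119 (nat_lit 0) (nat_lit 0) (nat_lit 0) (nat_lit 0x80029938e) (nat_lit 1073741824),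
  Rx.mk (nat_lit 127) (nat_lit 7) (nat_lit 7) (nat_lit 1) (nat_lit 7) (nat_lit 209) (nat_lit 116) r8_209 r11_116 (nat_lit 0) (nat_lit 0) (nat_lit 0) (nat_lit 0x80029938e) (nat_lit 1073741824),
  Rx.mk (nat_lit 155) (nat_lit 3) (nat_lit 3) (nat_lit 2) (nat_lit 7) (nat_lit 212) (nat_lit 122) r8_212 r11_122 (nat_lit 0) (nat_lit 0) (nat_lit 0) (nat_lit 0x80029938e) (nat_lit 1073741824),
  Rx.mk (nat_lit 255) (nat_lit 7) (nat_lit 7) (nat_lit 3) (nat_lit 7) (nat_lit 213) (nat_lit 117) r8_213 r11_117 (nat_lit 0) (nat_lit 0) (nat_lit 0) (nat_lit 0x80029938e) (nat_lit 1073741824)]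
noncomputable def e27_30 : List Rx := [
  Rx.mk (nat_lit 103) (nat_lit 7) (nat_lit 4) (nat_lit 1) (nat_lit 5) (nat_lit 349) (nat_lit 271) r8_349 r5_271 (nat_lit 0) (nat_lit 5449534) (nat_lit 0) (nat_lit 0x7ff3d72a6) (nat_lit 1080139558),
  Rx.mk (nat_lit 111) (nat_lit 7) (nat_lit 5) (nat_lit 1) (nat_lit 7) (nat_lit 350) (nat_lit 272) r8_350 r5_272 (nat_lit 0) (nat_lit 0) (nat_lit 0) (nat_lit 0x80029938e) (nat_lit 1073741824),
  Rx.mk (nat_lit 359) (nat_lit 7) (nat_lit 4) (nat_lit 5) (nat_lit 5) (nat_lit 347) (nat_lit 269) r8_347 r5_269 (nat_lit 0) (nat_lit 5449534) (nat_lit 0) (nat_lit 0x80029938e) (nat_lit 1079191358),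
  Rx.mk (nat_lit 367) (nat_lit 7) (nat_lit 5) (nat_lit 5) (nat_lit 7) (nat_lit 348) (nat_lit 270) r8_348 r5_270 (nat_lit 0) (nat_lit 0) (nat_lit 0) (nat_lit 0x80029938e) (nat_lit 1073741824)]
noncomputable def e27_31 : List Rx := [
  Rx.mk (nat_lit 359) (nat_lit 7) (nat_lit 4) (nat_lit 5) (nat_lit 5) (nat_lit 358) (nat_lit 335) r8_358 r11_335 (nat_lit 0) (nat_lit 5449534) (nat_lit 0) (nat_lit 0x80029938e) (nat_lit 1079191358),
  Rx.mk (nat_lit 367) (nat_lit 7) (nat_lit 5) (nat_lit 5) (nat_lit 7) (nat_lit 359) (nat_lit 336) r8_359 r11_336 (nat_lit 0) (nat_lit 0) (nat_lit 0) (nat_lit 0x80029938e) (nat_lit 1073741824),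
  Rx.mk (nat_lit 375) (nat_lit 7) (nat_lit 6) (nat_lit 5) (nat_lit 7) (nat_lit 360) (nat_lit 337) r8_360 r11_337 (nat_lit 0) (nat_lit 0) (nat_lit 0) (nat_lit 0x80029938e) (nat_lit 1073741824)]
noncomputable def e27_32 : List Rx := [
  Rx.mk (nat_lit 99) (nat_lit 3) (nat_lit 4) (nat_lit 1) (nat_lit 5) (nat_lit 71) (nat_lit 203) r8_71 r6_203 (nat_lit 0) (nat_lit 1883603) (nat_lit 0) (nat_lit 0x8036af1e6) (nat_lit 1072289527),
  Rx.mk (nat_lit 107) (nat_lit 3) (nat_lit 5) (nat_lit 1) (nat_lit 7) (nat_lit 72) (nat_lit 204) r8_72 r6_204 (nat_lit 0) (nat_lit 0) (nat_lit 0) (nat_lit 0x8037bf9e6) (nat_lit 1070345324),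
  Rx.mk (nat_lit 123) (nat_lit 3) (nat_lit 7) (nat_lit 1) (nat_lit 7) (nat_lit 73) (nat_lit 205) r8_73 r6_205 (nat_lit 0) (nat_lit 0) (nat_lit 0) (nat_lit 0x804b0c5b2) (nat_lit 1069117724)]
noncomputable def e27_33 : List Rx := [
  Rx.mk (nat_lit 59) (nat_lit 3) (nat_lit 7) (nat_lit 0) (nat_lit 3) (nat_lit 58) (nat_lit 115) r8_58 r5_115 (nat_lit 0) (nat_lit 0) (nat_lit 3122645) (nat_lit 0x801abea22) (nat_lit 1075316369),
  Rx.mk (nat_lit 123) (nat_lit 3) (nat_lit 7) (nat_lit 1) (nat_lit 7) (nat_lit 59) (nat_lit 116) r8_59 r5_116 (nat_lit 0) (nat_lit 0) (nat_lit 0) (nat_lit 0x8019963ca) (nat_lit 1072269624),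
  Rx.mk (nat_lit 251) (nat_lit 3) (nat_lit 7) (nat_lit 3) (nat_lit 7) (nat_lit 60) (nat_lit 117) r8_60 r5_117 (nat_lit 0) (nat_lit 0) (nat_lit 0) (nat_lit 0x80029938e) (nat_lit 1073741824)]
noncomputable def e27_34 : List Rx := [
  Rx.mk (nat_lit 59) (nat_lit 3) (nat_lit 7) (nat_lit 0) (nat_lit 3) (nat_lit 157) (nat_lit 113) r8_157 r11_113 (nat_lit 0) (nat_lit 0) (nat_lit 5449534) (nat_lit 0x80029938e) (nat_lit 1079191358),
  Rx.mk (nat_lit 251) (nat_lit 3) (nat_lit 7) (nat_lit 3) (nat_lit 7) (nat_lit 158) (nat_lit 114) r8_158 r11_114 (nat_lit 0) (nat_lit 0) (nat_lit 0) (nat_lit 0x80029938e) (nat_lit 1073741824)]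
noncomputable def e27_35 : List Rx := [
  Rx.mk (nat_lit 99) (nat_lit 3) (nat_lit 4) (nat_lit 1) (nat_lit 5) (nat_lit 216) (nat_lit 310) r8_216 r6_310 (nat_lit 0) (nat_lit 1646791) (nat_lit 0) (nat_lit 0x803c7d550) (nat_lit 1071692415),
  Rx.mk (nat_lit 103) (nat_lit 7) (nat_lit 4) (nat_lit 1) (nat_lit 5) (nat_lit 214) (nat_lit 311) r8_214 r6_311 (nat_lit 0) (nat_lit 5771941) (nat_lit 0) (nat_lit 0x7fecf9a7e) (nat_lit 1080903565),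
  Rx.mk (nat_lit 107) (nat_lit 3) (nat_lit 5) (nat_lit 1) (nat_lit 7) (nat_lit 217) (nat_lit 312) r8_217 r6_312 (nat_lit 0) (nat_lit 0) (nat_lit 0) (nat_lit 0x803843b1a) (nat_lit 1070312524),
  Rx.mk (nat_lit 111) (nat_lit 7) (nat_lit 5) (nat_lit 1) (nat_lit 7) (nat_lit 215) (nat_lit 313) r8_215 r6_313 (nat_lit 0) (nat_lit 0) (nat_lit 0) (nat_lit 0x80029938e) (nat_lit 1073741824)]
noncomputable def e27_36 : List Rx := [
  Rx.mk (nat_lit 99) (nat_lit 3) (nat_lit 4) (nat_lit 1) (nat_lit 5) (nat_lit 227) (nat_lit 208) r8_227 r12_208 (nat_lit 0) (nat_lit 1064185) (nat_lit 0) (nat_lit 0x8026828f4) (nat_lit 1072501409),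
  Rx.mk (nat_lit 103) (nat_lit 7) (nat_lit 4) (nat_lit 1) (nat_lit 5) (nat_lit 225) (nat_lit 211) r8_225 r12_211 (nat_lit 0) (nat_lit 6182575) (nat_lit 0) (nat_lit 0x7fd1de596) (nat_lit 1083062199),
  Rx.mk (nat_lit 107) (nat_lit 3) (nat_lit 5) (nat_lit 1) (nat_lit 7) (nat_lit 228) (nat_lit 209) r8_228 r12_209 (nat_lit 0) (nat_lit 0) (nat_lit 0) (nat_lit 0x809967572) (nat_lit 1064151724),
  Rx.mk (nat_lit 111) (nat_lit 7) (nat_lit 5) (nat_lit 1) (nat_lit 7) (nat_lit 226) (nat_lit 212) r8_226 r12_212 (nat_lit 0) (nat_lit 0) (nat_lit 0) (nat_lit 0x80029938e) (nat_lit 1073741824),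
  Rx.mk (nat_lit 123) (nat_lit 3) (nat_lit 7) (nat_lit 1) (nat_lit 7) (nat_lit 229) (nat_lit 210) r8_229 r12_210 (nat_lit 0) (nat_lit 0) (nat_lit 0) (nat_lit 0x80d3793a0) (nat_lit 1060477524)]
noncomputable def e27_37 : List Rx := [
  Rx.mk (nat_lit 72) (nat_lit 0) (nat_lit 1) (nat_lit 1) (nat_lit 6) (nat_lit 64) (nat_lit 186) r8_64 r0_186 (nat_lit 4721594) (nat_lit 0) (nat_lit 0) (nat_lit 0x7cb5a7826) (nat_lit 1133415918),
  Rx.mk (nat_lit 75) (nat_lit 3) (nat_lit 1) (nat_lit 1) (nat_lit 7) (nat_lit 65) (nat_lit 187) r8_65 r0_187 (nat_lit 0) (nat_lit 0) (nat_lit 0) (nat_lit 0x801bc7158) (nat_lit 1072128324),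
  Rx.mk (nat_lit 104) (nat_lit 0) (nat_lit 5) (nat_lit 1) (nat_lit 6) (nat_lit 63) (nat_lit 185) r8_63 r0_185 (nat_lit 3657848) (nat_lit 0) (nat_lit 0) (nat_lit 0x7a789dc8e) (nat_lit 1169663972)]
noncomputable def e27_38 : List Rx := [
  Rx.mk (nat_lit 104) (nat_lit 0) (nat_lit 5) (nat_lit 1) (nat_lit 6) (nat_lit 178) (nat_lit 289) r8_178 r0_289 (nat_lit 6119961) (nat_lit 0) (nat_lit 0) (nat_lit 0x72392b252) (nat_lit 1309645085),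
  Rx.mk (nat_lit 105) (nat_lit 1) (nat_lit 5) (nat_lit 1) (nat_lit 7) (nat_lit 179) (nat_lit 290) r8_179 r0_290 (nat_lit 0) (nat_lit 0) (nat_lit 0) (nat_lit 0x7ff99ecac) (nat_lit 1074318024)]
noncomputable def e27_39 : List Rx := [
  Rx.mk (nat_lit 72) (nat_lit 0) (nat_lit 1) (nat_lit 1) (nat_lit 6) (nat_lit 185) (nat_lit 242) r8_185 r7_242 (nat_lit 5322975) (nat_lit 0) (nat_lit 0) (nat_lit 0x7ffd77ce8) (nat_lit 1079393799),
  Rx.mk (nat_lit 73) (nat_lit 1) (nat_lit 1) (nat_lit 1) (nat_lit 7) (nat_lit 187) (nat_lit 244) r8_187 r7_244 (nat_lit 0) (nat_lit 0) (nat_lit 0) (nat_lit 0x80029938e) (nat_lit 1073741824),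
  Rx.mk (nat_lit 75) (nat_lit 3) (nat_lit 1) (nat_lit 1) (nat_lit 7) (nat_lit 188) (nat_lit 245) r8_188 r7_245 (nat_lit 0) (nat_lit 0) (nat_lit 0) (nat_lit 0x80029938e) (nat_lit 1073741824),
  Rx.mk (nat_lit 104) (nat_lit 0) (nat_lit 5) (nat_lit 1) (nat_lit 6) (nat_lit 184) (nat_lit 241) r8_184 r7_241 (nat_lit 5449534) (nat_lit 0) (nat_lit 0) (nat_lit 0x80029938e) (nat_lit 1079191358),
  Rx.mk (nat_lit 105) (nat_lit 1) (nat_lit 5) (nat_lit 1) (nat_lit 7) (nat_lit 186) (nat_lit 243) r8_186 r7_243 (nat_lit 0) (nat_lit 0) (nat_lit 0) (nat_lit 0x80029938e) (nat_lit 1073741824)]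
noncomputable def e27_40 : List Rx := [
  Rx.mk (nat_lit 105) (nat_lit 1) (nat_lit 5) (nat_lit 1) (nat_lit 7) (nat_lit 322) (nat_lit 312) r8_322 r2_312 (nat_lit 0) (nat_lit 0) (nat_lit 0) (nat_lit 0x80029938e) (nat_lit 1073741824),
  Rx.mk (nat_lit 109) (nat_lit 5) (nat_lit 5) (nat_lit 1) (nat_lit 7) (nat_lit 321) (nat_lit 313) r8_321 r2_313 (nat_lit 0) (nat_lit 0) (nat_lit 0) (nat_lit 0x80029938e) (nat_lit 1073741824),
  Rx.mk (nat_lit 365) (nat_lit 5) (nat_lit 5) (nat_lit 5) (nat_lit 7) (nat_lit 320) (nat_lit 314) r8_320 r2_314 (nat_lit 0) (nat_lit 0) (nat_lit 0) (nat_lit 0x80029938e) (nat_lit 1073741824)]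
noncomputable def e27_41 : List Rx := [
  Rx.mk (nat_lit 73) (nat_lit 1) (nat_lit 1) (nat_lit 1) (nat_lit 7) (nat_lit 330) (nat_lit 294) r8_330 r9_294 (nat_lit 0) (nat_lit 0) (nat_lit 0) (nat_lit 0x80029938e) (nat_lit 1073741824),
  Rx.mk (nat_lit 105) (nat_lit 1) (nat_lit 5) (nat_lit 1) (nat_lit 7) (nat_lit 329) (nat_lit 295) r8_329 r9_295 (nat_lit 0) (nat_lit 0) (nat_lit 0) (nat_lit 0x80029938e) (nat_lit 1073741824),
  Rx.mk (nat_lit 109) (nat_lit 5) (nat_lit 5) (nat_lit 1) (nat_lit 7) (nat_lit 328) (nat_lit 296) r8_328 r9_296 (nat_lit 0) (nat_lit 0) (nat_lit 0) (nat_lit 0x80029938e) (nat_lit 1073741824),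
  Rx.mk (nat_lit 365) (nat_lit 5) (nat_lit 5) (nat_lit 5) (nat_lit 7) (nat_lit 327) (nat_lit 297) r8_327 r9_297 (nat_lit 0) (nat_lit 0) (nat_lit 0) (nat_lit 0x80029938e) (nat_lit 1073741824)]
noncomputable def e27_42 : List Rx := [
  Rx.mk (nat_lit 365) (nat_lit 5) (nat_lit 5) (nat_lit 5) (nat_lit 7) (nat_lit 326) (nat_lit 289) r8_326 r9_289 (nat_lit 0) (nat_lit 0) (nat_lit 0) (nat_lit 0x80029938e) (nat_lit 1073741824)]
noncomputable def e27_43 : List Rx := [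
  Rx.mk (nat_lit 105) (nat_lit 1) (nat_lit 5) (nat_lit 1) (nat_lit 7) (nat_lit 180) (nat_lit 286) r8_180 r1_286 (nat_lit 0) (nat_lit 0) (nat_lit 0) (nat_lit 0x80029938e) (nat_lit 1073741824)]
noncomputable def e27_44 : List Rx := [
  Rx.mk (nat_lit 73) (nat_lit 1) (nat_lit 1) (nat_lit 1) (nat_lit 7) (nat_lit 190) (nat_lit 190) r8_190 r8_190 (nat_lit 0) (nat_lit 0) (nat_lit 0) (nat_lit 0x80029938e) (nat_lit 1073741824),
  Rx.mk (nat_lit 105) (nat_lit 1) (nat_lit 5) (nat_lit 1) (nat_lit 7) (nat_lit 189) (nat_lit 189) r8_189 r8_189 (nat_lit 0) (nat_lit 0) (nat_lit 0) (nat_lit 0x80029938e) (nat_lit 1073741824)]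
noncomputable def e27_45 : List Rx := [
  Rx.mk (nat_lit 72) (nat_lit 0) (nat_lit 1) (nat_lit 1) (nat_lit 6) (nat_lit 66) (nat_lit 199) r8_66 r1_199 (nat_lit 5449534) (nat_lit 0) (nat_lit 0) (nat_lit 0x7fdc2270a) (nat_lit 1081666058),
  Rx.mk (nat_lit 75) (nat_lit 3) (nat_lit 1) (nat_lit 1) (nat_lit 7) (nat_lit 67) (nat_lit 200) r8_67 r1_200 (nat_lit 0) (nat_lit 0) (nat_lit 0) (nat_lit 0x80029938e) (nat_lit 1073741824)]
noncomputable def e27_46 : List Rx := [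
  Rx.mk (nat_lit 0) (nat_lit 0) (nat_lit 0) (nat_lit 0) (nat_lit 0) (nat_lit 25) (nat_lit 203) r8_25 r2_203 (nat_lit 3308338) (nat_lit 1156022) (nat_lit 993709) (nat_lit 0x3dbd28666) (nat_lit 2184039993),
  Rx.mk (nat_lit 3) (nat_lit 3) (nat_lit 0) (nat_lit 0) (nat_lit 1) (nat_lit 27) (nat_lit 209) r8_27 r2_209 (nat_lit 0) (nat_lit 2433110) (nat_lit 1896956) (nat_lit 0x6c3167f62) (nat_lit 1408391590),
  Rx.mk (nat_lit 8) (nat_lit 0) (nat_lit 1) (nat_lit 0) (nat_lit 2) (nat_lit 26) (nat_lit 204) r8_26 r2_204 (nat_lit 9535202) (nat_lit 0) (nat_lit 7095241) (nat_lit 0x62dbf9de0) (nat_lit 1576319567),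
  Rx.mk (nat_lit 11) (nat_lit 3) (nat_lit 1) (nat_lit 0) (nat_lit 3) (nat_lit 28) (nat_lit 210) r8_28 r2_210 (nat_lit 0) (nat_lit 0) (nat_lit 5449534) (nat_lit 0x80029938e) (nat_lit 1079191358),
  Rx.mk (nat_lit 27) (nat_lit 3) (nat_lit 3) (nat_lit 0) (nat_lit 3) (nat_lit 29) (nat_lit 211) r8_29 r2_211 (nat_lit 0) (nat_lit 0) (nat_lit 5449534) (nat_lit 0x800025e9a) (nat_lit 1079348458),
  Rx.mk (nat_lit 64) (nat_lit 0) (nat_lit 0) (nat_lit 1) (nat_lit 4) (nat_lit 30) (nat_lit 205) r8_30 r2_205 (nat_lit 9407743) (nat_lit 14795548) (nat_lit 0) (nat_lit 0x6e1ef5760) (nat_lit 1396127315),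
  Rx.mk (nat_lit 67) (nat_lit 3) (nat_lit 0) (nat_lit 1) (nat_lit 5) (nat_lit 32) (nat_lit 212) r8_32 r2_212 (nat_lit 0) (nat_lit 5449534) (nat_lit 0) (nat_lit 0x80029938e) (nat_lit 1079191358),
  Rx.mk (nat_lit 72) (nat_lit 0) (nat_lit 1) (nat_lit 1) (nat_lit 6) (nat_lit 31) (nat_lit 206) r8_31 r2_206 (nat_lit 5449534) (nat_lit 0) (nat_lit 0) (nat_lit 0x80029938e) (nat_lit 1079191358),
  Rx.mk (nat_lit 75) (nat_lit 3) (nat_lit 1) (nat_lit 1) (nat_lit 7) (nat_lit 33) (nat_lit 213) r8_33 r2_213 (nat_lit 0) (nat_lit 0) (nat_lit 0) (nat_lit 0x80029938e) (nat_lit 1073741824),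
  Rx.mk (nat_lit 91) (nat_lit 3) (nat_lit 3) (nat_lit 1) (nat_lit 7) (nat_lit 34) (nat_lit 214) r8_34 r2_214 (nat_lit 0) (nat_lit 0) (nat_lit 0) (nat_lit 0x80029938e) (nat_lit 1073741824),
  Rx.mk (nat_lit 128) (nat_lit 0) (nat_lit 0) (nat_lit 2) (nat_lit 4) (nat_lit 35) (nat_lit 207) r8_35 r2_207 (nat_lit 3132479) (nat_lit 8977988) (nat_lit 0) (nat_lit 0x705befb3c) (nat_lit 1346715391),
  Rx.mk (nat_lit 130) (nat_lit 2) (nat_lit 0) (nat_lit 2) (nat_lit 5) (nat_lit 37) (nat_lit 218) r8_37 r2_218 (nat_lit 0) (nat_lit 5449534) (nat_lit 0) (nat_lit 0x80029938e) (nat_lit 1079191358),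
  Rx.mk (nat_lit 131) (nat_lit 3) (nat_lit 0) (nat_lit 2) (nat_lit 5) (nat_lit 40) (nat_lit 216) r8_40 r2_216 (nat_lit 0) (nat_lit 5449534) (nat_lit 0) (nat_lit 0x8001635b4) (nat_lit 1079268958),
  Rx.mk (nat_lit 136) (nat_lit 0) (nat_lit 1) (nat_lit 2) (nat_lit 6) (nat_lit 36) (nat_lit 208) r8_36 r2_208 (nat_lit 5449534) (nat_lit 0) (nat_lit 0) (nat_lit 0x80029938e) (nat_lit 1079191358),
  Rx.mk (nat_lit 138) (nat_lit 2) (nat_lit 1) (nat_lit 2) (nat_lit 7) (nat_lit 38) (nat_lit 219) r8_38 r2_219 (nat_lit 0) (nat_lit 0) (nat_lit 0) (nat_lit 0x80029938e) (nat_lit 1073741824),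
  Rx.mk (nat_lit 139) (nat_lit 3) (nat_lit 1) (nat_lit 2) (nat_lit 7) (nat_lit 41) (nat_lit 217) r8_41 r2_217 (nat_lit 0) (nat_lit 0) (nat_lit 0) (nat_lit 0x80029938e) (nat_lit 1073741824),
  Rx.mk (nat_lit 146) (nat_lit 2) (nat_lit 2) (nat_lit 2) (nat_lit 7) (nat_lit 39) (nat_lit 220) r8_39 r2_220 (nat_lit 0) (nat_lit 0) (nat_lit 0) (nat_lit 0x80029938e) (nat_lit 1073741824),
  Rx.mk (nat_lit 219) (nat_lit 3) (nat_lit 3) (nat_lit 3) (nat_lit 7) (nat_lit 42) (nat_lit 215) r8_42 r2_215 (nat_lit 0) (nat_lit 0) (nat_lit 0) (nat_lit 0x80029938e) (nat_lit 1073741824)]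
noncomputable def e27_47 : List Rx := [
  Rx.mk (nat_lit 72) (nat_lit 0) (nat_lit 1) (nat_lit 1) (nat_lit 6) (nat_lit 191) (nat_lit 323) r8_191 r8_323 (nat_lit 5449534) (nat_lit 0) (nat_lit 0) (nat_lit 0x80029938e) (nat_lit 1079191358),
  Rx.mk (nat_lit 73) (nat_lit 1) (nat_lit 1) (nat_lit 1) (nat_lit 7) (nat_lit 192) (nat_lit 324) r8_192 r8_324 (nat_lit 0) (nat_lit 0) (nat_lit 0) (nat_lit 0x80029938e) (nat_lit 1073741824),
  Rx.mk (nat_lit 75) (nat_lit 3) (nat_lit 1) (nat_lit 1) (nat_lit 7) (nat_lit 193) (nat_lit 325) r8_193 r8_325 (nat_lit 0) (nat_lit 0) (nat_lit 0) (nat_lit 0x80029938e) (nat_lit 1073741824)]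
noncomputable def e27_48 : List Rx := [
  Rx.mk (nat_lit 0) (nat_lit 0) (nat_lit 0) (nat_lit 0) (nat_lit 0) (nat_lit 159) (nat_lit 183) r8_159 r9_183 (nat_lit 4762811) (nat_lit 4825209) (nat_lit 4180839) (nat_lit 0x39d32f3e6) (nat_lit 2257620983),
  Rx.mk (nat_lit 3) (nat_lit 3) (nat_lit 0) (nat_lit 0) (nat_lit 1) (nat_lit 162) (nat_lit 192) r8_162 r9_192 (nat_lit 0) (nat_lit 7933342) (nat_lit 6953306) (nat_lit 0x6c913698e) (nat_lit 1412714672),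
  Rx.mk (nat_lit 8) (nat_lit 0) (nat_lit 1) (nat_lit 0) (nat_lit 2) (nat_lit 160) (nat_lit 184) r8_160 r9_184 (nat_lit 6452239) (nat_lit 0) (nat_lit 8082267) (nat_lit 0x67b4a3a2a) (nat_lit 1493420030),
  Rx.mk (nat_lit 9) (nat_lit 1) (nat_lit 1) (nat_lit 0) (nat_lit 3) (nat_lit 161) (nat_lit 189) r8_161 r9_189 (nat_lit 0) (nat_lit 0) (nat_lit 5449534) (nat_lit 0x80029938e) (nat_lit 1079191358),
  Rx.mk (nat_lit 11) (nat_lit 3) (nat_lit 1) (nat_lit 0) (nat_lit 3) (nat_lit 163) (nat_lit 193) r8_163 r9_193 (nat_lit 0) (nat_lit 0) (nat_lit 5449534) (nat_lit 0x80029938e) (nat_lit 1079191358),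
  Rx.mk (nat_lit 27) (nat_lit 3) (nat_lit 3) (nat_lit 0) (nat_lit 3) (nat_lit 164) (nat_lit 194) r8_164 r9_194 (nat_lit 0) (nat_lit 0) (nat_lit 5449534) (nat_lit 0x80029938e) (nat_lit 1079191358),
  Rx.mk (nat_lit 64) (nat_lit 0) (nat_lit 0) (nat_lit 1) (nat_lit 4) (nat_lit 165) (nat_lit 185) r8_165 r9_185 (nat_lit 6366403) (nat_lit 16033224) (nat_lit 0) (nat_lit 0x7150c9342) (nat_lit 1341058751),
  Rx.mk (nat_lit 67) (nat_lit 3) (nat_lit 0) (nat_lit 1) (nat_lit 5) (nat_lit 168) (nat_lit 195) r8_168 r9_195 (nat_lit 0) (nat_lit 5449534) (nat_lit 0) (nat_lit 0x80029938e) (nat_lit 1079191358),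
  Rx.mk (nat_lit 72) (nat_lit 0) (nat_lit 1) (nat_lit 1) (nat_lit 6) (nat_lit 166) (nat_lit 186) r8_166 r9_186 (nat_lit 5449534) (nat_lit 0) (nat_lit 0) (nat_lit 0x80029938e) (nat_lit 1079191358),
  Rx.mk (nat_lit 73) (nat_lit 1) (nat_lit 1) (nat_lit 1) (nat_lit 7) (nat_lit 167) (nat_lit 190) r8_167 r9_190 (nat_lit 0) (nat_lit 0) (nat_lit 0) (nat_lit 0x80029938e) (nat_lit 1073741824),
  Rx.mk (nat_lit 75) (nat_lit 3) (nat_lit 1) (nat_lit 1) (nat_lit 7) (nat_lit 169) (nat_lit 196) r8_169 r9_196 (nat_lit 0) (nat_lit 0) (nat_lit 0) (nat_lit 0x80029938e) (nat_lit 1073741824),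
  Rx.mk (nat_lit 91) (nat_lit 3) (nat_lit 3) (nat_lit 1) (nat_lit 7) (nat_lit 170) (nat_lit 197) r8_170 r9_197 (nat_lit 0) (nat_lit 0) (nat_lit 0) (nat_lit 0x80029938e) (nat_lit 1073741824),
  Rx.mk (nat_lit 128) (nat_lit 0) (nat_lit 0) (nat_lit 2) (nat_lit 4) (nat_lit 171) (nat_lit 187) r8_171 r9_187 (nat_lit 11901673) (nat_lit 16440661) (nat_lit 0) (nat_lit 0x75402140a) (nat_lit 1281397658),
  Rx.mk (nat_lit 130) (nat_lit 2) (nat_lit 0) (nat_lit 2) (nat_lit 5) (nat_lit 174) (nat_lit 199) r8_174 r9_199 (nat_lit 0) (nat_lit 5449534) (nat_lit 0) (nat_lit 0x80029938e) (nat_lit 1079191358),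
  Rx.mk (nat_lit 136) (nat_lit 0) (nat_lit 1) (nat_lit 2) (nat_lit 6) (nat_lit 172) (nat_lit 188) r8_172 r9_188 (nat_lit 5449534) (nat_lit 0) (nat_lit 0) (nat_lit 0x80029938e) (nat_lit 1079191358),
  Rx.mk (nat_lit 137) (nat_lit 1) (nat_lit 1) (nat_lit 2) (nat_lit 7) (nat_lit 173) (nat_lit 191) r8_173 r9_191 (nat_lit 0) (nat_lit 0) (nat_lit 0) (nat_lit 0x80029938e) (nat_lit 1073741824),
  Rx.mk (nat_lit 138) (nat_lit 2) (nat_lit 1) (nat_lit 2) (nat_lit 7) (nat_lit 175) (nat_lit 200) r8_175 r9_200 (nat_lit 0) (nat_lit 0) (nat_lit 0) (nat_lit 0x80029938e) (nat_lit 1073741824),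
  Rx.mk (nat_lit 146) (nat_lit 2) (nat_lit 2) (nat_lit 2) (nat_lit 7) (nat_lit 176) (nat_lit 201) r8_176 r9_201 (nat_lit 0) (nat_lit 0) (nat_lit 0) (nat_lit 0x80029938e) (nat_lit 1073741824),
  Rx.mk (nat_lit 219) (nat_lit 3) (nat_lit 3) (nat_lit 3) (nat_lit 7) (nat_lit 177) (nat_lit 198) r8_177 r9_198 (nat_lit 0) (nat_lit 0) (nat_lit 0) (nat_lit 0x80029938e) (nat_lit 1073741824)]
noncomputable def e27_49 : List Rx := [
  Rx.mk (nat_lit 0) (nat_lit 0) (nat_lit 0) (nat_lit 0) (nat_lit 0) (nat_lit 133) (nat_lit 86) r8_133 r9_86 (nat_lit 67809161) (nat_lit 5464222) (nat_lit 3458182) (nat_lit 0x3d69a35d6) (nat_lit 2260766689),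
  Rx.mk (nat_lit 3) (nat_lit 3) (nat_lit 0) (nat_lit 0) (nat_lit 1) (nat_lit 135) (nat_lit 88) r8_135 r9_88 (nat_lit 0) (nat_lit 6297923) (nat_lit 6919696) (nat_lit 0x6f394a1f0) (nat_lit 1366753143),
  Rx.mk (nat_lit 8) (nat_lit 0) (nat_lit 1) (nat_lit 0) (nat_lit 2) (nat_lit 134) (nat_lit 87) r8_134 r9_87 (nat_lit 38723310) (nat_lit 0) (nat_lit 9618943) (nat_lit 0x6bfe9de7e) (nat_lit 1455718977),
  Rx.mk (nat_lit 11) (nat_lit 3) (nat_lit 1) (nat_lit 0) (nat_lit 3) (nat_lit 136) (nat_lit 89) r8_136 r9_89 (nat_lit 0) (nat_lit 0) (nat_lit 5449534) (nat_lit 0x80029938e) (nat_lit 1079191358),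
  Rx.mk (nat_lit 27) (nat_lit 3) (nat_lit 3) (nat_lit 0) (nat_lit 3) (nat_lit 137) (nat_lit 90) r8_137 r9_90 (nat_lit 0) (nat_lit 0) (nat_lit 5449534) (nat_lit 0x80029938e) (nat_lit 1079191358),
  Rx.mk (nat_lit 128) (nat_lit 0) (nat_lit 0) (nat_lit 2) (nat_lit 4) (nat_lit 138) (nat_lit 92) r8_138 r9_92 (nat_lit 4176648) (nat_lit 7704862) (nat_lit 0) (nat_lit 0x6d546e2f8) (nat_lit 1396994434),
  Rx.mk (nat_lit 130) (nat_lit 2) (nat_lit 0) (nat_lit 2) (nat_lit 5) (nat_lit 140) (nat_lit 96) r8_140 r9_96 (nat_lit 0) (nat_lit 5449534) (nat_lit 0) (nat_lit 0x80029938e) (nat_lit 1079191358),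
  Rx.mk (nat_lit 131) (nat_lit 3) (nat_lit 0) (nat_lit 2) (nat_lit 5) (nat_lit 143) (nat_lit 94) r8_143 r9_94 (nat_lit 0) (nat_lit 5449534) (nat_lit 0) (nat_lit 0x80029938e) (nat_lit 1079191358),
  Rx.mk (nat_lit 136) (nat_lit 0) (nat_lit 1) (nat_lit 2) (nat_lit 6) (nat_lit 139) (nat_lit 93) r8_139 r9_93 (nat_lit 5449534) (nat_lit 0) (nat_lit 0) (nat_lit 0x80029938e) (nat_lit 1079191358),
  Rx.mk (nat_lit 138) (nat_lit 2) (nat_lit 1) (nat_lit 2) (nat_lit 7) (nat_lit 141) (nat_lit 97) r8_141 r9_97 (nat_lit 0) (nat_lit 0) (nat_lit 0) (nat_lit 0x80029938e) (nat_lit 1073741824),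
  Rx.mk (nat_lit 139) (nat_lit 3) (nat_lit 1) (nat_lit 2) (nat_lit 7) (nat_lit 144) (nat_lit 95) r8_144 r9_95 (nat_lit 0) (nat_lit 0) (nat_lit 0) (nat_lit 0x80029938e) (nat_lit 1073741824),
  Rx.mk (nat_lit 146) (nat_lit 2) (nat_lit 2) (nat_lit 2) (nat_lit 7) (nat_lit 142) (nat_lit 98) r8_142 r9_98 (nat_lit 0) (nat_lit 0) (nat_lit 0) (nat_lit 0x80029938e) (nat_lit 1073741824),
  Rx.mk (nat_lit 219) (nat_lit 3) (nat_lit 3) (nat_lit 3) (nat_lit 7) (nat_lit 145) (nat_lit 91) r8_145 r9_91 (nat_lit 0) (nat_lit 0) (nat_lit 0) (nat_lit 0x80029938e) (nat_lit 1073741824)]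
noncomputable def e27_50 : List Rx := [
  Rx.mk (nat_lit 104) (nat_lit 0) (nat_lit 5) (nat_lit 1) (nat_lit 6) (nat_lit 61) (nat_lit 171) r8_61 r3_171 (nat_lit 1085431) (nat_lit 0) (nat_lit 0) (nat_lit 0x787261944) (nat_lit 1200822755),
  Rx.mk (nat_lit 107) (nat_lit 3) (nat_lit 5) (nat_lit 1) (nat_lit 7) (nat_lit 62) (nat_lit 172) r8_62 r3_172 (nat_lit 0) (nat_lit 0) (nat_lit 0) (nat_lit 0x954b78356) (nat_lit 729459824)]
noncomputable def e27_51 : List Rx := [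
  Rx.mk (nat_lit 75) (nat_lit 3) (nat_lit 1) (nat_lit 1) (nat_lit 7) (nat_lit 70) (nat_lit 176) r8_70 r4_176 (nat_lit 0) (nat_lit 0) (nat_lit 0) (nat_lit 0x80029938e) (nat_lit 1073741824),
  Rx.mk (nat_lit 104) (nat_lit 0) (nat_lit 5) (nat_lit 1) (nat_lit 6) (nat_lit 68) (nat_lit 174) r8_68 r4_174 (nat_lit 4037317) (nat_lit 0) (nat_lit 0) (nat_lit 0x80012bc36) (nat_lit 1077868841),
  Rx.mk (nat_lit 107) (nat_lit 3) (nat_lit 5) (nat_lit 1) (nat_lit 7) (nat_lit 69) (nat_lit 175) r8_69 r4_175 (nat_lit 0) (nat_lit 0) (nat_lit 0) (nat_lit 0x80293ab46) (nat_lit 1071270624)]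
noncomputable def e27_52 : List Rx := [
  Rx.mk (nat_lit 104) (nat_lit 0) (nat_lit 5) (nat_lit 1) (nat_lit 6) (nat_lit 74) (nat_lit 189) r8_74 r5_189 (nat_lit 4548292) (nat_lit 0) (nat_lit 0) (nat_lit 0x801151fac) (nat_lit 1077347316),
  Rx.mk (nat_lit 107) (nat_lit 3) (nat_lit 5) (nat_lit 1) (nat_lit 7) (nat_lit 75) (nat_lit 190) r8_75 r5_190 (nat_lit 0) (nat_lit 0) (nat_lit 0) (nat_lit 0x802981c80) (nat_lit 1071252824)]
noncomputable def e27_53 : List Rx := [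
  Rx.mk (nat_lit 104) (nat_lit 0) (nat_lit 5) (nat_lit 1) (nat_lit 6) (nat_lit 181) (nat_lit 304) r8_181 r4_304 (nat_lit 5449534) (nat_lit 0) (nat_lit 0) (nat_lit 0x80029938e) (nat_lit 1079191358),
  Rx.mk (nat_lit 105) (nat_lit 1) (nat_lit 5) (nat_lit 1) (nat_lit 7) (nat_lit 182) (nat_lit 305) r8_182 r4_305 (nat_lit 0) (nat_lit 0) (nat_lit 0) (nat_lit 0x80029938e) (nat_lit 1073741824),
  Rx.mk (nat_lit 107) (nat_lit 3) (nat_lit 5) (nat_lit 1) (nat_lit 7) (nat_lit 183) (nat_lit 306) r8_183 r4_306 (nat_lit 0) (nat_lit 0) (nat_lit 0) (nat_lit 0x80029938e) (nat_lit 1073741824)]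
noncomputable def e27_54 : List Rx := [
  Rx.mk (nat_lit 75) (nat_lit 3) (nat_lit 1) (nat_lit 1) (nat_lit 7) (nat_lit 197) (nat_lit 194) r8_197 r10_194 (nat_lit 0) (nat_lit 0) (nat_lit 0) (nat_lit 0x80029938e) (nat_lit 1073741824),
  Rx.mk (nat_lit 104) (nat_lit 0) (nat_lit 5) (nat_lit 1) (nat_lit 6) (nat_lit 194) (nat_lit 191) r8_194 r10_191 (nat_lit 5449534) (nat_lit 0) (nat_lit 0) (nat_lit 0x80029938e) (nat_lit 1079191358),
  Rx.mk (nat_lit 105) (nat_lit 1) (nat_lit 5) (nat_lit 1) (nat_lit 7) (nat_lit 195) (nat_lit 192) r8_195 r10_192 (nat_lit 0) (nat_lit 0) (nat_lit 0) (nat_lit 0x80029938e) (nat_lit 1073741824),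
  Rx.mk (nat_lit 107) (nat_lit 3) (nat_lit 5) (nat_lit 1) (nat_lit 7) (nat_lit 196) (nat_lit 193) r8_196 r10_193 (nat_lit 0) (nat_lit 0) (nat_lit 0) (nat_lit 0x80029938e) (nat_lit 1073741824)]
noncomputable def e27_55 : List Rx := [
  Rx.mk (nat_lit 104) (nat_lit 0) (nat_lit 5) (nat_lit 1) (nat_lit 6) (nat_lit 198) (nat_lit 219) r8_198 r11_219 (nat_lit 5449534) (nat_lit 0) (nat_lit 0) (nat_lit 0x80029938e) (nat_lit 1079191358),
  Rx.mk (nat_lit 105) (nat_lit 1) (nat_lit 5) (nat_lit 1) (nat_lit 7) (nat_lit 199) (nat_lit 220) r8_199 r11_220 (nat_lit 0) (nat_lit 0) (nat_lit 0) (nat_lit 0x80029938e) (nat_lit 1073741824),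
  Rx.mk (nat_lit 107) (nat_lit 3) (nat_lit 5) (nat_lit 1) (nat_lit 7) (nat_lit 200) (nat_lit 221) r8_200 r11_221 (nat_lit 0) (nat_lit 0) (nat_lit 0) (nat_lit 0x80029938e) (nat_lit 1073741824)]
noncomputable def e27_56 : List Rx := [
  Rx.mk (nat_lit 107) (nat_lit 3) (nat_lit 5) (nat_lit 1) (nat_lit 7) (nat_lit 218) (nat_lit 285) r8_218 r5_285 (nat_lit 0) (nat_lit 0) (nat_lit 0) (nat_lit 0x806366360) (nat_lit 1067572524)]
noncomputable def e27_57 : List Rx := [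
  Rx.mk (nat_lit 75) (nat_lit 3) (nat_lit 1) (nat_lit 1) (nat_lit 7) (nat_lit 220) (nat_lit 343) r8_220 r11_343 (nat_lit 0) (nat_lit 0) (nat_lit 0) (nat_lit 0x80029938e) (nat_lit 1073741824),
  Rx.mk (nat_lit 107) (nat_lit 3) (nat_lit 5) (nat_lit 1) (nat_lit 7) (nat_lit 219) (nat_lit 344) r8_219 r11_344 (nat_lit 0) (nat_lit 0) (nat_lit 0) (nat_lit 0x80029938e) (nat_lit 1073741824)]
noncomputable def e27 : List (List Rx) := [e27_0, e27_1, e27_2, e27_3, e27_4, e27_5, e27_6, e27_7, e27_8, e27_9, e27_10, e27_11, e27_12, e27_13, e27_14, e27_15, e27_16, e27_17, e27_18, e27_19, e27_20, e27_21, e27_22, e27_23, e27_24, e27_25, e27_26, e27_27, e27_28, e27_29, e27_30, e27_31, e27_32, e27_33, e27_34, e27_35, e27_36, e27_37, e27_38, e27_39, e27_40, e27_41, e27_42, e27_43, e27_44, e27_45, e27_46, e27_47, e27_48, e27_49, e27_50, e27_51, e27_52, e27_53, e27_54, e27_55, e27_56,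 e27_57]
noncomputable def e28_0 : List Rx := [
  Rx.mk (nat_lit 100) (nat_lit 4) (nat_lit 4) (nat_lit 1) (nat_lit 4) (nat_lit 44) (nat_lit 195) r10_44 r0_195 (nat_lit 577871) (nat_lit 206251) (nat_lit 0) (nat_lit 0x5b26d5dda) (nat_lit 1688936846),
  Rx.mk (nat_lit 108) (nat_lit 4) (nat_lit 5) (nat_lit 1) (nat_lit 6) (nat_lit 45) (nat_lit 196) r10_45 r0_196 (nat_lit 2475431) (nat_lit 0) (nat_lit 0) (nat_lit 0x70fe46778) (nat_lit 1326502855),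
  Rx.mk (nat_lit 116) (nat_lit 4) (nat_lit 6) (nat_lit 1) (nat_lit 6) (nat_lit 46) (nat_lit 197) r10_46 r0_197 (nat_lit 336738388) (nat_lit 0) (nat_lit 0) (nat_lit 0x7f9d350f6) (nat_lit 1417053112),
  Rx.mk (nat_lit 372) (nat_lit 4) (nat_lit 6) (nat_lit 5) (nat_lit 6) (nat_lit 47) (nat_lit 198) r10_47 r0_198 (nat_lit 172576021) (nat_lit 0) (nat_lit 0) (nat_lit 0x80845ae72) (nat_lit 1238006145),
  Rx.mk (nat_lit 375) (nat_lit 7) (nat_lit 6) (nat_lit 5) (nat_lit 7) (nat_lit 48) (nat_lit 199) r10_48 r0_199 (nat_lit 0) (nat_lit 0) (nat_lit 0) (nat_lit 0x803360350) (nat_lit 1070623924)]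
noncomputable def e28_1 : List Rx := [
  Rx.mk (nat_lit 372) (nat_lit 4) (nat_lit 6) (nat_lit 5) (nat_lit 6) (nat_lit 49) (nat_lit 217) r10_49 r1_217 (nat_lit 19618759) (nat_lit 0) (nat_lit 0) (nat_lit 0x8216578f6) (nat_lit 1059686783),
  Rx.mk (nat_lit 374) (nat_lit 6) (nat_lit 6) (nat_lit 5) (nat_lit 7) (nat_lit 50) (nat_lit 219) r10_50 r1_219 (nat_lit 0) (nat_lit 0) (nat_lit 0) (nat_lit 0x808e6d8b0) (nat_lit 1064845524),
  Rx.mk (nat_lit 375) (nat_lit 7) (nat_lit 6) (nat_lit 5) (nat_lit 7) (nat_lit 51) (nat_lit 218) r10_51 r1_218 (nat_lit 0) (nat_lit 0) (nat_lit 0) (nat_lit 0x80029938e) (nat_lit 1073741824)]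
noncomputable def e28_2 : List Rx := [
  Rx.mk (nat_lit 308) (nat_lit 4) (nat_lit 6) (nat_lit 4) (nat_lit 2) (nat_lit 10) (nat_lit 230) r10_10 r2_230 (nat_lit 4401173) (nat_lit 0) (nat_lit 2760723) (nat_lit 0x6c070f076) (nat_lit 1413974020),
  Rx.mk (nat_lit 310) (nat_lit 6) (nat_lit 6) (nat_lit 4) (nat_lit 3) (nat_lit 12) (nat_lit 235) r10_12 r2_235 (nat_lit 0) (nat_lit 0) (nat_lit 5449534) (nat_lit 0x80029938e) (nat_lit 1079191358),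
  Rx.mk (nat_lit 311) (nat_lit 7) (nat_lit 6) (nat_lit 4) (nat_lit 3) (nat_lit 14) (nat_lit 232) r10_14 r2_232 (nat_lit 0) (nat_lit 0) (nat_lit 5449534) (nat_lit 0x80029938e) (nat_lit 1079191358),
  Rx.mk (nat_lit 372) (nat_lit 4) (nat_lit 6) (nat_lit 5) (nat_lit 6) (nat_lit 11) (nat_lit 231) r10_11 r2_231 (nat_lit 5449534) (nat_lit 0) (nat_lit 0) (nat_lit 0x80029938e) (nat_lit 1079191358),
  Rx.mk (nat_lit 374) (nat_lit 6) (nat_lit 6) (nat_lit 5) (nat_lit 7) (nat_lit 13) (nat_lit 236) r10_13 r2_236 (nat_lit 0) (nat_lit 0) (nat_lit 0) (nat_lit 0x80029938e) (nat_lit 1073741824),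
  Rx.mk (nat_lit 375) (nat_lit 7) (nat_lit 6) (nat_lit 5) (nat_lit 7) (nat_lit 15) (nat_lit 233) r10_15 r2_233 (nat_lit 0) (nat_lit 0) (nat_lit 0) (nat_lit 0x80029938e) (nat_lit 1073741824),
  Rx.mk (nat_lit 503) (nat_lit 7) (nat_lit 6) (nat_lit 7) (nat_lit 7) (nat_lit 16) (nat_lit 234) r10_16 r2_234 (nat_lit 0) (nat_lit 0) (nat_lit 0) (nat_lit 0x80029938e) (nat_lit 1073741824)]
noncomputable def e28_3 : List Rx := [
  Rx.mk (nat_lit 100) (nat_lit 4) (nat_lit 4) (nat_lit 1) (nat_lit 4) (nat_lit 38) (nat_lit 180) r10_38 r3_180 (nat_lit 15756) (nat_lit 22262) (nat_lit 0) (nat_lit 0x62ad48e7e) (nat_lit 1562688942),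
  Rx.mk (nat_lit 103) (nat_lit 7) (nat_lit 4) (nat_lit 1) (nat_lit 5) (nat_lit 39) (nat_lit 183) r10_39 r3_183 (nat_lit 0) (nat_lit 96051) (nat_lit 0) (nat_lit 0x88974f8cc) (nat_lit 934938275),
  Rx.mk (nat_lit 108) (nat_lit 4) (nat_lit 5) (nat_lit 1) (nat_lit 6) (nat_lit 40) (nat_lit 181) r10_40 r3_181 (nat_lit 14524810) (nat_lit 0) (nat_lit 0) (nat_lit 0x7f58f3384) (nat_lit 1099247534),
  Rx.mk (nat_lit 111) (nat_lit 7) (nat_lit 5) (nat_lit 1) (nat_lit 7) (nat_lit 41) (nat_lit 184) r10_41 r3_184 (nat_lit 0) (nat_lit 0) (nat_lit 0) (nat_lit 0x9b76b2354) (nat_lit 629711124),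
  Rx.mk (nat_lit 116) (nat_lit 4) (nat_lit 6) (nat_lit 1) (nat_lit 6) (nat_lit 42) (nat_lit 182) r10_42 r3_182 (nat_lit 8861734) (nat_lit 0) (nat_lit 0) (nat_lit 0x7fb3a6038) (nat_lit 1087701158),
  Rx.mk (nat_lit 119) (nat_lit 7) (nat_lit 6) (nat_lit 1) (nat_lit 7) (nat_lit 43) (nat_lit 185) r10_43 r3_185 (nat_lit 0) (nat_lit 0) (nat_lit 0) (nat_lit 0x9b76b3d44) (nat_lit 629710724)]
noncomputable def e28_4 : List Rx := [
  Rx.mk (nat_lit 100) (nat_lit 4) (nat_lit 4) (nat_lit 1) (nat_lit 4) (nat_lit 52) (nat_lit 181) r10_52 r4_181 (nat_lit 5552411) (nat_lit 2071508) (nat_lit 0) (nat_lit 0x6601e5042) (nat_lit 1514816043),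
  Rx.mk (nat_lit 103) (nat_lit 7) (nat_lit 4) (nat_lit 1) (nat_lit 5) (nat_lit 53) (nat_lit 184) r10_53 r4_184 (nat_lit 0) (nat_lit 1895394) (nat_lit 0) (nat_lit 0x80303ef3c) (nat_lit 1072711218),
  Rx.mk (nat_lit 108) (nat_lit 4) (nat_lit 5) (nat_lit 1) (nat_lit 6) (nat_lit 54) (nat_lit 182) r10_54 r4_182 (nat_lit 4412645) (nat_lit 0) (nat_lit 0) (nat_lit 0x802289f68) (nat_lit 1076111669),
  Rx.mk (nat_lit 111) (nat_lit 7) (nat_lit 5) (nat_lit 1) (nat_lit 7) (nat_lit 55) (nat_lit 185) r10_55 r4_185 (nat_lit 0) (nat_lit 0) (nat_lit 0) (nat_lit 0x805b35a60) (nat_lit 1068092224),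
  Rx.mk (nat_lit 116) (nat_lit 4) (nat_lit 6) (nat_lit 1) (nat_lit 6) (nat_lit 56) (nat_lit 183) r10_56 r4_183 (nat_lit 5474881) (nat_lit 0) (nat_lit 0) (nat_lit 0x7fdff8ef6) (nat_lit 1081440905),
  Rx.mk (nat_lit 119) (nat_lit 7) (nat_lit 6) (nat_lit 1) (nat_lit 7) (nat_lit 57) (nat_lit 186) r10_57 r4_186 (nat_lit 0) (nat_lit 0) (nat_lit 0) (nat_lit 0x805b35a60) (nat_lit 1068092224),
  Rx.mk (nat_lit 375) (nat_lit 7) (nat_lit 6) (nat_lit 5) (nat_lit 7) (nat_lit 58) (nat_lit 187) r10_58 r4_187 (nat_lit 0) (nat_lit 0) (nat_lit 0) (nat_lit 0x8018b37f0) (nat_lit 1072325924)]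
noncomputable def e28_5 : List Rx := [
  Rx.mk (nat_lit 100) (nat_lit 4) (nat_lit 4) (nat_lit 1) (nat_lit 4) (nat_lit 72) (nat_lit 197) r10_72 r5_197 (nat_lit 5696356) (nat_lit 1601519) (nat_lit 0) (nat_lit 0x726966d0e) (nat_lit 1307672399),
  Rx.mk (nat_lit 103) (nat_lit 7) (nat_lit 4) (nat_lit 1) (nat_lit 5) (nat_lit 73) (nat_lit 199) r10_73 r5_199 (nat_lit 0) (nat_lit 1673969) (nat_lit 0) (nat_lit 0x80ad5689e) (nat_lit 1064560193),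
  Rx.mk (nat_lit 116) (nat_lit 4) (nat_lit 6) (nat_lit 1) (nat_lit 6) (nat_lit 74) (nat_lit 198) r10_74 r5_198 (nat_lit 5449534) (nat_lit 0) (nat_lit 0) (nat_lit 0x8011b0cbe) (nat_lit 1078224358),
  Rx.mk (nat_lit 119) (nat_lit 7) (nat_lit 6) (nat_lit 1) (nat_lit 7) (nat_lit 75) (nat_lit 201) r10_75 r5_201 (nat_lit 0) (nat_lit 0) (nat_lit 0) (nat_lit 0x803e42840) (nat_lit 1069931224),
  Rx.mk (nat_lit 127) (nat_lit 7) (nat_lit 7) (nat_lit 1) (nat_lit 7) (nat_lit 76) (nat_lit 200) r10_76 r5_200 (nat_lit 0) (nat_lit 0) (nat_lit 0) (nat_lit 0x80029938e) (nat_lit 1073741824)]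
noncomputable def e28_6 : List Rx := [
  Rx.mk (nat_lit 59) (nat_lit 3) (nat_lit 7) (nat_lit 0) (nat_lit 3) (nat_lit 19) (nat_lit 135) r10_19 r3_135 (nat_lit 0) (nat_lit 0) (nat_lit 52776) (nat_lit 0x8c731e1b6) (nat_lit 872490800),
  Rx.mk (nat_lit 187) (nat_lit 3) (nat_lit 7) (nat_lit 2) (nat_lit 7) (nat_lit 20) (nat_lit 137) r10_20 r3_137 (nat_lit 0) (nat_lit 0) (nat_lit 0) (nat_lit 0x9a8c6a3aa) (nat_lit 644510724),
  Rx.mk (nat_lit 231) (nat_lit 7) (nat_lit 4) (nat_lit 3) (nat_lit 5) (nat_lit 17) (nat_lit 133) r10_17 r3_133 (nat_lit 0) (nat_lit 52776) (nat_lit 0) (nat_lit 0x8c731e1b6) (nat_lit 872490800),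
  Rx.mk (nat_lit 247) (nat_lit 7) (nat_lit 6) (nat_lit 3) (nat_lit 7) (nat_lit 18) (nat_lit 138) r10_18 r3_138 (nat_lit 0) (nat_lit 0) (nat_lit 0) (nat_lit 0x9a8c6a3aa) (nat_lit 644510724),
  Rx.mk (nat_lit 251) (nat_lit 3) (nat_lit 7) (nat_lit 3) (nat_lit 7) (nat_lit 21) (nat_lit 136) r10_21 r3_136 (nat_lit 0) (nat_lit 0) (nat_lit 0) (nat_lit 0x804ec5d34) (nat_lit 1068889624),
  Rx.mk (nat_lit 255) (nat_lit 7) (nat_lit 7) (nat_lit 3) (nat_lit 7) (nat_lit 22) (nat_lit 134) r10_22 r3_134 (nat_lit 0) (nat_lit 0) (nat_lit 0) (nat_lit 0x804ec5d34) (nat_lit 1068889624)]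
noncomputable def e28_7 : List Rx := [
  Rx.mk (nat_lit 308) (nat_lit 4) (nat_lit 6) (nat_lit 4) (nat_lit 2) (nat_lit 0) (nat_lit 147) r10_0 r0_147 (nat_lit 530643) (nat_lit 0) (nat_lit 163852) (nat_lit 0x5f682fdf4) (nat_lit 1617894919),
  Rx.mk (nat_lit 310) (nat_lit 6) (nat_lit 6) (nat_lit 4) (nat_lit 3) (nat_lit 2) (nat_lit 150) r10_2 r0_150 (nat_lit 0) (nat_lit 0) (nat_lit 4695397) (nat_lit 0x71f87d494) (nat_lit 1312433921),
  Rx.mk (nat_lit 500) (nat_lit 4) (nat_lit 6) (nat_lit 7) (nat_lit 6) (nat_lit 1) (nat_lit 148) r10_1 r0_148 (nat_lit 10021103) (nat_lit 0) (nat_lit 0) (nat_lit 0x7fa58a3fa) (nat_lit 1089765427),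
  Rx.mk (nat_lit 502) (nat_lit 6) (nat_lit 6) (nat_lit 7) (nat_lit 7) (nat_lit 3) (nat_lit 151) r10_3 r0_151 (nat_lit 0) (nat_lit 0) (nat_lit 0) (nat_lit 0x7ff9f480a) (nat_lit 1074296824),
  Rx.mk (nat_lit 503) (nat_lit 7) (nat_lit 6) (nat_lit 7) (nat_lit 7) (nat_lit 4) (nat_lit 149) r10_4 r0_149 (nat_lit 0) (nat_lit 0) (nat_lit 0) (nat_lit 0x7ff4c343a) (nat_lit 1074628924)]
noncomputable def e28_8 : List Rx := [
  Rx.mk (nat_lit 308) (nat_lit 4) (nat_lit 6) (nat_lit 4) (nat_lit 2) (nat_lit 5) (nat_lit 161) r10_5 r1_161 (nat_lit 981437) (nat_lit 0) (nat_lit 480768) (nat_lit 0x62be5aa28) (nat_lit 1563059529),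
  Rx.mk (nat_lit 310) (nat_lit 6) (nat_lit 6) (nat_lit 4) (nat_lit 3) (nat_lit 7) (nat_lit 164) r10_7 r1_164 (nat_lit 0) (nat_lit 0) (nat_lit 4988372) (nat_lit 0x78610a830) (nat_lit 1205879396),
  Rx.mk (nat_lit 500) (nat_lit 4) (nat_lit 6) (nat_lit 7) (nat_lit 6) (nat_lit 6) (nat_lit 162) r10_6 r1_162 (nat_lit 7835339) (nat_lit 0) (nat_lit 0) (nat_lit 0x7ff5d0d8c) (nat_lit 1082394163),
  Rx.mk (nat_lit 502) (nat_lit 6) (nat_lit 6) (nat_lit 7) (nat_lit 7) (nat_lit 8) (nat_lit 165) r10_8 r1_165 (nat_lit 0) (nat_lit 0) (nat_lit 0) (nat_lit 0x80029938e) (nat_lit 1073741824),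
  Rx.mk (nat_lit 503) (nat_lit 7) (nat_lit 6) (nat_lit 7) (nat_lit 7) (nat_lit 9) (nat_lit 163) r10_9 r1_163 (nat_lit 0) (nat_lit 0) (nat_lit 0) (nat_lit 0x801053272) (nat_lit 1072862224)]
noncomputable def e28_9 : List Rx := [
  Rx.mk (nat_lit 59) (nat_lit 3) (nat_lit 7) (nat_lit 0) (nat_lit 3) (nat_lit 28) (nat_lit 136) r10_28 r4_136 (nat_lit 0) (nat_lit 0) (nat_lit 2482237) (nat_lit 0x8026b83be) (nat_lit 1073911461),
  Rx.mk (nat_lit 187) (nat_lit 3) (nat_lit 7) (nat_lit 2) (nat_lit 7) (nat_lit 29) (nat_lit 138) r10_29 r4_138 (nat_lit 0) (nat_lit 0) (nat_lit 0) (nat_lit 0x801ffbf1c) (nat_lit 1071860624),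
  Rx.mk (nat_lit 231) (nat_lit 7) (nat_lit 4) (nat_lit 3) (nat_lit 5) (nat_lit 23) (nat_lit 134) r10_23 r4_134 (nat_lit 0) (nat_lit 3516231) (nat_lit 0) (nat_lit 0x801199ce4) (nat_lit 1076295255),
  Rx.mk (nat_lit 247) (nat_lit 7) (nat_lit 6) (nat_lit 3) (nat_lit 7) (nat_lit 26) (nat_lit 141) r10_26 r4_141 (nat_lit 0) (nat_lit 0) (nat_lit 0) (nat_lit 0x801c7f974) (nat_lit 1072083424),
  Rx.mk (nat_lit 251) (nat_lit 3) (nat_lit 7) (nat_lit 3) (nat_lit 7) (nat_lit 30) (nat_lit 137) r10_30 r4_137 (nat_lit 0) (nat_lit 0) (nat_lit 0) (nat_lit 0x80029938e) (nat_lit 1073741824),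
  Rx.mk (nat_lit 255) (nat_lit 7) (nat_lit 7) (nat_lit 3) (nat_lit 7) (nat_lit 31) (nat_lit 135) r10_31 r4_135 (nat_lit 0) (nat_lit 0) (nat_lit 0) (nat_lit 0x80029938e) (nat_lit 1073741824),
  Rx.mk (nat_lit 500) (nat_lit 4) (nat_lit 6) (nat_lit 7) (nat_lit 6) (nat_lit 24) (nat_lit 139) r10_24 r4_139 (nat_lit 6990673) (nat_lit 0) (nat_lit 0) (nat_lit 0x7fb294226) (nat_lit 1085891197),
  Rx.mk (nat_lit 502) (nat_lit 6) (nat_lit 6) (nat_lit 7) (nat_lit 7) (nat_lit 25) (nat_lit 142) r10_25 r4_142 (nat_lit 0) (nat_lit 0) (nat_lit 0) (nat_lit 0x80029938e) (nat_lit 1073741824),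
  Rx.mk (nat_lit 503) (nat_lit 7) (nat_lit 6) (nat_lit 7) (nat_lit 7) (nat_lit 27) (nat_lit 140) r10_27 r4_140 (nat_lit 0) (nat_lit 0) (nat_lit 0) (nat_lit 0x805fe15fa) (nat_lit 1067795824)]
noncomputable def e28_10 : List Rx := [
  Rx.mk (nat_lit 39) (nat_lit 7) (nat_lit 4) (nat_lit 0) (nat_lit 1) (nat_lit 59) (nat_lit 213) r10_59 r6_213 (nat_lit 0) (nat_lit 315034) (nat_lit 325610) (nat_lit 0x6c8871394) (nat_lit 1399003668),
  Rx.mk (nat_lit 47) (nat_lit 7) (nat_lit 5) (nat_lit 0) (nat_lit 3) (nat_lit 62) (nat_lit 216) r10_62 r6_216 (nat_lit 0) (nat_lit 0) (nat_lit 2104035) (nat_lit 0x8089df83e) (nat_lit 1067238059),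
  Rx.mk (nat_lit 55) (nat_lit 7) (nat_lit 6) (nat_lit 0) (nat_lit 3) (nat_lit 64) (nat_lit 220) r10_64 r6_220 (nat_lit 0) (nat_lit 0) (nat_lit 2104035) (nat_lit 0x8089df83e) (nat_lit 1067238059),
  Rx.mk (nat_lit 59) (nat_lit 3) (nat_lit 7) (nat_lit 0) (nat_lit 3) (nat_lit 67) (nat_lit 210) r10_67 r6_210 (nat_lit 0) (nat_lit 0) (nat_lit 1425998) (nat_lit 0x8011ef310) (nat_lit 1074173622),
  Rx.mk (nat_lit 63) (nat_lit 7) (nat_lit 7) (nat_lit 0) (nat_lit 3) (nat_lit 70) (nat_lit 218) r10_70 r6_218 (nat_lit 0) (nat_lit 0) (nat_lit 5449534) (nat_lit 0x7febd1840) (nat_lit 1080657058),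
  Rx.mk (nat_lit 103) (nat_lit 7) (nat_lit 4) (nat_lit 1) (nat_lit 5) (nat_lit 60) (nat_lit 214) r10_60 r6_214 (nat_lit 0) (nat_lit 2919586) (nat_lit 0) (nat_lit 0x8040ec42e) (nat_lit 1072682510),
  Rx.mk (nat_lit 119) (nat_lit 7) (nat_lit 6) (nat_lit 1) (nat_lit 7) (nat_lit 65) (nat_lit 221) r10_65 r6_221 (nat_lit 0) (nat_lit 0) (nat_lit 0) (nat_lit 0x80192ccea) (nat_lit 1072297024),
  Rx.mk (nat_lit 123) (nat_lit 3) (nat_lit 7) (nat_lit 1) (nat_lit 7) (nat_lit 68) (nat_lit 211) r10_68 r6_211 (nat_lit 0) (nat_lit 0) (nat_lit 0) (nat_lit 0x8099ba880) (nat_lit 1064130224),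
  Rx.mk (nat_lit 127) (nat_lit 7) (nat_lit 7) (nat_lit 1) (nat_lit 7) (nat_lit 71) (nat_lit 219) r10_71 r6_219 (nat_lit 0) (nat_lit 0) (nat_lit 0) (nat_lit 0x80029938e) (nat_lit 1073741824),
  Rx.mk (nat_lit 187) (nat_lit 3) (nat_lit 7) (nat_lit 2) (nat_lit 7) (nat_lit 69) (nat_lit 212) r10_69 r6_212 (nat_lit 0) (nat_lit 0) (nat_lit 0) (nat_lit 0x8099ba880) (nat_lit 1064130224),
  Rx.mk (nat_lit 231) (nat_lit 7) (nat_lit 4) (nat_lit 3) (nat_lit 5) (nat_lit 61) (nat_lit 215) r10_61 r6_215 (nat_lit 0) (nat_lit 1567710) (nat_lit 0) (nat_lit 0x8053e18e0) (nat_lit 1070118234),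
  Rx.mk (nat_lit 239) (nat_lit 7) (nat_lit 5) (nat_lit 3) (nat_lit 7) (nat_lit 63) (nat_lit 217) r10_63 r6_217 (nat_lit 0) (nat_lit 0) (nat_lit 0) (nat_lit 0x809b6df60) (nat_lit 1064022524),
  Rx.mk (nat_lit 247) (nat_lit 7) (nat_lit 6) (nat_lit 3) (nat_lit 7) (nat_lit 66) (nat_lit 222) r10_66 r6_222 (nat_lit 0) (nat_lit 0) (nat_lit 0) (nat_lit 0x809b6df60) (nat_lit 1064022524)]
noncomputable def e28_11 : List Rx := [
  Rx.mk (nat_lit 59) (nat_lit 3) (nat_lit 7) (nat_lit 0) (nat_lit 3) (nat_lit 34) (nat_lit 137) r10_34 r5_137 (nat_lit 0) (nat_lit 0) (nat_lit 1409940) (nat_lit 0x8011f0f3a) (nat_lit 1074160464),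
  Rx.mk (nat_lit 63) (nat_lit 7) (nat_lit 7) (nat_lit 0) (nat_lit 3) (nat_lit 36) (nat_lit 135) r10_36 r5_135 (nat_lit 0) (nat_lit 0) (nat_lit 4741774) (nat_lit 0x78dac94e6) (nat_lit 1197703898),
  Rx.mk (nat_lit 187) (nat_lit 3) (nat_lit 7) (nat_lit 2) (nat_lit 7) (nat_lit 35) (nat_lit 138) r10_35 r5_138 (nat_lit 0) (nat_lit 0) (nat_lit 0) (nat_lit 0x80af22bc8) (nat_lit 1062775524),
  Rx.mk (nat_lit 231) (nat_lit 7) (nat_lit 4) (nat_lit 3) (nat_lit 5) (nat_lit 32) (nat_lit 134) r10_32 r5_134 (nat_lit 0) (nat_lit 1919901) (nat_lit 0) (nat_lit 0x80c317552) (nat_lit 1063433825),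
  Rx.mk (nat_lit 247) (nat_lit 7) (nat_lit 6) (nat_lit 3) (nat_lit 7) (nat_lit 33) (nat_lit 139) r10_33 r5_139 (nat_lit 0) (nat_lit 0) (nat_lit 0) (nat_lit 0x80348d4f8) (nat_lit 1070549224),
  Rx.mk (nat_lit 255) (nat_lit 7) (nat_lit 7) (nat_lit 3) (nat_lit 7) (nat_lit 37) (nat_lit 136) r10_37 r5_136 (nat_lit 0) (nat_lit 0) (nat_lit 0) (nat_lit 0x7ff5fb7f8) (nat_lit 1074552324)]
noncomputable def e28_12 : List Rx := [
  Rx.mk (nat_lit 100) (nat_lit 4) (nat_lit 4) (nat_lit 1) (nat_lit 4) (nat_lit 166) (nat_lit 322) r10_166 r0_322 (nat_lit 2141139) (nat_lit 31804169) (nat_lit 0) (nat_lit 0x67d4791ec) (nat_lit 1510741932),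
  Rx.mk (nat_lit 101) (nat_lit 5) (nat_lit 4) (nat_lit 1) (nat_lit 5) (nat_lit 167) (nat_lit 323) r10_167 r0_323 (nat_lit 0) (nat_lit 6626663) (nat_lit 0) (nat_lit 0x7fd2b1cde) (nat_lit 1083457587),
  Rx.mk (nat_lit 108) (nat_lit 4) (nat_lit 5) (nat_lit 1) (nat_lit 6) (nat_lit 168) (nat_lit 324) r10_168 r0_324 (nat_lit 6250628) (nat_lit 0) (nat_lit 0) (nat_lit 0x7fcba2f38) (nat_lit 1083536252),
  Rx.mk (nat_lit 109) (nat_lit 5) (nat_lit 5) (nat_lit 1) (nat_lit 7) (nat_lit 169) (nat_lit 325) r10_169 r0_325 (nat_lit 0) (nat_lit 0) (nat_lit 0) (nat_lit 0x80131f6b8) (nat_lit 1072683424),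
  Rx.mk (nat_lit 116) (nat_lit 4) (nat_lit 6) (nat_lit 1) (nat_lit 6) (nat_lit 170) (nat_lit 326) r10_170 r0_326 (nat_lit 5230327) (nat_lit 0) (nat_lit 0) (nat_lit 0x7f655899e) (nat_lit 1089155351),
  Rx.mk (nat_lit 117) (nat_lit 5) (nat_lit 6) (nat_lit 1) (nat_lit 7) (nat_lit 171) (nat_lit 327) r10_171 r0_327 (nat_lit 0) (nat_lit 0) (nat_lit 0) (nat_lit 0x80029938e) (nat_lit 1073741824)]
noncomputable def e28_13 : List Rx := [
  Rx.mk (nat_lit 100) (nat_lit 4) (nat_lit 4) (nat_lit 1) (nat_lit 4) (nat_lit 183) (nat_lit 255) r10_183 r7_255 (nat_lit 3562106) (nat_lit 2862197) (nat_lit 0) (nat_lit 0x6f8080cd6) (nat_lit 1355313627),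
  Rx.mk (nat_lit 101) (nat_lit 5) (nat_lit 4) (nat_lit 1) (nat_lit 5) (nat_lit 184) (nat_lit 259) r10_184 r7_259 (nat_lit 0) (nat_lit 5449534) (nat_lit 0) (nat_lit 0x80029938e) (nat_lit 1079191358),
  Rx.mk (nat_lit 108) (nat_lit 4) (nat_lit 5) (nat_lit 1) (nat_lit 6) (nat_lit 185) (nat_lit 256) r10_185 r7_256 (nat_lit 5449534) (nat_lit 0) (nat_lit 0) (nat_lit 0x80029938e) (nat_lit 1079191358),
  Rx.mk (nat_lit 109) (nat_lit 5) (nat_lit 5) (nat_lit 1) (nat_lit 7) (nat_lit 186) (nat_lit 260) r10_186 r7_260 (nat_lit 0) (nat_lit 0) (nat_lit 0) (nat_lit 0x80029938e) (nat_lit 1073741824),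
  Rx.mk (nat_lit 116) (nat_lit 4) (nat_lit 6) (nat_lit 1) (nat_lit 6) (nat_lit 187) (nat_lit 257) r10_187 r7_257 (nat_lit 5449534) (nat_lit 0) (nat_lit 0) (nat_lit 0x80029938e) (nat_lit 1079191358),
  Rx.mk (nat_lit 117) (nat_lit 5) (nat_lit 6) (nat_lit 1) (nat_lit 7) (nat_lit 189) (nat_lit 261) r10_189 r7_261 (nat_lit 0) (nat_lit 0) (nat_lit 0) (nat_lit 0x80029938e) (nat_lit 1073741824),
  Rx.mk (nat_lit 372) (nat_lit 4) (nat_lit 6) (nat_lit 5) (nat_lit 6) (nat_lit 188) (nat_lit 258) r10_188 r7_258 (nat_lit 5449534) (nat_lit 0) (nat_lit 0) (nat_lit 0x80029938e) (nat_lit 1079191358),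
  Rx.mk (nat_lit 373) (nat_lit 5) (nat_lit 6) (nat_lit 5) (nat_lit 7) (nat_lit 190) (nat_lit 262) r10_190 r7_262 (nat_lit 0) (nat_lit 0) (nat_lit 0) (nat_lit 0x80029938e) (nat_lit 1073741824)]
noncomputable def e28_14 : List Rx := [
  Rx.mk (nat_lit 101) (nat_lit 5) (nat_lit 4) (nat_lit 1) (nat_lit 5) (nat_lit 172) (nat_lit 307) r10_172 r1_307 (nat_lit 0) (nat_lit 5449534) (nat_lit 0) (nat_lit 0x7f87d2d1c) (nat_lit 1087130658),
  Rx.mk (nat_lit 109) (nat_lit 5) (nat_lit 5) (nat_lit 1) (nat_lit 7) (nat_lit 173) (nat_lit 308) r10_173 r1_308 (nat_lit 0) (nat_lit 0) (nat_lit 0) (nat_lit 0x80029938e) (nat_lit 1073741824),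
  Rx.mk (nat_lit 117) (nat_lit 5) (nat_lit 6) (nat_lit 1) (nat_lit 7) (nat_lit 174) (nat_lit 309) r10_174 r1_309 (nat_lit 0) (nat_lit 0) (nat_lit 0) (nat_lit 0x80029938e) (nat_lit 1073741824)]
noncomputable def e28_15 : List Rx := [
  Rx.mk (nat_lit 101) (nat_lit 5) (nat_lit 4) (nat_lit 1) (nat_lit 5) (nat_lit 191) (nat_lit 194) r10_191 r8_194 (nat_lit 0) (nat_lit 5449534) (nat_lit 0) (nat_lit 0x80029938e) (nat_lit 1079191358),
  Rx.mk (nat_lit 109) (nat_lit 5) (nat_lit 5) (nat_lit 1) (nat_lit 7) (nat_lit 192) (nat_lit 195) r10_192 r8_195 (nat_lit 0) (nat_lit 0) (nat_lit 0) (nat_lit 0x80029938e) (nat_lit 1073741824),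
  Rx.mk (nat_lit 117) (nat_lit 5) (nat_lit 6) (nat_lit 1) (nat_lit 7) (nat_lit 193) (nat_lit 196) r10_193 r8_196 (nat_lit 0) (nat_lit 0) (nat_lit 0) (nat_lit 0x80029938e) (nat_lit 1073741824),
  Rx.mk (nat_lit 373) (nat_lit 5) (nat_lit 6) (nat_lit 5) (nat_lit 7) (nat_lit 194) (nat_lit 197) r10_194 r8_197 (nat_lit 0) (nat_lit 0) (nat_lit 0) (nat_lit 0x80029938e) (nat_lit 1073741824)]
noncomputable def e28_16 : List Rx := [
  Rx.mk (nat_lit 372) (nat_lit 4) (nat_lit 6) (nat_lit 5) (nat_lit 6) (nat_lit 195) (nat_lit 355) r10_195 r8_355 (nat_lit 5449534) (nat_lit 0) (nat_lit 0) (nat_lit 0x80029938e) (nat_lit 1079191358),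
  Rx.mk (nat_lit 373) (nat_lit 5) (nat_lit 6) (nat_lit 5) (nat_lit 7) (nat_lit 196) (nat_lit 356) r10_196 r8_356 (nat_lit 0) (nat_lit 0) (nat_lit 0) (nat_lit 0x80029938e) (nat_lit 1073741824),
  Rx.mk (nat_lit 374) (nat_lit 6) (nat_lit 6) (nat_lit 5) (nat_lit 7) (nat_lit 197) (nat_lit 357) r10_197 r8_357 (nat_lit 0) (nat_lit 0) (nat_lit 0) (nat_lit 0x80029938e) (nat_lit 1073741824)]
noncomputable def e28_17 : List Rx := [
  Rx.mk (nat_lit 308) (nat_lit 4) (nat_lit 6) (nat_lit 4) (nat_lit 2) (nat_lit 161) (nat_lit 209) r10_161 r9_209 (nat_lit 9287694) (nat_lit 0) (nat_lit 8521077) (nat_lit 0x702db6ffe) (nat_lit 1355425695),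
  Rx.mk (nat_lit 310) (nat_lit 6) (nat_lit 6) (nat_lit 4) (nat_lit 3) (nat_lit 164) (nat_lit 212) r10_164 r9_212 (nat_lit 0) (nat_lit 0) (nat_lit 5449534) (nat_lit 0x7fff35b2a) (nat_lit 1079408658),
  Rx.mk (nat_lit 372) (nat_lit 4) (nat_lit 6) (nat_lit 5) (nat_lit 6) (nat_lit 162) (nat_lit 210) r10_162 r9_210 (nat_lit 5449534) (nat_lit 0) (nat_lit 0) (nat_lit 0x80029938e) (nat_lit 1079191358),
  Rx.mk (nat_lit 373) (nat_lit 5) (nat_lit 6) (nat_lit 5) (nat_lit 7) (nat_lit 163) (nat_lit 211) r10_163 r9_211 (nat_lit 0) (nat_lit 0) (nat_lit 0) (nat_lit 0x80029938e) (nat_lit 1073741824),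
  Rx.mk (nat_lit 374) (nat_lit 6) (nat_lit 6) (nat_lit 5) (nat_lit 7) (nat_lit 165) (nat_lit 213) r10_165 r9_213 (nat_lit 0) (nat_lit 0) (nat_lit 0) (nat_lit 0x80029938e) (nat_lit 1073741824)]
noncomputable def e28_18 : List Rx := [
  Rx.mk (nat_lit 100) (nat_lit 4) (nat_lit 4) (nat_lit 1) (nat_lit 4) (nat_lit 175) (nat_lit 355) r10_175 r4_355 (nat_lit 6309114) (nat_lit 8253129) (nat_lit 0) (nat_lit 0x750b231e0) (nat_lit 1271062467),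
  Rx.mk (nat_lit 101) (nat_lit 5) (nat_lit 4) (nat_lit 1) (nat_lit 5) (nat_lit 176) (nat_lit 356) r10_176 r4_356 (nat_lit 0) (nat_lit 5449534) (nat_lit 0) (nat_lit 0x800d8cc28) (nat_lit 1078489458),
  Rx.mk (nat_lit 103) (nat_lit 7) (nat_lit 4) (nat_lit 1) (nat_lit 5) (nat_lit 177) (nat_lit 357) r10_177 r4_357 (nat_lit 0) (nat_lit 4709985) (nat_lit 0) (nat_lit 0x8005c37ee) (nat_lit 1078247509),
  Rx.mk (nat_lit 108) (nat_lit 4) (nat_lit 5) (nat_lit 1) (nat_lit 6) (nat_lit 178) (nat_lit 358) r10_178 r4_358 (nat_lit 3972091) (nat_lit 0) (nat_lit 0) (nat_lit 0x8021df644) (nat_lit 1075712715),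
  Rx.mk (nat_lit 109) (nat_lit 5) (nat_lit 5) (nat_lit 1) (nat_lit 7) (nat_lit 179) (nat_lit 359) r10_179 r4_359 (nat_lit 0) (nat_lit 0) (nat_lit 0) (nat_lit 0x80029938e) (nat_lit 1073741824),
  Rx.mk (nat_lit 111) (nat_lit 7) (nat_lit 5) (nat_lit 1) (nat_lit 7) (nat_lit 180) (nat_lit 360) r10_180 r4_360 (nat_lit 0) (nat_lit 0) (nat_lit 0) (nat_lit 0x80029938e) (nat_lit 1073741824),
  Rx.mk (nat_lit 116) (nat_lit 4) (nat_lit 6) (nat_lit 1) (nat_lit 6) (nat_lit 181) (nat_lit 361) r10_181 r4_361 (nat_lit 6376611) (nat_lit 0) (nat_lit 0) (nat_lit 0x8010e4d9e) (nat_lit 1079201535),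
  Rx.mk (nat_lit 117) (nat_lit 5) (nat_lit 6) (nat_lit 1) (nat_lit 7) (nat_lit 182) (nat_lit 362) r10_182 r4_362 (nat_lit 0) (nat_lit 0) (nat_lit 0) (nat_lit 0x80029938e) (nat_lit 1073741824)]
noncomputable def e28_19 : List Rx := [
  Rx.mk (nat_lit 100) (nat_lit 4) (nat_lit 4) (nat_lit 1) (nat_lit 4) (nat_lit 198) (nat_lit 198) r10_198 r10_198 (nat_lit 896959) (nat_lit 896959) (nat_lit 0) (nat_lit 0x73f86edfc) (nat_lit 1276180142),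
  Rx.mk (nat_lit 101) (nat_lit 5) (nat_lit 4) (nat_lit 1) (nat_lit 5) (nat_lit 199) (nat_lit 201) r10_199 r10_201 (nat_lit 0) (nat_lit 5449534) (nat_lit 0) (nat_lit 0x80029938e) (nat_lit 1079191358),
  Rx.mk (nat_lit 103) (nat_lit 7) (nat_lit 4) (nat_lit 1) (nat_lit 5) (nat_lit 200) (nat_lit 204) r10_200 r10_204 (nat_lit 0) (nat_lit 5449534) (nat_lit 0) (nat_lit 0x80029938e) (nat_lit 1079191358),
  Rx.mk (nat_lit 108) (nat_lit 4) (nat_lit 5) (nat_lit 1) (nat_lit 6) (nat_lit 201) (nat_lit 199) r10_201 r10_199 (nat_lit 5449534) (nat_lit 0) (nat_lit 0) (nat_lit 0x80029938e) (nat_lit 1079191358),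
  Rx.mk (nat_lit 109) (nat_lit 5) (nat_lit 5) (nat_lit 1) (nat_lit 7) (nat_lit 202) (nat_lit 202) r10_202 r10_202 (nat_lit 0) (nat_lit 0) (nat_lit 0) (nat_lit 0x80029938e) (nat_lit 1073741824),
  Rx.mk (nat_lit 111) (nat_lit 7) (nat_lit 5) (nat_lit 1) (nat_lit 7) (nat_lit 203) (nat_lit 205) r10_203 r10_205 (nat_lit 0) (nat_lit 0) (nat_lit 0) (nat_lit 0x80029938e) (nat_lit 1073741824),
  Rx.mk (nat_lit 116) (nat_lit 4) (nat_lit 6) (nat_lit 1) (nat_lit 6) (nat_lit 204) (nat_lit 200) r10_204 r10_200 (nat_lit 5449534) (nat_lit 0) (nat_lit 0) (nat_lit 0x80029938e) (nat_lit 1079191358),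
  Rx.mk (nat_lit 117) (nat_lit 5) (nat_lit 6) (nat_lit 1) (nat_lit 7) (nat_lit 205) (nat_lit 203) r10_205 r10_203 (nat_lit 0) (nat_lit 0) (nat_lit 0) (nat_lit 0x80029938e) (nat_lit 1073741824)]
noncomputable def e28_20 : List Rx := [
  Rx.mk (nat_lit 100) (nat_lit 4) (nat_lit 4) (nat_lit 1) (nat_lit 4) (nat_lit 206) (nat_lit 230) r10_206 r11_230 (nat_lit 47198871) (nat_lit 11437609) (nat_lit 0) (nat_lit 0x7dbac8fc0) (nat_lit 1170319804),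
  Rx.mk (nat_lit 101) (nat_lit 5) (nat_lit 4) (nat_lit 1) (nat_lit 5) (nat_lit 207) (nat_lit 232) r10_207 r11_232 (nat_lit 0) (nat_lit 5449534) (nat_lit 0) (nat_lit 0x80029938e) (nat_lit 1079191358),
  Rx.mk (nat_lit 103) (nat_lit 7) (nat_lit 4) (nat_lit 1) (nat_lit 5) (nat_lit 208) (nat_lit 234) r10_208 r11_234 (nat_lit 0) (nat_lit 5449534) (nat_lit 0) (nat_lit 0x80029938e) (nat_lit 1079191358),
  Rx.mk (nat_lit 116) (nat_lit 4) (nat_lit 6) (nat_lit 1) (nat_lit 6) (nat_lit 209) (nat_lit 231) r10_209 r11_231 (nat_lit 5449534) (nat_lit 0) (nat_lit 0) (nat_lit 0x800b95050) (nat_lit 1078615158),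
  Rx.mk (nat_lit 117) (nat_lit 5) (nat_lit 6) (nat_lit 1) (nat_lit 7) (nat_lit 210) (nat_lit 233) r10_210 r11_233 (nat_lit 0) (nat_lit 0) (nat_lit 0) (nat_lit 0x80029938e) (nat_lit 1073741824),
  Rx.mk (nat_lit 127) (nat_lit 7) (nat_lit 7) (nat_lit 1) (nat_lit 7) (nat_lit 211) (nat_lit 235) r10_211 r11_235 (nat_lit 0) (nat_lit 0) (nat_lit 0) (nat_lit 0x80029938e) (nat_lit 1073741824)]
noncomputable def e28_21 : List Rx := [
  Rx.mk (nat_lit 278) (nat_lit 6) (nat_lit 2) (nat_lit 4) (nat_lit 3) (nat_lit 117) (nat_lit 143) r10_117 r9_143 (nat_lit 0) (nat_lit 0) (nat_lit 5449534) (nat_lit 0x80029938e) (nat_lit 1079191358),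
  Rx.mk (nat_lit 308) (nat_lit 4) (nat_lit 6) (nat_lit 4) (nat_lit 2) (nat_lit 120) (nat_lit 136) r10_120 r9_136 (nat_lit 10854105) (nat_lit 0) (nat_lit 8967556) (nat_lit 0x6c3b432d4) (nat_lit 1423247285),
  Rx.mk (nat_lit 310) (nat_lit 6) (nat_lit 6) (nat_lit 4) (nat_lit 3) (nat_lit 122) (nat_lit 141) r10_122 r9_141 (nat_lit 0) (nat_lit 0) (nat_lit 5449534) (nat_lit 0x7ffe55638) (nat_lit 1079464858),
  Rx.mk (nat_lit 311) (nat_lit 7) (nat_lit 6) (nat_lit 4) (nat_lit 3) (nat_lit 124) (nat_lit 138) r10_124 r9_138 (nat_lit 0) (nat_lit 0) (nat_lit 5449534) (nat_lit 0x80029938e) (nat_lit 1079191358),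
  Rx.mk (nat_lit 342) (nat_lit 6) (nat_lit 2) (nat_lit 5) (nat_lit 7) (nat_lit 118) (nat_lit 144) r10_118 r9_144 (nat_lit 0) (nat_lit 0) (nat_lit 0) (nat_lit 0x80029938e) (nat_lit 1073741824),
  Rx.mk (nat_lit 372) (nat_lit 4) (nat_lit 6) (nat_lit 5) (nat_lit 6) (nat_lit 121) (nat_lit 137) r10_121 r9_137 (nat_lit 5449534) (nat_lit 0) (nat_lit 0) (nat_lit 0x80029938e) (nat_lit 1079191358),
  Rx.mk (nat_lit 374) (nat_lit 6) (nat_lit 6) (nat_lit 5) (nat_lit 7) (nat_lit 123) (nat_lit 142) r10_123 r9_142 (nat_lit 0) (nat_lit 0) (nat_lit 0) (nat_lit 0x80029938e) (nat_lit 1073741824),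
  Rx.mk (nat_lit 375) (nat_lit 7) (nat_lit 6) (nat_lit 5) (nat_lit 7) (nat_lit 125) (nat_lit 139) r10_125 r9_139 (nat_lit 0) (nat_lit 0) (nat_lit 0) (nat_lit 0x80029938e) (nat_lit 1073741824),
  Rx.mk (nat_lit 406) (nat_lit 6) (nat_lit 2) (nat_lit 6) (nat_lit 7) (nat_lit 119) (nat_lit 145) r10_119 r9_145 (nat_lit 0) (nat_lit 0) (nat_lit 0) (nat_lit 0x80029938e) (nat_lit 1073741824),
  Rx.mk (nat_lit 503) (nat_lit 7) (nat_lit 6) (nat_lit 7) (nat_lit 7) (nat_lit 126) (nat_lit 140) r10_126 r9_140 (nat_lit 0) (nat_lit 0) (nat_lit 0) (nat_lit 0x80029938e) (nat_lit 1073741824)]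
noncomputable def e28_22 : List Rx := [
  Rx.mk (nat_lit 128) (nat_lit 0) (nat_lit 0) (nat_lit 2) (nat_lit 4) (nat_lit 77) (nat_lit 147) r10_77 r0_147 (nat_lit 530643) (nat_lit 163852) (nat_lit 0) (nat_lit 0x5f682fdf4) (nat_lit 1617894919),
  Rx.mk (nat_lit 130) (nat_lit 2) (nat_lit 0) (nat_lit 2) (nat_lit 5) (nat_lit 78) (nat_lit 150) r10_78 r0_150 (nat_lit 0) (nat_lit 4695397) (nat_lit 0) (nat_lit 0x71f87d494) (nat_lit 1312433921),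
  Rx.mk (nat_lit 152) (nat_lit 0) (nat_lit 3) (nat_lit 2) (nat_lit 6) (nat_lit 79) (nat_lit 148) r10_79 r0_148 (nat_lit 10021103) (nat_lit 0) (nat_lit 0) (nat_lit 0x7fa58a3fa) (nat_lit 1089765427),
  Rx.mk (nat_lit 154) (nat_lit 2) (nat_lit 3) (nat_lit 2) (nat_lit 7) (nat_lit 80) (nat_lit 151) r10_80 r0_151 (nat_lit 0) (nat_lit 0) (nat_lit 0) (nat_lit 0x7ff9f480a) (nat_lit 1074296824),
  Rx.mk (nat_lit 155) (nat_lit 3) (nat_lit 3) (nat_lit 2) (nat_lit 7) (nat_lit 81) (nat_lit 149) r10_81 r0_149 (nat_lit 0) (nat_lit 0) (nat_lit 0) (nat_lit 0x7ff4c343a) (nat_lit 1074628924)]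
noncomputable def e28_23 : List Rx := [
  Rx.mk (nat_lit 128) (nat_lit 0) (nat_lit 0) (nat_lit 2) (nat_lit 4) (nat_lit 96) (nat_lit 161) r10_96 r1_161 (nat_lit 981437) (nat_lit 480768) (nat_lit 0) (nat_lit 0x62be5aa28) (nat_lit 1563059529),
  Rx.mk (nat_lit 130) (nat_lit 2) (nat_lit 0) (nat_lit 2) (nat_lit 5) (nat_lit 97) (nat_lit 164) r10_97 r1_164 (nat_lit 0) (nat_lit 4988372) (nat_lit 0) (nat_lit 0x78610a830) (nat_lit 1205879396),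
  Rx.mk (nat_lit 152) (nat_lit 0) (nat_lit 3) (nat_lit 2) (nat_lit 6) (nat_lit 98) (nat_lit 162) r10_98 r1_162 (nat_lit 7835339) (nat_lit 0) (nat_lit 0) (nat_lit 0x7ff5d0d8c) (nat_lit 1082394163),
  Rx.mk (nat_lit 154) (nat_lit 2) (nat_lit 3) (nat_lit 2) (nat_lit 7) (nat_lit 99) (nat_lit 165) r10_99 r1_165 (nat_lit 0) (nat_lit 0) (nat_lit 0) (nat_lit 0x80029938e) (nat_lit 1073741824),
  Rx.mk (nat_lit 155) (nat_lit 3) (nat_lit 3) (nat_lit 2) (nat_lit 7) (nat_lit 100) (nat_lit 163) r10_100 r1_163 (nat_lit 0) (nat_lit 0) (nat_lit 0) (nat_lit 0x801053272) (nat_lit 1072862224)]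
noncomputable def e28_24 : List Rx := [
  Rx.mk (nat_lit 59) (nat_lit 3) (nat_lit 7) (nat_lit 0) (nat_lit 3) (nat_lit 132) (nat_lit 134) r10_132 r4_134 (nat_lit 0) (nat_lit 0) (nat_lit 3516231) (nat_lit 0x801199ce4) (nat_lit 1076295255),
  Rx.mk (nat_lit 152) (nat_lit 0) (nat_lit 3) (nat_lit 2) (nat_lit 6) (nat_lit 127) (nat_lit 139) r10_127 r4_139 (nat_lit 6990673) (nat_lit 0) (nat_lit 0) (nat_lit 0x7fb294226) (nat_lit 1085891197),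
  Rx.mk (nat_lit 154) (nat_lit 2) (nat_lit 3) (nat_lit 2) (nat_lit 7) (nat_lit 128) (nat_lit 142) r10_128 r4_142 (nat_lit 0) (nat_lit 0) (nat_lit 0) (nat_lit 0x80029938e) (nat_lit 1073741824),
  Rx.mk (nat_lit 155) (nat_lit 3) (nat_lit 3) (nat_lit 2) (nat_lit 7) (nat_lit 129) (nat_lit 140) r10_129 r4_140 (nat_lit 0) (nat_lit 0) (nat_lit 0) (nat_lit 0x805fe15fa) (nat_lit 1067795824),
  Rx.mk (nat_lit 187) (nat_lit 3) (nat_lit 7) (nat_lit 2) (nat_lit 7) (nat_lit 133) (nat_lit 141) r10_133 r4_141 (nat_lit 0) (nat_lit 0) (nat_lit 0) (nat_lit 0x801c7f974) (nat_lit 1072083424),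
  Rx.mk (nat_lit 231) (nat_lit 7) (nat_lit 4) (nat_lit 3) (nat_lit 5) (nat_lit 130) (nat_lit 136) r10_130 r4_136 (nat_lit 0) (nat_lit 2482237) (nat_lit 0) (nat_lit 0x8026b83be) (nat_lit 1073911461),
  Rx.mk (nat_lit 247) (nat_lit 7) (nat_lit 6) (nat_lit 3) (nat_lit 7) (nat_lit 131) (nat_lit 138) r10_131 r4_138 (nat_lit 0) (nat_lit 0) (nat_lit 0) (nat_lit 0x801ffbf1c) (nat_lit 1071860624),
  Rx.mk (nat_lit 251) (nat_lit 3) (nat_lit 7) (nat_lit 3) (nat_lit 7) (nat_lit 134) (nat_lit 135) r10_134 r4_135 (nat_lit 0) (nat_lit 0) (nat_lit 0) (nat_lit 0x80029938e) (nat_lit 1073741824),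
  Rx.mk (nat_lit 255) (nat_lit 7) (nat_lit 7) (nat_lit 3) (nat_lit 7) (nat_lit 135) (nat_lit 137) r10_135 r4_137 (nat_lit 0) (nat_lit 0) (nat_lit 0) (nat_lit 0x80029938e) (nat_lit 1073741824)]
noncomputable def e28_25 : List Rx := [
  Rx.mk (nat_lit 128) (nat_lit 0) (nat_lit 0) (nat_lit 2) (nat_lit 4) (nat_lit 82) (nat_lit 189) r10_82 r7_189 (nat_lit 207584) (nat_lit 170865) (nat_lit 0) (nat_lit 0x6d9bb3e06) (nat_lit 1380802873),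
  Rx.mk (nat_lit 130) (nat_lit 2) (nat_lit 0) (nat_lit 2) (nat_lit 5) (nat_lit 83) (nat_lit 191) r10_83 r7_191 (nat_lit 0) (nat_lit 1738294) (nat_lit 0) (nat_lit 0x80270146a) (nat_lit 1073148218),
  Rx.mk (nat_lit 152) (nat_lit 0) (nat_lit 3) (nat_lit 2) (nat_lit 6) (nat_lit 88) (nat_lit 192) r10_88 r7_192 (nat_lit 6198522) (nat_lit 0) (nat_lit 0) (nat_lit 0x7fb6ae690) (nat_lit 1084837746),
  Rx.mk (nat_lit 154) (nat_lit 2) (nat_lit 3) (nat_lit 2) (nat_lit 7) (nat_lit 89) (nat_lit 194) r10_89 r7_194 (nat_lit 0) (nat_lit 0) (nat_lit 0) (nat_lit 0x802fa6002) (nat_lit 1070864224),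
  Rx.mk (nat_lit 155) (nat_lit 3) (nat_lit 3) (nat_lit 2) (nat_lit 7) (nat_lit 90) (nat_lit 193) r10_90 r7_193 (nat_lit 0) (nat_lit 0) (nat_lit 0) (nat_lit 0x802fa260a) (nat_lit 1070865124),
  Rx.mk (nat_lit 278) (nat_lit 6) (nat_lit 2) (nat_lit 4) (nat_lit 3) (nat_lit 86) (nat_lit 195) r10_86 r7_195 (nat_lit 0) (nat_lit 0) (nat_lit 5449534) (nat_lit 0x80029938e) (nat_lit 1079191358),
  Rx.mk (nat_lit 308) (nat_lit 4) (nat_lit 6) (nat_lit 4) (nat_lit 2) (nat_lit 91) (nat_lit 184) r10_91 r7_184 (nat_lit 207584) (nat_lit 0) (nat_lit 170865) (nat_lit 0x6d9bb3e06) (nat_lit 1380802873),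
  Rx.mk (nat_lit 310) (nat_lit 6) (nat_lit 6) (nat_lit 4) (nat_lit 3) (nat_lit 93) (nat_lit 187) r10_93 r7_187 (nat_lit 0) (nat_lit 0) (nat_lit 1738294) (nat_lit 0x80270146a) (nat_lit 1073148218),
  Rx.mk (nat_lit 386) (nat_lit 2) (nat_lit 0) (nat_lit 6) (nat_lit 5) (nat_lit 84) (nat_lit 190) r10_84 r7_190 (nat_lit 0) (nat_lit 5449534) (nat_lit 0) (nat_lit 0x80029938e) (nat_lit 1079191358),
  Rx.mk (nat_lit 402) (nat_lit 2) (nat_lit 2) (nat_lit 6) (nat_lit 7) (nat_lit 85) (nat_lit 197) r10_85 r7_197 (nat_lit 0) (nat_lit 0) (nat_lit 0) (nat_lit 0x80029938e) (nat_lit 1073741824),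
  Rx.mk (nat_lit 406) (nat_lit 6) (nat_lit 2) (nat_lit 6) (nat_lit 7) (nat_lit 87) (nat_lit 196) r10_87 r7_196 (nat_lit 0) (nat_lit 0) (nat_lit 0) (nat_lit 0x80029938e) (nat_lit 1073741824),
  Rx.mk (nat_lit 500) (nat_lit 4) (nat_lit 6) (nat_lit 7) (nat_lit 6) (nat_lit 92) (nat_lit 185) r10_92 r7_185 (nat_lit 6198522) (nat_lit 0) (nat_lit 0) (nat_lit 0x7fb6ae690) (nat_lit 1084837746),
  Rx.mk (nat_lit 502) (nat_lit 6) (nat_lit 6) (nat_lit 7) (nat_lit 7) (nat_lit 94) (nat_lit 188) r10_94 r7_188 (nat_lit 0) (nat_lit 0) (nat_lit 0) (nat_lit 0x802fa6002) (nat_lit 1070864224),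
  Rx.mk (nat_lit 503) (nat_lit 7) (nat_lit 6) (nat_lit 7) (nat_lit 7) (nat_lit 95) (nat_lit 186) r10_95 r7_186 (nat_lit 0) (nat_lit 0) (nat_lit 0) (nat_lit 0x802fa260a) (nat_lit 1070865124)]
noncomputable def e28_26 : List Rx := [
  Rx.mk (nat_lit 128) (nat_lit 0) (nat_lit 0) (nat_lit 2) (nat_lit 4) (nat_lit 101) (nat_lit 149) r10_101 r8_149 (nat_lit 6554309) (nat_lit 5127106) (nat_lit 0) (nat_lit 0x6a304083e) (nat_lit 1449170039),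
  Rx.mk (nat_lit 130) (nat_lit 2) (nat_lit 0) (nat_lit 2) (nat_lit 5) (nat_lit 102) (nat_lit 151) r10_102 r8_151 (nat_lit 0) (nat_lit 3003115) (nat_lit 0) (nat_lit 0x801ee9084) (nat_lit 1074931639),
  Rx.mk (nat_lit 152) (nat_lit 0) (nat_lit 3) (nat_lit 2) (nat_lit 6) (nat_lit 106) (nat_lit 152) r10_106 r8_152 (nat_lit 5449534) (nat_lit 0) (nat_lit 0) (nat_lit 0x80029938e) (nat_lit 1079191358),
  Rx.mk (nat_lit 154) (nat_lit 2) (nat_lit 3) (nat_lit 2) (nat_lit 7) (nat_lit 107) (nat_lit 154) r10_107 r8_154 (nat_lit 0) (nat_lit 0) (nat_lit 0) (nat_lit 0x80029938e) (nat_lit 1073741824),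
  Rx.mk (nat_lit 155) (nat_lit 3) (nat_lit 3) (nat_lit 2) (nat_lit 7) (nat_lit 108) (nat_lit 153) r10_108 r8_153 (nat_lit 0) (nat_lit 0) (nat_lit 0) (nat_lit 0x80029938e) (nat_lit 1073741824),
  Rx.mk (nat_lit 386) (nat_lit 2) (nat_lit 0) (nat_lit 6) (nat_lit 5) (nat_lit 103) (nat_lit 150) r10_103 r8_150 (nat_lit 0) (nat_lit 5449534) (nat_lit 0) (nat_lit 0x80029938e) (nat_lit 1079191358),
  Rx.mk (nat_lit 402) (nat_lit 2) (nat_lit 2) (nat_lit 6) (nat_lit 7) (nat_lit 104) (nat_lit 156) r10_104 r8_156 (nat_lit 0) (nat_lit 0) (nat_lit 0) (nat_lit 0x80029938e) (nat_lit 1073741824),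
  Rx.mk (nat_lit 406) (nat_lit 6) (nat_lit 2) (nat_lit 6) (nat_lit 7) (nat_lit 105) (nat_lit 155) r10_105 r8_155 (nat_lit 0) (nat_lit 0) (nat_lit 0) (nat_lit 0x80029938e) (nat_lit 1073741824)]
noncomputable def e28_27 : List Rx := [
  Rx.mk (nat_lit 278) (nat_lit 6) (nat_lit 2) (nat_lit 4) (nat_lit 3) (nat_lit 110) (nat_lit 150) r10_110 r8_150 (nat_lit 0) (nat_lit 0) (nat_lit 5449534) (nat_lit 0x80029938e) (nat_lit 1079191358),
  Rx.mk (nat_lit 308) (nat_lit 4) (nat_lit 6) (nat_lit 4) (nat_lit 2) (nat_lit 112) (nat_lit 149) r10_112 r8_149 (nat_lit 6554309) (nat_lit 0) (nat_lit 5127106) (nat_lit 0x6a304083e) (nat_lit 1449170039),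
  Rx.mk (nat_lit 310) (nat_lit 6) (nat_lit 6) (nat_lit 4) (nat_lit 3) (nat_lit 114) (nat_lit 151) r10_114 r8_151 (nat_lit 0) (nat_lit 0) (nat_lit 3003115) (nat_lit 0x801ee9084) (nat_lit 1074931639),
  Rx.mk (nat_lit 402) (nat_lit 2) (nat_lit 2) (nat_lit 6) (nat_lit 7) (nat_lit 109) (nat_lit 155) r10_109 r8_155 (nat_lit 0) (nat_lit 0) (nat_lit 0) (nat_lit 0x80029938e) (nat_lit 1073741824),
  Rx.mk (nat_lit 406) (nat_lit 6) (nat_lit 2) (nat_lit 6) (nat_lit 7) (nat_lit 111) (nat_lit 156) r10_111 r8_156 (nat_lit 0) (nat_lit 0) (nat_lit 0) (nat_lit 0x80029938e) (nat_lit 1073741824),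
  Rx.mk (nat_lit 500) (nat_lit 4) (nat_lit 6) (nat_lit 7) (nat_lit 6) (nat_lit 113) (nat_lit 152) r10_113 r8_152 (nat_lit 5449534) (nat_lit 0) (nat_lit 0) (nat_lit 0x80029938e) (nat_lit 1079191358),
  Rx.mk (nat_lit 502) (nat_lit 6) (nat_lit 6) (nat_lit 7) (nat_lit 7) (nat_lit 115) (nat_lit 154) r10_115 r8_154 (nat_lit 0) (nat_lit 0) (nat_lit 0) (nat_lit 0x80029938e) (nat_lit 1073741824),
  Rx.mk (nat_lit 503) (nat_lit 7) (nat_lit 6) (nat_lit 7) (nat_lit 7) (nat_lit 116) (nat_lit 153) r10_116 r8_153 (nat_lit 0) (nat_lit 0) (nat_lit 0) (nat_lit 0x80029938e) (nat_lit 1073741824)]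
noncomputable def e28_28 : List Rx := [
  Rx.mk (nat_lit 59) (nat_lit 3) (nat_lit 7) (nat_lit 0) (nat_lit 3) (nat_lit 150) (nat_lit 138) r10_150 r10_138 (nat_lit 0) (nat_lit 0) (nat_lit 894642) (nat_lit 0x80174e874) (nat_lit 1073288466),
  Rx.mk (nat_lit 152) (nat_lit 0) (nat_lit 3) (nat_lit 2) (nat_lit 6) (nat_lit 141) (nat_lit 146) r10_141 r10_146 (nat_lit 1048908) (nat_lit 0) (nat_lit 0) (nat_lit 0x7fe544d42) (nat_lit 1076654532),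
  Rx.mk (nat_lit 154) (nat_lit 2) (nat_lit 3) (nat_lit 2) (nat_lit 7) (nat_lit 142) (nat_lit 149) r10_142 r10_149 (nat_lit 0) (nat_lit 0) (nat_lit 0) (nat_lit 0x80994ec20) (nat_lit 1064156624),
  Rx.mk (nat_lit 155) (nat_lit 3) (nat_lit 3) (nat_lit 2) (nat_lit 7) (nat_lit 144) (nat_lit 147) r10_144 r10_147 (nat_lit 0) (nat_lit 0) (nat_lit 0) (nat_lit 0x80994ec20) (nat_lit 1064156624),
  Rx.mk (nat_lit 187) (nat_lit 3) (nat_lit 7) (nat_lit 2) (nat_lit 7) (nat_lit 151) (nat_lit 140) r10_151 r10_140 (nat_lit 0) (nat_lit 0) (nat_lit 0) (nat_lit 0x80029938e) (nat_lit 1073741824),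
  Rx.mk (nat_lit 231) (nat_lit 7) (nat_lit 4) (nat_lit 3) (nat_lit 5) (nat_lit 145) (nat_lit 136) r10_145 r10_136 (nat_lit 0) (nat_lit 894642) (nat_lit 0) (nat_lit 0x80174e874) (nat_lit 1073288466),
  Rx.mk (nat_lit 247) (nat_lit 7) (nat_lit 6) (nat_lit 3) (nat_lit 7) (nat_lit 148) (nat_lit 143) r10_148 r10_143 (nat_lit 0) (nat_lit 0) (nat_lit 0) (nat_lit 0x80029938e) (nat_lit 1073741824),
  Rx.mk (nat_lit 251) (nat_lit 3) (nat_lit 7) (nat_lit 3) (nat_lit 7) (nat_lit 152) (nat_lit 139) r10_152 r10_139 (nat_lit 0) (nat_lit 0) (nat_lit 0) (nat_lit 0x80029938e) (nat_lit 1073741824),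
  Rx.mk (nat_lit 255) (nat_lit 7) (nat_lit 7) (nat_lit 3) (nat_lit 7) (nat_lit 153) (nat_lit 137) r10_153 r10_137 (nat_lit 0) (nat_lit 0) (nat_lit 0) (nat_lit 0x80029938e) (nat_lit 1073741824),
  Rx.mk (nat_lit 278) (nat_lit 6) (nat_lit 2) (nat_lit 4) (nat_lit 3) (nat_lit 138) (nat_lit 150) r10_138 r10_150 (nat_lit 0) (nat_lit 0) (nat_lit 894642) (nat_lit 0x80174e874) (nat_lit 1073288466),
  Rx.mk (nat_lit 386) (nat_lit 2) (nat_lit 0) (nat_lit 6) (nat_lit 5) (nat_lit 136) (nat_lit 145) r10_136 r10_145 (nat_lit 0) (nat_lit 894642) (nat_lit 0) (nat_lit 0x80174e874) (nat_lit 1073288466),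
  Rx.mk (nat_lit 402) (nat_lit 2) (nat_lit 2) (nat_lit 6) (nat_lit 7) (nat_lit 137) (nat_lit 153) r10_137 r10_153 (nat_lit 0) (nat_lit 0) (nat_lit 0) (nat_lit 0x80029938e) (nat_lit 1073741824),
  Rx.mk (nat_lit 406) (nat_lit 6) (nat_lit 2) (nat_lit 6) (nat_lit 7) (nat_lit 139) (nat_lit 152) r10_139 r10_152 (nat_lit 0) (nat_lit 0) (nat_lit 0) (nat_lit 0x80029938e) (nat_lit 1073741824),
  Rx.mk (nat_lit 410) (nat_lit 2) (nat_lit 3) (nat_lit 6) (nat_lit 7) (nat_lit 143) (nat_lit 148) r10_143 r10_148 (nat_lit 0) (nat_lit 0) (nat_lit 0) (nat_lit 0x80029938e) (nat_lit 1073741824),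
  Rx.mk (nat_lit 470) (nat_lit 6) (nat_lit 2) (nat_lit 7) (nat_lit 7) (nat_lit 140) (nat_lit 151) r10_140 r10_151 (nat_lit 0) (nat_lit 0) (nat_lit 0) (nat_lit 0x80029938e) (nat_lit 1073741824),
  Rx.mk (nat_lit 500) (nat_lit 4) (nat_lit 6) (nat_lit 7) (nat_lit 6) (nat_lit 146) (nat_lit 141) r10_146 r10_141 (nat_lit 1048908) (nat_lit 0) (nat_lit 0) (nat_lit 0x7fe544d42) (nat_lit 1076654532),
  Rx.mk (nat_lit 502) (nat_lit 6) (nat_lit 6) (nat_lit 7) (nat_lit 7) (nat_lit 147) (nat_lit 144) r10_147 r10_144 (nat_lit 0) (nat_lit 0) (nat_lit 0) (nat_lit 0x80994ec20) (nat_lit 1064156624),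
  Rx.mk (nat_lit 503) (nat_lit 7) (nat_lit 6) (nat_lit 7) (nat_lit 7) (nat_lit 149) (nat_lit 142) r10_149 r10_142 (nat_lit 0) (nat_lit 0) (nat_lit 0) (nat_lit 0x80994ec20) (nat_lit 1064156624)]
noncomputable def e28_29 : List Rx := [
  Rx.mk (nat_lit 59) (nat_lit 3) (nat_lit 7) (nat_lit 0) (nat_lit 3) (nat_lit 157) (nat_lit 140) r10_157 r11_140 (nat_lit 0) (nat_lit 0) (nat_lit 5449534) (nat_lit 0x80029938e) (nat_lit 1079191358),
  Rx.mk (nat_lit 63) (nat_lit 7) (nat_lit 7) (nat_lit 0) (nat_lit 3) (nat_lit 159) (nat_lit 138) r10_159 r11_138 (nat_lit 0) (nat_lit 0) (nat_lit 5449534) (nat_lit 0x80029938e) (nat_lit 1079191358),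
  Rx.mk (nat_lit 155) (nat_lit 3) (nat_lit 3) (nat_lit 2) (nat_lit 7) (nat_lit 154) (nat_lit 143) r10_154 r11_143 (nat_lit 0) (nat_lit 0) (nat_lit 0) (nat_lit 0x8037ea8d0) (nat_lit 1070334824),
  Rx.mk (nat_lit 187) (nat_lit 3) (nat_lit 7) (nat_lit 2) (nat_lit 7) (nat_lit 158) (nat_lit 141) r10_158 r11_141 (nat_lit 0) (nat_lit 0) (nat_lit 0) (nat_lit 0x80029938e) (nat_lit 1073741824),
  Rx.mk (nat_lit 231) (nat_lit 7) (nat_lit 4) (nat_lit 3) (nat_lit 5) (nat_lit 155) (nat_lit 137) r10_155 r11_137 (nat_lit 0) (nat_lit 5449534) (nat_lit 0) (nat_lit 0x80029938e) (nat_lit 1079191358),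
  Rx.mk (nat_lit 247) (nat_lit 7) (nat_lit 6) (nat_lit 3) (nat_lit 7) (nat_lit 156) (nat_lit 142) r10_156 r11_142 (nat_lit 0) (nat_lit 0) (nat_lit 0) (nat_lit 0x80029938e) (nat_lit 1073741824),
  Rx.mk (nat_lit 255) (nat_lit 7) (nat_lit 7) (nat_lit 3) (nat_lit 7) (nat_lit 160) (nat_lit 139) r10_160 r11_139 (nat_lit 0) (nat_lit 0) (nat_lit 0) (nat_lit 0x80029938e) (nat_lit 1073741824)]
noncomputable def e28_30 : List Rx := [
  Rx.mk (nat_lit 103) (nat_lit 7) (nat_lit 4) (nat_lit 1) (nat_lit 5) (nat_lit 237) (nat_lit 307) r10_237 r5_307 (nat_lit 0) (nat_lit 1799061) (nat_lit 0) (nat_lit 0x8019a878c) (nat_lit 1074055785),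
  Rx.mk (nat_lit 111) (nat_lit 7) (nat_lit 5) (nat_lit 1) (nat_lit 7) (nat_lit 238) (nat_lit 308) r10_238 r5_308 (nat_lit 0) (nat_lit 0) (nat_lit 0) (nat_lit 0x804b7b61a) (nat_lit 1069091624),
  Rx.mk (nat_lit 119) (nat_lit 7) (nat_lit 6) (nat_lit 1) (nat_lit 7) (nat_lit 239) (nat_lit 309) r10_239 r5_309 (nat_lit 0) (nat_lit 0) (nat_lit 0) (nat_lit 0x804b7c312) (nat_lit 1069091424)]
noncomputable def e28_31 : List Rx := [
  Rx.mk (nat_lit 103) (nat_lit 7) (nat_lit 4) (nat_lit 1) (nat_lit 5) (nat_lit 240) (nat_lit 361) r10_240 r11_361 (nat_lit 0) (nat_lit 2407548) (nat_lit 0) (nat_lit 0x806441ffa) (nat_lit 1069926072),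
  Rx.mk (nat_lit 111) (nat_lit 7) (nat_lit 5) (nat_lit 1) (nat_lit 7) (nat_lit 241) (nat_lit 362) r10_241 r11_362 (nat_lit 0) (nat_lit 0) (nat_lit 0) (nat_lit 0x803403b68) (nat_lit 1070584224),
  Rx.mk (nat_lit 119) (nat_lit 7) (nat_lit 6) (nat_lit 1) (nat_lit 7) (nat_lit 242) (nat_lit 363) r10_242 r11_363 (nat_lit 0) (nat_lit 0) (nat_lit 0) (nat_lit 0x803403b68) (nat_lit 1070584224),
  Rx.mk (nat_lit 375) (nat_lit 7) (nat_lit 6) (nat_lit 5) (nat_lit 7) (nat_lit 243) (nat_lit 360) r10_243 r11_360 (nat_lit 0) (nat_lit 0) (nat_lit 0) (nat_lit 0x80029938e) (nat_lit 1073741824)]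
noncomputable def e28_32 : List Rx := [
  Rx.mk (nat_lit 35) (nat_lit 3) (nat_lit 4) (nat_lit 0) (nat_lit 1) (nat_lit 244) (nat_lit 213) r10_244 r6_213 (nat_lit 0) (nat_lit 325610) (nat_lit 315034) (nat_lit 0x6c8871394) (nat_lit 1399003668),
  Rx.mk (nat_lit 43) (nat_lit 3) (nat_lit 5) (nat_lit 0) (nat_lit 3) (nat_lit 249) (nat_lit 214) r10_249 r6_214 (nat_lit 0) (nat_lit 0) (nat_lit 2919586) (nat_lit 0x8040ec42e) (nat_lit 1072682510),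
  Rx.mk (nat_lit 59) (nat_lit 3) (nat_lit 7) (nat_lit 0) (nat_lit 3) (nat_lit 254) (nat_lit 215) r10_254 r6_215 (nat_lit 0) (nat_lit 0) (nat_lit 1567710) (nat_lit 0x8053e18e0) (nat_lit 1070118234),
  Rx.mk (nat_lit 99) (nat_lit 3) (nat_lit 4) (nat_lit 1) (nat_lit 5) (nat_lit 245) (nat_lit 216) r10_245 r6_216 (nat_lit 0) (nat_lit 2104035) (nat_lit 0) (nat_lit 0x8089df83e) (nat_lit 1067238059),
  Rx.mk (nat_lit 123) (nat_lit 3) (nat_lit 7) (nat_lit 1) (nat_lit 7) (nat_lit 255) (nat_lit 217) r10_255 r6_217 (nat_lit 0) (nat_lit 0) (nat_lit 0) (nat_lit 0x809b6df60) (nat_lit 1064022524),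
  Rx.mk (nat_lit 163) (nat_lit 3) (nat_lit 4) (nat_lit 2) (nat_lit 5) (nat_lit 246) (nat_lit 220) r10_246 r6_220 (nat_lit 0) (nat_lit 2104035) (nat_lit 0) (nat_lit 0x8089df83e) (nat_lit 1067238059),
  Rx.mk (nat_lit 171) (nat_lit 3) (nat_lit 5) (nat_lit 2) (nat_lit 7) (nat_lit 250) (nat_lit 221) r10_250 r6_221 (nat_lit 0) (nat_lit 0) (nat_lit 0) (nat_lit 0x80192ccea) (nat_lit 1072297024),
  Rx.mk (nat_lit 187) (nat_lit 3) (nat_lit 7) (nat_lit 2) (nat_lit 7) (nat_lit 256) (nat_lit 222) r10_256 r6_222 (nat_lit 0) (nat_lit 0) (nat_lit 0) (nat_lit 0x809b6df60) (nat_lit 1064022524),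
  Rx.mk (nat_lit 227) (nat_lit 3) (nat_lit 4) (nat_lit 3) (nat_lit 5) (nat_lit 247) (nat_lit 218) r10_247 r6_218 (nat_lit 0) (nat_lit 5449534) (nat_lit 0) (nat_lit 0x7febd1840) (nat_lit 1080657058),
  Rx.mk (nat_lit 231) (nat_lit 7) (nat_lit 4) (nat_lit 3) (nat_lit 5) (nat_lit 248) (nat_lit 210) r10_248 r6_210 (nat_lit 0) (nat_lit 1425998) (nat_lit 0) (nat_lit 0x8011ef310) (nat_lit 1074173622),
  Rx.mk (nat_lit 235) (nat_lit 3) (nat_lit 5) (nat_lit 3) (nat_lit 7) (nat_lit 251) (nat_lit 219) r10_251 r6_219 (nat_lit 0) (nat_lit 0) (nat_lit 0) (nat_lit 0x80029938e) (nat_lit 1073741824),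
  Rx.mk (nat_lit 239) (nat_lit 7) (nat_lit 5) (nat_lit 3) (nat_lit 7) (nat_lit 252) (nat_lit 211) r10_252 r6_211 (nat_lit 0) (nat_lit 0) (nat_lit 0) (nat_lit 0x8099ba880) (nat_lit 1064130224),
  Rx.mk (nat_lit 247) (nat_lit 7) (nat_lit 6) (nat_lit 3) (nat_lit 7) (nat_lit 253) (nat_lit 212) r10_253 r6_212 (nat_lit 0) (nat_lit 0) (nat_lit 0) (nat_lit 0x8099ba880) (nat_lit 1064130224)]
noncomputable def e28_33 : List Rx := [
  Rx.mk (nat_lit 59) (nat_lit 3) (nat_lit 7) (nat_lit 0) (nat_lit 3) (nat_lit 215) (nat_lit 134) r10_215 r5_134 (nat_lit 0) (nat_lit 0) (nat_lit 1919901) (nat_lit 0x80c317552) (nat_lit 1063433825),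
  Rx.mk (nat_lit 187) (nat_lit 3) (nat_lit 7) (nat_lit 2) (nat_lit 7) (nat_lit 216) (nat_lit 139) r10_216 r5_139 (nat_lit 0) (nat_lit 0) (nat_lit 0) (nat_lit 0x80348d4f8) (nat_lit 1070549224),
  Rx.mk (nat_lit 227) (nat_lit 3) (nat_lit 4) (nat_lit 3) (nat_lit 5) (nat_lit 212) (nat_lit 135) r10_212 r5_135 (nat_lit 0) (nat_lit 4741774) (nat_lit 0) (nat_lit 0x78dac94e6) (nat_lit 1197703898),
  Rx.mk (nat_lit 231) (nat_lit 7) (nat_lit 4) (nat_lit 3) (nat_lit 5) (nat_lit 213) (nat_lit 137) r10_213 r5_137 (nat_lit 0) (nat_lit 1409940) (nat_lit 0) (nat_lit 0x8011f0f3a) (nat_lit 1074160464),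
  Rx.mk (nat_lit 247) (nat_lit 7) (nat_lit 6) (nat_lit 3) (nat_lit 7) (nat_lit 214) (nat_lit 138) r10_214 r5_138 (nat_lit 0) (nat_lit 0) (nat_lit 0) (nat_lit 0x80af22bc8) (nat_lit 1062775524),
  Rx.mk (nat_lit 251) (nat_lit 3) (nat_lit 7) (nat_lit 3) (nat_lit 7) (nat_lit 217) (nat_lit 136) r10_217 r5_136 (nat_lit 0) (nat_lit 0) (nat_lit 0) (nat_lit 0x7ff5fb7f8) (nat_lit 1074552324)]
noncomputable def e28_34 : List Rx := [
  Rx.mk (nat_lit 59) (nat_lit 3) (nat_lit 7) (nat_lit 0) (nat_lit 3) (nat_lit 222) (nat_lit 137) r10_222 r11_137 (nat_lit 0) (nat_lit 0) (nat_lit 5449534) (nat_lit 0x80029938e) (nat_lit 1079191358),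
  Rx.mk (nat_lit 187) (nat_lit 3) (nat_lit 7) (nat_lit 2) (nat_lit 7) (nat_lit 223) (nat_lit 142) r10_223 r11_142 (nat_lit 0) (nat_lit 0) (nat_lit 0) (nat_lit 0x80029938e) (nat_lit 1073741824),
  Rx.mk (nat_lit 227) (nat_lit 3) (nat_lit 4) (nat_lit 3) (nat_lit 5) (nat_lit 218) (nat_lit 138) r10_218 r11_138 (nat_lit 0) (nat_lit 5449534) (nat_lit 0) (nat_lit 0x80029938e) (nat_lit 1079191358),
  Rx.mk (nat_lit 231) (nat_lit 7) (nat_lit 4) (nat_lit 3) (nat_lit 5) (nat_lit 219) (nat_lit 140) r10_219 r11_140 (nat_lit 0) (nat_lit 5449534) (nat_lit 0) (nat_lit 0x80029938e) (nat_lit 1079191358),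
  Rx.mk (nat_lit 247) (nat_lit 7) (nat_lit 6) (nat_lit 3) (nat_lit 7) (nat_lit 220) (nat_lit 141) r10_220 r11_141 (nat_lit 0) (nat_lit 0) (nat_lit 0) (nat_lit 0x80029938e) (nat_lit 1073741824),
  Rx.mk (nat_lit 251) (nat_lit 3) (nat_lit 7) (nat_lit 3) (nat_lit 7) (nat_lit 224) (nat_lit 139) r10_224 r11_139 (nat_lit 0) (nat_lit 0) (nat_lit 0) (nat_lit 0x80029938e) (nat_lit 1073741824),
  Rx.mk (nat_lit 503) (nat_lit 7) (nat_lit 6) (nat_lit 7) (nat_lit 7) (nat_lit 221) (nat_lit 143) r10_221 r11_143 (nat_lit 0) (nat_lit 0) (nat_lit 0) (nat_lit 0x8037ea8d0) (nat_lit 1070334824)]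
noncomputable def e28_35 : List Rx := [
  Rx.mk (nat_lit 35) (nat_lit 3) (nat_lit 4) (nat_lit 0) (nat_lit 1) (nat_lit 225) (nat_lit 344) r10_225 r6_344 (nat_lit 0) (nat_lit 281994) (nat_lit 251735) (nat_lit 0x6f241602c) (nat_lit 1355411153),
  Rx.mk (nat_lit 39) (nat_lit 7) (nat_lit 4) (nat_lit 0) (nat_lit 1) (nat_lit 228) (nat_lit 345) r10_228 r6_345 (nat_lit 0) (nat_lit 251735) (nat_lit 281994) (nat_lit 0x6f241602c) (nat_lit 1355411153),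
  Rx.mk (nat_lit 43) (nat_lit 3) (nat_lit 5) (nat_lit 0) (nat_lit 3) (nat_lit 230) (nat_lit 349) r10_230 r6_349 (nat_lit 0) (nat_lit 0) (nat_lit 2530520) (nat_lit 0x80595a13c) (nat_lit 1070741144),
  Rx.mk (nat_lit 47) (nat_lit 7) (nat_lit 5) (nat_lit 0) (nat_lit 3) (nat_lit 233) (nat_lit 350) r10_233 r6_350 (nat_lit 0) (nat_lit 0) (nat_lit 1889821) (nat_lit 0x80c097fde) (nat_lit 1063560645),
  Rx.mk (nat_lit 55) (nat_lit 7) (nat_lit 6) (nat_lit 0) (nat_lit 3) (nat_lit 235) (nat_lit 354) r10_235 r6_354 (nat_lit 0) (nat_lit 0) (nat_lit 1889821) (nat_lit 0x80c097962) (nat_lit 1063560745),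
  Rx.mk (nat_lit 99) (nat_lit 3) (nat_lit 4) (nat_lit 1) (nat_lit 5) (nat_lit 226) (nat_lit 346) r10_226 r6_346 (nat_lit 0) (nat_lit 1889821) (nat_lit 0) (nat_lit 0x80c097fde) (nat_lit 1063560645),
  Rx.mk (nat_lit 103) (nat_lit 7) (nat_lit 4) (nat_lit 1) (nat_lit 5) (nat_lit 229) (nat_lit 347) r10_229 r6_347 (nat_lit 0) (nat_lit 2530520) (nat_lit 0) (nat_lit 0x80595a13c) (nat_lit 1070741144),
  Rx.mk (nat_lit 107) (nat_lit 3) (nat_lit 5) (nat_lit 1) (nat_lit 7) (nat_lit 231) (nat_lit 351) r10_231 r6_351 (nat_lit 0) (nat_lit 0) (nat_lit 0) (nat_lit 0x802855af0) (nat_lit 1071328824),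
  Rx.mk (nat_lit 111) (nat_lit 7) (nat_lit 5) (nat_lit 1) (nat_lit 7) (nat_lit 234) (nat_lit 352) r10_234 r6_352 (nat_lit 0) (nat_lit 0) (nat_lit 0) (nat_lit 0x802855af0) (nat_lit 1071328824),
  Rx.mk (nat_lit 119) (nat_lit 7) (nat_lit 6) (nat_lit 1) (nat_lit 7) (nat_lit 236) (nat_lit 355) r10_236 r6_355 (nat_lit 0) (nat_lit 0) (nat_lit 0) (nat_lit 0x802855af0) (nat_lit 1071328824),
  Rx.mk (nat_lit 163) (nat_lit 3) (nat_lit 4) (nat_lit 2) (nat_lit 5) (nat_lit 227) (nat_lit 348) r10_227 r6_348 (nat_lit 0) (nat_lit 1889821) (nat_lit 0) (nat_lit 0x80c097962) (nat_lit 1063560745),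
  Rx.mk (nat_lit 171) (nat_lit 3) (nat_lit 5) (nat_lit 2) (nat_lit 7) (nat_lit 232) (nat_lit 353) r10_232 r6_353 (nat_lit 0) (nat_lit 0) (nat_lit 0) (nat_lit 0x802855af0) (nat_lit 1071328824)]
noncomputable def e28_36 : List Rx := [
  Rx.mk (nat_lit 35) (nat_lit 3) (nat_lit 4) (nat_lit 0) (nat_lit 1) (nat_lit 257) (nat_lit 213) r10_257 r12_213 (nat_lit 0) (nat_lit 248757) (nat_lit 254448) (nat_lit 0x6d3468e40) (nat_lit 1387661829),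
  Rx.mk (nat_lit 39) (nat_lit 7) (nat_lit 4) (nat_lit 0) (nat_lit 1) (nat_lit 260) (nat_lit 221) r10_260 r12_221 (nat_lit 0) (nat_lit 254448) (nat_lit 248757) (nat_lit 0x6d3468e40) (nat_lit 1387661829),
  Rx.mk (nat_lit 43) (nat_lit 3) (nat_lit 5) (nat_lit 0) (nat_lit 3) (nat_lit 263) (nat_lit 216) r10_263 r12_216 (nat_lit 0) (nat_lit 0) (nat_lit 1831361) (nat_lit 0x80d99ecf8) (nat_lit 1061919385),
  Rx.mk (nat_lit 47) (nat_lit 7) (nat_lit 5) (nat_lit 0) (nat_lit 3) (nat_lit 265) (nat_lit 224) r10_265 r12_224 (nat_lit 0) (nat_lit 0) (nat_lit 1311948) (nat_lit 0x83fdc9f30) (nat_lit 1010600972),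
  Rx.mk (nat_lit 55) (nat_lit 7) (nat_lit 6) (nat_lit 0) (nat_lit 3) (nat_lit 267) (nat_lit 226) r10_267 r12_226 (nat_lit 0) (nat_lit 0) (nat_lit 1325018) (nat_lit 0x844914026) (nat_lit 1005854542),
  Rx.mk (nat_lit 59) (nat_lit 3) (nat_lit 7) (nat_lit 0) (nat_lit 3) (nat_lit 270) (nat_lit 218) r10_270 r12_218 (nat_lit 0) (nat_lit 0) (nat_lit 1075682) (nat_lit 0x8008ee41e) (nat_lit 1074391406),
  Rx.mk (nat_lit 99) (nat_lit 3) (nat_lit 4) (nat_lit 1) (nat_lit 5) (nat_lit 258) (nat_lit 214) r10_258 r12_214 (nat_lit 0) (nat_lit 1311948) (nat_lit 0) (nat_lit 0x83fdc9f30) (nat_lit 1010600972),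
  Rx.mk (nat_lit 103) (nat_lit 7) (nat_lit 4) (nat_lit 1) (nat_lit 5) (nat_lit 261) (nat_lit 222) r10_261 r12_222 (nat_lit 0) (nat_lit 1831361) (nat_lit 0) (nat_lit 0x80d99ecf8) (nat_lit 1061919385),
  Rx.mk (nat_lit 119) (nat_lit 7) (nat_lit 6) (nat_lit 1) (nat_lit 7) (nat_lit 268) (nat_lit 227) r10_268 r12_227 (nat_lit 0) (nat_lit 0) (nat_lit 0) (nat_lit 0x80425a68a) (nat_lit 1069671024),
  Rx.mk (nat_lit 123) (nat_lit 3) (nat_lit 7) (nat_lit 1) (nat_lit 7) (nat_lit 271) (nat_lit 219) r10_271 r12_219 (nat_lit 0) (nat_lit 0) (nat_lit 0) (nat_lit 0x868d991c2) (nat_lit 967853924),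
  Rx.mk (nat_lit 163) (nat_lit 3) (nat_lit 4) (nat_lit 2) (nat_lit 5) (nat_lit 259) (nat_lit 215) r10_259 r12_215 (nat_lit 0) (nat_lit 1325018) (nat_lit 0) (nat_lit 0x844914026) (nat_lit 1005854542),
  Rx.mk (nat_lit 171) (nat_lit 3) (nat_lit 5) (nat_lit 2) (nat_lit 7) (nat_lit 264) (nat_lit 217) r10_264 r12_217 (nat_lit 0) (nat_lit 0) (nat_lit 0) (nat_lit 0x80425a68a) (nat_lit 1069671024),
  Rx.mk (nat_lit 187) (nat_lit 3) (nat_lit 7) (nat_lit 2) (nat_lit 7) (nat_lit 272) (nat_lit 220) r10_272 r12_220 (nat_lit 0) (nat_lit 0) (nat_lit 0) (nat_lit 0x868d991c2) (nat_lit 967853924),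
  Rx.mk (nat_lit 231) (nat_lit 7) (nat_lit 4) (nat_lit 3) (nat_lit 5) (nat_lit 262) (nat_lit 223) r10_262 r12_223 (nat_lit 0) (nat_lit 1075682) (nat_lit 0) (nat_lit 0x8008ee41e) (nat_lit 1074391406),
  Rx.mk (nat_lit 239) (nat_lit 7) (nat_lit 5) (nat_lit 3) (nat_lit 7) (nat_lit 266) (nat_lit 225) r10_266 r12_225 (nat_lit 0) (nat_lit 0) (nat_lit 0) (nat_lit 0x868d991c2) (nat_lit 967853924),
  Rx.mk (nat_lit 247) (nat_lit 7) (nat_lit 6) (nat_lit 3) (nat_lit 7) (nat_lit 269) (nat_lit 228) r10_269 r12_228 (nat_lit 0) (nat_lit 0) (nat_lit 0) (nat_lit 0x868d991c2) (nat_lit 967853924)]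
noncomputable def e28_37 : List Rx := [
  Rx.mk (nat_lit 40) (nat_lit 0) (nat_lit 5) (nat_lit 0) (nat_lit 2) (nat_lit 281) (nat_lit 195) r10_281 r0_195 (nat_lit 577871) (nat_lit 0) (nat_lit 206251) (nat_lit 0x5b26d5dda) (nat_lit 1688936846),
  Rx.mk (nat_lit 104) (nat_lit 0) (nat_lit 5) (nat_lit 1) (nat_lit 6) (nat_lit 282) (nat_lit 196) r10_282 r0_196 (nat_lit 2475431) (nat_lit 0) (nat_lit 0) (nat_lit 0x70fe46778) (nat_lit 1326502855),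
  Rx.mk (nat_lit 136) (nat_lit 0) (nat_lit 1) (nat_lit 2) (nat_lit 6) (nat_lit 279) (nat_lit 198) r10_279 r0_198 (nat_lit 172576021) (nat_lit 0) (nat_lit 0) (nat_lit 0x80845ae72) (nat_lit 1238006145),
  Rx.mk (nat_lit 139) (nat_lit 3) (nat_lit 1) (nat_lit 2) (nat_lit 7) (nat_lit 280) (nat_lit 199) r10_280 r0_199 (nat_lit 0) (nat_lit 0) (nat_lit 0) (nat_lit 0x803360350) (nat_lit 1070623924),
  Rx.mk (nat_lit 168) (nat_lit 0) (nat_lit 5) (nat_lit 2) (nat_lit 6) (nat_lit 283) (nat_lit 197) r10_283 r0_197 (nat_lit 336738388) (nat_lit 0) (nat_lit 0) (nat_lit 0x7f9d350f6) (nat_lit 1417053112)]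
noncomputable def e28_38 : List Rx := [
  Rx.mk (nat_lit 40) (nat_lit 0) (nat_lit 5) (nat_lit 0) (nat_lit 2) (nat_lit 273) (nat_lit 322) r10_273 r0_322 (nat_lit 2141139) (nat_lit 0) (nat_lit 31804169) (nat_lit 0x67d4791ec) (nat_lit 1510741932),
  Rx.mk (nat_lit 41) (nat_lit 1) (nat_lit 5) (nat_lit 0) (nat_lit 3) (nat_lit 276) (nat_lit 323) r10_276 r0_323 (nat_lit 0) (nat_lit 0) (nat_lit 6626663) (nat_lit 0x7fd2b1cde) (nat_lit 1083457587),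
  Rx.mk (nat_lit 104) (nat_lit 0) (nat_lit 5) (nat_lit 1) (nat_lit 6) (nat_lit 274) (nat_lit 324) r10_274 r0_324 (nat_lit 6250628) (nat_lit 0) (nat_lit 0) (nat_lit 0x7fcba2f38) (nat_lit 1083536252),
  Rx.mk (nat_lit 105) (nat_lit 1) (nat_lit 5) (nat_lit 1) (nat_lit 7) (nat_lit 277) (nat_lit 325) r10_277 r0_325 (nat_lit 0) (nat_lit 0) (nat_lit 0) (nat_lit 0x80131f6b8) (nat_lit 1072683424),
  Rx.mk (nat_lit 168) (nat_lit 0) (nat_lit 5) (nat_lit 2) (nat_lit 6) (nat_lit 275) (nat_lit 326) r10_275 r0_326 (nat_lit 5230327) (nat_lit 0) (nat_lit 0) (nat_lit 0x7f655899e) (nat_lit 1089155351),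
  Rx.mk (nat_lit 169) (nat_lit 1) (nat_lit 5) (nat_lit 2) (nat_lit 7) (nat_lit 278) (nat_lit 327) r10_278 r0_327 (nat_lit 0) (nat_lit 0) (nat_lit 0) (nat_lit 0x80029938e) (nat_lit 1073741824)]
noncomputable def e28_39 : List Rx := [
  Rx.mk (nat_lit 40) (nat_lit 0) (nat_lit 5) (nat_lit 0) (nat_lit 2) (nat_lit 286) (nat_lit 255) r10_286 r7_255 (nat_lit 3562106) (nat_lit 0) (nat_lit 2862197) (nat_lit 0x6f8080cd6) (nat_lit 1355313627),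
  Rx.mk (nat_lit 41) (nat_lit 1) (nat_lit 5) (nat_lit 0) (nat_lit 3) (nat_lit 289) (nat_lit 259) r10_289 r7_259 (nat_lit 0) (nat_lit 0) (nat_lit 5449534) (nat_lit 0x80029938e) (nat_lit 1079191358),
  Rx.mk (nat_lit 104) (nat_lit 0) (nat_lit 5) (nat_lit 1) (nat_lit 6) (nat_lit 287) (nat_lit 256) r10_287 r7_256 (nat_lit 5449534) (nat_lit 0) (nat_lit 0) (nat_lit 0x80029938e) (nat_lit 1079191358),
  Rx.mk (nat_lit 105) (nat_lit 1) (nat_lit 5) (nat_lit 1) (nat_lit 7) (nat_lit 290) (nat_lit 260) r10_290 r7_260 (nat_lit 0) (nat_lit 0) (nat_lit 0) (nat_lit 0x80029938e) (nat_lit 1073741824),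
  Rx.mk (nat_lit 136) (nat_lit 0) (nat_lit 1) (nat_lit 2) (nat_lit 6) (nat_lit 284) (nat_lit 258) r10_284 r7_258 (nat_lit 5449534) (nat_lit 0) (nat_lit 0) (nat_lit 0x80029938e) (nat_lit 1079191358),
  Rx.mk (nat_lit 137) (nat_lit 1) (nat_lit 1) (nat_lit 2) (nat_lit 7) (nat_lit 285) (nat_lit 262) r10_285 r7_262 (nat_lit 0) (nat_lit 0) (nat_lit 0) (nat_lit 0x80029938e) (nat_lit 1073741824),
  Rx.mk (nat_lit 168) (nat_lit 0) (nat_lit 5) (nat_lit 2) (nat_lit 6) (nat_lit 288) (nat_lit 257) r10_288 r7_257 (nat_lit 5449534) (nat_lit 0) (nat_lit 0) (nat_lit 0x80029938e) (nat_lit 1079191358),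
  Rx.mk (nat_lit 169) (nat_lit 1) (nat_lit 5) (nat_lit 2) (nat_lit 7) (nat_lit 291) (nat_lit 261) r10_291 r7_261 (nat_lit 0) (nat_lit 0) (nat_lit 0) (nat_lit 0x80029938e) (nat_lit 1073741824)]
noncomputable def e28_40 : List Rx := [
  Rx.mk (nat_lit 105) (nat_lit 1) (nat_lit 5) (nat_lit 1) (nat_lit 7) (nat_lit 323) (nat_lit 354) r10_323 r2_354 (nat_lit 0) (nat_lit 0) (nat_lit 0) (nat_lit 0x80029938e) (nat_lit 1073741824),
  Rx.mk (nat_lit 109) (nat_lit 5) (nat_lit 5) (nat_lit 1) (nat_lit 7) (nat_lit 324) (nat_lit 355) r10_324 r2_355 (nat_lit 0) (nat_lit 0) (nat_lit 0) (nat_lit 0x80029938e) (nat_lit 1073741824)]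
noncomputable def e28_41 : List Rx := [
  Rx.mk (nat_lit 105) (nat_lit 1) (nat_lit 5) (nat_lit 1) (nat_lit 7) (nat_lit 329) (nat_lit 317) r10_329 r9_317 (nat_lit 0) (nat_lit 0) (nat_lit 0) (nat_lit 0x80029938e) (nat_lit 1073741824),
  Rx.mk (nat_lit 109) (nat_lit 5) (nat_lit 5) (nat_lit 1) (nat_lit 7) (nat_lit 330) (nat_lit 318) r10_330 r9_318 (nat_lit 0) (nat_lit 0) (nat_lit 0) (nat_lit 0x80029938e) (nat_lit 1073741824)]
noncomputable def e28_42 : List Rx := [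
  Rx.mk (nat_lit 105) (nat_lit 1) (nat_lit 5) (nat_lit 1) (nat_lit 7) (nat_lit 331) (nat_lit 318) r10_331 r9_318 (nat_lit 0) (nat_lit 0) (nat_lit 0) (nat_lit 0x80029938e) (nat_lit 1073741824),
  Rx.mk (nat_lit 109) (nat_lit 5) (nat_lit 5) (nat_lit 1) (nat_lit 7) (nat_lit 332) (nat_lit 317) r10_332 r9_317 (nat_lit 0) (nat_lit 0) (nat_lit 0) (nat_lit 0x80029938e) (nat_lit 1073741824)]
noncomputable def e28_43 : List Rx := [
  Rx.mk (nat_lit 41) (nat_lit 1) (nat_lit 5) (nat_lit 0) (nat_lit 3) (nat_lit 320) (nat_lit 307) r10_320 r1_307 (nat_lit 0) (nat_lit 0) (nat_lit 5449534) (nat_lit 0x7f87d2d1c) (nat_lit 1087130658),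
  Rx.mk (nat_lit 105) (nat_lit 1) (nat_lit 5) (nat_lit 1) (nat_lit 7) (nat_lit 321) (nat_lit 308) r10_321 r1_308 (nat_lit 0) (nat_lit 0) (nat_lit 0) (nat_lit 0x80029938e) (nat_lit 1073741824),
  Rx.mk (nat_lit 169) (nat_lit 1) (nat_lit 5) (nat_lit 2) (nat_lit 7) (nat_lit 322) (nat_lit 309) r10_322 r1_309 (nat_lit 0) (nat_lit 0) (nat_lit 0) (nat_lit 0x80029938e) (nat_lit 1073741824)]
noncomputable def e28_44 : List Rx := [
  Rx.mk (nat_lit 41) (nat_lit 1) (nat_lit 5) (nat_lit 0) (nat_lit 3) (nat_lit 326) (nat_lit 194) r10_326 r8_194 (nat_lit 0) (nat_lit 0) (nat_lit 5449534) (nat_lit 0x80029938e) (nat_lit 1079191358),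
  Rx.mk (nat_lit 105) (nat_lit 1) (nat_lit 5) (nat_lit 1) (nat_lit 7) (nat_lit 327) (nat_lit 195) r10_327 r8_195 (nat_lit 0) (nat_lit 0) (nat_lit 0) (nat_lit 0x80029938e) (nat_lit 1073741824),
  Rx.mk (nat_lit 137) (nat_lit 1) (nat_lit 1) (nat_lit 2) (nat_lit 7) (nat_lit 325) (nat_lit 197) r10_325 r8_197 (nat_lit 0) (nat_lit 0) (nat_lit 0) (nat_lit 0x80029938e) (nat_lit 1073741824),
  Rx.mk (nat_lit 169) (nat_lit 1) (nat_lit 5) (nat_lit 2) (nat_lit 7) (nat_lit 328) (nat_lit 196) r10_328 r8_196 (nat_lit 0) (nat_lit 0) (nat_lit 0) (nat_lit 0x80029938e) (nat_lit 1073741824)]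
noncomputable def e28_45 : List Rx := [
  Rx.mk (nat_lit 136) (nat_lit 0) (nat_lit 1) (nat_lit 2) (nat_lit 6) (nat_lit 314) (nat_lit 217) r10_314 r1_217 (nat_lit 19618759) (nat_lit 0) (nat_lit 0) (nat_lit 0x8216578f6) (nat_lit 1059686783),
  Rx.mk (nat_lit 138) (nat_lit 2) (nat_lit 1) (nat_lit 2) (nat_lit 7) (nat_lit 315) (nat_lit 219) r10_315 r1_219 (nat_lit 0) (nat_lit 0) (nat_lit 0) (nat_lit 0x808e6d8b0) (nat_lit 1064845524),
  Rx.mk (nat_lit 139) (nat_lit 3) (nat_lit 1) (nat_lit 2) (nat_lit 7) (nat_lit 316) (nat_lit 218) r10_316 r1_218 (nat_lit 0) (nat_lit 0) (nat_lit 0) (nat_lit 0x80029938e) (nat_lit 1073741824)]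
noncomputable def e28_46 : List Rx := [
  Rx.mk (nat_lit 128) (nat_lit 0) (nat_lit 0) (nat_lit 2) (nat_lit 4) (nat_lit 292) (nat_lit 230) r10_292 r2_230 (nat_lit 4401173) (nat_lit 2760723) (nat_lit 0) (nat_lit 0x6c070f076) (nat_lit 1413974020),
  Rx.mk (nat_lit 130) (nat_lit 2) (nat_lit 0) (nat_lit 2) (nat_lit 5) (nat_lit 293) (nat_lit 235) r10_293 r2_235 (nat_lit 0) (nat_lit 5449534) (nat_lit 0) (nat_lit 0x80029938e) (nat_lit 1079191358),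
  Rx.mk (nat_lit 131) (nat_lit 3) (nat_lit 0) (nat_lit 2) (nat_lit 5) (nat_lit 294) (nat_lit 232) r10_294 r2_232 (nat_lit 0) (nat_lit 5449534) (nat_lit 0) (nat_lit 0x80029938e) (nat_lit 1079191358),
  Rx.mk (nat_lit 136) (nat_lit 0) (nat_lit 1) (nat_lit 2) (nat_lit 6) (nat_lit 295) (nat_lit 231) r10_295 r2_231 (nat_lit 5449534) (nat_lit 0) (nat_lit 0) (nat_lit 0x80029938e) (nat_lit 1079191358),
  Rx.mk (nat_lit 138) (nat_lit 2) (nat_lit 1) (nat_lit 2) (nat_lit 7) (nat_lit 296) (nat_lit 236) r10_296 r2_236 (nat_lit 0) (nat_lit 0) (nat_lit 0) (nat_lit 0x80029938e) (nat_lit 1073741824),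
  Rx.mk (nat_lit 139) (nat_lit 3) (nat_lit 1) (nat_lit 2) (nat_lit 7) (nat_lit 297) (nat_lit 233) r10_297 r2_233 (nat_lit 0) (nat_lit 0) (nat_lit 0) (nat_lit 0x80029938e) (nat_lit 1073741824),
  Rx.mk (nat_lit 155) (nat_lit 3) (nat_lit 3) (nat_lit 2) (nat_lit 7) (nat_lit 298) (nat_lit 234) r10_298 r2_234 (nat_lit 0) (nat_lit 0) (nat_lit 0) (nat_lit 0x80029938e) (nat_lit 1073741824)]
noncomputable def e28_47 : List Rx := [
  Rx.mk (nat_lit 136) (nat_lit 0) (nat_lit 1) (nat_lit 2) (nat_lit 6) (nat_lit 317) (nat_lit 355) r10_317 r8_355 (nat_lit 5449534) (nat_lit 0) (nat_lit 0) (nat_lit 0x80029938e) (nat_lit 1079191358),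
  Rx.mk (nat_lit 137) (nat_lit 1) (nat_lit 1) (nat_lit 2) (nat_lit 7) (nat_lit 318) (nat_lit 356) r10_318 r8_356 (nat_lit 0) (nat_lit 0) (nat_lit 0) (nat_lit 0x80029938e) (nat_lit 1073741824),
  Rx.mk (nat_lit 138) (nat_lit 2) (nat_lit 1) (nat_lit 2) (nat_lit 7) (nat_lit 319) (nat_lit 357) r10_319 r8_357 (nat_lit 0) (nat_lit 0) (nat_lit 0) (nat_lit 0x80029938e) (nat_lit 1073741824)]
noncomputable def e28_48 : List Rx := [
  Rx.mk (nat_lit 128) (nat_lit 0) (nat_lit 0) (nat_lit 2) (nat_lit 4) (nat_lit 299) (nat_lit 209) r10_299 r9_209 (nat_lit 9287694) (nat_lit 8521077) (nat_lit 0) (nat_lit 0x702db6ffe) (nat_lit 1355425695),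
  Rx.mk (nat_lit 130) (nat_lit 2) (nat_lit 0) (nat_lit 2) (nat_lit 5) (nat_lit 300) (nat_lit 212) r10_300 r9_212 (nat_lit 0) (nat_lit 5449534) (nat_lit 0) (nat_lit 0x7fff35b2a) (nat_lit 1079408658),
  Rx.mk (nat_lit 136) (nat_lit 0) (nat_lit 1) (nat_lit 2) (nat_lit 6) (nat_lit 301) (nat_lit 210) r10_301 r9_210 (nat_lit 5449534) (nat_lit 0) (nat_lit 0) (nat_lit 0x80029938e) (nat_lit 1079191358),
  Rx.mk (nat_lit 137) (nat_lit 1) (nat_lit 1) (nat_lit 2) (nat_lit 7) (nat_lit 302) (nat_lit 211) r10_302 r9_211 (nat_lit 0) (nat_lit 0) (nat_lit 0) (nat_lit 0x80029938e) (nat_lit 1073741824),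
  Rx.mk (nat_lit 138) (nat_lit 2) (nat_lit 1) (nat_lit 2) (nat_lit 7) (nat_lit 303) (nat_lit 213) r10_303 r9_213 (nat_lit 0) (nat_lit 0) (nat_lit 0) (nat_lit 0x80029938e) (nat_lit 1073741824)]
noncomputable def e28_49 : List Rx := [
  Rx.mk (nat_lit 128) (nat_lit 0) (nat_lit 0) (nat_lit 2) (nat_lit 4) (nat_lit 304) (nat_lit 136) r10_304 r9_136 (nat_lit 10854105) (nat_lit 8967556) (nat_lit 0) (nat_lit 0x6c3b432d4) (nat_lit 1423247285),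
  Rx.mk (nat_lit 130) (nat_lit 2) (nat_lit 0) (nat_lit 2) (nat_lit 5) (nat_lit 305) (nat_lit 141) r10_305 r9_141 (nat_lit 0) (nat_lit 5449534) (nat_lit 0) (nat_lit 0x7ffe55638) (nat_lit 1079464858),
  Rx.mk (nat_lit 131) (nat_lit 3) (nat_lit 0) (nat_lit 2) (nat_lit 5) (nat_lit 307) (nat_lit 138) r10_307 r9_138 (nat_lit 0) (nat_lit 5449534) (nat_lit 0) (nat_lit 0x80029938e) (nat_lit 1079191358),
  Rx.mk (nat_lit 136) (nat_lit 0) (nat_lit 1) (nat_lit 2) (nat_lit 6) (nat_lit 308) (nat_lit 137) r10_308 r9_137 (nat_lit 5449534) (nat_lit 0) (nat_lit 0) (nat_lit 0x80029938e) (nat_lit 1079191358),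
  Rx.mk (nat_lit 138) (nat_lit 2) (nat_lit 1) (nat_lit 2) (nat_lit 7) (nat_lit 309) (nat_lit 142) r10_309 r9_142 (nat_lit 0) (nat_lit 0) (nat_lit 0) (nat_lit 0x80029938e) (nat_lit 1073741824),
  Rx.mk (nat_lit 139) (nat_lit 3) (nat_lit 1) (nat_lit 2) (nat_lit 7) (nat_lit 311) (nat_lit 139) r10_311 r9_139 (nat_lit 0) (nat_lit 0) (nat_lit 0) (nat_lit 0x80029938e) (nat_lit 1073741824),
  Rx.mk (nat_lit 155) (nat_lit 3) (nat_lit 3) (nat_lit 2) (nat_lit 7) (nat_lit 313) (nat_lit 140) r10_313 r9_140 (nat_lit 0) (nat_lit 0) (nat_lit 0) (nat_lit 0x80029938e) (nat_lit 1073741824),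
  Rx.mk (nat_lit 386) (nat_lit 2) (nat_lit 0) (nat_lit 6) (nat_lit 5) (nat_lit 306) (nat_lit 143) r10_306 r9_143 (nat_lit 0) (nat_lit 5449534) (nat_lit 0) (nat_lit 0x80029938e) (nat_lit 1079191358),
  Rx.mk (nat_lit 394) (nat_lit 2) (nat_lit 1) (nat_lit 6) (nat_lit 7) (nat_lit 310) (nat_lit 144) r10_310 r9_144 (nat_lit 0) (nat_lit 0) (nat_lit 0) (nat_lit 0x80029938e) (nat_lit 1073741824),
  Rx.mk (nat_lit 402) (nat_lit 2) (nat_lit 2) (nat_lit 6) (nat_lit 7) (nat_lit 312) (nat_lit 145) r10_312 r9_145 (nat_lit 0) (nat_lit 0) (nat_lit 0) (nat_lit 0x80029938e) (nat_lit 1073741824)]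
noncomputable def e28_50 : List Rx := [
  Rx.mk (nat_lit 40) (nat_lit 0) (nat_lit 5) (nat_lit 0) (nat_lit 2) (nat_lit 333) (nat_lit 180) r10_333 r3_180 (nat_lit 15756) (nat_lit 0) (nat_lit 22262) (nat_lit 0x62ad48e7e) (nat_lit 1562688942),
  Rx.mk (nat_lit 43) (nat_lit 3) (nat_lit 5) (nat_lit 0) (nat_lit 3) (nat_lit 336) (nat_lit 183) r10_336 r3_183 (nat_lit 0) (nat_lit 0) (nat_lit 96051) (nat_lit 0x88974f8cc) (nat_lit 934938275),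
  Rx.mk (nat_lit 104) (nat_lit 0) (nat_lit 5) (nat_lit 1) (nat_lit 6) (nat_lit 334) (nat_lit 181) r10_334 r3_181 (nat_lit 14524810) (nat_lit 0) (nat_lit 0) (nat_lit 0x7f58f3384) (nat_lit 1099247534),
  Rx.mk (nat_lit 107) (nat_lit 3) (nat_lit 5) (nat_lit 1) (nat_lit 7) (nat_lit 337) (nat_lit 184) r10_337 r3_184 (nat_lit 0) (nat_lit 0) (nat_lit 0) (nat_lit 0x9b76b2354) (nat_lit 629711124),
  Rx.mk (nat_lit 168) (nat_lit 0) (nat_lit 5) (nat_lit 2) (nat_lit 6) (nat_lit 335) (nat_lit 182) r10_335 r3_182 (nat_lit 8861734) (nat_lit 0) (nat_lit 0) (nat_lit 0x7fb3a6038) (nat_lit 1087701158),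
  Rx.mk (nat_lit 171) (nat_lit 3) (nat_lit 5) (nat_lit 2) (nat_lit 7) (nat_lit 338) (nat_lit 185) r10_338 r3_185 (nat_lit 0) (nat_lit 0) (nat_lit 0) (nat_lit 0x9b76b3d44) (nat_lit 629710724)]
noncomputable def e28_51 : List Rx := [
  Rx.mk (nat_lit 40) (nat_lit 0) (nat_lit 5) (nat_lit 0) (nat_lit 2) (nat_lit 351) (nat_lit 181) r10_351 r4_181 (nat_lit 5552411) (nat_lit 0) (nat_lit 2071508) (nat_lit 0x6601e5042) (nat_lit 1514816043),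
  Rx.mk (nat_lit 43) (nat_lit 3) (nat_lit 5) (nat_lit 0) (nat_lit 3) (nat_lit 354) (nat_lit 184) r10_354 r4_184 (nat_lit 0) (nat_lit 0) (nat_lit 1895394) (nat_lit 0x80303ef3c) (nat_lit 1072711218),
  Rx.mk (nat_lit 104) (nat_lit 0) (nat_lit 5) (nat_lit 1) (nat_lit 6) (nat_lit 352) (nat_lit 182) r10_352 r4_182 (nat_lit 4412645) (nat_lit 0) (nat_lit 0) (nat_lit 0x802289f68) (nat_lit 1076111669),
  Rx.mk (nat_lit 107) (nat_lit 3) (nat_lit 5) (nat_lit 1) (nat_lit 7) (nat_lit 355) (nat_lit 185) r10_355 r4_185 (nat_lit 0) (nat_lit 0) (nat_lit 0) (nat_lit 0x805b35a60) (nat_lit 1068092224),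
  Rx.mk (nat_lit 139) (nat_lit 3) (nat_lit 1) (nat_lit 2) (nat_lit 7) (nat_lit 350) (nat_lit 187) r10_350 r4_187 (nat_lit 0) (nat_lit 0) (nat_lit 0) (nat_lit 0x8018b37f0) (nat_lit 1072325924),
  Rx.mk (nat_lit 168) (nat_lit 0) (nat_lit 5) (nat_lit 2) (nat_lit 6) (nat_lit 353) (nat_lit 183) r10_353 r4_183 (nat_lit 5474881) (nat_lit 0) (nat_lit 0) (nat_lit 0x7fdff8ef6) (nat_lit 1081440905),
  Rx.mk (nat_lit 171) (nat_lit 3) (nat_lit 5) (nat_lit 2) (nat_lit 7) (nat_lit 356) (nat_lit 186) r10_356 r4_186 (nat_lit 0) (nat_lit 0) (nat_lit 0) (nat_lit 0x805b35a60) (nat_lit 1068092224)]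
noncomputable def e28_52 : List Rx := [
  Rx.mk (nat_lit 40) (nat_lit 0) (nat_lit 5) (nat_lit 0) (nat_lit 2) (nat_lit 369) (nat_lit 197) r10_369 r5_197 (nat_lit 5696356) (nat_lit 0) (nat_lit 1601519) (nat_lit 0x726966d0e) (nat_lit 1307672399),
  Rx.mk (nat_lit 43) (nat_lit 3) (nat_lit 5) (nat_lit 0) (nat_lit 3) (nat_lit 371) (nat_lit 199) r10_371 r5_199 (nat_lit 0) (nat_lit 0) (nat_lit 1673969) (nat_lit 0x80ad5689e) (nat_lit 1064560193),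
  Rx.mk (nat_lit 168) (nat_lit 0) (nat_lit 5) (nat_lit 2) (nat_lit 6) (nat_lit 370) (nat_lit 198) r10_370 r5_198 (nat_lit 5449534) (nat_lit 0) (nat_lit 0) (nat_lit 0x8011b0cbe) (nat_lit 1078224358),
  Rx.mk (nat_lit 171) (nat_lit 3) (nat_lit 5) (nat_lit 2) (nat_lit 7) (nat_lit 372) (nat_lit 201) r10_372 r5_201 (nat_lit 0) (nat_lit 0) (nat_lit 0) (nat_lit 0x803e42840) (nat_lit 1069931224),
  Rx.mk (nat_lit 235) (nat_lit 3) (nat_lit 5) (nat_lit 3) (nat_lit 7) (nat_lit 373) (nat_lit 200) r10_373 r5_200 (nat_lit 0) (nat_lit 0) (nat_lit 0) (nat_lit 0x80029938e) (nat_lit 1073741824)]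
noncomputable def e28_53 : List Rx := [
  Rx.mk (nat_lit 40) (nat_lit 0) (nat_lit 5) (nat_lit 0) (nat_lit 2) (nat_lit 339) (nat_lit 355) r10_339 r4_355 (nat_lit 6309114) (nat_lit 0) (nat_lit 8253129) (nat_lit 0x750b231e0) (nat_lit 1271062467),
  Rx.mk (nat_lit 41) (nat_lit 1) (nat_lit 5) (nat_lit 0) (nat_lit 3) (nat_lit 342) (nat_lit 356) r10_342 r4_356 (nat_lit 0) (nat_lit 0) (nat_lit 5449534) (nat_lit 0x800d8cc28) (nat_lit 1078489458),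
  Rx.mk (nat_lit 43) (nat_lit 3) (nat_lit 5) (nat_lit 0) (nat_lit 3) (nat_lit 345) (nat_lit 357) r10_345 r4_357 (nat_lit 0) (nat_lit 0) (nat_lit 4709985) (nat_lit 0x8005c37ee) (nat_lit 1078247509),
  Rx.mk (nat_lit 104) (nat_lit 0) (nat_lit 5) (nat_lit 1) (nat_lit 6) (nat_lit 340) (nat_lit 358) r10_340 r4_358 (nat_lit 3972091) (nat_lit 0) (nat_lit 0) (nat_lit 0x8021df644) (nat_lit 1075712715),
  Rx.mk (nat_lit 105) (nat_lit 1) (nat_lit 5) (nat_lit 1) (nat_lit 7) (nat_lit 343) (nat_lit 359) r10_343 r4_359 (nat_lit 0) (nat_lit 0) (nat_lit 0) (nat_lit 0x80029938e) (nat_lit 1073741824),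
  Rx.mk (nat_lit 107) (nat_lit 3) (nat_lit 5) (nat_lit 1) (nat_lit 7) (nat_lit 346) (nat_lit 360) r10_346 r4_360 (nat_lit 0) (nat_lit 0) (nat_lit 0) (nat_lit 0x80029938e) (nat_lit 1073741824),
  Rx.mk (nat_lit 168) (nat_lit 0) (nat_lit 5) (nat_lit 2) (nat_lit 6) (nat_lit 341) (nat_lit 361) r10_341 r4_361 (nat_lit 6376611) (nat_lit 0) (nat_lit 0) (nat_lit 0x8010e4d9e) (nat_lit 1079201535),
  Rx.mk (nat_lit 169) (nat_lit 1) (nat_lit 5) (nat_lit 2) (nat_lit 7) (nat_lit 344) (nat_lit 362) r10_344 r4_362 (nat_lit 0) (nat_lit 0) (nat_lit 0) (nat_lit 0x80029938e) (nat_lit 1073741824)]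
noncomputable def e28_54 : List Rx := [
  Rx.mk (nat_lit 40) (nat_lit 0) (nat_lit 5) (nat_lit 0) (nat_lit 2) (nat_lit 357) (nat_lit 198) r10_357 r10_198 (nat_lit 896959) (nat_lit 0) (nat_lit 896959) (nat_lit 0x73f86edfc) (nat_lit 1276180142),
  Rx.mk (nat_lit 41) (nat_lit 1) (nat_lit 5) (nat_lit 0) (nat_lit 3) (nat_lit 360) (nat_lit 201) r10_360 r10_201 (nat_lit 0) (nat_lit 0) (nat_lit 5449534) (nat_lit 0x80029938e) (nat_lit 1079191358),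
  Rx.mk (nat_lit 43) (nat_lit 3) (nat_lit 5) (nat_lit 0) (nat_lit 3) (nat_lit 363) (nat_lit 204) r10_363 r10_204 (nat_lit 0) (nat_lit 0) (nat_lit 5449534) (nat_lit 0x80029938e) (nat_lit 1079191358),
  Rx.mk (nat_lit 104) (nat_lit 0) (nat_lit 5) (nat_lit 1) (nat_lit 6) (nat_lit 358) (nat_lit 199) r10_358 r10_199 (nat_lit 5449534) (nat_lit 0) (nat_lit 0) (nat_lit 0x80029938e) (nat_lit 1079191358),
  Rx.mk (nat_lit 105) (nat_lit 1) (nat_lit 5) (nat_lit 1) (nat_lit 7) (nat_lit 361) (nat_lit 202) r10_361 r10_202 (nat_lit 0) (nat_lit 0) (nat_lit 0) (nat_lit 0x80029938e) (nat_lit 1073741824),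
  Rx.mk (nat_lit 107) (nat_lit 3) (nat_lit 5) (nat_lit 1) (nat_lit 7) (nat_lit 364) (nat_lit 205) r10_364 r10_205 (nat_lit 0) (nat_lit 0) (nat_lit 0) (nat_lit 0x80029938e) (nat_lit 1073741824),
  Rx.mk (nat_lit 168) (nat_lit 0) (nat_lit 5) (nat_lit 2) (nat_lit 6) (nat_lit 359) (nat_lit 200) r10_359 r10_200 (nat_lit 5449534) (nat_lit 0) (nat_lit 0) (nat_lit 0x80029938e) (nat_lit 1079191358),
  Rx.mk (nat_lit 169) (nat_lit 1) (nat_lit 5) (nat_lit 2) (nat_lit 7) (nat_lit 362) (nat_lit 203) r10_362 r10_203 (nat_lit 0) (nat_lit 0) (nat_lit 0) (nat_lit 0x80029938e) (nat_lit 1073741824)]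
noncomputable def e28_55 : List Rx := [
  Rx.mk (nat_lit 40) (nat_lit 0) (nat_lit 5) (nat_lit 0) (nat_lit 2) (nat_lit 374) (nat_lit 230) r10_374 r11_230 (nat_lit 47198871) (nat_lit 0) (nat_lit 11437609) (nat_lit 0x7dbac8fc0) (nat_lit 1170319804),
  Rx.mk (nat_lit 41) (nat_lit 1) (nat_lit 5) (nat_lit 0) (nat_lit 3) (nat_lit 376) (nat_lit 232) r10_376 r11_232 (nat_lit 0) (nat_lit 0) (nat_lit 5449534) (nat_lit 0x80029938e) (nat_lit 1079191358),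
  Rx.mk (nat_lit 43) (nat_lit 3) (nat_lit 5) (nat_lit 0) (nat_lit 3) (nat_lit 378) (nat_lit 234) r10_378 r11_234 (nat_lit 0) (nat_lit 0) (nat_lit 5449534) (nat_lit 0x80029938e) (nat_lit 1079191358),
  Rx.mk (nat_lit 168) (nat_lit 0) (nat_lit 5) (nat_lit 2) (nat_lit 6) (nat_lit 375) (nat_lit 231) r10_375 r11_231 (nat_lit 5449534) (nat_lit 0) (nat_lit 0) (nat_lit 0x800b95050) (nat_lit 1078615158),
  Rx.mk (nat_lit 169) (nat_lit 1) (nat_lit 5) (nat_lit 2) (nat_lit 7) (nat_lit 377) (nat_lit 233) r10_377 r11_233 (nat_lit 0) (nat_lit 0) (nat_lit 0) (nat_lit 0x80029938e) (nat_lit 1073741824),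
  Rx.mk (nat_lit 235) (nat_lit 3) (nat_lit 5) (nat_lit 3) (nat_lit 7) (nat_lit 379) (nat_lit 235) r10_379 r11_235 (nat_lit 0) (nat_lit 0) (nat_lit 0) (nat_lit 0x80029938e) (nat_lit 1073741824)]
noncomputable def e28_56 : List Rx := [
  Rx.mk (nat_lit 43) (nat_lit 3) (nat_lit 5) (nat_lit 0) (nat_lit 3) (nat_lit 347) (nat_lit 307) r10_347 r5_307 (nat_lit 0) (nat_lit 0) (nat_lit 1799061) (nat_lit 0x8019a878c) (nat_lit 1074055785),
  Rx.mk (nat_lit 107) (nat_lit 3) (nat_lit 5) (nat_lit 1) (nat_lit 7) (nat_lit 348) (nat_lit 308) r10_348 r5_308 (nat_lit 0) (nat_lit 0) (nat_lit 0) (nat_lit 0x804b7b61a) (nat_lit 1069091624),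
  Rx.mk (nat_lit 171) (nat_lit 3) (nat_lit 5) (nat_lit 2) (nat_lit 7) (nat_lit 349) (nat_lit 309) r10_349 r5_309 (nat_lit 0) (nat_lit 0) (nat_lit 0) (nat_lit 0x804b7c312) (nat_lit 1069091424)]
noncomputable def e28_57 : List Rx := [
  Rx.mk (nat_lit 43) (nat_lit 3) (nat_lit 5) (nat_lit 0) (nat_lit 3) (nat_lit 366) (nat_lit 361) r10_366 r11_361 (nat_lit 0) (nat_lit 0) (nat_lit 2407548) (nat_lit 0x806441ffa) (nat_lit 1069926072),
  Rx.mk (nat_lit 107) (nat_lit 3) (nat_lit 5) (nat_lit 1) (nat_lit 7) (nat_lit 367) (nat_lit 362) r10_367 r11_362 (nat_lit 0) (nat_lit 0) (nat_lit 0) (nat_lit 0x803403b68) (nat_lit 1070584224),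
  Rx.mk (nat_lit 139) (nat_lit 3) (nat_lit 1) (nat_lit 2) (nat_lit 7) (nat_lit 365) (nat_lit 360) r10_365 r11_360 (nat_lit 0) (nat_lit 0) (nat_lit 0) (nat_lit 0x80029938e) (nat_lit 1073741824),
  Rx.mk (nat_lit 171) (nat_lit 3) (nat_lit 5) (nat_lit 2) (nat_lit 7) (nat_lit 368) (nat_lit 363) r10_368 r11_363 (nat_lit 0) (nat_lit 0) (nat_lit 0) (nat_lit 0x803403b68) (nat_lit 1070584224)]
noncomputable def e28 : List (List Rx) := [e28_0, e28_1, e28_2, e28_3, e28_4, e28_5, e28_6, e28_7, e28_8, e28_9, e28_10, e28_11, e28_12, e28_13, e28_14, e28_15, e28_16, e28_17, e28_18, e28_19, e28_20, e28_21, e28_22, e28_23, e28_24, e28_25, e28_26, e28_27, e28_28, e28_29, e28_30, e28_31, e28_32, e28_33, e28_34, e28_35, e28_36, e28_37, e28_38, e28_39, e28_40, e28_41, e28_42, e28_43, e28_44, e28_45, e28_46, e28_47, e28_48, e28_49, e28_50, e28_51, e28_52, e28_53, e28_54, e28_55,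 e28_56, e28_57]

end Pool.Agent.AKXS_34_39_VA
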