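import Pool.Agent.AKXS_34_39_VA.R0
import Pool.Agent.AKXS_34_39_VA.R1
import Pool.Agent.AKXS_34_39_VA.R2
import Pool.Agent.AKXS_34_39_VA.R3
import Pool.Agent.AKXS_34_39_VA.R4
import Pool.Agent.AKXS_34_39_VA.R5
import Pool.Agent.AKXS_34_39_VA.R6
import Pool.Agent.AKXS_34_39_VA.R7
import Pool.Agent.AKXS_34_39_VA.R8
import Pool.Agent.AKXS_34_39_VA.R9
import Pool.Agent.AKXS_34_39_VA.R10
import Pool.Agent.AKXS_34_39_VA.R11
import Pool.Agent.AKXS_34_39_VA.R12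

set_option autoImplicit false

namespace Pool.Agent.AKXS_34_39_VA

open Pool.Agent.AKX Pool.Agent.AKU

noncomputable def e29_0 : List Rx := [
  Rx.mk (nat_lit 100) (nat_lit 4) (nat_lit 4) (nat_lit 1) (nat_lit 4) (nat_lit 37) (nat_lit 200) r11_37 r0_200 (nat_lit 314732184) (nat_lit 9426144) (nat_lit 0) (nat_lit 0x70c471818) (nat_lit 1651954452),
  Rx.mk (nat_lit 108) (nat_lit 4) (nat_lit 5) (nat_lit 1) (nat_lit 6) (nat_lit 38) (nat_lit 201) r11_38 r0_201 (nat_lit 5592935) (nat_lit 0) (nat_lit 0) (nat_lit 0x802afe752) (nat_lit 1076749759),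
  Rx.mk (nat_lit 116) (nat_lit 4) (nat_lit 6) (nat_lit 1) (nat_lit 6) (nat_lit 39) (nat_lit 202) r11_39 r0_202 (nat_lit 104895094) (nat_lit 0) (nat_lit 0) (nat_lit 0x801d36fca) (nat_lit 1176912118),
  Rx.mk (nat_lit 118) (nat_lit 6) (nat_lit 6) (nat_lit 1) (nat_lit 7) (nat_lit 40) (nat_lit 203) r11_40 r0_203 (nat_lit 0) (nat_lit 0) (nat_lit 0) (nat_lit 0x813820826) (nat_lit 1054113624)]
noncomputable def e29_1 : List Rx := [
  Rx.mk (nat_lit 100) (nat_lit 4) (nat_lit 4) (nat_lit 1) (nat_lit 4) (nat_lit 41) (nat_lit 220) r11_41 r1_220 (nat_lit 142725965) (nat_lit 167522575) (nat_lit 0) (nat_lit 0x71fbb1be2) (nat_lit 1617776664),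
  Rx.mk (nat_lit 108) (nat_lit 4) (nat_lit 5) (nat_lit 1) (nat_lit 6) (nat_lit 42) (nat_lit 221) r11_42 r1_221 (nat_lit 5449534) (nat_lit 0) (nat_lit 0) (nat_lit 0x80131b900) (nat_lit 1078133458),
  Rx.mk (nat_lit 116) (nat_lit 4) (nat_lit 6) (nat_lit 1) (nat_lit 6) (nat_lit 43) (nat_lit 222) r11_43 r1_222 (nat_lit 6392805) (nat_lit 0) (nat_lit 0) (nat_lit 0x807f8d502) (nat_lit 1072177929),
  Rx.mk (nat_lit 118) (nat_lit 6) (nat_lit 6) (nat_lit 1) (nat_lit 7) (nat_lit 44) (nat_lit 223) r11_44 r1_223 (nat_lit 0) (nat_lit 0) (nat_lit 0) (nat_lit 0x806ebd592) (nat_lit 1066852524),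
  Rx.mk (nat_lit 374) (nat_lit 6) (nat_lit 6) (nat_lit 5) (nat_lit 7) (nat_lit 45) (nat_lit 224) r11_45 r1_224 (nat_lit 0) (nat_lit 0) (nat_lit 0) (nat_lit 0x803f6ccf2) (nat_lit 1069856624)]
noncomputable def e29_2 : List Rx := [
  Rx.mk (nat_lit 374) (nat_lit 6) (nat_lit 6) (nat_lit 5) (nat_lit 7) (nat_lit 5) (nat_lit 237) r11_5 r2_237 (nat_lit 0) (nat_lit 0) (nat_lit 0) (nat_lit 0x80029938e) (nat_lit 1073741824)]
noncomputable def e29_3 : List Rx := [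
  Rx.mk (nat_lit 36) (nat_lit 4) (nat_lit 4) (nat_lit 0) (nat_lit 0) (nat_lit 19) (nat_lit 186) r11_19 r3_186 (nat_lit 13405) (nat_lit 14728) (nat_lit 10953) (nat_lit 0x4ae9c72d2) (nat_lit 1958901310),
  Rx.mk (nat_lit 39) (nat_lit 7) (nat_lit 4) (nat_lit 0) (nat_lit 1) (nat_lit 22) (nat_lit 194) r11_22 r3_194 (nat_lit 0) (nat_lit 670112) (nat_lit 549568) (nat_lit 0x69e9acd0a) (nat_lit 1443278804),
  Rx.mk (nat_lit 44) (nat_lit 4) (nat_lit 5) (nat_lit 0) (nat_lit 2) (nat_lit 25) (nat_lit 189) r11_25 r3_189 (nat_lit 280142) (nat_lit 0) (nat_lit 2392413) (nat_lit 0x66a75eea6) (nat_lit 1499043279),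
  Rx.mk (nat_lit 47) (nat_lit 7) (nat_lit 5) (nat_lit 0) (nat_lit 3) (nat_lit 28) (nat_lit 197) r11_28 r3_197 (nat_lit 0) (nat_lit 0) (nat_lit 2769157) (nat_lit 0x7fe0aa2aa) (nat_lit 1078693281),
  Rx.mk (nat_lit 52) (nat_lit 4) (nat_lit 6) (nat_lit 0) (nat_lit 2) (nat_lit 31) (nat_lit 192) r11_31 r3_192 (nat_lit 186023355) (nat_lit 0) (nat_lit 142575) (nat_lit 0x6ffd0fa54) (nat_lit 1526896154),
  Rx.mk (nat_lit 54) (nat_lit 6) (nat_lit 6) (nat_lit 0) (nat_lit 3) (nat_lit 33) (nat_lit 202) r11_33 r3_202 (nat_lit 0) (nat_lit 0) (nat_lit 5449534) (nat_lit 0x7edae2d3c) (nat_lit 1098382458),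
  Rx.mk (nat_lit 55) (nat_lit 7) (nat_lit 6) (nat_lit 0) (nat_lit 3) (nat_lit 35) (nat_lit 200) r11_35 r3_200 (nat_lit 0) (nat_lit 0) (nat_lit 2583324) (nat_lit 0x8001e2788) (nat_lit 1076364148),
  Rx.mk (nat_lit 100) (nat_lit 4) (nat_lit 4) (nat_lit 1) (nat_lit 4) (nat_lit 20) (nat_lit 187) r11_20 r3_187 (nat_lit 4197450) (nat_lit 10345631) (nat_lit 0) (nat_lit 0x687798d28) (nat_lit 1480729305),
  Rx.mk (nat_lit 103) (nat_lit 7) (nat_lit 4) (nat_lit 1) (nat_lit 5) (nat_lit 23) (nat_lit 195) r11_23 r3_195 (nat_lit 0) (nat_lit 1833420) (nat_lit 0) (nat_lit 0x80fbf3f4c) (nat_lit 1059750544),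
  Rx.mk (nat_lit 108) (nat_lit 4) (nat_lit 5) (nat_lit 1) (nat_lit 6) (nat_lit 26) (nat_lit 190) r11_26 r3_190 (nat_lit 5449534) (nat_lit 0) (nat_lit 0) (nat_lit 0x80029938e) (nat_lit 1079191358),
  Rx.mk (nat_lit 111) (nat_lit 7) (nat_lit 5) (nat_lit 1) (nat_lit 7) (nat_lit 29) (nat_lit 198) r11_29 r3_198 (nat_lit 0) (nat_lit 0) (nat_lit 0) (nat_lit 0x8029b3c76) (nat_lit 1071240424),
  Rx.mk (nat_lit 116) (nat_lit 4) (nat_lit 6) (nat_lit 1) (nat_lit 6) (nat_lit 32) (nat_lit 193) r11_32 r3_193 (nat_lit 5985185) (nat_lit 0) (nat_lit 0) (nat_lit 0x8004716b6) (nat_lit 1079607809),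
  Rx.mk (nat_lit 118) (nat_lit 6) (nat_lit 6) (nat_lit 1) (nat_lit 7) (nat_lit 34) (nat_lit 203) r11_34 r3_203 (nat_lit 0) (nat_lit 0) (nat_lit 0) (nat_lit 0x80029938e) (nat_lit 1073741824),
  Rx.mk (nat_lit 119) (nat_lit 7) (nat_lit 6) (nat_lit 1) (nat_lit 7) (nat_lit 36) (nat_lit 201) r11_36 r3_201 (nat_lit 0) (nat_lit 0) (nat_lit 0) (nat_lit 0x8029b3c76) (nat_lit 1071240424),
  Rx.mk (nat_lit 164) (nat_lit 4) (nat_lit 4) (nat_lit 2) (nat_lit 4) (nat_lit 21) (nat_lit 188) r11_21 r3_188 (nat_lit 30752625) (nat_lit 6307296) (nat_lit 0) (nat_lit 0x70f1635ce) (nat_lit 1361931145),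
  Rx.mk (nat_lit 167) (nat_lit 7) (nat_lit 4) (nat_lit 2) (nat_lit 5) (nat_lit 24) (nat_lit 196) r11_24 r3_196 (nat_lit 0) (nat_lit 1201223) (nat_lit 0) (nat_lit 0x8079a638c) (nat_lit 1067378647),
  Rx.mk (nat_lit 172) (nat_lit 4) (nat_lit 5) (nat_lit 2) (nat_lit 6) (nat_lit 27) (nat_lit 191) r11_27 r3_191 (nat_lit 5203886) (nat_lit 0) (nat_lit 0) (nat_lit 0x7ffd2d666) (nat_lit 1079291910),
  Rx.mk (nat_lit 175) (nat_lit 7) (nat_lit 5) (nat_lit 2) (nat_lit 7) (nat_lit 30) (nat_lit 199) r11_30 r3_199 (nat_lit 0) (nat_lit 0) (nat_lit 0) (nat_lit 0x8029b3c76) (nat_lit 1071240424)]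
noncomputable def e29_4 : List Rx := [
  Rx.mk (nat_lit 100) (nat_lit 4) (nat_lit 4) (nat_lit 1) (nat_lit 4) (nat_lit 46) (nat_lit 188) r11_46 r4_188 (nat_lit 6612068) (nat_lit 6680725) (nat_lit 0) (nat_lit 0x79a993826) (nat_lit 1192788117),
  Rx.mk (nat_lit 103) (nat_lit 7) (nat_lit 4) (nat_lit 1) (nat_lit 5) (nat_lit 47) (nat_lit 191) r11_47 r4_191 (nat_lit 0) (nat_lit 2822132) (nat_lit 0) (nat_lit 0x80298ddc8) (nat_lit 1074069156),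
  Rx.mk (nat_lit 108) (nat_lit 4) (nat_lit 5) (nat_lit 1) (nat_lit 6) (nat_lit 48) (nat_lit 189) r11_48 r4_189 (nat_lit 5449534) (nat_lit 0) (nat_lit 0) (nat_lit 0x801d47abe) (nat_lit 1077482658),
  Rx.mk (nat_lit 111) (nat_lit 7) (nat_lit 5) (nat_lit 1) (nat_lit 7) (nat_lit 49) (nat_lit 192) r11_49 r4_192 (nat_lit 0) (nat_lit 0) (nat_lit 0) (nat_lit 0x80342afb0) (nat_lit 1070573324),
  Rx.mk (nat_lit 116) (nat_lit 4) (nat_lit 6) (nat_lit 1) (nat_lit 6) (nat_lit 50) (nat_lit 190) r11_50 r4_190 (nat_lit 5449534) (nat_lit 0) (nat_lit 0) (nat_lit 0x801061480) (nat_lit 1078306558),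
  Rx.mk (nat_lit 118) (nat_lit 6) (nat_lit 6) (nat_lit 1) (nat_lit 7) (nat_lit 51) (nat_lit 194) r11_51 r4_194 (nat_lit 0) (nat_lit 0) (nat_lit 0) (nat_lit 0x80029938e) (nat_lit 1073741824),
  Rx.mk (nat_lit 119) (nat_lit 7) (nat_lit 6) (nat_lit 1) (nat_lit 7) (nat_lit 52) (nat_lit 193) r11_52 r4_193 (nat_lit 0) (nat_lit 0) (nat_lit 0) (nat_lit 0x80342afb0) (nat_lit 1070573324)]
noncomputable def e29_5 : List Rx := [
  Rx.mk (nat_lit 36) (nat_lit 4) (nat_lit 4) (nat_lit 0) (nat_lit 0) (nat_lit 68) (nat_lit 202) r11_68 r5_202 (nat_lit 21720360) (nat_lit 3094232) (nat_lit 2576337) (nat_lit 0x4da7b05c6) (nat_lit 1940613153),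
  Rx.mk (nat_lit 39) (nat_lit 7) (nat_lit 4) (nat_lit 0) (nat_lit 1) (nat_lit 72) (nat_lit 212) r11_72 r5_212 (nat_lit 0) (nat_lit 4194264) (nat_lit 2535516) (nat_lit 0x68bbaaf48) (nat_lit 1468482604),
  Rx.mk (nat_lit 44) (nat_lit 4) (nat_lit 5) (nat_lit 0) (nat_lit 2) (nat_lit 75) (nat_lit 206) r11_75 r5_206 (nat_lit 14714486) (nat_lit 0) (nat_lit 11623778) (nat_lit 0x72e87497a) (nat_lit 1318449488),
  Rx.mk (nat_lit 47) (nat_lit 7) (nat_lit 5) (nat_lit 0) (nat_lit 3) (nat_lit 78) (nat_lit 215) r11_78 r5_215 (nat_lit 0) (nat_lit 0) (nat_lit 3453899) (nat_lit 0x8019ee37c) (nat_lit 1075699823),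
  Rx.mk (nat_lit 52) (nat_lit 4) (nat_lit 6) (nat_lit 0) (nat_lit 2) (nat_lit 80) (nat_lit 209) r11_80 r5_209 (nat_lit 66565718) (nat_lit 0) (nat_lit 2937614) (nat_lit 0x74b9e4b76) (nat_lit 1331296056),
  Rx.mk (nat_lit 54) (nat_lit 6) (nat_lit 6) (nat_lit 0) (nat_lit 3) (nat_lit 83) (nat_lit 222) r11_83 r5_222 (nat_lit 0) (nat_lit 0) (nat_lit 4726499) (nat_lit 0x7ff6067de) (nat_lit 1079274023),
  Rx.mk (nat_lit 55) (nat_lit 7) (nat_lit 6) (nat_lit 0) (nat_lit 3) (nat_lit 86) (nat_lit 220) r11_86 r5_220 (nat_lit 0) (nat_lit 0) (nat_lit 3361078) (nat_lit 0x802aa3348) (nat_lit 1074541602),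
  Rx.mk (nat_lit 63) (nat_lit 7) (nat_lit 7) (nat_lit 0) (nat_lit 3) (nat_lit 88) (nat_lit 217) r11_88 r5_217 (nat_lit 0) (nat_lit 0) (nat_lit 5824518) (nat_lit 0x7f6cb0a3e) (nat_lit 1089264642),
  Rx.mk (nat_lit 100) (nat_lit 4) (nat_lit 4) (nat_lit 1) (nat_lit 4) (nat_lit 69) (nat_lit 203) r11_69 r5_203 (nat_lit 21585030) (nat_lit 8674374) (nat_lit 0) (nat_lit 0x7effacde8) (nat_lit 1120791828),
  Rx.mk (nat_lit 103) (nat_lit 7) (nat_lit 4) (nat_lit 1) (nat_lit 5) (nat_lit 73) (nat_lit 213) r11_73 r5_213 (nat_lit 0) (nat_lit 4046712) (nat_lit 0) (nat_lit 0x801958a84) (nat_lit 1076331636),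
  Rx.mk (nat_lit 116) (nat_lit 4) (nat_lit 6) (nat_lit 1) (nat_lit 6) (nat_lit 81) (nat_lit 210) r11_81 r5_210 (nat_lit 5449534) (nat_lit 0) (nat_lit 0) (nat_lit 0x800b9fd16) (nat_lit 1078612858),
  Rx.mk (nat_lit 118) (nat_lit 6) (nat_lit 6) (nat_lit 1) (nat_lit 7) (nat_lit 84) (nat_lit 223) r11_84 r5_223 (nat_lit 0) (nat_lit 0) (nat_lit 0) (nat_lit 0x80029938e) (nat_lit 1073741824),
  Rx.mk (nat_lit 119) (nat_lit 7) (nat_lit 6) (nat_lit 1) (nat_lit 7) (nat_lit 87) (nat_lit 221) r11_87 r5_221 (nat_lit 0) (nat_lit 0) (nat_lit 0) (nat_lit 0x800d38786) (nat_lit 1073060924),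
  Rx.mk (nat_lit 127) (nat_lit 7) (nat_lit 7) (nat_lit 1) (nat_lit 7) (nat_lit 89) (nat_lit 218) r11_89 r5_218 (nat_lit 0) (nat_lit 0) (nat_lit 0) (nat_lit 0x80029938e) (nat_lit 1073741824),
  Rx.mk (nat_lit 164) (nat_lit 4) (nat_lit 4) (nat_lit 2) (nat_lit 4) (nat_lit 70) (nat_lit 205) r11_70 r5_205 (nat_lit 19180850) (nat_lit 8902206) (nat_lit 0) (nat_lit 0x7e9bef6c0) (nat_lit 1125108480),
  Rx.mk (nat_lit 167) (nat_lit 7) (nat_lit 4) (nat_lit 2) (nat_lit 5) (nat_lit 74) (nat_lit 214) r11_74 r5_214 (nat_lit 0) (nat_lit 4369172) (nat_lit 0) (nat_lit 0x7febb8bc4) (nat_lit 1079580196),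
  Rx.mk (nat_lit 172) (nat_lit 4) (nat_lit 5) (nat_lit 2) (nat_lit 6) (nat_lit 76) (nat_lit 208) r11_76 r5_208 (nat_lit 5449534) (nat_lit 0) (nat_lit 0) (nat_lit 0x80029938e) (nat_lit 1079191358),
  Rx.mk (nat_lit 175) (nat_lit 7) (nat_lit 5) (nat_lit 2) (nat_lit 7) (nat_lit 79) (nat_lit 216) r11_79 r5_216 (nat_lit 0) (nat_lit 0) (nat_lit 0) (nat_lit 0x800d38786) (nat_lit 1073060924),
  Rx.mk (nat_lit 191) (nat_lit 7) (nat_lit 7) (nat_lit 2) (nat_lit 7) (nat_lit 90) (nat_lit 219) r11_90 r5_219 (nat_lit 0) (nat_lit 0) (nat_lit 0) (nat_lit 0x80029938e) (nat_lit 1073741824),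
  Rx.mk (nat_lit 228) (nat_lit 4) (nat_lit 4) (nat_lit 3) (nat_lit 4) (nat_lit 71) (nat_lit 204) r11_71 r5_204 (nat_lit 17049817) (nat_lit 8510956) (nat_lit 0) (nat_lit 0x7ec27a33a) (nat_lit 1120075897),
  Rx.mk (nat_lit 236) (nat_lit 4) (nat_lit 5) (nat_lit 3) (nat_lit 6) (nat_lit 77) (nat_lit 207) r11_77 r5_207 (nat_lit 5449534) (nat_lit 0) (nat_lit 0) (nat_lit 0x80029938e) (nat_lit 1079191358),
  Rx.mk (nat_lit 244) (nat_lit 4) (nat_lit 6) (nat_lit 3) (nat_lit 6) (nat_lit 82) (nat_lit 211) r11_82 r5_211 (nat_lit 5449534) (nat_lit 0) (nat_lit 0) (nat_lit 0x800c7cac2) (nat_lit 1078557658),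
  Rx.mk (nat_lit 246) (nat_lit 6) (nat_lit 6) (nat_lit 3) (nat_lit 7) (nat_lit 85) (nat_lit 224) r11_85 r5_224 (nat_lit 0) (nat_lit 0) (nat_lit 0) (nat_lit 0x80029938e) (nat_lit 1073741824)]
noncomputable def e29_6 : List Rx := [
  Rx.mk (nat_lit 187) (nat_lit 3) (nat_lit 7) (nat_lit 2) (nat_lit 7) (nat_lit 7) (nat_lit 139) r11_7 r3_139 (nat_lit 0) (nat_lit 0) (nat_lit 0) (nat_lit 0x970ef9cfc) (nat_lit 700901524),
  Rx.mk (nat_lit 502) (nat_lit 6) (nat_lit 6) (nat_lit 7) (nat_lit 7) (nat_lit 6) (nat_lit 140) r11_6 r3_140 (nat_lit 0) (nat_lit 0) (nat_lit 0) (nat_lit 0x9287cfb68) (nat_lit 774145224)]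
noncomputable def e29_7 : List Rx := [
  Rx.mk (nat_lit 310) (nat_lit 6) (nat_lit 6) (nat_lit 4) (nat_lit 3) (nat_lit 0) (nat_lit 152) r11_0 r0_152 (nat_lit 0) (nat_lit 0) (nat_lit 4245916) (nat_lit 0x7feae8000) (nat_lit 1079510240),
  Rx.mk (nat_lit 502) (nat_lit 6) (nat_lit 6) (nat_lit 7) (nat_lit 7) (nat_lit 1) (nat_lit 153) r11_1 r0_153 (nat_lit 0) (nat_lit 0) (nat_lit 0) (nat_lit 0x800bb8a46) (nat_lit 1073157024)]
noncomputable def e29_8 : List Rx := [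
  Rx.mk (nat_lit 310) (nat_lit 6) (nat_lit 6) (nat_lit 4) (nat_lit 3) (nat_lit 2) (nat_lit 166) r11_2 r1_166 (nat_lit 0) (nat_lit 0) (nat_lit 5621376) (nat_lit 0x7fea6aa60) (nat_lit 1080917600),
  Rx.mk (nat_lit 374) (nat_lit 6) (nat_lit 6) (nat_lit 5) (nat_lit 7) (nat_lit 3) (nat_lit 167) r11_3 r1_167 (nat_lit 0) (nat_lit 0) (nat_lit 0) (nat_lit 0x80029938e) (nat_lit 1073741824),
  Rx.mk (nat_lit 502) (nat_lit 6) (nat_lit 6) (nat_lit 7) (nat_lit 7) (nat_lit 4) (nat_lit 168) r11_4 r1_168 (nat_lit 0) (nat_lit 0) (nat_lit 0) (nat_lit 0x80029938e) (nat_lit 1073741824)]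
noncomputable def e29_9 : List Rx := [
  Rx.mk (nat_lit 502) (nat_lit 6) (nat_lit 6) (nat_lit 7) (nat_lit 7) (nat_lit 8) (nat_lit 143) r11_8 r4_143 (nat_lit 0) (nat_lit 0) (nat_lit 0) (nat_lit 0x80029938e) (nat_lit 1073741824)]
noncomputable def e29_10 : List Rx := [
  Rx.mk (nat_lit 39) (nat_lit 7) (nat_lit 4) (nat_lit 0) (nat_lit 1) (nat_lit 54) (nat_lit 227) r11_54 r6_227 (nat_lit 0) (nat_lit 1343161) (nat_lit 1407149) (nat_lit 0x737e36fbc) (nat_lit 1285096534),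
  Rx.mk (nat_lit 47) (nat_lit 7) (nat_lit 5) (nat_lit 0) (nat_lit 3) (nat_lit 58) (nat_lit 230) r11_58 r6_230 (nat_lit 0) (nat_lit 0) (nat_lit 4262738) (nat_lit 0x801570c46) (nat_lit 1076797662),
  Rx.mk (nat_lit 55) (nat_lit 7) (nat_lit 6) (nat_lit 0) (nat_lit 3) (nat_lit 63) (nat_lit 235) r11_63 r6_235 (nat_lit 0) (nat_lit 0) (nat_lit 3738478) (nat_lit 0x8024ee42a) (nat_lit 1075285302),
  Rx.mk (nat_lit 63) (nat_lit 7) (nat_lit 7) (nat_lit 0) (nat_lit 3) (nat_lit 66) (nat_lit 233) r11_66 r6_233 (nat_lit 0) (nat_lit 0) (nat_lit 3928738) (nat_lit 0x80106e662) (nat_lit 1076782462),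
  Rx.mk (nat_lit 167) (nat_lit 7) (nat_lit 4) (nat_lit 2) (nat_lit 5) (nat_lit 55) (nat_lit 229) r11_55 r6_229 (nat_lit 0) (nat_lit 2747444) (nat_lit 0) (nat_lit 0x803990784) (nat_lit 1072977968),
  Rx.mk (nat_lit 175) (nat_lit 7) (nat_lit 5) (nat_lit 2) (nat_lit 7) (nat_lit 59) (nat_lit 232) r11_59 r6_232 (nat_lit 0) (nat_lit 0) (nat_lit 0) (nat_lit 0x80029938e) (nat_lit 1073741824),
  Rx.mk (nat_lit 187) (nat_lit 3) (nat_lit 7) (nat_lit 2) (nat_lit 7) (nat_lit 65) (nat_lit 223) r11_65 r6_223 (nat_lit 0) (nat_lit 0) (nat_lit 0) (nat_lit 0x95ec9a496) (nat_lit 719290124),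
  Rx.mk (nat_lit 191) (nat_lit 7) (nat_lit 7) (nat_lit 2) (nat_lit 7) (nat_lit 67) (nat_lit 234) r11_67 r6_234 (nat_lit 0) (nat_lit 0) (nat_lit 0) (nat_lit 0x801118d6a) (nat_lit 1072812524),
  Rx.mk (nat_lit 228) (nat_lit 4) (nat_lit 4) (nat_lit 3) (nat_lit 4) (nat_lit 53) (nat_lit 224) r11_53 r6_224 (nat_lit 2307781) (nat_lit 1282205) (nat_lit 0) (nat_lit 0x7934fd052) (nat_lit 1190670010),
  Rx.mk (nat_lit 231) (nat_lit 7) (nat_lit 4) (nat_lit 3) (nat_lit 5) (nat_lit 56) (nat_lit 228) r11_56 r6_228 (nat_lit 0) (nat_lit 1786259) (nat_lit 0) (nat_lit 0x808a883f8) (nat_lit 1066877983),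
  Rx.mk (nat_lit 236) (nat_lit 4) (nat_lit 5) (nat_lit 3) (nat_lit 6) (nat_lit 57) (nat_lit 225) r11_57 r6_225 (nat_lit 5449534) (nat_lit 0) (nat_lit 0) (nat_lit 0x80029938e) (nat_lit 1079191358),
  Rx.mk (nat_lit 239) (nat_lit 7) (nat_lit 5) (nat_lit 3) (nat_lit 7) (nat_lit 60) (nat_lit 231) r11_60 r6_231 (nat_lit 0) (nat_lit 0) (nat_lit 0) (nat_lit 0x80159ec7c) (nat_lit 1072523724),
  Rx.mk (nat_lit 244) (nat_lit 4) (nat_lit 6) (nat_lit 3) (nat_lit 6) (nat_lit 61) (nat_lit 226) r11_61 r6_226 (nat_lit 3994773) (nat_lit 0) (nat_lit 0) (nat_lit 0x801c09594) (nat_lit 1076108397),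
  Rx.mk (nat_lit 246) (nat_lit 6) (nat_lit 6) (nat_lit 3) (nat_lit 7) (nat_lit 62) (nat_lit 237) r11_62 r6_237 (nat_lit 0) (nat_lit 0) (nat_lit 0) (nat_lit 0x800b91806) (nat_lit 1073166724),
  Rx.mk (nat_lit 247) (nat_lit 7) (nat_lit 6) (nat_lit 3) (nat_lit 7) (nat_lit 64) (nat_lit 236) r11_64 r6_236 (nat_lit 0) (nat_lit 0) (nat_lit 0) (nat_lit 0x80159ec7c) (nat_lit 1072523724)]
noncomputable def e29_11 : List Rx := [
  Rx.mk (nat_lit 63) (nat_lit 7) (nat_lit 7) (nat_lit 0) (nat_lit 3) (nat_lit 16) (nat_lit 142) r11_16 r5_142 (nat_lit 0) (nat_lit 0) (nat_lit 2807402) (nat_lit 0x7fb00afd2) (nat_lit 1081869426),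
  Rx.mk (nat_lit 187) (nat_lit 3) (nat_lit 7) (nat_lit 2) (nat_lit 7) (nat_lit 15) (nat_lit 145) r11_15 r5_145 (nat_lit 0) (nat_lit 0) (nat_lit 0) (nat_lit 0x8c926658c) (nat_lit 870523024),
  Rx.mk (nat_lit 191) (nat_lit 7) (nat_lit 7) (nat_lit 2) (nat_lit 7) (nat_lit 17) (nat_lit 144) r11_17 r5_144 (nat_lit 0) (nat_lit 0) (nat_lit 0) (nat_lit 0x80029938e) (nat_lit 1073741824),
  Rx.mk (nat_lit 228) (nat_lit 4) (nat_lit 4) (nat_lit 3) (nat_lit 4) (nat_lit 9) (nat_lit 140) r11_9 r5_140 (nat_lit 175020) (nat_lit 125684) (nat_lit 0) (nat_lit 0x733f0fb0e) (nat_lit 1286716228),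
  Rx.mk (nat_lit 231) (nat_lit 7) (nat_lit 4) (nat_lit 3) (nat_lit 5) (nat_lit 10) (nat_lit 141) r11_10 r5_141 (nat_lit 0) (nat_lit 1188030) (nat_lit 0) (nat_lit 0x853c4c630) (nat_lit 990345654),
  Rx.mk (nat_lit 244) (nat_lit 4) (nat_lit 6) (nat_lit 3) (nat_lit 6) (nat_lit 11) (nat_lit 146) r11_11 r5_146 (nat_lit 1759938) (nat_lit 0) (nat_lit 0) (nat_lit 0x802382334) (nat_lit 1073384662),
  Rx.mk (nat_lit 246) (nat_lit 6) (nat_lit 6) (nat_lit 3) (nat_lit 7) (nat_lit 12) (nat_lit 149) r11_12 r5_149 (nat_lit 0) (nat_lit 0) (nat_lit 0) (nat_lit 0x801ffa1a8) (nat_lit 1071862024),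
  Rx.mk (nat_lit 247) (nat_lit 7) (nat_lit 6) (nat_lit 3) (nat_lit 7) (nat_lit 14) (nat_lit 147) r11_14 r5_147 (nat_lit 0) (nat_lit 0) (nat_lit 0) (nat_lit 0x8087d4972) (nat_lit 1065267524),
  Rx.mk (nat_lit 255) (nat_lit 7) (nat_lit 7) (nat_lit 3) (nat_lit 7) (nat_lit 18) (nat_lit 143) r11_18 r5_143 (nat_lit 0) (nat_lit 0) (nat_lit 0) (nat_lit 0x80029938e) (nat_lit 1073741824),
  Rx.mk (nat_lit 502) (nat_lit 6) (nat_lit 6) (nat_lit 7) (nat_lit 7) (nat_lit 13) (nat_lit 148) r11_13 r5_148 (nat_lit 0) (nat_lit 0) (nat_lit 0) (nat_lit 0x8093c6438) (nat_lit 1064504724)]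
noncomputable def e29_12 : List Rx := [
  Rx.mk (nat_lit 36) (nat_lit 4) (nat_lit 4) (nat_lit 0) (nat_lit 0) (nat_lit 165) (nat_lit 342) r11_165 r0_342 (nat_lit 10268755) (nat_lit 18458944) (nat_lit 3852129) (nat_lit 0x51ec2bbde) (nat_lit 1874651452),
  Rx.mk (nat_lit 37) (nat_lit 5) (nat_lit 4) (nat_lit 0) (nat_lit 1) (nat_lit 168) (nat_lit 343) r11_168 r0_343 (nat_lit 0) (nat_lit 7934940) (nat_lit 194126458) (nat_lit 0x7dfec5c32) (nat_lit 1309321022),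
  Rx.mk (nat_lit 44) (nat_lit 4) (nat_lit 5) (nat_lit 0) (nat_lit 2) (nat_lit 171) (nat_lit 344) r11_171 r0_344 (nat_lit 7896501) (nat_lit 0) (nat_lit 118564749) (nat_lit 0x78f0aaa94) (nat_lit 1317996874),
  Rx.mk (nat_lit 45) (nat_lit 5) (nat_lit 5) (nat_lit 0) (nat_lit 3) (nat_lit 174) (nat_lit 345) r11_174 r0_345 (nat_lit 0) (nat_lit 0) (nat_lit 172668765) (nat_lit 0x7f52725c8) (nat_lit 1257804589),
  Rx.mk (nat_lit 52) (nat_lit 4) (nat_lit 6) (nat_lit 0) (nat_lit 2) (nat_lit 177) (nat_lit 346) r11_177 r0_346 (nat_lit 8056051) (nat_lit 0) (nat_lit 7452897) (nat_lit 0x7322e451a) (nat_lit 1303815772),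
  Rx.mk (nat_lit 53) (nat_lit 5) (nat_lit 6) (nat_lit 0) (nat_lit 3) (nat_lit 179) (nat_lit 347) r11_179 r0_347 (nat_lit 0) (nat_lit 0) (nat_lit 5449534) (nat_lit 0x8024d3526) (nat_lit 1077000758),
  Rx.mk (nat_lit 54) (nat_lit 6) (nat_lit 6) (nat_lit 0) (nat_lit 3) (nat_lit 181) (nat_lit 348) r11_181 r0_348 (nat_lit 0) (nat_lit 0) (nat_lit 5449534) (nat_lit 0x7fd37cdd0) (nat_lit 1082223658),
  Rx.mk (nat_lit 100) (nat_lit 4) (nat_lit 4) (nat_lit 1) (nat_lit 4) (nat_lit 166) (nat_lit 349) r11_166 r0_349 (nat_lit 5119836) (nat_lit 249448811) (nat_lit 0) (nat_lit 0x7cd98d3b2) (nat_lit 1380926471),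
  Rx.mk (nat_lit 101) (nat_lit 5) (nat_lit 4) (nat_lit 1) (nat_lit 5) (nat_lit 169) (nat_lit 350) r11_169 r0_350 (nat_lit 0) (nat_lit 5782474) (nat_lit 0) (nat_lit 0x7ffaf2f18) (nat_lit 1080015398),
  Rx.mk (nat_lit 108) (nat_lit 4) (nat_lit 5) (nat_lit 1) (nat_lit 6) (nat_lit 172) (nat_lit 351) r11_172 r0_351 (nat_lit 5449534) (nat_lit 0) (nat_lit 0) (nat_lit 0x80029938e) (nat_lit 1079191358),
  Rx.mk (nat_lit 109) (nat_lit 5) (nat_lit 5) (nat_lit 1) (nat_lit 7) (nat_lit 175) (nat_lit 352) r11_175 r0_352 (nat_lit 0) (nat_lit 0) (nat_lit 0) (nat_lit 0x800c523a8) (nat_lit 1073118624),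
  Rx.mk (nat_lit 116) (nat_lit 4) (nat_lit 6) (nat_lit 1) (nat_lit 6) (nat_lit 178) (nat_lit 353) r11_178 r0_353 (nat_lit 4354585) (nat_lit 0) (nat_lit 0) (nat_lit 0x800b09e74) (nat_lit 1077554409),
  Rx.mk (nat_lit 117) (nat_lit 5) (nat_lit 6) (nat_lit 1) (nat_lit 7) (nat_lit 180) (nat_lit 354) r11_180 r0_354 (nat_lit 0) (nat_lit 0) (nat_lit 0) (nat_lit 0x80029938e) (nat_lit 1073741824),
  Rx.mk (nat_lit 118) (nat_lit 6) (nat_lit 6) (nat_lit 1) (nat_lit 7) (nat_lit 182) (nat_lit 355) r11_182 r0_355 (nat_lit 0) (nat_lit 0) (nat_lit 0) (nat_lit 0x800d18918) (nat_lit 1073068624),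
  Rx.mk (nat_lit 164) (nat_lit 4) (nat_lit 4) (nat_lit 2) (nat_lit 4) (nat_lit 167) (nat_lit 356) r11_167 r0_356 (nat_lit 9822470) (nat_lit 9822470) (nat_lit 0) (nat_lit 0x7f9211c88) (nat_lit 1100657964),
  Rx.mk (nat_lit 165) (nat_lit 5) (nat_lit 4) (nat_lit 2) (nat_lit 5) (nat_lit 170) (nat_lit 357) r11_170 r0_357 (nat_lit 0) (nat_lit 3096735) (nat_lit 0) (nat_lit 0x80342c6c6) (nat_lit 1073669459),
  Rx.mk (nat_lit 172) (nat_lit 4) (nat_lit 5) (nat_lit 2) (nat_lit 6) (nat_lit 173) (nat_lit 358) r11_173 r0_358 (nat_lit 4288788) (nat_lit 0) (nat_lit 0) (nat_lit 0x801061ba6) (nat_lit 1077145012),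
  Rx.mk (nat_lit 173) (nat_lit 5) (nat_lit 5) (nat_lit 2) (nat_lit 7) (nat_lit 176) (nat_lit 359) r11_176 r0_359 (nat_lit 0) (nat_lit 0) (nat_lit 0) (nat_lit 0x80b7bae20) (nat_lit 1062234024)]
noncomputable def e29_13 : List Rx := [
  Rx.mk (nat_lit 100) (nat_lit 4) (nat_lit 4) (nat_lit 1) (nat_lit 4) (nat_lit 212) (nat_lit 263) r11_212 r7_263 (nat_lit 27051137) (nat_lit 140034131) (nat_lit 0) (nat_lit 0x7b544a5ac) (nat_lit 1318788992),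
  Rx.mk (nat_lit 101) (nat_lit 5) (nat_lit 4) (nat_lit 1) (nat_lit 5) (nat_lit 213) (nat_lit 266) r11_213 r7_266 (nat_lit 0) (nat_lit 5449534) (nat_lit 0) (nat_lit 0x80029938e) (nat_lit 1079191358),
  Rx.mk (nat_lit 108) (nat_lit 4) (nat_lit 5) (nat_lit 1) (nat_lit 6) (nat_lit 214) (nat_lit 264) r11_214 r7_264 (nat_lit 5449534) (nat_lit 0) (nat_lit 0) (nat_lit 0x80029938e) (nat_lit 1079191358),
  Rx.mk (nat_lit 109) (nat_lit 5) (nat_lit 5) (nat_lit 1) (nat_lit 7) (nat_lit 215) (nat_lit 267) r11_215 r7_267 (nat_lit 0) (nat_lit 0) (nat_lit 0) (nat_lit 0x80029938e) (nat_lit 1073741824),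
  Rx.mk (nat_lit 116) (nat_lit 4) (nat_lit 6) (nat_lit 1) (nat_lit 6) (nat_lit 216) (nat_lit 265) r11_216 r7_265 (nat_lit 5449534) (nat_lit 0) (nat_lit 0) (nat_lit 0x80029938e) (nat_lit 1079191358),
  Rx.mk (nat_lit 117) (nat_lit 5) (nat_lit 6) (nat_lit 1) (nat_lit 7) (nat_lit 217) (nat_lit 268) r11_217 r7_268 (nat_lit 0) (nat_lit 0) (nat_lit 0) (nat_lit 0x80029938e) (nat_lit 1073741824),
  Rx.mk (nat_lit 118) (nat_lit 6) (nat_lit 6) (nat_lit 1) (nat_lit 7) (nat_lit 218) (nat_lit 269) r11_218 r7_269 (nat_lit 0) (nat_lit 0) (nat_lit 0) (nat_lit 0x80029938e) (nat_lit 1073741824)]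
noncomputable def e29_14 : List Rx := [
  Rx.mk (nat_lit 37) (nat_lit 5) (nat_lit 4) (nat_lit 0) (nat_lit 1) (nat_lit 183) (nat_lit 316) r11_183 r1_316 (nat_lit 0) (nat_lit 8821660) (nat_lit 234072587) (nat_lit 0x7aeb624b8) (nat_lit 1401431171),
  Rx.mk (nat_lit 45) (nat_lit 5) (nat_lit 5) (nat_lit 0) (nat_lit 3) (nat_lit 186) (nat_lit 317) r11_186 r1_317 (nat_lit 0) (nat_lit 0) (nat_lit 10371928) (nat_lit 0x7fad0bc00) (nat_lit 1089630552),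
  Rx.mk (nat_lit 53) (nat_lit 5) (nat_lit 6) (nat_lit 0) (nat_lit 3) (nat_lit 189) (nat_lit 318) r11_189 r1_318 (nat_lit 0) (nat_lit 0) (nat_lit 5657793) (nat_lit 0x7fff429ec) (nat_lit 1079613617),
  Rx.mk (nat_lit 101) (nat_lit 5) (nat_lit 4) (nat_lit 1) (nat_lit 5) (nat_lit 184) (nat_lit 319) r11_184 r1_319 (nat_lit 0) (nat_lit 5449534) (nat_lit 0) (nat_lit 0x80029938e) (nat_lit 1079191358),
  Rx.mk (nat_lit 109) (nat_lit 5) (nat_lit 5) (nat_lit 1) (nat_lit 7) (nat_lit 187) (nat_lit 320) r11_187 r1_320 (nat_lit 0) (nat_lit 0) (nat_lit 0) (nat_lit 0x80029938e) (nat_lit 1073741824),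
  Rx.mk (nat_lit 117) (nat_lit 5) (nat_lit 6) (nat_lit 1) (nat_lit 7) (nat_lit 190) (nat_lit 321) r11_190 r1_321 (nat_lit 0) (nat_lit 0) (nat_lit 0) (nat_lit 0x80029938e) (nat_lit 1073741824),
  Rx.mk (nat_lit 165) (nat_lit 5) (nat_lit 4) (nat_lit 2) (nat_lit 5) (nat_lit 185) (nat_lit 322) r11_185 r1_322 (nat_lit 0) (nat_lit 5364616) (nat_lit 0) (nat_lit 0x7ffcc177c) (nat_lit 1079481040),
  Rx.mk (nat_lit 173) (nat_lit 5) (nat_lit 5) (nat_lit 2) (nat_lit 7) (nat_lit 188) (nat_lit 323) r11_188 r1_323 (nat_lit 0) (nat_lit 0) (nat_lit 0) (nat_lit 0x807a04fb8) (nat_lit 1066138524)]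
noncomputable def e29_15 : List Rx := [
  Rx.mk (nat_lit 101) (nat_lit 5) (nat_lit 4) (nat_lit 1) (nat_lit 5) (nat_lit 219) (nat_lit 198) r11_219 r8_198 (nat_lit 0) (nat_lit 5449534) (nat_lit 0) (nat_lit 0x80029938e) (nat_lit 1079191358),
  Rx.mk (nat_lit 109) (nat_lit 5) (nat_lit 5) (nat_lit 1) (nat_lit 7) (nat_lit 220) (nat_lit 199) r11_220 r8_199 (nat_lit 0) (nat_lit 0) (nat_lit 0) (nat_lit 0x80029938e) (nat_lit 1073741824),
  Rx.mk (nat_lit 117) (nat_lit 5) (nat_lit 6) (nat_lit 1) (nat_lit 7) (nat_lit 221) (nat_lit 200) r11_221 r8_200 (nat_lit 0) (nat_lit 0) (nat_lit 0) (nat_lit 0x80029938e) (nat_lit 1073741824)]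
noncomputable def e29_16 : List Rx := [
  Rx.mk (nat_lit 100) (nat_lit 4) (nat_lit 4) (nat_lit 1) (nat_lit 4) (nat_lit 222) (nat_lit 368) r11_222 r8_368 (nat_lit 21443359) (nat_lit 31594176) (nat_lit 0) (nat_lit 0x791f109d8) (nat_lit 1241553659),
  Rx.mk (nat_lit 101) (nat_lit 5) (nat_lit 4) (nat_lit 1) (nat_lit 5) (nat_lit 223) (nat_lit 369) r11_223 r8_369 (nat_lit 0) (nat_lit 5449534) (nat_lit 0) (nat_lit 0x80029938e) (nat_lit 1079191358),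
  Rx.mk (nat_lit 108) (nat_lit 4) (nat_lit 5) (nat_lit 1) (nat_lit 6) (nat_lit 224) (nat_lit 370) r11_224 r8_370 (nat_lit 5449534) (nat_lit 0) (nat_lit 0) (nat_lit 0x80029938e) (nat_lit 1079191358),
  Rx.mk (nat_lit 109) (nat_lit 5) (nat_lit 5) (nat_lit 1) (nat_lit 7) (nat_lit 225) (nat_lit 371) r11_225 r8_371 (nat_lit 0) (nat_lit 0) (nat_lit 0) (nat_lit 0x80029938e) (nat_lit 1073741824),
  Rx.mk (nat_lit 116) (nat_lit 4) (nat_lit 6) (nat_lit 1) (nat_lit 6) (nat_lit 226) (nat_lit 372) r11_226 r8_372 (nat_lit 5449534) (nat_lit 0) (nat_lit 0) (nat_lit 0x80029938e) (nat_lit 1079191358),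
  Rx.mk (nat_lit 117) (nat_lit 5) (nat_lit 6) (nat_lit 1) (nat_lit 7) (nat_lit 227) (nat_lit 373) r11_227 r8_373 (nat_lit 0) (nat_lit 0) (nat_lit 0) (nat_lit 0x80029938e) (nat_lit 1073741824),
  Rx.mk (nat_lit 118) (nat_lit 6) (nat_lit 6) (nat_lit 1) (nat_lit 7) (nat_lit 228) (nat_lit 374) r11_228 r8_374 (nat_lit 0) (nat_lit 0) (nat_lit 0) (nat_lit 0x80029938e) (nat_lit 1073741824),
  Rx.mk (nat_lit 374) (nat_lit 6) (nat_lit 6) (nat_lit 5) (nat_lit 7) (nat_lit 229) (nat_lit 367) r11_229 r8_367 (nat_lit 0) (nat_lit 0) (nat_lit 0) (nat_lit 0x80029938e) (nat_lit 1073741824)]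
noncomputable def e29_17 : List Rx := [
  Rx.mk (nat_lit 374) (nat_lit 6) (nat_lit 6) (nat_lit 5) (nat_lit 7) (nat_lit 164) (nat_lit 214) r11_164 r9_214 (nat_lit 0) (nat_lit 0) (nat_lit 0) (nat_lit 0x80029938e) (nat_lit 1073741824)]
noncomputable def e29_18 : List Rx := [
  Rx.mk (nat_lit 36) (nat_lit 4) (nat_lit 4) (nat_lit 0) (nat_lit 0) (nat_lit 191) (nat_lit 381) r11_191 r4_381 (nat_lit 3311660) (nat_lit 3764156) (nat_lit 8641172) (nat_lit 0x5c93f0a86) (nat_lit 1680132412),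
  Rx.mk (nat_lit 37) (nat_lit 5) (nat_lit 4) (nat_lit 0) (nat_lit 1) (nat_lit 194) (nat_lit 382) r11_194 r4_382 (nat_lit 0) (nat_lit 4816256) (nat_lit 6858387) (nat_lit 0x7fdca3fee) (nat_lit 1087856567),
  Rx.mk (nat_lit 39) (nat_lit 7) (nat_lit 4) (nat_lit 0) (nat_lit 1) (nat_lit 196) (nat_lit 383) r11_196 r4_383 (nat_lit 0) (nat_lit 8534027) (nat_lit 6991617) (nat_lit 0x7ccb3567a) (nat_lit 1142817968),
  Rx.mk (nat_lit 44) (nat_lit 4) (nat_lit 5) (nat_lit 0) (nat_lit 2) (nat_lit 199) (nat_lit 384) r11_199 r4_384 (nat_lit 5599296) (nat_lit 0) (nat_lit 15577727) (nat_lit 0x7785e1fb0) (nat_lit 1236347147),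
  Rx.mk (nat_lit 45) (nat_lit 5) (nat_lit 5) (nat_lit 0) (nat_lit 3) (nat_lit 202) (nat_lit 385) r11_202 r4_385 (nat_lit 0) (nat_lit 0) (nat_lit 7939064) (nat_lit 0x7f609f326) (nat_lit 1092168788),
  Rx.mk (nat_lit 47) (nat_lit 7) (nat_lit 5) (nat_lit 0) (nat_lit 3) (nat_lit 204) (nat_lit 386) r11_204 r4_386 (nat_lit 0) (nat_lit 0) (nat_lit 5449534) (nat_lit 0x80029938e) (nat_lit 1079191358),
  Rx.mk (nat_lit 52) (nat_lit 4) (nat_lit 6) (nat_lit 0) (nat_lit 2) (nat_lit 207) (nat_lit 387) r11_207 r4_387 (nat_lit 5959014) (nat_lit 0) (nat_lit 9921122) (nat_lit 0x7875189c6) (nat_lit 1215474960),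
  Rx.mk (nat_lit 53) (nat_lit 5) (nat_lit 6) (nat_lit 0) (nat_lit 3) (nat_lit 209) (nat_lit 388) r11_209 r4_388 (nat_lit 0) (nat_lit 0) (nat_lit 5449534) (nat_lit 0x80029938e) (nat_lit 1079191358),
  Rx.mk (nat_lit 54) (nat_lit 6) (nat_lit 6) (nat_lit 0) (nat_lit 3) (nat_lit 210) (nat_lit 389) r11_210 r4_389 (nat_lit 0) (nat_lit 0) (nat_lit 5449534) (nat_lit 0x80029938e) (nat_lit 1079191358),
  Rx.mk (nat_lit 100) (nat_lit 4) (nat_lit 4) (nat_lit 1) (nat_lit 4) (nat_lit 192) (nat_lit 390) r11_192 r4_390 (nat_lit 4090407) (nat_lit 144474354) (nat_lit 0) (nat_lit 0x7f435b8aa) (nat_lit 1234692185),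
  Rx.mk (nat_lit 103) (nat_lit 7) (nat_lit 4) (nat_lit 1) (nat_lit 5) (nat_lit 197) (nat_lit 391) r11_197 r4_391 (nat_lit 0) (nat_lit 5723800) (nat_lit 0) (nat_lit 0x800173b08) (nat_lit 1079538724),
  Rx.mk (nat_lit 108) (nat_lit 4) (nat_lit 5) (nat_lit 1) (nat_lit 6) (nat_lit 200) (nat_lit 392) r11_200 r4_392 (nat_lit 5449534) (nat_lit 0) (nat_lit 0) (nat_lit 0x80029938e) (nat_lit 1079191358),
  Rx.mk (nat_lit 111) (nat_lit 7) (nat_lit 5) (nat_lit 1) (nat_lit 7) (nat_lit 205) (nat_lit 393) r11_205 r4_393 (nat_lit 0) (nat_lit 0) (nat_lit 0) (nat_lit 0x80029938e) (nat_lit 1073741824),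
  Rx.mk (nat_lit 116) (nat_lit 4) (nat_lit 6) (nat_lit 1) (nat_lit 6) (nat_lit 208) (nat_lit 394) r11_208 r4_394 (nat_lit 5449534) (nat_lit 0) (nat_lit 0) (nat_lit 0x7ffe77e04) (nat_lit 1079456258),
  Rx.mk (nat_lit 118) (nat_lit 6) (nat_lit 6) (nat_lit 1) (nat_lit 7) (nat_lit 211) (nat_lit 395) r11_211 r4_395 (nat_lit 0) (nat_lit 0) (nat_lit 0) (nat_lit 0x80029938e) (nat_lit 1073741824),
  Rx.mk (nat_lit 164) (nat_lit 4) (nat_lit 4) (nat_lit 2) (nat_lit 4) (nat_lit 193) (nat_lit 396) r11_193 r4_396 (nat_lit 9076025) (nat_lit 9076025) (nat_lit 0) (nat_lit 0x7f223ad38) (nat_lit 1106437074),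
  Rx.mk (nat_lit 165) (nat_lit 5) (nat_lit 4) (nat_lit 2) (nat_lit 5) (nat_lit 195) (nat_lit 397) r11_195 r4_397 (nat_lit 0) (nat_lit 5449534) (nat_lit 0) (nat_lit 0x80029938e) (nat_lit 1079191358),
  Rx.mk (nat_lit 167) (nat_lit 7) (nat_lit 4) (nat_lit 2) (nat_lit 5) (nat_lit 198) (nat_lit 398) r11_198 r4_398 (nat_lit 0) (nat_lit 5689996) (nat_lit 0) (nat_lit 0x7ff72fb88) (nat_lit 1080165020),
  Rx.mk (nat_lit 172) (nat_lit 4) (nat_lit 5) (nat_lit 2) (nat_lit 6) (nat_lit 201) (nat_lit 399) r11_201 r4_399 (nat_lit 5449534) (nat_lit 0) (nat_lit 0) (nat_lit 0x80029938e) (nat_lit 1079191358),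
  Rx.mk (nat_lit 173) (nat_lit 5) (nat_lit 5) (nat_lit 2) (nat_lit 7) (nat_lit 203) (nat_lit 400) r11_203 r4_400 (nat_lit 0) (nat_lit 0) (nat_lit 0) (nat_lit 0x80029938e) (nat_lit 1073741824),
  Rx.mk (nat_lit 175) (nat_lit 7) (nat_lit 5) (nat_lit 2) (nat_lit 7) (nat_lit 206) (nat_lit 401) r11_206 r4_401 (nat_lit 0) (nat_lit 0) (nat_lit 0) (nat_lit 0x80029938e) (nat_lit 1073741824)]
noncomputable def e29_19 : List Rx := [
  Rx.mk (nat_lit 100) (nat_lit 4) (nat_lit 4) (nat_lit 1) (nat_lit 4) (nat_lit 230) (nat_lit 206) r11_230 r10_206 (nat_lit 11437609) (nat_lit 47198871) (nat_lit 0) (nat_lit 0x7dbac8fc0) (nat_lit 1170319804),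
  Rx.mk (nat_lit 103) (nat_lit 7) (nat_lit 4) (nat_lit 1) (nat_lit 5) (nat_lit 231) (nat_lit 209) r11_231 r10_209 (nat_lit 0) (nat_lit 5449534) (nat_lit 0) (nat_lit 0x800b95050) (nat_lit 1078615158),
  Rx.mk (nat_lit 108) (nat_lit 4) (nat_lit 5) (nat_lit 1) (nat_lit 6) (nat_lit 232) (nat_lit 207) r11_232 r10_207 (nat_lit 5449534) (nat_lit 0) (nat_lit 0) (nat_lit 0x80029938e) (nat_lit 1079191358),
  Rx.mk (nat_lit 111) (nat_lit 7) (nat_lit 5) (nat_lit 1) (nat_lit 7) (nat_lit 233) (nat_lit 210) r11_233 r10_210 (nat_lit 0) (nat_lit 0) (nat_lit 0) (nat_lit 0x80029938e) (nat_lit 1073741824),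
  Rx.mk (nat_lit 116) (nat_lit 4) (nat_lit 6) (nat_lit 1) (nat_lit 6) (nat_lit 234) (nat_lit 208) r11_234 r10_208 (nat_lit 5449534) (nat_lit 0) (nat_lit 0) (nat_lit 0x80029938e) (nat_lit 1079191358),
  Rx.mk (nat_lit 118) (nat_lit 6) (nat_lit 6) (nat_lit 1) (nat_lit 7) (nat_lit 235) (nat_lit 211) r11_235 r10_211 (nat_lit 0) (nat_lit 0) (nat_lit 0) (nat_lit 0x80029938e) (nat_lit 1073741824)]
noncomputable def e29_20 : List Rx := [
  Rx.mk (nat_lit 36) (nat_lit 4) (nat_lit 4) (nat_lit 0) (nat_lit 0) (nat_lit 236) (nat_lit 236) r11_236 r11_236 (nat_lit 25063667) (nat_lit 25063667) (nat_lit 12626867) (nat_lit 0x57848be6a) (nat_lit 1811543825),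
  Rx.mk (nat_lit 37) (nat_lit 5) (nat_lit 4) (nat_lit 0) (nat_lit 1) (nat_lit 240) (nat_lit 246) r11_240 r11_246 (nat_lit 0) (nat_lit 44498618) (nat_lit 12457896) (nat_lit 0x761f4fd5c) (nat_lit 1295480838),
  Rx.mk (nat_lit 39) (nat_lit 7) (nat_lit 4) (nat_lit 0) (nat_lit 1) (nat_lit 243) (nat_lit 254) r11_243 r11_254 (nat_lit 0) (nat_lit 9364748) (nat_lit 11615170) (nat_lit 0x74b3e5c66) (nat_lit 1283170342),
  Rx.mk (nat_lit 44) (nat_lit 4) (nat_lit 5) (nat_lit 0) (nat_lit 2) (nat_lit 246) (nat_lit 240) r11_246 r11_240 (nat_lit 44498618) (nat_lit 0) (nat_lit 12457896) (nat_lit 0x761f4fd5c) (nat_lit 1295480838),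
  Rx.mk (nat_lit 45) (nat_lit 5) (nat_lit 5) (nat_lit 0) (nat_lit 3) (nat_lit 249) (nat_lit 249) r11_249 r11_249 (nat_lit 0) (nat_lit 0) (nat_lit 5592156) (nat_lit 0x7ff6e4336) (nat_lit 1080085980),
  Rx.mk (nat_lit 47) (nat_lit 7) (nat_lit 5) (nat_lit 0) (nat_lit 3) (nat_lit 252) (nat_lit 257) r11_252 r11_257 (nat_lit 0) (nat_lit 0) (nat_lit 5449534) (nat_lit 0x80029938e) (nat_lit 1079191358),
  Rx.mk (nat_lit 52) (nat_lit 4) (nat_lit 6) (nat_lit 0) (nat_lit 2) (nat_lit 254) (nat_lit 243) r11_254 r11_243 (nat_lit 9364748) (nat_lit 0) (nat_lit 11615170) (nat_lit 0x74b3e5c66) (nat_lit 1283170342),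
  Rx.mk (nat_lit 53) (nat_lit 5) (nat_lit 6) (nat_lit 0) (nat_lit 3) (nat_lit 257) (nat_lit 252) r11_257 r11_252 (nat_lit 0) (nat_lit 0) (nat_lit 5449534) (nat_lit 0x80029938e) (nat_lit 1079191358),
  Rx.mk (nat_lit 54) (nat_lit 6) (nat_lit 6) (nat_lit 0) (nat_lit 3) (nat_lit 259) (nat_lit 262) r11_259 r11_262 (nat_lit 0) (nat_lit 0) (nat_lit 5449534) (nat_lit 0x80029938e) (nat_lit 1079191358),
  Rx.mk (nat_lit 63) (nat_lit 7) (nat_lit 7) (nat_lit 0) (nat_lit 3) (nat_lit 262) (nat_lit 259) r11_262 r11_259 (nat_lit 0) (nat_lit 0) (nat_lit 5449534) (nat_lit 0x80029938e) (nat_lit 1079191358),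
  Rx.mk (nat_lit 100) (nat_lit 4) (nat_lit 4) (nat_lit 1) (nat_lit 4) (nat_lit 237) (nat_lit 237) r11_237 r11_237 (nat_lit 20770673) (nat_lit 20770673) (nat_lit 0) (nat_lit 0x7f8baa200) (nat_lit 1122969770),
  Rx.mk (nat_lit 103) (nat_lit 7) (nat_lit 4) (nat_lit 1) (nat_lit 5) (nat_lit 244) (nat_lit 255) r11_244 r11_255 (nat_lit 0) (nat_lit 5449534) (nat_lit 0) (nat_lit 0x80029938e) (nat_lit 1079191358),
  Rx.mk (nat_lit 116) (nat_lit 4) (nat_lit 6) (nat_lit 1) (nat_lit 6) (nat_lit 255) (nat_lit 244) r11_255 r11_244 (nat_lit 5449534) (nat_lit 0) (nat_lit 0) (nat_lit 0x80029938e) (nat_lit 1079191358),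
  Rx.mk (nat_lit 118) (nat_lit 6) (nat_lit 6) (nat_lit 1) (nat_lit 7) (nat_lit 260) (nat_lit 263) r11_260 r11_263 (nat_lit 0) (nat_lit 0) (nat_lit 0) (nat_lit 0x80029938e) (nat_lit 1073741824),
  Rx.mk (nat_lit 127) (nat_lit 7) (nat_lit 7) (nat_lit 1) (nat_lit 7) (nat_lit 263) (nat_lit 260) r11_263 r11_260 (nat_lit 0) (nat_lit 0) (nat_lit 0) (nat_lit 0x80029938e) (nat_lit 1073741824),
  Rx.mk (nat_lit 164) (nat_lit 4) (nat_lit 4) (nat_lit 2) (nat_lit 4) (nat_lit 238) (nat_lit 239) r11_238 r11_239 (nat_lit 10912764) (nat_lit 12094471) (nat_lit 0) (nat_lit 0x7d59a31dc) (nat_lit 1141019859),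
  Rx.mk (nat_lit 165) (nat_lit 5) (nat_lit 4) (nat_lit 2) (nat_lit 5) (nat_lit 241) (nat_lit 248) r11_241 r11_248 (nat_lit 0) (nat_lit 5449534) (nat_lit 0) (nat_lit 0x80029938e) (nat_lit 1079191358),
  Rx.mk (nat_lit 167) (nat_lit 7) (nat_lit 4) (nat_lit 2) (nat_lit 5) (nat_lit 245) (nat_lit 256) r11_245 r11_256 (nat_lit 0) (nat_lit 5449534) (nat_lit 0) (nat_lit 0x80029938e) (nat_lit 1079191358),
  Rx.mk (nat_lit 172) (nat_lit 4) (nat_lit 5) (nat_lit 2) (nat_lit 6) (nat_lit 247) (nat_lit 242) r11_247 r11_242 (nat_lit 5449534) (nat_lit 0) (nat_lit 0) (nat_lit 0x80029938e) (nat_lit 1079191358),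
  Rx.mk (nat_lit 173) (nat_lit 5) (nat_lit 5) (nat_lit 2) (nat_lit 7) (nat_lit 250) (nat_lit 251) r11_250 r11_251 (nat_lit 0) (nat_lit 0) (nat_lit 0) (nat_lit 0x80029938e) (nat_lit 1073741824),
  Rx.mk (nat_lit 175) (nat_lit 7) (nat_lit 5) (nat_lit 2) (nat_lit 7) (nat_lit 253) (nat_lit 258) r11_253 r11_258 (nat_lit 0) (nat_lit 0) (nat_lit 0) (nat_lit 0x80029938e) (nat_lit 1073741824),
  Rx.mk (nat_lit 191) (nat_lit 7) (nat_lit 7) (nat_lit 2) (nat_lit 7) (nat_lit 264) (nat_lit 261) r11_264 r11_261 (nat_lit 0) (nat_lit 0) (nat_lit 0) (nat_lit 0x80029938e) (nat_lit 1073741824),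
  Rx.mk (nat_lit 228) (nat_lit 4) (nat_lit 4) (nat_lit 3) (nat_lit 4) (nat_lit 239) (nat_lit 238) r11_239 r11_238 (nat_lit 12094471) (nat_lit 10912764) (nat_lit 0) (nat_lit 0x7d59a31dc) (nat_lit 1141019859),
  Rx.mk (nat_lit 229) (nat_lit 5) (nat_lit 4) (nat_lit 3) (nat_lit 5) (nat_lit 242) (nat_lit 247) r11_242 r11_247 (nat_lit 0) (nat_lit 5449534) (nat_lit 0) (nat_lit 0x80029938e) (nat_lit 1079191358),
  Rx.mk (nat_lit 236) (nat_lit 4) (nat_lit 5) (nat_lit 3) (nat_lit 6) (nat_lit 248) (nat_lit 241) r11_248 r11_241 (nat_lit 5449534) (nat_lit 0) (nat_lit 0) (nat_lit 0x80029938e) (nat_lit 1079191358),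
  Rx.mk (nat_lit 237) (nat_lit 5) (nat_lit 5) (nat_lit 3) (nat_lit 7) (nat_lit 251) (nat_lit 250) r11_251 r11_250 (nat_lit 0) (nat_lit 0) (nat_lit 0) (nat_lit 0x80029938e) (nat_lit 1073741824),
  Rx.mk (nat_lit 244) (nat_lit 4) (nat_lit 6) (nat_lit 3) (nat_lit 6) (nat_lit 256) (nat_lit 245) r11_256 r11_245 (nat_lit 5449534) (nat_lit 0) (nat_lit 0) (nat_lit 0x80029938e) (nat_lit 1079191358),
  Rx.mk (nat_lit 245) (nat_lit 5) (nat_lit 6) (nat_lit 3) (nat_lit 7) (nat_lit 258) (nat_lit 253) r11_258 r11_253 (nat_lit 0) (nat_lit 0) (nat_lit 0) (nat_lit 0x80029938e) (nat_lit 1073741824),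
  Rx.mk (nat_lit 246) (nat_lit 6) (nat_lit 6) (nat_lit 3) (nat_lit 7) (nat_lit 261) (nat_lit 264) r11_261 r11_264 (nat_lit 0) (nat_lit 0) (nat_lit 0) (nat_lit 0x80029938e) (nat_lit 1073741824)]
noncomputable def e29_21 : List Rx := [
  Rx.mk (nat_lit 342) (nat_lit 6) (nat_lit 2) (nat_lit 5) (nat_lit 7) (nat_lit 123) (nat_lit 147) r11_123 r9_147 (nat_lit 0) (nat_lit 0) (nat_lit 0) (nat_lit 0x80029938e) (nat_lit 1073741824),
  Rx.mk (nat_lit 374) (nat_lit 6) (nat_lit 6) (nat_lit 5) (nat_lit 7) (nat_lit 124) (nat_lit 146) r11_124 r9_146 (nat_lit 0) (nat_lit 0) (nat_lit 0) (nat_lit 0x80029938e) (nat_lit 1073741824)]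
noncomputable def e29_22 : List Rx := [
  Rx.mk (nat_lit 128) (nat_lit 0) (nat_lit 0) (nat_lit 2) (nat_lit 4) (nat_lit 91) (nat_lit 212) r11_91 r0_212 (nat_lit 177359743) (nat_lit 4290635) (nat_lit 0) (nat_lit 0x71206e3fa) (nat_lit 1503455502),
  Rx.mk (nat_lit 152) (nat_lit 0) (nat_lit 3) (nat_lit 2) (nat_lit 6) (nat_lit 97) (nat_lit 213) r11_97 r0_213 (nat_lit 55284396) (nat_lit 0) (nat_lit 0) (nat_lit 0x7f832bb06) (nat_lit 1137266720),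
  Rx.mk (nat_lit 155) (nat_lit 3) (nat_lit 3) (nat_lit 2) (nat_lit 7) (nat_lit 98) (nat_lit 214) r11_98 r0_214 (nat_lit 0) (nat_lit 0) (nat_lit 0) (nat_lit 0x805932ed4) (nat_lit 1068212724),
  Rx.mk (nat_lit 274) (nat_lit 2) (nat_lit 2) (nat_lit 4) (nat_lit 3) (nat_lit 94) (nat_lit 215) r11_94 r0_215 (nat_lit 0) (nat_lit 0) (nat_lit 2667019) (nat_lit 0x7fbf39062) (nat_lit 1080746543),
  Rx.mk (nat_lit 278) (nat_lit 6) (nat_lit 2) (nat_lit 4) (nat_lit 3) (nat_lit 96) (nat_lit 216) r11_96 r0_216 (nat_lit 0) (nat_lit 0) (nat_lit 2261537) (nat_lit 0x802c51546) (nat_lit 1073330661),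
  Rx.mk (nat_lit 310) (nat_lit 6) (nat_lit 6) (nat_lit 4) (nat_lit 3) (nat_lit 99) (nat_lit 217) r11_99 r0_217 (nat_lit 0) (nat_lit 0) (nat_lit 2191612) (nat_lit 0x7ea5f8ebe) (nat_lit 1098552836),
  Rx.mk (nat_lit 384) (nat_lit 0) (nat_lit 0) (nat_lit 6) (nat_lit 4) (nat_lit 92) (nat_lit 219) r11_92 r0_219 (nat_lit 1515078) (nat_lit 1327087) (nat_lit 0) (nat_lit 0x70dac8bde) (nat_lit 1329174389),
  Rx.mk (nat_lit 386) (nat_lit 2) (nat_lit 0) (nat_lit 6) (nat_lit 5) (nat_lit 93) (nat_lit 220) r11_93 r0_220 (nat_lit 0) (nat_lit 2711268) (nat_lit 0) (nat_lit 0x8030259d8) (nat_lit 1073539392),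
  Rx.mk (nat_lit 402) (nat_lit 2) (nat_lit 2) (nat_lit 6) (nat_lit 7) (nat_lit 95) (nat_lit 221) r11_95 r0_221 (nat_lit 0) (nat_lit 0) (nat_lit 0) (nat_lit 0x8024ca5ca) (nat_lit 1071555724),
  Rx.mk (nat_lit 502) (nat_lit 6) (nat_lit 6) (nat_lit 7) (nat_lit 7) (nat_lit 100) (nat_lit 218) r11_100 r0_218 (nat_lit 0) (nat_lit 0) (nat_lit 0) (nat_lit 0x80fd022a8) (nat_lit 1057853824)]
noncomputable def e29_23 : List Rx := [
  Rx.mk (nat_lit 128) (nat_lit 0) (nat_lit 0) (nat_lit 2) (nat_lit 4) (nat_lit 107) (nat_lit 234) r11_107 r1_234 (nat_lit 139026259) (nat_lit 4273280) (nat_lit 0) (nat_lit 0x7713b0612) (nat_lit 1365912963),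
  Rx.mk (nat_lit 152) (nat_lit 0) (nat_lit 3) (nat_lit 2) (nat_lit 6) (nat_lit 111) (nat_lit 235) r11_111 r1_235 (nat_lit 5449534) (nat_lit 0) (nat_lit 0) (nat_lit 0x800d59fb2) (nat_lit 1078501858),
  Rx.mk (nat_lit 155) (nat_lit 3) (nat_lit 3) (nat_lit 2) (nat_lit 7) (nat_lit 112) (nat_lit 236) r11_112 r1_236 (nat_lit 0) (nat_lit 0) (nat_lit 0) (nat_lit 0x8084b604c) (nat_lit 1065459024),
  Rx.mk (nat_lit 384) (nat_lit 0) (nat_lit 0) (nat_lit 6) (nat_lit 4) (nat_lit 108) (nat_lit 237) r11_108 r1_237 (nat_lit 8516193) (nat_lit 7636497) (nat_lit 0) (nat_lit 0x79092791e) (nat_lit 1206096814),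
  Rx.mk (nat_lit 386) (nat_lit 2) (nat_lit 0) (nat_lit 6) (nat_lit 5) (nat_lit 109) (nat_lit 238) r11_109 r1_238 (nat_lit 0) (nat_lit 5449534) (nat_lit 0) (nat_lit 0x80029938e) (nat_lit 1079191358),
  Rx.mk (nat_lit 402) (nat_lit 2) (nat_lit 2) (nat_lit 6) (nat_lit 7) (nat_lit 110) (nat_lit 239) r11_110 r1_239 (nat_lit 0) (nat_lit 0) (nat_lit 0) (nat_lit 0x80029938e) (nat_lit 1073741824)]
noncomputable def e29_24 : List Rx := [
  Rx.mk (nat_lit 152) (nat_lit 0) (nat_lit 3) (nat_lit 2) (nat_lit 6) (nat_lit 131) (nat_lit 205) r11_131 r4_205 (nat_lit 26745555) (nat_lit 0) (nat_lit 0) (nat_lit 0x7fe494c12) (nat_lit 1102412179),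
  Rx.mk (nat_lit 155) (nat_lit 3) (nat_lit 3) (nat_lit 2) (nat_lit 7) (nat_lit 134) (nat_lit 206) r11_134 r4_206 (nat_lit 0) (nat_lit 0) (nat_lit 0) (nat_lit 0x832cd703a) (nat_lit 1022477724),
  Rx.mk (nat_lit 187) (nat_lit 3) (nat_lit 7) (nat_lit 2) (nat_lit 7) (nat_lit 136) (nat_lit 207) r11_136 r4_207 (nat_lit 0) (nat_lit 0) (nat_lit 0) (nat_lit 0x80e2c1c04) (nat_lit 1059510024),
  Rx.mk (nat_lit 274) (nat_lit 2) (nat_lit 2) (nat_lit 4) (nat_lit 3) (nat_lit 127) (nat_lit 208) r11_127 r4_208 (nat_lit 0) (nat_lit 0) (nat_lit 2480456) (nat_lit 0x80331b106) (nat_lit 1073118480),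
  Rx.mk (nat_lit 278) (nat_lit 6) (nat_lit 2) (nat_lit 4) (nat_lit 3) (nat_lit 129) (nat_lit 209) r11_129 r4_209 (nat_lit 0) (nat_lit 0) (nat_lit 2654410) (nat_lit 0x7fede05b4) (nat_lit 1077722534),
  Rx.mk (nat_lit 384) (nat_lit 0) (nat_lit 0) (nat_lit 6) (nat_lit 4) (nat_lit 125) (nat_lit 212) r11_125 r4_212 (nat_lit 180054) (nat_lit 162008) (nat_lit 0) (nat_lit 0x66f25fd9c) (nat_lit 1491827986),
  Rx.mk (nat_lit 386) (nat_lit 2) (nat_lit 0) (nat_lit 6) (nat_lit 5) (nat_lit 126) (nat_lit 214) r11_126 r4_214 (nat_lit 0) (nat_lit 1914977) (nat_lit 0) (nat_lit 0x805cba6f6) (nat_lit 1069908001),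
  Rx.mk (nat_lit 402) (nat_lit 2) (nat_lit 2) (nat_lit 6) (nat_lit 7) (nat_lit 128) (nat_lit 216) r11_128 r4_216 (nat_lit 0) (nat_lit 0) (nat_lit 0) (nat_lit 0x8038253f4) (nat_lit 1070320124),
  Rx.mk (nat_lit 408) (nat_lit 0) (nat_lit 3) (nat_lit 6) (nat_lit 6) (nat_lit 132) (nat_lit 213) r11_132 r4_213 (nat_lit 2501188) (nat_lit 0) (nat_lit 0) (nat_lit 0x802edd148) (nat_lit 1073408112),
  Rx.mk (nat_lit 410) (nat_lit 2) (nat_lit 3) (nat_lit 6) (nat_lit 7) (nat_lit 133) (nat_lit 215) r11_133 r4_215 (nat_lit 0) (nat_lit 0) (nat_lit 0) (nat_lit 0x803a9eba8) (nat_lit 1070162724),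
  Rx.mk (nat_lit 470) (nat_lit 6) (nat_lit 2) (nat_lit 7) (nat_lit 7) (nat_lit 130) (nat_lit 210) r11_130 r4_210 (nat_lit 0) (nat_lit 0) (nat_lit 0) (nat_lit 0x80c72ecda) (nat_lit 1061253024),
  Rx.mk (nat_lit 502) (nat_lit 6) (nat_lit 6) (nat_lit 7) (nat_lit 7) (nat_lit 135) (nat_lit 211) r11_135 r4_211 (nat_lit 0) (nat_lit 0) (nat_lit 0) (nat_lit 0x867de86ba) (nat_lit 968842524)]
noncomputable def e29_25 : List Rx := [
  Rx.mk (nat_lit 274) (nat_lit 2) (nat_lit 2) (nat_lit 4) (nat_lit 3) (nat_lit 102) (nat_lit 202) r11_102 r7_202 (nat_lit 0) (nat_lit 0) (nat_lit 6685557) (nat_lit 0x7fa33a33e) (nat_lit 1086587581),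
  Rx.mk (nat_lit 278) (nat_lit 6) (nat_lit 2) (nat_lit 4) (nat_lit 3) (nat_lit 104) (nat_lit 201) r11_104 r7_201 (nat_lit 0) (nat_lit 0) (nat_lit 5449534) (nat_lit 0x80029938e) (nat_lit 1079191358),
  Rx.mk (nat_lit 310) (nat_lit 6) (nat_lit 6) (nat_lit 4) (nat_lit 3) (nat_lit 105) (nat_lit 198) r11_105 r7_198 (nat_lit 0) (nat_lit 0) (nat_lit 2301147) (nat_lit 0x8062f057a) (nat_lit 1069902071),
  Rx.mk (nat_lit 386) (nat_lit 2) (nat_lit 0) (nat_lit 6) (nat_lit 5) (nat_lit 101) (nat_lit 200) r11_101 r7_200 (nat_lit 0) (nat_lit 5449534) (nat_lit 0) (nat_lit 0x80029938e) (nat_lit 1079191358),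
  Rx.mk (nat_lit 402) (nat_lit 2) (nat_lit 2) (nat_lit 6) (nat_lit 7) (nat_lit 103) (nat_lit 203) r11_103 r7_203 (nat_lit 0) (nat_lit 0) (nat_lit 0) (nat_lit 0x80029938e) (nat_lit 1073741824),
  Rx.mk (nat_lit 502) (nat_lit 6) (nat_lit 6) (nat_lit 7) (nat_lit 7) (nat_lit 106) (nat_lit 199) r11_106 r7_199 (nat_lit 0) (nat_lit 0) (nat_lit 0) (nat_lit 0x804200450) (nat_lit 1069693624)]
noncomputable def e29_26 : List Rx := [
  Rx.mk (nat_lit 386) (nat_lit 2) (nat_lit 0) (nat_lit 6) (nat_lit 5) (nat_lit 113) (nat_lit 157) r11_113 r8_157 (nat_lit 0) (nat_lit 5449534) (nat_lit 0) (nat_lit 0x80029938e) (nat_lit 1079191358),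
  Rx.mk (nat_lit 402) (nat_lit 2) (nat_lit 2) (nat_lit 6) (nat_lit 7) (nat_lit 114) (nat_lit 158) r11_114 r8_158 (nat_lit 0) (nat_lit 0) (nat_lit 0) (nat_lit 0x80029938e) (nat_lit 1073741824)]
noncomputable def e29_27 : List Rx := [
  Rx.mk (nat_lit 274) (nat_lit 2) (nat_lit 2) (nat_lit 4) (nat_lit 3) (nat_lit 115) (nat_lit 206) r11_115 r8_206 (nat_lit 0) (nat_lit 0) (nat_lit 5612407) (nat_lit 0x7ff40af5c) (nat_lit 1080288431),
  Rx.mk (nat_lit 278) (nat_lit 6) (nat_lit 2) (nat_lit 4) (nat_lit 3) (nat_lit 118) (nat_lit 207) r11_118 r8_207 (nat_lit 0) (nat_lit 0) (nat_lit 5449534) (nat_lit 0x80029938e) (nat_lit 1079191358),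
  Rx.mk (nat_lit 310) (nat_lit 6) (nat_lit 6) (nat_lit 4) (nat_lit 3) (nat_lit 120) (nat_lit 208) r11_120 r8_208 (nat_lit 0) (nat_lit 0) (nat_lit 4232301) (nat_lit 0x8010bf30a) (nat_lit 1077067325),
  Rx.mk (nat_lit 338) (nat_lit 2) (nat_lit 2) (nat_lit 5) (nat_lit 7) (nat_lit 116) (nat_lit 209) r11_116 r8_209 (nat_lit 0) (nat_lit 0) (nat_lit 0) (nat_lit 0x80029938e) (nat_lit 1073741824),
  Rx.mk (nat_lit 342) (nat_lit 6) (nat_lit 2) (nat_lit 5) (nat_lit 7) (nat_lit 119) (nat_lit 210) r11_119 r8_210 (nat_lit 0) (nat_lit 0) (nat_lit 0) (nat_lit 0x80029938e) (nat_lit 1073741824),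
  Rx.mk (nat_lit 374) (nat_lit 6) (nat_lit 6) (nat_lit 5) (nat_lit 7) (nat_lit 121) (nat_lit 211) r11_121 r8_211 (nat_lit 0) (nat_lit 0) (nat_lit 0) (nat_lit 0x80029938e) (nat_lit 1073741824),
  Rx.mk (nat_lit 402) (nat_lit 2) (nat_lit 2) (nat_lit 6) (nat_lit 7) (nat_lit 117) (nat_lit 213) r11_117 r8_213 (nat_lit 0) (nat_lit 0) (nat_lit 0) (nat_lit 0x80029938e) (nat_lit 1073741824),
  Rx.mk (nat_lit 502) (nat_lit 6) (nat_lit 6) (nat_lit 7) (nat_lit 7) (nat_lit 122) (nat_lit 212) r11_122 r8_212 (nat_lit 0) (nat_lit 0) (nat_lit 0) (nat_lit 0x80029938e) (nat_lit 1073741824)]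
noncomputable def e29_28 : List Rx := [
  Rx.mk (nat_lit 274) (nat_lit 2) (nat_lit 2) (nat_lit 4) (nat_lit 3) (nat_lit 138) (nat_lit 159) r11_138 r10_159 (nat_lit 0) (nat_lit 0) (nat_lit 5449534) (nat_lit 0x80029938e) (nat_lit 1079191358),
  Rx.mk (nat_lit 278) (nat_lit 6) (nat_lit 2) (nat_lit 4) (nat_lit 3) (nat_lit 140) (nat_lit 157) r11_140 r10_157 (nat_lit 0) (nat_lit 0) (nat_lit 5449534) (nat_lit 0x80029938e) (nat_lit 1079191358),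
  Rx.mk (nat_lit 386) (nat_lit 2) (nat_lit 0) (nat_lit 6) (nat_lit 5) (nat_lit 137) (nat_lit 155) r11_137 r10_155 (nat_lit 0) (nat_lit 5449534) (nat_lit 0) (nat_lit 0x80029938e) (nat_lit 1079191358),
  Rx.mk (nat_lit 402) (nat_lit 2) (nat_lit 2) (nat_lit 6) (nat_lit 7) (nat_lit 139) (nat_lit 160) r11_139 r10_160 (nat_lit 0) (nat_lit 0) (nat_lit 0) (nat_lit 0x80029938e) (nat_lit 1073741824),
  Rx.mk (nat_lit 410) (nat_lit 2) (nat_lit 3) (nat_lit 6) (nat_lit 7) (nat_lit 142) (nat_lit 156) r11_142 r10_156 (nat_lit 0) (nat_lit 0) (nat_lit 0) (nat_lit 0x80029938e) (nat_lit 1073741824),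
  Rx.mk (nat_lit 470) (nat_lit 6) (nat_lit 2) (nat_lit 7) (nat_lit 7) (nat_lit 141) (nat_lit 158) r11_141 r10_158 (nat_lit 0) (nat_lit 0) (nat_lit 0) (nat_lit 0x80029938e) (nat_lit 1073741824),
  Rx.mk (nat_lit 502) (nat_lit 6) (nat_lit 6) (nat_lit 7) (nat_lit 7) (nat_lit 143) (nat_lit 154) r11_143 r10_154 (nat_lit 0) (nat_lit 0) (nat_lit 0) (nat_lit 0x8037ea8d0) (nat_lit 1070334824)]
noncomputable def e29_29 : List Rx := [
  Rx.mk (nat_lit 63) (nat_lit 7) (nat_lit 7) (nat_lit 0) (nat_lit 3) (nat_lit 161) (nat_lit 146) r11_161 r11_146 (nat_lit 0) (nat_lit 0) (nat_lit 5449534) (nat_lit 0x7fcac9634) (nat_lit 1082787558),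
  Rx.mk (nat_lit 155) (nat_lit 3) (nat_lit 3) (nat_lit 2) (nat_lit 7) (nat_lit 152) (nat_lit 158) r11_152 r11_158 (nat_lit 0) (nat_lit 0) (nat_lit 0) (nat_lit 0x85a1b9e32) (nat_lit 982752224),
  Rx.mk (nat_lit 187) (nat_lit 3) (nat_lit 7) (nat_lit 2) (nat_lit 7) (nat_lit 160) (nat_lit 149) r11_160 r11_149 (nat_lit 0) (nat_lit 0) (nat_lit 0) (nat_lit 0x80342291e) (nat_lit 1070576824),
  Rx.mk (nat_lit 191) (nat_lit 7) (nat_lit 7) (nat_lit 2) (nat_lit 7) (nat_lit 162) (nat_lit 148) r11_162 r11_148 (nat_lit 0) (nat_lit 0) (nat_lit 0) (nat_lit 0x80029938e) (nat_lit 1073741824),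
  Rx.mk (nat_lit 228) (nat_lit 4) (nat_lit 4) (nat_lit 3) (nat_lit 4) (nat_lit 154) (nat_lit 144) r11_154 r11_144 (nat_lit 241552) (nat_lit 197139) (nat_lit 0) (nat_lit 0x77eb907c6) (nat_lit 1208937315),
  Rx.mk (nat_lit 231) (nat_lit 7) (nat_lit 4) (nat_lit 3) (nat_lit 5) (nat_lit 155) (nat_lit 145) r11_155 r11_145 (nat_lit 0) (nat_lit 3711888) (nat_lit 0) (nat_lit 0x802a4a2ac) (nat_lit 1074920912),
  Rx.mk (nat_lit 244) (nat_lit 4) (nat_lit 6) (nat_lit 3) (nat_lit 6) (nat_lit 156) (nat_lit 150) r11_156 r11_150 (nat_lit 5516626) (nat_lit 0) (nat_lit 0) (nat_lit 0x7ffc1e82e) (nat_lit 1079674250),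
  Rx.mk (nat_lit 246) (nat_lit 6) (nat_lit 6) (nat_lit 3) (nat_lit 7) (nat_lit 157) (nat_lit 153) r11_157 r11_153 (nat_lit 0) (nat_lit 0) (nat_lit 0) (nat_lit 0x7ffe2c38c) (nat_lit 1074025524),
  Rx.mk (nat_lit 247) (nat_lit 7) (nat_lit 6) (nat_lit 3) (nat_lit 7) (nat_lit 159) (nat_lit 151) r11_159 r11_151 (nat_lit 0) (nat_lit 0) (nat_lit 0) (nat_lit 0x80029938e) (nat_lit 1073741824),
  Rx.mk (nat_lit 255) (nat_lit 7) (nat_lit 7) (nat_lit 3) (nat_lit 7) (nat_lit 163) (nat_lit 147) r11_163 r11_147 (nat_lit 0) (nat_lit 0) (nat_lit 0) (nat_lit 0x80029938e) (nat_lit 1073741824),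
  Rx.mk (nat_lit 274) (nat_lit 2) (nat_lit 2) (nat_lit 4) (nat_lit 3) (nat_lit 146) (nat_lit 161) r11_146 r11_161 (nat_lit 0) (nat_lit 0) (nat_lit 5449534) (nat_lit 0x7fcac9634) (nat_lit 1082787558),
  Rx.mk (nat_lit 384) (nat_lit 0) (nat_lit 0) (nat_lit 6) (nat_lit 4) (nat_lit 144) (nat_lit 154) r11_144 r11_154 (nat_lit 241552) (nat_lit 197139) (nat_lit 0) (nat_lit 0x77eb907c6) (nat_lit 1208937315),
  Rx.mk (nat_lit 386) (nat_lit 2) (nat_lit 0) (nat_lit 6) (nat_lit 5) (nat_lit 145) (nat_lit 155) r11_145 r11_155 (nat_lit 0) (nat_lit 3711888) (nat_lit 0) (nat_lit 0x802a4a2ac) (nat_lit 1074920912),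
  Rx.mk (nat_lit 402) (nat_lit 2) (nat_lit 2) (nat_lit 6) (nat_lit 7) (nat_lit 147) (nat_lit 163) r11_147 r11_163 (nat_lit 0) (nat_lit 0) (nat_lit 0) (nat_lit 0x80029938e) (nat_lit 1073741824),
  Rx.mk (nat_lit 408) (nat_lit 0) (nat_lit 3) (nat_lit 6) (nat_lit 6) (nat_lit 150) (nat_lit 156) r11_150 r11_156 (nat_lit 5516626) (nat_lit 0) (nat_lit 0) (nat_lit 0x7ffc1e82e) (nat_lit 1079674250),
  Rx.mk (nat_lit 410) (nat_lit 2) (nat_lit 3) (nat_lit 6) (nat_lit 7) (nat_lit 151) (nat_lit 159) r11_151 r11_159 (nat_lit 0) (nat_lit 0) (nat_lit 0) (nat_lit 0x80029938e) (nat_lit 1073741824),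
  Rx.mk (nat_lit 411) (nat_lit 3) (nat_lit 3) (nat_lit 6) (nat_lit 7) (nat_lit 153) (nat_lit 157) r11_153 r11_157 (nat_lit 0) (nat_lit 0) (nat_lit 0) (nat_lit 0x7ffe2c38c) (nat_lit 1074025524),
  Rx.mk (nat_lit 466) (nat_lit 2) (nat_lit 2) (nat_lit 7) (nat_lit 7) (nat_lit 148) (nat_lit 162) r11_148 r11_162 (nat_lit 0) (nat_lit 0) (nat_lit 0) (nat_lit 0x80029938e) (nat_lit 1073741824),
  Rx.mk (nat_lit 470) (nat_lit 6) (nat_lit 2) (nat_lit 7) (nat_lit 7) (nat_lit 149) (nat_lit 160) r11_149 r11_160 (nat_lit 0) (nat_lit 0) (nat_lit 0) (nat_lit 0x80342291e) (nat_lit 1070576824),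
  Rx.mk (nat_lit 502) (nat_lit 6) (nat_lit 6) (nat_lit 7) (nat_lit 7) (nat_lit 158) (nat_lit 152) r11_158 r11_152 (nat_lit 0) (nat_lit 0) (nat_lit 0) (nat_lit 0x85a1b9e32) (nat_lit 982752224)]
noncomputable def e29_30 : List Rx := [
  Rx.mk (nat_lit 39) (nat_lit 7) (nat_lit 4) (nat_lit 0) (nat_lit 1) (nat_lit 273) (nat_lit 316) r11_273 r5_316 (nat_lit 0) (nat_lit 4471406) (nat_lit 4395115) (nat_lit 0x7107ec890) (nat_lit 1332271445),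
  Rx.mk (nat_lit 47) (nat_lit 7) (nat_lit 5) (nat_lit 0) (nat_lit 3) (nat_lit 276) (nat_lit 317) r11_276 r5_317 (nat_lit 0) (nat_lit 0) (nat_lit 3845654) (nat_lit 0x8031f6d2a) (nat_lit 1074563378),
  Rx.mk (nat_lit 55) (nat_lit 7) (nat_lit 6) (nat_lit 0) (nat_lit 3) (nat_lit 279) (nat_lit 318) r11_279 r5_318 (nat_lit 0) (nat_lit 0) (nat_lit 3932094) (nat_lit 0x801ccaf14) (nat_lit 1075997118),
  Rx.mk (nat_lit 103) (nat_lit 7) (nat_lit 4) (nat_lit 1) (nat_lit 5) (nat_lit 274) (nat_lit 319) r11_274 r5_319 (nat_lit 0) (nat_lit 4540409) (nat_lit 0) (nat_lit 0x7ffd351cc) (nat_lit 1078626533),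
  Rx.mk (nat_lit 111) (nat_lit 7) (nat_lit 5) (nat_lit 1) (nat_lit 7) (nat_lit 277) (nat_lit 320) r11_277 r5_320 (nat_lit 0) (nat_lit 0) (nat_lit 0) (nat_lit 0x80029938e) (nat_lit 1073741824),
  Rx.mk (nat_lit 119) (nat_lit 7) (nat_lit 6) (nat_lit 1) (nat_lit 7) (nat_lit 280) (nat_lit 321) r11_280 r5_321 (nat_lit 0) (nat_lit 0) (nat_lit 0) (nat_lit 0x80029938e) (nat_lit 1073741824),
  Rx.mk (nat_lit 167) (nat_lit 7) (nat_lit 4) (nat_lit 2) (nat_lit 5) (nat_lit 275) (nat_lit 322) r11_275 r5_322 (nat_lit 0) (nat_lit 4883967) (nat_lit 0) (nat_lit 0x7fed9eae2) (nat_lit 1079973691),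
  Rx.mk (nat_lit 175) (nat_lit 7) (nat_lit 5) (nat_lit 2) (nat_lit 7) (nat_lit 278) (nat_lit 323) r11_278 r5_323 (nat_lit 0) (nat_lit 0) (nat_lit 0) (nat_lit 0x80029938e) (nat_lit 1073741824)]
noncomputable def e29_31 : List Rx := [
  Rx.mk (nat_lit 103) (nat_lit 7) (nat_lit 4) (nat_lit 1) (nat_lit 5) (nat_lit 281) (nat_lit 368) r11_281 r11_368 (nat_lit 0) (nat_lit 5649802) (nat_lit 0) (nat_lit 0x7ff512e2c) (nat_lit 1080260426),
  Rx.mk (nat_lit 111) (nat_lit 7) (nat_lit 5) (nat_lit 1) (nat_lit 7) (nat_lit 282) (nat_lit 369) r11_282 r11_369 (nat_lit 0) (nat_lit 0) (nat_lit 0) (nat_lit 0x80029938e) (nat_lit 1073741824),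
  Rx.mk (nat_lit 119) (nat_lit 7) (nat_lit 6) (nat_lit 1) (nat_lit 7) (nat_lit 283) (nat_lit 370) r11_283 r11_370 (nat_lit 0) (nat_lit 0) (nat_lit 0) (nat_lit 0x80029938e) (nat_lit 1073741824)]
noncomputable def e29_32 : List Rx := [
  Rx.mk (nat_lit 163) (nat_lit 3) (nat_lit 4) (nat_lit 2) (nat_lit 5) (nat_lit 284) (nat_lit 254) r11_284 r6_254 (nat_lit 0) (nat_lit 424298) (nat_lit 0) (nat_lit 0x882e6edee) (nat_lit 941930922),
  Rx.mk (nat_lit 171) (nat_lit 3) (nat_lit 5) (nat_lit 2) (nat_lit 7) (nat_lit 285) (nat_lit 255) r11_285 r6_255 (nat_lit 0) (nat_lit 0) (nat_lit 0) (nat_lit 0xa352ba304) (nat_lit 502613624),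
  Rx.mk (nat_lit 187) (nat_lit 3) (nat_lit 7) (nat_lit 2) (nat_lit 7) (nat_lit 286) (nat_lit 256) r11_286 r6_256 (nat_lit 0) (nat_lit 0) (nat_lit 0) (nat_lit 0x9a931abc8) (nat_lit 644086424)]
noncomputable def e29_33 : List Rx := [
  Rx.mk (nat_lit 187) (nat_lit 3) (nat_lit 7) (nat_lit 2) (nat_lit 7) (nat_lit 265) (nat_lit 230) r11_265 r5_230 (nat_lit 0) (nat_lit 0) (nat_lit 0) (nat_lit 0x9450c7056) (nat_lit 745300424)]
noncomputable def e29_34 : List Rx := []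
noncomputable def e29_35 : List Rx := [
  Rx.mk (nat_lit 39) (nat_lit 7) (nat_lit 4) (nat_lit 0) (nat_lit 1) (nat_lit 267) (nat_lit 356) r11_267 r6_356 (nat_lit 0) (nat_lit 1198594) (nat_lit 1583871) (nat_lit 0x786c3fe62) (nat_lit 1202933889),
  Rx.mk (nat_lit 47) (nat_lit 7) (nat_lit 5) (nat_lit 0) (nat_lit 3) (nat_lit 270) (nat_lit 359) r11_270 r6_359 (nat_lit 0) (nat_lit 0) (nat_lit 3783142) (nat_lit 0x8026e504e) (nat_lit 1075205966),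
  Rx.mk (nat_lit 55) (nat_lit 7) (nat_lit 6) (nat_lit 0) (nat_lit 3) (nat_lit 272) (nat_lit 362) r11_272 r6_362 (nat_lit 0) (nat_lit 0) (nat_lit 4589682) (nat_lit 0x80102e396) (nat_lit 1077461506),
  Rx.mk (nat_lit 163) (nat_lit 3) (nat_lit 4) (nat_lit 2) (nat_lit 5) (nat_lit 266) (nat_lit 357) r11_266 r6_357 (nat_lit 0) (nat_lit 670567) (nat_lit 0) (nat_lit 0x815ed8932) (nat_lit 1052331991),
  Rx.mk (nat_lit 167) (nat_lit 7) (nat_lit 4) (nat_lit 2) (nat_lit 5) (nat_lit 268) (nat_lit 358) r11_268 r6_358 (nat_lit 0) (nat_lit 2725786) (nat_lit 0) (nat_lit 0x80237ab70) (nat_lit 1074362110),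
  Rx.mk (nat_lit 171) (nat_lit 3) (nat_lit 5) (nat_lit 2) (nat_lit 7) (nat_lit 269) (nat_lit 360) r11_269 r6_360 (nat_lit 0) (nat_lit 0) (nat_lit 0) (nat_lit 0xa8336d212) (nat_lit 423737724),
  Rx.mk (nat_lit 175) (nat_lit 7) (nat_lit 5) (nat_lit 2) (nat_lit 7) (nat_lit 271) (nat_lit 361) r11_271 r6_361 (nat_lit 0) (nat_lit 0) (nat_lit 0) (nat_lit 0x80029938e) (nat_lit 1073741824)]
noncomputable def e29_36 : List Rx := [
  Rx.mk (nat_lit 39) (nat_lit 7) (nat_lit 4) (nat_lit 0) (nat_lit 1) (nat_lit 288) (nat_lit 232) r11_288 r12_232 (nat_lit 0) (nat_lit 654576) (nat_lit 667034) (nat_lit 0x7581a5c14) (nat_lit 1250087734),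
  Rx.mk (nat_lit 47) (nat_lit 7) (nat_lit 5) (nat_lit 0) (nat_lit 3) (nat_lit 292) (nat_lit 235) r11_292 r12_235 (nat_lit 0) (nat_lit 0) (nat_lit 3008720) (nat_lit 0x801ff6e9a) (nat_lit 1074868444),
  Rx.mk (nat_lit 55) (nat_lit 7) (nat_lit 6) (nat_lit 0) (nat_lit 3) (nat_lit 295) (nat_lit 238) r11_295 r12_238 (nat_lit 0) (nat_lit 0) (nat_lit 3490265) (nat_lit 0x802c425e6) (nat_lit 1074569689),
  Rx.mk (nat_lit 163) (nat_lit 3) (nat_lit 4) (nat_lit 2) (nat_lit 5) (nat_lit 287) (nat_lit 229) r11_287 r12_229 (nat_lit 0) (nat_lit 264456) (nat_lit 0) (nat_lit 0x893fc6a14) (nat_lit 924489980),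
  Rx.mk (nat_lit 167) (nat_lit 7) (nat_lit 4) (nat_lit 2) (nat_lit 5) (nat_lit 289) (nat_lit 234) r11_289 r12_234 (nat_lit 0) (nat_lit 2043450) (nat_lit 0) (nat_lit 0x808aabb28) (nat_lit 1067127174),
  Rx.mk (nat_lit 171) (nat_lit 3) (nat_lit 5) (nat_lit 2) (nat_lit 7) (nat_lit 291) (nat_lit 230) r11_291 r12_230 (nat_lit 0) (nat_lit 0) (nat_lit 0) (nat_lit 0xa72f83a76) (nat_lit 440151724),
  Rx.mk (nat_lit 175) (nat_lit 7) (nat_lit 5) (nat_lit 2) (nat_lit 7) (nat_lit 293) (nat_lit 237) r11_293 r12_237 (nat_lit 0) (nat_lit 0) (nat_lit 0) (nat_lit 0x800bd3882) (nat_lit 1073150124),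
  Rx.mk (nat_lit 187) (nat_lit 3) (nat_lit 7) (nat_lit 2) (nat_lit 7) (nat_lit 297) (nat_lit 231) r11_297 r12_231 (nat_lit 0) (nat_lit 0) (nat_lit 0) (nat_lit 0x99df62cde) (nat_lit 655430324),
  Rx.mk (nat_lit 231) (nat_lit 7) (nat_lit 4) (nat_lit 3) (nat_lit 5) (nat_lit 290) (nat_lit 233) r11_290 r12_233 (nat_lit 0) (nat_lit 1252562) (nat_lit 0) (nat_lit 0x8181ac3aa) (nat_lit 1050719286),
  Rx.mk (nat_lit 239) (nat_lit 7) (nat_lit 5) (nat_lit 3) (nat_lit 7) (nat_lit 294) (nat_lit 236) r11_294 r12_236 (nat_lit 0) (nat_lit 0) (nat_lit 0) (nat_lit 0x801ddd582) (nat_lit 1071996524),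
  Rx.mk (nat_lit 247) (nat_lit 7) (nat_lit 6) (nat_lit 3) (nat_lit 7) (nat_lit 296) (nat_lit 239) r11_296 r12_239 (nat_lit 0) (nat_lit 0) (nat_lit 0) (nat_lit 0x802e32856) (nat_lit 1070956024)]
noncomputable def e29_37 : List Rx := [
  Rx.mk (nat_lit 136) (nat_lit 0) (nat_lit 1) (nat_lit 2) (nat_lit 6) (nat_lit 300) (nat_lit 226) r11_300 r0_226 (nat_lit 3044938) (nat_lit 0) (nat_lit 0) (nat_lit 0x80a25caec) (nat_lit 1066625862),
  Rx.mk (nat_lit 139) (nat_lit 3) (nat_lit 1) (nat_lit 2) (nat_lit 7) (nat_lit 301) (nat_lit 227) r11_301 r0_227 (nat_lit 0) (nat_lit 0) (nat_lit 0) (nat_lit 0x811726e18) (nat_lit 1056188224),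
  Rx.mk (nat_lit 168) (nat_lit 0) (nat_lit 5) (nat_lit 2) (nat_lit 6) (nat_lit 302) (nat_lit 225) r11_302 r0_225 (nat_lit 2075395) (nat_lit 0) (nat_lit 0) (nat_lit 0x7fa625f44) (nat_lit 1081791519)]
noncomputable def e29_38 : List Rx := [
  Rx.mk (nat_lit 168) (nat_lit 0) (nat_lit 5) (nat_lit 2) (nat_lit 6) (nat_lit 298) (nat_lit 328) r11_298 r0_328 (nat_lit 4405947) (nat_lit 0) (nat_lit 0) (nat_lit 0x7ffb995de) (nat_lit 1078595171),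
  Rx.mk (nat_lit 169) (nat_lit 1) (nat_lit 5) (nat_lit 2) (nat_lit 7) (nat_lit 299) (nat_lit 329) r11_299 r0_329 (nat_lit 0) (nat_lit 0) (nat_lit 0) (nat_lit 0x800a900e2) (nat_lit 1073231224)]
noncomputable def e29_39 : List Rx := [
  Rx.mk (nat_lit 136) (nat_lit 0) (nat_lit 1) (nat_lit 2) (nat_lit 6) (nat_lit 303) (nat_lit 289) r11_303 r7_289 (nat_lit 5449534) (nat_lit 0) (nat_lit 0) (nat_lit 0x80029938e) (nat_lit 1079191358),
  Rx.mk (nat_lit 137) (nat_lit 1) (nat_lit 1) (nat_lit 2) (nat_lit 7) (nat_lit 304) (nat_lit 291) r11_304 r7_291 (nat_lit 0) (nat_lit 0) (nat_lit 0) (nat_lit 0x80029938e) (nat_lit 1073741824),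
  Rx.mk (nat_lit 139) (nat_lit 3) (nat_lit 1) (nat_lit 2) (nat_lit 7) (nat_lit 305) (nat_lit 292) r11_305 r7_292 (nat_lit 0) (nat_lit 0) (nat_lit 0) (nat_lit 0x80029938e) (nat_lit 1073741824),
  Rx.mk (nat_lit 168) (nat_lit 0) (nat_lit 5) (nat_lit 2) (nat_lit 6) (nat_lit 306) (nat_lit 288) r11_306 r7_288 (nat_lit 2211577) (nat_lit 0) (nat_lit 0) (nat_lit 0x80826cbe2) (nat_lit 1067819001),
  Rx.mk (nat_lit 169) (nat_lit 1) (nat_lit 5) (nat_lit 2) (nat_lit 7) (nat_lit 307) (nat_lit 290) r11_307 r7_290 (nat_lit 0) (nat_lit 0) (nat_lit 0) (nat_lit 0x804af24dc) (nat_lit 1069126324)]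
noncomputable def e29_40 : List Rx := [
  Rx.mk (nat_lit 45) (nat_lit 5) (nat_lit 5) (nat_lit 0) (nat_lit 3) (nat_lit 340) (nat_lit 356) r11_340 r2_356 (nat_lit 0) (nat_lit 0) (nat_lit 6662062) (nat_lit 0x7fca8b1a4) (nat_lit 1084015286),
  Rx.mk (nat_lit 109) (nat_lit 5) (nat_lit 5) (nat_lit 1) (nat_lit 7) (nat_lit 341) (nat_lit 357) r11_341 r2_357 (nat_lit 0) (nat_lit 0) (nat_lit 0) (nat_lit 0x80029938e) (nat_lit 1073741824),
  Rx.mk (nat_lit 169) (nat_lit 1) (nat_lit 5) (nat_lit 2) (nat_lit 7) (nat_lit 339) (nat_lit 358) r11_339 r2_358 (nat_lit 0) (nat_lit 0) (nat_lit 0) (nat_lit 0x80029938e) (nat_lit 1073741824),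
  Rx.mk (nat_lit 173) (nat_lit 5) (nat_lit 5) (nat_lit 2) (nat_lit 7) (nat_lit 342) (nat_lit 359) r11_342 r2_359 (nat_lit 0) (nat_lit 0) (nat_lit 0) (nat_lit 0x80029938e) (nat_lit 1073741824)]
noncomputable def e29_41 : List Rx := [
  Rx.mk (nat_lit 45) (nat_lit 5) (nat_lit 5) (nat_lit 0) (nat_lit 3) (nat_lit 347) (nat_lit 320) r11_347 r9_320 (nat_lit 0) (nat_lit 0) (nat_lit 5449534) (nat_lit 0x7ffd1a084) (nat_lit 1079543858),
  Rx.mk (nat_lit 109) (nat_lit 5) (nat_lit 5) (nat_lit 1) (nat_lit 7) (nat_lit 348) (nat_lit 321) r11_348 r9_321 (nat_lit 0) (nat_lit 0) (nat_lit 0) (nat_lit 0x80029938e) (nat_lit 1073741824),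
  Rx.mk (nat_lit 137) (nat_lit 1) (nat_lit 1) (nat_lit 2) (nat_lit 7) (nat_lit 345) (nat_lit 319) r11_345 r9_319 (nat_lit 0) (nat_lit 0) (nat_lit 0) (nat_lit 0x80029938e) (nat_lit 1073741824),
  Rx.mk (nat_lit 169) (nat_lit 1) (nat_lit 5) (nat_lit 2) (nat_lit 7) (nat_lit 346) (nat_lit 322) r11_346 r9_322 (nat_lit 0) (nat_lit 0) (nat_lit 0) (nat_lit 0x80029938e) (nat_lit 1073741824),
  Rx.mk (nat_lit 173) (nat_lit 5) (nat_lit 5) (nat_lit 2) (nat_lit 7) (nat_lit 349) (nat_lit 323) r11_349 r9_323 (nat_lit 0) (nat_lit 0) (nat_lit 0) (nat_lit 0x80029938e) (nat_lit 1073741824)]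
noncomputable def e29_42 : List Rx := [
  Rx.mk (nat_lit 109) (nat_lit 5) (nat_lit 5) (nat_lit 1) (nat_lit 7) (nat_lit 350) (nat_lit 327) r11_350 r9_327 (nat_lit 0) (nat_lit 0) (nat_lit 0) (nat_lit 0x80029938e) (nat_lit 1073741824)]
noncomputable def e29_43 : List Rx := [
  Rx.mk (nat_lit 169) (nat_lit 1) (nat_lit 5) (nat_lit 2) (nat_lit 7) (nat_lit 338) (nat_lit 310) r11_338 r1_310 (nat_lit 0) (nat_lit 0) (nat_lit 0) (nat_lit 0x80029938e) (nat_lit 1073741824)]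
noncomputable def e29_44 : List Rx := [
  Rx.mk (nat_lit 137) (nat_lit 1) (nat_lit 1) (nat_lit 2) (nat_lit 7) (nat_lit 343) (nat_lit 220) r11_343 r8_220 (nat_lit 0) (nat_lit 0) (nat_lit 0) (nat_lit 0x80029938e) (nat_lit 1073741824),
  Rx.mk (nat_lit 169) (nat_lit 1) (nat_lit 5) (nat_lit 2) (nat_lit 7) (nat_lit 344) (nat_lit 219) r11_344 r8_219 (nat_lit 0) (nat_lit 0) (nat_lit 0) (nat_lit 0x80029938e) (nat_lit 1073741824)]
noncomputable def e29_45 : List Rx := [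
  Rx.mk (nat_lit 136) (nat_lit 0) (nat_lit 1) (nat_lit 2) (nat_lit 6) (nat_lit 333) (nat_lit 244) r11_333 r1_244 (nat_lit 3129371) (nat_lit 0) (nat_lit 0) (nat_lit 0x8036700c2) (nat_lit 1073557195),
  Rx.mk (nat_lit 139) (nat_lit 3) (nat_lit 1) (nat_lit 2) (nat_lit 7) (nat_lit 334) (nat_lit 245) r11_334 r1_245 (nat_lit 0) (nat_lit 0) (nat_lit 0) (nat_lit 0x80c2edd92) (nat_lit 1061523624)]
noncomputable def e29_46 : List Rx := [
  Rx.mk (nat_lit 128) (nat_lit 0) (nat_lit 0) (nat_lit 2) (nat_lit 4) (nat_lit 308) (nat_lit 260) r11_308 r2_260 (nat_lit 10390094) (nat_lit 9315237) (nat_lit 0) (nat_lit 0x78a9c488c) (nat_lit 1215867155),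
  Rx.mk (nat_lit 131) (nat_lit 3) (nat_lit 0) (nat_lit 2) (nat_lit 5) (nat_lit 311) (nat_lit 262) r11_311 r2_262 (nat_lit 0) (nat_lit 2910432) (nat_lit 0) (nat_lit 0x804c46c02) (nat_lit 1071955056),
  Rx.mk (nat_lit 136) (nat_lit 0) (nat_lit 1) (nat_lit 2) (nat_lit 6) (nat_lit 312) (nat_lit 261) r11_312 r2_261 (nat_lit 5449534) (nat_lit 0) (nat_lit 0) (nat_lit 0x80029938e) (nat_lit 1079191358),
  Rx.mk (nat_lit 139) (nat_lit 3) (nat_lit 1) (nat_lit 2) (nat_lit 7) (nat_lit 315) (nat_lit 263) r11_315 r2_263 (nat_lit 0) (nat_lit 0) (nat_lit 0) (nat_lit 0x80029938e) (nat_lit 1073741824),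
  Rx.mk (nat_lit 155) (nat_lit 3) (nat_lit 3) (nat_lit 2) (nat_lit 7) (nat_lit 317) (nat_lit 264) r11_317 r2_264 (nat_lit 0) (nat_lit 0) (nat_lit 0) (nat_lit 0x80029938e) (nat_lit 1073741824),
  Rx.mk (nat_lit 384) (nat_lit 0) (nat_lit 0) (nat_lit 6) (nat_lit 4) (nat_lit 309) (nat_lit 258) r11_309 r2_258 (nat_lit 10365630) (nat_lit 9794519) (nat_lit 0) (nat_lit 0x7c8c29d82) (nat_lit 1151554373),
  Rx.mk (nat_lit 386) (nat_lit 2) (nat_lit 0) (nat_lit 6) (nat_lit 5) (nat_lit 310) (nat_lit 265) r11_310 r2_265 (nat_lit 0) (nat_lit 5449534) (nat_lit 0) (nat_lit 0x80029938e) (nat_lit 1079191358),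
  Rx.mk (nat_lit 392) (nat_lit 0) (nat_lit 1) (nat_lit 6) (nat_lit 6) (nat_lit 313) (nat_lit 259) r11_313 r2_259 (nat_lit 5449534) (nat_lit 0) (nat_lit 0) (nat_lit 0x80029938e) (nat_lit 1079191358),
  Rx.mk (nat_lit 394) (nat_lit 2) (nat_lit 1) (nat_lit 6) (nat_lit 7) (nat_lit 314) (nat_lit 266) r11_314 r2_266 (nat_lit 0) (nat_lit 0) (nat_lit 0) (nat_lit 0x80029938e) (nat_lit 1073741824),
  Rx.mk (nat_lit 402) (nat_lit 2) (nat_lit 2) (nat_lit 6) (nat_lit 7) (nat_lit 316) (nat_lit 267) r11_316 r2_267 (nat_lit 0) (nat_lit 0) (nat_lit 0) (nat_lit 0x80029938e) (nat_lit 1073741824)]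
noncomputable def e29_47 : List Rx := [
  Rx.mk (nat_lit 136) (nat_lit 0) (nat_lit 1) (nat_lit 2) (nat_lit 6) (nat_lit 335) (nat_lit 358) r11_335 r8_358 (nat_lit 5449534) (nat_lit 0) (nat_lit 0) (nat_lit 0x80029938e) (nat_lit 1079191358),
  Rx.mk (nat_lit 137) (nat_lit 1) (nat_lit 1) (nat_lit 2) (nat_lit 7) (nat_lit 336) (nat_lit 359) r11_336 r8_359 (nat_lit 0) (nat_lit 0) (nat_lit 0) (nat_lit 0x80029938e) (nat_lit 1073741824),
  Rx.mk (nat_lit 139) (nat_lit 3) (nat_lit 1) (nat_lit 2) (nat_lit 7) (nat_lit 337) (nat_lit 360) r11_337 r8_360 (nat_lit 0) (nat_lit 0) (nat_lit 0) (nat_lit 0x80029938e) (nat_lit 1073741824)]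
noncomputable def e29_48 : List Rx := [
  Rx.mk (nat_lit 128) (nat_lit 0) (nat_lit 0) (nat_lit 2) (nat_lit 4) (nat_lit 318) (nat_lit 231) r11_318 r9_231 (nat_lit 35806592) (nat_lit 28325714) (nat_lit 0) (nat_lit 0x7d068baa8) (nat_lit 1187560530),
  Rx.mk (nat_lit 131) (nat_lit 3) (nat_lit 0) (nat_lit 2) (nat_lit 5) (nat_lit 321) (nat_lit 235) r11_321 r9_235 (nat_lit 0) (nat_lit 5449534) (nat_lit 0) (nat_lit 0x80029938e) (nat_lit 1079191358),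
  Rx.mk (nat_lit 136) (nat_lit 0) (nat_lit 1) (nat_lit 2) (nat_lit 6) (nat_lit 322) (nat_lit 232) r11_322 r9_232 (nat_lit 5449534) (nat_lit 0) (nat_lit 0) (nat_lit 0x80029938e) (nat_lit 1079191358),
  Rx.mk (nat_lit 137) (nat_lit 1) (nat_lit 1) (nat_lit 2) (nat_lit 7) (nat_lit 324) (nat_lit 234) r11_324 r9_234 (nat_lit 0) (nat_lit 0) (nat_lit 0) (nat_lit 0x80029938e) (nat_lit 1073741824),
  Rx.mk (nat_lit 139) (nat_lit 3) (nat_lit 1) (nat_lit 2) (nat_lit 7) (nat_lit 327) (nat_lit 236) r11_327 r9_236 (nat_lit 0) (nat_lit 0) (nat_lit 0) (nat_lit 0x80029938e) (nat_lit 1073741824),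
  Rx.mk (nat_lit 155) (nat_lit 3) (nat_lit 3) (nat_lit 2) (nat_lit 7) (nat_lit 329) (nat_lit 237) r11_329 r9_237 (nat_lit 0) (nat_lit 0) (nat_lit 0) (nat_lit 0x80029938e) (nat_lit 1073741824),
  Rx.mk (nat_lit 384) (nat_lit 0) (nat_lit 0) (nat_lit 6) (nat_lit 4) (nat_lit 319) (nat_lit 229) r11_319 r9_229 (nat_lit 11688394) (nat_lit 11688394) (nat_lit 0) (nat_lit 0x7bca66588) (nat_lit 1167391312),
  Rx.mk (nat_lit 386) (nat_lit 2) (nat_lit 0) (nat_lit 6) (nat_lit 5) (nat_lit 320) (nat_lit 238) r11_320 r9_238 (nat_lit 0) (nat_lit 5449534) (nat_lit 0) (nat_lit 0x80029938e) (nat_lit 1079191358),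
  Rx.mk (nat_lit 392) (nat_lit 0) (nat_lit 1) (nat_lit 6) (nat_lit 6) (nat_lit 323) (nat_lit 230) r11_323 r9_230 (nat_lit 5449534) (nat_lit 0) (nat_lit 0) (nat_lit 0x80029938e) (nat_lit 1079191358),
  Rx.mk (nat_lit 393) (nat_lit 1) (nat_lit 1) (nat_lit 6) (nat_lit 7) (nat_lit 325) (nat_lit 233) r11_325 r9_233 (nat_lit 0) (nat_lit 0) (nat_lit 0) (nat_lit 0x80029938e) (nat_lit 1073741824),
  Rx.mk (nat_lit 394) (nat_lit 2) (nat_lit 1) (nat_lit 6) (nat_lit 7) (nat_lit 326) (nat_lit 239) r11_326 r9_239 (nat_lit 0) (nat_lit 0) (nat_lit 0) (nat_lit 0x80029938e) (nat_lit 1073741824),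
  Rx.mk (nat_lit 402) (nat_lit 2) (nat_lit 2) (nat_lit 6) (nat_lit 7) (nat_lit 328) (nat_lit 240) r11_328 r9_240 (nat_lit 0) (nat_lit 0) (nat_lit 0) (nat_lit 0x80029938e) (nat_lit 1073741824)]
noncomputable def e29_49 : List Rx := [
  Rx.mk (nat_lit 386) (nat_lit 2) (nat_lit 0) (nat_lit 6) (nat_lit 5) (nat_lit 330) (nat_lit 216) r11_330 r9_216 (nat_lit 0) (nat_lit 5449534) (nat_lit 0) (nat_lit 0x80029938e) (nat_lit 1079191358),
  Rx.mk (nat_lit 394) (nat_lit 2) (nat_lit 1) (nat_lit 6) (nat_lit 7) (nat_lit 331) (nat_lit 217) r11_331 r9_217 (nat_lit 0) (nat_lit 0) (nat_lit 0) (nat_lit 0x80029938e) (nat_lit 1073741824),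
  Rx.mk (nat_lit 402) (nat_lit 2) (nat_lit 2) (nat_lit 6) (nat_lit 7) (nat_lit 332) (nat_lit 218) r11_332 r9_218 (nat_lit 0) (nat_lit 0) (nat_lit 0) (nat_lit 0x80029938e) (nat_lit 1073741824)]
noncomputable def e29_50 : List Rx := [
  Rx.mk (nat_lit 168) (nat_lit 0) (nat_lit 5) (nat_lit 2) (nat_lit 6) (nat_lit 351) (nat_lit 225) r11_351 r3_225 (nat_lit 43945288) (nat_lit 0) (nat_lit 0) (nat_lit 0x7fd2eddd8) (nat_lit 1120678112),
  Rx.mk (nat_lit 171) (nat_lit 3) (nat_lit 5) (nat_lit 2) (nat_lit 7) (nat_lit 352) (nat_lit 226) r11_352 r3_226 (nat_lit 0) (nat_lit 0) (nat_lit 0) (nat_lit 0xa03942e42) (nat_lit 552675224)]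
noncomputable def e29_51 : List Rx := [
  Rx.mk (nat_lit 139) (nat_lit 3) (nat_lit 1) (nat_lit 2) (nat_lit 7) (nat_lit 357) (nat_lit 228) r11_357 r4_228 (nat_lit 0) (nat_lit 0) (nat_lit 0) (nat_lit 0x841e5b4ec) (nat_lit 1007221824),
  Rx.mk (nat_lit 168) (nat_lit 0) (nat_lit 5) (nat_lit 2) (nat_lit 6) (nat_lit 358) (nat_lit 226) r11_358 r4_226 (nat_lit 2508955) (nat_lit 0) (nat_lit 0) (nat_lit 0x803850888) (nat_lit 1072812579),
  Rx.mk (nat_lit 171) (nat_lit 3) (nat_lit 5) (nat_lit 2) (nat_lit 7) (nat_lit 359) (nat_lit 227) r11_359 r4_227 (nat_lit 0) (nat_lit 0) (nat_lit 0) (nat_lit 0x86812eb26) (nat_lit 968635724)]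
noncomputable def e29_52 : List Rx := [
  Rx.mk (nat_lit 168) (nat_lit 0) (nat_lit 5) (nat_lit 2) (nat_lit 6) (nat_lit 366) (nat_lit 240) r11_366 r5_240 (nat_lit 3575816) (nat_lit 0) (nat_lit 0) (nat_lit 0x8092b4d56) (nat_lit 1068148740),
  Rx.mk (nat_lit 171) (nat_lit 3) (nat_lit 5) (nat_lit 2) (nat_lit 7) (nat_lit 367) (nat_lit 241) r11_367 r5_241 (nat_lit 0) (nat_lit 0) (nat_lit 0) (nat_lit 0x81eccd206) (nat_lit 1042695924)]
noncomputable def e29_53 : List Rx := [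
  Rx.mk (nat_lit 168) (nat_lit 0) (nat_lit 5) (nat_lit 2) (nat_lit 6) (nat_lit 353) (nat_lit 363) r11_353 r4_363 (nat_lit 4642613) (nat_lit 0) (nat_lit 0) (nat_lit 0x7fedac142) (nat_lit 1079729037),
  Rx.mk (nat_lit 169) (nat_lit 1) (nat_lit 5) (nat_lit 2) (nat_lit 7) (nat_lit 354) (nat_lit 364) r11_354 r4_364 (nat_lit 0) (nat_lit 0) (nat_lit 0) (nat_lit 0x800f551b8) (nat_lit 1072925424),
  Rx.mk (nat_lit 171) (nat_lit 3) (nat_lit 5) (nat_lit 2) (nat_lit 7) (nat_lit 355) (nat_lit 365) r11_355 r4_365 (nat_lit 0) (nat_lit 0) (nat_lit 0) (nat_lit 0x800f551b8) (nat_lit 1072925424)]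
noncomputable def e29_54 : List Rx := [
  Rx.mk (nat_lit 139) (nat_lit 3) (nat_lit 1) (nat_lit 2) (nat_lit 7) (nat_lit 360) (nat_lit 243) r11_360 r10_243 (nat_lit 0) (nat_lit 0) (nat_lit 0) (nat_lit 0x80029938e) (nat_lit 1073741824),
  Rx.mk (nat_lit 168) (nat_lit 0) (nat_lit 5) (nat_lit 2) (nat_lit 6) (nat_lit 361) (nat_lit 240) r11_361 r10_240 (nat_lit 2407548) (nat_lit 0) (nat_lit 0) (nat_lit 0x806441ffa) (nat_lit 1069926072),
  Rx.mk (nat_lit 169) (nat_lit 1) (nat_lit 5) (nat_lit 2) (nat_lit 7) (nat_lit 362) (nat_lit 241) r11_362 r10_241 (nat_lit 0) (nat_lit 0) (nat_lit 0) (nat_lit 0x803403b68) (nat_lit 1070584224),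
  Rx.mk (nat_lit 171) (nat_lit 3) (nat_lit 5) (nat_lit 2) (nat_lit 7) (nat_lit 363) (nat_lit 242) r11_363 r10_242 (nat_lit 0) (nat_lit 0) (nat_lit 0) (nat_lit 0x803403b68) (nat_lit 1070584224)]
noncomputable def e29_55 : List Rx := [
  Rx.mk (nat_lit 168) (nat_lit 0) (nat_lit 5) (nat_lit 2) (nat_lit 6) (nat_lit 368) (nat_lit 281) r11_368 r11_281 (nat_lit 5649802) (nat_lit 0) (nat_lit 0) (nat_lit 0x7ff512e2c) (nat_lit 1080260426),
  Rx.mk (nat_lit 169) (nat_lit 1) (nat_lit 5) (nat_lit 2) (nat_lit 7) (nat_lit 369) (nat_lit 282) r11_369 r11_282 (nat_lit 0) (nat_lit 0) (nat_lit 0) (nat_lit 0x80029938e) (nat_lit 1073741824),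
  Rx.mk (nat_lit 171) (nat_lit 3) (nat_lit 5) (nat_lit 2) (nat_lit 7) (nat_lit 370) (nat_lit 283) r11_370 r11_283 (nat_lit 0) (nat_lit 0) (nat_lit 0) (nat_lit 0x80029938e) (nat_lit 1073741824)]
noncomputable def e29_56 : List Rx := [
  Rx.mk (nat_lit 171) (nat_lit 3) (nat_lit 5) (nat_lit 2) (nat_lit 7) (nat_lit 356) (nat_lit 310) r11_356 r5_310 (nat_lit 0) (nat_lit 0) (nat_lit 0) (nat_lit 0x962b5e434) (nat_lit 715321324)]
noncomputable def e29_57 : List Rx := [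
  Rx.mk (nat_lit 139) (nat_lit 3) (nat_lit 1) (nat_lit 2) (nat_lit 7) (nat_lit 364) (nat_lit 364) r11_364 r11_364 (nat_lit 0) (nat_lit 0) (nat_lit 0) (nat_lit 0x8017b333c) (nat_lit 1072390724),
  Rx.mk (nat_lit 171) (nat_lit 3) (nat_lit 5) (nat_lit 2) (nat_lit 7) (nat_lit 365) (nat_lit 365) r11_365 r11_365 (nat_lit 0) (nat_lit 0) (nat_lit 0) (nat_lit 0x804399b86) (nat_lit 1069591024)]
noncomputable def e29 : List (List Rx) := [e29_0, e29_1, e29_2, e29_3, e29_4, e29_5, e29_6, e29_7, e29_8, e29_9, e29_10, e29_11, e29_12, e29_13, e29_14, e29_15, e29_16, e29_17, e29_18, e29_19, e29_20, e29_21, e29_22, e29_23, e29_24, e29_25, e29_26, e29_27, e29_28, e29_29, e29_30, e29_31, e29_32, e29_33, e29_34, e29_35, e29_36, e29_37, e29_38, e29_39, e29_40, e29_41, e29_42, e29_43, e29_44, e29_45, e29_46, e29_47, e29_48, e29_49, e29_50, e29_51, e29_52, e29_53, e29_54, e29_55,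 e29_56, e29_57]
noncomputable def e30_0 : List Rx := [
  Rx.mk (nat_lit 2) (nat_lit 2) (nat_lit 0) (nat_lit 0) (nat_lit 1) (nat_lit 94) (nat_lit 204) r5_94 r0_204 (nat_lit 0) (nat_lit 34408194) (nat_lit 42213) (nat_lit 0x8000d80ea) (nat_lit 1108162531),
  Rx.mk (nat_lit 6) (nat_lit 6) (nat_lit 0) (nat_lit 0) (nat_lit 1) (nat_lit 95) (nat_lit 209) r5_95 r0_209 (nat_lit 0) (nat_lit 2303) (nat_lit 1820) (nat_lit 0x7ff2f8664) (nat_lit 1074595147),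
  Rx.mk (nat_lit 22) (nat_lit 6) (nat_lit 2) (nat_lit 0) (nat_lit 3) (nat_lit 96) (nat_lit 210) r5_96 r0_210 (nat_lit 0) (nat_lit 0) (nat_lit 1204429) (nat_lit 0x804cfd8c6) (nat_lit 1070187653),
  Rx.mk (nat_lit 148) (nat_lit 4) (nat_lit 2) (nat_lit 2) (nat_lit 6) (nat_lit 97) (nat_lit 207) r5_97 r0_207 (nat_lit 1787242) (nat_lit 0) (nat_lit 0) (nat_lit 0x66db20c6c) (nat_lit 1494829666),
  Rx.mk (nat_lit 150) (nat_lit 6) (nat_lit 2) (nat_lit 2) (nat_lit 7) (nat_lit 98) (nat_lit 211) r5_98 r0_211 (nat_lit 0) (nat_lit 0) (nat_lit 0) (nat_lit 0x800cf614c) (nat_lit 1073076224),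
  Rx.mk (nat_lit 180) (nat_lit 4) (nat_lit 6) (nat_lit 2) (nat_lit 6) (nat_lit 99) (nat_lit 208) r5_99 r0_208 (nat_lit 2561812) (nat_lit 0) (nat_lit 0) (nat_lit 0x7ef938278) (nat_lit 1093505936),
  Rx.mk (nat_lit 194) (nat_lit 2) (nat_lit 0) (nat_lit 3) (nat_lit 5) (nat_lit 100) (nat_lit 205) r5_100 r0_205 (nat_lit 0) (nat_lit 275203489) (nat_lit 0) (nat_lit 0x7ef968536) (nat_lit 1366143013),
  Rx.mk (nat_lit 218) (nat_lit 2) (nat_lit 3) (nat_lit 3) (nat_lit 7) (nat_lit 101) (nat_lit 206) r5_101 r0_206 (nat_lit 0) (nat_lit 0) (nat_lit 0) (nat_lit 0x7fca9da02) (nat_lit 1077344524)]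
noncomputable def e30_1 : List Rx := [
  Rx.mk (nat_lit 2) (nat_lit 2) (nat_lit 0) (nat_lit 0) (nat_lit 1) (nat_lit 106) (nat_lit 225) r5_106 r1_225 (nat_lit 0) (nat_lit 212990587) (nat_lit 782939) (nat_lit 0x7f9458f50) (nat_lit 1294612750),
  Rx.mk (nat_lit 6) (nat_lit 6) (nat_lit 0) (nat_lit 0) (nat_lit 1) (nat_lit 107) (nat_lit 229) r5_107 r1_229 (nat_lit 0) (nat_lit 865457) (nat_lit 618569) (nat_lit 0x6cfe8984c) (nat_lit 1392171750),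
  Rx.mk (nat_lit 22) (nat_lit 6) (nat_lit 2) (nat_lit 0) (nat_lit 3) (nat_lit 108) (nat_lit 231) r5_108 r1_231 (nat_lit 0) (nat_lit 0) (nat_lit 2341422) (nat_lit 0x7fcb8785a) (nat_lit 1079628546),
  Rx.mk (nat_lit 66) (nat_lit 2) (nat_lit 0) (nat_lit 1) (nat_lit 5) (nat_lit 109) (nat_lit 226) r5_109 r1_226 (nat_lit 0) (nat_lit 5712296) (nat_lit 0) (nat_lit 0x807518c02) (nat_lit 1072163420),
  Rx.mk (nat_lit 70) (nat_lit 6) (nat_lit 0) (nat_lit 1) (nat_lit 5) (nat_lit 110) (nat_lit 230) r5_110 r1_230 (nat_lit 0) (nat_lit 4608950) (nat_lit 0) (nat_lit 0x800f7fbd4) (nat_lit 1077522674),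
  Rx.mk (nat_lit 86) (nat_lit 6) (nat_lit 2) (nat_lit 1) (nat_lit 7) (nat_lit 111) (nat_lit 232) r5_111 r1_232 (nat_lit 0) (nat_lit 0) (nat_lit 0) (nat_lit 0x80029938e) (nat_lit 1073741824),
  Rx.mk (nat_lit 150) (nat_lit 6) (nat_lit 2) (nat_lit 2) (nat_lit 7) (nat_lit 112) (nat_lit 233) r5_112 r1_233 (nat_lit 0) (nat_lit 0) (nat_lit 0) (nat_lit 0x80029938e) (nat_lit 1073741824),
  Rx.mk (nat_lit 194) (nat_lit 2) (nat_lit 0) (nat_lit 3) (nat_lit 5) (nat_lit 113) (nat_lit 227) r5_113 r1_227 (nat_lit 0) (nat_lit 7480504) (nat_lit 0) (nat_lit 0x8050572c4) (nat_lit 1076259928),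
  Rx.mk (nat_lit 218) (nat_lit 2) (nat_lit 3) (nat_lit 3) (nat_lit 7) (nat_lit 114) (nat_lit 228) r5_114 r1_228 (nat_lit 0) (nat_lit 0) (nat_lit 0) (nat_lit 0x8032723e4) (nat_lit 1070680924)]
noncomputable def e30_2 : List Rx := [
  Rx.mk (nat_lit 66) (nat_lit 2) (nat_lit 0) (nat_lit 1) (nat_lit 5) (nat_lit 258) (nat_lit 238) r5_258 r2_238 (nat_lit 0) (nat_lit 6864468) (nat_lit 0) (nat_lit 0x7fee4d22c) (nat_lit 1081912492),
  Rx.mk (nat_lit 70) (nat_lit 6) (nat_lit 0) (nat_lit 1) (nat_lit 5) (nat_lit 259) (nat_lit 239) r5_259 r2_239 (nat_lit 0) (nat_lit 35281805) (nat_lit 0) (nat_lit 0x7f7f14a04) (nat_lit 1117526829),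
  Rx.mk (nat_lit 86) (nat_lit 6) (nat_lit 2) (nat_lit 1) (nat_lit 7) (nat_lit 260) (nat_lit 240) r5_260 r2_240 (nat_lit 0) (nat_lit 0) (nat_lit 0) (nat_lit 0x80029938e) (nat_lit 1073741824)]
noncomputable def e30_3 : List Rx := [
  Rx.mk (nat_lit 22) (nat_lit 6) (nat_lit 2) (nat_lit 0) (nat_lit 3) (nat_lit 16) (nat_lit 212) r5_16 r3_212 (nat_lit 0) (nat_lit 0) (nat_lit 8830) (nat_lit 0x78e083986) (nat_lit 1192515254),
  Rx.mk (nat_lit 148) (nat_lit 4) (nat_lit 2) (nat_lit 2) (nat_lit 6) (nat_lit 17) (nat_lit 207) r5_17 r3_207 (nat_lit 2868) (nat_lit 0) (nat_lit 0) (nat_lit 0x74f65d1f2) (nat_lit 1257776192),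
  Rx.mk (nat_lit 150) (nat_lit 6) (nat_lit 2) (nat_lit 2) (nat_lit 7) (nat_lit 18) (nat_lit 214) r5_18 r3_214 (nat_lit 0) (nat_lit 0) (nat_lit 0) (nat_lit 0x7f7adade4) (nat_lit 1082517324),
  Rx.mk (nat_lit 180) (nat_lit 4) (nat_lit 6) (nat_lit 2) (nat_lit 6) (nat_lit 19) (nat_lit 208) r5_19 r3_208 (nat_lit 325819) (nat_lit 0) (nat_lit 0) (nat_lit 0x790c61206) (nat_lit 1190017643),
  Rx.mk (nat_lit 183) (nat_lit 7) (nat_lit 6) (nat_lit 2) (nat_lit 7) (nat_lit 20) (nat_lit 209) r5_20 r3_209 (nat_lit 0) (nat_lit 0) (nat_lit 0) (nat_lit 0x91650a2be) (nat_lit 792518424),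
  Rx.mk (nat_lit 194) (nat_lit 2) (nat_lit 0) (nat_lit 3) (nat_lit 5) (nat_lit 21) (nat_lit 204) r5_21 r3_204 (nat_lit 0) (nat_lit 1165) (nat_lit 0) (nat_lit 0x81141330c) (nat_lit 1056304189),
  Rx.mk (nat_lit 198) (nat_lit 6) (nat_lit 0) (nat_lit 3) (nat_lit 5) (nat_lit 22) (nat_lit 211) r5_22 r3_211 (nat_lit 0) (nat_lit 24763) (nat_lit 0) (nat_lit 0x79833e1f8) (nat_lit 1181934387),
  Rx.mk (nat_lit 214) (nat_lit 6) (nat_lit 2) (nat_lit 3) (nat_lit 7) (nat_lit 23) (nat_lit 213) r5_23 r3_213 (nat_lit 0) (nat_lit 0) (nat_lit 0) (nat_lit 0x94a79ed66) (nat_lit 739802724),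
  Rx.mk (nat_lit 218) (nat_lit 2) (nat_lit 3) (nat_lit 3) (nat_lit 7) (nat_lit 24) (nat_lit 205) r5_24 r3_205 (nat_lit 0) (nat_lit 0) (nat_lit 0) (nat_lit 0x7fc99dd96) (nat_lit 1077408124),
  Rx.mk (nat_lit 439) (nat_lit 7) (nat_lit 6) (nat_lit 6) (nat_lit 7) (nat_lit 25) (nat_lit 210) r5_25 r3_210 (nat_lit 0) (nat_lit 0) (nat_lit 0) (nat_lit 0x7dcd58708) (nat_lit 1110443224),
  Rx.mk (nat_lit 474) (nat_lit 2) (nat_lit 3) (nat_lit 7) (nat_lit 7) (nat_lit 26) (nat_lit 206) r5_26 r3_206 (nat_lit 0) (nat_lit 0) (nat_lit 0) (nat_lit 0x803cbf158) (nat_lit 1070006924)]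
noncomputable def e30_4 : List Rx := [
  Rx.mk (nat_lit 6) (nat_lit 6) (nat_lit 0) (nat_lit 0) (nat_lit 1) (nat_lit 124) (nat_lit 200) r5_124 r4_200 (nat_lit 0) (nat_lit 73422) (nat_lit 50115) (nat_lit 0x6722c5068) (nat_lit 1488441861),
  Rx.mk (nat_lit 22) (nat_lit 6) (nat_lit 2) (nat_lit 0) (nat_lit 3) (nat_lit 125) (nat_lit 202) r5_125 r4_202 (nat_lit 0) (nat_lit 0) (nat_lit 1227291) (nat_lit 0x807e5e654) (nat_lit 1067084415),
  Rx.mk (nat_lit 148) (nat_lit 4) (nat_lit 2) (nat_lit 2) (nat_lit 6) (nat_lit 126) (nat_lit 197) r5_126 r4_197 (nat_lit 2905451) (nat_lit 0) (nat_lit 0) (nat_lit 0x7f6eaed5e) (nat_lit 1086211975),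
  Rx.mk (nat_lit 150) (nat_lit 6) (nat_lit 2) (nat_lit 2) (nat_lit 7) (nat_lit 127) (nat_lit 204) r5_127 r4_204 (nat_lit 0) (nat_lit 0) (nat_lit 0) (nat_lit 0x801b210f0) (nat_lit 1072171724),
  Rx.mk (nat_lit 180) (nat_lit 4) (nat_lit 6) (nat_lit 2) (nat_lit 6) (nat_lit 128) (nat_lit 198) r5_128 r4_198 (nat_lit 1963519) (nat_lit 0) (nat_lit 0) (nat_lit 0x7f8b75bf4) (nat_lit 1083400343),
  Rx.mk (nat_lit 183) (nat_lit 7) (nat_lit 6) (nat_lit 2) (nat_lit 7) (nat_lit 129) (nat_lit 199) r5_129 r4_199 (nat_lit 0) (nat_lit 0) (nat_lit 0) (nat_lit 0x813222a50) (nat_lit 1054496724),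
  Rx.mk (nat_lit 194) (nat_lit 2) (nat_lit 0) (nat_lit 3) (nat_lit 5) (nat_lit 130) (nat_lit 195) r5_130 r4_195 (nat_lit 0) (nat_lit 192946712) (nat_lit 0) (nat_lit 0x7fdc0d3f0) (nat_lit 1269076836),
  Rx.mk (nat_lit 198) (nat_lit 6) (nat_lit 0) (nat_lit 3) (nat_lit 5) (nat_lit 131) (nat_lit 201) r5_131 r4_201 (nat_lit 0) (nat_lit 1816985) (nat_lit 0) (nat_lit 0x7ffac5572) (nat_lit 1076046309),
  Rx.mk (nat_lit 214) (nat_lit 6) (nat_lit 2) (nat_lit 3) (nat_lit 7) (nat_lit 132) (nat_lit 203) r5_132 r4_203 (nat_lit 0) (nat_lit 0) (nat_lit 0) (nat_lit 0x80898c5d0) (nat_lit 1065156424),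
  Rx.mk (nat_lit 218) (nat_lit 2) (nat_lit 3) (nat_lit 3) (nat_lit 7) (nat_lit 133) (nat_lit 196) r5_133 r4_196 (nat_lit 0) (nat_lit 0) (nat_lit 0) (nat_lit 0x801352b30) (nat_lit 1072671524)]
noncomputable def e30_5 : List Rx := [
  Rx.mk (nat_lit 194) (nat_lit 2) (nat_lit 0) (nat_lit 3) (nat_lit 5) (nat_lit 225) (nat_lit 225) r5_225 r5_225 (nat_lit 0) (nat_lit 5987135) (nat_lit 0) (nat_lit 0x83458d5de) (nat_lit 1026898459),
  Rx.mk (nat_lit 198) (nat_lit 6) (nat_lit 0) (nat_lit 3) (nat_lit 5) (nat_lit 226) (nat_lit 228) r5_226 r5_228 (nat_lit 0) (nat_lit 3491889) (nat_lit 0) (nat_lit 0x7f61f92a8) (nat_lit 1087614713),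
  Rx.mk (nat_lit 214) (nat_lit 6) (nat_lit 2) (nat_lit 3) (nat_lit 7) (nat_lit 227) (nat_lit 229) r5_227 r5_229 (nat_lit 0) (nat_lit 0) (nat_lit 0) (nat_lit 0x87b95790c) (nat_lit 948919124),
  Rx.mk (nat_lit 450) (nat_lit 2) (nat_lit 0) (nat_lit 7) (nat_lit 5) (nat_lit 228) (nat_lit 226) r5_228 r5_226 (nat_lit 0) (nat_lit 3491889) (nat_lit 0) (nat_lit 0x7f61f92a8) (nat_lit 1087614713),
  Rx.mk (nat_lit 474) (nat_lit 2) (nat_lit 3) (nat_lit 7) (nat_lit 7) (nat_lit 229) (nat_lit 227) r5_229 r5_227 (nat_lit 0) (nat_lit 0) (nat_lit 0) (nat_lit 0x87b95790c) (nat_lit 948919124)]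
noncomputable def e30_6 : List Rx := [
  Rx.mk (nat_lit 258) (nat_lit 2) (nat_lit 0) (nat_lit 4) (nat_lit 1) (nat_lit 293) (nat_lit 221) r5_293 r3_221 (nat_lit 0) (nat_lit 345) (nat_lit 447) (nat_lit 0x802b87ca0) (nat_lit 1070993016),
  Rx.mk (nat_lit 282) (nat_lit 2) (nat_lit 3) (nat_lit 4) (nat_lit 3) (nat_lit 294) (nat_lit 223) r5_294 r3_223 (nat_lit 0) (nat_lit 0) (nat_lit 160316) (nat_lit 0x84f17c510) (nat_lit 994003240),
  Rx.mk (nat_lit 322) (nat_lit 2) (nat_lit 0) (nat_lit 5) (nat_lit 5) (nat_lit 295) (nat_lit 222) r5_295 r3_222 (nat_lit 0) (nat_lit 155164) (nat_lit 0) (nat_lit 0x801767e82) (nat_lit 1072432988),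
  Rx.mk (nat_lit 346) (nat_lit 2) (nat_lit 3) (nat_lit 5) (nat_lit 7) (nat_lit 296) (nat_lit 224) r5_296 r3_224 (nat_lit 0) (nat_lit 0) (nat_lit 0) (nat_lit 0x982c943ec) (nat_lit 682903324)]
noncomputable def e30_7 : List Rx := [
  Rx.mk (nat_lit 322) (nat_lit 2) (nat_lit 0) (nat_lit 5) (nat_lit 5) (nat_lit 255) (nat_lit 224) r5_255 r0_224 (nat_lit 0) (nat_lit 135738919) (nat_lit 0) (nat_lit 0x80001a586) (nat_lit 1209474643)]
noncomputable def e30_8 : List Rx := [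
  Rx.mk (nat_lit 66) (nat_lit 2) (nat_lit 0) (nat_lit 1) (nat_lit 5) (nat_lit 267) (nat_lit 243) r5_267 r1_243 (nat_lit 0) (nat_lit 32179892) (nat_lit 0) (nat_lit 0x8088ff068) (nat_lit 1097358516),
  Rx.mk (nat_lit 322) (nat_lit 2) (nat_lit 0) (nat_lit 5) (nat_lit 5) (nat_lit 268) (nat_lit 242) r5_268 r1_242 (nat_lit 0) (nat_lit 49238329) (nat_lit 0) (nat_lit 0x83e7c743a) (nat_lit 1059883053)]
noncomputable def e30_9 : List Rx := [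
  Rx.mk (nat_lit 322) (nat_lit 2) (nat_lit 0) (nat_lit 5) (nat_lit 5) (nat_lit 305) (nat_lit 224) r5_305 r4_224 (nat_lit 0) (nat_lit 123837254) (nat_lit 0) (nat_lit 0x7ffc69400) (nat_lit 1197837578),
  Rx.mk (nat_lit 346) (nat_lit 2) (nat_lit 3) (nat_lit 5) (nat_lit 7) (nat_lit 306) (nat_lit 225) r5_306 r4_225 (nat_lit 0) (nat_lit 0) (nat_lit 0) (nat_lit 0x805afa622) (nat_lit 1068090724)]
noncomputable def e30_10 : List Rx := [
  Rx.mk (nat_lit 282) (nat_lit 2) (nat_lit 3) (nat_lit 4) (nat_lit 3) (nat_lit 242) (nat_lit 239) r5_242 r6_239 (nat_lit 0) (nat_lit 0) (nat_lit 128360) (nat_lit 0x84cda1136) (nat_lit 996225984),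
  Rx.mk (nat_lit 450) (nat_lit 2) (nat_lit 0) (nat_lit 7) (nat_lit 5) (nat_lit 243) (nat_lit 238) r5_243 r6_238 (nat_lit 0) (nat_lit 10459) (nat_lit 0) (nat_lit 0x89d896974) (nat_lit 914535883),
  Rx.mk (nat_lit 474) (nat_lit 2) (nat_lit 3) (nat_lit 7) (nat_lit 7) (nat_lit 244) (nat_lit 240) r5_244 r6_240 (nat_lit 0) (nat_lit 0) (nat_lit 0) (nat_lit 0x84e45cfce) (nat_lit 994704024)]
noncomputable def e30_11 : List Rx := [
  Rx.mk (nat_lit 258) (nat_lit 2) (nat_lit 0) (nat_lit 4) (nat_lit 1) (nat_lit 311) (nat_lit 235) r5_311 r5_235 (nat_lit 0) (nat_lit 1094601) (nat_lit 165280) (nat_lit 0x80e90415c) (nat_lit 1060318305),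
  Rx.mk (nat_lit 282) (nat_lit 2) (nat_lit 3) (nat_lit 4) (nat_lit 3) (nat_lit 312) (nat_lit 238) r5_312 r5_238 (nat_lit 0) (nat_lit 0) (nat_lit 469515) (nat_lit 0x80376b0e4) (nat_lit 1070781039),
  Rx.mk (nat_lit 322) (nat_lit 2) (nat_lit 0) (nat_lit 5) (nat_lit 5) (nat_lit 313) (nat_lit 236) r5_313 r5_236 (nat_lit 0) (nat_lit 7419507) (nat_lit 0) (nat_lit 0x805d211e4) (nat_lit 1075389131),
  Rx.mk (nat_lit 346) (nat_lit 2) (nat_lit 3) (nat_lit 5) (nat_lit 7) (nat_lit 314) (nat_lit 239) r5_314 r5_239 (nat_lit 0) (nat_lit 0) (nat_lit 0) (nat_lit 0x80ce7bf56) (nat_lit 1060792424),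
  Rx.mk (nat_lit 450) (nat_lit 2) (nat_lit 0) (nat_lit 7) (nat_lit 5) (nat_lit 315) (nat_lit 237) r5_315 r5_237 (nat_lit 0) (nat_lit 2217923) (nat_lit 0) (nat_lit 0x870bce5f6) (nat_lit 962095947)]
noncomputable def e30_12 : List Rx := [
  Rx.mk (nat_lit 22) (nat_lit 6) (nat_lit 2) (nat_lit 0) (nat_lit 3) (nat_lit 0) (nat_lit 67) r5_0 r0_67 (nat_lit 0) (nat_lit 0) (nat_lit 1192389) (nat_lit 0x7f2e926b2) (nat_lit 1088653513),
  Rx.mk (nat_lit 148) (nat_lit 4) (nat_lit 2) (nat_lit 2) (nat_lit 6) (nat_lit 1) (nat_lit 69) r5_1 r0_69 (nat_lit 766655) (nat_lit 0) (nat_lit 0) (nat_lit 0x7495bc8de) (nat_lit 1264902279),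
  Rx.mk (nat_lit 150) (nat_lit 6) (nat_lit 2) (nat_lit 2) (nat_lit 7) (nat_lit 2) (nat_lit 70) r5_2 r0_70 (nat_lit 0) (nat_lit 0) (nat_lit 0) (nat_lit 0x7fef31df0) (nat_lit 1074983524),
  Rx.mk (nat_lit 180) (nat_lit 4) (nat_lit 6) (nat_lit 2) (nat_lit 6) (nat_lit 3) (nat_lit 68) r5_3 r0_68 (nat_lit 1158438) (nat_lit 0) (nat_lit 0) (nat_lit 0x7fed5a61c) (nat_lit 1076256662),
  Rx.mk (nat_lit 436) (nat_lit 4) (nat_lit 6) (nat_lit 6) (nat_lit 6) (nat_lit 4) (nat_lit 65) r5_4 r0_65 (nat_lit 956393) (nat_lit 0) (nat_lit 0) (nat_lit 0x7c593b998) (nat_lit 1135682617),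
  Rx.mk (nat_lit 439) (nat_lit 7) (nat_lit 6) (nat_lit 6) (nat_lit 7) (nat_lit 5) (nat_lit 66) r5_5 r0_66 (nat_lit 0) (nat_lit 0) (nat_lit 0) (nat_lit 0x804823e18) (nat_lit 1069300924)]
noncomputable def e30_13 : List Rx := [
  Rx.mk (nat_lit 22) (nat_lit 6) (nat_lit 2) (nat_lit 0) (nat_lit 3) (nat_lit 102) (nat_lit 272) r5_102 r7_272 (nat_lit 0) (nat_lit 0) (nat_lit 1535629) (nat_lit 0x807a5a904) (nat_lit 1067648753),
  Rx.mk (nat_lit 148) (nat_lit 4) (nat_lit 2) (nat_lit 2) (nat_lit 6) (nat_lit 103) (nat_lit 270) r5_103 r7_270 (nat_lit 3797391) (nat_lit 0) (nat_lit 0) (nat_lit 0x7bc59188c) (nat_lit 1148120715),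
  Rx.mk (nat_lit 150) (nat_lit 6) (nat_lit 2) (nat_lit 2) (nat_lit 7) (nat_lit 104) (nat_lit 273) r5_104 r7_273 (nat_lit 0) (nat_lit 0) (nat_lit 0) (nat_lit 0x7ff327c3e) (nat_lit 1074733924),
  Rx.mk (nat_lit 180) (nat_lit 4) (nat_lit 6) (nat_lit 2) (nat_lit 6) (nat_lit 105) (nat_lit 271) r5_105 r7_271 (nat_lit 1265249) (nat_lit 0) (nat_lit 0) (nat_lit 0x7ff9d6b48) (nat_lit 1075552073)]
noncomputable def e30_14 : List Rx := [
  Rx.mk (nat_lit 148) (nat_lit 4) (nat_lit 2) (nat_lit 2) (nat_lit 6) (nat_lit 6) (nat_lit 63) r5_6 r1_63 (nat_lit 1331363) (nat_lit 0) (nat_lit 0) (nat_lit 0x70d9a8132) (nat_lit 1327744887),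
  Rx.mk (nat_lit 149) (nat_lit 5) (nat_lit 2) (nat_lit 2) (nat_lit 7) (nat_lit 7) (nat_lit 64) r5_7 r1_64 (nat_lit 0) (nat_lit 0) (nat_lit 0) (nat_lit 0x7fd7609d8) (nat_lit 1076521124),
  Rx.mk (nat_lit 150) (nat_lit 6) (nat_lit 2) (nat_lit 2) (nat_lit 7) (nat_lit 8) (nat_lit 65) r5_8 r1_65 (nat_lit 0) (nat_lit 0) (nat_lit 0) (nat_lit 0x7fe8a5784) (nat_lit 1075407924),
  Rx.mk (nat_lit 180) (nat_lit 4) (nat_lit 6) (nat_lit 2) (nat_lit 6) (nat_lit 9) (nat_lit 61) r5_9 r1_61 (nat_lit 933722) (nat_lit 0) (nat_lit 0) (nat_lit 0x7fb880d2e) (nat_lit 1079433146),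
  Rx.mk (nat_lit 181) (nat_lit 5) (nat_lit 6) (nat_lit 2) (nat_lit 7) (nat_lit 10) (nat_lit 62) r5_10 r1_62 (nat_lit 0) (nat_lit 0) (nat_lit 0) (nat_lit 0x808eeb03a) (nat_lit 1064821724),
  Rx.mk (nat_lit 436) (nat_lit 4) (nat_lit 6) (nat_lit 6) (nat_lit 6) (nat_lit 11) (nat_lit 58) r5_11 r1_58 (nat_lit 1041807) (nat_lit 0) (nat_lit 0) (nat_lit 0x74a17feb4) (nat_lit 1264422431),
  Rx.mk (nat_lit 437) (nat_lit 5) (nat_lit 6) (nat_lit 6) (nat_lit 7) (nat_lit 12) (nat_lit 59) r5_12 r1_59 (nat_lit 0) (nat_lit 0) (nat_lit 0) (nat_lit 0x8107244b6) (nat_lit 1057210324),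
  Rx.mk (nat_lit 439) (nat_lit 7) (nat_lit 6) (nat_lit 6) (nat_lit 7) (nat_lit 13) (nat_lit 60) r5_13 r1_60 (nat_lit 0) (nat_lit 0) (nat_lit 0) (nat_lit 0x8052ab444) (nat_lit 1068632924)]
noncomputable def e30_15 : List Rx := [
  Rx.mk (nat_lit 148) (nat_lit 4) (nat_lit 2) (nat_lit 2) (nat_lit 6) (nat_lit 118) (nat_lit 201) r5_118 r8_201 (nat_lit 5787882) (nat_lit 0) (nat_lit 0) (nat_lit 0x7f8f3dde0) (nat_lit 1086988006),
  Rx.mk (nat_lit 149) (nat_lit 5) (nat_lit 2) (nat_lit 2) (nat_lit 7) (nat_lit 119) (nat_lit 203) r5_119 r8_203 (nat_lit 0) (nat_lit 0) (nat_lit 0) (nat_lit 0x80029938e) (nat_lit 1073741824),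
  Rx.mk (nat_lit 150) (nat_lit 6) (nat_lit 2) (nat_lit 2) (nat_lit 7) (nat_lit 120) (nat_lit 205) r5_120 r8_205 (nat_lit 0) (nat_lit 0) (nat_lit 0) (nat_lit 0x80029938e) (nat_lit 1073741824),
  Rx.mk (nat_lit 180) (nat_lit 4) (nat_lit 6) (nat_lit 2) (nat_lit 6) (nat_lit 121) (nat_lit 202) r5_121 r8_202 (nat_lit 1910235) (nat_lit 0) (nat_lit 0) (nat_lit 0x7f9e71762) (nat_lit 1082109159),
  Rx.mk (nat_lit 181) (nat_lit 5) (nat_lit 6) (nat_lit 2) (nat_lit 7) (nat_lit 122) (nat_lit 204) r5_122 r8_204 (nat_lit 0) (nat_lit 0) (nat_lit 0) (nat_lit 0x805be6810) (nat_lit 1068047724)]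
noncomputable def e30_16 : List Rx := [
  Rx.mk (nat_lit 22) (nat_lit 6) (nat_lit 2) (nat_lit 0) (nat_lit 3) (nat_lit 115) (nat_lit 58) r5_115 r8_58 (nat_lit 0) (nat_lit 0) (nat_lit 3122645) (nat_lit 0x801abea22) (nat_lit 1075316369),
  Rx.mk (nat_lit 86) (nat_lit 6) (nat_lit 2) (nat_lit 1) (nat_lit 7) (nat_lit 116) (nat_lit 59) r5_116 r8_59 (nat_lit 0) (nat_lit 0) (nat_lit 0) (nat_lit 0x8019963ca) (nat_lit 1072269624),
  Rx.mk (nat_lit 150) (nat_lit 6) (nat_lit 2) (nat_lit 2) (nat_lit 7) (nat_lit 117) (nat_lit 60) r5_117 r8_60 (nat_lit 0) (nat_lit 0) (nat_lit 0) (nat_lit 0x80029938e) (nat_lit 1073741824)]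
noncomputable def e30_17 : List Rx := [
  Rx.mk (nat_lit 86) (nat_lit 6) (nat_lit 2) (nat_lit 1) (nat_lit 7) (nat_lit 266) (nat_lit 215) r5_266 r9_215 (nat_lit 0) (nat_lit 0) (nat_lit 0) (nat_lit 0x80029938e) (nat_lit 1073741824)]
noncomputable def e30_18 : List Rx := [
  Rx.mk (nat_lit 22) (nat_lit 6) (nat_lit 2) (nat_lit 0) (nat_lit 3) (nat_lit 27) (nat_lit 59) r5_27 r4_59 (nat_lit 0) (nat_lit 0) (nat_lit 1180737) (nat_lit 0x800877684) (nat_lit 1074523561),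
  Rx.mk (nat_lit 148) (nat_lit 4) (nat_lit 2) (nat_lit 2) (nat_lit 6) (nat_lit 28) (nat_lit 63) r5_28 r4_63 (nat_lit 1975302) (nat_lit 0) (nat_lit 0) (nat_lit 0x7f23bc56c) (nat_lit 1090154226),
  Rx.mk (nat_lit 150) (nat_lit 6) (nat_lit 2) (nat_lit 2) (nat_lit 7) (nat_lit 29) (nat_lit 64) r5_29 r4_64 (nat_lit 0) (nat_lit 0) (nat_lit 0) (nat_lit 0x8024901fe) (nat_lit 1071566124),
  Rx.mk (nat_lit 180) (nat_lit 4) (nat_lit 6) (nat_lit 2) (nat_lit 6) (nat_lit 30) (nat_lit 61) r5_30 r4_61 (nat_lit 940616) (nat_lit 0) (nat_lit 0) (nat_lit 0x802fcad94) (nat_lit 1071778540),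
  Rx.mk (nat_lit 183) (nat_lit 7) (nat_lit 6) (nat_lit 2) (nat_lit 7) (nat_lit 31) (nat_lit 62) r5_31 r4_62 (nat_lit 0) (nat_lit 0) (nat_lit 0) (nat_lit 0x811e5b576) (nat_lit 1055742624),
  Rx.mk (nat_lit 214) (nat_lit 6) (nat_lit 2) (nat_lit 3) (nat_lit 7) (nat_lit 32) (nat_lit 60) r5_32 r4_60 (nat_lit 0) (nat_lit 0) (nat_lit 0) (nat_lit 0x8659a71ca) (nat_lit 971123424),
  Rx.mk (nat_lit 439) (nat_lit 7) (nat_lit 6) (nat_lit 6) (nat_lit 7) (nat_lit 33) (nat_lit 58) r5_33 r4_58 (nat_lit 0) (nat_lit 0) (nat_lit 0) (nat_lit 0x80739ec28) (nat_lit 1066538624)]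
noncomputable def e30_19 : List Rx := [
  Rx.mk (nat_lit 22) (nat_lit 6) (nat_lit 2) (nat_lit 0) (nat_lit 3) (nat_lit 134) (nat_lit 215) r5_134 r10_215 (nat_lit 0) (nat_lit 0) (nat_lit 1919901) (nat_lit 0x80c317552) (nat_lit 1063433825),
  Rx.mk (nat_lit 148) (nat_lit 4) (nat_lit 2) (nat_lit 2) (nat_lit 6) (nat_lit 135) (nat_lit 212) r5_135 r10_212 (nat_lit 4741774) (nat_lit 0) (nat_lit 0) (nat_lit 0x78dac94e6) (nat_lit 1197703898),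
  Rx.mk (nat_lit 150) (nat_lit 6) (nat_lit 2) (nat_lit 2) (nat_lit 7) (nat_lit 136) (nat_lit 217) r5_136 r10_217 (nat_lit 0) (nat_lit 0) (nat_lit 0) (nat_lit 0x7ff5fb7f8) (nat_lit 1074552324),
  Rx.mk (nat_lit 180) (nat_lit 4) (nat_lit 6) (nat_lit 2) (nat_lit 6) (nat_lit 137) (nat_lit 213) r5_137 r10_213 (nat_lit 1409940) (nat_lit 0) (nat_lit 0) (nat_lit 0x8011f0f3a) (nat_lit 1074160464),
  Rx.mk (nat_lit 183) (nat_lit 7) (nat_lit 6) (nat_lit 2) (nat_lit 7) (nat_lit 138) (nat_lit 214) r5_138 r10_214 (nat_lit 0) (nat_lit 0) (nat_lit 0) (nat_lit 0x80af22bc8) (nat_lit 1062775524),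
  Rx.mk (nat_lit 214) (nat_lit 6) (nat_lit 2) (nat_lit 3) (nat_lit 7) (nat_lit 139) (nat_lit 216) r5_139 r10_216 (nat_lit 0) (nat_lit 0) (nat_lit 0) (nat_lit 0x80348d4f8) (nat_lit 1070549224)]
noncomputable def e30_20 : List Rx := [
  Rx.mk (nat_lit 214) (nat_lit 6) (nat_lit 2) (nat_lit 3) (nat_lit 7) (nat_lit 230) (nat_lit 265) r5_230 r11_265 (nat_lit 0) (nat_lit 0) (nat_lit 0) (nat_lit 0x9450c7056) (nat_lit 745300424)]
noncomputable def e30_21 : List Rx := [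
  Rx.mk (nat_lit 66) (nat_lit 2) (nat_lit 0) (nat_lit 1) (nat_lit 5) (nat_lit 261) (nat_lit 225) r5_261 r9_225 (nat_lit 0) (nat_lit 5449534) (nat_lit 0) (nat_lit 0x7ffef05a2) (nat_lit 1079426058),
  Rx.mk (nat_lit 70) (nat_lit 6) (nat_lit 0) (nat_lit 1) (nat_lit 5) (nat_lit 262) (nat_lit 224) r5_262 r9_224 (nat_lit 0) (nat_lit 5670405) (nat_lit 0) (nat_lit 0x7ff06dc82) (nat_lit 1080580229),
  Rx.mk (nat_lit 74) (nat_lit 2) (nat_lit 1) (nat_lit 1) (nat_lit 7) (nat_lit 263) (nat_lit 227) r5_263 r9_227 (nat_lit 0) (nat_lit 0) (nat_lit 0) (nat_lit 0x80029938e) (nat_lit 1073741824),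
  Rx.mk (nat_lit 78) (nat_lit 6) (nat_lit 1) (nat_lit 1) (nat_lit 7) (nat_lit 264) (nat_lit 226) r5_264 r9_226 (nat_lit 0) (nat_lit 0) (nat_lit 0) (nat_lit 0x80029938e) (nat_lit 1073741824),
  Rx.mk (nat_lit 86) (nat_lit 6) (nat_lit 2) (nat_lit 1) (nat_lit 7) (nat_lit 265) (nat_lit 228) r5_265 r9_228 (nat_lit 0) (nat_lit 0) (nat_lit 0) (nat_lit 0x80029938e) (nat_lit 1073741824)]
noncomputable def e30_22 : List Rx := [
  Rx.mk (nat_lit 266) (nat_lit 2) (nat_lit 1) (nat_lit 4) (nat_lit 3) (nat_lit 252) (nat_lit 315) r5_252 r0_315 (nat_lit 0) (nat_lit 0) (nat_lit 2146046) (nat_lit 0x8082930f8) (nat_lit 1067722470),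
  Rx.mk (nat_lit 322) (nat_lit 2) (nat_lit 0) (nat_lit 5) (nat_lit 5) (nat_lit 253) (nat_lit 316) r5_253 r0_316 (nat_lit 0) (nat_lit 1462114) (nat_lit 0) (nat_lit 0x7fa136d4e) (nat_lit 1081485238),
  Rx.mk (nat_lit 330) (nat_lit 2) (nat_lit 1) (nat_lit 5) (nat_lit 7) (nat_lit 254) (nat_lit 317) r5_254 r0_317 (nat_lit 0) (nat_lit 0) (nat_lit 0) (nat_lit 0x871639162) (nat_lit 959223424)]
noncomputable def e30_23 : List Rx := [
  Rx.mk (nat_lit 266) (nat_lit 2) (nat_lit 1) (nat_lit 4) (nat_lit 3) (nat_lit 273) (nat_lit 303) r5_273 r1_303 (nat_lit 0) (nat_lit 0) (nat_lit 2861806) (nat_lit 0x81272a2b0) (nat_lit 1058046730),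
  Rx.mk (nat_lit 330) (nat_lit 2) (nat_lit 1) (nat_lit 5) (nat_lit 7) (nat_lit 274) (nat_lit 304) r5_274 r1_304 (nat_lit 0) (nat_lit 0) (nat_lit 0) (nat_lit 0x8ca337b4a) (nat_lit 869461024)]
noncomputable def e30_24 : List Rx := [
  Rx.mk (nat_lit 258) (nat_lit 2) (nat_lit 0) (nat_lit 4) (nat_lit 1) (nat_lit 297) (nat_lit 343) r5_297 r4_343 (nat_lit 0) (nat_lit 1641854) (nat_lit 2493352) (nat_lit 0x7a0e2dc14) (nat_lit 1177075130),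
  Rx.mk (nat_lit 266) (nat_lit 2) (nat_lit 1) (nat_lit 4) (nat_lit 3) (nat_lit 298) (nat_lit 344) r5_298 r4_344 (nat_lit 0) (nat_lit 0) (nat_lit 2814931) (nat_lit 0x806c9d226) (nat_lit 1069803455),
  Rx.mk (nat_lit 282) (nat_lit 2) (nat_lit 3) (nat_lit 4) (nat_lit 3) (nat_lit 299) (nat_lit 345) r5_299 r4_345 (nat_lit 0) (nat_lit 0) (nat_lit 2902620) (nat_lit 0x803de17f2) (nat_lit 1072857744),
  Rx.mk (nat_lit 322) (nat_lit 2) (nat_lit 0) (nat_lit 5) (nat_lit 5) (nat_lit 300) (nat_lit 346) r5_300 r4_346 (nat_lit 0) (nat_lit 1185642) (nat_lit 0) (nat_lit 0x8143bc13a) (nat_lit 1054562866),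
  Rx.mk (nat_lit 330) (nat_lit 2) (nat_lit 1) (nat_lit 5) (nat_lit 7) (nat_lit 301) (nat_lit 347) r5_301 r4_347 (nat_lit 0) (nat_lit 0) (nat_lit 0) (nat_lit 0x835c5378c) (nat_lit 1019479724),
  Rx.mk (nat_lit 346) (nat_lit 2) (nat_lit 3) (nat_lit 5) (nat_lit 7) (nat_lit 302) (nat_lit 348) r5_302 r4_348 (nat_lit 0) (nat_lit 0) (nat_lit 0) (nat_lit 0x8069ded64) (nat_lit 1067161624)]
noncomputable def e30_25 : List Rx := [
  Rx.mk (nat_lit 322) (nat_lit 2) (nat_lit 0) (nat_lit 5) (nat_lit 5) (nat_lit 256) (nat_lit 286) r5_256 r7_286 (nat_lit 0) (nat_lit 1663775) (nat_lit 0) (nat_lit 0x7ff356e8a) (nat_lit 1076373699),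
  Rx.mk (nat_lit 330) (nat_lit 2) (nat_lit 1) (nat_lit 5) (nat_lit 7) (nat_lit 257) (nat_lit 287) r5_257 r7_287 (nat_lit 0) (nat_lit 0) (nat_lit 0) (nat_lit 0x804fac05e) (nat_lit 1068822724)]
noncomputable def e30_26 : List Rx := [
  Rx.mk (nat_lit 330) (nat_lit 2) (nat_lit 1) (nat_lit 5) (nat_lit 7) (nat_lit 285) (nat_lit 218) r5_285 r8_218 (nat_lit 0) (nat_lit 0) (nat_lit 0) (nat_lit 0x806366360) (nat_lit 1067572524)]
noncomputable def e30_27 : List Rx := [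
  Rx.mk (nat_lit 66) (nat_lit 2) (nat_lit 0) (nat_lit 1) (nat_lit 5) (nat_lit 269) (nat_lit 347) r5_269 r8_347 (nat_lit 0) (nat_lit 5449534) (nat_lit 0) (nat_lit 0x80029938e) (nat_lit 1079191358),
  Rx.mk (nat_lit 74) (nat_lit 2) (nat_lit 1) (nat_lit 1) (nat_lit 7) (nat_lit 270) (nat_lit 348) r5_270 r8_348 (nat_lit 0) (nat_lit 0) (nat_lit 0) (nat_lit 0x80029938e) (nat_lit 1073741824),
  Rx.mk (nat_lit 322) (nat_lit 2) (nat_lit 0) (nat_lit 5) (nat_lit 5) (nat_lit 271) (nat_lit 349) r5_271 r8_349 (nat_lit 0) (nat_lit 5449534) (nat_lit 0) (nat_lit 0x7ff3d72a6) (nat_lit 1080139558),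
  Rx.mk (nat_lit 330) (nat_lit 2) (nat_lit 1) (nat_lit 5) (nat_lit 7) (nat_lit 272) (nat_lit 350) r5_272 r8_350 (nat_lit 0) (nat_lit 0) (nat_lit 0) (nat_lit 0x80029938e) (nat_lit 1073741824)]
noncomputable def e30_28 : List Rx := [
  Rx.mk (nat_lit 322) (nat_lit 2) (nat_lit 0) (nat_lit 5) (nat_lit 5) (nat_lit 307) (nat_lit 237) r5_307 r10_237 (nat_lit 0) (nat_lit 1799061) (nat_lit 0) (nat_lit 0x8019a878c) (nat_lit 1074055785),
  Rx.mk (nat_lit 330) (nat_lit 2) (nat_lit 1) (nat_lit 5) (nat_lit 7) (nat_lit 308) (nat_lit 238) r5_308 r10_238 (nat_lit 0) (nat_lit 0) (nat_lit 0) (nat_lit 0x804b7b61a) (nat_lit 1069091624),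
  Rx.mk (nat_lit 346) (nat_lit 2) (nat_lit 3) (nat_lit 5) (nat_lit 7) (nat_lit 309) (nat_lit 239) r5_309 r10_239 (nat_lit 0) (nat_lit 0) (nat_lit 0) (nat_lit 0x804b7c312) (nat_lit 1069091424)]
noncomputable def e30_29 : List Rx := [
  Rx.mk (nat_lit 258) (nat_lit 2) (nat_lit 0) (nat_lit 4) (nat_lit 1) (nat_lit 316) (nat_lit 273) r5_316 r11_273 (nat_lit 0) (nat_lit 4471406) (nat_lit 4395115) (nat_lit 0x7107ec890) (nat_lit 1332271445),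
  Rx.mk (nat_lit 266) (nat_lit 2) (nat_lit 1) (nat_lit 4) (nat_lit 3) (nat_lit 317) (nat_lit 276) r5_317 r11_276 (nat_lit 0) (nat_lit 0) (nat_lit 3845654) (nat_lit 0x8031f6d2a) (nat_lit 1074563378),
  Rx.mk (nat_lit 282) (nat_lit 2) (nat_lit 3) (nat_lit 4) (nat_lit 3) (nat_lit 318) (nat_lit 279) r5_318 r11_279 (nat_lit 0) (nat_lit 0) (nat_lit 3932094) (nat_lit 0x801ccaf14) (nat_lit 1075997118),
  Rx.mk (nat_lit 322) (nat_lit 2) (nat_lit 0) (nat_lit 5) (nat_lit 5) (nat_lit 319) (nat_lit 274) r5_319 r11_274 (nat_lit 0) (nat_lit 4540409) (nat_lit 0) (nat_lit 0x7ffd351cc) (nat_lit 1078626533),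
  Rx.mk (nat_lit 330) (nat_lit 2) (nat_lit 1) (nat_lit 5) (nat_lit 7) (nat_lit 320) (nat_lit 277) r5_320 r11_277 (nat_lit 0) (nat_lit 0) (nat_lit 0) (nat_lit 0x80029938e) (nat_lit 1073741824),
  Rx.mk (nat_lit 346) (nat_lit 2) (nat_lit 3) (nat_lit 5) (nat_lit 7) (nat_lit 321) (nat_lit 280) r5_321 r11_280 (nat_lit 0) (nat_lit 0) (nat_lit 0) (nat_lit 0x80029938e) (nat_lit 1073741824),
  Rx.mk (nat_lit 450) (nat_lit 2) (nat_lit 0) (nat_lit 7) (nat_lit 5) (nat_lit 322) (nat_lit 275) r5_322 r11_275 (nat_lit 0) (nat_lit 4883967) (nat_lit 0) (nat_lit 0x7fed9eae2) (nat_lit 1079973691),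
  Rx.mk (nat_lit 458) (nat_lit 2) (nat_lit 1) (nat_lit 7) (nat_lit 7) (nat_lit 323) (nat_lit 278) r5_323 r11_278 (nat_lit 0) (nat_lit 0) (nat_lit 0) (nat_lit 0x80029938e) (nat_lit 1073741824)]
noncomputable def e30_30 : List Rx := [
  Rx.mk (nat_lit 22) (nat_lit 6) (nat_lit 2) (nat_lit 0) (nat_lit 3) (nat_lit 34) (nat_lit 43) r5_34 r5_43 (nat_lit 0) (nat_lit 0) (nat_lit 814) (nat_lit 0x80008816c) (nat_lit 1073709438),
  Rx.mk (nat_lit 148) (nat_lit 4) (nat_lit 2) (nat_lit 2) (nat_lit 6) (nat_lit 35) (nat_lit 49) r5_35 r5_49 (nat_lit 21901) (nat_lit 0) (nat_lit 0) (nat_lit 0x6a5290b5a) (nat_lit 1435199925),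
  Rx.mk (nat_lit 150) (nat_lit 6) (nat_lit 2) (nat_lit 2) (nat_lit 7) (nat_lit 36) (nat_lit 51) r5_36 r5_51 (nat_lit 0) (nat_lit 0) (nat_lit 0) (nat_lit 0x7f819f9a4) (nat_lit 1082075024),
  Rx.mk (nat_lit 151) (nat_lit 7) (nat_lit 2) (nat_lit 2) (nat_lit 7) (nat_lit 37) (nat_lit 50) r5_37 r5_50 (nat_lit 0) (nat_lit 0) (nat_lit 0) (nat_lit 0x79988cc26) (nat_lit 1180574724),
  Rx.mk (nat_lit 183) (nat_lit 7) (nat_lit 6) (nat_lit 2) (nat_lit 7) (nat_lit 38) (nat_lit 48) r5_38 r5_48 (nat_lit 0) (nat_lit 0) (nat_lit 0) (nat_lit 0x758253314) (nat_lit 1248689624),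
  Rx.mk (nat_lit 198) (nat_lit 6) (nat_lit 0) (nat_lit 3) (nat_lit 5) (nat_lit 39) (nat_lit 44) r5_39 r5_44 (nat_lit 0) (nat_lit 24270) (nat_lit 0) (nat_lit 0x67d9da6c2) (nat_lit 1476410594),
  Rx.mk (nat_lit 214) (nat_lit 6) (nat_lit 2) (nat_lit 3) (nat_lit 7) (nat_lit 40) (nat_lit 47) r5_40 r5_47 (nat_lit 0) (nat_lit 0) (nat_lit 0) (nat_lit 0x9ccef73e2) (nat_lit 607894524),
  Rx.mk (nat_lit 218) (nat_lit 2) (nat_lit 3) (nat_lit 3) (nat_lit 7) (nat_lit 41) (nat_lit 46) r5_41 r5_46 (nat_lit 0) (nat_lit 0) (nat_lit 0) (nat_lit 0x7cf238c40) (nat_lit 1124699524),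
  Rx.mk (nat_lit 222) (nat_lit 6) (nat_lit 3) (nat_lit 3) (nat_lit 7) (nat_lit 42) (nat_lit 45) r5_42 r5_45 (nat_lit 0) (nat_lit 0) (nat_lit 0) (nat_lit 0x7fae9a378) (nat_lit 1079141924),
  Rx.mk (nat_lit 315) (nat_lit 3) (nat_lit 7) (nat_lit 4) (nat_lit 3) (nat_lit 43) (nat_lit 34) r5_43 r5_34 (nat_lit 0) (nat_lit 0) (nat_lit 814) (nat_lit 0x80008816c) (nat_lit 1073709438),
  Rx.mk (nat_lit 419) (nat_lit 3) (nat_lit 4) (nat_lit 6) (nat_lit 5) (nat_lit 44) (nat_lit 39) r5_44 r5_39 (nat_lit 0) (nat_lit 24270) (nat_lit 0) (nat_lit 0x67d9da6c2) (nat_lit 1476410594),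
  Rx.mk (nat_lit 435) (nat_lit 3) (nat_lit 6) (nat_lit 6) (nat_lit 7) (nat_lit 45) (nat_lit 42) r5_45 r5_42 (nat_lit 0) (nat_lit 0) (nat_lit 0) (nat_lit 0x7fae9a378) (nat_lit 1079141924),
  Rx.mk (nat_lit 439) (nat_lit 7) (nat_lit 6) (nat_lit 6) (nat_lit 7) (nat_lit 46) (nat_lit 41) r5_46 r5_41 (nat_lit 0) (nat_lit 0) (nat_lit 0) (nat_lit 0x7cf238c40) (nat_lit 1124699524),
  Rx.mk (nat_lit 443) (nat_lit 3) (nat_lit 7) (nat_lit 6) (nat_lit 7) (nat_lit 47) (nat_lit 40) r5_47 r5_40 (nat_lit 0) (nat_lit 0) (nat_lit 0) (nat_lit 0x9ccef73e2) (nat_lit 607894524),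
  Rx.mk (nat_lit 474) (nat_lit 2) (nat_lit 3) (nat_lit 7) (nat_lit 7) (nat_lit 48) (nat_lit 38) r5_48 r5_38 (nat_lit 0) (nat_lit 0) (nat_lit 0) (nat_lit 0x758253314) (nat_lit 1248689624),
  Rx.mk (nat_lit 504) (nat_lit 0) (nat_lit 7) (nat_lit 7) (nat_lit 6) (nat_lit 49) (nat_lit 35) r5_49 r5_35 (nat_lit 21901) (nat_lit 0) (nat_lit 0) (nat_lit 0x6a5290b5a) (nat_lit 1435199925),
  Rx.mk (nat_lit 506) (nat_lit 2) (nat_lit 7) (nat_lit 7) (nat_lit 7) (nat_lit 50) (nat_lit 37) r5_50 r5_37 (nat_lit 0) (nat_lit 0) (nat_lit 0) (nat_lit 0x79988cc26) (nat_lit 1180574724),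
  Rx.mk (nat_lit 507) (nat_lit 3) (nat_lit 7) (nat_lit 7) (nat_lit 7) (nat_lit 51) (nat_lit 36) r5_51 r5_36 (nat_lit 0) (nat_lit 0) (nat_lit 0) (nat_lit 0x7f819f9a4) (nat_lit 1082075024)]
noncomputable def e30_31 : List Rx := [
  Rx.mk (nat_lit 6) (nat_lit 6) (nat_lit 0) (nat_lit 0) (nat_lit 1) (nat_lit 140) (nat_lit 9) r5_140 r11_9 (nat_lit 0) (nat_lit 175020) (nat_lit 125684) (nat_lit 0x733f0fb0e) (nat_lit 1286716228),
  Rx.mk (nat_lit 22) (nat_lit 6) (nat_lit 2) (nat_lit 0) (nat_lit 3) (nat_lit 141) (nat_lit 10) r5_141 r11_10 (nat_lit 0) (nat_lit 0) (nat_lit 1188030) (nat_lit 0x853c4c630) (nat_lit 990345654),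
  Rx.mk (nat_lit 148) (nat_lit 4) (nat_lit 2) (nat_lit 2) (nat_lit 6) (nat_lit 142) (nat_lit 16) r5_142 r11_16 (nat_lit 2807402) (nat_lit 0) (nat_lit 0) (nat_lit 0x7fb00afd2) (nat_lit 1081869426),
  Rx.mk (nat_lit 150) (nat_lit 6) (nat_lit 2) (nat_lit 2) (nat_lit 7) (nat_lit 143) (nat_lit 18) r5_143 r11_18 (nat_lit 0) (nat_lit 0) (nat_lit 0) (nat_lit 0x80029938e) (nat_lit 1073741824),
  Rx.mk (nat_lit 151) (nat_lit 7) (nat_lit 2) (nat_lit 2) (nat_lit 7) (nat_lit 144) (nat_lit 17) r5_144 r11_17 (nat_lit 0) (nat_lit 0) (nat_lit 0) (nat_lit 0x80029938e) (nat_lit 1073741824),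
  Rx.mk (nat_lit 183) (nat_lit 7) (nat_lit 6) (nat_lit 2) (nat_lit 7) (nat_lit 145) (nat_lit 15) r5_145 r11_15 (nat_lit 0) (nat_lit 0) (nat_lit 0) (nat_lit 0x8c926658c) (nat_lit 870523024),
  Rx.mk (nat_lit 198) (nat_lit 6) (nat_lit 0) (nat_lit 3) (nat_lit 5) (nat_lit 146) (nat_lit 11) r5_146 r11_11 (nat_lit 0) (nat_lit 1759938) (nat_lit 0) (nat_lit 0x802382334) (nat_lit 1073384662),
  Rx.mk (nat_lit 214) (nat_lit 6) (nat_lit 2) (nat_lit 3) (nat_lit 7) (nat_lit 147) (nat_lit 14) r5_147 r11_14 (nat_lit 0) (nat_lit 0) (nat_lit 0) (nat_lit 0x8087d4972) (nat_lit 1065267524),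
  Rx.mk (nat_lit 218) (nat_lit 2) (nat_lit 3) (nat_lit 3) (nat_lit 7) (nat_lit 148) (nat_lit 13) r5_148 r11_13 (nat_lit 0) (nat_lit 0) (nat_lit 0) (nat_lit 0x8093c6438) (nat_lit 1064504724),
  Rx.mk (nat_lit 222) (nat_lit 6) (nat_lit 3) (nat_lit 3) (nat_lit 7) (nat_lit 149) (nat_lit 12) r5_149 r11_12 (nat_lit 0) (nat_lit 0) (nat_lit 0) (nat_lit 0x801ffa1a8) (nat_lit 1071862024)]
noncomputable def e30_32 : List Rx := [
  Rx.mk (nat_lit 282) (nat_lit 2) (nat_lit 3) (nat_lit 4) (nat_lit 3) (nat_lit 231) (nat_lit 366) r5_231 r6_366 (nat_lit 0) (nat_lit 0) (nat_lit 13815) (nat_lit 0x85fe01f32) (nat_lit 976860439),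
  Rx.mk (nat_lit 312) (nat_lit 0) (nat_lit 7) (nat_lit 4) (nat_lit 2) (nat_lit 232) (nat_lit 363) r5_232 r6_363 (nat_lit 369792) (nat_lit 0) (nat_lit 398639) (nat_lit 0x7a2eaa5be) (nat_lit 1171560755),
  Rx.mk (nat_lit 314) (nat_lit 2) (nat_lit 7) (nat_lit 4) (nat_lit 3) (nat_lit 233) (nat_lit 365) r5_233 r6_365 (nat_lit 0) (nat_lit 0) (nat_lit 1584864) (nat_lit 0x83f760f68) (nat_lit 1011269188),
  Rx.mk (nat_lit 440) (nat_lit 0) (nat_lit 7) (nat_lit 6) (nat_lit 6) (nat_lit 234) (nat_lit 364) r5_234 r6_364 (nat_lit 503576) (nat_lit 0) (nat_lit 0) (nat_lit 0x81fec8a00) (nat_lit 1042043700)]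
noncomputable def e30_33 : List Rx := [
  Rx.mk (nat_lit 282) (nat_lit 2) (nat_lit 3) (nat_lit 4) (nat_lit 3) (nat_lit 303) (nat_lit 303) r5_303 r5_303 (nat_lit 0) (nat_lit 0) (nat_lit 461918) (nat_lit 0x8c1746ac8) (nat_lit 878735242),
  Rx.mk (nat_lit 346) (nat_lit 2) (nat_lit 3) (nat_lit 5) (nat_lit 7) (nat_lit 304) (nat_lit 304) r5_304 r5_304 (nat_lit 0) (nat_lit 0) (nat_lit 0) (nat_lit 0x888243294) (nat_lit 936224624)]
noncomputable def e30_34 : List Rx := [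
  Rx.mk (nat_lit 346) (nat_lit 2) (nat_lit 3) (nat_lit 5) (nat_lit 7) (nat_lit 310) (nat_lit 356) r5_310 r11_356 (nat_lit 0) (nat_lit 0) (nat_lit 0) (nat_lit 0x962b5e434) (nat_lit 715321324)]
noncomputable def e30_35 : List Rx := [
  Rx.mk (nat_lit 312) (nat_lit 0) (nat_lit 7) (nat_lit 4) (nat_lit 2) (nat_lit 70) (nat_lit 90) r5_70 r6_90 (nat_lit 16168) (nat_lit 0) (nat_lit 22438) (nat_lit 0x7a1c8609a) (nat_lit 1171966330),
  Rx.mk (nat_lit 314) (nat_lit 2) (nat_lit 7) (nat_lit 4) (nat_lit 3) (nat_lit 71) (nat_lit 92) r5_71 r6_92 (nat_lit 0) (nat_lit 0) (nat_lit 1145575) (nat_lit 0x81615e058) (nat_lit 1052648999),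
  Rx.mk (nat_lit 315) (nat_lit 3) (nat_lit 7) (nat_lit 4) (nat_lit 3) (nat_lit 72) (nat_lit 91) r5_72 r6_91 (nat_lit 0) (nat_lit 0) (nat_lit 2825381) (nat_lit 0x7fbf7b2aa) (nat_lit 1080886705),
  Rx.mk (nat_lit 419) (nat_lit 3) (nat_lit 4) (nat_lit 6) (nat_lit 5) (nat_lit 73) (nat_lit 89) r5_73 r6_89 (nat_lit 0) (nat_lit 826810) (nat_lit 0) (nat_lit 0x802fe455a) (nat_lit 1071641334),
  Rx.mk (nat_lit 435) (nat_lit 3) (nat_lit 6) (nat_lit 6) (nat_lit 7) (nat_lit 74) (nat_lit 97) r5_74 r6_97 (nat_lit 0) (nat_lit 0) (nat_lit 0) (nat_lit 0x804ab9c7c) (nat_lit 1069132524),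
  Rx.mk (nat_lit 440) (nat_lit 0) (nat_lit 7) (nat_lit 6) (nat_lit 6) (nat_lit 75) (nat_lit 95) r5_75 r6_95 (nat_lit 294333) (nat_lit 0) (nat_lit 0) (nat_lit 0x869783e6c) (nat_lit 967494857),
  Rx.mk (nat_lit 443) (nat_lit 3) (nat_lit 7) (nat_lit 6) (nat_lit 7) (nat_lit 76) (nat_lit 96) r5_76 r6_96 (nat_lit 0) (nat_lit 0) (nat_lit 0) (nat_lit 0x940158de4) (nat_lit 750318324),
  Rx.mk (nat_lit 474) (nat_lit 2) (nat_lit 3) (nat_lit 7) (nat_lit 7) (nat_lit 77) (nat_lit 88) r5_77 r6_88 (nat_lit 0) (nat_lit 0) (nat_lit 0) (nat_lit 0x7d806d86c) (nat_lit 1115429524),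
  Rx.mk (nat_lit 504) (nat_lit 0) (nat_lit 7) (nat_lit 7) (nat_lit 6) (nat_lit 78) (nat_lit 93) r5_78 r6_93 (nat_lit 3813020) (nat_lit 0) (nat_lit 0) (nat_lit 0x7e7fe50b0) (nat_lit 1102664344),
  Rx.mk (nat_lit 506) (nat_lit 2) (nat_lit 7) (nat_lit 7) (nat_lit 7) (nat_lit 79) (nat_lit 94) r5_79 r6_94 (nat_lit 0) (nat_lit 0) (nat_lit 0) (nat_lit 0x8019076ca) (nat_lit 1072298224)]
noncomputable def e30_36 : List Rx := [
  Rx.mk (nat_lit 282) (nat_lit 2) (nat_lit 3) (nat_lit 4) (nat_lit 3) (nat_lit 245) (nat_lit 244) r5_245 r12_244 (nat_lit 0) (nat_lit 0) (nat_lit 17041) (nat_lit 0x8b003f3bc) (nat_lit 895869165),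
  Rx.mk (nat_lit 312) (nat_lit 0) (nat_lit 7) (nat_lit 4) (nat_lit 2) (nat_lit 246) (nat_lit 240) r5_246 r12_240 (nat_lit 20188) (nat_lit 0) (nat_lit 27932) (nat_lit 0x7a72d005e) (nat_lit 1166357044),
  Rx.mk (nat_lit 314) (nat_lit 2) (nat_lit 7) (nat_lit 4) (nat_lit 3) (nat_lit 247) (nat_lit 246) r5_247 r12_246 (nat_lit 0) (nat_lit 0) (nat_lit 745268) (nat_lit 0x8ddce6b6a) (nat_lit 850382092),
  Rx.mk (nat_lit 315) (nat_lit 3) (nat_lit 7) (nat_lit 4) (nat_lit 3) (nat_lit 248) (nat_lit 242) r5_248 r12_242 (nat_lit 0) (nat_lit 0) (nat_lit 1388645) (nat_lit 0x7e512bfee) (nat_lit 1103271969),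
  Rx.mk (nat_lit 440) (nat_lit 0) (nat_lit 7) (nat_lit 6) (nat_lit 6) (nat_lit 249) (nat_lit 241) r5_249 r12_241 (nat_lit 225577) (nat_lit 0) (nat_lit 0) (nat_lit 0x86c1ebf38) (nat_lit 964739301),
  Rx.mk (nat_lit 443) (nat_lit 3) (nat_lit 7) (nat_lit 6) (nat_lit 7) (nat_lit 250) (nat_lit 243) r5_250 r12_243 (nat_lit 0) (nat_lit 0) (nat_lit 0) (nat_lit 0x99d4baab6) (nat_lit 656104224),
  Rx.mk (nat_lit 474) (nat_lit 2) (nat_lit 3) (nat_lit 7) (nat_lit 7) (nat_lit 251) (nat_lit 245) r5_251 r12_245 (nat_lit 0) (nat_lit 0) (nat_lit 0) (nat_lit 0x7ff59fdd6) (nat_lit 1074454124)]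
noncomputable def e30_37 : List Rx := [
  Rx.mk (nat_lit 288) (nat_lit 0) (nat_lit 4) (nat_lit 4) (nat_lit 0) (nat_lit 152) (nat_lit 330) r5_152 r0_330 (nat_lit 325) (nat_lit 352) (nat_lit 330744107) (nat_lit 0x800010eb4) (nat_lit 1404482608),
  Rx.mk (nat_lit 289) (nat_lit 1) (nat_lit 4) (nat_lit 4) (nat_lit 1) (nat_lit 153) (nat_lit 335) r5_153 r0_335 (nat_lit 0) (nat_lit 2550648) (nat_lit 173854821) (nat_lit 0x75a4173f6) (nat_lit 1422939093),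
  Rx.mk (nat_lit 290) (nat_lit 2) (nat_lit 4) (nat_lit 4) (nat_lit 1) (nat_lit 154) (nat_lit 340) r5_154 r0_340 (nat_lit 0) (nat_lit 281567) (nat_lit 98422675) (nat_lit 0x7f7c07604) (nat_lit 1181102766),
  Rx.mk (nat_lit 296) (nat_lit 0) (nat_lit 5) (nat_lit 4) (nat_lit 2) (nat_lit 155) (nat_lit 331) r5_155 r0_331 (nat_lit 9541506) (nat_lit 0) (nat_lit 2163217) (nat_lit 0x7d2876e7e) (nat_lit 1132919447),
  Rx.mk (nat_lit 297) (nat_lit 1) (nat_lit 5) (nat_lit 4) (nat_lit 3) (nat_lit 156) (nat_lit 336) r5_156 r0_336 (nat_lit 0) (nat_lit 0) (nat_lit 5090091) (nat_lit 0x7fe496148) (nat_lit 1080758915),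
  Rx.mk (nat_lit 298) (nat_lit 2) (nat_lit 5) (nat_lit 4) (nat_lit 3) (nat_lit 157) (nat_lit 341) r5_157 r0_341 (nat_lit 0) (nat_lit 0) (nat_lit 1226898) (nat_lit 0x7f8055c9c) (nat_lit 1083371622),
  Rx.mk (nat_lit 416) (nat_lit 0) (nat_lit 4) (nat_lit 6) (nat_lit 4) (nat_lit 158) (nat_lit 332) r5_158 r0_332 (nat_lit 1903628) (nat_lit 1646045) (nat_lit 0) (nat_lit 0x64837e9fc) (nat_lit 1535649097),
  Rx.mk (nat_lit 417) (nat_lit 1) (nat_lit 4) (nat_lit 6) (nat_lit 5) (nat_lit 159) (nat_lit 337) r5_159 r0_337 (nat_lit 0) (nat_lit 3048911) (nat_lit 0) (nat_lit 0x7f12771a8) (nat_lit 1092353635),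
  Rx.mk (nat_lit 424) (nat_lit 0) (nat_lit 5) (nat_lit 6) (nat_lit 6) (nat_lit 160) (nat_lit 333) r5_160 r0_333 (nat_lit 3491444) (nat_lit 0) (nat_lit 0) (nat_lit 0x7fef1f6dc) (nat_lit 1078469368),
  Rx.mk (nat_lit 425) (nat_lit 1) (nat_lit 5) (nat_lit 6) (nat_lit 7) (nat_lit 161) (nat_lit 338) r5_161 r0_338 (nat_lit 0) (nat_lit 0) (nat_lit 0) (nat_lit 0x7ffdbe706) (nat_lit 1074053224),
  Rx.mk (nat_lit 432) (nat_lit 0) (nat_lit 6) (nat_lit 6) (nat_lit 6) (nat_lit 162) (nat_lit 334) r5_162 r0_334 (nat_lit 4819430) (nat_lit 0) (nat_lit 0) (nat_lit 0x75c3dc4d4) (nat_lit 1249292654),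
  Rx.mk (nat_lit 433) (nat_lit 1) (nat_lit 6) (nat_lit 6) (nat_lit 7) (nat_lit 163) (nat_lit 339) r5_163 r0_339 (nat_lit 0) (nat_lit 0) (nat_lit 0) (nat_lit 0x801989bc0) (nat_lit 1072271724)]
noncomputable def e30_38 : List Rx := [
  Rx.mk (nat_lit 417) (nat_lit 1) (nat_lit 4) (nat_lit 6) (nat_lit 5) (nat_lit 61) (nat_lit 89) r5_61 r0_89 (nat_lit 0) (nat_lit 26638681) (nat_lit 0) (nat_lit 0x7d4f8ee26) (nat_lit 1145302105),
  Rx.mk (nat_lit 433) (nat_lit 1) (nat_lit 6) (nat_lit 6) (nat_lit 7) (nat_lit 62) (nat_lit 90) r5_62 r0_90 (nat_lit 0) (nat_lit 0) (nat_lit 0) (nat_lit 0x83bd7abf0) (nat_lit 1013342324)]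
noncomputable def e30_39 : List Rx := [
  Rx.mk (nat_lit 289) (nat_lit 1) (nat_lit 4) (nat_lit 4) (nat_lit 1) (nat_lit 184) (nat_lit 444) r5_184 r7_444 (nat_lit 0) (nat_lit 2284157) (nat_lit 10009322) (nat_lit 0x6e04ad22c) (nat_lit 1385922203),
  Rx.mk (nat_lit 297) (nat_lit 1) (nat_lit 5) (nat_lit 4) (nat_lit 3) (nat_lit 185) (nat_lit 445) r5_185 r7_445 (nat_lit 0) (nat_lit 0) (nat_lit 5449534) (nat_lit 0x80029938e) (nat_lit 1079191358),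
  Rx.mk (nat_lit 417) (nat_lit 1) (nat_lit 4) (nat_lit 6) (nat_lit 5) (nat_lit 186) (nat_lit 446) r5_186 r7_446 (nat_lit 0) (nat_lit 2216475) (nat_lit 0) (nat_lit 0x802e1cf2e) (nat_lit 1073168099),
  Rx.mk (nat_lit 425) (nat_lit 1) (nat_lit 5) (nat_lit 6) (nat_lit 7) (nat_lit 187) (nat_lit 447) r5_187 r7_447 (nat_lit 0) (nat_lit 0) (nat_lit 0) (nat_lit 0x8045fce28) (nat_lit 1069439724),
  Rx.mk (nat_lit 433) (nat_lit 1) (nat_lit 6) (nat_lit 6) (nat_lit 7) (nat_lit 188) (nat_lit 448) r5_188 r7_448 (nat_lit 0) (nat_lit 0) (nat_lit 0) (nat_lit 0x7fe8d0dda) (nat_lit 1075400424)]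
noncomputable def e30_40 : List Rx := [
  Rx.mk (nat_lit 181) (nat_lit 5) (nat_lit 6) (nat_lit 2) (nat_lit 7) (nat_lit 14) (nat_lit 96) r5_14 r2_96 (nat_lit 0) (nat_lit 0) (nat_lit 0) (nat_lit 0x80029938e) (nat_lit 1073741824),
  Rx.mk (nat_lit 437) (nat_lit 5) (nat_lit 6) (nat_lit 6) (nat_lit 7) (nat_lit 15) (nat_lit 97) r5_15 r2_97 (nat_lit 0) (nat_lit 0) (nat_lit 0) (nat_lit 0x80300ae4e) (nat_lit 1070836624)]
noncomputable def e30_41 : List Rx := [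
  Rx.mk (nat_lit 181) (nat_lit 5) (nat_lit 6) (nat_lit 2) (nat_lit 7) (nat_lit 150) (nat_lit 63) r5_150 r9_63 (nat_lit 0) (nat_lit 0) (nat_lit 0) (nat_lit 0x80029938e) (nat_lit 1073741824),
  Rx.mk (nat_lit 437) (nat_lit 5) (nat_lit 6) (nat_lit 6) (nat_lit 7) (nat_lit 151) (nat_lit 64) r5_151 r9_64 (nat_lit 0) (nat_lit 0) (nat_lit 0) (nat_lit 0x80029938e) (nat_lit 1073741824)]
noncomputable def e30_42 : List Rx := [
  Rx.mk (nat_lit 181) (nat_lit 5) (nat_lit 6) (nat_lit 2) (nat_lit 7) (nat_lit 123) (nat_lit 18) r5_123 r9_18 (nat_lit 0) (nat_lit 0) (nat_lit 0) (nat_lit 0x80029938e) (nat_lit 1073741824)]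
noncomputable def e30_43 : List Rx := [
  Rx.mk (nat_lit 417) (nat_lit 1) (nat_lit 4) (nat_lit 6) (nat_lit 5) (nat_lit 63) (nat_lit 91) r5_63 r1_91 (nat_lit 0) (nat_lit 7636976) (nat_lit 0) (nat_lit 0x7f2748de8) (nat_lit 1095591500),
  Rx.mk (nat_lit 433) (nat_lit 1) (nat_lit 6) (nat_lit 6) (nat_lit 7) (nat_lit 64) (nat_lit 92) r5_64 r1_92 (nat_lit 0) (nat_lit 0) (nat_lit 0) (nat_lit 0x80665f1a2) (nat_lit 1067372924),
  Rx.mk (nat_lit 437) (nat_lit 5) (nat_lit 6) (nat_lit 6) (nat_lit 7) (nat_lit 65) (nat_lit 93) r5_65 r1_93 (nat_lit 0) (nat_lit 0) (nat_lit 0) (nat_lit 0x803f07ad2) (nat_lit 1069877524)]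
noncomputable def e30_44 : List Rx := [
  Rx.mk (nat_lit 289) (nat_lit 1) (nat_lit 4) (nat_lit 4) (nat_lit 1) (nat_lit 191) (nat_lit 362) r5_191 r8_362 (nat_lit 0) (nat_lit 8738081) (nat_lit 23550711) (nat_lit 0x6ca37911e) (nat_lit 1428927416),
  Rx.mk (nat_lit 297) (nat_lit 1) (nat_lit 5) (nat_lit 4) (nat_lit 3) (nat_lit 192) (nat_lit 363) r5_192 r8_363 (nat_lit 0) (nat_lit 0) (nat_lit 5449534) (nat_lit 0x80029938e) (nat_lit 1079191358),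
  Rx.mk (nat_lit 417) (nat_lit 1) (nat_lit 4) (nat_lit 6) (nat_lit 5) (nat_lit 193) (nat_lit 364) r5_193 r8_364 (nat_lit 0) (nat_lit 6212599) (nat_lit 0) (nat_lit 0x7fbcc638e) (nat_lit 1084455923),
  Rx.mk (nat_lit 425) (nat_lit 1) (nat_lit 5) (nat_lit 6) (nat_lit 7) (nat_lit 194) (nat_lit 365) r5_194 r8_365 (nat_lit 0) (nat_lit 0) (nat_lit 0) (nat_lit 0x80029938e) (nat_lit 1073741824),
  Rx.mk (nat_lit 433) (nat_lit 1) (nat_lit 6) (nat_lit 6) (nat_lit 7) (nat_lit 195) (nat_lit 366) r5_195 r8_366 (nat_lit 0) (nat_lit 0) (nat_lit 0) (nat_lit 0x80029938e) (nat_lit 1073741824),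
  Rx.mk (nat_lit 437) (nat_lit 5) (nat_lit 6) (nat_lit 6) (nat_lit 7) (nat_lit 196) (nat_lit 361) r5_196 r8_361 (nat_lit 0) (nat_lit 0) (nat_lit 0) (nat_lit 0x80029938e) (nat_lit 1073741824)]
noncomputable def e30_45 : List Rx := [
  Rx.mk (nat_lit 296) (nat_lit 0) (nat_lit 5) (nat_lit 4) (nat_lit 2) (nat_lit 164) (nat_lit 311) r5_164 r1_311 (nat_lit 89993226) (nat_lit 0) (nat_lit 4362951) (nat_lit 0x7894e6d52) (nat_lit 1291869601),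
  Rx.mk (nat_lit 297) (nat_lit 1) (nat_lit 5) (nat_lit 4) (nat_lit 3) (nat_lit 165) (nat_lit 313) r5_165 r1_313 (nat_lit 0) (nat_lit 0) (nat_lit 3697266) (nat_lit 0x803df29c6) (nat_lit 1073649890),
  Rx.mk (nat_lit 298) (nat_lit 2) (nat_lit 5) (nat_lit 4) (nat_lit 3) (nat_lit 166) (nat_lit 315) r5_166 r1_315 (nat_lit 0) (nat_lit 0) (nat_lit 1434760) (nat_lit 0x8012c14dc) (nat_lit 1074124184),
  Rx.mk (nat_lit 424) (nat_lit 0) (nat_lit 5) (nat_lit 6) (nat_lit 6) (nat_lit 167) (nat_lit 312) r5_167 r1_312 (nat_lit 3039288) (nat_lit 0) (nat_lit 0) (nat_lit 0x80c38d252) (nat_lit 1064522612),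
  Rx.mk (nat_lit 425) (nat_lit 1) (nat_lit 5) (nat_lit 6) (nat_lit 7) (nat_lit 168) (nat_lit 314) r5_168 r1_314 (nat_lit 0) (nat_lit 0) (nat_lit 0) (nat_lit 0x80299d296) (nat_lit 1071247324)]
noncomputable def e30_46 : List Rx := [
  Rx.mk (nat_lit 266) (nat_lit 2) (nat_lit 1) (nat_lit 4) (nat_lit 3) (nat_lit 275) (nat_lit 367) r5_275 r2_367 (nat_lit 0) (nat_lit 0) (nat_lit 5449534) (nat_lit 0x80029938e) (nat_lit 1079191358),
  Rx.mk (nat_lit 296) (nat_lit 0) (nat_lit 5) (nat_lit 4) (nat_lit 2) (nat_lit 276) (nat_lit 360) r5_276 r2_360 (nat_lit 5058101) (nat_lit 0) (nat_lit 5025424) (nat_lit 0x55552dd46) (nat_lit 1795302649),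
  Rx.mk (nat_lit 297) (nat_lit 1) (nat_lit 5) (nat_lit 4) (nat_lit 3) (nat_lit 277) (nat_lit 363) r5_277 r2_363 (nat_lit 0) (nat_lit 0) (nat_lit 5449534) (nat_lit 0x80029938e) (nat_lit 1079191358),
  Rx.mk (nat_lit 298) (nat_lit 2) (nat_lit 5) (nat_lit 4) (nat_lit 3) (nat_lit 278) (nat_lit 366) r5_278 r2_366 (nat_lit 0) (nat_lit 0) (nat_lit 5694937) (nat_lit 0x7ff1f1540) (nat_lit 1080506361),
  Rx.mk (nat_lit 330) (nat_lit 2) (nat_lit 1) (nat_lit 5) (nat_lit 7) (nat_lit 279) (nat_lit 369) r5_279 r2_369 (nat_lit 0) (nat_lit 0) (nat_lit 0) (nat_lit 0x80029938e) (nat_lit 1073741824),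
  Rx.mk (nat_lit 360) (nat_lit 0) (nat_lit 5) (nat_lit 5) (nat_lit 6) (nat_lit 280) (nat_lit 361) r5_280 r2_361 (nat_lit 55595022) (nat_lit 0) (nat_lit 0) (nat_lit 0x7292f7cc2) (nat_lit 1353270946),
  Rx.mk (nat_lit 361) (nat_lit 1) (nat_lit 5) (nat_lit 5) (nat_lit 7) (nat_lit 281) (nat_lit 364) r5_281 r2_364 (nat_lit 0) (nat_lit 0) (nat_lit 0) (nat_lit 0x80029938e) (nat_lit 1073741824),
  Rx.mk (nat_lit 362) (nat_lit 2) (nat_lit 5) (nat_lit 5) (nat_lit 7) (nat_lit 282) (nat_lit 368) r5_282 r2_368 (nat_lit 0) (nat_lit 0) (nat_lit 0) (nat_lit 0x80029938e) (nat_lit 1073741824),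
  Rx.mk (nat_lit 424) (nat_lit 0) (nat_lit 5) (nat_lit 6) (nat_lit 6) (nat_lit 283) (nat_lit 362) r5_283 r2_362 (nat_lit 7517454) (nat_lit 0) (nat_lit 0) (nat_lit 0x7fde0b6c0) (nat_lit 1083611778),
  Rx.mk (nat_lit 425) (nat_lit 1) (nat_lit 5) (nat_lit 6) (nat_lit 7) (nat_lit 284) (nat_lit 365) r5_284 r2_365 (nat_lit 0) (nat_lit 0) (nat_lit 0) (nat_lit 0x80029938e) (nat_lit 1073741824)]
noncomputable def e30_47 : List Rx := [
  Rx.mk (nat_lit 297) (nat_lit 1) (nat_lit 5) (nat_lit 4) (nat_lit 3) (nat_lit 189) (nat_lit 74) r5_189 r8_74 (nat_lit 0) (nat_lit 0) (nat_lit 4548292) (nat_lit 0x801151fac) (nat_lit 1077347316),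
  Rx.mk (nat_lit 425) (nat_lit 1) (nat_lit 5) (nat_lit 6) (nat_lit 7) (nat_lit 190) (nat_lit 75) r5_190 r8_75 (nat_lit 0) (nat_lit 0) (nat_lit 0) (nat_lit 0x802981c80) (nat_lit 1071252824)]
noncomputable def e30_48 : List Rx := [
  Rx.mk (nat_lit 297) (nat_lit 1) (nat_lit 5) (nat_lit 4) (nat_lit 3) (nat_lit 290) (nat_lit 324) r5_290 r9_324 (nat_lit 0) (nat_lit 0) (nat_lit 5449534) (nat_lit 0x80029938e) (nat_lit 1079191358),
  Rx.mk (nat_lit 361) (nat_lit 1) (nat_lit 5) (nat_lit 5) (nat_lit 7) (nat_lit 291) (nat_lit 325) r5_291 r9_325 (nat_lit 0) (nat_lit 0) (nat_lit 0) (nat_lit 0x80029938e) (nat_lit 1073741824),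
  Rx.mk (nat_lit 425) (nat_lit 1) (nat_lit 5) (nat_lit 6) (nat_lit 7) (nat_lit 292) (nat_lit 326) r5_292 r9_326 (nat_lit 0) (nat_lit 0) (nat_lit 0) (nat_lit 0x80029938e) (nat_lit 1073741824)]
noncomputable def e30_49 : List Rx := [
  Rx.mk (nat_lit 330) (nat_lit 2) (nat_lit 1) (nat_lit 5) (nat_lit 7) (nat_lit 286) (nat_lit 309) r5_286 r9_309 (nat_lit 0) (nat_lit 0) (nat_lit 0) (nat_lit 0x80029938e) (nat_lit 1073741824),
  Rx.mk (nat_lit 360) (nat_lit 0) (nat_lit 5) (nat_lit 5) (nat_lit 6) (nat_lit 287) (nat_lit 307) r5_287 r9_307 (nat_lit 55741436) (nat_lit 0) (nat_lit 0) (nat_lit 0x760962d32) (nat_lit 1295686160),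
  Rx.mk (nat_lit 361) (nat_lit 1) (nat_lit 5) (nat_lit 5) (nat_lit 7) (nat_lit 288) (nat_lit 308) r5_288 r9_308 (nat_lit 0) (nat_lit 0) (nat_lit 0) (nat_lit 0x80029938e) (nat_lit 1073741824),
  Rx.mk (nat_lit 362) (nat_lit 2) (nat_lit 5) (nat_lit 5) (nat_lit 7) (nat_lit 289) (nat_lit 310) r5_289 r9_310 (nat_lit 0) (nat_lit 0) (nat_lit 0) (nat_lit 0x80029938e) (nat_lit 1073741824)]
noncomputable def e30_50 : List Rx := [
  Rx.mk (nat_lit 312) (nat_lit 0) (nat_lit 7) (nat_lit 4) (nat_lit 2) (nat_lit 52) (nat_lit 333) r5_52 r3_333 (nat_lit 177) (nat_lit 0) (nat_lit 316) (nat_lit 0x81669eebe) (nat_lit 1051089317),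
  Rx.mk (nat_lit 313) (nat_lit 1) (nat_lit 7) (nat_lit 4) (nat_lit 3) (nat_lit 53) (nat_lit 337) r5_53 r3_337 (nat_lit 0) (nat_lit 0) (nat_lit 1650932) (nat_lit 0x848b5b614) (nat_lit 1001973956),
  Rx.mk (nat_lit 314) (nat_lit 2) (nat_lit 7) (nat_lit 4) (nat_lit 3) (nat_lit 54) (nat_lit 341) r5_54 r3_341 (nat_lit 0) (nat_lit 0) (nat_lit 37687189) (nat_lit 0x8ea30d5d2) (nat_lit 874777413),
  Rx.mk (nat_lit 416) (nat_lit 0) (nat_lit 4) (nat_lit 6) (nat_lit 4) (nat_lit 55) (nat_lit 334) r5_55 r3_334 (nat_lit 480) (nat_lit 634) (nat_lit 0) (nat_lit 0x80005933a) (nat_lit 1073721238),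
  Rx.mk (nat_lit 417) (nat_lit 1) (nat_lit 4) (nat_lit 6) (nat_lit 5) (nat_lit 56) (nat_lit 338) r5_56 r3_338 (nat_lit 0) (nat_lit 1003900) (nat_lit 0) (nat_lit 0x7e3ac80c2) (nat_lit 1104359824),
  Rx.mk (nat_lit 432) (nat_lit 0) (nat_lit 6) (nat_lit 6) (nat_lit 6) (nat_lit 57) (nat_lit 336) r5_57 r3_336 (nat_lit 12988) (nat_lit 0) (nat_lit 0) (nat_lit 0x75ca83206) (nat_lit 1243973512),
  Rx.mk (nat_lit 433) (nat_lit 1) (nat_lit 6) (nat_lit 6) (nat_lit 7) (nat_lit 58) (nat_lit 340) r5_58 r3_340 (nat_lit 0) (nat_lit 0) (nat_lit 0) (nat_lit 0x8004ac4b4) (nat_lit 1073599124),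
  Rx.mk (nat_lit 440) (nat_lit 0) (nat_lit 7) (nat_lit 6) (nat_lit 6) (nat_lit 59) (nat_lit 335) r5_59 r3_335 (nat_lit 80098) (nat_lit 0) (nat_lit 0) (nat_lit 0x8d65266a2) (nat_lit 857234422),
  Rx.mk (nat_lit 441) (nat_lit 1) (nat_lit 7) (nat_lit 6) (nat_lit 7) (nat_lit 60) (nat_lit 339) r5_60 r3_339 (nat_lit 0) (nat_lit 0) (nat_lit 0) (nat_lit 0x9e7dac8be) (nat_lit 580755524)]
noncomputable def e30_51 : List Rx := [
  Rx.mk (nat_lit 288) (nat_lit 0) (nat_lit 4) (nat_lit 4) (nat_lit 0) (nat_lit 169) (nat_lit 366) r5_169 r4_366 (nat_lit 860710) (nat_lit 466835) (nat_lit 4259189) (nat_lit 0x635d5b15e) (nat_lit 1556822258),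
  Rx.mk (nat_lit 289) (nat_lit 1) (nat_lit 4) (nat_lit 4) (nat_lit 1) (nat_lit 170) (nat_lit 373) r5_170 r4_373 (nat_lit 0) (nat_lit 3329898) (nat_lit 153422483) (nat_lit 0x7f7ad06e6) (nat_lit 1239277705),
  Rx.mk (nat_lit 290) (nat_lit 2) (nat_lit 4) (nat_lit 4) (nat_lit 1) (nat_lit 171) (nat_lit 378) r5_171 r4_378 (nat_lit 0) (nat_lit 4331708) (nat_lit 6556923) (nat_lit 0x7f318d5ec) (nat_lit 1098171755),
  Rx.mk (nat_lit 296) (nat_lit 0) (nat_lit 5) (nat_lit 4) (nat_lit 2) (nat_lit 172) (nat_lit 367) r5_172 r4_367 (nat_lit 17535176) (nat_lit 0) (nat_lit 12405820) (nat_lit 0x795ddbf82) (nat_lit 1214366620),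
  Rx.mk (nat_lit 298) (nat_lit 2) (nat_lit 5) (nat_lit 4) (nat_lit 3) (nat_lit 173) (nat_lit 379) r5_173 r4_379 (nat_lit 0) (nat_lit 0) (nat_lit 5449534) (nat_lit 0x80029938e) (nat_lit 1079191358),
  Rx.mk (nat_lit 312) (nat_lit 0) (nat_lit 7) (nat_lit 4) (nat_lit 2) (nat_lit 174) (nat_lit 368) r5_174 r4_368 (nat_lit 2267724) (nat_lit 0) (nat_lit 168964555) (nat_lit 0x7c6cb83d6) (nat_lit 1304668303),
  Rx.mk (nat_lit 313) (nat_lit 1) (nat_lit 7) (nat_lit 4) (nat_lit 3) (nat_lit 175) (nat_lit 374) r5_175 r4_374 (nat_lit 0) (nat_lit 0) (nat_lit 16093624) (nat_lit 0x801f08c90) (nat_lit 1088008048),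
  Rx.mk (nat_lit 314) (nat_lit 2) (nat_lit 7) (nat_lit 4) (nat_lit 3) (nat_lit 176) (nat_lit 380) r5_176 r4_380 (nat_lit 0) (nat_lit 0) (nat_lit 5449534) (nat_lit 0x802356b3a) (nat_lit 1077095958),
  Rx.mk (nat_lit 416) (nat_lit 0) (nat_lit 4) (nat_lit 6) (nat_lit 4) (nat_lit 177) (nat_lit 369) r5_177 r4_369 (nat_lit 2934250) (nat_lit 2004750) (nat_lit 0) (nat_lit 0x73620465a) (nat_lit 1289129524),
  Rx.mk (nat_lit 417) (nat_lit 1) (nat_lit 4) (nat_lit 6) (nat_lit 5) (nat_lit 178) (nat_lit 375) r5_178 r4_375 (nat_lit 0) (nat_lit 2300083) (nat_lit 0) (nat_lit 0x804f77e08) (nat_lit 1071135707),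
  Rx.mk (nat_lit 424) (nat_lit 0) (nat_lit 5) (nat_lit 6) (nat_lit 6) (nat_lit 179) (nat_lit 370) r5_179 r4_370 (nat_lit 2793643) (nat_lit 0) (nat_lit 0) (nat_lit 0x803c95650) (nat_lit 1072830667),
  Rx.mk (nat_lit 432) (nat_lit 0) (nat_lit 6) (nat_lit 6) (nat_lit 6) (nat_lit 180) (nat_lit 372) r5_180 r4_372 (nat_lit 5596659) (nat_lit 0) (nat_lit 0) (nat_lit 0x7fa5306f2) (nat_lit 1085368283),
  Rx.mk (nat_lit 433) (nat_lit 1) (nat_lit 6) (nat_lit 6) (nat_lit 7) (nat_lit 181) (nat_lit 377) r5_181 r4_377 (nat_lit 0) (nat_lit 0) (nat_lit 0) (nat_lit 0x8012f24a6) (nat_lit 1072693924),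
  Rx.mk (nat_lit 440) (nat_lit 0) (nat_lit 7) (nat_lit 6) (nat_lit 6) (nat_lit 182) (nat_lit 371) r5_182 r4_371 (nat_lit 2786793) (nat_lit 0) (nat_lit 0) (nat_lit 0x8043eceee) (nat_lit 1072357417),
  Rx.mk (nat_lit 441) (nat_lit 1) (nat_lit 7) (nat_lit 6) (nat_lit 7) (nat_lit 183) (nat_lit 376) r5_183 r4_376 (nat_lit 0) (nat_lit 0) (nat_lit 0) (nat_lit 0x803aaf69c) (nat_lit 1070158824)]
noncomputable def e30_52 : List Rx := [
  Rx.mk (nat_lit 312) (nat_lit 0) (nat_lit 7) (nat_lit 4) (nat_lit 2) (nat_lit 235) (nat_lit 311) r5_235 r5_311 (nat_lit 165280) (nat_lit 0) (nat_lit 1094601) (nat_lit 0x80e90415c) (nat_lit 1060318305),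
  Rx.mk (nat_lit 313) (nat_lit 1) (nat_lit 7) (nat_lit 4) (nat_lit 3) (nat_lit 236) (nat_lit 313) r5_236 r5_313 (nat_lit 0) (nat_lit 0) (nat_lit 7419507) (nat_lit 0x805d211e4) (nat_lit 1075389131),
  Rx.mk (nat_lit 314) (nat_lit 2) (nat_lit 7) (nat_lit 4) (nat_lit 3) (nat_lit 237) (nat_lit 315) r5_237 r5_315 (nat_lit 0) (nat_lit 0) (nat_lit 2217923) (nat_lit 0x870bce5f6) (nat_lit 962095947),
  Rx.mk (nat_lit 440) (nat_lit 0) (nat_lit 7) (nat_lit 6) (nat_lit 6) (nat_lit 238) (nat_lit 312) r5_238 r5_312 (nat_lit 469515) (nat_lit 0) (nat_lit 0) (nat_lit 0x80376b0e4) (nat_lit 1070781039),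
  Rx.mk (nat_lit 441) (nat_lit 1) (nat_lit 7) (nat_lit 6) (nat_lit 7) (nat_lit 239) (nat_lit 314) r5_239 r5_314 (nat_lit 0) (nat_lit 0) (nat_lit 0) (nat_lit 0x80ce7bf56) (nat_lit 1060792424)]
noncomputable def e30_53 : List Rx := [
  Rx.mk (nat_lit 313) (nat_lit 1) (nat_lit 7) (nat_lit 4) (nat_lit 3) (nat_lit 66) (nat_lit 90) r5_66 r4_90 (nat_lit 0) (nat_lit 0) (nat_lit 2225241) (nat_lit 0x82f6d0388) (nat_lit 1028114265),
  Rx.mk (nat_lit 417) (nat_lit 1) (nat_lit 4) (nat_lit 6) (nat_lit 5) (nat_lit 67) (nat_lit 89) r5_67 r4_89 (nat_lit 0) (nat_lit 1849300) (nat_lit 0) (nat_lit 0x80a4c2070) (nat_lit 1065275624),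
  Rx.mk (nat_lit 433) (nat_lit 1) (nat_lit 6) (nat_lit 6) (nat_lit 7) (nat_lit 68) (nat_lit 92) r5_68 r4_92 (nat_lit 0) (nat_lit 0) (nat_lit 0) (nat_lit 0x8060f33a8) (nat_lit 1067721724),
  Rx.mk (nat_lit 441) (nat_lit 1) (nat_lit 7) (nat_lit 6) (nat_lit 7) (nat_lit 69) (nat_lit 91) r5_69 r4_91 (nat_lit 0) (nat_lit 0) (nat_lit 0) (nat_lit 0x882e63412) (nat_lit 941518924)]
noncomputable def e30_54 : List Rx := [
  Rx.mk (nat_lit 289) (nat_lit 1) (nat_lit 4) (nat_lit 4) (nat_lit 1) (nat_lit 197) (nat_lit 369) r5_197 r10_369 (nat_lit 0) (nat_lit 1601519) (nat_lit 5696356) (nat_lit 0x726966d0e) (nat_lit 1307672399),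
  Rx.mk (nat_lit 313) (nat_lit 1) (nat_lit 7) (nat_lit 4) (nat_lit 3) (nat_lit 198) (nat_lit 370) r5_198 r10_370 (nat_lit 0) (nat_lit 0) (nat_lit 5449534) (nat_lit 0x8011b0cbe) (nat_lit 1078224358),
  Rx.mk (nat_lit 417) (nat_lit 1) (nat_lit 4) (nat_lit 6) (nat_lit 5) (nat_lit 199) (nat_lit 371) r5_199 r10_371 (nat_lit 0) (nat_lit 1673969) (nat_lit 0) (nat_lit 0x80ad5689e) (nat_lit 1064560193),
  Rx.mk (nat_lit 433) (nat_lit 1) (nat_lit 6) (nat_lit 6) (nat_lit 7) (nat_lit 200) (nat_lit 373) r5_200 r10_373 (nat_lit 0) (nat_lit 0) (nat_lit 0) (nat_lit 0x80029938e) (nat_lit 1073741824),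
  Rx.mk (nat_lit 441) (nat_lit 1) (nat_lit 7) (nat_lit 6) (nat_lit 7) (nat_lit 201) (nat_lit 372) r5_201 r10_372 (nat_lit 0) (nat_lit 0) (nat_lit 0) (nat_lit 0x803e42840) (nat_lit 1069931224)]
noncomputable def e30_55 : List Rx := [
  Rx.mk (nat_lit 313) (nat_lit 1) (nat_lit 7) (nat_lit 4) (nat_lit 3) (nat_lit 240) (nat_lit 366) r5_240 r11_366 (nat_lit 0) (nat_lit 0) (nat_lit 3575816) (nat_lit 0x8092b4d56) (nat_lit 1068148740),
  Rx.mk (nat_lit 441) (nat_lit 1) (nat_lit 7) (nat_lit 6) (nat_lit 7) (nat_lit 241) (nat_lit 367) r5_241 r11_367 (nat_lit 0) (nat_lit 0) (nat_lit 0) (nat_lit 0x81eccd206) (nat_lit 1042695924)]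
noncomputable def e30_56 : List Rx := [
  Rx.mk (nat_lit 312) (nat_lit 0) (nat_lit 7) (nat_lit 4) (nat_lit 2) (nat_lit 80) (nat_lit 83) r5_80 r5_83 (nat_lit 3718) (nat_lit 0) (nat_lit 5605) (nat_lit 0x7af6a24cc) (nat_lit 1157727747),
  Rx.mk (nat_lit 313) (nat_lit 1) (nat_lit 7) (nat_lit 4) (nat_lit 3) (nat_lit 81) (nat_lit 84) r5_81 r5_84 (nat_lit 0) (nat_lit 0) (nat_lit 2434184) (nat_lit 0x8086ffccc) (nat_lit 1067749108),
  Rx.mk (nat_lit 314) (nat_lit 2) (nat_lit 7) (nat_lit 4) (nat_lit 3) (nat_lit 82) (nat_lit 85) r5_82 r5_85 (nat_lit 0) (nat_lit 0) (nat_lit 1411156) (nat_lit 0x83ceb249a) (nat_lit 1013660580),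
  Rx.mk (nat_lit 416) (nat_lit 0) (nat_lit 4) (nat_lit 6) (nat_lit 4) (nat_lit 83) (nat_lit 80) r5_83 r5_80 (nat_lit 3718) (nat_lit 5605) (nat_lit 0) (nat_lit 0x7af6a24cc) (nat_lit 1157727747),
  Rx.mk (nat_lit 417) (nat_lit 1) (nat_lit 4) (nat_lit 6) (nat_lit 5) (nat_lit 84) (nat_lit 81) r5_84 r5_81 (nat_lit 0) (nat_lit 2434184) (nat_lit 0) (nat_lit 0x8086ffccc) (nat_lit 1067749108),
  Rx.mk (nat_lit 419) (nat_lit 3) (nat_lit 4) (nat_lit 6) (nat_lit 5) (nat_lit 85) (nat_lit 82) r5_85 r5_82 (nat_lit 0) (nat_lit 1411156) (nat_lit 0) (nat_lit 0x83ceb249a) (nat_lit 1013660580),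
  Rx.mk (nat_lit 432) (nat_lit 0) (nat_lit 6) (nat_lit 6) (nat_lit 6) (nat_lit 86) (nat_lit 91) r5_86 r5_91 (nat_lit 1288735) (nat_lit 0) (nat_lit 0) (nat_lit 0x7e46ed974) (nat_lit 1103838259),
  Rx.mk (nat_lit 433) (nat_lit 1) (nat_lit 6) (nat_lit 6) (nat_lit 7) (nat_lit 87) (nat_lit 92) r5_87 r5_92 (nat_lit 0) (nat_lit 0) (nat_lit 0) (nat_lit 0x7ff60f596) (nat_lit 1074542724),
  Rx.mk (nat_lit 435) (nat_lit 3) (nat_lit 6) (nat_lit 6) (nat_lit 7) (nat_lit 88) (nat_lit 93) r5_88 r5_93 (nat_lit 0) (nat_lit 0) (nat_lit 0) (nat_lit 0x80088cbd8) (nat_lit 1073347024),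
  Rx.mk (nat_lit 440) (nat_lit 0) (nat_lit 7) (nat_lit 6) (nat_lit 6) (nat_lit 89) (nat_lit 89) r5_89 r5_89 (nat_lit 30115) (nat_lit 0) (nat_lit 0) (nat_lit 0x893516ab0) (nat_lit 924891639),
  Rx.mk (nat_lit 441) (nat_lit 1) (nat_lit 7) (nat_lit 6) (nat_lit 7) (nat_lit 90) (nat_lit 90) r5_90 r5_90 (nat_lit 0) (nat_lit 0) (nat_lit 0) (nat_lit 0x805a1822c) (nat_lit 1068161824),
  Rx.mk (nat_lit 504) (nat_lit 0) (nat_lit 7) (nat_lit 7) (nat_lit 6) (nat_lit 91) (nat_lit 86) r5_91 r5_86 (nat_lit 1288735) (nat_lit 0) (nat_lit 0) (nat_lit 0x7e46ed974) (nat_lit 1103838259),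
  Rx.mk (nat_lit 505) (nat_lit 1) (nat_lit 7) (nat_lit 7) (nat_lit 7) (nat_lit 92) (nat_lit 87) r5_92 r5_87 (nat_lit 0) (nat_lit 0) (nat_lit 0) (nat_lit 0x7ff60f596) (nat_lit 1074542724),
  Rx.mk (nat_lit 506) (nat_lit 2) (nat_lit 7) (nat_lit 7) (nat_lit 7) (nat_lit 93) (nat_lit 88) r5_93 r5_88 (nat_lit 0) (nat_lit 0) (nat_lit 0) (nat_lit 0x80088cbd8) (nat_lit 1073347024)]
noncomputable def e30_57 : List Rx := [
  Rx.mk (nat_lit 288) (nat_lit 0) (nat_lit 4) (nat_lit 4) (nat_lit 0) (nat_lit 202) (nat_lit 68) r5_202 r11_68 (nat_lit 2576337) (nat_lit 3094232) (nat_lit 21720360) (nat_lit 0x4da7b05c6) (nat_lit 1940613153),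
  Rx.mk (nat_lit 289) (nat_lit 1) (nat_lit 4) (nat_lit 4) (nat_lit 1) (nat_lit 203) (nat_lit 69) r5_203 r11_69 (nat_lit 0) (nat_lit 8674374) (nat_lit 21585030) (nat_lit 0x7effacde8) (nat_lit 1120791828),
  Rx.mk (nat_lit 290) (nat_lit 2) (nat_lit 4) (nat_lit 4) (nat_lit 1) (nat_lit 204) (nat_lit 71) r5_204 r11_71 (nat_lit 0) (nat_lit 8510956) (nat_lit 17049817) (nat_lit 0x7ec27a33a) (nat_lit 1120075897),
  Rx.mk (nat_lit 291) (nat_lit 3) (nat_lit 4) (nat_lit 4) (nat_lit 1) (nat_lit 205) (nat_lit 70) r5_205 r11_70 (nat_lit 0) (nat_lit 8902206) (nat_lit 19180850) (nat_lit 0x7e9bef6c0) (nat_lit 1125108480),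
  Rx.mk (nat_lit 296) (nat_lit 0) (nat_lit 5) (nat_lit 4) (nat_lit 2) (nat_lit 206) (nat_lit 75) r5_206 r11_75 (nat_lit 11623778) (nat_lit 0) (nat_lit 14714486) (nat_lit 0x72e87497a) (nat_lit 1318449488),
  Rx.mk (nat_lit 298) (nat_lit 2) (nat_lit 5) (nat_lit 4) (nat_lit 3) (nat_lit 207) (nat_lit 77) r5_207 r11_77 (nat_lit 0) (nat_lit 0) (nat_lit 5449534) (nat_lit 0x80029938e) (nat_lit 1079191358),
  Rx.mk (nat_lit 299) (nat_lit 3) (nat_lit 5) (nat_lit 4) (nat_lit 3) (nat_lit 208) (nat_lit 76) r5_208 r11_76 (nat_lit 0) (nat_lit 0) (nat_lit 5449534) (nat_lit 0x80029938e) (nat_lit 1079191358),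
  Rx.mk (nat_lit 312) (nat_lit 0) (nat_lit 7) (nat_lit 4) (nat_lit 2) (nat_lit 209) (nat_lit 80) r5_209 r11_80 (nat_lit 2937614) (nat_lit 0) (nat_lit 66565718) (nat_lit 0x74b9e4b76) (nat_lit 1331296056),
  Rx.mk (nat_lit 313) (nat_lit 1) (nat_lit 7) (nat_lit 4) (nat_lit 3) (nat_lit 210) (nat_lit 81) r5_210 r11_81 (nat_lit 0) (nat_lit 0) (nat_lit 5449534) (nat_lit 0x800b9fd16) (nat_lit 1078612858),
  Rx.mk (nat_lit 314) (nat_lit 2) (nat_lit 7) (nat_lit 4) (nat_lit 3) (nat_lit 211) (nat_lit 82) r5_211 r11_82 (nat_lit 0) (nat_lit 0) (nat_lit 5449534) (nat_lit 0x800c7cac2) (nat_lit 1078557658),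
  Rx.mk (nat_lit 416) (nat_lit 0) (nat_lit 4) (nat_lit 6) (nat_lit 4) (nat_lit 212) (nat_lit 72) r5_212 r11_72 (nat_lit 2535516) (nat_lit 4194264) (nat_lit 0) (nat_lit 0x68bbaaf48) (nat_lit 1468482604),
  Rx.mk (nat_lit 417) (nat_lit 1) (nat_lit 4) (nat_lit 6) (nat_lit 5) (nat_lit 213) (nat_lit 73) r5_213 r11_73 (nat_lit 0) (nat_lit 4046712) (nat_lit 0) (nat_lit 0x801958a84) (nat_lit 1076331636),
  Rx.mk (nat_lit 419) (nat_lit 3) (nat_lit 4) (nat_lit 6) (nat_lit 5) (nat_lit 214) (nat_lit 74) r5_214 r11_74 (nat_lit 0) (nat_lit 4369172) (nat_lit 0) (nat_lit 0x7febb8bc4) (nat_lit 1079580196),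
  Rx.mk (nat_lit 424) (nat_lit 0) (nat_lit 5) (nat_lit 6) (nat_lit 6) (nat_lit 215) (nat_lit 78) r5_215 r11_78 (nat_lit 3453899) (nat_lit 0) (nat_lit 0) (nat_lit 0x8019ee37c) (nat_lit 1075699823),
  Rx.mk (nat_lit 427) (nat_lit 3) (nat_lit 5) (nat_lit 6) (nat_lit 7) (nat_lit 216) (nat_lit 79) r5_216 r11_79 (nat_lit 0) (nat_lit 0) (nat_lit 0) (nat_lit 0x800d38786) (nat_lit 1073060924),
  Rx.mk (nat_lit 432) (nat_lit 0) (nat_lit 6) (nat_lit 6) (nat_lit 6) (nat_lit 217) (nat_lit 88) r5_217 r11_88 (nat_lit 5824518) (nat_lit 0) (nat_lit 0) (nat_lit 0x7f6cb0a3e) (nat_lit 1089264642),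
  Rx.mk (nat_lit 433) (nat_lit 1) (nat_lit 6) (nat_lit 6) (nat_lit 7) (nat_lit 218) (nat_lit 89) r5_218 r11_89 (nat_lit 0) (nat_lit 0) (nat_lit 0) (nat_lit 0x80029938e) (nat_lit 1073741824),
  Rx.mk (nat_lit 435) (nat_lit 3) (nat_lit 6) (nat_lit 6) (nat_lit 7) (nat_lit 219) (nat_lit 90) r5_219 r11_90 (nat_lit 0) (nat_lit 0) (nat_lit 0) (nat_lit 0x80029938e) (nat_lit 1073741824),
  Rx.mk (nat_lit 440) (nat_lit 0) (nat_lit 7) (nat_lit 6) (nat_lit 6) (nat_lit 220) (nat_lit 86) r5_220 r11_86 (nat_lit 3361078) (nat_lit 0) (nat_lit 0) (nat_lit 0x802aa3348) (nat_lit 1074541602),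
  Rx.mk (nat_lit 441) (nat_lit 1) (nat_lit 7) (nat_lit 6) (nat_lit 7) (nat_lit 221) (nat_lit 87) r5_221 r11_87 (nat_lit 0) (nat_lit 0) (nat_lit 0) (nat_lit 0x800d38786) (nat_lit 1073060924),
  Rx.mk (nat_lit 504) (nat_lit 0) (nat_lit 7) (nat_lit 7) (nat_lit 6) (nat_lit 222) (nat_lit 83) r5_222 r11_83 (nat_lit 4726499) (nat_lit 0) (nat_lit 0) (nat_lit 0x7ff6067de) (nat_lit 1079274023),
  Rx.mk (nat_lit 505) (nat_lit 1) (nat_lit 7) (nat_lit 7) (nat_lit 7) (nat_lit 223) (nat_lit 84) r5_223 r11_84 (nat_lit 0) (nat_lit 0) (nat_lit 0) (nat_lit 0x80029938e) (nat_lit 1073741824),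
  Rx.mk (nat_lit 506) (nat_lit 2) (nat_lit 7) (nat_lit 7) (nat_lit 7) (nat_lit 224) (nat_lit 85) r5_224 r11_85 (nat_lit 0) (nat_lit 0) (nat_lit 0) (nat_lit 0x80029938e) (nat_lit 1073741824)]
noncomputable def e30 : List (List Rx) := [e30_0, e30_1, e30_2, e30_3, e30_4, e30_5, e30_6, e30_7, e30_8, e30_9, e30_10, e30_11, e30_12, e30_13, e30_14, e30_15, e30_16, e30_17, e30_18, e30_19, e30_20, e30_21, e30_22, e30_23, e30_24, e30_25, e30_26, e30_27, e30_28, e30_29, e30_30, e30_31, e30_32, e30_33, e30_34, e30_35, e30_36, e30_37, e30_38, e30_39, e30_40, e30_41, e30_42, e30_43, e30_44, e30_45, e30_46, e30_47, e30_48, e30_49, e30_50, e30_51, e30_52, e30_53, e30_54, e30_55, e30_56, e30_57]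
noncomputable def e31_0 : List Rx := [
  Rx.mk (nat_lit 2) (nat_lit 2) (nat_lit 0) (nat_lit 0) (nat_lit 1) (nat_lit 91) (nat_lit 212) r11_91 r0_212 (nat_lit 0) (nat_lit 177359743) (nat_lit 4290635) (nat_lit 0x71206e3fa) (nat_lit 1503455502),
  Rx.mk (nat_lit 6) (nat_lit 6) (nat_lit 0) (nat_lit 0) (nat_lit 1) (nat_lit 92) (nat_lit 219) r11_92 r0_219 (nat_lit 0) (nat_lit 1515078) (nat_lit 1327087) (nat_lit 0x70dac8bde) (nat_lit 1329174389),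
  Rx.mk (nat_lit 22) (nat_lit 6) (nat_lit 2) (nat_lit 0) (nat_lit 3) (nat_lit 93) (nat_lit 220) r11_93 r0_220 (nat_lit 0) (nat_lit 0) (nat_lit 2711268) (nat_lit 0x8030259d8) (nat_lit 1073539392),
  Rx.mk (nat_lit 148) (nat_lit 4) (nat_lit 2) (nat_lit 2) (nat_lit 6) (nat_lit 94) (nat_lit 215) r11_94 r0_215 (nat_lit 2667019) (nat_lit 0) (nat_lit 0) (nat_lit 0x7fbf39062) (nat_lit 1080746543),
  Rx.mk (nat_lit 150) (nat_lit 6) (nat_lit 2) (nat_lit 2) (nat_lit 7) (nat_lit 95) (nat_lit 221) r11_95 r0_221 (nat_lit 0) (nat_lit 0) (nat_lit 0) (nat_lit 0x8024ca5ca) (nat_lit 1071555724),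
  Rx.mk (nat_lit 180) (nat_lit 4) (nat_lit 6) (nat_lit 2) (nat_lit 6) (nat_lit 96) (nat_lit 216) r11_96 r0_216 (nat_lit 2261537) (nat_lit 0) (nat_lit 0) (nat_lit 0x802c51546) (nat_lit 1073330661),
  Rx.mk (nat_lit 194) (nat_lit 2) (nat_lit 0) (nat_lit 3) (nat_lit 5) (nat_lit 97) (nat_lit 213) r11_97 r0_213 (nat_lit 0) (nat_lit 55284396) (nat_lit 0) (nat_lit 0x7f832bb06) (nat_lit 1137266720),
  Rx.mk (nat_lit 218) (nat_lit 2) (nat_lit 3) (nat_lit 3) (nat_lit 7) (nat_lit 98) (nat_lit 214) r11_98 r0_214 (nat_lit 0) (nat_lit 0) (nat_lit 0) (nat_lit 0x805932ed4) (nat_lit 1068212724),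
  Rx.mk (nat_lit 436) (nat_lit 4) (nat_lit 6) (nat_lit 6) (nat_lit 6) (nat_lit 99) (nat_lit 217) r11_99 r0_217 (nat_lit 2191612) (nat_lit 0) (nat_lit 0) (nat_lit 0x7ea5f8ebe) (nat_lit 1098552836),
  Rx.mk (nat_lit 439) (nat_lit 7) (nat_lit 6) (nat_lit 6) (nat_lit 7) (nat_lit 100) (nat_lit 218) r11_100 r0_218 (nat_lit 0) (nat_lit 0) (nat_lit 0) (nat_lit 0x80fd022a8) (nat_lit 1057853824)]
noncomputable def e31_1 : List Rx := [
  Rx.mk (nat_lit 2) (nat_lit 2) (nat_lit 0) (nat_lit 0) (nat_lit 1) (nat_lit 107) (nat_lit 234) r11_107 r1_234 (nat_lit 0) (nat_lit 139026259) (nat_lit 4273280) (nat_lit 0x7713b0612) (nat_lit 1365912963),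
  Rx.mk (nat_lit 6) (nat_lit 6) (nat_lit 0) (nat_lit 0) (nat_lit 1) (nat_lit 108) (nat_lit 237) r11_108 r1_237 (nat_lit 0) (nat_lit 8516193) (nat_lit 7636497) (nat_lit 0x79092791e) (nat_lit 1206096814),
  Rx.mk (nat_lit 22) (nat_lit 6) (nat_lit 2) (nat_lit 0) (nat_lit 3) (nat_lit 109) (nat_lit 238) r11_109 r1_238 (nat_lit 0) (nat_lit 0) (nat_lit 5449534) (nat_lit 0x80029938e) (nat_lit 1079191358),
  Rx.mk (nat_lit 150) (nat_lit 6) (nat_lit 2) (nat_lit 2) (nat_lit 7) (nat_lit 110) (nat_lit 239) r11_110 r1_239 (nat_lit 0) (nat_lit 0) (nat_lit 0) (nat_lit 0x80029938e) (nat_lit 1073741824),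
  Rx.mk (nat_lit 194) (nat_lit 2) (nat_lit 0) (nat_lit 3) (nat_lit 5) (nat_lit 111) (nat_lit 235) r11_111 r1_235 (nat_lit 0) (nat_lit 5449534) (nat_lit 0) (nat_lit 0x800d59fb2) (nat_lit 1078501858),
  Rx.mk (nat_lit 218) (nat_lit 2) (nat_lit 3) (nat_lit 3) (nat_lit 7) (nat_lit 112) (nat_lit 236) r11_112 r1_236 (nat_lit 0) (nat_lit 0) (nat_lit 0) (nat_lit 0x8084b604c) (nat_lit 1065459024)]
noncomputable def e31_2 : List Rx := [
  Rx.mk (nat_lit 2) (nat_lit 2) (nat_lit 0) (nat_lit 0) (nat_lit 1) (nat_lit 308) (nat_lit 241) r11_308 r2_241 (nat_lit 0) (nat_lit 10390094) (nat_lit 9315237) (nat_lit 0x78a9c488c) (nat_lit 1215867155),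
  Rx.mk (nat_lit 6) (nat_lit 6) (nat_lit 0) (nat_lit 0) (nat_lit 1) (nat_lit 309) (nat_lit 246) r11_309 r2_246 (nat_lit 0) (nat_lit 10365630) (nat_lit 9794519) (nat_lit 0x7c8c29d82) (nat_lit 1151554373),
  Rx.mk (nat_lit 22) (nat_lit 6) (nat_lit 2) (nat_lit 0) (nat_lit 3) (nat_lit 310) (nat_lit 248) r11_310 r2_248 (nat_lit 0) (nat_lit 0) (nat_lit 5449534) (nat_lit 0x80029938e) (nat_lit 1079191358),
  Rx.mk (nat_lit 26) (nat_lit 2) (nat_lit 3) (nat_lit 0) (nat_lit 3) (nat_lit 311) (nat_lit 243) r11_311 r2_243 (nat_lit 0) (nat_lit 0) (nat_lit 2910432) (nat_lit 0x804c46c02) (nat_lit 1071955056),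
  Rx.mk (nat_lit 66) (nat_lit 2) (nat_lit 0) (nat_lit 1) (nat_lit 5) (nat_lit 312) (nat_lit 242) r11_312 r2_242 (nat_lit 0) (nat_lit 5449534) (nat_lit 0) (nat_lit 0x80029938e) (nat_lit 1079191358),
  Rx.mk (nat_lit 70) (nat_lit 6) (nat_lit 0) (nat_lit 1) (nat_lit 5) (nat_lit 313) (nat_lit 247) r11_313 r2_247 (nat_lit 0) (nat_lit 5449534) (nat_lit 0) (nat_lit 0x80029938e) (nat_lit 1079191358),
  Rx.mk (nat_lit 86) (nat_lit 6) (nat_lit 2) (nat_lit 1) (nat_lit 7) (nat_lit 314) (nat_lit 249) r11_314 r2_249 (nat_lit 0) (nat_lit 0) (nat_lit 0) (nat_lit 0x80029938e) (nat_lit 1073741824),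
  Rx.mk (nat_lit 90) (nat_lit 2) (nat_lit 3) (nat_lit 1) (nat_lit 7) (nat_lit 315) (nat_lit 244) r11_315 r2_244 (nat_lit 0) (nat_lit 0) (nat_lit 0) (nat_lit 0x80029938e) (nat_lit 1073741824),
  Rx.mk (nat_lit 150) (nat_lit 6) (nat_lit 2) (nat_lit 2) (nat_lit 7) (nat_lit 316) (nat_lit 250) r11_316 r2_250 (nat_lit 0) (nat_lit 0) (nat_lit 0) (nat_lit 0x80029938e) (nat_lit 1073741824),
  Rx.mk (nat_lit 218) (nat_lit 2) (nat_lit 3) (nat_lit 3) (nat_lit 7) (nat_lit 317) (nat_lit 245) r11_317 r2_245 (nat_lit 0) (nat_lit 0) (nat_lit 0) (nat_lit 0x80029938e) (nat_lit 1073741824)]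
noncomputable def e31_3 : List Rx := [
  Rx.mk (nat_lit 439) (nat_lit 7) (nat_lit 6) (nat_lit 6) (nat_lit 7) (nat_lit 6) (nat_lit 216) r11_6 r3_216 (nat_lit 0) (nat_lit 0) (nat_lit 0) (nat_lit 0x9287cfb68) (nat_lit 774145224),
  Rx.mk (nat_lit 474) (nat_lit 2) (nat_lit 3) (nat_lit 7) (nat_lit 7) (nat_lit 7) (nat_lit 215) r11_7 r3_215 (nat_lit 0) (nat_lit 0) (nat_lit 0) (nat_lit 0x970ef9cfc) (nat_lit 700901524)]
noncomputable def e31_4 : List Rx := [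
  Rx.mk (nat_lit 6) (nat_lit 6) (nat_lit 0) (nat_lit 0) (nat_lit 1) (nat_lit 125) (nat_lit 212) r11_125 r4_212 (nat_lit 0) (nat_lit 180054) (nat_lit 162008) (nat_lit 0x66f25fd9c) (nat_lit 1491827986),
  Rx.mk (nat_lit 22) (nat_lit 6) (nat_lit 2) (nat_lit 0) (nat_lit 3) (nat_lit 126) (nat_lit 214) r11_126 r4_214 (nat_lit 0) (nat_lit 0) (nat_lit 1914977) (nat_lit 0x805cba6f6) (nat_lit 1069908001),
  Rx.mk (nat_lit 148) (nat_lit 4) (nat_lit 2) (nat_lit 2) (nat_lit 6) (nat_lit 127) (nat_lit 208) r11_127 r4_208 (nat_lit 2480456) (nat_lit 0) (nat_lit 0) (nat_lit 0x80331b106) (nat_lit 1073118480),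
  Rx.mk (nat_lit 150) (nat_lit 6) (nat_lit 2) (nat_lit 2) (nat_lit 7) (nat_lit 128) (nat_lit 216) r11_128 r4_216 (nat_lit 0) (nat_lit 0) (nat_lit 0) (nat_lit 0x8038253f4) (nat_lit 1070320124),
  Rx.mk (nat_lit 180) (nat_lit 4) (nat_lit 6) (nat_lit 2) (nat_lit 6) (nat_lit 129) (nat_lit 209) r11_129 r4_209 (nat_lit 2654410) (nat_lit 0) (nat_lit 0) (nat_lit 0x7fede05b4) (nat_lit 1077722534),
  Rx.mk (nat_lit 183) (nat_lit 7) (nat_lit 6) (nat_lit 2) (nat_lit 7) (nat_lit 130) (nat_lit 210) r11_130 r4_210 (nat_lit 0) (nat_lit 0) (nat_lit 0) (nat_lit 0x80c72ecda) (nat_lit 1061253024),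
  Rx.mk (nat_lit 194) (nat_lit 2) (nat_lit 0) (nat_lit 3) (nat_lit 5) (nat_lit 131) (nat_lit 205) r11_131 r4_205 (nat_lit 0) (nat_lit 26745555) (nat_lit 0) (nat_lit 0x7fe494c12) (nat_lit 1102412179),
  Rx.mk (nat_lit 198) (nat_lit 6) (nat_lit 0) (nat_lit 3) (nat_lit 5) (nat_lit 132) (nat_lit 213) r11_132 r4_213 (nat_lit 0) (nat_lit 2501188) (nat_lit 0) (nat_lit 0x802edd148) (nat_lit 1073408112),
  Rx.mk (nat_lit 214) (nat_lit 6) (nat_lit 2) (nat_lit 3) (nat_lit 7) (nat_lit 133) (nat_lit 215) r11_133 r4_215 (nat_lit 0) (nat_lit 0) (nat_lit 0) (nat_lit 0x803a9eba8) (nat_lit 1070162724),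
  Rx.mk (nat_lit 218) (nat_lit 2) (nat_lit 3) (nat_lit 3) (nat_lit 7) (nat_lit 134) (nat_lit 206) r11_134 r4_206 (nat_lit 0) (nat_lit 0) (nat_lit 0) (nat_lit 0x832cd703a) (nat_lit 1022477724),
  Rx.mk (nat_lit 439) (nat_lit 7) (nat_lit 6) (nat_lit 6) (nat_lit 7) (nat_lit 135) (nat_lit 211) r11_135 r4_211 (nat_lit 0) (nat_lit 0) (nat_lit 0) (nat_lit 0x867de86ba) (nat_lit 968842524),
  Rx.mk (nat_lit 474) (nat_lit 2) (nat_lit 3) (nat_lit 7) (nat_lit 7) (nat_lit 136) (nat_lit 207) r11_136 r4_207 (nat_lit 0) (nat_lit 0) (nat_lit 0) (nat_lit 0x80e2c1c04) (nat_lit 1059510024)]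
noncomputable def e31_5 : List Rx := [
  Rx.mk (nat_lit 474) (nat_lit 2) (nat_lit 3) (nat_lit 7) (nat_lit 7) (nat_lit 265) (nat_lit 230) r11_265 r5_230 (nat_lit 0) (nat_lit 0) (nat_lit 0) (nat_lit 0x9450c7056) (nat_lit 745300424)]
noncomputable def e31_6 : List Rx := [
  Rx.mk (nat_lit 322) (nat_lit 2) (nat_lit 0) (nat_lit 5) (nat_lit 5) (nat_lit 351) (nat_lit 225) r11_351 r3_225 (nat_lit 0) (nat_lit 43945288) (nat_lit 0) (nat_lit 0x7fd2eddd8) (nat_lit 1120678112),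
  Rx.mk (nat_lit 346) (nat_lit 2) (nat_lit 3) (nat_lit 5) (nat_lit 7) (nat_lit 352) (nat_lit 226) r11_352 r3_226 (nat_lit 0) (nat_lit 0) (nat_lit 0) (nat_lit 0xa03942e42) (nat_lit 552675224)]
noncomputable def e31_7 : List Rx := [
  Rx.mk (nat_lit 66) (nat_lit 2) (nat_lit 0) (nat_lit 1) (nat_lit 5) (nat_lit 300) (nat_lit 226) r11_300 r0_226 (nat_lit 0) (nat_lit 3044938) (nat_lit 0) (nat_lit 0x80a25caec) (nat_lit 1066625862),
  Rx.mk (nat_lit 90) (nat_lit 2) (nat_lit 3) (nat_lit 1) (nat_lit 7) (nat_lit 301) (nat_lit 227) r11_301 r0_227 (nat_lit 0) (nat_lit 0) (nat_lit 0) (nat_lit 0x811726e18) (nat_lit 1056188224),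
  Rx.mk (nat_lit 322) (nat_lit 2) (nat_lit 0) (nat_lit 5) (nat_lit 5) (nat_lit 302) (nat_lit 225) r11_302 r0_225 (nat_lit 0) (nat_lit 2075395) (nat_lit 0) (nat_lit 0x7fa625f44) (nat_lit 1081791519)]
noncomputable def e31_8 : List Rx := [
  Rx.mk (nat_lit 66) (nat_lit 2) (nat_lit 0) (nat_lit 1) (nat_lit 5) (nat_lit 333) (nat_lit 244) r11_333 r1_244 (nat_lit 0) (nat_lit 3129371) (nat_lit 0) (nat_lit 0x8036700c2) (nat_lit 1073557195),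
  Rx.mk (nat_lit 90) (nat_lit 2) (nat_lit 3) (nat_lit 1) (nat_lit 7) (nat_lit 334) (nat_lit 245) r11_334 r1_245 (nat_lit 0) (nat_lit 0) (nat_lit 0) (nat_lit 0x80c2edd92) (nat_lit 1061523624)]
noncomputable def e31_9 : List Rx := [
  Rx.mk (nat_lit 90) (nat_lit 2) (nat_lit 3) (nat_lit 1) (nat_lit 7) (nat_lit 357) (nat_lit 228) r11_357 r4_228 (nat_lit 0) (nat_lit 0) (nat_lit 0) (nat_lit 0x841e5b4ec) (nat_lit 1007221824),
  Rx.mk (nat_lit 322) (nat_lit 2) (nat_lit 0) (nat_lit 5) (nat_lit 5) (nat_lit 358) (nat_lit 226) r11_358 r4_226 (nat_lit 0) (nat_lit 2508955) (nat_lit 0) (nat_lit 0x803850888) (nat_lit 1072812579),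
  Rx.mk (nat_lit 346) (nat_lit 2) (nat_lit 3) (nat_lit 5) (nat_lit 7) (nat_lit 359) (nat_lit 227) r11_359 r4_227 (nat_lit 0) (nat_lit 0) (nat_lit 0) (nat_lit 0x86812eb26) (nat_lit 968635724)]
noncomputable def e31_10 : List Rx := [
  Rx.mk (nat_lit 282) (nat_lit 2) (nat_lit 3) (nat_lit 4) (nat_lit 3) (nat_lit 284) (nat_lit 241) r11_284 r6_241 (nat_lit 0) (nat_lit 0) (nat_lit 424298) (nat_lit 0x882e6edee) (nat_lit 941930922),
  Rx.mk (nat_lit 346) (nat_lit 2) (nat_lit 3) (nat_lit 5) (nat_lit 7) (nat_lit 285) (nat_lit 242) r11_285 r6_242 (nat_lit 0) (nat_lit 0) (nat_lit 0) (nat_lit 0xa352ba304) (nat_lit 502613624),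
  Rx.mk (nat_lit 474) (nat_lit 2) (nat_lit 3) (nat_lit 7) (nat_lit 7) (nat_lit 286) (nat_lit 243) r11_286 r6_243 (nat_lit 0) (nat_lit 0) (nat_lit 0) (nat_lit 0x9a931abc8) (nat_lit 644086424)]
noncomputable def e31_11 : List Rx := [
  Rx.mk (nat_lit 322) (nat_lit 2) (nat_lit 0) (nat_lit 5) (nat_lit 5) (nat_lit 366) (nat_lit 240) r11_366 r5_240 (nat_lit 0) (nat_lit 3575816) (nat_lit 0) (nat_lit 0x8092b4d56) (nat_lit 1068148740),
  Rx.mk (nat_lit 346) (nat_lit 2) (nat_lit 3) (nat_lit 5) (nat_lit 7) (nat_lit 367) (nat_lit 241) r11_367 r5_241 (nat_lit 0) (nat_lit 0) (nat_lit 0) (nat_lit 0x81eccd206) (nat_lit 1042695924)]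
noncomputable def e31_12 : List Rx := [
  Rx.mk (nat_lit 436) (nat_lit 4) (nat_lit 6) (nat_lit 6) (nat_lit 6) (nat_lit 0) (nat_lit 152) r11_0 r0_152 (nat_lit 4245916) (nat_lit 0) (nat_lit 0) (nat_lit 0x7feae8000) (nat_lit 1079510240),
  Rx.mk (nat_lit 439) (nat_lit 7) (nat_lit 6) (nat_lit 6) (nat_lit 7) (nat_lit 1) (nat_lit 153) r11_1 r0_153 (nat_lit 0) (nat_lit 0) (nat_lit 0) (nat_lit 0x800bb8a46) (nat_lit 1073157024)]
noncomputable def e31_13 : List Rx := [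
  Rx.mk (nat_lit 22) (nat_lit 6) (nat_lit 2) (nat_lit 0) (nat_lit 3) (nat_lit 101) (nat_lit 278) r11_101 r7_278 (nat_lit 0) (nat_lit 0) (nat_lit 5449534) (nat_lit 0x80029938e) (nat_lit 1079191358),
  Rx.mk (nat_lit 148) (nat_lit 4) (nat_lit 2) (nat_lit 2) (nat_lit 6) (nat_lit 102) (nat_lit 274) r11_102 r7_274 (nat_lit 6685557) (nat_lit 0) (nat_lit 0) (nat_lit 0x7fa33a33e) (nat_lit 1086587581),
  Rx.mk (nat_lit 150) (nat_lit 6) (nat_lit 2) (nat_lit 2) (nat_lit 7) (nat_lit 103) (nat_lit 279) r11_103 r7_279 (nat_lit 0) (nat_lit 0) (nat_lit 0) (nat_lit 0x80029938e) (nat_lit 1073741824),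
  Rx.mk (nat_lit 180) (nat_lit 4) (nat_lit 6) (nat_lit 2) (nat_lit 6) (nat_lit 104) (nat_lit 275) r11_104 r7_275 (nat_lit 5449534) (nat_lit 0) (nat_lit 0) (nat_lit 0x80029938e) (nat_lit 1079191358),
  Rx.mk (nat_lit 436) (nat_lit 4) (nat_lit 6) (nat_lit 6) (nat_lit 6) (nat_lit 105) (nat_lit 276) r11_105 r7_276 (nat_lit 2301147) (nat_lit 0) (nat_lit 0) (nat_lit 0x8062f057a) (nat_lit 1069902071),
  Rx.mk (nat_lit 439) (nat_lit 7) (nat_lit 6) (nat_lit 6) (nat_lit 7) (nat_lit 106) (nat_lit 277) r11_106 r7_277 (nat_lit 0) (nat_lit 0) (nat_lit 0) (nat_lit 0x804200450) (nat_lit 1069693624)]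
noncomputable def e31_14 : List Rx := [
  Rx.mk (nat_lit 436) (nat_lit 4) (nat_lit 6) (nat_lit 6) (nat_lit 6) (nat_lit 2) (nat_lit 166) r11_2 r1_166 (nat_lit 5621376) (nat_lit 0) (nat_lit 0) (nat_lit 0x7fea6aa60) (nat_lit 1080917600),
  Rx.mk (nat_lit 437) (nat_lit 5) (nat_lit 6) (nat_lit 6) (nat_lit 7) (nat_lit 3) (nat_lit 167) r11_3 r1_167 (nat_lit 0) (nat_lit 0) (nat_lit 0) (nat_lit 0x80029938e) (nat_lit 1073741824),
  Rx.mk (nat_lit 439) (nat_lit 7) (nat_lit 6) (nat_lit 6) (nat_lit 7) (nat_lit 4) (nat_lit 168) r11_4 r1_168 (nat_lit 0) (nat_lit 0) (nat_lit 0) (nat_lit 0x80029938e) (nat_lit 1073741824)]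
noncomputable def e31_15 : List Rx := [
  Rx.mk (nat_lit 148) (nat_lit 4) (nat_lit 2) (nat_lit 2) (nat_lit 6) (nat_lit 115) (nat_lit 206) r11_115 r8_206 (nat_lit 5612407) (nat_lit 0) (nat_lit 0) (nat_lit 0x7ff40af5c) (nat_lit 1080288431),
  Rx.mk (nat_lit 149) (nat_lit 5) (nat_lit 2) (nat_lit 2) (nat_lit 7) (nat_lit 116) (nat_lit 209) r11_116 r8_209 (nat_lit 0) (nat_lit 0) (nat_lit 0) (nat_lit 0x80029938e) (nat_lit 1073741824),
  Rx.mk (nat_lit 150) (nat_lit 6) (nat_lit 2) (nat_lit 2) (nat_lit 7) (nat_lit 117) (nat_lit 213) r11_117 r8_213 (nat_lit 0) (nat_lit 0) (nat_lit 0) (nat_lit 0x80029938e) (nat_lit 1073741824),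
  Rx.mk (nat_lit 180) (nat_lit 4) (nat_lit 6) (nat_lit 2) (nat_lit 6) (nat_lit 118) (nat_lit 207) r11_118 r8_207 (nat_lit 5449534) (nat_lit 0) (nat_lit 0) (nat_lit 0x80029938e) (nat_lit 1079191358),
  Rx.mk (nat_lit 181) (nat_lit 5) (nat_lit 6) (nat_lit 2) (nat_lit 7) (nat_lit 119) (nat_lit 210) r11_119 r8_210 (nat_lit 0) (nat_lit 0) (nat_lit 0) (nat_lit 0x80029938e) (nat_lit 1073741824),
  Rx.mk (nat_lit 436) (nat_lit 4) (nat_lit 6) (nat_lit 6) (nat_lit 6) (nat_lit 120) (nat_lit 208) r11_120 r8_208 (nat_lit 4232301) (nat_lit 0) (nat_lit 0) (nat_lit 0x8010bf30a) (nat_lit 1077067325),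
  Rx.mk (nat_lit 437) (nat_lit 5) (nat_lit 6) (nat_lit 6) (nat_lit 7) (nat_lit 121) (nat_lit 211) r11_121 r8_211 (nat_lit 0) (nat_lit 0) (nat_lit 0) (nat_lit 0x80029938e) (nat_lit 1073741824),
  Rx.mk (nat_lit 439) (nat_lit 7) (nat_lit 6) (nat_lit 6) (nat_lit 7) (nat_lit 122) (nat_lit 212) r11_122 r8_212 (nat_lit 0) (nat_lit 0) (nat_lit 0) (nat_lit 0x80029938e) (nat_lit 1073741824)]
noncomputable def e31_16 : List Rx := [
  Rx.mk (nat_lit 22) (nat_lit 6) (nat_lit 2) (nat_lit 0) (nat_lit 3) (nat_lit 113) (nat_lit 157) r11_113 r8_157 (nat_lit 0) (nat_lit 0) (nat_lit 5449534) (nat_lit 0x80029938e) (nat_lit 1079191358),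
  Rx.mk (nat_lit 150) (nat_lit 6) (nat_lit 2) (nat_lit 2) (nat_lit 7) (nat_lit 114) (nat_lit 158) r11_114 r8_158 (nat_lit 0) (nat_lit 0) (nat_lit 0) (nat_lit 0x80029938e) (nat_lit 1073741824)]
noncomputable def e31_17 : List Rx := [
  Rx.mk (nat_lit 22) (nat_lit 6) (nat_lit 2) (nat_lit 0) (nat_lit 3) (nat_lit 330) (nat_lit 216) r11_330 r9_216 (nat_lit 0) (nat_lit 0) (nat_lit 5449534) (nat_lit 0x80029938e) (nat_lit 1079191358),
  Rx.mk (nat_lit 86) (nat_lit 6) (nat_lit 2) (nat_lit 1) (nat_lit 7) (nat_lit 331) (nat_lit 217) r11_331 r9_217 (nat_lit 0) (nat_lit 0) (nat_lit 0) (nat_lit 0x80029938e) (nat_lit 1073741824),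
  Rx.mk (nat_lit 150) (nat_lit 6) (nat_lit 2) (nat_lit 2) (nat_lit 7) (nat_lit 332) (nat_lit 218) r11_332 r9_218 (nat_lit 0) (nat_lit 0) (nat_lit 0) (nat_lit 0x80029938e) (nat_lit 1073741824)]
noncomputable def e31_18 : List Rx := [
  Rx.mk (nat_lit 439) (nat_lit 7) (nat_lit 6) (nat_lit 6) (nat_lit 7) (nat_lit 8) (nat_lit 143) r11_8 r4_143 (nat_lit 0) (nat_lit 0) (nat_lit 0) (nat_lit 0x80029938e) (nat_lit 1073741824)]
noncomputable def e31_19 : List Rx := [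
  Rx.mk (nat_lit 22) (nat_lit 6) (nat_lit 2) (nat_lit 0) (nat_lit 3) (nat_lit 137) (nat_lit 222) r11_137 r10_222 (nat_lit 0) (nat_lit 0) (nat_lit 5449534) (nat_lit 0x80029938e) (nat_lit 1079191358),
  Rx.mk (nat_lit 148) (nat_lit 4) (nat_lit 2) (nat_lit 2) (nat_lit 6) (nat_lit 138) (nat_lit 218) r11_138 r10_218 (nat_lit 5449534) (nat_lit 0) (nat_lit 0) (nat_lit 0x80029938e) (nat_lit 1079191358),
  Rx.mk (nat_lit 150) (nat_lit 6) (nat_lit 2) (nat_lit 2) (nat_lit 7) (nat_lit 139) (nat_lit 224) r11_139 r10_224 (nat_lit 0) (nat_lit 0) (nat_lit 0) (nat_lit 0x80029938e) (nat_lit 1073741824),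
  Rx.mk (nat_lit 180) (nat_lit 4) (nat_lit 6) (nat_lit 2) (nat_lit 6) (nat_lit 140) (nat_lit 219) r11_140 r10_219 (nat_lit 5449534) (nat_lit 0) (nat_lit 0) (nat_lit 0x80029938e) (nat_lit 1079191358),
  Rx.mk (nat_lit 183) (nat_lit 7) (nat_lit 6) (nat_lit 2) (nat_lit 7) (nat_lit 141) (nat_lit 220) r11_141 r10_220 (nat_lit 0) (nat_lit 0) (nat_lit 0) (nat_lit 0x80029938e) (nat_lit 1073741824),
  Rx.mk (nat_lit 214) (nat_lit 6) (nat_lit 2) (nat_lit 3) (nat_lit 7) (nat_lit 142) (nat_lit 223) r11_142 r10_223 (nat_lit 0) (nat_lit 0) (nat_lit 0) (nat_lit 0x80029938e) (nat_lit 1073741824),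
  Rx.mk (nat_lit 439) (nat_lit 7) (nat_lit 6) (nat_lit 6) (nat_lit 7) (nat_lit 143) (nat_lit 221) r11_143 r10_221 (nat_lit 0) (nat_lit 0) (nat_lit 0) (nat_lit 0x8037ea8d0) (nat_lit 1070334824)]
noncomputable def e31_20 : List Rx := []
noncomputable def e31_21 : List Rx := [
  Rx.mk (nat_lit 2) (nat_lit 2) (nat_lit 0) (nat_lit 0) (nat_lit 1) (nat_lit 318) (nat_lit 231) r11_318 r9_231 (nat_lit 0) (nat_lit 35806592) (nat_lit 28325714) (nat_lit 0x7d068baa8) (nat_lit 1187560530),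
  Rx.mk (nat_lit 6) (nat_lit 6) (nat_lit 0) (nat_lit 0) (nat_lit 1) (nat_lit 319) (nat_lit 229) r11_319 r9_229 (nat_lit 0) (nat_lit 11688394) (nat_lit 11688394) (nat_lit 0x7bca66588) (nat_lit 1167391312),
  Rx.mk (nat_lit 22) (nat_lit 6) (nat_lit 2) (nat_lit 0) (nat_lit 3) (nat_lit 320) (nat_lit 238) r11_320 r9_238 (nat_lit 0) (nat_lit 0) (nat_lit 5449534) (nat_lit 0x80029938e) (nat_lit 1079191358),
  Rx.mk (nat_lit 26) (nat_lit 2) (nat_lit 3) (nat_lit 0) (nat_lit 3) (nat_lit 321) (nat_lit 235) r11_321 r9_235 (nat_lit 0) (nat_lit 0) (nat_lit 5449534) (nat_lit 0x80029938e) (nat_lit 1079191358),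
  Rx.mk (nat_lit 66) (nat_lit 2) (nat_lit 0) (nat_lit 1) (nat_lit 5) (nat_lit 322) (nat_lit 232) r11_322 r9_232 (nat_lit 0) (nat_lit 5449534) (nat_lit 0) (nat_lit 0x80029938e) (nat_lit 1079191358),
  Rx.mk (nat_lit 70) (nat_lit 6) (nat_lit 0) (nat_lit 1) (nat_lit 5) (nat_lit 323) (nat_lit 230) r11_323 r9_230 (nat_lit 0) (nat_lit 5449534) (nat_lit 0) (nat_lit 0x80029938e) (nat_lit 1079191358),
  Rx.mk (nat_lit 74) (nat_lit 2) (nat_lit 1) (nat_lit 1) (nat_lit 7) (nat_lit 324) (nat_lit 234) r11_324 r9_234 (nat_lit 0) (nat_lit 0) (nat_lit 0) (nat_lit 0x80029938e) (nat_lit 1073741824),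
  Rx.mk (nat_lit 78) (nat_lit 6) (nat_lit 1) (nat_lit 1) (nat_lit 7) (nat_lit 325) (nat_lit 233) r11_325 r9_233 (nat_lit 0) (nat_lit 0) (nat_lit 0) (nat_lit 0x80029938e) (nat_lit 1073741824),
  Rx.mk (nat_lit 86) (nat_lit 6) (nat_lit 2) (nat_lit 1) (nat_lit 7) (nat_lit 326) (nat_lit 239) r11_326 r9_239 (nat_lit 0) (nat_lit 0) (nat_lit 0) (nat_lit 0x80029938e) (nat_lit 1073741824),
  Rx.mk (nat_lit 90) (nat_lit 2) (nat_lit 3) (nat_lit 1) (nat_lit 7) (nat_lit 327) (nat_lit 236) r11_327 r9_236 (nat_lit 0) (nat_lit 0) (nat_lit 0) (nat_lit 0x80029938e) (nat_lit 1073741824),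
  Rx.mk (nat_lit 150) (nat_lit 6) (nat_lit 2) (nat_lit 2) (nat_lit 7) (nat_lit 328) (nat_lit 240) r11_328 r9_240 (nat_lit 0) (nat_lit 0) (nat_lit 0) (nat_lit 0x80029938e) (nat_lit 1073741824),
  Rx.mk (nat_lit 218) (nat_lit 2) (nat_lit 3) (nat_lit 3) (nat_lit 7) (nat_lit 329) (nat_lit 237) r11_329 r9_237 (nat_lit 0) (nat_lit 0) (nat_lit 0) (nat_lit 0x80029938e) (nat_lit 1073741824)]
noncomputable def e31_22 : List Rx := [
  Rx.mk (nat_lit 322) (nat_lit 2) (nat_lit 0) (nat_lit 5) (nat_lit 5) (nat_lit 298) (nat_lit 328) r11_298 r0_328 (nat_lit 0) (nat_lit 4405947) (nat_lit 0) (nat_lit 0x7ffb995de) (nat_lit 1078595171),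
  Rx.mk (nat_lit 330) (nat_lit 2) (nat_lit 1) (nat_lit 5) (nat_lit 7) (nat_lit 299) (nat_lit 329) r11_299 r0_329 (nat_lit 0) (nat_lit 0) (nat_lit 0) (nat_lit 0x800a900e2) (nat_lit 1073231224)]
noncomputable def e31_23 : List Rx := [
  Rx.mk (nat_lit 330) (nat_lit 2) (nat_lit 1) (nat_lit 5) (nat_lit 7) (nat_lit 338) (nat_lit 310) r11_338 r1_310 (nat_lit 0) (nat_lit 0) (nat_lit 0) (nat_lit 0x80029938e) (nat_lit 1073741824)]
noncomputable def e31_24 : List Rx := [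
  Rx.mk (nat_lit 322) (nat_lit 2) (nat_lit 0) (nat_lit 5) (nat_lit 5) (nat_lit 353) (nat_lit 363) r11_353 r4_363 (nat_lit 0) (nat_lit 4642613) (nat_lit 0) (nat_lit 0x7fedac142) (nat_lit 1079729037),
  Rx.mk (nat_lit 330) (nat_lit 2) (nat_lit 1) (nat_lit 5) (nat_lit 7) (nat_lit 354) (nat_lit 364) r11_354 r4_364 (nat_lit 0) (nat_lit 0) (nat_lit 0) (nat_lit 0x800f551b8) (nat_lit 1072925424),
  Rx.mk (nat_lit 346) (nat_lit 2) (nat_lit 3) (nat_lit 5) (nat_lit 7) (nat_lit 355) (nat_lit 365) r11_355 r4_365 (nat_lit 0) (nat_lit 0) (nat_lit 0) (nat_lit 0x800f551b8) (nat_lit 1072925424)]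
noncomputable def e31_25 : List Rx := [
  Rx.mk (nat_lit 66) (nat_lit 2) (nat_lit 0) (nat_lit 1) (nat_lit 5) (nat_lit 303) (nat_lit 289) r11_303 r7_289 (nat_lit 0) (nat_lit 5449534) (nat_lit 0) (nat_lit 0x80029938e) (nat_lit 1079191358),
  Rx.mk (nat_lit 74) (nat_lit 2) (nat_lit 1) (nat_lit 1) (nat_lit 7) (nat_lit 304) (nat_lit 291) r11_304 r7_291 (nat_lit 0) (nat_lit 0) (nat_lit 0) (nat_lit 0x80029938e) (nat_lit 1073741824),
  Rx.mk (nat_lit 90) (nat_lit 2) (nat_lit 3) (nat_lit 1) (nat_lit 7) (nat_lit 305) (nat_lit 292) r11_305 r7_292 (nat_lit 0) (nat_lit 0) (nat_lit 0) (nat_lit 0x80029938e) (nat_lit 1073741824),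
  Rx.mk (nat_lit 322) (nat_lit 2) (nat_lit 0) (nat_lit 5) (nat_lit 5) (nat_lit 306) (nat_lit 288) r11_306 r7_288 (nat_lit 0) (nat_lit 2211577) (nat_lit 0) (nat_lit 0x80826cbe2) (nat_lit 1067819001),
  Rx.mk (nat_lit 330) (nat_lit 2) (nat_lit 1) (nat_lit 5) (nat_lit 7) (nat_lit 307) (nat_lit 290) r11_307 r7_290 (nat_lit 0) (nat_lit 0) (nat_lit 0) (nat_lit 0x804af24dc) (nat_lit 1069126324)]
noncomputable def e31_26 : List Rx := [
  Rx.mk (nat_lit 74) (nat_lit 2) (nat_lit 1) (nat_lit 1) (nat_lit 7) (nat_lit 343) (nat_lit 220) r11_343 r8_220 (nat_lit 0) (nat_lit 0) (nat_lit 0) (nat_lit 0x80029938e) (nat_lit 1073741824),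
  Rx.mk (nat_lit 330) (nat_lit 2) (nat_lit 1) (nat_lit 5) (nat_lit 7) (nat_lit 344) (nat_lit 219) r11_344 r8_219 (nat_lit 0) (nat_lit 0) (nat_lit 0) (nat_lit 0x80029938e) (nat_lit 1073741824)]
noncomputable def e31_27 : List Rx := [
  Rx.mk (nat_lit 66) (nat_lit 2) (nat_lit 0) (nat_lit 1) (nat_lit 5) (nat_lit 335) (nat_lit 358) r11_335 r8_358 (nat_lit 0) (nat_lit 5449534) (nat_lit 0) (nat_lit 0x80029938e) (nat_lit 1079191358),
  Rx.mk (nat_lit 74) (nat_lit 2) (nat_lit 1) (nat_lit 1) (nat_lit 7) (nat_lit 336) (nat_lit 359) r11_336 r8_359 (nat_lit 0) (nat_lit 0) (nat_lit 0) (nat_lit 0x80029938e) (nat_lit 1073741824),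
  Rx.mk (nat_lit 90) (nat_lit 2) (nat_lit 3) (nat_lit 1) (nat_lit 7) (nat_lit 337) (nat_lit 360) r11_337 r8_360 (nat_lit 0) (nat_lit 0) (nat_lit 0) (nat_lit 0x80029938e) (nat_lit 1073741824)]
noncomputable def e31_28 : List Rx := [
  Rx.mk (nat_lit 90) (nat_lit 2) (nat_lit 3) (nat_lit 1) (nat_lit 7) (nat_lit 360) (nat_lit 243) r11_360 r10_243 (nat_lit 0) (nat_lit 0) (nat_lit 0) (nat_lit 0x80029938e) (nat_lit 1073741824),
  Rx.mk (nat_lit 322) (nat_lit 2) (nat_lit 0) (nat_lit 5) (nat_lit 5) (nat_lit 361) (nat_lit 240) r11_361 r10_240 (nat_lit 0) (nat_lit 2407548) (nat_lit 0) (nat_lit 0x806441ffa) (nat_lit 1069926072),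
  Rx.mk (nat_lit 330) (nat_lit 2) (nat_lit 1) (nat_lit 5) (nat_lit 7) (nat_lit 362) (nat_lit 241) r11_362 r10_241 (nat_lit 0) (nat_lit 0) (nat_lit 0) (nat_lit 0x803403b68) (nat_lit 1070584224),
  Rx.mk (nat_lit 346) (nat_lit 2) (nat_lit 3) (nat_lit 5) (nat_lit 7) (nat_lit 363) (nat_lit 242) r11_363 r10_242 (nat_lit 0) (nat_lit 0) (nat_lit 0) (nat_lit 0x803403b68) (nat_lit 1070584224)]
noncomputable def e31_29 : List Rx := [
  Rx.mk (nat_lit 322) (nat_lit 2) (nat_lit 0) (nat_lit 5) (nat_lit 5) (nat_lit 368) (nat_lit 281) r11_368 r11_281 (nat_lit 0) (nat_lit 5649802) (nat_lit 0) (nat_lit 0x7ff512e2c) (nat_lit 1080260426),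
  Rx.mk (nat_lit 330) (nat_lit 2) (nat_lit 1) (nat_lit 5) (nat_lit 7) (nat_lit 369) (nat_lit 282) r11_369 r11_282 (nat_lit 0) (nat_lit 0) (nat_lit 0) (nat_lit 0x80029938e) (nat_lit 1073741824),
  Rx.mk (nat_lit 346) (nat_lit 2) (nat_lit 3) (nat_lit 5) (nat_lit 7) (nat_lit 370) (nat_lit 283) r11_370 r11_283 (nat_lit 0) (nat_lit 0) (nat_lit 0) (nat_lit 0x80029938e) (nat_lit 1073741824)]
noncomputable def e31_30 : List Rx := [
  Rx.mk (nat_lit 291) (nat_lit 3) (nat_lit 4) (nat_lit 4) (nat_lit 1) (nat_lit 9) (nat_lit 140) r11_9 r5_140 (nat_lit 0) (nat_lit 175020) (nat_lit 125684) (nat_lit 0x733f0fb0e) (nat_lit 1286716228),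
  Rx.mk (nat_lit 315) (nat_lit 3) (nat_lit 7) (nat_lit 4) (nat_lit 3) (nat_lit 10) (nat_lit 141) r11_10 r5_141 (nat_lit 0) (nat_lit 0) (nat_lit 1188030) (nat_lit 0x853c4c630) (nat_lit 990345654),
  Rx.mk (nat_lit 419) (nat_lit 3) (nat_lit 4) (nat_lit 6) (nat_lit 5) (nat_lit 11) (nat_lit 146) r11_11 r5_146 (nat_lit 0) (nat_lit 1759938) (nat_lit 0) (nat_lit 0x802382334) (nat_lit 1073384662),
  Rx.mk (nat_lit 435) (nat_lit 3) (nat_lit 6) (nat_lit 6) (nat_lit 7) (nat_lit 12) (nat_lit 149) r11_12 r5_149 (nat_lit 0) (nat_lit 0) (nat_lit 0) (nat_lit 0x801ffa1a8) (nat_lit 1071862024),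
  Rx.mk (nat_lit 439) (nat_lit 7) (nat_lit 6) (nat_lit 6) (nat_lit 7) (nat_lit 13) (nat_lit 148) r11_13 r5_148 (nat_lit 0) (nat_lit 0) (nat_lit 0) (nat_lit 0x8093c6438) (nat_lit 1064504724),
  Rx.mk (nat_lit 443) (nat_lit 3) (nat_lit 7) (nat_lit 6) (nat_lit 7) (nat_lit 14) (nat_lit 147) r11_14 r5_147 (nat_lit 0) (nat_lit 0) (nat_lit 0) (nat_lit 0x8087d4972) (nat_lit 1065267524),
  Rx.mk (nat_lit 474) (nat_lit 2) (nat_lit 3) (nat_lit 7) (nat_lit 7) (nat_lit 15) (nat_lit 145) r11_15 r5_145 (nat_lit 0) (nat_lit 0) (nat_lit 0) (nat_lit 0x8c926658c) (nat_lit 870523024),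
  Rx.mk (nat_lit 504) (nat_lit 0) (nat_lit 7) (nat_lit 7) (nat_lit 6) (nat_lit 16) (nat_lit 142) r11_16 r5_142 (nat_lit 2807402) (nat_lit 0) (nat_lit 0) (nat_lit 0x7fb00afd2) (nat_lit 1081869426),
  Rx.mk (nat_lit 506) (nat_lit 2) (nat_lit 7) (nat_lit 7) (nat_lit 7) (nat_lit 17) (nat_lit 144) r11_17 r5_144 (nat_lit 0) (nat_lit 0) (nat_lit 0) (nat_lit 0x80029938e) (nat_lit 1073741824),
  Rx.mk (nat_lit 507) (nat_lit 3) (nat_lit 7) (nat_lit 7) (nat_lit 7) (nat_lit 18) (nat_lit 143) r11_18 r5_143 (nat_lit 0) (nat_lit 0) (nat_lit 0) (nat_lit 0x80029938e) (nat_lit 1073741824)]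
noncomputable def e31_31 : List Rx := [
  Rx.mk (nat_lit 6) (nat_lit 6) (nat_lit 0) (nat_lit 0) (nat_lit 1) (nat_lit 144) (nat_lit 154) r11_144 r11_154 (nat_lit 0) (nat_lit 241552) (nat_lit 197139) (nat_lit 0x77eb907c6) (nat_lit 1208937315),
  Rx.mk (nat_lit 22) (nat_lit 6) (nat_lit 2) (nat_lit 0) (nat_lit 3) (nat_lit 145) (nat_lit 155) r11_145 r11_155 (nat_lit 0) (nat_lit 0) (nat_lit 3711888) (nat_lit 0x802a4a2ac) (nat_lit 1074920912),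
  Rx.mk (nat_lit 148) (nat_lit 4) (nat_lit 2) (nat_lit 2) (nat_lit 6) (nat_lit 146) (nat_lit 161) r11_146 r11_161 (nat_lit 5449534) (nat_lit 0) (nat_lit 0) (nat_lit 0x7fcac9634) (nat_lit 1082787558),
  Rx.mk (nat_lit 150) (nat_lit 6) (nat_lit 2) (nat_lit 2) (nat_lit 7) (nat_lit 147) (nat_lit 163) r11_147 r11_163 (nat_lit 0) (nat_lit 0) (nat_lit 0) (nat_lit 0x80029938e) (nat_lit 1073741824),
  Rx.mk (nat_lit 151) (nat_lit 7) (nat_lit 2) (nat_lit 2) (nat_lit 7) (nat_lit 148) (nat_lit 162) r11_148 r11_162 (nat_lit 0) (nat_lit 0) (nat_lit 0) (nat_lit 0x80029938e) (nat_lit 1073741824),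
  Rx.mk (nat_lit 183) (nat_lit 7) (nat_lit 6) (nat_lit 2) (nat_lit 7) (nat_lit 149) (nat_lit 160) r11_149 r11_160 (nat_lit 0) (nat_lit 0) (nat_lit 0) (nat_lit 0x80342291e) (nat_lit 1070576824),
  Rx.mk (nat_lit 198) (nat_lit 6) (nat_lit 0) (nat_lit 3) (nat_lit 5) (nat_lit 150) (nat_lit 156) r11_150 r11_156 (nat_lit 0) (nat_lit 5516626) (nat_lit 0) (nat_lit 0x7ffc1e82e) (nat_lit 1079674250),
  Rx.mk (nat_lit 214) (nat_lit 6) (nat_lit 2) (nat_lit 3) (nat_lit 7) (nat_lit 151) (nat_lit 159) r11_151 r11_159 (nat_lit 0) (nat_lit 0) (nat_lit 0) (nat_lit 0x80029938e) (nat_lit 1073741824),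
  Rx.mk (nat_lit 218) (nat_lit 2) (nat_lit 3) (nat_lit 3) (nat_lit 7) (nat_lit 152) (nat_lit 158) r11_152 r11_158 (nat_lit 0) (nat_lit 0) (nat_lit 0) (nat_lit 0x85a1b9e32) (nat_lit 982752224),
  Rx.mk (nat_lit 222) (nat_lit 6) (nat_lit 3) (nat_lit 3) (nat_lit 7) (nat_lit 153) (nat_lit 157) r11_153 r11_157 (nat_lit 0) (nat_lit 0) (nat_lit 0) (nat_lit 0x7ffe2c38c) (nat_lit 1074025524),
  Rx.mk (nat_lit 291) (nat_lit 3) (nat_lit 4) (nat_lit 4) (nat_lit 1) (nat_lit 154) (nat_lit 144) r11_154 r11_144 (nat_lit 0) (nat_lit 241552) (nat_lit 197139) (nat_lit 0x77eb907c6) (nat_lit 1208937315),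
  Rx.mk (nat_lit 315) (nat_lit 3) (nat_lit 7) (nat_lit 4) (nat_lit 3) (nat_lit 155) (nat_lit 145) r11_155 r11_145 (nat_lit 0) (nat_lit 0) (nat_lit 3711888) (nat_lit 0x802a4a2ac) (nat_lit 1074920912),
  Rx.mk (nat_lit 419) (nat_lit 3) (nat_lit 4) (nat_lit 6) (nat_lit 5) (nat_lit 156) (nat_lit 150) r11_156 r11_150 (nat_lit 0) (nat_lit 5516626) (nat_lit 0) (nat_lit 0x7ffc1e82e) (nat_lit 1079674250),
  Rx.mk (nat_lit 435) (nat_lit 3) (nat_lit 6) (nat_lit 6) (nat_lit 7) (nat_lit 157) (nat_lit 153) r11_157 r11_153 (nat_lit 0) (nat_lit 0) (nat_lit 0) (nat_lit 0x7ffe2c38c) (nat_lit 1074025524),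
  Rx.mk (nat_lit 439) (nat_lit 7) (nat_lit 6) (nat_lit 6) (nat_lit 7) (nat_lit 158) (nat_lit 152) r11_158 r11_152 (nat_lit 0) (nat_lit 0) (nat_lit 0) (nat_lit 0x85a1b9e32) (nat_lit 982752224),
  Rx.mk (nat_lit 443) (nat_lit 3) (nat_lit 7) (nat_lit 6) (nat_lit 7) (nat_lit 159) (nat_lit 151) r11_159 r11_151 (nat_lit 0) (nat_lit 0) (nat_lit 0) (nat_lit 0x80029938e) (nat_lit 1073741824),
  Rx.mk (nat_lit 474) (nat_lit 2) (nat_lit 3) (nat_lit 7) (nat_lit 7) (nat_lit 160) (nat_lit 149) r11_160 r11_149 (nat_lit 0) (nat_lit 0) (nat_lit 0) (nat_lit 0x80342291e) (nat_lit 1070576824),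
  Rx.mk (nat_lit 504) (nat_lit 0) (nat_lit 7) (nat_lit 7) (nat_lit 6) (nat_lit 161) (nat_lit 146) r11_161 r11_146 (nat_lit 5449534) (nat_lit 0) (nat_lit 0) (nat_lit 0x7fcac9634) (nat_lit 1082787558),
  Rx.mk (nat_lit 506) (nat_lit 2) (nat_lit 7) (nat_lit 7) (nat_lit 7) (nat_lit 162) (nat_lit 148) r11_162 r11_148 (nat_lit 0) (nat_lit 0) (nat_lit 0) (nat_lit 0x80029938e) (nat_lit 1073741824),
  Rx.mk (nat_lit 507) (nat_lit 3) (nat_lit 7) (nat_lit 7) (nat_lit 7) (nat_lit 163) (nat_lit 147) r11_163 r11_147 (nat_lit 0) (nat_lit 0) (nat_lit 0) (nat_lit 0x80029938e) (nat_lit 1073741824)]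
noncomputable def e31_32 : List Rx := [
  Rx.mk (nat_lit 282) (nat_lit 2) (nat_lit 3) (nat_lit 4) (nat_lit 3) (nat_lit 266) (nat_lit 371) r11_266 r6_371 (nat_lit 0) (nat_lit 0) (nat_lit 670567) (nat_lit 0x815ed8932) (nat_lit 1052331991),
  Rx.mk (nat_lit 312) (nat_lit 0) (nat_lit 7) (nat_lit 4) (nat_lit 2) (nat_lit 267) (nat_lit 367) r11_267 r6_367 (nat_lit 1583871) (nat_lit 0) (nat_lit 1198594) (nat_lit 0x786c3fe62) (nat_lit 1202933889),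
  Rx.mk (nat_lit 314) (nat_lit 2) (nat_lit 7) (nat_lit 4) (nat_lit 3) (nat_lit 268) (nat_lit 370) r11_268 r6_370 (nat_lit 0) (nat_lit 0) (nat_lit 2725786) (nat_lit 0x80237ab70) (nat_lit 1074362110),
  Rx.mk (nat_lit 346) (nat_lit 2) (nat_lit 3) (nat_lit 5) (nat_lit 7) (nat_lit 269) (nat_lit 373) r11_269 r6_373 (nat_lit 0) (nat_lit 0) (nat_lit 0) (nat_lit 0xa8336d212) (nat_lit 423737724),
  Rx.mk (nat_lit 376) (nat_lit 0) (nat_lit 7) (nat_lit 5) (nat_lit 6) (nat_lit 270) (nat_lit 368) r11_270 r6_368 (nat_lit 3783142) (nat_lit 0) (nat_lit 0) (nat_lit 0x8026e504e) (nat_lit 1075205966),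
  Rx.mk (nat_lit 378) (nat_lit 2) (nat_lit 7) (nat_lit 5) (nat_lit 7) (nat_lit 271) (nat_lit 372) r11_271 r6_372 (nat_lit 0) (nat_lit 0) (nat_lit 0) (nat_lit 0x80029938e) (nat_lit 1073741824),
  Rx.mk (nat_lit 440) (nat_lit 0) (nat_lit 7) (nat_lit 6) (nat_lit 6) (nat_lit 272) (nat_lit 369) r11_272 r6_369 (nat_lit 4589682) (nat_lit 0) (nat_lit 0) (nat_lit 0x80102e396) (nat_lit 1077461506)]
noncomputable def e31_33 : List Rx := [
  Rx.mk (nat_lit 346) (nat_lit 2) (nat_lit 3) (nat_lit 5) (nat_lit 7) (nat_lit 356) (nat_lit 310) r11_356 r5_310 (nat_lit 0) (nat_lit 0) (nat_lit 0) (nat_lit 0x962b5e434) (nat_lit 715321324)]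
noncomputable def e31_34 : List Rx := [
  Rx.mk (nat_lit 90) (nat_lit 2) (nat_lit 3) (nat_lit 1) (nat_lit 7) (nat_lit 364) (nat_lit 364) r11_364 r11_364 (nat_lit 0) (nat_lit 0) (nat_lit 0) (nat_lit 0x8017b333c) (nat_lit 1072390724),
  Rx.mk (nat_lit 346) (nat_lit 2) (nat_lit 3) (nat_lit 5) (nat_lit 7) (nat_lit 365) (nat_lit 365) r11_365 r11_365 (nat_lit 0) (nat_lit 0) (nat_lit 0) (nat_lit 0x804399b86) (nat_lit 1069591024)]
noncomputable def e31_35 : List Rx := [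
  Rx.mk (nat_lit 291) (nat_lit 3) (nat_lit 4) (nat_lit 4) (nat_lit 1) (nat_lit 53) (nat_lit 224) r11_53 r6_224 (nat_lit 0) (nat_lit 2307781) (nat_lit 1282205) (nat_lit 0x7934fd052) (nat_lit 1190670010),
  Rx.mk (nat_lit 312) (nat_lit 0) (nat_lit 7) (nat_lit 4) (nat_lit 2) (nat_lit 54) (nat_lit 227) r11_54 r6_227 (nat_lit 1407149) (nat_lit 0) (nat_lit 1343161) (nat_lit 0x737e36fbc) (nat_lit 1285096534),
  Rx.mk (nat_lit 314) (nat_lit 2) (nat_lit 7) (nat_lit 4) (nat_lit 3) (nat_lit 55) (nat_lit 229) r11_55 r6_229 (nat_lit 0) (nat_lit 0) (nat_lit 2747444) (nat_lit 0x803990784) (nat_lit 1072977968),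
  Rx.mk (nat_lit 315) (nat_lit 3) (nat_lit 7) (nat_lit 4) (nat_lit 3) (nat_lit 56) (nat_lit 228) r11_56 r6_228 (nat_lit 0) (nat_lit 0) (nat_lit 1786259) (nat_lit 0x808a883f8) (nat_lit 1066877983),
  Rx.mk (nat_lit 355) (nat_lit 3) (nat_lit 4) (nat_lit 5) (nat_lit 5) (nat_lit 57) (nat_lit 225) r11_57 r6_225 (nat_lit 0) (nat_lit 5449534) (nat_lit 0) (nat_lit 0x80029938e) (nat_lit 1079191358),
  Rx.mk (nat_lit 376) (nat_lit 0) (nat_lit 7) (nat_lit 5) (nat_lit 6) (nat_lit 58) (nat_lit 230) r11_58 r6_230 (nat_lit 4262738) (nat_lit 0) (nat_lit 0) (nat_lit 0x801570c46) (nat_lit 1076797662),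
  Rx.mk (nat_lit 378) (nat_lit 2) (nat_lit 7) (nat_lit 5) (nat_lit 7) (nat_lit 59) (nat_lit 232) r11_59 r6_232 (nat_lit 0) (nat_lit 0) (nat_lit 0) (nat_lit 0x80029938e) (nat_lit 1073741824),
  Rx.mk (nat_lit 379) (nat_lit 3) (nat_lit 7) (nat_lit 5) (nat_lit 7) (nat_lit 60) (nat_lit 231) r11_60 r6_231 (nat_lit 0) (nat_lit 0) (nat_lit 0) (nat_lit 0x80159ec7c) (nat_lit 1072523724),
  Rx.mk (nat_lit 419) (nat_lit 3) (nat_lit 4) (nat_lit 6) (nat_lit 5) (nat_lit 61) (nat_lit 226) r11_61 r6_226 (nat_lit 0) (nat_lit 3994773) (nat_lit 0) (nat_lit 0x801c09594) (nat_lit 1076108397),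
  Rx.mk (nat_lit 435) (nat_lit 3) (nat_lit 6) (nat_lit 6) (nat_lit 7) (nat_lit 62) (nat_lit 237) r11_62 r6_237 (nat_lit 0) (nat_lit 0) (nat_lit 0) (nat_lit 0x800b91806) (nat_lit 1073166724),
  Rx.mk (nat_lit 440) (nat_lit 0) (nat_lit 7) (nat_lit 6) (nat_lit 6) (nat_lit 63) (nat_lit 235) r11_63 r6_235 (nat_lit 3738478) (nat_lit 0) (nat_lit 0) (nat_lit 0x8024ee42a) (nat_lit 1075285302),
  Rx.mk (nat_lit 443) (nat_lit 3) (nat_lit 7) (nat_lit 6) (nat_lit 7) (nat_lit 64) (nat_lit 236) r11_64 r6_236 (nat_lit 0) (nat_lit 0) (nat_lit 0) (nat_lit 0x80159ec7c) (nat_lit 1072523724),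
  Rx.mk (nat_lit 474) (nat_lit 2) (nat_lit 3) (nat_lit 7) (nat_lit 7) (nat_lit 65) (nat_lit 223) r11_65 r6_223 (nat_lit 0) (nat_lit 0) (nat_lit 0) (nat_lit 0x95ec9a496) (nat_lit 719290124),
  Rx.mk (nat_lit 504) (nat_lit 0) (nat_lit 7) (nat_lit 7) (nat_lit 6) (nat_lit 66) (nat_lit 233) r11_66 r6_233 (nat_lit 3928738) (nat_lit 0) (nat_lit 0) (nat_lit 0x80106e662) (nat_lit 1076782462),
  Rx.mk (nat_lit 506) (nat_lit 2) (nat_lit 7) (nat_lit 7) (nat_lit 7) (nat_lit 67) (nat_lit 234) r11_67 r6_234 (nat_lit 0) (nat_lit 0) (nat_lit 0) (nat_lit 0x801118d6a) (nat_lit 1072812524)]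
noncomputable def e31_36 : List Rx := [
  Rx.mk (nat_lit 282) (nat_lit 2) (nat_lit 3) (nat_lit 4) (nat_lit 3) (nat_lit 287) (nat_lit 253) r11_287 r12_253 (nat_lit 0) (nat_lit 0) (nat_lit 264456) (nat_lit 0x893fc6a14) (nat_lit 924489980),
  Rx.mk (nat_lit 312) (nat_lit 0) (nat_lit 7) (nat_lit 4) (nat_lit 2) (nat_lit 288) (nat_lit 247) r11_288 r12_247 (nat_lit 667034) (nat_lit 0) (nat_lit 654576) (nat_lit 0x7581a5c14) (nat_lit 1250087734),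
  Rx.mk (nat_lit 314) (nat_lit 2) (nat_lit 7) (nat_lit 4) (nat_lit 3) (nat_lit 289) (nat_lit 256) r11_289 r12_256 (nat_lit 0) (nat_lit 0) (nat_lit 2043450) (nat_lit 0x808aabb28) (nat_lit 1067127174),
  Rx.mk (nat_lit 315) (nat_lit 3) (nat_lit 7) (nat_lit 4) (nat_lit 3) (nat_lit 290) (nat_lit 250) r11_290 r12_250 (nat_lit 0) (nat_lit 0) (nat_lit 1252562) (nat_lit 0x8181ac3aa) (nat_lit 1050719286),
  Rx.mk (nat_lit 346) (nat_lit 2) (nat_lit 3) (nat_lit 5) (nat_lit 7) (nat_lit 291) (nat_lit 254) r11_291 r12_254 (nat_lit 0) (nat_lit 0) (nat_lit 0) (nat_lit 0xa72f83a76) (nat_lit 440151724),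
  Rx.mk (nat_lit 376) (nat_lit 0) (nat_lit 7) (nat_lit 5) (nat_lit 6) (nat_lit 292) (nat_lit 248) r11_292 r12_248 (nat_lit 3008720) (nat_lit 0) (nat_lit 0) (nat_lit 0x801ff6e9a) (nat_lit 1074868444),
  Rx.mk (nat_lit 378) (nat_lit 2) (nat_lit 7) (nat_lit 5) (nat_lit 7) (nat_lit 293) (nat_lit 257) r11_293 r12_257 (nat_lit 0) (nat_lit 0) (nat_lit 0) (nat_lit 0x800bd3882) (nat_lit 1073150124),
  Rx.mk (nat_lit 379) (nat_lit 3) (nat_lit 7) (nat_lit 5) (nat_lit 7) (nat_lit 294) (nat_lit 251) r11_294 r12_251 (nat_lit 0) (nat_lit 0) (nat_lit 0) (nat_lit 0x801ddd582) (nat_lit 1071996524),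
  Rx.mk (nat_lit 440) (nat_lit 0) (nat_lit 7) (nat_lit 6) (nat_lit 6) (nat_lit 295) (nat_lit 249) r11_295 r12_249 (nat_lit 3490265) (nat_lit 0) (nat_lit 0) (nat_lit 0x802c425e6) (nat_lit 1074569689),
  Rx.mk (nat_lit 443) (nat_lit 3) (nat_lit 7) (nat_lit 6) (nat_lit 7) (nat_lit 296) (nat_lit 252) r11_296 r12_252 (nat_lit 0) (nat_lit 0) (nat_lit 0) (nat_lit 0x802e32856) (nat_lit 1070956024),
  Rx.mk (nat_lit 474) (nat_lit 2) (nat_lit 3) (nat_lit 7) (nat_lit 7) (nat_lit 297) (nat_lit 255) r11_297 r12_255 (nat_lit 0) (nat_lit 0) (nat_lit 0) (nat_lit 0x99df62cde) (nat_lit 655430324)]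
noncomputable def e31_37 : List Rx := [
  Rx.mk (nat_lit 288) (nat_lit 0) (nat_lit 4) (nat_lit 4) (nat_lit 0) (nat_lit 165) (nat_lit 342) r11_165 r0_342 (nat_lit 3852129) (nat_lit 10268755) (nat_lit 18458944) (nat_lit 0x51ec2bbde) (nat_lit 1874651452),
  Rx.mk (nat_lit 289) (nat_lit 1) (nat_lit 4) (nat_lit 4) (nat_lit 1) (nat_lit 166) (nat_lit 349) r11_166 r0_349 (nat_lit 0) (nat_lit 5119836) (nat_lit 249448811) (nat_lit 0x7cd98d3b2) (nat_lit 1380926471),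
  Rx.mk (nat_lit 290) (nat_lit 2) (nat_lit 4) (nat_lit 4) (nat_lit 1) (nat_lit 167) (nat_lit 356) r11_167 r0_356 (nat_lit 0) (nat_lit 9822470) (nat_lit 9822470) (nat_lit 0x7f9211c88) (nat_lit 1100657964),
  Rx.mk (nat_lit 296) (nat_lit 0) (nat_lit 5) (nat_lit 4) (nat_lit 2) (nat_lit 168) (nat_lit 343) r11_168 r0_343 (nat_lit 194126458) (nat_lit 0) (nat_lit 7934940) (nat_lit 0x7dfec5c32) (nat_lit 1309321022),
  Rx.mk (nat_lit 297) (nat_lit 1) (nat_lit 5) (nat_lit 4) (nat_lit 3) (nat_lit 169) (nat_lit 350) r11_169 r0_350 (nat_lit 0) (nat_lit 0) (nat_lit 5782474) (nat_lit 0x7ffaf2f18) (nat_lit 1080015398),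
  Rx.mk (nat_lit 298) (nat_lit 2) (nat_lit 5) (nat_lit 4) (nat_lit 3) (nat_lit 170) (nat_lit 357) r11_170 r0_357 (nat_lit 0) (nat_lit 0) (nat_lit 3096735) (nat_lit 0x80342c6c6) (nat_lit 1073669459),
  Rx.mk (nat_lit 352) (nat_lit 0) (nat_lit 4) (nat_lit 5) (nat_lit 4) (nat_lit 171) (nat_lit 344) r11_171 r0_344 (nat_lit 118564749) (nat_lit 7896501) (nat_lit 0) (nat_lit 0x78f0aaa94) (nat_lit 1317996874),
  Rx.mk (nat_lit 353) (nat_lit 1) (nat_lit 4) (nat_lit 5) (nat_lit 5) (nat_lit 172) (nat_lit 351) r11_172 r0_351 (nat_lit 0) (nat_lit 5449534) (nat_lit 0) (nat_lit 0x80029938e) (nat_lit 1079191358),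
  Rx.mk (nat_lit 354) (nat_lit 2) (nat_lit 4) (nat_lit 5) (nat_lit 5) (nat_lit 173) (nat_lit 358) r11_173 r0_358 (nat_lit 0) (nat_lit 4288788) (nat_lit 0) (nat_lit 0x801061ba6) (nat_lit 1077145012),
  Rx.mk (nat_lit 360) (nat_lit 0) (nat_lit 5) (nat_lit 5) (nat_lit 6) (nat_lit 174) (nat_lit 345) r11_174 r0_345 (nat_lit 172668765) (nat_lit 0) (nat_lit 0) (nat_lit 0x7f52725c8) (nat_lit 1257804589),
  Rx.mk (nat_lit 361) (nat_lit 1) (nat_lit 5) (nat_lit 5) (nat_lit 7) (nat_lit 175) (nat_lit 352) r11_175 r0_352 (nat_lit 0) (nat_lit 0) (nat_lit 0) (nat_lit 0x800c523a8) (nat_lit 1073118624),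
  Rx.mk (nat_lit 362) (nat_lit 2) (nat_lit 5) (nat_lit 5) (nat_lit 7) (nat_lit 176) (nat_lit 359) r11_176 r0_359 (nat_lit 0) (nat_lit 0) (nat_lit 0) (nat_lit 0x80b7bae20) (nat_lit 1062234024),
  Rx.mk (nat_lit 416) (nat_lit 0) (nat_lit 4) (nat_lit 6) (nat_lit 4) (nat_lit 177) (nat_lit 346) r11_177 r0_346 (nat_lit 7452897) (nat_lit 8056051) (nat_lit 0) (nat_lit 0x7322e451a) (nat_lit 1303815772),
  Rx.mk (nat_lit 417) (nat_lit 1) (nat_lit 4) (nat_lit 6) (nat_lit 5) (nat_lit 178) (nat_lit 353) r11_178 r0_353 (nat_lit 0) (nat_lit 4354585) (nat_lit 0) (nat_lit 0x800b09e74) (nat_lit 1077554409),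
  Rx.mk (nat_lit 424) (nat_lit 0) (nat_lit 5) (nat_lit 6) (nat_lit 6) (nat_lit 179) (nat_lit 347) r11_179 r0_347 (nat_lit 5449534) (nat_lit 0) (nat_lit 0) (nat_lit 0x8024d3526) (nat_lit 1077000758),
  Rx.mk (nat_lit 425) (nat_lit 1) (nat_lit 5) (nat_lit 6) (nat_lit 7) (nat_lit 180) (nat_lit 354) r11_180 r0_354 (nat_lit 0) (nat_lit 0) (nat_lit 0) (nat_lit 0x80029938e) (nat_lit 1073741824),
  Rx.mk (nat_lit 432) (nat_lit 0) (nat_lit 6) (nat_lit 6) (nat_lit 6) (nat_lit 181) (nat_lit 348) r11_181 r0_348 (nat_lit 5449534) (nat_lit 0) (nat_lit 0) (nat_lit 0x7fd37cdd0) (nat_lit 1082223658),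
  Rx.mk (nat_lit 433) (nat_lit 1) (nat_lit 6) (nat_lit 6) (nat_lit 7) (nat_lit 182) (nat_lit 355) r11_182 r0_355 (nat_lit 0) (nat_lit 0) (nat_lit 0) (nat_lit 0x800d18918) (nat_lit 1073068624)]
noncomputable def e31_38 : List Rx := [
  Rx.mk (nat_lit 289) (nat_lit 1) (nat_lit 4) (nat_lit 4) (nat_lit 1) (nat_lit 37) (nat_lit 200) r11_37 r0_200 (nat_lit 0) (nat_lit 314732184) (nat_lit 9426144) (nat_lit 0x70c471818) (nat_lit 1651954452),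
  Rx.mk (nat_lit 353) (nat_lit 1) (nat_lit 4) (nat_lit 5) (nat_lit 5) (nat_lit 38) (nat_lit 201) r11_38 r0_201 (nat_lit 0) (nat_lit 5592935) (nat_lit 0) (nat_lit 0x802afe752) (nat_lit 1076749759),
  Rx.mk (nat_lit 417) (nat_lit 1) (nat_lit 4) (nat_lit 6) (nat_lit 5) (nat_lit 39) (nat_lit 202) r11_39 r0_202 (nat_lit 0) (nat_lit 104895094) (nat_lit 0) (nat_lit 0x801d36fca) (nat_lit 1176912118),
  Rx.mk (nat_lit 433) (nat_lit 1) (nat_lit 6) (nat_lit 6) (nat_lit 7) (nat_lit 40) (nat_lit 203) r11_40 r0_203 (nat_lit 0) (nat_lit 0) (nat_lit 0) (nat_lit 0x813820826) (nat_lit 1054113624)]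
noncomputable def e31_39 : List Rx := [
  Rx.mk (nat_lit 289) (nat_lit 1) (nat_lit 4) (nat_lit 4) (nat_lit 1) (nat_lit 212) (nat_lit 449) r11_212 r7_449 (nat_lit 0) (nat_lit 27051137) (nat_lit 140034131) (nat_lit 0x7b544a5ac) (nat_lit 1318788992),
  Rx.mk (nat_lit 297) (nat_lit 1) (nat_lit 5) (nat_lit 4) (nat_lit 3) (nat_lit 213) (nat_lit 450) r11_213 r7_450 (nat_lit 0) (nat_lit 0) (nat_lit 5449534) (nat_lit 0x80029938e) (nat_lit 1079191358),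
  Rx.mk (nat_lit 353) (nat_lit 1) (nat_lit 4) (nat_lit 5) (nat_lit 5) (nat_lit 214) (nat_lit 451) r11_214 r7_451 (nat_lit 0) (nat_lit 5449534) (nat_lit 0) (nat_lit 0x80029938e) (nat_lit 1079191358),
  Rx.mk (nat_lit 361) (nat_lit 1) (nat_lit 5) (nat_lit 5) (nat_lit 7) (nat_lit 215) (nat_lit 452) r11_215 r7_452 (nat_lit 0) (nat_lit 0) (nat_lit 0) (nat_lit 0x80029938e) (nat_lit 1073741824),
  Rx.mk (nat_lit 417) (nat_lit 1) (nat_lit 4) (nat_lit 6) (nat_lit 5) (nat_lit 216) (nat_lit 453) r11_216 r7_453 (nat_lit 0) (nat_lit 5449534) (nat_lit 0) (nat_lit 0x80029938e) (nat_lit 1079191358),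
  Rx.mk (nat_lit 425) (nat_lit 1) (nat_lit 5) (nat_lit 6) (nat_lit 7) (nat_lit 217) (nat_lit 454) r11_217 r7_454 (nat_lit 0) (nat_lit 0) (nat_lit 0) (nat_lit 0x80029938e) (nat_lit 1073741824),
  Rx.mk (nat_lit 433) (nat_lit 1) (nat_lit 6) (nat_lit 6) (nat_lit 7) (nat_lit 218) (nat_lit 455) r11_218 r7_455 (nat_lit 0) (nat_lit 0) (nat_lit 0) (nat_lit 0x80029938e) (nat_lit 1073741824)]
noncomputable def e31_40 : List Rx := [
  Rx.mk (nat_lit 437) (nat_lit 5) (nat_lit 6) (nat_lit 6) (nat_lit 7) (nat_lit 5) (nat_lit 237) r11_5 r2_237 (nat_lit 0) (nat_lit 0) (nat_lit 0) (nat_lit 0x80029938e) (nat_lit 1073741824)]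
noncomputable def e31_41 : List Rx := [
  Rx.mk (nat_lit 437) (nat_lit 5) (nat_lit 6) (nat_lit 6) (nat_lit 7) (nat_lit 164) (nat_lit 214) r11_164 r9_214 (nat_lit 0) (nat_lit 0) (nat_lit 0) (nat_lit 0x80029938e) (nat_lit 1073741824)]
noncomputable def e31_42 : List Rx := [
  Rx.mk (nat_lit 181) (nat_lit 5) (nat_lit 6) (nat_lit 2) (nat_lit 7) (nat_lit 123) (nat_lit 147) r11_123 r9_147 (nat_lit 0) (nat_lit 0) (nat_lit 0) (nat_lit 0x80029938e) (nat_lit 1073741824),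
  Rx.mk (nat_lit 437) (nat_lit 5) (nat_lit 6) (nat_lit 6) (nat_lit 7) (nat_lit 124) (nat_lit 146) r11_124 r9_146 (nat_lit 0) (nat_lit 0) (nat_lit 0) (nat_lit 0x80029938e) (nat_lit 1073741824)]
noncomputable def e31_43 : List Rx := [
  Rx.mk (nat_lit 289) (nat_lit 1) (nat_lit 4) (nat_lit 4) (nat_lit 1) (nat_lit 41) (nat_lit 220) r11_41 r1_220 (nat_lit 0) (nat_lit 142725965) (nat_lit 167522575) (nat_lit 0x71fbb1be2) (nat_lit 1617776664),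
  Rx.mk (nat_lit 353) (nat_lit 1) (nat_lit 4) (nat_lit 5) (nat_lit 5) (nat_lit 42) (nat_lit 221) r11_42 r1_221 (nat_lit 0) (nat_lit 5449534) (nat_lit 0) (nat_lit 0x80131b900) (nat_lit 1078133458),
  Rx.mk (nat_lit 417) (nat_lit 1) (nat_lit 4) (nat_lit 6) (nat_lit 5) (nat_lit 43) (nat_lit 222) r11_43 r1_222 (nat_lit 0) (nat_lit 6392805) (nat_lit 0) (nat_lit 0x807f8d502) (nat_lit 1072177929),
  Rx.mk (nat_lit 433) (nat_lit 1) (nat_lit 6) (nat_lit 6) (nat_lit 7) (nat_lit 44) (nat_lit 223) r11_44 r1_223 (nat_lit 0) (nat_lit 0) (nat_lit 0) (nat_lit 0x806ebd592) (nat_lit 1066852524),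
  Rx.mk (nat_lit 437) (nat_lit 5) (nat_lit 6) (nat_lit 6) (nat_lit 7) (nat_lit 45) (nat_lit 224) r11_45 r1_224 (nat_lit 0) (nat_lit 0) (nat_lit 0) (nat_lit 0x803f6ccf2) (nat_lit 1069856624)]
noncomputable def e31_44 : List Rx := [
  Rx.mk (nat_lit 289) (nat_lit 1) (nat_lit 4) (nat_lit 4) (nat_lit 1) (nat_lit 222) (nat_lit 368) r11_222 r8_368 (nat_lit 0) (nat_lit 21443359) (nat_lit 31594176) (nat_lit 0x791f109d8) (nat_lit 1241553659),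
  Rx.mk (nat_lit 297) (nat_lit 1) (nat_lit 5) (nat_lit 4) (nat_lit 3) (nat_lit 223) (nat_lit 369) r11_223 r8_369 (nat_lit 0) (nat_lit 0) (nat_lit 5449534) (nat_lit 0x80029938e) (nat_lit 1079191358),
  Rx.mk (nat_lit 353) (nat_lit 1) (nat_lit 4) (nat_lit 5) (nat_lit 5) (nat_lit 224) (nat_lit 370) r11_224 r8_370 (nat_lit 0) (nat_lit 5449534) (nat_lit 0) (nat_lit 0x80029938e) (nat_lit 1079191358),
  Rx.mk (nat_lit 361) (nat_lit 1) (nat_lit 5) (nat_lit 5) (nat_lit 7) (nat_lit 225) (nat_lit 371) r11_225 r8_371 (nat_lit 0) (nat_lit 0) (nat_lit 0) (nat_lit 0x80029938e) (nat_lit 1073741824),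
  Rx.mk (nat_lit 417) (nat_lit 1) (nat_lit 4) (nat_lit 6) (nat_lit 5) (nat_lit 226) (nat_lit 372) r11_226 r8_372 (nat_lit 0) (nat_lit 5449534) (nat_lit 0) (nat_lit 0x80029938e) (nat_lit 1079191358),
  Rx.mk (nat_lit 425) (nat_lit 1) (nat_lit 5) (nat_lit 6) (nat_lit 7) (nat_lit 227) (nat_lit 373) r11_227 r8_373 (nat_lit 0) (nat_lit 0) (nat_lit 0) (nat_lit 0x80029938e) (nat_lit 1073741824),
  Rx.mk (nat_lit 433) (nat_lit 1) (nat_lit 6) (nat_lit 6) (nat_lit 7) (nat_lit 228) (nat_lit 374) r11_228 r8_374 (nat_lit 0) (nat_lit 0) (nat_lit 0) (nat_lit 0x80029938e) (nat_lit 1073741824),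
  Rx.mk (nat_lit 437) (nat_lit 5) (nat_lit 6) (nat_lit 6) (nat_lit 7) (nat_lit 229) (nat_lit 367) r11_229 r8_367 (nat_lit 0) (nat_lit 0) (nat_lit 0) (nat_lit 0x80029938e) (nat_lit 1073741824)]
noncomputable def e31_45 : List Rx := [
  Rx.mk (nat_lit 296) (nat_lit 0) (nat_lit 5) (nat_lit 4) (nat_lit 2) (nat_lit 183) (nat_lit 316) r11_183 r1_316 (nat_lit 234072587) (nat_lit 0) (nat_lit 8821660) (nat_lit 0x7aeb624b8) (nat_lit 1401431171),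
  Rx.mk (nat_lit 297) (nat_lit 1) (nat_lit 5) (nat_lit 4) (nat_lit 3) (nat_lit 184) (nat_lit 319) r11_184 r1_319 (nat_lit 0) (nat_lit 0) (nat_lit 5449534) (nat_lit 0x80029938e) (nat_lit 1079191358),
  Rx.mk (nat_lit 298) (nat_lit 2) (nat_lit 5) (nat_lit 4) (nat_lit 3) (nat_lit 185) (nat_lit 322) r11_185 r1_322 (nat_lit 0) (nat_lit 0) (nat_lit 5364616) (nat_lit 0x7ffcc177c) (nat_lit 1079481040),
  Rx.mk (nat_lit 360) (nat_lit 0) (nat_lit 5) (nat_lit 5) (nat_lit 6) (nat_lit 186) (nat_lit 317) r11_186 r1_317 (nat_lit 10371928) (nat_lit 0) (nat_lit 0) (nat_lit 0x7fad0bc00) (nat_lit 1089630552),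
  Rx.mk (nat_lit 361) (nat_lit 1) (nat_lit 5) (nat_lit 5) (nat_lit 7) (nat_lit 187) (nat_lit 320) r11_187 r1_320 (nat_lit 0) (nat_lit 0) (nat_lit 0) (nat_lit 0x80029938e) (nat_lit 1073741824),
  Rx.mk (nat_lit 362) (nat_lit 2) (nat_lit 5) (nat_lit 5) (nat_lit 7) (nat_lit 188) (nat_lit 323) r11_188 r1_323 (nat_lit 0) (nat_lit 0) (nat_lit 0) (nat_lit 0x807a04fb8) (nat_lit 1066138524),
  Rx.mk (nat_lit 424) (nat_lit 0) (nat_lit 5) (nat_lit 6) (nat_lit 6) (nat_lit 189) (nat_lit 318) r11_189 r1_318 (nat_lit 5657793) (nat_lit 0) (nat_lit 0) (nat_lit 0x7fff429ec) (nat_lit 1079613617),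
  Rx.mk (nat_lit 425) (nat_lit 1) (nat_lit 5) (nat_lit 6) (nat_lit 7) (nat_lit 190) (nat_lit 321) r11_190 r1_321 (nat_lit 0) (nat_lit 0) (nat_lit 0) (nat_lit 0x80029938e) (nat_lit 1073741824)]
noncomputable def e31_46 : List Rx := [
  Rx.mk (nat_lit 330) (nat_lit 2) (nat_lit 1) (nat_lit 5) (nat_lit 7) (nat_lit 339) (nat_lit 373) r11_339 r2_373 (nat_lit 0) (nat_lit 0) (nat_lit 0) (nat_lit 0x80029938e) (nat_lit 1073741824),
  Rx.mk (nat_lit 360) (nat_lit 0) (nat_lit 5) (nat_lit 5) (nat_lit 6) (nat_lit 340) (nat_lit 370) r11_340 r2_370 (nat_lit 6662062) (nat_lit 0) (nat_lit 0) (nat_lit 0x7fca8b1a4) (nat_lit 1084015286),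
  Rx.mk (nat_lit 361) (nat_lit 1) (nat_lit 5) (nat_lit 5) (nat_lit 7) (nat_lit 341) (nat_lit 371) r11_341 r2_371 (nat_lit 0) (nat_lit 0) (nat_lit 0) (nat_lit 0x80029938e) (nat_lit 1073741824),
  Rx.mk (nat_lit 362) (nat_lit 2) (nat_lit 5) (nat_lit 5) (nat_lit 7) (nat_lit 342) (nat_lit 372) r11_342 r2_372 (nat_lit 0) (nat_lit 0) (nat_lit 0) (nat_lit 0x80029938e) (nat_lit 1073741824)]
noncomputable def e31_47 : List Rx := [
  Rx.mk (nat_lit 297) (nat_lit 1) (nat_lit 5) (nat_lit 4) (nat_lit 3) (nat_lit 219) (nat_lit 198) r11_219 r8_198 (nat_lit 0) (nat_lit 0) (nat_lit 5449534) (nat_lit 0x80029938e) (nat_lit 1079191358),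
  Rx.mk (nat_lit 361) (nat_lit 1) (nat_lit 5) (nat_lit 5) (nat_lit 7) (nat_lit 220) (nat_lit 199) r11_220 r8_199 (nat_lit 0) (nat_lit 0) (nat_lit 0) (nat_lit 0x80029938e) (nat_lit 1073741824),
  Rx.mk (nat_lit 425) (nat_lit 1) (nat_lit 5) (nat_lit 6) (nat_lit 7) (nat_lit 221) (nat_lit 200) r11_221 r8_200 (nat_lit 0) (nat_lit 0) (nat_lit 0) (nat_lit 0x80029938e) (nat_lit 1073741824)]
noncomputable def e31_48 : List Rx := [
  Rx.mk (nat_lit 361) (nat_lit 1) (nat_lit 5) (nat_lit 5) (nat_lit 7) (nat_lit 350) (nat_lit 327) r11_350 r9_327 (nat_lit 0) (nat_lit 0) (nat_lit 0) (nat_lit 0x80029938e) (nat_lit 1073741824)]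
noncomputable def e31_49 : List Rx := [
  Rx.mk (nat_lit 74) (nat_lit 2) (nat_lit 1) (nat_lit 1) (nat_lit 7) (nat_lit 345) (nat_lit 319) r11_345 r9_319 (nat_lit 0) (nat_lit 0) (nat_lit 0) (nat_lit 0x80029938e) (nat_lit 1073741824),
  Rx.mk (nat_lit 330) (nat_lit 2) (nat_lit 1) (nat_lit 5) (nat_lit 7) (nat_lit 346) (nat_lit 322) r11_346 r9_322 (nat_lit 0) (nat_lit 0) (nat_lit 0) (nat_lit 0x80029938e) (nat_lit 1073741824),
  Rx.mk (nat_lit 360) (nat_lit 0) (nat_lit 5) (nat_lit 5) (nat_lit 6) (nat_lit 347) (nat_lit 320) r11_347 r9_320 (nat_lit 5449534) (nat_lit 0) (nat_lit 0) (nat_lit 0x7ffd1a084) (nat_lit 1079543858),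
  Rx.mk (nat_lit 361) (nat_lit 1) (nat_lit 5) (nat_lit 5) (nat_lit 7) (nat_lit 348) (nat_lit 321) r11_348 r9_321 (nat_lit 0) (nat_lit 0) (nat_lit 0) (nat_lit 0x80029938e) (nat_lit 1073741824),
  Rx.mk (nat_lit 362) (nat_lit 2) (nat_lit 5) (nat_lit 5) (nat_lit 7) (nat_lit 349) (nat_lit 323) r11_349 r9_323 (nat_lit 0) (nat_lit 0) (nat_lit 0) (nat_lit 0x80029938e) (nat_lit 1073741824)]
noncomputable def e31_50 : List Rx := [
  Rx.mk (nat_lit 288) (nat_lit 0) (nat_lit 4) (nat_lit 4) (nat_lit 0) (nat_lit 19) (nat_lit 342) r11_19 r3_342 (nat_lit 10953) (nat_lit 13405) (nat_lit 14728) (nat_lit 0x4ae9c72d2) (nat_lit 1958901310),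
  Rx.mk (nat_lit 289) (nat_lit 1) (nat_lit 4) (nat_lit 4) (nat_lit 1) (nat_lit 20) (nat_lit 349) r11_20 r3_349 (nat_lit 0) (nat_lit 4197450) (nat_lit 10345631) (nat_lit 0x687798d28) (nat_lit 1480729305),
  Rx.mk (nat_lit 290) (nat_lit 2) (nat_lit 4) (nat_lit 4) (nat_lit 1) (nat_lit 21) (nat_lit 356) r11_21 r3_356 (nat_lit 0) (nat_lit 30752625) (nat_lit 6307296) (nat_lit 0x70f1635ce) (nat_lit 1361931145),
  Rx.mk (nat_lit 312) (nat_lit 0) (nat_lit 7) (nat_lit 4) (nat_lit 2) (nat_lit 22) (nat_lit 343) r11_22 r3_343 (nat_lit 549568) (nat_lit 0) (nat_lit 670112) (nat_lit 0x69e9acd0a) (nat_lit 1443278804),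
  Rx.mk (nat_lit 313) (nat_lit 1) (nat_lit 7) (nat_lit 4) (nat_lit 3) (nat_lit 23) (nat_lit 350) r11_23 r3_350 (nat_lit 0) (nat_lit 0) (nat_lit 1833420) (nat_lit 0x80fbf3f4c) (nat_lit 1059750544),
  Rx.mk (nat_lit 314) (nat_lit 2) (nat_lit 7) (nat_lit 4) (nat_lit 3) (nat_lit 24) (nat_lit 357) r11_24 r3_357 (nat_lit 0) (nat_lit 0) (nat_lit 1201223) (nat_lit 0x8079a638c) (nat_lit 1067378647),
  Rx.mk (nat_lit 352) (nat_lit 0) (nat_lit 4) (nat_lit 5) (nat_lit 4) (nat_lit 25) (nat_lit 344) r11_25 r3_344 (nat_lit 2392413) (nat_lit 280142) (nat_lit 0) (nat_lit 0x66a75eea6) (nat_lit 1499043279),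
  Rx.mk (nat_lit 353) (nat_lit 1) (nat_lit 4) (nat_lit 5) (nat_lit 5) (nat_lit 26) (nat_lit 351) r11_26 r3_351 (nat_lit 0) (nat_lit 5449534) (nat_lit 0) (nat_lit 0x80029938e) (nat_lit 1079191358),
  Rx.mk (nat_lit 354) (nat_lit 2) (nat_lit 4) (nat_lit 5) (nat_lit 5) (nat_lit 27) (nat_lit 358) r11_27 r3_358 (nat_lit 0) (nat_lit 5203886) (nat_lit 0) (nat_lit 0x7ffd2d666) (nat_lit 1079291910),
  Rx.mk (nat_lit 376) (nat_lit 0) (nat_lit 7) (nat_lit 5) (nat_lit 6) (nat_lit 28) (nat_lit 345) r11_28 r3_345 (nat_lit 2769157) (nat_lit 0) (nat_lit 0) (nat_lit 0x7fe0aa2aa) (nat_lit 1078693281),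
  Rx.mk (nat_lit 377) (nat_lit 1) (nat_lit 7) (nat_lit 5) (nat_lit 7) (nat_lit 29) (nat_lit 352) r11_29 r3_352 (nat_lit 0) (nat_lit 0) (nat_lit 0) (nat_lit 0x8029b3c76) (nat_lit 1071240424),
  Rx.mk (nat_lit 378) (nat_lit 2) (nat_lit 7) (nat_lit 5) (nat_lit 7) (nat_lit 30) (nat_lit 359) r11_30 r3_359 (nat_lit 0) (nat_lit 0) (nat_lit 0) (nat_lit 0x8029b3c76) (nat_lit 1071240424),
  Rx.mk (nat_lit 416) (nat_lit 0) (nat_lit 4) (nat_lit 6) (nat_lit 4) (nat_lit 31) (nat_lit 346) r11_31 r3_346 (nat_lit 142575) (nat_lit 186023355) (nat_lit 0) (nat_lit 0x6ffd0fa54) (nat_lit 1526896154),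
  Rx.mk (nat_lit 417) (nat_lit 1) (nat_lit 4) (nat_lit 6) (nat_lit 5) (nat_lit 32) (nat_lit 353) r11_32 r3_353 (nat_lit 0) (nat_lit 5985185) (nat_lit 0) (nat_lit 0x8004716b6) (nat_lit 1079607809),
  Rx.mk (nat_lit 432) (nat_lit 0) (nat_lit 6) (nat_lit 6) (nat_lit 6) (nat_lit 33) (nat_lit 348) r11_33 r3_348 (nat_lit 5449534) (nat_lit 0) (nat_lit 0) (nat_lit 0x7edae2d3c) (nat_lit 1098382458),
  Rx.mk (nat_lit 433) (nat_lit 1) (nat_lit 6) (nat_lit 6) (nat_lit 7) (nat_lit 34) (nat_lit 355) r11_34 r3_355 (nat_lit 0) (nat_lit 0) (nat_lit 0) (nat_lit 0x80029938e) (nat_lit 1073741824),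
  Rx.mk (nat_lit 440) (nat_lit 0) (nat_lit 7) (nat_lit 6) (nat_lit 6) (nat_lit 35) (nat_lit 347) r11_35 r3_347 (nat_lit 2583324) (nat_lit 0) (nat_lit 0) (nat_lit 0x8001e2788) (nat_lit 1076364148),
  Rx.mk (nat_lit 441) (nat_lit 1) (nat_lit 7) (nat_lit 6) (nat_lit 7) (nat_lit 36) (nat_lit 354) r11_36 r3_354 (nat_lit 0) (nat_lit 0) (nat_lit 0) (nat_lit 0x8029b3c76) (nat_lit 1071240424)]
noncomputable def e31_51 : List Rx := [
  Rx.mk (nat_lit 288) (nat_lit 0) (nat_lit 4) (nat_lit 4) (nat_lit 0) (nat_lit 191) (nat_lit 381) r11_191 r4_381 (nat_lit 8641172) (nat_lit 3311660) (nat_lit 3764156) (nat_lit 0x5c93f0a86) (nat_lit 1680132412),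
  Rx.mk (nat_lit 289) (nat_lit 1) (nat_lit 4) (nat_lit 4) (nat_lit 1) (nat_lit 192) (nat_lit 390) r11_192 r4_390 (nat_lit 0) (nat_lit 4090407) (nat_lit 144474354) (nat_lit 0x7f435b8aa) (nat_lit 1234692185),
  Rx.mk (nat_lit 290) (nat_lit 2) (nat_lit 4) (nat_lit 4) (nat_lit 1) (nat_lit 193) (nat_lit 396) r11_193 r4_396 (nat_lit 0) (nat_lit 9076025) (nat_lit 9076025) (nat_lit 0x7f223ad38) (nat_lit 1106437074),
  Rx.mk (nat_lit 296) (nat_lit 0) (nat_lit 5) (nat_lit 4) (nat_lit 2) (nat_lit 194) (nat_lit 382) r11_194 r4_382 (nat_lit 6858387) (nat_lit 0) (nat_lit 4816256) (nat_lit 0x7fdca3fee) (nat_lit 1087856567),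
  Rx.mk (nat_lit 298) (nat_lit 2) (nat_lit 5) (nat_lit 4) (nat_lit 3) (nat_lit 195) (nat_lit 397) r11_195 r4_397 (nat_lit 0) (nat_lit 0) (nat_lit 5449534) (nat_lit 0x80029938e) (nat_lit 1079191358),
  Rx.mk (nat_lit 312) (nat_lit 0) (nat_lit 7) (nat_lit 4) (nat_lit 2) (nat_lit 196) (nat_lit 383) r11_196 r4_383 (nat_lit 6991617) (nat_lit 0) (nat_lit 8534027) (nat_lit 0x7ccb3567a) (nat_lit 1142817968),
  Rx.mk (nat_lit 313) (nat_lit 1) (nat_lit 7) (nat_lit 4) (nat_lit 3) (nat_lit 197) (nat_lit 391) r11_197 r4_391 (nat_lit 0) (nat_lit 0) (nat_lit 5723800) (nat_lit 0x800173b08) (nat_lit 1079538724),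
  Rx.mk (nat_lit 314) (nat_lit 2) (nat_lit 7) (nat_lit 4) (nat_lit 3) (nat_lit 198) (nat_lit 398) r11_198 r4_398 (nat_lit 0) (nat_lit 0) (nat_lit 5689996) (nat_lit 0x7ff72fb88) (nat_lit 1080165020),
  Rx.mk (nat_lit 352) (nat_lit 0) (nat_lit 4) (nat_lit 5) (nat_lit 4) (nat_lit 199) (nat_lit 384) r11_199 r4_384 (nat_lit 15577727) (nat_lit 5599296) (nat_lit 0) (nat_lit 0x7785e1fb0) (nat_lit 1236347147),
  Rx.mk (nat_lit 353) (nat_lit 1) (nat_lit 4) (nat_lit 5) (nat_lit 5) (nat_lit 200) (nat_lit 392) r11_200 r4_392 (nat_lit 0) (nat_lit 5449534) (nat_lit 0) (nat_lit 0x80029938e) (nat_lit 1079191358),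
  Rx.mk (nat_lit 354) (nat_lit 2) (nat_lit 4) (nat_lit 5) (nat_lit 5) (nat_lit 201) (nat_lit 399) r11_201 r4_399 (nat_lit 0) (nat_lit 5449534) (nat_lit 0) (nat_lit 0x80029938e) (nat_lit 1079191358),
  Rx.mk (nat_lit 360) (nat_lit 0) (nat_lit 5) (nat_lit 5) (nat_lit 6) (nat_lit 202) (nat_lit 385) r11_202 r4_385 (nat_lit 7939064) (nat_lit 0) (nat_lit 0) (nat_lit 0x7f609f326) (nat_lit 1092168788),
  Rx.mk (nat_lit 362) (nat_lit 2) (nat_lit 5) (nat_lit 5) (nat_lit 7) (nat_lit 203) (nat_lit 400) r11_203 r4_400 (nat_lit 0) (nat_lit 0) (nat_lit 0) (nat_lit 0x80029938e) (nat_lit 1073741824),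
  Rx.mk (nat_lit 376) (nat_lit 0) (nat_lit 7) (nat_lit 5) (nat_lit 6) (nat_lit 204) (nat_lit 386) r11_204 r4_386 (nat_lit 5449534) (nat_lit 0) (nat_lit 0) (nat_lit 0x80029938e) (nat_lit 1079191358),
  Rx.mk (nat_lit 377) (nat_lit 1) (nat_lit 7) (nat_lit 5) (nat_lit 7) (nat_lit 205) (nat_lit 393) r11_205 r4_393 (nat_lit 0) (nat_lit 0) (nat_lit 0) (nat_lit 0x80029938e) (nat_lit 1073741824),
  Rx.mk (nat_lit 378) (nat_lit 2) (nat_lit 7) (nat_lit 5) (nat_lit 7) (nat_lit 206) (nat_lit 401) r11_206 r4_401 (nat_lit 0) (nat_lit 0) (nat_lit 0) (nat_lit 0x80029938e) (nat_lit 1073741824),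
  Rx.mk (nat_lit 416) (nat_lit 0) (nat_lit 4) (nat_lit 6) (nat_lit 4) (nat_lit 207) (nat_lit 387) r11_207 r4_387 (nat_lit 9921122) (nat_lit 5959014) (nat_lit 0) (nat_lit 0x7875189c6) (nat_lit 1215474960),
  Rx.mk (nat_lit 417) (nat_lit 1) (nat_lit 4) (nat_lit 6) (nat_lit 5) (nat_lit 208) (nat_lit 394) r11_208 r4_394 (nat_lit 0) (nat_lit 5449534) (nat_lit 0) (nat_lit 0x7ffe77e04) (nat_lit 1079456258),
  Rx.mk (nat_lit 424) (nat_lit 0) (nat_lit 5) (nat_lit 6) (nat_lit 6) (nat_lit 209) (nat_lit 388) r11_209 r4_388 (nat_lit 5449534) (nat_lit 0) (nat_lit 0) (nat_lit 0x80029938e) (nat_lit 1079191358),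
  Rx.mk (nat_lit 432) (nat_lit 0) (nat_lit 6) (nat_lit 6) (nat_lit 6) (nat_lit 210) (nat_lit 389) r11_210 r4_389 (nat_lit 5449534) (nat_lit 0) (nat_lit 0) (nat_lit 0x80029938e) (nat_lit 1079191358),
  Rx.mk (nat_lit 433) (nat_lit 1) (nat_lit 6) (nat_lit 6) (nat_lit 7) (nat_lit 211) (nat_lit 395) r11_211 r4_395 (nat_lit 0) (nat_lit 0) (nat_lit 0) (nat_lit 0x80029938e) (nat_lit 1073741824)]
noncomputable def e31_52 : List Rx := [
  Rx.mk (nat_lit 312) (nat_lit 0) (nat_lit 7) (nat_lit 4) (nat_lit 2) (nat_lit 273) (nat_lit 316) r11_273 r5_316 (nat_lit 4395115) (nat_lit 0) (nat_lit 4471406) (nat_lit 0x7107ec890) (nat_lit 1332271445),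
  Rx.mk (nat_lit 313) (nat_lit 1) (nat_lit 7) (nat_lit 4) (nat_lit 3) (nat_lit 274) (nat_lit 319) r11_274 r5_319 (nat_lit 0) (nat_lit 0) (nat_lit 4540409) (nat_lit 0x7ffd351cc) (nat_lit 1078626533),
  Rx.mk (nat_lit 314) (nat_lit 2) (nat_lit 7) (nat_lit 4) (nat_lit 3) (nat_lit 275) (nat_lit 322) r11_275 r5_322 (nat_lit 0) (nat_lit 0) (nat_lit 4883967) (nat_lit 0x7fed9eae2) (nat_lit 1079973691),
  Rx.mk (nat_lit 376) (nat_lit 0) (nat_lit 7) (nat_lit 5) (nat_lit 6) (nat_lit 276) (nat_lit 317) r11_276 r5_317 (nat_lit 3845654) (nat_lit 0) (nat_lit 0) (nat_lit 0x8031f6d2a) (nat_lit 1074563378),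
  Rx.mk (nat_lit 377) (nat_lit 1) (nat_lit 7) (nat_lit 5) (nat_lit 7) (nat_lit 277) (nat_lit 320) r11_277 r5_320 (nat_lit 0) (nat_lit 0) (nat_lit 0) (nat_lit 0x80029938e) (nat_lit 1073741824),
  Rx.mk (nat_lit 378) (nat_lit 2) (nat_lit 7) (nat_lit 5) (nat_lit 7) (nat_lit 278) (nat_lit 323) r11_278 r5_323 (nat_lit 0) (nat_lit 0) (nat_lit 0) (nat_lit 0x80029938e) (nat_lit 1073741824),
  Rx.mk (nat_lit 440) (nat_lit 0) (nat_lit 7) (nat_lit 6) (nat_lit 6) (nat_lit 279) (nat_lit 318) r11_279 r5_318 (nat_lit 3932094) (nat_lit 0) (nat_lit 0) (nat_lit 0x801ccaf14) (nat_lit 1075997118),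
  Rx.mk (nat_lit 441) (nat_lit 1) (nat_lit 7) (nat_lit 6) (nat_lit 7) (nat_lit 280) (nat_lit 321) r11_280 r5_321 (nat_lit 0) (nat_lit 0) (nat_lit 0) (nat_lit 0x80029938e) (nat_lit 1073741824)]
noncomputable def e31_53 : List Rx := [
  Rx.mk (nat_lit 289) (nat_lit 1) (nat_lit 4) (nat_lit 4) (nat_lit 1) (nat_lit 46) (nat_lit 188) r11_46 r4_188 (nat_lit 0) (nat_lit 6612068) (nat_lit 6680725) (nat_lit 0x79a993826) (nat_lit 1192788117),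
  Rx.mk (nat_lit 313) (nat_lit 1) (nat_lit 7) (nat_lit 4) (nat_lit 3) (nat_lit 47) (nat_lit 191) r11_47 r4_191 (nat_lit 0) (nat_lit 0) (nat_lit 2822132) (nat_lit 0x80298ddc8) (nat_lit 1074069156),
  Rx.mk (nat_lit 353) (nat_lit 1) (nat_lit 4) (nat_lit 5) (nat_lit 5) (nat_lit 48) (nat_lit 189) r11_48 r4_189 (nat_lit 0) (nat_lit 5449534) (nat_lit 0) (nat_lit 0x801d47abe) (nat_lit 1077482658),
  Rx.mk (nat_lit 377) (nat_lit 1) (nat_lit 7) (nat_lit 5) (nat_lit 7) (nat_lit 49) (nat_lit 192) r11_49 r4_192 (nat_lit 0) (nat_lit 0) (nat_lit 0) (nat_lit 0x80342afb0) (nat_lit 1070573324),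
  Rx.mk (nat_lit 417) (nat_lit 1) (nat_lit 4) (nat_lit 6) (nat_lit 5) (nat_lit 50) (nat_lit 190) r11_50 r4_190 (nat_lit 0) (nat_lit 5449534) (nat_lit 0) (nat_lit 0x801061480) (nat_lit 1078306558),
  Rx.mk (nat_lit 433) (nat_lit 1) (nat_lit 6) (nat_lit 6) (nat_lit 7) (nat_lit 51) (nat_lit 194) r11_51 r4_194 (nat_lit 0) (nat_lit 0) (nat_lit 0) (nat_lit 0x80029938e) (nat_lit 1073741824),
  Rx.mk (nat_lit 441) (nat_lit 1) (nat_lit 7) (nat_lit 6) (nat_lit 7) (nat_lit 52) (nat_lit 193) r11_52 r4_193 (nat_lit 0) (nat_lit 0) (nat_lit 0) (nat_lit 0x80342afb0) (nat_lit 1070573324)]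
noncomputable def e31_54 : List Rx := [
  Rx.mk (nat_lit 289) (nat_lit 1) (nat_lit 4) (nat_lit 4) (nat_lit 1) (nat_lit 230) (nat_lit 374) r11_230 r10_374 (nat_lit 0) (nat_lit 11437609) (nat_lit 47198871) (nat_lit 0x7dbac8fc0) (nat_lit 1170319804),
  Rx.mk (nat_lit 313) (nat_lit 1) (nat_lit 7) (nat_lit 4) (nat_lit 3) (nat_lit 231) (nat_lit 375) r11_231 r10_375 (nat_lit 0) (nat_lit 0) (nat_lit 5449534) (nat_lit 0x800b95050) (nat_lit 1078615158),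
  Rx.mk (nat_lit 353) (nat_lit 1) (nat_lit 4) (nat_lit 5) (nat_lit 5) (nat_lit 232) (nat_lit 376) r11_232 r10_376 (nat_lit 0) (nat_lit 5449534) (nat_lit 0) (nat_lit 0x80029938e) (nat_lit 1079191358),
  Rx.mk (nat_lit 377) (nat_lit 1) (nat_lit 7) (nat_lit 5) (nat_lit 7) (nat_lit 233) (nat_lit 377) r11_233 r10_377 (nat_lit 0) (nat_lit 0) (nat_lit 0) (nat_lit 0x80029938e) (nat_lit 1073741824),
  Rx.mk (nat_lit 417) (nat_lit 1) (nat_lit 4) (nat_lit 6) (nat_lit 5) (nat_lit 234) (nat_lit 378) r11_234 r10_378 (nat_lit 0) (nat_lit 5449534) (nat_lit 0) (nat_lit 0x80029938e) (nat_lit 1079191358),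
  Rx.mk (nat_lit 433) (nat_lit 1) (nat_lit 6) (nat_lit 6) (nat_lit 7) (nat_lit 235) (nat_lit 379) r11_235 r10_379 (nat_lit 0) (nat_lit 0) (nat_lit 0) (nat_lit 0x80029938e) (nat_lit 1073741824)]
noncomputable def e31_55 : List Rx := [
  Rx.mk (nat_lit 313) (nat_lit 1) (nat_lit 7) (nat_lit 4) (nat_lit 3) (nat_lit 281) (nat_lit 368) r11_281 r11_368 (nat_lit 0) (nat_lit 0) (nat_lit 5649802) (nat_lit 0x7ff512e2c) (nat_lit 1080260426),
  Rx.mk (nat_lit 377) (nat_lit 1) (nat_lit 7) (nat_lit 5) (nat_lit 7) (nat_lit 282) (nat_lit 369) r11_282 r11_369 (nat_lit 0) (nat_lit 0) (nat_lit 0) (nat_lit 0x80029938e) (nat_lit 1073741824),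
  Rx.mk (nat_lit 441) (nat_lit 1) (nat_lit 7) (nat_lit 6) (nat_lit 7) (nat_lit 283) (nat_lit 370) r11_283 r11_370 (nat_lit 0) (nat_lit 0) (nat_lit 0) (nat_lit 0x80029938e) (nat_lit 1073741824)]
noncomputable def e31_56 : List Rx := [
  Rx.mk (nat_lit 288) (nat_lit 0) (nat_lit 4) (nat_lit 4) (nat_lit 0) (nat_lit 68) (nat_lit 202) r11_68 r5_202 (nat_lit 2576337) (nat_lit 21720360) (nat_lit 3094232) (nat_lit 0x4da7b05c6) (nat_lit 1940613153),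
  Rx.mk (nat_lit 289) (nat_lit 1) (nat_lit 4) (nat_lit 4) (nat_lit 1) (nat_lit 69) (nat_lit 203) r11_69 r5_203 (nat_lit 0) (nat_lit 21585030) (nat_lit 8674374) (nat_lit 0x7effacde8) (nat_lit 1120791828),
  Rx.mk (nat_lit 290) (nat_lit 2) (nat_lit 4) (nat_lit 4) (nat_lit 1) (nat_lit 70) (nat_lit 205) r11_70 r5_205 (nat_lit 0) (nat_lit 19180850) (nat_lit 8902206) (nat_lit 0x7e9bef6c0) (nat_lit 1125108480),
  Rx.mk (nat_lit 291) (nat_lit 3) (nat_lit 4) (nat_lit 4) (nat_lit 1) (nat_lit 71) (nat_lit 204) r11_71 r5_204 (nat_lit 0) (nat_lit 17049817) (nat_lit 8510956) (nat_lit 0x7ec27a33a) (nat_lit 1120075897),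
  Rx.mk (nat_lit 312) (nat_lit 0) (nat_lit 7) (nat_lit 4) (nat_lit 2) (nat_lit 72) (nat_lit 212) r11_72 r5_212 (nat_lit 2535516) (nat_lit 0) (nat_lit 4194264) (nat_lit 0x68bbaaf48) (nat_lit 1468482604),
  Rx.mk (nat_lit 313) (nat_lit 1) (nat_lit 7) (nat_lit 4) (nat_lit 3) (nat_lit 73) (nat_lit 213) r11_73 r5_213 (nat_lit 0) (nat_lit 0) (nat_lit 4046712) (nat_lit 0x801958a84) (nat_lit 1076331636),
  Rx.mk (nat_lit 314) (nat_lit 2) (nat_lit 7) (nat_lit 4) (nat_lit 3) (nat_lit 74) (nat_lit 214) r11_74 r5_214 (nat_lit 0) (nat_lit 0) (nat_lit 4369172) (nat_lit 0x7febb8bc4) (nat_lit 1079580196),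
  Rx.mk (nat_lit 352) (nat_lit 0) (nat_lit 4) (nat_lit 5) (nat_lit 4) (nat_lit 75) (nat_lit 206) r11_75 r5_206 (nat_lit 11623778) (nat_lit 14714486) (nat_lit 0) (nat_lit 0x72e87497a) (nat_lit 1318449488),
  Rx.mk (nat_lit 354) (nat_lit 2) (nat_lit 4) (nat_lit 5) (nat_lit 5) (nat_lit 76) (nat_lit 208) r11_76 r5_208 (nat_lit 0) (nat_lit 5449534) (nat_lit 0) (nat_lit 0x80029938e) (nat_lit 1079191358),
  Rx.mk (nat_lit 355) (nat_lit 3) (nat_lit 4) (nat_lit 5) (nat_lit 5) (nat_lit 77) (nat_lit 207) r11_77 r5_207 (nat_lit 0) (nat_lit 5449534) (nat_lit 0) (nat_lit 0x80029938e) (nat_lit 1079191358),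
  Rx.mk (nat_lit 376) (nat_lit 0) (nat_lit 7) (nat_lit 5) (nat_lit 6) (nat_lit 78) (nat_lit 215) r11_78 r5_215 (nat_lit 3453899) (nat_lit 0) (nat_lit 0) (nat_lit 0x8019ee37c) (nat_lit 1075699823),
  Rx.mk (nat_lit 378) (nat_lit 2) (nat_lit 7) (nat_lit 5) (nat_lit 7) (nat_lit 79) (nat_lit 216) r11_79 r5_216 (nat_lit 0) (nat_lit 0) (nat_lit 0) (nat_lit 0x800d38786) (nat_lit 1073060924),
  Rx.mk (nat_lit 416) (nat_lit 0) (nat_lit 4) (nat_lit 6) (nat_lit 4) (nat_lit 80) (nat_lit 209) r11_80 r5_209 (nat_lit 2937614) (nat_lit 66565718) (nat_lit 0) (nat_lit 0x74b9e4b76) (nat_lit 1331296056),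
  Rx.mk (nat_lit 417) (nat_lit 1) (nat_lit 4) (nat_lit 6) (nat_lit 5) (nat_lit 81) (nat_lit 210) r11_81 r5_210 (nat_lit 0) (nat_lit 5449534) (nat_lit 0) (nat_lit 0x800b9fd16) (nat_lit 1078612858),
  Rx.mk (nat_lit 419) (nat_lit 3) (nat_lit 4) (nat_lit 6) (nat_lit 5) (nat_lit 82) (nat_lit 211) r11_82 r5_211 (nat_lit 0) (nat_lit 5449534) (nat_lit 0) (nat_lit 0x800c7cac2) (nat_lit 1078557658),
  Rx.mk (nat_lit 432) (nat_lit 0) (nat_lit 6) (nat_lit 6) (nat_lit 6) (nat_lit 83) (nat_lit 222) r11_83 r5_222 (nat_lit 4726499) (nat_lit 0) (nat_lit 0) (nat_lit 0x7ff6067de) (nat_lit 1079274023),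
  Rx.mk (nat_lit 433) (nat_lit 1) (nat_lit 6) (nat_lit 6) (nat_lit 7) (nat_lit 84) (nat_lit 223) r11_84 r5_223 (nat_lit 0) (nat_lit 0) (nat_lit 0) (nat_lit 0x80029938e) (nat_lit 1073741824),
  Rx.mk (nat_lit 435) (nat_lit 3) (nat_lit 6) (nat_lit 6) (nat_lit 7) (nat_lit 85) (nat_lit 224) r11_85 r5_224 (nat_lit 0) (nat_lit 0) (nat_lit 0) (nat_lit 0x80029938e) (nat_lit 1073741824),
  Rx.mk (nat_lit 440) (nat_lit 0) (nat_lit 7) (nat_lit 6) (nat_lit 6) (nat_lit 86) (nat_lit 220) r11_86 r5_220 (nat_lit 3361078) (nat_lit 0) (nat_lit 0) (nat_lit 0x802aa3348) (nat_lit 1074541602),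
  Rx.mk (nat_lit 441) (nat_lit 1) (nat_lit 7) (nat_lit 6) (nat_lit 7) (nat_lit 87) (nat_lit 221) r11_87 r5_221 (nat_lit 0) (nat_lit 0) (nat_lit 0) (nat_lit 0x800d38786) (nat_lit 1073060924),
  Rx.mk (nat_lit 504) (nat_lit 0) (nat_lit 7) (nat_lit 7) (nat_lit 6) (nat_lit 88) (nat_lit 217) r11_88 r5_217 (nat_lit 5824518) (nat_lit 0) (nat_lit 0) (nat_lit 0x7f6cb0a3e) (nat_lit 1089264642),
  Rx.mk (nat_lit 505) (nat_lit 1) (nat_lit 7) (nat_lit 7) (nat_lit 7) (nat_lit 89) (nat_lit 218) r11_89 r5_218 (nat_lit 0) (nat_lit 0) (nat_lit 0) (nat_lit 0x80029938e) (nat_lit 1073741824),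
  Rx.mk (nat_lit 506) (nat_lit 2) (nat_lit 7) (nat_lit 7) (nat_lit 7) (nat_lit 90) (nat_lit 219) r11_90 r5_219 (nat_lit 0) (nat_lit 0) (nat_lit 0) (nat_lit 0x80029938e) (nat_lit 1073741824)]
noncomputable def e31_57 : List Rx := [
  Rx.mk (nat_lit 288) (nat_lit 0) (nat_lit 4) (nat_lit 4) (nat_lit 0) (nat_lit 236) (nat_lit 236) r11_236 r11_236 (nat_lit 12626867) (nat_lit 25063667) (nat_lit 25063667) (nat_lit 0x57848be6a) (nat_lit 1811543825),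
  Rx.mk (nat_lit 289) (nat_lit 1) (nat_lit 4) (nat_lit 4) (nat_lit 1) (nat_lit 237) (nat_lit 237) r11_237 r11_237 (nat_lit 0) (nat_lit 20770673) (nat_lit 20770673) (nat_lit 0x7f8baa200) (nat_lit 1122969770),
  Rx.mk (nat_lit 290) (nat_lit 2) (nat_lit 4) (nat_lit 4) (nat_lit 1) (nat_lit 238) (nat_lit 239) r11_238 r11_239 (nat_lit 0) (nat_lit 10912764) (nat_lit 12094471) (nat_lit 0x7d59a31dc) (nat_lit 1141019859),
  Rx.mk (nat_lit 291) (nat_lit 3) (nat_lit 4) (nat_lit 4) (nat_lit 1) (nat_lit 239) (nat_lit 238) r11_239 r11_238 (nat_lit 0) (nat_lit 12094471) (nat_lit 10912764) (nat_lit 0x7d59a31dc) (nat_lit 1141019859),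
  Rx.mk (nat_lit 296) (nat_lit 0) (nat_lit 5) (nat_lit 4) (nat_lit 2) (nat_lit 240) (nat_lit 246) r11_240 r11_246 (nat_lit 12457896) (nat_lit 0) (nat_lit 44498618) (nat_lit 0x761f4fd5c) (nat_lit 1295480838),
  Rx.mk (nat_lit 298) (nat_lit 2) (nat_lit 5) (nat_lit 4) (nat_lit 3) (nat_lit 241) (nat_lit 248) r11_241 r11_248 (nat_lit 0) (nat_lit 0) (nat_lit 5449534) (nat_lit 0x80029938e) (nat_lit 1079191358),
  Rx.mk (nat_lit 299) (nat_lit 3) (nat_lit 5) (nat_lit 4) (nat_lit 3) (nat_lit 242) (nat_lit 247) r11_242 r11_247 (nat_lit 0) (nat_lit 0) (nat_lit 5449534) (nat_lit 0x80029938e) (nat_lit 1079191358),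
  Rx.mk (nat_lit 312) (nat_lit 0) (nat_lit 7) (nat_lit 4) (nat_lit 2) (nat_lit 243) (nat_lit 254) r11_243 r11_254 (nat_lit 11615170) (nat_lit 0) (nat_lit 9364748) (nat_lit 0x74b3e5c66) (nat_lit 1283170342),
  Rx.mk (nat_lit 313) (nat_lit 1) (nat_lit 7) (nat_lit 4) (nat_lit 3) (nat_lit 244) (nat_lit 255) r11_244 r11_255 (nat_lit 0) (nat_lit 0) (nat_lit 5449534) (nat_lit 0x80029938e) (nat_lit 1079191358),
  Rx.mk (nat_lit 314) (nat_lit 2) (nat_lit 7) (nat_lit 4) (nat_lit 3) (nat_lit 245) (nat_lit 256) r11_245 r11_256 (nat_lit 0) (nat_lit 0) (nat_lit 5449534) (nat_lit 0x80029938e) (nat_lit 1079191358),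
  Rx.mk (nat_lit 352) (nat_lit 0) (nat_lit 4) (nat_lit 5) (nat_lit 4) (nat_lit 246) (nat_lit 240) r11_246 r11_240 (nat_lit 12457896) (nat_lit 44498618) (nat_lit 0) (nat_lit 0x761f4fd5c) (nat_lit 1295480838),
  Rx.mk (nat_lit 354) (nat_lit 2) (nat_lit 4) (nat_lit 5) (nat_lit 5) (nat_lit 247) (nat_lit 242) r11_247 r11_242 (nat_lit 0) (nat_lit 5449534) (nat_lit 0) (nat_lit 0x80029938e) (nat_lit 1079191358),
  Rx.mk (nat_lit 355) (nat_lit 3) (nat_lit 4) (nat_lit 5) (nat_lit 5) (nat_lit 248) (nat_lit 241) r11_248 r11_241 (nat_lit 0) (nat_lit 5449534) (nat_lit 0) (nat_lit 0x80029938e) (nat_lit 1079191358),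
  Rx.mk (nat_lit 360) (nat_lit 0) (nat_lit 5) (nat_lit 5) (nat_lit 6) (nat_lit 249) (nat_lit 249) r11_249 r11_249 (nat_lit 5592156) (nat_lit 0) (nat_lit 0) (nat_lit 0x7ff6e4336) (nat_lit 1080085980),
  Rx.mk (nat_lit 362) (nat_lit 2) (nat_lit 5) (nat_lit 5) (nat_lit 7) (nat_lit 250) (nat_lit 251) r11_250 r11_251 (nat_lit 0) (nat_lit 0) (nat_lit 0) (nat_lit 0x80029938e) (nat_lit 1073741824),
  Rx.mk (nat_lit 363) (nat_lit 3) (nat_lit 5) (nat_lit 5) (nat_lit 7) (nat_lit 251) (nat_lit 250) r11_251 r11_250 (nat_lit 0) (nat_lit 0) (nat_lit 0) (nat_lit 0x80029938e) (nat_lit 1073741824),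
  Rx.mk (nat_lit 376) (nat_lit 0) (nat_lit 7) (nat_lit 5) (nat_lit 6) (nat_lit 252) (nat_lit 257) r11_252 r11_257 (nat_lit 5449534) (nat_lit 0) (nat_lit 0) (nat_lit 0x80029938e) (nat_lit 1079191358),
  Rx.mk (nat_lit 378) (nat_lit 2) (nat_lit 7) (nat_lit 5) (nat_lit 7) (nat_lit 253) (nat_lit 258) r11_253 r11_258 (nat_lit 0) (nat_lit 0) (nat_lit 0) (nat_lit 0x80029938e) (nat_lit 1073741824),
  Rx.mk (nat_lit 416) (nat_lit 0) (nat_lit 4) (nat_lit 6) (nat_lit 4) (nat_lit 254) (nat_lit 243) r11_254 r11_243 (nat_lit 11615170) (nat_lit 9364748) (nat_lit 0) (nat_lit 0x74b3e5c66) (nat_lit 1283170342),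
  Rx.mk (nat_lit 417) (nat_lit 1) (nat_lit 4) (nat_lit 6) (nat_lit 5) (nat_lit 255) (nat_lit 244) r11_255 r11_244 (nat_lit 0) (nat_lit 5449534) (nat_lit 0) (nat_lit 0x80029938e) (nat_lit 1079191358),
  Rx.mk (nat_lit 419) (nat_lit 3) (nat_lit 4) (nat_lit 6) (nat_lit 5) (nat_lit 256) (nat_lit 245) r11_256 r11_245 (nat_lit 0) (nat_lit 5449534) (nat_lit 0) (nat_lit 0x80029938e) (nat_lit 1079191358),
  Rx.mk (nat_lit 424) (nat_lit 0) (nat_lit 5) (nat_lit 6) (nat_lit 6) (nat_lit 257) (nat_lit 252) r11_257 r11_252 (nat_lit 5449534) (nat_lit 0) (nat_lit 0) (nat_lit 0x80029938e) (nat_lit 1079191358),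
  Rx.mk (nat_lit 427) (nat_lit 3) (nat_lit 5) (nat_lit 6) (nat_lit 7) (nat_lit 258) (nat_lit 253) r11_258 r11_253 (nat_lit 0) (nat_lit 0) (nat_lit 0) (nat_lit 0x80029938e) (nat_lit 1073741824),
  Rx.mk (nat_lit 432) (nat_lit 0) (nat_lit 6) (nat_lit 6) (nat_lit 6) (nat_lit 259) (nat_lit 262) r11_259 r11_262 (nat_lit 5449534) (nat_lit 0) (nat_lit 0) (nat_lit 0x80029938e) (nat_lit 1079191358),
  Rx.mk (nat_lit 433) (nat_lit 1) (nat_lit 6) (nat_lit 6) (nat_lit 7) (nat_lit 260) (nat_lit 263) r11_260 r11_263 (nat_lit 0) (nat_lit 0) (nat_lit 0) (nat_lit 0x80029938e) (nat_lit 1073741824),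
  Rx.mk (nat_lit 435) (nat_lit 3) (nat_lit 6) (nat_lit 6) (nat_lit 7) (nat_lit 261) (nat_lit 264) r11_261 r11_264 (nat_lit 0) (nat_lit 0) (nat_lit 0) (nat_lit 0x80029938e) (nat_lit 1073741824),
  Rx.mk (nat_lit 504) (nat_lit 0) (nat_lit 7) (nat_lit 7) (nat_lit 6) (nat_lit 262) (nat_lit 259) r11_262 r11_259 (nat_lit 5449534) (nat_lit 0) (nat_lit 0) (nat_lit 0x80029938e) (nat_lit 1079191358),
  Rx.mk (nat_lit 505) (nat_lit 1) (nat_lit 7) (nat_lit 7) (nat_lit 7) (nat_lit 263) (nat_lit 260) r11_263 r11_260 (nat_lit 0) (nat_lit 0) (nat_lit 0) (nat_lit 0x80029938e) (nat_lit 1073741824),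
  Rx.mk (nat_lit 506) (nat_lit 2) (nat_lit 7) (nat_lit 7) (nat_lit 7) (nat_lit 264) (nat_lit 261) r11_264 r11_261 (nat_lit 0) (nat_lit 0) (nat_lit 0) (nat_lit 0x80029938e) (nat_lit 1073741824)]
noncomputable def e31 : List (List Rx) := [e31_0, e31_1, e31_2, e31_3, e31_4, e31_5, e31_6, e31_7, e31_8, e31_9, e31_10, e31_11, e31_12, e31_13, e31_14, e31_15, e31_16, e31_17, e31_18, e31_19, e31_20, e31_21, e31_22, e31_23, e31_24, e31_25, e31_26, e31_27, e31_28, e31_29, e31_30, e31_31, e31_32, e31_33, e31_34, e31_35, e31_36, e31_37, e31_38, e31_39, e31_40, e31_41, e31_42, e31_43, e31_44, e31_45, e31_46, e31_47, e31_48, e31_49, e31_50, e31_51, e31_52, e31_53, e31_54, e31_55, e31_56, e31_57]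
noncomputable def e32_0 : List Rx := [
  Rx.mk (nat_lit 84) (nat_lit 4) (nat_lit 2) (nat_lit 1) (nat_lit 6) (nat_lit 276) (nat_lit 222) r6_276 r0_222 (nat_lit 4479) (nat_lit 0) (nat_lit 0) (nat_lit 0x93ccfa606) (nat_lit 753553703),
  Rx.mk (nat_lit 116) (nat_lit 4) (nat_lit 6) (nat_lit 1) (nat_lit 6) (nat_lit 277) (nat_lit 223) r6_277 r0_223 (nat_lit 8409716) (nat_lit 0) (nat_lit 0) (nat_lit 0x803d3fe16) (nat_lit 1078386140)]
noncomputable def e32_1 : List Rx := [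
  Rx.mk (nat_lit 84) (nat_lit 4) (nat_lit 2) (nat_lit 1) (nat_lit 6) (nat_lit 304) (nat_lit 240) r6_304 r1_240 (nat_lit 32238) (nat_lit 0) (nat_lit 0) (nat_lit 0x803e4e578) (nat_lit 1069845062),
  Rx.mk (nat_lit 116) (nat_lit 4) (nat_lit 6) (nat_lit 1) (nat_lit 6) (nat_lit 305) (nat_lit 241) r6_305 r1_241 (nat_lit 9165703) (nat_lit 0) (nat_lit 0) (nat_lit 0x82a20d594) (nat_lit 1040408027)]
noncomputable def e32_2 : List Rx := [
  Rx.mk (nat_lit 84) (nat_lit 4) (nat_lit 2) (nat_lit 1) (nat_lit 6) (nat_lit 306) (nat_lit 251) r6_306 r2_251 (nat_lit 7559055) (nat_lit 0) (nat_lit 0) (nat_lit 0x7fe1044e4) (nat_lit 1083462579),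
  Rx.mk (nat_lit 326) (nat_lit 6) (nat_lit 0) (nat_lit 5) (nat_lit 5) (nat_lit 308) (nat_lit 253) r6_308 r2_253 (nat_lit 0) (nat_lit 16748008) (nat_lit 0) (nat_lit 0x7f8b4521a) (nat_lit 1098207132),
  Rx.mk (nat_lit 340) (nat_lit 4) (nat_lit 2) (nat_lit 5) (nat_lit 6) (nat_lit 307) (nat_lit 252) r6_307 r2_252 (nat_lit 5695451) (nat_lit 0) (nat_lit 0) (nat_lit 0x7fda6cc12) (nat_lit 1082026575),
  Rx.mk (nat_lit 342) (nat_lit 6) (nat_lit 2) (nat_lit 5) (nat_lit 7) (nat_lit 309) (nat_lit 254) r6_309 r2_254 (nat_lit 0) (nat_lit 0) (nat_lit 0) (nat_lit 0x80029938e) (nat_lit 1073741824)]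
noncomputable def e32_3 : List Rx := [
  Rx.mk (nat_lit 20) (nat_lit 4) (nat_lit 2) (nat_lit 0) (nat_lit 2) (nat_lit 322) (nat_lit 217) r6_322 r3_217 (nat_lit 1139) (nat_lit 0) (nat_lit 1326) (nat_lit 0x7fffcc656) (nat_lit 1073757989),
  Rx.mk (nat_lit 52) (nat_lit 4) (nat_lit 6) (nat_lit 0) (nat_lit 2) (nat_lit 323) (nat_lit 219) r6_323 r3_219 (nat_lit 1326) (nat_lit 0) (nat_lit 1139) (nat_lit 0x7fffcc656) (nat_lit 1073757989),
  Rx.mk (nat_lit 55) (nat_lit 7) (nat_lit 6) (nat_lit 0) (nat_lit 3) (nat_lit 325) (nat_lit 220) r6_325 r3_220 (nat_lit 0) (nat_lit 0) (nat_lit 10551) (nat_lit 0x80057a5bc) (nat_lit 1073411275),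
  Rx.mk (nat_lit 212) (nat_lit 4) (nat_lit 2) (nat_lit 3) (nat_lit 6) (nat_lit 324) (nat_lit 218) r6_324 r3_218 (nat_lit 10551) (nat_lit 0) (nat_lit 0) (nat_lit 0x80057a5bc) (nat_lit 1073411275)]
noncomputable def e32_4 : List Rx := [
  Rx.mk (nat_lit 20) (nat_lit 4) (nat_lit 2) (nat_lit 0) (nat_lit 2) (nat_lit 326) (nat_lit 217) r6_326 r4_217 (nat_lit 58427) (nat_lit 0) (nat_lit 38193) (nat_lit 0x743c60600) (nat_lit 1269994544),
  Rx.mk (nat_lit 52) (nat_lit 4) (nat_lit 6) (nat_lit 0) (nat_lit 2) (nat_lit 327) (nat_lit 220) r6_327 r4_220 (nat_lit 1651260) (nat_lit 0) (nat_lit 570165) (nat_lit 0x6c90a7590) (nat_lit 1400056949),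
  Rx.mk (nat_lit 55) (nat_lit 7) (nat_lit 6) (nat_lit 0) (nat_lit 3) (nat_lit 331) (nat_lit 222) r6_331 r4_222 (nat_lit 0) (nat_lit 0) (nat_lit 34434) (nat_lit 0x47d93a886) (nat_lit 2010000758),
  Rx.mk (nat_lit 84) (nat_lit 4) (nat_lit 2) (nat_lit 1) (nat_lit 6) (nat_lit 328) (nat_lit 218) r6_328 r4_218 (nat_lit 2224828) (nat_lit 0) (nat_lit 0) (nat_lit 0x8082c4f54) (nat_lit 1067817452),
  Rx.mk (nat_lit 116) (nat_lit 4) (nat_lit 6) (nat_lit 1) (nat_lit 6) (nat_lit 329) (nat_lit 221) r6_329 r4_221 (nat_lit 2410025) (nat_lit 0) (nat_lit 0) (nat_lit 0x7ff815124) (nat_lit 1076821349),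
  Rx.mk (nat_lit 119) (nat_lit 7) (nat_lit 6) (nat_lit 1) (nat_lit 7) (nat_lit 332) (nat_lit 223) r6_332 r4_223 (nat_lit 0) (nat_lit 0) (nat_lit 0) (nat_lit 0x800d35cd4) (nat_lit 1073018224),
  Rx.mk (nat_lit 212) (nat_lit 4) (nat_lit 2) (nat_lit 3) (nat_lit 6) (nat_lit 330) (nat_lit 219) r6_330 r4_219 (nat_lit 3048876) (nat_lit 0) (nat_lit 0) (nat_lit 0x8040187e6) (nat_lit 1072866300)]
noncomputable def e32_5 : List Rx := [
  Rx.mk (nat_lit 52) (nat_lit 4) (nat_lit 6) (nat_lit 0) (nat_lit 2) (nat_lit 333) (nat_lit 232) r6_333 r5_232 (nat_lit 398639) (nat_lit 0) (nat_lit 369792) (nat_lit 0x7a2eaa5be) (nat_lit 1171560755),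
  Rx.mk (nat_lit 55) (nat_lit 7) (nat_lit 6) (nat_lit 0) (nat_lit 3) (nat_lit 336) (nat_lit 234) r6_336 r5_234 (nat_lit 0) (nat_lit 0) (nat_lit 503576) (nat_lit 0x81fec8a00) (nat_lit 1042043700),
  Rx.mk (nat_lit 212) (nat_lit 4) (nat_lit 2) (nat_lit 3) (nat_lit 6) (nat_lit 334) (nat_lit 231) r6_334 r5_231 (nat_lit 13815) (nat_lit 0) (nat_lit 0) (nat_lit 0x85fe01f32) (nat_lit 976860439),
  Rx.mk (nat_lit 244) (nat_lit 4) (nat_lit 6) (nat_lit 3) (nat_lit 6) (nat_lit 335) (nat_lit 233) r6_335 r5_233 (nat_lit 1584864) (nat_lit 0) (nat_lit 0) (nat_lit 0x83f760f68) (nat_lit 1011269188)]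
noncomputable def e32_6 : List Rx := [
  Rx.mk (nat_lit 262) (nat_lit 6) (nat_lit 0) (nat_lit 4) (nat_lit 1) (nat_lit 44) (nat_lit 227) r6_44 r3_227 (nat_lit 0) (nat_lit 536) (nat_lit 636) (nat_lit 0x7ffffbb7c) (nat_lit 1073744396),
  Rx.mk (nat_lit 278) (nat_lit 6) (nat_lit 2) (nat_lit 4) (nat_lit 3) (nat_lit 45) (nat_lit 233) r6_45 r3_233 (nat_lit 0) (nat_lit 0) (nat_lit 349767) (nat_lit 0x7dc28a740) (nat_lit 1111486291),
  Rx.mk (nat_lit 386) (nat_lit 2) (nat_lit 0) (nat_lit 6) (nat_lit 5) (nat_lit 41) (nat_lit 230) r6_41 r3_230 (nat_lit 0) (nat_lit 59620) (nat_lit 0) (nat_lit 0x7fefbb2da) (nat_lit 1074882044),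
  Rx.mk (nat_lit 390) (nat_lit 6) (nat_lit 0) (nat_lit 6) (nat_lit 5) (nat_lit 46) (nat_lit 229) r6_46 r3_229 (nat_lit 0) (nat_lit 106827) (nat_lit 0) (nat_lit 0x7fdfdb806) (nat_lit 1075972951),
  Rx.mk (nat_lit 410) (nat_lit 2) (nat_lit 3) (nat_lit 6) (nat_lit 7) (nat_lit 42) (nat_lit 231) r6_42 r3_231 (nat_lit 0) (nat_lit 0) (nat_lit 0) (nat_lit 0x80161fbd8) (nat_lit 1072436524),
  Rx.mk (nat_lit 454) (nat_lit 6) (nat_lit 0) (nat_lit 7) (nat_lit 5) (nat_lit 47) (nat_lit 228) r6_47 r3_228 (nat_lit 0) (nat_lit 37171) (nat_lit 0) (nat_lit 0x7f1a6eae6) (nat_lit 1088745295),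
  Rx.mk (nat_lit 468) (nat_lit 4) (nat_lit 2) (nat_lit 7) (nat_lit 6) (nat_lit 43) (nat_lit 232) r6_43 r3_232 (nat_lit 68827) (nat_lit 0) (nat_lit 0) (nat_lit 0x7d81ad2b8) (nat_lit 1115392751),
  Rx.mk (nat_lit 470) (nat_lit 6) (nat_lit 2) (nat_lit 7) (nat_lit 7) (nat_lit 48) (nat_lit 234) r6_48 r3_234 (nat_lit 0) (nat_lit 0) (nat_lit 0) (nat_lit 0x8bee0d6f2) (nat_lit 880897024)]
noncomputable def e32_7 : List Rx := [
  Rx.mk (nat_lit 262) (nat_lit 6) (nat_lit 0) (nat_lit 4) (nat_lit 1) (nat_lit 173) (nat_lit 228) r6_173 r0_228 (nat_lit 0) (nat_lit 21155) (nat_lit 21443) (nat_lit 0x655f25c44) (nat_lit 1517763922),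
  Rx.mk (nat_lit 276) (nat_lit 4) (nat_lit 2) (nat_lit 4) (nat_lit 2) (nat_lit 171) (nat_lit 232) r6_171 r0_232 (nat_lit 73687) (nat_lit 0) (nat_lit 56818) (nat_lit 0x686f2bb72) (nat_lit 1466800329),
  Rx.mk (nat_lit 278) (nat_lit 6) (nat_lit 2) (nat_lit 4) (nat_lit 3) (nat_lit 174) (nat_lit 234) r6_174 r0_234 (nat_lit 0) (nat_lit 0) (nat_lit 2085900) (nat_lit 0x80175fe9e) (nat_lit 1074492124),
  Rx.mk (nat_lit 326) (nat_lit 6) (nat_lit 0) (nat_lit 5) (nat_lit 5) (nat_lit 175) (nat_lit 229) r6_175 r0_229 (nat_lit 0) (nat_lit 473428) (nat_lit 0) (nat_lit 0x8f3b0df94) (nat_lit 827965152),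
  Rx.mk (nat_lit 340) (nat_lit 4) (nat_lit 2) (nat_lit 5) (nat_lit 6) (nat_lit 172) (nat_lit 233) r6_172 r0_233 (nat_lit 94559) (nat_lit 0) (nat_lit 0) (nat_lit 0x9073beac2) (nat_lit 807812083),
  Rx.mk (nat_lit 342) (nat_lit 6) (nat_lit 2) (nat_lit 5) (nat_lit 7) (nat_lit 176) (nat_lit 235) r6_176 r0_235 (nat_lit 0) (nat_lit 0) (nat_lit 0) (nat_lit 0x90cc616de) (nat_lit 802175124),
  Rx.mk (nat_lit 386) (nat_lit 2) (nat_lit 0) (nat_lit 6) (nat_lit 5) (nat_lit 170) (nat_lit 231) r6_170 r0_231 (nat_lit 0) (nat_lit 1581921) (nat_lit 0) (nat_lit 0x7e87497a2) (nat_lit 1099940645),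
  Rx.mk (nat_lit 390) (nat_lit 6) (nat_lit 0) (nat_lit 6) (nat_lit 5) (nat_lit 177) (nat_lit 230) r6_177 r0_230 (nat_lit 0) (nat_lit 2346346) (nat_lit 0) (nat_lit 0x7a9228b7c) (nat_lit 1166687270)]
noncomputable def e32_8 : List Rx := [
  Rx.mk (nat_lit 326) (nat_lit 6) (nat_lit 0) (nat_lit 5) (nat_lit 5) (nat_lit 179) (nat_lit 246) r6_179 r1_246 (nat_lit 0) (nat_lit 1035266) (nat_lit 0) (nat_lit 0x8401ef04c) (nat_lit 1010034890),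
  Rx.mk (nat_lit 340) (nat_lit 4) (nat_lit 2) (nat_lit 5) (nat_lit 6) (nat_lit 178) (nat_lit 247) r6_178 r1_247 (nat_lit 376415) (nat_lit 0) (nat_lit 0) (nat_lit 0x86cc62d18) (nat_lit 964233239),
  Rx.mk (nat_lit 342) (nat_lit 6) (nat_lit 2) (nat_lit 5) (nat_lit 7) (nat_lit 180) (nat_lit 248) r6_180 r1_248 (nat_lit 0) (nat_lit 0) (nat_lit 0) (nat_lit 0x8fcfe0ed2) (nat_lit 818127624)]
noncomputable def e32_9 : List Rx := [
  Rx.mk (nat_lit 262) (nat_lit 6) (nat_lit 0) (nat_lit 4) (nat_lit 1) (nat_lit 186) (nat_lit 229) r6_186 r4_229 (nat_lit 0) (nat_lit 47711) (nat_lit 38237) (nat_lit 0x718a177ac) (nat_lit 1314939572),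
  Rx.mk (nat_lit 276) (nat_lit 4) (nat_lit 2) (nat_lit 4) (nat_lit 2) (nat_lit 183) (nat_lit 235) r6_183 r4_235 (nat_lit 9876) (nat_lit 0) (nat_lit 6592) (nat_lit 0x73504ef82) (nat_lit 1285279692),
  Rx.mk (nat_lit 278) (nat_lit 6) (nat_lit 2) (nat_lit 4) (nat_lit 3) (nat_lit 187) (nat_lit 238) r6_187 r4_238 (nat_lit 0) (nat_lit 0) (nat_lit 1219035) (nat_lit 0x80393948e) (nat_lit 1071457659),
  Rx.mk (nat_lit 326) (nat_lit 6) (nat_lit 0) (nat_lit 5) (nat_lit 5) (nat_lit 188) (nat_lit 230) r6_188 r4_230 (nat_lit 0) (nat_lit 3192982) (nat_lit 0) (nat_lit 0x803a9355a) (nat_lit 1073361906),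
  Rx.mk (nat_lit 340) (nat_lit 4) (nat_lit 2) (nat_lit 5) (nat_lit 6) (nat_lit 184) (nat_lit 236) r6_184 r4_236 (nat_lit 4043670) (nat_lit 0) (nat_lit 0) (nat_lit 0x8019d8c3e) (nat_lit 1076296794),
  Rx.mk (nat_lit 342) (nat_lit 6) (nat_lit 2) (nat_lit 5) (nat_lit 7) (nat_lit 189) (nat_lit 239) r6_189 r4_239 (nat_lit 0) (nat_lit 0) (nat_lit 0) (nat_lit 0x807785210) (nat_lit 1066297424),
  Rx.mk (nat_lit 386) (nat_lit 2) (nat_lit 0) (nat_lit 6) (nat_lit 5) (nat_lit 181) (nat_lit 233) r6_181 r4_233 (nat_lit 0) (nat_lit 2519210) (nat_lit 0) (nat_lit 0x7ebf86994) (nat_lit 1097219834),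
  Rx.mk (nat_lit 390) (nat_lit 6) (nat_lit 0) (nat_lit 6) (nat_lit 5) (nat_lit 190) (nat_lit 232) r6_190 r4_232 (nat_lit 0) (nat_lit 2826148) (nat_lit 0) (nat_lit 0x7ffa8010c) (nat_lit 1077083472),
  Rx.mk (nat_lit 410) (nat_lit 2) (nat_lit 3) (nat_lit 6) (nat_lit 7) (nat_lit 182) (nat_lit 234) r6_182 r4_234 (nat_lit 0) (nat_lit 0) (nat_lit 0) (nat_lit 0x81261a06e) (nat_lit 1055268324),
  Rx.mk (nat_lit 454) (nat_lit 6) (nat_lit 0) (nat_lit 7) (nat_lit 5) (nat_lit 191) (nat_lit 231) r6_191 r4_231 (nat_lit 0) (nat_lit 2840910) (nat_lit 0) (nat_lit 0x804903392) (nat_lit 1072090734),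
  Rx.mk (nat_lit 468) (nat_lit 4) (nat_lit 2) (nat_lit 7) (nat_lit 6) (nat_lit 185) (nat_lit 237) r6_185 r4_237 (nat_lit 1760727) (nat_lit 0) (nat_lit 0) (nat_lit 0x802b4e4aa) (nat_lit 1072885551),
  Rx.mk (nat_lit 470) (nat_lit 6) (nat_lit 2) (nat_lit 7) (nat_lit 7) (nat_lit 192) (nat_lit 240) r6_192 r4_240 (nat_lit 0) (nat_lit 0) (nat_lit 0) (nat_lit 0x809a0fc90) (nat_lit 1064111224)]
noncomputable def e32_10 : List Rx := [
  Rx.mk (nat_lit 55) (nat_lit 7) (nat_lit 6) (nat_lit 0) (nat_lit 3) (nat_lit 249) (nat_lit 247) r6_249 r6_247 (nat_lit 0) (nat_lit 0) (nat_lit 85480) (nat_lit 0x80034bb88) (nat_lit 1073659004),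
  Rx.mk (nat_lit 212) (nat_lit 4) (nat_lit 2) (nat_lit 3) (nat_lit 6) (nat_lit 244) (nat_lit 244) r6_244 r6_244 (nat_lit 207111) (nat_lit 0) (nat_lit 0) (nat_lit 0x7fdbf9314) (nat_lit 1076351135),
  Rx.mk (nat_lit 244) (nat_lit 4) (nat_lit 6) (nat_lit 3) (nat_lit 6) (nat_lit 245) (nat_lit 246) r6_245 r6_246 (nat_lit 746296) (nat_lit 0) (nat_lit 0) (nat_lit 0x7fb13a506) (nat_lit 1079702620),
  Rx.mk (nat_lit 247) (nat_lit 7) (nat_lit 6) (nat_lit 3) (nat_lit 7) (nat_lit 250) (nat_lit 248) r6_250 r6_248 (nat_lit 0) (nat_lit 0) (nat_lit 0) (nat_lit 0x8b96934e4) (nat_lit 886418024),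
  Rx.mk (nat_lit 454) (nat_lit 6) (nat_lit 0) (nat_lit 7) (nat_lit 5) (nat_lit 247) (nat_lit 249) r6_247 r6_249 (nat_lit 0) (nat_lit 85480) (nat_lit 0) (nat_lit 0x80034bb88) (nat_lit 1073659004),
  Rx.mk (nat_lit 468) (nat_lit 4) (nat_lit 2) (nat_lit 7) (nat_lit 6) (nat_lit 246) (nat_lit 245) r6_246 r6_245 (nat_lit 746296) (nat_lit 0) (nat_lit 0) (nat_lit 0x7fb13a506) (nat_lit 1079702620),
  Rx.mk (nat_lit 470) (nat_lit 6) (nat_lit 2) (nat_lit 7) (nat_lit 7) (nat_lit 248) (nat_lit 250) r6_248 r6_250 (nat_lit 0) (nat_lit 0) (nat_lit 0) (nat_lit 0x8b96934e4) (nat_lit 886418024)]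
noncomputable def e32_11 : List Rx := [
  Rx.mk (nat_lit 454) (nat_lit 6) (nat_lit 0) (nat_lit 7) (nat_lit 5) (nat_lit 252) (nat_lit 242) r6_252 r5_242 (nat_lit 0) (nat_lit 128360) (nat_lit 0) (nat_lit 0x84cda1136) (nat_lit 996225984),
  Rx.mk (nat_lit 468) (nat_lit 4) (nat_lit 2) (nat_lit 7) (nat_lit 6) (nat_lit 251) (nat_lit 243) r6_251 r5_243 (nat_lit 10459) (nat_lit 0) (nat_lit 0) (nat_lit 0x89d896974) (nat_lit 914535883),
  Rx.mk (nat_lit 470) (nat_lit 6) (nat_lit 2) (nat_lit 7) (nat_lit 7) (nat_lit 253) (nat_lit 244) r6_253 r5_244 (nat_lit 0) (nat_lit 0) (nat_lit 0) (nat_lit 0x84e45cfce) (nat_lit 994704024)]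
noncomputable def e32_12 : List Rx := [
  Rx.mk (nat_lit 21) (nat_lit 5) (nat_lit 2) (nat_lit 0) (nat_lit 3) (nat_lit 278) (nat_lit 223) r6_278 r0_223 (nat_lit 0) (nat_lit 0) (nat_lit 8409716) (nat_lit 0x803d3fe16) (nat_lit 1078386140),
  Rx.mk (nat_lit 53) (nat_lit 5) (nat_lit 6) (nat_lit 0) (nat_lit 3) (nat_lit 279) (nat_lit 222) r6_279 r0_222 (nat_lit 0) (nat_lit 0) (nat_lit 4479) (nat_lit 0x93ccfa606) (nat_lit 753553703)]
noncomputable def e32_13 : List Rx := [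
  Rx.mk (nat_lit 21) (nat_lit 5) (nat_lit 2) (nat_lit 0) (nat_lit 3) (nat_lit 282) (nat_lit 282) r6_282 r7_282 (nat_lit 0) (nat_lit 0) (nat_lit 2052120) (nat_lit 0x802554b6c) (nat_lit 1073565444),
  Rx.mk (nat_lit 53) (nat_lit 5) (nat_lit 6) (nat_lit 0) (nat_lit 3) (nat_lit 283) (nat_lit 284) r6_283 r7_284 (nat_lit 0) (nat_lit 0) (nat_lit 1381776) (nat_lit 0x8046be05a) (nat_lit 1070778100),
  Rx.mk (nat_lit 84) (nat_lit 4) (nat_lit 2) (nat_lit 1) (nat_lit 6) (nat_lit 280) (nat_lit 280) r6_280 r7_280 (nat_lit 1381776) (nat_lit 0) (nat_lit 0) (nat_lit 0x8046be05a) (nat_lit 1070778100),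
  Rx.mk (nat_lit 85) (nat_lit 5) (nat_lit 2) (nat_lit 1) (nat_lit 7) (nat_lit 284) (nat_lit 283) r6_284 r7_283 (nat_lit 0) (nat_lit 0) (nat_lit 0) (nat_lit 0x8061e744e) (nat_lit 1067667324),
  Rx.mk (nat_lit 116) (nat_lit 4) (nat_lit 6) (nat_lit 1) (nat_lit 6) (nat_lit 281) (nat_lit 281) r6_281 r7_281 (nat_lit 2052120) (nat_lit 0) (nat_lit 0) (nat_lit 0x802554b6c) (nat_lit 1073565444),
  Rx.mk (nat_lit 117) (nat_lit 5) (nat_lit 6) (nat_lit 1) (nat_lit 7) (nat_lit 285) (nat_lit 285) r6_285 r7_285 (nat_lit 0) (nat_lit 0) (nat_lit 0) (nat_lit 0x8061e744e) (nat_lit 1067667324)]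
noncomputable def e32_14 : List Rx := [
  Rx.mk (nat_lit 21) (nat_lit 5) (nat_lit 2) (nat_lit 0) (nat_lit 3) (nat_lit 298) (nat_lit 241) r6_298 r1_241 (nat_lit 0) (nat_lit 0) (nat_lit 9165703) (nat_lit 0x82a20d594) (nat_lit 1040408027),
  Rx.mk (nat_lit 53) (nat_lit 5) (nat_lit 6) (nat_lit 0) (nat_lit 3) (nat_lit 299) (nat_lit 240) r6_299 r1_240 (nat_lit 0) (nat_lit 0) (nat_lit 32238) (nat_lit 0x803e4e578) (nat_lit 1069845062)]
noncomputable def e32_15 : List Rx := [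
  Rx.mk (nat_lit 21) (nat_lit 5) (nat_lit 2) (nat_lit 0) (nat_lit 3) (nat_lit 300) (nat_lit 214) r6_300 r8_214 (nat_lit 0) (nat_lit 0) (nat_lit 5771941) (nat_lit 0x7fecf9a7e) (nat_lit 1080903565),
  Rx.mk (nat_lit 53) (nat_lit 5) (nat_lit 6) (nat_lit 0) (nat_lit 3) (nat_lit 301) (nat_lit 216) r6_301 r8_216 (nat_lit 0) (nat_lit 0) (nat_lit 1646791) (nat_lit 0x803c7d550) (nat_lit 1071692415),
  Rx.mk (nat_lit 85) (nat_lit 5) (nat_lit 2) (nat_lit 1) (nat_lit 7) (nat_lit 302) (nat_lit 215) r6_302 r8_215 (nat_lit 0) (nat_lit 0) (nat_lit 0) (nat_lit 0x80029938e) (nat_lit 1073741824),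
  Rx.mk (nat_lit 117) (nat_lit 5) (nat_lit 6) (nat_lit 1) (nat_lit 7) (nat_lit 303) (nat_lit 217) r6_303 r8_217 (nat_lit 0) (nat_lit 0) (nat_lit 0) (nat_lit 0x803843b1a) (nat_lit 1070312524)]
noncomputable def e32_16 : List Rx := [
  Rx.mk (nat_lit 84) (nat_lit 4) (nat_lit 2) (nat_lit 1) (nat_lit 6) (nat_lit 310) (nat_lit 216) r6_310 r8_216 (nat_lit 1646791) (nat_lit 0) (nat_lit 0) (nat_lit 0x803c7d550) (nat_lit 1071692415),
  Rx.mk (nat_lit 85) (nat_lit 5) (nat_lit 2) (nat_lit 1) (nat_lit 7) (nat_lit 312) (nat_lit 217) r6_312 r8_217 (nat_lit 0) (nat_lit 0) (nat_lit 0) (nat_lit 0x803843b1a) (nat_lit 1070312524),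
  Rx.mk (nat_lit 116) (nat_lit 4) (nat_lit 6) (nat_lit 1) (nat_lit 6) (nat_lit 311) (nat_lit 214) r6_311 r8_214 (nat_lit 5771941) (nat_lit 0) (nat_lit 0) (nat_lit 0x7fecf9a7e) (nat_lit 1080903565),
  Rx.mk (nat_lit 117) (nat_lit 5) (nat_lit 6) (nat_lit 1) (nat_lit 7) (nat_lit 313) (nat_lit 215) r6_313 r8_215 (nat_lit 0) (nat_lit 0) (nat_lit 0) (nat_lit 0x80029938e) (nat_lit 1073741824)]
noncomputable def e32_17 : List Rx := [
  Rx.mk (nat_lit 84) (nat_lit 4) (nat_lit 2) (nat_lit 1) (nat_lit 6) (nat_lit 314) (nat_lit 219) r6_314 r9_219 (nat_lit 5449534) (nat_lit 0) (nat_lit 0) (nat_lit 0x7ff84509a) (nat_lit 1079854658),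
  Rx.mk (nat_lit 85) (nat_lit 5) (nat_lit 2) (nat_lit 1) (nat_lit 7) (nat_lit 316) (nat_lit 221) r6_316 r9_221 (nat_lit 0) (nat_lit 0) (nat_lit 0) (nat_lit 0x80029938e) (nat_lit 1073741824),
  Rx.mk (nat_lit 340) (nat_lit 4) (nat_lit 2) (nat_lit 5) (nat_lit 6) (nat_lit 315) (nat_lit 220) r6_315 r9_220 (nat_lit 6723610) (nat_lit 0) (nat_lit 0) (nat_lit 0x7fa202926) (nat_lit 1086714034),
  Rx.mk (nat_lit 341) (nat_lit 5) (nat_lit 2) (nat_lit 5) (nat_lit 7) (nat_lit 317) (nat_lit 222) r6_317 r9_222 (nat_lit 0) (nat_lit 0) (nat_lit 0) (nat_lit 0x80029938e) (nat_lit 1073741824),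
  Rx.mk (nat_lit 342) (nat_lit 6) (nat_lit 2) (nat_lit 5) (nat_lit 7) (nat_lit 318) (nat_lit 223) r6_318 r9_223 (nat_lit 0) (nat_lit 0) (nat_lit 0) (nat_lit 0x80029938e) (nat_lit 1073741824)]
noncomputable def e32_18 : List Rx := [
  Rx.mk (nat_lit 20) (nat_lit 4) (nat_lit 2) (nat_lit 0) (nat_lit 2) (nat_lit 337) (nat_lit 220) r6_337 r4_220 (nat_lit 570165) (nat_lit 0) (nat_lit 1651260) (nat_lit 0x6c90a7590) (nat_lit 1400056949),
  Rx.mk (nat_lit 21) (nat_lit 5) (nat_lit 2) (nat_lit 0) (nat_lit 3) (nat_lit 340) (nat_lit 221) r6_340 r4_221 (nat_lit 0) (nat_lit 0) (nat_lit 2410025) (nat_lit 0x7ff815124) (nat_lit 1076821349),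
  Rx.mk (nat_lit 52) (nat_lit 4) (nat_lit 6) (nat_lit 0) (nat_lit 2) (nat_lit 338) (nat_lit 217) r6_338 r4_217 (nat_lit 38193) (nat_lit 0) (nat_lit 58427) (nat_lit 0x743c60600) (nat_lit 1269994544),
  Rx.mk (nat_lit 53) (nat_lit 5) (nat_lit 6) (nat_lit 0) (nat_lit 3) (nat_lit 341) (nat_lit 218) r6_341 r4_218 (nat_lit 0) (nat_lit 0) (nat_lit 2224828) (nat_lit 0x8082c4f54) (nat_lit 1067817452),
  Rx.mk (nat_lit 55) (nat_lit 7) (nat_lit 6) (nat_lit 0) (nat_lit 3) (nat_lit 343) (nat_lit 219) r6_343 r4_219 (nat_lit 0) (nat_lit 0) (nat_lit 3048876) (nat_lit 0x8040187e6) (nat_lit 1072866300),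
  Rx.mk (nat_lit 212) (nat_lit 4) (nat_lit 2) (nat_lit 3) (nat_lit 6) (nat_lit 339) (nat_lit 222) r6_339 r4_222 (nat_lit 34434) (nat_lit 0) (nat_lit 0) (nat_lit 0x47d93a886) (nat_lit 2010000758),
  Rx.mk (nat_lit 213) (nat_lit 5) (nat_lit 2) (nat_lit 3) (nat_lit 7) (nat_lit 342) (nat_lit 223) r6_342 r4_223 (nat_lit 0) (nat_lit 0) (nat_lit 0) (nat_lit 0x800d35cd4) (nat_lit 1073018224)]
noncomputable def e32_19 : List Rx := [
  Rx.mk (nat_lit 20) (nat_lit 4) (nat_lit 2) (nat_lit 0) (nat_lit 2) (nat_lit 344) (nat_lit 225) r6_344 r10_225 (nat_lit 281994) (nat_lit 0) (nat_lit 251735) (nat_lit 0x6f241602c) (nat_lit 1355411153),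
  Rx.mk (nat_lit 21) (nat_lit 5) (nat_lit 2) (nat_lit 0) (nat_lit 3) (nat_lit 349) (nat_lit 230) r6_349 r10_230 (nat_lit 0) (nat_lit 0) (nat_lit 2530520) (nat_lit 0x80595a13c) (nat_lit 1070741144),
  Rx.mk (nat_lit 52) (nat_lit 4) (nat_lit 6) (nat_lit 0) (nat_lit 2) (nat_lit 345) (nat_lit 228) r6_345 r10_228 (nat_lit 251735) (nat_lit 0) (nat_lit 281994) (nat_lit 0x6f241602c) (nat_lit 1355411153),
  Rx.mk (nat_lit 53) (nat_lit 5) (nat_lit 6) (nat_lit 0) (nat_lit 3) (nat_lit 350) (nat_lit 233) r6_350 r10_233 (nat_lit 0) (nat_lit 0) (nat_lit 1889821) (nat_lit 0x80c097fde) (nat_lit 1063560645),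
  Rx.mk (nat_lit 55) (nat_lit 7) (nat_lit 6) (nat_lit 0) (nat_lit 3) (nat_lit 354) (nat_lit 235) r6_354 r10_235 (nat_lit 0) (nat_lit 0) (nat_lit 1889821) (nat_lit 0x80c097962) (nat_lit 1063560745),
  Rx.mk (nat_lit 84) (nat_lit 4) (nat_lit 2) (nat_lit 1) (nat_lit 6) (nat_lit 346) (nat_lit 226) r6_346 r10_226 (nat_lit 1889821) (nat_lit 0) (nat_lit 0) (nat_lit 0x80c097fde) (nat_lit 1063560645),
  Rx.mk (nat_lit 85) (nat_lit 5) (nat_lit 2) (nat_lit 1) (nat_lit 7) (nat_lit 351) (nat_lit 231) r6_351 r10_231 (nat_lit 0) (nat_lit 0) (nat_lit 0) (nat_lit 0x802855af0) (nat_lit 1071328824),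
  Rx.mk (nat_lit 116) (nat_lit 4) (nat_lit 6) (nat_lit 1) (nat_lit 6) (nat_lit 347) (nat_lit 229) r6_347 r10_229 (nat_lit 2530520) (nat_lit 0) (nat_lit 0) (nat_lit 0x80595a13c) (nat_lit 1070741144),
  Rx.mk (nat_lit 117) (nat_lit 5) (nat_lit 6) (nat_lit 1) (nat_lit 7) (nat_lit 352) (nat_lit 234) r6_352 r10_234 (nat_lit 0) (nat_lit 0) (nat_lit 0) (nat_lit 0x802855af0) (nat_lit 1071328824),
  Rx.mk (nat_lit 119) (nat_lit 7) (nat_lit 6) (nat_lit 1) (nat_lit 7) (nat_lit 355) (nat_lit 236) r6_355 r10_236 (nat_lit 0) (nat_lit 0) (nat_lit 0) (nat_lit 0x802855af0) (nat_lit 1071328824),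
  Rx.mk (nat_lit 212) (nat_lit 4) (nat_lit 2) (nat_lit 3) (nat_lit 6) (nat_lit 348) (nat_lit 227) r6_348 r10_227 (nat_lit 1889821) (nat_lit 0) (nat_lit 0) (nat_lit 0x80c097962) (nat_lit 1063560745),
  Rx.mk (nat_lit 213) (nat_lit 5) (nat_lit 2) (nat_lit 3) (nat_lit 7) (nat_lit 353) (nat_lit 232) r6_353 r10_232 (nat_lit 0) (nat_lit 0) (nat_lit 0) (nat_lit 0x802855af0) (nat_lit 1071328824)]
noncomputable def e32_20 : List Rx := [
  Rx.mk (nat_lit 52) (nat_lit 4) (nat_lit 6) (nat_lit 0) (nat_lit 2) (nat_lit 356) (nat_lit 267) r6_356 r11_267 (nat_lit 1198594) (nat_lit 0) (nat_lit 1583871) (nat_lit 0x786c3fe62) (nat_lit 1202933889),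
  Rx.mk (nat_lit 53) (nat_lit 5) (nat_lit 6) (nat_lit 0) (nat_lit 3) (nat_lit 359) (nat_lit 270) r6_359 r11_270 (nat_lit 0) (nat_lit 0) (nat_lit 3783142) (nat_lit 0x8026e504e) (nat_lit 1075205966),
  Rx.mk (nat_lit 55) (nat_lit 7) (nat_lit 6) (nat_lit 0) (nat_lit 3) (nat_lit 362) (nat_lit 272) r6_362 r11_272 (nat_lit 0) (nat_lit 0) (nat_lit 4589682) (nat_lit 0x80102e396) (nat_lit 1077461506),
  Rx.mk (nat_lit 212) (nat_lit 4) (nat_lit 2) (nat_lit 3) (nat_lit 6) (nat_lit 357) (nat_lit 266) r6_357 r11_266 (nat_lit 670567) (nat_lit 0) (nat_lit 0) (nat_lit 0x815ed8932) (nat_lit 1052331991),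
  Rx.mk (nat_lit 213) (nat_lit 5) (nat_lit 2) (nat_lit 3) (nat_lit 7) (nat_lit 360) (nat_lit 269) r6_360 r11_269 (nat_lit 0) (nat_lit 0) (nat_lit 0) (nat_lit 0xa8336d212) (nat_lit 423737724),
  Rx.mk (nat_lit 244) (nat_lit 4) (nat_lit 6) (nat_lit 3) (nat_lit 6) (nat_lit 358) (nat_lit 268) r6_358 r11_268 (nat_lit 2725786) (nat_lit 0) (nat_lit 0) (nat_lit 0x80237ab70) (nat_lit 1074362110),
  Rx.mk (nat_lit 245) (nat_lit 5) (nat_lit 6) (nat_lit 3) (nat_lit 7) (nat_lit 361) (nat_lit 271) r6_361 r11_271 (nat_lit 0) (nat_lit 0) (nat_lit 0) (nat_lit 0x80029938e) (nat_lit 1073741824)]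
noncomputable def e32_21 : List Rx := [
  Rx.mk (nat_lit 326) (nat_lit 6) (nat_lit 0) (nat_lit 5) (nat_lit 5) (nat_lit 319) (nat_lit 241) r6_319 r9_241 (nat_lit 0) (nat_lit 6014731) (nat_lit 0) (nat_lit 0x7fa23117c) (nat_lit 1085990655),
  Rx.mk (nat_lit 334) (nat_lit 6) (nat_lit 1) (nat_lit 5) (nat_lit 7) (nat_lit 320) (nat_lit 242) r6_320 r9_242 (nat_lit 0) (nat_lit 0) (nat_lit 0) (nat_lit 0x80029938e) (nat_lit 1073741824),
  Rx.mk (nat_lit 342) (nat_lit 6) (nat_lit 2) (nat_lit 5) (nat_lit 7) (nat_lit 321) (nat_lit 243) r6_321 r9_243 (nat_lit 0) (nat_lit 0) (nat_lit 0) (nat_lit 0x80029938e) (nat_lit 1073741824)]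
noncomputable def e32_22 : List Rx := [
  Rx.mk (nat_lit 262) (nat_lit 6) (nat_lit 0) (nat_lit 4) (nat_lit 1) (nat_lit 51) (nat_lit 82) r6_51 r0_82 (nat_lit 0) (nat_lit 191551) (nat_lit 287545) (nat_lit 0x5ae6ab8ae) (nat_lit 1692810020),
  Rx.mk (nat_lit 270) (nat_lit 6) (nat_lit 1) (nat_lit 4) (nat_lit 3) (nat_lit 52) (nat_lit 83) r6_52 r0_83 (nat_lit 0) (nat_lit 0) (nat_lit 3246351) (nat_lit 0x7f1f1dac4) (nat_lit 1091721275),
  Rx.mk (nat_lit 278) (nat_lit 6) (nat_lit 2) (nat_lit 4) (nat_lit 3) (nat_lit 53) (nat_lit 84) r6_53 r0_84 (nat_lit 0) (nat_lit 0) (nat_lit 1684651) (nat_lit 0x7dfbf60f6) (nat_lit 1109116275),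
  Rx.mk (nat_lit 386) (nat_lit 2) (nat_lit 0) (nat_lit 6) (nat_lit 5) (nat_lit 49) (nat_lit 85) r6_49 r0_85 (nat_lit 0) (nat_lit 726571) (nat_lit 0) (nat_lit 0x8053e60c0) (nat_lit 1069259595),
  Rx.mk (nat_lit 390) (nat_lit 6) (nat_lit 0) (nat_lit 6) (nat_lit 5) (nat_lit 54) (nat_lit 87) r6_54 r0_87 (nat_lit 0) (nat_lit 1891802) (nat_lit 0) (nat_lit 0x7e43297ac) (nat_lit 1104700826),
  Rx.mk (nat_lit 394) (nat_lit 2) (nat_lit 1) (nat_lit 6) (nat_lit 7) (nat_lit 50) (nat_lit 86) r6_50 r0_86 (nat_lit 0) (nat_lit 0) (nat_lit 0) (nat_lit 0x95d9fc690) (nat_lit 720454924),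
  Rx.mk (nat_lit 398) (nat_lit 6) (nat_lit 1) (nat_lit 6) (nat_lit 7) (nat_lit 55) (nat_lit 88) r6_55 r0_88 (nat_lit 0) (nat_lit 0) (nat_lit 0) (nat_lit 0x823b44524) (nat_lit 1037739424)]
noncomputable def e32_23 : List Rx := [
  Rx.mk (nat_lit 270) (nat_lit 6) (nat_lit 1) (nat_lit 4) (nat_lit 3) (nat_lit 57) (nat_lit 88) r6_57 r1_88 (nat_lit 0) (nat_lit 0) (nat_lit 2919225) (nat_lit 0x8031e1df8) (nat_lit 1073634549),
  Rx.mk (nat_lit 394) (nat_lit 2) (nat_lit 1) (nat_lit 6) (nat_lit 7) (nat_lit 56) (nat_lit 89) r6_56 r1_89 (nat_lit 0) (nat_lit 0) (nat_lit 0) (nat_lit 0x997d38914) (nat_lit 661632824),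
  Rx.mk (nat_lit 398) (nat_lit 6) (nat_lit 1) (nat_lit 6) (nat_lit 7) (nat_lit 58) (nat_lit 90) r6_58 r1_90 (nat_lit 0) (nat_lit 0) (nat_lit 0) (nat_lit 0x80844da2e) (nat_lit 1065486024)]
noncomputable def e32_24 : List Rx := [
  Rx.mk (nat_lit 262) (nat_lit 6) (nat_lit 0) (nat_lit 4) (nat_lit 1) (nat_lit 62) (nat_lit 78) r6_62 r4_78 (nat_lit 0) (nat_lit 458330) (nat_lit 618791) (nat_lit 0x6b49c39f4) (nat_lit 1420200045),
  Rx.mk (nat_lit 270) (nat_lit 6) (nat_lit 1) (nat_lit 4) (nat_lit 3) (nat_lit 63) (nat_lit 79) r6_63 r4_79 (nat_lit 0) (nat_lit 0) (nat_lit 2091838) (nat_lit 0x8027fc3e2) (nat_lit 1073434162),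
  Rx.mk (nat_lit 278) (nat_lit 6) (nat_lit 2) (nat_lit 4) (nat_lit 3) (nat_lit 64) (nat_lit 80) r6_64 r4_80 (nat_lit 0) (nat_lit 0) (nat_lit 2733861) (nat_lit 0x7eb79fd52) (nat_lit 1097952985),
  Rx.mk (nat_lit 386) (nat_lit 2) (nat_lit 0) (nat_lit 6) (nat_lit 5) (nat_lit 59) (nat_lit 84) r6_59 r4_84 (nat_lit 0) (nat_lit 882081) (nat_lit 0) (nat_lit 0x802bbc932) (nat_lit 1071969705),
  Rx.mk (nat_lit 390) (nat_lit 6) (nat_lit 0) (nat_lit 6) (nat_lit 5) (nat_lit 65) (nat_lit 87) r6_65 r4_87 (nat_lit 0) (nat_lit 1499729) (nat_lit 0) (nat_lit 0x80082f4b0) (nat_lit 1074869353),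
  Rx.mk (nat_lit 394) (nat_lit 2) (nat_lit 1) (nat_lit 6) (nat_lit 7) (nat_lit 60) (nat_lit 85) r6_60 r4_85 (nat_lit 0) (nat_lit 0) (nat_lit 0) (nat_lit 0x80900e8b8) (nat_lit 1064743624),
  Rx.mk (nat_lit 398) (nat_lit 6) (nat_lit 1) (nat_lit 6) (nat_lit 7) (nat_lit 66) (nat_lit 88) r6_66 r4_88 (nat_lit 0) (nat_lit 0) (nat_lit 0) (nat_lit 0x802e4a924) (nat_lit 1070947924),
  Rx.mk (nat_lit 410) (nat_lit 2) (nat_lit 3) (nat_lit 6) (nat_lit 7) (nat_lit 61) (nat_lit 86) r6_61 r4_86 (nat_lit 0) (nat_lit 0) (nat_lit 0) (nat_lit 0x809f929ec) (nat_lit 1063761924),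
  Rx.mk (nat_lit 454) (nat_lit 6) (nat_lit 0) (nat_lit 7) (nat_lit 5) (nat_lit 67) (nat_lit 81) r6_67 r4_81 (nat_lit 0) (nat_lit 21394) (nat_lit 0) (nat_lit 0x59eab61f2) (nat_lit 1708731518),
  Rx.mk (nat_lit 462) (nat_lit 6) (nat_lit 1) (nat_lit 7) (nat_lit 7) (nat_lit 68) (nat_lit 82) r6_68 r4_82 (nat_lit 0) (nat_lit 0) (nat_lit 0) (nat_lit 0x802f01e94) (nat_lit 1070886824),
  Rx.mk (nat_lit 470) (nat_lit 6) (nat_lit 2) (nat_lit 7) (nat_lit 7) (nat_lit 69) (nat_lit 83) r6_69 r4_83 (nat_lit 0) (nat_lit 0) (nat_lit 0) (nat_lit 0x80040e246) (nat_lit 1073614524)]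
noncomputable def e32_25 : List Rx := [
  Rx.mk (nat_lit 262) (nat_lit 6) (nat_lit 0) (nat_lit 4) (nat_lit 1) (nat_lit 195) (nat_lit 293) r6_195 r7_293 (nat_lit 0) (nat_lit 264914) (nat_lit 277079) (nat_lit 0x6d02a6830) (nat_lit 1390940117),
  Rx.mk (nat_lit 270) (nat_lit 6) (nat_lit 1) (nat_lit 4) (nat_lit 3) (nat_lit 196) (nat_lit 297) r6_196 r7_297 (nat_lit 0) (nat_lit 0) (nat_lit 2237591) (nat_lit 0x8056375b8) (nat_lit 1070643615),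
  Rx.mk (nat_lit 278) (nat_lit 6) (nat_lit 2) (nat_lit 4) (nat_lit 3) (nat_lit 197) (nat_lit 301) r6_197 r7_301 (nat_lit 0) (nat_lit 0) (nat_lit 1598900) (nat_lit 0x80a515d4c) (nat_lit 1065015624),
  Rx.mk (nat_lit 326) (nat_lit 6) (nat_lit 0) (nat_lit 5) (nat_lit 5) (nat_lit 198) (nat_lit 294) r6_198 r7_294 (nat_lit 0) (nat_lit 1891092) (nat_lit 0) (nat_lit 0x8064b8aba) (nat_lit 1069380816),
  Rx.mk (nat_lit 334) (nat_lit 6) (nat_lit 1) (nat_lit 5) (nat_lit 7) (nat_lit 199) (nat_lit 298) r6_199 r7_298 (nat_lit 0) (nat_lit 0) (nat_lit 0) (nat_lit 0x804959148) (nat_lit 1069226624),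
  Rx.mk (nat_lit 342) (nat_lit 6) (nat_lit 2) (nat_lit 5) (nat_lit 7) (nat_lit 200) (nat_lit 302) r6_200 r7_302 (nat_lit 0) (nat_lit 0) (nat_lit 0) (nat_lit 0x80aedf3b4) (nat_lit 1062792024),
  Rx.mk (nat_lit 386) (nat_lit 2) (nat_lit 0) (nat_lit 6) (nat_lit 5) (nat_lit 193) (nat_lit 296) r6_193 r7_296 (nat_lit 0) (nat_lit 1281739) (nat_lit 0) (nat_lit 0x8015d28a6) (nat_lit 1073788363),
  Rx.mk (nat_lit 390) (nat_lit 6) (nat_lit 0) (nat_lit 6) (nat_lit 5) (nat_lit 201) (nat_lit 295) r6_201 r7_295 (nat_lit 0) (nat_lit 5719758) (nat_lit 0) (nat_lit 0x7fc989026) (nat_lit 1083137982),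
  Rx.mk (nat_lit 394) (nat_lit 2) (nat_lit 1) (nat_lit 6) (nat_lit 7) (nat_lit 194) (nat_lit 300) r6_194 r7_300 (nat_lit 0) (nat_lit 0) (nat_lit 0) (nat_lit 0x80f0600f4) (nat_lit 1058649324),
  Rx.mk (nat_lit 398) (nat_lit 6) (nat_lit 1) (nat_lit 6) (nat_lit 7) (nat_lit 202) (nat_lit 299) r6_202 r7_299 (nat_lit 0) (nat_lit 0) (nat_lit 0) (nat_lit 0x80029938e) (nat_lit 1073741824)]
noncomputable def e32_26 : List Rx := [
  Rx.mk (nat_lit 270) (nat_lit 6) (nat_lit 1) (nat_lit 4) (nat_lit 3) (nat_lit 207) (nat_lit 221) r6_207 r8_221 (nat_lit 0) (nat_lit 0) (nat_lit 5449534) (nat_lit 0x80029938e) (nat_lit 1079191358),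
  Rx.mk (nat_lit 334) (nat_lit 6) (nat_lit 1) (nat_lit 5) (nat_lit 7) (nat_lit 208) (nat_lit 222) r6_208 r8_222 (nat_lit 0) (nat_lit 0) (nat_lit 0) (nat_lit 0x80029938e) (nat_lit 1073741824),
  Rx.mk (nat_lit 394) (nat_lit 2) (nat_lit 1) (nat_lit 6) (nat_lit 7) (nat_lit 206) (nat_lit 224) r6_206 r8_224 (nat_lit 0) (nat_lit 0) (nat_lit 0) (nat_lit 0x8065dab1e) (nat_lit 1067416324),
  Rx.mk (nat_lit 398) (nat_lit 6) (nat_lit 1) (nat_lit 6) (nat_lit 7) (nat_lit 209) (nat_lit 223) r6_209 r8_223 (nat_lit 0) (nat_lit 0) (nat_lit 0) (nat_lit 0x80029938e) (nat_lit 1073741824)]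
noncomputable def e32_27 : List Rx := [
  Rx.mk (nat_lit 326) (nat_lit 6) (nat_lit 0) (nat_lit 5) (nat_lit 5) (nat_lit 203) (nat_lit 71) r6_203 r8_71 (nat_lit 0) (nat_lit 1883603) (nat_lit 0) (nat_lit 0x8036af1e6) (nat_lit 1072289527),
  Rx.mk (nat_lit 334) (nat_lit 6) (nat_lit 1) (nat_lit 5) (nat_lit 7) (nat_lit 204) (nat_lit 72) r6_204 r8_72 (nat_lit 0) (nat_lit 0) (nat_lit 0) (nat_lit 0x8037bf9e6) (nat_lit 1070345324),
  Rx.mk (nat_lit 342) (nat_lit 6) (nat_lit 2) (nat_lit 5) (nat_lit 7) (nat_lit 205) (nat_lit 73) r6_205 r8_73 (nat_lit 0) (nat_lit 0) (nat_lit 0) (nat_lit 0x804b0c5b2) (nat_lit 1069117724)]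
noncomputable def e32_28 : List Rx := [
  Rx.mk (nat_lit 262) (nat_lit 6) (nat_lit 0) (nat_lit 4) (nat_lit 1) (nat_lit 213) (nat_lit 244) r6_213 r10_244 (nat_lit 0) (nat_lit 325610) (nat_lit 315034) (nat_lit 0x6c8871394) (nat_lit 1399003668),
  Rx.mk (nat_lit 270) (nat_lit 6) (nat_lit 1) (nat_lit 4) (nat_lit 3) (nat_lit 214) (nat_lit 249) r6_214 r10_249 (nat_lit 0) (nat_lit 0) (nat_lit 2919586) (nat_lit 0x8040ec42e) (nat_lit 1072682510),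
  Rx.mk (nat_lit 278) (nat_lit 6) (nat_lit 2) (nat_lit 4) (nat_lit 3) (nat_lit 215) (nat_lit 254) r6_215 r10_254 (nat_lit 0) (nat_lit 0) (nat_lit 1567710) (nat_lit 0x8053e18e0) (nat_lit 1070118234),
  Rx.mk (nat_lit 326) (nat_lit 6) (nat_lit 0) (nat_lit 5) (nat_lit 5) (nat_lit 216) (nat_lit 245) r6_216 r10_245 (nat_lit 0) (nat_lit 2104035) (nat_lit 0) (nat_lit 0x8089df83e) (nat_lit 1067238059),
  Rx.mk (nat_lit 342) (nat_lit 6) (nat_lit 2) (nat_lit 5) (nat_lit 7) (nat_lit 217) (nat_lit 255) r6_217 r10_255 (nat_lit 0) (nat_lit 0) (nat_lit 0) (nat_lit 0x809b6df60) (nat_lit 1064022524),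
  Rx.mk (nat_lit 386) (nat_lit 2) (nat_lit 0) (nat_lit 6) (nat_lit 5) (nat_lit 210) (nat_lit 248) r6_210 r10_248 (nat_lit 0) (nat_lit 1425998) (nat_lit 0) (nat_lit 0x8011ef310) (nat_lit 1074173622),
  Rx.mk (nat_lit 390) (nat_lit 6) (nat_lit 0) (nat_lit 6) (nat_lit 5) (nat_lit 218) (nat_lit 247) r6_218 r10_247 (nat_lit 0) (nat_lit 5449534) (nat_lit 0) (nat_lit 0x7febd1840) (nat_lit 1080657058),
  Rx.mk (nat_lit 394) (nat_lit 2) (nat_lit 1) (nat_lit 6) (nat_lit 7) (nat_lit 211) (nat_lit 252) r6_211 r10_252 (nat_lit 0) (nat_lit 0) (nat_lit 0) (nat_lit 0x8099ba880) (nat_lit 1064130224),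
  Rx.mk (nat_lit 398) (nat_lit 6) (nat_lit 1) (nat_lit 6) (nat_lit 7) (nat_lit 219) (nat_lit 251) r6_219 r10_251 (nat_lit 0) (nat_lit 0) (nat_lit 0) (nat_lit 0x80029938e) (nat_lit 1073741824),
  Rx.mk (nat_lit 410) (nat_lit 2) (nat_lit 3) (nat_lit 6) (nat_lit 7) (nat_lit 212) (nat_lit 253) r6_212 r10_253 (nat_lit 0) (nat_lit 0) (nat_lit 0) (nat_lit 0x8099ba880) (nat_lit 1064130224),
  Rx.mk (nat_lit 454) (nat_lit 6) (nat_lit 0) (nat_lit 7) (nat_lit 5) (nat_lit 220) (nat_lit 246) r6_220 r10_246 (nat_lit 0) (nat_lit 2104035) (nat_lit 0) (nat_lit 0x8089df83e) (nat_lit 1067238059),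
  Rx.mk (nat_lit 462) (nat_lit 6) (nat_lit 1) (nat_lit 7) (nat_lit 7) (nat_lit 221) (nat_lit 250) r6_221 r10_250 (nat_lit 0) (nat_lit 0) (nat_lit 0) (nat_lit 0x80192ccea) (nat_lit 1072297024),
  Rx.mk (nat_lit 470) (nat_lit 6) (nat_lit 2) (nat_lit 7) (nat_lit 7) (nat_lit 222) (nat_lit 256) r6_222 r10_256 (nat_lit 0) (nat_lit 0) (nat_lit 0) (nat_lit 0x809b6df60) (nat_lit 1064022524)]
noncomputable def e32_29 : List Rx := [
  Rx.mk (nat_lit 454) (nat_lit 6) (nat_lit 0) (nat_lit 7) (nat_lit 5) (nat_lit 254) (nat_lit 284) r6_254 r11_284 (nat_lit 0) (nat_lit 424298) (nat_lit 0) (nat_lit 0x882e6edee) (nat_lit 941930922),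
  Rx.mk (nat_lit 462) (nat_lit 6) (nat_lit 1) (nat_lit 7) (nat_lit 7) (nat_lit 255) (nat_lit 285) r6_255 r11_285 (nat_lit 0) (nat_lit 0) (nat_lit 0) (nat_lit 0xa352ba304) (nat_lit 502613624),
  Rx.mk (nat_lit 470) (nat_lit 6) (nat_lit 2) (nat_lit 7) (nat_lit 7) (nat_lit 256) (nat_lit 286) r6_256 r11_286 (nat_lit 0) (nat_lit 0) (nat_lit 0) (nat_lit 0x9a931abc8) (nat_lit 644086424)]
noncomputable def e32_30 : List Rx := [
  Rx.mk (nat_lit 20) (nat_lit 4) (nat_lit 2) (nat_lit 0) (nat_lit 2) (nat_lit 363) (nat_lit 232) r6_363 r5_232 (nat_lit 369792) (nat_lit 0) (nat_lit 398639) (nat_lit 0x7a2eaa5be) (nat_lit 1171560755),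
  Rx.mk (nat_lit 23) (nat_lit 7) (nat_lit 2) (nat_lit 0) (nat_lit 3) (nat_lit 365) (nat_lit 233) r6_365 r5_233 (nat_lit 0) (nat_lit 0) (nat_lit 1584864) (nat_lit 0x83f760f68) (nat_lit 1011269188),
  Rx.mk (nat_lit 55) (nat_lit 7) (nat_lit 6) (nat_lit 0) (nat_lit 3) (nat_lit 366) (nat_lit 231) r6_366 r5_231 (nat_lit 0) (nat_lit 0) (nat_lit 13815) (nat_lit 0x85fe01f32) (nat_lit 976860439),
  Rx.mk (nat_lit 212) (nat_lit 4) (nat_lit 2) (nat_lit 3) (nat_lit 6) (nat_lit 364) (nat_lit 234) r6_364 r5_234 (nat_lit 503576) (nat_lit 0) (nat_lit 0) (nat_lit 0x81fec8a00) (nat_lit 1042043700)]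
noncomputable def e32_31 : List Rx := [
  Rx.mk (nat_lit 20) (nat_lit 4) (nat_lit 2) (nat_lit 0) (nat_lit 2) (nat_lit 367) (nat_lit 267) r6_367 r11_267 (nat_lit 1583871) (nat_lit 0) (nat_lit 1198594) (nat_lit 0x786c3fe62) (nat_lit 1202933889),
  Rx.mk (nat_lit 23) (nat_lit 7) (nat_lit 2) (nat_lit 0) (nat_lit 3) (nat_lit 370) (nat_lit 268) r6_370 r11_268 (nat_lit 0) (nat_lit 0) (nat_lit 2725786) (nat_lit 0x80237ab70) (nat_lit 1074362110),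
  Rx.mk (nat_lit 55) (nat_lit 7) (nat_lit 6) (nat_lit 0) (nat_lit 3) (nat_lit 371) (nat_lit 266) r6_371 r11_266 (nat_lit 0) (nat_lit 0) (nat_lit 670567) (nat_lit 0x815ed8932) (nat_lit 1052331991),
  Rx.mk (nat_lit 84) (nat_lit 4) (nat_lit 2) (nat_lit 1) (nat_lit 6) (nat_lit 368) (nat_lit 270) r6_368 r11_270 (nat_lit 3783142) (nat_lit 0) (nat_lit 0) (nat_lit 0x8026e504e) (nat_lit 1075205966),
  Rx.mk (nat_lit 87) (nat_lit 7) (nat_lit 2) (nat_lit 1) (nat_lit 7) (nat_lit 372) (nat_lit 271) r6_372 r11_271 (nat_lit 0) (nat_lit 0) (nat_lit 0) (nat_lit 0x80029938e) (nat_lit 1073741824),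
  Rx.mk (nat_lit 119) (nat_lit 7) (nat_lit 6) (nat_lit 1) (nat_lit 7) (nat_lit 373) (nat_lit 269) r6_373 r11_269 (nat_lit 0) (nat_lit 0) (nat_lit 0) (nat_lit 0xa8336d212) (nat_lit 423737724),
  Rx.mk (nat_lit 212) (nat_lit 4) (nat_lit 2) (nat_lit 3) (nat_lit 6) (nat_lit 369) (nat_lit 272) r6_369 r11_272 (nat_lit 4589682) (nat_lit 0) (nat_lit 0) (nat_lit 0x80102e396) (nat_lit 1077461506)]
noncomputable def e32_32 : List Rx := [
  Rx.mk (nat_lit 51) (nat_lit 3) (nat_lit 6) (nat_lit 0) (nat_lit 3) (nat_lit 74) (nat_lit 80) r6_74 r6_80 (nat_lit 0) (nat_lit 0) (nat_lit 11902) (nat_lit 0x80146e1c2) (nat_lit 1072468926),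
  Rx.mk (nat_lit 163) (nat_lit 3) (nat_lit 4) (nat_lit 2) (nat_lit 5) (nat_lit 75) (nat_lit 82) r6_75 r6_82 (nat_lit 0) (nat_lit 27167) (nat_lit 0) (nat_lit 0x7fd616ed8) (nat_lit 1076507291),
  Rx.mk (nat_lit 179) (nat_lit 3) (nat_lit 6) (nat_lit 2) (nat_lit 7) (nat_lit 76) (nat_lit 84) r6_76 r6_84 (nat_lit 0) (nat_lit 0) (nat_lit 0) (nat_lit 0x802f1cff0) (nat_lit 1070795924),
  Rx.mk (nat_lit 184) (nat_lit 0) (nat_lit 7) (nat_lit 2) (nat_lit 6) (nat_lit 70) (nat_lit 79) r6_70 r6_79 (nat_lit 11902) (nat_lit 0) (nat_lit 0) (nat_lit 0x80146e1c2) (nat_lit 1072468926),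
  Rx.mk (nat_lit 186) (nat_lit 2) (nat_lit 7) (nat_lit 2) (nat_lit 7) (nat_lit 71) (nat_lit 87) r6_71 r6_87 (nat_lit 0) (nat_lit 0) (nat_lit 0) (nat_lit 0x7b87cf792) (nat_lit 1148325424),
  Rx.mk (nat_lit 187) (nat_lit 3) (nat_lit 7) (nat_lit 2) (nat_lit 7) (nat_lit 77) (nat_lit 83) r6_77 r6_83 (nat_lit 0) (nat_lit 0) (nat_lit 0) (nat_lit 0x802f1cff0) (nat_lit 1070795924),
  Rx.mk (nat_lit 215) (nat_lit 7) (nat_lit 2) (nat_lit 3) (nat_lit 7) (nat_lit 85) (nat_lit 73) r6_85 r6_73 (nat_lit 0) (nat_lit 0) (nat_lit 0) (nat_lit 0x800857a50) (nat_lit 1073242324),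
  Rx.mk (nat_lit 243) (nat_lit 3) (nat_lit 6) (nat_lit 3) (nat_lit 7) (nat_lit 78) (nat_lit 81) r6_78 r6_81 (nat_lit 0) (nat_lit 0) (nat_lit 0) (nat_lit 0x7b87cf792) (nat_lit 1148325424),
  Rx.mk (nat_lit 247) (nat_lit 7) (nat_lit 6) (nat_lit 3) (nat_lit 7) (nat_lit 86) (nat_lit 72) r6_86 r6_72 (nat_lit 0) (nat_lit 0) (nat_lit 0) (nat_lit 0x800857a50) (nat_lit 1073242324),
  Rx.mk (nat_lit 286) (nat_lit 6) (nat_lit 3) (nat_lit 4) (nat_lit 3) (nat_lit 80) (nat_lit 74) r6_80 r6_74 (nat_lit 0) (nat_lit 0) (nat_lit 11902) (nat_lit 0x80146e1c2) (nat_lit 1072468926),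
  Rx.mk (nat_lit 410) (nat_lit 2) (nat_lit 3) (nat_lit 6) (nat_lit 7) (nat_lit 72) (nat_lit 86) r6_72 r6_86 (nat_lit 0) (nat_lit 0) (nat_lit 0) (nat_lit 0x800857a50) (nat_lit 1073242324),
  Rx.mk (nat_lit 414) (nat_lit 6) (nat_lit 3) (nat_lit 6) (nat_lit 7) (nat_lit 81) (nat_lit 78) r6_81 r6_78 (nat_lit 0) (nat_lit 0) (nat_lit 0) (nat_lit 0x7b87cf792) (nat_lit 1148325424),
  Rx.mk (nat_lit 442) (nat_lit 2) (nat_lit 7) (nat_lit 6) (nat_lit 7) (nat_lit 73) (nat_lit 85) r6_73 r6_85 (nat_lit 0) (nat_lit 0) (nat_lit 0) (nat_lit 0x800857a50) (nat_lit 1073242324),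
  Rx.mk (nat_lit 454) (nat_lit 6) (nat_lit 0) (nat_lit 7) (nat_lit 5) (nat_lit 82) (nat_lit 75) r6_82 r6_75 (nat_lit 0) (nat_lit 27167) (nat_lit 0) (nat_lit 0x7fd616ed8) (nat_lit 1076507291),
  Rx.mk (nat_lit 468) (nat_lit 4) (nat_lit 2) (nat_lit 7) (nat_lit 6) (nat_lit 79) (nat_lit 70) r6_79 r6_70 (nat_lit 11902) (nat_lit 0) (nat_lit 0) (nat_lit 0x80146e1c2) (nat_lit 1072468926),
  Rx.mk (nat_lit 470) (nat_lit 6) (nat_lit 2) (nat_lit 7) (nat_lit 7) (nat_lit 83) (nat_lit 77) r6_83 r6_77 (nat_lit 0) (nat_lit 0) (nat_lit 0) (nat_lit 0x802f1cff0) (nat_lit 1070795924),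
  Rx.mk (nat_lit 471) (nat_lit 7) (nat_lit 2) (nat_lit 7) (nat_lit 7) (nat_lit 87) (nat_lit 71) r6_87 r6_71 (nat_lit 0) (nat_lit 0) (nat_lit 0) (nat_lit 0x7b87cf792) (nat_lit 1148325424),
  Rx.mk (nat_lit 478) (nat_lit 6) (nat_lit 3) (nat_lit 7) (nat_lit 7) (nat_lit 84) (nat_lit 76) r6_84 r6_76 (nat_lit 0) (nat_lit 0) (nat_lit 0) (nat_lit 0x802f1cff0) (nat_lit 1070795924)]
noncomputable def e32_33 : List Rx := [
  Rx.mk (nat_lit 262) (nat_lit 6) (nat_lit 0) (nat_lit 4) (nat_lit 1) (nat_lit 90) (nat_lit 70) r6_90 r5_70 (nat_lit 0) (nat_lit 16168) (nat_lit 22438) (nat_lit 0x7a1c8609a) (nat_lit 1171966330),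
  Rx.mk (nat_lit 278) (nat_lit 6) (nat_lit 2) (nat_lit 4) (nat_lit 3) (nat_lit 91) (nat_lit 72) r6_91 r5_72 (nat_lit 0) (nat_lit 0) (nat_lit 2825381) (nat_lit 0x7fbf7b2aa) (nat_lit 1080886705),
  Rx.mk (nat_lit 286) (nat_lit 6) (nat_lit 3) (nat_lit 4) (nat_lit 3) (nat_lit 92) (nat_lit 71) r6_92 r5_71 (nat_lit 0) (nat_lit 0) (nat_lit 1145575) (nat_lit 0x81615e058) (nat_lit 1052648999),
  Rx.mk (nat_lit 390) (nat_lit 6) (nat_lit 0) (nat_lit 6) (nat_lit 5) (nat_lit 93) (nat_lit 78) r6_93 r5_78 (nat_lit 0) (nat_lit 3813020) (nat_lit 0) (nat_lit 0x7e7fe50b0) (nat_lit 1102664344),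
  Rx.mk (nat_lit 410) (nat_lit 2) (nat_lit 3) (nat_lit 6) (nat_lit 7) (nat_lit 88) (nat_lit 77) r6_88 r5_77 (nat_lit 0) (nat_lit 0) (nat_lit 0) (nat_lit 0x7d806d86c) (nat_lit 1115429524),
  Rx.mk (nat_lit 414) (nat_lit 6) (nat_lit 3) (nat_lit 6) (nat_lit 7) (nat_lit 94) (nat_lit 79) r6_94 r5_79 (nat_lit 0) (nat_lit 0) (nat_lit 0) (nat_lit 0x8019076ca) (nat_lit 1072298224),
  Rx.mk (nat_lit 454) (nat_lit 6) (nat_lit 0) (nat_lit 7) (nat_lit 5) (nat_lit 95) (nat_lit 75) r6_95 r5_75 (nat_lit 0) (nat_lit 294333) (nat_lit 0) (nat_lit 0x869783e6c) (nat_lit 967494857),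
  Rx.mk (nat_lit 468) (nat_lit 4) (nat_lit 2) (nat_lit 7) (nat_lit 6) (nat_lit 89) (nat_lit 73) r6_89 r5_73 (nat_lit 826810) (nat_lit 0) (nat_lit 0) (nat_lit 0x802fe455a) (nat_lit 1071641334),
  Rx.mk (nat_lit 470) (nat_lit 6) (nat_lit 2) (nat_lit 7) (nat_lit 7) (nat_lit 96) (nat_lit 76) r6_96 r5_76 (nat_lit 0) (nat_lit 0) (nat_lit 0) (nat_lit 0x940158de4) (nat_lit 750318324),
  Rx.mk (nat_lit 471) (nat_lit 7) (nat_lit 2) (nat_lit 7) (nat_lit 7) (nat_lit 97) (nat_lit 74) r6_97 r5_74 (nat_lit 0) (nat_lit 0) (nat_lit 0) (nat_lit 0x804ab9c7c) (nat_lit 1069132524)]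
noncomputable def e32_34 : List Rx := [
  Rx.mk (nat_lit 262) (nat_lit 6) (nat_lit 0) (nat_lit 4) (nat_lit 1) (nat_lit 227) (nat_lit 54) r6_227 r11_54 (nat_lit 0) (nat_lit 1407149) (nat_lit 1343161) (nat_lit 0x737e36fbc) (nat_lit 1285096534),
  Rx.mk (nat_lit 276) (nat_lit 4) (nat_lit 2) (nat_lit 4) (nat_lit 2) (nat_lit 224) (nat_lit 53) r6_224 r11_53 (nat_lit 2307781) (nat_lit 0) (nat_lit 1282205) (nat_lit 0x7934fd052) (nat_lit 1190670010),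
  Rx.mk (nat_lit 278) (nat_lit 6) (nat_lit 2) (nat_lit 4) (nat_lit 3) (nat_lit 228) (nat_lit 56) r6_228 r11_56 (nat_lit 0) (nat_lit 0) (nat_lit 1786259) (nat_lit 0x808a883f8) (nat_lit 1066877983),
  Rx.mk (nat_lit 286) (nat_lit 6) (nat_lit 3) (nat_lit 4) (nat_lit 3) (nat_lit 229) (nat_lit 55) r6_229 r11_55 (nat_lit 0) (nat_lit 0) (nat_lit 2747444) (nat_lit 0x803990784) (nat_lit 1072977968),
  Rx.mk (nat_lit 326) (nat_lit 6) (nat_lit 0) (nat_lit 5) (nat_lit 5) (nat_lit 230) (nat_lit 58) r6_230 r11_58 (nat_lit 0) (nat_lit 4262738) (nat_lit 0) (nat_lit 0x801570c46) (nat_lit 1076797662),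
  Rx.mk (nat_lit 340) (nat_lit 4) (nat_lit 2) (nat_lit 5) (nat_lit 6) (nat_lit 225) (nat_lit 57) r6_225 r11_57 (nat_lit 5449534) (nat_lit 0) (nat_lit 0) (nat_lit 0x80029938e) (nat_lit 1079191358),
  Rx.mk (nat_lit 342) (nat_lit 6) (nat_lit 2) (nat_lit 5) (nat_lit 7) (nat_lit 231) (nat_lit 60) r6_231 r11_60 (nat_lit 0) (nat_lit 0) (nat_lit 0) (nat_lit 0x80159ec7c) (nat_lit 1072523724),
  Rx.mk (nat_lit 350) (nat_lit 6) (nat_lit 3) (nat_lit 5) (nat_lit 7) (nat_lit 232) (nat_lit 59) r6_232 r11_59 (nat_lit 0) (nat_lit 0) (nat_lit 0) (nat_lit 0x80029938e) (nat_lit 1073741824),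
  Rx.mk (nat_lit 390) (nat_lit 6) (nat_lit 0) (nat_lit 6) (nat_lit 5) (nat_lit 233) (nat_lit 66) r6_233 r11_66 (nat_lit 0) (nat_lit 3928738) (nat_lit 0) (nat_lit 0x80106e662) (nat_lit 1076782462),
  Rx.mk (nat_lit 410) (nat_lit 2) (nat_lit 3) (nat_lit 6) (nat_lit 7) (nat_lit 223) (nat_lit 65) r6_223 r11_65 (nat_lit 0) (nat_lit 0) (nat_lit 0) (nat_lit 0x95ec9a496) (nat_lit 719290124),
  Rx.mk (nat_lit 414) (nat_lit 6) (nat_lit 3) (nat_lit 6) (nat_lit 7) (nat_lit 234) (nat_lit 67) r6_234 r11_67 (nat_lit 0) (nat_lit 0) (nat_lit 0) (nat_lit 0x801118d6a) (nat_lit 1072812524),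
  Rx.mk (nat_lit 454) (nat_lit 6) (nat_lit 0) (nat_lit 7) (nat_lit 5) (nat_lit 235) (nat_lit 63) r6_235 r11_63 (nat_lit 0) (nat_lit 3738478) (nat_lit 0) (nat_lit 0x8024ee42a) (nat_lit 1075285302),
  Rx.mk (nat_lit 468) (nat_lit 4) (nat_lit 2) (nat_lit 7) (nat_lit 6) (nat_lit 226) (nat_lit 61) r6_226 r11_61 (nat_lit 3994773) (nat_lit 0) (nat_lit 0) (nat_lit 0x801c09594) (nat_lit 1076108397),
  Rx.mk (nat_lit 470) (nat_lit 6) (nat_lit 2) (nat_lit 7) (nat_lit 7) (nat_lit 236) (nat_lit 64) r6_236 r11_64 (nat_lit 0) (nat_lit 0) (nat_lit 0) (nat_lit 0x80159ec7c) (nat_lit 1072523724),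
  Rx.mk (nat_lit 471) (nat_lit 7) (nat_lit 2) (nat_lit 7) (nat_lit 7) (nat_lit 237) (nat_lit 62) r6_237 r11_62 (nat_lit 0) (nat_lit 0) (nat_lit 0) (nat_lit 0x800b91806) (nat_lit 1073166724)]
noncomputable def e32_35 : List Rx := [
  Rx.mk (nat_lit 23) (nat_lit 7) (nat_lit 2) (nat_lit 0) (nat_lit 3) (nat_lit 261) (nat_lit 257) r6_261 r6_257 (nat_lit 0) (nat_lit 0) (nat_lit 746296) (nat_lit 0x7fb13a506) (nat_lit 1079702620),
  Rx.mk (nat_lit 51) (nat_lit 3) (nat_lit 6) (nat_lit 0) (nat_lit 3) (nat_lit 257) (nat_lit 261) r6_257 r6_261 (nat_lit 0) (nat_lit 0) (nat_lit 746296) (nat_lit 0x7fb13a506) (nat_lit 1079702620),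
  Rx.mk (nat_lit 55) (nat_lit 7) (nat_lit 6) (nat_lit 0) (nat_lit 3) (nat_lit 262) (nat_lit 262) r6_262 r6_262 (nat_lit 0) (nat_lit 0) (nat_lit 207111) (nat_lit 0x7fdbf9314) (nat_lit 1076351135),
  Rx.mk (nat_lit 163) (nat_lit 3) (nat_lit 4) (nat_lit 2) (nat_lit 5) (nat_lit 258) (nat_lit 260) r6_258 r6_260 (nat_lit 0) (nat_lit 85480) (nat_lit 0) (nat_lit 0x80034bb88) (nat_lit 1073659004),
  Rx.mk (nat_lit 179) (nat_lit 3) (nat_lit 6) (nat_lit 2) (nat_lit 7) (nat_lit 259) (nat_lit 263) r6_259 r6_263 (nat_lit 0) (nat_lit 0) (nat_lit 0) (nat_lit 0x8b96934e4) (nat_lit 886418024),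
  Rx.mk (nat_lit 212) (nat_lit 4) (nat_lit 2) (nat_lit 3) (nat_lit 6) (nat_lit 260) (nat_lit 258) r6_260 r6_258 (nat_lit 85480) (nat_lit 0) (nat_lit 0) (nat_lit 0x80034bb88) (nat_lit 1073659004),
  Rx.mk (nat_lit 215) (nat_lit 7) (nat_lit 2) (nat_lit 3) (nat_lit 7) (nat_lit 263) (nat_lit 259) r6_263 r6_259 (nat_lit 0) (nat_lit 0) (nat_lit 0) (nat_lit 0x8b96934e4) (nat_lit 886418024)]
noncomputable def e32_36 : List Rx := [
  Rx.mk (nat_lit 51) (nat_lit 3) (nat_lit 6) (nat_lit 0) (nat_lit 3) (nat_lit 264) (nat_lit 260) r6_264 r12_260 (nat_lit 0) (nat_lit 0) (nat_lit 77873) (nat_lit 0x7ef96640c) (nat_lit 1090946797),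
  Rx.mk (nat_lit 55) (nat_lit 7) (nat_lit 6) (nat_lit 0) (nat_lit 3) (nat_lit 273) (nat_lit 265) r6_273 r12_265 (nat_lit 0) (nat_lit 0) (nat_lit 25761) (nat_lit 0x7e6206ba2) (nat_lit 1100737685),
  Rx.mk (nat_lit 163) (nat_lit 3) (nat_lit 4) (nat_lit 2) (nat_lit 5) (nat_lit 265) (nat_lit 258) r6_265 r12_258 (nat_lit 0) (nat_lit 103466) (nat_lit 0) (nat_lit 0x7e7552e22) (nat_lit 1099579590),
  Rx.mk (nat_lit 179) (nat_lit 3) (nat_lit 6) (nat_lit 2) (nat_lit 7) (nat_lit 266) (nat_lit 261) r6_266 r12_261 (nat_lit 0) (nat_lit 0) (nat_lit 0) (nat_lit 0x86d9d99ec) (nat_lit 963003824),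
  Rx.mk (nat_lit 187) (nat_lit 3) (nat_lit 7) (nat_lit 2) (nat_lit 7) (nat_lit 267) (nat_lit 259) r6_267 r12_259 (nat_lit 0) (nat_lit 0) (nat_lit 0) (nat_lit 0x878d6f6dc) (nat_lit 951659124),
  Rx.mk (nat_lit 212) (nat_lit 4) (nat_lit 2) (nat_lit 3) (nat_lit 6) (nat_lit 268) (nat_lit 262) r6_268 r12_262 (nat_lit 25761) (nat_lit 0) (nat_lit 0) (nat_lit 0x7e6206ba2) (nat_lit 1100737685),
  Rx.mk (nat_lit 215) (nat_lit 7) (nat_lit 2) (nat_lit 3) (nat_lit 7) (nat_lit 274) (nat_lit 264) r6_274 r12_264 (nat_lit 0) (nat_lit 0) (nat_lit 0) (nat_lit 0x800027d6c) (nat_lit 1073758024),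
  Rx.mk (nat_lit 247) (nat_lit 7) (nat_lit 6) (nat_lit 3) (nat_lit 7) (nat_lit 275) (nat_lit 266) r6_275 r12_266 (nat_lit 0) (nat_lit 0) (nat_lit 0) (nat_lit 0x800027d6c) (nat_lit 1073758024),
  Rx.mk (nat_lit 454) (nat_lit 6) (nat_lit 0) (nat_lit 7) (nat_lit 5) (nat_lit 270) (nat_lit 267) r6_270 r12_267 (nat_lit 0) (nat_lit 103466) (nat_lit 0) (nat_lit 0x7e7552e22) (nat_lit 1099579590),
  Rx.mk (nat_lit 468) (nat_lit 4) (nat_lit 2) (nat_lit 7) (nat_lit 6) (nat_lit 269) (nat_lit 263) r6_269 r12_263 (nat_lit 77873) (nat_lit 0) (nat_lit 0) (nat_lit 0x7ef96640c) (nat_lit 1090946797),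
  Rx.mk (nat_lit 470) (nat_lit 6) (nat_lit 2) (nat_lit 7) (nat_lit 7) (nat_lit 271) (nat_lit 269) r6_271 r12_269 (nat_lit 0) (nat_lit 0) (nat_lit 0) (nat_lit 0x86d9d99ec) (nat_lit 963003824),
  Rx.mk (nat_lit 478) (nat_lit 6) (nat_lit 3) (nat_lit 7) (nat_lit 7) (nat_lit 272) (nat_lit 268) r6_272 r12_268 (nat_lit 0) (nat_lit 0) (nat_lit 0) (nat_lit 0x878d6f6dc) (nat_lit 951659124)]
noncomputable def e32_37 : List Rx := [
  Rx.mk (nat_lit 160) (nat_lit 0) (nat_lit 4) (nat_lit 2) (nat_lit 4) (nat_lit 0) (nat_lit 82) r6_0 r0_82 (nat_lit 287545) (nat_lit 191551) (nat_lit 0) (nat_lit 0x5ae6ab8ae) (nat_lit 1692810020),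
  Rx.mk (nat_lit 162) (nat_lit 2) (nat_lit 4) (nat_lit 2) (nat_lit 5) (nat_lit 3) (nat_lit 87) r6_3 r0_87 (nat_lit 0) (nat_lit 1891802) (nat_lit 0) (nat_lit 0x7e43297ac) (nat_lit 1104700826),
  Rx.mk (nat_lit 168) (nat_lit 0) (nat_lit 5) (nat_lit 2) (nat_lit 6) (nat_lit 1) (nat_lit 83) r6_1 r0_83 (nat_lit 3246351) (nat_lit 0) (nat_lit 0) (nat_lit 0x7f1f1dac4) (nat_lit 1091721275),
  Rx.mk (nat_lit 170) (nat_lit 2) (nat_lit 5) (nat_lit 2) (nat_lit 7) (nat_lit 4) (nat_lit 88) r6_4 r0_88 (nat_lit 0) (nat_lit 0) (nat_lit 0) (nat_lit 0x823b44524) (nat_lit 1037739424),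
  Rx.mk (nat_lit 176) (nat_lit 0) (nat_lit 6) (nat_lit 2) (nat_lit 6) (nat_lit 2) (nat_lit 84) r6_2 r0_84 (nat_lit 1684651) (nat_lit 0) (nat_lit 0) (nat_lit 0x7dfbf60f6) (nat_lit 1109116275),
  Rx.mk (nat_lit 418) (nat_lit 2) (nat_lit 4) (nat_lit 6) (nat_lit 5) (nat_lit 5) (nat_lit 85) r6_5 r0_85 (nat_lit 0) (nat_lit 726571) (nat_lit 0) (nat_lit 0x8053e60c0) (nat_lit 1069259595),
  Rx.mk (nat_lit 426) (nat_lit 2) (nat_lit 5) (nat_lit 6) (nat_lit 7) (nat_lit 6) (nat_lit 86) r6_6 r0_86 (nat_lit 0) (nat_lit 0) (nat_lit 0) (nat_lit 0x95d9fc690) (nat_lit 720454924)]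
noncomputable def e32_38 : List Rx := [
  Rx.mk (nat_lit 48) (nat_lit 0) (nat_lit 6) (nat_lit 0) (nat_lit 2) (nat_lit 98) (nat_lit 232) r6_98 r0_232 (nat_lit 56818) (nat_lit 0) (nat_lit 73687) (nat_lit 0x686f2bb72) (nat_lit 1466800329),
  Rx.mk (nat_lit 49) (nat_lit 1) (nat_lit 6) (nat_lit 0) (nat_lit 3) (nat_lit 101) (nat_lit 233) r6_101 r0_233 (nat_lit 0) (nat_lit 0) (nat_lit 94559) (nat_lit 0x9073beac2) (nat_lit 807812083),
  Rx.mk (nat_lit 160) (nat_lit 0) (nat_lit 4) (nat_lit 2) (nat_lit 4) (nat_lit 99) (nat_lit 228) r6_99 r0_228 (nat_lit 21443) (nat_lit 21155) (nat_lit 0) (nat_lit 0x655f25c44) (nat_lit 1517763922),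
  Rx.mk (nat_lit 161) (nat_lit 1) (nat_lit 4) (nat_lit 2) (nat_lit 5) (nat_lit 102) (nat_lit 229) r6_102 r0_229 (nat_lit 0) (nat_lit 473428) (nat_lit 0) (nat_lit 0x8f3b0df94) (nat_lit 827965152),
  Rx.mk (nat_lit 162) (nat_lit 2) (nat_lit 4) (nat_lit 2) (nat_lit 5) (nat_lit 104) (nat_lit 230) r6_104 r0_230 (nat_lit 0) (nat_lit 2346346) (nat_lit 0) (nat_lit 0x7a9228b7c) (nat_lit 1166687270),
  Rx.mk (nat_lit 176) (nat_lit 0) (nat_lit 6) (nat_lit 2) (nat_lit 6) (nat_lit 100) (nat_lit 234) r6_100 r0_234 (nat_lit 2085900) (nat_lit 0) (nat_lit 0) (nat_lit 0x80175fe9e) (nat_lit 1074492124),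
  Rx.mk (nat_lit 177) (nat_lit 1) (nat_lit 6) (nat_lit 2) (nat_lit 7) (nat_lit 103) (nat_lit 235) r6_103 r0_235 (nat_lit 0) (nat_lit 0) (nat_lit 0) (nat_lit 0x90cc616de) (nat_lit 802175124),
  Rx.mk (nat_lit 418) (nat_lit 2) (nat_lit 4) (nat_lit 6) (nat_lit 5) (nat_lit 105) (nat_lit 231) r6_105 r0_231 (nat_lit 0) (nat_lit 1581921) (nat_lit 0) (nat_lit 0x7e87497a2) (nat_lit 1099940645)]
noncomputable def e32_39 : List Rx := [
  Rx.mk (nat_lit 160) (nat_lit 0) (nat_lit 4) (nat_lit 2) (nat_lit 4) (nat_lit 106) (nat_lit 78) r6_106 r7_78 (nat_lit 277079) (nat_lit 264914) (nat_lit 0) (nat_lit 0x6d02a6830) (nat_lit 1390940117),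
  Rx.mk (nat_lit 161) (nat_lit 1) (nat_lit 4) (nat_lit 2) (nat_lit 5) (nat_lit 109) (nat_lit 81) r6_109 r7_81 (nat_lit 0) (nat_lit 1891092) (nat_lit 0) (nat_lit 0x8064b8aba) (nat_lit 1069380816),
  Rx.mk (nat_lit 162) (nat_lit 2) (nat_lit 4) (nat_lit 2) (nat_lit 5) (nat_lit 112) (nat_lit 86) r6_112 r7_86 (nat_lit 0) (nat_lit 5719758) (nat_lit 0) (nat_lit 0x7fc989026) (nat_lit 1083137982),
  Rx.mk (nat_lit 168) (nat_lit 0) (nat_lit 5) (nat_lit 2) (nat_lit 6) (nat_lit 107) (nat_lit 79) r6_107 r7_79 (nat_lit 2237591) (nat_lit 0) (nat_lit 0) (nat_lit 0x8056375b8) (nat_lit 1070643615),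
  Rx.mk (nat_lit 169) (nat_lit 1) (nat_lit 5) (nat_lit 2) (nat_lit 7) (nat_lit 110) (nat_lit 82) r6_110 r7_82 (nat_lit 0) (nat_lit 0) (nat_lit 0) (nat_lit 0x804959148) (nat_lit 1069226624),
  Rx.mk (nat_lit 170) (nat_lit 2) (nat_lit 5) (nat_lit 2) (nat_lit 7) (nat_lit 113) (nat_lit 87) r6_113 r7_87 (nat_lit 0) (nat_lit 0) (nat_lit 0) (nat_lit 0x80029938e) (nat_lit 1073741824),
  Rx.mk (nat_lit 176) (nat_lit 0) (nat_lit 6) (nat_lit 2) (nat_lit 6) (nat_lit 108) (nat_lit 80) r6_108 r7_80 (nat_lit 1598900) (nat_lit 0) (nat_lit 0) (nat_lit 0x80a515d4c) (nat_lit 1065015624),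
  Rx.mk (nat_lit 177) (nat_lit 1) (nat_lit 6) (nat_lit 2) (nat_lit 7) (nat_lit 111) (nat_lit 83) r6_111 r7_83 (nat_lit 0) (nat_lit 0) (nat_lit 0) (nat_lit 0x80aedf3b4) (nat_lit 1062792024),
  Rx.mk (nat_lit 418) (nat_lit 2) (nat_lit 4) (nat_lit 6) (nat_lit 5) (nat_lit 114) (nat_lit 84) r6_114 r7_84 (nat_lit 0) (nat_lit 1281739) (nat_lit 0) (nat_lit 0x8015d28a6) (nat_lit 1073788363),
  Rx.mk (nat_lit 426) (nat_lit 2) (nat_lit 5) (nat_lit 6) (nat_lit 7) (nat_lit 115) (nat_lit 85) r6_115 r7_85 (nat_lit 0) (nat_lit 0) (nat_lit 0) (nat_lit 0x80f0600f4) (nat_lit 1058649324)]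
noncomputable def e32_40 : List Rx := [
  Rx.mk (nat_lit 49) (nat_lit 1) (nat_lit 6) (nat_lit 0) (nat_lit 3) (nat_lit 286) (nat_lit 269) r6_286 r2_269 (nat_lit 0) (nat_lit 0) (nat_lit 5695451) (nat_lit 0x7fda6cc12) (nat_lit 1082026575),
  Rx.mk (nat_lit 53) (nat_lit 5) (nat_lit 6) (nat_lit 0) (nat_lit 3) (nat_lit 289) (nat_lit 270) r6_289 r2_270 (nat_lit 0) (nat_lit 0) (nat_lit 7559055) (nat_lit 0x7fe1044e4) (nat_lit 1083462579),
  Rx.mk (nat_lit 161) (nat_lit 1) (nat_lit 4) (nat_lit 2) (nat_lit 5) (nat_lit 287) (nat_lit 268) r6_287 r2_268 (nat_lit 0) (nat_lit 16748008) (nat_lit 0) (nat_lit 0x7f8b4521a) (nat_lit 1098207132),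
  Rx.mk (nat_lit 177) (nat_lit 1) (nat_lit 6) (nat_lit 2) (nat_lit 7) (nat_lit 288) (nat_lit 271) r6_288 r2_271 (nat_lit 0) (nat_lit 0) (nat_lit 0) (nat_lit 0x80029938e) (nat_lit 1073741824)]
noncomputable def e32_41 : List Rx := [
  Rx.mk (nat_lit 161) (nat_lit 1) (nat_lit 4) (nat_lit 2) (nat_lit 5) (nat_lit 295) (nat_lit 241) r6_295 r9_241 (nat_lit 0) (nat_lit 6014731) (nat_lit 0) (nat_lit 0x7fa23117c) (nat_lit 1085990655),
  Rx.mk (nat_lit 169) (nat_lit 1) (nat_lit 5) (nat_lit 2) (nat_lit 7) (nat_lit 296) (nat_lit 242) r6_296 r9_242 (nat_lit 0) (nat_lit 0) (nat_lit 0) (nat_lit 0x80029938e) (nat_lit 1073741824),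
  Rx.mk (nat_lit 177) (nat_lit 1) (nat_lit 6) (nat_lit 2) (nat_lit 7) (nat_lit 297) (nat_lit 243) r6_297 r9_243 (nat_lit 0) (nat_lit 0) (nat_lit 0) (nat_lit 0x80029938e) (nat_lit 1073741824)]
noncomputable def e32_42 : List Rx := [
  Rx.mk (nat_lit 49) (nat_lit 1) (nat_lit 6) (nat_lit 0) (nat_lit 3) (nat_lit 290) (nat_lit 220) r6_290 r9_220 (nat_lit 0) (nat_lit 0) (nat_lit 6723610) (nat_lit 0x7fa202926) (nat_lit 1086714034),
  Rx.mk (nat_lit 53) (nat_lit 5) (nat_lit 6) (nat_lit 0) (nat_lit 3) (nat_lit 293) (nat_lit 219) r6_293 r9_219 (nat_lit 0) (nat_lit 0) (nat_lit 5449534) (nat_lit 0x7ff84509a) (nat_lit 1079854658),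
  Rx.mk (nat_lit 113) (nat_lit 1) (nat_lit 6) (nat_lit 1) (nat_lit 7) (nat_lit 291) (nat_lit 222) r6_291 r9_222 (nat_lit 0) (nat_lit 0) (nat_lit 0) (nat_lit 0x80029938e) (nat_lit 1073741824),
  Rx.mk (nat_lit 117) (nat_lit 5) (nat_lit 6) (nat_lit 1) (nat_lit 7) (nat_lit 294) (nat_lit 221) r6_294 r9_221 (nat_lit 0) (nat_lit 0) (nat_lit 0) (nat_lit 0x80029938e) (nat_lit 1073741824),
  Rx.mk (nat_lit 177) (nat_lit 1) (nat_lit 6) (nat_lit 2) (nat_lit 7) (nat_lit 292) (nat_lit 223) r6_292 r9_223 (nat_lit 0) (nat_lit 0) (nat_lit 0) (nat_lit 0x80029938e) (nat_lit 1073741824)]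
noncomputable def e32_43 : List Rx := [
  Rx.mk (nat_lit 49) (nat_lit 1) (nat_lit 6) (nat_lit 0) (nat_lit 3) (nat_lit 116) (nat_lit 247) r6_116 r1_247 (nat_lit 0) (nat_lit 0) (nat_lit 376415) (nat_lit 0x86cc62d18) (nat_lit 964233239),
  Rx.mk (nat_lit 161) (nat_lit 1) (nat_lit 4) (nat_lit 2) (nat_lit 5) (nat_lit 117) (nat_lit 246) r6_117 r1_246 (nat_lit 0) (nat_lit 1035266) (nat_lit 0) (nat_lit 0x8401ef04c) (nat_lit 1010034890),
  Rx.mk (nat_lit 177) (nat_lit 1) (nat_lit 6) (nat_lit 2) (nat_lit 7) (nat_lit 118) (nat_lit 248) r6_118 r1_248 (nat_lit 0) (nat_lit 0) (nat_lit 0) (nat_lit 0x8fcfe0ed2) (nat_lit 818127624)]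
noncomputable def e32_44 : List Rx := [
  Rx.mk (nat_lit 161) (nat_lit 1) (nat_lit 4) (nat_lit 2) (nat_lit 5) (nat_lit 119) (nat_lit 71) r6_119 r8_71 (nat_lit 0) (nat_lit 1883603) (nat_lit 0) (nat_lit 0x8036af1e6) (nat_lit 1072289527),
  Rx.mk (nat_lit 169) (nat_lit 1) (nat_lit 5) (nat_lit 2) (nat_lit 7) (nat_lit 120) (nat_lit 72) r6_120 r8_72 (nat_lit 0) (nat_lit 0) (nat_lit 0) (nat_lit 0x8037bf9e6) (nat_lit 1070345324),
  Rx.mk (nat_lit 177) (nat_lit 1) (nat_lit 6) (nat_lit 2) (nat_lit 7) (nat_lit 121) (nat_lit 73) r6_121 r8_73 (nat_lit 0) (nat_lit 0) (nat_lit 0) (nat_lit 0x804b0c5b2) (nat_lit 1069117724)]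
noncomputable def e32_45 : List Rx := [
  Rx.mk (nat_lit 168) (nat_lit 0) (nat_lit 5) (nat_lit 2) (nat_lit 6) (nat_lit 7) (nat_lit 88) r6_7 r1_88 (nat_lit 2919225) (nat_lit 0) (nat_lit 0) (nat_lit 0x8031e1df8) (nat_lit 1073634549),
  Rx.mk (nat_lit 170) (nat_lit 2) (nat_lit 5) (nat_lit 2) (nat_lit 7) (nat_lit 8) (nat_lit 90) r6_8 r1_90 (nat_lit 0) (nat_lit 0) (nat_lit 0) (nat_lit 0x80844da2e) (nat_lit 1065486024),
  Rx.mk (nat_lit 426) (nat_lit 2) (nat_lit 5) (nat_lit 6) (nat_lit 7) (nat_lit 9) (nat_lit 89) r6_9 r1_89 (nat_lit 0) (nat_lit 0) (nat_lit 0) (nat_lit 0x997d38914) (nat_lit 661632824)]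
noncomputable def e32_46 : List Rx := [
  Rx.mk (nat_lit 394) (nat_lit 2) (nat_lit 1) (nat_lit 6) (nat_lit 7) (nat_lit 10) (nat_lit 95) r6_10 r2_95 (nat_lit 0) (nat_lit 0) (nat_lit 0) (nat_lit 0x80029938e) (nat_lit 1073741824),
  Rx.mk (nat_lit 426) (nat_lit 2) (nat_lit 5) (nat_lit 6) (nat_lit 7) (nat_lit 11) (nat_lit 94) r6_11 r2_94 (nat_lit 0) (nat_lit 0) (nat_lit 0) (nat_lit 0x80029938e) (nat_lit 1073741824)]
noncomputable def e32_47 : List Rx := [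
  Rx.mk (nat_lit 168) (nat_lit 0) (nat_lit 5) (nat_lit 2) (nat_lit 6) (nat_lit 122) (nat_lit 221) r6_122 r8_221 (nat_lit 5449534) (nat_lit 0) (nat_lit 0) (nat_lit 0x80029938e) (nat_lit 1079191358),
  Rx.mk (nat_lit 169) (nat_lit 1) (nat_lit 5) (nat_lit 2) (nat_lit 7) (nat_lit 123) (nat_lit 222) r6_123 r8_222 (nat_lit 0) (nat_lit 0) (nat_lit 0) (nat_lit 0x80029938e) (nat_lit 1073741824),
  Rx.mk (nat_lit 170) (nat_lit 2) (nat_lit 5) (nat_lit 2) (nat_lit 7) (nat_lit 124) (nat_lit 223) r6_124 r8_223 (nat_lit 0) (nat_lit 0) (nat_lit 0) (nat_lit 0x80029938e) (nat_lit 1073741824),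
  Rx.mk (nat_lit 426) (nat_lit 2) (nat_lit 5) (nat_lit 6) (nat_lit 7) (nat_lit 125) (nat_lit 224) r6_125 r8_224 (nat_lit 0) (nat_lit 0) (nat_lit 0) (nat_lit 0x8065dab1e) (nat_lit 1067416324)]
noncomputable def e32_48 : List Rx := [
  Rx.mk (nat_lit 394) (nat_lit 2) (nat_lit 1) (nat_lit 6) (nat_lit 7) (nat_lit 126) (nat_lit 62) r6_126 r9_62 (nat_lit 0) (nat_lit 0) (nat_lit 0) (nat_lit 0x80029938e) (nat_lit 1073741824),
  Rx.mk (nat_lit 426) (nat_lit 2) (nat_lit 5) (nat_lit 6) (nat_lit 7) (nat_lit 127) (nat_lit 61) r6_127 r9_61 (nat_lit 0) (nat_lit 0) (nat_lit 0) (nat_lit 0x80029938e) (nat_lit 1073741824)]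
noncomputable def e32_49 : List Rx := [
  Rx.mk (nat_lit 394) (nat_lit 2) (nat_lit 1) (nat_lit 6) (nat_lit 7) (nat_lit 168) (nat_lit 61) r6_168 r9_61 (nat_lit 0) (nat_lit 0) (nat_lit 0) (nat_lit 0x80029938e) (nat_lit 1073741824),
  Rx.mk (nat_lit 426) (nat_lit 2) (nat_lit 5) (nat_lit 6) (nat_lit 7) (nat_lit 169) (nat_lit 62) r6_169 r9_62 (nat_lit 0) (nat_lit 0) (nat_lit 0) (nat_lit 0x80029938e) (nat_lit 1073741824)]
noncomputable def e32_50 : List Rx := [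
  Rx.mk (nat_lit 51) (nat_lit 3) (nat_lit 6) (nat_lit 0) (nat_lit 3) (nat_lit 17) (nat_lit 76) r6_17 r3_76 (nat_lit 0) (nat_lit 0) (nat_lit 68827) (nat_lit 0x7d81ad2b8) (nat_lit 1115392751),
  Rx.mk (nat_lit 160) (nat_lit 0) (nat_lit 4) (nat_lit 2) (nat_lit 4) (nat_lit 12) (nat_lit 74) r6_12 r3_74 (nat_lit 636) (nat_lit 536) (nat_lit 0) (nat_lit 0x7ffffbb7c) (nat_lit 1073744396),
  Rx.mk (nat_lit 162) (nat_lit 2) (nat_lit 4) (nat_lit 2) (nat_lit 5) (nat_lit 14) (nat_lit 81) r6_14 r3_81 (nat_lit 0) (nat_lit 106827) (nat_lit 0) (nat_lit 0x7fdfdb806) (nat_lit 1075972951),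
  Rx.mk (nat_lit 163) (nat_lit 3) (nat_lit 4) (nat_lit 2) (nat_lit 5) (nat_lit 18) (nat_lit 77) r6_18 r3_77 (nat_lit 0) (nat_lit 37171) (nat_lit 0) (nat_lit 0x7f1a6eae6) (nat_lit 1088745295),
  Rx.mk (nat_lit 176) (nat_lit 0) (nat_lit 6) (nat_lit 2) (nat_lit 6) (nat_lit 13) (nat_lit 75) r6_13 r3_75 (nat_lit 349767) (nat_lit 0) (nat_lit 0) (nat_lit 0x7dc28a740) (nat_lit 1111486291),
  Rx.mk (nat_lit 179) (nat_lit 3) (nat_lit 6) (nat_lit 2) (nat_lit 7) (nat_lit 19) (nat_lit 78) r6_19 r3_78 (nat_lit 0) (nat_lit 0) (nat_lit 0) (nat_lit 0x8bee0d6f2) (nat_lit 880897024),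
  Rx.mk (nat_lit 418) (nat_lit 2) (nat_lit 4) (nat_lit 6) (nat_lit 5) (nat_lit 15) (nat_lit 79) r6_15 r3_79 (nat_lit 0) (nat_lit 59620) (nat_lit 0) (nat_lit 0x7fefbb2da) (nat_lit 1074882044),
  Rx.mk (nat_lit 442) (nat_lit 2) (nat_lit 7) (nat_lit 6) (nat_lit 7) (nat_lit 16) (nat_lit 80) r6_16 r3_80 (nat_lit 0) (nat_lit 0) (nat_lit 0) (nat_lit 0x80161fbd8) (nat_lit 1072436524)]
noncomputable def e32_51 : List Rx := [
  Rx.mk (nat_lit 160) (nat_lit 0) (nat_lit 4) (nat_lit 2) (nat_lit 4) (nat_lit 20) (nat_lit 78) r6_20 r4_78 (nat_lit 618791) (nat_lit 458330) (nat_lit 0) (nat_lit 0x6b49c39f4) (nat_lit 1420200045),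
  Rx.mk (nat_lit 162) (nat_lit 2) (nat_lit 4) (nat_lit 2) (nat_lit 5) (nat_lit 23) (nat_lit 87) r6_23 r4_87 (nat_lit 0) (nat_lit 1499729) (nat_lit 0) (nat_lit 0x80082f4b0) (nat_lit 1074869353),
  Rx.mk (nat_lit 163) (nat_lit 3) (nat_lit 4) (nat_lit 2) (nat_lit 5) (nat_lit 28) (nat_lit 81) r6_28 r4_81 (nat_lit 0) (nat_lit 21394) (nat_lit 0) (nat_lit 0x59eab61f2) (nat_lit 1708731518),
  Rx.mk (nat_lit 168) (nat_lit 0) (nat_lit 5) (nat_lit 2) (nat_lit 6) (nat_lit 21) (nat_lit 79) r6_21 r4_79 (nat_lit 2091838) (nat_lit 0) (nat_lit 0) (nat_lit 0x8027fc3e2) (nat_lit 1073434162),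
  Rx.mk (nat_lit 170) (nat_lit 2) (nat_lit 5) (nat_lit 2) (nat_lit 7) (nat_lit 24) (nat_lit 88) r6_24 r4_88 (nat_lit 0) (nat_lit 0) (nat_lit 0) (nat_lit 0x802e4a924) (nat_lit 1070947924),
  Rx.mk (nat_lit 171) (nat_lit 3) (nat_lit 5) (nat_lit 2) (nat_lit 7) (nat_lit 29) (nat_lit 82) r6_29 r4_82 (nat_lit 0) (nat_lit 0) (nat_lit 0) (nat_lit 0x802f01e94) (nat_lit 1070886824),
  Rx.mk (nat_lit 176) (nat_lit 0) (nat_lit 6) (nat_lit 2) (nat_lit 6) (nat_lit 22) (nat_lit 80) r6_22 r4_80 (nat_lit 2733861) (nat_lit 0) (nat_lit 0) (nat_lit 0x7eb79fd52) (nat_lit 1097952985),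
  Rx.mk (nat_lit 179) (nat_lit 3) (nat_lit 6) (nat_lit 2) (nat_lit 7) (nat_lit 30) (nat_lit 83) r6_30 r4_83 (nat_lit 0) (nat_lit 0) (nat_lit 0) (nat_lit 0x80040e246) (nat_lit 1073614524),
  Rx.mk (nat_lit 418) (nat_lit 2) (nat_lit 4) (nat_lit 6) (nat_lit 5) (nat_lit 25) (nat_lit 84) r6_25 r4_84 (nat_lit 0) (nat_lit 882081) (nat_lit 0) (nat_lit 0x802bbc932) (nat_lit 1071969705),
  Rx.mk (nat_lit 426) (nat_lit 2) (nat_lit 5) (nat_lit 6) (nat_lit 7) (nat_lit 26) (nat_lit 85) r6_26 r4_85 (nat_lit 0) (nat_lit 0) (nat_lit 0) (nat_lit 0x80900e8b8) (nat_lit 1064743624),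
  Rx.mk (nat_lit 442) (nat_lit 2) (nat_lit 7) (nat_lit 6) (nat_lit 7) (nat_lit 27) (nat_lit 86) r6_27 r4_86 (nat_lit 0) (nat_lit 0) (nat_lit 0) (nat_lit 0x809f929ec) (nat_lit 1063761924)]
noncomputable def e32_52 : List Rx := [
  Rx.mk (nat_lit 51) (nat_lit 3) (nat_lit 6) (nat_lit 0) (nat_lit 3) (nat_lit 37) (nat_lit 73) r6_37 r5_73 (nat_lit 0) (nat_lit 0) (nat_lit 826810) (nat_lit 0x802fe455a) (nat_lit 1071641334),
  Rx.mk (nat_lit 160) (nat_lit 0) (nat_lit 4) (nat_lit 2) (nat_lit 4) (nat_lit 31) (nat_lit 70) r6_31 r5_70 (nat_lit 22438) (nat_lit 16168) (nat_lit 0) (nat_lit 0x7a1c8609a) (nat_lit 1171966330),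
  Rx.mk (nat_lit 162) (nat_lit 2) (nat_lit 4) (nat_lit 2) (nat_lit 5) (nat_lit 34) (nat_lit 78) r6_34 r5_78 (nat_lit 0) (nat_lit 3813020) (nat_lit 0) (nat_lit 0x7e7fe50b0) (nat_lit 1102664344),
  Rx.mk (nat_lit 163) (nat_lit 3) (nat_lit 4) (nat_lit 2) (nat_lit 5) (nat_lit 38) (nat_lit 75) r6_38 r5_75 (nat_lit 0) (nat_lit 294333) (nat_lit 0) (nat_lit 0x869783e6c) (nat_lit 967494857),
  Rx.mk (nat_lit 176) (nat_lit 0) (nat_lit 6) (nat_lit 2) (nat_lit 6) (nat_lit 32) (nat_lit 72) r6_32 r5_72 (nat_lit 2825381) (nat_lit 0) (nat_lit 0) (nat_lit 0x7fbf7b2aa) (nat_lit 1080886705),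
  Rx.mk (nat_lit 179) (nat_lit 3) (nat_lit 6) (nat_lit 2) (nat_lit 7) (nat_lit 39) (nat_lit 76) r6_39 r5_76 (nat_lit 0) (nat_lit 0) (nat_lit 0) (nat_lit 0x940158de4) (nat_lit 750318324),
  Rx.mk (nat_lit 184) (nat_lit 0) (nat_lit 7) (nat_lit 2) (nat_lit 6) (nat_lit 33) (nat_lit 71) r6_33 r5_71 (nat_lit 1145575) (nat_lit 0) (nat_lit 0) (nat_lit 0x81615e058) (nat_lit 1052648999),
  Rx.mk (nat_lit 186) (nat_lit 2) (nat_lit 7) (nat_lit 2) (nat_lit 7) (nat_lit 35) (nat_lit 79) r6_35 r5_79 (nat_lit 0) (nat_lit 0) (nat_lit 0) (nat_lit 0x8019076ca) (nat_lit 1072298224),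
  Rx.mk (nat_lit 243) (nat_lit 3) (nat_lit 6) (nat_lit 3) (nat_lit 7) (nat_lit 40) (nat_lit 74) r6_40 r5_74 (nat_lit 0) (nat_lit 0) (nat_lit 0) (nat_lit 0x804ab9c7c) (nat_lit 1069132524),
  Rx.mk (nat_lit 442) (nat_lit 2) (nat_lit 7) (nat_lit 6) (nat_lit 7) (nat_lit 36) (nat_lit 77) r6_36 r5_77 (nat_lit 0) (nat_lit 0) (nat_lit 0) (nat_lit 0x7d806d86c) (nat_lit 1115429524)]
noncomputable def e32_53 : List Rx := [
  Rx.mk (nat_lit 48) (nat_lit 0) (nat_lit 6) (nat_lit 0) (nat_lit 2) (nat_lit 128) (nat_lit 235) r6_128 r4_235 (nat_lit 6592) (nat_lit 0) (nat_lit 9876) (nat_lit 0x73504ef82) (nat_lit 1285279692),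
  Rx.mk (nat_lit 49) (nat_lit 1) (nat_lit 6) (nat_lit 0) (nat_lit 3) (nat_lit 131) (nat_lit 236) r6_131 r4_236 (nat_lit 0) (nat_lit 0) (nat_lit 4043670) (nat_lit 0x8019d8c3e) (nat_lit 1076296794),
  Rx.mk (nat_lit 51) (nat_lit 3) (nat_lit 6) (nat_lit 0) (nat_lit 3) (nat_lit 137) (nat_lit 237) r6_137 r4_237 (nat_lit 0) (nat_lit 0) (nat_lit 1760727) (nat_lit 0x802b4e4aa) (nat_lit 1072885551),
  Rx.mk (nat_lit 160) (nat_lit 0) (nat_lit 4) (nat_lit 2) (nat_lit 4) (nat_lit 129) (nat_lit 229) r6_129 r4_229 (nat_lit 38237) (nat_lit 47711) (nat_lit 0) (nat_lit 0x718a177ac) (nat_lit 1314939572),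
  Rx.mk (nat_lit 161) (nat_lit 1) (nat_lit 4) (nat_lit 2) (nat_lit 5) (nat_lit 132) (nat_lit 230) r6_132 r4_230 (nat_lit 0) (nat_lit 3192982) (nat_lit 0) (nat_lit 0x803a9355a) (nat_lit 1073361906),
  Rx.mk (nat_lit 162) (nat_lit 2) (nat_lit 4) (nat_lit 2) (nat_lit 5) (nat_lit 134) (nat_lit 232) r6_134 r4_232 (nat_lit 0) (nat_lit 2826148) (nat_lit 0) (nat_lit 0x7ffa8010c) (nat_lit 1077083472),
  Rx.mk (nat_lit 163) (nat_lit 3) (nat_lit 4) (nat_lit 2) (nat_lit 5) (nat_lit 138) (nat_lit 231) r6_138 r4_231 (nat_lit 0) (nat_lit 2840910) (nat_lit 0) (nat_lit 0x804903392) (nat_lit 1072090734),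
  Rx.mk (nat_lit 176) (nat_lit 0) (nat_lit 6) (nat_lit 2) (nat_lit 6) (nat_lit 130) (nat_lit 238) r6_130 r4_238 (nat_lit 1219035) (nat_lit 0) (nat_lit 0) (nat_lit 0x80393948e) (nat_lit 1071457659),
  Rx.mk (nat_lit 177) (nat_lit 1) (nat_lit 6) (nat_lit 2) (nat_lit 7) (nat_lit 133) (nat_lit 239) r6_133 r4_239 (nat_lit 0) (nat_lit 0) (nat_lit 0) (nat_lit 0x807785210) (nat_lit 1066297424),
  Rx.mk (nat_lit 179) (nat_lit 3) (nat_lit 6) (nat_lit 2) (nat_lit 7) (nat_lit 139) (nat_lit 240) r6_139 r4_240 (nat_lit 0) (nat_lit 0) (nat_lit 0) (nat_lit 0x809a0fc90) (nat_lit 1064111224),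
  Rx.mk (nat_lit 418) (nat_lit 2) (nat_lit 4) (nat_lit 6) (nat_lit 5) (nat_lit 135) (nat_lit 233) r6_135 r4_233 (nat_lit 0) (nat_lit 2519210) (nat_lit 0) (nat_lit 0x7ebf86994) (nat_lit 1097219834),
  Rx.mk (nat_lit 442) (nat_lit 2) (nat_lit 7) (nat_lit 6) (nat_lit 7) (nat_lit 136) (nat_lit 234) r6_136 r4_234 (nat_lit 0) (nat_lit 0) (nat_lit 0) (nat_lit 0x81261a06e) (nat_lit 1055268324)]
noncomputable def e32_54 : List Rx := [
  Rx.mk (nat_lit 160) (nat_lit 0) (nat_lit 4) (nat_lit 2) (nat_lit 4) (nat_lit 140) (nat_lit 59) r6_140 r10_59 (nat_lit 315034) (nat_lit 325610) (nat_lit 0) (nat_lit 0x6c8871394) (nat_lit 1399003668),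
  Rx.mk (nat_lit 161) (nat_lit 1) (nat_lit 4) (nat_lit 2) (nat_lit 5) (nat_lit 143) (nat_lit 62) r6_143 r10_62 (nat_lit 0) (nat_lit 2104035) (nat_lit 0) (nat_lit 0x8089df83e) (nat_lit 1067238059),
  Rx.mk (nat_lit 162) (nat_lit 2) (nat_lit 4) (nat_lit 2) (nat_lit 5) (nat_lit 145) (nat_lit 70) r6_145 r10_70 (nat_lit 0) (nat_lit 5449534) (nat_lit 0) (nat_lit 0x7febd1840) (nat_lit 1080657058),
  Rx.mk (nat_lit 163) (nat_lit 3) (nat_lit 4) (nat_lit 2) (nat_lit 5) (nat_lit 150) (nat_lit 64) r6_150 r10_64 (nat_lit 0) (nat_lit 2104035) (nat_lit 0) (nat_lit 0x8089df83e) (nat_lit 1067238059),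
  Rx.mk (nat_lit 168) (nat_lit 0) (nat_lit 5) (nat_lit 2) (nat_lit 6) (nat_lit 141) (nat_lit 60) r6_141 r10_60 (nat_lit 2919586) (nat_lit 0) (nat_lit 0) (nat_lit 0x8040ec42e) (nat_lit 1072682510),
  Rx.mk (nat_lit 170) (nat_lit 2) (nat_lit 5) (nat_lit 2) (nat_lit 7) (nat_lit 146) (nat_lit 71) r6_146 r10_71 (nat_lit 0) (nat_lit 0) (nat_lit 0) (nat_lit 0x80029938e) (nat_lit 1073741824),
  Rx.mk (nat_lit 171) (nat_lit 3) (nat_lit 5) (nat_lit 2) (nat_lit 7) (nat_lit 151) (nat_lit 65) r6_151 r10_65 (nat_lit 0) (nat_lit 0) (nat_lit 0) (nat_lit 0x80192ccea) (nat_lit 1072297024),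
  Rx.mk (nat_lit 176) (nat_lit 0) (nat_lit 6) (nat_lit 2) (nat_lit 6) (nat_lit 142) (nat_lit 61) r6_142 r10_61 (nat_lit 1567710) (nat_lit 0) (nat_lit 0) (nat_lit 0x8053e18e0) (nat_lit 1070118234),
  Rx.mk (nat_lit 177) (nat_lit 1) (nat_lit 6) (nat_lit 2) (nat_lit 7) (nat_lit 144) (nat_lit 63) r6_144 r10_63 (nat_lit 0) (nat_lit 0) (nat_lit 0) (nat_lit 0x809b6df60) (nat_lit 1064022524),
  Rx.mk (nat_lit 179) (nat_lit 3) (nat_lit 6) (nat_lit 2) (nat_lit 7) (nat_lit 152) (nat_lit 66) r6_152 r10_66 (nat_lit 0) (nat_lit 0) (nat_lit 0) (nat_lit 0x809b6df60) (nat_lit 1064022524),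
  Rx.mk (nat_lit 418) (nat_lit 2) (nat_lit 4) (nat_lit 6) (nat_lit 5) (nat_lit 147) (nat_lit 67) r6_147 r10_67 (nat_lit 0) (nat_lit 1425998) (nat_lit 0) (nat_lit 0x8011ef310) (nat_lit 1074173622),
  Rx.mk (nat_lit 426) (nat_lit 2) (nat_lit 5) (nat_lit 6) (nat_lit 7) (nat_lit 148) (nat_lit 68) r6_148 r10_68 (nat_lit 0) (nat_lit 0) (nat_lit 0) (nat_lit 0x8099ba880) (nat_lit 1064130224),
  Rx.mk (nat_lit 442) (nat_lit 2) (nat_lit 7) (nat_lit 6) (nat_lit 7) (nat_lit 149) (nat_lit 69) r6_149 r10_69 (nat_lit 0) (nat_lit 0) (nat_lit 0) (nat_lit 0x8099ba880) (nat_lit 1064130224)]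
noncomputable def e32_55 : List Rx := [
  Rx.mk (nat_lit 48) (nat_lit 0) (nat_lit 6) (nat_lit 0) (nat_lit 2) (nat_lit 153) (nat_lit 53) r6_153 r11_53 (nat_lit 1282205) (nat_lit 0) (nat_lit 2307781) (nat_lit 0x7934fd052) (nat_lit 1190670010),
  Rx.mk (nat_lit 49) (nat_lit 1) (nat_lit 6) (nat_lit 0) (nat_lit 3) (nat_lit 157) (nat_lit 57) r6_157 r11_57 (nat_lit 0) (nat_lit 0) (nat_lit 5449534) (nat_lit 0x80029938e) (nat_lit 1079191358),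
  Rx.mk (nat_lit 51) (nat_lit 3) (nat_lit 6) (nat_lit 0) (nat_lit 3) (nat_lit 164) (nat_lit 61) r6_164 r11_61 (nat_lit 0) (nat_lit 0) (nat_lit 3994773) (nat_lit 0x801c09594) (nat_lit 1076108397),
  Rx.mk (nat_lit 160) (nat_lit 0) (nat_lit 4) (nat_lit 2) (nat_lit 4) (nat_lit 154) (nat_lit 54) r6_154 r11_54 (nat_lit 1343161) (nat_lit 1407149) (nat_lit 0) (nat_lit 0x737e36fbc) (nat_lit 1285096534),
  Rx.mk (nat_lit 161) (nat_lit 1) (nat_lit 4) (nat_lit 2) (nat_lit 5) (nat_lit 158) (nat_lit 58) r6_158 r11_58 (nat_lit 0) (nat_lit 4262738) (nat_lit 0) (nat_lit 0x801570c46) (nat_lit 1076797662),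
  Rx.mk (nat_lit 162) (nat_lit 2) (nat_lit 4) (nat_lit 2) (nat_lit 5) (nat_lit 161) (nat_lit 66) r6_161 r11_66 (nat_lit 0) (nat_lit 3928738) (nat_lit 0) (nat_lit 0x80106e662) (nat_lit 1076782462),
  Rx.mk (nat_lit 163) (nat_lit 3) (nat_lit 4) (nat_lit 2) (nat_lit 5) (nat_lit 165) (nat_lit 63) r6_165 r11_63 (nat_lit 0) (nat_lit 3738478) (nat_lit 0) (nat_lit 0x8024ee42a) (nat_lit 1075285302),
  Rx.mk (nat_lit 176) (nat_lit 0) (nat_lit 6) (nat_lit 2) (nat_lit 6) (nat_lit 155) (nat_lit 56) r6_155 r11_56 (nat_lit 1786259) (nat_lit 0) (nat_lit 0) (nat_lit 0x808a883f8) (nat_lit 1066877983),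
  Rx.mk (nat_lit 177) (nat_lit 1) (nat_lit 6) (nat_lit 2) (nat_lit 7) (nat_lit 159) (nat_lit 60) r6_159 r11_60 (nat_lit 0) (nat_lit 0) (nat_lit 0) (nat_lit 0x80159ec7c) (nat_lit 1072523724),
  Rx.mk (nat_lit 179) (nat_lit 3) (nat_lit 6) (nat_lit 2) (nat_lit 7) (nat_lit 166) (nat_lit 64) r6_166 r11_64 (nat_lit 0) (nat_lit 0) (nat_lit 0) (nat_lit 0x80159ec7c) (nat_lit 1072523724),
  Rx.mk (nat_lit 184) (nat_lit 0) (nat_lit 7) (nat_lit 2) (nat_lit 6) (nat_lit 156) (nat_lit 55) r6_156 r11_55 (nat_lit 2747444) (nat_lit 0) (nat_lit 0) (nat_lit 0x803990784) (nat_lit 1072977968),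
  Rx.mk (nat_lit 185) (nat_lit 1) (nat_lit 7) (nat_lit 2) (nat_lit 7) (nat_lit 160) (nat_lit 59) r6_160 r11_59 (nat_lit 0) (nat_lit 0) (nat_lit 0) (nat_lit 0x80029938e) (nat_lit 1073741824),
  Rx.mk (nat_lit 186) (nat_lit 2) (nat_lit 7) (nat_lit 2) (nat_lit 7) (nat_lit 162) (nat_lit 67) r6_162 r11_67 (nat_lit 0) (nat_lit 0) (nat_lit 0) (nat_lit 0x801118d6a) (nat_lit 1072812524),
  Rx.mk (nat_lit 243) (nat_lit 3) (nat_lit 6) (nat_lit 3) (nat_lit 7) (nat_lit 167) (nat_lit 62) r6_167 r11_62 (nat_lit 0) (nat_lit 0) (nat_lit 0) (nat_lit 0x800b91806) (nat_lit 1073166724),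
  Rx.mk (nat_lit 442) (nat_lit 2) (nat_lit 7) (nat_lit 6) (nat_lit 7) (nat_lit 163) (nat_lit 65) r6_163 r11_65 (nat_lit 0) (nat_lit 0) (nat_lit 0) (nat_lit 0x95ec9a496) (nat_lit 719290124)]
noncomputable def e32_56 : List Rx := [
  Rx.mk (nat_lit 51) (nat_lit 3) (nat_lit 6) (nat_lit 0) (nat_lit 3) (nat_lit 238) (nat_lit 243) r6_238 r5_243 (nat_lit 0) (nat_lit 0) (nat_lit 10459) (nat_lit 0x89d896974) (nat_lit 914535883),
  Rx.mk (nat_lit 163) (nat_lit 3) (nat_lit 4) (nat_lit 2) (nat_lit 5) (nat_lit 239) (nat_lit 242) r6_239 r5_242 (nat_lit 0) (nat_lit 128360) (nat_lit 0) (nat_lit 0x84cda1136) (nat_lit 996225984),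
  Rx.mk (nat_lit 179) (nat_lit 3) (nat_lit 6) (nat_lit 2) (nat_lit 7) (nat_lit 240) (nat_lit 244) r6_240 r5_244 (nat_lit 0) (nat_lit 0) (nat_lit 0) (nat_lit 0x84e45cfce) (nat_lit 994704024)]
noncomputable def e32_57 : List Rx := [
  Rx.mk (nat_lit 163) (nat_lit 3) (nat_lit 4) (nat_lit 2) (nat_lit 5) (nat_lit 241) (nat_lit 284) r6_241 r11_284 (nat_lit 0) (nat_lit 424298) (nat_lit 0) (nat_lit 0x882e6edee) (nat_lit 941930922),
  Rx.mk (nat_lit 171) (nat_lit 3) (nat_lit 5) (nat_lit 2) (nat_lit 7) (nat_lit 242) (nat_lit 285) r6_242 r11_285 (nat_lit 0) (nat_lit 0) (nat_lit 0) (nat_lit 0xa352ba304) (nat_lit 502613624),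
  Rx.mk (nat_lit 179) (nat_lit 3) (nat_lit 6) (nat_lit 2) (nat_lit 7) (nat_lit 243) (nat_lit 286) r6_243 r11_286 (nat_lit 0) (nat_lit 0) (nat_lit 0) (nat_lit 0x9a931abc8) (nat_lit 644086424)]
noncomputable def e32 : List (List Rx) := [e32_0, e32_1, e32_2, e32_3, e32_4, e32_5, e32_6, e32_7, e32_8, e32_9, e32_10, e32_11, e32_12, e32_13, e32_14, e32_15, e32_16, e32_17, e32_18, e32_19, e32_20, e32_21, e32_22, e32_23, e32_24, e32_25, e32_26, e32_27, e32_28, e32_29, e32_30, e32_31, e32_32, e32_33, e32_34, e32_35, e32_36, e32_37, e32_38, e32_39, e32_40, e32_41, e32_42, e32_43, e32_44, e32_45, e32_46, e32_47, e32_48, e32_49, e32_50, e32_51, e32_52, e32_53, e32_54, e32_55, e32_56, e32_57]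
noncomputable def e33_0 : List Rx := [
  Rx.mk (nat_lit 116) (nat_lit 4) (nat_lit 6) (nat_lit 1) (nat_lit 6) (nat_lit 255) (nat_lit 224) r5_255 r0_224 (nat_lit 135738919) (nat_lit 0) (nat_lit 0) (nat_lit 0x80001a586) (nat_lit 1209474643)]
noncomputable def e33_1 : List Rx := [
  Rx.mk (nat_lit 116) (nat_lit 4) (nat_lit 6) (nat_lit 1) (nat_lit 6) (nat_lit 268) (nat_lit 242) r5_268 r1_242 (nat_lit 49238329) (nat_lit 0) (nat_lit 0) (nat_lit 0x83e7c743a) (nat_lit 1059883053),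
  Rx.mk (nat_lit 372) (nat_lit 4) (nat_lit 6) (nat_lit 5) (nat_lit 6) (nat_lit 267) (nat_lit 243) r5_267 r1_243 (nat_lit 32179892) (nat_lit 0) (nat_lit 0) (nat_lit 0x8088ff068) (nat_lit 1097358516)]
noncomputable def e33_2 : List Rx := [
  Rx.mk (nat_lit 340) (nat_lit 4) (nat_lit 2) (nat_lit 5) (nat_lit 6) (nat_lit 259) (nat_lit 255) r5_259 r2_255 (nat_lit 35281805) (nat_lit 0) (nat_lit 0) (nat_lit 0x7f7f14a04) (nat_lit 1117526829),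
  Rx.mk (nat_lit 342) (nat_lit 6) (nat_lit 2) (nat_lit 5) (nat_lit 7) (nat_lit 260) (nat_lit 257) r5_260 r2_257 (nat_lit 0) (nat_lit 0) (nat_lit 0) (nat_lit 0x80029938e) (nat_lit 1073741824),
  Rx.mk (nat_lit 372) (nat_lit 4) (nat_lit 6) (nat_lit 5) (nat_lit 6) (nat_lit 258) (nat_lit 256) r5_258 r2_256 (nat_lit 6864468) (nat_lit 0) (nat_lit 0) (nat_lit 0x7fee4d22c) (nat_lit 1081912492)]
noncomputable def e33_3 : List Rx := [
  Rx.mk (nat_lit 52) (nat_lit 4) (nat_lit 6) (nat_lit 0) (nat_lit 2) (nat_lit 293) (nat_lit 221) r5_293 r3_221 (nat_lit 345) (nat_lit 0) (nat_lit 447) (nat_lit 0x802b87ca0) (nat_lit 1070993016),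
  Rx.mk (nat_lit 55) (nat_lit 7) (nat_lit 6) (nat_lit 0) (nat_lit 3) (nat_lit 294) (nat_lit 223) r5_294 r3_223 (nat_lit 0) (nat_lit 0) (nat_lit 160316) (nat_lit 0x84f17c510) (nat_lit 994003240),
  Rx.mk (nat_lit 116) (nat_lit 4) (nat_lit 6) (nat_lit 1) (nat_lit 6) (nat_lit 295) (nat_lit 222) r5_295 r3_222 (nat_lit 155164) (nat_lit 0) (nat_lit 0) (nat_lit 0x801767e82) (nat_lit 1072432988),
  Rx.mk (nat_lit 119) (nat_lit 7) (nat_lit 6) (nat_lit 1) (nat_lit 7) (nat_lit 296) (nat_lit 224) r5_296 r3_224 (nat_lit 0) (nat_lit 0) (nat_lit 0) (nat_lit 0x982c943ec) (nat_lit 682903324)]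
noncomputable def e33_4 : List Rx := [
  Rx.mk (nat_lit 116) (nat_lit 4) (nat_lit 6) (nat_lit 1) (nat_lit 6) (nat_lit 305) (nat_lit 224) r5_305 r4_224 (nat_lit 123837254) (nat_lit 0) (nat_lit 0) (nat_lit 0x7ffc69400) (nat_lit 1197837578),
  Rx.mk (nat_lit 119) (nat_lit 7) (nat_lit 6) (nat_lit 1) (nat_lit 7) (nat_lit 306) (nat_lit 225) r5_306 r4_225 (nat_lit 0) (nat_lit 0) (nat_lit 0) (nat_lit 0x805afa622) (nat_lit 1068090724)]
noncomputable def e33_5 : List Rx := [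
  Rx.mk (nat_lit 52) (nat_lit 4) (nat_lit 6) (nat_lit 0) (nat_lit 2) (nat_lit 311) (nat_lit 235) r5_311 r5_235 (nat_lit 1094601) (nat_lit 0) (nat_lit 165280) (nat_lit 0x80e90415c) (nat_lit 1060318305),
  Rx.mk (nat_lit 55) (nat_lit 7) (nat_lit 6) (nat_lit 0) (nat_lit 3) (nat_lit 312) (nat_lit 238) r5_312 r5_238 (nat_lit 0) (nat_lit 0) (nat_lit 469515) (nat_lit 0x80376b0e4) (nat_lit 1070781039),
  Rx.mk (nat_lit 116) (nat_lit 4) (nat_lit 6) (nat_lit 1) (nat_lit 6) (nat_lit 313) (nat_lit 236) r5_313 r5_236 (nat_lit 7419507) (nat_lit 0) (nat_lit 0) (nat_lit 0x805d211e4) (nat_lit 1075389131),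
  Rx.mk (nat_lit 119) (nat_lit 7) (nat_lit 6) (nat_lit 1) (nat_lit 7) (nat_lit 314) (nat_lit 239) r5_314 r5_239 (nat_lit 0) (nat_lit 0) (nat_lit 0) (nat_lit 0x80ce7bf56) (nat_lit 1060792424),
  Rx.mk (nat_lit 244) (nat_lit 4) (nat_lit 6) (nat_lit 3) (nat_lit 6) (nat_lit 315) (nat_lit 237) r5_315 r5_237 (nat_lit 2217923) (nat_lit 0) (nat_lit 0) (nat_lit 0x870bce5f6) (nat_lit 962095947)]
noncomputable def e33_6 : List Rx := [
  Rx.mk (nat_lit 154) (nat_lit 2) (nat_lit 3) (nat_lit 2) (nat_lit 7) (nat_lit 25) (nat_lit 210) r5_25 r3_210 (nat_lit 0) (nat_lit 0) (nat_lit 0) (nat_lit 0x7dcd58708) (nat_lit 1110443224),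
  Rx.mk (nat_lit 247) (nat_lit 7) (nat_lit 6) (nat_lit 3) (nat_lit 7) (nat_lit 26) (nat_lit 206) r5_26 r3_206 (nat_lit 0) (nat_lit 0) (nat_lit 0) (nat_lit 0x803cbf158) (nat_lit 1070006924),
  Rx.mk (nat_lit 278) (nat_lit 6) (nat_lit 2) (nat_lit 4) (nat_lit 3) (nat_lit 16) (nat_lit 212) r5_16 r3_212 (nat_lit 0) (nat_lit 0) (nat_lit 8830) (nat_lit 0x78e083986) (nat_lit 1192515254),
  Rx.mk (nat_lit 386) (nat_lit 2) (nat_lit 0) (nat_lit 6) (nat_lit 5) (nat_lit 19) (nat_lit 208) r5_19 r3_208 (nat_lit 0) (nat_lit 325819) (nat_lit 0) (nat_lit 0x790c61206) (nat_lit 1190017643),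
  Rx.mk (nat_lit 390) (nat_lit 6) (nat_lit 0) (nat_lit 6) (nat_lit 5) (nat_lit 17) (nat_lit 207) r5_17 r3_207 (nat_lit 0) (nat_lit 2868) (nat_lit 0) (nat_lit 0x74f65d1f2) (nat_lit 1257776192),
  Rx.mk (nat_lit 406) (nat_lit 6) (nat_lit 2) (nat_lit 6) (nat_lit 7) (nat_lit 18) (nat_lit 214) r5_18 r3_214 (nat_lit 0) (nat_lit 0) (nat_lit 0) (nat_lit 0x7f7adade4) (nat_lit 1082517324),
  Rx.mk (nat_lit 410) (nat_lit 2) (nat_lit 3) (nat_lit 6) (nat_lit 7) (nat_lit 20) (nat_lit 209) r5_20 r3_209 (nat_lit 0) (nat_lit 0) (nat_lit 0) (nat_lit 0x91650a2be) (nat_lit 792518424),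
  Rx.mk (nat_lit 468) (nat_lit 4) (nat_lit 2) (nat_lit 7) (nat_lit 6) (nat_lit 22) (nat_lit 211) r5_22 r3_211 (nat_lit 24763) (nat_lit 0) (nat_lit 0) (nat_lit 0x79833e1f8) (nat_lit 1181934387),
  Rx.mk (nat_lit 470) (nat_lit 6) (nat_lit 2) (nat_lit 7) (nat_lit 7) (nat_lit 23) (nat_lit 213) r5_23 r3_213 (nat_lit 0) (nat_lit 0) (nat_lit 0) (nat_lit 0x94a79ed66) (nat_lit 739802724),
  Rx.mk (nat_lit 500) (nat_lit 4) (nat_lit 6) (nat_lit 7) (nat_lit 6) (nat_lit 21) (nat_lit 204) r5_21 r3_204 (nat_lit 1165) (nat_lit 0) (nat_lit 0) (nat_lit 0x81141330c) (nat_lit 1056304189),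
  Rx.mk (nat_lit 503) (nat_lit 7) (nat_lit 6) (nat_lit 7) (nat_lit 7) (nat_lit 24) (nat_lit 205) r5_24 r3_205 (nat_lit 0) (nat_lit 0) (nat_lit 0) (nat_lit 0x7fc99dd96) (nat_lit 1077408124)]
noncomputable def e33_7 : List Rx := [
  Rx.mk (nat_lit 276) (nat_lit 4) (nat_lit 2) (nat_lit 4) (nat_lit 2) (nat_lit 95) (nat_lit 209) r5_95 r0_209 (nat_lit 2303) (nat_lit 0) (nat_lit 1820) (nat_lit 0x7ff2f8664) (nat_lit 1074595147),
  Rx.mk (nat_lit 278) (nat_lit 6) (nat_lit 2) (nat_lit 4) (nat_lit 3) (nat_lit 96) (nat_lit 210) r5_96 r0_210 (nat_lit 0) (nat_lit 0) (nat_lit 1204429) (nat_lit 0x804cfd8c6) (nat_lit 1070187653),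
  Rx.mk (nat_lit 308) (nat_lit 4) (nat_lit 6) (nat_lit 4) (nat_lit 2) (nat_lit 94) (nat_lit 204) r5_94 r0_204 (nat_lit 34408194) (nat_lit 0) (nat_lit 42213) (nat_lit 0x8000d80ea) (nat_lit 1108162531),
  Rx.mk (nat_lit 386) (nat_lit 2) (nat_lit 0) (nat_lit 6) (nat_lit 5) (nat_lit 99) (nat_lit 208) r5_99 r0_208 (nat_lit 0) (nat_lit 2561812) (nat_lit 0) (nat_lit 0x7ef938278) (nat_lit 1093505936),
  Rx.mk (nat_lit 390) (nat_lit 6) (nat_lit 0) (nat_lit 6) (nat_lit 5) (nat_lit 97) (nat_lit 207) r5_97 r0_207 (nat_lit 0) (nat_lit 1787242) (nat_lit 0) (nat_lit 0x66db20c6c) (nat_lit 1494829666),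
  Rx.mk (nat_lit 406) (nat_lit 6) (nat_lit 2) (nat_lit 6) (nat_lit 7) (nat_lit 98) (nat_lit 211) r5_98 r0_211 (nat_lit 0) (nat_lit 0) (nat_lit 0) (nat_lit 0x800cf614c) (nat_lit 1073076224),
  Rx.mk (nat_lit 500) (nat_lit 4) (nat_lit 6) (nat_lit 7) (nat_lit 6) (nat_lit 100) (nat_lit 205) r5_100 r0_205 (nat_lit 275203489) (nat_lit 0) (nat_lit 0) (nat_lit 0x7ef968536) (nat_lit 1366143013),
  Rx.mk (nat_lit 503) (nat_lit 7) (nat_lit 6) (nat_lit 7) (nat_lit 7) (nat_lit 101) (nat_lit 206) r5_101 r0_206 (nat_lit 0) (nat_lit 0) (nat_lit 0) (nat_lit 0x7fca9da02) (nat_lit 1077344524)]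
noncomputable def e33_8 : List Rx := [
  Rx.mk (nat_lit 276) (nat_lit 4) (nat_lit 2) (nat_lit 4) (nat_lit 2) (nat_lit 107) (nat_lit 229) r5_107 r1_229 (nat_lit 865457) (nat_lit 0) (nat_lit 618569) (nat_lit 0x6cfe8984c) (nat_lit 1392171750),
  Rx.mk (nat_lit 278) (nat_lit 6) (nat_lit 2) (nat_lit 4) (nat_lit 3) (nat_lit 108) (nat_lit 231) r5_108 r1_231 (nat_lit 0) (nat_lit 0) (nat_lit 2341422) (nat_lit 0x7fcb8785a) (nat_lit 1079628546),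
  Rx.mk (nat_lit 308) (nat_lit 4) (nat_lit 6) (nat_lit 4) (nat_lit 2) (nat_lit 106) (nat_lit 225) r5_106 r1_225 (nat_lit 212990587) (nat_lit 0) (nat_lit 782939) (nat_lit 0x7f9458f50) (nat_lit 1294612750),
  Rx.mk (nat_lit 340) (nat_lit 4) (nat_lit 2) (nat_lit 5) (nat_lit 6) (nat_lit 110) (nat_lit 230) r5_110 r1_230 (nat_lit 4608950) (nat_lit 0) (nat_lit 0) (nat_lit 0x800f7fbd4) (nat_lit 1077522674),
  Rx.mk (nat_lit 342) (nat_lit 6) (nat_lit 2) (nat_lit 5) (nat_lit 7) (nat_lit 111) (nat_lit 232) r5_111 r1_232 (nat_lit 0) (nat_lit 0) (nat_lit 0) (nat_lit 0x80029938e) (nat_lit 1073741824),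
  Rx.mk (nat_lit 372) (nat_lit 4) (nat_lit 6) (nat_lit 5) (nat_lit 6) (nat_lit 109) (nat_lit 226) r5_109 r1_226 (nat_lit 5712296) (nat_lit 0) (nat_lit 0) (nat_lit 0x807518c02) (nat_lit 1072163420),
  Rx.mk (nat_lit 406) (nat_lit 6) (nat_lit 2) (nat_lit 6) (nat_lit 7) (nat_lit 112) (nat_lit 233) r5_112 r1_233 (nat_lit 0) (nat_lit 0) (nat_lit 0) (nat_lit 0x80029938e) (nat_lit 1073741824),
  Rx.mk (nat_lit 500) (nat_lit 4) (nat_lit 6) (nat_lit 7) (nat_lit 6) (nat_lit 113) (nat_lit 227) r5_113 r1_227 (nat_lit 7480504) (nat_lit 0) (nat_lit 0) (nat_lit 0x8050572c4) (nat_lit 1076259928),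
  Rx.mk (nat_lit 503) (nat_lit 7) (nat_lit 6) (nat_lit 7) (nat_lit 7) (nat_lit 114) (nat_lit 228) r5_114 r1_228 (nat_lit 0) (nat_lit 0) (nat_lit 0) (nat_lit 0x8032723e4) (nat_lit 1070680924)]
noncomputable def e33_9 : List Rx := [
  Rx.mk (nat_lit 276) (nat_lit 4) (nat_lit 2) (nat_lit 4) (nat_lit 2) (nat_lit 124) (nat_lit 200) r5_124 r4_200 (nat_lit 73422) (nat_lit 0) (nat_lit 50115) (nat_lit 0x6722c5068) (nat_lit 1488441861),
  Rx.mk (nat_lit 278) (nat_lit 6) (nat_lit 2) (nat_lit 4) (nat_lit 3) (nat_lit 125) (nat_lit 202) r5_125 r4_202 (nat_lit 0) (nat_lit 0) (nat_lit 1227291) (nat_lit 0x807e5e654) (nat_lit 1067084415),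
  Rx.mk (nat_lit 386) (nat_lit 2) (nat_lit 0) (nat_lit 6) (nat_lit 5) (nat_lit 128) (nat_lit 198) r5_128 r4_198 (nat_lit 0) (nat_lit 1963519) (nat_lit 0) (nat_lit 0x7f8b75bf4) (nat_lit 1083400343),
  Rx.mk (nat_lit 390) (nat_lit 6) (nat_lit 0) (nat_lit 6) (nat_lit 5) (nat_lit 126) (nat_lit 197) r5_126 r4_197 (nat_lit 0) (nat_lit 2905451) (nat_lit 0) (nat_lit 0x7f6eaed5e) (nat_lit 1086211975),
  Rx.mk (nat_lit 406) (nat_lit 6) (nat_lit 2) (nat_lit 6) (nat_lit 7) (nat_lit 127) (nat_lit 204) r5_127 r4_204 (nat_lit 0) (nat_lit 0) (nat_lit 0) (nat_lit 0x801b210f0) (nat_lit 1072171724),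
  Rx.mk (nat_lit 410) (nat_lit 2) (nat_lit 3) (nat_lit 6) (nat_lit 7) (nat_lit 129) (nat_lit 199) r5_129 r4_199 (nat_lit 0) (nat_lit 0) (nat_lit 0) (nat_lit 0x813222a50) (nat_lit 1054496724),
  Rx.mk (nat_lit 468) (nat_lit 4) (nat_lit 2) (nat_lit 7) (nat_lit 6) (nat_lit 131) (nat_lit 201) r5_131 r4_201 (nat_lit 1816985) (nat_lit 0) (nat_lit 0) (nat_lit 0x7ffac5572) (nat_lit 1076046309),
  Rx.mk (nat_lit 470) (nat_lit 6) (nat_lit 2) (nat_lit 7) (nat_lit 7) (nat_lit 132) (nat_lit 203) r5_132 r4_203 (nat_lit 0) (nat_lit 0) (nat_lit 0) (nat_lit 0x80898c5d0) (nat_lit 1065156424),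
  Rx.mk (nat_lit 500) (nat_lit 4) (nat_lit 6) (nat_lit 7) (nat_lit 6) (nat_lit 130) (nat_lit 195) r5_130 r4_195 (nat_lit 192946712) (nat_lit 0) (nat_lit 0) (nat_lit 0x7fdc0d3f0) (nat_lit 1269076836),
  Rx.mk (nat_lit 503) (nat_lit 7) (nat_lit 6) (nat_lit 7) (nat_lit 7) (nat_lit 133) (nat_lit 196) r5_133 r4_196 (nat_lit 0) (nat_lit 0) (nat_lit 0) (nat_lit 0x801352b30) (nat_lit 1072671524)]
noncomputable def e33_10 : List Rx := [
  Rx.mk (nat_lit 55) (nat_lit 7) (nat_lit 6) (nat_lit 0) (nat_lit 3) (nat_lit 242) (nat_lit 252) r5_242 r6_252 (nat_lit 0) (nat_lit 0) (nat_lit 128360) (nat_lit 0x84cda1136) (nat_lit 996225984),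
  Rx.mk (nat_lit 244) (nat_lit 4) (nat_lit 6) (nat_lit 3) (nat_lit 6) (nat_lit 243) (nat_lit 251) r5_243 r6_251 (nat_lit 10459) (nat_lit 0) (nat_lit 0) (nat_lit 0x89d896974) (nat_lit 914535883),
  Rx.mk (nat_lit 247) (nat_lit 7) (nat_lit 6) (nat_lit 3) (nat_lit 7) (nat_lit 244) (nat_lit 253) r5_244 r6_253 (nat_lit 0) (nat_lit 0) (nat_lit 0) (nat_lit 0x84e45cfce) (nat_lit 994704024)]
noncomputable def e33_11 : List Rx := [
  Rx.mk (nat_lit 244) (nat_lit 4) (nat_lit 6) (nat_lit 3) (nat_lit 6) (nat_lit 228) (nat_lit 226) r5_228 r5_226 (nat_lit 3491889) (nat_lit 0) (nat_lit 0) (nat_lit 0x7f61f92a8) (nat_lit 1087614713),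
  Rx.mk (nat_lit 247) (nat_lit 7) (nat_lit 6) (nat_lit 3) (nat_lit 7) (nat_lit 229) (nat_lit 227) r5_229 r5_227 (nat_lit 0) (nat_lit 0) (nat_lit 0) (nat_lit 0x87b95790c) (nat_lit 948919124),
  Rx.mk (nat_lit 468) (nat_lit 4) (nat_lit 2) (nat_lit 7) (nat_lit 6) (nat_lit 226) (nat_lit 228) r5_226 r5_228 (nat_lit 3491889) (nat_lit 0) (nat_lit 0) (nat_lit 0x7f61f92a8) (nat_lit 1087614713),
  Rx.mk (nat_lit 470) (nat_lit 6) (nat_lit 2) (nat_lit 7) (nat_lit 7) (nat_lit 227) (nat_lit 229) r5_227 r5_229 (nat_lit 0) (nat_lit 0) (nat_lit 0) (nat_lit 0x87b95790c) (nat_lit 948919124),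
  Rx.mk (nat_lit 500) (nat_lit 4) (nat_lit 6) (nat_lit 7) (nat_lit 6) (nat_lit 225) (nat_lit 225) r5_225 r5_225 (nat_lit 5987135) (nat_lit 0) (nat_lit 0) (nat_lit 0x83458d5de) (nat_lit 1026898459)]
noncomputable def e33_12 : List Rx := [
  Rx.mk (nat_lit 53) (nat_lit 5) (nat_lit 6) (nat_lit 0) (nat_lit 3) (nat_lit 252) (nat_lit 315) r5_252 r0_315 (nat_lit 0) (nat_lit 0) (nat_lit 2146046) (nat_lit 0x8082930f8) (nat_lit 1067722470),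
  Rx.mk (nat_lit 116) (nat_lit 4) (nat_lit 6) (nat_lit 1) (nat_lit 6) (nat_lit 253) (nat_lit 316) r5_253 r0_316 (nat_lit 1462114) (nat_lit 0) (nat_lit 0) (nat_lit 0x7fa136d4e) (nat_lit 1081485238),
  Rx.mk (nat_lit 117) (nat_lit 5) (nat_lit 6) (nat_lit 1) (nat_lit 7) (nat_lit 254) (nat_lit 317) r5_254 r0_317 (nat_lit 0) (nat_lit 0) (nat_lit 0) (nat_lit 0x871639162) (nat_lit 959223424)]
noncomputable def e33_13 : List Rx := [
  Rx.mk (nat_lit 116) (nat_lit 4) (nat_lit 6) (nat_lit 1) (nat_lit 6) (nat_lit 256) (nat_lit 286) r5_256 r7_286 (nat_lit 1663775) (nat_lit 0) (nat_lit 0) (nat_lit 0x7ff356e8a) (nat_lit 1076373699),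
  Rx.mk (nat_lit 117) (nat_lit 5) (nat_lit 6) (nat_lit 1) (nat_lit 7) (nat_lit 257) (nat_lit 287) r5_257 r7_287 (nat_lit 0) (nat_lit 0) (nat_lit 0) (nat_lit 0x804fac05e) (nat_lit 1068822724)]
noncomputable def e33_14 : List Rx := [
  Rx.mk (nat_lit 53) (nat_lit 5) (nat_lit 6) (nat_lit 0) (nat_lit 3) (nat_lit 273) (nat_lit 303) r5_273 r1_303 (nat_lit 0) (nat_lit 0) (nat_lit 2861806) (nat_lit 0x81272a2b0) (nat_lit 1058046730),
  Rx.mk (nat_lit 117) (nat_lit 5) (nat_lit 6) (nat_lit 1) (nat_lit 7) (nat_lit 274) (nat_lit 304) r5_274 r1_304 (nat_lit 0) (nat_lit 0) (nat_lit 0) (nat_lit 0x8ca337b4a) (nat_lit 869461024)]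
noncomputable def e33_15 : List Rx := [
  Rx.mk (nat_lit 117) (nat_lit 5) (nat_lit 6) (nat_lit 1) (nat_lit 7) (nat_lit 285) (nat_lit 218) r5_285 r8_218 (nat_lit 0) (nat_lit 0) (nat_lit 0) (nat_lit 0x806366360) (nat_lit 1067572524)]
noncomputable def e33_16 : List Rx := [
  Rx.mk (nat_lit 116) (nat_lit 4) (nat_lit 6) (nat_lit 1) (nat_lit 6) (nat_lit 271) (nat_lit 349) r5_271 r8_349 (nat_lit 5449534) (nat_lit 0) (nat_lit 0) (nat_lit 0x7ff3d72a6) (nat_lit 1080139558),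
  Rx.mk (nat_lit 117) (nat_lit 5) (nat_lit 6) (nat_lit 1) (nat_lit 7) (nat_lit 272) (nat_lit 350) r5_272 r8_350 (nat_lit 0) (nat_lit 0) (nat_lit 0) (nat_lit 0x80029938e) (nat_lit 1073741824),
  Rx.mk (nat_lit 372) (nat_lit 4) (nat_lit 6) (nat_lit 5) (nat_lit 6) (nat_lit 269) (nat_lit 347) r5_269 r8_347 (nat_lit 5449534) (nat_lit 0) (nat_lit 0) (nat_lit 0x80029938e) (nat_lit 1079191358),
  Rx.mk (nat_lit 373) (nat_lit 5) (nat_lit 6) (nat_lit 5) (nat_lit 7) (nat_lit 270) (nat_lit 348) r5_270 r8_348 (nat_lit 0) (nat_lit 0) (nat_lit 0) (nat_lit 0x80029938e) (nat_lit 1073741824)]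
noncomputable def e33_17 : List Rx := [
  Rx.mk (nat_lit 340) (nat_lit 4) (nat_lit 2) (nat_lit 5) (nat_lit 6) (nat_lit 262) (nat_lit 224) r5_262 r9_224 (nat_lit 5670405) (nat_lit 0) (nat_lit 0) (nat_lit 0x7ff06dc82) (nat_lit 1080580229),
  Rx.mk (nat_lit 341) (nat_lit 5) (nat_lit 2) (nat_lit 5) (nat_lit 7) (nat_lit 264) (nat_lit 226) r5_264 r9_226 (nat_lit 0) (nat_lit 0) (nat_lit 0) (nat_lit 0x80029938e) (nat_lit 1073741824),
  Rx.mk (nat_lit 342) (nat_lit 6) (nat_lit 2) (nat_lit 5) (nat_lit 7) (nat_lit 265) (nat_lit 228) r5_265 r9_228 (nat_lit 0) (nat_lit 0) (nat_lit 0) (nat_lit 0x80029938e) (nat_lit 1073741824),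
  Rx.mk (nat_lit 372) (nat_lit 4) (nat_lit 6) (nat_lit 5) (nat_lit 6) (nat_lit 261) (nat_lit 225) r5_261 r9_225 (nat_lit 5449534) (nat_lit 0) (nat_lit 0) (nat_lit 0x7ffef05a2) (nat_lit 1079426058),
  Rx.mk (nat_lit 373) (nat_lit 5) (nat_lit 6) (nat_lit 5) (nat_lit 7) (nat_lit 263) (nat_lit 227) r5_263 r9_227 (nat_lit 0) (nat_lit 0) (nat_lit 0) (nat_lit 0x80029938e) (nat_lit 1073741824)]
noncomputable def e33_18 : List Rx := [
  Rx.mk (nat_lit 52) (nat_lit 4) (nat_lit 6) (nat_lit 0) (nat_lit 2) (nat_lit 297) (nat_lit 343) r5_297 r4_343 (nat_lit 1641854) (nat_lit 0) (nat_lit 2493352) (nat_lit 0x7a0e2dc14) (nat_lit 1177075130),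
  Rx.mk (nat_lit 53) (nat_lit 5) (nat_lit 6) (nat_lit 0) (nat_lit 3) (nat_lit 298) (nat_lit 344) r5_298 r4_344 (nat_lit 0) (nat_lit 0) (nat_lit 2814931) (nat_lit 0x806c9d226) (nat_lit 1069803455),
  Rx.mk (nat_lit 55) (nat_lit 7) (nat_lit 6) (nat_lit 0) (nat_lit 3) (nat_lit 299) (nat_lit 345) r5_299 r4_345 (nat_lit 0) (nat_lit 0) (nat_lit 2902620) (nat_lit 0x803de17f2) (nat_lit 1072857744),
  Rx.mk (nat_lit 116) (nat_lit 4) (nat_lit 6) (nat_lit 1) (nat_lit 6) (nat_lit 300) (nat_lit 346) r5_300 r4_346 (nat_lit 1185642) (nat_lit 0) (nat_lit 0) (nat_lit 0x8143bc13a) (nat_lit 1054562866),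
  Rx.mk (nat_lit 117) (nat_lit 5) (nat_lit 6) (nat_lit 1) (nat_lit 7) (nat_lit 301) (nat_lit 347) r5_301 r4_347 (nat_lit 0) (nat_lit 0) (nat_lit 0) (nat_lit 0x835c5378c) (nat_lit 1019479724),
  Rx.mk (nat_lit 119) (nat_lit 7) (nat_lit 6) (nat_lit 1) (nat_lit 7) (nat_lit 302) (nat_lit 348) r5_302 r4_348 (nat_lit 0) (nat_lit 0) (nat_lit 0) (nat_lit 0x8069ded64) (nat_lit 1067161624)]
noncomputable def e33_19 : List Rx := [
  Rx.mk (nat_lit 116) (nat_lit 4) (nat_lit 6) (nat_lit 1) (nat_lit 6) (nat_lit 307) (nat_lit 237) r5_307 r10_237 (nat_lit 1799061) (nat_lit 0) (nat_lit 0) (nat_lit 0x8019a878c) (nat_lit 1074055785),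
  Rx.mk (nat_lit 117) (nat_lit 5) (nat_lit 6) (nat_lit 1) (nat_lit 7) (nat_lit 308) (nat_lit 238) r5_308 r10_238 (nat_lit 0) (nat_lit 0) (nat_lit 0) (nat_lit 0x804b7b61a) (nat_lit 1069091624),
  Rx.mk (nat_lit 119) (nat_lit 7) (nat_lit 6) (nat_lit 1) (nat_lit 7) (nat_lit 309) (nat_lit 239) r5_309 r10_239 (nat_lit 0) (nat_lit 0) (nat_lit 0) (nat_lit 0x804b7c312) (nat_lit 1069091424)]
noncomputable def e33_20 : List Rx := [
  Rx.mk (nat_lit 52) (nat_lit 4) (nat_lit 6) (nat_lit 0) (nat_lit 2) (nat_lit 316) (nat_lit 273) r5_316 r11_273 (nat_lit 4471406) (nat_lit 0) (nat_lit 4395115) (nat_lit 0x7107ec890) (nat_lit 1332271445),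
  Rx.mk (nat_lit 53) (nat_lit 5) (nat_lit 6) (nat_lit 0) (nat_lit 3) (nat_lit 317) (nat_lit 276) r5_317 r11_276 (nat_lit 0) (nat_lit 0) (nat_lit 3845654) (nat_lit 0x8031f6d2a) (nat_lit 1074563378),
  Rx.mk (nat_lit 55) (nat_lit 7) (nat_lit 6) (nat_lit 0) (nat_lit 3) (nat_lit 318) (nat_lit 279) r5_318 r11_279 (nat_lit 0) (nat_lit 0) (nat_lit 3932094) (nat_lit 0x801ccaf14) (nat_lit 1075997118),
  Rx.mk (nat_lit 116) (nat_lit 4) (nat_lit 6) (nat_lit 1) (nat_lit 6) (nat_lit 319) (nat_lit 274) r5_319 r11_274 (nat_lit 4540409) (nat_lit 0) (nat_lit 0) (nat_lit 0x7ffd351cc) (nat_lit 1078626533),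
  Rx.mk (nat_lit 117) (nat_lit 5) (nat_lit 6) (nat_lit 1) (nat_lit 7) (nat_lit 320) (nat_lit 277) r5_320 r11_277 (nat_lit 0) (nat_lit 0) (nat_lit 0) (nat_lit 0x80029938e) (nat_lit 1073741824),
  Rx.mk (nat_lit 119) (nat_lit 7) (nat_lit 6) (nat_lit 1) (nat_lit 7) (nat_lit 321) (nat_lit 280) r5_321 r11_280 (nat_lit 0) (nat_lit 0) (nat_lit 0) (nat_lit 0x80029938e) (nat_lit 1073741824),
  Rx.mk (nat_lit 244) (nat_lit 4) (nat_lit 6) (nat_lit 3) (nat_lit 6) (nat_lit 322) (nat_lit 275) r5_322 r11_275 (nat_lit 4883967) (nat_lit 0) (nat_lit 0) (nat_lit 0x7fed9eae2) (nat_lit 1079973691),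
  Rx.mk (nat_lit 245) (nat_lit 5) (nat_lit 6) (nat_lit 3) (nat_lit 7) (nat_lit 323) (nat_lit 278) r5_323 r11_278 (nat_lit 0) (nat_lit 0) (nat_lit 0) (nat_lit 0x80029938e) (nat_lit 1073741824)]
noncomputable def e33_21 : List Rx := [
  Rx.mk (nat_lit 342) (nat_lit 6) (nat_lit 2) (nat_lit 5) (nat_lit 7) (nat_lit 266) (nat_lit 215) r5_266 r9_215 (nat_lit 0) (nat_lit 0) (nat_lit 0) (nat_lit 0x80029938e) (nat_lit 1073741824)]
noncomputable def e33_22 : List Rx := [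
  Rx.mk (nat_lit 130) (nat_lit 2) (nat_lit 0) (nat_lit 2) (nat_lit 5) (nat_lit 4) (nat_lit 65) r5_4 r0_65 (nat_lit 0) (nat_lit 956393) (nat_lit 0) (nat_lit 0x7c593b998) (nat_lit 1135682617),
  Rx.mk (nat_lit 154) (nat_lit 2) (nat_lit 3) (nat_lit 2) (nat_lit 7) (nat_lit 5) (nat_lit 66) r5_5 r0_66 (nat_lit 0) (nat_lit 0) (nat_lit 0) (nat_lit 0x804823e18) (nat_lit 1069300924),
  Rx.mk (nat_lit 278) (nat_lit 6) (nat_lit 2) (nat_lit 4) (nat_lit 3) (nat_lit 0) (nat_lit 67) r5_0 r0_67 (nat_lit 0) (nat_lit 0) (nat_lit 1192389) (nat_lit 0x7f2e926b2) (nat_lit 1088653513),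
  Rx.mk (nat_lit 386) (nat_lit 2) (nat_lit 0) (nat_lit 6) (nat_lit 5) (nat_lit 3) (nat_lit 68) r5_3 r0_68 (nat_lit 0) (nat_lit 1158438) (nat_lit 0) (nat_lit 0x7fed5a61c) (nat_lit 1076256662),
  Rx.mk (nat_lit 390) (nat_lit 6) (nat_lit 0) (nat_lit 6) (nat_lit 5) (nat_lit 1) (nat_lit 69) r5_1 r0_69 (nat_lit 0) (nat_lit 766655) (nat_lit 0) (nat_lit 0x7495bc8de) (nat_lit 1264902279),
  Rx.mk (nat_lit 406) (nat_lit 6) (nat_lit 2) (nat_lit 6) (nat_lit 7) (nat_lit 2) (nat_lit 70) r5_2 r0_70 (nat_lit 0) (nat_lit 0) (nat_lit 0) (nat_lit 0x7fef31df0) (nat_lit 1074983524)]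
noncomputable def e33_23 : List Rx := [
  Rx.mk (nat_lit 130) (nat_lit 2) (nat_lit 0) (nat_lit 2) (nat_lit 5) (nat_lit 11) (nat_lit 58) r5_11 r1_58 (nat_lit 0) (nat_lit 1041807) (nat_lit 0) (nat_lit 0x74a17feb4) (nat_lit 1264422431),
  Rx.mk (nat_lit 138) (nat_lit 2) (nat_lit 1) (nat_lit 2) (nat_lit 7) (nat_lit 12) (nat_lit 59) r5_12 r1_59 (nat_lit 0) (nat_lit 0) (nat_lit 0) (nat_lit 0x8107244b6) (nat_lit 1057210324),
  Rx.mk (nat_lit 154) (nat_lit 2) (nat_lit 3) (nat_lit 2) (nat_lit 7) (nat_lit 13) (nat_lit 60) r5_13 r1_60 (nat_lit 0) (nat_lit 0) (nat_lit 0) (nat_lit 0x8052ab444) (nat_lit 1068632924),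
  Rx.mk (nat_lit 386) (nat_lit 2) (nat_lit 0) (nat_lit 6) (nat_lit 5) (nat_lit 9) (nat_lit 61) r5_9 r1_61 (nat_lit 0) (nat_lit 933722) (nat_lit 0) (nat_lit 0x7fb880d2e) (nat_lit 1079433146),
  Rx.mk (nat_lit 390) (nat_lit 6) (nat_lit 0) (nat_lit 6) (nat_lit 5) (nat_lit 6) (nat_lit 63) r5_6 r1_63 (nat_lit 0) (nat_lit 1331363) (nat_lit 0) (nat_lit 0x70d9a8132) (nat_lit 1327744887),
  Rx.mk (nat_lit 394) (nat_lit 2) (nat_lit 1) (nat_lit 6) (nat_lit 7) (nat_lit 10) (nat_lit 62) r5_10 r1_62 (nat_lit 0) (nat_lit 0) (nat_lit 0) (nat_lit 0x808eeb03a) (nat_lit 1064821724),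
  Rx.mk (nat_lit 398) (nat_lit 6) (nat_lit 1) (nat_lit 6) (nat_lit 7) (nat_lit 7) (nat_lit 64) r5_7 r1_64 (nat_lit 0) (nat_lit 0) (nat_lit 0) (nat_lit 0x7fd7609d8) (nat_lit 1076521124),
  Rx.mk (nat_lit 406) (nat_lit 6) (nat_lit 2) (nat_lit 6) (nat_lit 7) (nat_lit 8) (nat_lit 65) r5_8 r1_65 (nat_lit 0) (nat_lit 0) (nat_lit 0) (nat_lit 0x7fe8a5784) (nat_lit 1075407924)]
noncomputable def e33_24 : List Rx := [
  Rx.mk (nat_lit 154) (nat_lit 2) (nat_lit 3) (nat_lit 2) (nat_lit 7) (nat_lit 33) (nat_lit 58) r5_33 r4_58 (nat_lit 0) (nat_lit 0) (nat_lit 0) (nat_lit 0x80739ec28) (nat_lit 1066538624),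
  Rx.mk (nat_lit 278) (nat_lit 6) (nat_lit 2) (nat_lit 4) (nat_lit 3) (nat_lit 27) (nat_lit 59) r5_27 r4_59 (nat_lit 0) (nat_lit 0) (nat_lit 1180737) (nat_lit 0x800877684) (nat_lit 1074523561),
  Rx.mk (nat_lit 386) (nat_lit 2) (nat_lit 0) (nat_lit 6) (nat_lit 5) (nat_lit 30) (nat_lit 61) r5_30 r4_61 (nat_lit 0) (nat_lit 940616) (nat_lit 0) (nat_lit 0x802fcad94) (nat_lit 1071778540),
  Rx.mk (nat_lit 390) (nat_lit 6) (nat_lit 0) (nat_lit 6) (nat_lit 5) (nat_lit 28) (nat_lit 63) r5_28 r4_63 (nat_lit 0) (nat_lit 1975302) (nat_lit 0) (nat_lit 0x7f23bc56c) (nat_lit 1090154226),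
  Rx.mk (nat_lit 406) (nat_lit 6) (nat_lit 2) (nat_lit 6) (nat_lit 7) (nat_lit 29) (nat_lit 64) r5_29 r4_64 (nat_lit 0) (nat_lit 0) (nat_lit 0) (nat_lit 0x8024901fe) (nat_lit 1071566124),
  Rx.mk (nat_lit 410) (nat_lit 2) (nat_lit 3) (nat_lit 6) (nat_lit 7) (nat_lit 31) (nat_lit 62) r5_31 r4_62 (nat_lit 0) (nat_lit 0) (nat_lit 0) (nat_lit 0x811e5b576) (nat_lit 1055742624),
  Rx.mk (nat_lit 470) (nat_lit 6) (nat_lit 2) (nat_lit 7) (nat_lit 7) (nat_lit 32) (nat_lit 60) r5_32 r4_60 (nat_lit 0) (nat_lit 0) (nat_lit 0) (nat_lit 0x8659a71ca) (nat_lit 971123424)]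
noncomputable def e33_25 : List Rx := [
  Rx.mk (nat_lit 278) (nat_lit 6) (nat_lit 2) (nat_lit 4) (nat_lit 3) (nat_lit 102) (nat_lit 272) r5_102 r7_272 (nat_lit 0) (nat_lit 0) (nat_lit 1535629) (nat_lit 0x807a5a904) (nat_lit 1067648753),
  Rx.mk (nat_lit 386) (nat_lit 2) (nat_lit 0) (nat_lit 6) (nat_lit 5) (nat_lit 105) (nat_lit 271) r5_105 r7_271 (nat_lit 0) (nat_lit 1265249) (nat_lit 0) (nat_lit 0x7ff9d6b48) (nat_lit 1075552073),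
  Rx.mk (nat_lit 390) (nat_lit 6) (nat_lit 0) (nat_lit 6) (nat_lit 5) (nat_lit 103) (nat_lit 270) r5_103 r7_270 (nat_lit 0) (nat_lit 3797391) (nat_lit 0) (nat_lit 0x7bc59188c) (nat_lit 1148120715),
  Rx.mk (nat_lit 406) (nat_lit 6) (nat_lit 2) (nat_lit 6) (nat_lit 7) (nat_lit 104) (nat_lit 273) r5_104 r7_273 (nat_lit 0) (nat_lit 0) (nat_lit 0) (nat_lit 0x7ff327c3e) (nat_lit 1074733924)]
noncomputable def e33_26 : List Rx := [
  Rx.mk (nat_lit 386) (nat_lit 2) (nat_lit 0) (nat_lit 6) (nat_lit 5) (nat_lit 121) (nat_lit 202) r5_121 r8_202 (nat_lit 0) (nat_lit 1910235) (nat_lit 0) (nat_lit 0x7f9e71762) (nat_lit 1082109159),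
  Rx.mk (nat_lit 390) (nat_lit 6) (nat_lit 0) (nat_lit 6) (nat_lit 5) (nat_lit 118) (nat_lit 201) r5_118 r8_201 (nat_lit 0) (nat_lit 5787882) (nat_lit 0) (nat_lit 0x7f8f3dde0) (nat_lit 1086988006),
  Rx.mk (nat_lit 394) (nat_lit 2) (nat_lit 1) (nat_lit 6) (nat_lit 7) (nat_lit 122) (nat_lit 204) r5_122 r8_204 (nat_lit 0) (nat_lit 0) (nat_lit 0) (nat_lit 0x805be6810) (nat_lit 1068047724),
  Rx.mk (nat_lit 398) (nat_lit 6) (nat_lit 1) (nat_lit 6) (nat_lit 7) (nat_lit 119) (nat_lit 203) r5_119 r8_203 (nat_lit 0) (nat_lit 0) (nat_lit 0) (nat_lit 0x80029938e) (nat_lit 1073741824),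
  Rx.mk (nat_lit 406) (nat_lit 6) (nat_lit 2) (nat_lit 6) (nat_lit 7) (nat_lit 120) (nat_lit 205) r5_120 r8_205 (nat_lit 0) (nat_lit 0) (nat_lit 0) (nat_lit 0x80029938e) (nat_lit 1073741824)]
noncomputable def e33_27 : List Rx := [
  Rx.mk (nat_lit 278) (nat_lit 6) (nat_lit 2) (nat_lit 4) (nat_lit 3) (nat_lit 115) (nat_lit 58) r5_115 r8_58 (nat_lit 0) (nat_lit 0) (nat_lit 3122645) (nat_lit 0x801abea22) (nat_lit 1075316369),
  Rx.mk (nat_lit 342) (nat_lit 6) (nat_lit 2) (nat_lit 5) (nat_lit 7) (nat_lit 116) (nat_lit 59) r5_116 r8_59 (nat_lit 0) (nat_lit 0) (nat_lit 0) (nat_lit 0x8019963ca) (nat_lit 1072269624),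
  Rx.mk (nat_lit 406) (nat_lit 6) (nat_lit 2) (nat_lit 6) (nat_lit 7) (nat_lit 117) (nat_lit 60) r5_117 r8_60 (nat_lit 0) (nat_lit 0) (nat_lit 0) (nat_lit 0x80029938e) (nat_lit 1073741824)]
noncomputable def e33_28 : List Rx := [
  Rx.mk (nat_lit 278) (nat_lit 6) (nat_lit 2) (nat_lit 4) (nat_lit 3) (nat_lit 134) (nat_lit 215) r5_134 r10_215 (nat_lit 0) (nat_lit 0) (nat_lit 1919901) (nat_lit 0x80c317552) (nat_lit 1063433825),
  Rx.mk (nat_lit 386) (nat_lit 2) (nat_lit 0) (nat_lit 6) (nat_lit 5) (nat_lit 137) (nat_lit 213) r5_137 r10_213 (nat_lit 0) (nat_lit 1409940) (nat_lit 0) (nat_lit 0x8011f0f3a) (nat_lit 1074160464),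
  Rx.mk (nat_lit 390) (nat_lit 6) (nat_lit 0) (nat_lit 6) (nat_lit 5) (nat_lit 135) (nat_lit 212) r5_135 r10_212 (nat_lit 0) (nat_lit 4741774) (nat_lit 0) (nat_lit 0x78dac94e6) (nat_lit 1197703898),
  Rx.mk (nat_lit 406) (nat_lit 6) (nat_lit 2) (nat_lit 6) (nat_lit 7) (nat_lit 136) (nat_lit 217) r5_136 r10_217 (nat_lit 0) (nat_lit 0) (nat_lit 0) (nat_lit 0x7ff5fb7f8) (nat_lit 1074552324),
  Rx.mk (nat_lit 410) (nat_lit 2) (nat_lit 3) (nat_lit 6) (nat_lit 7) (nat_lit 138) (nat_lit 214) r5_138 r10_214 (nat_lit 0) (nat_lit 0) (nat_lit 0) (nat_lit 0x80af22bc8) (nat_lit 1062775524),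
  Rx.mk (nat_lit 470) (nat_lit 6) (nat_lit 2) (nat_lit 7) (nat_lit 7) (nat_lit 139) (nat_lit 216) r5_139 r10_216 (nat_lit 0) (nat_lit 0) (nat_lit 0) (nat_lit 0x80348d4f8) (nat_lit 1070549224)]
noncomputable def e33_29 : List Rx := [
  Rx.mk (nat_lit 470) (nat_lit 6) (nat_lit 2) (nat_lit 7) (nat_lit 7) (nat_lit 230) (nat_lit 265) r5_230 r11_265 (nat_lit 0) (nat_lit 0) (nat_lit 0) (nat_lit 0x9450c7056) (nat_lit 745300424)]
noncomputable def e33_30 : List Rx := [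
  Rx.mk (nat_lit 55) (nat_lit 7) (nat_lit 6) (nat_lit 0) (nat_lit 3) (nat_lit 303) (nat_lit 303) r5_303 r5_303 (nat_lit 0) (nat_lit 0) (nat_lit 461918) (nat_lit 0x8c1746ac8) (nat_lit 878735242),
  Rx.mk (nat_lit 119) (nat_lit 7) (nat_lit 6) (nat_lit 1) (nat_lit 7) (nat_lit 304) (nat_lit 304) r5_304 r5_304 (nat_lit 0) (nat_lit 0) (nat_lit 0) (nat_lit 0x888243294) (nat_lit 936224624)]
noncomputable def e33_31 : List Rx := [
  Rx.mk (nat_lit 119) (nat_lit 7) (nat_lit 6) (nat_lit 1) (nat_lit 7) (nat_lit 310) (nat_lit 356) r5_310 r11_356 (nat_lit 0) (nat_lit 0) (nat_lit 0) (nat_lit 0x962b5e434) (nat_lit 715321324)]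
noncomputable def e33_32 : List Rx := [
  Rx.mk (nat_lit 35) (nat_lit 3) (nat_lit 4) (nat_lit 0) (nat_lit 1) (nat_lit 70) (nat_lit 90) r5_70 r6_90 (nat_lit 0) (nat_lit 16168) (nat_lit 22438) (nat_lit 0x7a1c8609a) (nat_lit 1171966330),
  Rx.mk (nat_lit 51) (nat_lit 3) (nat_lit 6) (nat_lit 0) (nat_lit 3) (nat_lit 71) (nat_lit 92) r5_71 r6_92 (nat_lit 0) (nat_lit 0) (nat_lit 1145575) (nat_lit 0x81615e058) (nat_lit 1052648999),
  Rx.mk (nat_lit 59) (nat_lit 3) (nat_lit 7) (nat_lit 0) (nat_lit 3) (nat_lit 72) (nat_lit 91) r5_72 r6_91 (nat_lit 0) (nat_lit 0) (nat_lit 2825381) (nat_lit 0x7fbf7b2aa) (nat_lit 1080886705),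
  Rx.mk (nat_lit 163) (nat_lit 3) (nat_lit 4) (nat_lit 2) (nat_lit 5) (nat_lit 75) (nat_lit 95) r5_75 r6_95 (nat_lit 0) (nat_lit 294333) (nat_lit 0) (nat_lit 0x869783e6c) (nat_lit 967494857),
  Rx.mk (nat_lit 184) (nat_lit 0) (nat_lit 7) (nat_lit 2) (nat_lit 6) (nat_lit 73) (nat_lit 89) r5_73 r6_89 (nat_lit 826810) (nat_lit 0) (nat_lit 0) (nat_lit 0x802fe455a) (nat_lit 1071641334),
  Rx.mk (nat_lit 186) (nat_lit 2) (nat_lit 7) (nat_lit 2) (nat_lit 7) (nat_lit 74) (nat_lit 97) r5_74 r6_97 (nat_lit 0) (nat_lit 0) (nat_lit 0) (nat_lit 0x804ab9c7c) (nat_lit 1069132524),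
  Rx.mk (nat_lit 187) (nat_lit 3) (nat_lit 7) (nat_lit 2) (nat_lit 7) (nat_lit 76) (nat_lit 96) r5_76 r6_96 (nat_lit 0) (nat_lit 0) (nat_lit 0) (nat_lit 0x940158de4) (nat_lit 750318324),
  Rx.mk (nat_lit 227) (nat_lit 3) (nat_lit 4) (nat_lit 3) (nat_lit 5) (nat_lit 78) (nat_lit 93) r5_78 r6_93 (nat_lit 0) (nat_lit 3813020) (nat_lit 0) (nat_lit 0x7e7fe50b0) (nat_lit 1102664344),
  Rx.mk (nat_lit 243) (nat_lit 3) (nat_lit 6) (nat_lit 3) (nat_lit 7) (nat_lit 79) (nat_lit 94) r5_79 r6_94 (nat_lit 0) (nat_lit 0) (nat_lit 0) (nat_lit 0x8019076ca) (nat_lit 1072298224),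
  Rx.mk (nat_lit 247) (nat_lit 7) (nat_lit 6) (nat_lit 3) (nat_lit 7) (nat_lit 77) (nat_lit 88) r5_77 r6_88 (nat_lit 0) (nat_lit 0) (nat_lit 0) (nat_lit 0x7d806d86c) (nat_lit 1115429524)]
noncomputable def e33_33 : List Rx := [
  Rx.mk (nat_lit 59) (nat_lit 3) (nat_lit 7) (nat_lit 0) (nat_lit 3) (nat_lit 43) (nat_lit 34) r5_43 r5_34 (nat_lit 0) (nat_lit 0) (nat_lit 814) (nat_lit 0x80008816c) (nat_lit 1073709438),
  Rx.mk (nat_lit 154) (nat_lit 2) (nat_lit 3) (nat_lit 2) (nat_lit 7) (nat_lit 46) (nat_lit 41) r5_46 r5_41 (nat_lit 0) (nat_lit 0) (nat_lit 0) (nat_lit 0x7cf238c40) (nat_lit 1124699524),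
  Rx.mk (nat_lit 184) (nat_lit 0) (nat_lit 7) (nat_lit 2) (nat_lit 6) (nat_lit 44) (nat_lit 39) r5_44 r5_39 (nat_lit 24270) (nat_lit 0) (nat_lit 0) (nat_lit 0x67d9da6c2) (nat_lit 1476410594),
  Rx.mk (nat_lit 186) (nat_lit 2) (nat_lit 7) (nat_lit 2) (nat_lit 7) (nat_lit 45) (nat_lit 42) r5_45 r5_42 (nat_lit 0) (nat_lit 0) (nat_lit 0) (nat_lit 0x7fae9a378) (nat_lit 1079141924),
  Rx.mk (nat_lit 187) (nat_lit 3) (nat_lit 7) (nat_lit 2) (nat_lit 7) (nat_lit 47) (nat_lit 40) r5_47 r5_40 (nat_lit 0) (nat_lit 0) (nat_lit 0) (nat_lit 0x9ccef73e2) (nat_lit 607894524),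
  Rx.mk (nat_lit 227) (nat_lit 3) (nat_lit 4) (nat_lit 3) (nat_lit 5) (nat_lit 49) (nat_lit 35) r5_49 r5_35 (nat_lit 0) (nat_lit 21901) (nat_lit 0) (nat_lit 0x6a5290b5a) (nat_lit 1435199925),
  Rx.mk (nat_lit 243) (nat_lit 3) (nat_lit 6) (nat_lit 3) (nat_lit 7) (nat_lit 50) (nat_lit 37) r5_50 r5_37 (nat_lit 0) (nat_lit 0) (nat_lit 0) (nat_lit 0x79988cc26) (nat_lit 1180574724),
  Rx.mk (nat_lit 247) (nat_lit 7) (nat_lit 6) (nat_lit 3) (nat_lit 7) (nat_lit 48) (nat_lit 38) r5_48 r5_38 (nat_lit 0) (nat_lit 0) (nat_lit 0) (nat_lit 0x758253314) (nat_lit 1248689624),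
  Rx.mk (nat_lit 251) (nat_lit 3) (nat_lit 7) (nat_lit 3) (nat_lit 7) (nat_lit 51) (nat_lit 36) r5_51 r5_36 (nat_lit 0) (nat_lit 0) (nat_lit 0) (nat_lit 0x7f819f9a4) (nat_lit 1082075024),
  Rx.mk (nat_lit 278) (nat_lit 6) (nat_lit 2) (nat_lit 4) (nat_lit 3) (nat_lit 34) (nat_lit 43) r5_34 r5_43 (nat_lit 0) (nat_lit 0) (nat_lit 814) (nat_lit 0x80008816c) (nat_lit 1073709438),
  Rx.mk (nat_lit 390) (nat_lit 6) (nat_lit 0) (nat_lit 6) (nat_lit 5) (nat_lit 35) (nat_lit 49) r5_35 r5_49 (nat_lit 0) (nat_lit 21901) (nat_lit 0) (nat_lit 0x6a5290b5a) (nat_lit 1435199925),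
  Rx.mk (nat_lit 406) (nat_lit 6) (nat_lit 2) (nat_lit 6) (nat_lit 7) (nat_lit 36) (nat_lit 51) r5_36 r5_51 (nat_lit 0) (nat_lit 0) (nat_lit 0) (nat_lit 0x7f819f9a4) (nat_lit 1082075024),
  Rx.mk (nat_lit 410) (nat_lit 2) (nat_lit 3) (nat_lit 6) (nat_lit 7) (nat_lit 38) (nat_lit 48) r5_38 r5_48 (nat_lit 0) (nat_lit 0) (nat_lit 0) (nat_lit 0x758253314) (nat_lit 1248689624),
  Rx.mk (nat_lit 414) (nat_lit 6) (nat_lit 3) (nat_lit 6) (nat_lit 7) (nat_lit 37) (nat_lit 50) r5_37 r5_50 (nat_lit 0) (nat_lit 0) (nat_lit 0) (nat_lit 0x79988cc26) (nat_lit 1180574724),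
  Rx.mk (nat_lit 468) (nat_lit 4) (nat_lit 2) (nat_lit 7) (nat_lit 6) (nat_lit 39) (nat_lit 44) r5_39 r5_44 (nat_lit 24270) (nat_lit 0) (nat_lit 0) (nat_lit 0x67d9da6c2) (nat_lit 1476410594),
  Rx.mk (nat_lit 470) (nat_lit 6) (nat_lit 2) (nat_lit 7) (nat_lit 7) (nat_lit 40) (nat_lit 47) r5_40 r5_47 (nat_lit 0) (nat_lit 0) (nat_lit 0) (nat_lit 0x9ccef73e2) (nat_lit 607894524),
  Rx.mk (nat_lit 471) (nat_lit 7) (nat_lit 2) (nat_lit 7) (nat_lit 7) (nat_lit 42) (nat_lit 45) r5_42 r5_45 (nat_lit 0) (nat_lit 0) (nat_lit 0) (nat_lit 0x7fae9a378) (nat_lit 1079141924),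
  Rx.mk (nat_lit 503) (nat_lit 7) (nat_lit 6) (nat_lit 7) (nat_lit 7) (nat_lit 41) (nat_lit 46) r5_41 r5_46 (nat_lit 0) (nat_lit 0) (nat_lit 0) (nat_lit 0x7cf238c40) (nat_lit 1124699524)]
noncomputable def e33_34 : List Rx := [
  Rx.mk (nat_lit 276) (nat_lit 4) (nat_lit 2) (nat_lit 4) (nat_lit 2) (nat_lit 140) (nat_lit 9) r5_140 r11_9 (nat_lit 175020) (nat_lit 0) (nat_lit 125684) (nat_lit 0x733f0fb0e) (nat_lit 1286716228),
  Rx.mk (nat_lit 278) (nat_lit 6) (nat_lit 2) (nat_lit 4) (nat_lit 3) (nat_lit 141) (nat_lit 10) r5_141 r11_10 (nat_lit 0) (nat_lit 0) (nat_lit 1188030) (nat_lit 0x853c4c630) (nat_lit 990345654),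
  Rx.mk (nat_lit 390) (nat_lit 6) (nat_lit 0) (nat_lit 6) (nat_lit 5) (nat_lit 142) (nat_lit 16) r5_142 r11_16 (nat_lit 0) (nat_lit 2807402) (nat_lit 0) (nat_lit 0x7fb00afd2) (nat_lit 1081869426),
  Rx.mk (nat_lit 406) (nat_lit 6) (nat_lit 2) (nat_lit 6) (nat_lit 7) (nat_lit 143) (nat_lit 18) r5_143 r11_18 (nat_lit 0) (nat_lit 0) (nat_lit 0) (nat_lit 0x80029938e) (nat_lit 1073741824),
  Rx.mk (nat_lit 410) (nat_lit 2) (nat_lit 3) (nat_lit 6) (nat_lit 7) (nat_lit 145) (nat_lit 15) r5_145 r11_15 (nat_lit 0) (nat_lit 0) (nat_lit 0) (nat_lit 0x8c926658c) (nat_lit 870523024),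
  Rx.mk (nat_lit 414) (nat_lit 6) (nat_lit 3) (nat_lit 6) (nat_lit 7) (nat_lit 144) (nat_lit 17) r5_144 r11_17 (nat_lit 0) (nat_lit 0) (nat_lit 0) (nat_lit 0x80029938e) (nat_lit 1073741824),
  Rx.mk (nat_lit 468) (nat_lit 4) (nat_lit 2) (nat_lit 7) (nat_lit 6) (nat_lit 146) (nat_lit 11) r5_146 r11_11 (nat_lit 1759938) (nat_lit 0) (nat_lit 0) (nat_lit 0x802382334) (nat_lit 1073384662),
  Rx.mk (nat_lit 470) (nat_lit 6) (nat_lit 2) (nat_lit 7) (nat_lit 7) (nat_lit 147) (nat_lit 14) r5_147 r11_14 (nat_lit 0) (nat_lit 0) (nat_lit 0) (nat_lit 0x8087d4972) (nat_lit 1065267524),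
  Rx.mk (nat_lit 471) (nat_lit 7) (nat_lit 2) (nat_lit 7) (nat_lit 7) (nat_lit 149) (nat_lit 12) r5_149 r11_12 (nat_lit 0) (nat_lit 0) (nat_lit 0) (nat_lit 0x801ffa1a8) (nat_lit 1071862024),
  Rx.mk (nat_lit 503) (nat_lit 7) (nat_lit 6) (nat_lit 7) (nat_lit 7) (nat_lit 148) (nat_lit 13) r5_148 r11_13 (nat_lit 0) (nat_lit 0) (nat_lit 0) (nat_lit 0x8093c6438) (nat_lit 1064504724)]
noncomputable def e33_35 : List Rx := [
  Rx.mk (nat_lit 35) (nat_lit 3) (nat_lit 4) (nat_lit 0) (nat_lit 1) (nat_lit 232) (nat_lit 363) r5_232 r6_363 (nat_lit 0) (nat_lit 369792) (nat_lit 398639) (nat_lit 0x7a2eaa5be) (nat_lit 1171560755),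
  Rx.mk (nat_lit 51) (nat_lit 3) (nat_lit 6) (nat_lit 0) (nat_lit 3) (nat_lit 233) (nat_lit 365) r5_233 r6_365 (nat_lit 0) (nat_lit 0) (nat_lit 1584864) (nat_lit 0x83f760f68) (nat_lit 1011269188),
  Rx.mk (nat_lit 55) (nat_lit 7) (nat_lit 6) (nat_lit 0) (nat_lit 3) (nat_lit 231) (nat_lit 366) r5_231 r6_366 (nat_lit 0) (nat_lit 0) (nat_lit 13815) (nat_lit 0x85fe01f32) (nat_lit 976860439),
  Rx.mk (nat_lit 163) (nat_lit 3) (nat_lit 4) (nat_lit 2) (nat_lit 5) (nat_lit 234) (nat_lit 364) r5_234 r6_364 (nat_lit 0) (nat_lit 503576) (nat_lit 0) (nat_lit 0x81fec8a00) (nat_lit 1042043700)]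
noncomputable def e33_36 : List Rx := [
  Rx.mk (nat_lit 35) (nat_lit 3) (nat_lit 4) (nat_lit 0) (nat_lit 1) (nat_lit 246) (nat_lit 270) r5_246 r12_270 (nat_lit 0) (nat_lit 20188) (nat_lit 27932) (nat_lit 0x7a72d005e) (nat_lit 1166357044),
  Rx.mk (nat_lit 51) (nat_lit 3) (nat_lit 6) (nat_lit 0) (nat_lit 3) (nat_lit 247) (nat_lit 274) r5_247 r12_274 (nat_lit 0) (nat_lit 0) (nat_lit 745268) (nat_lit 0x8ddce6b6a) (nat_lit 850382092),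
  Rx.mk (nat_lit 55) (nat_lit 7) (nat_lit 6) (nat_lit 0) (nat_lit 3) (nat_lit 245) (nat_lit 275) r5_245 r12_275 (nat_lit 0) (nat_lit 0) (nat_lit 17041) (nat_lit 0x8b003f3bc) (nat_lit 895869165),
  Rx.mk (nat_lit 59) (nat_lit 3) (nat_lit 7) (nat_lit 0) (nat_lit 3) (nat_lit 248) (nat_lit 272) r5_248 r12_272 (nat_lit 0) (nat_lit 0) (nat_lit 1388645) (nat_lit 0x7e512bfee) (nat_lit 1103271969),
  Rx.mk (nat_lit 163) (nat_lit 3) (nat_lit 4) (nat_lit 2) (nat_lit 5) (nat_lit 249) (nat_lit 271) r5_249 r12_271 (nat_lit 0) (nat_lit 225577) (nat_lit 0) (nat_lit 0x86c1ebf38) (nat_lit 964739301),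
  Rx.mk (nat_lit 187) (nat_lit 3) (nat_lit 7) (nat_lit 2) (nat_lit 7) (nat_lit 250) (nat_lit 273) r5_250 r12_273 (nat_lit 0) (nat_lit 0) (nat_lit 0) (nat_lit 0x99d4baab6) (nat_lit 656104224),
  Rx.mk (nat_lit 247) (nat_lit 7) (nat_lit 6) (nat_lit 3) (nat_lit 7) (nat_lit 251) (nat_lit 276) r5_251 r12_276 (nat_lit 0) (nat_lit 0) (nat_lit 0) (nat_lit 0x7ff59fdd6) (nat_lit 1074454124)]
noncomputable def e33_37 : List Rx := [
  Rx.mk (nat_lit 168) (nat_lit 0) (nat_lit 5) (nat_lit 2) (nat_lit 6) (nat_lit 61) (nat_lit 89) r5_61 r0_89 (nat_lit 26638681) (nat_lit 0) (nat_lit 0) (nat_lit 0x7d4f8ee26) (nat_lit 1145302105),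
  Rx.mk (nat_lit 170) (nat_lit 2) (nat_lit 5) (nat_lit 2) (nat_lit 7) (nat_lit 62) (nat_lit 90) r5_62 r0_90 (nat_lit 0) (nat_lit 0) (nat_lit 0) (nat_lit 0x83bd7abf0) (nat_lit 1013342324)]
noncomputable def e33_38 : List Rx := [
  Rx.mk (nat_lit 32) (nat_lit 0) (nat_lit 4) (nat_lit 0) (nat_lit 0) (nat_lit 152) (nat_lit 330) r5_152 r0_330 (nat_lit 352) (nat_lit 325) (nat_lit 330744107) (nat_lit 0x800010eb4) (nat_lit 1404482608),
  Rx.mk (nat_lit 33) (nat_lit 1) (nat_lit 4) (nat_lit 0) (nat_lit 1) (nat_lit 155) (nat_lit 331) r5_155 r0_331 (nat_lit 0) (nat_lit 9541506) (nat_lit 2163217) (nat_lit 0x7d2876e7e) (nat_lit 1132919447),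
  Rx.mk (nat_lit 40) (nat_lit 0) (nat_lit 5) (nat_lit 0) (nat_lit 2) (nat_lit 153) (nat_lit 335) r5_153 r0_335 (nat_lit 2550648) (nat_lit 0) (nat_lit 173854821) (nat_lit 0x75a4173f6) (nat_lit 1422939093),
  Rx.mk (nat_lit 41) (nat_lit 1) (nat_lit 5) (nat_lit 0) (nat_lit 3) (nat_lit 156) (nat_lit 336) r5_156 r0_336 (nat_lit 0) (nat_lit 0) (nat_lit 5090091) (nat_lit 0x7fe496148) (nat_lit 1080758915),
  Rx.mk (nat_lit 48) (nat_lit 0) (nat_lit 6) (nat_lit 0) (nat_lit 2) (nat_lit 154) (nat_lit 340) r5_154 r0_340 (nat_lit 281567) (nat_lit 0) (nat_lit 98422675) (nat_lit 0x7f7c07604) (nat_lit 1181102766),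
  Rx.mk (nat_lit 49) (nat_lit 1) (nat_lit 6) (nat_lit 0) (nat_lit 3) (nat_lit 157) (nat_lit 341) r5_157 r0_341 (nat_lit 0) (nat_lit 0) (nat_lit 1226898) (nat_lit 0x7f8055c9c) (nat_lit 1083371622),
  Rx.mk (nat_lit 160) (nat_lit 0) (nat_lit 4) (nat_lit 2) (nat_lit 4) (nat_lit 158) (nat_lit 332) r5_158 r0_332 (nat_lit 1646045) (nat_lit 1903628) (nat_lit 0) (nat_lit 0x64837e9fc) (nat_lit 1535649097),
  Rx.mk (nat_lit 161) (nat_lit 1) (nat_lit 4) (nat_lit 2) (nat_lit 5) (nat_lit 160) (nat_lit 333) r5_160 r0_333 (nat_lit 0) (nat_lit 3491444) (nat_lit 0) (nat_lit 0x7fef1f6dc) (nat_lit 1078469368),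
  Rx.mk (nat_lit 162) (nat_lit 2) (nat_lit 4) (nat_lit 2) (nat_lit 5) (nat_lit 162) (nat_lit 334) r5_162 r0_334 (nat_lit 0) (nat_lit 4819430) (nat_lit 0) (nat_lit 0x75c3dc4d4) (nat_lit 1249292654),
  Rx.mk (nat_lit 168) (nat_lit 0) (nat_lit 5) (nat_lit 2) (nat_lit 6) (nat_lit 159) (nat_lit 337) r5_159 r0_337 (nat_lit 3048911) (nat_lit 0) (nat_lit 0) (nat_lit 0x7f12771a8) (nat_lit 1092353635),
  Rx.mk (nat_lit 169) (nat_lit 1) (nat_lit 5) (nat_lit 2) (nat_lit 7) (nat_lit 161) (nat_lit 338) r5_161 r0_338 (nat_lit 0) (nat_lit 0) (nat_lit 0) (nat_lit 0x7ffdbe706) (nat_lit 1074053224),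
  Rx.mk (nat_lit 170) (nat_lit 2) (nat_lit 5) (nat_lit 2) (nat_lit 7) (nat_lit 163) (nat_lit 339) r5_163 r0_339 (nat_lit 0) (nat_lit 0) (nat_lit 0) (nat_lit 0x801989bc0) (nat_lit 1072271724)]
noncomputable def e33_39 : List Rx := [
  Rx.mk (nat_lit 40) (nat_lit 0) (nat_lit 5) (nat_lit 0) (nat_lit 2) (nat_lit 184) (nat_lit 88) r5_184 r7_88 (nat_lit 2284157) (nat_lit 0) (nat_lit 10009322) (nat_lit 0x6e04ad22c) (nat_lit 1385922203),
  Rx.mk (nat_lit 41) (nat_lit 1) (nat_lit 5) (nat_lit 0) (nat_lit 3) (nat_lit 185) (nat_lit 90) r5_185 r7_90 (nat_lit 0) (nat_lit 0) (nat_lit 5449534) (nat_lit 0x80029938e) (nat_lit 1079191358),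
  Rx.mk (nat_lit 168) (nat_lit 0) (nat_lit 5) (nat_lit 2) (nat_lit 6) (nat_lit 186) (nat_lit 89) r5_186 r7_89 (nat_lit 2216475) (nat_lit 0) (nat_lit 0) (nat_lit 0x802e1cf2e) (nat_lit 1073168099),
  Rx.mk (nat_lit 169) (nat_lit 1) (nat_lit 5) (nat_lit 2) (nat_lit 7) (nat_lit 187) (nat_lit 91) r5_187 r7_91 (nat_lit 0) (nat_lit 0) (nat_lit 0) (nat_lit 0x8045fce28) (nat_lit 1069439724),
  Rx.mk (nat_lit 170) (nat_lit 2) (nat_lit 5) (nat_lit 2) (nat_lit 7) (nat_lit 188) (nat_lit 92) r5_188 r7_92 (nat_lit 0) (nat_lit 0) (nat_lit 0) (nat_lit 0x7fe8d0dda) (nat_lit 1075400424)]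
noncomputable def e33_40 : List Rx := [
  Rx.mk (nat_lit 33) (nat_lit 1) (nat_lit 4) (nat_lit 0) (nat_lit 1) (nat_lit 276) (nat_lit 360) r5_276 r2_360 (nat_lit 0) (nat_lit 5058101) (nat_lit 5025424) (nat_lit 0x55552dd46) (nat_lit 1795302649),
  Rx.mk (nat_lit 41) (nat_lit 1) (nat_lit 5) (nat_lit 0) (nat_lit 3) (nat_lit 277) (nat_lit 363) r5_277 r2_363 (nat_lit 0) (nat_lit 0) (nat_lit 5449534) (nat_lit 0x80029938e) (nat_lit 1079191358),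
  Rx.mk (nat_lit 49) (nat_lit 1) (nat_lit 6) (nat_lit 0) (nat_lit 3) (nat_lit 278) (nat_lit 366) r5_278 r2_366 (nat_lit 0) (nat_lit 0) (nat_lit 5694937) (nat_lit 0x7ff1f1540) (nat_lit 1080506361),
  Rx.mk (nat_lit 53) (nat_lit 5) (nat_lit 6) (nat_lit 0) (nat_lit 3) (nat_lit 275) (nat_lit 367) r5_275 r2_367 (nat_lit 0) (nat_lit 0) (nat_lit 5449534) (nat_lit 0x80029938e) (nat_lit 1079191358),
  Rx.mk (nat_lit 97) (nat_lit 1) (nat_lit 4) (nat_lit 1) (nat_lit 5) (nat_lit 280) (nat_lit 361) r5_280 r2_361 (nat_lit 0) (nat_lit 55595022) (nat_lit 0) (nat_lit 0x7292f7cc2) (nat_lit 1353270946),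
  Rx.mk (nat_lit 105) (nat_lit 1) (nat_lit 5) (nat_lit 1) (nat_lit 7) (nat_lit 281) (nat_lit 364) r5_281 r2_364 (nat_lit 0) (nat_lit 0) (nat_lit 0) (nat_lit 0x80029938e) (nat_lit 1073741824),
  Rx.mk (nat_lit 113) (nat_lit 1) (nat_lit 6) (nat_lit 1) (nat_lit 7) (nat_lit 282) (nat_lit 368) r5_282 r2_368 (nat_lit 0) (nat_lit 0) (nat_lit 0) (nat_lit 0x80029938e) (nat_lit 1073741824),
  Rx.mk (nat_lit 117) (nat_lit 5) (nat_lit 6) (nat_lit 1) (nat_lit 7) (nat_lit 279) (nat_lit 369) r5_279 r2_369 (nat_lit 0) (nat_lit 0) (nat_lit 0) (nat_lit 0x80029938e) (nat_lit 1073741824),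
  Rx.mk (nat_lit 161) (nat_lit 1) (nat_lit 4) (nat_lit 2) (nat_lit 5) (nat_lit 283) (nat_lit 362) r5_283 r2_362 (nat_lit 0) (nat_lit 7517454) (nat_lit 0) (nat_lit 0x7fde0b6c0) (nat_lit 1083611778),
  Rx.mk (nat_lit 169) (nat_lit 1) (nat_lit 5) (nat_lit 2) (nat_lit 7) (nat_lit 284) (nat_lit 365) r5_284 r2_365 (nat_lit 0) (nat_lit 0) (nat_lit 0) (nat_lit 0x80029938e) (nat_lit 1073741824)]
noncomputable def e33_41 : List Rx := [
  Rx.mk (nat_lit 41) (nat_lit 1) (nat_lit 5) (nat_lit 0) (nat_lit 3) (nat_lit 290) (nat_lit 324) r5_290 r9_324 (nat_lit 0) (nat_lit 0) (nat_lit 5449534) (nat_lit 0x80029938e) (nat_lit 1079191358),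
  Rx.mk (nat_lit 105) (nat_lit 1) (nat_lit 5) (nat_lit 1) (nat_lit 7) (nat_lit 291) (nat_lit 325) r5_291 r9_325 (nat_lit 0) (nat_lit 0) (nat_lit 0) (nat_lit 0x80029938e) (nat_lit 1073741824),
  Rx.mk (nat_lit 169) (nat_lit 1) (nat_lit 5) (nat_lit 2) (nat_lit 7) (nat_lit 292) (nat_lit 326) r5_292 r9_326 (nat_lit 0) (nat_lit 0) (nat_lit 0) (nat_lit 0x80029938e) (nat_lit 1073741824)]
noncomputable def e33_42 : List Rx := [
  Rx.mk (nat_lit 97) (nat_lit 1) (nat_lit 4) (nat_lit 1) (nat_lit 5) (nat_lit 287) (nat_lit 307) r5_287 r9_307 (nat_lit 0) (nat_lit 55741436) (nat_lit 0) (nat_lit 0x760962d32) (nat_lit 1295686160),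
  Rx.mk (nat_lit 105) (nat_lit 1) (nat_lit 5) (nat_lit 1) (nat_lit 7) (nat_lit 288) (nat_lit 308) r5_288 r9_308 (nat_lit 0) (nat_lit 0) (nat_lit 0) (nat_lit 0x80029938e) (nat_lit 1073741824),
  Rx.mk (nat_lit 113) (nat_lit 1) (nat_lit 6) (nat_lit 1) (nat_lit 7) (nat_lit 289) (nat_lit 310) r5_289 r9_310 (nat_lit 0) (nat_lit 0) (nat_lit 0) (nat_lit 0x80029938e) (nat_lit 1073741824),
  Rx.mk (nat_lit 117) (nat_lit 5) (nat_lit 6) (nat_lit 1) (nat_lit 7) (nat_lit 286) (nat_lit 309) r5_286 r9_309 (nat_lit 0) (nat_lit 0) (nat_lit 0) (nat_lit 0x80029938e) (nat_lit 1073741824)]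
noncomputable def e33_43 : List Rx := [
  Rx.mk (nat_lit 33) (nat_lit 1) (nat_lit 4) (nat_lit 0) (nat_lit 1) (nat_lit 164) (nat_lit 311) r5_164 r1_311 (nat_lit 0) (nat_lit 89993226) (nat_lit 4362951) (nat_lit 0x7894e6d52) (nat_lit 1291869601),
  Rx.mk (nat_lit 41) (nat_lit 1) (nat_lit 5) (nat_lit 0) (nat_lit 3) (nat_lit 165) (nat_lit 313) r5_165 r1_313 (nat_lit 0) (nat_lit 0) (nat_lit 3697266) (nat_lit 0x803df29c6) (nat_lit 1073649890),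
  Rx.mk (nat_lit 49) (nat_lit 1) (nat_lit 6) (nat_lit 0) (nat_lit 3) (nat_lit 166) (nat_lit 315) r5_166 r1_315 (nat_lit 0) (nat_lit 0) (nat_lit 1434760) (nat_lit 0x8012c14dc) (nat_lit 1074124184),
  Rx.mk (nat_lit 161) (nat_lit 1) (nat_lit 4) (nat_lit 2) (nat_lit 5) (nat_lit 167) (nat_lit 312) r5_167 r1_312 (nat_lit 0) (nat_lit 3039288) (nat_lit 0) (nat_lit 0x80c38d252) (nat_lit 1064522612),
  Rx.mk (nat_lit 169) (nat_lit 1) (nat_lit 5) (nat_lit 2) (nat_lit 7) (nat_lit 168) (nat_lit 314) r5_168 r1_314 (nat_lit 0) (nat_lit 0) (nat_lit 0) (nat_lit 0x80299d296) (nat_lit 1071247324)]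
noncomputable def e33_44 : List Rx := [
  Rx.mk (nat_lit 41) (nat_lit 1) (nat_lit 5) (nat_lit 0) (nat_lit 3) (nat_lit 189) (nat_lit 74) r5_189 r8_74 (nat_lit 0) (nat_lit 0) (nat_lit 4548292) (nat_lit 0x801151fac) (nat_lit 1077347316),
  Rx.mk (nat_lit 169) (nat_lit 1) (nat_lit 5) (nat_lit 2) (nat_lit 7) (nat_lit 190) (nat_lit 75) r5_190 r8_75 (nat_lit 0) (nat_lit 0) (nat_lit 0) (nat_lit 0x802981c80) (nat_lit 1071252824)]
noncomputable def e33_45 : List Rx := [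
  Rx.mk (nat_lit 138) (nat_lit 2) (nat_lit 1) (nat_lit 2) (nat_lit 7) (nat_lit 65) (nat_lit 93) r5_65 r1_93 (nat_lit 0) (nat_lit 0) (nat_lit 0) (nat_lit 0x803f07ad2) (nat_lit 1069877524),
  Rx.mk (nat_lit 168) (nat_lit 0) (nat_lit 5) (nat_lit 2) (nat_lit 6) (nat_lit 63) (nat_lit 91) r5_63 r1_91 (nat_lit 7636976) (nat_lit 0) (nat_lit 0) (nat_lit 0x7f2748de8) (nat_lit 1095591500),
  Rx.mk (nat_lit 170) (nat_lit 2) (nat_lit 5) (nat_lit 2) (nat_lit 7) (nat_lit 64) (nat_lit 92) r5_64 r1_92 (nat_lit 0) (nat_lit 0) (nat_lit 0) (nat_lit 0x80665f1a2) (nat_lit 1067372924)]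
noncomputable def e33_46 : List Rx := [
  Rx.mk (nat_lit 138) (nat_lit 2) (nat_lit 1) (nat_lit 2) (nat_lit 7) (nat_lit 15) (nat_lit 97) r5_15 r2_97 (nat_lit 0) (nat_lit 0) (nat_lit 0) (nat_lit 0x80300ae4e) (nat_lit 1070836624),
  Rx.mk (nat_lit 394) (nat_lit 2) (nat_lit 1) (nat_lit 6) (nat_lit 7) (nat_lit 14) (nat_lit 96) r5_14 r2_96 (nat_lit 0) (nat_lit 0) (nat_lit 0) (nat_lit 0x80029938e) (nat_lit 1073741824)]
noncomputable def e33_47 : List Rx := [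
  Rx.mk (nat_lit 40) (nat_lit 0) (nat_lit 5) (nat_lit 0) (nat_lit 2) (nat_lit 191) (nat_lit 362) r5_191 r8_362 (nat_lit 8738081) (nat_lit 0) (nat_lit 23550711) (nat_lit 0x6ca37911e) (nat_lit 1428927416),
  Rx.mk (nat_lit 41) (nat_lit 1) (nat_lit 5) (nat_lit 0) (nat_lit 3) (nat_lit 192) (nat_lit 363) r5_192 r8_363 (nat_lit 0) (nat_lit 0) (nat_lit 5449534) (nat_lit 0x80029938e) (nat_lit 1079191358),
  Rx.mk (nat_lit 138) (nat_lit 2) (nat_lit 1) (nat_lit 2) (nat_lit 7) (nat_lit 196) (nat_lit 361) r5_196 r8_361 (nat_lit 0) (nat_lit 0) (nat_lit 0) (nat_lit 0x80029938e) (nat_lit 1073741824),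
  Rx.mk (nat_lit 168) (nat_lit 0) (nat_lit 5) (nat_lit 2) (nat_lit 6) (nat_lit 193) (nat_lit 364) r5_193 r8_364 (nat_lit 6212599) (nat_lit 0) (nat_lit 0) (nat_lit 0x7fbcc638e) (nat_lit 1084455923),
  Rx.mk (nat_lit 169) (nat_lit 1) (nat_lit 5) (nat_lit 2) (nat_lit 7) (nat_lit 194) (nat_lit 365) r5_194 r8_365 (nat_lit 0) (nat_lit 0) (nat_lit 0) (nat_lit 0x80029938e) (nat_lit 1073741824),
  Rx.mk (nat_lit 170) (nat_lit 2) (nat_lit 5) (nat_lit 2) (nat_lit 7) (nat_lit 195) (nat_lit 366) r5_195 r8_366 (nat_lit 0) (nat_lit 0) (nat_lit 0) (nat_lit 0x80029938e) (nat_lit 1073741824)]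
noncomputable def e33_48 : List Rx := [
  Rx.mk (nat_lit 138) (nat_lit 2) (nat_lit 1) (nat_lit 2) (nat_lit 7) (nat_lit 151) (nat_lit 64) r5_151 r9_64 (nat_lit 0) (nat_lit 0) (nat_lit 0) (nat_lit 0x80029938e) (nat_lit 1073741824),
  Rx.mk (nat_lit 394) (nat_lit 2) (nat_lit 1) (nat_lit 6) (nat_lit 7) (nat_lit 150) (nat_lit 63) r5_150 r9_63 (nat_lit 0) (nat_lit 0) (nat_lit 0) (nat_lit 0x80029938e) (nat_lit 1073741824)]
noncomputable def e33_49 : List Rx := [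
  Rx.mk (nat_lit 394) (nat_lit 2) (nat_lit 1) (nat_lit 6) (nat_lit 7) (nat_lit 123) (nat_lit 18) r5_123 r9_18 (nat_lit 0) (nat_lit 0) (nat_lit 0) (nat_lit 0x80029938e) (nat_lit 1073741824)]
noncomputable def e33_50 : List Rx := [
  Rx.mk (nat_lit 35) (nat_lit 3) (nat_lit 4) (nat_lit 0) (nat_lit 1) (nat_lit 52) (nat_lit 84) r5_52 r3_84 (nat_lit 0) (nat_lit 177) (nat_lit 316) (nat_lit 0x81669eebe) (nat_lit 1051089317),
  Rx.mk (nat_lit 43) (nat_lit 3) (nat_lit 5) (nat_lit 0) (nat_lit 3) (nat_lit 53) (nat_lit 85) r5_53 r3_85 (nat_lit 0) (nat_lit 0) (nat_lit 1650932) (nat_lit 0x848b5b614) (nat_lit 1001973956),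
  Rx.mk (nat_lit 51) (nat_lit 3) (nat_lit 6) (nat_lit 0) (nat_lit 3) (nat_lit 54) (nat_lit 86) r5_54 r3_86 (nat_lit 0) (nat_lit 0) (nat_lit 37687189) (nat_lit 0x8ea30d5d2) (nat_lit 874777413),
  Rx.mk (nat_lit 160) (nat_lit 0) (nat_lit 4) (nat_lit 2) (nat_lit 4) (nat_lit 55) (nat_lit 82) r5_55 r3_82 (nat_lit 634) (nat_lit 480) (nat_lit 0) (nat_lit 0x80005933a) (nat_lit 1073721238),
  Rx.mk (nat_lit 162) (nat_lit 2) (nat_lit 4) (nat_lit 2) (nat_lit 5) (nat_lit 57) (nat_lit 89) r5_57 r3_89 (nat_lit 0) (nat_lit 12988) (nat_lit 0) (nat_lit 0x75ca83206) (nat_lit 1243973512),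
  Rx.mk (nat_lit 163) (nat_lit 3) (nat_lit 4) (nat_lit 2) (nat_lit 5) (nat_lit 59) (nat_lit 87) r5_59 r3_87 (nat_lit 0) (nat_lit 80098) (nat_lit 0) (nat_lit 0x8d65266a2) (nat_lit 857234422),
  Rx.mk (nat_lit 168) (nat_lit 0) (nat_lit 5) (nat_lit 2) (nat_lit 6) (nat_lit 56) (nat_lit 83) r5_56 r3_83 (nat_lit 1003900) (nat_lit 0) (nat_lit 0) (nat_lit 0x7e3ac80c2) (nat_lit 1104359824),
  Rx.mk (nat_lit 170) (nat_lit 2) (nat_lit 5) (nat_lit 2) (nat_lit 7) (nat_lit 58) (nat_lit 90) r5_58 r3_90 (nat_lit 0) (nat_lit 0) (nat_lit 0) (nat_lit 0x8004ac4b4) (nat_lit 1073599124),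
  Rx.mk (nat_lit 171) (nat_lit 3) (nat_lit 5) (nat_lit 2) (nat_lit 7) (nat_lit 60) (nat_lit 88) r5_60 r3_88 (nat_lit 0) (nat_lit 0) (nat_lit 0) (nat_lit 0x9e7dac8be) (nat_lit 580755524)]
noncomputable def e33_51 : List Rx := [
  Rx.mk (nat_lit 43) (nat_lit 3) (nat_lit 5) (nat_lit 0) (nat_lit 3) (nat_lit 66) (nat_lit 90) r5_66 r4_90 (nat_lit 0) (nat_lit 0) (nat_lit 2225241) (nat_lit 0x82f6d0388) (nat_lit 1028114265),
  Rx.mk (nat_lit 168) (nat_lit 0) (nat_lit 5) (nat_lit 2) (nat_lit 6) (nat_lit 67) (nat_lit 89) r5_67 r4_89 (nat_lit 1849300) (nat_lit 0) (nat_lit 0) (nat_lit 0x80a4c2070) (nat_lit 1065275624),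
  Rx.mk (nat_lit 170) (nat_lit 2) (nat_lit 5) (nat_lit 2) (nat_lit 7) (nat_lit 68) (nat_lit 92) r5_68 r4_92 (nat_lit 0) (nat_lit 0) (nat_lit 0) (nat_lit 0x8060f33a8) (nat_lit 1067721724),
  Rx.mk (nat_lit 171) (nat_lit 3) (nat_lit 5) (nat_lit 2) (nat_lit 7) (nat_lit 69) (nat_lit 91) r5_69 r4_91 (nat_lit 0) (nat_lit 0) (nat_lit 0) (nat_lit 0x882e63412) (nat_lit 941518924)]
noncomputable def e33_52 : List Rx := [
  Rx.mk (nat_lit 35) (nat_lit 3) (nat_lit 4) (nat_lit 0) (nat_lit 1) (nat_lit 80) (nat_lit 83) r5_80 r5_83 (nat_lit 0) (nat_lit 3718) (nat_lit 5605) (nat_lit 0x7af6a24cc) (nat_lit 1157727747),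
  Rx.mk (nat_lit 43) (nat_lit 3) (nat_lit 5) (nat_lit 0) (nat_lit 3) (nat_lit 81) (nat_lit 84) r5_81 r5_84 (nat_lit 0) (nat_lit 0) (nat_lit 2434184) (nat_lit 0x8086ffccc) (nat_lit 1067749108),
  Rx.mk (nat_lit 51) (nat_lit 3) (nat_lit 6) (nat_lit 0) (nat_lit 3) (nat_lit 82) (nat_lit 85) r5_82 r5_85 (nat_lit 0) (nat_lit 0) (nat_lit 1411156) (nat_lit 0x83ceb249a) (nat_lit 1013660580),
  Rx.mk (nat_lit 160) (nat_lit 0) (nat_lit 4) (nat_lit 2) (nat_lit 4) (nat_lit 83) (nat_lit 80) r5_83 r5_80 (nat_lit 5605) (nat_lit 3718) (nat_lit 0) (nat_lit 0x7af6a24cc) (nat_lit 1157727747),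
  Rx.mk (nat_lit 162) (nat_lit 2) (nat_lit 4) (nat_lit 2) (nat_lit 5) (nat_lit 86) (nat_lit 91) r5_86 r5_91 (nat_lit 0) (nat_lit 1288735) (nat_lit 0) (nat_lit 0x7e46ed974) (nat_lit 1103838259),
  Rx.mk (nat_lit 163) (nat_lit 3) (nat_lit 4) (nat_lit 2) (nat_lit 5) (nat_lit 89) (nat_lit 89) r5_89 r5_89 (nat_lit 0) (nat_lit 30115) (nat_lit 0) (nat_lit 0x893516ab0) (nat_lit 924891639),
  Rx.mk (nat_lit 168) (nat_lit 0) (nat_lit 5) (nat_lit 2) (nat_lit 6) (nat_lit 84) (nat_lit 81) r5_84 r5_81 (nat_lit 2434184) (nat_lit 0) (nat_lit 0) (nat_lit 0x8086ffccc) (nat_lit 1067749108),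
  Rx.mk (nat_lit 170) (nat_lit 2) (nat_lit 5) (nat_lit 2) (nat_lit 7) (nat_lit 87) (nat_lit 92) r5_87 r5_92 (nat_lit 0) (nat_lit 0) (nat_lit 0) (nat_lit 0x7ff60f596) (nat_lit 1074542724),
  Rx.mk (nat_lit 171) (nat_lit 3) (nat_lit 5) (nat_lit 2) (nat_lit 7) (nat_lit 90) (nat_lit 90) r5_90 r5_90 (nat_lit 0) (nat_lit 0) (nat_lit 0) (nat_lit 0x805a1822c) (nat_lit 1068161824),
  Rx.mk (nat_lit 184) (nat_lit 0) (nat_lit 7) (nat_lit 2) (nat_lit 6) (nat_lit 85) (nat_lit 82) r5_85 r5_82 (nat_lit 1411156) (nat_lit 0) (nat_lit 0) (nat_lit 0x83ceb249a) (nat_lit 1013660580),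
  Rx.mk (nat_lit 186) (nat_lit 2) (nat_lit 7) (nat_lit 2) (nat_lit 7) (nat_lit 88) (nat_lit 93) r5_88 r5_93 (nat_lit 0) (nat_lit 0) (nat_lit 0) (nat_lit 0x80088cbd8) (nat_lit 1073347024),
  Rx.mk (nat_lit 227) (nat_lit 3) (nat_lit 4) (nat_lit 3) (nat_lit 5) (nat_lit 91) (nat_lit 86) r5_91 r5_86 (nat_lit 0) (nat_lit 1288735) (nat_lit 0) (nat_lit 0x7e46ed974) (nat_lit 1103838259),
  Rx.mk (nat_lit 235) (nat_lit 3) (nat_lit 5) (nat_lit 3) (nat_lit 7) (nat_lit 92) (nat_lit 87) r5_92 r5_87 (nat_lit 0) (nat_lit 0) (nat_lit 0) (nat_lit 0x7ff60f596) (nat_lit 1074542724),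
  Rx.mk (nat_lit 243) (nat_lit 3) (nat_lit 6) (nat_lit 3) (nat_lit 7) (nat_lit 93) (nat_lit 88) r5_93 r5_88 (nat_lit 0) (nat_lit 0) (nat_lit 0) (nat_lit 0x80088cbd8) (nat_lit 1073347024)]
noncomputable def e33_53 : List Rx := [
  Rx.mk (nat_lit 32) (nat_lit 0) (nat_lit 4) (nat_lit 0) (nat_lit 0) (nat_lit 169) (nat_lit 366) r5_169 r4_366 (nat_lit 466835) (nat_lit 860710) (nat_lit 4259189) (nat_lit 0x635d5b15e) (nat_lit 1556822258),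
  Rx.mk (nat_lit 33) (nat_lit 1) (nat_lit 4) (nat_lit 0) (nat_lit 1) (nat_lit 172) (nat_lit 367) r5_172 r4_367 (nat_lit 0) (nat_lit 17535176) (nat_lit 12405820) (nat_lit 0x795ddbf82) (nat_lit 1214366620),
  Rx.mk (nat_lit 35) (nat_lit 3) (nat_lit 4) (nat_lit 0) (nat_lit 1) (nat_lit 174) (nat_lit 368) r5_174 r4_368 (nat_lit 0) (nat_lit 2267724) (nat_lit 168964555) (nat_lit 0x7c6cb83d6) (nat_lit 1304668303),
  Rx.mk (nat_lit 40) (nat_lit 0) (nat_lit 5) (nat_lit 0) (nat_lit 2) (nat_lit 170) (nat_lit 373) r5_170 r4_373 (nat_lit 3329898) (nat_lit 0) (nat_lit 153422483) (nat_lit 0x7f7ad06e6) (nat_lit 1239277705),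
  Rx.mk (nat_lit 43) (nat_lit 3) (nat_lit 5) (nat_lit 0) (nat_lit 3) (nat_lit 175) (nat_lit 374) r5_175 r4_374 (nat_lit 0) (nat_lit 0) (nat_lit 16093624) (nat_lit 0x801f08c90) (nat_lit 1088008048),
  Rx.mk (nat_lit 48) (nat_lit 0) (nat_lit 6) (nat_lit 0) (nat_lit 2) (nat_lit 171) (nat_lit 378) r5_171 r4_378 (nat_lit 4331708) (nat_lit 0) (nat_lit 6556923) (nat_lit 0x7f318d5ec) (nat_lit 1098171755),
  Rx.mk (nat_lit 49) (nat_lit 1) (nat_lit 6) (nat_lit 0) (nat_lit 3) (nat_lit 173) (nat_lit 379) r5_173 r4_379 (nat_lit 0) (nat_lit 0) (nat_lit 5449534) (nat_lit 0x80029938e) (nat_lit 1079191358),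
  Rx.mk (nat_lit 51) (nat_lit 3) (nat_lit 6) (nat_lit 0) (nat_lit 3) (nat_lit 176) (nat_lit 380) r5_176 r4_380 (nat_lit 0) (nat_lit 0) (nat_lit 5449534) (nat_lit 0x802356b3a) (nat_lit 1077095958),
  Rx.mk (nat_lit 160) (nat_lit 0) (nat_lit 4) (nat_lit 2) (nat_lit 4) (nat_lit 177) (nat_lit 369) r5_177 r4_369 (nat_lit 2004750) (nat_lit 2934250) (nat_lit 0) (nat_lit 0x73620465a) (nat_lit 1289129524),
  Rx.mk (nat_lit 161) (nat_lit 1) (nat_lit 4) (nat_lit 2) (nat_lit 5) (nat_lit 179) (nat_lit 370) r5_179 r4_370 (nat_lit 0) (nat_lit 2793643) (nat_lit 0) (nat_lit 0x803c95650) (nat_lit 1072830667),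
  Rx.mk (nat_lit 162) (nat_lit 2) (nat_lit 4) (nat_lit 2) (nat_lit 5) (nat_lit 180) (nat_lit 372) r5_180 r4_372 (nat_lit 0) (nat_lit 5596659) (nat_lit 0) (nat_lit 0x7fa5306f2) (nat_lit 1085368283),
  Rx.mk (nat_lit 163) (nat_lit 3) (nat_lit 4) (nat_lit 2) (nat_lit 5) (nat_lit 182) (nat_lit 371) r5_182 r4_371 (nat_lit 0) (nat_lit 2786793) (nat_lit 0) (nat_lit 0x8043eceee) (nat_lit 1072357417),
  Rx.mk (nat_lit 168) (nat_lit 0) (nat_lit 5) (nat_lit 2) (nat_lit 6) (nat_lit 178) (nat_lit 375) r5_178 r4_375 (nat_lit 2300083) (nat_lit 0) (nat_lit 0) (nat_lit 0x804f77e08) (nat_lit 1071135707),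
  Rx.mk (nat_lit 170) (nat_lit 2) (nat_lit 5) (nat_lit 2) (nat_lit 7) (nat_lit 181) (nat_lit 377) r5_181 r4_377 (nat_lit 0) (nat_lit 0) (nat_lit 0) (nat_lit 0x8012f24a6) (nat_lit 1072693924),
  Rx.mk (nat_lit 171) (nat_lit 3) (nat_lit 5) (nat_lit 2) (nat_lit 7) (nat_lit 183) (nat_lit 376) r5_183 r4_376 (nat_lit 0) (nat_lit 0) (nat_lit 0) (nat_lit 0x803aaf69c) (nat_lit 1070158824)]
noncomputable def e33_54 : List Rx := [
  Rx.mk (nat_lit 40) (nat_lit 0) (nat_lit 5) (nat_lit 0) (nat_lit 2) (nat_lit 197) (nat_lit 72) r5_197 r10_72 (nat_lit 1601519) (nat_lit 0) (nat_lit 5696356) (nat_lit 0x726966d0e) (nat_lit 1307672399),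
  Rx.mk (nat_lit 43) (nat_lit 3) (nat_lit 5) (nat_lit 0) (nat_lit 3) (nat_lit 198) (nat_lit 74) r5_198 r10_74 (nat_lit 0) (nat_lit 0) (nat_lit 5449534) (nat_lit 0x8011b0cbe) (nat_lit 1078224358),
  Rx.mk (nat_lit 168) (nat_lit 0) (nat_lit 5) (nat_lit 2) (nat_lit 6) (nat_lit 199) (nat_lit 73) r5_199 r10_73 (nat_lit 1673969) (nat_lit 0) (nat_lit 0) (nat_lit 0x80ad5689e) (nat_lit 1064560193),
  Rx.mk (nat_lit 170) (nat_lit 2) (nat_lit 5) (nat_lit 2) (nat_lit 7) (nat_lit 200) (nat_lit 76) r5_200 r10_76 (nat_lit 0) (nat_lit 0) (nat_lit 0) (nat_lit 0x80029938e) (nat_lit 1073741824),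
  Rx.mk (nat_lit 171) (nat_lit 3) (nat_lit 5) (nat_lit 2) (nat_lit 7) (nat_lit 201) (nat_lit 75) r5_201 r10_75 (nat_lit 0) (nat_lit 0) (nat_lit 0) (nat_lit 0x803e42840) (nat_lit 1069931224)]
noncomputable def e33_55 : List Rx := [
  Rx.mk (nat_lit 32) (nat_lit 0) (nat_lit 4) (nat_lit 0) (nat_lit 0) (nat_lit 202) (nat_lit 68) r5_202 r11_68 (nat_lit 3094232) (nat_lit 2576337) (nat_lit 21720360) (nat_lit 0x4da7b05c6) (nat_lit 1940613153),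
  Rx.mk (nat_lit 33) (nat_lit 1) (nat_lit 4) (nat_lit 0) (nat_lit 1) (nat_lit 206) (nat_lit 75) r5_206 r11_75 (nat_lit 0) (nat_lit 11623778) (nat_lit 14714486) (nat_lit 0x72e87497a) (nat_lit 1318449488),
  Rx.mk (nat_lit 35) (nat_lit 3) (nat_lit 4) (nat_lit 0) (nat_lit 1) (nat_lit 209) (nat_lit 80) r5_209 r11_80 (nat_lit 0) (nat_lit 2937614) (nat_lit 66565718) (nat_lit 0x74b9e4b76) (nat_lit 1331296056),
  Rx.mk (nat_lit 40) (nat_lit 0) (nat_lit 5) (nat_lit 0) (nat_lit 2) (nat_lit 203) (nat_lit 69) r5_203 r11_69 (nat_lit 8674374) (nat_lit 0) (nat_lit 21585030) (nat_lit 0x7effacde8) (nat_lit 1120791828),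
  Rx.mk (nat_lit 43) (nat_lit 3) (nat_lit 5) (nat_lit 0) (nat_lit 3) (nat_lit 210) (nat_lit 81) r5_210 r11_81 (nat_lit 0) (nat_lit 0) (nat_lit 5449534) (nat_lit 0x800b9fd16) (nat_lit 1078612858),
  Rx.mk (nat_lit 48) (nat_lit 0) (nat_lit 6) (nat_lit 0) (nat_lit 2) (nat_lit 204) (nat_lit 71) r5_204 r11_71 (nat_lit 8510956) (nat_lit 0) (nat_lit 17049817) (nat_lit 0x7ec27a33a) (nat_lit 1120075897),
  Rx.mk (nat_lit 49) (nat_lit 1) (nat_lit 6) (nat_lit 0) (nat_lit 3) (nat_lit 207) (nat_lit 77) r5_207 r11_77 (nat_lit 0) (nat_lit 0) (nat_lit 5449534) (nat_lit 0x80029938e) (nat_lit 1079191358),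
  Rx.mk (nat_lit 51) (nat_lit 3) (nat_lit 6) (nat_lit 0) (nat_lit 3) (nat_lit 211) (nat_lit 82) r5_211 r11_82 (nat_lit 0) (nat_lit 0) (nat_lit 5449534) (nat_lit 0x800c7cac2) (nat_lit 1078557658),
  Rx.mk (nat_lit 56) (nat_lit 0) (nat_lit 7) (nat_lit 0) (nat_lit 2) (nat_lit 205) (nat_lit 70) r5_205 r11_70 (nat_lit 8902206) (nat_lit 0) (nat_lit 19180850) (nat_lit 0x7e9bef6c0) (nat_lit 1125108480),
  Rx.mk (nat_lit 57) (nat_lit 1) (nat_lit 7) (nat_lit 0) (nat_lit 3) (nat_lit 208) (nat_lit 76) r5_208 r11_76 (nat_lit 0) (nat_lit 0) (nat_lit 5449534) (nat_lit 0x80029938e) (nat_lit 1079191358),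
  Rx.mk (nat_lit 160) (nat_lit 0) (nat_lit 4) (nat_lit 2) (nat_lit 4) (nat_lit 212) (nat_lit 72) r5_212 r11_72 (nat_lit 4194264) (nat_lit 2535516) (nat_lit 0) (nat_lit 0x68bbaaf48) (nat_lit 1468482604),
  Rx.mk (nat_lit 161) (nat_lit 1) (nat_lit 4) (nat_lit 2) (nat_lit 5) (nat_lit 215) (nat_lit 78) r5_215 r11_78 (nat_lit 0) (nat_lit 3453899) (nat_lit 0) (nat_lit 0x8019ee37c) (nat_lit 1075699823),
  Rx.mk (nat_lit 162) (nat_lit 2) (nat_lit 4) (nat_lit 2) (nat_lit 5) (nat_lit 217) (nat_lit 88) r5_217 r11_88 (nat_lit 0) (nat_lit 5824518) (nat_lit 0) (nat_lit 0x7f6cb0a3e) (nat_lit 1089264642),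
  Rx.mk (nat_lit 163) (nat_lit 3) (nat_lit 4) (nat_lit 2) (nat_lit 5) (nat_lit 220) (nat_lit 86) r5_220 r11_86 (nat_lit 0) (nat_lit 3361078) (nat_lit 0) (nat_lit 0x802aa3348) (nat_lit 1074541602),
  Rx.mk (nat_lit 168) (nat_lit 0) (nat_lit 5) (nat_lit 2) (nat_lit 6) (nat_lit 213) (nat_lit 73) r5_213 r11_73 (nat_lit 4046712) (nat_lit 0) (nat_lit 0) (nat_lit 0x801958a84) (nat_lit 1076331636),
  Rx.mk (nat_lit 170) (nat_lit 2) (nat_lit 5) (nat_lit 2) (nat_lit 7) (nat_lit 218) (nat_lit 89) r5_218 r11_89 (nat_lit 0) (nat_lit 0) (nat_lit 0) (nat_lit 0x80029938e) (nat_lit 1073741824),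
  Rx.mk (nat_lit 171) (nat_lit 3) (nat_lit 5) (nat_lit 2) (nat_lit 7) (nat_lit 221) (nat_lit 87) r5_221 r11_87 (nat_lit 0) (nat_lit 0) (nat_lit 0) (nat_lit 0x800d38786) (nat_lit 1073060924),
  Rx.mk (nat_lit 184) (nat_lit 0) (nat_lit 7) (nat_lit 2) (nat_lit 6) (nat_lit 214) (nat_lit 74) r5_214 r11_74 (nat_lit 4369172) (nat_lit 0) (nat_lit 0) (nat_lit 0x7febb8bc4) (nat_lit 1079580196),
  Rx.mk (nat_lit 185) (nat_lit 1) (nat_lit 7) (nat_lit 2) (nat_lit 7) (nat_lit 216) (nat_lit 79) r5_216 r11_79 (nat_lit 0) (nat_lit 0) (nat_lit 0) (nat_lit 0x800d38786) (nat_lit 1073060924),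
  Rx.mk (nat_lit 186) (nat_lit 2) (nat_lit 7) (nat_lit 2) (nat_lit 7) (nat_lit 219) (nat_lit 90) r5_219 r11_90 (nat_lit 0) (nat_lit 0) (nat_lit 0) (nat_lit 0x80029938e) (nat_lit 1073741824),
  Rx.mk (nat_lit 227) (nat_lit 3) (nat_lit 4) (nat_lit 3) (nat_lit 5) (nat_lit 222) (nat_lit 83) r5_222 r11_83 (nat_lit 0) (nat_lit 4726499) (nat_lit 0) (nat_lit 0x7ff6067de) (nat_lit 1079274023),
  Rx.mk (nat_lit 235) (nat_lit 3) (nat_lit 5) (nat_lit 3) (nat_lit 7) (nat_lit 223) (nat_lit 84) r5_223 r11_84 (nat_lit 0) (nat_lit 0) (nat_lit 0) (nat_lit 0x80029938e) (nat_lit 1073741824),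
  Rx.mk (nat_lit 243) (nat_lit 3) (nat_lit 6) (nat_lit 3) (nat_lit 7) (nat_lit 224) (nat_lit 85) r5_224 r11_85 (nat_lit 0) (nat_lit 0) (nat_lit 0) (nat_lit 0x80029938e) (nat_lit 1073741824)]
noncomputable def e33_56 : List Rx := [
  Rx.mk (nat_lit 35) (nat_lit 3) (nat_lit 4) (nat_lit 0) (nat_lit 1) (nat_lit 235) (nat_lit 311) r5_235 r5_311 (nat_lit 0) (nat_lit 165280) (nat_lit 1094601) (nat_lit 0x80e90415c) (nat_lit 1060318305),
  Rx.mk (nat_lit 43) (nat_lit 3) (nat_lit 5) (nat_lit 0) (nat_lit 3) (nat_lit 236) (nat_lit 313) r5_236 r5_313 (nat_lit 0) (nat_lit 0) (nat_lit 7419507) (nat_lit 0x805d211e4) (nat_lit 1075389131),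
  Rx.mk (nat_lit 51) (nat_lit 3) (nat_lit 6) (nat_lit 0) (nat_lit 3) (nat_lit 237) (nat_lit 315) r5_237 r5_315 (nat_lit 0) (nat_lit 0) (nat_lit 2217923) (nat_lit 0x870bce5f6) (nat_lit 962095947),
  Rx.mk (nat_lit 163) (nat_lit 3) (nat_lit 4) (nat_lit 2) (nat_lit 5) (nat_lit 238) (nat_lit 312) r5_238 r5_312 (nat_lit 0) (nat_lit 469515) (nat_lit 0) (nat_lit 0x80376b0e4) (nat_lit 1070781039),
  Rx.mk (nat_lit 171) (nat_lit 3) (nat_lit 5) (nat_lit 2) (nat_lit 7) (nat_lit 239) (nat_lit 314) r5_239 r5_314 (nat_lit 0) (nat_lit 0) (nat_lit 0) (nat_lit 0x80ce7bf56) (nat_lit 1060792424)]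
noncomputable def e33_57 : List Rx := [
  Rx.mk (nat_lit 43) (nat_lit 3) (nat_lit 5) (nat_lit 0) (nat_lit 3) (nat_lit 240) (nat_lit 366) r5_240 r11_366 (nat_lit 0) (nat_lit 0) (nat_lit 3575816) (nat_lit 0x8092b4d56) (nat_lit 1068148740),
  Rx.mk (nat_lit 171) (nat_lit 3) (nat_lit 5) (nat_lit 2) (nat_lit 7) (nat_lit 241) (nat_lit 367) r5_241 r11_367 (nat_lit 0) (nat_lit 0) (nat_lit 0) (nat_lit 0x81eccd206) (nat_lit 1042695924)]
noncomputable def e33 : List (List Rx) := [e33_0, e33_1, e33_2, e33_3, e33_4, e33_5, e33_6, e33_7, e33_8, e33_9, e33_10, e33_11, e33_12, e33_13, e33_14, e33_15, e33_16, e33_17, e33_18, e33_19, e33_20, e33_21, e33_22, e33_23, e33_24, e33_25, e33_26, e33_27, e33_28, e33_29, e33_30, e33_31, e33_32, e33_33, e33_34, e33_35, e33_36, e33_37, e33_38, e33_39, e33_40, e33_41, e33_42, e33_43, e33_44, e33_45, e33_46, e33_47, e33_48, e33_49, e33_50,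 e33_51, e33_52, e33_53, e33_54, e33_55, e33_56, e33_57]
noncomputable def e34_0 : List Rx := [
  Rx.mk (nat_lit 116) (nat_lit 4) (nat_lit 6) (nat_lit 1) (nat_lit 6) (nat_lit 302) (nat_lit 225) r11_302 r0_225 (nat_lit 2075395) (nat_lit 0) (nat_lit 0) (nat_lit 0x7fa625f44) (nat_lit 1081791519),
  Rx.mk (nat_lit 372) (nat_lit 4) (nat_lit 6) (nat_lit 5) (nat_lit 6) (nat_lit 300) (nat_lit 226) r11_300 r0_226 (nat_lit 3044938) (nat_lit 0) (nat_lit 0) (nat_lit 0x80a25caec) (nat_lit 1066625862),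
  Rx.mk (nat_lit 375) (nat_lit 7) (nat_lit 6) (nat_lit 5) (nat_lit 7) (nat_lit 301) (nat_lit 227) r11_301 r0_227 (nat_lit 0) (nat_lit 0) (nat_lit 0) (nat_lit 0x811726e18) (nat_lit 1056188224)]
noncomputable def e34_1 : List Rx := [
  Rx.mk (nat_lit 372) (nat_lit 4) (nat_lit 6) (nat_lit 5) (nat_lit 6) (nat_lit 333) (nat_lit 244) r11_333 r1_244 (nat_lit 3129371) (nat_lit 0) (nat_lit 0) (nat_lit 0x8036700c2) (nat_lit 1073557195),
  Rx.mk (nat_lit 375) (nat_lit 7) (nat_lit 6) (nat_lit 5) (nat_lit 7) (nat_lit 334) (nat_lit 245) r11_334 r1_245 (nat_lit 0) (nat_lit 0) (nat_lit 0) (nat_lit 0x80c2edd92) (nat_lit 1061523624)]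
noncomputable def e34_2 : List Rx := [
  Rx.mk (nat_lit 276) (nat_lit 4) (nat_lit 2) (nat_lit 4) (nat_lit 2) (nat_lit 309) (nat_lit 258) r11_309 r2_258 (nat_lit 10365630) (nat_lit 0) (nat_lit 9794519) (nat_lit 0x7c8c29d82) (nat_lit 1151554373),
  Rx.mk (nat_lit 278) (nat_lit 6) (nat_lit 2) (nat_lit 4) (nat_lit 3) (nat_lit 310) (nat_lit 265) r11_310 r2_265 (nat_lit 0) (nat_lit 0) (nat_lit 5449534) (nat_lit 0x80029938e) (nat_lit 1079191358),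
  Rx.mk (nat_lit 308) (nat_lit 4) (nat_lit 6) (nat_lit 4) (nat_lit 2) (nat_lit 308) (nat_lit 260) r11_308 r2_260 (nat_lit 10390094) (nat_lit 0) (nat_lit 9315237) (nat_lit 0x78a9c488c) (nat_lit 1215867155),
  Rx.mk (nat_lit 311) (nat_lit 7) (nat_lit 6) (nat_lit 4) (nat_lit 3) (nat_lit 311) (nat_lit 262) r11_311 r2_262 (nat_lit 0) (nat_lit 0) (nat_lit 2910432) (nat_lit 0x804c46c02) (nat_lit 1071955056),
  Rx.mk (nat_lit 340) (nat_lit 4) (nat_lit 2) (nat_lit 5) (nat_lit 6) (nat_lit 313) (nat_lit 259) r11_313 r2_259 (nat_lit 5449534) (nat_lit 0) (nat_lit 0) (nat_lit 0x80029938e) (nat_lit 1079191358),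
  Rx.mk (nat_lit 342) (nat_lit 6) (nat_lit 2) (nat_lit 5) (nat_lit 7) (nat_lit 314) (nat_lit 266) r11_314 r2_266 (nat_lit 0) (nat_lit 0) (nat_lit 0) (nat_lit 0x80029938e) (nat_lit 1073741824),
  Rx.mk (nat_lit 372) (nat_lit 4) (nat_lit 6) (nat_lit 5) (nat_lit 6) (nat_lit 312) (nat_lit 261) r11_312 r2_261 (nat_lit 5449534) (nat_lit 0) (nat_lit 0) (nat_lit 0x80029938e) (nat_lit 1079191358),
  Rx.mk (nat_lit 375) (nat_lit 7) (nat_lit 6) (nat_lit 5) (nat_lit 7) (nat_lit 315) (nat_lit 263) r11_315 r2_263 (nat_lit 0) (nat_lit 0) (nat_lit 0) (nat_lit 0x80029938e) (nat_lit 1073741824),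
  Rx.mk (nat_lit 406) (nat_lit 6) (nat_lit 2) (nat_lit 6) (nat_lit 7) (nat_lit 316) (nat_lit 267) r11_316 r2_267 (nat_lit 0) (nat_lit 0) (nat_lit 0) (nat_lit 0x80029938e) (nat_lit 1073741824),
  Rx.mk (nat_lit 503) (nat_lit 7) (nat_lit 6) (nat_lit 7) (nat_lit 7) (nat_lit 317) (nat_lit 264) r11_317 r2_264 (nat_lit 0) (nat_lit 0) (nat_lit 0) (nat_lit 0x80029938e) (nat_lit 1073741824)]
noncomputable def e34_3 : List Rx := [
  Rx.mk (nat_lit 116) (nat_lit 4) (nat_lit 6) (nat_lit 1) (nat_lit 6) (nat_lit 351) (nat_lit 225) r11_351 r3_225 (nat_lit 43945288) (nat_lit 0) (nat_lit 0) (nat_lit 0x7fd2eddd8) (nat_lit 1120678112),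
  Rx.mk (nat_lit 119) (nat_lit 7) (nat_lit 6) (nat_lit 1) (nat_lit 7) (nat_lit 352) (nat_lit 226) r11_352 r3_226 (nat_lit 0) (nat_lit 0) (nat_lit 0) (nat_lit 0xa03942e42) (nat_lit 552675224)]
noncomputable def e34_4 : List Rx := [
  Rx.mk (nat_lit 116) (nat_lit 4) (nat_lit 6) (nat_lit 1) (nat_lit 6) (nat_lit 358) (nat_lit 226) r11_358 r4_226 (nat_lit 2508955) (nat_lit 0) (nat_lit 0) (nat_lit 0x803850888) (nat_lit 1072812579),
  Rx.mk (nat_lit 119) (nat_lit 7) (nat_lit 6) (nat_lit 1) (nat_lit 7) (nat_lit 359) (nat_lit 227) r11_359 r4_227 (nat_lit 0) (nat_lit 0) (nat_lit 0) (nat_lit 0x86812eb26) (nat_lit 968635724),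
  Rx.mk (nat_lit 375) (nat_lit 7) (nat_lit 6) (nat_lit 5) (nat_lit 7) (nat_lit 357) (nat_lit 228) r11_357 r4_228 (nat_lit 0) (nat_lit 0) (nat_lit 0) (nat_lit 0x841e5b4ec) (nat_lit 1007221824)]
noncomputable def e34_5 : List Rx := [
  Rx.mk (nat_lit 116) (nat_lit 4) (nat_lit 6) (nat_lit 1) (nat_lit 6) (nat_lit 366) (nat_lit 240) r11_366 r5_240 (nat_lit 3575816) (nat_lit 0) (nat_lit 0) (nat_lit 0x8092b4d56) (nat_lit 1068148740),
  Rx.mk (nat_lit 119) (nat_lit 7) (nat_lit 6) (nat_lit 1) (nat_lit 7) (nat_lit 367) (nat_lit 241) r11_367 r5_241 (nat_lit 0) (nat_lit 0) (nat_lit 0) (nat_lit 0x81eccd206) (nat_lit 1042695924)]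
noncomputable def e34_6 : List Rx := [
  Rx.mk (nat_lit 154) (nat_lit 2) (nat_lit 3) (nat_lit 2) (nat_lit 7) (nat_lit 6) (nat_lit 216) r11_6 r3_216 (nat_lit 0) (nat_lit 0) (nat_lit 0) (nat_lit 0x9287cfb68) (nat_lit 774145224),
  Rx.mk (nat_lit 247) (nat_lit 7) (nat_lit 6) (nat_lit 3) (nat_lit 7) (nat_lit 7) (nat_lit 215) r11_7 r3_215 (nat_lit 0) (nat_lit 0) (nat_lit 0) (nat_lit 0x970ef9cfc) (nat_lit 700901524)]
noncomputable def e34_7 : List Rx := [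
  Rx.mk (nat_lit 130) (nat_lit 2) (nat_lit 0) (nat_lit 2) (nat_lit 5) (nat_lit 99) (nat_lit 217) r11_99 r0_217 (nat_lit 0) (nat_lit 2191612) (nat_lit 0) (nat_lit 0x7ea5f8ebe) (nat_lit 1098552836),
  Rx.mk (nat_lit 154) (nat_lit 2) (nat_lit 3) (nat_lit 2) (nat_lit 7) (nat_lit 100) (nat_lit 218) r11_100 r0_218 (nat_lit 0) (nat_lit 0) (nat_lit 0) (nat_lit 0x80fd022a8) (nat_lit 1057853824),
  Rx.mk (nat_lit 276) (nat_lit 4) (nat_lit 2) (nat_lit 4) (nat_lit 2) (nat_lit 92) (nat_lit 219) r11_92 r0_219 (nat_lit 1515078) (nat_lit 0) (nat_lit 1327087) (nat_lit 0x70dac8bde) (nat_lit 1329174389),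
  Rx.mk (nat_lit 278) (nat_lit 6) (nat_lit 2) (nat_lit 4) (nat_lit 3) (nat_lit 93) (nat_lit 220) r11_93 r0_220 (nat_lit 0) (nat_lit 0) (nat_lit 2711268) (nat_lit 0x8030259d8) (nat_lit 1073539392),
  Rx.mk (nat_lit 308) (nat_lit 4) (nat_lit 6) (nat_lit 4) (nat_lit 2) (nat_lit 91) (nat_lit 212) r11_91 r0_212 (nat_lit 177359743) (nat_lit 0) (nat_lit 4290635) (nat_lit 0x71206e3fa) (nat_lit 1503455502),
  Rx.mk (nat_lit 386) (nat_lit 2) (nat_lit 0) (nat_lit 6) (nat_lit 5) (nat_lit 96) (nat_lit 216) r11_96 r0_216 (nat_lit 0) (nat_lit 2261537) (nat_lit 0) (nat_lit 0x802c51546) (nat_lit 1073330661),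
  Rx.mk (nat_lit 390) (nat_lit 6) (nat_lit 0) (nat_lit 6) (nat_lit 5) (nat_lit 94) (nat_lit 215) r11_94 r0_215 (nat_lit 0) (nat_lit 2667019) (nat_lit 0) (nat_lit 0x7fbf39062) (nat_lit 1080746543),
  Rx.mk (nat_lit 406) (nat_lit 6) (nat_lit 2) (nat_lit 6) (nat_lit 7) (nat_lit 95) (nat_lit 221) r11_95 r0_221 (nat_lit 0) (nat_lit 0) (nat_lit 0) (nat_lit 0x8024ca5ca) (nat_lit 1071555724),
  Rx.mk (nat_lit 500) (nat_lit 4) (nat_lit 6) (nat_lit 7) (nat_lit 6) (nat_lit 97) (nat_lit 213) r11_97 r0_213 (nat_lit 55284396) (nat_lit 0) (nat_lit 0) (nat_lit 0x7f832bb06) (nat_lit 1137266720),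
  Rx.mk (nat_lit 503) (nat_lit 7) (nat_lit 6) (nat_lit 7) (nat_lit 7) (nat_lit 98) (nat_lit 214) r11_98 r0_214 (nat_lit 0) (nat_lit 0) (nat_lit 0) (nat_lit 0x805932ed4) (nat_lit 1068212724)]
noncomputable def e34_8 : List Rx := [
  Rx.mk (nat_lit 276) (nat_lit 4) (nat_lit 2) (nat_lit 4) (nat_lit 2) (nat_lit 108) (nat_lit 237) r11_108 r1_237 (nat_lit 8516193) (nat_lit 0) (nat_lit 7636497) (nat_lit 0x79092791e) (nat_lit 1206096814),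
  Rx.mk (nat_lit 278) (nat_lit 6) (nat_lit 2) (nat_lit 4) (nat_lit 3) (nat_lit 109) (nat_lit 238) r11_109 r1_238 (nat_lit 0) (nat_lit 0) (nat_lit 5449534) (nat_lit 0x80029938e) (nat_lit 1079191358),
  Rx.mk (nat_lit 308) (nat_lit 4) (nat_lit 6) (nat_lit 4) (nat_lit 2) (nat_lit 107) (nat_lit 234) r11_107 r1_234 (nat_lit 139026259) (nat_lit 0) (nat_lit 4273280) (nat_lit 0x7713b0612) (nat_lit 1365912963),
  Rx.mk (nat_lit 406) (nat_lit 6) (nat_lit 2) (nat_lit 6) (nat_lit 7) (nat_lit 110) (nat_lit 239) r11_110 r1_239 (nat_lit 0) (nat_lit 0) (nat_lit 0) (nat_lit 0x80029938e) (nat_lit 1073741824),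
  Rx.mk (nat_lit 500) (nat_lit 4) (nat_lit 6) (nat_lit 7) (nat_lit 6) (nat_lit 111) (nat_lit 235) r11_111 r1_235 (nat_lit 5449534) (nat_lit 0) (nat_lit 0) (nat_lit 0x800d59fb2) (nat_lit 1078501858),
  Rx.mk (nat_lit 503) (nat_lit 7) (nat_lit 6) (nat_lit 7) (nat_lit 7) (nat_lit 112) (nat_lit 236) r11_112 r1_236 (nat_lit 0) (nat_lit 0) (nat_lit 0) (nat_lit 0x8084b604c) (nat_lit 1065459024)]
noncomputable def e34_9 : List Rx := [
  Rx.mk (nat_lit 154) (nat_lit 2) (nat_lit 3) (nat_lit 2) (nat_lit 7) (nat_lit 135) (nat_lit 211) r11_135 r4_211 (nat_lit 0) (nat_lit 0) (nat_lit 0) (nat_lit 0x867de86ba) (nat_lit 968842524),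
  Rx.mk (nat_lit 247) (nat_lit 7) (nat_lit 6) (nat_lit 3) (nat_lit 7) (nat_lit 136) (nat_lit 207) r11_136 r4_207 (nat_lit 0) (nat_lit 0) (nat_lit 0) (nat_lit 0x80e2c1c04) (nat_lit 1059510024),
  Rx.mk (nat_lit 276) (nat_lit 4) (nat_lit 2) (nat_lit 4) (nat_lit 2) (nat_lit 125) (nat_lit 212) r11_125 r4_212 (nat_lit 180054) (nat_lit 0) (nat_lit 162008) (nat_lit 0x66f25fd9c) (nat_lit 1491827986),
  Rx.mk (nat_lit 278) (nat_lit 6) (nat_lit 2) (nat_lit 4) (nat_lit 3) (nat_lit 126) (nat_lit 214) r11_126 r4_214 (nat_lit 0) (nat_lit 0) (nat_lit 1914977) (nat_lit 0x805cba6f6) (nat_lit 1069908001),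
  Rx.mk (nat_lit 386) (nat_lit 2) (nat_lit 0) (nat_lit 6) (nat_lit 5) (nat_lit 129) (nat_lit 209) r11_129 r4_209 (nat_lit 0) (nat_lit 2654410) (nat_lit 0) (nat_lit 0x7fede05b4) (nat_lit 1077722534),
  Rx.mk (nat_lit 390) (nat_lit 6) (nat_lit 0) (nat_lit 6) (nat_lit 5) (nat_lit 127) (nat_lit 208) r11_127 r4_208 (nat_lit 0) (nat_lit 2480456) (nat_lit 0) (nat_lit 0x80331b106) (nat_lit 1073118480),
  Rx.mk (nat_lit 406) (nat_lit 6) (nat_lit 2) (nat_lit 6) (nat_lit 7) (nat_lit 128) (nat_lit 216) r11_128 r4_216 (nat_lit 0) (nat_lit 0) (nat_lit 0) (nat_lit 0x8038253f4) (nat_lit 1070320124),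
  Rx.mk (nat_lit 410) (nat_lit 2) (nat_lit 3) (nat_lit 6) (nat_lit 7) (nat_lit 130) (nat_lit 210) r11_130 r4_210 (nat_lit 0) (nat_lit 0) (nat_lit 0) (nat_lit 0x80c72ecda) (nat_lit 1061253024),
  Rx.mk (nat_lit 468) (nat_lit 4) (nat_lit 2) (nat_lit 7) (nat_lit 6) (nat_lit 132) (nat_lit 213) r11_132 r4_213 (nat_lit 2501188) (nat_lit 0) (nat_lit 0) (nat_lit 0x802edd148) (nat_lit 1073408112),
  Rx.mk (nat_lit 470) (nat_lit 6) (nat_lit 2) (nat_lit 7) (nat_lit 7) (nat_lit 133) (nat_lit 215) r11_133 r4_215 (nat_lit 0) (nat_lit 0) (nat_lit 0) (nat_lit 0x803a9eba8) (nat_lit 1070162724),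
  Rx.mk (nat_lit 500) (nat_lit 4) (nat_lit 6) (nat_lit 7) (nat_lit 6) (nat_lit 131) (nat_lit 205) r11_131 r4_205 (nat_lit 26745555) (nat_lit 0) (nat_lit 0) (nat_lit 0x7fe494c12) (nat_lit 1102412179),
  Rx.mk (nat_lit 503) (nat_lit 7) (nat_lit 6) (nat_lit 7) (nat_lit 7) (nat_lit 134) (nat_lit 206) r11_134 r4_206 (nat_lit 0) (nat_lit 0) (nat_lit 0) (nat_lit 0x832cd703a) (nat_lit 1022477724)]
noncomputable def e34_10 : List Rx := [
  Rx.mk (nat_lit 55) (nat_lit 7) (nat_lit 6) (nat_lit 0) (nat_lit 3) (nat_lit 284) (nat_lit 254) r11_284 r6_254 (nat_lit 0) (nat_lit 0) (nat_lit 424298) (nat_lit 0x882e6edee) (nat_lit 941930922),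
  Rx.mk (nat_lit 119) (nat_lit 7) (nat_lit 6) (nat_lit 1) (nat_lit 7) (nat_lit 285) (nat_lit 255) r11_285 r6_255 (nat_lit 0) (nat_lit 0) (nat_lit 0) (nat_lit 0xa352ba304) (nat_lit 502613624),
  Rx.mk (nat_lit 247) (nat_lit 7) (nat_lit 6) (nat_lit 3) (nat_lit 7) (nat_lit 286) (nat_lit 256) r11_286 r6_256 (nat_lit 0) (nat_lit 0) (nat_lit 0) (nat_lit 0x9a931abc8) (nat_lit 644086424)]
noncomputable def e34_11 : List Rx := [
  Rx.mk (nat_lit 247) (nat_lit 7) (nat_lit 6) (nat_lit 3) (nat_lit 7) (nat_lit 265) (nat_lit 230) r11_265 r5_230 (nat_lit 0) (nat_lit 0) (nat_lit 0) (nat_lit 0x9450c7056) (nat_lit 745300424)]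
noncomputable def e34_12 : List Rx := [
  Rx.mk (nat_lit 116) (nat_lit 4) (nat_lit 6) (nat_lit 1) (nat_lit 6) (nat_lit 298) (nat_lit 328) r11_298 r0_328 (nat_lit 4405947) (nat_lit 0) (nat_lit 0) (nat_lit 0x7ffb995de) (nat_lit 1078595171),
  Rx.mk (nat_lit 117) (nat_lit 5) (nat_lit 6) (nat_lit 1) (nat_lit 7) (nat_lit 299) (nat_lit 329) r11_299 r0_329 (nat_lit 0) (nat_lit 0) (nat_lit 0) (nat_lit 0x800a900e2) (nat_lit 1073231224)]
noncomputable def e34_13 : List Rx := [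
  Rx.mk (nat_lit 116) (nat_lit 4) (nat_lit 6) (nat_lit 1) (nat_lit 6) (nat_lit 306) (nat_lit 288) r11_306 r7_288 (nat_lit 2211577) (nat_lit 0) (nat_lit 0) (nat_lit 0x80826cbe2) (nat_lit 1067819001),
  Rx.mk (nat_lit 117) (nat_lit 5) (nat_lit 6) (nat_lit 1) (nat_lit 7) (nat_lit 307) (nat_lit 290) r11_307 r7_290 (nat_lit 0) (nat_lit 0) (nat_lit 0) (nat_lit 0x804af24dc) (nat_lit 1069126324),
  Rx.mk (nat_lit 372) (nat_lit 4) (nat_lit 6) (nat_lit 5) (nat_lit 6) (nat_lit 303) (nat_lit 289) r11_303 r7_289 (nat_lit 5449534) (nat_lit 0) (nat_lit 0) (nat_lit 0x80029938e) (nat_lit 1079191358),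
  Rx.mk (nat_lit 373) (nat_lit 5) (nat_lit 6) (nat_lit 5) (nat_lit 7) (nat_lit 304) (nat_lit 291) r11_304 r7_291 (nat_lit 0) (nat_lit 0) (nat_lit 0) (nat_lit 0x80029938e) (nat_lit 1073741824),
  Rx.mk (nat_lit 375) (nat_lit 7) (nat_lit 6) (nat_lit 5) (nat_lit 7) (nat_lit 305) (nat_lit 292) r11_305 r7_292 (nat_lit 0) (nat_lit 0) (nat_lit 0) (nat_lit 0x80029938e) (nat_lit 1073741824)]
noncomputable def e34_14 : List Rx := [
  Rx.mk (nat_lit 117) (nat_lit 5) (nat_lit 6) (nat_lit 1) (nat_lit 7) (nat_lit 338) (nat_lit 310) r11_338 r1_310 (nat_lit 0) (nat_lit 0) (nat_lit 0) (nat_lit 0x80029938e) (nat_lit 1073741824)]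
noncomputable def e34_15 : List Rx := [
  Rx.mk (nat_lit 117) (nat_lit 5) (nat_lit 6) (nat_lit 1) (nat_lit 7) (nat_lit 344) (nat_lit 219) r11_344 r8_219 (nat_lit 0) (nat_lit 0) (nat_lit 0) (nat_lit 0x80029938e) (nat_lit 1073741824),
  Rx.mk (nat_lit 373) (nat_lit 5) (nat_lit 6) (nat_lit 5) (nat_lit 7) (nat_lit 343) (nat_lit 220) r11_343 r8_220 (nat_lit 0) (nat_lit 0) (nat_lit 0) (nat_lit 0x80029938e) (nat_lit 1073741824)]
noncomputable def e34_16 : List Rx := [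
  Rx.mk (nat_lit 372) (nat_lit 4) (nat_lit 6) (nat_lit 5) (nat_lit 6) (nat_lit 335) (nat_lit 358) r11_335 r8_358 (nat_lit 5449534) (nat_lit 0) (nat_lit 0) (nat_lit 0x80029938e) (nat_lit 1079191358),
  Rx.mk (nat_lit 373) (nat_lit 5) (nat_lit 6) (nat_lit 5) (nat_lit 7) (nat_lit 336) (nat_lit 359) r11_336 r8_359 (nat_lit 0) (nat_lit 0) (nat_lit 0) (nat_lit 0x80029938e) (nat_lit 1073741824),
  Rx.mk (nat_lit 375) (nat_lit 7) (nat_lit 6) (nat_lit 5) (nat_lit 7) (nat_lit 337) (nat_lit 360) r11_337 r8_360 (nat_lit 0) (nat_lit 0) (nat_lit 0) (nat_lit 0x80029938e) (nat_lit 1073741824)]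
noncomputable def e34_17 : List Rx := [
  Rx.mk (nat_lit 276) (nat_lit 4) (nat_lit 2) (nat_lit 4) (nat_lit 2) (nat_lit 319) (nat_lit 229) r11_319 r9_229 (nat_lit 11688394) (nat_lit 0) (nat_lit 11688394) (nat_lit 0x7bca66588) (nat_lit 1167391312),
  Rx.mk (nat_lit 278) (nat_lit 6) (nat_lit 2) (nat_lit 4) (nat_lit 3) (nat_lit 320) (nat_lit 238) r11_320 r9_238 (nat_lit 0) (nat_lit 0) (nat_lit 5449534) (nat_lit 0x80029938e) (nat_lit 1079191358),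
  Rx.mk (nat_lit 308) (nat_lit 4) (nat_lit 6) (nat_lit 4) (nat_lit 2) (nat_lit 318) (nat_lit 231) r11_318 r9_231 (nat_lit 35806592) (nat_lit 0) (nat_lit 28325714) (nat_lit 0x7d068baa8) (nat_lit 1187560530),
  Rx.mk (nat_lit 311) (nat_lit 7) (nat_lit 6) (nat_lit 4) (nat_lit 3) (nat_lit 321) (nat_lit 235) r11_321 r9_235 (nat_lit 0) (nat_lit 0) (nat_lit 5449534) (nat_lit 0x80029938e) (nat_lit 1079191358),
  Rx.mk (nat_lit 340) (nat_lit 4) (nat_lit 2) (nat_lit 5) (nat_lit 6) (nat_lit 323) (nat_lit 230) r11_323 r9_230 (nat_lit 5449534) (nat_lit 0) (nat_lit 0) (nat_lit 0x80029938e) (nat_lit 1079191358),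
  Rx.mk (nat_lit 341) (nat_lit 5) (nat_lit 2) (nat_lit 5) (nat_lit 7) (nat_lit 325) (nat_lit 233) r11_325 r9_233 (nat_lit 0) (nat_lit 0) (nat_lit 0) (nat_lit 0x80029938e) (nat_lit 1073741824),
  Rx.mk (nat_lit 342) (nat_lit 6) (nat_lit 2) (nat_lit 5) (nat_lit 7) (nat_lit 326) (nat_lit 239) r11_326 r9_239 (nat_lit 0) (nat_lit 0) (nat_lit 0) (nat_lit 0x80029938e) (nat_lit 1073741824),
  Rx.mk (nat_lit 372) (nat_lit 4) (nat_lit 6) (nat_lit 5) (nat_lit 6) (nat_lit 322) (nat_lit 232) r11_322 r9_232 (nat_lit 5449534) (nat_lit 0) (nat_lit 0) (nat_lit 0x80029938e) (nat_lit 1079191358),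
  Rx.mk (nat_lit 373) (nat_lit 5) (nat_lit 6) (nat_lit 5) (nat_lit 7) (nat_lit 324) (nat_lit 234) r11_324 r9_234 (nat_lit 0) (nat_lit 0) (nat_lit 0) (nat_lit 0x80029938e) (nat_lit 1073741824),
  Rx.mk (nat_lit 375) (nat_lit 7) (nat_lit 6) (nat_lit 5) (nat_lit 7) (nat_lit 327) (nat_lit 236) r11_327 r9_236 (nat_lit 0) (nat_lit 0) (nat_lit 0) (nat_lit 0x80029938e) (nat_lit 1073741824),
  Rx.mk (nat_lit 406) (nat_lit 6) (nat_lit 2) (nat_lit 6) (nat_lit 7) (nat_lit 328) (nat_lit 240) r11_328 r9_240 (nat_lit 0) (nat_lit 0) (nat_lit 0) (nat_lit 0x80029938e) (nat_lit 1073741824),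
  Rx.mk (nat_lit 503) (nat_lit 7) (nat_lit 6) (nat_lit 7) (nat_lit 7) (nat_lit 329) (nat_lit 237) r11_329 r9_237 (nat_lit 0) (nat_lit 0) (nat_lit 0) (nat_lit 0x80029938e) (nat_lit 1073741824)]
noncomputable def e34_18 : List Rx := [
  Rx.mk (nat_lit 116) (nat_lit 4) (nat_lit 6) (nat_lit 1) (nat_lit 6) (nat_lit 353) (nat_lit 363) r11_353 r4_363 (nat_lit 4642613) (nat_lit 0) (nat_lit 0) (nat_lit 0x7fedac142) (nat_lit 1079729037),
  Rx.mk (nat_lit 117) (nat_lit 5) (nat_lit 6) (nat_lit 1) (nat_lit 7) (nat_lit 354) (nat_lit 364) r11_354 r4_364 (nat_lit 0) (nat_lit 0) (nat_lit 0) (nat_lit 0x800f551b8) (nat_lit 1072925424),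
  Rx.mk (nat_lit 119) (nat_lit 7) (nat_lit 6) (nat_lit 1) (nat_lit 7) (nat_lit 355) (nat_lit 365) r11_355 r4_365 (nat_lit 0) (nat_lit 0) (nat_lit 0) (nat_lit 0x800f551b8) (nat_lit 1072925424)]
noncomputable def e34_19 : List Rx := [
  Rx.mk (nat_lit 116) (nat_lit 4) (nat_lit 6) (nat_lit 1) (nat_lit 6) (nat_lit 361) (nat_lit 240) r11_361 r10_240 (nat_lit 2407548) (nat_lit 0) (nat_lit 0) (nat_lit 0x806441ffa) (nat_lit 1069926072),
  Rx.mk (nat_lit 117) (nat_lit 5) (nat_lit 6) (nat_lit 1) (nat_lit 7) (nat_lit 362) (nat_lit 241) r11_362 r10_241 (nat_lit 0) (nat_lit 0) (nat_lit 0) (nat_lit 0x803403b68) (nat_lit 1070584224),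
  Rx.mk (nat_lit 119) (nat_lit 7) (nat_lit 6) (nat_lit 1) (nat_lit 7) (nat_lit 363) (nat_lit 242) r11_363 r10_242 (nat_lit 0) (nat_lit 0) (nat_lit 0) (nat_lit 0x803403b68) (nat_lit 1070584224),
  Rx.mk (nat_lit 375) (nat_lit 7) (nat_lit 6) (nat_lit 5) (nat_lit 7) (nat_lit 360) (nat_lit 243) r11_360 r10_243 (nat_lit 0) (nat_lit 0) (nat_lit 0) (nat_lit 0x80029938e) (nat_lit 1073741824)]
noncomputable def e34_20 : List Rx := [
  Rx.mk (nat_lit 116) (nat_lit 4) (nat_lit 6) (nat_lit 1) (nat_lit 6) (nat_lit 368) (nat_lit 281) r11_368 r11_281 (nat_lit 5649802) (nat_lit 0) (nat_lit 0) (nat_lit 0x7ff512e2c) (nat_lit 1080260426),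
  Rx.mk (nat_lit 117) (nat_lit 5) (nat_lit 6) (nat_lit 1) (nat_lit 7) (nat_lit 369) (nat_lit 282) r11_369 r11_282 (nat_lit 0) (nat_lit 0) (nat_lit 0) (nat_lit 0x80029938e) (nat_lit 1073741824),
  Rx.mk (nat_lit 119) (nat_lit 7) (nat_lit 6) (nat_lit 1) (nat_lit 7) (nat_lit 370) (nat_lit 283) r11_370 r11_283 (nat_lit 0) (nat_lit 0) (nat_lit 0) (nat_lit 0x80029938e) (nat_lit 1073741824)]
noncomputable def e34_21 : List Rx := [
  Rx.mk (nat_lit 278) (nat_lit 6) (nat_lit 2) (nat_lit 4) (nat_lit 3) (nat_lit 330) (nat_lit 216) r11_330 r9_216 (nat_lit 0) (nat_lit 0) (nat_lit 5449534) (nat_lit 0x80029938e) (nat_lit 1079191358),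
  Rx.mk (nat_lit 342) (nat_lit 6) (nat_lit 2) (nat_lit 5) (nat_lit 7) (nat_lit 331) (nat_lit 217) r11_331 r9_217 (nat_lit 0) (nat_lit 0) (nat_lit 0) (nat_lit 0x80029938e) (nat_lit 1073741824),
  Rx.mk (nat_lit 406) (nat_lit 6) (nat_lit 2) (nat_lit 6) (nat_lit 7) (nat_lit 332) (nat_lit 218) r11_332 r9_218 (nat_lit 0) (nat_lit 0) (nat_lit 0) (nat_lit 0x80029938e) (nat_lit 1073741824)]
noncomputable def e34_22 : List Rx := [
  Rx.mk (nat_lit 130) (nat_lit 2) (nat_lit 0) (nat_lit 2) (nat_lit 5) (nat_lit 0) (nat_lit 152) r11_0 r0_152 (nat_lit 0) (nat_lit 4245916) (nat_lit 0) (nat_lit 0x7feae8000) (nat_lit 1079510240),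
  Rx.mk (nat_lit 154) (nat_lit 2) (nat_lit 3) (nat_lit 2) (nat_lit 7) (nat_lit 1) (nat_lit 153) r11_1 r0_153 (nat_lit 0) (nat_lit 0) (nat_lit 0) (nat_lit 0x800bb8a46) (nat_lit 1073157024)]
noncomputable def e34_23 : List Rx := [
  Rx.mk (nat_lit 130) (nat_lit 2) (nat_lit 0) (nat_lit 2) (nat_lit 5) (nat_lit 2) (nat_lit 166) r11_2 r1_166 (nat_lit 0) (nat_lit 5621376) (nat_lit 0) (nat_lit 0x7fea6aa60) (nat_lit 1080917600),
  Rx.mk (nat_lit 138) (nat_lit 2) (nat_lit 1) (nat_lit 2) (nat_lit 7) (nat_lit 3) (nat_lit 167) r11_3 r1_167 (nat_lit 0) (nat_lit 0) (nat_lit 0) (nat_lit 0x80029938e) (nat_lit 1073741824),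
  Rx.mk (nat_lit 154) (nat_lit 2) (nat_lit 3) (nat_lit 2) (nat_lit 7) (nat_lit 4) (nat_lit 168) r11_4 r1_168 (nat_lit 0) (nat_lit 0) (nat_lit 0) (nat_lit 0x80029938e) (nat_lit 1073741824)]
noncomputable def e34_24 : List Rx := [
  Rx.mk (nat_lit 154) (nat_lit 2) (nat_lit 3) (nat_lit 2) (nat_lit 7) (nat_lit 8) (nat_lit 143) r11_8 r4_143 (nat_lit 0) (nat_lit 0) (nat_lit 0) (nat_lit 0x80029938e) (nat_lit 1073741824)]
noncomputable def e34_25 : List Rx := [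
  Rx.mk (nat_lit 130) (nat_lit 2) (nat_lit 0) (nat_lit 2) (nat_lit 5) (nat_lit 105) (nat_lit 276) r11_105 r7_276 (nat_lit 0) (nat_lit 2301147) (nat_lit 0) (nat_lit 0x8062f057a) (nat_lit 1069902071),
  Rx.mk (nat_lit 154) (nat_lit 2) (nat_lit 3) (nat_lit 2) (nat_lit 7) (nat_lit 106) (nat_lit 277) r11_106 r7_277 (nat_lit 0) (nat_lit 0) (nat_lit 0) (nat_lit 0x804200450) (nat_lit 1069693624),
  Rx.mk (nat_lit 278) (nat_lit 6) (nat_lit 2) (nat_lit 4) (nat_lit 3) (nat_lit 101) (nat_lit 278) r11_101 r7_278 (nat_lit 0) (nat_lit 0) (nat_lit 5449534) (nat_lit 0x80029938e) (nat_lit 1079191358),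
  Rx.mk (nat_lit 386) (nat_lit 2) (nat_lit 0) (nat_lit 6) (nat_lit 5) (nat_lit 104) (nat_lit 275) r11_104 r7_275 (nat_lit 0) (nat_lit 5449534) (nat_lit 0) (nat_lit 0x80029938e) (nat_lit 1079191358),
  Rx.mk (nat_lit 390) (nat_lit 6) (nat_lit 0) (nat_lit 6) (nat_lit 5) (nat_lit 102) (nat_lit 274) r11_102 r7_274 (nat_lit 0) (nat_lit 6685557) (nat_lit 0) (nat_lit 0x7fa33a33e) (nat_lit 1086587581),
  Rx.mk (nat_lit 406) (nat_lit 6) (nat_lit 2) (nat_lit 6) (nat_lit 7) (nat_lit 103) (nat_lit 279) r11_103 r7_279 (nat_lit 0) (nat_lit 0) (nat_lit 0) (nat_lit 0x80029938e) (nat_lit 1073741824)]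
noncomputable def e34_26 : List Rx := [
  Rx.mk (nat_lit 130) (nat_lit 2) (nat_lit 0) (nat_lit 2) (nat_lit 5) (nat_lit 120) (nat_lit 208) r11_120 r8_208 (nat_lit 0) (nat_lit 4232301) (nat_lit 0) (nat_lit 0x8010bf30a) (nat_lit 1077067325),
  Rx.mk (nat_lit 138) (nat_lit 2) (nat_lit 1) (nat_lit 2) (nat_lit 7) (nat_lit 121) (nat_lit 211) r11_121 r8_211 (nat_lit 0) (nat_lit 0) (nat_lit 0) (nat_lit 0x80029938e) (nat_lit 1073741824),
  Rx.mk (nat_lit 154) (nat_lit 2) (nat_lit 3) (nat_lit 2) (nat_lit 7) (nat_lit 122) (nat_lit 212) r11_122 r8_212 (nat_lit 0) (nat_lit 0) (nat_lit 0) (nat_lit 0x80029938e) (nat_lit 1073741824),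
  Rx.mk (nat_lit 386) (nat_lit 2) (nat_lit 0) (nat_lit 6) (nat_lit 5) (nat_lit 118) (nat_lit 207) r11_118 r8_207 (nat_lit 0) (nat_lit 5449534) (nat_lit 0) (nat_lit 0x80029938e) (nat_lit 1079191358),
  Rx.mk (nat_lit 390) (nat_lit 6) (nat_lit 0) (nat_lit 6) (nat_lit 5) (nat_lit 115) (nat_lit 206) r11_115 r8_206 (nat_lit 0) (nat_lit 5612407) (nat_lit 0) (nat_lit 0x7ff40af5c) (nat_lit 1080288431),
  Rx.mk (nat_lit 394) (nat_lit 2) (nat_lit 1) (nat_lit 6) (nat_lit 7) (nat_lit 119) (nat_lit 210) r11_119 r8_210 (nat_lit 0) (nat_lit 0) (nat_lit 0) (nat_lit 0x80029938e) (nat_lit 1073741824),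
  Rx.mk (nat_lit 398) (nat_lit 6) (nat_lit 1) (nat_lit 6) (nat_lit 7) (nat_lit 116) (nat_lit 209) r11_116 r8_209 (nat_lit 0) (nat_lit 0) (nat_lit 0) (nat_lit 0x80029938e) (nat_lit 1073741824),
  Rx.mk (nat_lit 406) (nat_lit 6) (nat_lit 2) (nat_lit 6) (nat_lit 7) (nat_lit 117) (nat_lit 213) r11_117 r8_213 (nat_lit 0) (nat_lit 0) (nat_lit 0) (nat_lit 0x80029938e) (nat_lit 1073741824)]
noncomputable def e34_27 : List Rx := [
  Rx.mk (nat_lit 278) (nat_lit 6) (nat_lit 2) (nat_lit 4) (nat_lit 3) (nat_lit 113) (nat_lit 157) r11_113 r8_157 (nat_lit 0) (nat_lit 0) (nat_lit 5449534) (nat_lit 0x80029938e) (nat_lit 1079191358),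
  Rx.mk (nat_lit 406) (nat_lit 6) (nat_lit 2) (nat_lit 6) (nat_lit 7) (nat_lit 114) (nat_lit 158) r11_114 r8_158 (nat_lit 0) (nat_lit 0) (nat_lit 0) (nat_lit 0x80029938e) (nat_lit 1073741824)]
noncomputable def e34_28 : List Rx := [
  Rx.mk (nat_lit 154) (nat_lit 2) (nat_lit 3) (nat_lit 2) (nat_lit 7) (nat_lit 143) (nat_lit 221) r11_143 r10_221 (nat_lit 0) (nat_lit 0) (nat_lit 0) (nat_lit 0x8037ea8d0) (nat_lit 1070334824),
  Rx.mk (nat_lit 278) (nat_lit 6) (nat_lit 2) (nat_lit 4) (nat_lit 3) (nat_lit 137) (nat_lit 222) r11_137 r10_222 (nat_lit 0) (nat_lit 0) (nat_lit 5449534) (nat_lit 0x80029938e) (nat_lit 1079191358),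
  Rx.mk (nat_lit 386) (nat_lit 2) (nat_lit 0) (nat_lit 6) (nat_lit 5) (nat_lit 140) (nat_lit 219) r11_140 r10_219 (nat_lit 0) (nat_lit 5449534) (nat_lit 0) (nat_lit 0x80029938e) (nat_lit 1079191358),
  Rx.mk (nat_lit 390) (nat_lit 6) (nat_lit 0) (nat_lit 6) (nat_lit 5) (nat_lit 138) (nat_lit 218) r11_138 r10_218 (nat_lit 0) (nat_lit 5449534) (nat_lit 0) (nat_lit 0x80029938e) (nat_lit 1079191358),
  Rx.mk (nat_lit 406) (nat_lit 6) (nat_lit 2) (nat_lit 6) (nat_lit 7) (nat_lit 139) (nat_lit 224) r11_139 r10_224 (nat_lit 0) (nat_lit 0) (nat_lit 0) (nat_lit 0x80029938e) (nat_lit 1073741824),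
  Rx.mk (nat_lit 410) (nat_lit 2) (nat_lit 3) (nat_lit 6) (nat_lit 7) (nat_lit 141) (nat_lit 220) r11_141 r10_220 (nat_lit 0) (nat_lit 0) (nat_lit 0) (nat_lit 0x80029938e) (nat_lit 1073741824),
  Rx.mk (nat_lit 470) (nat_lit 6) (nat_lit 2) (nat_lit 7) (nat_lit 7) (nat_lit 142) (nat_lit 223) r11_142 r10_223 (nat_lit 0) (nat_lit 0) (nat_lit 0) (nat_lit 0x80029938e) (nat_lit 1073741824)]
noncomputable def e34_29 : List Rx := []
noncomputable def e34_30 : List Rx := [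
  Rx.mk (nat_lit 119) (nat_lit 7) (nat_lit 6) (nat_lit 1) (nat_lit 7) (nat_lit 356) (nat_lit 310) r11_356 r5_310 (nat_lit 0) (nat_lit 0) (nat_lit 0) (nat_lit 0x962b5e434) (nat_lit 715321324)]
noncomputable def e34_31 : List Rx := [
  Rx.mk (nat_lit 119) (nat_lit 7) (nat_lit 6) (nat_lit 1) (nat_lit 7) (nat_lit 365) (nat_lit 365) r11_365 r11_365 (nat_lit 0) (nat_lit 0) (nat_lit 0) (nat_lit 0x804399b86) (nat_lit 1069591024),
  Rx.mk (nat_lit 375) (nat_lit 7) (nat_lit 6) (nat_lit 5) (nat_lit 7) (nat_lit 364) (nat_lit 364) r11_364 r11_364 (nat_lit 0) (nat_lit 0) (nat_lit 0) (nat_lit 0x8017b333c) (nat_lit 1072390724)]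
noncomputable def e34_32 : List Rx := [
  Rx.mk (nat_lit 35) (nat_lit 3) (nat_lit 4) (nat_lit 0) (nat_lit 1) (nat_lit 54) (nat_lit 227) r11_54 r6_227 (nat_lit 0) (nat_lit 1407149) (nat_lit 1343161) (nat_lit 0x737e36fbc) (nat_lit 1285096534),
  Rx.mk (nat_lit 51) (nat_lit 3) (nat_lit 6) (nat_lit 0) (nat_lit 3) (nat_lit 55) (nat_lit 229) r11_55 r6_229 (nat_lit 0) (nat_lit 0) (nat_lit 2747444) (nat_lit 0x803990784) (nat_lit 1072977968),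
  Rx.mk (nat_lit 56) (nat_lit 0) (nat_lit 7) (nat_lit 0) (nat_lit 2) (nat_lit 53) (nat_lit 224) r11_53 r6_224 (nat_lit 2307781) (nat_lit 0) (nat_lit 1282205) (nat_lit 0x7934fd052) (nat_lit 1190670010),
  Rx.mk (nat_lit 59) (nat_lit 3) (nat_lit 7) (nat_lit 0) (nat_lit 3) (nat_lit 56) (nat_lit 228) r11_56 r6_228 (nat_lit 0) (nat_lit 0) (nat_lit 1786259) (nat_lit 0x808a883f8) (nat_lit 1066877983),
  Rx.mk (nat_lit 99) (nat_lit 3) (nat_lit 4) (nat_lit 1) (nat_lit 5) (nat_lit 58) (nat_lit 230) r11_58 r6_230 (nat_lit 0) (nat_lit 4262738) (nat_lit 0) (nat_lit 0x801570c46) (nat_lit 1076797662),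
  Rx.mk (nat_lit 115) (nat_lit 3) (nat_lit 6) (nat_lit 1) (nat_lit 7) (nat_lit 59) (nat_lit 232) r11_59 r6_232 (nat_lit 0) (nat_lit 0) (nat_lit 0) (nat_lit 0x80029938e) (nat_lit 1073741824),
  Rx.mk (nat_lit 120) (nat_lit 0) (nat_lit 7) (nat_lit 1) (nat_lit 6) (nat_lit 57) (nat_lit 225) r11_57 r6_225 (nat_lit 5449534) (nat_lit 0) (nat_lit 0) (nat_lit 0x80029938e) (nat_lit 1079191358),
  Rx.mk (nat_lit 123) (nat_lit 3) (nat_lit 7) (nat_lit 1) (nat_lit 7) (nat_lit 60) (nat_lit 231) r11_60 r6_231 (nat_lit 0) (nat_lit 0) (nat_lit 0) (nat_lit 0x80159ec7c) (nat_lit 1072523724),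
  Rx.mk (nat_lit 163) (nat_lit 3) (nat_lit 4) (nat_lit 2) (nat_lit 5) (nat_lit 63) (nat_lit 235) r11_63 r6_235 (nat_lit 0) (nat_lit 3738478) (nat_lit 0) (nat_lit 0x8024ee42a) (nat_lit 1075285302),
  Rx.mk (nat_lit 184) (nat_lit 0) (nat_lit 7) (nat_lit 2) (nat_lit 6) (nat_lit 61) (nat_lit 226) r11_61 r6_226 (nat_lit 3994773) (nat_lit 0) (nat_lit 0) (nat_lit 0x801c09594) (nat_lit 1076108397),
  Rx.mk (nat_lit 186) (nat_lit 2) (nat_lit 7) (nat_lit 2) (nat_lit 7) (nat_lit 62) (nat_lit 237) r11_62 r6_237 (nat_lit 0) (nat_lit 0) (nat_lit 0) (nat_lit 0x800b91806) (nat_lit 1073166724),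
  Rx.mk (nat_lit 187) (nat_lit 3) (nat_lit 7) (nat_lit 2) (nat_lit 7) (nat_lit 64) (nat_lit 236) r11_64 r6_236 (nat_lit 0) (nat_lit 0) (nat_lit 0) (nat_lit 0x80159ec7c) (nat_lit 1072523724),
  Rx.mk (nat_lit 227) (nat_lit 3) (nat_lit 4) (nat_lit 3) (nat_lit 5) (nat_lit 66) (nat_lit 233) r11_66 r6_233 (nat_lit 0) (nat_lit 3928738) (nat_lit 0) (nat_lit 0x80106e662) (nat_lit 1076782462),
  Rx.mk (nat_lit 243) (nat_lit 3) (nat_lit 6) (nat_lit 3) (nat_lit 7) (nat_lit 67) (nat_lit 234) r11_67 r6_234 (nat_lit 0) (nat_lit 0) (nat_lit 0) (nat_lit 0x801118d6a) (nat_lit 1072812524),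
  Rx.mk (nat_lit 247) (nat_lit 7) (nat_lit 6) (nat_lit 3) (nat_lit 7) (nat_lit 65) (nat_lit 223) r11_65 r6_223 (nat_lit 0) (nat_lit 0) (nat_lit 0) (nat_lit 0x95ec9a496) (nat_lit 719290124)]
noncomputable def e34_33 : List Rx := [
  Rx.mk (nat_lit 56) (nat_lit 0) (nat_lit 7) (nat_lit 0) (nat_lit 2) (nat_lit 9) (nat_lit 140) r11_9 r5_140 (nat_lit 175020) (nat_lit 0) (nat_lit 125684) (nat_lit 0x733f0fb0e) (nat_lit 1286716228),
  Rx.mk (nat_lit 59) (nat_lit 3) (nat_lit 7) (nat_lit 0) (nat_lit 3) (nat_lit 10) (nat_lit 141) r11_10 r5_141 (nat_lit 0) (nat_lit 0) (nat_lit 1188030) (nat_lit 0x853c4c630) (nat_lit 990345654),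
  Rx.mk (nat_lit 154) (nat_lit 2) (nat_lit 3) (nat_lit 2) (nat_lit 7) (nat_lit 13) (nat_lit 148) r11_13 r5_148 (nat_lit 0) (nat_lit 0) (nat_lit 0) (nat_lit 0x8093c6438) (nat_lit 1064504724),
  Rx.mk (nat_lit 184) (nat_lit 0) (nat_lit 7) (nat_lit 2) (nat_lit 6) (nat_lit 11) (nat_lit 146) r11_11 r5_146 (nat_lit 1759938) (nat_lit 0) (nat_lit 0) (nat_lit 0x802382334) (nat_lit 1073384662),
  Rx.mk (nat_lit 186) (nat_lit 2) (nat_lit 7) (nat_lit 2) (nat_lit 7) (nat_lit 12) (nat_lit 149) r11_12 r5_149 (nat_lit 0) (nat_lit 0) (nat_lit 0) (nat_lit 0x801ffa1a8) (nat_lit 1071862024),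
  Rx.mk (nat_lit 187) (nat_lit 3) (nat_lit 7) (nat_lit 2) (nat_lit 7) (nat_lit 14) (nat_lit 147) r11_14 r5_147 (nat_lit 0) (nat_lit 0) (nat_lit 0) (nat_lit 0x8087d4972) (nat_lit 1065267524),
  Rx.mk (nat_lit 227) (nat_lit 3) (nat_lit 4) (nat_lit 3) (nat_lit 5) (nat_lit 16) (nat_lit 142) r11_16 r5_142 (nat_lit 0) (nat_lit 2807402) (nat_lit 0) (nat_lit 0x7fb00afd2) (nat_lit 1081869426),
  Rx.mk (nat_lit 243) (nat_lit 3) (nat_lit 6) (nat_lit 3) (nat_lit 7) (nat_lit 17) (nat_lit 144) r11_17 r5_144 (nat_lit 0) (nat_lit 0) (nat_lit 0) (nat_lit 0x80029938e) (nat_lit 1073741824),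
  Rx.mk (nat_lit 247) (nat_lit 7) (nat_lit 6) (nat_lit 3) (nat_lit 7) (nat_lit 15) (nat_lit 145) r11_15 r5_145 (nat_lit 0) (nat_lit 0) (nat_lit 0) (nat_lit 0x8c926658c) (nat_lit 870523024),
  Rx.mk (nat_lit 251) (nat_lit 3) (nat_lit 7) (nat_lit 3) (nat_lit 7) (nat_lit 18) (nat_lit 143) r11_18 r5_143 (nat_lit 0) (nat_lit 0) (nat_lit 0) (nat_lit 0x80029938e) (nat_lit 1073741824)]
noncomputable def e34_34 : List Rx := [
  Rx.mk (nat_lit 56) (nat_lit 0) (nat_lit 7) (nat_lit 0) (nat_lit 2) (nat_lit 154) (nat_lit 144) r11_154 r11_144 (nat_lit 241552) (nat_lit 0) (nat_lit 197139) (nat_lit 0x77eb907c6) (nat_lit 1208937315),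
  Rx.mk (nat_lit 59) (nat_lit 3) (nat_lit 7) (nat_lit 0) (nat_lit 3) (nat_lit 155) (nat_lit 145) r11_155 r11_145 (nat_lit 0) (nat_lit 0) (nat_lit 3711888) (nat_lit 0x802a4a2ac) (nat_lit 1074920912),
  Rx.mk (nat_lit 154) (nat_lit 2) (nat_lit 3) (nat_lit 2) (nat_lit 7) (nat_lit 158) (nat_lit 152) r11_158 r11_152 (nat_lit 0) (nat_lit 0) (nat_lit 0) (nat_lit 0x85a1b9e32) (nat_lit 982752224),
  Rx.mk (nat_lit 184) (nat_lit 0) (nat_lit 7) (nat_lit 2) (nat_lit 6) (nat_lit 156) (nat_lit 150) r11_156 r11_150 (nat_lit 5516626) (nat_lit 0) (nat_lit 0) (nat_lit 0x7ffc1e82e) (nat_lit 1079674250),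
  Rx.mk (nat_lit 186) (nat_lit 2) (nat_lit 7) (nat_lit 2) (nat_lit 7) (nat_lit 157) (nat_lit 153) r11_157 r11_153 (nat_lit 0) (nat_lit 0) (nat_lit 0) (nat_lit 0x7ffe2c38c) (nat_lit 1074025524),
  Rx.mk (nat_lit 187) (nat_lit 3) (nat_lit 7) (nat_lit 2) (nat_lit 7) (nat_lit 159) (nat_lit 151) r11_159 r11_151 (nat_lit 0) (nat_lit 0) (nat_lit 0) (nat_lit 0x80029938e) (nat_lit 1073741824),
  Rx.mk (nat_lit 227) (nat_lit 3) (nat_lit 4) (nat_lit 3) (nat_lit 5) (nat_lit 161) (nat_lit 146) r11_161 r11_146 (nat_lit 0) (nat_lit 5449534) (nat_lit 0) (nat_lit 0x7fcac9634) (nat_lit 1082787558),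
  Rx.mk (nat_lit 243) (nat_lit 3) (nat_lit 6) (nat_lit 3) (nat_lit 7) (nat_lit 162) (nat_lit 148) r11_162 r11_148 (nat_lit 0) (nat_lit 0) (nat_lit 0) (nat_lit 0x80029938e) (nat_lit 1073741824),
  Rx.mk (nat_lit 247) (nat_lit 7) (nat_lit 6) (nat_lit 3) (nat_lit 7) (nat_lit 160) (nat_lit 149) r11_160 r11_149 (nat_lit 0) (nat_lit 0) (nat_lit 0) (nat_lit 0x80342291e) (nat_lit 1070576824),
  Rx.mk (nat_lit 251) (nat_lit 3) (nat_lit 7) (nat_lit 3) (nat_lit 7) (nat_lit 163) (nat_lit 147) r11_163 r11_147 (nat_lit 0) (nat_lit 0) (nat_lit 0) (nat_lit 0x80029938e) (nat_lit 1073741824),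
  Rx.mk (nat_lit 276) (nat_lit 4) (nat_lit 2) (nat_lit 4) (nat_lit 2) (nat_lit 144) (nat_lit 154) r11_144 r11_154 (nat_lit 241552) (nat_lit 0) (nat_lit 197139) (nat_lit 0x77eb907c6) (nat_lit 1208937315),
  Rx.mk (nat_lit 278) (nat_lit 6) (nat_lit 2) (nat_lit 4) (nat_lit 3) (nat_lit 145) (nat_lit 155) r11_145 r11_155 (nat_lit 0) (nat_lit 0) (nat_lit 3711888) (nat_lit 0x802a4a2ac) (nat_lit 1074920912),
  Rx.mk (nat_lit 390) (nat_lit 6) (nat_lit 0) (nat_lit 6) (nat_lit 5) (nat_lit 146) (nat_lit 161) r11_146 r11_161 (nat_lit 0) (nat_lit 5449534) (nat_lit 0) (nat_lit 0x7fcac9634) (nat_lit 1082787558),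
  Rx.mk (nat_lit 406) (nat_lit 6) (nat_lit 2) (nat_lit 6) (nat_lit 7) (nat_lit 147) (nat_lit 163) r11_147 r11_163 (nat_lit 0) (nat_lit 0) (nat_lit 0) (nat_lit 0x80029938e) (nat_lit 1073741824),
  Rx.mk (nat_lit 410) (nat_lit 2) (nat_lit 3) (nat_lit 6) (nat_lit 7) (nat_lit 149) (nat_lit 160) r11_149 r11_160 (nat_lit 0) (nat_lit 0) (nat_lit 0) (nat_lit 0x80342291e) (nat_lit 1070576824),
  Rx.mk (nat_lit 414) (nat_lit 6) (nat_lit 3) (nat_lit 6) (nat_lit 7) (nat_lit 148) (nat_lit 162) r11_148 r11_162 (nat_lit 0) (nat_lit 0) (nat_lit 0) (nat_lit 0x80029938e) (nat_lit 1073741824),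
  Rx.mk (nat_lit 468) (nat_lit 4) (nat_lit 2) (nat_lit 7) (nat_lit 6) (nat_lit 150) (nat_lit 156) r11_150 r11_156 (nat_lit 5516626) (nat_lit 0) (nat_lit 0) (nat_lit 0x7ffc1e82e) (nat_lit 1079674250),
  Rx.mk (nat_lit 470) (nat_lit 6) (nat_lit 2) (nat_lit 7) (nat_lit 7) (nat_lit 151) (nat_lit 159) r11_151 r11_159 (nat_lit 0) (nat_lit 0) (nat_lit 0) (nat_lit 0x80029938e) (nat_lit 1073741824),
  Rx.mk (nat_lit 471) (nat_lit 7) (nat_lit 2) (nat_lit 7) (nat_lit 7) (nat_lit 153) (nat_lit 157) r11_153 r11_157 (nat_lit 0) (nat_lit 0) (nat_lit 0) (nat_lit 0x7ffe2c38c) (nat_lit 1074025524),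
  Rx.mk (nat_lit 503) (nat_lit 7) (nat_lit 6) (nat_lit 7) (nat_lit 7) (nat_lit 152) (nat_lit 158) r11_152 r11_158 (nat_lit 0) (nat_lit 0) (nat_lit 0) (nat_lit 0x85a1b9e32) (nat_lit 982752224)]
noncomputable def e34_35 : List Rx := [
  Rx.mk (nat_lit 35) (nat_lit 3) (nat_lit 4) (nat_lit 0) (nat_lit 1) (nat_lit 267) (nat_lit 367) r11_267 r6_367 (nat_lit 0) (nat_lit 1583871) (nat_lit 1198594) (nat_lit 0x786c3fe62) (nat_lit 1202933889),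
  Rx.mk (nat_lit 51) (nat_lit 3) (nat_lit 6) (nat_lit 0) (nat_lit 3) (nat_lit 268) (nat_lit 370) r11_268 r6_370 (nat_lit 0) (nat_lit 0) (nat_lit 2725786) (nat_lit 0x80237ab70) (nat_lit 1074362110),
  Rx.mk (nat_lit 55) (nat_lit 7) (nat_lit 6) (nat_lit 0) (nat_lit 3) (nat_lit 266) (nat_lit 371) r11_266 r6_371 (nat_lit 0) (nat_lit 0) (nat_lit 670567) (nat_lit 0x815ed8932) (nat_lit 1052331991),
  Rx.mk (nat_lit 99) (nat_lit 3) (nat_lit 4) (nat_lit 1) (nat_lit 5) (nat_lit 270) (nat_lit 368) r11_270 r6_368 (nat_lit 0) (nat_lit 3783142) (nat_lit 0) (nat_lit 0x8026e504e) (nat_lit 1075205966),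
  Rx.mk (nat_lit 115) (nat_lit 3) (nat_lit 6) (nat_lit 1) (nat_lit 7) (nat_lit 271) (nat_lit 372) r11_271 r6_372 (nat_lit 0) (nat_lit 0) (nat_lit 0) (nat_lit 0x80029938e) (nat_lit 1073741824),
  Rx.mk (nat_lit 119) (nat_lit 7) (nat_lit 6) (nat_lit 1) (nat_lit 7) (nat_lit 269) (nat_lit 373) r11_269 r6_373 (nat_lit 0) (nat_lit 0) (nat_lit 0) (nat_lit 0xa8336d212) (nat_lit 423737724),
  Rx.mk (nat_lit 163) (nat_lit 3) (nat_lit 4) (nat_lit 2) (nat_lit 5) (nat_lit 272) (nat_lit 369) r11_272 r6_369 (nat_lit 0) (nat_lit 4589682) (nat_lit 0) (nat_lit 0x80102e396) (nat_lit 1077461506)]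
noncomputable def e34_36 : List Rx := [
  Rx.mk (nat_lit 35) (nat_lit 3) (nat_lit 4) (nat_lit 0) (nat_lit 1) (nat_lit 288) (nat_lit 277) r11_288 r12_277 (nat_lit 0) (nat_lit 667034) (nat_lit 654576) (nat_lit 0x7581a5c14) (nat_lit 1250087734),
  Rx.mk (nat_lit 51) (nat_lit 3) (nat_lit 6) (nat_lit 0) (nat_lit 3) (nat_lit 289) (nat_lit 283) r11_289 r12_283 (nat_lit 0) (nat_lit 0) (nat_lit 2043450) (nat_lit 0x808aabb28) (nat_lit 1067127174),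
  Rx.mk (nat_lit 55) (nat_lit 7) (nat_lit 6) (nat_lit 0) (nat_lit 3) (nat_lit 287) (nat_lit 285) r11_287 r12_285 (nat_lit 0) (nat_lit 0) (nat_lit 264456) (nat_lit 0x893fc6a14) (nat_lit 924489980),
  Rx.mk (nat_lit 59) (nat_lit 3) (nat_lit 7) (nat_lit 0) (nat_lit 3) (nat_lit 290) (nat_lit 280) r11_290 r12_280 (nat_lit 0) (nat_lit 0) (nat_lit 1252562) (nat_lit 0x8181ac3aa) (nat_lit 1050719286),
  Rx.mk (nat_lit 99) (nat_lit 3) (nat_lit 4) (nat_lit 1) (nat_lit 5) (nat_lit 292) (nat_lit 278) r11_292 r12_278 (nat_lit 0) (nat_lit 3008720) (nat_lit 0) (nat_lit 0x801ff6e9a) (nat_lit 1074868444),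
  Rx.mk (nat_lit 115) (nat_lit 3) (nat_lit 6) (nat_lit 1) (nat_lit 7) (nat_lit 293) (nat_lit 284) r11_293 r12_284 (nat_lit 0) (nat_lit 0) (nat_lit 0) (nat_lit 0x800bd3882) (nat_lit 1073150124),
  Rx.mk (nat_lit 119) (nat_lit 7) (nat_lit 6) (nat_lit 1) (nat_lit 7) (nat_lit 291) (nat_lit 286) r11_291 r12_286 (nat_lit 0) (nat_lit 0) (nat_lit 0) (nat_lit 0xa72f83a76) (nat_lit 440151724),
  Rx.mk (nat_lit 123) (nat_lit 3) (nat_lit 7) (nat_lit 1) (nat_lit 7) (nat_lit 294) (nat_lit 281) r11_294 r12_281 (nat_lit 0) (nat_lit 0) (nat_lit 0) (nat_lit 0x801ddd582) (nat_lit 1071996524),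
  Rx.mk (nat_lit 163) (nat_lit 3) (nat_lit 4) (nat_lit 2) (nat_lit 5) (nat_lit 295) (nat_lit 279) r11_295 r12_279 (nat_lit 0) (nat_lit 3490265) (nat_lit 0) (nat_lit 0x802c425e6) (nat_lit 1074569689),
  Rx.mk (nat_lit 187) (nat_lit 3) (nat_lit 7) (nat_lit 2) (nat_lit 7) (nat_lit 296) (nat_lit 282) r11_296 r12_282 (nat_lit 0) (nat_lit 0) (nat_lit 0) (nat_lit 0x802e32856) (nat_lit 1070956024),
  Rx.mk (nat_lit 247) (nat_lit 7) (nat_lit 6) (nat_lit 3) (nat_lit 7) (nat_lit 297) (nat_lit 287) r11_297 r12_287 (nat_lit 0) (nat_lit 0) (nat_lit 0) (nat_lit 0x99df62cde) (nat_lit 655430324)]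
noncomputable def e34_37 : List Rx := [
  Rx.mk (nat_lit 40) (nat_lit 0) (nat_lit 5) (nat_lit 0) (nat_lit 2) (nat_lit 37) (nat_lit 200) r11_37 r0_200 (nat_lit 314732184) (nat_lit 0) (nat_lit 9426144) (nat_lit 0x70c471818) (nat_lit 1651954452),
  Rx.mk (nat_lit 104) (nat_lit 0) (nat_lit 5) (nat_lit 1) (nat_lit 6) (nat_lit 38) (nat_lit 201) r11_38 r0_201 (nat_lit 5592935) (nat_lit 0) (nat_lit 0) (nat_lit 0x802afe752) (nat_lit 1076749759),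
  Rx.mk (nat_lit 168) (nat_lit 0) (nat_lit 5) (nat_lit 2) (nat_lit 6) (nat_lit 39) (nat_lit 202) r11_39 r0_202 (nat_lit 104895094) (nat_lit 0) (nat_lit 0) (nat_lit 0x801d36fca) (nat_lit 1176912118),
  Rx.mk (nat_lit 170) (nat_lit 2) (nat_lit 5) (nat_lit 2) (nat_lit 7) (nat_lit 40) (nat_lit 203) r11_40 r0_203 (nat_lit 0) (nat_lit 0) (nat_lit 0) (nat_lit 0x813820826) (nat_lit 1054113624)]
noncomputable def e34_38 : List Rx := [
  Rx.mk (nat_lit 32) (nat_lit 0) (nat_lit 4) (nat_lit 0) (nat_lit 0) (nat_lit 165) (nat_lit 342) r11_165 r0_342 (nat_lit 10268755) (nat_lit 3852129) (nat_lit 18458944) (nat_lit 0x51ec2bbde) (nat_lit 1874651452),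
  Rx.mk (nat_lit 33) (nat_lit 1) (nat_lit 4) (nat_lit 0) (nat_lit 1) (nat_lit 168) (nat_lit 343) r11_168 r0_343 (nat_lit 0) (nat_lit 194126458) (nat_lit 7934940) (nat_lit 0x7dfec5c32) (nat_lit 1309321022),
  Rx.mk (nat_lit 40) (nat_lit 0) (nat_lit 5) (nat_lit 0) (nat_lit 2) (nat_lit 166) (nat_lit 349) r11_166 r0_349 (nat_lit 5119836) (nat_lit 0) (nat_lit 249448811) (nat_lit 0x7cd98d3b2) (nat_lit 1380926471),
  Rx.mk (nat_lit 41) (nat_lit 1) (nat_lit 5) (nat_lit 0) (nat_lit 3) (nat_lit 169) (nat_lit 350) r11_169 r0_350 (nat_lit 0) (nat_lit 0) (nat_lit 5782474) (nat_lit 0x7ffaf2f18) (nat_lit 1080015398),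
  Rx.mk (nat_lit 48) (nat_lit 0) (nat_lit 6) (nat_lit 0) (nat_lit 2) (nat_lit 167) (nat_lit 356) r11_167 r0_356 (nat_lit 9822470) (nat_lit 0) (nat_lit 9822470) (nat_lit 0x7f9211c88) (nat_lit 1100657964),
  Rx.mk (nat_lit 49) (nat_lit 1) (nat_lit 6) (nat_lit 0) (nat_lit 3) (nat_lit 170) (nat_lit 357) r11_170 r0_357 (nat_lit 0) (nat_lit 0) (nat_lit 3096735) (nat_lit 0x80342c6c6) (nat_lit 1073669459),
  Rx.mk (nat_lit 96) (nat_lit 0) (nat_lit 4) (nat_lit 1) (nat_lit 4) (nat_lit 171) (nat_lit 344) r11_171 r0_344 (nat_lit 7896501) (nat_lit 118564749) (nat_lit 0) (nat_lit 0x78f0aaa94) (nat_lit 1317996874),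
  Rx.mk (nat_lit 97) (nat_lit 1) (nat_lit 4) (nat_lit 1) (nat_lit 5) (nat_lit 174) (nat_lit 345) r11_174 r0_345 (nat_lit 0) (nat_lit 172668765) (nat_lit 0) (nat_lit 0x7f52725c8) (nat_lit 1257804589),
  Rx.mk (nat_lit 104) (nat_lit 0) (nat_lit 5) (nat_lit 1) (nat_lit 6) (nat_lit 172) (nat_lit 351) r11_172 r0_351 (nat_lit 5449534) (nat_lit 0) (nat_lit 0) (nat_lit 0x80029938e) (nat_lit 1079191358),
  Rx.mk (nat_lit 105) (nat_lit 1) (nat_lit 5) (nat_lit 1) (nat_lit 7) (nat_lit 175) (nat_lit 352) r11_175 r0_352 (nat_lit 0) (nat_lit 0) (nat_lit 0) (nat_lit 0x800c523a8) (nat_lit 1073118624),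
  Rx.mk (nat_lit 112) (nat_lit 0) (nat_lit 6) (nat_lit 1) (nat_lit 6) (nat_lit 173) (nat_lit 358) r11_173 r0_358 (nat_lit 4288788) (nat_lit 0) (nat_lit 0) (nat_lit 0x801061ba6) (nat_lit 1077145012),
  Rx.mk (nat_lit 113) (nat_lit 1) (nat_lit 6) (nat_lit 1) (nat_lit 7) (nat_lit 176) (nat_lit 359) r11_176 r0_359 (nat_lit 0) (nat_lit 0) (nat_lit 0) (nat_lit 0x80b7bae20) (nat_lit 1062234024),
  Rx.mk (nat_lit 160) (nat_lit 0) (nat_lit 4) (nat_lit 2) (nat_lit 4) (nat_lit 177) (nat_lit 346) r11_177 r0_346 (nat_lit 8056051) (nat_lit 7452897) (nat_lit 0) (nat_lit 0x7322e451a) (nat_lit 1303815772),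
  Rx.mk (nat_lit 161) (nat_lit 1) (nat_lit 4) (nat_lit 2) (nat_lit 5) (nat_lit 179) (nat_lit 347) r11_179 r0_347 (nat_lit 0) (nat_lit 5449534) (nat_lit 0) (nat_lit 0x8024d3526) (nat_lit 1077000758),
  Rx.mk (nat_lit 162) (nat_lit 2) (nat_lit 4) (nat_lit 2) (nat_lit 5) (nat_lit 181) (nat_lit 348) r11_181 r0_348 (nat_lit 0) (nat_lit 5449534) (nat_lit 0) (nat_lit 0x7fd37cdd0) (nat_lit 1082223658),
  Rx.mk (nat_lit 168) (nat_lit 0) (nat_lit 5) (nat_lit 2) (nat_lit 6) (nat_lit 178) (nat_lit 353) r11_178 r0_353 (nat_lit 4354585) (nat_lit 0) (nat_lit 0) (nat_lit 0x800b09e74) (nat_lit 1077554409),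
  Rx.mk (nat_lit 169) (nat_lit 1) (nat_lit 5) (nat_lit 2) (nat_lit 7) (nat_lit 180) (nat_lit 354) r11_180 r0_354 (nat_lit 0) (nat_lit 0) (nat_lit 0) (nat_lit 0x80029938e) (nat_lit 1073741824),
  Rx.mk (nat_lit 170) (nat_lit 2) (nat_lit 5) (nat_lit 2) (nat_lit 7) (nat_lit 182) (nat_lit 355) r11_182 r0_355 (nat_lit 0) (nat_lit 0) (nat_lit 0) (nat_lit 0x800d18918) (nat_lit 1073068624)]
noncomputable def e34_39 : List Rx := [
  Rx.mk (nat_lit 40) (nat_lit 0) (nat_lit 5) (nat_lit 0) (nat_lit 2) (nat_lit 212) (nat_lit 263) r11_212 r7_263 (nat_lit 27051137) (nat_lit 0) (nat_lit 140034131) (nat_lit 0x7b544a5ac) (nat_lit 1318788992),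
  Rx.mk (nat_lit 41) (nat_lit 1) (nat_lit 5) (nat_lit 0) (nat_lit 3) (nat_lit 213) (nat_lit 266) r11_213 r7_266 (nat_lit 0) (nat_lit 0) (nat_lit 5449534) (nat_lit 0x80029938e) (nat_lit 1079191358),
  Rx.mk (nat_lit 104) (nat_lit 0) (nat_lit 5) (nat_lit 1) (nat_lit 6) (nat_lit 214) (nat_lit 264) r11_214 r7_264 (nat_lit 5449534) (nat_lit 0) (nat_lit 0) (nat_lit 0x80029938e) (nat_lit 1079191358),
  Rx.mk (nat_lit 105) (nat_lit 1) (nat_lit 5) (nat_lit 1) (nat_lit 7) (nat_lit 215) (nat_lit 267) r11_215 r7_267 (nat_lit 0) (nat_lit 0) (nat_lit 0) (nat_lit 0x80029938e) (nat_lit 1073741824),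
  Rx.mk (nat_lit 168) (nat_lit 0) (nat_lit 5) (nat_lit 2) (nat_lit 6) (nat_lit 216) (nat_lit 265) r11_216 r7_265 (nat_lit 5449534) (nat_lit 0) (nat_lit 0) (nat_lit 0x80029938e) (nat_lit 1079191358),
  Rx.mk (nat_lit 169) (nat_lit 1) (nat_lit 5) (nat_lit 2) (nat_lit 7) (nat_lit 217) (nat_lit 268) r11_217 r7_268 (nat_lit 0) (nat_lit 0) (nat_lit 0) (nat_lit 0x80029938e) (nat_lit 1073741824),
  Rx.mk (nat_lit 170) (nat_lit 2) (nat_lit 5) (nat_lit 2) (nat_lit 7) (nat_lit 218) (nat_lit 269) r11_218 r7_269 (nat_lit 0) (nat_lit 0) (nat_lit 0) (nat_lit 0x80029938e) (nat_lit 1073741824)]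
noncomputable def e34_40 : List Rx := [
  Rx.mk (nat_lit 97) (nat_lit 1) (nat_lit 4) (nat_lit 1) (nat_lit 5) (nat_lit 340) (nat_lit 370) r11_340 r2_370 (nat_lit 0) (nat_lit 6662062) (nat_lit 0) (nat_lit 0x7fca8b1a4) (nat_lit 1084015286),
  Rx.mk (nat_lit 105) (nat_lit 1) (nat_lit 5) (nat_lit 1) (nat_lit 7) (nat_lit 341) (nat_lit 371) r11_341 r2_371 (nat_lit 0) (nat_lit 0) (nat_lit 0) (nat_lit 0x80029938e) (nat_lit 1073741824),
  Rx.mk (nat_lit 113) (nat_lit 1) (nat_lit 6) (nat_lit 1) (nat_lit 7) (nat_lit 342) (nat_lit 372) r11_342 r2_372 (nat_lit 0) (nat_lit 0) (nat_lit 0) (nat_lit 0x80029938e) (nat_lit 1073741824),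
  Rx.mk (nat_lit 117) (nat_lit 5) (nat_lit 6) (nat_lit 1) (nat_lit 7) (nat_lit 339) (nat_lit 373) r11_339 r2_373 (nat_lit 0) (nat_lit 0) (nat_lit 0) (nat_lit 0x80029938e) (nat_lit 1073741824)]
noncomputable def e34_41 : List Rx := [
  Rx.mk (nat_lit 105) (nat_lit 1) (nat_lit 5) (nat_lit 1) (nat_lit 7) (nat_lit 350) (nat_lit 327) r11_350 r9_327 (nat_lit 0) (nat_lit 0) (nat_lit 0) (nat_lit 0x80029938e) (nat_lit 1073741824)]
noncomputable def e34_42 : List Rx := [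
  Rx.mk (nat_lit 97) (nat_lit 1) (nat_lit 4) (nat_lit 1) (nat_lit 5) (nat_lit 347) (nat_lit 320) r11_347 r9_320 (nat_lit 0) (nat_lit 5449534) (nat_lit 0) (nat_lit 0x7ffd1a084) (nat_lit 1079543858),
  Rx.mk (nat_lit 105) (nat_lit 1) (nat_lit 5) (nat_lit 1) (nat_lit 7) (nat_lit 348) (nat_lit 321) r11_348 r9_321 (nat_lit 0) (nat_lit 0) (nat_lit 0) (nat_lit 0x80029938e) (nat_lit 1073741824),
  Rx.mk (nat_lit 113) (nat_lit 1) (nat_lit 6) (nat_lit 1) (nat_lit 7) (nat_lit 349) (nat_lit 323) r11_349 r9_323 (nat_lit 0) (nat_lit 0) (nat_lit 0) (nat_lit 0x80029938e) (nat_lit 1073741824),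
  Rx.mk (nat_lit 117) (nat_lit 5) (nat_lit 6) (nat_lit 1) (nat_lit 7) (nat_lit 346) (nat_lit 322) r11_346 r9_322 (nat_lit 0) (nat_lit 0) (nat_lit 0) (nat_lit 0x80029938e) (nat_lit 1073741824),
  Rx.mk (nat_lit 373) (nat_lit 5) (nat_lit 6) (nat_lit 5) (nat_lit 7) (nat_lit 345) (nat_lit 319) r11_345 r9_319 (nat_lit 0) (nat_lit 0) (nat_lit 0) (nat_lit 0x80029938e) (nat_lit 1073741824)]
noncomputable def e34_43 : List Rx := [
  Rx.mk (nat_lit 33) (nat_lit 1) (nat_lit 4) (nat_lit 0) (nat_lit 1) (nat_lit 183) (nat_lit 316) r11_183 r1_316 (nat_lit 0) (nat_lit 234072587) (nat_lit 8821660) (nat_lit 0x7aeb624b8) (nat_lit 1401431171),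
  Rx.mk (nat_lit 41) (nat_lit 1) (nat_lit 5) (nat_lit 0) (nat_lit 3) (nat_lit 184) (nat_lit 319) r11_184 r1_319 (nat_lit 0) (nat_lit 0) (nat_lit 5449534) (nat_lit 0x80029938e) (nat_lit 1079191358),
  Rx.mk (nat_lit 49) (nat_lit 1) (nat_lit 6) (nat_lit 0) (nat_lit 3) (nat_lit 185) (nat_lit 322) r11_185 r1_322 (nat_lit 0) (nat_lit 0) (nat_lit 5364616) (nat_lit 0x7ffcc177c) (nat_lit 1079481040),
  Rx.mk (nat_lit 97) (nat_lit 1) (nat_lit 4) (nat_lit 1) (nat_lit 5) (nat_lit 186) (nat_lit 317) r11_186 r1_317 (nat_lit 0) (nat_lit 10371928) (nat_lit 0) (nat_lit 0x7fad0bc00) (nat_lit 1089630552),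
  Rx.mk (nat_lit 105) (nat_lit 1) (nat_lit 5) (nat_lit 1) (nat_lit 7) (nat_lit 187) (nat_lit 320) r11_187 r1_320 (nat_lit 0) (nat_lit 0) (nat_lit 0) (nat_lit 0x80029938e) (nat_lit 1073741824),
  Rx.mk (nat_lit 113) (nat_lit 1) (nat_lit 6) (nat_lit 1) (nat_lit 7) (nat_lit 188) (nat_lit 323) r11_188 r1_323 (nat_lit 0) (nat_lit 0) (nat_lit 0) (nat_lit 0x807a04fb8) (nat_lit 1066138524),
  Rx.mk (nat_lit 161) (nat_lit 1) (nat_lit 4) (nat_lit 2) (nat_lit 5) (nat_lit 189) (nat_lit 318) r11_189 r1_318 (nat_lit 0) (nat_lit 5657793) (nat_lit 0) (nat_lit 0x7fff429ec) (nat_lit 1079613617),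
  Rx.mk (nat_lit 169) (nat_lit 1) (nat_lit 5) (nat_lit 2) (nat_lit 7) (nat_lit 190) (nat_lit 321) r11_190 r1_321 (nat_lit 0) (nat_lit 0) (nat_lit 0) (nat_lit 0x80029938e) (nat_lit 1073741824)]
noncomputable def e34_44 : List Rx := [
  Rx.mk (nat_lit 41) (nat_lit 1) (nat_lit 5) (nat_lit 0) (nat_lit 3) (nat_lit 219) (nat_lit 198) r11_219 r8_198 (nat_lit 0) (nat_lit 0) (nat_lit 5449534) (nat_lit 0x80029938e) (nat_lit 1079191358),
  Rx.mk (nat_lit 105) (nat_lit 1) (nat_lit 5) (nat_lit 1) (nat_lit 7) (nat_lit 220) (nat_lit 199) r11_220 r8_199 (nat_lit 0) (nat_lit 0) (nat_lit 0) (nat_lit 0x80029938e) (nat_lit 1073741824),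
  Rx.mk (nat_lit 169) (nat_lit 1) (nat_lit 5) (nat_lit 2) (nat_lit 7) (nat_lit 221) (nat_lit 200) r11_221 r8_200 (nat_lit 0) (nat_lit 0) (nat_lit 0) (nat_lit 0x80029938e) (nat_lit 1073741824)]
noncomputable def e34_45 : List Rx := [
  Rx.mk (nat_lit 40) (nat_lit 0) (nat_lit 5) (nat_lit 0) (nat_lit 2) (nat_lit 41) (nat_lit 220) r11_41 r1_220 (nat_lit 142725965) (nat_lit 0) (nat_lit 167522575) (nat_lit 0x71fbb1be2) (nat_lit 1617776664),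
  Rx.mk (nat_lit 104) (nat_lit 0) (nat_lit 5) (nat_lit 1) (nat_lit 6) (nat_lit 42) (nat_lit 221) r11_42 r1_221 (nat_lit 5449534) (nat_lit 0) (nat_lit 0) (nat_lit 0x80131b900) (nat_lit 1078133458),
  Rx.mk (nat_lit 138) (nat_lit 2) (nat_lit 1) (nat_lit 2) (nat_lit 7) (nat_lit 45) (nat_lit 224) r11_45 r1_224 (nat_lit 0) (nat_lit 0) (nat_lit 0) (nat_lit 0x803f6ccf2) (nat_lit 1069856624),
  Rx.mk (nat_lit 168) (nat_lit 0) (nat_lit 5) (nat_lit 2) (nat_lit 6) (nat_lit 43) (nat_lit 222) r11_43 r1_222 (nat_lit 6392805) (nat_lit 0) (nat_lit 0) (nat_lit 0x807f8d502) (nat_lit 1072177929),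
  Rx.mk (nat_lit 170) (nat_lit 2) (nat_lit 5) (nat_lit 2) (nat_lit 7) (nat_lit 44) (nat_lit 223) r11_44 r1_223 (nat_lit 0) (nat_lit 0) (nat_lit 0) (nat_lit 0x806ebd592) (nat_lit 1066852524)]
noncomputable def e34_46 : List Rx := [
  Rx.mk (nat_lit 138) (nat_lit 2) (nat_lit 1) (nat_lit 2) (nat_lit 7) (nat_lit 5) (nat_lit 237) r11_5 r2_237 (nat_lit 0) (nat_lit 0) (nat_lit 0) (nat_lit 0x80029938e) (nat_lit 1073741824)]
noncomputable def e34_47 : List Rx := [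
  Rx.mk (nat_lit 40) (nat_lit 0) (nat_lit 5) (nat_lit 0) (nat_lit 2) (nat_lit 222) (nat_lit 368) r11_222 r8_368 (nat_lit 21443359) (nat_lit 0) (nat_lit 31594176) (nat_lit 0x791f109d8) (nat_lit 1241553659),
  Rx.mk (nat_lit 41) (nat_lit 1) (nat_lit 5) (nat_lit 0) (nat_lit 3) (nat_lit 223) (nat_lit 369) r11_223 r8_369 (nat_lit 0) (nat_lit 0) (nat_lit 5449534) (nat_lit 0x80029938e) (nat_lit 1079191358),
  Rx.mk (nat_lit 104) (nat_lit 0) (nat_lit 5) (nat_lit 1) (nat_lit 6) (nat_lit 224) (nat_lit 370) r11_224 r8_370 (nat_lit 5449534) (nat_lit 0) (nat_lit 0) (nat_lit 0x80029938e) (nat_lit 1079191358),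
  Rx.mk (nat_lit 105) (nat_lit 1) (nat_lit 5) (nat_lit 1) (nat_lit 7) (nat_lit 225) (nat_lit 371) r11_225 r8_371 (nat_lit 0) (nat_lit 0) (nat_lit 0) (nat_lit 0x80029938e) (nat_lit 1073741824),
  Rx.mk (nat_lit 138) (nat_lit 2) (nat_lit 1) (nat_lit 2) (nat_lit 7) (nat_lit 229) (nat_lit 367) r11_229 r8_367 (nat_lit 0) (nat_lit 0) (nat_lit 0) (nat_lit 0x80029938e) (nat_lit 1073741824),
  Rx.mk (nat_lit 168) (nat_lit 0) (nat_lit 5) (nat_lit 2) (nat_lit 6) (nat_lit 226) (nat_lit 372) r11_226 r8_372 (nat_lit 5449534) (nat_lit 0) (nat_lit 0) (nat_lit 0x80029938e) (nat_lit 1079191358),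
  Rx.mk (nat_lit 169) (nat_lit 1) (nat_lit 5) (nat_lit 2) (nat_lit 7) (nat_lit 227) (nat_lit 373) r11_227 r8_373 (nat_lit 0) (nat_lit 0) (nat_lit 0) (nat_lit 0x80029938e) (nat_lit 1073741824),
  Rx.mk (nat_lit 170) (nat_lit 2) (nat_lit 5) (nat_lit 2) (nat_lit 7) (nat_lit 228) (nat_lit 374) r11_228 r8_374 (nat_lit 0) (nat_lit 0) (nat_lit 0) (nat_lit 0x80029938e) (nat_lit 1073741824)]
noncomputable def e34_48 : List Rx := [
  Rx.mk (nat_lit 138) (nat_lit 2) (nat_lit 1) (nat_lit 2) (nat_lit 7) (nat_lit 164) (nat_lit 214) r11_164 r9_214 (nat_lit 0) (nat_lit 0) (nat_lit 0) (nat_lit 0x80029938e) (nat_lit 1073741824)]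
noncomputable def e34_49 : List Rx := [
  Rx.mk (nat_lit 138) (nat_lit 2) (nat_lit 1) (nat_lit 2) (nat_lit 7) (nat_lit 124) (nat_lit 146) r11_124 r9_146 (nat_lit 0) (nat_lit 0) (nat_lit 0) (nat_lit 0x80029938e) (nat_lit 1073741824),
  Rx.mk (nat_lit 394) (nat_lit 2) (nat_lit 1) (nat_lit 6) (nat_lit 7) (nat_lit 123) (nat_lit 147) r11_123 r9_147 (nat_lit 0) (nat_lit 0) (nat_lit 0) (nat_lit 0x80029938e) (nat_lit 1073741824)]
noncomputable def e34_50 : List Rx := [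
  Rx.mk (nat_lit 32) (nat_lit 0) (nat_lit 4) (nat_lit 0) (nat_lit 0) (nat_lit 19) (nat_lit 186) r11_19 r3_186 (nat_lit 13405) (nat_lit 10953) (nat_lit 14728) (nat_lit 0x4ae9c72d2) (nat_lit 1958901310),
  Rx.mk (nat_lit 35) (nat_lit 3) (nat_lit 4) (nat_lit 0) (nat_lit 1) (nat_lit 22) (nat_lit 194) r11_22 r3_194 (nat_lit 0) (nat_lit 549568) (nat_lit 670112) (nat_lit 0x69e9acd0a) (nat_lit 1443278804),
  Rx.mk (nat_lit 40) (nat_lit 0) (nat_lit 5) (nat_lit 0) (nat_lit 2) (nat_lit 20) (nat_lit 187) r11_20 r3_187 (nat_lit 4197450) (nat_lit 0) (nat_lit 10345631) (nat_lit 0x687798d28) (nat_lit 1480729305),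
  Rx.mk (nat_lit 43) (nat_lit 3) (nat_lit 5) (nat_lit 0) (nat_lit 3) (nat_lit 23) (nat_lit 195) r11_23 r3_195 (nat_lit 0) (nat_lit 0) (nat_lit 1833420) (nat_lit 0x80fbf3f4c) (nat_lit 1059750544),
  Rx.mk (nat_lit 48) (nat_lit 0) (nat_lit 6) (nat_lit 0) (nat_lit 2) (nat_lit 21) (nat_lit 188) r11_21 r3_188 (nat_lit 30752625) (nat_lit 0) (nat_lit 6307296) (nat_lit 0x70f1635ce) (nat_lit 1361931145),
  Rx.mk (nat_lit 51) (nat_lit 3) (nat_lit 6) (nat_lit 0) (nat_lit 3) (nat_lit 24) (nat_lit 196) r11_24 r3_196 (nat_lit 0) (nat_lit 0) (nat_lit 1201223) (nat_lit 0x8079a638c) (nat_lit 1067378647),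
  Rx.mk (nat_lit 96) (nat_lit 0) (nat_lit 4) (nat_lit 1) (nat_lit 4) (nat_lit 25) (nat_lit 189) r11_25 r3_189 (nat_lit 280142) (nat_lit 2392413) (nat_lit 0) (nat_lit 0x66a75eea6) (nat_lit 1499043279),
  Rx.mk (nat_lit 99) (nat_lit 3) (nat_lit 4) (nat_lit 1) (nat_lit 5) (nat_lit 28) (nat_lit 197) r11_28 r3_197 (nat_lit 0) (nat_lit 2769157) (nat_lit 0) (nat_lit 0x7fe0aa2aa) (nat_lit 1078693281),
  Rx.mk (nat_lit 104) (nat_lit 0) (nat_lit 5) (nat_lit 1) (nat_lit 6) (nat_lit 26) (nat_lit 190) r11_26 r3_190 (nat_lit 5449534) (nat_lit 0) (nat_lit 0) (nat_lit 0x80029938e) (nat_lit 1079191358),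
  Rx.mk (nat_lit 107) (nat_lit 3) (nat_lit 5) (nat_lit 1) (nat_lit 7) (nat_lit 29) (nat_lit 198) r11_29 r3_198 (nat_lit 0) (nat_lit 0) (nat_lit 0) (nat_lit 0x8029b3c76) (nat_lit 1071240424),
  Rx.mk (nat_lit 112) (nat_lit 0) (nat_lit 6) (nat_lit 1) (nat_lit 6) (nat_lit 27) (nat_lit 191) r11_27 r3_191 (nat_lit 5203886) (nat_lit 0) (nat_lit 0) (nat_lit 0x7ffd2d666) (nat_lit 1079291910),
  Rx.mk (nat_lit 115) (nat_lit 3) (nat_lit 6) (nat_lit 1) (nat_lit 7) (nat_lit 30) (nat_lit 199) r11_30 r3_199 (nat_lit 0) (nat_lit 0) (nat_lit 0) (nat_lit 0x8029b3c76) (nat_lit 1071240424),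
  Rx.mk (nat_lit 160) (nat_lit 0) (nat_lit 4) (nat_lit 2) (nat_lit 4) (nat_lit 31) (nat_lit 192) r11_31 r3_192 (nat_lit 186023355) (nat_lit 142575) (nat_lit 0) (nat_lit 0x6ffd0fa54) (nat_lit 1526896154),
  Rx.mk (nat_lit 162) (nat_lit 2) (nat_lit 4) (nat_lit 2) (nat_lit 5) (nat_lit 33) (nat_lit 202) r11_33 r3_202 (nat_lit 0) (nat_lit 5449534) (nat_lit 0) (nat_lit 0x7edae2d3c) (nat_lit 1098382458),
  Rx.mk (nat_lit 163) (nat_lit 3) (nat_lit 4) (nat_lit 2) (nat_lit 5) (nat_lit 35) (nat_lit 200) r11_35 r3_200 (nat_lit 0) (nat_lit 2583324) (nat_lit 0) (nat_lit 0x8001e2788) (nat_lit 1076364148),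
  Rx.mk (nat_lit 168) (nat_lit 0) (nat_lit 5) (nat_lit 2) (nat_lit 6) (nat_lit 32) (nat_lit 193) r11_32 r3_193 (nat_lit 5985185) (nat_lit 0) (nat_lit 0) (nat_lit 0x8004716b6) (nat_lit 1079607809),
  Rx.mk (nat_lit 170) (nat_lit 2) (nat_lit 5) (nat_lit 2) (nat_lit 7) (nat_lit 34) (nat_lit 203) r11_34 r3_203 (nat_lit 0) (nat_lit 0) (nat_lit 0) (nat_lit 0x80029938e) (nat_lit 1073741824),
  Rx.mk (nat_lit 171) (nat_lit 3) (nat_lit 5) (nat_lit 2) (nat_lit 7) (nat_lit 36) (nat_lit 201) r11_36 r3_201 (nat_lit 0) (nat_lit 0) (nat_lit 0) (nat_lit 0x8029b3c76) (nat_lit 1071240424)]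
noncomputable def e34_51 : List Rx := [
  Rx.mk (nat_lit 40) (nat_lit 0) (nat_lit 5) (nat_lit 0) (nat_lit 2) (nat_lit 46) (nat_lit 188) r11_46 r4_188 (nat_lit 6612068) (nat_lit 0) (nat_lit 6680725) (nat_lit 0x79a993826) (nat_lit 1192788117),
  Rx.mk (nat_lit 43) (nat_lit 3) (nat_lit 5) (nat_lit 0) (nat_lit 3) (nat_lit 47) (nat_lit 191) r11_47 r4_191 (nat_lit 0) (nat_lit 0) (nat_lit 2822132) (nat_lit 0x80298ddc8) (nat_lit 1074069156),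
  Rx.mk (nat_lit 104) (nat_lit 0) (nat_lit 5) (nat_lit 1) (nat_lit 6) (nat_lit 48) (nat_lit 189) r11_48 r4_189 (nat_lit 5449534) (nat_lit 0) (nat_lit 0) (nat_lit 0x801d47abe) (nat_lit 1077482658),
  Rx.mk (nat_lit 107) (nat_lit 3) (nat_lit 5) (nat_lit 1) (nat_lit 7) (nat_lit 49) (nat_lit 192) r11_49 r4_192 (nat_lit 0) (nat_lit 0) (nat_lit 0) (nat_lit 0x80342afb0) (nat_lit 1070573324),
  Rx.mk (nat_lit 168) (nat_lit 0) (nat_lit 5) (nat_lit 2) (nat_lit 6) (nat_lit 50) (nat_lit 190) r11_50 r4_190 (nat_lit 5449534) (nat_lit 0) (nat_lit 0) (nat_lit 0x801061480) (nat_lit 1078306558),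
  Rx.mk (nat_lit 170) (nat_lit 2) (nat_lit 5) (nat_lit 2) (nat_lit 7) (nat_lit 51) (nat_lit 194) r11_51 r4_194 (nat_lit 0) (nat_lit 0) (nat_lit 0) (nat_lit 0x80029938e) (nat_lit 1073741824),
  Rx.mk (nat_lit 171) (nat_lit 3) (nat_lit 5) (nat_lit 2) (nat_lit 7) (nat_lit 52) (nat_lit 193) r11_52 r4_193 (nat_lit 0) (nat_lit 0) (nat_lit 0) (nat_lit 0x80342afb0) (nat_lit 1070573324)]
noncomputable def e34_52 : List Rx := [
  Rx.mk (nat_lit 32) (nat_lit 0) (nat_lit 4) (nat_lit 0) (nat_lit 0) (nat_lit 68) (nat_lit 202) r11_68 r5_202 (nat_lit 21720360) (nat_lit 2576337) (nat_lit 3094232) (nat_lit 0x4da7b05c6) (nat_lit 1940613153),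
  Rx.mk (nat_lit 35) (nat_lit 3) (nat_lit 4) (nat_lit 0) (nat_lit 1) (nat_lit 72) (nat_lit 212) r11_72 r5_212 (nat_lit 0) (nat_lit 2535516) (nat_lit 4194264) (nat_lit 0x68bbaaf48) (nat_lit 1468482604),
  Rx.mk (nat_lit 40) (nat_lit 0) (nat_lit 5) (nat_lit 0) (nat_lit 2) (nat_lit 69) (nat_lit 203) r11_69 r5_203 (nat_lit 21585030) (nat_lit 0) (nat_lit 8674374) (nat_lit 0x7effacde8) (nat_lit 1120791828),
  Rx.mk (nat_lit 43) (nat_lit 3) (nat_lit 5) (nat_lit 0) (nat_lit 3) (nat_lit 73) (nat_lit 213) r11_73 r5_213 (nat_lit 0) (nat_lit 0) (nat_lit 4046712) (nat_lit 0x801958a84) (nat_lit 1076331636),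
  Rx.mk (nat_lit 48) (nat_lit 0) (nat_lit 6) (nat_lit 0) (nat_lit 2) (nat_lit 70) (nat_lit 205) r11_70 r5_205 (nat_lit 19180850) (nat_lit 0) (nat_lit 8902206) (nat_lit 0x7e9bef6c0) (nat_lit 1125108480),
  Rx.mk (nat_lit 51) (nat_lit 3) (nat_lit 6) (nat_lit 0) (nat_lit 3) (nat_lit 74) (nat_lit 214) r11_74 r5_214 (nat_lit 0) (nat_lit 0) (nat_lit 4369172) (nat_lit 0x7febb8bc4) (nat_lit 1079580196),
  Rx.mk (nat_lit 56) (nat_lit 0) (nat_lit 7) (nat_lit 0) (nat_lit 2) (nat_lit 71) (nat_lit 204) r11_71 r5_204 (nat_lit 17049817) (nat_lit 0) (nat_lit 8510956) (nat_lit 0x7ec27a33a) (nat_lit 1120075897),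
  Rx.mk (nat_lit 96) (nat_lit 0) (nat_lit 4) (nat_lit 1) (nat_lit 4) (nat_lit 75) (nat_lit 206) r11_75 r5_206 (nat_lit 14714486) (nat_lit 11623778) (nat_lit 0) (nat_lit 0x72e87497a) (nat_lit 1318449488),
  Rx.mk (nat_lit 99) (nat_lit 3) (nat_lit 4) (nat_lit 1) (nat_lit 5) (nat_lit 78) (nat_lit 215) r11_78 r5_215 (nat_lit 0) (nat_lit 3453899) (nat_lit 0) (nat_lit 0x8019ee37c) (nat_lit 1075699823),
  Rx.mk (nat_lit 112) (nat_lit 0) (nat_lit 6) (nat_lit 1) (nat_lit 6) (nat_lit 76) (nat_lit 208) r11_76 r5_208 (nat_lit 5449534) (nat_lit 0) (nat_lit 0) (nat_lit 0x80029938e) (nat_lit 1079191358),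
  Rx.mk (nat_lit 115) (nat_lit 3) (nat_lit 6) (nat_lit 1) (nat_lit 7) (nat_lit 79) (nat_lit 216) r11_79 r5_216 (nat_lit 0) (nat_lit 0) (nat_lit 0) (nat_lit 0x800d38786) (nat_lit 1073060924),
  Rx.mk (nat_lit 120) (nat_lit 0) (nat_lit 7) (nat_lit 1) (nat_lit 6) (nat_lit 77) (nat_lit 207) r11_77 r5_207 (nat_lit 5449534) (nat_lit 0) (nat_lit 0) (nat_lit 0x80029938e) (nat_lit 1079191358),
  Rx.mk (nat_lit 160) (nat_lit 0) (nat_lit 4) (nat_lit 2) (nat_lit 4) (nat_lit 80) (nat_lit 209) r11_80 r5_209 (nat_lit 66565718) (nat_lit 2937614) (nat_lit 0) (nat_lit 0x74b9e4b76) (nat_lit 1331296056),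
  Rx.mk (nat_lit 162) (nat_lit 2) (nat_lit 4) (nat_lit 2) (nat_lit 5) (nat_lit 83) (nat_lit 222) r11_83 r5_222 (nat_lit 0) (nat_lit 4726499) (nat_lit 0) (nat_lit 0x7ff6067de) (nat_lit 1079274023),
  Rx.mk (nat_lit 163) (nat_lit 3) (nat_lit 4) (nat_lit 2) (nat_lit 5) (nat_lit 86) (nat_lit 220) r11_86 r5_220 (nat_lit 0) (nat_lit 3361078) (nat_lit 0) (nat_lit 0x802aa3348) (nat_lit 1074541602),
  Rx.mk (nat_lit 168) (nat_lit 0) (nat_lit 5) (nat_lit 2) (nat_lit 6) (nat_lit 81) (nat_lit 210) r11_81 r5_210 (nat_lit 5449534) (nat_lit 0) (nat_lit 0) (nat_lit 0x800b9fd16) (nat_lit 1078612858),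
  Rx.mk (nat_lit 170) (nat_lit 2) (nat_lit 5) (nat_lit 2) (nat_lit 7) (nat_lit 84) (nat_lit 223) r11_84 r5_223 (nat_lit 0) (nat_lit 0) (nat_lit 0) (nat_lit 0x80029938e) (nat_lit 1073741824),
  Rx.mk (nat_lit 171) (nat_lit 3) (nat_lit 5) (nat_lit 2) (nat_lit 7) (nat_lit 87) (nat_lit 221) r11_87 r5_221 (nat_lit 0) (nat_lit 0) (nat_lit 0) (nat_lit 0x800d38786) (nat_lit 1073060924),
  Rx.mk (nat_lit 184) (nat_lit 0) (nat_lit 7) (nat_lit 2) (nat_lit 6) (nat_lit 82) (nat_lit 211) r11_82 r5_211 (nat_lit 5449534) (nat_lit 0) (nat_lit 0) (nat_lit 0x800c7cac2) (nat_lit 1078557658),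
  Rx.mk (nat_lit 186) (nat_lit 2) (nat_lit 7) (nat_lit 2) (nat_lit 7) (nat_lit 85) (nat_lit 224) r11_85 r5_224 (nat_lit 0) (nat_lit 0) (nat_lit 0) (nat_lit 0x80029938e) (nat_lit 1073741824),
  Rx.mk (nat_lit 227) (nat_lit 3) (nat_lit 4) (nat_lit 3) (nat_lit 5) (nat_lit 88) (nat_lit 217) r11_88 r5_217 (nat_lit 0) (nat_lit 5824518) (nat_lit 0) (nat_lit 0x7f6cb0a3e) (nat_lit 1089264642),
  Rx.mk (nat_lit 235) (nat_lit 3) (nat_lit 5) (nat_lit 3) (nat_lit 7) (nat_lit 89) (nat_lit 218) r11_89 r5_218 (nat_lit 0) (nat_lit 0) (nat_lit 0) (nat_lit 0x80029938e) (nat_lit 1073741824),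
  Rx.mk (nat_lit 243) (nat_lit 3) (nat_lit 6) (nat_lit 3) (nat_lit 7) (nat_lit 90) (nat_lit 219) r11_90 r5_219 (nat_lit 0) (nat_lit 0) (nat_lit 0) (nat_lit 0x80029938e) (nat_lit 1073741824)]
noncomputable def e34_53 : List Rx := [
  Rx.mk (nat_lit 32) (nat_lit 0) (nat_lit 4) (nat_lit 0) (nat_lit 0) (nat_lit 191) (nat_lit 381) r11_191 r4_381 (nat_lit 3311660) (nat_lit 8641172) (nat_lit 3764156) (nat_lit 0x5c93f0a86) (nat_lit 1680132412),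
  Rx.mk (nat_lit 33) (nat_lit 1) (nat_lit 4) (nat_lit 0) (nat_lit 1) (nat_lit 194) (nat_lit 382) r11_194 r4_382 (nat_lit 0) (nat_lit 6858387) (nat_lit 4816256) (nat_lit 0x7fdca3fee) (nat_lit 1087856567),
  Rx.mk (nat_lit 35) (nat_lit 3) (nat_lit 4) (nat_lit 0) (nat_lit 1) (nat_lit 196) (nat_lit 383) r11_196 r4_383 (nat_lit 0) (nat_lit 6991617) (nat_lit 8534027) (nat_lit 0x7ccb3567a) (nat_lit 1142817968),
  Rx.mk (nat_lit 40) (nat_lit 0) (nat_lit 5) (nat_lit 0) (nat_lit 2) (nat_lit 192) (nat_lit 390) r11_192 r4_390 (nat_lit 4090407) (nat_lit 0) (nat_lit 144474354) (nat_lit 0x7f435b8aa) (nat_lit 1234692185),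
  Rx.mk (nat_lit 43) (nat_lit 3) (nat_lit 5) (nat_lit 0) (nat_lit 3) (nat_lit 197) (nat_lit 391) r11_197 r4_391 (nat_lit 0) (nat_lit 0) (nat_lit 5723800) (nat_lit 0x800173b08) (nat_lit 1079538724),
  Rx.mk (nat_lit 48) (nat_lit 0) (nat_lit 6) (nat_lit 0) (nat_lit 2) (nat_lit 193) (nat_lit 396) r11_193 r4_396 (nat_lit 9076025) (nat_lit 0) (nat_lit 9076025) (nat_lit 0x7f223ad38) (nat_lit 1106437074),
  Rx.mk (nat_lit 49) (nat_lit 1) (nat_lit 6) (nat_lit 0) (nat_lit 3) (nat_lit 195) (nat_lit 397) r11_195 r4_397 (nat_lit 0) (nat_lit 0) (nat_lit 5449534) (nat_lit 0x80029938e) (nat_lit 1079191358),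
  Rx.mk (nat_lit 51) (nat_lit 3) (nat_lit 6) (nat_lit 0) (nat_lit 3) (nat_lit 198) (nat_lit 398) r11_198 r4_398 (nat_lit 0) (nat_lit 0) (nat_lit 5689996) (nat_lit 0x7ff72fb88) (nat_lit 1080165020),
  Rx.mk (nat_lit 96) (nat_lit 0) (nat_lit 4) (nat_lit 1) (nat_lit 4) (nat_lit 199) (nat_lit 384) r11_199 r4_384 (nat_lit 5599296) (nat_lit 15577727) (nat_lit 0) (nat_lit 0x7785e1fb0) (nat_lit 1236347147),
  Rx.mk (nat_lit 97) (nat_lit 1) (nat_lit 4) (nat_lit 1) (nat_lit 5) (nat_lit 202) (nat_lit 385) r11_202 r4_385 (nat_lit 0) (nat_lit 7939064) (nat_lit 0) (nat_lit 0x7f609f326) (nat_lit 1092168788),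
  Rx.mk (nat_lit 99) (nat_lit 3) (nat_lit 4) (nat_lit 1) (nat_lit 5) (nat_lit 204) (nat_lit 386) r11_204 r4_386 (nat_lit 0) (nat_lit 5449534) (nat_lit 0) (nat_lit 0x80029938e) (nat_lit 1079191358),
  Rx.mk (nat_lit 104) (nat_lit 0) (nat_lit 5) (nat_lit 1) (nat_lit 6) (nat_lit 200) (nat_lit 392) r11_200 r4_392 (nat_lit 5449534) (nat_lit 0) (nat_lit 0) (nat_lit 0x80029938e) (nat_lit 1079191358),
  Rx.mk (nat_lit 107) (nat_lit 3) (nat_lit 5) (nat_lit 1) (nat_lit 7) (nat_lit 205) (nat_lit 393) r11_205 r4_393 (nat_lit 0) (nat_lit 0) (nat_lit 0) (nat_lit 0x80029938e) (nat_lit 1073741824),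
  Rx.mk (nat_lit 112) (nat_lit 0) (nat_lit 6) (nat_lit 1) (nat_lit 6) (nat_lit 201) (nat_lit 399) r11_201 r4_399 (nat_lit 5449534) (nat_lit 0) (nat_lit 0) (nat_lit 0x80029938e) (nat_lit 1079191358),
  Rx.mk (nat_lit 113) (nat_lit 1) (nat_lit 6) (nat_lit 1) (nat_lit 7) (nat_lit 203) (nat_lit 400) r11_203 r4_400 (nat_lit 0) (nat_lit 0) (nat_lit 0) (nat_lit 0x80029938e) (nat_lit 1073741824),
  Rx.mk (nat_lit 115) (nat_lit 3) (nat_lit 6) (nat_lit 1) (nat_lit 7) (nat_lit 206) (nat_lit 401) r11_206 r4_401 (nat_lit 0) (nat_lit 0) (nat_lit 0) (nat_lit 0x80029938e) (nat_lit 1073741824),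
  Rx.mk (nat_lit 160) (nat_lit 0) (nat_lit 4) (nat_lit 2) (nat_lit 4) (nat_lit 207) (nat_lit 387) r11_207 r4_387 (nat_lit 5959014) (nat_lit 9921122) (nat_lit 0) (nat_lit 0x7875189c6) (nat_lit 1215474960),
  Rx.mk (nat_lit 161) (nat_lit 1) (nat_lit 4) (nat_lit 2) (nat_lit 5) (nat_lit 209) (nat_lit 388) r11_209 r4_388 (nat_lit 0) (nat_lit 5449534) (nat_lit 0) (nat_lit 0x80029938e) (nat_lit 1079191358),
  Rx.mk (nat_lit 162) (nat_lit 2) (nat_lit 4) (nat_lit 2) (nat_lit 5) (nat_lit 210) (nat_lit 389) r11_210 r4_389 (nat_lit 0) (nat_lit 5449534) (nat_lit 0) (nat_lit 0x80029938e) (nat_lit 1079191358),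
  Rx.mk (nat_lit 168) (nat_lit 0) (nat_lit 5) (nat_lit 2) (nat_lit 6) (nat_lit 208) (nat_lit 394) r11_208 r4_394 (nat_lit 5449534) (nat_lit 0) (nat_lit 0) (nat_lit 0x7ffe77e04) (nat_lit 1079456258),
  Rx.mk (nat_lit 170) (nat_lit 2) (nat_lit 5) (nat_lit 2) (nat_lit 7) (nat_lit 211) (nat_lit 395) r11_211 r4_395 (nat_lit 0) (nat_lit 0) (nat_lit 0) (nat_lit 0x80029938e) (nat_lit 1073741824)]
noncomputable def e34_54 : List Rx := [
  Rx.mk (nat_lit 40) (nat_lit 0) (nat_lit 5) (nat_lit 0) (nat_lit 2) (nat_lit 230) (nat_lit 206) r11_230 r10_206 (nat_lit 11437609) (nat_lit 0) (nat_lit 47198871) (nat_lit 0x7dbac8fc0) (nat_lit 1170319804),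
  Rx.mk (nat_lit 43) (nat_lit 3) (nat_lit 5) (nat_lit 0) (nat_lit 3) (nat_lit 231) (nat_lit 209) r11_231 r10_209 (nat_lit 0) (nat_lit 0) (nat_lit 5449534) (nat_lit 0x800b95050) (nat_lit 1078615158),
  Rx.mk (nat_lit 104) (nat_lit 0) (nat_lit 5) (nat_lit 1) (nat_lit 6) (nat_lit 232) (nat_lit 207) r11_232 r10_207 (nat_lit 5449534) (nat_lit 0) (nat_lit 0) (nat_lit 0x80029938e) (nat_lit 1079191358),
  Rx.mk (nat_lit 107) (nat_lit 3) (nat_lit 5) (nat_lit 1) (nat_lit 7) (nat_lit 233) (nat_lit 210) r11_233 r10_210 (nat_lit 0) (nat_lit 0) (nat_lit 0) (nat_lit 0x80029938e) (nat_lit 1073741824),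
  Rx.mk (nat_lit 168) (nat_lit 0) (nat_lit 5) (nat_lit 2) (nat_lit 6) (nat_lit 234) (nat_lit 208) r11_234 r10_208 (nat_lit 5449534) (nat_lit 0) (nat_lit 0) (nat_lit 0x80029938e) (nat_lit 1079191358),
  Rx.mk (nat_lit 170) (nat_lit 2) (nat_lit 5) (nat_lit 2) (nat_lit 7) (nat_lit 235) (nat_lit 211) r11_235 r10_211 (nat_lit 0) (nat_lit 0) (nat_lit 0) (nat_lit 0x80029938e) (nat_lit 1073741824)]
noncomputable def e34_55 : List Rx := [
  Rx.mk (nat_lit 32) (nat_lit 0) (nat_lit 4) (nat_lit 0) (nat_lit 0) (nat_lit 236) (nat_lit 236) r11_236 r11_236 (nat_lit 25063667) (nat_lit 12626867) (nat_lit 25063667) (nat_lit 0x57848be6a) (nat_lit 1811543825),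
  Rx.mk (nat_lit 33) (nat_lit 1) (nat_lit 4) (nat_lit 0) (nat_lit 1) (nat_lit 240) (nat_lit 246) r11_240 r11_246 (nat_lit 0) (nat_lit 12457896) (nat_lit 44498618) (nat_lit 0x761f4fd5c) (nat_lit 1295480838),
  Rx.mk (nat_lit 35) (nat_lit 3) (nat_lit 4) (nat_lit 0) (nat_lit 1) (nat_lit 243) (nat_lit 254) r11_243 r11_254 (nat_lit 0) (nat_lit 11615170) (nat_lit 9364748) (nat_lit 0x74b3e5c66) (nat_lit 1283170342),
  Rx.mk (nat_lit 40) (nat_lit 0) (nat_lit 5) (nat_lit 0) (nat_lit 2) (nat_lit 237) (nat_lit 237) r11_237 r11_237 (nat_lit 20770673) (nat_lit 0) (nat_lit 20770673) (nat_lit 0x7f8baa200) (nat_lit 1122969770),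
  Rx.mk (nat_lit 43) (nat_lit 3) (nat_lit 5) (nat_lit 0) (nat_lit 3) (nat_lit 244) (nat_lit 255) r11_244 r11_255 (nat_lit 0) (nat_lit 0) (nat_lit 5449534) (nat_lit 0x80029938e) (nat_lit 1079191358),
  Rx.mk (nat_lit 48) (nat_lit 0) (nat_lit 6) (nat_lit 0) (nat_lit 2) (nat_lit 238) (nat_lit 239) r11_238 r11_239 (nat_lit 10912764) (nat_lit 0) (nat_lit 12094471) (nat_lit 0x7d59a31dc) (nat_lit 1141019859),
  Rx.mk (nat_lit 49) (nat_lit 1) (nat_lit 6) (nat_lit 0) (nat_lit 3) (nat_lit 241) (nat_lit 248) r11_241 r11_248 (nat_lit 0) (nat_lit 0) (nat_lit 5449534) (nat_lit 0x80029938e) (nat_lit 1079191358),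
  Rx.mk (nat_lit 51) (nat_lit 3) (nat_lit 6) (nat_lit 0) (nat_lit 3) (nat_lit 245) (nat_lit 256) r11_245 r11_256 (nat_lit 0) (nat_lit 0) (nat_lit 5449534) (nat_lit 0x80029938e) (nat_lit 1079191358),
  Rx.mk (nat_lit 56) (nat_lit 0) (nat_lit 7) (nat_lit 0) (nat_lit 2) (nat_lit 239) (nat_lit 238) r11_239 r11_238 (nat_lit 12094471) (nat_lit 0) (nat_lit 10912764) (nat_lit 0x7d59a31dc) (nat_lit 1141019859),
  Rx.mk (nat_lit 57) (nat_lit 1) (nat_lit 7) (nat_lit 0) (nat_lit 3) (nat_lit 242) (nat_lit 247) r11_242 r11_247 (nat_lit 0) (nat_lit 0) (nat_lit 5449534) (nat_lit 0x80029938e) (nat_lit 1079191358),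
  Rx.mk (nat_lit 96) (nat_lit 0) (nat_lit 4) (nat_lit 1) (nat_lit 4) (nat_lit 246) (nat_lit 240) r11_246 r11_240 (nat_lit 44498618) (nat_lit 12457896) (nat_lit 0) (nat_lit 0x761f4fd5c) (nat_lit 1295480838),
  Rx.mk (nat_lit 97) (nat_lit 1) (nat_lit 4) (nat_lit 1) (nat_lit 5) (nat_lit 249) (nat_lit 249) r11_249 r11_249 (nat_lit 0) (nat_lit 5592156) (nat_lit 0) (nat_lit 0x7ff6e4336) (nat_lit 1080085980),
  Rx.mk (nat_lit 99) (nat_lit 3) (nat_lit 4) (nat_lit 1) (nat_lit 5) (nat_lit 252) (nat_lit 257) r11_252 r11_257 (nat_lit 0) (nat_lit 5449534) (nat_lit 0) (nat_lit 0x80029938e) (nat_lit 1079191358),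
  Rx.mk (nat_lit 112) (nat_lit 0) (nat_lit 6) (nat_lit 1) (nat_lit 6) (nat_lit 247) (nat_lit 242) r11_247 r11_242 (nat_lit 5449534) (nat_lit 0) (nat_lit 0) (nat_lit 0x80029938e) (nat_lit 1079191358),
  Rx.mk (nat_lit 113) (nat_lit 1) (nat_lit 6) (nat_lit 1) (nat_lit 7) (nat_lit 250) (nat_lit 251) r11_250 r11_251 (nat_lit 0) (nat_lit 0) (nat_lit 0) (nat_lit 0x80029938e) (nat_lit 1073741824),
  Rx.mk (nat_lit 115) (nat_lit 3) (nat_lit 6) (nat_lit 1) (nat_lit 7) (nat_lit 253) (nat_lit 258) r11_253 r11_258 (nat_lit 0) (nat_lit 0) (nat_lit 0) (nat_lit 0x80029938e) (nat_lit 1073741824),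
  Rx.mk (nat_lit 120) (nat_lit 0) (nat_lit 7) (nat_lit 1) (nat_lit 6) (nat_lit 248) (nat_lit 241) r11_248 r11_241 (nat_lit 5449534) (nat_lit 0) (nat_lit 0) (nat_lit 0x80029938e) (nat_lit 1079191358),
  Rx.mk (nat_lit 121) (nat_lit 1) (nat_lit 7) (nat_lit 1) (nat_lit 7) (nat_lit 251) (nat_lit 250) r11_251 r11_250 (nat_lit 0) (nat_lit 0) (nat_lit 0) (nat_lit 0x80029938e) (nat_lit 1073741824),
  Rx.mk (nat_lit 160) (nat_lit 0) (nat_lit 4) (nat_lit 2) (nat_lit 4) (nat_lit 254) (nat_lit 243) r11_254 r11_243 (nat_lit 9364748) (nat_lit 11615170) (nat_lit 0) (nat_lit 0x74b3e5c66) (nat_lit 1283170342),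
  Rx.mk (nat_lit 161) (nat_lit 1) (nat_lit 4) (nat_lit 2) (nat_lit 5) (nat_lit 257) (nat_lit 252) r11_257 r11_252 (nat_lit 0) (nat_lit 5449534) (nat_lit 0) (nat_lit 0x80029938e) (nat_lit 1079191358),
  Rx.mk (nat_lit 162) (nat_lit 2) (nat_lit 4) (nat_lit 2) (nat_lit 5) (nat_lit 259) (nat_lit 262) r11_259 r11_262 (nat_lit 0) (nat_lit 5449534) (nat_lit 0) (nat_lit 0x80029938e) (nat_lit 1079191358),
  Rx.mk (nat_lit 168) (nat_lit 0) (nat_lit 5) (nat_lit 2) (nat_lit 6) (nat_lit 255) (nat_lit 244) r11_255 r11_244 (nat_lit 5449534) (nat_lit 0) (nat_lit 0) (nat_lit 0x80029938e) (nat_lit 1079191358),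
  Rx.mk (nat_lit 170) (nat_lit 2) (nat_lit 5) (nat_lit 2) (nat_lit 7) (nat_lit 260) (nat_lit 263) r11_260 r11_263 (nat_lit 0) (nat_lit 0) (nat_lit 0) (nat_lit 0x80029938e) (nat_lit 1073741824),
  Rx.mk (nat_lit 184) (nat_lit 0) (nat_lit 7) (nat_lit 2) (nat_lit 6) (nat_lit 256) (nat_lit 245) r11_256 r11_245 (nat_lit 5449534) (nat_lit 0) (nat_lit 0) (nat_lit 0x80029938e) (nat_lit 1079191358),
  Rx.mk (nat_lit 185) (nat_lit 1) (nat_lit 7) (nat_lit 2) (nat_lit 7) (nat_lit 258) (nat_lit 253) r11_258 r11_253 (nat_lit 0) (nat_lit 0) (nat_lit 0) (nat_lit 0x80029938e) (nat_lit 1073741824),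
  Rx.mk (nat_lit 186) (nat_lit 2) (nat_lit 7) (nat_lit 2) (nat_lit 7) (nat_lit 261) (nat_lit 264) r11_261 r11_264 (nat_lit 0) (nat_lit 0) (nat_lit 0) (nat_lit 0x80029938e) (nat_lit 1073741824),
  Rx.mk (nat_lit 227) (nat_lit 3) (nat_lit 4) (nat_lit 3) (nat_lit 5) (nat_lit 262) (nat_lit 259) r11_262 r11_259 (nat_lit 0) (nat_lit 5449534) (nat_lit 0) (nat_lit 0x80029938e) (nat_lit 1079191358),
  Rx.mk (nat_lit 235) (nat_lit 3) (nat_lit 5) (nat_lit 3) (nat_lit 7) (nat_lit 263) (nat_lit 260) r11_263 r11_260 (nat_lit 0) (nat_lit 0) (nat_lit 0) (nat_lit 0x80029938e) (nat_lit 1073741824),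
  Rx.mk (nat_lit 243) (nat_lit 3) (nat_lit 6) (nat_lit 3) (nat_lit 7) (nat_lit 264) (nat_lit 261) r11_264 r11_261 (nat_lit 0) (nat_lit 0) (nat_lit 0) (nat_lit 0x80029938e) (nat_lit 1073741824)]
noncomputable def e34_56 : List Rx := [
  Rx.mk (nat_lit 35) (nat_lit 3) (nat_lit 4) (nat_lit 0) (nat_lit 1) (nat_lit 273) (nat_lit 316) r11_273 r5_316 (nat_lit 0) (nat_lit 4395115) (nat_lit 4471406) (nat_lit 0x7107ec890) (nat_lit 1332271445),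
  Rx.mk (nat_lit 43) (nat_lit 3) (nat_lit 5) (nat_lit 0) (nat_lit 3) (nat_lit 274) (nat_lit 319) r11_274 r5_319 (nat_lit 0) (nat_lit 0) (nat_lit 4540409) (nat_lit 0x7ffd351cc) (nat_lit 1078626533),
  Rx.mk (nat_lit 51) (nat_lit 3) (nat_lit 6) (nat_lit 0) (nat_lit 3) (nat_lit 275) (nat_lit 322) r11_275 r5_322 (nat_lit 0) (nat_lit 0) (nat_lit 4883967) (nat_lit 0x7fed9eae2) (nat_lit 1079973691),
  Rx.mk (nat_lit 99) (nat_lit 3) (nat_lit 4) (nat_lit 1) (nat_lit 5) (nat_lit 276) (nat_lit 317) r11_276 r5_317 (nat_lit 0) (nat_lit 3845654) (nat_lit 0) (nat_lit 0x8031f6d2a) (nat_lit 1074563378),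
  Rx.mk (nat_lit 107) (nat_lit 3) (nat_lit 5) (nat_lit 1) (nat_lit 7) (nat_lit 277) (nat_lit 320) r11_277 r5_320 (nat_lit 0) (nat_lit 0) (nat_lit 0) (nat_lit 0x80029938e) (nat_lit 1073741824),
  Rx.mk (nat_lit 115) (nat_lit 3) (nat_lit 6) (nat_lit 1) (nat_lit 7) (nat_lit 278) (nat_lit 323) r11_278 r5_323 (nat_lit 0) (nat_lit 0) (nat_lit 0) (nat_lit 0x80029938e) (nat_lit 1073741824),
  Rx.mk (nat_lit 163) (nat_lit 3) (nat_lit 4) (nat_lit 2) (nat_lit 5) (nat_lit 279) (nat_lit 318) r11_279 r5_318 (nat_lit 0) (nat_lit 3932094) (nat_lit 0) (nat_lit 0x801ccaf14) (nat_lit 1075997118),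
  Rx.mk (nat_lit 171) (nat_lit 3) (nat_lit 5) (nat_lit 2) (nat_lit 7) (nat_lit 280) (nat_lit 321) r11_280 r5_321 (nat_lit 0) (nat_lit 0) (nat_lit 0) (nat_lit 0x80029938e) (nat_lit 1073741824)]
noncomputable def e34_57 : List Rx := [
  Rx.mk (nat_lit 43) (nat_lit 3) (nat_lit 5) (nat_lit 0) (nat_lit 3) (nat_lit 281) (nat_lit 368) r11_281 r11_368 (nat_lit 0) (nat_lit 0) (nat_lit 5649802) (nat_lit 0x7ff512e2c) (nat_lit 1080260426),
  Rx.mk (nat_lit 107) (nat_lit 3) (nat_lit 5) (nat_lit 1) (nat_lit 7) (nat_lit 282) (nat_lit 369) r11_282 r11_369 (nat_lit 0) (nat_lit 0) (nat_lit 0) (nat_lit 0x80029938e) (nat_lit 1073741824),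
  Rx.mk (nat_lit 171) (nat_lit 3) (nat_lit 5) (nat_lit 2) (nat_lit 7) (nat_lit 283) (nat_lit 370) r11_283 r11_370 (nat_lit 0) (nat_lit 0) (nat_lit 0) (nat_lit 0x80029938e) (nat_lit 1073741824)]
noncomputable def e34 : List (List Rx) := [e34_0, e34_1, e34_2, e34_3, e34_4, e34_5, e34_6, e34_7, e34_8, e34_9, e34_10, e34_11, e34_12, e34_13, e34_14, e34_15, e34_16, e34_17, e34_18, e34_19, e34_20, e34_21, e34_22, e34_23, e34_24, e34_25, e34_26, e34_27, e34_28, e34_29, e34_30, e34_31, e34_32, e34_33, e34_34, e34_35, e34_36, e34_37, e34_38, e34_39, e34_40, e34_41, e34_42, e34_43, e34_44, e34_45, e34_46, e34_47, e34_48, e34_49, e34_50, e34_51, e34_52, e34_53, e34_54, e34_55, e34_56, e34_57]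

end Pool.Agent.AKXS_34_39_VA
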