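import Pool.Agent.AKXS_34_39_VA.R0
import Pool.Agent.AKXS_34_39_VA.R1
import Pool.Agent.AKXS_34_39_VA.R2
import Pool.Agent.AKXS_34_39_VA.R3
import Pool.Agent.AKXS_34_39_VA.R4
import Pool.Agent.AKXS_34_39_VA.R5
import Pool.Agent.AKXS_34_39_VA.R6
import Pool.Agent.AKXS_34_39_VA.R7
import Pool.Agent.AKXS_34_39_VA.R8
import Pool.Agent.AKXS_34_39_VA.R9
import Pool.Agent.AKXS_34_39_VA.R10
import Pool.Agent.AKXS_34_39_VA.R11
import Pool.Agent.AKXS_34_39_VA.R12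

set_option autoImplicit false

namespace Pool.Agent.AKXS_34_39_VA

open Pool.Agent.AKX Pool.Agent.AKU

noncomputable def e35_0 : List Rx := [
  Rx.mk (nat_lit 6) (nat_lit 6) (nat_lit 0) (nat_lit 0) (nat_lit 1) (nat_lit 171) (nat_lit 232) r6_171 r0_232 (nat_lit 0) (nat_lit 73687) (nat_lit 56818) (nat_lit 0x686f2bb72) (nat_lit 1466800329),
  Rx.mk (nat_lit 20) (nat_lit 4) (nat_lit 2) (nat_lit 0) (nat_lit 2) (nat_lit 173) (nat_lit 228) r6_173 r0_228 (nat_lit 21155) (nat_lit 0) (nat_lit 21443) (nat_lit 0x655f25c44) (nat_lit 1517763922),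
  Rx.mk (nat_lit 22) (nat_lit 6) (nat_lit 2) (nat_lit 0) (nat_lit 3) (nat_lit 174) (nat_lit 234) r6_174 r0_234 (nat_lit 0) (nat_lit 0) (nat_lit 2085900) (nat_lit 0x80175fe9e) (nat_lit 1074492124),
  Rx.mk (nat_lit 70) (nat_lit 6) (nat_lit 0) (nat_lit 1) (nat_lit 5) (nat_lit 172) (nat_lit 233) r6_172 r0_233 (nat_lit 0) (nat_lit 94559) (nat_lit 0) (nat_lit 0x9073beac2) (nat_lit 807812083),
  Rx.mk (nat_lit 84) (nat_lit 4) (nat_lit 2) (nat_lit 1) (nat_lit 6) (nat_lit 175) (nat_lit 229) r6_175 r0_229 (nat_lit 473428) (nat_lit 0) (nat_lit 0) (nat_lit 0x8f3b0df94) (nat_lit 827965152),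
  Rx.mk (nat_lit 86) (nat_lit 6) (nat_lit 2) (nat_lit 1) (nat_lit 7) (nat_lit 176) (nat_lit 235) r6_176 r0_235 (nat_lit 0) (nat_lit 0) (nat_lit 0) (nat_lit 0x90cc616de) (nat_lit 802175124),
  Rx.mk (nat_lit 148) (nat_lit 4) (nat_lit 2) (nat_lit 2) (nat_lit 6) (nat_lit 177) (nat_lit 230) r6_177 r0_230 (nat_lit 2346346) (nat_lit 0) (nat_lit 0) (nat_lit 0x7a9228b7c) (nat_lit 1166687270),
  Rx.mk (nat_lit 180) (nat_lit 4) (nat_lit 6) (nat_lit 2) (nat_lit 6) (nat_lit 170) (nat_lit 231) r6_170 r0_231 (nat_lit 1581921) (nat_lit 0) (nat_lit 0) (nat_lit 0x7e87497a2) (nat_lit 1099940645)]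
noncomputable def e35_1 : List Rx := [
  Rx.mk (nat_lit 70) (nat_lit 6) (nat_lit 0) (nat_lit 1) (nat_lit 5) (nat_lit 178) (nat_lit 247) r6_178 r1_247 (nat_lit 0) (nat_lit 376415) (nat_lit 0) (nat_lit 0x86cc62d18) (nat_lit 964233239),
  Rx.mk (nat_lit 84) (nat_lit 4) (nat_lit 2) (nat_lit 1) (nat_lit 6) (nat_lit 179) (nat_lit 246) r6_179 r1_246 (nat_lit 1035266) (nat_lit 0) (nat_lit 0) (nat_lit 0x8401ef04c) (nat_lit 1010034890),
  Rx.mk (nat_lit 86) (nat_lit 6) (nat_lit 2) (nat_lit 1) (nat_lit 7) (nat_lit 180) (nat_lit 248) r6_180 r1_248 (nat_lit 0) (nat_lit 0) (nat_lit 0) (nat_lit 0x8fcfe0ed2) (nat_lit 818127624)]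
noncomputable def e35_2 : List Rx := [
  Rx.mk (nat_lit 70) (nat_lit 6) (nat_lit 0) (nat_lit 1) (nat_lit 5) (nat_lit 307) (nat_lit 269) r6_307 r2_269 (nat_lit 0) (nat_lit 5695451) (nat_lit 0) (nat_lit 0x7fda6cc12) (nat_lit 1082026575),
  Rx.mk (nat_lit 84) (nat_lit 4) (nat_lit 2) (nat_lit 1) (nat_lit 6) (nat_lit 308) (nat_lit 268) r6_308 r2_268 (nat_lit 16748008) (nat_lit 0) (nat_lit 0) (nat_lit 0x7f8b4521a) (nat_lit 1098207132),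
  Rx.mk (nat_lit 86) (nat_lit 6) (nat_lit 2) (nat_lit 1) (nat_lit 7) (nat_lit 309) (nat_lit 271) r6_309 r2_271 (nat_lit 0) (nat_lit 0) (nat_lit 0) (nat_lit 0x80029938e) (nat_lit 1073741824),
  Rx.mk (nat_lit 326) (nat_lit 6) (nat_lit 0) (nat_lit 5) (nat_lit 5) (nat_lit 306) (nat_lit 270) r6_306 r2_270 (nat_lit 0) (nat_lit 7559055) (nat_lit 0) (nat_lit 0x7fe1044e4) (nat_lit 1083462579)]
noncomputable def e35_3 : List Rx := [
  Rx.mk (nat_lit 20) (nat_lit 4) (nat_lit 2) (nat_lit 0) (nat_lit 2) (nat_lit 44) (nat_lit 227) r6_44 r3_227 (nat_lit 536) (nat_lit 0) (nat_lit 636) (nat_lit 0x7ffffbb7c) (nat_lit 1073744396),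
  Rx.mk (nat_lit 22) (nat_lit 6) (nat_lit 2) (nat_lit 0) (nat_lit 3) (nat_lit 45) (nat_lit 233) r6_45 r3_233 (nat_lit 0) (nat_lit 0) (nat_lit 349767) (nat_lit 0x7dc28a740) (nat_lit 1111486291),
  Rx.mk (nat_lit 148) (nat_lit 4) (nat_lit 2) (nat_lit 2) (nat_lit 6) (nat_lit 46) (nat_lit 229) r6_46 r3_229 (nat_lit 106827) (nat_lit 0) (nat_lit 0) (nat_lit 0x7fdfdb806) (nat_lit 1075972951),
  Rx.mk (nat_lit 180) (nat_lit 4) (nat_lit 6) (nat_lit 2) (nat_lit 6) (nat_lit 41) (nat_lit 230) r6_41 r3_230 (nat_lit 59620) (nat_lit 0) (nat_lit 0) (nat_lit 0x7fefbb2da) (nat_lit 1074882044),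
  Rx.mk (nat_lit 183) (nat_lit 7) (nat_lit 6) (nat_lit 2) (nat_lit 7) (nat_lit 42) (nat_lit 231) r6_42 r3_231 (nat_lit 0) (nat_lit 0) (nat_lit 0) (nat_lit 0x80161fbd8) (nat_lit 1072436524),
  Rx.mk (nat_lit 198) (nat_lit 6) (nat_lit 0) (nat_lit 3) (nat_lit 5) (nat_lit 43) (nat_lit 232) r6_43 r3_232 (nat_lit 0) (nat_lit 68827) (nat_lit 0) (nat_lit 0x7d81ad2b8) (nat_lit 1115392751),
  Rx.mk (nat_lit 212) (nat_lit 4) (nat_lit 2) (nat_lit 3) (nat_lit 6) (nat_lit 47) (nat_lit 228) r6_47 r3_228 (nat_lit 37171) (nat_lit 0) (nat_lit 0) (nat_lit 0x7f1a6eae6) (nat_lit 1088745295),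
  Rx.mk (nat_lit 214) (nat_lit 6) (nat_lit 2) (nat_lit 3) (nat_lit 7) (nat_lit 48) (nat_lit 234) r6_48 r3_234 (nat_lit 0) (nat_lit 0) (nat_lit 0) (nat_lit 0x8bee0d6f2) (nat_lit 880897024)]
noncomputable def e35_4 : List Rx := [
  Rx.mk (nat_lit 6) (nat_lit 6) (nat_lit 0) (nat_lit 0) (nat_lit 1) (nat_lit 183) (nat_lit 235) r6_183 r4_235 (nat_lit 0) (nat_lit 9876) (nat_lit 6592) (nat_lit 0x73504ef82) (nat_lit 1285279692),
  Rx.mk (nat_lit 20) (nat_lit 4) (nat_lit 2) (nat_lit 0) (nat_lit 2) (nat_lit 186) (nat_lit 229) r6_186 r4_229 (nat_lit 47711) (nat_lit 0) (nat_lit 38237) (nat_lit 0x718a177ac) (nat_lit 1314939572),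
  Rx.mk (nat_lit 22) (nat_lit 6) (nat_lit 2) (nat_lit 0) (nat_lit 3) (nat_lit 187) (nat_lit 238) r6_187 r4_238 (nat_lit 0) (nat_lit 0) (nat_lit 1219035) (nat_lit 0x80393948e) (nat_lit 1071457659),
  Rx.mk (nat_lit 70) (nat_lit 6) (nat_lit 0) (nat_lit 1) (nat_lit 5) (nat_lit 184) (nat_lit 236) r6_184 r4_236 (nat_lit 0) (nat_lit 4043670) (nat_lit 0) (nat_lit 0x8019d8c3e) (nat_lit 1076296794),
  Rx.mk (nat_lit 84) (nat_lit 4) (nat_lit 2) (nat_lit 1) (nat_lit 6) (nat_lit 188) (nat_lit 230) r6_188 r4_230 (nat_lit 3192982) (nat_lit 0) (nat_lit 0) (nat_lit 0x803a9355a) (nat_lit 1073361906),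
  Rx.mk (nat_lit 86) (nat_lit 6) (nat_lit 2) (nat_lit 1) (nat_lit 7) (nat_lit 189) (nat_lit 239) r6_189 r4_239 (nat_lit 0) (nat_lit 0) (nat_lit 0) (nat_lit 0x807785210) (nat_lit 1066297424),
  Rx.mk (nat_lit 148) (nat_lit 4) (nat_lit 2) (nat_lit 2) (nat_lit 6) (nat_lit 190) (nat_lit 232) r6_190 r4_232 (nat_lit 2826148) (nat_lit 0) (nat_lit 0) (nat_lit 0x7ffa8010c) (nat_lit 1077083472),
  Rx.mk (nat_lit 180) (nat_lit 4) (nat_lit 6) (nat_lit 2) (nat_lit 6) (nat_lit 181) (nat_lit 233) r6_181 r4_233 (nat_lit 2519210) (nat_lit 0) (nat_lit 0) (nat_lit 0x7ebf86994) (nat_lit 1097219834),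
  Rx.mk (nat_lit 183) (nat_lit 7) (nat_lit 6) (nat_lit 2) (nat_lit 7) (nat_lit 182) (nat_lit 234) r6_182 r4_234 (nat_lit 0) (nat_lit 0) (nat_lit 0) (nat_lit 0x81261a06e) (nat_lit 1055268324),
  Rx.mk (nat_lit 198) (nat_lit 6) (nat_lit 0) (nat_lit 3) (nat_lit 5) (nat_lit 185) (nat_lit 237) r6_185 r4_237 (nat_lit 0) (nat_lit 1760727) (nat_lit 0) (nat_lit 0x802b4e4aa) (nat_lit 1072885551),
  Rx.mk (nat_lit 212) (nat_lit 4) (nat_lit 2) (nat_lit 3) (nat_lit 6) (nat_lit 191) (nat_lit 231) r6_191 r4_231 (nat_lit 2840910) (nat_lit 0) (nat_lit 0) (nat_lit 0x804903392) (nat_lit 1072090734),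
  Rx.mk (nat_lit 214) (nat_lit 6) (nat_lit 2) (nat_lit 3) (nat_lit 7) (nat_lit 192) (nat_lit 240) r6_192 r4_240 (nat_lit 0) (nat_lit 0) (nat_lit 0) (nat_lit 0x809a0fc90) (nat_lit 1064111224)]
noncomputable def e35_5 : List Rx := [
  Rx.mk (nat_lit 198) (nat_lit 6) (nat_lit 0) (nat_lit 3) (nat_lit 5) (nat_lit 251) (nat_lit 243) r6_251 r5_243 (nat_lit 0) (nat_lit 10459) (nat_lit 0) (nat_lit 0x89d896974) (nat_lit 914535883),
  Rx.mk (nat_lit 212) (nat_lit 4) (nat_lit 2) (nat_lit 3) (nat_lit 6) (nat_lit 252) (nat_lit 242) r6_252 r5_242 (nat_lit 128360) (nat_lit 0) (nat_lit 0) (nat_lit 0x84cda1136) (nat_lit 996225984),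
  Rx.mk (nat_lit 214) (nat_lit 6) (nat_lit 2) (nat_lit 3) (nat_lit 7) (nat_lit 253) (nat_lit 244) r6_253 r5_244 (nat_lit 0) (nat_lit 0) (nat_lit 0) (nat_lit 0x84e45cfce) (nat_lit 994704024)]
noncomputable def e35_6 : List Rx := [
  Rx.mk (nat_lit 258) (nat_lit 2) (nat_lit 0) (nat_lit 4) (nat_lit 1) (nat_lit 323) (nat_lit 219) r6_323 r3_219 (nat_lit 0) (nat_lit 1326) (nat_lit 1139) (nat_lit 0x7fffcc656) (nat_lit 1073757989),
  Rx.mk (nat_lit 262) (nat_lit 6) (nat_lit 0) (nat_lit 4) (nat_lit 1) (nat_lit 322) (nat_lit 217) r6_322 r3_217 (nat_lit 0) (nat_lit 1139) (nat_lit 1326) (nat_lit 0x7fffcc656) (nat_lit 1073757989),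
  Rx.mk (nat_lit 282) (nat_lit 2) (nat_lit 3) (nat_lit 4) (nat_lit 3) (nat_lit 325) (nat_lit 220) r6_325 r3_220 (nat_lit 0) (nat_lit 0) (nat_lit 10551) (nat_lit 0x80057a5bc) (nat_lit 1073411275),
  Rx.mk (nat_lit 454) (nat_lit 6) (nat_lit 0) (nat_lit 7) (nat_lit 5) (nat_lit 324) (nat_lit 218) r6_324 r3_218 (nat_lit 0) (nat_lit 10551) (nat_lit 0) (nat_lit 0x80057a5bc) (nat_lit 1073411275)]
noncomputable def e35_7 : List Rx := [
  Rx.mk (nat_lit 322) (nat_lit 2) (nat_lit 0) (nat_lit 5) (nat_lit 5) (nat_lit 277) (nat_lit 223) r6_277 r0_223 (nat_lit 0) (nat_lit 8409716) (nat_lit 0) (nat_lit 0x803d3fe16) (nat_lit 1078386140),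
  Rx.mk (nat_lit 326) (nat_lit 6) (nat_lit 0) (nat_lit 5) (nat_lit 5) (nat_lit 276) (nat_lit 222) r6_276 r0_222 (nat_lit 0) (nat_lit 4479) (nat_lit 0) (nat_lit 0x93ccfa606) (nat_lit 753553703)]
noncomputable def e35_8 : List Rx := [
  Rx.mk (nat_lit 322) (nat_lit 2) (nat_lit 0) (nat_lit 5) (nat_lit 5) (nat_lit 305) (nat_lit 241) r6_305 r1_241 (nat_lit 0) (nat_lit 9165703) (nat_lit 0) (nat_lit 0x82a20d594) (nat_lit 1040408027),
  Rx.mk (nat_lit 326) (nat_lit 6) (nat_lit 0) (nat_lit 5) (nat_lit 5) (nat_lit 304) (nat_lit 240) r6_304 r1_240 (nat_lit 0) (nat_lit 32238) (nat_lit 0) (nat_lit 0x803e4e578) (nat_lit 1069845062)]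
noncomputable def e35_9 : List Rx := [
  Rx.mk (nat_lit 258) (nat_lit 2) (nat_lit 0) (nat_lit 4) (nat_lit 1) (nat_lit 327) (nat_lit 220) r6_327 r4_220 (nat_lit 0) (nat_lit 1651260) (nat_lit 570165) (nat_lit 0x6c90a7590) (nat_lit 1400056949),
  Rx.mk (nat_lit 262) (nat_lit 6) (nat_lit 0) (nat_lit 4) (nat_lit 1) (nat_lit 326) (nat_lit 217) r6_326 r4_217 (nat_lit 0) (nat_lit 58427) (nat_lit 38193) (nat_lit 0x743c60600) (nat_lit 1269994544),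
  Rx.mk (nat_lit 282) (nat_lit 2) (nat_lit 3) (nat_lit 4) (nat_lit 3) (nat_lit 331) (nat_lit 222) r6_331 r4_222 (nat_lit 0) (nat_lit 0) (nat_lit 34434) (nat_lit 0x47d93a886) (nat_lit 2010000758),
  Rx.mk (nat_lit 322) (nat_lit 2) (nat_lit 0) (nat_lit 5) (nat_lit 5) (nat_lit 329) (nat_lit 221) r6_329 r4_221 (nat_lit 0) (nat_lit 2410025) (nat_lit 0) (nat_lit 0x7ff815124) (nat_lit 1076821349),
  Rx.mk (nat_lit 326) (nat_lit 6) (nat_lit 0) (nat_lit 5) (nat_lit 5) (nat_lit 328) (nat_lit 218) r6_328 r4_218 (nat_lit 0) (nat_lit 2224828) (nat_lit 0) (nat_lit 0x8082c4f54) (nat_lit 1067817452),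
  Rx.mk (nat_lit 346) (nat_lit 2) (nat_lit 3) (nat_lit 5) (nat_lit 7) (nat_lit 332) (nat_lit 223) r6_332 r4_223 (nat_lit 0) (nat_lit 0) (nat_lit 0) (nat_lit 0x800d35cd4) (nat_lit 1073018224),
  Rx.mk (nat_lit 454) (nat_lit 6) (nat_lit 0) (nat_lit 7) (nat_lit 5) (nat_lit 330) (nat_lit 219) r6_330 r4_219 (nat_lit 0) (nat_lit 3048876) (nat_lit 0) (nat_lit 0x8040187e6) (nat_lit 1072866300)]
noncomputable def e35_10 : List Rx := [
  Rx.mk (nat_lit 198) (nat_lit 6) (nat_lit 0) (nat_lit 3) (nat_lit 5) (nat_lit 246) (nat_lit 261) r6_246 r6_261 (nat_lit 0) (nat_lit 746296) (nat_lit 0) (nat_lit 0x7fb13a506) (nat_lit 1079702620),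
  Rx.mk (nat_lit 212) (nat_lit 4) (nat_lit 2) (nat_lit 3) (nat_lit 6) (nat_lit 247) (nat_lit 260) r6_247 r6_260 (nat_lit 85480) (nat_lit 0) (nat_lit 0) (nat_lit 0x80034bb88) (nat_lit 1073659004),
  Rx.mk (nat_lit 214) (nat_lit 6) (nat_lit 2) (nat_lit 3) (nat_lit 7) (nat_lit 248) (nat_lit 263) r6_248 r6_263 (nat_lit 0) (nat_lit 0) (nat_lit 0) (nat_lit 0x8b96934e4) (nat_lit 886418024),
  Rx.mk (nat_lit 282) (nat_lit 2) (nat_lit 3) (nat_lit 4) (nat_lit 3) (nat_lit 249) (nat_lit 258) r6_249 r6_258 (nat_lit 0) (nat_lit 0) (nat_lit 85480) (nat_lit 0x80034bb88) (nat_lit 1073659004),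
  Rx.mk (nat_lit 450) (nat_lit 2) (nat_lit 0) (nat_lit 7) (nat_lit 5) (nat_lit 245) (nat_lit 257) r6_245 r6_257 (nat_lit 0) (nat_lit 746296) (nat_lit 0) (nat_lit 0x7fb13a506) (nat_lit 1079702620),
  Rx.mk (nat_lit 454) (nat_lit 6) (nat_lit 0) (nat_lit 7) (nat_lit 5) (nat_lit 244) (nat_lit 262) r6_244 r6_262 (nat_lit 0) (nat_lit 207111) (nat_lit 0) (nat_lit 0x7fdbf9314) (nat_lit 1076351135),
  Rx.mk (nat_lit 474) (nat_lit 2) (nat_lit 3) (nat_lit 7) (nat_lit 7) (nat_lit 250) (nat_lit 259) r6_250 r6_259 (nat_lit 0) (nat_lit 0) (nat_lit 0) (nat_lit 0x8b96934e4) (nat_lit 886418024)]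
noncomputable def e35_11 : List Rx := [
  Rx.mk (nat_lit 258) (nat_lit 2) (nat_lit 0) (nat_lit 4) (nat_lit 1) (nat_lit 333) (nat_lit 232) r6_333 r5_232 (nat_lit 0) (nat_lit 398639) (nat_lit 369792) (nat_lit 0x7a2eaa5be) (nat_lit 1171560755),
  Rx.mk (nat_lit 282) (nat_lit 2) (nat_lit 3) (nat_lit 4) (nat_lit 3) (nat_lit 336) (nat_lit 234) r6_336 r5_234 (nat_lit 0) (nat_lit 0) (nat_lit 503576) (nat_lit 0x81fec8a00) (nat_lit 1042043700),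
  Rx.mk (nat_lit 450) (nat_lit 2) (nat_lit 0) (nat_lit 7) (nat_lit 5) (nat_lit 335) (nat_lit 233) r6_335 r5_233 (nat_lit 0) (nat_lit 1584864) (nat_lit 0) (nat_lit 0x83f760f68) (nat_lit 1011269188),
  Rx.mk (nat_lit 454) (nat_lit 6) (nat_lit 0) (nat_lit 7) (nat_lit 5) (nat_lit 334) (nat_lit 231) r6_334 r5_231 (nat_lit 0) (nat_lit 13815) (nat_lit 0) (nat_lit 0x85fe01f32) (nat_lit 976860439)]
noncomputable def e35_12 : List Rx := [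
  Rx.mk (nat_lit 20) (nat_lit 4) (nat_lit 2) (nat_lit 0) (nat_lit 2) (nat_lit 51) (nat_lit 82) r6_51 r0_82 (nat_lit 191551) (nat_lit 0) (nat_lit 287545) (nat_lit 0x5ae6ab8ae) (nat_lit 1692810020),
  Rx.mk (nat_lit 21) (nat_lit 5) (nat_lit 2) (nat_lit 0) (nat_lit 3) (nat_lit 52) (nat_lit 83) r6_52 r0_83 (nat_lit 0) (nat_lit 0) (nat_lit 3246351) (nat_lit 0x7f1f1dac4) (nat_lit 1091721275),
  Rx.mk (nat_lit 22) (nat_lit 6) (nat_lit 2) (nat_lit 0) (nat_lit 3) (nat_lit 53) (nat_lit 84) r6_53 r0_84 (nat_lit 0) (nat_lit 0) (nat_lit 1684651) (nat_lit 0x7dfbf60f6) (nat_lit 1109116275),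
  Rx.mk (nat_lit 148) (nat_lit 4) (nat_lit 2) (nat_lit 2) (nat_lit 6) (nat_lit 54) (nat_lit 87) r6_54 r0_87 (nat_lit 1891802) (nat_lit 0) (nat_lit 0) (nat_lit 0x7e43297ac) (nat_lit 1104700826),
  Rx.mk (nat_lit 149) (nat_lit 5) (nat_lit 2) (nat_lit 2) (nat_lit 7) (nat_lit 55) (nat_lit 88) r6_55 r0_88 (nat_lit 0) (nat_lit 0) (nat_lit 0) (nat_lit 0x823b44524) (nat_lit 1037739424),
  Rx.mk (nat_lit 180) (nat_lit 4) (nat_lit 6) (nat_lit 2) (nat_lit 6) (nat_lit 49) (nat_lit 85) r6_49 r0_85 (nat_lit 726571) (nat_lit 0) (nat_lit 0) (nat_lit 0x8053e60c0) (nat_lit 1069259595),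
  Rx.mk (nat_lit 181) (nat_lit 5) (nat_lit 6) (nat_lit 2) (nat_lit 7) (nat_lit 50) (nat_lit 86) r6_50 r0_86 (nat_lit 0) (nat_lit 0) (nat_lit 0) (nat_lit 0x95d9fc690) (nat_lit 720454924)]
noncomputable def e35_13 : List Rx := [
  Rx.mk (nat_lit 20) (nat_lit 4) (nat_lit 2) (nat_lit 0) (nat_lit 2) (nat_lit 195) (nat_lit 293) r6_195 r7_293 (nat_lit 264914) (nat_lit 0) (nat_lit 277079) (nat_lit 0x6d02a6830) (nat_lit 1390940117),
  Rx.mk (nat_lit 21) (nat_lit 5) (nat_lit 2) (nat_lit 0) (nat_lit 3) (nat_lit 196) (nat_lit 297) r6_196 r7_297 (nat_lit 0) (nat_lit 0) (nat_lit 2237591) (nat_lit 0x8056375b8) (nat_lit 1070643615),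
  Rx.mk (nat_lit 22) (nat_lit 6) (nat_lit 2) (nat_lit 0) (nat_lit 3) (nat_lit 197) (nat_lit 301) r6_197 r7_301 (nat_lit 0) (nat_lit 0) (nat_lit 1598900) (nat_lit 0x80a515d4c) (nat_lit 1065015624),
  Rx.mk (nat_lit 84) (nat_lit 4) (nat_lit 2) (nat_lit 1) (nat_lit 6) (nat_lit 198) (nat_lit 294) r6_198 r7_294 (nat_lit 1891092) (nat_lit 0) (nat_lit 0) (nat_lit 0x8064b8aba) (nat_lit 1069380816),
  Rx.mk (nat_lit 85) (nat_lit 5) (nat_lit 2) (nat_lit 1) (nat_lit 7) (nat_lit 199) (nat_lit 298) r6_199 r7_298 (nat_lit 0) (nat_lit 0) (nat_lit 0) (nat_lit 0x804959148) (nat_lit 1069226624),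
  Rx.mk (nat_lit 86) (nat_lit 6) (nat_lit 2) (nat_lit 1) (nat_lit 7) (nat_lit 200) (nat_lit 302) r6_200 r7_302 (nat_lit 0) (nat_lit 0) (nat_lit 0) (nat_lit 0x80aedf3b4) (nat_lit 1062792024),
  Rx.mk (nat_lit 148) (nat_lit 4) (nat_lit 2) (nat_lit 2) (nat_lit 6) (nat_lit 201) (nat_lit 295) r6_201 r7_295 (nat_lit 5719758) (nat_lit 0) (nat_lit 0) (nat_lit 0x7fc989026) (nat_lit 1083137982),
  Rx.mk (nat_lit 149) (nat_lit 5) (nat_lit 2) (nat_lit 2) (nat_lit 7) (nat_lit 202) (nat_lit 299) r6_202 r7_299 (nat_lit 0) (nat_lit 0) (nat_lit 0) (nat_lit 0x80029938e) (nat_lit 1073741824),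
  Rx.mk (nat_lit 180) (nat_lit 4) (nat_lit 6) (nat_lit 2) (nat_lit 6) (nat_lit 193) (nat_lit 296) r6_193 r7_296 (nat_lit 1281739) (nat_lit 0) (nat_lit 0) (nat_lit 0x8015d28a6) (nat_lit 1073788363),
  Rx.mk (nat_lit 181) (nat_lit 5) (nat_lit 6) (nat_lit 2) (nat_lit 7) (nat_lit 194) (nat_lit 300) r6_194 r7_300 (nat_lit 0) (nat_lit 0) (nat_lit 0) (nat_lit 0x80f0600f4) (nat_lit 1058649324)]
noncomputable def e35_14 : List Rx := [
  Rx.mk (nat_lit 21) (nat_lit 5) (nat_lit 2) (nat_lit 0) (nat_lit 3) (nat_lit 57) (nat_lit 88) r6_57 r1_88 (nat_lit 0) (nat_lit 0) (nat_lit 2919225) (nat_lit 0x8031e1df8) (nat_lit 1073634549),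
  Rx.mk (nat_lit 149) (nat_lit 5) (nat_lit 2) (nat_lit 2) (nat_lit 7) (nat_lit 58) (nat_lit 90) r6_58 r1_90 (nat_lit 0) (nat_lit 0) (nat_lit 0) (nat_lit 0x80844da2e) (nat_lit 1065486024),
  Rx.mk (nat_lit 181) (nat_lit 5) (nat_lit 6) (nat_lit 2) (nat_lit 7) (nat_lit 56) (nat_lit 89) r6_56 r1_89 (nat_lit 0) (nat_lit 0) (nat_lit 0) (nat_lit 0x997d38914) (nat_lit 661632824)]
noncomputable def e35_15 : List Rx := [
  Rx.mk (nat_lit 21) (nat_lit 5) (nat_lit 2) (nat_lit 0) (nat_lit 3) (nat_lit 207) (nat_lit 221) r6_207 r8_221 (nat_lit 0) (nat_lit 0) (nat_lit 5449534) (nat_lit 0x80029938e) (nat_lit 1079191358),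
  Rx.mk (nat_lit 85) (nat_lit 5) (nat_lit 2) (nat_lit 1) (nat_lit 7) (nat_lit 208) (nat_lit 222) r6_208 r8_222 (nat_lit 0) (nat_lit 0) (nat_lit 0) (nat_lit 0x80029938e) (nat_lit 1073741824),
  Rx.mk (nat_lit 149) (nat_lit 5) (nat_lit 2) (nat_lit 2) (nat_lit 7) (nat_lit 209) (nat_lit 223) r6_209 r8_223 (nat_lit 0) (nat_lit 0) (nat_lit 0) (nat_lit 0x80029938e) (nat_lit 1073741824),
  Rx.mk (nat_lit 181) (nat_lit 5) (nat_lit 6) (nat_lit 2) (nat_lit 7) (nat_lit 206) (nat_lit 224) r6_206 r8_224 (nat_lit 0) (nat_lit 0) (nat_lit 0) (nat_lit 0x8065dab1e) (nat_lit 1067416324)]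
noncomputable def e35_16 : List Rx := [
  Rx.mk (nat_lit 84) (nat_lit 4) (nat_lit 2) (nat_lit 1) (nat_lit 6) (nat_lit 203) (nat_lit 71) r6_203 r8_71 (nat_lit 1883603) (nat_lit 0) (nat_lit 0) (nat_lit 0x8036af1e6) (nat_lit 1072289527),
  Rx.mk (nat_lit 85) (nat_lit 5) (nat_lit 2) (nat_lit 1) (nat_lit 7) (nat_lit 204) (nat_lit 72) r6_204 r8_72 (nat_lit 0) (nat_lit 0) (nat_lit 0) (nat_lit 0x8037bf9e6) (nat_lit 1070345324),
  Rx.mk (nat_lit 86) (nat_lit 6) (nat_lit 2) (nat_lit 1) (nat_lit 7) (nat_lit 205) (nat_lit 73) r6_205 r8_73 (nat_lit 0) (nat_lit 0) (nat_lit 0) (nat_lit 0x804b0c5b2) (nat_lit 1069117724)]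
noncomputable def e35_17 : List Rx := [
  Rx.mk (nat_lit 84) (nat_lit 4) (nat_lit 2) (nat_lit 1) (nat_lit 6) (nat_lit 319) (nat_lit 241) r6_319 r9_241 (nat_lit 6014731) (nat_lit 0) (nat_lit 0) (nat_lit 0x7fa23117c) (nat_lit 1085990655),
  Rx.mk (nat_lit 85) (nat_lit 5) (nat_lit 2) (nat_lit 1) (nat_lit 7) (nat_lit 320) (nat_lit 242) r6_320 r9_242 (nat_lit 0) (nat_lit 0) (nat_lit 0) (nat_lit 0x80029938e) (nat_lit 1073741824),
  Rx.mk (nat_lit 86) (nat_lit 6) (nat_lit 2) (nat_lit 1) (nat_lit 7) (nat_lit 321) (nat_lit 243) r6_321 r9_243 (nat_lit 0) (nat_lit 0) (nat_lit 0) (nat_lit 0x80029938e) (nat_lit 1073741824)]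
noncomputable def e35_18 : List Rx := [
  Rx.mk (nat_lit 20) (nat_lit 4) (nat_lit 2) (nat_lit 0) (nat_lit 2) (nat_lit 62) (nat_lit 78) r6_62 r4_78 (nat_lit 458330) (nat_lit 0) (nat_lit 618791) (nat_lit 0x6b49c39f4) (nat_lit 1420200045),
  Rx.mk (nat_lit 21) (nat_lit 5) (nat_lit 2) (nat_lit 0) (nat_lit 3) (nat_lit 63) (nat_lit 79) r6_63 r4_79 (nat_lit 0) (nat_lit 0) (nat_lit 2091838) (nat_lit 0x8027fc3e2) (nat_lit 1073434162),
  Rx.mk (nat_lit 22) (nat_lit 6) (nat_lit 2) (nat_lit 0) (nat_lit 3) (nat_lit 64) (nat_lit 80) r6_64 r4_80 (nat_lit 0) (nat_lit 0) (nat_lit 2733861) (nat_lit 0x7eb79fd52) (nat_lit 1097952985),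
  Rx.mk (nat_lit 148) (nat_lit 4) (nat_lit 2) (nat_lit 2) (nat_lit 6) (nat_lit 65) (nat_lit 87) r6_65 r4_87 (nat_lit 1499729) (nat_lit 0) (nat_lit 0) (nat_lit 0x80082f4b0) (nat_lit 1074869353),
  Rx.mk (nat_lit 149) (nat_lit 5) (nat_lit 2) (nat_lit 2) (nat_lit 7) (nat_lit 66) (nat_lit 88) r6_66 r4_88 (nat_lit 0) (nat_lit 0) (nat_lit 0) (nat_lit 0x802e4a924) (nat_lit 1070947924),
  Rx.mk (nat_lit 180) (nat_lit 4) (nat_lit 6) (nat_lit 2) (nat_lit 6) (nat_lit 59) (nat_lit 84) r6_59 r4_84 (nat_lit 882081) (nat_lit 0) (nat_lit 0) (nat_lit 0x802bbc932) (nat_lit 1071969705),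
  Rx.mk (nat_lit 181) (nat_lit 5) (nat_lit 6) (nat_lit 2) (nat_lit 7) (nat_lit 60) (nat_lit 85) r6_60 r4_85 (nat_lit 0) (nat_lit 0) (nat_lit 0) (nat_lit 0x80900e8b8) (nat_lit 1064743624),
  Rx.mk (nat_lit 183) (nat_lit 7) (nat_lit 6) (nat_lit 2) (nat_lit 7) (nat_lit 61) (nat_lit 86) r6_61 r4_86 (nat_lit 0) (nat_lit 0) (nat_lit 0) (nat_lit 0x809f929ec) (nat_lit 1063761924),
  Rx.mk (nat_lit 212) (nat_lit 4) (nat_lit 2) (nat_lit 3) (nat_lit 6) (nat_lit 67) (nat_lit 81) r6_67 r4_81 (nat_lit 21394) (nat_lit 0) (nat_lit 0) (nat_lit 0x59eab61f2) (nat_lit 1708731518),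
  Rx.mk (nat_lit 213) (nat_lit 5) (nat_lit 2) (nat_lit 3) (nat_lit 7) (nat_lit 68) (nat_lit 82) r6_68 r4_82 (nat_lit 0) (nat_lit 0) (nat_lit 0) (nat_lit 0x802f01e94) (nat_lit 1070886824),
  Rx.mk (nat_lit 214) (nat_lit 6) (nat_lit 2) (nat_lit 3) (nat_lit 7) (nat_lit 69) (nat_lit 83) r6_69 r4_83 (nat_lit 0) (nat_lit 0) (nat_lit 0) (nat_lit 0x80040e246) (nat_lit 1073614524)]
noncomputable def e35_19 : List Rx := [
  Rx.mk (nat_lit 20) (nat_lit 4) (nat_lit 2) (nat_lit 0) (nat_lit 2) (nat_lit 213) (nat_lit 244) r6_213 r10_244 (nat_lit 325610) (nat_lit 0) (nat_lit 315034) (nat_lit 0x6c8871394) (nat_lit 1399003668),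
  Rx.mk (nat_lit 21) (nat_lit 5) (nat_lit 2) (nat_lit 0) (nat_lit 3) (nat_lit 214) (nat_lit 249) r6_214 r10_249 (nat_lit 0) (nat_lit 0) (nat_lit 2919586) (nat_lit 0x8040ec42e) (nat_lit 1072682510),
  Rx.mk (nat_lit 22) (nat_lit 6) (nat_lit 2) (nat_lit 0) (nat_lit 3) (nat_lit 215) (nat_lit 254) r6_215 r10_254 (nat_lit 0) (nat_lit 0) (nat_lit 1567710) (nat_lit 0x8053e18e0) (nat_lit 1070118234),
  Rx.mk (nat_lit 84) (nat_lit 4) (nat_lit 2) (nat_lit 1) (nat_lit 6) (nat_lit 216) (nat_lit 245) r6_216 r10_245 (nat_lit 2104035) (nat_lit 0) (nat_lit 0) (nat_lit 0x8089df83e) (nat_lit 1067238059),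
  Rx.mk (nat_lit 86) (nat_lit 6) (nat_lit 2) (nat_lit 1) (nat_lit 7) (nat_lit 217) (nat_lit 255) r6_217 r10_255 (nat_lit 0) (nat_lit 0) (nat_lit 0) (nat_lit 0x809b6df60) (nat_lit 1064022524),
  Rx.mk (nat_lit 148) (nat_lit 4) (nat_lit 2) (nat_lit 2) (nat_lit 6) (nat_lit 218) (nat_lit 247) r6_218 r10_247 (nat_lit 5449534) (nat_lit 0) (nat_lit 0) (nat_lit 0x7febd1840) (nat_lit 1080657058),
  Rx.mk (nat_lit 149) (nat_lit 5) (nat_lit 2) (nat_lit 2) (nat_lit 7) (nat_lit 219) (nat_lit 251) r6_219 r10_251 (nat_lit 0) (nat_lit 0) (nat_lit 0) (nat_lit 0x80029938e) (nat_lit 1073741824),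
  Rx.mk (nat_lit 180) (nat_lit 4) (nat_lit 6) (nat_lit 2) (nat_lit 6) (nat_lit 210) (nat_lit 248) r6_210 r10_248 (nat_lit 1425998) (nat_lit 0) (nat_lit 0) (nat_lit 0x8011ef310) (nat_lit 1074173622),
  Rx.mk (nat_lit 181) (nat_lit 5) (nat_lit 6) (nat_lit 2) (nat_lit 7) (nat_lit 211) (nat_lit 252) r6_211 r10_252 (nat_lit 0) (nat_lit 0) (nat_lit 0) (nat_lit 0x8099ba880) (nat_lit 1064130224),
  Rx.mk (nat_lit 183) (nat_lit 7) (nat_lit 6) (nat_lit 2) (nat_lit 7) (nat_lit 212) (nat_lit 253) r6_212 r10_253 (nat_lit 0) (nat_lit 0) (nat_lit 0) (nat_lit 0x8099ba880) (nat_lit 1064130224),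
  Rx.mk (nat_lit 212) (nat_lit 4) (nat_lit 2) (nat_lit 3) (nat_lit 6) (nat_lit 220) (nat_lit 246) r6_220 r10_246 (nat_lit 2104035) (nat_lit 0) (nat_lit 0) (nat_lit 0x8089df83e) (nat_lit 1067238059),
  Rx.mk (nat_lit 213) (nat_lit 5) (nat_lit 2) (nat_lit 3) (nat_lit 7) (nat_lit 221) (nat_lit 250) r6_221 r10_250 (nat_lit 0) (nat_lit 0) (nat_lit 0) (nat_lit 0x80192ccea) (nat_lit 1072297024),
  Rx.mk (nat_lit 214) (nat_lit 6) (nat_lit 2) (nat_lit 3) (nat_lit 7) (nat_lit 222) (nat_lit 256) r6_222 r10_256 (nat_lit 0) (nat_lit 0) (nat_lit 0) (nat_lit 0x809b6df60) (nat_lit 1064022524)]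
noncomputable def e35_20 : List Rx := [
  Rx.mk (nat_lit 212) (nat_lit 4) (nat_lit 2) (nat_lit 3) (nat_lit 6) (nat_lit 254) (nat_lit 284) r6_254 r11_284 (nat_lit 424298) (nat_lit 0) (nat_lit 0) (nat_lit 0x882e6edee) (nat_lit 941930922),
  Rx.mk (nat_lit 213) (nat_lit 5) (nat_lit 2) (nat_lit 3) (nat_lit 7) (nat_lit 255) (nat_lit 285) r6_255 r11_285 (nat_lit 0) (nat_lit 0) (nat_lit 0) (nat_lit 0xa352ba304) (nat_lit 502613624),
  Rx.mk (nat_lit 214) (nat_lit 6) (nat_lit 2) (nat_lit 3) (nat_lit 7) (nat_lit 256) (nat_lit 286) r6_256 r11_286 (nat_lit 0) (nat_lit 0) (nat_lit 0) (nat_lit 0x9a931abc8) (nat_lit 644086424)]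
noncomputable def e35_21 : List Rx := [
  Rx.mk (nat_lit 70) (nat_lit 6) (nat_lit 0) (nat_lit 1) (nat_lit 5) (nat_lit 315) (nat_lit 220) r6_315 r9_220 (nat_lit 0) (nat_lit 6723610) (nat_lit 0) (nat_lit 0x7fa202926) (nat_lit 1086714034),
  Rx.mk (nat_lit 78) (nat_lit 6) (nat_lit 1) (nat_lit 1) (nat_lit 7) (nat_lit 317) (nat_lit 222) r6_317 r9_222 (nat_lit 0) (nat_lit 0) (nat_lit 0) (nat_lit 0x80029938e) (nat_lit 1073741824),
  Rx.mk (nat_lit 86) (nat_lit 6) (nat_lit 2) (nat_lit 1) (nat_lit 7) (nat_lit 318) (nat_lit 223) r6_318 r9_223 (nat_lit 0) (nat_lit 0) (nat_lit 0) (nat_lit 0x80029938e) (nat_lit 1073741824),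
  Rx.mk (nat_lit 326) (nat_lit 6) (nat_lit 0) (nat_lit 5) (nat_lit 5) (nat_lit 314) (nat_lit 219) r6_314 r9_219 (nat_lit 0) (nat_lit 5449534) (nat_lit 0) (nat_lit 0x7ff84509a) (nat_lit 1079854658),
  Rx.mk (nat_lit 334) (nat_lit 6) (nat_lit 1) (nat_lit 5) (nat_lit 7) (nat_lit 316) (nat_lit 221) r6_316 r9_221 (nat_lit 0) (nat_lit 0) (nat_lit 0) (nat_lit 0x80029938e) (nat_lit 1073741824)]
noncomputable def e35_22 : List Rx := [
  Rx.mk (nat_lit 266) (nat_lit 2) (nat_lit 1) (nat_lit 4) (nat_lit 3) (nat_lit 279) (nat_lit 222) r6_279 r0_222 (nat_lit 0) (nat_lit 0) (nat_lit 4479) (nat_lit 0x93ccfa606) (nat_lit 753553703),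
  Rx.mk (nat_lit 270) (nat_lit 6) (nat_lit 1) (nat_lit 4) (nat_lit 3) (nat_lit 278) (nat_lit 223) r6_278 r0_223 (nat_lit 0) (nat_lit 0) (nat_lit 8409716) (nat_lit 0x803d3fe16) (nat_lit 1078386140)]
noncomputable def e35_23 : List Rx := [
  Rx.mk (nat_lit 266) (nat_lit 2) (nat_lit 1) (nat_lit 4) (nat_lit 3) (nat_lit 299) (nat_lit 240) r6_299 r1_240 (nat_lit 0) (nat_lit 0) (nat_lit 32238) (nat_lit 0x803e4e578) (nat_lit 1069845062),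
  Rx.mk (nat_lit 270) (nat_lit 6) (nat_lit 1) (nat_lit 4) (nat_lit 3) (nat_lit 298) (nat_lit 241) r6_298 r1_241 (nat_lit 0) (nat_lit 0) (nat_lit 9165703) (nat_lit 0x82a20d594) (nat_lit 1040408027)]
noncomputable def e35_24 : List Rx := [
  Rx.mk (nat_lit 258) (nat_lit 2) (nat_lit 0) (nat_lit 4) (nat_lit 1) (nat_lit 338) (nat_lit 217) r6_338 r4_217 (nat_lit 0) (nat_lit 38193) (nat_lit 58427) (nat_lit 0x743c60600) (nat_lit 1269994544),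
  Rx.mk (nat_lit 262) (nat_lit 6) (nat_lit 0) (nat_lit 4) (nat_lit 1) (nat_lit 337) (nat_lit 220) r6_337 r4_220 (nat_lit 0) (nat_lit 570165) (nat_lit 1651260) (nat_lit 0x6c90a7590) (nat_lit 1400056949),
  Rx.mk (nat_lit 266) (nat_lit 2) (nat_lit 1) (nat_lit 4) (nat_lit 3) (nat_lit 341) (nat_lit 218) r6_341 r4_218 (nat_lit 0) (nat_lit 0) (nat_lit 2224828) (nat_lit 0x8082c4f54) (nat_lit 1067817452),
  Rx.mk (nat_lit 270) (nat_lit 6) (nat_lit 1) (nat_lit 4) (nat_lit 3) (nat_lit 340) (nat_lit 221) r6_340 r4_221 (nat_lit 0) (nat_lit 0) (nat_lit 2410025) (nat_lit 0x7ff815124) (nat_lit 1076821349),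
  Rx.mk (nat_lit 282) (nat_lit 2) (nat_lit 3) (nat_lit 4) (nat_lit 3) (nat_lit 343) (nat_lit 219) r6_343 r4_219 (nat_lit 0) (nat_lit 0) (nat_lit 3048876) (nat_lit 0x8040187e6) (nat_lit 1072866300),
  Rx.mk (nat_lit 454) (nat_lit 6) (nat_lit 0) (nat_lit 7) (nat_lit 5) (nat_lit 339) (nat_lit 222) r6_339 r4_222 (nat_lit 0) (nat_lit 34434) (nat_lit 0) (nat_lit 0x47d93a886) (nat_lit 2010000758),
  Rx.mk (nat_lit 462) (nat_lit 6) (nat_lit 1) (nat_lit 7) (nat_lit 7) (nat_lit 342) (nat_lit 223) r6_342 r4_223 (nat_lit 0) (nat_lit 0) (nat_lit 0) (nat_lit 0x800d35cd4) (nat_lit 1073018224)]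
noncomputable def e35_25 : List Rx := [
  Rx.mk (nat_lit 266) (nat_lit 2) (nat_lit 1) (nat_lit 4) (nat_lit 3) (nat_lit 283) (nat_lit 284) r6_283 r7_284 (nat_lit 0) (nat_lit 0) (nat_lit 1381776) (nat_lit 0x8046be05a) (nat_lit 1070778100),
  Rx.mk (nat_lit 270) (nat_lit 6) (nat_lit 1) (nat_lit 4) (nat_lit 3) (nat_lit 282) (nat_lit 282) r6_282 r7_282 (nat_lit 0) (nat_lit 0) (nat_lit 2052120) (nat_lit 0x802554b6c) (nat_lit 1073565444),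
  Rx.mk (nat_lit 322) (nat_lit 2) (nat_lit 0) (nat_lit 5) (nat_lit 5) (nat_lit 281) (nat_lit 281) r6_281 r7_281 (nat_lit 0) (nat_lit 2052120) (nat_lit 0) (nat_lit 0x802554b6c) (nat_lit 1073565444),
  Rx.mk (nat_lit 326) (nat_lit 6) (nat_lit 0) (nat_lit 5) (nat_lit 5) (nat_lit 280) (nat_lit 280) r6_280 r7_280 (nat_lit 0) (nat_lit 1381776) (nat_lit 0) (nat_lit 0x8046be05a) (nat_lit 1070778100),
  Rx.mk (nat_lit 330) (nat_lit 2) (nat_lit 1) (nat_lit 5) (nat_lit 7) (nat_lit 285) (nat_lit 285) r6_285 r7_285 (nat_lit 0) (nat_lit 0) (nat_lit 0) (nat_lit 0x8061e744e) (nat_lit 1067667324),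
  Rx.mk (nat_lit 334) (nat_lit 6) (nat_lit 1) (nat_lit 5) (nat_lit 7) (nat_lit 284) (nat_lit 283) r6_284 r7_283 (nat_lit 0) (nat_lit 0) (nat_lit 0) (nat_lit 0x8061e744e) (nat_lit 1067667324)]
noncomputable def e35_26 : List Rx := [
  Rx.mk (nat_lit 266) (nat_lit 2) (nat_lit 1) (nat_lit 4) (nat_lit 3) (nat_lit 301) (nat_lit 216) r6_301 r8_216 (nat_lit 0) (nat_lit 0) (nat_lit 1646791) (nat_lit 0x803c7d550) (nat_lit 1071692415),
  Rx.mk (nat_lit 270) (nat_lit 6) (nat_lit 1) (nat_lit 4) (nat_lit 3) (nat_lit 300) (nat_lit 214) r6_300 r8_214 (nat_lit 0) (nat_lit 0) (nat_lit 5771941) (nat_lit 0x7fecf9a7e) (nat_lit 1080903565),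
  Rx.mk (nat_lit 330) (nat_lit 2) (nat_lit 1) (nat_lit 5) (nat_lit 7) (nat_lit 303) (nat_lit 217) r6_303 r8_217 (nat_lit 0) (nat_lit 0) (nat_lit 0) (nat_lit 0x803843b1a) (nat_lit 1070312524),
  Rx.mk (nat_lit 334) (nat_lit 6) (nat_lit 1) (nat_lit 5) (nat_lit 7) (nat_lit 302) (nat_lit 215) r6_302 r8_215 (nat_lit 0) (nat_lit 0) (nat_lit 0) (nat_lit 0x80029938e) (nat_lit 1073741824)]
noncomputable def e35_27 : List Rx := [
  Rx.mk (nat_lit 322) (nat_lit 2) (nat_lit 0) (nat_lit 5) (nat_lit 5) (nat_lit 311) (nat_lit 214) r6_311 r8_214 (nat_lit 0) (nat_lit 5771941) (nat_lit 0) (nat_lit 0x7fecf9a7e) (nat_lit 1080903565),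
  Rx.mk (nat_lit 326) (nat_lit 6) (nat_lit 0) (nat_lit 5) (nat_lit 5) (nat_lit 310) (nat_lit 216) r6_310 r8_216 (nat_lit 0) (nat_lit 1646791) (nat_lit 0) (nat_lit 0x803c7d550) (nat_lit 1071692415),
  Rx.mk (nat_lit 330) (nat_lit 2) (nat_lit 1) (nat_lit 5) (nat_lit 7) (nat_lit 313) (nat_lit 215) r6_313 r8_215 (nat_lit 0) (nat_lit 0) (nat_lit 0) (nat_lit 0x80029938e) (nat_lit 1073741824),
  Rx.mk (nat_lit 334) (nat_lit 6) (nat_lit 1) (nat_lit 5) (nat_lit 7) (nat_lit 312) (nat_lit 217) r6_312 r8_217 (nat_lit 0) (nat_lit 0) (nat_lit 0) (nat_lit 0x803843b1a) (nat_lit 1070312524)]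
noncomputable def e35_28 : List Rx := [
  Rx.mk (nat_lit 258) (nat_lit 2) (nat_lit 0) (nat_lit 4) (nat_lit 1) (nat_lit 345) (nat_lit 228) r6_345 r10_228 (nat_lit 0) (nat_lit 251735) (nat_lit 281994) (nat_lit 0x6f241602c) (nat_lit 1355411153),
  Rx.mk (nat_lit 262) (nat_lit 6) (nat_lit 0) (nat_lit 4) (nat_lit 1) (nat_lit 344) (nat_lit 225) r6_344 r10_225 (nat_lit 0) (nat_lit 281994) (nat_lit 251735) (nat_lit 0x6f241602c) (nat_lit 1355411153),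
  Rx.mk (nat_lit 266) (nat_lit 2) (nat_lit 1) (nat_lit 4) (nat_lit 3) (nat_lit 350) (nat_lit 233) r6_350 r10_233 (nat_lit 0) (nat_lit 0) (nat_lit 1889821) (nat_lit 0x80c097fde) (nat_lit 1063560645),
  Rx.mk (nat_lit 270) (nat_lit 6) (nat_lit 1) (nat_lit 4) (nat_lit 3) (nat_lit 349) (nat_lit 230) r6_349 r10_230 (nat_lit 0) (nat_lit 0) (nat_lit 2530520) (nat_lit 0x80595a13c) (nat_lit 1070741144),
  Rx.mk (nat_lit 282) (nat_lit 2) (nat_lit 3) (nat_lit 4) (nat_lit 3) (nat_lit 354) (nat_lit 235) r6_354 r10_235 (nat_lit 0) (nat_lit 0) (nat_lit 1889821) (nat_lit 0x80c097962) (nat_lit 1063560745),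
  Rx.mk (nat_lit 322) (nat_lit 2) (nat_lit 0) (nat_lit 5) (nat_lit 5) (nat_lit 347) (nat_lit 229) r6_347 r10_229 (nat_lit 0) (nat_lit 2530520) (nat_lit 0) (nat_lit 0x80595a13c) (nat_lit 1070741144),
  Rx.mk (nat_lit 326) (nat_lit 6) (nat_lit 0) (nat_lit 5) (nat_lit 5) (nat_lit 346) (nat_lit 226) r6_346 r10_226 (nat_lit 0) (nat_lit 1889821) (nat_lit 0) (nat_lit 0x80c097fde) (nat_lit 1063560645),
  Rx.mk (nat_lit 330) (nat_lit 2) (nat_lit 1) (nat_lit 5) (nat_lit 7) (nat_lit 352) (nat_lit 234) r6_352 r10_234 (nat_lit 0) (nat_lit 0) (nat_lit 0) (nat_lit 0x802855af0) (nat_lit 1071328824),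
  Rx.mk (nat_lit 334) (nat_lit 6) (nat_lit 1) (nat_lit 5) (nat_lit 7) (nat_lit 351) (nat_lit 231) r6_351 r10_231 (nat_lit 0) (nat_lit 0) (nat_lit 0) (nat_lit 0x802855af0) (nat_lit 1071328824),
  Rx.mk (nat_lit 346) (nat_lit 2) (nat_lit 3) (nat_lit 5) (nat_lit 7) (nat_lit 355) (nat_lit 236) r6_355 r10_236 (nat_lit 0) (nat_lit 0) (nat_lit 0) (nat_lit 0x802855af0) (nat_lit 1071328824),
  Rx.mk (nat_lit 454) (nat_lit 6) (nat_lit 0) (nat_lit 7) (nat_lit 5) (nat_lit 348) (nat_lit 227) r6_348 r10_227 (nat_lit 0) (nat_lit 1889821) (nat_lit 0) (nat_lit 0x80c097962) (nat_lit 1063560745),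
  Rx.mk (nat_lit 462) (nat_lit 6) (nat_lit 1) (nat_lit 7) (nat_lit 7) (nat_lit 353) (nat_lit 232) r6_353 r10_232 (nat_lit 0) (nat_lit 0) (nat_lit 0) (nat_lit 0x802855af0) (nat_lit 1071328824)]
noncomputable def e35_29 : List Rx := [
  Rx.mk (nat_lit 258) (nat_lit 2) (nat_lit 0) (nat_lit 4) (nat_lit 1) (nat_lit 356) (nat_lit 267) r6_356 r11_267 (nat_lit 0) (nat_lit 1198594) (nat_lit 1583871) (nat_lit 0x786c3fe62) (nat_lit 1202933889),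
  Rx.mk (nat_lit 266) (nat_lit 2) (nat_lit 1) (nat_lit 4) (nat_lit 3) (nat_lit 359) (nat_lit 270) r6_359 r11_270 (nat_lit 0) (nat_lit 0) (nat_lit 3783142) (nat_lit 0x8026e504e) (nat_lit 1075205966),
  Rx.mk (nat_lit 282) (nat_lit 2) (nat_lit 3) (nat_lit 4) (nat_lit 3) (nat_lit 362) (nat_lit 272) r6_362 r11_272 (nat_lit 0) (nat_lit 0) (nat_lit 4589682) (nat_lit 0x80102e396) (nat_lit 1077461506),
  Rx.mk (nat_lit 450) (nat_lit 2) (nat_lit 0) (nat_lit 7) (nat_lit 5) (nat_lit 358) (nat_lit 268) r6_358 r11_268 (nat_lit 0) (nat_lit 2725786) (nat_lit 0) (nat_lit 0x80237ab70) (nat_lit 1074362110),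
  Rx.mk (nat_lit 454) (nat_lit 6) (nat_lit 0) (nat_lit 7) (nat_lit 5) (nat_lit 357) (nat_lit 266) r6_357 r11_266 (nat_lit 0) (nat_lit 670567) (nat_lit 0) (nat_lit 0x815ed8932) (nat_lit 1052331991),
  Rx.mk (nat_lit 458) (nat_lit 2) (nat_lit 1) (nat_lit 7) (nat_lit 7) (nat_lit 361) (nat_lit 271) r6_361 r11_271 (nat_lit 0) (nat_lit 0) (nat_lit 0) (nat_lit 0x80029938e) (nat_lit 1073741824),
  Rx.mk (nat_lit 462) (nat_lit 6) (nat_lit 1) (nat_lit 7) (nat_lit 7) (nat_lit 360) (nat_lit 269) r6_360 r11_269 (nat_lit 0) (nat_lit 0) (nat_lit 0) (nat_lit 0xa8336d212) (nat_lit 423737724)]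
noncomputable def e35_30 : List Rx := [
  Rx.mk (nat_lit 20) (nat_lit 4) (nat_lit 2) (nat_lit 0) (nat_lit 2) (nat_lit 90) (nat_lit 70) r6_90 r5_70 (nat_lit 16168) (nat_lit 0) (nat_lit 22438) (nat_lit 0x7a1c8609a) (nat_lit 1171966330),
  Rx.mk (nat_lit 22) (nat_lit 6) (nat_lit 2) (nat_lit 0) (nat_lit 3) (nat_lit 91) (nat_lit 72) r6_91 r5_72 (nat_lit 0) (nat_lit 0) (nat_lit 2825381) (nat_lit 0x7fbf7b2aa) (nat_lit 1080886705),
  Rx.mk (nat_lit 23) (nat_lit 7) (nat_lit 2) (nat_lit 0) (nat_lit 3) (nat_lit 92) (nat_lit 71) r6_92 r5_71 (nat_lit 0) (nat_lit 0) (nat_lit 1145575) (nat_lit 0x81615e058) (nat_lit 1052648999),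
  Rx.mk (nat_lit 148) (nat_lit 4) (nat_lit 2) (nat_lit 2) (nat_lit 6) (nat_lit 93) (nat_lit 78) r6_93 r5_78 (nat_lit 3813020) (nat_lit 0) (nat_lit 0) (nat_lit 0x7e7fe50b0) (nat_lit 1102664344),
  Rx.mk (nat_lit 151) (nat_lit 7) (nat_lit 2) (nat_lit 2) (nat_lit 7) (nat_lit 94) (nat_lit 79) r6_94 r5_79 (nat_lit 0) (nat_lit 0) (nat_lit 0) (nat_lit 0x8019076ca) (nat_lit 1072298224),
  Rx.mk (nat_lit 183) (nat_lit 7) (nat_lit 6) (nat_lit 2) (nat_lit 7) (nat_lit 88) (nat_lit 77) r6_88 r5_77 (nat_lit 0) (nat_lit 0) (nat_lit 0) (nat_lit 0x7d806d86c) (nat_lit 1115429524),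
  Rx.mk (nat_lit 198) (nat_lit 6) (nat_lit 0) (nat_lit 3) (nat_lit 5) (nat_lit 89) (nat_lit 73) r6_89 r5_73 (nat_lit 0) (nat_lit 826810) (nat_lit 0) (nat_lit 0x802fe455a) (nat_lit 1071641334),
  Rx.mk (nat_lit 212) (nat_lit 4) (nat_lit 2) (nat_lit 3) (nat_lit 6) (nat_lit 95) (nat_lit 75) r6_95 r5_75 (nat_lit 294333) (nat_lit 0) (nat_lit 0) (nat_lit 0x869783e6c) (nat_lit 967494857),
  Rx.mk (nat_lit 214) (nat_lit 6) (nat_lit 2) (nat_lit 3) (nat_lit 7) (nat_lit 96) (nat_lit 76) r6_96 r5_76 (nat_lit 0) (nat_lit 0) (nat_lit 0) (nat_lit 0x940158de4) (nat_lit 750318324),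
  Rx.mk (nat_lit 222) (nat_lit 6) (nat_lit 3) (nat_lit 3) (nat_lit 7) (nat_lit 97) (nat_lit 74) r6_97 r5_74 (nat_lit 0) (nat_lit 0) (nat_lit 0) (nat_lit 0x804ab9c7c) (nat_lit 1069132524)]
noncomputable def e35_31 : List Rx := [
  Rx.mk (nat_lit 6) (nat_lit 6) (nat_lit 0) (nat_lit 0) (nat_lit 1) (nat_lit 224) (nat_lit 53) r6_224 r11_53 (nat_lit 0) (nat_lit 2307781) (nat_lit 1282205) (nat_lit 0x7934fd052) (nat_lit 1190670010),
  Rx.mk (nat_lit 20) (nat_lit 4) (nat_lit 2) (nat_lit 0) (nat_lit 2) (nat_lit 227) (nat_lit 54) r6_227 r11_54 (nat_lit 1407149) (nat_lit 0) (nat_lit 1343161) (nat_lit 0x737e36fbc) (nat_lit 1285096534),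
  Rx.mk (nat_lit 22) (nat_lit 6) (nat_lit 2) (nat_lit 0) (nat_lit 3) (nat_lit 228) (nat_lit 56) r6_228 r11_56 (nat_lit 0) (nat_lit 0) (nat_lit 1786259) (nat_lit 0x808a883f8) (nat_lit 1066877983),
  Rx.mk (nat_lit 23) (nat_lit 7) (nat_lit 2) (nat_lit 0) (nat_lit 3) (nat_lit 229) (nat_lit 55) r6_229 r11_55 (nat_lit 0) (nat_lit 0) (nat_lit 2747444) (nat_lit 0x803990784) (nat_lit 1072977968),
  Rx.mk (nat_lit 70) (nat_lit 6) (nat_lit 0) (nat_lit 1) (nat_lit 5) (nat_lit 225) (nat_lit 57) r6_225 r11_57 (nat_lit 0) (nat_lit 5449534) (nat_lit 0) (nat_lit 0x80029938e) (nat_lit 1079191358),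
  Rx.mk (nat_lit 84) (nat_lit 4) (nat_lit 2) (nat_lit 1) (nat_lit 6) (nat_lit 230) (nat_lit 58) r6_230 r11_58 (nat_lit 4262738) (nat_lit 0) (nat_lit 0) (nat_lit 0x801570c46) (nat_lit 1076797662),
  Rx.mk (nat_lit 86) (nat_lit 6) (nat_lit 2) (nat_lit 1) (nat_lit 7) (nat_lit 231) (nat_lit 60) r6_231 r11_60 (nat_lit 0) (nat_lit 0) (nat_lit 0) (nat_lit 0x80159ec7c) (nat_lit 1072523724),
  Rx.mk (nat_lit 87) (nat_lit 7) (nat_lit 2) (nat_lit 1) (nat_lit 7) (nat_lit 232) (nat_lit 59) r6_232 r11_59 (nat_lit 0) (nat_lit 0) (nat_lit 0) (nat_lit 0x80029938e) (nat_lit 1073741824),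
  Rx.mk (nat_lit 148) (nat_lit 4) (nat_lit 2) (nat_lit 2) (nat_lit 6) (nat_lit 233) (nat_lit 66) r6_233 r11_66 (nat_lit 3928738) (nat_lit 0) (nat_lit 0) (nat_lit 0x80106e662) (nat_lit 1076782462),
  Rx.mk (nat_lit 151) (nat_lit 7) (nat_lit 2) (nat_lit 2) (nat_lit 7) (nat_lit 234) (nat_lit 67) r6_234 r11_67 (nat_lit 0) (nat_lit 0) (nat_lit 0) (nat_lit 0x801118d6a) (nat_lit 1072812524),
  Rx.mk (nat_lit 183) (nat_lit 7) (nat_lit 6) (nat_lit 2) (nat_lit 7) (nat_lit 223) (nat_lit 65) r6_223 r11_65 (nat_lit 0) (nat_lit 0) (nat_lit 0) (nat_lit 0x95ec9a496) (nat_lit 719290124),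
  Rx.mk (nat_lit 198) (nat_lit 6) (nat_lit 0) (nat_lit 3) (nat_lit 5) (nat_lit 226) (nat_lit 61) r6_226 r11_61 (nat_lit 0) (nat_lit 3994773) (nat_lit 0) (nat_lit 0x801c09594) (nat_lit 1076108397),
  Rx.mk (nat_lit 212) (nat_lit 4) (nat_lit 2) (nat_lit 3) (nat_lit 6) (nat_lit 235) (nat_lit 63) r6_235 r11_63 (nat_lit 3738478) (nat_lit 0) (nat_lit 0) (nat_lit 0x8024ee42a) (nat_lit 1075285302),
  Rx.mk (nat_lit 214) (nat_lit 6) (nat_lit 2) (nat_lit 3) (nat_lit 7) (nat_lit 236) (nat_lit 64) r6_236 r11_64 (nat_lit 0) (nat_lit 0) (nat_lit 0) (nat_lit 0x80159ec7c) (nat_lit 1072523724),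
  Rx.mk (nat_lit 222) (nat_lit 6) (nat_lit 3) (nat_lit 3) (nat_lit 7) (nat_lit 237) (nat_lit 62) r6_237 r11_62 (nat_lit 0) (nat_lit 0) (nat_lit 0) (nat_lit 0x800b91806) (nat_lit 1073166724)]
noncomputable def e35_32 : List Rx := [
  Rx.mk (nat_lit 282) (nat_lit 2) (nat_lit 3) (nat_lit 4) (nat_lit 3) (nat_lit 262) (nat_lit 262) r6_262 r6_262 (nat_lit 0) (nat_lit 0) (nat_lit 207111) (nat_lit 0x7fdbf9314) (nat_lit 1076351135),
  Rx.mk (nat_lit 286) (nat_lit 6) (nat_lit 3) (nat_lit 4) (nat_lit 3) (nat_lit 261) (nat_lit 257) r6_261 r6_257 (nat_lit 0) (nat_lit 0) (nat_lit 746296) (nat_lit 0x7fb13a506) (nat_lit 1079702620),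
  Rx.mk (nat_lit 314) (nat_lit 2) (nat_lit 7) (nat_lit 4) (nat_lit 3) (nat_lit 257) (nat_lit 261) r6_257 r6_261 (nat_lit 0) (nat_lit 0) (nat_lit 746296) (nat_lit 0x7fb13a506) (nat_lit 1079702620),
  Rx.mk (nat_lit 440) (nat_lit 0) (nat_lit 7) (nat_lit 6) (nat_lit 6) (nat_lit 258) (nat_lit 260) r6_258 r6_260 (nat_lit 85480) (nat_lit 0) (nat_lit 0) (nat_lit 0x80034bb88) (nat_lit 1073659004),
  Rx.mk (nat_lit 442) (nat_lit 2) (nat_lit 7) (nat_lit 6) (nat_lit 7) (nat_lit 259) (nat_lit 263) r6_259 r6_263 (nat_lit 0) (nat_lit 0) (nat_lit 0) (nat_lit 0x8b96934e4) (nat_lit 886418024),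
  Rx.mk (nat_lit 454) (nat_lit 6) (nat_lit 0) (nat_lit 7) (nat_lit 5) (nat_lit 260) (nat_lit 258) r6_260 r6_258 (nat_lit 0) (nat_lit 85480) (nat_lit 0) (nat_lit 0x80034bb88) (nat_lit 1073659004),
  Rx.mk (nat_lit 478) (nat_lit 6) (nat_lit 3) (nat_lit 7) (nat_lit 7) (nat_lit 263) (nat_lit 259) r6_263 r6_259 (nat_lit 0) (nat_lit 0) (nat_lit 0) (nat_lit 0x8b96934e4) (nat_lit 886418024)]
noncomputable def e35_33 : List Rx := [
  Rx.mk (nat_lit 262) (nat_lit 6) (nat_lit 0) (nat_lit 4) (nat_lit 1) (nat_lit 363) (nat_lit 232) r6_363 r5_232 (nat_lit 0) (nat_lit 369792) (nat_lit 398639) (nat_lit 0x7a2eaa5be) (nat_lit 1171560755),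
  Rx.mk (nat_lit 282) (nat_lit 2) (nat_lit 3) (nat_lit 4) (nat_lit 3) (nat_lit 366) (nat_lit 231) r6_366 r5_231 (nat_lit 0) (nat_lit 0) (nat_lit 13815) (nat_lit 0x85fe01f32) (nat_lit 976860439),
  Rx.mk (nat_lit 286) (nat_lit 6) (nat_lit 3) (nat_lit 4) (nat_lit 3) (nat_lit 365) (nat_lit 233) r6_365 r5_233 (nat_lit 0) (nat_lit 0) (nat_lit 1584864) (nat_lit 0x83f760f68) (nat_lit 1011269188),
  Rx.mk (nat_lit 454) (nat_lit 6) (nat_lit 0) (nat_lit 7) (nat_lit 5) (nat_lit 364) (nat_lit 234) r6_364 r5_234 (nat_lit 0) (nat_lit 503576) (nat_lit 0) (nat_lit 0x81fec8a00) (nat_lit 1042043700)]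
noncomputable def e35_34 : List Rx := [
  Rx.mk (nat_lit 262) (nat_lit 6) (nat_lit 0) (nat_lit 4) (nat_lit 1) (nat_lit 367) (nat_lit 267) r6_367 r11_267 (nat_lit 0) (nat_lit 1583871) (nat_lit 1198594) (nat_lit 0x786c3fe62) (nat_lit 1202933889),
  Rx.mk (nat_lit 282) (nat_lit 2) (nat_lit 3) (nat_lit 4) (nat_lit 3) (nat_lit 371) (nat_lit 266) r6_371 r11_266 (nat_lit 0) (nat_lit 0) (nat_lit 670567) (nat_lit 0x815ed8932) (nat_lit 1052331991),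
  Rx.mk (nat_lit 286) (nat_lit 6) (nat_lit 3) (nat_lit 4) (nat_lit 3) (nat_lit 370) (nat_lit 268) r6_370 r11_268 (nat_lit 0) (nat_lit 0) (nat_lit 2725786) (nat_lit 0x80237ab70) (nat_lit 1074362110),
  Rx.mk (nat_lit 326) (nat_lit 6) (nat_lit 0) (nat_lit 5) (nat_lit 5) (nat_lit 368) (nat_lit 270) r6_368 r11_270 (nat_lit 0) (nat_lit 3783142) (nat_lit 0) (nat_lit 0x8026e504e) (nat_lit 1075205966),
  Rx.mk (nat_lit 346) (nat_lit 2) (nat_lit 3) (nat_lit 5) (nat_lit 7) (nat_lit 373) (nat_lit 269) r6_373 r11_269 (nat_lit 0) (nat_lit 0) (nat_lit 0) (nat_lit 0xa8336d212) (nat_lit 423737724),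
  Rx.mk (nat_lit 350) (nat_lit 6) (nat_lit 3) (nat_lit 5) (nat_lit 7) (nat_lit 372) (nat_lit 271) r6_372 r11_271 (nat_lit 0) (nat_lit 0) (nat_lit 0) (nat_lit 0x80029938e) (nat_lit 1073741824),
  Rx.mk (nat_lit 454) (nat_lit 6) (nat_lit 0) (nat_lit 7) (nat_lit 5) (nat_lit 369) (nat_lit 272) r6_369 r11_272 (nat_lit 0) (nat_lit 4589682) (nat_lit 0) (nat_lit 0x80102e396) (nat_lit 1077461506)]
noncomputable def e35_35 : List Rx := [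
  Rx.mk (nat_lit 23) (nat_lit 7) (nat_lit 2) (nat_lit 0) (nat_lit 3) (nat_lit 80) (nat_lit 74) r6_80 r6_74 (nat_lit 0) (nat_lit 0) (nat_lit 11902) (nat_lit 0x80146e1c2) (nat_lit 1072468926),
  Rx.mk (nat_lit 151) (nat_lit 7) (nat_lit 2) (nat_lit 2) (nat_lit 7) (nat_lit 81) (nat_lit 78) r6_81 r6_78 (nat_lit 0) (nat_lit 0) (nat_lit 0) (nat_lit 0x7b87cf792) (nat_lit 1148325424),
  Rx.mk (nat_lit 179) (nat_lit 3) (nat_lit 6) (nat_lit 2) (nat_lit 7) (nat_lit 73) (nat_lit 85) r6_73 r6_85 (nat_lit 0) (nat_lit 0) (nat_lit 0) (nat_lit 0x800857a50) (nat_lit 1073242324),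
  Rx.mk (nat_lit 183) (nat_lit 7) (nat_lit 6) (nat_lit 2) (nat_lit 7) (nat_lit 72) (nat_lit 86) r6_72 r6_86 (nat_lit 0) (nat_lit 0) (nat_lit 0) (nat_lit 0x800857a50) (nat_lit 1073242324),
  Rx.mk (nat_lit 198) (nat_lit 6) (nat_lit 0) (nat_lit 3) (nat_lit 5) (nat_lit 79) (nat_lit 70) r6_79 r6_70 (nat_lit 0) (nat_lit 11902) (nat_lit 0) (nat_lit 0x80146e1c2) (nat_lit 1072468926),
  Rx.mk (nat_lit 212) (nat_lit 4) (nat_lit 2) (nat_lit 3) (nat_lit 6) (nat_lit 82) (nat_lit 75) r6_82 r6_75 (nat_lit 27167) (nat_lit 0) (nat_lit 0) (nat_lit 0x7fd616ed8) (nat_lit 1076507291),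
  Rx.mk (nat_lit 214) (nat_lit 6) (nat_lit 2) (nat_lit 3) (nat_lit 7) (nat_lit 83) (nat_lit 77) r6_83 r6_77 (nat_lit 0) (nat_lit 0) (nat_lit 0) (nat_lit 0x802f1cff0) (nat_lit 1070795924),
  Rx.mk (nat_lit 215) (nat_lit 7) (nat_lit 2) (nat_lit 3) (nat_lit 7) (nat_lit 84) (nat_lit 76) r6_84 r6_76 (nat_lit 0) (nat_lit 0) (nat_lit 0) (nat_lit 0x802f1cff0) (nat_lit 1070795924),
  Rx.mk (nat_lit 222) (nat_lit 6) (nat_lit 3) (nat_lit 3) (nat_lit 7) (nat_lit 87) (nat_lit 71) r6_87 r6_71 (nat_lit 0) (nat_lit 0) (nat_lit 0) (nat_lit 0x7b87cf792) (nat_lit 1148325424),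
  Rx.mk (nat_lit 314) (nat_lit 2) (nat_lit 7) (nat_lit 4) (nat_lit 3) (nat_lit 74) (nat_lit 80) r6_74 r6_80 (nat_lit 0) (nat_lit 0) (nat_lit 11902) (nat_lit 0x80146e1c2) (nat_lit 1072468926),
  Rx.mk (nat_lit 419) (nat_lit 3) (nat_lit 4) (nat_lit 6) (nat_lit 5) (nat_lit 70) (nat_lit 79) r6_70 r6_79 (nat_lit 0) (nat_lit 11902) (nat_lit 0) (nat_lit 0x80146e1c2) (nat_lit 1072468926),
  Rx.mk (nat_lit 435) (nat_lit 3) (nat_lit 6) (nat_lit 6) (nat_lit 7) (nat_lit 71) (nat_lit 87) r6_71 r6_87 (nat_lit 0) (nat_lit 0) (nat_lit 0) (nat_lit 0x7b87cf792) (nat_lit 1148325424),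
  Rx.mk (nat_lit 440) (nat_lit 0) (nat_lit 7) (nat_lit 6) (nat_lit 6) (nat_lit 75) (nat_lit 82) r6_75 r6_82 (nat_lit 27167) (nat_lit 0) (nat_lit 0) (nat_lit 0x7fd616ed8) (nat_lit 1076507291),
  Rx.mk (nat_lit 442) (nat_lit 2) (nat_lit 7) (nat_lit 6) (nat_lit 7) (nat_lit 76) (nat_lit 84) r6_76 r6_84 (nat_lit 0) (nat_lit 0) (nat_lit 0) (nat_lit 0x802f1cff0) (nat_lit 1070795924),
  Rx.mk (nat_lit 443) (nat_lit 3) (nat_lit 7) (nat_lit 6) (nat_lit 7) (nat_lit 77) (nat_lit 83) r6_77 r6_83 (nat_lit 0) (nat_lit 0) (nat_lit 0) (nat_lit 0x802f1cff0) (nat_lit 1070795924),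
  Rx.mk (nat_lit 474) (nat_lit 2) (nat_lit 3) (nat_lit 7) (nat_lit 7) (nat_lit 86) (nat_lit 72) r6_86 r6_72 (nat_lit 0) (nat_lit 0) (nat_lit 0) (nat_lit 0x800857a50) (nat_lit 1073242324),
  Rx.mk (nat_lit 478) (nat_lit 6) (nat_lit 3) (nat_lit 7) (nat_lit 7) (nat_lit 85) (nat_lit 73) r6_85 r6_73 (nat_lit 0) (nat_lit 0) (nat_lit 0) (nat_lit 0x800857a50) (nat_lit 1073242324),
  Rx.mk (nat_lit 506) (nat_lit 2) (nat_lit 7) (nat_lit 7) (nat_lit 7) (nat_lit 78) (nat_lit 81) r6_78 r6_81 (nat_lit 0) (nat_lit 0) (nat_lit 0) (nat_lit 0x7b87cf792) (nat_lit 1148325424)]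
noncomputable def e35_36 : List Rx := [
  Rx.mk (nat_lit 198) (nat_lit 6) (nat_lit 0) (nat_lit 3) (nat_lit 5) (nat_lit 269) (nat_lit 296) r6_269 r12_296 (nat_lit 0) (nat_lit 77873) (nat_lit 0) (nat_lit 0x7ef96640c) (nat_lit 1090946797),
  Rx.mk (nat_lit 212) (nat_lit 4) (nat_lit 2) (nat_lit 3) (nat_lit 6) (nat_lit 270) (nat_lit 294) r6_270 r12_294 (nat_lit 103466) (nat_lit 0) (nat_lit 0) (nat_lit 0x7e7552e22) (nat_lit 1099579590),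
  Rx.mk (nat_lit 214) (nat_lit 6) (nat_lit 2) (nat_lit 3) (nat_lit 7) (nat_lit 271) (nat_lit 299) r6_271 r12_299 (nat_lit 0) (nat_lit 0) (nat_lit 0) (nat_lit 0x86d9d99ec) (nat_lit 963003824),
  Rx.mk (nat_lit 215) (nat_lit 7) (nat_lit 2) (nat_lit 3) (nat_lit 7) (nat_lit 272) (nat_lit 295) r6_272 r12_295 (nat_lit 0) (nat_lit 0) (nat_lit 0) (nat_lit 0x878d6f6dc) (nat_lit 951659124),
  Rx.mk (nat_lit 282) (nat_lit 2) (nat_lit 3) (nat_lit 4) (nat_lit 3) (nat_lit 273) (nat_lit 290) r6_273 r12_290 (nat_lit 0) (nat_lit 0) (nat_lit 25761) (nat_lit 0x7e6206ba2) (nat_lit 1100737685),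
  Rx.mk (nat_lit 314) (nat_lit 2) (nat_lit 7) (nat_lit 4) (nat_lit 3) (nat_lit 264) (nat_lit 292) r6_264 r12_292 (nat_lit 0) (nat_lit 0) (nat_lit 77873) (nat_lit 0x7ef96640c) (nat_lit 1090946797),
  Rx.mk (nat_lit 440) (nat_lit 0) (nat_lit 7) (nat_lit 6) (nat_lit 6) (nat_lit 265) (nat_lit 288) r6_265 r12_288 (nat_lit 103466) (nat_lit 0) (nat_lit 0) (nat_lit 0x7e7552e22) (nat_lit 1099579590),
  Rx.mk (nat_lit 442) (nat_lit 2) (nat_lit 7) (nat_lit 6) (nat_lit 7) (nat_lit 266) (nat_lit 293) r6_266 r12_293 (nat_lit 0) (nat_lit 0) (nat_lit 0) (nat_lit 0x86d9d99ec) (nat_lit 963003824),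
  Rx.mk (nat_lit 443) (nat_lit 3) (nat_lit 7) (nat_lit 6) (nat_lit 7) (nat_lit 267) (nat_lit 289) r6_267 r12_289 (nat_lit 0) (nat_lit 0) (nat_lit 0) (nat_lit 0x878d6f6dc) (nat_lit 951659124),
  Rx.mk (nat_lit 454) (nat_lit 6) (nat_lit 0) (nat_lit 7) (nat_lit 5) (nat_lit 268) (nat_lit 297) r6_268 r12_297 (nat_lit 0) (nat_lit 25761) (nat_lit 0) (nat_lit 0x7e6206ba2) (nat_lit 1100737685),
  Rx.mk (nat_lit 474) (nat_lit 2) (nat_lit 3) (nat_lit 7) (nat_lit 7) (nat_lit 275) (nat_lit 291) r6_275 r12_291 (nat_lit 0) (nat_lit 0) (nat_lit 0) (nat_lit 0x800027d6c) (nat_lit 1073758024),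
  Rx.mk (nat_lit 478) (nat_lit 6) (nat_lit 3) (nat_lit 7) (nat_lit 7) (nat_lit 274) (nat_lit 298) r6_274 r12_298 (nat_lit 0) (nat_lit 0) (nat_lit 0) (nat_lit 0x800027d6c) (nat_lit 1073758024)]
noncomputable def e35_37 : List Rx := [
  Rx.mk (nat_lit 176) (nat_lit 0) (nat_lit 6) (nat_lit 2) (nat_lit 6) (nat_lit 105) (nat_lit 231) r6_105 r0_231 (nat_lit 1581921) (nat_lit 0) (nat_lit 0) (nat_lit 0x7e87497a2) (nat_lit 1099940645),
  Rx.mk (nat_lit 290) (nat_lit 2) (nat_lit 4) (nat_lit 4) (nat_lit 1) (nat_lit 98) (nat_lit 232) r6_98 r0_232 (nat_lit 0) (nat_lit 56818) (nat_lit 73687) (nat_lit 0x686f2bb72) (nat_lit 1466800329),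
  Rx.mk (nat_lit 298) (nat_lit 2) (nat_lit 5) (nat_lit 4) (nat_lit 3) (nat_lit 101) (nat_lit 233) r6_101 r0_233 (nat_lit 0) (nat_lit 0) (nat_lit 94559) (nat_lit 0x9073beac2) (nat_lit 807812083),
  Rx.mk (nat_lit 416) (nat_lit 0) (nat_lit 4) (nat_lit 6) (nat_lit 4) (nat_lit 99) (nat_lit 228) r6_99 r0_228 (nat_lit 21155) (nat_lit 21443) (nat_lit 0) (nat_lit 0x655f25c44) (nat_lit 1517763922),
  Rx.mk (nat_lit 418) (nat_lit 2) (nat_lit 4) (nat_lit 6) (nat_lit 5) (nat_lit 100) (nat_lit 234) r6_100 r0_234 (nat_lit 0) (nat_lit 2085900) (nat_lit 0) (nat_lit 0x80175fe9e) (nat_lit 1074492124),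
  Rx.mk (nat_lit 424) (nat_lit 0) (nat_lit 5) (nat_lit 6) (nat_lit 6) (nat_lit 102) (nat_lit 229) r6_102 r0_229 (nat_lit 473428) (nat_lit 0) (nat_lit 0) (nat_lit 0x8f3b0df94) (nat_lit 827965152),
  Rx.mk (nat_lit 426) (nat_lit 2) (nat_lit 5) (nat_lit 6) (nat_lit 7) (nat_lit 103) (nat_lit 235) r6_103 r0_235 (nat_lit 0) (nat_lit 0) (nat_lit 0) (nat_lit 0x90cc616de) (nat_lit 802175124),
  Rx.mk (nat_lit 432) (nat_lit 0) (nat_lit 6) (nat_lit 6) (nat_lit 6) (nat_lit 104) (nat_lit 230) r6_104 r0_230 (nat_lit 2346346) (nat_lit 0) (nat_lit 0) (nat_lit 0x7a9228b7c) (nat_lit 1166687270)]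
noncomputable def e35_38 : List Rx := [
  Rx.mk (nat_lit 176) (nat_lit 0) (nat_lit 6) (nat_lit 2) (nat_lit 6) (nat_lit 5) (nat_lit 85) r6_5 r0_85 (nat_lit 726571) (nat_lit 0) (nat_lit 0) (nat_lit 0x8053e60c0) (nat_lit 1069259595),
  Rx.mk (nat_lit 177) (nat_lit 1) (nat_lit 6) (nat_lit 2) (nat_lit 7) (nat_lit 6) (nat_lit 86) r6_6 r0_86 (nat_lit 0) (nat_lit 0) (nat_lit 0) (nat_lit 0x95d9fc690) (nat_lit 720454924),
  Rx.mk (nat_lit 416) (nat_lit 0) (nat_lit 4) (nat_lit 6) (nat_lit 4) (nat_lit 0) (nat_lit 82) r6_0 r0_82 (nat_lit 191551) (nat_lit 287545) (nat_lit 0) (nat_lit 0x5ae6ab8ae) (nat_lit 1692810020),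
  Rx.mk (nat_lit 417) (nat_lit 1) (nat_lit 4) (nat_lit 6) (nat_lit 5) (nat_lit 1) (nat_lit 83) r6_1 r0_83 (nat_lit 0) (nat_lit 3246351) (nat_lit 0) (nat_lit 0x7f1f1dac4) (nat_lit 1091721275),
  Rx.mk (nat_lit 418) (nat_lit 2) (nat_lit 4) (nat_lit 6) (nat_lit 5) (nat_lit 2) (nat_lit 84) r6_2 r0_84 (nat_lit 0) (nat_lit 1684651) (nat_lit 0) (nat_lit 0x7dfbf60f6) (nat_lit 1109116275),
  Rx.mk (nat_lit 432) (nat_lit 0) (nat_lit 6) (nat_lit 6) (nat_lit 6) (nat_lit 3) (nat_lit 87) r6_3 r0_87 (nat_lit 1891802) (nat_lit 0) (nat_lit 0) (nat_lit 0x7e43297ac) (nat_lit 1104700826),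
  Rx.mk (nat_lit 433) (nat_lit 1) (nat_lit 6) (nat_lit 6) (nat_lit 7) (nat_lit 4) (nat_lit 88) r6_4 r0_88 (nat_lit 0) (nat_lit 0) (nat_lit 0) (nat_lit 0x823b44524) (nat_lit 1037739424)]
noncomputable def e35_39 : List Rx := [
  Rx.mk (nat_lit 176) (nat_lit 0) (nat_lit 6) (nat_lit 2) (nat_lit 6) (nat_lit 114) (nat_lit 296) r6_114 r7_296 (nat_lit 1281739) (nat_lit 0) (nat_lit 0) (nat_lit 0x8015d28a6) (nat_lit 1073788363),
  Rx.mk (nat_lit 177) (nat_lit 1) (nat_lit 6) (nat_lit 2) (nat_lit 7) (nat_lit 115) (nat_lit 300) r6_115 r7_300 (nat_lit 0) (nat_lit 0) (nat_lit 0) (nat_lit 0x80f0600f4) (nat_lit 1058649324),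
  Rx.mk (nat_lit 416) (nat_lit 0) (nat_lit 4) (nat_lit 6) (nat_lit 4) (nat_lit 106) (nat_lit 293) r6_106 r7_293 (nat_lit 264914) (nat_lit 277079) (nat_lit 0) (nat_lit 0x6d02a6830) (nat_lit 1390940117),
  Rx.mk (nat_lit 417) (nat_lit 1) (nat_lit 4) (nat_lit 6) (nat_lit 5) (nat_lit 107) (nat_lit 297) r6_107 r7_297 (nat_lit 0) (nat_lit 2237591) (nat_lit 0) (nat_lit 0x8056375b8) (nat_lit 1070643615),
  Rx.mk (nat_lit 418) (nat_lit 2) (nat_lit 4) (nat_lit 6) (nat_lit 5) (nat_lit 108) (nat_lit 301) r6_108 r7_301 (nat_lit 0) (nat_lit 1598900) (nat_lit 0) (nat_lit 0x80a515d4c) (nat_lit 1065015624),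
  Rx.mk (nat_lit 424) (nat_lit 0) (nat_lit 5) (nat_lit 6) (nat_lit 6) (nat_lit 109) (nat_lit 294) r6_109 r7_294 (nat_lit 1891092) (nat_lit 0) (nat_lit 0) (nat_lit 0x8064b8aba) (nat_lit 1069380816),
  Rx.mk (nat_lit 425) (nat_lit 1) (nat_lit 5) (nat_lit 6) (nat_lit 7) (nat_lit 110) (nat_lit 298) r6_110 r7_298 (nat_lit 0) (nat_lit 0) (nat_lit 0) (nat_lit 0x804959148) (nat_lit 1069226624),
  Rx.mk (nat_lit 426) (nat_lit 2) (nat_lit 5) (nat_lit 6) (nat_lit 7) (nat_lit 111) (nat_lit 302) r6_111 r7_302 (nat_lit 0) (nat_lit 0) (nat_lit 0) (nat_lit 0x80aedf3b4) (nat_lit 1062792024),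
  Rx.mk (nat_lit 432) (nat_lit 0) (nat_lit 6) (nat_lit 6) (nat_lit 6) (nat_lit 112) (nat_lit 295) r6_112 r7_295 (nat_lit 5719758) (nat_lit 0) (nat_lit 0) (nat_lit 0x7fc989026) (nat_lit 1083137982),
  Rx.mk (nat_lit 433) (nat_lit 1) (nat_lit 6) (nat_lit 6) (nat_lit 7) (nat_lit 113) (nat_lit 299) r6_113 r7_299 (nat_lit 0) (nat_lit 0) (nat_lit 0) (nat_lit 0x80029938e) (nat_lit 1073741824)]
noncomputable def e35_40 : List Rx := [
  Rx.mk (nat_lit 177) (nat_lit 1) (nat_lit 6) (nat_lit 2) (nat_lit 7) (nat_lit 11) (nat_lit 94) r6_11 r2_94 (nat_lit 0) (nat_lit 0) (nat_lit 0) (nat_lit 0x80029938e) (nat_lit 1073741824),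
  Rx.mk (nat_lit 181) (nat_lit 5) (nat_lit 6) (nat_lit 2) (nat_lit 7) (nat_lit 10) (nat_lit 95) r6_10 r2_95 (nat_lit 0) (nat_lit 0) (nat_lit 0) (nat_lit 0x80029938e) (nat_lit 1073741824)]
noncomputable def e35_41 : List Rx := [
  Rx.mk (nat_lit 177) (nat_lit 1) (nat_lit 6) (nat_lit 2) (nat_lit 7) (nat_lit 127) (nat_lit 61) r6_127 r9_61 (nat_lit 0) (nat_lit 0) (nat_lit 0) (nat_lit 0x80029938e) (nat_lit 1073741824),
  Rx.mk (nat_lit 181) (nat_lit 5) (nat_lit 6) (nat_lit 2) (nat_lit 7) (nat_lit 126) (nat_lit 62) r6_126 r9_62 (nat_lit 0) (nat_lit 0) (nat_lit 0) (nat_lit 0x80029938e) (nat_lit 1073741824)]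
noncomputable def e35_42 : List Rx := [
  Rx.mk (nat_lit 177) (nat_lit 1) (nat_lit 6) (nat_lit 2) (nat_lit 7) (nat_lit 169) (nat_lit 62) r6_169 r9_62 (nat_lit 0) (nat_lit 0) (nat_lit 0) (nat_lit 0x80029938e) (nat_lit 1073741824),
  Rx.mk (nat_lit 181) (nat_lit 5) (nat_lit 6) (nat_lit 2) (nat_lit 7) (nat_lit 168) (nat_lit 61) r6_168 r9_61 (nat_lit 0) (nat_lit 0) (nat_lit 0) (nat_lit 0x80029938e) (nat_lit 1073741824)]
noncomputable def e35_43 : List Rx := [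
  Rx.mk (nat_lit 177) (nat_lit 1) (nat_lit 6) (nat_lit 2) (nat_lit 7) (nat_lit 9) (nat_lit 89) r6_9 r1_89 (nat_lit 0) (nat_lit 0) (nat_lit 0) (nat_lit 0x997d38914) (nat_lit 661632824),
  Rx.mk (nat_lit 417) (nat_lit 1) (nat_lit 4) (nat_lit 6) (nat_lit 5) (nat_lit 7) (nat_lit 88) r6_7 r1_88 (nat_lit 0) (nat_lit 2919225) (nat_lit 0) (nat_lit 0x8031e1df8) (nat_lit 1073634549),
  Rx.mk (nat_lit 433) (nat_lit 1) (nat_lit 6) (nat_lit 6) (nat_lit 7) (nat_lit 8) (nat_lit 90) r6_8 r1_90 (nat_lit 0) (nat_lit 0) (nat_lit 0) (nat_lit 0x80844da2e) (nat_lit 1065486024)]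
noncomputable def e35_44 : List Rx := [
  Rx.mk (nat_lit 177) (nat_lit 1) (nat_lit 6) (nat_lit 2) (nat_lit 7) (nat_lit 125) (nat_lit 224) r6_125 r8_224 (nat_lit 0) (nat_lit 0) (nat_lit 0) (nat_lit 0x8065dab1e) (nat_lit 1067416324),
  Rx.mk (nat_lit 417) (nat_lit 1) (nat_lit 4) (nat_lit 6) (nat_lit 5) (nat_lit 122) (nat_lit 221) r6_122 r8_221 (nat_lit 0) (nat_lit 5449534) (nat_lit 0) (nat_lit 0x80029938e) (nat_lit 1079191358),
  Rx.mk (nat_lit 425) (nat_lit 1) (nat_lit 5) (nat_lit 6) (nat_lit 7) (nat_lit 123) (nat_lit 222) r6_123 r8_222 (nat_lit 0) (nat_lit 0) (nat_lit 0) (nat_lit 0x80029938e) (nat_lit 1073741824),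
  Rx.mk (nat_lit 433) (nat_lit 1) (nat_lit 6) (nat_lit 6) (nat_lit 7) (nat_lit 124) (nat_lit 223) r6_124 r8_223 (nat_lit 0) (nat_lit 0) (nat_lit 0) (nat_lit 0x80029938e) (nat_lit 1073741824)]
noncomputable def e35_45 : List Rx := [
  Rx.mk (nat_lit 298) (nat_lit 2) (nat_lit 5) (nat_lit 4) (nat_lit 3) (nat_lit 116) (nat_lit 247) r6_116 r1_247 (nat_lit 0) (nat_lit 0) (nat_lit 376415) (nat_lit 0x86cc62d18) (nat_lit 964233239),
  Rx.mk (nat_lit 424) (nat_lit 0) (nat_lit 5) (nat_lit 6) (nat_lit 6) (nat_lit 117) (nat_lit 246) r6_117 r1_246 (nat_lit 1035266) (nat_lit 0) (nat_lit 0) (nat_lit 0x8401ef04c) (nat_lit 1010034890),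
  Rx.mk (nat_lit 426) (nat_lit 2) (nat_lit 5) (nat_lit 6) (nat_lit 7) (nat_lit 118) (nat_lit 248) r6_118 r1_248 (nat_lit 0) (nat_lit 0) (nat_lit 0) (nat_lit 0x8fcfe0ed2) (nat_lit 818127624)]
noncomputable def e35_46 : List Rx := [
  Rx.mk (nat_lit 266) (nat_lit 2) (nat_lit 1) (nat_lit 4) (nat_lit 3) (nat_lit 289) (nat_lit 270) r6_289 r2_270 (nat_lit 0) (nat_lit 0) (nat_lit 7559055) (nat_lit 0x7fe1044e4) (nat_lit 1083462579),
  Rx.mk (nat_lit 298) (nat_lit 2) (nat_lit 5) (nat_lit 4) (nat_lit 3) (nat_lit 286) (nat_lit 269) r6_286 r2_269 (nat_lit 0) (nat_lit 0) (nat_lit 5695451) (nat_lit 0x7fda6cc12) (nat_lit 1082026575),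
  Rx.mk (nat_lit 424) (nat_lit 0) (nat_lit 5) (nat_lit 6) (nat_lit 6) (nat_lit 287) (nat_lit 268) r6_287 r2_268 (nat_lit 16748008) (nat_lit 0) (nat_lit 0) (nat_lit 0x7f8b4521a) (nat_lit 1098207132),
  Rx.mk (nat_lit 426) (nat_lit 2) (nat_lit 5) (nat_lit 6) (nat_lit 7) (nat_lit 288) (nat_lit 271) r6_288 r2_271 (nat_lit 0) (nat_lit 0) (nat_lit 0) (nat_lit 0x80029938e) (nat_lit 1073741824)]
noncomputable def e35_47 : List Rx := [
  Rx.mk (nat_lit 424) (nat_lit 0) (nat_lit 5) (nat_lit 6) (nat_lit 6) (nat_lit 119) (nat_lit 71) r6_119 r8_71 (nat_lit 1883603) (nat_lit 0) (nat_lit 0) (nat_lit 0x8036af1e6) (nat_lit 1072289527),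
  Rx.mk (nat_lit 425) (nat_lit 1) (nat_lit 5) (nat_lit 6) (nat_lit 7) (nat_lit 120) (nat_lit 72) r6_120 r8_72 (nat_lit 0) (nat_lit 0) (nat_lit 0) (nat_lit 0x8037bf9e6) (nat_lit 1070345324),
  Rx.mk (nat_lit 426) (nat_lit 2) (nat_lit 5) (nat_lit 6) (nat_lit 7) (nat_lit 121) (nat_lit 73) r6_121 r8_73 (nat_lit 0) (nat_lit 0) (nat_lit 0) (nat_lit 0x804b0c5b2) (nat_lit 1069117724)]
noncomputable def e35_48 : List Rx := [
  Rx.mk (nat_lit 424) (nat_lit 0) (nat_lit 5) (nat_lit 6) (nat_lit 6) (nat_lit 295) (nat_lit 241) r6_295 r9_241 (nat_lit 6014731) (nat_lit 0) (nat_lit 0) (nat_lit 0x7fa23117c) (nat_lit 1085990655),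
  Rx.mk (nat_lit 425) (nat_lit 1) (nat_lit 5) (nat_lit 6) (nat_lit 7) (nat_lit 296) (nat_lit 242) r6_296 r9_242 (nat_lit 0) (nat_lit 0) (nat_lit 0) (nat_lit 0x80029938e) (nat_lit 1073741824),
  Rx.mk (nat_lit 426) (nat_lit 2) (nat_lit 5) (nat_lit 6) (nat_lit 7) (nat_lit 297) (nat_lit 243) r6_297 r9_243 (nat_lit 0) (nat_lit 0) (nat_lit 0) (nat_lit 0x80029938e) (nat_lit 1073741824)]
noncomputable def e35_49 : List Rx := [
  Rx.mk (nat_lit 266) (nat_lit 2) (nat_lit 1) (nat_lit 4) (nat_lit 3) (nat_lit 293) (nat_lit 219) r6_293 r9_219 (nat_lit 0) (nat_lit 0) (nat_lit 5449534) (nat_lit 0x7ff84509a) (nat_lit 1079854658),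
  Rx.mk (nat_lit 298) (nat_lit 2) (nat_lit 5) (nat_lit 4) (nat_lit 3) (nat_lit 290) (nat_lit 220) r6_290 r9_220 (nat_lit 0) (nat_lit 0) (nat_lit 6723610) (nat_lit 0x7fa202926) (nat_lit 1086714034),
  Rx.mk (nat_lit 330) (nat_lit 2) (nat_lit 1) (nat_lit 5) (nat_lit 7) (nat_lit 294) (nat_lit 221) r6_294 r9_221 (nat_lit 0) (nat_lit 0) (nat_lit 0) (nat_lit 0x80029938e) (nat_lit 1073741824),
  Rx.mk (nat_lit 362) (nat_lit 2) (nat_lit 5) (nat_lit 5) (nat_lit 7) (nat_lit 291) (nat_lit 222) r6_291 r9_222 (nat_lit 0) (nat_lit 0) (nat_lit 0) (nat_lit 0x80029938e) (nat_lit 1073741824),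
  Rx.mk (nat_lit 426) (nat_lit 2) (nat_lit 5) (nat_lit 6) (nat_lit 7) (nat_lit 292) (nat_lit 223) r6_292 r9_223 (nat_lit 0) (nat_lit 0) (nat_lit 0) (nat_lit 0x80029938e) (nat_lit 1073741824)]
noncomputable def e35_50 : List Rx := [
  Rx.mk (nat_lit 176) (nat_lit 0) (nat_lit 6) (nat_lit 2) (nat_lit 6) (nat_lit 15) (nat_lit 230) r6_15 r3_230 (nat_lit 59620) (nat_lit 0) (nat_lit 0) (nat_lit 0x7fefbb2da) (nat_lit 1074882044),
  Rx.mk (nat_lit 179) (nat_lit 3) (nat_lit 6) (nat_lit 2) (nat_lit 7) (nat_lit 16) (nat_lit 231) r6_16 r3_231 (nat_lit 0) (nat_lit 0) (nat_lit 0) (nat_lit 0x80161fbd8) (nat_lit 1072436524),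
  Rx.mk (nat_lit 314) (nat_lit 2) (nat_lit 7) (nat_lit 4) (nat_lit 3) (nat_lit 17) (nat_lit 232) r6_17 r3_232 (nat_lit 0) (nat_lit 0) (nat_lit 68827) (nat_lit 0x7d81ad2b8) (nat_lit 1115392751),
  Rx.mk (nat_lit 416) (nat_lit 0) (nat_lit 4) (nat_lit 6) (nat_lit 4) (nat_lit 12) (nat_lit 227) r6_12 r3_227 (nat_lit 536) (nat_lit 636) (nat_lit 0) (nat_lit 0x7ffffbb7c) (nat_lit 1073744396),
  Rx.mk (nat_lit 418) (nat_lit 2) (nat_lit 4) (nat_lit 6) (nat_lit 5) (nat_lit 13) (nat_lit 233) r6_13 r3_233 (nat_lit 0) (nat_lit 349767) (nat_lit 0) (nat_lit 0x7dc28a740) (nat_lit 1111486291),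
  Rx.mk (nat_lit 432) (nat_lit 0) (nat_lit 6) (nat_lit 6) (nat_lit 6) (nat_lit 14) (nat_lit 229) r6_14 r3_229 (nat_lit 106827) (nat_lit 0) (nat_lit 0) (nat_lit 0x7fdfdb806) (nat_lit 1075972951),
  Rx.mk (nat_lit 440) (nat_lit 0) (nat_lit 7) (nat_lit 6) (nat_lit 6) (nat_lit 18) (nat_lit 228) r6_18 r3_228 (nat_lit 37171) (nat_lit 0) (nat_lit 0) (nat_lit 0x7f1a6eae6) (nat_lit 1088745295),
  Rx.mk (nat_lit 442) (nat_lit 2) (nat_lit 7) (nat_lit 6) (nat_lit 7) (nat_lit 19) (nat_lit 234) r6_19 r3_234 (nat_lit 0) (nat_lit 0) (nat_lit 0) (nat_lit 0x8bee0d6f2) (nat_lit 880897024)]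
noncomputable def e35_51 : List Rx := [
  Rx.mk (nat_lit 176) (nat_lit 0) (nat_lit 6) (nat_lit 2) (nat_lit 6) (nat_lit 135) (nat_lit 233) r6_135 r4_233 (nat_lit 2519210) (nat_lit 0) (nat_lit 0) (nat_lit 0x7ebf86994) (nat_lit 1097219834),
  Rx.mk (nat_lit 179) (nat_lit 3) (nat_lit 6) (nat_lit 2) (nat_lit 7) (nat_lit 136) (nat_lit 234) r6_136 r4_234 (nat_lit 0) (nat_lit 0) (nat_lit 0) (nat_lit 0x81261a06e) (nat_lit 1055268324),
  Rx.mk (nat_lit 290) (nat_lit 2) (nat_lit 4) (nat_lit 4) (nat_lit 1) (nat_lit 128) (nat_lit 235) r6_128 r4_235 (nat_lit 0) (nat_lit 6592) (nat_lit 9876) (nat_lit 0x73504ef82) (nat_lit 1285279692),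
  Rx.mk (nat_lit 298) (nat_lit 2) (nat_lit 5) (nat_lit 4) (nat_lit 3) (nat_lit 131) (nat_lit 236) r6_131 r4_236 (nat_lit 0) (nat_lit 0) (nat_lit 4043670) (nat_lit 0x8019d8c3e) (nat_lit 1076296794),
  Rx.mk (nat_lit 314) (nat_lit 2) (nat_lit 7) (nat_lit 4) (nat_lit 3) (nat_lit 137) (nat_lit 237) r6_137 r4_237 (nat_lit 0) (nat_lit 0) (nat_lit 1760727) (nat_lit 0x802b4e4aa) (nat_lit 1072885551),
  Rx.mk (nat_lit 416) (nat_lit 0) (nat_lit 4) (nat_lit 6) (nat_lit 4) (nat_lit 129) (nat_lit 229) r6_129 r4_229 (nat_lit 47711) (nat_lit 38237) (nat_lit 0) (nat_lit 0x718a177ac) (nat_lit 1314939572),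
  Rx.mk (nat_lit 418) (nat_lit 2) (nat_lit 4) (nat_lit 6) (nat_lit 5) (nat_lit 130) (nat_lit 238) r6_130 r4_238 (nat_lit 0) (nat_lit 1219035) (nat_lit 0) (nat_lit 0x80393948e) (nat_lit 1071457659),
  Rx.mk (nat_lit 424) (nat_lit 0) (nat_lit 5) (nat_lit 6) (nat_lit 6) (nat_lit 132) (nat_lit 230) r6_132 r4_230 (nat_lit 3192982) (nat_lit 0) (nat_lit 0) (nat_lit 0x803a9355a) (nat_lit 1073361906),
  Rx.mk (nat_lit 426) (nat_lit 2) (nat_lit 5) (nat_lit 6) (nat_lit 7) (nat_lit 133) (nat_lit 239) r6_133 r4_239 (nat_lit 0) (nat_lit 0) (nat_lit 0) (nat_lit 0x807785210) (nat_lit 1066297424),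
  Rx.mk (nat_lit 432) (nat_lit 0) (nat_lit 6) (nat_lit 6) (nat_lit 6) (nat_lit 134) (nat_lit 232) r6_134 r4_232 (nat_lit 2826148) (nat_lit 0) (nat_lit 0) (nat_lit 0x7ffa8010c) (nat_lit 1077083472),
  Rx.mk (nat_lit 440) (nat_lit 0) (nat_lit 7) (nat_lit 6) (nat_lit 6) (nat_lit 138) (nat_lit 231) r6_138 r4_231 (nat_lit 2840910) (nat_lit 0) (nat_lit 0) (nat_lit 0x804903392) (nat_lit 1072090734),
  Rx.mk (nat_lit 442) (nat_lit 2) (nat_lit 7) (nat_lit 6) (nat_lit 7) (nat_lit 139) (nat_lit 240) r6_139 r4_240 (nat_lit 0) (nat_lit 0) (nat_lit 0) (nat_lit 0x809a0fc90) (nat_lit 1064111224)]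
noncomputable def e35_52 : List Rx := [
  Rx.mk (nat_lit 314) (nat_lit 2) (nat_lit 7) (nat_lit 4) (nat_lit 3) (nat_lit 238) (nat_lit 243) r6_238 r5_243 (nat_lit 0) (nat_lit 0) (nat_lit 10459) (nat_lit 0x89d896974) (nat_lit 914535883),
  Rx.mk (nat_lit 440) (nat_lit 0) (nat_lit 7) (nat_lit 6) (nat_lit 6) (nat_lit 239) (nat_lit 242) r6_239 r5_242 (nat_lit 128360) (nat_lit 0) (nat_lit 0) (nat_lit 0x84cda1136) (nat_lit 996225984),
  Rx.mk (nat_lit 442) (nat_lit 2) (nat_lit 7) (nat_lit 6) (nat_lit 7) (nat_lit 240) (nat_lit 244) r6_240 r5_244 (nat_lit 0) (nat_lit 0) (nat_lit 0) (nat_lit 0x84e45cfce) (nat_lit 994704024)]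
noncomputable def e35_53 : List Rx := [
  Rx.mk (nat_lit 176) (nat_lit 0) (nat_lit 6) (nat_lit 2) (nat_lit 6) (nat_lit 25) (nat_lit 84) r6_25 r4_84 (nat_lit 882081) (nat_lit 0) (nat_lit 0) (nat_lit 0x802bbc932) (nat_lit 1071969705),
  Rx.mk (nat_lit 177) (nat_lit 1) (nat_lit 6) (nat_lit 2) (nat_lit 7) (nat_lit 26) (nat_lit 85) r6_26 r4_85 (nat_lit 0) (nat_lit 0) (nat_lit 0) (nat_lit 0x80900e8b8) (nat_lit 1064743624),
  Rx.mk (nat_lit 179) (nat_lit 3) (nat_lit 6) (nat_lit 2) (nat_lit 7) (nat_lit 27) (nat_lit 86) r6_27 r4_86 (nat_lit 0) (nat_lit 0) (nat_lit 0) (nat_lit 0x809f929ec) (nat_lit 1063761924),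
  Rx.mk (nat_lit 416) (nat_lit 0) (nat_lit 4) (nat_lit 6) (nat_lit 4) (nat_lit 20) (nat_lit 78) r6_20 r4_78 (nat_lit 458330) (nat_lit 618791) (nat_lit 0) (nat_lit 0x6b49c39f4) (nat_lit 1420200045),
  Rx.mk (nat_lit 417) (nat_lit 1) (nat_lit 4) (nat_lit 6) (nat_lit 5) (nat_lit 21) (nat_lit 79) r6_21 r4_79 (nat_lit 0) (nat_lit 2091838) (nat_lit 0) (nat_lit 0x8027fc3e2) (nat_lit 1073434162),
  Rx.mk (nat_lit 418) (nat_lit 2) (nat_lit 4) (nat_lit 6) (nat_lit 5) (nat_lit 22) (nat_lit 80) r6_22 r4_80 (nat_lit 0) (nat_lit 2733861) (nat_lit 0) (nat_lit 0x7eb79fd52) (nat_lit 1097952985),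
  Rx.mk (nat_lit 432) (nat_lit 0) (nat_lit 6) (nat_lit 6) (nat_lit 6) (nat_lit 23) (nat_lit 87) r6_23 r4_87 (nat_lit 1499729) (nat_lit 0) (nat_lit 0) (nat_lit 0x80082f4b0) (nat_lit 1074869353),
  Rx.mk (nat_lit 433) (nat_lit 1) (nat_lit 6) (nat_lit 6) (nat_lit 7) (nat_lit 24) (nat_lit 88) r6_24 r4_88 (nat_lit 0) (nat_lit 0) (nat_lit 0) (nat_lit 0x802e4a924) (nat_lit 1070947924),
  Rx.mk (nat_lit 440) (nat_lit 0) (nat_lit 7) (nat_lit 6) (nat_lit 6) (nat_lit 28) (nat_lit 81) r6_28 r4_81 (nat_lit 21394) (nat_lit 0) (nat_lit 0) (nat_lit 0x59eab61f2) (nat_lit 1708731518),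
  Rx.mk (nat_lit 441) (nat_lit 1) (nat_lit 7) (nat_lit 6) (nat_lit 7) (nat_lit 29) (nat_lit 82) r6_29 r4_82 (nat_lit 0) (nat_lit 0) (nat_lit 0) (nat_lit 0x802f01e94) (nat_lit 1070886824),
  Rx.mk (nat_lit 442) (nat_lit 2) (nat_lit 7) (nat_lit 6) (nat_lit 7) (nat_lit 30) (nat_lit 83) r6_30 r4_83 (nat_lit 0) (nat_lit 0) (nat_lit 0) (nat_lit 0x80040e246) (nat_lit 1073614524)]
noncomputable def e35_54 : List Rx := [
  Rx.mk (nat_lit 176) (nat_lit 0) (nat_lit 6) (nat_lit 2) (nat_lit 6) (nat_lit 147) (nat_lit 248) r6_147 r10_248 (nat_lit 1425998) (nat_lit 0) (nat_lit 0) (nat_lit 0x8011ef310) (nat_lit 1074173622),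
  Rx.mk (nat_lit 177) (nat_lit 1) (nat_lit 6) (nat_lit 2) (nat_lit 7) (nat_lit 148) (nat_lit 252) r6_148 r10_252 (nat_lit 0) (nat_lit 0) (nat_lit 0) (nat_lit 0x8099ba880) (nat_lit 1064130224),
  Rx.mk (nat_lit 179) (nat_lit 3) (nat_lit 6) (nat_lit 2) (nat_lit 7) (nat_lit 149) (nat_lit 253) r6_149 r10_253 (nat_lit 0) (nat_lit 0) (nat_lit 0) (nat_lit 0x8099ba880) (nat_lit 1064130224),
  Rx.mk (nat_lit 416) (nat_lit 0) (nat_lit 4) (nat_lit 6) (nat_lit 4) (nat_lit 140) (nat_lit 244) r6_140 r10_244 (nat_lit 325610) (nat_lit 315034) (nat_lit 0) (nat_lit 0x6c8871394) (nat_lit 1399003668),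
  Rx.mk (nat_lit 417) (nat_lit 1) (nat_lit 4) (nat_lit 6) (nat_lit 5) (nat_lit 141) (nat_lit 249) r6_141 r10_249 (nat_lit 0) (nat_lit 2919586) (nat_lit 0) (nat_lit 0x8040ec42e) (nat_lit 1072682510),
  Rx.mk (nat_lit 418) (nat_lit 2) (nat_lit 4) (nat_lit 6) (nat_lit 5) (nat_lit 142) (nat_lit 254) r6_142 r10_254 (nat_lit 0) (nat_lit 1567710) (nat_lit 0) (nat_lit 0x8053e18e0) (nat_lit 1070118234),
  Rx.mk (nat_lit 424) (nat_lit 0) (nat_lit 5) (nat_lit 6) (nat_lit 6) (nat_lit 143) (nat_lit 245) r6_143 r10_245 (nat_lit 2104035) (nat_lit 0) (nat_lit 0) (nat_lit 0x8089df83e) (nat_lit 1067238059),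
  Rx.mk (nat_lit 426) (nat_lit 2) (nat_lit 5) (nat_lit 6) (nat_lit 7) (nat_lit 144) (nat_lit 255) r6_144 r10_255 (nat_lit 0) (nat_lit 0) (nat_lit 0) (nat_lit 0x809b6df60) (nat_lit 1064022524),
  Rx.mk (nat_lit 432) (nat_lit 0) (nat_lit 6) (nat_lit 6) (nat_lit 6) (nat_lit 145) (nat_lit 247) r6_145 r10_247 (nat_lit 5449534) (nat_lit 0) (nat_lit 0) (nat_lit 0x7febd1840) (nat_lit 1080657058),
  Rx.mk (nat_lit 433) (nat_lit 1) (nat_lit 6) (nat_lit 6) (nat_lit 7) (nat_lit 146) (nat_lit 251) r6_146 r10_251 (nat_lit 0) (nat_lit 0) (nat_lit 0) (nat_lit 0x80029938e) (nat_lit 1073741824),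
  Rx.mk (nat_lit 440) (nat_lit 0) (nat_lit 7) (nat_lit 6) (nat_lit 6) (nat_lit 150) (nat_lit 246) r6_150 r10_246 (nat_lit 2104035) (nat_lit 0) (nat_lit 0) (nat_lit 0x8089df83e) (nat_lit 1067238059),
  Rx.mk (nat_lit 441) (nat_lit 1) (nat_lit 7) (nat_lit 6) (nat_lit 7) (nat_lit 151) (nat_lit 250) r6_151 r10_250 (nat_lit 0) (nat_lit 0) (nat_lit 0) (nat_lit 0x80192ccea) (nat_lit 1072297024),
  Rx.mk (nat_lit 442) (nat_lit 2) (nat_lit 7) (nat_lit 6) (nat_lit 7) (nat_lit 152) (nat_lit 256) r6_152 r10_256 (nat_lit 0) (nat_lit 0) (nat_lit 0) (nat_lit 0x809b6df60) (nat_lit 1064022524)]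
noncomputable def e35_55 : List Rx := [
  Rx.mk (nat_lit 440) (nat_lit 0) (nat_lit 7) (nat_lit 6) (nat_lit 6) (nat_lit 241) (nat_lit 284) r6_241 r11_284 (nat_lit 424298) (nat_lit 0) (nat_lit 0) (nat_lit 0x882e6edee) (nat_lit 941930922),
  Rx.mk (nat_lit 441) (nat_lit 1) (nat_lit 7) (nat_lit 6) (nat_lit 7) (nat_lit 242) (nat_lit 285) r6_242 r11_285 (nat_lit 0) (nat_lit 0) (nat_lit 0) (nat_lit 0xa352ba304) (nat_lit 502613624),
  Rx.mk (nat_lit 442) (nat_lit 2) (nat_lit 7) (nat_lit 6) (nat_lit 7) (nat_lit 243) (nat_lit 286) r6_243 r11_286 (nat_lit 0) (nat_lit 0) (nat_lit 0) (nat_lit 0x9a931abc8) (nat_lit 644086424)]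
noncomputable def e35_56 : List Rx := [
  Rx.mk (nat_lit 179) (nat_lit 3) (nat_lit 6) (nat_lit 2) (nat_lit 7) (nat_lit 36) (nat_lit 77) r6_36 r5_77 (nat_lit 0) (nat_lit 0) (nat_lit 0) (nat_lit 0x7d806d86c) (nat_lit 1115429524),
  Rx.mk (nat_lit 314) (nat_lit 2) (nat_lit 7) (nat_lit 4) (nat_lit 3) (nat_lit 37) (nat_lit 73) r6_37 r5_73 (nat_lit 0) (nat_lit 0) (nat_lit 826810) (nat_lit 0x802fe455a) (nat_lit 1071641334),
  Rx.mk (nat_lit 416) (nat_lit 0) (nat_lit 4) (nat_lit 6) (nat_lit 4) (nat_lit 31) (nat_lit 70) r6_31 r5_70 (nat_lit 16168) (nat_lit 22438) (nat_lit 0) (nat_lit 0x7a1c8609a) (nat_lit 1171966330),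
  Rx.mk (nat_lit 418) (nat_lit 2) (nat_lit 4) (nat_lit 6) (nat_lit 5) (nat_lit 32) (nat_lit 72) r6_32 r5_72 (nat_lit 0) (nat_lit 2825381) (nat_lit 0) (nat_lit 0x7fbf7b2aa) (nat_lit 1080886705),
  Rx.mk (nat_lit 419) (nat_lit 3) (nat_lit 4) (nat_lit 6) (nat_lit 5) (nat_lit 33) (nat_lit 71) r6_33 r5_71 (nat_lit 0) (nat_lit 1145575) (nat_lit 0) (nat_lit 0x81615e058) (nat_lit 1052648999),
  Rx.mk (nat_lit 432) (nat_lit 0) (nat_lit 6) (nat_lit 6) (nat_lit 6) (nat_lit 34) (nat_lit 78) r6_34 r5_78 (nat_lit 3813020) (nat_lit 0) (nat_lit 0) (nat_lit 0x7e7fe50b0) (nat_lit 1102664344),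
  Rx.mk (nat_lit 435) (nat_lit 3) (nat_lit 6) (nat_lit 6) (nat_lit 7) (nat_lit 35) (nat_lit 79) r6_35 r5_79 (nat_lit 0) (nat_lit 0) (nat_lit 0) (nat_lit 0x8019076ca) (nat_lit 1072298224),
  Rx.mk (nat_lit 440) (nat_lit 0) (nat_lit 7) (nat_lit 6) (nat_lit 6) (nat_lit 38) (nat_lit 75) r6_38 r5_75 (nat_lit 294333) (nat_lit 0) (nat_lit 0) (nat_lit 0x869783e6c) (nat_lit 967494857),
  Rx.mk (nat_lit 442) (nat_lit 2) (nat_lit 7) (nat_lit 6) (nat_lit 7) (nat_lit 39) (nat_lit 76) r6_39 r5_76 (nat_lit 0) (nat_lit 0) (nat_lit 0) (nat_lit 0x940158de4) (nat_lit 750318324),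
  Rx.mk (nat_lit 506) (nat_lit 2) (nat_lit 7) (nat_lit 7) (nat_lit 7) (nat_lit 40) (nat_lit 74) r6_40 r5_74 (nat_lit 0) (nat_lit 0) (nat_lit 0) (nat_lit 0x804ab9c7c) (nat_lit 1069132524)]
noncomputable def e35_57 : List Rx := [
  Rx.mk (nat_lit 179) (nat_lit 3) (nat_lit 6) (nat_lit 2) (nat_lit 7) (nat_lit 163) (nat_lit 65) r6_163 r11_65 (nat_lit 0) (nat_lit 0) (nat_lit 0) (nat_lit 0x95ec9a496) (nat_lit 719290124),
  Rx.mk (nat_lit 290) (nat_lit 2) (nat_lit 4) (nat_lit 4) (nat_lit 1) (nat_lit 153) (nat_lit 53) r6_153 r11_53 (nat_lit 0) (nat_lit 1282205) (nat_lit 2307781) (nat_lit 0x7934fd052) (nat_lit 1190670010),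
  Rx.mk (nat_lit 298) (nat_lit 2) (nat_lit 5) (nat_lit 4) (nat_lit 3) (nat_lit 157) (nat_lit 57) r6_157 r11_57 (nat_lit 0) (nat_lit 0) (nat_lit 5449534) (nat_lit 0x80029938e) (nat_lit 1079191358),
  Rx.mk (nat_lit 314) (nat_lit 2) (nat_lit 7) (nat_lit 4) (nat_lit 3) (nat_lit 164) (nat_lit 61) r6_164 r11_61 (nat_lit 0) (nat_lit 0) (nat_lit 3994773) (nat_lit 0x801c09594) (nat_lit 1076108397),
  Rx.mk (nat_lit 416) (nat_lit 0) (nat_lit 4) (nat_lit 6) (nat_lit 4) (nat_lit 154) (nat_lit 54) r6_154 r11_54 (nat_lit 1407149) (nat_lit 1343161) (nat_lit 0) (nat_lit 0x737e36fbc) (nat_lit 1285096534),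
  Rx.mk (nat_lit 418) (nat_lit 2) (nat_lit 4) (nat_lit 6) (nat_lit 5) (nat_lit 155) (nat_lit 56) r6_155 r11_56 (nat_lit 0) (nat_lit 1786259) (nat_lit 0) (nat_lit 0x808a883f8) (nat_lit 1066877983),
  Rx.mk (nat_lit 419) (nat_lit 3) (nat_lit 4) (nat_lit 6) (nat_lit 5) (nat_lit 156) (nat_lit 55) r6_156 r11_55 (nat_lit 0) (nat_lit 2747444) (nat_lit 0) (nat_lit 0x803990784) (nat_lit 1072977968),
  Rx.mk (nat_lit 424) (nat_lit 0) (nat_lit 5) (nat_lit 6) (nat_lit 6) (nat_lit 158) (nat_lit 58) r6_158 r11_58 (nat_lit 4262738) (nat_lit 0) (nat_lit 0) (nat_lit 0x801570c46) (nat_lit 1076797662),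
  Rx.mk (nat_lit 426) (nat_lit 2) (nat_lit 5) (nat_lit 6) (nat_lit 7) (nat_lit 159) (nat_lit 60) r6_159 r11_60 (nat_lit 0) (nat_lit 0) (nat_lit 0) (nat_lit 0x80159ec7c) (nat_lit 1072523724),
  Rx.mk (nat_lit 427) (nat_lit 3) (nat_lit 5) (nat_lit 6) (nat_lit 7) (nat_lit 160) (nat_lit 59) r6_160 r11_59 (nat_lit 0) (nat_lit 0) (nat_lit 0) (nat_lit 0x80029938e) (nat_lit 1073741824),
  Rx.mk (nat_lit 432) (nat_lit 0) (nat_lit 6) (nat_lit 6) (nat_lit 6) (nat_lit 161) (nat_lit 66) r6_161 r11_66 (nat_lit 3928738) (nat_lit 0) (nat_lit 0) (nat_lit 0x80106e662) (nat_lit 1076782462),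
  Rx.mk (nat_lit 435) (nat_lit 3) (nat_lit 6) (nat_lit 6) (nat_lit 7) (nat_lit 162) (nat_lit 67) r6_162 r11_67 (nat_lit 0) (nat_lit 0) (nat_lit 0) (nat_lit 0x801118d6a) (nat_lit 1072812524),
  Rx.mk (nat_lit 440) (nat_lit 0) (nat_lit 7) (nat_lit 6) (nat_lit 6) (nat_lit 165) (nat_lit 63) r6_165 r11_63 (nat_lit 3738478) (nat_lit 0) (nat_lit 0) (nat_lit 0x8024ee42a) (nat_lit 1075285302),
  Rx.mk (nat_lit 442) (nat_lit 2) (nat_lit 7) (nat_lit 6) (nat_lit 7) (nat_lit 166) (nat_lit 64) r6_166 r11_64 (nat_lit 0) (nat_lit 0) (nat_lit 0) (nat_lit 0x80159ec7c) (nat_lit 1072523724),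
  Rx.mk (nat_lit 506) (nat_lit 2) (nat_lit 7) (nat_lit 7) (nat_lit 7) (nat_lit 167) (nat_lit 62) r6_167 r11_62 (nat_lit 0) (nat_lit 0) (nat_lit 0) (nat_lit 0x800b91806) (nat_lit 1073166724)]
noncomputable def e35 : List (List Rx) := [e35_0, e35_1, e35_2, e35_3, e35_4, e35_5, e35_6, e35_7, e35_8, e35_9, e35_10, e35_11, e35_12, e35_13, e35_14, e35_15, e35_16, e35_17, e35_18, e35_19, e35_20, e35_21, e35_22, e35_23, e35_24, e35_25, e35_26, e35_27, e35_28, e35_29, e35_30, e35_31, e35_32, e35_33, e35_34, e35_35, e35_36, e35_37, e35_38, e35_39, e35_40, e35_41, e35_42, e35_43, e35_44, e35_45, e35_46, e35_47, e35_48, e35_49, e35_50, e35_51, e35_52, e35_53, e35_54, e35_55, e35_56, e35_57]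
noncomputable def e36_0 : List Rx := [
  Rx.mk (nat_lit 20) (nat_lit 4) (nat_lit 2) (nat_lit 0) (nat_lit 2) (nat_lit 3) (nat_lit 236) r12_3 r0_236 (nat_lit 23874) (nat_lit 0) (nat_lit 18804) (nat_lit 0x617c80900) (nat_lit 1582544202),
  Rx.mk (nat_lit 22) (nat_lit 6) (nat_lit 2) (nat_lit 0) (nat_lit 3) (nat_lit 5) (nat_lit 241) r12_5 r0_241 (nat_lit 0) (nat_lit 0) (nat_lit 805156) (nat_lit 0x806db6b8a) (nat_lit 1067709380),
  Rx.mk (nat_lit 52) (nat_lit 4) (nat_lit 6) (nat_lit 0) (nat_lit 2) (nat_lit 0) (nat_lit 238) r12_0 r0_238 (nat_lit 140974) (nat_lit 0) (nat_lit 98820) (nat_lit 0x5c7c4d794) (nat_lit 1666140718),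
  Rx.mk (nat_lit 84) (nat_lit 4) (nat_lit 2) (nat_lit 1) (nat_lit 6) (nat_lit 4) (nat_lit 237) r12_4 r0_237 (nat_lit 6092) (nat_lit 0) (nat_lit 0) (nat_lit 0x90e6c8a2c) (nat_lit 800438116),
  Rx.mk (nat_lit 86) (nat_lit 6) (nat_lit 2) (nat_lit 1) (nat_lit 7) (nat_lit 6) (nat_lit 242) r12_6 r0_242 (nat_lit 0) (nat_lit 0) (nat_lit 0) (nat_lit 0x9d314c5ce) (nat_lit 601741024),
  Rx.mk (nat_lit 116) (nat_lit 4) (nat_lit 6) (nat_lit 1) (nat_lit 6) (nat_lit 1) (nat_lit 239) r12_1 r0_239 (nat_lit 10492686) (nat_lit 0) (nat_lit 0) (nat_lit 0x7fa00c536) (nat_lit 1090533610),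
  Rx.mk (nat_lit 180) (nat_lit 4) (nat_lit 6) (nat_lit 2) (nat_lit 6) (nat_lit 2) (nat_lit 240) r12_2 r0_240 (nat_lit 1111496) (nat_lit 0) (nat_lit 0) (nat_lit 0x7447c7c00) (nat_lit 1270325320)]
noncomputable def e36_1 : List Rx := [
  Rx.mk (nat_lit 84) (nat_lit 4) (nat_lit 2) (nat_lit 1) (nat_lit 6) (nat_lit 8) (nat_lit 249) r12_8 r1_249 (nat_lit 13758) (nat_lit 0) (nat_lit 0) (nat_lit 0x8684d43de) (nat_lit 968343482),
  Rx.mk (nat_lit 86) (nat_lit 6) (nat_lit 2) (nat_lit 1) (nat_lit 7) (nat_lit 9) (nat_lit 251) r12_9 r1_251 (nat_lit 0) (nat_lit 0) (nat_lit 0) (nat_lit 0xa214ce410) (nat_lit 522685424),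
  Rx.mk (nat_lit 116) (nat_lit 4) (nat_lit 6) (nat_lit 1) (nat_lit 6) (nat_lit 7) (nat_lit 250) r12_7 r1_250 (nat_lit 8872160) (nat_lit 0) (nat_lit 0) (nat_lit 0x8188ce430) (nat_lit 1057873084)]
noncomputable def e36_2 : List Rx := [
  Rx.mk (nat_lit 84) (nat_lit 4) (nat_lit 2) (nat_lit 1) (nat_lit 6) (nat_lit 10) (nat_lit 272) r12_10 r2_272 (nat_lit 8928741) (nat_lit 0) (nat_lit 0) (nat_lit 0x7f2f5106c) (nat_lit 1096360565),
  Rx.mk (nat_lit 86) (nat_lit 6) (nat_lit 2) (nat_lit 1) (nat_lit 7) (nat_lit 13) (nat_lit 274) r12_13 r2_274 (nat_lit 0) (nat_lit 0) (nat_lit 0) (nat_lit 0x80029938e) (nat_lit 1073741824),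
  Rx.mk (nat_lit 326) (nat_lit 6) (nat_lit 0) (nat_lit 5) (nat_lit 5) (nat_lit 11) (nat_lit 273) r12_11 r2_273 (nat_lit 0) (nat_lit 8928741) (nat_lit 0) (nat_lit 0x7f2f5106c) (nat_lit 1096360565),
  Rx.mk (nat_lit 342) (nat_lit 6) (nat_lit 2) (nat_lit 5) (nat_lit 7) (nat_lit 12) (nat_lit 275) r12_12 r2_275 (nat_lit 0) (nat_lit 0) (nat_lit 0) (nat_lit 0x80029938e) (nat_lit 1073741824)]
noncomputable def e36_3 : List Rx := [
  Rx.mk (nat_lit 20) (nat_lit 4) (nat_lit 2) (nat_lit 0) (nat_lit 2) (nat_lit 16) (nat_lit 235) r12_16 r3_235 (nat_lit 499) (nat_lit 0) (nat_lit 544) (nat_lit 0x7fffd6b92) (nat_lit 1073753567),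
  Rx.mk (nat_lit 22) (nat_lit 6) (nat_lit 2) (nat_lit 0) (nat_lit 3) (nat_lit 18) (nat_lit 241) r12_18 r3_241 (nat_lit 0) (nat_lit 0) (nat_lit 30245) (nat_lit 0x7f0e9ecac) (nat_lit 1089499869),
  Rx.mk (nat_lit 52) (nat_lit 4) (nat_lit 6) (nat_lit 0) (nat_lit 2) (nat_lit 14) (nat_lit 237) r12_14 r3_237 (nat_lit 544) (nat_lit 0) (nat_lit 499) (nat_lit 0x7fffd6b92) (nat_lit 1073753567),
  Rx.mk (nat_lit 55) (nat_lit 7) (nat_lit 6) (nat_lit 0) (nat_lit 3) (nat_lit 20) (nat_lit 239) r12_20 r3_239 (nat_lit 0) (nat_lit 0) (nat_lit 12284) (nat_lit 0x8001debba) (nat_lit 1073642708),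
  Rx.mk (nat_lit 180) (nat_lit 4) (nat_lit 6) (nat_lit 2) (nat_lit 6) (nat_lit 15) (nat_lit 238) r12_15 r3_238 (nat_lit 30245) (nat_lit 0) (nat_lit 0) (nat_lit 0x7f0e9ecac) (nat_lit 1089499869),
  Rx.mk (nat_lit 183) (nat_lit 7) (nat_lit 6) (nat_lit 2) (nat_lit 7) (nat_lit 21) (nat_lit 240) r12_21 r3_240 (nat_lit 0) (nat_lit 0) (nat_lit 0) (nat_lit 0x80e37f114) (nat_lit 1059429124),
  Rx.mk (nat_lit 212) (nat_lit 4) (nat_lit 2) (nat_lit 3) (nat_lit 6) (nat_lit 17) (nat_lit 236) r12_17 r3_236 (nat_lit 12284) (nat_lit 0) (nat_lit 0) (nat_lit 0x8001debba) (nat_lit 1073642708),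
  Rx.mk (nat_lit 214) (nat_lit 6) (nat_lit 2) (nat_lit 3) (nat_lit 7) (nat_lit 19) (nat_lit 242) r12_19 r3_242 (nat_lit 0) (nat_lit 0) (nat_lit 0) (nat_lit 0x80e37f114) (nat_lit 1059429124)]
noncomputable def e36_4 : List Rx := [
  Rx.mk (nat_lit 20) (nat_lit 4) (nat_lit 2) (nat_lit 0) (nat_lit 2) (nat_lit 25) (nat_lit 241) r12_25 r4_241 (nat_lit 7512) (nat_lit 0) (nat_lit 4959) (nat_lit 0x740a9ac7e) (nat_lit 1273141595),
  Rx.mk (nat_lit 22) (nat_lit 6) (nat_lit 2) (nat_lit 0) (nat_lit 3) (nat_lit 28) (nat_lit 250) r12_28 r4_250 (nat_lit 0) (nat_lit 0) (nat_lit 634217) (nat_lit 0x80e08e356) (nat_lit 1060265941),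
  Rx.mk (nat_lit 52) (nat_lit 4) (nat_lit 6) (nat_lit 0) (nat_lit 2) (nat_lit 22) (nat_lit 244) r12_22 r4_244 (nat_lit 345777) (nat_lit 0) (nat_lit 92132) (nat_lit 0x669218308) (nat_lit 1498185533),
  Rx.mk (nat_lit 55) (nat_lit 7) (nat_lit 6) (nat_lit 0) (nat_lit 3) (nat_lit 31) (nat_lit 247) r12_31 r4_247 (nat_lit 0) (nat_lit 0) (nat_lit 27079) (nat_lit 0x4f6309a74) (nat_lit 1884305203),
  Rx.mk (nat_lit 84) (nat_lit 4) (nat_lit 2) (nat_lit 1) (nat_lit 6) (nat_lit 26) (nat_lit 242) r12_26 r4_242 (nat_lit 1474755) (nat_lit 0) (nat_lit 0) (nat_lit 0x7fc5e39c6) (nat_lit 1079117479),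
  Rx.mk (nat_lit 86) (nat_lit 6) (nat_lit 2) (nat_lit 1) (nat_lit 7) (nat_lit 29) (nat_lit 251) r12_29 r4_251 (nat_lit 0) (nat_lit 0) (nat_lit 0) (nat_lit 0x80e0ca86a) (nat_lit 1059635624),
  Rx.mk (nat_lit 116) (nat_lit 4) (nat_lit 6) (nat_lit 1) (nat_lit 6) (nat_lit 23) (nat_lit 245) r12_23 r4_245 (nat_lit 2731196) (nat_lit 0) (nat_lit 0) (nat_lit 0x7f937f28c) (nat_lit 1083641920),
  Rx.mk (nat_lit 119) (nat_lit 7) (nat_lit 6) (nat_lit 1) (nat_lit 7) (nat_lit 32) (nat_lit 248) r12_32 r4_248 (nat_lit 0) (nat_lit 0) (nat_lit 0) (nat_lit 0x7cc23aad4) (nat_lit 1127844724),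
  Rx.mk (nat_lit 180) (nat_lit 4) (nat_lit 6) (nat_lit 2) (nat_lit 6) (nat_lit 24) (nat_lit 246) r12_24 r4_246 (nat_lit 2418689) (nat_lit 0) (nat_lit 0) (nat_lit 0x799f9ba12) (nat_lit 1182552513),
  Rx.mk (nat_lit 183) (nat_lit 7) (nat_lit 6) (nat_lit 2) (nat_lit 7) (nat_lit 33) (nat_lit 249) r12_33 r4_249 (nat_lit 0) (nat_lit 0) (nat_lit 0) (nat_lit 0x789ee7f22) (nat_lit 1196826224),
  Rx.mk (nat_lit 212) (nat_lit 4) (nat_lit 2) (nat_lit 3) (nat_lit 6) (nat_lit 27) (nat_lit 243) r12_27 r4_243 (nat_lit 2620997) (nat_lit 0) (nat_lit 0) (nat_lit 0x805ae309e) (nat_lit 1070736421),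
  Rx.mk (nat_lit 214) (nat_lit 6) (nat_lit 2) (nat_lit 3) (nat_lit 7) (nat_lit 30) (nat_lit 252) r12_30 r4_252 (nat_lit 0) (nat_lit 0) (nat_lit 0) (nat_lit 0x80b8f660e) (nat_lit 1062154324)]
noncomputable def e36_5 : List Rx := [
  Rx.mk (nat_lit 52) (nat_lit 4) (nat_lit 6) (nat_lit 0) (nat_lit 2) (nat_lit 34) (nat_lit 246) r12_34 r5_246 (nat_lit 27932) (nat_lit 0) (nat_lit 20188) (nat_lit 0x7a72d005e) (nat_lit 1166357044),
  Rx.mk (nat_lit 55) (nat_lit 7) (nat_lit 6) (nat_lit 0) (nat_lit 3) (nat_lit 39) (nat_lit 249) r12_39 r5_249 (nat_lit 0) (nat_lit 0) (nat_lit 225577) (nat_lit 0x86c1ebf38) (nat_lit 964739301),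
  Rx.mk (nat_lit 180) (nat_lit 4) (nat_lit 6) (nat_lit 2) (nat_lit 6) (nat_lit 35) (nat_lit 248) r12_35 r5_248 (nat_lit 1388645) (nat_lit 0) (nat_lit 0) (nat_lit 0x7e512bfee) (nat_lit 1103271969),
  Rx.mk (nat_lit 183) (nat_lit 7) (nat_lit 6) (nat_lit 2) (nat_lit 7) (nat_lit 40) (nat_lit 250) r12_40 r5_250 (nat_lit 0) (nat_lit 0) (nat_lit 0) (nat_lit 0x99d4baab6) (nat_lit 656104224),
  Rx.mk (nat_lit 212) (nat_lit 4) (nat_lit 2) (nat_lit 3) (nat_lit 6) (nat_lit 37) (nat_lit 245) r12_37 r5_245 (nat_lit 17041) (nat_lit 0) (nat_lit 0) (nat_lit 0x8b003f3bc) (nat_lit 895869165),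
  Rx.mk (nat_lit 214) (nat_lit 6) (nat_lit 2) (nat_lit 3) (nat_lit 7) (nat_lit 38) (nat_lit 251) r12_38 r5_251 (nat_lit 0) (nat_lit 0) (nat_lit 0) (nat_lit 0x7ff59fdd6) (nat_lit 1074454124),
  Rx.mk (nat_lit 244) (nat_lit 4) (nat_lit 6) (nat_lit 3) (nat_lit 6) (nat_lit 36) (nat_lit 247) r12_36 r5_247 (nat_lit 745268) (nat_lit 0) (nat_lit 0) (nat_lit 0x8ddce6b6a) (nat_lit 850382092)]
noncomputable def e36_6 : List Rx := [
  Rx.mk (nat_lit 258) (nat_lit 2) (nat_lit 0) (nat_lit 4) (nat_lit 1) (nat_lit 45) (nat_lit 237) r12_45 r3_237 (nat_lit 0) (nat_lit 544) (nat_lit 499) (nat_lit 0x7fffd6b92) (nat_lit 1073753567),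
  Rx.mk (nat_lit 262) (nat_lit 6) (nat_lit 0) (nat_lit 4) (nat_lit 1) (nat_lit 41) (nat_lit 235) r12_41 r3_235 (nat_lit 0) (nat_lit 499) (nat_lit 544) (nat_lit 0x7fffd6b92) (nat_lit 1073753567),
  Rx.mk (nat_lit 278) (nat_lit 6) (nat_lit 2) (nat_lit 4) (nat_lit 3) (nat_lit 43) (nat_lit 241) r12_43 r3_241 (nat_lit 0) (nat_lit 0) (nat_lit 30245) (nat_lit 0x7f0e9ecac) (nat_lit 1089499869),
  Rx.mk (nat_lit 282) (nat_lit 2) (nat_lit 3) (nat_lit 4) (nat_lit 3) (nat_lit 47) (nat_lit 239) r12_47 r3_239 (nat_lit 0) (nat_lit 0) (nat_lit 12284) (nat_lit 0x8001debba) (nat_lit 1073642708),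
  Rx.mk (nat_lit 386) (nat_lit 2) (nat_lit 0) (nat_lit 6) (nat_lit 5) (nat_lit 46) (nat_lit 238) r12_46 r3_238 (nat_lit 0) (nat_lit 30245) (nat_lit 0) (nat_lit 0x7f0e9ecac) (nat_lit 1089499869),
  Rx.mk (nat_lit 410) (nat_lit 2) (nat_lit 3) (nat_lit 6) (nat_lit 7) (nat_lit 48) (nat_lit 240) r12_48 r3_240 (nat_lit 0) (nat_lit 0) (nat_lit 0) (nat_lit 0x80e37f114) (nat_lit 1059429124),
  Rx.mk (nat_lit 454) (nat_lit 6) (nat_lit 0) (nat_lit 7) (nat_lit 5) (nat_lit 42) (nat_lit 236) r12_42 r3_236 (nat_lit 0) (nat_lit 12284) (nat_lit 0) (nat_lit 0x8001debba) (nat_lit 1073642708),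
  Rx.mk (nat_lit 470) (nat_lit 6) (nat_lit 2) (nat_lit 7) (nat_lit 7) (nat_lit 44) (nat_lit 242) r12_44 r3_242 (nat_lit 0) (nat_lit 0) (nat_lit 0) (nat_lit 0x80e37f114) (nat_lit 1059429124)]
noncomputable def e36_7 : List Rx := [
  Rx.mk (nat_lit 258) (nat_lit 2) (nat_lit 0) (nat_lit 4) (nat_lit 1) (nat_lit 53) (nat_lit 238) r12_53 r0_238 (nat_lit 0) (nat_lit 140974) (nat_lit 98820) (nat_lit 0x5c7c4d794) (nat_lit 1666140718),
  Rx.mk (nat_lit 262) (nat_lit 6) (nat_lit 0) (nat_lit 4) (nat_lit 1) (nat_lit 49) (nat_lit 236) r12_49 r0_236 (nat_lit 0) (nat_lit 23874) (nat_lit 18804) (nat_lit 0x617c80900) (nat_lit 1582544202),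
  Rx.mk (nat_lit 278) (nat_lit 6) (nat_lit 2) (nat_lit 4) (nat_lit 3) (nat_lit 51) (nat_lit 241) r12_51 r0_241 (nat_lit 0) (nat_lit 0) (nat_lit 805156) (nat_lit 0x806db6b8a) (nat_lit 1067709380),
  Rx.mk (nat_lit 322) (nat_lit 2) (nat_lit 0) (nat_lit 5) (nat_lit 5) (nat_lit 54) (nat_lit 239) r12_54 r0_239 (nat_lit 0) (nat_lit 10492686) (nat_lit 0) (nat_lit 0x7fa00c536) (nat_lit 1090533610),
  Rx.mk (nat_lit 326) (nat_lit 6) (nat_lit 0) (nat_lit 5) (nat_lit 5) (nat_lit 50) (nat_lit 237) r12_50 r0_237 (nat_lit 0) (nat_lit 6092) (nat_lit 0) (nat_lit 0x90e6c8a2c) (nat_lit 800438116),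
  Rx.mk (nat_lit 342) (nat_lit 6) (nat_lit 2) (nat_lit 5) (nat_lit 7) (nat_lit 52) (nat_lit 242) r12_52 r0_242 (nat_lit 0) (nat_lit 0) (nat_lit 0) (nat_lit 0x9d314c5ce) (nat_lit 601741024),
  Rx.mk (nat_lit 386) (nat_lit 2) (nat_lit 0) (nat_lit 6) (nat_lit 5) (nat_lit 55) (nat_lit 240) r12_55 r0_240 (nat_lit 0) (nat_lit 1111496) (nat_lit 0) (nat_lit 0x7447c7c00) (nat_lit 1270325320)]
noncomputable def e36_8 : List Rx := [
  Rx.mk (nat_lit 322) (nat_lit 2) (nat_lit 0) (nat_lit 5) (nat_lit 5) (nat_lit 58) (nat_lit 250) r12_58 r1_250 (nat_lit 0) (nat_lit 8872160) (nat_lit 0) (nat_lit 0x8188ce430) (nat_lit 1057873084),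
  Rx.mk (nat_lit 326) (nat_lit 6) (nat_lit 0) (nat_lit 5) (nat_lit 5) (nat_lit 56) (nat_lit 249) r12_56 r1_249 (nat_lit 0) (nat_lit 13758) (nat_lit 0) (nat_lit 0x8684d43de) (nat_lit 968343482),
  Rx.mk (nat_lit 342) (nat_lit 6) (nat_lit 2) (nat_lit 5) (nat_lit 7) (nat_lit 57) (nat_lit 251) r12_57 r1_251 (nat_lit 0) (nat_lit 0) (nat_lit 0) (nat_lit 0xa214ce410) (nat_lit 522685424)]
noncomputable def e36_9 : List Rx := [
  Rx.mk (nat_lit 258) (nat_lit 2) (nat_lit 0) (nat_lit 4) (nat_lit 1) (nat_lit 65) (nat_lit 244) r12_65 r4_244 (nat_lit 0) (nat_lit 345777) (nat_lit 92132) (nat_lit 0x669218308) (nat_lit 1498185533),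
  Rx.mk (nat_lit 262) (nat_lit 6) (nat_lit 0) (nat_lit 4) (nat_lit 1) (nat_lit 59) (nat_lit 241) r12_59 r4_241 (nat_lit 0) (nat_lit 7512) (nat_lit 4959) (nat_lit 0x740a9ac7e) (nat_lit 1273141595),
  Rx.mk (nat_lit 278) (nat_lit 6) (nat_lit 2) (nat_lit 4) (nat_lit 3) (nat_lit 62) (nat_lit 250) r12_62 r4_250 (nat_lit 0) (nat_lit 0) (nat_lit 634217) (nat_lit 0x80e08e356) (nat_lit 1060265941),
  Rx.mk (nat_lit 282) (nat_lit 2) (nat_lit 3) (nat_lit 4) (nat_lit 3) (nat_lit 68) (nat_lit 247) r12_68 r4_247 (nat_lit 0) (nat_lit 0) (nat_lit 27079) (nat_lit 0x4f6309a74) (nat_lit 1884305203),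
  Rx.mk (nat_lit 322) (nat_lit 2) (nat_lit 0) (nat_lit 5) (nat_lit 5) (nat_lit 66) (nat_lit 245) r12_66 r4_245 (nat_lit 0) (nat_lit 2731196) (nat_lit 0) (nat_lit 0x7f937f28c) (nat_lit 1083641920),
  Rx.mk (nat_lit 326) (nat_lit 6) (nat_lit 0) (nat_lit 5) (nat_lit 5) (nat_lit 60) (nat_lit 242) r12_60 r4_242 (nat_lit 0) (nat_lit 1474755) (nat_lit 0) (nat_lit 0x7fc5e39c6) (nat_lit 1079117479),
  Rx.mk (nat_lit 342) (nat_lit 6) (nat_lit 2) (nat_lit 5) (nat_lit 7) (nat_lit 63) (nat_lit 251) r12_63 r4_251 (nat_lit 0) (nat_lit 0) (nat_lit 0) (nat_lit 0x80e0ca86a) (nat_lit 1059635624),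
  Rx.mk (nat_lit 346) (nat_lit 2) (nat_lit 3) (nat_lit 5) (nat_lit 7) (nat_lit 69) (nat_lit 248) r12_69 r4_248 (nat_lit 0) (nat_lit 0) (nat_lit 0) (nat_lit 0x7cc23aad4) (nat_lit 1127844724),
  Rx.mk (nat_lit 386) (nat_lit 2) (nat_lit 0) (nat_lit 6) (nat_lit 5) (nat_lit 67) (nat_lit 246) r12_67 r4_246 (nat_lit 0) (nat_lit 2418689) (nat_lit 0) (nat_lit 0x799f9ba12) (nat_lit 1182552513),
  Rx.mk (nat_lit 410) (nat_lit 2) (nat_lit 3) (nat_lit 6) (nat_lit 7) (nat_lit 70) (nat_lit 249) r12_70 r4_249 (nat_lit 0) (nat_lit 0) (nat_lit 0) (nat_lit 0x789ee7f22) (nat_lit 1196826224),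
  Rx.mk (nat_lit 454) (nat_lit 6) (nat_lit 0) (nat_lit 7) (nat_lit 5) (nat_lit 61) (nat_lit 243) r12_61 r4_243 (nat_lit 0) (nat_lit 2620997) (nat_lit 0) (nat_lit 0x805ae309e) (nat_lit 1070736421),
  Rx.mk (nat_lit 470) (nat_lit 6) (nat_lit 2) (nat_lit 7) (nat_lit 7) (nat_lit 64) (nat_lit 252) r12_64 r4_252 (nat_lit 0) (nat_lit 0) (nat_lit 0) (nat_lit 0x80b8f660e) (nat_lit 1062154324)]
noncomputable def e36_10 : List Rx := [
  Rx.mk (nat_lit 55) (nat_lit 7) (nat_lit 6) (nat_lit 0) (nat_lit 3) (nat_lit 76) (nat_lit 270) r12_76 r6_270 (nat_lit 0) (nat_lit 0) (nat_lit 103466) (nat_lit 0x7e7552e22) (nat_lit 1099579590),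
  Rx.mk (nat_lit 183) (nat_lit 7) (nat_lit 6) (nat_lit 2) (nat_lit 7) (nat_lit 77) (nat_lit 272) r12_77 r6_272 (nat_lit 0) (nat_lit 0) (nat_lit 0) (nat_lit 0x878d6f6dc) (nat_lit 951659124),
  Rx.mk (nat_lit 212) (nat_lit 4) (nat_lit 2) (nat_lit 3) (nat_lit 6) (nat_lit 72) (nat_lit 268) r12_72 r6_268 (nat_lit 25761) (nat_lit 0) (nat_lit 0) (nat_lit 0x7e6206ba2) (nat_lit 1100737685),
  Rx.mk (nat_lit 214) (nat_lit 6) (nat_lit 2) (nat_lit 3) (nat_lit 7) (nat_lit 75) (nat_lit 274) r12_75 r6_274 (nat_lit 0) (nat_lit 0) (nat_lit 0) (nat_lit 0x800027d6c) (nat_lit 1073758024),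
  Rx.mk (nat_lit 244) (nat_lit 4) (nat_lit 6) (nat_lit 3) (nat_lit 6) (nat_lit 71) (nat_lit 269) r12_71 r6_269 (nat_lit 77873) (nat_lit 0) (nat_lit 0) (nat_lit 0x7ef96640c) (nat_lit 1090946797),
  Rx.mk (nat_lit 247) (nat_lit 7) (nat_lit 6) (nat_lit 3) (nat_lit 7) (nat_lit 78) (nat_lit 271) r12_78 r6_271 (nat_lit 0) (nat_lit 0) (nat_lit 0) (nat_lit 0x86d9d99ec) (nat_lit 963003824),
  Rx.mk (nat_lit 282) (nat_lit 2) (nat_lit 3) (nat_lit 4) (nat_lit 3) (nat_lit 80) (nat_lit 265) r12_80 r6_265 (nat_lit 0) (nat_lit 0) (nat_lit 103466) (nat_lit 0x7e7552e22) (nat_lit 1099579590),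
  Rx.mk (nat_lit 410) (nat_lit 2) (nat_lit 3) (nat_lit 6) (nat_lit 7) (nat_lit 81) (nat_lit 267) r12_81 r6_267 (nat_lit 0) (nat_lit 0) (nat_lit 0) (nat_lit 0x878d6f6dc) (nat_lit 951659124),
  Rx.mk (nat_lit 450) (nat_lit 2) (nat_lit 0) (nat_lit 7) (nat_lit 5) (nat_lit 79) (nat_lit 264) r12_79 r6_264 (nat_lit 0) (nat_lit 77873) (nat_lit 0) (nat_lit 0x7ef96640c) (nat_lit 1090946797),
  Rx.mk (nat_lit 454) (nat_lit 6) (nat_lit 0) (nat_lit 7) (nat_lit 5) (nat_lit 73) (nat_lit 273) r12_73 r6_273 (nat_lit 0) (nat_lit 25761) (nat_lit 0) (nat_lit 0x7e6206ba2) (nat_lit 1100737685),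
  Rx.mk (nat_lit 470) (nat_lit 6) (nat_lit 2) (nat_lit 7) (nat_lit 7) (nat_lit 74) (nat_lit 275) r12_74 r6_275 (nat_lit 0) (nat_lit 0) (nat_lit 0) (nat_lit 0x800027d6c) (nat_lit 1073758024),
  Rx.mk (nat_lit 474) (nat_lit 2) (nat_lit 3) (nat_lit 7) (nat_lit 7) (nat_lit 82) (nat_lit 266) r12_82 r6_266 (nat_lit 0) (nat_lit 0) (nat_lit 0) (nat_lit 0x86d9d99ec) (nat_lit 963003824)]
noncomputable def e36_11 : List Rx := [
  Rx.mk (nat_lit 258) (nat_lit 2) (nat_lit 0) (nat_lit 4) (nat_lit 1) (nat_lit 85) (nat_lit 246) r12_85 r5_246 (nat_lit 0) (nat_lit 27932) (nat_lit 20188) (nat_lit 0x7a72d005e) (nat_lit 1166357044),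
  Rx.mk (nat_lit 282) (nat_lit 2) (nat_lit 3) (nat_lit 4) (nat_lit 3) (nat_lit 88) (nat_lit 249) r12_88 r5_249 (nat_lit 0) (nat_lit 0) (nat_lit 225577) (nat_lit 0x86c1ebf38) (nat_lit 964739301),
  Rx.mk (nat_lit 386) (nat_lit 2) (nat_lit 0) (nat_lit 6) (nat_lit 5) (nat_lit 86) (nat_lit 248) r12_86 r5_248 (nat_lit 0) (nat_lit 1388645) (nat_lit 0) (nat_lit 0x7e512bfee) (nat_lit 1103271969),
  Rx.mk (nat_lit 410) (nat_lit 2) (nat_lit 3) (nat_lit 6) (nat_lit 7) (nat_lit 89) (nat_lit 250) r12_89 r5_250 (nat_lit 0) (nat_lit 0) (nat_lit 0) (nat_lit 0x99d4baab6) (nat_lit 656104224),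
  Rx.mk (nat_lit 450) (nat_lit 2) (nat_lit 0) (nat_lit 7) (nat_lit 5) (nat_lit 87) (nat_lit 247) r12_87 r5_247 (nat_lit 0) (nat_lit 745268) (nat_lit 0) (nat_lit 0x8ddce6b6a) (nat_lit 850382092),
  Rx.mk (nat_lit 454) (nat_lit 6) (nat_lit 0) (nat_lit 7) (nat_lit 5) (nat_lit 83) (nat_lit 245) r12_83 r5_245 (nat_lit 0) (nat_lit 17041) (nat_lit 0) (nat_lit 0x8b003f3bc) (nat_lit 895869165),
  Rx.mk (nat_lit 470) (nat_lit 6) (nat_lit 2) (nat_lit 7) (nat_lit 7) (nat_lit 84) (nat_lit 251) r12_84 r5_251 (nat_lit 0) (nat_lit 0) (nat_lit 0) (nat_lit 0x7ff59fdd6) (nat_lit 1074454124)]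
noncomputable def e36_12 : List Rx := [
  Rx.mk (nat_lit 20) (nat_lit 4) (nat_lit 2) (nat_lit 0) (nat_lit 2) (nat_lit 92) (nat_lit 238) r12_92 r0_238 (nat_lit 98820) (nat_lit 0) (nat_lit 140974) (nat_lit 0x5c7c4d794) (nat_lit 1666140718),
  Rx.mk (nat_lit 21) (nat_lit 5) (nat_lit 2) (nat_lit 0) (nat_lit 3) (nat_lit 95) (nat_lit 239) r12_95 r0_239 (nat_lit 0) (nat_lit 0) (nat_lit 10492686) (nat_lit 0x7fa00c536) (nat_lit 1090533610),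
  Rx.mk (nat_lit 22) (nat_lit 6) (nat_lit 2) (nat_lit 0) (nat_lit 3) (nat_lit 96) (nat_lit 240) r12_96 r0_240 (nat_lit 0) (nat_lit 0) (nat_lit 1111496) (nat_lit 0x7447c7c00) (nat_lit 1270325320),
  Rx.mk (nat_lit 52) (nat_lit 4) (nat_lit 6) (nat_lit 0) (nat_lit 2) (nat_lit 90) (nat_lit 236) r12_90 r0_236 (nat_lit 18804) (nat_lit 0) (nat_lit 23874) (nat_lit 0x617c80900) (nat_lit 1582544202),
  Rx.mk (nat_lit 53) (nat_lit 5) (nat_lit 6) (nat_lit 0) (nat_lit 3) (nat_lit 93) (nat_lit 237) r12_93 r0_237 (nat_lit 0) (nat_lit 0) (nat_lit 6092) (nat_lit 0x90e6c8a2c) (nat_lit 800438116),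
  Rx.mk (nat_lit 180) (nat_lit 4) (nat_lit 6) (nat_lit 2) (nat_lit 6) (nat_lit 91) (nat_lit 241) r12_91 r0_241 (nat_lit 805156) (nat_lit 0) (nat_lit 0) (nat_lit 0x806db6b8a) (nat_lit 1067709380),
  Rx.mk (nat_lit 181) (nat_lit 5) (nat_lit 6) (nat_lit 2) (nat_lit 7) (nat_lit 94) (nat_lit 242) r12_94 r0_242 (nat_lit 0) (nat_lit 0) (nat_lit 0) (nat_lit 0x9d314c5ce) (nat_lit 601741024)]
noncomputable def e36_13 : List Rx := [
  Rx.mk (nat_lit 20) (nat_lit 4) (nat_lit 2) (nat_lit 0) (nat_lit 2) (nat_lit 100) (nat_lit 303) r12_100 r7_303 (nat_lit 146579) (nat_lit 0) (nat_lit 155548) (nat_lit 0x6d6500044) (nat_lit 1384285151),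
  Rx.mk (nat_lit 21) (nat_lit 5) (nat_lit 2) (nat_lit 0) (nat_lit 3) (nat_lit 105) (nat_lit 308) r12_105 r7_308 (nat_lit 0) (nat_lit 0) (nat_lit 1674776) (nat_lit 0x80296d58c) (nat_lit 1072913600),
  Rx.mk (nat_lit 22) (nat_lit 6) (nat_lit 2) (nat_lit 0) (nat_lit 3) (nat_lit 107) (nat_lit 313) r12_107 r7_313 (nat_lit 0) (nat_lit 0) (nat_lit 1048552) (nat_lit 0x8019d1236) (nat_lit 1073292576),
  Rx.mk (nat_lit 52) (nat_lit 4) (nat_lit 6) (nat_lit 0) (nat_lit 2) (nat_lit 97) (nat_lit 305) r12_97 r7_305 (nat_lit 155548) (nat_lit 0) (nat_lit 146579) (nat_lit 0x6d6500044) (nat_lit 1384285151),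
  Rx.mk (nat_lit 53) (nat_lit 5) (nat_lit 6) (nat_lit 0) (nat_lit 3) (nat_lit 102) (nat_lit 310) r12_102 r7_310 (nat_lit 0) (nat_lit 0) (nat_lit 1167101) (nat_lit 0x83e5cf1aa) (nat_lit 1011968725),
  Rx.mk (nat_lit 84) (nat_lit 4) (nat_lit 2) (nat_lit 1) (nat_lit 6) (nat_lit 101) (nat_lit 304) r12_101 r7_304 (nat_lit 1167101) (nat_lit 0) (nat_lit 0) (nat_lit 0x83e5cf1aa) (nat_lit 1011968725),
  Rx.mk (nat_lit 85) (nat_lit 5) (nat_lit 2) (nat_lit 1) (nat_lit 7) (nat_lit 106) (nat_lit 309) r12_106 r7_309 (nat_lit 0) (nat_lit 0) (nat_lit 0) (nat_lit 0x80fc0fe2c) (nat_lit 1057910624),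
  Rx.mk (nat_lit 86) (nat_lit 6) (nat_lit 2) (nat_lit 1) (nat_lit 7) (nat_lit 108) (nat_lit 314) r12_108 r7_314 (nat_lit 0) (nat_lit 0) (nat_lit 0) (nat_lit 0x8ba799e96) (nat_lit 885357024),
  Rx.mk (nat_lit 116) (nat_lit 4) (nat_lit 6) (nat_lit 1) (nat_lit 6) (nat_lit 98) (nat_lit 306) r12_98 r7_306 (nat_lit 1674776) (nat_lit 0) (nat_lit 0) (nat_lit 0x80296d58c) (nat_lit 1072913600),
  Rx.mk (nat_lit 117) (nat_lit 5) (nat_lit 6) (nat_lit 1) (nat_lit 7) (nat_lit 103) (nat_lit 311) r12_103 r7_311 (nat_lit 0) (nat_lit 0) (nat_lit 0) (nat_lit 0x80fc0fe2c) (nat_lit 1057910624),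
  Rx.mk (nat_lit 180) (nat_lit 4) (nat_lit 6) (nat_lit 2) (nat_lit 6) (nat_lit 99) (nat_lit 307) r12_99 r7_307 (nat_lit 1048552) (nat_lit 0) (nat_lit 0) (nat_lit 0x8019d1236) (nat_lit 1073292576),
  Rx.mk (nat_lit 181) (nat_lit 5) (nat_lit 6) (nat_lit 2) (nat_lit 7) (nat_lit 104) (nat_lit 312) r12_104 r7_312 (nat_lit 0) (nat_lit 0) (nat_lit 0) (nat_lit 0x8ba799e96) (nat_lit 885357024)]
noncomputable def e36_14 : List Rx := [
  Rx.mk (nat_lit 21) (nat_lit 5) (nat_lit 2) (nat_lit 0) (nat_lit 3) (nat_lit 111) (nat_lit 250) r12_111 r1_250 (nat_lit 0) (nat_lit 0) (nat_lit 8872160) (nat_lit 0x8188ce430) (nat_lit 1057873084),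
  Rx.mk (nat_lit 53) (nat_lit 5) (nat_lit 6) (nat_lit 0) (nat_lit 3) (nat_lit 109) (nat_lit 249) r12_109 r1_249 (nat_lit 0) (nat_lit 0) (nat_lit 13758) (nat_lit 0x8684d43de) (nat_lit 968343482),
  Rx.mk (nat_lit 181) (nat_lit 5) (nat_lit 6) (nat_lit 2) (nat_lit 7) (nat_lit 110) (nat_lit 251) r12_110 r1_251 (nat_lit 0) (nat_lit 0) (nat_lit 0) (nat_lit 0xa214ce410) (nat_lit 522685424)]
noncomputable def e36_15 : List Rx := [
  Rx.mk (nat_lit 21) (nat_lit 5) (nat_lit 2) (nat_lit 0) (nat_lit 3) (nat_lit 115) (nat_lit 225) r12_115 r8_225 (nat_lit 0) (nat_lit 0) (nat_lit 6182575) (nat_lit 0x7fd1de596) (nat_lit 1083062199),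
  Rx.mk (nat_lit 53) (nat_lit 5) (nat_lit 6) (nat_lit 0) (nat_lit 3) (nat_lit 112) (nat_lit 227) r12_112 r8_227 (nat_lit 0) (nat_lit 0) (nat_lit 1064185) (nat_lit 0x8026828f4) (nat_lit 1072501409),
  Rx.mk (nat_lit 85) (nat_lit 5) (nat_lit 2) (nat_lit 1) (nat_lit 7) (nat_lit 116) (nat_lit 226) r12_116 r8_226 (nat_lit 0) (nat_lit 0) (nat_lit 0) (nat_lit 0x80029938e) (nat_lit 1073741824),
  Rx.mk (nat_lit 117) (nat_lit 5) (nat_lit 6) (nat_lit 1) (nat_lit 7) (nat_lit 113) (nat_lit 228) r12_113 r8_228 (nat_lit 0) (nat_lit 0) (nat_lit 0) (nat_lit 0x809967572) (nat_lit 1064151724),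
  Rx.mk (nat_lit 181) (nat_lit 5) (nat_lit 6) (nat_lit 2) (nat_lit 7) (nat_lit 114) (nat_lit 229) r12_114 r8_229 (nat_lit 0) (nat_lit 0) (nat_lit 0) (nat_lit 0x80d3793a0) (nat_lit 1060477524)]
noncomputable def e36_16 : List Rx := [
  Rx.mk (nat_lit 84) (nat_lit 4) (nat_lit 2) (nat_lit 1) (nat_lit 6) (nat_lit 118) (nat_lit 227) r12_118 r8_227 (nat_lit 1064185) (nat_lit 0) (nat_lit 0) (nat_lit 0x8026828f4) (nat_lit 1072501409),
  Rx.mk (nat_lit 85) (nat_lit 5) (nat_lit 2) (nat_lit 1) (nat_lit 7) (nat_lit 120) (nat_lit 228) r12_120 r8_228 (nat_lit 0) (nat_lit 0) (nat_lit 0) (nat_lit 0x809967572) (nat_lit 1064151724),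
  Rx.mk (nat_lit 86) (nat_lit 6) (nat_lit 2) (nat_lit 1) (nat_lit 7) (nat_lit 121) (nat_lit 229) r12_121 r8_229 (nat_lit 0) (nat_lit 0) (nat_lit 0) (nat_lit 0x80d3793a0) (nat_lit 1060477524),
  Rx.mk (nat_lit 116) (nat_lit 4) (nat_lit 6) (nat_lit 1) (nat_lit 6) (nat_lit 117) (nat_lit 225) r12_117 r8_225 (nat_lit 6182575) (nat_lit 0) (nat_lit 0) (nat_lit 0x7fd1de596) (nat_lit 1083062199),
  Rx.mk (nat_lit 117) (nat_lit 5) (nat_lit 6) (nat_lit 1) (nat_lit 7) (nat_lit 119) (nat_lit 226) r12_119 r8_226 (nat_lit 0) (nat_lit 0) (nat_lit 0) (nat_lit 0x80029938e) (nat_lit 1073741824)]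
noncomputable def e36_17 : List Rx := [
  Rx.mk (nat_lit 84) (nat_lit 4) (nat_lit 2) (nat_lit 1) (nat_lit 6) (nat_lit 122) (nat_lit 244) r12_122 r9_244 (nat_lit 6762413) (nat_lit 0) (nat_lit 0) (nat_lit 0x7f0f02d4c) (nat_lit 1096295937),
  Rx.mk (nat_lit 85) (nat_lit 5) (nat_lit 2) (nat_lit 1) (nat_lit 7) (nat_lit 123) (nat_lit 245) r12_123 r9_245 (nat_lit 0) (nat_lit 0) (nat_lit 0) (nat_lit 0x80029938e) (nat_lit 1073741824),
  Rx.mk (nat_lit 86) (nat_lit 6) (nat_lit 2) (nat_lit 1) (nat_lit 7) (nat_lit 125) (nat_lit 246) r12_125 r9_246 (nat_lit 0) (nat_lit 0) (nat_lit 0) (nat_lit 0x80029938e) (nat_lit 1073741824),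
  Rx.mk (nat_lit 342) (nat_lit 6) (nat_lit 2) (nat_lit 5) (nat_lit 7) (nat_lit 124) (nat_lit 247) r12_124 r9_247 (nat_lit 0) (nat_lit 0) (nat_lit 0) (nat_lit 0x80029938e) (nat_lit 1073741824)]
noncomputable def e36_18 : List Rx := [
  Rx.mk (nat_lit 20) (nat_lit 4) (nat_lit 2) (nat_lit 0) (nat_lit 2) (nat_lit 128) (nat_lit 244) r12_128 r4_244 (nat_lit 92132) (nat_lit 0) (nat_lit 345777) (nat_lit 0x669218308) (nat_lit 1498185533),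
  Rx.mk (nat_lit 21) (nat_lit 5) (nat_lit 2) (nat_lit 0) (nat_lit 3) (nat_lit 132) (nat_lit 245) r12_132 r4_245 (nat_lit 0) (nat_lit 0) (nat_lit 2731196) (nat_lit 0x7f937f28c) (nat_lit 1083641920),
  Rx.mk (nat_lit 22) (nat_lit 6) (nat_lit 2) (nat_lit 0) (nat_lit 3) (nat_lit 134) (nat_lit 246) r12_134 r4_246 (nat_lit 0) (nat_lit 0) (nat_lit 2418689) (nat_lit 0x799f9ba12) (nat_lit 1182552513),
  Rx.mk (nat_lit 52) (nat_lit 4) (nat_lit 6) (nat_lit 0) (nat_lit 2) (nat_lit 126) (nat_lit 241) r12_126 r4_241 (nat_lit 4959) (nat_lit 0) (nat_lit 7512) (nat_lit 0x740a9ac7e) (nat_lit 1273141595),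
  Rx.mk (nat_lit 53) (nat_lit 5) (nat_lit 6) (nat_lit 0) (nat_lit 3) (nat_lit 130) (nat_lit 242) r12_130 r4_242 (nat_lit 0) (nat_lit 0) (nat_lit 1474755) (nat_lit 0x7fc5e39c6) (nat_lit 1079117479),
  Rx.mk (nat_lit 55) (nat_lit 7) (nat_lit 6) (nat_lit 0) (nat_lit 3) (nat_lit 136) (nat_lit 243) r12_136 r4_243 (nat_lit 0) (nat_lit 0) (nat_lit 2620997) (nat_lit 0x805ae309e) (nat_lit 1070736421),
  Rx.mk (nat_lit 180) (nat_lit 4) (nat_lit 6) (nat_lit 2) (nat_lit 6) (nat_lit 127) (nat_lit 250) r12_127 r4_250 (nat_lit 634217) (nat_lit 0) (nat_lit 0) (nat_lit 0x80e08e356) (nat_lit 1060265941),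
  Rx.mk (nat_lit 181) (nat_lit 5) (nat_lit 6) (nat_lit 2) (nat_lit 7) (nat_lit 131) (nat_lit 251) r12_131 r4_251 (nat_lit 0) (nat_lit 0) (nat_lit 0) (nat_lit 0x80e0ca86a) (nat_lit 1059635624),
  Rx.mk (nat_lit 183) (nat_lit 7) (nat_lit 6) (nat_lit 2) (nat_lit 7) (nat_lit 137) (nat_lit 252) r12_137 r4_252 (nat_lit 0) (nat_lit 0) (nat_lit 0) (nat_lit 0x80b8f660e) (nat_lit 1062154324),
  Rx.mk (nat_lit 212) (nat_lit 4) (nat_lit 2) (nat_lit 3) (nat_lit 6) (nat_lit 129) (nat_lit 247) r12_129 r4_247 (nat_lit 27079) (nat_lit 0) (nat_lit 0) (nat_lit 0x4f6309a74) (nat_lit 1884305203),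
  Rx.mk (nat_lit 213) (nat_lit 5) (nat_lit 2) (nat_lit 3) (nat_lit 7) (nat_lit 133) (nat_lit 248) r12_133 r4_248 (nat_lit 0) (nat_lit 0) (nat_lit 0) (nat_lit 0x7cc23aad4) (nat_lit 1127844724),
  Rx.mk (nat_lit 214) (nat_lit 6) (nat_lit 2) (nat_lit 3) (nat_lit 7) (nat_lit 135) (nat_lit 249) r12_135 r4_249 (nat_lit 0) (nat_lit 0) (nat_lit 0) (nat_lit 0x789ee7f22) (nat_lit 1196826224)]
noncomputable def e36_19 : List Rx := [
  Rx.mk (nat_lit 20) (nat_lit 4) (nat_lit 2) (nat_lit 0) (nat_lit 2) (nat_lit 141) (nat_lit 257) r12_141 r10_257 (nat_lit 248757) (nat_lit 0) (nat_lit 254448) (nat_lit 0x6d3468e40) (nat_lit 1387661829),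
  Rx.mk (nat_lit 21) (nat_lit 5) (nat_lit 2) (nat_lit 0) (nat_lit 3) (nat_lit 146) (nat_lit 263) r12_146 r10_263 (nat_lit 0) (nat_lit 0) (nat_lit 1831361) (nat_lit 0x80d99ecf8) (nat_lit 1061919385),
  Rx.mk (nat_lit 22) (nat_lit 6) (nat_lit 2) (nat_lit 0) (nat_lit 3) (nat_lit 148) (nat_lit 270) r12_148 r10_270 (nat_lit 0) (nat_lit 0) (nat_lit 1075682) (nat_lit 0x8008ee41e) (nat_lit 1074391406),
  Rx.mk (nat_lit 52) (nat_lit 4) (nat_lit 6) (nat_lit 0) (nat_lit 2) (nat_lit 138) (nat_lit 260) r12_138 r10_260 (nat_lit 254448) (nat_lit 0) (nat_lit 248757) (nat_lit 0x6d3468e40) (nat_lit 1387661829),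
  Rx.mk (nat_lit 53) (nat_lit 5) (nat_lit 6) (nat_lit 0) (nat_lit 3) (nat_lit 144) (nat_lit 265) r12_144 r10_265 (nat_lit 0) (nat_lit 0) (nat_lit 1311948) (nat_lit 0x83fdc9f30) (nat_lit 1010600972),
  Rx.mk (nat_lit 55) (nat_lit 7) (nat_lit 6) (nat_lit 0) (nat_lit 3) (nat_lit 151) (nat_lit 267) r12_151 r10_267 (nat_lit 0) (nat_lit 0) (nat_lit 1325018) (nat_lit 0x844914026) (nat_lit 1005854542),
  Rx.mk (nat_lit 84) (nat_lit 4) (nat_lit 2) (nat_lit 1) (nat_lit 6) (nat_lit 142) (nat_lit 258) r12_142 r10_258 (nat_lit 1311948) (nat_lit 0) (nat_lit 0) (nat_lit 0x83fdc9f30) (nat_lit 1010600972),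
  Rx.mk (nat_lit 86) (nat_lit 6) (nat_lit 2) (nat_lit 1) (nat_lit 7) (nat_lit 149) (nat_lit 271) r12_149 r10_271 (nat_lit 0) (nat_lit 0) (nat_lit 0) (nat_lit 0x868d991c2) (nat_lit 967853924),
  Rx.mk (nat_lit 116) (nat_lit 4) (nat_lit 6) (nat_lit 1) (nat_lit 6) (nat_lit 139) (nat_lit 261) r12_139 r10_261 (nat_lit 1831361) (nat_lit 0) (nat_lit 0) (nat_lit 0x80d99ecf8) (nat_lit 1061919385),
  Rx.mk (nat_lit 119) (nat_lit 7) (nat_lit 6) (nat_lit 1) (nat_lit 7) (nat_lit 152) (nat_lit 268) r12_152 r10_268 (nat_lit 0) (nat_lit 0) (nat_lit 0) (nat_lit 0x80425a68a) (nat_lit 1069671024),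
  Rx.mk (nat_lit 180) (nat_lit 4) (nat_lit 6) (nat_lit 2) (nat_lit 6) (nat_lit 140) (nat_lit 262) r12_140 r10_262 (nat_lit 1075682) (nat_lit 0) (nat_lit 0) (nat_lit 0x8008ee41e) (nat_lit 1074391406),
  Rx.mk (nat_lit 181) (nat_lit 5) (nat_lit 6) (nat_lit 2) (nat_lit 7) (nat_lit 145) (nat_lit 266) r12_145 r10_266 (nat_lit 0) (nat_lit 0) (nat_lit 0) (nat_lit 0x868d991c2) (nat_lit 967853924),
  Rx.mk (nat_lit 183) (nat_lit 7) (nat_lit 6) (nat_lit 2) (nat_lit 7) (nat_lit 153) (nat_lit 269) r12_153 r10_269 (nat_lit 0) (nat_lit 0) (nat_lit 0) (nat_lit 0x868d991c2) (nat_lit 967853924),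
  Rx.mk (nat_lit 212) (nat_lit 4) (nat_lit 2) (nat_lit 3) (nat_lit 6) (nat_lit 143) (nat_lit 259) r12_143 r10_259 (nat_lit 1325018) (nat_lit 0) (nat_lit 0) (nat_lit 0x844914026) (nat_lit 1005854542),
  Rx.mk (nat_lit 213) (nat_lit 5) (nat_lit 2) (nat_lit 3) (nat_lit 7) (nat_lit 147) (nat_lit 264) r12_147 r10_264 (nat_lit 0) (nat_lit 0) (nat_lit 0) (nat_lit 0x80425a68a) (nat_lit 1069671024),
  Rx.mk (nat_lit 214) (nat_lit 6) (nat_lit 2) (nat_lit 3) (nat_lit 7) (nat_lit 150) (nat_lit 272) r12_150 r10_272 (nat_lit 0) (nat_lit 0) (nat_lit 0) (nat_lit 0x868d991c2) (nat_lit 967853924)]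
noncomputable def e36_20 : List Rx := [
  Rx.mk (nat_lit 52) (nat_lit 4) (nat_lit 6) (nat_lit 0) (nat_lit 2) (nat_lit 154) (nat_lit 288) r12_154 r11_288 (nat_lit 654576) (nat_lit 0) (nat_lit 667034) (nat_lit 0x7581a5c14) (nat_lit 1250087734),
  Rx.mk (nat_lit 53) (nat_lit 5) (nat_lit 6) (nat_lit 0) (nat_lit 3) (nat_lit 158) (nat_lit 292) r12_158 r11_292 (nat_lit 0) (nat_lit 0) (nat_lit 3008720) (nat_lit 0x801ff6e9a) (nat_lit 1074868444),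
  Rx.mk (nat_lit 55) (nat_lit 7) (nat_lit 6) (nat_lit 0) (nat_lit 3) (nat_lit 163) (nat_lit 295) r12_163 r11_295 (nat_lit 0) (nat_lit 0) (nat_lit 3490265) (nat_lit 0x802c425e6) (nat_lit 1074569689),
  Rx.mk (nat_lit 180) (nat_lit 4) (nat_lit 6) (nat_lit 2) (nat_lit 6) (nat_lit 155) (nat_lit 290) r12_155 r11_290 (nat_lit 1252562) (nat_lit 0) (nat_lit 0) (nat_lit 0x8181ac3aa) (nat_lit 1050719286),
  Rx.mk (nat_lit 181) (nat_lit 5) (nat_lit 6) (nat_lit 2) (nat_lit 7) (nat_lit 159) (nat_lit 294) r12_159 r11_294 (nat_lit 0) (nat_lit 0) (nat_lit 0) (nat_lit 0x801ddd582) (nat_lit 1071996524),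
  Rx.mk (nat_lit 183) (nat_lit 7) (nat_lit 6) (nat_lit 2) (nat_lit 7) (nat_lit 164) (nat_lit 296) r12_164 r11_296 (nat_lit 0) (nat_lit 0) (nat_lit 0) (nat_lit 0x802e32856) (nat_lit 1070956024),
  Rx.mk (nat_lit 212) (nat_lit 4) (nat_lit 2) (nat_lit 3) (nat_lit 6) (nat_lit 157) (nat_lit 287) r12_157 r11_287 (nat_lit 264456) (nat_lit 0) (nat_lit 0) (nat_lit 0x893fc6a14) (nat_lit 924489980),
  Rx.mk (nat_lit 213) (nat_lit 5) (nat_lit 2) (nat_lit 3) (nat_lit 7) (nat_lit 161) (nat_lit 291) r12_161 r11_291 (nat_lit 0) (nat_lit 0) (nat_lit 0) (nat_lit 0xa72f83a76) (nat_lit 440151724),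
  Rx.mk (nat_lit 214) (nat_lit 6) (nat_lit 2) (nat_lit 3) (nat_lit 7) (nat_lit 162) (nat_lit 297) r12_162 r11_297 (nat_lit 0) (nat_lit 0) (nat_lit 0) (nat_lit 0x99df62cde) (nat_lit 655430324),
  Rx.mk (nat_lit 244) (nat_lit 4) (nat_lit 6) (nat_lit 3) (nat_lit 6) (nat_lit 156) (nat_lit 289) r12_156 r11_289 (nat_lit 2043450) (nat_lit 0) (nat_lit 0) (nat_lit 0x808aabb28) (nat_lit 1067127174),
  Rx.mk (nat_lit 245) (nat_lit 5) (nat_lit 6) (nat_lit 3) (nat_lit 7) (nat_lit 160) (nat_lit 293) r12_160 r11_293 (nat_lit 0) (nat_lit 0) (nat_lit 0) (nat_lit 0x800bd3882) (nat_lit 1073150124)]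
noncomputable def e36_21 : List Rx := [
  Rx.mk (nat_lit 86) (nat_lit 6) (nat_lit 2) (nat_lit 1) (nat_lit 7) (nat_lit 168) (nat_lit 247) r12_168 r9_247 (nat_lit 0) (nat_lit 0) (nat_lit 0) (nat_lit 0x80029938e) (nat_lit 1073741824),
  Rx.mk (nat_lit 326) (nat_lit 6) (nat_lit 0) (nat_lit 5) (nat_lit 5) (nat_lit 165) (nat_lit 244) r12_165 r9_244 (nat_lit 0) (nat_lit 6762413) (nat_lit 0) (nat_lit 0x7f0f02d4c) (nat_lit 1096295937),
  Rx.mk (nat_lit 334) (nat_lit 6) (nat_lit 1) (nat_lit 5) (nat_lit 7) (nat_lit 166) (nat_lit 245) r12_166 r9_245 (nat_lit 0) (nat_lit 0) (nat_lit 0) (nat_lit 0x80029938e) (nat_lit 1073741824),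
  Rx.mk (nat_lit 342) (nat_lit 6) (nat_lit 2) (nat_lit 5) (nat_lit 7) (nat_lit 167) (nat_lit 246) r12_167 r9_246 (nat_lit 0) (nat_lit 0) (nat_lit 0) (nat_lit 0x80029938e) (nat_lit 1073741824)]
noncomputable def e36_22 : List Rx := [
  Rx.mk (nat_lit 258) (nat_lit 2) (nat_lit 0) (nat_lit 4) (nat_lit 1) (nat_lit 172) (nat_lit 236) r12_172 r0_236 (nat_lit 0) (nat_lit 18804) (nat_lit 23874) (nat_lit 0x617c80900) (nat_lit 1582544202),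
  Rx.mk (nat_lit 262) (nat_lit 6) (nat_lit 0) (nat_lit 4) (nat_lit 1) (nat_lit 169) (nat_lit 238) r12_169 r0_238 (nat_lit 0) (nat_lit 98820) (nat_lit 140974) (nat_lit 0x5c7c4d794) (nat_lit 1666140718),
  Rx.mk (nat_lit 266) (nat_lit 2) (nat_lit 1) (nat_lit 4) (nat_lit 3) (nat_lit 174) (nat_lit 237) r12_174 r0_237 (nat_lit 0) (nat_lit 0) (nat_lit 6092) (nat_lit 0x90e6c8a2c) (nat_lit 800438116),
  Rx.mk (nat_lit 270) (nat_lit 6) (nat_lit 1) (nat_lit 4) (nat_lit 3) (nat_lit 170) (nat_lit 239) r12_170 r0_239 (nat_lit 0) (nat_lit 0) (nat_lit 10492686) (nat_lit 0x7fa00c536) (nat_lit 1090533610),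
  Rx.mk (nat_lit 278) (nat_lit 6) (nat_lit 2) (nat_lit 4) (nat_lit 3) (nat_lit 171) (nat_lit 240) r12_171 r0_240 (nat_lit 0) (nat_lit 0) (nat_lit 1111496) (nat_lit 0x7447c7c00) (nat_lit 1270325320),
  Rx.mk (nat_lit 386) (nat_lit 2) (nat_lit 0) (nat_lit 6) (nat_lit 5) (nat_lit 173) (nat_lit 241) r12_173 r0_241 (nat_lit 0) (nat_lit 805156) (nat_lit 0) (nat_lit 0x806db6b8a) (nat_lit 1067709380),
  Rx.mk (nat_lit 394) (nat_lit 2) (nat_lit 1) (nat_lit 6) (nat_lit 7) (nat_lit 175) (nat_lit 242) r12_175 r0_242 (nat_lit 0) (nat_lit 0) (nat_lit 0) (nat_lit 0x9d314c5ce) (nat_lit 601741024)]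
noncomputable def e36_23 : List Rx := [
  Rx.mk (nat_lit 266) (nat_lit 2) (nat_lit 1) (nat_lit 4) (nat_lit 3) (nat_lit 177) (nat_lit 249) r12_177 r1_249 (nat_lit 0) (nat_lit 0) (nat_lit 13758) (nat_lit 0x8684d43de) (nat_lit 968343482),
  Rx.mk (nat_lit 270) (nat_lit 6) (nat_lit 1) (nat_lit 4) (nat_lit 3) (nat_lit 176) (nat_lit 250) r12_176 r1_250 (nat_lit 0) (nat_lit 0) (nat_lit 8872160) (nat_lit 0x8188ce430) (nat_lit 1057873084),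
  Rx.mk (nat_lit 394) (nat_lit 2) (nat_lit 1) (nat_lit 6) (nat_lit 7) (nat_lit 178) (nat_lit 251) r12_178 r1_251 (nat_lit 0) (nat_lit 0) (nat_lit 0) (nat_lit 0xa214ce410) (nat_lit 522685424)]
noncomputable def e36_24 : List Rx := [
  Rx.mk (nat_lit 258) (nat_lit 2) (nat_lit 0) (nat_lit 4) (nat_lit 1) (nat_lit 185) (nat_lit 241) r12_185 r4_241 (nat_lit 0) (nat_lit 4959) (nat_lit 7512) (nat_lit 0x740a9ac7e) (nat_lit 1273141595),
  Rx.mk (nat_lit 262) (nat_lit 6) (nat_lit 0) (nat_lit 4) (nat_lit 1) (nat_lit 179) (nat_lit 244) r12_179 r4_244 (nat_lit 0) (nat_lit 92132) (nat_lit 345777) (nat_lit 0x669218308) (nat_lit 1498185533),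
  Rx.mk (nat_lit 266) (nat_lit 2) (nat_lit 1) (nat_lit 4) (nat_lit 3) (nat_lit 187) (nat_lit 242) r12_187 r4_242 (nat_lit 0) (nat_lit 0) (nat_lit 1474755) (nat_lit 0x7fc5e39c6) (nat_lit 1079117479),
  Rx.mk (nat_lit 270) (nat_lit 6) (nat_lit 1) (nat_lit 4) (nat_lit 3) (nat_lit 181) (nat_lit 245) r12_181 r4_245 (nat_lit 0) (nat_lit 0) (nat_lit 2731196) (nat_lit 0x7f937f28c) (nat_lit 1083641920),
  Rx.mk (nat_lit 278) (nat_lit 6) (nat_lit 2) (nat_lit 4) (nat_lit 3) (nat_lit 183) (nat_lit 246) r12_183 r4_246 (nat_lit 0) (nat_lit 0) (nat_lit 2418689) (nat_lit 0x799f9ba12) (nat_lit 1182552513),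
  Rx.mk (nat_lit 282) (nat_lit 2) (nat_lit 3) (nat_lit 4) (nat_lit 3) (nat_lit 189) (nat_lit 243) r12_189 r4_243 (nat_lit 0) (nat_lit 0) (nat_lit 2620997) (nat_lit 0x805ae309e) (nat_lit 1070736421),
  Rx.mk (nat_lit 386) (nat_lit 2) (nat_lit 0) (nat_lit 6) (nat_lit 5) (nat_lit 186) (nat_lit 250) r12_186 r4_250 (nat_lit 0) (nat_lit 634217) (nat_lit 0) (nat_lit 0x80e08e356) (nat_lit 1060265941),
  Rx.mk (nat_lit 394) (nat_lit 2) (nat_lit 1) (nat_lit 6) (nat_lit 7) (nat_lit 188) (nat_lit 251) r12_188 r4_251 (nat_lit 0) (nat_lit 0) (nat_lit 0) (nat_lit 0x80e0ca86a) (nat_lit 1059635624),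
  Rx.mk (nat_lit 410) (nat_lit 2) (nat_lit 3) (nat_lit 6) (nat_lit 7) (nat_lit 190) (nat_lit 252) r12_190 r4_252 (nat_lit 0) (nat_lit 0) (nat_lit 0) (nat_lit 0x80b8f660e) (nat_lit 1062154324),
  Rx.mk (nat_lit 454) (nat_lit 6) (nat_lit 0) (nat_lit 7) (nat_lit 5) (nat_lit 180) (nat_lit 247) r12_180 r4_247 (nat_lit 0) (nat_lit 27079) (nat_lit 0) (nat_lit 0x4f6309a74) (nat_lit 1884305203),
  Rx.mk (nat_lit 462) (nat_lit 6) (nat_lit 1) (nat_lit 7) (nat_lit 7) (nat_lit 182) (nat_lit 248) r12_182 r4_248 (nat_lit 0) (nat_lit 0) (nat_lit 0) (nat_lit 0x7cc23aad4) (nat_lit 1127844724),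
  Rx.mk (nat_lit 470) (nat_lit 6) (nat_lit 2) (nat_lit 7) (nat_lit 7) (nat_lit 184) (nat_lit 249) r12_184 r4_249 (nat_lit 0) (nat_lit 0) (nat_lit 0) (nat_lit 0x789ee7f22) (nat_lit 1196826224)]
noncomputable def e36_25 : List Rx := [
  Rx.mk (nat_lit 258) (nat_lit 2) (nat_lit 0) (nat_lit 4) (nat_lit 1) (nat_lit 197) (nat_lit 305) r12_197 r7_305 (nat_lit 0) (nat_lit 155548) (nat_lit 146579) (nat_lit 0x6d6500044) (nat_lit 1384285151),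
  Rx.mk (nat_lit 262) (nat_lit 6) (nat_lit 0) (nat_lit 4) (nat_lit 1) (nat_lit 191) (nat_lit 303) r12_191 r7_303 (nat_lit 0) (nat_lit 146579) (nat_lit 155548) (nat_lit 0x6d6500044) (nat_lit 1384285151),
  Rx.mk (nat_lit 266) (nat_lit 2) (nat_lit 1) (nat_lit 4) (nat_lit 3) (nat_lit 200) (nat_lit 310) r12_200 r7_310 (nat_lit 0) (nat_lit 0) (nat_lit 1167101) (nat_lit 0x83e5cf1aa) (nat_lit 1011968725),
  Rx.mk (nat_lit 270) (nat_lit 6) (nat_lit 1) (nat_lit 4) (nat_lit 3) (nat_lit 193) (nat_lit 308) r12_193 r7_308 (nat_lit 0) (nat_lit 0) (nat_lit 1674776) (nat_lit 0x80296d58c) (nat_lit 1072913600),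
  Rx.mk (nat_lit 278) (nat_lit 6) (nat_lit 2) (nat_lit 4) (nat_lit 3) (nat_lit 195) (nat_lit 313) r12_195 r7_313 (nat_lit 0) (nat_lit 0) (nat_lit 1048552) (nat_lit 0x8019d1236) (nat_lit 1073292576),
  Rx.mk (nat_lit 322) (nat_lit 2) (nat_lit 0) (nat_lit 5) (nat_lit 5) (nat_lit 198) (nat_lit 306) r12_198 r7_306 (nat_lit 0) (nat_lit 1674776) (nat_lit 0) (nat_lit 0x80296d58c) (nat_lit 1072913600),
  Rx.mk (nat_lit 326) (nat_lit 6) (nat_lit 0) (nat_lit 5) (nat_lit 5) (nat_lit 192) (nat_lit 304) r12_192 r7_304 (nat_lit 0) (nat_lit 1167101) (nat_lit 0) (nat_lit 0x83e5cf1aa) (nat_lit 1011968725),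
  Rx.mk (nat_lit 330) (nat_lit 2) (nat_lit 1) (nat_lit 5) (nat_lit 7) (nat_lit 201) (nat_lit 311) r12_201 r7_311 (nat_lit 0) (nat_lit 0) (nat_lit 0) (nat_lit 0x80fc0fe2c) (nat_lit 1057910624),
  Rx.mk (nat_lit 334) (nat_lit 6) (nat_lit 1) (nat_lit 5) (nat_lit 7) (nat_lit 194) (nat_lit 309) r12_194 r7_309 (nat_lit 0) (nat_lit 0) (nat_lit 0) (nat_lit 0x80fc0fe2c) (nat_lit 1057910624),
  Rx.mk (nat_lit 342) (nat_lit 6) (nat_lit 2) (nat_lit 5) (nat_lit 7) (nat_lit 196) (nat_lit 314) r12_196 r7_314 (nat_lit 0) (nat_lit 0) (nat_lit 0) (nat_lit 0x8ba799e96) (nat_lit 885357024),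
  Rx.mk (nat_lit 386) (nat_lit 2) (nat_lit 0) (nat_lit 6) (nat_lit 5) (nat_lit 199) (nat_lit 307) r12_199 r7_307 (nat_lit 0) (nat_lit 1048552) (nat_lit 0) (nat_lit 0x8019d1236) (nat_lit 1073292576),
  Rx.mk (nat_lit 394) (nat_lit 2) (nat_lit 1) (nat_lit 6) (nat_lit 7) (nat_lit 202) (nat_lit 312) r12_202 r7_312 (nat_lit 0) (nat_lit 0) (nat_lit 0) (nat_lit 0x8ba799e96) (nat_lit 885357024)]
noncomputable def e36_26 : List Rx := [
  Rx.mk (nat_lit 266) (nat_lit 2) (nat_lit 1) (nat_lit 4) (nat_lit 3) (nat_lit 205) (nat_lit 227) r12_205 r8_227 (nat_lit 0) (nat_lit 0) (nat_lit 1064185) (nat_lit 0x8026828f4) (nat_lit 1072501409),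
  Rx.mk (nat_lit 270) (nat_lit 6) (nat_lit 1) (nat_lit 4) (nat_lit 3) (nat_lit 203) (nat_lit 225) r12_203 r8_225 (nat_lit 0) (nat_lit 0) (nat_lit 6182575) (nat_lit 0x7fd1de596) (nat_lit 1083062199),
  Rx.mk (nat_lit 330) (nat_lit 2) (nat_lit 1) (nat_lit 5) (nat_lit 7) (nat_lit 206) (nat_lit 228) r12_206 r8_228 (nat_lit 0) (nat_lit 0) (nat_lit 0) (nat_lit 0x809967572) (nat_lit 1064151724),
  Rx.mk (nat_lit 334) (nat_lit 6) (nat_lit 1) (nat_lit 5) (nat_lit 7) (nat_lit 204) (nat_lit 226) r12_204 r8_226 (nat_lit 0) (nat_lit 0) (nat_lit 0) (nat_lit 0x80029938e) (nat_lit 1073741824),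
  Rx.mk (nat_lit 394) (nat_lit 2) (nat_lit 1) (nat_lit 6) (nat_lit 7) (nat_lit 207) (nat_lit 229) r12_207 r8_229 (nat_lit 0) (nat_lit 0) (nat_lit 0) (nat_lit 0x80d3793a0) (nat_lit 1060477524)]
noncomputable def e36_27 : List Rx := [
  Rx.mk (nat_lit 322) (nat_lit 2) (nat_lit 0) (nat_lit 5) (nat_lit 5) (nat_lit 211) (nat_lit 225) r12_211 r8_225 (nat_lit 0) (nat_lit 6182575) (nat_lit 0) (nat_lit 0x7fd1de596) (nat_lit 1083062199),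
  Rx.mk (nat_lit 326) (nat_lit 6) (nat_lit 0) (nat_lit 5) (nat_lit 5) (nat_lit 208) (nat_lit 227) r12_208 r8_227 (nat_lit 0) (nat_lit 1064185) (nat_lit 0) (nat_lit 0x8026828f4) (nat_lit 1072501409),
  Rx.mk (nat_lit 330) (nat_lit 2) (nat_lit 1) (nat_lit 5) (nat_lit 7) (nat_lit 212) (nat_lit 226) r12_212 r8_226 (nat_lit 0) (nat_lit 0) (nat_lit 0) (nat_lit 0x80029938e) (nat_lit 1073741824),
  Rx.mk (nat_lit 334) (nat_lit 6) (nat_lit 1) (nat_lit 5) (nat_lit 7) (nat_lit 209) (nat_lit 228) r12_209 r8_228 (nat_lit 0) (nat_lit 0) (nat_lit 0) (nat_lit 0x809967572) (nat_lit 1064151724),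
  Rx.mk (nat_lit 342) (nat_lit 6) (nat_lit 2) (nat_lit 5) (nat_lit 7) (nat_lit 210) (nat_lit 229) r12_210 r8_229 (nat_lit 0) (nat_lit 0) (nat_lit 0) (nat_lit 0x80d3793a0) (nat_lit 1060477524)]
noncomputable def e36_28 : List Rx := [
  Rx.mk (nat_lit 258) (nat_lit 2) (nat_lit 0) (nat_lit 4) (nat_lit 1) (nat_lit 221) (nat_lit 260) r12_221 r10_260 (nat_lit 0) (nat_lit 254448) (nat_lit 248757) (nat_lit 0x6d3468e40) (nat_lit 1387661829),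
  Rx.mk (nat_lit 262) (nat_lit 6) (nat_lit 0) (nat_lit 4) (nat_lit 1) (nat_lit 213) (nat_lit 257) r12_213 r10_257 (nat_lit 0) (nat_lit 248757) (nat_lit 254448) (nat_lit 0x6d3468e40) (nat_lit 1387661829),
  Rx.mk (nat_lit 266) (nat_lit 2) (nat_lit 1) (nat_lit 4) (nat_lit 3) (nat_lit 224) (nat_lit 265) r12_224 r10_265 (nat_lit 0) (nat_lit 0) (nat_lit 1311948) (nat_lit 0x83fdc9f30) (nat_lit 1010600972),
  Rx.mk (nat_lit 270) (nat_lit 6) (nat_lit 1) (nat_lit 4) (nat_lit 3) (nat_lit 216) (nat_lit 263) r12_216 r10_263 (nat_lit 0) (nat_lit 0) (nat_lit 1831361) (nat_lit 0x80d99ecf8) (nat_lit 1061919385),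
  Rx.mk (nat_lit 278) (nat_lit 6) (nat_lit 2) (nat_lit 4) (nat_lit 3) (nat_lit 218) (nat_lit 270) r12_218 r10_270 (nat_lit 0) (nat_lit 0) (nat_lit 1075682) (nat_lit 0x8008ee41e) (nat_lit 1074391406),
  Rx.mk (nat_lit 282) (nat_lit 2) (nat_lit 3) (nat_lit 4) (nat_lit 3) (nat_lit 226) (nat_lit 267) r12_226 r10_267 (nat_lit 0) (nat_lit 0) (nat_lit 1325018) (nat_lit 0x844914026) (nat_lit 1005854542),
  Rx.mk (nat_lit 322) (nat_lit 2) (nat_lit 0) (nat_lit 5) (nat_lit 5) (nat_lit 222) (nat_lit 261) r12_222 r10_261 (nat_lit 0) (nat_lit 1831361) (nat_lit 0) (nat_lit 0x80d99ecf8) (nat_lit 1061919385),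
  Rx.mk (nat_lit 326) (nat_lit 6) (nat_lit 0) (nat_lit 5) (nat_lit 5) (nat_lit 214) (nat_lit 258) r12_214 r10_258 (nat_lit 0) (nat_lit 1311948) (nat_lit 0) (nat_lit 0x83fdc9f30) (nat_lit 1010600972),
  Rx.mk (nat_lit 342) (nat_lit 6) (nat_lit 2) (nat_lit 5) (nat_lit 7) (nat_lit 219) (nat_lit 271) r12_219 r10_271 (nat_lit 0) (nat_lit 0) (nat_lit 0) (nat_lit 0x868d991c2) (nat_lit 967853924),
  Rx.mk (nat_lit 346) (nat_lit 2) (nat_lit 3) (nat_lit 5) (nat_lit 7) (nat_lit 227) (nat_lit 268) r12_227 r10_268 (nat_lit 0) (nat_lit 0) (nat_lit 0) (nat_lit 0x80425a68a) (nat_lit 1069671024),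
  Rx.mk (nat_lit 386) (nat_lit 2) (nat_lit 0) (nat_lit 6) (nat_lit 5) (nat_lit 223) (nat_lit 262) r12_223 r10_262 (nat_lit 0) (nat_lit 1075682) (nat_lit 0) (nat_lit 0x8008ee41e) (nat_lit 1074391406),
  Rx.mk (nat_lit 394) (nat_lit 2) (nat_lit 1) (nat_lit 6) (nat_lit 7) (nat_lit 225) (nat_lit 266) r12_225 r10_266 (nat_lit 0) (nat_lit 0) (nat_lit 0) (nat_lit 0x868d991c2) (nat_lit 967853924),
  Rx.mk (nat_lit 410) (nat_lit 2) (nat_lit 3) (nat_lit 6) (nat_lit 7) (nat_lit 228) (nat_lit 269) r12_228 r10_269 (nat_lit 0) (nat_lit 0) (nat_lit 0) (nat_lit 0x868d991c2) (nat_lit 967853924),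
  Rx.mk (nat_lit 454) (nat_lit 6) (nat_lit 0) (nat_lit 7) (nat_lit 5) (nat_lit 215) (nat_lit 259) r12_215 r10_259 (nat_lit 0) (nat_lit 1325018) (nat_lit 0) (nat_lit 0x844914026) (nat_lit 1005854542),
  Rx.mk (nat_lit 462) (nat_lit 6) (nat_lit 1) (nat_lit 7) (nat_lit 7) (nat_lit 217) (nat_lit 264) r12_217 r10_264 (nat_lit 0) (nat_lit 0) (nat_lit 0) (nat_lit 0x80425a68a) (nat_lit 1069671024),
  Rx.mk (nat_lit 470) (nat_lit 6) (nat_lit 2) (nat_lit 7) (nat_lit 7) (nat_lit 220) (nat_lit 272) r12_220 r10_272 (nat_lit 0) (nat_lit 0) (nat_lit 0) (nat_lit 0x868d991c2) (nat_lit 967853924)]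
noncomputable def e36_29 : List Rx := [
  Rx.mk (nat_lit 258) (nat_lit 2) (nat_lit 0) (nat_lit 4) (nat_lit 1) (nat_lit 232) (nat_lit 288) r12_232 r11_288 (nat_lit 0) (nat_lit 654576) (nat_lit 667034) (nat_lit 0x7581a5c14) (nat_lit 1250087734),
  Rx.mk (nat_lit 266) (nat_lit 2) (nat_lit 1) (nat_lit 4) (nat_lit 3) (nat_lit 235) (nat_lit 292) r12_235 r11_292 (nat_lit 0) (nat_lit 0) (nat_lit 3008720) (nat_lit 0x801ff6e9a) (nat_lit 1074868444),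
  Rx.mk (nat_lit 282) (nat_lit 2) (nat_lit 3) (nat_lit 4) (nat_lit 3) (nat_lit 238) (nat_lit 295) r12_238 r11_295 (nat_lit 0) (nat_lit 0) (nat_lit 3490265) (nat_lit 0x802c425e6) (nat_lit 1074569689),
  Rx.mk (nat_lit 386) (nat_lit 2) (nat_lit 0) (nat_lit 6) (nat_lit 5) (nat_lit 233) (nat_lit 290) r12_233 r11_290 (nat_lit 0) (nat_lit 1252562) (nat_lit 0) (nat_lit 0x8181ac3aa) (nat_lit 1050719286),
  Rx.mk (nat_lit 394) (nat_lit 2) (nat_lit 1) (nat_lit 6) (nat_lit 7) (nat_lit 236) (nat_lit 294) r12_236 r11_294 (nat_lit 0) (nat_lit 0) (nat_lit 0) (nat_lit 0x801ddd582) (nat_lit 1071996524),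
  Rx.mk (nat_lit 410) (nat_lit 2) (nat_lit 3) (nat_lit 6) (nat_lit 7) (nat_lit 239) (nat_lit 296) r12_239 r11_296 (nat_lit 0) (nat_lit 0) (nat_lit 0) (nat_lit 0x802e32856) (nat_lit 1070956024),
  Rx.mk (nat_lit 450) (nat_lit 2) (nat_lit 0) (nat_lit 7) (nat_lit 5) (nat_lit 234) (nat_lit 289) r12_234 r11_289 (nat_lit 0) (nat_lit 2043450) (nat_lit 0) (nat_lit 0x808aabb28) (nat_lit 1067127174),
  Rx.mk (nat_lit 454) (nat_lit 6) (nat_lit 0) (nat_lit 7) (nat_lit 5) (nat_lit 229) (nat_lit 287) r12_229 r11_287 (nat_lit 0) (nat_lit 264456) (nat_lit 0) (nat_lit 0x893fc6a14) (nat_lit 924489980),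
  Rx.mk (nat_lit 458) (nat_lit 2) (nat_lit 1) (nat_lit 7) (nat_lit 7) (nat_lit 237) (nat_lit 293) r12_237 r11_293 (nat_lit 0) (nat_lit 0) (nat_lit 0) (nat_lit 0x800bd3882) (nat_lit 1073150124),
  Rx.mk (nat_lit 462) (nat_lit 6) (nat_lit 1) (nat_lit 7) (nat_lit 7) (nat_lit 230) (nat_lit 291) r12_230 r11_291 (nat_lit 0) (nat_lit 0) (nat_lit 0) (nat_lit 0xa72f83a76) (nat_lit 440151724),
  Rx.mk (nat_lit 470) (nat_lit 6) (nat_lit 2) (nat_lit 7) (nat_lit 7) (nat_lit 231) (nat_lit 297) r12_231 r11_297 (nat_lit 0) (nat_lit 0) (nat_lit 0) (nat_lit 0x99df62cde) (nat_lit 655430324)]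
noncomputable def e36_30 : List Rx := [
  Rx.mk (nat_lit 20) (nat_lit 4) (nat_lit 2) (nat_lit 0) (nat_lit 2) (nat_lit 240) (nat_lit 246) r12_240 r5_246 (nat_lit 20188) (nat_lit 0) (nat_lit 27932) (nat_lit 0x7a72d005e) (nat_lit 1166357044),
  Rx.mk (nat_lit 22) (nat_lit 6) (nat_lit 2) (nat_lit 0) (nat_lit 3) (nat_lit 242) (nat_lit 248) r12_242 r5_248 (nat_lit 0) (nat_lit 0) (nat_lit 1388645) (nat_lit 0x7e512bfee) (nat_lit 1103271969),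
  Rx.mk (nat_lit 23) (nat_lit 7) (nat_lit 2) (nat_lit 0) (nat_lit 3) (nat_lit 246) (nat_lit 247) r12_246 r5_247 (nat_lit 0) (nat_lit 0) (nat_lit 745268) (nat_lit 0x8ddce6b6a) (nat_lit 850382092),
  Rx.mk (nat_lit 55) (nat_lit 7) (nat_lit 6) (nat_lit 0) (nat_lit 3) (nat_lit 244) (nat_lit 245) r12_244 r5_245 (nat_lit 0) (nat_lit 0) (nat_lit 17041) (nat_lit 0x8b003f3bc) (nat_lit 895869165),
  Rx.mk (nat_lit 183) (nat_lit 7) (nat_lit 6) (nat_lit 2) (nat_lit 7) (nat_lit 245) (nat_lit 251) r12_245 r5_251 (nat_lit 0) (nat_lit 0) (nat_lit 0) (nat_lit 0x7ff59fdd6) (nat_lit 1074454124),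
  Rx.mk (nat_lit 212) (nat_lit 4) (nat_lit 2) (nat_lit 3) (nat_lit 6) (nat_lit 241) (nat_lit 249) r12_241 r5_249 (nat_lit 225577) (nat_lit 0) (nat_lit 0) (nat_lit 0x86c1ebf38) (nat_lit 964739301),
  Rx.mk (nat_lit 214) (nat_lit 6) (nat_lit 2) (nat_lit 3) (nat_lit 7) (nat_lit 243) (nat_lit 250) r12_243 r5_250 (nat_lit 0) (nat_lit 0) (nat_lit 0) (nat_lit 0x99d4baab6) (nat_lit 656104224)]
noncomputable def e36_31 : List Rx := [
  Rx.mk (nat_lit 20) (nat_lit 4) (nat_lit 2) (nat_lit 0) (nat_lit 2) (nat_lit 247) (nat_lit 288) r12_247 r11_288 (nat_lit 667034) (nat_lit 0) (nat_lit 654576) (nat_lit 0x7581a5c14) (nat_lit 1250087734),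
  Rx.mk (nat_lit 22) (nat_lit 6) (nat_lit 2) (nat_lit 0) (nat_lit 3) (nat_lit 250) (nat_lit 290) r12_250 r11_290 (nat_lit 0) (nat_lit 0) (nat_lit 1252562) (nat_lit 0x8181ac3aa) (nat_lit 1050719286),
  Rx.mk (nat_lit 23) (nat_lit 7) (nat_lit 2) (nat_lit 0) (nat_lit 3) (nat_lit 256) (nat_lit 289) r12_256 r11_289 (nat_lit 0) (nat_lit 0) (nat_lit 2043450) (nat_lit 0x808aabb28) (nat_lit 1067127174),
  Rx.mk (nat_lit 55) (nat_lit 7) (nat_lit 6) (nat_lit 0) (nat_lit 3) (nat_lit 253) (nat_lit 287) r12_253 r11_287 (nat_lit 0) (nat_lit 0) (nat_lit 264456) (nat_lit 0x893fc6a14) (nat_lit 924489980),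
  Rx.mk (nat_lit 84) (nat_lit 4) (nat_lit 2) (nat_lit 1) (nat_lit 6) (nat_lit 248) (nat_lit 292) r12_248 r11_292 (nat_lit 3008720) (nat_lit 0) (nat_lit 0) (nat_lit 0x801ff6e9a) (nat_lit 1074868444),
  Rx.mk (nat_lit 86) (nat_lit 6) (nat_lit 2) (nat_lit 1) (nat_lit 7) (nat_lit 251) (nat_lit 294) r12_251 r11_294 (nat_lit 0) (nat_lit 0) (nat_lit 0) (nat_lit 0x801ddd582) (nat_lit 1071996524),
  Rx.mk (nat_lit 87) (nat_lit 7) (nat_lit 2) (nat_lit 1) (nat_lit 7) (nat_lit 257) (nat_lit 293) r12_257 r11_293 (nat_lit 0) (nat_lit 0) (nat_lit 0) (nat_lit 0x800bd3882) (nat_lit 1073150124),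
  Rx.mk (nat_lit 119) (nat_lit 7) (nat_lit 6) (nat_lit 1) (nat_lit 7) (nat_lit 254) (nat_lit 291) r12_254 r11_291 (nat_lit 0) (nat_lit 0) (nat_lit 0) (nat_lit 0xa72f83a76) (nat_lit 440151724),
  Rx.mk (nat_lit 183) (nat_lit 7) (nat_lit 6) (nat_lit 2) (nat_lit 7) (nat_lit 255) (nat_lit 297) r12_255 r11_297 (nat_lit 0) (nat_lit 0) (nat_lit 0) (nat_lit 0x99df62cde) (nat_lit 655430324),
  Rx.mk (nat_lit 212) (nat_lit 4) (nat_lit 2) (nat_lit 3) (nat_lit 6) (nat_lit 249) (nat_lit 295) r12_249 r11_295 (nat_lit 3490265) (nat_lit 0) (nat_lit 0) (nat_lit 0x802c425e6) (nat_lit 1074569689),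
  Rx.mk (nat_lit 214) (nat_lit 6) (nat_lit 2) (nat_lit 3) (nat_lit 7) (nat_lit 252) (nat_lit 296) r12_252 r11_296 (nat_lit 0) (nat_lit 0) (nat_lit 0) (nat_lit 0x802e32856) (nat_lit 1070956024)]
noncomputable def e36_32 : List Rx := [
  Rx.mk (nat_lit 163) (nat_lit 3) (nat_lit 4) (nat_lit 2) (nat_lit 5) (nat_lit 267) (nat_lit 270) r12_267 r6_270 (nat_lit 0) (nat_lit 103466) (nat_lit 0) (nat_lit 0x7e7552e22) (nat_lit 1099579590),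
  Rx.mk (nat_lit 179) (nat_lit 3) (nat_lit 6) (nat_lit 2) (nat_lit 7) (nat_lit 268) (nat_lit 272) r12_268 r6_272 (nat_lit 0) (nat_lit 0) (nat_lit 0) (nat_lit 0x878d6f6dc) (nat_lit 951659124),
  Rx.mk (nat_lit 184) (nat_lit 0) (nat_lit 7) (nat_lit 2) (nat_lit 6) (nat_lit 263) (nat_lit 269) r12_263 r6_269 (nat_lit 77873) (nat_lit 0) (nat_lit 0) (nat_lit 0x7ef96640c) (nat_lit 1090946797),
  Rx.mk (nat_lit 187) (nat_lit 3) (nat_lit 7) (nat_lit 2) (nat_lit 7) (nat_lit 269) (nat_lit 271) r12_269 r6_271 (nat_lit 0) (nat_lit 0) (nat_lit 0) (nat_lit 0x86d9d99ec) (nat_lit 963003824),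
  Rx.mk (nat_lit 282) (nat_lit 2) (nat_lit 3) (nat_lit 4) (nat_lit 3) (nat_lit 265) (nat_lit 273) r12_265 r6_273 (nat_lit 0) (nat_lit 0) (nat_lit 25761) (nat_lit 0x7e6206ba2) (nat_lit 1100737685),
  Rx.mk (nat_lit 286) (nat_lit 6) (nat_lit 3) (nat_lit 4) (nat_lit 3) (nat_lit 260) (nat_lit 264) r12_260 r6_264 (nat_lit 0) (nat_lit 0) (nat_lit 77873) (nat_lit 0x7ef96640c) (nat_lit 1090946797),
  Rx.mk (nat_lit 410) (nat_lit 2) (nat_lit 3) (nat_lit 6) (nat_lit 7) (nat_lit 266) (nat_lit 275) r12_266 r6_275 (nat_lit 0) (nat_lit 0) (nat_lit 0) (nat_lit 0x800027d6c) (nat_lit 1073758024),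
  Rx.mk (nat_lit 440) (nat_lit 0) (nat_lit 7) (nat_lit 6) (nat_lit 6) (nat_lit 262) (nat_lit 268) r12_262 r6_268 (nat_lit 25761) (nat_lit 0) (nat_lit 0) (nat_lit 0x7e6206ba2) (nat_lit 1100737685),
  Rx.mk (nat_lit 442) (nat_lit 2) (nat_lit 7) (nat_lit 6) (nat_lit 7) (nat_lit 264) (nat_lit 274) r12_264 r6_274 (nat_lit 0) (nat_lit 0) (nat_lit 0) (nat_lit 0x800027d6c) (nat_lit 1073758024),
  Rx.mk (nat_lit 454) (nat_lit 6) (nat_lit 0) (nat_lit 7) (nat_lit 5) (nat_lit 258) (nat_lit 265) r12_258 r6_265 (nat_lit 0) (nat_lit 103466) (nat_lit 0) (nat_lit 0x7e7552e22) (nat_lit 1099579590),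
  Rx.mk (nat_lit 470) (nat_lit 6) (nat_lit 2) (nat_lit 7) (nat_lit 7) (nat_lit 259) (nat_lit 267) r12_259 r6_267 (nat_lit 0) (nat_lit 0) (nat_lit 0) (nat_lit 0x878d6f6dc) (nat_lit 951659124),
  Rx.mk (nat_lit 478) (nat_lit 6) (nat_lit 3) (nat_lit 7) (nat_lit 7) (nat_lit 261) (nat_lit 266) r12_261 r6_266 (nat_lit 0) (nat_lit 0) (nat_lit 0) (nat_lit 0x86d9d99ec) (nat_lit 963003824)]
noncomputable def e36_33 : List Rx := [
  Rx.mk (nat_lit 262) (nat_lit 6) (nat_lit 0) (nat_lit 4) (nat_lit 1) (nat_lit 270) (nat_lit 246) r12_270 r5_246 (nat_lit 0) (nat_lit 20188) (nat_lit 27932) (nat_lit 0x7a72d005e) (nat_lit 1166357044),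
  Rx.mk (nat_lit 278) (nat_lit 6) (nat_lit 2) (nat_lit 4) (nat_lit 3) (nat_lit 272) (nat_lit 248) r12_272 r5_248 (nat_lit 0) (nat_lit 0) (nat_lit 1388645) (nat_lit 0x7e512bfee) (nat_lit 1103271969),
  Rx.mk (nat_lit 282) (nat_lit 2) (nat_lit 3) (nat_lit 4) (nat_lit 3) (nat_lit 275) (nat_lit 245) r12_275 r5_245 (nat_lit 0) (nat_lit 0) (nat_lit 17041) (nat_lit 0x8b003f3bc) (nat_lit 895869165),
  Rx.mk (nat_lit 286) (nat_lit 6) (nat_lit 3) (nat_lit 4) (nat_lit 3) (nat_lit 274) (nat_lit 247) r12_274 r5_247 (nat_lit 0) (nat_lit 0) (nat_lit 745268) (nat_lit 0x8ddce6b6a) (nat_lit 850382092),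
  Rx.mk (nat_lit 410) (nat_lit 2) (nat_lit 3) (nat_lit 6) (nat_lit 7) (nat_lit 276) (nat_lit 251) r12_276 r5_251 (nat_lit 0) (nat_lit 0) (nat_lit 0) (nat_lit 0x7ff59fdd6) (nat_lit 1074454124),
  Rx.mk (nat_lit 454) (nat_lit 6) (nat_lit 0) (nat_lit 7) (nat_lit 5) (nat_lit 271) (nat_lit 249) r12_271 r5_249 (nat_lit 0) (nat_lit 225577) (nat_lit 0) (nat_lit 0x86c1ebf38) (nat_lit 964739301),
  Rx.mk (nat_lit 470) (nat_lit 6) (nat_lit 2) (nat_lit 7) (nat_lit 7) (nat_lit 273) (nat_lit 250) r12_273 r5_250 (nat_lit 0) (nat_lit 0) (nat_lit 0) (nat_lit 0x99d4baab6) (nat_lit 656104224)]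
noncomputable def e36_34 : List Rx := [
  Rx.mk (nat_lit 262) (nat_lit 6) (nat_lit 0) (nat_lit 4) (nat_lit 1) (nat_lit 277) (nat_lit 288) r12_277 r11_288 (nat_lit 0) (nat_lit 667034) (nat_lit 654576) (nat_lit 0x7581a5c14) (nat_lit 1250087734),
  Rx.mk (nat_lit 278) (nat_lit 6) (nat_lit 2) (nat_lit 4) (nat_lit 3) (nat_lit 280) (nat_lit 290) r12_280 r11_290 (nat_lit 0) (nat_lit 0) (nat_lit 1252562) (nat_lit 0x8181ac3aa) (nat_lit 1050719286),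
  Rx.mk (nat_lit 282) (nat_lit 2) (nat_lit 3) (nat_lit 4) (nat_lit 3) (nat_lit 285) (nat_lit 287) r12_285 r11_287 (nat_lit 0) (nat_lit 0) (nat_lit 264456) (nat_lit 0x893fc6a14) (nat_lit 924489980),
  Rx.mk (nat_lit 286) (nat_lit 6) (nat_lit 3) (nat_lit 4) (nat_lit 3) (nat_lit 283) (nat_lit 289) r12_283 r11_289 (nat_lit 0) (nat_lit 0) (nat_lit 2043450) (nat_lit 0x808aabb28) (nat_lit 1067127174),
  Rx.mk (nat_lit 326) (nat_lit 6) (nat_lit 0) (nat_lit 5) (nat_lit 5) (nat_lit 278) (nat_lit 292) r12_278 r11_292 (nat_lit 0) (nat_lit 3008720) (nat_lit 0) (nat_lit 0x801ff6e9a) (nat_lit 1074868444),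
  Rx.mk (nat_lit 342) (nat_lit 6) (nat_lit 2) (nat_lit 5) (nat_lit 7) (nat_lit 281) (nat_lit 294) r12_281 r11_294 (nat_lit 0) (nat_lit 0) (nat_lit 0) (nat_lit 0x801ddd582) (nat_lit 1071996524),
  Rx.mk (nat_lit 346) (nat_lit 2) (nat_lit 3) (nat_lit 5) (nat_lit 7) (nat_lit 286) (nat_lit 291) r12_286 r11_291 (nat_lit 0) (nat_lit 0) (nat_lit 0) (nat_lit 0xa72f83a76) (nat_lit 440151724),
  Rx.mk (nat_lit 350) (nat_lit 6) (nat_lit 3) (nat_lit 5) (nat_lit 7) (nat_lit 284) (nat_lit 293) r12_284 r11_293 (nat_lit 0) (nat_lit 0) (nat_lit 0) (nat_lit 0x800bd3882) (nat_lit 1073150124),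
  Rx.mk (nat_lit 410) (nat_lit 2) (nat_lit 3) (nat_lit 6) (nat_lit 7) (nat_lit 287) (nat_lit 297) r12_287 r11_297 (nat_lit 0) (nat_lit 0) (nat_lit 0) (nat_lit 0x99df62cde) (nat_lit 655430324),
  Rx.mk (nat_lit 454) (nat_lit 6) (nat_lit 0) (nat_lit 7) (nat_lit 5) (nat_lit 279) (nat_lit 295) r12_279 r11_295 (nat_lit 0) (nat_lit 3490265) (nat_lit 0) (nat_lit 0x802c425e6) (nat_lit 1074569689),
  Rx.mk (nat_lit 470) (nat_lit 6) (nat_lit 2) (nat_lit 7) (nat_lit 7) (nat_lit 282) (nat_lit 296) r12_282 r11_296 (nat_lit 0) (nat_lit 0) (nat_lit 0) (nat_lit 0x802e32856) (nat_lit 1070956024)]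
noncomputable def e36_35 : List Rx := [
  Rx.mk (nat_lit 23) (nat_lit 7) (nat_lit 2) (nat_lit 0) (nat_lit 3) (nat_lit 292) (nat_lit 264) r12_292 r6_264 (nat_lit 0) (nat_lit 0) (nat_lit 77873) (nat_lit 0x7ef96640c) (nat_lit 1090946797),
  Rx.mk (nat_lit 55) (nat_lit 7) (nat_lit 6) (nat_lit 0) (nat_lit 3) (nat_lit 290) (nat_lit 273) r12_290 r6_273 (nat_lit 0) (nat_lit 0) (nat_lit 25761) (nat_lit 0x7e6206ba2) (nat_lit 1100737685),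
  Rx.mk (nat_lit 163) (nat_lit 3) (nat_lit 4) (nat_lit 2) (nat_lit 5) (nat_lit 297) (nat_lit 268) r12_297 r6_268 (nat_lit 0) (nat_lit 25761) (nat_lit 0) (nat_lit 0x7e6206ba2) (nat_lit 1100737685),
  Rx.mk (nat_lit 179) (nat_lit 3) (nat_lit 6) (nat_lit 2) (nat_lit 7) (nat_lit 298) (nat_lit 274) r12_298 r6_274 (nat_lit 0) (nat_lit 0) (nat_lit 0) (nat_lit 0x800027d6c) (nat_lit 1073758024),
  Rx.mk (nat_lit 183) (nat_lit 7) (nat_lit 6) (nat_lit 2) (nat_lit 7) (nat_lit 291) (nat_lit 275) r12_291 r6_275 (nat_lit 0) (nat_lit 0) (nat_lit 0) (nat_lit 0x800027d6c) (nat_lit 1073758024),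
  Rx.mk (nat_lit 212) (nat_lit 4) (nat_lit 2) (nat_lit 3) (nat_lit 6) (nat_lit 288) (nat_lit 265) r12_288 r6_265 (nat_lit 103466) (nat_lit 0) (nat_lit 0) (nat_lit 0x7e7552e22) (nat_lit 1099579590),
  Rx.mk (nat_lit 214) (nat_lit 6) (nat_lit 2) (nat_lit 3) (nat_lit 7) (nat_lit 289) (nat_lit 267) r12_289 r6_267 (nat_lit 0) (nat_lit 0) (nat_lit 0) (nat_lit 0x878d6f6dc) (nat_lit 951659124),
  Rx.mk (nat_lit 215) (nat_lit 7) (nat_lit 2) (nat_lit 3) (nat_lit 7) (nat_lit 293) (nat_lit 266) r12_293 r6_266 (nat_lit 0) (nat_lit 0) (nat_lit 0) (nat_lit 0x86d9d99ec) (nat_lit 963003824),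
  Rx.mk (nat_lit 419) (nat_lit 3) (nat_lit 4) (nat_lit 6) (nat_lit 5) (nat_lit 296) (nat_lit 269) r12_296 r6_269 (nat_lit 0) (nat_lit 77873) (nat_lit 0) (nat_lit 0x7ef96640c) (nat_lit 1090946797),
  Rx.mk (nat_lit 440) (nat_lit 0) (nat_lit 7) (nat_lit 6) (nat_lit 6) (nat_lit 294) (nat_lit 270) r12_294 r6_270 (nat_lit 103466) (nat_lit 0) (nat_lit 0) (nat_lit 0x7e7552e22) (nat_lit 1099579590),
  Rx.mk (nat_lit 442) (nat_lit 2) (nat_lit 7) (nat_lit 6) (nat_lit 7) (nat_lit 295) (nat_lit 272) r12_295 r6_272 (nat_lit 0) (nat_lit 0) (nat_lit 0) (nat_lit 0x878d6f6dc) (nat_lit 951659124),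
  Rx.mk (nat_lit 443) (nat_lit 3) (nat_lit 7) (nat_lit 6) (nat_lit 7) (nat_lit 299) (nat_lit 271) r12_299 r6_271 (nat_lit 0) (nat_lit 0) (nat_lit 0) (nat_lit 0x86d9d99ec) (nat_lit 963003824)]
noncomputable def e36_36 : List Rx := [
  Rx.mk (nat_lit 55) (nat_lit 7) (nat_lit 6) (nat_lit 0) (nat_lit 3) (nat_lit 305) (nat_lit 311) r12_305 r12_311 (nat_lit 0) (nat_lit 0) (nat_lit 11537) (nat_lit 0x7fec494e4) (nat_lit 1075041461),
  Rx.mk (nat_lit 163) (nat_lit 3) (nat_lit 4) (nat_lit 2) (nat_lit 5) (nat_lit 314) (nat_lit 301) r12_314 r12_301 (nat_lit 0) (nat_lit 11537) (nat_lit 0) (nat_lit 0x7fec494e4) (nat_lit 1075041461),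
  Rx.mk (nat_lit 179) (nat_lit 3) (nat_lit 6) (nat_lit 2) (nat_lit 7) (nat_lit 315) (nat_lit 304) r12_315 r12_304 (nat_lit 0) (nat_lit 0) (nat_lit 0) (nat_lit 0x83b30c5ec) (nat_lit 1013925924),
  Rx.mk (nat_lit 183) (nat_lit 7) (nat_lit 6) (nat_lit 2) (nat_lit 7) (nat_lit 306) (nat_lit 313) r12_306 r12_313 (nat_lit 0) (nat_lit 0) (nat_lit 0) (nat_lit 0x83b30c5ec) (nat_lit 1013925924),
  Rx.mk (nat_lit 187) (nat_lit 3) (nat_lit 7) (nat_lit 2) (nat_lit 7) (nat_lit 317) (nat_lit 302) r12_317 r12_302 (nat_lit 0) (nat_lit 0) (nat_lit 0) (nat_lit 0x83b30c5ec) (nat_lit 1013925924),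
  Rx.mk (nat_lit 212) (nat_lit 4) (nat_lit 2) (nat_lit 3) (nat_lit 6) (nat_lit 300) (nat_lit 309) r12_300 r12_309 (nat_lit 11537) (nat_lit 0) (nat_lit 0) (nat_lit 0x7fec494e4) (nat_lit 1075041461),
  Rx.mk (nat_lit 214) (nat_lit 6) (nat_lit 2) (nat_lit 3) (nat_lit 7) (nat_lit 303) (nat_lit 316) r12_303 r12_316 (nat_lit 0) (nat_lit 0) (nat_lit 0) (nat_lit 0x83b30c5ec) (nat_lit 1013925924),
  Rx.mk (nat_lit 215) (nat_lit 7) (nat_lit 2) (nat_lit 3) (nat_lit 7) (nat_lit 308) (nat_lit 310) r12_308 r12_310 (nat_lit 0) (nat_lit 0) (nat_lit 0) (nat_lit 0x83b30c5ec) (nat_lit 1013925924),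
  Rx.mk (nat_lit 247) (nat_lit 7) (nat_lit 6) (nat_lit 3) (nat_lit 7) (nat_lit 307) (nat_lit 312) r12_307 r12_312 (nat_lit 0) (nat_lit 0) (nat_lit 0) (nat_lit 0x83b30c5ec) (nat_lit 1013925924),
  Rx.mk (nat_lit 282) (nat_lit 2) (nat_lit 3) (nat_lit 4) (nat_lit 3) (nat_lit 311) (nat_lit 305) r12_311 r12_305 (nat_lit 0) (nat_lit 0) (nat_lit 11537) (nat_lit 0x7fec494e4) (nat_lit 1075041461),
  Rx.mk (nat_lit 410) (nat_lit 2) (nat_lit 3) (nat_lit 6) (nat_lit 7) (nat_lit 312) (nat_lit 307) r12_312 r12_307 (nat_lit 0) (nat_lit 0) (nat_lit 0) (nat_lit 0x83b30c5ec) (nat_lit 1013925924),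
  Rx.mk (nat_lit 440) (nat_lit 0) (nat_lit 7) (nat_lit 6) (nat_lit 6) (nat_lit 309) (nat_lit 300) r12_309 r12_300 (nat_lit 11537) (nat_lit 0) (nat_lit 0) (nat_lit 0x7fec494e4) (nat_lit 1075041461),
  Rx.mk (nat_lit 442) (nat_lit 2) (nat_lit 7) (nat_lit 6) (nat_lit 7) (nat_lit 310) (nat_lit 308) r12_310 r12_308 (nat_lit 0) (nat_lit 0) (nat_lit 0) (nat_lit 0x83b30c5ec) (nat_lit 1013925924),
  Rx.mk (nat_lit 443) (nat_lit 3) (nat_lit 7) (nat_lit 6) (nat_lit 7) (nat_lit 316) (nat_lit 303) r12_316 r12_303 (nat_lit 0) (nat_lit 0) (nat_lit 0) (nat_lit 0x83b30c5ec) (nat_lit 1013925924),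
  Rx.mk (nat_lit 454) (nat_lit 6) (nat_lit 0) (nat_lit 7) (nat_lit 5) (nat_lit 301) (nat_lit 314) r12_301 r12_314 (nat_lit 0) (nat_lit 11537) (nat_lit 0) (nat_lit 0x7fec494e4) (nat_lit 1075041461),
  Rx.mk (nat_lit 470) (nat_lit 6) (nat_lit 2) (nat_lit 7) (nat_lit 7) (nat_lit 302) (nat_lit 317) r12_302 r12_317 (nat_lit 0) (nat_lit 0) (nat_lit 0) (nat_lit 0x83b30c5ec) (nat_lit 1013925924),
  Rx.mk (nat_lit 474) (nat_lit 2) (nat_lit 3) (nat_lit 7) (nat_lit 7) (nat_lit 313) (nat_lit 306) r12_313 r12_306 (nat_lit 0) (nat_lit 0) (nat_lit 0) (nat_lit 0x83b30c5ec) (nat_lit 1013925924),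
  Rx.mk (nat_lit 478) (nat_lit 6) (nat_lit 3) (nat_lit 7) (nat_lit 7) (nat_lit 304) (nat_lit 315) r12_304 r12_315 (nat_lit 0) (nat_lit 0) (nat_lit 0) (nat_lit 0x83b30c5ec) (nat_lit 1013925924)]
noncomputable def e36_37 : List Rx := [
  Rx.mk (nat_lit 160) (nat_lit 0) (nat_lit 4) (nat_lit 2) (nat_lit 4) (nat_lit 319) (nat_lit 238) r12_319 r0_238 (nat_lit 140974) (nat_lit 98820) (nat_lit 0) (nat_lit 0x5c7c4d794) (nat_lit 1666140718),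
  Rx.mk (nat_lit 168) (nat_lit 0) (nat_lit 5) (nat_lit 2) (nat_lit 6) (nat_lit 321) (nat_lit 239) r12_321 r0_239 (nat_lit 10492686) (nat_lit 0) (nat_lit 0) (nat_lit 0x7fa00c536) (nat_lit 1090533610),
  Rx.mk (nat_lit 176) (nat_lit 0) (nat_lit 6) (nat_lit 2) (nat_lit 6) (nat_lit 322) (nat_lit 240) r12_322 r0_240 (nat_lit 1111496) (nat_lit 0) (nat_lit 0) (nat_lit 0x7447c7c00) (nat_lit 1270325320),
  Rx.mk (nat_lit 416) (nat_lit 0) (nat_lit 4) (nat_lit 6) (nat_lit 4) (nat_lit 318) (nat_lit 236) r12_318 r0_236 (nat_lit 23874) (nat_lit 18804) (nat_lit 0) (nat_lit 0x617c80900) (nat_lit 1582544202),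
  Rx.mk (nat_lit 418) (nat_lit 2) (nat_lit 4) (nat_lit 6) (nat_lit 5) (nat_lit 323) (nat_lit 241) r12_323 r0_241 (nat_lit 0) (nat_lit 805156) (nat_lit 0) (nat_lit 0x806db6b8a) (nat_lit 1067709380),
  Rx.mk (nat_lit 424) (nat_lit 0) (nat_lit 5) (nat_lit 6) (nat_lit 6) (nat_lit 320) (nat_lit 237) r12_320 r0_237 (nat_lit 6092) (nat_lit 0) (nat_lit 0) (nat_lit 0x90e6c8a2c) (nat_lit 800438116),
  Rx.mk (nat_lit 426) (nat_lit 2) (nat_lit 5) (nat_lit 6) (nat_lit 7) (nat_lit 324) (nat_lit 242) r12_324 r0_242 (nat_lit 0) (nat_lit 0) (nat_lit 0) (nat_lit 0x9d314c5ce) (nat_lit 601741024)]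
noncomputable def e36_38 : List Rx := [
  Rx.mk (nat_lit 160) (nat_lit 0) (nat_lit 4) (nat_lit 2) (nat_lit 4) (nat_lit 326) (nat_lit 236) r12_326 r0_236 (nat_lit 18804) (nat_lit 23874) (nat_lit 0) (nat_lit 0x617c80900) (nat_lit 1582544202),
  Rx.mk (nat_lit 161) (nat_lit 1) (nat_lit 4) (nat_lit 2) (nat_lit 5) (nat_lit 329) (nat_lit 237) r12_329 r0_237 (nat_lit 0) (nat_lit 6092) (nat_lit 0) (nat_lit 0x90e6c8a2c) (nat_lit 800438116),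
  Rx.mk (nat_lit 176) (nat_lit 0) (nat_lit 6) (nat_lit 2) (nat_lit 6) (nat_lit 327) (nat_lit 241) r12_327 r0_241 (nat_lit 805156) (nat_lit 0) (nat_lit 0) (nat_lit 0x806db6b8a) (nat_lit 1067709380),
  Rx.mk (nat_lit 177) (nat_lit 1) (nat_lit 6) (nat_lit 2) (nat_lit 7) (nat_lit 330) (nat_lit 242) r12_330 r0_242 (nat_lit 0) (nat_lit 0) (nat_lit 0) (nat_lit 0x9d314c5ce) (nat_lit 601741024),
  Rx.mk (nat_lit 416) (nat_lit 0) (nat_lit 4) (nat_lit 6) (nat_lit 4) (nat_lit 325) (nat_lit 238) r12_325 r0_238 (nat_lit 98820) (nat_lit 140974) (nat_lit 0) (nat_lit 0x5c7c4d794) (nat_lit 1666140718),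
  Rx.mk (nat_lit 417) (nat_lit 1) (nat_lit 4) (nat_lit 6) (nat_lit 5) (nat_lit 328) (nat_lit 239) r12_328 r0_239 (nat_lit 0) (nat_lit 10492686) (nat_lit 0) (nat_lit 0x7fa00c536) (nat_lit 1090533610),
  Rx.mk (nat_lit 418) (nat_lit 2) (nat_lit 4) (nat_lit 6) (nat_lit 5) (nat_lit 331) (nat_lit 240) r12_331 r0_240 (nat_lit 0) (nat_lit 1111496) (nat_lit 0) (nat_lit 0x7447c7c00) (nat_lit 1270325320)]
noncomputable def e36_39 : List Rx := [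
  Rx.mk (nat_lit 160) (nat_lit 0) (nat_lit 4) (nat_lit 2) (nat_lit 4) (nat_lit 333) (nat_lit 305) r12_333 r7_305 (nat_lit 155548) (nat_lit 146579) (nat_lit 0) (nat_lit 0x6d6500044) (nat_lit 1384285151),
  Rx.mk (nat_lit 161) (nat_lit 1) (nat_lit 4) (nat_lit 2) (nat_lit 5) (nat_lit 338) (nat_lit 310) r12_338 r7_310 (nat_lit 0) (nat_lit 1167101) (nat_lit 0) (nat_lit 0x83e5cf1aa) (nat_lit 1011968725),
  Rx.mk (nat_lit 168) (nat_lit 0) (nat_lit 5) (nat_lit 2) (nat_lit 6) (nat_lit 335) (nat_lit 306) r12_335 r7_306 (nat_lit 1674776) (nat_lit 0) (nat_lit 0) (nat_lit 0x80296d58c) (nat_lit 1072913600),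
  Rx.mk (nat_lit 169) (nat_lit 1) (nat_lit 5) (nat_lit 2) (nat_lit 7) (nat_lit 340) (nat_lit 311) r12_340 r7_311 (nat_lit 0) (nat_lit 0) (nat_lit 0) (nat_lit 0x80fc0fe2c) (nat_lit 1057910624),
  Rx.mk (nat_lit 176) (nat_lit 0) (nat_lit 6) (nat_lit 2) (nat_lit 6) (nat_lit 336) (nat_lit 307) r12_336 r7_307 (nat_lit 1048552) (nat_lit 0) (nat_lit 0) (nat_lit 0x8019d1236) (nat_lit 1073292576),
  Rx.mk (nat_lit 177) (nat_lit 1) (nat_lit 6) (nat_lit 2) (nat_lit 7) (nat_lit 341) (nat_lit 312) r12_341 r7_312 (nat_lit 0) (nat_lit 0) (nat_lit 0) (nat_lit 0x8ba799e96) (nat_lit 885357024),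
  Rx.mk (nat_lit 416) (nat_lit 0) (nat_lit 4) (nat_lit 6) (nat_lit 4) (nat_lit 332) (nat_lit 303) r12_332 r7_303 (nat_lit 146579) (nat_lit 155548) (nat_lit 0) (nat_lit 0x6d6500044) (nat_lit 1384285151),
  Rx.mk (nat_lit 417) (nat_lit 1) (nat_lit 4) (nat_lit 6) (nat_lit 5) (nat_lit 337) (nat_lit 308) r12_337 r7_308 (nat_lit 0) (nat_lit 1674776) (nat_lit 0) (nat_lit 0x80296d58c) (nat_lit 1072913600),
  Rx.mk (nat_lit 418) (nat_lit 2) (nat_lit 4) (nat_lit 6) (nat_lit 5) (nat_lit 342) (nat_lit 313) r12_342 r7_313 (nat_lit 0) (nat_lit 1048552) (nat_lit 0) (nat_lit 0x8019d1236) (nat_lit 1073292576),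
  Rx.mk (nat_lit 424) (nat_lit 0) (nat_lit 5) (nat_lit 6) (nat_lit 6) (nat_lit 334) (nat_lit 304) r12_334 r7_304 (nat_lit 1167101) (nat_lit 0) (nat_lit 0) (nat_lit 0x83e5cf1aa) (nat_lit 1011968725),
  Rx.mk (nat_lit 425) (nat_lit 1) (nat_lit 5) (nat_lit 6) (nat_lit 7) (nat_lit 339) (nat_lit 309) r12_339 r7_309 (nat_lit 0) (nat_lit 0) (nat_lit 0) (nat_lit 0x80fc0fe2c) (nat_lit 1057910624),
  Rx.mk (nat_lit 426) (nat_lit 2) (nat_lit 5) (nat_lit 6) (nat_lit 7) (nat_lit 343) (nat_lit 314) r12_343 r7_314 (nat_lit 0) (nat_lit 0) (nat_lit 0) (nat_lit 0x8ba799e96) (nat_lit 885357024)]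
noncomputable def e36_40 : List Rx := [
  Rx.mk (nat_lit 53) (nat_lit 5) (nat_lit 6) (nat_lit 0) (nat_lit 3) (nat_lit 344) (nat_lit 273) r12_344 r2_273 (nat_lit 0) (nat_lit 0) (nat_lit 8928741) (nat_lit 0x7f2f5106c) (nat_lit 1096360565),
  Rx.mk (nat_lit 161) (nat_lit 1) (nat_lit 4) (nat_lit 2) (nat_lit 5) (nat_lit 346) (nat_lit 272) r12_346 r2_272 (nat_lit 0) (nat_lit 8928741) (nat_lit 0) (nat_lit 0x7f2f5106c) (nat_lit 1096360565),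
  Rx.mk (nat_lit 177) (nat_lit 1) (nat_lit 6) (nat_lit 2) (nat_lit 7) (nat_lit 347) (nat_lit 274) r12_347 r2_274 (nat_lit 0) (nat_lit 0) (nat_lit 0) (nat_lit 0x80029938e) (nat_lit 1073741824),
  Rx.mk (nat_lit 181) (nat_lit 5) (nat_lit 6) (nat_lit 2) (nat_lit 7) (nat_lit 345) (nat_lit 275) r12_345 r2_275 (nat_lit 0) (nat_lit 0) (nat_lit 0) (nat_lit 0x80029938e) (nat_lit 1073741824)]
noncomputable def e36_41 : List Rx := [
  Rx.mk (nat_lit 161) (nat_lit 1) (nat_lit 4) (nat_lit 2) (nat_lit 5) (nat_lit 349) (nat_lit 244) r12_349 r9_244 (nat_lit 0) (nat_lit 6762413) (nat_lit 0) (nat_lit 0x7f0f02d4c) (nat_lit 1096295937),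
  Rx.mk (nat_lit 169) (nat_lit 1) (nat_lit 5) (nat_lit 2) (nat_lit 7) (nat_lit 350) (nat_lit 245) r12_350 r9_245 (nat_lit 0) (nat_lit 0) (nat_lit 0) (nat_lit 0x80029938e) (nat_lit 1073741824),
  Rx.mk (nat_lit 177) (nat_lit 1) (nat_lit 6) (nat_lit 2) (nat_lit 7) (nat_lit 351) (nat_lit 246) r12_351 r9_246 (nat_lit 0) (nat_lit 0) (nat_lit 0) (nat_lit 0x80029938e) (nat_lit 1073741824),
  Rx.mk (nat_lit 181) (nat_lit 5) (nat_lit 6) (nat_lit 2) (nat_lit 7) (nat_lit 348) (nat_lit 247) r12_348 r9_247 (nat_lit 0) (nat_lit 0) (nat_lit 0) (nat_lit 0x80029938e) (nat_lit 1073741824)]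
noncomputable def e36_42 : List Rx := [
  Rx.mk (nat_lit 53) (nat_lit 5) (nat_lit 6) (nat_lit 0) (nat_lit 3) (nat_lit 352) (nat_lit 244) r12_352 r9_244 (nat_lit 0) (nat_lit 0) (nat_lit 6762413) (nat_lit 0x7f0f02d4c) (nat_lit 1096295937),
  Rx.mk (nat_lit 117) (nat_lit 5) (nat_lit 6) (nat_lit 1) (nat_lit 7) (nat_lit 353) (nat_lit 245) r12_353 r9_245 (nat_lit 0) (nat_lit 0) (nat_lit 0) (nat_lit 0x80029938e) (nat_lit 1073741824),
  Rx.mk (nat_lit 177) (nat_lit 1) (nat_lit 6) (nat_lit 2) (nat_lit 7) (nat_lit 355) (nat_lit 247) r12_355 r9_247 (nat_lit 0) (nat_lit 0) (nat_lit 0) (nat_lit 0x80029938e) (nat_lit 1073741824),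
  Rx.mk (nat_lit 181) (nat_lit 5) (nat_lit 6) (nat_lit 2) (nat_lit 7) (nat_lit 354) (nat_lit 246) r12_354 r9_246 (nat_lit 0) (nat_lit 0) (nat_lit 0) (nat_lit 0x80029938e) (nat_lit 1073741824)]
noncomputable def e36_43 : List Rx := [
  Rx.mk (nat_lit 161) (nat_lit 1) (nat_lit 4) (nat_lit 2) (nat_lit 5) (nat_lit 357) (nat_lit 249) r12_357 r1_249 (nat_lit 0) (nat_lit 13758) (nat_lit 0) (nat_lit 0x8684d43de) (nat_lit 968343482),
  Rx.mk (nat_lit 177) (nat_lit 1) (nat_lit 6) (nat_lit 2) (nat_lit 7) (nat_lit 358) (nat_lit 251) r12_358 r1_251 (nat_lit 0) (nat_lit 0) (nat_lit 0) (nat_lit 0xa214ce410) (nat_lit 522685424),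
  Rx.mk (nat_lit 417) (nat_lit 1) (nat_lit 4) (nat_lit 6) (nat_lit 5) (nat_lit 356) (nat_lit 250) r12_356 r1_250 (nat_lit 0) (nat_lit 8872160) (nat_lit 0) (nat_lit 0x8188ce430) (nat_lit 1057873084)]
noncomputable def e36_44 : List Rx := [
  Rx.mk (nat_lit 161) (nat_lit 1) (nat_lit 4) (nat_lit 2) (nat_lit 5) (nat_lit 360) (nat_lit 227) r12_360 r8_227 (nat_lit 0) (nat_lit 1064185) (nat_lit 0) (nat_lit 0x8026828f4) (nat_lit 1072501409),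
  Rx.mk (nat_lit 169) (nat_lit 1) (nat_lit 5) (nat_lit 2) (nat_lit 7) (nat_lit 362) (nat_lit 228) r12_362 r8_228 (nat_lit 0) (nat_lit 0) (nat_lit 0) (nat_lit 0x809967572) (nat_lit 1064151724),
  Rx.mk (nat_lit 177) (nat_lit 1) (nat_lit 6) (nat_lit 2) (nat_lit 7) (nat_lit 363) (nat_lit 229) r12_363 r8_229 (nat_lit 0) (nat_lit 0) (nat_lit 0) (nat_lit 0x80d3793a0) (nat_lit 1060477524),
  Rx.mk (nat_lit 417) (nat_lit 1) (nat_lit 4) (nat_lit 6) (nat_lit 5) (nat_lit 359) (nat_lit 225) r12_359 r8_225 (nat_lit 0) (nat_lit 6182575) (nat_lit 0) (nat_lit 0x7fd1de596) (nat_lit 1083062199),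
  Rx.mk (nat_lit 425) (nat_lit 1) (nat_lit 5) (nat_lit 6) (nat_lit 7) (nat_lit 361) (nat_lit 226) r12_361 r8_226 (nat_lit 0) (nat_lit 0) (nat_lit 0) (nat_lit 0x80029938e) (nat_lit 1073741824)]
noncomputable def e36_45 : List Rx := [
  Rx.mk (nat_lit 168) (nat_lit 0) (nat_lit 5) (nat_lit 2) (nat_lit 6) (nat_lit 365) (nat_lit 250) r12_365 r1_250 (nat_lit 8872160) (nat_lit 0) (nat_lit 0) (nat_lit 0x8188ce430) (nat_lit 1057873084),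
  Rx.mk (nat_lit 424) (nat_lit 0) (nat_lit 5) (nat_lit 6) (nat_lit 6) (nat_lit 364) (nat_lit 249) r12_364 r1_249 (nat_lit 13758) (nat_lit 0) (nat_lit 0) (nat_lit 0x8684d43de) (nat_lit 968343482),
  Rx.mk (nat_lit 426) (nat_lit 2) (nat_lit 5) (nat_lit 6) (nat_lit 7) (nat_lit 366) (nat_lit 251) r12_366 r1_251 (nat_lit 0) (nat_lit 0) (nat_lit 0) (nat_lit 0xa214ce410) (nat_lit 522685424)]
noncomputable def e36_46 : List Rx := [
  Rx.mk (nat_lit 266) (nat_lit 2) (nat_lit 1) (nat_lit 4) (nat_lit 3) (nat_lit 369) (nat_lit 273) r12_369 r2_273 (nat_lit 0) (nat_lit 0) (nat_lit 8928741) (nat_lit 0x7f2f5106c) (nat_lit 1096360565),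
  Rx.mk (nat_lit 394) (nat_lit 2) (nat_lit 1) (nat_lit 6) (nat_lit 7) (nat_lit 370) (nat_lit 275) r12_370 r2_275 (nat_lit 0) (nat_lit 0) (nat_lit 0) (nat_lit 0x80029938e) (nat_lit 1073741824),
  Rx.mk (nat_lit 424) (nat_lit 0) (nat_lit 5) (nat_lit 6) (nat_lit 6) (nat_lit 367) (nat_lit 272) r12_367 r2_272 (nat_lit 8928741) (nat_lit 0) (nat_lit 0) (nat_lit 0x7f2f5106c) (nat_lit 1096360565),
  Rx.mk (nat_lit 426) (nat_lit 2) (nat_lit 5) (nat_lit 6) (nat_lit 7) (nat_lit 368) (nat_lit 274) r12_368 r2_274 (nat_lit 0) (nat_lit 0) (nat_lit 0) (nat_lit 0x80029938e) (nat_lit 1073741824)]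
noncomputable def e36_47 : List Rx := [
  Rx.mk (nat_lit 168) (nat_lit 0) (nat_lit 5) (nat_lit 2) (nat_lit 6) (nat_lit 372) (nat_lit 225) r12_372 r8_225 (nat_lit 6182575) (nat_lit 0) (nat_lit 0) (nat_lit 0x7fd1de596) (nat_lit 1083062199),
  Rx.mk (nat_lit 169) (nat_lit 1) (nat_lit 5) (nat_lit 2) (nat_lit 7) (nat_lit 374) (nat_lit 226) r12_374 r8_226 (nat_lit 0) (nat_lit 0) (nat_lit 0) (nat_lit 0x80029938e) (nat_lit 1073741824),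
  Rx.mk (nat_lit 424) (nat_lit 0) (nat_lit 5) (nat_lit 6) (nat_lit 6) (nat_lit 371) (nat_lit 227) r12_371 r8_227 (nat_lit 1064185) (nat_lit 0) (nat_lit 0) (nat_lit 0x8026828f4) (nat_lit 1072501409),
  Rx.mk (nat_lit 425) (nat_lit 1) (nat_lit 5) (nat_lit 6) (nat_lit 7) (nat_lit 373) (nat_lit 228) r12_373 r8_228 (nat_lit 0) (nat_lit 0) (nat_lit 0) (nat_lit 0x809967572) (nat_lit 1064151724),
  Rx.mk (nat_lit 426) (nat_lit 2) (nat_lit 5) (nat_lit 6) (nat_lit 7) (nat_lit 375) (nat_lit 229) r12_375 r8_229 (nat_lit 0) (nat_lit 0) (nat_lit 0) (nat_lit 0x80d3793a0) (nat_lit 1060477524)]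
noncomputable def e36_48 : List Rx := [
  Rx.mk (nat_lit 394) (nat_lit 2) (nat_lit 1) (nat_lit 6) (nat_lit 7) (nat_lit 379) (nat_lit 247) r12_379 r9_247 (nat_lit 0) (nat_lit 0) (nat_lit 0) (nat_lit 0x80029938e) (nat_lit 1073741824),
  Rx.mk (nat_lit 424) (nat_lit 0) (nat_lit 5) (nat_lit 6) (nat_lit 6) (nat_lit 376) (nat_lit 244) r12_376 r9_244 (nat_lit 6762413) (nat_lit 0) (nat_lit 0) (nat_lit 0x7f0f02d4c) (nat_lit 1096295937),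
  Rx.mk (nat_lit 425) (nat_lit 1) (nat_lit 5) (nat_lit 6) (nat_lit 7) (nat_lit 377) (nat_lit 245) r12_377 r9_245 (nat_lit 0) (nat_lit 0) (nat_lit 0) (nat_lit 0x80029938e) (nat_lit 1073741824),
  Rx.mk (nat_lit 426) (nat_lit 2) (nat_lit 5) (nat_lit 6) (nat_lit 7) (nat_lit 378) (nat_lit 246) r12_378 r9_246 (nat_lit 0) (nat_lit 0) (nat_lit 0) (nat_lit 0x80029938e) (nat_lit 1073741824)]
noncomputable def e36_49 : List Rx := [
  Rx.mk (nat_lit 266) (nat_lit 2) (nat_lit 1) (nat_lit 4) (nat_lit 3) (nat_lit 381) (nat_lit 244) r12_381 r9_244 (nat_lit 0) (nat_lit 0) (nat_lit 6762413) (nat_lit 0x7f0f02d4c) (nat_lit 1096295937),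
  Rx.mk (nat_lit 330) (nat_lit 2) (nat_lit 1) (nat_lit 5) (nat_lit 7) (nat_lit 382) (nat_lit 245) r12_382 r9_245 (nat_lit 0) (nat_lit 0) (nat_lit 0) (nat_lit 0x80029938e) (nat_lit 1073741824),
  Rx.mk (nat_lit 394) (nat_lit 2) (nat_lit 1) (nat_lit 6) (nat_lit 7) (nat_lit 383) (nat_lit 246) r12_383 r9_246 (nat_lit 0) (nat_lit 0) (nat_lit 0) (nat_lit 0x80029938e) (nat_lit 1073741824),
  Rx.mk (nat_lit 426) (nat_lit 2) (nat_lit 5) (nat_lit 6) (nat_lit 7) (nat_lit 380) (nat_lit 247) r12_380 r9_247 (nat_lit 0) (nat_lit 0) (nat_lit 0) (nat_lit 0x80029938e) (nat_lit 1073741824)]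
noncomputable def e36_50 : List Rx := [
  Rx.mk (nat_lit 160) (nat_lit 0) (nat_lit 4) (nat_lit 2) (nat_lit 4) (nat_lit 385) (nat_lit 237) r12_385 r3_237 (nat_lit 544) (nat_lit 499) (nat_lit 0) (nat_lit 0x7fffd6b92) (nat_lit 1073753567),
  Rx.mk (nat_lit 163) (nat_lit 3) (nat_lit 4) (nat_lit 2) (nat_lit 5) (nat_lit 390) (nat_lit 239) r12_390 r3_239 (nat_lit 0) (nat_lit 12284) (nat_lit 0) (nat_lit 0x8001debba) (nat_lit 1073642708),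
  Rx.mk (nat_lit 176) (nat_lit 0) (nat_lit 6) (nat_lit 2) (nat_lit 6) (nat_lit 386) (nat_lit 238) r12_386 r3_238 (nat_lit 30245) (nat_lit 0) (nat_lit 0) (nat_lit 0x7f0e9ecac) (nat_lit 1089499869),
  Rx.mk (nat_lit 179) (nat_lit 3) (nat_lit 6) (nat_lit 2) (nat_lit 7) (nat_lit 391) (nat_lit 240) r12_391 r3_240 (nat_lit 0) (nat_lit 0) (nat_lit 0) (nat_lit 0x80e37f114) (nat_lit 1059429124),
  Rx.mk (nat_lit 416) (nat_lit 0) (nat_lit 4) (nat_lit 6) (nat_lit 4) (nat_lit 384) (nat_lit 235) r12_384 r3_235 (nat_lit 499) (nat_lit 544) (nat_lit 0) (nat_lit 0x7fffd6b92) (nat_lit 1073753567),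
  Rx.mk (nat_lit 418) (nat_lit 2) (nat_lit 4) (nat_lit 6) (nat_lit 5) (nat_lit 388) (nat_lit 241) r12_388 r3_241 (nat_lit 0) (nat_lit 30245) (nat_lit 0) (nat_lit 0x7f0e9ecac) (nat_lit 1089499869),
  Rx.mk (nat_lit 440) (nat_lit 0) (nat_lit 7) (nat_lit 6) (nat_lit 6) (nat_lit 387) (nat_lit 236) r12_387 r3_236 (nat_lit 12284) (nat_lit 0) (nat_lit 0) (nat_lit 0x8001debba) (nat_lit 1073642708),
  Rx.mk (nat_lit 442) (nat_lit 2) (nat_lit 7) (nat_lit 6) (nat_lit 7) (nat_lit 389) (nat_lit 242) r12_389 r3_242 (nat_lit 0) (nat_lit 0) (nat_lit 0) (nat_lit 0x80e37f114) (nat_lit 1059429124)]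
noncomputable def e36_51 : List Rx := [
  Rx.mk (nat_lit 160) (nat_lit 0) (nat_lit 4) (nat_lit 2) (nat_lit 4) (nat_lit 393) (nat_lit 244) r12_393 r4_244 (nat_lit 345777) (nat_lit 92132) (nat_lit 0) (nat_lit 0x669218308) (nat_lit 1498185533),
  Rx.mk (nat_lit 163) (nat_lit 3) (nat_lit 4) (nat_lit 2) (nat_lit 5) (nat_lit 401) (nat_lit 247) r12_401 r4_247 (nat_lit 0) (nat_lit 27079) (nat_lit 0) (nat_lit 0x4f6309a74) (nat_lit 1884305203),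
  Rx.mk (nat_lit 168) (nat_lit 0) (nat_lit 5) (nat_lit 2) (nat_lit 6) (nat_lit 395) (nat_lit 245) r12_395 r4_245 (nat_lit 2731196) (nat_lit 0) (nat_lit 0) (nat_lit 0x7f937f28c) (nat_lit 1083641920),
  Rx.mk (nat_lit 171) (nat_lit 3) (nat_lit 5) (nat_lit 2) (nat_lit 7) (nat_lit 402) (nat_lit 248) r12_402 r4_248 (nat_lit 0) (nat_lit 0) (nat_lit 0) (nat_lit 0x7cc23aad4) (nat_lit 1127844724),
  Rx.mk (nat_lit 176) (nat_lit 0) (nat_lit 6) (nat_lit 2) (nat_lit 6) (nat_lit 396) (nat_lit 246) r12_396 r4_246 (nat_lit 2418689) (nat_lit 0) (nat_lit 0) (nat_lit 0x799f9ba12) (nat_lit 1182552513),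
  Rx.mk (nat_lit 179) (nat_lit 3) (nat_lit 6) (nat_lit 2) (nat_lit 7) (nat_lit 403) (nat_lit 249) r12_403 r4_249 (nat_lit 0) (nat_lit 0) (nat_lit 0) (nat_lit 0x789ee7f22) (nat_lit 1196826224),
  Rx.mk (nat_lit 416) (nat_lit 0) (nat_lit 4) (nat_lit 6) (nat_lit 4) (nat_lit 392) (nat_lit 241) r12_392 r4_241 (nat_lit 7512) (nat_lit 4959) (nat_lit 0) (nat_lit 0x740a9ac7e) (nat_lit 1273141595),
  Rx.mk (nat_lit 418) (nat_lit 2) (nat_lit 4) (nat_lit 6) (nat_lit 5) (nat_lit 398) (nat_lit 250) r12_398 r4_250 (nat_lit 0) (nat_lit 634217) (nat_lit 0) (nat_lit 0x80e08e356) (nat_lit 1060265941),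
  Rx.mk (nat_lit 424) (nat_lit 0) (nat_lit 5) (nat_lit 6) (nat_lit 6) (nat_lit 394) (nat_lit 242) r12_394 r4_242 (nat_lit 1474755) (nat_lit 0) (nat_lit 0) (nat_lit 0x7fc5e39c6) (nat_lit 1079117479),
  Rx.mk (nat_lit 426) (nat_lit 2) (nat_lit 5) (nat_lit 6) (nat_lit 7) (nat_lit 399) (nat_lit 251) r12_399 r4_251 (nat_lit 0) (nat_lit 0) (nat_lit 0) (nat_lit 0x80e0ca86a) (nat_lit 1059635624),
  Rx.mk (nat_lit 440) (nat_lit 0) (nat_lit 7) (nat_lit 6) (nat_lit 6) (nat_lit 397) (nat_lit 243) r12_397 r4_243 (nat_lit 2620997) (nat_lit 0) (nat_lit 0) (nat_lit 0x805ae309e) (nat_lit 1070736421),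
  Rx.mk (nat_lit 442) (nat_lit 2) (nat_lit 7) (nat_lit 6) (nat_lit 7) (nat_lit 400) (nat_lit 252) r12_400 r4_252 (nat_lit 0) (nat_lit 0) (nat_lit 0) (nat_lit 0x80b8f660e) (nat_lit 1062154324)]
noncomputable def e36_52 : List Rx := [
  Rx.mk (nat_lit 160) (nat_lit 0) (nat_lit 4) (nat_lit 2) (nat_lit 4) (nat_lit 404) (nat_lit 246) r12_404 r5_246 (nat_lit 27932) (nat_lit 20188) (nat_lit 0) (nat_lit 0x7a72d005e) (nat_lit 1166357044),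
  Rx.mk (nat_lit 163) (nat_lit 3) (nat_lit 4) (nat_lit 2) (nat_lit 5) (nat_lit 409) (nat_lit 249) r12_409 r5_249 (nat_lit 0) (nat_lit 225577) (nat_lit 0) (nat_lit 0x86c1ebf38) (nat_lit 964739301),
  Rx.mk (nat_lit 176) (nat_lit 0) (nat_lit 6) (nat_lit 2) (nat_lit 6) (nat_lit 405) (nat_lit 248) r12_405 r5_248 (nat_lit 1388645) (nat_lit 0) (nat_lit 0) (nat_lit 0x7e512bfee) (nat_lit 1103271969),
  Rx.mk (nat_lit 179) (nat_lit 3) (nat_lit 6) (nat_lit 2) (nat_lit 7) (nat_lit 410) (nat_lit 250) r12_410 r5_250 (nat_lit 0) (nat_lit 0) (nat_lit 0) (nat_lit 0x99d4baab6) (nat_lit 656104224),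
  Rx.mk (nat_lit 184) (nat_lit 0) (nat_lit 7) (nat_lit 2) (nat_lit 6) (nat_lit 407) (nat_lit 247) r12_407 r5_247 (nat_lit 745268) (nat_lit 0) (nat_lit 0) (nat_lit 0x8ddce6b6a) (nat_lit 850382092),
  Rx.mk (nat_lit 440) (nat_lit 0) (nat_lit 7) (nat_lit 6) (nat_lit 6) (nat_lit 406) (nat_lit 245) r12_406 r5_245 (nat_lit 17041) (nat_lit 0) (nat_lit 0) (nat_lit 0x8b003f3bc) (nat_lit 895869165),
  Rx.mk (nat_lit 442) (nat_lit 2) (nat_lit 7) (nat_lit 6) (nat_lit 7) (nat_lit 408) (nat_lit 251) r12_408 r5_251 (nat_lit 0) (nat_lit 0) (nat_lit 0) (nat_lit 0x7ff59fdd6) (nat_lit 1074454124)]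
noncomputable def e36_53 : List Rx := [
  Rx.mk (nat_lit 160) (nat_lit 0) (nat_lit 4) (nat_lit 2) (nat_lit 4) (nat_lit 412) (nat_lit 241) r12_412 r4_241 (nat_lit 4959) (nat_lit 7512) (nat_lit 0) (nat_lit 0x740a9ac7e) (nat_lit 1273141595),
  Rx.mk (nat_lit 161) (nat_lit 1) (nat_lit 4) (nat_lit 2) (nat_lit 5) (nat_lit 416) (nat_lit 242) r12_416 r4_242 (nat_lit 0) (nat_lit 1474755) (nat_lit 0) (nat_lit 0x7fc5e39c6) (nat_lit 1079117479),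
  Rx.mk (nat_lit 163) (nat_lit 3) (nat_lit 4) (nat_lit 2) (nat_lit 5) (nat_lit 421) (nat_lit 243) r12_421 r4_243 (nat_lit 0) (nat_lit 2620997) (nat_lit 0) (nat_lit 0x805ae309e) (nat_lit 1070736421),
  Rx.mk (nat_lit 176) (nat_lit 0) (nat_lit 6) (nat_lit 2) (nat_lit 6) (nat_lit 413) (nat_lit 250) r12_413 r4_250 (nat_lit 634217) (nat_lit 0) (nat_lit 0) (nat_lit 0x80e08e356) (nat_lit 1060265941),
  Rx.mk (nat_lit 177) (nat_lit 1) (nat_lit 6) (nat_lit 2) (nat_lit 7) (nat_lit 417) (nat_lit 251) r12_417 r4_251 (nat_lit 0) (nat_lit 0) (nat_lit 0) (nat_lit 0x80e0ca86a) (nat_lit 1059635624),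
  Rx.mk (nat_lit 179) (nat_lit 3) (nat_lit 6) (nat_lit 2) (nat_lit 7) (nat_lit 422) (nat_lit 252) r12_422 r4_252 (nat_lit 0) (nat_lit 0) (nat_lit 0) (nat_lit 0x80b8f660e) (nat_lit 1062154324),
  Rx.mk (nat_lit 416) (nat_lit 0) (nat_lit 4) (nat_lit 6) (nat_lit 4) (nat_lit 411) (nat_lit 244) r12_411 r4_244 (nat_lit 92132) (nat_lit 345777) (nat_lit 0) (nat_lit 0x669218308) (nat_lit 1498185533),
  Rx.mk (nat_lit 417) (nat_lit 1) (nat_lit 4) (nat_lit 6) (nat_lit 5) (nat_lit 415) (nat_lit 245) r12_415 r4_245 (nat_lit 0) (nat_lit 2731196) (nat_lit 0) (nat_lit 0x7f937f28c) (nat_lit 1083641920),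
  Rx.mk (nat_lit 418) (nat_lit 2) (nat_lit 4) (nat_lit 6) (nat_lit 5) (nat_lit 419) (nat_lit 246) r12_419 r4_246 (nat_lit 0) (nat_lit 2418689) (nat_lit 0) (nat_lit 0x799f9ba12) (nat_lit 1182552513),
  Rx.mk (nat_lit 440) (nat_lit 0) (nat_lit 7) (nat_lit 6) (nat_lit 6) (nat_lit 414) (nat_lit 247) r12_414 r4_247 (nat_lit 27079) (nat_lit 0) (nat_lit 0) (nat_lit 0x4f6309a74) (nat_lit 1884305203),
  Rx.mk (nat_lit 441) (nat_lit 1) (nat_lit 7) (nat_lit 6) (nat_lit 7) (nat_lit 418) (nat_lit 248) r12_418 r4_248 (nat_lit 0) (nat_lit 0) (nat_lit 0) (nat_lit 0x7cc23aad4) (nat_lit 1127844724),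
  Rx.mk (nat_lit 442) (nat_lit 2) (nat_lit 7) (nat_lit 6) (nat_lit 7) (nat_lit 420) (nat_lit 249) r12_420 r4_249 (nat_lit 0) (nat_lit 0) (nat_lit 0) (nat_lit 0x789ee7f22) (nat_lit 1196826224)]
noncomputable def e36_54 : List Rx := [
  Rx.mk (nat_lit 160) (nat_lit 0) (nat_lit 4) (nat_lit 2) (nat_lit 4) (nat_lit 424) (nat_lit 260) r12_424 r10_260 (nat_lit 254448) (nat_lit 248757) (nat_lit 0) (nat_lit 0x6d3468e40) (nat_lit 1387661829),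
  Rx.mk (nat_lit 161) (nat_lit 1) (nat_lit 4) (nat_lit 2) (nat_lit 5) (nat_lit 430) (nat_lit 265) r12_430 r10_265 (nat_lit 0) (nat_lit 1311948) (nat_lit 0) (nat_lit 0x83fdc9f30) (nat_lit 1010600972),
  Rx.mk (nat_lit 163) (nat_lit 3) (nat_lit 4) (nat_lit 2) (nat_lit 5) (nat_lit 436) (nat_lit 267) r12_436 r10_267 (nat_lit 0) (nat_lit 1325018) (nat_lit 0) (nat_lit 0x844914026) (nat_lit 1005854542),
  Rx.mk (nat_lit 168) (nat_lit 0) (nat_lit 5) (nat_lit 2) (nat_lit 6) (nat_lit 426) (nat_lit 261) r12_426 r10_261 (nat_lit 1831361) (nat_lit 0) (nat_lit 0) (nat_lit 0x80d99ecf8) (nat_lit 1061919385),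
  Rx.mk (nat_lit 171) (nat_lit 3) (nat_lit 5) (nat_lit 2) (nat_lit 7) (nat_lit 437) (nat_lit 268) r12_437 r10_268 (nat_lit 0) (nat_lit 0) (nat_lit 0) (nat_lit 0x80425a68a) (nat_lit 1069671024),
  Rx.mk (nat_lit 176) (nat_lit 0) (nat_lit 6) (nat_lit 2) (nat_lit 6) (nat_lit 427) (nat_lit 262) r12_427 r10_262 (nat_lit 1075682) (nat_lit 0) (nat_lit 0) (nat_lit 0x8008ee41e) (nat_lit 1074391406),
  Rx.mk (nat_lit 177) (nat_lit 1) (nat_lit 6) (nat_lit 2) (nat_lit 7) (nat_lit 431) (nat_lit 266) r12_431 r10_266 (nat_lit 0) (nat_lit 0) (nat_lit 0) (nat_lit 0x868d991c2) (nat_lit 967853924),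
  Rx.mk (nat_lit 179) (nat_lit 3) (nat_lit 6) (nat_lit 2) (nat_lit 7) (nat_lit 438) (nat_lit 269) r12_438 r10_269 (nat_lit 0) (nat_lit 0) (nat_lit 0) (nat_lit 0x868d991c2) (nat_lit 967853924),
  Rx.mk (nat_lit 416) (nat_lit 0) (nat_lit 4) (nat_lit 6) (nat_lit 4) (nat_lit 423) (nat_lit 257) r12_423 r10_257 (nat_lit 248757) (nat_lit 254448) (nat_lit 0) (nat_lit 0x6d3468e40) (nat_lit 1387661829),
  Rx.mk (nat_lit 417) (nat_lit 1) (nat_lit 4) (nat_lit 6) (nat_lit 5) (nat_lit 429) (nat_lit 263) r12_429 r10_263 (nat_lit 0) (nat_lit 1831361) (nat_lit 0) (nat_lit 0x80d99ecf8) (nat_lit 1061919385),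
  Rx.mk (nat_lit 418) (nat_lit 2) (nat_lit 4) (nat_lit 6) (nat_lit 5) (nat_lit 433) (nat_lit 270) r12_433 r10_270 (nat_lit 0) (nat_lit 1075682) (nat_lit 0) (nat_lit 0x8008ee41e) (nat_lit 1074391406),
  Rx.mk (nat_lit 424) (nat_lit 0) (nat_lit 5) (nat_lit 6) (nat_lit 6) (nat_lit 425) (nat_lit 258) r12_425 r10_258 (nat_lit 1311948) (nat_lit 0) (nat_lit 0) (nat_lit 0x83fdc9f30) (nat_lit 1010600972),
  Rx.mk (nat_lit 426) (nat_lit 2) (nat_lit 5) (nat_lit 6) (nat_lit 7) (nat_lit 434) (nat_lit 271) r12_434 r10_271 (nat_lit 0) (nat_lit 0) (nat_lit 0) (nat_lit 0x868d991c2) (nat_lit 967853924),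
  Rx.mk (nat_lit 440) (nat_lit 0) (nat_lit 7) (nat_lit 6) (nat_lit 6) (nat_lit 428) (nat_lit 259) r12_428 r10_259 (nat_lit 1325018) (nat_lit 0) (nat_lit 0) (nat_lit 0x844914026) (nat_lit 1005854542),
  Rx.mk (nat_lit 441) (nat_lit 1) (nat_lit 7) (nat_lit 6) (nat_lit 7) (nat_lit 432) (nat_lit 264) r12_432 r10_264 (nat_lit 0) (nat_lit 0) (nat_lit 0) (nat_lit 0x80425a68a) (nat_lit 1069671024),
  Rx.mk (nat_lit 442) (nat_lit 2) (nat_lit 7) (nat_lit 6) (nat_lit 7) (nat_lit 435) (nat_lit 272) r12_435 r10_272 (nat_lit 0) (nat_lit 0) (nat_lit 0) (nat_lit 0x868d991c2) (nat_lit 967853924)]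
noncomputable def e36_55 : List Rx := [
  Rx.mk (nat_lit 160) (nat_lit 0) (nat_lit 4) (nat_lit 2) (nat_lit 4) (nat_lit 439) (nat_lit 288) r12_439 r11_288 (nat_lit 654576) (nat_lit 667034) (nat_lit 0) (nat_lit 0x7581a5c14) (nat_lit 1250087734),
  Rx.mk (nat_lit 161) (nat_lit 1) (nat_lit 4) (nat_lit 2) (nat_lit 5) (nat_lit 443) (nat_lit 292) r12_443 r11_292 (nat_lit 0) (nat_lit 3008720) (nat_lit 0) (nat_lit 0x801ff6e9a) (nat_lit 1074868444),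
  Rx.mk (nat_lit 163) (nat_lit 3) (nat_lit 4) (nat_lit 2) (nat_lit 5) (nat_lit 448) (nat_lit 295) r12_448 r11_295 (nat_lit 0) (nat_lit 3490265) (nat_lit 0) (nat_lit 0x802c425e6) (nat_lit 1074569689),
  Rx.mk (nat_lit 176) (nat_lit 0) (nat_lit 6) (nat_lit 2) (nat_lit 6) (nat_lit 440) (nat_lit 290) r12_440 r11_290 (nat_lit 1252562) (nat_lit 0) (nat_lit 0) (nat_lit 0x8181ac3aa) (nat_lit 1050719286),
  Rx.mk (nat_lit 177) (nat_lit 1) (nat_lit 6) (nat_lit 2) (nat_lit 7) (nat_lit 444) (nat_lit 294) r12_444 r11_294 (nat_lit 0) (nat_lit 0) (nat_lit 0) (nat_lit 0x801ddd582) (nat_lit 1071996524),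
  Rx.mk (nat_lit 179) (nat_lit 3) (nat_lit 6) (nat_lit 2) (nat_lit 7) (nat_lit 449) (nat_lit 296) r12_449 r11_296 (nat_lit 0) (nat_lit 0) (nat_lit 0) (nat_lit 0x802e32856) (nat_lit 1070956024),
  Rx.mk (nat_lit 184) (nat_lit 0) (nat_lit 7) (nat_lit 2) (nat_lit 6) (nat_lit 442) (nat_lit 289) r12_442 r11_289 (nat_lit 2043450) (nat_lit 0) (nat_lit 0) (nat_lit 0x808aabb28) (nat_lit 1067127174),
  Rx.mk (nat_lit 185) (nat_lit 1) (nat_lit 7) (nat_lit 2) (nat_lit 7) (nat_lit 446) (nat_lit 293) r12_446 r11_293 (nat_lit 0) (nat_lit 0) (nat_lit 0) (nat_lit 0x800bd3882) (nat_lit 1073150124),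
  Rx.mk (nat_lit 440) (nat_lit 0) (nat_lit 7) (nat_lit 6) (nat_lit 6) (nat_lit 441) (nat_lit 287) r12_441 r11_287 (nat_lit 264456) (nat_lit 0) (nat_lit 0) (nat_lit 0x893fc6a14) (nat_lit 924489980),
  Rx.mk (nat_lit 441) (nat_lit 1) (nat_lit 7) (nat_lit 6) (nat_lit 7) (nat_lit 445) (nat_lit 291) r12_445 r11_291 (nat_lit 0) (nat_lit 0) (nat_lit 0) (nat_lit 0xa72f83a76) (nat_lit 440151724),
  Rx.mk (nat_lit 442) (nat_lit 2) (nat_lit 7) (nat_lit 6) (nat_lit 7) (nat_lit 447) (nat_lit 297) r12_447 r11_297 (nat_lit 0) (nat_lit 0) (nat_lit 0) (nat_lit 0x99df62cde) (nat_lit 655430324)]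
noncomputable def e36_56 : List Rx := [
  Rx.mk (nat_lit 163) (nat_lit 3) (nat_lit 4) (nat_lit 2) (nat_lit 5) (nat_lit 455) (nat_lit 245) r12_455 r5_245 (nat_lit 0) (nat_lit 17041) (nat_lit 0) (nat_lit 0x8b003f3bc) (nat_lit 895869165),
  Rx.mk (nat_lit 179) (nat_lit 3) (nat_lit 6) (nat_lit 2) (nat_lit 7) (nat_lit 456) (nat_lit 251) r12_456 r5_251 (nat_lit 0) (nat_lit 0) (nat_lit 0) (nat_lit 0x7ff59fdd6) (nat_lit 1074454124),
  Rx.mk (nat_lit 416) (nat_lit 0) (nat_lit 4) (nat_lit 6) (nat_lit 4) (nat_lit 450) (nat_lit 246) r12_450 r5_246 (nat_lit 20188) (nat_lit 27932) (nat_lit 0) (nat_lit 0x7a72d005e) (nat_lit 1166357044),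
  Rx.mk (nat_lit 418) (nat_lit 2) (nat_lit 4) (nat_lit 6) (nat_lit 5) (nat_lit 452) (nat_lit 248) r12_452 r5_248 (nat_lit 0) (nat_lit 1388645) (nat_lit 0) (nat_lit 0x7e512bfee) (nat_lit 1103271969),
  Rx.mk (nat_lit 419) (nat_lit 3) (nat_lit 4) (nat_lit 6) (nat_lit 5) (nat_lit 454) (nat_lit 247) r12_454 r5_247 (nat_lit 0) (nat_lit 745268) (nat_lit 0) (nat_lit 0x8ddce6b6a) (nat_lit 850382092),
  Rx.mk (nat_lit 440) (nat_lit 0) (nat_lit 7) (nat_lit 6) (nat_lit 6) (nat_lit 451) (nat_lit 249) r12_451 r5_249 (nat_lit 225577) (nat_lit 0) (nat_lit 0) (nat_lit 0x86c1ebf38) (nat_lit 964739301),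
  Rx.mk (nat_lit 442) (nat_lit 2) (nat_lit 7) (nat_lit 6) (nat_lit 7) (nat_lit 453) (nat_lit 250) r12_453 r5_250 (nat_lit 0) (nat_lit 0) (nat_lit 0) (nat_lit 0x99d4baab6) (nat_lit 656104224)]
noncomputable def e36_57 : List Rx := [
  Rx.mk (nat_lit 163) (nat_lit 3) (nat_lit 4) (nat_lit 2) (nat_lit 5) (nat_lit 464) (nat_lit 287) r12_464 r11_287 (nat_lit 0) (nat_lit 264456) (nat_lit 0) (nat_lit 0x893fc6a14) (nat_lit 924489980),
  Rx.mk (nat_lit 171) (nat_lit 3) (nat_lit 5) (nat_lit 2) (nat_lit 7) (nat_lit 466) (nat_lit 291) r12_466 r11_291 (nat_lit 0) (nat_lit 0) (nat_lit 0) (nat_lit 0xa72f83a76) (nat_lit 440151724),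
  Rx.mk (nat_lit 179) (nat_lit 3) (nat_lit 6) (nat_lit 2) (nat_lit 7) (nat_lit 467) (nat_lit 297) r12_467 r11_297 (nat_lit 0) (nat_lit 0) (nat_lit 0) (nat_lit 0x99df62cde) (nat_lit 655430324),
  Rx.mk (nat_lit 416) (nat_lit 0) (nat_lit 4) (nat_lit 6) (nat_lit 4) (nat_lit 457) (nat_lit 288) r12_457 r11_288 (nat_lit 667034) (nat_lit 654576) (nat_lit 0) (nat_lit 0x7581a5c14) (nat_lit 1250087734),
  Rx.mk (nat_lit 418) (nat_lit 2) (nat_lit 4) (nat_lit 6) (nat_lit 5) (nat_lit 460) (nat_lit 290) r12_460 r11_290 (nat_lit 0) (nat_lit 1252562) (nat_lit 0) (nat_lit 0x8181ac3aa) (nat_lit 1050719286),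
  Rx.mk (nat_lit 419) (nat_lit 3) (nat_lit 4) (nat_lit 6) (nat_lit 5) (nat_lit 463) (nat_lit 289) r12_463 r11_289 (nat_lit 0) (nat_lit 2043450) (nat_lit 0) (nat_lit 0x808aabb28) (nat_lit 1067127174),
  Rx.mk (nat_lit 424) (nat_lit 0) (nat_lit 5) (nat_lit 6) (nat_lit 6) (nat_lit 458) (nat_lit 292) r12_458 r11_292 (nat_lit 3008720) (nat_lit 0) (nat_lit 0) (nat_lit 0x801ff6e9a) (nat_lit 1074868444),
  Rx.mk (nat_lit 426) (nat_lit 2) (nat_lit 5) (nat_lit 6) (nat_lit 7) (nat_lit 461) (nat_lit 294) r12_461 r11_294 (nat_lit 0) (nat_lit 0) (nat_lit 0) (nat_lit 0x801ddd582) (nat_lit 1071996524),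
  Rx.mk (nat_lit 427) (nat_lit 3) (nat_lit 5) (nat_lit 6) (nat_lit 7) (nat_lit 465) (nat_lit 293) r12_465 r11_293 (nat_lit 0) (nat_lit 0) (nat_lit 0) (nat_lit 0x800bd3882) (nat_lit 1073150124),
  Rx.mk (nat_lit 440) (nat_lit 0) (nat_lit 7) (nat_lit 6) (nat_lit 6) (nat_lit 459) (nat_lit 295) r12_459 r11_295 (nat_lit 3490265) (nat_lit 0) (nat_lit 0) (nat_lit 0x802c425e6) (nat_lit 1074569689),
  Rx.mk (nat_lit 442) (nat_lit 2) (nat_lit 7) (nat_lit 6) (nat_lit 7) (nat_lit 462) (nat_lit 296) r12_462 r11_296 (nat_lit 0) (nat_lit 0) (nat_lit 0) (nat_lit 0x802e32856) (nat_lit 1070956024)]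
noncomputable def e36 : List (List Rx) := [e36_0, e36_1, e36_2, e36_3, e36_4, e36_5, e36_6, e36_7, e36_8, e36_9, e36_10, e36_11, e36_12, e36_13, e36_14, e36_15, e36_16, e36_17, e36_18, e36_19, e36_20, e36_21, e36_22, e36_23, e36_24, e36_25, e36_26, e36_27, e36_28, e36_29, e36_30, e36_31, e36_32, e36_33, e36_34, e36_35, e36_36, e36_37, e36_38, e36_39, e36_40, e36_41, e36_42, e36_43, e36_44, e36_45, e36_46, e36_47, e36_48, e36_49, e36_50, e36_51, e36_52, e36_53, e36_54, e36_55, e36_56, e36_57]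
noncomputable def e37_0 : List Rx := [
  Rx.mk (nat_lit 5) (nat_lit 5) (nat_lit 0) (nat_lit 0) (nat_lit 1) (nat_lit 244) (nat_lit 244) r0_244 r0_244 (nat_lit 0) (nat_lit 52004105) (nat_lit 52004105) (nat_lit 0x672fac010) (nat_lit 1591547034),
  Rx.mk (nat_lit 13) (nat_lit 5) (nat_lit 1) (nat_lit 0) (nat_lit 3) (nat_lit 245) (nat_lit 246) r0_245 r0_246 (nat_lit 0) (nat_lit 0) (nat_lit 3572987) (nat_lit 0x786934ede) (nat_lit 1203930011),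
  Rx.mk (nat_lit 69) (nat_lit 5) (nat_lit 0) (nat_lit 1) (nat_lit 5) (nat_lit 246) (nat_lit 245) r0_246 r0_245 (nat_lit 0) (nat_lit 3572987) (nat_lit 0) (nat_lit 0x786934ede) (nat_lit 1203930011),
  Rx.mk (nat_lit 76) (nat_lit 4) (nat_lit 1) (nat_lit 1) (nat_lit 6) (nat_lit 243) (nat_lit 243) r0_243 r0_243 (nat_lit 736921767) (nat_lit 0) (nat_lit 0) (nat_lit 0x81ec2d8dc) (nat_lit 1779574791),
  Rx.mk (nat_lit 77) (nat_lit 5) (nat_lit 1) (nat_lit 1) (nat_lit 7) (nat_lit 247) (nat_lit 247) r0_247 r0_247 (nat_lit 0) (nat_lit 0) (nat_lit 0) (nat_lit 0x7fbc5bdb8) (nat_lit 1078269524)]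
noncomputable def e37_1 : List Rx := [
  Rx.mk (nat_lit 69) (nat_lit 5) (nat_lit 0) (nat_lit 1) (nat_lit 5) (nat_lit 283) (nat_lit 253) r0_283 r1_253 (nat_lit 0) (nat_lit 4606623) (nat_lit 0) (nat_lit 0x7ce19384a) (nat_lit 1130436347),
  Rx.mk (nat_lit 76) (nat_lit 4) (nat_lit 1) (nat_lit 1) (nat_lit 6) (nat_lit 282) (nat_lit 252) r0_282 r1_252 (nat_lit 821343463) (nat_lit 0) (nat_lit 0) (nat_lit 0x7fffe9b52) (nat_lit 1895092387),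
  Rx.mk (nat_lit 77) (nat_lit 5) (nat_lit 1) (nat_lit 1) (nat_lit 7) (nat_lit 284) (nat_lit 254) r0_284 r1_254 (nat_lit 0) (nat_lit 0) (nat_lit 0) (nat_lit 0x7fab68344) (nat_lit 1079366724)]
noncomputable def e37_2 : List Rx := [
  Rx.mk (nat_lit 76) (nat_lit 4) (nat_lit 1) (nat_lit 1) (nat_lit 6) (nat_lit 285) (nat_lit 276) r0_285 r2_276 (nat_lit 28102838) (nat_lit 0) (nat_lit 0) (nat_lit 0x7a7179430) (nat_lit 1194573262),
  Rx.mk (nat_lit 77) (nat_lit 5) (nat_lit 1) (nat_lit 1) (nat_lit 7) (nat_lit 287) (nat_lit 278) r0_287 r2_278 (nat_lit 0) (nat_lit 0) (nat_lit 0) (nat_lit 0x80029938e) (nat_lit 1073741824),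
  Rx.mk (nat_lit 332) (nat_lit 4) (nat_lit 1) (nat_lit 5) (nat_lit 6) (nat_lit 286) (nat_lit 277) r0_286 r2_277 (nat_lit 7374549) (nat_lit 0) (nat_lit 0) (nat_lit 0x7eb2c9990) (nat_lit 1102910273),
  Rx.mk (nat_lit 333) (nat_lit 5) (nat_lit 1) (nat_lit 5) (nat_lit 7) (nat_lit 288) (nat_lit 279) r0_288 r2_279 (nat_lit 0) (nat_lit 0) (nat_lit 0) (nat_lit 0x80029938e) (nat_lit 1073741824)]
noncomputable def e37_3 : List Rx := [
  Rx.mk (nat_lit 5) (nat_lit 5) (nat_lit 0) (nat_lit 0) (nat_lit 1) (nat_lit 302) (nat_lit 245) r0_302 r3_245 (nat_lit 0) (nat_lit 337) (nat_lit 671) (nat_lit 0x72b6e4a90) (nat_lit 1295253432),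
  Rx.mk (nat_lit 12) (nat_lit 4) (nat_lit 1) (nat_lit 0) (nat_lit 2) (nat_lit 300) (nat_lit 243) r0_300 r3_243 (nat_lit 191) (nat_lit 0) (nat_lit 81) (nat_lit 0x800015324) (nat_lit 1073736896),
  Rx.mk (nat_lit 13) (nat_lit 5) (nat_lit 1) (nat_lit 0) (nat_lit 3) (nat_lit 303) (nat_lit 247) r0_303 r3_247 (nat_lit 0) (nat_lit 0) (nat_lit 424055) (nat_lit 0x7bb0370ea) (nat_lit 1146087279),
  Rx.mk (nat_lit 197) (nat_lit 5) (nat_lit 0) (nat_lit 3) (nat_lit 5) (nat_lit 304) (nat_lit 246) r0_304 r3_246 (nat_lit 0) (nat_lit 405858) (nat_lit 0) (nat_lit 0x78a0747a0) (nat_lit 1197135682),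
  Rx.mk (nat_lit 204) (nat_lit 4) (nat_lit 1) (nat_lit 3) (nat_lit 6) (nat_lit 301) (nat_lit 244) r0_301 r3_244 (nat_lit 52414) (nat_lit 0) (nat_lit 0) (nat_lit 0x7cb6d8c18) (nat_lit 1128580838),
  Rx.mk (nat_lit 205) (nat_lit 5) (nat_lit 1) (nat_lit 3) (nat_lit 7) (nat_lit 305) (nat_lit 248) r0_305 r3_248 (nat_lit 0) (nat_lit 0) (nat_lit 0) (nat_lit 0x883ab4d38) (nat_lit 940740624)]
noncomputable def e37_4 : List Rx := [
  Rx.mk (nat_lit 5) (nat_lit 5) (nat_lit 0) (nat_lit 0) (nat_lit 1) (nat_lit 309) (nat_lit 256) r0_309 r4_256 (nat_lit 0) (nat_lit 8118484) (nat_lit 89716582) (nat_lit 0x6a154d77a) (nat_lit 1537072690),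
  Rx.mk (nat_lit 12) (nat_lit 4) (nat_lit 1) (nat_lit 0) (nat_lit 2) (nat_lit 306) (nat_lit 253) r0_306 r4_253 (nat_lit 109994147) (nat_lit 0) (nat_lit 2254859) (nat_lit 0x721a33c50) (nat_lit 1417787930),
  Rx.mk (nat_lit 13) (nat_lit 5) (nat_lit 1) (nat_lit 0) (nat_lit 3) (nat_lit 310) (nat_lit 259) r0_310 r4_259 (nat_lit 0) (nat_lit 0) (nat_lit 5728860) (nat_lit 0x7fd6649a8) (nat_lit 1082310884),
  Rx.mk (nat_lit 69) (nat_lit 5) (nat_lit 0) (nat_lit 1) (nat_lit 5) (nat_lit 311) (nat_lit 257) r0_311 r4_257 (nat_lit 0) (nat_lit 6336730) (nat_lit 0) (nat_lit 0x7fe202792) (nat_lit 1082176554),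
  Rx.mk (nat_lit 76) (nat_lit 4) (nat_lit 1) (nat_lit 1) (nat_lit 6) (nat_lit 307) (nat_lit 254) r0_307 r4_254 (nat_lit 456084292) (nat_lit 0) (nat_lit 0) (nat_lit 0x7d9d80ab2) (nat_lit 1569623716),
  Rx.mk (nat_lit 77) (nat_lit 5) (nat_lit 1) (nat_lit 1) (nat_lit 7) (nat_lit 312) (nat_lit 260) r0_312 r4_260 (nat_lit 0) (nat_lit 0) (nat_lit 0) (nat_lit 0x8029d9714) (nat_lit 1071230724),
  Rx.mk (nat_lit 197) (nat_lit 5) (nat_lit 0) (nat_lit 3) (nat_lit 5) (nat_lit 313) (nat_lit 258) r0_313 r4_258 (nat_lit 0) (nat_lit 3644892) (nat_lit 0) (nat_lit 0x7fe25d200) (nat_lit 1079457116),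
  Rx.mk (nat_lit 204) (nat_lit 4) (nat_lit 1) (nat_lit 3) (nat_lit 6) (nat_lit 308) (nat_lit 255) r0_308 r4_255 (nat_lit 7949593) (nat_lit 0) (nat_lit 0) (nat_lit 0x7febedd10) (nat_lit 1083145917),
  Rx.mk (nat_lit 205) (nat_lit 5) (nat_lit 1) (nat_lit 3) (nat_lit 7) (nat_lit 314) (nat_lit 261) r0_314 r4_261 (nat_lit 0) (nat_lit 0) (nat_lit 0) (nat_lit 0x800cb83c4) (nat_lit 1073092924)]
noncomputable def e37_5 : List Rx := [
  Rx.mk (nat_lit 197) (nat_lit 5) (nat_lit 0) (nat_lit 3) (nat_lit 5) (nat_lit 316) (nat_lit 253) r0_316 r5_253 (nat_lit 0) (nat_lit 1462114) (nat_lit 0) (nat_lit 0x7fa136d4e) (nat_lit 1081485238),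
  Rx.mk (nat_lit 204) (nat_lit 4) (nat_lit 1) (nat_lit 3) (nat_lit 6) (nat_lit 315) (nat_lit 252) r0_315 r5_252 (nat_lit 2146046) (nat_lit 0) (nat_lit 0) (nat_lit 0x8082930f8) (nat_lit 1067722470),
  Rx.mk (nat_lit 205) (nat_lit 5) (nat_lit 1) (nat_lit 3) (nat_lit 7) (nat_lit 317) (nat_lit 254) r0_317 r5_254 (nat_lit 0) (nat_lit 0) (nat_lit 0) (nat_lit 0x871639162) (nat_lit 959223424)]
noncomputable def e37_6 : List Rx := [
  Rx.mk (nat_lit 460) (nat_lit 4) (nat_lit 1) (nat_lit 7) (nat_lit 6) (nat_lit 71) (nat_lit 249) r0_71 r3_249 (nat_lit 121) (nat_lit 0) (nat_lit 0) (nat_lit 0x80002aa9e) (nat_lit 1073731445)]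
noncomputable def e37_7 : List Rx := [
  Rx.mk (nat_lit 268) (nat_lit 4) (nat_lit 1) (nat_lit 4) (nat_lit 2) (nat_lit 171) (nat_lit 248) r0_171 r0_248 (nat_lit 969839457) (nat_lit 0) (nat_lit 318) (nat_lit 0x8000510a4) (nat_lit 2043561699),
  Rx.mk (nat_lit 332) (nat_lit 4) (nat_lit 1) (nat_lit 5) (nat_lit 6) (nat_lit 172) (nat_lit 249) r0_172 r0_249 (nat_lit 508562239) (nat_lit 0) (nat_lit 0) (nat_lit 0x7ed0e1874) (nat_lit 1602132963)]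
noncomputable def e37_8 : List Rx := [
  Rx.mk (nat_lit 332) (nat_lit 4) (nat_lit 1) (nat_lit 5) (nat_lit 6) (nat_lit 173) (nat_lit 255) r0_173 r1_255 (nat_lit 200288767) (nat_lit 0) (nat_lit 0) (nat_lit 0x7fddd6150) (nat_lit 1276386391)]
noncomputable def e37_9 : List Rx := [
  Rx.mk (nat_lit 268) (nat_lit 4) (nat_lit 1) (nat_lit 4) (nat_lit 2) (nat_lit 174) (nat_lit 262) r0_174 r4_262 (nat_lit 365390624) (nat_lit 0) (nat_lit 507461) (nat_lit 0x677f48254) (nat_lit 1848225809),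
  Rx.mk (nat_lit 332) (nat_lit 4) (nat_lit 1) (nat_lit 5) (nat_lit 6) (nat_lit 175) (nat_lit 263) r0_175 r4_263 (nat_lit 172210768) (nat_lit 0) (nat_lit 0) (nat_lit 0x7e52e1528) (nat_lit 1273987192),
  Rx.mk (nat_lit 460) (nat_lit 4) (nat_lit 1) (nat_lit 7) (nat_lit 6) (nat_lit 176) (nat_lit 264) r0_176 r4_264 (nat_lit 481648953) (nat_lit 0) (nat_lit 0) (nat_lit 0x72b5b6132) (nat_lit 1777028277)]
noncomputable def e37_10 : List Rx := [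
  Rx.mk (nat_lit 204) (nat_lit 4) (nat_lit 1) (nat_lit 3) (nat_lit 6) (nat_lit 222) (nat_lit 276) r0_222 r6_276 (nat_lit 4479) (nat_lit 0) (nat_lit 0) (nat_lit 0x93ccfa606) (nat_lit 753553703),
  Rx.mk (nat_lit 460) (nat_lit 4) (nat_lit 1) (nat_lit 7) (nat_lit 6) (nat_lit 223) (nat_lit 277) r0_223 r6_277 (nat_lit 8409716) (nat_lit 0) (nat_lit 0) (nat_lit 0x803d3fe16) (nat_lit 1078386140)]
noncomputable def e37_11 : List Rx := [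
  Rx.mk (nat_lit 460) (nat_lit 4) (nat_lit 1) (nat_lit 7) (nat_lit 6) (nat_lit 224) (nat_lit 255) r0_224 r5_255 (nat_lit 135738919) (nat_lit 0) (nat_lit 0) (nat_lit 0x80001a586) (nat_lit 1209474643)]
noncomputable def e37_12 : List Rx := [
  Rx.mk (nat_lit 5) (nat_lit 5) (nat_lit 0) (nat_lit 0) (nat_lit 1) (nat_lit 248) (nat_lit 171) r0_248 r0_171 (nat_lit 0) (nat_lit 318) (nat_lit 969839457) (nat_lit 0x8000510a4) (nat_lit 2043561699),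
  Rx.mk (nat_lit 13) (nat_lit 5) (nat_lit 1) (nat_lit 0) (nat_lit 3) (nat_lit 249) (nat_lit 172) r0_249 r0_172 (nat_lit 0) (nat_lit 0) (nat_lit 508562239) (nat_lit 0x7ed0e1874) (nat_lit 1602132963)]
noncomputable def e37_13 : List Rx := [
  Rx.mk (nat_lit 5) (nat_lit 5) (nat_lit 0) (nat_lit 0) (nat_lit 1) (nat_lit 250) (nat_lit 315) r0_250 r7_315 (nat_lit 0) (nat_lit 3589306) (nat_lit 64066468) (nat_lit 0x638142464) (nat_lit 1616568698),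
  Rx.mk (nat_lit 13) (nat_lit 5) (nat_lit 1) (nat_lit 0) (nat_lit 3) (nat_lit 251) (nat_lit 317) r0_251 r7_317 (nat_lit 0) (nat_lit 0) (nat_lit 5828588) (nat_lit 0x7fe5c8fd4) (nat_lit 1081422912),
  Rx.mk (nat_lit 69) (nat_lit 5) (nat_lit 0) (nat_lit 1) (nat_lit 5) (nat_lit 252) (nat_lit 316) r0_252 r7_316 (nat_lit 0) (nat_lit 6173437) (nat_lit 0) (nat_lit 0x7b5c8dc0a) (nat_lit 1157338461),
  Rx.mk (nat_lit 77) (nat_lit 5) (nat_lit 1) (nat_lit 1) (nat_lit 7) (nat_lit 253) (nat_lit 318) r0_253 r7_318 (nat_lit 0) (nat_lit 0) (nat_lit 0) (nat_lit 0x8018342e8) (nat_lit 1072357724)]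
noncomputable def e37_14 : List Rx := [
  Rx.mk (nat_lit 1) (nat_lit 1) (nat_lit 0) (nat_lit 0) (nat_lit 1) (nat_lit 265) (nat_lit 180) r0_265 r1_180 (nat_lit 0) (nat_lit 2783255) (nat_lit 103080834) (nat_lit 0x61b174d32) (nat_lit 1684989113),
  Rx.mk (nat_lit 5) (nat_lit 5) (nat_lit 0) (nat_lit 0) (nat_lit 1) (nat_lit 269) (nat_lit 179) r0_269 r1_179 (nat_lit 0) (nat_lit 4696) (nat_lit 1076204905) (nat_lit 0x8008e3776) (nat_lit 2149391825),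
  Rx.mk (nat_lit 9) (nat_lit 1) (nat_lit 1) (nat_lit 0) (nat_lit 3) (nat_lit 266) (nat_lit 182) r0_266 r1_182 (nat_lit 0) (nat_lit 0) (nat_lit 7068022) (nat_lit 0x7fea1f7b8) (nat_lit 1082378546),
  Rx.mk (nat_lit 13) (nat_lit 5) (nat_lit 1) (nat_lit 0) (nat_lit 3) (nat_lit 270) (nat_lit 181) r0_270 r1_181 (nat_lit 0) (nat_lit 0) (nat_lit 15364900) (nat_lit 0x80028c260) (nat_lit 1089102224),
  Rx.mk (nat_lit 17) (nat_lit 1) (nat_lit 2) (nat_lit 0) (nat_lit 3) (nat_lit 267) (nat_lit 183) r0_267 r1_183 (nat_lit 0) (nat_lit 0) (nat_lit 271237446) (nat_lit 0x89006c440) (nat_lit 1199488170),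
  Rx.mk (nat_lit 145) (nat_lit 1) (nat_lit 2) (nat_lit 2) (nat_lit 7) (nat_lit 268) (nat_lit 184) r0_268 r1_184 (nat_lit 0) (nat_lit 0) (nat_lit 0) (nat_lit 0x802fc2cf2) (nat_lit 1070852724)]
noncomputable def e37_15 : List Rx := [
  Rx.mk (nat_lit 1) (nat_lit 1) (nat_lit 0) (nat_lit 0) (nat_lit 1) (nat_lit 271) (nat_lit 230) r0_271 r8_230 (nat_lit 0) (nat_lit 10233960) (nat_lit 7556884) (nat_lit 0x4f43b3c9c) (nat_lit 1904185068),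
  Rx.mk (nat_lit 5) (nat_lit 5) (nat_lit 0) (nat_lit 0) (nat_lit 1) (nat_lit 278) (nat_lit 237) r0_278 r8_237 (nat_lit 0) (nat_lit 3003976) (nat_lit 8414272) (nat_lit 0x59cd441c8) (nat_lit 1722113272),
  Rx.mk (nat_lit 9) (nat_lit 1) (nat_lit 1) (nat_lit 0) (nat_lit 3) (nat_lit 272) (nat_lit 232) r0_272 r8_232 (nat_lit 0) (nat_lit 0) (nat_lit 7909290) (nat_lit 0x7a5a2401e) (nat_lit 1175906214),
  Rx.mk (nat_lit 13) (nat_lit 5) (nat_lit 1) (nat_lit 0) (nat_lit 3) (nat_lit 279) (nat_lit 239) r0_279 r8_239 (nat_lit 0) (nat_lit 0) (nat_lit 5449534) (nat_lit 0x7f7c3426c) (nat_lit 1087884558),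
  Rx.mk (nat_lit 17) (nat_lit 1) (nat_lit 2) (nat_lit 0) (nat_lit 3) (nat_lit 273) (nat_lit 234) r0_273 r8_234 (nat_lit 0) (nat_lit 0) (nat_lit 6684980) (nat_lit 0x7f181fd94) (nat_lit 1095629604),
  Rx.mk (nat_lit 65) (nat_lit 1) (nat_lit 0) (nat_lit 1) (nat_lit 5) (nat_lit 274) (nat_lit 231) r0_274 r8_231 (nat_lit 0) (nat_lit 7503020) (nat_lit 0) (nat_lit 0x6d6ab5fac) (nat_lit 1391167544),
  Rx.mk (nat_lit 69) (nat_lit 5) (nat_lit 0) (nat_lit 1) (nat_lit 5) (nat_lit 280) (nat_lit 238) r0_280 r8_238 (nat_lit 0) (nat_lit 5951502) (nat_lit 0) (nat_lit 0x73924f6f2) (nat_lit 1286998026),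
  Rx.mk (nat_lit 73) (nat_lit 1) (nat_lit 1) (nat_lit 1) (nat_lit 7) (nat_lit 275) (nat_lit 233) r0_275 r8_233 (nat_lit 0) (nat_lit 0) (nat_lit 0) (nat_lit 0x7fcefe272) (nat_lit 1077071724),
  Rx.mk (nat_lit 77) (nat_lit 5) (nat_lit 1) (nat_lit 1) (nat_lit 7) (nat_lit 281) (nat_lit 240) r0_281 r8_240 (nat_lit 0) (nat_lit 0) (nat_lit 0) (nat_lit 0x800f47324) (nat_lit 1072928224),
  Rx.mk (nat_lit 81) (nat_lit 1) (nat_lit 2) (nat_lit 1) (nat_lit 7) (nat_lit 276) (nat_lit 235) r0_276 r8_235 (nat_lit 0) (nat_lit 0) (nat_lit 0) (nat_lit 0x80001f996) (nat_lit 1073900524),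
  Rx.mk (nat_lit 145) (nat_lit 1) (nat_lit 2) (nat_lit 2) (nat_lit 7) (nat_lit 277) (nat_lit 236) r0_277 r8_236 (nat_lit 0) (nat_lit 0) (nat_lit 0) (nat_lit 0x80029938e) (nat_lit 1073741824)]
noncomputable def e37_16 : List Rx := [
  Rx.mk (nat_lit 69) (nat_lit 5) (nat_lit 0) (nat_lit 1) (nat_lit 5) (nat_lit 289) (nat_lit 178) r0_289 r8_178 (nat_lit 0) (nat_lit 6119961) (nat_lit 0) (nat_lit 0x72392b252) (nat_lit 1309645085),
  Rx.mk (nat_lit 77) (nat_lit 5) (nat_lit 1) (nat_lit 1) (nat_lit 7) (nat_lit 290) (nat_lit 179) r0_290 r8_179 (nat_lit 0) (nat_lit 0) (nat_lit 0) (nat_lit 0x7ff99ecac) (nat_lit 1074318024)]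
noncomputable def e37_17 : List Rx := [
  Rx.mk (nat_lit 77) (nat_lit 5) (nat_lit 1) (nat_lit 1) (nat_lit 7) (nat_lit 291) (nat_lit 248) r0_291 r9_248 (nat_lit 0) (nat_lit 0) (nat_lit 0) (nat_lit 0x7ff85ef5e) (nat_lit 1074398324),
  Rx.mk (nat_lit 333) (nat_lit 5) (nat_lit 1) (nat_lit 5) (nat_lit 7) (nat_lit 292) (nat_lit 249) r0_292 r9_249 (nat_lit 0) (nat_lit 0) (nat_lit 0) (nat_lit 0x7ffd3fcc6) (nat_lit 1074084924)]
noncomputable def e37_18 : List Rx := [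
  Rx.mk (nat_lit 5) (nat_lit 5) (nat_lit 0) (nat_lit 0) (nat_lit 1) (nat_lit 318) (nat_lit 155) r0_318 r4_155 (nat_lit 0) (nat_lit 781143) (nat_lit 232268791) (nat_lit 0x6adf8057e) (nat_lit 1659098658),
  Rx.mk (nat_lit 13) (nat_lit 5) (nat_lit 1) (nat_lit 0) (nat_lit 3) (nat_lit 319) (nat_lit 156) r0_319 r4_156 (nat_lit 0) (nat_lit 0) (nat_lit 4017845) (nat_lit 0x7ff75e168) (nat_lit 1078479169),
  Rx.mk (nat_lit 197) (nat_lit 5) (nat_lit 0) (nat_lit 3) (nat_lit 5) (nat_lit 320) (nat_lit 157) r0_320 r4_157 (nat_lit 0) (nat_lit 2184780) (nat_lit 0) (nat_lit 0x7aab2db36) (nat_lit 1164898604),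
  Rx.mk (nat_lit 205) (nat_lit 5) (nat_lit 1) (nat_lit 3) (nat_lit 7) (nat_lit 321) (nat_lit 158) r0_321 r4_158 (nat_lit 0) (nat_lit 0) (nat_lit 0) (nat_lit 0x8052c65be) (nat_lit 1068627724)]
noncomputable def e37_19 : List Rx := [
  Rx.mk (nat_lit 5) (nat_lit 5) (nat_lit 0) (nat_lit 0) (nat_lit 1) (nat_lit 322) (nat_lit 273) r0_322 r10_273 (nat_lit 0) (nat_lit 2141139) (nat_lit 31804169) (nat_lit 0x67d4791ec) (nat_lit 1510741932),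
  Rx.mk (nat_lit 13) (nat_lit 5) (nat_lit 1) (nat_lit 0) (nat_lit 3) (nat_lit 323) (nat_lit 276) r0_323 r10_276 (nat_lit 0) (nat_lit 0) (nat_lit 6626663) (nat_lit 0x7fd2b1cde) (nat_lit 1083457587),
  Rx.mk (nat_lit 69) (nat_lit 5) (nat_lit 0) (nat_lit 1) (nat_lit 5) (nat_lit 324) (nat_lit 274) r0_324 r10_274 (nat_lit 0) (nat_lit 6250628) (nat_lit 0) (nat_lit 0x7fcba2f38) (nat_lit 1083536252),
  Rx.mk (nat_lit 77) (nat_lit 5) (nat_lit 1) (nat_lit 1) (nat_lit 7) (nat_lit 325) (nat_lit 277) r0_325 r10_277 (nat_lit 0) (nat_lit 0) (nat_lit 0) (nat_lit 0x80131f6b8) (nat_lit 1072683424),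
  Rx.mk (nat_lit 197) (nat_lit 5) (nat_lit 0) (nat_lit 3) (nat_lit 5) (nat_lit 326) (nat_lit 275) r0_326 r10_275 (nat_lit 0) (nat_lit 5230327) (nat_lit 0) (nat_lit 0x7f655899e) (nat_lit 1089155351),
  Rx.mk (nat_lit 205) (nat_lit 5) (nat_lit 1) (nat_lit 3) (nat_lit 7) (nat_lit 327) (nat_lit 278) r0_327 r10_278 (nat_lit 0) (nat_lit 0) (nat_lit 0) (nat_lit 0x80029938e) (nat_lit 1073741824)]
noncomputable def e37_20 : List Rx := [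
  Rx.mk (nat_lit 197) (nat_lit 5) (nat_lit 0) (nat_lit 3) (nat_lit 5) (nat_lit 328) (nat_lit 298) r0_328 r11_298 (nat_lit 0) (nat_lit 4405947) (nat_lit 0) (nat_lit 0x7ffb995de) (nat_lit 1078595171),
  Rx.mk (nat_lit 205) (nat_lit 5) (nat_lit 1) (nat_lit 3) (nat_lit 7) (nat_lit 329) (nat_lit 299) r0_329 r11_299 (nat_lit 0) (nat_lit 0) (nat_lit 0) (nat_lit 0x800a900e2) (nat_lit 1073231224)]
noncomputable def e37_21 : List Rx := [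
  Rx.mk (nat_lit 76) (nat_lit 4) (nat_lit 1) (nat_lit 1) (nat_lit 6) (nat_lit 293) (nat_lit 254) r0_293 r9_254 (nat_lit 5745639) (nat_lit 0) (nat_lit 0) (nat_lit 0x7713c5d0a) (nat_lit 1228342563),
  Rx.mk (nat_lit 77) (nat_lit 5) (nat_lit 1) (nat_lit 1) (nat_lit 7) (nat_lit 296) (nat_lit 256) r0_296 r9_256 (nat_lit 0) (nat_lit 0) (nat_lit 0) (nat_lit 0x80029938e) (nat_lit 1073741824),
  Rx.mk (nat_lit 332) (nat_lit 4) (nat_lit 1) (nat_lit 5) (nat_lit 6) (nat_lit 294) (nat_lit 253) r0_294 r9_253 (nat_lit 7145094) (nat_lit 0) (nat_lit 0) (nat_lit 0x79e85e2cc) (nat_lit 1182555618),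
  Rx.mk (nat_lit 333) (nat_lit 5) (nat_lit 1) (nat_lit 5) (nat_lit 7) (nat_lit 297) (nat_lit 255) r0_297 r9_255 (nat_lit 0) (nat_lit 0) (nat_lit 0) (nat_lit 0x80029938e) (nat_lit 1073741824),
  Rx.mk (nat_lit 364) (nat_lit 4) (nat_lit 5) (nat_lit 5) (nat_lit 6) (nat_lit 295) (nat_lit 250) r0_295 r9_250 (nat_lit 5449534) (nat_lit 0) (nat_lit 0) (nat_lit 0x7dc0ef480) (nat_lit 1116739658),
  Rx.mk (nat_lit 365) (nat_lit 5) (nat_lit 5) (nat_lit 5) (nat_lit 7) (nat_lit 298) (nat_lit 251) r0_298 r9_251 (nat_lit 0) (nat_lit 0) (nat_lit 0) (nat_lit 0x80029938e) (nat_lit 1073741824),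
  Rx.mk (nat_lit 366) (nat_lit 6) (nat_lit 5) (nat_lit 5) (nat_lit 7) (nat_lit 299) (nat_lit 252) r0_299 r9_252 (nat_lit 0) (nat_lit 0) (nat_lit 0) (nat_lit 0x80029938e) (nat_lit 1073741824)]
noncomputable def e37_22 : List Rx := [
  Rx.mk (nat_lit 302) (nat_lit 6) (nat_lit 5) (nat_lit 4) (nat_lit 3) (nat_lit 73) (nat_lit 72) r0_73 r0_72 (nat_lit 0) (nat_lit 0) (nat_lit 2574804) (nat_lit 0x7c7441fb2) (nat_lit 1135516628),
  Rx.mk (nat_lit 492) (nat_lit 4) (nat_lit 5) (nat_lit 7) (nat_lit 6) (nat_lit 72) (nat_lit 73) r0_72 r0_73 (nat_lit 2574804) (nat_lit 0) (nat_lit 0) (nat_lit 0x7c7441fb2) (nat_lit 1135516628),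
  Rx.mk (nat_lit 494) (nat_lit 6) (nat_lit 5) (nat_lit 7) (nat_lit 7) (nat_lit 74) (nat_lit 74) r0_74 r0_74 (nat_lit 0) (nat_lit 0) (nat_lit 0) (nat_lit 0x8001d5326) (nat_lit 1073781524)]
noncomputable def e37_23 : List Rx := [
  Rx.mk (nat_lit 302) (nat_lit 6) (nat_lit 5) (nat_lit 4) (nat_lit 3) (nat_lit 76) (nat_lit 69) r0_76 r1_69 (nat_lit 0) (nat_lit 0) (nat_lit 3524879) (nat_lit 0x7f208be6a) (nat_lit 1091914603),
  Rx.mk (nat_lit 430) (nat_lit 6) (nat_lit 5) (nat_lit 6) (nat_lit 7) (nat_lit 77) (nat_lit 72) r0_77 r1_72 (nat_lit 0) (nat_lit 0) (nat_lit 0) (nat_lit 0x800fe7112) (nat_lit 1072885924),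
  Rx.mk (nat_lit 492) (nat_lit 4) (nat_lit 5) (nat_lit 7) (nat_lit 6) (nat_lit 75) (nat_lit 70) r0_75 r1_70 (nat_lit 2468639) (nat_lit 0) (nat_lit 0) (nat_lit 0x80090eed0) (nat_lit 1075791763),
  Rx.mk (nat_lit 494) (nat_lit 6) (nat_lit 5) (nat_lit 7) (nat_lit 7) (nat_lit 78) (nat_lit 71) r0_78 r1_71 (nat_lit 0) (nat_lit 0) (nat_lit 0) (nat_lit 0x81c0ba54c) (nat_lit 1045481724)]
noncomputable def e37_24 : List Rx := [
  Rx.mk (nat_lit 460) (nat_lit 4) (nat_lit 1) (nat_lit 7) (nat_lit 6) (nat_lit 79) (nat_lit 68) r0_79 r4_68 (nat_lit 1845209) (nat_lit 0) (nat_lit 0) (nat_lit 0x6d5c42330) (nat_lit 1386432233),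
  Rx.mk (nat_lit 492) (nat_lit 4) (nat_lit 5) (nat_lit 7) (nat_lit 6) (nat_lit 80) (nat_lit 69) r0_80 r4_69 (nat_lit 2927812) (nat_lit 0) (nat_lit 0) (nat_lit 0x7f9b05e02) (nat_lit 1083361236),
  Rx.mk (nat_lit 494) (nat_lit 6) (nat_lit 5) (nat_lit 7) (nat_lit 7) (nat_lit 81) (nat_lit 70) r0_81 r4_70 (nat_lit 0) (nat_lit 0) (nat_lit 0) (nat_lit 0x7fdf910da) (nat_lit 1075963024)]
noncomputable def e37_25 : List Rx := [
  Rx.mk (nat_lit 268) (nat_lit 4) (nat_lit 1) (nat_lit 4) (nat_lit 2) (nat_lit 177) (nat_lit 325) r0_177 r7_325 (nat_lit 1073466) (nat_lit 0) (nat_lit 216055) (nat_lit 0x52f01064a) (nat_lit 1826388745),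
  Rx.mk (nat_lit 300) (nat_lit 4) (nat_lit 5) (nat_lit 4) (nat_lit 2) (nat_lit 178) (nat_lit 319) r0_178 r7_319 (nat_lit 944100) (nat_lit 0) (nat_lit 327140) (nat_lit 0x5bb8077f4) (nat_lit 1679970364),
  Rx.mk (nat_lit 302) (nat_lit 6) (nat_lit 5) (nat_lit 4) (nat_lit 3) (nat_lit 182) (nat_lit 322) r0_182 r7_322 (nat_lit 0) (nat_lit 0) (nat_lit 1461987) (nat_lit 0x7ffe1df6c) (nat_lit 1075483511),
  Rx.mk (nat_lit 332) (nat_lit 4) (nat_lit 1) (nat_lit 5) (nat_lit 6) (nat_lit 179) (nat_lit 326) r0_179 r7_326 (nat_lit 1922278) (nat_lit 0) (nat_lit 0) (nat_lit 0x6264701d4) (nat_lit 1569386202),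
  Rx.mk (nat_lit 364) (nat_lit 4) (nat_lit 5) (nat_lit 5) (nat_lit 6) (nat_lit 180) (nat_lit 320) r0_180 r7_320 (nat_lit 5137059) (nat_lit 0) (nat_lit 0) (nat_lit 0x7a3a629c4) (nat_lit 1175198083),
  Rx.mk (nat_lit 366) (nat_lit 6) (nat_lit 5) (nat_lit 5) (nat_lit 7) (nat_lit 183) (nat_lit 323) r0_183 r7_323 (nat_lit 0) (nat_lit 0) (nat_lit 0) (nat_lit 0x802680a22) (nat_lit 1071441624),
  Rx.mk (nat_lit 492) (nat_lit 4) (nat_lit 5) (nat_lit 7) (nat_lit 6) (nat_lit 181) (nat_lit 321) r0_181 r7_321 (nat_lit 171422861) (nat_lit 0) (nat_lit 0) (nat_lit 0x80556c2a0) (nat_lit 1239814685),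
  Rx.mk (nat_lit 494) (nat_lit 6) (nat_lit 5) (nat_lit 7) (nat_lit 7) (nat_lit 184) (nat_lit 324) r0_184 r7_324 (nat_lit 0) (nat_lit 0) (nat_lit 0) (nat_lit 0x806ab61b0) (nat_lit 1067109724)]
noncomputable def e37_26 : List Rx := [
  Rx.mk (nat_lit 300) (nat_lit 4) (nat_lit 5) (nat_lit 4) (nat_lit 2) (nat_lit 188) (nat_lit 241) r0_188 r8_241 (nat_lit 36183064) (nat_lit 0) (nat_lit 3077458) (nat_lit 0x574fcceae) (nat_lit 1791474846),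
  Rx.mk (nat_lit 302) (nat_lit 6) (nat_lit 5) (nat_lit 4) (nat_lit 3) (nat_lit 191) (nat_lit 244) r0_191 r8_244 (nat_lit 0) (nat_lit 0) (nat_lit 2945103) (nat_lit 0x79da08f6a) (nat_lit 1179289527),
  Rx.mk (nat_lit 364) (nat_lit 4) (nat_lit 5) (nat_lit 5) (nat_lit 6) (nat_lit 189) (nat_lit 242) r0_189 r8_242 (nat_lit 7351485) (nat_lit 0) (nat_lit 0) (nat_lit 0x7a4837e50) (nat_lit 1176515009),
  Rx.mk (nat_lit 366) (nat_lit 6) (nat_lit 5) (nat_lit 5) (nat_lit 7) (nat_lit 192) (nat_lit 245) r0_192 r8_245 (nat_lit 0) (nat_lit 0) (nat_lit 0) (nat_lit 0x7fff97802) (nat_lit 1073934624),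
  Rx.mk (nat_lit 430) (nat_lit 6) (nat_lit 5) (nat_lit 6) (nat_lit 7) (nat_lit 193) (nat_lit 247) r0_193 r8_247 (nat_lit 0) (nat_lit 0) (nat_lit 0) (nat_lit 0x80029938e) (nat_lit 1073741824),
  Rx.mk (nat_lit 492) (nat_lit 4) (nat_lit 5) (nat_lit 7) (nat_lit 6) (nat_lit 190) (nat_lit 243) r0_190 r8_243 (nat_lit 188397076) (nat_lit 0) (nat_lit 0) (nat_lit 0x7fb4f6636) (nat_lit 1267133600),
  Rx.mk (nat_lit 494) (nat_lit 6) (nat_lit 5) (nat_lit 7) (nat_lit 7) (nat_lit 194) (nat_lit 246) r0_194 r8_246 (nat_lit 0) (nat_lit 0) (nat_lit 0) (nat_lit 0x80029938e) (nat_lit 1073741824)]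
noncomputable def e37_27 : List Rx := [
  Rx.mk (nat_lit 332) (nat_lit 4) (nat_lit 1) (nat_lit 5) (nat_lit 6) (nat_lit 185) (nat_lit 63) r0_185 r8_63 (nat_lit 3657848) (nat_lit 0) (nat_lit 0) (nat_lit 0x7a789dc8e) (nat_lit 1169663972),
  Rx.mk (nat_lit 364) (nat_lit 4) (nat_lit 5) (nat_lit 5) (nat_lit 6) (nat_lit 186) (nat_lit 64) r0_186 r8_64 (nat_lit 4721594) (nat_lit 0) (nat_lit 0) (nat_lit 0x7cb5a7826) (nat_lit 1133415918),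
  Rx.mk (nat_lit 366) (nat_lit 6) (nat_lit 5) (nat_lit 5) (nat_lit 7) (nat_lit 187) (nat_lit 65) r0_187 r8_65 (nat_lit 0) (nat_lit 0) (nat_lit 0) (nat_lit 0x801bc7158) (nat_lit 1072128324)]
noncomputable def e37_28 : List Rx := [
  Rx.mk (nat_lit 268) (nat_lit 4) (nat_lit 1) (nat_lit 4) (nat_lit 2) (nat_lit 195) (nat_lit 281) r0_195 r10_281 (nat_lit 577871) (nat_lit 0) (nat_lit 206251) (nat_lit 0x5b26d5dda) (nat_lit 1688936846),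
  Rx.mk (nat_lit 332) (nat_lit 4) (nat_lit 1) (nat_lit 5) (nat_lit 6) (nat_lit 196) (nat_lit 282) r0_196 r10_282 (nat_lit 2475431) (nat_lit 0) (nat_lit 0) (nat_lit 0x70fe46778) (nat_lit 1326502855),
  Rx.mk (nat_lit 460) (nat_lit 4) (nat_lit 1) (nat_lit 7) (nat_lit 6) (nat_lit 197) (nat_lit 283) r0_197 r10_283 (nat_lit 336738388) (nat_lit 0) (nat_lit 0) (nat_lit 0x7f9d350f6) (nat_lit 1417053112),
  Rx.mk (nat_lit 492) (nat_lit 4) (nat_lit 5) (nat_lit 7) (nat_lit 6) (nat_lit 198) (nat_lit 279) r0_198 r10_279 (nat_lit 172576021) (nat_lit 0) (nat_lit 0) (nat_lit 0x80845ae72) (nat_lit 1238006145),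
  Rx.mk (nat_lit 494) (nat_lit 6) (nat_lit 5) (nat_lit 7) (nat_lit 7) (nat_lit 199) (nat_lit 280) r0_199 r10_280 (nat_lit 0) (nat_lit 0) (nat_lit 0) (nat_lit 0x803360350) (nat_lit 1070623924)]
noncomputable def e37_29 : List Rx := [
  Rx.mk (nat_lit 460) (nat_lit 4) (nat_lit 1) (nat_lit 7) (nat_lit 6) (nat_lit 225) (nat_lit 302) r0_225 r11_302 (nat_lit 2075395) (nat_lit 0) (nat_lit 0) (nat_lit 0x7fa625f44) (nat_lit 1081791519),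
  Rx.mk (nat_lit 492) (nat_lit 4) (nat_lit 5) (nat_lit 7) (nat_lit 6) (nat_lit 226) (nat_lit 300) r0_226 r11_300 (nat_lit 3044938) (nat_lit 0) (nat_lit 0) (nat_lit 0x80a25caec) (nat_lit 1066625862),
  Rx.mk (nat_lit 494) (nat_lit 6) (nat_lit 5) (nat_lit 7) (nat_lit 7) (nat_lit 227) (nat_lit 301) r0_227 r11_301 (nat_lit 0) (nat_lit 0) (nat_lit 0) (nat_lit 0x811726e18) (nat_lit 1056188224)]
noncomputable def e37_30 : List Rx := [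
  Rx.mk (nat_lit 4) (nat_lit 4) (nat_lit 0) (nat_lit 0) (nat_lit 0) (nat_lit 330) (nat_lit 152) r0_330 r5_152 (nat_lit 325) (nat_lit 352) (nat_lit 330744107) (nat_lit 0x800010eb4) (nat_lit 1404482608),
  Rx.mk (nat_lit 5) (nat_lit 5) (nat_lit 0) (nat_lit 0) (nat_lit 1) (nat_lit 335) (nat_lit 153) r0_335 r5_153 (nat_lit 0) (nat_lit 2550648) (nat_lit 173854821) (nat_lit 0x75a4173f6) (nat_lit 1422939093),
  Rx.mk (nat_lit 7) (nat_lit 7) (nat_lit 0) (nat_lit 0) (nat_lit 1) (nat_lit 340) (nat_lit 154) r0_340 r5_154 (nat_lit 0) (nat_lit 281567) (nat_lit 98422675) (nat_lit 0x7f7c07604) (nat_lit 1181102766),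
  Rx.mk (nat_lit 12) (nat_lit 4) (nat_lit 1) (nat_lit 0) (nat_lit 2) (nat_lit 331) (nat_lit 155) r0_331 r5_155 (nat_lit 9541506) (nat_lit 0) (nat_lit 2163217) (nat_lit 0x7d2876e7e) (nat_lit 1132919447),
  Rx.mk (nat_lit 13) (nat_lit 5) (nat_lit 1) (nat_lit 0) (nat_lit 3) (nat_lit 336) (nat_lit 156) r0_336 r5_156 (nat_lit 0) (nat_lit 0) (nat_lit 5090091) (nat_lit 0x7fe496148) (nat_lit 1080758915),
  Rx.mk (nat_lit 15) (nat_lit 7) (nat_lit 1) (nat_lit 0) (nat_lit 3) (nat_lit 341) (nat_lit 157) r0_341 r5_157 (nat_lit 0) (nat_lit 0) (nat_lit 1226898) (nat_lit 0x7f8055c9c) (nat_lit 1083371622),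
  Rx.mk (nat_lit 196) (nat_lit 4) (nat_lit 0) (nat_lit 3) (nat_lit 4) (nat_lit 332) (nat_lit 158) r0_332 r5_158 (nat_lit 1903628) (nat_lit 1646045) (nat_lit 0) (nat_lit 0x64837e9fc) (nat_lit 1535649097),
  Rx.mk (nat_lit 197) (nat_lit 5) (nat_lit 0) (nat_lit 3) (nat_lit 5) (nat_lit 337) (nat_lit 159) r0_337 r5_159 (nat_lit 0) (nat_lit 3048911) (nat_lit 0) (nat_lit 0x7f12771a8) (nat_lit 1092353635),
  Rx.mk (nat_lit 204) (nat_lit 4) (nat_lit 1) (nat_lit 3) (nat_lit 6) (nat_lit 333) (nat_lit 160) r0_333 r5_160 (nat_lit 3491444) (nat_lit 0) (nat_lit 0) (nat_lit 0x7fef1f6dc) (nat_lit 1078469368),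
  Rx.mk (nat_lit 205) (nat_lit 5) (nat_lit 1) (nat_lit 3) (nat_lit 7) (nat_lit 338) (nat_lit 161) r0_338 r5_161 (nat_lit 0) (nat_lit 0) (nat_lit 0) (nat_lit 0x7ffdbe706) (nat_lit 1074053224),
  Rx.mk (nat_lit 220) (nat_lit 4) (nat_lit 3) (nat_lit 3) (nat_lit 6) (nat_lit 334) (nat_lit 162) r0_334 r5_162 (nat_lit 4819430) (nat_lit 0) (nat_lit 0) (nat_lit 0x75c3dc4d4) (nat_lit 1249292654),
  Rx.mk (nat_lit 221) (nat_lit 5) (nat_lit 3) (nat_lit 3) (nat_lit 7) (nat_lit 339) (nat_lit 163) r0_339 r5_163 (nat_lit 0) (nat_lit 0) (nat_lit 0) (nat_lit 0x801989bc0) (nat_lit 1072271724)]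
noncomputable def e37_31 : List Rx := [
  Rx.mk (nat_lit 4) (nat_lit 4) (nat_lit 0) (nat_lit 0) (nat_lit 0) (nat_lit 342) (nat_lit 165) r0_342 r11_165 (nat_lit 3852129) (nat_lit 10268755) (nat_lit 18458944) (nat_lit 0x51ec2bbde) (nat_lit 1874651452),
  Rx.mk (nat_lit 5) (nat_lit 5) (nat_lit 0) (nat_lit 0) (nat_lit 1) (nat_lit 349) (nat_lit 166) r0_349 r11_166 (nat_lit 0) (nat_lit 5119836) (nat_lit 249448811) (nat_lit 0x7cd98d3b2) (nat_lit 1380926471),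
  Rx.mk (nat_lit 7) (nat_lit 7) (nat_lit 0) (nat_lit 0) (nat_lit 1) (nat_lit 356) (nat_lit 167) r0_356 r11_167 (nat_lit 0) (nat_lit 9822470) (nat_lit 9822470) (nat_lit 0x7f9211c88) (nat_lit 1100657964),
  Rx.mk (nat_lit 12) (nat_lit 4) (nat_lit 1) (nat_lit 0) (nat_lit 2) (nat_lit 343) (nat_lit 168) r0_343 r11_168 (nat_lit 194126458) (nat_lit 0) (nat_lit 7934940) (nat_lit 0x7dfec5c32) (nat_lit 1309321022),
  Rx.mk (nat_lit 13) (nat_lit 5) (nat_lit 1) (nat_lit 0) (nat_lit 3) (nat_lit 350) (nat_lit 169) r0_350 r11_169 (nat_lit 0) (nat_lit 0) (nat_lit 5782474) (nat_lit 0x7ffaf2f18) (nat_lit 1080015398),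
  Rx.mk (nat_lit 15) (nat_lit 7) (nat_lit 1) (nat_lit 0) (nat_lit 3) (nat_lit 357) (nat_lit 170) r0_357 r11_170 (nat_lit 0) (nat_lit 0) (nat_lit 3096735) (nat_lit 0x80342c6c6) (nat_lit 1073669459),
  Rx.mk (nat_lit 68) (nat_lit 4) (nat_lit 0) (nat_lit 1) (nat_lit 4) (nat_lit 344) (nat_lit 171) r0_344 r11_171 (nat_lit 118564749) (nat_lit 7896501) (nat_lit 0) (nat_lit 0x78f0aaa94) (nat_lit 1317996874),
  Rx.mk (nat_lit 69) (nat_lit 5) (nat_lit 0) (nat_lit 1) (nat_lit 5) (nat_lit 351) (nat_lit 172) r0_351 r11_172 (nat_lit 0) (nat_lit 5449534) (nat_lit 0) (nat_lit 0x80029938e) (nat_lit 1079191358),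
  Rx.mk (nat_lit 71) (nat_lit 7) (nat_lit 0) (nat_lit 1) (nat_lit 5) (nat_lit 358) (nat_lit 173) r0_358 r11_173 (nat_lit 0) (nat_lit 4288788) (nat_lit 0) (nat_lit 0x801061ba6) (nat_lit 1077145012),
  Rx.mk (nat_lit 76) (nat_lit 4) (nat_lit 1) (nat_lit 1) (nat_lit 6) (nat_lit 345) (nat_lit 174) r0_345 r11_174 (nat_lit 172668765) (nat_lit 0) (nat_lit 0) (nat_lit 0x7f52725c8) (nat_lit 1257804589),
  Rx.mk (nat_lit 77) (nat_lit 5) (nat_lit 1) (nat_lit 1) (nat_lit 7) (nat_lit 352) (nat_lit 175) r0_352 r11_175 (nat_lit 0) (nat_lit 0) (nat_lit 0) (nat_lit 0x800c523a8) (nat_lit 1073118624),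
  Rx.mk (nat_lit 79) (nat_lit 7) (nat_lit 1) (nat_lit 1) (nat_lit 7) (nat_lit 359) (nat_lit 176) r0_359 r11_176 (nat_lit 0) (nat_lit 0) (nat_lit 0) (nat_lit 0x80b7bae20) (nat_lit 1062234024),
  Rx.mk (nat_lit 196) (nat_lit 4) (nat_lit 0) (nat_lit 3) (nat_lit 4) (nat_lit 346) (nat_lit 177) r0_346 r11_177 (nat_lit 7452897) (nat_lit 8056051) (nat_lit 0) (nat_lit 0x7322e451a) (nat_lit 1303815772),
  Rx.mk (nat_lit 197) (nat_lit 5) (nat_lit 0) (nat_lit 3) (nat_lit 5) (nat_lit 353) (nat_lit 178) r0_353 r11_178 (nat_lit 0) (nat_lit 4354585) (nat_lit 0) (nat_lit 0x800b09e74) (nat_lit 1077554409),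
  Rx.mk (nat_lit 204) (nat_lit 4) (nat_lit 1) (nat_lit 3) (nat_lit 6) (nat_lit 347) (nat_lit 179) r0_347 r11_179 (nat_lit 5449534) (nat_lit 0) (nat_lit 0) (nat_lit 0x8024d3526) (nat_lit 1077000758),
  Rx.mk (nat_lit 205) (nat_lit 5) (nat_lit 1) (nat_lit 3) (nat_lit 7) (nat_lit 354) (nat_lit 180) r0_354 r11_180 (nat_lit 0) (nat_lit 0) (nat_lit 0) (nat_lit 0x80029938e) (nat_lit 1073741824),
  Rx.mk (nat_lit 220) (nat_lit 4) (nat_lit 3) (nat_lit 3) (nat_lit 6) (nat_lit 348) (nat_lit 181) r0_348 r11_181 (nat_lit 5449534) (nat_lit 0) (nat_lit 0) (nat_lit 0x7fd37cdd0) (nat_lit 1082223658),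
  Rx.mk (nat_lit 221) (nat_lit 5) (nat_lit 3) (nat_lit 3) (nat_lit 7) (nat_lit 355) (nat_lit 182) r0_355 r11_182 (nat_lit 0) (nat_lit 0) (nat_lit 0) (nat_lit 0x800d18918) (nat_lit 1073068624)]
noncomputable def e37_32 : List Rx := [
  Rx.mk (nat_lit 199) (nat_lit 7) (nat_lit 0) (nat_lit 3) (nat_lit 5) (nat_lit 85) (nat_lit 5) r0_85 r6_5 (nat_lit 0) (nat_lit 726571) (nat_lit 0) (nat_lit 0x8053e60c0) (nat_lit 1069259595),
  Rx.mk (nat_lit 207) (nat_lit 7) (nat_lit 1) (nat_lit 3) (nat_lit 7) (nat_lit 86) (nat_lit 6) r0_86 r6_6 (nat_lit 0) (nat_lit 0) (nat_lit 0) (nat_lit 0x95d9fc690) (nat_lit 720454924),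
  Rx.mk (nat_lit 452) (nat_lit 4) (nat_lit 0) (nat_lit 7) (nat_lit 4) (nat_lit 82) (nat_lit 0) r0_82 r6_0 (nat_lit 287545) (nat_lit 191551) (nat_lit 0) (nat_lit 0x5ae6ab8ae) (nat_lit 1692810020),
  Rx.mk (nat_lit 455) (nat_lit 7) (nat_lit 0) (nat_lit 7) (nat_lit 5) (nat_lit 87) (nat_lit 3) r0_87 r6_3 (nat_lit 0) (nat_lit 1891802) (nat_lit 0) (nat_lit 0x7e43297ac) (nat_lit 1104700826),
  Rx.mk (nat_lit 460) (nat_lit 4) (nat_lit 1) (nat_lit 7) (nat_lit 6) (nat_lit 83) (nat_lit 1) r0_83 r6_1 (nat_lit 3246351) (nat_lit 0) (nat_lit 0) (nat_lit 0x7f1f1dac4) (nat_lit 1091721275),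
  Rx.mk (nat_lit 463) (nat_lit 7) (nat_lit 1) (nat_lit 7) (nat_lit 7) (nat_lit 88) (nat_lit 4) r0_88 r6_4 (nat_lit 0) (nat_lit 0) (nat_lit 0) (nat_lit 0x823b44524) (nat_lit 1037739424),
  Rx.mk (nat_lit 476) (nat_lit 4) (nat_lit 3) (nat_lit 7) (nat_lit 6) (nat_lit 84) (nat_lit 2) r0_84 r6_2 (nat_lit 1684651) (nat_lit 0) (nat_lit 0) (nat_lit 0x7dfbf60f6) (nat_lit 1109116275)]
noncomputable def e37_33 : List Rx := [
  Rx.mk (nat_lit 460) (nat_lit 4) (nat_lit 1) (nat_lit 7) (nat_lit 6) (nat_lit 89) (nat_lit 61) r0_89 r5_61 (nat_lit 26638681) (nat_lit 0) (nat_lit 0) (nat_lit 0x7d4f8ee26) (nat_lit 1145302105),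
  Rx.mk (nat_lit 463) (nat_lit 7) (nat_lit 1) (nat_lit 7) (nat_lit 7) (nat_lit 90) (nat_lit 62) r0_90 r5_62 (nat_lit 0) (nat_lit 0) (nat_lit 0) (nat_lit 0x83bd7abf0) (nat_lit 1013342324)]
noncomputable def e37_34 : List Rx := [
  Rx.mk (nat_lit 268) (nat_lit 4) (nat_lit 1) (nat_lit 4) (nat_lit 2) (nat_lit 200) (nat_lit 37) r0_200 r11_37 (nat_lit 314732184) (nat_lit 0) (nat_lit 9426144) (nat_lit 0x70c471818) (nat_lit 1651954452),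
  Rx.mk (nat_lit 332) (nat_lit 4) (nat_lit 1) (nat_lit 5) (nat_lit 6) (nat_lit 201) (nat_lit 38) r0_201 r11_38 (nat_lit 5592935) (nat_lit 0) (nat_lit 0) (nat_lit 0x802afe752) (nat_lit 1076749759),
  Rx.mk (nat_lit 460) (nat_lit 4) (nat_lit 1) (nat_lit 7) (nat_lit 6) (nat_lit 202) (nat_lit 39) r0_202 r11_39 (nat_lit 104895094) (nat_lit 0) (nat_lit 0) (nat_lit 0x801d36fca) (nat_lit 1176912118),
  Rx.mk (nat_lit 463) (nat_lit 7) (nat_lit 1) (nat_lit 7) (nat_lit 7) (nat_lit 203) (nat_lit 40) r0_203 r11_40 (nat_lit 0) (nat_lit 0) (nat_lit 0) (nat_lit 0x813820826) (nat_lit 1054113624)]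
noncomputable def e37_35 : List Rx := [
  Rx.mk (nat_lit 7) (nat_lit 7) (nat_lit 0) (nat_lit 0) (nat_lit 1) (nat_lit 232) (nat_lit 98) r0_232 r6_98 (nat_lit 0) (nat_lit 56818) (nat_lit 73687) (nat_lit 0x686f2bb72) (nat_lit 1466800329),
  Rx.mk (nat_lit 15) (nat_lit 7) (nat_lit 1) (nat_lit 0) (nat_lit 3) (nat_lit 233) (nat_lit 101) r0_233 r6_101 (nat_lit 0) (nat_lit 0) (nat_lit 94559) (nat_lit 0x9073beac2) (nat_lit 807812083),
  Rx.mk (nat_lit 196) (nat_lit 4) (nat_lit 0) (nat_lit 3) (nat_lit 4) (nat_lit 228) (nat_lit 99) r0_228 r6_99 (nat_lit 21155) (nat_lit 21443) (nat_lit 0) (nat_lit 0x655f25c44) (nat_lit 1517763922),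
  Rx.mk (nat_lit 199) (nat_lit 7) (nat_lit 0) (nat_lit 3) (nat_lit 5) (nat_lit 234) (nat_lit 100) r0_234 r6_100 (nat_lit 0) (nat_lit 2085900) (nat_lit 0) (nat_lit 0x80175fe9e) (nat_lit 1074492124),
  Rx.mk (nat_lit 204) (nat_lit 4) (nat_lit 1) (nat_lit 3) (nat_lit 6) (nat_lit 229) (nat_lit 102) r0_229 r6_102 (nat_lit 473428) (nat_lit 0) (nat_lit 0) (nat_lit 0x8f3b0df94) (nat_lit 827965152),
  Rx.mk (nat_lit 207) (nat_lit 7) (nat_lit 1) (nat_lit 3) (nat_lit 7) (nat_lit 235) (nat_lit 103) r0_235 r6_103 (nat_lit 0) (nat_lit 0) (nat_lit 0) (nat_lit 0x90cc616de) (nat_lit 802175124),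
  Rx.mk (nat_lit 220) (nat_lit 4) (nat_lit 3) (nat_lit 3) (nat_lit 6) (nat_lit 230) (nat_lit 104) r0_230 r6_104 (nat_lit 2346346) (nat_lit 0) (nat_lit 0) (nat_lit 0x7a9228b7c) (nat_lit 1166687270),
  Rx.mk (nat_lit 476) (nat_lit 4) (nat_lit 3) (nat_lit 7) (nat_lit 6) (nat_lit 231) (nat_lit 105) r0_231 r6_105 (nat_lit 1581921) (nat_lit 0) (nat_lit 0) (nat_lit 0x7e87497a2) (nat_lit 1099940645)]
noncomputable def e37_36 : List Rx := [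
  Rx.mk (nat_lit 196) (nat_lit 4) (nat_lit 0) (nat_lit 3) (nat_lit 4) (nat_lit 236) (nat_lit 318) r0_236 r12_318 (nat_lit 23874) (nat_lit 18804) (nat_lit 0) (nat_lit 0x617c80900) (nat_lit 1582544202),
  Rx.mk (nat_lit 199) (nat_lit 7) (nat_lit 0) (nat_lit 3) (nat_lit 5) (nat_lit 241) (nat_lit 323) r0_241 r12_323 (nat_lit 0) (nat_lit 805156) (nat_lit 0) (nat_lit 0x806db6b8a) (nat_lit 1067709380),
  Rx.mk (nat_lit 204) (nat_lit 4) (nat_lit 1) (nat_lit 3) (nat_lit 6) (nat_lit 237) (nat_lit 320) r0_237 r12_320 (nat_lit 6092) (nat_lit 0) (nat_lit 0) (nat_lit 0x90e6c8a2c) (nat_lit 800438116),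
  Rx.mk (nat_lit 207) (nat_lit 7) (nat_lit 1) (nat_lit 3) (nat_lit 7) (nat_lit 242) (nat_lit 324) r0_242 r12_324 (nat_lit 0) (nat_lit 0) (nat_lit 0) (nat_lit 0x9d314c5ce) (nat_lit 601741024),
  Rx.mk (nat_lit 452) (nat_lit 4) (nat_lit 0) (nat_lit 7) (nat_lit 4) (nat_lit 238) (nat_lit 319) r0_238 r12_319 (nat_lit 140974) (nat_lit 98820) (nat_lit 0) (nat_lit 0x5c7c4d794) (nat_lit 1666140718),
  Rx.mk (nat_lit 460) (nat_lit 4) (nat_lit 1) (nat_lit 7) (nat_lit 6) (nat_lit 239) (nat_lit 321) r0_239 r12_321 (nat_lit 10492686) (nat_lit 0) (nat_lit 0) (nat_lit 0x7fa00c536) (nat_lit 1090533610),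
  Rx.mk (nat_lit 476) (nat_lit 4) (nat_lit 3) (nat_lit 7) (nat_lit 6) (nat_lit 240) (nat_lit 322) r0_240 r12_322 (nat_lit 1111496) (nat_lit 0) (nat_lit 0) (nat_lit 0x7447c7c00) (nat_lit 1270325320)]
noncomputable def e37_37 : List Rx := [
  Rx.mk (nat_lit 3) (nat_lit 3) (nat_lit 0) (nat_lit 0) (nat_lit 1) (nat_lit 4) (nat_lit 11) r0_4 r0_11 (nat_lit 0) (nat_lit 315) (nat_lit 405) (nat_lit 0x7ffff5812) (nat_lit 1073745444),
  Rx.mk (nat_lit 19) (nat_lit 3) (nat_lit 2) (nat_lit 0) (nat_lit 3) (nat_lit 5) (nat_lit 12) r0_5 r0_12 (nat_lit 0) (nat_lit 0) (nat_lit 1728051) (nat_lit 0x7394ef902) (nat_lit 1282594675),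
  Rx.mk (nat_lit 144) (nat_lit 0) (nat_lit 2) (nat_lit 2) (nat_lit 6) (nat_lit 0) (nat_lit 10) r0_0 r0_10 (nat_lit 5395) (nat_lit 0) (nat_lit 0) (nat_lit 0x6944b7408) (nat_lit 1452752919),
  Rx.mk (nat_lit 146) (nat_lit 2) (nat_lit 2) (nat_lit 2) (nat_lit 7) (nat_lit 1) (nat_lit 19) r0_1 r0_19 (nat_lit 0) (nat_lit 0) (nat_lit 0) (nat_lit 0x75d7e4c92) (nat_lit 1243130024),
  Rx.mk (nat_lit 147) (nat_lit 3) (nat_lit 2) (nat_lit 2) (nat_lit 7) (nat_lit 6) (nat_lit 16) r0_6 r0_16 (nat_lit 0) (nat_lit 0) (nat_lit 0) (nat_lit 0x7fffee0a8) (nat_lit 1073746924),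
  Rx.mk (nat_lit 178) (nat_lit 2) (nat_lit 6) (nat_lit 2) (nat_lit 7) (nat_lit 2) (nat_lit 18) r0_2 r0_18 (nat_lit 0) (nat_lit 0) (nat_lit 0) (nat_lit 0x72bc9c29e) (nat_lit 1294943824),
  Rx.mk (nat_lit 195) (nat_lit 3) (nat_lit 0) (nat_lit 3) (nat_lit 5) (nat_lit 7) (nat_lit 13) r0_7 r0_13 (nat_lit 0) (nat_lit 333) (nat_lit 0) (nat_lit 0x89448e60a) (nat_lit 923874657),
  Rx.mk (nat_lit 211) (nat_lit 3) (nat_lit 2) (nat_lit 3) (nat_lit 7) (nat_lit 8) (nat_lit 15) r0_8 r0_15 (nat_lit 0) (nat_lit 0) (nat_lit 0) (nat_lit 0x7f59d35d8) (nat_lit 1084663224),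
  Rx.mk (nat_lit 219) (nat_lit 3) (nat_lit 3) (nat_lit 3) (nat_lit 7) (nat_lit 9) (nat_lit 14) r0_9 r0_14 (nat_lit 0) (nat_lit 0) (nat_lit 0) (nat_lit 0x7f4d09abe) (nat_lit 1085496724),
  Rx.mk (nat_lit 223) (nat_lit 7) (nat_lit 3) (nat_lit 3) (nat_lit 7) (nat_lit 17) (nat_lit 3) r0_17 r0_3 (nat_lit 0) (nat_lit 0) (nat_lit 0) (nat_lit 0x7faf4f9e4) (nat_lit 1079113724),
  Rx.mk (nat_lit 294) (nat_lit 6) (nat_lit 4) (nat_lit 4) (nat_lit 1) (nat_lit 11) (nat_lit 4) r0_11 r0_4 (nat_lit 0) (nat_lit 315) (nat_lit 405) (nat_lit 0x7ffff5812) (nat_lit 1073745444),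
  Rx.mk (nat_lit 318) (nat_lit 6) (nat_lit 7) (nat_lit 4) (nat_lit 3) (nat_lit 12) (nat_lit 5) r0_12 r0_5 (nat_lit 0) (nat_lit 0) (nat_lit 1728051) (nat_lit 0x7394ef902) (nat_lit 1282594675),
  Rx.mk (nat_lit 422) (nat_lit 6) (nat_lit 4) (nat_lit 6) (nat_lit 5) (nat_lit 13) (nat_lit 7) r0_13 r0_7 (nat_lit 0) (nat_lit 333) (nat_lit 0) (nat_lit 0x89448e60a) (nat_lit 923874657),
  Rx.mk (nat_lit 434) (nat_lit 2) (nat_lit 6) (nat_lit 6) (nat_lit 7) (nat_lit 3) (nat_lit 17) r0_3 r0_17 (nat_lit 0) (nat_lit 0) (nat_lit 0) (nat_lit 0x7faf4f9e4) (nat_lit 1079113724),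
  Rx.mk (nat_lit 438) (nat_lit 6) (nat_lit 6) (nat_lit 6) (nat_lit 7) (nat_lit 14) (nat_lit 9) r0_14 r0_9 (nat_lit 0) (nat_lit 0) (nat_lit 0) (nat_lit 0x7f4d09abe) (nat_lit 1085496724),
  Rx.mk (nat_lit 446) (nat_lit 6) (nat_lit 7) (nat_lit 6) (nat_lit 7) (nat_lit 15) (nat_lit 8) r0_15 r0_8 (nat_lit 0) (nat_lit 0) (nat_lit 0) (nat_lit 0x7f59d35d8) (nat_lit 1084663224),
  Rx.mk (nat_lit 479) (nat_lit 7) (nat_lit 3) (nat_lit 7) (nat_lit 7) (nat_lit 18) (nat_lit 2) r0_18 r0_2 (nat_lit 0) (nat_lit 0) (nat_lit 0) (nat_lit 0x72bc9c29e) (nat_lit 1294943824),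
  Rx.mk (nat_lit 508) (nat_lit 4) (nat_lit 7) (nat_lit 7) (nat_lit 6) (nat_lit 10) (nat_lit 0) r0_10 r0_0 (nat_lit 5395) (nat_lit 0) (nat_lit 0) (nat_lit 0x6944b7408) (nat_lit 1452752919),
  Rx.mk (nat_lit 510) (nat_lit 6) (nat_lit 7) (nat_lit 7) (nat_lit 7) (nat_lit 16) (nat_lit 6) r0_16 r0_6 (nat_lit 0) (nat_lit 0) (nat_lit 0) (nat_lit 0x7fffee0a8) (nat_lit 1073746924),
  Rx.mk (nat_lit 511) (nat_lit 7) (nat_lit 7) (nat_lit 7) (nat_lit 7) (nat_lit 19) (nat_lit 1) r0_19 r0_1 (nat_lit 0) (nat_lit 0) (nat_lit 0) (nat_lit 0x75d7e4c92) (nat_lit 1243130024)]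
noncomputable def e37_38 : List Rx := [
  Rx.mk (nat_lit 3) (nat_lit 3) (nat_lit 0) (nat_lit 0) (nat_lit 1) (nat_lit 94) (nat_lit 91) r0_94 r0_91 (nat_lit 0) (nat_lit 2281841) (nat_lit 349268526) (nat_lit 0x695e6d546) (nat_lit 1802695991),
  Rx.mk (nat_lit 16) (nat_lit 0) (nat_lit 2) (nat_lit 0) (nat_lit 2) (nat_lit 91) (nat_lit 94) r0_91 r0_94 (nat_lit 2281841) (nat_lit 0) (nat_lit 349268526) (nat_lit 0x695e6d546) (nat_lit 1802695991),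
  Rx.mk (nat_lit 19) (nat_lit 3) (nat_lit 2) (nat_lit 0) (nat_lit 3) (nat_lit 95) (nat_lit 95) r0_95 r0_95 (nat_lit 0) (nat_lit 0) (nat_lit 83723171) (nat_lit 0x7fded129e) (nat_lit 1159762995),
  Rx.mk (nat_lit 144) (nat_lit 0) (nat_lit 2) (nat_lit 2) (nat_lit 6) (nat_lit 92) (nat_lit 97) r0_92 r0_97 (nat_lit 7696512) (nat_lit 0) (nat_lit 0) (nat_lit 0x757aa5982) (nat_lit 1256938536),
  Rx.mk (nat_lit 146) (nat_lit 2) (nat_lit 2) (nat_lit 2) (nat_lit 7) (nat_lit 93) (nat_lit 99) r0_93 r0_99 (nat_lit 0) (nat_lit 0) (nat_lit 0) (nat_lit 0x7ff4b5254) (nat_lit 1074633224),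
  Rx.mk (nat_lit 147) (nat_lit 3) (nat_lit 2) (nat_lit 2) (nat_lit 7) (nat_lit 96) (nat_lit 98) r0_96 r0_98 (nat_lit 0) (nat_lit 0) (nat_lit 0) (nat_lit 0x800b21baa) (nat_lit 1073194924),
  Rx.mk (nat_lit 195) (nat_lit 3) (nat_lit 0) (nat_lit 3) (nat_lit 5) (nat_lit 97) (nat_lit 92) r0_97 r0_92 (nat_lit 0) (nat_lit 7696512) (nat_lit 0) (nat_lit 0x757aa5982) (nat_lit 1256938536),
  Rx.mk (nat_lit 211) (nat_lit 3) (nat_lit 2) (nat_lit 3) (nat_lit 7) (nat_lit 98) (nat_lit 96) r0_98 r0_96 (nat_lit 0) (nat_lit 0) (nat_lit 0) (nat_lit 0x800b21baa) (nat_lit 1073194924),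
  Rx.mk (nat_lit 219) (nat_lit 3) (nat_lit 3) (nat_lit 3) (nat_lit 7) (nat_lit 99) (nat_lit 93) r0_99 r0_93 (nat_lit 0) (nat_lit 0) (nat_lit 0) (nat_lit 0x7ff4b5254) (nat_lit 1074633224)]
noncomputable def e37_39 : List Rx := [
  Rx.mk (nat_lit 3) (nat_lit 3) (nat_lit 0) (nat_lit 0) (nat_lit 1) (nat_lit 105) (nat_lit 2) r0_105 r7_2 (nat_lit 0) (nat_lit 146838) (nat_lit 747955) (nat_lit 0x5e9ce2aac) (nat_lit 1631332817),
  Rx.mk (nat_lit 16) (nat_lit 0) (nat_lit 2) (nat_lit 0) (nat_lit 2) (nat_lit 100) (nat_lit 0) r0_100 r7_0 (nat_lit 16582240) (nat_lit 0) (nat_lit 12742526) (nat_lit 0x6135e2f48) (nat_lit 1616501090),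
  Rx.mk (nat_lit 19) (nat_lit 3) (nat_lit 2) (nat_lit 0) (nat_lit 3) (nat_lit 106) (nat_lit 3) r0_106 r7_3 (nat_lit 0) (nat_lit 0) (nat_lit 26061368) (nat_lit 0x7f3c3650c) (nat_lit 1112650392),
  Rx.mk (nat_lit 144) (nat_lit 0) (nat_lit 2) (nat_lit 2) (nat_lit 6) (nat_lit 101) (nat_lit 1) r0_101 r7_1 (nat_lit 2775314) (nat_lit 0) (nat_lit 0) (nat_lit 0x6ed474154) (nat_lit 1362877338),
  Rx.mk (nat_lit 146) (nat_lit 2) (nat_lit 2) (nat_lit 2) (nat_lit 7) (nat_lit 102) (nat_lit 10) r0_102 r7_10 (nat_lit 0) (nat_lit 0) (nat_lit 0) (nat_lit 0x7f8d00f78) (nat_lit 1081343624),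
  Rx.mk (nat_lit 147) (nat_lit 3) (nat_lit 2) (nat_lit 2) (nat_lit 7) (nat_lit 107) (nat_lit 7) r0_107 r7_7 (nat_lit 0) (nat_lit 0) (nat_lit 0) (nat_lit 0x7fecaec36) (nat_lit 1075148224),
  Rx.mk (nat_lit 178) (nat_lit 2) (nat_lit 6) (nat_lit 2) (nat_lit 7) (nat_lit 103) (nat_lit 9) r0_103 r7_9 (nat_lit 0) (nat_lit 0) (nat_lit 0) (nat_lit 0x80029938e) (nat_lit 1073741824),
  Rx.mk (nat_lit 195) (nat_lit 3) (nat_lit 0) (nat_lit 3) (nat_lit 5) (nat_lit 108) (nat_lit 4) r0_108 r7_4 (nat_lit 0) (nat_lit 4219351) (nat_lit 0) (nat_lit 0x735136a1c) (nat_lit 1289505675),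
  Rx.mk (nat_lit 211) (nat_lit 3) (nat_lit 2) (nat_lit 3) (nat_lit 7) (nat_lit 109) (nat_lit 6) r0_109 r7_6 (nat_lit 0) (nat_lit 0) (nat_lit 0) (nat_lit 0x7ff9f25aa) (nat_lit 1074297324),
  Rx.mk (nat_lit 219) (nat_lit 3) (nat_lit 3) (nat_lit 3) (nat_lit 7) (nat_lit 110) (nat_lit 5) r0_110 r7_5 (nat_lit 0) (nat_lit 0) (nat_lit 0) (nat_lit 0x7ff997768) (nat_lit 1074319724),
  Rx.mk (nat_lit 434) (nat_lit 2) (nat_lit 6) (nat_lit 6) (nat_lit 7) (nat_lit 104) (nat_lit 8) r0_104 r7_8 (nat_lit 0) (nat_lit 0) (nat_lit 0) (nat_lit 0x7ff7bb07a) (nat_lit 1074439424)]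
noncomputable def e37_40 : List Rx := [
  Rx.mk (nat_lit 1) (nat_lit 1) (nat_lit 0) (nat_lit 0) (nat_lit 1) (nat_lit 254) (nat_lit 98) r0_254 r2_98 (nat_lit 0) (nat_lit 7055863) (nat_lit 68407513) (nat_lit 0x53676d968) (nat_lit 1892836900),
  Rx.mk (nat_lit 17) (nat_lit 1) (nat_lit 2) (nat_lit 0) (nat_lit 3) (nat_lit 255) (nat_lit 99) r0_255 r2_99 (nat_lit 0) (nat_lit 0) (nat_lit 10599859) (nat_lit 0x7f72b6d3e) (nat_lit 1093649483),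
  Rx.mk (nat_lit 145) (nat_lit 1) (nat_lit 2) (nat_lit 2) (nat_lit 7) (nat_lit 256) (nat_lit 100) r0_256 r2_100 (nat_lit 0) (nat_lit 0) (nat_lit 0) (nat_lit 0x80029938e) (nat_lit 1073741824)]
noncomputable def e37_41 : List Rx := [
  Rx.mk (nat_lit 1) (nat_lit 1) (nat_lit 0) (nat_lit 0) (nat_lit 1) (nat_lit 262) (nat_lit 65) r0_262 r9_65 (nat_lit 0) (nat_lit 10235647) (nat_lit 33337572) (nat_lit 0x56d0f2f2a) (nat_lit 1804056343),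
  Rx.mk (nat_lit 17) (nat_lit 1) (nat_lit 2) (nat_lit 0) (nat_lit 3) (nat_lit 263) (nat_lit 66) r0_263 r9_66 (nat_lit 0) (nat_lit 0) (nat_lit 7516292) (nat_lit 0x7ed45a2a8) (nat_lit 1100866916),
  Rx.mk (nat_lit 145) (nat_lit 1) (nat_lit 2) (nat_lit 2) (nat_lit 7) (nat_lit 264) (nat_lit 67) r0_264 r9_67 (nat_lit 0) (nat_lit 0) (nat_lit 0) (nat_lit 0x7fff5bfe6) (nat_lit 1073949524)]
noncomputable def e37_42 : List Rx := [
  Rx.mk (nat_lit 1) (nat_lit 1) (nat_lit 0) (nat_lit 0) (nat_lit 1) (nat_lit 257) (nat_lit 155) r0_257 r9_155 (nat_lit 0) (nat_lit 14069634) (nat_lit 6905727) (nat_lit 0x4c6cacf20) (nat_lit 1954719885),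
  Rx.mk (nat_lit 17) (nat_lit 1) (nat_lit 2) (nat_lit 0) (nat_lit 3) (nat_lit 258) (nat_lit 156) r0_258 r9_156 (nat_lit 0) (nat_lit 0) (nat_lit 5858494) (nat_lit 0x7eeecaa20) (nat_lit 1097492218),
  Rx.mk (nat_lit 65) (nat_lit 1) (nat_lit 0) (nat_lit 1) (nat_lit 5) (nat_lit 259) (nat_lit 157) r0_259 r9_157 (nat_lit 0) (nat_lit 6147522) (nat_lit 0) (nat_lit 0x74233b2ba) (nat_lit 1277762346),
  Rx.mk (nat_lit 81) (nat_lit 1) (nat_lit 2) (nat_lit 1) (nat_lit 7) (nat_lit 260) (nat_lit 158) r0_260 r9_158 (nat_lit 0) (nat_lit 0) (nat_lit 0) (nat_lit 0x80003986e) (nat_lit 1073894024),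
  Rx.mk (nat_lit 145) (nat_lit 1) (nat_lit 2) (nat_lit 2) (nat_lit 7) (nat_lit 261) (nat_lit 159) r0_261 r9_159 (nat_lit 0) (nat_lit 0) (nat_lit 0) (nat_lit 0x80029938e) (nat_lit 1073741824)]
noncomputable def e37_43 : List Rx := [
  Rx.mk (nat_lit 0) (nat_lit 0) (nat_lit 0) (nat_lit 0) (nat_lit 0) (nat_lit 111) (nat_lit 94) r0_111 r1_94 (nat_lit 792) (nat_lit 809) (nat_lit 313883956) (nat_lit 0x800043b20) (nat_lit 1387611081),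
  Rx.mk (nat_lit 1) (nat_lit 1) (nat_lit 0) (nat_lit 0) (nat_lit 1) (nat_lit 114) (nat_lit 95) r0_114 r1_95 (nat_lit 0) (nat_lit 5229139) (nat_lit 389289256) (nat_lit 0x7f6d76162) (nat_lit 1477906119),
  Rx.mk (nat_lit 3) (nat_lit 3) (nat_lit 0) (nat_lit 0) (nat_lit 1) (nat_lit 118) (nat_lit 96) r0_118 r1_96 (nat_lit 0) (nat_lit 13308373) (nat_lit 244546135) (nat_lit 0x7f7cf93a0) (nat_lit 1340240332),
  Rx.mk (nat_lit 16) (nat_lit 0) (nat_lit 2) (nat_lit 0) (nat_lit 2) (nat_lit 112) (nat_lit 99) r0_112 r1_99 (nat_lit 2995413) (nat_lit 0) (nat_lit 134380886) (nat_lit 0x6f8aae7a8) (nat_lit 1485611623),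
  Rx.mk (nat_lit 17) (nat_lit 1) (nat_lit 2) (nat_lit 0) (nat_lit 3) (nat_lit 115) (nat_lit 100) r0_115 r1_100 (nat_lit 0) (nat_lit 0) (nat_lit 9520156) (nat_lit 0x7fd237c40) (nat_lit 1086376280),
  Rx.mk (nat_lit 19) (nat_lit 3) (nat_lit 2) (nat_lit 0) (nat_lit 3) (nat_lit 119) (nat_lit 101) r0_119 r1_101 (nat_lit 0) (nat_lit 0) (nat_lit 7910044) (nat_lit 0x80340856e) (nat_lit 1078489268),
  Rx.mk (nat_lit 144) (nat_lit 0) (nat_lit 2) (nat_lit 2) (nat_lit 6) (nat_lit 113) (nat_lit 103) r0_113 r1_103 (nat_lit 4066432) (nat_lit 0) (nat_lit 0) (nat_lit 0x79ca131dc) (nat_lit 1181450656),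
  Rx.mk (nat_lit 145) (nat_lit 1) (nat_lit 2) (nat_lit 2) (nat_lit 7) (nat_lit 116) (nat_lit 104) r0_116 r1_104 (nat_lit 0) (nat_lit 0) (nat_lit 0) (nat_lit 0x80029938e) (nat_lit 1073741824),
  Rx.mk (nat_lit 146) (nat_lit 2) (nat_lit 2) (nat_lit 2) (nat_lit 7) (nat_lit 117) (nat_lit 106) r0_117 r1_106 (nat_lit 0) (nat_lit 0) (nat_lit 0) (nat_lit 0x80029938e) (nat_lit 1073741824),
  Rx.mk (nat_lit 147) (nat_lit 3) (nat_lit 2) (nat_lit 2) (nat_lit 7) (nat_lit 120) (nat_lit 105) r0_120 r1_105 (nat_lit 0) (nat_lit 0) (nat_lit 0) (nat_lit 0x80029938e) (nat_lit 1073741824),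
  Rx.mk (nat_lit 195) (nat_lit 3) (nat_lit 0) (nat_lit 3) (nat_lit 5) (nat_lit 121) (nat_lit 97) r0_121 r1_97 (nat_lit 0) (nat_lit 4762754) (nat_lit 0) (nat_lit 0x7fefdf6ee) (nat_lit 1079707178),
  Rx.mk (nat_lit 211) (nat_lit 3) (nat_lit 2) (nat_lit 3) (nat_lit 7) (nat_lit 122) (nat_lit 102) r0_122 r1_102 (nat_lit 0) (nat_lit 0) (nat_lit 0) (nat_lit 0x80029938e) (nat_lit 1073741824),
  Rx.mk (nat_lit 219) (nat_lit 3) (nat_lit 3) (nat_lit 3) (nat_lit 7) (nat_lit 123) (nat_lit 98) r0_123 r1_98 (nat_lit 0) (nat_lit 0) (nat_lit 0) (nat_lit 0x80029938e) (nat_lit 1073741824)]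
noncomputable def e37_44 : List Rx := [
  Rx.mk (nat_lit 0) (nat_lit 0) (nat_lit 0) (nat_lit 0) (nat_lit 0) (nat_lit 124) (nat_lit 0) r0_124 r8_0 (nat_lit 769730) (nat_lit 875647) (nat_lit 19583288) (nat_lit 0x2e4eda24a) (nat_lit 2457082489),
  Rx.mk (nat_lit 1) (nat_lit 1) (nat_lit 0) (nat_lit 0) (nat_lit 1) (nat_lit 127) (nat_lit 3) r0_127 r8_3 (nat_lit 0) (nat_lit 5177292) (nat_lit 10202902) (nat_lit 0x5a407c046) (nat_lit 1718579418),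
  Rx.mk (nat_lit 3) (nat_lit 3) (nat_lit 0) (nat_lit 0) (nat_lit 1) (nat_lit 133) (nat_lit 6) r0_133 r8_6 (nat_lit 0) (nat_lit 11768288) (nat_lit 19041550) (nat_lit 0x59527f2bc) (nat_lit 1749505762),
  Rx.mk (nat_lit 16) (nat_lit 0) (nat_lit 2) (nat_lit 0) (nat_lit 2) (nat_lit 125) (nat_lit 1) r0_125 r8_1 (nat_lit 6920669) (nat_lit 0) (nat_lit 6110955) (nat_lit 0x5c1df8e8c) (nat_lit 1685132748),
  Rx.mk (nat_lit 17) (nat_lit 1) (nat_lit 2) (nat_lit 0) (nat_lit 3) (nat_lit 128) (nat_lit 4) r0_128 r8_4 (nat_lit 0) (nat_lit 0) (nat_lit 7519074) (nat_lit 0x7f790236e) (nat_lit 1090159298),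
  Rx.mk (nat_lit 19) (nat_lit 3) (nat_lit 2) (nat_lit 0) (nat_lit 3) (nat_lit 134) (nat_lit 7) r0_134 r8_7 (nat_lit 0) (nat_lit 0) (nat_lit 11254699) (nat_lit 0x7f97706d4) (nat_lit 1091919323),
  Rx.mk (nat_lit 144) (nat_lit 0) (nat_lit 2) (nat_lit 2) (nat_lit 6) (nat_lit 126) (nat_lit 2) r0_126 r8_2 (nat_lit 3304366) (nat_lit 0) (nat_lit 0) (nat_lit 0x7121ef044) (nat_lit 1325017390),
  Rx.mk (nat_lit 145) (nat_lit 1) (nat_lit 2) (nat_lit 2) (nat_lit 7) (nat_lit 129) (nat_lit 5) r0_129 r8_5 (nat_lit 0) (nat_lit 0) (nat_lit 0) (nat_lit 0x7ff585e22) (nat_lit 1074580824),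
  Rx.mk (nat_lit 146) (nat_lit 2) (nat_lit 2) (nat_lit 2) (nat_lit 7) (nat_lit 130) (nat_lit 14) r0_130 r8_14 (nat_lit 0) (nat_lit 0) (nat_lit 0) (nat_lit 0x7fe8c0fac) (nat_lit 1075405124),
  Rx.mk (nat_lit 147) (nat_lit 3) (nat_lit 2) (nat_lit 2) (nat_lit 7) (nat_lit 135) (nat_lit 11) r0_135 r8_11 (nat_lit 0) (nat_lit 0) (nat_lit 0) (nat_lit 0x7ff7f4f0a) (nat_lit 1074424424),
  Rx.mk (nat_lit 178) (nat_lit 2) (nat_lit 6) (nat_lit 2) (nat_lit 7) (nat_lit 131) (nat_lit 13) r0_131 r8_13 (nat_lit 0) (nat_lit 0) (nat_lit 0) (nat_lit 0x80000807a) (nat_lit 1073906424),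
  Rx.mk (nat_lit 195) (nat_lit 3) (nat_lit 0) (nat_lit 3) (nat_lit 5) (nat_lit 136) (nat_lit 8) r0_136 r8_8 (nat_lit 0) (nat_lit 8974417) (nat_lit 0) (nat_lit 0x79570f6e0) (nat_lit 1193845041),
  Rx.mk (nat_lit 211) (nat_lit 3) (nat_lit 2) (nat_lit 3) (nat_lit 7) (nat_lit 137) (nat_lit 10) r0_137 r8_10 (nat_lit 0) (nat_lit 0) (nat_lit 0) (nat_lit 0x80029938e) (nat_lit 1073741824),
  Rx.mk (nat_lit 219) (nat_lit 3) (nat_lit 3) (nat_lit 3) (nat_lit 7) (nat_lit 138) (nat_lit 9) r0_138 r8_9 (nat_lit 0) (nat_lit 0) (nat_lit 0) (nat_lit 0x80029938e) (nat_lit 1073741824),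
  Rx.mk (nat_lit 434) (nat_lit 2) (nat_lit 6) (nat_lit 6) (nat_lit 7) (nat_lit 132) (nat_lit 12) r0_132 r8_12 (nat_lit 0) (nat_lit 0) (nat_lit 0) (nat_lit 0x7ffea679a) (nat_lit 1073995024)]
noncomputable def e37_45 : List Rx := [
  Rx.mk (nat_lit 178) (nat_lit 2) (nat_lit 6) (nat_lit 2) (nat_lit 7) (nat_lit 20) (nat_lit 9) r0_20 r1_9 (nat_lit 0) (nat_lit 0) (nat_lit 0) (nat_lit 0x7ffd4488e) (nat_lit 1074080924),
  Rx.mk (nat_lit 294) (nat_lit 6) (nat_lit 4) (nat_lit 4) (nat_lit 1) (nat_lit 23) (nat_lit 2) r0_23 r1_2 (nat_lit 0) (nat_lit 718420) (nat_lit 1455550) (nat_lit 0x6a3efe8ee) (nat_lit 1438693294),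
  Rx.mk (nat_lit 318) (nat_lit 6) (nat_lit 7) (nat_lit 4) (nat_lit 3) (nat_lit 24) (nat_lit 3) r0_24 r1_3 (nat_lit 0) (nat_lit 0) (nat_lit 3519261) (nat_lit 0x7fe91f23c) (nat_lit 1078893085),
  Rx.mk (nat_lit 422) (nat_lit 6) (nat_lit 4) (nat_lit 6) (nat_lit 5) (nat_lit 25) (nat_lit 5) r0_25 r1_5 (nat_lit 0) (nat_lit 1321792) (nat_lit 0) (nat_lit 0x7eac0b5f4) (nat_lit 1097321716),
  Rx.mk (nat_lit 434) (nat_lit 2) (nat_lit 6) (nat_lit 6) (nat_lit 7) (nat_lit 21) (nat_lit 8) r0_21 r1_8 (nat_lit 0) (nat_lit 0) (nat_lit 0) (nat_lit 0x801ae09f6) (nat_lit 1072185524),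
  Rx.mk (nat_lit 438) (nat_lit 6) (nat_lit 6) (nat_lit 6) (nat_lit 7) (nat_lit 26) (nat_lit 7) r0_26 r1_7 (nat_lit 0) (nat_lit 0) (nat_lit 0) (nat_lit 0x8024ca822) (nat_lit 1071553224),
  Rx.mk (nat_lit 446) (nat_lit 6) (nat_lit 7) (nat_lit 6) (nat_lit 7) (nat_lit 27) (nat_lit 6) r0_27 r1_6 (nat_lit 0) (nat_lit 0) (nat_lit 0) (nat_lit 0x8026ace56) (nat_lit 1071433124),
  Rx.mk (nat_lit 508) (nat_lit 4) (nat_lit 7) (nat_lit 7) (nat_lit 6) (nat_lit 22) (nat_lit 0) r0_22 r1_0 (nat_lit 3533431) (nat_lit 0) (nat_lit 0) (nat_lit 0x7556e8ecc) (nat_lit 1255098455),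
  Rx.mk (nat_lit 510) (nat_lit 6) (nat_lit 7) (nat_lit 7) (nat_lit 7) (nat_lit 28) (nat_lit 4) r0_28 r1_4 (nat_lit 0) (nat_lit 0) (nat_lit 0) (nat_lit 0x8b4469ad8) (nat_lit 891617424),
  Rx.mk (nat_lit 511) (nat_lit 7) (nat_lit 7) (nat_lit 7) (nat_lit 7) (nat_lit 29) (nat_lit 1) r0_29 r1_1 (nat_lit 0) (nat_lit 0) (nat_lit 0) (nat_lit 0x80f88a298) (nat_lit 1058137724)]
noncomputable def e37_46 : List Rx := [
  Rx.mk (nat_lit 294) (nat_lit 6) (nat_lit 4) (nat_lit 4) (nat_lit 1) (nat_lit 34) (nat_lit 4) r0_34 r2_4 (nat_lit 0) (nat_lit 546718) (nat_lit 1100011) (nat_lit 0x5e324af1e) (nat_lit 1639056353),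
  Rx.mk (nat_lit 302) (nat_lit 6) (nat_lit 5) (nat_lit 4) (nat_lit 3) (nat_lit 35) (nat_lit 5) r0_35 r2_5 (nat_lit 0) (nat_lit 0) (nat_lit 6036329) (nat_lit 0x7f3f12eb0) (nat_lit 1092440953),
  Rx.mk (nat_lit 422) (nat_lit 6) (nat_lit 4) (nat_lit 6) (nat_lit 5) (nat_lit 36) (nat_lit 9) r0_36 r2_9 (nat_lit 0) (nat_lit 3680737) (nat_lit 0) (nat_lit 0x7f050aae2) (nat_lit 1093861361),
  Rx.mk (nat_lit 430) (nat_lit 6) (nat_lit 5) (nat_lit 6) (nat_lit 7) (nat_lit 37) (nat_lit 10) r0_37 r2_10 (nat_lit 0) (nat_lit 0) (nat_lit 0) (nat_lit 0x8000ca71a) (nat_lit 1073857724),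
  Rx.mk (nat_lit 434) (nat_lit 2) (nat_lit 6) (nat_lit 6) (nat_lit 7) (nat_lit 30) (nat_lit 12) r0_30 r2_12 (nat_lit 0) (nat_lit 0) (nat_lit 0) (nat_lit 0x80029938e) (nat_lit 1073741824),
  Rx.mk (nat_lit 438) (nat_lit 6) (nat_lit 6) (nat_lit 6) (nat_lit 7) (nat_lit 38) (nat_lit 11) r0_38 r2_11 (nat_lit 0) (nat_lit 0) (nat_lit 0) (nat_lit 0x8000ca71a) (nat_lit 1073857724),
  Rx.mk (nat_lit 484) (nat_lit 4) (nat_lit 4) (nat_lit 7) (nat_lit 4) (nat_lit 31) (nat_lit 0) r0_31 r2_0 (nat_lit 418407) (nat_lit 340572) (nat_lit 0) (nat_lit 0x63d5cd998) (nat_lit 1544142803),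
  Rx.mk (nat_lit 486) (nat_lit 6) (nat_lit 4) (nat_lit 7) (nat_lit 5) (nat_lit 39) (nat_lit 6) r0_39 r2_6 (nat_lit 0) (nat_lit 372081) (nat_lit 0) (nat_lit 0x80aa87848) (nat_lit 1063404905),
  Rx.mk (nat_lit 492) (nat_lit 4) (nat_lit 5) (nat_lit 7) (nat_lit 6) (nat_lit 32) (nat_lit 1) r0_32 r2_1 (nat_lit 2521905) (nat_lit 0) (nat_lit 0) (nat_lit 0x7ff8da2da) (nat_lit 1076883729),
  Rx.mk (nat_lit 494) (nat_lit 6) (nat_lit 5) (nat_lit 7) (nat_lit 7) (nat_lit 40) (nat_lit 7) r0_40 r2_7 (nat_lit 0) (nat_lit 0) (nat_lit 0) (nat_lit 0x812965e80) (nat_lit 1055044524),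
  Rx.mk (nat_lit 508) (nat_lit 4) (nat_lit 7) (nat_lit 7) (nat_lit 6) (nat_lit 33) (nat_lit 2) r0_33 r2_2 (nat_lit 4691311) (nat_lit 0) (nat_lit 0) (nat_lit 0x7fd860edc) (nat_lit 1081143335),
  Rx.mk (nat_lit 510) (nat_lit 6) (nat_lit 7) (nat_lit 7) (nat_lit 7) (nat_lit 41) (nat_lit 8) r0_41 r2_8 (nat_lit 0) (nat_lit 0) (nat_lit 0) (nat_lit 0x812d32e5a) (nat_lit 1054804324),
  Rx.mk (nat_lit 511) (nat_lit 7) (nat_lit 7) (nat_lit 7) (nat_lit 7) (nat_lit 42) (nat_lit 3) r0_42 r2_3 (nat_lit 0) (nat_lit 0) (nat_lit 0) (nat_lit 0x80029938e) (nat_lit 1073741824)]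
noncomputable def e37_47 : List Rx := [
  Rx.mk (nat_lit 178) (nat_lit 2) (nat_lit 6) (nat_lit 2) (nat_lit 7) (nat_lit 139) (nat_lit 76) r0_139 r8_76 (nat_lit 0) (nat_lit 0) (nat_lit 0) (nat_lit 0x80000a14a) (nat_lit 1073905924),
  Rx.mk (nat_lit 434) (nat_lit 2) (nat_lit 6) (nat_lit 6) (nat_lit 7) (nat_lit 140) (nat_lit 77) r0_140 r8_77 (nat_lit 0) (nat_lit 0) (nat_lit 0) (nat_lit 0x7ffc024da) (nat_lit 1074164524)]
noncomputable def e37_48 : List Rx := [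
  Rx.mk (nat_lit 434) (nat_lit 2) (nat_lit 6) (nat_lit 6) (nat_lit 7) (nat_lit 141) (nat_lit 0) r0_141 r9_0 (nat_lit 0) (nat_lit 0) (nat_lit 0) (nat_lit 0x7ffe05cc8) (nat_lit 1074035324)]
noncomputable def e37_49 : List Rx := [
  Rx.mk (nat_lit 292) (nat_lit 4) (nat_lit 4) (nat_lit 4) (nat_lit 0) (nat_lit 155) (nat_lit 23) r0_155 r9_23 (nat_lit 4153151) (nat_lit 1354781) (nat_lit 2362812) (nat_lit 0x1b57e90f6) (nat_lit 2759934868),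
  Rx.mk (nat_lit 294) (nat_lit 6) (nat_lit 4) (nat_lit 4) (nat_lit 1) (nat_lit 161) (nat_lit 25) r0_161 r9_25 (nat_lit 0) (nat_lit 2456288) (nat_lit 2475026) (nat_lit 0x57aea971a) (nat_lit 1750970938),
  Rx.mk (nat_lit 300) (nat_lit 4) (nat_lit 5) (nat_lit 4) (nat_lit 2) (nat_lit 156) (nat_lit 24) r0_156 r9_24 (nat_lit 4177856) (nat_lit 0) (nat_lit 4070116) (nat_lit 0x4bc84881c) (nat_lit 1952696096),
  Rx.mk (nat_lit 302) (nat_lit 6) (nat_lit 5) (nat_lit 4) (nat_lit 3) (nat_lit 162) (nat_lit 26) r0_162 r9_26 (nat_lit 0) (nat_lit 0) (nat_lit 5501243) (nat_lit 0x781c26610) (nat_lit 1210881267),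
  Rx.mk (nat_lit 364) (nat_lit 4) (nat_lit 5) (nat_lit 5) (nat_lit 6) (nat_lit 157) (nat_lit 27) r0_157 r9_27 (nat_lit 6049948) (nat_lit 0) (nat_lit 0) (nat_lit 0x7c59b23d6) (nat_lit 1140727172),
  Rx.mk (nat_lit 366) (nat_lit 6) (nat_lit 5) (nat_lit 5) (nat_lit 7) (nat_lit 163) (nat_lit 28) r0_163 r9_28 (nat_lit 0) (nat_lit 0) (nat_lit 0) (nat_lit 0x80029938e) (nat_lit 1073741824),
  Rx.mk (nat_lit 422) (nat_lit 6) (nat_lit 4) (nat_lit 6) (nat_lit 5) (nat_lit 164) (nat_lit 37) r0_164 r9_37 (nat_lit 0) (nat_lit 5165939) (nat_lit 0) (nat_lit 0x791ad7c68) (nat_lit 1193957763),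
  Rx.mk (nat_lit 430) (nat_lit 6) (nat_lit 5) (nat_lit 6) (nat_lit 7) (nat_lit 165) (nat_lit 38) r0_165 r9_38 (nat_lit 0) (nat_lit 0) (nat_lit 0) (nat_lit 0x80029938e) (nat_lit 1073741824),
  Rx.mk (nat_lit 434) (nat_lit 2) (nat_lit 6) (nat_lit 6) (nat_lit 7) (nat_lit 154) (nat_lit 36) r0_154 r9_36 (nat_lit 0) (nat_lit 0) (nat_lit 0) (nat_lit 0x80029938e) (nat_lit 1073741824),
  Rx.mk (nat_lit 438) (nat_lit 6) (nat_lit 6) (nat_lit 6) (nat_lit 7) (nat_lit 166) (nat_lit 39) r0_166 r9_39 (nat_lit 0) (nat_lit 0) (nat_lit 0) (nat_lit 0x80029938e) (nat_lit 1073741824),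
  Rx.mk (nat_lit 484) (nat_lit 4) (nat_lit 4) (nat_lit 7) (nat_lit 4) (nat_lit 158) (nat_lit 29) r0_158 r9_29 (nat_lit 18445641) (nat_lit 2771204) (nat_lit 0) (nat_lit 0x4ea89f76a) (nat_lit 1917708369),
  Rx.mk (nat_lit 486) (nat_lit 6) (nat_lit 4) (nat_lit 7) (nat_lit 5) (nat_lit 167) (nat_lit 33) r0_167 r9_33 (nat_lit 0) (nat_lit 5084035) (nat_lit 0) (nat_lit 0x7fe4632fc) (nat_lit 1080766959),
  Rx.mk (nat_lit 492) (nat_lit 4) (nat_lit 5) (nat_lit 7) (nat_lit 6) (nat_lit 159) (nat_lit 30) r0_159 r9_30 (nat_lit 9808972) (nat_lit 0) (nat_lit 0) (nat_lit 0x7fc6e9032) (nat_lit 1087396196),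
  Rx.mk (nat_lit 494) (nat_lit 6) (nat_lit 5) (nat_lit 7) (nat_lit 7) (nat_lit 168) (nat_lit 34) r0_168 r9_34 (nat_lit 0) (nat_lit 0) (nat_lit 0) (nat_lit 0x80029938e) (nat_lit 1073741824),
  Rx.mk (nat_lit 508) (nat_lit 4) (nat_lit 7) (nat_lit 7) (nat_lit 6) (nat_lit 160) (nat_lit 31) r0_160 r9_31 (nat_lit 89110576) (nat_lit 0) (nat_lit 0) (nat_lit 0x7efa9f9ea) (nat_lit 1179970500),
  Rx.mk (nat_lit 510) (nat_lit 6) (nat_lit 7) (nat_lit 7) (nat_lit 7) (nat_lit 169) (nat_lit 35) r0_169 r9_35 (nat_lit 0) (nat_lit 0) (nat_lit 0) (nat_lit 0x80029938e) (nat_lit 1073741824),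
  Rx.mk (nat_lit 511) (nat_lit 7) (nat_lit 7) (nat_lit 7) (nat_lit 7) (nat_lit 170) (nat_lit 32) r0_170 r9_32 (nat_lit 0) (nat_lit 0) (nat_lit 0) (nat_lit 0x7feda7fe8) (nat_lit 1075089724)]
noncomputable def e37_50 : List Rx := [
  Rx.mk (nat_lit 3) (nat_lit 3) (nat_lit 0) (nat_lit 0) (nat_lit 1) (nat_lit 43) (nat_lit 4) r0_43 r3_4 (nat_lit 0) (nat_lit 41) (nat_lit 127) (nat_lit 0x810a42a4e) (nat_lit 1056923092),
  Rx.mk (nat_lit 19) (nat_lit 3) (nat_lit 2) (nat_lit 0) (nat_lit 3) (nat_lit 44) (nat_lit 5) r0_44 r3_5 (nat_lit 0) (nat_lit 0) (nat_lit 57402) (nat_lit 0x72280bbe8) (nat_lit 1304618126),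
  Rx.mk (nat_lit 147) (nat_lit 3) (nat_lit 2) (nat_lit 2) (nat_lit 7) (nat_lit 45) (nat_lit 8) r0_45 r3_8 (nat_lit 0) (nat_lit 0) (nat_lit 0) (nat_lit 0x7e9e55ea0) (nat_lit 1096868324),
  Rx.mk (nat_lit 195) (nat_lit 3) (nat_lit 0) (nat_lit 3) (nat_lit 5) (nat_lit 46) (nat_lit 6) r0_46 r3_6 (nat_lit 0) (nat_lit 340766) (nat_lit 0) (nat_lit 0x7b6c883d0) (nat_lit 1150435990),
  Rx.mk (nat_lit 199) (nat_lit 7) (nat_lit 0) (nat_lit 3) (nat_lit 5) (nat_lit 49) (nat_lit 2) r0_49 r3_2 (nat_lit 0) (nat_lit 1675) (nat_lit 0) (nat_lit 0x7fff0f506) (nat_lit 1073805999),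
  Rx.mk (nat_lit 211) (nat_lit 3) (nat_lit 2) (nat_lit 3) (nat_lit 7) (nat_lit 47) (nat_lit 7) r0_47 r3_7 (nat_lit 0) (nat_lit 0) (nat_lit 0) (nat_lit 0x805080ac0) (nat_lit 1068781124),
  Rx.mk (nat_lit 223) (nat_lit 7) (nat_lit 3) (nat_lit 3) (nat_lit 7) (nat_lit 50) (nat_lit 3) r0_50 r3_3 (nat_lit 0) (nat_lit 0) (nat_lit 0) (nat_lit 0x7ff88c6a2) (nat_lit 1074376024),
  Rx.mk (nat_lit 476) (nat_lit 4) (nat_lit 3) (nat_lit 7) (nat_lit 6) (nat_lit 48) (nat_lit 0) r0_48 r3_0 (nat_lit 2538) (nat_lit 0) (nat_lit 0) (nat_lit 0x7f0d94852) (nat_lit 1089533662),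
  Rx.mk (nat_lit 479) (nat_lit 7) (nat_lit 3) (nat_lit 7) (nat_lit 7) (nat_lit 51) (nat_lit 1) r0_51 r3_1 (nat_lit 0) (nat_lit 0) (nat_lit 0) (nat_lit 0x7e28e0986) (nat_lit 1104512624)]
noncomputable def e37_51 : List Rx := [
  Rx.mk (nat_lit 3) (nat_lit 3) (nat_lit 0) (nat_lit 0) (nat_lit 1) (nat_lit 52) (nat_lit 8) r0_52 r4_8 (nat_lit 0) (nat_lit 1880334) (nat_lit 24902759) (nat_lit 0x65a2917c6) (nat_lit 1540179317),
  Rx.mk (nat_lit 19) (nat_lit 3) (nat_lit 2) (nat_lit 0) (nat_lit 3) (nat_lit 53) (nat_lit 9) r0_53 r4_9 (nat_lit 0) (nat_lit 0) (nat_lit 8072366) (nat_lit 0x752013154) (nat_lit 1263210890),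
  Rx.mk (nat_lit 147) (nat_lit 3) (nat_lit 2) (nat_lit 2) (nat_lit 7) (nat_lit 54) (nat_lit 12) r0_54 r4_12 (nat_lit 0) (nat_lit 0) (nat_lit 0) (nat_lit 0x7b2096062) (nat_lit 1155059824),
  Rx.mk (nat_lit 195) (nat_lit 3) (nat_lit 0) (nat_lit 3) (nat_lit 5) (nat_lit 55) (nat_lit 10) r0_55 r4_10 (nat_lit 0) (nat_lit 2516625) (nat_lit 0) (nat_lit 0x7f8893454) (nat_lit 1084144949),
  Rx.mk (nat_lit 199) (nat_lit 7) (nat_lit 0) (nat_lit 3) (nat_lit 5) (nat_lit 62) (nat_lit 3) r0_62 r4_3 (nat_lit 0) (nat_lit 2627169) (nat_lit 0) (nat_lit 0x8020258c6) (nat_lit 1074474693),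
  Rx.mk (nat_lit 211) (nat_lit 3) (nat_lit 2) (nat_lit 3) (nat_lit 7) (nat_lit 56) (nat_lit 11) r0_56 r4_11 (nat_lit 0) (nat_lit 0) (nat_lit 0) (nat_lit 0x803412cb2) (nat_lit 1070579024),
  Rx.mk (nat_lit 223) (nat_lit 7) (nat_lit 3) (nat_lit 3) (nat_lit 7) (nat_lit 63) (nat_lit 4) r0_63 r4_4 (nat_lit 0) (nat_lit 0) (nat_lit 0) (nat_lit 0x803b1537a) (nat_lit 1070132924),
  Rx.mk (nat_lit 318) (nat_lit 6) (nat_lit 7) (nat_lit 4) (nat_lit 3) (nat_lit 59) (nat_lit 5) r0_59 r4_5 (nat_lit 0) (nat_lit 0) (nat_lit 89886997) (nat_lit 0x7c8a3bb06) (nat_lit 1221401321),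
  Rx.mk (nat_lit 446) (nat_lit 6) (nat_lit 7) (nat_lit 6) (nat_lit 7) (nat_lit 60) (nat_lit 7) r0_60 r4_7 (nat_lit 0) (nat_lit 0) (nat_lit 0) (nat_lit 0x7fe2c17aa) (nat_lit 1075787224),
  Rx.mk (nat_lit 476) (nat_lit 4) (nat_lit 3) (nat_lit 7) (nat_lit 6) (nat_lit 57) (nat_lit 1) r0_57 r4_1 (nat_lit 2745228) (nat_lit 0) (nat_lit 0) (nat_lit 0x7f3da6c7a) (nat_lit 1089236952),
  Rx.mk (nat_lit 479) (nat_lit 7) (nat_lit 3) (nat_lit 7) (nat_lit 7) (nat_lit 64) (nat_lit 2) r0_64 r4_2 (nat_lit 0) (nat_lit 0) (nat_lit 0) (nat_lit 0x805002b84) (nat_lit 1068799624),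
  Rx.mk (nat_lit 508) (nat_lit 4) (nat_lit 7) (nat_lit 7) (nat_lit 6) (nat_lit 58) (nat_lit 0) r0_58 r4_0 (nat_lit 1489124) (nat_lit 0) (nat_lit 0) (nat_lit 0x6dffcb254) (nat_lit 1375427948),
  Rx.mk (nat_lit 510) (nat_lit 6) (nat_lit 7) (nat_lit 7) (nat_lit 7) (nat_lit 61) (nat_lit 6) r0_61 r4_6 (nat_lit 0) (nat_lit 0) (nat_lit 0) (nat_lit 0x7ff4a1d08) (nat_lit 1074622024)]
noncomputable def e37_52 : List Rx := [
  Rx.mk (nat_lit 195) (nat_lit 3) (nat_lit 0) (nat_lit 3) (nat_lit 5) (nat_lit 65) (nat_lit 4) r0_65 r5_4 (nat_lit 0) (nat_lit 956393) (nat_lit 0) (nat_lit 0x7c593b998) (nat_lit 1135682617),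
  Rx.mk (nat_lit 199) (nat_lit 7) (nat_lit 0) (nat_lit 3) (nat_lit 5) (nat_lit 68) (nat_lit 3) r0_68 r5_3 (nat_lit 0) (nat_lit 1158438) (nat_lit 0) (nat_lit 0x7fed5a61c) (nat_lit 1076256662),
  Rx.mk (nat_lit 211) (nat_lit 3) (nat_lit 2) (nat_lit 3) (nat_lit 7) (nat_lit 66) (nat_lit 5) r0_66 r5_5 (nat_lit 0) (nat_lit 0) (nat_lit 0) (nat_lit 0x804823e18) (nat_lit 1069300924),
  Rx.mk (nat_lit 455) (nat_lit 7) (nat_lit 0) (nat_lit 7) (nat_lit 5) (nat_lit 69) (nat_lit 1) r0_69 r5_1 (nat_lit 0) (nat_lit 766655) (nat_lit 0) (nat_lit 0x7495bc8de) (nat_lit 1264902279),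
  Rx.mk (nat_lit 476) (nat_lit 4) (nat_lit 3) (nat_lit 7) (nat_lit 6) (nat_lit 67) (nat_lit 0) r0_67 r5_0 (nat_lit 1192389) (nat_lit 0) (nat_lit 0) (nat_lit 0x7f2e926b2) (nat_lit 1088653513),
  Rx.mk (nat_lit 479) (nat_lit 7) (nat_lit 3) (nat_lit 7) (nat_lit 7) (nat_lit 70) (nat_lit 2) r0_70 r5_2 (nat_lit 0) (nat_lit 0) (nat_lit 0) (nat_lit 0x7fef31df0) (nat_lit 1074983524)]
noncomputable def e37_53 : List Rx := [
  Rx.mk (nat_lit 3) (nat_lit 3) (nat_lit 0) (nat_lit 0) (nat_lit 1) (nat_lit 142) (nat_lit 93) r0_142 r4_93 (nat_lit 0) (nat_lit 141544) (nat_lit 274678991) (nat_lit 0x64b4664b6) (nat_lit 1803687759),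
  Rx.mk (nat_lit 19) (nat_lit 3) (nat_lit 2) (nat_lit 0) (nat_lit 3) (nat_lit 143) (nat_lit 95) r0_143 r4_95 (nat_lit 0) (nat_lit 0) (nat_lit 78264559) (nat_lit 0x80209c4da) (nat_lit 1150066883),
  Rx.mk (nat_lit 147) (nat_lit 3) (nat_lit 2) (nat_lit 2) (nat_lit 7) (nat_lit 144) (nat_lit 97) r0_144 r4_97 (nat_lit 0) (nat_lit 0) (nat_lit 0) (nat_lit 0x8017d8204) (nat_lit 1072380824),
  Rx.mk (nat_lit 195) (nat_lit 3) (nat_lit 0) (nat_lit 3) (nat_lit 5) (nat_lit 145) (nat_lit 94) r0_145 r4_94 (nat_lit 0) (nat_lit 3066219) (nat_lit 0) (nat_lit 0x7fc1695a8) (nat_lit 1081005143),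
  Rx.mk (nat_lit 211) (nat_lit 3) (nat_lit 2) (nat_lit 3) (nat_lit 7) (nat_lit 146) (nat_lit 96) r0_146 r4_96 (nat_lit 0) (nat_lit 0) (nat_lit 0) (nat_lit 0x80388f0ce) (nat_lit 1070293424)]
noncomputable def e37_54 : List Rx := [
  Rx.mk (nat_lit 3) (nat_lit 3) (nat_lit 0) (nat_lit 0) (nat_lit 1) (nat_lit 147) (nat_lit 0) r0_147 r10_0 (nat_lit 0) (nat_lit 163852) (nat_lit 530643) (nat_lit 0x5f682fdf4) (nat_lit 1617894919),
  Rx.mk (nat_lit 19) (nat_lit 3) (nat_lit 2) (nat_lit 0) (nat_lit 3) (nat_lit 148) (nat_lit 1) r0_148 r10_1 (nat_lit 0) (nat_lit 0) (nat_lit 10021103) (nat_lit 0x7fa58a3fa) (nat_lit 1089765427),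
  Rx.mk (nat_lit 147) (nat_lit 3) (nat_lit 2) (nat_lit 2) (nat_lit 7) (nat_lit 149) (nat_lit 4) r0_149 r10_4 (nat_lit 0) (nat_lit 0) (nat_lit 0) (nat_lit 0x7ff4c343a) (nat_lit 1074628924),
  Rx.mk (nat_lit 195) (nat_lit 3) (nat_lit 0) (nat_lit 3) (nat_lit 5) (nat_lit 150) (nat_lit 2) r0_150 r10_2 (nat_lit 0) (nat_lit 4695397) (nat_lit 0) (nat_lit 0x71f87d494) (nat_lit 1312433921),
  Rx.mk (nat_lit 211) (nat_lit 3) (nat_lit 2) (nat_lit 3) (nat_lit 7) (nat_lit 151) (nat_lit 3) r0_151 r10_3 (nat_lit 0) (nat_lit 0) (nat_lit 0) (nat_lit 0x7ff9f480a) (nat_lit 1074296824)]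
noncomputable def e37_55 : List Rx := [
  Rx.mk (nat_lit 195) (nat_lit 3) (nat_lit 0) (nat_lit 3) (nat_lit 5) (nat_lit 152) (nat_lit 0) r0_152 r11_0 (nat_lit 0) (nat_lit 4245916) (nat_lit 0) (nat_lit 0x7feae8000) (nat_lit 1079510240),
  Rx.mk (nat_lit 211) (nat_lit 3) (nat_lit 2) (nat_lit 3) (nat_lit 7) (nat_lit 153) (nat_lit 1) r0_153 r11_1 (nat_lit 0) (nat_lit 0) (nat_lit 0) (nat_lit 0x800bb8a46) (nat_lit 1073157024)]
noncomputable def e37_56 : List Rx := [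
  Rx.mk (nat_lit 3) (nat_lit 3) (nat_lit 0) (nat_lit 0) (nat_lit 1) (nat_lit 204) (nat_lit 94) r0_204 r5_94 (nat_lit 0) (nat_lit 42213) (nat_lit 34408194) (nat_lit 0x8000d80ea) (nat_lit 1108162531),
  Rx.mk (nat_lit 7) (nat_lit 7) (nat_lit 0) (nat_lit 0) (nat_lit 1) (nat_lit 209) (nat_lit 95) r0_209 r5_95 (nat_lit 0) (nat_lit 1820) (nat_lit 2303) (nat_lit 0x7ff2f8664) (nat_lit 1074595147),
  Rx.mk (nat_lit 19) (nat_lit 3) (nat_lit 2) (nat_lit 0) (nat_lit 3) (nat_lit 205) (nat_lit 100) r0_205 r5_100 (nat_lit 0) (nat_lit 0) (nat_lit 275203489) (nat_lit 0x7ef968536) (nat_lit 1366143013),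
  Rx.mk (nat_lit 147) (nat_lit 3) (nat_lit 2) (nat_lit 2) (nat_lit 7) (nat_lit 206) (nat_lit 101) r0_206 r5_101 (nat_lit 0) (nat_lit 0) (nat_lit 0) (nat_lit 0x7fca9da02) (nat_lit 1077344524),
  Rx.mk (nat_lit 199) (nat_lit 7) (nat_lit 0) (nat_lit 3) (nat_lit 5) (nat_lit 210) (nat_lit 96) r0_210 r5_96 (nat_lit 0) (nat_lit 1204429) (nat_lit 0) (nat_lit 0x804cfd8c6) (nat_lit 1070187653),
  Rx.mk (nat_lit 220) (nat_lit 4) (nat_lit 3) (nat_lit 3) (nat_lit 6) (nat_lit 207) (nat_lit 97) r0_207 r5_97 (nat_lit 1787242) (nat_lit 0) (nat_lit 0) (nat_lit 0x66db20c6c) (nat_lit 1494829666),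
  Rx.mk (nat_lit 223) (nat_lit 7) (nat_lit 3) (nat_lit 3) (nat_lit 7) (nat_lit 211) (nat_lit 98) r0_211 r5_98 (nat_lit 0) (nat_lit 0) (nat_lit 0) (nat_lit 0x800cf614c) (nat_lit 1073076224),
  Rx.mk (nat_lit 476) (nat_lit 4) (nat_lit 3) (nat_lit 7) (nat_lit 6) (nat_lit 208) (nat_lit 99) r0_208 r5_99 (nat_lit 2561812) (nat_lit 0) (nat_lit 0) (nat_lit 0x7ef938278) (nat_lit 1093505936)]
noncomputable def e37_57 : List Rx := [
  Rx.mk (nat_lit 3) (nat_lit 3) (nat_lit 0) (nat_lit 0) (nat_lit 1) (nat_lit 212) (nat_lit 91) r0_212 r11_91 (nat_lit 0) (nat_lit 4290635) (nat_lit 177359743) (nat_lit 0x71206e3fa) (nat_lit 1503455502),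
  Rx.mk (nat_lit 7) (nat_lit 7) (nat_lit 0) (nat_lit 0) (nat_lit 1) (nat_lit 219) (nat_lit 92) r0_219 r11_92 (nat_lit 0) (nat_lit 1327087) (nat_lit 1515078) (nat_lit 0x70dac8bde) (nat_lit 1329174389),
  Rx.mk (nat_lit 19) (nat_lit 3) (nat_lit 2) (nat_lit 0) (nat_lit 3) (nat_lit 213) (nat_lit 97) r0_213 r11_97 (nat_lit 0) (nat_lit 0) (nat_lit 55284396) (nat_lit 0x7f832bb06) (nat_lit 1137266720),
  Rx.mk (nat_lit 147) (nat_lit 3) (nat_lit 2) (nat_lit 2) (nat_lit 7) (nat_lit 214) (nat_lit 98) r0_214 r11_98 (nat_lit 0) (nat_lit 0) (nat_lit 0) (nat_lit 0x805932ed4) (nat_lit 1068212724),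
  Rx.mk (nat_lit 199) (nat_lit 7) (nat_lit 0) (nat_lit 3) (nat_lit 5) (nat_lit 220) (nat_lit 93) r0_220 r11_93 (nat_lit 0) (nat_lit 2711268) (nat_lit 0) (nat_lit 0x8030259d8) (nat_lit 1073539392),
  Rx.mk (nat_lit 220) (nat_lit 4) (nat_lit 3) (nat_lit 3) (nat_lit 6) (nat_lit 215) (nat_lit 94) r0_215 r11_94 (nat_lit 2667019) (nat_lit 0) (nat_lit 0) (nat_lit 0x7fbf39062) (nat_lit 1080746543),
  Rx.mk (nat_lit 223) (nat_lit 7) (nat_lit 3) (nat_lit 3) (nat_lit 7) (nat_lit 221) (nat_lit 95) r0_221 r11_95 (nat_lit 0) (nat_lit 0) (nat_lit 0) (nat_lit 0x8024ca5ca) (nat_lit 1071555724),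
  Rx.mk (nat_lit 476) (nat_lit 4) (nat_lit 3) (nat_lit 7) (nat_lit 6) (nat_lit 216) (nat_lit 96) r0_216 r11_96 (nat_lit 2261537) (nat_lit 0) (nat_lit 0) (nat_lit 0x802c51546) (nat_lit 1073330661),
  Rx.mk (nat_lit 508) (nat_lit 4) (nat_lit 7) (nat_lit 7) (nat_lit 6) (nat_lit 217) (nat_lit 99) r0_217 r11_99 (nat_lit 2191612) (nat_lit 0) (nat_lit 0) (nat_lit 0x7ea5f8ebe) (nat_lit 1098552836),
  Rx.mk (nat_lit 510) (nat_lit 6) (nat_lit 7) (nat_lit 7) (nat_lit 7) (nat_lit 218) (nat_lit 100) r0_218 r11_100 (nat_lit 0) (nat_lit 0) (nat_lit 0) (nat_lit 0x80fd022a8) (nat_lit 1057853824)]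
noncomputable def e37 : List (List Rx) := [e37_0, e37_1, e37_2, e37_3, e37_4, e37_5, e37_6, e37_7, e37_8, e37_9, e37_10, e37_11, e37_12, e37_13, e37_14, e37_15, e37_16, e37_17, e37_18, e37_19, e37_20, e37_21, e37_22, e37_23, e37_24, e37_25, e37_26, e37_27, e37_28, e37_29, e37_30, e37_31, e37_32, e37_33, e37_34, e37_35, e37_36, e37_37, e37_38, e37_39, e37_40, e37_41, e37_42, e37_43, e37_44, e37_45, e37_46, e37_47, e37_48, e37_49, e37_50, e37_51, e37_52, e37_53, e37_54, e37_55, e37_56, e37_57]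
noncomputable def e38_0 : List Rx := [
  Rx.mk (nat_lit 5) (nat_lit 5) (nat_lit 0) (nat_lit 0) (nat_lit 1) (nat_lit 171) (nat_lit 248) r0_171 r0_248 (nat_lit 0) (nat_lit 969839457) (nat_lit 318) (nat_lit 0x8000510a4) (nat_lit 2043561699),
  Rx.mk (nat_lit 69) (nat_lit 5) (nat_lit 0) (nat_lit 1) (nat_lit 5) (nat_lit 172) (nat_lit 249) r0_172 r0_249 (nat_lit 0) (nat_lit 508562239) (nat_lit 0) (nat_lit 0x7ed0e1874) (nat_lit 1602132963)]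
noncomputable def e38_1 : List Rx := [
  Rx.mk (nat_lit 69) (nat_lit 5) (nat_lit 0) (nat_lit 1) (nat_lit 5) (nat_lit 173) (nat_lit 255) r0_173 r1_255 (nat_lit 0) (nat_lit 200288767) (nat_lit 0) (nat_lit 0x7fddd6150) (nat_lit 1276386391)]
noncomputable def e38_2 : List Rx := [
  Rx.mk (nat_lit 69) (nat_lit 5) (nat_lit 0) (nat_lit 1) (nat_lit 5) (nat_lit 286) (nat_lit 280) r0_286 r2_280 (nat_lit 0) (nat_lit 7374549) (nat_lit 0) (nat_lit 0x7eb2c9990) (nat_lit 1102910273),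
  Rx.mk (nat_lit 77) (nat_lit 5) (nat_lit 1) (nat_lit 1) (nat_lit 7) (nat_lit 288) (nat_lit 282) r0_288 r2_282 (nat_lit 0) (nat_lit 0) (nat_lit 0) (nat_lit 0x80029938e) (nat_lit 1073741824),
  Rx.mk (nat_lit 325) (nat_lit 5) (nat_lit 0) (nat_lit 5) (nat_lit 5) (nat_lit 285) (nat_lit 281) r0_285 r2_281 (nat_lit 0) (nat_lit 28102838) (nat_lit 0) (nat_lit 0x7a7179430) (nat_lit 1194573262),
  Rx.mk (nat_lit 333) (nat_lit 5) (nat_lit 1) (nat_lit 5) (nat_lit 7) (nat_lit 287) (nat_lit 283) r0_287 r2_283 (nat_lit 0) (nat_lit 0) (nat_lit 0) (nat_lit 0x80029938e) (nat_lit 1073741824)]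
noncomputable def e38_3 : List Rx := [
  Rx.mk (nat_lit 197) (nat_lit 5) (nat_lit 0) (nat_lit 3) (nat_lit 5) (nat_lit 71) (nat_lit 249) r0_71 r3_249 (nat_lit 0) (nat_lit 121) (nat_lit 0) (nat_lit 0x80002aa9e) (nat_lit 1073731445)]
noncomputable def e38_4 : List Rx := [
  Rx.mk (nat_lit 5) (nat_lit 5) (nat_lit 0) (nat_lit 0) (nat_lit 1) (nat_lit 174) (nat_lit 262) r0_174 r4_262 (nat_lit 0) (nat_lit 365390624) (nat_lit 507461) (nat_lit 0x677f48254) (nat_lit 1848225809),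
  Rx.mk (nat_lit 69) (nat_lit 5) (nat_lit 0) (nat_lit 1) (nat_lit 5) (nat_lit 175) (nat_lit 263) r0_175 r4_263 (nat_lit 0) (nat_lit 172210768) (nat_lit 0) (nat_lit 0x7e52e1528) (nat_lit 1273987192),
  Rx.mk (nat_lit 197) (nat_lit 5) (nat_lit 0) (nat_lit 3) (nat_lit 5) (nat_lit 176) (nat_lit 264) r0_176 r4_264 (nat_lit 0) (nat_lit 481648953) (nat_lit 0) (nat_lit 0x72b5b6132) (nat_lit 1777028277)]
noncomputable def e38_5 : List Rx := [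
  Rx.mk (nat_lit 197) (nat_lit 5) (nat_lit 0) (nat_lit 3) (nat_lit 5) (nat_lit 224) (nat_lit 255) r0_224 r5_255 (nat_lit 0) (nat_lit 135738919) (nat_lit 0) (nat_lit 0x80001a586) (nat_lit 1209474643)]
noncomputable def e38_6 : List Rx := [
  Rx.mk (nat_lit 261) (nat_lit 5) (nat_lit 0) (nat_lit 4) (nat_lit 1) (nat_lit 300) (nat_lit 243) r0_300 r3_243 (nat_lit 0) (nat_lit 191) (nat_lit 81) (nat_lit 0x800015324) (nat_lit 1073736896),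
  Rx.mk (nat_lit 268) (nat_lit 4) (nat_lit 1) (nat_lit 4) (nat_lit 2) (nat_lit 302) (nat_lit 245) r0_302 r3_245 (nat_lit 337) (nat_lit 0) (nat_lit 671) (nat_lit 0x72b6e4a90) (nat_lit 1295253432),
  Rx.mk (nat_lit 269) (nat_lit 5) (nat_lit 1) (nat_lit 4) (nat_lit 3) (nat_lit 303) (nat_lit 247) r0_303 r3_247 (nat_lit 0) (nat_lit 0) (nat_lit 424055) (nat_lit 0x7bb0370ea) (nat_lit 1146087279),
  Rx.mk (nat_lit 453) (nat_lit 5) (nat_lit 0) (nat_lit 7) (nat_lit 5) (nat_lit 301) (nat_lit 244) r0_301 r3_244 (nat_lit 0) (nat_lit 52414) (nat_lit 0) (nat_lit 0x7cb6d8c18) (nat_lit 1128580838),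
  Rx.mk (nat_lit 460) (nat_lit 4) (nat_lit 1) (nat_lit 7) (nat_lit 6) (nat_lit 304) (nat_lit 246) r0_304 r3_246 (nat_lit 405858) (nat_lit 0) (nat_lit 0) (nat_lit 0x78a0747a0) (nat_lit 1197135682),
  Rx.mk (nat_lit 461) (nat_lit 5) (nat_lit 1) (nat_lit 7) (nat_lit 7) (nat_lit 305) (nat_lit 248) r0_305 r3_248 (nat_lit 0) (nat_lit 0) (nat_lit 0) (nat_lit 0x883ab4d38) (nat_lit 940740624)]
noncomputable def e38_7 : List Rx := [
  Rx.mk (nat_lit 268) (nat_lit 4) (nat_lit 1) (nat_lit 4) (nat_lit 2) (nat_lit 244) (nat_lit 244) r0_244 r0_244 (nat_lit 52004105) (nat_lit 0) (nat_lit 52004105) (nat_lit 0x672fac010) (nat_lit 1591547034),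
  Rx.mk (nat_lit 269) (nat_lit 5) (nat_lit 1) (nat_lit 4) (nat_lit 3) (nat_lit 245) (nat_lit 246) r0_245 r0_246 (nat_lit 0) (nat_lit 0) (nat_lit 3572987) (nat_lit 0x786934ede) (nat_lit 1203930011),
  Rx.mk (nat_lit 325) (nat_lit 5) (nat_lit 0) (nat_lit 5) (nat_lit 5) (nat_lit 243) (nat_lit 243) r0_243 r0_243 (nat_lit 0) (nat_lit 736921767) (nat_lit 0) (nat_lit 0x81ec2d8dc) (nat_lit 1779574791),
  Rx.mk (nat_lit 332) (nat_lit 4) (nat_lit 1) (nat_lit 5) (nat_lit 6) (nat_lit 246) (nat_lit 245) r0_246 r0_245 (nat_lit 3572987) (nat_lit 0) (nat_lit 0) (nat_lit 0x786934ede) (nat_lit 1203930011),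
  Rx.mk (nat_lit 333) (nat_lit 5) (nat_lit 1) (nat_lit 5) (nat_lit 7) (nat_lit 247) (nat_lit 247) r0_247 r0_247 (nat_lit 0) (nat_lit 0) (nat_lit 0) (nat_lit 0x7fbc5bdb8) (nat_lit 1078269524)]
noncomputable def e38_8 : List Rx := [
  Rx.mk (nat_lit 325) (nat_lit 5) (nat_lit 0) (nat_lit 5) (nat_lit 5) (nat_lit 282) (nat_lit 252) r0_282 r1_252 (nat_lit 0) (nat_lit 821343463) (nat_lit 0) (nat_lit 0x7fffe9b52) (nat_lit 1895092387),
  Rx.mk (nat_lit 332) (nat_lit 4) (nat_lit 1) (nat_lit 5) (nat_lit 6) (nat_lit 283) (nat_lit 253) r0_283 r1_253 (nat_lit 4606623) (nat_lit 0) (nat_lit 0) (nat_lit 0x7ce19384a) (nat_lit 1130436347),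
  Rx.mk (nat_lit 333) (nat_lit 5) (nat_lit 1) (nat_lit 5) (nat_lit 7) (nat_lit 284) (nat_lit 254) r0_284 r1_254 (nat_lit 0) (nat_lit 0) (nat_lit 0) (nat_lit 0x7fab68344) (nat_lit 1079366724)]
noncomputable def e38_9 : List Rx := [
  Rx.mk (nat_lit 261) (nat_lit 5) (nat_lit 0) (nat_lit 4) (nat_lit 1) (nat_lit 306) (nat_lit 253) r0_306 r4_253 (nat_lit 0) (nat_lit 109994147) (nat_lit 2254859) (nat_lit 0x721a33c50) (nat_lit 1417787930),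
  Rx.mk (nat_lit 268) (nat_lit 4) (nat_lit 1) (nat_lit 4) (nat_lit 2) (nat_lit 309) (nat_lit 256) r0_309 r4_256 (nat_lit 8118484) (nat_lit 0) (nat_lit 89716582) (nat_lit 0x6a154d77a) (nat_lit 1537072690),
  Rx.mk (nat_lit 269) (nat_lit 5) (nat_lit 1) (nat_lit 4) (nat_lit 3) (nat_lit 310) (nat_lit 259) r0_310 r4_259 (nat_lit 0) (nat_lit 0) (nat_lit 5728860) (nat_lit 0x7fd6649a8) (nat_lit 1082310884),
  Rx.mk (nat_lit 325) (nat_lit 5) (nat_lit 0) (nat_lit 5) (nat_lit 5) (nat_lit 307) (nat_lit 254) r0_307 r4_254 (nat_lit 0) (nat_lit 456084292) (nat_lit 0) (nat_lit 0x7d9d80ab2) (nat_lit 1569623716),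
  Rx.mk (nat_lit 332) (nat_lit 4) (nat_lit 1) (nat_lit 5) (nat_lit 6) (nat_lit 311) (nat_lit 257) r0_311 r4_257 (nat_lit 6336730) (nat_lit 0) (nat_lit 0) (nat_lit 0x7fe202792) (nat_lit 1082176554),
  Rx.mk (nat_lit 333) (nat_lit 5) (nat_lit 1) (nat_lit 5) (nat_lit 7) (nat_lit 312) (nat_lit 260) r0_312 r4_260 (nat_lit 0) (nat_lit 0) (nat_lit 0) (nat_lit 0x8029d9714) (nat_lit 1071230724),
  Rx.mk (nat_lit 453) (nat_lit 5) (nat_lit 0) (nat_lit 7) (nat_lit 5) (nat_lit 308) (nat_lit 255) r0_308 r4_255 (nat_lit 0) (nat_lit 7949593) (nat_lit 0) (nat_lit 0x7febedd10) (nat_lit 1083145917),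
  Rx.mk (nat_lit 460) (nat_lit 4) (nat_lit 1) (nat_lit 7) (nat_lit 6) (nat_lit 313) (nat_lit 258) r0_313 r4_258 (nat_lit 3644892) (nat_lit 0) (nat_lit 0) (nat_lit 0x7fe25d200) (nat_lit 1079457116),
  Rx.mk (nat_lit 461) (nat_lit 5) (nat_lit 1) (nat_lit 7) (nat_lit 7) (nat_lit 314) (nat_lit 261) r0_314 r4_261 (nat_lit 0) (nat_lit 0) (nat_lit 0) (nat_lit 0x800cb83c4) (nat_lit 1073092924)]
noncomputable def e38_10 : List Rx := [
  Rx.mk (nat_lit 197) (nat_lit 5) (nat_lit 0) (nat_lit 3) (nat_lit 5) (nat_lit 223) (nat_lit 278) r0_223 r6_278 (nat_lit 0) (nat_lit 8409716) (nat_lit 0) (nat_lit 0x803d3fe16) (nat_lit 1078386140),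
  Rx.mk (nat_lit 453) (nat_lit 5) (nat_lit 0) (nat_lit 7) (nat_lit 5) (nat_lit 222) (nat_lit 279) r0_222 r6_279 (nat_lit 0) (nat_lit 4479) (nat_lit 0) (nat_lit 0x93ccfa606) (nat_lit 753553703)]
noncomputable def e38_11 : List Rx := [
  Rx.mk (nat_lit 453) (nat_lit 5) (nat_lit 0) (nat_lit 7) (nat_lit 5) (nat_lit 315) (nat_lit 252) r0_315 r5_252 (nat_lit 0) (nat_lit 2146046) (nat_lit 0) (nat_lit 0x8082930f8) (nat_lit 1067722470),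
  Rx.mk (nat_lit 460) (nat_lit 4) (nat_lit 1) (nat_lit 7) (nat_lit 6) (nat_lit 316) (nat_lit 253) r0_316 r5_253 (nat_lit 1462114) (nat_lit 0) (nat_lit 0) (nat_lit 0x7fa136d4e) (nat_lit 1081485238),
  Rx.mk (nat_lit 461) (nat_lit 5) (nat_lit 1) (nat_lit 7) (nat_lit 7) (nat_lit 317) (nat_lit 254) r0_317 r5_254 (nat_lit 0) (nat_lit 0) (nat_lit 0) (nat_lit 0x871639162) (nat_lit 959223424)]
noncomputable def e38_12 : List Rx := [
  Rx.mk (nat_lit 17) (nat_lit 1) (nat_lit 2) (nat_lit 0) (nat_lit 3) (nat_lit 73) (nat_lit 72) r0_73 r0_72 (nat_lit 0) (nat_lit 0) (nat_lit 2574804) (nat_lit 0x7c7441fb2) (nat_lit 1135516628),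
  Rx.mk (nat_lit 193) (nat_lit 1) (nat_lit 0) (nat_lit 3) (nat_lit 5) (nat_lit 72) (nat_lit 73) r0_72 r0_73 (nat_lit 0) (nat_lit 2574804) (nat_lit 0) (nat_lit 0x7c7441fb2) (nat_lit 1135516628),
  Rx.mk (nat_lit 209) (nat_lit 1) (nat_lit 2) (nat_lit 3) (nat_lit 7) (nat_lit 74) (nat_lit 74) r0_74 r0_74 (nat_lit 0) (nat_lit 0) (nat_lit 0) (nat_lit 0x8001d5326) (nat_lit 1073781524)]
noncomputable def e38_13 : List Rx := [
  Rx.mk (nat_lit 1) (nat_lit 1) (nat_lit 0) (nat_lit 0) (nat_lit 1) (nat_lit 178) (nat_lit 319) r0_178 r7_319 (nat_lit 0) (nat_lit 944100) (nat_lit 327140) (nat_lit 0x5bb8077f4) (nat_lit 1679970364),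
  Rx.mk (nat_lit 5) (nat_lit 5) (nat_lit 0) (nat_lit 0) (nat_lit 1) (nat_lit 177) (nat_lit 325) r0_177 r7_325 (nat_lit 0) (nat_lit 1073466) (nat_lit 216055) (nat_lit 0x52f01064a) (nat_lit 1826388745),
  Rx.mk (nat_lit 17) (nat_lit 1) (nat_lit 2) (nat_lit 0) (nat_lit 3) (nat_lit 182) (nat_lit 322) r0_182 r7_322 (nat_lit 0) (nat_lit 0) (nat_lit 1461987) (nat_lit 0x7ffe1df6c) (nat_lit 1075483511),
  Rx.mk (nat_lit 65) (nat_lit 1) (nat_lit 0) (nat_lit 1) (nat_lit 5) (nat_lit 180) (nat_lit 320) r0_180 r7_320 (nat_lit 0) (nat_lit 5137059) (nat_lit 0) (nat_lit 0x7a3a629c4) (nat_lit 1175198083),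
  Rx.mk (nat_lit 69) (nat_lit 5) (nat_lit 0) (nat_lit 1) (nat_lit 5) (nat_lit 179) (nat_lit 326) r0_179 r7_326 (nat_lit 0) (nat_lit 1922278) (nat_lit 0) (nat_lit 0x6264701d4) (nat_lit 1569386202),
  Rx.mk (nat_lit 81) (nat_lit 1) (nat_lit 2) (nat_lit 1) (nat_lit 7) (nat_lit 183) (nat_lit 323) r0_183 r7_323 (nat_lit 0) (nat_lit 0) (nat_lit 0) (nat_lit 0x802680a22) (nat_lit 1071441624),
  Rx.mk (nat_lit 193) (nat_lit 1) (nat_lit 0) (nat_lit 3) (nat_lit 5) (nat_lit 181) (nat_lit 321) r0_181 r7_321 (nat_lit 0) (nat_lit 171422861) (nat_lit 0) (nat_lit 0x80556c2a0) (nat_lit 1239814685),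
  Rx.mk (nat_lit 209) (nat_lit 1) (nat_lit 2) (nat_lit 3) (nat_lit 7) (nat_lit 184) (nat_lit 324) r0_184 r7_324 (nat_lit 0) (nat_lit 0) (nat_lit 0) (nat_lit 0x806ab61b0) (nat_lit 1067109724)]
noncomputable def e38_14 : List Rx := [
  Rx.mk (nat_lit 17) (nat_lit 1) (nat_lit 2) (nat_lit 0) (nat_lit 3) (nat_lit 76) (nat_lit 69) r0_76 r1_69 (nat_lit 0) (nat_lit 0) (nat_lit 3524879) (nat_lit 0x7f208be6a) (nat_lit 1091914603),
  Rx.mk (nat_lit 145) (nat_lit 1) (nat_lit 2) (nat_lit 2) (nat_lit 7) (nat_lit 77) (nat_lit 72) r0_77 r1_72 (nat_lit 0) (nat_lit 0) (nat_lit 0) (nat_lit 0x800fe7112) (nat_lit 1072885924),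
  Rx.mk (nat_lit 193) (nat_lit 1) (nat_lit 0) (nat_lit 3) (nat_lit 5) (nat_lit 75) (nat_lit 70) r0_75 r1_70 (nat_lit 0) (nat_lit 2468639) (nat_lit 0) (nat_lit 0x80090eed0) (nat_lit 1075791763),
  Rx.mk (nat_lit 209) (nat_lit 1) (nat_lit 2) (nat_lit 3) (nat_lit 7) (nat_lit 78) (nat_lit 71) r0_78 r1_71 (nat_lit 0) (nat_lit 0) (nat_lit 0) (nat_lit 0x81c0ba54c) (nat_lit 1045481724)]
noncomputable def e38_15 : List Rx := [
  Rx.mk (nat_lit 1) (nat_lit 1) (nat_lit 0) (nat_lit 0) (nat_lit 1) (nat_lit 188) (nat_lit 241) r0_188 r8_241 (nat_lit 0) (nat_lit 36183064) (nat_lit 3077458) (nat_lit 0x574fcceae) (nat_lit 1791474846),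
  Rx.mk (nat_lit 17) (nat_lit 1) (nat_lit 2) (nat_lit 0) (nat_lit 3) (nat_lit 191) (nat_lit 244) r0_191 r8_244 (nat_lit 0) (nat_lit 0) (nat_lit 2945103) (nat_lit 0x79da08f6a) (nat_lit 1179289527),
  Rx.mk (nat_lit 65) (nat_lit 1) (nat_lit 0) (nat_lit 1) (nat_lit 5) (nat_lit 189) (nat_lit 242) r0_189 r8_242 (nat_lit 0) (nat_lit 7351485) (nat_lit 0) (nat_lit 0x7a4837e50) (nat_lit 1176515009),
  Rx.mk (nat_lit 81) (nat_lit 1) (nat_lit 2) (nat_lit 1) (nat_lit 7) (nat_lit 192) (nat_lit 245) r0_192 r8_245 (nat_lit 0) (nat_lit 0) (nat_lit 0) (nat_lit 0x7fff97802) (nat_lit 1073934624),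
  Rx.mk (nat_lit 145) (nat_lit 1) (nat_lit 2) (nat_lit 2) (nat_lit 7) (nat_lit 193) (nat_lit 247) r0_193 r8_247 (nat_lit 0) (nat_lit 0) (nat_lit 0) (nat_lit 0x80029938e) (nat_lit 1073741824),
  Rx.mk (nat_lit 193) (nat_lit 1) (nat_lit 0) (nat_lit 3) (nat_lit 5) (nat_lit 190) (nat_lit 243) r0_190 r8_243 (nat_lit 0) (nat_lit 188397076) (nat_lit 0) (nat_lit 0x7fb4f6636) (nat_lit 1267133600),
  Rx.mk (nat_lit 209) (nat_lit 1) (nat_lit 2) (nat_lit 3) (nat_lit 7) (nat_lit 194) (nat_lit 246) r0_194 r8_246 (nat_lit 0) (nat_lit 0) (nat_lit 0) (nat_lit 0x80029938e) (nat_lit 1073741824)]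
noncomputable def e38_16 : List Rx := [
  Rx.mk (nat_lit 65) (nat_lit 1) (nat_lit 0) (nat_lit 1) (nat_lit 5) (nat_lit 186) (nat_lit 64) r0_186 r8_64 (nat_lit 0) (nat_lit 4721594) (nat_lit 0) (nat_lit 0x7cb5a7826) (nat_lit 1133415918),
  Rx.mk (nat_lit 69) (nat_lit 5) (nat_lit 0) (nat_lit 1) (nat_lit 5) (nat_lit 185) (nat_lit 63) r0_185 r8_63 (nat_lit 0) (nat_lit 3657848) (nat_lit 0) (nat_lit 0x7a789dc8e) (nat_lit 1169663972),
  Rx.mk (nat_lit 81) (nat_lit 1) (nat_lit 2) (nat_lit 1) (nat_lit 7) (nat_lit 187) (nat_lit 65) r0_187 r8_65 (nat_lit 0) (nat_lit 0) (nat_lit 0) (nat_lit 0x801bc7158) (nat_lit 1072128324)]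
noncomputable def e38_17 : List Rx := [
  Rx.mk (nat_lit 65) (nat_lit 1) (nat_lit 0) (nat_lit 1) (nat_lit 5) (nat_lit 295) (nat_lit 250) r0_295 r9_250 (nat_lit 0) (nat_lit 5449534) (nat_lit 0) (nat_lit 0x7dc0ef480) (nat_lit 1116739658),
  Rx.mk (nat_lit 69) (nat_lit 5) (nat_lit 0) (nat_lit 1) (nat_lit 5) (nat_lit 294) (nat_lit 253) r0_294 r9_253 (nat_lit 0) (nat_lit 7145094) (nat_lit 0) (nat_lit 0x79e85e2cc) (nat_lit 1182555618),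
  Rx.mk (nat_lit 73) (nat_lit 1) (nat_lit 1) (nat_lit 1) (nat_lit 7) (nat_lit 298) (nat_lit 251) r0_298 r9_251 (nat_lit 0) (nat_lit 0) (nat_lit 0) (nat_lit 0x80029938e) (nat_lit 1073741824),
  Rx.mk (nat_lit 77) (nat_lit 5) (nat_lit 1) (nat_lit 1) (nat_lit 7) (nat_lit 297) (nat_lit 255) r0_297 r9_255 (nat_lit 0) (nat_lit 0) (nat_lit 0) (nat_lit 0x80029938e) (nat_lit 1073741824),
  Rx.mk (nat_lit 81) (nat_lit 1) (nat_lit 2) (nat_lit 1) (nat_lit 7) (nat_lit 299) (nat_lit 252) r0_299 r9_252 (nat_lit 0) (nat_lit 0) (nat_lit 0) (nat_lit 0x80029938e) (nat_lit 1073741824),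
  Rx.mk (nat_lit 325) (nat_lit 5) (nat_lit 0) (nat_lit 5) (nat_lit 5) (nat_lit 293) (nat_lit 254) r0_293 r9_254 (nat_lit 0) (nat_lit 5745639) (nat_lit 0) (nat_lit 0x7713c5d0a) (nat_lit 1228342563),
  Rx.mk (nat_lit 333) (nat_lit 5) (nat_lit 1) (nat_lit 5) (nat_lit 7) (nat_lit 296) (nat_lit 256) r0_296 r9_256 (nat_lit 0) (nat_lit 0) (nat_lit 0) (nat_lit 0x80029938e) (nat_lit 1073741824)]
noncomputable def e38_18 : List Rx := [
  Rx.mk (nat_lit 193) (nat_lit 1) (nat_lit 0) (nat_lit 3) (nat_lit 5) (nat_lit 80) (nat_lit 69) r0_80 r4_69 (nat_lit 0) (nat_lit 2927812) (nat_lit 0) (nat_lit 0x7f9b05e02) (nat_lit 1083361236),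
  Rx.mk (nat_lit 197) (nat_lit 5) (nat_lit 0) (nat_lit 3) (nat_lit 5) (nat_lit 79) (nat_lit 68) r0_79 r4_68 (nat_lit 0) (nat_lit 1845209) (nat_lit 0) (nat_lit 0x6d5c42330) (nat_lit 1386432233),
  Rx.mk (nat_lit 209) (nat_lit 1) (nat_lit 2) (nat_lit 3) (nat_lit 7) (nat_lit 81) (nat_lit 70) r0_81 r4_70 (nat_lit 0) (nat_lit 0) (nat_lit 0) (nat_lit 0x7fdf910da) (nat_lit 1075963024)]
noncomputable def e38_19 : List Rx := [
  Rx.mk (nat_lit 5) (nat_lit 5) (nat_lit 0) (nat_lit 0) (nat_lit 1) (nat_lit 195) (nat_lit 281) r0_195 r10_281 (nat_lit 0) (nat_lit 577871) (nat_lit 206251) (nat_lit 0x5b26d5dda) (nat_lit 1688936846),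
  Rx.mk (nat_lit 69) (nat_lit 5) (nat_lit 0) (nat_lit 1) (nat_lit 5) (nat_lit 196) (nat_lit 282) r0_196 r10_282 (nat_lit 0) (nat_lit 2475431) (nat_lit 0) (nat_lit 0x70fe46778) (nat_lit 1326502855),
  Rx.mk (nat_lit 193) (nat_lit 1) (nat_lit 0) (nat_lit 3) (nat_lit 5) (nat_lit 198) (nat_lit 279) r0_198 r10_279 (nat_lit 0) (nat_lit 172576021) (nat_lit 0) (nat_lit 0x80845ae72) (nat_lit 1238006145),
  Rx.mk (nat_lit 197) (nat_lit 5) (nat_lit 0) (nat_lit 3) (nat_lit 5) (nat_lit 197) (nat_lit 283) r0_197 r10_283 (nat_lit 0) (nat_lit 336738388) (nat_lit 0) (nat_lit 0x7f9d350f6) (nat_lit 1417053112),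
  Rx.mk (nat_lit 209) (nat_lit 1) (nat_lit 2) (nat_lit 3) (nat_lit 7) (nat_lit 199) (nat_lit 280) r0_199 r10_280 (nat_lit 0) (nat_lit 0) (nat_lit 0) (nat_lit 0x803360350) (nat_lit 1070623924)]
noncomputable def e38_20 : List Rx := [
  Rx.mk (nat_lit 193) (nat_lit 1) (nat_lit 0) (nat_lit 3) (nat_lit 5) (nat_lit 226) (nat_lit 300) r0_226 r11_300 (nat_lit 0) (nat_lit 3044938) (nat_lit 0) (nat_lit 0x80a25caec) (nat_lit 1066625862),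
  Rx.mk (nat_lit 197) (nat_lit 5) (nat_lit 0) (nat_lit 3) (nat_lit 5) (nat_lit 225) (nat_lit 302) r0_225 r11_302 (nat_lit 0) (nat_lit 2075395) (nat_lit 0) (nat_lit 0x7fa625f44) (nat_lit 1081791519),
  Rx.mk (nat_lit 209) (nat_lit 1) (nat_lit 2) (nat_lit 3) (nat_lit 7) (nat_lit 227) (nat_lit 301) r0_227 r11_301 (nat_lit 0) (nat_lit 0) (nat_lit 0) (nat_lit 0x811726e18) (nat_lit 1056188224)]
noncomputable def e38_21 : List Rx := [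
  Rx.mk (nat_lit 77) (nat_lit 5) (nat_lit 1) (nat_lit 1) (nat_lit 7) (nat_lit 292) (nat_lit 249) r0_292 r9_249 (nat_lit 0) (nat_lit 0) (nat_lit 0) (nat_lit 0x7ffd3fcc6) (nat_lit 1074084924),
  Rx.mk (nat_lit 333) (nat_lit 5) (nat_lit 1) (nat_lit 5) (nat_lit 7) (nat_lit 291) (nat_lit 248) r0_291 r9_248 (nat_lit 0) (nat_lit 0) (nat_lit 0) (nat_lit 0x7ff85ef5e) (nat_lit 1074398324)]
noncomputable def e38_22 : List Rx := [
  Rx.mk (nat_lit 268) (nat_lit 4) (nat_lit 1) (nat_lit 4) (nat_lit 2) (nat_lit 248) (nat_lit 171) r0_248 r0_171 (nat_lit 318) (nat_lit 0) (nat_lit 969839457) (nat_lit 0x8000510a4) (nat_lit 2043561699),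
  Rx.mk (nat_lit 269) (nat_lit 5) (nat_lit 1) (nat_lit 4) (nat_lit 3) (nat_lit 249) (nat_lit 172) r0_249 r0_172 (nat_lit 0) (nat_lit 0) (nat_lit 508562239) (nat_lit 0x7ed0e1874) (nat_lit 1602132963)]
noncomputable def e38_23 : List Rx := [
  Rx.mk (nat_lit 268) (nat_lit 4) (nat_lit 1) (nat_lit 4) (nat_lit 2) (nat_lit 269) (nat_lit 179) r0_269 r1_179 (nat_lit 4696) (nat_lit 0) (nat_lit 1076204905) (nat_lit 0x8008e3776) (nat_lit 2149391825),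
  Rx.mk (nat_lit 269) (nat_lit 5) (nat_lit 1) (nat_lit 4) (nat_lit 3) (nat_lit 270) (nat_lit 181) r0_270 r1_181 (nat_lit 0) (nat_lit 0) (nat_lit 15364900) (nat_lit 0x80028c260) (nat_lit 1089102224),
  Rx.mk (nat_lit 300) (nat_lit 4) (nat_lit 5) (nat_lit 4) (nat_lit 2) (nat_lit 265) (nat_lit 180) r0_265 r1_180 (nat_lit 2783255) (nat_lit 0) (nat_lit 103080834) (nat_lit 0x61b174d32) (nat_lit 1684989113),
  Rx.mk (nat_lit 301) (nat_lit 5) (nat_lit 5) (nat_lit 4) (nat_lit 3) (nat_lit 266) (nat_lit 182) r0_266 r1_182 (nat_lit 0) (nat_lit 0) (nat_lit 7068022) (nat_lit 0x7fea1f7b8) (nat_lit 1082378546),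
  Rx.mk (nat_lit 302) (nat_lit 6) (nat_lit 5) (nat_lit 4) (nat_lit 3) (nat_lit 267) (nat_lit 183) r0_267 r1_183 (nat_lit 0) (nat_lit 0) (nat_lit 271237446) (nat_lit 0x89006c440) (nat_lit 1199488170),
  Rx.mk (nat_lit 430) (nat_lit 6) (nat_lit 5) (nat_lit 6) (nat_lit 7) (nat_lit 268) (nat_lit 184) r0_268 r1_184 (nat_lit 0) (nat_lit 0) (nat_lit 0) (nat_lit 0x802fc2cf2) (nat_lit 1070852724)]
noncomputable def e38_24 : List Rx := [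
  Rx.mk (nat_lit 268) (nat_lit 4) (nat_lit 1) (nat_lit 4) (nat_lit 2) (nat_lit 318) (nat_lit 155) r0_318 r4_155 (nat_lit 781143) (nat_lit 0) (nat_lit 232268791) (nat_lit 0x6adf8057e) (nat_lit 1659098658),
  Rx.mk (nat_lit 269) (nat_lit 5) (nat_lit 1) (nat_lit 4) (nat_lit 3) (nat_lit 319) (nat_lit 156) r0_319 r4_156 (nat_lit 0) (nat_lit 0) (nat_lit 4017845) (nat_lit 0x7ff75e168) (nat_lit 1078479169),
  Rx.mk (nat_lit 460) (nat_lit 4) (nat_lit 1) (nat_lit 7) (nat_lit 6) (nat_lit 320) (nat_lit 157) r0_320 r4_157 (nat_lit 2184780) (nat_lit 0) (nat_lit 0) (nat_lit 0x7aab2db36) (nat_lit 1164898604),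
  Rx.mk (nat_lit 461) (nat_lit 5) (nat_lit 1) (nat_lit 7) (nat_lit 7) (nat_lit 321) (nat_lit 158) r0_321 r4_158 (nat_lit 0) (nat_lit 0) (nat_lit 0) (nat_lit 0x8052c65be) (nat_lit 1068627724)]
noncomputable def e38_25 : List Rx := [
  Rx.mk (nat_lit 268) (nat_lit 4) (nat_lit 1) (nat_lit 4) (nat_lit 2) (nat_lit 250) (nat_lit 315) r0_250 r7_315 (nat_lit 3589306) (nat_lit 0) (nat_lit 64066468) (nat_lit 0x638142464) (nat_lit 1616568698),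
  Rx.mk (nat_lit 269) (nat_lit 5) (nat_lit 1) (nat_lit 4) (nat_lit 3) (nat_lit 251) (nat_lit 317) r0_251 r7_317 (nat_lit 0) (nat_lit 0) (nat_lit 5828588) (nat_lit 0x7fe5c8fd4) (nat_lit 1081422912),
  Rx.mk (nat_lit 332) (nat_lit 4) (nat_lit 1) (nat_lit 5) (nat_lit 6) (nat_lit 252) (nat_lit 316) r0_252 r7_316 (nat_lit 6173437) (nat_lit 0) (nat_lit 0) (nat_lit 0x7b5c8dc0a) (nat_lit 1157338461),
  Rx.mk (nat_lit 333) (nat_lit 5) (nat_lit 1) (nat_lit 5) (nat_lit 7) (nat_lit 253) (nat_lit 318) r0_253 r7_318 (nat_lit 0) (nat_lit 0) (nat_lit 0) (nat_lit 0x8018342e8) (nat_lit 1072357724)]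
noncomputable def e38_26 : List Rx := [
  Rx.mk (nat_lit 268) (nat_lit 4) (nat_lit 1) (nat_lit 4) (nat_lit 2) (nat_lit 278) (nat_lit 237) r0_278 r8_237 (nat_lit 3003976) (nat_lit 0) (nat_lit 8414272) (nat_lit 0x59cd441c8) (nat_lit 1722113272),
  Rx.mk (nat_lit 269) (nat_lit 5) (nat_lit 1) (nat_lit 4) (nat_lit 3) (nat_lit 279) (nat_lit 239) r0_279 r8_239 (nat_lit 0) (nat_lit 0) (nat_lit 5449534) (nat_lit 0x7f7c3426c) (nat_lit 1087884558),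
  Rx.mk (nat_lit 300) (nat_lit 4) (nat_lit 5) (nat_lit 4) (nat_lit 2) (nat_lit 271) (nat_lit 230) r0_271 r8_230 (nat_lit 10233960) (nat_lit 0) (nat_lit 7556884) (nat_lit 0x4f43b3c9c) (nat_lit 1904185068),
  Rx.mk (nat_lit 301) (nat_lit 5) (nat_lit 5) (nat_lit 4) (nat_lit 3) (nat_lit 272) (nat_lit 232) r0_272 r8_232 (nat_lit 0) (nat_lit 0) (nat_lit 7909290) (nat_lit 0x7a5a2401e) (nat_lit 1175906214),
  Rx.mk (nat_lit 302) (nat_lit 6) (nat_lit 5) (nat_lit 4) (nat_lit 3) (nat_lit 273) (nat_lit 234) r0_273 r8_234 (nat_lit 0) (nat_lit 0) (nat_lit 6684980) (nat_lit 0x7f181fd94) (nat_lit 1095629604),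
  Rx.mk (nat_lit 332) (nat_lit 4) (nat_lit 1) (nat_lit 5) (nat_lit 6) (nat_lit 280) (nat_lit 238) r0_280 r8_238 (nat_lit 5951502) (nat_lit 0) (nat_lit 0) (nat_lit 0x73924f6f2) (nat_lit 1286998026),
  Rx.mk (nat_lit 333) (nat_lit 5) (nat_lit 1) (nat_lit 5) (nat_lit 7) (nat_lit 281) (nat_lit 240) r0_281 r8_240 (nat_lit 0) (nat_lit 0) (nat_lit 0) (nat_lit 0x800f47324) (nat_lit 1072928224),
  Rx.mk (nat_lit 364) (nat_lit 4) (nat_lit 5) (nat_lit 5) (nat_lit 6) (nat_lit 274) (nat_lit 231) r0_274 r8_231 (nat_lit 7503020) (nat_lit 0) (nat_lit 0) (nat_lit 0x6d6ab5fac) (nat_lit 1391167544),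
  Rx.mk (nat_lit 365) (nat_lit 5) (nat_lit 5) (nat_lit 5) (nat_lit 7) (nat_lit 275) (nat_lit 233) r0_275 r8_233 (nat_lit 0) (nat_lit 0) (nat_lit 0) (nat_lit 0x7fcefe272) (nat_lit 1077071724),
  Rx.mk (nat_lit 366) (nat_lit 6) (nat_lit 5) (nat_lit 5) (nat_lit 7) (nat_lit 276) (nat_lit 235) r0_276 r8_235 (nat_lit 0) (nat_lit 0) (nat_lit 0) (nat_lit 0x80001f996) (nat_lit 1073900524),
  Rx.mk (nat_lit 430) (nat_lit 6) (nat_lit 5) (nat_lit 6) (nat_lit 7) (nat_lit 277) (nat_lit 236) r0_277 r8_236 (nat_lit 0) (nat_lit 0) (nat_lit 0) (nat_lit 0x80029938e) (nat_lit 1073741824)]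
noncomputable def e38_27 : List Rx := [
  Rx.mk (nat_lit 332) (nat_lit 4) (nat_lit 1) (nat_lit 5) (nat_lit 6) (nat_lit 289) (nat_lit 178) r0_289 r8_178 (nat_lit 6119961) (nat_lit 0) (nat_lit 0) (nat_lit 0x72392b252) (nat_lit 1309645085),
  Rx.mk (nat_lit 333) (nat_lit 5) (nat_lit 1) (nat_lit 5) (nat_lit 7) (nat_lit 290) (nat_lit 179) r0_290 r8_179 (nat_lit 0) (nat_lit 0) (nat_lit 0) (nat_lit 0x7ff99ecac) (nat_lit 1074318024)]
noncomputable def e38_28 : List Rx := [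
  Rx.mk (nat_lit 268) (nat_lit 4) (nat_lit 1) (nat_lit 4) (nat_lit 2) (nat_lit 322) (nat_lit 273) r0_322 r10_273 (nat_lit 2141139) (nat_lit 0) (nat_lit 31804169) (nat_lit 0x67d4791ec) (nat_lit 1510741932),
  Rx.mk (nat_lit 269) (nat_lit 5) (nat_lit 1) (nat_lit 4) (nat_lit 3) (nat_lit 323) (nat_lit 276) r0_323 r10_276 (nat_lit 0) (nat_lit 0) (nat_lit 6626663) (nat_lit 0x7fd2b1cde) (nat_lit 1083457587),
  Rx.mk (nat_lit 332) (nat_lit 4) (nat_lit 1) (nat_lit 5) (nat_lit 6) (nat_lit 324) (nat_lit 274) r0_324 r10_274 (nat_lit 6250628) (nat_lit 0) (nat_lit 0) (nat_lit 0x7fcba2f38) (nat_lit 1083536252),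
  Rx.mk (nat_lit 333) (nat_lit 5) (nat_lit 1) (nat_lit 5) (nat_lit 7) (nat_lit 325) (nat_lit 277) r0_325 r10_277 (nat_lit 0) (nat_lit 0) (nat_lit 0) (nat_lit 0x80131f6b8) (nat_lit 1072683424),
  Rx.mk (nat_lit 460) (nat_lit 4) (nat_lit 1) (nat_lit 7) (nat_lit 6) (nat_lit 326) (nat_lit 275) r0_326 r10_275 (nat_lit 5230327) (nat_lit 0) (nat_lit 0) (nat_lit 0x7f655899e) (nat_lit 1089155351),
  Rx.mk (nat_lit 461) (nat_lit 5) (nat_lit 1) (nat_lit 7) (nat_lit 7) (nat_lit 327) (nat_lit 278) r0_327 r10_278 (nat_lit 0) (nat_lit 0) (nat_lit 0) (nat_lit 0x80029938e) (nat_lit 1073741824)]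
noncomputable def e38_29 : List Rx := [
  Rx.mk (nat_lit 460) (nat_lit 4) (nat_lit 1) (nat_lit 7) (nat_lit 6) (nat_lit 328) (nat_lit 298) r0_328 r11_298 (nat_lit 4405947) (nat_lit 0) (nat_lit 0) (nat_lit 0x7ffb995de) (nat_lit 1078595171),
  Rx.mk (nat_lit 461) (nat_lit 5) (nat_lit 1) (nat_lit 7) (nat_lit 7) (nat_lit 329) (nat_lit 299) r0_329 r11_299 (nat_lit 0) (nat_lit 0) (nat_lit 0) (nat_lit 0x800a900e2) (nat_lit 1073231224)]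
noncomputable def e38_30 : List Rx := [
  Rx.mk (nat_lit 197) (nat_lit 5) (nat_lit 0) (nat_lit 3) (nat_lit 5) (nat_lit 89) (nat_lit 61) r0_89 r5_61 (nat_lit 0) (nat_lit 26638681) (nat_lit 0) (nat_lit 0x7d4f8ee26) (nat_lit 1145302105),
  Rx.mk (nat_lit 221) (nat_lit 5) (nat_lit 3) (nat_lit 3) (nat_lit 7) (nat_lit 90) (nat_lit 62) r0_90 r5_62 (nat_lit 0) (nat_lit 0) (nat_lit 0) (nat_lit 0x83bd7abf0) (nat_lit 1013342324)]
noncomputable def e38_31 : List Rx := [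
  Rx.mk (nat_lit 5) (nat_lit 5) (nat_lit 0) (nat_lit 0) (nat_lit 1) (nat_lit 200) (nat_lit 37) r0_200 r11_37 (nat_lit 0) (nat_lit 314732184) (nat_lit 9426144) (nat_lit 0x70c471818) (nat_lit 1651954452),
  Rx.mk (nat_lit 69) (nat_lit 5) (nat_lit 0) (nat_lit 1) (nat_lit 5) (nat_lit 201) (nat_lit 38) r0_201 r11_38 (nat_lit 0) (nat_lit 5592935) (nat_lit 0) (nat_lit 0x802afe752) (nat_lit 1076749759),
  Rx.mk (nat_lit 197) (nat_lit 5) (nat_lit 0) (nat_lit 3) (nat_lit 5) (nat_lit 202) (nat_lit 39) r0_202 r11_39 (nat_lit 0) (nat_lit 104895094) (nat_lit 0) (nat_lit 0x801d36fca) (nat_lit 1176912118),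
  Rx.mk (nat_lit 221) (nat_lit 5) (nat_lit 3) (nat_lit 3) (nat_lit 7) (nat_lit 203) (nat_lit 40) r0_203 r11_40 (nat_lit 0) (nat_lit 0) (nat_lit 0) (nat_lit 0x813820826) (nat_lit 1054113624)]
noncomputable def e38_32 : List Rx := [
  Rx.mk (nat_lit 199) (nat_lit 7) (nat_lit 0) (nat_lit 3) (nat_lit 5) (nat_lit 231) (nat_lit 105) r0_231 r6_105 (nat_lit 0) (nat_lit 1581921) (nat_lit 0) (nat_lit 0x7e87497a2) (nat_lit 1099940645),
  Rx.mk (nat_lit 284) (nat_lit 4) (nat_lit 3) (nat_lit 4) (nat_lit 2) (nat_lit 232) (nat_lit 98) r0_232 r6_98 (nat_lit 56818) (nat_lit 0) (nat_lit 73687) (nat_lit 0x686f2bb72) (nat_lit 1466800329),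
  Rx.mk (nat_lit 285) (nat_lit 5) (nat_lit 3) (nat_lit 4) (nat_lit 3) (nat_lit 233) (nat_lit 101) r0_233 r6_101 (nat_lit 0) (nat_lit 0) (nat_lit 94559) (nat_lit 0x9073beac2) (nat_lit 807812083),
  Rx.mk (nat_lit 452) (nat_lit 4) (nat_lit 0) (nat_lit 7) (nat_lit 4) (nat_lit 228) (nat_lit 99) r0_228 r6_99 (nat_lit 21443) (nat_lit 21155) (nat_lit 0) (nat_lit 0x655f25c44) (nat_lit 1517763922),
  Rx.mk (nat_lit 453) (nat_lit 5) (nat_lit 0) (nat_lit 7) (nat_lit 5) (nat_lit 229) (nat_lit 102) r0_229 r6_102 (nat_lit 0) (nat_lit 473428) (nat_lit 0) (nat_lit 0x8f3b0df94) (nat_lit 827965152),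
  Rx.mk (nat_lit 455) (nat_lit 7) (nat_lit 0) (nat_lit 7) (nat_lit 5) (nat_lit 230) (nat_lit 104) r0_230 r6_104 (nat_lit 0) (nat_lit 2346346) (nat_lit 0) (nat_lit 0x7a9228b7c) (nat_lit 1166687270),
  Rx.mk (nat_lit 476) (nat_lit 4) (nat_lit 3) (nat_lit 7) (nat_lit 6) (nat_lit 234) (nat_lit 100) r0_234 r6_100 (nat_lit 2085900) (nat_lit 0) (nat_lit 0) (nat_lit 0x80175fe9e) (nat_lit 1074492124),
  Rx.mk (nat_lit 477) (nat_lit 5) (nat_lit 3) (nat_lit 7) (nat_lit 7) (nat_lit 235) (nat_lit 103) r0_235 r6_103 (nat_lit 0) (nat_lit 0) (nat_lit 0) (nat_lit 0x90cc616de) (nat_lit 802175124)]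
noncomputable def e38_33 : List Rx := [
  Rx.mk (nat_lit 260) (nat_lit 4) (nat_lit 0) (nat_lit 4) (nat_lit 0) (nat_lit 330) (nat_lit 152) r0_330 r5_152 (nat_lit 352) (nat_lit 325) (nat_lit 330744107) (nat_lit 0x800010eb4) (nat_lit 1404482608),
  Rx.mk (nat_lit 261) (nat_lit 5) (nat_lit 0) (nat_lit 4) (nat_lit 1) (nat_lit 331) (nat_lit 155) r0_331 r5_155 (nat_lit 0) (nat_lit 9541506) (nat_lit 2163217) (nat_lit 0x7d2876e7e) (nat_lit 1132919447),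
  Rx.mk (nat_lit 268) (nat_lit 4) (nat_lit 1) (nat_lit 4) (nat_lit 2) (nat_lit 335) (nat_lit 153) r0_335 r5_153 (nat_lit 2550648) (nat_lit 0) (nat_lit 173854821) (nat_lit 0x75a4173f6) (nat_lit 1422939093),
  Rx.mk (nat_lit 269) (nat_lit 5) (nat_lit 1) (nat_lit 4) (nat_lit 3) (nat_lit 336) (nat_lit 156) r0_336 r5_156 (nat_lit 0) (nat_lit 0) (nat_lit 5090091) (nat_lit 0x7fe496148) (nat_lit 1080758915),
  Rx.mk (nat_lit 284) (nat_lit 4) (nat_lit 3) (nat_lit 4) (nat_lit 2) (nat_lit 340) (nat_lit 154) r0_340 r5_154 (nat_lit 281567) (nat_lit 0) (nat_lit 98422675) (nat_lit 0x7f7c07604) (nat_lit 1181102766),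
  Rx.mk (nat_lit 285) (nat_lit 5) (nat_lit 3) (nat_lit 4) (nat_lit 3) (nat_lit 341) (nat_lit 157) r0_341 r5_157 (nat_lit 0) (nat_lit 0) (nat_lit 1226898) (nat_lit 0x7f8055c9c) (nat_lit 1083371622),
  Rx.mk (nat_lit 452) (nat_lit 4) (nat_lit 0) (nat_lit 7) (nat_lit 4) (nat_lit 332) (nat_lit 158) r0_332 r5_158 (nat_lit 1646045) (nat_lit 1903628) (nat_lit 0) (nat_lit 0x64837e9fc) (nat_lit 1535649097),
  Rx.mk (nat_lit 453) (nat_lit 5) (nat_lit 0) (nat_lit 7) (nat_lit 5) (nat_lit 333) (nat_lit 160) r0_333 r5_160 (nat_lit 0) (nat_lit 3491444) (nat_lit 0) (nat_lit 0x7fef1f6dc) (nat_lit 1078469368),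
  Rx.mk (nat_lit 455) (nat_lit 7) (nat_lit 0) (nat_lit 7) (nat_lit 5) (nat_lit 334) (nat_lit 162) r0_334 r5_162 (nat_lit 0) (nat_lit 4819430) (nat_lit 0) (nat_lit 0x75c3dc4d4) (nat_lit 1249292654),
  Rx.mk (nat_lit 460) (nat_lit 4) (nat_lit 1) (nat_lit 7) (nat_lit 6) (nat_lit 337) (nat_lit 159) r0_337 r5_159 (nat_lit 3048911) (nat_lit 0) (nat_lit 0) (nat_lit 0x7f12771a8) (nat_lit 1092353635),
  Rx.mk (nat_lit 461) (nat_lit 5) (nat_lit 1) (nat_lit 7) (nat_lit 7) (nat_lit 338) (nat_lit 161) r0_338 r5_161 (nat_lit 0) (nat_lit 0) (nat_lit 0) (nat_lit 0x7ffdbe706) (nat_lit 1074053224),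
  Rx.mk (nat_lit 463) (nat_lit 7) (nat_lit 1) (nat_lit 7) (nat_lit 7) (nat_lit 339) (nat_lit 163) r0_339 r5_163 (nat_lit 0) (nat_lit 0) (nat_lit 0) (nat_lit 0x801989bc0) (nat_lit 1072271724)]
noncomputable def e38_34 : List Rx := [
  Rx.mk (nat_lit 260) (nat_lit 4) (nat_lit 0) (nat_lit 4) (nat_lit 0) (nat_lit 342) (nat_lit 165) r0_342 r11_165 (nat_lit 10268755) (nat_lit 3852129) (nat_lit 18458944) (nat_lit 0x51ec2bbde) (nat_lit 1874651452),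
  Rx.mk (nat_lit 261) (nat_lit 5) (nat_lit 0) (nat_lit 4) (nat_lit 1) (nat_lit 343) (nat_lit 168) r0_343 r11_168 (nat_lit 0) (nat_lit 194126458) (nat_lit 7934940) (nat_lit 0x7dfec5c32) (nat_lit 1309321022),
  Rx.mk (nat_lit 268) (nat_lit 4) (nat_lit 1) (nat_lit 4) (nat_lit 2) (nat_lit 349) (nat_lit 166) r0_349 r11_166 (nat_lit 5119836) (nat_lit 0) (nat_lit 249448811) (nat_lit 0x7cd98d3b2) (nat_lit 1380926471),
  Rx.mk (nat_lit 269) (nat_lit 5) (nat_lit 1) (nat_lit 4) (nat_lit 3) (nat_lit 350) (nat_lit 169) r0_350 r11_169 (nat_lit 0) (nat_lit 0) (nat_lit 5782474) (nat_lit 0x7ffaf2f18) (nat_lit 1080015398),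
  Rx.mk (nat_lit 284) (nat_lit 4) (nat_lit 3) (nat_lit 4) (nat_lit 2) (nat_lit 356) (nat_lit 167) r0_356 r11_167 (nat_lit 9822470) (nat_lit 0) (nat_lit 9822470) (nat_lit 0x7f9211c88) (nat_lit 1100657964),
  Rx.mk (nat_lit 285) (nat_lit 5) (nat_lit 3) (nat_lit 4) (nat_lit 3) (nat_lit 357) (nat_lit 170) r0_357 r11_170 (nat_lit 0) (nat_lit 0) (nat_lit 3096735) (nat_lit 0x80342c6c6) (nat_lit 1073669459),
  Rx.mk (nat_lit 324) (nat_lit 4) (nat_lit 0) (nat_lit 5) (nat_lit 4) (nat_lit 344) (nat_lit 171) r0_344 r11_171 (nat_lit 7896501) (nat_lit 118564749) (nat_lit 0) (nat_lit 0x78f0aaa94) (nat_lit 1317996874),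
  Rx.mk (nat_lit 325) (nat_lit 5) (nat_lit 0) (nat_lit 5) (nat_lit 5) (nat_lit 345) (nat_lit 174) r0_345 r11_174 (nat_lit 0) (nat_lit 172668765) (nat_lit 0) (nat_lit 0x7f52725c8) (nat_lit 1257804589),
  Rx.mk (nat_lit 332) (nat_lit 4) (nat_lit 1) (nat_lit 5) (nat_lit 6) (nat_lit 351) (nat_lit 172) r0_351 r11_172 (nat_lit 5449534) (nat_lit 0) (nat_lit 0) (nat_lit 0x80029938e) (nat_lit 1079191358),
  Rx.mk (nat_lit 333) (nat_lit 5) (nat_lit 1) (nat_lit 5) (nat_lit 7) (nat_lit 352) (nat_lit 175) r0_352 r11_175 (nat_lit 0) (nat_lit 0) (nat_lit 0) (nat_lit 0x800c523a8) (nat_lit 1073118624),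
  Rx.mk (nat_lit 348) (nat_lit 4) (nat_lit 3) (nat_lit 5) (nat_lit 6) (nat_lit 358) (nat_lit 173) r0_358 r11_173 (nat_lit 4288788) (nat_lit 0) (nat_lit 0) (nat_lit 0x801061ba6) (nat_lit 1077145012),
  Rx.mk (nat_lit 349) (nat_lit 5) (nat_lit 3) (nat_lit 5) (nat_lit 7) (nat_lit 359) (nat_lit 176) r0_359 r11_176 (nat_lit 0) (nat_lit 0) (nat_lit 0) (nat_lit 0x80b7bae20) (nat_lit 1062234024),
  Rx.mk (nat_lit 452) (nat_lit 4) (nat_lit 0) (nat_lit 7) (nat_lit 4) (nat_lit 346) (nat_lit 177) r0_346 r11_177 (nat_lit 8056051) (nat_lit 7452897) (nat_lit 0) (nat_lit 0x7322e451a) (nat_lit 1303815772),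
  Rx.mk (nat_lit 453) (nat_lit 5) (nat_lit 0) (nat_lit 7) (nat_lit 5) (nat_lit 347) (nat_lit 179) r0_347 r11_179 (nat_lit 0) (nat_lit 5449534) (nat_lit 0) (nat_lit 0x8024d3526) (nat_lit 1077000758),
  Rx.mk (nat_lit 455) (nat_lit 7) (nat_lit 0) (nat_lit 7) (nat_lit 5) (nat_lit 348) (nat_lit 181) r0_348 r11_181 (nat_lit 0) (nat_lit 5449534) (nat_lit 0) (nat_lit 0x7fd37cdd0) (nat_lit 1082223658),
  Rx.mk (nat_lit 460) (nat_lit 4) (nat_lit 1) (nat_lit 7) (nat_lit 6) (nat_lit 353) (nat_lit 178) r0_353 r11_178 (nat_lit 4354585) (nat_lit 0) (nat_lit 0) (nat_lit 0x800b09e74) (nat_lit 1077554409),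
  Rx.mk (nat_lit 461) (nat_lit 5) (nat_lit 1) (nat_lit 7) (nat_lit 7) (nat_lit 354) (nat_lit 180) r0_354 r11_180 (nat_lit 0) (nat_lit 0) (nat_lit 0) (nat_lit 0x80029938e) (nat_lit 1073741824),
  Rx.mk (nat_lit 463) (nat_lit 7) (nat_lit 1) (nat_lit 7) (nat_lit 7) (nat_lit 355) (nat_lit 182) r0_355 r11_182 (nat_lit 0) (nat_lit 0) (nat_lit 0) (nat_lit 0x800d18918) (nat_lit 1073068624)]
noncomputable def e38_35 : List Rx := [
  Rx.mk (nat_lit 196) (nat_lit 4) (nat_lit 0) (nat_lit 3) (nat_lit 4) (nat_lit 82) (nat_lit 0) r0_82 r6_0 (nat_lit 191551) (nat_lit 287545) (nat_lit 0) (nat_lit 0x5ae6ab8ae) (nat_lit 1692810020),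
  Rx.mk (nat_lit 197) (nat_lit 5) (nat_lit 0) (nat_lit 3) (nat_lit 5) (nat_lit 83) (nat_lit 1) r0_83 r6_1 (nat_lit 0) (nat_lit 3246351) (nat_lit 0) (nat_lit 0x7f1f1dac4) (nat_lit 1091721275),
  Rx.mk (nat_lit 199) (nat_lit 7) (nat_lit 0) (nat_lit 3) (nat_lit 5) (nat_lit 84) (nat_lit 2) r0_84 r6_2 (nat_lit 0) (nat_lit 1684651) (nat_lit 0) (nat_lit 0x7dfbf60f6) (nat_lit 1109116275),
  Rx.mk (nat_lit 220) (nat_lit 4) (nat_lit 3) (nat_lit 3) (nat_lit 6) (nat_lit 87) (nat_lit 3) r0_87 r6_3 (nat_lit 1891802) (nat_lit 0) (nat_lit 0) (nat_lit 0x7e43297ac) (nat_lit 1104700826),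
  Rx.mk (nat_lit 221) (nat_lit 5) (nat_lit 3) (nat_lit 3) (nat_lit 7) (nat_lit 88) (nat_lit 4) r0_88 r6_4 (nat_lit 0) (nat_lit 0) (nat_lit 0) (nat_lit 0x823b44524) (nat_lit 1037739424),
  Rx.mk (nat_lit 476) (nat_lit 4) (nat_lit 3) (nat_lit 7) (nat_lit 6) (nat_lit 85) (nat_lit 5) r0_85 r6_5 (nat_lit 726571) (nat_lit 0) (nat_lit 0) (nat_lit 0x8053e60c0) (nat_lit 1069259595),
  Rx.mk (nat_lit 477) (nat_lit 5) (nat_lit 3) (nat_lit 7) (nat_lit 7) (nat_lit 86) (nat_lit 6) r0_86 r6_6 (nat_lit 0) (nat_lit 0) (nat_lit 0) (nat_lit 0x95d9fc690) (nat_lit 720454924)]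
noncomputable def e38_36 : List Rx := [
  Rx.mk (nat_lit 196) (nat_lit 4) (nat_lit 0) (nat_lit 3) (nat_lit 4) (nat_lit 238) (nat_lit 325) r0_238 r12_325 (nat_lit 98820) (nat_lit 140974) (nat_lit 0) (nat_lit 0x5c7c4d794) (nat_lit 1666140718),
  Rx.mk (nat_lit 197) (nat_lit 5) (nat_lit 0) (nat_lit 3) (nat_lit 5) (nat_lit 239) (nat_lit 328) r0_239 r12_328 (nat_lit 0) (nat_lit 10492686) (nat_lit 0) (nat_lit 0x7fa00c536) (nat_lit 1090533610),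
  Rx.mk (nat_lit 199) (nat_lit 7) (nat_lit 0) (nat_lit 3) (nat_lit 5) (nat_lit 240) (nat_lit 331) r0_240 r12_331 (nat_lit 0) (nat_lit 1111496) (nat_lit 0) (nat_lit 0x7447c7c00) (nat_lit 1270325320),
  Rx.mk (nat_lit 452) (nat_lit 4) (nat_lit 0) (nat_lit 7) (nat_lit 4) (nat_lit 236) (nat_lit 326) r0_236 r12_326 (nat_lit 18804) (nat_lit 23874) (nat_lit 0) (nat_lit 0x617c80900) (nat_lit 1582544202),
  Rx.mk (nat_lit 453) (nat_lit 5) (nat_lit 0) (nat_lit 7) (nat_lit 5) (nat_lit 237) (nat_lit 329) r0_237 r12_329 (nat_lit 0) (nat_lit 6092) (nat_lit 0) (nat_lit 0x90e6c8a2c) (nat_lit 800438116),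
  Rx.mk (nat_lit 476) (nat_lit 4) (nat_lit 3) (nat_lit 7) (nat_lit 6) (nat_lit 241) (nat_lit 327) r0_241 r12_327 (nat_lit 805156) (nat_lit 0) (nat_lit 0) (nat_lit 0x806db6b8a) (nat_lit 1067709380),
  Rx.mk (nat_lit 477) (nat_lit 5) (nat_lit 3) (nat_lit 7) (nat_lit 7) (nat_lit 242) (nat_lit 330) r0_242 r12_330 (nat_lit 0) (nat_lit 0) (nat_lit 0) (nat_lit 0x9d314c5ce) (nat_lit 601741024)]
noncomputable def e38_37 : List Rx := [
  Rx.mk (nat_lit 294) (nat_lit 6) (nat_lit 4) (nat_lit 4) (nat_lit 1) (nat_lit 91) (nat_lit 94) r0_91 r0_94 (nat_lit 0) (nat_lit 2281841) (nat_lit 349268526) (nat_lit 0x695e6d546) (nat_lit 1802695991),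
  Rx.mk (nat_lit 316) (nat_lit 4) (nat_lit 7) (nat_lit 4) (nat_lit 2) (nat_lit 94) (nat_lit 91) r0_94 r0_91 (nat_lit 2281841) (nat_lit 0) (nat_lit 349268526) (nat_lit 0x695e6d546) (nat_lit 1802695991),
  Rx.mk (nat_lit 318) (nat_lit 6) (nat_lit 7) (nat_lit 4) (nat_lit 3) (nat_lit 95) (nat_lit 95) r0_95 r0_95 (nat_lit 0) (nat_lit 0) (nat_lit 83723171) (nat_lit 0x7fded129e) (nat_lit 1159762995),
  Rx.mk (nat_lit 422) (nat_lit 6) (nat_lit 4) (nat_lit 6) (nat_lit 5) (nat_lit 92) (nat_lit 97) r0_92 r0_97 (nat_lit 0) (nat_lit 7696512) (nat_lit 0) (nat_lit 0x757aa5982) (nat_lit 1256938536),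
  Rx.mk (nat_lit 438) (nat_lit 6) (nat_lit 6) (nat_lit 6) (nat_lit 7) (nat_lit 93) (nat_lit 99) r0_93 r0_99 (nat_lit 0) (nat_lit 0) (nat_lit 0) (nat_lit 0x7ff4b5254) (nat_lit 1074633224),
  Rx.mk (nat_lit 446) (nat_lit 6) (nat_lit 7) (nat_lit 6) (nat_lit 7) (nat_lit 96) (nat_lit 98) r0_96 r0_98 (nat_lit 0) (nat_lit 0) (nat_lit 0) (nat_lit 0x800b21baa) (nat_lit 1073194924),
  Rx.mk (nat_lit 508) (nat_lit 4) (nat_lit 7) (nat_lit 7) (nat_lit 6) (nat_lit 97) (nat_lit 92) r0_97 r0_92 (nat_lit 7696512) (nat_lit 0) (nat_lit 0) (nat_lit 0x757aa5982) (nat_lit 1256938536),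
  Rx.mk (nat_lit 510) (nat_lit 6) (nat_lit 7) (nat_lit 7) (nat_lit 7) (nat_lit 98) (nat_lit 96) r0_98 r0_96 (nat_lit 0) (nat_lit 0) (nat_lit 0) (nat_lit 0x800b21baa) (nat_lit 1073194924),
  Rx.mk (nat_lit 511) (nat_lit 7) (nat_lit 7) (nat_lit 7) (nat_lit 7) (nat_lit 99) (nat_lit 93) r0_99 r0_93 (nat_lit 0) (nat_lit 0) (nat_lit 0) (nat_lit 0x7ff4b5254) (nat_lit 1074633224)]
noncomputable def e38_38 : List Rx := [
  Rx.mk (nat_lit 16) (nat_lit 0) (nat_lit 2) (nat_lit 0) (nat_lit 2) (nat_lit 11) (nat_lit 4) r0_11 r0_4 (nat_lit 315) (nat_lit 0) (nat_lit 405) (nat_lit 0x7ffff5812) (nat_lit 1073745444),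
  Rx.mk (nat_lit 19) (nat_lit 3) (nat_lit 2) (nat_lit 0) (nat_lit 3) (nat_lit 12) (nat_lit 5) r0_12 r0_5 (nat_lit 0) (nat_lit 0) (nat_lit 1728051) (nat_lit 0x7394ef902) (nat_lit 1282594675),
  Rx.mk (nat_lit 144) (nat_lit 0) (nat_lit 2) (nat_lit 2) (nat_lit 6) (nat_lit 13) (nat_lit 7) r0_13 r0_7 (nat_lit 333) (nat_lit 0) (nat_lit 0) (nat_lit 0x89448e60a) (nat_lit 923874657),
  Rx.mk (nat_lit 146) (nat_lit 2) (nat_lit 2) (nat_lit 2) (nat_lit 7) (nat_lit 14) (nat_lit 9) r0_14 r0_9 (nat_lit 0) (nat_lit 0) (nat_lit 0) (nat_lit 0x7f4d09abe) (nat_lit 1085496724),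
  Rx.mk (nat_lit 147) (nat_lit 3) (nat_lit 2) (nat_lit 2) (nat_lit 7) (nat_lit 15) (nat_lit 8) r0_15 r0_8 (nat_lit 0) (nat_lit 0) (nat_lit 0) (nat_lit 0x7f59d35d8) (nat_lit 1084663224),
  Rx.mk (nat_lit 178) (nat_lit 2) (nat_lit 6) (nat_lit 2) (nat_lit 7) (nat_lit 3) (nat_lit 17) r0_3 r0_17 (nat_lit 0) (nat_lit 0) (nat_lit 0) (nat_lit 0x7faf4f9e4) (nat_lit 1079113724),
  Rx.mk (nat_lit 195) (nat_lit 3) (nat_lit 0) (nat_lit 3) (nat_lit 5) (nat_lit 10) (nat_lit 0) r0_10 r0_0 (nat_lit 0) (nat_lit 5395) (nat_lit 0) (nat_lit 0x6944b7408) (nat_lit 1452752919),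
  Rx.mk (nat_lit 211) (nat_lit 3) (nat_lit 2) (nat_lit 3) (nat_lit 7) (nat_lit 16) (nat_lit 6) r0_16 r0_6 (nat_lit 0) (nat_lit 0) (nat_lit 0) (nat_lit 0x7fffee0a8) (nat_lit 1073746924),
  Rx.mk (nat_lit 219) (nat_lit 3) (nat_lit 3) (nat_lit 3) (nat_lit 7) (nat_lit 19) (nat_lit 1) r0_19 r0_1 (nat_lit 0) (nat_lit 0) (nat_lit 0) (nat_lit 0x75d7e4c92) (nat_lit 1243130024),
  Rx.mk (nat_lit 223) (nat_lit 7) (nat_lit 3) (nat_lit 3) (nat_lit 7) (nat_lit 18) (nat_lit 2) r0_18 r0_2 (nat_lit 0) (nat_lit 0) (nat_lit 0) (nat_lit 0x72bc9c29e) (nat_lit 1294943824),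
  Rx.mk (nat_lit 316) (nat_lit 4) (nat_lit 7) (nat_lit 4) (nat_lit 2) (nat_lit 4) (nat_lit 11) r0_4 r0_11 (nat_lit 315) (nat_lit 0) (nat_lit 405) (nat_lit 0x7ffff5812) (nat_lit 1073745444),
  Rx.mk (nat_lit 318) (nat_lit 6) (nat_lit 7) (nat_lit 4) (nat_lit 3) (nat_lit 5) (nat_lit 12) r0_5 r0_12 (nat_lit 0) (nat_lit 0) (nat_lit 1728051) (nat_lit 0x7394ef902) (nat_lit 1282594675),
  Rx.mk (nat_lit 422) (nat_lit 6) (nat_lit 4) (nat_lit 6) (nat_lit 5) (nat_lit 0) (nat_lit 10) r0_0 r0_10 (nat_lit 0) (nat_lit 5395) (nat_lit 0) (nat_lit 0x6944b7408) (nat_lit 1452752919),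
  Rx.mk (nat_lit 434) (nat_lit 2) (nat_lit 6) (nat_lit 6) (nat_lit 7) (nat_lit 2) (nat_lit 18) r0_2 r0_18 (nat_lit 0) (nat_lit 0) (nat_lit 0) (nat_lit 0x72bc9c29e) (nat_lit 1294943824),
  Rx.mk (nat_lit 438) (nat_lit 6) (nat_lit 6) (nat_lit 6) (nat_lit 7) (nat_lit 1) (nat_lit 19) r0_1 r0_19 (nat_lit 0) (nat_lit 0) (nat_lit 0) (nat_lit 0x75d7e4c92) (nat_lit 1243130024),
  Rx.mk (nat_lit 446) (nat_lit 6) (nat_lit 7) (nat_lit 6) (nat_lit 7) (nat_lit 6) (nat_lit 16) r0_6 r0_16 (nat_lit 0) (nat_lit 0) (nat_lit 0) (nat_lit 0x7fffee0a8) (nat_lit 1073746924),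
  Rx.mk (nat_lit 479) (nat_lit 7) (nat_lit 3) (nat_lit 7) (nat_lit 7) (nat_lit 17) (nat_lit 3) r0_17 r0_3 (nat_lit 0) (nat_lit 0) (nat_lit 0) (nat_lit 0x7faf4f9e4) (nat_lit 1079113724),
  Rx.mk (nat_lit 508) (nat_lit 4) (nat_lit 7) (nat_lit 7) (nat_lit 6) (nat_lit 7) (nat_lit 13) r0_7 r0_13 (nat_lit 333) (nat_lit 0) (nat_lit 0) (nat_lit 0x89448e60a) (nat_lit 923874657),
  Rx.mk (nat_lit 510) (nat_lit 6) (nat_lit 7) (nat_lit 7) (nat_lit 7) (nat_lit 8) (nat_lit 15) r0_8 r0_15 (nat_lit 0) (nat_lit 0) (nat_lit 0) (nat_lit 0x7f59d35d8) (nat_lit 1084663224),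
  Rx.mk (nat_lit 511) (nat_lit 7) (nat_lit 7) (nat_lit 7) (nat_lit 7) (nat_lit 9) (nat_lit 14) r0_9 r0_14 (nat_lit 0) (nat_lit 0) (nat_lit 0) (nat_lit 0x7f4d09abe) (nat_lit 1085496724)]
noncomputable def e38_39 : List Rx := [
  Rx.mk (nat_lit 178) (nat_lit 2) (nat_lit 6) (nat_lit 2) (nat_lit 7) (nat_lit 104) (nat_lit 103) r0_104 r7_103 (nat_lit 0) (nat_lit 0) (nat_lit 0) (nat_lit 0x7ff7bb07a) (nat_lit 1074439424),
  Rx.mk (nat_lit 294) (nat_lit 6) (nat_lit 4) (nat_lit 4) (nat_lit 1) (nat_lit 100) (nat_lit 96) r0_100 r7_96 (nat_lit 0) (nat_lit 16582240) (nat_lit 12742526) (nat_lit 0x6135e2f48) (nat_lit 1616501090),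
  Rx.mk (nat_lit 316) (nat_lit 4) (nat_lit 7) (nat_lit 4) (nat_lit 2) (nat_lit 105) (nat_lit 93) r0_105 r7_93 (nat_lit 146838) (nat_lit 0) (nat_lit 747955) (nat_lit 0x5e9ce2aac) (nat_lit 1631332817),
  Rx.mk (nat_lit 318) (nat_lit 6) (nat_lit 7) (nat_lit 4) (nat_lit 3) (nat_lit 106) (nat_lit 97) r0_106 r7_97 (nat_lit 0) (nat_lit 0) (nat_lit 26061368) (nat_lit 0x7f3c3650c) (nat_lit 1112650392),
  Rx.mk (nat_lit 422) (nat_lit 6) (nat_lit 4) (nat_lit 6) (nat_lit 5) (nat_lit 101) (nat_lit 99) r0_101 r7_99 (nat_lit 0) (nat_lit 2775314) (nat_lit 0) (nat_lit 0x6ed474154) (nat_lit 1362877338),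
  Rx.mk (nat_lit 434) (nat_lit 2) (nat_lit 6) (nat_lit 6) (nat_lit 7) (nat_lit 103) (nat_lit 102) r0_103 r7_102 (nat_lit 0) (nat_lit 0) (nat_lit 0) (nat_lit 0x80029938e) (nat_lit 1073741824),
  Rx.mk (nat_lit 438) (nat_lit 6) (nat_lit 6) (nat_lit 6) (nat_lit 7) (nat_lit 102) (nat_lit 101) r0_102 r7_101 (nat_lit 0) (nat_lit 0) (nat_lit 0) (nat_lit 0x7f8d00f78) (nat_lit 1081343624),
  Rx.mk (nat_lit 446) (nat_lit 6) (nat_lit 7) (nat_lit 6) (nat_lit 7) (nat_lit 107) (nat_lit 100) r0_107 r7_100 (nat_lit 0) (nat_lit 0) (nat_lit 0) (nat_lit 0x7fecaec36) (nat_lit 1075148224),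
  Rx.mk (nat_lit 508) (nat_lit 4) (nat_lit 7) (nat_lit 7) (nat_lit 6) (nat_lit 108) (nat_lit 94) r0_108 r7_94 (nat_lit 4219351) (nat_lit 0) (nat_lit 0) (nat_lit 0x735136a1c) (nat_lit 1289505675),
  Rx.mk (nat_lit 510) (nat_lit 6) (nat_lit 7) (nat_lit 7) (nat_lit 7) (nat_lit 109) (nat_lit 98) r0_109 r7_98 (nat_lit 0) (nat_lit 0) (nat_lit 0) (nat_lit 0x7ff9f25aa) (nat_lit 1074297324),
  Rx.mk (nat_lit 511) (nat_lit 7) (nat_lit 7) (nat_lit 7) (nat_lit 7) (nat_lit 110) (nat_lit 95) r0_110 r7_95 (nat_lit 0) (nat_lit 0) (nat_lit 0) (nat_lit 0x7ff997768) (nat_lit 1074319724)]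
noncomputable def e38_40 : List Rx := [
  Rx.mk (nat_lit 16) (nat_lit 0) (nat_lit 2) (nat_lit 0) (nat_lit 2) (nat_lit 34) (nat_lit 4) r0_34 r2_4 (nat_lit 546718) (nat_lit 0) (nat_lit 1100011) (nat_lit 0x5e324af1e) (nat_lit 1639056353),
  Rx.mk (nat_lit 17) (nat_lit 1) (nat_lit 2) (nat_lit 0) (nat_lit 3) (nat_lit 35) (nat_lit 5) r0_35 r2_5 (nat_lit 0) (nat_lit 0) (nat_lit 6036329) (nat_lit 0x7f3f12eb0) (nat_lit 1092440953),
  Rx.mk (nat_lit 144) (nat_lit 0) (nat_lit 2) (nat_lit 2) (nat_lit 6) (nat_lit 36) (nat_lit 9) r0_36 r2_9 (nat_lit 3680737) (nat_lit 0) (nat_lit 0) (nat_lit 0x7f050aae2) (nat_lit 1093861361),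
  Rx.mk (nat_lit 145) (nat_lit 1) (nat_lit 2) (nat_lit 2) (nat_lit 7) (nat_lit 37) (nat_lit 10) r0_37 r2_10 (nat_lit 0) (nat_lit 0) (nat_lit 0) (nat_lit 0x8000ca71a) (nat_lit 1073857724),
  Rx.mk (nat_lit 146) (nat_lit 2) (nat_lit 2) (nat_lit 2) (nat_lit 7) (nat_lit 38) (nat_lit 11) r0_38 r2_11 (nat_lit 0) (nat_lit 0) (nat_lit 0) (nat_lit 0x8000ca71a) (nat_lit 1073857724),
  Rx.mk (nat_lit 178) (nat_lit 2) (nat_lit 6) (nat_lit 2) (nat_lit 7) (nat_lit 30) (nat_lit 12) r0_30 r2_12 (nat_lit 0) (nat_lit 0) (nat_lit 0) (nat_lit 0x80029938e) (nat_lit 1073741824),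
  Rx.mk (nat_lit 192) (nat_lit 0) (nat_lit 0) (nat_lit 3) (nat_lit 4) (nat_lit 31) (nat_lit 0) r0_31 r2_0 (nat_lit 340572) (nat_lit 418407) (nat_lit 0) (nat_lit 0x63d5cd998) (nat_lit 1544142803),
  Rx.mk (nat_lit 193) (nat_lit 1) (nat_lit 0) (nat_lit 3) (nat_lit 5) (nat_lit 32) (nat_lit 1) r0_32 r2_1 (nat_lit 0) (nat_lit 2521905) (nat_lit 0) (nat_lit 0x7ff8da2da) (nat_lit 1076883729),
  Rx.mk (nat_lit 195) (nat_lit 3) (nat_lit 0) (nat_lit 3) (nat_lit 5) (nat_lit 33) (nat_lit 2) r0_33 r2_2 (nat_lit 0) (nat_lit 4691311) (nat_lit 0) (nat_lit 0x7fd860edc) (nat_lit 1081143335),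
  Rx.mk (nat_lit 208) (nat_lit 0) (nat_lit 2) (nat_lit 3) (nat_lit 6) (nat_lit 39) (nat_lit 6) r0_39 r2_6 (nat_lit 372081) (nat_lit 0) (nat_lit 0) (nat_lit 0x80aa87848) (nat_lit 1063404905),
  Rx.mk (nat_lit 209) (nat_lit 1) (nat_lit 2) (nat_lit 3) (nat_lit 7) (nat_lit 40) (nat_lit 7) r0_40 r2_7 (nat_lit 0) (nat_lit 0) (nat_lit 0) (nat_lit 0x812965e80) (nat_lit 1055044524),
  Rx.mk (nat_lit 211) (nat_lit 3) (nat_lit 2) (nat_lit 3) (nat_lit 7) (nat_lit 41) (nat_lit 8) r0_41 r2_8 (nat_lit 0) (nat_lit 0) (nat_lit 0) (nat_lit 0x812d32e5a) (nat_lit 1054804324),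
  Rx.mk (nat_lit 219) (nat_lit 3) (nat_lit 3) (nat_lit 3) (nat_lit 7) (nat_lit 42) (nat_lit 3) r0_42 r2_3 (nat_lit 0) (nat_lit 0) (nat_lit 0) (nat_lit 0x80029938e) (nat_lit 1073741824)]
noncomputable def e38_41 : List Rx := [
  Rx.mk (nat_lit 178) (nat_lit 2) (nat_lit 6) (nat_lit 2) (nat_lit 7) (nat_lit 141) (nat_lit 0) r0_141 r9_0 (nat_lit 0) (nat_lit 0) (nat_lit 0) (nat_lit 0x7ffe05cc8) (nat_lit 1074035324)]
noncomputable def e38_42 : List Rx := [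
  Rx.mk (nat_lit 0) (nat_lit 0) (nat_lit 0) (nat_lit 0) (nat_lit 0) (nat_lit 155) (nat_lit 23) r0_155 r9_23 (nat_lit 1354781) (nat_lit 4153151) (nat_lit 2362812) (nat_lit 0x1b57e90f6) (nat_lit 2759934868),
  Rx.mk (nat_lit 1) (nat_lit 1) (nat_lit 0) (nat_lit 0) (nat_lit 1) (nat_lit 156) (nat_lit 24) r0_156 r9_24 (nat_lit 0) (nat_lit 4177856) (nat_lit 4070116) (nat_lit 0x4bc84881c) (nat_lit 1952696096),
  Rx.mk (nat_lit 16) (nat_lit 0) (nat_lit 2) (nat_lit 0) (nat_lit 2) (nat_lit 161) (nat_lit 25) r0_161 r9_25 (nat_lit 2456288) (nat_lit 0) (nat_lit 2475026) (nat_lit 0x57aea971a) (nat_lit 1750970938),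
  Rx.mk (nat_lit 17) (nat_lit 1) (nat_lit 2) (nat_lit 0) (nat_lit 3) (nat_lit 162) (nat_lit 26) r0_162 r9_26 (nat_lit 0) (nat_lit 0) (nat_lit 5501243) (nat_lit 0x781c26610) (nat_lit 1210881267),
  Rx.mk (nat_lit 65) (nat_lit 1) (nat_lit 0) (nat_lit 1) (nat_lit 5) (nat_lit 157) (nat_lit 27) r0_157 r9_27 (nat_lit 0) (nat_lit 6049948) (nat_lit 0) (nat_lit 0x7c59b23d6) (nat_lit 1140727172),
  Rx.mk (nat_lit 81) (nat_lit 1) (nat_lit 2) (nat_lit 1) (nat_lit 7) (nat_lit 163) (nat_lit 28) r0_163 r9_28 (nat_lit 0) (nat_lit 0) (nat_lit 0) (nat_lit 0x80029938e) (nat_lit 1073741824),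
  Rx.mk (nat_lit 144) (nat_lit 0) (nat_lit 2) (nat_lit 2) (nat_lit 6) (nat_lit 164) (nat_lit 37) r0_164 r9_37 (nat_lit 5165939) (nat_lit 0) (nat_lit 0) (nat_lit 0x791ad7c68) (nat_lit 1193957763),
  Rx.mk (nat_lit 145) (nat_lit 1) (nat_lit 2) (nat_lit 2) (nat_lit 7) (nat_lit 165) (nat_lit 38) r0_165 r9_38 (nat_lit 0) (nat_lit 0) (nat_lit 0) (nat_lit 0x80029938e) (nat_lit 1073741824),
  Rx.mk (nat_lit 146) (nat_lit 2) (nat_lit 2) (nat_lit 2) (nat_lit 7) (nat_lit 166) (nat_lit 39) r0_166 r9_39 (nat_lit 0) (nat_lit 0) (nat_lit 0) (nat_lit 0x80029938e) (nat_lit 1073741824),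
  Rx.mk (nat_lit 178) (nat_lit 2) (nat_lit 6) (nat_lit 2) (nat_lit 7) (nat_lit 154) (nat_lit 36) r0_154 r9_36 (nat_lit 0) (nat_lit 0) (nat_lit 0) (nat_lit 0x80029938e) (nat_lit 1073741824),
  Rx.mk (nat_lit 192) (nat_lit 0) (nat_lit 0) (nat_lit 3) (nat_lit 4) (nat_lit 158) (nat_lit 29) r0_158 r9_29 (nat_lit 2771204) (nat_lit 18445641) (nat_lit 0) (nat_lit 0x4ea89f76a) (nat_lit 1917708369),
  Rx.mk (nat_lit 193) (nat_lit 1) (nat_lit 0) (nat_lit 3) (nat_lit 5) (nat_lit 159) (nat_lit 30) r0_159 r9_30 (nat_lit 0) (nat_lit 9808972) (nat_lit 0) (nat_lit 0x7fc6e9032) (nat_lit 1087396196),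
  Rx.mk (nat_lit 195) (nat_lit 3) (nat_lit 0) (nat_lit 3) (nat_lit 5) (nat_lit 160) (nat_lit 31) r0_160 r9_31 (nat_lit 0) (nat_lit 89110576) (nat_lit 0) (nat_lit 0x7efa9f9ea) (nat_lit 1179970500),
  Rx.mk (nat_lit 208) (nat_lit 0) (nat_lit 2) (nat_lit 3) (nat_lit 6) (nat_lit 167) (nat_lit 33) r0_167 r9_33 (nat_lit 5084035) (nat_lit 0) (nat_lit 0) (nat_lit 0x7fe4632fc) (nat_lit 1080766959),
  Rx.mk (nat_lit 209) (nat_lit 1) (nat_lit 2) (nat_lit 3) (nat_lit 7) (nat_lit 168) (nat_lit 34) r0_168 r9_34 (nat_lit 0) (nat_lit 0) (nat_lit 0) (nat_lit 0x80029938e) (nat_lit 1073741824),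
  Rx.mk (nat_lit 211) (nat_lit 3) (nat_lit 2) (nat_lit 3) (nat_lit 7) (nat_lit 169) (nat_lit 35) r0_169 r9_35 (nat_lit 0) (nat_lit 0) (nat_lit 0) (nat_lit 0x80029938e) (nat_lit 1073741824),
  Rx.mk (nat_lit 219) (nat_lit 3) (nat_lit 3) (nat_lit 3) (nat_lit 7) (nat_lit 170) (nat_lit 32) r0_170 r9_32 (nat_lit 0) (nat_lit 0) (nat_lit 0) (nat_lit 0x7feda7fe8) (nat_lit 1075089724)]
noncomputable def e38_43 : List Rx := [
  Rx.mk (nat_lit 16) (nat_lit 0) (nat_lit 2) (nat_lit 0) (nat_lit 2) (nat_lit 23) (nat_lit 2) r0_23 r1_2 (nat_lit 718420) (nat_lit 0) (nat_lit 1455550) (nat_lit 0x6a3efe8ee) (nat_lit 1438693294),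
  Rx.mk (nat_lit 19) (nat_lit 3) (nat_lit 2) (nat_lit 0) (nat_lit 3) (nat_lit 24) (nat_lit 3) r0_24 r1_3 (nat_lit 0) (nat_lit 0) (nat_lit 3519261) (nat_lit 0x7fe91f23c) (nat_lit 1078893085),
  Rx.mk (nat_lit 144) (nat_lit 0) (nat_lit 2) (nat_lit 2) (nat_lit 6) (nat_lit 25) (nat_lit 5) r0_25 r1_5 (nat_lit 1321792) (nat_lit 0) (nat_lit 0) (nat_lit 0x7eac0b5f4) (nat_lit 1097321716),
  Rx.mk (nat_lit 146) (nat_lit 2) (nat_lit 2) (nat_lit 2) (nat_lit 7) (nat_lit 26) (nat_lit 7) r0_26 r1_7 (nat_lit 0) (nat_lit 0) (nat_lit 0) (nat_lit 0x8024ca822) (nat_lit 1071553224),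
  Rx.mk (nat_lit 147) (nat_lit 3) (nat_lit 2) (nat_lit 2) (nat_lit 7) (nat_lit 27) (nat_lit 6) r0_27 r1_6 (nat_lit 0) (nat_lit 0) (nat_lit 0) (nat_lit 0x8026ace56) (nat_lit 1071433124),
  Rx.mk (nat_lit 178) (nat_lit 2) (nat_lit 6) (nat_lit 2) (nat_lit 7) (nat_lit 21) (nat_lit 8) r0_21 r1_8 (nat_lit 0) (nat_lit 0) (nat_lit 0) (nat_lit 0x801ae09f6) (nat_lit 1072185524),
  Rx.mk (nat_lit 195) (nat_lit 3) (nat_lit 0) (nat_lit 3) (nat_lit 5) (nat_lit 22) (nat_lit 0) r0_22 r1_0 (nat_lit 0) (nat_lit 3533431) (nat_lit 0) (nat_lit 0x7556e8ecc) (nat_lit 1255098455),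
  Rx.mk (nat_lit 211) (nat_lit 3) (nat_lit 2) (nat_lit 3) (nat_lit 7) (nat_lit 28) (nat_lit 4) r0_28 r1_4 (nat_lit 0) (nat_lit 0) (nat_lit 0) (nat_lit 0x8b4469ad8) (nat_lit 891617424),
  Rx.mk (nat_lit 219) (nat_lit 3) (nat_lit 3) (nat_lit 3) (nat_lit 7) (nat_lit 29) (nat_lit 1) r0_29 r1_1 (nat_lit 0) (nat_lit 0) (nat_lit 0) (nat_lit 0x80f88a298) (nat_lit 1058137724),
  Rx.mk (nat_lit 434) (nat_lit 2) (nat_lit 6) (nat_lit 6) (nat_lit 7) (nat_lit 20) (nat_lit 9) r0_20 r1_9 (nat_lit 0) (nat_lit 0) (nat_lit 0) (nat_lit 0x7ffd4488e) (nat_lit 1074080924)]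
noncomputable def e38_44 : List Rx := [
  Rx.mk (nat_lit 178) (nat_lit 2) (nat_lit 6) (nat_lit 2) (nat_lit 7) (nat_lit 140) (nat_lit 77) r0_140 r8_77 (nat_lit 0) (nat_lit 0) (nat_lit 0) (nat_lit 0x7ffc024da) (nat_lit 1074164524),
  Rx.mk (nat_lit 434) (nat_lit 2) (nat_lit 6) (nat_lit 6) (nat_lit 7) (nat_lit 139) (nat_lit 76) r0_139 r8_76 (nat_lit 0) (nat_lit 0) (nat_lit 0) (nat_lit 0x80000a14a) (nat_lit 1073905924)]
noncomputable def e38_45 : List Rx := [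
  Rx.mk (nat_lit 292) (nat_lit 4) (nat_lit 4) (nat_lit 4) (nat_lit 0) (nat_lit 111) (nat_lit 94) r0_111 r1_94 (nat_lit 809) (nat_lit 792) (nat_lit 313883956) (nat_lit 0x800043b20) (nat_lit 1387611081),
  Rx.mk (nat_lit 294) (nat_lit 6) (nat_lit 4) (nat_lit 4) (nat_lit 1) (nat_lit 112) (nat_lit 99) r0_112 r1_99 (nat_lit 0) (nat_lit 2995413) (nat_lit 134380886) (nat_lit 0x6f8aae7a8) (nat_lit 1485611623),
  Rx.mk (nat_lit 300) (nat_lit 4) (nat_lit 5) (nat_lit 4) (nat_lit 2) (nat_lit 114) (nat_lit 95) r0_114 r1_95 (nat_lit 5229139) (nat_lit 0) (nat_lit 389289256) (nat_lit 0x7f6d76162) (nat_lit 1477906119),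
  Rx.mk (nat_lit 302) (nat_lit 6) (nat_lit 5) (nat_lit 4) (nat_lit 3) (nat_lit 115) (nat_lit 100) r0_115 r1_100 (nat_lit 0) (nat_lit 0) (nat_lit 9520156) (nat_lit 0x7fd237c40) (nat_lit 1086376280),
  Rx.mk (nat_lit 316) (nat_lit 4) (nat_lit 7) (nat_lit 4) (nat_lit 2) (nat_lit 118) (nat_lit 96) r0_118 r1_96 (nat_lit 13308373) (nat_lit 0) (nat_lit 244546135) (nat_lit 0x7f7cf93a0) (nat_lit 1340240332),
  Rx.mk (nat_lit 318) (nat_lit 6) (nat_lit 7) (nat_lit 4) (nat_lit 3) (nat_lit 119) (nat_lit 101) r0_119 r1_101 (nat_lit 0) (nat_lit 0) (nat_lit 7910044) (nat_lit 0x80340856e) (nat_lit 1078489268),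
  Rx.mk (nat_lit 422) (nat_lit 6) (nat_lit 4) (nat_lit 6) (nat_lit 5) (nat_lit 113) (nat_lit 103) r0_113 r1_103 (nat_lit 0) (nat_lit 4066432) (nat_lit 0) (nat_lit 0x79ca131dc) (nat_lit 1181450656),
  Rx.mk (nat_lit 430) (nat_lit 6) (nat_lit 5) (nat_lit 6) (nat_lit 7) (nat_lit 116) (nat_lit 104) r0_116 r1_104 (nat_lit 0) (nat_lit 0) (nat_lit 0) (nat_lit 0x80029938e) (nat_lit 1073741824),
  Rx.mk (nat_lit 438) (nat_lit 6) (nat_lit 6) (nat_lit 6) (nat_lit 7) (nat_lit 117) (nat_lit 106) r0_117 r1_106 (nat_lit 0) (nat_lit 0) (nat_lit 0) (nat_lit 0x80029938e) (nat_lit 1073741824),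
  Rx.mk (nat_lit 446) (nat_lit 6) (nat_lit 7) (nat_lit 6) (nat_lit 7) (nat_lit 120) (nat_lit 105) r0_120 r1_105 (nat_lit 0) (nat_lit 0) (nat_lit 0) (nat_lit 0x80029938e) (nat_lit 1073741824),
  Rx.mk (nat_lit 508) (nat_lit 4) (nat_lit 7) (nat_lit 7) (nat_lit 6) (nat_lit 121) (nat_lit 97) r0_121 r1_97 (nat_lit 4762754) (nat_lit 0) (nat_lit 0) (nat_lit 0x7fefdf6ee) (nat_lit 1079707178),
  Rx.mk (nat_lit 510) (nat_lit 6) (nat_lit 7) (nat_lit 7) (nat_lit 7) (nat_lit 122) (nat_lit 102) r0_122 r1_102 (nat_lit 0) (nat_lit 0) (nat_lit 0) (nat_lit 0x80029938e) (nat_lit 1073741824),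
  Rx.mk (nat_lit 511) (nat_lit 7) (nat_lit 7) (nat_lit 7) (nat_lit 7) (nat_lit 123) (nat_lit 98) r0_123 r1_98 (nat_lit 0) (nat_lit 0) (nat_lit 0) (nat_lit 0x80029938e) (nat_lit 1073741824)]
noncomputable def e38_46 : List Rx := [
  Rx.mk (nat_lit 300) (nat_lit 4) (nat_lit 5) (nat_lit 4) (nat_lit 2) (nat_lit 254) (nat_lit 98) r0_254 r2_98 (nat_lit 7055863) (nat_lit 0) (nat_lit 68407513) (nat_lit 0x53676d968) (nat_lit 1892836900),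
  Rx.mk (nat_lit 302) (nat_lit 6) (nat_lit 5) (nat_lit 4) (nat_lit 3) (nat_lit 255) (nat_lit 99) r0_255 r2_99 (nat_lit 0) (nat_lit 0) (nat_lit 10599859) (nat_lit 0x7f72b6d3e) (nat_lit 1093649483),
  Rx.mk (nat_lit 430) (nat_lit 6) (nat_lit 5) (nat_lit 6) (nat_lit 7) (nat_lit 256) (nat_lit 100) r0_256 r2_100 (nat_lit 0) (nat_lit 0) (nat_lit 0) (nat_lit 0x80029938e) (nat_lit 1073741824)]
noncomputable def e38_47 : List Rx := [
  Rx.mk (nat_lit 178) (nat_lit 2) (nat_lit 6) (nat_lit 2) (nat_lit 7) (nat_lit 132) (nat_lit 12) r0_132 r8_12 (nat_lit 0) (nat_lit 0) (nat_lit 0) (nat_lit 0x7ffea679a) (nat_lit 1073995024),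
  Rx.mk (nat_lit 292) (nat_lit 4) (nat_lit 4) (nat_lit 4) (nat_lit 0) (nat_lit 124) (nat_lit 0) r0_124 r8_0 (nat_lit 875647) (nat_lit 769730) (nat_lit 19583288) (nat_lit 0x2e4eda24a) (nat_lit 2457082489),
  Rx.mk (nat_lit 294) (nat_lit 6) (nat_lit 4) (nat_lit 4) (nat_lit 1) (nat_lit 125) (nat_lit 1) r0_125 r8_1 (nat_lit 0) (nat_lit 6920669) (nat_lit 6110955) (nat_lit 0x5c1df8e8c) (nat_lit 1685132748),
  Rx.mk (nat_lit 300) (nat_lit 4) (nat_lit 5) (nat_lit 4) (nat_lit 2) (nat_lit 127) (nat_lit 3) r0_127 r8_3 (nat_lit 5177292) (nat_lit 0) (nat_lit 10202902) (nat_lit 0x5a407c046) (nat_lit 1718579418),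
  Rx.mk (nat_lit 302) (nat_lit 6) (nat_lit 5) (nat_lit 4) (nat_lit 3) (nat_lit 128) (nat_lit 4) r0_128 r8_4 (nat_lit 0) (nat_lit 0) (nat_lit 7519074) (nat_lit 0x7f790236e) (nat_lit 1090159298),
  Rx.mk (nat_lit 316) (nat_lit 4) (nat_lit 7) (nat_lit 4) (nat_lit 2) (nat_lit 133) (nat_lit 6) r0_133 r8_6 (nat_lit 11768288) (nat_lit 0) (nat_lit 19041550) (nat_lit 0x59527f2bc) (nat_lit 1749505762),
  Rx.mk (nat_lit 318) (nat_lit 6) (nat_lit 7) (nat_lit 4) (nat_lit 3) (nat_lit 134) (nat_lit 7) r0_134 r8_7 (nat_lit 0) (nat_lit 0) (nat_lit 11254699) (nat_lit 0x7f97706d4) (nat_lit 1091919323),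
  Rx.mk (nat_lit 422) (nat_lit 6) (nat_lit 4) (nat_lit 6) (nat_lit 5) (nat_lit 126) (nat_lit 2) r0_126 r8_2 (nat_lit 0) (nat_lit 3304366) (nat_lit 0) (nat_lit 0x7121ef044) (nat_lit 1325017390),
  Rx.mk (nat_lit 430) (nat_lit 6) (nat_lit 5) (nat_lit 6) (nat_lit 7) (nat_lit 129) (nat_lit 5) r0_129 r8_5 (nat_lit 0) (nat_lit 0) (nat_lit 0) (nat_lit 0x7ff585e22) (nat_lit 1074580824),
  Rx.mk (nat_lit 434) (nat_lit 2) (nat_lit 6) (nat_lit 6) (nat_lit 7) (nat_lit 131) (nat_lit 13) r0_131 r8_13 (nat_lit 0) (nat_lit 0) (nat_lit 0) (nat_lit 0x80000807a) (nat_lit 1073906424),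
  Rx.mk (nat_lit 438) (nat_lit 6) (nat_lit 6) (nat_lit 6) (nat_lit 7) (nat_lit 130) (nat_lit 14) r0_130 r8_14 (nat_lit 0) (nat_lit 0) (nat_lit 0) (nat_lit 0x7fe8c0fac) (nat_lit 1075405124),
  Rx.mk (nat_lit 446) (nat_lit 6) (nat_lit 7) (nat_lit 6) (nat_lit 7) (nat_lit 135) (nat_lit 11) r0_135 r8_11 (nat_lit 0) (nat_lit 0) (nat_lit 0) (nat_lit 0x7ff7f4f0a) (nat_lit 1074424424),
  Rx.mk (nat_lit 508) (nat_lit 4) (nat_lit 7) (nat_lit 7) (nat_lit 6) (nat_lit 136) (nat_lit 8) r0_136 r8_8 (nat_lit 8974417) (nat_lit 0) (nat_lit 0) (nat_lit 0x79570f6e0) (nat_lit 1193845041),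
  Rx.mk (nat_lit 510) (nat_lit 6) (nat_lit 7) (nat_lit 7) (nat_lit 7) (nat_lit 137) (nat_lit 10) r0_137 r8_10 (nat_lit 0) (nat_lit 0) (nat_lit 0) (nat_lit 0x80029938e) (nat_lit 1073741824),
  Rx.mk (nat_lit 511) (nat_lit 7) (nat_lit 7) (nat_lit 7) (nat_lit 7) (nat_lit 138) (nat_lit 9) r0_138 r8_9 (nat_lit 0) (nat_lit 0) (nat_lit 0) (nat_lit 0x80029938e) (nat_lit 1073741824)]
noncomputable def e38_48 : List Rx := [
  Rx.mk (nat_lit 300) (nat_lit 4) (nat_lit 5) (nat_lit 4) (nat_lit 2) (nat_lit 262) (nat_lit 65) r0_262 r9_65 (nat_lit 10235647) (nat_lit 0) (nat_lit 33337572) (nat_lit 0x56d0f2f2a) (nat_lit 1804056343),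
  Rx.mk (nat_lit 302) (nat_lit 6) (nat_lit 5) (nat_lit 4) (nat_lit 3) (nat_lit 263) (nat_lit 66) r0_263 r9_66 (nat_lit 0) (nat_lit 0) (nat_lit 7516292) (nat_lit 0x7ed45a2a8) (nat_lit 1100866916),
  Rx.mk (nat_lit 430) (nat_lit 6) (nat_lit 5) (nat_lit 6) (nat_lit 7) (nat_lit 264) (nat_lit 67) r0_264 r9_67 (nat_lit 0) (nat_lit 0) (nat_lit 0) (nat_lit 0x7fff5bfe6) (nat_lit 1073949524)]
noncomputable def e38_49 : List Rx := [
  Rx.mk (nat_lit 300) (nat_lit 4) (nat_lit 5) (nat_lit 4) (nat_lit 2) (nat_lit 257) (nat_lit 155) r0_257 r9_155 (nat_lit 14069634) (nat_lit 0) (nat_lit 6905727) (nat_lit 0x4c6cacf20) (nat_lit 1954719885),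
  Rx.mk (nat_lit 302) (nat_lit 6) (nat_lit 5) (nat_lit 4) (nat_lit 3) (nat_lit 258) (nat_lit 156) r0_258 r9_156 (nat_lit 0) (nat_lit 0) (nat_lit 5858494) (nat_lit 0x7eeecaa20) (nat_lit 1097492218),
  Rx.mk (nat_lit 364) (nat_lit 4) (nat_lit 5) (nat_lit 5) (nat_lit 6) (nat_lit 259) (nat_lit 157) r0_259 r9_157 (nat_lit 6147522) (nat_lit 0) (nat_lit 0) (nat_lit 0x74233b2ba) (nat_lit 1277762346),
  Rx.mk (nat_lit 366) (nat_lit 6) (nat_lit 5) (nat_lit 5) (nat_lit 7) (nat_lit 260) (nat_lit 158) r0_260 r9_158 (nat_lit 0) (nat_lit 0) (nat_lit 0) (nat_lit 0x80003986e) (nat_lit 1073894024),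
  Rx.mk (nat_lit 430) (nat_lit 6) (nat_lit 5) (nat_lit 6) (nat_lit 7) (nat_lit 261) (nat_lit 159) r0_261 r9_159 (nat_lit 0) (nat_lit 0) (nat_lit 0) (nat_lit 0x80029938e) (nat_lit 1073741824)]
noncomputable def e38_50 : List Rx := [
  Rx.mk (nat_lit 199) (nat_lit 7) (nat_lit 0) (nat_lit 3) (nat_lit 5) (nat_lit 48) (nat_lit 95) r0_48 r3_95 (nat_lit 0) (nat_lit 2538) (nat_lit 0) (nat_lit 0x7f0d94852) (nat_lit 1089533662),
  Rx.mk (nat_lit 223) (nat_lit 7) (nat_lit 3) (nat_lit 3) (nat_lit 7) (nat_lit 51) (nat_lit 96) r0_51 r3_96 (nat_lit 0) (nat_lit 0) (nat_lit 0) (nat_lit 0x7e28e0986) (nat_lit 1104512624),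
  Rx.mk (nat_lit 316) (nat_lit 4) (nat_lit 7) (nat_lit 4) (nat_lit 2) (nat_lit 43) (nat_lit 91) r0_43 r3_91 (nat_lit 41) (nat_lit 0) (nat_lit 127) (nat_lit 0x810a42a4e) (nat_lit 1056923092),
  Rx.mk (nat_lit 318) (nat_lit 6) (nat_lit 7) (nat_lit 4) (nat_lit 3) (nat_lit 44) (nat_lit 97) r0_44 r3_97 (nat_lit 0) (nat_lit 0) (nat_lit 57402) (nat_lit 0x72280bbe8) (nat_lit 1304618126),
  Rx.mk (nat_lit 446) (nat_lit 6) (nat_lit 7) (nat_lit 6) (nat_lit 7) (nat_lit 45) (nat_lit 99) r0_45 r3_99 (nat_lit 0) (nat_lit 0) (nat_lit 0) (nat_lit 0x7e9e55ea0) (nat_lit 1096868324),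
  Rx.mk (nat_lit 476) (nat_lit 4) (nat_lit 3) (nat_lit 7) (nat_lit 6) (nat_lit 49) (nat_lit 93) r0_49 r3_93 (nat_lit 1675) (nat_lit 0) (nat_lit 0) (nat_lit 0x7fff0f506) (nat_lit 1073805999),
  Rx.mk (nat_lit 479) (nat_lit 7) (nat_lit 3) (nat_lit 7) (nat_lit 7) (nat_lit 50) (nat_lit 94) r0_50 r3_94 (nat_lit 0) (nat_lit 0) (nat_lit 0) (nat_lit 0x7ff88c6a2) (nat_lit 1074376024),
  Rx.mk (nat_lit 508) (nat_lit 4) (nat_lit 7) (nat_lit 7) (nat_lit 6) (nat_lit 46) (nat_lit 92) r0_46 r3_92 (nat_lit 340766) (nat_lit 0) (nat_lit 0) (nat_lit 0x7b6c883d0) (nat_lit 1150435990),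
  Rx.mk (nat_lit 510) (nat_lit 6) (nat_lit 7) (nat_lit 7) (nat_lit 7) (nat_lit 47) (nat_lit 98) r0_47 r3_98 (nat_lit 0) (nat_lit 0) (nat_lit 0) (nat_lit 0x805080ac0) (nat_lit 1068781124)]
noncomputable def e38_51 : List Rx := [
  Rx.mk (nat_lit 316) (nat_lit 4) (nat_lit 7) (nat_lit 4) (nat_lit 2) (nat_lit 142) (nat_lit 93) r0_142 r4_93 (nat_lit 141544) (nat_lit 0) (nat_lit 274678991) (nat_lit 0x64b4664b6) (nat_lit 1803687759),
  Rx.mk (nat_lit 318) (nat_lit 6) (nat_lit 7) (nat_lit 4) (nat_lit 3) (nat_lit 143) (nat_lit 95) r0_143 r4_95 (nat_lit 0) (nat_lit 0) (nat_lit 78264559) (nat_lit 0x80209c4da) (nat_lit 1150066883),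
  Rx.mk (nat_lit 446) (nat_lit 6) (nat_lit 7) (nat_lit 6) (nat_lit 7) (nat_lit 144) (nat_lit 97) r0_144 r4_97 (nat_lit 0) (nat_lit 0) (nat_lit 0) (nat_lit 0x8017d8204) (nat_lit 1072380824),
  Rx.mk (nat_lit 508) (nat_lit 4) (nat_lit 7) (nat_lit 7) (nat_lit 6) (nat_lit 145) (nat_lit 94) r0_145 r4_94 (nat_lit 3066219) (nat_lit 0) (nat_lit 0) (nat_lit 0x7fc1695a8) (nat_lit 1081005143),
  Rx.mk (nat_lit 510) (nat_lit 6) (nat_lit 7) (nat_lit 7) (nat_lit 7) (nat_lit 146) (nat_lit 96) r0_146 r4_96 (nat_lit 0) (nat_lit 0) (nat_lit 0) (nat_lit 0x80388f0ce) (nat_lit 1070293424)]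
noncomputable def e38_52 : List Rx := [
  Rx.mk (nat_lit 199) (nat_lit 7) (nat_lit 0) (nat_lit 3) (nat_lit 5) (nat_lit 208) (nat_lit 99) r0_208 r5_99 (nat_lit 0) (nat_lit 2561812) (nat_lit 0) (nat_lit 0x7ef938278) (nat_lit 1093505936),
  Rx.mk (nat_lit 284) (nat_lit 4) (nat_lit 3) (nat_lit 4) (nat_lit 2) (nat_lit 209) (nat_lit 95) r0_209 r5_95 (nat_lit 1820) (nat_lit 0) (nat_lit 2303) (nat_lit 0x7ff2f8664) (nat_lit 1074595147),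
  Rx.mk (nat_lit 316) (nat_lit 4) (nat_lit 7) (nat_lit 4) (nat_lit 2) (nat_lit 204) (nat_lit 94) r0_204 r5_94 (nat_lit 42213) (nat_lit 0) (nat_lit 34408194) (nat_lit 0x8000d80ea) (nat_lit 1108162531),
  Rx.mk (nat_lit 318) (nat_lit 6) (nat_lit 7) (nat_lit 4) (nat_lit 3) (nat_lit 205) (nat_lit 100) r0_205 r5_100 (nat_lit 0) (nat_lit 0) (nat_lit 275203489) (nat_lit 0x7ef968536) (nat_lit 1366143013),
  Rx.mk (nat_lit 446) (nat_lit 6) (nat_lit 7) (nat_lit 6) (nat_lit 7) (nat_lit 206) (nat_lit 101) r0_206 r5_101 (nat_lit 0) (nat_lit 0) (nat_lit 0) (nat_lit 0x7fca9da02) (nat_lit 1077344524),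
  Rx.mk (nat_lit 455) (nat_lit 7) (nat_lit 0) (nat_lit 7) (nat_lit 5) (nat_lit 207) (nat_lit 97) r0_207 r5_97 (nat_lit 0) (nat_lit 1787242) (nat_lit 0) (nat_lit 0x66db20c6c) (nat_lit 1494829666),
  Rx.mk (nat_lit 476) (nat_lit 4) (nat_lit 3) (nat_lit 7) (nat_lit 6) (nat_lit 210) (nat_lit 96) r0_210 r5_96 (nat_lit 1204429) (nat_lit 0) (nat_lit 0) (nat_lit 0x804cfd8c6) (nat_lit 1070187653),
  Rx.mk (nat_lit 479) (nat_lit 7) (nat_lit 3) (nat_lit 7) (nat_lit 7) (nat_lit 211) (nat_lit 98) r0_211 r5_98 (nat_lit 0) (nat_lit 0) (nat_lit 0) (nat_lit 0x800cf614c) (nat_lit 1073076224)]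
noncomputable def e38_53 : List Rx := [
  Rx.mk (nat_lit 19) (nat_lit 3) (nat_lit 2) (nat_lit 0) (nat_lit 3) (nat_lit 59) (nat_lit 5) r0_59 r4_5 (nat_lit 0) (nat_lit 0) (nat_lit 89886997) (nat_lit 0x7c8a3bb06) (nat_lit 1221401321),
  Rx.mk (nat_lit 147) (nat_lit 3) (nat_lit 2) (nat_lit 2) (nat_lit 7) (nat_lit 60) (nat_lit 7) r0_60 r4_7 (nat_lit 0) (nat_lit 0) (nat_lit 0) (nat_lit 0x7fe2c17aa) (nat_lit 1075787224),
  Rx.mk (nat_lit 195) (nat_lit 3) (nat_lit 0) (nat_lit 3) (nat_lit 5) (nat_lit 58) (nat_lit 0) r0_58 r4_0 (nat_lit 0) (nat_lit 1489124) (nat_lit 0) (nat_lit 0x6dffcb254) (nat_lit 1375427948),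
  Rx.mk (nat_lit 199) (nat_lit 7) (nat_lit 0) (nat_lit 3) (nat_lit 5) (nat_lit 57) (nat_lit 1) r0_57 r4_1 (nat_lit 0) (nat_lit 2745228) (nat_lit 0) (nat_lit 0x7f3da6c7a) (nat_lit 1089236952),
  Rx.mk (nat_lit 211) (nat_lit 3) (nat_lit 2) (nat_lit 3) (nat_lit 7) (nat_lit 61) (nat_lit 6) r0_61 r4_6 (nat_lit 0) (nat_lit 0) (nat_lit 0) (nat_lit 0x7ff4a1d08) (nat_lit 1074622024),
  Rx.mk (nat_lit 223) (nat_lit 7) (nat_lit 3) (nat_lit 3) (nat_lit 7) (nat_lit 64) (nat_lit 2) r0_64 r4_2 (nat_lit 0) (nat_lit 0) (nat_lit 0) (nat_lit 0x805002b84) (nat_lit 1068799624),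
  Rx.mk (nat_lit 316) (nat_lit 4) (nat_lit 7) (nat_lit 4) (nat_lit 2) (nat_lit 52) (nat_lit 8) r0_52 r4_8 (nat_lit 1880334) (nat_lit 0) (nat_lit 24902759) (nat_lit 0x65a2917c6) (nat_lit 1540179317),
  Rx.mk (nat_lit 318) (nat_lit 6) (nat_lit 7) (nat_lit 4) (nat_lit 3) (nat_lit 53) (nat_lit 9) r0_53 r4_9 (nat_lit 0) (nat_lit 0) (nat_lit 8072366) (nat_lit 0x752013154) (nat_lit 1263210890),
  Rx.mk (nat_lit 446) (nat_lit 6) (nat_lit 7) (nat_lit 6) (nat_lit 7) (nat_lit 54) (nat_lit 12) r0_54 r4_12 (nat_lit 0) (nat_lit 0) (nat_lit 0) (nat_lit 0x7b2096062) (nat_lit 1155059824),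
  Rx.mk (nat_lit 476) (nat_lit 4) (nat_lit 3) (nat_lit 7) (nat_lit 6) (nat_lit 62) (nat_lit 3) r0_62 r4_3 (nat_lit 2627169) (nat_lit 0) (nat_lit 0) (nat_lit 0x8020258c6) (nat_lit 1074474693),
  Rx.mk (nat_lit 479) (nat_lit 7) (nat_lit 3) (nat_lit 7) (nat_lit 7) (nat_lit 63) (nat_lit 4) r0_63 r4_4 (nat_lit 0) (nat_lit 0) (nat_lit 0) (nat_lit 0x803b1537a) (nat_lit 1070132924),
  Rx.mk (nat_lit 508) (nat_lit 4) (nat_lit 7) (nat_lit 7) (nat_lit 6) (nat_lit 55) (nat_lit 10) r0_55 r4_10 (nat_lit 2516625) (nat_lit 0) (nat_lit 0) (nat_lit 0x7f8893454) (nat_lit 1084144949),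
  Rx.mk (nat_lit 510) (nat_lit 6) (nat_lit 7) (nat_lit 7) (nat_lit 7) (nat_lit 56) (nat_lit 11) r0_56 r4_11 (nat_lit 0) (nat_lit 0) (nat_lit 0) (nat_lit 0x803412cb2) (nat_lit 1070579024)]
noncomputable def e38_54 : List Rx := [
  Rx.mk (nat_lit 316) (nat_lit 4) (nat_lit 7) (nat_lit 4) (nat_lit 2) (nat_lit 147) (nat_lit 77) r0_147 r10_77 (nat_lit 163852) (nat_lit 0) (nat_lit 530643) (nat_lit 0x5f682fdf4) (nat_lit 1617894919),
  Rx.mk (nat_lit 318) (nat_lit 6) (nat_lit 7) (nat_lit 4) (nat_lit 3) (nat_lit 148) (nat_lit 79) r0_148 r10_79 (nat_lit 0) (nat_lit 0) (nat_lit 10021103) (nat_lit 0x7fa58a3fa) (nat_lit 1089765427),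
  Rx.mk (nat_lit 446) (nat_lit 6) (nat_lit 7) (nat_lit 6) (nat_lit 7) (nat_lit 149) (nat_lit 81) r0_149 r10_81 (nat_lit 0) (nat_lit 0) (nat_lit 0) (nat_lit 0x7ff4c343a) (nat_lit 1074628924),
  Rx.mk (nat_lit 508) (nat_lit 4) (nat_lit 7) (nat_lit 7) (nat_lit 6) (nat_lit 150) (nat_lit 78) r0_150 r10_78 (nat_lit 4695397) (nat_lit 0) (nat_lit 0) (nat_lit 0x71f87d494) (nat_lit 1312433921),
  Rx.mk (nat_lit 510) (nat_lit 6) (nat_lit 7) (nat_lit 7) (nat_lit 7) (nat_lit 151) (nat_lit 80) r0_151 r10_80 (nat_lit 0) (nat_lit 0) (nat_lit 0) (nat_lit 0x7ff9f480a) (nat_lit 1074296824)]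
noncomputable def e38_55 : List Rx := [
  Rx.mk (nat_lit 195) (nat_lit 3) (nat_lit 0) (nat_lit 3) (nat_lit 5) (nat_lit 217) (nat_lit 99) r0_217 r11_99 (nat_lit 0) (nat_lit 2191612) (nat_lit 0) (nat_lit 0x7ea5f8ebe) (nat_lit 1098552836),
  Rx.mk (nat_lit 199) (nat_lit 7) (nat_lit 0) (nat_lit 3) (nat_lit 5) (nat_lit 216) (nat_lit 96) r0_216 r11_96 (nat_lit 0) (nat_lit 2261537) (nat_lit 0) (nat_lit 0x802c51546) (nat_lit 1073330661),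
  Rx.mk (nat_lit 211) (nat_lit 3) (nat_lit 2) (nat_lit 3) (nat_lit 7) (nat_lit 218) (nat_lit 100) r0_218 r11_100 (nat_lit 0) (nat_lit 0) (nat_lit 0) (nat_lit 0x80fd022a8) (nat_lit 1057853824),
  Rx.mk (nat_lit 284) (nat_lit 4) (nat_lit 3) (nat_lit 4) (nat_lit 2) (nat_lit 219) (nat_lit 92) r0_219 r11_92 (nat_lit 1327087) (nat_lit 0) (nat_lit 1515078) (nat_lit 0x70dac8bde) (nat_lit 1329174389),
  Rx.mk (nat_lit 316) (nat_lit 4) (nat_lit 7) (nat_lit 4) (nat_lit 2) (nat_lit 212) (nat_lit 91) r0_212 r11_91 (nat_lit 4290635) (nat_lit 0) (nat_lit 177359743) (nat_lit 0x71206e3fa) (nat_lit 1503455502),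
  Rx.mk (nat_lit 318) (nat_lit 6) (nat_lit 7) (nat_lit 4) (nat_lit 3) (nat_lit 213) (nat_lit 97) r0_213 r11_97 (nat_lit 0) (nat_lit 0) (nat_lit 55284396) (nat_lit 0x7f832bb06) (nat_lit 1137266720),
  Rx.mk (nat_lit 446) (nat_lit 6) (nat_lit 7) (nat_lit 6) (nat_lit 7) (nat_lit 214) (nat_lit 98) r0_214 r11_98 (nat_lit 0) (nat_lit 0) (nat_lit 0) (nat_lit 0x805932ed4) (nat_lit 1068212724),
  Rx.mk (nat_lit 455) (nat_lit 7) (nat_lit 0) (nat_lit 7) (nat_lit 5) (nat_lit 215) (nat_lit 94) r0_215 r11_94 (nat_lit 0) (nat_lit 2667019) (nat_lit 0) (nat_lit 0x7fbf39062) (nat_lit 1080746543),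
  Rx.mk (nat_lit 476) (nat_lit 4) (nat_lit 3) (nat_lit 7) (nat_lit 6) (nat_lit 220) (nat_lit 93) r0_220 r11_93 (nat_lit 2711268) (nat_lit 0) (nat_lit 0) (nat_lit 0x8030259d8) (nat_lit 1073539392),
  Rx.mk (nat_lit 479) (nat_lit 7) (nat_lit 3) (nat_lit 7) (nat_lit 7) (nat_lit 221) (nat_lit 95) r0_221 r11_95 (nat_lit 0) (nat_lit 0) (nat_lit 0) (nat_lit 0x8024ca5ca) (nat_lit 1071555724)]
noncomputable def e38_56 : List Rx := [
  Rx.mk (nat_lit 199) (nat_lit 7) (nat_lit 0) (nat_lit 3) (nat_lit 5) (nat_lit 67) (nat_lit 0) r0_67 r5_0 (nat_lit 0) (nat_lit 1192389) (nat_lit 0) (nat_lit 0x7f2e926b2) (nat_lit 1088653513),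
  Rx.mk (nat_lit 220) (nat_lit 4) (nat_lit 3) (nat_lit 3) (nat_lit 6) (nat_lit 69) (nat_lit 1) r0_69 r5_1 (nat_lit 766655) (nat_lit 0) (nat_lit 0) (nat_lit 0x7495bc8de) (nat_lit 1264902279),
  Rx.mk (nat_lit 223) (nat_lit 7) (nat_lit 3) (nat_lit 3) (nat_lit 7) (nat_lit 70) (nat_lit 2) r0_70 r5_2 (nat_lit 0) (nat_lit 0) (nat_lit 0) (nat_lit 0x7fef31df0) (nat_lit 1074983524),
  Rx.mk (nat_lit 476) (nat_lit 4) (nat_lit 3) (nat_lit 7) (nat_lit 6) (nat_lit 68) (nat_lit 3) r0_68 r5_3 (nat_lit 1158438) (nat_lit 0) (nat_lit 0) (nat_lit 0x7fed5a61c) (nat_lit 1076256662),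
  Rx.mk (nat_lit 508) (nat_lit 4) (nat_lit 7) (nat_lit 7) (nat_lit 6) (nat_lit 65) (nat_lit 4) r0_65 r5_4 (nat_lit 956393) (nat_lit 0) (nat_lit 0) (nat_lit 0x7c593b998) (nat_lit 1135682617),
  Rx.mk (nat_lit 510) (nat_lit 6) (nat_lit 7) (nat_lit 7) (nat_lit 7) (nat_lit 66) (nat_lit 5) r0_66 r5_5 (nat_lit 0) (nat_lit 0) (nat_lit 0) (nat_lit 0x804823e18) (nat_lit 1069300924)]
noncomputable def e38_57 : List Rx := [
  Rx.mk (nat_lit 508) (nat_lit 4) (nat_lit 7) (nat_lit 7) (nat_lit 6) (nat_lit 152) (nat_lit 0) r0_152 r11_0 (nat_lit 4245916) (nat_lit 0) (nat_lit 0) (nat_lit 0x7feae8000) (nat_lit 1079510240),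
  Rx.mk (nat_lit 510) (nat_lit 6) (nat_lit 7) (nat_lit 7) (nat_lit 7) (nat_lit 153) (nat_lit 1) r0_153 r11_1 (nat_lit 0) (nat_lit 0) (nat_lit 0) (nat_lit 0x800bb8a46) (nat_lit 1073157024)]
noncomputable def e38 : List (List Rx) := [e38_0, e38_1, e38_2, e38_3, e38_4, e38_5, e38_6, e38_7, e38_8, e38_9, e38_10, e38_11, e38_12, e38_13, e38_14, e38_15, e38_16, e38_17, e38_18, e38_19, e38_20, e38_21, e38_22, e38_23, e38_24, e38_25, e38_26, e38_27, e38_28, e38_29, e38_30, e38_31, e38_32, e38_33, e38_34, e38_35, e38_36, e38_37, e38_38, e38_39, e38_40, e38_41, e38_42, e38_43, e38_44, e38_45, e38_46, e38_47, e38_48, e38_49, e38_50, e38_51, e38_52, e38_53, e38_54, e38_55, e38_56, e38_57]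
noncomputable def e39_0 : List Rx := [
  Rx.mk (nat_lit 5) (nat_lit 5) (nat_lit 0) (nat_lit 0) (nat_lit 1) (nat_lit 315) (nat_lit 250) r7_315 r0_250 (nat_lit 0) (nat_lit 64066468) (nat_lit 3589306) (nat_lit 0x638142464) (nat_lit 1616568698),
  Rx.mk (nat_lit 13) (nat_lit 5) (nat_lit 1) (nat_lit 0) (nat_lit 3) (nat_lit 316) (nat_lit 252) r7_316 r0_252 (nat_lit 0) (nat_lit 0) (nat_lit 6173437) (nat_lit 0x7b5c8dc0a) (nat_lit 1157338461),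
  Rx.mk (nat_lit 69) (nat_lit 5) (nat_lit 0) (nat_lit 1) (nat_lit 5) (nat_lit 317) (nat_lit 251) r7_317 r0_251 (nat_lit 0) (nat_lit 5828588) (nat_lit 0) (nat_lit 0x7fe5c8fd4) (nat_lit 1081422912),
  Rx.mk (nat_lit 77) (nat_lit 5) (nat_lit 1) (nat_lit 1) (nat_lit 7) (nat_lit 318) (nat_lit 253) r7_318 r0_253 (nat_lit 0) (nat_lit 0) (nat_lit 0) (nat_lit 0x8018342e8) (nat_lit 1072357724)]
noncomputable def e39_1 : List Rx := [
  Rx.mk (nat_lit 69) (nat_lit 5) (nat_lit 0) (nat_lit 1) (nat_lit 5) (nat_lit 397) (nat_lit 256) r7_397 r1_256 (nat_lit 0) (nat_lit 5449534) (nat_lit 0) (nat_lit 0x7f8e54334) (nat_lit 1086711158),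
  Rx.mk (nat_lit 77) (nat_lit 5) (nat_lit 1) (nat_lit 1) (nat_lit 7) (nat_lit 398) (nat_lit 257) r7_398 r1_257 (nat_lit 0) (nat_lit 0) (nat_lit 0) (nat_lit 0x80029938e) (nat_lit 1073741824)]
noncomputable def e39_2 : List Rx := [
  Rx.mk (nat_lit 77) (nat_lit 5) (nat_lit 1) (nat_lit 1) (nat_lit 7) (nat_lit 399) (nat_lit 284) r7_399 r2_284 (nat_lit 0) (nat_lit 0) (nat_lit 0) (nat_lit 0x80029938e) (nat_lit 1073741824),
  Rx.mk (nat_lit 333) (nat_lit 5) (nat_lit 1) (nat_lit 5) (nat_lit 7) (nat_lit 400) (nat_lit 285) r7_400 r2_285 (nat_lit 0) (nat_lit 0) (nat_lit 0) (nat_lit 0x80029938e) (nat_lit 1073741824)]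
noncomputable def e39_3 : List Rx := [
  Rx.mk (nat_lit 5) (nat_lit 5) (nat_lit 0) (nat_lit 0) (nat_lit 1) (nat_lit 412) (nat_lit 250) r7_412 r3_250 (nat_lit 0) (nat_lit 17692) (nat_lit 13620) (nat_lit 0x66343bea6) (nat_lit 1503873036),
  Rx.mk (nat_lit 13) (nat_lit 5) (nat_lit 1) (nat_lit 0) (nat_lit 3) (nat_lit 413) (nat_lit 252) r7_413 r3_252 (nat_lit 0) (nat_lit 0) (nat_lit 3317218) (nat_lit 0x73b921fbe) (nat_lit 1281818742),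
  Rx.mk (nat_lit 197) (nat_lit 5) (nat_lit 0) (nat_lit 3) (nat_lit 5) (nat_lit 414) (nat_lit 251) r7_414 r3_251 (nat_lit 0) (nat_lit 51739) (nat_lit 0) (nat_lit 0x8025c8a44) (nat_lit 1071420663),
  Rx.mk (nat_lit 205) (nat_lit 5) (nat_lit 1) (nat_lit 3) (nat_lit 7) (nat_lit 415) (nat_lit 253) r7_415 r3_253 (nat_lit 0) (nat_lit 0) (nat_lit 0) (nat_lit 0x89c325cac) (nat_lit 915957624)]
noncomputable def e39_4 : List Rx := [
  Rx.mk (nat_lit 5) (nat_lit 5) (nat_lit 0) (nat_lit 0) (nat_lit 1) (nat_lit 416) (nat_lit 265) r7_416 r4_265 (nat_lit 0) (nat_lit 34184311) (nat_lit 10345136) (nat_lit 0x6ebe1e59e) (nat_lit 1406084271),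
  Rx.mk (nat_lit 13) (nat_lit 5) (nat_lit 1) (nat_lit 0) (nat_lit 3) (nat_lit 417) (nat_lit 268) r7_417 r4_268 (nat_lit 0) (nat_lit 0) (nat_lit 4100018) (nat_lit 0x801ea5dd4) (nat_lit 1076046742),
  Rx.mk (nat_lit 69) (nat_lit 5) (nat_lit 0) (nat_lit 1) (nat_lit 5) (nat_lit 418) (nat_lit 266) r7_418 r4_266 (nat_lit 0) (nat_lit 5449534) (nat_lit 0) (nat_lit 0x80029938e) (nat_lit 1079191358),
  Rx.mk (nat_lit 77) (nat_lit 5) (nat_lit 1) (nat_lit 1) (nat_lit 7) (nat_lit 419) (nat_lit 269) r7_419 r4_269 (nat_lit 0) (nat_lit 0) (nat_lit 0) (nat_lit 0x80029938e) (nat_lit 1073741824),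
  Rx.mk (nat_lit 197) (nat_lit 5) (nat_lit 0) (nat_lit 3) (nat_lit 5) (nat_lit 420) (nat_lit 267) r7_420 r4_267 (nat_lit 0) (nat_lit 4321044) (nat_lit 0) (nat_lit 0x800f26f02) (nat_lit 1077257068),
  Rx.mk (nat_lit 205) (nat_lit 5) (nat_lit 1) (nat_lit 3) (nat_lit 7) (nat_lit 421) (nat_lit 270) r7_421 r4_270 (nat_lit 0) (nat_lit 0) (nat_lit 0) (nat_lit 0x80029938e) (nat_lit 1073741824)]
noncomputable def e39_5 : List Rx := [
  Rx.mk (nat_lit 197) (nat_lit 5) (nat_lit 0) (nat_lit 3) (nat_lit 5) (nat_lit 422) (nat_lit 256) r7_422 r5_256 (nat_lit 0) (nat_lit 1663775) (nat_lit 0) (nat_lit 0x7ff356e8a) (nat_lit 1076373699),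
  Rx.mk (nat_lit 205) (nat_lit 5) (nat_lit 1) (nat_lit 3) (nat_lit 7) (nat_lit 423) (nat_lit 257) r7_423 r5_257 (nat_lit 0) (nat_lit 0) (nat_lit 0) (nat_lit 0x804fac05e) (nat_lit 1068822724)]
noncomputable def e39_6 : List Rx := [
  Rx.mk (nat_lit 268) (nat_lit 4) (nat_lit 1) (nat_lit 4) (nat_lit 2) (nat_lit 52) (nat_lit 250) r7_52 r3_250 (nat_lit 17692) (nat_lit 0) (nat_lit 13620) (nat_lit 0x66343bea6) (nat_lit 1503873036),
  Rx.mk (nat_lit 269) (nat_lit 5) (nat_lit 1) (nat_lit 4) (nat_lit 3) (nat_lit 54) (nat_lit 252) r7_54 r3_252 (nat_lit 0) (nat_lit 0) (nat_lit 3317218) (nat_lit 0x73b921fbe) (nat_lit 1281818742),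
  Rx.mk (nat_lit 460) (nat_lit 4) (nat_lit 1) (nat_lit 7) (nat_lit 6) (nat_lit 53) (nat_lit 251) r7_53 r3_251 (nat_lit 51739) (nat_lit 0) (nat_lit 0) (nat_lit 0x8025c8a44) (nat_lit 1071420663),
  Rx.mk (nat_lit 461) (nat_lit 5) (nat_lit 1) (nat_lit 7) (nat_lit 7) (nat_lit 55) (nat_lit 253) r7_55 r3_253 (nat_lit 0) (nat_lit 0) (nat_lit 0) (nat_lit 0x89c325cac) (nat_lit 915957624)]
noncomputable def e39_7 : List Rx := [
  Rx.mk (nat_lit 268) (nat_lit 4) (nat_lit 1) (nat_lit 4) (nat_lit 2) (nat_lit 217) (nat_lit 250) r7_217 r0_250 (nat_lit 64066468) (nat_lit 0) (nat_lit 3589306) (nat_lit 0x638142464) (nat_lit 1616568698),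
  Rx.mk (nat_lit 269) (nat_lit 5) (nat_lit 1) (nat_lit 4) (nat_lit 3) (nat_lit 219) (nat_lit 252) r7_219 r0_252 (nat_lit 0) (nat_lit 0) (nat_lit 6173437) (nat_lit 0x7b5c8dc0a) (nat_lit 1157338461),
  Rx.mk (nat_lit 332) (nat_lit 4) (nat_lit 1) (nat_lit 5) (nat_lit 6) (nat_lit 218) (nat_lit 251) r7_218 r0_251 (nat_lit 5828588) (nat_lit 0) (nat_lit 0) (nat_lit 0x7fe5c8fd4) (nat_lit 1081422912),
  Rx.mk (nat_lit 333) (nat_lit 5) (nat_lit 1) (nat_lit 5) (nat_lit 7) (nat_lit 220) (nat_lit 253) r7_220 r0_253 (nat_lit 0) (nat_lit 0) (nat_lit 0) (nat_lit 0x8018342e8) (nat_lit 1072357724)]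
noncomputable def e39_8 : List Rx := [
  Rx.mk (nat_lit 332) (nat_lit 4) (nat_lit 1) (nat_lit 5) (nat_lit 6) (nat_lit 221) (nat_lit 256) r7_221 r1_256 (nat_lit 5449534) (nat_lit 0) (nat_lit 0) (nat_lit 0x7f8e54334) (nat_lit 1086711158),
  Rx.mk (nat_lit 333) (nat_lit 5) (nat_lit 1) (nat_lit 5) (nat_lit 7) (nat_lit 222) (nat_lit 257) r7_222 r1_257 (nat_lit 0) (nat_lit 0) (nat_lit 0) (nat_lit 0x80029938e) (nat_lit 1073741824)]
noncomputable def e39_9 : List Rx := [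
  Rx.mk (nat_lit 268) (nat_lit 4) (nat_lit 1) (nat_lit 4) (nat_lit 2) (nat_lit 223) (nat_lit 265) r7_223 r4_265 (nat_lit 34184311) (nat_lit 0) (nat_lit 10345136) (nat_lit 0x6ebe1e59e) (nat_lit 1406084271),
  Rx.mk (nat_lit 269) (nat_lit 5) (nat_lit 1) (nat_lit 4) (nat_lit 3) (nat_lit 226) (nat_lit 268) r7_226 r4_268 (nat_lit 0) (nat_lit 0) (nat_lit 4100018) (nat_lit 0x801ea5dd4) (nat_lit 1076046742),
  Rx.mk (nat_lit 332) (nat_lit 4) (nat_lit 1) (nat_lit 5) (nat_lit 6) (nat_lit 224) (nat_lit 266) r7_224 r4_266 (nat_lit 5449534) (nat_lit 0) (nat_lit 0) (nat_lit 0x80029938e) (nat_lit 1079191358),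
  Rx.mk (nat_lit 333) (nat_lit 5) (nat_lit 1) (nat_lit 5) (nat_lit 7) (nat_lit 227) (nat_lit 269) r7_227 r4_269 (nat_lit 0) (nat_lit 0) (nat_lit 0) (nat_lit 0x80029938e) (nat_lit 1073741824),
  Rx.mk (nat_lit 460) (nat_lit 4) (nat_lit 1) (nat_lit 7) (nat_lit 6) (nat_lit 225) (nat_lit 267) r7_225 r4_267 (nat_lit 4321044) (nat_lit 0) (nat_lit 0) (nat_lit 0x800f26f02) (nat_lit 1077257068),
  Rx.mk (nat_lit 461) (nat_lit 5) (nat_lit 1) (nat_lit 7) (nat_lit 7) (nat_lit 228) (nat_lit 270) r7_228 r4_270 (nat_lit 0) (nat_lit 0) (nat_lit 0) (nat_lit 0x80029938e) (nat_lit 1073741824)]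
noncomputable def e39_10 : List Rx := [
  Rx.mk (nat_lit 197) (nat_lit 5) (nat_lit 0) (nat_lit 3) (nat_lit 5) (nat_lit 282) (nat_lit 282) r7_282 r6_282 (nat_lit 0) (nat_lit 2052120) (nat_lit 0) (nat_lit 0x802554b6c) (nat_lit 1073565444),
  Rx.mk (nat_lit 204) (nat_lit 4) (nat_lit 1) (nat_lit 3) (nat_lit 6) (nat_lit 280) (nat_lit 280) r7_280 r6_280 (nat_lit 1381776) (nat_lit 0) (nat_lit 0) (nat_lit 0x8046be05a) (nat_lit 1070778100),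
  Rx.mk (nat_lit 205) (nat_lit 5) (nat_lit 1) (nat_lit 3) (nat_lit 7) (nat_lit 283) (nat_lit 284) r7_283 r6_284 (nat_lit 0) (nat_lit 0) (nat_lit 0) (nat_lit 0x8061e744e) (nat_lit 1067667324),
  Rx.mk (nat_lit 453) (nat_lit 5) (nat_lit 0) (nat_lit 7) (nat_lit 5) (nat_lit 284) (nat_lit 283) r7_284 r6_283 (nat_lit 0) (nat_lit 1381776) (nat_lit 0) (nat_lit 0x8046be05a) (nat_lit 1070778100),
  Rx.mk (nat_lit 460) (nat_lit 4) (nat_lit 1) (nat_lit 7) (nat_lit 6) (nat_lit 281) (nat_lit 281) r7_281 r6_281 (nat_lit 2052120) (nat_lit 0) (nat_lit 0) (nat_lit 0x802554b6c) (nat_lit 1073565444),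
  Rx.mk (nat_lit 461) (nat_lit 5) (nat_lit 1) (nat_lit 7) (nat_lit 7) (nat_lit 285) (nat_lit 285) r7_285 r6_285 (nat_lit 0) (nat_lit 0) (nat_lit 0) (nat_lit 0x8061e744e) (nat_lit 1067667324)]
noncomputable def e39_11 : List Rx := [
  Rx.mk (nat_lit 460) (nat_lit 4) (nat_lit 1) (nat_lit 7) (nat_lit 6) (nat_lit 286) (nat_lit 256) r7_286 r5_256 (nat_lit 1663775) (nat_lit 0) (nat_lit 0) (nat_lit 0x7ff356e8a) (nat_lit 1076373699),
  Rx.mk (nat_lit 461) (nat_lit 5) (nat_lit 1) (nat_lit 7) (nat_lit 7) (nat_lit 287) (nat_lit 257) r7_287 r5_257 (nat_lit 0) (nat_lit 0) (nat_lit 0) (nat_lit 0x804fac05e) (nat_lit 1068822724)]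
noncomputable def e39_12 : List Rx := [
  Rx.mk (nat_lit 1) (nat_lit 1) (nat_lit 0) (nat_lit 0) (nat_lit 1) (nat_lit 319) (nat_lit 178) r7_319 r0_178 (nat_lit 0) (nat_lit 327140) (nat_lit 944100) (nat_lit 0x5bb8077f4) (nat_lit 1679970364),
  Rx.mk (nat_lit 5) (nat_lit 5) (nat_lit 0) (nat_lit 0) (nat_lit 1) (nat_lit 325) (nat_lit 177) r7_325 r0_177 (nat_lit 0) (nat_lit 216055) (nat_lit 1073466) (nat_lit 0x52f01064a) (nat_lit 1826388745),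
  Rx.mk (nat_lit 9) (nat_lit 1) (nat_lit 1) (nat_lit 0) (nat_lit 3) (nat_lit 320) (nat_lit 180) r7_320 r0_180 (nat_lit 0) (nat_lit 0) (nat_lit 5137059) (nat_lit 0x7a3a629c4) (nat_lit 1175198083),
  Rx.mk (nat_lit 13) (nat_lit 5) (nat_lit 1) (nat_lit 0) (nat_lit 3) (nat_lit 326) (nat_lit 179) r7_326 r0_179 (nat_lit 0) (nat_lit 0) (nat_lit 1922278) (nat_lit 0x6264701d4) (nat_lit 1569386202),
  Rx.mk (nat_lit 17) (nat_lit 1) (nat_lit 2) (nat_lit 0) (nat_lit 3) (nat_lit 321) (nat_lit 181) r7_321 r0_181 (nat_lit 0) (nat_lit 0) (nat_lit 171422861) (nat_lit 0x80556c2a0) (nat_lit 1239814685),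
  Rx.mk (nat_lit 193) (nat_lit 1) (nat_lit 0) (nat_lit 3) (nat_lit 5) (nat_lit 322) (nat_lit 182) r7_322 r0_182 (nat_lit 0) (nat_lit 1461987) (nat_lit 0) (nat_lit 0x7ffe1df6c) (nat_lit 1075483511),
  Rx.mk (nat_lit 201) (nat_lit 1) (nat_lit 1) (nat_lit 3) (nat_lit 7) (nat_lit 323) (nat_lit 183) r7_323 r0_183 (nat_lit 0) (nat_lit 0) (nat_lit 0) (nat_lit 0x802680a22) (nat_lit 1071441624),
  Rx.mk (nat_lit 209) (nat_lit 1) (nat_lit 2) (nat_lit 3) (nat_lit 7) (nat_lit 324) (nat_lit 184) r7_324 r0_184 (nat_lit 0) (nat_lit 0) (nat_lit 0) (nat_lit 0x806ab61b0) (nat_lit 1067109724)]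
noncomputable def e39_13 : List Rx := [
  Rx.mk (nat_lit 1) (nat_lit 1) (nat_lit 0) (nat_lit 0) (nat_lit 1) (nat_lit 327) (nat_lit 327) r7_327 r7_327 (nat_lit 0) (nat_lit 24998902) (nat_lit 24998902) (nat_lit 0x69f022aa4) (nat_lit 1491662228),
  Rx.mk (nat_lit 5) (nat_lit 5) (nat_lit 0) (nat_lit 0) (nat_lit 1) (nat_lit 335) (nat_lit 335) r7_335 r7_335 (nat_lit 0) (nat_lit 2723291) (nat_lit 2723291) (nat_lit 0x6dde73fc0) (nat_lit 1381566606),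
  Rx.mk (nat_lit 9) (nat_lit 1) (nat_lit 1) (nat_lit 0) (nat_lit 3) (nat_lit 328) (nat_lit 330) r7_328 r7_330 (nat_lit 0) (nat_lit 0) (nat_lit 5449534) (nat_lit 0x80029938e) (nat_lit 1079191358),
  Rx.mk (nat_lit 13) (nat_lit 5) (nat_lit 1) (nat_lit 0) (nat_lit 3) (nat_lit 336) (nat_lit 337) r7_336 r7_337 (nat_lit 0) (nat_lit 0) (nat_lit 3906765) (nat_lit 0x80258828c) (nat_lit 1075417389),
  Rx.mk (nat_lit 17) (nat_lit 1) (nat_lit 2) (nat_lit 0) (nat_lit 3) (nat_lit 329) (nat_lit 333) r7_329 r7_333 (nat_lit 0) (nat_lit 0) (nat_lit 5449534) (nat_lit 0x80029938e) (nat_lit 1079191358),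
  Rx.mk (nat_lit 65) (nat_lit 1) (nat_lit 0) (nat_lit 1) (nat_lit 5) (nat_lit 330) (nat_lit 328) r7_330 r7_328 (nat_lit 0) (nat_lit 5449534) (nat_lit 0) (nat_lit 0x80029938e) (nat_lit 1079191358),
  Rx.mk (nat_lit 69) (nat_lit 5) (nat_lit 0) (nat_lit 1) (nat_lit 5) (nat_lit 337) (nat_lit 336) r7_337 r7_336 (nat_lit 0) (nat_lit 3906765) (nat_lit 0) (nat_lit 0x80258828c) (nat_lit 1075417389),
  Rx.mk (nat_lit 73) (nat_lit 1) (nat_lit 1) (nat_lit 1) (nat_lit 7) (nat_lit 331) (nat_lit 331) r7_331 r7_331 (nat_lit 0) (nat_lit 0) (nat_lit 0) (nat_lit 0x80029938e) (nat_lit 1073741824),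
  Rx.mk (nat_lit 77) (nat_lit 5) (nat_lit 1) (nat_lit 1) (nat_lit 7) (nat_lit 338) (nat_lit 338) r7_338 r7_338 (nat_lit 0) (nat_lit 0) (nat_lit 0) (nat_lit 0x80029938e) (nat_lit 1073741824),
  Rx.mk (nat_lit 81) (nat_lit 1) (nat_lit 2) (nat_lit 1) (nat_lit 7) (nat_lit 332) (nat_lit 334) r7_332 r7_334 (nat_lit 0) (nat_lit 0) (nat_lit 0) (nat_lit 0x80029938e) (nat_lit 1073741824),
  Rx.mk (nat_lit 193) (nat_lit 1) (nat_lit 0) (nat_lit 3) (nat_lit 5) (nat_lit 333) (nat_lit 329) r7_333 r7_329 (nat_lit 0) (nat_lit 5449534) (nat_lit 0) (nat_lit 0x80029938e) (nat_lit 1079191358),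
  Rx.mk (nat_lit 201) (nat_lit 1) (nat_lit 1) (nat_lit 3) (nat_lit 7) (nat_lit 334) (nat_lit 332) r7_334 r7_332 (nat_lit 0) (nat_lit 0) (nat_lit 0) (nat_lit 0x80029938e) (nat_lit 1073741824)]
noncomputable def e39_14 : List Rx := [
  Rx.mk (nat_lit 1) (nat_lit 1) (nat_lit 0) (nat_lit 0) (nat_lit 1) (nat_lit 381) (nat_lit 192) r7_381 r1_192 (nat_lit 0) (nat_lit 18024927) (nat_lit 13272121) (nat_lit 0x679c04a46) (nat_lit 1511783172),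
  Rx.mk (nat_lit 9) (nat_lit 1) (nat_lit 1) (nat_lit 0) (nat_lit 3) (nat_lit 382) (nat_lit 193) r7_382 r1_193 (nat_lit 0) (nat_lit 0) (nat_lit 6367424) (nat_lit 0x7fc15ea7c) (nat_lit 1084313548),
  Rx.mk (nat_lit 17) (nat_lit 1) (nat_lit 2) (nat_lit 0) (nat_lit 3) (nat_lit 383) (nat_lit 194) r7_383 r1_194 (nat_lit 0) (nat_lit 0) (nat_lit 50165941) (nat_lit 0x874d452b4) (nat_lit 1005906665),
  Rx.mk (nat_lit 145) (nat_lit 1) (nat_lit 2) (nat_lit 2) (nat_lit 7) (nat_lit 384) (nat_lit 198) r7_384 r1_198 (nat_lit 0) (nat_lit 0) (nat_lit 0) (nat_lit 0x80f9b7260) (nat_lit 1058059324),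
  Rx.mk (nat_lit 193) (nat_lit 1) (nat_lit 0) (nat_lit 3) (nat_lit 5) (nat_lit 385) (nat_lit 195) r7_385 r1_195 (nat_lit 0) (nat_lit 3131027) (nat_lit 0) (nat_lit 0x8039b0930) (nat_lit 1073355051),
  Rx.mk (nat_lit 201) (nat_lit 1) (nat_lit 1) (nat_lit 3) (nat_lit 7) (nat_lit 386) (nat_lit 196) r7_386 r1_196 (nat_lit 0) (nat_lit 0) (nat_lit 0) (nat_lit 0x8013c631e) (nat_lit 1072641324),
  Rx.mk (nat_lit 209) (nat_lit 1) (nat_lit 2) (nat_lit 3) (nat_lit 7) (nat_lit 387) (nat_lit 197) r7_387 r1_197 (nat_lit 0) (nat_lit 0) (nat_lit 0) (nat_lit 0x8013c631e) (nat_lit 1072641324)]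
noncomputable def e39_15 : List Rx := [
  Rx.mk (nat_lit 1) (nat_lit 1) (nat_lit 0) (nat_lit 0) (nat_lit 1) (nat_lit 388) (nat_lit 248) r7_388 r8_248 (nat_lit 0) (nat_lit 18822904) (nat_lit 9806922) (nat_lit 0x645205e84) (nat_lit 1563957550),
  Rx.mk (nat_lit 9) (nat_lit 1) (nat_lit 1) (nat_lit 0) (nat_lit 3) (nat_lit 389) (nat_lit 251) r7_389 r8_251 (nat_lit 0) (nat_lit 0) (nat_lit 5449534) (nat_lit 0x80029938e) (nat_lit 1079191358),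
  Rx.mk (nat_lit 17) (nat_lit 1) (nat_lit 2) (nat_lit 0) (nat_lit 3) (nat_lit 390) (nat_lit 254) r7_390 r8_254 (nat_lit 0) (nat_lit 0) (nat_lit 5560769) (nat_lit 0x800073c4e) (nat_lit 1079440193),
  Rx.mk (nat_lit 65) (nat_lit 1) (nat_lit 0) (nat_lit 1) (nat_lit 5) (nat_lit 391) (nat_lit 249) r7_391 r8_249 (nat_lit 0) (nat_lit 5661505) (nat_lit 0) (nat_lit 0x7ff885e6a) (nat_lit 1080049829),
  Rx.mk (nat_lit 73) (nat_lit 1) (nat_lit 1) (nat_lit 1) (nat_lit 7) (nat_lit 392) (nat_lit 252) r7_392 r8_252 (nat_lit 0) (nat_lit 0) (nat_lit 0) (nat_lit 0x80029938e) (nat_lit 1073741824),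
  Rx.mk (nat_lit 81) (nat_lit 1) (nat_lit 2) (nat_lit 1) (nat_lit 7) (nat_lit 393) (nat_lit 255) r7_393 r8_255 (nat_lit 0) (nat_lit 0) (nat_lit 0) (nat_lit 0x80029938e) (nat_lit 1073741824),
  Rx.mk (nat_lit 145) (nat_lit 1) (nat_lit 2) (nat_lit 2) (nat_lit 7) (nat_lit 394) (nat_lit 256) r7_394 r8_256 (nat_lit 0) (nat_lit 0) (nat_lit 0) (nat_lit 0x80029938e) (nat_lit 1073741824),
  Rx.mk (nat_lit 193) (nat_lit 1) (nat_lit 0) (nat_lit 3) (nat_lit 5) (nat_lit 395) (nat_lit 250) r7_395 r8_250 (nat_lit 0) (nat_lit 5449534) (nat_lit 0) (nat_lit 0x80029938e) (nat_lit 1079191358),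
  Rx.mk (nat_lit 201) (nat_lit 1) (nat_lit 1) (nat_lit 3) (nat_lit 7) (nat_lit 396) (nat_lit 253) r7_396 r8_253 (nat_lit 0) (nat_lit 0) (nat_lit 0) (nat_lit 0x80029938e) (nat_lit 1073741824)]
noncomputable def e39_16 : List Rx := [
  Rx.mk (nat_lit 65) (nat_lit 1) (nat_lit 0) (nat_lit 1) (nat_lit 5) (nat_lit 401) (nat_lit 185) r7_401 r8_185 (nat_lit 0) (nat_lit 5322975) (nat_lit 0) (nat_lit 0x7ffd77ce8) (nat_lit 1079393799),
  Rx.mk (nat_lit 69) (nat_lit 5) (nat_lit 0) (nat_lit 1) (nat_lit 5) (nat_lit 404) (nat_lit 184) r7_404 r8_184 (nat_lit 0) (nat_lit 5449534) (nat_lit 0) (nat_lit 0x80029938e) (nat_lit 1079191358),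
  Rx.mk (nat_lit 73) (nat_lit 1) (nat_lit 1) (nat_lit 1) (nat_lit 7) (nat_lit 402) (nat_lit 187) r7_402 r8_187 (nat_lit 0) (nat_lit 0) (nat_lit 0) (nat_lit 0x80029938e) (nat_lit 1073741824),
  Rx.mk (nat_lit 77) (nat_lit 5) (nat_lit 1) (nat_lit 1) (nat_lit 7) (nat_lit 405) (nat_lit 186) r7_405 r8_186 (nat_lit 0) (nat_lit 0) (nat_lit 0) (nat_lit 0x80029938e) (nat_lit 1073741824),
  Rx.mk (nat_lit 81) (nat_lit 1) (nat_lit 2) (nat_lit 1) (nat_lit 7) (nat_lit 403) (nat_lit 188) r7_403 r8_188 (nat_lit 0) (nat_lit 0) (nat_lit 0) (nat_lit 0x80029938e) (nat_lit 1073741824)]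
noncomputable def e39_17 : List Rx := [
  Rx.mk (nat_lit 73) (nat_lit 1) (nat_lit 1) (nat_lit 1) (nat_lit 7) (nat_lit 406) (nat_lit 257) r7_406 r9_257 (nat_lit 0) (nat_lit 0) (nat_lit 0) (nat_lit 0x80029938e) (nat_lit 1073741824),
  Rx.mk (nat_lit 77) (nat_lit 5) (nat_lit 1) (nat_lit 1) (nat_lit 7) (nat_lit 407) (nat_lit 258) r7_407 r9_258 (nat_lit 0) (nat_lit 0) (nat_lit 0) (nat_lit 0x80029938e) (nat_lit 1073741824),
  Rx.mk (nat_lit 333) (nat_lit 5) (nat_lit 1) (nat_lit 5) (nat_lit 7) (nat_lit 408) (nat_lit 259) r7_408 r9_259 (nat_lit 0) (nat_lit 0) (nat_lit 0) (nat_lit 0x80029938e) (nat_lit 1073741824)]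
noncomputable def e39_18 : List Rx := [
  Rx.mk (nat_lit 5) (nat_lit 5) (nat_lit 0) (nat_lit 0) (nat_lit 1) (nat_lit 427) (nat_lit 167) r7_427 r4_167 (nat_lit 0) (nat_lit 2628537) (nat_lit 6409400) (nat_lit 0x64e7bb690) (nat_lit 1534609061),
  Rx.mk (nat_lit 13) (nat_lit 5) (nat_lit 1) (nat_lit 0) (nat_lit 3) (nat_lit 428) (nat_lit 168) r7_428 r4_168 (nat_lit 0) (nat_lit 0) (nat_lit 4040041) (nat_lit 0x8012909e0) (nat_lit 1076761165),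
  Rx.mk (nat_lit 193) (nat_lit 1) (nat_lit 0) (nat_lit 3) (nat_lit 5) (nat_lit 424) (nat_lit 170) r7_424 r4_170 (nat_lit 0) (nat_lit 2874909) (nat_lit 0) (nat_lit 0x8041c95d6) (nat_lit 1072582433),
  Rx.mk (nat_lit 197) (nat_lit 5) (nat_lit 0) (nat_lit 3) (nat_lit 5) (nat_lit 429) (nat_lit 169) r7_429 r4_169 (nat_lit 0) (nat_lit 1693168) (nat_lit 0) (nat_lit 0x7fb51bd00) (nat_lit 1080428292),
  Rx.mk (nat_lit 201) (nat_lit 1) (nat_lit 1) (nat_lit 3) (nat_lit 7) (nat_lit 425) (nat_lit 172) r7_425 r4_172 (nat_lit 0) (nat_lit 0) (nat_lit 0) (nat_lit 0x80261c34c) (nat_lit 1071470624),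
  Rx.mk (nat_lit 205) (nat_lit 5) (nat_lit 1) (nat_lit 3) (nat_lit 7) (nat_lit 430) (nat_lit 171) r7_430 r4_171 (nat_lit 0) (nat_lit 0) (nat_lit 0) (nat_lit 0x8073a79e0) (nat_lit 1066541824),
  Rx.mk (nat_lit 209) (nat_lit 1) (nat_lit 2) (nat_lit 3) (nat_lit 7) (nat_lit 426) (nat_lit 173) r7_426 r4_173 (nat_lit 0) (nat_lit 0) (nat_lit 0) (nat_lit 0x80261c34c) (nat_lit 1071470624)]
noncomputable def e39_19 : List Rx := [
  Rx.mk (nat_lit 5) (nat_lit 5) (nat_lit 0) (nat_lit 0) (nat_lit 1) (nat_lit 433) (nat_lit 286) r7_433 r10_286 (nat_lit 0) (nat_lit 3562106) (nat_lit 2862197) (nat_lit 0x6f8080cd6) (nat_lit 1355313627),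
  Rx.mk (nat_lit 13) (nat_lit 5) (nat_lit 1) (nat_lit 0) (nat_lit 3) (nat_lit 434) (nat_lit 289) r7_434 r10_289 (nat_lit 0) (nat_lit 0) (nat_lit 5449534) (nat_lit 0x80029938e) (nat_lit 1079191358),
  Rx.mk (nat_lit 69) (nat_lit 5) (nat_lit 0) (nat_lit 1) (nat_lit 5) (nat_lit 435) (nat_lit 287) r7_435 r10_287 (nat_lit 0) (nat_lit 5449534) (nat_lit 0) (nat_lit 0x80029938e) (nat_lit 1079191358),
  Rx.mk (nat_lit 77) (nat_lit 5) (nat_lit 1) (nat_lit 1) (nat_lit 7) (nat_lit 436) (nat_lit 290) r7_436 r10_290 (nat_lit 0) (nat_lit 0) (nat_lit 0) (nat_lit 0x80029938e) (nat_lit 1073741824),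
  Rx.mk (nat_lit 193) (nat_lit 1) (nat_lit 0) (nat_lit 3) (nat_lit 5) (nat_lit 431) (nat_lit 284) r7_431 r10_284 (nat_lit 0) (nat_lit 5449534) (nat_lit 0) (nat_lit 0x80029938e) (nat_lit 1079191358),
  Rx.mk (nat_lit 197) (nat_lit 5) (nat_lit 0) (nat_lit 3) (nat_lit 5) (nat_lit 437) (nat_lit 288) r7_437 r10_288 (nat_lit 0) (nat_lit 5449534) (nat_lit 0) (nat_lit 0x80029938e) (nat_lit 1079191358),
  Rx.mk (nat_lit 201) (nat_lit 1) (nat_lit 1) (nat_lit 3) (nat_lit 7) (nat_lit 432) (nat_lit 285) r7_432 r10_285 (nat_lit 0) (nat_lit 0) (nat_lit 0) (nat_lit 0x80029938e) (nat_lit 1073741824),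
  Rx.mk (nat_lit 205) (nat_lit 5) (nat_lit 1) (nat_lit 3) (nat_lit 7) (nat_lit 438) (nat_lit 291) r7_438 r10_291 (nat_lit 0) (nat_lit 0) (nat_lit 0) (nat_lit 0x80029938e) (nat_lit 1073741824)]
noncomputable def e39_20 : List Rx := [
  Rx.mk (nat_lit 193) (nat_lit 1) (nat_lit 0) (nat_lit 3) (nat_lit 5) (nat_lit 439) (nat_lit 303) r7_439 r11_303 (nat_lit 0) (nat_lit 5449534) (nat_lit 0) (nat_lit 0x80029938e) (nat_lit 1079191358),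
  Rx.mk (nat_lit 197) (nat_lit 5) (nat_lit 0) (nat_lit 3) (nat_lit 5) (nat_lit 442) (nat_lit 306) r7_442 r11_306 (nat_lit 0) (nat_lit 2211577) (nat_lit 0) (nat_lit 0x80826cbe2) (nat_lit 1067819001),
  Rx.mk (nat_lit 201) (nat_lit 1) (nat_lit 1) (nat_lit 3) (nat_lit 7) (nat_lit 440) (nat_lit 304) r7_440 r11_304 (nat_lit 0) (nat_lit 0) (nat_lit 0) (nat_lit 0x80029938e) (nat_lit 1073741824),
  Rx.mk (nat_lit 205) (nat_lit 5) (nat_lit 1) (nat_lit 3) (nat_lit 7) (nat_lit 443) (nat_lit 307) r7_443 r11_307 (nat_lit 0) (nat_lit 0) (nat_lit 0) (nat_lit 0x804af24dc) (nat_lit 1069126324),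
  Rx.mk (nat_lit 209) (nat_lit 1) (nat_lit 2) (nat_lit 3) (nat_lit 7) (nat_lit 441) (nat_lit 305) r7_441 r11_305 (nat_lit 0) (nat_lit 0) (nat_lit 0) (nat_lit 0x80029938e) (nat_lit 1073741824)]
noncomputable def e39_21 : List Rx := [
  Rx.mk (nat_lit 77) (nat_lit 5) (nat_lit 1) (nat_lit 1) (nat_lit 7) (nat_lit 409) (nat_lit 259) r7_409 r9_259 (nat_lit 0) (nat_lit 0) (nat_lit 0) (nat_lit 0x80029938e) (nat_lit 1073741824),
  Rx.mk (nat_lit 333) (nat_lit 5) (nat_lit 1) (nat_lit 5) (nat_lit 7) (nat_lit 410) (nat_lit 258) r7_410 r9_258 (nat_lit 0) (nat_lit 0) (nat_lit 0) (nat_lit 0x80029938e) (nat_lit 1073741824),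
  Rx.mk (nat_lit 365) (nat_lit 5) (nat_lit 5) (nat_lit 5) (nat_lit 7) (nat_lit 411) (nat_lit 257) r7_411 r9_257 (nat_lit 0) (nat_lit 0) (nat_lit 0) (nat_lit 0x80029938e) (nat_lit 1073741824)]
noncomputable def e39_22 : List Rx := [
  Rx.mk (nat_lit 268) (nat_lit 4) (nat_lit 1) (nat_lit 4) (nat_lit 2) (nat_lit 56) (nat_lit 177) r7_56 r0_177 (nat_lit 216055) (nat_lit 0) (nat_lit 1073466) (nat_lit 0x52f01064a) (nat_lit 1826388745),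
  Rx.mk (nat_lit 269) (nat_lit 5) (nat_lit 1) (nat_lit 4) (nat_lit 3) (nat_lit 59) (nat_lit 179) r7_59 r0_179 (nat_lit 0) (nat_lit 0) (nat_lit 1922278) (nat_lit 0x6264701d4) (nat_lit 1569386202),
  Rx.mk (nat_lit 300) (nat_lit 4) (nat_lit 5) (nat_lit 4) (nat_lit 2) (nat_lit 57) (nat_lit 178) r7_57 r0_178 (nat_lit 327140) (nat_lit 0) (nat_lit 944100) (nat_lit 0x5bb8077f4) (nat_lit 1679970364),
  Rx.mk (nat_lit 301) (nat_lit 5) (nat_lit 5) (nat_lit 4) (nat_lit 3) (nat_lit 60) (nat_lit 180) r7_60 r0_180 (nat_lit 0) (nat_lit 0) (nat_lit 5137059) (nat_lit 0x7a3a629c4) (nat_lit 1175198083),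
  Rx.mk (nat_lit 302) (nat_lit 6) (nat_lit 5) (nat_lit 4) (nat_lit 3) (nat_lit 62) (nat_lit 181) r7_62 r0_181 (nat_lit 0) (nat_lit 0) (nat_lit 171422861) (nat_lit 0x80556c2a0) (nat_lit 1239814685),
  Rx.mk (nat_lit 492) (nat_lit 4) (nat_lit 5) (nat_lit 7) (nat_lit 6) (nat_lit 58) (nat_lit 182) r7_58 r0_182 (nat_lit 1461987) (nat_lit 0) (nat_lit 0) (nat_lit 0x7ffe1df6c) (nat_lit 1075483511),
  Rx.mk (nat_lit 493) (nat_lit 5) (nat_lit 5) (nat_lit 7) (nat_lit 7) (nat_lit 61) (nat_lit 183) r7_61 r0_183 (nat_lit 0) (nat_lit 0) (nat_lit 0) (nat_lit 0x802680a22) (nat_lit 1071441624),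
  Rx.mk (nat_lit 494) (nat_lit 6) (nat_lit 5) (nat_lit 7) (nat_lit 7) (nat_lit 63) (nat_lit 184) r7_63 r0_184 (nat_lit 0) (nat_lit 0) (nat_lit 0) (nat_lit 0x806ab61b0) (nat_lit 1067109724)]
noncomputable def e39_23 : List Rx := [
  Rx.mk (nat_lit 300) (nat_lit 4) (nat_lit 5) (nat_lit 4) (nat_lit 2) (nat_lit 64) (nat_lit 192) r7_64 r1_192 (nat_lit 18024927) (nat_lit 0) (nat_lit 13272121) (nat_lit 0x679c04a46) (nat_lit 1511783172),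
  Rx.mk (nat_lit 301) (nat_lit 5) (nat_lit 5) (nat_lit 4) (nat_lit 3) (nat_lit 66) (nat_lit 193) r7_66 r1_193 (nat_lit 0) (nat_lit 0) (nat_lit 6367424) (nat_lit 0x7fc15ea7c) (nat_lit 1084313548),
  Rx.mk (nat_lit 302) (nat_lit 6) (nat_lit 5) (nat_lit 4) (nat_lit 3) (nat_lit 68) (nat_lit 194) r7_68 r1_194 (nat_lit 0) (nat_lit 0) (nat_lit 50165941) (nat_lit 0x874d452b4) (nat_lit 1005906665),
  Rx.mk (nat_lit 430) (nat_lit 6) (nat_lit 5) (nat_lit 6) (nat_lit 7) (nat_lit 69) (nat_lit 198) r7_69 r1_198 (nat_lit 0) (nat_lit 0) (nat_lit 0) (nat_lit 0x80f9b7260) (nat_lit 1058059324),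
  Rx.mk (nat_lit 492) (nat_lit 4) (nat_lit 5) (nat_lit 7) (nat_lit 6) (nat_lit 65) (nat_lit 195) r7_65 r1_195 (nat_lit 3131027) (nat_lit 0) (nat_lit 0) (nat_lit 0x8039b0930) (nat_lit 1073355051),
  Rx.mk (nat_lit 493) (nat_lit 5) (nat_lit 5) (nat_lit 7) (nat_lit 7) (nat_lit 67) (nat_lit 196) r7_67 r1_196 (nat_lit 0) (nat_lit 0) (nat_lit 0) (nat_lit 0x8013c631e) (nat_lit 1072641324),
  Rx.mk (nat_lit 494) (nat_lit 6) (nat_lit 5) (nat_lit 7) (nat_lit 7) (nat_lit 70) (nat_lit 197) r7_70 r1_197 (nat_lit 0) (nat_lit 0) (nat_lit 0) (nat_lit 0x8013c631e) (nat_lit 1072641324)]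
noncomputable def e39_24 : List Rx := [
  Rx.mk (nat_lit 268) (nat_lit 4) (nat_lit 1) (nat_lit 4) (nat_lit 2) (nat_lit 71) (nat_lit 167) r7_71 r4_167 (nat_lit 2628537) (nat_lit 0) (nat_lit 6409400) (nat_lit 0x64e7bb690) (nat_lit 1534609061),
  Rx.mk (nat_lit 269) (nat_lit 5) (nat_lit 1) (nat_lit 4) (nat_lit 3) (nat_lit 74) (nat_lit 168) r7_74 r4_168 (nat_lit 0) (nat_lit 0) (nat_lit 4040041) (nat_lit 0x8012909e0) (nat_lit 1076761165),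
  Rx.mk (nat_lit 460) (nat_lit 4) (nat_lit 1) (nat_lit 7) (nat_lit 6) (nat_lit 72) (nat_lit 169) r7_72 r4_169 (nat_lit 1693168) (nat_lit 0) (nat_lit 0) (nat_lit 0x7fb51bd00) (nat_lit 1080428292),
  Rx.mk (nat_lit 461) (nat_lit 5) (nat_lit 1) (nat_lit 7) (nat_lit 7) (nat_lit 75) (nat_lit 171) r7_75 r4_171 (nat_lit 0) (nat_lit 0) (nat_lit 0) (nat_lit 0x8073a79e0) (nat_lit 1066541824),
  Rx.mk (nat_lit 492) (nat_lit 4) (nat_lit 5) (nat_lit 7) (nat_lit 6) (nat_lit 73) (nat_lit 170) r7_73 r4_170 (nat_lit 2874909) (nat_lit 0) (nat_lit 0) (nat_lit 0x8041c95d6) (nat_lit 1072582433),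
  Rx.mk (nat_lit 493) (nat_lit 5) (nat_lit 5) (nat_lit 7) (nat_lit 7) (nat_lit 76) (nat_lit 172) r7_76 r4_172 (nat_lit 0) (nat_lit 0) (nat_lit 0) (nat_lit 0x80261c34c) (nat_lit 1071470624),
  Rx.mk (nat_lit 494) (nat_lit 6) (nat_lit 5) (nat_lit 7) (nat_lit 7) (nat_lit 77) (nat_lit 173) r7_77 r4_173 (nat_lit 0) (nat_lit 0) (nat_lit 0) (nat_lit 0x80261c34c) (nat_lit 1071470624)]
noncomputable def e39_25 : List Rx := [
  Rx.mk (nat_lit 268) (nat_lit 4) (nat_lit 1) (nat_lit 4) (nat_lit 2) (nat_lit 229) (nat_lit 335) r7_229 r7_335 (nat_lit 2723291) (nat_lit 0) (nat_lit 2723291) (nat_lit 0x6dde73fc0) (nat_lit 1381566606),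
  Rx.mk (nat_lit 269) (nat_lit 5) (nat_lit 1) (nat_lit 4) (nat_lit 3) (nat_lit 234) (nat_lit 337) r7_234 r7_337 (nat_lit 0) (nat_lit 0) (nat_lit 3906765) (nat_lit 0x80258828c) (nat_lit 1075417389),
  Rx.mk (nat_lit 300) (nat_lit 4) (nat_lit 5) (nat_lit 4) (nat_lit 2) (nat_lit 230) (nat_lit 327) r7_230 r7_327 (nat_lit 24998902) (nat_lit 0) (nat_lit 24998902) (nat_lit 0x69f022aa4) (nat_lit 1491662228),
  Rx.mk (nat_lit 301) (nat_lit 5) (nat_lit 5) (nat_lit 4) (nat_lit 3) (nat_lit 235) (nat_lit 330) r7_235 r7_330 (nat_lit 0) (nat_lit 0) (nat_lit 5449534) (nat_lit 0x80029938e) (nat_lit 1079191358),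
  Rx.mk (nat_lit 302) (nat_lit 6) (nat_lit 5) (nat_lit 4) (nat_lit 3) (nat_lit 239) (nat_lit 333) r7_239 r7_333 (nat_lit 0) (nat_lit 0) (nat_lit 5449534) (nat_lit 0x80029938e) (nat_lit 1079191358),
  Rx.mk (nat_lit 332) (nat_lit 4) (nat_lit 1) (nat_lit 5) (nat_lit 6) (nat_lit 231) (nat_lit 336) r7_231 r7_336 (nat_lit 3906765) (nat_lit 0) (nat_lit 0) (nat_lit 0x80258828c) (nat_lit 1075417389),
  Rx.mk (nat_lit 333) (nat_lit 5) (nat_lit 1) (nat_lit 5) (nat_lit 7) (nat_lit 236) (nat_lit 338) r7_236 r7_338 (nat_lit 0) (nat_lit 0) (nat_lit 0) (nat_lit 0x80029938e) (nat_lit 1073741824),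
  Rx.mk (nat_lit 364) (nat_lit 4) (nat_lit 5) (nat_lit 5) (nat_lit 6) (nat_lit 232) (nat_lit 328) r7_232 r7_328 (nat_lit 5449534) (nat_lit 0) (nat_lit 0) (nat_lit 0x80029938e) (nat_lit 1079191358),
  Rx.mk (nat_lit 365) (nat_lit 5) (nat_lit 5) (nat_lit 5) (nat_lit 7) (nat_lit 237) (nat_lit 331) r7_237 r7_331 (nat_lit 0) (nat_lit 0) (nat_lit 0) (nat_lit 0x80029938e) (nat_lit 1073741824),
  Rx.mk (nat_lit 366) (nat_lit 6) (nat_lit 5) (nat_lit 5) (nat_lit 7) (nat_lit 240) (nat_lit 334) r7_240 r7_334 (nat_lit 0) (nat_lit 0) (nat_lit 0) (nat_lit 0x80029938e) (nat_lit 1073741824),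
  Rx.mk (nat_lit 492) (nat_lit 4) (nat_lit 5) (nat_lit 7) (nat_lit 6) (nat_lit 233) (nat_lit 329) r7_233 r7_329 (nat_lit 5449534) (nat_lit 0) (nat_lit 0) (nat_lit 0x80029938e) (nat_lit 1079191358),
  Rx.mk (nat_lit 493) (nat_lit 5) (nat_lit 5) (nat_lit 7) (nat_lit 7) (nat_lit 238) (nat_lit 332) r7_238 r7_332 (nat_lit 0) (nat_lit 0) (nat_lit 0) (nat_lit 0x80029938e) (nat_lit 1073741824)]
noncomputable def e39_26 : List Rx := [
  Rx.mk (nat_lit 300) (nat_lit 4) (nat_lit 5) (nat_lit 4) (nat_lit 2) (nat_lit 246) (nat_lit 248) r7_246 r8_248 (nat_lit 18822904) (nat_lit 0) (nat_lit 9806922) (nat_lit 0x645205e84) (nat_lit 1563957550),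
  Rx.mk (nat_lit 301) (nat_lit 5) (nat_lit 5) (nat_lit 4) (nat_lit 3) (nat_lit 249) (nat_lit 251) r7_249 r8_251 (nat_lit 0) (nat_lit 0) (nat_lit 5449534) (nat_lit 0x80029938e) (nat_lit 1079191358),
  Rx.mk (nat_lit 302) (nat_lit 6) (nat_lit 5) (nat_lit 4) (nat_lit 3) (nat_lit 252) (nat_lit 254) r7_252 r8_254 (nat_lit 0) (nat_lit 0) (nat_lit 5560769) (nat_lit 0x800073c4e) (nat_lit 1079440193),
  Rx.mk (nat_lit 364) (nat_lit 4) (nat_lit 5) (nat_lit 5) (nat_lit 6) (nat_lit 247) (nat_lit 249) r7_247 r8_249 (nat_lit 5661505) (nat_lit 0) (nat_lit 0) (nat_lit 0x7ff885e6a) (nat_lit 1080049829),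
  Rx.mk (nat_lit 365) (nat_lit 5) (nat_lit 5) (nat_lit 5) (nat_lit 7) (nat_lit 250) (nat_lit 252) r7_250 r8_252 (nat_lit 0) (nat_lit 0) (nat_lit 0) (nat_lit 0x80029938e) (nat_lit 1073741824),
  Rx.mk (nat_lit 366) (nat_lit 6) (nat_lit 5) (nat_lit 5) (nat_lit 7) (nat_lit 253) (nat_lit 255) r7_253 r8_255 (nat_lit 0) (nat_lit 0) (nat_lit 0) (nat_lit 0x80029938e) (nat_lit 1073741824),
  Rx.mk (nat_lit 430) (nat_lit 6) (nat_lit 5) (nat_lit 6) (nat_lit 7) (nat_lit 254) (nat_lit 256) r7_254 r8_256 (nat_lit 0) (nat_lit 0) (nat_lit 0) (nat_lit 0x80029938e) (nat_lit 1073741824),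
  Rx.mk (nat_lit 492) (nat_lit 4) (nat_lit 5) (nat_lit 7) (nat_lit 6) (nat_lit 248) (nat_lit 250) r7_248 r8_250 (nat_lit 5449534) (nat_lit 0) (nat_lit 0) (nat_lit 0x80029938e) (nat_lit 1079191358),
  Rx.mk (nat_lit 493) (nat_lit 5) (nat_lit 5) (nat_lit 7) (nat_lit 7) (nat_lit 251) (nat_lit 253) r7_251 r8_253 (nat_lit 0) (nat_lit 0) (nat_lit 0) (nat_lit 0x80029938e) (nat_lit 1073741824)]
noncomputable def e39_27 : List Rx := [
  Rx.mk (nat_lit 332) (nat_lit 4) (nat_lit 1) (nat_lit 5) (nat_lit 6) (nat_lit 241) (nat_lit 184) r7_241 r8_184 (nat_lit 5449534) (nat_lit 0) (nat_lit 0) (nat_lit 0x80029938e) (nat_lit 1079191358),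
  Rx.mk (nat_lit 333) (nat_lit 5) (nat_lit 1) (nat_lit 5) (nat_lit 7) (nat_lit 243) (nat_lit 186) r7_243 r8_186 (nat_lit 0) (nat_lit 0) (nat_lit 0) (nat_lit 0x80029938e) (nat_lit 1073741824),
  Rx.mk (nat_lit 364) (nat_lit 4) (nat_lit 5) (nat_lit 5) (nat_lit 6) (nat_lit 242) (nat_lit 185) r7_242 r8_185 (nat_lit 5322975) (nat_lit 0) (nat_lit 0) (nat_lit 0x7ffd77ce8) (nat_lit 1079393799),
  Rx.mk (nat_lit 365) (nat_lit 5) (nat_lit 5) (nat_lit 5) (nat_lit 7) (nat_lit 244) (nat_lit 187) r7_244 r8_187 (nat_lit 0) (nat_lit 0) (nat_lit 0) (nat_lit 0x80029938e) (nat_lit 1073741824),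
  Rx.mk (nat_lit 366) (nat_lit 6) (nat_lit 5) (nat_lit 5) (nat_lit 7) (nat_lit 245) (nat_lit 188) r7_245 r8_188 (nat_lit 0) (nat_lit 0) (nat_lit 0) (nat_lit 0x80029938e) (nat_lit 1073741824)]
noncomputable def e39_28 : List Rx := [
  Rx.mk (nat_lit 268) (nat_lit 4) (nat_lit 1) (nat_lit 4) (nat_lit 2) (nat_lit 255) (nat_lit 286) r7_255 r10_286 (nat_lit 3562106) (nat_lit 0) (nat_lit 2862197) (nat_lit 0x6f8080cd6) (nat_lit 1355313627),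
  Rx.mk (nat_lit 269) (nat_lit 5) (nat_lit 1) (nat_lit 4) (nat_lit 3) (nat_lit 259) (nat_lit 289) r7_259 r10_289 (nat_lit 0) (nat_lit 0) (nat_lit 5449534) (nat_lit 0x80029938e) (nat_lit 1079191358),
  Rx.mk (nat_lit 332) (nat_lit 4) (nat_lit 1) (nat_lit 5) (nat_lit 6) (nat_lit 256) (nat_lit 287) r7_256 r10_287 (nat_lit 5449534) (nat_lit 0) (nat_lit 0) (nat_lit 0x80029938e) (nat_lit 1079191358),
  Rx.mk (nat_lit 333) (nat_lit 5) (nat_lit 1) (nat_lit 5) (nat_lit 7) (nat_lit 260) (nat_lit 290) r7_260 r10_290 (nat_lit 0) (nat_lit 0) (nat_lit 0) (nat_lit 0x80029938e) (nat_lit 1073741824),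
  Rx.mk (nat_lit 460) (nat_lit 4) (nat_lit 1) (nat_lit 7) (nat_lit 6) (nat_lit 257) (nat_lit 288) r7_257 r10_288 (nat_lit 5449534) (nat_lit 0) (nat_lit 0) (nat_lit 0x80029938e) (nat_lit 1079191358),
  Rx.mk (nat_lit 461) (nat_lit 5) (nat_lit 1) (nat_lit 7) (nat_lit 7) (nat_lit 261) (nat_lit 291) r7_261 r10_291 (nat_lit 0) (nat_lit 0) (nat_lit 0) (nat_lit 0x80029938e) (nat_lit 1073741824),
  Rx.mk (nat_lit 492) (nat_lit 4) (nat_lit 5) (nat_lit 7) (nat_lit 6) (nat_lit 258) (nat_lit 284) r7_258 r10_284 (nat_lit 5449534) (nat_lit 0) (nat_lit 0) (nat_lit 0x80029938e) (nat_lit 1079191358),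
  Rx.mk (nat_lit 493) (nat_lit 5) (nat_lit 5) (nat_lit 7) (nat_lit 7) (nat_lit 262) (nat_lit 285) r7_262 r10_285 (nat_lit 0) (nat_lit 0) (nat_lit 0) (nat_lit 0x80029938e) (nat_lit 1073741824)]
noncomputable def e39_29 : List Rx := [
  Rx.mk (nat_lit 460) (nat_lit 4) (nat_lit 1) (nat_lit 7) (nat_lit 6) (nat_lit 288) (nat_lit 306) r7_288 r11_306 (nat_lit 2211577) (nat_lit 0) (nat_lit 0) (nat_lit 0x80826cbe2) (nat_lit 1067819001),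
  Rx.mk (nat_lit 461) (nat_lit 5) (nat_lit 1) (nat_lit 7) (nat_lit 7) (nat_lit 290) (nat_lit 307) r7_290 r11_307 (nat_lit 0) (nat_lit 0) (nat_lit 0) (nat_lit 0x804af24dc) (nat_lit 1069126324),
  Rx.mk (nat_lit 492) (nat_lit 4) (nat_lit 5) (nat_lit 7) (nat_lit 6) (nat_lit 289) (nat_lit 303) r7_289 r11_303 (nat_lit 5449534) (nat_lit 0) (nat_lit 0) (nat_lit 0x80029938e) (nat_lit 1079191358),
  Rx.mk (nat_lit 493) (nat_lit 5) (nat_lit 5) (nat_lit 7) (nat_lit 7) (nat_lit 291) (nat_lit 304) r7_291 r11_304 (nat_lit 0) (nat_lit 0) (nat_lit 0) (nat_lit 0x80029938e) (nat_lit 1073741824),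
  Rx.mk (nat_lit 494) (nat_lit 6) (nat_lit 5) (nat_lit 7) (nat_lit 7) (nat_lit 292) (nat_lit 305) r7_292 r11_305 (nat_lit 0) (nat_lit 0) (nat_lit 0) (nat_lit 0x80029938e) (nat_lit 1073741824)]
noncomputable def e39_30 : List Rx := [
  Rx.mk (nat_lit 5) (nat_lit 5) (nat_lit 0) (nat_lit 0) (nat_lit 1) (nat_lit 444) (nat_lit 184) r7_444 r5_184 (nat_lit 0) (nat_lit 2284157) (nat_lit 10009322) (nat_lit 0x6e04ad22c) (nat_lit 1385922203),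
  Rx.mk (nat_lit 13) (nat_lit 5) (nat_lit 1) (nat_lit 0) (nat_lit 3) (nat_lit 445) (nat_lit 185) r7_445 r5_185 (nat_lit 0) (nat_lit 0) (nat_lit 5449534) (nat_lit 0x80029938e) (nat_lit 1079191358),
  Rx.mk (nat_lit 197) (nat_lit 5) (nat_lit 0) (nat_lit 3) (nat_lit 5) (nat_lit 446) (nat_lit 186) r7_446 r5_186 (nat_lit 0) (nat_lit 2216475) (nat_lit 0) (nat_lit 0x802e1cf2e) (nat_lit 1073168099),
  Rx.mk (nat_lit 205) (nat_lit 5) (nat_lit 1) (nat_lit 3) (nat_lit 7) (nat_lit 447) (nat_lit 187) r7_447 r5_187 (nat_lit 0) (nat_lit 0) (nat_lit 0) (nat_lit 0x8045fce28) (nat_lit 1069439724),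
  Rx.mk (nat_lit 221) (nat_lit 5) (nat_lit 3) (nat_lit 3) (nat_lit 7) (nat_lit 448) (nat_lit 188) r7_448 r5_188 (nat_lit 0) (nat_lit 0) (nat_lit 0) (nat_lit 0x7fe8d0dda) (nat_lit 1075400424)]
noncomputable def e39_31 : List Rx := [
  Rx.mk (nat_lit 5) (nat_lit 5) (nat_lit 0) (nat_lit 0) (nat_lit 1) (nat_lit 449) (nat_lit 212) r7_449 r11_212 (nat_lit 0) (nat_lit 27051137) (nat_lit 140034131) (nat_lit 0x7b544a5ac) (nat_lit 1318788992),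
  Rx.mk (nat_lit 13) (nat_lit 5) (nat_lit 1) (nat_lit 0) (nat_lit 3) (nat_lit 450) (nat_lit 213) r7_450 r11_213 (nat_lit 0) (nat_lit 0) (nat_lit 5449534) (nat_lit 0x80029938e) (nat_lit 1079191358),
  Rx.mk (nat_lit 69) (nat_lit 5) (nat_lit 0) (nat_lit 1) (nat_lit 5) (nat_lit 451) (nat_lit 214) r7_451 r11_214 (nat_lit 0) (nat_lit 5449534) (nat_lit 0) (nat_lit 0x80029938e) (nat_lit 1079191358),
  Rx.mk (nat_lit 77) (nat_lit 5) (nat_lit 1) (nat_lit 1) (nat_lit 7) (nat_lit 452) (nat_lit 215) r7_452 r11_215 (nat_lit 0) (nat_lit 0) (nat_lit 0) (nat_lit 0x80029938e) (nat_lit 1073741824),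
  Rx.mk (nat_lit 197) (nat_lit 5) (nat_lit 0) (nat_lit 3) (nat_lit 5) (nat_lit 453) (nat_lit 216) r7_453 r11_216 (nat_lit 0) (nat_lit 5449534) (nat_lit 0) (nat_lit 0x80029938e) (nat_lit 1079191358),
  Rx.mk (nat_lit 205) (nat_lit 5) (nat_lit 1) (nat_lit 3) (nat_lit 7) (nat_lit 454) (nat_lit 217) r7_454 r11_217 (nat_lit 0) (nat_lit 0) (nat_lit 0) (nat_lit 0x80029938e) (nat_lit 1073741824),
  Rx.mk (nat_lit 221) (nat_lit 5) (nat_lit 3) (nat_lit 3) (nat_lit 7) (nat_lit 455) (nat_lit 218) r7_455 r11_218 (nat_lit 0) (nat_lit 0) (nat_lit 0) (nat_lit 0x80029938e) (nat_lit 1073741824)]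
noncomputable def e39_32 : List Rx := [
  Rx.mk (nat_lit 199) (nat_lit 7) (nat_lit 0) (nat_lit 3) (nat_lit 5) (nat_lit 84) (nat_lit 114) r7_84 r6_114 (nat_lit 0) (nat_lit 1281739) (nat_lit 0) (nat_lit 0x8015d28a6) (nat_lit 1073788363),
  Rx.mk (nat_lit 207) (nat_lit 7) (nat_lit 1) (nat_lit 3) (nat_lit 7) (nat_lit 85) (nat_lit 115) r7_85 r6_115 (nat_lit 0) (nat_lit 0) (nat_lit 0) (nat_lit 0x80f0600f4) (nat_lit 1058649324),
  Rx.mk (nat_lit 452) (nat_lit 4) (nat_lit 0) (nat_lit 7) (nat_lit 4) (nat_lit 78) (nat_lit 106) r7_78 r6_106 (nat_lit 277079) (nat_lit 264914) (nat_lit 0) (nat_lit 0x6d02a6830) (nat_lit 1390940117),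
  Rx.mk (nat_lit 453) (nat_lit 5) (nat_lit 0) (nat_lit 7) (nat_lit 5) (nat_lit 81) (nat_lit 109) r7_81 r6_109 (nat_lit 0) (nat_lit 1891092) (nat_lit 0) (nat_lit 0x8064b8aba) (nat_lit 1069380816),
  Rx.mk (nat_lit 455) (nat_lit 7) (nat_lit 0) (nat_lit 7) (nat_lit 5) (nat_lit 86) (nat_lit 112) r7_86 r6_112 (nat_lit 0) (nat_lit 5719758) (nat_lit 0) (nat_lit 0x7fc989026) (nat_lit 1083137982),
  Rx.mk (nat_lit 460) (nat_lit 4) (nat_lit 1) (nat_lit 7) (nat_lit 6) (nat_lit 79) (nat_lit 107) r7_79 r6_107 (nat_lit 2237591) (nat_lit 0) (nat_lit 0) (nat_lit 0x8056375b8) (nat_lit 1070643615),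
  Rx.mk (nat_lit 461) (nat_lit 5) (nat_lit 1) (nat_lit 7) (nat_lit 7) (nat_lit 82) (nat_lit 110) r7_82 r6_110 (nat_lit 0) (nat_lit 0) (nat_lit 0) (nat_lit 0x804959148) (nat_lit 1069226624),
  Rx.mk (nat_lit 463) (nat_lit 7) (nat_lit 1) (nat_lit 7) (nat_lit 7) (nat_lit 87) (nat_lit 113) r7_87 r6_113 (nat_lit 0) (nat_lit 0) (nat_lit 0) (nat_lit 0x80029938e) (nat_lit 1073741824),
  Rx.mk (nat_lit 476) (nat_lit 4) (nat_lit 3) (nat_lit 7) (nat_lit 6) (nat_lit 80) (nat_lit 108) r7_80 r6_108 (nat_lit 1598900) (nat_lit 0) (nat_lit 0) (nat_lit 0x80a515d4c) (nat_lit 1065015624),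
  Rx.mk (nat_lit 477) (nat_lit 5) (nat_lit 3) (nat_lit 7) (nat_lit 7) (nat_lit 83) (nat_lit 111) r7_83 r6_111 (nat_lit 0) (nat_lit 0) (nat_lit 0) (nat_lit 0x80aedf3b4) (nat_lit 1062792024)]
noncomputable def e39_33 : List Rx := [
  Rx.mk (nat_lit 268) (nat_lit 4) (nat_lit 1) (nat_lit 4) (nat_lit 2) (nat_lit 88) (nat_lit 184) r7_88 r5_184 (nat_lit 2284157) (nat_lit 0) (nat_lit 10009322) (nat_lit 0x6e04ad22c) (nat_lit 1385922203),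
  Rx.mk (nat_lit 269) (nat_lit 5) (nat_lit 1) (nat_lit 4) (nat_lit 3) (nat_lit 90) (nat_lit 185) r7_90 r5_185 (nat_lit 0) (nat_lit 0) (nat_lit 5449534) (nat_lit 0x80029938e) (nat_lit 1079191358),
  Rx.mk (nat_lit 460) (nat_lit 4) (nat_lit 1) (nat_lit 7) (nat_lit 6) (nat_lit 89) (nat_lit 186) r7_89 r5_186 (nat_lit 2216475) (nat_lit 0) (nat_lit 0) (nat_lit 0x802e1cf2e) (nat_lit 1073168099),
  Rx.mk (nat_lit 461) (nat_lit 5) (nat_lit 1) (nat_lit 7) (nat_lit 7) (nat_lit 91) (nat_lit 187) r7_91 r5_187 (nat_lit 0) (nat_lit 0) (nat_lit 0) (nat_lit 0x8045fce28) (nat_lit 1069439724),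
  Rx.mk (nat_lit 463) (nat_lit 7) (nat_lit 1) (nat_lit 7) (nat_lit 7) (nat_lit 92) (nat_lit 188) r7_92 r5_188 (nat_lit 0) (nat_lit 0) (nat_lit 0) (nat_lit 0x7fe8d0dda) (nat_lit 1075400424)]
noncomputable def e39_34 : List Rx := [
  Rx.mk (nat_lit 268) (nat_lit 4) (nat_lit 1) (nat_lit 4) (nat_lit 2) (nat_lit 263) (nat_lit 212) r7_263 r11_212 (nat_lit 27051137) (nat_lit 0) (nat_lit 140034131) (nat_lit 0x7b544a5ac) (nat_lit 1318788992),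
  Rx.mk (nat_lit 269) (nat_lit 5) (nat_lit 1) (nat_lit 4) (nat_lit 3) (nat_lit 266) (nat_lit 213) r7_266 r11_213 (nat_lit 0) (nat_lit 0) (nat_lit 5449534) (nat_lit 0x80029938e) (nat_lit 1079191358),
  Rx.mk (nat_lit 332) (nat_lit 4) (nat_lit 1) (nat_lit 5) (nat_lit 6) (nat_lit 264) (nat_lit 214) r7_264 r11_214 (nat_lit 5449534) (nat_lit 0) (nat_lit 0) (nat_lit 0x80029938e) (nat_lit 1079191358),
  Rx.mk (nat_lit 333) (nat_lit 5) (nat_lit 1) (nat_lit 5) (nat_lit 7) (nat_lit 267) (nat_lit 215) r7_267 r11_215 (nat_lit 0) (nat_lit 0) (nat_lit 0) (nat_lit 0x80029938e) (nat_lit 1073741824),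
  Rx.mk (nat_lit 460) (nat_lit 4) (nat_lit 1) (nat_lit 7) (nat_lit 6) (nat_lit 265) (nat_lit 216) r7_265 r11_216 (nat_lit 5449534) (nat_lit 0) (nat_lit 0) (nat_lit 0x80029938e) (nat_lit 1079191358),
  Rx.mk (nat_lit 461) (nat_lit 5) (nat_lit 1) (nat_lit 7) (nat_lit 7) (nat_lit 268) (nat_lit 217) r7_268 r11_217 (nat_lit 0) (nat_lit 0) (nat_lit 0) (nat_lit 0x80029938e) (nat_lit 1073741824),
  Rx.mk (nat_lit 463) (nat_lit 7) (nat_lit 1) (nat_lit 7) (nat_lit 7) (nat_lit 269) (nat_lit 218) r7_269 r11_218 (nat_lit 0) (nat_lit 0) (nat_lit 0) (nat_lit 0x80029938e) (nat_lit 1073741824)]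
noncomputable def e39_35 : List Rx := [
  Rx.mk (nat_lit 196) (nat_lit 4) (nat_lit 0) (nat_lit 3) (nat_lit 4) (nat_lit 293) (nat_lit 106) r7_293 r6_106 (nat_lit 264914) (nat_lit 277079) (nat_lit 0) (nat_lit 0x6d02a6830) (nat_lit 1390940117),
  Rx.mk (nat_lit 197) (nat_lit 5) (nat_lit 0) (nat_lit 3) (nat_lit 5) (nat_lit 297) (nat_lit 107) r7_297 r6_107 (nat_lit 0) (nat_lit 2237591) (nat_lit 0) (nat_lit 0x8056375b8) (nat_lit 1070643615),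
  Rx.mk (nat_lit 199) (nat_lit 7) (nat_lit 0) (nat_lit 3) (nat_lit 5) (nat_lit 301) (nat_lit 108) r7_301 r6_108 (nat_lit 0) (nat_lit 1598900) (nat_lit 0) (nat_lit 0x80a515d4c) (nat_lit 1065015624),
  Rx.mk (nat_lit 204) (nat_lit 4) (nat_lit 1) (nat_lit 3) (nat_lit 6) (nat_lit 294) (nat_lit 109) r7_294 r6_109 (nat_lit 1891092) (nat_lit 0) (nat_lit 0) (nat_lit 0x8064b8aba) (nat_lit 1069380816),
  Rx.mk (nat_lit 205) (nat_lit 5) (nat_lit 1) (nat_lit 3) (nat_lit 7) (nat_lit 298) (nat_lit 110) r7_298 r6_110 (nat_lit 0) (nat_lit 0) (nat_lit 0) (nat_lit 0x804959148) (nat_lit 1069226624),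
  Rx.mk (nat_lit 207) (nat_lit 7) (nat_lit 1) (nat_lit 3) (nat_lit 7) (nat_lit 302) (nat_lit 111) r7_302 r6_111 (nat_lit 0) (nat_lit 0) (nat_lit 0) (nat_lit 0x80aedf3b4) (nat_lit 1062792024),
  Rx.mk (nat_lit 220) (nat_lit 4) (nat_lit 3) (nat_lit 3) (nat_lit 6) (nat_lit 295) (nat_lit 112) r7_295 r6_112 (nat_lit 5719758) (nat_lit 0) (nat_lit 0) (nat_lit 0x7fc989026) (nat_lit 1083137982),
  Rx.mk (nat_lit 221) (nat_lit 5) (nat_lit 3) (nat_lit 3) (nat_lit 7) (nat_lit 299) (nat_lit 113) r7_299 r6_113 (nat_lit 0) (nat_lit 0) (nat_lit 0) (nat_lit 0x80029938e) (nat_lit 1073741824),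
  Rx.mk (nat_lit 476) (nat_lit 4) (nat_lit 3) (nat_lit 7) (nat_lit 6) (nat_lit 296) (nat_lit 114) r7_296 r6_114 (nat_lit 1281739) (nat_lit 0) (nat_lit 0) (nat_lit 0x8015d28a6) (nat_lit 1073788363),
  Rx.mk (nat_lit 477) (nat_lit 5) (nat_lit 3) (nat_lit 7) (nat_lit 7) (nat_lit 300) (nat_lit 115) r7_300 r6_115 (nat_lit 0) (nat_lit 0) (nat_lit 0) (nat_lit 0x80f0600f4) (nat_lit 1058649324)]
noncomputable def e39_36 : List Rx := [
  Rx.mk (nat_lit 196) (nat_lit 4) (nat_lit 0) (nat_lit 3) (nat_lit 4) (nat_lit 303) (nat_lit 332) r7_303 r12_332 (nat_lit 146579) (nat_lit 155548) (nat_lit 0) (nat_lit 0x6d6500044) (nat_lit 1384285151),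
  Rx.mk (nat_lit 197) (nat_lit 5) (nat_lit 0) (nat_lit 3) (nat_lit 5) (nat_lit 308) (nat_lit 337) r7_308 r12_337 (nat_lit 0) (nat_lit 1674776) (nat_lit 0) (nat_lit 0x80296d58c) (nat_lit 1072913600),
  Rx.mk (nat_lit 199) (nat_lit 7) (nat_lit 0) (nat_lit 3) (nat_lit 5) (nat_lit 313) (nat_lit 342) r7_313 r12_342 (nat_lit 0) (nat_lit 1048552) (nat_lit 0) (nat_lit 0x8019d1236) (nat_lit 1073292576),
  Rx.mk (nat_lit 204) (nat_lit 4) (nat_lit 1) (nat_lit 3) (nat_lit 6) (nat_lit 304) (nat_lit 334) r7_304 r12_334 (nat_lit 1167101) (nat_lit 0) (nat_lit 0) (nat_lit 0x83e5cf1aa) (nat_lit 1011968725),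
  Rx.mk (nat_lit 205) (nat_lit 5) (nat_lit 1) (nat_lit 3) (nat_lit 7) (nat_lit 309) (nat_lit 339) r7_309 r12_339 (nat_lit 0) (nat_lit 0) (nat_lit 0) (nat_lit 0x80fc0fe2c) (nat_lit 1057910624),
  Rx.mk (nat_lit 207) (nat_lit 7) (nat_lit 1) (nat_lit 3) (nat_lit 7) (nat_lit 314) (nat_lit 343) r7_314 r12_343 (nat_lit 0) (nat_lit 0) (nat_lit 0) (nat_lit 0x8ba799e96) (nat_lit 885357024),
  Rx.mk (nat_lit 452) (nat_lit 4) (nat_lit 0) (nat_lit 7) (nat_lit 4) (nat_lit 305) (nat_lit 333) r7_305 r12_333 (nat_lit 155548) (nat_lit 146579) (nat_lit 0) (nat_lit 0x6d6500044) (nat_lit 1384285151),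
  Rx.mk (nat_lit 453) (nat_lit 5) (nat_lit 0) (nat_lit 7) (nat_lit 5) (nat_lit 310) (nat_lit 338) r7_310 r12_338 (nat_lit 0) (nat_lit 1167101) (nat_lit 0) (nat_lit 0x83e5cf1aa) (nat_lit 1011968725),
  Rx.mk (nat_lit 460) (nat_lit 4) (nat_lit 1) (nat_lit 7) (nat_lit 6) (nat_lit 306) (nat_lit 335) r7_306 r12_335 (nat_lit 1674776) (nat_lit 0) (nat_lit 0) (nat_lit 0x80296d58c) (nat_lit 1072913600),
  Rx.mk (nat_lit 461) (nat_lit 5) (nat_lit 1) (nat_lit 7) (nat_lit 7) (nat_lit 311) (nat_lit 340) r7_311 r12_340 (nat_lit 0) (nat_lit 0) (nat_lit 0) (nat_lit 0x80fc0fe2c) (nat_lit 1057910624),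
  Rx.mk (nat_lit 476) (nat_lit 4) (nat_lit 3) (nat_lit 7) (nat_lit 6) (nat_lit 307) (nat_lit 336) r7_307 r12_336 (nat_lit 1048552) (nat_lit 0) (nat_lit 0) (nat_lit 0x8019d1236) (nat_lit 1073292576),
  Rx.mk (nat_lit 477) (nat_lit 5) (nat_lit 3) (nat_lit 7) (nat_lit 7) (nat_lit 312) (nat_lit 341) r7_312 r12_341 (nat_lit 0) (nat_lit 0) (nat_lit 0) (nat_lit 0x8ba799e96) (nat_lit 885357024)]
noncomputable def e39_37 : List Rx := [
  Rx.mk (nat_lit 223) (nat_lit 7) (nat_lit 3) (nat_lit 3) (nat_lit 7) (nat_lit 8) (nat_lit 104) r7_8 r0_104 (nat_lit 0) (nat_lit 0) (nat_lit 0) (nat_lit 0x7ff7bb07a) (nat_lit 1074439424),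
  Rx.mk (nat_lit 294) (nat_lit 6) (nat_lit 4) (nat_lit 4) (nat_lit 1) (nat_lit 2) (nat_lit 105) r7_2 r0_105 (nat_lit 0) (nat_lit 146838) (nat_lit 747955) (nat_lit 0x5e9ce2aac) (nat_lit 1631332817),
  Rx.mk (nat_lit 316) (nat_lit 4) (nat_lit 7) (nat_lit 4) (nat_lit 2) (nat_lit 0) (nat_lit 100) r7_0 r0_100 (nat_lit 16582240) (nat_lit 0) (nat_lit 12742526) (nat_lit 0x6135e2f48) (nat_lit 1616501090),
  Rx.mk (nat_lit 318) (nat_lit 6) (nat_lit 7) (nat_lit 4) (nat_lit 3) (nat_lit 3) (nat_lit 106) r7_3 r0_106 (nat_lit 0) (nat_lit 0) (nat_lit 26061368) (nat_lit 0x7f3c3650c) (nat_lit 1112650392),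
  Rx.mk (nat_lit 422) (nat_lit 6) (nat_lit 4) (nat_lit 6) (nat_lit 5) (nat_lit 4) (nat_lit 108) r7_4 r0_108 (nat_lit 0) (nat_lit 4219351) (nat_lit 0) (nat_lit 0x735136a1c) (nat_lit 1289505675),
  Rx.mk (nat_lit 438) (nat_lit 6) (nat_lit 6) (nat_lit 6) (nat_lit 7) (nat_lit 5) (nat_lit 110) r7_5 r0_110 (nat_lit 0) (nat_lit 0) (nat_lit 0) (nat_lit 0x7ff997768) (nat_lit 1074319724),
  Rx.mk (nat_lit 446) (nat_lit 6) (nat_lit 7) (nat_lit 6) (nat_lit 7) (nat_lit 6) (nat_lit 109) r7_6 r0_109 (nat_lit 0) (nat_lit 0) (nat_lit 0) (nat_lit 0x7ff9f25aa) (nat_lit 1074297324),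
  Rx.mk (nat_lit 479) (nat_lit 7) (nat_lit 3) (nat_lit 7) (nat_lit 7) (nat_lit 9) (nat_lit 103) r7_9 r0_103 (nat_lit 0) (nat_lit 0) (nat_lit 0) (nat_lit 0x80029938e) (nat_lit 1073741824),
  Rx.mk (nat_lit 508) (nat_lit 4) (nat_lit 7) (nat_lit 7) (nat_lit 6) (nat_lit 1) (nat_lit 101) r7_1 r0_101 (nat_lit 2775314) (nat_lit 0) (nat_lit 0) (nat_lit 0x6ed474154) (nat_lit 1362877338),
  Rx.mk (nat_lit 510) (nat_lit 6) (nat_lit 7) (nat_lit 7) (nat_lit 7) (nat_lit 7) (nat_lit 107) r7_7 r0_107 (nat_lit 0) (nat_lit 0) (nat_lit 0) (nat_lit 0x7fecaec36) (nat_lit 1075148224),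
  Rx.mk (nat_lit 511) (nat_lit 7) (nat_lit 7) (nat_lit 7) (nat_lit 7) (nat_lit 10) (nat_lit 102) r7_10 r0_102 (nat_lit 0) (nat_lit 0) (nat_lit 0) (nat_lit 0x7f8d00f78) (nat_lit 1081343624)]
noncomputable def e39_38 : List Rx := [
  Rx.mk (nat_lit 3) (nat_lit 3) (nat_lit 0) (nat_lit 0) (nat_lit 1) (nat_lit 96) (nat_lit 100) r7_96 r0_100 (nat_lit 0) (nat_lit 16582240) (nat_lit 12742526) (nat_lit 0x6135e2f48) (nat_lit 1616501090),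
  Rx.mk (nat_lit 16) (nat_lit 0) (nat_lit 2) (nat_lit 0) (nat_lit 2) (nat_lit 93) (nat_lit 105) r7_93 r0_105 (nat_lit 146838) (nat_lit 0) (nat_lit 747955) (nat_lit 0x5e9ce2aac) (nat_lit 1631332817),
  Rx.mk (nat_lit 19) (nat_lit 3) (nat_lit 2) (nat_lit 0) (nat_lit 3) (nat_lit 97) (nat_lit 106) r7_97 r0_106 (nat_lit 0) (nat_lit 0) (nat_lit 26061368) (nat_lit 0x7f3c3650c) (nat_lit 1112650392),
  Rx.mk (nat_lit 144) (nat_lit 0) (nat_lit 2) (nat_lit 2) (nat_lit 6) (nat_lit 94) (nat_lit 108) r7_94 r0_108 (nat_lit 4219351) (nat_lit 0) (nat_lit 0) (nat_lit 0x735136a1c) (nat_lit 1289505675),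
  Rx.mk (nat_lit 146) (nat_lit 2) (nat_lit 2) (nat_lit 2) (nat_lit 7) (nat_lit 95) (nat_lit 110) r7_95 r0_110 (nat_lit 0) (nat_lit 0) (nat_lit 0) (nat_lit 0x7ff997768) (nat_lit 1074319724),
  Rx.mk (nat_lit 147) (nat_lit 3) (nat_lit 2) (nat_lit 2) (nat_lit 7) (nat_lit 98) (nat_lit 109) r7_98 r0_109 (nat_lit 0) (nat_lit 0) (nat_lit 0) (nat_lit 0x7ff9f25aa) (nat_lit 1074297324),
  Rx.mk (nat_lit 195) (nat_lit 3) (nat_lit 0) (nat_lit 3) (nat_lit 5) (nat_lit 99) (nat_lit 101) r7_99 r0_101 (nat_lit 0) (nat_lit 2775314) (nat_lit 0) (nat_lit 0x6ed474154) (nat_lit 1362877338),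
  Rx.mk (nat_lit 211) (nat_lit 3) (nat_lit 2) (nat_lit 3) (nat_lit 7) (nat_lit 100) (nat_lit 107) r7_100 r0_107 (nat_lit 0) (nat_lit 0) (nat_lit 0) (nat_lit 0x7fecaec36) (nat_lit 1075148224),
  Rx.mk (nat_lit 219) (nat_lit 3) (nat_lit 3) (nat_lit 3) (nat_lit 7) (nat_lit 101) (nat_lit 102) r7_101 r0_102 (nat_lit 0) (nat_lit 0) (nat_lit 0) (nat_lit 0x7f8d00f78) (nat_lit 1081343624),
  Rx.mk (nat_lit 223) (nat_lit 7) (nat_lit 3) (nat_lit 3) (nat_lit 7) (nat_lit 102) (nat_lit 103) r7_102 r0_103 (nat_lit 0) (nat_lit 0) (nat_lit 0) (nat_lit 0x80029938e) (nat_lit 1073741824),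
  Rx.mk (nat_lit 479) (nat_lit 7) (nat_lit 3) (nat_lit 7) (nat_lit 7) (nat_lit 103) (nat_lit 104) r7_103 r0_104 (nat_lit 0) (nat_lit 0) (nat_lit 0) (nat_lit 0x7ff7bb07a) (nat_lit 1074439424)]
noncomputable def e39_39 : List Rx := [
  Rx.mk (nat_lit 3) (nat_lit 3) (nat_lit 0) (nat_lit 0) (nat_lit 1) (nat_lit 109) (nat_lit 117) r7_109 r7_117 (nat_lit 0) (nat_lit 126869) (nat_lit 152198) (nat_lit 0x6481272c6) (nat_lit 1532484491),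
  Rx.mk (nat_lit 16) (nat_lit 0) (nat_lit 2) (nat_lit 0) (nat_lit 2) (nat_lit 104) (nat_lit 115) r7_104 r7_115 (nat_lit 126869) (nat_lit 0) (nat_lit 152198) (nat_lit 0x6481272c6) (nat_lit 1532484491),
  Rx.mk (nat_lit 19) (nat_lit 3) (nat_lit 2) (nat_lit 0) (nat_lit 3) (nat_lit 110) (nat_lit 118) r7_110 r7_118 (nat_lit 0) (nat_lit 0) (nat_lit 6216449) (nat_lit 0x7f3437dba) (nat_lit 1093328873),
  Rx.mk (nat_lit 144) (nat_lit 0) (nat_lit 2) (nat_lit 2) (nat_lit 6) (nat_lit 105) (nat_lit 116) r7_105 r7_116 (nat_lit 1677355) (nat_lit 0) (nat_lit 0) (nat_lit 0x7fc971d40) (nat_lit 1079107579),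
  Rx.mk (nat_lit 146) (nat_lit 2) (nat_lit 2) (nat_lit 2) (nat_lit 7) (nat_lit 106) (nat_lit 125) r7_106 r7_125 (nat_lit 0) (nat_lit 0) (nat_lit 0) (nat_lit 0x80029938e) (nat_lit 1073741824),
  Rx.mk (nat_lit 147) (nat_lit 3) (nat_lit 2) (nat_lit 2) (nat_lit 7) (nat_lit 111) (nat_lit 122) r7_111 r7_122 (nat_lit 0) (nat_lit 0) (nat_lit 0) (nat_lit 0x802fbebfc) (nat_lit 1070857524),
  Rx.mk (nat_lit 178) (nat_lit 2) (nat_lit 6) (nat_lit 2) (nat_lit 7) (nat_lit 107) (nat_lit 124) r7_107 r7_124 (nat_lit 0) (nat_lit 0) (nat_lit 0) (nat_lit 0x80029938e) (nat_lit 1073741824),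
  Rx.mk (nat_lit 195) (nat_lit 3) (nat_lit 0) (nat_lit 3) (nat_lit 5) (nat_lit 112) (nat_lit 119) r7_112 r7_119 (nat_lit 0) (nat_lit 1677355) (nat_lit 0) (nat_lit 0x7fc971d40) (nat_lit 1079107579),
  Rx.mk (nat_lit 211) (nat_lit 3) (nat_lit 2) (nat_lit 3) (nat_lit 7) (nat_lit 113) (nat_lit 121) r7_113 r7_121 (nat_lit 0) (nat_lit 0) (nat_lit 0) (nat_lit 0x802fbebfc) (nat_lit 1070857524),
  Rx.mk (nat_lit 219) (nat_lit 3) (nat_lit 3) (nat_lit 3) (nat_lit 7) (nat_lit 114) (nat_lit 120) r7_114 r7_120 (nat_lit 0) (nat_lit 0) (nat_lit 0) (nat_lit 0x80029938e) (nat_lit 1073741824),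
  Rx.mk (nat_lit 223) (nat_lit 7) (nat_lit 3) (nat_lit 3) (nat_lit 7) (nat_lit 123) (nat_lit 108) r7_123 r7_108 (nat_lit 0) (nat_lit 0) (nat_lit 0) (nat_lit 0x80029938e) (nat_lit 1073741824),
  Rx.mk (nat_lit 294) (nat_lit 6) (nat_lit 4) (nat_lit 4) (nat_lit 1) (nat_lit 117) (nat_lit 109) r7_117 r7_109 (nat_lit 0) (nat_lit 126869) (nat_lit 152198) (nat_lit 0x6481272c6) (nat_lit 1532484491),
  Rx.mk (nat_lit 316) (nat_lit 4) (nat_lit 7) (nat_lit 4) (nat_lit 2) (nat_lit 115) (nat_lit 104) r7_115 r7_104 (nat_lit 126869) (nat_lit 0) (nat_lit 152198) (nat_lit 0x6481272c6) (nat_lit 1532484491),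
  Rx.mk (nat_lit 318) (nat_lit 6) (nat_lit 7) (nat_lit 4) (nat_lit 3) (nat_lit 118) (nat_lit 110) r7_118 r7_110 (nat_lit 0) (nat_lit 0) (nat_lit 6216449) (nat_lit 0x7f3437dba) (nat_lit 1093328873),
  Rx.mk (nat_lit 422) (nat_lit 6) (nat_lit 4) (nat_lit 6) (nat_lit 5) (nat_lit 119) (nat_lit 112) r7_119 r7_112 (nat_lit 0) (nat_lit 1677355) (nat_lit 0) (nat_lit 0x7fc971d40) (nat_lit 1079107579),
  Rx.mk (nat_lit 434) (nat_lit 2) (nat_lit 6) (nat_lit 6) (nat_lit 7) (nat_lit 108) (nat_lit 123) r7_108 r7_123 (nat_lit 0) (nat_lit 0) (nat_lit 0) (nat_lit 0x80029938e) (nat_lit 1073741824),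
  Rx.mk (nat_lit 438) (nat_lit 6) (nat_lit 6) (nat_lit 6) (nat_lit 7) (nat_lit 120) (nat_lit 114) r7_120 r7_114 (nat_lit 0) (nat_lit 0) (nat_lit 0) (nat_lit 0x80029938e) (nat_lit 1073741824),
  Rx.mk (nat_lit 446) (nat_lit 6) (nat_lit 7) (nat_lit 6) (nat_lit 7) (nat_lit 121) (nat_lit 113) r7_121 r7_113 (nat_lit 0) (nat_lit 0) (nat_lit 0) (nat_lit 0x802fbebfc) (nat_lit 1070857524),
  Rx.mk (nat_lit 479) (nat_lit 7) (nat_lit 3) (nat_lit 7) (nat_lit 7) (nat_lit 124) (nat_lit 107) r7_124 r7_107 (nat_lit 0) (nat_lit 0) (nat_lit 0) (nat_lit 0x80029938e) (nat_lit 1073741824),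
  Rx.mk (nat_lit 508) (nat_lit 4) (nat_lit 7) (nat_lit 7) (nat_lit 6) (nat_lit 116) (nat_lit 105) r7_116 r7_105 (nat_lit 1677355) (nat_lit 0) (nat_lit 0) (nat_lit 0x7fc971d40) (nat_lit 1079107579),
  Rx.mk (nat_lit 510) (nat_lit 6) (nat_lit 7) (nat_lit 7) (nat_lit 7) (nat_lit 122) (nat_lit 111) r7_122 r7_111 (nat_lit 0) (nat_lit 0) (nat_lit 0) (nat_lit 0x802fbebfc) (nat_lit 1070857524),
  Rx.mk (nat_lit 511) (nat_lit 7) (nat_lit 7) (nat_lit 7) (nat_lit 7) (nat_lit 125) (nat_lit 106) r7_125 r7_106 (nat_lit 0) (nat_lit 0) (nat_lit 0) (nat_lit 0x80029938e) (nat_lit 1073741824)]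
noncomputable def e39_40 : List Rx := [
  Rx.mk (nat_lit 0) (nat_lit 0) (nat_lit 0) (nat_lit 0) (nat_lit 0) (nat_lit 339) (nat_lit 101) r7_339 r2_101 (nat_lit 194986) (nat_lit 161181) (nat_lit 399938) (nat_lit 0x36448175a) (nat_lit 2303875029),
  Rx.mk (nat_lit 1) (nat_lit 1) (nat_lit 0) (nat_lit 0) (nat_lit 1) (nat_lit 344) (nat_lit 102) r7_344 r2_102 (nat_lit 0) (nat_lit 5199218) (nat_lit 5488875) (nat_lit 0x56490c8ae) (nat_lit 1780021717),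
  Rx.mk (nat_lit 16) (nat_lit 0) (nat_lit 2) (nat_lit 0) (nat_lit 2) (nat_lit 340) (nat_lit 107) r7_340 r2_107 (nat_lit 3553214) (nat_lit 0) (nat_lit 11611348) (nat_lit 0x6c960b1d0) (nat_lit 1412675886),
  Rx.mk (nat_lit 17) (nat_lit 1) (nat_lit 2) (nat_lit 0) (nat_lit 3) (nat_lit 345) (nat_lit 108) r7_345 r2_108 (nat_lit 0) (nat_lit 0) (nat_lit 5449534) (nat_lit 0x800095baa) (nat_lit 1079320458),
  Rx.mk (nat_lit 144) (nat_lit 0) (nat_lit 2) (nat_lit 2) (nat_lit 6) (nat_lit 341) (nat_lit 112) r7_341 r2_112 (nat_lit 5449534) (nat_lit 0) (nat_lit 0) (nat_lit 0x7ffaf9476) (nat_lit 1079680458),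
  Rx.mk (nat_lit 145) (nat_lit 1) (nat_lit 2) (nat_lit 2) (nat_lit 7) (nat_lit 346) (nat_lit 113) r7_346 r2_113 (nat_lit 0) (nat_lit 0) (nat_lit 0) (nat_lit 0x80029938e) (nat_lit 1073741824),
  Rx.mk (nat_lit 146) (nat_lit 2) (nat_lit 2) (nat_lit 2) (nat_lit 7) (nat_lit 349) (nat_lit 114) r7_349 r2_114 (nat_lit 0) (nat_lit 0) (nat_lit 0) (nat_lit 0x80029938e) (nat_lit 1073741824),
  Rx.mk (nat_lit 192) (nat_lit 0) (nat_lit 0) (nat_lit 3) (nat_lit 4) (nat_lit 342) (nat_lit 103) r7_342 r2_103 (nat_lit 1909851) (nat_lit 1580289) (nat_lit 0) (nat_lit 0x70324666e) (nat_lit 1340803264),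
  Rx.mk (nat_lit 193) (nat_lit 1) (nat_lit 0) (nat_lit 3) (nat_lit 5) (nat_lit 347) (nat_lit 104) r7_347 r2_104 (nat_lit 0) (nat_lit 5449534) (nat_lit 0) (nat_lit 0x80029938e) (nat_lit 1079191358),
  Rx.mk (nat_lit 195) (nat_lit 3) (nat_lit 0) (nat_lit 3) (nat_lit 5) (nat_lit 350) (nat_lit 105) r7_350 r2_105 (nat_lit 0) (nat_lit 5449534) (nat_lit 0) (nat_lit 0x7ffed32b8) (nat_lit 1079433358),
  Rx.mk (nat_lit 208) (nat_lit 0) (nat_lit 2) (nat_lit 3) (nat_lit 6) (nat_lit 343) (nat_lit 109) r7_343 r2_109 (nat_lit 5449534) (nat_lit 0) (nat_lit 0) (nat_lit 0x7ffc30790) (nat_lit 1079602458),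
  Rx.mk (nat_lit 209) (nat_lit 1) (nat_lit 2) (nat_lit 3) (nat_lit 7) (nat_lit 348) (nat_lit 110) r7_348 r2_110 (nat_lit 0) (nat_lit 0) (nat_lit 0) (nat_lit 0x80029938e) (nat_lit 1073741824),
  Rx.mk (nat_lit 211) (nat_lit 3) (nat_lit 2) (nat_lit 3) (nat_lit 7) (nat_lit 351) (nat_lit 111) r7_351 r2_111 (nat_lit 0) (nat_lit 0) (nat_lit 0) (nat_lit 0x80029938e) (nat_lit 1073741824),
  Rx.mk (nat_lit 219) (nat_lit 3) (nat_lit 3) (nat_lit 3) (nat_lit 7) (nat_lit 352) (nat_lit 106) r7_352 r2_106 (nat_lit 0) (nat_lit 0) (nat_lit 0) (nat_lit 0x80029938e) (nat_lit 1073741824)]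
noncomputable def e39_41 : List Rx := [
  Rx.mk (nat_lit 0) (nat_lit 0) (nat_lit 0) (nat_lit 0) (nat_lit 0) (nat_lit 366) (nat_lit 68) r7_366 r9_68 (nat_lit 3385952) (nat_lit 3477128) (nat_lit 11576654) (nat_lit 0x34c2f965c) (nat_lit 2346711858),
  Rx.mk (nat_lit 1) (nat_lit 1) (nat_lit 0) (nat_lit 0) (nat_lit 1) (nat_lit 371) (nat_lit 69) r7_371 r9_69 (nat_lit 0) (nat_lit 7389909) (nat_lit 44159155) (nat_lit 0x66138ffea) (nat_lit 1557598988),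
  Rx.mk (nat_lit 16) (nat_lit 0) (nat_lit 2) (nat_lit 0) (nat_lit 2) (nat_lit 367) (nat_lit 74) r7_367 r9_74 (nat_lit 6241714) (nat_lit 0) (nat_lit 7900979) (nat_lit 0x694fdda3a) (nat_lit 1466245017),
  Rx.mk (nat_lit 17) (nat_lit 1) (nat_lit 2) (nat_lit 0) (nat_lit 3) (nat_lit 372) (nat_lit 75) r7_372 r9_75 (nat_lit 0) (nat_lit 0) (nat_lit 5449534) (nat_lit 0x7fffb0fc8) (nat_lit 1079377758),
  Rx.mk (nat_lit 144) (nat_lit 0) (nat_lit 2) (nat_lit 2) (nat_lit 6) (nat_lit 368) (nat_lit 79) r7_368 r9_79 (nat_lit 5449534) (nat_lit 0) (nat_lit 0) (nat_lit 0x7ff64ac54) (nat_lit 1079981358),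
  Rx.mk (nat_lit 145) (nat_lit 1) (nat_lit 2) (nat_lit 2) (nat_lit 7) (nat_lit 373) (nat_lit 80) r7_373 r9_80 (nat_lit 0) (nat_lit 0) (nat_lit 0) (nat_lit 0x80029938e) (nat_lit 1073741824),
  Rx.mk (nat_lit 146) (nat_lit 2) (nat_lit 2) (nat_lit 2) (nat_lit 7) (nat_lit 376) (nat_lit 81) r7_376 r9_81 (nat_lit 0) (nat_lit 0) (nat_lit 0) (nat_lit 0x80029938e) (nat_lit 1073741824),
  Rx.mk (nat_lit 178) (nat_lit 2) (nat_lit 6) (nat_lit 2) (nat_lit 7) (nat_lit 377) (nat_lit 82) r7_377 r9_82 (nat_lit 0) (nat_lit 0) (nat_lit 0) (nat_lit 0x80029938e) (nat_lit 1073741824),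
  Rx.mk (nat_lit 192) (nat_lit 0) (nat_lit 0) (nat_lit 3) (nat_lit 4) (nat_lit 369) (nat_lit 70) r7_369 r9_70 (nat_lit 4914479) (nat_lit 5437810) (nat_lit 0) (nat_lit 0x6b8d41d70) (nat_lit 1425110413),
  Rx.mk (nat_lit 193) (nat_lit 1) (nat_lit 0) (nat_lit 3) (nat_lit 5) (nat_lit 374) (nat_lit 71) r7_374 r9_71 (nat_lit 0) (nat_lit 5449534) (nat_lit 0) (nat_lit 0x80029938e) (nat_lit 1079191358),
  Rx.mk (nat_lit 195) (nat_lit 3) (nat_lit 0) (nat_lit 3) (nat_lit 5) (nat_lit 378) (nat_lit 72) r7_378 r9_72 (nat_lit 0) (nat_lit 5449534) (nat_lit 0) (nat_lit 0x80029938e) (nat_lit 1079191358),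
  Rx.mk (nat_lit 208) (nat_lit 0) (nat_lit 2) (nat_lit 3) (nat_lit 6) (nat_lit 370) (nat_lit 76) r7_370 r9_76 (nat_lit 5449534) (nat_lit 0) (nat_lit 0) (nat_lit 0x7ff6b914a) (nat_lit 1079953558),
  Rx.mk (nat_lit 209) (nat_lit 1) (nat_lit 2) (nat_lit 3) (nat_lit 7) (nat_lit 375) (nat_lit 77) r7_375 r9_77 (nat_lit 0) (nat_lit 0) (nat_lit 0) (nat_lit 0x80029938e) (nat_lit 1073741824),
  Rx.mk (nat_lit 211) (nat_lit 3) (nat_lit 2) (nat_lit 3) (nat_lit 7) (nat_lit 379) (nat_lit 78) r7_379 r9_78 (nat_lit 0) (nat_lit 0) (nat_lit 0) (nat_lit 0x80029938e) (nat_lit 1073741824),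
  Rx.mk (nat_lit 219) (nat_lit 3) (nat_lit 3) (nat_lit 3) (nat_lit 7) (nat_lit 380) (nat_lit 73) r7_380 r9_73 (nat_lit 0) (nat_lit 0) (nat_lit 0) (nat_lit 0x80029938e) (nat_lit 1073741824)]
noncomputable def e39_42 : List Rx := [
  Rx.mk (nat_lit 0) (nat_lit 0) (nat_lit 0) (nat_lit 0) (nat_lit 0) (nat_lit 353) (nat_lit 170) r7_353 r9_170 (nat_lit 3490957) (nat_lit 3541065) (nat_lit 5426102) (nat_lit 0x36db834e6) (nat_lit 2305784648),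
  Rx.mk (nat_lit 1) (nat_lit 1) (nat_lit 0) (nat_lit 0) (nat_lit 1) (nat_lit 357) (nat_lit 171) r7_357 r9_171 (nat_lit 0) (nat_lit 7908726) (nat_lit 9592768) (nat_lit 0x655f6e5e8) (nat_lit 1535282018),
  Rx.mk (nat_lit 16) (nat_lit 0) (nat_lit 2) (nat_lit 0) (nat_lit 2) (nat_lit 354) (nat_lit 172) r7_354 r9_172 (nat_lit 8202458) (nat_lit 0) (nat_lit 8284346) (nat_lit 0x6b8996482) (nat_lit 1431483228),
  Rx.mk (nat_lit 17) (nat_lit 1) (nat_lit 2) (nat_lit 0) (nat_lit 3) (nat_lit 358) (nat_lit 173) r7_358 r9_173 (nat_lit 0) (nat_lit 0) (nat_lit 5542978) (nat_lit 0x7ffdca448) (nat_lit 1079593202),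
  Rx.mk (nat_lit 65) (nat_lit 1) (nat_lit 0) (nat_lit 1) (nat_lit 5) (nat_lit 359) (nat_lit 174) r7_359 r9_174 (nat_lit 0) (nat_lit 5575825) (nat_lit 0) (nat_lit 0x7ffab038e) (nat_lit 1079825149),
  Rx.mk (nat_lit 81) (nat_lit 1) (nat_lit 2) (nat_lit 1) (nat_lit 7) (nat_lit 360) (nat_lit 175) r7_360 r9_175 (nat_lit 0) (nat_lit 0) (nat_lit 0) (nat_lit 0x80029938e) (nat_lit 1073741824),
  Rx.mk (nat_lit 144) (nat_lit 0) (nat_lit 2) (nat_lit 2) (nat_lit 6) (nat_lit 355) (nat_lit 180) r7_355 r9_180 (nat_lit 5449534) (nat_lit 0) (nat_lit 0) (nat_lit 0x7ffcbd500) (nat_lit 1079567158),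
  Rx.mk (nat_lit 145) (nat_lit 1) (nat_lit 2) (nat_lit 2) (nat_lit 7) (nat_lit 361) (nat_lit 181) r7_361 r9_181 (nat_lit 0) (nat_lit 0) (nat_lit 0) (nat_lit 0x80029938e) (nat_lit 1073741824),
  Rx.mk (nat_lit 146) (nat_lit 2) (nat_lit 2) (nat_lit 2) (nat_lit 7) (nat_lit 363) (nat_lit 182) r7_363 r9_182 (nat_lit 0) (nat_lit 0) (nat_lit 0) (nat_lit 0x80029938e) (nat_lit 1073741824),
  Rx.mk (nat_lit 192) (nat_lit 0) (nat_lit 0) (nat_lit 3) (nat_lit 4) (nat_lit 356) (nat_lit 176) r7_356 r9_176 (nat_lit 7072192) (nat_lit 7551398) (nat_lit 0) (nat_lit 0x6f426cc38) (nat_lit 1367563814),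
  Rx.mk (nat_lit 193) (nat_lit 1) (nat_lit 0) (nat_lit 3) (nat_lit 5) (nat_lit 362) (nat_lit 177) r7_362 r9_177 (nat_lit 0) (nat_lit 5449534) (nat_lit 0) (nat_lit 0x80029938e) (nat_lit 1079191358),
  Rx.mk (nat_lit 195) (nat_lit 3) (nat_lit 0) (nat_lit 3) (nat_lit 5) (nat_lit 364) (nat_lit 178) r7_364 r9_178 (nat_lit 0) (nat_lit 5449534) (nat_lit 0) (nat_lit 0x80029938e) (nat_lit 1079191358),
  Rx.mk (nat_lit 219) (nat_lit 3) (nat_lit 3) (nat_lit 3) (nat_lit 7) (nat_lit 365) (nat_lit 179) r7_365 r9_179 (nat_lit 0) (nat_lit 0) (nat_lit 0) (nat_lit 0x80029938e) (nat_lit 1073741824)]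
noncomputable def e39_43 : List Rx := [
  Rx.mk (nat_lit 0) (nat_lit 0) (nat_lit 0) (nat_lit 0) (nat_lit 0) (nat_lit 126) (nat_lit 107) r7_126 r1_107 (nat_lit 861237) (nat_lit 1562278) (nat_lit 10629653) (nat_lit 0x3d73cabcc) (nat_lit 2196411992),
  Rx.mk (nat_lit 3) (nat_lit 3) (nat_lit 0) (nat_lit 0) (nat_lit 1) (nat_lit 130) (nat_lit 108) r7_130 r1_108 (nat_lit 0) (nat_lit 16900660) (nat_lit 181791674) (nat_lit 0x795055188) (nat_lit 1384004258),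
  Rx.mk (nat_lit 16) (nat_lit 0) (nat_lit 2) (nat_lit 0) (nat_lit 2) (nat_lit 127) (nat_lit 111) r7_127 r1_111 (nat_lit 764768) (nat_lit 0) (nat_lit 2019292) (nat_lit 0x637a26ad6) (nat_lit 1552157184),
  Rx.mk (nat_lit 19) (nat_lit 3) (nat_lit 2) (nat_lit 0) (nat_lit 3) (nat_lit 131) (nat_lit 112) r7_131 r1_112 (nat_lit 0) (nat_lit 0) (nat_lit 6527677) (nat_lit 0x7ff713d3e) (nat_lit 1081006201),
  Rx.mk (nat_lit 144) (nat_lit 0) (nat_lit 2) (nat_lit 2) (nat_lit 6) (nat_lit 128) (nat_lit 114) r7_128 r1_114 (nat_lit 3945399) (nat_lit 0) (nat_lit 0) (nat_lit 0x7a30f8c9e) (nat_lit 1174620723),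
  Rx.mk (nat_lit 146) (nat_lit 2) (nat_lit 2) (nat_lit 2) (nat_lit 7) (nat_lit 129) (nat_lit 116) r7_129 r1_116 (nat_lit 0) (nat_lit 0) (nat_lit 0) (nat_lit 0x80029938e) (nat_lit 1073741824),
  Rx.mk (nat_lit 147) (nat_lit 3) (nat_lit 2) (nat_lit 2) (nat_lit 7) (nat_lit 132) (nat_lit 115) r7_132 r1_115 (nat_lit 0) (nat_lit 0) (nat_lit 0) (nat_lit 0x80029938e) (nat_lit 1073741824),
  Rx.mk (nat_lit 195) (nat_lit 3) (nat_lit 0) (nat_lit 3) (nat_lit 5) (nat_lit 133) (nat_lit 109) r7_133 r1_109 (nat_lit 0) (nat_lit 4413768) (nat_lit 0) (nat_lit 0x800030c78) (nat_lit 1078308092),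
  Rx.mk (nat_lit 211) (nat_lit 3) (nat_lit 2) (nat_lit 3) (nat_lit 7) (nat_lit 134) (nat_lit 113) r7_134 r1_113 (nat_lit 0) (nat_lit 0) (nat_lit 0) (nat_lit 0x8017d4d3e) (nat_lit 1072381924),
  Rx.mk (nat_lit 219) (nat_lit 3) (nat_lit 3) (nat_lit 3) (nat_lit 7) (nat_lit 135) (nat_lit 110) r7_135 r1_110 (nat_lit 0) (nat_lit 0) (nat_lit 0) (nat_lit 0x80029938e) (nat_lit 1073741824)]
noncomputable def e39_44 : List Rx := [
  Rx.mk (nat_lit 0) (nat_lit 0) (nat_lit 0) (nat_lit 0) (nat_lit 0) (nat_lit 136) (nat_lit 78) r7_136 r8_78 (nat_lit 3697174) (nat_lit 3078217) (nat_lit 9910720) (nat_lit 0x365589f52) (nat_lit 2318735535),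
  Rx.mk (nat_lit 3) (nat_lit 3) (nat_lit 0) (nat_lit 0) (nat_lit 1) (nat_lit 142) (nat_lit 81) r7_142 r8_81 (nat_lit 0) (nat_lit 2813309) (nat_lit 2289832) (nat_lit 0x6a26a4636) (nat_lit 1443213565),
  Rx.mk (nat_lit 16) (nat_lit 0) (nat_lit 2) (nat_lit 0) (nat_lit 2) (nat_lit 137) (nat_lit 79) r7_137 r8_79 (nat_lit 5820576) (nat_lit 0) (nat_lit 5833776) (nat_lit 0x62f217bb8) (nat_lit 1569901976),
  Rx.mk (nat_lit 19) (nat_lit 3) (nat_lit 2) (nat_lit 0) (nat_lit 3) (nat_lit 143) (nat_lit 82) r7_143 r8_82 (nat_lit 0) (nat_lit 0) (nat_lit 5449534) (nat_lit 0x7ffb2a422) (nat_lit 1079668258),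
  Rx.mk (nat_lit 144) (nat_lit 0) (nat_lit 2) (nat_lit 2) (nat_lit 6) (nat_lit 138) (nat_lit 80) r7_138 r8_80 (nat_lit 3594568) (nat_lit 0) (nat_lit 0) (nat_lit 0x7ff2cfe44) (nat_lit 1078347292),
  Rx.mk (nat_lit 146) (nat_lit 2) (nat_lit 2) (nat_lit 2) (nat_lit 7) (nat_lit 139) (nat_lit 89) r7_139 r8_89 (nat_lit 0) (nat_lit 0) (nat_lit 0) (nat_lit 0x80029938e) (nat_lit 1073741824),
  Rx.mk (nat_lit 147) (nat_lit 3) (nat_lit 2) (nat_lit 2) (nat_lit 7) (nat_lit 144) (nat_lit 86) r7_144 r8_86 (nat_lit 0) (nat_lit 0) (nat_lit 0) (nat_lit 0x80029938e) (nat_lit 1073741824),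
  Rx.mk (nat_lit 178) (nat_lit 2) (nat_lit 6) (nat_lit 2) (nat_lit 7) (nat_lit 140) (nat_lit 88) r7_140 r8_88 (nat_lit 0) (nat_lit 0) (nat_lit 0) (nat_lit 0x80029938e) (nat_lit 1073741824),
  Rx.mk (nat_lit 195) (nat_lit 3) (nat_lit 0) (nat_lit 3) (nat_lit 5) (nat_lit 145) (nat_lit 83) r7_145 r8_83 (nat_lit 0) (nat_lit 5449534) (nat_lit 0) (nat_lit 0x7ffa30abc) (nat_lit 1079730858),
  Rx.mk (nat_lit 211) (nat_lit 3) (nat_lit 2) (nat_lit 3) (nat_lit 7) (nat_lit 146) (nat_lit 85) r7_146 r8_85 (nat_lit 0) (nat_lit 0) (nat_lit 0) (nat_lit 0x80029938e) (nat_lit 1073741824),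
  Rx.mk (nat_lit 219) (nat_lit 3) (nat_lit 3) (nat_lit 3) (nat_lit 7) (nat_lit 147) (nat_lit 84) r7_147 r8_84 (nat_lit 0) (nat_lit 0) (nat_lit 0) (nat_lit 0x80029938e) (nat_lit 1073741824),
  Rx.mk (nat_lit 434) (nat_lit 2) (nat_lit 6) (nat_lit 6) (nat_lit 7) (nat_lit 141) (nat_lit 87) r7_141 r8_87 (nat_lit 0) (nat_lit 0) (nat_lit 0) (nat_lit 0x80029938e) (nat_lit 1073741824)]
noncomputable def e39_45 : List Rx := [
  Rx.mk (nat_lit 292) (nat_lit 4) (nat_lit 4) (nat_lit 4) (nat_lit 0) (nat_lit 11) (nat_lit 107) r7_11 r1_107 (nat_lit 1562278) (nat_lit 861237) (nat_lit 10629653) (nat_lit 0x3d73cabcc) (nat_lit 2196411992),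
  Rx.mk (nat_lit 294) (nat_lit 6) (nat_lit 4) (nat_lit 4) (nat_lit 1) (nat_lit 14) (nat_lit 111) r7_14 r1_111 (nat_lit 0) (nat_lit 764768) (nat_lit 2019292) (nat_lit 0x637a26ad6) (nat_lit 1552157184),
  Rx.mk (nat_lit 316) (nat_lit 4) (nat_lit 7) (nat_lit 4) (nat_lit 2) (nat_lit 12) (nat_lit 108) r7_12 r1_108 (nat_lit 16900660) (nat_lit 0) (nat_lit 181791674) (nat_lit 0x795055188) (nat_lit 1384004258),
  Rx.mk (nat_lit 318) (nat_lit 6) (nat_lit 7) (nat_lit 4) (nat_lit 3) (nat_lit 15) (nat_lit 112) r7_15 r1_112 (nat_lit 0) (nat_lit 0) (nat_lit 6527677) (nat_lit 0x7ff713d3e) (nat_lit 1081006201),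
  Rx.mk (nat_lit 422) (nat_lit 6) (nat_lit 4) (nat_lit 6) (nat_lit 5) (nat_lit 16) (nat_lit 114) r7_16 r1_114 (nat_lit 0) (nat_lit 3945399) (nat_lit 0) (nat_lit 0x7a30f8c9e) (nat_lit 1174620723),
  Rx.mk (nat_lit 438) (nat_lit 6) (nat_lit 6) (nat_lit 6) (nat_lit 7) (nat_lit 17) (nat_lit 116) r7_17 r1_116 (nat_lit 0) (nat_lit 0) (nat_lit 0) (nat_lit 0x80029938e) (nat_lit 1073741824),
  Rx.mk (nat_lit 446) (nat_lit 6) (nat_lit 7) (nat_lit 6) (nat_lit 7) (nat_lit 18) (nat_lit 115) r7_18 r1_115 (nat_lit 0) (nat_lit 0) (nat_lit 0) (nat_lit 0x80029938e) (nat_lit 1073741824),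
  Rx.mk (nat_lit 508) (nat_lit 4) (nat_lit 7) (nat_lit 7) (nat_lit 6) (nat_lit 13) (nat_lit 109) r7_13 r1_109 (nat_lit 4413768) (nat_lit 0) (nat_lit 0) (nat_lit 0x800030c78) (nat_lit 1078308092),
  Rx.mk (nat_lit 510) (nat_lit 6) (nat_lit 7) (nat_lit 7) (nat_lit 7) (nat_lit 19) (nat_lit 113) r7_19 r1_113 (nat_lit 0) (nat_lit 0) (nat_lit 0) (nat_lit 0x8017d4d3e) (nat_lit 1072381924),
  Rx.mk (nat_lit 511) (nat_lit 7) (nat_lit 7) (nat_lit 7) (nat_lit 7) (nat_lit 20) (nat_lit 110) r7_20 r1_110 (nat_lit 0) (nat_lit 0) (nat_lit 0) (nat_lit 0x80029938e) (nat_lit 1073741824)]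
noncomputable def e39_46 : List Rx := [
  Rx.mk (nat_lit 292) (nat_lit 4) (nat_lit 4) (nat_lit 4) (nat_lit 0) (nat_lit 21) (nat_lit 101) r7_21 r2_101 (nat_lit 161181) (nat_lit 194986) (nat_lit 399938) (nat_lit 0x36448175a) (nat_lit 2303875029),
  Rx.mk (nat_lit 294) (nat_lit 6) (nat_lit 4) (nat_lit 4) (nat_lit 1) (nat_lit 26) (nat_lit 107) r7_26 r2_107 (nat_lit 0) (nat_lit 3553214) (nat_lit 11611348) (nat_lit 0x6c960b1d0) (nat_lit 1412675886),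
  Rx.mk (nat_lit 300) (nat_lit 4) (nat_lit 5) (nat_lit 4) (nat_lit 2) (nat_lit 22) (nat_lit 102) r7_22 r2_102 (nat_lit 5199218) (nat_lit 0) (nat_lit 5488875) (nat_lit 0x56490c8ae) (nat_lit 1780021717),
  Rx.mk (nat_lit 302) (nat_lit 6) (nat_lit 5) (nat_lit 4) (nat_lit 3) (nat_lit 27) (nat_lit 108) r7_27 r2_108 (nat_lit 0) (nat_lit 0) (nat_lit 5449534) (nat_lit 0x800095baa) (nat_lit 1079320458),
  Rx.mk (nat_lit 422) (nat_lit 6) (nat_lit 4) (nat_lit 6) (nat_lit 5) (nat_lit 28) (nat_lit 112) r7_28 r2_112 (nat_lit 0) (nat_lit 5449534) (nat_lit 0) (nat_lit 0x7ffaf9476) (nat_lit 1079680458),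
  Rx.mk (nat_lit 430) (nat_lit 6) (nat_lit 5) (nat_lit 6) (nat_lit 7) (nat_lit 29) (nat_lit 113) r7_29 r2_113 (nat_lit 0) (nat_lit 0) (nat_lit 0) (nat_lit 0x80029938e) (nat_lit 1073741824),
  Rx.mk (nat_lit 438) (nat_lit 6) (nat_lit 6) (nat_lit 6) (nat_lit 7) (nat_lit 30) (nat_lit 114) r7_30 r2_114 (nat_lit 0) (nat_lit 0) (nat_lit 0) (nat_lit 0x80029938e) (nat_lit 1073741824),
  Rx.mk (nat_lit 484) (nat_lit 4) (nat_lit 4) (nat_lit 7) (nat_lit 4) (nat_lit 23) (nat_lit 103) r7_23 r2_103 (nat_lit 1580289) (nat_lit 1909851) (nat_lit 0) (nat_lit 0x70324666e) (nat_lit 1340803264),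
  Rx.mk (nat_lit 486) (nat_lit 6) (nat_lit 4) (nat_lit 7) (nat_lit 5) (nat_lit 31) (nat_lit 109) r7_31 r2_109 (nat_lit 0) (nat_lit 5449534) (nat_lit 0) (nat_lit 0x7ffc30790) (nat_lit 1079602458),
  Rx.mk (nat_lit 492) (nat_lit 4) (nat_lit 5) (nat_lit 7) (nat_lit 6) (nat_lit 24) (nat_lit 104) r7_24 r2_104 (nat_lit 5449534) (nat_lit 0) (nat_lit 0) (nat_lit 0x80029938e) (nat_lit 1079191358),
  Rx.mk (nat_lit 494) (nat_lit 6) (nat_lit 5) (nat_lit 7) (nat_lit 7) (nat_lit 32) (nat_lit 110) r7_32 r2_110 (nat_lit 0) (nat_lit 0) (nat_lit 0) (nat_lit 0x80029938e) (nat_lit 1073741824),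
  Rx.mk (nat_lit 508) (nat_lit 4) (nat_lit 7) (nat_lit 7) (nat_lit 6) (nat_lit 25) (nat_lit 105) r7_25 r2_105 (nat_lit 5449534) (nat_lit 0) (nat_lit 0) (nat_lit 0x7ffed32b8) (nat_lit 1079433358),
  Rx.mk (nat_lit 510) (nat_lit 6) (nat_lit 7) (nat_lit 7) (nat_lit 7) (nat_lit 33) (nat_lit 111) r7_33 r2_111 (nat_lit 0) (nat_lit 0) (nat_lit 0) (nat_lit 0x80029938e) (nat_lit 1073741824),
  Rx.mk (nat_lit 511) (nat_lit 7) (nat_lit 7) (nat_lit 7) (nat_lit 7) (nat_lit 34) (nat_lit 106) r7_34 r2_106 (nat_lit 0) (nat_lit 0) (nat_lit 0) (nat_lit 0x80029938e) (nat_lit 1073741824)]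
noncomputable def e39_47 : List Rx := [
  Rx.mk (nat_lit 178) (nat_lit 2) (nat_lit 6) (nat_lit 2) (nat_lit 7) (nat_lit 148) (nat_lit 87) r7_148 r8_87 (nat_lit 0) (nat_lit 0) (nat_lit 0) (nat_lit 0x80029938e) (nat_lit 1073741824),
  Rx.mk (nat_lit 292) (nat_lit 4) (nat_lit 4) (nat_lit 4) (nat_lit 0) (nat_lit 150) (nat_lit 78) r7_150 r8_78 (nat_lit 3078217) (nat_lit 3697174) (nat_lit 9910720) (nat_lit 0x365589f52) (nat_lit 2318735535),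
  Rx.mk (nat_lit 294) (nat_lit 6) (nat_lit 4) (nat_lit 4) (nat_lit 1) (nat_lit 153) (nat_lit 79) r7_153 r8_79 (nat_lit 0) (nat_lit 5820576) (nat_lit 5833776) (nat_lit 0x62f217bb8) (nat_lit 1569901976),
  Rx.mk (nat_lit 316) (nat_lit 4) (nat_lit 7) (nat_lit 4) (nat_lit 2) (nat_lit 151) (nat_lit 81) r7_151 r8_81 (nat_lit 2813309) (nat_lit 0) (nat_lit 2289832) (nat_lit 0x6a26a4636) (nat_lit 1443213565),
  Rx.mk (nat_lit 318) (nat_lit 6) (nat_lit 7) (nat_lit 4) (nat_lit 3) (nat_lit 154) (nat_lit 82) r7_154 r8_82 (nat_lit 0) (nat_lit 0) (nat_lit 5449534) (nat_lit 0x7ffb2a422) (nat_lit 1079668258),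
  Rx.mk (nat_lit 422) (nat_lit 6) (nat_lit 4) (nat_lit 6) (nat_lit 5) (nat_lit 155) (nat_lit 80) r7_155 r8_80 (nat_lit 0) (nat_lit 3594568) (nat_lit 0) (nat_lit 0x7ff2cfe44) (nat_lit 1078347292),
  Rx.mk (nat_lit 434) (nat_lit 2) (nat_lit 6) (nat_lit 6) (nat_lit 7) (nat_lit 149) (nat_lit 88) r7_149 r8_88 (nat_lit 0) (nat_lit 0) (nat_lit 0) (nat_lit 0x80029938e) (nat_lit 1073741824),
  Rx.mk (nat_lit 438) (nat_lit 6) (nat_lit 6) (nat_lit 6) (nat_lit 7) (nat_lit 156) (nat_lit 89) r7_156 r8_89 (nat_lit 0) (nat_lit 0) (nat_lit 0) (nat_lit 0x80029938e) (nat_lit 1073741824),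
  Rx.mk (nat_lit 446) (nat_lit 6) (nat_lit 7) (nat_lit 6) (nat_lit 7) (nat_lit 157) (nat_lit 86) r7_157 r8_86 (nat_lit 0) (nat_lit 0) (nat_lit 0) (nat_lit 0x80029938e) (nat_lit 1073741824),
  Rx.mk (nat_lit 508) (nat_lit 4) (nat_lit 7) (nat_lit 7) (nat_lit 6) (nat_lit 152) (nat_lit 83) r7_152 r8_83 (nat_lit 5449534) (nat_lit 0) (nat_lit 0) (nat_lit 0x7ffa30abc) (nat_lit 1079730858),
  Rx.mk (nat_lit 510) (nat_lit 6) (nat_lit 7) (nat_lit 7) (nat_lit 7) (nat_lit 158) (nat_lit 85) r7_158 r8_85 (nat_lit 0) (nat_lit 0) (nat_lit 0) (nat_lit 0x80029938e) (nat_lit 1073741824),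
  Rx.mk (nat_lit 511) (nat_lit 7) (nat_lit 7) (nat_lit 7) (nat_lit 7) (nat_lit 159) (nat_lit 84) r7_159 r8_84 (nat_lit 0) (nat_lit 0) (nat_lit 0) (nat_lit 0x80029938e) (nat_lit 1073741824)]
noncomputable def e39_48 : List Rx := [
  Rx.mk (nat_lit 292) (nat_lit 4) (nat_lit 4) (nat_lit 4) (nat_lit 0) (nat_lit 161) (nat_lit 68) r7_161 r9_68 (nat_lit 3477128) (nat_lit 3385952) (nat_lit 11576654) (nat_lit 0x34c2f965c) (nat_lit 2346711858),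
  Rx.mk (nat_lit 294) (nat_lit 6) (nat_lit 4) (nat_lit 4) (nat_lit 1) (nat_lit 166) (nat_lit 74) r7_166 r9_74 (nat_lit 0) (nat_lit 6241714) (nat_lit 7900979) (nat_lit 0x694fdda3a) (nat_lit 1466245017),
  Rx.mk (nat_lit 300) (nat_lit 4) (nat_lit 5) (nat_lit 4) (nat_lit 2) (nat_lit 162) (nat_lit 69) r7_162 r9_69 (nat_lit 7389909) (nat_lit 0) (nat_lit 44159155) (nat_lit 0x66138ffea) (nat_lit 1557598988),
  Rx.mk (nat_lit 302) (nat_lit 6) (nat_lit 5) (nat_lit 4) (nat_lit 3) (nat_lit 167) (nat_lit 75) r7_167 r9_75 (nat_lit 0) (nat_lit 0) (nat_lit 5449534) (nat_lit 0x7fffb0fc8) (nat_lit 1079377758),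
  Rx.mk (nat_lit 422) (nat_lit 6) (nat_lit 4) (nat_lit 6) (nat_lit 5) (nat_lit 168) (nat_lit 79) r7_168 r9_79 (nat_lit 0) (nat_lit 5449534) (nat_lit 0) (nat_lit 0x7ff64ac54) (nat_lit 1079981358),
  Rx.mk (nat_lit 430) (nat_lit 6) (nat_lit 5) (nat_lit 6) (nat_lit 7) (nat_lit 169) (nat_lit 80) r7_169 r9_80 (nat_lit 0) (nat_lit 0) (nat_lit 0) (nat_lit 0x80029938e) (nat_lit 1073741824),
  Rx.mk (nat_lit 434) (nat_lit 2) (nat_lit 6) (nat_lit 6) (nat_lit 7) (nat_lit 160) (nat_lit 82) r7_160 r9_82 (nat_lit 0) (nat_lit 0) (nat_lit 0) (nat_lit 0x80029938e) (nat_lit 1073741824),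
  Rx.mk (nat_lit 438) (nat_lit 6) (nat_lit 6) (nat_lit 6) (nat_lit 7) (nat_lit 170) (nat_lit 81) r7_170 r9_81 (nat_lit 0) (nat_lit 0) (nat_lit 0) (nat_lit 0x80029938e) (nat_lit 1073741824),
  Rx.mk (nat_lit 484) (nat_lit 4) (nat_lit 4) (nat_lit 7) (nat_lit 4) (nat_lit 163) (nat_lit 70) r7_163 r9_70 (nat_lit 5437810) (nat_lit 4914479) (nat_lit 0) (nat_lit 0x6b8d41d70) (nat_lit 1425110413),
  Rx.mk (nat_lit 486) (nat_lit 6) (nat_lit 4) (nat_lit 7) (nat_lit 5) (nat_lit 171) (nat_lit 76) r7_171 r9_76 (nat_lit 0) (nat_lit 5449534) (nat_lit 0) (nat_lit 0x7ff6b914a) (nat_lit 1079953558),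
  Rx.mk (nat_lit 492) (nat_lit 4) (nat_lit 5) (nat_lit 7) (nat_lit 6) (nat_lit 164) (nat_lit 71) r7_164 r9_71 (nat_lit 5449534) (nat_lit 0) (nat_lit 0) (nat_lit 0x80029938e) (nat_lit 1079191358),
  Rx.mk (nat_lit 494) (nat_lit 6) (nat_lit 5) (nat_lit 7) (nat_lit 7) (nat_lit 172) (nat_lit 77) r7_172 r9_77 (nat_lit 0) (nat_lit 0) (nat_lit 0) (nat_lit 0x80029938e) (nat_lit 1073741824),
  Rx.mk (nat_lit 508) (nat_lit 4) (nat_lit 7) (nat_lit 7) (nat_lit 6) (nat_lit 165) (nat_lit 72) r7_165 r9_72 (nat_lit 5449534) (nat_lit 0) (nat_lit 0) (nat_lit 0x80029938e) (nat_lit 1079191358),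
  Rx.mk (nat_lit 510) (nat_lit 6) (nat_lit 7) (nat_lit 7) (nat_lit 7) (nat_lit 173) (nat_lit 78) r7_173 r9_78 (nat_lit 0) (nat_lit 0) (nat_lit 0) (nat_lit 0x80029938e) (nat_lit 1073741824),
  Rx.mk (nat_lit 511) (nat_lit 7) (nat_lit 7) (nat_lit 7) (nat_lit 7) (nat_lit 174) (nat_lit 73) r7_174 r9_73 (nat_lit 0) (nat_lit 0) (nat_lit 0) (nat_lit 0x80029938e) (nat_lit 1073741824)]
noncomputable def e39_49 : List Rx := [
  Rx.mk (nat_lit 292) (nat_lit 4) (nat_lit 4) (nat_lit 4) (nat_lit 0) (nat_lit 204) (nat_lit 170) r7_204 r9_170 (nat_lit 3541065) (nat_lit 3490957) (nat_lit 5426102) (nat_lit 0x36db834e6) (nat_lit 2305784648),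
  Rx.mk (nat_lit 294) (nat_lit 6) (nat_lit 4) (nat_lit 4) (nat_lit 1) (nat_lit 210) (nat_lit 172) r7_210 r9_172 (nat_lit 0) (nat_lit 8202458) (nat_lit 8284346) (nat_lit 0x6b8996482) (nat_lit 1431483228),
  Rx.mk (nat_lit 300) (nat_lit 4) (nat_lit 5) (nat_lit 4) (nat_lit 2) (nat_lit 205) (nat_lit 171) r7_205 r9_171 (nat_lit 7908726) (nat_lit 0) (nat_lit 9592768) (nat_lit 0x655f6e5e8) (nat_lit 1535282018),
  Rx.mk (nat_lit 302) (nat_lit 6) (nat_lit 5) (nat_lit 4) (nat_lit 3) (nat_lit 211) (nat_lit 173) r7_211 r9_173 (nat_lit 0) (nat_lit 0) (nat_lit 5542978) (nat_lit 0x7ffdca448) (nat_lit 1079593202),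
  Rx.mk (nat_lit 364) (nat_lit 4) (nat_lit 5) (nat_lit 5) (nat_lit 6) (nat_lit 206) (nat_lit 174) r7_206 r9_174 (nat_lit 5575825) (nat_lit 0) (nat_lit 0) (nat_lit 0x7ffab038e) (nat_lit 1079825149),
  Rx.mk (nat_lit 366) (nat_lit 6) (nat_lit 5) (nat_lit 5) (nat_lit 7) (nat_lit 212) (nat_lit 175) r7_212 r9_175 (nat_lit 0) (nat_lit 0) (nat_lit 0) (nat_lit 0x80029938e) (nat_lit 1073741824),
  Rx.mk (nat_lit 422) (nat_lit 6) (nat_lit 4) (nat_lit 6) (nat_lit 5) (nat_lit 213) (nat_lit 180) r7_213 r9_180 (nat_lit 0) (nat_lit 5449534) (nat_lit 0) (nat_lit 0x7ffcbd500) (nat_lit 1079567158),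
  Rx.mk (nat_lit 430) (nat_lit 6) (nat_lit 5) (nat_lit 6) (nat_lit 7) (nat_lit 214) (nat_lit 181) r7_214 r9_181 (nat_lit 0) (nat_lit 0) (nat_lit 0) (nat_lit 0x80029938e) (nat_lit 1073741824),
  Rx.mk (nat_lit 438) (nat_lit 6) (nat_lit 6) (nat_lit 6) (nat_lit 7) (nat_lit 215) (nat_lit 182) r7_215 r9_182 (nat_lit 0) (nat_lit 0) (nat_lit 0) (nat_lit 0x80029938e) (nat_lit 1073741824),
  Rx.mk (nat_lit 484) (nat_lit 4) (nat_lit 4) (nat_lit 7) (nat_lit 4) (nat_lit 207) (nat_lit 176) r7_207 r9_176 (nat_lit 7551398) (nat_lit 7072192) (nat_lit 0) (nat_lit 0x6f426cc38) (nat_lit 1367563814),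
  Rx.mk (nat_lit 492) (nat_lit 4) (nat_lit 5) (nat_lit 7) (nat_lit 6) (nat_lit 208) (nat_lit 177) r7_208 r9_177 (nat_lit 5449534) (nat_lit 0) (nat_lit 0) (nat_lit 0x80029938e) (nat_lit 1079191358),
  Rx.mk (nat_lit 508) (nat_lit 4) (nat_lit 7) (nat_lit 7) (nat_lit 6) (nat_lit 209) (nat_lit 178) r7_209 r9_178 (nat_lit 5449534) (nat_lit 0) (nat_lit 0) (nat_lit 0x80029938e) (nat_lit 1079191358),
  Rx.mk (nat_lit 511) (nat_lit 7) (nat_lit 7) (nat_lit 7) (nat_lit 7) (nat_lit 216) (nat_lit 179) r7_216 r9_179 (nat_lit 0) (nat_lit 0) (nat_lit 0) (nat_lit 0x80029938e) (nat_lit 1073741824)]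
noncomputable def e39_50 : List Rx := [
  Rx.mk (nat_lit 199) (nat_lit 7) (nat_lit 0) (nat_lit 3) (nat_lit 5) (nat_lit 36) (nat_lit 102) r7_36 r3_102 (nat_lit 0) (nat_lit 41954) (nat_lit 0) (nat_lit 0x8a20ca506) (nat_lit 910018078),
  Rx.mk (nat_lit 223) (nat_lit 7) (nat_lit 3) (nat_lit 3) (nat_lit 7) (nat_lit 37) (nat_lit 103) r7_37 r3_103 (nat_lit 0) (nat_lit 0) (nat_lit 0) (nat_lit 0x7fd20ba96) (nat_lit 1076872124),
  Rx.mk (nat_lit 476) (nat_lit 4) (nat_lit 3) (nat_lit 7) (nat_lit 6) (nat_lit 35) (nat_lit 100) r7_35 r3_100 (nat_lit 41954) (nat_lit 0) (nat_lit 0) (nat_lit 0x8a20ca506) (nat_lit 910018078),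
  Rx.mk (nat_lit 479) (nat_lit 7) (nat_lit 3) (nat_lit 7) (nat_lit 7) (nat_lit 38) (nat_lit 101) r7_38 r3_101 (nat_lit 0) (nat_lit 0) (nat_lit 0) (nat_lit 0x7fd20ba96) (nat_lit 1076872124)]
noncomputable def e39_51 : List Rx := [
  Rx.mk (nat_lit 199) (nat_lit 7) (nat_lit 0) (nat_lit 3) (nat_lit 5) (nat_lit 45) (nat_lit 102) r7_45 r4_102 (nat_lit 0) (nat_lit 3003842) (nat_lit 0) (nat_lit 0x801bcccc0) (nat_lit 1075130666),
  Rx.mk (nat_lit 223) (nat_lit 7) (nat_lit 3) (nat_lit 3) (nat_lit 7) (nat_lit 46) (nat_lit 103) r7_46 r4_103 (nat_lit 0) (nat_lit 0) (nat_lit 0) (nat_lit 0x80029938e) (nat_lit 1073741824),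
  Rx.mk (nat_lit 316) (nat_lit 4) (nat_lit 7) (nat_lit 4) (nat_lit 2) (nat_lit 39) (nat_lit 98) r7_39 r4_98 (nat_lit 2244627) (nat_lit 0) (nat_lit 13528971) (nat_lit 0x667a08362) (nat_lit 1515142422),
  Rx.mk (nat_lit 318) (nat_lit 6) (nat_lit 7) (nat_lit 4) (nat_lit 3) (nat_lit 42) (nat_lit 104) r7_42 r4_104 (nat_lit 0) (nat_lit 0) (nat_lit 7450969) (nat_lit 0x7fd285fbc) (nat_lit 1084281793),
  Rx.mk (nat_lit 446) (nat_lit 6) (nat_lit 7) (nat_lit 6) (nat_lit 7) (nat_lit 43) (nat_lit 106) r7_43 r4_106 (nat_lit 0) (nat_lit 0) (nat_lit 0) (nat_lit 0x80029938e) (nat_lit 1073741824),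
  Rx.mk (nat_lit 476) (nat_lit 4) (nat_lit 3) (nat_lit 7) (nat_lit 6) (nat_lit 40) (nat_lit 100) r7_40 r4_100 (nat_lit 3253254) (nat_lit 0) (nat_lit 0) (nat_lit 0x802f743a4) (nat_lit 1074127178),
  Rx.mk (nat_lit 479) (nat_lit 7) (nat_lit 3) (nat_lit 7) (nat_lit 7) (nat_lit 47) (nat_lit 101) r7_47 r4_101 (nat_lit 0) (nat_lit 0) (nat_lit 0) (nat_lit 0x80029938e) (nat_lit 1073741824),
  Rx.mk (nat_lit 508) (nat_lit 4) (nat_lit 7) (nat_lit 7) (nat_lit 6) (nat_lit 41) (nat_lit 99) r7_41 r4_99 (nat_lit 2541329) (nat_lit 0) (nat_lit 0) (nat_lit 0x7e988d356) (nat_lit 1099798353),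
  Rx.mk (nat_lit 510) (nat_lit 6) (nat_lit 7) (nat_lit 7) (nat_lit 7) (nat_lit 44) (nat_lit 105) r7_44 r4_105 (nat_lit 0) (nat_lit 0) (nat_lit 0) (nat_lit 0x807650df4) (nat_lit 1066373124)]
noncomputable def e39_52 : List Rx := [
  Rx.mk (nat_lit 199) (nat_lit 7) (nat_lit 0) (nat_lit 3) (nat_lit 5) (nat_lit 49) (nat_lit 105) r7_49 r5_105 (nat_lit 0) (nat_lit 1265249) (nat_lit 0) (nat_lit 0x7ff9d6b48) (nat_lit 1075552073),
  Rx.mk (nat_lit 455) (nat_lit 7) (nat_lit 0) (nat_lit 7) (nat_lit 5) (nat_lit 50) (nat_lit 103) r7_50 r5_103 (nat_lit 0) (nat_lit 3797391) (nat_lit 0) (nat_lit 0x7bc59188c) (nat_lit 1148120715),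
  Rx.mk (nat_lit 476) (nat_lit 4) (nat_lit 3) (nat_lit 7) (nat_lit 6) (nat_lit 48) (nat_lit 102) r7_48 r5_102 (nat_lit 1535629) (nat_lit 0) (nat_lit 0) (nat_lit 0x807a5a904) (nat_lit 1067648753),
  Rx.mk (nat_lit 479) (nat_lit 7) (nat_lit 3) (nat_lit 7) (nat_lit 7) (nat_lit 51) (nat_lit 104) r7_51 r5_104 (nat_lit 0) (nat_lit 0) (nat_lit 0) (nat_lit 0x7ff327c3e) (nat_lit 1074733924)]
noncomputable def e39_53 : List Rx := [
  Rx.mk (nat_lit 3) (nat_lit 3) (nat_lit 0) (nat_lit 0) (nat_lit 1) (nat_lit 175) (nat_lit 98) r7_175 r4_98 (nat_lit 0) (nat_lit 2244627) (nat_lit 13528971) (nat_lit 0x667a08362) (nat_lit 1515142422),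
  Rx.mk (nat_lit 19) (nat_lit 3) (nat_lit 2) (nat_lit 0) (nat_lit 3) (nat_lit 176) (nat_lit 104) r7_176 r4_104 (nat_lit 0) (nat_lit 0) (nat_lit 7450969) (nat_lit 0x7fd285fbc) (nat_lit 1084281793),
  Rx.mk (nat_lit 147) (nat_lit 3) (nat_lit 2) (nat_lit 2) (nat_lit 7) (nat_lit 177) (nat_lit 106) r7_177 r4_106 (nat_lit 0) (nat_lit 0) (nat_lit 0) (nat_lit 0x80029938e) (nat_lit 1073741824),
  Rx.mk (nat_lit 195) (nat_lit 3) (nat_lit 0) (nat_lit 3) (nat_lit 5) (nat_lit 178) (nat_lit 99) r7_178 r4_99 (nat_lit 0) (nat_lit 2541329) (nat_lit 0) (nat_lit 0x7e988d356) (nat_lit 1099798353),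
  Rx.mk (nat_lit 199) (nat_lit 7) (nat_lit 0) (nat_lit 3) (nat_lit 5) (nat_lit 181) (nat_lit 100) r7_181 r4_100 (nat_lit 0) (nat_lit 3253254) (nat_lit 0) (nat_lit 0x802f743a4) (nat_lit 1074127178),
  Rx.mk (nat_lit 211) (nat_lit 3) (nat_lit 2) (nat_lit 3) (nat_lit 7) (nat_lit 179) (nat_lit 105) r7_179 r4_105 (nat_lit 0) (nat_lit 0) (nat_lit 0) (nat_lit 0x807650df4) (nat_lit 1066373124),
  Rx.mk (nat_lit 223) (nat_lit 7) (nat_lit 3) (nat_lit 3) (nat_lit 7) (nat_lit 182) (nat_lit 101) r7_182 r4_101 (nat_lit 0) (nat_lit 0) (nat_lit 0) (nat_lit 0x80029938e) (nat_lit 1073741824),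
  Rx.mk (nat_lit 476) (nat_lit 4) (nat_lit 3) (nat_lit 7) (nat_lit 6) (nat_lit 180) (nat_lit 102) r7_180 r4_102 (nat_lit 3003842) (nat_lit 0) (nat_lit 0) (nat_lit 0x801bcccc0) (nat_lit 1075130666),
  Rx.mk (nat_lit 479) (nat_lit 7) (nat_lit 3) (nat_lit 7) (nat_lit 7) (nat_lit 183) (nat_lit 103) r7_183 r4_103 (nat_lit 0) (nat_lit 0) (nat_lit 0) (nat_lit 0x80029938e) (nat_lit 1073741824)]
noncomputable def e39_54 : List Rx := [
  Rx.mk (nat_lit 3) (nat_lit 3) (nat_lit 0) (nat_lit 0) (nat_lit 1) (nat_lit 184) (nat_lit 91) r7_184 r10_91 (nat_lit 0) (nat_lit 170865) (nat_lit 207584) (nat_lit 0x6d9bb3e06) (nat_lit 1380802873),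
  Rx.mk (nat_lit 19) (nat_lit 3) (nat_lit 2) (nat_lit 0) (nat_lit 3) (nat_lit 185) (nat_lit 92) r7_185 r10_92 (nat_lit 0) (nat_lit 0) (nat_lit 6198522) (nat_lit 0x7fb6ae690) (nat_lit 1084837746),
  Rx.mk (nat_lit 147) (nat_lit 3) (nat_lit 2) (nat_lit 2) (nat_lit 7) (nat_lit 186) (nat_lit 95) r7_186 r10_95 (nat_lit 0) (nat_lit 0) (nat_lit 0) (nat_lit 0x802fa260a) (nat_lit 1070865124),
  Rx.mk (nat_lit 195) (nat_lit 3) (nat_lit 0) (nat_lit 3) (nat_lit 5) (nat_lit 187) (nat_lit 93) r7_187 r10_93 (nat_lit 0) (nat_lit 1738294) (nat_lit 0) (nat_lit 0x80270146a) (nat_lit 1073148218),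
  Rx.mk (nat_lit 199) (nat_lit 7) (nat_lit 0) (nat_lit 3) (nat_lit 5) (nat_lit 195) (nat_lit 86) r7_195 r10_86 (nat_lit 0) (nat_lit 5449534) (nat_lit 0) (nat_lit 0x80029938e) (nat_lit 1079191358),
  Rx.mk (nat_lit 211) (nat_lit 3) (nat_lit 2) (nat_lit 3) (nat_lit 7) (nat_lit 188) (nat_lit 94) r7_188 r10_94 (nat_lit 0) (nat_lit 0) (nat_lit 0) (nat_lit 0x802fa6002) (nat_lit 1070864224),
  Rx.mk (nat_lit 223) (nat_lit 7) (nat_lit 3) (nat_lit 3) (nat_lit 7) (nat_lit 196) (nat_lit 87) r7_196 r10_87 (nat_lit 0) (nat_lit 0) (nat_lit 0) (nat_lit 0x80029938e) (nat_lit 1073741824),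
  Rx.mk (nat_lit 316) (nat_lit 4) (nat_lit 7) (nat_lit 4) (nat_lit 2) (nat_lit 189) (nat_lit 82) r7_189 r10_82 (nat_lit 170865) (nat_lit 0) (nat_lit 207584) (nat_lit 0x6d9bb3e06) (nat_lit 1380802873),
  Rx.mk (nat_lit 318) (nat_lit 6) (nat_lit 7) (nat_lit 4) (nat_lit 3) (nat_lit 192) (nat_lit 88) r7_192 r10_88 (nat_lit 0) (nat_lit 0) (nat_lit 6198522) (nat_lit 0x7fb6ae690) (nat_lit 1084837746),
  Rx.mk (nat_lit 446) (nat_lit 6) (nat_lit 7) (nat_lit 6) (nat_lit 7) (nat_lit 193) (nat_lit 90) r7_193 r10_90 (nat_lit 0) (nat_lit 0) (nat_lit 0) (nat_lit 0x802fa260a) (nat_lit 1070865124),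
  Rx.mk (nat_lit 476) (nat_lit 4) (nat_lit 3) (nat_lit 7) (nat_lit 6) (nat_lit 190) (nat_lit 84) r7_190 r10_84 (nat_lit 5449534) (nat_lit 0) (nat_lit 0) (nat_lit 0x80029938e) (nat_lit 1079191358),
  Rx.mk (nat_lit 479) (nat_lit 7) (nat_lit 3) (nat_lit 7) (nat_lit 7) (nat_lit 197) (nat_lit 85) r7_197 r10_85 (nat_lit 0) (nat_lit 0) (nat_lit 0) (nat_lit 0x80029938e) (nat_lit 1073741824),
  Rx.mk (nat_lit 508) (nat_lit 4) (nat_lit 7) (nat_lit 7) (nat_lit 6) (nat_lit 191) (nat_lit 83) r7_191 r10_83 (nat_lit 1738294) (nat_lit 0) (nat_lit 0) (nat_lit 0x80270146a) (nat_lit 1073148218),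
  Rx.mk (nat_lit 510) (nat_lit 6) (nat_lit 7) (nat_lit 7) (nat_lit 7) (nat_lit 194) (nat_lit 89) r7_194 r10_89 (nat_lit 0) (nat_lit 0) (nat_lit 0) (nat_lit 0x802fa6002) (nat_lit 1070864224)]
noncomputable def e39_55 : List Rx := [
  Rx.mk (nat_lit 195) (nat_lit 3) (nat_lit 0) (nat_lit 3) (nat_lit 5) (nat_lit 198) (nat_lit 105) r7_198 r11_105 (nat_lit 0) (nat_lit 2301147) (nat_lit 0) (nat_lit 0x8062f057a) (nat_lit 1069902071),
  Rx.mk (nat_lit 199) (nat_lit 7) (nat_lit 0) (nat_lit 3) (nat_lit 5) (nat_lit 201) (nat_lit 104) r7_201 r11_104 (nat_lit 0) (nat_lit 5449534) (nat_lit 0) (nat_lit 0x80029938e) (nat_lit 1079191358),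
  Rx.mk (nat_lit 211) (nat_lit 3) (nat_lit 2) (nat_lit 3) (nat_lit 7) (nat_lit 199) (nat_lit 106) r7_199 r11_106 (nat_lit 0) (nat_lit 0) (nat_lit 0) (nat_lit 0x804200450) (nat_lit 1069693624),
  Rx.mk (nat_lit 455) (nat_lit 7) (nat_lit 0) (nat_lit 7) (nat_lit 5) (nat_lit 202) (nat_lit 102) r7_202 r11_102 (nat_lit 0) (nat_lit 6685557) (nat_lit 0) (nat_lit 0x7fa33a33e) (nat_lit 1086587581),
  Rx.mk (nat_lit 476) (nat_lit 4) (nat_lit 3) (nat_lit 7) (nat_lit 6) (nat_lit 200) (nat_lit 101) r7_200 r11_101 (nat_lit 5449534) (nat_lit 0) (nat_lit 0) (nat_lit 0x80029938e) (nat_lit 1079191358),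
  Rx.mk (nat_lit 479) (nat_lit 7) (nat_lit 3) (nat_lit 7) (nat_lit 7) (nat_lit 203) (nat_lit 103) r7_203 r11_103 (nat_lit 0) (nat_lit 0) (nat_lit 0) (nat_lit 0x80029938e) (nat_lit 1073741824)]
noncomputable def e39_56 : List Rx := [
  Rx.mk (nat_lit 199) (nat_lit 7) (nat_lit 0) (nat_lit 3) (nat_lit 5) (nat_lit 272) (nat_lit 102) r7_272 r5_102 (nat_lit 0) (nat_lit 1535629) (nat_lit 0) (nat_lit 0x807a5a904) (nat_lit 1067648753),
  Rx.mk (nat_lit 220) (nat_lit 4) (nat_lit 3) (nat_lit 3) (nat_lit 6) (nat_lit 270) (nat_lit 103) r7_270 r5_103 (nat_lit 3797391) (nat_lit 0) (nat_lit 0) (nat_lit 0x7bc59188c) (nat_lit 1148120715),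
  Rx.mk (nat_lit 223) (nat_lit 7) (nat_lit 3) (nat_lit 3) (nat_lit 7) (nat_lit 273) (nat_lit 104) r7_273 r5_104 (nat_lit 0) (nat_lit 0) (nat_lit 0) (nat_lit 0x7ff327c3e) (nat_lit 1074733924),
  Rx.mk (nat_lit 476) (nat_lit 4) (nat_lit 3) (nat_lit 7) (nat_lit 6) (nat_lit 271) (nat_lit 105) r7_271 r5_105 (nat_lit 1265249) (nat_lit 0) (nat_lit 0) (nat_lit 0x7ff9d6b48) (nat_lit 1075552073)]
noncomputable def e39_57 : List Rx := [
  Rx.mk (nat_lit 199) (nat_lit 7) (nat_lit 0) (nat_lit 3) (nat_lit 5) (nat_lit 278) (nat_lit 101) r7_278 r11_101 (nat_lit 0) (nat_lit 5449534) (nat_lit 0) (nat_lit 0x80029938e) (nat_lit 1079191358),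
  Rx.mk (nat_lit 220) (nat_lit 4) (nat_lit 3) (nat_lit 3) (nat_lit 6) (nat_lit 274) (nat_lit 102) r7_274 r11_102 (nat_lit 6685557) (nat_lit 0) (nat_lit 0) (nat_lit 0x7fa33a33e) (nat_lit 1086587581),
  Rx.mk (nat_lit 223) (nat_lit 7) (nat_lit 3) (nat_lit 3) (nat_lit 7) (nat_lit 279) (nat_lit 103) r7_279 r11_103 (nat_lit 0) (nat_lit 0) (nat_lit 0) (nat_lit 0x80029938e) (nat_lit 1073741824),
  Rx.mk (nat_lit 476) (nat_lit 4) (nat_lit 3) (nat_lit 7) (nat_lit 6) (nat_lit 275) (nat_lit 104) r7_275 r11_104 (nat_lit 5449534) (nat_lit 0) (nat_lit 0) (nat_lit 0x80029938e) (nat_lit 1079191358),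
  Rx.mk (nat_lit 508) (nat_lit 4) (nat_lit 7) (nat_lit 7) (nat_lit 6) (nat_lit 276) (nat_lit 105) r7_276 r11_105 (nat_lit 2301147) (nat_lit 0) (nat_lit 0) (nat_lit 0x8062f057a) (nat_lit 1069902071),
  Rx.mk (nat_lit 510) (nat_lit 6) (nat_lit 7) (nat_lit 7) (nat_lit 7) (nat_lit 277) (nat_lit 106) r7_277 r11_106 (nat_lit 0) (nat_lit 0) (nat_lit 0) (nat_lit 0x804200450) (nat_lit 1069693624)]
noncomputable def e39 : List (List Rx) := [e39_0, e39_1, e39_2, e39_3, e39_4, e39_5, e39_6, e39_7, e39_8, e39_9, e39_10, e39_11, e39_12, e39_13, e39_14, e39_15, e39_16, e39_17, e39_18, e39_19, e39_20, e39_21, e39_22, e39_23, e39_24, e39_25, e39_26, e39_27, e39_28, e39_29, e39_30, e39_31, e39_32, e39_33, e39_34, e39_35, e39_36, e39_37, e39_38, e39_39, e39_40, e39_41, e39_42, e39_43, e39_44, e39_45, e39_46, e39_47, e39_48, e39_49, e39_50, e39_51, e39_52, e39_53, e39_54,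 e39_55, e39_56, e39_57]
noncomputable def e40_0 : List Rx := [
  Rx.mk (nat_lit 1) (nat_lit 1) (nat_lit 0) (nat_lit 0) (nat_lit 1) (nat_lit 180) (nat_lit 254) r2_180 r0_254 (nat_lit 0) (nat_lit 68407513) (nat_lit 7055863) (nat_lit 0x53676d968) (nat_lit 1892836900),
  Rx.mk (nat_lit 193) (nat_lit 1) (nat_lit 0) (nat_lit 3) (nat_lit 5) (nat_lit 181) (nat_lit 255) r2_181 r0_255 (nat_lit 0) (nat_lit 10599859) (nat_lit 0) (nat_lit 0x7f72b6d3e) (nat_lit 1093649483),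
  Rx.mk (nat_lit 217) (nat_lit 1) (nat_lit 3) (nat_lit 3) (nat_lit 7) (nat_lit 182) (nat_lit 256) r2_182 r0_256 (nat_lit 0) (nat_lit 0) (nat_lit 0) (nat_lit 0x80029938e) (nat_lit 1073741824)]
noncomputable def e40_1 : List Rx := [
  Rx.mk (nat_lit 1) (nat_lit 1) (nat_lit 0) (nat_lit 0) (nat_lit 1) (nat_lit 183) (nat_lit 258) r2_183 r1_258 (nat_lit 0) (nat_lit 26800077) (nat_lit 10122828) (nat_lit 0x5e3f5c5fe) (nat_lit 1673506229),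
  Rx.mk (nat_lit 65) (nat_lit 1) (nat_lit 0) (nat_lit 1) (nat_lit 5) (nat_lit 184) (nat_lit 259) r2_184 r1_259 (nat_lit 0) (nat_lit 5449534) (nat_lit 0) (nat_lit 0x80029938e) (nat_lit 1079191358),
  Rx.mk (nat_lit 193) (nat_lit 1) (nat_lit 0) (nat_lit 3) (nat_lit 5) (nat_lit 185) (nat_lit 260) r2_185 r1_260 (nat_lit 0) (nat_lit 5449534) (nat_lit 0) (nat_lit 0x80029938e) (nat_lit 1079191358),
  Rx.mk (nat_lit 217) (nat_lit 1) (nat_lit 3) (nat_lit 3) (nat_lit 7) (nat_lit 186) (nat_lit 261) r2_186 r1_261 (nat_lit 0) (nat_lit 0) (nat_lit 0) (nat_lit 0x80029938e) (nat_lit 1073741824)]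
noncomputable def e40_2 : List Rx := [
  Rx.mk (nat_lit 65) (nat_lit 1) (nat_lit 0) (nat_lit 1) (nat_lit 5) (nat_lit 310) (nat_lit 286) r2_310 r2_286 (nat_lit 0) (nat_lit 5449534) (nat_lit 0) (nat_lit 0x80029938e) (nat_lit 1079191358),
  Rx.mk (nat_lit 73) (nat_lit 1) (nat_lit 1) (nat_lit 1) (nat_lit 7) (nat_lit 311) (nat_lit 287) r2_311 r2_287 (nat_lit 0) (nat_lit 0) (nat_lit 0) (nat_lit 0x80029938e) (nat_lit 1073741824)]
noncomputable def e40_3 : List Rx := [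
  Rx.mk (nat_lit 193) (nat_lit 1) (nat_lit 0) (nat_lit 3) (nat_lit 5) (nat_lit 59) (nat_lit 254) r2_59 r3_254 (nat_lit 0) (nat_lit 205631) (nat_lit 0) (nat_lit 0x8653f4da4) (nat_lit 971638355),
  Rx.mk (nat_lit 217) (nat_lit 1) (nat_lit 3) (nat_lit 3) (nat_lit 7) (nat_lit 61) (nat_lit 255) r2_61 r3_255 (nat_lit 0) (nat_lit 0) (nat_lit 0) (nat_lit 0x9397f870a) (nat_lit 756973324),
  Rx.mk (nat_lit 473) (nat_lit 1) (nat_lit 3) (nat_lit 7) (nat_lit 7) (nat_lit 60) (nat_lit 256) r2_60 r3_256 (nat_lit 0) (nat_lit 0) (nat_lit 0) (nat_lit 0x8c10f8f0e) (nat_lit 878699324)]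
noncomputable def e40_4 : List Rx := [
  Rx.mk (nat_lit 193) (nat_lit 1) (nat_lit 0) (nat_lit 3) (nat_lit 5) (nat_lit 187) (nat_lit 271) r2_187 r4_271 (nat_lit 0) (nat_lit 5449534) (nat_lit 0) (nat_lit 0x80029938e) (nat_lit 1079191358),
  Rx.mk (nat_lit 217) (nat_lit 1) (nat_lit 3) (nat_lit 3) (nat_lit 7) (nat_lit 188) (nat_lit 272) r2_188 r4_272 (nat_lit 0) (nat_lit 0) (nat_lit 0) (nat_lit 0x80029938e) (nat_lit 1073741824)]
noncomputable def e40_5 : List Rx := [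
  Rx.mk (nat_lit 193) (nat_lit 1) (nat_lit 0) (nat_lit 3) (nat_lit 5) (nat_lit 256) (nat_lit 258) r2_256 r5_258 (nat_lit 0) (nat_lit 6864468) (nat_lit 0) (nat_lit 0x7fee4d22c) (nat_lit 1081912492),
  Rx.mk (nat_lit 449) (nat_lit 1) (nat_lit 0) (nat_lit 7) (nat_lit 5) (nat_lit 255) (nat_lit 259) r2_255 r5_259 (nat_lit 0) (nat_lit 35281805) (nat_lit 0) (nat_lit 0x7f7f14a04) (nat_lit 1117526829),
  Rx.mk (nat_lit 473) (nat_lit 1) (nat_lit 3) (nat_lit 7) (nat_lit 7) (nat_lit 257) (nat_lit 260) r2_257 r5_260 (nat_lit 0) (nat_lit 0) (nat_lit 0) (nat_lit 0x80029938e) (nat_lit 1073741824)]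
noncomputable def e40_6 : List Rx := [
  Rx.mk (nat_lit 257) (nat_lit 1) (nat_lit 0) (nat_lit 4) (nat_lit 1) (nat_lit 323) (nat_lit 279) r2_323 r3_279 (nat_lit 0) (nat_lit 83586) (nat_lit 62702) (nat_lit 0x63dd38a3e) (nat_lit 1543007912),
  Rx.mk (nat_lit 261) (nat_lit 5) (nat_lit 0) (nat_lit 4) (nat_lit 1) (nat_lit 322) (nat_lit 276) r2_322 r3_276 (nat_lit 0) (nat_lit 62702) (nat_lit 83586) (nat_lit 0x63dd38a3e) (nat_lit 1543007912),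
  Rx.mk (nat_lit 265) (nat_lit 1) (nat_lit 1) (nat_lit 4) (nat_lit 3) (nat_lit 328) (nat_lit 284) r2_328 r3_284 (nat_lit 0) (nat_lit 0) (nat_lit 1657006) (nat_lit 0x7198cb26c) (nat_lit 1315616130),
  Rx.mk (nat_lit 269) (nat_lit 5) (nat_lit 1) (nat_lit 4) (nat_lit 3) (nat_lit 327) (nat_lit 281) r2_327 r3_281 (nat_lit 0) (nat_lit 0) (nat_lit 14212610) (nat_lit 0x7c8b79e5a) (nat_lit 1145647634),
  Rx.mk (nat_lit 281) (nat_lit 1) (nat_lit 3) (nat_lit 4) (nat_lit 3) (nat_lit 332) (nat_lit 286) r2_332 r3_286 (nat_lit 0) (nat_lit 0) (nat_lit 5449534) (nat_lit 0x7fea843fc) (nat_lit 1080741158),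
  Rx.mk (nat_lit 321) (nat_lit 1) (nat_lit 0) (nat_lit 5) (nat_lit 5) (nat_lit 325) (nat_lit 280) r2_325 r3_280 (nat_lit 0) (nat_lit 14212610) (nat_lit 0) (nat_lit 0x7c8b79e5a) (nat_lit 1145647634),
  Rx.mk (nat_lit 325) (nat_lit 5) (nat_lit 0) (nat_lit 5) (nat_lit 5) (nat_lit 324) (nat_lit 277) r2_324 r3_277 (nat_lit 0) (nat_lit 1657006) (nat_lit 0) (nat_lit 0x7198cb26c) (nat_lit 1315616130),
  Rx.mk (nat_lit 329) (nat_lit 1) (nat_lit 1) (nat_lit 5) (nat_lit 7) (nat_lit 330) (nat_lit 285) r2_330 r3_285 (nat_lit 0) (nat_lit 0) (nat_lit 0) (nat_lit 0x80029938e) (nat_lit 1073741824),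
  Rx.mk (nat_lit 333) (nat_lit 5) (nat_lit 1) (nat_lit 5) (nat_lit 7) (nat_lit 329) (nat_lit 282) r2_329 r3_282 (nat_lit 0) (nat_lit 0) (nat_lit 0) (nat_lit 0x80029938e) (nat_lit 1073741824),
  Rx.mk (nat_lit 345) (nat_lit 1) (nat_lit 3) (nat_lit 5) (nat_lit 7) (nat_lit 333) (nat_lit 287) r2_333 r3_287 (nat_lit 0) (nat_lit 0) (nat_lit 0) (nat_lit 0x80029938e) (nat_lit 1073741824),
  Rx.mk (nat_lit 453) (nat_lit 5) (nat_lit 0) (nat_lit 7) (nat_lit 5) (nat_lit 326) (nat_lit 278) r2_326 r3_278 (nat_lit 0) (nat_lit 5449534) (nat_lit 0) (nat_lit 0x7fea843fc) (nat_lit 1080741158),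
  Rx.mk (nat_lit 461) (nat_lit 5) (nat_lit 1) (nat_lit 7) (nat_lit 7) (nat_lit 331) (nat_lit 283) r2_331 r3_283 (nat_lit 0) (nat_lit 0) (nat_lit 0) (nat_lit 0x80029938e) (nat_lit 1073741824)]
noncomputable def e40_7 : List Rx := [
  Rx.mk (nat_lit 321) (nat_lit 1) (nat_lit 0) (nat_lit 5) (nat_lit 5) (nat_lit 277) (nat_lit 286) r2_277 r0_286 (nat_lit 0) (nat_lit 7374549) (nat_lit 0) (nat_lit 0x7eb2c9990) (nat_lit 1102910273),
  Rx.mk (nat_lit 325) (nat_lit 5) (nat_lit 0) (nat_lit 5) (nat_lit 5) (nat_lit 276) (nat_lit 285) r2_276 r0_285 (nat_lit 0) (nat_lit 28102838) (nat_lit 0) (nat_lit 0x7a7179430) (nat_lit 1194573262),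
  Rx.mk (nat_lit 329) (nat_lit 1) (nat_lit 1) (nat_lit 5) (nat_lit 7) (nat_lit 279) (nat_lit 288) r2_279 r0_288 (nat_lit 0) (nat_lit 0) (nat_lit 0) (nat_lit 0x80029938e) (nat_lit 1073741824),
  Rx.mk (nat_lit 333) (nat_lit 5) (nat_lit 1) (nat_lit 5) (nat_lit 7) (nat_lit 278) (nat_lit 287) r2_278 r0_287 (nat_lit 0) (nat_lit 0) (nat_lit 0) (nat_lit 0x80029938e) (nat_lit 1073741824)]
noncomputable def e40_8 : List Rx := [
  Rx.mk (nat_lit 65) (nat_lit 1) (nat_lit 0) (nat_lit 1) (nat_lit 5) (nat_lit 306) (nat_lit 282) r2_306 r1_282 (nat_lit 0) (nat_lit 5449534) (nat_lit 0) (nat_lit 0x7fec59132) (nat_lit 1080620558),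
  Rx.mk (nat_lit 73) (nat_lit 1) (nat_lit 1) (nat_lit 1) (nat_lit 7) (nat_lit 309) (nat_lit 285) r2_309 r1_285 (nat_lit 0) (nat_lit 0) (nat_lit 0) (nat_lit 0x80029938e) (nat_lit 1073741824),
  Rx.mk (nat_lit 321) (nat_lit 1) (nat_lit 0) (nat_lit 5) (nat_lit 5) (nat_lit 305) (nat_lit 281) r2_305 r1_281 (nat_lit 0) (nat_lit 5449534) (nat_lit 0) (nat_lit 0x7fe147668) (nat_lit 1081333358),
  Rx.mk (nat_lit 325) (nat_lit 5) (nat_lit 0) (nat_lit 5) (nat_lit 5) (nat_lit 304) (nat_lit 280) r2_304 r1_280 (nat_lit 0) (nat_lit 8236166) (nat_lit 0) (nat_lit 0x80037e826) (nat_lit 1081916390),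
  Rx.mk (nat_lit 329) (nat_lit 1) (nat_lit 1) (nat_lit 5) (nat_lit 7) (nat_lit 308) (nat_lit 284) r2_308 r1_284 (nat_lit 0) (nat_lit 0) (nat_lit 0) (nat_lit 0x80029938e) (nat_lit 1073741824),
  Rx.mk (nat_lit 333) (nat_lit 5) (nat_lit 1) (nat_lit 5) (nat_lit 7) (nat_lit 307) (nat_lit 283) r2_307 r1_283 (nat_lit 0) (nat_lit 0) (nat_lit 0) (nat_lit 0x80029938e) (nat_lit 1073741824)]
noncomputable def e40_9 : List Rx := [
  Rx.mk (nat_lit 321) (nat_lit 1) (nat_lit 0) (nat_lit 5) (nat_lit 5) (nat_lit 335) (nat_lit 300) r2_335 r4_300 (nat_lit 0) (nat_lit 5449534) (nat_lit 0) (nat_lit 0x7ff8e874a) (nat_lit 1079813058),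
  Rx.mk (nat_lit 325) (nat_lit 5) (nat_lit 0) (nat_lit 5) (nat_lit 5) (nat_lit 334) (nat_lit 299) r2_334 r4_299 (nat_lit 0) (nat_lit 10500472) (nat_lit 0) (nat_lit 0x7e885e7aa) (nat_lit 1108800696),
  Rx.mk (nat_lit 329) (nat_lit 1) (nat_lit 1) (nat_lit 5) (nat_lit 7) (nat_lit 337) (nat_lit 302) r2_337 r4_302 (nat_lit 0) (nat_lit 0) (nat_lit 0) (nat_lit 0x80029938e) (nat_lit 1073741824),
  Rx.mk (nat_lit 333) (nat_lit 5) (nat_lit 1) (nat_lit 5) (nat_lit 7) (nat_lit 336) (nat_lit 301) r2_336 r4_301 (nat_lit 0) (nat_lit 0) (nat_lit 0) (nat_lit 0x80029938e) (nat_lit 1073741824),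
  Rx.mk (nat_lit 345) (nat_lit 1) (nat_lit 3) (nat_lit 5) (nat_lit 7) (nat_lit 338) (nat_lit 303) r2_338 r4_303 (nat_lit 0) (nat_lit 0) (nat_lit 0) (nat_lit 0x80029938e) (nat_lit 1073741824)]
noncomputable def e40_10 : List Rx := [
  Rx.mk (nat_lit 281) (nat_lit 1) (nat_lit 3) (nat_lit 4) (nat_lit 3) (nat_lit 253) (nat_lit 287) r2_253 r6_287 (nat_lit 0) (nat_lit 0) (nat_lit 16748008) (nat_lit 0x7f8b4521a) (nat_lit 1098207132),
  Rx.mk (nat_lit 449) (nat_lit 1) (nat_lit 0) (nat_lit 7) (nat_lit 5) (nat_lit 252) (nat_lit 286) r2_252 r6_286 (nat_lit 0) (nat_lit 5695451) (nat_lit 0) (nat_lit 0x7fda6cc12) (nat_lit 1082026575),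
  Rx.mk (nat_lit 453) (nat_lit 5) (nat_lit 0) (nat_lit 7) (nat_lit 5) (nat_lit 251) (nat_lit 289) r2_251 r6_289 (nat_lit 0) (nat_lit 7559055) (nat_lit 0) (nat_lit 0x7fe1044e4) (nat_lit 1083462579),
  Rx.mk (nat_lit 473) (nat_lit 1) (nat_lit 3) (nat_lit 7) (nat_lit 7) (nat_lit 254) (nat_lit 288) r2_254 r6_288 (nat_lit 0) (nat_lit 0) (nat_lit 0) (nat_lit 0x80029938e) (nat_lit 1073741824)]
noncomputable def e40_11 : List Rx := [
  Rx.mk (nat_lit 257) (nat_lit 1) (nat_lit 0) (nat_lit 4) (nat_lit 1) (nat_lit 339) (nat_lit 276) r2_339 r5_276 (nat_lit 0) (nat_lit 5025424) (nat_lit 5058101) (nat_lit 0x55552dd46) (nat_lit 1795302649),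
  Rx.mk (nat_lit 265) (nat_lit 1) (nat_lit 1) (nat_lit 4) (nat_lit 3) (nat_lit 343) (nat_lit 280) r2_343 r5_280 (nat_lit 0) (nat_lit 0) (nat_lit 55595022) (nat_lit 0x7292f7cc2) (nat_lit 1353270946),
  Rx.mk (nat_lit 281) (nat_lit 1) (nat_lit 3) (nat_lit 4) (nat_lit 3) (nat_lit 347) (nat_lit 283) r2_347 r5_283 (nat_lit 0) (nat_lit 0) (nat_lit 7517454) (nat_lit 0x7fde0b6c0) (nat_lit 1083611778),
  Rx.mk (nat_lit 321) (nat_lit 1) (nat_lit 0) (nat_lit 5) (nat_lit 5) (nat_lit 340) (nat_lit 277) r2_340 r5_277 (nat_lit 0) (nat_lit 5449534) (nat_lit 0) (nat_lit 0x80029938e) (nat_lit 1079191358),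
  Rx.mk (nat_lit 329) (nat_lit 1) (nat_lit 1) (nat_lit 5) (nat_lit 7) (nat_lit 344) (nat_lit 281) r2_344 r5_281 (nat_lit 0) (nat_lit 0) (nat_lit 0) (nat_lit 0x80029938e) (nat_lit 1073741824),
  Rx.mk (nat_lit 345) (nat_lit 1) (nat_lit 3) (nat_lit 5) (nat_lit 7) (nat_lit 348) (nat_lit 284) r2_348 r5_284 (nat_lit 0) (nat_lit 0) (nat_lit 0) (nat_lit 0x80029938e) (nat_lit 1073741824),
  Rx.mk (nat_lit 449) (nat_lit 1) (nat_lit 0) (nat_lit 7) (nat_lit 5) (nat_lit 342) (nat_lit 278) r2_342 r5_278 (nat_lit 0) (nat_lit 5694937) (nat_lit 0) (nat_lit 0x7ff1f1540) (nat_lit 1080506361),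
  Rx.mk (nat_lit 453) (nat_lit 5) (nat_lit 0) (nat_lit 7) (nat_lit 5) (nat_lit 341) (nat_lit 275) r2_341 r5_275 (nat_lit 0) (nat_lit 5449534) (nat_lit 0) (nat_lit 0x80029938e) (nat_lit 1079191358),
  Rx.mk (nat_lit 457) (nat_lit 1) (nat_lit 1) (nat_lit 7) (nat_lit 7) (nat_lit 346) (nat_lit 282) r2_346 r5_282 (nat_lit 0) (nat_lit 0) (nat_lit 0) (nat_lit 0x80029938e) (nat_lit 1073741824),
  Rx.mk (nat_lit 461) (nat_lit 5) (nat_lit 1) (nat_lit 7) (nat_lit 7) (nat_lit 345) (nat_lit 279) r2_345 r5_279 (nat_lit 0) (nat_lit 0) (nat_lit 0) (nat_lit 0x80029938e) (nat_lit 1073741824)]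
noncomputable def e40_12 : List Rx := [
  Rx.mk (nat_lit 16) (nat_lit 0) (nat_lit 2) (nat_lit 0) (nat_lit 2) (nat_lit 64) (nat_lit 31) r2_64 r0_31 (nat_lit 340572) (nat_lit 0) (nat_lit 418407) (nat_lit 0x63d5cd998) (nat_lit 1544142803),
  Rx.mk (nat_lit 17) (nat_lit 1) (nat_lit 2) (nat_lit 0) (nat_lit 3) (nat_lit 65) (nat_lit 32) r2_65 r0_32 (nat_lit 0) (nat_lit 0) (nat_lit 2521905) (nat_lit 0x7ff8da2da) (nat_lit 1076883729),
  Rx.mk (nat_lit 18) (nat_lit 2) (nat_lit 2) (nat_lit 0) (nat_lit 3) (nat_lit 66) (nat_lit 33) r2_66 r0_33 (nat_lit 0) (nat_lit 0) (nat_lit 4691311) (nat_lit 0x7fd860edc) (nat_lit 1081143335),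
  Rx.mk (nat_lit 146) (nat_lit 2) (nat_lit 2) (nat_lit 2) (nat_lit 7) (nat_lit 67) (nat_lit 42) r2_67 r0_42 (nat_lit 0) (nat_lit 0) (nat_lit 0) (nat_lit 0x80029938e) (nat_lit 1073741824),
  Rx.mk (nat_lit 192) (nat_lit 0) (nat_lit 0) (nat_lit 3) (nat_lit 4) (nat_lit 62) (nat_lit 34) r2_62 r0_34 (nat_lit 546718) (nat_lit 1100011) (nat_lit 0) (nat_lit 0x5e324af1e) (nat_lit 1639056353),
  Rx.mk (nat_lit 193) (nat_lit 1) (nat_lit 0) (nat_lit 3) (nat_lit 5) (nat_lit 63) (nat_lit 35) r2_63 r0_35 (nat_lit 0) (nat_lit 6036329) (nat_lit 0) (nat_lit 0x7f3f12eb0) (nat_lit 1092440953),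
  Rx.mk (nat_lit 208) (nat_lit 0) (nat_lit 2) (nat_lit 3) (nat_lit 6) (nat_lit 68) (nat_lit 39) r2_68 r0_39 (nat_lit 372081) (nat_lit 0) (nat_lit 0) (nat_lit 0x80aa87848) (nat_lit 1063404905),
  Rx.mk (nat_lit 209) (nat_lit 1) (nat_lit 2) (nat_lit 3) (nat_lit 7) (nat_lit 69) (nat_lit 40) r2_69 r0_40 (nat_lit 0) (nat_lit 0) (nat_lit 0) (nat_lit 0x812965e80) (nat_lit 1055044524),
  Rx.mk (nat_lit 210) (nat_lit 2) (nat_lit 2) (nat_lit 3) (nat_lit 7) (nat_lit 70) (nat_lit 41) r2_70 r0_41 (nat_lit 0) (nat_lit 0) (nat_lit 0) (nat_lit 0x812d32e5a) (nat_lit 1054804324),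
  Rx.mk (nat_lit 216) (nat_lit 0) (nat_lit 3) (nat_lit 3) (nat_lit 6) (nat_lit 72) (nat_lit 36) r2_72 r0_36 (nat_lit 3680737) (nat_lit 0) (nat_lit 0) (nat_lit 0x7f050aae2) (nat_lit 1093861361),
  Rx.mk (nat_lit 217) (nat_lit 1) (nat_lit 3) (nat_lit 3) (nat_lit 7) (nat_lit 73) (nat_lit 37) r2_73 r0_37 (nat_lit 0) (nat_lit 0) (nat_lit 0) (nat_lit 0x8000ca71a) (nat_lit 1073857724),
  Rx.mk (nat_lit 219) (nat_lit 3) (nat_lit 3) (nat_lit 3) (nat_lit 7) (nat_lit 74) (nat_lit 38) r2_74 r0_38 (nat_lit 0) (nat_lit 0) (nat_lit 0) (nat_lit 0x8000ca71a) (nat_lit 1073857724),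
  Rx.mk (nat_lit 475) (nat_lit 3) (nat_lit 3) (nat_lit 7) (nat_lit 7) (nat_lit 71) (nat_lit 30) r2_71 r0_30 (nat_lit 0) (nat_lit 0) (nat_lit 0) (nat_lit 0x80029938e) (nat_lit 1073741824)]
noncomputable def e40_13 : List Rx := [
  Rx.mk (nat_lit 0) (nat_lit 0) (nat_lit 0) (nat_lit 0) (nat_lit 0) (nat_lit 189) (nat_lit 339) r2_189 r7_339 (nat_lit 194986) (nat_lit 399938) (nat_lit 161181) (nat_lit 0x36448175a) (nat_lit 2303875029),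
  Rx.mk (nat_lit 1) (nat_lit 1) (nat_lit 0) (nat_lit 0) (nat_lit 1) (nat_lit 190) (nat_lit 344) r2_190 r7_344 (nat_lit 0) (nat_lit 5488875) (nat_lit 5199218) (nat_lit 0x56490c8ae) (nat_lit 1780021717),
  Rx.mk (nat_lit 16) (nat_lit 0) (nat_lit 2) (nat_lit 0) (nat_lit 2) (nat_lit 193) (nat_lit 342) r2_193 r7_342 (nat_lit 1909851) (nat_lit 0) (nat_lit 1580289) (nat_lit 0x70324666e) (nat_lit 1340803264),
  Rx.mk (nat_lit 17) (nat_lit 1) (nat_lit 2) (nat_lit 0) (nat_lit 3) (nat_lit 194) (nat_lit 347) r2_194 r7_347 (nat_lit 0) (nat_lit 0) (nat_lit 5449534) (nat_lit 0x80029938e) (nat_lit 1079191358),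
  Rx.mk (nat_lit 18) (nat_lit 2) (nat_lit 2) (nat_lit 0) (nat_lit 3) (nat_lit 195) (nat_lit 350) r2_195 r7_350 (nat_lit 0) (nat_lit 0) (nat_lit 5449534) (nat_lit 0x7ffed32b8) (nat_lit 1079433358),
  Rx.mk (nat_lit 146) (nat_lit 2) (nat_lit 2) (nat_lit 2) (nat_lit 7) (nat_lit 196) (nat_lit 352) r2_196 r7_352 (nat_lit 0) (nat_lit 0) (nat_lit 0) (nat_lit 0x80029938e) (nat_lit 1073741824),
  Rx.mk (nat_lit 192) (nat_lit 0) (nat_lit 0) (nat_lit 3) (nat_lit 4) (nat_lit 191) (nat_lit 340) r2_191 r7_340 (nat_lit 3553214) (nat_lit 11611348) (nat_lit 0) (nat_lit 0x6c960b1d0) (nat_lit 1412675886),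
  Rx.mk (nat_lit 193) (nat_lit 1) (nat_lit 0) (nat_lit 3) (nat_lit 5) (nat_lit 192) (nat_lit 345) r2_192 r7_345 (nat_lit 0) (nat_lit 5449534) (nat_lit 0) (nat_lit 0x800095baa) (nat_lit 1079320458),
  Rx.mk (nat_lit 208) (nat_lit 0) (nat_lit 2) (nat_lit 3) (nat_lit 6) (nat_lit 197) (nat_lit 343) r2_197 r7_343 (nat_lit 5449534) (nat_lit 0) (nat_lit 0) (nat_lit 0x7ffc30790) (nat_lit 1079602458),
  Rx.mk (nat_lit 209) (nat_lit 1) (nat_lit 2) (nat_lit 3) (nat_lit 7) (nat_lit 198) (nat_lit 348) r2_198 r7_348 (nat_lit 0) (nat_lit 0) (nat_lit 0) (nat_lit 0x80029938e) (nat_lit 1073741824),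
  Rx.mk (nat_lit 210) (nat_lit 2) (nat_lit 2) (nat_lit 3) (nat_lit 7) (nat_lit 199) (nat_lit 351) r2_199 r7_351 (nat_lit 0) (nat_lit 0) (nat_lit 0) (nat_lit 0x80029938e) (nat_lit 1073741824),
  Rx.mk (nat_lit 216) (nat_lit 0) (nat_lit 3) (nat_lit 3) (nat_lit 6) (nat_lit 200) (nat_lit 341) r2_200 r7_341 (nat_lit 5449534) (nat_lit 0) (nat_lit 0) (nat_lit 0x7ffaf9476) (nat_lit 1079680458),
  Rx.mk (nat_lit 217) (nat_lit 1) (nat_lit 3) (nat_lit 3) (nat_lit 7) (nat_lit 201) (nat_lit 346) r2_201 r7_346 (nat_lit 0) (nat_lit 0) (nat_lit 0) (nat_lit 0x80029938e) (nat_lit 1073741824),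
  Rx.mk (nat_lit 219) (nat_lit 3) (nat_lit 3) (nat_lit 3) (nat_lit 7) (nat_lit 202) (nat_lit 349) r2_202 r7_349 (nat_lit 0) (nat_lit 0) (nat_lit 0) (nat_lit 0x80029938e) (nat_lit 1073741824)]
noncomputable def e40_14 : List Rx := [
  Rx.mk (nat_lit 16) (nat_lit 0) (nat_lit 2) (nat_lit 0) (nat_lit 2) (nat_lit 76) (nat_lit 31) r2_76 r1_31 (nat_lit 3982367) (nat_lit 0) (nat_lit 42604894) (nat_lit 0x703ff5cd8) (nat_lit 1383025585),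
  Rx.mk (nat_lit 18) (nat_lit 2) (nat_lit 2) (nat_lit 0) (nat_lit 3) (nat_lit 77) (nat_lit 32) r2_77 r1_32 (nat_lit 0) (nat_lit 0) (nat_lit 6403813) (nat_lit 0x7fe29b438) (nat_lit 1082202837),
  Rx.mk (nat_lit 146) (nat_lit 2) (nat_lit 2) (nat_lit 2) (nat_lit 7) (nat_lit 78) (nat_lit 38) r2_78 r1_38 (nat_lit 0) (nat_lit 0) (nat_lit 0) (nat_lit 0x80029938e) (nat_lit 1073741824),
  Rx.mk (nat_lit 192) (nat_lit 0) (nat_lit 0) (nat_lit 3) (nat_lit 4) (nat_lit 75) (nat_lit 33) r2_75 r1_33 (nat_lit 6015067) (nat_lit 9015506) (nat_lit 0) (nat_lit 0x725a13c30) (nat_lit 1316417397),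
  Rx.mk (nat_lit 208) (nat_lit 0) (nat_lit 2) (nat_lit 3) (nat_lit 6) (nat_lit 79) (nat_lit 36) r2_79 r1_36 (nat_lit 1294723) (nat_lit 0) (nat_lit 0) (nat_lit 0x817da7660) (nat_lit 1051014847),
  Rx.mk (nat_lit 210) (nat_lit 2) (nat_lit 2) (nat_lit 3) (nat_lit 7) (nat_lit 80) (nat_lit 37) r2_80 r1_37 (nat_lit 0) (nat_lit 0) (nat_lit 0) (nat_lit 0x804569894) (nat_lit 1069476124),
  Rx.mk (nat_lit 216) (nat_lit 0) (nat_lit 3) (nat_lit 3) (nat_lit 6) (nat_lit 82) (nat_lit 34) r2_82 r1_34 (nat_lit 5449534) (nat_lit 0) (nat_lit 0) (nat_lit 0x80029938e) (nat_lit 1079191358),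
  Rx.mk (nat_lit 219) (nat_lit 3) (nat_lit 3) (nat_lit 3) (nat_lit 7) (nat_lit 83) (nat_lit 35) r2_83 r1_35 (nat_lit 0) (nat_lit 0) (nat_lit 0) (nat_lit 0x80029938e) (nat_lit 1073741824),
  Rx.mk (nat_lit 475) (nat_lit 3) (nat_lit 3) (nat_lit 7) (nat_lit 7) (nat_lit 81) (nat_lit 30) r2_81 r1_30 (nat_lit 0) (nat_lit 0) (nat_lit 0) (nat_lit 0x80029938e) (nat_lit 1073741824)]
noncomputable def e40_15 : List Rx := [
  Rx.mk (nat_lit 0) (nat_lit 0) (nat_lit 0) (nat_lit 0) (nat_lit 0) (nat_lit 221) (nat_lit 257) r2_221 r8_257 (nat_lit 1804445) (nat_lit 1910946) (nat_lit 1552451) (nat_lit 0x3df2a5050) (nat_lit 2180372566),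
  Rx.mk (nat_lit 16) (nat_lit 0) (nat_lit 2) (nat_lit 0) (nat_lit 2) (nat_lit 223) (nat_lit 260) r2_223 r8_260 (nat_lit 5335424) (nat_lit 0) (nat_lit 3733423) (nat_lit 0x6f125636e) (nat_lit 1365141671),
  Rx.mk (nat_lit 18) (nat_lit 2) (nat_lit 2) (nat_lit 0) (nat_lit 3) (nat_lit 224) (nat_lit 263) r2_224 r8_263 (nat_lit 0) (nat_lit 0) (nat_lit 5449534) (nat_lit 0x80029938e) (nat_lit 1079191358),
  Rx.mk (nat_lit 146) (nat_lit 2) (nat_lit 2) (nat_lit 2) (nat_lit 7) (nat_lit 225) (nat_lit 265) r2_225 r8_265 (nat_lit 0) (nat_lit 0) (nat_lit 0) (nat_lit 0x80029938e) (nat_lit 1073741824),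
  Rx.mk (nat_lit 192) (nat_lit 0) (nat_lit 0) (nat_lit 3) (nat_lit 4) (nat_lit 222) (nat_lit 258) r2_222 r8_258 (nat_lit 6579376) (nat_lit 4576373) (nat_lit 0) (nat_lit 0x6c0b68fb4) (nat_lit 1417697373),
  Rx.mk (nat_lit 208) (nat_lit 0) (nat_lit 2) (nat_lit 3) (nat_lit 6) (nat_lit 226) (nat_lit 261) r2_226 r8_261 (nat_lit 5449534) (nat_lit 0) (nat_lit 0) (nat_lit 0x80029938e) (nat_lit 1079191358),
  Rx.mk (nat_lit 210) (nat_lit 2) (nat_lit 2) (nat_lit 3) (nat_lit 7) (nat_lit 227) (nat_lit 264) r2_227 r8_264 (nat_lit 0) (nat_lit 0) (nat_lit 0) (nat_lit 0x80029938e) (nat_lit 1073741824),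
  Rx.mk (nat_lit 216) (nat_lit 0) (nat_lit 3) (nat_lit 3) (nat_lit 6) (nat_lit 228) (nat_lit 259) r2_228 r8_259 (nat_lit 5449534) (nat_lit 0) (nat_lit 0) (nat_lit 0x80029938e) (nat_lit 1079191358),
  Rx.mk (nat_lit 219) (nat_lit 3) (nat_lit 3) (nat_lit 3) (nat_lit 7) (nat_lit 229) (nat_lit 262) r2_229 r8_262 (nat_lit 0) (nat_lit 0) (nat_lit 0) (nat_lit 0x80029938e) (nat_lit 1073741824)]
noncomputable def e40_16 : List Rx := [
  Rx.mk (nat_lit 0) (nat_lit 0) (nat_lit 0) (nat_lit 0) (nat_lit 0) (nat_lit 203) (nat_lit 25) r2_203 r8_25 (nat_lit 1156022) (nat_lit 3308338) (nat_lit 993709) (nat_lit 0x3dbd28666) (nat_lit 2184039993),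
  Rx.mk (nat_lit 1) (nat_lit 1) (nat_lit 0) (nat_lit 0) (nat_lit 1) (nat_lit 204) (nat_lit 26) r2_204 r8_26 (nat_lit 0) (nat_lit 9535202) (nat_lit 7095241) (nat_lit 0x62dbf9de0) (nat_lit 1576319567),
  Rx.mk (nat_lit 16) (nat_lit 0) (nat_lit 2) (nat_lit 0) (nat_lit 2) (nat_lit 209) (nat_lit 27) r2_209 r8_27 (nat_lit 2433110) (nat_lit 0) (nat_lit 1896956) (nat_lit 0x6c3167f62) (nat_lit 1408391590),
  Rx.mk (nat_lit 17) (nat_lit 1) (nat_lit 2) (nat_lit 0) (nat_lit 3) (nat_lit 210) (nat_lit 28) r2_210 r8_28 (nat_lit 0) (nat_lit 0) (nat_lit 5449534) (nat_lit 0x80029938e) (nat_lit 1079191358),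
  Rx.mk (nat_lit 18) (nat_lit 2) (nat_lit 2) (nat_lit 0) (nat_lit 3) (nat_lit 211) (nat_lit 29) r2_211 r8_29 (nat_lit 0) (nat_lit 0) (nat_lit 5449534) (nat_lit 0x800025e9a) (nat_lit 1079348458),
  Rx.mk (nat_lit 64) (nat_lit 0) (nat_lit 0) (nat_lit 1) (nat_lit 4) (nat_lit 205) (nat_lit 30) r2_205 r8_30 (nat_lit 14795548) (nat_lit 9407743) (nat_lit 0) (nat_lit 0x6e1ef5760) (nat_lit 1396127315),
  Rx.mk (nat_lit 65) (nat_lit 1) (nat_lit 0) (nat_lit 1) (nat_lit 5) (nat_lit 206) (nat_lit 31) r2_206 r8_31 (nat_lit 0) (nat_lit 5449534) (nat_lit 0) (nat_lit 0x80029938e) (nat_lit 1079191358),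
  Rx.mk (nat_lit 80) (nat_lit 0) (nat_lit 2) (nat_lit 1) (nat_lit 6) (nat_lit 212) (nat_lit 32) r2_212 r8_32 (nat_lit 5449534) (nat_lit 0) (nat_lit 0) (nat_lit 0x80029938e) (nat_lit 1079191358),
  Rx.mk (nat_lit 81) (nat_lit 1) (nat_lit 2) (nat_lit 1) (nat_lit 7) (nat_lit 213) (nat_lit 33) r2_213 r8_33 (nat_lit 0) (nat_lit 0) (nat_lit 0) (nat_lit 0x80029938e) (nat_lit 1073741824),
  Rx.mk (nat_lit 82) (nat_lit 2) (nat_lit 2) (nat_lit 1) (nat_lit 7) (nat_lit 214) (nat_lit 34) r2_214 r8_34 (nat_lit 0) (nat_lit 0) (nat_lit 0) (nat_lit 0x80029938e) (nat_lit 1073741824),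
  Rx.mk (nat_lit 146) (nat_lit 2) (nat_lit 2) (nat_lit 2) (nat_lit 7) (nat_lit 215) (nat_lit 42) r2_215 r8_42 (nat_lit 0) (nat_lit 0) (nat_lit 0) (nat_lit 0x80029938e) (nat_lit 1073741824),
  Rx.mk (nat_lit 192) (nat_lit 0) (nat_lit 0) (nat_lit 3) (nat_lit 4) (nat_lit 207) (nat_lit 35) r2_207 r8_35 (nat_lit 8977988) (nat_lit 3132479) (nat_lit 0) (nat_lit 0x705befb3c) (nat_lit 1346715391),
  Rx.mk (nat_lit 193) (nat_lit 1) (nat_lit 0) (nat_lit 3) (nat_lit 5) (nat_lit 208) (nat_lit 36) r2_208 r8_36 (nat_lit 0) (nat_lit 5449534) (nat_lit 0) (nat_lit 0x80029938e) (nat_lit 1079191358),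
  Rx.mk (nat_lit 208) (nat_lit 0) (nat_lit 2) (nat_lit 3) (nat_lit 6) (nat_lit 216) (nat_lit 40) r2_216 r8_40 (nat_lit 5449534) (nat_lit 0) (nat_lit 0) (nat_lit 0x8001635b4) (nat_lit 1079268958),
  Rx.mk (nat_lit 209) (nat_lit 1) (nat_lit 2) (nat_lit 3) (nat_lit 7) (nat_lit 217) (nat_lit 41) r2_217 r8_41 (nat_lit 0) (nat_lit 0) (nat_lit 0) (nat_lit 0x80029938e) (nat_lit 1073741824),
  Rx.mk (nat_lit 216) (nat_lit 0) (nat_lit 3) (nat_lit 3) (nat_lit 6) (nat_lit 218) (nat_lit 37) r2_218 r8_37 (nat_lit 5449534) (nat_lit 0) (nat_lit 0) (nat_lit 0x80029938e) (nat_lit 1079191358),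
  Rx.mk (nat_lit 217) (nat_lit 1) (nat_lit 3) (nat_lit 3) (nat_lit 7) (nat_lit 219) (nat_lit 38) r2_219 r8_38 (nat_lit 0) (nat_lit 0) (nat_lit 0) (nat_lit 0x80029938e) (nat_lit 1073741824),
  Rx.mk (nat_lit 219) (nat_lit 3) (nat_lit 3) (nat_lit 3) (nat_lit 7) (nat_lit 220) (nat_lit 39) r2_220 r8_39 (nat_lit 0) (nat_lit 0) (nat_lit 0) (nat_lit 0x80029938e) (nat_lit 1073741824)]
noncomputable def e40_17 : List Rx := [
  Rx.mk (nat_lit 64) (nat_lit 0) (nat_lit 0) (nat_lit 1) (nat_lit 4) (nat_lit 316) (nat_lit 260) r2_316 r9_260 (nat_lit 11852734) (nat_lit 14127797) (nat_lit 0) (nat_lit 0x69ce79236) (nat_lit 1469837355),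
  Rx.mk (nat_lit 65) (nat_lit 1) (nat_lit 0) (nat_lit 1) (nat_lit 5) (nat_lit 317) (nat_lit 262) r2_317 r9_262 (nat_lit 0) (nat_lit 5449534) (nat_lit 0) (nat_lit 0x80029938e) (nat_lit 1079191358),
  Rx.mk (nat_lit 73) (nat_lit 1) (nat_lit 1) (nat_lit 1) (nat_lit 7) (nat_lit 318) (nat_lit 263) r2_318 r9_263 (nat_lit 0) (nat_lit 0) (nat_lit 0) (nat_lit 0x80029938e) (nat_lit 1073741824),
  Rx.mk (nat_lit 80) (nat_lit 0) (nat_lit 2) (nat_lit 1) (nat_lit 6) (nat_lit 319) (nat_lit 261) r2_319 r9_261 (nat_lit 5449534) (nat_lit 0) (nat_lit 0) (nat_lit 0x80029938e) (nat_lit 1079191358),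
  Rx.mk (nat_lit 81) (nat_lit 1) (nat_lit 2) (nat_lit 1) (nat_lit 7) (nat_lit 320) (nat_lit 264) r2_320 r9_264 (nat_lit 0) (nat_lit 0) (nat_lit 0) (nat_lit 0x80029938e) (nat_lit 1073741824),
  Rx.mk (nat_lit 82) (nat_lit 2) (nat_lit 2) (nat_lit 1) (nat_lit 7) (nat_lit 321) (nat_lit 265) r2_321 r9_265 (nat_lit 0) (nat_lit 0) (nat_lit 0) (nat_lit 0x80029938e) (nat_lit 1073741824)]
noncomputable def e40_18 : List Rx := [
  Rx.mk (nat_lit 192) (nat_lit 0) (nat_lit 0) (nat_lit 3) (nat_lit 4) (nat_lit 84) (nat_lit 24) r2_84 r4_24 (nat_lit 2064465) (nat_lit 5168713) (nat_lit 0) (nat_lit 0x73a0c98a4) (nat_lit 1287332102),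
  Rx.mk (nat_lit 193) (nat_lit 1) (nat_lit 0) (nat_lit 3) (nat_lit 5) (nat_lit 85) (nat_lit 25) r2_85 r4_25 (nat_lit 0) (nat_lit 5449534) (nat_lit 0) (nat_lit 0x8013ee13e) (nat_lit 1078081258),
  Rx.mk (nat_lit 208) (nat_lit 0) (nat_lit 2) (nat_lit 3) (nat_lit 6) (nat_lit 86) (nat_lit 28) r2_86 r4_28 (nat_lit 981855) (nat_lit 0) (nat_lit 0) (nat_lit 0x81f2f3770) (nat_lit 1043286379),
  Rx.mk (nat_lit 209) (nat_lit 1) (nat_lit 2) (nat_lit 3) (nat_lit 7) (nat_lit 87) (nat_lit 29) r2_87 r4_29 (nat_lit 0) (nat_lit 0) (nat_lit 0) (nat_lit 0x80b67c950) (nat_lit 1062312624),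
  Rx.mk (nat_lit 210) (nat_lit 2) (nat_lit 2) (nat_lit 3) (nat_lit 7) (nat_lit 88) (nat_lit 30) r2_88 r4_30 (nat_lit 0) (nat_lit 0) (nat_lit 0) (nat_lit 0x80a87cb7a) (nat_lit 1063197724),
  Rx.mk (nat_lit 216) (nat_lit 0) (nat_lit 3) (nat_lit 3) (nat_lit 6) (nat_lit 92) (nat_lit 26) r2_92 r4_26 (nat_lit 3829066) (nat_lit 0) (nat_lit 0) (nat_lit 0x8024942a4) (nat_lit 1075399190),
  Rx.mk (nat_lit 217) (nat_lit 1) (nat_lit 3) (nat_lit 3) (nat_lit 7) (nat_lit 93) (nat_lit 27) r2_93 r4_27 (nat_lit 0) (nat_lit 0) (nat_lit 0) (nat_lit 0x80029938e) (nat_lit 1073741824),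
  Rx.mk (nat_lit 472) (nat_lit 0) (nat_lit 3) (nat_lit 7) (nat_lit 6) (nat_lit 89) (nat_lit 21) r2_89 r4_21 (nat_lit 3660100) (nat_lit 0) (nat_lit 0) (nat_lit 0x8028ab1a8) (nat_lit 1074969124),
  Rx.mk (nat_lit 473) (nat_lit 1) (nat_lit 3) (nat_lit 7) (nat_lit 7) (nat_lit 90) (nat_lit 22) r2_90 r4_22 (nat_lit 0) (nat_lit 0) (nat_lit 0) (nat_lit 0x80029938e) (nat_lit 1073741824),
  Rx.mk (nat_lit 475) (nat_lit 3) (nat_lit 3) (nat_lit 7) (nat_lit 7) (nat_lit 91) (nat_lit 23) r2_91 r4_23 (nat_lit 0) (nat_lit 0) (nat_lit 0) (nat_lit 0x80029938e) (nat_lit 1073741824)]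
noncomputable def e40_19 : List Rx := [
  Rx.mk (nat_lit 192) (nat_lit 0) (nat_lit 0) (nat_lit 3) (nat_lit 4) (nat_lit 230) (nat_lit 292) r2_230 r10_292 (nat_lit 2760723) (nat_lit 4401173) (nat_lit 0) (nat_lit 0x6c070f076) (nat_lit 1413974020),
  Rx.mk (nat_lit 193) (nat_lit 1) (nat_lit 0) (nat_lit 3) (nat_lit 5) (nat_lit 231) (nat_lit 295) r2_231 r10_295 (nat_lit 0) (nat_lit 5449534) (nat_lit 0) (nat_lit 0x80029938e) (nat_lit 1079191358),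
  Rx.mk (nat_lit 208) (nat_lit 0) (nat_lit 2) (nat_lit 3) (nat_lit 6) (nat_lit 232) (nat_lit 294) r2_232 r10_294 (nat_lit 5449534) (nat_lit 0) (nat_lit 0) (nat_lit 0x80029938e) (nat_lit 1079191358),
  Rx.mk (nat_lit 209) (nat_lit 1) (nat_lit 2) (nat_lit 3) (nat_lit 7) (nat_lit 233) (nat_lit 297) r2_233 r10_297 (nat_lit 0) (nat_lit 0) (nat_lit 0) (nat_lit 0x80029938e) (nat_lit 1073741824),
  Rx.mk (nat_lit 210) (nat_lit 2) (nat_lit 2) (nat_lit 3) (nat_lit 7) (nat_lit 234) (nat_lit 298) r2_234 r10_298 (nat_lit 0) (nat_lit 0) (nat_lit 0) (nat_lit 0x80029938e) (nat_lit 1073741824),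
  Rx.mk (nat_lit 216) (nat_lit 0) (nat_lit 3) (nat_lit 3) (nat_lit 6) (nat_lit 235) (nat_lit 293) r2_235 r10_293 (nat_lit 5449534) (nat_lit 0) (nat_lit 0) (nat_lit 0x80029938e) (nat_lit 1079191358),
  Rx.mk (nat_lit 217) (nat_lit 1) (nat_lit 3) (nat_lit 3) (nat_lit 7) (nat_lit 236) (nat_lit 296) r2_236 r10_296 (nat_lit 0) (nat_lit 0) (nat_lit 0) (nat_lit 0x80029938e) (nat_lit 1073741824)]
noncomputable def e40_20 : List Rx := [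
  Rx.mk (nat_lit 192) (nat_lit 0) (nat_lit 0) (nat_lit 3) (nat_lit 4) (nat_lit 260) (nat_lit 308) r2_260 r11_308 (nat_lit 9315237) (nat_lit 10390094) (nat_lit 0) (nat_lit 0x78a9c488c) (nat_lit 1215867155),
  Rx.mk (nat_lit 193) (nat_lit 1) (nat_lit 0) (nat_lit 3) (nat_lit 5) (nat_lit 261) (nat_lit 312) r2_261 r11_312 (nat_lit 0) (nat_lit 5449534) (nat_lit 0) (nat_lit 0x80029938e) (nat_lit 1079191358),
  Rx.mk (nat_lit 208) (nat_lit 0) (nat_lit 2) (nat_lit 3) (nat_lit 6) (nat_lit 262) (nat_lit 311) r2_262 r11_311 (nat_lit 2910432) (nat_lit 0) (nat_lit 0) (nat_lit 0x804c46c02) (nat_lit 1071955056),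
  Rx.mk (nat_lit 209) (nat_lit 1) (nat_lit 2) (nat_lit 3) (nat_lit 7) (nat_lit 263) (nat_lit 315) r2_263 r11_315 (nat_lit 0) (nat_lit 0) (nat_lit 0) (nat_lit 0x80029938e) (nat_lit 1073741824),
  Rx.mk (nat_lit 210) (nat_lit 2) (nat_lit 2) (nat_lit 3) (nat_lit 7) (nat_lit 264) (nat_lit 317) r2_264 r11_317 (nat_lit 0) (nat_lit 0) (nat_lit 0) (nat_lit 0x80029938e) (nat_lit 1073741824),
  Rx.mk (nat_lit 448) (nat_lit 0) (nat_lit 0) (nat_lit 7) (nat_lit 4) (nat_lit 258) (nat_lit 309) r2_258 r11_309 (nat_lit 9794519) (nat_lit 10365630) (nat_lit 0) (nat_lit 0x7c8c29d82) (nat_lit 1151554373),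
  Rx.mk (nat_lit 449) (nat_lit 1) (nat_lit 0) (nat_lit 7) (nat_lit 5) (nat_lit 259) (nat_lit 313) r2_259 r11_313 (nat_lit 0) (nat_lit 5449534) (nat_lit 0) (nat_lit 0x80029938e) (nat_lit 1079191358),
  Rx.mk (nat_lit 472) (nat_lit 0) (nat_lit 3) (nat_lit 7) (nat_lit 6) (nat_lit 265) (nat_lit 310) r2_265 r11_310 (nat_lit 5449534) (nat_lit 0) (nat_lit 0) (nat_lit 0x80029938e) (nat_lit 1079191358),
  Rx.mk (nat_lit 473) (nat_lit 1) (nat_lit 3) (nat_lit 7) (nat_lit 7) (nat_lit 266) (nat_lit 314) r2_266 r11_314 (nat_lit 0) (nat_lit 0) (nat_lit 0) (nat_lit 0x80029938e) (nat_lit 1073741824),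
  Rx.mk (nat_lit 475) (nat_lit 3) (nat_lit 3) (nat_lit 7) (nat_lit 7) (nat_lit 267) (nat_lit 316) r2_267 r11_316 (nat_lit 0) (nat_lit 0) (nat_lit 0) (nat_lit 0x80029938e) (nat_lit 1073741824)]
noncomputable def e40_21 : List Rx := [
  Rx.mk (nat_lit 73) (nat_lit 1) (nat_lit 1) (nat_lit 1) (nat_lit 7) (nat_lit 315) (nat_lit 293) r2_315 r9_293 (nat_lit 0) (nat_lit 0) (nat_lit 0) (nat_lit 0x80029938e) (nat_lit 1073741824)]
noncomputable def e40_22 : List Rx := [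
  Rx.mk (nat_lit 265) (nat_lit 1) (nat_lit 1) (nat_lit 4) (nat_lit 3) (nat_lit 281) (nat_lit 285) r2_281 r0_285 (nat_lit 0) (nat_lit 0) (nat_lit 28102838) (nat_lit 0x7a7179430) (nat_lit 1194573262),
  Rx.mk (nat_lit 269) (nat_lit 5) (nat_lit 1) (nat_lit 4) (nat_lit 3) (nat_lit 280) (nat_lit 286) r2_280 r0_286 (nat_lit 0) (nat_lit 0) (nat_lit 7374549) (nat_lit 0x7eb2c9990) (nat_lit 1102910273),
  Rx.mk (nat_lit 329) (nat_lit 1) (nat_lit 1) (nat_lit 5) (nat_lit 7) (nat_lit 283) (nat_lit 287) r2_283 r0_287 (nat_lit 0) (nat_lit 0) (nat_lit 0) (nat_lit 0x80029938e) (nat_lit 1073741824),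
  Rx.mk (nat_lit 333) (nat_lit 5) (nat_lit 1) (nat_lit 5) (nat_lit 7) (nat_lit 282) (nat_lit 288) r2_282 r0_288 (nat_lit 0) (nat_lit 0) (nat_lit 0) (nat_lit 0x80029938e) (nat_lit 1073741824)]
noncomputable def e40_23 : List Rx := [
  Rx.mk (nat_lit 265) (nat_lit 1) (nat_lit 1) (nat_lit 4) (nat_lit 3) (nat_lit 298) (nat_lit 280) r2_298 r1_280 (nat_lit 0) (nat_lit 0) (nat_lit 8236166) (nat_lit 0x80037e826) (nat_lit 1081916390),
  Rx.mk (nat_lit 269) (nat_lit 5) (nat_lit 1) (nat_lit 4) (nat_lit 3) (nat_lit 297) (nat_lit 281) r2_297 r1_281 (nat_lit 0) (nat_lit 0) (nat_lit 5449534) (nat_lit 0x7fe147668) (nat_lit 1081333358),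
  Rx.mk (nat_lit 301) (nat_lit 5) (nat_lit 5) (nat_lit 4) (nat_lit 3) (nat_lit 295) (nat_lit 282) r2_295 r1_282 (nat_lit 0) (nat_lit 0) (nat_lit 5449534) (nat_lit 0x7fec59132) (nat_lit 1080620558),
  Rx.mk (nat_lit 329) (nat_lit 1) (nat_lit 1) (nat_lit 5) (nat_lit 7) (nat_lit 300) (nat_lit 283) r2_300 r1_283 (nat_lit 0) (nat_lit 0) (nat_lit 0) (nat_lit 0x80029938e) (nat_lit 1073741824),
  Rx.mk (nat_lit 333) (nat_lit 5) (nat_lit 1) (nat_lit 5) (nat_lit 7) (nat_lit 299) (nat_lit 284) r2_299 r1_284 (nat_lit 0) (nat_lit 0) (nat_lit 0) (nat_lit 0x80029938e) (nat_lit 1073741824),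
  Rx.mk (nat_lit 365) (nat_lit 5) (nat_lit 5) (nat_lit 5) (nat_lit 7) (nat_lit 296) (nat_lit 285) r2_296 r1_285 (nat_lit 0) (nat_lit 0) (nat_lit 0) (nat_lit 0x80029938e) (nat_lit 1073741824)]
noncomputable def e40_24 : List Rx := [
  Rx.mk (nat_lit 265) (nat_lit 1) (nat_lit 1) (nat_lit 4) (nat_lit 3) (nat_lit 350) (nat_lit 299) r2_350 r4_299 (nat_lit 0) (nat_lit 0) (nat_lit 10500472) (nat_lit 0x7e885e7aa) (nat_lit 1108800696),
  Rx.mk (nat_lit 269) (nat_lit 5) (nat_lit 1) (nat_lit 4) (nat_lit 3) (nat_lit 349) (nat_lit 300) r2_349 r4_300 (nat_lit 0) (nat_lit 0) (nat_lit 5449534) (nat_lit 0x7ff8e874a) (nat_lit 1079813058),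
  Rx.mk (nat_lit 329) (nat_lit 1) (nat_lit 1) (nat_lit 5) (nat_lit 7) (nat_lit 352) (nat_lit 301) r2_352 r4_301 (nat_lit 0) (nat_lit 0) (nat_lit 0) (nat_lit 0x80029938e) (nat_lit 1073741824),
  Rx.mk (nat_lit 333) (nat_lit 5) (nat_lit 1) (nat_lit 5) (nat_lit 7) (nat_lit 351) (nat_lit 302) r2_351 r4_302 (nat_lit 0) (nat_lit 0) (nat_lit 0) (nat_lit 0x80029938e) (nat_lit 1073741824),
  Rx.mk (nat_lit 461) (nat_lit 5) (nat_lit 1) (nat_lit 7) (nat_lit 7) (nat_lit 353) (nat_lit 303) r2_353 r4_303 (nat_lit 0) (nat_lit 0) (nat_lit 0) (nat_lit 0x80029938e) (nat_lit 1073741824)]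
noncomputable def e40_25 : List Rx := [
  Rx.mk (nat_lit 329) (nat_lit 1) (nat_lit 1) (nat_lit 5) (nat_lit 7) (nat_lit 285) (nat_lit 400) r2_285 r7_400 (nat_lit 0) (nat_lit 0) (nat_lit 0) (nat_lit 0x80029938e) (nat_lit 1073741824),
  Rx.mk (nat_lit 333) (nat_lit 5) (nat_lit 1) (nat_lit 5) (nat_lit 7) (nat_lit 284) (nat_lit 399) r2_284 r7_399 (nat_lit 0) (nat_lit 0) (nat_lit 0) (nat_lit 0x80029938e) (nat_lit 1073741824)]
noncomputable def e40_26 : List Rx := [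
  Rx.mk (nat_lit 329) (nat_lit 1) (nat_lit 1) (nat_lit 5) (nat_lit 7) (nat_lit 303) (nat_lit 322) r2_303 r8_322 (nat_lit 0) (nat_lit 0) (nat_lit 0) (nat_lit 0x80029938e) (nat_lit 1073741824),
  Rx.mk (nat_lit 333) (nat_lit 5) (nat_lit 1) (nat_lit 5) (nat_lit 7) (nat_lit 302) (nat_lit 321) r2_302 r8_321 (nat_lit 0) (nat_lit 0) (nat_lit 0) (nat_lit 0x80029938e) (nat_lit 1073741824),
  Rx.mk (nat_lit 365) (nat_lit 5) (nat_lit 5) (nat_lit 5) (nat_lit 7) (nat_lit 301) (nat_lit 320) r2_301 r8_320 (nat_lit 0) (nat_lit 0) (nat_lit 0) (nat_lit 0x80029938e) (nat_lit 1073741824)]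
noncomputable def e40_27 : List Rx := [
  Rx.mk (nat_lit 73) (nat_lit 1) (nat_lit 1) (nat_lit 1) (nat_lit 7) (nat_lit 314) (nat_lit 320) r2_314 r8_320 (nat_lit 0) (nat_lit 0) (nat_lit 0) (nat_lit 0x80029938e) (nat_lit 1073741824),
  Rx.mk (nat_lit 329) (nat_lit 1) (nat_lit 1) (nat_lit 5) (nat_lit 7) (nat_lit 313) (nat_lit 321) r2_313 r8_321 (nat_lit 0) (nat_lit 0) (nat_lit 0) (nat_lit 0x80029938e) (nat_lit 1073741824),
  Rx.mk (nat_lit 333) (nat_lit 5) (nat_lit 1) (nat_lit 5) (nat_lit 7) (nat_lit 312) (nat_lit 322) r2_312 r8_322 (nat_lit 0) (nat_lit 0) (nat_lit 0) (nat_lit 0x80029938e) (nat_lit 1073741824)]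
noncomputable def e40_28 : List Rx := [
  Rx.mk (nat_lit 329) (nat_lit 1) (nat_lit 1) (nat_lit 5) (nat_lit 7) (nat_lit 355) (nat_lit 324) r2_355 r10_324 (nat_lit 0) (nat_lit 0) (nat_lit 0) (nat_lit 0x80029938e) (nat_lit 1073741824),
  Rx.mk (nat_lit 333) (nat_lit 5) (nat_lit 1) (nat_lit 5) (nat_lit 7) (nat_lit 354) (nat_lit 323) r2_354 r10_323 (nat_lit 0) (nat_lit 0) (nat_lit 0) (nat_lit 0x80029938e) (nat_lit 1073741824)]
noncomputable def e40_29 : List Rx := [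
  Rx.mk (nat_lit 265) (nat_lit 1) (nat_lit 1) (nat_lit 4) (nat_lit 3) (nat_lit 356) (nat_lit 340) r2_356 r11_340 (nat_lit 0) (nat_lit 0) (nat_lit 6662062) (nat_lit 0x7fca8b1a4) (nat_lit 1084015286),
  Rx.mk (nat_lit 329) (nat_lit 1) (nat_lit 1) (nat_lit 5) (nat_lit 7) (nat_lit 357) (nat_lit 341) r2_357 r11_341 (nat_lit 0) (nat_lit 0) (nat_lit 0) (nat_lit 0x80029938e) (nat_lit 1073741824),
  Rx.mk (nat_lit 457) (nat_lit 1) (nat_lit 1) (nat_lit 7) (nat_lit 7) (nat_lit 359) (nat_lit 342) r2_359 r11_342 (nat_lit 0) (nat_lit 0) (nat_lit 0) (nat_lit 0x80029938e) (nat_lit 1073741824),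
  Rx.mk (nat_lit 461) (nat_lit 5) (nat_lit 1) (nat_lit 7) (nat_lit 7) (nat_lit 358) (nat_lit 339) r2_358 r11_339 (nat_lit 0) (nat_lit 0) (nat_lit 0) (nat_lit 0x80029938e) (nat_lit 1073741824)]
noncomputable def e40_30 : List Rx := [
  Rx.mk (nat_lit 217) (nat_lit 1) (nat_lit 3) (nat_lit 3) (nat_lit 7) (nat_lit 97) (nat_lit 15) r2_97 r5_15 (nat_lit 0) (nat_lit 0) (nat_lit 0) (nat_lit 0x80300ae4e) (nat_lit 1070836624),
  Rx.mk (nat_lit 473) (nat_lit 1) (nat_lit 3) (nat_lit 7) (nat_lit 7) (nat_lit 96) (nat_lit 14) r2_96 r5_14 (nat_lit 0) (nat_lit 0) (nat_lit 0) (nat_lit 0x80029938e) (nat_lit 1073741824)]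
noncomputable def e40_31 : List Rx := [
  Rx.mk (nat_lit 217) (nat_lit 1) (nat_lit 3) (nat_lit 3) (nat_lit 7) (nat_lit 237) (nat_lit 5) r2_237 r11_5 (nat_lit 0) (nat_lit 0) (nat_lit 0) (nat_lit 0x80029938e) (nat_lit 1073741824)]
noncomputable def e40_32 : List Rx := [
  Rx.mk (nat_lit 281) (nat_lit 1) (nat_lit 3) (nat_lit 4) (nat_lit 3) (nat_lit 270) (nat_lit 289) r2_270 r6_289 (nat_lit 0) (nat_lit 0) (nat_lit 7559055) (nat_lit 0x7fe1044e4) (nat_lit 1083462579),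
  Rx.mk (nat_lit 285) (nat_lit 5) (nat_lit 3) (nat_lit 4) (nat_lit 3) (nat_lit 269) (nat_lit 286) r2_269 r6_286 (nat_lit 0) (nat_lit 0) (nat_lit 5695451) (nat_lit 0x7fda6cc12) (nat_lit 1082026575),
  Rx.mk (nat_lit 453) (nat_lit 5) (nat_lit 0) (nat_lit 7) (nat_lit 5) (nat_lit 268) (nat_lit 287) r2_268 r6_287 (nat_lit 0) (nat_lit 16748008) (nat_lit 0) (nat_lit 0x7f8b4521a) (nat_lit 1098207132),
  Rx.mk (nat_lit 477) (nat_lit 5) (nat_lit 3) (nat_lit 7) (nat_lit 7) (nat_lit 271) (nat_lit 288) r2_271 r6_288 (nat_lit 0) (nat_lit 0) (nat_lit 0) (nat_lit 0x80029938e) (nat_lit 1073741824)]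
noncomputable def e40_33 : List Rx := [
  Rx.mk (nat_lit 261) (nat_lit 5) (nat_lit 0) (nat_lit 4) (nat_lit 1) (nat_lit 360) (nat_lit 276) r2_360 r5_276 (nat_lit 0) (nat_lit 5058101) (nat_lit 5025424) (nat_lit 0x55552dd46) (nat_lit 1795302649),
  Rx.mk (nat_lit 269) (nat_lit 5) (nat_lit 1) (nat_lit 4) (nat_lit 3) (nat_lit 363) (nat_lit 277) r2_363 r5_277 (nat_lit 0) (nat_lit 0) (nat_lit 5449534) (nat_lit 0x80029938e) (nat_lit 1079191358),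
  Rx.mk (nat_lit 281) (nat_lit 1) (nat_lit 3) (nat_lit 4) (nat_lit 3) (nat_lit 367) (nat_lit 275) r2_367 r5_275 (nat_lit 0) (nat_lit 0) (nat_lit 5449534) (nat_lit 0x80029938e) (nat_lit 1079191358),
  Rx.mk (nat_lit 285) (nat_lit 5) (nat_lit 3) (nat_lit 4) (nat_lit 3) (nat_lit 366) (nat_lit 278) r2_366 r5_278 (nat_lit 0) (nat_lit 0) (nat_lit 5694937) (nat_lit 0x7ff1f1540) (nat_lit 1080506361),
  Rx.mk (nat_lit 325) (nat_lit 5) (nat_lit 0) (nat_lit 5) (nat_lit 5) (nat_lit 361) (nat_lit 280) r2_361 r5_280 (nat_lit 0) (nat_lit 55595022) (nat_lit 0) (nat_lit 0x7292f7cc2) (nat_lit 1353270946),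
  Rx.mk (nat_lit 333) (nat_lit 5) (nat_lit 1) (nat_lit 5) (nat_lit 7) (nat_lit 364) (nat_lit 281) r2_364 r5_281 (nat_lit 0) (nat_lit 0) (nat_lit 0) (nat_lit 0x80029938e) (nat_lit 1073741824),
  Rx.mk (nat_lit 345) (nat_lit 1) (nat_lit 3) (nat_lit 5) (nat_lit 7) (nat_lit 369) (nat_lit 279) r2_369 r5_279 (nat_lit 0) (nat_lit 0) (nat_lit 0) (nat_lit 0x80029938e) (nat_lit 1073741824),
  Rx.mk (nat_lit 349) (nat_lit 5) (nat_lit 3) (nat_lit 5) (nat_lit 7) (nat_lit 368) (nat_lit 282) r2_368 r5_282 (nat_lit 0) (nat_lit 0) (nat_lit 0) (nat_lit 0x80029938e) (nat_lit 1073741824),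
  Rx.mk (nat_lit 453) (nat_lit 5) (nat_lit 0) (nat_lit 7) (nat_lit 5) (nat_lit 362) (nat_lit 283) r2_362 r5_283 (nat_lit 0) (nat_lit 7517454) (nat_lit 0) (nat_lit 0x7fde0b6c0) (nat_lit 1083611778),
  Rx.mk (nat_lit 461) (nat_lit 5) (nat_lit 1) (nat_lit 7) (nat_lit 7) (nat_lit 365) (nat_lit 284) r2_365 r5_284 (nat_lit 0) (nat_lit 0) (nat_lit 0) (nat_lit 0x80029938e) (nat_lit 1073741824)]
noncomputable def e40_34 : List Rx := [
  Rx.mk (nat_lit 325) (nat_lit 5) (nat_lit 0) (nat_lit 5) (nat_lit 5) (nat_lit 370) (nat_lit 340) r2_370 r11_340 (nat_lit 0) (nat_lit 6662062) (nat_lit 0) (nat_lit 0x7fca8b1a4) (nat_lit 1084015286),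
  Rx.mk (nat_lit 333) (nat_lit 5) (nat_lit 1) (nat_lit 5) (nat_lit 7) (nat_lit 371) (nat_lit 341) r2_371 r11_341 (nat_lit 0) (nat_lit 0) (nat_lit 0) (nat_lit 0x80029938e) (nat_lit 1073741824),
  Rx.mk (nat_lit 345) (nat_lit 1) (nat_lit 3) (nat_lit 5) (nat_lit 7) (nat_lit 373) (nat_lit 339) r2_373 r11_339 (nat_lit 0) (nat_lit 0) (nat_lit 0) (nat_lit 0x80029938e) (nat_lit 1073741824),
  Rx.mk (nat_lit 349) (nat_lit 5) (nat_lit 3) (nat_lit 5) (nat_lit 7) (nat_lit 372) (nat_lit 342) r2_372 r11_342 (nat_lit 0) (nat_lit 0) (nat_lit 0) (nat_lit 0x80029938e) (nat_lit 1073741824)]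
noncomputable def e40_35 : List Rx := [
  Rx.mk (nat_lit 473) (nat_lit 1) (nat_lit 3) (nat_lit 7) (nat_lit 7) (nat_lit 95) (nat_lit 10) r2_95 r6_10 (nat_lit 0) (nat_lit 0) (nat_lit 0) (nat_lit 0x80029938e) (nat_lit 1073741824),
  Rx.mk (nat_lit 477) (nat_lit 5) (nat_lit 3) (nat_lit 7) (nat_lit 7) (nat_lit 94) (nat_lit 11) r2_94 r6_11 (nat_lit 0) (nat_lit 0) (nat_lit 0) (nat_lit 0x80029938e) (nat_lit 1073741824)]
noncomputable def e40_36 : List Rx := [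
  Rx.mk (nat_lit 281) (nat_lit 1) (nat_lit 3) (nat_lit 4) (nat_lit 3) (nat_lit 273) (nat_lit 344) r2_273 r12_344 (nat_lit 0) (nat_lit 0) (nat_lit 8928741) (nat_lit 0x7f2f5106c) (nat_lit 1096360565),
  Rx.mk (nat_lit 453) (nat_lit 5) (nat_lit 0) (nat_lit 7) (nat_lit 5) (nat_lit 272) (nat_lit 346) r2_272 r12_346 (nat_lit 0) (nat_lit 8928741) (nat_lit 0) (nat_lit 0x7f2f5106c) (nat_lit 1096360565),
  Rx.mk (nat_lit 473) (nat_lit 1) (nat_lit 3) (nat_lit 7) (nat_lit 7) (nat_lit 275) (nat_lit 345) r2_275 r12_345 (nat_lit 0) (nat_lit 0) (nat_lit 0) (nat_lit 0x80029938e) (nat_lit 1073741824),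
  Rx.mk (nat_lit 477) (nat_lit 5) (nat_lit 3) (nat_lit 7) (nat_lit 7) (nat_lit 274) (nat_lit 347) r2_274 r12_347 (nat_lit 0) (nat_lit 0) (nat_lit 0) (nat_lit 0x80029938e) (nat_lit 1073741824)]
noncomputable def e40_37 : List Rx := [
  Rx.mk (nat_lit 293) (nat_lit 5) (nat_lit 4) (nat_lit 4) (nat_lit 1) (nat_lit 98) (nat_lit 254) r2_98 r0_254 (nat_lit 0) (nat_lit 7055863) (nat_lit 68407513) (nat_lit 0x53676d968) (nat_lit 1892836900),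
  Rx.mk (nat_lit 317) (nat_lit 5) (nat_lit 7) (nat_lit 4) (nat_lit 3) (nat_lit 99) (nat_lit 255) r2_99 r0_255 (nat_lit 0) (nat_lit 0) (nat_lit 10599859) (nat_lit 0x7f72b6d3e) (nat_lit 1093649483),
  Rx.mk (nat_lit 509) (nat_lit 5) (nat_lit 7) (nat_lit 7) (nat_lit 7) (nat_lit 100) (nat_lit 256) r2_100 r0_256 (nat_lit 0) (nat_lit 0) (nat_lit 0) (nat_lit 0x80029938e) (nat_lit 1073741824)]
noncomputable def e40_38 : List Rx := [
  Rx.mk (nat_lit 316) (nat_lit 4) (nat_lit 7) (nat_lit 4) (nat_lit 2) (nat_lit 4) (nat_lit 34) r2_4 r0_34 (nat_lit 546718) (nat_lit 0) (nat_lit 1100011) (nat_lit 0x5e324af1e) (nat_lit 1639056353),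
  Rx.mk (nat_lit 317) (nat_lit 5) (nat_lit 7) (nat_lit 4) (nat_lit 3) (nat_lit 5) (nat_lit 35) r2_5 r0_35 (nat_lit 0) (nat_lit 0) (nat_lit 6036329) (nat_lit 0x7f3f12eb0) (nat_lit 1092440953),
  Rx.mk (nat_lit 420) (nat_lit 4) (nat_lit 4) (nat_lit 6) (nat_lit 4) (nat_lit 0) (nat_lit 31) r2_0 r0_31 (nat_lit 340572) (nat_lit 418407) (nat_lit 0) (nat_lit 0x63d5cd998) (nat_lit 1544142803),
  Rx.mk (nat_lit 421) (nat_lit 5) (nat_lit 4) (nat_lit 6) (nat_lit 5) (nat_lit 1) (nat_lit 32) r2_1 r0_32 (nat_lit 0) (nat_lit 2521905) (nat_lit 0) (nat_lit 0x7ff8da2da) (nat_lit 1076883729),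
  Rx.mk (nat_lit 422) (nat_lit 6) (nat_lit 4) (nat_lit 6) (nat_lit 5) (nat_lit 2) (nat_lit 33) r2_2 r0_33 (nat_lit 0) (nat_lit 4691311) (nat_lit 0) (nat_lit 0x7fd860edc) (nat_lit 1081143335),
  Rx.mk (nat_lit 438) (nat_lit 6) (nat_lit 6) (nat_lit 6) (nat_lit 7) (nat_lit 3) (nat_lit 42) r2_3 r0_42 (nat_lit 0) (nat_lit 0) (nat_lit 0) (nat_lit 0x80029938e) (nat_lit 1073741824),
  Rx.mk (nat_lit 444) (nat_lit 4) (nat_lit 7) (nat_lit 6) (nat_lit 6) (nat_lit 6) (nat_lit 39) r2_6 r0_39 (nat_lit 372081) (nat_lit 0) (nat_lit 0) (nat_lit 0x80aa87848) (nat_lit 1063404905),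
  Rx.mk (nat_lit 445) (nat_lit 5) (nat_lit 7) (nat_lit 6) (nat_lit 7) (nat_lit 7) (nat_lit 40) r2_7 r0_40 (nat_lit 0) (nat_lit 0) (nat_lit 0) (nat_lit 0x812965e80) (nat_lit 1055044524),
  Rx.mk (nat_lit 446) (nat_lit 6) (nat_lit 7) (nat_lit 6) (nat_lit 7) (nat_lit 8) (nat_lit 41) r2_8 r0_41 (nat_lit 0) (nat_lit 0) (nat_lit 0) (nat_lit 0x812d32e5a) (nat_lit 1054804324),
  Rx.mk (nat_lit 479) (nat_lit 7) (nat_lit 3) (nat_lit 7) (nat_lit 7) (nat_lit 12) (nat_lit 30) r2_12 r0_30 (nat_lit 0) (nat_lit 0) (nat_lit 0) (nat_lit 0x80029938e) (nat_lit 1073741824),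
  Rx.mk (nat_lit 508) (nat_lit 4) (nat_lit 7) (nat_lit 7) (nat_lit 6) (nat_lit 9) (nat_lit 36) r2_9 r0_36 (nat_lit 3680737) (nat_lit 0) (nat_lit 0) (nat_lit 0x7f050aae2) (nat_lit 1093861361),
  Rx.mk (nat_lit 509) (nat_lit 5) (nat_lit 7) (nat_lit 7) (nat_lit 7) (nat_lit 10) (nat_lit 37) r2_10 r0_37 (nat_lit 0) (nat_lit 0) (nat_lit 0) (nat_lit 0x8000ca71a) (nat_lit 1073857724),
  Rx.mk (nat_lit 511) (nat_lit 7) (nat_lit 7) (nat_lit 7) (nat_lit 7) (nat_lit 11) (nat_lit 38) r2_11 r0_38 (nat_lit 0) (nat_lit 0) (nat_lit 0) (nat_lit 0x8000ca71a) (nat_lit 1073857724)]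
noncomputable def e40_39 : List Rx := [
  Rx.mk (nat_lit 292) (nat_lit 4) (nat_lit 4) (nat_lit 4) (nat_lit 0) (nat_lit 101) (nat_lit 339) r2_101 r7_339 (nat_lit 194986) (nat_lit 161181) (nat_lit 399938) (nat_lit 0x36448175a) (nat_lit 2303875029),
  Rx.mk (nat_lit 293) (nat_lit 5) (nat_lit 4) (nat_lit 4) (nat_lit 1) (nat_lit 102) (nat_lit 344) r2_102 r7_344 (nat_lit 0) (nat_lit 5199218) (nat_lit 5488875) (nat_lit 0x56490c8ae) (nat_lit 1780021717),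
  Rx.mk (nat_lit 316) (nat_lit 4) (nat_lit 7) (nat_lit 4) (nat_lit 2) (nat_lit 107) (nat_lit 340) r2_107 r7_340 (nat_lit 3553214) (nat_lit 0) (nat_lit 11611348) (nat_lit 0x6c960b1d0) (nat_lit 1412675886),
  Rx.mk (nat_lit 317) (nat_lit 5) (nat_lit 7) (nat_lit 4) (nat_lit 3) (nat_lit 108) (nat_lit 345) r2_108 r7_345 (nat_lit 0) (nat_lit 0) (nat_lit 5449534) (nat_lit 0x800095baa) (nat_lit 1079320458),
  Rx.mk (nat_lit 420) (nat_lit 4) (nat_lit 4) (nat_lit 6) (nat_lit 4) (nat_lit 103) (nat_lit 342) r2_103 r7_342 (nat_lit 1909851) (nat_lit 1580289) (nat_lit 0) (nat_lit 0x70324666e) (nat_lit 1340803264),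
  Rx.mk (nat_lit 421) (nat_lit 5) (nat_lit 4) (nat_lit 6) (nat_lit 5) (nat_lit 104) (nat_lit 347) r2_104 r7_347 (nat_lit 0) (nat_lit 5449534) (nat_lit 0) (nat_lit 0x80029938e) (nat_lit 1079191358),
  Rx.mk (nat_lit 422) (nat_lit 6) (nat_lit 4) (nat_lit 6) (nat_lit 5) (nat_lit 105) (nat_lit 350) r2_105 r7_350 (nat_lit 0) (nat_lit 5449534) (nat_lit 0) (nat_lit 0x7ffed32b8) (nat_lit 1079433358),
  Rx.mk (nat_lit 438) (nat_lit 6) (nat_lit 6) (nat_lit 6) (nat_lit 7) (nat_lit 106) (nat_lit 352) r2_106 r7_352 (nat_lit 0) (nat_lit 0) (nat_lit 0) (nat_lit 0x80029938e) (nat_lit 1073741824),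
  Rx.mk (nat_lit 444) (nat_lit 4) (nat_lit 7) (nat_lit 6) (nat_lit 6) (nat_lit 109) (nat_lit 343) r2_109 r7_343 (nat_lit 5449534) (nat_lit 0) (nat_lit 0) (nat_lit 0x7ffc30790) (nat_lit 1079602458),
  Rx.mk (nat_lit 445) (nat_lit 5) (nat_lit 7) (nat_lit 6) (nat_lit 7) (nat_lit 110) (nat_lit 348) r2_110 r7_348 (nat_lit 0) (nat_lit 0) (nat_lit 0) (nat_lit 0x80029938e) (nat_lit 1073741824),
  Rx.mk (nat_lit 446) (nat_lit 6) (nat_lit 7) (nat_lit 6) (nat_lit 7) (nat_lit 111) (nat_lit 351) r2_111 r7_351 (nat_lit 0) (nat_lit 0) (nat_lit 0) (nat_lit 0x80029938e) (nat_lit 1073741824),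
  Rx.mk (nat_lit 508) (nat_lit 4) (nat_lit 7) (nat_lit 7) (nat_lit 6) (nat_lit 112) (nat_lit 341) r2_112 r7_341 (nat_lit 5449534) (nat_lit 0) (nat_lit 0) (nat_lit 0x7ffaf9476) (nat_lit 1079680458),
  Rx.mk (nat_lit 509) (nat_lit 5) (nat_lit 7) (nat_lit 7) (nat_lit 7) (nat_lit 113) (nat_lit 346) r2_113 r7_346 (nat_lit 0) (nat_lit 0) (nat_lit 0) (nat_lit 0x80029938e) (nat_lit 1073741824),
  Rx.mk (nat_lit 511) (nat_lit 7) (nat_lit 7) (nat_lit 7) (nat_lit 7) (nat_lit 114) (nat_lit 349) r2_114 r7_349 (nat_lit 0) (nat_lit 0) (nat_lit 0) (nat_lit 0x80029938e) (nat_lit 1073741824)]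
noncomputable def e40_40 : List Rx := [
  Rx.mk (nat_lit 16) (nat_lit 0) (nat_lit 2) (nat_lit 0) (nat_lit 2) (nat_lit 35) (nat_lit 27) r2_35 r2_27 (nat_lit 280546) (nat_lit 0) (nat_lit 265597) (nat_lit 0x68b7d6d4a) (nat_lit 1462513867),
  Rx.mk (nat_lit 18) (nat_lit 2) (nat_lit 2) (nat_lit 0) (nat_lit 3) (nat_lit 36) (nat_lit 28) r2_36 r2_28 (nat_lit 0) (nat_lit 0) (nat_lit 5850974) (nat_lit 0x7fc1a06c0) (nat_lit 1083780798),
  Rx.mk (nat_lit 146) (nat_lit 2) (nat_lit 2) (nat_lit 2) (nat_lit 7) (nat_lit 37) (nat_lit 32) r2_37 r2_32 (nat_lit 0) (nat_lit 0) (nat_lit 0) (nat_lit 0x80029938e) (nat_lit 1073741824),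
  Rx.mk (nat_lit 178) (nat_lit 2) (nat_lit 6) (nat_lit 2) (nat_lit 7) (nat_lit 26) (nat_lit 41) r2_26 r2_41 (nat_lit 0) (nat_lit 0) (nat_lit 0) (nat_lit 0x80029938e) (nat_lit 1073741824),
  Rx.mk (nat_lit 182) (nat_lit 6) (nat_lit 6) (nat_lit 2) (nat_lit 7) (nat_lit 25) (nat_lit 42) r2_25 r2_42 (nat_lit 0) (nat_lit 0) (nat_lit 0) (nat_lit 0x80029938e) (nat_lit 1073741824),
  Rx.mk (nat_lit 192) (nat_lit 0) (nat_lit 0) (nat_lit 3) (nat_lit 4) (nat_lit 33) (nat_lit 22) r2_33 r2_22 (nat_lit 280546) (nat_lit 265597) (nat_lit 0) (nat_lit 0x68b7d6d4a) (nat_lit 1462513867),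
  Rx.mk (nat_lit 195) (nat_lit 3) (nat_lit 0) (nat_lit 3) (nat_lit 5) (nat_lit 34) (nat_lit 23) r2_34 r2_23 (nat_lit 0) (nat_lit 5850974) (nat_lit 0) (nat_lit 0x7fc1a06c0) (nat_lit 1083780798),
  Rx.mk (nat_lit 208) (nat_lit 0) (nat_lit 2) (nat_lit 3) (nat_lit 6) (nat_lit 38) (nat_lit 29) r2_38 r2_29 (nat_lit 3125513) (nat_lit 0) (nat_lit 0) (nat_lit 0x8044afd90) (nat_lit 1072658937),
  Rx.mk (nat_lit 210) (nat_lit 2) (nat_lit 2) (nat_lit 3) (nat_lit 7) (nat_lit 39) (nat_lit 31) r2_39 r2_31 (nat_lit 0) (nat_lit 0) (nat_lit 0) (nat_lit 0x80029938e) (nat_lit 1073741824),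
  Rx.mk (nat_lit 211) (nat_lit 3) (nat_lit 2) (nat_lit 3) (nat_lit 7) (nat_lit 40) (nat_lit 30) r2_40 r2_30 (nat_lit 0) (nat_lit 0) (nat_lit 0) (nat_lit 0x80029938e) (nat_lit 1073741824),
  Rx.mk (nat_lit 219) (nat_lit 3) (nat_lit 3) (nat_lit 3) (nat_lit 7) (nat_lit 43) (nat_lit 24) r2_43 r2_24 (nat_lit 0) (nat_lit 0) (nat_lit 0) (nat_lit 0x80029938e) (nat_lit 1073741824),
  Rx.mk (nat_lit 316) (nat_lit 4) (nat_lit 7) (nat_lit 4) (nat_lit 2) (nat_lit 27) (nat_lit 35) r2_27 r2_35 (nat_lit 280546) (nat_lit 0) (nat_lit 265597) (nat_lit 0x68b7d6d4a) (nat_lit 1462513867),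
  Rx.mk (nat_lit 319) (nat_lit 7) (nat_lit 7) (nat_lit 4) (nat_lit 3) (nat_lit 28) (nat_lit 36) r2_28 r2_36 (nat_lit 0) (nat_lit 0) (nat_lit 5850974) (nat_lit 0x7fc1a06c0) (nat_lit 1083780798),
  Rx.mk (nat_lit 420) (nat_lit 4) (nat_lit 4) (nat_lit 6) (nat_lit 4) (nat_lit 22) (nat_lit 33) r2_22 r2_33 (nat_lit 280546) (nat_lit 265597) (nat_lit 0) (nat_lit 0x68b7d6d4a) (nat_lit 1462513867),
  Rx.mk (nat_lit 422) (nat_lit 6) (nat_lit 4) (nat_lit 6) (nat_lit 5) (nat_lit 23) (nat_lit 34) r2_23 r2_34 (nat_lit 0) (nat_lit 5850974) (nat_lit 0) (nat_lit 0x7fc1a06c0) (nat_lit 1083780798),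
  Rx.mk (nat_lit 438) (nat_lit 6) (nat_lit 6) (nat_lit 6) (nat_lit 7) (nat_lit 24) (nat_lit 43) r2_24 r2_43 (nat_lit 0) (nat_lit 0) (nat_lit 0) (nat_lit 0x80029938e) (nat_lit 1073741824),
  Rx.mk (nat_lit 444) (nat_lit 4) (nat_lit 7) (nat_lit 6) (nat_lit 6) (nat_lit 29) (nat_lit 38) r2_29 r2_38 (nat_lit 3125513) (nat_lit 0) (nat_lit 0) (nat_lit 0x8044afd90) (nat_lit 1072658937),
  Rx.mk (nat_lit 446) (nat_lit 6) (nat_lit 7) (nat_lit 6) (nat_lit 7) (nat_lit 30) (nat_lit 40) r2_30 r2_40 (nat_lit 0) (nat_lit 0) (nat_lit 0) (nat_lit 0x80029938e) (nat_lit 1073741824),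
  Rx.mk (nat_lit 447) (nat_lit 7) (nat_lit 7) (nat_lit 6) (nat_lit 7) (nat_lit 31) (nat_lit 39) r2_31 r2_39 (nat_lit 0) (nat_lit 0) (nat_lit 0) (nat_lit 0x80029938e) (nat_lit 1073741824),
  Rx.mk (nat_lit 475) (nat_lit 3) (nat_lit 3) (nat_lit 7) (nat_lit 7) (nat_lit 42) (nat_lit 25) r2_42 r2_25 (nat_lit 0) (nat_lit 0) (nat_lit 0) (nat_lit 0x80029938e) (nat_lit 1073741824),
  Rx.mk (nat_lit 479) (nat_lit 7) (nat_lit 3) (nat_lit 7) (nat_lit 7) (nat_lit 41) (nat_lit 26) r2_41 r2_26 (nat_lit 0) (nat_lit 0) (nat_lit 0) (nat_lit 0x80029938e) (nat_lit 1073741824),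
  Rx.mk (nat_lit 511) (nat_lit 7) (nat_lit 7) (nat_lit 7) (nat_lit 7) (nat_lit 32) (nat_lit 37) r2_32 r2_37 (nat_lit 0) (nat_lit 0) (nat_lit 0) (nat_lit 0x80029938e) (nat_lit 1073741824)]
noncomputable def e40_41 : List Rx := [
  Rx.mk (nat_lit 178) (nat_lit 2) (nat_lit 6) (nat_lit 2) (nat_lit 7) (nat_lit 151) (nat_lit 11) r2_151 r9_11 (nat_lit 0) (nat_lit 0) (nat_lit 0) (nat_lit 0x80029938e) (nat_lit 1073741824),
  Rx.mk (nat_lit 182) (nat_lit 6) (nat_lit 6) (nat_lit 2) (nat_lit 7) (nat_lit 150) (nat_lit 12) r2_150 r9_12 (nat_lit 0) (nat_lit 0) (nat_lit 0) (nat_lit 0x80029938e) (nat_lit 1073741824),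
  Rx.mk (nat_lit 292) (nat_lit 4) (nat_lit 4) (nat_lit 4) (nat_lit 0) (nat_lit 146) (nat_lit 2) r2_146 r9_2 (nat_lit 2546051) (nat_lit 2326896) (nat_lit 2081628) (nat_lit 0x386eea2c4) (nat_lit 2274008399),
  Rx.mk (nat_lit 316) (nat_lit 4) (nat_lit 7) (nat_lit 4) (nat_lit 2) (nat_lit 152) (nat_lit 5) r2_152 r9_5 (nat_lit 5797154) (nat_lit 0) (nat_lit 3847664) (nat_lit 0x691fedd98) (nat_lit 1464868642),
  Rx.mk (nat_lit 319) (nat_lit 7) (nat_lit 7) (nat_lit 4) (nat_lit 3) (nat_lit 153) (nat_lit 6) r2_153 r9_6 (nat_lit 0) (nat_lit 0) (nat_lit 5297551) (nat_lit 0x7ffe7d322) (nat_lit 1079302875),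
  Rx.mk (nat_lit 420) (nat_lit 4) (nat_lit 4) (nat_lit 6) (nat_lit 4) (nat_lit 147) (nat_lit 3) r2_147 r9_3 (nat_lit 5449534) (nat_lit 3377583) (nat_lit 0) (nat_lit 0x7004d8aa6) (nat_lit 1349105741),
  Rx.mk (nat_lit 422) (nat_lit 6) (nat_lit 4) (nat_lit 6) (nat_lit 5) (nat_lit 148) (nat_lit 4) r2_148 r9_4 (nat_lit 0) (nat_lit 5449534) (nat_lit 0) (nat_lit 0x80029938e) (nat_lit 1079191358),
  Rx.mk (nat_lit 438) (nat_lit 6) (nat_lit 6) (nat_lit 6) (nat_lit 7) (nat_lit 149) (nat_lit 13) r2_149 r9_13 (nat_lit 0) (nat_lit 0) (nat_lit 0) (nat_lit 0x80029938e) (nat_lit 1073741824),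
  Rx.mk (nat_lit 444) (nat_lit 4) (nat_lit 7) (nat_lit 6) (nat_lit 6) (nat_lit 154) (nat_lit 8) r2_154 r9_8 (nat_lit 5449534) (nat_lit 0) (nat_lit 0) (nat_lit 0x80016828a) (nat_lit 1079267758),
  Rx.mk (nat_lit 446) (nat_lit 6) (nat_lit 7) (nat_lit 6) (nat_lit 7) (nat_lit 155) (nat_lit 10) r2_155 r9_10 (nat_lit 0) (nat_lit 0) (nat_lit 0) (nat_lit 0x80029938e) (nat_lit 1073741824),
  Rx.mk (nat_lit 447) (nat_lit 7) (nat_lit 7) (nat_lit 6) (nat_lit 7) (nat_lit 156) (nat_lit 9) r2_156 r9_9 (nat_lit 0) (nat_lit 0) (nat_lit 0) (nat_lit 0x80029938e) (nat_lit 1073741824),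
  Rx.mk (nat_lit 511) (nat_lit 7) (nat_lit 7) (nat_lit 7) (nat_lit 7) (nat_lit 157) (nat_lit 7) r2_157 r9_7 (nat_lit 0) (nat_lit 0) (nat_lit 0) (nat_lit 0x80029938e) (nat_lit 1073741824)]
noncomputable def e40_42 : List Rx := [
  Rx.mk (nat_lit 0) (nat_lit 0) (nat_lit 0) (nat_lit 0) (nat_lit 0) (nat_lit 170) (nat_lit 2) r2_170 r9_2 (nat_lit 2546051) (nat_lit 2081628) (nat_lit 2326896) (nat_lit 0x386eea2c4) (nat_lit 2274008399),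
  Rx.mk (nat_lit 16) (nat_lit 0) (nat_lit 2) (nat_lit 0) (nat_lit 2) (nat_lit 173) (nat_lit 3) r2_173 r9_3 (nat_lit 5449534) (nat_lit 0) (nat_lit 3377583) (nat_lit 0x7004d8aa6) (nat_lit 1349105741),
  Rx.mk (nat_lit 18) (nat_lit 2) (nat_lit 2) (nat_lit 0) (nat_lit 3) (nat_lit 174) (nat_lit 4) r2_174 r9_4 (nat_lit 0) (nat_lit 0) (nat_lit 5449534) (nat_lit 0x80029938e) (nat_lit 1079191358),
  Rx.mk (nat_lit 146) (nat_lit 2) (nat_lit 2) (nat_lit 2) (nat_lit 7) (nat_lit 175) (nat_lit 13) r2_175 r9_13 (nat_lit 0) (nat_lit 0) (nat_lit 0) (nat_lit 0x80029938e) (nat_lit 1073741824),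
  Rx.mk (nat_lit 178) (nat_lit 2) (nat_lit 6) (nat_lit 2) (nat_lit 7) (nat_lit 169) (nat_lit 12) r2_169 r9_12 (nat_lit 0) (nat_lit 0) (nat_lit 0) (nat_lit 0x80029938e) (nat_lit 1073741824),
  Rx.mk (nat_lit 182) (nat_lit 6) (nat_lit 6) (nat_lit 2) (nat_lit 7) (nat_lit 168) (nat_lit 11) r2_168 r9_11 (nat_lit 0) (nat_lit 0) (nat_lit 0) (nat_lit 0x80029938e) (nat_lit 1073741824),
  Rx.mk (nat_lit 192) (nat_lit 0) (nat_lit 0) (nat_lit 3) (nat_lit 4) (nat_lit 171) (nat_lit 5) r2_171 r9_5 (nat_lit 5797154) (nat_lit 3847664) (nat_lit 0) (nat_lit 0x691fedd98) (nat_lit 1464868642),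
  Rx.mk (nat_lit 195) (nat_lit 3) (nat_lit 0) (nat_lit 3) (nat_lit 5) (nat_lit 172) (nat_lit 6) r2_172 r9_6 (nat_lit 0) (nat_lit 5297551) (nat_lit 0) (nat_lit 0x7ffe7d322) (nat_lit 1079302875),
  Rx.mk (nat_lit 208) (nat_lit 0) (nat_lit 2) (nat_lit 3) (nat_lit 6) (nat_lit 176) (nat_lit 8) r2_176 r9_8 (nat_lit 5449534) (nat_lit 0) (nat_lit 0) (nat_lit 0x80016828a) (nat_lit 1079267758),
  Rx.mk (nat_lit 210) (nat_lit 2) (nat_lit 2) (nat_lit 3) (nat_lit 7) (nat_lit 177) (nat_lit 10) r2_177 r9_10 (nat_lit 0) (nat_lit 0) (nat_lit 0) (nat_lit 0x80029938e) (nat_lit 1073741824),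
  Rx.mk (nat_lit 211) (nat_lit 3) (nat_lit 2) (nat_lit 3) (nat_lit 7) (nat_lit 178) (nat_lit 9) r2_178 r9_9 (nat_lit 0) (nat_lit 0) (nat_lit 0) (nat_lit 0x80029938e) (nat_lit 1073741824),
  Rx.mk (nat_lit 219) (nat_lit 3) (nat_lit 3) (nat_lit 3) (nat_lit 7) (nat_lit 179) (nat_lit 7) r2_179 r9_7 (nat_lit 0) (nat_lit 0) (nat_lit 0) (nat_lit 0x80029938e) (nat_lit 1073741824)]
noncomputable def e40_43 : List Rx := [
  Rx.mk (nat_lit 316) (nat_lit 4) (nat_lit 7) (nat_lit 4) (nat_lit 2) (nat_lit 16) (nat_lit 33) r2_16 r1_33 (nat_lit 6015067) (nat_lit 0) (nat_lit 9015506) (nat_lit 0x725a13c30) (nat_lit 1316417397),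
  Rx.mk (nat_lit 420) (nat_lit 4) (nat_lit 4) (nat_lit 6) (nat_lit 4) (nat_lit 13) (nat_lit 31) r2_13 r1_31 (nat_lit 3982367) (nat_lit 42604894) (nat_lit 0) (nat_lit 0x703ff5cd8) (nat_lit 1383025585),
  Rx.mk (nat_lit 422) (nat_lit 6) (nat_lit 4) (nat_lit 6) (nat_lit 5) (nat_lit 14) (nat_lit 32) r2_14 r1_32 (nat_lit 0) (nat_lit 6403813) (nat_lit 0) (nat_lit 0x7fe29b438) (nat_lit 1082202837),
  Rx.mk (nat_lit 438) (nat_lit 6) (nat_lit 6) (nat_lit 6) (nat_lit 7) (nat_lit 15) (nat_lit 38) r2_15 r1_38 (nat_lit 0) (nat_lit 0) (nat_lit 0) (nat_lit 0x80029938e) (nat_lit 1073741824),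
  Rx.mk (nat_lit 444) (nat_lit 4) (nat_lit 7) (nat_lit 6) (nat_lit 6) (nat_lit 17) (nat_lit 36) r2_17 r1_36 (nat_lit 1294723) (nat_lit 0) (nat_lit 0) (nat_lit 0x817da7660) (nat_lit 1051014847),
  Rx.mk (nat_lit 446) (nat_lit 6) (nat_lit 7) (nat_lit 6) (nat_lit 7) (nat_lit 18) (nat_lit 37) r2_18 r1_37 (nat_lit 0) (nat_lit 0) (nat_lit 0) (nat_lit 0x804569894) (nat_lit 1069476124),
  Rx.mk (nat_lit 479) (nat_lit 7) (nat_lit 3) (nat_lit 7) (nat_lit 7) (nat_lit 21) (nat_lit 30) r2_21 r1_30 (nat_lit 0) (nat_lit 0) (nat_lit 0) (nat_lit 0x80029938e) (nat_lit 1073741824),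
  Rx.mk (nat_lit 508) (nat_lit 4) (nat_lit 7) (nat_lit 7) (nat_lit 6) (nat_lit 19) (nat_lit 34) r2_19 r1_34 (nat_lit 5449534) (nat_lit 0) (nat_lit 0) (nat_lit 0x80029938e) (nat_lit 1079191358),
  Rx.mk (nat_lit 511) (nat_lit 7) (nat_lit 7) (nat_lit 7) (nat_lit 7) (nat_lit 20) (nat_lit 35) r2_20 r1_35 (nat_lit 0) (nat_lit 0) (nat_lit 0) (nat_lit 0x80029938e) (nat_lit 1073741824)]
noncomputable def e40_44 : List Rx := [
  Rx.mk (nat_lit 292) (nat_lit 4) (nat_lit 4) (nat_lit 4) (nat_lit 0) (nat_lit 137) (nat_lit 257) r2_137 r8_257 (nat_lit 1804445) (nat_lit 1552451) (nat_lit 1910946) (nat_lit 0x3df2a5050) (nat_lit 2180372566),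
  Rx.mk (nat_lit 316) (nat_lit 4) (nat_lit 7) (nat_lit 4) (nat_lit 2) (nat_lit 141) (nat_lit 258) r2_141 r8_258 (nat_lit 6579376) (nat_lit 0) (nat_lit 4576373) (nat_lit 0x6c0b68fb4) (nat_lit 1417697373),
  Rx.mk (nat_lit 420) (nat_lit 4) (nat_lit 4) (nat_lit 6) (nat_lit 4) (nat_lit 138) (nat_lit 260) r2_138 r8_260 (nat_lit 5335424) (nat_lit 3733423) (nat_lit 0) (nat_lit 0x6f125636e) (nat_lit 1365141671),
  Rx.mk (nat_lit 422) (nat_lit 6) (nat_lit 4) (nat_lit 6) (nat_lit 5) (nat_lit 139) (nat_lit 263) r2_139 r8_263 (nat_lit 0) (nat_lit 5449534) (nat_lit 0) (nat_lit 0x80029938e) (nat_lit 1079191358),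
  Rx.mk (nat_lit 438) (nat_lit 6) (nat_lit 6) (nat_lit 6) (nat_lit 7) (nat_lit 140) (nat_lit 265) r2_140 r8_265 (nat_lit 0) (nat_lit 0) (nat_lit 0) (nat_lit 0x80029938e) (nat_lit 1073741824),
  Rx.mk (nat_lit 444) (nat_lit 4) (nat_lit 7) (nat_lit 6) (nat_lit 6) (nat_lit 142) (nat_lit 261) r2_142 r8_261 (nat_lit 5449534) (nat_lit 0) (nat_lit 0) (nat_lit 0x80029938e) (nat_lit 1079191358),
  Rx.mk (nat_lit 446) (nat_lit 6) (nat_lit 7) (nat_lit 6) (nat_lit 7) (nat_lit 143) (nat_lit 264) r2_143 r8_264 (nat_lit 0) (nat_lit 0) (nat_lit 0) (nat_lit 0x80029938e) (nat_lit 1073741824),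
  Rx.mk (nat_lit 508) (nat_lit 4) (nat_lit 7) (nat_lit 7) (nat_lit 6) (nat_lit 144) (nat_lit 259) r2_144 r8_259 (nat_lit 5449534) (nat_lit 0) (nat_lit 0) (nat_lit 0x80029938e) (nat_lit 1079191358),
  Rx.mk (nat_lit 511) (nat_lit 7) (nat_lit 7) (nat_lit 7) (nat_lit 7) (nat_lit 145) (nat_lit 262) r2_145 r8_262 (nat_lit 0) (nat_lit 0) (nat_lit 0) (nat_lit 0x80029938e) (nat_lit 1073741824)]
noncomputable def e40_45 : List Rx := [
  Rx.mk (nat_lit 293) (nat_lit 5) (nat_lit 4) (nat_lit 4) (nat_lit 1) (nat_lit 115) (nat_lit 258) r2_115 r1_258 (nat_lit 0) (nat_lit 10122828) (nat_lit 26800077) (nat_lit 0x5e3f5c5fe) (nat_lit 1673506229),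
  Rx.mk (nat_lit 301) (nat_lit 5) (nat_lit 5) (nat_lit 4) (nat_lit 3) (nat_lit 116) (nat_lit 259) r2_116 r1_259 (nat_lit 0) (nat_lit 0) (nat_lit 5449534) (nat_lit 0x80029938e) (nat_lit 1079191358),
  Rx.mk (nat_lit 317) (nat_lit 5) (nat_lit 7) (nat_lit 4) (nat_lit 3) (nat_lit 117) (nat_lit 260) r2_117 r1_260 (nat_lit 0) (nat_lit 0) (nat_lit 5449534) (nat_lit 0x80029938e) (nat_lit 1079191358),
  Rx.mk (nat_lit 509) (nat_lit 5) (nat_lit 7) (nat_lit 7) (nat_lit 7) (nat_lit 118) (nat_lit 261) r2_118 r1_261 (nat_lit 0) (nat_lit 0) (nat_lit 0) (nat_lit 0x80029938e) (nat_lit 1073741824)]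
noncomputable def e40_46 : List Rx := [
  Rx.mk (nat_lit 301) (nat_lit 5) (nat_lit 5) (nat_lit 4) (nat_lit 3) (nat_lit 286) (nat_lit 286) r2_286 r2_286 (nat_lit 0) (nat_lit 0) (nat_lit 5449534) (nat_lit 0x80029938e) (nat_lit 1079191358),
  Rx.mk (nat_lit 365) (nat_lit 5) (nat_lit 5) (nat_lit 5) (nat_lit 7) (nat_lit 287) (nat_lit 287) r2_287 r2_287 (nat_lit 0) (nat_lit 0) (nat_lit 0) (nat_lit 0x80029938e) (nat_lit 1073741824)]
noncomputable def e40_47 : List Rx := [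
  Rx.mk (nat_lit 292) (nat_lit 4) (nat_lit 4) (nat_lit 4) (nat_lit 0) (nat_lit 119) (nat_lit 25) r2_119 r8_25 (nat_lit 1156022) (nat_lit 993709) (nat_lit 3308338) (nat_lit 0x3dbd28666) (nat_lit 2184039993),
  Rx.mk (nat_lit 293) (nat_lit 5) (nat_lit 4) (nat_lit 4) (nat_lit 1) (nat_lit 120) (nat_lit 26) r2_120 r8_26 (nat_lit 0) (nat_lit 7095241) (nat_lit 9535202) (nat_lit 0x62dbf9de0) (nat_lit 1576319567),
  Rx.mk (nat_lit 300) (nat_lit 4) (nat_lit 5) (nat_lit 4) (nat_lit 2) (nat_lit 124) (nat_lit 30) r2_124 r8_30 (nat_lit 14795548) (nat_lit 0) (nat_lit 9407743) (nat_lit 0x6e1ef5760) (nat_lit 1396127315),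
  Rx.mk (nat_lit 301) (nat_lit 5) (nat_lit 5) (nat_lit 4) (nat_lit 3) (nat_lit 125) (nat_lit 31) r2_125 r8_31 (nat_lit 0) (nat_lit 0) (nat_lit 5449534) (nat_lit 0x80029938e) (nat_lit 1079191358),
  Rx.mk (nat_lit 316) (nat_lit 4) (nat_lit 7) (nat_lit 4) (nat_lit 2) (nat_lit 130) (nat_lit 35) r2_130 r8_35 (nat_lit 8977988) (nat_lit 0) (nat_lit 3132479) (nat_lit 0x705befb3c) (nat_lit 1346715391),
  Rx.mk (nat_lit 317) (nat_lit 5) (nat_lit 7) (nat_lit 4) (nat_lit 3) (nat_lit 131) (nat_lit 36) r2_131 r8_36 (nat_lit 0) (nat_lit 0) (nat_lit 5449534) (nat_lit 0x80029938e) (nat_lit 1079191358),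
  Rx.mk (nat_lit 420) (nat_lit 4) (nat_lit 4) (nat_lit 6) (nat_lit 4) (nat_lit 121) (nat_lit 27) r2_121 r8_27 (nat_lit 2433110) (nat_lit 1896956) (nat_lit 0) (nat_lit 0x6c3167f62) (nat_lit 1408391590),
  Rx.mk (nat_lit 421) (nat_lit 5) (nat_lit 4) (nat_lit 6) (nat_lit 5) (nat_lit 122) (nat_lit 28) r2_122 r8_28 (nat_lit 0) (nat_lit 5449534) (nat_lit 0) (nat_lit 0x80029938e) (nat_lit 1079191358),
  Rx.mk (nat_lit 422) (nat_lit 6) (nat_lit 4) (nat_lit 6) (nat_lit 5) (nat_lit 123) (nat_lit 29) r2_123 r8_29 (nat_lit 0) (nat_lit 5449534) (nat_lit 0) (nat_lit 0x800025e9a) (nat_lit 1079348458),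
  Rx.mk (nat_lit 428) (nat_lit 4) (nat_lit 5) (nat_lit 6) (nat_lit 6) (nat_lit 126) (nat_lit 32) r2_126 r8_32 (nat_lit 5449534) (nat_lit 0) (nat_lit 0) (nat_lit 0x80029938e) (nat_lit 1079191358),
  Rx.mk (nat_lit 429) (nat_lit 5) (nat_lit 5) (nat_lit 6) (nat_lit 7) (nat_lit 127) (nat_lit 33) r2_127 r8_33 (nat_lit 0) (nat_lit 0) (nat_lit 0) (nat_lit 0x80029938e) (nat_lit 1073741824),
  Rx.mk (nat_lit 430) (nat_lit 6) (nat_lit 5) (nat_lit 6) (nat_lit 7) (nat_lit 128) (nat_lit 34) r2_128 r8_34 (nat_lit 0) (nat_lit 0) (nat_lit 0) (nat_lit 0x80029938e) (nat_lit 1073741824),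
  Rx.mk (nat_lit 438) (nat_lit 6) (nat_lit 6) (nat_lit 6) (nat_lit 7) (nat_lit 129) (nat_lit 42) r2_129 r8_42 (nat_lit 0) (nat_lit 0) (nat_lit 0) (nat_lit 0x80029938e) (nat_lit 1073741824),
  Rx.mk (nat_lit 444) (nat_lit 4) (nat_lit 7) (nat_lit 6) (nat_lit 6) (nat_lit 132) (nat_lit 40) r2_132 r8_40 (nat_lit 5449534) (nat_lit 0) (nat_lit 0) (nat_lit 0x8001635b4) (nat_lit 1079268958),
  Rx.mk (nat_lit 445) (nat_lit 5) (nat_lit 7) (nat_lit 6) (nat_lit 7) (nat_lit 133) (nat_lit 41) r2_133 r8_41 (nat_lit 0) (nat_lit 0) (nat_lit 0) (nat_lit 0x80029938e) (nat_lit 1073741824),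
  Rx.mk (nat_lit 508) (nat_lit 4) (nat_lit 7) (nat_lit 7) (nat_lit 6) (nat_lit 134) (nat_lit 37) r2_134 r8_37 (nat_lit 5449534) (nat_lit 0) (nat_lit 0) (nat_lit 0x80029938e) (nat_lit 1079191358),
  Rx.mk (nat_lit 509) (nat_lit 5) (nat_lit 7) (nat_lit 7) (nat_lit 7) (nat_lit 135) (nat_lit 38) r2_135 r8_38 (nat_lit 0) (nat_lit 0) (nat_lit 0) (nat_lit 0x80029938e) (nat_lit 1073741824),
  Rx.mk (nat_lit 511) (nat_lit 7) (nat_lit 7) (nat_lit 7) (nat_lit 7) (nat_lit 136) (nat_lit 39) r2_136 r8_39 (nat_lit 0) (nat_lit 0) (nat_lit 0) (nat_lit 0x80029938e) (nat_lit 1073741824)]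
noncomputable def e40_48 : List Rx := [
  Rx.mk (nat_lit 300) (nat_lit 4) (nat_lit 5) (nat_lit 4) (nat_lit 2) (nat_lit 289) (nat_lit 260) r2_289 r9_260 (nat_lit 11852734) (nat_lit 0) (nat_lit 14127797) (nat_lit 0x69ce79236) (nat_lit 1469837355),
  Rx.mk (nat_lit 301) (nat_lit 5) (nat_lit 5) (nat_lit 4) (nat_lit 3) (nat_lit 290) (nat_lit 262) r2_290 r9_262 (nat_lit 0) (nat_lit 0) (nat_lit 5449534) (nat_lit 0x80029938e) (nat_lit 1079191358),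
  Rx.mk (nat_lit 365) (nat_lit 5) (nat_lit 5) (nat_lit 5) (nat_lit 7) (nat_lit 291) (nat_lit 263) r2_291 r9_263 (nat_lit 0) (nat_lit 0) (nat_lit 0) (nat_lit 0x80029938e) (nat_lit 1073741824),
  Rx.mk (nat_lit 428) (nat_lit 4) (nat_lit 5) (nat_lit 6) (nat_lit 6) (nat_lit 292) (nat_lit 261) r2_292 r9_261 (nat_lit 5449534) (nat_lit 0) (nat_lit 0) (nat_lit 0x80029938e) (nat_lit 1079191358),
  Rx.mk (nat_lit 429) (nat_lit 5) (nat_lit 5) (nat_lit 6) (nat_lit 7) (nat_lit 293) (nat_lit 264) r2_293 r9_264 (nat_lit 0) (nat_lit 0) (nat_lit 0) (nat_lit 0x80029938e) (nat_lit 1073741824),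
  Rx.mk (nat_lit 430) (nat_lit 6) (nat_lit 5) (nat_lit 6) (nat_lit 7) (nat_lit 294) (nat_lit 265) r2_294 r9_265 (nat_lit 0) (nat_lit 0) (nat_lit 0) (nat_lit 0x80029938e) (nat_lit 1073741824)]
noncomputable def e40_49 : List Rx := [
  Rx.mk (nat_lit 365) (nat_lit 5) (nat_lit 5) (nat_lit 5) (nat_lit 7) (nat_lit 288) (nat_lit 293) r2_288 r9_293 (nat_lit 0) (nat_lit 0) (nat_lit 0) (nat_lit 0x80029938e) (nat_lit 1073741824)]
noncomputable def e40_50 : List Rx := [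
  Rx.mk (nat_lit 317) (nat_lit 5) (nat_lit 7) (nat_lit 4) (nat_lit 3) (nat_lit 44) (nat_lit 254) r2_44 r3_254 (nat_lit 0) (nat_lit 0) (nat_lit 205631) (nat_lit 0x8653f4da4) (nat_lit 971638355),
  Rx.mk (nat_lit 477) (nat_lit 5) (nat_lit 3) (nat_lit 7) (nat_lit 7) (nat_lit 46) (nat_lit 256) r2_46 r3_256 (nat_lit 0) (nat_lit 0) (nat_lit 0) (nat_lit 0x8c10f8f0e) (nat_lit 878699324),
  Rx.mk (nat_lit 509) (nat_lit 5) (nat_lit 7) (nat_lit 7) (nat_lit 7) (nat_lit 45) (nat_lit 255) r2_45 r3_255 (nat_lit 0) (nat_lit 0) (nat_lit 0) (nat_lit 0x9397f870a) (nat_lit 756973324)]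
noncomputable def e40_51 : List Rx := [
  Rx.mk (nat_lit 317) (nat_lit 5) (nat_lit 7) (nat_lit 4) (nat_lit 3) (nat_lit 158) (nat_lit 271) r2_158 r4_271 (nat_lit 0) (nat_lit 0) (nat_lit 5449534) (nat_lit 0x80029938e) (nat_lit 1079191358),
  Rx.mk (nat_lit 509) (nat_lit 5) (nat_lit 7) (nat_lit 7) (nat_lit 7) (nat_lit 159) (nat_lit 272) r2_159 r4_272 (nat_lit 0) (nat_lit 0) (nat_lit 0) (nat_lit 0x80029938e) (nat_lit 1073741824)]
noncomputable def e40_52 : List Rx := [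
  Rx.mk (nat_lit 285) (nat_lit 5) (nat_lit 3) (nat_lit 4) (nat_lit 3) (nat_lit 239) (nat_lit 259) r2_239 r5_259 (nat_lit 0) (nat_lit 0) (nat_lit 35281805) (nat_lit 0x7f7f14a04) (nat_lit 1117526829),
  Rx.mk (nat_lit 317) (nat_lit 5) (nat_lit 7) (nat_lit 4) (nat_lit 3) (nat_lit 238) (nat_lit 258) r2_238 r5_258 (nat_lit 0) (nat_lit 0) (nat_lit 6864468) (nat_lit 0x7fee4d22c) (nat_lit 1081912492),
  Rx.mk (nat_lit 477) (nat_lit 5) (nat_lit 3) (nat_lit 7) (nat_lit 7) (nat_lit 240) (nat_lit 260) r2_240 r5_260 (nat_lit 0) (nat_lit 0) (nat_lit 0) (nat_lit 0x80029938e) (nat_lit 1073741824)]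
noncomputable def e40_53 : List Rx := [
  Rx.mk (nat_lit 316) (nat_lit 4) (nat_lit 7) (nat_lit 4) (nat_lit 2) (nat_lit 47) (nat_lit 24) r2_47 r4_24 (nat_lit 2064465) (nat_lit 0) (nat_lit 5168713) (nat_lit 0x73a0c98a4) (nat_lit 1287332102),
  Rx.mk (nat_lit 317) (nat_lit 5) (nat_lit 7) (nat_lit 4) (nat_lit 3) (nat_lit 48) (nat_lit 25) r2_48 r4_25 (nat_lit 0) (nat_lit 0) (nat_lit 5449534) (nat_lit 0x8013ee13e) (nat_lit 1078081258),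
  Rx.mk (nat_lit 444) (nat_lit 4) (nat_lit 7) (nat_lit 6) (nat_lit 6) (nat_lit 49) (nat_lit 28) r2_49 r4_28 (nat_lit 981855) (nat_lit 0) (nat_lit 0) (nat_lit 0x81f2f3770) (nat_lit 1043286379),
  Rx.mk (nat_lit 445) (nat_lit 5) (nat_lit 7) (nat_lit 6) (nat_lit 7) (nat_lit 50) (nat_lit 29) r2_50 r4_29 (nat_lit 0) (nat_lit 0) (nat_lit 0) (nat_lit 0x80b67c950) (nat_lit 1062312624),
  Rx.mk (nat_lit 446) (nat_lit 6) (nat_lit 7) (nat_lit 6) (nat_lit 7) (nat_lit 51) (nat_lit 30) r2_51 r4_30 (nat_lit 0) (nat_lit 0) (nat_lit 0) (nat_lit 0x80a87cb7a) (nat_lit 1063197724),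
  Rx.mk (nat_lit 476) (nat_lit 4) (nat_lit 3) (nat_lit 7) (nat_lit 6) (nat_lit 54) (nat_lit 21) r2_54 r4_21 (nat_lit 3660100) (nat_lit 0) (nat_lit 0) (nat_lit 0x8028ab1a8) (nat_lit 1074969124),
  Rx.mk (nat_lit 477) (nat_lit 5) (nat_lit 3) (nat_lit 7) (nat_lit 7) (nat_lit 55) (nat_lit 22) r2_55 r4_22 (nat_lit 0) (nat_lit 0) (nat_lit 0) (nat_lit 0x80029938e) (nat_lit 1073741824),
  Rx.mk (nat_lit 479) (nat_lit 7) (nat_lit 3) (nat_lit 7) (nat_lit 7) (nat_lit 56) (nat_lit 23) r2_56 r4_23 (nat_lit 0) (nat_lit 0) (nat_lit 0) (nat_lit 0x80029938e) (nat_lit 1073741824),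
  Rx.mk (nat_lit 508) (nat_lit 4) (nat_lit 7) (nat_lit 7) (nat_lit 6) (nat_lit 52) (nat_lit 26) r2_52 r4_26 (nat_lit 3829066) (nat_lit 0) (nat_lit 0) (nat_lit 0x8024942a4) (nat_lit 1075399190),
  Rx.mk (nat_lit 509) (nat_lit 5) (nat_lit 7) (nat_lit 7) (nat_lit 7) (nat_lit 53) (nat_lit 27) r2_53 r4_27 (nat_lit 0) (nat_lit 0) (nat_lit 0) (nat_lit 0x80029938e) (nat_lit 1073741824)]
noncomputable def e40_54 : List Rx := [
  Rx.mk (nat_lit 316) (nat_lit 4) (nat_lit 7) (nat_lit 4) (nat_lit 2) (nat_lit 160) (nat_lit 292) r2_160 r10_292 (nat_lit 2760723) (nat_lit 0) (nat_lit 4401173) (nat_lit 0x6c070f076) (nat_lit 1413974020),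
  Rx.mk (nat_lit 317) (nat_lit 5) (nat_lit 7) (nat_lit 4) (nat_lit 3) (nat_lit 161) (nat_lit 295) r2_161 r10_295 (nat_lit 0) (nat_lit 0) (nat_lit 5449534) (nat_lit 0x80029938e) (nat_lit 1079191358),
  Rx.mk (nat_lit 444) (nat_lit 4) (nat_lit 7) (nat_lit 6) (nat_lit 6) (nat_lit 162) (nat_lit 294) r2_162 r10_294 (nat_lit 5449534) (nat_lit 0) (nat_lit 0) (nat_lit 0x80029938e) (nat_lit 1079191358),
  Rx.mk (nat_lit 445) (nat_lit 5) (nat_lit 7) (nat_lit 6) (nat_lit 7) (nat_lit 163) (nat_lit 297) r2_163 r10_297 (nat_lit 0) (nat_lit 0) (nat_lit 0) (nat_lit 0x80029938e) (nat_lit 1073741824),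
  Rx.mk (nat_lit 446) (nat_lit 6) (nat_lit 7) (nat_lit 6) (nat_lit 7) (nat_lit 164) (nat_lit 298) r2_164 r10_298 (nat_lit 0) (nat_lit 0) (nat_lit 0) (nat_lit 0x80029938e) (nat_lit 1073741824),
  Rx.mk (nat_lit 508) (nat_lit 4) (nat_lit 7) (nat_lit 7) (nat_lit 6) (nat_lit 165) (nat_lit 293) r2_165 r10_293 (nat_lit 5449534) (nat_lit 0) (nat_lit 0) (nat_lit 0x80029938e) (nat_lit 1079191358),
  Rx.mk (nat_lit 509) (nat_lit 5) (nat_lit 7) (nat_lit 7) (nat_lit 7) (nat_lit 166) (nat_lit 296) r2_166 r10_296 (nat_lit 0) (nat_lit 0) (nat_lit 0) (nat_lit 0x80029938e) (nat_lit 1073741824)]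
noncomputable def e40_55 : List Rx := [
  Rx.mk (nat_lit 284) (nat_lit 4) (nat_lit 3) (nat_lit 4) (nat_lit 2) (nat_lit 246) (nat_lit 309) r2_246 r11_309 (nat_lit 9794519) (nat_lit 0) (nat_lit 10365630) (nat_lit 0x7c8c29d82) (nat_lit 1151554373),
  Rx.mk (nat_lit 285) (nat_lit 5) (nat_lit 3) (nat_lit 4) (nat_lit 3) (nat_lit 247) (nat_lit 313) r2_247 r11_313 (nat_lit 0) (nat_lit 0) (nat_lit 5449534) (nat_lit 0x80029938e) (nat_lit 1079191358),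
  Rx.mk (nat_lit 316) (nat_lit 4) (nat_lit 7) (nat_lit 4) (nat_lit 2) (nat_lit 241) (nat_lit 308) r2_241 r11_308 (nat_lit 9315237) (nat_lit 0) (nat_lit 10390094) (nat_lit 0x78a9c488c) (nat_lit 1215867155),
  Rx.mk (nat_lit 317) (nat_lit 5) (nat_lit 7) (nat_lit 4) (nat_lit 3) (nat_lit 242) (nat_lit 312) r2_242 r11_312 (nat_lit 0) (nat_lit 0) (nat_lit 5449534) (nat_lit 0x80029938e) (nat_lit 1079191358),
  Rx.mk (nat_lit 444) (nat_lit 4) (nat_lit 7) (nat_lit 6) (nat_lit 6) (nat_lit 243) (nat_lit 311) r2_243 r11_311 (nat_lit 2910432) (nat_lit 0) (nat_lit 0) (nat_lit 0x804c46c02) (nat_lit 1071955056),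
  Rx.mk (nat_lit 445) (nat_lit 5) (nat_lit 7) (nat_lit 6) (nat_lit 7) (nat_lit 244) (nat_lit 315) r2_244 r11_315 (nat_lit 0) (nat_lit 0) (nat_lit 0) (nat_lit 0x80029938e) (nat_lit 1073741824),
  Rx.mk (nat_lit 446) (nat_lit 6) (nat_lit 7) (nat_lit 6) (nat_lit 7) (nat_lit 245) (nat_lit 317) r2_245 r11_317 (nat_lit 0) (nat_lit 0) (nat_lit 0) (nat_lit 0x80029938e) (nat_lit 1073741824),
  Rx.mk (nat_lit 476) (nat_lit 4) (nat_lit 3) (nat_lit 7) (nat_lit 6) (nat_lit 248) (nat_lit 310) r2_248 r11_310 (nat_lit 5449534) (nat_lit 0) (nat_lit 0) (nat_lit 0x80029938e) (nat_lit 1079191358),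
  Rx.mk (nat_lit 477) (nat_lit 5) (nat_lit 3) (nat_lit 7) (nat_lit 7) (nat_lit 249) (nat_lit 314) r2_249 r11_314 (nat_lit 0) (nat_lit 0) (nat_lit 0) (nat_lit 0x80029938e) (nat_lit 1073741824),
  Rx.mk (nat_lit 479) (nat_lit 7) (nat_lit 3) (nat_lit 7) (nat_lit 7) (nat_lit 250) (nat_lit 316) r2_250 r11_316 (nat_lit 0) (nat_lit 0) (nat_lit 0) (nat_lit 0x80029938e) (nat_lit 1073741824)]
noncomputable def e40_56 : List Rx := [
  Rx.mk (nat_lit 477) (nat_lit 5) (nat_lit 3) (nat_lit 7) (nat_lit 7) (nat_lit 58) (nat_lit 14) r2_58 r5_14 (nat_lit 0) (nat_lit 0) (nat_lit 0) (nat_lit 0x80029938e) (nat_lit 1073741824),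
  Rx.mk (nat_lit 509) (nat_lit 5) (nat_lit 7) (nat_lit 7) (nat_lit 7) (nat_lit 57) (nat_lit 15) r2_57 r5_15 (nat_lit 0) (nat_lit 0) (nat_lit 0) (nat_lit 0x80300ae4e) (nat_lit 1070836624)]
noncomputable def e40_57 : List Rx := [
  Rx.mk (nat_lit 509) (nat_lit 5) (nat_lit 7) (nat_lit 7) (nat_lit 7) (nat_lit 167) (nat_lit 5) r2_167 r11_5 (nat_lit 0) (nat_lit 0) (nat_lit 0) (nat_lit 0x80029938e) (nat_lit 1073741824)]
noncomputable def e40 : List (List Rx) := [e40_0, e40_1, e40_2, e40_3, e40_4, e40_5, e40_6, e40_7, e40_8, e40_9, e40_10, e40_11, e40_12, e40_13, e40_14, e40_15, e40_16, e40_17, e40_18, e40_19, e40_20, e40_21, e40_22, e40_23, e40_24, e40_25, e40_26, e40_27, e40_28, e40_29, e40_30, e40_31, e40_32, e40_33, e40_34, e40_35, e40_36, e40_37, e40_38, e40_39, e40_40, e40_41, e40_42, e40_43, e40_44, e40_45, e40_46, e40_47, e40_48, e40_49, e40_50, e40_51,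 e40_52, e40_53, e40_54, e40_55, e40_56, e40_57]

end Pool.Agent.AKXS_34_39_VA
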