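import Pool.Agent.AKXS_34_39_VA.Dat
import Pool.Agent.AKXS_34_39_VA.C7
import Pool.Agent.AKX.Split

set_option autoImplicit false

namespace Pool.Agent.AKXS_34_39_VA

open Pool.Agent.AKX Pool.Agent.AKU

theorem p7 :
    (P7.sz D.sb (nat_lit 456) D.nk D.off D.offe = true) ∧
    (symY D.sb (nthR [] D.BL (nat_lit 7)) (rg (nat_lit 0) (nat_lit 60)) = true) ∧
    (symY D.sb (nthR [] D.BL (nat_lit 7)) (rg (nat_lit 60) (nat_lit 60)) = true) ∧
    (symY D.sb (nthR [] D.BL (nat_lit 7)) (rg (nat_lit 120) (nat_lit 60)) = true) ∧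
    (symY D.sb (nthR [] D.BL (nat_lit 7)) (rg (nat_lit 180) (nat_lit 60)) = true) ∧
    (symY D.sb (nthR [] D.BL (nat_lit 7)) (rg (nat_lit 240) (nat_lit 60)) = true) ∧
    (symY D.sb (nthR [] D.BL (nat_lit 7)) (rg (nat_lit 300) (nat_lit 60)) = true) ∧
    (symY D.sb (nthR [] D.BL (nat_lit 7)) (rg (nat_lit 360) (nat_lit 60)) = true) ∧
    (symY D.sb (nthR [] D.BL (nat_lit 7)) (rg (nat_lit 420) (nat_lit 36)) = true) ∧
    (P7.pv D.sb D.nk D.off D.offe (nthR [] D.BL (nat_lit 7)) (fun k => nthL D.lamL (3 * (nat_lit 7) + k)) (fun k => nthL D.evL (3 * (nat_lit 7) + k)) (rg (nat_lit 0) (nat_lit 40)) = true) ∧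
    (P7.pv D.sb D.nk D.off D.offe (nthR [] D.BL (nat_lit 7)) (fun k => nthL D.lamL (3 * (nat_lit 7) + k)) (fun k => nthL D.evL (3 * (nat_lit 7) + k)) (rg (nat_lit 40) (nat_lit 40)) = true) ∧
    (P7.pv D.sb D.nk D.off D.offe (nthR [] D.BL (nat_lit 7)) (fun k => nthL D.lamL (3 * (nat_lit 7) + k)) (fun k => nthL D.evL (3 * (nat_lit 7) + k)) (rg (nat_lit 80) (nat_lit 40)) = true) ∧
    (P7.pv D.sb D.nk D.off D.offe (nthR [] D.BL (nat_lit 7)) (fun k => nthL D.lamL (3 * (nat_lit 7) + k)) (fun k => nthL D.evL (3 * (nat_lit 7) + k)) (rg (nat_lit 120) (nat_lit 40)) = true) ∧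
    (P7.pv D.sb D.nk D.off D.offe (nthR [] D.BL (nat_lit 7)) (fun k => nthL D.lamL (3 * (nat_lit 7) + k)) (fun k => nthL D.evL (3 * (nat_lit 7) + k)) (rg (nat_lit 160) (nat_lit 40)) = true) ∧
    (P7.pv D.sb D.nk D.off D.offe (nthR [] D.BL (nat_lit 7)) (fun k => nthL D.lamL (3 * (nat_lit 7) + k)) (fun k => nthL D.evL (3 * (nat_lit 7) + k)) (rg (nat_lit 200) (nat_lit 40)) = true) ∧
    (P7.pv D.sb D.nk D.off D.offe (nthR [] D.BL (nat_lit 7)) (fun k => nthL D.lamL (3 * (nat_lit 7) + k)) (fun k => nthL D.evL (3 * (nat_lit 7) + k)) (rg (nat_lit 240) (nat_lit 40)) = true) ∧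
    (P7.pv D.sb D.nk D.off D.offe (nthR [] D.BL (nat_lit 7)) (fun k => nthL D.lamL (3 * (nat_lit 7) + k)) (fun k => nthL D.evL (3 * (nat_lit 7) + k)) (rg (nat_lit 280) (nat_lit 40)) = true) ∧
    (P7.pv D.sb D.nk D.off D.offe (nthR [] D.BL (nat_lit 7)) (fun k => nthL D.lamL (3 * (nat_lit 7) + k)) (fun k => nthL D.evL (3 * (nat_lit 7) + k)) (rg (nat_lit 320) (nat_lit 40)) = true) ∧
    (P7.pv D.sb D.nk D.off D.offe (nthR [] D.BL (nat_lit 7)) (fun k => nthL D.lamL (3 * (nat_lit 7) + k)) (fun k => nthL D.evL (3 * (nat_lit 7) + k)) (rg (nat_lit 360) (nat_lit 40)) = true) ∧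
    (P7.pv D.sb D.nk D.off D.offe (nthR [] D.BL (nat_lit 7)) (fun k => nthL D.lamL (3 * (nat_lit 7) + k)) (fun k => nthL D.evL (3 * (nat_lit 7) + k)) (rg (nat_lit 400) (nat_lit 40)) = true) ∧
    (P7.pv D.sb D.nk D.off D.offe (nthR [] D.BL (nat_lit 7)) (fun k => nthL D.lamL (3 * (nat_lit 7) + k)) (fun k => nthL D.evL (3 * (nat_lit 7) + k)) (rg (nat_lit 440) (nat_lit 16)) = true) :=
  ⟨by decide +kernel,
   by decide +kernel,
   by decide +kernel,
   by decide +kernel,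
   by decide +kernel,
   by decide +kernel,
   by decide +kernel,
   by decide +kernel,
   by decide +kernel,
   by decide +kernel,
   by decide +kernel,
   by decide +kernel,
   by decide +kernel,
   by decide +kernel,
   by decide +kernel,
   by decide +kernel,
   by decide +kernel,
   by decide +kernel,
   by decide +kernel,
   by decide +kernel,
   by decide +kernel⟩

end Pool.Agent.AKXS_34_39_VA
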